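import Pool.Agent.MU3.StI2
import Pool.Agent.RID.P_LAYC

/-!
# MU3, block I, module ILAY: the layer is the real subfield of `ℚ(ζ)`
-/

set_option autoImplicit false

open NumberField Polynomial

namespace Pool.Agent.MU3I

open Pool.Agent.RI Pool.Agent.RID

namespace Ilay

/-- subgroups of the same order of a cyclic group are equal -/
lemma sub_eq {G : Type*} [Group G] [Finite G] [IsCyclic G] (S T : Subgroup G)
    (h : Nat.card S = Nat.card T) : S = T := by
  classical
  have : Fintype G := Fintype.ofFinite G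
  have key : ∀ S : Subgroup G, (S : Set G) = {x : G | x ^ Nat.card S = 1} := by
    intro S
    have h1 : (S : Set G) ⊆ {x : G | x ^ Nat.card S = 1} := by
      intro x hx
      have h2 := pow_card_eq_one' (G := S) (x := ⟨x, hx⟩)
      exact congrArg (Subtype.val : S → G) h2
    refine Set.eq_of_subset_of_ncard_le h1 ?_ (Set.toFinite _)
    have h3 := IsCyclic.card_pow_eq_one_le (α := G) (n := Nat.card S) Nat.card_pos
    have h4 : {x : G | x ^ Nat.card S = 1}.ncard =
        (Finset.univ.filter fun x : G => x ^ Nat.card S = 1).card := by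
      rw [← Set.ncard_coe_finset]
      congr 1
      ext x
      simp
    rw [h4]
    refine h3.trans (le_of_eq ?_)
    rfl
  apply SetLike.coe_injective
  rw [key S, key T, h]

/-- subfields of the same degree of a cyclic extension are equal -/
lemma uniq {F E : Type*} [Field F] [Field E] [Algebra F E] (B R D : IntermediateField F E)
    (hB : B ≤ D) (hR : R ≤ D) [FiniteDimensional F D] [IsGalois F D] [IsCyclic (D ≃ₐ[F] D)]
    (h : Module.finrank F B = Module.finrank F R) : B = R := by
  set B' := IntermediateField.restrict hB with hB'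
  set R' := IntermediateField.restrict hR with hR'
  have hb : Module.finrank F B' = Module.finrank F B :=
    (IntermediateField.restrictAlgEquiv hB).toLinearEquiv.finrank_eq.symm
  have hr : Module.finrank F R' = Module.finrank F R :=
    (IntermediateField.restrictAlgEquiv hR).toLinearEquiv.finrank_eq.symm
  have h1 := Module.finrank_mul_finrank F B' D
  have h2 := Module.finrank_mul_finrank F R' D
  rw [hb, h, ← hr, ← h2] at h1
  have h3 : 0 < Module.finrank F R' := Module.finrank_pos
  have h4 := Nat.eq_of_mul_eq_mul_left h3 h1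
  rw [← IsGalois.card_fixingSubgroup_eq_finrank, ← IsGalois.card_fixingSubgroup_eq_finrank] at h4
  have h5 := sub_eq _ _ h4
  have h6 : B' = R' := by
    rw [← IsGalois.fixedField_fixingSubgroup B', ← IsGalois.fixedField_fixingSubgroup R', h5]
  rw [← IntermediateField.lift_restrict hB, ← IntermediateField.lift_restrict hR]
  exact congrArg _ h6

/-- the degree of the field of `ζ + ζ⁻¹` -/
lemma deg {F E : Type*} [Field F] [Field E] [Algebra F E] (ζ : E) (d : ℕ) (hζ : ζ ≠ 0)
    (h : Module.finrank F (IntermediateField.adjoin F {ζ}) = d * 2)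
    (hn : ζ ∉ IntermediateField.adjoin F {ζ + ζ⁻¹}) :
    Module.finrank F (IntermediateField.adjoin F {ζ + ζ⁻¹}) = d := by
  set R := IntermediateField.adjoin F {ζ + ζ⁻¹} with hR
  set a : R := ⟨ζ + ζ⁻¹, IntermediateField.mem_adjoin_simple_self F _⟩ with ha
  have hpm : (X ^ 2 - C a * X + 1 : R[X]).Monic := by monicity!
  have hpd : (X ^ 2 - C a * X + 1 : R[X]).natDegree = 2 := by compute_degree!
  have hp : aeval ζ (X ^ 2 - C a * X + 1 : R[X]) = 0 := by
    have e : algebraMap R E a = ζ + ζ⁻¹ := rfl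
    simp only [map_add, map_sub, map_mul, map_pow, aeval_X, aeval_C, map_one, e]
    field_simp
    ring
  have hint : IsIntegral R ζ := ⟨_, hpm, hp⟩
  have hle : (minpoly R ζ).natDegree ≤ 2 := by
    rw [← hpd]
    exact natDegree_le_of_dvd (minpoly.dvd R ζ hp) hpm.ne_zero
  have hpos : 0 < (minpoly R ζ).natDegree := minpoly.natDegree_pos hint
  have hne : (minpoly R ζ).natDegree ≠ 1 := by
    intro h1
    rw [minpoly.natDegree_eq_one_iff] at h1
    obtain ⟨y, hy⟩ := h1
    apply hn
    rw [← hy]
    exact y.2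
  have h2 : Module.finrank R (IntermediateField.adjoin R {ζ}) = 2 := by
    rw [IntermediateField.adjoin.finrank hint]
    omega
  have h3 : (IntermediateField.adjoin R {ζ}).restrictScalars F = IntermediateField.adjoin F {ζ} := by
    rw [hR, IntermediateField.adjoin_adjoin_left]
    apply le_antisymm
    · rw [IntermediateField.adjoin_le_iff]
      rintro x (hx | hx)
      · rw [Set.mem_singleton_iff.1 hx]
        have := IntermediateField.mem_adjoin_simple_self F ζ
        exact add_mem this (inv_mem this)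
      · rw [Set.mem_singleton_iff.1 hx]
        exact IntermediateField.mem_adjoin_simple_self F ζ
    · exact IntermediateField.adjoin.mono F _ _ Set.subset_union_right
  have h4 := Module.finrank_mul_finrank F R (IntermediateField.adjoin R {ζ})
  have h5 : Module.finrank F (IntermediateField.adjoin R {ζ}) =
      Module.finrank F (IntermediateField.adjoin F {ζ}) := by
    rw [← h3]
    rfl
  rw [h2, h5, h] at h4
  omega

/-- the elements fixed by an endomorphism -/
lemma fix_sup {F E : Type*} [Field F] [Field E] [Algebra F E] (c : E →ₐ[F] E)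
    (B R : IntermediateField F E) (hB : ∀ x ∈ B, c x = x) (hR : ∀ x ∈ R, c x = x) :
    ∀ x ∈ B ⊔ R, c x = x := by
  let T : IntermediateField F E := (AlgHom.equalizer c (AlgHom.id F E)).toIntermediateField
    (fun x hx => by
      have hx' : c x = x := hx
      show c x⁻¹ = x⁻¹
      rw [map_inv₀, hx'])
  have h : B ⊔ R ≤ T := sup_le (fun x hx => hB x hx) (fun x hx => hR x hx)
  intro x hx
  exact h hx

lemma zt_prim (M : ℕ) (hM : M ≠ 0) : IsPrimitiveRoot (zt M) M := Complex.isPrimitiveRoot_exp M hM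

lemma conj_root {z : ℂ} {N : ℕ} (hN : N ≠ 0) (hz : z ^ N = 1) : (starRingEnd ℂ) z = z⁻¹ := by
  have h1 : ‖z‖ = 1 := Complex.norm_eq_one_of_pow_eq_one hz hN
  rw [Complex.inv_def, Complex.normSq_eq_norm_sq, h1]
  simp

end Ilay

open Ilay in
theorem t_ILAY : St_ILAY := by
  intro n B hB
  obtain ⟨hdeg, hreal, m, hle⟩ := hB
  have hp : Fact (Nat.Prime 3) := ⟨Nat.prime_three⟩
  set j := max m (n + 1) with hj
  have hN : 3 ^ j ≠ 0 := pow_ne_zero _ (by norm_num)
  have hM : 3 ^ (n + 1) ≠ 0 := pow_ne_zero _ (by norm_num)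
  set ζ := zt (3 ^ (n + 1)) with hζ
  have hζp : IsPrimitiveRoot ζ (3 ^ (n + 1)) := zt_prim _ hM
  have hζ0 : ζ ≠ 0 := hζp.ne_zero hM
  have hζc : (starRingEnd ℂ) ζ = ζ⁻¹ := conj_root hM hζp.pow_eq_one
  -- the fields are contained in the cyclotomic field
  have hBj : B ≤ IntermediateField.adjoin ℚ {z : ℂ | z ^ (3 ^ j) = 1} := by
    refine hle.trans (IntermediateField.adjoin.mono _ _ _ ?_)
    intro z hz
    have hz' : z ^ 3 ^ m = 1 := hz
    obtain ⟨t, ht⟩ := pow_dvd_pow 3 (le_max_left m (n + 1))
    show z ^ 3 ^ j = 1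
    rw [hj, ht, pow_mul, hz', one_pow]
  set R := IntermediateField.adjoin ℚ {ζ + ζ⁻¹} with hR
  have hζj : ζ ∈ IntermediateField.adjoin ℚ {z : ℂ | z ^ (3 ^ j) = 1} := by
    apply IntermediateField.subset_adjoin
    obtain ⟨t, ht⟩ := pow_dvd_pow 3 (le_max_right m (n + 1))
    show ζ ^ 3 ^ j = 1
    rw [hj, ht, pow_mul, hζp.pow_eq_one, one_pow]
  have hRj : R ≤ IntermediateField.adjoin ℚ {z : ℂ | z ^ (3 ^ j) = 1} := by
    rw [hR, IntermediateField.adjoin_simple_le_iff]
    exact add_mem hζj (inv_mem hζj)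
  set c : ℂ →ₐ[ℚ] ℂ := (Complex.conjAe.toAlgHom).restrictScalars ℚ with hc
  have hcz : ∀ z : ℂ, c z = (starRingEnd ℂ) z := fun z => rfl
  have hRr : ∀ x ∈ R, c x = x := by
    have hRR : R ≤ (AlgHom.equalizer c (AlgHom.id ℚ ℂ)).toIntermediateField (fun x hx => by
        have hx' : c x = x := hx
        show c x⁻¹ = x⁻¹
        rw [map_inv₀, hx']) := by
      rw [hR, IntermediateField.adjoin_simple_le_iff]
      show c (ζ + ζ⁻¹) = ζ + ζ⁻¹
      rw [map_add, map_inv₀, hcz, hζc, inv_inv, add_comm]
    exact fun x hx => hRR hx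
  have hfix := fix_sup c B R (fun x hx => hreal x hx) hRr
  have hBR : B ⊔ R ≤ IntermediateField.adjoin ℚ {z : ℂ | z ^ (3 ^ j) = 1} := sup_le hBj hRj
  have hab := LAY.isAbelian_of_le (F := ℚ) (E := ℂ) (3 ^ j) hN
    ⟨_, Complex.isPrimitiveRoot_exp _ hN⟩ (B ⊔ R) hBR
  have hG := hab.toIsGalois
  have hirr : Irreducible (cyclotomic (3 ^ j) ℚ) :=
    cyclotomic.irreducible_rat (Nat.pos_of_ne_zero hN)
  have hcyc := LAYC.gen (F := ℚ) (E := ℂ) 3 j hirr (Complex.isPrimitiveRoot_exp _ hN) c (by
    rw [hcz]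
    exact conj_root hN (Complex.isPrimitiveRoot_exp _ hN).pow_eq_one) (B ⊔ R) hBR hfix
  -- the degree
  have hdR : Module.finrank ℚ R = 3 ^ n := by
    apply deg ζ (3 ^ n) hζ0
    · have hint : IsIntegral ℚ ζ := (hζp.isIntegral (Nat.pos_of_ne_zero hM)).tower_top
      rw [IntermediateField.adjoin.finrank hint,
        ← cyclotomic_eq_minpoly_rat hζp (Nat.pos_of_ne_zero hM), natDegree_cyclotomic,
        Nat.totient_prime_pow_succ Nat.prime_three]
    · intro h1
      have h2 := hRr _ h1
      rw [hcz, hζc] at h2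
      have h3 : ζ ^ 2 = 1 := by
        rw [pow_two]
        nth_rewrite 1 [← h2]
        exact inv_mul_cancel₀ hζ0
      have h4 := hζp.dvd_of_pow_eq_one 2 h3
      have h5 : 3 ∣ 2 := (dvd_pow_self 3 (Nat.succ_ne_zero n)).trans h4
      omega
  have : FiniteDimensional ℚ B := Module.finite_of_finrank_pos (by rw [hdeg]; positivity)
  have : FiniteDimensional ℚ R := Module.finite_of_finrank_pos (by rw [hdR]; positivity)
  have hfd : FiniteDimensional ℚ ↥(B ⊔ R) := IntermediateField.finiteDimensional_sup B R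
  exact uniq B R (B ⊔ R) le_sup_left le_sup_right (hdeg.trans hdR.symm)

end Pool.Agent.MU3I
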