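import Pool.Agent.MU3.StE

/-!
# MU3, block E: module RAM (helper77)
-/

set_option autoImplicit false

namespace Pool.Agent.MU3E

open _root_.MU3 Pool.Agent.MU3A Pool.Agent.MU3B Pool.Agent.MU3C Pool.Agent.MU3V Pool.Agent.RI
open NumberField IsDedekindDomain

noncomputable section

namespace RAM

section local_field

variable {V : ValuationSubring ℂ} {K : Type} [Field K] [NumberField K] (io : K →+* ℂ)

omit [NumberField K] in
/-- integral elements are in `V` -/
theorem int_le (x : 𝓞 K) : V.valuation (io x) ≤ 1 := by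
  rw [ValuationSubring.valuation_le_one_iff]
  have h1 : IsIntegral ℤ (io (x : K)) :=
    (RingOfIntegers.isIntegral_coe x).map io.toIntAlgHom
  obtain ⟨y, hy⟩ := IsIntegrallyClosed.isIntegral_iff.1 (h1.tower_top : IsIntegral V (io (x : K)))
  rw [← hy]
  exact y.2

omit [NumberField K] in
/-- the height one prime of `𝓞 K` below `V` -/
theorem exists_prime {z : 𝓞 K} (hz : z ≠ 0) (hz1 : V.valuation (io z) < 1) :
    ∃ w : HeightOneSpectrum (𝓞 K), ∀ x : 𝓞 K, x ∈ w.asIdeal ↔ V.valuation (io x) < 1 := by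
  let f : 𝓞 K →+* V := (io.comp (algebraMap (𝓞 K) K)).codRestrict V.toSubring
    (fun x => (ValuationSubring.valuation_le_one_iff V _).1 (int_le io x))
  have hmem : ∀ x : 𝓞 K, x ∈ (IsLocalRing.maximalIdeal V).comap f ↔ V.valuation (io x) < 1 := by
    intro x
    rw [Ideal.mem_comap, ← ValuationSubring.coe_mem_nonunits_iff]
    exact Iff.rfl
  refine ⟨⟨(IsLocalRing.maximalIdeal V).comap f, Ideal.comap_isPrime f _, ?_⟩, hmem⟩
  intro h
  have h1 := (hmem z).2 hz1
  rw [h, Ideal.mem_bot] at h1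
  exact hz h1

variable {w : HeightOneSpectrum (𝓞 K)} (hw : ∀ x : 𝓞 K, x ∈ w.asIdeal ↔ V.valuation (io x) < 1)

include hw

omit [NumberField K] in
theorem val_notMem {x : 𝓞 K} (hx : x ∉ w.asIdeal) : V.valuation (io x) = 1 :=
  le_antisymm (int_le io x) (not_lt.1 fun h => hx ((hw x).2 h))

theorem ord_le {x : K} (hx : w.valuation K x ≤ 1) : V.valuation (io x) ≤ 1 := by
  obtain ⟨n, d, hnd⟩ := w.exists_primeCompl_mul_eq_of_integer x hx
  have hd := val_notMem io hw (x := d) d.2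
  have h1 := congrArg (fun t => V.valuation (io t)) hnd
  simp only [map_mul] at h1
  have hd' : V.valuation (io (algebraMap (𝓞 K) K (d : 𝓞 K))) = 1 := hd
  rw [hd', mul_one] at h1
  rw [h1]
  exact int_le io n

theorem ord_lt {x : K} (hx : w.valuation K x < 1) : V.valuation (io x) < 1 := by
  obtain ⟨n, d, hnd⟩ := w.exists_primeCompl_mul_eq_of_integer x hx.le
  have hd := val_notMem io hw (x := d) d.2
  have h1 := congrArg (fun t => V.valuation (io t)) hnd
  simp only [map_mul] at h1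
  have hd' : V.valuation (io (algebraMap (𝓞 K) K (d : 𝓞 K))) = 1 := hd
  rw [hd', mul_one] at h1
  rw [h1]
  have h2 : w.valuation K (algebraMap (𝓞 K) K n) < 1 := by
    rw [← hnd, map_mul]
    exact mul_lt_one_of_lt_of_le hx (w.valuation_le_one _)
  exact (hw n).1 ((HeightOneSpectrum.valuation_lt_one_iff_mem (K := K) (v := w) _).1 h2)

theorem ord_one {x : K} (hx : w.valuation K x = 1) : V.valuation (io x) = 1 := by
  refine le_antisymm (ord_le io hw hx.le) ?_
  have h1 : w.valuation K x⁻¹ ≤ 1 := by rw [map_inv₀, hx, inv_one]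
  have h2 := ord_le io hw h1
  have h0 : V.valuation (io x) ≠ 0 := by
    intro h
    rw [map_eq_zero, map_eq_zero] at h
    rw [h, map_zero] at hx
    exact zero_ne_one hx
  rw [map_inv₀, map_inv₀] at h2
  exact (inv_le_one₀ (zero_lt_iff.2 h0)).1 h2

theorem le_ord {x : K} (hx : V.valuation (io x) ≤ 1) : w.valuation K x ≤ 1 := by
  by_contra h
  push Not at h
  have h1 : w.valuation K x⁻¹ < 1 := by
    rw [map_inv₀]
    exact inv_lt_one_of_one_lt₀ h
  have h2 := ord_lt io hw h1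
  rw [map_inv₀, map_inv₀] at h2
  have h0 : V.valuation (io x) ≠ 0 := by
    intro h'
    rw [map_eq_zero, map_eq_zero] at h'
    rw [h', map_zero] at h
    exact not_lt_zero h
  exact absurd h2 (not_lt.2 ((one_le_inv₀ (zero_lt_iff.2 h0)).2 hx))

/-- the values are the powers of the value of a uniformiser -/
theorem pow_unif {π : K} (hπ : w.valuation K π = WithZero.exp (-1 : ℤ)) {x : K} (hx : x ≠ 0) :
    ∃ k : ℤ, V.valuation (io x) = V.valuation (io π) ^ k := by
  have hx0 : w.valuation K x ≠ 0 := (map_ne_zero _).2 hx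
  have hπ0 : π ≠ 0 := by
    rintro rfl
    rw [map_zero] at hπ
    exact WithZero.exp_ne_zero hπ.symm
  refine ⟨-(WithZero.log (w.valuation K x)), ?_⟩
  set k : ℤ := -(WithZero.log (w.valuation K x)) with hk
  have h1 : w.valuation K (x / π ^ k) = 1 := by
    rw [map_div₀, map_zpow₀, hπ, ← WithZero.exp_log hx0]
    have : WithZero.exp (-1 : ℤ) ^ k = WithZero.exp (WithZero.log (w.valuation K x)) := by
      rw [← WithZero.exp_zsmul, hk]
      congr 1
      simp
    rw [this]
    exact div_self WithZero.exp_ne_zero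
  have h2 := ord_one io hw h1
  rw [map_div₀, map_div₀, map_zpow₀, map_zpow₀] at h2
  have hp : V.valuation (io π) ^ k ≠ 0 := zpow_ne_zero _ (by
    rw [Ne, map_eq_zero, map_eq_zero]; exact hπ0)
  exact (div_eq_one_iff_eq hp).1 h2

end local_field

section galois

open Ideal

variable {V : ValuationSubring ℂ} {k F : Type} [Field k] [NumberField k] [Field F] [NumberField F]
  [Algebra k F] [IsGalois k F] (io : F →+* ℂ)

/-- if the inertia group at `V` is trivial, an element which generates the prime below is a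
uniformiser. -/
theorem unram {w : HeightOneSpectrum (𝓞 F)}
    (hw : ∀ x : 𝓞 F, x ∈ w.asIdeal ↔ V.valuation (io x) < 1)
    {π : 𝓞 k} (hspan : w.asIdeal.under (𝓞 k) = Ideal.span {π})
    (htriv : ∀ σ : F ≃ₐ[k] F, (∀ x : F, V.valuation (io x) ≤ 1 →
      V.valuation (io (σ x) - io x) < 1) → σ = 1) :
    w.valuation F (algebraMap k F π) = WithZero.exp (-1 : ℤ) := by
  set p : Ideal (𝓞 k) := w.asIdeal.under (𝓞 k) with hp
  have hlo : w.asIdeal.LiesOver p := ⟨rfl⟩
  have hwp : w.asIdeal.IsPrime := w.isPrime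
  have hpp : p.IsPrime := Ideal.IsPrime.under (𝓞 k) w.asIdeal
  have hp0 : p ≠ ⊥ := (w.under (𝓞 k)).ne_bot
  have hfin : Finite (𝓞 k ⧸ p) := Ideal.finiteQuotientOfFreeOfNeBot p hp0
  have hmax : p.IsMaximal := hpp.isMaximal hp0
  have hfr : Finite p.ResidueField :=
    Finite.of_surjective (algebraMap (𝓞 k ⧸ p) p.ResidueField)
      (Ideal.bijective_algebraMap_quotient_residueField p).2
  have h1 := Ideal.card_inertia_eq_ramificationIdxIn (G := F ≃ₐ[k] F) p w.asIdeal
  -- the inertia group is trivial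
  have hin : w.asIdeal.inertia (F ≃ₐ[k] F) = ⊥ := by
    rw [Subgroup.eq_bot_iff_forall]
    intro σ hσ
    apply htriv
    intro x hx
    obtain ⟨n, d, hnd⟩ := w.exists_primeCompl_mul_eq_of_integer x (le_ord io hw hx)
    have hσ1 : ∀ y : 𝓞 F, σ • y - y ∈ w.asIdeal := hσ
    have hcoe : ∀ y : 𝓞 F, ((σ • y : 𝓞 F) : F) = σ (y : F) := fun y => rfl
    have hd1 : V.valuation (io ((d : 𝓞 F) : F)) = 1 := val_notMem io hw (x := d) d.2
    have hσd : (σ • (d : 𝓞 F) : 𝓞 F) ∉ w.asIdeal := by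
      intro h
      have h2 := w.asIdeal.sub_mem h (hσ1 (d : 𝓞 F))
      rw [sub_sub_cancel] at h2
      exact d.2 h2
    have hd2 : V.valuation (io (σ ((d : 𝓞 F) : F))) = 1 := val_notMem io hw hσd
    have hd0 : ((d : 𝓞 F) : F) ≠ 0 := by
      intro h
      rw [h, map_zero, map_zero] at hd1
      exact zero_ne_one hd1
    have hσd0 : σ ((d : 𝓞 F) : F) ≠ 0 := (map_ne_zero σ).2 hd0
    have hn := (hw _).1 (hσ1 n)
    have hd3 := (hw _).1 (hσ1 (d : 𝓞 F))
    have hnd' : x * ((d : 𝓞 F) : F) = ((n : 𝓞 F) : F) := hnd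
    have hnd2 : σ x * σ ((d : 𝓞 F) : F) = σ ((n : 𝓞 F) : F) := by rw [← map_mul, hnd']
    have e1 : io (σ x) - io x = ((io (σ ((n : 𝓞 F) : F)) - io ((n : 𝓞 F) : F)) * io ((d : 𝓞 F) : F)
        - io ((n : 𝓞 F) : F) * (io (σ ((d : 𝓞 F) : F)) - io ((d : 𝓞 F) : F)))
          / (io ((d : 𝓞 F) : F) * io (σ ((d : 𝓞 F) : F))) := by
      have i1 : io ((d : 𝓞 F) : F) ≠ 0 := (map_ne_zero io).2 hd0
      have i2 : io (σ ((d : 𝓞 F) : F)) ≠ 0 := (map_ne_zero io).2 hσd0
      rw [← hnd2, ← hnd', map_mul, map_mul]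
      field_simp
      ring
    rw [e1, map_div₀, map_mul V.valuation (io ((d : 𝓞 F) : F)), hd1, hd2, one_mul, div_one]
    refine lt_of_le_of_lt (V.valuation.map_sub _ _) (max_lt ?_ ?_)
    · rw [map_mul, hd1, mul_one]
      have : V.valuation (io (((σ • n - n : 𝓞 F)) : F)) < 1 := hn
      rwa [show (((σ • n - n : 𝓞 F)) : F) = σ ((n : 𝓞 F) : F) - ((n : 𝓞 F) : F) from by
        rw [← hcoe]; exact map_sub (algebraMap (𝓞 F) F) _ _, map_sub] at this
    · rw [map_mul]
      have : V.valuation (io (((σ • (d : 𝓞 F) - (d : 𝓞 F) : 𝓞 F)) : F)) < 1 := hd3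
      rw [show (((σ • (d : 𝓞 F) - (d : 𝓞 F) : 𝓞 F)) : F)
          = σ ((d : 𝓞 F) : F) - ((d : 𝓞 F) : F) from by
        rw [← hcoe]; exact map_sub (algebraMap (𝓞 F) F) _ _, map_sub] at this
      exact mul_lt_one_of_nonneg_of_lt_one_right (int_le io n) zero_le this
  rw [hin, Subgroup.card_bot, Ideal.ramificationIdxIn_eq_ramificationIdx p w.asIdeal (F ≃ₐ[k] F)] at h1
  have h2 : p.ramificationIdx' w.asIdeal = 1 := by
    rw [Ideal.ramificationIdx'_eq_ramificationIdx' p w.asIdeal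
      (Ideal.map_ne_bot_of_ne_bot hp0), ← h1]
  set v : HeightOneSpectrum (𝓞 k) := ⟨p, hpp, hp0⟩ with hv
  have hlo' : w.asIdeal.LiesOver v.asIdeal := ⟨rfl⟩
  have h3 := HeightOneSpectrum.valuation_liesOver (K := k) F v w (algebraMap (𝓞 k) k π)
  have hπ0 : π ≠ 0 := by
    rintro rfl
    apply hp0
    rw [hspan]
    simp
  rw [h2, pow_one, HeightOneSpectrum.valuation_of_algebraMap,
    v.intValuation_singleton hπ0 hspan] at h3
  exact h3.symm

end galois

end RAM

open RAM in
theorem te_RAM (hP : Se_PPI) (hI : Sa_INT) : Se_RAM := by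
  intro A B hAB V hV F _ _ htriv y hy hy0
  obtain ⟨hfd, -, -, hint⟩ := hI A B hAB
  obtain ⟨-, -, -, -, -, -, hPV⟩ := hP A B hAB
  obtain ⟨hv1, hv0, -, -, -, -, hunit, -⟩ := hPV V hV
  have hk : NumberField (kk A B) := ⟨⟩
  have hFQ : FiniteDimensional ℚ F := FiniteDimensional.trans ℚ (kk A B) F
  have hF : NumberField F := ⟨⟩
  have hIn : ∀ x : OO A B, IsIntegral ℤ (ek x) := by
    intro x
    have h2 : IsIntegral ℤ (emb x) := (hint (emb x) (emb_mem x)).mpr ⟨x, rfl⟩
    have h3 : algebraMap (kk A B) ℂ (ek x) = emb x := rfl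
    rw [← h3] at h2
    exact (isIntegral_algebraMap_iff (FaithfulSMul.algebraMap_injective (kk A B) ℂ)).mp h2
  set π : 𝓞 (kk A B) := ⟨ek (ppi A B), hIn _⟩ with hπ
  have hio : ∀ x : kk A B, (algebraMap F ℂ) (algebraMap (kk A B) F x) = (x : ℂ) := fun x => rfl
  obtain ⟨w, hw⟩ := exists_prime (V := V) (algebraMap F ℂ)
    (z := algebraMap (𝓞 (kk A B)) (𝓞 F) π) (by
      intro h
      have h1 := congrArg (fun t : 𝓞 F => algebraMap F ℂ (t : F)) h
      have h2 : emb (ppi A B) = (algebraMap F ℂ) (((0 : 𝓞 F)) : F) := h1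
      have h3 : (algebraMap F ℂ) (((0 : 𝓞 F)) : F) = 0 := by
        have h4 : ((0 : 𝓞 F) : F) = 0 := rfl
        rw [h4, map_zero]
      exact hv0 (by rw [h2, h3, map_zero])) hv1
  have hspan : w.asIdeal.under (𝓞 (kk A B)) = Ideal.span {π} := by
    ext x
    rw [Ideal.mem_span_singleton]
    have h2 : IsIntegral ℤ ((x : kk A B) : ℂ) :=
      (RingOfIntegers.isIntegral_coe x).map (Algebra.ofId (kk A B) ℂ |>.restrictScalars ℤ)
    obtain ⟨z, hz⟩ := (hint _ (x : kk A B).2).mp h2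
    have hxw : x ∈ w.asIdeal.under (𝓞 (kk A B)) ↔ V.valuation (emb z) < 1 := by
      rw [← hz]
      exact hw (algebraMap (𝓞 (kk A B)) (𝓞 F) x)
    rw [hxw]
    constructor
    · intro h
      by_cases hd : ppi A B ∣ z
      · obtain ⟨c, rfl⟩ := hd
        refine ⟨⟨ek c, hIn c⟩, ?_⟩
        apply RingOfIntegers.ext
        apply Subtype.ext
        rw [hz, emb_mul hAB]
        rfl
      · rw [hunit z hd] at h
        exact absurd h (lt_irrefl _)
    · rintro ⟨c, hc⟩
      have h3 : emb z = emb (ppi A B) * ((c : kk A B) : ℂ) := by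
        rw [← hz, hc]
        rfl
      have h4 : V.valuation ((c : kk A B) : ℂ) ≤ 1 := by
        have := int_le (V := V) (algebraMap (kk A B) ℂ) c
        exact this
      rw [h3, map_mul]
      exact mul_lt_one_of_nonneg_of_lt_one_left zero_le hv1 h4
  have hord := unram (algebraMap F ℂ) hw hspan (by
    intro σ hσ
    apply htriv σ
    intro x hx
    exact hσ x hx)
  obtain ⟨n, hn⟩ := pow_unif (algebraMap F ℂ) hw hord (x := (⟨y, hy⟩ : F))
    (fun h => hy0 (congrArg Subtype.val h))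
  exact ⟨n, hn⟩

end

end Pool.Agent.MU3E
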