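import Pool.Agent.MU3.StA2

/-!
# MU3, block A: the ring of integers of `k`
-/

set_option autoImplicit false

namespace Pool.Agent.MU3A

open MU3 Pool.Agent.MU3B Polynomial

namespace INT

variable {A B : ℤ}

lemma w_int (h : Case A B) : IsIntegral ℤ (wC A B) := by
  refine ⟨X ^ 2 - C B * X - C A, ?_, ?_⟩
  · monicity!
  · have := wC_sq h
    rw [eval₂_sub, eval₂_sub, eval₂_mul, eval₂_C, eval₂_C, eval₂_X, eval₂_pow, eval₂_X,
      eq_intCast, eq_intCast]
    linear_combination this

lemma w_intQ (h : Case A B) : IsIntegral ℚ (wC A B) := (w_int h).tower_top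

lemma repr (h : Case A B) {x : ℂ} (hx : x ∈ kk A B) : ∃ s t : ℚ, x = s + t * wC A B := by
  have h1 : x ∈ (kk A B).toSubalgebra := hx
  rw [IntermediateField.adjoin_simple_toSubalgebra_of_isAlgebraic (w_intQ h).isAlgebraic] at h1
  clear hx
  induction h1 using Algebra.adjoin_induction with
  | mem y hy =>
    rw [Set.mem_singleton_iff] at hy
    exact ⟨0, 1, by rw [hy]; push_cast; ring⟩
  | algebraMap r => exact ⟨r, 0, by simp⟩
  | add y z _ _ hy hz =>
    obtain ⟨s, t, rfl⟩ := hy
    obtain ⟨s', t', rfl⟩ := hz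
    exact ⟨s + s', t + t', by push_cast; ring⟩
  | mul y z _ _ hy hz =>
    obtain ⟨s, t, rfl⟩ := hy
    obtain ⟨s', t', rfl⟩ := hz
    refine ⟨s * s' + t * t' * A, s * t' + t * s' + t * t' * B, ?_⟩
    push_cast
    linear_combination (t : ℂ) * t' * wC_sq h

lemma conj_w (A B : ℤ) : (starRingEnd ℂ) (wC A B) = B - wC A B := by
  unfold wC
  simp only [map_div₀, map_add, map_mul, Complex.conj_I, Complex.conj_ofReal, map_intCast,
    map_ofNat]
  ring

lemma int_of_isIntegral {r : ℚ} (h : IsIntegral ℤ ((r : ℚ) : ℂ)) : ∃ z : ℤ, r = z := by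
  have h1 : IsIntegral ℤ r := by
    have h2 : IsIntegral ℤ (algebraMap ℚ ℂ r) := h
    exact (isIntegral_algebraMap_iff (algebraMap ℚ ℂ).injective).1 h2
  obtain ⟨z, hz⟩ := IsIntegrallyClosed.isIntegral_iff.1 h1
  exact ⟨z, by rw [← hz]; simp⟩

lemma int_of_sq {r : ℚ} {m : ℤ} (h : r ^ 2 = m) : ∃ z : ℤ, r = z := by
  apply int_of_isIntegral
  have h1 : IsIntegral ℤ (((r : ℚ) : ℂ) ^ 2) := by
    have : ((r : ℚ) : ℂ) ^ 2 = ((m : ℤ) : ℂ) := by exact_mod_cast congrArg (fun x : ℚ => (x : ℂ)) h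
    rw [this]
    exact isIntegral_algebraMap (R := ℤ) (x := m)
  exact IsIntegral.of_pow (by norm_num) h1

lemma emb_int (h : Case A B) (y : OO A B) : IsIntegral ℤ (emb y) := by
  unfold emb
  exact (isIntegral_algebraMap (R := ℤ) (x := y.re)).add
    ((isIntegral_algebraMap (R := ℤ) (x := y.im)).mul (w_int h))

lemma arith (h : Case A B) {s t : ℚ} {T N : ℤ} (hT : 2 * s + B * t = T)
    (hN : s ^ 2 + B * s * t - A * t ^ 2 = N) : (∃ z : ℤ, s = z) ∧ ∃ z : ℤ, t = z := by
  rcases h with ⟨rfl, rfl⟩ | ⟨rfl, rfl⟩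
  · have h1 : 2 * s = T := by rw [← hT]; push_cast; ring
    have h2 : s ^ 2 + 2 * t ^ 2 = N := by rw [← hN]; push_cast; ring
    have h3 : (4 * t) ^ 2 = ((2 * (4 * N - T ^ 2) : ℤ) : ℚ) := by
      push_cast
      rw [← h1, ← h2]
      ring
    obtain ⟨u, hu⟩ := int_of_sq h3
    rw [hu] at h3
    have h4 : u ^ 2 = 2 * (4 * N - T ^ 2) := by exact_mod_cast h3
    have hu2 : Even u := by
      have : Even (u ^ 2) := ⟨4 * N - T ^ 2, by rw [h4]; ring⟩
      exact (Int.even_pow.1 this).1
    obtain ⟨u', hu'⟩ := hu2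
    have h5 : 2 * u' ^ 2 = 4 * N - T ^ 2 := by
      have : 2 * (2 * u' ^ 2) = 2 * (4 * N - T ^ 2) := by rw [← h4, hu']; ring
      linarith
    have hT2 : Even T := by
      have : Even (T ^ 2) := ⟨2 * N - u' ^ 2, by linarith⟩
      exact (Int.even_pow.1 this).1
    obtain ⟨T', hT'⟩ := hT2
    have hu3 : Even u' := by
      have : Even (u' ^ 2) := ⟨N - T' ^ 2, by rw [hT'] at h5; linarith⟩
      exact (Int.even_pow.1 this).1
    obtain ⟨t', ht'⟩ := hu3
    refine ⟨⟨T', ?_⟩, ⟨t', ?_⟩⟩
    · rw [hT'] at h1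
      push_cast at h1
      linarith
    · rw [hu', ht'] at hu
      push_cast at hu
      linarith
  · have h1 : 2 * s + t = T := by rw [← hT]; push_cast; ring
    have h2 : s ^ 2 + s * t + 3 * t ^ 2 = N := by rw [← hN]; push_cast; ring
    have h3 : (11 * t) ^ 2 = ((11 * (4 * N - T ^ 2) : ℤ) : ℚ) := by
      push_cast
      rw [← h1, ← h2]
      ring
    obtain ⟨u, hu⟩ := int_of_sq h3
    rw [hu] at h3
    have h4 : u ^ 2 = 11 * (4 * N - T ^ 2) := by exact_mod_cast h3
    have hd : (11 : ℤ) ∣ u := by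
      have h5 : (11 : ℤ) ∣ u ^ 2 := ⟨_, h4⟩
      have hp : Prime (11 : ℤ) := Int.prime_iff_natAbs_prime.2 (by norm_num)
      exact hp.dvd_of_dvd_pow h5
    obtain ⟨t', ht'⟩ := hd
    have ht : t = t' := by
      rw [ht'] at hu
      push_cast at hu
      linarith
    have h6 : T ^ 2 + 11 * t' ^ 2 = 4 * N := by
      rw [ht'] at h4
      linarith
    have h7 : Even (T - t') := by
      by_contra hodd
      rw [Int.not_even_iff_odd] at hodd
      obtain ⟨k, hk⟩ := hodd
      have hT1 : T = t' + 2 * k + 1 := by linarith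
      rw [hT1] at h6
      have h8 : (t' + 2 * k + 1) ^ 2 + 11 * t' ^ 2 - 4 * N =
          2 * (6 * t' ^ 2 + 2 * k ^ 2 + 2 * t' * k + t' + 2 * k - 2 * N) + 1 := by ring
      omega
    obtain ⟨s', hs'⟩ := h7
    refine ⟨⟨s', ?_⟩, ⟨t', ht⟩⟩
    have hT1 : T = t' + s' + s' := by linarith
    rw [hT1, ht] at h1
    push_cast at h1
    linarith

end INT

open INT in
theorem ta_INT : Sa_INT := by
  intro A B h
  have hfd : FiniteDimensional ℚ (kk A B) := IntermediateField.adjoin.finiteDimensional (w_intQ h)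
  have him := wC_im_pos h
  refine ⟨hfd, ?_, fun x => repr h x.2, fun x hx => ⟨fun hint => ?_, ?_⟩⟩
  · -- the basis 1, w
    let v : Fin 2 → kk A B := ![1, ⟨wC A B, wC_mem A B⟩]
    have hli : LinearIndependent ℚ v := by
      rw [LinearIndependent.pair_iff]
      intro s t hst
      have h1 : (s : ℂ) + t * wC A B = 0 := by
        have := congrArg (fun x : kk A B => (x : ℂ)) hst
        simpa [Algebra.smul_def] using this
      have h2 := congrArg Complex.im h1
      simp only [Complex.add_im, Complex.ratCast_im, Complex.mul_im, Complex.ratCast_re, zero_mul,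
        add_zero, zero_add, Complex.zero_im] at h2
      have ht : t = 0 := by
        have := (mul_eq_zero.1 h2).resolve_right him.ne'
        exact_mod_cast this
      rw [ht] at h1
      simp only [Rat.cast_zero, zero_mul, add_zero] at h1
      exact ⟨by exact_mod_cast h1, ht⟩
    have hsp : ⊤ ≤ Submodule.span ℚ (Set.range v) := by
      intro x _
      obtain ⟨s, t, hst⟩ := repr h x.2
      have hx : x = s • v 0 + t • v 1 := by
        apply Subtype.ext
        rw [hst]
        simp [v, Algebra.smul_def]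
      rw [hx]
      exact add_mem (Submodule.smul_mem _ _ (Submodule.subset_span ⟨0, rfl⟩))
        (Submodule.smul_mem _ _ (Submodule.subset_span ⟨1, rfl⟩))
    rw [Module.finrank_eq_card_basis (Module.Basis.mk hli hsp)]
    simp
  · obtain ⟨s, t, rfl⟩ := repr h hx
    have hconj : IsIntegral ℤ ((starRingEnd ℂ) ((s : ℂ) + t * wC A B)) := by
      have := hint.map ((starRingEnd ℂ).toIntAlgHom)
      exact this
    have hc : (starRingEnd ℂ) ((s : ℂ) + t * wC A B) = s + t * (B - wC A B) := by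
      rw [map_add, map_mul, conj_w]
      simp
    rw [hc] at hconj
    obtain ⟨T, hT⟩ := int_of_isIntegral (r := 2 * s + B * t) (by
      have := hint.add hconj
      have e : (s : ℂ) + t * wC A B + (s + t * (B - wC A B)) = ((2 * s + B * t : ℚ) : ℂ) := by
        push_cast
        ring
      rwa [e] at this)
    obtain ⟨N, hN⟩ := int_of_isIntegral (r := s ^ 2 + B * s * t - A * t ^ 2) (by
      have := hint.mul hconj
      have e : ((s : ℂ) + t * wC A B) * (s + t * (B - wC A B)) =
          ((s ^ 2 + B * s * t - A * t ^ 2 : ℚ) : ℂ) := by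
        push_cast
        linear_combination (-(t : ℂ) ^ 2) * wC_sq h
      rwa [e] at this)
    obtain ⟨⟨s', hs'⟩, ⟨t', ht'⟩⟩ := arith h hT hN
    refine ⟨⟨s', t'⟩, ?_⟩
    rw [hs', ht']
    simp [emb]
  · rintro ⟨y, rfl⟩
    exact emb_int h y

end Pool.Agent.MU3A
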