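import Pool.Agent.MU3.NStmts
import Pool.Agent.RI.Basic

/-!
# MU3, block P: extensions of `p`-power degree (Iwasawa 1973 in elementary form)

`v_p h(F B_n)` bounded by a polynomial in `n` implies the same for every `L / F` Galois of `p`-power
degree, `F` totally complex. Chevalley's inequality for ambiguous classes (with the Herbrand
quotient of the units, so no unit rank enters) bounds the `p`-rank of `Cl(L B_n)`; then `N_STEP`.

`J L`, `prin`, `ext`: `Pool/Agent/RI/Defs.lean`. `ng g q x = ∏_{i < q} g^i x`, `dg g x = x / g x`, `CycExt`: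
`Pool/Agent/RID/Defs.lean`. `PI L`, `rkp p L`, `N_AMBA`, `N_AMBI`, `N_NILR`, `N_STEP`:
`Pool/Agent/MU3/NStmts.lean` (helper3). Facts on `L / K` cyclic: `S_CYC` (proved: `t_CYC` in
`Pool/Agent/RID/P_CYC.lean`), used with `F = K`.

Every `def P_X : Prop` is the statement of a module, proved as `theorem p_X : ... → P_X`.
-/

open NumberField Finset IsDedekindDomain
open scoped nonZeroDivisors Pointwise

namespace MU3

open Pool.Agent.RI Pool.Agent.RID

/-- the units of `L`, as a subgroup of `Lˣ` -/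
noncomputable abbrev UE (L : Type) [Field L] [NumberField L] : Subgroup Lˣ :=
  (prin : Lˣ →* J L).ker

/-- `F` is totally complex -/
def TotCx (F : Type) [Field F] : Prop := ∀ φ : F →+* ℂ, ∃ x : F, (starRingEnd ℂ) (φ x) ≠ φ x

/-! ## Chevalley's inequality -/

/-- HQE: the Herbrand quotient of the unit group in an extension unramified at infinity,
`q |H⁰| = |H¹|`.

Proof (from `S_HERBQ` = `t_HERBQ` of `Pool/Agent/RID/P_HERBQ.lean` and its hypotheses, `S_RK1`, `S_RK2`, `S_RK3`, `S_CYC`,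
all proved in `Pool/Agent/RID`; they may be used as hypotheses). `A = Lˣ × Multiplicative ℤ` with the trivial action of
`L ≃ₐ[K] L` on the second factor (local instance `MulDistribMulAction`, `smul _ x = x`; then `Prod.mulDistribMulAction`),
`E' = E.prod ⊤`, `E = UE L`, `q = p ^ a`. `E' ⊓ (dg (g ^ p^i)).ker = (E ⊓ (dg (g ^ p^i)).ker).prod ⊤` and
`E ⊓ (dg (g^(p^i))).ker = WU [] N (zpowers (g^(p^i)))` (`l = []`, any `N`), so its rank plus one is by RK1
the number of orbits of `⟨g^(p^i)⟩` on the infinite places of `L`, which is `p^i` times the number of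
orbits of `⟨g⟩` (RK2 with `H = ⊥`, `X = InfinitePlace L`; freeness: the last part of CYC). So the ranks of
`E' ⊓ ..` (rank of the product with `ℤ`: add one) satisfy the hypothesis of HERBQ. FG: RK3 or the
finite generation of the unit group (`Pool/Agent/RI/RKU.lean`). Result:
`[B₀' : N₀'] = [Z₁' : B₁'] ≠ 0` for `E'`. Here `E'.map (ng g q) = (E.map (ng g q)).prod (q ℤ)`,
`E' ⊓ (dg g).ker = (E ⊓ (dg g).ker).prod ⊤`, index `[B₀ : N₀] q`; `E'.map (dg g) = (E.map (dg g)).prod ⊥`,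
`E' ⊓ (ng g q).ker = (E ⊓ (ng g q).ker).prod ⊥` (`q z = 0` in `ℤ`), index `[Z₁ : B₁]`. -/
def P_HQE : Prop := ∀ (p a : ℕ) [Fact p.Prime] (K L : Type) [Field K] [NumberField K] [Field L]
    [NumberField L] [Algebra K L] (g : L ≃ₐ[K] L), CycExt K K L g (p ^ a) →
    Nat.card (InfinitePlace L) = p ^ a * Nat.card (InfinitePlace K) →
    ((UE L).map (dg g)).relIndex (UE L ⊓ (ng g (p ^ a)).ker) ≠ 0 ∧
    ((UE L).map (ng g (p ^ a))).relIndex (UE L ⊓ (dg g).ker) * p ^ a =
      ((UE L).map (dg g)).relIndex (UE L ⊓ (ng g (p ^ a)).ker)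

/-- H1P: principal ideals fixed by `g`, modulo principal ideals of `K`: `H¹` of the units.

Proof (S_CYC). `q = p ^ a` or any `q` with `CycExt`. `X = {x ∈ Lˣ | g (prin x) = prin x}`. The homomorphism
`x ↦ dg g x` maps `X` onto `Z₁ = UE L ⊓ (ng g q).ker` (into: `prin (x / g x) = 1`, telescoping and
`g ^ q = 1`; onto: Hilbert 90). `x` with `dg g x ∈ (UE L).map (dg g)` are the products `u c`, `u ∈ UE L`, `c`
fixed by `g`, i.e. `c` in the image of `Kˣ`. `prin` maps `X` onto `PI L ⊓ (dg g).ker` with kernel `UE L`, and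
the subgroup of the `u c` onto `(PI K).map (ext K L)` (`ext_prin`). So both indices are the index in
`X` of the subgroup `{u c}` (`Subgroup.relIndex_comap`, `relIndex_map`, third isomorphism theorem; both
kernels are contained in the subgroup). -/
def P_H1P : Prop := ∀ (q : ℕ) (K L : Type) [Field K] [NumberField K] [Field L]
    [NumberField L] [Algebra K L] (g : L ≃ₐ[K] L), CycExt K K L g q →
    ((PI K).map (ext K L)).relIndex (PI L ⊓ (dg g).ker) =
      ((UE L).map (dg g)).relIndex (UE L ⊓ (ng g q).ker)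

/-- CHEV: Chevalley's inequality for ambiguous classes.

Proof (from N_AMBA, N_AMBI, P_HQE, P_H1P, S_CYC). `P = PI L`, `U = P.comap (dg g)`, `U₀ = P ⊔ (dg g).ker`, `q = p ^ a`.
N_AMBA with `A = Lˣ`, `I = J L`, `dv = prin` (`smul_prin`, Hilbert 90 from CYC): `[U : U₀]` divides
`h₀ = [B₀ : N₀]`, `N₀ = (UE L).map (ng g q)`, `B₀ = UE L ⊓ (dg g).ker`. `[U₀ : P] = [V : P ⊓ V]`, `V = (dg g).ker`. With
`W = (PI K).map (ext K L) ≤ P ⊓ V`: `[V : P ⊓ V] [P ⊓ V : W] = [V : W] = [V : X] [X : W]`, `X = (ext K L).range ≤ V`,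
`[X : W] = [J K : PI K] = h(K)` (`ext_injective`, `CL.classNumber_eq`), `[V : X] ≤ q ^ S.card`, not `0` (AMBI).
`[P ⊓ V : W] = h₁ := [Z₁ : B₁]` (H1P), `h₁ = h₀ q ≠ 0` (HQE). So
`v_p [U : P] ≤ v_p h₀ + v_p [V : X] + v_p h(K) - v_p h₁ ≤ a S.card + v_p h(K) - a`. Finiteness: `CL.finite_quot`. -/
def P_CHEV : Prop := ∀ (p a : ℕ) [Fact p.Prime] (K L : Type) [Field K] [NumberField K] [Field L]
    [NumberField L] [Algebra K L] (g : L ≃ₐ[K] L), CycExt K K L g (p ^ a) →
    Nat.card (InfinitePlace L) = p ^ a * Nat.card (InfinitePlace K) →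
    ∀ S : Finset (HeightOneSpectrum (𝓞 K)),
    (∀ w : HeightOneSpectrum (𝓞 L), w.asIdeal.ramificationIdx (𝓞 K) ≠ 1 →
      ∃ v ∈ S, w.asIdeal.under (𝓞 K) = v.asIdeal) →
    padicValNat p ((PI L).relIndex ((PI L).comap (dg g))) ≤
      padicValNat p (NumberField.classNumber K) + a * S.card

/-- RKA: an automorphism `g` with `g ^ p = 1`: the rank of the class group is at most `p` times the
`p`-exponent of the number of ambiguous classes.

Proof (from N_NILR with `l = p`, `F = K`). For `b : J L`: `(dg g)^[p] b` is a `p`-th power: in the commutative ring of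
endomorphisms generated by `γ` (action of `g` on `Additive (J L)`) `(1 - γ)^p = 1 + (-1)^p γ^p + p h(γ)`
(`(Commute.all ..).add_pow`, `exists_add_pow_prime_eq` : `∃ r, (x + y)^p = x^p + y^p + p * r`), and `γ^p = 1`; for
odd `p` this is `p h(γ)`, for `p = 2` it is `2 + 2 h(γ)`. -/
def P_RKA : Prop := ∀ (p : ℕ) [Fact p.Prime] (K L : Type) [Field K] [Field L]
    [NumberField L] [Algebra K L] (g : L ≃ₐ[K] L), g ^ p = 1 →
    rkp p L ≤ p * padicValNat p ((PI L).relIndex ((PI L).comap (dg g)))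

/-! ## Numbers of primes -/

/-- NPC: the number of primes above a prime number `ℓ` in `ℚ(ζ_(p^m))` is bounded in `m`.

Proof. `ℓ = p`: one prime (or use `e`). `ℓ ≠ p`: `#(primes) f = φ(p^m)`, `f` = the order of `ℓ` modulo `p^m`
(Mathlib: `Mathlib/NumberTheory/NumberField/Cyclotomic/Ideal.lean`, for instance
`IsCyclotomicExtension.Rat.inertiaDeg_eq_of_not_dvd`; or: the residue field of a prime of degree `f` contains
`p^m` different roots of unity, so `p^m ∣ ℓ^f - 1`). Let `c ≥ 2` with `p^c ∤ ℓ^(p(p-1)) - 1` (exists,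
`ℓ^(p(p-1)) - 1 ≠ 0`). If `p^m ∣ ℓ^f - 1` then `p^m ∣ M^f - 1`, `M = ℓ^(p(p-1))`, `M ≡ 1` modulo `p^2`, so by lifting
the exponent (`Nat.emultiplicity_pow_sub_pow`/`padicValNat.pow_sub_pow`, for `p = 2`: `4 ∣ M - 1`,
`Int.two_pow_sub_pow`) `v_p(M^f - 1) = v_p(M - 1) + v_p(f) < c + v_p(f)`, so `p^(m - c) ≤ f`. The number of
primes is at most `φ(p^m)/p^(m-c) ≤ p^c`. -/
def P_NPC : Prop := ∀ (p ℓ : ℕ) [Fact p.Prime], ℓ.Prime → ∃ t : ℕ, ∀ m : ℕ,
    ∀ (C : Type) [Field C] [NumberField C] [IsCyclotomicExtension {p ^ m} ℚ C],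
    Nat.card {v : HeightOneSpectrum (𝓞 C) // (ℓ : 𝓞 C) ∈ v.asIdeal} ≤ t

/-- NPL: the number of primes above `ℓ` in `F B_n` is bounded in `n`.

Proof (from NPC). Let `B = B n ≤ ℚ(ζ)`, `ζ` of order `p^m` (`IsLayer`); every prime of `B` has a prime of `ℚ(ζ)` above it, so
`B` has at most `t₀` primes above `ℓ`. `B / ℚ` is Galois (`LAY_thm`), so `g e f = p^n` with `g ≤ t₀` and the same `e f`
for all primes. Let `L = F B_n`, `[L : ℚ] ≤ [F : ℚ] p^n`. For a prime `w` of `L` above `ℓ`: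
`e(w) f(w) ≥ e f` (multiplicativity in the tower), `∑_w e(w) f(w) = [L : ℚ]`
(`Ideal.sum_ramification_inertia`), so `#{w} e f ≤ [F : ℚ] p^n = [F : ℚ] g e f`, `#{w} ≤ [F : ℚ] t₀`.
Alternatively: bound the number of primes of `B`-conjugacy: the fibres of `{w} → {primes of B}` have at most
`[L : B] ≤ [F : ℚ]` elements (`∑ e f = [L : B]` over each prime of `B`): shorter, no Galois theory. -/
def P_NPL : Prop := ∀ (p ℓ : ℕ) [Fact p.Prime] (F : IntermediateField ℚ ℂ)
    [FiniteDimensional ℚ F] (B : ℕ → IntermediateField ℚ ℂ), ℓ.Prime → (∀ n, IsLayer p n (B n)) →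
    ∃ t : ℕ, ∀ n, ∀ _ : FiniteDimensional ℚ ↥(F ⊔ B n),
      Nat.card {v : HeightOneSpectrum (𝓞 ↥(F ⊔ B n)) // (ℓ : 𝓞 ↥(F ⊔ B n)) ∈ v.asIdeal} ≤ t ∧
      Finite {v : HeightOneSpectrum (𝓞 ↥(F ⊔ B n)) // (ℓ : 𝓞 ↥(F ⊔ B n)) ∈ v.asIdeal}

/-- BAD: finitely many rational primes ramify.

Proof. The primes `w` of `L` with ramification index `≠ 1` over `K` divide the different ideal of `𝓞 L / 𝓞 K`
(Mathlib: `dvd_differentIdeal_iff`, `not_dvd_differentIdeal_iff`: unramified; unramified implies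
`ramificationIdx = 1`), which is not zero, so there are finitely many; every such `w` contains a prime
number (`w` contains a nonzero integer, `Ideal.absNorm_mem`). Or: `L = K(α)`, `α` integral, `w` unramified if
`w` does not contain the derivative of the minimal polynomial at `α`. -/
def P_BAD : Prop := ∀ (K L : Type) [Field K] [NumberField K] [Field L] [NumberField L]
    [Algebra K L], ∃ T : Finset ℕ, (∀ ℓ ∈ T, ℓ.Prime) ∧ ∀ w : HeightOneSpectrum (𝓞 L),
      w.asIdeal.ramificationIdx (𝓞 K) ≠ 1 → ∃ ℓ ∈ T, (ℓ : 𝓞 L) ∈ w.asIdeal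

/-! ## The tower -/

/-- RKE: the rank of the class group of `L B_n`, `L / F` Galois of degree `p`.

Proof (from P_CHEV, P_RKA, P_NPL, P_BAD, `BCH_thm`, `RAMB_thm`, `INF_thm` of `Pool/Agent/RI`). `T` = P_BAD for `F ⊆ L`,
`t = ∑_{ℓ ∈ T} t_ℓ + 1` (P_NPL). Fix `n`, `F' = F B_n ⊆ L' = L B_n`. `L' = F' L` is Galois over `F'` of degree `1` or `p` (it
divides `[L : F]`, `BCH_thm`). Degree `1`: `L' = F'`, and `rkp p L' ≤ v_p h(L')` (the number of classes killed by `p`
divides `h`). Degree `p`: the group is cyclic, `g` a generator, `CycExt F' F' L' g p`. Infinite places: `INF_thm` with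
`S = Set.univ`, the hypothesis is empty because `F' ⊇ F` is totally complex. `S` = the primes of `F'` which
contain some `ℓ ∈ T` (a `Finset` with at most `t` elements): a prime `w` of `L'` ramified over `F'` has
`w ∩ L` ramified over `F` (`RAMB` with `F, F', L, L'`), so it contains some `ℓ ∈ T`. P_CHEV with `a = 1` and
P_RKA. -/
def P_RKE : Prop := ∀ (p : ℕ) [Fact p.Prime] (F L : IntermediateField ℚ ℂ)
    [FiniteDimensional ℚ L] (B : ℕ → IntermediateField ℚ ℂ) (h : F ≤ L),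
    IsGalois F (IntermediateField.extendScalars h) →
    Module.finrank F (IntermediateField.extendScalars h) = p → TotCx F →
    (∀ n, IsLayer p n (B n)) → ∃ t : ℕ, ∀ n, ∀ _ : FiniteDimensional ℚ ↥(L ⊔ B n),
      rkp p ↥(L ⊔ B n) ≤ p * (padicValNat p (classNo (F ⊔ B n)) + t)

/-- TOW: Galois theory of the layers of `L` (no condition on the degree of `L`).

Proof (from `S_LAYC`, `BCH_thm`, `LAY_thm`). `G = Gal(L B_(n+1) / L)` embeds by restriction into
`Gal(B_(n+1) / ℚ)`, cyclic of order `p^(n+1)`; so it is cyclic, of order `p^j`, and `p^(n+1) ≤ p^j [L : ℚ]` because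
`p^(n+1) = [B_(n+1) : ℚ] ≤ [L B_(n+1) : ℚ] = p^j [L : ℚ]`. `[L B_(n+1) : L B_n]` divides `[B_(n+1) : B_n] = p`. If
`j = 0`: `m = 0`, `g = 1`, all fields are equal. If `j = m + 1`: `g` a generator; if `L B_(n+1) ≠ L B_n` then
`Gal(L B_(n+1) / L B_n)` is the subgroup of order `p` of `G`, generated by `g ^ (p ^ m)`, and its fixed field is
`L B_n`. -/
def P_TOW : Prop := ∀ (p : ℕ) [Fact p.Prime] (L : IntermediateField ℚ ℂ)
    [FiniteDimensional ℚ L] (B : ℕ → IntermediateField ℚ ℂ), (∀ n, IsLayer p n (B n)) →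
    Monotone B → ∀ (n : ℕ) (h : L ≤ L ⊔ B (n + 1)) (h' : L ⊔ B n ≤ L ⊔ B (n + 1)),
    letI := algC h
    letI := algC h'
    ∃ m : ℕ, p ^ n ≤ p ^ m * Module.finrank ℚ L ∧
      ∃ g : ↥(L ⊔ B (n + 1)) ≃ₐ[L] ↥(L ⊔ B (n + 1)), g ^ (p ^ (m + 1)) = 1 ∧
        (L ⊔ B (n + 1) = L ⊔ B n ∨ CycExt L ↥(L ⊔ B n) ↥(L ⊔ B (n + 1)) (g ^ (p ^ m)) p)

/-- LST: one step of the tower over `L`.

Proof (from N_STEP, P_TOW). `m`, `g` from TOW. If the two fields are equal the class numbers are equal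
(substitute). Otherwise `rkp [L : ℚ] < p^n (p - 1) ≤ p^m [L : ℚ] (p - 1)`, so `rkp < p^m (p - 1)` and N_STEP
applies with `F = L`, `M = L ⊔ B n`, `L = L ⊔ B (n+1)` (`towerC`). -/
def P_LST : Prop := ∀ (p : ℕ) [Fact p.Prime] (L : IntermediateField ℚ ℂ)
    [FiniteDimensional ℚ L] (B : ℕ → IntermediateField ℚ ℂ)
    [∀ n, FiniteDimensional ℚ ↥(L ⊔ B n)], (∀ n, IsLayer p n (B n)) →
    Monotone B → ∀ n : ℕ, rkp p ↥(L ⊔ B (n + 1)) * Module.finrank ℚ L < p ^ n * (p - 1) →
    padicValNat p (classNo (L ⊔ B (n + 1))) ≤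
      padicValNat p (classNo (L ⊔ B n)) + rkp p ↥(L ⊔ B (n + 1))

/-- REC: summation. Compare N_NUM.

Proof. `C (n + 2)^k D < p^n (p - 1)` for all `n ≥ n₁` (`2^n` outgrows every polynomial). For `n ≥ n₁`
`v n ≤ v n₁ + ∑_{n₁ ≤ m < n} C (m + 2)^k ≤ v n₁ + n C (n + 1)^k`. `C' = C + ∑_{m ≤ n₁} v m`. -/
def P_REC : Prop := ∀ (p D C k : ℕ) [Fact p.Prime] (v r : ℕ → ℕ),
    (∀ n, r n ≤ C * (n + 1) ^ k) →
    (∀ n, r (n + 1) * D < p ^ n * (p - 1) → v (n + 1) ≤ v n + r (n + 1)) →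
    ∃ C' : ℕ, ∀ n, v n ≤ C' * (n + 1) ^ (k + 1)

/-- ONE: an extension of degree `p`.

Proof (from P_RKE, P_LST, P_REC). `r n = rkp p (L B_n) ≤ p (C (n+1)^k + t) ≤ p (C + t) (n + 1)^k`. -/
def P_ONE : Prop := ∀ (p : ℕ) [Fact p.Prime] (F L : IntermediateField ℚ ℂ)
    [FiniteDimensional ℚ L] (B : ℕ → IntermediateField ℚ ℂ) (h : F ≤ L),
    IsGalois F (IntermediateField.extendScalars h) →
    Module.finrank F (IntermediateField.extendScalars h) = p → TotCx F →
    (∀ n, IsLayer p n (B n)) → Monotone B →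
    (∃ C k : ℕ, ∀ n, padicValNat p (classNo (F ⊔ B n)) ≤ C * (n + 1) ^ k) →
    ∃ C k : ℕ, ∀ n, padicValNat p (classNo (L ⊔ B n)) ≤ C * (n + 1) ^ k

/-- PEX: Galois extensions of `p`-power degree.

Proof (from P_ONE, `CHIEF_thm` of `Pool/Agent/RI/CHIEF.lean`). Induction on `a`. `a = 0`: `L = F`. `a + 1`:
CHIEF gives `F ≤ M' ≤ L`, `M' / F` Galois of degree `p^a`, `[L : M'] = p`; `L / M'` is Galois
(`IsGalois.tower_top`, see `isGalois_algC`), `M'` is totally complex as it contains `F`. -/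
def P_PEX : Prop := ∀ (p a : ℕ) [Fact p.Prime] (F L : IntermediateField ℚ ℂ)
    [FiniteDimensional ℚ L] (B : ℕ → IntermediateField ℚ ℂ) (h : F ≤ L),
    IsGalois F (IntermediateField.extendScalars h) →
    Module.finrank F (IntermediateField.extendScalars h) = p ^ a → TotCx F →
    (∀ n, IsLayer p n (B n)) → Monotone B →
    (∃ C k : ℕ, ∀ n, padicValNat p (classNo (F ⊔ B n)) ≤ C * (n + 1) ^ k) →
    ∃ C k : ℕ, ∀ n, padicValNat p (classNo (L ⊔ B n)) ≤ C * (n + 1) ^ k

/-- SYL: the fixed field of the Sylow `p`-subgroup of an abelian Galois group.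

Proof. `E = extendScalars h`, `G = Gal(E / k)` commutative, `P` a Sylow `p`-subgroup (normal), `F'` its fixed
field (`IntermediateField k E`), `F` = the image in `ℂ` as an intermediate field of `ℂ / ℚ`
(see the proof of `CHIEF_thm` in `Pool/Agent/RI/CHIEF.lean` for this translation). `[F : k] = [G : P]` is prime
to `p`, `[K : F] = |P|`. -/
def P_SYL : Prop := ∀ (p : ℕ) [Fact p.Prime] (k K : IntermediateField ℚ ℂ)
    [FiniteDimensional ℚ K] (h : k ≤ K), IsGalois k (IntermediateField.extendScalars h) →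
    (∀ a b : (IntermediateField.extendScalars h) ≃ₐ[k] (IntermediateField.extendScalars h),
      a * b = b * a) →
    ∃ (F : IntermediateField ℚ ℂ) (h₁ : k ≤ F) (h₂ : F ≤ K),
      IsGalois k (IntermediateField.extendScalars h₁) ∧
      ¬ p ∣ Module.finrank k (IntermediateField.extendScalars h₁) ∧
      IsGalois F (IntermediateField.extendScalars h₂) ∧
      ∃ a : ℕ, Module.finrank F (IntermediateField.extendScalars h₂) = p ^ a

end MU3
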