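import Pool.Agent.MU3.StB

/-!
# MU3, block B: module CMX (helper18)
-/

set_option autoImplicit false

namespace Pool.Agent.MU3B

open Complex Real Filter Topology
open scoped ComplexConjugate

namespace CMX18

theorem ex0 (L : PeriodPair) (z : ℂ) :
    L.weierstrassP z = L.weierstrassPExcept 0 z + 1 / z ^ 2 := by
  have h := L.weierstrassPExcept_add 0 z
  rw [← h]
  simp

/-- The difference of the two double poles at `0`. -/
theorem lim0 (L : PeriodPair) (a : ℂ) (ha : a ≠ 0) :
    Tendsto (fun s => a ^ 2 * L.weierstrassP (a * s) - L.weierstrassP s) (𝓝 0) (𝓝 0) := by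
  have hE : ContinuousAt (L.weierstrassPExcept 0) 0 :=
    (L.analyticAt_weierstrassPExcept 0).continuousAt
  have e : (fun s => a ^ 2 * L.weierstrassP (a * s) - L.weierstrassP s) =
      fun s => a ^ 2 * L.weierstrassPExcept 0 (a * s) - L.weierstrassPExcept 0 s := by
    funext s
    rw [ex0, ex0]
    by_cases hs : s = 0
    · simp [hs]
    · field_simp
      ring
  rw [e]
  have h1 : ContinuousAt (fun s : ℂ => L.weierstrassPExcept 0 (a * s)) 0 :=
    ContinuousAt.comp_of_eq hE (by fun_prop) (by simp)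
  have h2 : ContinuousAt (fun s : ℂ => a ^ 2 * L.weierstrassPExcept 0 (a * s) -
      L.weierstrassPExcept 0 s) 0 := (continuousAt_const.mul h1).sub hE
  have h3 := h2.tendsto
  simpa using h3

theorem cont (L : PeriodPair) {z : ℂ} (hz : z ∉ L.lattice) : ContinuousAt L.weierstrassP z :=
  (L.analyticOnNhd_weierstrassP z hz).continuousAt

theorem cont_add (L : PeriodPair) {z q : ℂ} (hz : z + q ∉ L.lattice) :
    ContinuousAt (fun x => L.weierstrassP (x + q)) z :=
  ContinuousAt.comp_of_eq (cont L hz) (by fun_prop) rfl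

theorem per (L : PeriodPair) (x v : ℂ) (hv : v ∈ L.lattice) :
    L.weierstrassP (x + v) = L.weierstrassP x := L.weierstrassP_add_coe x ⟨v, hv⟩

end CMX18

open CMX18 in
theorem t_CMX (hLIO : St_LIO) : St_CMX := by
  intro L a R ha hL hR
  classical
  obtain ⟨f, hf⟩ : ∃ f : ℂ → ℂ, f = fun z => a ^ 2 * L.weierstrassP (a * z) - L.weierstrassP z -
      ∑ q ∈ R, (L.weierstrassP (z + q) - L.weierstrassP q) := ⟨_, rfl⟩
  obtain ⟨P, hP⟩ : ∃ P : Finset ℂ, P = insert 0 (R.image fun q => -q) := ⟨_, rfl⟩
  -- points outside `P + L`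
  have out : ∀ z, (∀ p ∈ P, z - p ∉ L.lattice) →
      z ∉ L.lattice ∧ (∀ q ∈ R, z + q ∉ L.lattice) ∧ a * z ∉ L.lattice := by
    intro z hz
    have h0 : z ∉ L.lattice := by
      have := hz 0 (by rw [hP]; exact Finset.mem_insert_self _ _)
      rwa [sub_zero] at this
    have h1 : ∀ q ∈ R, z + q ∉ L.lattice := by
      intro q hq
      have := hz (-q) (by
        rw [hP]; exact Finset.mem_insert_of_mem (Finset.mem_image_of_mem _ hq))
      rwa [sub_neg_eq_add] at this
    refine ⟨h0, h1, fun h => ?_⟩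
    obtain ⟨q, hq, h2⟩ := hR.surj (-z) (by
      rw [mul_neg]; exact L.lattice.neg_mem h) (fun h3 => h0 (by
      have := L.lattice.neg_mem h3
      rwa [neg_neg] at this))
    refine h1 q hq ?_
    have h4 := L.lattice.neg_mem h2
    have e : -(-z - q) = z + q := by ring
    rwa [e] at h4
  have fper : ∀ z, ∀ v ∈ L.lattice, f (z + v) = f z := by
    intro z v hv
    rw [hf]
    simp only
    rw [mul_add, per L _ _ (hL v hv), per L _ _ hv]
    congr 1
    refine Finset.sum_congr rfl fun q _ => ?_
    rw [add_right_comm, per L _ _ hv]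
  have fdiff : ∀ z, (∀ p ∈ P, z - p ∉ L.lattice) → DifferentiableAt ℂ f z := by
    intro z hz
    obtain ⟨h0, h1, h2⟩ := out z hz
    have d1 : DifferentiableAt ℂ (fun z => L.weierstrassP (a * z)) z :=
      DifferentiableAt.comp z (L.analyticOnNhd_weierstrassP (a * z) h2).differentiableAt
        (by fun_prop : DifferentiableAt ℂ (fun z : ℂ => a * z) z)
    have d2 : DifferentiableAt ℂ L.weierstrassP z :=
      (L.analyticOnNhd_weierstrassP z h0).differentiableAt
    have d3 : ∀ q ∈ R, DifferentiableAt ℂ (fun z => L.weierstrassP (z + q) - L.weierstrassP q) z := by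
      intro q hq
      exact (DifferentiableAt.comp z
        (L.analyticOnNhd_weierstrassP (z + q) (h1 q hq)).differentiableAt
        (by fun_prop : DifferentiableAt ℂ (fun z : ℂ => z + q) z)).sub_const _
    rw [hf]
    exact (((d1.const_mul (a ^ 2)).sub d2).sub (DifferentiableAt.fun_sum d3))
  -- the limit at `0`
  have l0 : Tendsto f (𝓝 0) (𝓝 0) := by
    have s1 : ∀ q ∈ R, Tendsto (fun z => L.weierstrassP (z + q) - L.weierstrassP q) (𝓝 0)
        (𝓝 0) := by
      intro q hq
      have h1 : ContinuousAt (fun x => L.weierstrassP (x + q)) 0 :=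
        cont_add L (by rw [zero_add]; exact hR.ne q hq)
      have h2 : Tendsto (fun z => L.weierstrassP (z + q) - L.weierstrassP q) (𝓝 0)
          (𝓝 (L.weierstrassP (0 + q) - L.weierstrassP q)) :=
        (h1.sub (continuousAt_const (y := L.weierstrassP q))).tendsto
      rwa [zero_add, sub_self] at h2
    have s2 := (lim0 L a ha).sub (tendsto_finsetSum R s1)
    rw [Finset.sum_const_zero, sub_zero] at s2
    rw [hf]
    exact s2
  have lp : ∀ p ∈ P, Tendsto (fun z => (z - p) * f z) (𝓝[≠] p) (𝓝 0) := by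
    intro p hp
    -- it suffices that `f` has a limit
    suffices h : ∃ l, Tendsto f (𝓝 p) (𝓝 l) by
      obtain ⟨l, hl⟩ := h
      have h1 : Tendsto (fun z : ℂ => z - p) (𝓝 p) (𝓝 0) := by
        have := (by fun_prop : Continuous fun z : ℂ => z - p).tendsto p
        rwa [sub_self] at this
      have h2 := h1.mul hl
      rw [zero_mul] at h2
      exact h2.mono_left nhdsWithin_le_nhds
    rw [hP, Finset.mem_insert] at hp
    rcases hp with hp | hp
    · rw [hp]
      exact ⟨0, l0⟩
    · obtain ⟨q₀, hq₀, rfl⟩ := Finset.mem_image.1 hp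
      have e : f = fun z => (a ^ 2 * L.weierstrassP (a * (z + q₀)) - L.weierstrassP (z + q₀)) -
          (L.weierstrassP z + ∑ q ∈ R.erase q₀, (L.weierstrassP (z + q) - L.weierstrassP q)) +
          L.weierstrassP q₀ := by
        rw [hf]
        funext z
        rw [mul_add, per L _ _ (hR.mem q₀ hq₀), ← Finset.add_sum_erase R _ hq₀]
        ring
      rw [e]
      have g1 : Tendsto (fun z : ℂ => a ^ 2 * L.weierstrassP (a * (z + q₀)) -
          L.weierstrassP (z + q₀)) (𝓝 (-q₀)) (𝓝 0) := by
        have h1 : Tendsto (fun z : ℂ => z + q₀) (𝓝 (-q₀)) (𝓝 0) := by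
          have := (by fun_prop : Continuous fun z : ℂ => z + q₀).tendsto (-q₀)
          rwa [neg_add_cancel] at this
        exact (lim0 L a ha).comp h1
      have g2 : ContinuousAt L.weierstrassP (-q₀) := cont L fun h => hR.ne q₀ hq₀ (by
        have := L.lattice.neg_mem h
        rwa [neg_neg] at this)
      have g3 : ∀ q ∈ R.erase q₀, Tendsto (fun z => L.weierstrassP (z + q) - L.weierstrassP q)
          (𝓝 (-q₀)) (𝓝 (L.weierstrassP (-q₀ + q) - L.weierstrassP q)) := by
        intro q hq
        rw [Finset.mem_erase] at hq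
        refine ((cont_add L fun h => hq.1 (hR.inj q hq.2 q₀ hq₀ ?_)).sub
          continuousAt_const).tendsto
        rwa [neg_add_eq_sub] at h
      exact ⟨_, (g1.sub (g2.tendsto.add (tendsto_finsetSum _ g3))).add_const _⟩
  obtain ⟨c, hc⟩ := hLIO L f P fper fdiff lp
  -- `c = 0`
  have hc0 : c = 0 := by
    have hev : ∀ᶠ z in 𝓝[≠] (0 : ℂ), f z = c := by
      have h1 : ∀ᶠ z in 𝓝[≠] (0 : ℂ), z ∉ L.lattice := by
        have h2 : ∀ᶠ z in 𝓝[≠] (0 : ℂ), z ∈ ((L.lattice : Set ℂ) \ {0})ᶜ :=
          nhdsWithin_le_nhds (L.compl_lattice_sdiff_singleton_mem_nhds 0)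
        filter_upwards [h2, self_mem_nhdsWithin] with z hz hz0
        exact fun hL => hz ⟨hL, hz0⟩
      have h2 : ∀ᶠ z in 𝓝 (0 : ℂ), ∀ q ∈ R, z + q ∉ L.lattice := by
        rw [Filter.eventually_all_finset]
        intro q hq
        exact (by fun_prop : Continuous fun z : ℂ => z + q).continuousAt.eventually
          (L.isClosed_lattice.isOpen_compl.mem_nhds (by
            show (0 : ℂ) + q ∉ L.lattice
            rw [zero_add]
            exact hR.ne q hq))
      filter_upwards [h1, nhdsWithin_le_nhds h2] with z z1 z2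
      refine hc z fun p hp => ?_
      rw [hP, Finset.mem_insert] at hp
      rcases hp with hp | hp
      · rwa [hp, sub_zero]
      · obtain ⟨q, hq, rfl⟩ := Finset.mem_image.1 hp
        rw [sub_neg_eq_add]
        exact z2 q hq
    have h3 : Tendsto f (𝓝[≠] 0) (𝓝 0) := l0.mono_left nhdsWithin_le_nhds
    have h4 : Tendsto f (𝓝[≠] 0) (𝓝 c) := (tendsto_congr' hev).2 tendsto_const_nhds
    exact tendsto_nhds_unique h4 h3
  intro z hz
  have h5 := hc z (by
    intro p hp h
    rw [hP, Finset.mem_insert] at hp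
    rcases hp with hp | hp
    · rw [hp, sub_zero] at h
      exact hz (hL z h)
    · obtain ⟨q, hq, rfl⟩ := Finset.mem_image.1 hp
      rw [sub_neg_eq_add] at h
      have h6 := L.lattice.sub_mem (hL _ h) (hR.mem q hq)
      have e : a * (z + q) - a * q = a * z := by ring
      rw [e] at h6
      exact hz h6)
  rw [hf, hc0] at h5
  linear_combination h5

end Pool.Agent.MU3B
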