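import Pool.Agent.MU3.StB

/-!
# MU3, block B: logarithmic derivative of the derivative of the Weierstrass function (DD)
-/

set_option autoImplicit false

namespace Pool.Agent.MU3B

open Complex Real Filter Topology
open scoped ComplexConjugate

theorem t_DD (hHOL : St_HOL) (hZAD : St_ZAD) (hP2 : St_P2) : St_DD := by
  intro L z h2z
  have hz : z ∉ L.lattice := by
    intro h
    apply h2z
    have h1 := L.lattice.add_mem h h
    rwa [← two_mul] at h1
  -- continuity of `e` outside the lattice
  have hcont : ∀ u : ℂ, u ∉ L.lattice → ContinuousAt (ee L) u := by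
    intro u hu
    have h1 : ee L = fun v => zet L v - ((π / area L : ℝ) : ℂ) * conj v := by
      funext v
      unfold zet
      ring
    rw [h1]
    exact (hHOL L u hu).continuousAt.sub
      (continuousAt_const.mul Complex.continuous_conj.continuousAt)
  have hz2 : z + z ∉ L.lattice := by
    rwa [← two_mul]
  -- the derivatives
  have hd1 : HasDerivAt L.weierstrassP (L.derivWeierstrassP z) z := by
    have h1 : DifferentiableAt ℂ L.weierstrassP z :=
      (L.differentiableOn_weierstrassP).differentiableAt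
        (L.isClosed_lattice.isOpen_compl.mem_nhds hz)
    have h2 := h1.hasDerivAt
    rwa [L.deriv_weierstrassP] at h2
  have hd2 := hP2 L z hz
  have hs1 := hasDerivAt_iff_tendsto_slope.1 hd1
  have hs2 := hasDerivAt_iff_tendsto_slope.1 hd2
  have he1 : Tendsto (fun Q => ee L (z + Q)) (𝓝[≠] z) (𝓝 (ee L (z + z))) := by
    have h1 : ContinuousAt (fun Q => ee L (z + Q)) z := by
      apply ContinuousAt.comp (g := ee L)
      · exact hcont _ hz2
      · exact continuousAt_const.add continuousAt_id
    exact h1.tendsto.mono_left nhdsWithin_le_nhds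
  have he2 : Tendsto (fun Q => ee L Q) (𝓝[≠] z) (𝓝 (ee L z)) :=
    (hcont z hz).tendsto.mono_left nhdsWithin_le_nhds
  have hleft : Tendsto (fun Q => 2 * (ee L (z + Q) - ee L z - ee L Q) *
      slope L.weierstrassP z Q) (𝓝[≠] z)
      (𝓝 (2 * (ee L (z + z) - ee L z - ee L z) * L.derivWeierstrassP z)) :=
    (((he1.sub_const _).sub he2).const_mul 2).mul hs1
  have hev : ∀ᶠ Q in 𝓝[≠] z, 2 * (ee L (z + Q) - ee L z - ee L Q) *
      slope L.weierstrassP z Q = slope L.derivWeierstrassP z Q := by
    have h1 : ∀ᶠ Q in 𝓝[≠] z, Q ∉ L.lattice :=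
      nhdsWithin_le_nhds (L.isClosed_lattice.isOpen_compl.mem_nhds hz)
    have h2 : ∀ᶠ Q in 𝓝[≠] z, z + Q ∉ L.lattice := by
      apply nhdsWithin_le_nhds
      have h3 : ContinuousAt (fun Q : ℂ => z + Q) z := continuousAt_const.add continuousAt_id
      exact h3.preimage_mem_nhds (L.isClosed_lattice.isOpen_compl.mem_nhds hz2)
    have h3 : ∀ᶠ Q in 𝓝[≠] z, z - Q ∉ L.lattice := by
      have h4 : ContinuousAt (fun Q : ℂ => z - Q) z := continuousAt_const.sub continuousAt_id
      have h5 := L.compl_lattice_sdiff_singleton_mem_nhds (0 : ℂ)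
      have h6 : (fun Q : ℂ => z - Q) ⁻¹' (((L.lattice : Set ℂ) \ {0})ᶜ) ∈ 𝓝 z := by
        apply h4.preimage_mem_nhds
        simpa using h5
      filter_upwards [nhdsWithin_le_nhds h6, self_mem_nhdsWithin] with Q hQ hne hmem
      apply hQ
      refine ⟨hmem, ?_⟩
      intro h7
      apply hne
      have h8 : z - Q = 0 := h7
      exact (sub_eq_zero.1 h8).symm
    filter_upwards [h1, h2, h3, self_mem_nhdsWithin] with Q hQ1 hQ2 hQ3 hne
    have h4 := hZAD L Q z hQ1 hz hQ2 hQ3
    have h5 : Q - z ≠ 0 := sub_ne_zero.2 hne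
    rw [slope_def_field, slope_def_field, ← mul_div_assoc]
    congr 1
    linear_combination -h4
  have hfin := tendsto_nhds_unique (hleft.congr' hev) hs2
  rw [← two_mul] at hfin
  rw [← hfin]
  ring

end Pool.Agent.MU3B
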