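import Pool.Agent.MU3.StB

/-!
# MU3, block B: the constant of the distribution relation of the derivative (module MU3B_DIC)
-/

set_option autoImplicit false

namespace Pool.Agent.MU3B

open Complex Real Filter Topology
open scoped ComplexConjugate

namespace DIC

/-- `z³ ℘'(z) → -2` at `0`. -/
lemma lim_zero (L : PeriodPair) :
    Tendsto (fun z : ℂ => z ^ 3 * L.derivWeierstrassP z) (𝓝[≠] 0) (𝓝 (-2)) := by
  have h1 : ContinuousAt (L.derivWeierstrassPExcept 0) 0 :=
    (L.analyticAt_derivWeierstrassPExcept 0).continuousAt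
  have h2 : Tendsto (fun z : ℂ => z ^ 3 * L.derivWeierstrassPExcept 0 z - 2) (𝓝[≠] 0)
      (𝓝 (-2)) := by
    have h3 : Tendsto (fun z : ℂ => z ^ 3 * L.derivWeierstrassPExcept 0 z - 2) (𝓝 0)
        (𝓝 ((0 : ℂ) ^ 3 * L.derivWeierstrassPExcept 0 0 - 2)) :=
      ((tendsto_id.pow 3).mul h1.tendsto).sub_const 2
    have h4 : (0 : ℂ) ^ 3 * L.derivWeierstrassPExcept 0 0 - 2 = -2 := by ring
    rw [h4] at h3
    exact h3.mono_left nhdsWithin_le_nhds
  refine h2.congr' ?_
  filter_upwards [self_mem_nhdsWithin] with z hz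
  have hz0 : z ≠ 0 := hz
  have h5 := L.derivWeierstrassPExcept_def (0 : L.lattice) z
  simp only [ZeroMemClass.coe_zero, sub_zero] at h5
  rw [h5]
  field_simp
  ring

end DIC

open DIC in
theorem t_DIC (hDIY : St_DIY) : St_DIC := by
  intro L a R ha haL hR hR2 z hz
  obtain ⟨C, hC0, hC⟩ := hDIY L a R ha haL hR hR2
  rw [hC z hz]
  have hCval : C = a ^ 3 * ∏ q ∈ R, L.derivWeierstrassP q := by
    have hev : ∀ᶠ w : ℂ in 𝓝[≠] 0, a * w ∉ L.lattice := by
      have h1 : ∀ᶠ u : ℂ in 𝓝 (0 : ℂ), u ∈ ((L.lattice : Set ℂ) \ {0})ᶜ :=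
        L.compl_lattice_sdiff_singleton_mem_nhds 0
      have h2 : Tendsto (fun w : ℂ => a * w) (𝓝[≠] 0) (𝓝 0) := by
        have : Tendsto (fun w : ℂ => a * w) (𝓝 0) (𝓝 (a * 0)) :=
          (continuous_const.mul continuous_id).tendsto 0
        rw [mul_zero] at this
        exact this.mono_left nhdsWithin_le_nhds
      filter_upwards [h2.eventually h1, self_mem_nhdsWithin] with w hw hw0 hmem
      exact hw ⟨hmem, mul_ne_zero ha hw0⟩
    have hl : Tendsto (fun w : ℂ => w ^ 3 * L.derivWeierstrassP w *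
        ∏ q ∈ R, L.derivWeierstrassP (w + q)) (𝓝[≠] 0)
        (𝓝 (-2 * ∏ q ∈ R, L.derivWeierstrassP q)) := by
      refine (lim_zero L).mul ?_
      refine tendsto_finset_prod _ fun q hq => ?_
      have h3 : ContinuousAt L.derivWeierstrassP q :=
        (L.analyticOnNhd_derivWeierstrassP q (hR.ne q hq)).continuousAt
      have h4 : Tendsto (fun w : ℂ => w + q) (𝓝[≠] 0) (𝓝 q) := by
        have : Tendsto (fun w : ℂ => w + q) (𝓝 0) (𝓝 (0 + q)) :=
          (continuous_id.add continuous_const).tendsto 0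
        rw [zero_add] at this
        exact this.mono_left nhdsWithin_le_nhds
      exact h3.tendsto.comp h4
    have hr : Tendsto (fun w : ℂ => C / a ^ 3 * ((a * w) ^ 3 * L.derivWeierstrassP (a * w)))
        (𝓝[≠] 0) (𝓝 (C / a ^ 3 * (-2))) := by
      refine Tendsto.const_mul _ ((lim_zero L).comp ?_)
      refine tendsto_nhdsWithin_iff.2 ⟨?_, ?_⟩
      · have : Tendsto (fun w : ℂ => a * w) (𝓝 0) (𝓝 (a * 0)) :=
          (continuous_const.mul continuous_id).tendsto 0
        rw [mul_zero] at this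
        exact this.mono_left nhdsWithin_le_nhds
      · filter_upwards [self_mem_nhdsWithin] with w hw
        exact mul_ne_zero ha hw
    have he : (fun w : ℂ => w ^ 3 * L.derivWeierstrassP w *
        ∏ q ∈ R, L.derivWeierstrassP (w + q)) =ᶠ[𝓝[≠] 0]
        (fun w : ℂ => C / a ^ 3 * ((a * w) ^ 3 * L.derivWeierstrassP (a * w))) := by
      filter_upwards [hev] with w hw
      have h5 := hC w hw
      rw [mul_assoc, h5]
      field_simp
    have h6 := tendsto_nhds_unique (hl.congr' he) hr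
    have ha3 : a ^ 3 ≠ 0 := pow_ne_zero 3 ha
    rw [div_mul_eq_mul_div, eq_div_iff ha3] at h6
    linear_combination (1 / 2 : ℂ) * h6
  rw [hCval]

end Pool.Agent.MU3B
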