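import Pool.Agent.MU3.BDefs

/-!
# MU3, block B: statements (with complete proofs in words)

Every statement is a `def St_X : Prop`. A module proves `theorem t_X (h : St_Y) ... : St_X`, where
`Y` are the statements named under `Uses`. Mathlib file to know:
`Mathlib/Analysis/SpecialFunctions/Elliptic/Weierstrass.lean` (`L.weierstrassP`,
`L.derivWeierstrassP`, `weierstrassPExcept`, periodicity, differentiability, `deriv_weierstrassP`,
`derivWeierstrassP_sq`, `hasSumLocallyUniformly_aux`, `ZLattice.summable_norm_rpow`).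
Abbreviations in the proofs: `A = area L`, `℘ = L.weierstrassP`, `℘' = L.derivWeierstrassP`,
`e = ee L`, `ζ = zet L`, sums over `w` are over `L.lattice`.
-/

set_option autoImplicit false

namespace Pool.Agent.MU3B

open Complex Real Filter Topology
open scoped ComplexConjugate

noncomputable section

/-! ## Preparations -/

/-- (SUM) Gaussian domination, uniform for `‖z‖ ≤ R`.

PROOF. Let `δ`: `x ↦ (1 + x)^(k+3) exp (-(c x²/4))` is bounded on `[0, oo)` by some `C` (it tends to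
`0`, continuous). If `‖w‖ ≥ 2 R` and `‖z‖ ≤ R` then `‖z + w‖ ≥ ‖w‖/2` and `‖z + w‖ ≤ 2 ‖w‖`, so both
quantities are `≤ (1 + 2‖w‖)^k exp (-(c ‖w‖²/4)) ≤ 2^k C (1 + ‖w‖)^(-3)`. For the finitely many `w`
with `‖w‖ < 2 R` both are `≤ C' (1 + ‖w‖)^(-3)` with `C' = (1 + 3 R)^k (1 + 2 R)^3` (`exp ≤ 1`). So
`u w = (2^k C + C') (1 + ‖w‖)^(-3)`; summable: compare with `‖w‖^(-3)` for `w ≠ 0`
(`ZLattice.summable_norm_rpow`, rank `2 < 3`) plus one term. -/
def St_SUM : Prop :=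
  ∀ (L : PeriodPair) (c : ℝ), 0 < c → ∀ (k : ℕ) (R : ℝ), ∃ u : L.lattice → ℝ, Summable u ∧
    ∀ (w : L.lattice) (z : ℂ), ‖z‖ ≤ R →
      (1 + ‖z + w‖) ^ k * Real.exp (-(c * ‖z + w‖ ^ 2)) ≤ u w ∧
      (1 + ‖(w : ℂ)‖) ^ k * Real.exp (-(c * ‖(w : ℂ)‖ ^ 2)) ≤ u w

/-- (LAT) elementary facts on the pairing.

PROOF. `A ≠ 0`: otherwise `conj ω₁ ω₂` is real, `ω₂ = r ω₁` with `r` real (`ω₁ ≠ 0`), against
`L.indep`. `conj w z - w conj z` is `2 i Im(conj w z)`, so it is additive in both variables, purely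
imaginary, odd in `w`, and for `w = m ω₁ + n ω₂`, `z = m' ω₁ + n' ω₂` equal to
`2 i (m n' - n m') Im(conj ω₁ ω₂) = ± 2 i A (m n' - n m')`, so `pr = exp (± 2 π i (m n' - n m')) = 1`.
Last but one: write `u = x ω₁ + y ω₂` with real `x, y` (`L.basis`); `pr L u ω₂ = 1` and
`pr L u ω₁ = 1` give `x`, `y` integers. Last: the lattice is discrete. -/
def St_LAT : Prop :=
  ∀ L : PeriodPair, 0 < area L ∧ (∀ w z, ‖pr L w z‖ = 1) ∧
    (∀ w z z', pr L w (z + z') = pr L w z * pr L w z') ∧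
    (∀ w w' z, pr L (w + w') z = pr L w z * pr L w' z) ∧
    (∀ w z, pr L (-w) z = conj (pr L w z)) ∧
    (∀ w z, pr L w (-z) = conj (pr L w z)) ∧
    (∀ w ∈ L.lattice, ∀ z ∈ L.lattice, pr L w z = 1) ∧
    (∀ u : ℂ, (∀ v ∈ L.lattice, pr L u v = 1) → u ∈ L.lattice) ∧
    ∃ δ : ℝ, 0 < δ ∧ ∀ w ∈ L.lattice, w ≠ 0 → δ ≤ ‖w‖

/-- (POI) Poisson summation `∑_w exp (-π |z + w|²/(A t)) = t Θ_t(z)`.

PROOF. Mathlib has the one dimensional formula
`Complex.tsum_exp_neg_quadratic : ∑' n : ℤ, exp (-π a n² + 2 π b n) = 1/a^(1/2) ∑' n, exp (-π/a (n + i b)²)`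
(`0 < re a`); use it twice. Write `w = m ω₁ + n ω₂` (`L.latticeEquivProd`), `z = x ω₁ + y ω₂`, `x y`
real, `ε = sign of Im(conj ω₁ ω₂)`, `τ = ω₂/ω₁ = r + i s`, `|s| = A/|ω₁|²`, `α = |ω₁|²/A > 0`, so
`|m ω₁ + n ω₂|²/A = α ((m + n r)² + n² s²)`, `α s² = 1/α`. With
`pr L w z = exp (2 π i ε (m y - n x))`:
`Θ_t(z) = Σ_n exp (-π t n²/α - 2 π i ε n x) Σ_m exp (-π t α (m + n r)² + 2 π i ε m y)`. The inner sum is by
Poisson in `m` (expand the square; `a = t α`, `b = i ε y - t α n r`; or shift) equal to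
`(t α)^(-1/2) Σ_k exp (-π (k - ε y)²/(t α)) exp (2 π i n r (k - ε y))` (check: Fourier transform of
`exp (-π a (m + θ)²)`). Interchange (everything is absolutely summable by (SUM) or by Gaussian
bounds) and apply Poisson in `n`: `Σ_n exp (-π t n²/α + 2 π i n θ) = (α/t)^(1/2) Σ_l exp (-π (α/t) (l + θ)²)`
with `θ = r (k - ε y) - ε x`. The result is
`(1/t) Σ_(k,l) exp (-π/t ((k - ε y)²/α + α (l - ε x + r (k - ε y))²))`, which is
`(1/t) Σ exp (-π |w' + z|²/(A t))` for `w' = - ε l ω₁ - ε k ω₂` (`ε² = 1`). -/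
def St_POI : Prop :=
  ∀ (L : PeriodPair) (t : ℝ), 0 < t → ∀ z : ℂ, ((Gs L t z : ℝ) : ℂ) = t * Th L t z

/-- (POD) the derivative of (POI):
`∑_w conj (z + w) exp (-π |z + w|²/(A t)) = - t² ∑_w conj w ⟨w, z⟩ exp (-π t |w|²/A)`.

Uses SUM, LAT, POI. PROOF. Both sides of (POI) may be differentiated (as real functions of `z`) term by
term: `hasFDerivAt_tsum_of_isPreconnected` or, simpler, along the two lines `z + s`, `z + i s`, `s` real
(`hasDerivAt_tsum_of_isPreconnected`), with (SUM). The derivative of `exp (-π |z + w|²/(A t))` in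
direction `h` is `-(2π/(A t)) Re(conj (z + w) h) exp (..)`, that of `⟨w, z⟩` is
`(π/A) (conj w h - w conj h) ⟨w, z⟩`. Take (derivative for `h = 1`) minus `i` times (derivative for
`h = i`), divided by 2: `Re(c) - i Re(c i) = c`. -/
def St_POD : Prop :=
  ∀ (L : PeriodPair) (t : ℝ), 0 < t → ∀ z : ℂ,
    (∑' w : L.lattice, conj (z + w) * (Real.exp (-(π * ‖z + w‖ ^ 2 / (area L * t))) : ℝ)) =
      -(t : ℂ) ^ 2 * ∑' w : L.lattice,
        conj (w : ℂ) * pr L w z * (Real.exp (-(π * t * ‖(w : ℂ)‖ ^ 2 / area L)) : ℝ)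

/-! ## The function `e = E₁*` -/

/-- (PER) `e` is periodic and odd.

Uses SUM, LAT. PROOF. Periodic: in the first sum shift `w` by `v` (`Equiv.addRight`, `tsum` is invariant
under equivalences, no summability needed); in the second `⟨w, z + v⟩ = ⟨w, z⟩ ⟨w, v⟩ = ⟨w, z⟩`. Odd:
replace `w` by `-w` in both sums. -/
def St_PER : Prop :=
  ∀ L : PeriodPair, (∀ z, ∀ v ∈ L.lattice, ee L (z + v) = ee L z) ∧ ∀ z, ee L (-z) = -ee L z

/-- (INT) Hecke's integral, for every `z` (for `z` in the lattice both sides are `0`):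
`e(z)/c = ∫_0^oo ∑_w conj (z + w) exp (-c t |z + w|²) dt`.

Uses SUM, LAT, POD, PER. PROOF. By the substitution `t ↦ (π/(A c)) t` it is enough to treat
`c = π/A` (`MeasureTheory.integral_comp_mul_left_Ioi`, `integrableOn_Ioi_comp_mul_left_iff`). Call `g t`
the sum. (1) On `(1, oo)`: `∫_1^oo conj (z + w) exp (-π t |z + w|²/A) dt = (A/π) exp (-π |z + w|²/A)/(z + w)`
(both are `0` if `z + w = 0`), and the norms are summable by (SUM) with the lower bound
`|z + w| ≥ δ' > 0` for `z + w ≠ 0` (discreteness), so `MeasureTheory.integral_tsum` or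
`hasSum_integral_of_summable_integral_norm` applies: `∫_1^oo g = (A/π) (first sum of e)`. (2) On `(0, 1)`:
(POD) with `1/t`: `g t = - t^(-2) Σ_w conj w ⟨w, z⟩ exp (-π |w|²/(A t))`, and
`∫_0^1 t^(-2) exp (-κ/t) dt = exp (-κ)/κ` (antiderivative `exp (-κ/t)/κ`), `κ = π |w|²/A`, so
`∫_0^1 g = -(A/π) Σ_(w ≠ 0) ⟨w, z⟩ exp (-π |w|²/A) conj w/|w|²`, `conj w/|w|² = 1/w`. -/
def St_INT : Prop :=
  ∀ (L : PeriodPair) (c : ℝ), 0 < c → ∀ z : ℂ,
    MeasureTheory.IntegrableOn (fun t : ℝ => ∑' w : L.lattice,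
      conj (z + w) * (Real.exp (-(c * t * ‖z + w‖ ^ 2)) : ℝ)) (Set.Ioi 0) ∧
    (∫ t in Set.Ioi (0 : ℝ), ∑' w : L.lattice,
      conj (z + w) * (Real.exp (-(c * t * ‖z + w‖ ^ 2)) : ℝ)) = ee L z / c

/-- (SCL) homogeneity: if `L' = a L` (as sets) then `e_{L'}(a z) = a⁻¹ e_L(z)`.

Uses INT. PROOF. (INT) for `L'`, `c = 1` at `a z`: reindex by `w' = a w` (equivalence of the two
lattices), `conj (a (z + w)) = conj a conj (z + w)`, `|a (z + w)|² = |a|² |z + w|²`, so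
`e_{L'}(a z) = conj a e_L(z)/|a|²` by (INT) for `L` with `c = |a|²`. -/
def St_SCL : Prop :=
  ∀ (L L' : PeriodPair) (a : ℂ), a ≠ 0 → (∀ w : ℂ, w ∈ L.lattice ↔ a * w ∈ L'.lattice) →
    ∀ z, ee L' (a * z) = ee L z / a

/-- (NUM) number of classes: `a⁻¹ L / L` has `|a|²` elements.

Uses LAT. PROOF. `a L ⊆ L`, write `a ω₁ = p ω₁ + q ω₂`, `a ω₂ = r ω₁ + s ω₂` with integers. Then
`conj (a ω₁) (a ω₂) = |a|² conj ω₁ ω₂`; comparing imaginary parts, `|a|² = p s - q r`. The index of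
`a L` in `L` is `|p s - q r|` (Mathlib: `Int.card_quotient..`/`Submodule.natAbs_det_equiv` or
`AddSubgroup.index` of the image of an endomorphism of `ℤ²`), and multiplication by `a` identifies
`a⁻¹ L / L` with `L / a L`; `R` with `0` added is a set of representatives. -/
def St_NUM : Prop :=
  ∀ (L : PeriodPair) (a : ℂ) (R : Finset ℂ), a ≠ 0 → (∀ w ∈ L.lattice, a * w ∈ L.lattice) →
    IsReps L a R → ((R.card : ℝ) + 1) = ‖a‖ ^ 2

/-- (REP) representatives exist. Uses LAT. PROOF. `a⁻¹ L / L` is finite (`L/aL` is finite, as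
`a L` has finite index: it contains `N L` for the integer `N = p s - q r` of (NUM), or compactness:
`a⁻¹ L` is discrete and the closed fundamental parallelogram is compact). Choose one point in each
nonzero class. -/
def St_REP : Prop :=
  ∀ (L : PeriodPair) (a : ℂ), a ≠ 0 → (∀ w ∈ L.lattice, a * w ∈ L.lattice) →
    ∃ R : Finset ℂ, IsReps L a R

/-- (DIS) distribution relation of `e`, for every `z` and every `a ≠ 0` with `a L ⊆ L`.

Uses INT. PROOF. (INT) with `c = 1`: the sum over the classes `0` and `q ∈ R` and over `w ∈ L` of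
`conj (z + q + w) exp (-t |z + q + w|²)` is the sum over all `v ∈ a⁻¹ L` of `conj (z + v) exp (-t |z + v|²)`
(the map `(q, w) ↦ a (q + w)` is a bijection `(R ∪ {0}) × L → L` by `IsReps`). With `v = u/a`:
`conj (z + u/a) = conj (a z + u)/conj a`, `|z + u/a|² = |a z + u|²/|a|²`, so the integral is
`e(a z) |a|²/conj a = a e(a z)` by (INT) with `c = 1/|a|²`. (Finite sums and integrals commute.) -/
def St_DIS : Prop :=
  ∀ (L : PeriodPair) (a : ℂ) (R : Finset ℂ), a ≠ 0 → (∀ w ∈ L.lattice, a * w ∈ L.lattice) →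
    IsReps L a R → ∀ z, ee L z + ∑ q ∈ R, ee L (z + q) = a * ee L (a * z)

/-- (HOL) `ζ(z) = e(z) + (π/A) conj z` is holomorphic outside `L`.

Uses SUM, LAT, POI. PROOF. Near `z₀ ∉ L` (a ball on which `|z + w| ≥ δ' > 0` for all `w`) both sums of
`e` may be differentiated term by term as real functions (`hasFDerivAt_tsum_of_isPreconnected`, bounds by
(SUM)). For a real differentiable function write `D(h) = α h + β conj h`. The `β` of
`exp (-π |z + w|²/A)/(z + w)` is `-(π/A) exp (-π |z + w|²/A)` (`|z + w|² = (z + w) conj (z + w)`); the `β` of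
`⟨w, z⟩ exp (-π |w|²/A)/w` is `-(π/A) ⟨w, z⟩ exp (-π |w|²/A)` for `w ≠ 0` and `0` for `w = 0`. So the `β` of `e`
is `-(π/A) (Σ_w exp (-π |z + w|²/A) - Σ_(w ≠ 0) ⟨w, z⟩ exp (-π |w|²/A)) = -(π/A)` by (POI) with `t = 1`, and
the `β` of `ζ` is `0`: the real derivative is complex linear, `hasFDerivAt_of_restrictScalars`. -/
def St_HOL : Prop :=
  ∀ (L : PeriodPair) (z : ℂ), z ∉ L.lattice → DifferentiableAt ℂ (zet L) z

/-- (POL) `ζ(z) = 1/z + h(z)` near `0`, `h` holomorphic and odd.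

Uses SUM, LAT, HOL, PER. PROOF. Let `δ > 0` be less than half of the `δ` of (LAT). On `0 < |z| < δ` the
function `ζ(z) - 1/z` is holomorphic (HOL) and bounded: the term `w = 0` of the first sum minus `1/z` is
`(exp (-π |z|²/A) - 1)/z`, of norm `≤ π |z|/A`; the other terms have `|z + w| ≥ δ` and are bounded by
(SUM). Removable singularity: `Complex.differentiableOn_update_limUnder_of_bddAbove`; `h` is odd because
`e` is. -/
def St_POL : Prop :=
  ∀ L : PeriodPair, ∃ (h : ℂ → ℂ) (δ : ℝ), 0 < δ ∧ DifferentiableOn ℂ h (Metric.ball 0 δ) ∧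
    (∀ z ∈ Metric.ball (0 : ℂ) δ, h (-z) = -h z) ∧
    ∀ z ∈ Metric.ball (0 : ℂ) δ, z ≠ 0 → z ∉ L.lattice ∧ zet L z = 1 / z + h z

/-! ## Liouville and the relations with `℘` -/

/-- (LIO) Liouville: a doubly periodic function, holomorphic outside `P + L` (`P` finite) and with
`(z - p) f(z) → 0` at each `p ∈ P`, is constant outside `P + L`.

PROOF. Let `g z = lim_(𝓝[≠] z) f` (`limUnder`). At `z₀` not in `P + L`: `f` is continuous, `g z₀ = f z₀`.
At `z₀ = p + v`: by periodicity `(z - z₀) f(z) → 0`, `f` is holomorphic in a punctured neighbourhood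
(`P + L` is closed and discrete: finite union of translates of the lattice), so `g` is holomorphic at `z₀`
by the removable singularity theorem (`Complex.differentiableOn_update_limUnder_of_isLittleO`, or apply
`bddAbove` to `(z - z₀) f(z)`). So `g` is entire and periodic, hence bounded (compact fundamental
parallelogram: every `z` is congruent to one with coordinates in `[0,1]`), hence constant:
`Differentiable.apply_eq_apply_of_bounded`. -/
def St_LIO : Prop :=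
  ∀ (L : PeriodPair) (f : ℂ → ℂ) (P : Finset ℂ), (∀ z, ∀ v ∈ L.lattice, f (z + v) = f z) →
    (∀ z, (∀ p ∈ P, z - p ∉ L.lattice) → DifferentiableAt ℂ f z) →
    (∀ p ∈ P, Tendsto (fun z => (z - p) * f z) (𝓝[≠] p) (𝓝 0)) →
    ∃ c, ∀ z, (∀ p ∈ P, z - p ∉ L.lattice) → f z = c

/-- (ZP) `ζ' = c₂ - ℘` outside `L`.

Uses PER, HOL, POL, LIO. PROOF. `f = deriv ζ + ℘` with `P = {0}`: periodic since
`ζ(z + v) = ζ(z) + (π/A) conj v`; holomorphic outside `L`; near `0`: `deriv ζ = -1/z² + h'`,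
`℘ = 1/z² + ℘[L - 0]` (`weierstrassPExcept`, `ite_eq_one_sub_sq_mul_weierstrassP` or
`weierstrassPExcept_def`), so `f` is bounded near `0`. -/
def St_ZP : Prop :=
  ∀ L : PeriodPair, ∃ c, ∀ z, z ∉ L.lattice → HasDerivAt (zet L) (c - L.weierstrassP z) z

/-- (P2) `℘'' = 6 ℘² - g₂/2` outside `L`.

PROOF. Differentiate `℘'² = 4 ℘³ - g₂ ℘ - g₃` (`derivWeierstrassP_sq`): `2 ℘' ℘'' = (12 ℘² - g₂) ℘'`. Hence
the holomorphic function `℘' (2 ℘'' - 12 ℘² + g₂)` is `0` on the connected open set `ℂ ∖ L`; `℘'` is not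
identically `0` near any point (else `℘` would be constant on the connected set, `℘ → oo` at `0`), so by
the identity theorem (`AnalyticOnNhd.eq_zero_or_eq_zero_of_mul_eq_zero` or isolated zeros and
continuity) the other factor is `0`. -/
def St_P2 : Prop :=
  ∀ (L : PeriodPair) (z : ℂ), z ∉ L.lattice →
    HasDerivAt L.derivWeierstrassP (6 * L.weierstrassP z ^ 2 - L.g₂ / 2) z

/-- (ID) `(e(z + Q) + e(z - Q) - 2 e(z)) (℘(z) - ℘(Q)) = ℘'(z)`.

Uses PER, HOL, POL, LIO, ZP. PROOF. Fix `Q ∉ L`. `f` = left side minus right side, `P = {0, Q, -Q}`.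
Note that `e` may be replaced by `ζ` (the terms `conj` cancel). `f` is periodic, holomorphic outside
`P + L`. At `Q`: `ζ(z - Q)` has a simple pole, `℘(z) - ℘(Q) → 0`: `(z - Q) f → 0`; the same at `-Q`. At
`0`: put `β(z) = ζ(z + Q) + ζ(z - Q)` (holomorphic near `0`, odd), `k = β - 2 h` (`h` of (POL)), odd,
`k(z) = k'(0) z + O(z²)`; by (ZP) `β'(0) = 2 (c - ℘(Q))` and `h'(0) = lim (ζ' + 1/z²) = c` (as
`℘ - 1/z² → 0`, Mathlib: `℘[L - 0] 0 = 0`), so `k'(0) = -2 ℘(Q)`. With `℘ = 1/z² + O(z²)`,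
`℘' = -2/z³ + O(z)`: `f = (-2/z + k)(1/z² - ℘(Q) + ..) + 2/z³ + .. = (2 ℘(Q) + k'(0))/z + O(1)`, so
`z f(z) → 0`. [If `2 Q ∈ L` then `Q` and `-Q` are congruent: at `Q` the poles of `ζ(z - Q)` and `ζ(z + Q)` are
both simple: still `(z - Q) f → 0`.] By (LIO) `f` is constant `c`, and `f` is odd (`e`, `℘'` odd, `℘` even:
`z ↦ -z` exchanges `e(z + Q)` and `-e(z - Q)`), so `c = 0`. -/
def St_ID : Prop :=
  ∀ (L : PeriodPair) (Q z : ℂ), Q ∉ L.lattice → z ∉ L.lattice → z + Q ∉ L.lattice →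
    z - Q ∉ L.lattice →
    (ee L (z + Q) + ee L (z - Q) - 2 * ee L z) * (L.weierstrassP z - L.weierstrassP Q) =
      L.derivWeierstrassP z

/-- (NEQ) `℘(z) = ℘(Q)` only for `z = ± Q` modulo `L`.

Uses PER, HOL, ID. PROOF. Suppose `℘(z₀) = ℘(Q)`, `z₀ ± Q ∉ L`. Near `z₀` the function
`D(z) = ℘(z) - ℘(Q)` satisfies `D' = b D` with `b = ζ(z + Q) + ζ(z - Q) - 2 ζ(z)` holomorphic (ID). `D` has a
zero at `z₀`; its order is `oo`: a finite order `m ≥ 1` is impossible because `D'` has order `m - 1` and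
`b D` order `≥ m`. So `D = 0` near `z₀` (`AnalyticAt.eventually_eq_zero_or_eventually_ne_zero` and
`AnalyticAt.exists_eventuallyEq_pow_smul_nonzero_iff`; or uniqueness for linear differential
equations), so on the connected set `ℂ ∖ L`, against `℘ → oo` at `0`
(`L.not_continuousAt_weierstrassP` is not enough by itself, use `order_weierstrassP` or
`z² ℘(z) → 1`). -/
def St_NEQ : Prop :=
  ∀ (L : PeriodPair) (Q z : ℂ), Q ∉ L.lattice → z ∉ L.lattice →
    L.weierstrassP z = L.weierstrassP Q → z - Q ∈ L.lattice ∨ z + Q ∈ L.lattice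

/-- (ZER) zeros of `℘'`: the points of order two.

Uses PER, HOL, POL, ID, NEQ. PROOF. If `2 z ∈ L`, `z ∉ L`: `℘'(z) = ℘'(-z) = -℘'(z)`. Conversely let
`℘'(Q) = 0`, `2 Q ∉ L`. Near `Q`, `z ≠ Q`: `D(z) = ℘(z) - ℘(Q) ≠ 0` (NEQ) and `D'/D = b(z)` with
`b(z) = 1/(z - Q) + holomorphic` (ID), so `D/(z - Q)` has holomorphic logarithmic derivative; precisely
`((z - Q)⁻¹ D)' = (b - 1/(z - Q)) ((z - Q)⁻¹ D)`, the function `(z - Q)⁻¹ D` extends holomorphically to `Q`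
with value `℘'(Q) = 0`, and as in (NEQ) it is identically `0`: contradiction. -/
def St_ZER : Prop :=
  ∀ (L : PeriodPair) (z : ℂ), z ∉ L.lattice → (L.derivWeierstrassP z = 0 ↔ 2 * z ∈ L.lattice)

/-- (ZAD) `2 (e(z + Q) - e(z) - e(Q)) (℘(z) - ℘(Q)) = ℘'(z) - ℘'(Q)`.

Uses PER, ID. PROOF. (ID) for `(z, Q)` and for `(Q, z)`; `e(Q - z) = -e(z - Q)`. Add. -/
def St_ZAD : Prop :=
  ∀ (L : PeriodPair) (Q z : ℂ), Q ∉ L.lattice → z ∉ L.lattice → z + Q ∉ L.lattice →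
    z - Q ∉ L.lattice →
    2 * (ee L (z + Q) - ee L z - ee L Q) * (L.weierstrassP z - L.weierstrassP Q) =
      L.derivWeierstrassP z - L.derivWeierstrassP Q

/-- (ADD) addition theorem, in the form `℘(z + Q) + ℘(z) + ℘(Q) = M²`,
`℘'(z + Q) + ℘'(z) = - 2 M (℘(z + Q) - ℘(z))`, `M = (℘'(z) - ℘'(Q))/(2 (℘(z) - ℘(Q)))`.

Uses ZAD, ZP, HOL, P2, NEQ. PROOF. `M = ζ(z + Q) - ζ(z) - ζ(Q)` (ZAD; the `conj` cancel). Derivative in
`z` (`Q` fixed): `-℘(z + Q) + ℘(z)` (ZP) `= (1/2) (℘''(z)/D - ℘'(z) (℘'(z) - ℘'(Q))/D²)`, `D = ℘(z) - ℘(Q) ≠ 0`.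
Derivative in `Q` (`z` fixed): `-℘(z + Q) + ℘(Q) = (1/2) (-℘''(Q)/D + ℘'(Q) (℘'(z) - ℘'(Q))/D²)`. Sum, with
`℘''(z) - ℘''(Q) = 6 (℘(z)² - ℘(Q)²)` (P2): `-2 ℘(z + Q) + ℘(z) + ℘(Q) = 3 (℘(z) + ℘(Q)) - 2 M²`. Second
formula: differentiate `℘(z + Q) = M² - ℘(z) - ℘(Q)` in `z`, `∂M/∂z = ℘(z) - ℘(z + Q)`. -/
def St_ADD : Prop :=
  ∀ (L : PeriodPair) (Q z : ℂ), Q ∉ L.lattice → z ∉ L.lattice → z + Q ∉ L.lattice →
    z - Q ∉ L.lattice →
    L.weierstrassP (z + Q) + L.weierstrassP z + L.weierstrassP Q =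
      ((L.derivWeierstrassP z - L.derivWeierstrassP Q) /
        (2 * (L.weierstrassP z - L.weierstrassP Q))) ^ 2 ∧
    L.derivWeierstrassP (z + Q) + L.derivWeierstrassP z =
      -2 * ((L.derivWeierstrassP z - L.derivWeierstrassP Q) /
        (2 * (L.weierstrassP z - L.weierstrassP Q))) * (L.weierstrassP (z + Q) - L.weierstrassP z)

/-- (DUP) duplication: `℘(2z) + 2 ℘(z) = M²`, `℘'(2z) + ℘'(z) = -2 M (℘(2z) - ℘(z))`,
`M = ℘''(z)/(2 ℘'(z))`, `℘'' = 6 ℘² - g₂/2`.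

Uses ADD, P2, ZER. PROOF. Limit `Q → z` in (ADD) (continuity of `℘, ℘'` outside `L`;
`(℘'(z) - ℘'(Q))/(℘(z) - ℘(Q)) → ℘''(z)/℘'(z)` as quotient of difference quotients, `℘'(z) ≠ 0`). -/
def St_DUP : Prop :=
  ∀ (L : PeriodPair) (z : ℂ), 2 * z ∉ L.lattice →
    L.weierstrassP (2 * z) + 2 * L.weierstrassP z =
      ((6 * L.weierstrassP z ^ 2 - L.g₂ / 2) / (2 * L.derivWeierstrassP z)) ^ 2 ∧
    L.derivWeierstrassP (2 * z) + L.derivWeierstrassP z =
      -2 * ((6 * L.weierstrassP z ^ 2 - L.g₂ / 2) / (2 * L.derivWeierstrassP z)) *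
        (L.weierstrassP (2 * z) - L.weierstrassP z)

/-- (DD) logarithmic derivative of `℘'`: `(2 e(2z) - 4 e(z)) ℘'(z) = ℘''(z)`.

Uses PER, HOL, POL, ID, P2. PROOF. Let `Q = z` of the statement, `2 Q ∉ L`, and let `x = Q + s`, `s → 0`,
in (ID) for `(x, Q)`: with `ζ(s) = 1/s + h(s)`, `h(0) = 0` (odd): `e(x - Q) = 1/s + h(s) - (π/A) conj s`.
`℘(x) - ℘(Q) = ℘'(Q) s + ℘''(Q) s²/2 + O(s³)`. Divide (ID) by `s` after subtracting `℘'(Q)`:
`(e(x + Q) - 2 e(x) + o(1)) (℘(x) - ℘(Q))/s + ((℘(x) - ℘(Q))/s - ℘'(Q))/s = (℘'(x) - ℘'(Q))/s`, limit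
`s → 0`: `(e(2Q) - 2 e(Q)) ℘'(Q) + ℘''(Q)/2 = ℘''(Q)`. (`e` is continuous outside `L`.) Or: limit
`Q → z` in (ZAD): `2 (e(2z) - 2 e(z)) = ℘''(z)/℘'(z)` when `℘'(z) ≠ 0`; this is shorter, use (ZER). -/
def St_DD : Prop :=
  ∀ (L : PeriodPair) (z : ℂ), 2 * z ∉ L.lattice →
    (2 * ee L (2 * z) - 4 * ee L z) * L.derivWeierstrassP z =
      6 * L.weierstrassP z ^ 2 - L.g₂ / 2

/-- (DIY) distribution relation of `y = ℘'/2`, for `a` prime to `2`: if `a L ⊆ L`, and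
`2 q ∈ L` never holds for `q ∈ R`, there is `C ≠ 0` with `∏_q ℘'(z + q) = C ℘'(a z)`.

Uses DIS, DD, ZER, P2, PER. PROOF. On `U = {z : 2 a z ∉ L}` (complement of a countable set, so
path connected: `Set.Countable.isPathConnected_compl_of_one_lt_rank`; open, as preimage of a closed set)
put `G(z) = ℘'(z) ∏_(q ∈ R) ℘'(z + q)/℘'(a z)`; numerator and denominator are holomorphic and `≠ 0` on `U`
(ZER: `2 (z + q) ∈ L` would give `2 a z ∈ L`). Its logarithmic derivative is, by (DD),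
`Σ_q (2 e(2 z + 2 q) - 4 e(z + q)) - a (2 e(2 a z) - 4 e(a z))` (`q` over `0` and `R`). By (DIS)
`Σ e(z + q) = a e(a z)`; and `q ↦ 2 q` permutes the classes of `a⁻¹ L / L` (injective because `2 q ∈ L`
only for the class `0`: differences of elements of `a⁻¹L` are elements of `a⁻¹ L`), so by periodicity
`Σ e(2 z + 2 q) = a e(2 a z)`. So the derivative of `G` is `0` on `U`, `G` is a constant `C ≠ 0` on `U`. For
`z ∉ U` with `a z ∉ L`: both sides are continuous at `z` and `U` is dense (or both are `0` by (ZER)). -/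
def St_DIY : Prop :=
  ∀ (L : PeriodPair) (a : ℂ) (R : Finset ℂ), a ≠ 0 → (∀ w ∈ L.lattice, a * w ∈ L.lattice) →
    IsReps L a R → (∀ q ∈ R, 2 * q ∉ L.lattice) →
    ∃ C : ℂ, C ≠ 0 ∧ ∀ z, a * z ∉ L.lattice →
      L.derivWeierstrassP z * ∏ q ∈ R, L.derivWeierstrassP (z + q) =
        C * L.derivWeierstrassP (a * z)

/-- (DIC) the constant of (DIY) is `a³ ∏_(q ∈ R) ℘'(q)`.

Uses DIY. PROOF. Multiply by `z³` and let `z → 0`: `z³ ℘'(z) → -2` and `z³ ℘'(a z) → -2/a³`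
(`℘'(z) = -2/z³ + ℘'[L - 0](z)`, Mathlib `derivWeierstrassPExcept_def`), `℘'(z + q) → ℘'(q)`. -/
def St_DIC : Prop :=
  ∀ (L : PeriodPair) (a : ℂ) (R : Finset ℂ), a ≠ 0 → (∀ w ∈ L.lattice, a * w ∈ L.lattice) →
    IsReps L a R → (∀ q ∈ R, 2 * q ∉ L.lattice) → ∀ z, a * z ∉ L.lattice →
      L.derivWeierstrassP z * ∏ q ∈ R, L.derivWeierstrassP (z + q) =
        a ^ 3 * (∏ q ∈ R, L.derivWeierstrassP q) * L.derivWeierstrassP (a * z)

/-- (CMX) `a² ℘(a z) = ℘(z) + ∑_(q ∈ R) (℘(z + q) - ℘(q))`.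

Uses DIS, ZP (or only LIO). PROOF. The function `f(z) = a² ℘(a z) - ℘(z) - Σ (℘(z + q) - ℘(q))` is
periodic, holomorphic outside `a⁻¹ L`; at `z = 0` it tends to `0` (`℘ = 1/z² + ℘[L - 0]`,
`℘[L - 0] 0 = 0`), at `-q` it is bounded (translate by `q`: the sum over all classes is invariant up to a
constant). Apply (LIO) with `P = {0} ∪ {-q}`; the constant is the limit at `0`. -/
def St_CMX : Prop :=
  ∀ (L : PeriodPair) (a : ℂ) (R : Finset ℂ), a ≠ 0 → (∀ w ∈ L.lattice, a * w ∈ L.lattice) →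
    IsReps L a R → ∀ z, a * z ∉ L.lattice →
      a ^ 2 * L.weierstrassP (a * z) =
        L.weierstrassP z + ∑ q ∈ R, (L.weierstrassP (z + q) - L.weierstrassP q)

/-- (SUR) `℘` takes every value.

Uses LIO, NEQ. PROOF. If `℘(z) ≠ x` for all `z ∉ L`, then `f = 1/(℘ - x)` is periodic, holomorphic
outside `L`, and `f(z) → 0` at `0` (`℘ → oo`), so (LIO, `P = {0}`) it is constant outside `L`, with limit `0` at
`0`, so `f = 0`: absurd. -/
def St_SUR : Prop :=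
  ∀ (L : PeriodPair) (x : ℂ), ∃ z, z ∉ L.lattice ∧ L.weierstrassP z = x

/-- (DSC) `4 x³ - g₂ x - g₃` has no double root: `g₂³ ≠ 27 g₃²`, and every point of the curve is
`(℘(z), ℘'(z))`.

Uses SUR, NEQ, ZER, P2. PROOF. Let `x₀` be a double root, `x₀ = ℘(z)` (SUR): `℘'(z)² = 0` and
`℘''(z) = 6 x₀² - g₂/2 = 0` (derivative of the cubic). So `℘ - ℘(z)` vanishes to order `≥ 3` at `z`; but
`2 z ∈ L` (ZER) and by (ID) with `Q = z` the logarithmic derivative of `℘ - ℘(z)` near `z` is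
`2/(x - z) + holomorphic` (`e(x + z) = e(x - z)` as `2z ∈ L`), so the order is exactly 2. Contradiction.
Second: given `y² = 4 x³ - g₂ x - g₃` take `z` with `℘(z) = x`, then `℘'(z) = ± y`, replace `z` by `-z`. -/
def St_DSC : Prop :=
  ∀ L : PeriodPair, L.g₂ ^ 3 ≠ 27 * L.g₃ ^ 2 ∧
    ∀ x y : ℂ, y ^ 2 = 4 * x ^ 3 - L.g₂ * x - L.g₃ →
      ∃ z, z ∉ L.lattice ∧ L.weierstrassP z = x ∧ L.derivWeierstrassP z = y

end

end Pool.Agent.MU3B
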