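import Mathlib
import Pool.Agent.MU3.StB

/-!
# MU3, block B, module DIS: distribution relation of `e`
-/

set_option autoImplicit false

namespace Pool.Agent.MU3B

open Complex Real Filter Topology
open scoped ComplexConjugate

namespace DIS

/-- decomposition of a sum over `L` by the classes of `a⁻¹ L / L` -/
theorem sum_reps {L : PeriodPair} {a : ℂ} {R : Finset ℂ} (ha : a ≠ 0)
    (haL : ∀ w ∈ L.lattice, a * w ∈ L.lattice) (hR : IsReps L a R) (F : ℂ → ℂ)
    (hF : Summable (fun u : L.lattice => F u)) :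
    (∑' w : L.lattice, F (a * w)) + ∑ q ∈ R, ∑' w : L.lattice, F (a * (q + w)) =
      ∑' u : L.lattice, F u := by
  classical
  have h0 : (0 : ℂ) ∉ R := fun h => hR.ne 0 h (zero_mem _)
  have hmem : ∀ q ∈ insert (0 : ℂ) R, a * q ∈ L.lattice := by
    intro q hq
    rcases Finset.mem_insert.1 hq with rfl | h
    · rw [mul_zero]; exact zero_mem _
    · exact hR.mem q h
  have hinj : ∀ q ∈ insert (0 : ℂ) R, ∀ q' ∈ insert (0 : ℂ) R, q - q' ∈ L.lattice → q = q' := by
    intro q hq q' hq' h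
    rcases Finset.mem_insert.1 hq with rfl | h1
    · rcases Finset.mem_insert.1 hq' with rfl | h2
      · rfl
      · rw [zero_sub] at h
        exact absurd (neg_mem_iff.1 h) (hR.ne q' h2)
    · rcases Finset.mem_insert.1 hq' with rfl | h2
      · rw [sub_zero] at h
        exact absurd h (hR.ne q h1)
      · exact hR.inj q h1 q' h2 h
  let f : (insert (0 : ℂ) R : Finset ℂ) × L.lattice → L.lattice := fun x =>
    ⟨a * ((x.1 : ℂ) + x.2), by
      rw [mul_add]; exact add_mem (hmem _ x.1.2) (haL _ x.2.2)⟩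
  have hf : Function.Bijective f := by
    constructor
    · rintro ⟨⟨q, hq⟩, ⟨w, hw⟩⟩ ⟨⟨q', hq'⟩, ⟨w', hw'⟩⟩ h
      have h1 : a * (q + w) = a * (q' + w') := congrArg Subtype.val h
      have h2 : q + w = q' + w' := mul_left_cancel₀ ha h1
      have h3 : q - q' = w' - w := by linear_combination h2
      have h4 : q = q' := hinj q hq q' hq' (by rw [h3]; exact sub_mem hw' hw)
      subst h4
      have h5 : w = w' := add_left_cancel h2
      subst h5
      rfl
    · rintro ⟨u, hu⟩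
      have e1 : a * (u / a) = u := mul_div_cancel₀ _ ha
      by_cases h : u / a ∈ L.lattice
      · refine ⟨(⟨0, Finset.mem_insert_self _ _⟩, ⟨u / a, h⟩), Subtype.ext ?_⟩
        change a * (0 + u / a) = u
        rw [zero_add, e1]
      · obtain ⟨q, hq, h1⟩ := hR.surj (u / a) (by rw [e1]; exact hu) h
        refine ⟨(⟨q, Finset.mem_insert_of_mem hq⟩, ⟨u / a - q, h1⟩), Subtype.ext ?_⟩
        change a * (q + (u / a - q)) = u
        rw [add_sub_cancel, e1]
  have h1 : ∑' u : L.lattice, F u =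
      ∑' x : (insert (0 : ℂ) R : Finset ℂ) × L.lattice, F (a * ((x.1 : ℂ) + x.2)) :=
    ((Equiv.ofBijective f hf).tsum_eq (fun u : L.lattice => F u)).symm
  have h2 : Summable (fun x : (insert (0 : ℂ) R : Finset ℂ) × L.lattice =>
      F (a * ((x.1 : ℂ) + x.2))) := (Equiv.ofBijective f hf).summable_iff.2 hF
  have h3 : ∑' x : (insert (0 : ℂ) R : Finset ℂ) × L.lattice, F (a * ((x.1 : ℂ) + x.2)) =
      ∑ q ∈ insert (0 : ℂ) R, ∑' w : L.lattice, F (a * (q + w)) := by
    rw [h2.tsum_prod, ← Finset.sum_coe_sort (insert (0 : ℂ) R)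
      (fun q => ∑' w : L.lattice, F (a * (q + w)))]
    exact tsum_fintype (fun q : (insert (0 : ℂ) R : Finset ℂ) =>
      ∑' w : L.lattice, F (a * ((q : ℂ) + w)))
  rw [h1, h3, Finset.sum_insert h0]
  simp only [zero_add]

end DIS

open DIS in
theorem t_DIS (hSUM : St_SUM) (hINT : St_INT) : St_DIS := by
  intro L a R ha haL hR z
  have hna : 0 < ‖a‖ := norm_pos_iff.2 ha
  have hc : 0 < 1 / ‖a‖ ^ 2 := by positivity
  have hca : conj a ≠ 0 := (map_ne_zero _).2 ha
  have key : ∀ t : ℝ, 0 < t →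
      (∑' w : L.lattice, conj (z + w) * ((Real.exp (-(1 * t * ‖z + w‖ ^ 2)) : ℝ) : ℂ)) +
        ∑ q ∈ R, (∑' w : L.lattice,
          conj (z + q + w) * ((Real.exp (-(1 * t * ‖z + q + w‖ ^ 2)) : ℝ) : ℂ)) =
      (conj a)⁻¹ * ∑' w : L.lattice,
        conj (a * z + w) * ((Real.exp (-(1 / ‖a‖ ^ 2 * t * ‖a * z + w‖ ^ 2)) : ℝ) : ℂ) := by
    intro t ht
    obtain ⟨u, hu, hb⟩ := hSUM L (1 / ‖a‖ ^ 2 * t) (by positivity) 1 ‖a * z‖
    have hs : Summable (fun w : L.lattice => conj (a * z + w) *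
        ((Real.exp (-(1 / ‖a‖ ^ 2 * t * ‖a * z + w‖ ^ 2)) : ℝ) : ℂ)) := by
      refine Summable.of_norm_bounded hu fun w => ?_
      have h1 := (hb w (a * z) le_rfl).1
      rw [pow_one] at h1
      rw [norm_mul, Complex.norm_conj, Complex.norm_real, Real.norm_eq_abs,
        abs_of_pos (Real.exp_pos _)]
      refine le_trans (mul_le_mul_of_nonneg_right ?_ (Real.exp_pos _).le) h1
      linarith
    have h2 := sum_reps ha haL hR (fun u : ℂ => conj (a * z + u) *
        ((Real.exp (-(1 / ‖a‖ ^ 2 * t * ‖a * z + u‖ ^ 2)) : ℝ) : ℂ)) hs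
    have h3 : ∀ x : ℂ, conj (a * z + a * x) *
        ((Real.exp (-(1 / ‖a‖ ^ 2 * t * ‖a * z + a * x‖ ^ 2)) : ℝ) : ℂ) =
        conj a * (conj (z + x) * ((Real.exp (-(1 * t * ‖z + x‖ ^ 2)) : ℝ) : ℂ)) := by
      intro x
      rw [← mul_add, map_mul, norm_mul]
      have h4 : 1 / ‖a‖ ^ 2 * t * (‖a‖ * ‖z + x‖) ^ 2 = 1 * t * ‖z + x‖ ^ 2 := by
        field_simp
      rw [h4]
      ring
    simp only [h3] at h2
    rw [← h2, tsum_mul_left, mul_add, inv_mul_cancel_left₀ hca, Finset.mul_sum]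
    congr 1
    refine Finset.sum_congr rfl fun q _ => ?_
    rw [tsum_mul_left, inv_mul_cancel_left₀ hca]
    simp only [add_assoc]
  have hI0 := hINT L 1 one_pos z
  have hIq := fun q => hINT L 1 one_pos (z + q)
  have hIa := hINT L (1 / ‖a‖ ^ 2) hc (a * z)
  have h1 : ee L z / ((1 : ℝ) : ℂ) + ∑ q ∈ R, ee L (z + q) / ((1 : ℝ) : ℂ) =
      (conj a)⁻¹ * (ee L (a * z) / ((1 / ‖a‖ ^ 2 : ℝ) : ℂ)) := by
    rw [← hI0.2, ← hIa.2, Finset.sum_congr rfl (fun q _ => (hIq q).2.symm),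
      ← MeasureTheory.integral_finset_sum _ (fun q _ => (hIq q).1),
      ← MeasureTheory.integral_add hI0.1 (MeasureTheory.integrable_finset_sum _
        (fun q _ => (hIq q).1)), ← MeasureTheory.integral_const_mul]
    exact MeasureTheory.setIntegral_congr_fun measurableSet_Ioi fun t ht => key t ht
  simp only [Complex.ofReal_one, div_one] at h1
  rw [h1]
  have h2 : a * conj a = ((‖a‖ ^ 2 : ℝ) : ℂ) := by
    rw [Complex.mul_conj']
    push_cast
    rfl
  have h3 : ((1 / ‖a‖ ^ 2 : ℝ) : ℂ) = (a * conj a)⁻¹ := by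
    rw [h2, one_div, Complex.ofReal_inv]
  rw [h3]
  field_simp

end Pool.Agent.MU3B
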