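import Pool.Agent.MU3.StB

/-!
# MU3, block B: module DIY (helper50)
-/

set_option autoImplicit false

namespace Pool.Agent.MU3B

open Complex Real Filter Topology
open scoped ComplexConjugate

namespace DIY50

/-- Product rule with logarithmic derivatives. -/
theorem hasDerivAt_prod (R : Finset ℂ) (f : ℂ → ℂ → ℂ) (l : ℂ → ℂ) (z : ℂ)
    (h : ∀ q ∈ R, HasDerivAt (f q) (l q * f q z) z) :
    HasDerivAt (fun x => ∏ q ∈ R, f q x) ((∑ q ∈ R, l q) * ∏ q ∈ R, f q z) z := by
  classical
  induction R using Finset.induction_on with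
  | empty => simpa using hasDerivAt_const z (1 : ℂ)
  | insert q s hq ih =>
    have h1 := h q (Finset.mem_insert_self q s)
    have h2 := ih (fun p hp => h p (Finset.mem_insert_of_mem hp))
    have h3 := h1.mul h2
    have e : (fun x => ∏ p ∈ insert q s, f p x) = f q * fun x => ∏ p ∈ s, f p x := by
      funext x
      rw [Finset.prod_insert hq]
      rfl
    have e2 : (∑ p ∈ insert q s, l p) * ∏ p ∈ insert q s, f p z =
        l q * f q z * ∏ p ∈ s, f p z + f q z * ((∑ p ∈ s, l p) * ∏ p ∈ s, f p z) := by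
      rw [Finset.sum_insert hq, Finset.prod_insert hq]
      ring
    rw [e, e2]
    exact h3

/-- The doubling map on representatives. -/
theorem exists_double {L : PeriodPair} {a : ℂ} {R : Finset ℂ}
    (hR : IsReps L a R) (h2 : ∀ q ∈ R, 2 * q ∉ L.lattice) :
    ∃ σ : ℂ → ℂ, (∀ q ∈ R, σ q ∈ R ∧ 2 * q - σ q ∈ L.lattice) ∧ Set.InjOn σ R ∧
      R.image σ = R := by
  classical
  have hex : ∀ q ∈ R, ∃ q' ∈ R, 2 * q - q' ∈ L.lattice := by
    intro q hq
    apply hR.surj (2 * q) _ (h2 q hq)
    have h := L.lattice.add_mem (hR.mem q hq) (hR.mem q hq)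
    have e : a * (2 * q) = a * q + a * q := by ring
    rwa [e]
  choose! σ hσ1 hσ2 using hex
  have hinj : Set.InjOn σ R := by
    intro q1 hq1 q2 hq2 he
    have hq1' : q1 ∈ R := hq1
    have hq2' : q2 ∈ R := hq2
    have h1 := hσ2 q1 hq1'
    have h3 := hσ2 q2 hq2'
    have h4 : 2 * (q1 - q2) ∈ L.lattice := by
      have := L.lattice.sub_mem h1 h3
      rw [he] at this
      have e : 2 * (q1 - q2) = 2 * q1 - σ q2 - (2 * q2 - σ q2) := by ring
      rwa [e]
    by_contra hne
    have h5 : q1 - q2 ∉ L.lattice := fun h => hne (hR.inj q1 hq1' q2 hq2' h)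
    have h6 : a * (q1 - q2) ∈ L.lattice := by
      rw [mul_sub]
      exact L.lattice.sub_mem (hR.mem q1 hq1') (hR.mem q2 hq2')
    obtain ⟨q3, hq3, h7⟩ := hR.surj (q1 - q2) h6 h5
    apply h2 q3 hq3
    have h8 := L.lattice.sub_mem h4 (L.lattice.add_mem h7 h7)
    have e : 2 * q3 = 2 * (q1 - q2) - (q1 - q2 - q3 + (q1 - q2 - q3)) := by ring
    rwa [e]
  refine ⟨σ, fun q hq => ⟨hσ1 q hq, hσ2 q hq⟩, hinj, ?_⟩
  apply Finset.eq_of_subset_of_card_le
  · intro x hx
    obtain ⟨q, hq, rfl⟩ := Finset.mem_image.1 hx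
    exact hσ1 q hq
  · rw [Finset.card_image_of_injOn hinj]

/-- The sum over the doubled classes. -/
theorem sum_double {L : PeriodPair} {a : ℂ} {R : Finset ℂ}
    (hR : IsReps L a R) (h2 : ∀ q ∈ R, 2 * q ∉ L.lattice) (f : ℂ → ℂ)
    (hf : ∀ z, ∀ v ∈ L.lattice, f (z + v) = f z) (w : ℂ) :
    ∑ q ∈ R, f (w + 2 * q) = ∑ q ∈ R, f (w + q) := by
  classical
  obtain ⟨σ, h1, hinj, him⟩ := exists_double hR h2
  have h3 : ∑ q ∈ R, f (w + q) = ∑ q ∈ R.image σ, f (w + q) := by rw [him]
  rw [h3, Finset.sum_image hinj]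
  apply Finset.sum_congr rfl
  intro q hq
  have := hf (w + σ q) (2 * q - σ q) (h1 q hq).2
  rw [← this]
  congr 1
  ring

/-- If `2 a z` is in the lattice but `a z` is not, some `2 (z + q)` is in the lattice. -/
theorem exists_half {L : PeriodPair} {a : ℂ} {R : Finset ℂ}
    (hR : IsReps L a R) (h2 : ∀ q ∈ R, 2 * q ∉ L.lattice) {z : ℂ}
    (hz : 2 * (a * z) ∈ L.lattice) :
    2 * z ∈ L.lattice ∨ ∃ q ∈ R, 2 * (z + q) ∈ L.lattice := by
  classical
  by_cases hu : 2 * z ∈ L.lattice
  · exact Or.inl hu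
  · right
    obtain ⟨σ, h1, hinj, him⟩ := exists_double hR h2
    have h3 : a * (2 * z) ∈ L.lattice := by
      have e : a * (2 * z) = 2 * (a * z) := by ring
      rwa [e]
    obtain ⟨q', hq', h4⟩ := hR.surj (2 * z) h3 hu
    rw [← him] at hq'
    obtain ⟨q'', hq'', rfl⟩ := Finset.mem_image.1 hq'
    have h5 := (h1 q'' hq'').2
    have h6 : a * (-q'') ∈ L.lattice := by
      rw [mul_neg]
      exact L.lattice.neg_mem (hR.mem q'' hq'')
    have h7 : -q'' ∉ L.lattice := fun h => hR.ne q'' hq'' (by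
      have := L.lattice.neg_mem h
      rwa [neg_neg] at this)
    obtain ⟨q, hq, h8⟩ := hR.surj (-q'') h6 h7
    refine ⟨q, hq, ?_⟩
    have h9 := L.lattice.sub_mem (L.lattice.sub_mem h4 h5) (L.lattice.add_mem h8 h8)
    have e : 2 * (z + q) = 2 * z - σ q'' - (2 * q'' - σ q'') - (-q'' - q + (-q'' - q)) := by ring
    rwa [e]

end DIY50

open DIY50 in
theorem t_DIY (hDIS : St_DIS) (hDD : St_DD) (hZER : St_ZER) (hP2 : St_P2) (hPER : St_PER) :
    St_DIY := by
  classical
  intro L a R ha haL hR h2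
  -- the domain
  set U : Set ℂ := {z | 2 * (a * z) ∉ L.lattice} with hU
  have hUc : Uᶜ.Countable := by
    have hc : Countable L.lattice := L.latticeEquivProd.toEquiv.injective.countable
    have hc2 : (L.lattice : Set ℂ).Countable := hc
    have e : Uᶜ = (fun z : ℂ => 2 * (a * z)) ⁻¹' (L.lattice : Set ℂ) := by
      ext z
      simp [hU]
    rw [e]
    apply hc2.preimage_of_injOn
    intro x _ y _ hxy
    have h3 : 2 * (a * x) = 2 * (a * y) := hxy
    have h4 := mul_left_cancel₀ (two_ne_zero) h3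
    exact mul_left_cancel₀ ha h4
  have hUopen : IsOpen U := by
    have e : U = (fun z : ℂ => 2 * (a * z)) ⁻¹' (L.lattice : Set ℂ)ᶜ := by
      ext z
      simp [hU]
    rw [e]
    exact L.isClosed_lattice.isOpen_compl.preimage (by fun_prop)
  have hUconn : IsConnected U := by
    have h := hUc.isPathConnected_compl_of_one_lt_rank
      (by simp only [Complex.rank_real_complex, Nat.one_lt_ofNat])
    rw [compl_compl] at h
    exact h.isConnected
  -- logarithmic derivative
  set l : ℂ → ℂ := fun z => 2 * ee L (2 * z) - 4 * ee L z with hl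
  have hsub : ∀ z, 2 * z ∉ L.lattice → z ∉ L.lattice := by
    intro z hz h
    apply hz
    rw [two_mul]
    exact L.lattice.add_mem h h
  have hder : ∀ z, 2 * z ∉ L.lattice →
      HasDerivAt L.derivWeierstrassP (l z * L.derivWeierstrassP z) z := by
    intro z hz
    have h3 := hP2 L z (hsub z hz)
    rw [← hDD L z hz] at h3
    exact h3
  have hmemU : ∀ z ∈ U, ∀ q ∈ R, 2 * (z + q) ∉ L.lattice := by
    intro z hz q hq h
    apply hz
    have h3 := haL _ h
    have h4 := hR.mem q hq
    have h5 := L.lattice.sub_mem h3 (L.lattice.add_mem h4 h4)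
    have e : 2 * (a * z) = a * (2 * (z + q)) - (a * q + a * q) := by ring
    rwa [e]
  have hmemU0 : ∀ z ∈ U, 2 * z ∉ L.lattice := by
    intro z hz h
    apply hz
    have h3 := haL _ h
    have e : 2 * (a * z) = a * (2 * z) := by ring
    rwa [e]
  set N : ℂ → ℂ := fun z => L.derivWeierstrassP z * ∏ q ∈ R, L.derivWeierstrassP (z + q) with hN
  set D : ℂ → ℂ := fun z => L.derivWeierstrassP (a * z) with hD
  have hNd : ∀ z ∈ U, HasDerivAt N ((l z + ∑ q ∈ R, l (z + q)) * N z) z := by
    intro z hz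
    have h3 := hder z (hmemU0 z hz)
    have h4 : ∀ q ∈ R, HasDerivAt (fun x => L.derivWeierstrassP (x + q))
        (l (z + q) * L.derivWeierstrassP (z + q)) z := by
      intro q hq
      exact (hder (z + q) (hmemU z hz q hq)).comp_add_const z q
    have h5 := hasDerivAt_prod R (fun q x => L.derivWeierstrassP (x + q)) (fun q => l (z + q)) z h4
    have h6 := h3.mul h5
    have e : (l z + ∑ q ∈ R, l (z + q)) * N z =
        l z * L.derivWeierstrassP z * ∏ q ∈ R, L.derivWeierstrassP (z + q) +
        L.derivWeierstrassP z *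
          ((∑ q ∈ R, l (z + q)) * ∏ q ∈ R, L.derivWeierstrassP (z + q)) := by
      simp only [hN]
      ring
    rw [e]
    exact h6
  have hDd : ∀ z ∈ U, HasDerivAt D (a * l (a * z) * D z) z := by
    intro z hz
    have h3 : HasDerivAt L.derivWeierstrassP (l (a * z) * L.derivWeierstrassP (a * z)) (a * z) :=
      hder (a * z) hz
    have h4 : HasDerivAt (fun x : ℂ => a * x) a z := by
      simpa using (hasDerivAt_id z).const_mul a
    have h5 := h3.comp z h4
    have e : a * l (a * z) * D z = l (a * z) * L.derivWeierstrassP (a * z) * a := by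
      simp only [hD]
      ring
    rw [e]
    exact h5
  have hsum : ∀ z, l z + ∑ q ∈ R, l (z + q) = a * l (a * z) := by
    intro z
    have h3 := hDIS L a R ha haL hR z
    have h4 := hDIS L a R ha haL hR (2 * z)
    have h5 := sum_double hR h2 (ee L) (hPER L).1 (2 * z)
    rw [← h5] at h4
    have e1 : ∑ q ∈ R, l (z + q) = 2 * ∑ q ∈ R, ee L (2 * z + 2 * q) -
        4 * ∑ q ∈ R, ee L (z + q) := by
      rw [hl, Finset.mul_sum, Finset.mul_sum, ← Finset.sum_sub_distrib]
      apply Finset.sum_congr rfl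
      intro q _
      simp only
      rw [mul_add]
    have e2 : a * (2 * z) = 2 * (a * z) := by ring
    rw [e2] at h4
    rw [e1]
    simp only [hl]
    linear_combination 2 * h4 - 4 * h3
  have hDne : ∀ z ∈ U, D z ≠ 0 := by
    intro z hz h
    have h3 : a * z ∉ L.lattice := hsub _ hz
    exact hz ((hZER L (a * z) h3).1 h)
  have hNne : ∀ z ∈ U, N z ≠ 0 := by
    intro z hz
    refine mul_ne_zero ?_ (Finset.prod_ne_zero_iff.2 fun q hq => ?_)
    · intro h
      exact hmemU0 z hz ((hZER L z (hsub z (hmemU0 z hz))).1 h)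
    · intro h
      exact hmemU z hz q hq ((hZER L (z + q) (hsub _ (hmemU z hz q hq))).1 h)
  have hQ : ∀ z ∈ U, HasDerivAt (fun x => N x / D x) 0 z := by
    intro z hz
    have h3 := (hNd z hz).div (hDd z hz) (hDne z hz)
    rw [hsum z] at h3
    have e : (a * l (a * z) * N z * D z - N z * (a * l (a * z) * D z)) / D z ^ 2 = 0 := by
      rw [div_eq_zero_iff]
      left
      ring
    rw [e] at h3
    exact h3
  obtain ⟨C, hC⟩ := hUopen.exists_is_const_of_deriv_eq_zero hUconn.isPreconnected
    (fun z hz => (hQ z hz).differentiableAt.differentiableWithinAt) (fun z hz => (hQ z hz).deriv)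
  refine ⟨C, ?_, ?_⟩
  · obtain ⟨z, hz⟩ := hUconn.nonempty
    rw [← hC z hz]
    exact div_ne_zero (hNne z hz) (hDne z hz)
  · intro z haz
    by_cases hz : z ∈ U
    · have h3 := hC z hz
      have h4 : N z / D z = C := h3
      rw [div_eq_iff (hDne z hz)] at h4
      exact h4
    · have hz' : 2 * (a * z) ∈ L.lattice := by
        by_contra h
        exact hz h
      have h3 : L.derivWeierstrassP (a * z) = 0 := (hZER L (a * z) haz).2 hz'
      rw [h3, mul_zero, mul_eq_zero]
      rcases exists_half hR h2 hz' with h4 | ⟨q, hq, h4⟩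
      · left
        exact (hZER L z (fun h => haz (haL z h))).2 h4
      · right
        apply Finset.prod_eq_zero hq
        refine (hZER L (z + q) (fun h => haz ?_)).2 h4
        have h5 := L.lattice.sub_mem (haL _ h) (hR.mem q hq)
        have e : a * z = a * (z + q) - a * q := by ring
        rwa [e]

end Pool.Agent.MU3B
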