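import Pool.Agent.MU3.StB

/-!
# MU3, block B: (DSC), the discriminant
-/

set_option autoImplicit false

namespace Pool.Agent.MU3B

open Complex Filter Topology
open scoped ComplexConjugate

namespace DSCaux

variable (L : PeriodPair)

theorem nhds_notMem {z : ℂ} (hz : z ∉ L.lattice) : ∀ᶠ x in 𝓝 z, x ∉ L.lattice :=
  L.isClosed_lattice.isOpen_compl.mem_nhds hz

theorem hasDerivAt_P {z : ℂ} (hz : z ∉ L.lattice) :
    HasDerivAt L.weierstrassP (L.derivWeierstrassP z) z := by
  have h := (L.differentiableOn_weierstrassP z hz).differentiableAt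
    (L.isClosed_lattice.isOpen_compl.mem_nhds hz)
  have := h.hasDerivAt
  rwa [L.deriv_weierstrassP] at this

theorem no_triple (hPER : St_PER) (hHOL : St_HOL) (hPOL : St_POL) (hID : St_ID) (hZER : St_ZER)
    (hP2 : St_P2) {z : ℂ} (hz : z ∉ L.lattice) (h1 : L.derivWeierstrassP z = 0)
    (h2 : 6 * L.weierstrassP z ^ 2 - L.g₂ / 2 = 0) : False := by
  have h2z : 2 * z ∈ L.lattice := (hZER L z hz).1 h1
  obtain ⟨h, δ, hδ, hh, -, hpol⟩ := hPOL L
  have hball : ∀ᶠ s in 𝓝[≠] (0 : ℂ), s ∈ Metric.ball (0 : ℂ) δ ∧ s ≠ 0 := by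
    filter_upwards [mem_nhdsWithin_of_mem_nhds (Metric.ball_mem_nhds (0 : ℂ) hδ),
      self_mem_nhdsWithin] with s h3 h4
    exact ⟨h3, h4⟩
  have hDan : AnalyticAt ℂ (fun x => L.weierstrassP x - L.weierstrassP z) z :=
    (L.analyticOnNhd_weierstrassP z hz).sub analyticAt_const
  by_cases hzero : ∀ᶠ x in 𝓝 z, L.weierstrassP x - L.weierstrassP z = 0
  · -- locally constant
    have h3 : ∀ᶠ x in 𝓝 z, 2 * x ∈ L.lattice := by
      filter_upwards [eventually_eventually_nhds.2 hzero, nhds_notMem L hz] with x hx hxL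
      have h4 : L.weierstrassP =ᶠ[𝓝 x] fun _ => L.weierstrassP z := by
        filter_upwards [hx] with y hy
        exact sub_eq_zero.1 hy
      have h5 : HasDerivAt L.weierstrassP 0 x := (hasDerivAt_const x _).congr_of_eventuallyEq h4
      exact (hZER L x hxL).1 ((hasDerivAt_P L hxL).unique h5)
    have ht : Tendsto (fun s : ℂ => z + s / 2) (𝓝[≠] 0) (𝓝 z) := by
      have : ContinuousAt (fun s : ℂ => z + s / 2) 0 := by fun_prop
      have h6 : Tendsto (fun s : ℂ => z + s / 2) (𝓝 0) (𝓝 (z + 0 / 2)) := this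
      rw [zero_div, add_zero] at h6
      exact h6.mono_left nhdsWithin_le_nhds
    obtain ⟨s, hs1, hs2, hs3⟩ := ((ht.eventually h3).and hball).exists
    have h7 : s ∈ L.lattice := by
      have := L.lattice.sub_mem hs1 h2z
      have e : 2 * (z + s / 2) - 2 * z = s := by ring
      rwa [e] at this
    exact (hpol s hs2 hs3).1 h7
  · obtain ⟨n, g, hg, hg0, hev⟩ := hDan.exists_eventuallyEq_pow_smul_nonzero_iff.2 hzero
    have hn : n ≠ 0 := by
      rintro rfl
      have := hev.self_of_nhds
      simp only [sub_self, pow_zero, one_smul] at this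
      exact hg0 this.symm
    -- `s = x - z`
    have hts : Tendsto (fun x : ℂ => x - z) (𝓝[≠] z) (𝓝[≠] 0) := by
      apply tendsto_nhdsWithin_of_tendsto_nhds_of_eventually_within
      · have : ContinuousAt (fun x : ℂ => x - z) z := by fun_prop
        have h6 : Tendsto (fun x : ℂ => x - z) (𝓝 z) (𝓝 (z - z)) := this
        rw [sub_self] at h6
        exact h6.mono_left nhdsWithin_le_nhds
      · filter_upwards [self_mem_nhdsWithin] with x hx
        exact sub_ne_zero.2 hx
    have hder : ∀ᶠ x in 𝓝 z, L.derivWeierstrassP x =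
        n * (x - z) ^ (n - 1) * g x + (x - z) ^ n * deriv g x := by
      filter_upwards [eventually_eventually_nhds.2 hev, nhds_notMem L hz,
        hg.eventually_analyticAt] with x hx hxL hgx
      have a1 : HasDerivAt (fun y => (y - z) ^ n) (n * (x - z) ^ (n - 1)) x := by
        have h8 : HasDerivAt (fun y : ℂ => y - z) 1 x := (hasDerivAt_id x).sub_const z
        have := h8.fun_pow n
        simpa using this
      have a2 := a1.mul hgx.differentiableAt.hasDerivAt
      have a3 : HasDerivAt (fun y => L.weierstrassP y - L.weierstrassP z)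
          (L.derivWeierstrassP x) x := (hasDerivAt_P L hxL).sub_const _
      exact a3.unique (a2.congr_of_eventuallyEq (by
        filter_upwards [hx] with y hy
        simpa using hy))
    have hev' := hev.filter_mono (nhdsWithin_le_nhds (s := {z}ᶜ))
    have hder' := hder.filter_mono (nhdsWithin_le_nhds (s := {z}ᶜ))
    have hball' := hts.eventually hball
    -- the equation
    have heq : ∀ᶠ x in 𝓝[≠] z, 2 * ((x - z) * ee L (x - z) - (x - z) * ee L x) * g x =
        n * g x + (x - z) * deriv g x := by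
      filter_upwards [hev', hder', hball', self_mem_nhdsWithin,
        (nhds_notMem L hz).filter_mono nhdsWithin_le_nhds] with x e1 e2 e3 e4 e5
      have hs := sub_ne_zero.2 (show x ≠ z from e4)
      obtain ⟨p1, p2⟩ := hpol (x - z) e3.1 e3.2
      have p3 : x + z ∉ L.lattice := by
        intro hx
        apply p1
        have := L.lattice.sub_mem hx h2z
        have e : x + z - 2 * z = x - z := by ring
        rwa [e] at this
      have hid := hID L z x hz e5 p3 p1
      have hper := (hPER L).1 (x - z) (2 * z) h2z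
      have e : x - z + 2 * z = x + z := by ring
      rw [e] at hper
      rw [hper, e1, e2, smul_eq_mul] at hid
      have hpow : (x - z) ^ n = (x - z) * (x - z) ^ (n - 1) := by
        rw [← pow_succ']
        congr 1
        omega
      have hp1 : (x - z) ^ (n - 1) ≠ 0 := pow_ne_zero _ hs
      apply mul_left_cancel₀ hp1
      rw [hpow] at hid
      linear_combination hid
    -- limits
    have hconj : Tendsto (fun s : ℂ => (starRingEnd ℂ) s) (𝓝 0) (𝓝 0) := by
      have : Tendsto (fun s : ℂ => (starRingEnd ℂ) s) (𝓝 0) (𝓝 ((starRingEnd ℂ) 0)) :=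
        Complex.continuous_conj.continuousAt
      rwa [map_zero] at this
    have hsee : Tendsto (fun s : ℂ => s * ee L s) (𝓝[≠] 0) (𝓝 1) := by
      have hcont : ContinuousAt h 0 :=
        ((hh 0 (Metric.mem_ball_self hδ)).differentiableAt
          (Metric.ball_mem_nhds 0 hδ)).continuousAt
      have t1 : Tendsto (fun s : ℂ => 1 + s * h s -
          s * (((Real.pi / area L : ℝ) : ℂ) * (starRingEnd ℂ) s)) (𝓝 0) (𝓝 (1 + 0 * h 0 -
          0 * (((Real.pi / area L : ℝ) : ℂ) * 0))) :=
        (tendsto_const_nhds.add (tendsto_id.mul hcont)).sub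
          (tendsto_id.mul (tendsto_const_nhds.mul hconj))
      have e0 : (1 : ℂ) + 0 * h 0 - 0 * (((Real.pi / area L : ℝ) : ℂ) * 0) = 1 := by ring
      rw [e0] at t1
      refine (t1.mono_left nhdsWithin_le_nhds).congr' ?_
      filter_upwards [hball] with s hs
      have p2 := (hpol s hs.1 hs.2).2
      unfold zet at p2
      have hs0 := hs.2
      have e1 : ee L s = 1 / s + h s - ((Real.pi / area L : ℝ) : ℂ) * (starRingEnd ℂ) s := by
        rw [← p2]; ring
      rw [e1]
      field_simp
    have heec : ContinuousAt (ee L) z := by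
      have hc := (hHOL L z hz).continuousAt
      have : ee L = fun x => zet L x - ((Real.pi / area L : ℝ) : ℂ) * (starRingEnd ℂ) x := by
        ext x
        unfold zet
        ring
      rw [this]
      exact hc.sub (continuousAt_const.mul Complex.continuous_conj.continuousAt)
    have t0 : Tendsto (fun x : ℂ => x - z) (𝓝[≠] z) (𝓝 0) := hts.mono_right nhdsWithin_le_nhds
    have tg : Tendsto g (𝓝[≠] z) (𝓝 (g z)) := hg.continuousAt.tendsto.mono_left nhdsWithin_le_nhds
    have tg' : Tendsto (deriv g) (𝓝[≠] z) (𝓝 (deriv g z)) :=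
      hg.deriv.continuousAt.tendsto.mono_left nhdsWithin_le_nhds
    have te : Tendsto (ee L) (𝓝[≠] z) (𝓝 (ee L z)) :=
      heec.tendsto.mono_left nhdsWithin_le_nhds
    have tl : Tendsto (fun x => 2 * ((x - z) * ee L (x - z) - (x - z) * ee L x) * g x)
        (𝓝[≠] z) (𝓝 (2 * (1 - 0 * ee L z) * g z)) :=
      (((hsee.comp hts).sub (t0.mul te)).const_mul 2).mul tg
    have tr : Tendsto (fun x => n * g x + (x - z) * deriv g x)
        (𝓝[≠] z) (𝓝 (n * g z + 0 * deriv g z)) :=
      (tg.const_mul (n : ℂ)).add (t0.mul tg')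
    have hlim := tendsto_nhds_unique (tl.congr' heq) tr
    have hn2 : (n : ℂ) = 2 := by
      apply mul_right_cancel₀ hg0
      linear_combination -hlim
    have hn2' : n = 2 := by exact_mod_cast hn2
    subst hn2'
    -- second derivative
    have hsl := (hasDerivAt_iff_tendsto_slope.1 (hP2 L z hz))
    rw [h2] at hsl
    have ts : Tendsto (fun x => 2 * g x + (x - z) * deriv g x) (𝓝[≠] z)
        (𝓝 (2 * g z + 0 * deriv g z)) := (tg.const_mul 2).add (t0.mul tg')
    have hs2 : Tendsto (slope L.derivWeierstrassP z) (𝓝[≠] z) (𝓝 (2 * g z + 0 * deriv g z)) := by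
      refine ts.congr' ?_
      filter_upwards [hder', self_mem_nhdsWithin] with x e1 e2
      have hs := sub_ne_zero.2 (show x ≠ z from e2)
      rw [slope_def_field, e1, h1]
      field_simp
      push_cast
      ring
    have h9 := tendsto_nhds_unique hsl hs2
    apply hg0
    have h10 : 2 * g z = 0 := by linear_combination -h9
    simpa using h10

end DSCaux

open DSCaux in
theorem t_DSC (hSUR : St_SUR) (hPER : St_PER) (hHOL : St_HOL) (hPOL : St_POL) (hID : St_ID)
    (hZER : St_ZER) (hP2 : St_P2) : St_DSC := by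
  intro L
  constructor
  · intro hdisc
    have hroot : ∃ x : ℂ, 12 * x ^ 2 = L.g₂ ∧ 4 * x ^ 3 - L.g₂ * x - L.g₃ = 0 := by
      by_cases h0 : L.g₂ = 0
      · refine ⟨0, by rw [h0]; ring, ?_⟩
        rw [h0] at hdisc
        have h3 : L.g₃ ^ 2 = 0 := by
          have : (27 : ℂ) * L.g₃ ^ 2 = 0 := by rw [← hdisc]; ring
          simpa using this
        have h4 : L.g₃ = 0 := by simpa using h3
        rw [h4]
        ring
      · have e1 : 12 * (-3 * L.g₃ / (2 * L.g₂)) ^ 2 = L.g₂ := by
          rw [div_pow, mul_div_assoc', div_eq_iff (pow_ne_zero 2 (mul_ne_zero two_ne_zero h0))]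
          linear_combination (-4) * hdisc
        refine ⟨-3 * L.g₃ / (2 * L.g₂), e1, ?_⟩
        have e2 : -3 * L.g₃ / (2 * L.g₂) * (2 * L.g₂) = -3 * L.g₃ :=
          div_mul_cancel₀ _ (mul_ne_zero two_ne_zero h0)
        set x : ℂ := -3 * L.g₃ / (2 * L.g₂) with hx
        linear_combination (x / 3) * e1 - (1 / 3) * e2
    obtain ⟨x, hx1, hx2⟩ := hroot
    obtain ⟨z, hz, hzx⟩ := hSUR L x
    have hsq := L.derivWeierstrassP_sq z hz
    rw [hzx, hx2] at hsq
    have h1 : L.derivWeierstrassP z = 0 := by simpa using hsq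
    have h2 : 6 * L.weierstrassP z ^ 2 - L.g₂ / 2 = 0 := by
      rw [hzx]
      linear_combination (1 / 2) * hx1
    exact no_triple L hPER hHOL hPOL hID hZER hP2 hz h1 h2
  · intro x y hxy
    obtain ⟨z, hz, hzx⟩ := hSUR L x
    have hsq := L.derivWeierstrassP_sq z hz
    rw [hzx, ← hxy] at hsq
    rcases sq_eq_sq_iff_eq_or_eq_neg.1 hsq with h | h
    · exact ⟨z, hz, hzx, h⟩
    · refine ⟨-z, fun hm => hz (by simpa using L.lattice.neg_mem hm), ?_, ?_⟩
      · rw [L.weierstrassP_neg, hzx]
      · rw [L.derivWeierstrassP_neg, h, neg_neg]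

end Pool.Agent.MU3B
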