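import Pool.Agent.MU3.StB

/-!
# MU3, block B: duplication formula
-/

set_option autoImplicit false

namespace Pool.Agent.MU3B

open Complex Real Filter Topology
open scoped ComplexConjugate

namespace DUP

theorem hasDerivAt_P (L : PeriodPair) {z : ℂ} (hz : z ∉ L.lattice) :
    HasDerivAt L.weierstrassP (L.derivWeierstrassP z) z := by
  have h := (L.differentiableOn_weierstrassP.differentiableAt
    (L.isClosed_lattice.isOpen_compl.mem_nhds hz)).hasDerivAt
  rwa [L.deriv_weierstrassP] at h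

theorem contAt_P' (L : PeriodPair) {z : ℂ} (hz : z ∉ L.lattice) :
    ContinuousAt L.derivWeierstrassP z :=
  (L.differentiableOn_derivWeierstrassP.differentiableAt
    (L.isClosed_lattice.isOpen_compl.mem_nhds hz)).continuousAt

end DUP

open DUP in
theorem t_DUP (hADD : St_ADD) (hP2 : St_P2) (hZER : St_ZER) : St_DUP := by
  intro L z hz2
  have hz : z ∉ L.lattice := by
    intro h
    apply hz2
    rw [two_mul]
    exact L.lattice.add_mem h h
  have hP'0 : L.derivWeierstrassP z ≠ 0 := fun h => hz2 ((hZER L z hz).1 h)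
  have hd := hasDerivAt_P L hz
  have hd2 := hP2 L z hz
  -- the slope
  have hs1 := hd.tendsto_slope
  have hs2 := hd2.tendsto_slope
  have hM : Tendsto (fun Q : ℂ => (L.derivWeierstrassP z - L.derivWeierstrassP Q) /
      (2 * (L.weierstrassP z - L.weierstrassP Q))) (𝓝[≠] z)
      (𝓝 ((6 * L.weierstrassP z ^ 2 - L.g₂ / 2) / (2 * L.derivWeierstrassP z))) := by
    have h := hs2.div (hs1.const_mul 2) (mul_ne_zero two_ne_zero hP'0)
    refine h.congr' ?_
    filter_upwards [self_mem_nhdsWithin] with Q hQ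
    have hne : Q - z ≠ 0 := sub_ne_zero.2 hQ
    show slope L.derivWeierstrassP z Q / (2 * slope L.weierstrassP z Q) = _
    rw [slope_def_field, slope_def_field, ← mul_div_assoc, div_div_div_cancel_right₀ hne]
    rw [← neg_sub (L.derivWeierstrassP Q), ← neg_sub (L.weierstrassP Q), mul_neg, neg_div_neg_eq]
  have hid : Tendsto (fun Q : ℂ => Q) (𝓝[≠] z) (𝓝 z) := nhdsWithin_le_nhds
  have hadd : Tendsto (fun Q : ℂ => z + Q) (𝓝[≠] z) (𝓝 (2 * z)) := by
    rw [two_mul]
    exact tendsto_const_nhds.add hid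
  have hPQ : Tendsto (fun Q : ℂ => L.weierstrassP Q) (𝓝[≠] z) (𝓝 (L.weierstrassP z)) :=
    hd.continuousAt.tendsto.comp hid
  have hPa : Tendsto (fun Q : ℂ => L.weierstrassP (z + Q)) (𝓝[≠] z) (𝓝 (L.weierstrassP (2 * z))) :=
    (hasDerivAt_P L hz2).continuousAt.tendsto.comp hadd
  have hP'a : Tendsto (fun Q : ℂ => L.derivWeierstrassP (z + Q)) (𝓝[≠] z)
      (𝓝 (L.derivWeierstrassP (2 * z))) := (contAt_P' L hz2).tendsto.comp hadd
  -- the conditions of the addition theorem hold near `z`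
  have c1 : ∀ᶠ Q in 𝓝[≠] z, Q ∉ L.lattice :=
    hid (L.isClosed_lattice.isOpen_compl.mem_nhds hz)
  have c2 : ∀ᶠ Q in 𝓝[≠] z, z + Q ∉ L.lattice :=
    hadd (L.isClosed_lattice.isOpen_compl.mem_nhds hz2)
  have c3 : ∀ᶠ Q in 𝓝[≠] z, z - Q ∉ L.lattice := by
    have h1 := L.compl_lattice_sdiff_singleton_mem_nhds 0
    have h2 : Tendsto (fun Q : ℂ => z - Q) (𝓝[≠] z) (𝓝 0) := by
      have := (tendsto_const_nhds (x := z)).sub hid
      rwa [sub_self] at this
    filter_upwards [h2 h1, self_mem_nhdsWithin] with Q hQ hne hm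
    apply hQ
    refine ⟨hm, fun h3 => hne ?_⟩
    have h4 : z - Q = 0 := h3
    exact (sub_eq_zero.1 h4).symm
  constructor
  · have t1 : Tendsto (fun Q : ℂ => L.weierstrassP (z + Q) + L.weierstrassP z + L.weierstrassP Q)
        (𝓝[≠] z) (𝓝 (L.weierstrassP (2 * z) + L.weierstrassP z + L.weierstrassP z)) :=
      (hPa.add tendsto_const_nhds).add hPQ
    have t2 := hM.pow 2
    have t3 := t2.congr' (f₂ := fun Q : ℂ =>
      L.weierstrassP (z + Q) + L.weierstrassP z + L.weierstrassP Q) (by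
      filter_upwards [c1, c2, c3] with Q h1 h2 h3
      exact (hADD L Q z h1 hz h2 h3).1.symm)
    have := tendsto_nhds_unique t1 t3
    rw [← this]
    ring
  · have t1 : Tendsto (fun Q : ℂ => L.derivWeierstrassP (z + Q) + L.derivWeierstrassP z)
        (𝓝[≠] z) (𝓝 (L.derivWeierstrassP (2 * z) + L.derivWeierstrassP z)) :=
      hP'a.add tendsto_const_nhds
    have t2 := ((hM.const_mul (-2)).mul (hPa.sub (tendsto_const_nhds (x := L.weierstrassP z))))
    have t3 := t2.congr' (f₂ := fun Q : ℂ =>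
      L.derivWeierstrassP (z + Q) + L.derivWeierstrassP z) (by
      filter_upwards [c1, c2, c3] with Q h1 h2 h3
      exact (hADD L Q z h1 hz h2 h3).2.symm)
    exact tendsto_nhds_unique t1 t3

end Pool.Agent.MU3B
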