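import Mathlib
import Pool.Agent.MU3.StB

/-!
# MU3, block B, module HOL: `e(z) + (π/A) conj z` is holomorphic outside the lattice
-/

set_option autoImplicit false

namespace Pool.Agent.MU3B

open Complex Real Filter Topology
open scoped ComplexConjugate

namespace HOL

theorem gauss_fd (c : ℝ) (w z : ℂ) (h0 : z + w ≠ 0) : ∃ D : ℂ →L[ℝ] ℂ,
    HasFDerivAt (fun x : ℂ => ((Real.exp (-(c * ‖x + w‖ ^ 2)) : ℝ) : ℂ) / (x + w)) D z ∧
    ∀ h, D h = ((Real.exp (-(c * ‖z + w‖ ^ 2)) : ℝ) : ℂ) *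
      (-(2 * c) * (((h * conj (z + w)).re : ℝ) : ℂ) / (z + w) - h / (z + w) ^ 2) := by
  have e1 : HasFDerivAt (fun x : ℂ => ‖x + w‖ ^ 2) ((2 : ℕ) • innerSL ℝ (z + w)) z := by
    have h1 := (hasStrictFDerivAt_norm_sq (F := ℂ) (z + w)).hasFDerivAt
    have h2 : HasFDerivAt (fun x : ℂ => x + w) (ContinuousLinearMap.id ℝ ℂ) z :=
      (hasFDerivAt_id z).add_const w
    exact h1.comp z h2
  have e2 := ((e1.const_mul c).neg).exp
  have e3 := Complex.ofRealCLM.hasFDerivAt.comp z e2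
  have e4 : HasFDerivAt (fun x : ℂ => (x + w)⁻¹)
      ((ContinuousLinearMap.toSpanSingleton ℂ (-((z + w) ^ 2)⁻¹)).restrictScalars ℝ) z := by
    have h1 : HasDerivAt (fun x : ℂ => (x + w)⁻¹) (-((z + w) ^ 2)⁻¹) z := by
      have := (hasDerivAt_inv h0).comp z ((hasDerivAt_id z).add_const w)
      rw [mul_one] at this
      exact this
    exact h1.hasFDerivAt.restrictScalars ℝ
  refine ⟨_, (e3.mul e4), fun h => ?_⟩
  simp
  ring

theorem pr_fd (L : PeriodPair) (w z E : ℂ) : ∃ D : ℂ →L[ℝ] ℂ,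
    HasFDerivAt (fun x : ℂ => pr L w x * E / w) D z ∧
    ∀ h, D h = ((π / area L : ℝ) : ℂ) * (conj w * h - w * conj h) * pr L w z * E / w := by
  have e1 : HasFDerivAt (fun x : ℂ => conj w * x - w * conj x)
      (conj w • ContinuousLinearMap.id ℝ ℂ - w • (Complex.conjCLE : ℂ →L[ℝ] ℂ)) z :=
    ((hasFDerivAt_id z).const_mul (conj w)).sub
      ((Complex.conjCLE.hasFDerivAt).const_mul w)
  have e2 := (e1.const_mul ((π / area L : ℝ) : ℂ)).cexp
  have e3 := (e2.mul_const E).mul_const w⁻¹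
  refine ⟨_, e3, fun h => ?_⟩
  unfold pr
  simp
  ring

end HOL

open HOL in
theorem t_HOL (hSUM : St_SUM) (hLAT : St_LAT) (hPOI : St_POI) : St_HOL := by
  intro L z₀ hz₀
  obtain ⟨hA, hn, -⟩ := hLAT L
  obtain ⟨c, hc⟩ : ∃ c : ℝ, c = π / area L := ⟨_, rfl⟩
  have hc0 : 0 < c := by rw [hc]; positivity
  obtain ⟨ρ, hρ, hball⟩ := Metric.isOpen_iff.1 L.isClosed_lattice.isOpen_compl z₀ hz₀
  have hlow : ∀ x ∈ Metric.ball z₀ (ρ / 2), ∀ w : L.lattice, ρ / 2 ≤ ‖x + w‖ := by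
    intro x hx w
    have h1 : ρ ≤ dist (-(w : ℂ)) z₀ := by
      by_contra h
      exact hball (Metric.mem_ball.2 (not_le.1 h)) (neg_mem w.2)
    have h2 : dist x z₀ < ρ / 2 := hx
    have h3 : ‖x + w‖ = dist x (-(w : ℂ)) := by rw [dist_eq_norm, sub_neg_eq_add]
    have h4 := dist_triangle (-(w : ℂ)) x z₀
    rw [h3, dist_comm]
    linarith
  have hne : ∀ x ∈ Metric.ball z₀ (ρ / 2), ∀ w : L.lattice, x + (w : ℂ) ≠ 0 := by
    intro x hx w h
    have := hlow x hx w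
    rw [h, norm_zero] at this
    linarith
  have hR : ∀ x ∈ Metric.ball z₀ (ρ / 2), ‖x‖ ≤ ‖z₀‖ + ρ := by
    intro x hx
    have h2 : ‖x - z₀‖ < ρ / 2 := mem_ball_iff_norm.1 hx
    have h3 : ‖x‖ ≤ ‖x - z₀‖ + ‖z₀‖ := by
      have := norm_add_le (x - z₀) z₀
      rwa [sub_add_cancel] at this
    linarith
  obtain ⟨u, hu, hb⟩ := hSUM L c hc0 0 (‖z₀‖ + ρ)
  simp only [pow_zero, one_mul] at hb
  have hz0 : z₀ ∈ Metric.ball z₀ (ρ / 2) := Metric.mem_ball_self (by positivity)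
  -- first family
  choose! D hD hDf using fun (w : L.lattice) (z : ℂ) (h0 : z + (w : ℂ) ≠ 0) =>
    gauss_fd c w z h0
  choose P hP hPf using fun (w : L.lattice) (z : ℂ) =>
    pr_fd L w z ((Real.exp (-(c * ‖(w : ℂ)‖ ^ 2)) : ℝ) : ℂ)
  have hDn : ∀ (w : L.lattice), ∀ x ∈ Metric.ball z₀ (ρ / 2),
      ‖D w x‖ ≤ (2 * c + (2 / ρ) ^ 2) * u w := by
    intro w x hx
    have h1 := (hb w x (hR x hx)).1
    have h2 := hlow x hx w
    have h3 : 0 < ‖x + w‖ := by linarith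
    have hE := Real.exp_pos (-(c * ‖x + (w : ℂ)‖ ^ 2))
    refine ContinuousLinearMap.opNorm_le_bound _
      (mul_nonneg (by positivity) (hE.le.trans h1)) fun h => ?_
    rw [hDf w x (hne x hx w), norm_mul, Complex.norm_real, Real.norm_eq_abs, abs_of_pos hE]
    have h4 : ‖-(2 * (c : ℂ)) * (((h * conj (x + w)).re : ℝ) : ℂ) / (x + w) - h / (x + w) ^ 2‖ ≤
        (2 * c + (2 / ρ) ^ 2) * ‖h‖ := by
      refine (norm_sub_le _ _).trans ?_
      have h5 : ‖-(2 * (c : ℂ)) * (((h * conj (x + w)).re : ℝ) : ℂ) / (x + w)‖ ≤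
          2 * c * ‖h‖ := by
        rw [norm_div, norm_mul, norm_neg, Complex.norm_real, Real.norm_eq_abs, div_le_iff₀ h3]
        have h6 : |(h * conj (x + w)).re| ≤ ‖h‖ * ‖x + w‖ := by
          refine (Complex.abs_re_le_norm _).trans ?_
          rw [norm_mul, Complex.norm_conj]
        have h7 : ‖(2 * (c : ℂ))‖ = 2 * c := by
          rw [norm_mul, Complex.norm_real, Real.norm_eq_abs, abs_of_pos hc0, Complex.norm_two]
        rw [h7, mul_assoc (2 * c)]
        exact mul_le_mul_of_nonneg_left h6 (by positivity)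
      have h8 : ‖h / (x + w) ^ 2‖ ≤ (2 / ρ) ^ 2 * ‖h‖ := by
        rw [norm_div, norm_pow, div_eq_mul_inv, mul_comm, ← inv_pow]
        refine mul_le_mul_of_nonneg_right ?_ (norm_nonneg _)
        refine pow_le_pow_left₀ (by positivity) ?_ 2
        rw [← inv_div]
        exact inv_anti₀ (by positivity) h2
      linarith
    calc Real.exp (-(c * ‖x + (w : ℂ)‖ ^ 2)) *
          ‖-(2 * (c : ℂ)) * (((h * conj (x + w)).re : ℝ) : ℂ) / (x + w) - h / (x + w) ^ 2‖
        ≤ u w * ((2 * c + (2 / ρ) ^ 2) * ‖h‖) :=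
          mul_le_mul h1 h4 (norm_nonneg _) (hE.le.trans h1)
      _ = _ := by ring
  have hPn : ∀ (w : L.lattice), ∀ x ∈ Metric.ball z₀ (ρ / 2), ‖P w x‖ ≤ 2 * c * u w := by
    intro w x hx
    have h1 := (hb w x (hR x hx)).2
    have hE := Real.exp_pos (-(c * ‖(w : ℂ)‖ ^ 2))
    refine ContinuousLinearMap.opNorm_le_bound _
      (mul_nonneg (by positivity) (hE.le.trans h1)) fun h => ?_
    rw [hPf, ← hc]
    by_cases hw : (w : ℂ) = 0
    · rw [hw, div_zero, norm_zero]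
      exact mul_nonneg (mul_nonneg (by positivity) (hE.le.trans h1)) (norm_nonneg _)
    have hw' : 0 < ‖(w : ℂ)‖ := norm_pos_iff.2 hw
    rw [norm_div, norm_mul, norm_mul, norm_mul, hn, mul_one, Complex.norm_real,
      Complex.norm_real, Real.norm_eq_abs, Real.norm_eq_abs, abs_of_pos hE, abs_of_pos hc0,
      div_le_iff₀ hw']
    have h2 : ‖conj (w : ℂ) * h - w * conj h‖ ≤ 2 * ‖h‖ * ‖(w : ℂ)‖ := by
      refine (norm_sub_le _ _).trans ?_
      rw [norm_mul, norm_mul, Complex.norm_conj, Complex.norm_conj]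
      linarith
    calc c * ‖conj (w : ℂ) * h - w * conj h‖ * Real.exp (-(c * ‖(w : ℂ)‖ ^ 2))
        ≤ c * (2 * ‖h‖ * ‖(w : ℂ)‖) * u w :=
          mul_le_mul (mul_le_mul_of_nonneg_left h2 hc0.le) h1 hE.le (by positivity)
      _ = _ := by ring
  have hs1 : Summable (fun w : L.lattice =>
      ((Real.exp (-(c * ‖z₀ + (w : ℂ)‖ ^ 2)) : ℝ) : ℂ) / (z₀ + w)) := by
    refine Summable.of_norm_bounded (hu.mul_left (2 / ρ)) fun w => ?_
    have h1 := (hb w z₀ (hR z₀ hz0)).1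
    have h2 := hlow z₀ hz0 w
    rw [norm_div, Complex.norm_real, Real.norm_eq_abs, abs_of_pos (Real.exp_pos _),
      div_eq_mul_inv, mul_comm]
    refine mul_le_mul ?_ h1 (Real.exp_pos _).le (by positivity)
    rw [← inv_div]
    exact inv_anti₀ (by positivity) h2
  obtain ⟨-, -, -, -, -, -, -, -, δ, hδ, hδL⟩ := hLAT L
  have hs2 : Summable (fun w : L.lattice =>
      pr L w z₀ * ((Real.exp (-(c * ‖(w : ℂ)‖ ^ 2)) : ℝ) : ℂ) / (w : ℂ)) := by
    refine Summable.of_norm_bounded (hu.mul_left (1 / δ)) fun w => ?_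
    have h1 := (hb w z₀ (hR z₀ hz0)).2
    have hE := Real.exp_pos (-(c * ‖(w : ℂ)‖ ^ 2))
    by_cases hw : (w : ℂ) = 0
    · rw [hw, div_zero, norm_zero]
      rw [hw] at h1 hE
      exact mul_nonneg (by positivity) (hE.le.trans h1)
    have h2 := hδL w w.2 hw
    rw [norm_div, norm_mul, hn, one_mul, Complex.norm_real, Real.norm_eq_abs, abs_of_pos hE,
      div_eq_mul_inv, mul_comm]
    refine mul_le_mul ?_ h1 hE.le (by positivity)
    rw [one_div]
    exact inv_anti₀ hδ h2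
  have hS : IsPreconnected (Metric.ball z₀ (ρ / 2)) := (convex_ball z₀ _).isPreconnected
  have F1 := hasFDerivAt_tsum_of_isPreconnected (hu.mul_left (2 * c + (2 / ρ) ^ 2))
    Metric.isOpen_ball hS (fun w x hx => hD w x (hne x hx w)) hDn hz0 hs1 hz0
  have F2 := hasFDerivAt_tsum_of_isPreconnected (hu.mul_left (2 * c))
    Metric.isOpen_ball hS (fun w x _ => hP w x) hPn hz0 hs2 hz0
  have F3 : HasFDerivAt (fun x : ℂ => (c : ℂ) * conj x) ((c : ℂ) • (Complex.conjCLE : ℂ →L[ℝ] ℂ))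
      z₀ := (Complex.conjCLE.hasFDerivAt).const_mul (c : ℂ)
  have F := (F1.sub F2).add F3
  have hzet : zet L = fun x : ℂ => ((∑' w : L.lattice,
      ((Real.exp (-(c * ‖x + (w : ℂ)‖ ^ 2)) : ℝ) : ℂ) / (x + w)) -
      ∑' w : L.lattice, pr L w x * ((Real.exp (-(c * ‖(w : ℂ)‖ ^ 2)) : ℝ) : ℂ) / (w : ℂ)) +
      (c : ℂ) * conj x := by
    funext x
    have e1 : ∀ y : ℝ, π * y / area L = c * y := fun y => by rw [hc]; ring
    unfold zet ee
    simp only [e1, ← hc]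
  have sD : Summable (fun w : L.lattice => D w z₀) :=
    Summable.of_norm_bounded (hu.mul_left _) fun w => hDn w z₀ hz0
  have sP : Summable (fun w : L.lattice => P w z₀) :=
    Summable.of_norm_bounded (hu.mul_left _) fun w => hPn w z₀ hz0
  have tD : ∀ h : ℂ, (∑' w : L.lattice, D w z₀) h = ∑' w : L.lattice, D w z₀ h := fun h =>
    (ContinuousLinearMap.apply ℝ ℂ h).map_tsum sD
  have tP : ∀ h : ℂ, (∑' w : L.lattice, P w z₀) h = ∑' w : L.lattice, P w z₀ h := fun h =>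
    (ContinuousLinearMap.apply ℝ ℂ h).map_tsum sP
  have sDh : ∀ h : ℂ, Summable (fun w : L.lattice => D w z₀ h) := fun h =>
    (ContinuousLinearMap.apply ℝ ℂ h).summable sD
  have sPh : ∀ h : ℂ, Summable (fun w : L.lattice => P w z₀ h) := fun h =>
    (ContinuousLinearMap.apply ℝ ℂ h).summable sP
  have kD : (∑' w : L.lattice, D w z₀ I) - I * (∑' w : L.lattice, D w z₀ 1) =
      2 * c * I * ((Gs L 1 z₀ : ℝ) : ℂ) := by
    have e1 : ((Gs L 1 z₀ : ℝ) : ℂ) =
        ∑' w : L.lattice, ((Real.exp (-(c * ‖z₀ + (w : ℂ)‖ ^ 2)) : ℝ) : ℂ) := by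
      have e2 : ∀ y : ℝ, π * y / (area L * 1) = c * y := fun y => by rw [hc]; ring
      unfold Gs
      simp only [e2]
      exact Complex.ofReal_tsum _
    rw [e1, ← tsum_mul_left, ← tsum_mul_left, ← (sDh I).tsum_sub ((sDh 1).mul_left I)]
    refine tsum_congr fun w => ?_
    have hx := hne z₀ hz0 w
    rw [hDf w z₀ hx, hDf w z₀ hx]
    have e3 : ∀ y : ℂ, (((I * conj y).re : ℝ) : ℂ) = I * (((1 * conj y).re : ℝ) : ℂ) -
        I * y := by
      intro y
      apply Complex.ext <;> simp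
    rw [e3]
    generalize (((1 * conj (z₀ + (w : ℂ))).re : ℝ) : ℂ) = r at *
    generalize ((Real.exp (-(c * ‖z₀ + (w : ℂ)‖ ^ 2)) : ℝ) : ℂ) = E at *
    generalize z₀ + (w : ℂ) = y at *
    field_simp
    ring
  have kP : (∑' w : L.lattice, P w z₀ I) - I * (∑' w : L.lattice, P w z₀ 1) =
      2 * c * I * (Th L 1 z₀ - 1) := by
    have e2 : ∀ y : ℝ, π * 1 * y / area L = c * y := fun y => by rw [hc]; ring
    have hsT : Summable (fun w : L.lattice =>
        pr L w z₀ * ((Real.exp (-(c * ‖(w : ℂ)‖ ^ 2)) : ℝ) : ℂ)) := by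
      refine Summable.of_norm_bounded hu fun w => ?_
      rw [norm_mul, hn, one_mul, Complex.norm_real, Real.norm_eq_abs,
        abs_of_pos (Real.exp_pos _)]
      exact (hb w z₀ (hR z₀ hz0)).2
    have e1 : Th L 1 z₀ - 1 = ∑' w : L.lattice, (if w = 0 then 0 else
        pr L w z₀ * ((Real.exp (-(c * ‖(w : ℂ)‖ ^ 2)) : ℝ) : ℂ)) := by
      unfold Th
      simp only [e2]
      rw [hsT.tsum_eq_add_tsum_ite 0]
      have e3 : pr L ((0 : L.lattice) : ℂ) z₀ *
          ((Real.exp (-(c * ‖((0 : L.lattice) : ℂ)‖ ^ 2)) : ℝ) : ℂ) = 1 := by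
        unfold pr
        simp
      rw [e3, add_sub_cancel_left]
    rw [e1, ← tsum_mul_left, ← tsum_mul_left, ← (sPh I).tsum_sub ((sPh 1).mul_left I)]
    refine tsum_congr fun w => ?_
    rw [hPf, hPf, ← hc]
    by_cases hw : w = 0
    · rw [if_pos hw, hw]
      simp
    · have hw' : (w : ℂ) ≠ 0 := fun h => hw (Subtype.ext h)
      rw [if_neg hw, Complex.conj_I, map_one]
      field_simp
      ring_nf
  have hfin : ((∑' w : L.lattice, D w z₀) - (∑' w : L.lattice, P w z₀) +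
      (c : ℂ) • (Complex.conjCLE : ℂ →L[ℝ] ℂ)) I =
      I • ((∑' w : L.lattice, D w z₀) - (∑' w : L.lattice, P w z₀) +
      (c : ℂ) • (Complex.conjCLE : ℂ →L[ℝ] ℂ)) 1 := by
    have e1 : ∀ h : ℂ, ((∑' w : L.lattice, D w z₀) - (∑' w : L.lattice, P w z₀) +
      (c : ℂ) • (Complex.conjCLE : ℂ →L[ℝ] ℂ)) h = (∑' w : L.lattice, D w z₀ h) -
        (∑' w : L.lattice, P w z₀ h) + c * conj h := by
      intro h
      rw [← tD, ← tP]
      rfl
    rw [e1, e1, smul_eq_mul, Complex.conj_I, map_one]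
    have e2 := hPOI L 1 one_pos z₀
    rw [Complex.ofReal_one, one_mul] at e2
    rw [e2] at kD
    linear_combination kD - kP
  rw [hzet]
  exact (F.complexOfReal_hasFDerivAt hfin).differentiableAt

end Pool.Agent.MU3B
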