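import Pool.Agent.MU3.StB2

/-!
# MU3, block B, HRE: a half system together with its negative is a system of representatives
(helper70)
-/

set_option autoImplicit false

namespace Pool.Agent.MU3B

open Complex Real Filter Topology
open scoped ComplexConjugate

theorem t_HRE (hNUM : St_NUM) : St_HRE := by
  classical
  intro L a H ha haL hH
  have hmem : ∀ q, q ∈ H ∪ H.image (fun q => -q) ↔ q ∈ H ∨ ∃ p ∈ H, -p = q := by
    intro q
    rw [Finset.mem_union, Finset.mem_image]
  have hnL : ∀ q ∈ H, q ∉ L.lattice := by
    intro q hq h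
    apply hH.ne q hq
    rw [two_mul]
    exact add_mem h h
  have hR : IsReps L a (H ∪ H.image (fun q => -q)) := by
    refine ⟨fun q hq => ?_, fun q hq => ?_, fun q hq q' hq' h => ?_, fun z hz hzL => ?_⟩
    · rcases (hmem q).1 hq with h | ⟨p, hp, rfl⟩
      · exact hH.mem q h
      · rw [mul_neg]
        exact neg_mem (hH.mem p hp)
    · rcases (hmem q).1 hq with h | ⟨p, hp, rfl⟩
      · exact hnL q h
      · intro h
        exact hnL p hp (by simpa using neg_mem h)
    · rcases (hmem q).1 hq with h1 | ⟨p, hp, rfl⟩ <;>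
        rcases (hmem q').1 hq' with h2 | ⟨p', hp', rfl⟩
      · exact hH.inj q h1 q' h2 h
      · exact (hH.neg q h1 p' hp' (by simpa using h)).elim
      · refine (hH.neg p hp q' h2 ?_).elim
        have := neg_mem h
        rwa [neg_sub, sub_neg_eq_add, add_comm] at this
      · have h3 : p - p' ∈ L.lattice := by
          have := neg_mem h
          have e : -(-p - -p') = p - p' := by ring
          rwa [e] at this
        rw [hH.inj p hp p' hp' h3]
    · obtain ⟨q, hq, h | h⟩ := hH.surj z hz hzL
      · exact ⟨q, (hmem q).2 (Or.inl hq), h⟩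
      · exact ⟨-q, (hmem (-q)).2 (Or.inr ⟨q, hq, rfl⟩), by simpa using h⟩
  have hD : Disjoint H (H.image (fun q => -q)) := by
    rw [Finset.disjoint_left]
    intro q hq h
    obtain ⟨p, hp, h'⟩ := Finset.mem_image.1 h
    apply hH.neg q hq p hp
    rw [← h', neg_add_cancel]
    exact zero_mem _
  refine ⟨hR, hD, ?_⟩
  have h1 := hNUM L a _ ha haL hR
  rw [Finset.card_union_of_disjoint hD, Finset.card_image_of_injective _ neg_injective] at h1
  rw [← h1]
  push_cast
  ring

end Pool.Agent.MU3B
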