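import Pool.Agent.MU3.StB

/-!
# MU3, block B: module ID (helper21)
-/

set_option autoImplicit false

namespace Pool.Agent.MU3B

open Complex Real Filter Topology
open scoped ComplexConjugate

namespace ID21

theorem wp (L : PeriodPair) (z : ℂ) :
    L.weierstrassP z = L.weierstrassPExcept 0 z + 1 / z ^ 2 := by
  have h := L.weierstrassPExcept_add 0 z
  simpa using h.symm

theorem wp' (L : PeriodPair) (z : ℂ) :
    L.derivWeierstrassP z = L.derivWeierstrassPExcept 0 z - 2 / z ^ 3 := by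
  have h := L.derivWeierstrassPExcept_sub 0 z
  simpa using h.symm

theorem tshift (x a : ℂ) : Tendsto (fun z : ℂ => z + a) (𝓝[≠] x) (𝓝[≠] (x + a)) := by
  rw [tendsto_nhdsWithin_iff]
  refine ⟨?_, ?_⟩
  · exact (tendsto_id.add_const a).mono_left nhdsWithin_le_nhds
  · filter_upwards [self_mem_nhdsWithin] with z hz
    intro h
    exact hz (add_right_cancel h)

theorem lemA (hPER : St_PER) (hHOL : St_HOL) (hPOL : St_POL) (L : PeriodPair) (z₀ : ℂ) :
    ∃ l : ℂ, Tendsto (fun z => (z - z₀) * zet L z) (𝓝[≠] z₀) (𝓝 l) := by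
  by_cases hz : z₀ ∈ L.lattice
  · obtain ⟨h, δ, hδ, hD, _, hz1⟩ := hPOL L
    refine ⟨1, ?_⟩
    have hcont : ContinuousAt h 0 :=
      (hD.differentiableAt (Metric.ball_mem_nhds 0 hδ)).continuousAt
    have t1 : Tendsto (fun s : ℂ => s * zet L s) (𝓝[≠] 0) (𝓝 1) := by
      have t2 : Tendsto (fun s : ℂ => 1 + s * h s) (𝓝[≠] 0) (𝓝 (1 + 0 * h 0)) :=
        (tendsto_const_nhds.add (tendsto_id.mul hcont.tendsto)).mono_left nhdsWithin_le_nhds
      rw [zero_mul, add_zero] at t2
      apply t2.congr'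
      have hb : Metric.ball (0 : ℂ) δ ∈ 𝓝[≠] (0 : ℂ) :=
        mem_nhdsWithin_of_mem_nhds (Metric.ball_mem_nhds 0 hδ)
      filter_upwards [hb, self_mem_nhdsWithin] with s hs hs0
      rw [(hz1 s hs hs0).2]
      have : s ≠ 0 := hs0
      field_simp
    have t3 := tshift z₀ (-z₀)
    rw [add_neg_cancel] at t3
    have t4 := t1.comp t3
    have t5 : Tendsto (fun z : ℂ => (z - z₀) * (((π / area L : ℝ) : ℂ) * conj z₀)) (𝓝[≠] z₀)
        (𝓝 ((z₀ - z₀) * (((π / area L : ℝ) : ℂ) * conj z₀))) :=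
      ((tendsto_id.sub_const z₀).mul_const _).mono_left nhdsWithin_le_nhds
    rw [sub_self, zero_mul] at t5
    have t6 := t4.add t5
    rw [add_zero] at t6
    apply t6.congr
    intro z
    show (z + -z₀) * zet L (z + -z₀) + (z - z₀) * (((π / area L : ℝ) : ℂ) * conj z₀) =
      (z - z₀) * zet L z
    have e : ee L (z + -z₀) = ee L z := by
      have := (hPER L).1 (z + -z₀) z₀ hz
      rw [neg_add_cancel_right] at this
      exact this.symm
    unfold zet
    rw [e, map_add, map_neg]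
    ring
  · refine ⟨0, ?_⟩
    have h1 := (hHOL L z₀ hz).continuousAt.tendsto
    have h2 : Tendsto (fun z : ℂ => (z - z₀) * zet L z) (𝓝 z₀) (𝓝 ((z₀ - z₀) * zet L z₀)) :=
      (tendsto_id.sub_const z₀).mul h1
    rw [sub_self, zero_mul] at h2
    exact h2.mono_left nhdsWithin_le_nhds

theorem wpdiff (L : PeriodPair) (z : ℂ) (hz : z ∉ L.lattice) :
    DifferentiableAt ℂ L.weierstrassP z :=
  L.differentiableOn_weierstrassP.differentiableAt
    (L.isClosed_lattice.isOpen_compl.mem_nhds hz)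

theorem wp'diff (L : PeriodPair) (z : ℂ) (hz : z ∉ L.lattice) :
    DifferentiableAt ℂ L.derivWeierstrassP z :=
  L.differentiableOn_derivWeierstrassP.differentiableAt
    (L.isClosed_lattice.isOpen_compl.mem_nhds hz)

/-- the function with `ζ` instead of `e` -/
noncomputable def FF (L : PeriodPair) (Q z : ℂ) : ℂ :=
  (zet L (z + Q) + zet L (z - Q) - 2 * zet L z) * (L.weierstrassP z - L.weierstrassP Q) -
    L.derivWeierstrassP z

theorem FF_eq (L : PeriodPair) (Q z : ℂ) :
    (ee L (z + Q) + ee L (z - Q) - 2 * ee L z) * (L.weierstrassP z - L.weierstrassP Q) -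
      L.derivWeierstrassP z = FF L Q z := by
  unfold FF zet
  rw [map_add, map_sub]
  ring

theorem FF_neg (hPER : St_PER) (L : PeriodPair) (Q z : ℂ) : FF L Q (-z) = -FF L Q z := by
  rw [← FF_eq, ← FF_eq, L.weierstrassP_neg, L.derivWeierstrassP_neg]
  have e1 : ee L (-z + Q) = -ee L (z - Q) := by
    rw [← (hPER L).2]
    congr 1
    ring
  have e2 : ee L (-z - Q) = -ee L (z + Q) := by
    rw [← (hPER L).2]
    congr 1
    ring
  rw [e1, e2, (hPER L).2]
  ring

theorem lim_Q (hPER : St_PER) (hHOL : St_HOL) (hPOL : St_POL) (L : PeriodPair) (Q : ℂ)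
    (hQ : Q ∉ L.lattice) : Tendsto (fun z => (z - Q) * FF L Q z) (𝓝[≠] Q) (𝓝 0) := by
  obtain ⟨l1, h1⟩ := lemA hPER hHOL hPOL L (Q + Q)
  obtain ⟨l2, h2⟩ := lemA hPER hHOL hPOL L 0
  obtain ⟨l3, h3⟩ := lemA hPER hHOL hPOL L Q
  have t1 := h1.comp (tshift Q Q)
  have s2 := tshift Q (-Q)
  rw [add_neg_cancel] at s2
  have t2 := h2.comp s2
  have hw : Tendsto (fun z => L.weierstrassP z - L.weierstrassP Q) (𝓝[≠] Q) (𝓝 0) := by
    have := ((wpdiff L Q hQ).continuousAt.tendsto.sub_const (L.weierstrassP Q)).mono_left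
      (nhdsWithin_le_nhds (s := {Q}ᶜ))
    rwa [sub_self] at this
  have hw' : Tendsto (fun z => (z - Q) * L.derivWeierstrassP z) (𝓝[≠] Q) (𝓝 0) := by
    have : Tendsto (fun z : ℂ => (z - Q) * L.derivWeierstrassP z) (𝓝 Q)
        (𝓝 ((Q - Q) * L.derivWeierstrassP Q)) :=
      (tendsto_id.sub_const Q).mul (wp'diff L Q hQ).continuousAt.tendsto
    rw [sub_self, zero_mul] at this
    exact this.mono_left nhdsWithin_le_nhds
  have t := (((t1.add t2).sub (h3.const_mul 2)).mul hw).sub hw'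
  rw [mul_zero, sub_zero] at t
  apply t.congr
  intro z
  show ((z + Q - (Q + Q)) * zet L (z + Q) + (z + -Q - 0) * zet L (z + -Q) -
    2 * ((z - Q) * zet L z)) * (L.weierstrassP z - L.weierstrassP Q) -
    (z - Q) * L.derivWeierstrassP z = (z - Q) * FF L Q z
  unfold FF
  rw [← sub_eq_add_neg]
  ring

theorem lim_0 (hPER : St_PER) (hPOL : St_POL) (hZP : St_ZP) (L : PeriodPair)
    (Q : ℂ) (hQ : Q ∉ L.lattice) : Tendsto (fun z => (z - 0) * FF L Q z) (𝓝[≠] 0) (𝓝 0) := by
  obtain ⟨h, δ, hδ, hD, hodd, hz1⟩ := hPOL L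
  obtain ⟨c, hc⟩ := hZP L
  have hball : Metric.ball (0 : ℂ) δ ∈ 𝓝 (0 : ℂ) := Metric.ball_mem_nhds 0 hδ
  have hb : Metric.ball (0 : ℂ) δ ∈ 𝓝[≠] (0 : ℂ) := mem_nhdsWithin_of_mem_nhds hball
  have h0 : h 0 = 0 := by
    have := hodd 0 (Metric.mem_ball_self hδ)
    rw [neg_zero] at this
    have h2 : (2 : ℂ) * h 0 = 0 := by linear_combination this
    simpa using h2
  have hE : DifferentiableAt ℂ (L.weierstrassPExcept 0) 0 :=
    (L.analyticAt_weierstrassPExcept 0).differentiableAt
  have hE' : DifferentiableAt ℂ (L.derivWeierstrassPExcept 0) 0 :=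
    (L.analyticAt_derivWeierstrassPExcept 0).differentiableAt
  have hEt : Tendsto (L.weierstrassPExcept 0) (𝓝[≠] 0) (𝓝 0) := by
    have := hE.continuousAt.tendsto.mono_left (nhdsWithin_le_nhds (s := {(0 : ℂ)}ᶜ))
    rwa [L.weierstrassPExcept_zero] at this
  -- derivative of h at 0
  have hDd : DifferentiableAt ℂ (deriv h) 0 :=
    (hD.deriv Metric.isOpen_ball).differentiableAt hball
  have hd1 : ∀ z ∈ Metric.ball (0 : ℂ) δ, z ≠ 0 → deriv h z = c - L.weierstrassPExcept 0 z := by
    intro z hz hz0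
    have g1 := hc z (hz1 z hz hz0).1
    have g2 : HasDerivAt (fun y : ℂ => zet L y - y⁻¹) (c - L.weierstrassP z - -(z ^ 2)⁻¹) z :=
      g1.sub (hasDerivAt_inv hz0)
    have g3 : h =ᶠ[𝓝 z] fun y => zet L y - y⁻¹ := by
      have o1 : Metric.ball (0 : ℂ) δ ∈ 𝓝 z := Metric.isOpen_ball.mem_nhds hz
      have o2 : {(0 : ℂ)}ᶜ ∈ 𝓝 z := isOpen_compl_singleton.mem_nhds hz0
      filter_upwards [o1, o2] with y hy hy0
      rw [(hz1 y hy hy0).2, one_div]
      ring
    rw [g3.deriv_eq, g2.deriv, wp]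
    field_simp
    ring
  have hd0 : deriv h 0 = c := by
    have t1 : Tendsto (deriv h) (𝓝[≠] 0) (𝓝 (deriv h 0)) :=
      hDd.continuousAt.tendsto.mono_left nhdsWithin_le_nhds
    have t2 : Tendsto (deriv h) (𝓝[≠] 0) (𝓝 (c - 0)) := by
      apply (hEt.const_sub c).congr'
      filter_upwards [hb, self_mem_nhdsWithin] with z hz hz0
      exact (hd1 z hz hz0).symm
    rw [sub_zero] at t2
    exact tendsto_nhds_unique t1 t2
  have hhd : HasDerivAt h c 0 := by
    have := (hD.differentiableAt hball).hasDerivAt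
    rwa [hd0] at this
  -- the function k
  have hQ' : -Q ∉ L.lattice := fun h => hQ (by simpa using L.lattice.neg_mem h)
  set k : ℂ → ℂ := fun z => zet L (z + Q) + zet L (z - Q) - 2 * h z with hk
  have hkd : HasDerivAt k (-(2 * L.weierstrassP Q)) 0 := by
    have a1 : HasDerivAt (fun z => zet L (z + Q)) (c - L.weierstrassP Q) 0 := by
      apply HasDerivAt.comp_add_const
      rw [zero_add]
      exact hc Q hQ
    have a2 : HasDerivAt (fun z => zet L (z - Q)) (c - L.weierstrassP Q) 0 := by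
      apply HasDerivAt.comp_sub_const
      rw [zero_sub]
      have := hc (-Q) hQ'
      rwa [L.weierstrassP_neg] at this
    have a3 := (a1.add a2).sub (hhd.const_mul 2)
    have e : c - L.weierstrassP Q + (c - L.weierstrassP Q) - 2 * c = -(2 * L.weierstrassP Q) := by
      ring
    rw [e] at a3
    exact a3
  have hk0 : k 0 = 0 := by
    rw [hk]
    show zet L (0 + Q) + zet L (0 - Q) - 2 * h 0 = 0
    rw [h0, zero_add, zero_sub]
    unfold zet
    rw [(hPER L).2, map_neg]
    ring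
  have tk : Tendsto (fun z => z⁻¹ * k z) (𝓝[≠] 0) (𝓝 (-(2 * L.weierstrassP Q))) := by
    have := hkd.tendsto_slope_zero
    apply this.congr
    intro t
    rw [hk0, zero_add, sub_zero, smul_eq_mul]
  have tid : Tendsto (fun z : ℂ => z) (𝓝[≠] 0) (𝓝 0) := tendsto_id.mono_left nhdsWithin_le_nhds
  have tkc : Tendsto k (𝓝[≠] 0) (𝓝 0) := by
    have := hkd.continuousAt.tendsto.mono_left (nhdsWithin_le_nhds (s := {(0 : ℂ)}ᶜ))
    rwa [hk0] at this
  have tE' : Tendsto (L.derivWeierstrassPExcept 0) (𝓝[≠] 0) (𝓝 (L.derivWeierstrassPExcept 0 0)) :=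
    hE'.continuousAt.tendsto.mono_left nhdsWithin_le_nhds
  have tEQ := hEt.sub_const (L.weierstrassP Q)
  have t := ((tk.add ((tid.mul tkc).mul tEQ)).sub (tEQ.const_mul 2)).sub (tid.mul tE')
  have ev : -(2 * L.weierstrassP Q) + 0 * 0 * (0 - L.weierstrassP Q) -
      2 * (0 - L.weierstrassP Q) - 0 * L.derivWeierstrassPExcept 0 0 = 0 := by ring
  rw [ev] at t
  apply t.congr'
  filter_upwards [hb, self_mem_nhdsWithin] with z hz hz0
  have hzn : z ≠ 0 := hz0
  show z⁻¹ * k z + z * k z * (L.weierstrassPExcept 0 z - L.weierstrassP Q) -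
    2 * (L.weierstrassPExcept 0 z - L.weierstrassP Q) - z * L.derivWeierstrassPExcept 0 z =
    (z - 0) * FF L Q z
  unfold FF
  have ek : zet L (z + Q) + zet L (z - Q) = k z + 2 * h z := by rw [hk]; ring
  rw [ek, (hz1 z hz hz0).2, wp L z, wp' L z]
  field_simp
  ring

end ID21

open ID21 in
theorem t_ID (hPER : St_PER) (hHOL : St_HOL) (hPOL : St_POL) (hLIO : St_LIO) (hZP : St_ZP) :
    St_ID := by
  classical
  intro L Q z hQ hz hzQ1 hzQ2
  have hQ' : -Q ∉ L.lattice := fun h => hQ (by simpa using L.lattice.neg_mem h)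
  obtain ⟨c, hc⟩ := hLIO L (FF L Q) {0, Q, -Q} (by
    intro y v hv
    rw [← FF_eq, ← FF_eq]
    have e1 : ee L (y + v + Q) = ee L (y + Q) := by
      rw [← (hPER L).1 (y + Q) v hv]
      congr 1
      ring
    have e2 : ee L (y + v - Q) = ee L (y - Q) := by
      rw [← (hPER L).1 (y - Q) v hv]
      congr 1
      ring
    rw [e1, e2, (hPER L).1 y v hv, L.weierstrassP_add_coe y ⟨v, hv⟩,
      L.derivWeierstrassP_add_coe y ⟨v, hv⟩]) (by
    intro y hy
    have y0 : y ∉ L.lattice := by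
      have := hy 0 (by simp)
      rwa [sub_zero] at this
    have y1 : y - Q ∉ L.lattice := hy Q (by simp)
    have y2 : y + Q ∉ L.lattice := by
      have := hy (-Q) (by simp)
      rwa [sub_neg_eq_add] at this
    have d1 : DifferentiableAt ℂ (fun y => zet L (y + Q)) y :=
      (hHOL L (y + Q) y2).comp y (differentiableAt_id.add_const Q)
    have d2 : DifferentiableAt ℂ (fun y => zet L (y - Q)) y :=
      (hHOL L (y - Q) y1).comp y (differentiableAt_id.sub_const Q)
    exact (((d1.add d2).sub ((hHOL L y y0).const_mul 2)).mul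
      ((wpdiff L y y0).sub_const _)).sub (wp'diff L y y0)) (by
    intro p hp
    simp only [Finset.mem_insert, Finset.mem_singleton] at hp
    rcases hp with rfl | rfl | rfl
    · exact lim_0 hPER hPOL hZP L Q hQ
    · exact lim_Q hPER hHOL hPOL L p hQ
    · have h1 := lim_Q hPER hHOL hPOL L Q hQ
      have t : Tendsto (fun y : ℂ => -y) (𝓝[≠] (-Q)) (𝓝[≠] Q) := by
        rw [tendsto_nhdsWithin_iff]
        refine ⟨?_, ?_⟩
        · have := (continuous_neg (G := ℂ)).tendsto (-Q)
          rw [neg_neg] at this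
          exact this.mono_left nhdsWithin_le_nhds
        · filter_upwards [self_mem_nhdsWithin] with y hy h
          apply hy
          have h' : -y = Q := h
          rw [Set.mem_singleton_iff, ← h', neg_neg]
      apply (h1.comp t).congr
      intro y
      show (-y - Q) * FF L Q (-y) = (y - -Q) * FF L Q y
      rw [FF_neg hPER]
      ring)
  have good : ∀ p ∈ ({0, Q, -Q} : Finset ℂ), z - p ∉ L.lattice := by
    intro p hp
    simp only [Finset.mem_insert, Finset.mem_singleton] at hp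
    rcases hp with rfl | rfl | rfl
    · rwa [sub_zero]
    · exact hzQ2
    · rwa [sub_neg_eq_add]
  have good' : ∀ p ∈ ({0, Q, -Q} : Finset ℂ), -z - p ∉ L.lattice := by
    intro p hp h
    have h' := L.lattice.neg_mem h
    simp only [Finset.mem_insert, Finset.mem_singleton] at hp
    rcases hp with rfl | rfl | rfl
    · apply hz
      have e : -(-z - 0) = z := by ring
      rwa [e] at h'
    · apply hzQ1
      have e : -(-z - p) = z + p := by ring
      rwa [e] at h'
    · apply hzQ2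
      have e : -(-z - -Q) = z - Q := by ring
      rwa [e] at h'
  have v1 := hc z good
  have v2 := hc (-z) good'
  rw [FF_neg hPER, v1] at v2
  have c0 : c = 0 := by
    have h2 : (2 : ℂ) * c = 0 := by linear_combination -v2
    simpa using h2
  rw [c0, ← FF_eq] at v1
  exact sub_eq_zero.1 v1

end Pool.Agent.MU3B
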