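import Pool.Agent.MU3.StB

/-!
# MU3, block B: module INT (helper45)
-/

set_option autoImplicit false

namespace Pool.Agent.MU3B

open Complex Real Filter Topology MeasureTheory
open scoped ComplexConjugate

namespace INT45

theorem integrable_tsum {ι : Type} [Countable ι] {μ : Measure ℝ} {F : ι → ℝ → ℂ}
    (hF : ∀ i, Integrable (F i) μ) (hs : Summable fun i => ∫ a, ‖F i a‖ ∂μ) :
    Integrable (fun a => ∑' i, F i a) μ := by
  have hf'' : ∀ i, AEMeasurable (fun a => ‖F i a‖ₑ) μ := fun i => (hF i).1.enorm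
  have h1 : ∑' i, ∫⁻ a, ‖F i a‖ₑ ∂μ ≠ ⊤ := by
    have (i : ι) : ∫⁻ a, ‖F i a‖ₑ ∂μ = ‖∫ a, ‖F i a‖ ∂μ‖ₑ := by
      dsimp [enorm]
      rw [lintegral_coe_eq_integral _ (hF i).norm, ENNReal.coe_nnreal_eq, coe_nnnorm,
        Real.norm_of_nonneg (integral_nonneg (fun a => norm_nonneg (F i a)))]
      simp only [coe_nnnorm]
    rw [funext this]
    exact ENNReal.tsum_coe_ne_top_iff_summable.2 <| NNReal.summable_coe.1 hs.abs
  have h2 : ∀ᵐ a ∂μ, Summable fun i => F i a := by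
    rw [← lintegral_tsum hf''] at h1
    refine (ae_lt_top' (AEMeasurable.tsum hf'') h1).mono ?_
    intro x hx
    have h3 : Summable fun n => ((‖F n x‖₊ : NNReal) : ℝ) := by
      rw [← ENNReal.tsum_coe_ne_top_iff_summable_coe]
      exact hx.ne
    exact Summable.of_norm h3
  refine ⟨?_, ?_⟩
  · refine aestronglyMeasurable_of_tendsto_ae (u := (atTop : Filter (Finset ι)))
      (f := fun s a => ∑ i ∈ s, F i a) ?_ ?_
    · intro s
      exact (Finset.aestronglyMeasurable_fun_sum s fun i _ => (hF i).1)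
    · filter_upwards [h2] with a ha
      exact ha.hasSum
  · have h3 : ∫⁻ a, ‖∑' i, F i a‖ₑ ∂μ ≤ ∑' i, ∫⁻ a, ‖F i a‖ₑ ∂μ := by
      rw [← lintegral_tsum hf'']
      exact lintegral_mono fun a => enorm_tsum_le_tsum_enorm
    exact lt_of_le_of_lt h3 (lt_top_iff_ne_top.2 h1)

theorem absl {ι : Type} [Countable ι] (S : Set ℝ) (a : ι → ℂ) (φ : ι → ℝ → ℝ) (I : ι → ℝ)
    (hφ : ∀ i, a i ≠ 0 → IntegrableOn (φ i) S) (hpos : ∀ i t, 0 ≤ φ i t)
    (hI : ∀ i, a i ≠ 0 → ∫ t in S, φ i t = I i) (hs : Summable fun i => ‖a i‖ * I i) :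
    IntegrableOn (fun t => ∑' i, a i * (φ i t : ℂ)) S ∧
      ∫ t in S, ∑' i, a i * (φ i t : ℂ) = ∑' i, a i * (I i : ℂ) := by
  have h1 : ∀ i, Integrable (fun t => a i * (φ i t : ℂ)) (volume.restrict S) := by
    intro i
    by_cases h : a i = 0
    · simp only [h, zero_mul]
      exact integrable_zero _ _ _
    · exact ((hφ i h).ofReal).const_mul (a i)
  have h2 : ∀ i, ∫ t in S, ‖a i * (φ i t : ℂ)‖ = ‖a i‖ * I i := by
    intro i
    by_cases h : a i = 0
    · simp [h]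
    · rw [← hI i h, ← integral_const_mul]
      refine integral_congr_ae (Eventually.of_forall fun t => ?_)
      simp only [norm_mul, Complex.norm_real, Real.norm_of_nonneg (hpos i t)]
  have h3 : Summable fun i => ∫ t in S, ‖a i * (φ i t : ℂ)‖ := by
    simp only [h2]
    exact hs
  refine ⟨integrable_tsum h1 h3, ?_⟩
  rw [← integral_tsum_of_summable_integral_norm h1 h3]
  refine tsum_congr fun i => ?_
  by_cases h : a i = 0
  · simp [h]
  · have e : ∫ t in S, ((φ i t : ℝ) : ℂ) = ((∫ t in S, φ i t : ℝ) : ℂ) := integral_ofReal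
    rw [integral_const_mul, e, hI i h]

/-- integral over `(1, oo)` -/
theorem int1 {κ : ℝ} (hκ : 0 < κ) : IntegrableOn (fun t : ℝ => Real.exp (-(κ * t))) (Set.Ioi 1) ∧
    ∫ t in Set.Ioi (1 : ℝ), Real.exp (-(κ * t)) = Real.exp (-κ) / κ := by
  have h1 := integrableOn_exp_mul_Ioi (a := -κ) (by linarith) 1
  have h2 := integral_exp_mul_Ioi (a := -κ) (by linarith) 1
  simp only [neg_mul, mul_one] at h1 h2
  refine ⟨h1, ?_⟩
  rw [h2, neg_div_neg_eq]

/-- integral over `(0, 1)` -/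
theorem int0 {κ : ℝ} (hκ : 0 < κ) :
    IntegrableOn (fun t : ℝ => (t ^ 2)⁻¹ * Real.exp (-(κ * t⁻¹))) (Set.Ioc 0 1) ∧
    ∫ t in Set.Ioc (0 : ℝ) 1, (t ^ 2)⁻¹ * Real.exp (-(κ * t⁻¹)) = Real.exp (-κ) / κ := by
  have hbd : ∀ t : ℝ, 0 < t → (t ^ 2)⁻¹ * Real.exp (-(κ * t⁻¹)) ≤ 2 / κ ^ 2 := by
    intro t ht
    have h1 : (κ * t⁻¹) ^ 2 / 2 ≤ Real.exp (κ * t⁻¹) := by
      have := Real.quadratic_le_exp_of_nonneg (x := κ * t⁻¹) (by positivity)
      have h0 : 0 ≤ κ * t⁻¹ := by positivity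
      linarith
    rw [Real.exp_neg, ← div_eq_mul_inv, div_le_div_iff₀ (Real.exp_pos _) (by positivity)]
    have h2 : (t ^ 2)⁻¹ * κ ^ 2 = 2 * ((κ * t⁻¹) ^ 2 / 2) := by
      field_simp
    rw [h2]
    linarith
  have hmeas : Measurable (fun t : ℝ => (t ^ 2)⁻¹ * Real.exp (-(κ * t⁻¹))) := by
    fun_prop
  have hint : IntegrableOn (fun t : ℝ => (t ^ 2)⁻¹ * Real.exp (-(κ * t⁻¹))) (Set.Ioc 0 1) := by
    refine Measure.integrableOn_of_bounded (M := 2 / κ ^ 2) (by simp)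
      hmeas.aestronglyMeasurable ?_
    refine (ae_restrict_iff' measurableSet_Ioc).2 (Eventually.of_forall fun t ht => ?_)
    rw [Real.norm_of_nonneg (by have := ht.1; positivity)]
    exact hbd t ht.1
  refine ⟨hint, ?_⟩
  rw [← intervalIntegral.integral_of_le zero_le_one]
  have h1 := intervalIntegral.integral_eq_sub_of_hasDerivAt_of_tendsto (a := 0) (b := 1)
    (f := fun t : ℝ => Real.exp (-(κ * t⁻¹)) / κ)
    (f' := fun t : ℝ => (t ^ 2)⁻¹ * Real.exp (-(κ * t⁻¹))) (fa := 0) (fb := Real.exp (-κ) / κ)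
    zero_lt_one ?_ ?_ ?_ ?_
  · rw [h1, sub_zero]
  · intro t ht
    have ht0 : t ≠ 0 := ht.1.ne'
    have h2 : HasDerivAt (fun t : ℝ => -(κ * t⁻¹)) (-(κ * (-(t ^ 2)⁻¹))) t :=
      ((hasDerivAt_inv ht0).const_mul κ).neg
    have h3 := h2.exp.div_const κ
    have e : (t ^ 2)⁻¹ * Real.exp (-(κ * t⁻¹)) =
        Real.exp (-(κ * t⁻¹)) * -(κ * -(t ^ 2)⁻¹) / κ := by
      rw [eq_div_iff hκ.ne']
      ring
    show HasDerivAt _ ((t ^ 2)⁻¹ * Real.exp (-(κ * t⁻¹))) t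
    rw [e]
    exact h3
  · rw [intervalIntegrable_iff_integrableOn_Ioc_of_le zero_le_one]
    exact hint
  · have h2 : Tendsto (fun t : ℝ => κ * t⁻¹) (𝓝[>] 0) atTop :=
      tendsto_inv_nhdsGT_zero.const_mul_atTop hκ
    have h3 : Tendsto (fun t : ℝ => Real.exp (-(κ * t⁻¹))) (𝓝[>] 0) (𝓝 0) :=
      Real.tendsto_exp_neg_atTop_nhds_zero.comp h2
    simpa using h3.div_const κ
  · have h2 : ContinuousAt (fun t : ℝ => Real.exp (-(κ * t⁻¹)) / κ) 1 := by
      have : ContinuousAt (fun t : ℝ => t⁻¹) 1 := continuousAt_inv₀ one_ne_zero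
      fun_prop
    have h3 := h2.tendsto
    simp only [inv_one, mul_one] at h3
    exact h3.mono_left nhdsWithin_le_nhds

/-- the points `z + w` are `0` or bounded away from `0` -/
theorem sep (hLAT : St_LAT) (L : PeriodPair) (z : ℂ) : ∃ δ : ℝ, 0 < δ ∧
    ∀ w : L.lattice, z + w ≠ 0 → δ ≤ ‖z + w‖ := by
  obtain ⟨_, _, _, _, _, _, _, _, δ, hδ, hmin⟩ := hLAT L
  by_cases h : ∃ w₀ : L.lattice, z + w₀ ≠ 0 ∧ ‖z + w₀‖ < δ / 2
  · obtain ⟨w₀, h0, h1⟩ := h
    refine ⟨‖z + w₀‖, norm_pos_iff.2 h0, fun w hw => ?_⟩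
    by_cases hww : w = w₀
    · rw [hww]
    · have h2 := hmin ((w : ℂ) - w₀) (sub_mem w.2 w₀.2) (fun h => hww (Subtype.ext (sub_eq_zero.1 h)))
      have h3 : ‖(w : ℂ) - w₀‖ ≤ ‖z + w‖ + ‖z + w₀‖ := by
        have : (w : ℂ) - w₀ = (z + w) - (z + w₀) := by ring
        rw [this]
        exact norm_sub_le _ _
      linarith
  · push Not at h
    exact ⟨δ / 2, by linarith, fun w hw => h w hw⟩

theorem key (hSUM : St_SUM) (hLAT : St_LAT) (hPOD : St_POD) (L : PeriodPair) (z : ℂ) :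
    IntegrableOn (fun t : ℝ => ∑' w : L.lattice,
      conj (z + w) * (Real.exp (-(π / area L * t * ‖z + w‖ ^ 2)) : ℝ)) (Set.Ioi 0) ∧
    (∫ t in Set.Ioi (0 : ℝ), ∑' w : L.lattice,
      conj (z + w) * (Real.exp (-(π / area L * t * ‖z + w‖ ^ 2)) : ℝ)) =
        ee L z / (π / area L : ℝ) := by
  obtain ⟨hA, hpr, _, _, _, _, _, _, δ₀, hδ₀, hmin⟩ := hLAT L
  obtain ⟨δ, hδ, hsep⟩ := sep hLAT L z
  set κ : ℝ := π / area L with hκ
  have hκ0 : 0 < κ := div_pos Real.pi_pos hA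
  obtain ⟨u, hus, hu⟩ := hSUM L κ hκ0 0 ‖z‖
  have hu1 : ∀ w : L.lattice, Real.exp (-(κ * ‖z + w‖ ^ 2)) ≤ u w := by
    intro w
    have := (hu w z le_rfl).1
    rwa [pow_zero, one_mul] at this
  have hu2 : ∀ w : L.lattice, Real.exp (-(κ * ‖(w : ℂ)‖ ^ 2)) ≤ u w := by
    intro w
    have := (hu w z le_rfl).2
    rwa [pow_zero, one_mul] at this
  -- the part over (1, oo)
  have P1 := absl (Set.Ioi (1 : ℝ)) (fun w : L.lattice => conj (z + w))
    (fun w t => Real.exp (-(κ * ‖z + w‖ ^ 2 * t)))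
    (fun w => Real.exp (-(κ * ‖z + w‖ ^ 2)) / (κ * ‖z + w‖ ^ 2)) (by
      intro w hw
      have h0 : 0 < ‖z + w‖ := by
        rw [← RCLike.norm_conj]
        exact norm_pos_iff.2 hw
      exact (int1 (κ := κ * ‖z + w‖ ^ 2) (by positivity)).1) (by
      intro w t
      exact (Real.exp_pos _).le) (by
      intro w hw
      have h0 : 0 < ‖z + w‖ := by
        rw [← RCLike.norm_conj]
        exact norm_pos_iff.2 hw
      exact (int1 (κ := κ * ‖z + w‖ ^ 2) (by positivity)).2) (by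
      refine Summable.of_nonneg_of_le (fun w => by positivity) (fun w => ?_)
        (hus.mul_left (1 / (κ * δ)))
      rw [RCLike.norm_conj]
      by_cases h : z + (w : ℂ) = 0
      · rw [h, norm_zero, zero_mul]
        have := (Real.exp_pos _).le.trans (hu1 w)
        positivity
      · have h0 : 0 < ‖z + w‖ := norm_pos_iff.2 h
        have h1 := hsep w h
        calc ‖z + w‖ * (Real.exp (-(κ * ‖z + w‖ ^ 2)) / (κ * ‖z + w‖ ^ 2))
            = (1 / (κ * ‖z + w‖)) * Real.exp (-(κ * ‖z + w‖ ^ 2)) := by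
              field_simp
          _ ≤ (1 / (κ * δ)) * u w := by
              refine mul_le_mul ?_ (hu1 w) (Real.exp_pos _).le (by positivity)
              refine one_div_le_one_div_of_le (by positivity) ?_
              exact mul_le_mul_of_nonneg_left h1 hκ0.le)
  -- the part over (0, 1)
  have P0 := absl (Set.Ioc (0 : ℝ) 1) (fun w : L.lattice => -(conj (w : ℂ) * pr L w z))
    (fun w t => (t ^ 2)⁻¹ * Real.exp (-(κ * ‖(w : ℂ)‖ ^ 2 * t⁻¹)))
    (fun w => Real.exp (-(κ * ‖(w : ℂ)‖ ^ 2)) / (κ * ‖(w : ℂ)‖ ^ 2)) (by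
      intro w hw
      have h0 : 0 < ‖(w : ℂ)‖ := by
        rw [norm_pos_iff]
        rintro h
        exact hw (by rw [h]; simp)
      exact (int0 (κ := κ * ‖(w : ℂ)‖ ^ 2) (by positivity)).1) (by
      intro w t
      exact mul_nonneg (by positivity) (Real.exp_pos _).le) (by
      intro w hw
      have h0 : 0 < ‖(w : ℂ)‖ := by
        rw [norm_pos_iff]
        rintro h
        exact hw (by rw [h]; simp)
      exact (int0 (κ := κ * ‖(w : ℂ)‖ ^ 2) (by positivity)).2) (by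
      refine Summable.of_nonneg_of_le (fun w => by positivity) (fun w => ?_)
        (hus.mul_left (1 / (κ * δ₀)))
      rw [norm_neg, norm_mul, RCLike.norm_conj, hpr, mul_one]
      by_cases h : (w : ℂ) = 0
      · rw [h, norm_zero, zero_mul]
        have := (Real.exp_pos _).le.trans (hu1 w)
        positivity
      · have h0 : 0 < ‖(w : ℂ)‖ := norm_pos_iff.2 h
        have h1 := hmin w w.2 h
        calc ‖(w : ℂ)‖ * (Real.exp (-(κ * ‖(w : ℂ)‖ ^ 2)) / (κ * ‖(w : ℂ)‖ ^ 2))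
            = (1 / (κ * ‖(w : ℂ)‖)) * Real.exp (-(κ * ‖(w : ℂ)‖ ^ 2)) := by
              field_simp
          _ ≤ (1 / (κ * δ₀)) * u w := by
              refine mul_le_mul ?_ (hu2 w) (Real.exp_pos _).le (by positivity)
              refine one_div_le_one_div_of_le (by positivity) ?_
              exact mul_le_mul_of_nonneg_left h1 hκ0.le)
  -- the integrand
  have e1 : ∀ t ∈ Set.Ioi (1 : ℝ), (∑' w : L.lattice, conj (z + w) *
      ((Real.exp (-(κ * ‖z + w‖ ^ 2 * t)) : ℝ) : ℂ)) = ∑' w : L.lattice,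
      conj (z + w) * ((Real.exp (-(κ * t * ‖z + w‖ ^ 2)) : ℝ) : ℂ) := by
    intro t _
    refine tsum_congr fun w => ?_
    rw [mul_right_comm κ t]
  have e0 : ∀ t ∈ Set.Ioc (0 : ℝ) 1, (∑' w : L.lattice, -(conj (w : ℂ) * pr L w z) *
      (((t ^ 2)⁻¹ * Real.exp (-(κ * ‖(w : ℂ)‖ ^ 2 * t⁻¹)) : ℝ) : ℂ)) = ∑' w : L.lattice,
      conj (z + w) * ((Real.exp (-(κ * t * ‖z + w‖ ^ 2)) : ℝ) : ℂ) := by
    intro t ht
    have ht0 : 0 < t := ht.1
    have h1 := hPOD L t⁻¹ (inv_pos.2 ht0) z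
    have h2 : (∑' w : L.lattice, conj (z + w) *
        ((Real.exp (-(κ * t * ‖z + w‖ ^ 2)) : ℝ) : ℂ)) = ∑' w : L.lattice, conj (z + w) *
        (Real.exp (-(π * ‖z + w‖ ^ 2 / (area L * t⁻¹))) : ℝ) := by
      refine tsum_congr fun w => ?_
      congr 3
      rw [hκ]
      field_simp
    rw [h2, h1, ← tsum_mul_left]
    refine tsum_congr fun w => ?_
    have h3 : Real.exp (-(π * t⁻¹ * ‖(w : ℂ)‖ ^ 2 / area L)) =
        Real.exp (-(κ * ‖(w : ℂ)‖ ^ 2 * t⁻¹)) := by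
      congr 1
      rw [hκ]
      ring
    rw [h3]
    push_cast
    ring
  have i1 : IntegrableOn (fun t : ℝ => ∑' w : L.lattice,
      conj (z + w) * ((Real.exp (-(κ * t * ‖z + w‖ ^ 2)) : ℝ) : ℂ)) (Set.Ioi 1) :=
    P1.1.congr_fun e1 measurableSet_Ioi
  have i0 : IntegrableOn (fun t : ℝ => ∑' w : L.lattice,
      conj (z + w) * ((Real.exp (-(κ * t * ‖z + w‖ ^ 2)) : ℝ) : ℂ)) (Set.Ioc 0 1) :=
    P0.1.congr_fun e0 measurableSet_Ioc
  have j1 := P1.2
  rw [setIntegral_congr_fun measurableSet_Ioi e1] at j1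
  have j0 := P0.2
  rw [setIntegral_congr_fun measurableSet_Ioc e0] at j0
  have hun : Set.Ioi (0 : ℝ) = Set.Ioc 0 1 ∪ Set.Ioi 1 := (Set.Ioc_union_Ioi_eq_Ioi zero_le_one).symm
  refine ⟨?_, ?_⟩
  · rw [hun]
    exact i0.union i1
  · rw [hun, setIntegral_union (Set.Ioc_disjoint_Ioi le_rfl) measurableSet_Ioi i0 i1, j0, j1]
    unfold ee
    rw [sub_div, ← tsum_div_const, ← tsum_div_const, sub_eq_neg_add, ← tsum_neg]
    congr 1
    · refine tsum_congr fun w => ?_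
      by_cases h : (w : ℂ) = 0
      · rw [h]
        simp
      · have hex : Real.exp (-(π * ‖(w : ℂ)‖ ^ 2 / area L)) = Real.exp (-(κ * ‖(w : ℂ)‖ ^ 2)) := by
          congr 1
          rw [hκ]
          ring
        rw [hex]
        have hn : ((‖(w : ℂ)‖ : ℝ) : ℂ) ^ 2 = (w : ℂ) * conj (w : ℂ) := by
          rw [Complex.mul_conj, Complex.normSq_eq_norm_sq]
          push_cast
          ring
        have hc0 : conj (w : ℂ) ≠ 0 := by
          rwa [Ne, map_eq_zero]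
        have hκc : (κ : ℂ) ≠ 0 := by exact_mod_cast hκ0.ne'
        rw [Complex.ofReal_div, Complex.ofReal_mul, Complex.ofReal_pow, hn]
        field_simp
    · refine tsum_congr fun w => ?_
      by_cases h : z + (w : ℂ) = 0
      · rw [h]
        simp
      · have hex : Real.exp (-(π * ‖z + w‖ ^ 2 / area L)) = Real.exp (-(κ * ‖z + w‖ ^ 2)) := by
          congr 1
          rw [hκ]
          ring
        rw [hex]
        have hn : ((‖z + (w : ℂ)‖ : ℝ) : ℂ) ^ 2 = (z + (w : ℂ)) * conj (z + (w : ℂ)) := by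
          rw [Complex.mul_conj, Complex.normSq_eq_norm_sq]
          push_cast
          ring
        have hc0 : conj (z + (w : ℂ)) ≠ 0 := by
          rwa [Ne, map_eq_zero]
        have hκc : (κ : ℂ) ≠ 0 := by exact_mod_cast hκ0.ne'
        rw [Complex.ofReal_div, Complex.ofReal_mul, Complex.ofReal_pow, hn]
        field_simp

end INT45

open INT45 in
/-- (INT) -/
theorem t_INT (hSUM : St_SUM) (hLAT : St_LAT) (hPOD : St_POD) (_ : St_PER) : St_INT := by
  intro L c hc z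
  obtain ⟨hA, _⟩ := hLAT L
  have hκ0 : 0 < π / area L := div_pos Real.pi_pos hA
  obtain ⟨h1, h2⟩ := key hSUM hLAT hPOD L z
  set H : ℝ → ℂ := fun s => ∑' w : L.lattice,
    conj (z + w) * (Real.exp (-(s * ‖z + w‖ ^ 2)) : ℝ) with hH
  have h3 : IntegrableOn (fun t => H (π / area L * t)) (Set.Ioi 0) := h1
  have h4 : ∫ t in Set.Ioi (0 : ℝ), H (π / area L * t) = ee L z / (π / area L : ℝ) := h2
  rw [integrableOn_Ioi_comp_mul_left_iff H 0 hκ0, mul_zero] at h3
  rw [integral_comp_mul_left_Ioi H 0 hκ0, mul_zero] at h4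
  have h5 : ∫ t in Set.Ioi (0 : ℝ), H t = ee L z := by
    have h6 : ((π / area L : ℝ) : ℂ) ≠ 0 := by exact_mod_cast hκ0.ne'
    have h7 : ∫ t in Set.Ioi (0 : ℝ), H t =
        (π / area L : ℝ) * ((π / area L)⁻¹ • ∫ t in Set.Ioi (0 : ℝ), H t) := by
      rw [Complex.real_smul, Complex.ofReal_inv, mul_inv_cancel_left₀ h6]
    rw [h7, h4, mul_div_cancel₀ _ h6]
  refine ⟨?_, ?_⟩
  · show IntegrableOn (fun t => H (c * t)) (Set.Ioi 0)
    rw [integrableOn_Ioi_comp_mul_left_iff H 0 hc, mul_zero]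
    exact h3
  · show ∫ t in Set.Ioi (0 : ℝ), H (c * t) = ee L z / c
    rw [integral_comp_mul_left_Ioi H 0 hc, mul_zero, h5, Complex.real_smul, Complex.ofReal_inv,
      div_eq_inv_mul]

end Pool.Agent.MU3B
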