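import Pool.Agent.MU3.StB

/-!
# MU3B_LAT
-/

set_option autoImplicit false

namespace Pool.Agent.MU3B

open Complex Real Filter Topology
open scoped ComplexConjugate

namespace LAT

lemma area_pos (L : PeriodPair) : 0 < area L := by
  unfold area
  rw [abs_pos]
  intro h
  have h1 := L.indep
  rw [LinearIndependent.pair_iff] at h1
  have him : (conj L.ω₁ * L.ω₂).im = L.ω₁.re * L.ω₂.im - L.ω₁.im * L.ω₂.re := by
    simp [Complex.mul_im]; ring
  rw [him] at h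
  -- `|ω₁|² ω₂ = (re) ω₁`
  obtain ⟨a, ha⟩ : ∃ a : ℝ, a = -(L.ω₁.re * L.ω₂.re + L.ω₁.im * L.ω₂.im) := ⟨_, rfl⟩
  obtain ⟨b, hb⟩ : ∃ b : ℝ, b = L.ω₁.re ^ 2 + L.ω₁.im ^ 2 := ⟨_, rfl⟩
  have key : a • L.ω₁ + b • L.ω₂ = 0 := by
    apply Complex.ext
    · simp only [Complex.add_re, Complex.real_smul, Complex.mul_re, Complex.ofReal_re,
        Complex.ofReal_im, Complex.zero_re]
      rw [ha, hb]
      linear_combination (-L.ω₁.im) * h
    · simp only [Complex.add_im, Complex.real_smul, Complex.mul_im, Complex.ofReal_re,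
        Complex.ofReal_im, Complex.zero_im]
      rw [ha, hb]
      linear_combination (L.ω₁.re) * h
  obtain ⟨-, h2⟩ := h1 _ _ key
  rw [hb] at h2
  have h3 : L.ω₁.re = 0 := by nlinarith [sq_nonneg L.ω₁.re, sq_nonneg L.ω₁.im]
  have h4 : L.ω₁.im = 0 := by nlinarith [sq_nonneg L.ω₁.re, sq_nonneg L.ω₁.im]
  have h5 : L.ω₁ = 0 := Complex.ext h3 h4
  have h6 := h1 1 0 (by rw [h5]; simp)
  exact one_ne_zero h6.1

/-- the exponent is `i` times a real number -/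
lemma expo (w z : ℂ) : conj w * z - w * conj z = ((2 * (conj w * z).im : ℝ) : ℂ) * I := by
  apply Complex.ext
  · simp [mul_comm]
  · simp
    ring

lemma pr_eq (L : PeriodPair) (w z : ℂ) :
    pr L w z = Complex.exp (((π / area L * (2 * (conj w * z).im) : ℝ) : ℂ) * I) := by
  unfold pr
  rw [expo]
  congr 1
  push_cast
  ring

lemma pr_norm (L : PeriodPair) (w z : ℂ) : ‖pr L w z‖ = 1 := by
  rw [pr_eq, Complex.norm_exp_ofReal_mul_I]

lemma pr_add_right (L : PeriodPair) (w z z' : ℂ) :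
    pr L w (z + z') = pr L w z * pr L w z' := by
  unfold pr
  rw [← Complex.exp_add]
  congr 1
  rw [map_add]
  ring

lemma pr_add_left (L : PeriodPair) (w w' z : ℂ) :
    pr L (w + w') z = pr L w z * pr L w' z := by
  unfold pr
  rw [← Complex.exp_add]
  congr 1
  rw [map_add]
  ring

lemma pr_neg_left (L : PeriodPair) (w z : ℂ) : pr L (-w) z = conj (pr L w z) := by
  unfold pr
  rw [← Complex.exp_conj]
  congr 1
  simp only [map_mul, map_sub, map_neg, Complex.conj_ofReal, Complex.conj_conj]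
  ring

lemma pr_neg_right (L : PeriodPair) (w z : ℂ) : pr L w (-z) = conj (pr L w z) := by
  unfold pr
  rw [← Complex.exp_conj]
  congr 1
  simp only [map_mul, map_sub, map_neg, Complex.conj_ofReal, Complex.conj_conj]
  ring

lemma im_comb (L : PeriodPair) (x y x' y' : ℝ) :
    (conj ((x : ℂ) * L.ω₁ + y * L.ω₂) * (x' * L.ω₁ + y' * L.ω₂)).im =
      (x * y' - y * x') * (conj L.ω₁ * L.ω₂).im := by
  simp [Complex.mul_im, Complex.mul_re]
  ring

lemma sgn_area (L : PeriodPair) : ∃ ε : ℝ, (ε = 1 ∨ ε = -1) ∧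
    (conj L.ω₁ * L.ω₂).im = ε * area L := by
  unfold area
  rcases abs_choice (conj L.ω₁ * L.ω₂).im with h | h
  · exact ⟨1, Or.inl rfl, by rw [h, one_mul]⟩
  · exact ⟨-1, Or.inr rfl, by rw [h]; ring⟩

lemma pr_comb (L : PeriodPair) (x y x' y' : ℝ) : ∃ ε : ℝ, (ε = 1 ∨ ε = -1) ∧
    pr L ((x : ℂ) * L.ω₁ + y * L.ω₂) (x' * L.ω₁ + y' * L.ω₂) =
      Complex.exp (((ε * (x * y' - y * x') : ℝ) : ℂ) * (2 * π * I)) := by
  obtain ⟨ε, hε, h⟩ := sgn_area L
  refine ⟨ε, hε, ?_⟩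
  rw [pr_eq, im_comb, h]
  congr 1
  have hA := (area_pos L).ne'
  have hA' : ((area L : ℝ) : ℂ) ≠ 0 := by exact_mod_cast hA
  push_cast
  field_simp

lemma pr_one (L : PeriodPair) (w z : ℂ) (hw : w ∈ L.lattice) (hz : z ∈ L.lattice) :
    pr L w z = 1 := by
  obtain ⟨m, n, rfl⟩ := PeriodPair.mem_lattice.1 hw
  obtain ⟨m', n', rfl⟩ := PeriodPair.mem_lattice.1 hz
  obtain ⟨ε, hε, h⟩ := pr_comb L m n m' n'
  have h1 : pr L ((m : ℂ) * L.ω₁ + n * L.ω₂) (m' * L.ω₁ + n' * L.ω₂) =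
      pr L (((m : ℝ) : ℂ) * L.ω₁ + ((n : ℝ) : ℂ) * L.ω₂)
        (((m' : ℝ) : ℂ) * L.ω₁ + ((n' : ℝ) : ℂ) * L.ω₂) := by push_cast; rfl
  rw [h1, h]
  have h2 : ∃ j : ℤ, ε * ((m : ℝ) * n' - n * m') = j := by
    rcases hε with rfl | rfl
    · exact ⟨m * n' - n * m', by push_cast; ring⟩
    · exact ⟨-(m * n' - n * m'), by push_cast; ring⟩
  obtain ⟨j, hj⟩ := h2
  rw [hj]
  exact_mod_cast Complex.exp_int_mul_two_pi_mul_I j

lemma int_of_exp {x : ℝ} (h : Complex.exp ((x : ℂ) * (2 * π * I)) = 1) : ∃ n : ℤ, x = n := by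
  obtain ⟨n, hn⟩ := Complex.exp_eq_one_iff.1 h
  refine ⟨n, ?_⟩
  have h2 : (2 * π * I : ℂ) ≠ 0 := Complex.two_pi_I_ne_zero
  have := mul_right_cancel₀ h2 hn
  exact_mod_cast this

lemma dual (L : PeriodPair) (u : ℂ) (h : ∀ v ∈ L.lattice, pr L u v = 1) : u ∈ L.lattice := by
  have hb := L.basis.sum_repr u
  rw [Fin.sum_univ_two] at hb
  simp only [PeriodPair.basis_zero, PeriodPair.basis_one, Complex.real_smul] at hb
  set x : ℝ := L.basis.repr u 0 with hx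
  set y : ℝ := L.basis.repr u 1 with hy
  have h1 := h L.ω₂ L.ω₂_mem_lattice
  have h2 := h L.ω₁ L.ω₁_mem_lattice
  rw [← hb] at h1 h2
  obtain ⟨ε, hε, e1⟩ := pr_comb L x y 0 1
  obtain ⟨ε', hε', e2⟩ := pr_comb L x y 1 0
  simp only [Complex.ofReal_zero, Complex.ofReal_one, zero_mul, one_mul, zero_add, add_zero,
    mul_one, mul_zero, sub_zero, zero_sub] at e1 e2
  rw [e1] at h1
  rw [e2] at h2
  obtain ⟨m, hm⟩ := int_of_exp h1
  obtain ⟨n, hn⟩ := int_of_exp h2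
  have hxi : ∃ m' : ℤ, x = m' := by
    rcases hε with rfl | rfl
    · exact ⟨m, by linarith⟩
    · exact ⟨-m, by push_cast; linarith⟩
  have hyi : ∃ n' : ℤ, y = n' := by
    rcases hε' with rfl | rfl
    · exact ⟨-n, by push_cast; linarith⟩
    · exact ⟨n, by linarith⟩
  obtain ⟨m', hm'⟩ := hxi
  obtain ⟨n', hn'⟩ := hyi
  rw [PeriodPair.mem_lattice]
  refine ⟨m', n', ?_⟩
  rw [← hb, hm', hn']
  push_cast
  rfl

lemma disc (L : PeriodPair) : ∃ δ : ℝ, 0 < δ ∧ ∀ w ∈ L.lattice, w ≠ 0 → δ ≤ ‖w‖ := by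
  have h := L.compl_lattice_sdiff_singleton_mem_nhds 0
  rw [Metric.mem_nhds_iff] at h
  obtain ⟨δ, hδ, hsub⟩ := h
  refine ⟨δ, hδ, fun w hw hw0 => ?_⟩
  by_contra hlt
  have h1 : w ∈ Metric.ball (0 : ℂ) δ := by
    rw [mem_ball_zero_iff]
    exact not_le.1 hlt
  exact hsub h1 ⟨hw, hw0⟩

end LAT

theorem t_LAT : St_LAT := by
  intro L
  exact ⟨LAT.area_pos L, LAT.pr_norm L, LAT.pr_add_right L, LAT.pr_add_left L,
    LAT.pr_neg_left L, LAT.pr_neg_right L, fun w hw z hz => LAT.pr_one L w z hw hz,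
    LAT.dual L, LAT.disc L⟩

end Pool.Agent.MU3B
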