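import Pool.Agent.MU3.StB

/-!
# MU3, block B: Liouville for doubly periodic functions with removable singularities
-/

set_option autoImplicit false

namespace Pool.Agent.MU3B

open Complex Real Filter Topology
open scoped ComplexConjugate

namespace LIO

/-- Points of `P + L` are isolated. -/
theorem isolated (L : PeriodPair) (P : Finset ℂ) (z₀ : ℂ) :
    ∀ᶠ z in 𝓝 z₀, ∀ p ∈ P, z - p ∈ L.lattice → z = z₀ := by
  rw [Filter.eventually_all_finset]
  intro p _
  have h1 := L.compl_lattice_sdiff_singleton_mem_nhds (z₀ - p)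
  have h2 : Tendsto (fun z : ℂ => z - p) (𝓝 z₀) (𝓝 (z₀ - p)) :=
    (continuous_id.sub continuous_const).tendsto z₀
  filter_upwards [h2 h1] with z hz hm
  by_contra hne
  apply hz
  refine ⟨hm, fun h => hne ?_⟩
  have h3 : z - p = z₀ - p := h
  exact sub_left_injective h3

/-- Every point is congruent to a point of a compact set. -/
theorem exists_compact (L : PeriodPair) :
    ∃ K : Set ℂ, IsCompact K ∧ ∀ z : ℂ, ∃ v ∈ L.lattice, z + v ∈ K := by
  have hcont : Continuous fun x : ℝ × ℝ => (x.1 : ℂ) * L.ω₁ + (x.2 : ℂ) * L.ω₂ := by fun_prop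
  refine ⟨(fun x : ℝ × ℝ => (x.1 : ℂ) * L.ω₁ + (x.2 : ℂ) * L.ω₂) '' (Set.Icc 0 1 ×ˢ Set.Icc 0 1),
    (isCompact_Icc.prod isCompact_Icc).image hcont, fun z => ?_⟩
  set x : ℝ := L.basis.repr z 0 with hx
  set y : ℝ := L.basis.repr z 1 with hy
  have hz : z = (x : ℂ) * L.ω₁ + (y : ℂ) * L.ω₂ := by
    have h := L.basis.sum_repr z
    rw [Fin.sum_univ_two, L.basis_zero, L.basis_one] at h
    rw [← h]
    simp only [Complex.real_smul, hx, hy]
  refine ⟨-((⌊x⌋ : ℤ) • L.ω₁ + (⌊y⌋ : ℤ) • L.ω₂), ?_, ?_⟩
  · exact neg_mem (add_mem (L.lattice.smul_mem _ L.ω₁_mem_lattice)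
      (L.lattice.smul_mem _ L.ω₂_mem_lattice))
  · refine ⟨(Int.fract x, Int.fract y), ⟨⟨Int.fract_nonneg _, (Int.fract_lt_one _).le⟩,
      ⟨Int.fract_nonneg _, (Int.fract_lt_one _).le⟩⟩, ?_⟩
    show ((Int.fract x : ℝ) : ℂ) * L.ω₁ + ((Int.fract y : ℝ) : ℂ) * L.ω₂ = _
    rw [zsmul_eq_mul, zsmul_eq_mul, ← Int.self_sub_floor x, ← Int.self_sub_floor y]
    push_cast
    linear_combination (-1 : ℂ) * hz

end LIO

open LIO in
open Classical in
theorem t_LIO : St_LIO := by
  intro L f P hper hdiff hlim
  set g : ℂ → ℂ := fun z => if (∀ p ∈ P, z - p ∉ L.lattice) then f z else limUnder (𝓝[≠] z) f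
    with hg
  have hgf : ∀ z, (∀ p ∈ P, z - p ∉ L.lattice) → g z = f z := fun z hz => if_pos hz
  -- periodicity
  have hgper : ∀ z, ∀ v ∈ L.lattice, g (z + v) = g z := by
    intro z v hv
    have e1 : (∀ p ∈ P, z + v - p ∉ L.lattice) ↔ (∀ p ∈ P, z - p ∉ L.lattice) := by
      refine forall₂_congr fun p _ => not_congr ?_
      have e : z + v - p = (z - p) + v := by ring
      rw [e]
      exact L.lattice.add_mem_iff_left hv
    by_cases h : ∀ p ∈ P, z - p ∉ L.lattice
    · rw [hgf z h, hgf (z + v) (e1.2 h), hper z v hv]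
    · have h' : ¬ ∀ p ∈ P, z + v - p ∉ L.lattice := fun h2 => h (e1.1 h2)
      rw [hg]
      simp only [if_neg h, if_neg h']
      have e2 : map (fun w : ℂ => w + v) (𝓝[≠] z) = 𝓝[≠] (z + v) := by
        have := (Homeomorph.addRight v).isOpenEmbedding.map_nhdsWithin_eq {z}ᶜ z
        rw [Homeomorph.coe_addRight] at this
        rw [this]
        congr 1
        ext w
        simp only [Set.mem_image, Set.mem_compl_iff, Set.mem_singleton_iff]
        constructor
        · rintro ⟨u, hu, rfl⟩ h3
          exact hu (add_right_cancel h3)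
        · intro hw
          exact ⟨w - v, fun h3 => hw (by rw [← h3]; ring), by ring⟩
      show lim (map f (𝓝[≠] (z + v))) = lim (map f (𝓝[≠] z))
      rw [← e2, map_map]
      congr 2
      funext w
      exact hper w v hv
  -- differentiability
  have hgd : Differentiable ℂ g := by
    intro z₀
    have hiso := isolated L P z₀
    by_cases h : ∀ p ∈ P, z₀ - p ∉ L.lattice
    · have hev : g =ᶠ[𝓝 z₀] f := by
        filter_upwards [hiso] with z hz
        apply hgf
        intro p hp hm
        have := hz p hp hm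
        rw [this] at hm
        exact h p hp hm
      exact (hdiff z₀ h).congr_of_eventuallyEq hev
    · push Not at h
      obtain ⟨p, hp, hm⟩ := h
      obtain ⟨s, hs, hs'⟩ := Filter.Eventually.exists_mem hiso
      have hnot : ¬ ∀ p ∈ P, z₀ - p ∉ L.lattice := fun h2 => h2 p hp hm
      have hoff : ∀ z ∈ s, z ≠ z₀ → ∀ p ∈ P, z - p ∉ L.lattice := fun z hz hne p hp h2 =>
        hne (hs' z hz p hp h2)
      have hd : DifferentiableOn ℂ f (s \ {z₀}) := fun z hz =>
        (hdiff z (hoff z hz.1 hz.2)).differentiableWithinAt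
      have ht : Tendsto (fun z => (z - z₀) * f z) (𝓝[≠] z₀) (𝓝 0) := by
        have h1 : Tendsto (fun z : ℂ => z - (z₀ - p)) (𝓝[≠] z₀) (𝓝[≠] p) := by
          rw [tendsto_nhdsWithin_iff]
          constructor
          · have h2 : Tendsto (fun z : ℂ => z - (z₀ - p)) (𝓝 z₀) (𝓝 (z₀ - (z₀ - p))) :=
              (continuous_id.sub continuous_const).tendsto z₀
            rw [sub_sub_cancel] at h2
            exact h2.mono_left nhdsWithin_le_nhds
          · filter_upwards [self_mem_nhdsWithin] with z hz h2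
            apply hz
            have h3 : z - (z₀ - p) = p := h2
            have h4 : z = z₀ := by linear_combination h3
            exact h4
        have h2 := (hlim p hp).comp h1
        refine h2.congr fun z => ?_
        have e : f (z - (z₀ - p)) = f z := by
          rw [← hper (z - (z₀ - p)) (z₀ - p) hm, sub_add_cancel]
        show (z - (z₀ - p) - p) * f (z - (z₀ - p)) = (z - z₀) * f z
        rw [e]
        ring
      have ho : (fun z => f z - f z₀) =o[𝓝[≠] z₀] fun z => (z - z₀)⁻¹ := by
        rw [Asymptotics.isLittleO_iff_tendsto']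
        · have h1 : Tendsto (fun z : ℂ => (z - z₀) * f z₀) (𝓝[≠] z₀) (𝓝 0) := by
            have h2 : Tendsto (fun z : ℂ => (z - z₀) * f z₀) (𝓝 z₀) (𝓝 ((z₀ - z₀) * f z₀)) :=
              ((continuous_id.sub continuous_const).mul continuous_const).tendsto z₀
            rw [sub_self, zero_mul] at h2
            exact h2.mono_left nhdsWithin_le_nhds
          have h2 := ht.sub h1
          rw [sub_zero] at h2
          refine h2.congr fun z => ?_
          rw [div_inv_eq_mul]
          ring
        · filter_upwards [self_mem_nhdsWithin] with z hz h2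
          exact absurd (sub_eq_zero.1 (inv_eq_zero.1 h2)) hz
      have hup := Complex.differentiableOn_update_limUnder_of_isLittleO hs hd ho
      have hupd := (hup z₀ (mem_of_mem_nhds hs)).differentiableAt hs
      refine hupd.congr_of_eventuallyEq ?_
      filter_upwards [hs] with z hz
      by_cases hzz : z = z₀
      · rw [hzz, Function.update_self]
        exact if_neg hnot
      · rw [Function.update_of_ne hzz]
        exact hgf z (hoff z hz hzz)
  -- boundedness
  obtain ⟨K, hK, hKz⟩ := exists_compact L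
  obtain ⟨C, hC⟩ := hK.exists_bound_of_continuousOn hgd.continuous.continuousOn
  have hb : Bornology.IsBounded (Set.range g) := by
    rw [isBounded_iff_forall_norm_le]
    refine ⟨C, ?_⟩
    rintro _ ⟨z, rfl⟩
    obtain ⟨v, hv, hz⟩ := hKz z
    rw [← hgper z v hv]
    exact hC _ hz
  exact ⟨g 0, fun z hz => by rw [← hgf z hz]; exact hgd.apply_eq_apply_of_bounded hb z 0⟩

end Pool.Agent.MU3B
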