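import Mathlib
import Pool.Agent.MU3.StB

/-!
# MU3, block B, module NUM: `a⁻¹ L / L` has `|a|²` elements
-/

set_option autoImplicit false

namespace Pool.Agent.MU3B

open Complex Real Filter Topology
open scoped ComplexConjugate

namespace NUM

/-- multiplication by `a` on the lattice -/
noncomputable def mulL (L : PeriodPair) (a : ℂ) (haL : ∀ w ∈ L.lattice, a * w ∈ L.lattice) :
    L.lattice →ₗ[ℤ] L.lattice where
  toFun w := ⟨a * w, haL w w.2⟩
  map_add' x y := Subtype.ext (by simp [mul_add])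
  map_smul' n x := Subtype.ext (by simp [mul_left_comm])

theorem mulL_coe (L : PeriodPair) (a : ℂ) (haL : ∀ w ∈ L.lattice, a * w ∈ L.lattice)
    (w : L.lattice) : (mulL L a haL w : ℂ) = a * w := rfl

theorem mulL_inj (L : PeriodPair) (a : ℂ) (ha : a ≠ 0)
    (haL : ∀ w ∈ L.lattice, a * w ∈ L.lattice) : Function.Injective (mulL L a haL) := by
  intro x y h
  have h1 : a * (x : ℂ) = a * y := congrArg Subtype.val h
  exact Subtype.ext (mul_left_cancel₀ ha h1)

theorem mem_range (L : PeriodPair) (a : ℂ) (haL : ∀ w ∈ L.lattice, a * w ∈ L.lattice)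
    (z : ℂ) (ha : a ≠ 0) (hz : a * z ∈ L.lattice) :
    (⟨a * z, hz⟩ : L.lattice) ∈ LinearMap.range (mulL L a haL) ↔ z ∈ L.lattice := by
  constructor
  · rintro ⟨w, hw⟩
    have h1 : a * (w : ℂ) = a * z := congrArg Subtype.val hw
    rw [← mul_left_cancel₀ ha h1]
    exact w.2
  · intro h
    exact ⟨⟨z, h⟩, rfl⟩

theorem card_quot (hLAT : St_LAT) (L : PeriodPair) (a : ℂ) (ha : a ≠ 0)
    (haL : ∀ w ∈ L.lattice, a * w ∈ L.lattice) :
    (Nat.card (L.lattice ⧸ LinearMap.range (mulL L a haL)) : ℝ) = ‖a‖ ^ 2 := by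
  obtain ⟨hA, -⟩ := hLAT L
  have hIm : (conj L.ω₁ * L.ω₂).im ≠ 0 := by
    intro h
    rw [area, h, abs_zero] at hA
    exact lt_irrefl _ hA
  have : Module.Free ℤ L.lattice := Module.Free.of_basis L.latticeBasis
  have : Module.Finite ℤ L.lattice := Module.Finite.of_basis L.latticeBasis
  have h1 := Submodule.natAbs_det_equiv (LinearMap.range (mulL L a haL))
    (LinearEquiv.ofInjective (mulL L a haL) (mulL_inj L a ha haL))
  have h2 : (LinearMap.range (mulL L a haL)).subtype ∘ₗ AddMonoidHom.toIntLinearMap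
      ((LinearEquiv.ofInjective (mulL L a haL) (mulL_inj L a ha haL) :
        L.lattice →+ LinearMap.range (mulL L a haL))) = mulL L a haL := by
    ext x
    rfl
  rw [h2] at h1
  obtain ⟨p, q, h3⟩ := PeriodPair.mem_lattice.1 (haL _ L.ω₁_mem_lattice)
  obtain ⟨r, s, h4⟩ := PeriodPair.mem_lattice.1 (haL _ L.ω₂_mem_lattice)
  have h5 : LinearMap.det (mulL L a haL) = p * s - r * q := by
    rw [← LinearMap.det_toMatrix L.latticeBasis, Matrix.det_fin_two]
    have e0 : mulL L a haL (L.latticeBasis 0) = p • L.latticeBasis 0 + q • L.latticeBasis 1 := by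
      apply Subtype.ext
      rw [mulL_coe]
      simp [← h3]
    have e1 : mulL L a haL (L.latticeBasis 1) = r • L.latticeBasis 0 + s • L.latticeBasis 1 := by
      apply Subtype.ext
      rw [mulL_coe]
      simp [← h4]
    simp only [LinearMap.toMatrix_apply, e0, e1, map_add, map_smul, Module.Basis.repr_self]
    simp
  have h6 : ‖a‖ ^ 2 = ((p * s - r * q : ℤ) : ℝ) := by
    have e1 : conj (a * L.ω₁) * (a * L.ω₂) = ((‖a‖ ^ 2 : ℝ) : ℂ) * (conj L.ω₁ * L.ω₂) := by
      have e2 : conj a * a = ((‖a‖ ^ 2 : ℝ) : ℂ) := by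
        rw [Complex.conj_mul']
        push_cast
        rfl
      rw [map_mul, ← e2]
      ring
    have e3 : (conj (a * L.ω₁) * (a * L.ω₂)).im = ‖a‖ ^ 2 * (conj L.ω₁ * L.ω₂).im := by
      rw [e1, Complex.im_ofReal_mul]
    rw [← h3, ← h4] at e3
    have e4 : (conj ((p : ℂ) * L.ω₁ + q * L.ω₂) * (r * L.ω₁ + s * L.ω₂)).im =
        ((p * s - r * q : ℤ) : ℝ) * (conj L.ω₁ * L.ω₂).im := by
      simp
      ring
    rw [e4] at e3
    exact (mul_right_cancel₀ hIm e3).symm
  have h7 : (Nat.card (L.lattice ⧸ LinearMap.range (mulL L a haL)) : ℤ) = p * s - r * q := by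
    rw [← h1, h5, Int.natCast_natAbs]
    refine abs_of_nonneg ?_
    have : (0 : ℝ) ≤ ((p * s - r * q : ℤ) : ℝ) := by rw [← h6]; positivity
    exact_mod_cast this
  rw [h6]
  exact_mod_cast h7

end NUM

open NUM in
theorem t_NUM (hLAT : St_LAT) : St_NUM := by
  classical
  intro L a R ha haL hR
  rw [← card_quot hLAT L a ha haL]
  have h0 : (0 : ℂ) ∉ R := fun h => hR.ne 0 h (zero_mem _)
  have hmem : ∀ q ∈ insert (0 : ℂ) R, a * q ∈ L.lattice := by
    intro q hq
    rcases Finset.mem_insert.1 hq with rfl | h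
    · rw [mul_zero]; exact zero_mem _
    · exact hR.mem q h
  have hinj : ∀ q ∈ insert (0 : ℂ) R, ∀ q' ∈ insert (0 : ℂ) R, q - q' ∈ L.lattice → q = q' := by
    intro q hq q' hq' h
    rcases Finset.mem_insert.1 hq with rfl | h1
    · rcases Finset.mem_insert.1 hq' with rfl | h2
      · rfl
      · rw [zero_sub] at h
        exact absurd (neg_mem_iff.1 h) (hR.ne q' h2)
    · rcases Finset.mem_insert.1 hq' with rfl | h2
      · rw [sub_zero] at h
        exact absurd h (hR.ne q h1)
      · exact hR.inj q h1 q' h2 h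
  let f : (insert (0 : ℂ) R : Finset ℂ) → L.lattice ⧸ LinearMap.range (mulL L a haL) := fun x =>
    Submodule.Quotient.mk ⟨a * (x : ℂ), hmem _ x.2⟩
  have hf : Function.Bijective f := by
    constructor
    · rintro ⟨q, hq⟩ ⟨q', hq'⟩ h
      have h1 := (Submodule.Quotient.eq _).1 h
      have h2 : a * (q - q') ∈ L.lattice := by
        rw [mul_sub]; exact sub_mem (hmem q hq) (hmem q' hq')
      have h3 : (⟨a * (q - q'), h2⟩ : L.lattice) ∈ LinearMap.range (mulL L a haL) := by
        have e1 : (⟨a * (q - q'), h2⟩ : L.lattice) =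
            ⟨a * q, hmem q hq⟩ - ⟨a * q', hmem q' hq'⟩ :=
          Subtype.ext (mul_sub _ _ _)
        rw [e1]
        exact h1
      exact Subtype.ext (hinj q hq q' hq' ((mem_range L a haL _ ha h2).1 h3))
    · intro c
      obtain ⟨⟨u, hu⟩, rfl⟩ := Submodule.Quotient.mk_surjective _ c
      have e1 : a * (u / a) = u := mul_div_cancel₀ _ ha
      have key : ∀ (q : ℂ) (hq : q ∈ insert (0 : ℂ) R), u / a - q ∈ L.lattice →
          ∃ x, f x = Submodule.Quotient.mk ⟨u, hu⟩ := by
        intro q hq h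
        refine ⟨⟨q, hq⟩, ?_⟩
        symm
        rw [Submodule.Quotient.eq]
        have h2 : a * (u / a - q) ∈ L.lattice := haL _ h
        have h3 := (mem_range L a haL _ ha h2).2 h
        have e2 : (⟨a * (u / a - q), h2⟩ : L.lattice) =
            ⟨u, hu⟩ - ⟨a * q, hmem q hq⟩ :=
          Subtype.ext (by change a * (u / a - q) = u - a * q; rw [mul_sub, e1])
        rw [e2] at h3
        exact h3
      by_cases h : u / a ∈ L.lattice
      · exact key 0 (Finset.mem_insert_self _ _) (by rw [sub_zero]; exact h)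
      · obtain ⟨q, hq, h1⟩ := hR.surj (u / a) (by rw [e1]; exact hu) h
        exact key q (Finset.mem_insert_of_mem hq) h1
  rw [← Nat.card_congr (Equiv.ofBijective f hf), Nat.card_eq_fintype_card, Fintype.card_coe,
    Finset.card_insert_of_notMem h0]
  push_cast
  rfl

end Pool.Agent.MU3B
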