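import Pool.Agent.MU3.StB

/-!
# MU3, block B: `℘'' = 6 ℘² - g₂/2` outside the lattice
-/

set_option autoImplicit false

namespace Pool.Agent.MU3B

open Complex Real Filter Topology
open scoped ComplexConjugate

theorem p2_isPreconnected (L : PeriodPair) : IsPreconnected ((L.lattice : Set ℂ)ᶜ) := by
  have hc : (L.lattice : Set ℂ).Countable := by
    have h1 : Countable L.lattice := L.latticeEquivProd.toEquiv.countable_iff.mpr inferInstance
    exact Set.countable_coe_iff.mp h1
  have hr : 1 < Module.rank ℝ ℂ := by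
    rw [Complex.rank_real_complex]
    exact Nat.one_lt_ofNat
  exact (Set.Countable.isPathConnected_compl_of_one_lt_rank hr hc).isConnected.isPreconnected

theorem p2_deriv_ne (L : PeriodPair) : ¬ ∀ z ∈ (L.lattice : Set ℂ)ᶜ, L.derivWeierstrassP z = 0 := by
  intro h
  have hopen : IsOpen ((L.lattice : Set ℂ)ᶜ) := L.isClosed_lattice.isOpen_compl
  have hc : ∀ x ∈ (L.lattice : Set ℂ)ᶜ, ∀ y ∈ (L.lattice : Set ℂ)ᶜ,
      L.weierstrassP x = L.weierstrassP y := by
    intro x hx y hy
    refine hopen.is_const_of_deriv_eq_zero (p2_isPreconnected L) L.differentiableOn_weierstrassP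
      ?_ hx hy
    intro z hz
    rw [L.deriv_weierstrassP]
    exact h z hz
  have ho := L.order_weierstrassP 0 L.lattice.zero_mem
  have hev : ∀ᶠ z in 𝓝[≠] (0 : ℂ), z ∈ (L.lattice : Set ℂ)ᶜ := by
    have h1 := L.compl_lattice_sdiff_singleton_mem_nhds 0
    rw [eventually_nhdsWithin_iff]
    filter_upwards [h1] with z hz hz0 hzL
    exact hz ⟨hzL, hz0⟩
  have hcongr : L.weierstrassP =ᶠ[𝓝[≠] (0 : ℂ)]
      fun _ => L.weierstrassP (L.ω₁ / 2) := by
    filter_upwards [hev] with z hz
    exact hc z hz _ L.ω₁_div_two_notMem_lattice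
  rw [meromorphicOrderAt_congr hcongr, meromorphicOrderAt_const] at ho
  split_ifs at ho with h0
  · exact absurd ho (by decide)
  · exact absurd ho (by decide)

theorem t_P2 : St_P2 := by
  intro L z hz
  have hopen : IsOpen ((L.lattice : Set ℂ)ᶜ) := L.isClosed_lattice.isOpen_compl
  have hP := L.analyticOnNhd_weierstrassP
  have hD := L.analyticOnNhd_derivWeierstrassP
  have hDD : AnalyticOnNhd ℂ (deriv L.derivWeierstrassP) (L.lattice : Set ℂ)ᶜ := hD.deriv
  have hdP : ∀ w ∈ (L.lattice : Set ℂ)ᶜ, HasDerivAt L.weierstrassP (L.derivWeierstrassP w) w := by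
    intro w hw
    have h1 := (hP w hw).differentiableAt.hasDerivAt
    rwa [L.deriv_weierstrassP] at h1
  have hdD : ∀ w ∈ (L.lattice : Set ℂ)ᶜ,
      HasDerivAt L.derivWeierstrassP (deriv L.derivWeierstrassP w) w := fun w hw =>
    (hD w hw).differentiableAt.hasDerivAt
  have hg : AnalyticOnNhd ℂ (fun w => 2 * deriv L.derivWeierstrassP w - 12 * L.weierstrassP w ^ 2 +
      L.g₂) (L.lattice : Set ℂ)ᶜ := by
    refine AnalyticOnNhd.add (AnalyticOnNhd.sub (analyticOnNhd_const.mul hDD)
      (analyticOnNhd_const.mul (hP.pow 2))) analyticOnNhd_const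
  have hprod : ∀ w ∈ (L.lattice : Set ℂ)ᶜ,
      ((L.derivWeierstrassP * (fun w => 2 * deriv L.derivWeierstrassP w -
        12 * L.weierstrassP w ^ 2 + L.g₂) : ℂ → ℂ)) w = 0 := by
    intro w hw
    have e1 : HasDerivAt (fun u => L.derivWeierstrassP u ^ 2)
        (2 * L.derivWeierstrassP w * deriv L.derivWeierstrassP w) w := by
      have := (hdD w hw).pow 2
      simpa [mul_assoc] using! this
    have e2 : HasDerivAt (fun u => 4 * L.weierstrassP u ^ 3 - L.g₂ * L.weierstrassP u - L.g₃)
        (4 * (3 * L.weierstrassP w ^ 2 * L.derivWeierstrassP w) -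
          L.g₂ * L.derivWeierstrassP w) w := by
      have a1 := ((hdP w hw).pow 3).const_mul (4 : ℂ)
      have a2 := (hdP w hw).const_mul L.g₂
      have a3 := (a1.sub a2).sub_const L.g₃
      simpa using! a3
    have hee : (fun u => L.derivWeierstrassP u ^ 2) =ᶠ[𝓝 w]
        (fun u => 4 * L.weierstrassP u ^ 3 - L.g₂ * L.weierstrassP u - L.g₃) := by
      filter_upwards [hopen.mem_nhds hw] with u hu
      exact L.derivWeierstrassP_sq u hu
    have e3 := (e2.congr_of_eventuallyEq hee).unique e1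
    simp only [Pi.mul_apply]
    linear_combination -e3
  rcases AnalyticOnNhd.eq_zero_or_eq_zero_of_mul_eq_zero hD hg hprod (p2_isPreconnected L)
    with h | h
  · exact absurd h (p2_deriv_ne L)
  · have h1 := h z hz
    have h2 := hdD z hz
    have h3 : deriv L.derivWeierstrassP z = 6 * L.weierstrassP z ^ 2 - L.g₂ / 2 := by
      linear_combination h1 / 2
    rwa [h3] at h2

end Pool.Agent.MU3B
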