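import Pool.Agent.MU3.StB

/-!
# MU3, block B, module PER: the function `e` is periodic and odd
-/

set_option autoImplicit false

namespace Pool.Agent.MU3B

open Complex Real Filter Topology
open scoped ComplexConjugate

noncomputable section

theorem t_PER (hLAT : St_LAT) : St_PER := by
  intro L
  obtain ⟨-, -, hadd, -, hneg1, hneg2, hone, -, -⟩ := hLAT L
  refine ⟨?_, ?_⟩
  · intro z v hv
    unfold ee
    have h1 : (∑' w : L.lattice, ((Real.exp (-(π * ‖z + v + w‖ ^ 2 / area L)) : ℝ) : ℂ) / (z + v + w)) =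
        ∑' w : L.lattice, ((Real.exp (-(π * ‖z + w‖ ^ 2 / area L)) : ℝ) : ℂ) / (z + w) := by
      rw [← (Equiv.addRight (⟨v, hv⟩ : L.lattice)).tsum_eq
        (fun w : L.lattice => ((Real.exp (-(π * ‖z + w‖ ^ 2 / area L)) : ℝ) : ℂ) / (z + w))]
      refine tsum_congr fun w => ?_
      have h2 : z + (((Equiv.addRight (⟨v, hv⟩ : L.lattice)) w : L.lattice) : ℂ) = z + v + w := by
        simp only [Equiv.coe_addRight, Submodule.coe_add]
        ring
      simp only [h2]
    have h3 : (∑' w : L.lattice, pr L w (z + v) *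
        ((Real.exp (-(π * ‖(w : ℂ)‖ ^ 2 / area L)) : ℝ) : ℂ) / w) =
        ∑' w : L.lattice, pr L w z * ((Real.exp (-(π * ‖(w : ℂ)‖ ^ 2 / area L)) : ℝ) : ℂ) / w := by
      refine tsum_congr fun w => ?_
      rw [hadd, hone w w.2 v hv, mul_one]
    rw [h1, h3]
  · intro z
    unfold ee
    have h1 : (∑' w : L.lattice, ((Real.exp (-(π * ‖-z + w‖ ^ 2 / area L)) : ℝ) : ℂ) / (-z + w)) =
        -∑' w : L.lattice, ((Real.exp (-(π * ‖z + w‖ ^ 2 / area L)) : ℝ) : ℂ) / (z + w) := by
      rw [← (Equiv.neg L.lattice).tsum_eq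
        (fun w : L.lattice => ((Real.exp (-(π * ‖-z + w‖ ^ 2 / area L)) : ℝ) : ℂ) / (-z + w)),
        ← tsum_neg]
      refine tsum_congr fun w => ?_
      have h2 : -z + (((Equiv.neg L.lattice) w : L.lattice) : ℂ) = -(z + w) := by
        simp only [Equiv.neg_apply, Submodule.coe_neg]
        ring
      simp only [h2, norm_neg, div_neg]
    have h3 : (∑' w : L.lattice, pr L w (-z) *
        ((Real.exp (-(π * ‖(w : ℂ)‖ ^ 2 / area L)) : ℝ) : ℂ) / w) =
        -∑' w : L.lattice, pr L w z * ((Real.exp (-(π * ‖(w : ℂ)‖ ^ 2 / area L)) : ℝ) : ℂ) / w := by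
      rw [← (Equiv.neg L.lattice).tsum_eq
        (fun w : L.lattice => pr L w (-z) *
          ((Real.exp (-(π * ‖(w : ℂ)‖ ^ 2 / area L)) : ℝ) : ℂ) / w), ← tsum_neg]
      refine tsum_congr fun w => ?_
      have h4 : pr L (-(w : ℂ)) (-z) = pr L w z := by
        rw [hneg1, hneg2, Complex.conj_conj]
      simp only [Equiv.neg_apply, Submodule.coe_neg, norm_neg, div_neg, h4]
    rw [h1, h3]
    ring

end

end Pool.Agent.MU3B
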