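import Pool.Agent.MU3.StB

/-!
# MU3B_POD
-/

set_option autoImplicit false

namespace Pool.Agent.MU3B

open Complex Real Filter Topology
open scoped ComplexConjugate

namespace POD

/-- one Gaussian term along a line -/
lemma der_term (c : ℝ) (a h : ℂ) (s : ℝ) :
    HasDerivAt (fun s : ℝ => Real.exp (-(c * ‖a + s * h‖ ^ 2)))
      (-(2 * c) * (conj (a + s * h) * h).re * Real.exp (-(c * ‖a + s * h‖ ^ 2))) s := by
  have e : ∀ s : ℝ, ‖a + s * h‖ ^ 2 = (a.re + s * h.re) ^ 2 + (a.im + s * h.im) ^ 2 := by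
    intro s
    rw [Complex.sq_norm, Complex.normSq_apply]
    simp
    ring
  have h1 : HasDerivAt (fun s : ℝ => -(c * ((a.re + s * h.re) ^ 2 + (a.im + s * h.im) ^ 2)))
      (-(c * (2 * (a.re + s * h.re) * h.re + 2 * (a.im + s * h.im) * h.im))) s := by
    have h2 : HasDerivAt (fun s : ℝ => a.re + s * h.re) h.re s := by
      simpa using ((hasDerivAt_id s).mul_const h.re).const_add a.re
    have h3 : HasDerivAt (fun s : ℝ => a.im + s * h.im) h.im s := by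
      simpa using ((hasDerivAt_id s).mul_const h.im).const_add a.im
    have h4 := (((h2.pow 2).add (h3.pow 2)).const_mul c).neg
    refine h4.congr_deriv ?_
    simp
  have h5 := h1.exp
  have h6 : (fun s : ℝ => Real.exp (-(c * ‖a + s * h‖ ^ 2))) =
      fun s : ℝ => Real.exp (-(c * ((a.re + s * h.re) ^ 2 + (a.im + s * h.im) ^ 2))) := by
    funext s
    rw [e]
  rw [h6]
  refine h5.congr_deriv ?_
  rw [e]
  simp
  ring

lemma derF (hSUM : St_SUM) (L : PeriodPair) (c : ℝ) (hc : 0 < c) (z h : ℂ) (hh : ‖h‖ ≤ 1) :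
    HasDerivAt (fun s : ℝ => ∑' w : L.lattice, Real.exp (-(c * ‖z + s * h + w‖ ^ 2)))
      (∑' w : L.lattice, -(2 * c) * (conj (z + w) * h).re * Real.exp (-(c * ‖z + w‖ ^ 2))) 0 := by
  obtain ⟨u, hu, hb⟩ := hSUM L c hc 1 (‖z‖ + 1)
  have hz' : ∀ s : ℝ, s ∈ Set.Ioo (-1 : ℝ) 1 → ‖z + s * h‖ ≤ ‖z‖ + 1 := by
    intro s hs
    refine (norm_add_le _ _).trans ?_
    have h1 : ‖(s : ℂ) * h‖ ≤ 1 := by
      rw [norm_mul, Complex.norm_real, Real.norm_eq_abs]
      have h2 : |s| ≤ 1 := (abs_lt.2 ⟨hs.1, hs.2⟩).le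
      calc |s| * ‖h‖ ≤ 1 * 1 := mul_le_mul h2 hh (norm_nonneg _) zero_le_one
        _ = 1 := one_mul 1
    linarith
  have key := hasDerivAt_tsum_of_isPreconnected (u := fun w : L.lattice => 2 * c * u w)
    (g := fun (w : L.lattice) (s : ℝ) => Real.exp (-(c * ‖z + s * h + w‖ ^ 2)))
    (g' := fun (w : L.lattice) (s : ℝ) => -(2 * c) * (conj (z + s * h + w) * h).re *
      Real.exp (-(c * ‖z + s * h + w‖ ^ 2))) (t := Set.Ioo (-1 : ℝ) 1) (y₀ := 0) (y := 0)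
    (hu.mul_left _) isOpen_Ioo isPreconnected_Ioo ?_ ?_ (by simp) ?_ (by simp)
  · refine key.congr_deriv ?_
    refine tsum_congr fun w => ?_
    simp
  · intro w s _
    have h1 := der_term c (z + w) h s
    have e1 : ∀ s : ℝ, z + s * h + w = z + w + s * h := fun s => by ring
    simp only [e1]
    exact h1
  · intro w s hs
    have h1 := (hb w (z + s * h) (hz' s hs)).1
    rw [norm_mul, norm_mul, Real.norm_eq_abs, Real.norm_eq_abs, Real.norm_eq_abs, abs_neg,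
      abs_of_pos (by positivity : (0 : ℝ) < 2 * c), abs_of_pos (Real.exp_pos _), mul_assoc]
    refine mul_le_mul_of_nonneg_left (le_trans ?_ h1) (by positivity)
    refine mul_le_mul_of_nonneg_right ?_ (Real.exp_pos _).le
    rw [pow_one]
    refine (Complex.abs_re_le_norm _).trans ?_
    rw [norm_mul, Complex.norm_conj]
    calc ‖z + s * h + w‖ * ‖h‖ ≤ ‖z + s * h + w‖ * 1 :=
          mul_le_mul_of_nonneg_left hh (norm_nonneg _)
      _ ≤ 1 + ‖z + s * h + w‖ := by linarith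
  · have h1 : ∀ w : L.lattice, Real.exp (-(c * ‖z + ((0 : ℝ) : ℂ) * h + w‖ ^ 2)) ≤ u w := by
      intro w
      have h2 := (hb w (z + ((0 : ℝ) : ℂ) * h) (hz' 0 (by simp))).1
      refine le_trans ?_ h2
      have h3 : (1 : ℝ) ≤ (1 + ‖z + ((0 : ℝ) : ℂ) * h + w‖) ^ 1 := by
        rw [pow_one]
        linarith [norm_nonneg (z + ((0 : ℝ) : ℂ) * h + w)]
      calc Real.exp (-(c * ‖z + ((0 : ℝ) : ℂ) * h + w‖ ^ 2))
          = 1 * Real.exp (-(c * ‖z + ((0 : ℝ) : ℂ) * h + w‖ ^ 2)) := (one_mul _).symm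
        _ ≤ _ := mul_le_mul_of_nonneg_right h3 (Real.exp_pos _).le
    exact Summable.of_nonneg_of_le (fun w => (Real.exp_pos _).le) h1 hu

lemma pr_der (L : PeriodPair) (w z h : ℂ) (s : ℝ) :
    HasDerivAt (fun s : ℝ => pr L w (z + s * h))
      (((π / area L : ℝ) : ℂ) * (conj w * h - w * conj h) * pr L w (z + s * h)) s := by
  unfold pr
  have h1 : HasDerivAt (fun s : ℝ => ((π / area L : ℝ) : ℂ) *
      (conj w * (z + s * h) - w * conj (z + s * h)))
      (((π / area L : ℝ) : ℂ) * (conj w * h - w * conj h)) s := by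
    have e1 : (fun s : ℝ => ((π / area L : ℝ) : ℂ) *
        (conj w * (z + s * h) - w * conj (z + s * h))) = fun s : ℝ => ((π / area L : ℝ) : ℂ) *
        (conj w * z - w * conj z) + (s : ℂ) *
          (((π / area L : ℝ) : ℂ) * (conj w * h - w * conj h)) := by
      funext s
      rw [map_add, map_mul, Complex.conj_ofReal]
      ring
    rw [e1]
    have h2 : HasDerivAt (fun s : ℝ => (s : ℂ)) 1 s := Complex.ofRealCLM.hasDerivAt
    simpa using (h2.mul_const (((π / area L : ℝ) : ℂ) * (conj w * h - w * conj h))).const_add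
      (((π / area L : ℝ) : ℂ) * (conj w * z - w * conj z))
  exact (h1.cexp).congr_deriv (by ring)

lemma derG (hSUM : St_SUM) (hLAT : St_LAT) (L : PeriodPair) (c : ℝ) (hc : 0 < c) (z h : ℂ)
    (hh : ‖h‖ ≤ 1) :
    HasDerivAt (fun s : ℝ => ∑' w : L.lattice, pr L w (z + s * h) *
        (Real.exp (-(c * ‖(w : ℂ)‖ ^ 2)) : ℝ))
      (∑' w : L.lattice, ((π / area L : ℝ) : ℂ) * (conj (w : ℂ) * h - w * conj h) * pr L w z *
        (Real.exp (-(c * ‖(w : ℂ)‖ ^ 2)) : ℝ)) 0 := by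
  obtain ⟨u, hu, hb⟩ := hSUM L c hc 1 0
  obtain ⟨hA, hn, -⟩ := hLAT L
  have key := hasDerivAt_tsum_of_isPreconnected
    (u := fun w : L.lattice => (π / area L) * 2 * u w)
    (g := fun (w : L.lattice) (s : ℝ) => pr L w (z + s * h) *
      (Real.exp (-(c * ‖(w : ℂ)‖ ^ 2)) : ℝ))
    (g' := fun (w : L.lattice) (s : ℝ) => ((π / area L : ℝ) : ℂ) *
      (conj (w : ℂ) * h - w * conj h) * pr L w (z + s * h) *
      (Real.exp (-(c * ‖(w : ℂ)‖ ^ 2)) : ℝ)) (t := Set.univ) (y₀ := 0) (y := 0)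
    (hu.mul_left _) isOpen_univ isPreconnected_univ ?_ ?_ (Set.mem_univ _) ?_ (Set.mem_univ _)
  · refine key.congr_deriv ?_
    refine tsum_congr fun w => ?_
    simp
  · intro w s _
    exact (pr_der L w z h s).mul_const _
  · intro w s _
    have h1 := (hb w 0 (by simp)).2
    rw [pow_one] at h1
    rw [norm_mul, norm_mul, norm_mul, hn, mul_one, Complex.norm_real, Complex.norm_real,
      Real.norm_eq_abs, Real.norm_eq_abs, abs_of_pos (div_pos Real.pi_pos hA),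
      abs_of_pos (Real.exp_pos _)]
    have h2 : ‖conj (w : ℂ) * h - w * conj h‖ ≤ 2 * (1 + ‖(w : ℂ)‖) := by
      refine (norm_sub_le _ _).trans ?_
      rw [norm_mul, norm_mul, Complex.norm_conj, Complex.norm_conj]
      have h3 : ‖(w : ℂ)‖ * ‖h‖ ≤ ‖(w : ℂ)‖ * 1 := mul_le_mul_of_nonneg_left hh (norm_nonneg _)
      linarith
    have hp : 0 < π / area L := div_pos Real.pi_pos hA
    calc π / area L * ‖conj (w : ℂ) * h - w * conj h‖ * Real.exp (-(c * ‖(w : ℂ)‖ ^ 2))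
        ≤ π / area L * (2 * (1 + ‖(w : ℂ)‖)) * Real.exp (-(c * ‖(w : ℂ)‖ ^ 2)) :=
          mul_le_mul_of_nonneg_right (mul_le_mul_of_nonneg_left h2 hp.le) (Real.exp_pos _).le
      _ = π / area L * 2 * ((1 + ‖(w : ℂ)‖) * Real.exp (-(c * ‖(w : ℂ)‖ ^ 2))) := by ring
      _ ≤ π / area L * 2 * u w := mul_le_mul_of_nonneg_left h1 (by positivity)
  · refine Summable.of_norm_bounded hu fun w => ?_
    have h1 := (hb w 0 (by simp)).2
    rw [pow_one] at h1
    rw [norm_mul, hn, one_mul, Complex.norm_real, Real.norm_eq_abs, abs_of_pos (Real.exp_pos _)]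
    refine le_trans ?_ h1
    calc Real.exp (-(c * ‖(w : ℂ)‖ ^ 2)) = 1 * Real.exp (-(c * ‖(w : ℂ)‖ ^ 2)) := (one_mul _).symm
      _ ≤ (1 + ‖(w : ℂ)‖) * Real.exp (-(c * ‖(w : ℂ)‖ ^ 2)) :=
        mul_le_mul_of_nonneg_right (by linarith [norm_nonneg (w : ℂ)]) (Real.exp_pos _).le

end POD

open POD in
theorem t_POD (hSUM : St_SUM) (hLAT : St_LAT) (hPOI : St_POI) : St_POD := by
  intro L t ht z
  obtain ⟨hA, hn, -⟩ := hLAT L
  set A := area L with hAdef
  obtain ⟨c, hc⟩ : ∃ c : ℝ, c = π / (A * t) := ⟨_, rfl⟩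
  obtain ⟨c', hc'⟩ : ∃ c' : ℝ, c' = π * t / A := ⟨_, rfl⟩
  have hc0 : 0 < c := by rw [hc]; positivity
  have hc0' : 0 < c' := by rw [hc']; positivity
  have e1 : ∀ x : ℝ, π * x / (A * t) = c * x := fun x => by rw [hc]; ring
  have e2 : ∀ x : ℝ, π * t * x / A = c' * x := fun x => by rw [hc']; ring
  obtain ⟨u, hu, hb⟩ := hSUM L c hc0 1 ‖z‖
  obtain ⟨u', hu', hb'⟩ := hSUM L c' hc0' 1 0
  have hP : ∀ x : ℂ, ((∑' w : L.lattice, Real.exp (-(c * ‖x + w‖ ^ 2)) : ℝ) : ℂ) =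
      t * ∑' w : L.lattice, pr L w x * (Real.exp (-(c' * ‖(w : ℂ)‖ ^ 2)) : ℝ) := by
    intro x
    have h1 := hPOI L t ht x
    unfold Gs Th at h1
    simp only [← hAdef, e1, e2] at h1
    exact h1
  simp only [e1, e2]
  -- the summands
  have hsG : ∀ h : ℂ, ‖h‖ ≤ 1 → Summable (fun w : L.lattice =>
      ((conj (z + w) * h).re * Real.exp (-(c * ‖z + w‖ ^ 2)) : ℝ)) := by
    intro h hh
    refine Summable.of_norm_bounded hu fun w => ?_
    have h1 := (hb w z le_rfl).1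
    rw [pow_one] at h1
    rw [norm_mul, Real.norm_eq_abs, Real.norm_eq_abs, abs_of_pos (Real.exp_pos _)]
    refine le_trans (mul_le_mul_of_nonneg_right ?_ (Real.exp_pos _).le) h1
    refine (Complex.abs_re_le_norm _).trans ?_
    rw [norm_mul, Complex.norm_conj]
    have h3 : ‖z + w‖ * ‖h‖ ≤ ‖z + w‖ * 1 := mul_le_mul_of_nonneg_left hh (norm_nonneg _)
    linarith
  have hsT : ∀ h : ℂ, ‖h‖ ≤ 1 → Summable (fun w : L.lattice =>
      (conj (w : ℂ) * h - w * conj h) * pr L w z *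
        ((Real.exp (-(c' * ‖(w : ℂ)‖ ^ 2)) : ℝ) : ℂ)) := by
    intro h hh
    refine Summable.of_norm_bounded (hu'.mul_left 2) fun w => ?_
    have h1 := (hb' w 0 (by simp)).2
    rw [pow_one] at h1
    rw [norm_mul, norm_mul, hn, mul_one, Complex.norm_real, Real.norm_eq_abs,
      abs_of_pos (Real.exp_pos _)]
    have h2 : ‖conj (w : ℂ) * h - w * conj h‖ ≤ 2 * (1 + ‖(w : ℂ)‖) := by
      refine (norm_sub_le _ _).trans ?_
      rw [norm_mul, norm_mul, Complex.norm_conj, Complex.norm_conj]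
      have h3 : ‖(w : ℂ)‖ * ‖h‖ ≤ ‖(w : ℂ)‖ * 1 := mul_le_mul_of_nonneg_left hh (norm_nonneg _)
      linarith
    calc ‖conj (w : ℂ) * h - w * conj h‖ * Real.exp (-(c' * ‖(w : ℂ)‖ ^ 2))
        ≤ 2 * (1 + ‖(w : ℂ)‖) * Real.exp (-(c' * ‖(w : ℂ)‖ ^ 2)) :=
          mul_le_mul_of_nonneg_right h2 (Real.exp_pos _).le
      _ = 2 * ((1 + ‖(w : ℂ)‖) * Real.exp (-(c' * ‖(w : ℂ)‖ ^ 2))) := by ring
      _ ≤ 2 * u' w := mul_le_mul_of_nonneg_left h1 (by norm_num)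
  -- comparison of derivatives
  have hD : ∀ h : ℂ, ‖h‖ ≤ 1 →
      -(2 * c : ℂ) * ((∑' w : L.lattice,
        ((conj (z + w) * h).re * Real.exp (-(c * ‖z + w‖ ^ 2)) : ℝ) : ℝ) : ℂ) =
      t * (((π / A : ℝ) : ℂ) * ∑' w : L.lattice, (conj (w : ℂ) * h - w * conj h) * pr L w z *
        ((Real.exp (-(c' * ‖(w : ℂ)‖ ^ 2)) : ℝ) : ℂ)) := by
    intro h hh
    have h1 := (derF hSUM L c hc0 z h hh).ofReal_comp
    have h2 := (derG hSUM hLAT L c' hc0' z h hh).const_mul (t : ℂ)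
    have h3 : (fun s : ℝ => ((∑' w : L.lattice,
        Real.exp (-(c * ‖z + s * h + w‖ ^ 2)) : ℝ) : ℂ)) =
        fun s : ℝ => (t : ℂ) * ∑' w : L.lattice, pr L w (z + s * h) *
          (Real.exp (-(c' * ‖(w : ℂ)‖ ^ 2)) : ℝ) := by
      funext s
      exact hP _
    rw [h3] at h1
    have h4 := h1.unique h2
    have h5 : (∑' w : L.lattice, -(2 * c) * (conj (z + w) * h).re *
        Real.exp (-(c * ‖z + w‖ ^ 2))) = -(2 * c) * ∑' w : L.lattice,
        ((conj (z + w) * h).re * Real.exp (-(c * ‖z + w‖ ^ 2)) : ℝ) := by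
      rw [← tsum_mul_left]
      exact tsum_congr fun w => by ring
    have h6 : (∑' w : L.lattice, ((π / area L : ℝ) : ℂ) * (conj (w : ℂ) * h - w * conj h) *
        pr L w z * (Real.exp (-(c' * ‖(w : ℂ)‖ ^ 2)) : ℝ)) = ((π / A : ℝ) : ℂ) *
        ∑' w : L.lattice, (conj (w : ℂ) * h - w * conj h) * pr L w z *
          ((Real.exp (-(c' * ‖(w : ℂ)‖ ^ 2)) : ℝ) : ℂ) := by
      rw [← tsum_mul_left]
      exact tsum_congr fun w => by rw [hAdef]; ring
    rw [h5, h6] at h4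
    rw [← h4]
    push_cast
    ring
  have d1 := hD 1 (by simp)
  have d2 := hD I (by simp)
  -- combine
  have s1 : (∑' w : L.lattice, conj (z + w) * ((Real.exp (-(c * ‖z + w‖ ^ 2)) : ℝ) : ℂ)) =
      ((∑' w : L.lattice, ((conj (z + w) * 1).re * Real.exp (-(c * ‖z + w‖ ^ 2)) : ℝ) : ℝ) : ℂ) -
      I * ((∑' w : L.lattice,
        ((conj (z + w) * I).re * Real.exp (-(c * ‖z + w‖ ^ 2)) : ℝ) : ℝ) : ℂ) := by
    rw [Complex.ofReal_tsum, Complex.ofReal_tsum, ← tsum_mul_left, ← Summable.tsum_sub]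
    · refine tsum_congr fun w => ?_
      have e3 : ∀ a : ℂ, a = ((a * 1).re : ℂ) - I * ((a * I).re : ℂ) := by
        intro a
        apply Complex.ext <;> simp
      calc conj (z + w) * ((Real.exp (-(c * ‖z + w‖ ^ 2)) : ℝ) : ℂ)
          = (((conj (z + w) * 1).re : ℂ) - I * ((conj (z + w) * I).re : ℂ)) *
            ((Real.exp (-(c * ‖z + w‖ ^ 2)) : ℝ) : ℂ) := by rw [← e3]
        _ = _ := by push_cast; ring
    · exact Complex.summable_ofReal.2 (hsG 1 (by simp))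
    · exact (Complex.summable_ofReal.2 (hsG I (by simp))).mul_left I
  have s2 : (2 : ℂ) * (∑' w : L.lattice, conj (w : ℂ) * pr L w z *
      ((Real.exp (-(c' * ‖(w : ℂ)‖ ^ 2)) : ℝ) : ℂ)) =
      (∑' w : L.lattice, (conj (w : ℂ) * 1 - w * conj (1 : ℂ)) * pr L w z *
        ((Real.exp (-(c' * ‖(w : ℂ)‖ ^ 2)) : ℝ) : ℂ)) -
      I * ∑' w : L.lattice, (conj (w : ℂ) * I - w * conj I) * pr L w z *
        ((Real.exp (-(c' * ‖(w : ℂ)‖ ^ 2)) : ℝ) : ℂ) := by
    rw [← tsum_mul_left, ← tsum_mul_left, ← Summable.tsum_sub (hsT 1 (by simp))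
      ((hsT I (by simp)).mul_left I)]
    refine tsum_congr fun w => ?_
    rw [map_one, Complex.conj_I]
    linear_combination ((conj (w : ℂ) + w) * pr L w z *
      ((Real.exp (-(c' * ‖(w : ℂ)‖ ^ 2)) : ℝ) : ℂ)) * I_sq
  set X1 := ((∑' w : L.lattice,
    ((conj (z + w) * 1).re * Real.exp (-(c * ‖z + w‖ ^ 2)) : ℝ) : ℝ) : ℂ)
  set X2 := ((∑' w : L.lattice,
    ((conj (z + w) * I).re * Real.exp (-(c * ‖z + w‖ ^ 2)) : ℝ) : ℝ) : ℂ)
  set Y1 := ∑' w : L.lattice, (conj (w : ℂ) * 1 - w * conj (1 : ℂ)) * pr L w z *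
        ((Real.exp (-(c' * ‖(w : ℂ)‖ ^ 2)) : ℝ) : ℂ)
  set Y2 := ∑' w : L.lattice, (conj (w : ℂ) * I - w * conj I) * pr L w z *
        ((Real.exp (-(c' * ‖(w : ℂ)‖ ^ 2)) : ℝ) : ℂ)
  set Y := ∑' w : L.lattice, conj (w : ℂ) * pr L w z *
        ((Real.exp (-(c' * ‖(w : ℂ)‖ ^ 2)) : ℝ) : ℂ)
  rw [s1]
  have hcC : (c : ℂ) ≠ 0 := by exact_mod_cast hc0.ne'
  have hAC : (A : ℂ) ≠ 0 := by exact_mod_cast hA.ne'
  have htC : (t : ℂ) ≠ 0 := by exact_mod_cast ht.ne'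
  have hpC : (π : ℂ) ≠ 0 := by exact_mod_cast Real.pi_ne_zero
  have hcv : (c : ℂ) = π / (A * t) := by rw [hc]; push_cast; rfl
  have hfin : -(2 * c : ℂ) * (X1 - I * X2) = t * (((π / A : ℝ) : ℂ) * (2 * Y)) := by
    rw [s2]
    linear_combination d1 - I * d2
  rw [hcv] at hfin
  push_cast at hfin
  field_simp at hfin
  linear_combination (-1 : ℂ) * hfin

end Pool.Agent.MU3B
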