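import Pool.Agent.MU3.StB

/-!
# MU3, block B: Poisson summation on the torus (POI)
-/

set_option autoImplicit false

namespace Pool.Agent.MU3B

open Complex Real Filter Topology
open scoped ComplexConjugate

noncomputable section

namespace PoiAux

/-- one dimensional Gaussian sums -/
theorem gsum {c : ℝ} (hc : 0 < c) (x : ℝ) :
    Summable (fun k : ℤ => Real.exp (-(c * ((k : ℝ) + x) ^ 2))) := by
  have hpi := Real.pi_pos
  have h := summable_pow_mul_jacobiTheta₂_term_bound (c * |x| / π) (T := c / π)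
    (div_pos hc hpi) 0
  refine Summable.of_nonneg_of_le (fun _ => (Real.exp_pos _).le) (fun k => ?_) h
  rw [pow_zero, one_mul]
  apply Real.exp_le_exp.2
  have h1 : -π * (c / π * (k : ℝ) ^ 2 - 2 * (c * |x| / π) * ((|k| : ℤ) : ℝ)) =
      -(c * (k : ℝ) ^ 2) + 2 * c * (|x| * |(k : ℝ)|) := by
    push_cast
    field_simp
    ring
  rw [h1]
  have h2 : -((k : ℝ) * x) ≤ |x| * |(k : ℝ)| := by
    have h3 := neg_abs_le ((k : ℝ) * x)
    rw [abs_mul] at h3
    linarith [mul_comm |(k : ℝ)| |x|]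
  nlinarith [sq_nonneg x, mul_le_mul_of_nonneg_left h2 hc.le, mul_nonneg hc.le (sq_nonneg x)]

/-- two dimensional Gaussian sums -/
theorem gsum2 {c d : ℝ} (hc : 0 < c) (hd : 0 < d) (x y : ℝ) :
    Summable (fun p : ℤ × ℤ => Real.exp (-(c * ((p.1 : ℝ) + x) ^ 2)) *
      Real.exp (-(d * ((p.2 : ℝ) + y) ^ 2))) :=
  (gsum hc x).mul_of_nonneg (gsum hd y) (fun _ => (Real.exp_pos _).le)
    (fun _ => (Real.exp_pos _).le)

/-- exponential of a complex number given by real and imaginary part -/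
def E (a b : ℝ) : ℂ := Complex.exp ((a : ℂ) + (b : ℂ) * I)

theorem norm_E (a b : ℝ) : ‖E a b‖ = Real.exp a := by
  unfold E
  rw [Complex.norm_exp]
  simp

theorem E_zero (a : ℝ) : E a 0 = ((Real.exp a : ℝ) : ℂ) := by
  unfold E
  simp

/-- coercivity of the quadratic form -/
theorem coer {α : ℝ} (hα : 0 < α) (r u v : ℝ) :
    u ^ 2 + v ^ 2 ≤ (2 / α + (2 * r ^ 2 + 1) * α) * (α * (u + v * r) ^ 2 + v ^ 2 / α) := by
  have h1 : (2 / α + (2 * r ^ 2 + 1) * α) * (α * (u + v * r) ^ 2 + v ^ 2 / α) =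
      2 * (u + v * r) ^ 2 + (2 * r ^ 2 + 1) * v ^ 2 +
        ((2 * r ^ 2 + 1) * α ^ 2 * (u + v * r) ^ 2 + 2 * v ^ 2 / α ^ 2) := by
    field_simp
    ring
  have h2 : 0 ≤ (2 * r ^ 2 + 1) * α ^ 2 * (u + v * r) ^ 2 + 2 * v ^ 2 / α ^ 2 := by positivity
  have h3 : u ^ 2 ≤ 2 * (u + v * r) ^ 2 + 2 * r ^ 2 * v ^ 2 := by
    nlinarith [sq_nonneg (u + 2 * v * r)]
  rw [h1]
  nlinarith

/-- the quadratic form is summable -/
theorem qsum {α t : ℝ} (hα : 0 < α) (ht : 0 < t) (r x y : ℝ) :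
    Summable (fun p : ℤ × ℤ => Real.exp (-(π * t *
      (α * (((p.2 : ℝ) + y) + ((p.1 : ℝ) + x) * r) ^ 2 + ((p.1 : ℝ) + x) ^ 2 / α)))) := by
  have hK : 0 < 2 / α + (2 * r ^ 2 + 1) * α := by positivity
  set K := 2 / α + (2 * r ^ 2 + 1) * α with hKdef
  have hc : 0 < π * t / K := div_pos (mul_pos Real.pi_pos ht) hK
  refine Summable.of_nonneg_of_le (fun _ => (Real.exp_pos _).le) (fun p => ?_)
    (gsum2 hc hc x y)
  rw [← Real.exp_add]
  apply Real.exp_le_exp.2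
  have h1 := coer hα r ((p.2 : ℝ) + y) ((p.1 : ℝ) + x)
  rw [← hKdef] at h1
  have h2 : π * t / K * (((p.2 : ℝ) + y) ^ 2 + ((p.1 : ℝ) + x) ^ 2) ≤ π * t / K *
      (K * (α * (((p.2 : ℝ) + y) + ((p.1 : ℝ) + x) * r) ^ 2 + ((p.1 : ℝ) + x) ^ 2 / α)) :=
    mul_le_mul_of_nonneg_left h1 hc.le
  have h3 : π * t / K * (K * (α * (((p.2 : ℝ) + y) + ((p.1 : ℝ) + x) * r) ^ 2 +
      ((p.1 : ℝ) + x) ^ 2 / α)) = π * t * (α * (((p.2 : ℝ) + y) + ((p.1 : ℝ) + x) * r) ^ 2 +
      ((p.1 : ℝ) + x) ^ 2 / α) := by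
    rw [← mul_assoc, div_mul_cancel₀ _ hK.ne']
  linarith

/-- first Poisson summation -/
theorem step1 {α t : ℝ} (hα : 0 < α) (ht : 0 < t) (r x y : ℝ) (n : ℤ) :
    ∑' m : ℤ, E (-(π * t * (α * ((m : ℝ) + n * r) ^ 2 + (n : ℝ) ^ 2 / α)))
      (2 * π * (m * y - n * x)) =
    1 / ((t * α : ℝ) : ℂ) ^ (1 / 2 : ℂ) * ∑' k : ℤ,
      E (-(π * t / α * (n : ℝ) ^ 2 + π / (t * α) * ((k : ℝ) - y) ^ 2))
        (2 * π * (n * r * (k - y) - n * x)) := by
  have hαc : (α : ℂ) ≠ 0 := by exact_mod_cast hα.ne'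
  have htc : (t : ℂ) ≠ 0 := by exact_mod_cast ht.ne'
  have ha : 0 < (((t * α : ℝ) : ℂ)).re := by
    rw [Complex.ofReal_re]
    exact mul_pos ht hα
  have hp := Complex.tsum_exp_neg_quadratic ha (I * y - (t * α : ℝ) * n * r)
  have hl : ∀ m : ℤ, E (-(π * t * (α * ((m : ℝ) + n * r) ^ 2 + (n : ℝ) ^ 2 / α)))
      (2 * π * (m * y - n * x)) = Complex.exp (-π * (t * α) * n ^ 2 * r ^ 2 - π * t * n ^ 2 / α -
        2 * π * I * n * x) * Complex.exp (-π * ((t * α : ℝ) : ℂ) * (m : ℂ) ^ 2 +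
        2 * π * (I * y - (t * α : ℝ) * n * r) * m) := by
    intro m
    unfold E
    rw [← Complex.exp_add]
    congr 1
    push_cast
    ring
  have hr : ∀ k : ℤ, E (-(π * t / α * (n : ℝ) ^ 2 + π / (t * α) * ((k : ℝ) - y) ^ 2))
        (2 * π * (n * r * (k - y) - n * x)) =
      Complex.exp (-π * (t * α) * n ^ 2 * r ^ 2 - π * t * n ^ 2 / α -
        2 * π * I * n * x) * Complex.exp (-π / ((t * α : ℝ) : ℂ) *
        ((k : ℂ) + I * (I * y - (t * α : ℝ) * n * r)) ^ 2) := by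
    intro k
    unfold E
    rw [← Complex.exp_add]
    congr 1
    push_cast
    have h1 : I * (I * (y : ℂ) - t * α * n * r) = -y - I * (t * α * n * r) := by
      linear_combination (y : ℂ) * Complex.I_sq
    rw [h1]
    field_simp
    linear_combination ((r : ℂ) ^ 2 * n ^ 2 * t ^ 2 * α ^ 2) * Complex.I_sq
  simp only [hl, hr]
  rw [tsum_mul_left, tsum_mul_left, hp]
  ring

/-- second Poisson summation -/
theorem step2 {α t : ℝ} (hα : 0 < α) (ht : 0 < t) (r x y : ℝ) (k : ℤ) :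
    ∑' n : ℤ, E (-(π * t / α * (n : ℝ) ^ 2 + π / (t * α) * ((k : ℝ) - y) ^ 2))
        (2 * π * (n * r * (k - y) - n * x)) =
    1 / ((t / α : ℝ) : ℂ) ^ (1 / 2 : ℂ) * ∑' l : ℤ,
      E (-(π / t * (α * ((l : ℝ) + x - r * (k - y)) ^ 2 + ((k : ℝ) - y) ^ 2 / α))) 0 := by
  have hαc : (α : ℂ) ≠ 0 := by exact_mod_cast hα.ne'
  have htc : (t : ℂ) ≠ 0 := by exact_mod_cast ht.ne'
  have ha : 0 < (((t / α : ℝ) : ℂ)).re := by
    rw [Complex.ofReal_re]
    exact div_pos ht hα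
  have hp := Complex.tsum_exp_neg_quadratic ha (I * (r * (k - y) - x))
  have hl : ∀ n : ℤ, E (-(π * t / α * (n : ℝ) ^ 2 + π / (t * α) * ((k : ℝ) - y) ^ 2))
        (2 * π * (n * r * (k - y) - n * x)) =
      Complex.exp (-π / (t * α) * ((k : ℂ) - y) ^ 2) *
        Complex.exp (-π * ((t / α : ℝ) : ℂ) * (n : ℂ) ^ 2 +
          2 * π * (I * (r * (k - y) - x)) * n) := by
    intro n
    unfold E
    rw [← Complex.exp_add]
    congr 1
    push_cast
    ring
  have hr : ∀ l : ℤ, E (-(π / t * (α * ((l : ℝ) + x - r * (k - y)) ^ 2 +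
      ((k : ℝ) - y) ^ 2 / α))) 0 = Complex.exp (-π / (t * α) * ((k : ℂ) - y) ^ 2) *
        Complex.exp (-π / ((t / α : ℝ) : ℂ) * ((l : ℂ) + I * (I * (r * (k - y) - x))) ^ 2) := by
    intro l
    unfold E
    rw [← Complex.exp_add]
    congr 1
    push_cast
    have h1 : I * (I * ((r : ℂ) * (k - y) - x)) = -(r * (k - y) - x) := by
      linear_combination ((r : ℂ) * (k - y) - x) * Complex.I_sq
    rw [h1]
    field_simp
    ring
  simp only [hl, hr]
  rw [tsum_mul_left, tsum_mul_left, hp]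
  ring

theorem cpow_half {a : ℝ} (ha : 0 < a) : ((a : ℝ) : ℂ) ^ (1 / 2 : ℂ) = ((√a : ℝ) : ℂ) := by
  rw [Real.sqrt_eq_rpow, Complex.ofReal_cpow ha.le]
  push_cast
  rfl

/-- Poisson summation for the two dimensional Gaussian -/
theorem poi2 {α t : ℝ} (hα : 0 < α) (ht : 0 < t) (r x y : ℝ) :
    ∑' p : ℤ × ℤ, E (-(π * t * (α * ((p.2 : ℝ) + p.1 * r) ^ 2 + (p.1 : ℝ) ^ 2 / α)))
      (2 * π * (p.2 * y - p.1 * x)) =
    (1 / t : ℂ) * ∑' p : ℤ × ℤ, E (-(π / t * (α * ((p.2 : ℝ) + x - r * (p.1 - y)) ^ 2 +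
      ((p.1 : ℝ) - y) ^ 2 / α))) 0 := by
  have hs1 : Summable (fun p : ℤ × ℤ => E (-(π * t * (α * ((p.2 : ℝ) + p.1 * r) ^ 2 +
      (p.1 : ℝ) ^ 2 / α))) (2 * π * (p.2 * y - p.1 * x))) := by
    refine Summable.of_norm_bounded (qsum hα ht r 0 0) (fun p => ?_)
    rw [norm_E]
    simp only [add_zero]
    exact le_rfl
  have hs2 : Summable (fun p : ℤ × ℤ =>
      E (-(π * t / α * (p.1 : ℝ) ^ 2 + π / (t * α) * ((p.2 : ℝ) - y) ^ 2))
        (2 * π * (p.1 * r * (p.2 - y) - p.1 * x))) := by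
    have hpi := Real.pi_pos
    refine Summable.of_norm_bounded (gsum2 (c := π * t / α) (d := π / (t * α)) (by positivity)
      (by positivity) 0 (-y)) (fun p => ?_)
    rw [norm_E, ← Real.exp_add]
    apply Real.exp_le_exp.2
    simp only [add_zero]
    apply le_of_eq
    ring
  have hs3 : Summable (fun p : ℤ × ℤ => E (-(π / t * (α * ((p.2 : ℝ) + x - r * (p.1 - y)) ^ 2 +
      ((p.1 : ℝ) - y) ^ 2 / α))) 0) := by
    refine Summable.of_norm_bounded (qsum hα (t := 1 / t) (by positivity) (-r) (-y) x)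
      (fun p => ?_)
    rw [norm_E]
    apply Real.exp_le_exp.2
    apply le_of_eq
    ring
  rw [hs1.tsum_prod]
  simp only [step1 hα ht r x y]
  rw [tsum_mul_left]
  have hcomm := Summable.tsum_comm (f := fun n k : ℤ =>
    E (-(π * t / α * (n : ℝ) ^ 2 + π / (t * α) * ((k : ℝ) - y) ^ 2))
        (2 * π * (n * r * (k - y) - n * x))) hs2
  rw [← hcomm]
  simp only [step2 hα ht r x y]
  rw [tsum_mul_left, ← hs3.tsum_prod, ← mul_assoc]
  congr 1
  rw [cpow_half (mul_pos ht hα), cpow_half (div_pos ht hα)]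
  have h1 : √(t * α) * √(t / α) = t := by
    rw [← Real.sqrt_mul (mul_pos ht hα).le]
    have : t * α * (t / α) = t ^ 2 := by
      field_simp
    rw [this, Real.sqrt_sq ht.le]
  have h2 : ((√(t * α) : ℝ) : ℂ) * ((√(t / α) : ℝ) : ℂ) = (t : ℂ) := by
    rw [← Complex.ofReal_mul, h1]
  rw [one_div, one_div, one_div, ← mul_inv, h2]

/-- norm in the coordinates of the lattice -/
theorem norm_form {a b c d A : ℝ} (hN : 0 < a ^ 2 + b ^ 2) (hA : 0 < A)
    (hD : A ^ 2 = (a * d - b * c) ^ 2) (u v : ℝ) :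
    (u * a + v * c) ^ 2 + (u * b + v * d) ^ 2 =
      A * ((a ^ 2 + b ^ 2) / A * (u + v * ((a * c + b * d) / (a ^ 2 + b ^ 2))) ^ 2 +
        v ^ 2 / ((a ^ 2 + b ^ 2) / A)) := by
  have h1 : A * ((a ^ 2 + b ^ 2) / A * (u + v * ((a * c + b * d) / (a ^ 2 + b ^ 2))) ^ 2 +
        v ^ 2 / ((a ^ 2 + b ^ 2) / A)) =
      ((u * (a ^ 2 + b ^ 2) + v * (a * c + b * d)) ^ 2 + v ^ 2 * A ^ 2) / (a ^ 2 + b ^ 2) := by
    field_simp
  rw [h1, hD, eq_div_iff hN.ne']
  ring

end PoiAux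

open PoiAux

theorem t_POI (hLAT : St_LAT) : St_POI := by
  intro L t ht z
  obtain ⟨hA, -⟩ := hLAT L
  -- real coordinates
  obtain ⟨x, y, hz⟩ : ∃ x y : ℝ, z = x * L.ω₁ + y * L.ω₂ := by
    refine ⟨L.basis.repr z 0, L.basis.repr z 1, ?_⟩
    have h := L.basis.sum_repr z
    rw [Fin.sum_univ_two] at h
    simp only [PeriodPair.basis_zero, PeriodPair.basis_one, Complex.real_smul] at h
    exact h.symm
  set a := L.ω₁.re with hadef
  set b := L.ω₁.im with hbdef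
  set c := L.ω₂.re with hcdef
  set d := L.ω₂.im with hddef
  have hDim : (conj L.ω₁ * L.ω₂).im = a * d - b * c := by
    rw [Complex.mul_im]
    simp only [Complex.conj_re, Complex.conj_im]
    ring
  have hAabs : area L = |a * d - b * c| := by
    unfold area
    rw [hDim]
  set A := area L with hAdef
  have hA2 : A ^ 2 = (a * d - b * c) ^ 2 := by
    rw [hAabs, sq_abs]
  have hN : 0 < a ^ 2 + b ^ 2 := by
    rcases eq_or_lt_of_le (by positivity : 0 ≤ a ^ 2 + b ^ 2) with h | h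
    · exfalso
      have ha0 : a = 0 := by nlinarith [sq_nonneg a, sq_nonneg b]
      have hb0 : b = 0 := by nlinarith [sq_nonneg a, sq_nonneg b]
      rw [ha0, hb0] at hAabs
      simp only [zero_mul, sub_self, abs_zero] at hAabs
      linarith
    · exact h
  set α : ℝ := (a ^ 2 + b ^ 2) / A with hα
  set r : ℝ := (a * c + b * d) / (a ^ 2 + b ^ 2) with hr
  have hα0 : 0 < α := div_pos hN hA
  have hnorm : ∀ u v : ℝ, ‖(u : ℂ) * L.ω₁ + v * L.ω₂‖ ^ 2 =
      A * (α * (u + v * r) ^ 2 + v ^ 2 / α) := by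
    intro u v
    rw [← norm_form hN hA hA2 u v, Complex.sq_norm, Complex.normSq_apply]
    simp only [Complex.add_re, Complex.add_im, Complex.mul_re, Complex.mul_im, Complex.ofReal_re,
      Complex.ofReal_im]
    ring
  -- the pairing
  have hpair : ∀ u v : ℝ, conj ((u : ℂ) * L.ω₁ + v * L.ω₂) * z -
      ((u : ℂ) * L.ω₁ + v * L.ω₂) * conj z =
      ((2 * (a * d - b * c) * (u * y - v * x) : ℝ) : ℂ) * I := by
    intro u v
    rw [hz]
    apply Complex.ext
    · simp only [Complex.sub_re, Complex.add_re, Complex.add_im, Complex.mul_re, Complex.mul_im,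
        Complex.ofReal_re, Complex.ofReal_im, Complex.conj_re, Complex.conj_im, Complex.I_re,
        Complex.I_im]
      ring
    · simp only [Complex.sub_im, Complex.add_re, Complex.add_im, Complex.mul_re, Complex.mul_im,
        Complex.ofReal_re, Complex.ofReal_im, Complex.conj_re, Complex.conj_im, Complex.I_re,
        Complex.I_im]
      ring
  -- the theta series
  have hTh : Th L t z = ∑' p : ℤ × ℤ,
      E (-(π * t * (α * ((p.2 : ℝ) + p.1 * r) ^ 2 + (p.1 : ℝ) ^ 2 / α)))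
        (2 * π * (p.2 * y - p.1 * x)) := by
    unfold Th
    rcases lt_or_ge 0 (a * d - b * c) with hD | hD
    · have hAD : A = a * d - b * c := by rw [hAabs, abs_of_pos hD]
      rw [← ((Equiv.prodComm ℤ ℤ).trans L.latticeEquivProd.symm.toEquiv).tsum_eq]
      apply tsum_congr
      rintro ⟨n, m⟩
      have hw : ((((Equiv.prodComm ℤ ℤ).trans L.latticeEquivProd.symm.toEquiv) (n, m) :
          L.lattice) : ℂ) = ((m : ℝ) : ℂ) * L.ω₁ + ((n : ℝ) : ℂ) * L.ω₂ := by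
        refine (L.latticeEquiv_symm_apply (m, n)).trans ?_
        push_cast
        rfl
      unfold pr
      rw [hw, hpair, hnorm, Complex.ofReal_exp, ← Complex.exp_add, ← hAdef]
      unfold E
      congr 1
      have hA0 : (A : ℂ) ≠ 0 := by exact_mod_cast hA.ne'
      rw [← hAD]
      push_cast
      field_simp
      ring
    · have hAD : a * d - b * c = -A := by rw [hAabs, abs_of_nonpos hD]; ring
      rw [← (((Equiv.neg (ℤ × ℤ)).trans (Equiv.prodComm ℤ ℤ)).trans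
        L.latticeEquivProd.symm.toEquiv).tsum_eq]
      apply tsum_congr
      rintro ⟨n, m⟩
      have hw : (((((Equiv.neg (ℤ × ℤ)).trans (Equiv.prodComm ℤ ℤ)).trans
          L.latticeEquivProd.symm.toEquiv) (n, m) : L.lattice) : ℂ)
          = ((-(m : ℝ) : ℝ) : ℂ) * L.ω₁ + ((-(n : ℝ) : ℝ) : ℂ) * L.ω₂ := by
        refine (L.latticeEquiv_symm_apply (-m, -n)).trans ?_
        push_cast
        rfl
      unfold pr
      rw [hw, hpair, hnorm, Complex.ofReal_exp, ← Complex.exp_add, ← hAdef]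
      unfold E
      congr 1
      have hA0 : (A : ℂ) ≠ 0 := by exact_mod_cast hA.ne'
      rw [hAD]
      push_cast
      field_simp
      ring
  -- the Gaussian sum
  have hGs : ((Gs L t z : ℝ) : ℂ) = ∑' p : ℤ × ℤ,
      E (-(π / t * (α * ((p.2 : ℝ) + x - r * (p.1 - y)) ^ 2 + ((p.1 : ℝ) - y) ^ 2 / α))) 0 := by
    unfold Gs
    rw [Complex.ofReal_tsum, ← (((Equiv.prodComm ℤ ℤ).trans
      ((Equiv.refl ℤ).prodCongr (Equiv.neg ℤ))).trans L.latticeEquivProd.symm.toEquiv).tsum_eq]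
    apply tsum_congr
    rintro ⟨k, l⟩
    have hw : (((((Equiv.prodComm ℤ ℤ).trans
        ((Equiv.refl ℤ).prodCongr (Equiv.neg ℤ))).trans L.latticeEquivProd.symm.toEquiv) (k, l) :
          L.lattice) : ℂ) = ((l : ℝ) : ℂ) * L.ω₁ + ((-(k : ℝ) : ℝ) : ℂ) * L.ω₂ := by
      refine (L.latticeEquiv_symm_apply (l, -k)).trans ?_
      push_cast
      rfl
    have hzw : z + (((l : ℝ) : ℂ) * L.ω₁ + ((-(k : ℝ) : ℝ) : ℂ) * L.ω₂) =
        ((x + l : ℝ) : ℂ) * L.ω₁ + ((y - k : ℝ) : ℂ) * L.ω₂ := by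
      rw [hz]
      push_cast
      ring
    rw [hw, hzw, hnorm, E_zero, ← hAdef]
    congr 2
    field_simp
    ring
  rw [hTh, hGs, poi2 hα0 ht r x y, ← mul_assoc]
  have htc : (t : ℂ) ≠ 0 := by exact_mod_cast ht.ne'
  rw [mul_one_div_cancel htc, one_mul]

end

end Pool.Agent.MU3B
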