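import Pool.Agent.MU3.StB

/-!
# MU3, block B: module POL (helper21)
-/

set_option autoImplicit false

namespace Pool.Agent.MU3B

open Complex Real Filter Topology
open scoped ComplexConjugate

namespace POL21

/-- a sum over the lattice, the zero term is separated -/
theorem split (L : PeriodPair) (f : L.lattice → ℂ) (v : L.lattice → ℝ) (hv : Summable v)
    (hf : ∀ w : L.lattice, w ≠ 0 → ‖f w‖ ≤ v w) (hv0 : ∀ w, 0 ≤ v w) :
    ‖(∑' w, f w) - f 0‖ ≤ ∑' w, v w := by
  classical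
  set g : L.lattice → ℂ := fun w => if w = 0 then 0 else f w with hg
  have hgv : ∀ w, ‖g w‖ ≤ v w := by
    intro w
    by_cases h : w = 0
    · rw [hg]
      simp only [h, if_true, norm_zero]
      exact hv0 0
    · rw [hg]
      simp only [h, if_false]
      exact hf w h
  have hgs : Summable g := Summable.of_norm_bounded hv hgv
  have h0 : HasSum (fun w : L.lattice => if w = 0 then f 0 else 0) (f 0) := hasSum_ite_eq 0 (f 0)
  have h1 := hgs.hasSum.add h0
  have e : (fun w => g w + (if w = 0 then f 0 else 0)) = f := by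
    funext w
    by_cases h : w = 0
    · rw [hg]; simp [h]
    · rw [hg]; simp [h]
  rw [e] at h1
  rw [h1.tsum_eq, add_sub_cancel_right]
  exact tsum_of_norm_bounded hv.hasSum hgv

theorem key (hSUM : St_SUM) (hLAT : St_LAT) (L : PeriodPair) :
    ∃ (δ M : ℝ), 0 < δ ∧ (∀ z ∈ Metric.ball (0 : ℂ) δ, z ≠ 0 → z ∉ L.lattice) ∧
      ∀ z ∈ Metric.ball (0 : ℂ) δ, z ≠ 0 → ‖zet L z - 1 / z‖ ≤ M := by
  obtain ⟨hA, hpr, _, _, _, _, _, _, δ₀, hδ₀, hmin⟩ := hLAT L
  set c : ℝ := π / area L with hc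
  have hc0 : 0 < c := div_pos Real.pi_pos hA
  set δ : ℝ := δ₀ / 2 with hδ
  have hδ0 : 0 < δ := by rw [hδ]; linarith
  obtain ⟨u, hus, hu⟩ := hSUM L c hc0 0 δ
  have hex : ∀ x : ℝ, Real.exp (-(π * x ^ 2 / area L)) = Real.exp (-(c * x ^ 2)) := by
    intro x
    rw [hc, div_mul_eq_mul_div]
  have hvs : Summable (fun w => u w / δ) := hus.div_const δ
  refine ⟨δ, 2 * (c * δ) + 2 * ∑' w, u w / δ, hδ0, ?_, ?_⟩
  · intro z hz hz0 hL
    have h1 := hmin z hL hz0
    rw [mem_ball_zero_iff] at hz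
    linarith
  · intro z hz hz0
    rw [mem_ball_zero_iff] at hz
    have hzn : 0 < ‖z‖ := norm_pos_iff.2 hz0
    have hu1 : ∀ w : L.lattice, Real.exp (-(c * ‖z + w‖ ^ 2)) ≤ u w := by
      intro w
      have := (hu w z hz.le).1
      rwa [pow_zero, one_mul] at this
    have hu2 : ∀ w : L.lattice, Real.exp (-(c * ‖(w : ℂ)‖ ^ 2)) ≤ u w := by
      intro w
      have := (hu w z hz.le).2
      rwa [pow_zero, one_mul] at this
    have hu0 : ∀ w : L.lattice, 0 ≤ u w / δ := by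
      intro w
      exact div_nonneg ((Real.exp_pos _).le.trans (hu1 w)) hδ0.le
    have hw : ∀ w : L.lattice, w ≠ 0 → δ₀ ≤ ‖(w : ℂ)‖ := by
      intro w hw0
      exact hmin w w.2 (fun h => hw0 (Subtype.ext h))
    -- first sum
    have s1 := split L (fun w => (Real.exp (-(π * ‖z + w‖ ^ 2 / area L)) : ℝ) / (z + w))
      (fun w => u w / δ) hvs (by
        intro w hw0
        show ‖((Real.exp (-(π * ‖z + w‖ ^ 2 / area L)) : ℝ) : ℂ) / (z + w)‖ ≤ u w / δ
        rw [norm_div, Complex.norm_real, Real.norm_eq_abs, abs_of_pos (Real.exp_pos _), hex]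
        have h1 : δ ≤ ‖z + w‖ := by
          have h2 := hw w hw0
          have h3 : ‖(w : ℂ)‖ ≤ ‖z + w‖ + ‖z‖ := by
            have := norm_sub_le (z + w) z
            rwa [add_sub_cancel_left] at this
          linarith
        exact div_le_div₀ ((Real.exp_pos _).le.trans (hu1 w)) (hu1 w) hδ0 h1) hu0
    -- second sum
    have s2 : ‖∑' w : L.lattice, pr L w z * (Real.exp (-(π * ‖(w : ℂ)‖ ^ 2 / area L)) : ℝ) / w‖ ≤
        ∑' w, u w / δ := by
      apply tsum_of_norm_bounded hvs.hasSum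
      intro w
      by_cases hw0 : w = 0
      · rw [hw0]
        simp only [ZeroMemClass.coe_zero, div_zero, norm_zero]
        exact hu0 0
      · rw [norm_div, norm_mul, hpr, one_mul, Complex.norm_real, Real.norm_eq_abs,
          abs_of_pos (Real.exp_pos _), hex]
        have h1 : δ ≤ ‖(w : ℂ)‖ := by
          have := hw w hw0
          linarith
        exact div_le_div₀ ((Real.exp_pos _).le.trans (hu2 w)) (hu2 w) hδ0 h1
    have s3 : ‖((π / area L : ℝ) : ℂ) * conj z‖ ≤ c * δ := by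
      rw [norm_mul, Complex.norm_real, Real.norm_eq_abs, ← hc, abs_of_pos hc0]
      have : ‖conj z‖ = ‖z‖ := Complex.norm_conj z
      rw [this]
      exact mul_le_mul_of_nonneg_left hz.le hc0.le
    have s4 : ‖((Real.exp (-(π * ‖z + ((0 : L.lattice) : ℂ)‖ ^ 2 / area L)) : ℝ) : ℂ) /
        (z + ((0 : L.lattice) : ℂ)) - 1 / z‖ ≤ c * δ := by
      rw [hex, ZeroMemClass.coe_zero, add_zero, ← sub_div, norm_div]
      have h1 : ‖((Real.exp (-(c * ‖z‖ ^ 2)) : ℝ) : ℂ) - 1‖ ≤ c * ‖z‖ ^ 2 := by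
        have e : ((Real.exp (-(c * ‖z‖ ^ 2)) : ℝ) : ℂ) - 1 =
            (((Real.exp (-(c * ‖z‖ ^ 2)) - 1 : ℝ)) : ℂ) := by push_cast; ring
        rw [e, Complex.norm_real, Real.norm_eq_abs, abs_sub_comm]
        have h2 : Real.exp (-(c * ‖z‖ ^ 2)) ≤ 1 := by
          apply Real.exp_le_one_iff.2
          have : 0 ≤ c * ‖z‖ ^ 2 := by positivity
          linarith
        rw [abs_of_nonneg (by linarith)]
        have h3 := Real.add_one_le_exp (-(c * ‖z‖ ^ 2))
        linarith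
      rw [div_le_iff₀ hzn]
      have h4 : c * ‖z‖ ^ 2 ≤ c * δ * ‖z‖ := by
        have : c * ‖z‖ ^ 2 = c * ‖z‖ * ‖z‖ := by ring
        rw [this]
        apply mul_le_mul_of_nonneg_right _ hzn.le
        exact mul_le_mul_of_nonneg_left hz.le hc0.le
      exact h1.trans h4
    have e : zet L z - 1 / z =
        ((∑' w : L.lattice, ((Real.exp (-(π * ‖z + w‖ ^ 2 / area L)) : ℝ) : ℂ) / (z + w)) -
          ((Real.exp (-(π * ‖z + ((0 : L.lattice) : ℂ)‖ ^ 2 / area L)) : ℝ) : ℂ) /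
            (z + ((0 : L.lattice) : ℂ))) +
        (((Real.exp (-(π * ‖z + ((0 : L.lattice) : ℂ)‖ ^ 2 / area L)) : ℝ) : ℂ) /
          (z + ((0 : L.lattice) : ℂ)) - 1 / z) -
        (∑' w : L.lattice, pr L w z * (Real.exp (-(π * ‖(w : ℂ)‖ ^ 2 / area L)) : ℝ) / w) +
        ((π / area L : ℝ) : ℂ) * conj z := by
      unfold zet ee
      ring
    rw [e]
    refine (norm_add_le _ _).trans ?_
    have n1 := norm_sub_le
      (((∑' w : L.lattice, ((Real.exp (-(π * ‖z + w‖ ^ 2 / area L)) : ℝ) : ℂ) / (z + w)) -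
          ((Real.exp (-(π * ‖z + ((0 : L.lattice) : ℂ)‖ ^ 2 / area L)) : ℝ) : ℂ) /
            (z + ((0 : L.lattice) : ℂ))) +
        (((Real.exp (-(π * ‖z + ((0 : L.lattice) : ℂ)‖ ^ 2 / area L)) : ℝ) : ℂ) /
          (z + ((0 : L.lattice) : ℂ)) - 1 / z))
      (∑' w : L.lattice, pr L w z * (Real.exp (-(π * ‖(w : ℂ)‖ ^ 2 / area L)) : ℝ) / w)
    have n2 := norm_add_le
      ((∑' w : L.lattice, ((Real.exp (-(π * ‖z + w‖ ^ 2 / area L)) : ℝ) : ℂ) / (z + w)) -
          ((Real.exp (-(π * ‖z + ((0 : L.lattice) : ℂ)‖ ^ 2 / area L)) : ℝ) : ℂ) /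
            (z + ((0 : L.lattice) : ℂ)))
      (((Real.exp (-(π * ‖z + ((0 : L.lattice) : ℂ)‖ ^ 2 / area L)) : ℝ) : ℂ) /
          (z + ((0 : L.lattice) : ℂ)) - 1 / z)
    linarith

end POL21

open POL21 in
theorem t_POL (hSUM : St_SUM) (hLAT : St_LAT) (hHOL : St_HOL) (hPER : St_PER) : St_POL := by
  intro L
  obtain ⟨δ, M, hδ, hnot, hM⟩ := key hSUM hLAT L
  set f : ℂ → ℂ := fun z => zet L z - 1 / z with hf
  set h : ℂ → ℂ := Function.update f 0 (limUnder (𝓝[≠] 0) f) with hh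
  have hhf : ∀ z, z ≠ 0 → h z = f z := fun z hz => Function.update_of_ne hz _ _
  have hd : DifferentiableOn ℂ f (Metric.ball 0 δ \ {0}) := by
    intro z hz
    have hz0 : z ≠ 0 := hz.2
    have h1 := hHOL L z (hnot z hz.1 hz0)
    have h2 : DifferentiableAt ℂ (fun z : ℂ => 1 / z) z :=
      (differentiableAt_const (1 : ℂ)).div differentiableAt_id hz0
    exact (h1.sub h2).differentiableWithinAt
  have hb : BddAbove (norm ∘ f '' (Metric.ball 0 δ \ {0})) := by
    refine ⟨M, ?_⟩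
    rintro _ ⟨z, hz, rfl⟩
    exact hM z hz.1 hz.2
  have hD : DifferentiableOn ℂ h (Metric.ball 0 δ) :=
    Complex.differentiableOn_update_limUnder_of_bddAbove (Metric.ball_mem_nhds 0 hδ) hd hb
  have hodd : ∀ z, z ≠ 0 → h (-z) = -h z := by
    intro z hz
    have hz' : -z ≠ 0 := neg_ne_zero.2 hz
    rw [hhf z hz, hhf (-z) hz']
    show zet L (-z) - 1 / (-z) = -(zet L z - 1 / z)
    unfold zet
    rw [(hPER L).2 z, map_neg]
    field_simp
    ring
  have hcont : ContinuousAt h 0 :=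
    (hD.differentiableAt (Metric.ball_mem_nhds 0 hδ)).continuousAt
  have h0 : h 0 = 0 := by
    have c1 : Tendsto (fun z => h (-z)) (𝓝 0) (𝓝 (h 0)) := by
      have : Tendsto (fun z : ℂ => -z) (𝓝 0) (𝓝 0) := by
        have := (continuous_neg (G := ℂ)).tendsto 0
        rwa [neg_zero] at this
      exact hcont.tendsto.comp this
    have c2 : Tendsto (fun z => h (-z) + h z) (𝓝[≠] 0) (𝓝 (h 0 + h 0)) :=
      (c1.add hcont.tendsto).mono_left nhdsWithin_le_nhds
    have c3 : Tendsto (fun z => h (-z) + h z) (𝓝[≠] 0) (𝓝 0) := by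
      apply tendsto_const_nhds.congr'
      filter_upwards [self_mem_nhdsWithin] with z hz
      rw [hodd z hz]
      ring
    have := tendsto_nhds_unique c2 c3
    have h2 : (2 : ℂ) * h 0 = 0 := by linear_combination this
    simpa using h2
  refine ⟨h, δ, hδ, hD, ?_, ?_⟩
  · intro z _
    by_cases hz : z = 0
    · rw [hz, neg_zero, h0, neg_zero]
    · exact hodd z hz
  · intro z hz hz0
    refine ⟨hnot z hz hz0, ?_⟩
    rw [hhf z hz0]
    show zet L z = 1 / z + (zet L z - 1 / z)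
    ring

end Pool.Agent.MU3B
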