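import Mathlib
import Pool.Agent.MU3.StB
import Pool.Agent.MU3.B_NUM

/-!
# MU3, block B, module REP: representatives exist
-/

set_option autoImplicit false

namespace Pool.Agent.MU3B

open Complex Real Filter Topology
open scoped ComplexConjugate

open NUM in
theorem t_REP (hLAT : St_LAT) : St_REP := by
  classical
  intro L a ha haL
  have hcard := card_quot hLAT L a ha haL
  have hpos : 0 < ‖a‖ ^ 2 := by
    have := norm_pos_iff.2 ha
    positivity
  rw [← hcard] at hpos
  have hne : Nat.card (L.lattice ⧸ LinearMap.range (mulL L a haL)) ≠ 0 := by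
    intro h
    rw [h] at hpos
    simp at hpos
  have hfin : Finite (L.lattice ⧸ LinearMap.range (mulL L a haL)) :=
    Nat.finite_of_card_ne_zero hne
  have := Fintype.ofFinite (L.lattice ⧸ LinearMap.range (mulL L a haL))
  have key : ∀ (u v : L.lattice) (z : ℂ), a * z = (u : ℂ) - v →
      ((Submodule.Quotient.mk u : L.lattice ⧸ LinearMap.range (mulL L a haL)) =
        Submodule.Quotient.mk v ↔ z ∈ L.lattice) := by
    intro u v z h
    rw [Submodule.Quotient.eq]
    have h2 : a * z ∈ L.lattice := by rw [h]; exact sub_mem u.2 v.2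
    rw [← mem_range L a haL z ha h2]
    have e : (⟨a * z, h2⟩ : L.lattice) = u - v := Subtype.ext h
    rw [e]
  have hout : ∀ c : L.lattice ⧸ LinearMap.range (mulL L a haL),
      (Submodule.Quotient.mk (Quotient.out c) :
        L.lattice ⧸ LinearMap.range (mulL L a haL)) = c := fun c => Quotient.out_eq c
  refine ⟨(Finset.univ.filter (fun c : L.lattice ⧸ LinearMap.range (mulL L a haL) =>
    c ≠ 0)).image (fun c => ((Quotient.out c : L.lattice) : ℂ) / a), ?_, ?_, ?_, ?_⟩
  · intro q hq
    obtain ⟨c, -, rfl⟩ := Finset.mem_image.1 hq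
    rw [mul_div_cancel₀ _ ha]
    exact (Quotient.out c : L.lattice).2
  · intro q hq h
    obtain ⟨c, hc, rfl⟩ := Finset.mem_image.1 hq
    apply (Finset.mem_filter.1 hc).2
    rw [← hout c, ← Submodule.Quotient.mk_zero]
    refine (key _ 0 _ ?_).2 h
    rw [mul_div_cancel₀ _ ha]
    simp
  · intro q hq q' hq' h
    obtain ⟨c, hc, rfl⟩ := Finset.mem_image.1 hq
    obtain ⟨c', hc', rfl⟩ := Finset.mem_image.1 hq'
    have h1 : c = c' := by
      rw [← hout c, ← hout c']
      refine (key _ _ _ ?_).2 h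
      rw [mul_sub, mul_div_cancel₀ _ ha, mul_div_cancel₀ _ ha]
    rw [h1]
  · intro z hz hz'
    refine ⟨_, Finset.mem_image.2 ⟨Submodule.Quotient.mk ⟨a * z, hz⟩,
      Finset.mem_filter.2 ⟨Finset.mem_univ _, ?_⟩, rfl⟩, ?_⟩
    · intro h
      apply hz'
      rw [← Submodule.Quotient.mk_zero] at h
      exact (key _ _ z (by simp)).1 h
    · refine (key ⟨a * z, hz⟩ _ _ ?_).1 (hout _).symm
      rw [mul_sub, mul_div_cancel₀ _ ha]

end Pool.Agent.MU3B
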