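import Pool.Agent.MU3.StB

/-!
# MU3, block B: homogeneity of `e`
-/

set_option autoImplicit false

namespace Pool.Agent.MU3B

open Complex Real Filter Topology
open scoped ComplexConjugate

theorem t_SCL (hINT : St_INT) : St_SCL := by
  intro L L' a ha hL z
  have hna : 0 < ‖a‖ ^ 2 := by positivity
  have h1 := (hINT L' 1 one_pos (a * z)).2
  have h2 := (hINT L (‖a‖ ^ 2) hna z).2
  let E : L.lattice ≃ L'.lattice :=
    { toFun := fun w => ⟨a * w, (hL w).1 w.2⟩
      invFun := fun w => ⟨(w : ℂ) / a, (hL _).2 (by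
        rw [mul_div_cancel₀ _ ha]
        exact w.2)⟩
      left_inv := fun w => by
        apply Subtype.ext
        exact mul_div_cancel_left₀ _ ha
      right_inv := fun w => by
        apply Subtype.ext
        exact mul_div_cancel₀ _ ha }
  have hE : ∀ w : L.lattice, ((E w : L'.lattice) : ℂ) = a * w := fun _ => rfl
  have key : ∀ t : ℝ, (∑' w : L'.lattice,
      conj (a * z + w) * (Real.exp (-(1 * t * ‖a * z + w‖ ^ 2)) : ℝ)) =
      conj a * ∑' w : L.lattice,
        conj (z + w) * (Real.exp (-(‖a‖ ^ 2 * t * ‖z + w‖ ^ 2)) : ℝ) := by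
    intro t
    rw [← tsum_mul_left, ← E.tsum_eq]
    apply tsum_congr
    intro w
    rw [hE, ← mul_add, map_mul, norm_mul]
    have e1 : 1 * t * (‖a‖ * ‖z + (w : ℂ)‖) ^ 2 = ‖a‖ ^ 2 * t * ‖z + (w : ℂ)‖ ^ 2 := by ring
    rw [e1, mul_assoc]
  have h3 : (∫ t in Set.Ioi (0 : ℝ), ∑' w : L'.lattice,
      conj (a * z + w) * ((Real.exp (-(1 * t * ‖a * z + w‖ ^ 2)) : ℝ) : ℂ)) =
      conj a * (ee L z / ((‖a‖ ^ 2 : ℝ) : ℂ)) := by
    rw [← h2, ← MeasureTheory.integral_const_mul]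
    congr 1
    funext t
    exact key t
  rw [h3] at h1
  have h4 : conj a * (ee L z / ((‖a‖ ^ 2 : ℝ) : ℂ)) = ee L z / a := by
    have hca : conj a ≠ 0 := by
      rwa [Ne, map_eq_zero]
    have h5 : ((‖a‖ ^ 2 : ℝ) : ℂ) = a * conj a := by
      rw [Complex.mul_conj, Complex.normSq_eq_norm_sq]
    rw [h5]
    field_simp
  rw [h4] at h1
  rw [h1]
  simp

end Pool.Agent.MU3B
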