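import Pool.Agent.MU3.StB2

/-!
# MU3, block B: (SD), sum and difference
-/

set_option autoImplicit false

namespace Pool.Agent.MU3B

theorem t_SD (hADD : St_ADD) (hNEQ : St_NEQ) : St_SD := by
  intro L Q z hQ hz h1 h2
  have hne : L.weierstrassP z ≠ L.weierstrassP Q := by
    intro h
    rcases hNEQ L Q z hQ hz h with h | h
    · exact h2 h
    · exact h1 h
  have hQ' : -Q ∉ L.lattice := fun h => hQ (by simpa using neg_mem h)
  have h1' : z + -Q ∉ L.lattice := by rwa [← sub_eq_add_neg]
  have h2' : z - -Q ∉ L.lattice := by rwa [sub_neg_eq_add]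
  have a1 := (hADD L Q z hQ hz h1 h2).1
  have a2 := (hADD L (-Q) z hQ' hz h1' h2').1
  rw [L.weierstrassP_neg, L.derivWeierstrassP_neg, ← sub_eq_add_neg] at a2
  have e1 := L.derivWeierstrassP_sq z hz
  have e2 := L.derivWeierstrassP_sq Q hQ
  have hD : L.weierstrassP z - L.weierstrassP Q ≠ 0 := sub_ne_zero.2 hne
  generalize L.weierstrassP (z + Q) = s at *
  generalize L.weierstrassP (z - Q) = t at *
  generalize L.weierstrassP z = p at *
  generalize L.weierstrassP Q = q at *
  generalize L.derivWeierstrassP z = p' at *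
  generalize L.derivWeierstrassP Q = q' at *
  have b1 : s = ((p' - q') / (2 * (p - q))) ^ 2 - p - q := by
    rw [← a1]
    ring
  have b2 : t = ((p' - -q') / (2 * (p - q))) ^ 2 - p - q := by
    rw [← a2]
    ring
  refine ⟨hne, ?_, ?_⟩
  · rw [b1, b2, eq_div_iff (pow_ne_zero 2 hD)]
    have c1 : (((p' - q') / (2 * (p - q))) ^ 2 - p - q +
        (((p' - -q') / (2 * (p - q))) ^ 2 - p - q)) * (p - q) ^ 2 =
        (p' ^ 2 + q' ^ 2) / 2 - 2 * (p + q) * (p - q) ^ 2 := by
      field_simp
      ring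
    rw [c1, e1, e2]
    ring
  · rw [b1, b2, eq_div_iff (pow_ne_zero 2 hD)]
    field_simp
    ring

end Pool.Agent.MU3B
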