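import Pool.Agent.MU3.StB

/-!
# (SUM) Gaussian domination
-/

set_option autoImplicit false

namespace Pool.Agent.MU3B

open Complex Real Filter Topology

theorem sum_gauss_bound {c : ℝ} (hc : 0 < c) (m : ℕ) {x : ℝ} (hx : 0 ≤ x) :
    (1 + x) ^ m * Real.exp (-(c * x ^ 2)) ≤ Real.exp ((m : ℝ) ^ 2 / (4 * c)) := by
  have h1 : (1 + x) ^ m ≤ Real.exp (m * x) := by
    have h2 : 1 + x ≤ Real.exp x := by
      have := Real.add_one_le_exp x
      linarith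
    calc (1 + x) ^ m ≤ (Real.exp x) ^ m := pow_le_pow_left₀ (by linarith) h2 m
      _ = Real.exp (m * x) := (Real.exp_nat_mul x m).symm
  calc (1 + x) ^ m * Real.exp (-(c * x ^ 2)) ≤ Real.exp (m * x) * Real.exp (-(c * x ^ 2)) :=
        mul_le_mul_of_nonneg_right h1 (Real.exp_pos _).le
    _ = Real.exp (m * x + -(c * x ^ 2)) := (Real.exp_add _ _).symm
    _ ≤ Real.exp ((m : ℝ) ^ 2 / (4 * c)) := by
        refine Real.exp_le_exp.2 ?_
        rw [le_div_iff₀ (by linarith)]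
        nlinarith [sq_nonneg ((m : ℝ) - 2 * c * x)]

theorem t_SUM : St_SUM := by
  intro L c hc k R
  set K : ℝ := (1 + |R|) ^ 3 * Real.exp (((k + 3 : ℕ) : ℝ) ^ 2 / (4 * c)) with hK
  have hK0 : 0 ≤ K := by positivity
  have main : ∀ (w : L.lattice) (z : ℂ), ‖z‖ ≤ |R| →
      (1 + ‖z + w‖) ^ k * Real.exp (-(c * ‖z + w‖ ^ 2)) ≤
        K * ((‖w‖ ^ 3)⁻¹ + if w = 0 then 1 else 0) := by
    intro w z hz
    have hR : 0 ≤ |R| := abs_nonneg R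
    have hx : 0 ≤ ‖z + (w : ℂ)‖ := norm_nonneg _
    have hw : ‖w‖ = ‖(w : ℂ)‖ := rfl
    have e1 : ‖(w : ℂ)‖ ≤ ‖z + (w : ℂ)‖ + |R| := by
      have h2 : (w : ℂ) = (z + w) - z := by ring
      calc ‖(w : ℂ)‖ = ‖(z + w) - z‖ := by rw [← h2]
        _ ≤ ‖z + (w : ℂ)‖ + ‖z‖ := norm_sub_le _ _
        _ ≤ _ := by linarith
    have e2 : 1 + ‖(w : ℂ)‖ ≤ (1 + |R|) * (1 + ‖z + (w : ℂ)‖) := by
      nlinarith [mul_nonneg hR hx]
    have e3 : (1 + ‖(w : ℂ)‖) ^ 3 ≤ (1 + |R|) ^ 3 * (1 + ‖z + (w : ℂ)‖) ^ 3 := by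
      rw [← mul_pow]
      exact pow_le_pow_left₀ (by positivity) e2 3
    have e4 := sum_gauss_bound hc (k + 3) hx
    have e5 : (1 + ‖(w : ℂ)‖) ^ 3 * ((1 + ‖z + (w : ℂ)‖) ^ k *
        Real.exp (-(c * ‖z + (w : ℂ)‖ ^ 2))) ≤ K := by
      calc (1 + ‖(w : ℂ)‖) ^ 3 * ((1 + ‖z + (w : ℂ)‖) ^ k *
            Real.exp (-(c * ‖z + (w : ℂ)‖ ^ 2)))
          ≤ ((1 + |R|) ^ 3 * (1 + ‖z + (w : ℂ)‖) ^ 3) * ((1 + ‖z + (w : ℂ)‖) ^ k *
            Real.exp (-(c * ‖z + (w : ℂ)‖ ^ 2))) :=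
            mul_le_mul_of_nonneg_right e3 (by positivity)
        _ = (1 + |R|) ^ 3 * ((1 + ‖z + (w : ℂ)‖) ^ (k + 3) *
            Real.exp (-(c * ‖z + (w : ℂ)‖ ^ 2))) := by ring
        _ ≤ K := mul_le_mul_of_nonneg_left e4 (by positivity)
    have e6 : (1 + ‖z + (w : ℂ)‖) ^ k * Real.exp (-(c * ‖z + (w : ℂ)‖ ^ 2)) ≤
        K * ((1 + ‖(w : ℂ)‖) ^ 3)⁻¹ := by
      rw [← div_eq_mul_inv, le_div_iff₀ (by positivity)]
      linarith
    refine e6.trans (mul_le_mul_of_nonneg_left ?_ hK0)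
    by_cases h0 : w = 0
    · subst h0
      simp
    · rw [if_neg h0, add_zero, hw]
      have hpos : 0 < ‖(w : ℂ)‖ := by
        rw [← hw]
        exact norm_pos_iff.2 h0
      exact inv_anti₀ (by positivity) (pow_le_pow_left₀ hpos.le (by linarith) 3)
  refine ⟨fun w => K * ((‖w‖ ^ 3)⁻¹ + if w = 0 then 1 else 0), ?_, ?_⟩
  · refine Summable.mul_left _ (Summable.add ?_ (hasSum_ite_eq (0 : L.lattice) (1 : ℝ)).summable)
    have h3 := ZLattice.summable_norm_pow_inv L.lattice 3 (by simp)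
    simpa using h3
  · intro w z hz
    refine ⟨main w z (hz.trans (le_abs_self R)), ?_⟩
    have := main w 0 (by simp)
    simpa using this

end Pool.Agent.MU3B
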