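import Pool.Agent.MU3.StB

/-!
# MU3, block B: module SUR (helper21)
-/

set_option autoImplicit false

namespace Pool.Agent.MU3B

open Complex Real Filter Topology
open scoped ComplexConjugate

theorem t_SUR (hLIO : St_LIO) : St_SUR := by
  intro L x
  by_contra hcon
  have hne : ∀ z, z ∉ L.lattice → L.weierstrassP z ≠ x := fun z hz h => hcon ⟨z, hz, h⟩
  have hwp : ∀ z, L.weierstrassP z = L.weierstrassPExcept 0 z + 1 / z ^ 2 := by
    intro z
    have h := L.weierstrassPExcept_add 0 z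
    simpa using h.symm
  set f : ℂ → ℂ := fun z => (L.weierstrassP z - x)⁻¹ with hf
  have hE : ContinuousAt (L.weierstrassPExcept 0) 0 :=
    (L.analyticAt_weierstrassPExcept 0).continuousAt
  have hEt : Tendsto (L.weierstrassPExcept 0) (𝓝[≠] 0) (𝓝 (L.weierstrassPExcept 0 0)) :=
    hE.tendsto.mono_left nhdsWithin_le_nhds
  have tid : Tendsto (fun z : ℂ => z) (𝓝[≠] 0) (𝓝 0) := tendsto_id.mono_left nhdsWithin_le_nhds
  have tf : Tendsto f (𝓝[≠] 0) (𝓝 0) := by
    have t1 : Tendsto (fun z : ℂ => z ^ 2 / (1 + z ^ 2 * (L.weierstrassPExcept 0 z - x))) (𝓝[≠] 0)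
        (𝓝 (0 ^ 2 / (1 + 0 ^ 2 * (L.weierstrassPExcept 0 0 - x)))) := by
      apply Tendsto.div (tid.pow 2)
      · exact tendsto_const_nhds.add ((tid.pow 2).mul (hEt.sub_const x))
      · norm_num
    have e : (0 : ℂ) ^ 2 / (1 + 0 ^ 2 * (L.weierstrassPExcept 0 0 - x)) = 0 := by norm_num
    rw [e] at t1
    apply t1.congr'
    filter_upwards [self_mem_nhdsWithin] with z hz
    have hz0 : z ≠ 0 := hz
    show z ^ 2 / (1 + z ^ 2 * (L.weierstrassPExcept 0 z - x)) = (L.weierstrassP z - x)⁻¹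
    have e2 : L.weierstrassP z - x = (1 + z ^ 2 * (L.weierstrassPExcept 0 z - x)) / z ^ 2 := by
      rw [hwp z]
      field_simp
      ring
    rw [e2, inv_div]
  obtain ⟨c, hc⟩ := hLIO L f {0} (by
    intro z v hv
    show (L.weierstrassP (z + v) - x)⁻¹ = (L.weierstrassP z - x)⁻¹
    rw [L.weierstrassP_add_coe z ⟨v, hv⟩]) (by
    intro z hz
    have hz' : z ∉ L.lattice := by
      have := hz 0 (by simp)
      rwa [sub_zero] at this
    have d : DifferentiableAt ℂ L.weierstrassP z :=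
      L.differentiableOn_weierstrassP.differentiableAt
        (L.isClosed_lattice.isOpen_compl.mem_nhds hz')
    exact (d.sub_const x).inv (sub_ne_zero.2 (hne z hz'))) (by
    intro p hp
    rw [Finset.mem_singleton] at hp
    rw [hp]
    have := (tid.sub_const 0).mul tf
    rw [sub_zero, mul_zero] at this
    exact this)
  have hc' : ∀ z, z ∉ L.lattice → f z = c := by
    intro z hz
    apply hc z
    intro p hp
    rw [Finset.mem_singleton] at hp
    rw [hp, sub_zero]
    exact hz
  have hev : ∀ᶠ z in 𝓝[≠] (0 : ℂ), z ∉ L.lattice := by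
    have h1 := L.compl_lattice_sdiff_singleton_mem_nhds 0
    filter_upwards [mem_nhdsWithin_of_mem_nhds h1, self_mem_nhdsWithin] with z hz hz0 hL
    exact hz ⟨hL, hz0⟩
  have c0 : c = 0 := by
    have t2 : Tendsto f (𝓝[≠] 0) (𝓝 c) := by
      apply tendsto_const_nhds.congr'
      filter_upwards [hev] with z hz
      exact (hc' z hz).symm
    exact tendsto_nhds_unique t2 tf
  have h1 := hc' (L.ω₁ / 2) L.ω₁_div_two_notMem_lattice
  rw [c0] at h1
  have h2 : L.weierstrassP (L.ω₁ / 2) - x = 0 := inv_eq_zero.1 h1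
  exact hne _ L.ω₁_div_two_notMem_lattice (sub_eq_zero.1 h2)

end Pool.Agent.MU3B
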