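import Pool.Agent.MU3.StB2

/-!
# MU3, block B: (TDI), the distribution relation of `Θ_a` (helper39)
-/

set_option autoImplicit false

namespace Pool.Agent.MU3B

open Complex Real Filter Topology
open scoped ComplexConjugate

namespace TDI39

theorem closed_mul (L : PeriodPair) (c : ℂ) : IsClosed {z : ℂ | c * z ∈ L.lattice} :=
  L.isClosed_lattice.preimage (by fun_prop : Continuous fun z : ℂ => c * z)

theorem countable_mul (L : PeriodPair) {c : ℂ} (hc : c ≠ 0) :
    {z : ℂ | c * z ∈ L.lattice}.Countable := by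
  have h1 : (L.lattice : Set ℂ).Countable := by
    have : Countable L.lattice := L.latticeEquivProd.toEquiv.injective.countable
    exact Set.countable_coe_iff.1 this
  exact h1.preimage_of_injOn (f := fun z => c * z) fun x _ y _ h => mul_left_cancel₀ hc h

/-- `z² ℘(z) → 1`. -/
theorem lim_P (L : PeriodPair) :
    Tendsto (fun z => z ^ 2 * L.weierstrassP z) (𝓝[≠] 0) (𝓝 1) := by
  have h1 : ContinuousAt (L.weierstrassPExcept 0) 0 :=
    (L.analyticAt_weierstrassPExcept 0).continuousAt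
  have h2 : Tendsto (fun z : ℂ => z ^ 2 * L.weierstrassPExcept 0 z + 1) (𝓝[≠] 0) (𝓝 1) := by
    have h3 : ContinuousAt (fun z : ℂ => z ^ 2 * L.weierstrassPExcept 0 z + 1) 0 := by fun_prop
    have h4 := h3.tendsto
    simp only [ne_eq, OfNat.ofNat_ne_zero, not_false_eq_true, zero_pow, zero_mul, zero_add] at h4
    exact h4.mono_left nhdsWithin_le_nhds
  refine h2.congr' ?_
  filter_upwards [self_mem_nhdsWithin] with z (hz : z ≠ 0)
  have h5 := L.ite_eq_one_sub_sq_mul_weierstrassP 0 (zero_mem _) z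
  rw [if_neg hz] at h5
  simp only [sub_zero, ne_eq, OfNat.ofNat_ne_zero, not_false_eq_true, zero_pow, div_zero] at h5
  exact h5.symm

/-- `z^(2 |H|) Θ(z) → 1`. -/
theorem lim_Th (L : PeriodPair) (H : Finset ℂ) :
    Tendsto (fun z => z ^ (2 * H.card) * ThetaH L H z) (𝓝[≠] 0) (𝓝 1) := by
  have h1 : ∀ q ∈ H, Tendsto (fun z => z ^ 2 * (L.weierstrassP z - L.weierstrassP q))
      (𝓝[≠] 0) (𝓝 1) := by
    intro q _
    have h3 : Tendsto (fun z : ℂ => z ^ 2 * L.weierstrassP q) (𝓝[≠] 0) (𝓝 0) := by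
      have h4 : ContinuousAt (fun z : ℂ => z ^ 2 * L.weierstrassP q) 0 := by fun_prop
      have h5 := h4.tendsto
      simp only [ne_eq, OfNat.ofNat_ne_zero, not_false_eq_true, zero_pow, zero_mul] at h5
      exact h5.mono_left nhdsWithin_le_nhds
    have h6 := (lim_P L).sub h3
    simpa only [mul_sub, sub_zero] using h6
  have h4 := tendsto_finsetProd H h1
  simp only [Finset.prod_const_one] at h4
  refine h4.congr fun z => ?_
  unfold ThetaH
  rw [Finset.prod_mul_distrib, Finset.prod_const, ← pow_mul]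

/-- Multiplication by `a` permutes the classes. -/
theorem reps_mul (L : PeriodPair) (a b : ℂ) (R : Finset ℂ)
    (haL : ∀ w ∈ L.lattice, a * w ∈ L.lattice) (hR : IsReps L b R)
    (hab : ∀ z, a * z ∈ L.lattice → b * z ∈ L.lattice → z ∈ L.lattice) :
    IsReps L b (R.image fun r => a * r) := by
  have hnot : ∀ r ∈ R, a * r ∉ L.lattice := fun r hr h =>
    hR.ne r hr (hab r h (hR.mem r hr))
  have hinj : ∀ r ∈ R, ∀ r' ∈ R, a * r - a * r' ∈ L.lattice → r = r' := by
    intro r hr r' hr' h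
    refine hR.inj r hr r' hr' (hab _ ?_ ?_)
    · rw [mul_sub]; exact h
    · rw [mul_sub]; exact sub_mem (hR.mem r hr) (hR.mem r' hr')
  refine ⟨?_, ?_, ?_, ?_⟩
  · intro q hq
    obtain ⟨r, hr, rfl⟩ := Finset.mem_image.1 hq
    rw [mul_left_comm]
    exact haL _ (hR.mem r hr)
  · intro q hq
    obtain ⟨r, hr, rfl⟩ := Finset.mem_image.1 hq
    exact hnot r hr
  · intro q hq q' hq' h
    obtain ⟨r, hr, rfl⟩ := Finset.mem_image.1 hq
    obtain ⟨r', hr', rfl⟩ := Finset.mem_image.1 hq'
    show a * r = a * r'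
    rw [hinj r hr r' hr' h]
  · have hex : ∀ r ∈ R, ∃ q ∈ R, a * r - q ∈ L.lattice := by
      intro r hr
      refine hR.surj (a * r) ?_ (hnot r hr)
      rw [mul_left_comm]
      exact haL _ (hR.mem r hr)
    choose! s hs1 hs2 using hex
    have hsinj : Set.InjOn s R := by
      intro r hr r' hr' h
      refine hinj r hr r' hr' ?_
      have h1 := sub_mem (hs2 r hr) (hs2 r' hr')
      rw [h] at h1
      have h2 : a * r - a * r' = a * r - s r' - (a * r' - s r') := by ring
      rw [h2]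
      exact h1
    have hsurj := Finset.surjOn_of_injOn_of_card_le s (fun r hr => hs1 r hr) hsinj le_rfl
    intro z hz hzn
    obtain ⟨q, hq, hzq⟩ := hR.surj z hz hzn
    obtain ⟨r, hr, rfl⟩ := hsurj hq
    refine ⟨a * r, Finset.mem_image_of_mem _ hr, ?_⟩
    have h2 : z - a * r = z - s r - (a * r - s r) := by ring
    rw [h2]
    exact sub_mem hzq (hs2 r hr)

end TDI39

open TDI39 in
theorem t_TDI (hTDL : St_TDL) (hTNZ : St_TNZ) (hDIS : St_DIS) : St_TDI := by
  intro L a b H R ha hb haL hbL hH hR hab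
  have hnot : ∀ r ∈ R, a * r ∉ L.lattice := fun r hr h =>
    hR.ne r hr (hab r h (hR.mem r hr))
  have hne : ∏ r ∈ R, ThetaH L H r ≠ 0 := by
    rw [Finset.prod_ne_zero_iff]
    intro r hr h0
    exact hnot r hr ((hTNZ L a H haL hH r (hR.ne r hr)).1 h0)
  refine ⟨hne, ?_⟩
  set U : Set ℂ := {z : ℂ | a * b * z ∈ L.lattice}ᶜ with hU
  have hUo : IsOpen U := (closed_mul L (a * b)).isOpen_compl
  have hUc : IsPreconnected U :=
    ((countable_mul L (mul_ne_zero ha hb)).isPathConnected_compl_of_one_lt_rank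
      (rank_real_complex ▸ Nat.one_lt_ofNat)).isConnected.isPreconnected
  have hUd : Dense U := (countable_mul L (mul_ne_zero ha hb)).dense_compl ℝ
  -- membership facts
  have u1 : ∀ z ∈ U, a * z ∉ L.lattice := by
    intro z hz h
    refine hz ?_
    have h2 := hbL _ h
    show a * b * z ∈ L.lattice
    rw [mul_comm a b, mul_assoc]
    exact h2
  have u2 : ∀ z ∈ U, ∀ r ∈ R, a * (z + r) ∉ L.lattice := by
    intro z hz r hr h
    refine hz ?_
    have h2 := hbL _ h
    have h3 := haL _ (hR.mem r hr)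
    have h4 : a * b * z = b * (a * (z + r)) - a * (b * r) := by ring
    show a * b * z ∈ L.lattice
    rw [h4]
    exact sub_mem h2 h3
  have u3 : ∀ z ∈ U, a * (b * z) ∉ L.lattice := by
    intro z hz h
    refine hz ?_
    show a * b * z ∈ L.lattice
    rw [mul_assoc]
    exact h
  have u4 : ∀ z ∈ U, b * z ∉ L.lattice := fun z hz h => u3 z hz (haL _ h)
  set lam : ℂ → ℂ := fun z => a * ee L (a * z) - (‖a‖ ^ 2 : ℝ) * ee L z with hlam
  have hder : ∀ z, a * z ∉ L.lattice →
      HasDerivAt (ThetaH L H) (lam z * ThetaH L H z) z := fun z hz =>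
    (hTDL L a H ha haL hH z hz).2
  -- the two functions
  set F1 : ℂ → ℂ := fun z => ThetaH L H z * ∏ r ∈ R, ThetaH L H (z + r) with hF1
  set F2 : ℂ → ℂ := fun z => ThetaH L H (b * z) with hF2
  have d1 : ∀ z ∈ U, HasDerivAt F1 ((lam z + ∑ r ∈ R, lam (z + r)) * F1 z) z := by
    intro z hz
    have e1 := hder z (u1 z hz)
    have e2 : ∀ S : Finset ℂ, S ⊆ R → HasDerivAt (fun x => ∏ r ∈ S, ThetaH L H (x + r))
        ((∑ r ∈ S, lam (z + r)) * ∏ r ∈ S, ThetaH L H (z + r)) z := by
      intro S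
      induction S using Finset.induction_on with
      | empty => intro _; simpa using hasDerivAt_const z (1 : ℂ)
      | insert r S hr ih =>
        intro hS
        have e3 := ih fun x hx => hS (Finset.mem_insert_of_mem hx)
        have e4 : HasDerivAt (fun x => ThetaH L H (x + r)) (lam (z + r) * ThetaH L H (z + r)) z :=
          (hder (z + r) (u2 z hz r (hS (Finset.mem_insert_self r S)))).comp_add_const z r
        have e5 := e4.mul e3
        simp only [Finset.prod_insert hr, Finset.sum_insert hr]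
        refine e5.congr_deriv ?_
        ring
    have e6 := e1.mul (e2 R (Finset.Subset.refl R))
    refine e6.congr_deriv ?_
    simp only [hF1]
    ring
  have d2 : ∀ z ∈ U, HasDerivAt F2 ((b * lam (b * z)) * F2 z) z := by
    intro z hz
    have e1 := hder (b * z) (u3 z hz)
    have e2 : HasDerivAt (fun x : ℂ => b * x) b z := by
      simpa using (hasDerivAt_id z).const_mul b
    have e3 := HasDerivAt.comp z e1 e2
    refine e3.congr_deriv ?_
    simp only [hF2]
    ring
  have hsum : ∀ z, lam z + ∑ r ∈ R, lam (z + r) = b * lam (b * z) := by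
    intro z
    have e1 := hDIS L b R hb hbL hR z
    have e2 := hDIS L b _ hb hbL (reps_mul L a b R haL hR hab) (a * z)
    rw [Finset.sum_image (fun x _ y _ h => mul_left_cancel₀ ha h)] at e2
    have e3 : ∑ r ∈ R, lam (z + r) =
        a * ∑ r ∈ R, ee L (a * z + a * r) - (‖a‖ ^ 2 : ℝ) * ∑ r ∈ R, ee L (z + r) := by
      rw [Finset.mul_sum, Finset.mul_sum, ← Finset.sum_sub_distrib]
      refine Finset.sum_congr rfl fun r _ => ?_
      simp only [hlam, mul_add]
    have e4 : a * (b * z) = b * (a * z) := by ring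
    rw [e3]
    simp only [hlam]
    rw [e4]
    linear_combination a * e2 - ((‖a‖ ^ 2 : ℝ) : ℂ) * e1
  have hF2ne : ∀ z ∈ U, F2 z ≠ 0 := by
    intro z hz h0
    exact u3 z hz ((hTNZ L a H haL hH (b * z) (u4 z hz)).1 h0)
  have dG : ∀ z ∈ U, HasDerivAt (fun x => F1 x / F2 x) 0 z := by
    intro z hz
    refine ((d1 z hz).div (d2 z hz) (hF2ne z hz)).congr_deriv ?_
    rw [hsum z]
    have := hF2ne z hz
    field_simp
    ring
  obtain ⟨C, hC⟩ : ∃ C, ∀ z ∈ U, F1 z / F2 z = C := by
    refine hUo.exists_is_const_of_deriv_eq_zero hUc ?_ ?_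
    · exact fun z hz => (dG z hz).differentiableAt.differentiableWithinAt
    · exact fun z hz => (dG z hz).deriv
  have hC2 : ∀ z ∈ U, F1 z = C * F2 z := by
    intro z hz
    rw [← hC z hz, div_mul_cancel₀ _ (hF2ne z hz)]
  -- the constant
  have h0U : ∀ z ∈ U, z ≠ 0 := by
    rintro z hz rfl
    refine hz ?_
    show a * b * 0 ∈ L.lattice
    rw [mul_zero]
    exact zero_mem _
  have hle : 𝓝[U] (0 : ℂ) ≤ 𝓝[≠] 0 := nhdsWithin_mono 0 fun z hz => h0U z hz
  have : (𝓝[U] (0 : ℂ)).NeBot := mem_closure_iff_nhdsWithin_neBot.1 (hUd 0)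
  have l1 := (lim_Th L H).mono_left hle
  have l2 : Tendsto (fun z => ∏ r ∈ R, ThetaH L H (z + r)) (𝓝[U] 0)
      (𝓝 (∏ r ∈ R, ThetaH L H r)) := by
    refine tendsto_finsetProd R fun r hr => ?_
    have e1 : ContinuousAt (ThetaH L H) (0 + r) := by
      rw [zero_add]
      exact (hder r (hnot r hr)).continuousAt
    have e2 : ContinuousAt (fun z : ℂ => ThetaH L H (z + r)) 0 :=
      ContinuousAt.comp (f := fun z : ℂ => z + r) e1 (by fun_prop)
    have e3 := e2.tendsto
    simp only [zero_add] at e3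
    exact e3.mono_left nhdsWithin_le_nhds
  have l3 : Tendsto (fun z : ℂ => b * z) (𝓝[≠] 0) (𝓝[≠] 0) := by
    refine tendsto_nhdsWithin_iff.2 ⟨?_, ?_⟩
    · have e1 : ContinuousAt (fun z : ℂ => b * z) 0 := by fun_prop
      have e2 := e1.tendsto
      rw [mul_zero] at e2
      exact e2.mono_left nhdsWithin_le_nhds
    · filter_upwards [self_mem_nhdsWithin] with z hz
      exact mul_ne_zero hb hz
  have l4 : Tendsto (fun z : ℂ => (b * z) ^ (2 * H.card) * F2 z) (𝓝[U] 0) (𝓝 1) :=
    ((lim_Th L H).comp l3).mono_left hle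
  have l5 : Tendsto (fun z : ℂ => b ^ (2 * H.card) * (z ^ (2 * H.card) * F1 z)) (𝓝[U] 0)
      (𝓝 (b ^ (2 * H.card) * (1 * ∏ r ∈ R, ThetaH L H r))) := by
    refine ((l1.mul l2).const_mul _).congr fun z => ?_
    simp only [hF1]
    ring
  have l6 : Tendsto (fun z : ℂ => b ^ (2 * H.card) * (z ^ (2 * H.card) * F1 z)) (𝓝[U] 0)
      (𝓝 (C * 1)) := by
    refine (l4.const_mul C).congr' ?_
    filter_upwards [self_mem_nhdsWithin] with z hz
    rw [hC2 z hz, mul_pow]
    ring
  have l7 : b ^ (2 * H.card) * (1 * ∏ r ∈ R, ThetaH L H r) = C * 1 :=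
    tendsto_nhds_unique l5 l6
  intro z hz
  have h8 := hC2 z hz
  rw [mul_one] at l7
  rw [one_mul] at l7
  rw [← l7] at h8
  exact h8

end Pool.Agent.MU3B
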