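import Pool.Agent.MU3.StB2

/-!
# MU3, block B: (TDL), the logarithmic derivative of `Θ_a`
-/

set_option autoImplicit false

namespace Pool.Agent.MU3B

open Complex Filter Topology
open scoped ComplexConjugate

theorem t_TDL (hID : St_ID) (hDIS : St_DIS) (hHRE : St_HRE) (hNEQ : St_NEQ) : St_TDL := by
  intro L a H ha haL hH z haz
  have hz : z ∉ L.lattice := fun h => haz (haL z h)
  have hq : ∀ q ∈ H, q ∉ L.lattice := fun q hq h => hH.ne q hq (by
    rw [two_mul]; exact L.lattice.add_mem h h)
  have hadd : ∀ q ∈ H, z + q ∉ L.lattice := by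
    intro q hq h
    apply haz
    have := L.lattice.sub_mem (haL _ h) (hH.mem q hq)
    have e : a * (z + q) - a * q = a * z := by ring
    rwa [e] at this
  have hsub : ∀ q ∈ H, z - q ∉ L.lattice := by
    intro q hq h
    apply haz
    have := L.lattice.add_mem (haL _ h) (hH.mem q hq)
    have e : a * (z - q) + a * q = a * z := by ring
    rwa [e] at this
  have hne : ∀ q ∈ H, L.weierstrassP z - L.weierstrassP q ≠ 0 := by
    intro q hqH h
    rcases hNEQ L q z (hq q hqH) hz (sub_eq_zero.1 h) with h1 | h1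
    · exact hsub q hqH h1
    · exact hadd q hqH h1
  obtain ⟨hR, hdis, hcard⟩ := hHRE L a H ha haL hH
  have h1 : (∑ q ∈ H, L.derivWeierstrassP z / (L.weierstrassP z - L.weierstrassP q)) =
      a * ee L (a * z) - (‖a‖ ^ 2 : ℝ) * ee L z := by
    have h2 : ∀ q ∈ H, L.derivWeierstrassP z / (L.weierstrassP z - L.weierstrassP q) =
        ee L (z + q) + ee L (z - q) - 2 * ee L z := by
      intro q hqH
      rw [div_eq_iff (hne q hqH)]
      exact (hID L q z (hq q hqH) hz (hadd q hqH) (hsub q hqH)).symm
    rw [Finset.sum_congr rfl h2, Finset.sum_sub_distrib, Finset.sum_add_distrib, Finset.sum_const]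
    have h3 := hDIS L a _ ha haL hR z
    rw [Finset.sum_union hdis, Finset.sum_image (fun x _ y _ h => neg_injective h)] at h3
    have h4 : ∑ q ∈ H, ee L (z + -q) = ∑ q ∈ H, ee L (z - q) :=
      Finset.sum_congr rfl fun q _ => by rw [sub_eq_add_neg]
    rw [h4] at h3
    have h5 : ((‖a‖ ^ 2 : ℝ) : ℂ) = 2 * (H.card : ℂ) + 1 := by
      rw [← hcard]; push_cast; ring
    rw [← h3, h5, nsmul_eq_mul]
    ring
  refine ⟨h1, ?_⟩
  rw [← h1]
  have hP : HasDerivAt L.weierstrassP (L.derivWeierstrassP z) z := by
    have h := (L.differentiableOn_weierstrassP z hz).differentiableAt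
      (L.isClosed_lattice.isOpen_compl.mem_nhds hz)
    have := h.hasDerivAt
    rwa [L.deriv_weierstrassP] at this
  have hprod := HasDerivAt.fun_finset_prod (u := H)
    (f := fun q x => L.weierstrassP x - L.weierstrassP q)
    (f' := fun _ => L.derivWeierstrassP z) (x := z)
    (fun q _ => hP.sub_const (L.weierstrassP q))
  have e : (∑ q ∈ H, L.derivWeierstrassP z / (L.weierstrassP z - L.weierstrassP q)) *
      ThetaH L H z = ∑ q ∈ H, (∏ j ∈ H.erase q, (L.weierstrassP z - L.weierstrassP j)) •
        L.derivWeierstrassP z := by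
    rw [Finset.sum_mul]
    apply Finset.sum_congr rfl
    intro q hqH
    unfold ThetaH
    rw [← Finset.mul_prod_erase H _ hqH, smul_eq_mul]
    have := hne q hqH
    field_simp
  rw [e]
  exact hprod

end Pool.Agent.MU3B
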