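import Pool.Agent.MU3.StB2

/-!
# MU3, block B: module TIN (helper45)
-/

set_option autoImplicit false

namespace Pool.Agent.MU3B

open Complex Real Filter Topology
open scoped ComplexConjugate

namespace TIN45

/-- the value of the Weierstrass function depends only on the class modulo sign -/
theorem wp_eq (L : PeriodPair) {p q : ℂ} (h : p - q ∈ L.lattice ∨ p + q ∈ L.lattice) :
    L.weierstrassP p = L.weierstrassP q := by
  rcases h with h | h
  · have h1 := L.weierstrassP_add_coe q ⟨p - q, h⟩
    rw [← h1]
    congr 1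
    simp
  · have h1 := L.weierstrassP_add_coe (-q) ⟨p + q, h⟩
    rw [L.weierstrassP_neg] at h1
    rw [← h1]
    congr 1
    simp

/-- two points of a half system in the same class modulo sign are equal -/
theorem half_eq {L : PeriodPair} {a : ℂ} {H : Finset ℂ} (hH : IsHalf L a H) {q q' x : ℂ}
    (hq : q ∈ H) (hq' : q' ∈ H) (h1 : q - x ∈ L.lattice ∨ q + x ∈ L.lattice)
    (h2 : q' - x ∈ L.lattice ∨ q' + x ∈ L.lattice) : q = q' := by
  rcases h1 with h1 | h1 <;> rcases h2 with h2 | h2
  · refine hH.inj q hq q' hq' ?_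
    have := sub_mem h1 h2
    convert this using 1
    ring
  · exfalso
    refine hH.neg q hq q' hq' ?_
    have := add_mem h1 h2
    convert this using 1
    ring
  · exfalso
    refine hH.neg q hq q' hq' ?_
    have := add_mem h1 h2
    convert this using 1
    ring
  · refine hH.inj q hq q' hq' ?_
    have := sub_mem h1 h2
    convert this using 1
    ring

theorem rel_symm {L : PeriodPair} {p q : ℂ} (h : p - q ∈ L.lattice ∨ p + q ∈ L.lattice) :
    q - p ∈ L.lattice ∨ q + p ∈ L.lattice := by
  rcases h with h | h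
  · left
    have := neg_mem h
    convert this using 1
    ring
  · right
    rwa [add_comm]

theorem not_mem {L : PeriodPair} {a : ℂ} {H : Finset ℂ} (hH : IsHalf L a H) {q : ℂ}
    (hq : q ∈ H) : q ∉ L.lattice := by
  intro h
  refine hH.ne q hq ?_
  have := add_mem h h
  convert this using 1
  ring

end TIN45

open TIN45 in
/-- (TIN) -/
theorem t_TIN : St_TIN := by
  intro L a H H' hH hH'
  refine ⟨?_, ?_, ?_⟩
  · intro z
    have hex : ∀ q ∈ H, ∃ q' ∈ H', q - q' ∈ L.lattice ∨ q + q' ∈ L.lattice := fun q hq =>
      hH'.surj q (hH.mem q hq) (not_mem hH hq)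
    choose! f hf hf' using hex
    unfold ThetaH
    refine Finset.prod_bij (fun q _ => f q) (fun q hq => hf q hq) ?_ ?_ ?_
    · intro q hq q' hq' h
      refine half_eq hH hq hq' (hf' q hq) ?_
      have h1 : f q = f q' := h
      rw [h1]
      exact hf' q' hq'
    · intro q' hq'
      obtain ⟨q, hq, hqq⟩ := hH.surj q' (hH'.mem q' hq') (not_mem hH' hq')
      refine ⟨q, hq, ?_⟩
      exact half_eq hH' (hf q hq) hq' (rel_symm (hf' q hq)) hqq
    · intro q hq
      rw [wp_eq L (hf' q hq)]
  · intro z
    unfold ThetaH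
    refine Finset.prod_congr rfl fun q _ => ?_
    rw [L.weierstrassP_neg]
  · intro z v hv
    unfold ThetaH
    refine Finset.prod_congr rfl fun q _ => ?_
    rw [L.weierstrassP_add_coe z ⟨v, hv⟩]

end Pool.Agent.MU3B
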