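import Pool.Agent.MU3.StB2

/-!
# MU3, block B: zeros of the functions `Θ_a` (TNZ)
-/

set_option autoImplicit false

namespace Pool.Agent.MU3B

open Complex Real Filter Topology
open scoped ComplexConjugate

namespace TnzAux

/-- congruent points have the same value -/
theorem wp_eq (L : PeriodPair) {z q : ℂ} (h : z - q ∈ L.lattice ∨ z + q ∈ L.lattice) :
    L.weierstrassP z = L.weierstrassP q := by
  rcases h with h | h
  · have h1 := L.weierstrassP_add_coe q ⟨z - q, h⟩
    rw [← h1]
    congr 1
    ring
  · have h1 := L.weierstrassP_add_coe (-q) ⟨z + q, h⟩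
    rw [L.weierstrassP_neg] at h1
    rw [← h1]
    congr 1
    ring

end TnzAux

theorem t_TNZ (hNEQ : St_NEQ) : St_TNZ := by
  intro L a H ha hH z hz
  unfold ThetaH
  rw [Finset.prod_eq_zero_iff]
  constructor
  · rintro ⟨q, hq, h0⟩
    have hq0 : q ∉ L.lattice := by
      intro h
      apply hH.ne q hq
      rw [two_mul]
      exact L.lattice.add_mem h h
    have haq := hH.mem q hq
    rcases hNEQ L q z hq0 hz (sub_eq_zero.1 h0) with h | h
    · have h1 := L.lattice.add_mem (ha _ h) haq
      have h2 : a * (z - q) + a * q = a * z := by ring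
      rwa [h2] at h1
    · have h1 := L.lattice.sub_mem (ha _ h) haq
      have h2 : a * (z + q) - a * q = a * z := by ring
      rwa [h2] at h1
  · intro h
    obtain ⟨q, hq, h1⟩ := hH.surj z h hz
    exact ⟨q, hq, sub_eq_zero.2 (TnzAux.wp_eq L h1)⟩

end Pool.Agent.MU3B
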