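import Pool.Agent.MU3.StB

/-!
# MU3, block B: (ZAD)
-/

set_option autoImplicit false

namespace Pool.Agent.MU3B

theorem t_ZAD (hPER : St_PER) (hID : St_ID) : St_ZAD := by
  intro L Q z hQ hz hzQ hzQ'
  have hodd := (hPER L).2 (z - Q)
  have h1 := hID L Q z hQ hz hzQ hzQ'
  have h2 := hID L z Q hz hQ (by rwa [add_comm]) (fun h => hzQ' (by
    have := L.lattice.neg_mem h
    rwa [neg_sub] at this))
  rw [neg_sub] at hodd
  rw [hodd, add_comm Q z] at h2
  linear_combination h1 - h2

end Pool.Agent.MU3B
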