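import Pool.Agent.MU3.StB

/-!
# MU3, block B: (ZER), zeros of the derivative of the Weierstrass function
-/

set_option autoImplicit false

namespace Pool.Agent.MU3B

open Complex Real Filter Topology
open scoped ComplexConjugate

theorem t_ZER (_hPER : St_PER) (hHOL : St_HOL) (hPOL : St_POL) (hID : St_ID) (hNEQ : St_NEQ) :
    St_ZER := by
  intro L Q hQ
  constructor
  · intro h0
    by_contra h2Q
    obtain ⟨h, δ, hδ, hd, -, hz⟩ := hPOL L
    have hopen : IsOpen ((L.lattice : Set ℂ)ᶜ) := L.isClosed_lattice.isOpen_compl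
    have han : AnalyticAt ℂ L.weierstrassP Q := L.analyticOnNhd_weierstrassP Q hQ
    set D : ℂ → ℂ := fun z => L.weierstrassP z - L.weierstrassP Q with hD
    have hDan : AnalyticAt ℂ D Q := han.sub analyticAt_const
    -- nearby points
    have n1 : ∀ᶠ z in 𝓝 Q, z ∉ L.lattice := hopen.mem_nhds hQ
    have n2 : ∀ᶠ z in 𝓝 Q, z + Q ∉ L.lattice := by
      have hc : ContinuousAt (fun z : ℂ => z + Q) Q := by fun_prop
      have h1 : (L.lattice : Set ℂ)ᶜ ∈ 𝓝 ((fun z : ℂ => z + Q) Q) := by
        apply hopen.mem_nhds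
        show Q + Q ∉ L.lattice
        rwa [← two_mul]
      exact hc.preimage_mem_nhds h1
    have n3 : ∀ᶠ z in 𝓝 Q, z - Q ∈ Metric.ball (0 : ℂ) δ := by
      have hc : ContinuousAt (fun z : ℂ => z - Q) Q := by fun_prop
      have h1 : Metric.ball (0 : ℂ) δ ∈ 𝓝 ((fun z : ℂ => z - Q) Q) := by
        show Metric.ball (0 : ℂ) δ ∈ 𝓝 (Q - Q)
        rw [sub_self]
        exact Metric.ball_mem_nhds 0 hδ
      exact hc.preimage_mem_nhds h1
    -- the regular part of the logarithmic derivative
    set k : ℂ → ℂ := fun z => h (z - Q) + zet L (z + Q) - 2 * zet L z with hk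
    have hkc : ContinuousAt k Q := by
      have c1 : ContinuousAt (fun z => h (z - Q)) Q := by
        have c11 : ContinuousAt h ((fun z : ℂ => z - Q) Q) := by
          show ContinuousAt h (Q - Q)
          rw [sub_self]
          exact (hd.differentiableAt (Metric.ball_mem_nhds 0 hδ)).continuousAt
        have c12 : ContinuousAt (fun z : ℂ => z - Q) Q := by fun_prop
        exact ContinuousAt.comp (f := fun z : ℂ => z - Q) (g := h) c11 c12
      have c2 : ContinuousAt (fun z => zet L (z + Q)) Q := by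
        have c21 : ContinuousAt (zet L) ((fun z : ℂ => z + Q) Q) :=
          (hHOL L (Q + Q) (by rwa [← two_mul])).continuousAt
        have c22 : ContinuousAt (fun z : ℂ => z + Q) Q := by fun_prop
        exact ContinuousAt.comp (f := fun z : ℂ => z + Q) (g := zet L) c21 c22
      have c3 : ContinuousAt (zet L) Q := (hHOL L Q hQ).continuousAt
      exact (c1.add c2).sub (continuousAt_const.mul c3)
    have hlog : ∀ᶠ z in 𝓝 Q, z ≠ Q → (z - Q) * L.derivWeierstrassP z =
        (1 + (z - Q) * k z) * D z := by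
      filter_upwards [n1, n2, n3] with z z1 z2 z3 z4
      have z5 : z - Q ≠ 0 := sub_ne_zero.2 z4
      obtain ⟨z6, z7⟩ := hz (z - Q) z3 z5
      have e1 := hID L Q z hQ z1 z2 z6
      have e2 : ee L (z + Q) + ee L (z - Q) - 2 * ee L z = 1 / (z - Q) + k z := by
        have e3 : zet L (z + Q) + zet L (z - Q) - 2 * zet L z =
            ee L (z + Q) + ee L (z - Q) - 2 * ee L z := by
          unfold zet
          rw [map_add, map_sub]
          ring
        rw [← e3, z7]
        simp only [hk]
        ring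
      rw [e2] at e1
      rw [← e1]
      simp only [hD]
      field_simp
    have hne : ∀ᶠ z in 𝓝 Q, z ≠ Q → D z ≠ 0 := by
      filter_upwards [n1, n2, n3] with z z1 z2 z3 z4 z5
      obtain ⟨z6, z7⟩ := hz (z - Q) z3 (sub_ne_zero.2 z4)
      rcases hNEQ L Q z hQ z1 (sub_eq_zero.1 z5) with z8 | z8
      · exact z6 z8
      · exact z2 z8
    -- the order
    have hnz : ¬ ∀ᶠ z in 𝓝 Q, D z = 0 := by
      intro hall
      have h1 : ∀ᶠ z in 𝓝[≠] Q, False := by
        have h2 : ∀ᶠ z in 𝓝[≠] Q, D z = 0 ∧ (z ≠ Q → D z ≠ 0) :=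
          (hall.and hne).filter_mono nhdsWithin_le_nhds
        filter_upwards [h2, self_mem_nhdsWithin] with z z1 z2
        exact z1.2 z2 z1.1
      exact (h1.exists).elim fun _ hf => hf
    obtain ⟨n, g, hg, hg0, hgD⟩ := (hDan.exists_eventuallyEq_pow_smul_nonzero_iff).2 hnz
    have hderiv : ∀ᶠ z in 𝓝 Q, L.derivWeierstrassP z = deriv D z := by
      filter_upwards [n1] with z z1
      simp only [hD, deriv_sub_const]
      rw [L.deriv_weierstrassP]
    have hgan : ∀ᶠ z in 𝓝 Q, AnalyticAt ℂ g z := hg.eventually_analyticAt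
    have hder2 : ∀ᶠ z in 𝓝 Q, deriv D z =
        (n : ℂ) * (z - Q) ^ (n - 1) * g z + (z - Q) ^ n * deriv g z := by
      filter_upwards [hgD.eventually_nhds, hgan] with z z1 z2
      have e1 : deriv D z = deriv (fun z => (z - Q) ^ n * g z) z := by
        apply Filter.EventuallyEq.deriv_eq
        filter_upwards [z1] with y hy
        rw [hy, smul_eq_mul]
      rw [e1]
      have e2 : HasDerivAt (fun z : ℂ => (z - Q) ^ n) ((n : ℂ) * (z - Q) ^ (n - 1)) z := by
        have h7 := ((hasDerivAt_id' z).sub_const Q).fun_pow n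
        rwa [mul_one] at h7
      exact (e2.mul z2.differentiableAt.hasDerivAt).deriv
    have hkey : ∀ᶠ z in 𝓝[≠] Q, (n : ℂ) * g z + (z - Q) * deriv g z = (1 + (z - Q) * k z) * g z := by
      have hall := (((hlog.and hderiv).and hder2).and hgD).filter_mono
        (nhdsWithin_le_nhds (s := {Q}ᶜ))
      filter_upwards [hall, self_mem_nhdsWithin] with z z1 z2
      obtain ⟨⟨⟨z3, z4⟩, z5⟩, z6⟩ := z1
      have z7 : z - Q ≠ 0 := sub_ne_zero.2 z2
      have z8 := z3 z2
      rw [z4, z5, z6, smul_eq_mul] at z8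
      have z9 : (z - Q) * ((n : ℂ) * (z - Q) ^ (n - 1) * g z) = (z - Q) ^ n * (n * g z) := by
        rcases Nat.eq_zero_or_pos n with hn | hn
        · rw [hn]; simp
        · obtain ⟨m, rfl⟩ := Nat.exists_eq_succ_of_ne_zero hn.ne'
          rw [Nat.succ_eq_add_one, Nat.add_sub_cancel, pow_succ]
          ring
      apply mul_left_cancel₀ (pow_ne_zero n z7)
      linear_combination z8 - z9
    have hlim1 : Tendsto (fun z => (n : ℂ) * g z + (z - Q) * deriv g z) (𝓝[≠] Q)
        (𝓝 ((n : ℂ) * g Q + (Q - Q) * deriv g Q)) := by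
      apply Tendsto.mono_left _ nhdsWithin_le_nhds
      have c1 : ContinuousAt g Q := hg.continuousAt
      have c2 : ContinuousAt (deriv g) Q := hg.deriv.continuousAt
      have c3 : ContinuousAt (fun z => (n : ℂ) * g z + (z - Q) * deriv g z) Q := by fun_prop
      exact c3.tendsto
    have hlim2 : Tendsto (fun z => (1 + (z - Q) * k z) * g z) (𝓝[≠] Q)
        (𝓝 ((1 + (Q - Q) * k Q) * g Q)) := by
      apply Tendsto.mono_left _ nhdsWithin_le_nhds
      have c1 : ContinuousAt g Q := hg.continuousAt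
      have c3 : ContinuousAt (fun z => (1 + (z - Q) * k z) * g z) Q := by fun_prop
      exact c3.tendsto
    have heq := tendsto_nhds_unique (hlim1.congr' hkey) hlim2
    rw [sub_self, zero_mul, zero_mul, add_zero, add_zero, one_mul] at heq
    have hn1 : n = 1 := by
      have : (n : ℂ) = 1 := by
        apply mul_right_cancel₀ hg0
        rw [heq, one_mul]
      exact_mod_cast this
    have hfin := hder2.self_of_nhds
    rw [← hderiv.self_of_nhds, h0, hn1] at hfin
    simp at hfin
    exact hg0 hfin.symm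
  · intro h2
    have h3 : L.derivWeierstrassP (-Q + ((⟨2 * Q, h2⟩ : L.lattice) : ℂ)) =
        L.derivWeierstrassP (-Q) := L.derivWeierstrassP_add_coe _ _
    have e1 : -Q + ((⟨2 * Q, h2⟩ : L.lattice) : ℂ) = Q := by
      show -Q + 2 * Q = Q
      ring
    rw [e1, L.derivWeierstrassP_neg] at h3
    have h4 : (2 : ℂ) * L.derivWeierstrassP Q = 0 := by linear_combination h3
    simpa using h4

end Pool.Agent.MU3B
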