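import Pool.Agent.MU3.StB

/-!
# MU3, block B: the derivative of the zeta function of Weierstrass
-/

set_option autoImplicit false

namespace Pool.Agent.MU3B

open Complex Real Filter Topology
open scoped ComplexConjugate

theorem t_ZP (hPER : St_PER) (hHOL : St_HOL) (hPOL : St_POL) (hLIO : St_LIO) : St_ZP := by
  intro L
  obtain ⟨h, δ, hδ, hd, -, hz⟩ := hPOL L
  have hop : IsOpen ((L.lattice : Set ℂ)ᶜ) := L.isClosed_lattice.isOpen_compl
  have hhol : DifferentiableOn ℂ (zet L) ((L.lattice : Set ℂ)ᶜ) := fun z hz =>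
    (hHOL L z hz).differentiableWithinAt
  have hder : DifferentiableOn ℂ (deriv (zet L)) ((L.lattice : Set ℂ)ᶜ) := hhol.deriv hop
  have k1 : ∀ z, ∀ v ∈ L.lattice, (fun z => deriv (zet L) z + L.weierstrassP z) (z + v) =
      (fun z => deriv (zet L) z + L.weierstrassP z) z := by
    intro z v hv
    have h1 : (fun z => zet L (z + v)) = fun z => zet L z + ((π / area L : ℝ) : ℂ) * conj v := by
      funext z
      unfold zet
      rw [(hPER L).1 z v hv, map_add]
      ring
    have h2 : deriv (zet L) (z + v) = deriv (zet L) z := by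
      rw [← deriv_comp_add_const, h1, deriv_add_const]
    have h3 : L.weierstrassP (z + v) = L.weierstrassP z := L.weierstrassP_add_coe z ⟨v, hv⟩
    simp only [h2, h3]
  have k2 : ∀ z, (∀ p ∈ ({0} : Finset ℂ), z - p ∉ L.lattice) →
      DifferentiableAt ℂ (fun z => deriv (zet L) z + L.weierstrassP z) z := by
    intro z hz
    have hz' : z ∈ ((L.lattice : Set ℂ)ᶜ) := by simpa using hz
    have h1 : DifferentiableAt ℂ (deriv (zet L)) z := hder.differentiableAt (hop.mem_nhds hz')
    have h2 : DifferentiableAt ℂ L.weierstrassP z :=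
      L.differentiableOn_weierstrassP.differentiableAt (hop.mem_nhds hz')
    exact h1.add h2
  have k3 : ∀ p ∈ ({0} : Finset ℂ),
      Tendsto (fun z => (z - p) * (fun z => deriv (zet L) z + L.weierstrassP z) z) (𝓝[≠] p)
        (𝓝 0) := by
    intro p hp
    rw [Finset.mem_singleton] at hp
    subst hp
    have hball : Metric.ball (0 : ℂ) δ ∈ 𝓝 (0 : ℂ) := Metric.ball_mem_nhds 0 hδ
    -- the regular part
    have c1 : ContinuousAt (deriv h) 0 :=
      ((hd.deriv Metric.isOpen_ball).differentiableAt hball).continuousAt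
    have c2 : ContinuousAt (L.weierstrassPExcept 0) 0 :=
      (L.analyticAt_weierstrassPExcept 0).continuousAt
    have c3 : Tendsto (fun z : ℂ => z * (deriv h z + L.weierstrassPExcept 0 z)) (𝓝[≠] 0) (𝓝 0) := by
      have c4 : ContinuousAt (fun z : ℂ => z * (deriv h z + L.weierstrassPExcept 0 z)) 0 :=
        continuousAt_id.mul (c1.add c2)
      have c5 := c4.tendsto
      simp only [zero_mul] at c5
      exact c5.mono_left nhdsWithin_le_nhds
    refine c3.congr' ?_
    have hev : ∀ᶠ z in 𝓝[≠] (0 : ℂ), z ∈ Metric.ball (0 : ℂ) δ ∧ z ≠ 0 := by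
      have a1 : ∀ᶠ z in 𝓝[≠] (0 : ℂ), z ∈ Metric.ball (0 : ℂ) δ := nhdsWithin_le_nhds hball
      have a2 : ∀ᶠ z in 𝓝[≠] (0 : ℂ), z ≠ 0 := self_mem_nhdsWithin
      exact a1.and a2
    filter_upwards [hev] with z hzz
    obtain ⟨hz1, hz2⟩ := hzz
    have e1 : zet L =ᶠ[𝓝 z] fun x => 1 / x + h x := by
      have : Metric.ball (0 : ℂ) δ \ {0} ∈ 𝓝 z :=
        (Metric.isOpen_ball.sdiff isClosed_singleton).mem_nhds ⟨hz1, hz2⟩
      filter_upwards [this] with x hx
      exact (hz x hx.1 hx.2).2
    have e2 : HasDerivAt (fun x : ℂ => 1 / x + h x) (-(z ^ 2)⁻¹ + deriv h z) z := by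
      have a1 : HasDerivAt (fun x : ℂ => 1 / x) (-(z ^ 2)⁻¹) z := by
        simpa [one_div] using hasDerivAt_inv hz2
      exact a1.add (hd.differentiableAt (Metric.isOpen_ball.mem_nhds hz1)).hasDerivAt
    have e3 : deriv (zet L) z = -(z ^ 2)⁻¹ + deriv h z := by
      rw [e1.deriv_eq, e2.deriv]
    have e4 : L.weierstrassP z = L.weierstrassPExcept 0 z + (z ^ 2)⁻¹ := by
      have := L.weierstrassPExcept_add 0 z
      simp at this
      rw [← this]
    rw [e3, e4]
    ring
  obtain ⟨c, hc⟩ := hLIO L (fun z => deriv (zet L) z + L.weierstrassP z) {0} k1 k2 k3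
  refine ⟨c, fun z hz => ?_⟩
  have h1 := (hHOL L z hz).hasDerivAt
  have h2 : deriv (zet L) z = c - L.weierstrassP z := by
    have h3 := hc z (by simpa using hz)
    rw [← h3]
    ring
  rwa [h2] at h1

end Pool.Agent.MU3B
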