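import Pool.Agent.MU3.B_ADD
import Pool.Agent.MU3.B_CMX
import Pool.Agent.MU3.B_DD
import Pool.Agent.MU3.B_DIC
import Pool.Agent.MU3.B_DIS
import Pool.Agent.MU3.B_DIY
import Pool.Agent.MU3.B_DSC
import Pool.Agent.MU3.B_DUP
import Pool.Agent.MU3.B_HAL
import Pool.Agent.MU3.B_HOL
import Pool.Agent.MU3.B_HRE
import Pool.Agent.MU3.B_ID
import Pool.Agent.MU3.B_INT
import Pool.Agent.MU3.B_LAT
import Pool.Agent.MU3.B_LIO
import Pool.Agent.MU3.B_NEQ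
import Pool.Agent.MU3.B_NUM
import Pool.Agent.MU3.B_P2
import Pool.Agent.MU3.B_PER
import Pool.Agent.MU3.B_POD
import Pool.Agent.MU3.B_POI
import Pool.Agent.MU3.B_POL
import Pool.Agent.MU3.B_REP
import Pool.Agent.MU3.B_SCL
import Pool.Agent.MU3.B_SD
import Pool.Agent.MU3.B_SUM
import Pool.Agent.MU3.B_SUR
import Pool.Agent.MU3.B_TDI
import Pool.Agent.MU3.B_TDL
import Pool.Agent.MU3.B_TIN
import Pool.Agent.MU3.B_TNZ
import Pool.Agent.MU3.B_TRA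
import Pool.Agent.MU3.B_ZAD
import Pool.Agent.MU3.B_ZER
import Pool.Agent.MU3.B_ZP

/-!
# MU3, block B: all 35 statements, without hypotheses
-/

set_option autoImplicit false

namespace Pool.Agent.MU3B

theorem b_LAT : St_LAT := t_LAT
theorem b_LIO : St_LIO := t_LIO
theorem b_CMX : St_CMX := t_CMX b_LIO
theorem b_NUM : St_NUM := t_NUM b_LAT
theorem b_HRE : St_HRE := t_HRE b_NUM
theorem b_P2 : St_P2 := t_P2
theorem b_PER : St_PER := t_PER b_LAT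
theorem b_POI : St_POI := t_POI b_LAT
theorem b_REP : St_REP := t_REP b_LAT
theorem b_HAL : St_HAL := t_HAL b_REP
theorem b_SUM : St_SUM := t_SUM
theorem b_HOL : St_HOL := t_HOL b_SUM b_LAT b_POI
theorem b_POD : St_POD := t_POD b_SUM b_LAT b_POI
theorem b_INT : St_INT := t_INT b_SUM b_LAT b_POD b_PER
theorem b_DIS : St_DIS := t_DIS b_SUM b_INT
theorem b_POL : St_POL := t_POL b_SUM b_LAT b_HOL b_PER
theorem b_SCL : St_SCL := t_SCL b_INT
theorem b_SUR : St_SUR := t_SUR b_LIO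
theorem b_TIN : St_TIN := t_TIN
theorem b_ZP : St_ZP := t_ZP b_PER b_HOL b_POL b_LIO
theorem b_ID : St_ID := t_ID b_PER b_HOL b_POL b_LIO b_ZP
theorem b_NEQ : St_NEQ := t_NEQ b_HOL b_ID
theorem b_TDL : St_TDL := t_TDL b_ID b_DIS b_HRE b_NEQ
theorem b_TNZ : St_TNZ := t_TNZ b_NEQ
theorem b_TDI : St_TDI := t_TDI b_TDL b_TNZ b_DIS
theorem b_TRA : St_TRA := t_TRA b_TDL b_PER
theorem b_ZAD : St_ZAD := t_ZAD b_PER b_ID
theorem b_ADD : St_ADD := t_ADD b_ZAD b_ZP b_P2 b_NEQ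
theorem b_DD : St_DD := t_DD b_HOL b_ZAD b_P2
theorem b_SD : St_SD := t_SD b_ADD b_NEQ
theorem b_ZER : St_ZER := t_ZER b_PER b_HOL b_POL b_ID b_NEQ
theorem b_DIY : St_DIY := t_DIY b_DIS b_DD b_ZER b_P2 b_PER
theorem b_DIC : St_DIC := t_DIC b_DIY
theorem b_DSC : St_DSC := t_DSC b_SUR b_PER b_HOL b_POL b_ID b_ZER b_P2
theorem b_DUP : St_DUP := t_DUP b_ADD b_P2 b_ZER

end Pool.Agent.MU3B
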