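import Pool.Agent.MU3.StB

/-!
# MU3, block B: the functions `Θ_a` (second statement file)

`Θ_a(z) = ∏ (℘(z) - ℘(q))`, `q` over the nonzero classes of `a⁻¹ L / L` modulo `± 1`, for `a` prime to `2`.
Abbreviations as in `StB.lean`; `N = |a|²`.
-/

set_option autoImplicit false

namespace Pool.Agent.MU3B

open Complex Real Filter Topology
open scoped ComplexConjugate

noncomputable section

/-- `H` is a half system for `a`: a finite set of points `q` of `a⁻¹ L` with `2 q ∉ L`, which contains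
exactly one of `± q` for each nonzero class `q` of `a⁻¹ L / L` -/
structure IsHalf (L : PeriodPair) (a : ℂ) (H : Finset ℂ) : Prop where
  mem : ∀ q ∈ H, a * q ∈ L.lattice
  ne : ∀ q ∈ H, 2 * q ∉ L.lattice
  inj : ∀ q ∈ H, ∀ q' ∈ H, q - q' ∈ L.lattice → q = q'
  neg : ∀ q ∈ H, ∀ q' ∈ H, q + q' ∉ L.lattice
  surj : ∀ z : ℂ, a * z ∈ L.lattice → z ∉ L.lattice →
    ∃ q ∈ H, z - q ∈ L.lattice ∨ z + q ∈ L.lattice

/-- `Θ_a(z) = ∏_(q ∈ H) (℘(z) - ℘(q))` -/
def ThetaH (L : PeriodPair) (H : Finset ℂ) (z : ℂ) : ℂ :=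
  ∏ q ∈ H, (L.weierstrassP z - L.weierstrassP q)

/-- (HAL) half systems exist if `a` is prime to `2` (no nonzero class of `a⁻¹ L / L` is killed by `2`).

Uses REP. PROOF. Take representatives `R` (REP). The classes of `R` are permuted by `q ↦ -q` without fixed
points (`q` and `-q` congruent means `2 q ∈ L`, so `q ∈ L`). Choose one element in each pair: for instance
strong induction on finite sets, or: enumerate `R` as a list and keep `q` if no earlier kept `q'` has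
`q + q' ∈ L`; or take a subset `H` of `R` maximal with the property `q + q' ∉ L` for all `q, q' ∈ H`
(exists, `R` finite): if `r ∈ R` is such that neither `r` nor the representative of `-r` is in `H`, then
`H ∪ {r}` still has the property (`2 r ∉ L`), contradiction. -/
def St_HAL : Prop :=
  ∀ (L : PeriodPair) (a : ℂ), a ≠ 0 → (∀ w ∈ L.lattice, a * w ∈ L.lattice) →
    (∀ z, a * z ∈ L.lattice → 2 * z ∈ L.lattice → z ∈ L.lattice) →
    ∃ H : Finset ℂ, IsHalf L a H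

/-- (HRE) `H ∪ -H` is a system of representatives of the nonzero classes, `2 |H| + 1 = |a|²`.

Uses NUM. PROOF. Direct from the definitions: `H` and `-H` are disjoint (`q = -q'` gives `q + q' = 0 ∈ L`),
`inj` for two elements of `-H` from `inj`, for `q ∈ H`, `-q' ∈ -H` from `neg`. The number of elements by
(NUM). -/
def St_HRE : Prop :=
  ∀ (L : PeriodPair) (a : ℂ) (H : Finset ℂ), a ≠ 0 → (∀ w ∈ L.lattice, a * w ∈ L.lattice) →
    IsHalf L a H → IsReps L a (H ∪ H.image (fun q => -q)) ∧ Disjoint H (H.image (fun q => -q)) ∧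
      (2 * (H.card : ℝ) + 1) = ‖a‖ ^ 2

/-- (TIN) `Θ_a` does not depend on the half system, is periodic and even.

PROOF. For `H, H'` the map which sends `q ∈ H` to the `q' ∈ H'` with `q' ≡ ± q` (`surj` of `H'`; `q ∉ L` since
`2 q ∉ L`) is a bijection (`inj`, `neg`), and `℘(q') = ℘(q)` (`℘` even and periodic): `Finset.prod_bij`. -/
def St_TIN : Prop :=
  ∀ (L : PeriodPair) (a : ℂ) (H H' : Finset ℂ), IsHalf L a H → IsHalf L a H' →
    (∀ z, ThetaH L H z = ThetaH L H' z) ∧ (∀ z, ThetaH L H (-z) = ThetaH L H z) ∧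
    (∀ z, ∀ v ∈ L.lattice, ThetaH L H (z + v) = ThetaH L H z)

/-- (TNZ) zeros: for `z ∉ L`, `Θ_a(z) = 0` exactly for `a z ∈ L`.

Uses NEQ. PROOF. If `a z ∈ L`, `surj` gives `q` with `z ≡ ± q`, `℘(z) = ℘(q)`. Conversely `℘(z) = ℘(q)` gives
`z ≡ ± q` (NEQ), so `a z ∈ L`. -/
def St_TNZ : Prop :=
  ∀ (L : PeriodPair) (a : ℂ) (H : Finset ℂ), (∀ w ∈ L.lattice, a * w ∈ L.lattice) →
    IsHalf L a H → ∀ z, z ∉ L.lattice → (ThetaH L H z = 0 ↔ a * z ∈ L.lattice)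

/-- (TDL) the logarithmic derivative of `Θ_a`:
`Σ_(q ∈ H) ℘'(z)/(℘(z) - ℘(q)) = a e(a z) - |a|² e(z)`, and `Θ_a' = (a e(a z) - |a|² e(z)) Θ_a`.

Uses ID, DIS, HRE, PER, NEQ. PROOF. By (ID) `℘'(z)/(℘(z) - ℘(q)) = e(z + q) + e(z - q) - 2 e(z)`
(`a z ∉ L` implies `z, z ± q ∉ L`; `℘(z) ≠ ℘(q)` by NEQ). Sum over `H`: the first two terms give the sum over
`H ∪ -H`, which is `a e(a z) - e(z)` by (DIS), and `2 |H| = |a|² - 1` (HRE). Derivative: product rule
(`HasDerivAt.finset_prod`, or induction), `deriv ℘ = ℘'`. -/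
def St_TDL : Prop :=
  ∀ (L : PeriodPair) (a : ℂ) (H : Finset ℂ), a ≠ 0 → (∀ w ∈ L.lattice, a * w ∈ L.lattice) →
    IsHalf L a H → ∀ z, a * z ∉ L.lattice →
      (∑ q ∈ H, L.derivWeierstrassP z / (L.weierstrassP z - L.weierstrassP q)) =
        a * ee L (a * z) - (‖a‖ ^ 2 : ℝ) * ee L z ∧
      HasDerivAt (ThetaH L H) ((a * ee L (a * z) - (‖a‖ ^ 2 : ℝ) * ee L z) * ThetaH L H z) z

/-- (TDI) distribution relation: `a` with half system `H`, `b` with representatives `R`, `a` and `b` prime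
to each other (no nonzero class is killed by both):
`∏_r Θ_a(z + r) = b^(2 |H|) ∏_(r ≠ 0) Θ_a(r) Θ_a(b z)`.

Uses TDL, TNZ, DIS, PER, LIO is not needed. PROOF. On `U = {z : a b z ∉ L}` (open, path connected as the
complement of a countable set, `Set.Countable.isPathConnected_compl_of_one_lt_rank`) let
`G(z) = Θ_a(z) ∏_(r ∈ R) Θ_a(z + r)/Θ_a(b z)`; all factors are `≠ 0` (TNZ) and differentiable. By (TDL)
the logarithmic derivative is `Σ_r (a e(a z + a r) - |a|² e(z + r)) - b (a e(a b z) - |a|² e(b z))`. By (DIS)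
for `b`: `Σ e(z + r) = b e(b z)`; multiplication by `a` permutes the classes of `b⁻¹ L / L` (it is injective
by the coprimality, the set is finite), so by periodicity `Σ e(a z + a r) = b e(a b z)`. So `G' = 0`, `G = C`
on `U`. Constant: multiply `Θ_a(z) ∏_(r ∈ R) Θ_a(z + r) = C Θ_a(b z)` by `z^(2|H|)` and let `z → 0` in `U`:
`z² ℘(z) → 1`, so `z^(2|H|) Θ_a(z) → 1`, `z^(2|H|) Θ_a(b z) → b^(-2|H|)`, `Θ_a(z + r) → Θ_a(r)`. So
`C = b^(2|H|) ∏_(r ∈ R) Θ_a(r)`, `≠ 0` by (TNZ) (`r ∉ L`, `b r ∈ L`, so `a r ∉ L`). -/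
def St_TDI : Prop :=
  ∀ (L : PeriodPair) (a b : ℂ) (H R : Finset ℂ), a ≠ 0 → b ≠ 0 →
    (∀ w ∈ L.lattice, a * w ∈ L.lattice) → (∀ w ∈ L.lattice, b * w ∈ L.lattice) →
    IsHalf L a H → IsReps L b R →
    (∀ z, a * z ∈ L.lattice → b * z ∈ L.lattice → z ∈ L.lattice) →
    (∏ r ∈ R, ThetaH L H r ≠ 0) ∧ ∀ z, a * b * z ∉ L.lattice →
      ThetaH L H z * ∏ r ∈ R, ThetaH L H (z + r) =
        b ^ (2 * H.card) * (∏ r ∈ R, ThetaH L H r) * ThetaH L H (b * z)

/-- (SD) sum and difference: with `D = ℘(z) - ℘(Q)`,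
`℘(z + Q) + ℘(z - Q) = ((℘(z) + ℘(Q)) (2 ℘(z) ℘(Q) - g₂/2) - g₃)/D²`,
`℘(z + Q) - ℘(z - Q) = - ℘'(z) ℘'(Q)/D²`.

Uses ADD, NEQ. PROOF. (ADD) for `Q` and `-Q` (`℘` even, `℘'` odd): `℘(z ± Q) = (℘'(z) ∓ ℘'(Q))²/(4 D²) -
℘(z) - ℘(Q)`; `℘'² = 4 ℘³ - g₂ ℘ - g₃` (`derivWeierstrassP_sq`); `field_simp; ring`. -/
def St_SD : Prop :=
  ∀ (L : PeriodPair) (Q z : ℂ), Q ∉ L.lattice → z ∉ L.lattice → z + Q ∉ L.lattice →
    z - Q ∉ L.lattice → L.weierstrassP z ≠ L.weierstrassP Q ∧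
    L.weierstrassP (z + Q) + L.weierstrassP (z - Q) =
      ((L.weierstrassP z + L.weierstrassP Q) *
        (2 * L.weierstrassP z * L.weierstrassP Q - L.g₂ / 2) - L.g₃) /
        (L.weierstrassP z - L.weierstrassP Q) ^ 2 ∧
    L.weierstrassP (z + Q) - L.weierstrassP (z - Q) =
      -(L.derivWeierstrassP z * L.derivWeierstrassP Q) /
        (L.weierstrassP z - L.weierstrassP Q) ^ 2

/-- (TRA) algebraicity of `e` at torsion points: if `b` is an odd integer `≥ 3` with `b z ≡ z` modulo `L`,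
`z ∉ L`, and `H` is a half system for `b`: `(b - b²) e(z) = Σ_(q ∈ H) ℘'(z)/(℘(z) - ℘(q))`.

Uses TDL, PER. PROOF. (TDL) with `a = b`: `b z ∉ L` (it is congruent to `z`), `e(b z) = e(z)`, `|b|² = b²`. -/
def St_TRA : Prop :=
  ∀ (L : PeriodPair) (b : ℤ) (H : Finset ℂ), b ≠ 0 → IsHalf L b H →
    ∀ z, z ∉ L.lattice → (b - 1) * z ∈ L.lattice →
      ((b : ℂ) - (b : ℂ) ^ 2) * ee L z =
        ∑ q ∈ H, L.derivWeierstrassP z / (L.weierstrassP z - L.weierstrassP q)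

end

end Pool.Agent.MU3B
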