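import Pool.Agent.MU3.ADefs
import Pool.Agent.MU3.StB2
import Pool.Agent.RI.Stmts

/-!
# MU3: the elements `c_n` (helper59)

`A`, `B`, `L`, `Om` as in `ADefs.lean` (`IsCM A B L Om`), `m : OO A B` the level, `TF L m = k(E[m])`,
`D : IntermediateField ℚ ℂ` a field with `k ≤ D ≤ TF L m` (`D = K_n`, `m = f 3^(n+1)`), `H` a half system for
the integer `a = 1 + 6 f`. Galois group of `D / k`: `D ≃ₐ[kk A B] D` for the algebra structure
`algC h` of `Pool/Agent/RI/Stmts.lean`, `h : kk A B ≤ D`.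

* `Ext1 h τ σ` : the automorphism `σ` of `TF L m` extends `τ`.
* `XX L m h τ` : the set of the classes `x` of `O / m` such that some automorphism of `TF L m / k` acts on
  `E[m]` as multiplication by `x` and extends `τ`.
* `cc L Om m H h τ` : the complex number `∏ Θ_a(x u)`, `x ∈ XX L m h τ`, `u = Om / m`. It is `τ(c)`,
  `c = cc L Om m H h 1 = N_(TF L m / D) Θ_a(u)`.
-/

set_option autoImplicit false

namespace Pool.Agent.MU3C

open MU3 Pool.Agent.MU3A Pool.Agent.MU3B Pool.Agent.RI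

noncomputable section

variable {A B : ℤ}

/-- the automorphism `σ` of `F / k` and the automorphism `τ` of `D / k` agree on `F ∩ D` -/
def Ext1 {D : IntermediateField ℚ ℂ} (h : kk A B ≤ D) {F : IntermediateField (kk A B) ℂ}
    (τ : letI := algC h; D ≃ₐ[kk A B] D) (σ : F ≃ₐ[kk A B] F) : Prop :=
  letI := algC h
  ∀ (y : D) (hy : (y : ℂ) ∈ F), (σ ⟨y, hy⟩ : ℂ) = (τ y : ℂ)

/-- the classes `x` of `O / m` such that some automorphism of `TF L m / k` acts on `E[m]` as
multiplication by `x` and extends `τ` -/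
def XX (L : PeriodPair) (m : OO A B) {D : IntermediateField ℚ ℂ} (h : kk A B ≤ D)
    (τ : letI := algC h; D ≃ₐ[kk A B] D) : Set (OO A B ⧸ Ideal.span {m}) :=
  {x | ∃ σ : TF L m ≃ₐ[kk A B] TF L m, Act L (em σ) m (Quotient.out x) ∧ Ext1 h τ σ}

/-- `∏ Θ_a(x u)`, `x ∈ XX L m h τ`, `u = Om / m` -/
def cc (L : PeriodPair) (Om : ℂ) (m : OO A B) (H : Finset ℂ) {D : IntermediateField ℚ ℂ}
    (h : kk A B ≤ D) (τ : letI := algC h; D ≃ₐ[kk A B] D) : ℂ :=
  ∏ᶠ x ∈ XX L m h τ, ThetaH L H (emb (Quotient.out x) * (Om / emb m))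

/-- the level `f 3^(n+1)` as an element of `O` -/
def lev (A B : ℤ) (f n : ℕ) : OO A B := ((f * 3 ^ (n + 1) : ℕ) : OO A B)

end

end Pool.Agent.MU3C
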