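import Pool.Agent.MU3.VRed

/-!
# Translation by a point near infinity

`P = (x₁, y₁)` integral, `Q` in the kernel of reduction, `t = zc Q = -x(Q)/y(Q)`. Then
`x(P + Q) = x(P) + 2 y(P) t` modulo `t²` and `y(P + Q) = y(P)` modulo `t`.
-/

set_option autoImplicit false

namespace Pool.Agent.MU3.Val

open WeierstrassCurve

variable {F : Type*} [Field F] {Γ₀ : Type*} [LinearOrderedCommGroupWithZero Γ₀]
  {v : Valuation F Γ₀} {W : Affine F} [DecidableEq F]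

theorem add_near (hW : IntW v W) {x₁ y₁ x₂ y₂ : F} (h₁ : W.Nonsingular x₁ y₁)
    (h₂ : W.Nonsingular x₂ y₂) (hP : ¬ InE v (Affine.Point.some x₁ y₁ h₁))
    (hQ : InE v (Affine.Point.some x₂ y₂ h₂)) :
    ∃ (x₃ y₃ : F) (h₃ : W.Nonsingular x₃ y₃),
      Affine.Point.some x₁ y₁ h₁ + Affine.Point.some x₂ y₂ h₂ = Affine.Point.some x₃ y₃ h₃ ∧
      ¬ InE v (Affine.Point.some x₃ y₃ h₃) ∧
      v (x₃ - x₁ - 2 * y₁ * (-(x₂ / y₂))) ≤ v (-(x₂ / y₂)) ^ 2 ∧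
      v (x₃ - x₁) ≤ v (-(x₂ / y₂)) ∧ v (y₃ - y₁) ≤ v (-(x₂ / y₂)) := by
  have hx₁ : v x₁ ≤ 1 := not_lt.1 hP
  have hx₂ : 1 < v x₂ := hQ
  have hy₁ : v y₁ ≤ 1 := int_y hW h₁ hx₁
  obtain ⟨hy₂, hz, hz0, hw, hxz⟩ := inE_some hW hQ
  have e₁ := eqn hW h₁
  have e₂ := eqn hW h₂
  have hx : x₁ ≠ x₂ := by
    intro h
    rw [h] at hx₁
    exact absurd hx₁ (not_le.2 hx₂)
  have hadd := Affine.Point.add_of_X_ne hx (h₁ := h₁) (h₂ := h₂)
  have hsl := Affine.slope_of_X_ne (W := W) (y₁ := y₁) (y₂ := y₂) hx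
  set l := W.slope x₁ x₂ y₁ y₂ with hl
  have h₃ := Affine.nonsingular_add h₁ h₂ (fun h => hx h.1)
  rw [← hl] at h₃
  set z := -(x₂ / y₂) with hzd
  set w := 1 / y₂ with hwd
  have hw' : v w = v z ^ 3 := by
    have := hw
    rw [Valuation.map_neg] at this
    exact this
  have hzw : z = -(x₂ * w) := by rw [hzd, hwd]; ring
  have hyw : y₂ * w = 1 := by rw [hwd]; field_simp
  set D := x₂ - x₁ with hDd
  have hD : v D = v x₂ := by
    rw [hDd, sub_eq_add_neg]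
    apply v.map_add_eq_of_lt_left
    rw [Valuation.map_neg]
    exact lt_of_le_of_lt hx₁ hx₂
  have hx20 : (0 : Γ₀) < v x₂ := zero_lt_one.trans hx₂
  have hD0 : D ≠ 0 := sub_ne_zero.2 (Ne.symm hx)
  have hlD : l * D = y₂ - y₁ := by
    rw [hsl, hDd]
    have : x₁ - x₂ ≠ 0 := sub_ne_zero.2 hx
    field_simp
    ring
  have hx₃ : W.addX x₁ x₂ l = l ^ 2 - W.a₂ - x₁ - x₂ := by
    rw [Affine.addX, hW.a1]; ring
  have hy₃ : W.addY x₁ x₂ y₁ l = -(l * (W.addX x₁ x₂ l - x₁) + y₁) := by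
    rw [Affine.addY, Affine.negAddY, Affine.negY, hW.a1, hW.a3]; ring
  have hzle : v z ≤ 1 := hz.le
  have hz2 : v z ^ 2 ≤ 1 := pow_le_one' hzle 2
  have i2 := v_two v
  have m : ∀ {a b : F} {r : Γ₀}, v a ≤ 1 → v b ≤ r → v (a * b) ≤ r :=
    fun ha hb => v_mul_le_right ha hb
  -- the numerator
  set N := W.a₄ * x₂ + W.a₆ - 2 * (y₁ * ((W.a₂ * x₂ ^ 2 + W.a₄ * x₂ + W.a₆) * w)) + y₁ ^ 2 +
    2 * (x₁ * ((W.a₂ + 2 * x₁ + 2 * (y₁ * z)) * x₂)) -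
    x₁ ^ 2 * (x₂ + W.a₂ + 2 * x₁ + 2 * (y₁ * z)) with hN
  have key : (W.addX x₁ x₂ l - x₁ - 2 * y₁ * z) * D ^ 2 = N := by
    have e3 : (W.addX x₁ x₂ l - x₁ - 2 * y₁ * z) * D ^ 2 =
        (l * D) ^ 2 - D ^ 2 * (W.a₂ + 2 * x₁ + x₂ + 2 * y₁ * z) := by
      rw [hx₃]; ring
    rw [e3, hlD, hN, hzw, hDd]
    linear_combination (1 - 2 * y₁ * w) * e₂ + (2 * y₁ * y₂) * hyw
  have hX1 : (1 : Γ₀) ≤ v x₂ := hx₂.le
  have hNv : v N ≤ v x₂ := by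
    have t1 : v ((W.a₂ * x₂ ^ 2 + W.a₄ * x₂ + W.a₆) * w) ≤ v x₂ := by
      have b1 : v (W.a₂ * x₂ ^ 2 + W.a₄ * x₂ + W.a₆) ≤ v x₂ ^ 2 := by
        have b2 : v x₂ ≤ v x₂ ^ 2 := by
          calc v x₂ = v x₂ ^ 1 := (pow_one _).symm
            _ ≤ v x₂ ^ 2 := pow_le_pow_right₀ hX1 (by norm_num)
        refine v_add_le (v_add_le (m hW.a2 (by rw [map_pow])) (m hW.a4 b2)) ?_
        exact hW.a6.trans (one_le_pow₀ hX1)
      rw [map_mul, hw']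
      refine (mul_le_mul' b1 le_rfl).trans ?_
      calc v x₂ ^ 2 * v z ^ 3 = v x₂ * (v x₂ * v z ^ 2) * v z := by
            rw [pow_succ (v z) 2, pow_two (v x₂)]
            simp only [mul_assoc]
        _ = v x₂ * v z := by rw [hxz, mul_one]
        _ ≤ v x₂ := mul_le_of_le_one_right' hzle
    have t2 : v (W.a₂ + 2 * x₁ + 2 * (y₁ * z)) ≤ 1 :=
      v_add_le (v_add_le hW.a2 (m i2 hx₁)) (m i2 (m hy₁ hzle))
    have t3 : v (x₂ + W.a₂ + 2 * x₁ + 2 * (y₁ * z)) ≤ v x₂ :=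
      v_add_le (v_add_le (v_add_le le_rfl (hW.a2.trans hX1)) ((m i2 hx₁).trans hX1))
        ((m i2 (m hy₁ hzle)).trans hX1)
    rw [hN]
    refine v_sub_le (v_add_le (v_add_le (v_sub_le (v_add_le (m hW.a4 le_rfl) (hW.a6.trans hX1))
      (m i2 (m hy₁ t1))) ?_) (m i2 (m hx₁ (m t2 le_rfl)))) (m ?_ t3)
    · rw [map_pow]; exact (pow_le_one' hy₁ 2).trans hX1
    · rw [map_pow]; exact pow_le_one' hx₁ 2
  have c1 : v (W.addX x₁ x₂ l - x₁ - 2 * y₁ * z) ≤ v z ^ 2 := by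
    have h4 : v (W.addX x₁ x₂ l - x₁ - 2 * y₁ * z) * v x₂ ^ 2 ≤ v x₂ := by
      rw [← hD, ← map_pow, ← map_mul, key, hD]; exact hNv
    have h5 : v (W.addX x₁ x₂ l - x₁ - 2 * y₁ * z) * v x₂ ≤ v z ^ 2 * v x₂ := by
      have : v (W.addX x₁ x₂ l - x₁ - 2 * y₁ * z) * v x₂ * v x₂ ≤ v z ^ 2 * v x₂ * v x₂ := by
        rw [mul_assoc, ← pow_two, mul_comm (v z ^ 2), hxz, one_mul]; exact h4
      exact le_of_mul_le_mul_right this hx20
    exact le_of_mul_le_mul_right h5 hx20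
  have hz21 : v z ^ 2 ≤ v z := by
    rw [pow_two]; exact mul_le_of_le_one_right' hzle
  have c2 : v (W.addX x₁ x₂ l - x₁) ≤ v z := by
    have e : W.addX x₁ x₂ l - x₁ = (W.addX x₁ x₂ l - x₁ - 2 * y₁ * z) + 2 * (y₁ * z) := by ring
    rw [e]
    exact v_add_le (c1.trans hz21) (m i2 (m hy₁ le_rfl))
  have c3 : v (l * z + 1) ≤ v z ^ 2 := by
    have e : (l * z + 1) * D = -x₁ - y₁ * z := by
      have e5 : (l * z + 1) * D = (l * D) * z + D := by ring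
      rw [e5, hlD, hDd, hzw]
      linear_combination (-x₂) * hyw
    have h4 : v (l * z + 1) * v x₂ ≤ 1 := by
      rw [← hD, ← map_mul, e]
      exact v_sub_le (by rw [Valuation.map_neg]; exact hx₁) (m hy₁ hzle)
    have h5 : v (l * z + 1) * v x₂ ≤ v z ^ 2 * v x₂ := by
      rw [mul_comm (v z ^ 2), hxz]; exact h4
    exact le_of_mul_le_mul_right h5 hx20
  have c4 : v l * v z = 1 := by
    have hz2lt : v z ^ 2 < 1 := pow_lt_one₀ zero_le hz (by norm_num)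
    have e : l * z = -1 + (l * z + 1) := by ring
    rw [← map_mul, e, v.map_add_eq_of_lt_left, Valuation.map_neg, map_one]
    rw [Valuation.map_neg, map_one]
    exact lt_of_le_of_lt c3 hz2lt
  have hzpos : (0 : Γ₀) < v z := zero_lt_iff.2 hz0
  have c5 : v (W.addY x₁ x₂ y₁ l - y₁) ≤ v z := by
    have e : W.addY x₁ x₂ y₁ l - y₁ = -(l * (W.addX x₁ x₂ l - x₁ - 2 * y₁ * z)) -
        2 * (y₁ * (l * z + 1)) := by
      rw [hy₃]; ring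
    rw [e]
    refine v_sub_le ?_ (m i2 (m hy₁ (c3.trans hz21)))
    rw [Valuation.map_neg, map_mul]
    calc v l * v (W.addX x₁ x₂ l - x₁ - 2 * y₁ * z) ≤ v l * v z ^ 2 := mul_le_mul' le_rfl c1
      _ = (v l * v z) * v z := by rw [pow_two, mul_assoc]
      _ = v z := by rw [c4, one_mul]
  refine ⟨W.addX x₁ x₂ l, W.addY x₁ x₂ y₁ l, h₃, hadd, ?_, c1, c2, c5⟩
  show ¬ 1 < v (W.addX x₁ x₂ l)
  rw [not_lt, show W.addX x₁ x₂ l = (W.addX x₁ x₂ l - x₁) + x₁ by ring]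
  exact v_add_le (c2.trans hzle) hx₁

end Pool.Agent.MU3.Val
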