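import Pool.Agent.MU3.ADefs
import Pool.Agent.MU3.VCong

/-!
# MU3, block V: the valuation lemmas for the points `ξ(z)`, `z ∈ ℂ` (helper59)

`V` is a valuation ring of `ℂ` in which `2` is a unit, `v = V.valuation`; `InE1 A B V L z` says that `z` is
zero or in the kernel of reduction. `IsXi A B L ξ`: `ξ : ℂ → E(ℂ)` is the homomorphism with
`ξ(z) = (xx z, yy z)`.
-/

set_option autoImplicit false

open WeierstrassCurve

namespace Pool.Agent.MU3V

open _root_.MU3 Pool.Agent.MU3A Pool.Agent.MU3B Pool.Agent.MU3.Val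

noncomputable section

/-- the curve over `ℂ` -/
abbrev WC (A B : ℤ) : WeierstrassCurve.Affine ℂ := (EE A B).map (algebraMap (kk A B) ℂ)

/-- `ξ` is the homomorphism `ℂ → E(ℂ)` given by `(xx, yy)` -/
structure IsXi (A B : ℤ) (L : PeriodPair) (ξ : ℂ →+ (WC A B).Point) : Prop where
  some : ∀ z ∉ L.lattice, ∃ h, ξ z = Affine.Point.some (xx A B L z) (yy L z) h
  zero : ∀ z ∈ L.lattice, ξ z = 0

/-- the local parameter `-x/y` -/
def tz (A B : ℤ) (L : PeriodPair) (z : ℂ) : ℂ := -(xx A B L z / yy L z)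

variable {A B : ℤ}

/-- the elements of `O` are integral -/
lemma emb_mem_V (h : Case A B) (V : ValuationSubring ℂ) (x : OO A B) : emb x ∈ V := by
  have hw : wC A B ∈ V := by
    rw [← ValuationSubring.valuation_le_one_iff]
    by_contra hc
    push Not at hc
    have e := congrArg V.valuation (wC_sq h)
    have h1 : V.valuation ((A : ℂ) + B * wC A B) ≤ V.valuation (wC A B) := by
      refine v_add_le ?_ ?_
      · exact le_trans ((ValuationSubring.valuation_le_one_iff _ _).2 (intCast_mem V A)) hc.le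
      · rw [map_mul]
        exact mul_le_of_le_one_left' ((ValuationSubring.valuation_le_one_iff _ _).2
          (intCast_mem V B))
    rw [← e, map_mul] at h1
    have h2 : V.valuation (wC A B) < V.valuation (wC A B) * V.valuation (wC A B) := by
      conv_lhs => rw [← one_mul (V.valuation (wC A B))]
      exact mul_lt_mul_of_pos_right hc (lt_trans zero_lt_one hc)
    exact absurd h1 (not_le.2 h2)
  exact add_mem (intCast_mem V _) (mul_mem (intCast_mem V _) hw)

lemma v_emb_le (h : Case A B) (V : ValuationSubring ℂ) (x : OO A B) : V.valuation (emb x) ≤ 1 :=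
  (ValuationSubring.valuation_le_one_iff _ _).2 (emb_mem_V h V x)

lemma intW (h : Case A B) {V : ValuationSubring ℂ} (h2 : V.valuation 2 = 1) :
    IntW V.valuation (WC A B) where
  a1 := by simp [WC, EE]
  a3 := by simp [WC, EE]
  a2 := by
    have : (WC A B).a₂ = emb (a2 A B) := by simp [WC, EE, ek]
    rw [this]; exact v_emb_le h V _
  a4 := by
    have : (WC A B).a₄ = emb (a4 A B) := by simp [WC, EE, ek]
    rw [this]; exact v_emb_le h V _
  a6 := by
    have : (WC A B).a₆ = emb (a6 A B) / 4 := by simp [WC, EE, ek]; rfl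
    rw [this, map_div₀]
    have h4 : V.valuation (4 : ℂ) = 1 := by
      rw [show (4 : ℂ) = 2 * 2 by norm_num, map_mul, h2, one_mul]
    rw [h4, div_one]; exact v_emb_le h V _

lemma disc_eq (h : Case A B) : (WC A B).Δ = 512 ∨ (WC A B).Δ = 1 := by
  have e1 : (WC A B).a₁ = 0 := by simp [WC, EE]
  have e2 : (WC A B).a₂ = emb (a2 A B) := by simp [WC, EE, ek]
  have e3 : (WC A B).a₃ = 0 := by simp [WC, EE]
  have e4 : (WC A B).a₄ = emb (a4 A B) := by simp [WC, EE, ek]
  have e6 : (WC A B).a₆ = emb (a6 A B) / 4 := by simp [WC, EE, ek]; rfl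
  rw [WeierstrassCurve.Δ, WeierstrassCurve.b₂, WeierstrassCurve.b₄, WeierstrassCurve.b₆,
    WeierstrassCurve.b₈, e1, e2, e3, e4, e6]
  rcases h with ⟨rfl, rfl⟩ | ⟨rfl, rfl⟩
  · left
    have h1 : emb (a2 (-2) 0) = 4 := by
      have : a2 (-2) 0 = ((4 : ℕ) : OO (-2) 0) := by simp [a2]
      rw [this, emb_natCast (Or.inl ⟨rfl, rfl⟩)]; norm_num
    have h2 : emb (a4 (-2) 0) = 2 := by
      have : a4 (-2) 0 = ((2 : ℕ) : OO (-2) 0) := by simp [a4]
      rw [this, emb_natCast (Or.inl ⟨rfl, rfl⟩)]; norm_num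
    have h3 : emb (a6 (-2) 0) = 0 := by
      have : a6 (-2) 0 = 0 := by simp [a6]
      rw [this, emb_zero (Or.inl ⟨rfl, rfl⟩)]
    rw [h1, h2, h3]; norm_num
  · right
    have hw := wC_sq (A := -3) (B := 1) (Or.inr ⟨rfl, rfl⟩)
    have h1 : emb (a2 (-3) 1) = 2 * wC (-3) 1 - 1 := by simp [a2, emb]; ring
    have h2 : emb (a4 (-3) 1) = -3 := by
      have : a4 (-3) 1 = ((-3 : ℤ) : OO (-3) 1) := by simp [a4]
      rw [this, emb_intCast (Or.inr ⟨rfl, rfl⟩)]; norm_num
    have h3 : emb (a6 (-3) 1) = 1 - 2 * wC (-3) 1 := by simp [a6, emb]; ring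
    push_cast at hw
    rw [h1, h2, h3]
    have e : (2 * wC (-3) 1 - 1) ^ 2 = -11 := by linear_combination 4 * hw
    linear_combination (16 * (2 * wC (-3) 1 - 1) ^ 2 + 157) * e

lemma v_disc (h : Case A B) {V : ValuationSubring ℂ} (h2 : V.valuation 2 = 1) :
    V.valuation (WC A B).Δ = 1 := by
  rcases disc_eq h with e | e
  · rw [e, show (512 : ℂ) = 2 ^ 9 by norm_num, map_pow, h2, one_pow]
  · rw [e, map_one]

section
variable {L : PeriodPair} {ξ : ℂ →+ (WC A B).Point} {V : ValuationSubring ℂ}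

lemma inE_iff (hξ : IsXi A B L ξ) (z : ℂ) : InE V.valuation (ξ z) ↔ InE1 A B V L z := by
  by_cases hz : z ∈ L.lattice
  · rw [hξ.zero z hz]
    exact ⟨fun _ => Or.inl hz, fun _ => inE_zero⟩
  · obtain ⟨h1, e⟩ := hξ.some z hz
    rw [e]
    show 1 < V.valuation (xx A B L z) ↔ _
    unfold InE1
    rw [← not_le, ValuationSubring.valuation_le_one_iff]
    tauto

lemma zc_xi (hξ : IsXi A B L ξ) {z : ℂ} (hz : z ∉ L.lattice) : zc (ξ z) = tz A B L z := by
  obtain ⟨h1, e⟩ := hξ.some z hz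
  rw [e]; rfl

lemma int_x {z : ℂ} (h : ¬ InE1 A B V L z) : z ∉ L.lattice ∧ V.valuation (xx A B L z) ≤ 1 := by
  unfold InE1 at h
  push Not at h
  exact ⟨h.1, (ValuationSubring.valuation_le_one_iff _ _).2 h.2⟩

lemma int_yy (h : Case A B) (h2 : V.valuation 2 = 1) (hξ : IsXi A B L ξ) {z : ℂ}
    (hz : ¬ InE1 A B V L z) : V.valuation (yy L z) ≤ 1 := by
  obtain ⟨h1, h3⟩ := int_x hz
  obtain ⟨h4, e⟩ := hξ.some z h1
  exact int_y (intW h h2) h4 h3

lemma inE1_add (h : Case A B) (h2 : V.valuation 2 = 1) (hξ : IsXi A B L ξ) {z w : ℂ}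
    (hz : InE1 A B V L z) (hw : InE1 A B V L w) : InE1 A B V L (z + w) := by
  rw [← inE_iff hξ] at hz hw ⊢
  rw [map_add]
  exact (add_inE (intW h h2) (two_ne h2) hz hw).1

lemma inE1_neg (hξ : IsXi A B L ξ) {z : ℂ}
    (hz : InE1 A B V L z) : InE1 A B V L (-z) := by
  rw [← inE_iff hξ] at hz ⊢
  rw [map_neg]
  exact inE_neg hz

lemma inE1_sub (h : Case A B) (h2 : V.valuation 2 = 1) (hξ : IsXi A B L ξ) {z w : ℂ}
    (hz : InE1 A B V L z) (hw : InE1 A B V L w) : InE1 A B V L (z - w) := by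
  rw [sub_eq_add_neg]
  exact inE1_add h h2 hξ hz (inE1_neg hξ hw)

lemma inE1_zero : InE1 A B V L 0 := Or.inl (zero_mem _)

lemma inE1_of_mem {z : ℂ} (hz : z ∈ L.lattice) : InE1 A B V L z := Or.inl hz

lemma inE1_nat (h : Case A B) (h2 : V.valuation 2 = 1) (hξ : IsXi A B L ξ) {z : ℂ}
    (hz : InE1 A B V L z) (n : ℕ) : InE1 A B V L (n * z) := by
  induction n with
  | zero => simpa using inE1_zero
  | succ n ih =>
    have : ((n + 1 : ℕ) : ℂ) * z = n * z + z := by push_cast; ring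
    rw [this]
    exact inE1_add h h2 hξ ih hz

lemma inE1_int (h : Case A B) (h2 : V.valuation 2 = 1) (hξ : IsXi A B L ξ) {z : ℂ}
    (hz : InE1 A B V L z) (n : ℤ) : InE1 A B V L (n * z) := by
  obtain ⟨m, rfl | rfl⟩ := n.eq_nat_or_neg
  · simpa using inE1_nat h h2 hξ hz m
  · have : ((-(m : ℤ) : ℤ) : ℂ) * z = -(m * z) := by push_cast; ring
    rw [this]
    exact inE1_neg hξ (inE1_nat h h2 hξ hz m)

/-- congruence modulo the kernel of reduction -/
lemma inE1_congr (h : Case A B) (h2 : V.valuation 2 = 1) (hξ : IsXi A B L ξ) {z w : ℂ}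
    (hzw : InE1 A B V L (z - w)) : InE1 A B V L z ↔ InE1 A B V L w := by
  constructor
  · intro hz
    have := inE1_sub h h2 hξ hz hzw
    rwa [sub_sub_cancel] at this
  · intro hw
    have := inE1_add h h2 hξ hzw hw
    rwa [sub_add_cancel] at this

lemma v_tz_lt (h : Case A B) (h2 : V.valuation 2 = 1) (hξ : IsXi A B L ξ) {z : ℂ}
    (hz : InE1 A B V L z) (hL : z ∉ L.lattice) :
    V.valuation (tz A B L z) < 1 ∧ V.valuation (tz A B L z) ≠ 0 ∧
      V.valuation (xx A B L z) * V.valuation (tz A B L z) ^ 2 = 1 := by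
  obtain ⟨h1, e⟩ := hξ.some z hL
  have h3 := (inE_iff hξ z).2 hz
  rw [e] at h3
  obtain ⟨-, h4, h5, -, h6⟩ := inE_some (intW h h2) h3
  exact ⟨h4, h5, h6⟩

/-- additivity of the parameter to third order -/
lemma v_tz_add (h : Case A B) (h2 : V.valuation 2 = 1) (hξ : IsXi A B L ξ) {z w : ℂ}
    (hz : InE1 A B V L z) (hw : InE1 A B V L w) (hzL : z ∉ L.lattice) (hwL : w ∉ L.lattice)
    (hzw : z + w ∉ L.lattice) :
    V.valuation (tz A B L (z + w) - tz A B L z - tz A B L w) ≤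
      (max (V.valuation (tz A B L z)) (V.valuation (tz A B L w))) ^ 3 := by
  rw [← inE_iff hξ] at hz hw
  have h3 := (add_inE (intW h h2) (two_ne h2) hz hw).2
  rwa [← map_add, zc_xi hξ hzL, zc_xi hξ hwL, zc_xi hξ hzw] at h3

/-- the parameter of a multiple -/
lemma v_tz_nat (h : Case A B) (h2 : V.valuation 2 = 1) (hξ : IsXi A B L ξ) {z : ℂ}
    (hz : InE1 A B V L z) {n : ℕ} (hn : V.valuation (n : ℂ) = 1) (hzL : z ∉ L.lattice)
    (hnL : n * z ∉ L.lattice) :
    V.valuation (tz A B L (n * z)) = V.valuation (tz A B L z) := by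
  rw [← inE_iff hξ] at hz
  have h3 := v_zc_nsmul (intW h h2) (two_ne h2) hz hn
  rw [← map_nsmul, nsmul_eq_mul] at h3
  rwa [zc_xi hξ hzL, zc_xi hξ hnL] at h3

/-- no torsion prime to the residue characteristic in the kernel of reduction -/
lemma mem_of_nat_mul (h : Case A B) (h2 : V.valuation 2 = 1) (hξ : IsXi A B L ξ) {z : ℂ}
    (hz : InE1 A B V L z) {n : ℕ} (hn : V.valuation (n : ℂ) = 1)
    (hnL : n * z ∈ L.lattice) : z ∈ L.lattice := by
  rw [← inE_iff hξ] at hz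
  by_contra hzL
  have h3 := eq_zero_of_nsmul (intW h h2) (two_ne h2) hz hn (by
    rw [← map_nsmul, nsmul_eq_mul]; exact hξ.zero _ hnL)
  obtain ⟨h4, e⟩ := hξ.some z hzL
  rw [e] at h3
  exact absurd h3 (by simp)

/-- the difference of the `x`-coordinates is a unit -/
lemma v_xx_sub (h : Case A B) (h2 : V.valuation 2 = 1) (hξ : IsXi A B L ξ) {z w : ℂ}
    (hz : ¬ InE1 A B V L z) (hw : ¬ InE1 A B V L w) (hp : ¬ InE1 A B V L (z + w))
    (hm : ¬ InE1 A B V L (z - w)) : V.valuation (xx A B L z - xx A B L w) = 1 := by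
  obtain ⟨h3, e3⟩ := hξ.some z (int_x hz).1
  obtain ⟨h4, e4⟩ := hξ.some w (int_x hw).1
  rw [← inE_iff hξ] at hz hw hp hm
  rw [map_add] at hp
  rw [map_sub] at hm
  rw [e3] at hz hp hm
  rw [e4] at hw hp hm
  exact v_x_sub (intW h h2) h2 (v_disc h h2) h3 h4 hz hw hp hm

/-- addition of a point in the kernel of reduction -/
lemma near (h : Case A B) (h2 : V.valuation 2 = 1) (hξ : IsXi A B L ξ) {z w : ℂ}
    (hz : ¬ InE1 A B V L z) (hw : InE1 A B V L w) (hwL : w ∉ L.lattice) :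
    ¬ InE1 A B V L (z + w) ∧
    V.valuation (xx A B L (z + w) - xx A B L z - 2 * yy L z * tz A B L w) ≤
      V.valuation (tz A B L w) ^ 2 ∧
    V.valuation (xx A B L (z + w) - xx A B L z) ≤ V.valuation (tz A B L w) ∧
    V.valuation (yy L (z + w) - yy L z) ≤ V.valuation (tz A B L w) := by
  have hzw : ¬ InE1 A B V L (z + w) := by
    rw [inE1_congr h h2 hξ (w := z) (by rwa [add_sub_cancel_left])]
    exact hz
  refine ⟨hzw, ?_⟩
  obtain ⟨h3, e3⟩ := hξ.some z (int_x hz).1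
  obtain ⟨h4, e4⟩ := hξ.some w hwL
  obtain ⟨h5, e5⟩ := hξ.some (z + w) (int_x hzw).1
  rw [← inE_iff hξ] at hz hw
  rw [e3] at hz
  rw [e4] at hw
  obtain ⟨x₃, y₃, h₃, e, -, i1, i2, i3⟩ := add_near (intW h h2) h3 h4 hz hw
  rw [← e3, ← e4, ← map_add, e5] at e
  obtain ⟨rfl, rfl⟩ : xx A B L (z + w) = x₃ ∧ yy L (z + w) = y₃ := by
    simpa using e
  exact ⟨i1, i2, i3⟩

/-- `x` modulo the maximal ideal depends only on the reduction -/
lemma near_lt (h : Case A B) (h2 : V.valuation 2 = 1) (hξ : IsXi A B L ξ) {z w : ℂ}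
    (hz : ¬ InE1 A B V L z) (hw : InE1 A B V L w) :
    V.valuation (xx A B L (z + w) - xx A B L z) < 1 ∧ V.valuation (yy L (z + w) - yy L z) < 1 := by
  by_cases hwL : w ∈ L.lattice
  · have h3 := hξ.zero w hwL
    obtain ⟨h4, e4⟩ := hξ.some z (int_x hz).1
    have hzw : z + w ∉ L.lattice := fun h5 => (int_x hz).1 (by
      have := sub_mem h5 hwL; rwa [add_sub_cancel_right] at this)
    obtain ⟨h5, e5⟩ := hξ.some (z + w) hzw
    rw [map_add, h3, add_zero, e4] at e5
    obtain ⟨e6, e7⟩ : xx A B L z = xx A B L (z + w) ∧ yy L z = yy L (z + w) := by simpa using e5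
    rw [← e6, ← e7, sub_self, sub_self, map_zero]
    exact ⟨zero_lt_one, zero_lt_one⟩
  · obtain ⟨-, -, h3, h4⟩ := near h h2 hξ hz hw hwL
    have h5 := (v_tz_lt h h2 hξ hw hwL).1
    exact ⟨h3.trans_lt h5, h4.trans_lt h5⟩

end

end

end Pool.Agent.MU3V
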