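import Pool.Agent.MU3.StA
import Pool.Agent.MU3.StB2
import Pool.Agent.MU3.VZ

/-!
# MU3, block V: reduction modulo a prime of degree one, statements (helper59)

`V` is a valuation ring of `ℂ`, `v = V.valuation`; `v x ≤ 1` iff `x ∈ V`
(`ValuationSubring.valuation_le_one_iff`), `v x < 1` iff `x ∈ V.nonunits`. `l = emb lam`, `nm lam = q` a prime
number. `E[lam]` = the `u` with `l u ∈ L`. Every statement is a `def Sv_X : Prop`; the module proves
`theorem tv_X (h : ...) ... : Sv_X`. `IsXi`, `tz`, `near`, `near_lt`, `inE1_add`, ...: `VZ.lean`.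
`IsHalf`, `ThetaH`: `StB2.lean`.
-/

set_option autoImplicit false

open WeierstrassCurve Polynomial NumberField IsDedekindDomain

namespace Pool.Agent.MU3V

open _root_.MU3 Pool.Agent.MU3A Pool.Agent.MU3B

noncomputable section

/-- the polynomial `l ∏_(q ∈ H) (X - x(q))` -/
def Qp (A B : ℤ) (L : PeriodPair) (l : ℂ) (H : Finset ℂ) : ℂ[X] :=
  C l * ∏ q ∈ H, (X - C (xx A B L q))

/-- the polynomial `∏_(q ∈ H) (X - x(w + q))` -/
def Cp (A B : ℤ) (L : PeriodPair) (w : ℂ) (H : Finset ℂ) : ℂ[X] :=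
  ∏ q ∈ H, (X - C (xx A B L (w + q)))

/-- (POL) the identity of polynomials behind multiplication by `l`, at points of order two.

Uses Sa_PFG, St_HRE, St_SUR (and periodicity, parity of `℘` from Mathlib: `weierstrassP_neg`,
`weierstrassP_add_coe` or similar). PROOF. `R = H ∪ -H` is `IsReps L l R` (HRE), disjoint union. Let `2 w ∈ L`,
`w ∉ L`. Then `l w ∉ L`: otherwise by `IsHalf.surj` `w ≡ ± q`, `q ∈ H`, `2 q ∈ L` against `IsHalf.ne`. (PFG) for `w`: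
for `l z ∉ L`: `l² (℘(lz) - ℘(lw)) ∏_(q ∈ R) (℘ z - ℘ q) = (℘ z - ℘ w) ∏_(q ∈ R) (℘ z - ℘(w + q))`. As
`℘(-q) = ℘(q)` and `℘(w - q) = ℘(q - w) = ℘(q - w + 2w) = ℘(w + q)`, the products over `R` are the squares
of the products over `H`. With `xx = ℘ - a₂/3` (differences are the same):
(1) `(xx(lz) - xx(lw)) Qp(xx z)² = (xx z - xx w) Cp_w(xx z)²`: this is the second part. First part: subtract (1)
for `w₁`, `w₂`: the two polynomials agree at `xx z` for all `z` with `l z ∉ L`. Every complex number is `xx z` for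
some `z ∉ L` (SUR), and if `l z ∈ L` then `z ≡ ± q`, `q ∈ H`, `xx z = xx q`: so they agree at all numbers
except finitely many, hence are equal (`Polynomial.eq_of_infinite_eval_eq`). -/
def Sv_POL : Prop :=
  ∀ (A B : ℤ) (L : PeriodPair) (l : ℂ) (H : Finset ℂ), l ≠ 0 →
    (∀ u ∈ L.lattice, l * u ∈ L.lattice) → IsHalf L l H →
    (∀ w₁ w₂ : ℂ, 2 * w₁ ∈ L.lattice → w₁ ∉ L.lattice → 2 * w₂ ∈ L.lattice → w₂ ∉ L.lattice →
      C (xx A B L (l * w₂) - xx A B L (l * w₁)) * Qp A B L l H ^ 2 =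
        (X - C (xx A B L w₁)) * Cp A B L w₁ H ^ 2 - (X - C (xx A B L w₂)) * Cp A B L w₂ H ^ 2) ∧
    ∀ w : ℂ, 2 * w ∈ L.lattice → w ∉ L.lattice → ∀ z, l * z ∉ L.lattice →
      (xx A B L (l * z) - xx A B L (l * w)) * (Qp A B L l H).eval (xx A B L z) ^ 2 =
        (xx A B L z - xx A B L w) * (Cp A B L w H).eval (xx A B L z) ^ 2

/-- (DEG1) `O / lam` has the classes of the integers, if `nm lam` is a prime number `q`.

PROOF. `lam = a + b w`, `q = a² + B a b - A b²`. `q ∣ lam * conj lam`, i.e. `lam * ⟨a + B b, -b⟩ = q`. If `q ∣ b` then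
`q ∣ a²`, `q ∣ a`, `q² ∣ nm lam = q`, absurd. Let `b b' ≡ 1` mod `q`: `w ≡ b b' w ≡ -a b'` modulo `lam`. So
`x = x.re + x.im w ≡ x.re - x.im a b'`. Third part: `lam ∣ n` gives `q = nm lam ∣ nm n = n²`
(multiplicativity of `nm`). -/
def Sv_DEG1 : Prop :=
  ∀ A B : ℤ, Case A B → ∀ (lam : OO A B) (q : ℕ), q.Prime → nm lam = q →
    (∀ x : OO A B, ∃ n : ℤ, lam ∣ x - n) ∧ lam ∣ (q : OO A B) ∧
      ∀ n : ℤ, lam ∣ (n : OO A B) → (q : ℤ) ∣ n

/-- (CYCL) `E[lam]` is cyclic of order `q`; half systems exist.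

Uses Sv_DEG1, St_HAL. PROOF. `u = emb x (Om / l)`, `u₁ = emb x₁ (Om / l)` (`IsLat.torsion_iff`), `lam` does not divide `x₁`
(`IsLat.mul_div_mem_iff`). By DEG1 `x ≡ n`, `x₁ ≡ n₁` modulo `lam` with integers, `q` does not divide `n₁`, so there is
`m` with `n ≡ m n₁` modulo `q`; `lam ∣ q` gives `lam ∣ x - m x₁`. Order `q`: `lam ∣ q x`. Half systems: `q` odd, so `lam` and
`2` are coprime (`conj lam * lam = q`, `IsCoprime lam 2`), `IsLat.mem_of_coprime`, and (HAL). -/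
def Sv_CYCL : Prop :=
  ∀ (A B : ℤ) (L : PeriodPair) (Om : ℂ), Case A B → IsCM A B L Om → ∀ (lam : OO A B) (q : ℕ),
    q.Prime → nm lam = q →
    (∀ u u₁ : ℂ, emb lam * u ∈ L.lattice → emb lam * u₁ ∈ L.lattice → u₁ ∉ L.lattice →
      ∃ m : ℤ, u - m * u₁ ∈ L.lattice) ∧
    (∀ u : ℂ, emb lam * u ∈ L.lattice → q * u ∈ L.lattice) ∧
    (q ≠ 2 → ∃ H : Finset ℂ, IsHalf L (emb lam) H)

/-- (R2) `E[lam]` is in the kernel of reduction at a place where `lam` is not a unit.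

Uses Sv_POL, Sv_CYCL, `VZ.lean`. PROOF. `v l < 1`, `v q ≤ v l < 1` (`lam ∣ q`), so `q ≠ 2` as `v 2 = 1`. Take `H` (CYCL).
Suppose `u₀ ∈ E[lam]` is not in `E₁` (`¬ InE1`). Then no `u ∈ E[lam]`, `u ∉ L`, is in `E₁`: otherwise
`u₀ ≡ m u` modulo `L` (CYCL) would be in `E₁` (`inE1_int`, `inE1_congr`). Let `w₁ = Om/2`, `w₂ = Om w/2` (`w = wC A B`):
`2 w_i ∈ L`, `w_i ∉ L`, `w₁ - w₂ ∉ L`. For `q ∈ H`: `w_i + q` is not in `E₁` (otherwise `2 (w_i + q)`, so `2 q` is in `E₁`,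
`2 q ∈ E[lam]`, `2 q ∉ L`, a contradiction). So all `x(q)`, `x(w_i + q)`, `x(w_i)` are in `V` (`w_i` is not in `E₁`:
`mem_of_nat_mul` with `n = 2`), and `e₁ - e₂` is a unit, `e_i = x(w_i)` (`v_xx_sub`: `w₁ ± w₂ ∉ E₁` by
`mem_of_nat_mul`). Let `κ` be the residue field of `V`; the polynomials `Qp`, `Cp` come from polynomials over
`V`. Reduce (POL) to `κ[X]`: the left side becomes `0` because `Qp` has the factor `l` in the maximal ideal and
`x(l w₂) - x(l w₁) ∈ V` (`l w_i ∉ E₁`, as `2 l w_i ∈ L`, `l w_i ∉ L`). So `(X - ē₁) C̄₁² = (X - ē₂) C̄₂²` in `κ[X]`, both sides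
nonzero, `ē₁ ≠ ē₂`: the multiplicity of `ē₁` as a root (`Polynomial.rootMultiplicity_mul`,
`rootMultiplicity_pow` or `count` in `roots`) is odd on the left and even on the right. Contradiction. -/
def Sv_R2 : Prop :=
  ∀ (A B : ℤ) (L : PeriodPair) (Om : ℂ) (ξ : ℂ →+ (WC A B).Point), Case A B → IsCM A B L Om →
    IsXi A B L ξ → ∀ V : ValuationSubring ℂ, V.valuation 2 = 1 → ∀ (lam : OO A B) (q : ℕ),
    q.Prime → nm lam = q → V.valuation (emb lam) < 1 →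
    ∀ u, emb lam * u ∈ L.lattice → InE1 A B V L u

/-- (R4) consequences of `E[lam] ⊂ E₁` in residue characteristic `q`.

Uses Sv_POL, `VZ.lean`. PROOF. Let `w` be of order two; `w ∉ E₁` (`mem_of_nat_mul`, `n = 2`). For `p ∈ H`, `x(w + p) - x(w)` is in
the maximal ideal `𝔪` of `V` (`near_lt`), so `Cp_w ≡ (X - x(w))^|H|` coefficientwise modulo `𝔪`, and
`(X - x(w)) Cp_w² ≡ (X - x(w))^(2|H|+1) = (X - x(w))^q` (`hq : 2 |H| + 1 = q`): this is (3), evaluated at `x ∈ V`.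
Let `w₁`, `w₂` be of order two, incongruent. `(e₂' - e₁') Qp² = (X - e₁) C₁² - (X - e₂) C₂²` (POL), `e_i = x(w_i)`,
`e_i' = x(l w_i)`; the right side is `≡ (X - e₁)^q - (X - e₂)^q ≡ e₂^q - e₁^q ≡ (e₂ - e₁)^q` modulo `𝔪` (the residue
field has characteristic `q`: `(a - b)^q = a^q - b^q`): this is (2), and it holds as a congruence of
polynomials over `V`. (1): (2) at `x = 0` for `w₁ = Om/2`, `w₂ = Om w/2` (`w = wC A B`): `Qp(0) = ± l ∏ x(p)`; `e₂ - e₁` and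
`e₂' - e₁'` are units (`v_xx_sub`; `l w_i ∉ L` since `E[lam]` has no point of order two by `IsHalf`, and
`l (w₁ ± w₂) ∉ L` too). So `v(l ∏ x(p))² = 1`. (The reduction can be done in the polynomial ring over the
residue field of `V`, or by hand: `a ≡ b` for products of congruent integral factors.) -/
def Sv_R4 : Prop :=
  ∀ (A B : ℤ) (L : PeriodPair) (Om : ℂ) (ξ : ℂ →+ (WC A B).Point), Case A B → IsCM A B L Om →
    IsXi A B L ξ → ∀ V : ValuationSubring ℂ, V.valuation 2 = 1 → ∀ (lam : OO A B) (q : ℕ),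
    q.Prime → V.valuation (q : ℂ) < 1 → lam ≠ 0 → ∀ H : Finset ℂ, IsHalf L (emb lam) H →
    2 * H.card + 1 = q →
    (∀ u, emb lam * u ∈ L.lattice → InE1 A B V L u) →
    (V.valuation (emb lam) * ∏ p ∈ H, V.valuation (xx A B L p) = 1) ∧
    (∀ w₁ w₂ : ℂ, 2 * w₁ ∈ L.lattice → w₁ ∉ L.lattice → 2 * w₂ ∈ L.lattice → w₂ ∉ L.lattice →
      ∀ x ∈ V, V.valuation ((xx A B L (emb lam * w₂) - xx A B L (emb lam * w₁)) *
        (Qp A B L (emb lam) H).eval x ^ 2 - (xx A B L w₂ - xx A B L w₁) ^ q) < 1) ∧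
    ∀ w : ℂ, 2 * w ∈ L.lattice → w ∉ L.lattice → ∀ x ∈ V,
      V.valuation ((x - xx A B L w) * (Cp A B L w H).eval x ^ 2 - (x - xx A B L w) ^ q) < 1

/-- (CARD) a half system for `lam` has `(q - 1)/2` elements.

Uses St_HRE. PROOF. `2 |H| + 1 = |emb lam|² = nm lam = q` (`|emb x|² = nm x`: real and imaginary part of `wC`). -/
def Sv_CARD : Prop :=
  ∀ (A B : ℤ) (L : PeriodPair) (Om : ℂ), Case A B → IsCM A B L Om → ∀ (lam : OO A B) (q : ℕ),
    nm lam = q → lam ≠ 0 → ∀ H : Finset ℂ, IsHalf L (emb lam) H → 2 * H.card + 1 = q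

/-- (FRK) elements of `k` and the Frobenius of the prime field.

Uses Sv_DEG1. PROOF. `x ≡ m` modulo `lam` with an integer `m` (DEG1), so `emb x - m` is in the maximal ideal
(`emb x - m = l emb y`, `emb y ∈ V`), and `q` too (`lam ∣ q`). `m^q ≡ m`, `n^q ≡ n` modulo `q` (Fermat). In the
residue field of `V`: `(x/n)^q = x^q/n^q = m/n`. -/
def Sv_FRK : Prop :=
  ∀ (A B : ℤ), Case A B → ∀ V : ValuationSubring ℂ, ∀ (lam x : OO A B) (q n : ℕ), q.Prime →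
    nm lam = q → V.valuation (emb lam) < 1 → V.valuation (n : ℂ) = 1 →
    V.valuation ((emb x / n) ^ q - emb x / n) < 1

/-- (R5) multiplication by `lam` is the Frobenius modulo a place where `lam` is not a unit (up to sign:
only the `x`-coordinate).

Uses Sv_POL, Sv_CYCL, Sv_R2, Sv_R4, Sv_CARD, Sv_FRK, Sa_ROO. PROOF. `E[lam] ⊂ E₁` (R2), `v q < 1`. Take `H` (CYCL), (CARD), (R4).
Work in the residue field `κ` of `V` (characteristic `q`), write `≡` for equality in `κ`. Let `w₁ = Om/2`,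
`w₂ = Om w/2`, `w₃ = w₁ + w₂`, `e_i = ℘(w_i)`, `e_i' = ℘(l w_i)` (`l w_i` of order two, pairwise incongruent:
`l (w_i ± w_j) ∉ L` because `E[lam]` has no point of order two; `e_i, e_i' ∈ V` because `xx(w_i) ∈ V` and
`a₂/3 ∈ V`). All `e_i - e_j`, `e_i' - e_j'`, `i ≠ j`, are units (`v_xx_sub`). Fix `x₀ ∈ V`, `c = Qp(x₀)²`. By (R4)(2)
`c (e_j' - e_i') ≡ (e_j - e_i)^q = e_j^q - e_i^q` for all `i, j`. `Σ e_i = 0 = Σ e_i'` (ROO, for `w₁, w₂` and for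
`l w₁, l w₂`): sum over `i`: `3 c e_j' ≡ 3 e_j^q`, and `3` is a unit: (a) `e_j^q ≡ c e_j'`. Therefore, with
`Σ_(i<j) e_i e_j = -g₂/4 = Σ e_i' e_j'`, `∏ e_i = g₃/4 = ∏ e_i'` (ROO): `(g₂/4)^q ≡ c² g₂/4`, `(g₃/4)^q ≡ c³ g₃/4`
(`q` odd). By (FRK) `(g₂/4)^q ≡ g₂/4`, `(g₃/4)^q ≡ g₃/4` (`IsCM.g2`, `IsCM.g3`: `g₂/4 = emb(x)/3`,
`g₃/4 = emb(y)/108` with `x, y ∈ O`). `g₂ = 40/3`, `g₃ = -224/27` in the first case, `g₂ = -8/3`, `g₃ = 7 (2w - 1)/27`,
`(2w-1)² = -11`, in the second: units. So `c² = 1 = c³`, `c ≡ 1` for every `x₀ ∈ V`. Now let `z ∉ E₁`, `x₀ = xx z`; then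
`l z ∉ L` (otherwise `z ∈ E₁`). (POL)(second part): `(xx(lz) - xx(lw₁)) Qp(x₀)² = (x₀ - xx w₁) Cp(x₀)²`, which is
`≡ (x₀ - xx w₁)^q` (R4)(3). `Qp(x₀)²` is a unit, so `xx(lz) ∈ V`, and `xx(lz) - xx(lw₁) ≡ (x₀ - xx w₁)^q`, i.e.
`℘(lz) - e₁' ≡ ℘(z)^q - e₁^q`, so `℘(lz) ≡ ℘(z)^q` by (a). `xx = ℘ - a₂/3`, `(a₂/3)^q ≡ a₂/3` (FRK). -/
def Sv_R5 : Prop :=
  ∀ (A B : ℤ) (L : PeriodPair) (Om : ℂ) (ξ : ℂ →+ (WC A B).Point), Case A B → IsCM A B L Om →
    IsXi A B L ξ → ∀ V : ValuationSubring ℂ, V.valuation 2 = 1 → V.valuation 3 = 1 →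
    V.valuation 5 = 1 → V.valuation 7 = 1 → V.valuation 11 = 1 → ∀ (lam : OO A B) (q : ℕ),
    q.Prime → nm lam = q → V.valuation (emb lam) < 1 →
    ∀ z, ¬ InE1 A B V L z → ¬ InE1 A B V L (emb lam * z) ∧
      V.valuation (xx A B L (emb lam * z) - xx A B L z ^ q) < 1

/-- (TRA) total ramification: the parameter of a point of order `lam`.

Uses Sv_CYCL, Sv_R2, Sv_R4, Sv_CARD, `VZ.lean`. PROOF. `v q < 1`, `q ≠ 2`. For `u, p ∈ E[lam]`, not in `L`: `p ≡ m u` (CYCL), `q` does not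
divide `m` (otherwise `p ∈ L`), we may take `m ∈ ℕ` (replace by `m` mod `q`), `v m = 1` (`a m + b q = 1` and
`v q < 1`), so `v(tz p) = v(tz(m u)) = v(tz u)` (`v_tz_nat`; `tz` is periodic: `zc_xi`). `v(xx p) v(tz p)² = 1` (`v_tz_lt`). So
(R4)(1) gives `v(l) = ∏_(p ∈ H) v(tz p)² = v(tz u)^(2|H|) = v(tz u)^(q-1)`. -/
def Sv_TRA : Prop :=
  ∀ (A B : ℤ) (L : PeriodPair) (Om : ℂ) (ξ : ℂ →+ (WC A B).Point), Case A B → IsCM A B L Om →
    IsXi A B L ξ → ∀ V : ValuationSubring ℂ, V.valuation 2 = 1 → ∀ (lam : OO A B) (q : ℕ),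
    q.Prime → nm lam = q → V.valuation (emb lam) < 1 →
    ∀ u, emb lam * u ∈ L.lattice → u ∉ L.lattice →
      V.valuation (tz A B L u) ^ (q - 1) = V.valuation (emb lam)

/-- (INJ) `E[lam]` meets `E₁` trivially at the places where `lam` is a unit.

Uses Sv_CYCL, Sv_R4, Sv_CARD, `VZ.lean`. PROOF. If `v q = 1`: `q u ∈ L` (CYCL) and `mem_of_nat_mul`. Let `v q < 1` (so `q ≠ 2`),
`u ∈ E[lam] ∩ E₁`, `u ∉ L`. All points of `E[lam]` are multiples of `u` (CYCL), so in `E₁`. (R4)(1):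
`v(l) ∏ v(xx p) = 1`, but `v(l) = 1` and `v(xx p) > 1` for `p ∈ H` (`InE1`, `p ∉ L`), `H` not empty (`q ≥ 3`). -/
def Sv_INJ : Prop :=
  ∀ (A B : ℤ) (L : PeriodPair) (Om : ℂ) (ξ : ℂ →+ (WC A B).Point), Case A B → IsCM A B L Om →
    IsXi A B L ξ → ∀ V : ValuationSubring ℂ, V.valuation 2 = 1 → ∀ (lam : OO A B) (q : ℕ),
    q.Prime → nm lam = q → V.valuation (emb lam) = 1 →
    ∀ u, emb lam * u ∈ L.lattice → InE1 A B V L u → u ∈ L.lattice

/-- (EXT) a prime of a number field in `ℂ` extends to a valuation ring of `ℂ`.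

PROOF. `O_w = (w.valuation M).valuationSubring`, a local ring with fraction field `M`; its image in `ℂ` is a
local subring, dominated by a valuation ring `V` (`IsLocalRing.exists_factor_valuationRing` applied to
`O_w → M → ℂ`: `f(O_w) ⊂ V` and the map `O_w → V` is local). If `w x ≤ 1` then `φ x ∈ V`; if `w x < 1` then `φ x` is a
nonunit (local). If `w x > 1`, then `w(x⁻¹) < 1`, so `φ(x)⁻¹` is a nonunit of `V`, `φ x ∉ V`. -/
def Sv_EXT : Prop :=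
  ∀ (M : Type) [Field M] [NumberField M] (φ : M →+* ℂ) (w : HeightOneSpectrum (𝓞 M)),
    ∃ V : ValuationSubring ℂ, ∀ x : M, (φ x ∈ V ↔ w.valuation M x ≤ 1) ∧
      (V.valuation (φ x) < 1 ↔ w.valuation M x < 1) ∧ (V.valuation (φ x) = 1 ↔ w.valuation M x = 1)

end

end Pool.Agent.MU3V
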