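import Pool.Agent.MU3.StA2
import Pool.Agent.MU3.StV
import Pool.Agent.MU3.CDefs

/-!
# MU3, block E: a cube has a small logarithmic derivative (helper66)

Section 4 of `PAPER.md`. Every statement is a `def Se_X : Prop`; the module proves
`theorem te_X (h : ...) ... : Se_X` in the file `E_X.lean`.
`V` is a valuation ring of `ℂ`, `v = V.valuation`; `v x ≤ 1` iff `x ∈ V`
(`ValuationSubring.valuation_le_one_iff`), `v x < 1` iff `x ∈ V.nonunits`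
(`ValuationSubring.valuation_lt_one_iff`, `ValuationSubring.mem_nonunits_iff`).
`p = ppi A B` (norm `3`), `p' = ppc A B`, `3 = p p'`. `u_M = Om / emb M`.
`IsXi`, `tz` (the parameter `t = -x/y`), `near`, `v_xx_sub`, `mem_of_nat_mul`, `inE1_int`, ...: `VZ.lean`.
-/

set_option autoImplicit false

open WeierstrassCurve Polynomial NumberField IsDedekindDomain

namespace Pool.Agent.MU3E

open _root_.MU3 Pool.Agent.MU3A Pool.Agent.MU3B Pool.Agent.MU3C Pool.Agent.MU3V Pool.Agent.RI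

noncomputable section

/-- `x` modulo `ppi`, as `1`, `-1` or `0` -/
def wpi {A B : ℤ} (x : OO A B) : ℤ :=
  open Classical in if ppi A B ∣ x - 1 then 1 else if ppi A B ∣ x + 1 then -1 else 0

/-- `Θ_a'/Θ_a = a e(a z) - a² e(z)` -/
def dl (L : PeriodPair) (a : ℕ) (z : ℂ) : ℂ := a * ee L (a * z) - (a : ℂ) ^ 2 * ee L z

/-- `T(τ) = ∑ w_p(x) (Θ_a'/Θ_a)(x u)`, `x ∈ XX L m h τ`, `u = Om / m` -/
def TT {A B : ℤ} (L : PeriodPair) (Om : ℂ) (m : OO A B) (a : ℕ) {D : IntermediateField ℚ ℂ}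
    (h : kk A B ≤ D) (τ : letI := algC h; D ≃ₐ[kk A B] D) : ℂ :=
  ∑ᶠ x ∈ XX L m h τ, (wpi (Quotient.out x) : ℂ) *
    dl L a (emb (Quotient.out x) * (Om / emb m))

/-! ## Abstract lemmas -/

/-- (BAS) totally ramified over unramified: an automorphism which moves the uniformiser `π` by at most `r`
moves every integral element by at most `r`.

PROOF. Write `v π = ρ`, so `ρ^N = v p`, `0 < ρ < 1`. (1) If `a_i ∈ M₀` (`i < N`) then
`v(Σ a_i π^i) = max_i v(a_i π^i)`: for `a_i ≠ 0`, `v a_i = (v p)^(k_i) = ρ^(N k_i)` (`k_i ∈ ℤ`), so `v(a_i π^i) = ρ^(N k_i + i)`, and these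
are pairwise different for different `i < N` (`N k_i + i` mod `N`; `ρ^j = ρ^j'` only for `j = j'`). The valuation of a sum
of elements of pairwise different valuations is the largest one (induction on the set of `i` with `a_i ≠ 0`,
`Valuation.map_add_eq_of_lt_left`, or Mathlib `Valuation.map_sum_eq_of_lt`). (2) The `K`-linear map
`(Fin N → M₀) → M`, `a ↦ Σ a_i π^i` is injective by (1), and its source has dimension `N * finrank M₀ ≥ finrank M`; so it is onto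
(`LinearMap.injective_iff_surjective_of_finrank_eq_finrank` after `LinearMap.finrank_le_finrank_of_injective`).
(3) Let `w = Σ a_i π^i ∈ M`, `v w ≤ 1`. By (1) `ρ^(N k_i + i) ≤ 1`, so `N k_i + i ≥ 0`, `k_i ≥ 0` (`i < N`), `v a_i ≤ 1`. (4) `σ w - w = Σ a_i ((σ π)^i - π^i)` and
`(σ π)^i - π^i` is `(σ π - π)` times an integral element (`σ π` is integral: `v(σ π - π) ≤ r ≤ 1`, `v π < 1`). -/
def Se_BAS : Prop :=
  ∀ (K E Γ : Type) [Field K] [Field E] [Algebra K E] [LinearOrderedCommGroupWithZero Γ]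
    (v : Valuation E Γ) (M₀ M : IntermediateField K E) [FiniteDimensional K M₀]
    [FiniteDimensional K M] (N : ℕ) (p π : E) (σ : M →ₐ[K] E) (r : Γ), M₀ ≤ M → 0 < N →
    Module.finrank K M ≤ N * Module.finrank K M₀ →
    p ≠ 0 → v p < 1 → (∀ y ∈ M₀, y ≠ 0 → ∃ k : ℤ, v y = v p ^ k) →
    ∀ (hπ : π ∈ M), v π ^ N = v p → (∀ (y : M), (y : E) ∈ M₀ → σ y = y) →
    r ≤ 1 → v (σ ⟨π, hπ⟩ - π) ≤ r → ∀ w : M, v w ≤ 1 → v (σ w - w) ≤ r

/-- (PRD) products of elements close to `1 + t l`.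

PROOF. `u_i = d_i/c_i` satisfies `v(u_i - 1 - t l_i) ≤ v(t)²`, so `v(u_i) = 1`. Call `(u, l)` good if `v l ≤ 1` and
`v(u - 1 - t l) ≤ v(t)²`. Products: `(u u', l + l')` is good (`u u' - 1 - t(l + l') = (u - 1 - t l) u' + (1 + t l)(u' - 1 - t l') + t² l l'`);
inverses: `(u⁻¹, -l)` is good (`u⁻¹ - 1 + t l = -u⁻¹ ((u - 1 - t l)(1 - t l) - t² l²)`, check: `1 - u + u t l = -(u - 1 - tl) - tl + utl = -(u-1-tl) + tl(u - 1)`). So
`(u^g, g l)` for `g ∈ ℤ` and `(∏ u_i^(g_i), Σ g_i l_i)` are good. Multiply by `∏ c_i^(g_i)`, of valuation `1`. -/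
def Se_PRD : Prop :=
  ∀ (E Γ ι : Type) [Field E] [LinearOrderedCommGroupWithZero Γ] [Fintype ι] (v : Valuation E Γ)
    (c d l : ι → E) (g : ι → ℤ) (t : E), v t < 1 → (∀ i, v (c i) = 1) → (∀ i, v (l i) ≤ 1) →
    (∀ i, v (d i - c i * (1 + t * l i)) ≤ v t ^ 2) →
    v (∏ i, c i ^ g i) = 1 ∧ v (∑ i, (g i : E) * l i) ≤ 1 ∧
    v (∏ i, d i ^ g i - (∏ i, c i ^ g i) * (1 + t * ∑ i, (g i : E) * l i)) ≤ v t ^ 2

/-! ## The prime `ppi` -/

/-- (PPI) the valuation on `k` and on `O`.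

Uses Sa_V3, Sa_PID, Sa_INT. PROOF. `v(emb p) < 1`. `3 = p * p'` in `O` (both cases, `emb_mul`), `p'` is not divisible by `p`
(`nm p' = 3`; `p ∣ p'` gives `p' = ± p` by norms, false), so `v(emb p') = 1` (V3: `emb p' ∈ V`, not in `nonunits`), `v 3 = v(emb p) < 1`, so `v 2 = 1`
(`2 = 3 - 1`). For `x ∈ O`, `x ≠ 0`: `x = p^j x'` with `p` not dividing `x'` (`nm x = 3^j nm x'`, so `j` is bounded),
`v(emb x) = v(emb p)^j`. Every nonzero `y ∈ k` is `emb x/emb x'` (INT: `y = s + t w` with rational `s, t`, clear denominators),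
so `v y = v(emb p)^k`. Natural numbers: if `3 ∤ n` then `p` does not divide `n` (`nm n = n²`), `v n = 1`. Third part: `nm p = 3` is
prime, so `p` is prime, and it is coprime to `x` if it does not divide `x` (PID, `Irreducible.coprime_iff_not_dvd`). Fourth: classes of `O/p`:
`O/p` has the classes `0, 1, -1`: `x = x.re + x.im w`, `w = p - (1 - B)` so `x ≡ n := x.re - x.im (1 - B)` modulo `p`, and `p ∣ 3`. -/
def Se_PPI : Prop :=
  ∀ (A B : ℤ), Case A B → ppi A B * ppc A B = 3 ∧ Prime (ppi A B) ∧ ¬ ppi A B ∣ ppc A B ∧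
    (∀ x : OO A B, ¬ ppi A B ∣ x → ppi A B ∣ x - 1 ∨ ppi A B ∣ x + 1) ∧
    (∀ x : OO A B, ¬ ppi A B ∣ x → ∀ j : ℕ, IsCoprime x (ppi A B ^ j)) ∧
    (∀ n : ℤ, ppi A B ∣ (n : OO A B) → (3 : ℤ) ∣ n) ∧
    ∀ V : ValuationSubring ℂ, emb (ppi A B) ∈ V.nonunits →
      V.valuation (emb (ppi A B)) < 1 ∧ V.valuation (emb (ppi A B)) ≠ 0 ∧
      V.valuation 3 = V.valuation (emb (ppi A B)) ∧ V.valuation 2 = 1 ∧
      V.valuation (emb (ppc A B)) = 1 ∧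
      (∀ n : ℕ, ¬ 3 ∣ n → V.valuation (n : ℂ) = 1) ∧
      (∀ x : OO A B, ¬ ppi A B ∣ x → V.valuation (emb x) = 1) ∧
      ∀ y ∈ kk A B, y ≠ 0 → ∃ k : ℤ, V.valuation y = V.valuation (emb (ppi A B)) ^ k

/-- (Z3) integers represent the classes modulo powers of `ppi`; number of classes prime to `ppi`.

Uses Se_PPI. PROOF. First part by induction on `j`: `x = r + p^j y`. `p'^j` is not divisible by `p`, so it is `≡ ± 1` modulo `p`
(PPI), and `y ≡ s` with `s ∈ {0, 1, -1}` (PPI); choose the sign `s' = ± s` with `p'^j s' ≡ y` modulo `p`. Then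
`x - (r + 3^j s') = p^j (y - p'^j s')` is divisible by `p^(j+1)` (`3^j = p^j p'^j`). Second part: the class of `x` is that of an integer `r`, prime to `3` if `p ∤ x`
(`3 ∣ r` gives `p ∣ x`), and it depends only on `r` modulo `3^j` (`p^j ∣ 3^j`). So the classes inject into
the units of `ZMod (3^j)`, which has `φ(3^j) = 2 * 3^(j-1)` units. -/
def Se_Z3 : Prop :=
  ∀ (A B : ℤ), Case A B → ∀ j : ℕ, (∀ x : OO A B, ∃ r : ℤ, ppi A B ^ j ∣ x - r) ∧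
    (1 ≤ j → ∀ S : Finset (OO A B), (∀ x ∈ S, ¬ ppi A B ∣ x) →
      (∀ x ∈ S, ∀ y ∈ S, ppi A B ^ j ∣ x - y → x = y) → S.card ≤ 2 * 3 ^ (j - 1))

/-- (DEG) the degree of `F_(p^j M')` over `F_(M')`.

Uses Se_PPI, Se_Z3, Sa_ACT, Sa_NRM, Sa_GAL. PROOF. `M = p^j M'`. The number of embeddings `TF L M →ₐ[k] ℂ` is `finrank k (TF L M)`
(`AlgHom.card`: finite separable, `ℂ` algebraically closed), same for `M'`. Send `τ : TF L M → ℂ` to its restriction to `TF L M'` (`TF L M' ≤ TF L M`: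
the generators, `E[M'] ⊆ E[M]`). All fibres have at most `2 * 3^(j-1)` elements: let `τ_1, …, τ_s` be different embeddings with the
same restriction, `Act τ_i M a_i` (GAL). Then `M' ∣ a_i - a_1` (ACT (8), (3), (1): both `a_i`, `a_1` belong to the restriction to `TF L M'`). If `p^j ∣ a_i - a_i'`
then, as `p^j` and `M'` are coprime (PPI), `M ∣ a_i - a_i'`, so `Act τ_i' M a_i` (ACT (2)) and `τ_i = τ_i'` (ACT (5)). `p ∤ a_i` (coprime to
`M`, `j ≥ 1`). So `s ≤ 2 * 3^(j-1)` (Z3) (`Finset.card_le_mul_card_image` or `Nat.card` version). -/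
def Se_DEG : Prop :=
  ∀ (A B : ℤ) (L : PeriodPair) (Om : ℂ), Case A B → IsCM A B L Om →
    ∀ (j : ℕ) (M' : OO A B), 1 ≤ j → M' ≠ 0 → ¬ ppi A B ∣ M' →
      TF L M' ≤ TF L (ppi A B ^ j * M') ∧
      Module.finrank (kk A B) (TF L (ppi A B ^ j * M')) ≤
        (2 * 3 ^ (j - 1)) * Module.finrank (kk A B) (TF L M')

/-- (TP) the parameter of a point of exact order `ppi^(j+1)`.

Uses Se_PPI, Sa_T3, Sa_N8P, Sa_N11 (and `v_tz_lt`). PROOF. Write `D = p X + d₀`, `N = X³ + n₂X² + n₁X + n₀` for the `Iso3` formulas of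
`p = ppi` (N8P resp. N11; `ppi (-2) 0 = ⟨1, 1⟩`, `ppi (-3) 1 = ⟨0, 1⟩`): the `n_i` are in `V`, and `d₀` (`⟨0, 1⟩` resp. `-1`) is a unit of `V` because it is not divisible by `p` (norms `2`, `1`). `q := v(emb p) < 1`. Every `z ∉ L` killed by a power of `p` is in
`E₁` (T3 (2)), so `v(x z) > 1`, `v(x z) v(t z)² = 1` (`v_tz_lt`). Induction on `j`. `j = 0`: `D(x z) = 0` (`Iso3.ker`), so `v(x z) = q⁻¹`, `v(t z)² = q`. Step: `z` of exact order `p^(j+2)`,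
`X = x z`, `y = x(p z)`: by induction `v(t(pz))^(2*3^j) = q`, so `v(t(pz))² ≥ q`, `v y ≤ q⁻¹`. `v N = v(X)³` (`v X > 1`), `y D(X)² = N(X)`. If `v(p X) > 1`: `v D = v(p X)`, `v y = v(X)/q² > q⁻³`; if
`v(p X) = 1`: `v D ≤ 1`, `v y ≥ v(X)³ = q⁻³`; both contradict `v y ≤ q⁻¹ < q⁻³`. So `v(p X) < 1`, `v D = 1`, `v y = v(X)³`, `v(t(pz)) = v(t z)³` (squares, `v ≥ 0`), and
`v(t z)^(2*3^(j+1)) = q`. -/
def Se_TP : Prop :=
  ∀ (A B : ℤ) (L : PeriodPair) (Om : ℂ) (ξ : ℂ →+ (WC A B).Point), Case A B → IsCM A B L Om →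
    IsXi A B L ξ → ∀ V : ValuationSubring ℂ, emb (ppi A B) ∈ V.nonunits →
    ∀ (j : ℕ) (z : ℂ), emb (ppi A B ^ (j + 1)) * z ∈ L.lattice →
      emb (ppi A B ^ j) * z ∉ L.lattice →
      InE1 A B V L z ∧ z ∉ L.lattice ∧
        V.valuation (tz A B L z) ^ (2 * 3 ^ j) = V.valuation (emb (ppi A B))

/-- (COP) torsion of order prime to `ppi` is not in the kernel of reduction.

Uses Se_PPI, Sa_T3, `mem_of_nat_mul`. PROOF. Suppose `z ∉ L`; `InE1 z` then means `x z ∉ V`. T3 (4): its hypothesis (`n z ∈ L`, `z ∉ L`, `3 ∤ n` implies `x z ∈ V`)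
is `mem_of_nat_mul` (`v n = 1` by PPI), `M'` and `p` are coprime (PPI with `j = 1`), so `x z ∈ V`. Contradiction. -/
def Se_COP : Prop :=
  ∀ (A B : ℤ) (L : PeriodPair) (Om : ℂ) (ξ : ℂ →+ (WC A B).Point), Case A B → IsCM A B L Om →
    IsXi A B L ξ → ∀ V : ValuationSubring ℂ, emb (ppi A B) ∈ V.nonunits →
    ∀ (M' : OO A B) (z : ℂ), M' ≠ 0 → ¬ ppi A B ∣ M' → emb M' * z ∈ L.lattice →
      InE1 A B V L z → z ∈ L.lattice

/-! ## `F_(M')` is unramified at `ppi` -/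

/-- (RAM) a finite Galois extension `F / k` with trivial inertia group at `V` is unramified: the values on `F` are the
powers of `v(emb p)`.

Uses Se_PPI, Sa_INT, Sa_PID. PROOF. `w := {x ∈ 𝓞 F : v x < 1}` is a prime ideal of `𝓞 F` (integral elements are in `V`, since `V` is integrally closed in `ℂ`),
`≠ 0` (it contains `emb p`). (a) Localisation: every `x ∈ F`, `v x ≤ 1`, is `s/t` with `s, t ∈ 𝓞 F`, `v t = 1`: the local ring of `w` is a discrete valuation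
ring; equivalently with `ord = w.valuation F` (`HeightOneSpectrum`): for `x ∈ F`: `ord x ≤ 1 → v x ≤ 1` and `ord x < 1 → v x < 1`: if
`ord x ≤ 1` then `x = s/t` with `t ∉ w` (`IsDedekindDomain.HeightOneSpectrum.valuation...`, or `exists_primeIdeal...`; `IsLocalization.AtPrime` of the valuation subring), `v t = 1`. Hence `v x = 1` if
`ord x = 1` (apply it to `x` and `x⁻¹`). Let `π` be a uniformiser (`valuation_exists_uniformizer`): every `x ≠ 0` is `π^k u`, `ord u = 1`, so `v x = v(π)^k`.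
(b) The inertia group of `w` in `G = Gal(F/k)` is trivial: if `σ s - s ∈ w` for all `s ∈ 𝓞 F` then for `x = s/t`, `v t = 1`: `σ x - x = (σ s * t - s * σ t)/(t * σ t)`, numerator
`(σ s - s) t - s (σ t - t)`, `v(σ t) = 1`, so `v(σ x - x) < 1` for all `x ∈ F ∩ V`, and `σ = 1` by hypothesis. (c) `Ideal.card_inertia_eq_ramificationIdxIn`
(see `Pool/Agent/MU3/K1.lean`, `inertia_top`, for its use; `p := w.under (𝓞 k)`) gives `e(w / p) = 1`. `w ∩ 𝓞 k = (emb p)` (INT, PID: `𝓞 k = emb O`, and `v(emb x) < 1` iff `p ∣ x`). So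
`ord(emb p)` is the value of a uniformiser (`IsDedekindDomain.HeightOneSpectrum.valuation_liesOver` in Mathlib/NumberTheory/RamificationInertia/Valuation.lean, or
`emb p ∉ w²` since `ramificationIdx = 1`), `π = emb p * unit`, `v π = v(emb p)`. -/
def Se_RAM : Prop :=
  ∀ (A B : ℤ), Case A B → ∀ V : ValuationSubring ℂ, emb (ppi A B) ∈ V.nonunits →
    ∀ (F : IntermediateField (kk A B) ℂ) [FiniteDimensional (kk A B) F] [IsGalois (kk A B) F],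
      (∀ σ : F ≃ₐ[kk A B] F, (∀ x : F, V.valuation (x : ℂ) ≤ 1 →
        V.valuation ((σ x : ℂ) - x) < 1) → σ = 1) →
      ∀ y ∈ F, y ≠ 0 → ∃ k : ℤ, V.valuation y = V.valuation (emb (ppi A B)) ^ k

/-- (UNR) `F_(M') / k` is unramified at `ppi` if `ppi ∤ M'`.

Uses Se_RAM, Se_PPI, Se_COP, Sa_GAL, Sa_ACT, Sa_NRM, Sa_EQN. PROOF. By (RAM) and (NRM) let `σ` satisfy `v(σ x - x) < 1` for all `x ∈ F_(M') ∩ V`; `Act (em σ) M' a`
(GAL). Claim: `a z - z ∈ L` for all `z ∈ E[M']`, `z ∉ L`. `z`, `a z` (`∉ L`) and all their integer combinations are in `E[M']`, so they are in `E₁` only if they are in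
`L` (COP). `x z`, `x(a z) ∈ V`, `v(x(az) - x z) < 1`, so by `v_xx_sub` `a z - z` or `a z + z` is in `E₁`, i.e. in `L`. If `a z + z ∈ L` then `y(a z) = -y z`
(EQN), so `v(2 y z) < 1`, `v(y z) < 1`; if `2 z ∉ L` this contradicts `v_y_unit` (`VRed.lean`; `z`, `z + z ∉ E₁`); so `2 z ∈ L` and `a z - z = (a z + z) - 2 z ∈ L`. With
`z = Om/emb M'` (if `M'` is a unit, `F_(M') = k`: `σ = 1` trivially, or (ACT (1),(5)) directly) `M' ∣ a - 1` (`mul_div_mem_iff`), so `Act (em σ) M' 1` (ACT (2)) and `σ = 1` (ACT (5), (7)). -/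
def Se_UNR : Prop :=
  ∀ (A B : ℤ) (L : PeriodPair) (Om : ℂ) (ξ : ℂ →+ (WC A B).Point), Case A B → IsCM A B L Om →
    IsXi A B L ξ → ∀ V : ValuationSubring ℂ, emb (ppi A B) ∈ V.nonunits →
    ∀ M' : OO A B, M' ≠ 0 → ¬ ppi A B ∣ M' →
      ∀ y ∈ TF L M', y ≠ 0 → ∃ k : ℤ, V.valuation y = V.valuation (emb (ppi A B)) ^ k

/-! ## The automorphism `σ` -/

/-- (SIG) an automorphism which is close to the identity.

Uses Se_BAS, Se_DEG, Se_TP, Se_COP, Se_UNR, Se_PPI, Sa_NEG, Sa_ACT, Sa_NRM, Sa_EQN, `near`, `v_y_unit`. PROOF. `M = p^(n+1) M'`, `c = 1 + p^n M'`. `c³ - 1 = 3 p^n M' + 3 (p^n M')² + (p^n M')³` is divisible by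
`M` (`p ∣ 3`, `n ≥ 1`), so `σ` exists by (NEG)(3). Let `P₀ = Om/emb mz` (`mz ∣ M'`), `P₁ = Om/emb(p^(n+1))`, `P = P₀ + P₁ ∈ E[M]`. `2 P₀ ∉ L` (`mz ∤ 2`), `P₀`, `2 P₀ ∉ E₁` (COP), `x P₀ ∈ TF L M'`. `P₁` has
exact order `p^(n+1)`: `v(t P₁)^(2*3^n) = v(emb p)` (TP). `π := x(P) - x(P₀) ∈ TF L M` (`P ∉ E₁`, so `P ∉ L`). By `near` `v(π - 2 y(P₀) t(P₁)) ≤ v(t P₁)²`, and `v(2 y(P₀)) = 1` (`v_y_unit`), so
`v π = v(t P₁)`. `σ` fixes `TF L M'` (`c ≡ 1` modulo `M'`; `σ` and the inclusion agree there, ACT (2),(3),(5),(8)). `σ(x P) = x(c P)`, `c P = P + p^n M' P₀ + p^n M' P₁ ≡ P + M' (Om/emb p)` modulo `L` (`mz ∣ M'`),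
and `M' ≡ ± 1` modulo `p`, so `c P ≡ P ± R`, `R = Om/emb p`, and `v(t(±R)) = v(t R)`. So `v(σ π - π) = v(x(P ± R) - x P) ≤ v(t R)` (`near`; `R ∈ E₁`, `R ∉ L`: TP with `j = 0`), `v(t R) ≤ 1`. Now
(BAS) with `K = kk A B`, `E = ℂ`, `M₀ = TF L M'`, `M = TF L M`, `N = 2 * 3^n` (DEG with `j = n + 1`), `p = emb (ppi A B)`, (UNR). -/
def Se_SIG : Prop :=
  ∀ (A B : ℤ) (L : PeriodPair) (Om : ℂ) (ξ : ℂ →+ (WC A B).Point), Case A B → IsCM A B L Om →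
    IsXi A B L ξ → ∀ V : ValuationSubring ℂ, emb (ppi A B) ∈ V.nonunits →
    ∀ (n : ℕ) (M' : OO A B), 1 ≤ n → M' ≠ 0 → ¬ ppi A B ∣ M' → mz A B ∣ M' →
    ∃ σ : TF L (ppi A B ^ (n + 1) * M') ≃ₐ[kk A B] TF L (ppi A B ^ (n + 1) * M'),
      Act L (em σ) (ppi A B ^ (n + 1) * M') (1 + ppi A B ^ n * M') ∧
      ∀ w : TF L (ppi A B ^ (n + 1) * M'), V.valuation (w : ℂ) ≤ 1 →
        V.valuation ((σ w : ℂ) - w) ≤ V.valuation (tz A B L (Om / emb (ppi A B)))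

/-! ## The functions `Θ_a` -/

/-- (NE1) the points that occur are not in the kernel of reduction.

Uses Se_PPI, `VZ.lean` (`mem_of_nat_mul`, `inE1_nat`). PROOF. `m = f 3^(n+1)`, `a = 1 + 6 f`, `z = x Om/m`, `x` prime to `m`. First, for `q` with `a q ∈ L` suppose
`z + q ∈ E₁`. Then `z' = 3^(n+1) (z + q) ∈ E₁` (`inE1_nat`) and `f a z' ∈ L` (`f 3^(n+1) z = x Om ∈ L`), `v(f a) = 1` (`3 ∤ f a`), so `z' ∈ L` (`mem_of_nat_mul`), so `a 3^(n+1) z ∈ L`, so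
`m ∣ a 3^(n+1) x` (`mul_div_mem_iff`), `f ∣ a x`; `f` is prime to `a` and to `x`, so `f` is a unit of `O`, `f = 1`, but `f ≥ 2`. Apply it to `q`, `-q` and `0` (also `a z ∉ L`, `2 z ∉ L` if `f > 2`: not needed here). If `q ∈ E₁`, `a q ∈ L` then
`q ∈ L` as `v a = 1`. Last claim: `a z ∈ L` would give `m ∣ a x`, `f ∣ a x` again. -/
def Se_NE1 : Prop :=
  ∀ (A B : ℤ) (L : PeriodPair) (Om : ℂ) (ξ : ℂ →+ (WC A B).Point), Case A B → IsCM A B L Om →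
    IsXi A B L ξ → ∀ V : ValuationSubring ℂ, emb (ppi A B) ∈ V.nonunits →
    ∀ (f n : ℕ), 2 ≤ f → ¬ 3 ∣ f → ∀ x : OO A B, IsCoprime x (lev A B f n) →
      ∀ z : ℂ, z = emb x * (Om / emb (lev A B f n)) →
      ¬ InE1 A B V L z ∧ ((1 + 6 * f : ℕ) : ℂ) * z ∉ L.lattice ∧
      ∀ q : ℂ, ((1 + 6 * f : ℕ) : ℂ) * q ∈ L.lattice → q ∉ L.lattice →
        ¬ InE1 A B V L q ∧ ¬ InE1 A B V L (z + q) ∧ ¬ InE1 A B V L (z - q)

/-- (THE) expansion of `Θ_a` near `z`.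

Uses St_TDL, `near`, `v_xx_sub`, Se_PRD. PROOF. `℘ z - ℘ q = x z - x q` has valuation `1` for `q ∈ H` (`v_xx_sub`), so `v(Θ z) = 1`. Let `R ∈ E₁`, `R ∉ L`, `t = t(R)`, `v t < 1`. `near`: `v(x(z + R) - x z - 2 y z t) ≤ v(t)²`, and
`2 y z = ℘' z`, integral (`int_yy`). So with `c_q = x z - x q`, `d_q = x(z + R) - x q`, `l_q = ℘' z/(x z - x q)`: `d_q = c_q (1 + t l_q) + O(t²)`. Product over `q ∈ H` by (PRD) with `g = 1`; `Σ l_q = a e(a z) - |a|² e(z) = dl L a z` by (TDL) (`‖a‖² = a²`, `a z ∉ L`). -/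
def Se_THE : Prop :=
  ∀ (A B : ℤ) (L : PeriodPair) (Om : ℂ) (ξ : ℂ →+ (WC A B).Point), Case A B → IsCM A B L Om →
    IsXi A B L ξ → ∀ V : ValuationSubring ℂ, V.valuation 2 = 1 →
    ∀ (a : ℕ) (H : Finset ℂ), a ≠ 0 → IsHalf L (a : ℂ) H → ∀ z : ℂ, ¬ InE1 A B V L z →
      (a : ℂ) * z ∉ L.lattice →
      (∀ q ∈ H, ¬ InE1 A B V L q ∧ ¬ InE1 A B V L (z + q) ∧ ¬ InE1 A B V L (z - q)) →
      V.valuation (ThetaH L H z) = 1 ∧ V.valuation (dl L a z) ≤ 1 ∧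
      ∀ R, InE1 A B V L R → R ∉ L.lattice →
        V.valuation (ThetaH L H (z + R) - ThetaH L H z * (1 + tz A B L R * dl L a z)) ≤
          V.valuation (tz A B L R) ^ 2

/-- (GTH) the Galois action on `Θ_a(z)`, `z` a torsion point, `a` prime to the order of `z`.

Uses Sa_ACT, Sa_EQN. PROOF. `F = TF L M`, `a ∣ M`, `q ∈ E[a] ⊆ E[M]`. `℘ = x + a₂/3`, `ThetaH L H z = ∏ (x z - x q)`, and `x z, x q ∈ F`
(generators), so it is in `F`; `σ(x q) = x(c q) = x(q)` since `(c - 1) q ∈ L`; `σ(x z) = x(c z)`. -/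
def Se_GTH : Prop :=
  ∀ (A B : ℤ) (L : PeriodPair) (Om : ℂ), Case A B → IsCM A B L Om → ∀ (a : ℕ) (H : Finset ℂ),
    IsHalf L (a : ℂ) H → ∀ M : OO A B, M ≠ 0 → (a : OO A B) ∣ M →
    ∀ (σ : TF L M ≃ₐ[kk A B] TF L M) (c : OO A B), Act L (em σ) M c → (a : OO A B) ∣ c - 1 →
    ∀ z, emb M * z ∈ L.lattice → z ∉ L.lattice →
      ∃ hz : ThetaH L H z ∈ TF L M, (σ ⟨ThetaH L H z, hz⟩ : ℂ) = ThetaH L H (emb c * z)

/-! ## The result -/

/-- (ONE) the case `τ' = 1`, for a product over an arbitrary finite family.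

Uses Se_PPI, Se_SIG, Se_NE1, Se_THE, Se_GTH, Se_PRD, Se_TP, Sa_EQN. PROOF. `m = lev A B f n = f 3^(n+1)`, `a = 1 + 6f`, `u = Om/emb m`, `M = m a = p^(n+1) M'`, `M' = p'^(n+1) f a` (not divisible by `p`; `mz ∣ f ∣ M'`). Let `σ`
be as in (SIG), `c = 1 + p^n M'`, `t = t(R)`, `R = Om/emb p`, `v(t)² = v 3` (TP with `j = 0`, PPI). Let `x` be prime to `m`, `z = x u`. `a ∣ M'`, so (GTH) applies: `σ(Θ z) = Θ(c z)`, `c z = z + p^n M' x Om/m = z + a x (Om/emb p)`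
(`M'/m = a/p^(n+1)`). `a ≡ 1` modulo `3`, so `a x ≡ w` modulo `p`, `w = wpi x = ± 1`, and `c z ≡ z + w R` modulo `L` (`p R ∈ L`); `t(w R) = w t(R)` (`tz` odd, EQN). By (THE) `Θ(c z) = Θ(z) (1 + t w dl(z)) + O(t²)`.
(`Θ` is periodic.) For a finite set `X` of elements prime to `m` (`X i`, `i ∈ ι`): (PRD) with `g = 1` and then with `g`: with `c_i = ∏_(x ∈ X i) Θ(x u)`, `T_i = Σ_(x ∈ X i) wpi(x) dl(x u)`, `C = ∏ c_i^(g i)`, `S = Σ g_i T_i`: `σ C = C (1 + t S) + O(t²)`, `v C = 1`, `v S ≤ 1`. Let `C = w³`, `w ∈ TF L M`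
(by hypothesis `w ∈ TF L m ≤ TF L M`). `v w = 1`, `v(σ w - w) ≤ v t`, `(σ w)³ - w³ = (σ w - w)³ + 3 w (σ w) (σ w - w)`, so `v(σ C - C) ≤ max (v(t)³, v 3) ≤ v(t)²`. So `v(C t S) ≤ v(t)²`, `v S ≤ v t`, `v(S²/3) ≤ 1`. -/
def Se_ONE : Prop :=
  ∀ (A B : ℤ) (L : PeriodPair) (Om : ℂ) (ξ : ℂ →+ (WC A B).Point), Case A B → IsCM A B L Om →
    IsXi A B L ξ → ∀ V : ValuationSubring ℂ, emb (ppi A B) ∈ V.nonunits →
    ∀ (f n : ℕ) (H : Finset ℂ), 1 ≤ n → f ≠ 0 → ¬ 3 ∣ f → mz A B ∣ (f : OO A B) →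
      IsHalf L ((1 + 6 * f : ℕ) : ℂ) H →
    ∀ (ι : Type) [Fintype ι] (X : ι → Finset (OO A B)) (g : ι → ℤ),
      (∀ i, ∀ x ∈ X i, IsCoprime x (lev A B f n)) →
      (∃ w ∈ TF L (lev A B f n), w ^ 3 =
        ∏ i, (∏ x ∈ X i, ThetaH L H (emb x * (Om / emb (lev A B f n)))) ^ g i) →
      V.valuation ((∑ i, (g i : ℂ) * ∑ x ∈ X i, (wpi x : ℂ) *
        dl L (1 + 6 * f) (emb x * (Om / emb (lev A B f n)))) ^ 2 / 3) ≤ 1

/-- (MAIN) Lemma E: if `∏ (c^τ)^(g τ)` is a cube in `D = K_n`, then `(∑ g_τ T(τ' τ))²/3` is in `V`.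
Hypotheses on `cc` (block C, helper59): `c = cc .. 1 ∈ D` and `τ c = cc .. τ`.

Uses Se_ONE, Sa_NRM, Sa_ACT, Sa_XI. PROOF. `G = Gal(D/k)` is finite (`D ≤ TF L m`, finite over `k`), `cc .. τ' = τ' c`. Let `∏_τ (τ c)^(g τ) = w³`, `w ∈ D`. Apply `τ'`: `∏_τ (τ' τ c)^(g τ) = (τ' w)³`, i.e.
`∏_τ cc(τ' τ)^(g τ)` is a cube of an element of `D ≤ TF L m`. Then (ONE) with `ι = G`, `X τ = ` the set of `Quotient.out x`, `x ∈ XX L m h (τ' τ)` (finite: `O/m` is finite; prime to `m` by `Act`), `finprod_mem_eq_finite_toFinset_prod` etc. `ξ` from (XI) (`WC A B` is the base change). -/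
def Se_MAIN : Prop :=
  ∀ (A B : ℤ) (L : PeriodPair) (Om : ℂ), Case A B → IsCM A B L Om →
    ∀ V : ValuationSubring ℂ, emb (ppi A B) ∈ V.nonunits →
    ∀ (f n : ℕ) (H : Finset ℂ), 1 ≤ n → f ≠ 0 → ¬ 3 ∣ f → mz A B ∣ (f : OO A B) →
      IsHalf L ((1 + 6 * f : ℕ) : ℂ) H →
    ∀ (D : IntermediateField ℚ ℂ) (h : kk A B ≤ D), (∀ y ∈ D, y ∈ TF L (lev A B f n)) →
    letI := algC h
    (∀ τ : D ≃ₐ[kk A B] D, ∃ c : D, (c : ℂ) = cc L Om (lev A B f n) H h 1 ∧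
      ((τ c : D) : ℂ) = cc L Om (lev A B f n) H h τ) →
    ∀ g : (D ≃ₐ[kk A B] D) → ℤ,
      (∃ w ∈ D, w ^ 3 = ∏ᶠ τ : D ≃ₐ[kk A B] D, cc L Om (lev A B f n) H h τ ^ g τ) →
      ∀ τ' : D ≃ₐ[kk A B] D,
        (∑ᶠ τ : D ≃ₐ[kk A B] D, (g τ : ℂ) * TT L Om (lev A B f n) (1 + 6 * f) h (τ' * τ)) ^ 2 / 3 ∈ V

end

end Pool.Agent.MU3E
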