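import Pool.Agent.MU3.StA

/-!
# MU3, block A, SCP: homogeneity of `℘`, `℘'`, `g₂`, `g₃`
-/

set_option autoImplicit false

namespace Pool.Agent.MU3A

open MU3 Pool.Agent.MU3B

namespace P_SCP

/-- the bijection `l ↦ a l` of `L` with `L'` -/
noncomputable def eqv (L L' : PeriodPair) (a : ℂ) (ha : a ≠ 0)
    (h : ∀ u : ℂ, u ∈ L.lattice ↔ a * u ∈ L'.lattice) : L.lattice ≃ L'.lattice where
  toFun l := ⟨a * l, (h l).1 l.2⟩
  invFun l := ⟨a⁻¹ * l, (h _).2 (by rw [mul_inv_cancel_left₀ ha]; exact l.2)⟩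
  left_inv l := Subtype.ext (inv_mul_cancel_left₀ ha _)
  right_inv l := Subtype.ext (mul_inv_cancel_left₀ ha _)

theorem eqv_val (L L' : PeriodPair) (a : ℂ) (ha : a ≠ 0)
    (h : ∀ u : ℂ, u ∈ L.lattice ↔ a * u ∈ L'.lattice) (l : L.lattice) :
    ((eqv L L' a ha h l : L'.lattice) : ℂ) = a * l := rfl

theorem G_eq (L L' : PeriodPair) (a : ℂ) (ha : a ≠ 0)
    (h : ∀ u : ℂ, u ∈ L.lattice ↔ a * u ∈ L'.lattice) (n : ℕ) : L'.G n = L.G n / a ^ n := by
  unfold PeriodPair.G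
  rw [← (eqv L L' a ha h).tsum_eq, div_eq_mul_inv, ← tsum_mul_right]
  refine tsum_congr fun l => ?_
  rw [eqv_val, mul_pow, mul_inv, mul_comm]

end P_SCP

/-- homogeneity of `℘`, `℘'`, `g₂`, `g₃` -/
theorem ta_SCP : Sa_SCP := by
  intro L L' a ha h
  refine ⟨fun z => ?_, fun z => ?_, ?_, ?_⟩
  · unfold PeriodPair.weierstrassP
    rw [← (P_SCP.eqv L L' a ha h).tsum_eq, div_eq_mul_inv, ← tsum_mul_right]
    refine tsum_congr fun l => ?_
    rw [P_SCP.eqv_val, ← mul_sub, mul_pow, mul_pow, sub_mul, one_div, one_div, one_div, one_div,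
      mul_inv, mul_inv]
    ring
  · unfold PeriodPair.derivWeierstrassP
    rw [← (P_SCP.eqv L L' a ha h).tsum_eq, neg_div, div_eq_mul_inv, ← tsum_mul_right]
    congr 1
    refine tsum_congr fun l => ?_
    rw [P_SCP.eqv_val, ← mul_sub, mul_pow, div_eq_mul_inv, div_eq_mul_inv, mul_inv]
    ring
  · unfold PeriodPair.g₂
    rw [P_SCP.G_eq L L' a ha h, mul_div_assoc]
  · unfold PeriodPair.g₃
    rw [P_SCP.G_eq L L' a ha h, mul_div_assoc]

end Pool.Agent.MU3A
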