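import Pool.Agent.MU3.StQ

/-!
# MU3, block WQ, E1: the Eisenstein series `Gv` is holomorphic and bounded at `i ∞`
-/

set_option autoImplicit false

namespace Pool.Agent.MU3Q

open UpperHalfPlane ModularForm EisensteinSeries
open scoped MatrixGroups

noncomputable section

namespace E1

open Classical in
/-- the terms of the series -/
def tm (N : ℕ) (v : Fin 2 → ZMod N) (x : Fin 2 → ℤ) (τ : ℍ) : ℂ :=
  if (∀ i, ((x i : ℤ) : ZMod N) = v i) then eisSummand 4 x τ else 0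

theorem Gv_eq (N : ℕ) (v : Fin 2 → ZMod N) (τ : ℍ) : Gv N v τ = ∑' x, tm N v x τ := by
  unfold Gv tm eisSummand
  refine tsum_congr fun x => ?_
  by_cases h : ∀ i, ((x i : ℤ) : ZMod N) = v i
  · rw [if_pos h]
  · rw [if_neg h]

theorem norm_tm_le (N : ℕ) (v : Fin 2 → ZMod N) (x : Fin 2 → ℤ) (τ : ℍ) :
    ‖tm N v x τ‖ ≤ ‖eisSummand 4 x τ‖ := by
  unfold tm
  split_ifs with h
  · exact le_rfl
  · rw [norm_zero]
    exact norm_nonneg _

theorem summable_norm_pow : Summable fun x : Fin 2 → ℤ => ‖x‖ ^ (-(4 : ℝ)) :=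
  summable_one_div_norm_rpow (by norm_num)

theorem bound {A B : ℝ} (hB : 0 < B) (x : Fin 2 → ℤ) {z : ℍ} (hz : z ∈ verticalStrip A B) :
    ‖eisSummand 4 x z‖ ≤ r ⟨⟨A, B⟩, hB⟩ ^ (-(4 : ℝ)) * ‖x‖ ^ (-(4 : ℝ)) := by
  have h := summand_bound_of_mem_verticalStrip (k := 4) (by norm_num) x hB hz
  have h1 : ‖eisSummand 4 x z‖ = ‖(x 0 : ℂ) * (z : ℂ) + x 1‖ ^ (-(4 : ℝ)) := by
    unfold eisSummand
    rw [norm_zpow, ← Real.rpow_intCast]
    norm_num
  rw [h1]
  exact h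

theorem unif (N : ℕ) (v : Fin 2 → ZMod N) :
    TendstoLocallyUniformly (fun (s : Finset (Fin 2 → ℤ)) (τ : ℍ) => ∑ x ∈ s, tm N v x τ)
      (Gv N v) Filter.atTop := by
  rw [tendstoLocallyUniformly_iff_forall_isCompact]
  intro K hK
  obtain ⟨A, B, hB, hABK⟩ := subset_verticalStrip_of_isCompact hK
  have h := tendstoUniformlyOn_tsum (f := tm N v) (s := verticalStrip A B)
    (summable_norm_pow.mul_left (r ⟨⟨A, B⟩, hB⟩ ^ (-(4 : ℝ))))
    (fun p z hz => (norm_tm_le N v p z).trans (bound hB p hz))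
  have h2 : (fun τ => ∑' x, tm N v x τ) = Gv N v := funext fun τ => (Gv_eq N v τ).symm
  rw [h2] at h
  exact h.mono hABK

theorem unif' (N : ℕ) (v : Fin 2 → ZMod N) :
    TendstoLocallyUniformlyOn (fun (s : Finset (Fin 2 → ℤ)) =>
      (fun τ : ℍ => ∑ x ∈ s, tm N v x τ) ∘ ofComplex) (Gv N v ∘ ofComplex)
      Filter.atTop {z : ℂ | 0 < z.im} := by
  rw [← upperHalfPlaneSet, ← range_coe, ← Set.image_univ]
  apply TendstoLocallyUniformlyOn.comp (s := ⊤) _ _ _ (OpenPartialHomeomorph.continuousOn_symm _)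
  · simp only [Set.top_eq_univ, tendstoLocallyUniformlyOn_univ]
    exact unif N v
  · intro z _
    exact Set.mem_univ _

theorem tm_diff (N : ℕ) (v : Fin 2 → ZMod N) (x : Fin 2 → ℤ) :
    DifferentiableOn ℂ (fun z : ℂ => tm N v x (ofComplex z)) {z : ℂ | 0 < z.im} := by
  unfold tm
  split_ifs with h
  · exact eisSummand_extension_differentiableOn 4 x
  · exact differentiableOn_const 0

theorem hol (N : ℕ) (v : Fin 2 → ZMod N) : Hol (Gv N v) :=
  (unif' N v).differentiableOn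
    (Filter.Eventually.of_forall fun _ => DifferentiableOn.fun_sum fun x _ => tm_diff N v x)
    isOpen_upperHalfPlaneSet

/-- the shift of the summation index -/
def sh (n : ℤ) : (Fin 2 → ℤ) ≃ (Fin 2 → ℤ) where
  toFun x := ![x 0, x 1 + n * x 0]
  invFun x := ![x 0, x 1 - n * x 0]
  left_inv x := by
    ext i
    fin_cases i <;> simp
  right_inv x := by
    ext i
    fin_cases i <;> simp

theorem shift (n : ℤ) (z : ℍ) : ∑' x : Fin 2 → ℤ, ‖eisSummand 4 x ((n : ℝ) +ᵥ z)‖ =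
    ∑' x : Fin 2 → ℤ, ‖eisSummand 4 x z‖ := by
  rw [← (sh n).tsum_eq fun x => ‖eisSummand 4 x z‖]
  refine tsum_congr fun x => ?_
  unfold eisSummand
  rw [coe_vadd]
  have h0 : sh n x 0 = x 0 := rfl
  have h1 : sh n x 1 = x 1 + n * x 0 := rfl
  rw [h0, h1]
  congr 2
  push_cast
  ring

theorem summable_norm (z : ℍ) : Summable fun x : Fin 2 → ℤ => ‖eisSummand 4 x z‖ :=
  summable_norm_eisSummand (by norm_num) z

theorem bdd (N : ℕ) (v : Fin 2 → ZMod N) : IsBoundedAtImInfty (Gv N v) := by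
  rw [isBoundedAtImInfty_iff]
  refine ⟨∑' x : Fin 2 → ℤ, r ⟨⟨1, 2⟩, Nat.ofNat_pos⟩ ^ (-(4 : ℝ)) * ‖x‖ ^ (-(4 : ℝ)), 2,
    fun z hz => ?_⟩
  have hs : Summable fun x : Fin 2 → ℤ => ‖tm N v x z‖ :=
    (summable_norm z).of_nonneg_of_le (fun _ => norm_nonneg _) fun x => norm_tm_le N v x z
  rw [Gv_eq]
  refine (norm_tsum_le_tsum_norm hs).trans ((hs.tsum_le_tsum (fun x => norm_tm_le N v x z)
    (summable_norm z)).trans ?_)
  rw [← shift (-⌊z.re⌋) z]
  refine (summable_norm _).tsum_le_tsum (fun x => bound Nat.ofNat_pos x ?_)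
    (summable_norm_pow.mul_left _)
  rw [mem_verticalStrip_iff, vadd_re, vadd_im]
  refine ⟨?_, hz⟩
  push_cast
  rw [neg_add_eq_sub, abs_le]
  have h1 := Int.floor_le z.re
  have h2 := Int.lt_floor_add_one z.re
  constructor <;> linarith

end E1

/-- `Gv` is holomorphic and bounded at `i ∞` -/
theorem t_E1 : St_E1 := fun N v _ => ⟨E1.hol N v, E1.bdd N v⟩

end

end Pool.Agent.MU3Q
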