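import Pool.Agent.MU3.StQ

/-!
# MU3, block WQ, module E2: transformation of `Gv`
-/

set_option autoImplicit false

namespace Pool.Agent.MU3Q

open UpperHalfPlane ModularForm EisensteinSeries Matrix
open scoped MatrixGroups

noncomputable section

/-- right multiplication by `γ` on row vectors -/
def e2Equiv (γ : SL(2, ℤ)) : (Fin 2 → ℤ) ≃ (Fin 2 → ℤ) where
  toFun x := x ᵥ* (γ : Matrix (Fin 2) (Fin 2) ℤ)
  invFun x := x ᵥ* ((γ⁻¹ : SL(2, ℤ)) : Matrix (Fin 2) (Fin 2) ℤ)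
  left_inv x := by
    show (x ᵥ* (γ : Matrix (Fin 2) (Fin 2) ℤ)) ᵥ*
      ((γ⁻¹ : SL(2, ℤ)) : Matrix (Fin 2) (Fin 2) ℤ) = x
    rw [Matrix.vecMul_vecMul, ← Matrix.SpecialLinearGroup.coe_mul, mul_inv_cancel]; simp
  right_inv x := by
    show (x ᵥ* ((γ⁻¹ : SL(2, ℤ)) : Matrix (Fin 2) (Fin 2) ℤ)) ᵥ*
      (γ : Matrix (Fin 2) (Fin 2) ℤ) = x
    rw [Matrix.vecMul_vecMul, ← Matrix.SpecialLinearGroup.coe_mul, inv_mul_cancel]; simp

theorem e2_cond (N : ℕ) (v : Fin 2 → ZMod N) (γ : SL(2, ℤ)) (x : Fin 2 → ℤ) :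
    (∀ i, ((x i : ℤ) : ZMod N) = v i) ↔
      ∀ i, (((e2Equiv γ x) i : ℤ) : ZMod N) = vm v γ i := by
  have key : ∀ j, (((e2Equiv γ x) j : ℤ) : ZMod N) =
      (x 0 : ZMod N) * ((γ 0 j : ℤ) : ZMod N) + (x 1 : ZMod N) * ((γ 1 j : ℤ) : ZMod N) := by
    intro j
    simp only [e2Equiv, Equiv.coe_fn_mk, Matrix.vecMul, Matrix.vec2_dotProduct]
    push_cast
    rfl
  constructor
  · intro h j
    rw [key, h 0, h 1]; rfl
  · intro h
    have h0 := h 0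
    have h1 := h 1
    rw [key] at h0 h1
    simp only [vm] at h0 h1
    have hd : (γ 0 0 : ℤ) * γ 1 1 - γ 0 1 * γ 1 0 = 1 := by
      have := γ.det_coe
      rwa [Matrix.det_fin_two] at this
    have hd' : ((γ 0 0 : ℤ) : ZMod N) * ((γ 1 1 : ℤ) : ZMod N) -
        ((γ 0 1 : ℤ) : ZMod N) * ((γ 1 0 : ℤ) : ZMod N) = 1 := by
      exact_mod_cast congrArg (fun t : ℤ => (t : ZMod N)) hd
    generalize ((γ 0 0 : ℤ) : ZMod N) = a at *
    generalize ((γ 0 1 : ℤ) : ZMod N) = b at *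
    generalize ((γ 1 0 : ℤ) : ZMod N) = c at *
    generalize ((γ 1 1 : ℤ) : ZMod N) = d at *
    intro i
    fin_cases i
    · show ((x 0 : ℤ) : ZMod N) = v 0
      linear_combination d * h0 - c * h1 - ((x 0 : ZMod N) - v 0) * hd'
    · show ((x 1 : ℤ) : ZMod N) = v 1
      linear_combination a * h1 - b * h0 - ((x 1 : ZMod N) - v 1) * hd'

theorem t_E2 : St_E2 := by
  classical
  intro N v γ τ
  unfold Gv
  rw [← tsum_mul_left]
  refine Eq.trans ?_ ((e2Equiv γ).tsum_eq _)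
  apply tsum_congr
  intro x
  have hc := e2_cond N v γ x
  have hs := eisSummand_SL2_apply 4 x γ τ
  simp only [eisSummand] at hs
  have hden : denom γ τ = ((γ 1 0 : ℤ) : ℂ) * (τ : ℂ) + ((γ 1 1 : ℤ) : ℂ) := by
    simp [denom]
  by_cases h : ∀ i, ((x i : ℤ) : ZMod N) = v i
  · have h' := hc.mp h
    rw [if_pos h, if_pos h']
    rw [hden] at hs
    exact hs
  · have h' : ¬ ∀ i, (((e2Equiv γ x) i : ℤ) : ZMod N) = vm v γ i := fun hh => h (hc.mpr hh)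
    rw [if_neg h, if_neg h', mul_zero]

end

end Pool.Agent.MU3Q
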