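import Pool.Agent.MU3.StQ

/-!
# MU3, block WQ, module E3: the stabiliser of `Gv N (0, 1)`
-/

set_option autoImplicit false

namespace Pool.Agent.MU3Q

open UpperHalfPlane ModularForm EisensteinSeries Filter Topology
open scoped MatrixGroups

noncomputable section

namespace E3

open Classical in
/-- the terms of `Gv` on the imaginary axis -/
def tm (N : ℕ) (v : Fin 2 → ZMod N) (t : ℝ) (x : Fin 2 → ℤ) : ℂ :=
  if (∀ i, ((x i : ℤ) : ZMod N) = v i) then
    ((x 0 : ℂ) * (Complex.I * (t : ℂ)) + (x 1 : ℂ)) ^ (-4 : ℤ) else 0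

open Classical in
/-- the limits of the terms -/
def lm (N : ℕ) (v : Fin 2 → ZMod N) (x : Fin 2 → ℤ) : ℂ :=
  if (∀ i, ((x i : ℤ) : ZMod N) = v i) ∧ x 0 = 0 then (x 1 : ℂ) ^ (-4 : ℤ) else 0

open Classical in
/-- the real terms over the integers -/
def rt (N : ℕ) (d : ZMod N) (n : ℤ) : ℝ :=
  if ((n : ℤ) : ZMod N) = d then ((n : ℝ) ^ 4)⁻¹ else 0

lemma re_im (x : Fin 2 → ℤ) (t : ℝ) :
    ((x 0 : ℂ) * (Complex.I * (t : ℂ)) + (x 1 : ℂ)).re = (x 1 : ℝ) ∧
    ((x 0 : ℂ) * (Complex.I * (t : ℂ)) + (x 1 : ℂ)).im = (x 0 : ℝ) * t := by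
  constructor <;> simp

lemma norm_le (x : Fin 2 → ℤ) (t : ℝ) (ht : 1 ≤ t) :
    ‖x‖ ≤ ‖((x 0 : ℂ) * (Complex.I * (t : ℂ)) + (x 1 : ℂ))‖ := by
  rw [pi_norm_le_iff_of_nonneg (norm_nonneg _)]
  intro i
  fin_cases i
  · refine le_trans ?_ (Complex.abs_im_le_norm _)
    rw [(re_im x t).2, abs_mul, abs_of_nonneg (by linarith : (0 : ℝ) ≤ t)]
    show ‖x 0‖ ≤ _
    rw [Int.norm_eq_abs]
    exact le_mul_of_one_le_right (abs_nonneg _) ht
  · refine le_trans ?_ (Complex.abs_re_le_norm _)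
    rw [(re_im x t).1]
    show ‖x 1‖ ≤ _
    rw [Int.norm_eq_abs]

lemma bnd (N : ℕ) (v : Fin 2 → ZMod N) (t : ℝ) (ht : 1 ≤ t) (x : Fin 2 → ℤ) :
    ‖tm N v t x‖ ≤ ‖x‖ ^ (-(4 : ℝ)) := by
  unfold tm
  split_ifs with h
  · rcases eq_or_ne x 0 with rfl | hx
    · simp
    · have hx0 : 0 < ‖x‖ := norm_pos_iff.2 hx
      have h1 := norm_le x t ht
      rw [norm_zpow, Real.rpow_neg hx0.le, zpow_neg]
      have h2 : ‖x‖ ^ (4 : ℝ) = ‖x‖ ^ (4 : ℕ) := by exact_mod_cast Real.rpow_natCast ‖x‖ 4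
      have h3 : ‖((x 0 : ℂ) * (Complex.I * (t : ℂ)) + (x 1 : ℂ))‖ ^ (4 : ℤ) =
          ‖((x 0 : ℂ) * (Complex.I * (t : ℂ)) + (x 1 : ℂ))‖ ^ (4 : ℕ) := zpow_natCast _ 4
      rw [h2, h3]
      apply inv_anti₀ (by positivity)
      exact pow_le_pow_left₀ hx0.le h1 4
  · rw [norm_zero]
    positivity

lemma lim (N : ℕ) (v : Fin 2 → ZMod N) (x : Fin 2 → ℤ) :
    Tendsto (fun t : ℝ => tm N v t x) atTop (𝓝 (lm N v x)) := by
  unfold tm lm
  by_cases h : ∀ i, ((x i : ℤ) : ZMod N) = v i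
  · by_cases h0 : x 0 = 0
    · rw [if_pos ⟨h, h0⟩]
      refine tendsto_const_nhds.congr fun t => ?_
      rw [if_pos h, h0]
      simp
    · rw [if_neg (fun hh => h0 hh.2)]
      have h1 : ∀ t : ℝ, 1 ≤ t → ‖(if (∀ i, ((x i : ℤ) : ZMod N) = v i) then
          ((x 0 : ℂ) * (Complex.I * (t : ℂ)) + (x 1 : ℂ)) ^ (-4 : ℤ) else 0)‖ ≤ t⁻¹ := by
        intro t ht
        rw [if_pos h, norm_zpow, zpow_neg]
        have h3 : ‖((x 0 : ℂ) * (Complex.I * (t : ℂ)) + (x 1 : ℂ))‖ ^ (4 : ℤ) =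
          ‖((x 0 : ℂ) * (Complex.I * (t : ℂ)) + (x 1 : ℂ))‖ ^ (4 : ℕ) := zpow_natCast _ 4
        rw [h3]
        have h4 : t ≤ ‖((x 0 : ℂ) * (Complex.I * (t : ℂ)) + (x 1 : ℂ))‖ := by
          refine le_trans ?_ (Complex.abs_im_le_norm _)
          rw [(re_im x t).2, abs_mul, abs_of_nonneg (by linarith : (0 : ℝ) ≤ t)]
          have h5 : (1 : ℝ) ≤ |(x 0 : ℝ)| := by
            have := Int.one_le_abs h0
            exact_mod_cast this
          exact le_mul_of_one_le_left (by linarith) h5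
        apply inv_anti₀ (by linarith)
        calc t ≤ t ^ 4 := le_self_pow₀ ht (by norm_num)
          _ ≤ _ := pow_le_pow_left₀ (by linarith) h4 4
      refine squeeze_zero_norm' ?_ tendsto_inv_atTop_zero
      filter_upwards [eventually_ge_atTop 1] with t ht
      exact h1 t ht
  · rw [if_neg (fun hh => h hh.1)]
    refine tendsto_const_nhds.congr fun t => ?_
    rw [if_neg h]

/-- the limit of `Gv` along the imaginary axis -/
lemma lim_sum (N : ℕ) (v : Fin 2 → ZMod N) :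
    Tendsto (fun t : ℝ => ∑' x, tm N v t x) atTop (𝓝 (∑' x, lm N v x)) := by
  refine tendsto_tsum_of_dominated_convergence
    (summable_one_div_norm_rpow (k := 4) (by norm_num)) (lim N v) ?_
  filter_upwards [eventually_ge_atTop 1] with t ht x
  exact bnd N v t ht x

lemma gv_eq (N : ℕ) (v : Fin 2 → ZMod N) (t : ℝ) (ht : 0 < t) :
    Gv N v ⟨Complex.I * (t : ℂ), by simpa using ht⟩ = ∑' x, tm N v t x := rfl

lemma lm_eq (N : ℕ) (v w : Fin 2 → ZMod N) (h : Gv N v = Gv N w) :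
    ∑' x, lm N v x = ∑' x, lm N w x := by
  refine tendsto_nhds_unique ((lim_sum N v).congr' ?_) (lim_sum N w)
  filter_upwards [eventually_gt_atTop 0] with t ht
  rw [← gv_eq N v t ht, ← gv_eq N w t ht, h]

lemma lm_zero (N : ℕ) (v : Fin 2 → ZMod N) (h : v 0 ≠ 0) : ∑' x, lm N v x = 0 := by
  have h1 : ∀ x, lm N v x = 0 := by
    intro x
    unfold lm
    rw [if_neg]
    rintro ⟨h2, h3⟩
    apply h
    rw [← h2 0, h3, Int.cast_zero]
  simp [h1]

lemma lm_real (N : ℕ) (v : Fin 2 → ZMod N) (h : v 0 = 0) :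
    ∑' x, lm N v x = ((∑' n : ℤ, rt N (v 1) n : ℝ) : ℂ) := by
  have hinj : Function.Injective (fun n : ℤ => (![0, n] : Fin 2 → ℤ)) := by
    intro a b hab
    have := congrFun hab 1
    simpa using this
  have hsup : Function.support (lm N v) ⊆ Set.range (fun n : ℤ => (![0, n] : Fin 2 → ℤ)) := by
    intro x hx
    refine ⟨x 1, ?_⟩
    have h0 : x 0 = 0 := by
      by_contra h0
      apply hx
      unfold lm
      rw [if_neg (fun hh => h0 hh.2)]
    funext i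
    fin_cases i
    · exact h0.symm
    · rfl
  rw [← hinj.tsum_eq hsup, Complex.ofReal_tsum]
  apply tsum_congr
  intro n
  unfold lm rt
  by_cases hn : ((n : ℤ) : ZMod N) = v 1
  · rw [if_pos hn, if_pos]
    · push_cast
      rw [zpow_neg]
      congr 1
    · refine ⟨fun i => ?_, rfl⟩
      fin_cases i
      · simpa using h.symm
      · exact hn
  · rw [if_neg hn, if_neg]
    · simp
    · rintro ⟨h1, -⟩
      exact hn (h1 1)

lemma all_sum : HasSum (fun n : ℤ => (((n : ℝ) ^ 4)⁻¹)) (Real.pi ^ 4 / 90 + Real.pi ^ 4 / 90) := by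
  have h1 : HasSum (fun n : ℕ => ((((n : ℤ) : ℝ) ^ 4)⁻¹)) (Real.pi ^ 4 / 90) := by
    have := hasSum_zeta_four
    simpa using this
  have h2 : HasSum (fun n : ℕ => ((((-(n : ℤ) : ℤ) : ℝ) ^ 4)⁻¹)) (Real.pi ^ 4 / 90) := by
    refine h1.congr_fun ?_
    intro n
    push_cast
    ring_nf
  have h3 := HasSum.of_nat_of_neg (f := fun n : ℤ => (((n : ℝ) ^ 4)⁻¹)) h1 h2
  simpa using h3

lemma rt_nonneg (N : ℕ) (d : ZMod N) (n : ℤ) : 0 ≤ rt N d n := by
  unfold rt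
  split_ifs
  · positivity
  · exact le_rfl

lemma rt_le (N : ℕ) (d : ZMod N) (n : ℤ) : rt N d n ≤ (((n : ℝ) ^ 4)⁻¹) := by
  unfold rt
  split_ifs
  · exact le_rfl
  · positivity

lemma rt_summable (N : ℕ) (d : ZMod N) : Summable (rt N d) :=
  Summable.of_nonneg_of_le (rt_nonneg N d) (rt_le N d) all_sum.summable

lemma one_le (N : ℕ) : 1 ≤ ∑' n : ℤ, rt N 1 n := by
  have h1 : rt N 1 1 = 1 := by
    unfold rt
    rw [if_pos (by norm_num)]
    norm_num
  rw [← h1]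
  exact (rt_summable N 1).le_tsum 1 (fun j _ => rt_nonneg N 1 j)

lemma lt_one (N : ℕ) (d : ZMod N) (h1 : d ≠ 1) (h2 : d ≠ -1) : ∑' n : ℤ, rt N d n < 1 := by
  have k1 : rt N d 1 = 0 := by
    unfold rt
    rw [if_neg]
    intro h
    exact h1 (by rw [← h]; norm_num)
  have k2 : rt N d (-1) = 0 := by
    unfold rt
    rw [if_neg]
    intro h
    exact h2 (by rw [← h]; norm_num)
  have hs := all_sum.summable.sub (rt_summable N d)
  have h3 : ∑ n ∈ ({1, -1} : Finset ℤ), ((((n : ℝ) ^ 4)⁻¹) - rt N d n) ≤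
      ∑' n : ℤ, ((((n : ℝ) ^ 4)⁻¹) - rt N d n) :=
    hs.sum_le_tsum _ (fun n _ => sub_nonneg.2 (rt_le N d n))
  rw [all_sum.summable.tsum_sub (rt_summable N d), all_sum.tsum_eq,
    Finset.sum_pair (by norm_num), k1, k2] at h3
  have h4 : Real.pi ^ 4 < 100 := by
    have h5 : Real.pi < 3.15 := Real.pi_lt_d2
    have h6 : Real.pi ^ 4 < 3.15 ^ 4 := pow_lt_pow_left₀ h5 Real.pi_pos.le (by norm_num)
    refine h6.trans ?_
    norm_num
  push_cast at h3
  linarith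

end E3

open E3 in
theorem t_E3 : St_E3 := by
  intro N γ hN h
  have h1 := lm_eq N _ _ h
  have h01 : (v01 N) 0 = 0 := rfl
  have h11 : (v01 N) 1 = 1 := rfl
  rw [lm_real N (v01 N) h01, h11] at h1
  have hone := one_le N
  by_cases h0 : vm (v01 N) γ 0 = 0
  · rw [lm_real N _ h0] at h1
    have h2 : ∑' n : ℤ, rt N (vm (v01 N) γ 1) n = ∑' n : ℤ, rt N 1 n := by exact_mod_cast h1
    by_contra hcon
    rw [not_or] at hcon
    have hne1 : vm (v01 N) γ 1 ≠ 1 := by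
      intro h3
      apply hcon.1
      funext i
      fin_cases i
      · exact h0
      · exact h3
    have hne2 : vm (v01 N) γ 1 ≠ -1 := by
      intro h3
      apply hcon.2
      funext i
      fin_cases i
      · show vm (v01 N) γ 0 = -(v01 N 0)
        rw [h0, h01, neg_zero]
      · exact h3
    have h4 := lt_one N _ hne1 hne2
    linarith
  · exfalso
    rw [lm_zero N _ h0] at h1
    have h2 : (0 : ℝ) = ∑' n : ℤ, rt N 1 n := by exact_mod_cast h1
    linarith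

end

end Pool.Agent.MU3Q
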