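import Pool.Agent.MU3.StQ

/-!
# MU3, E4 (helper69): the `q`-expansion of `Gv N (0, 1)`
-/

set_option autoImplicit false

namespace Pool.Agent.MU3Q

open UpperHalfPlane ModularForm EisensteinSeries
open scoped MatrixGroups Real

namespace E4

/-- Lambert series -/
theorem lam (ξ q : ℂ) (hξ : ‖ξ‖ = 1) (hq : ‖q‖ < 1) :
    HasSum (fun n : ℕ => (∑ r ∈ n.divisors, (r : ℂ) ^ 3 * ξ ^ r) * q ^ n)
      (∑' m : ℕ+, ∑' r : ℕ+, ((r : ℕ) : ℂ) ^ 3 * (ξ ^ (r : ℕ) * q ^ ((m : ℕ) * (r : ℕ)))) := by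
  set F : ℕ+ × ℕ+ → ℂ := fun p =>
    ((p.2 : ℕ) : ℂ) ^ 3 * (ξ ^ (p.2 : ℕ) * q ^ ((p.1 : ℕ) * (p.2 : ℕ))) with hFd
  have hF : Summable F := by
    refine Summable.of_norm_bounded (summable_prod_mul_pow 3 hq).norm ?_
    intro p
    rw [hFd]
    simp only [norm_mul, norm_pow, hξ, one_pow, one_mul]
    exact le_rfl
  have h1 : HasSum F (∑' m : ℕ+, ∑' r : ℕ+,
      ((r : ℕ) : ℂ) ^ 3 * (ξ ^ (r : ℕ) * q ^ ((m : ℕ) * (r : ℕ)))) := by
    have h2 := hF.hasSum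
    rw [hF.tsum_prod] at h2
    exact h2
  have h3 := (sigmaAntidiagonalEquivProd.hasSum_iff.2 h1).sigma
    (g := fun n : ℕ+ => (∑ r ∈ (n : ℕ).divisors, (r : ℂ) ^ 3 * ξ ^ r) * q ^ (n : ℕ)) (by
      intro n
      have h4 : (∑ r ∈ (n : ℕ).divisors, (r : ℂ) ^ 3 * ξ ^ r) * q ^ (n : ℕ) =
          ∑ c : Nat.divisorsAntidiagonal (n : ℕ), (F ∘ sigmaAntidiagonalEquivProd) ⟨n, c⟩ := by
        have h5 : ∀ c : Nat.divisorsAntidiagonal (n : ℕ),
            (F ∘ sigmaAntidiagonalEquivProd) ⟨n, c⟩ =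
              (fun x : ℕ × ℕ => (x.2 : ℂ) ^ 3 * ξ ^ x.2 * q ^ (n : ℕ)) c.1 := by
          intro c
          have h6 := (Nat.mem_divisorsAntidiagonal.1 c.2).1
          simp only [Function.comp_apply, hFd, sigmaAntidiagonalEquivProd,
            divisorsAntidiagonalFactors, Equiv.coe_fn_mk, PNat.mk_coe]
          rw [h6]
          ring
        rw [Finset.sum_congr rfl (fun c _ => h5 c), Finset.univ_eq_attach,
          Finset.sum_attach (n : ℕ).divisorsAntidiagonal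
            (fun x : ℕ × ℕ => (x.2 : ℂ) ^ 3 * ξ ^ x.2 * q ^ (n : ℕ)),
          Nat.sum_divisorsAntidiagonal' (fun _ j => (j : ℂ) ^ 3 * ξ ^ j * q ^ (n : ℕ)),
          Finset.sum_mul]
      rw [h4]
      exact hasSum_fintype _)
  have h7 := (hasSum_pnat_iff
    (f := fun n : ℕ => (∑ r ∈ n.divisors, (r : ℂ) ^ 3 * ξ ^ r) * q ^ n)).1 h3
  simpa using h7

/-- the summand -/
noncomputable def g (N : ℕ) (τ : ℍ) (p : ℤ × ℤ) : ℂ :=
  (((p.1 : ℂ) * N) * (τ : ℂ) + (1 + (p.2 : ℂ) * N)) ^ (-4 : ℤ)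

/-- the parametrisation -/
def e (N : ℕ) (p : ℤ × ℤ) : Fin 2 → ℤ := ![p.1 * N, 1 + p.2 * N]

theorem e_inj (N : ℕ) (hN : 0 < N) : Function.Injective (e N) := by
  intro p p' h
  have h0 := congrFun h 0
  have h1 := congrFun h 1
  have hN' : (N : ℤ) ≠ 0 := by exact_mod_cast hN.ne'
  simp only [e, Matrix.cons_val_zero, Matrix.cons_val_one] at h0 h1
  refine Prod.ext ?_ ?_
  · exact mul_right_cancel₀ hN' h0
  · exact mul_right_cancel₀ hN' (add_left_cancel h1)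

theorem summ (N : ℕ) (hN : 0 < N) (τ : ℍ) : Summable (g N τ) := by
  have h1 := (summable_eisSummand (k := 4) (by norm_num) τ).comp_injective (e_inj N hN)
  refine h1.congr ?_
  intro p
  simp only [Function.comp_apply, eisSummand, e, g, Matrix.cons_val_zero, Matrix.cons_val_one]
  push_cast
  rfl

theorem Gv_eq (N : ℕ) (hN : 0 < N) (τ : ℍ) : Gv N (v01 N) τ = ∑' p : ℤ × ℤ, g N τ p := by
  classical
  have h0 : Gv N (v01 N) τ = ∑' x : Fin 2 → ℤ,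
    if (∀ i, ((x i : ℤ) : ZMod N) = v01 N i) then
      ((x 0 : ℂ) * (τ : ℂ) + (x 1 : ℂ)) ^ (-4 : ℤ) else 0 := by
    unfold Gv
    refine tsum_congr ?_
    intro x
    congr
  rw [h0, ← (e_inj N hN).tsum_eq]
  · refine tsum_congr ?_
    intro p
    have h1 : ∀ i, ((e N p i : ℤ) : ZMod N) = v01 N i := by
      intro i
      fin_cases i <;> simp [e, v01]
    rw [if_pos h1]
    simp only [e, g, Matrix.cons_val_zero, Matrix.cons_val_one]
    push_cast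
    rfl
  · intro x hx
    have h1 : ∀ i, ((x i : ℤ) : ZMod N) = v01 N i := by
      by_contra h2
      exact hx (if_neg h2)
    have h3 := h1 0
    have h4 := h1 1
    simp only [v01, Matrix.cons_val_zero, Matrix.cons_val_one] at h3 h4
    rw [ZMod.intCast_zmod_eq_zero_iff_dvd] at h3
    have h5 : ((x 1 - 1 : ℤ) : ZMod N) = 0 := by
      push_cast
      rw [h4, sub_self]
    rw [ZMod.intCast_zmod_eq_zero_iff_dvd] at h5
    obtain ⟨a, ha⟩ := h3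
    obtain ⟨b, hb⟩ := h5
    refine ⟨(a, b), ?_⟩
    ext i
    fin_cases i
    · simp only [e, Fin.zero_eta, Matrix.cons_val_zero]
      rw [ha, mul_comm]
    · change 1 + b * (N : ℤ) = x 1
      linarith

/-- the Lipschitz formula with a real shift -/
theorem lip (τ : ℍ) (m : ℕ+) (s : ℝ) :
    ∑' l : ℤ, 1 / (((m : ℕ) : ℂ) * (τ : ℂ) + s + l) ^ 4 =
      ((-2 * π * Complex.I) ^ 4 / (Nat.factorial 3 : ℂ)) *
        ∑' r : ℕ+, ((r : ℕ) : ℂ) ^ 3 * (Complex.exp (2 * π * Complex.I * s) ^ (r : ℕ) *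
          qq τ ^ ((m : ℕ) * (r : ℕ))) := by
  have him : 0 < (((m : ℕ) : ℂ) * (τ : ℂ) + s).im := by
    have h1 : (((m : ℕ) : ℂ) * (τ : ℂ) + s).im = ((m : ℕ) : ℝ) * τ.im := by
      simp
    rw [h1]
    have h2 : (0 : ℝ) < ((m : ℕ) : ℝ) := by exact_mod_cast m.pos
    exact mul_pos h2 τ.im_pos
  have h3 := EisensteinSeries.qExpansion_identity_pnat (k := 3) (by norm_num)
    ⟨((m : ℕ) : ℂ) * (τ : ℂ) + s, him⟩
  have h4 : (((⟨((m : ℕ) : ℂ) * (τ : ℂ) + s, him⟩ : ℍ) : ℂ)) = ((m : ℕ) : ℂ) * (τ : ℂ) + s := rfl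
  rw [h4] at h3
  refine h3.trans ?_
  congr 1
  refine tsum_congr ?_
  intro r
  congr 1
  have h5 : Complex.exp (2 * π * Complex.I * (((m : ℕ) : ℂ) * (τ : ℂ) + s)) =
      Complex.exp (2 * π * Complex.I * s) * qq τ ^ (m : ℕ) := by
    rw [qq, ← Complex.exp_nat_mul, ← Complex.exp_add]
    congr 1
    ring
  rw [h5, mul_pow, ← pow_mul]

/-- the constant -/
noncomputable def c0 (N : ℕ) : ℂ :=
  (N : ℂ) ^ (-4 : ℤ) * ((-2 * π * Complex.I) ^ 4 / (Nat.factorial 3 : ℂ))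

theorem inv4 (X : ℂ) : X ^ (-4 : ℤ) = 1 / X ^ 4 := by
  rw [zpow_neg, one_div]
  norm_cast

theorem pos (N : ℕ) (hN : 0 < N) (τ : ℍ) (m : ℕ+) :
    ∑' l : ℤ, g N τ (((m : ℕ) : ℤ), l) = c0 N *
        ∑' r : ℕ+, ((r : ℕ) : ℂ) ^ 3 * (Complex.exp (2 * π * Complex.I / N) ^ (r : ℕ) *
          qq τ ^ ((m : ℕ) * (r : ℕ))) := by
  have hN' : (N : ℂ) ≠ 0 := by exact_mod_cast hN.ne'
  have h1 := lip τ m (1 / N)
  have h2 : 2 * π * Complex.I * (((1 / N : ℝ)) : ℂ) = 2 * π * Complex.I / N := by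
    push_cast
    ring
  rw [h2] at h1
  rw [c0, mul_assoc, ← h1, ← tsum_mul_left]
  refine tsum_congr ?_
  intro l
  have h3 : (((m : ℕ) : ℤ) : ℂ) * N * (τ : ℂ) + (1 + (l : ℂ) * N) =
      (N : ℂ) * (((m : ℕ) : ℂ) * (τ : ℂ) + ((1 / N : ℝ) : ℂ) + l) := by
    push_cast
    field_simp
    ring
  rw [g, h3, mul_zpow, inv4 (((m : ℕ) : ℂ) * (τ : ℂ) + ((1 / N : ℝ) : ℂ) + l)]

theorem neg (N : ℕ) (hN : 0 < N) (τ : ℍ) (m : ℕ+) :
    ∑' l : ℤ, g N τ (-((m : ℕ) : ℤ), l) = c0 N *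
        ∑' r : ℕ+, ((r : ℕ) : ℂ) ^ 3 * ((Complex.exp (2 * π * Complex.I / N))⁻¹ ^ (r : ℕ) *
          qq τ ^ ((m : ℕ) * (r : ℕ))) := by
  have hN' : (N : ℂ) ≠ 0 := by exact_mod_cast hN.ne'
  have h1 := lip τ m (-(1 / N))
  have h2 : 2 * π * Complex.I * (((-(1 / N) : ℝ)) : ℂ) = -(2 * π * Complex.I / N) := by
    push_cast
    ring
  rw [h2, Complex.exp_neg] at h1
  rw [c0, mul_assoc, ← h1, ← tsum_mul_left, ← tsum_comp_neg]
  refine tsum_congr ?_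
  intro l
  have h3 : ((-((m : ℕ) : ℤ) : ℤ) : ℂ) * N * (τ : ℂ) + (1 + (((-l) : ℤ) : ℂ) * N) =
      (-(N : ℂ)) * (((m : ℕ) : ℂ) * (τ : ℂ) + ((-(1 / N) : ℝ) : ℂ) + l) := by
    push_cast
    field_simp
    ring
  rw [g, h3, mul_zpow, inv4 (((m : ℕ) : ℂ) * (τ : ℂ) + ((-(1 / N) : ℝ) : ℂ) + l)]
  have h4 : (-(N : ℂ)) ^ (-4 : ℤ) = (N : ℂ) ^ (-4 : ℤ) := by
    rw [Even.neg_zpow (by decide)]
  rw [h4]

/-- the coefficients -/
noncomputable def bb (N : ℕ) (n : ℕ) : ℂ :=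
  ∑ r ∈ n.divisors, (r : ℂ) ^ 3 * Complex.exp (2 * π * Complex.I / N) ^ r +
    ∑ r ∈ n.divisors, (r : ℂ) ^ 3 * (Complex.exp (2 * π * Complex.I / N))⁻¹ ^ r

theorem mem (N : ℕ) (hN : 0 < N) (K : Subfield ℂ) (V : ValuationSubring ℂ)
    (hK : Complex.exp (2 * Real.pi * Complex.I / N) ∈ K) (n : ℕ) : bb N n ∈ K ∧ bb N n ∈ V := by
  set ζ := Complex.exp (2 * Real.pi * Complex.I / N) with hζ
  have hN' : (N : ℂ) ≠ 0 := by exact_mod_cast hN.ne'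
  have h1 : ζ ^ N = 1 := by
    rw [hζ, ← Complex.exp_nat_mul, mul_div_cancel₀ _ hN', Complex.exp_two_pi_mul_I]
  have h2 : ζ * ζ ^ (N - 1) = 1 := by
    rw [← pow_succ', Nat.sub_add_cancel hN, h1]
  have h3 : ζ⁻¹ = ζ ^ (N - 1) := inv_eq_of_mul_eq_one_right h2
  have h4 : ζ ∈ V ∧ ζ⁻¹ ∈ V := by
    rcases V.mem_or_inv_mem ζ with h | h
    · exact ⟨h, by rw [h3]; exact pow_mem h _⟩
    · refine ⟨?_, h⟩
      have h5 : ζ = ζ⁻¹ ^ (N - 1) := by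
        rw [inv_pow, ← h3, inv_inv]
      rw [h5]
      exact pow_mem h _
  constructor
  · refine add_mem (sum_mem ?_) (sum_mem ?_)
    · intro r _
      exact mul_mem (pow_mem (natCast_mem K r) 3) (pow_mem hK r)
    · intro r _
      exact mul_mem (pow_mem (natCast_mem K r) 3) (pow_mem (inv_mem hK) r)
  · refine add_mem (sum_mem ?_) (sum_mem ?_)
    · intro r _
      exact mul_mem (pow_mem (natCast_mem V r) 3) (pow_mem h4.1 r)
    · intro r _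
      exact mul_mem (pow_mem (natCast_mem V r) 3) (pow_mem h4.2 r)

end E4

theorem t_E4 : St_E4 := by
  intro N hN
  refine ⟨∑' l : ℤ, (1 + (l : ℂ) * N) ^ (-4 : ℤ), E4.c0 N, PowerSeries.mk (E4.bb N), ?_, ?_⟩
  · intro K V hK n
    rw [PowerSeries.coeff_mk]
    exact E4.mem N hN K V hK n
  · intro τ
    have hq : ‖qq τ‖ < 1 := norm_exp_two_pi_I_lt_one τ
    have hN' : (N : ℂ) ≠ 0 := by exact_mod_cast hN.ne'
    have hζ : ‖Complex.exp (2 * π * Complex.I / N)‖ = 1 := by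
      have h1 : (2 * π * Complex.I / N : ℂ) = ((2 * π / N : ℝ) : ℂ) * Complex.I := by
        push_cast
        ring
      rw [h1, Complex.norm_exp_ofReal_mul_I]
    have h1 := E4.lam _ (qq τ) hζ hq
    have h2 := E4.lam (Complex.exp (2 * π * Complex.I / N))⁻¹ (qq τ)
      (by rw [norm_inv, hζ, inv_one]) hq
    have h3 := (h1.add h2).mul_left (E4.c0 N)
    have h4 : HasSum (fun n : ℕ => if n = 0 then (∑' l : ℤ, (1 + (l : ℂ) * N) ^ (-4 : ℤ)) else 0)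
        (∑' l : ℤ, (1 + (l : ℂ) * N) ^ (-4 : ℤ)) := by
      have := hasSum_ite_eq (0 : ℕ) (∑' l : ℤ, (1 + (l : ℂ) * N) ^ (-4 : ℤ))
      exact this
    have h5 := h4.add h3
    have h6 := E4.summ N hN τ
    have h7 : Gv N (v01 N) τ = (∑' l : ℤ, (1 + (l : ℂ) * N) ^ (-4 : ℤ)) +
        E4.c0 N * ((∑' m : ℕ+, ∑' r : ℕ+, ((r : ℕ) : ℂ) ^ 3 *
          (Complex.exp (2 * π * Complex.I / N) ^ (r : ℕ) * qq τ ^ ((m : ℕ) * (r : ℕ)))) +
          ∑' m : ℕ+, ∑' r : ℕ+, ((r : ℕ) : ℂ) ^ 3 *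
          ((Complex.exp (2 * π * Complex.I / N))⁻¹ ^ (r : ℕ) *
            qq τ ^ ((m : ℕ) * (r : ℕ)))) := by
      rw [E4.Gv_eq N hN τ, h6.tsum_prod, tsum_int_eq_zero_add_tsum_pnat h6.prod]
      simp only [E4.pos N hN τ, E4.neg N hN τ, tsum_mul_left]
      rw [add_assoc, ← mul_add]
      congr 1
      refine tsum_congr ?_
      intro l
      rw [E4.g]
      simp
    rw [h7]
    refine h5.congr_fun ?_
    intro n
    rw [map_add, map_smul, PowerSeries.coeff_mk, PowerSeries.coeff_C, smul_eq_mul, E4.bb]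
    split_ifs with h8
    · rw [h8]
      simp
    · ring

end Pool.Agent.MU3Q
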