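import Pool.Agent.MU3.StQ

/-!
# MU3, block WQ: module EXP (helper50)
-/

set_option autoImplicit false

namespace Pool.Agent.MU3Q

open UpperHalfPlane ModularForm EisensteinSeries
open scoped MatrixGroups

noncomputable section

namespace EXP50

/-- `F` has a `q`-series in `RS K V`. -/
def PR (K : Subfield ℂ) (V : ValuationSubring ℂ) (F : ℍ → ℂ) : Prop :=
  ∃ u ∈ RS K V, QS F u

/-- `Δ ^ M F` has a `q`-series in `RS K V` for all large `M`. -/
def QR (K : Subfield ℂ) (V : ValuationSubring ℂ) (F : ℍ → ℂ) : Prop :=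
  ∃ M₀ : ℕ, ∀ M : ℕ, M₀ ≤ M → PR K V (fun τ => ModularForm.discriminant τ ^ M * F τ)

section

variable {K : Subfield ℂ} {V : ValuationSubring ℂ}

theorem PR.congr {F G : ℍ → ℂ} (h : PR K V F) (hFG : ∀ τ, F τ = G τ) : PR K V G := by
  have e : F = G := funext hFG
  rwa [← e]

theorem PR.mul (hRM : St_RM) (hQA : St_QA) {F G : ℍ → ℂ} (hF : PR K V F) (hG : PR K V G) :
    PR K V (fun τ => F τ * G τ) := by
  obtain ⟨u, hu, hFu⟩ := hF
  obtain ⟨v, hv, hGv⟩ := hG
  exact ⟨u * v, (hRM K V).2 u hu v hv, hQA.1 F G u v hFu hGv⟩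

theorem PR.add (hQA : St_QA) {F G : ℍ → ℂ} (hF : PR K V F) (hG : PR K V G) :
    PR K V (fun τ => F τ + G τ) := by
  obtain ⟨u, hu, hFu⟩ := hF
  obtain ⟨v, hv, hGv⟩ := hG
  exact ⟨u + v, (RS K V).add_mem hu hv, hQA.2.1 F G u v hFu hGv⟩

theorem PR.smul (hQA : St_QA) {F : ℍ → ℂ} (hF : PR K V F) (c : ℂ) :
    PR K V (fun τ => c * F τ) := by
  obtain ⟨u, hu, hFu⟩ := hF
  exact ⟨c • u, (RS K V).smul_mem c hu, hQA.2.2.1 F u c hFu⟩

theorem PR.one (hRM : St_RM) (hQA : St_QA) : PR K V (fun _ => 1) :=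
  ⟨1, (hRM K V).1, hQA.2.2.2.1⟩

theorem PR.pow (hRM : St_RM) (hQA : St_QA) {F : ℍ → ℂ} (hF : PR K V F) (n : ℕ) :
    PR K V (fun τ => F τ ^ n) := by
  induction n with
  | zero => exact (PR.one hRM hQA).congr fun τ => (pow_zero _).symm
  | succ n ih => exact (ih.mul hRM hQA hF).congr fun τ => (pow_succ _ _).symm

theorem QR.add (hQA : St_QA) {F G : ℍ → ℂ} (hF : QR K V F) (hG : QR K V G) :
    QR K V (fun τ => F τ + G τ) := by
  obtain ⟨M₀, h1⟩ := hF
  obtain ⟨M₁, h2⟩ := hG
  refine ⟨max M₀ M₁, fun M hM => ?_⟩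
  refine ((h1 M ((le_max_left _ _).trans hM)).add hQA
    (h2 M ((le_max_right _ _).trans hM))).congr fun τ => ?_
  ring

theorem QR.mul (hRM : St_RM) (hQA : St_QA) {F G : ℍ → ℂ} (hF : QR K V F) (hG : QR K V G) :
    QR K V (fun τ => F τ * G τ) := by
  obtain ⟨M₀, h1⟩ := hF
  obtain ⟨M₁, h2⟩ := hG
  refine ⟨M₀ + M₁, fun M hM => ?_⟩
  obtain ⟨N, rfl⟩ := Nat.exists_eq_add_of_le hM
  refine ((h1 M₀ le_rfl).mul hRM hQA (h2 (M₁ + N) (Nat.le_add_right _ _))).congr fun τ => ?_
  ring

end

end EXP50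

open EXP50 in
theorem t_EXP (hRM : St_RM) (hQA : St_QA) (hQE : St_QE) (hE4 : St_E4) : St_EXP := by
  intro N K V hN hζ T
  obtain ⟨u4, uD, hPP, hu4, huD⟩ := hQE
  obtain ⟨κ, c, b, hb, hG⟩ := hE4 N hN
  have p4 : PR K V (fun τ => E₄ τ) := ⟨u4, Submodule.subset_span (hPP K V).1, hu4⟩
  have pD : PR K V (fun τ => ModularForm.discriminant τ) := by
    have h1 : PR K V (fun τ => 1728 * ModularForm.discriminant τ) :=
      ⟨uD, Submodule.subset_span (hPP K V).2, huD⟩
    refine (h1.smul hQA (1 / 1728)).congr fun τ => ?_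
    ring
  have pG : PR K V (Gv N (v01 N)) := by
    refine ⟨_, ?_, hG⟩
    apply (RS K V).add_mem
    · have e : (PowerSeries.C κ : PowerSeries ℂ) = κ • 1 := by
        rw [PowerSeries.smul_eq_C_mul, mul_one]
      rw [e]
      exact (RS K V).smul_mem κ (hRM K V).1
    · exact (RS K V).smul_mem c (Submodule.subset_span (hb K V hζ))
  have pDM : ∀ M : ℕ, PR K V (fun τ => ModularForm.discriminant τ ^ M) :=
    fun M => pD.pow hRM hQA M
  have qc : ∀ x : ℂ, QR K V (fun _ => x) := by
    intro x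
    refine ⟨0, fun M _ => ((pDM M).smul hQA x).congr fun τ => ?_⟩
    ring
  have qj : QR K V (fun τ => jf τ) := by
    refine ⟨1, fun M hM => ?_⟩
    obtain ⟨m, rfl⟩ := Nat.exists_eq_add_of_le hM
    refine ((pDM m).mul hRM hQA (p4.pow hRM hQA 3)).congr fun τ => ?_
    have hD := ModularForm.discriminant_ne_zero τ
    simp only [jf, pow_add, pow_one]
    field_simp
  have qe : QR K V (fun τ => ev N (v01 N) τ) := by
    refine ⟨1, fun M hM => ?_⟩
    obtain ⟨m, rfl⟩ := Nat.exists_eq_add_of_le hM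
    refine ((pDM m).mul hRM hQA (pG.mul hRM hQA (p4.pow hRM hQA 2))).congr fun τ => ?_
    have hD := ModularForm.discriminant_ne_zero τ
    simp only [ev, pow_add, pow_one]
    field_simp
  have qpow : ∀ (F : ℍ → ℂ), QR K V F → ∀ n : ℕ, QR K V (fun τ => F τ ^ n) := by
    intro F hF n
    induction n with
    | zero =>
      have h := qc 1
      have e : (fun τ : ℍ => F τ ^ 0) = fun _ => 1 := by funext τ; exact pow_zero _
      rw [e]
      exact h
    | succ n ih =>
      have h := QR.mul hRM hQA ih hF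
      have e : (fun τ : ℍ => F τ ^ (n + 1)) = fun τ => F τ ^ n * F τ := by
        funext τ; exact pow_succ _ _
      rw [e]
      exact h
  have qp : ∀ p : Polynomial ℂ, QR K V (fun τ => p.eval (jf τ)) := by
    intro p
    induction p using Polynomial.induction_on' with
    | add p q hp hq =>
      have h := QR.add hQA hp hq
      have e : (fun τ : ℍ => (p + q).eval (jf τ)) = fun τ => p.eval (jf τ) + q.eval (jf τ) := by
        funext τ; exact Polynomial.eval_add
      rw [e]
      exact h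
    | monomial n a =>
      have h := QR.mul hRM hQA (qc a) (qpow _ qj n)
      have e : (fun τ : ℍ => (Polynomial.monomial n a).eval (jf τ)) = fun τ => a * jf τ ^ n := by
        funext τ; exact Polynomial.eval_monomial
      rw [e]
      exact h
  have qT : QR K V (fun τ => ej T τ (ev N (v01 N) τ)) := by
    induction T using Polynomial.induction_on' with
    | add p q hp hq =>
      have h := QR.add hQA hp hq
      have e : (fun τ : ℍ => ej (p + q) τ (ev N (v01 N) τ)) =
          fun τ => ej p τ (ev N (v01 N) τ) + ej q τ (ev N (v01 N) τ) := by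
        funext τ; exact Polynomial.evalEval_add _ _ _ _
      rw [e]
      exact h
    | monomial n a =>
      have h := QR.mul hRM hQA (qp a) (qpow _ qe n)
      have e : (fun τ : ℍ => ej (Polynomial.monomial n a) τ (ev N (v01 N) τ)) =
          fun τ => a.eval (jf τ) * ev N (v01 N) τ ^ n := by
        funext τ
        rw [ej, ← Polynomial.C_mul_X_pow_eq_monomial, Polynomial.evalEval_mul,
          Polynomial.evalEval_C, Polynomial.evalEval_pow, Polynomial.evalEval_X]
      rw [e]
      exact h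
  exact qT

end

end Pool.Agent.MU3Q
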