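import Pool.Agent.MU3.StQ

/-!
# MU3, block WQ, module INT: Lagrange interpolation over the conjugates
-/

set_option autoImplicit false

namespace Pool.Agent.MU3Q

open UpperHalfPlane ModularForm EisensteinSeries
open scoped MatrixGroups

noncomputable section

namespace INT

open Polynomial

/-- the ring of holomorphic functions with at most a pole at infinity -/
def AA (hJB : St_JB) : Subring (ℍ → ℂ) where
  carrier := {F | Hol F ∧ Grow F}
  mul_mem' := fun {F G} hF hG =>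
    ⟨(hJB.2.2.2.2.1 F G hF.1 hG.1).2, (hJB.2.2.2.2.2.1 F G hF.2 hG.2).2⟩
  one_mem' := hJB.2.2.2.2.2.2.1 1
  add_mem' := fun {F G} hF hG =>
    ⟨(hJB.2.2.2.2.1 F G hF.1 hG.1).1, (hJB.2.2.2.2.2.1 F G hF.2 hG.2).1⟩
  zero_mem' := hJB.2.2.2.2.2.2.1 0
  neg_mem' := fun {F} hF => by
    have h1 := hJB.2.2.2.2.2.2.1 (-1)
    have h2 : (-F) = fun τ => (-1 : ℂ) * F τ := by
      funext τ
      simp
    rw [h2]
    exact ⟨(hJB.2.2.2.2.1 _ F h1.1 hF.1).2, (hJB.2.2.2.2.2.1 _ F h1.2 hF.2).2⟩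

/-- evaluation at a point -/
def evA (hJB : St_JB) (τ : ℍ) : AA hJB →+* ℂ :=
  (Pi.evalRingHom (fun _ : ℍ => ℂ) τ).comp (AA hJB).subtype

theorem evA_apply (hJB : St_JB) (τ : ℍ) (F : AA hJB) : evA hJB τ F = (F : ℍ → ℂ) τ := rfl

theorem interp (hL1 : St_L1) (hJB : St_JB) {ι : Type} [Fintype ι] [DecidableEq ι]
    (e w : ι → ℍ → ℂ) (he : ∀ i, Hol (e i) ∧ Grow (e i)) (hw : ∀ i, Hol (w i) ∧ Grow (w i))
    (J : ι → Finset ι) (hJ : ∀ i j, j ∈ J i ↔ e j ≠ e i)
    (hγ : ∀ γ : SL(2, ℤ), ∃ σ : Equiv.Perm ι, ∀ i τ, e i (γ • τ) = e (σ i) τ ∧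
      w i (γ • τ) = w (σ i) τ) :
    ∃ R : Polynomial (Polynomial ℂ), ∀ τ x,
      ej R τ x = ∑ i, w i τ * ∏ j ∈ J i, (x - e j τ) := by
  let e' : ι → AA hJB := fun i => ⟨e i, he i⟩
  let w' : ι → AA hJB := fun i => ⟨w i, hw i⟩
  let N : (AA hJB)[X] := ∑ i, C (w' i) * ∏ j ∈ J i, (X - C (e' j))
  have hNm : ∀ τ : ℍ, N.map (evA hJB τ) = ∑ i, C (w i τ) * ∏ j ∈ J i, (X - C (e j τ)) := by
    intro τ
    change (∑ i, C (w' i) * ∏ j ∈ J i, (X - C (e' j)) : (AA hJB)[X]).map (evA hJB τ) = _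
    rw [Polynomial.map_sum]
    refine Finset.sum_congr rfl fun i _ => ?_
    rw [Polynomial.map_mul, Polynomial.map_C, Polynomial.map_prod]
    congr 1
    refine Finset.prod_congr rfl fun j _ => ?_
    rw [Polynomial.map_sub, Polynomial.map_X, Polynomial.map_C]
    rfl
  have hinv : ∀ (γ : SL(2, ℤ)) (τ : ℍ), N.map (evA hJB (γ • τ)) = N.map (evA hJB τ) := by
    intro γ τ
    obtain ⟨σ, hσ⟩ := hγ γ
    rw [hNm, hNm]
    conv_rhs => rw [← Equiv.sum_comp σ]
    refine Finset.sum_congr rfl fun i _ => ?_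
    rw [(hσ i τ).2]
    congr 1
    have h1 : J (σ i) = (J i).map σ.toEmbedding := by
      ext j
      rw [Finset.mem_map_equiv, hJ, hJ, not_iff_not]
      have h2 : ∀ k τ, e (σ k) τ = e k (γ • τ) := fun k τ => ((hσ k τ).1).symm
      constructor
      · intro h
        funext t
        have h3 := congrFun h (γ⁻¹ • t)
        rw [h2, smul_inv_smul] at h3
        have h4 : e j (γ⁻¹ • t) = e (σ.symm j) t := by
          rw [← Equiv.apply_symm_apply σ j, h2, smul_inv_smul, Equiv.apply_symm_apply]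
        rw [← h3, h4]
      · intro h
        funext t
        rw [h2, ← h, ← h2, Equiv.apply_symm_apply]
    rw [h1, Finset.prod_map]
    refine Finset.prod_congr rfl fun j _ => ?_
    rw [(hσ j τ).1]
    rfl
  have hcoef : ∀ n, ∃ P : Polynomial ℂ, ∀ τ, (N.coeff n : ℍ → ℂ) τ = P.eval (jf τ) := by
    intro n
    refine hL1 _ (N.coeff n).2.1 ?_ (N.coeff n).2.2
    intro γ τ
    have h1 := congrArg (fun p : ℂ[X] => p.coeff n) (hinv γ τ)
    simp only [Polynomial.coeff_map] at h1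
    exact h1
  choose P hP using hcoef
  refine ⟨∑ n ∈ Finset.range (N.natDegree + 1), Polynomial.monomial n (P n), fun τ x => ?_⟩
  have h1 : ∑ i, w i τ * ∏ j ∈ J i, (x - e j τ) = (N.map (evA hJB τ)).eval x := by
    rw [hNm, Polynomial.eval_finsetSum]
    refine Finset.sum_congr rfl fun i _ => ?_
    rw [Polynomial.eval_mul, Polynomial.eval_C, Polynomial.eval_prod]
    congr 1
    refine Finset.prod_congr rfl fun j _ => ?_
    rw [Polynomial.eval_sub, Polynomial.eval_X, Polynomial.eval_C]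
  rw [h1, Polynomial.eval_map, Polynomial.eval₂_eq_sum_range]
  unfold ej Polynomial.evalEval
  rw [Polynomial.eval_finsetSum, Polynomial.eval_finsetSum]
  refine Finset.sum_congr rfl fun n _ => ?_
  rw [Polynomial.eval_monomial, Polynomial.eval_mul, Polynomial.eval_pow, Polynomial.eval_C,
    ← hP, evA_apply]

theorem prod_ne (hJB : St_JB) {ι : Type} [DecidableEq ι] (s : Finset ι) (f : ι → ℍ → ℂ)
    (hf : ∀ i ∈ s, Hol (f i) ∧ ¬ ∀ τ, f i τ = 0) :
    Hol (fun τ => ∏ i ∈ s, f i τ) ∧ ¬ ∀ τ, ∏ i ∈ s, f i τ = 0 := by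
  induction s using Finset.induction_on with
  | empty =>
    refine ⟨?_, ?_⟩
    · simpa using (hJB.2.2.2.2.2.2.1 1).1
    · intro h
      have := h UpperHalfPlane.I
      simp at this
  | insert a s ha ih =>
    obtain ⟨h1, h2⟩ := ih fun i hi => hf i (Finset.mem_insert_of_mem hi)
    obtain ⟨h3, h4⟩ := hf a (Finset.mem_insert_self _ _)
    have h5 : (fun τ => ∏ i ∈ insert a s, f i τ) = fun τ => f a τ * ∏ i ∈ s, f i τ := by
      funext τ
      rw [Finset.prod_insert ha]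
    refine ⟨?_, ?_⟩
    · rw [h5]; exact (hJB.2.2.2.2.1 _ _ h3 h1).2
    · intro h
      rcases hJB.2.2.2.2.2.2.2.1 _ _ h3 h1 (fun τ => by rw [← h τ, Finset.prod_insert ha]) with
        h6 | h6
      · exact h4 h6
      · exact h2 h6

end INT

open INT in
theorem t_INT (hL1 : St_L1) (hJB : St_JB) : St_INT := by
  classical
  intro ι _ e y hey hγ hyy i0
  let J : ι → Finset ι := fun i => Finset.univ.filter fun j => e j ≠ e i
  have hJ : ∀ i j, j ∈ J i ↔ e j ≠ e i := fun i j => by simp [J]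
  obtain ⟨R, hR⟩ := interp hL1 hJB e y (fun i => ⟨(hey i).1, (hey i).2.1⟩)
    (fun i => ⟨(hey i).2.2.1, (hey i).2.2.2⟩) J hJ hγ
  obtain ⟨T, hT⟩ := interp hL1 hJB e (fun _ _ => 1) (fun i => ⟨(hey i).1, (hey i).2.1⟩)
    (fun _ => hJB.2.2.2.2.2.2.1 1) J hJ (fun γ => by
      obtain ⟨σ, hσ⟩ := hγ γ
      exact ⟨σ, fun i τ => ⟨(hσ i τ).1, rfl⟩⟩)
  have hzero : ∀ i, e i ≠ e i0 → ∀ τ, ∏ j ∈ J i, (e i0 τ - e j τ) = 0 := by
    intro i hi τ
    exact Finset.prod_eq_zero ((hJ i i0).2 (Ne.symm hi)) (sub_self _)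
  refine ⟨T, R, fun τ => ?_, ?_⟩
  · rw [hR, hT, Finset.mul_sum]
    refine Finset.sum_congr rfl fun i _ => ?_
    by_cases h : e i = e i0
    · rw [hyy i i0 h, one_mul]
    · rw [hzero i h τ]
      ring
  · have hsub : ∀ j ∈ J i0, Hol (fun τ => e i0 τ - e j τ) ∧ ¬ ∀ τ, e i0 τ - e j τ = 0 := by
      intro j hj
      constructor
      · have h1 := (hJB.2.2.2.2.1 (fun _ => -1) (e j) (hJB.2.2.2.2.2.2.1 (-1)).1 (hey j).1).2
        have h2 := (hJB.2.2.2.2.1 (e i0) _ (hey i0).1 h1).1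
        have h3 : (fun τ => e i0 τ - e j τ) = fun τ => e i0 τ + -1 * e j τ := by
          funext τ
          ring
        rw [h3]
        exact h2
      · intro h
        exact ((hJ i0 j).1 hj) (funext fun τ => (sub_eq_zero.1 (h τ)).symm)
    obtain ⟨-, h1⟩ := prod_ne hJB (J i0) (fun j τ => e i0 τ - e j τ) hsub
    obtain ⟨τ, hτ⟩ := not_forall.1 h1
    refine ⟨τ, ?_⟩
    rw [hT]
    have h2 : ∀ i, (1 : ℂ) * ∏ j ∈ J i, (e i0 τ - e j τ) =
        if e i = e i0 then ∏ j ∈ J i0, (e i0 τ - e j τ) else 0 := by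
      intro i
      by_cases h : e i = e i0
      · rw [if_pos h, one_mul]
        have : J i = J i0 := by
          ext j
          rw [hJ, hJ, h]
        rw [this]
      · rw [if_neg h, hzero i h τ, mul_zero]
    rw [Finset.sum_congr rfl fun i _ => h2 i, Finset.sum_ite, Finset.sum_const_zero, add_zero,
      Finset.sum_const, nsmul_eq_mul]
    refine mul_ne_zero ?_ hτ
    have h3 : i0 ∈ Finset.univ.filter fun i => e i = e i0 := by simp
    have h4 : 0 < (Finset.univ.filter fun i => e i = e i0).card := Finset.card_pos.2 ⟨i0, h3⟩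
    exact_mod_cast h4.ne'

end

end Pool.Agent.MU3Q
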