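import Pool.Agent.MU3.StQ

/-!
# MU3, block WQ: the function `j`, closure properties of `Hol` and `Grow`
-/

set_option autoImplicit false

namespace Pool.Agent.MU3Q

open UpperHalfPlane ModularForm EisensteinSeries
open scoped MatrixGroups Topology

namespace JB

theorem hol_of_mf {k : ℤ} {F : Type*} [FunLike F ℍ ℂ] [ModularFormClass F 𝒮ℒ k] (f : F) :
    Hol f := UpperHalfPlane.mdifferentiable_iff.mp (ModularFormClass.holo f)

theorem hol_disc : Hol ModularForm.discriminant :=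
  UpperHalfPlane.mdifferentiable_iff.mp (CuspFormClass.holo CuspForm.discriminant)

theorem isBounded_disc : IsBoundedAtImInfty ModularForm.discriminant :=
  discriminant_isZeroAtImInfty.isBoundedAtImInfty

theorem tendsto_E4 : Filter.Tendsto (fun τ : ℍ => E₄ τ) atImInfty (𝓝 1) := by
  have h1 : AnalyticAt ℂ (cuspFunction 1 E₄) 0 :=
    ModularFormClass.analyticAt_cuspFunction_zero E₄ one_pos one_mem_strictPeriods_SL
  have h2 : cuspFunction 1 E₄ 0 = 1 := by
    have h3 := E_qExpansion_coeff_zero (k := 4) (by norm_num) (by decide)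
    rw [qExpansion_coeff] at h3
    simpa using h3
  have h4 : (cuspFunction 1 E₄ ∘ fun τ : ℍ => Function.Periodic.qParam 1 τ) = E₄ := by
    funext τ
    exact SlashInvariantFormClass.eq_cuspFunction E₄ τ one_mem_strictPeriods_SL one_ne_zero
  have h5 := h1.continuousAt.tendsto.comp (qParam_tendsto_atImInfty one_pos)
  rw [h4, h2] at h5
  exact h5

theorem bounded_add {F G : ℍ → ℂ} (hF : IsBoundedAtImInfty F) (hG : IsBoundedAtImInfty G) :
    IsBoundedAtImInfty (fun τ => F τ + G τ) := hF.add hG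

theorem bounded_mul {F G : ℍ → ℂ} (hF : IsBoundedAtImInfty F) (hG : IsBoundedAtImInfty G) :
    IsBoundedAtImInfty (fun τ => F τ * G τ) := hF.mul hG

theorem bounded_pow {F : ℍ → ℂ} (hF : IsBoundedAtImInfty F) (n : ℕ) :
    IsBoundedAtImInfty (fun τ => F τ ^ n) := by
  induction n with
  | zero =>
    simp only [pow_zero]
    exact Filter.const_boundedAtFilter _ _
  | succ n ih =>
    simp only [pow_succ]
    exact bounded_mul ih hF

theorem isOpen_U : IsOpen {z : ℂ | 0 < z.im} := isOpen_lt continuous_const Complex.continuous_im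

theorem preconn_U : IsPreconnected {z : ℂ | 0 < z.im} :=
  (convex_halfSpace_im_gt 0).isPreconnected

theorem analytic_of_hol {F : ℍ → ℂ} (hF : Hol F) :
    AnalyticOnNhd ℂ (F ∘ ofComplex) {z : ℂ | 0 < z.im} := hF.analyticOnNhd isOpen_U

theorem apply_coe (F : ℍ → ℂ) (τ : ℍ) : (F ∘ ofComplex) (τ : ℂ) = F τ := by
  rw [Function.comp_apply, ofComplex_apply]

theorem zero_of_eqOn {F : ℍ → ℂ} (h : Set.EqOn (F ∘ ofComplex) 0 {z : ℂ | 0 < z.im}) (τ : ℍ) :
    F τ = 0 := by
  rw [← apply_coe F τ]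
  exact h τ.im_pos

theorem hol_jf : Hol jf := by
  have h1 := hol_of_mf E₄
  have h2 := hol_disc
  have h3 : DifferentiableOn ℂ (fun z => (E₄ ∘ ofComplex) z ^ 3 /
      (ModularForm.discriminant ∘ ofComplex) z) {z : ℂ | 0 < z.im} :=
    (h1.pow 3).div h2 (fun z _ => discriminant_ne_zero _)
  exact h3

theorem grow_jf : Grow jf := by
  refine ⟨1, ?_⟩
  have h1 : (fun τ : ℍ => ModularForm.discriminant τ ^ 1 * jf τ) = fun τ => E₄ τ ^ 3 := by
    funext τ
    have := discriminant_ne_zero τ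
    unfold jf
    field_simp
  rw [h1]
  exact bounded_pow (ModularFormClass.bdd_at_infty E₄) 3

theorem inv_jf (γ : SL(2, ℤ)) (τ : ℍ) : jf (γ • τ) = jf τ := by
  have hγ : (Matrix.SpecialLinearGroup.mapGL ℝ γ) ∈ 𝒮ℒ := ⟨γ, rfl⟩
  have h1 : E₄ (γ • τ) = (denom (Matrix.SpecialLinearGroup.mapGL ℝ γ) τ) ^ (4 : ℤ) * E₄ τ :=
    SlashInvariantForm.slash_action_eqn'' E₄ hγ τ
  have h2 : CuspForm.discriminant (γ • τ) =
      (denom (Matrix.SpecialLinearGroup.mapGL ℝ γ) τ) ^ (12 : ℤ) * CuspForm.discriminant τ :=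
    SlashInvariantForm.slash_action_eqn'' CuspForm.discriminant hγ τ
  rw [CuspForm.coe_discriminant] at h2
  have h3 : denom (Matrix.SpecialLinearGroup.mapGL ℝ γ) τ ≠ 0 := denom_ne_zero _ _
  have h4 := discriminant_ne_zero τ
  unfold jf
  rw [h1, h2]
  rw [div_eq_div_iff (mul_ne_zero (zpow_ne_zero _ h3) h4) h4]
  have h5 : (denom (Matrix.SpecialLinearGroup.mapGL ℝ γ) τ) ^ (12 : ℤ) =
      ((denom (Matrix.SpecialLinearGroup.mapGL ℝ γ) τ) ^ (4 : ℤ)) ^ 3 := by
    rw [← zpow_natCast, ← zpow_mul]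
    norm_num
  rw [h5]
  ring

theorem tendsto_jf : Filter.Tendsto (fun τ : ℍ => ‖jf τ‖) atImInfty Filter.atTop := by
  have h1 : Filter.Tendsto (fun τ : ℍ => ‖E₄ τ ^ 3‖) atImInfty (𝓝 1) := by
    have := (tendsto_E4.pow 3).norm
    simpa using this
  have h2 : Filter.Tendsto (fun τ : ℍ => ‖ModularForm.discriminant τ‖) atImInfty (𝓝[>] 0) := by
    rw [tendsto_nhdsWithin_iff]
    refine ⟨?_, Filter.Eventually.of_forall fun τ => norm_pos_iff.mpr (discriminant_ne_zero τ)⟩
    have h3 : Filter.Tendsto ModularForm.discriminant atImInfty (𝓝 0) :=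
      discriminant_isZeroAtImInfty
    simpa using h3.norm
  have h3 := h1.pos_mul_atTop one_pos h2.inv_tendsto_nhdsGT_zero
  refine h3.congr fun τ => ?_
  simp only [Pi.inv_apply, jf, div_eq_mul_inv, norm_mul, norm_inv]

theorem poly_ne (D : Polynomial ℂ) (hD : D ≠ 0) :
    ∃ Y : ℝ, ∀ τ : ℍ, Y < τ.im → D.eval (jf τ) ≠ 0 := by
  have h1 : ∃ R : ℝ, ∀ z : ℂ, D.eval z = 0 → ‖z‖ ≤ R := by
    obtain ⟨R, hR⟩ := (D.roots.toFinset.finite_toSet.isBounded).exists_norm_le
    exact ⟨R, fun z hz => hR z (by simpa [hD] using hz)⟩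
  obtain ⟨R, hR⟩ := h1
  have h2 := tendsto_jf.eventually_gt_atTop R
  obtain ⟨A, hA⟩ := (atImInfty_mem _).mp h2
  refine ⟨A, fun τ hτ h0 => ?_⟩
  have h3 := hA τ hτ.le
  have h4 := hR _ h0
  exact absurd h3 (not_lt.mpr h4)

end JB

open JB in
theorem t_JB : St_JB := by
  refine ⟨hol_jf, grow_jf, inv_jf, poly_ne, ?_, ?_, ?_, ?_, ?_⟩
  · intro F G hF hG
    exact ⟨DifferentiableOn.add hF hG, DifferentiableOn.mul hF hG⟩
  · rintro F G ⟨m, hF⟩ ⟨n, hG⟩
    refine ⟨⟨m + n, ?_⟩, ⟨m + n, ?_⟩⟩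
    · have h1 : (fun τ : ℍ => ModularForm.discriminant τ ^ (m + n) * (F τ + G τ)) =
          fun τ => ModularForm.discriminant τ ^ n * (ModularForm.discriminant τ ^ m * F τ) +
            ModularForm.discriminant τ ^ m * (ModularForm.discriminant τ ^ n * G τ) := by
        funext τ
        ring
      rw [h1]
      exact bounded_add (bounded_mul (bounded_pow isBounded_disc n) hF)
        (bounded_mul (bounded_pow isBounded_disc m) hG)
    · have h1 : (fun τ : ℍ => ModularForm.discriminant τ ^ (m + n) * (F τ * G τ)) =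
          fun τ => (ModularForm.discriminant τ ^ m * F τ) *
            (ModularForm.discriminant τ ^ n * G τ) := by
        funext τ
        ring
      rw [h1]
      exact bounded_mul hF hG
  · intro c
    refine ⟨differentiableOn_const c, 0, ?_⟩
    simp only [pow_zero, one_mul]
    exact Filter.const_boundedAtFilter _ _
  · intro F G hF hG h
    have h1 : ∀ z ∈ {z : ℂ | 0 < z.im}, ((F ∘ ofComplex) * (G ∘ ofComplex) : ℂ → ℂ) z = 0 :=
      fun z _ => h (ofComplex z)
    rcases AnalyticOnNhd.eq_zero_or_eq_zero_of_mul_eq_zero (analytic_of_hol hF)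
      (analytic_of_hol hG) h1 preconn_U with h2 | h2
    · exact Or.inl (zero_of_eqOn h2)
    · exact Or.inr (zero_of_eqOn h2)
  · intro F Y hF h
    refine zero_of_eqOn ?_
    have hY : 0 < max Y 0 + 1 := by positivity
    let z₀ : ℂ := ((max Y 0 + 1 : ℝ) : ℂ) * Complex.I
    have hz₀ : z₀.im = max Y 0 + 1 := by simp [z₀]
    refine (analytic_of_hol hF).eqOn_zero_of_preconnected_of_eventuallyEq_zero preconn_U
      (z₀ := z₀) (by rw [Set.mem_ofPred_eq, hz₀]; exact hY) ?_
    have h1 : {z : ℂ | max Y 0 < z.im} ∈ 𝓝 z₀ := by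
      refine (isOpen_lt continuous_const Complex.continuous_im).mem_nhds ?_
      rw [Set.mem_ofPred_eq, hz₀]
      linarith
    filter_upwards [h1] with z hz
    have hz' : 0 < z.im := lt_of_le_of_lt (le_max_right _ _) hz
    have h2 := h ⟨z, hz'⟩ (lt_of_le_of_lt (le_max_left _ _) hz)
    rw [Function.comp_apply, ofComplex_apply_of_im_pos hz']
    exact h2

end Pool.Agent.MU3Q
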