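import Pool.Agent.MU3.StQ

/-!
# MU3, block WQ: module L1 (helper18)
-/

set_option autoImplicit false

namespace Pool.Agent.MU3Q

open UpperHalfPlane ModularForm EisensteinSeries ModularFormClass OnePoint Filter
open scoped MatrixGroups

noncomputable section

namespace L118

/-- A level one modular form of weight `12 m` is `Δ ^ m P(j)`. -/
theorem main (m : ℕ) : ∀ G : ModularForm 𝒮ℒ (12 * (m : ℤ)), ∃ P : Polynomial ℂ,
    ∀ τ, G τ = ModularForm.discriminant τ ^ m * P.eval (jf τ) := by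
  induction m with
  | zero =>
    intro G
    obtain ⟨c, hc⟩ := levelOne_weight_zero_const
      (ModularForm.mcast (b := 0) (by simp) G : ModularForm 𝒮ℒ 0)
    refine ⟨Polynomial.C c, fun τ => ?_⟩
    have h1 : G τ = c := congrFun hc τ
    rw [h1, pow_zero, one_mul, Polynomial.eval_C]
  | succ m ih =>
    intro G
    let g : ModularForm 𝒮ℒ (12 * ((m + 1 : ℕ) : ℤ)) :=
      ModularForm.mcast (by push_cast; ring) (E₄.pow (3 * (m + 1)))
    have hg0 : (qExpansion 1 g).coeff 0 = 1 := by
      have h1 : qExpansion 1 g = (qExpansion 1 E₄) ^ (3 * (m + 1)) :=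
        ModularForm.qExpansion_pow one_pos one_mem_strictPeriods_SL E₄ (3 * (m + 1))
      rw [h1, PowerSeries.coeff_zero_eq_constantCoeff_apply, map_pow,
        ← PowerSeries.coeff_zero_eq_constantCoeff_apply, E_qExpansion_coeff_zero _ ⟨2, rfl⟩,
        one_pow]
    have hc := sub_smul_isCuspForm G g hg0
    obtain ⟨c, hcd⟩ : ∃ c, c = (qExpansion 1 G).coeff 0 := ⟨_, rfl⟩
    rw [← hcd, isCuspForm_iff_coeffZero_eq_zero] at hc
    obtain ⟨P, hP⟩ := ih (ModularForm.mcast (by push_cast; ring)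
      (CuspForm.discriminantEquiv (toCuspForm (G - c • g) hc)))
    refine ⟨P + Polynomial.C c * Polynomial.X ^ (m + 1), fun τ => ?_⟩
    have h1 : (G τ - c * E₄ τ ^ (3 * (m + 1))) / ModularForm.discriminant τ =
        ModularForm.discriminant τ ^ m * P.eval (jf τ) := by
      rw [← hP τ]
      rw [ModularForm.mcast_apply, CuspForm.discriminantEquiv_apply, toCuspForm_apply]
      congr 1
      show G τ - c * E₄ τ ^ (3 * (m + 1)) = (G - c • g) τ
      have h2 : (G - c • g) τ = G τ - c * g τ := rfl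
      rw [h2]
      have h3 : g τ = E₄ τ ^ (3 * (m + 1)) := by
        show (E₄.pow (3 * (m + 1))) τ = _
        rw [ModularForm.coe_pow]
        rfl
      rw [h3]
    have hΔ := ModularForm.discriminant_ne_zero τ
    rw [div_eq_iff hΔ] at h1
    have h2 : ModularForm.discriminant τ ^ (m + 1) * jf τ ^ (m + 1) = E₄ τ ^ (3 * (m + 1)) := by
      rw [← mul_pow, jf, mul_div_cancel₀ _ hΔ, ← pow_mul]
    simp only [Polynomial.eval_add, Polynomial.eval_mul, Polynomial.eval_C, Polynomial.eval_pow,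
      Polynomial.eval_X]
    linear_combination h1 - c * h2

/-- The modular form `Δ ^ m F`. -/
theorem slash (m : ℕ) (F : ℍ → ℂ) (hF : ∀ (γ : SL(2, ℤ)) (τ : ℍ), F (γ • τ) = F τ)
    (γ : SL(2, ℤ)) : (fun τ => ModularForm.discriminant τ ^ m * F τ) ∣[(12 * (m : ℤ))] γ =
      fun τ => ModularForm.discriminant τ ^ m * F τ := by
  ext z
  have h := congrFun (SlashInvariantForm.slash_action_generators_SL2Z discriminant_S_invariant
    discriminant_T_invariant γ) z
  rw [SL_slash_apply] at h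
  rw [SL_slash_apply, hF]
  show ModularForm.discriminant (γ • z) ^ m * F z * _ = ModularForm.discriminant z ^ m * F z
  rw [← h, mul_pow]
  have e : (denom γ z ^ (-(12 : ℤ))) ^ m = denom γ z ^ (-(12 * (m : ℤ))) := by
    rw [← zpow_natCast, ← zpow_mul, neg_mul]
  rw [e]
  ring

def mk (m : ℕ) (F : ℍ → ℂ) (hH : Hol F) (hF : ∀ (γ : SL(2, ℤ)) (τ : ℍ), F (γ • τ) = F τ)
    (hb : IsBoundedAtImInfty (fun τ : ℍ => ModularForm.discriminant τ ^ m * F τ)) :
    ModularForm 𝒮ℒ (12 * (m : ℤ)) where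
  toFun τ := ModularForm.discriminant τ ^ m * F τ
  slash_action_eq' := fun _ ⟨γ, hγ⟩ => hγ ▸ slash m F hF γ
  holo' := by
    rw [UpperHalfPlane.mdifferentiable_iff]
    have h1 := UpperHalfPlane.mdifferentiable_iff.1 CuspForm.discriminant.holo'
    exact (h1.pow m).mul hH
  bdd_at_cusps' {c} hc := by
    rw [Subgroup.IsArithmetic.isCusp_iff_isCusp_SL2Z] at hc
    rw [isBoundedAt_iff_forall_SL2Z hc]
    intro γ _
    rw [slash m F hF γ]
    exact hb

end L118

open L118 in
theorem t_L1 : St_L1 := by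
  intro F hH hF hG
  obtain ⟨m, hb⟩ := hG
  obtain ⟨P, hP⟩ := main m (mk m F hH hF hb)
  refine ⟨P, fun τ => ?_⟩
  have h1 : ModularForm.discriminant τ ^ m * F τ =
      ModularForm.discriminant τ ^ m * P.eval (jf τ) := hP τ
  exact mul_left_cancel₀ (pow_ne_zero m (ModularForm.discriminant_ne_zero τ)) h1

end

end Pool.Agent.MU3Q
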