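import Pool.Agent.MU3.StQ

/-!
# MU3, block WQ: module LA (helper45)
-/

set_option autoImplicit false

namespace Pool.Agent.MU3Q

namespace LA45

/-- apply a `K`-linear map to the coefficients -/
noncomputable def app {K : Subfield ℂ} (l : ℂ →ₗ[K] K) (u : PowerSeries ℂ) : PowerSeries ℂ :=
  PowerSeries.mk fun n => ((l (PowerSeries.coeff n u) : K) : ℂ)

theorem coeff_app {K : Subfield ℂ} (l : ℂ →ₗ[K] K) (u : PowerSeries ℂ) (n : ℕ) :
    PowerSeries.coeff n (app l u) = ((l (PowerSeries.coeff n u) : K) : ℂ) := by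
  unfold app
  rw [PowerSeries.coeff_mk]

theorem l_mul {K : Subfield ℂ} (l : ℂ →ₗ[K] K) (x s : ℂ) (hs : s ∈ K) :
    ((l (x * s) : K) : ℂ) = ((l x : K) : ℂ) * s := by
  have h1 : x * s = (⟨s, hs⟩ : K) • x := by
    rw [mul_comm]
    rfl
  rw [h1, map_smul, smul_eq_mul]
  push_cast
  rw [mul_comm]

theorem app_mul {K : Subfield ℂ} (l : ℂ →ₗ[K] K) (u S : PowerSeries ℂ)
    (hS : ∀ n, PowerSeries.coeff n S ∈ K) : app l (u * S) = app l u * S := by
  ext n
  rw [coeff_app, PowerSeries.coeff_mul, PowerSeries.coeff_mul, map_sum]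
  push_cast
  refine Finset.sum_congr rfl fun x _ => ?_
  rw [coeff_app, l_mul l _ _ (hS x.2)]

theorem exists_q {K : Subfield ℂ} {V : ValuationSubring ℂ} (x : ℂ) (hx : x ∈ K) :
    ∃ q : ℂ, q ∈ K ∧ q ∈ V ∧ q ≠ 0 ∧ q * x ∈ V := by
  by_cases h : x ∈ V
  · exact ⟨1, K.one_mem, V.one_mem, one_ne_zero, by rwa [one_mul]⟩
  · have h0 : x ≠ 0 := by
      rintro rfl
      exact h V.zero_mem
    have h1 : x⁻¹ ∈ V := (V.mem_or_inv_mem x).resolve_left h
    exact ⟨x⁻¹, K.inv_mem hx, h1, inv_ne_zero h0, by rw [inv_mul_cancel₀ h0]; exact V.one_mem⟩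

theorem bdd {K : Subfield ℂ} {V : ValuationSubring ℂ} (l : ℂ →ₗ[K] K) (u : PowerSeries ℂ)
    (hu : u ∈ RS K V) : ∀ c : ℂ, ∃ q : ℂ, q ∈ K ∧ q ∈ V ∧ q ≠ 0 ∧
      ∀ n, q * ((l (c * PowerSeries.coeff n u) : K) : ℂ) ∈ V := by
  unfold RS at hu
  induction hu using Submodule.span_induction with
  | mem u hu =>
    intro c
    obtain ⟨q, hqK, hqV, hq0, hq⟩ := exists_q (V := V) ((l c : K) : ℂ) (l c).2
    refine ⟨q, hqK, hqV, hq0, fun n => ?_⟩
    rw [l_mul l c _ (hu n).1, ← mul_assoc]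
    exact V.mul_mem _ _ hq (hu n).2
  | zero =>
    intro c
    refine ⟨1, K.one_mem, V.one_mem, one_ne_zero, fun n => ?_⟩
    rw [map_zero, mul_zero, map_zero]
    simp
  | add u v _ _ hu hv =>
    intro c
    obtain ⟨q, hqK, hqV, hq0, hq⟩ := hu c
    obtain ⟨q', hqK', hqV', hq0', hq'⟩ := hv c
    refine ⟨q * q', K.mul_mem hqK hqK', V.mul_mem _ _ hqV hqV', mul_ne_zero hq0 hq0', fun n => ?_⟩
    rw [map_add, mul_add, map_add]
    push_cast
    have e : q * q' * (((l (c * PowerSeries.coeff n u) : K) : ℂ) +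
        ((l (c * PowerSeries.coeff n v) : K) : ℂ)) =
        q' * (q * ((l (c * PowerSeries.coeff n u) : K) : ℂ)) +
        q * (q' * ((l (c * PowerSeries.coeff n v) : K) : ℂ)) := by ring
    rw [e]
    exact V.add_mem _ _ (V.mul_mem _ _ hqV' (hq n)) (V.mul_mem _ _ hqV (hq' n))
  | smul a u _ hu =>
    intro c
    obtain ⟨q, hqK, hqV, hq0, hq⟩ := hu (c * a)
    refine ⟨q, hqK, hqV, hq0, fun n => ?_⟩
    have e : c * PowerSeries.coeff n (a • u) = c * a * PowerSeries.coeff n u := by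
      rw [PowerSeries.coeff_smul, smul_eq_mul, mul_assoc]
    rw [e]
    exact hq n

end LA45

open LA45 in
/-- (LA) -/
theorem t_LA : St_LA := by
  intro K V S A' B' hS hA hB hA0 hAB
  obtain ⟨n₀, hn₀⟩ : ∃ n, PowerSeries.coeff n A' ≠ 0 := by
    by_contra hc
    push Not at hc
    exact hA0 (PowerSeries.ext fun n => by rw [hc n, map_zero])
  obtain ⟨l, hl⟩ : ∃ l : ℂ →ₗ[K] K, l (PowerSeries.coeff n₀ A') ≠ 0 := by
    by_contra hc
    push Not at hc
    exact hn₀ ((Module.forall_dual_apply_eq_zero_iff K (PowerSeries.coeff n₀ A')).1 hc)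
  obtain ⟨q, hqK, hqV, hq0, hq⟩ := bdd l A' hA 1
  obtain ⟨q', hqK', hqV', hq0', hq'⟩ := bdd l B' hB 1
  refine ⟨(q * q') • app l A', fun n => ⟨?_, ?_⟩, (q * q') • app l B', fun n => ⟨?_, ?_⟩, ?_, ?_⟩
  · rw [PowerSeries.coeff_smul, smul_eq_mul, coeff_app]
    exact K.mul_mem (K.mul_mem hqK hqK') (l _).2
  · rw [PowerSeries.coeff_smul, smul_eq_mul, coeff_app]
    have h1 := hq n
    rw [one_mul] at h1
    rw [mul_comm q q', mul_assoc]
    exact V.mul_mem _ _ hqV' h1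
  · rw [PowerSeries.coeff_smul, smul_eq_mul, coeff_app]
    exact K.mul_mem (K.mul_mem hqK hqK') (l _).2
  · rw [PowerSeries.coeff_smul, smul_eq_mul, coeff_app]
    have h1 := hq' n
    rw [one_mul] at h1
    rw [mul_assoc]
    exact V.mul_mem _ _ hqV h1
  · intro h
    have h1 := congrArg (PowerSeries.coeff n₀) h
    rw [PowerSeries.coeff_smul, smul_eq_mul, coeff_app, map_zero, mul_eq_zero] at h1
    rcases h1 with h1 | h1
    · exact mul_ne_zero hq0 hq0' h1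
    · exact hl (Subtype.ext h1)
  · rw [smul_mul_assoc, ← app_mul l A' S hS, hAB]

end Pool.Agent.MU3Q
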