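import Pool.Agent.MU3.StQ

/-!
# MU3, block WQ, module MR: `1 / (℘ (W) + c)` is meromorphic
-/

set_option autoImplicit false

namespace Pool.Agent.MU3Q

open UpperHalfPlane ModularForm EisensteinSeries
open scoped MatrixGroups

namespace Q_MR

/-- the norm of the local parameter -/
lemma norm_q (N : ℕ) (z : ℂ) :
    ‖Complex.exp (2 * Real.pi * Complex.I * z / N)‖ = Real.exp (-(2 * Real.pi * z.im / N)) := by
  rw [Complex.norm_exp]
  congr 1
  have h : (2 * (Real.pi : ℂ) * Complex.I * z / (N : ℂ)) =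
      ((2 * Real.pi / N : ℝ) : ℂ) * (Complex.I * z) := by
    push_cast
    ring
  rw [h, Complex.re_ofReal_mul]
  simp only [Complex.mul_re, Complex.I_re, Complex.I_im, zero_mul, one_mul, zero_sub]
  ring

lemma summable_norm (W : ℍ → ℂ) (C : ℂ) (w : ℕ → ℂ) (N : ℕ) (hN : 0 < N)
    (h : ∀ τ : ℍ, HasSum (fun n : ℕ => w n *
      Complex.exp (2 * Real.pi * Complex.I * (τ : ℂ) / N) ^ (n + 1)) (W τ - C))
    (r : ℝ) (hr0 : 0 < r) (hr1 : r < 1) : Summable (fun n : ℕ => ‖w n‖ * r ^ (n + 1)) := by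
  have hN' : (0 : ℝ) < N := by exact_mod_cast hN
  have hlog : Real.log r < 0 := Real.log_neg hr0 hr1
  obtain ⟨t, ht, hte⟩ : ∃ t : ℝ, 0 < t ∧ -(2 * Real.pi * t / N) = Real.log r := by
    refine ⟨-(N * Real.log r) / (2 * Real.pi), ?_, ?_⟩
    · apply div_pos _ (by positivity)
      have := mul_neg_of_pos_of_neg hN' hlog
      linarith
    · have := Real.pi_pos.ne'
      field_simp
  have him : (Complex.I * (t : ℂ)).im = t := by simp
  have hτ := (h ⟨Complex.I * (t : ℂ), by rw [him]; exact ht⟩).summable.norm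
  refine hτ.congr ?_
  intro n
  rw [norm_mul, norm_pow, Q_MR.norm_q]
  congr 2
  change Real.exp (-(2 * Real.pi * (Complex.I * (t : ℂ)).im / N)) = r
  rw [him, hte, Real.exp_log hr0]

lemma analytic (w : ℕ → ℂ)
    (h : ∀ r : ℝ, 0 < r → r < 1 → Summable (fun n : ℕ => ‖w n‖ * r ^ (n + 1)))
    (q : ℂ) (hq : ‖q‖ < 1) : AnalyticAt ℂ (fun x : ℂ => ∑' n : ℕ, w n * x ^ (n + 1)) q := by
  obtain ⟨r, hr1, hr2⟩ := exists_between hq
  have hr0 : 0 < r := (norm_nonneg q).trans_lt hr1
  have hd : DifferentiableOn ℂ (fun x : ℂ => ∑' n : ℕ, w n * x ^ (n + 1)) (Metric.ball 0 r) := by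
    apply Complex.differentiableOn_tsum_of_summable_norm (h r hr0 hr2)
    · intro n
      fun_prop
    · exact Metric.isOpen_ball
    · intro n x hx
      rw [norm_mul, norm_pow]
      have hx' : ‖x‖ ≤ r := by
        rw [Metric.mem_ball, dist_zero_right] at hx
        exact hx.le
      gcongr
  exact hd.analyticAt (Metric.isOpen_ball.mem_nhds (by
    rw [Metric.mem_ball, dist_zero_right]
    exact hr1))

end Q_MR

theorem t_MR : St_MR := by
  intro L c0 W C w N hN h
  have hN' : (0 : ℝ) < N := by exact_mod_cast hN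
  have hs := Q_MR.summable_norm W C w N hN h
  have han := Q_MR.analytic w hs
  have hmer : ∀ q : ℂ, ‖q‖ < 1 →
      MeromorphicAt (fun x : ℂ => (L.weierstrassP (C + ∑' n : ℕ, w n * x ^ (n + 1)) + c0)⁻¹) q := by
    intro q hq
    have h1 : AnalyticAt ℂ (fun x : ℂ => C + ∑' n : ℕ, w n * x ^ (n + 1)) q :=
      analyticAt_const.add (han q hq)
    have h2 : MeromorphicAt (L.weierstrassP ∘ fun x : ℂ => C + ∑' n : ℕ, w n * x ^ (n + 1)) q :=
      (L.meromorphic_weierstrassP _).comp_analyticAt h1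
    exact (h2.add (MeromorphicAt.const c0 q)).inv
  have hval : ∀ τ : ℍ, W τ = C + ∑' n : ℕ, w n *
      Complex.exp (2 * Real.pi * Complex.I * (τ : ℂ) / N) ^ (n + 1) := by
    intro τ
    rw [(h τ).tsum_eq]
    ring
  have hlt : ∀ z : ℂ, 0 < z.im → ‖Complex.exp (2 * Real.pi * Complex.I * z / N)‖ < 1 := by
    intro z hz
    rw [Q_MR.norm_q, Real.exp_lt_one_iff]
    have : 0 < 2 * Real.pi * z.im / N := by positivity
    linarith
  refine ⟨?_, N, _, 0, hN, hmer 0 (by simp), ?_⟩
  · intro z hz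
    have hz' : 0 < z.im := hz
    have h1 : AnalyticAt ℂ (fun x : ℂ => Complex.exp (2 * Real.pi * Complex.I * x / N)) z := by
      fun_prop
    have h2 := MeromorphicAt.comp_analyticAt (f := fun x : ℂ =>
      (L.weierstrassP (C + ∑' n : ℕ, w n * x ^ (n + 1)) + c0)⁻¹)
      (g := fun x : ℂ => Complex.exp (2 * Real.pi * Complex.I * x / N)) (x := z)
      (hmer _ (hlt z hz')) h1
    apply h2.congr
    have hopen : {x : ℂ | 0 < x.im} ∈ nhds z :=
      (isOpen_lt continuous_const Complex.continuous_im).mem_nhds hz'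
    filter_upwards [nhdsWithin_le_nhds hopen] with x hx
    have hx' : 0 < x.im := hx
    simp only [Function.comp_apply]
    rw [hval, ofComplex_apply_of_im_pos hx']
  · intro τ _
    simp only
    rw [hval τ]

end Pool.Agent.MU3Q
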