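import Pool.Agent.MU3.StQ

/-!
# MU3, block WQ, module NF: removable singularities on the upper half plane
-/

set_option autoImplicit false

namespace Pool.Agent.MU3Q

open UpperHalfPlane ModularForm EisensteinSeries Filter Topology
open scoped MatrixGroups

noncomputable section

namespace NFaux

/-- the upper half plane as a subset of `ℂ` -/
abbrev U : Set ℂ := {z : ℂ | 0 < z.im}

lemma ofC_coe {z : ℂ} (hz : 0 < z.im) : ((ofComplex z : ℍ) : ℂ) = z := by
  rw [ofComplex_apply_of_im_pos hz]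

lemma isOpenU : IsOpen U := isOpen_lt continuous_const Complex.continuous_im

lemma contAt_ofComplex {z : ℂ} (hz : 0 < z.im) : ContinuousAt (ofComplex : ℂ → ℍ) z :=
  (mdifferentiableAt_ofComplex hz).continuousAt

/-- the normal form is analytic -/
lemma analytic {X : ℍ → ℂ} (hX : MeromorphicOn (X ∘ ofComplex) U)
    (ho : ∀ τ : ℍ, 0 ≤ meromorphicOrderAt (X ∘ ofComplex) (τ : ℂ)) :
    ∀ z ∈ U, AnalyticAt ℂ (toMeromorphicNFOn (X ∘ ofComplex) U) z := by
  intro z hz
  have h1 := meromorphicNFOn_toMeromorphicNFOn (X ∘ ofComplex) U hz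
  rw [← h1.meromorphicOrderAt_nonneg_iff_analyticAt, meromorphicOrderAt_toMeromorphicNFOn hX hz]
  exact ho ⟨z, hz⟩

end NFaux

open NFaux

theorem t_NF (hP : St_PORD) : St_NF := by
  refine ⟨?_, ?_⟩
  · intro X hX ho
    refine ⟨?_, ?_⟩
    · have h1 : DifferentiableOn ℂ (toMeromorphicNFOn (X ∘ ofComplex) U) U := fun z hz =>
        (analytic hX ho z hz).differentiableAt.differentiableWithinAt
      refine h1.congr fun z hz => ?_
      change nf X (ofComplex z) = _
      unfold nf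
      rw [ofC_coe hz]
    · intro τ hτ
      have hm : (τ : ℂ) ∈ U := τ.im_pos
      unfold nf
      rw [toMeromorphicNFOn_eq_toMeromorphicNFAt hX hm,
        toMeromorphicNFAt_eq_self.2 hτ.meromorphicNFAt]
      simp
  · intro X X' γ hX ho hXX' τ
    have hX'eq : X' = fun τ : ℍ => X (γ • τ) := funext fun σ => (hXX' σ).symm
    obtain ⟨hm', ho'⟩ := hP X γ hX
    rw [← hX'eq] at hm' ho'
    have ho'' : ∀ τ : ℍ, 0 ≤ meromorphicOrderAt (X' ∘ ofComplex) (τ : ℂ) := fun σ => by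
      rw [ho' σ]
      exact ho (γ • σ)
    have hτ : (τ : ℂ) ∈ U := τ.im_pos
    have hγτ : ((γ • τ : ℍ) : ℂ) ∈ U := (γ • τ).im_pos
    set f := toMeromorphicNFOn (X ∘ ofComplex) U with hf
    set f' := toMeromorphicNFOn (X' ∘ ofComplex) U with hf'
    have hact : Continuous fun σ : ℍ => γ • σ :=
      continuous_const_smul (γ : GL (Fin 2) ℝ)
    have hg : ContinuousAt (fun z : ℂ => ((γ • (ofComplex z) : ℍ) : ℂ)) (τ : ℂ) := by
      have h1 : ContinuousAt (fun z : ℂ => (γ • (ofComplex z) : ℍ)) (τ : ℂ) :=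
        hact.continuousAt.comp (contAt_ofComplex hτ)
      exact continuous_coe.continuousAt.comp h1
    have hgτ : ((γ • (ofComplex (τ : ℂ)) : ℍ) : ℂ) = ((γ • τ : ℍ) : ℂ) := by
      rw [ofComplex_apply]
    have hc1 : ContinuousAt (fun z : ℂ => f ((γ • (ofComplex z) : ℍ) : ℂ)) (τ : ℂ) := by
      have h1 : ContinuousAt f ((γ • (ofComplex (τ : ℂ)) : ℍ) : ℂ) := by
        rw [hgτ]
        exact (analytic hX ho _ hγτ).continuousAt
      exact ContinuousAt.comp (f := fun z : ℂ => ((γ • (ofComplex z) : ℍ) : ℂ)) h1 hg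
    have hc2 : ContinuousAt f' (τ : ℂ) := (analytic hm' ho'' _ hτ).continuousAt
    have he2 : ∀ᶠ z in 𝓝[≠] (τ : ℂ), f' z = (X' ∘ ofComplex) z :=
      hm'.toMeromorphicNFOn_eq_self_on_nhdsNE hτ
    have he1 : ∀ᶠ z in 𝓝[≠] ((γ • τ : ℍ) : ℂ), f z = (X ∘ ofComplex) z :=
      hX.toMeromorphicNFOn_eq_self_on_nhdsNE hγτ
    have hU : ∀ᶠ z in 𝓝[≠] (τ : ℂ), z ∈ U :=
      nhdsWithin_le_nhds (isOpenU.mem_nhds hτ)
    have htend : Tendsto (fun z : ℂ => ((γ • (ofComplex z) : ℍ) : ℂ)) (𝓝[≠] (τ : ℂ))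
        (𝓝[≠] ((γ • τ : ℍ) : ℂ)) := by
      refine tendsto_nhdsWithin_iff.2 ⟨?_, ?_⟩
      · have h1 := hg.tendsto
        simp only [hgτ] at h1
        exact h1.mono_left nhdsWithin_le_nhds
      · filter_upwards [hU, self_mem_nhdsWithin] with z hz hzne
        intro hcon
        apply hzne
        have h1 : γ • (ofComplex z) = γ • τ := UpperHalfPlane.ext hcon
        have h2 : ofComplex z = τ := smul_left_cancel γ h1
        have h3 := congrArg (fun σ : ℍ => (σ : ℂ)) h2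
        simp only [ofC_coe hz] at h3
        exact h3
    have hee : (fun z : ℂ => f ((γ • (ofComplex z) : ℍ) : ℂ)) =ᶠ[𝓝[≠] (τ : ℂ)] f' := by
      filter_upwards [htend.eventually he1, he2] with z h1 h2
      rw [h1, h2]
      change X (ofComplex ((γ • (ofComplex z) : ℍ) : ℂ)) = X' (ofComplex z)
      rw [ofComplex_apply, hXX']
    have hl1 : Tendsto (fun z : ℂ => f ((γ • (ofComplex z) : ℍ) : ℂ)) (𝓝[≠] (τ : ℂ))
        (𝓝 (f ((γ • τ : ℍ) : ℂ))) := by
      have h1 := hc1.tendsto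
      simp only [hgτ] at h1
      exact h1.mono_left nhdsWithin_le_nhds
    have hl2 : Tendsto f' (𝓝[≠] (τ : ℂ)) (𝓝 (f' (τ : ℂ))) :=
      hc2.tendsto.mono_left nhdsWithin_le_nhds
    exact tendsto_nhds_unique_of_eventuallyEq hl1 hl2 hee

end

end Pool.Agent.MU3Q
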