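import Pool.Agent.MU3.StQ

/-!
# Module MU3Q_ODE: the power series of `1 / x(Z)` and its differential equation
-/

set_option autoImplicit false

namespace Pool.Agent.MU3Q

open UpperHalfPlane ModularForm EisensteinSeries
open scoped MatrixGroups Topology

noncomputable section

namespace ODE

open Filter

/-- `S` is the Taylor series of `f` at `0` -/
def Ser (f : ℂ → ℂ) (S : PowerSeries ℂ) : Prop :=
  ∀ᶠ q in 𝓝 (0 : ℂ), HasSum (fun n : ℕ => PowerSeries.coeff n S * q ^ n) (f q)

theorem ser_iff {f : ℂ → ℂ} {S : PowerSeries ℂ} : Ser f S ↔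
    HasFPowerSeriesAt f (FormalMultilinearSeries.ofScalars ℂ (fun n => PowerSeries.coeff n S)) 0 := by
  rw [hasFPowerSeriesAt_iff]
  unfold Ser
  simp only [zero_add, FormalMultilinearSeries.coeff_ofScalars, smul_eq_mul, mul_comm]

theorem Ser.analyticAt {f : ℂ → ℂ} {S : PowerSeries ℂ} (h : Ser f S) : AnalyticAt ℂ f 0 :=
  ⟨_, ser_iff.1 h⟩

theorem Ser.unique {f : ℂ → ℂ} {S T : PowerSeries ℂ} (h : Ser f S) (h' : Ser f T) : S = T := by
  have h1 := HasFPowerSeriesAt.eq_formalMultilinearSeries (ser_iff.1 h) (ser_iff.1 h')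
  ext n
  have h2 := congrArg (fun p => FormalMultilinearSeries.coeff p n) h1
  simpa [FormalMultilinearSeries.coeff_ofScalars] using h2

theorem Ser.congr {f g : ℂ → ℂ} {S : PowerSeries ℂ} (h : Ser f S) (hfg : ∀ᶠ q in 𝓝 0, f q = g q) :
    Ser g S := by
  unfold Ser at *
  filter_upwards [h, hfg] with q h1 h2
  rwa [← h2]

theorem Ser.zero_eq {f : ℂ → ℂ} {S : PowerSeries ℂ} (h : Ser f S) : f 0 = PowerSeries.coeff 0 S := by
  have h1 := h.self_of_nhds
  have h2 : HasSum (fun n : ℕ => PowerSeries.coeff n S * (0 : ℂ) ^ n) (PowerSeries.coeff 0 S) := by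
    have := hasSum_single (f := fun n : ℕ => PowerSeries.coeff n S * (0 : ℂ) ^ n) 0
      (fun n hn => by simp [hn])
    simpa using this
  exact h1.unique h2

theorem Ser.add {f g : ℂ → ℂ} {S T : PowerSeries ℂ} (hf : Ser f S) (hg : Ser g T) :
    Ser (fun q => f q + g q) (S + T) := by
  unfold Ser at *
  filter_upwards [hf, hg] with q h1 h2
  have := h1.add h2
  simpa only [map_add, add_mul] using this

theorem Ser.mul {f g : ℂ → ℂ} {S T : PowerSeries ℂ} (hf : Ser f S) (hg : Ser g T) :
    Ser (fun q => f q * g q) (S * T) := by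
  unfold Ser at *
  filter_upwards [hf, hg] with q h1 h2
  have n1 := h1.summable.norm
  have n2 := h2.summable.norm
  have h3 := (summable_norm_sum_mul_antidiagonal_of_summable_norm n1 n2).of_norm.hasSum
  rw [← tsum_mul_tsum_eq_tsum_sum_antidiagonal_of_summable_norm n1 n2, h1.tsum_eq,
    h2.tsum_eq] at h3
  have e : (fun n : ℕ => PowerSeries.coeff n (S * T) * q ^ n) = fun n : ℕ =>
      ∑ kl ∈ Finset.HasAntidiagonal.antidiagonal n, PowerSeries.coeff kl.1 S * q ^ kl.1 *
        (PowerSeries.coeff kl.2 T * q ^ kl.2) := by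
    funext n
    rw [PowerSeries.coeff_mul, Finset.sum_mul]
    refine Finset.sum_congr rfl fun p hp => ?_
    have : p.1 + p.2 = n := Finset.HasAntidiagonal.mem_antidiagonal.1 hp
    rw [← this, pow_add]
    ring
  rw [e]
  exact h3

theorem Ser.const (c : ℂ) : Ser (fun _ => c) (PowerSeries.C c) := by
  unfold Ser
  refine Eventually.of_forall fun q => ?_
  have := hasSum_single (f := fun n : ℕ => PowerSeries.coeff n (PowerSeries.C c) * q ^ n) 0
    (fun n hn => by simp [PowerSeries.coeff_C, hn])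
  simpa using this

theorem Ser.id : Ser (fun q => q) PowerSeries.X := by
  unfold Ser
  refine Eventually.of_forall fun q => ?_
  have := hasSum_single (f := fun n : ℕ => PowerSeries.coeff n (PowerSeries.X : PowerSeries ℂ) *
    q ^ n) 1 (fun n hn => by simp [PowerSeries.coeff_X, hn])
  simpa using this

theorem Ser.smul {f : ℂ → ℂ} {S : PowerSeries ℂ} (c : ℂ) (hf : Ser f S) :
    Ser (fun q => c * f q) (c • S) := by
  have := (Ser.const c).mul hf
  rwa [← PowerSeries.smul_eq_C_mul] at this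

theorem ex_ser {f : ℂ → ℂ} (h : AnalyticAt ℂ f 0) : Ser f (PowerSeries.mk fun n =>
    iteratedDeriv n f 0 / n.factorial) := by
  rw [ser_iff]
  simpa only [PowerSeries.coeff_mk] using h.hasFPowerSeriesAt

theorem Ser.deriv {f : ℂ → ℂ} {S : PowerSeries ℂ} (hf : Ser f S) :
    Ser (deriv f) (PowerSeries.mk fun n => ((n : ℂ) + 1) * PowerSeries.coeff (n + 1) S) := by
  have h1 := ex_ser hf.analyticAt
  have h2 := ex_ser hf.analyticAt.deriv
  have h3 := hf.unique h1
  convert h2 using 2
  funext n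
  rw [h3, PowerSeries.coeff_mk, iteratedDeriv_succ', Nat.factorial_succ]
  have : ((n : ℂ) + 1) ≠ 0 := by exact_mod_cast Nat.succ_ne_zero n
  have h5 : ((n.factorial : ℕ) : ℂ) ≠ 0 := by exact_mod_cast Nat.factorial_ne_zero n
  push_cast
  field_simp

theorem Ser.theta {f : ℂ → ℂ} {S : PowerSeries ℂ} (hf : Ser f S) :
    Ser (fun q => q * _root_.deriv f q) (thetaD S) := by
  have h := Ser.id.mul hf.deriv
  convert h using 1
  ext n
  unfold thetaD
  rw [PowerSeries.coeff_mk]
  cases n with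
  | zero => simp
  | succ n =>
    rw [PowerSeries.coeff_succ_X_mul, PowerSeries.coeff_mk]
    push_cast
    ring

/-! ### The function `s` -/

/-- `u² / (1 + u² (h(u) + c0))` -/
def sf (L : PeriodPair) (c0 : ℂ) (u : ℂ) : ℂ :=
  u ^ 2 / (1 + u ^ 2 * (L.weierstrassPExcept 0 u + c0))

theorem sf_analytic (L : PeriodPair) (c0 : ℂ) : AnalyticAt ℂ (sf L c0) 0 := by
  unfold sf
  have h := L.analyticAt_weierstrassPExcept 0
  refine AnalyticAt.div (by fun_prop) ?_ (by simp)
  exact analyticAt_const.add ((analyticAt_id.pow 2).mul (h.add analyticAt_const))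

theorem wp_eq (L : PeriodPair) (u : ℂ) :
    L.weierstrassP u = L.weierstrassPExcept 0 u + 1 / u ^ 2 := by
  have h := L.weierstrassPExcept_def ⟨0, L.lattice.zero_mem⟩ u
  simp only [sub_zero] at h
  rw [h]
  ring

theorem sf_eq (L : PeriodPair) (c0 u : ℂ) (hu : u ≠ 0) :
    sf L c0 u = (L.weierstrassP u + c0)⁻¹ := by
  unfold sf
  rw [wp_eq L u]
  have : L.weierstrassPExcept 0 u + 1 / u ^ 2 + c0 =
      (1 + u ^ 2 * (L.weierstrassPExcept 0 u + c0)) / u ^ 2 := by
    field_simp
    ring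
  rw [this, inv_div]

/-- the differential equation of `s` -/
theorem sf_ode (L : PeriodPair) (c0 a2 a4 a6 : ℂ)
    (hrel : ∀ u : ℂ, u ∉ L.lattice → L.derivWeierstrassP u ^ 2 / 4 =
      (L.weierstrassP u + c0) ^ 3 + a2 * (L.weierstrassP u + c0) ^ 2 +
        a4 * (L.weierstrassP u + c0) + a6) :
    ∀ᶠ u in 𝓝 (0 : ℂ), deriv (sf L c0) u ^ 2 =
      4 * sf L c0 u * (1 + a2 * sf L c0 u + a4 * sf L c0 u ^ 2 + a6 * sf L c0 u ^ 3) := by
  have hs := sf_analytic L c0
  have hA : AnalyticAt ℂ (fun u => deriv (sf L c0) u ^ 2) 0 := hs.deriv.pow 2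
  have hB : AnalyticAt ℂ (fun u => 4 * sf L c0 u * (1 + a2 * sf L c0 u + a4 * sf L c0 u ^ 2 +
      a6 * sf L c0 u ^ 3)) 0 := by
    fun_prop
  refine (hA.frequently_eq_iff_eventually_eq hB).1 (Eventually.frequently ?_)
  -- the denominator does not vanish
  have hden : ∀ᶠ u in 𝓝 (0 : ℂ), 1 + u ^ 2 * (L.weierstrassPExcept 0 u + c0) ≠ 0 := by
    have hc : ContinuousAt (fun u => 1 + u ^ 2 * (L.weierstrassPExcept 0 u + c0)) 0 := by
      have h := (L.analyticAt_weierstrassPExcept 0).continuousAt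
      exact continuousAt_const.add ((continuousAt_id.pow 2).mul (h.add continuousAt_const))
    exact hc.eventually_ne (by simp)
  have hlat : ∀ᶠ u in 𝓝[≠] (0 : ℂ), u ∉ L.lattice := by
    have h1 := L.compl_lattice_sdiff_singleton_mem_nhds 0
    filter_upwards [nhdsWithin_le_nhds h1, self_mem_nhdsWithin] with u hu hu0 hul
    exact hu ⟨hul, hu0⟩
  filter_upwards [nhdsWithin_le_nhds hden, hlat, self_mem_nhdsWithin] with u h1 h2 h3
  have hu0 : u ≠ 0 := h3
  have hx : L.weierstrassP u + c0 ≠ 0 := by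
    have h4 := sf_eq L c0 u hu0
    intro h5
    rw [h5, inv_zero] at h4
    unfold sf at h4
    rw [div_eq_zero_iff] at h4
    rcases h4 with h4 | h4
    · exact hu0 (pow_eq_zero_iff (two_ne_zero) |>.1 h4)
    · exact h1 h4
  have hev : sf L c0 =ᶠ[𝓝 u] fun v => (L.weierstrassP v + c0)⁻¹ := by
    filter_upwards [isOpen_ne.mem_nhds hu0] with v hv
    exact sf_eq L c0 v hv
  have hdw : HasDerivAt L.weierstrassP (L.derivWeierstrassP u) u := by
    have h5 : DifferentiableAt ℂ L.weierstrassP u :=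
      (L.analyticOnNhd_weierstrassP u h2).differentiableAt
    have h6 := h5.hasDerivAt
    rwa [L.deriv_weierstrassP] at h6
  have hd : deriv (sf L c0) u = -L.derivWeierstrassP u / (L.weierstrassP u + c0) ^ 2 := by
    rw [hev.deriv_eq]
    exact ((hdw.add_const c0).inv hx).deriv
  have hr := hrel u h2
  rw [hd, sf_eq L c0 u hu0]
  have hr' : L.derivWeierstrassP u ^ 2 = 4 * ((L.weierstrassP u + c0) ^ 3 +
      a2 * (L.weierstrassP u + c0) ^ 2 + a4 * (L.weierstrassP u + c0) + a6) := by
    linear_combination 4 * hr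
  rw [div_pow, neg_sq, hr']
  field_simp

end ODE

open Pool.Agent.MU3Q.ODE Filter in
theorem t_ODE : St_ODE := by
  intro L c0 a2 a4 a6 hrel Z z hZ hz0 hz1
  -- the function `φ`
  set φ : ℂ → ℂ := fun q => ∑' n : ℕ, PowerSeries.coeff n z * q ^ n with hφdef
  have hφZ : ∀ τ : ℍ, φ (qq τ) = Z τ := fun τ => (hZ τ).tsum_eq
  have hφ : Ser φ z := by
    have h1 := (hZ UpperHalfPlane.I).summable
    set q0 : ℝ := ‖qq UpperHalfPlane.I‖ with hq0
    have hq0pos : 0 < q0 := norm_pos_iff.2 (Complex.exp_ne_zero _)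
    obtain ⟨C, hC⟩ : ∃ C : ℝ, ∀ n : ℕ, ‖PowerSeries.coeff n z * qq UpperHalfPlane.I ^ n‖ ≤ C := by
      obtain ⟨C, hC⟩ := (h1.tendsto_atTop_zero.norm).bddAbove_range
      exact ⟨C, fun n => hC ⟨n, rfl⟩⟩
    unfold Ser
    filter_upwards [Metric.ball_mem_nhds (0 : ℂ) hq0pos] with q hq
    rw [Metric.mem_ball, dist_zero_right] at hq
    have hr : ‖q‖ / q0 < 1 := (div_lt_one hq0pos).2 hq
    have h2 : Summable (fun n : ℕ => PowerSeries.coeff n z * q ^ n) := by
      refine Summable.of_norm_bounded (g := fun n : ℕ => C * (‖q‖ / q0) ^ n)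
        ((summable_geometric_of_lt_one (by positivity) hr).mul_left C) (fun n => ?_)
      have h3 := hC n
      rw [norm_mul, norm_pow, ← hq0] at h3
      rw [norm_mul, norm_pow, div_pow]
      calc ‖PowerSeries.coeff n z‖ * ‖q‖ ^ n
          = (‖PowerSeries.coeff n z‖ * q0 ^ n) * (‖q‖ ^ n / q0 ^ n) := by
            field_simp
        _ ≤ C * (‖q‖ ^ n / q0 ^ n) := mul_le_mul_of_nonneg_right h3 (by positivity)
    exact h2.hasSum
  have hφ0 : φ 0 = 0 := by rw [hφ.zero_eq, hz0]
  have hs := sf_analytic L c0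
  have hs' : AnalyticAt ℂ (sf L c0) (φ 0) := by rwa [hφ0]
  -- the composition
  set F : ℂ → ℂ := fun q => sf L c0 (φ q) with hFdef
  have hFan : AnalyticAt ℂ F 0 := hs'.comp hφ.analyticAt
  have hF := ex_ser hFan
  set S : PowerSeries ℂ := PowerSeries.mk fun n => iteratedDeriv n F 0 / n.factorial with hSdef
  -- the low coefficients
  obtain ⟨z', hz'⟩ : (PowerSeries.X : PowerSeries ℂ) ∣ z := by
    rw [PowerSeries.X_dvd_iff, ← PowerSeries.coeff_zero_eq_constantCoeff_apply, hz0]
  have hz'1 : PowerSeries.coeff 0 z' = PowerSeries.coeff 1 z := by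
    rw [hz']
    have := PowerSeries.coeff_succ_X_mul 0 z'
    rw [← this]
  have hk : AnalyticAt ℂ (fun q => 1 / (1 + φ q ^ 2 * (L.weierstrassPExcept 0 (φ q) + c0))) 0 := by
    have h1 : AnalyticAt ℂ (L.weierstrassPExcept 0) (φ 0) := by
      rw [hφ0]
      exact L.analyticAt_weierstrassPExcept 0
    have h2 := h1.comp hφ.analyticAt
    refine AnalyticAt.div analyticAt_const ?_ (by simp [hφ0])
    exact analyticAt_const.add ((hφ.analyticAt.pow 2).mul (h2.add analyticAt_const))
  have hK := ex_ser hk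
  set K : PowerSeries ℂ := PowerSeries.mk fun n => iteratedDeriv n
    (fun q => 1 / (1 + φ q ^ 2 * (L.weierstrassPExcept 0 (φ q) + c0))) 0 / n.factorial with hKdef
  have hK0 : PowerSeries.coeff 0 K = 1 := by
    rw [← hK.zero_eq, hφ0]
    simp
  have hSK : S = PowerSeries.X ^ 2 * (z' ^ 2 * K) := by
    have h1 := (hφ.mul hφ).mul hK
    have h2 : Ser F (z * z * K) := by
      refine h1.congr (Eventually.of_forall fun q => ?_)
      simp only [hFdef, sf]
      ring
    rw [hF.unique h2, hz']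
    ring
  refine ⟨S, ?_, ?_, ?_, ?_, ?_⟩
  · rw [hSK, PowerSeries.coeff_X_pow_mul']
    simp
  · rw [hSK, PowerSeries.coeff_X_pow_mul']
    simp
  · rw [hSK, PowerSeries.coeff_X_pow_mul']
    have : (2 : ℕ) ≤ 2 := le_rfl
    rw [if_pos this, Nat.sub_self, PowerSeries.coeff_zero_eq_constantCoeff_apply, map_mul, map_pow,
      ← PowerSeries.coeff_zero_eq_constantCoeff_apply, ← PowerSeries.coeff_zero_eq_constantCoeff_apply,
      hK0, hz'1, mul_one]
  · -- the differential equation
    have hode := sf_ode L c0 a2 a4 a6 hrel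
    have htend : Tendsto φ (𝓝 0) (𝓝 0) := by
      have := hφ.analyticAt.continuousAt.tendsto
      rwa [hφ0] at this
    have e1 := htend.eventually hode
    have e2 := htend.eventually hs.eventually_analyticAt
    have e3 := hφ.analyticAt.eventually_analyticAt
    have hL : Ser (fun q => (q * deriv F q) * (q * deriv F q)) (thetaD S * thetaD S) :=
      hF.theta.mul hF.theta
    have hR : Ser (fun q => (4 * F q) * (1 + a2 * F q + a4 * (F q * F q) +
        a6 * (F q * F q * F q)) * ((q * deriv φ q) * (q * deriv φ q)))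
        ((PowerSeries.C 4 * S) * (PowerSeries.C 1 + a2 • S + a4 • (S * S) + a6 • (S * S * S)) *
          (thetaD z * thetaD z)) := by
      exact (((Ser.const 4).mul hF).mul (((((Ser.const 1).add (hF.smul a2)).add
        ((hF.mul hF).smul a4))).add (((hF.mul hF).mul hF).smul a6))).mul (hφ.theta.mul hφ.theta)
    have hL' : Ser (fun q => (4 * F q) * (1 + a2 * F q + a4 * (F q * F q) +
        a6 * (F q * F q * F q)) * ((q * deriv φ q) * (q * deriv φ q))) (thetaD S * thetaD S) := by
      refine hL.congr ?_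
      filter_upwards [e1, e2, e3] with q h1 h2 h3
      have h4 : deriv F q = deriv (sf L c0) (φ q) * deriv φ q := by
        have := deriv_comp q h2.differentiableAt h3.differentiableAt
        exact this
      rw [h4]
      have h5 : F q = sf L c0 (φ q) := rfl
      rw [h5]
      linear_combination (q * deriv φ q) ^ 2 * h1
    have h6 := hL'.unique hR
    have h7 : (PowerSeries.C (4 : ℂ)) = (4 : PowerSeries ℂ) := map_ofNat _ 4
    have h8 : (PowerSeries.C (1 : ℂ)) = (1 : PowerSeries ℂ) := map_one _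
    rw [h7, h8] at h6
    rw [sq, h6, sq, sq, pow_succ S 2, sq]
  · -- the values
    have hne : ∀ᶠ q in 𝓝[≠] (0 : ℂ), φ q ≠ 0 := by
      rcases hφ.analyticAt.eventually_eq_zero_or_eventually_ne_zero with h | h
      · exfalso
        have h1 : Ser φ (PowerSeries.C 0) :=
          (Ser.const 0).congr (h.mono fun q hq => hq.symm)
        have h2 := hφ.unique h1
        apply hz1
        rw [h2]
        simp
      · exact h
    have hev : ∀ᶠ q in 𝓝[≠] (0 : ℂ), HasSum (fun n : ℕ => PowerSeries.coeff n S * q ^ n)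
        ((L.weierstrassP (φ q) + c0)⁻¹) := by
      filter_upwards [hne, nhdsWithin_le_nhds hF] with q h1 h2
      rw [← sf_eq L c0 (φ q) h1]
      exact h2
    rw [eventually_nhdsWithin_iff, Metric.eventually_nhds_iff] at hev
    obtain ⟨ε, hε, hev⟩ := hev
    refine ⟨-(Real.log ε) / (2 * Real.pi), fun τ hτ => ?_⟩
    have hqn : ‖qq τ‖ < ε := by
      unfold qq
      rw [Complex.norm_exp]
      have h1 : (2 * (Real.pi : ℂ) * Complex.I * (τ : ℂ)).re = -(2 * Real.pi * τ.im) := by
        simp [Complex.mul_re, Complex.mul_im]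
      rw [h1]
      have hpi : 0 < 2 * Real.pi := by positivity
      rw [div_lt_iff₀ hpi] at hτ
      rw [← Real.lt_log_iff_exp_lt hε]
      linarith
    have h2 := hev (y := qq τ) (by rwa [dist_zero_right]) (Complex.exp_ne_zero _)
    rwa [hφZ τ] at h2

end

end Pool.Agent.MU3Q
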