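import Pool.Agent.MU3.StQ

/-!
# MU3, block WQ: module ODEK, the coefficients of a solution of the differential equation
-/

set_option autoImplicit false

namespace Pool.Agent.MU3Q

open PowerSeries

noncomputable section

namespace Q_ODEK

/-- The power series with coefficients in `K`. -/
def KS (K : Subfield ℂ) : Subring (PowerSeries ℂ) := (PowerSeries.map K.subtype).range

lemma mem_KS (K : Subfield ℂ) (u : PowerSeries ℂ) :
    u ∈ KS K ↔ ∀ n, PowerSeries.coeff n u ∈ K := by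
  constructor
  · rintro ⟨v, rfl⟩ n
    rw [PowerSeries.coeff_map]
    exact (PowerSeries.coeff n v).2
  · intro h
    refine ⟨PowerSeries.mk fun n => (⟨PowerSeries.coeff n u, h n⟩ : K), ?_⟩
    ext n
    rw [PowerSeries.coeff_map, PowerSeries.coeff_mk]
    rfl

lemma coeff_thetaD (S : PowerSeries ℂ) (n : ℕ) :
    PowerSeries.coeff n (thetaD S) = (n : ℂ) * PowerSeries.coeff n S := by
  rw [thetaD, PowerSeries.coeff_mk]

lemma thetaD_mem {K : Subfield ℂ} {u : PowerSeries ℂ} (hu : u ∈ KS K) : thetaD u ∈ KS K := by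
  rw [mem_KS] at *
  intro n
  rw [coeff_thetaD]
  exact mul_mem (natCast_mem K n) (hu n)

lemma C_mem {K : Subfield ℂ} {a : ℂ} (ha : a ∈ K) : PowerSeries.C a ∈ KS K := by
  rw [mem_KS]
  intro n
  rw [PowerSeries.coeff_C]
  split_ifs
  · exact ha
  · exact zero_mem K

lemma step (K : Subfield ℂ) (a2 a4 a6 : ℂ) (z S : PowerSeries ℂ) (h2 : a2 ∈ K) (h4 : a4 ∈ K)
    (h6 : a6 ∈ K) (hz : ∀ n, PowerSeries.coeff n z ∈ K)
    (hz1 : PowerSeries.coeff 1 z ≠ 0) (hS0 : PowerSeries.coeff 0 S = 0)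
    (hS1 : PowerSeries.coeff 1 S = 0)
    (hS2 : PowerSeries.coeff 2 S = PowerSeries.coeff 1 z ^ 2)
    (hode : thetaD S ^ 2 = 4 * S * (1 + a2 • S + a4 • S ^ 2 + a6 • S ^ 3) * thetaD z ^ 2)
    (k : ℕ) (ih : ∀ m < k + 3, PowerSeries.coeff m S ∈ K) : PowerSeries.coeff (k + 3) S ∈ K := by
  set S' : PowerSeries ℂ := PowerSeries.mk fun m => if m < k + 3 then PowerSeries.coeff m S else 0
    with hS'
  have cS' : ∀ m, PowerSeries.coeff m S' = if m < k + 3 then PowerSeries.coeff m S else 0 :=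
    fun m => PowerSeries.coeff_mk _ _
  have hS'K : S' ∈ KS K := by
    rw [mem_KS]
    intro m
    rw [cS']
    split_ifs with h
    · exact ih m h
    · exact zero_mem K
  -- decompositions
  obtain ⟨R, hR⟩ : (X : PowerSeries ℂ) ^ (k + 3) ∣ S - S' := by
    rw [PowerSeries.X_pow_dvd_iff]
    intro m hm
    rw [map_sub, cS', if_pos hm, sub_self]
  have hR0 : PowerSeries.constantCoeff R = PowerSeries.coeff (k + 3) S := by
    have h := congrArg (PowerSeries.coeff (0 + (k + 3))) hR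
    rw [PowerSeries.coeff_X_pow_mul, map_sub, zero_add, cS', if_neg (lt_irrefl _), sub_zero] at h
    rw [h, PowerSeries.coeff_zero_eq_constantCoeff_apply]
  obtain ⟨Q, hQ⟩ : (X : PowerSeries ℂ) ^ (k + 3) ∣ thetaD S - thetaD S' := by
    rw [PowerSeries.X_pow_dvd_iff]
    intro m hm
    rw [map_sub, coeff_thetaD, coeff_thetaD, cS', if_pos hm, sub_self]
  have hQ0 : PowerSeries.constantCoeff Q = ((k + 3 : ℕ) : ℂ) * PowerSeries.coeff (k + 3) S := by
    have h := congrArg (PowerSeries.coeff (0 + (k + 3))) hQ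
    rw [PowerSeries.coeff_X_pow_mul, map_sub, zero_add, coeff_thetaD, coeff_thetaD, cS',
      if_neg (lt_irrefl _), mul_zero, sub_zero] at h
    rw [h, PowerSeries.coeff_zero_eq_constantCoeff_apply]
  obtain ⟨T, hT⟩ : (X : PowerSeries ℂ) ^ 2 ∣ thetaD S' := by
    rw [PowerSeries.X_pow_dvd_iff]
    intro m hm
    rw [coeff_thetaD, cS', if_pos (by omega)]
    rcases (show m = 0 ∨ m = 1 by omega) with rfl | rfl
    · rw [hS0, mul_zero]
    · rw [hS1, mul_zero]
  have hT0 : PowerSeries.constantCoeff T = 2 * PowerSeries.coeff 1 z ^ 2 := by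
    have h := congrArg (PowerSeries.coeff (0 + 2)) hT
    rw [PowerSeries.coeff_X_pow_mul, zero_add, coeff_thetaD, cS', if_pos (by omega), hS2] at h
    rw [← PowerSeries.coeff_zero_eq_constantCoeff_apply, ← h]
    norm_num
  obtain ⟨W, hW⟩ : (X : PowerSeries ℂ) ^ 1 ∣ thetaD z := by
    rw [PowerSeries.X_pow_dvd_iff]
    intro m hm
    obtain rfl : m = 0 := by omega
    rw [coeff_thetaD, Nat.cast_zero, zero_mul]
  have hW0 : PowerSeries.constantCoeff W = PowerSeries.coeff 1 z := by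
    have h := congrArg (PowerSeries.coeff (0 + 1)) hW
    rw [PowerSeries.coeff_X_pow_mul, zero_add, coeff_thetaD] at h
    rw [← PowerSeries.coeff_zero_eq_constantCoeff_apply, ← h]
    norm_num
  have hSc : PowerSeries.constantCoeff S = 0 := by
    rw [← PowerSeries.coeff_zero_eq_constantCoeff_apply, hS0]
  have hS'c : PowerSeries.constantCoeff S' = 0 := by
    rw [← PowerSeries.coeff_zero_eq_constantCoeff_apply, cS', if_pos (by omega), hS0]
  simp only [PowerSeries.smul_eq_C_mul] at hode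
  set G : PowerSeries ℂ := 1 + C a2 * (S + S') + C a4 * (S ^ 2 + S * S' + S' ^ 2) +
    C a6 * (S ^ 3 + S ^ 2 * S' + S * S' ^ 2 + S' ^ 3) with hG
  have hG0 : PowerSeries.constantCoeff G = 1 := by
    rw [hG]
    simp [hSc, hS'c]
  have key : thetaD S' ^ 2 -
      4 * S' * (1 + C a2 * S' + C a4 * S' ^ 2 + C a6 * S' ^ 3) * thetaD z ^ 2 =
      X ^ (k + 5) * (4 * R * G * W ^ 2 - 2 * Q * T - X ^ (k + 1) * Q ^ 2) := by
    have e1 : thetaD S = thetaD S' + X ^ (k + 3) * Q := by rw [← hQ]; ring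
    have e2 : thetaD S' ^ 2 = thetaD S ^ 2 - 2 * (X ^ (k + 3) * Q) * (X ^ 2 * T) -
        (X ^ (k + 3) * Q) ^ 2 := by
      rw [← hT, e1]
      ring
    have e3 : 4 * S' * (1 + C a2 * S' + C a4 * S' ^ 2 + C a6 * S' ^ 3) =
        4 * S * (1 + C a2 * S + C a4 * S ^ 2 + C a6 * S ^ 3) - 4 * (X ^ (k + 3) * R) * G := by
      rw [← hR, hG]
      ring
    rw [e2, e3, hode, hW]
    ring
  have hmem : thetaD S' ^ 2 -
      4 * S' * (1 + C a2 * S' + C a4 * S' ^ 2 + C a6 * S' ^ 3) * thetaD z ^ 2 ∈ KS K := by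
    have hzK : z ∈ KS K := (mem_KS K z).2 hz
    have h4K : (4 : PowerSeries ℂ) ∈ KS K := by
      have := natCast_mem (KS K) 4
      simpa using this
    exact sub_mem (pow_mem (thetaD_mem hS'K) 2) (mul_mem (mul_mem (mul_mem h4K hS'K)
      (add_mem (add_mem (add_mem (one_mem _) (mul_mem (C_mem h2) hS'K))
        (mul_mem (C_mem h4) (pow_mem hS'K 2))) (mul_mem (C_mem h6) (pow_mem hS'K 3))))
      (pow_mem (thetaD_mem hzK) 2))
  rw [key] at hmem
  have hc := (mem_KS K _).1 hmem (0 + (k + 5))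
  rw [PowerSeries.coeff_X_pow_mul, PowerSeries.coeff_zero_eq_constantCoeff_apply] at hc
  have hval : PowerSeries.constantCoeff (4 * R * G * W ^ 2 - 2 * Q * T - X ^ (k + 1) * Q ^ 2) =
      -(4 * ((k : ℂ) + 2) * PowerSeries.coeff 1 z ^ 2) * PowerSeries.coeff (k + 3) S := by
    have e4 : PowerSeries.constantCoeff (4 : PowerSeries ℂ) = 4 := by
      have := map_natCast (PowerSeries.constantCoeff (R := ℂ)) 4
      simpa using this
    have e5 : PowerSeries.constantCoeff (2 : PowerSeries ℂ) = 2 := by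
      have := map_natCast (PowerSeries.constantCoeff (R := ℂ)) 2
      simpa using this
    rw [map_sub, map_sub, map_mul, map_mul, map_mul, map_mul, map_mul, map_mul, map_pow,
      map_pow, map_pow, e4, e5, hR0, hG0, hW0, hQ0, hT0, PowerSeries.constantCoeff_X,
      zero_pow (by omega)]
    push_cast
    ring
  rw [hval] at hc
  have hne : -(4 * ((k : ℂ) + 2) * PowerSeries.coeff 1 z ^ 2) ≠ 0 := by
    have hk : (k : ℂ) + 2 ≠ 0 := by
      have : ((k + 2 : ℕ) : ℂ) ≠ 0 := Nat.cast_ne_zero.2 (by omega)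
      push_cast at this
      exact this
    exact neg_ne_zero.2 (mul_ne_zero (mul_ne_zero (by norm_num) hk) (pow_ne_zero 2 hz1))
  have hcK : -(4 * ((k : ℂ) + 2) * PowerSeries.coeff 1 z ^ 2) ∈ K := by
    have h1 : ((4 : ℕ) : ℂ) ∈ K := natCast_mem K 4
    have h3 : (k : ℂ) + ((2 : ℕ) : ℂ) ∈ K := add_mem (natCast_mem K k) (natCast_mem K 2)
    push_cast at h1 h3
    exact neg_mem (mul_mem (mul_mem h1 h3) (pow_mem (hz 1) 2))
  have hfin := K.div_mem hc hcK
  rwa [mul_div_cancel_left₀ _ hne] at hfin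

end Q_ODEK

/-- ODEK. -/
theorem t_ODEK : St_ODEK := by
  intro K a2 a4 a6 z S h2 h4 h6 hz _ hz1 hS0 hS1 hS2 hode n
  induction n using Nat.strong_induction_on with
  | _ n ih =>
    rcases (show n = 0 ∨ n = 1 ∨ n = 2 ∨ ∃ k, n = k + 3 by
      rcases Nat.lt_or_ge n 3 with h | h
      · omega
      · exact Or.inr (Or.inr (Or.inr ⟨n - 3, by omega⟩))) with rfl | rfl | rfl | ⟨k, rfl⟩
    · rw [hS0]; exact zero_mem K
    · rw [hS1]; exact zero_mem K
    · rw [hS2]; exact pow_mem (hz 1) 2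
    · exact Q_ODEK.step K a2 a4 a6 z S h2 h4 h6 hz hz1 hS0 hS1 hS2 hode k ih

end

end Pool.Agent.MU3Q
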