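import Pool.Agent.MU3.StQ

/-!
# MU3, block WQ: module PFIN (helper50)
-/

set_option autoImplicit false

namespace Pool.Agent.MU3Q

open UpperHalfPlane ModularForm EisensteinSeries Filter Topology
open scoped MatrixGroups

noncomputable section

namespace PFIN50

/-- No poles near `i ∞`. -/
theorem no_poles (X : ℍ → ℂ) (hX : Mer X) :
    ∃ Y : ℝ, ∀ τ : ℍ, Y < τ.im → 0 ≤ meromorphicOrderAt (X ∘ ofComplex) (τ : ℂ) := by
  obtain ⟨-, M, g, Y, hM, hg, hXg⟩ := hX
  have h1 := hg.eventually_analyticAt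
  rw [eventually_nhdsWithin_iff, Metric.eventually_nhds_iff] at h1
  obtain ⟨r, hr, h1⟩ := h1
  have hMpos : (0 : ℝ) < M := by exact_mod_cast hM
  have hM0 : (M : ℂ) ≠ 0 := by exact_mod_cast hM.ne'
  -- choice of the height
  set Y' : ℝ := max Y (-(M / (2 * Real.pi)) * Real.log r) with hY'
  refine ⟨Y', fun τ hτ => ?_⟩
  have hτ1 : Y < τ.im := (le_max_left _ _).trans_lt hτ
  have hτ2 : -(M / (2 * Real.pi)) * Real.log r < τ.im := (le_max_right _ _).trans_lt hτ
  have hq : ∀ z : ℂ, ‖Complex.exp (2 * Real.pi * Complex.I * z / M)‖ =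
      Real.exp (-(2 * Real.pi * z.im / M)) := by
    intro z
    rw [Complex.norm_exp]
    congr 1
    have e : 2 * Real.pi * Complex.I * z / M = ((2 * Real.pi / M : ℝ) : ℂ) * (Complex.I * z) := by
      push_cast
      ring
    rw [e, Complex.re_ofReal_mul]
    simp only [Complex.mul_re, Complex.I_re, Complex.I_im, zero_mul, one_mul, zero_sub]
    ring
  have hlt : ‖Complex.exp (2 * Real.pi * Complex.I * (τ : ℂ) / M)‖ < r := by
    rw [hq]
    have h3 : -(2 * Real.pi * (τ : ℂ).im / M) < Real.log r := by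
      have h4 : 0 < 2 * Real.pi := by positivity
      have h5 : (τ : ℂ).im = τ.im := rfl
      rw [h5]
      have h6 : -(Real.log r) < 2 * Real.pi * τ.im / M := by
        rw [lt_div_iff₀ hMpos]
        have h7 := mul_lt_mul_of_pos_left hτ2 h4
        have h8 : 2 * Real.pi * (-(M / (2 * Real.pi)) * Real.log r) = -(Real.log r) * M := by
          field_simp
        linarith
      linarith
    calc Real.exp (-(2 * Real.pi * (τ : ℂ).im / M)) < Real.exp (Real.log r) :=
          Real.exp_lt_exp.2 h3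
      _ = r := Real.exp_log hr
  have han : AnalyticAt ℂ g (Complex.exp (2 * Real.pi * Complex.I * (τ : ℂ) / M)) := by
    apply h1
    · rw [dist_zero_right]
      exact hlt
    · exact Complex.exp_ne_zero _
  have han2 : AnalyticAt ℂ (fun z : ℂ => g (Complex.exp (2 * Real.pi * Complex.I * z / M)))
      (τ : ℂ) := by
    apply AnalyticAt.fun_comp (f := fun z : ℂ => Complex.exp (2 * Real.pi * Complex.I * z / M)) han
    fun_prop (disch := exact hM0)
  have hev : X ∘ ofComplex =ᶠ[𝓝 (τ : ℂ)]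
      fun z : ℂ => g (Complex.exp (2 * Real.pi * Complex.I * z / M)) := by
    have hopen : IsOpen {z : ℂ | max Y 0 < z.im} := isOpen_lt continuous_const Complex.continuous_im
    have hmem : (τ : ℂ) ∈ {z : ℂ | max Y 0 < z.im} := max_lt hτ1 τ.im_pos
    filter_upwards [hopen.mem_nhds hmem] with z hz
    have hz1 : Y < z.im := (le_max_left _ _).trans_lt hz
    have hz0 : 0 < z.im := (le_max_right _ _).trans_lt hz
    have e : ofComplex z = ⟨z, hz0⟩ := ofComplex_apply_of_im_pos hz0
    rw [Function.comp_apply, e]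
    exact hXg ⟨z, hz0⟩ hz1
  rw [meromorphicOrderAt_congr (hev.filter_mono nhdsWithin_le_nhds)]
  exact han2.meromorphicOrderAt_nonneg

end PFIN50

open PFIN50 in
theorem t_PFIN : St_PFIN := by
  intro X hX
  obtain ⟨Y, hY⟩ := no_poles X hX
  have hm := hX.1
  by_contra hinf
  rw [← Set.Infinite] at hinf
  set S : Set ℍ :=
    {τ : ℍ | τ ∈ ModularGroup.fd ∧ meromorphicOrderAt (X ∘ ofComplex) (τ : ℂ) < 0} with hS
  have hinf2 : ((fun τ : ℍ => (τ : ℂ)) '' S).Infinite :=
    hinf.image (fun a _ b _ h => UpperHalfPlane.ext h)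
  set K : Set ℂ := {z : ℂ | |z.re| ≤ 1 / 2 ∧ 1 / 2 ≤ z.im ∧ z.im ≤ Y} with hK
  have hKc : IsCompact K := by
    apply Metric.isCompact_of_isClosed_isBounded
    · have e : K = {z : ℂ | |z.re| ≤ 1 / 2} ∩ ({z : ℂ | 1 / 2 ≤ z.im} ∩ {z : ℂ | z.im ≤ Y}) := rfl
      rw [e]
      exact (isClosed_le Complex.continuous_re.abs continuous_const).inter
        ((isClosed_le continuous_const Complex.continuous_im).inter
          (isClosed_le Complex.continuous_im continuous_const))
    · rw [isBounded_iff_forall_norm_le]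
      refine ⟨1 / 2 + |Y|, fun z hz => ?_⟩
      obtain ⟨h1, h2, h3⟩ := hz
      have h4 := Complex.norm_le_abs_re_add_abs_im z
      have h5 : |z.im| ≤ |Y| := by
        rw [abs_of_pos (by linarith : (0 : ℝ) < z.im)]
        exact h3.trans (le_abs_self Y)
      linarith
  have hsub : (fun τ : ℍ => (τ : ℂ)) '' S ⊆ K := by
    rintro _ ⟨τ, ⟨hfd, hord⟩, rfl⟩
    have h1 : |τ.re| ≤ 1 / 2 := hfd.2
    have h2 : 1 ≤ Complex.normSq (τ : ℂ) := hfd.1
    have h3 : ¬ Y < τ.im := fun h => absurd (hY τ h) (not_le.2 hord)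
    have h4 := τ.im_pos
    have h5 : Complex.normSq (τ : ℂ) = τ.re * τ.re + τ.im * τ.im := Complex.normSq_apply _
    have h6 := abs_le.1 h1
    refine ⟨h1, ?_, not_lt.1 h3⟩
    change 1 / 2 ≤ τ.im
    nlinarith [h6.1, h6.2]
  obtain ⟨z, hzK, hacc⟩ := hinf2.exists_accPt_of_subset_isCompact hKc hsub
  rw [accPt_iff_frequently_nhdsNE] at hacc
  have hz0 : 0 < z.im := by
    have := hzK.2.1
    linarith
  have h1 := (hm z hz0).eventually_analyticAt
  obtain ⟨w, hw, hw2⟩ := (hacc.and_eventually h1).exists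
  obtain ⟨τ, ⟨-, hord⟩, rfl⟩ := hw
  exact absurd hw2.meromorphicOrderAt_nonneg (not_le.2 hord)

end

end Pool.Agent.MU3Q
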