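import Pool.Agent.MU3.StQ

/-!
# MU3, block WQ, module POLE: a common denominator
-/

set_option autoImplicit false

namespace Pool.Agent.MU3Q

open UpperHalfPlane ModularForm EisensteinSeries Filter
open scoped MatrixGroups Topology

noncomputable section

namespace POLE

lemma UU_mem (τ : ℍ) : {z : ℂ | 0 < z.im} ∈ 𝓝 (τ : ℂ) :=
  (isOpen_lt continuous_const Complex.continuous_im).mem_nhds τ.2

lemma Hol.analyticAt {F : ℍ → ℂ} (hF : Hol F) (τ : ℍ) : AnalyticAt ℂ (F ∘ ofComplex) (τ : ℂ) :=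
  DifferentiableOn.analyticAt hF (UU_mem τ)

lemma exists_Y_norm_lt (M : ℕ) (hM : 0 < M) (r : ℝ) (hr : 0 < r) :
    ∃ Y : ℝ, ∀ z : ℂ, Y < z.im →
      ‖Complex.exp (2 * Real.pi * Complex.I * z / M)‖ < r := by
  have hM' : (0 : ℝ) < M := by exact_mod_cast hM
  refine ⟨-(Real.log r) * M / (2 * Real.pi), ?_⟩
  intro z hz
  have h1 : (2 * Real.pi * Complex.I * z / M).re = -(2 * Real.pi * z.im / M) := by
    have : (2 * Real.pi * Complex.I * z / M) = ((2 * Real.pi / M : ℝ) : ℂ) * (Complex.I * z) := by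
      push_cast; ring
    rw [this, Complex.re_ofReal_mul]
    simp
    ring
  rw [Complex.norm_exp, h1, ← Real.lt_log_iff_exp_lt hr]
  rw [div_lt_iff₀ (by positivity)] at hz
  have h2 : 2 * Real.pi * z.im / M * M = z.im * (2 * Real.pi) := by
    field_simp
  by_contra hcon
  push Not at hcon
  have h3 : 2 * Real.pi * z.im / M * M ≤ -Real.log r * M := by
    refine mul_le_mul_of_nonneg_right ?_ hM'.le
    linarith
  linarith

/-- near `i ∞` the function is analytic -/
lemma Mer.analyticAt {X : ℍ → ℂ} (hX : Mer X) :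
    ∃ Y : ℝ, ∀ τ : ℍ, Y < τ.im → AnalyticAt ℂ (X ∘ ofComplex) (τ : ℂ) := by
  obtain ⟨-, M, g, Y, hM, hg, hgX⟩ := hX
  have h1 := hg.eventually_analyticAt
  rw [eventually_nhdsWithin_iff, Metric.eventually_nhds_iff] at h1
  obtain ⟨r, hr, h1⟩ := h1
  obtain ⟨Y', hY'⟩ := exists_Y_norm_lt M hM r hr
  refine ⟨max Y Y', fun τ hτ => ?_⟩
  have h2 : AnalyticAt ℂ g (Complex.exp (2 * Real.pi * Complex.I * (τ : ℂ) / M)) := by
    refine h1 ?_ (Complex.exp_ne_zero _)
    rw [dist_zero_right]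
    exact hY' _ (lt_of_le_of_lt (le_max_right _ _) hτ)
  have h3 : AnalyticAt ℂ (fun z : ℂ => g (Complex.exp (2 * Real.pi * Complex.I * z / M)))
      (τ : ℂ) := by
    refine AnalyticAt.fun_comp (f := fun z : ℂ => Complex.exp (2 * Real.pi * Complex.I * z / M)) h2 ?_
    fun_prop
  refine h3.congr ?_
  have h4 : {z : ℂ | Y < z.im} ∈ 𝓝 (τ : ℂ) :=
    (isOpen_lt continuous_const Complex.continuous_im).mem_nhds
      (lt_of_le_of_lt (le_max_left _ _) hτ)
  filter_upwards [h4, UU_mem τ] with z hz hz0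
  have h5 := hgX ⟨z, hz0⟩ hz
  rw [Function.comp_apply, ofComplex_apply_of_im_pos hz0, h5]

/-- at most a pole at `i ∞` -/
lemma Mer.grow {X : ℍ → ℂ} (hX : Mer X) : Grow X := by
  obtain ⟨-, M, g, Y, hM, ⟨n, hn⟩, hgX⟩ := hX
  have hM' : (0 : ℝ) < M := by exact_mod_cast hM
  have hM1 : (1 : ℝ) ≤ M := by exact_mod_cast hM
  -- the function `z ^ n g z` is bounded near `0`
  have h1 := hn.continuousAt
  obtain ⟨r, hr, h2⟩ := Metric.continuousAt_iff.1 h1 1 one_pos
  set C : ℝ := ‖(fun z : ℂ => (z - 0) ^ n • g z) 0‖ + 1 with hC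
  have h3 : ∀ z : ℂ, ‖z‖ < r → ‖z ^ n * g z‖ ≤ C := by
    intro z hz
    have h4 := h2 (by rwa [dist_zero_right])
    rw [dist_eq_norm] at h4
    have h5 := norm_le_insert' ((z - 0) ^ n • g z) ((0 - 0 : ℂ) ^ n • g 0)
    have h6 : (z - 0) ^ n • g z = z ^ n * g z := by
      simp
    have h7 : C = ‖(0 - 0 : ℂ) ^ n • g 0‖ + 1 := hC
    rw [← h6, h7]
    linarith
  obtain ⟨Y', hY'⟩ := exists_Y_norm_lt M hM r hr
  -- decay of the discriminant
  have h7 : ModularForm.discriminant =O[atImInfty] fun τ => Real.exp (-2 * Real.pi * τ.im / 1) := by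
    have := CuspFormClass.exp_decay_atImInfty (h := 1) CuspForm.discriminant one_pos
      one_mem_strictPeriods_SL
    rwa [CuspForm.coe_discriminant] at this
  obtain ⟨c, hc⟩ := Asymptotics.isBigO_iff.1 h7
  have hc' : ∀ᶠ τ in atImInfty, ‖ModularForm.discriminant τ‖ ≤
      |c| * Real.exp (-2 * Real.pi * τ.im) := by
    filter_upwards [hc] with τ hτ
    rw [div_one, Real.norm_of_nonneg (Real.exp_pos _).le] at hτ
    exact hτ.trans (mul_le_mul_of_nonneg_right (le_abs_self c) (Real.exp_pos _).le)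
  refine ⟨n, ?_⟩
  rw [IsBoundedAtImInfty, BoundedAtFilter, Asymptotics.isBigO_iff]
  refine ⟨|c| ^ n * C, ?_⟩
  have h8 : ∀ᶠ τ : ℍ in atImInfty, max (max Y Y') 0 < τ.im := by
    rw [Filter.Eventually, atImInfty_mem]
    exact ⟨max (max Y Y') 0 + 1, fun z hz => by
      have : max (max Y Y') 0 < z.im := by linarith
      exact this⟩
  filter_upwards [hc', h8] with τ hτ hτY
  have hY1 : Y < τ.im := lt_of_le_of_lt ((le_max_left _ _).trans (le_max_left _ _)) hτY
  have hY2 : Y' < τ.im := lt_of_le_of_lt ((le_max_right _ _).trans (le_max_left _ _)) hτY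
  have hq := h3 _ (hY' (τ : ℂ) hY2)
  set q : ℂ := Complex.exp (2 * Real.pi * Complex.I * (τ : ℂ) / M) with hqdef
  have hq0 : q ≠ 0 := Complex.exp_ne_zero _
  have hqn : ‖q‖ = Real.exp (-(2 * Real.pi * τ.im / M)) := by
    have h1 : (2 * Real.pi * Complex.I * (τ : ℂ) / M).re = -(2 * Real.pi * τ.im / M) := by
      have : (2 * Real.pi * Complex.I * (τ : ℂ) / M) =
          ((2 * Real.pi / M : ℝ) : ℂ) * (Complex.I * (τ : ℂ)) := by
        push_cast; ring
      rw [this, Complex.re_ofReal_mul]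
      simp
      ring
    rw [hqdef, Complex.norm_exp, h1]
  have hle : Real.exp (-2 * Real.pi * τ.im) ≤ ‖q‖ := by
    rw [hqn, Real.exp_le_exp]
    have h9 : 2 * Real.pi * τ.im / M ≤ 2 * Real.pi * τ.im := by
      refine div_le_self ?_ hM1
      have := τ.im_pos
      positivity
    linarith
  have hΔ : ‖ModularForm.discriminant τ‖ ≤ |c| * ‖q‖ :=
    hτ.trans (mul_le_mul_of_nonneg_left hle (abs_nonneg c))
  rw [hgX τ hY1]
  have h10 : ‖ModularForm.discriminant τ ^ n * g q‖ ≤ (|c| * ‖q‖) ^ n * ‖g q‖ := by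
    rw [norm_mul, norm_pow]
    gcongr
  have h11 : (|c| * ‖q‖) ^ n * ‖g q‖ = |c| ^ n * ‖q ^ n * g q‖ := by
    rw [norm_mul, norm_pow]; ring
  simp only [Pi.one_apply, norm_one, mul_one]
  calc ‖ModularForm.discriminant τ ^ n * g q‖ ≤ |c| ^ n * ‖q ^ n * g q‖ := h10.trans h11.le
    _ ≤ |c| ^ n * C := mul_le_mul_of_nonneg_left hq (by positivity)

/-- the order of a polynomial in an analytic function -/
lemma ord_ge {F : ℂ → ℂ} {z : ℂ} (hF : AnalyticAt ℂ F z) (E : Polynomial ℂ) (n : ℕ) :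
    (n : WithTop ℤ) ≤ meromorphicOrderAt
      (fun w => ((Polynomial.X - Polynomial.C (F z)) ^ n * E).eval (F w)) z := by
  have hpol : ∀ P : Polynomial ℂ, AnalyticAt ℂ (fun w => P.eval (F w)) z := fun P =>
    (AnalyticAt.aeval_polynomial hF P).congr (by
      filter_upwards with w
      simp [Polynomial.coe_aeval_eq_eval])
  induction n with
  | zero =>
    simpa using (hpol E).meromorphicOrderAt_nonneg
  | succ n ih =>
    have h1 : AnalyticAt ℂ (fun w => F w - F z) z := hF.sub analyticAt_const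
    have h2 : 0 < meromorphicOrderAt (fun w => F w - F z) z := by
      rw [← tendsto_zero_iff_meromorphicOrderAt_pos h1.meromorphicAt]
      have h3 : Tendsto (fun w => F w - F z) (𝓝 z) (𝓝 (F z - F z)) := h1.continuousAt
      rw [sub_self] at h3
      exact h3.mono_left nhdsWithin_le_nhds
    have h3 : (1 : WithTop ℤ) ≤ meromorphicOrderAt (fun w => F w - F z) z := by
      generalize meromorphicOrderAt (fun w => F w - F z) z = t at h2
      cases t with
      | top => exact le_top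
      | coe k =>
        have : (0 : ℤ) < k := by exact_mod_cast h2
        exact_mod_cast this
    have h4 : (fun w => ((Polynomial.X - Polynomial.C (F z)) ^ (n + 1) * E).eval (F w)) =
        fun w => (F w - F z) * (((Polynomial.X - Polynomial.C (F z)) ^ n * E).eval (F w)) := by
      funext w
      simp only [Polynomial.eval_mul, Polynomial.eval_pow, Polynomial.eval_sub,
        Polynomial.eval_X, Polynomial.eval_C]
      ring
    rw [h4, fun_meromorphicOrderAt_mul h1.meromorphicAt (hpol _).meromorphicAt]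
    have h5 := add_le_add h3 ih
    refine le_trans (le_of_eq ?_) h5
    push_cast
    rw [add_comm]

end POLE

open POLE in
theorem t_POLE (hfin : St_PFIN) (hord : St_PORD) (hnf : St_NF) (hjb : St_JB) : St_POLE := by
  classical
  intro ι _ X hX hperm
  obtain ⟨hjH, hjG, hjinv, -, -, hGop, hcst, -, -⟩ := hjb
  obtain ⟨hnf1, hnf2⟩ := hnf
  have hjan : ∀ τ : ℍ, AnalyticAt ℂ (jf ∘ ofComplex) (τ : ℂ) := fun τ => Hol.analyticAt hjH τ
  -- the poles in the fundamental domain
  have hB : ∀ i, {τ : ℍ | τ ∈ ModularGroup.fd ∧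
      meromorphicOrderAt (X i ∘ ofComplex) (τ : ℂ) < 0}.Finite := fun i => hfin (X i) (hX i)
  let B : ι → Finset ℍ := fun i => (hB i).toFinset
  let m : ι → ℍ → ℕ := fun i τ => (-(meromorphicOrderAt (X i ∘ ofComplex) (τ : ℂ)).untop₀).toNat
  let D : Polynomial ℂ := ∏ i, ∏ τ ∈ B i, (Polynomial.X - Polynomial.C (jf τ)) ^ m i τ
  have hD : D ≠ 0 := Finset.prod_ne_zero_iff.2 fun i _ => Finset.prod_ne_zero_iff.2 fun τ _ =>
    pow_ne_zero _ (Polynomial.X_sub_C_ne_zero _)
  have hDdvd : ∀ i, ∀ τ ∈ B i, (Polynomial.X - Polynomial.C (jf τ)) ^ m i τ ∣ D := by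
    intro i τ hτ
    exact (Finset.dvd_prod_of_mem (fun τ => (Polynomial.X - Polynomial.C (jf τ)) ^ m i τ) hτ).trans
      (Finset.dvd_prod_of_mem
        (fun i => ∏ τ ∈ B i, (Polynomial.X - Polynomial.C (jf τ)) ^ m i τ) (Finset.mem_univ i))
  have hDan : ∀ (P : Polynomial ℂ) (τ : ℍ),
      AnalyticAt ℂ (fun z => P.eval ((jf ∘ ofComplex) z)) (τ : ℂ) := by
    intro P τ
    refine (AnalyticAt.aeval_polynomial (hjan τ) P).congr ?_
    filter_upwards with w
    simp [Polynomial.coe_aeval_eq_eval]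
  let W : ι → ℍ → ℂ := fun i τ => D.eval (jf τ) * X i τ
  have hWeq : ∀ i, W i ∘ ofComplex = fun z => D.eval ((jf ∘ ofComplex) z) *
      (X i ∘ ofComplex) z := fun i => rfl
  have hWmer : ∀ i, MeromorphicOn (W i ∘ ofComplex) {z : ℂ | 0 < z.im} := by
    intro i z hz
    rw [hWeq]
    exact (hDan D ⟨z, hz⟩).meromorphicAt.mul ((hX i).1 z hz)
  have hWord : ∀ i (τ : ℍ), 0 ≤ meromorphicOrderAt (W i ∘ ofComplex) (τ : ℂ) := by
    intro i τ
    have hXm : MeromorphicAt (X i ∘ ofComplex) (τ : ℂ) := (hX i).1 _ τ.2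
    rw [hWeq, fun_meromorphicOrderAt_mul (hDan D τ).meromorphicAt hXm]
    rcases le_or_gt 0 (meromorphicOrderAt (X i ∘ ofComplex) (τ : ℂ)) with h0 | h0
    · exact add_nonneg (hDan D τ).meromorphicOrderAt_nonneg h0
    · obtain ⟨g, hg⟩ := ModularGroup.exists_smul_mem_fd τ
      obtain ⟨k, hk⟩ := hperm g⁻¹ i
      have h1 := (hord (X i) g⁻¹ (hX i).1).2 (g • τ)
      have h2 : (fun τ : ℍ => X i (g⁻¹ • τ)) = X k := funext hk
      rw [h2, inv_smul_smul] at h1
      have h3 : g • τ ∈ B k := by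
        simp only [B, Set.Finite.mem_toFinset, Set.mem_ofPred_eq]
        exact ⟨hg, by rw [h1]; exact h0⟩
      obtain ⟨E, hE⟩ := hDdvd k _ h3
      have h4 : jf (g • τ) = (jf ∘ ofComplex) (τ : ℂ) := by
        rw [hjinv, Function.comp_apply, ofComplex_apply]
      rw [h4] at hE
      have h5 := ord_ge (hjan τ) E (m k (g • τ))
      rw [← hE] at h5
      have h6 : meromorphicOrderAt (X i ∘ ofComplex) (τ : ℂ) =
          ((-(m k (g • τ) : ℤ) : ℤ) : WithTop ℤ) := by
        simp only [m]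
        rw [h1]
        generalize meromorphicOrderAt (X i ∘ ofComplex) (τ : ℂ) = t at h0
        cases t with
        | top => exact absurd h0 (by simp)
        | coe n =>
          have h7 : n < 0 := by exact_mod_cast h0
          rw [WithTop.untop₀_coe, Int.toNat_of_nonneg (by omega), neg_neg]
      rw [h6]
      have h7 := add_le_add h5 (le_refl (((-(m k (g • τ) : ℤ) : ℤ) : WithTop ℤ)))
      refine le_trans (le_of_eq ?_) h7
      have h8 : ((m k (g • τ) : ℕ) : WithTop ℤ) = (((m k (g • τ) : ℕ) : ℤ) : WithTop ℤ) := by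
        push_cast; rfl
      rw [h8, ← WithTop.coe_add, add_neg_cancel]
      rfl
  -- growth of polynomials in `j`
  have hDG : ∀ P : Polynomial ℂ, Grow (fun τ => P.eval (jf τ)) := by
    intro P
    induction P using Polynomial.induction_on with
    | C a => simpa using (hcst a).2
    | add p q hp hq =>
      have := (hGop _ _ hp hq).1
      simpa using this
    | monomial n a h =>
      have := (hGop _ _ h hjG).2
      refine this.imp fun k hk => ?_
      refine hk.congr_left fun τ => ?_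
      simp only [Polynomial.eval_mul, Polynomial.eval_C, Polynomial.eval_pow, Polynomial.eval_X]
      ring
  -- analytic near `i ∞`
  choose Yi hYi using fun i => Mer.analyticAt (hX i)
  have hY : ∃ Y : ℝ, ∀ i, Yi i ≤ Y := by
    refine ⟨∑ i, |Yi i|, fun i => (le_abs_self _).trans ?_⟩
    exact Finset.single_le_sum (f := fun i => |Yi i|) (fun j _ => abs_nonneg _) (Finset.mem_univ i)
  obtain ⟨Y, hY⟩ := hY
  have hyW : ∀ (i : ι) (τ : ℍ), Y < τ.im → nf (W i) τ = D.eval (jf τ) * X i τ := by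
    intro i τ hτ
    refine (hnf1 (W i) (hWmer i) (hWord i)).2 τ ?_
    rw [hWeq]
    exact (hDan D τ).mul (hYi i τ (lt_of_le_of_lt (hY i) hτ))
  refine ⟨D, hD, fun i => nf (W i), fun i => ⟨(hnf1 (W i) (hWmer i) (hWord i)).1, ?_⟩, ?_, Y, hyW⟩
  · obtain ⟨k, hk⟩ := (hGop _ _ (hDG D) (Mer.grow (hX i))).2
    refine ⟨k, ?_⟩
    rw [isBoundedAtImInfty_iff] at hk ⊢
    obtain ⟨M, A, hMA⟩ := hk
    refine ⟨M, max A (Y + 1), fun z hz => ?_⟩
    have hz1 : Y < z.im := by have := le_max_right A (Y + 1); linarith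
    change ‖ModularForm.discriminant z ^ k * nf (W i) z‖ ≤ M
    rw [hyW i z hz1]
    exact hMA z (le_trans (le_max_left _ _) hz)
  · intro γ i k hik τ
    refine hnf2 (W i) (W k) γ (hWmer i) (hWord i) ?_ τ
    intro σ
    simp only [W]
    rw [hjinv, hik]

end

end Pool.Agent.MU3Q
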