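import Pool.Agent.MU3.StQ

/-!
# MU3, block WQ, module PORD: the order is invariant under Moebius transformations
-/

set_option autoImplicit false

namespace Pool.Agent.MU3Q

open UpperHalfPlane ModularForm EisensteinSeries
open scoped MatrixGroups

theorem t_PORD : St_PORD := by
  intro X γ hX
  have hdet : 0 < (Matrix.SpecialLinearGroup.mapGL ℝ γ).det.val := by simp
  have key : (fun τ : ℍ => X (γ • τ)) ∘ ofComplex =
      (X ∘ ofComplex) ∘ (fun z : ℂ => ((Matrix.SpecialLinearGroup.mapGL ℝ γ • ofComplex z : ℍ) : ℂ)) := by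
    funext z
    simp only [Function.comp_apply, ofComplex_apply]
    rfl
  refine ⟨?_, ?_⟩
  · intro z hz
    have hz' : 0 < z.im := hz
    have ha := analyticAt_smul hdet ⟨z, hz'⟩
    rw [key]
    apply MeromorphicAt.comp_analyticAt _ ha
    apply hX
    exact UpperHalfPlane.im_pos _
  · intro τ
    exact meromorphicOrderAt_comp_smul hdet

end Pool.Agent.MU3Q
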