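import Pool.Agent.MU3.StQ

/-!
# MU3, block WQ, module QA: algebra of convergent `q`-series
-/

set_option autoImplicit false

namespace Pool.Agent.MU3Q

open UpperHalfPlane ModularForm EisensteinSeries Filter Topology
open scoped MatrixGroups

noncomputable section

namespace QA

/-- the point `i t` -/
def pt (t : ℝ) (ht : 0 < t) : ℍ := ⟨t * Complex.I, by simpa using ht⟩

theorem pt_im (t : ℝ) (ht : 0 < t) : (pt t ht).im = t := by
  change ((t : ℂ) * Complex.I).im = t
  simp

theorem qq_pt (t : ℝ) (ht : 0 < t) : qq (pt t ht) = ((Real.exp (-(2 * Real.pi * t)) : ℝ) : ℂ) := by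
  unfold qq
  rw [Complex.ofReal_exp]
  congr 1
  change 2 * (Real.pi : ℂ) * Complex.I * ((t : ℂ) * Complex.I) = _
  push_cast
  linear_combination (2 * (Real.pi : ℂ) * t) * Complex.I_sq

/-- a real variable version of the uniqueness -/
theorem uniq_real (w : ℕ → ℂ) (T : ℝ)
    (h : ∀ t : ℝ, T ≤ t →
      HasSum (fun n : ℕ => w n * ((Real.exp (-(2 * Real.pi * t)) : ℝ) : ℂ) ^ n) 0) :
    ∀ n, w n = 0 := by
  intro m
  induction m using Nat.strong_induction_on with
  | _ m ih =>
  have hs : ∀ t : ℝ, T ≤ t →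
      HasSum (fun k : ℕ => w (k + m) * ((Real.exp (-(2 * Real.pi * t)) : ℝ) : ℂ) ^ k) 0 := by
    intro t ht
    have h1 := (hasSum_nat_add_iff' m).2 (h t ht)
    have h2 : ∑ i ∈ Finset.range m, w i * ((Real.exp (-(2 * Real.pi * t)) : ℝ) : ℂ) ^ i = 0 := by
      refine Finset.sum_eq_zero fun i hi => ?_
      rw [ih i (Finset.mem_range.1 hi), zero_mul]
    rw [h2, sub_zero] at h1
    have h3 := h1.mul_right ((((Real.exp (-(2 * Real.pi * t)) : ℝ) : ℂ) ^ m)⁻¹)
    rw [zero_mul] at h3
    have hne : ((Real.exp (-(2 * Real.pi * t)) : ℝ) : ℂ) ≠ 0 :=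
      Complex.ofReal_ne_zero.2 (Real.exp_pos _).ne'
    have h4 : (fun k : ℕ => w (k + m) * ((Real.exp (-(2 * Real.pi * t)) : ℝ) : ℂ) ^ k) =
        fun k : ℕ => w (k + m) * ((Real.exp (-(2 * Real.pi * t)) : ℝ) : ℂ) ^ (k + m) *
          ((((Real.exp (-(2 * Real.pi * t)) : ℝ) : ℂ) ^ m)⁻¹) := by
      funext k
      rw [pow_add]
      field_simp
    rw [h4]
    exact h3
  have hlim : Tendsto (fun t : ℝ => ∑' k : ℕ,
      w (k + m) * ((Real.exp (-(2 * Real.pi * t)) : ℝ) : ℂ) ^ k) atTop
      (𝓝 (∑' k : ℕ, if k = 0 then w (0 + m) else 0)) := by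
    refine tendsto_tsum_of_dominated_convergence
      (bound := fun k => ‖w (k + m) * ((Real.exp (-(2 * Real.pi * T)) : ℝ) : ℂ) ^ k‖) ?_ ?_ ?_
    · exact (hs T le_rfl).summable.norm
    · intro k
      rcases Nat.eq_zero_or_pos k with rfl | hk
      · simp only [pow_zero, mul_one, if_true]
        exact tendsto_const_nhds
      · rw [if_neg hk.ne']
        have h5 : Tendsto (fun t : ℝ => Real.exp (-(2 * Real.pi * t))) atTop (𝓝 0) := by
          refine Real.tendsto_exp_atBot.comp ?_
          have : Tendsto (fun t : ℝ => 2 * Real.pi * t) atTop atTop :=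
            tendsto_id.const_mul_atTop (by positivity)
          exact tendsto_neg_atTop_atBot.comp this
        have h6 : Tendsto (fun t : ℝ => ((Real.exp (-(2 * Real.pi * t)) : ℝ) : ℂ)) atTop
            (𝓝 0) := by
          have := (Complex.continuous_ofReal.tendsto 0).comp h5
          rw [Complex.ofReal_zero] at this
          exact this
        have h7 := (h6.pow k).const_mul (w (k + m))
        rw [zero_pow hk.ne', mul_zero] at h7
        exact h7
    · filter_upwards [eventually_ge_atTop T] with t ht k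
      rw [norm_mul, norm_mul, norm_pow, norm_pow]
      refine mul_le_mul_of_nonneg_left (pow_le_pow_left₀ (norm_nonneg _) ?_ k) (norm_nonneg _)
      rw [Complex.norm_real, Complex.norm_real, Real.norm_eq_abs, Real.norm_eq_abs,
        abs_of_pos (Real.exp_pos _), abs_of_pos (Real.exp_pos _)]
      refine Real.exp_le_exp.2 ?_
      have hpi := Real.pi_pos
      nlinarith
  rw [tsum_ite_eq, zero_add] at hlim
  have hzero : Tendsto (fun t : ℝ => ∑' k : ℕ,
      w (k + m) * ((Real.exp (-(2 * Real.pi * t)) : ℝ) : ℂ) ^ k) atTop (𝓝 0) := by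
    refine tendsto_const_nhds.congr' ?_
    filter_upwards [eventually_ge_atTop T] with t ht
    exact (hs t ht).tsum_eq.symm
  exact tendsto_nhds_unique hlim hzero

end QA

open QA

theorem t_QA : St_QA := by
  refine ⟨?_, ?_, ?_, ?_, ?_⟩
  · intro F G u v hF hG τ
    have h1 := (hF τ).summable.norm
    have h2 := (hG τ).summable.norm
    have h3 := (summable_norm_sum_mul_antidiagonal_of_summable_norm h1 h2).of_norm.hasSum
    rw [← tsum_mul_tsum_eq_tsum_sum_antidiagonal_of_summable_norm h1 h2, (hF τ).tsum_eq,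
      (hG τ).tsum_eq] at h3
    have h4 : (fun n : ℕ => PowerSeries.coeff n (u * v) * qq τ ^ n) = fun n =>
        ∑ kl ∈ Finset.HasAntidiagonal.antidiagonal n, PowerSeries.coeff kl.1 u * qq τ ^ kl.1 *
          (PowerSeries.coeff kl.2 v * qq τ ^ kl.2) := by
      funext n
      rw [PowerSeries.coeff_mul, Finset.sum_mul]
      refine Finset.sum_congr rfl fun kl hkl => ?_
      rw [← Finset.HasAntidiagonal.mem_antidiagonal.1 hkl, pow_add]
      ring
    rw [h4]
    exact h3
  · intro F G u v hF hG τ
    have h1 := (hF τ).add (hG τ)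
    have h2 : (fun n : ℕ => PowerSeries.coeff n (u + v) * qq τ ^ n) = fun n =>
        PowerSeries.coeff n u * qq τ ^ n + PowerSeries.coeff n v * qq τ ^ n := by
      funext n
      rw [map_add, add_mul]
    rw [h2]
    exact h1
  · intro F u c hF τ
    have h1 := (hF τ).mul_left c
    have h2 : (fun n : ℕ => PowerSeries.coeff n (c • u) * qq τ ^ n) = fun n =>
        c * (PowerSeries.coeff n u * qq τ ^ n) := by
      funext n
      rw [map_smul, smul_eq_mul, mul_assoc]
    rw [h2]
    exact h1
  · intro τ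
    have h2 : (fun n : ℕ => PowerSeries.coeff n (1 : PowerSeries ℂ) * qq τ ^ n) = fun n =>
        if n = 0 then (1 : ℂ) else 0 := by
      funext n
      rw [PowerSeries.coeff_one]
      split_ifs with h
      · rw [h, pow_zero, mul_one]
      · rw [zero_mul]
    rw [h2]
    exact hasSum_ite_eq 0 1
  · intro F u v Y hu hv
    have h1 : ∀ n, PowerSeries.coeff n u - PowerSeries.coeff n v = 0 := by
      refine uniq_real (fun n => PowerSeries.coeff n u - PowerSeries.coeff n v) (max Y 0 + 1) ?_
      intro t ht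
      have ht0 : 0 < t := by
        have := le_max_right Y 0
        linarith
      have htY : Y < (pt t ht0).im := by
        rw [pt_im]
        have := le_max_left Y 0
        linarith
      have h2 := (hu _ htY).sub (hv _ htY)
      rw [sub_self, qq_pt] at h2
      have h3 : (fun n : ℕ => (PowerSeries.coeff n u - PowerSeries.coeff n v) *
          ((Real.exp (-(2 * Real.pi * t)) : ℝ) : ℂ) ^ n) = fun n =>
          PowerSeries.coeff n u * ((Real.exp (-(2 * Real.pi * t)) : ℝ) : ℂ) ^ n -
          PowerSeries.coeff n v * ((Real.exp (-(2 * Real.pi * t)) : ℝ) : ℂ) ^ n := by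
        funext n
        rw [sub_mul]
      rw [h3]
      exact h2
    ext n
    exact sub_eq_zero.1 (h1 n)

end

end Pool.Agent.MU3Q
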