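import Pool.Agent.MU3.StQ

/-!
# MU3, block WQ, module QE: integral q-expansions of `E₄` and `1728 Δ`
-/

set_option autoImplicit false

namespace Pool.Agent.MU3Q

open UpperHalfPlane ModularForm EisensteinSeries
open scoped MatrixGroups

noncomputable section

/-- the integral power series of `E₄` -/
def qe4 : PowerSeries ℤ :=
  PowerSeries.mk fun n => if n = 0 then 1 else 240 * (ArithmeticFunction.sigma 3 n : ℤ)

/-- the integral power series of `E₆` -/
def qe6 : PowerSeries ℤ :=
  PowerSeries.mk fun n => if n = 0 then 1 else -504 * (ArithmeticFunction.sigma 5 n : ℤ)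

theorem qe_PP (K : Subfield ℂ) (V : ValuationSubring ℂ) (w : PowerSeries ℤ) :
    PowerSeries.map (Int.castRingHom ℂ) w ∈ PP K V := by
  intro n
  rw [PowerSeries.coeff_map]
  exact ⟨by simpa using intCast_mem K _, by simpa using intCast_mem V _⟩

theorem qe_map4 : PowerSeries.map (Int.castRingHom ℂ) qe4 = qExpansion 1 E₄ := by
  ext n
  rw [PowerSeries.coeff_map, E_qExpansion_coeff _ ⟨2, rfl⟩, qe4, PowerSeries.coeff_mk]
  by_cases hn : n = 0
  · simp [hn]
  · norm_num [hn, show bernoulli 4 = -1 / 30 by decide +kernel]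

theorem qe_map6 : PowerSeries.map (Int.castRingHom ℂ) qe6 = qExpansion 1 E₆ := by
  ext n
  rw [PowerSeries.coeff_map, E_qExpansion_coeff _ ⟨3, rfl⟩, qe6, PowerSeries.coeff_mk]
  by_cases hn : n = 0
  · simp [hn]
  · norm_num [hn, show bernoulli 6 = 1 / 42 by decide +kernel]

theorem qe_qq (τ : ℍ) : Function.Periodic.qParam 1 (τ : ℂ) = qq τ := by
  simp [Function.Periodic.qParam, qq]

theorem qe_QS4 : QS (fun τ => E₄ τ) (qExpansion 1 E₄) := by
  intro τ
  have h := ModularForm.hasSum_qExpansion (h := 1) E₄ one_pos one_mem_strictPeriods_SL τ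
  rw [qe_qq] at h
  exact h

theorem qe_QS6 : QS (fun τ => E₆ τ) (qExpansion 1 E₆) := by
  intro τ
  have h := ModularForm.hasSum_qExpansion (h := 1) E₆ one_pos one_mem_strictPeriods_SL τ
  rw [qe_qq] at h
  exact h

theorem t_QE (hQA : St_QA) : St_QE := by
  obtain ⟨hmul, hadd, hsm, -, -⟩ := hQA
  refine ⟨PowerSeries.map (Int.castRingHom ℂ) qe4,
    PowerSeries.map (Int.castRingHom ℂ) (qe4 * qe4 * qe4 - qe6 * qe6),
    fun K V => ⟨qe_PP K V _, qe_PP K V _⟩, ?_, ?_⟩
  · rw [qe_map4]; exact qe_QS4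
  · rw [map_sub, map_mul, map_mul, map_mul, qe_map4, qe_map6]
    have h4 := qe_QS4
    have h6 := qe_QS6
    have a := hmul _ _ _ _ (hmul _ _ _ _ h4 h4) h4
    have b := hsm _ _ (-1) (hmul _ _ _ _ h6 h6)
    have c := hadd _ _ _ _ a b
    rw [neg_one_smul, ← sub_eq_add_neg] at c
    convert! c using 1
    funext τ
    rw [ModularForm.discriminant_eq_E₄_cube_sub_E₆_sq]
    ring

end

end Pool.Agent.MU3Q
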