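import Pool.Agent.MU3.StQ

/-!
# MU3, block WQ, module RM: `RS K V` is closed under products and contains `1`
-/

set_option autoImplicit false

namespace Pool.Agent.MU3Q

open UpperHalfPlane ModularForm EisensteinSeries
open scoped MatrixGroups

noncomputable section

theorem PP_one (K : Subfield ℂ) (V : ValuationSubring ℂ) : (1 : PowerSeries ℂ) ∈ PP K V := by
  intro n
  rw [PowerSeries.coeff_one]
  split_ifs
  · exact ⟨one_mem _, one_mem _⟩
  · exact ⟨zero_mem _, zero_mem _⟩

theorem PP_mul (K : Subfield ℂ) (V : ValuationSubring ℂ) {u v : PowerSeries ℂ} (hu : u ∈ PP K V)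
    (hv : v ∈ PP K V) : u * v ∈ PP K V := by
  intro n
  rw [PowerSeries.coeff_mul]
  exact ⟨sum_mem fun p _ => mul_mem (hu p.1).1 (hv p.2).1,
    sum_mem fun p _ => mul_mem (hu p.1).2 (hv p.2).2⟩

theorem t_RM : St_RM := by
  intro K V
  refine ⟨Submodule.subset_span (PP_one K V), ?_⟩
  intro u hu v hv
  have h1 : u * v ∈ RS K V * RS K V := Submodule.mul_mem_mul hu hv
  have h2 : RS K V * RS K V ≤ RS K V := by
    unfold RS
    rw [Submodule.span_mul_span]
    refine Submodule.span_mono ?_
    rintro _ ⟨a, ha, b, hb, rfl⟩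
    exact PP_mul K V ha hb
  exact h2 h1

end

end Pool.Agent.MU3Q
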