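import Pool.Agent.MU3.Q_WQ
import Pool.Agent.MU3.Q_LA
import Pool.Agent.MU3.Q_RM
import Pool.Agent.MU3.Q_QA
import Pool.Agent.MU3.Q_QE
import Pool.Agent.MU3.Q_L1
import Pool.Agent.MU3.Q_JB
import Pool.Agent.MU3.Q_PORD
import Pool.Agent.MU3.Q_PFIN
import Pool.Agent.MU3.Q_NF
import Pool.Agent.MU3.Q_POLE
import Pool.Agent.MU3.Q_E1
import Pool.Agent.MU3.Q_E2
import Pool.Agent.MU3.Q_E3
import Pool.Agent.MU3.Q_E4
import Pool.Agent.MU3.Q_EV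
import Pool.Agent.MU3.Q_MR
import Pool.Agent.MU3.Q_ODE
import Pool.Agent.MU3.Q_ODEK
import Pool.Agent.MU3.Q_EXP
import Pool.Agent.MU3.Q_INT

/-!
# MU3, block WQ: the theorem without hypotheses
-/

namespace Pool.Agent.MU3Q

theorem wq : St_WQ :=
  t_WQ t_LA t_JB t_QA (t_INT t_L1 t_JB) (t_POLE t_PFIN t_PORD (t_NF t_PORD) t_JB)
    (t_EV t_E1 t_E2 t_E3 t_JB) t_MR t_ODE t_ODEK (t_EXP t_RM t_QA (t_QE t_QA) t_E4)

end Pool.Agent.MU3Q
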