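import Pool.Agent.MU3.StFT

/-!
# MU3, block FT: module MCO, `mob` and products of matrices, at `∞`
-/

set_option autoImplicit false

namespace Pool.Agent.MU3T

open MU3 Pool.Agent.MU3F Pool.Agent.MuSym OnePoint Filter Topology

lemma mob_infty' (a b c d : ℤ) :
    mob a b c d ∞ = if c = 0 then ∞ else ((a / c : ℚ) : OnePoint ℚ) := rfl

lemma mob_coe' (a b c d : ℤ) (r : ℚ) :
    mob a b c d (r : OnePoint ℚ) = if (c : ℚ) * r + d = 0 then ∞ else
      (((a * r + b) / (c * r + d) : ℚ) : OnePoint ℚ) := rfl

/-- MCO. -/
theorem tu_MCO : Su_MCO := by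
  refine ⟨fun x => ?_, fun a b c d a' b' c' d' h h' => ?_⟩
  · induction x using OnePoint.rec with
    | infty => exact ⟨1, 0, 0, 1, by norm_num, by simp [mob_infty']⟩
    | coe r =>
      have hq : (r.den : ℤ) ≠ 0 := by exact_mod_cast r.den_ne_zero
      have hcop : IsCoprime r.num (r.den : ℤ) := by
        rw [Int.isCoprime_iff_gcd_eq_one]
        exact r.reduced
      obtain ⟨u, v, huv⟩ := hcop
      refine ⟨r.num, -v, r.den, u, by linear_combination huv, ?_⟩
      rw [mob_infty', if_neg hq]
      congr 1
      exact_mod_cast r.num_div_den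
  · by_cases hc' : c' = 0
    · subst hc'
      have ha' : a' ≠ 0 := by
        rintro rfl
        simp at h'
      have haq : (a' : ℚ) ≠ 0 := by exact_mod_cast ha'
      rw [mob_infty' a' b' 0 d', if_pos rfl, mob_infty', mob_infty']
      by_cases hc : c = 0
      · subst hc
        simp
      · have h1 : c * a' + d * 0 ≠ 0 := by
          rw [mul_zero, add_zero]
          exact mul_ne_zero hc ha'
        have hcq : (c : ℚ) ≠ 0 := by exact_mod_cast hc
        rw [if_neg hc, if_neg h1]
        congr 1
        push_cast
        field_simp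
        ring
    · have hcq : (c' : ℚ) ≠ 0 := by exact_mod_cast hc'
      rw [mob_infty' a' b' c' d', if_neg hc', mob_coe', mob_infty']
      have e1 : (c : ℚ) * ((a' : ℚ) / c') + d = ((c * a' + d * c' : ℤ) : ℚ) / c' := by
        push_cast
        field_simp
      have e2 : (a : ℚ) * ((a' : ℚ) / c') + b = ((a * a' + b * c' : ℤ) : ℚ) / c' := by
        push_cast
        field_simp
      by_cases h0 : c * a' + d * c' = 0
      · rw [if_pos h0, if_pos]
        rw [e1, h0]
        simp
      · have h1 : (((c * a' + d * c' : ℤ)) : ℚ) ≠ 0 := by exact_mod_cast h0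
        rw [if_neg h0, if_neg]
        · congr 1
          rw [e1, e2]
          field_simp
        · rw [e1]
          exact div_ne_zero h1 hcq

end Pool.Agent.MU3T
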