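import Pool.Agent.MU3.StG

/-!
# MU3, block G: arithmetic of the ring `O` (G0)
-/

set_option autoImplicit false

namespace Pool.Agent.MU3G

open MU3

namespace G0

variable {A B : ℤ}

theorem nm_eq (x : OO A B) : nm x = QuadraticAlgebra.norm x := by
  rw [QuadraticAlgebra.norm_def]
  unfold nm
  ring

theorem nm_mul (x y : OO A B) : nm (x * y) = nm x * nm y := by
  rw [nm_eq, nm_eq, nm_eq, map_mul]

theorem nm_star (x : OO A B) : nm (star x) = nm x := by
  rw [nm_eq, nm_eq, QuadraticAlgebra.norm_star]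

theorem four_nm (x : OO A B) :
    4 * nm x = (2 * x.re + B * x.im) ^ 2 + absD A B * x.im ^ 2 := by
  unfold nm absD
  ring

theorem absD_bd (h : Case A B) : 8 ≤ absD A B ∧ absD A B ≤ 11 := by
  rcases h with ⟨rfl, rfl⟩ | ⟨rfl, rfl⟩ <;> norm_num [absD]

theorem nm_nonneg (h : Case A B) (x : OO A B) : 0 ≤ nm x := by
  have h1 := four_nm x
  have h2 := (absD_bd h).1
  nlinarith [sq_nonneg (2 * x.re + B * x.im), sq_nonneg x.im,
    mul_nonneg (by linarith : (0 : ℤ) ≤ absD A B) (sq_nonneg x.im)]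

theorem nm_zero (h : Case A B) {x : OO A B} (hx : nm x = 0) : x = 0 := by
  have h1 := four_nm x
  have h2 := (absD_bd h).1
  rw [hx] at h1
  have h3 : x.im ^ 2 = 0 := by
    nlinarith [sq_nonneg (2 * x.re + B * x.im), sq_nonneg x.im]
  have h4 : x.im = 0 := by simpa using h3
  rw [h4] at h1
  have h5 : x.re ^ 2 = 0 := by nlinarith
  have h6 : x.re = 0 := by simpa using h5
  exact QuadraticAlgebra.ext h6 h4

theorem nm_pos (h : Case A B) {x : OO A B} (hx : x ≠ 0) : 0 < nm x :=
  lt_of_le_of_ne (nm_nonneg h x) (fun h1 => hx (nm_zero h h1.symm))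

theorem dom (h : Case A B) : IsDomain (OO A B) := by
  have : NoZeroDivisors (OO A B) := by
    constructor
    intro x y hxy
    have h1 : nm x * nm y = 0 := by
      rw [← nm_mul, hxy]
      simp [nm]
    rcases mul_eq_zero.1 h1 with h2 | h2
    · exact Or.inl (nm_zero h h2)
    · exact Or.inr (nm_zero h h2)
  exact NoZeroDivisors.to_isDomain _

/-- rounding -/
theorem round_aux (T N : ℤ) (hN : 0 < N) : ∃ m : ℤ, -N ≤ T - 2 * N * m ∧ T - 2 * N * m ≤ N := by
  refine ⟨(T + N) / (2 * N), ?_, ?_⟩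
  · have h1 := Int.emod_nonneg (T + N) (by omega : 2 * N ≠ 0)
    have h2 := Int.emod_add_mul_ediv (T + N) (2 * N)
    linarith
  · have h1 := Int.emod_lt_of_pos (T + N) (by omega : 0 < 2 * N)
    have h2 := Int.emod_add_mul_ediv (T + N) (2 * N)
    linarith

theorem euclid (h : Case A B) (x y : OO A B) (hy : y ≠ 0) : ∃ q, nm (x - q * y) < nm y := by
  have hN := nm_pos h hy
  set N := nm y with hNdef
  set z := x * star y with hz
  obtain ⟨n, hn1, hn2⟩ := round_aux (2 * z.im) N hN
  obtain ⟨m, hm1, hm2⟩ := round_aux (2 * z.re + B * (z.im - N * n)) N hN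
  refine ⟨⟨m, n⟩, ?_⟩
  have h1 : (x - ⟨m, n⟩ * y) * star y = ⟨z.re - N * m, z.im - N * n⟩ := by
    have h2 : y * star y = algebraMap ℤ (OO A B) N := by
      rw [hNdef, nm_eq, QuadraticAlgebra.algebraMap_norm_eq_mul_star]
    rw [sub_mul, mul_assoc, h2, ← hz]
    ext <;> simp <;> ring
  have h3 : nm (x - ⟨m, n⟩ * y) * N = nm (⟨z.re - N * m, z.im - N * n⟩ : OO A B) := by
    rw [← h1, nm_mul, nm_star]
  have h4 := four_nm (⟨z.re - N * m, z.im - N * n⟩ : OO A B)
  rw [← h3] at h4
  simp only at h4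
  have h5 := (absD_bd h).2
  have h5' := (absD_bd h).1
  have h6 : (2 * (z.re - N * m) + B * (z.im - N * n)) ^ 2 ≤ N ^ 2 := by
    have h7 : 2 * (z.re - N * m) + B * (z.im - N * n) =
      2 * z.re + B * (z.im - N * n) - 2 * N * m := by ring
    rw [h7]
    exact sq_le_sq' hm1 hm2
  have h8 : (2 * (z.im - N * n)) ^ 2 ≤ N ^ 2 := by
    have h7 : 2 * (z.im - N * n) = 2 * z.im - 2 * N * n := by ring
    rw [h7]
    exact sq_le_sq' hn1 hn2
  have h9 : absD A B * (z.im - N * n) ^ 2 ≤ 11 * (z.im - N * n) ^ 2 :=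
    mul_le_mul_of_nonneg_right h5 (sq_nonneg _)
  by_contra hcon
  have h10 : N ≤ nm (x - ⟨m, n⟩ * y) := not_lt.1 hcon
  have h11 : N * N ≤ nm (x - ⟨m, n⟩ * y) * N := mul_le_mul_of_nonneg_right h10 hN.le
  nlinarith

theorem pid (h : Case A B) : IsPrincipalIdealRing (OO A B) := by
  constructor
  intro I
  by_cases hI : I = ⊥
  · rw [hI]
    exact bot_isPrincipal
  · obtain ⟨x0, hx0, hx0'⟩ := Submodule.exists_mem_ne_zero_of_ne_bot hI
    have hex : ∃ n : ℕ, ∃ x ∈ I, x ≠ 0 ∧ nm x = (n : ℤ) :=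
      ⟨(nm x0).toNat, x0, hx0, hx0', (Int.toNat_of_nonneg (nm_nonneg h x0)).symm⟩
    classical
    obtain ⟨a, ha, ha0, han⟩ := Nat.find_spec hex
    have hmin := fun n => @Nat.find_min _ _ hex n
    refine ⟨a, ?_⟩
    apply le_antisymm
    · intro x hx
      obtain ⟨q, hq⟩ := euclid h x a ha0
      have h1 : x - q * a ∈ I := I.sub_mem hx (I.mul_mem_left q ha)
      by_cases h2 : x - q * a = 0
      · rw [sub_eq_zero.1 h2]
        exact Submodule.mem_span_singleton.2 ⟨q, rfl⟩
      · exfalso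
        have h3 := nm_nonneg h (x - q * a)
        have h4 : (nm (x - q * a)).toNat < Nat.find hex := by
          have h5 := Int.toNat_of_nonneg h3
          omega
        exact hmin _ h4 ⟨x - q * a, h1, h2, (Int.toNat_of_nonneg h3).symm⟩
    · rw [Submodule.span_singleton_le_iff_mem]
      exact ha

theorem unit_iff (x : OO A B) : IsUnit x ↔ IsUnit (nm x) := by
  rw [nm_eq]
  exact QuadraticAlgebra.isUnit_iff_norm_isUnit

theorem prime_of_three (h : Case A B) {z : OO A B} (hz : nm z = 3) : Prime z := by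
  have := dom h
  have := pid h
  rw [← irreducible_iff_prime]
  constructor
  · intro hu
    rw [unit_iff, hz] at hu
    exact Int.prime_three.not_isUnit hu
  · intro x y hxy
    have h1 : (3 : ℤ) = nm x * nm y := by
      rw [← nm_mul, ← hxy, hz]
    rcases Int.prime_three.irreducible.isUnit_or_isUnit h1 with h2 | h2
    · exact Or.inl ((unit_iff x).2 h2)
    · exact Or.inr ((unit_iff y).2 h2)

theorem one_re : (1 : OO A B).re = 1 := rfl

theorem one_im : (1 : OO A B).im = 0 := rfl

theorem cop (h : Case A B) : IsCoprime (ppi A B) (star (ppi A B)) := by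
  rcases h with ⟨rfl, rfl⟩ | ⟨rfl, rfl⟩
  · refine ⟨star (ppi (-2) 0) - 1, -1, ?_⟩
    ext <;> simp [ppi, one_re, one_im]
  · refine ⟨1, 1, ?_⟩
    ext <;> simp [ppi, one_re, one_im]

theorem units (h : Case A B) (x : OO A B) : IsUnit x ↔ x = 1 ∨ x = -1 := by
  constructor
  · intro hu
    rw [unit_iff, Int.isUnit_iff] at hu
    have h0 := nm_nonneg h x
    have h1 : nm x = 1 := by omega
    have h2 := four_nm x
    have h3 := (absD_bd h).1
    rw [h1] at h2
    have h4 : x.im ^ 2 = 0 := by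
      nlinarith [sq_nonneg (2 * x.re + B * x.im), sq_nonneg x.im]
    have h5 : x.im = 0 := by simpa using h4
    rw [h5] at h2
    have h6 : x.re ^ 2 = 1 := by nlinarith
    have h8 : (x.re - 1) * (x.re + 1) = 0 := by
      linear_combination h6
    rcases mul_eq_zero.1 h8 with h7 | h7
    · left
      exact QuadraticAlgebra.ext (by rw [one_re]; linarith) (by rw [one_im]; exact h5)
    · right
      exact QuadraticAlgebra.ext (by rw [QuadraticAlgebra.re_neg, one_re]; linarith)
        (by rw [QuadraticAlgebra.im_neg, one_im]; linarith)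
  · rintro (h1 | h1)
    · rw [h1]
      exact isUnit_one
    · rw [h1]
      exact isUnit_one.neg

theorem emb_star (x : OO A B) : emb (star x) = (starRingEnd ℂ) (emb x) := by
  unfold emb wC
  simp only [QuadraticAlgebra.re_star, QuadraticAlgebra.im_star, map_add, map_mul, map_div₀,
    Complex.conj_I, Complex.conj_ofReal, map_ofNat, map_intCast]
  push_cast
  ring

theorem emb_norm (h : Case A B) (x : OO A B) :
    (nm x : ℂ) = emb x * (starRingEnd ℂ) (emb x) := by
  rw [← emb_star, ← embHom_apply h, ← embHom_apply h, ← map_mul,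
    ← QuadraticAlgebra.algebraMap_norm_eq_mul_star, ← nm_eq, embHom_apply]
  simp [emb]

end G0

open G0

theorem t_G0 : St_G0 := by
  intro A B h
  refine ⟨dom h, pid h, prime_of_three h (nm_ppi h),
    prime_of_three h (by rw [nm_star, nm_ppi h]), cop h, units h, ?_, emb_norm h, emb_star,
    nm_mul⟩
  intro x
  constructor
  · intro hx
    have h1 := emb_norm h x
    rw [hx, zero_mul] at h1
    exact nm_zero h (by exact_mod_cast h1)
  · intro hx
    rw [hx]
    simp [emb]

end Pool.Agent.MU3G
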