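import Pool.Agent.MU3.StFH
import Pool.Agent.MU3.G_G0

/-!
# MU3, block FH, module ALG (helper18): algebra of `O`
-/

set_option autoImplicit false

namespace Pool.Agent.MU3F

open MU3 Pool.Agent.MU3A Pool.Agent.MU3B
open scoped ComplexConjugate

namespace AlgF

variable {A B : ℤ}

theorem mul_star' (x : OO A B) : x * star x = ((nm x : ℤ) : OO A B) := by
  ext
  · simp only [nm, QuadraticAlgebra.re_mul, QuadraticAlgebra.re_star, QuadraticAlgebra.im_star,
      QuadraticAlgebra.re_intCast, Int.cast_id]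
    ring
  · simp only [QuadraticAlgebra.im_mul, QuadraticAlgebra.re_star, QuadraticAlgebra.im_star,
      QuadraticAlgebra.im_intCast]
    ring

theorem conj_w (A B : ℤ) : conj (wC A B) = B - wC A B := by
  unfold wC
  simp only [map_div₀, map_add, map_mul, Complex.conj_I, Complex.conj_ofReal, map_intCast,
    map_ofNat]
  ring

theorem emb_star (x : OO A B) : emb (star x) = conj (emb x) := by
  unfold emb
  simp only [map_add, map_mul, conj_w, map_intCast, QuadraticAlgebra.re_star,
    QuadraticAlgebra.im_star]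
  push_cast
  ring

theorem norm_sq (h : Case A B) (x : OO A B) : ((nm x : ℤ) : ℝ) = ‖emb x‖ ^ 2 := by
  have h1 : emb x * conj (emb x) = ((nm x : ℤ) : ℂ) := by
    rw [← emb_star, ← emb_mul h, mul_star', emb_intCast h]
  rw [Complex.mul_conj, Complex.normSq_eq_norm_sq] at h1
  exact_mod_cast h1.symm

theorem fin_quot (h : Case A B) (m : OO A B) (hm : m ≠ 0) :
    Finite (OO A B ⧸ Ideal.span {m}) := by
  have := Pool.Agent.MU3G.G0.dom h
  exact Ideal.finiteQuotientOfFreeOfNeBot _ (by
    rw [Ne, Ideal.span_singleton_eq_bot]; exact hm)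

theorem star_ppi (h : Case A B) : ppi A B * star (ppi A B) = 3 := by
  rw [mul_star', nm_ppi h]
  norm_num

theorem not_unit (h : Case A B) : ¬ IsUnit (star (ppi A B)) := by
  intro hu
  obtain ⟨y, hy⟩ := hu.exists_right_inv
  have h1 := congrArg nm hy
  rw [Pool.Agent.MU3G.G0.nm_mul, Pool.Agent.MU3G.G0.nm_star, nm_ppi h] at h1
  have h2 : nm (1 : OO A B) = 1 := by
    rw [Pool.Agent.MU3G.G0.nm_eq, map_one]
  rw [h2] at h1
  omega

end AlgF

open AlgF in
theorem tf_ALG : Sf_ALG := by
  intro A B h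
  refine ⟨fun x y => ⟨emb_mul h x y, emb_add h x y, Pool.Agent.MU3G.G0.nm_mul x y⟩, fun x =>
    ⟨⟨fun h0 => ?_, fun h0 => by rw [h0, emb_zero h]⟩, norm_sq h x, mul_star' x, emb_star x⟩,
    emb_intCast h, fin_quot h, star_ppi h, not_unit h⟩
  by_contra hx
  exact emb_ne_zero h hx h0

end Pool.Agent.MU3F
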