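import Pool.Agent.MU3.StFT
import Pool.Agent.MU3.F_ALG

/-!
# MU3, block FT, module GAU (helper72): the Gauss sum of the norm form modulo a prime
-/

set_option autoImplicit false

namespace Pool.Agent.MU3T

open MU3 Pool.Agent.MU3F Pool.Agent.MuSym
open scoped ComplexConjugate

namespace T_GAU

/-- the quadratic character with values in the complex numbers -/
noncomputable def chi (p : ℕ) [Fact p.Prime] : MulChar (ZMod p) ℂ :=
  (quadraticChar (ZMod p)).ringHomComp (Int.castRingHom ℂ)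

variable {p : ℕ} [Fact p.Prime]

theorem chi_apply (a : ZMod p) : chi p a = ((quadraticChar (ZMod p) a : ℤ) : ℂ) := rfl

theorem ringChar_ne (hp : p ≠ 2) : ringChar (ZMod p) ≠ 2 := by
  rw [ZMod.ringChar_zmod_n]
  exact hp

theorem chi_ne_one (hp : p ≠ 2) : chi p ≠ 1 := by
  unfold chi
  rw [Ne, MulChar.ringHomComp_eq_one_iff (RingHom.injective_int (Int.castRingHom ℂ))]
  exact quadraticChar_ne_one (ringChar_ne hp)

theorem chi_quad : (chi p).IsQuadratic := (quadraticChar_isQuadratic (ZMod p)).comp _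

theorem sum_sq_char (hp : p ≠ 2) {ψ : AddChar (ZMod p) ℂ} (hψ : ψ.IsPrimitive) {a : ZMod p}
    (ha : a ≠ 0) : ∑ x : ZMod p, ψ (a * x ^ 2) = chi p a * gaussSum (chi p) ψ := by
  classical
  have h1 : ∑ x : ZMod p, ψ (a * x ^ 2) = ∑ t : ZMod p, (chi p t + 1) * ψ (a * t) := by
    rw [← Finset.sum_fiberwise Finset.univ (fun x : ZMod p => x ^ 2)]
    refine Finset.sum_congr rfl fun t _ => ?_
    have h2 : ∀ x ∈ Finset.univ.filter (fun x : ZMod p => x ^ 2 = t), ψ (a * x ^ 2) = ψ (a * t) := by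
      intro x hx
      rw [(Finset.mem_filter.1 hx).2]
    rw [Finset.sum_congr rfl h2, Finset.sum_const, nsmul_eq_mul]
    congr 1
    have h3 := quadraticChar_card_sqrts (F := ZMod p) (ringChar_ne hp) t
    rw [chi_apply]
    have h4 : (Finset.univ.filter (fun x : ZMod p => x ^ 2 = t)).card =
        ({x : ZMod p | x ^ 2 = t}.toFinset).card := by
      congr 1
      ext x
      simp
    rw [h4]
    exact_mod_cast congrArg (Int.cast (R := ℂ)) h3
  have h5 : ∑ t : ZMod p, ψ (a * t) = 0 := by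
    have h6 := AddChar.sum_mulShift a hψ
    rw [if_neg ha] at h6
    rw [← Nat.cast_zero (R := ℂ), ← h6]
    exact Finset.sum_congr rfl fun t _ => by rw [mul_comm]
  have h7 : ∑ t : ZMod p, chi p t * ψ (a * t) = gaussSum (chi p) (ψ.mulShift a) := rfl
  have h8 := gaussSum_mulShift (chi p) ψ (Units.mk0 a ha)
  rw [Units.val_mk0] at h8
  have h9 : chi p a * chi p a = 1 := by
    rw [← map_mul, ← sq, chi_apply, quadraticChar_sq_one' ha]
    norm_num
  rw [h1]
  simp only [add_mul, one_mul]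
  rw [Finset.sum_add_distrib, h5, add_zero, h7, ← h8, ← mul_assoc, h9, one_mul]

/-- the map from `ZMod p × ZMod p` to the quotient -/
noncomputable def qmap (A B : ℤ) (p : ℕ) (x : ZMod p × ZMod p) :
    OO A B ⧸ Ideal.span {((p : ℕ) : OO A B)} :=
  Ideal.Quotient.mk _ (⟨(x.1.cast : ℤ), (x.2.cast : ℤ)⟩ : OO A B)

theorem dvd_iff {A B : ℤ} (n : ℕ) (x : OO A B) : (n : OO A B) ∣ x ↔ (n : ℤ) ∣ x.re ∧ (n : ℤ) ∣ x.im := by
  constructor
  · rintro ⟨y, rfl⟩
    simp only [QuadraticAlgebra.re_mul, QuadraticAlgebra.im_mul, QuadraticAlgebra.re_natCast,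
      QuadraticAlgebra.im_natCast]
    constructor
    · exact ⟨y.re, by simp⟩
    · exact ⟨y.im, by simp⟩
  · rintro ⟨⟨a, ha⟩, b, hb⟩
    refine ⟨⟨a, b⟩, ?_⟩
    ext
    · simp only [QuadraticAlgebra.re_mul, QuadraticAlgebra.re_natCast,
        QuadraticAlgebra.im_natCast]
      rw [ha]
      simp
    · simp only [QuadraticAlgebra.im_mul, QuadraticAlgebra.re_natCast,
        QuadraticAlgebra.im_natCast]
      rw [hb]
      simp

theorem mk_eq {A B : ℤ} (n : ℕ) (x y : OO A B) :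
    Ideal.Quotient.mk (Ideal.span {((n : ℕ) : OO A B)}) x = Ideal.Quotient.mk _ y ↔
      (x.re : ZMod n) = y.re ∧ (x.im : ZMod n) = y.im := by
  rw [Ideal.Quotient.eq, Ideal.mem_span_singleton, dvd_iff, QuadraticAlgebra.re_sub,
    QuadraticAlgebra.im_sub, ZMod.intCast_eq_intCast_iff_dvd_sub,
    ZMod.intCast_eq_intCast_iff_dvd_sub, ← dvd_neg (a := (n : ℤ)) (b := y.re - x.re),
    ← dvd_neg (a := (n : ℤ)) (b := y.im - x.im), neg_sub, neg_sub]

theorem qmap_bij (A B : ℤ) : Function.Bijective (qmap A B p) := by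
  constructor
  · rintro ⟨x1, x2⟩ ⟨y1, y2⟩ h
    unfold qmap at h
    rw [mk_eq] at h
    simpa using h
  · intro q
    obtain ⟨x, rfl⟩ := Ideal.Quotient.mk_surjective q
    refine ⟨((x.re : ZMod p), (x.im : ZMod p)), ?_⟩
    unfold qmap
    rw [mk_eq]
    simp

theorem ex_eq (n : ℤ) : ex ((n : ℚ) / p) = ZMod.stdAddChar (n : ZMod p) := by
  rw [ZMod.stdAddChar_coe]
  unfold ex
  congr 1
  push_cast
  ring

theorem gg_eq (A B : ℤ) (b : ℤ) : gg A B p b =
    ∑ x : ZMod p × ZMod p, ZMod.stdAddChar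
      ((b : ZMod p) * (x.1 ^ 2 + (B : ZMod p) * x.1 * x.2 - (A : ZMod p) * x.2 ^ 2)) := by
  unfold gg sumMod
  rw [← finsum_eq_sum_of_fintype]
  symm
  refine finsum_eq_of_bijective (qmap A B p) (qmap_bij A B) fun x => ?_
  have h1 : Ideal.Quotient.mk (Ideal.span {((p : ℕ) : OO A B)}) (Quotient.out (qmap A B p x)) =
      Ideal.Quotient.mk _ (⟨(x.1.cast : ℤ), (x.2.cast : ℤ)⟩ : OO A B) := Quotient.out_eq _
  rw [mk_eq] at h1
  obtain ⟨h2, h3⟩ := h1
  rw [ZMod.intCast_zmod_cast] at h2 h3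
  dsimp only
  rw [show (b : ℚ) * ((nm (Quotient.out (qmap A B p x)) : ℤ) : ℚ) / (p : ℚ) =
    (((b * nm (Quotient.out (qmap A B p x)) : ℤ) : ℚ)) / p by push_cast; ring, ex_eq]
  congr 1
  unfold nm
  push_cast
  rw [h2, h3]

end T_GAU

open T_GAU in
theorem tu_GAU : Su_GAU := by
  intro A B hAB p _ hp b hb
  have hp2 : p ≠ 2 := by
    rintro rfl
    exact hp (dvd_mul_right _ _)
  have h2 : (2 : ZMod p) ≠ 0 := by
    intro h
    have h' : ((2 : ℕ) : ZMod p) = 0 := by exact_mod_cast h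
    rw [ZMod.natCast_eq_zero_iff] at h'
    exact hp2 ((Nat.prime_dvd_prime_iff_eq (Fact.out) Nat.prime_two).1 h')
  have hb0 : (b : ZMod p) ≠ 0 := by
    intro h
    exact hb ((ZMod.intCast_zmod_eq_zero_iff_dvd b p).1 h)
  have hD0 : ((absD A B : ℤ) : ZMod p) ≠ 0 := by
    intro h
    exact hp (Dvd.dvd.mul_left ((ZMod.intCast_zmod_eq_zero_iff_dvd _ p).1 h) 2)
  have hD : ((absD A B : ℤ) : ZMod p) = -((B : ZMod p) ^ 2 + 4 * A) := by
    unfold absD
    push_cast
    ring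
  set ψ : AddChar (ZMod p) ℂ := ZMod.stdAddChar with hψ
  have hprim : ψ.IsPrimitive := ZMod.isPrimitive_stdAddChar p
  rw [gg_eq, Fintype.sum_prod_type_right, ← hψ]
  have h3 : ∀ y : ZMod p, ∑ x : ZMod p, ψ
      ((b : ZMod p) * (x ^ 2 + (B : ZMod p) * x * y - (A : ZMod p) * y ^ 2)) =
      (∑ x : ZMod p, ψ ((b : ZMod p) * x ^ 2)) * ψ ((b * (absD A B : ℤ) / 4) * y ^ 2) := by
    intro y
    rw [Finset.sum_mul]
    refine Fintype.sum_bijective (fun x => x + B / 2 * y) (AddGroup.addRight_bijective _) _ _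
      fun x => ?_
    rw [← AddChar.map_add_eq_mul]
    congr 1
    rw [hD]
    have h4 : (4 : ZMod p) ≠ 0 := by
      rw [show (4 : ZMod p) = 2 * 2 by norm_num]
      exact mul_ne_zero h2 h2
    field_simp
    ring
  have h4 : (4 : ZMod p) ≠ 0 := by
    rw [show (4 : ZMod p) = 2 * 2 by norm_num]
    exact mul_ne_zero h2 h2
  have h5 : (b : ZMod p) * (absD A B : ℤ) / 4 ≠ 0 := div_ne_zero (mul_ne_zero hb0 hD0) h4
  simp only [h3]
  rw [← Finset.mul_sum, sum_sq_char hp2 hprim hb0, sum_sq_char hp2 hprim h5]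
  have h6 : gaussSum (chi p) ψ ^ 2 = chi p (-1) * ((Fintype.card (ZMod p) : ℕ) : ℂ) :=
    gaussSum_sq (χ := chi p) (chi_ne_one hp2) chi_quad hprim
  have h7 : chi p (b : ZMod p) * chi p ((b : ZMod p) * (absD A B : ℤ) / 4) * chi p (-1) =
      ((legendreSym p (-absD A B) : ℤ) : ℂ) := by
    rw [← map_mul, ← map_mul, chi_apply, legendreSym]
    congr 1
    have e1 : (b : ZMod p) * ((b : ZMod p) * (absD A B : ℤ) / 4) * -1 =
        ((b : ZMod p) / 2) ^ 2 * ((-absD A B : ℤ) : ZMod p) := by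
      push_cast
      field_simp
      ring
    rw [e1, map_mul, quadraticChar_sq_one' (div_ne_zero hb0 h2), one_mul]
  rw [ZMod.card] at h6
  linear_combination (chi p (b : ZMod p) * chi p ((b : ZMod p) * (absD A B : ℤ) / 4)) * h6 +
    (p : ℂ) * h7

end Pool.Agent.MU3T
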