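import Pool.Agent.MU3.BAll

/-!
# MU3, block FT, module POC (helper87): Poisson summation with a complex parameter
-/

set_option autoImplicit false

namespace Pool.Agent.MU3B

open Complex Real Filter Topology
open scoped ComplexConjugate

namespace POC

theorem diff_aux {ι : Type*} (a : ι → ℂ) (q : ι → ℝ) (hq : ∀ i, 0 ≤ q i)
    (h : ∀ δ : ℝ, 0 < δ → Summable fun i => ‖a i‖ * Real.exp (-(δ * q i))) :
    DifferentiableOn ℂ (fun t : ℂ => ∑' i, a i * Complex.exp (-(t * q i))) {t | 0 < t.re} := by
  intro t₀ ht₀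
  have h0 : (0 : ℝ) < t₀.re := ht₀
  have hV : IsOpen {t : ℂ | t₀.re / 2 < t.re} := isOpen_lt continuous_const Complex.continuous_re
  have h1 : DifferentiableOn ℂ (fun t : ℂ => ∑' i, a i * Complex.exp (-(t * q i)))
      {t : ℂ | t₀.re / 2 < t.re} := by
    refine differentiableOn_tsum_of_summable_norm (h (t₀.re / 2) (by positivity)) (fun i => ?_)
      hV (fun i t ht => ?_)
    · fun_prop
    · rw [norm_mul]
      refine mul_le_mul_of_nonneg_left ?_ (norm_nonneg _)
      rw [Complex.norm_exp, Real.exp_le_exp]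
      have h2 : (-(t * (q i : ℂ))).re = -(t.re * q i) := by simp
      rw [h2]
      have h3 : t₀.re / 2 < t.re := ht
      have := mul_le_mul_of_nonneg_right h3.le (hq i)
      linarith
  exact (h1.differentiableAt (hV.mem_nhds (by
    change t₀.re / 2 < t₀.re
    linarith))).differentiableWithinAt

end POC

open POC in
/-- POD for a complex parameter in the right half plane -/
theorem b_POC (L : PeriodPair) (t : ℂ) (ht : 0 < t.re) (z : ℂ) :
    (∑' w : L.lattice, conj (z + w) *
      Complex.exp (-((π : ℂ) * (‖z + w‖ : ℂ) ^ 2 / ((area L : ℂ) * t)))) =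
      -t ^ 2 * ∑' w : L.lattice, conj (w : ℂ) * pr L w z *
        Complex.exp (-((π : ℂ) * t * (‖(w : ℂ)‖ : ℂ) ^ 2 / (area L : ℂ))) := by
  obtain ⟨hA, hn, -⟩ := b_LAT L
  have hAC : (area L : ℂ) ≠ 0 := by exact_mod_cast hA.ne'
  have hc : 0 < π / area L := by positivity
  have hU : IsOpen {t : ℂ | 0 < t.re} := isOpen_lt continuous_const Complex.continuous_re
  have hUc : IsPreconnected {t : ℂ | 0 < t.re} := (convex_halfSpace_re_gt 0).isPreconnected
  -- the right hand side
  have hG : DifferentiableOn ℂ (fun t : ℂ => -t ^ 2 * ∑' w : L.lattice,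
      conj (w : ℂ) * pr L w z *
        Complex.exp (-((π : ℂ) * t * (‖(w : ℂ)‖ : ℂ) ^ 2 / (area L : ℂ)))) {t : ℂ | 0 < t.re} := by
    have h1 := diff_aux (fun w : L.lattice => conj (w : ℂ) * pr L w z)
      (fun w : L.lattice => π / area L * ‖(w : ℂ)‖ ^ 2) (fun w => by positivity) (by
        intro δ hδ
        obtain ⟨u, hu, hb⟩ := b_SUM L (δ * (π / area L)) (by positivity) 1 0
        refine Summable.of_nonneg_of_le (fun w => by positivity) (fun w => ?_) hu
        have h2 := (hb w 0 (by simp)).2
        rw [pow_one] at h2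
        refine le_trans ?_ h2
        rw [norm_mul, hn, mul_one, Complex.norm_conj, ← mul_assoc]
        exact mul_le_mul_of_nonneg_right (by linarith [norm_nonneg (w : ℂ)]) (Real.exp_pos _).le)
    have h2 : (fun t : ℂ => -t ^ 2 * ∑' w : L.lattice, conj (w : ℂ) * pr L w z *
        Complex.exp (-((π : ℂ) * t * (‖(w : ℂ)‖ : ℂ) ^ 2 / (area L : ℂ)))) =
        fun t : ℂ => -t ^ 2 * ∑' w : L.lattice, conj (w : ℂ) * pr L w z *
          Complex.exp (-(t * ((π / area L * ‖(w : ℂ)‖ ^ 2 : ℝ) : ℂ))) := by
      funext t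
      congr 1
      refine tsum_congr fun w => ?_
      congr 3
      push_cast
      ring
    rw [h2]
    exact DifferentiableOn.mul (by fun_prop) h1
  have hF : DifferentiableOn ℂ (fun t : ℂ => ∑' w : L.lattice, conj (z + w) *
      Complex.exp (-((π : ℂ) * (‖z + w‖ : ℂ) ^ 2 / ((area L : ℂ) * t)))) {t : ℂ | 0 < t.re} := by
    have h1 := diff_aux (fun w : L.lattice => conj (z + (w : ℂ)))
      (fun w : L.lattice => π / area L * ‖z + (w : ℂ)‖ ^ 2) (fun w => by positivity) (by
        intro δ hδ
        obtain ⟨u, hu, hb⟩ := b_SUM L (δ * (π / area L)) (by positivity) 1 ‖z‖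
        refine Summable.of_nonneg_of_le (fun w => by positivity) (fun w => ?_) hu
        have h2 := (hb w z le_rfl).1
        rw [pow_one] at h2
        refine le_trans ?_ h2
        rw [Complex.norm_conj, ← mul_assoc]
        exact mul_le_mul_of_nonneg_right (by linarith [norm_nonneg (z + (w : ℂ))])
          (Real.exp_pos _).le)
    have h2 : (fun t : ℂ => ∑' w : L.lattice, conj (z + w) *
        Complex.exp (-((π : ℂ) * (‖z + w‖ : ℂ) ^ 2 / ((area L : ℂ) * t)))) =
        (fun t : ℂ => ∑' w : L.lattice, conj (z + (w : ℂ)) *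
          Complex.exp (-(t * ((π / area L * ‖z + (w : ℂ)‖ ^ 2 : ℝ) : ℂ)))) ∘ fun t : ℂ => t⁻¹ := by
      funext t
      refine tsum_congr fun w => ?_
      congr 3
      push_cast
      rw [div_eq_mul_inv, mul_inv]
      ring
    rw [h2]
    refine h1.comp (fun t ht => ?_) (fun t ht => ?_)
    · have h3 : (0 : ℝ) < t.re := ht
      have h4 : t ≠ 0 := by rintro rfl; simp at h3
      exact (differentiableAt_inv h4).differentiableWithinAt
    · have h3 : (0 : ℝ) < t.re := ht
      have h4 : t ≠ 0 := by rintro rfl; simp at h3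
      change 0 < (t⁻¹).re
      rw [Complex.inv_re]
      have := Complex.normSq_pos.2 h4
      positivity
  have hreal : ∀ s : ℝ, 0 < s → (∑' w : L.lattice, conj (z + w) *
      Complex.exp (-((π : ℂ) * (‖z + w‖ : ℂ) ^ 2 / ((area L : ℂ) * (s : ℂ))))) =
      -(s : ℂ) ^ 2 * ∑' w : L.lattice, conj (w : ℂ) * pr L w z *
        Complex.exp (-((π : ℂ) * (s : ℂ) * (‖(w : ℂ)‖ : ℂ) ^ 2 / (area L : ℂ))) := by
    intro s hs
    have h1 := b_POD L s hs z
    push_cast at h1
    exact h1
  have key := AnalyticOnNhd.eqOn_of_preconnected_of_frequently_eq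
    (hF.analyticOnNhd hU) (hG.analyticOnNhd hU) hUc (z₀ := 1) (by simp) (by
      have h1 : Tendsto (fun n : ℕ => ((1 + 1 / ((n : ℝ) + 1) : ℝ) : ℂ)) atTop (𝓝[≠] (1 : ℂ)) := by
        rw [tendsto_nhdsWithin_iff]
        constructor
        · have h2 := (tendsto_one_div_add_atTop_nhds_zero_nat (𝕜 := ℝ)).const_add 1
          rw [add_zero] at h2
          have h3 := (Complex.continuous_ofReal.tendsto 1).comp h2
          rw [Complex.ofReal_one] at h3
          exact h3
        · refine Eventually.of_forall fun n => ?_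
          simp only [Set.mem_compl_iff, Set.mem_singleton_iff]
          intro h
          have h2 : (1 + 1 / ((n : ℝ) + 1) : ℝ) = 1 := by exact_mod_cast h
          have h3 : (0 : ℝ) < 1 / ((n : ℝ) + 1) := by positivity
          linarith
      refine h1.frequently (Frequently.of_forall fun n => ?_)
      exact hreal _ (by positivity))
  exact key ht

end Pool.Agent.MU3B
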