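import Pool.Agent.MU3.StA

/-!
# MU3, block A: module PFG (helper18)
-/

set_option autoImplicit false

namespace Pool.Agent.MU3A

open Pool.Agent.MU3B Filter Topology

namespace PFG18

/-- Product rule with logarithmic derivatives. -/
theorem prod_rule (R : Finset ℂ) (f : ℂ → ℂ → ℂ) (l : ℂ → ℂ) (z : ℂ)
    (h : ∀ q ∈ R, HasDerivAt (f q) (l q * f q z) z) :
    HasDerivAt (fun x => ∏ q ∈ R, f q x) ((∑ q ∈ R, l q) * ∏ q ∈ R, f q z) z := by
  classical
  induction R using Finset.induction_on with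
  | empty => simpa using hasDerivAt_const z (1 : ℂ)
  | insert q s hq ih =>
    have h1 := h q (Finset.mem_insert_self q s)
    have h2 := ih (fun p hp => h p (Finset.mem_insert_of_mem hp))
    have h3 := h1.mul h2
    have e : (fun x => ∏ p ∈ insert q s, f p x) = f q * fun x => ∏ p ∈ s, f p x := by
      funext x
      rw [Finset.prod_insert hq]
      rfl
    have e2 : (∑ p ∈ insert q s, l p) * ∏ p ∈ insert q s, f p z =
        l q * f q z * ∏ p ∈ s, f p z + f q z * ((∑ p ∈ s, l p) * ∏ p ∈ s, f p z) := by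
      rw [Finset.sum_insert hq, Finset.prod_insert hq]
      ring
    rw [e, e2]
    exact h3

/-- The negatives of a system of representatives. -/
theorem reps_neg {L : PeriodPair} {a : ℂ} {R : Finset ℂ} (hR : IsReps L a R) :
    IsReps L a (R.image fun q => -q) := by
  refine ⟨?_, ?_, ?_, ?_⟩
  · intro q hq'
    obtain ⟨q, hq, rfl⟩ := Finset.mem_image.1 hq'
    rw [mul_neg]
    exact L.lattice.neg_mem (hR.mem q hq)
  · intro q hq'
    obtain ⟨q, hq, rfl⟩ := Finset.mem_image.1 hq'
    intro h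
    have := L.lattice.neg_mem h
    rw [neg_neg] at this
    exact hR.ne q hq this
  · intro q hq1 q' hq1' h
    obtain ⟨q, hq, rfl⟩ := Finset.mem_image.1 hq1
    obtain ⟨q', hq', rfl⟩ := Finset.mem_image.1 hq1'
    have h1 := L.lattice.neg_mem h
    have e : -(-q - -q') = q - q' := by ring
    rw [e] at h1
    rw [hR.inj q hq q' hq' h1]
  · intro z hz hz'
    obtain ⟨q, hq, h⟩ := hR.surj (-z) (by rw [mul_neg]; exact L.lattice.neg_mem hz)
      (fun h => hz' (by
        have := L.lattice.neg_mem h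
        rwa [neg_neg] at this))
    refine ⟨-q, Finset.mem_image_of_mem _ hq, ?_⟩
    have h1 := L.lattice.neg_mem h
    have e : -(-z - q) = z - -q := by ring
    rwa [e] at h1

theorem sum_neg (R : Finset ℂ) (f : ℂ → ℂ) :
    ∑ q ∈ R.image (fun q => -q), f q = ∑ q ∈ R, f (-q) :=
  Finset.sum_image fun _ _ _ _ h => neg_injective h

/-- the logarithmic derivative of `℘ - ℘(Q)` -/
noncomputable def lg (L : PeriodPair) (Q z : ℂ) : ℂ := ee L (z + Q) + ee L (z - Q) - 2 * ee L z

theorem hasD (L : PeriodPair) {z : ℂ} (hz : z ∉ L.lattice) :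
    HasDerivAt L.weierstrassP (L.derivWeierstrassP z) z := by
  have h := (L.analyticOnNhd_weierstrassP z hz).differentiableAt.hasDerivAt
  rwa [L.deriv_weierstrassP] at h

theorem hasL (hID : St_ID) (L : PeriodPair) {Q z : ℂ} (hQ : Q ∉ L.lattice) (hz : z ∉ L.lattice)
    (h1 : z + Q ∉ L.lattice) (h2 : z - Q ∉ L.lattice) :
    HasDerivAt (fun x => L.weierstrassP x - L.weierstrassP Q)
      (lg L Q z * (L.weierstrassP z - L.weierstrassP Q)) z := by
  have h3 := (hasD L hz).sub_const (L.weierstrassP Q)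
  rw [← hID L Q z hQ hz h1 h2] at h3
  exact h3

theorem ex0 (L : PeriodPair) (z : ℂ) :
    L.weierstrassP z = L.weierstrassPExcept 0 z + 1 / z ^ 2 := by
  have h := L.weierstrassPExcept_add 0 z
  rw [← h]
  simp

/-- The double pole at `0`. -/
theorem lim (L : PeriodPair) (a : ℂ) (ha : a ≠ 0) (c : ℂ) :
    Tendsto (fun s => s ^ 2 * (L.weierstrassP (a * s) - c)) (𝓝[≠] 0) (𝓝 (1 / a ^ 2)) := by
  have hE : ContinuousAt (L.weierstrassPExcept 0) 0 :=
    (L.analyticAt_weierstrassPExcept 0).continuousAt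
  have h1 : ContinuousAt (fun s : ℂ => L.weierstrassPExcept 0 (a * s)) 0 :=
    ContinuousAt.comp_of_eq hE (by fun_prop) (by simp)
  have h2 : ContinuousAt (fun s : ℂ => s ^ 2 * (L.weierstrassPExcept 0 (a * s) - c) + 1 / a ^ 2)
      0 := ((continuousAt_id.pow 2).mul (h1.sub continuousAt_const)).add continuousAt_const
  have h3 : Tendsto (fun s : ℂ => s ^ 2 * (L.weierstrassPExcept 0 (a * s) - c) + 1 / a ^ 2)
      (𝓝[≠] 0) (𝓝 (1 / a ^ 2)) := by
    have h4 := h2.tendsto.mono_left (nhdsWithin_le_nhds (s := {(0 : ℂ)}ᶜ))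
    simpa using h4
  refine h3.congr' ?_
  filter_upwards [self_mem_nhdsWithin] with s hs
  have hs' : s ≠ 0 := hs
  rw [ex0]
  field_simp
  ring

theorem lim1 (L : PeriodPair) (c : ℂ) :
    Tendsto (fun s => s ^ 2 * (L.weierstrassP s - c)) (𝓝[≠] 0) (𝓝 1) := by
  have h := lim L 1 one_ne_zero c
  simpa using h

end PFG18

open PFG18 in
theorem ta_PFG (hDIS : St_DIS) (hID : St_ID) (hNEQ : St_NEQ) : Sa_PFG := by
  classical
  intro L a R w ha haL hR haw
  -- the domain
  obtain ⟨U, hU⟩ : ∃ U : Set ℂ, U = {z | a * z ∉ L.lattice ∧ a * z - a * w ∉ L.lattice ∧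
    a * z + a * w ∉ L.lattice} := ⟨_, rfl⟩
  have hmem : ∀ z, z ∈ U ↔ a * z ∉ L.lattice ∧ a * z - a * w ∉ L.lattice ∧
    a * z + a * w ∉ L.lattice := fun z => by rw [hU]; rfl
  have hUc : Uᶜ.Countable := by
    have hc : Countable L.lattice := L.latticeEquivProd.toEquiv.injective.countable
    have hc2 : (L.lattice : Set ℂ).Countable := hc
    have h1 : ((fun z : ℂ => a * z) ⁻¹' (L.lattice : Set ℂ)).Countable :=
      hc2.preimage_of_injOn fun x _ y _ hxy => mul_left_cancel₀ ha hxy
    have h2 : ((fun z : ℂ => a * z - a * w) ⁻¹' (L.lattice : Set ℂ)).Countable :=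
      hc2.preimage_of_injOn fun x _ y _ hxy => mul_left_cancel₀ ha (sub_left_injective hxy)
    have h3 : ((fun z : ℂ => a * z + a * w) ⁻¹' (L.lattice : Set ℂ)).Countable :=
      hc2.preimage_of_injOn fun x _ y _ hxy => mul_left_cancel₀ ha (add_left_injective _ hxy)
    refine ((h1.union h2).union h3).mono fun z hz => ?_
    by_contra h
    apply hz
    rw [hmem]
    exact ⟨fun h' => h (Or.inl (Or.inl h')), fun h' => h (Or.inl (Or.inr h')),
      fun h' => h (Or.inr h')⟩
  have hUopen : IsOpen U := by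
    have e : U = ((fun z : ℂ => a * z) ⁻¹' (L.lattice : Set ℂ)ᶜ) ∩
        (((fun z : ℂ => a * z - a * w) ⁻¹' (L.lattice : Set ℂ)ᶜ) ∩
          ((fun z : ℂ => a * z + a * w) ⁻¹' (L.lattice : Set ℂ)ᶜ)) := by
      rw [hU]
      rfl
    rw [e]
    have ho := L.isClosed_lattice.isOpen_compl
    exact (ho.preimage (by fun_prop)).inter
      ((ho.preimage (by fun_prop)).inter (ho.preimage (by fun_prop)))
  have hUconn : IsConnected U := by
    have h := hUc.isPathConnected_compl_of_one_lt_rank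
      (by simp only [Complex.rank_real_complex, Nat.one_lt_ofNat])
    rw [compl_compl] at h
    exact h.isConnected
  have hUdense : Dense U := by
    have h := hUc.dense_compl ℝ
    rwa [compl_compl] at h
  -- points of `U`
  have hsubq : ∀ x, ∀ q ∈ R, a * x ∉ L.lattice → x + q ∉ L.lattice ∧ x - q ∉ L.lattice := by
    intro x q hq hx
    refine ⟨fun h => hx ?_, fun h => hx ?_⟩
    · have h1 := L.lattice.sub_mem (haL _ h) (hR.mem q hq)
      have e : a * (x + q) - a * q = a * x := by ring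
      rwa [e] at h1
    · have h1 := L.lattice.add_mem (haL _ h) (hR.mem q hq)
      have e : a * (x - q) + a * q = a * x := by ring
      rwa [e] at h1
  have hsub0 : ∀ x, a * x ∉ L.lattice → x ∉ L.lattice := fun x hx h => hx (haL x h)
  have hwL : w ∉ L.lattice := hsub0 w haw
  have hwq : ∀ q ∈ R, w + q ∉ L.lattice := fun q hq => (hsubq w q hq haw).1
  have hplus : ∀ z ∈ U, z + w ∉ L.lattice ∧ ∀ q ∈ R, z + (w + q) ∉ L.lattice := by
    intro z hz
    have h1 : a * (z + w) ∉ L.lattice := by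
      rw [mul_add]
      exact ((hmem z).1 hz).2.2
    refine ⟨hsub0 _ h1, fun q hq => ?_⟩
    rw [← add_assoc]
    exact (hsubq _ q hq h1).1
  have hminus : ∀ z ∈ U, z - w ∉ L.lattice ∧ ∀ q ∈ R, z - (w + q) ∉ L.lattice := by
    intro z hz
    have h1 : a * (z - w) ∉ L.lattice := by
      rw [mul_sub]
      exact ((hmem z).1 hz).2.1
    refine ⟨hsub0 _ h1, fun q hq => ?_⟩
    rw [← sub_sub]
    exact (hsubq _ q hq h1).2
  obtain ⟨Nf, hN⟩ : ∃ N : ℂ → ℂ, N = fun z => (L.weierstrassP (a * z) - L.weierstrassP (a * w)) *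
      ∏ q ∈ R, (L.weierstrassP z - L.weierstrassP q) := ⟨_, rfl⟩
  obtain ⟨Df, hD⟩ : ∃ D : ℂ → ℂ, D = fun z => (L.weierstrassP z - L.weierstrassP w) *
      ∏ q ∈ R, (L.weierstrassP z - L.weierstrassP (w + q)) := ⟨_, rfl⟩
  have hNd : ∀ z ∈ U, HasDerivAt Nf ((a * lg L (a * w) (a * z) + ∑ q ∈ R, lg L q z) * Nf z) z := by
    intro z hz
    obtain ⟨u1, u2, u3⟩ := (hmem z).1 hz
    have g1 : HasDerivAt (fun x => L.weierstrassP (a * x) - L.weierstrassP (a * w))
        (a * lg L (a * w) (a * z) * (L.weierstrassP (a * z) - L.weierstrassP (a * w))) z := by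
      have h3 := hasL hID L haw u1 u3 u2
      have h4 : HasDerivAt (fun x : ℂ => a * x) a z := by
        simpa using (hasDerivAt_id z).const_mul a
      have h5 := HasDerivAt.comp z h3 h4
      have e : lg L (a * w) (a * z) * (L.weierstrassP (a * z) - L.weierstrassP (a * w)) * a =
          a * lg L (a * w) (a * z) * (L.weierstrassP (a * z) - L.weierstrassP (a * w)) := by ring
      rw [e] at h5
      exact h5
    have g2 := prod_rule R (fun q x => L.weierstrassP x - L.weierstrassP q) (fun q => lg L q z) z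
      (fun q hq => hasL hID L (hR.ne q hq) (hsub0 z u1) (hsubq z q hq u1).1 (hsubq z q hq u1).2)
    have g3 := g1.mul g2
    rw [hN]
    have e : (a * lg L (a * w) (a * z) + ∑ q ∈ R, lg L q z) *
        ((L.weierstrassP (a * z) - L.weierstrassP (a * w)) *
          ∏ q ∈ R, (L.weierstrassP z - L.weierstrassP q)) =
        a * lg L (a * w) (a * z) * (L.weierstrassP (a * z) - L.weierstrassP (a * w)) *
          ∏ q ∈ R, (L.weierstrassP z - L.weierstrassP q) +
        (L.weierstrassP (a * z) - L.weierstrassP (a * w)) * ((∑ q ∈ R, lg L q z) *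
          ∏ q ∈ R, (L.weierstrassP z - L.weierstrassP q)) := by ring
    simp only
    rw [e]
    exact g3
  have hDd : ∀ z ∈ U, HasDerivAt Df ((lg L w z + ∑ q ∈ R, lg L (w + q) z) * Df z) z := by
    intro z hz
    obtain ⟨u1, u2, u3⟩ := (hmem z).1 hz
    have g1 := hasL hID L hwL (hsub0 z u1) (hplus z hz).1 (hminus z hz).1
    have g2 := prod_rule R (fun q x => L.weierstrassP x - L.weierstrassP (w + q))
      (fun q => lg L (w + q) z) z
      (fun q hq => hasL hID L (hwq q hq) (hsub0 z u1) ((hplus z hz).2 q hq) ((hminus z hz).2 q hq))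
    have g3 := g1.mul g2
    rw [hD]
    have e : (lg L w z + ∑ q ∈ R, lg L (w + q) z) *
        ((L.weierstrassP z - L.weierstrassP w) *
          ∏ q ∈ R, (L.weierstrassP z - L.weierstrassP (w + q))) =
        lg L w z * (L.weierstrassP z - L.weierstrassP w) *
          ∏ q ∈ R, (L.weierstrassP z - L.weierstrassP (w + q)) +
        (L.weierstrassP z - L.weierstrassP w) * ((∑ q ∈ R, lg L (w + q) z) *
          ∏ q ∈ R, (L.weierstrassP z - L.weierstrassP (w + q))) := by ring
    simp only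
    rw [e]
    exact g3
  have hsum : ∀ z, a * lg L (a * w) (a * z) + ∑ q ∈ R, lg L q z =
      lg L w z + ∑ q ∈ R, lg L (w + q) z := by
    intro z
    have h1 := hDIS L a R ha haL hR (z + w)
    have h2 := hDIS L a _ ha haL (reps_neg hR) (z - w)
    have h3 := hDIS L a R ha haL hR z
    have h4 := hDIS L a _ ha haL (reps_neg hR) z
    rw [sum_neg R fun q => ee L (z - w + q)] at h2
    rw [sum_neg R fun q => ee L (z + q)] at h4
    have e1 : ∑ q ∈ R, lg L q z = ∑ q ∈ R, ee L (z + q) + ∑ q ∈ R, ee L (z + -q) -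
        ∑ q ∈ R, 2 * ee L z := by
      rw [← Finset.sum_add_distrib, ← Finset.sum_sub_distrib]
      refine Finset.sum_congr rfl fun q _ => ?_
      rw [lg, sub_eq_add_neg z q]
    have e2 : ∑ q ∈ R, lg L (w + q) z = ∑ q ∈ R, ee L (z + w + q) + ∑ q ∈ R, ee L (z - w + -q) -
        ∑ q ∈ R, 2 * ee L z := by
      rw [← Finset.sum_add_distrib, ← Finset.sum_sub_distrib]
      refine Finset.sum_congr rfl fun q _ => ?_
      have e3 : z + (w + q) = z + w + q := by ring
      have e4 : z - (w + q) = z - w + -q := by ring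
      rw [lg, e3, e4]
    rw [e1, e2, lg, lg]
    rw [mul_add] at h1
    rw [mul_sub] at h2
    linear_combination h3 + h4 - h1 - h2
  have hDne : ∀ z ∈ U, Df z ≠ 0 := by
    intro z hz
    obtain ⟨u1, u2, u3⟩ := (hmem z).1 hz
    rw [hD]
    refine mul_ne_zero (fun h => ?_) (Finset.prod_ne_zero_iff.2 fun q hq h => ?_)
    · rcases hNEQ L w z hwL (hsub0 z u1) (sub_eq_zero.1 h) with h1 | h1
      · exact (hminus z hz).1 h1
      · exact (hplus z hz).1 h1
    · rcases hNEQ L (w + q) z (hwq q hq) (hsub0 z u1) (sub_eq_zero.1 h) with h1 | h1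
      · exact (hminus z hz).2 q hq h1
      · exact (hplus z hz).2 q hq h1
  have hQ : ∀ z ∈ U, HasDerivAt (fun x => Nf x / Df x) 0 z := by
    intro z hz
    have h3 := (hNd z hz).div (hDd z hz) (hDne z hz)
    rw [hsum z] at h3
    have e : ((lg L w z + ∑ q ∈ R, lg L (w + q) z) * Nf z * Df z -
        Nf z * ((lg L w z + ∑ q ∈ R, lg L (w + q) z) * Df z)) / Df z ^ 2 = 0 := by
      rw [div_eq_zero_iff]
      left
      ring
    rw [e] at h3
    exact h3
  obtain ⟨C, hC⟩ := hUopen.exists_is_const_of_deriv_eq_zero hUconn.isPreconnected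
    (fun z hz => (hQ z hz).differentiableAt.differentiableWithinAt) (fun z hz => (hQ z hz).deriv)
  have hND : ∀ z ∈ U, Nf z = C * Df z := fun z hz => (div_eq_iff (hDne z hz)).1 (hC z hz)
  -- the constant
  have hCa : 1 / a ^ 2 = C := by
    have hne : (𝓝[U] (0 : ℂ)).NeBot := mem_closure_iff_nhdsWithin_neBot.1 (hUdense 0)
    have hle : 𝓝[U] (0 : ℂ) ≤ 𝓝[≠] 0 := by
      refine nhdsWithin_mono _ fun z hz hz0 => ?_
      have hz0' : z = 0 := hz0
      apply ((hmem z).1 hz).1
      rw [hz0', mul_zero]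
      exact L.lattice.zero_mem
    have t1 : Tendsto (fun z => (z ^ 2 * (L.weierstrassP (a * z) - L.weierstrassP (a * w))) *
        ∏ q ∈ R, (z ^ 2 * (L.weierstrassP z - L.weierstrassP q))) (𝓝[U] 0)
        (𝓝 (1 / a ^ 2 * ∏ _q ∈ R, (1 : ℂ))) :=
      (((lim L a ha _).mul (tendsto_finsetProd R fun q _ => lim1 L _))).mono_left hle
    have t2 : Tendsto (fun z => (z ^ 2 * (L.weierstrassP z - L.weierstrassP w)) *
        ∏ q ∈ R, (z ^ 2 * (L.weierstrassP z - L.weierstrassP (w + q)))) (𝓝[U] 0)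
        (𝓝 (1 * ∏ _q ∈ R, (1 : ℂ))) :=
      (((lim1 L _).mul (tendsto_finsetProd R fun q _ => lim1 L _))).mono_left hle
    rw [Finset.prod_const_one, mul_one] at t1 t2
    have t3 := t2.const_mul C
    rw [mul_one] at t3
    refine tendsto_nhds_unique t1 (t3.congr' ?_)
    filter_upwards [self_mem_nhdsWithin] with z hz
    have h1 := hND z hz
    rw [hN, hD] at h1
    simp only at h1
    rw [Finset.prod_mul_distrib, Finset.prod_mul_distrib, Finset.prod_const]
    linear_combination (-(z ^ 2 * (z ^ 2) ^ R.card)) * h1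
  -- all points
  intro z hz
  have hzL := hsub0 z hz
  have hne : (𝓝[U] z).NeBot := mem_closure_iff_nhdsWithin_neBot.1 (hUdense z)
  have c0 : ContinuousAt L.weierstrassP z := (L.analyticOnNhd_weierstrassP z hzL).continuousAt
  have c1 : ContinuousAt (fun x => L.weierstrassP (a * x)) z :=
    ContinuousAt.comp_of_eq (L.analyticOnNhd_weierstrassP (a * z) hz).continuousAt
      (by fun_prop) rfl
  have c2 : ContinuousAt Nf z := by
    rw [hN]
    exact (c1.sub continuousAt_const).mul
      (tendsto_finsetProd R fun q _ => c0.sub continuousAt_const)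
  have c3 : ContinuousAt Df z := by
    rw [hD]
    exact (c0.sub continuousAt_const).mul
      (tendsto_finsetProd R fun q _ => c0.sub continuousAt_const)
  have t1 : Tendsto Nf (𝓝[U] z) (𝓝 (Nf z)) := c2.tendsto.mono_left nhdsWithin_le_nhds
  have t2 : Tendsto (fun x => C * Df x) (𝓝[U] z) (𝓝 (C * Df z)) :=
    (c3.tendsto.mono_left nhdsWithin_le_nhds).const_mul C
  have h1 : Nf z = C * Df z := by
    refine tendsto_nhds_unique t1 (t2.congr' ?_)
    filter_upwards [self_mem_nhdsWithin] with x hx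
    exact (hND x hx).symm
  rw [← hCa, hN, hD] at h1
  simp only at h1
  have ha2 : a ^ 2 ≠ 0 := pow_ne_zero 2 ha
  have h2 : a ^ 2 * (1 / a ^ 2) = 1 := mul_one_div_cancel ha2
  linear_combination (a ^ 2) * h1 + ((L.weierstrassP z - L.weierstrassP w) *
    ∏ q ∈ R, (L.weierstrassP z - L.weierstrassP (w + q))) * h2

end Pool.Agent.MU3A
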