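import Pool.Agent.MU3.StGl
import Pool.Agent.RID.P_LAYC
import Pool.Agent.RI.LAY
import Pool.Agent.RI.BCH

/-!
# MU3_GALK: `K_n / k` is Galois with abelian group
-/

open NumberField IsDedekindDomain Finset
open scoped nonZeroDivisors Pointwise

namespace Pool.Agent.MU3

open Pool.Agent.RI Pool.Agent.RID

namespace P_GALK

/-- the layers over the bottom field -/
theorem bot_gal {B : IntermediateField ℚ ℂ} (hG : IsGalois ℚ B) :
    IsGalois ↥(⊥ : IntermediateField ℚ ℂ)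
      (IntermediateField.extendScalars (bot_le : (⊥ : IntermediateField ℚ ℂ) ≤ B)) := by
  let e : B ≃ₐ[ℚ] (IntermediateField.extendScalars
      (bot_le : (⊥ : IntermediateField ℚ ℂ) ≤ B)) :=
    { toFun := fun x => ⟨x.1, x.2⟩
      invFun := fun x => ⟨x.1, x.2⟩
      left_inv := fun _ => rfl
      right_inv := fun _ => rfl
      map_mul' := fun _ _ => rfl
      map_add' := fun _ _ => rfl
      commutes' := fun _ => rfl }
  have : IsGalois ℚ (IntermediateField.extendScalars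
      (bot_le : (⊥ : IntermediateField ℚ ℂ) ≤ B)) := IsGalois.of_algEquiv e
  exact IsGalois.tower_top_of_isGalois ℚ _ _

theorem transp {k X Y : IntermediateField ℚ ℂ} (e : X = Y) (hX : k ≤ X) (hY : k ≤ Y)
    (h : IsGalois k (IntermediateField.extendScalars hX)) :
    IsGalois k (IntermediateField.extendScalars hY) := by
  subst e
  exact h

/-- two automorphisms of `K B / k` which commute on `K` and on `B` commute -/
theorem comm_of {k K B : IntermediateField ℚ ℂ} (h : k ≤ K ⊔ B) :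
    letI := algC h
    ∀ σ τ : ↥(K ⊔ B) ≃ₐ[k] ↥(K ⊔ B),
      (∀ x : ↥(K ⊔ B), (x : ℂ) ∈ K → σ (τ x) = τ (σ x)) →
      (∀ x : ↥(K ⊔ B), (x : ℂ) ∈ B → σ (τ x) = τ (σ x)) → σ * τ = τ * σ := by
  letI := algC h
  intro σ τ h1 h2
  have hQ : ∀ (ρ : ↥(K ⊔ B) ≃ₐ[k] ↥(K ⊔ B)) (r : ℚ), ρ (r : ↥(K ⊔ B)) = r := fun ρ r =>
    map_ratCast ρ r
  let T : IntermediateField ℚ ℂ :=
    { carrier := {z | ∃ hz : z ∈ K ⊔ B, σ (τ ⟨z, hz⟩) = τ (σ ⟨z, hz⟩)}
      mul_mem' := by
        rintro a b ⟨ha, ha'⟩ ⟨hb, hb'⟩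
        refine ⟨mul_mem ha hb, ?_⟩
        have e : (⟨a * b, mul_mem ha hb⟩ : ↥(K ⊔ B)) = ⟨a, ha⟩ * ⟨b, hb⟩ := rfl
        rw [e, map_mul, map_mul, map_mul, map_mul, ha', hb']
      add_mem' := by
        rintro a b ⟨ha, ha'⟩ ⟨hb, hb'⟩
        refine ⟨add_mem ha hb, ?_⟩
        have e : (⟨a + b, add_mem ha hb⟩ : ↥(K ⊔ B)) = ⟨a, ha⟩ + ⟨b, hb⟩ := rfl
        rw [e, map_add, map_add, map_add, map_add, ha', hb']
      algebraMap_mem' := by
        intro r
        refine ⟨algebraMap_mem _ r, ?_⟩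
        have e : (⟨algebraMap ℚ ℂ r, algebraMap_mem _ r⟩ : ↥(K ⊔ B)) = (r : ↥(K ⊔ B)) := by
          apply Subtype.ext
          simp
        rw [e, hQ, hQ, hQ]
      inv_mem' := by
        rintro a ⟨ha, ha'⟩
        refine ⟨inv_mem ha, ?_⟩
        have e : (⟨a⁻¹, inv_mem ha⟩ : ↥(K ⊔ B)) = (⟨a, ha⟩)⁻¹ := rfl
        rw [e, map_inv₀, map_inv₀, map_inv₀, map_inv₀, ha'] }
  have hT : K ⊔ B ≤ T := by
    apply sup_le
    · intro a ha
      exact ⟨(le_sup_left : K ≤ K ⊔ B) ha, h1 _ ha⟩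
    · intro b hb
      exact ⟨(le_sup_right : B ≤ K ⊔ B) hb, h2 _ hb⟩
  ext x
  obtain ⟨hz, hx⟩ := hT x.2
  exact congrArg _ hx

/-- commuting on a normal subfield with abelian group -/
theorem comm_on {F E L : Type} [Field F] [Field E] [Field L] [Algebra F E] [Algebra F L]
    [Algebra E L] [IsScalarTower F E L] [Normal F E] (hab : ∀ a b : E ≃ₐ[F] E, a * b = b * a)
    (σ τ : L ≃ₐ[F] L) (x : E) :
    σ (τ (algebraMap E L x)) = τ (σ (algebraMap E L x)) := by
  rw [← AlgEquiv.restrictNormal_commutes τ E x, ← AlgEquiv.restrictNormal_commutes σ E,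
    ← AlgEquiv.restrictNormal_commutes σ E x, ← AlgEquiv.restrictNormal_commutes τ E]
  have h := congrArg (fun ρ : E ≃ₐ[F] E => ρ x) (hab (σ.restrictNormal E) (τ.restrictNormal E))
  exact congrArg _ h

end P_GALK

open P_GALK

theorem t_GALK : S_GALK := by
  intro k K B fdK fdKB hB n h
  letI aL : Algebra k ↥(K ⊔ B n) := algC h
  haveI : Fact (Nat.Prime 3) := ⟨Nat.prime_three⟩
  obtain ⟨fdB, hGB, -⟩ := LAY_thm 3 n (B n) (hB.lay n)
  have hcyc : IsCyclic (B n ≃ₐ[ℚ] B n) := t_LAYC 3 n (B n) (hB.lay n)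
  have fdk : FiniteDimensional ℚ k := FiniteDimensional.of_injective
    (IntermediateField.inclusion hB.hk).toLinearMap
    (IntermediateField.inclusion hB.hk).toRingHom.injective
  refine ⟨?_, ?_⟩
  · have h1 := BCH_thm.1 ⊥ (B n) k k (k ⊔ B n) bot_le le_sup_left (bot_sup_eq k).symm
      (sup_comm k (B n)) (bot_gal hGB)
    have hfM : FiniteDimensional ℚ ↥(k ⊔ B n) := IntermediateField.finiteDimensional_sup k (B n)
    have h2 := BCH_thm.2 k K (k ⊔ B n) hB.hk le_sup_left (hB.hk.trans le_sup_left) hB.gal h1.1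
    have e : K ⊔ (k ⊔ B n) = K ⊔ B n := by
      rw [← sup_assoc, sup_eq_left.2 hB.hk]
    exact (isGalois_algC h).2 (transp e _ h h2)
  · intro σ τ
    refine comm_of h σ τ ?_ ?_
    · intro x hx
      letI aK : Algebra k K := algC hB.hk
      letI aKL : Algebra K ↥(K ⊔ B n) := algC le_sup_left
      haveI : IsScalarTower k K ↥(K ⊔ B n) := towerC hB.hk le_sup_left
      haveI : IsGalois k K := (isGalois_algC hB.hk).2 hB.gal
      have hab : ∀ a b : K ≃ₐ[k] K, a * b = b * a := by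
        intro a b
        have h1 := hB.ab ((extEquiv hB.hk).symm.autCongr a) ((extEquiv hB.hk).symm.autCongr b)
        rw [← map_mul, ← map_mul] at h1
        exact (extEquiv hB.hk).symm.autCongr.injective h1
      exact comm_on hab σ τ (⟨(x : ℂ), hx⟩ : K)
    · intro x hx
      letI aBL : Algebra (B n) ↥(K ⊔ B n) := algC le_sup_right
      haveI : IsScalarTower ℚ (B n) ↥(K ⊔ B n) := IsScalarTower.of_algebraMap_eq (fun _ => rfl)
      haveI : IsScalarTower ℚ k ↥(K ⊔ B n) := IsScalarTower.of_algebraMap_eq (fun _ => rfl)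
      have hab : ∀ a b : B n ≃ₐ[ℚ] B n, a * b = b * a := by
        intro a b
        obtain ⟨g, hg⟩ := hcyc.exists_generator
        obtain ⟨i, rfl⟩ := hg a
        obtain ⟨j, rfl⟩ := hg b
        exact zpow_mul_comm g i j
      exact comm_on hab (σ.restrictScalars ℚ) (τ.restrictScalars ℚ) (⟨(x : ℂ), hx⟩ : B n)

end Pool.Agent.MU3
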