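import Pool.Agent.MU3.StGl
import Pool.Agent.RI.LAY
import Pool.Agent.RID.P_GCC
import Pool.Agent.RID.P_GCP

/-!
# MU3, module TWK: the structure of `Gal(K_n / k)`
-/

open NumberField IsDedekindDomain Finset
open scoped nonZeroDivisors Pointwise

namespace Pool.Agent.MU3

open Pool.Agent.RI Pool.Agent.RID

namespace P_TWK

/-- The group generated by an automorphism with fixed field `A`. -/
lemma zp {F L : Type} [Field F] [Field L] [Algebra F L] [FiniteDimensional F L]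
    (γ : L ≃ₐ[F] L) (A : IntermediateField F L) (hA : ∀ x, γ x = x ↔ x ∈ A) :
    A.fixingSubgroup = Subgroup.zpowers γ := by
  have hfix : ∀ (δ : L ≃ₐ[F] L) (x : L),
      x ∈ IntermediateField.fixedField (Subgroup.zpowers δ) ↔ δ x = x := by
    intro δ x
    constructor
    · intro h
      exact h ⟨δ, Subgroup.mem_zpowers δ⟩
    · intro h τ
      obtain ⟨τ, j, rfl⟩ := τ
      have h5 : δ ∈ MulAction.stabilizer (L ≃ₐ[F] L) x := h
      exact zpow_mem h5 j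
  have hAf : IntermediateField.fixedField (Subgroup.zpowers γ) = A := by
    ext x
    rw [hfix, hA]
  rw [← hAf, IntermediateField.fixingSubgroup_fixedField]

/-- The order of `NC` divides `[K : k]`. -/
lemma card_NC {k K B : IntermediateField ℚ ℂ} [FiniteDimensional ℚ K] (hk : k ≤ K)
    (gal : IsGalois k (IntermediateField.extendScalars hk)) (h : k ≤ K ⊔ B) :
    letI := algC h
    Nat.card (NC h B) ∣ Module.finrank ℚ K := by
  let akL : Algebra k ↥(K ⊔ B) := algC h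
  let akK : Algebra k K := algC hk
  have hKL : K ≤ K ⊔ B := le_sup_left
  let aKL : Algebra K ↥(K ⊔ B) := algC hKL
  have t0 : IsScalarTower k K ↥(K ⊔ B) := towerC hk hKL
  have gK : IsGalois k K := (isGalois_algC hk).2 gal
  have fdK : FiniteDimensional k K := Module.Finite.of_restrictScalars_finite ℚ k _
  have hres : ∀ (σ : ↥(K ⊔ B) ≃ₐ[k] ↥(K ⊔ B)) (x : K),
      ((σ.restrictNormal K x : K) : ℂ) =
        ((σ ⟨(x : ℂ), hKL x.2⟩ : ↥(K ⊔ B)) : ℂ) := by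
    intro σ x
    have h2 := AlgEquiv.restrictNormal_commutes σ K x
    exact congrArg Subtype.val h2
  let f : (NC h B) →* (K ≃ₐ[k] K) :=
    (AlgEquiv.restrictNormalHom K : (↥(K ⊔ B) ≃ₐ[k] ↥(K ⊔ B)) →* (K ≃ₐ[k] K)).comp
      (NC h B).subtype
  have hf : Function.Injective f := by
    rw [injective_iff_map_eq_one]
    intro σ hσ
    apply Subtype.ext
    apply GCC.triv h
    · intro x hx
      apply Subtype.ext
      have h3 := hres (σ : ↥(K ⊔ B) ≃ₐ[k] ↥(K ⊔ B)) ⟨x.1, hx⟩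
      have h4 : (σ : ↥(K ⊔ B) ≃ₐ[k] ↥(K ⊔ B)).restrictNormal K = 1 := hσ
      rw [h4] at h3
      exact h3.symm
    · intro x hx
      exact σ.2 x hx
  have h1 : Nat.card (NC h B) ∣ Nat.card (K ≃ₐ[k] K) := Subgroup.card_dvd_of_injective f hf
  rw [IsGalois.card_aut_eq_finrank] at h1
  have h2 : Module.finrank ℚ k * Module.finrank k K = Module.finrank ℚ K :=
    Module.finrank_mul_finrank ℚ k K
  exact h1.trans ⟨_, by rw [← h2, mul_comm]⟩

/-- `NC` and `γ` generate the group. -/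
lemma gener {n : ℕ} {k K B : IntermediateField ℚ ℂ} [FiniteDimensional ℚ ↥(K ⊔ B)]
    (hB : IsLayer 3 n B) (h : k ≤ K ⊔ B) :
    letI := algC h
    ∀ γ : ↥(K ⊔ B) ≃ₐ[k] ↥(K ⊔ B), (∀ x : ↥(K ⊔ B), γ x = x ↔ (x : ℂ) ∈ K) →
      orderOf γ = 3 ^ n → ∀ σ : ↥(K ⊔ B) ≃ₐ[k] ↥(K ⊔ B), ∃ δ ∈ NC h B, ∃ i : ℕ, σ = δ * γ ^ i := by
  let akL : Algebra k ↥(K ⊔ B) := algC h
  intro γ hγ hord σ
  obtain ⟨hfB, hGB, -⟩ := LAY_thm 3 n B hB
  have hBL : B ≤ K ⊔ B := le_sup_right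
  let aBL : Algebra B ↥(K ⊔ B) := algC hBL
  have hT : IsScalarTower ℚ B ↥(K ⊔ B) := IsScalarTower.of_algebraMap_eq fun x => by
    apply Subtype.ext
    rw [eq_ratCast, eq_ratCast, map_ratCast]
  have hT' : IsScalarTower ℚ k ↥(K ⊔ B) := IsScalarTower.of_algebraMap_eq fun x => by
    apply Subtype.ext
    rw [eq_ratCast, eq_ratCast, map_ratCast]
  let r : (↥(K ⊔ B) ≃ₐ[k] ↥(K ⊔ B)) →* (B ≃ₐ[ℚ] B) :=
    (AlgEquiv.restrictNormalHom (F := ℚ) (K₁ := ↥(K ⊔ B)) B).comp (AlgEquiv.restrictScalarsHom ℚ)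
  have hr : ∀ τ : ↥(K ⊔ B) ≃ₐ[k] ↥(K ⊔ B), r τ = 1 → ∀ x : ↥(K ⊔ B), (x : ℂ) ∈ B → τ x = x := by
    intro τ hτ x hx
    have h1 := AlgEquiv.restrictNormal_commutes (AlgEquiv.restrictScalars ℚ τ) B ⟨x.1, hx⟩
    have h2 : (AlgEquiv.restrictScalars ℚ τ).restrictNormal B = 1 := hτ
    rw [h2, AlgEquiv.one_apply] at h1
    exact h1.symm
  have hK : ∀ j : ℤ, ∀ x : ↥(K ⊔ B), (x : ℂ) ∈ K → (γ ^ j) x = x := by
    intro j x hx
    have h5 : γ ∈ MulAction.stabilizer (↥(K ⊔ B) ≃ₐ[k] ↥(K ⊔ B)) x := (hγ x).2 hx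
    exact zpow_mem h5 j
  have hinj : Function.Injective (r.comp (Subgroup.zpowers γ).subtype) := by
    rw [injective_iff_map_eq_one]
    rintro ⟨τ, j, rfl⟩ hτ
    apply Subtype.ext
    apply GCC.triv h
    · exact hK j
    · exact hr _ hτ
  have hcard : Nat.card (Subgroup.zpowers γ) = Nat.card (B ≃ₐ[ℚ] B) := by
    rw [Nat.card_zpowers, hord, IsGalois.card_aut_eq_finrank, hB.1]
  have hbij := (Nat.bijective_iff_injective_and_card _).2 ⟨hinj, hcard⟩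
  obtain ⟨⟨z, hz⟩, hz2⟩ := hbij.2 (r σ)
  have hfin : IsOfFinOrder γ := by
    rw [← orderOf_pos_iff, hord]
    positivity
  obtain ⟨i, hi⟩ := (hfin.mem_powers_iff_mem_zpowers).2 hz
  have hi' : γ ^ i = z := hi
  have hz3 : r z = r σ := hz2
  refine ⟨σ * z⁻¹, ?_, i, ?_⟩
  · have h6 : r (σ * z⁻¹) = 1 := by rw [map_mul, map_inv, hz3, mul_inv_cancel]
    exact hr _ h6
  · rw [hi', inv_mul_cancel_right]

end P_TWK

open P_TWK in
theorem t_TWK (h1 : S_GALK) (h2 : _root_.MU3.N_GAL) : S_TWK := by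
  intro k K B _ _ hB n h
  let akL : Algebra k ↥(K ⊔ B n) := algC h
  intro γ hγ
  obtain ⟨hG, hc⟩ := h1 k K B hB n h
  have fdL : FiniteDimensional k ↥(K ⊔ B n) := Module.Finite.of_restrictScalars_finite ℚ k _
  obtain ⟨g, hg1, hg2, -⟩ := h2 3 k K B hB.hk hB.cop hB.lay hB.mono n h
  have hord : orderOf γ = 3 ^ n := by
    have e1 := zp γ (GCC.sub h K hB.hk) (fun x => (hγ x).trans (GCC.mem_sub h K hB.hk x).symm)
    have e2 := zp g (GCC.sub h K hB.hk) (fun x => (hg2 x).trans (GCC.mem_sub h K hB.hk x).symm)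
    rw [← Nat.card_zpowers, ← e1, e2, Nat.card_zpowers, hg1]
  refine ⟨hc, hord, ?_, ?_⟩
  · have h3 : Nat.Coprime 3 (Module.finrank ℚ K) :=
      (Nat.Prime.coprime_iff_not_dvd Nat.prime_three).2 hB.cop
    exact (Nat.Coprime.coprime_dvd_right (card_NC hB.hk hB.gal h) h3).symm
  · exact gener (hB.lay n) h γ hγ hord

end Pool.Agent.MU3
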