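import Pool.Agent.MU3.StI2
import Pool.Agent.MU3.P_GALK
import Pool.Agent.MU3.P_TWK

/-!
# MU3, module I3F: the input (I3) for one generator
-/

set_option autoImplicit false

namespace Pool.Agent.MU3I

open _root_.MU3 Pool.Agent.MU3 Pool.Agent.MU3A Pool.Agent.MU3B Pool.Agent.MU3C Pool.Agent.RI
  Pool.Agent.RID

noncomputable section

namespace I3F

/-- `emb x` is in `V` -/
lemma emb_mem_V {A B : ℤ} (hC : Case A B) (V : ValuationSubring ℂ) (x : OO A B) : emb x ∈ V := by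
  have hw : wC A B ∈ V := by
    by_contra h
    have h1 : (wC A B)⁻¹ ∈ V := (V.mem_or_inv_mem (wC A B)).resolve_left h
    have h2 := wC_sq hC
    have h3 := wC_ne_zero hC
    apply h
    have h4 : wC A B = (A : ℂ) * (wC A B)⁻¹ + B := by
      field_simp
      linear_combination h2
    rw [h4]
    exact add_mem (mul_mem (intCast_mem V A) h1) (intCast_mem V B)
  unfold emb
  exact add_mem (intCast_mem V _) (mul_mem (intCast_mem V _) hw)

lemma nonunits_mul {V : ValuationSubring ℂ} {x y : ℂ} (hx : x ∈ V.nonunits) (hy : y ∈ V) :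
    x * y ∈ V.nonunits := by
  rw [ValuationSubring.mem_nonunits_iff] at hx ⊢
  rw [map_mul]
  have h1 : V.valuation y ≤ 1 := (V.valuation_le_one_iff y).2 hy
  exact mul_lt_one_of_lt_of_le hx h1

lemma three_mem {A B : ℤ} (hC : Case A B) (V : ValuationSubring ℂ)
    (hV : emb (ppi A B) ∈ V.nonunits) : (3 : ℂ) ∈ V.nonunits := by
  have h1 : ppi A B * star (ppi A B) = 3 := by
    rcases hC with ⟨rfl, rfl⟩ | ⟨rfl, rfl⟩
    · ext
      · simp [ppi]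
        rfl
      · simp [ppi]
        rfl
    · ext
      · simp [ppi]
        rfl
      · simp [ppi]
        rfl
  have h2 : emb (ppi A B) * emb (star (ppi A B)) = (3 : ℂ) := by
    rw [← emb_mul hC, h1]
    have h3 := emb_natCast hC 3
    exact_mod_cast h3
  rw [← h2]
  exact nonunits_mul hV (emb_mem_V hC V _)

lemma g_ne {A B : ℤ} (hC : Case A B) {f : ℕ} (hf : f ≠ 0) :
    (f : OO A B) * star (ppi A B) ≠ 0 := by
  intro h
  have h1 : emb ((f : OO A B) * star (ppi A B)) = 0 := by rw [h, emb_zero hC]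
  rw [emb_mul hC, emb_natCast hC] at h1
  rcases mul_eq_zero.1 h1 with h2 | h2
  · exact hf (by exact_mod_cast h2)
  · have h3 : star (ppi A B) ≠ 0 := by
      intro h4
      have h5 := congrArg QuadraticAlgebra.im h4
      simp [ppi] at h5
    exact emb_ne_zero hC h3 h2

lemma zpow_sum {ι : Type} (s : Finset ι) (a : ℂ) (ha : a ≠ 0) (m : ι → ℤ) :
    a ^ (∑ i ∈ s, m i) = ∏ i ∈ s, a ^ m i := by
  classical
  induction s using Finset.induction_on with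
  | empty => simp
  | insert i s hi ih => rw [Finset.sum_insert hi, Finset.prod_insert hi, zpow_add₀ ha, ih]

/-- `TT` as a sum over the classes -/
lemma tt_sumMod {A B : ℤ} (L : PeriodPair) (Om : ℂ) (f n : ℕ) {D : IntermediateField ℚ ℂ}
    (h : kk A B ≤ D) (τ : letI := algC h; D ≃ₐ[kk A B] D) (P : Set (OO A B))
    (hP : P = {x | Ideal.Quotient.mk (Ideal.span {lev A B f n}) x ∈ XX L (lev A B f n) h τ}) :
    sumMod (lev A B f n) (fun x => open Classical in if x ∈ P then FF L Om f n x else 0) =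
      TT L Om f n h τ := by
  classical
  subst hP
  unfold sumMod TT
  rw [finsum_mem_def]
  refine finsum_congr fun q => ?_
  have hq : Ideal.Quotient.mk (Ideal.span {lev A B f n}) (Quotient.out q) = q :=
    Quotient.out_eq' q
  by_cases hx : q ∈ XX L (lev A B f n) h τ
  · rw [Set.indicator_of_mem hx]
    refine if_pos ?_
    show Ideal.Quotient.mk (Ideal.span {lev A B f n}) (Quotient.out q) ∈ XX L (lev A B f n) h τ
    rw [hq]
    exact hx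
  · rw [Set.indicator_of_notMem hx]
    refine if_neg ?_
    intro h1
    apply hx
    have h2 : Ideal.Quotient.mk (Ideal.span {lev A B f n}) (Quotient.out q) ∈
        XX L (lev A B f n) h τ := h1
    rw [hq] at h2
    exact h2

/-- the exponents -/
lemma prod_exp {G : Type} [Group G] [Fintype G] (γ : G) (Δ : Subgroup G) [Fintype Δ] (u : G → ℂ)
    (hu : ∀ τ, u τ ≠ 0) (b : Δ → ℤ) (N : ℕ) (c : ℕ → ℤ) (g : G → ℤ)
    (hg : ∀ τ, g τ = open Classical in ∑ δ : Δ, ∑ j ∈ Finset.range (N + 1),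
      if (δ : G) * γ ^ j = τ then b δ * c j else 0) :
    ∏ᶠ τ : G, u τ ^ g τ =
      ∏ δ : Δ, ∏ j ∈ Finset.range (N + 1), u ((δ : G) * γ ^ j) ^ (b δ * c j) := by
  classical
  rw [finprod_eq_prod_of_fintype]
  have e1 : ∀ τ, u τ ^ g τ = ∏ δ : Δ, ∏ j ∈ Finset.range (N + 1),
      (if (δ : G) * γ ^ j = τ then u τ ^ (b δ * c j) else 1) := by
    intro τ
    rw [hg, zpow_sum _ _ (hu τ)]
    refine Finset.prod_congr rfl fun δ _ => ?_
    rw [zpow_sum _ _ (hu τ)]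
    refine Finset.prod_congr rfl fun j _ => ?_
    split_ifs
    · rfl
    · rw [zpow_zero]
  rw [Finset.prod_congr rfl fun τ _ => e1 τ, Finset.prod_comm]
  refine Finset.prod_congr rfl fun δ _ => ?_
  rw [Finset.prod_comm]
  refine Finset.prod_congr rfl fun j _ => ?_
  rw [Finset.prod_ite_eq Finset.univ ((δ : G) * γ ^ j) (fun τ => u τ ^ (b δ * c j)),
    if_pos (Finset.mem_univ _)]

lemma sum_exp {G : Type} [Group G] [Fintype G] (γ : G) (Δ : Subgroup G) [Fintype Δ] (T : G → ℂ)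
    (b : Δ → ℤ) (N : ℕ) (c : ℕ → ℤ) (g : G → ℤ)
    (hg : ∀ τ, g τ = open Classical in ∑ δ : Δ, ∑ j ∈ Finset.range (N + 1),
      if (δ : G) * γ ^ j = τ then b δ * c j else 0) (τ' : G) :
    ∑ᶠ τ : G, (g τ : ℂ) * T (τ * τ') =
      ∑ δ : Δ, ∑ j ∈ Finset.range (N + 1), (b δ : ℂ) * (c j : ℂ) * T ((δ : G) * γ ^ j * τ') := by
  classical
  rw [finsum_eq_sum_of_fintype]
  have e1 : ∀ τ, (g τ : ℂ) * T (τ * τ') = ∑ δ : Δ, ∑ j ∈ Finset.range (N + 1),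
      (if (δ : G) * γ ^ j = τ then (b δ : ℂ) * (c j : ℂ) * T (τ * τ') else 0) := by
    intro τ
    rw [hg]
    push_cast
    rw [Finset.sum_mul]
    refine Finset.sum_congr rfl fun δ _ => ?_
    rw [Finset.sum_mul]
    refine Finset.sum_congr rfl fun j _ => ?_
    split_ifs
    · ring
    · simp
  rw [Finset.sum_congr rfl fun τ _ => e1 τ, Finset.sum_comm]
  refine Finset.sum_congr rfl fun δ _ => ?_
  rw [Finset.sum_comm]
  refine Finset.sum_congr rfl fun j _ => ?_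
  rw [Finset.sum_ite_eq Finset.univ ((δ : G) * γ ^ j)
    (fun τ => (b δ : ℂ) * (c j : ℂ) * T (τ * τ')), if_pos (Finset.mem_univ _)]

lemma tg_pow (hTG : St_ITG) (k L : Type) [Field k] [Field L] [Algebra k L] (γ δ : L ≃ₐ[k] L)
    (x : L) (hx : x ≠ 0) (N b : ℕ) :
    (δ ((Tg γ)^[N] x)) ^ b = ∏ j ∈ Finset.range (N + 1),
      ((δ * γ ^ j) x) ^ ((b : ℤ) * ((-1 : ℤ) ^ (N - j) * (N.choose j : ℤ))) := by
  rw [hTG k L γ x hx N, map_prod, ← Finset.prod_pow]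
  refine Finset.prod_congr rfl fun j _ => ?_
  rw [map_zpow₀, AlgEquiv.mul_apply, mul_comm (b : ℤ), zpow_mul _ _ (b : ℤ), zpow_natCast]

/-- if the product is a cube, then the sum has `Hf V` -/
theorem cubes (hEF : St_EFIN) (hFOU : St_IFOU) (hTG : St_ITG) {A B : ℤ} (hC : Case A B)
    (L : PeriodPair) (Om : ℂ) (hCM : IsCM A B L Om)
    (V : ValuationSubring ℂ) (hV : emb (ppi A B) ∈ V.nonunits) (f : ℕ) (hf : f ≠ 0)
    (hf3 : ¬ 3 ∣ f) (h2 : 2 * absD A B ∣ (f : ℤ)) (hmz : mz A B ∣ (f : OO A B)) (n : ℕ)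
    (hn : 1 ≤ n) (hCp : Cpl L (lev A B f n)) (Hs : Finset ℂ) (hHs : IsHalf L (1 + 6 * (f : ℂ)) Hs)
    (D : IntermediateField ℚ ℂ) [FiniteDimensional ℚ D] (h : kk A B ≤ D)
    (hTF : ∀ x ∈ D, x ∈ TF L (lev A B f n)) :
    letI := algC h
    ∀ (_ : IsGalois (kk A B) D) (_ : ∀ σ τ : D ≃ₐ[kk A B] D, σ * τ = τ * σ)
      (hc : cc L Om (lev A B f n) Hs h 1 ∈ D) (_ : cc L Om (lev A B f n) Hs h 1 ≠ 0)
      (_ : ∀ τ : D ≃ₐ[kk A B] D, ((τ ⟨_, hc⟩ : D) : ℂ) = cc L Om (lev A B f n) Hs h τ)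
      (γ : D ≃ₐ[kk A B] D) (Δ : Subgroup (D ≃ₐ[kk A B] D)) [Fintype Δ] (N : ℕ) (b : Δ → ℕ)
      (X : Δ →* ℂˣ) (_ : (∑ δ : Δ, (b δ : ℂ) * (X δ : ℂ)) ∉ V.nonunits) (y : D)
      (_ : y ^ 3 = ∏ δ : Δ, ((δ : D ≃ₐ[kk A B] D) ((Tg γ)^[N] ⟨_, hc⟩)) ^ b δ),
      Hf V (∑ j ∈ Finset.range (N + 1), (((-1 : ℤ) ^ (N - j) * (N.choose j : ℤ) : ℤ) : ℂ) *
        ∑ δ : Δ, (((X δ)⁻¹ : ℂˣ) : ℂ) * TT L Om f n h (γ ^ j * (δ : D ≃ₐ[kk A B] D))) := by
  classical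
  let akL : Algebra (kk A B) D := algC h
  intro gal comm hc hc0 hcτ γ Δ iΔ N b X hX y hy
  have fdk : FiniteDimensional (kk A B) D := Module.Finite.of_restrictScalars_finite ℚ (kk A B) D
  have iG : Fintype (D ≃ₐ[kk A B] D) := Fintype.ofFinite _
  let c : ℕ → ℤ := fun j => (-1 : ℤ) ^ (N - j) * (N.choose j : ℤ)
  let g : (D ≃ₐ[kk A B] D) → ℤ := fun τ => ∑ δ : Δ, ∑ j ∈ Finset.range (N + 1),
      if (δ : D ≃ₐ[kk A B] D) * γ ^ j = τ then (b δ : ℤ) * c j else 0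
  have hcne : (⟨_, hc⟩ : D) ≠ 0 := by
    intro h0
    exact hc0 (congrArg Subtype.val h0)
  have hu : ∀ τ : D ≃ₐ[kk A B] D, cc L Om (lev A B f n) Hs h τ ≠ 0 := by
    intro τ h0
    rw [← hcτ τ] at h0
    have h1 : τ (⟨_, hc⟩ : D) = 0 := Subtype.ext h0
    exact hcne ((map_eq_zero_iff τ τ.injective).1 h1)
  have e1 : (y : ℂ) ^ 3 = ∏ᶠ τ : D ≃ₐ[kk A B] D, cc L Om (lev A B f n) Hs h τ ^ g τ := by
    rw [prod_exp γ Δ _ hu (fun δ => (b δ : ℤ)) N c g (fun τ => rfl)]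
    have h1 : (y : ℂ) ^ 3 = D.val (y ^ 3) := rfl
    rw [h1, hy, map_prod]
    refine Finset.prod_congr rfl fun δ _ => ?_
    rw [tg_pow hTG _ _ γ δ _ hcne N (b δ), map_prod]
    refine Finset.prod_congr rfl fun j _ => ?_
    rw [map_zpow₀]
    exact congrArg (fun w : ℂ => w ^ ((b δ : ℤ) * c j)) (hcτ ((δ : D ≃ₐ[kk A B] D) * γ ^ j))
  have e2 := hEF A B hC L Om hCM V hV f hf hf3 h2 hmz n hn hCp Hs hHs D h hTF gal g y y.2 e1
  refine hFOU V (D ≃ₐ[kk A B] D) comm γ Δ (fun τ => TT L Om f n h τ) (fun δ => (b δ : ℤ)) N c X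
    ?_ ?_
  · simpa using hX
  · intro τ'
    have e3 := e2 τ'
    rw [sum_exp γ Δ (fun τ => TT L Om f n h τ) (fun δ => (b δ : ℤ)) N c g (fun τ => rfl) τ'] at e3
    exact e3

end I3F

/-- (I3F) the input (I3) for one generator `γ`, `N ≥ 1` -/
theorem t_I3F1 (hEF : St_EFIN) (hHF : St_HFIN) (hCHI : St_ICHI) (hIHF : St_IHF) (hFOU : St_IFOU)
    (hTG : St_ITG) (hFIN : St_IFIN) (hE0 : St_IE0) (hEPS : St_IEPS) (hTH : St_ITH)
    (hGAM : St_IGAM) (hMOD : St_IMOD) (hCC : St_ICC) : St_I3F1 := by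
  classical
  intro A B hC L Om hCM hTor V hV f hf hf3 h2 hmz hCp Hs hHs K iK hKT Bn iKB hBas hk N hN
  have hr3 : ¬ 3 ∣ Module.finrank ℚ K := hBas.cop
  have hr0 : 0 < Module.finrank ℚ K := Module.finrank_pos
  have hR0 : 0 < 2 * Module.finrank ℚ K := by omega
  have hR3 : ¬ 3 ∣ 2 * Module.finrank ℚ K := by omega
  have hfin := hFIN A B hC ((f : OO A B) * star (ppi A B)) (I3F.g_ne hC hf)
    (2 * Module.finrank ℚ K) hR0
  have hex : ∀ (e : OO A B → ℂ) (s : ℤ), ∃ n₀ : ℕ,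
      (IsEps ((f : OO A B) * star (ppi A B)) e ∧
        ∀ x, e x ≠ 0 → e x ^ (2 * Module.finrank ℚ K) = 1) → (s = 1 ∨ s = -1) →
      ∀ n, n₀ ≤ n → ¬ Hf V (∑ j ∈ Finset.range (N + 1),
        ((-1 : ℂ) ^ (N - j) * (N.choose j : ℂ)) *
          (ST L Om f e n (4 ^ j) + s * ST L Om f e n (-4 ^ j))) := by
    intro e s
    by_cases he : IsEps ((f : OO A B) * star (ppi A B)) e ∧
        ∀ x, e x ≠ 0 → e x ^ (2 * Module.finrank ℚ K) = 1
    · by_cases hs : s = 1 ∨ s = -1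
      · obtain ⟨n₀, hn₀⟩ := hHF A B hC L Om hCM V hV f hf hf3 h2 hCp e he.1
          (2 * Module.finrank ℚ K) hR3 he.2 s hs N hN
        exact ⟨n₀, fun _ _ => hn₀⟩
      · exact ⟨0, fun _ h => absurd h hs⟩
    · exact ⟨0, fun h => absurd h he⟩
  choose nn hnn using hex
  refine ⟨hfin.toFinset.sup (fun e => max (nn e 1) (nn e (-1))) + 1, fun n hn => ?_⟩
  have hn1 : 1 ≤ n := by omega
  have hnb : ∀ e s, (IsEps ((f : OO A B) * star (ppi A B)) e ∧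
        ∀ x, e x ≠ 0 → e x ^ (2 * Module.finrank ℚ K) = 1) → (s = 1 ∨ s = -1) →
        nn e s ≤ n := by
    intro e s he hs
    have h1 : e ∈ hfin.toFinset := hfin.mem_toFinset.2 he
    have h3 := Finset.le_sup (f := fun e => max (nn e 1) (nn e (-1))) h1
    have h4 : max (nn e 1) (nn e (-1)) ≤
      hfin.toFinset.sup (fun e => max (nn e 1) (nn e (-1))) := h3
    have h5 : hfin.toFinset.sup (fun e => max (nn e 1) (nn e (-1))) ≤ n := by omega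
    rcases hs with rfl | rfl
    · exact (le_max_left _ _).trans (h4.trans h5)
    · exact (le_max_right _ _).trans (h4.trans h5)
  let akL : Algebra (kk A B) ↥(K ⊔ Bn n) := algC (hk n)
  obtain ⟨gal, comm⟩ := t_GALK (kk A B) K Bn hBas n (hk n)
  obtain ⟨hTF, γ, hγK, hγord, hγz, hγgen⟩ := hGAM A B hC L Om hCM hTor f hf hf3 hCp K hBas.hk
    hKT n (Bn n) (hBas.lay n) (hk n) gal
  have hIM := hMOD A B hC L Om hCM hTor f hf hf3 hCp K hBas.hk hKT n (Bn n) (hBas.lay n) (hk n)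
    gal hTF γ hγK hγord hγz hγgen
  obtain ⟨hc, hc0, hcτ⟩ := hCC A B hC L Om hCM hTor f hf hf3 h2 n (hCp n) Hs hHs (K ⊔ Bn n)
    (hk n) hTF gal
  refine ⟨hc, γ, hγK, ?_⟩
  intro iN χ
  have fdk : FiniteDimensional (kk A B) ↥(K ⊔ Bn n) :=
    Module.Finite.of_restrictScalars_finite ℚ (kk A B) ↥(K ⊔ Bn n)
  have iG : Finite (↥(K ⊔ Bn n) ≃ₐ[kk A B] ↥(K ⊔ Bn n)) := inferInstance
  have hcard : Nat.card (NC (hk n) (Bn n)) ∣ Module.finrank ℚ K :=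
    P_TWK.card_NC hBas.hk hBas.gal (hk n)
  have hc3 : ¬ 3 ∣ Fintype.card (NC (hk n) (Bn n)) := by
    intro h
    rw [Nat.card_eq_fintype_card] at hcard
    exact hr3 (h.trans hcard)
  obtain ⟨X, θ, hXθ⟩ := hCHI V (I3F.three_mem hC V hV) (NC (hk n) (Bn n))
    (fun σ τ => Subtype.ext (comm _ _)) hc3 χ
  refine ⟨θ, fun y hy => ?_⟩
  have hXr : ∀ δ, X δ ^ Module.finrank ℚ K = 1 := by
    intro δ
    have h3 : δ ^ Nat.card (NC (hk n) (Bn n)) = 1 := pow_card_eq_one'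
    obtain ⟨k, hk'⟩ := hcard
    rw [← map_pow, hk', pow_mul, h3, one_pow, map_one]
  obtain ⟨e0, h01, h0m, h0mul, h0per, h0supp, h0pow, h0X⟩ := hE0 A B hC f n hf hf3 _ γ
    (NC (hk n) (Bn n)) _ hIM X (Module.finrank ℚ K) hXr
  obtain ⟨e, s, heps, hs, hepow, hes⟩ := hEPS A B hC f hf hf3 e0 (Module.finrank ℚ K) h01 h0m
    h0mul h0per h0supp h0pow
  have hTHi : ∀ i, 2 * ∑ δ : NC (hk n) (Bn n), (((X δ)⁻¹ : ℂˣ) : ℂ) *
      TT L Om f n (hk n) (γ ^ i * (δ : ↥(K ⊔ Bn n) ≃ₐ[kk A B] ↥(K ⊔ Bn n))) =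
      ST L Om f e n (4 ^ i) + s * ST L Om f e n (-4 ^ i) := by
    intro i
    rw [← hTH A B hC L Om hCM f n hf hf3 _ γ (NC (hk n) (Bn n)) _ hIM X e0 h01 h0m h0mul h0per
      h0supp h0X e s heps hs hes i]
    refine congrArg (fun w => 2 * w) (Finset.sum_congr rfl fun δ _ => ?_)
    refine congrArg (fun w => (((X δ)⁻¹ : ℂˣ) : ℂ) * w) ?_
    exact (I3F.tt_sumMod L Om f n (hk n) _ _ rfl).symm
  have hHf := I3F.cubes hEF hFOU hTG hC L Om hCM V hV f hf hf3 h2 hmz n hn1 (hCp n) Hs hHs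
    (K ⊔ Bn n) (hk n) hTF gal comm hc hc0 hcτ γ (NC (hk n) (Bn n)) N
    (fun δ => (θ ((χ δ)⁻¹ : (IsLocalRing.ResidueField V)ˣ)).val) X hXθ y hy
  apply hnn e s ⟨heps, hepow⟩ hs n (hnb e s ⟨heps, hepow⟩ hs)
  have h2V : (2 : ℂ) ∈ V := by
    have h5 := natCast_mem V 2
    exact_mod_cast h5
  have h3 := (hIHF V).2.2.1 2 _ h2V hHf
  rw [Finset.mul_sum] at h3
  have h4 : (∑ j ∈ Finset.range (N + 1), ((-1 : ℂ) ^ (N - j) * (N.choose j : ℂ)) *
      (ST L Om f e n (4 ^ j) + s * ST L Om f e n (-4 ^ j))) =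
      ∑ j ∈ Finset.range (N + 1), 2 * ((((-1 : ℤ) ^ (N - j) * (N.choose j : ℤ) : ℤ) : ℂ) *
        ∑ δ : NC (hk n) (Bn n), (((X δ)⁻¹ : ℂˣ) : ℂ) *
          TT L Om f n (hk n) (γ ^ j * (δ : ↥(K ⊔ Bn n) ≃ₐ[kk A B] ↥(K ⊔ Bn n)))) := by
    refine Finset.sum_congr rfl fun j _ => ?_
    rw [← hTHi j]
    push_cast
    ring
  rw [h4]
  exact h3

lemma tg_prod {k L : Type} [Field k] [Field L] [Algebra k L] (γ : L ≃ₐ[k] L) {ι : Type}
    (s : Finset ι) (F : ι → L) (b : ι → ℕ) :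
    Tg γ (∏ i ∈ s, F i ^ b i) = ∏ i ∈ s, (Tg γ (F i)) ^ b i := by
  unfold Tg
  rw [map_prod, ← Finset.prod_div_distrib]
  exact Finset.prod_congr rfl fun i _ => by rw [map_pow, div_pow]

/-- (I3F) the input (I3) for one generator `γ` -/
theorem t_I3F (hEF : St_EFIN) (hHF : St_HFIN) (hCHI : St_ICHI) (hIHF : St_IHF) (hFOU : St_IFOU)
    (hTG : St_ITG) (hFIN : St_IFIN) (hE0 : St_IE0) (hEPS : St_IEPS) (hTH : St_ITH)
    (hGAM : St_IGAM) (hMOD : St_IMOD) (hCC : St_ICC) : St_I3F := by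
  intro A B hC L Om hCM hTor V hV f hf hf3 h2 hmz hCp Hs hHs K iK hKT Bn iKB hBas hk N
  obtain ⟨n₀, hn₀⟩ := t_I3F1 hEF hHF hCHI hIHF hFOU hTG hFIN hE0 hEPS hTH hGAM hMOD hCC A B hC L
    Om hCM hTor V hV f hf hf3 h2 hmz hCp Hs hHs K hKT Bn hBas hk (N + 1) (by omega)
  refine ⟨n₀, fun n hn => ?_⟩
  letI := algC (hk n)
  obtain ⟨hc, γ, hγ, h3⟩ := hn₀ n hn
  obtain ⟨-, comm⟩ := t_GALK (kk A B) K Bn hBas n (hk n)
  refine ⟨hc, γ, hγ, ?_⟩
  intro iN χ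
  obtain ⟨θ, hθ⟩ := h3 χ
  refine ⟨θ, fun y hy => hθ (Tg γ y) ?_⟩
  have e1 := congrArg (Tg γ) hy
  rw [tg_prod] at e1
  have e2 : Tg γ (y ^ 3) = Tg γ y ^ 3 := by
    unfold Tg
    rw [map_pow, div_pow]
  rw [e2] at e1
  rw [e1]
  refine Finset.prod_congr rfl fun δ _ => ?_
  congr 1
  rw [Function.iterate_succ_apply']
  unfold Tg
  rw [map_div₀]
  congr 1
  exact AlgEquiv.congr_fun (comm γ (δ : ↥(K ⊔ Bn n) ≃ₐ[kk A B] ↥(K ⊔ Bn n))) _

end

end Pool.Agent.MU3I
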