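import Pool.Agent.MU3.StA

/-!
# MU3, block A: the lattices `Om * emb O` (LAT0)
-/

set_option autoImplicit false

namespace Pool.Agent.MU3A

open MU3 Pool.Agent.MU3B

theorem ta_LAT0 : Sa_LAT0 := by
  intro A B h Om hOm
  have hind : LinearIndependent ℝ ![Om, Om * wC A B] := by
    rw [LinearIndependent.pair_iff]
    intro s t hst
    rw [Complex.real_smul, Complex.real_smul] at hst
    have h1 : Om * ((s : ℂ) + t * wC A B) = 0 := by
      rw [← hst]
      ring
    have h2 : (s : ℂ) + t * wC A B = 0 := (mul_eq_zero.1 h1).resolve_left hOm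
    have h3 := congrArg Complex.im h2
    simp only [Complex.add_im, Complex.ofReal_im, Complex.mul_im, Complex.ofReal_re, zero_mul,
      add_zero, zero_add, Complex.zero_im] at h3
    have h4 : t = 0 := (mul_eq_zero.1 h3).resolve_right (wC_im_pos h).ne'
    rw [h4] at h2
    simp only [Complex.ofReal_zero, zero_mul, add_zero] at h2
    exact ⟨by exact_mod_cast h2, h4⟩
  refine ⟨⟨Om, Om * wC A B, hind⟩, hOm, fun z => ?_⟩
  rw [PeriodPair.mem_lattice]
  constructor
  · rintro ⟨m, n, hz⟩
    refine ⟨⟨m, n⟩, ?_⟩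
    rw [← hz]
    simp only [emb]
    ring
  · rintro ⟨x, hz⟩
    refine ⟨x.re, x.im, ?_⟩
    rw [hz]
    simp only [emb]
    ring

end Pool.Agent.MU3A
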