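import Pool.Agent.MU3.StFH

/-!
# MU3, block FH: module BDD, a character has finitely many values
-/

set_option autoImplicit false

namespace Pool.Agent.MU3F

open MU3 Pool.Agent.MU3A Pool.Agent.MU3B

theorem tf_BDD (hALG : Sf_ALG) : Sf_BDD := by
  intro A B hc g e hg he
  have hfin : Finite (OO A B ⧸ Ideal.span {g}) := (hALG A B hc).2.2.2.1 g hg
  have h1 : Set.range e ⊆ Set.range (fun q : OO A B ⧸ Ideal.span {g} => e (Quotient.out q)) := by
    rintro _ ⟨x, rfl⟩
    refine ⟨Ideal.Quotient.mk (Ideal.span {g}) x, ?_⟩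
    refine he.per _ _ ?_
    rw [← Ideal.mem_span_singleton, ← Ideal.Quotient.eq]
    exact Quotient.out_eq _
  have h2 : (Set.range e).Finite := (Set.finite_range _).subset h1
  refine ⟨h2, ?_⟩
  obtain ⟨C, hC⟩ := (h2.image (fun c : ℂ => ‖c‖)).bddAbove
  refine ⟨max C 1, lt_of_lt_of_le one_pos (le_max_right _ _), fun x => ?_⟩
  exact (hC ⟨e x, ⟨x, rfl⟩, rfl⟩).trans (le_max_left _ _)

end Pool.Agent.MU3F
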