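import Pool.Agent.MU3.StFH

/-!
# MU3, block FH: module DCM, a sum over `O` as a sum over the classes modulo `m`
-/

set_option autoImplicit false

namespace Pool.Agent.MU3F

open MU3 Pool.Agent.MU3A Pool.Agent.MU3B Pool.Agent.MuSym OnePoint
open scoped ComplexConjugate

noncomputable section

/-- DCM. -/
theorem tf_DCM (hALG : Sf_ALG) : Sf_DCM := by
  intro A B hc m hm G hG
  obtain ⟨halg, hnrm, -, hfin, -, -⟩ := hALG A B hc
  have hfm : Finite (OO A B ⧸ Ideal.span {m}) := hfin m hm
  have hcancel : ∀ w w' : OO A B, m * w = m * w' → w = w' := by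
    intro w w' h
    have h1 : emb m * emb w = emb m * emb w' := by
      rw [← (halg m w).1, ← (halg m w').1, h]
    have h2 : emb m ≠ 0 := fun h => hm ((hnrm m).1.1 h)
    exact emb_inj hc (mul_left_cancel₀ h2 h1)
  let φ : (OO A B ⧸ Ideal.span {m}) × OO A B → OO A B := fun p => Quotient.out p.1 + m * p.2
  have hmk : ∀ p : (OO A B ⧸ Ideal.span {m}) × OO A B,
      Ideal.Quotient.mk (Ideal.span {m}) (φ p) = p.1 := by
    intro p
    have h1 : Ideal.Quotient.mk (Ideal.span {m}) (Quotient.out p.1) = p.1 :=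
      Quotient.out_eq p.1
    have h2 : Ideal.Quotient.mk (Ideal.span {m}) (m * p.2) = 0 := by
      rw [Ideal.Quotient.eq_zero_iff_mem, Ideal.mem_span_singleton]
      exact dvd_mul_right m p.2
    show Ideal.Quotient.mk (Ideal.span {m}) (Quotient.out p.1 + m * p.2) = p.1
    rw [map_add, h1, h2, add_zero]
  have hbij : Function.Bijective φ := by
    constructor
    · intro p p' h
      have h1 : p.1 = p'.1 := by rw [← hmk p, ← hmk p', h]
      have h2 : Quotient.out p.1 + m * p.2 = Quotient.out p'.1 + m * p'.2 := h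
      rw [h1] at h2
      exact Prod.ext h1 (hcancel _ _ (add_left_cancel h2))
    · intro x
      have h1 : Ideal.Quotient.mk (Ideal.span {m}) x =
          Ideal.Quotient.mk (Ideal.span {m})
            (Quotient.out (Ideal.Quotient.mk (Ideal.span {m}) x)) :=
        (Quotient.out_eq (Ideal.Quotient.mk (Ideal.span {m}) x)).symm
      rw [Ideal.Quotient.eq, Ideal.mem_span_singleton] at h1
      obtain ⟨w, hw⟩ := h1
      refine ⟨(Ideal.Quotient.mk (Ideal.span {m}) x, w), ?_⟩
      show Quotient.out (Ideal.Quotient.mk (Ideal.span {m}) x) + m * w = x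
      rw [← hw]
      ring
  let e : (OO A B ⧸ Ideal.span {m}) × OO A B ≃ OO A B := Equiv.ofBijective φ hbij
  have hsum : Summable (fun p => G (e p)) := (Equiv.summable_iff e).2 hG
  have := Fintype.ofFinite (OO A B ⧸ Ideal.span {m})
  rw [← Equiv.tsum_eq e G, hsum.tsum_prod, tsum_fintype, sumMod, finsum_eq_sum_of_fintype]
  rfl

end

end Pool.Agent.MU3F
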