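import Pool.Agent.MU3.StFH

/-!
# MU3, block FH: module F3 (the symbol is an eigensymbol of `U_3`)
-/

set_option autoImplicit false

namespace Pool.Agent.MU3F

open MU3 Pool.Agent.MU3A Pool.Agent.MU3B Pool.Agent.MuSym OnePoint
open scoped ComplexConjugate

noncomputable section

namespace F3

/-- the relation for the integrals along the vertical lines -/
lemma main (hU3 : Sf_U3) (hITG : Sf_ITG) (A B : ℤ) (hC : Case A B) (g : OO A B)
    (e : OO A B → ℂ) (hg : g ≠ 0) (he : IsEps g e) (hd : star (ppi A B) ∣ g) (r : ℚ) :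
    ∑ j ∈ Finset.range 3, Iv e ((r + j) / 3) = e (ppi A B) * conj (emb (ppi A B)) * Iv e r := by
  have h1 : ∀ j ∈ Finset.range 3, MeasureTheory.IntegrableOn
      (fun t : ℝ => theta e ((((r + (j : ℚ)) / 3 : ℚ) : ℂ) + t * Complex.I)) (Set.Ioi 0) :=
    fun j _ => hITG A B hC g e hg he _
  unfold Iv
  rw [← Finset.mul_sum, ← MeasureTheory.integral_finsetSum _ h1]
  have h2 : ∫ t in Set.Ioi (0 : ℝ), ∑ j ∈ Finset.range 3,
      theta e ((((r + (j : ℚ)) / 3 : ℚ) : ℂ) + t * Complex.I) =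
      ∫ t in Set.Ioi (0 : ℝ), 3 * (e (ppi A B) * conj (emb (ppi A B))) *
        (fun s : ℝ => theta e ((r : ℂ) + s * Complex.I)) (3 * t) := by
    refine MeasureTheory.setIntegral_congr_fun measurableSet_Ioi fun t ht => ?_
    have ht0 : (0 : ℝ) < t := ht
    have hz : 0 < ((r : ℂ) + ((3 * t : ℝ) : ℂ) * Complex.I).im := by
      simp only [Complex.add_im, Complex.ratCast_im, Complex.mul_im, Complex.ofReal_re,
        Complex.I_im, mul_one, Complex.ofReal_im, Complex.I_re, mul_zero, add_zero, zero_add]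
      linarith
    have h3 := hU3 A B hC g e hg he hd _ hz
    show ∑ j ∈ Finset.range 3, theta e ((((r + (j : ℚ)) / 3 : ℚ) : ℂ) + t * Complex.I) =
      3 * (e (ppi A B) * conj (emb (ppi A B))) * theta e ((r : ℂ) + ((3 * t : ℝ) : ℂ) * Complex.I)
    rw [← h3]
    refine Finset.sum_congr rfl fun j _ => ?_
    congr 1
    push_cast
    ring
  rw [h2, MeasureTheory.integral_const_mul]
  have h4 := MeasureTheory.integral_comp_mul_left_Ioi
    (fun s : ℝ => theta e ((r : ℂ) + s * Complex.I)) 0 (b := 3) (by norm_num)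
  rw [h4, mul_zero, Complex.real_smul]
  push_cast
  ring

lemma mob3 (j : ℤ) (r : ℚ) : mob 1 j 0 3 (r : OnePoint ℚ) = (((r + j) / 3 : ℚ) : OnePoint ℚ) := by
  show (if ((0 : ℤ) : ℚ) * r + ((3 : ℤ) : ℚ) = 0 then ∞ else
    (((((1 : ℤ) : ℚ) * r + (j : ℚ)) / (((0 : ℤ) : ℚ) * r + ((3 : ℤ) : ℚ)) : ℚ) : OnePoint ℚ)) = _
  rw [if_neg (by norm_num)]
  norm_num

lemma mob3_inf (j : ℤ) : mob 1 j 0 3 (∞ : OnePoint ℚ) = ∞ := by
  show (if (0 : ℤ) = 0 then (∞ : OnePoint ℚ) else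
    ((((1 : ℤ) : ℚ) / ((0 : ℤ) : ℚ) : ℚ) : OnePoint ℚ)) = _
  rw [if_pos rfl]

lemma ic (hU3 : Sf_U3) (hITG : Sf_ITG) (A B : ℤ) (hC : Case A B) (g : OO A B)
    (e : OO A B → ℂ) (hg : g ≠ 0) (he : IsEps g e) (hd : star (ppi A B) ∣ g)
    (x : OnePoint ℚ) :
    ∑ j ∈ Finset.range 3, Ic e (mob 1 j 0 3 x) = e (ppi A B) * conj (emb (ppi A B)) * Ic e x := by
  induction x using OnePoint.rec with
  | infty =>
    have h1 : Ic e (∞ : OnePoint ℚ) = 0 := rfl
    rw [h1, mul_zero]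
    refine Finset.sum_eq_zero fun j _ => ?_
    rw [mob3_inf]
    exact h1
  | coe r =>
    have h1 : ∀ q : ℚ, Ic e (q : OnePoint ℚ) = Iv e q := fun q => rfl
    rw [h1, ← main hU3 hITG A B hC g e hg he hd r]
    refine Finset.sum_congr rfl fun j _ => ?_
    rw [mob3, h1]
    push_cast
    rfl

end F3

open F3 in
theorem tf_F3 (hALG : Sf_ALG) (hU3 : Sf_U3) (hITG : Sf_ITG) : Sf_F3 := by
  intro A B hC g e hg he hd
  obtain ⟨-, -, -, -, hpp, hnu⟩ := hALG A B hC
  have h3 : nuE e 3 = 0 := by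
    unfold nuE
    have h : e (((3 : ℤ)) : OO A B) = 0 := by
      by_contra hc
      have hcop := (he.supp _).1 hc
      apply hnu
      refine hcop.isUnit_of_dvd' ?_ hd
      refine ⟨ppi A B, ?_⟩
      rw [mul_comm, hpp]
      norm_num
    rw [h, mul_zero]
  refine ⟨h3, fun x y => ?_⟩
  unfold hecke
  have h3' : nuE e ((3 : ℕ) : ℤ) = 0 := by
    rw [← h3]
    norm_num
  rw [h3', zero_mul, add_zero]
  unfold Phi
  rw [Finset.sum_sub_distrib, mul_sub]
  congr 1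
  · exact ic hU3 hITG A B hC g e hg he hd x
  · exact ic hU3 hITG A B hC g e hg he hd y

end

end Pool.Agent.MU3F
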