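import Pool.Agent.MU3.StFH

/-!
# MU3, block FH: the values of the symbol at all rational numbers
-/

set_option autoImplicit false

namespace Pool.Agent.MU3F

open MU3 Pool.Agent.MU3A Pool.Agent.MU3B Pool.Agent.MuSym OnePoint
open scoped ComplexConjugate

theorem f4_key (v : ℂ) (hv : v ≠ 0) :
    conj v / ((2 * Real.pi * ‖v‖ ^ 2 : ℝ) : ℂ) = 1 / (2 * Real.pi * v) := by
  have h1 : ((2 * Real.pi * ‖v‖ ^ 2 : ℝ) : ℂ) = 2 * Real.pi * (v * conj v) := by
    rw [Complex.mul_conj, Complex.normSq_eq_norm_sq]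
    push_cast
    ring
  have h2 : conj v ≠ 0 := (map_ne_zero _).mpr hv
  have h3 : (Real.pi : ℂ) ≠ 0 := by exact_mod_cast Real.pi_ne_zero
  rw [h1]
  field_simp

theorem tf_F4 (hALG : Sf_ALG) (hTHD : Sf_THD) (hINT : Pool.Agent.MU3B.St_INT) : Sf_F4 := by
  intro A B hc L Om hL g g' e he hg' hgg' M hM hMg' b
  have hfin : Finite (OO A B ⧸ Ideal.span {g'}) := (hALG A B hc).2.2.2.1 g' hg'
  have hft : Fintype (OO A B ⧸ Ideal.span {g'}) := Fintype.ofFinite _
  have hg0 : emb g' ≠ 0 := emb_ne_zero hc hg'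
  have hOm := hL.Om_ne
  have hv : emb g' / Om ≠ 0 := div_ne_zero hg0 hOm
  have hc0 : (0 : ℝ) < 2 * Real.pi * ‖emb g' / Om‖ ^ 2 := by
    have := norm_pos_iff.mpr hv
    positivity
  set v : ℂ := emb g' / Om with hvdef
  set c : ℝ := 2 * Real.pi * ‖v‖ ^ 2 with hcdef
  have hsum : ∀ F : OO A B → ℂ, sumMod g' F =
      ∑ q : OO A B ⧸ Ideal.span {g'}, F (Quotient.out q) := fun F =>
    finsum_eq_sum_of_fintype _
  let K : OO A B → ℝ → ℂ := fun x t => ∑' w : L.lattice, conj (Om * emb x / emb g' + w) *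
    (Real.exp (-(c * t * ‖Om * emb x / emb g' + w‖ ^ 2)) : ℝ)
  have hKint : ∀ x, MeasureTheory.IntegrableOn (K x) (Set.Ioi 0) := fun x =>
    (hINT L c hc0 _).1
  have hKval : ∀ x, ∫ t in Set.Ioi (0 : ℝ), K x t = ee L (Om * emb x / emb g') / c := fun x =>
    (hINT L c hc0 _).2
  have hth : ∀ t ∈ Set.Ioi (0 : ℝ), theta e (((b / M : ℚ) : ℂ) + t * Complex.I) =
      ∑ q : OO A B ⧸ Ideal.span {g'}, ((1 / 2) * (e (Quotient.out q) *
        ex (b * nm (Quotient.out q) / M) * conj v)) * K (Quotient.out q) t := by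
    intro t ht
    rw [hTHD A B hc L Om hL g g' e he hg' hgg' M hM hMg' b t ht, hsum, Finset.mul_sum]
    refine Finset.sum_congr rfl fun q _ => ?_
    simp only [K, hcdef, hvdef]
    ring
  have hint : MeasureTheory.IntegrableOn (fun t : ℝ =>
      ∑ q : OO A B ⧸ Ideal.span {g'}, ((1 / 2) * (e (Quotient.out q) *
        ex (b * nm (Quotient.out q) / M) * conj v)) * K (Quotient.out q) t) (Set.Ioi 0) :=
    MeasureTheory.integrable_finsetSum _ fun q _ => (hKint _).const_mul _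
  refine ⟨hint.congr_fun (fun t ht => (hth t ht).symm) measurableSet_Ioi, ?_⟩
  have hI : ∫ t in Set.Ioi (0 : ℝ), theta e (((b / M : ℚ) : ℂ) + t * Complex.I) =
      ∑ q : OO A B ⧸ Ideal.span {g'}, ((1 / 2) * (e (Quotient.out q) *
        ex (b * nm (Quotient.out q) / M) * conj v)) *
          (ee L (Om * emb (Quotient.out q) / emb g') / c) := by
    rw [MeasureTheory.setIntegral_congr_fun measurableSet_Ioi hth,
      MeasureTheory.integral_finsetSum _ fun q _ => (hKint _).const_mul _]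
    refine Finset.sum_congr rfl fun q _ => ?_
    rw [MeasureTheory.integral_const_mul, hKval]
  unfold Iv
  rw [hI, hsum, Finset.mul_sum, Finset.mul_sum]
  refine Finset.sum_congr rfl fun q _ => ?_
  have hkey : conj v / (c : ℂ) = Om / (2 * Real.pi * emb g') := by
    rw [hcdef, f4_key v hv, hvdef]
    have h3 : (Real.pi : ℂ) ≠ 0 := by exact_mod_cast Real.pi_ne_zero
    field_simp
  have h3 : (Real.pi : ℂ) ≠ 0 := by exact_mod_cast Real.pi_ne_zero
  generalize e (Quotient.out q) = E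
  generalize ex (b * nm (Quotient.out q) / M) = X
  generalize ee L (Om * emb (Quotient.out q) / emb g') = Y
  have h4 : -(2 * (Real.pi : ℂ)) * (1 / 2 * (E * X * conj v) * (Y / (c : ℂ))) =
      -(Real.pi : ℂ) * (E * X * Y) * (conj v / (c : ℂ)) := by
    ring
  rw [h4, hkey]
  field_simp

end Pool.Agent.MU3F
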