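import Pool.Agent.MU3.StFH

/-!
# MU3, block FH, module F5: Fourier transform of the values of the symbol
-/

set_option autoImplicit false

namespace Pool.Agent.MU3F

open MU3 Pool.Agent.MU3A Pool.Agent.MU3B Pool.Agent.MuSym OnePoint
open scoped ComplexConjugate

noncomputable section

namespace F5aux

lemma ex_add (r s : ℚ) : ex (r + s) = ex r * ex s := by
  unfold ex
  rw [← Complex.exp_add]
  congr 1
  push_cast
  ring

lemma ex_nat_mul (b : ℕ) (r : ℚ) : ex (b * r) = ex r ^ b := by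
  unfold ex
  rw [← Complex.exp_nat_mul]
  congr 1
  push_cast
  ring

lemma ex_eq_one (r : ℚ) : ex r = 1 ↔ ∃ k : ℤ, r = k := by
  unfold ex
  rw [Complex.exp_eq_one_iff]
  have h0 : (2 * (Real.pi : ℂ) * Complex.I) ≠ 0 := by
    simp [Real.pi_ne_zero]
  constructor
  · rintro ⟨k, hk⟩
    refine ⟨k, ?_⟩
    have h1 : (r : ℂ) = (k : ℂ) := by
      apply mul_left_cancel₀ h0
      rw [hk]
      ring
    exact_mod_cast h1
  · rintro ⟨k, rfl⟩
    exact ⟨k, by push_cast; ring⟩

lemma sum_ex (M : ℕ) (hM : 0 < M) (k : ℤ) :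
    ∑ b ∈ Finset.range M, ex (b * (k / M)) = if (M : ℤ) ∣ k then (M : ℂ) else 0 := by
  have hMq : (M : ℚ) ≠ 0 := by exact_mod_cast hM.ne'
  simp only [ex_nat_mul]
  split_ifs with h
  · have h1 : ex ((k : ℚ) / M) = 1 := by
      rw [ex_eq_one]
      obtain ⟨j, hj⟩ := h
      refine ⟨j, ?_⟩
      rw [hj]
      push_cast
      field_simp
    rw [h1]
    simp
  · have h1 : ex ((k : ℚ) / M) ≠ 1 := by
      rw [Ne, ex_eq_one]
      rintro ⟨j, hj⟩
      apply h
      refine ⟨j, ?_⟩
      rw [div_eq_iff hMq] at hj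
      have h2 : (k : ℚ) = ((M * j : ℤ) : ℚ) := by
        rw [hj]
        push_cast
        ring
      exact_mod_cast h2
    have h2 : ex ((k : ℚ) / M) ^ M = 1 := by
      rw [← ex_nat_mul, ex_eq_one]
      exact ⟨k, by field_simp⟩
    have h3 := mul_neg_geom_sum (ex ((k : ℚ) / M)) M
    rw [h2, sub_self] at h3
    rcases mul_eq_zero.1 h3 with h4 | h4
    · exact absurd (sub_eq_zero.1 h4).symm h1
    · exact h4

end F5aux

open F5aux

theorem tf_F5 (hALG : Sf_ALG) (hSM : Sf_SM) (hF4 : Sf_F4) : Sf_F5 := by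
  classical
  intro A B hAB L Om hL f n e hf he c hc
  obtain ⟨-, a2, -, -, a5, -⟩ := hALG A B hAB
  set M : ℕ := 3 ^ (n + 1) with hM
  have hMpos : 0 < M := by positivity
  have hMc : (M : ℂ) ≠ 0 := by exact_mod_cast hMpos.ne'
  have hfc : (f : ℂ) ≠ 0 := by exact_mod_cast hf
  set m : OO A B := ((f * M : ℕ) : OO A B) with hm
  have hembm : emb m = (f : ℂ) * M := by
    rw [hm, emb_natCast hAB]
    push_cast
    ring
  have hembm0 : emb m ≠ 0 := by
    rw [hembm]
    exact mul_ne_zero hfc hMc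
  have hm0 : m ≠ 0 := by
    intro h
    apply hembm0
    rw [h, emb_zero hAB]
  have hgm : (f : OO A B) * star (ppi A B) ∣ m := by
    have h3 : star (ppi A B) ∣ (3 : OO A B) := ⟨ppi A B, by rw [mul_comm]; exact a5.symm⟩
    have h4 : star (ppi A B) ∣ (M : OO A B) := by
      rw [hM]
      push_cast
      exact h3.trans (dvd_pow_self _ (by omega))
    rw [hm]
    push_cast
    exact mul_dvd_mul_left _ (by exact_mod_cast h4)
  have hMm : (M : OO A B) ∣ m := by
    rw [hm]
    exact ⟨(f : OO A B), by push_cast; ring⟩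
  obtain ⟨s1, -, s3, -, s5⟩ := hSM A B hAB m hm0
  -- the values of the symbol
  set F : ℕ → OO A B → ℂ := fun b x => e x * ex (b * nm x / M) * ee L (Om * emb x / emb m) with hF
  have hPhi : ∀ b : ℕ, Phi e ∞ (((b / 3 ^ (n + 1) : ℚ) : ℚ) : OnePoint ℚ) =
      Om / (2 * emb m) * sumMod m (F b) := by
    intro b
    have h1 := (hF4 A B hAB L Om hL _ m e he hm0 hgm M hMpos hMm (b : ℤ)).2
    have h2 : ((b : ℚ) / 3 ^ (n + 1) : ℚ) = (((b : ℤ) : ℚ) / (M : ℚ)) := by
      rw [hM]
      push_cast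
      ring
    have h3 : Phi e ∞ (((b / 3 ^ (n + 1) : ℚ) : ℚ) : OnePoint ℚ) =
        0 - Iv e ((b : ℚ) / 3 ^ (n + 1)) := rfl
    rw [h3, h2, h1, hF]
    push_cast
    ring
  have hex : ∀ b : ℕ, ex (-(b * c) / 3 ^ (n + 1)) = ex (-(b * c) / M) := by
    intro b
    rw [hM]
    push_cast
    rfl
  have hR : (2 * f / Om) * ∑ b ∈ Finset.range M,
        ex (-(b * c) / 3 ^ (n + 1)) * Phi e ∞ (((b / 3 ^ (n + 1) : ℚ) : ℚ) : OnePoint ℚ) =
      sumMod m (fun x => (1 / (M : ℂ)) * ∑ b ∈ Finset.range M, ex (-(b * c) / M) * F b x) := by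
    rw [s1, s3, Finset.mul_sum, Finset.mul_sum]
    refine Finset.sum_congr rfl fun b _ => ?_
    rw [hPhi b, hex b, s1, hembm]
    have := hL.Om_ne
    field_simp
  have hgoal : (∑ b ∈ Finset.range (3 ^ (n + 1)),
        ex (-(b * c) / 3 ^ (n + 1)) * Phi e ∞ (((b / 3 ^ (n + 1) : ℚ) : ℚ) : OnePoint ℚ)) =
      ∑ b ∈ Finset.range M,
        ex (-(b * c) / 3 ^ (n + 1)) * Phi e ∞ (((b / 3 ^ (n + 1) : ℚ) : ℚ) : OnePoint ℚ) := rfl
  rw [hgoal, hR]
  refine s5 _ _ fun x => ?_
  -- pointwise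
  have hsum : ∑ b ∈ Finset.range M, ex (-(b * c) / M) * F b x =
      (if (M : ℤ) ∣ nm x - c then (M : ℂ) else 0) * (e x * ee L (Om * emb x / emb m)) := by
    rw [← sum_ex M hMpos (nm x - c), Finset.sum_mul]
    refine Finset.sum_congr rfl fun b _ => ?_
    rw [hF]
    have h1 : ((b : ℚ) * (((nm x - c : ℤ) : ℚ) / (M : ℚ))) = -(b * c) / M + b * nm x / M := by
      push_cast
      ring
    rw [h1, ex_add]
    ring
  rw [hsum]
  have harg : Om * emb x / emb m = emb x * (Om / emb m) := by ring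
  rw [harg]
  have hdvd : ((M : ℤ) ∣ nm x - c) ↔ ((3 : ℤ) ^ (n + 1) ∣ nm x - c) := by
    rw [hM]
    push_cast
    rfl
  by_cases h1 : (3 : ℤ) ^ (n + 1) ∣ nm x - c
  · rw [if_pos (hdvd.2 h1)]
    by_cases h2 : e x = 0
    · rw [h2]
      simp
    · have hcop : IsCoprime x m := by
        have h3 := (he.supp x).1 h2
        have h4 : IsCoprime x (f : OO A B) := h3.of_mul_right_left
        have h5 : ¬ (3 : ℤ) ∣ nm x := by
          intro h6
          apply hc
          have h7 : (3 : ℤ) ∣ nm x - c := (dvd_pow_self _ (by omega)).trans h1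
          have h8 := dvd_sub h6 h7
          rwa [sub_sub_cancel] at h8
        have h6 : IsCoprime (nm x) 3 := by
          exact ((Int.prime_three.coprime_iff_not_dvd).2 h5).symm
        obtain ⟨u, v, huv⟩ := h6
        have h7 : IsCoprime x (3 : OO A B) := by
          refine ⟨(u : OO A B) * star x, (v : OO A B), ?_⟩
          have h8 := congrArg (fun z : ℤ => (z : OO A B)) huv
          push_cast at h8
          rw [← h8, ← (a2 x).2.2.1]
          ring
        have h8 : IsCoprime x (M : OO A B) := by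
          rw [hM]
          push_cast
          exact h7.pow_right
        rw [hm]
        push_cast
        have h9 := h4.mul_right h8
        exact_mod_cast h9
      rw [if_pos ⟨hcop, h1⟩]
      field_simp
  · rw [if_neg (fun h => h1 (hdvd.1 h)), if_neg (fun h => h1 h.2)]
    ring

end

end Pool.Agent.MU3F
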