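import Pool.Agent.MU3.StFH2

set_option autoImplicit false

namespace Pool.Agent.MU3F

open _root_.MU3 Pool.Agent.MU3 Pool.Agent.MU3A Pool.Agent.MU3B Pool.Agent.MU3C Pool.Agent.MuSym OnePoint

noncomputable section

theorem tf_F5S (hALG : Sf_ALG) (hSM : Sf_SM) (hF5 : Sf_F5) : Sf_F5S := by
  intro A B hC L Om hL f n e hf he c hc
  rw [← hF5 A B hC L Om hL f n e hf he c hc]
  obtain ⟨h1, h2, h3, -, h5, -⟩ := hALG A B hC
  have hm : ((f * 3 ^ (n + 1) : ℕ) : OO A B) ≠ 0 := by
    intro h0
    have := (h2 ((f * 3 ^ (n + 1) : ℕ) : OO A B)).1.2 h0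
    have h4 := h3 ((f * 3 ^ (n + 1) : ℕ) : ℤ)
    rw [Int.cast_natCast] at h4
    rw [h4] at this
    have : ((f * 3 ^ (n + 1) : ℕ) : ℂ) = 0 := by exact_mod_cast this
    rw [Nat.cast_eq_zero] at this
    have h6 : 0 < f * 3 ^ (n + 1) := by positivity
    omega
  obtain ⟨-, -, -, -, hcong⟩ := hSM A B hC _ hm
  unfold MU3I.Sn lev
  apply hcong
  intro x
  by_cases hx : (3 : ℤ) ^ (n + 1) ∣ nm x - c
  · rw [if_pos hx]
    by_cases hex : e x = 0
    · rw [hex, zero_mul, ite_self]
    · have hcop : IsCoprime x ((f * 3 ^ (n + 1) : ℕ) : OO A B) := by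
        have hg := (he.supp x).1 hex
        have hgf : IsCoprime x (f : OO A B) := hg.of_isCoprime_of_dvd_right (Dvd.intro _ rfl)
        have h3x : IsCoprime x (3 : OO A B) := by
          have h30 : ¬ (3 : ℤ) ∣ nm x := by
            intro h
            apply hc
            have h31 : (3 : ℤ) ∣ nm x - c := dvd_trans (dvd_pow_self 3 (Nat.succ_ne_zero n)) hx
            have := dvd_sub h h31
            simpa using this
          have h32 : IsCoprime (nm x) (3 : ℤ) := by
            rw [isCoprime_comm, Int.isCoprime_iff_gcd_eq_one]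
            have := (Int.prime_three.coprime_iff_not_dvd (n := nm x)).2 h30
            exact Int.isCoprime_iff_gcd_eq_one.1 this
          have h33 : IsCoprime (((nm x : ℤ)) : OO A B) ((3 : ℤ) : OO A B) := by
            obtain ⟨a, b, hab⟩ := h32
            exact ⟨(a : OO A B), (b : OO A B), by exact_mod_cast congrArg (Int.cast (R := OO A B)) hab⟩
          rw [← (h2 x).2.2.1] at h33
          have := h33.of_mul_left_left
          simpa using this
        push_cast
        exact hgf.mul_right h3x.pow_right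
      rw [if_pos ⟨hcop, hx⟩]
  · rw [if_neg hx, if_neg (fun h => hx h.2)]

end

end Pool.Agent.MU3F
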