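import Pool.Agent.MU3.StFH

/-!
# MU3, block FH: module F7, the values of the symbol lie in a finitely generated group
-/

set_option autoImplicit false

namespace Pool.Agent.MU3F

open MU3 Pool.Agent.MU3A Pool.Agent.MU3B Pool.Agent.MuSym OnePoint
open scoped ComplexConjugate

noncomputable section

/-- the values of `chiD` -/
lemma chiD_mem (A B d : ℤ) : chiD A B d ∈ ({-1, 0, 1} : Set ℤ) := by
  unfold chiD
  split_ifs <;> simp

/-- F7. -/
theorem tf_F7 (hBDD : Sf_BDD) (hFG : Sf_FG) : Sf_F7 := by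
  intro A B hc g e hg he N hN hs
  refine hFG N (nuE e) (Phi e) hN hs ?_
  have h1 : (Set.range e).Finite := (hBDD A B hc g e hg he).1
  have h2 : ({-1, 0, 1} : Set ℤ).Finite := Set.toFinite _
  refine (h2.image2 (fun (c : ℤ) (z : ℂ) => (c : ℂ) * z) h1).subset ?_
  rintro _ ⟨d, rfl⟩
  exact ⟨chiD A B d, chiD_mem A B d, e (d : OO A B), ⟨_, rfl⟩, rfl⟩

end

end Pool.Agent.MU3F
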