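import Pool.Agent.MU3.StFH

/-!
# MU3, module F8: the twist of the two parts of the symbol
-/

set_option autoImplicit false

namespace Pool.Agent.MU3F

open MU3 Pool.Agent.MU3A Pool.Agent.MU3B Pool.Agent.MuSym OnePoint
open scoped ComplexConjugate

noncomputable section

theorem f8_absD {A B : ℤ} (h : Case A B) : 0 < absD A B := by
  rcases h with ⟨rfl, rfl⟩ | ⟨rfl, rfl⟩ <;> norm_num [absD]

/-- `Iv` has period one. -/
theorem f8_Iv_per (hPRD : Sf_PRD) {A B : ℤ} (h : Case A B) (e : OO A B → ℂ) (r : ℚ) :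
    Iv e (r + 1) = Iv e r := by
  unfold Iv
  congr 1
  apply MeasureTheory.integral_congr_ae
  filter_upwards with t
  have h1 : (((r + 1 : ℚ) : ℂ) + t * Complex.I) = ((r : ℂ) + t * Complex.I) + 1 := by
    push_cast
    ring
  rw [h1, hPRD A B h]

/-- The twist at a rational number. -/
theorem f8_Iv (hITG : Sf_ITG) (hTWD : Sf_TWD) {A B : ℤ} (h : Case A B) {g : OO A B}
    {e : OO A B → ℂ} (hg : g ≠ 0) (he : IsEps g e) (hD : ((absD A B : ℤ) : OO A B) ∣ g) (r : ℚ) :
    ∑ a ∈ Finset.range (absD A B).toNat,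
      (chiD A B a : ℂ) * Iv e (r + a / (absD A B : ℚ)) = tauD A B * Iv e r := by
  unfold Iv
  have h1 : ∀ a ∈ Finset.range (absD A B).toNat, (chiD A B a : ℂ) * (-(2 * Real.pi) *
      ∫ t in Set.Ioi (0 : ℝ), theta e (((r + a / (absD A B : ℚ) : ℚ) : ℂ) + t * Complex.I)) =
      -(2 * Real.pi) * ∫ t in Set.Ioi (0 : ℝ), (chiD A B a : ℂ) *
        theta e (((r + a / (absD A B : ℚ) : ℚ) : ℂ) + t * Complex.I) := by
    intro a _
    rw [MeasureTheory.integral_const_mul]
    ring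
  rw [Finset.sum_congr rfl h1, ← Finset.mul_sum, ← MeasureTheory.integral_finsetSum]
  · have h2 : ∫ t in Set.Ioi (0 : ℝ), ∑ a ∈ Finset.range (absD A B).toNat,
        (chiD A B a : ℂ) * theta e (((r + a / (absD A B : ℚ) : ℚ) : ℂ) + t * Complex.I) =
        ∫ t in Set.Ioi (0 : ℝ), tauD A B * theta e ((r : ℂ) + t * Complex.I) := by
      apply MeasureTheory.setIntegral_congr_fun measurableSet_Ioi
      intro t ht
      have ht' : 0 < t := ht
      have h3 := hTWD A B h g e hg he hD ((r : ℂ) + t * Complex.I) (by simpa using ht')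
      simp only
      rw [← h3]
      apply Finset.sum_congr rfl
      intro a _
      congr 2
      push_cast
      ring
    rw [h2, MeasureTheory.integral_const_mul]
    ring
  · intro a _
    exact (hITG A B h g e hg he _).const_mul _

theorem f8_mob1 {A B : ℤ} (h : Case A B) (a : ℤ) (r : ℚ) :
    mob (absD A B) a 0 (absD A B) ((r : ℚ) : OnePoint ℚ) =
      ((r + a / (absD A B : ℚ) : ℚ) : OnePoint ℚ) := by
  have h1 : ((absD A B : ℤ) : ℚ) ≠ 0 := by
    have := f8_absD h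
    exact_mod_cast this.ne'
  show (if ((0 : ℤ) : ℚ) * r + (absD A B : ℤ) = 0 then ∞ else
    (((((absD A B : ℤ) : ℚ) * r + a) / (((0 : ℤ) : ℚ) * r + (absD A B : ℤ)) : ℚ) :
      OnePoint ℚ)) = _
  rw [if_neg (by simpa using h1)]
  congr 1
  rw [Int.cast_zero, zero_mul, zero_add, add_div, mul_div_cancel_left₀ _ h1]

theorem f8_mob2 (a b c d : ℤ) (hc : c = 0) : mob a b c d ∞ = ∞ := by
  show (if c = 0 then ∞ else ((a / c : ℚ) : OnePoint ℚ)) = ∞
  rw [if_pos hc]

theorem f8_mob3 (r : ℚ) : mob (-1) 0 0 1 ((r : ℚ) : OnePoint ℚ) = ((-r : ℚ) : OnePoint ℚ) := by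
  show (if ((0 : ℤ) : ℚ) * r + (1 : ℤ) = 0 then ∞ else
    ((((((-1 : ℤ) : ℚ) * r + (0 : ℤ)) / (((0 : ℤ) : ℚ) * r + (1 : ℤ)) : ℚ)) : OnePoint ℚ)) = _
  rw [if_neg (by norm_num)]
  congr 1
  push_cast
  ring

theorem f8_Ic1 (hITG : Sf_ITG) (hTWD : Sf_TWD) {A B : ℤ} (h : Case A B) {g : OO A B}
    {e : OO A B → ℂ} (hg : g ≠ 0) (he : IsEps g e) (hD : ((absD A B : ℤ) : OO A B) ∣ g)
    (x : OnePoint ℚ) :
    ∑ a ∈ Finset.range (absD A B).toNat,
      (chiD A B a : ℂ) * Ic e (mob (absD A B) a 0 (absD A B) x) = tauD A B * Ic e x := by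
  induction x using OnePoint.rec with
  | infty =>
    have h1 : ∀ a : ℤ, Ic e (mob (absD A B) a 0 (absD A B) ∞) = 0 := by
      intro a
      rw [f8_mob2 _ _ _ _ rfl]
      rfl
    have h2 : Ic e ∞ = 0 := rfl
    simp only [h1, h2, mul_zero, Finset.sum_const_zero]
  | coe r =>
    have h1 := f8_Iv hITG hTWD h hg he hD r
    have h2 : Ic e ((r : ℚ) : OnePoint ℚ) = Iv e r := rfl
    rw [h2, ← h1]
    apply Finset.sum_congr rfl
    intro a _
    rw [f8_mob1 h]
    congr 1

theorem f8_Ic2 (hPRD : Sf_PRD) (hITG : Sf_ITG) (hGSS : Sf_GSS) (hTWD : Sf_TWD) {A B : ℤ}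
    (h : Case A B) {g : OO A B}
    {e : OO A B → ℂ} (hg : g ≠ 0) (he : IsEps g e) (hD : ((absD A B : ℤ) : OO A B) ∣ g)
    (x : OnePoint ℚ) :
    ∑ a ∈ Finset.range (absD A B).toNat,
      (chiD A B a : ℂ) * Ic e (mob (-1) 0 0 1 (mob (absD A B) a 0 (absD A B) x)) =
      -(tauD A B * Ic e (mob (-1) 0 0 1 x)) := by
  have hpos := f8_absD h
  induction x using OnePoint.rec with
  | infty =>
    have h1 : ∀ a : ℤ, Ic e (mob (-1) 0 0 1 (mob (absD A B) a 0 (absD A B) ∞)) = 0 := by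
      intro a
      rw [f8_mob2 _ _ _ _ rfl, f8_mob2 _ _ _ _ rfl]
      rfl
    have h2 : Ic e (mob (-1) 0 0 1 ∞) = 0 := by
      rw [f8_mob2 _ _ _ _ rfl]
      rfl
    simp only [h1, h2, mul_zero, Finset.sum_const_zero, neg_zero]
  | coe r =>
    obtain ⟨n, hn⟩ : ∃ n : ℕ, absD A B = n := ⟨(absD A B).toNat, (Int.toNat_of_nonneg hpos.le).symm⟩
    have hn0 : (n : ℚ) ≠ 0 := by
      intro h0
      have : n = 0 := by exact_mod_cast h0
      omega
    have h1 := f8_Iv hITG hTWD h hg he hD (-r)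
    have h2 : Ic e (mob (-1) 0 0 1 ((r : ℚ) : OnePoint ℚ)) = Iv e (-r) := by
      rw [f8_mob3]
      rfl
    rw [h2, ← h1]
    obtain ⟨-, hodd, hper, -⟩ := hGSS A B h
    set F : ℤ → ℂ := fun b => (chiD A B b : ℂ) * Iv e (-r + (b : ℚ) / (absD A B : ℚ)) with hF
    have hFper : F n = F 0 := by
      simp only [hF]
      have e1 : chiD A B (n : ℤ) = chiD A B 0 := by
        have := hper 0
        rw [zero_add, hn] at this
        exact this
      have e2 : -r + ((n : ℤ) : ℚ) / (absD A B : ℚ) = (-r + ((0 : ℤ) : ℚ) / (absD A B : ℚ)) + 1 := by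
        rw [hn]
        push_cast
        field_simp
        ring
      rw [e1, e2, f8_Iv_per hPRD h]
    have h3 : ∀ a ∈ Finset.range (absD A B).toNat, (chiD A B a : ℂ) *
        Ic e (mob (-1) 0 0 1 (mob (absD A B) a 0 (absD A B) ((r : ℚ) : OnePoint ℚ))) =
        -F ((n : ℤ) - a) := by
      intro a _
      rw [f8_mob1 h, f8_mob3]
      have e0 : Ic e ((-(r + ((a : ℤ) : ℚ) / (absD A B : ℚ)) : ℚ) : OnePoint ℚ) =
        Iv e (-(r + ((a : ℤ) : ℚ) / (absD A B : ℚ))) := rfl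
      rw [e0]
      simp only [hF]
      have e1 : chiD A B ((n : ℤ) - a) = -chiD A B a := by
        have e2 := hper (-(a : ℤ))
        rw [hn, hodd] at e2
        rw [← e2]
        congr 1
        ring
      have e3 : (-r + (((n : ℤ) - (a : ℤ) : ℤ) : ℚ) / (absD A B : ℚ)) =
          -(r + ((a : ℤ) : ℚ) / (absD A B : ℚ)) + 1 := by
        rw [hn]
        push_cast
        field_simp
        ring
      rw [e1, e3, f8_Iv_per hPRD h]
      push_cast
      ring
    rw [Finset.sum_congr rfl h3, Finset.sum_neg_distrib]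
    congr 1
    have h4 : (absD A B).toNat = n := by rw [hn]; rfl
    rw [h4]
    have h5 : ∑ a ∈ Finset.range n, F ((n : ℤ) - (a : ℤ)) =
        ∑ a ∈ Finset.range n, F ((a : ℤ) + 1) := by
      rw [← Finset.sum_range_reflect (fun a : ℕ => F ((a : ℤ) + 1)) n]
      apply Finset.sum_congr rfl
      intro a ha
      have ha' := Finset.mem_range.1 ha
      congr 1
      omega
    have h6 : ∑ a ∈ Finset.range n, F ((a : ℤ) + 1) = ∑ a ∈ Finset.range n, F (a : ℤ) := by
      have e1 := Finset.sum_range_succ (fun a : ℕ => F (a : ℤ)) n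
      have e2 := Finset.sum_range_succ' (fun a : ℕ => F (a : ℤ)) n
      rw [e1] at e2
      simp only [hFper, Nat.cast_zero] at e2
      have e3 := add_right_cancel e2
      rw [e3]
      apply Finset.sum_congr rfl
      intro a _
      push_cast
      rfl
    rw [h5, h6]
    apply Finset.sum_congr rfl
    intro a _
    simp only [hF]
    push_cast
    rfl

theorem tf_F8 (hPRD : Sf_PRD) (hITG : Sf_ITG) (hGSS : Sf_GSS) (hTWD : Sf_TWD) : Sf_F8 := by
  intro A B h g e hg he hD s x y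
  have a1 := f8_Ic1 hITG hTWD h hg he hD x
  have a2 := f8_Ic1 hITG hTWD h hg he hD y
  have b1 := f8_Ic2 hPRD hITG hGSS hTWD h hg he hD x
  have b2 := f8_Ic2 hPRD hITG hGSS hTWD h hg he hD y
  have key : ∑ a ∈ Finset.range (absD A B).toNat, (chiD A B a : ℂ) * sgnPart s (Phi e)
      (mob (absD A B) a 0 (absD A B) x) (mob (absD A B) a 0 (absD A B) y) =
      (∑ a ∈ Finset.range (absD A B).toNat,
        (chiD A B a : ℂ) * Ic e (mob (absD A B) a 0 (absD A B) x)) -
      (∑ a ∈ Finset.range (absD A B).toNat,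
        (chiD A B a : ℂ) * Ic e (mob (absD A B) a 0 (absD A B) y)) +
      s * ((∑ a ∈ Finset.range (absD A B).toNat,
        (chiD A B a : ℂ) * Ic e (mob (-1) 0 0 1 (mob (absD A B) a 0 (absD A B) x))) -
      (∑ a ∈ Finset.range (absD A B).toNat,
        (chiD A B a : ℂ) * Ic e (mob (-1) 0 0 1 (mob (absD A B) a 0 (absD A B) y)))) := by
    rw [← Finset.sum_sub_distrib, ← Finset.sum_sub_distrib, Finset.mul_sum,
      ← Finset.sum_add_distrib]
    apply Finset.sum_congr rfl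
    intro a _
    unfold sgnPart Phi
    ring
  rw [key, a1, a2, b1, b2]
  unfold sgnPart Phi
  ring

end

end Pool.Agent.MU3F
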