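import Pool.Agent.MU3.StFH

/-!
# MU3, block FH, module FG: the values of a symbol lie in a finitely generated group
-/

set_option autoImplicit false

namespace Pool.Agent.MU3F

open MU3 Pool.Agent.MU3A Pool.Agent.MU3B Pool.Agent.MuSym OnePoint
open Matrix MatrixGroups

noncomputable section

namespace Fg

/-- `mob` of a product is the composition -/
lemma mob_mob (a b c d a' b' c' d' : ℤ) (h' : a' * d' - b' * c' = 1) (x : OnePoint ℚ) :
    mob a b c d (mob a' b' c' d' x) =
      mob (a * a' + b * c') (a * b' + b * d') (c * a' + d * c') (c * b' + d * d') x := by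
  have hq : (a' : ℚ) * d' - b' * c' = 1 := by exact_mod_cast h'
  induction x using OnePoint.rec with
  | infty =>
    by_cases hc' : c' = 0
    · subst hc'
      have ha' : a' ≠ 0 := by
        rintro rfl
        simp at h'
      have e1 : mob a' b' 0 d' ∞ = ∞ := by simp [mob]
      rw [e1]
      by_cases hc : c = 0
      · subst hc
        simp [mob]
      · have h2 : c * a' + d * 0 ≠ 0 := by
          simp [hc, ha']
        have q1 : (c : ℚ) ≠ 0 := by exact_mod_cast hc
        have q2 : (a' : ℚ) ≠ 0 := by exact_mod_cast ha'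
        simp only [mob, OnePoint.elim_infty, if_neg hc, if_neg h2]
        congr 1
        push_cast
        field_simp
        ring
    · have q1 : (c' : ℚ) ≠ 0 := by exact_mod_cast hc'
      have e1 : mob a' b' c' d' ∞ = ((a' / c' : ℚ) : OnePoint ℚ) := by
        simp only [mob, OnePoint.elim_infty, if_neg hc']
      rw [e1]
      have e2 : (c : ℚ) * (a' / c') + d = ((c * a' + d * c' : ℤ) : ℚ) / c' := by
        push_cast
        field_simp
      have e3 : (a : ℚ) * (a' / c') + b = ((a * a' + b * c' : ℤ) : ℚ) / c' := by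
        push_cast
        field_simp
      by_cases hz : c * a' + d * c' = 0
      · have e4 : (c : ℚ) * (a' / c') + d = 0 := by
          rw [e2, hz]
          simp
        simp only [mob, OnePoint.elim_some, OnePoint.elim_infty, if_pos hz, if_pos e4]
      · have q3 : ((c * a' + d * c' : ℤ) : ℚ) ≠ 0 := by exact_mod_cast hz
        have e4 : (c : ℚ) * (a' / c') + d ≠ 0 := by
          rw [e2]
          exact div_ne_zero q3 q1
        simp only [mob, OnePoint.elim_some, OnePoint.elim_infty, if_neg hz, if_neg e4]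
        congr 1
        rw [e2, e3]
        field_simp
  | coe r =>
    have f1 : ((c * a' + d * c' : ℤ) : ℚ) * r + ((c * b' + d * d' : ℤ) : ℚ) =
        c * (a' * r + b') + d * (c' * r + d') := by
      push_cast
      ring
    have f2 : ((a * a' + b * c' : ℤ) : ℚ) * r + ((a * b' + b * d' : ℤ) : ℚ) =
        a * (a' * r + b') + b * (c' * r + d') := by
      push_cast
      ring
    by_cases hy : (c' : ℚ) * r + d' = 0
    · have hx : (a' : ℚ) * r + b' ≠ 0 := by
        intro h0
        apply zero_ne_one (α := ℚ)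
        linear_combination hq - a' * hy + c' * h0
      have e1 : mob a' b' c' d' (r : OnePoint ℚ) = ∞ := by
        simp only [mob, OnePoint.elim_some, if_pos hy]
      rw [e1]
      rw [hy, mul_zero, add_zero] at f1 f2
      by_cases hc : c = 0
      · have g1 : ((c * a' + d * c' : ℤ) : ℚ) * r + ((c * b' + d * d' : ℤ) : ℚ) = 0 := by
          rw [f1, hc]
          simp
        simp only [mob, OnePoint.elim_some, OnePoint.elim_infty, if_pos g1, if_pos hc]
      · have q1 : (c : ℚ) ≠ 0 := by exact_mod_cast hc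
        have g1 : ((c * a' + d * c' : ℤ) : ℚ) * r + ((c * b' + d * d' : ℤ) : ℚ) ≠ 0 := by
          rw [f1]
          exact mul_ne_zero q1 hx
        simp only [mob, OnePoint.elim_some, OnePoint.elim_infty, if_neg g1, if_neg hc]
        congr 1
        rw [f1, f2]
        field_simp
    · have e1 : mob a' b' c' d' (r : OnePoint ℚ) =
          (((a' * r + b') / (c' * r + d') : ℚ) : OnePoint ℚ) := by
        simp only [mob, OnePoint.elim_some, if_neg hy]
      rw [e1]
      set x : ℚ := a' * r + b' with hx
      set y : ℚ := c' * r + d' with hyd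
      have f3 : (c : ℚ) * (x / y) + d = (c * x + d * y) / y := by
        field_simp
      have f4 : (a : ℚ) * (x / y) + b = (a * x + b * y) / y := by
        field_simp
      by_cases hz : (c : ℚ) * x + d * y = 0
      · have g1 : ((c * a' + d * c' : ℤ) : ℚ) * r + ((c * b' + d * d' : ℤ) : ℚ) = 0 := by
          rw [f1, hz]
        have g2 : (c : ℚ) * (x / y) + d = 0 := by
          rw [f3, hz, zero_div]
        simp only [mob, OnePoint.elim_some, if_pos g1, if_pos g2]
      · have g1 : ((c * a' + d * c' : ℤ) : ℚ) * r + ((c * b' + d * d' : ℤ) : ℚ) ≠ 0 := by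
          rw [f1]
          exact hz
        have g2 : (c : ℚ) * (x / y) + d ≠ 0 := by
          rw [f3]
          exact div_ne_zero hz hy
        simp only [mob, OnePoint.elim_some, if_neg g1, if_neg g2]
        congr 1
        rw [f1, f2, f3, f4]
        field_simp

/-- the value on the path of a unimodular matrix -/
def vv (P : OnePoint ℚ → OnePoint ℚ → ℂ) (h : SL(2, ℤ)) : ℂ :=
  P (mob (h 0 0) (h 0 1) (h 1 0) (h 1 1) ∞) (mob (h 0 0) (h 0 1) (h 1 0) (h 1 1) ((0 : ℚ) : OnePoint ℚ))

lemma det_eq (h : SL(2, ℤ)) : h 0 0 * h 1 1 - h 0 1 * h 1 0 = 1 := by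
  have := h.2
  rw [Matrix.det_fin_two] at this
  exact this

/-- the class of the bottom row -/
def row (N : ℕ) (h : SL(2, ℤ)) : ZMod N × ZMod N := ((h 1 0 : ZMod N), (h 1 1 : ZMod N))

lemma vv_row {N : ℕ} {nu : ℤ → ℂ} {P : OnePoint ℚ → OnePoint ℚ → ℂ} (hP : IsSym N nu P)
    (h h' : SL(2, ℤ)) (hr : row N h = row N h') : ∃ d : ℤ, vv P h' = nu d * vv P h := by
  have d1 := det_eq h
  have d2 := det_eq h'
  obtain ⟨r1, r2⟩ := Prod.mk.inj hr
  set a := h 0 0
  set b := h 0 1
  set c := h 1 0
  set d := h 1 1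
  set a' := h' 0 0
  set b' := h' 0 1
  set c' := h' 1 0
  set d' := h' 1 1
  have hdet : (a' * d - b' * c) * (-(c' * b) + d' * a) - (-(a' * b) + b' * a) * (c' * d - d' * c) =
      1 := by
    linear_combination (a' * d' - b' * c') * d1 + d2
  have hdvd : (N : ℤ) ∣ c' * d - d' * c := by
    rw [← ZMod.intCast_zmod_eq_zero_iff_dvd]
    push_cast
    rw [← r1, ← r2]
    ring
  have key := fun x y => hP.equiv _ _ _ _ hdet hdvd (mob a b c d x) (mob a b c d y)
  refine ⟨-(c' * b) + d' * a, ?_⟩
  have e := key ∞ ((0 : ℚ) : OnePoint ℚ)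
  rw [mob_mob _ _ _ _ _ _ _ _ d1, mob_mob _ _ _ _ _ _ _ _ d1] at e
  have g1 : (a' * d - b' * c) * a + (-(a' * b) + b' * a) * c = a' := by
    linear_combination a' * d1
  have g2 : (a' * d - b' * c) * b + (-(a' * b) + b' * a) * d = b' := by
    linear_combination b' * d1
  have g3 : (c' * d - d' * c) * a + (-(c' * b) + d' * a) * c = c' := by
    linear_combination c' * d1
  have g4 : (c' * d - d' * c) * b + (-(c' * b) + d' * a) * d = d' := by
    linear_combination d' * d1
  rw [g1, g2, g3, g4] at e
  exact e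

lemma vv_fin {N : ℕ} (hN : N ≠ 0) {nu : ℤ → ℂ} {P : OnePoint ℚ → OnePoint ℚ → ℂ}
    (hP : IsSym N nu P) (hnu : (Set.range nu).Finite) : (Set.range (vv P)).Finite := by
  classical
  have : NeZero N := ⟨hN⟩
  let w : ZMod N × ZMod N → ℂ := fun κ =>
    if h : ∃ h : SL(2, ℤ), row N h = κ then vv P h.choose else 0
  have hfin : ((fun p : ℂ × (ZMod N × ZMod N) => p.1 * w p.2) ''
      (Set.range nu ×ˢ (Set.univ : Set (ZMod N × ZMod N)))).Finite :=
    (hnu.prod Set.finite_univ).image _
  refine hfin.subset ?_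
  rintro _ ⟨h, rfl⟩
  have hex : ∃ h' : SL(2, ℤ), row N h' = row N h := ⟨h, rfl⟩
  obtain ⟨d, hd⟩ := vv_row hP hex.choose h hex.choose_spec
  refine ⟨(nu d, row N h), ⟨⟨d, rfl⟩, trivial⟩, ?_⟩
  show nu d * w (row N h) = vv P h
  rw [hd]
  congr 1
  simp only [w, dif_pos hex]

lemma self_zero {N : ℕ} {nu : ℤ → ℂ} {P : OnePoint ℚ → OnePoint ℚ → ℂ} (hP : IsSym N nu P)
    (x : OnePoint ℚ) : P x x = 0 := by
  have := hP.add x x x
  exact left_eq_add.1 this.symm

/-- Manin's trick -/
lemma inf_mem {N : ℕ} {nu : ℤ → ℂ} {P : OnePoint ℚ → OnePoint ℚ → ℂ} (hP : IsSym N nu P)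
    (G : AddSubgroup ℂ) (hG : ∀ h, vv P h ∈ G) :
    ∀ (q : ℕ) (r : ℚ), r.den = q → P ∞ (r : OnePoint ℚ) ∈ G := by
  intro q
  induction q using Nat.strong_induction_on with
  | _ q ih =>
    intro r hr
    have hr0 : (r.num : ℚ) / (r.den : ℚ) = r := Rat.num_div_den r
    have hqpos : 0 < q := hr ▸ r.den_pos
    by_cases h1 : q = 1
    · -- an integer
      have hd : Matrix.det !![(1 : ℤ), r.num; 0, 1] = 1 := by
        rw [Matrix.det_fin_two_of]
        ring
      let h : SL(2, ℤ) := ⟨!![(1 : ℤ), r.num; 0, 1], hd⟩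
      have f1 : h 0 0 = 1 := rfl
      have f2 : h 0 1 = r.num := rfl
      have f3 : h 1 0 = 0 := rfl
      have f4 : h 1 1 = 1 := rfl
      have e := hG h
      unfold vv at e
      rw [f1, f2, f3, f4] at e
      have e1 : mob 1 r.num 0 1 ∞ = ∞ := by simp [mob]
      have e2 : mob 1 r.num 0 1 ((0 : ℚ) : OnePoint ℚ) = (r : OnePoint ℚ) := by
        have e3 : (r.num : ℚ) = r := by
          rw [hr, h1] at hr0
          simpa using hr0
        simp [mob, e3]
      rw [e1, e2] at e
      exact e
    · -- the general case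
      have hcop : IsCoprime r.num (q : ℤ) := by
        rw [← hr, Int.isCoprime_iff_nat_coprime]
        exact r.reduced
      obtain ⟨u, w, huw⟩ := hcop
      have hq0 : (q : ℤ) ≠ 0 := by exact_mod_cast hqpos.ne'
      set q' : ℤ := (-u) % (q : ℤ) with hq'
      have h2 : 0 ≤ q' := Int.emod_nonneg _ hq0
      have h3 : q' < q := Int.emod_lt_of_pos _ (by exact_mod_cast hqpos)
      have h4 : q' = -u - q * ((-u) / q) := by
        have := Int.emod_add_mul_ediv (-u) q
        linarith
      have h5 : q' ≠ 0 := by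
        intro h0
        have h6 : (q : ℤ) ∣ 1 := by
          refine ⟨-((-u) / q) * r.num + w, ?_⟩
          rw [h0] at h4
          linear_combination -huw + r.num * h4
        have h7 : q ∣ 1 := by exact_mod_cast h6
        exact h1 (Nat.dvd_one.1 h7)
      have hdet : (w - r.num * ((-u) / q)) * (q : ℤ) - r.num * q' = 1 := by
        rw [h4]
        linear_combination huw
      set p' : ℤ := w - r.num * ((-u) / q) with hp'
      have hd : Matrix.det !![p', r.num; q', (q : ℤ)] = 1 := by
        rw [Matrix.det_fin_two_of]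
        exact hdet
      let h : SL(2, ℤ) := ⟨!![p', r.num; q', (q : ℤ)], hd⟩
      have f1 : h 0 0 = p' := rfl
      have f2 : h 0 1 = r.num := rfl
      have f3 : h 1 0 = q' := rfl
      have f4 : h 1 1 = q := rfl
      have e := hG h
      unfold vv at e
      rw [f1, f2, f3, f4] at e
      have e1 : mob p' r.num q' q ∞ = (((p' : ℚ) / q' : ℚ) : OnePoint ℚ) := by
        simp only [mob, OnePoint.elim_infty, if_neg h5]
      have hqQ : (q : ℚ) ≠ 0 := by exact_mod_cast hqpos.ne'
      have e2 : mob p' r.num q' q ((0 : ℚ) : OnePoint ℚ) = (r : OnePoint ℚ) := by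
        have e3 : (r.num : ℚ) / q = r := by
          rw [hr] at hr0
          exact hr0
        have e4 : (q' : ℚ) * 0 + ((q : ℤ) : ℚ) ≠ 0 := by
          simpa using hqQ
        simp only [mob, OnePoint.elim_some, if_neg e4]
        congr 1
        simpa using e3
      rw [e1, e2] at e
      have hden : ((p' : ℚ) / q').den < q := by
        have h8 := Rat.den_dvd p' q'
        have h9 : 0 < q' := lt_of_le_of_ne h2 (Ne.symm h5)
        have h10 := Int.le_of_dvd h9 h8
        have h11 : ((((p' : ℚ) / q').den : ℕ) : ℤ) < q := by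
          refine lt_of_le_of_lt ?_ h3
          rw [← Rat.divInt_eq_div]
          exact h10
        exact_mod_cast h11
      have h12 := ih _ hden ((p' : ℚ) / q') rfl
      rw [← hP.add ∞ (((p' : ℚ) / q' : ℚ) : OnePoint ℚ)]
      exact add_mem h12 e

end Fg

open Fg in
theorem tf_FG : Sf_FG := by
  intro N nu P hN hP hnu
  have hf := vv_fin hN hP hnu
  refine ⟨hf.toFinset, fun x y => ?_⟩
  set G := AddSubgroup.closure ((hf.toFinset : Finset ℂ) : Set ℂ) with hGd
  have hG : ∀ h, vv P h ∈ G := fun h =>
    AddSubgroup.subset_closure (by simp)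
  have h1 : ∀ x : OnePoint ℚ, P ∞ x ∈ G := by
    intro x
    induction x using OnePoint.rec with
    | infty =>
      rw [self_zero hP]
      exact zero_mem _
    | coe r => exact inf_mem hP G hG _ r rfl
  have h2 : P x y = - P ∞ x + P ∞ y := by
    have e1 := hP.add ∞ x y
    linear_combination e1
  rw [h2]
  exact add_mem (neg_mem (h1 x)) (h1 y)

end

end Pool.Agent.MU3F
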