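import Pool.Agent.MU3.StFH

/-!
# MU3, block FH, module ITG: integrability of theta on the vertical lines over rational numbers
-/

set_option autoImplicit false

namespace Pool.Agent.MU3F

open MU3 Pool.Agent.MU3A Pool.Agent.MU3B Pool.Agent.MuSym OnePoint
open scoped ComplexConjugate

noncomputable section

theorem tf_ITG (hF4 : Sf_F4) (hLAT0 : Pool.Agent.MU3A.Sa_LAT0) : Sf_ITG := by
  intro A B h g e hg he r
  obtain ⟨L, hL⟩ := hLAT0 A B h 1 one_ne_zero
  have hM : 0 < r.den := r.pos
  have hMC : ((r.den : ℕ) : ℂ) ≠ 0 := by exact_mod_cast hM.ne'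
  have hg' : g * ((r.den : ℕ) : OO A B) ≠ 0 := by
    intro h0
    have h1 := congrArg emb h0
    rw [emb_mul h, emb_zero h, emb_natCast h] at h1
    exact mul_ne_zero (emb_ne_zero h hg) hMC h1
  have h2 := (hF4 A B h L 1 hL g (g * ((r.den : ℕ) : OO A B)) e he hg' (Dvd.intro _ rfl) r.den hM
    (Dvd.intro_left _ rfl) r.num).1
  rw [Rat.num_div_den] at h2
  exact h2

end

end Pool.Agent.MU3F
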