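import Pool.Agent.MU3.StFH

/-!
# MU3, block FH: module PRD (helper9)
-/

set_option autoImplicit false

namespace Pool.Agent.MU3F

open MU3 Pool.Agent.MU3A Pool.Agent.MU3B Pool.Agent.MuSym OnePoint
open scoped ComplexConjugate

noncomputable section

theorem tf_PRD : Sf_PRD := by
  intro A B _ e z
  unfold theta
  congr 1
  refine tsum_congr fun x => ?_
  congr 1
  rw [show 2 * (Real.pi : ℂ) * Complex.I * (nm x : ℂ) * (z + 1) =
    2 * (Real.pi : ℂ) * Complex.I * (nm x : ℂ) * z +
      (nm x : ℂ) * (2 * (Real.pi : ℂ) * Complex.I) by ring, Complex.exp_add,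
    Complex.exp_int_mul_two_pi_mul_I, mul_one]

end

end Pool.Agent.MU3F
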