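import Pool.Agent.MU3.StFH

/-!
# MU3, SM (helper69): rules for `sumMod`
-/

set_option autoImplicit false

namespace Pool.Agent.MU3F

open MU3 Pool.Agent.MU3A Pool.Agent.MU3B

theorem tf_SM (hALG : Sf_ALG) : Sf_SM := by
  intro A B hc m hm
  classical
  have hfin : Finite (OO A B ⧸ Ideal.span {m}) := (hALG A B hc).2.2.2.1 m hm
  let _ : Fintype (OO A B ⧸ Ideal.span {m}) := Fintype.ofFinite _
  refine ⟨?_, ?_, ?_, ?_, ?_⟩
  · intro c F
    unfold sumMod
    rw [finsum_eq_sum_of_fintype, finsum_eq_sum_of_fintype, Finset.mul_sum]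
  · intro F G
    unfold sumMod
    rw [finsum_eq_sum_of_fintype, finsum_eq_sum_of_fintype, finsum_eq_sum_of_fintype,
      Finset.sum_add_distrib]
  · intro s F
    unfold sumMod
    simp only [finsum_eq_sum_of_fintype]
    rw [Finset.sum_comm]
  · intro F hF x
    refine hF _ _ ?_
    rw [← Ideal.mem_span_singleton, ← Ideal.Quotient.eq]
    exact Quotient.out_eq _
  · intro F G h
    have e : F = G := funext h
    rw [e]

end Pool.Agent.MU3F
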