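import Pool.Agent.MU3.StFH

/-!
# MU3, block FH, THD: theta on a vertical line as a combination of lattice sums
-/

set_option autoImplicit false

namespace Pool.Agent.MU3F

open MU3 Pool.Agent.MU3A Pool.Agent.MU3B Pool.Agent.MuSym OnePoint
open scoped ComplexConjugate

noncomputable section

namespace THD

variable {A B : ℤ}

/-- `w ↦ Om w` is a bijection from `O` onto the lattice -/
def eqv (h : Case A B) {L : PeriodPair} {Om : ℂ} (hL : IsLat A B L Om) : OO A B ≃ L.lattice :=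
  Equiv.ofBijective (fun w => ⟨Om * emb w, (hL.mem _).2 ⟨w, rfl⟩⟩) (by
    constructor
    · intro x y hxy
      have h1 : Om * emb x = Om * emb y := congrArg Subtype.val hxy
      exact emb_inj h (mul_left_cancel₀ hL.Om_ne h1)
    · rintro ⟨z, hz⟩
      obtain ⟨x, rfl⟩ := (hL.mem z).1 hz
      exact ⟨x, rfl⟩)

theorem eqv_val (h : Case A B) {L : PeriodPair} {Om : ℂ} (hL : IsLat A B L Om) (w : OO A B) :
    ((eqv h hL w : L.lattice) : ℂ) = Om * emb w := rfl

/-- `N(x + M y)` is congruent to `N(x)` modulo `M` -/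
theorem nm_congr (x y : OO A B) (M : ℕ) : ∃ k : ℤ, nm (x + (M : OO A B) * y) = nm x + M * k := by
  refine ⟨2 * x.re * y.re + B * (x.re * y.im + x.im * y.re) - 2 * A * x.im * y.im + M * nm y, ?_⟩
  have h1 : (x + (M : OO A B) * y).re = x.re + M * y.re := by
    simp
  have h2 : (x + (M : OO A B) * y).im = x.im + M * y.im := by
    simp
  unfold nm
  rw [h1, h2]
  ring

theorem exp_split (n b : ℤ) (M : ℕ) (t : ℝ) :
    Complex.exp (2 * Real.pi * Complex.I * (n : ℂ) * (((b / M : ℚ) : ℂ) + t * Complex.I)) =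
      ex (b * n / M) * (Real.exp (-(2 * Real.pi * n * t)) : ℝ) := by
  unfold ex
  rw [Complex.ofReal_exp, ← Complex.exp_add]
  congr 1
  push_cast
  linear_combination (2 * Real.pi * (n : ℂ) * t) * Complex.I_mul_I

theorem ex_congr (n k b : ℤ) {M : ℕ} (hM : 0 < M) : ex (b * ((n + M * k : ℤ) : ℚ) / M) =
    ex (b * n / M) := by
  have hM0 : (M : ℂ) ≠ 0 := by exact_mod_cast hM.ne'
  unfold ex
  have h1 : 2 * Real.pi * Complex.I * ((b * ((n + M * k : ℤ) : ℚ) / M : ℚ) : ℂ) =
      2 * Real.pi * Complex.I * ((b * n / M : ℚ) : ℂ) +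
        ((b * k : ℤ) : ℂ) * (2 * Real.pi * Complex.I) := by
    push_cast
    field_simp
  rw [h1, Complex.exp_add, Complex.exp_int_mul_two_pi_mul_I, mul_one]

end THD

open THD in
/-- theta on a vertical line as a combination of lattice sums -/
theorem tf_THD (hALG : Sf_ALG) (hBDD : Sf_BDD) (hTSM : Sf_TSM) (hDCM : Sf_DCM) : Sf_THD := by
  intro A B h L Om hL g g' e he hg' hgg' M hM hMg b t ht
  have hg : g ≠ 0 := by
    rintro rfl
    exact hg' (zero_dvd_iff.1 hgg')
  obtain ⟨-, C, -, hC⟩ := hBDD A B h g e hg he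
  have hz : 0 < (((b / M : ℚ) : ℂ) + t * Complex.I).im := by
    have h1 : (((b / M : ℚ) : ℂ)).im = 0 := Complex.ratCast_im _
    rw [Complex.add_im, h1, Complex.mul_I_im, Complex.ofReal_re, zero_add]
    exact ht
  have hs := hTSM A B h e C hC _ hz
  unfold theta
  rw [hDCM A B h g' hg' _ hs]
  congr 2
  funext x
  have hg0 : emb g' ≠ 0 := emb_ne_zero h hg'
  have hOm := hL.Om_ne
  rw [← (eqv h hL).tsum_eq, ← tsum_mul_left, ← tsum_mul_left]
  refine tsum_congr fun w => ?_
  rw [eqv_val]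
  obtain ⟨c, rfl⟩ := hMg
  have e1 : e (x + (M : OO A B) * c * w) = e x := he.per _ _ (by
    rw [add_sub_cancel_left]
    exact hgg'.trans (dvd_mul_right _ _))
  have e2 : emb (x + (M : OO A B) * c * w) = emb ((M : OO A B) * c) / Om *
      (Om * emb x / emb ((M : OO A B) * c) + Om * emb w) := by
    rw [emb_add h, emb_mul h ((M : OO A B) * c) w]
    field_simp
  obtain ⟨k, hk⟩ := nm_congr x (c * w) M
  rw [← mul_assoc] at hk
  have e3 : ((nm (x + (M : OO A B) * c * w) : ℤ) : ℝ) = ‖emb ((M : OO A B) * c) / Om‖ ^ 2 *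
      ‖Om * emb x / emb ((M : OO A B) * c) + Om * emb w‖ ^ 2 := by
    rw [((hALG A B h).2.1 _).2.1, e2, norm_mul, mul_pow]
  rw [e1, exp_split, e3, hk, ex_congr _ _ _ hM, e2, map_mul]
  have e4 : 2 * Real.pi * (‖emb ((M : OO A B) * c) / Om‖ ^ 2 *
      ‖Om * emb x / emb ((M : OO A B) * c) + Om * emb w‖ ^ 2) * t =
      2 * Real.pi * ‖emb ((M : OO A B) * c) / Om‖ ^ 2 * t *
        ‖Om * emb x / emb ((M : OO A B) * c) + Om * emb w‖ ^ 2 := by ring
  rw [e4]
  ring

end

end Pool.Agent.MU3F
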