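import Pool.Agent.MU3.StG

/-!
# MU3, G2 (helper69): first properties of the coefficients `a_n`
-/

set_option autoImplicit false

namespace Pool.Agent.MU3G

open MU3

namespace G2

variable {A B : ℤ}

theorem nm_mul (x y : OO A B) : nm (x * y) = nm x * nm y := by
  simp only [nm, QuadraticAlgebra.re_mul, QuadraticAlgebra.im_mul]
  ring

theorem mul_star' (x : OO A B) : x * star x = ((nm x : ℤ) : OO A B) := by
  ext
  · simp only [nm, QuadraticAlgebra.re_mul, QuadraticAlgebra.re_star, QuadraticAlgebra.im_star,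
      QuadraticAlgebra.re_intCast, Int.cast_id]
    ring
  · simp only [QuadraticAlgebra.im_mul, QuadraticAlgebra.re_star, QuadraticAlgebra.im_star,
      QuadraticAlgebra.im_intCast]
    ring

theorem nm_neg (x : OO A B) : nm (-x) = nm x := by
  simp only [nm, QuadraticAlgebra.re_neg, QuadraticAlgebra.im_neg]
  ring

theorem nm_pos (h : Case A B) (x : OO A B) (hx : nm x = 0) : x.re = 0 ∧ x.im = 0 := by
  rcases h with ⟨rfl, rfl⟩ | ⟨rfl, rfl⟩
  · have h1 : x.re ^ 2 + 2 * x.im ^ 2 = 0 := by
      simp only [nm] at hx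
      linarith
    have h2 : x.re ^ 2 = 0 := by nlinarith [sq_nonneg x.re, sq_nonneg x.im]
    have h3 : x.im ^ 2 = 0 := by nlinarith [sq_nonneg x.re, sq_nonneg x.im]
    exact ⟨pow_eq_zero_iff (two_ne_zero) |>.1 h2, pow_eq_zero_iff (two_ne_zero) |>.1 h3⟩
  · have h1 : x.re ^ 2 + x.re * x.im + 3 * x.im ^ 2 = 0 := by
      simp only [nm] at hx
      linarith
    have h2 : x.re ^ 2 = 0 := by nlinarith [sq_nonneg x.re, sq_nonneg (x.re + 6 * x.im)]
    have h3 : x.im ^ 2 = 0 := by nlinarith [sq_nonneg (2 * x.re + x.im), sq_nonneg x.im]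
    exact ⟨pow_eq_zero_iff (two_ne_zero) |>.1 h2, pow_eq_zero_iff (two_ne_zero) |>.1 h3⟩

theorem bd (h : Case A B) (x : OO A B) :
    x.re ^ 2 ≤ 2 * nm x ∧ x.im ^ 2 ≤ 2 * nm x := by
  rcases h with ⟨rfl, rfl⟩ | ⟨rfl, rfl⟩
  · have h1 : nm x = x.re ^ 2 + 2 * x.im ^ 2 := by
      simp only [nm]
      ring
    constructor <;> nlinarith [sq_nonneg x.re, sq_nonneg x.im]
  · have h1 : nm x = x.re ^ 2 + x.re * x.im + 3 * x.im ^ 2 := by
      simp only [nm]
      ring
    constructor
    · nlinarith [sq_nonneg x.re, sq_nonneg (x.re + 6 * x.im)]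
    · nlinarith [sq_nonneg (2 * x.re + x.im), sq_nonneg x.im]

theorem fin (h : Case A B) (n : ℤ) : {x : OO A B | nm x = n}.Finite := by
  classical
  refine Set.Finite.subset (((Finset.Icc (-(2 * n)) (2 * n)) ×ˢ
    (Finset.Icc (-(2 * n)) (2 * n))).image
      (fun p : ℤ × ℤ => (⟨p.1, p.2⟩ : OO A B))).finite_toSet ?_
  intro x hx
  have hx' : nm x = n := hx
  obtain ⟨h1, h2⟩ := bd h x
  rw [hx'] at h1 h2
  rw [Finset.mem_coe]
  refine Finset.mem_image.2 ⟨(x.re, x.im), ?_, ?_⟩
  · refine Finset.mem_product.2 ⟨Finset.mem_Icc.2 ?_, Finset.mem_Icc.2 ?_⟩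
    · have h3 := Int.le_self_sq x.re
      have h4 := Int.le_self_sq (-x.re)
      simp only
      constructor <;> nlinarith
    · have h3 := Int.le_self_sq x.im
      have h4 := Int.le_self_sq (-x.im)
      simp only
      constructor <;> nlinarith
  · ext <;> rfl

/-- the finite set of elements of norm `n` -/
noncomputable def FF (h : Case A B) (n : ℤ) : Finset (OO A B) := (fin h n).toFinset

theorem mem_FF {h : Case A B} {n : ℤ} {x : OO A B} : x ∈ FF h n ↔ nm x = n := by
  simp [FF]

variable {H : Type} [Field H] [CharZero H]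

omit [CharZero H] in
theorem aH_eq (h : Case A B) (j : OO A B →+* H) (eH : OO A B → H) (n : ℕ) :
    aH j eH n = (2 : H)⁻¹ * ∑ x ∈ FF h (n : ℤ), eH x * j (star x) := by
  unfold aH
  congr 1
  have h1 := finsum_set_coe_eq_finsum_mem (f := fun x : OO A B => eH x * j (star x))
    {x : OO A B | nm x = (n : ℤ)}
  refine Eq.trans h1 ?_
  rw [finsum_mem_eq_finite_toFinset_sum _ (fin h (n : ℤ))]
  rfl

open Classical in
/-- the positive half -/
noncomputable def TT (h : Case A B) (n : ℤ) : Finset (OO A B) :=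
  (FF h n).filter (fun x => 0 < x.im ∨ (x.im = 0 ∧ 0 < x.re))

theorem mem_TT {h : Case A B} {n : ℤ} {x : OO A B} :
    x ∈ TT h n ↔ nm x = n ∧ (0 < x.im ∨ (x.im = 0 ∧ 0 < x.re)) := by
  classical
  rw [TT, Finset.mem_filter, mem_FF]

theorem half (h : Case A B) (n : ℤ) (f : OO A B → H) (h0 : f 0 = 0)
    (hf : ∀ x, f (-x) = f x) :
    (2 : H)⁻¹ * ∑ x ∈ FF h n, f x = ∑ x ∈ TT h n, f x := by
  classical
  have h1 : ∑ x ∈ FF h n, f x = ∑ x ∈ TT h n, f x + ∑ x ∈ (TT h n).image (fun x => -x), f x := by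
    rw [← Finset.sum_union]
    · symm
      refine Finset.sum_subset ?_ ?_
      · intro x hx
        rcases Finset.mem_union.1 hx with e | e
        · exact mem_FF.2 (mem_TT.1 e).1
        · obtain ⟨y, hy, rfl⟩ := Finset.mem_image.1 e
          exact mem_FF.2 (by rw [nm_neg]; exact (mem_TT.1 hy).1)
      · intro x hx hx'
        rw [Finset.mem_union, not_or] at hx'
        obtain ⟨e1, e2⟩ := hx'
        have hn := mem_FF.1 hx
        have e3 : ¬ (0 < x.im ∨ (x.im = 0 ∧ 0 < x.re)) := fun e => e1 (mem_TT.2 ⟨hn, e⟩)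
        have e4 : ¬ (0 < (-x).im ∨ ((-x).im = 0 ∧ 0 < (-x).re)) := by
          intro e
          refine e2 (Finset.mem_image.2 ⟨-x, mem_TT.2 ⟨by rw [nm_neg]; exact hn, e⟩, ?_⟩)
          exact neg_neg x
        simp only [QuadraticAlgebra.im_neg, QuadraticAlgebra.re_neg] at e4
        have e5 : x = 0 := by
          ext
          · simp only [QuadraticAlgebra.re_zero]
            omega
          · simp only [QuadraticAlgebra.im_zero]
            omega
        rw [e5, h0]
    · rw [Finset.disjoint_left]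
      intro x hx hx'
      obtain ⟨y, hy, rfl⟩ := Finset.mem_image.1 hx'
      have e1 := (mem_TT.1 hx).2
      have e2 := (mem_TT.1 hy).2
      simp only [QuadraticAlgebra.im_neg, QuadraticAlgebra.re_neg] at e1
      omega
  have h2 : ∑ x ∈ (TT h n).image (fun x => -x), f x = ∑ x ∈ TT h n, f x := by
    rw [Finset.sum_image (fun x _ y _ e => neg_injective e)]
    exact Finset.sum_congr rfl (fun x _ => hf x)
  rw [h1, h2, ← two_mul, ← mul_assoc, inv_mul_cancel₀ (two_ne_zero), one_mul]

theorem TT_one (h : Case A B) : TT h 1 = {1} := by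
  ext x
  rw [mem_TT, Finset.mem_singleton]
  constructor
  · rintro ⟨h1, h2⟩
    obtain ⟨h3, h4⟩ := bd h x
    rw [h1] at h3 h4
    have h5 : -1 ≤ x.im := by nlinarith
    have h6 : x.im ≤ 1 := by nlinarith
    have h7 : -1 ≤ x.re := by nlinarith
    have h8 : x.re ≤ 1 := by nlinarith
    rcases h with ⟨rfl, rfl⟩ | ⟨rfl, rfl⟩
    · simp only [nm] at h1
      have h9 : x.re = 1 ∧ x.im = 0 := by
        obtain ⟨a, b⟩ := x
        simp only at *
        interval_cases a <;> interval_cases b <;> simp_all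
      ext
      · rw [h9.1, QuadraticAlgebra.re_one]
      · rw [h9.2, QuadraticAlgebra.im_one]
    · simp only [nm] at h1
      have h9 : x.re = 1 ∧ x.im = 0 := by
        obtain ⟨a, b⟩ := x
        simp only at *
        interval_cases a <;> interval_cases b <;> simp_all
      ext
      · rw [h9.1, QuadraticAlgebra.re_one]
      · rw [h9.2, QuadraticAlgebra.im_one]
  · rintro rfl
    refine ⟨?_, Or.inr ⟨?_, ?_⟩⟩
    · simp only [nm, QuadraticAlgebra.re_one, QuadraticAlgebra.im_one]
      ring
    · exact QuadraticAlgebra.im_one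
    · rw [QuadraticAlgebra.re_one]
      norm_num

theorem ppi_inj (h : Case A B) {x y : OO A B} (e : ppi A B * x = ppi A B * y) : x = y := by
  have h1 : star (ppi A B) * ppi A B = ((3 : ℤ) : OO A B) := by
    rw [mul_comm, mul_star', nm_ppi h]
  have h2 : ((3 : ℤ) : OO A B) * x = ((3 : ℤ) : OO A B) * y := by
    rw [← h1, mul_assoc, mul_assoc, e]
  have h3 := congrArg QuadraticAlgebra.re h2
  have h4 := congrArg QuadraticAlgebra.im h2
  simp only [QuadraticAlgebra.re_mul, QuadraticAlgebra.im_mul, QuadraticAlgebra.re_intCast,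
    QuadraticAlgebra.im_intCast, Int.cast_id] at h3 h4
  ext
  · linarith
  · linarith

theorem dvd_of (h : Case A B) {g : OO A B} (hg : star (ppi A B) ∣ g) {x : OO A B}
    (hx : IsCoprime x g) {n : ℤ} (hn : nm x = 3 * n) :
    ∃ y : OO A B, nm y = n ∧ ppi A B * y = x := by
  have h1 : IsCoprime x (star (ppi A B)) := hx.of_isCoprime_of_dvd_right hg
  have h2 : star (ppi A B) ∣ x * star x := by
    rw [mul_star', hn]
    refine ⟨ppi A B * (n : OO A B), ?_⟩
    rw [← mul_assoc, mul_comm (star (ppi A B)), mul_star', nm_ppi h]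
    push_cast
    ring
  have h3 : star (ppi A B) ∣ star x := h1.symm.dvd_of_dvd_mul_left h2
  obtain ⟨y, hy⟩ := h3
  have h4 : x = ppi A B * star y := by
    have := congrArg star hy
    rw [star_star, star_mul, star_star, mul_comm] at this
    exact this
  refine ⟨star y, ?_, h4.symm⟩
  have h5 := congrArg nm h4
  rw [nm_mul, nm_ppi h, hn] at h5
  linarith

omit [CharZero H] in
theorem integral' (j : OO A B →+* H) (x : OO A B) : IsIntegral ℤ (j x) := by
  have h1 : IsIntegral ℤ x := by
    refine ⟨Polynomial.X ^ 2 + (Polynomial.C (-(2 * x.re + B * x.im)) * Polynomial.X +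
      Polynomial.C (nm x)), ?_, ?_⟩
    · refine Polynomial.monic_X_pow_add ?_
      refine lt_of_le_of_lt Polynomial.degree_linear_le ?_
      norm_num
    · have h2 := mul_star' x
      have h3 : star x = (((2 * x.re + B * x.im : ℤ)) : OO A B) - x := by
        ext
        · simp only [QuadraticAlgebra.re_star, QuadraticAlgebra.re_sub,
            QuadraticAlgebra.re_intCast, Int.cast_id]
          ring
        · simp only [QuadraticAlgebra.im_star, QuadraticAlgebra.im_sub,
            QuadraticAlgebra.im_intCast]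
          ring
      rw [h3] at h2
      simp only [Polynomial.eval₂_add, Polynomial.eval₂_mul, Polynomial.eval₂_C,
        Polynomial.eval₂_X, Polynomial.eval₂_pow]
      simp only [eq_intCast]
      push_cast at h2 ⊢
      linear_combination (-1 : OO A B) * h2
  exact map_isIntegral_int j h1

end G2

theorem t_G2 : St_G2 := by
  intro A B hc H _ _ j g hg eH e1 em es ei en
  have hf : ∀ x : OO A B, eH (-x) * j (star (-x)) = eH x * j (star x) := by
    intro x
    have h1 : eH (-x) = -eH x := by
      rw [show -x = (-1) * x by ring, em, en]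
      ring
    rw [h1, star_neg, map_neg]
    ring
  have h0 : eH 0 * j (star 0) = 0 := by
    rw [star_zero, map_zero, mul_zero]
  have hh : ∀ n : ℕ, aH j eH n = ∑ x ∈ G2.TT hc (n : ℤ), eH x * j (star x) := by
    intro n
    rw [G2.aH_eq hc j eH n]
    exact G2.half hc n (fun x => eH x * j (star x)) h0 hf
  refine ⟨?_, ?_, ?_, ?_⟩
  · rw [G2.aH_eq hc j eH 0]
    rw [Finset.sum_eq_zero, mul_zero]
    intro x hx
    have h1 := G2.mem_FF.1 hx
    obtain ⟨h2, h3⟩ := G2.nm_pos hc x (by simpa using h1)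
    have h4 : x = 0 := by
      ext
      · simpa using h2
      · simpa using h3
    rw [h4, h0]
  · rw [hh 1]
    have h1 : G2.TT hc ((1 : ℕ) : ℤ) = {1} := by
      simpa using G2.TT_one hc
    rw [h1, Finset.sum_singleton, e1, star_one, map_one, one_mul]
  · intro n
    rw [hh n]
    refine IsIntegral.sum _ ?_
    intro x _
    exact (ei x).mul (G2.integral' j (star x))
  · intro n
    classical
    rw [G2.aH_eq hc j eH n, G2.aH_eq hc j eH (3 * n)]
    have h1 : ∑ x ∈ G2.FF hc ((3 * n : ℕ) : ℤ), eH x * j (star x) =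
        ∑ x ∈ (G2.FF hc (n : ℤ)).image (fun y => ppi A B * y), eH x * j (star x) := by
      symm
      refine Finset.sum_subset ?_ ?_
      · intro x hx
        obtain ⟨y, hy, rfl⟩ := Finset.mem_image.1 hx
        refine G2.mem_FF.2 ?_
        rw [G2.nm_mul, nm_ppi hc, G2.mem_FF.1 hy]
        push_cast
        ring
      · intro x hx hx'
        by_cases hex : eH x = 0
        · rw [hex, zero_mul]
        · exfalso
          obtain ⟨y, hy, hy'⟩ := G2.dvd_of hc hg (es x hex) (n := (n : ℤ))
            (by rw [G2.mem_FF.1 hx]; push_cast; ring)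
          exact hx' (Finset.mem_image.2 ⟨y, G2.mem_FF.2 hy, hy'⟩)
    rw [h1, Finset.sum_image (fun x _ y _ e => G2.ppi_inj hc e)]
    have h2 : ∀ y : OO A B, eH (ppi A B * y) * j (star (ppi A B * y)) =
        (eH (ppi A B) * j (star (ppi A B))) * (eH y * j (star y)) := by
      intro y
      rw [em, star_mul, map_mul]
      ring
    simp only [h2]
    rw [← Finset.mul_sum]
    ring

end Pool.Agent.MU3G
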