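import Pool.Agent.MU3.G_G0
import Pool.Agent.MU3.G_G2
import Pool.Agent.MU3.B_POI

/-!
# MU3, block G: the `q`-expansions of `thetaInt` and of `Z` (G7)
-/

set_option autoImplicit false

namespace Pool.Agent.MU3G

open MU3 Pool.Agent.MuSym OnePoint NumberField

noncomputable section

namespace G7

variable {A B : ℤ}

theorem dvd_of_coord {N : ℤ} {z : OO A B} (h1 : N ∣ z.re) (h2 : N ∣ z.im) :
    ((N : ℤ) : OO A B) ∣ z := by
  obtain ⟨a, ha⟩ := h1
  obtain ⟨b, hb⟩ := h2
  refine ⟨⟨a, b⟩, ?_⟩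
  ext
  · rw [ha]; simp
  · rw [hb]; simp

/-- some power of an element prime to `g` is `1` modulo `g` -/
theorem pow_one (g x : OO A B) (hn : nm g ≠ 0) (hx : IsCoprime x g) :
    ∃ r : ℕ, r ≠ 0 ∧ g ∣ x ^ r - 1 := by
  have hN : NeZero (nm g).natAbs := ⟨Int.natAbs_ne_zero.2 hn⟩
  let F : ℕ → ZMod (nm g).natAbs × ZMod (nm g).natAbs := fun k =>
    (((x ^ k).re : ZMod (nm g).natAbs), ((x ^ k).im : ZMod (nm g).natAbs))
  obtain ⟨k, l, hkl, h⟩ := Finite.exists_ne_map_eq_of_infinite F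
  have hgen : ∀ k l : ℕ, k < l → F k = F l → ∃ r : ℕ, r ≠ 0 ∧ g ∣ x ^ r - 1 := by
    intro k l hkl h
    have h1 : ((x ^ k).re : ZMod (nm g).natAbs) = ((x ^ l).re : ZMod (nm g).natAbs) :=
      congrArg Prod.fst h
    have h2 : ((x ^ k).im : ZMod (nm g).natAbs) = ((x ^ l).im : ZMod (nm g).natAbs) :=
      congrArg Prod.snd h
    rw [ZMod.intCast_eq_intCast_iff_dvd_sub, Int.natAbs_dvd] at h1 h2
    have h3 : ((nm g : ℤ) : OO A B) ∣ x ^ l - x ^ k := by
      apply dvd_of_coord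
      · rw [QuadraticAlgebra.re_sub]; exact h1
      · rw [QuadraticAlgebra.im_sub]; exact h2
    have h4 : g ∣ x ^ l - x ^ k := by
      refine dvd_trans ?_ h3
      rw [← G2.mul_star']
      exact dvd_mul_right _ _
    have h5 : x ^ l - x ^ k = x ^ k * (x ^ (l - k) - 1) := by
      rw [mul_sub, ← pow_add, mul_one, Nat.add_sub_cancel' hkl.le]
    rw [h5] at h4
    exact ⟨l - k, (Nat.sub_pos_of_lt hkl).ne', (hx.pow_left (m := k)).symm.dvd_of_dvd_mul_left h4⟩
  rcases Nat.lt_or_gt_of_ne hkl with h1 | h1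
  · exact hgen k l h1 h
  · exact hgen l k h1 h.symm

theorem nle {g : OO A B} (hg : nm g ≠ 0) {H : Type} [Field H] (io : H →+* ℂ) (eH : OO A B → H)
    (he : IsEps g (fun x => io (eH x))) (s : H ≃+* H) (x : OO A B) : ‖io (s (eH x))‖ ≤ 1 := by
  by_cases hx : IsCoprime x g
  · obtain ⟨r, hr, hd⟩ := pow_one g x hg hx
    have h1 : ∀ k : ℕ, io (eH (x ^ k)) = io (eH x) ^ k := by
      intro k
      induction k with
      | zero => simpa using he.one
      | succ k ih =>
        rw [pow_succ, pow_succ, ← ih]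
        exact he.mul _ _
    have h2 : io (eH (x ^ r)) = 1 := by
      exact (he.per (x ^ r) 1 hd).trans he.one
    have h3 : eH x ^ r = 1 := by
      apply io.injective
      rw [map_pow, ← h1, h2, map_one]
    have h4 : io (s (eH x)) ^ r = 1 := by
      rw [← map_pow, ← map_pow, h3, map_one, map_one]
    exact (Complex.norm_eq_one_of_pow_eq_one h4 hr).le
  · have h1 : io (eH x) = 0 := by
      by_contra h
      exact hx ((he.supp x).1 h)
    have h2 : eH x = 0 := by
      apply io.injective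
      rw [h1, map_zero]
    rw [h2, map_zero, map_zero, norm_zero]
    exact zero_le_one

theorem norm_sq (h : Case A B) (x : OO A B) : (nm x : ℝ) = ‖emb x‖ ^ 2 := by
  have h1 := G0.emb_norm h x
  rw [Complex.mul_conj, Complex.normSq_eq_norm_sq] at h1
  exact_mod_cast h1

theorem quot_le (h : Case A B) (x : OO A B) :
    ‖(starRingEnd ℂ) (emb x) / (nm x : ℂ)‖ ≤ 1 := by
  rw [norm_div, RCLike.norm_conj]
  have h1 := norm_sq h x
  have h2 : ‖(nm x : ℂ)‖ = ‖emb x‖ ^ 2 := by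
    have h3 : ((nm x : ℤ) : ℂ) = ((nm x : ℝ) : ℂ) := by push_cast; rfl
    rw [h3, h1, Complex.norm_real, Real.norm_eq_abs, abs_of_nonneg (by positivity)]
  rw [h2]
  by_cases hx : x = 0
  · have h4 : ‖emb x‖ ^ 2 = 0 := by
      rw [← h1, hx]
      have : nm (0 : OO A B) = 0 := by simp [nm]
      rw [this]; norm_num
    rw [h4]; simp
  · have h3 : (1 : ℝ) ≤ ‖emb x‖ ^ 2 := by
      rw [← h1]
      exact_mod_cast G0.nm_pos h hx
    rw [div_le_one (by linarith)]
    nlinarith [norm_nonneg (emb x)]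

theorem summ (h : Case A B) (e : OO A B → ℂ) (he : ∀ x, ‖e x‖ ≤ 1) {τ : ℂ} (hτ : 0 < τ.im) :
    Summable fun x : OO A B => e x * (starRingEnd ℂ) (emb x) / (nm x : ℂ) *
      Complex.exp (2 * Real.pi * Complex.I * (nm x : ℂ) * τ) := by
  have hc : 0 < Real.pi * τ.im / 2 := by positivity
  have h1 := MU3B.PoiAux.gsum2 hc hc 0 0
  have h2 : Summable fun x : OO A B => Real.exp (-(Real.pi * τ.im / 2 * (x.re : ℝ) ^ 2)) *
      Real.exp (-(Real.pi * τ.im / 2 * (x.im : ℝ) ^ 2)) := by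
    have h3 := (QuadraticAlgebra.equivProd A B).summable_iff.2 h1
    refine h3.congr fun x => ?_
    simp [QuadraticAlgebra.equivProd]
  refine Summable.of_norm_bounded h2 fun x => ?_
  rw [mul_div_assoc, norm_mul, norm_mul]
  have h4 : ‖Complex.exp (2 * Real.pi * Complex.I * (nm x : ℂ) * τ)‖ =
      Real.exp (-(2 * Real.pi * (nm x : ℝ) * τ.im)) := by
    rw [Complex.norm_exp]
    congr 1
    have h5 : (2 * Real.pi * Complex.I * (nm x : ℂ) * τ) =
        ((2 * Real.pi * (nm x : ℝ) : ℝ) : ℂ) * (Complex.I * τ) := by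
      push_cast; ring
    rw [h5, Complex.re_ofReal_mul]
    simp
  rw [h4, ← Real.exp_add]
  have h5 : Real.exp (-(2 * Real.pi * (nm x : ℝ) * τ.im)) ≤
      Real.exp (-(Real.pi * τ.im / 2 * (x.re : ℝ) ^ 2) + -(Real.pi * τ.im / 2 * (x.im : ℝ) ^ 2)) := by
    apply Real.exp_le_exp.2
    obtain ⟨b1, b2⟩ := G2.bd h x
    have b1' : (x.re : ℝ) ^ 2 ≤ 2 * (nm x : ℝ) := by exact_mod_cast b1
    have b2' : (x.im : ℝ) ^ 2 ≤ 2 * (nm x : ℝ) := by exact_mod_cast b2
    nlinarith [mul_le_mul_of_nonneg_left b1' hc.le, mul_le_mul_of_nonneg_left b2' hc.le]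
  have h6 : ‖e x‖ * ‖(starRingEnd ℂ) (emb x) / (nm x : ℂ)‖ ≤ 1 :=
    mul_le_one₀ (he x) (norm_nonneg _) (quot_le h x)
  calc ‖e x‖ * ‖(starRingEnd ℂ) (emb x) / (nm x : ℂ)‖ *
        Real.exp (-(2 * Real.pi * (nm x : ℝ) * τ.im))
      ≤ 1 * Real.exp (-(2 * Real.pi * (nm x : ℝ) * τ.im)) :=
        mul_le_mul_of_nonneg_right h6 (Real.exp_pos _).le
    _ ≤ _ := by rw [one_mul]; exact h5

/-- the expansion of `thetaInt` -/
theorem expansion (h : Case A B) (e : OO A B → ℂ) (he : ∀ x, ‖e x‖ ≤ 1) {τ : ℂ}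
    (hτ : 0 < τ.im) :
    HasSum (fun n : ℕ => (1 / 2) * (∑ x ∈ G2.FF h (n : ℤ), e x * (starRingEnd ℂ) (emb x)) / n *
      Complex.exp (2 * Real.pi * Complex.I * n * τ)) (thetaInt e τ) := by
  have hs := summ h e he hτ
  have h1 := (hs.hasSum.tsum_fiberwise (fun x : OO A B => (nm x).toNat)).mul_left (1 / 2 : ℂ)
  refine HasSum.congr_fun h1 ?_ |> fun h => h
  intro n
  have hset : (fun x : OO A B => (nm x).toNat) ⁻¹' {n} =
      ((G2.FF h (n : ℤ) : Finset (OO A B)) : Set (OO A B)) := by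
    ext x
    rw [Set.mem_preimage, Set.mem_singleton_iff, Finset.mem_coe, G2.mem_FF]
    have := G0.nm_nonneg h x
    omega
  rw [tsum_congr_set_coe (fun b : OO A B => e b * (starRingEnd ℂ) (emb b) / (nm b : ℂ) *
    Complex.exp (2 * Real.pi * Complex.I * (nm b : ℂ) * τ)) hset,
    Finset.tsum_subtype' (G2.FF h (n : ℤ)) (fun b : OO A B => e b * (starRingEnd ℂ) (emb b) /
      (nm b : ℂ) * Complex.exp (2 * Real.pi * Complex.I * (nm b : ℂ) * τ)),
    mul_div_assoc, mul_assoc, Finset.sum_div, Finset.sum_mul]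
  congr 1
  refine Finset.sum_congr rfl fun x hx => ?_
  rw [G2.mem_FF] at hx
  rw [hx]
  push_cast
  rfl

end G7

open G7 in
theorem t_G7 : St_G7 := by
  intro A B h V g hg H _ _ io j Γ _ al eH s0 kap hD c d τ hτ
  have hn : nm g ≠ 0 := fun h0 => hg (G0.nm_zero h h0)
  have key : ∀ s : Γ, HasSum (fun n : ℕ => io (s.1 (aH j eH n)) / n *
      Complex.exp (2 * Real.pi * Complex.I * n * τ))
      (thetaInt (fun x => io (s.1 (eH x))) τ) := by
    intro s
    have h1 := expansion h (fun x => io (s.1 (eH x)))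
      (nle hn io eH hD.eps s.1) hτ
    have h2 : ∀ n : ℕ, io (s.1 (aH j eH n)) =
        (1 / 2) * (∑ x ∈ G2.FF h (n : ℤ), io (s.1 (eH x)) * (starRingEnd ℂ) (emb x)) := by
      intro n
      rw [G2.aH_eq h, map_mul, map_mul, map_inv₀, map_inv₀, map_ofNat, map_ofNat, map_sum,
        map_sum, one_div]
      congr 1
      refine Finset.sum_congr rfl fun x _ => ?_
      rw [map_mul, map_mul, hD.fix s.1 s.2, hD.io_j, G0.emb_star]
    simp only [h2]
    exact h1
  refine ⟨?_, ?_⟩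
  · have h1 := expansion h (fun x => io (eH x))
      (nle hn io eH hD.eps (RingEquiv.refl H)) hτ
    have h2 : ∀ n : ℕ, io (aH j eH n) =
        (1 / 2) * (∑ x ∈ G2.FF h (n : ℤ), io (eH x) * (starRingEnd ℂ) (emb x)) := by
      intro n
      rw [G2.aH_eq h, map_mul, map_inv₀, map_ofNat, map_sum, one_div]
      congr 1
      refine Finset.sum_congr rfl fun x _ => ?_
      rw [map_mul, hD.io_j, G0.emb_star]
    simp only [h2]
    exact h1
  · have : Fintype Γ := Fintype.ofFinite Γ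
    have h1 : HasSum (fun n : ℕ => emb d / (kap * emb (ppi A B)) * ∑ s : Γ,
        io (s.1 c * (s.1 (eH (al s)))⁻¹) * (io (s.1 (aH j eH n)) / n *
          Complex.exp (2 * Real.pi * Complex.I * n * τ)))
        (ZZ io Γ al eH kap c d τ) := by
      unfold ZZ
      rw [finsum_eq_sum_of_fintype]
      exact (hasSum_sum fun s _ => (key s).mul_left _).mul_left _
    refine HasSum.congr_fun h1 ?_ |> fun h => h
    intro n
    unfold bb
    rw [finsum_eq_sum_of_fintype, map_mul, map_mul, map_div₀, map_inv₀, map_mul, map_sum,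
      hD.io_j, hD.io_j, map_intCast, map_natCast, Finset.sum_div, Finset.mul_sum, Finset.sum_mul,
      Finset.mul_sum]
    refine Finset.sum_congr rfl fun s _ => ?_
    simp only [map_mul]
    ring

end

end Pool.Agent.MU3G
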