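import Pool.Agent.MU3.StFH
import Pool.Agent.MU3.G_G7

/-!
# MU3, block FH: summability of the theta series (TSM)
-/

set_option autoImplicit false

namespace Pool.Agent.MU3F

open MU3

open scoped ComplexConjugate

noncomputable section

namespace Tsm

variable {A B : ℤ}

theorem bnd (t c : ℝ) (ht : 0 ≤ t) (hc : 0 < c) :
    Real.sqrt t * Real.exp (-(2 * c * t)) ≤ (1 + 1 / c) * Real.exp (-(c * t)) := by
  have h1 : Real.sqrt t ≤ 1 + t := by
    rw [Real.sqrt_le_left (by linarith)]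
    nlinarith
  have h2 : c * t ≤ Real.exp (c * t) := by
    have := Real.add_one_le_exp (c * t)
    linarith
  have h3 : 1 + t ≤ (1 + 1 / c) * Real.exp (c * t) := by
    have h4 : 1 ≤ Real.exp (c * t) := Real.one_le_exp (by positivity)
    have h5 : t = 1 / c * (c * t) := by field_simp
    have h6 : 1 / c * (c * t) ≤ 1 / c * Real.exp (c * t) :=
      mul_le_mul_of_nonneg_left h2 (by positivity)
    rw [add_mul, one_mul]
    linarith
  have h4 : Real.exp (-(2 * c * t)) = Real.exp (-(c * t)) * Real.exp (-(c * t)) := by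
    rw [← Real.exp_add]; congr 1; ring
  have h5 : Real.exp (c * t) * Real.exp (-(c * t)) = 1 := by
    rw [← Real.exp_add]; simp
  have h6 := Real.exp_pos (-(c * t))
  calc Real.sqrt t * Real.exp (-(2 * c * t))
      ≤ ((1 + 1 / c) * Real.exp (c * t)) * Real.exp (-(2 * c * t)) :=
        mul_le_mul_of_nonneg_right (le_trans h1 h3) (Real.exp_pos _).le
    _ = (1 + 1 / c) * (Real.exp (c * t) * Real.exp (-(c * t))) * Real.exp (-(c * t)) := by
        rw [h4]; ring
    _ = (1 + 1 / c) * Real.exp (-(c * t)) := by rw [h5, mul_one]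

end Tsm

open Tsm in
/-- (TSM) -/
theorem tf_TSM : Sf_TSM := by
  intro A B h e C he z hz
  have hpi := Real.pi_pos
  have hc : 0 < Real.pi * z.im / 4 := by positivity
  have h1 := MU3B.PoiAux.gsum2 hc hc 0 0
  have h2 : Summable fun x : OO A B => Real.exp (-(Real.pi * z.im / 4 * (x.re : ℝ) ^ 2)) *
      Real.exp (-(Real.pi * z.im / 4 * (x.im : ℝ) ^ 2)) := by
    have h3 := (QuadraticAlgebra.equivProd A B).summable_iff.2 h1
    refine h3.congr fun x => ?_
    simp [QuadraticAlgebra.equivProd]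
  have hC : 0 ≤ C := le_trans (norm_nonneg _) (he 0)
  refine Summable.of_norm_bounded (h2.mul_left (C * (1 + 1 / (Real.pi * z.im)))) fun x => ?_
  have h3 : ‖Complex.exp (2 * Real.pi * Complex.I * (nm x : ℂ) * z)‖ =
      Real.exp (-(2 * (Real.pi * z.im) * (nm x : ℝ))) := by
    rw [Complex.norm_exp]
    congr 1
    have h5 : (2 * Real.pi * Complex.I * (nm x : ℂ) * z) =
        ((2 * Real.pi * (nm x : ℝ) : ℝ) : ℂ) * (Complex.I * z) := by
      push_cast; ring
    rw [h5, Complex.re_ofReal_mul]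
    simp
    ring
  have h4 : ‖emb x‖ = Real.sqrt (nm x : ℝ) := by
    rw [MU3G.G7.norm_sq h x, Real.sqrt_sq (norm_nonneg _)]
  have h5 : (0 : ℝ) ≤ (nm x : ℝ) := by exact_mod_cast MU3G.G0.nm_nonneg h x
  rw [norm_mul, norm_mul, RCLike.norm_conj, h3, h4, mul_assoc]
  have h6 := bnd (nm x : ℝ) (Real.pi * z.im) h5 (by positivity)
  have h7 : Real.exp (-(Real.pi * z.im * (nm x : ℝ))) ≤
      Real.exp (-(Real.pi * z.im / 4 * (x.re : ℝ) ^ 2)) *
        Real.exp (-(Real.pi * z.im / 4 * (x.im : ℝ) ^ 2)) := by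
    rw [← Real.exp_add]
    apply Real.exp_le_exp.2
    obtain ⟨b1, b2⟩ := MU3G.G2.bd h x
    have b1' : (x.re : ℝ) ^ 2 ≤ 2 * (nm x : ℝ) := by exact_mod_cast b1
    have b2' : (x.im : ℝ) ^ 2 ≤ 2 * (nm x : ℝ) := by exact_mod_cast b2
    nlinarith [mul_le_mul_of_nonneg_left b1' hc.le, mul_le_mul_of_nonneg_left b2' hc.le]
  have h8 : 0 ≤ 1 + 1 / (Real.pi * z.im) := by positivity
  calc ‖e x‖ * (Real.sqrt (nm x : ℝ) * Real.exp (-(2 * (Real.pi * z.im) * (nm x : ℝ))))
      ≤ C * ((1 + 1 / (Real.pi * z.im)) * Real.exp (-(Real.pi * z.im * (nm x : ℝ)))) :=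
        mul_le_mul (he x) h6 (by positivity) hC
    _ ≤ C * ((1 + 1 / (Real.pi * z.im)) * (Real.exp (-(Real.pi * z.im / 4 * (x.re : ℝ) ^ 2)) *
        Real.exp (-(Real.pi * z.im / 4 * (x.im : ℝ) ^ 2)))) :=
        mul_le_mul_of_nonneg_left (mul_le_mul_of_nonneg_left h7 h8) hC
    _ = _ := by ring

end

end Pool.Agent.MU3F
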