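import Pool.Agent.MU3.StFH

/-!
# MU3, block FH: module TWD (helper9)
-/

set_option autoImplicit false

namespace Pool.Agent.MU3F

open MU3 Pool.Agent.MU3A Pool.Agent.MU3B Pool.Agent.MuSym OnePoint
open scoped ComplexConjugate

noncomputable section

namespace TWD

theorem exp_shift {A B : ℤ} (x : OO A B) (z : ℂ) (a : ℕ) :
    Complex.exp (2 * Real.pi * Complex.I * (nm x : ℂ) * (z + (((a : ℚ) / (absD A B : ℚ) : ℚ) : ℂ))) =
      Complex.exp (2 * Real.pi * Complex.I * (nm x : ℂ) * z) * ex (a * nm x / (absD A B : ℚ)) := by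
  unfold ex
  rw [← Complex.exp_add]
  congr 1
  push_cast
  ring

end TWD

theorem tf_TWD (_hALG : Sf_ALG) (hBDD : Sf_BDD) (hTSM : Sf_TSM) (hGSS : Sf_GSS) : Sf_TWD := by
  intro A B h g e hg he hD z hz
  obtain ⟨-, C, -, hC⟩ := hBDD A B h g e hg he
  obtain ⟨-, -, -, hG⟩ := hGSS A B h
  have hsum : ∀ a : ℕ, Summable (fun x : OO A B => (chiD A B a : ℂ) * (e x * conj (emb x) *
      Complex.exp (2 * Real.pi * Complex.I * (nm x : ℂ) *
        (z + (((a : ℚ) / (absD A B : ℚ) : ℚ) : ℂ))))) := by
    intro a
    refine Summable.mul_left _ (hTSM A B h e C hC _ ?_)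
    have : ((((a : ℚ) / (absD A B : ℚ) : ℚ) : ℂ)).im = 0 := by
      rw [← Complex.ofReal_ratCast]; exact Complex.ofReal_im _
    rw [Complex.add_im, this, add_zero]
    exact hz
  calc ∑ a ∈ Finset.range (absD A B).toNat,
        (chiD A B a : ℂ) * theta e (z + (a / (absD A B : ℚ) : ℚ))
      = ∑ a ∈ Finset.range (absD A B).toNat, (1 / 2) * ∑' x : OO A B,
          (chiD A B a : ℂ) * (e x * conj (emb x) *
            Complex.exp (2 * Real.pi * Complex.I * (nm x : ℂ) *
              (z + (((a : ℚ) / (absD A B : ℚ) : ℚ) : ℂ)))) := by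
        refine Finset.sum_congr rfl fun a _ => ?_
        rw [tsum_mul_left]
        unfold theta
        ring
    _ = (1 / 2) * ∑' x : OO A B, ∑ a ∈ Finset.range (absD A B).toNat,
          (chiD A B a : ℂ) * (e x * conj (emb x) *
            Complex.exp (2 * Real.pi * Complex.I * (nm x : ℂ) *
              (z + (((a : ℚ) / (absD A B : ℚ) : ℚ) : ℂ)))) := by
        rw [Summable.tsum_finsetSum fun a _ => hsum a, Finset.mul_sum]
    _ = (1 / 2) * ∑' x : OO A B, tauD A B * (e x * conj (emb x) *
          Complex.exp (2 * Real.pi * Complex.I * (nm x : ℂ) * z)) := by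
        congr 1
        refine tsum_congr fun x => ?_
        by_cases hx : e x = 0
        · simp [hx]
        · have hcop : IsCoprime x ((absD A B : ℤ) : OO A B) :=
            ((he.supp x).1 hx).of_isCoprime_of_dvd_right hD
          rw [← hG x hcop, Finset.sum_mul]
          refine Finset.sum_congr rfl fun a _ => ?_
          rw [TWD.exp_shift]
          ring
    _ = tauD A B * theta e z := by
        rw [tsum_mul_left]
        unfold theta
        ring

end

end Pool.Agent.MU3F
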