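import Pool.Agent.MU3.StFH

/-!
# MU3, block FH: module U3 (helper26)
-/

set_option autoImplicit false

namespace Pool.Agent.MU3F

open MU3 Pool.Agent.MU3A Pool.Agent.MU3B Pool.Agent.MuSym OnePoint
open scoped ComplexConjugate

noncomputable section

namespace FU3

/-- the sum of the three exponentials -/
theorem geom3 (n : ℤ) (z : ℂ) :
    ∑ j ∈ Finset.range 3, Complex.exp (2 * Real.pi * Complex.I * (n : ℂ) * ((z + j) / 3)) =
      if (3 : ℤ) ∣ n then 3 * Complex.exp (2 * Real.pi * Complex.I * (n : ℂ) * (z / 3)) else 0 := by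
  set ω : ℂ := Complex.exp (2 * Real.pi * Complex.I * (n : ℂ) / 3) with hω
  have h1 : ∀ j : ℕ, Complex.exp (2 * Real.pi * Complex.I * (n : ℂ) * ((z + j) / 3)) =
      Complex.exp (2 * Real.pi * Complex.I * (n : ℂ) * (z / 3)) * ω ^ j := by
    intro j
    rw [hω, ← Complex.exp_nat_mul, ← Complex.exp_add]
    congr 1
    ring
  simp only [h1, ← Finset.mul_sum]
  have h3 : ω ^ 3 = 1 := by
    rw [hω, ← Complex.exp_nat_mul, Complex.exp_eq_one_iff]
    exact ⟨n, by push_cast; ring⟩
  have hpi : (2 * Real.pi * Complex.I : ℂ) ≠ 0 := by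
    have : (Real.pi : ℂ) ≠ 0 := Complex.ofReal_ne_zero.2 Real.pi_ne_zero
    simp [this]
  by_cases h : (3 : ℤ) ∣ n
  · rw [if_pos h]
    obtain ⟨k, rfl⟩ := h
    have : ω = 1 := by
      rw [hω, Complex.exp_eq_one_iff]
      exact ⟨k, by push_cast; ring⟩
    rw [this]
    simp
    ring
  · rw [if_neg h]
    have hne : ω ≠ 1 := by
      intro h1
      rw [hω, Complex.exp_eq_one_iff] at h1
      obtain ⟨k, hk⟩ := h1
      apply h
      refine ⟨k, ?_⟩
      have h2 : (2 * Real.pi * Complex.I : ℂ) * n = (2 * Real.pi * Complex.I : ℂ) * (3 * k) := by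
        linear_combination 3 * hk
      have h3 := mul_left_cancel₀ hpi h2
      exact_mod_cast h3
    have h4 : ∑ i ∈ Finset.range 3, ω ^ i = 0 := by
      have h5 : (ω - 1) * ∑ i ∈ Finset.range 3, ω ^ i = 0 := by
        simp only [Finset.sum_range_succ, Finset.sum_range_zero]
        linear_combination h3
      rcases mul_eq_zero.1 h5 with h6 | h6
      · exact absurd (sub_eq_zero.1 h6) hne
      · exact h6
    rw [h4, mul_zero]

end FU3

open FU3 in
theorem tf_U3 (hALG : Sf_ALG) (hBDD : Sf_BDD) (hTSM : Sf_TSM) : Sf_U3 := by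
  intro A B hc g e hg he hpg z hz
  obtain ⟨hA1, hA2, hA3, -, hA5, -⟩ := hALG A B hc
  obtain ⟨-, C, -, hC⟩ := hBDD A B hc g e hg he
  have hS := hTSM A B hc e C hC
  have him : ∀ j : ℕ, 0 < ((z + j) / 3).im := by
    intro j
    have : ((z + j) / 3).im = z.im / 3 := by
      rw [show (z + j) / 3 = ((1 / 3 : ℝ) : ℂ) * (z + j) by push_cast; ring, Complex.im_ofReal_mul]
      simp
      ring
    rw [this]
    positivity
  set G : OO A B → ℂ := fun x => ∑ j ∈ Finset.range 3, e x * conj (emb x) *
    Complex.exp (2 * Real.pi * Complex.I * (nm x : ℂ) * ((z + j) / 3)) with hG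
  have hGx : ∀ x, G x = e x * conj (emb x) * (if (3 : ℤ) ∣ nm x then
      3 * Complex.exp (2 * Real.pi * Complex.I * (nm x : ℂ) * (z / 3)) else 0) := by
    intro x
    rw [hG]
    simp only
    rw [← Finset.mul_sum, geom3]
  have h1 : ∑ j ∈ Finset.range 3, theta e ((z + j) / 3) = (1 / 2) * ∑' x, G x := by
    unfold theta
    rw [← Finset.mul_sum]
    congr 1
    rw [hG, ← Summable.tsum_finsetSum]
    intro j _
    exact hS _ (him j)
  have hp0 : ppi A B ≠ 0 := by
    intro h0
    have := congrArg QuadraticAlgebra.im h0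
    simp [ppi] at this
  have hinj : Function.Injective (fun y : OO A B => ppi A B * y) := by
    intro x y hxy
    simp only at hxy
    have h2 := congrArg emb hxy
    rw [(hA1 _ _).1, (hA1 _ _).1] at h2
    refine emb_inj hc (mul_left_cancel₀ ?_ h2)
    intro h3
    exact hp0 ((hA2 _).1.1 h3)
  have hsupp : Function.support G ⊆ Set.range (fun y : OO A B => ppi A B * y) := by
    intro x hx
    rw [Function.mem_support, hGx] at hx
    have hex : e x ≠ 0 := by
      intro h0; apply hx; rw [h0]; ring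
    have h3 : (3 : ℤ) ∣ nm x := by
      by_contra h0; apply hx; rw [if_neg h0, mul_zero]
    have hcop : IsCoprime x (star (ppi A B)) := by
      obtain ⟨c, hc'⟩ := hpg
      have := (he.supp x).1 hex
      rw [hc'] at this
      exact this.of_mul_right_left
    have hcop2 : IsCoprime (ppi A B) (star x) := by
      obtain ⟨a, b, hab⟩ := hcop
      refine ⟨star b, star a, ?_⟩
      have := congrArg star hab
      rw [star_add, star_mul', star_mul', star_star, star_one] at this
      rw [← this]; ring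
    have hdvd : ppi A B ∣ x * star x := by
      rw [(hA2 x).2.2.1]
      obtain ⟨k, hk⟩ := h3
      rw [hk]
      push_cast
      rw [← hA5, mul_assoc]
      exact dvd_mul_right _ _
    obtain ⟨y, hy⟩ := hcop2.dvd_of_dvd_mul_right hdvd
    exact ⟨y, hy.symm⟩
  have h2 : ∑' x, G x = ∑' y, G (ppi A B * y) := (hinj.tsum_eq hsupp).symm
  have h3 : ∀ y, G (ppi A B * y) = 3 * (e (ppi A B) * conj (emb (ppi A B))) * (e y * conj (emb y) *
      Complex.exp (2 * Real.pi * Complex.I * (nm y : ℂ) * z)) := by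
    intro y
    have hn : nm (ppi A B * y) = 3 * nm y := by
      rw [(hA1 _ _).2.2, nm_ppi hc]
    rw [hGx, hn, if_pos (dvd_mul_right _ _), he.mul, (hA1 _ _).1, map_mul]
    have : (2 * Real.pi * Complex.I * ((3 * nm y : ℤ) : ℂ) * (z / 3)) = 2 * Real.pi * Complex.I * (nm y : ℂ) * z := by
      push_cast; ring
    rw [this]
    ring
  rw [h1, h2]
  simp only [h3]
  rw [tsum_mul_left]
  unfold theta
  ring

end

end Pool.Agent.MU3F
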