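import Pool.Agent.MU3.F_ALG
import Pool.Agent.MU3.F_SM
import Pool.Agent.MU3.F_BDD
import Pool.Agent.MU3.F_TSM
import Pool.Agent.MU3.F_DCM
import Pool.Agent.MU3.F_THD
import Pool.Agent.MU3.F_F4
import Pool.Agent.MU3.F_ITG
import Pool.Agent.MU3.F_F5
import Pool.Agent.MU3.F_F5S
import Pool.Agent.MU3.F_PRD
import Pool.Agent.MU3.F_U3
import Pool.Agent.MU3.F_F3
import Pool.Agent.MU3.F_FG
import Pool.Agent.MU3.F_F7
import Pool.Agent.MU3.F_GSS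
import Pool.Agent.MU3.F_TWD
import Pool.Agent.MU3.F_F8
import Pool.Agent.MU3.A_LAT0
import Pool.Agent.MU3.BAll

/-!
# MU3, block FH (helper27): all statements of `StFH.lean`, `StFH2.lean`, unconditionally
-/

set_option autoImplicit false

namespace Pool.Agent.MU3F

theorem f_ALG : Sf_ALG := tf_ALG
theorem f_SM : Sf_SM := tf_SM f_ALG
theorem f_BDD : Sf_BDD := tf_BDD f_ALG
theorem f_TSM : Sf_TSM := tf_TSM
theorem f_DCM : Sf_DCM := tf_DCM f_ALG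
theorem f_THD : Sf_THD := tf_THD f_ALG f_BDD f_TSM f_DCM
theorem f_F4 : Sf_F4 := tf_F4 f_ALG f_THD Pool.Agent.MU3B.b_INT
theorem f_ITG : Sf_ITG := tf_ITG f_F4 Pool.Agent.MU3A.ta_LAT0
theorem f_F5 : Sf_F5 := tf_F5 f_ALG f_SM f_F4
theorem f_F5S : Sf_F5S := tf_F5S f_ALG f_SM f_F5
theorem f_PRD : Sf_PRD := tf_PRD
theorem f_U3 : Sf_U3 := tf_U3 f_ALG f_BDD f_TSM
theorem f_F3 : Sf_F3 := tf_F3 f_ALG f_U3 f_ITG
theorem f_FG : Sf_FG := tf_FG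
theorem f_F7 : Sf_F7 := tf_F7 f_BDD f_FG
theorem f_GSS : Sf_GSS := tf_GSS
theorem f_TWD : Sf_TWD := tf_TWD f_ALG f_BDD f_TSM f_GSS
theorem f_F8 : Sf_F8 := tf_F8 f_PRD f_ITG f_GSS f_TWD

end Pool.Agent.MU3F
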