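import Pool.Agent.MU3.I3G

/-!
# MU3: the order of an automorphism of `K_m / k` with fixed field `K_n`
-/

open NumberField IsDedekindDomain Finset
open scoped nonZeroDivisors Pointwise

namespace Pool.Agent.MU3

open Pool.Agent.RI Pool.Agent.RID

/-- an automorphism of `K_m` with fixed field `K_n` has order `3 ^ (m - n)` -/
theorem ord3 (hNGAL : _root_.MU3.N_GAL) (k K : IntermediateField ℚ ℂ)
    (B : ℕ → IntermediateField ℚ ℂ)
    [FiniteDimensional ℚ K] [∀ n, FiniteDimensional ℚ ↥(K ⊔ B n)] (hB : Bas k K B) (m n : ℕ)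
    (hn : n ≤ m) (h' : k ≤ K ⊔ B n) (h : k ≤ K ⊔ B m) :
    letI := algC h
    ∀ σ : ↥(K ⊔ B m) ≃ₐ[k] ↥(K ⊔ B m),
      (∀ x : ↥(K ⊔ B m), σ x = x ↔ (x : ℂ) ∈ K ⊔ B n) → orderOf σ = 3 ^ (m - n) := by
  let akL : Algebra k ↥(K ⊔ B m) := algC h
  intro σ hσ
  have fdL : FiniteDimensional k ↥(K ⊔ B m) :=
    Module.Finite.of_restrictScalars_finite ℚ k _
  obtain ⟨g, hg1, -, hg3⟩ := hNGAL 3 k K B hB.hk hB.cop hB.lay hB.mono m h
  obtain ⟨hg4, hg5⟩ := hg3 n hn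
  have e1 := P_TWK.zp σ (GCC.sub h (K ⊔ B n) h')
    (fun x => (hσ x).trans (GCC.mem_sub h (K ⊔ B n) h' x).symm)
  have e2 := P_TWK.zp (g ^ 3 ^ n) (GCC.sub h (K ⊔ B n) h')
    (fun x => (hg5 x).trans (GCC.mem_sub h (K ⊔ B n) h' x).symm)
  have e3 : orderOf σ = orderOf (g ^ 3 ^ n) := by
    rw [← Nat.card_zpowers, ← e1, e2, Nat.card_zpowers]
  rw [e3, hg4]

end Pool.Agent.MU3
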