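import Pool.Agent.MU3.NStmts
import Pool.Agent.RI.MAINC
import Pool.Agent.RI.RAM

/-!
# MU3, section 4: module RAMP (helper18)
-/

open NumberField IsDedekindDomain

namespace MU3

open Pool.Agent.RI Pool.Agent.RID

theorem n_RAMP : N_RAMP := by
  intro p n _ K B _ _ hB w hw
  let := algC (le_sup_left : K ≤ K ⊔ B)
  by_contra h
  obtain ⟨_, _, m, hBm⟩ := hB
  refine hw (MAINC.ram_aux RAM_thm p m K B hBm w fun hp => h ?_)
  show algebraMap (𝓞 K) (𝓞 ↥(K ⊔ B)) (p : 𝓞 K) ∈ w.asIdeal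
  rw [map_natCast]
  exact hp

end MU3
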