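import Pool.Agent.MU3.StGl

/-!
# MU3, M0 (helper69): a bounded power of `γ` fixes all primes above `S`
-/

set_option autoImplicit false

open NumberField IsDedekindDomain
open scoped nonZeroDivisors Pointwise

namespace Pool.Agent.MU3

namespace P_M0

variable {k L : Type} [Field k] [Field L] [NumberField L] [Algebra k L]

omit [NumberField L] in
theorem mem_smul (g : L ≃ₐ[k] L) (I : Ideal (𝓞 L)) (x : 𝓞 L) :
    x ∈ g • I ↔ g⁻¹ • x ∈ I :=
  Ideal.mem_pointwise_smul_iff_inv_smul_mem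

theorem nat_smul (g : L ≃ₐ[k] L) (l : ℕ) : g • (l : 𝓞 L) = (l : 𝓞 L) := by
  exact map_natCast (MulSemiringAction.toRingHom (L ≃ₐ[k] L) (𝓞 L) g) l

theorem prime_smul (g : L ≃ₐ[k] L) (I : Ideal (𝓞 L)) (hI : I.IsPrime) : (g • I).IsPrime := by
  have h : g • I = I.comap (MulSemiringAction.toRingHom (L ≃ₐ[k] L) (𝓞 L) g⁻¹) := by
    ext x
    rw [mem_smul, Ideal.mem_comap]
    rfl
  rw [h]
  exact Ideal.comap_isPrime _ _

/-- the prime `g v` -/
noncomputable def act (l : ℕ) (hl : l ≠ 0) (g : L ≃ₐ[k] L)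
    (v : {v : HeightOneSpectrum (𝓞 L) // (l : 𝓞 L) ∈ v.asIdeal}) :
    {v : HeightOneSpectrum (𝓞 L) // (l : 𝓞 L) ∈ v.asIdeal} :=
  have hm : (l : 𝓞 L) ∈ g • v.1.asIdeal := by
    rw [mem_smul, nat_smul]
    exact v.2
  ⟨⟨g • v.1.asIdeal, prime_smul g _ v.1.isPrime, by
    intro h
    rw [h, Ideal.mem_bot] at hm
    exact hl (by exact_mod_cast hm)⟩, hm⟩

theorem fin (l : ℕ) (hl : l ≠ 0) :
    Finite {v : HeightOneSpectrum (𝓞 L) // (l : 𝓞 L) ∈ v.asIdeal} := by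
  have h1 : (Ideal.span {(l : 𝓞 L)}) ≠ 0 := by
    intro h
    rw [Ideal.zero_eq_bot, Ideal.span_singleton_eq_bot] at h
    exact hl (by exact_mod_cast h)
  have h2 := Ideal.finite_factors h1
  have h3 : {v : HeightOneSpectrum (𝓞 L) | (l : 𝓞 L) ∈ v.asIdeal}.Finite := by
    refine Set.Finite.subset h2 ?_
    intro v hv
    exact Ideal.dvd_span_singleton.2 hv
  exact h3.to_subtype

theorem aux (γ : L ≃ₐ[k] L) (n C l : ℕ) (hl : l ≠ 0) (hγ : orderOf γ = 3 ^ n)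
    (hC : Nat.card {v : HeightOneSpectrum (𝓞 L) // (l : 𝓞 L) ∈ v.asIdeal} ≤ C)
    (v : HeightOneSpectrum (𝓞 L)) (hv : (l : 𝓞 L) ∈ v.asIdeal) :
    γ ^ (3 ^ C) • v.asIdeal = v.asIdeal := by
  haveI := fin (L := L) l hl
  rw [MulAction.pow_smul_eq_iff_minimalPeriod_dvd]
  set d := Function.minimalPeriod (fun I : Ideal (𝓞 L) => γ • I) v.asIdeal with hd
  have h1 : d ∣ 3 ^ n := by
    rw [hd, ← MulAction.pow_smul_eq_iff_minimalPeriod_dvd, ← hγ, pow_orderOf_eq_one, one_smul]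
  obtain ⟨i, _, hi⟩ := (Nat.dvd_prime_pow Nat.prime_three).1 h1
  have h2 : d ≤ C := by
    refine le_trans ?_ hC
    have h3 : Function.Injective (fun a : Fin d => act l hl (γ ^ (a : ℕ)) ⟨v, hv⟩) := by
      intro a b hab
      have h4 : γ ^ (a : ℕ) • v.asIdeal = γ ^ (b : ℕ) • v.asIdeal := by
        have h5 := congrArg (fun w => w.1.asIdeal) hab
        exact h5
      have h6 := Function.iterate_injOn_Iio_minimalPeriod
        (f := fun I : Ideal (𝓞 L) => γ • I) (x := v.asIdeal)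
      refine Fin.ext (h6 (Set.mem_Iio.2 a.2) (Set.mem_Iio.2 b.2) ?_)
      simp only [smul_iterate]
      exact h4
    have h7 := Nat.card_le_card_of_injective _ h3
    rwa [Nat.card_fin] at h7
  rw [hi]
  refine pow_dvd_pow 3 ?_
  have h8 : i < 3 ^ i := Nat.lt_pow_self (by norm_num)
  omega

end P_M0

theorem t_M0 (h1 : S_PRB) (h2 : S_TWK) : S_M0 := by
  intro k K B _ _ hB S hS
  classical
  have h3 : ∀ l : ℕ, ∃ C : ℕ, l ∈ S → ∀ n,
      Nat.card {v : HeightOneSpectrum (𝓞 ↥(K ⊔ B n)) // (l : 𝓞 ↥(K ⊔ B n)) ∈ v.asIdeal} ≤ C := by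
    intro l
    by_cases hl : l ∈ S
    · obtain ⟨C, hC⟩ := h1 3 K B hB.lay l (hS l hl)
      exact ⟨C, fun _ => hC⟩
    · exact ⟨0, fun h => absurd h hl⟩
  choose C hC using h3
  refine ⟨S.sup C, ?_⟩
  intro n h
  letI := Pool.Agent.RI.algC h
  intro γ hγ v hv
  obtain ⟨l, hl, hlv⟩ := hv
  have h4 := (h2 k K B hB n h γ hγ).ord
  exact P_M0.aux γ n (S.sup C) l (hS l hl).ne_zero h4
    (le_trans (hC l hl n) (Finset.le_sup hl)) v hlv

end Pool.Agent.MU3
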