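import Pool.Agent.MU3.StGl
import Pool.Agent.RI.Basic

/-!
# MU3, module RAMK: `K_n / k` is unramified outside a finite set independent of `n`
-/

open NumberField IsDedekindDomain
open scoped nonZeroDivisors Pointwise

namespace Pool.Agent.MU3

open Pool.Agent.RI Pool.Agent.RID

namespace P_RAMK

/-- Only finitely many primes ramify. -/
lemma fin_ram (k K : Type) [Field k] [NumberField k] [Field K] [NumberField K] [Algebra k K] :
    {v : HeightOneSpectrum (𝓞 K) | v.asIdeal.ramificationIdx (𝓞 k) ≠ 1}.Finite := by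
  have hne : differentIdeal (𝓞 k) (𝓞 K) ≠ 0 := differentIdeal_ne_bot
  refine (Ideal.finite_factors hne).subset ?_
  intro v hv
  by_contra hnd
  apply hv
  have h1 : Algebra.IsUnramifiedAt (𝓞 k) v.asIdeal := not_dvd_differentIdeal_iff.1 hnd
  exact Ideal.ramificationIdx_eq_one_of_isUnramifiedAt

/-- Every prime contains a prime number. -/
lemma exists_prime (K : Type) [Field K] [NumberField K] (v : HeightOneSpectrum (𝓞 K)) :
    ∃ q : ℕ, q.Prime ∧ (q : 𝓞 K) ∈ v.asIdeal := by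
  obtain ⟨q, hq⟩ := CharP.exists (𝓞 K ⧸ v.asIdeal)
  have hfin : Finite (𝓞 K ⧸ v.asIdeal) := Ideal.finiteQuotientOfFreeOfNeBot _ v.ne_bot
  have hprime : v.asIdeal.IsPrime := v.isPrime
  refine ⟨q, CharP.char_is_prime (𝓞 K ⧸ v.asIdeal) q, ?_⟩
  rw [← Ideal.Quotient.eq_zero_iff_mem, map_natCast]
  exact CharP.cast_eq_zero _ _

/-- The tower. -/
lemma tower (k K L : Type) [Field k] [NumberField k] [Field K] [NumberField K] [Field L]
    [NumberField L] [Algebra k K] [Algebra k L] [Algebra K L] [IsScalarTower k K L]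
    (v : HeightOneSpectrum (𝓞 L)) (w : HeightOneSpectrum (𝓞 K))
    (hw : v.asIdeal.under (𝓞 K) = w.asIdeal) :
    v.asIdeal.ramificationIdx (𝓞 k) =
      w.asIdeal.ramificationIdx (𝓞 k) * v.asIdeal.ramificationIdx (𝓞 K) := by
  have h1 : v.asIdeal.LiesOver w.asIdeal := ⟨hw.symm⟩
  exact Ideal.ramificationIdx_tower w.asIdeal v.asIdeal

end P_RAMK

open P_RAMK in
/-- RAMK. -/
theorem t_RAMK (h1 : _root_.MU3.N_RAMP) : S_RAMK := by
  classical
  intro k K B _ _ _ hB
  let a1 : Algebra k K := algC hB.hk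
  have hfin := fin_ram k K
  choose f hf using exists_prime K
  refine ⟨insert 3 (hfin.toFinset.image f), by simp, ?_, ?_⟩
  · intro p hp
    rcases Finset.mem_insert.1 hp with rfl | hp
    · norm_num
    · obtain ⟨v, -, rfl⟩ := Finset.mem_image.1 hp
      exact (hf v).1
  · intro S hS n h v hv
    let a2 : Algebra K ↥(K ⊔ B n) := algC (le_sup_left : K ≤ K ⊔ B n)
    let a3 : Algebra k ↥(K ⊔ B n) := algC h
    have tow : IsScalarTower k K ↥(K ⊔ B n) := towerC hB.hk le_sup_left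
    have : Fact (Nat.Prime 3) := ⟨Nat.prime_three⟩
    have hprime : v.asIdeal.IsPrime := v.isPrime
    have hvne : v.asIdeal.under (𝓞 K) ≠ ⊥ := by
      intro h0
      exact v.ne_bot (Ideal.eq_bot_of_comap_eq_bot h0)
    let w : HeightOneSpectrum (𝓞 K) := ⟨v.asIdeal.under (𝓞 K), inferInstance, hvne⟩
    have hdown : ∀ q : ℕ, (q : 𝓞 K) ∈ w.asIdeal → (q : 𝓞 ↥(K ⊔ B n)) ∈ v.asIdeal := by
      intro q hq
      have h2 : algebraMap (𝓞 K) (𝓞 ↥(K ⊔ B n)) (q : 𝓞 K) ∈ v.asIdeal := hq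
      rwa [map_natCast] at h2
    have e1 : v.asIdeal.ramificationIdx (𝓞 K) = 1 := by
      by_contra hne
      have h3 := h1 3 n K (B n) (hB.lay n) v hne
      exact hv ⟨3, hS (by simp), hdown 3 h3⟩
    have e2 : w.asIdeal.ramificationIdx (𝓞 k) = 1 := by
      by_contra hne
      refine hv ⟨f w, hS ?_, hdown _ (hf w).2⟩
      exact Finset.mem_insert_of_mem (Finset.mem_image_of_mem f (hfin.mem_toFinset.2 hne))
    have e3 := tower k K ↥(K ⊔ B n) v w rfl
    rw [e1, e2] at e3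
    exact e3

end Pool.Agent.MU3
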