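import Pool.Agent.MU3.StD

/-!
# MU3, block D, module CLS
-/

open NumberField IsDedekindDomain Ideal Filter Topology
open NumberField.Units NumberField.mixedEmbedding NumberField.Units.dirichletUnitTheorem
open scoped nonZeroDivisors

namespace Pool.Agent.MU3

namespace CLS

section ring

variable {R : Type} [CommRing R] [IsDedekindDomain R]

theorem gen {c : ClassGroup R} {b : (Ideal R)⁰} (hb : ClassGroup.mk0 b = c⁻¹)
    (I : {I : (Ideal R)⁰ // ClassGroup.mk0 I = c}) :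
    ∃ g : R, g ≠ 0 ∧ (b : Ideal R) * (I.1 : Ideal R) = span {g} := by
  have h1 : ClassGroup.mk0 b = (ClassGroup.mk0 I.1)⁻¹ := by rw [hb, I.2]
  exact ClassGroup.mk0_eq_mk0_inv_iff.1 h1

theorem span_unit_mul (u : Rˣ) (g : R) : span {(u : R) * g} = span {g} := by
  rw [Ideal.span_singleton_eq_span_singleton]
  exact ⟨u⁻¹, by rw [mul_comm (u : R), mul_assoc, Units.mul_inv, mul_one]⟩

theorem mem_of_gen {b I : Ideal R} {g : R} (h : b * I = span {g}) (u : R) : u * g ∈ b := by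
  have h1 : g ∈ span {g} := Ideal.mem_span_singleton_self g
  rw [← h] at h1
  have h2 : b * I ≤ b := Ideal.mul_le_left
  exact Ideal.mul_mem_left b u (h2 h1)

/-- the map of the proof -/
noncomputable def phi (c : ClassGroup R) (b : (Ideal R)⁰)
    (g : {I : (Ideal R)⁰ // ClassGroup.mk0 I = c} → R)
    (hg : ∀ I, (b : Ideal R) * (I.1 : Ideal R) = span {g I})
    (p : {I : (Ideal R)⁰ // ClassGroup.mk0 I = c} × Rˣ) : (b : Ideal R) :=
  ⟨(p.2 : R) * g p.1, mem_of_gen (hg p.1) _⟩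

theorem phi_inj (c : ClassGroup R) (b : (Ideal R)⁰)
    (g : {I : (Ideal R)⁰ // ClassGroup.mk0 I = c} → R)
    (hg : ∀ I, (b : Ideal R) * (I.1 : Ideal R) = span {g I}) (hg0 : ∀ I, g I ≠ 0) :
    Function.Injective (phi c b g hg) := by
  rintro ⟨I, u⟩ ⟨I', u'⟩ h
  have hb0 : (b : Ideal R) ≠ 0 := nonZeroDivisors.ne_zero b.2
  have h1 : (u : R) * g I = (u' : R) * g I' := congrArg Subtype.val h
  have h2 : span {g I} = span {g I'} := by
    rw [← span_unit_mul u (g I), h1, span_unit_mul]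
  rw [← hg I, ← hg I'] at h2
  have h3 : (I.1 : Ideal R) = (I'.1 : Ideal R) := mul_left_cancel₀ hb0 h2
  have h4 : I = I' := Subtype.ext (Subtype.ext h3)
  subst h4
  have h5 : (u : R) = (u' : R) := mul_right_cancel₀ (hg0 I) h1
  rw [Units.ext h5]

theorem phi_surj (c : ClassGroup R) (b : (Ideal R)⁰) (hb : ClassGroup.mk0 b = c⁻¹)
    (g : {I : (Ideal R)⁰ // ClassGroup.mk0 I = c} → R)
    (hg : ∀ I, (b : Ideal R) * (I.1 : Ideal R) = span {g I})
    (a : (b : Ideal R)) (ha : (a : R) ≠ 0) : a ∈ Set.range (phi c b g hg) := by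
  have h1 : (b : Ideal R) ∣ span {(a : R)} := by
    rw [Ideal.dvd_iff_le, Ideal.span_singleton_le_iff_mem]
    exact a.2
  obtain ⟨J, hJ⟩ := h1
  have hJ0 : J ≠ 0 := by
    rintro rfl
    rw [mul_zero] at hJ
    exact ha (Ideal.span_singleton_eq_bot.1 hJ)
  have hJm : J ∈ (Ideal R)⁰ := mem_nonZeroDivisors_of_ne_zero hJ0
  have h3 : ClassGroup.mk0 (⟨J, hJm⟩ : (Ideal R)⁰) = c := by
    have h4 : ClassGroup.mk0 b = (ClassGroup.mk0 (⟨J, hJm⟩ : (Ideal R)⁰))⁻¹ :=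
      ClassGroup.mk0_eq_mk0_inv_iff.2 ⟨(a : R), ha, hJ.symm⟩
    rw [hb] at h4
    exact (inv_injective h4).symm
  have h5 : span {g ⟨⟨J, hJm⟩, h3⟩} = span {(a : R)} := by
    rw [← hg, hJ]
  obtain ⟨u, hu⟩ := Ideal.span_singleton_eq_span_singleton.1 h5
  refine ⟨(⟨⟨J, hJm⟩, h3⟩, u), Subtype.ext ?_⟩
  change (u : R) * g _ = a
  rw [mul_comm]
  exact hu

end ring

variable {K : Type} [Field K] [NumberField K]

theorem fs_zero {s : ℝ} (hs : 1 < s) : fs K s 0 = 0 := by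
  have h1 : an K (0 : 𝓞 K) = 0 := by
    unfold an
    rw [Ideal.span_singleton_eq_bot.2 rfl, Ideal.absNorm_bot, Nat.cast_zero]
  unfold fs
  rw [h1, Real.zero_rpow (by linarith), mul_zero]

theorem an_mul {b I : Ideal (𝓞 K)} {g : 𝓞 K} (h : b * I = span {g}) (u : (𝓞 K)ˣ) :
    an K ((u : 𝓞 K) * g) = (absNorm b : ℝ) * (absNorm I : ℝ) := by
  unfold an
  rw [span_unit_mul, ← h, map_mul, Nat.cast_mul]

theorem inner (hPU : Stmt_PU) {b I : Ideal (𝓞 K)} {g : 𝓞 K} (h : b * I = span {g})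
    (hg : g ≠ 0) (s : ℝ) :
    ∑' u : (𝓞 K)ˣ, fs K s ((u : 𝓞 K) * g) =
      (torsionOrder K : ℝ) * (absNorm b : ℝ) ^ (-s) * (absNorm I : ℝ) ^ (-s) := by
  have h6 : ∀ u : (𝓞 K)ˣ, fs K s ((u : 𝓞 K) * g) = rho K ((u : 𝓞 K) * g) *
      ((absNorm b : ℝ) * (absNorm I : ℝ)) ^ (-s) := by
    intro u
    unfold fs
    rw [an_mul h u]
  rw [tsum_congr h6, tsum_mul_right, (hPU K g hg).2,
    Real.mul_rpow (Nat.cast_nonneg _) (Nat.cast_nonneg _), mul_assoc]

end CLS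

open CLS in
theorem m_CLS : Stmt_PU → Stmt_FSUM → Stmt_CLS := by
  intro hPU hFS K _ _ c b hb s hs
  have hex := fun I => CLS.gen hb I
  choose g hg0 hg using hex
  have hinj := phi_inj c b g hg hg0
  have hsupp : Function.support (fun a : (b : Ideal (𝓞 K)) => fs K s (a : 𝓞 K)) ⊆
      Set.range (phi c b g hg) := by
    intro a ha
    apply phi_surj c b hb g hg a
    intro h0
    apply ha
    change fs K s (a : 𝓞 K) = 0
    rw [h0, fs_zero hs]
  have hsum : Summable (fun p : {I : (Ideal (𝓞 K))⁰ // ClassGroup.mk0 I = c} × (𝓞 K)ˣ =>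
      fs K s ((p.2 : 𝓞 K) * g p.1)) := by
    have h1 : Function.Injective (fun p => ((phi c b g hg p : (b : Ideal (𝓞 K))) : 𝓞 K)) :=
      Subtype.val_injective.comp hinj
    exact (hFS K s hs).comp_injective h1
  rw [← hinj.tsum_eq hsupp]
  have h2 : (∑' p, fs K s ((phi c b g hg p : (b : Ideal (𝓞 K))) : 𝓞 K)) =
    ∑' I, ∑' u : (𝓞 K)ˣ, fs K s ((u : 𝓞 K) * g I) := hsum.tsum_prod
  rw [h2, ← tsum_mul_left]
  exact tsum_congr fun I => (inner hPU (hg I) (hg0 I) s).symm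

end Pool.Agent.MU3
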