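import Pool.Agent.MU3.StD

/-!
# MU3, block D: comparison of the sum over an ideal with the sum over all integers
-/

open NumberField IsDedekindDomain Ideal Filter Topology
open NumberField.Units NumberField.mixedEmbedding NumberField.Units.dirichletUnitTheorem
open scoped nonZeroDivisors

namespace Pool.Agent.MU3

open Pool.Agent.Lib_helper28.FROB

theorem m_CMP : Stmt_LIP → Stmt_SZS → Stmt_FSUM → Stmt_CMP := by
  intro hL hS hF K _ _ b hb
  classical
  have hfin : Finite (𝓞 K ⧸ b) := Ideal.finiteQuotientOfFreeOfNeBot b hb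
  have := Fintype.ofFinite (𝓞 K ⧸ b)
  have hcard : (Fintype.card (𝓞 K ⧸ b) : ℝ) = (absNorm b : ℝ) := by
    rw [absNorm_apply, Submodule.cardQuot_apply, Nat.card_eq_fintype_card]
  let r : 𝓞 K ⧸ b → 𝓞 K := fun q => Quotient.out q
  have hr : ∀ q, Ideal.Quotient.mk b (r q) = q := fun q => Quotient.out_eq q
  choose c hc0 hc using fun q : 𝓞 K ⧸ b => hL K (r q)
  set M : ℝ := ∑' a : b, sz K (a : 𝓞 K) ^ (-((Module.finrank ℚ K : ℝ) + 1)) with hM
  have hsz : Summable (fun a : b => sz K (a : 𝓞 K) ^ (-((Module.finrank ℚ K : ℝ) + 1))) :=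
    (hS K ((Module.finrank ℚ K : ℝ) + 1) (by linarith)).comp_injective Subtype.val_injective
  refine ⟨∑ q, c q * M, fun s hs hs2 => ?_⟩
  have hsum := hF K s hs
  -- the bijection
  let g : (𝓞 K ⧸ b) × b → 𝓞 K := fun p => (p.2 : 𝓞 K) + r p.1
  have hmk : ∀ p : (𝓞 K ⧸ b) × b, Ideal.Quotient.mk b (g p) = p.1 := by
    intro p
    show Ideal.Quotient.mk b ((p.2 : 𝓞 K) + r p.1) = p.1
    rw [map_add, hr, Ideal.Quotient.eq_zero_iff_mem.2 p.2.2, zero_add]
  have hg : Function.Bijective g := by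
    constructor
    · rintro ⟨q, a⟩ ⟨q', a'⟩ h
      have h1 : q = q' := by
        have h2 := hmk (q, a)
        rw [h, hmk (q', a')] at h2
        exact h2.symm
      subst h1
      have h3 : (a : 𝓞 K) + r q = (a' : 𝓞 K) + r q := h
      have h4 : a = a' := Subtype.ext (add_right_cancel h3)
      rw [h4]
    · intro x
      have h1 : x - r (Ideal.Quotient.mk b x) ∈ b := by
        rw [← Ideal.Quotient.eq_zero_iff_mem, map_sub, hr, sub_self]
      exact ⟨(Ideal.Quotient.mk b x, ⟨_, h1⟩), by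
        show x - r (Ideal.Quotient.mk b x) + r (Ideal.Quotient.mk b x) = x
        ring⟩
  let e : (𝓞 K ⧸ b) × b ≃ 𝓞 K := Equiv.ofBijective g hg
  have hs1 : Summable (fun a : b => fs K s (a : 𝓞 K)) :=
    hsum.comp_injective Subtype.val_injective
  have hs3 : ∀ q, Summable (fun a : b => fs K s ((a : 𝓞 K) + r q)) := by
    intro q
    have hi : Function.Injective (fun a : b => (a : 𝓞 K) + r q) := by
      intro a a' h
      exact Subtype.ext (add_right_cancel h)
    exact hsum.comp_injective hi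
  have hs4 : Summable (fun p : (𝓞 K ⧸ b) × b => fs K s (g p)) := e.summable_iff.2 hsum
  have h1 : ∑' a : 𝓞 K, fs K s a = ∑ q, ∑' a : b, fs K s ((a : 𝓞 K) + r q) := by
    rw [← e.tsum_eq (fs K s)]
    have h2 := hs4.tsum_prod' (fun q => hs3 q)
    have h3 := tsum_fintype (L := SummationFilter.unconditional _)
      (fun q : 𝓞 K ⧸ b => ∑' a : b, fs K s ((a : 𝓞 K) + r q))
    exact h2.trans h3
  have h2 : (absNorm b : ℝ) * ∑' a : b, fs K s (a : 𝓞 K) =
      ∑ _q : 𝓞 K ⧸ b, ∑' a : b, fs K s (a : 𝓞 K) := by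
    rw [Finset.sum_const, Finset.card_univ, nsmul_eq_mul, hcard]
  rw [h1, h2, ← Finset.sum_sub_distrib]
  refine (Finset.abs_sum_le_sum_abs _ _).trans (Finset.sum_le_sum fun q _ => ?_)
  rw [← hs1.tsum_sub (hs3 q)]
  have h3 : ∀ a : b, ‖fs K s (a : 𝓞 K) - fs K s ((a : 𝓞 K) + r q)‖ ≤
      c q * sz K (a : 𝓞 K) ^ (-((Module.finrank ℚ K : ℝ) + 1)) := by
    intro a
    rw [Real.norm_eq_abs, abs_sub_comm]
    exact hc q s a hs.le hs2
  have h4 := tsum_of_norm_bounded (hsz.mul_left (c q)).hasSum h3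
  rw [tsum_mul_left] at h4
  exact h4

end Pool.Agent.MU3
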