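import Pool.Agent.MU3.StD

/-!
# MU3, block D, module CONE: on the support of `rho` all absolute values are comparable
-/

set_option autoImplicit false

open NumberField IsDedekindDomain Ideal Filter Topology
open NumberField.Units NumberField.mixedEmbedding NumberField.Units.dirichletUnitTheorem
open scoped nonZeroDivisors

namespace Pool.Agent.MU3

namespace CONE

lemma tent_ne {y : ℝ} (h : tent y ≠ 0) : |y| ≤ 1 := by
  by_contra hc
  push Not at hc
  apply h
  unfold tent
  exact max_eq_left (by linarith)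

end CONE

theorem m_CONE : Stmt_CONE := by
  classical
  intro K _ _
  set b := (basisUnitLattice K).ofZLatticeBasis ℝ (unitLattice K) with hb
  set C : ℝ := ∑ w : {w : InfinitePlace K // w ≠ w₀}, ∑ i, |b i w| with hC
  refine ⟨Real.exp (-(2 * C)), Real.exp_pos _, ?_⟩
  intro a ha hrho w
  set x := mixedEmbedding K (a : K) with hx
  have haK : (a : K) ≠ 0 := fun h => ha (by exact_mod_cast h)
  have hwpos : ∀ w : InfinitePlace K, 0 < normAtPlace w x := by
    intro w
    rw [hx, normAtPlace_apply]
    exact (InfinitePlace.pos_iff).2 haK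
  -- coordinates
  have hlc : ∀ i, |b.repr (logMap x) i| ≤ 1 := by
    intro i
    have h1 : tent (lc K a i) ≠ 0 := by
      unfold rho at hrho
      exact (Finset.prod_ne_zero_iff.1 hrho) i (Finset.mem_univ i)
    exact CONE.tent_ne h1
  have hlm : ∀ v : {w : InfinitePlace K // w ≠ w₀}, |logMap x v| ≤ ∑ i, |b i v| := by
    intro v
    have h1 : logMap x = ∑ i, b.repr (logMap x) i • b i := (b.sum_repr (logMap x)).symm
    have h2 : logMap x v = ∑ i, b.repr (logMap x) i * b i v := by
      conv_lhs => rw [h1]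
      rw [Finset.sum_apply]
      rfl
    rw [h2]
    refine (Finset.abs_sum_le_sum_abs _ _).trans (Finset.sum_le_sum fun i _ => ?_)
    rw [abs_mul]
    calc |b.repr (logMap x) i| * |b i v| ≤ 1 * |b i v| :=
          mul_le_mul_of_nonneg_right (hlc i) (abs_nonneg _)
      _ = _ := one_mul _
  set ℓ : ℝ := Real.log (mixedEmbedding.norm x) * (Module.finrank ℚ K : ℝ)⁻¹ with hℓ
  have hd : (0 : ℝ) < (Module.finrank ℚ K : ℝ) := by exact_mod_cast Module.finrank_pos
  have hsum : ∑ w : InfinitePlace K, (InfinitePlace.mult w : ℝ) * (Real.log (normAtPlace w x) - ℓ) = 0 := by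
    have h1 : Real.log (mixedEmbedding.norm x) =
        ∑ w : InfinitePlace K, (InfinitePlace.mult w : ℝ) * Real.log (normAtPlace w x) := by
      rw [mixedEmbedding.norm_apply, Real.log_prod (fun w _ => (pow_pos (hwpos w) _).ne')]
      exact Finset.sum_congr rfl fun w _ => Real.log_pow _ _
    have h2 : ∑ w : InfinitePlace K, (InfinitePlace.mult w : ℝ) = (Module.finrank ℚ K : ℝ) := by
      exact_mod_cast InfinitePlace.sum_mult_eq (K := K)
    simp only [mul_sub]
    rw [Finset.sum_sub_distrib, ← h1, ← Finset.sum_mul, h2, hℓ]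
    field_simp
    ring
  have hmult : ∀ w : InfinitePlace K, (1 : ℝ) ≤ (InfinitePlace.mult w : ℝ) := by
    intro w
    exact_mod_cast InfinitePlace.mult_pos (w := w)
  have hterm : ∀ v : {w : InfinitePlace K // w ≠ w₀},
      logMap x v = (InfinitePlace.mult v.1 : ℝ) * (Real.log (normAtPlace v.1 x) - ℓ) := fun v => rfl
  have hCle : ∀ v : {w : InfinitePlace K // w ≠ w₀}, ∑ i, |b i v| ≤ C := fun v =>
    Finset.single_le_sum (f := fun v : {w : InfinitePlace K // w ≠ w₀} => ∑ i, |b i v|)
      (fun v _ => Finset.sum_nonneg fun i _ => abs_nonneg _) (Finset.mem_univ v)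
  have hcmp : ∀ (w : InfinitePlace K) (y : ℝ), |(InfinitePlace.mult w : ℝ) * y| ≤ C → |y| ≤ C := by
    intro w y hy
    rw [abs_mul, abs_of_pos (lt_of_lt_of_le one_pos (hmult w))] at hy
    have := mul_le_mul_of_nonneg_right (hmult w) (abs_nonneg y)
    linarith
  have hall : ∀ w : InfinitePlace K, |Real.log (normAtPlace w x) - ℓ| ≤ C := by
    intro w
    refine hcmp w _ ?_
    by_cases hw : w = w₀
    · subst hw
      have h1 := hsum
      rw [← Finset.add_sum_erase _ _ (Finset.mem_univ (w₀ : InfinitePlace K))] at h1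
      have h2 : ∑ w ∈ Finset.univ.erase (w₀ : InfinitePlace K),
          (InfinitePlace.mult w : ℝ) * (Real.log (normAtPlace w x) - ℓ) =
          ∑ v : {w : InfinitePlace K // w ≠ w₀}, logMap x v := by
        have h5 := Finset.sum_subtype (p := fun w : InfinitePlace K => w ≠ w₀) (F := inferInstance)
          (Finset.univ.erase (w₀ : InfinitePlace K)) (fun w => by simp)
          (fun w => (InfinitePlace.mult w : ℝ) * (Real.log (normAtPlace w x) - ℓ))
        rw [h5]
        exact Finset.sum_congr rfl fun v _ => (hterm v).symm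
      rw [h2] at h1
      have h3 : (InfinitePlace.mult (w₀ : InfinitePlace K) : ℝ) *
          (Real.log (normAtPlace (w₀ : InfinitePlace K) x) - ℓ) =
          -∑ v : {w : InfinitePlace K // w ≠ w₀}, logMap x v := by linarith
      rw [h3, abs_neg]
      refine (Finset.abs_sum_le_sum_abs _ _).trans ?_
      exact Finset.sum_le_sum fun v _ => hlm v
    · have h1 := hlm ⟨w, hw⟩
      rw [hterm] at h1
      exact h1.trans (hCle ⟨w, hw⟩)
  -- the norm
  obtain ⟨v, hv⟩ : ∃ v : InfinitePlace K, nr K a = normAtPlace v x := by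
    unfold nr
    rw [mixedEmbedding.norm_eq_sup'_normAtPlace]
    obtain ⟨v, -, hv⟩ := Finset.exists_mem_eq_sup' (Finset.univ_nonempty (α := InfinitePlace K))
      (fun w => normAtPlace w (mixedEmbedding K (a : K)))
    exact ⟨v, hv⟩
  have hw1 : w (a : K) = normAtPlace w x := by rw [hx, normAtPlace_apply]
  rw [hv, hw1]
  have h1 := abs_le.1 (hall w)
  have h2 := abs_le.1 (hall v)
  have h3 : Real.log (normAtPlace v x) - 2 * C ≤ Real.log (normAtPlace w x) := by linarith [h1.1, h2.2]
  have h4 := Real.exp_le_exp.2 h3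
  rw [Real.exp_log (hwpos w), sub_eq_neg_add, Real.exp_add, Real.exp_log (hwpos v)] at h4
  exact h4

end Pool.Agent.MU3
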