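import Pool.Agent.MU3.StD

/-!
# MU3, block D, module DEG2
-/

open NumberField IsDedekindDomain Ideal Filter Topology Asymptotics
open scoped nonZeroDivisors

namespace Pool.Agent.MU3

open Pool.Agent.Lib_helper28.FROB

theorem m_DEG2 : Stmt_DEG2 := by
  intro L _ _ B hB
  have h2 : Summable fun v : HeightOneSpectrum (𝓞 L) => ((pr v : ℝ)) ^ (-2 : ℝ) :=
    summable_pr (by norm_num)
  refine ⟨∑' v : HeightOneSpectrum (𝓞 L), ((pr v : ℝ)) ^ (-2 : ℝ), fun s hs => ?_⟩
  refine Summable.tsum_le_tsum (fun v => ?_) ((summable_x hs).indicator B) h2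
  by_cases hv : v ∈ B
  · rw [Set.indicator_of_mem hv]
    have hp1 : (1 : ℝ) ≤ pr v := by exact_mod_cast (pr_prime v).one_le
    have hd : dg v ≠ 1 := by
      intro h
      apply hB v hv
      rw [norm_eq, h, pow_one]
      exact pr_prime v
    have hd2 : 2 ≤ dg v := by have := dg_pos v; omega
    unfold x
    rw [norm_eq, Nat.cast_pow, ← Real.rpow_natCast, ← Real.rpow_mul (by positivity)]
    refine Real.rpow_le_rpow_of_exponent_le hp1 ?_
    have : (2 : ℝ) ≤ dg v := by exact_mod_cast hd2
    nlinarith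
  · rw [Set.indicator_of_notMem hv]
    positivity

end Pool.Agent.MU3
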