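import Pool.Agent.MU3.StD

/-!
# MU3, block D, module DENS
-/

open NumberField IsDedekindDomain Ideal Filter Topology Asymptotics
open scoped nonZeroDivisors

namespace Pool.Agent.MU3

open Pool.Agent.Lib_helper28.FROB

namespace DENS

/-- A proper subgroup is contained in the kernel of a nontrivial character. -/
lemma exists_char {G : Type} [CommGroup G] [Finite G] (H : Subgroup G) (hH : H ≠ ⊤) :
    ∃ η : G →* ℂˣ, η ≠ 1 ∧ ∀ a ∈ H, η a = 1 := by
  obtain ⟨a, ha⟩ : ∃ a : G, a ∉ H := by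
    by_contra h
    push Not at h
    exact hH ((Subgroup.eq_top_iff' H).mpr h)
  have ha' : (a : G ⧸ H) ≠ 1 := by
    rwa [Ne, QuotientGroup.eq_one_iff]
  have : NeZero (Monoid.exponent (G ⧸ H) : ℂ) :=
    ⟨by exact_mod_cast Monoid.exponent_ne_zero_of_finite⟩
  obtain ⟨φ, hφ⟩ := CommGroup.exists_apply_ne_one_of_hasEnoughRootsOfUnity (G ⧸ H) ℂ ha'
  refine ⟨φ.comp (QuotientGroup.mk' H), ?_, ?_⟩
  · intro h
    apply hφ
    have := DFunLike.congr_fun h a
    simpa using this
  · intro b hb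
    have : (b : G ⧸ H) = 1 := (QuotientGroup.eq_one_iff b).mpr hb
    rw [MonoidHom.comp_apply, QuotientGroup.mk'_apply, this, map_one]

lemma fin_bound {L : Type} [Field L] [NumberField L] (S : Set (HeightOneSpectrum (𝓞 L)))
    (hS : S.Finite) : ∃ C : ℝ, ∀ s : ℝ, 1 < s → ∑' v, Set.indicator S (x s) v ≤ C := by
  classical
  refine ⟨hS.toFinset.card, fun s hs => ?_⟩
  rw [tsum_eq_sum (s := hS.toFinset)]
  · refine (Finset.sum_le_card_nsmul _ _ 1 fun v _ => ?_).trans (by simp)
    unfold Set.indicator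
    split_ifs
    · have := x_le hs.le v
      linarith
    · norm_num
  · intro v hv
    rw [Set.indicator_of_notMem]
    simpa using hv

lemma lambda_tendsto : Tendsto (fun s : ℝ => Real.log (1 / (s - 1))) (𝓝[>] 1) atTop := by
  refine Real.tendsto_log_atTop.comp ?_
  simp_rw [one_div]
  refine Filter.Tendsto.inv_tendsto_nhdsGT_zero ?_
  have h1 : Tendsto (fun s : ℝ => s - 1) (𝓝[>] 1) (𝓝 (1 - 1)) :=
    ((continuous_id.sub continuous_const).tendsto 1).mono_left nhdsWithin_le_nhds
  rw [sub_self] at h1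
  refine tendsto_nhdsWithin_iff.mpr ⟨h1, ?_⟩
  filter_upwards [self_mem_nhdsWithin] with s hs
  exact sub_pos.mpr (Set.mem_Ioi.mp hs)

end DENS

theorem m_DENS : Stmt_LBD → Stmt_EP → Stmt_SPLS → Stmt_DEG2 → Stmt_DENS := by
  intro hLBD hEP hSPLS hDEG2 L M _ _ _ _ _ m hm S hfin H hgen
  by_contra hH
  obtain ⟨η, hη, hηH⟩ := DENS.exists_char H hH
  let A : Set (HeightOneSpectrum (𝓞 L)) := {v | η (cl L v) = 1}
  let B₁ : Set (HeightOneSpectrum (𝓞 L)) := {v | m ≤ spl L M v}
  let B₂ : Set (HeightOneSpectrum (𝓞 L)) := {v | ¬ (absNorm v.asIdeal).Prime}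
  obtain ⟨C₀, h0⟩ := hLBD L η hη
  obtain ⟨C₁, h1⟩ := hSPLS L M m B₁ (fun v hv => hv)
  obtain ⟨C₂, h2⟩ := hDEG2 L B₂ (fun v hv => hv)
  obtain ⟨C₃, h3⟩ := DENS.fin_bound S hfin
  obtain ⟨C₄, h4⟩ := (isBigO_sum L).bound
  have hm3 : (3 : ℝ) ≤ m := by exact_mod_cast hm
  have hΛ := DENS.lambda_tendsto.eventually (eventually_gt_atTop
    (3 * (Real.log (max C₀ 1) + C₄ + 2 * (|C₁| + C₂ + C₃))))
  have hΛ' := DENS.lambda_tendsto.eventually (eventually_gt_atTop 0)
  have hev : ∀ᶠ s : ℝ in 𝓝[>] 1, False := by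
    filter_upwards [h0, h1, h4, hΛ, hΛ', self_mem_nhdsWithin] with s hs0 hs1 hs4 hsΛ hΛ0 hs
    have hs' : (1 : ℝ) < s := hs
    rw [norm_one, mul_one, Real.norm_eq_abs] at hs4
    have h5 := neg_abs_le (∑' v : HeightOneSpectrum (𝓞 L), x s v - Real.log (1 / (s - 1)))
    set Λ := Real.log (1 / (s - 1)) with hΛdef
    have hsum := summable_x (K := L) hs'
    have h6 : ∑' v, Set.indicator Aᶜ (x s) v ≤
        ∑' v, Set.indicator B₁ (x s) v + ∑' v, Set.indicator B₂ (x s) v +
          ∑' v, Set.indicator S (x s) v := by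
      have e1 := hsum.indicator B₁
      have e2 := hsum.indicator B₂
      have e3 := hsum.indicator S
      rw [← e1.tsum_add e2, ← (e1.add e2).tsum_add e3]
      refine (hsum.indicator Aᶜ).tsum_le_tsum (fun v => ?_) ((e1.add e2).add e3)
      have hx := x_pos s v
      have i1 : 0 ≤ Set.indicator B₁ (x s) v := Set.indicator_nonneg (fun v _ => (x_pos s v).le) v
      have i2 : 0 ≤ Set.indicator B₂ (x s) v := Set.indicator_nonneg (fun v _ => (x_pos s v).le) v
      have i3 : 0 ≤ Set.indicator S (x s) v := Set.indicator_nonneg (fun v _ => (x_pos s v).le) v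
      by_cases hvA : v ∈ Aᶜ
      · rw [Set.indicator_of_mem hvA]
        by_cases hv : v ∈ S
        · rw [Set.indicator_of_mem hv]
          linarith
        · by_cases hv2 : (absNorm v.asIdeal).Prime
          · have hv1 : v ∈ B₁ := by
              by_contra hlt
              apply hvA
              exact hηH _ (hgen v hv hv2 (not_le.mp hlt))
            rw [Set.indicator_of_mem hv1]
            linarith
          · rw [Set.indicator_of_mem (show v ∈ B₂ from hv2)]
            linarith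
      · rw [Set.indicator_of_notMem hvA]
        linarith
    have h7 := h2 s hs'
    have h8 := h3 s hs'
    have h9 : ∑' v, Set.indicator A (x s) v + ∑' v, Set.indicator Aᶜ (x s) v =
        ∑' v : HeightOneSpectrum (𝓞 L), x s v := by
      rw [← (hsum.indicator A).tsum_add (hsum.indicator Aᶜ)]
      exact tsum_congr fun v => Set.indicator_self_add_compl_apply A (x s) v
    have h10 : 3 * ∑' v, Set.indicator B₁ (x s) v ≤ Λ + |C₁| := by
      have i1 : 0 ≤ ∑' v, Set.indicator B₁ (x s) v :=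
        tsum_nonneg fun v => Set.indicator_nonneg (fun v _ => (x_pos s v).le) v
      have := mul_le_mul_of_nonneg_right hm3 i1
      have := le_abs_self C₁
      linarith
    have h11 := hEP L η A (fun v hv => hv) s hs'
    have h12 : Λ / 3 - C₄ - 2 * (|C₁| + C₂ + C₃) ≤
        ∑' v, Set.indicator A (x s) v - ∑' v, Set.indicator Aᶜ (x s) v := by
      have := abs_nonneg C₁
      linarith
    have h13 : Real.exp (Λ / 3 - C₄ - 2 * (|C₁| + C₂ + C₃)) ≤ max C₀ 1 :=
      ((Real.exp_le_exp.mpr h12).trans (h11.trans hs0)).trans (le_max_left _ _)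
    have hpos : (0 : ℝ) < max C₀ 1 := lt_of_lt_of_le one_pos (le_max_right _ _)
    have h14 := (Real.le_log_iff_exp_le hpos).mpr h13
    linarith
  exact (hev.exists).choose_spec

end Pool.Agent.MU3
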