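import Pool.Agent.MU3.StD

/-!
# MU3, block D, module EP
-/

open NumberField IsDedekindDomain Ideal Filter Topology
open NumberField.Units
open scoped nonZeroDivisors

namespace Pool.Agent.MU3

open Pool.Agent.Lib_helper28.FROB

namespace EP

variable (K : Type) [Field K] [NumberField K]

lemma iN_nonneg (s : ℝ) (I : (Ideal (𝓞 K))⁰) : 0 ≤ iN K s I := by
  unfold iN
  positivity

lemma norm_eta {G : Type} [CommGroup G] [Finite G] (η : G →* ℂˣ) (c : G) :
    ‖(η c : ℂ)‖ = 1 := by
  have h : (η c : ℂ) ^ Nat.card G = 1 := by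
    rw [← Units.val_pow_eq_pow_val, ← map_pow, pow_card_eq_one', map_one, Units.val_one]
  exact Complex.norm_eq_one_of_pow_eq_one h Nat.card_pos.ne'

/-- The term of the series. -/
noncomputable def g (η : ClassGroup (𝓞 K) →* ℂˣ) (s : ℝ) (I : (Ideal (𝓞 K))⁰) : ℂ :=
  (η (ClassGroup.mk0 I) : ℂ) * (iN K s I : ℂ)

/-- The prime as a nonzero ideal. -/
noncomputable def P (v : HeightOneSpectrum (𝓞 K)) : (Ideal (𝓞 K))⁰ :=
  ⟨v.asIdeal, mem_nonZeroDivisors_iff_ne_zero.mpr v.ne_bot⟩

lemma g_one (η : ClassGroup (𝓞 K) →* ℂˣ) (s : ℝ) : g K η s 1 = 1 := by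
  simp [g, iN]

lemma g_mul (η : ClassGroup (𝓞 K) →* ℂˣ) (s : ℝ) (I J : (Ideal (𝓞 K))⁰) :
    g K η s (I * J) = g K η s I * g K η s J := by
  unfold g iN
  rw [map_mul, map_mul, Submonoid.coe_mul, map_mul, Nat.cast_mul,
    Real.mul_rpow (Nat.cast_nonneg _) (Nat.cast_nonneg _)]
  push_cast
  ring

lemma norm_g (η : ClassGroup (𝓞 K) →* ℂˣ) (s : ℝ) (I : (Ideal (𝓞 K))⁰) :
    ‖g K η s I‖ = iN K s I := by
  unfold g
  rw [norm_mul, norm_eta, one_mul, Complex.norm_real, Real.norm_eq_abs,
    abs_of_nonneg (iN_nonneg K s I)]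

/-- The ideals which are not divisible by the primes of `t`. -/
def D (t : Finset (HeightOneSpectrum (𝓞 K))) : Set (Ideal (𝓞 K))⁰ :=
  {I | ∀ v ∈ t, ¬ v.asIdeal ∣ (I : Ideal (𝓞 K))}

lemma step (η : ClassGroup (𝓞 K) →* ℂˣ) (s : ℝ) (hs : Summable (g K η s))
    (t : Finset (HeightOneSpectrum (𝓞 K))) (v : HeightOneSpectrum (𝓞 K)) (hv : v ∉ t)
    [DecidableEq (HeightOneSpectrum (𝓞 K))] :
    ∑' I, Set.indicator (D K (insert v t)) (g K η s) I =
      (∑' I, Set.indicator (D K t) (g K η s) I) * (1 - g K η s (P K v)) := by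
  classical
  let E : Set (Ideal (𝓞 K))⁰ := {I | I ∈ D K t ∧ v.asIdeal ∣ (I : Ideal (𝓞 K))}
  have hinj : Function.Injective fun I : (Ideal (𝓞 K))⁰ => P K v * I := fun I J h =>
    mul_left_cancel h
  have h1 : (∑' I, Set.indicator (D K t) (g K η s) I) * g K η s (P K v) =
      ∑' I, Set.indicator E (g K η s) I := by
    rw [← tsum_mul_right, ← hinj.tsum_eq (f := Set.indicator E (g K η s))]
    · refine tsum_congr fun I => ?_
      have hmem : P K v * I ∈ E ↔ I ∈ D K t := by
        constructor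
        · rintro ⟨h, _⟩ w hw hwI
          exact h w hw (dvd_mul_of_dvd_right hwI _)
        · intro h
          refine ⟨fun w hw hwI => ?_, dvd_mul_right _ _⟩
          rw [Submonoid.coe_mul] at hwI
          rcases w.prime.dvd_or_dvd hwI with h2 | h2
          · have h3 : w = v := dvd_asIdeal h2
            exact hv (h3 ▸ hw)
          · exact h w hw h2
      by_cases hI : I ∈ D K t
      · rw [Set.indicator_of_mem hI, Set.indicator_of_mem (hmem.mpr hI), g_mul]
        ring
      · rw [Set.indicator_of_notMem hI, Set.indicator_of_notMem (fun h => hI (hmem.mp h)),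
          zero_mul]
    · intro J hJ
      have hJE : J ∈ E := by
        by_contra h
        exact hJ (Set.indicator_of_notMem h _)
      obtain ⟨I, hI⟩ := hJE.2
      have hI0 : I ≠ 0 := by
        rintro rfl
        exact nonZeroDivisors.coe_ne_zero J (by rw [hI, mul_zero])
      exact ⟨⟨I, mem_nonZeroDivisors_iff_ne_zero.mpr hI0⟩, Subtype.ext hI.symm⟩
  rw [mul_sub, mul_one, h1, ← (hs.indicator _).tsum_sub (hs.indicator _)]
  refine tsum_congr fun I => ?_
  by_cases h2 : I ∈ D K t
  · by_cases h3 : v.asIdeal ∣ (I : Ideal (𝓞 K))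
    · rw [Set.indicator_of_mem h2, Set.indicator_of_mem (show I ∈ E from ⟨h2, h3⟩),
        Set.indicator_of_notMem, sub_self]
      intro h
      exact h v (Finset.mem_insert_self _ _) h3
    · rw [Set.indicator_of_mem h2, Set.indicator_of_notMem (fun h : I ∈ E => h3 h.2),
        Set.indicator_of_mem, sub_zero]
      intro w hw
      rcases Finset.mem_insert.mp hw with rfl | hw
      · exact h3
      · exact h2 w hw
  · rw [Set.indicator_of_notMem h2, Set.indicator_of_notMem (fun h : I ∈ E => h2 h.1),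
      Set.indicator_of_notMem, sub_self]
    intro h
    exact h2 fun w hw => h w (Finset.mem_insert_of_mem hw)

lemma prod_eq (η : ClassGroup (𝓞 K) →* ℂˣ) (s : ℝ) (hs : Summable (g K η s))
    (t : Finset (HeightOneSpectrum (𝓞 K))) :
    ∑' I, Set.indicator (D K t) (g K η s) I =
      (∑' I, g K η s I) * ∏ v ∈ t, (1 - g K η s (P K v)) := by
  classical
  induction t using Finset.induction_on with
  | empty =>
    rw [Finset.prod_empty, mul_one]
    refine tsum_congr fun I => Set.indicator_of_mem ?_ _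
    intro v hv
    simp at hv
  | insert v t hv ih =>
    rw [step K η s hs t v hv, ih, Finset.prod_insert hv]
    ring

lemma lim (η : ClassGroup (𝓞 K) →* ℂˣ) (s : ℝ) (hs : Summable (iN K s)) :
    Tendsto (fun t : Finset (HeightOneSpectrum (𝓞 K)) =>
      ∑' I, Set.indicator (D K t) (g K η s) I) atTop (𝓝 1) := by
  classical
  have h1 : ∑' I : (Ideal (𝓞 K))⁰, (if I = 1 then (1 : ℂ) else 0) = 1 := by
    rw [tsum_eq_single 1]
    · simp
    · intro I hI
      exact if_neg hI
  rw [← h1]
  refine tendsto_tsum_of_dominated_convergence hs ?_ (Eventually.of_forall fun t I => ?_)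
  · intro I
    by_cases hI : I = 1
    · subst hI
      rw [if_pos rfl]
      refine tendsto_const_nhds.congr fun t => ?_
      rw [Set.indicator_of_mem, g_one]
      intro v _ h
      exact v.isPrime.ne_top (by
        have := isUnit_of_dvd_one h
        rwa [Ideal.isUnit_iff] at this)
    · rw [if_neg hI]
      obtain ⟨v, hv⟩ : ∃ v : HeightOneSpectrum (𝓞 K), v.asIdeal ∣ (I : Ideal (𝓞 K)) := by
        have hne : (I : Ideal (𝓞 K)) ≠ ⊤ := by
          intro h
          exact hI (Subtype.ext (h.trans Ideal.one_eq_top.symm))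
        obtain ⟨m, hm, hle⟩ := Ideal.exists_le_maximal _ hne
        have hm0 : m ≠ ⊥ := by
          rintro rfl
          exact nonZeroDivisors.coe_ne_zero I (le_bot_iff.mp hle)
        exact ⟨⟨m, hm.isPrime, hm0⟩, Ideal.dvd_iff_le.mpr hle⟩
      refine tendsto_const_nhds.congr' ?_
      filter_upwards [eventually_ge_atTop {v}] with t ht
      rw [Set.indicator_of_notMem]
      intro h
      exact h v (ht (Finset.mem_singleton_self v)) hv
  · rw [← norm_g K η s I]
    exact norm_indicator_le_norm_self _ _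

end EP

theorem m_EP : Stmt_ISUM → Stmt_EP := by
  classical
  intro hI K _ _ η A hA s hs
  have hiN := (hI K).1 s hs
  have hg : Summable (EP.g K η s) :=
    Summable.of_norm_bounded hiN fun I => (EP.norm_g K η s I).le
  have hx := summable_x (K := K) hs
  have hxP : ∀ v : HeightOneSpectrum (𝓞 K), iN K s (EP.P K v) = x s v := fun v => rfl
  have hlim := (EP.lim K η s hiN).norm
  rw [norm_one] at hlim
  have h1 : ∀ v : HeightOneSpectrum (𝓞 K), ‖1 - EP.g K η s (EP.P K v)‖ ≤
      Real.exp (Set.indicator Aᶜ (x s) v - Set.indicator A (x s) v) := by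
    intro v
    have hxv := x_pos s v
    have hxv' := x_le hs.le v
    by_cases hv : v ∈ A
    · have hv' : v ∉ Aᶜ := fun h => h hv
      rw [Set.indicator_of_mem hv, Set.indicator_of_notMem hv', zero_sub]
      have h2 : EP.g K η s (EP.P K v) = (x s v : ℂ) := by
        unfold EP.g
        have h3 : η (ClassGroup.mk0 (EP.P K v)) = 1 := hA v hv
        rw [h3, Units.val_one, one_mul, hxP]
      rw [h2, ← Complex.ofReal_one, ← Complex.ofReal_sub, Complex.norm_real, Real.norm_eq_abs,
        abs_of_nonneg (by linarith)]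
      exact Real.one_sub_le_exp_neg _
    · rw [Set.indicator_of_notMem hv, Set.indicator_of_mem (show v ∈ Aᶜ from hv), sub_zero]
      refine (norm_sub_le _ _).trans ?_
      rw [norm_one, EP.norm_g, hxP, add_comm]
      exact Real.add_one_le_exp _
  have h2 : ∀ t : Finset (HeightOneSpectrum (𝓞 K)),
      ‖∑' I, Set.indicator (EP.D K t) (EP.g K η s) I‖ *
        Real.exp (∑ v ∈ t, Set.indicator A (x s) v - ∑ v ∈ t, Set.indicator Aᶜ (x s) v) ≤
      ‖Lf K η s‖ := by
    intro t
    rw [EP.prod_eq K η s hg t, norm_mul]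
    have h3 : ‖∏ v ∈ t, (1 - EP.g K η s (EP.P K v))‖ ≤
        Real.exp (∑ v ∈ t, Set.indicator Aᶜ (x s) v - ∑ v ∈ t, Set.indicator A (x s) v) := by
      rw [norm_prod, ← Finset.sum_sub_distrib, Real.exp_sum]
      exact Finset.prod_le_prod (fun v _ => norm_nonneg _) fun v _ => h1 v
    have h4 : ‖∑' I, EP.g K η s I‖ = ‖Lf K η s‖ := rfl
    rw [h4, mul_assoc]
    refine mul_le_of_le_one_right (norm_nonneg _) ?_
    calc ‖∏ v ∈ t, (1 - EP.g K η s (EP.P K v))‖ *
          Real.exp (∑ v ∈ t, Set.indicator A (x s) v - ∑ v ∈ t, Set.indicator Aᶜ (x s) v)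
        ≤ Real.exp (∑ v ∈ t, Set.indicator Aᶜ (x s) v - ∑ v ∈ t, Set.indicator A (x s) v) *
          Real.exp (∑ v ∈ t, Set.indicator A (x s) v - ∑ v ∈ t, Set.indicator Aᶜ (x s) v) :=
          mul_le_mul_of_nonneg_right h3 (Real.exp_pos _).le
      _ = 1 := by
          rw [← Real.exp_add]
          simp
  have hlim2 : Tendsto (fun t : Finset (HeightOneSpectrum (𝓞 K)) =>
      ‖∑' I, Set.indicator (EP.D K t) (EP.g K η s) I‖ *
        Real.exp (∑ v ∈ t, Set.indicator A (x s) v - ∑ v ∈ t, Set.indicator Aᶜ (x s) v)) atTop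
      (𝓝 (1 * Real.exp (∑' v, Set.indicator A (x s) v - ∑' v, Set.indicator Aᶜ (x s) v))) := by
    refine hlim.mul ((Real.continuous_exp.tendsto _).comp ?_)
    have e1 : Tendsto (fun t : Finset (HeightOneSpectrum (𝓞 K)) =>
        ∑ v ∈ t, Set.indicator A (x s) v) atTop (𝓝 (∑' v, Set.indicator A (x s) v)) :=
      (hx.indicator A).hasSum
    have e2 : Tendsto (fun t : Finset (HeightOneSpectrum (𝓞 K)) =>
        ∑ v ∈ t, Set.indicator Aᶜ (x s) v) atTop (𝓝 (∑' v, Set.indicator Aᶜ (x s) v)) :=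
      (hx.indicator Aᶜ).hasSum
    exact e1.sub e2
  rw [one_mul] at hlim2
  exact le_of_tendsto' hlim2 h2

end Pool.Agent.MU3
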