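import Pool.Agent.MU3.StD

/-!
# MU3, block D: convergence of the sum of the cut-off function
-/

set_option autoImplicit false

open NumberField IsDedekindDomain Ideal Filter Topology
open NumberField.Units NumberField.mixedEmbedding NumberField.Units.dirichletUnitTheorem
open scoped nonZeroDivisors

namespace Pool.Agent.MU3

open Pool.Agent.Lib_helper28.FROB

namespace FSUM

theorem tent_nonneg (y : ℝ) : 0 ≤ tent y := le_max_left _ _

theorem tent_le (y : ℝ) : tent y ≤ 1 := by
  unfold tent
  have := abs_nonneg y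
  exact max_le (by norm_num) (by linarith)

theorem rho_nonneg (K : Type) [Field K] [NumberField K] (a : 𝓞 K) : 0 ≤ rho K a :=
  Finset.prod_nonneg (fun _ _ => tent_nonneg _)

theorem rho_le (K : Type) [Field K] [NumberField K] (a : 𝓞 K) : rho K a ≤ 1 :=
  Finset.prod_le_one (fun _ _ => tent_nonneg _) (fun _ _ => tent_le _)

theorem an_eq (K : Type) [Field K] [NumberField K] (a : 𝓞 K) :
    an K a = ∏ w : InfinitePlace K, w (a : K) ^ w.mult := by
  unfold an
  rw [InfinitePlace.prod_eq_abs_norm, absNorm_span_singleton, Nat.cast_natAbs, Int.cast_abs,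
    ← Algebra.coe_norm_int]
  push_cast
  rfl

theorem one_le_an (K : Type) [Field K] [NumberField K] (a : 𝓞 K) (ha : a ≠ 0) : 1 ≤ an K a := by
  unfold an
  have h : absNorm (span {a}) ≠ 0 := by
    rw [Ne, absNorm_eq_zero_iff, span_singleton_eq_bot]
    exact ha
  exact_mod_cast Nat.one_le_iff_ne_zero.2 h

theorem le_nr (K : Type) [Field K] [NumberField K] (a : 𝓞 K) (w : InfinitePlace K) :
    w (a : K) ≤ nr K a := by
  unfold nr
  rw [norm_eq_sup'_normAtPlace, ← normAtPlace_apply]
  exact Finset.le_sup' (fun w => normAtPlace w (mixedEmbedding K (a : K))) (Finset.mem_univ w)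

theorem nr_nonneg (K : Type) [Field K] [NumberField K] (a : 𝓞 K) : 0 ≤ nr K a := by
  have w : InfinitePlace K := Classical.arbitrary _
  exact (apply_nonneg w _).trans (le_nr K a w)

theorem one_le_nr (K : Type) [Field K] [NumberField K] (a : 𝓞 K) (ha : a ≠ 0) : 1 ≤ nr K a := by
  by_contra hc
  rw [not_le] at hc
  have h1 := one_le_an K a ha
  rw [an_eq] at h1
  have h0 := nr_nonneg K a
  have h2 : ∏ w : InfinitePlace K, w (a : K) ^ w.mult ≤
      ∏ w : InfinitePlace K, nr K a ^ w.mult :=
    Finset.prod_le_prod (fun w _ => pow_nonneg (apply_nonneg w _) _)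
      (fun w _ => pow_le_pow_left₀ (apply_nonneg w _) (le_nr K a w) _)
  rw [Finset.prod_pow_eq_pow_sum, InfinitePlace.sum_mult_eq] at h2
  have h3 : nr K a ^ Module.finrank ℚ K < 1 :=
    pow_lt_one₀ h0 hc (Module.finrank_pos (R := ℚ) (M := K)).ne'
  linarith

end FSUM

open FSUM in
theorem m_FSUM : Stmt_CONE → Stmt_SZS → Stmt_FSUM := by
  intro hC hS K _ _ s hs
  obtain ⟨c, hc, h⟩ := hC K
  set d : ℕ := Module.finrank ℚ K with hd
  have hd1 : 1 ≤ d := Module.finrank_pos (R := ℚ) (M := K)
  have hd1' : (1 : ℝ) ≤ d := by exact_mod_cast hd1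
  have hsum : Summable (fun a : 𝓞 K => (c / 2) ^ (-((d : ℝ) * s)) * sz K a ^ (-((d : ℝ) * s))) :=
    (hS K ((d : ℝ) * s) (by nlinarith)).mul_left _
  refine Summable.of_nonneg_of_le ?_ ?_ hsum
  · intro a
    unfold fs
    have : 0 ≤ an K a := Nat.cast_nonneg _
    exact mul_nonneg (rho_nonneg K a) (Real.rpow_nonneg this _)
  · intro a
    have hsz : 0 < sz K a := by
      have := nr_nonneg K a
      unfold sz
      linarith
    have hR : 0 ≤ (c / 2) ^ (-((d : ℝ) * s)) * sz K a ^ (-((d : ℝ) * s)) := by positivity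
    by_cases ha : a = 0
    · have h1 : an K a = 0 := by
        unfold an
        rw [ha]
        simp
      unfold fs
      rw [h1, Real.zero_rpow (by linarith), mul_zero]
      exact hR
    by_cases hr : rho K a = 0
    · unfold fs
      rw [hr, zero_mul]
      exact hR
    have h1 : (c * nr K a) ^ d ≤ an K a := by
      rw [an_eq, hd, ← InfinitePlace.sum_mult_eq, ← Finset.prod_pow_eq_pow_sum]
      exact Finset.prod_le_prod (fun w _ => by have := nr_nonneg K a; positivity)
        (fun w _ => pow_le_pow_left₀ (by have := nr_nonneg K a; positivity) (h a ha hr w) _)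
    have h2 := one_le_nr K a ha
    have h3 : (c / 2 * sz K a) ^ d ≤ an K a := by
      refine le_trans ?_ h1
      apply pow_le_pow_left₀ (by positivity)
      unfold sz
      nlinarith
    have h4 : an K a ^ (-s) ≤ ((c / 2 * sz K a) ^ d) ^ (-s) :=
      Real.rpow_le_rpow_of_nonpos (by positivity) h3 (by linarith)
    have h5 : ((c / 2 * sz K a) ^ d) ^ (-s) =
        (c / 2) ^ (-((d : ℝ) * s)) * sz K a ^ (-((d : ℝ) * s)) := by
      rw [← Real.rpow_natCast, ← Real.rpow_mul (by positivity), ← Real.mul_rpow (by positivity)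
        hsz.le]
      congr 1
      ring
    rw [← h5]
    unfold fs
    have h6 : 0 ≤ an K a ^ (-s) := Real.rpow_nonneg (Nat.cast_nonneg _) _
    calc rho K a * an K a ^ (-s) ≤ 1 * an K a ^ (-s) :=
          mul_le_mul_of_nonneg_right (rho_le K a) h6
      _ ≤ _ := by rw [one_mul]; exact h4

end Pool.Agent.MU3
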