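import Pool.Agent.MU3.StD

/-!
# MU3, block D, module ISUM
-/

open NumberField IsDedekindDomain Ideal Filter Topology
open scoped nonZeroDivisors ENNReal

namespace Pool.Agent.MU3

open Pool.Agent.Lib_helper28.FROB

namespace ISUM

variable (K : Type) [Field K] [NumberField K]

/-- The two index types. -/
def eqv : (Ideal (𝓞 K))⁰ ≃ {I : Ideal (𝓞 K) // I ≠ ⊥} :=
  Equiv.subtypeEquivRight fun _ => mem_nonZeroDivisors_iff_ne_zero

lemma iN_nonneg (s : ℝ) (I : (Ideal (𝓞 K))⁰) : 0 ≤ iN K s I := by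
  unfold iN
  positivity

lemma Z_eq_tsum (s : ℝ) : Z K s = ∑' I : (Ideal (𝓞 K))⁰, ENNReal.ofReal (iN K s I) := by
  unfold Z
  rw [← (eqv K).tsum_eq]
  rfl

lemma Z_ne_top {s : ℝ} (hs : 1 < s) : Z K s ≠ ∞ :=
  ne_top_of_le_ne_top ENNReal.ofReal_ne_top (Z_le hs)

lemma summable {s : ℝ} (hs : 1 < s) : Summable (iN K s) := by
  have h1 := Z_ne_top K hs
  rw [Z_eq_tsum] at h1
  refine (ENNReal.summable_toReal h1).congr fun I => ?_
  rw [ENNReal.toReal_ofReal (iN_nonneg K s I)]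

lemma tsum_eq (s : ℝ) : ∑' I, iN K s I = (Z K s).toReal := by
  rw [Z_eq_tsum, ENNReal.tsum_toReal_eq (fun _ => ENNReal.ofReal_ne_top)]
  exact tsum_congr fun I => (ENNReal.toReal_ofReal (iN_nonneg K s I)).symm

end ISUM

theorem m_ISUM : Stmt_ISUM := by
  intro K _ _
  refine ⟨fun s hs => ISUM.summable K hs, dedekindZeta_residue K + 1, ?_⟩
  filter_upwards [(tendsto_Z K).eventually (gt_mem_nhds
    (lt_add_one (dedekindZeta_residue K)))] with s hs
  rw [ISUM.tsum_eq]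
  exact hs.le

end Pool.Agent.MU3
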