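import Pool.Agent.MU3.StD

/-!
# MU3, block D: Kummer extensions, `Stmt_KUM`
-/

open NumberField IsDedekindDomain Ideal Filter Topology
open scoped nonZeroDivisors Pointwise

namespace Pool.Agent.MU3

namespace KUM

variable {L M : Type} [Field L] [NumberField L] [Field M] [NumberField M] [Algebra L M]
  [IsGalois L M]

/-- a conjugate of `y` is `ζ ^ j y` -/
theorem conj_eq {ζ t : 𝓞 L} (hζ : IsPrimitiveRoot ζ 3) {y : 𝓞 M}
    (hy : y ^ 3 = algebraMap (𝓞 L) (𝓞 M) t) {σ : Gal(M/L)} (hσ : σ • y ≠ y) :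
    ∃ ξ : 𝓞 L, (ξ = ζ ∨ ξ = ζ ^ 2) ∧ σ • y = algebraMap (𝓞 L) (𝓞 M) ξ * y := by
  have h1 : (σ • y) ^ 3 = y ^ 3 := by
    rw [← smul_pow', hy, smul_algebraMap]
  have h2 : ζ ^ 2 + ζ + 1 = 0 := by
    have h3 := hζ.geom_sum_eq_zero (by norm_num : 1 < 3)
    simp only [Finset.sum_range_succ, Finset.sum_range_zero] at h3
    linear_combination h3
  have h3 : (algebraMap (𝓞 L) (𝓞 M) ζ) ^ 2 + algebraMap (𝓞 L) (𝓞 M) ζ + 1 = 0 := by
    rw [← map_pow, ← map_add, ← map_one (algebraMap (𝓞 L) (𝓞 M)), ← map_add, h2, map_zero]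
  set z := algebraMap (𝓞 L) (𝓞 M) ζ with hz
  have h4 : (σ • y - y) * ((σ • y - z * y) * (σ • y - z ^ 2 * y)) = 0 := by
    linear_combination h1 + (σ • y * y ^ 2 * z + y ^ 3 * (1 - z) - (σ • y) ^ 2 * y) * h3
  rcases mul_eq_zero.1 h4 with h5 | h5
  · exact absurd (sub_eq_zero.1 h5) hσ
  · rcases mul_eq_zero.1 h5 with h6 | h6
    · exact ⟨ζ, Or.inl rfl, sub_eq_zero.1 h6⟩
    · exact ⟨ζ ^ 2, Or.inr rfl, by rw [map_pow]; exact sub_eq_zero.1 h6⟩

/-- No prime above `v` is stable under `σ`. -/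
theorem not_stable {ζ t : 𝓞 L} (hζ : IsPrimitiveRoot ζ 3) {y : 𝓞 M}
    (hy : y ^ 3 = algebraMap (𝓞 L) (𝓞 M) t) {σ : Gal(M/L)} (hσ : σ • y ≠ y)
    {v : Ideal (𝓞 L)} (hv : v.IsPrime) (h3 : (3 : 𝓞 L) ∉ v) (ht : t ∉ v) {a : 𝓞 L}
    (ha : t - a ^ 3 ∈ v) {w : Ideal (𝓞 M)} (hw : w.IsPrime) (hwv : w.LiesOver v) :
    σ • w ≠ w := by
  intro hst
  have hav : a ∉ v := by
    intro h
    apply ht
    have : t = (t - a ^ 3) + a * a ^ 2 := by ring
    rw [this]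
    exact v.add_mem ha (v.mul_mem_right _ h)
  have h2 : ζ ^ 2 + ζ + 1 = 0 := by
    have h3 := hζ.geom_sum_eq_zero (by norm_num : 1 < 3)
    simp only [Finset.sum_range_succ, Finset.sum_range_zero] at h3
    linear_combination h3
  have h3' : (algebraMap (𝓞 L) (𝓞 M) ζ) ^ 2 + algebraMap (𝓞 L) (𝓞 M) ζ + 1 = 0 := by
    rw [← map_pow, ← map_add, ← map_one (algebraMap (𝓞 L) (𝓞 M)), ← map_add, h2, map_zero]
  -- `w` contains a factor
  have hmem : ∀ b : 𝓞 L, algebraMap (𝓞 L) (𝓞 M) b ∈ w ↔ b ∈ v := by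
    intro b
    rw [hwv.over]
    exact Iff.rfl
  have hfac : ∃ i : ℕ, y - algebraMap (𝓞 L) (𝓞 M) (ζ ^ i * a) ∈ w := by
    have e1 : algebraMap (𝓞 L) (𝓞 M) (t - a ^ 3) ∈ w := (hmem _).2 ha
    have e2 : algebraMap (𝓞 L) (𝓞 M) (t - a ^ 3) =
        (y - algebraMap (𝓞 L) (𝓞 M) (ζ ^ 0 * a)) * ((y - algebraMap (𝓞 L) (𝓞 M) (ζ ^ 1 * a)) *
          (y - algebraMap (𝓞 L) (𝓞 M) (ζ ^ 2 * a))) := by
      rw [map_sub, ← hy]
      simp only [map_mul, map_pow]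
      set z := algebraMap (𝓞 L) (𝓞 M) ζ with hz
      set b := algebraMap (𝓞 L) (𝓞 M) a with hb
      linear_combination (y ^ 2 * b - y * b ^ 2 * z + b ^ 3 * (z - 1)) * h3'
    rw [e2] at e1
    rcases hw.mem_or_mem e1 with h | h
    · exact ⟨0, h⟩
    · rcases hw.mem_or_mem h with h | h
      · exact ⟨1, h⟩
      · exact ⟨2, h⟩
  obtain ⟨i, hi⟩ := hfac
  obtain ⟨ξ, hξ, hσy⟩ := conj_eq hζ hy hσ
  have h4 : σ • (y - algebraMap (𝓞 L) (𝓞 M) (ζ ^ i * a)) ∈ w := by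
    rw [← hst]
    exact Ideal.smul_mem_pointwise_smul σ _ w hi
  rw [smul_sub, smul_algebraMap, hσy] at h4
  have h5 : algebraMap (𝓞 L) (𝓞 M) ((1 - ξ) * (ζ ^ i * a)) ∈ w := by
    have e : algebraMap (𝓞 L) (𝓞 M) ((1 - ξ) * (ζ ^ i * a)) =
        algebraMap (𝓞 L) (𝓞 M) ξ * (y - algebraMap (𝓞 L) (𝓞 M) (ζ ^ i * a)) -
        (algebraMap (𝓞 L) (𝓞 M) ξ * y - algebraMap (𝓞 L) (𝓞 M) (ζ ^ i * a)) := by
      simp only [map_mul, map_sub, map_one]
      ring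
    rw [e]
    exact w.sub_mem (w.mul_mem_left _ hi) h4
  have h6 : (1 - ξ) * (ζ ^ i * a) ∈ v := (hmem _).1 h5
  have h7 : 3 * a ∈ v := by
    have e : ∃ q : 𝓞 L, 3 * a = q * ((1 - ξ) * (ζ ^ i * a)) := by
      have hζ3 : ζ ^ 3 = 1 := hζ.pow_eq_one
      have e1 : ∃ q : 𝓞 L, q * (1 - ξ) = 3 := by
        rcases hξ with h | h
        · refine ⟨1 - ζ ^ 2, ?_⟩
          rw [h]
          linear_combination hζ3 - h2
        · refine ⟨1 - ζ, ?_⟩
          rw [h]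
          linear_combination hζ3 - h2
      obtain ⟨q, hq⟩ := e1
      refine ⟨q * ζ ^ (2 * i), ?_⟩
      have e2 : ζ ^ (2 * i) * ζ ^ i = 1 := by
        rw [← pow_add, show 2 * i + i = 3 * i by ring, pow_mul, hζ3, one_pow]
      calc 3 * a = (q * (1 - ξ)) * (ζ ^ (2 * i) * ζ ^ i) * a := by rw [hq, e2]; ring
        _ = q * ζ ^ (2 * i) * ((1 - ξ) * (ζ ^ i * a)) := by ring
    obtain ⟨q, hq⟩ := e
    rw [hq]
    exact v.mul_mem_left _ h6
  rcases hv.mem_or_mem h7 with h | h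
  · exact h3 h
  · exact hav h

omit [IsGalois L M] in
/-- the relative form of the degree -/
theorem norm_of_deg_one {v : Ideal (𝓞 L)} (hv : v.IsPrime) (hv0 : v ≠ ⊥)
    {w : Ideal (𝓞 M)} (hw : w.IsPrime) (hwv : w.LiesOver v) (hd : w.inertiaDeg (𝓞 L) = 1) :
    absNorm w = absNorm v := by
  have hvm : v.IsMaximal := hv.isMaximal hv0
  have hwm : w.IsMaximal := IsMaximal.of_liesOver_isMaximal w v
  rw [absNorm_eq_pow_inertiaDeg'_of_liesOver w v hv hv0, inertiaDeg'_eq_inertiaDeg v w, hd, pow_one]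

theorem spl_ge {ζ t : 𝓞 L} (hζ : IsPrimitiveRoot ζ 3) (hcard : Nat.card Gal(M/L) = 3) {y : 𝓞 M}
    (hy : y ^ 3 = algebraMap (𝓞 L) (𝓞 M) t) {σ : Gal(M/L)} (hσ : σ • y ≠ y)
    (v : HeightOneSpectrum (𝓞 L)) (h3 : (3 : 𝓞 L) ∉ v.asIdeal) (ht : t ∉ v.asIdeal) {a : 𝓞 L}
    (ha : t - a ^ 3 ∈ v.asIdeal) : 3 ≤ spl L M v := by
  have hvp := v.isPrime
  have hvb := v.ne_bot
  have hG : Finite Gal(M/L) := Nat.finite_of_card_ne_zero (by rw [hcard]; norm_num)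
  have hid := ncard_primesOver_mul_ramificationIdxIn_mul_inertiaDegIn v.asIdeal (𝓞 M) Gal(M/L)
  rw [hcard] at hid
  obtain ⟨⟨w, hw, hwv⟩⟩ := (inferInstance : Nonempty (primesOver v.asIdeal (𝓞 M)))
  have hfin : (primesOver v.asIdeal (𝓞 M)).Finite := by
    apply Set.finite_of_ncard_ne_zero
    intro h
    rw [h] at hid
    omega
  have h2 : 1 < (primesOver v.asIdeal (𝓞 M)).ncard := by
    rw [Set.one_lt_ncard hfin]
    exact ⟨σ • w, ⟨inferInstance, inferInstance⟩, w, ⟨hw, hwv⟩,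
      not_stable hζ hy hσ hvp h3 ht ha hw hwv⟩
  have h5 : (primesOver v.asIdeal (𝓞 M)).ncard = 3 ∧ inertiaDegIn v.asIdeal (𝓞 M) = 1 := by
    have hdvd : (primesOver v.asIdeal (𝓞 M)).ncard ∣ 3 := Dvd.intro _ hid
    rcases (Nat.dvd_prime Nat.prime_three).1 hdvd with h | h
    · omega
    · refine ⟨h, ?_⟩
      rw [h] at hid
      have h6 : ramificationIdxIn v.asIdeal (𝓞 M) * inertiaDegIn v.asIdeal (𝓞 M) = 1 := by omega
      exact Nat.eq_one_of_mul_eq_one_left h6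
  have hnorm : ∀ P : primesOver v.asIdeal (𝓞 M), absNorm P.1 = absNorm v.asIdeal := by
    rintro ⟨P, hP, hPv⟩
    apply norm_of_deg_one hvp hvb hP hPv
    rw [← inertiaDegIn_eq_inertiaDeg v.asIdeal P Gal(M/L)]
    exact h5.2
  have hbot : ∀ P : primesOver v.asIdeal (𝓞 M), P.1 ≠ ⊥ := by
    intro P h
    have h6 := hnorm P
    rw [h, absNorm_bot] at h6
    exact hvb (absNorm_eq_zero_iff.1 h6.symm)
  let f : primesOver v.asIdeal (𝓞 M) → {w : HeightOneSpectrum (𝓞 M) //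
      w.asIdeal.under (𝓞 L) = v.asIdeal ∧ absNorm w.asIdeal = absNorm v.asIdeal} :=
    fun P => ⟨⟨P.1, P.2.1, hbot P⟩, P.2.2.over.symm, hnorm P⟩
  have hf : Function.Bijective f := by
    constructor
    · intro P Q h
      have h6 := congrArg (fun z => z.1.asIdeal) h
      exact Subtype.ext h6
    · rintro ⟨Q, hQ1, hQ2⟩
      exact ⟨⟨Q.asIdeal, Q.isPrime, ⟨hQ1.symm⟩⟩, rfl⟩
  unfold spl
  rw [← Nat.card_eq_of_bijective f hf]
  have h7 : Nat.card (primesOver v.asIdeal (𝓞 M)) = (primesOver v.asIdeal (𝓞 M)).ncard := rfl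
  rw [h7, h5.1]

end KUM

open Polynomial in
theorem m_KUM : Stmt_KUM := by
  intro L _ _ ζ t hζ ht
  have hirr : Irreducible (X ^ 3 - C (t : L)) :=
    X_pow_sub_C_irreducible_of_prime Nat.prime_three (fun b => ht b)
  have hfact : Fact (Irreducible (X ^ 3 - C (t : L))) := ⟨hirr⟩
  have hζL : IsPrimitiveRoot (ζ : L) 3 := hζ.map_of_injective (RingOfIntegers.coe_injective)
  have hprim : (primitiveRoots 3 L).Nonempty :=
    ⟨(ζ : L), (mem_primitiveRoots (by norm_num)).2 hζL⟩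
  have hchar : CharZero (AdjoinRoot (X ^ 3 - C (t : L))) :=
    charZero_of_injective_algebraMap (algebraMap L (AdjoinRoot (X ^ 3 - C (t : L)))).injective
  have hfd : FiniteDimensional L (AdjoinRoot (X ^ 3 - C (t : L))) :=
    (AdjoinRoot.powerBasis hirr.ne_zero).finite
  have hfdQ : FiniteDimensional ℚ (AdjoinRoot (X ^ 3 - C (t : L))) :=
    FiniteDimensional.trans ℚ L _
  have hnf : NumberField (AdjoinRoot (X ^ 3 - C (t : L))) := ⟨⟩
  have hsf := isSplittingField_AdjoinRoot_X_pow_sub_C hprim hirr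
  have hgal : IsGalois L (AdjoinRoot (X ^ 3 - C (t : L))) :=
    isGalois_of_isSplittingField_X_pow_sub_C hprim hirr _
  have hrank : Module.finrank L (AdjoinRoot (X ^ 3 - C (t : L))) = 3 :=
    finrank_of_isSplittingField_X_pow_sub_C hprim hirr _
  have hcard : Nat.card Gal((AdjoinRoot (X ^ 3 - C (t : L)))/L) = 3 := by
    rw [IsGalois.card_aut_eq_finrank, hrank]
  have hroot : (AdjoinRoot.root (X ^ 3 - C (t : L))) ^ 3 =
      algebraMap L (AdjoinRoot (X ^ 3 - C (t : L))) (t : L) := by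
    have h := AdjoinRoot.eval₂_root (X ^ 3 - C (t : L))
    simp only [eval₂_sub, eval₂_pow, eval₂_X, eval₂_C] at h
    exact sub_eq_zero.1 h
  have hint : IsIntegral ℤ (AdjoinRoot.root (X ^ 3 - C (t : L))) := by
    apply IsIntegral.of_pow (n := 3) (by norm_num)
    rw [hroot]
    exact (RingOfIntegers.isIntegral_coe t).map
      (algebraMap L (AdjoinRoot (X ^ 3 - C (t : L)))).toIntAlgHom
  obtain ⟨y, hy⟩ : ∃ y : 𝓞 (AdjoinRoot (X ^ 3 - C (t : L))),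
      algebraMap (𝓞 (AdjoinRoot (X ^ 3 - C (t : L)))) (AdjoinRoot (X ^ 3 - C (t : L))) y =
        AdjoinRoot.root (X ^ 3 - C (t : L)) :=
    ⟨⟨_, hint⟩, rfl⟩
  have hy3 : y ^ 3 = algebraMap (𝓞 L) (𝓞 (AdjoinRoot (X ^ 3 - C (t : L)))) t := by
    apply RingOfIntegers.coe_injective
    rw [map_pow, hy, hroot]
    rfl
  have hσ : ∃ σ : Gal((AdjoinRoot (X ^ 3 - C (t : L)))/L), σ • y ≠ y := by
    by_contra h
    push Not at h
    have hsub : Subsingleton Gal((AdjoinRoot (X ^ 3 - C (t : L)))/L) := by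
      constructor
      intro σ τ
      apply AlgEquiv.coe_toAlgHom_injective
      apply AdjoinRoot.algHom_ext
      have h1 := congrArg (algebraMap (𝓞 (AdjoinRoot (X ^ 3 - C (t : L))))
        (AdjoinRoot (X ^ 3 - C (t : L)))) (h σ)
      have h2 := congrArg (algebraMap (𝓞 (AdjoinRoot (X ^ 3 - C (t : L))))
        (AdjoinRoot (X ^ 3 - C (t : L)))) (h τ)
      have h3 : σ (AdjoinRoot.root (X ^ 3 - C (t : L))) = AdjoinRoot.root (X ^ 3 - C (t : L)) := by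
        rw [← hy]
        exact h1
      have h4 : τ (AdjoinRoot.root (X ^ 3 - C (t : L))) = AdjoinRoot.root (X ^ 3 - C (t : L)) := by
        rw [← hy]
        exact h2
      exact h3.trans h4.symm
    have := Nat.card_of_subsingleton (1 : Gal((AdjoinRoot (X ^ 3 - C (t : L)))/L))
    omega
  obtain ⟨σ, hσ⟩ := hσ
  refine ⟨AdjoinRoot (X ^ 3 - C (t : L)), inferInstance, hnf, inferInstance, ?_⟩
  rintro v h3 htv ⟨a, ha⟩
  exact KUM.spl_ge hζ hcard hy3 hσ v h3 htv ha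

end Pool.Agent.MU3
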