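import Pool.Agent.MU3.StD

/-!
# MU3, block D, module LBD
-/

open NumberField IsDedekindDomain Ideal Filter Topology
open NumberField.Units
open scoped nonZeroDivisors

namespace Pool.Agent.MU3

open Pool.Agent.Lib_helper28.FROB

namespace LBD

lemma iN_nonneg (K : Type) [Field K] [NumberField K] (s : ℝ) (I : (Ideal (𝓞 K))⁰) :
    0 ≤ iN K s I := by
  unfold iN
  positivity

lemma norm_eta {G : Type} [CommGroup G] [Finite G] (η : G →* ℂˣ) (c : G) :
    ‖(η c : ℂ)‖ = 1 := by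
  have h : (η c : ℂ) ^ Nat.card G = 1 := by
    rw [← Units.val_pow_eq_pow_val, ← map_pow, pow_card_eq_one', map_one, Units.val_one]
  exact Complex.norm_eq_one_of_pow_eq_one h Nat.card_pos.ne'

lemma sum_eta {G : Type} [CommGroup G] [Fintype G] (η : G →* ℂˣ) (h : η ≠ 1) :
    ∑ c : G, (η c : ℂ) = 0 := by
  have h' : (Units.coeHom ℂ).comp η ≠ 1 := by
    intro h'
    apply h
    ext c
    have := DFunLike.congr_fun h' c
    simpa using this
  exact sum_hom_units_eq_zero ((Units.coeHom ℂ).comp η) h'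

end LBD

theorem m_LBD : Stmt_ZCL → Stmt_ISUM → Stmt_LBD := by
  classical
  intro hZ hI K _ _ η hη
  choose C hC using hZ K
  have hfin := Fintype.ofFinite (ClassGroup (𝓞 K))
  refine ⟨∑ c, C c, ?_⟩
  have hall : ∀ᶠ s : ℝ in 𝓝[>] 1, ∀ c : ClassGroup (𝓞 K),
      |∑' I : {I : (Ideal (𝓞 K))⁰ // ClassGroup.mk0 I = c}, iN K s I.1 -
        ∑' I : {I : (Ideal (𝓞 K))⁰ // ClassGroup.mk0 I = 1}, iN K s I.1| ≤ C c :=
    Filter.eventually_all.mpr hC
  filter_upwards [hall, self_mem_nhdsWithin] with s hs hs1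
  have hs' : (1 : ℝ) < s := hs1
  have hsum := (hI K).1 s hs'
  have hsum' : Summable fun I : (Ideal (𝓞 K))⁰ =>
      (η (ClassGroup.mk0 I) : ℂ) * (iN K s I : ℂ) := by
    refine Summable.of_norm_bounded hsum fun I => ?_
    rw [norm_mul, LBD.norm_eta, one_mul, Complex.norm_real, Real.norm_eq_abs,
      abs_of_nonneg (LBD.iN_nonneg K s I)]
  have h1 : Lf K η s = ∑ c : ClassGroup (𝓞 K), (η c : ℂ) *
      ((∑' I : {I : (Ideal (𝓞 K))⁰ // ClassGroup.mk0 I = c}, iN K s I.1 : ℝ) : ℂ) := by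
    unfold Lf
    rw [← (HasSum.tsum_fiberwise hsum'.hasSum
      (fun I : (Ideal (𝓞 K))⁰ => ClassGroup.mk0 I)).tsum_eq, tsum_fintype]
    refine Finset.sum_congr rfl fun c _ => ?_
    rw [Complex.ofReal_tsum, ← tsum_mul_left]
    have h2 : ∀ I : {I : (Ideal (𝓞 K))⁰ // ClassGroup.mk0 I = c},
        (η (ClassGroup.mk0 I.1) : ℂ) * (iN K s I.1 : ℂ) = (η c : ℂ) * (iN K s I.1 : ℂ) := by
      intro I
      rw [I.2]
    exact tsum_congr h2
  have h3 : Lf K η s = ∑ c : ClassGroup (𝓞 K), (η c : ℂ) *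
      ((∑' I : {I : (Ideal (𝓞 K))⁰ // ClassGroup.mk0 I = c}, iN K s I.1 -
        ∑' I : {I : (Ideal (𝓞 K))⁰ // ClassGroup.mk0 I = 1}, iN K s I.1 : ℝ) : ℂ) := by
    rw [h1]
    simp_rw [Complex.ofReal_sub, mul_sub]
    rw [Finset.sum_sub_distrib, ← Finset.sum_mul, LBD.sum_eta η hη, zero_mul, sub_zero]
  rw [h3]
  refine norm_sum_le_of_le _ fun c _ => ?_
  rw [norm_mul, LBD.norm_eta, one_mul, Complex.norm_real, Real.norm_eq_abs]
  exact hs c

end Pool.Agent.MU3
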