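import Pool.Agent.MU3.StD

/-!
MU3, block D: the Lipschitz estimate (Stmt_LIP).
-/

open NumberField IsDedekindDomain Ideal Filter Topology
open NumberField.Units NumberField.mixedEmbedding NumberField.Units.dirichletUnitTheorem
open scoped nonZeroDivisors

namespace Pool.Agent.MU3

namespace LIP

variable {K : Type} [Field K] [NumberField K]

lemma tent_nonneg (y : ℝ) : 0 ≤ tent y := le_max_left _ _

lemma tent_le_one (y : ℝ) : tent y ≤ 1 := by
  unfold tent
  apply max_le zero_le_one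
  have := abs_nonneg y
  linarith

lemma rho_nonneg (a : 𝓞 K) : 0 ≤ rho K a := Finset.prod_nonneg fun _ _ => tent_nonneg _

lemma rho_le_one (a : 𝓞 K) : rho K a ≤ 1 :=
  Finset.prod_le_one (fun _ _ => tent_nonneg _) (fun _ _ => tent_le_one _)

lemma an_eq (a : 𝓞 K) : an K a = ∏ w : InfinitePlace K, (w (a : K)) ^ w.mult := by
  unfold an
  rw [InfinitePlace.prod_eq_abs_norm, Ideal.absNorm_span_singleton, ← Algebra.coe_norm_int,
    Nat.cast_natAbs, Int.cast_abs]
  push_cast
  rfl

lemma an_ge_one {a : 𝓞 K} (ha : a ≠ 0) : 1 ≤ an K a := by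
  unfold an
  have h : absNorm (span {a}) ≠ 0 := by
    rw [Ne, Ideal.absNorm_eq_zero_iff, Ideal.span_singleton_eq_bot]
    exact ha
  exact_mod_cast Nat.one_le_iff_ne_zero.mpr h

lemma an_zero : an K 0 = 0 := by
  unfold an
  simp

lemma le_nr (a : 𝓞 K) (w : InfinitePlace K) : w (a : K) ≤ nr K a := by
  unfold nr
  rw [norm_eq_sup'_normAtPlace]
  calc w (a : K) = normAtPlace w (mixedEmbedding K (a : K)) := (normAtPlace_apply w _).symm
    _ ≤ _ := Finset.le_sup' (fun w => normAtPlace w (mixedEmbedding K (a : K)))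
      (Finset.mem_univ w)

lemma exists_nr (a : 𝓞 K) : ∃ w : InfinitePlace K, nr K a = w (a : K) := by
  unfold nr
  rw [norm_eq_sup'_normAtPlace]
  obtain ⟨w, -, hw⟩ := Finset.exists_mem_eq_sup' (Finset.univ_nonempty (α := InfinitePlace K))
    (fun w => normAtPlace w (mixedEmbedding K (a : K)))
  exact ⟨w, by rw [hw, normAtPlace_apply]⟩

lemma nr_nonneg (a : 𝓞 K) : 0 ≤ nr K a := by
  obtain ⟨w, hw⟩ := exists_nr a
  rw [hw]
  exact AbsoluteValue.nonneg w.1 _

lemma nr_add_le (a b : 𝓞 K) : nr K (a + b) ≤ nr K a + nr K b := by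
  obtain ⟨w, hw⟩ := exists_nr (a + b)
  have : ((a + b : 𝓞 K) : K) = (a : K) + (b : K) := by push_cast; rfl
  rw [hw, this]
  exact (AbsoluteValue.add_le w.1 _ _).trans (add_le_add (le_nr a w) (le_nr b w))

lemma nr_neg (a : 𝓞 K) : nr K (-a) = nr K a := by
  have key : ∀ b : 𝓞 K, nr K (-b) ≤ nr K b := by
    intro b
    obtain ⟨w, hw⟩ := exists_nr (-b)
    have h1 : ((-b : 𝓞 K) : K) = -(b : K) := by push_cast; rfl
    have h2 : w (-(b : K)) = w (b : K) := AbsoluteValue.map_neg w.1 _
    rw [hw, h1, h2]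
    exact le_nr b w
  apply le_antisymm (key a)
  have := key (-a)
  rwa [neg_neg] at this

lemma nr_zero : nr K 0 = 0 := by
  obtain ⟨w, hw⟩ := exists_nr (0 : 𝓞 K)
  have h1 : ((0 : 𝓞 K) : K) = 0 := by push_cast; rfl
  rw [hw, h1, map_zero]

lemma fs_mem (a : 𝓞 K) {s : ℝ} (hs : 1 ≤ s) : 0 ≤ fs K s a ∧ fs K s a ≤ 1 := by
  unfold fs
  by_cases ha : a = 0
  · subst ha
    rw [an_zero, Real.zero_rpow (by linarith), mul_zero]
    exact ⟨le_rfl, zero_le_one⟩
  · have h1 := an_ge_one ha
    have h2 : an K a ^ (-s) ≤ 1 := Real.rpow_le_one_of_one_le_of_nonpos h1 (by linarith)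
    have h3 : 0 ≤ an K a ^ (-s) := Real.rpow_nonneg (by linarith) _
    exact ⟨mul_nonneg (rho_nonneg a) h3, mul_le_one₀ (rho_le_one a) h3 h2⟩

lemma log_diff {x y R m : ℝ} (hm : 0 < m) (hx : m ≤ x) (hy : m ≤ y) (h : |y - x| ≤ R) :
    |Real.log y - Real.log x| ≤ R / m := by
  have hx0 : 0 < x := by linarith
  have hy0 : 0 < y := by linarith
  have key : ∀ u v : ℝ, m ≤ u → m ≤ v → |v - u| ≤ R → Real.log v - Real.log u ≤ R / m := by
    intro u v hu hv huv
    have hu0 : 0 < u := by linarith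
    have hv0 : 0 < v := by linarith
    rw [← Real.log_div hv0.ne' hu0.ne']
    have h1 := Real.log_le_sub_one_of_pos (div_pos hv0 hu0)
    have h2 : v / u - 1 = (v - u) / u := by field_simp
    rw [h2] at h1
    refine h1.trans ?_
    have h3 : v - u ≤ R := (le_abs_self _).trans huv
    have h4 : 0 ≤ R := (abs_nonneg _).trans huv
    exact div_le_div₀ h4 h3 hm hu
  rw [abs_le]
  constructor
  · have := key y x hy hx (by rw [abs_sub_comm]; exact h)
    linarith
  · exact key x y hx hy h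

lemma log_an {a : 𝓞 K} (hpos : ∀ w : InfinitePlace K, 0 < w (a : K)) :
    Real.log (an K a) = ∑ w : InfinitePlace K, (w.mult : ℝ) * Real.log (w (a : K)) := by
  rw [an_eq, Real.log_prod]
  · apply Finset.sum_congr rfl
    intro w _
    rw [Real.log_pow]
  · intro w _
    exact pow_ne_zero _ (hpos w).ne'

lemma exp_diff (u v B : ℝ) (hu : Real.exp u ≤ B) (hv : Real.exp v ≤ B) :
    |Real.exp u - Real.exp v| ≤ B * |u - v| := by
  have hB : 0 ≤ B := (Real.exp_pos u).le.trans hu
  have key : ∀ x y : ℝ, Real.exp x ≤ B → Real.exp x - Real.exp y ≤ B * |x - y| := by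
    intro x y hx
    have h1 : Real.exp y = Real.exp x * Real.exp (y - x) := by
      rw [← Real.exp_add]; congr 1; ring
    have h2 := Real.add_one_le_exp (y - x)
    have h3 := Real.exp_pos x
    have h4 : Real.exp x - Real.exp y ≤ Real.exp x * (x - y) := by
      rw [h1]; nlinarith
    calc Real.exp x - Real.exp y ≤ Real.exp x * (x - y) := h4
      _ ≤ Real.exp x * |x - y| := by gcongr; exact le_abs_self _
      _ ≤ B * |x - y| := by gcongr
  rw [abs_le]
  constructor
  · have := key v u hv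
    rw [abs_sub_comm] at this
    linarith
  · exact key u v hu

end LIP

open LIP

theorem m_LIP : Stmt_CONE → Stmt_LLIP → Stmt_LIP := by
  intro hC hL K _ _ r
  obtain ⟨c₀, hc₀, hcone⟩ := hC K
  obtain ⟨CL, hCL, hlip⟩ := hL K
  obtain ⟨c, hc⟩ : ∃ c, c = min c₀ 1 := ⟨_, rfl⟩
  have hcpos : 0 < c := by rw [hc]; exact lt_min hc₀ one_pos
  have hc1 : c ≤ 1 := by rw [hc]; exact min_le_right _ _
  have hcc : c ≤ c₀ := by rw [hc]; exact min_le_left _ _
  obtain ⟨R, hR⟩ : ∃ R, R = nr K r := ⟨_, rfl⟩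
  have hR0 : 0 ≤ R := by rw [hR]; exact nr_nonneg r
  obtain ⟨d, hd⟩ : ∃ d : ℕ, d = Module.finrank ℚ K := ⟨_, rfl⟩
  obtain ⟨B, hB⟩ : ∃ B, B = 4 * (R + 1) / c := ⟨_, rfl⟩
  have hBR : 4 * (R + 1) ≤ B := by
    rw [hB, le_div_iff₀ hcpos]
    nlinarith
  have hB0 : 0 ≤ B := by linarith
  have hmult : ∑ w : InfinitePlace K, w.mult = d := by
    rw [hd]; exact InfinitePlace.sum_mult_eq
  refine ⟨(1 + B) ^ (d + 1) + (CL + 2 * d) * R * (8 / c) ^ (d + 1), by positivity, ?_⟩
  intro s a hs1 hs2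
  have hexp : (-((Module.finrank ℚ K : ℝ) + 1)) = -((d + 1 : ℕ) : ℝ) := by
    rw [hd]; push_cast; ring
  have hsz : 1 ≤ sz K a := by
    unfold sz
    have := nr_nonneg (K := K) a
    linarith
  have hsz0 : 0 < sz K a := by linarith
  rw [hexp, Real.rpow_neg hsz0.le, Real.rpow_natCast]
  have hszp : 0 < sz K a ^ (d + 1) := by positivity
  rw [← div_eq_mul_inv, le_div_iff₀ hszp]
  by_cases hsmall : nr K a ≤ B
  · have h1 := fs_mem (a + r) hs1
    have h2 := fs_mem a hs1
    have h3 : |fs K s (a + r) - fs K s a| ≤ 1 := by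
      rw [abs_le]; constructor <;> linarith [h1.1, h1.2, h2.1, h2.2]
    have h4 : sz K a ^ (d + 1) ≤ (1 + B) ^ (d + 1) := by
      apply pow_le_pow_left₀ hsz0.le
      unfold sz; linarith
    calc |fs K s (a + r) - fs K s a| * sz K a ^ (d + 1) ≤ 1 * (1 + B) ^ (d + 1) :=
          mul_le_mul h3 h4 hszp.le zero_le_one
      _ ≤ _ := by
        rw [one_mul]
        have : 0 ≤ (CL + 2 * d) * R * (8 / c) ^ (d + 1) := by positivity
        linarith
  push Not at hsmall
  have ha : a ≠ 0 := by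
    intro h
    rw [h, nr_zero] at hsmall
    linarith
  have har : a + r ≠ 0 := by
    intro h
    have h1 : a = -r := eq_neg_of_add_eq_zero_left h
    rw [h1, nr_neg, ← hR] at hsmall
    linarith
  by_cases hrho : rho K a = 0 ∧ rho K (a + r) = 0
  · have : fs K s (a + r) - fs K s a = 0 := by
      unfold fs
      rw [hrho.1, hrho.2]; ring
    rw [this, abs_zero, zero_mul]
    positivity
  obtain ⟨m, hm⟩ : ∃ m, m = c * nr K a / 4 := ⟨_, rfl⟩
  have hm1 : R + 1 ≤ m := by
    rw [hm, le_div_iff₀ (by norm_num : (0 : ℝ) < 4)]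
    have : c * B ≤ c * nr K a := by gcongr
    have h2 : c * B = 4 * (R + 1) := by rw [hB]; field_simp
    linarith
  have hm0 : 0 < m := by linarith
  have hm11 : 1 ≤ m := by linarith
  have hwr : ∀ w : InfinitePlace K, w (r : K) ≤ R := fun w => by rw [hR]; exact le_nr r w
  have hwdiff : ∀ w : InfinitePlace K, |w ((a + r : 𝓞 K) : K) - w (a : K)| ≤ R := by
    intro w
    have e1 : ((a + r : 𝓞 K) : K) = (a : K) + (r : K) := by push_cast; rfl
    have h1 : w ((a + r : 𝓞 K) : K) ≤ w (a : K) + w (r : K) := by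
      rw [e1]; exact AbsoluteValue.add_le w.1 _ _
    have h2 : w (a : K) ≤ w ((a + r : 𝓞 K) : K) + w (r : K) := by
      have h3 : (a : K) = ((a + r : 𝓞 K) : K) + (-(r : K)) := by rw [e1]; ring
      have h4 : w (a : K) ≤ w ((a + r : 𝓞 K) : K) + w (-(r : K)) := by
        conv_lhs => rw [h3]
        exact AbsoluteValue.add_le w.1 _ _
      have h5 : w (-(r : K)) = w (r : K) := AbsoluteValue.map_neg w.1 _
      rwa [h5] at h4
    have h3 := hwr w
    rw [abs_le]
    constructor <;> linarith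
  have hboth : (∀ w : InfinitePlace K, m ≤ w (a : K)) ∧
      (∀ w : InfinitePlace K, m ≤ w ((a + r : 𝓞 K) : K)) := by
    have hnr : nr K a ≤ nr K (a + r) + R := by
      have h1 := nr_add_le (a + r) (-r)
      rw [nr_neg, ← hR] at h1
      have h2 : a + r + -r = a := by ring
      rwa [h2] at h1
    by_cases h0 : rho K a = 0
    · have h1 : rho K (a + r) ≠ 0 := fun h => hrho ⟨h0, h⟩
      have h2 := hcone (a + r) har h1
      have h3 : ∀ w : InfinitePlace K, 2 * m - c * R + 2 * m ≤ w ((a + r : 𝓞 K) : K) := by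
        intro w
        have h4 := h2 w
        have h5 : c * nr K (a + r) ≤ c₀ * nr K (a + r) := by
          gcongr; exact nr_nonneg _
        have h6 : c * nr K a ≤ c * (nr K (a + r) + R) := by gcongr
        have h7 : c * nr K a = 4 * m := by rw [hm]; ring
        nlinarith
      have h8 : c * R ≤ R := by nlinarith
      refine ⟨fun w => ?_, fun w => ?_⟩
      · have h4 := h3 w
        have h5 := (abs_le.mp (hwdiff w)).2
        linarith
      · have h4 := h3 w
        linarith
    · have h2 := hcone a ha h0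
      have h3 : ∀ w : InfinitePlace K, 4 * m ≤ w (a : K) := by
        intro w
        have h4 := h2 w
        have h5 : c * nr K a ≤ c₀ * nr K a := by gcongr; exact nr_nonneg _
        have h7 : c * nr K a = 4 * m := by rw [hm]; ring
        linarith
      refine ⟨fun w => ?_, fun w => ?_⟩
      · have h4 := h3 w
        linarith
      · have h4 := h3 w
        have h5 := (abs_le.mp (hwdiff w)).1
        linarith
  obtain ⟨hwa, hwar⟩ := hboth
  obtain ⟨t, ht⟩ : ∃ t, t = R / m := ⟨_, rfl⟩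
  have ht0 : 0 ≤ t := by rw [ht]; positivity
  have hlog : ∀ w : InfinitePlace K,
      |Real.log (w ((a + r : 𝓞 K) : K)) - Real.log (w (a : K))| ≤ t := by
    intro w
    rw [ht]
    exact log_diff hm0 (hwa w) (hwar w) (hwdiff w)
  have hrl := hlip a (a + r) t ha har ht0 hlog
  -- the norms
  have hla := log_an (a := a) (fun w => lt_of_lt_of_le hm0 (hwa w))
  have hlb := log_an (a := a + r) (fun w => lt_of_lt_of_le hm0 (hwar w))
  have hanle : ∀ b : 𝓞 K, (∀ w : InfinitePlace K, m ≤ w (b : K)) → m ^ d ≤ an K b := by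
    intro b hb
    rw [an_eq, ← hmult, ← Finset.prod_pow_eq_pow_sum]
    apply Finset.prod_le_prod
    · intro w _; positivity
    · intro w _
      exact pow_le_pow_left₀ hm0.le (hb w) _
  have hmd : 1 ≤ m ^ d := one_le_pow₀ hm11
  have hexpform : ∀ b : 𝓞 K, 0 < an K b → an K b ^ (-s) = Real.exp (-s * Real.log (an K b)) := by
    intro b hb
    rw [Real.rpow_def_of_pos hb]; congr 1; ring
  have hpa : m ^ d ≤ an K a := hanle a hwa
  have hpb : m ^ d ≤ an K (a + r) := hanle (a + r) hwar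
  have hbound : ∀ b : 𝓞 K, m ^ d ≤ an K b → an K b ^ (-s) ≤ (m ^ d)⁻¹ := by
    intro b hb
    have h0 : 1 ≤ an K b := hmd.trans hb
    calc an K b ^ (-s) ≤ an K b ^ (-1 : ℝ) :=
          Real.rpow_le_rpow_of_exponent_le h0 (by linarith)
      _ = (an K b)⁻¹ := Real.rpow_neg_one _
      _ ≤ (m ^ d)⁻¹ := inv_anti₀ (by positivity) hb
  have hlogdiff : |Real.log (an K (a + r)) - Real.log (an K a)| ≤ d * t := by
    rw [hla, hlb, ← Finset.sum_sub_distrib]
    calc |∑ w : InfinitePlace K, ((w.mult : ℝ) * Real.log (w ((a + r : 𝓞 K) : K)) -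
          (w.mult : ℝ) * Real.log (w (a : K)))|
        ≤ ∑ w : InfinitePlace K, |(w.mult : ℝ) * Real.log (w ((a + r : 𝓞 K) : K)) -
          (w.mult : ℝ) * Real.log (w (a : K))| := Finset.abs_sum_le_sum_abs _ _
      _ ≤ ∑ w : InfinitePlace K, (w.mult : ℝ) * t := by
        apply Finset.sum_le_sum
        intro w _
        rw [← mul_sub, abs_mul, Nat.abs_cast]
        exact mul_le_mul_of_nonneg_left (hlog w) (Nat.cast_nonneg _)
      _ = d * t := by
        rw [← Finset.sum_mul, ← hmult]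
        push_cast
        rfl
  have hXY : |an K (a + r) ^ (-s) - an K a ^ (-s)| ≤ (m ^ d)⁻¹ * (2 * d * t) := by
    have hpa0 : 0 < an K a := by linarith
    have hpb0 : 0 < an K (a + r) := by linarith
    have h1 := hbound a hpa
    have h2 := hbound (a + r) hpb
    rw [hexpform a hpa0] at h1 ⊢
    rw [hexpform (a + r) hpb0] at h2 ⊢
    refine (exp_diff _ _ _ h2 h1).trans ?_
    gcongr
    rw [← mul_sub, abs_mul, abs_neg, abs_of_nonneg (by linarith : (0 : ℝ) ≤ s)]
    calc s * |Real.log (an K (a + r)) - Real.log (an K a)| ≤ 2 * (d * t) := by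
          apply mul_le_mul hs2 hlogdiff (abs_nonneg _) (by norm_num)
      _ = 2 * d * t := by ring
  have hfin : |fs K s (a + r) - fs K s a| ≤ (CL + 2 * d) * R * (m ^ (d + 1))⁻¹ := by
    have e1 : fs K s (a + r) - fs K s a =
        (rho K (a + r) - rho K a) * an K (a + r) ^ (-s) +
          rho K a * (an K (a + r) ^ (-s) - an K a ^ (-s)) := by
      unfold fs; ring
    have h0 : 0 ≤ an K (a + r) ^ (-s) := Real.rpow_nonneg (by linarith) _
    calc |fs K s (a + r) - fs K s a|
        ≤ |(rho K (a + r) - rho K a) * an K (a + r) ^ (-s)| +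
          |rho K a * (an K (a + r) ^ (-s) - an K a ^ (-s))| := by
          rw [e1]; exact abs_add_le _ _
      _ ≤ (CL * t) * (m ^ d)⁻¹ + 1 * ((m ^ d)⁻¹ * (2 * d * t)) := by
        apply add_le_add
        · rw [abs_mul, abs_of_nonneg h0]
          exact mul_le_mul hrl (hbound (a + r) hpb) h0 (by positivity)
        · rw [abs_mul, abs_of_nonneg (rho_nonneg a)]
          exact mul_le_mul (rho_le_one a) hXY (abs_nonneg _) zero_le_one
      _ = (CL + 2 * d) * R * (m ^ (d + 1))⁻¹ := by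
        rw [ht, pow_succ]
        field_simp
  have hmsz : sz K a ≤ 8 / c * m := by
    rw [hm]
    have h1 : (8 / c) * (c * nr K a / 4) = 2 * nr K a := by
      rw [div_mul_div_comm, mul_comm c 4, mul_comm c (nr K a), ← mul_assoc,
        mul_div_mul_right _ _ hcpos.ne']
      ring
    rw [h1]
    unfold sz
    have : 1 ≤ nr K a := by linarith
    linarith
  have hpow : sz K a ^ (d + 1) ≤ (8 / c) ^ (d + 1) * m ^ (d + 1) := by
    rw [← mul_pow]
    exact pow_le_pow_left₀ hsz0.le hmsz _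
  have hmpos : 0 < m ^ (d + 1) := by positivity
  calc |fs K s (a + r) - fs K s a| * sz K a ^ (d + 1)
      ≤ ((CL + 2 * d) * R * (m ^ (d + 1))⁻¹) * ((8 / c) ^ (d + 1) * m ^ (d + 1)) :=
        mul_le_mul hfin hpow hszp.le (by positivity)
    _ = (CL + 2 * d) * R * (8 / c) ^ (d + 1) := by
      field_simp
    _ ≤ _ := by
      have : 0 ≤ (1 + B) ^ (d + 1) := by positivity
      linarith

end Pool.Agent.MU3
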