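import Pool.Agent.MU3.StD

/-!
# MU3, block D: Lipschitz estimate of the coordinates
-/

open NumberField IsDedekindDomain Ideal Filter Topology
open NumberField.Units NumberField.mixedEmbedding NumberField.Units.dirichletUnitTheorem
open scoped nonZeroDivisors

namespace Pool.Agent.MU3

namespace LLIP

theorem tent_nonneg (y : ℝ) : 0 ≤ tent y := le_max_left _ _

theorem tent_le_one (y : ℝ) : tent y ≤ 1 := max_le zero_le_one (by linarith [abs_nonneg y])

theorem tent_lip (y y' : ℝ) : |tent y - tent y'| ≤ |y - y'| := by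
  unfold tent
  have h1 := abs_max_sub_max_le_abs (1 - |y|) (1 - |y'|) 0
  rw [max_comm, max_comm 0 (1 - |y'|)]
  refine h1.trans ?_
  have e : (1 - |y|) - (1 - |y'|) = |y'| - |y| := by ring
  rw [e, abs_sub_comm y y']
  exact abs_abs_sub_abs_le _ _

theorem prod_lip {ι : Type*} (s : Finset ι) (f g : ι → ℝ) (hf0 : ∀ i, 0 ≤ f i) (hf1 : ∀ i, f i ≤ 1)
    (hg0 : ∀ i, 0 ≤ g i) (hg1 : ∀ i, g i ≤ 1) :
    |∏ i ∈ s, f i - ∏ i ∈ s, g i| ≤ ∑ i ∈ s, |f i - g i| := by
  classical
  induction s using Finset.induction_on with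
  | empty => simp
  | insert a s ha ih =>
    rw [Finset.prod_insert ha, Finset.prod_insert ha, Finset.sum_insert ha]
    have e : f a * ∏ i ∈ s, f i - g a * ∏ i ∈ s, g i =
        (f a - g a) * ∏ i ∈ s, f i + g a * (∏ i ∈ s, f i - ∏ i ∈ s, g i) := by ring
    rw [e]
    refine (abs_add_le _ _).trans (add_le_add ?_ ?_)
    · rw [abs_mul]
      have h0 : 0 ≤ ∏ i ∈ s, f i := Finset.prod_nonneg fun i _ => hf0 i
      have h1 : ∏ i ∈ s, f i ≤ 1 := Finset.prod_le_one (fun i _ => hf0 i) fun i _ => hf1 i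
      rw [abs_of_nonneg h0]
      exact mul_le_of_le_one_right (abs_nonneg _) h1
    · rw [abs_mul, abs_of_nonneg (hg0 a)]
      exact (mul_le_of_le_one_left (abs_nonneg _) (hg1 a)).trans ih

end LLIP

open LLIP in
open scoped Classical in
theorem m_LLIP : Stmt_LLIP := by
  intro K _ _
  set B := (basisUnitLattice K).ofZLatticeBasis ℝ (unitLattice K) with hB
  let φ : Fin (Units.rank K) → (logSpace K →L[ℝ] ℝ) := fun i =>
    LinearMap.toContinuousLinearMap (B.coord i)
  set d : ℝ := (Module.finrank ℚ K : ℝ) with hd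
  have hd0 : 0 < d := by
    rw [hd]; exact_mod_cast Module.finrank_pos
  refine ⟨∑ i, ‖φ i‖ * 4, Finset.sum_nonneg fun i _ => by positivity, ?_⟩
  intro a b t ha hb ht hw
  have hlc : ∀ (c : 𝓞 K) (i : Fin (Units.rank K)), lc K c i = φ i (logMap (mixedEmbedding K (c : K))) :=
    fun c i => rfl
  have hN : ∀ c : 𝓞 K, c ≠ 0 → Real.log (mixedEmbedding.norm (mixedEmbedding K (c : K))) =
      ∑ w : InfinitePlace K, (w.mult : ℝ) * Real.log (w (c : K)) := by
    intro c hc
    have hc' : (c : K) ≠ 0 := by exact_mod_cast hc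
    rw [mixedEmbedding.norm_apply, Real.log_prod]
    · refine Finset.sum_congr rfl fun w _ => ?_
      rw [Real.log_pow, normAtPlace_apply]
    · intro w _
      rw [normAtPlace_apply]
      exact pow_ne_zero _ ((map_ne_zero _).2 hc')
  have hmult : ∑ w : InfinitePlace K, (w.mult : ℝ) = d := by
    rw [hd, ← InfinitePlace.sum_mult_eq]
    push_cast
    rfl
  have hNd : |Real.log (mixedEmbedding.norm (mixedEmbedding K (b : K))) -
      Real.log (mixedEmbedding.norm (mixedEmbedding K (a : K)))| ≤ d * t := by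
    rw [hN a ha, hN b hb, ← Finset.sum_sub_distrib, ← hmult, Finset.sum_mul]
    refine (Finset.abs_sum_le_sum_abs _ _).trans (Finset.sum_le_sum fun w _ => ?_)
    rw [← mul_sub, abs_mul, abs_of_nonneg (Nat.cast_nonneg _)]
    exact mul_le_mul_of_nonneg_left (hw w) (Nat.cast_nonneg _)
  have hlog : ‖logMap (mixedEmbedding K (b : K)) - logMap (mixedEmbedding K (a : K))‖ ≤ 4 * t := by
    rw [pi_norm_le_iff_of_nonneg (by positivity)]
    intro w
    rw [Pi.sub_apply, logMap_apply, logMap_apply, normAtPlace_apply, normAtPlace_apply, ← mul_sub,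
      Real.norm_eq_abs, abs_mul, abs_of_nonneg (Nat.cast_nonneg _)]
    have hm : (w.1.mult : ℝ) ≤ 2 := by
      have : w.1.mult ≤ 2 := by
        unfold InfinitePlace.mult
        split_ifs <;> norm_num
      exact_mod_cast this
    have h1 : |Real.log (w.1 (b : K)) -
        Real.log (mixedEmbedding.norm (mixedEmbedding K (b : K))) * (Module.finrank ℚ K : ℝ)⁻¹ -
        (Real.log (w.1 (a : K)) -
        Real.log (mixedEmbedding.norm (mixedEmbedding K (a : K))) * (Module.finrank ℚ K : ℝ)⁻¹)| ≤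
        2 * t := by
      have e : Real.log (w.1 (b : K)) -
        Real.log (mixedEmbedding.norm (mixedEmbedding K (b : K))) * (Module.finrank ℚ K : ℝ)⁻¹ -
        (Real.log (w.1 (a : K)) -
        Real.log (mixedEmbedding.norm (mixedEmbedding K (a : K))) * (Module.finrank ℚ K : ℝ)⁻¹) =
        (Real.log (w.1 (b : K)) - Real.log (w.1 (a : K))) -
        (Real.log (mixedEmbedding.norm (mixedEmbedding K (b : K))) -
        Real.log (mixedEmbedding.norm (mixedEmbedding K (a : K)))) * (Module.finrank ℚ K : ℝ)⁻¹ := by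
        ring
      rw [e]
      refine (abs_sub _ _).trans ?_
      have h2 := hw w.1
      have h3 : |(Real.log (mixedEmbedding.norm (mixedEmbedding K (b : K))) -
        Real.log (mixedEmbedding.norm (mixedEmbedding K (a : K)))) *
          (Module.finrank ℚ K : ℝ)⁻¹| ≤ t := by
        rw [abs_mul, abs_of_nonneg (inv_nonneg.2 hd0.le), ← div_eq_mul_inv, div_le_iff₀ hd0]
        linarith [mul_comm d t]
      linarith
    calc (w.1.mult : ℝ) * _ ≤ 2 * (2 * t) :=
          mul_le_mul hm h1 (abs_nonneg _) (by norm_num)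
      _ = 4 * t := by ring
  unfold rho
  refine (prod_lip _ _ _ (fun i => tent_nonneg _) (fun i => tent_le_one _)
    (fun i => tent_nonneg _) (fun i => tent_le_one _)).trans ?_
  rw [Finset.sum_mul]
  refine Finset.sum_le_sum fun i _ => ?_
  refine (tent_lip _ _).trans ?_
  rw [hlc, hlc, ← map_sub]
  refine ((φ i).le_opNorm _).trans ?_
  rw [mul_assoc]
  exact mul_le_mul_of_nonneg_left hlog (norm_nonneg _)

end Pool.Agent.MU3
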