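import Pool.Agent.MU3.StD2

/-!
# MU3, block D, module NSP
-/

open NumberField IsDedekindDomain Ideal Filter Topology Asymptotics
open scoped nonZeroDivisors

namespace Pool.Agent.MU3

open Pool.Agent.Lib_helper28.FROB

namespace NSP

lemma tsum_ind_le {L : Type} [Field L] [NumberField L] (A B : Set (HeightOneSpectrum (𝓞 L)))
    (h : A ⊆ B) {s : ℝ} (hs : 1 < s) :
    ∑' v, Set.indicator A (x s) v ≤ ∑' v, Set.indicator B (x s) v := by
  refine Summable.tsum_le_tsum (fun v => ?_) ((summable_x hs).indicator A)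
    ((summable_x hs).indicator B)
  exact Set.indicator_le_indicator_of_subset h (fun v => (x_pos s v).le) v

lemma fin_bound {L : Type} [Field L] [NumberField L] (S : Set (HeightOneSpectrum (𝓞 L)))
    (hS : S.Finite) : ∃ C : ℝ, ∀ s : ℝ, 1 < s → ∑' v, Set.indicator S (x s) v ≤ C := by
  classical
  refine ⟨hS.toFinset.card, fun s hs => ?_⟩
  rw [tsum_eq_sum (s := hS.toFinset)]
  · refine (Finset.sum_le_card_nsmul _ _ 1 fun v _ => ?_).trans (by simp)
    unfold Set.indicator
    split_ifs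
    · have := x_le hs.le v
      linarith
    · norm_num
  · intro v hv
    rw [Set.indicator_of_notMem]
    simpa using hv

lemma lambda_tendsto : Tendsto (fun s : ℝ => Real.log (1 / (s - 1))) (𝓝[>] 1) atTop := by
  refine Real.tendsto_log_atTop.comp ?_
  simp_rw [one_div]
  refine Filter.Tendsto.inv_tendsto_nhdsGT_zero ?_
  have h1 : Tendsto (fun s : ℝ => s - 1) (𝓝[>] 1) (𝓝 (1 - 1)) :=
    ((continuous_id.sub continuous_const).tendsto 1).mono_left nhdsWithin_le_nhds
  rw [sub_self] at h1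
  refine tendsto_nhdsWithin_iff.mpr ⟨h1, ?_⟩
  filter_upwards [self_mem_nhdsWithin] with s hs
  exact sub_pos.mpr (Set.mem_Ioi.mp hs)

end NSP

theorem m_NSP : Stmt_SPLS → Stmt_DEG2 → Stmt_NSP := by
  intro hS hD L M _ _ _ _ _ m S hfin hspl
  by_contra hm
  have hm2 : (2 : ℝ) ≤ m := by
    exact_mod_cast (by omega : 2 ≤ m)
  let B : Set (HeightOneSpectrum (𝓞 L)) := {v | v ∉ S ∧ (absNorm v.asIdeal).Prime}
  let B₂ : Set (HeightOneSpectrum (𝓞 L)) := {v | ¬ (absNorm v.asIdeal).Prime}
  obtain ⟨C₁, h1⟩ := hS L M m B (fun v hv => hspl v hv.1 hv.2)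
  obtain ⟨C₂, h2⟩ := hD L B₂ (fun v hv => hv)
  obtain ⟨C₃, h3⟩ := NSP.fin_bound S hfin
  have h4 := (isBigO_sum L).bound
  obtain ⟨C₄, h4⟩ := h4
  have hΛ := NSP.lambda_tendsto.eventually (eventually_gt_atTop
    (C₁ + m * (C₂ + C₃ + C₄)))
  have hΛ' := NSP.lambda_tendsto.eventually (eventually_gt_atTop 0)
  have hev : ∀ᶠ s : ℝ in 𝓝[>] 1, False := by
    filter_upwards [h1, h4, hΛ, hΛ', self_mem_nhdsWithin] with s hs1 hs4 hsΛ hΛ0 hs
    have hs' : (1 : ℝ) < s := hs
    rw [norm_one, mul_one, Real.norm_eq_abs] at hs4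
    have h5 := neg_abs_le (∑' v : HeightOneSpectrum (𝓞 L), x s v - Real.log (1 / (s - 1)))
    have h6 : ∑' v : HeightOneSpectrum (𝓞 L), x s v ≤
        ∑' v, Set.indicator B (x s) v + ∑' v, Set.indicator B₂ (x s) v +
          ∑' v, Set.indicator S (x s) v := by
      have e1 := (summable_x (K := L) hs').indicator B
      have e2 := (summable_x (K := L) hs').indicator B₂
      have e3 := (summable_x (K := L) hs').indicator S
      rw [← e1.tsum_add e2, ← (e1.add e2).tsum_add e3]
      refine (summable_x hs').tsum_le_tsum (fun v => ?_) ((e1.add e2).add e3)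
      have hx := x_pos s v
      have i1 : 0 ≤ Set.indicator B (x s) v := Set.indicator_nonneg (fun v _ => (x_pos s v).le) v
      have i2 : 0 ≤ Set.indicator B₂ (x s) v := Set.indicator_nonneg (fun v _ => (x_pos s v).le) v
      have i3 : 0 ≤ Set.indicator S (x s) v := Set.indicator_nonneg (fun v _ => (x_pos s v).le) v
      by_cases hv : v ∈ S
      · rw [Set.indicator_of_mem hv]
        linarith
      · by_cases hv2 : (absNorm v.asIdeal).Prime
        · rw [Set.indicator_of_mem (show v ∈ B from ⟨hv, hv2⟩)]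
          linarith
        · rw [Set.indicator_of_mem (show v ∈ B₂ from hv2)]
          linarith
    have h7 := h2 s hs'
    have h8 := h3 s hs'
    have h9 : Real.log (1 / (s - 1)) - C₄ ≤
        ∑' v, Set.indicator B (x s) v + C₂ + C₃ := by linarith
    have h10 : (m : ℝ) * (Real.log (1 / (s - 1)) - C₄ - C₂ - C₃) ≤
        Real.log (1 / (s - 1)) + C₁ :=
      (mul_le_mul_of_nonneg_left (by linarith) (by linarith)).trans hs1
    have h11 : 1 * Real.log (1 / (s - 1)) ≤ ((m : ℝ) - 1) * Real.log (1 / (s - 1)) :=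
      mul_le_mul_of_nonneg_right (by linarith) hΛ0.le
    linarith [mul_sub (m : ℝ) (Real.log (1 / (s - 1)) - C₄ - C₂) C₃,
      mul_sub (m : ℝ) (Real.log (1 / (s - 1)) - C₄) C₂, mul_sub (m : ℝ) (Real.log (1 / (s - 1))) C₄,
      mul_add (m : ℝ) (C₂ + C₃) C₄, mul_add (m : ℝ) C₂ C₃, sub_mul (m : ℝ) 1 (Real.log (1 / (s - 1)))]
  exact (hev.exists).choose_spec

end Pool.Agent.MU3
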