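import Pool.Agent.MU3.StD

/-!
# MU3, block D, module SPLS
-/

open NumberField IsDedekindDomain Ideal Filter Topology Asymptotics
open scoped nonZeroDivisors

namespace Pool.Agent.MU3

open Pool.Agent.Lib_helper28.FROB

namespace SPLS

/-- `m` primes above `v` of the same norm. -/
lemma exists_inj {L M : Type} [Field L] [NumberField L] [Field M] [NumberField M]
    [Algebra L M] {m : ℕ} {v : HeightOneSpectrum (𝓞 L)} (h : m ≤ spl L M v) :
    ∃ f : Fin m → {w : HeightOneSpectrum (𝓞 M) //
      w.asIdeal.under (𝓞 L) = v.asIdeal ∧ absNorm w.asIdeal = absNorm v.asIdeal},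
      Function.Injective f := by
  unfold spl at h
  rcases Nat.eq_zero_or_pos m with rfl | hm
  · exact ⟨Fin.elim0, fun i => i.elim0⟩
  · have hfin : Finite {w : HeightOneSpectrum (𝓞 M) //
      w.asIdeal.under (𝓞 L) = v.asIdeal ∧ absNorm w.asIdeal = absNorm v.asIdeal} :=
      Nat.finite_of_card_ne_zero (by omega)
    have := Fintype.ofFinite {w : HeightOneSpectrum (𝓞 M) //
      w.asIdeal.under (𝓞 L) = v.asIdeal ∧ absNorm w.asIdeal = absNorm v.asIdeal}
    rw [Nat.card_eq_fintype_card] at h
    obtain ⟨e⟩ := Function.Embedding.nonempty_of_card_le (α := Fin m) (by simpa using h)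
    exact ⟨e, e.injective⟩

end SPLS

theorem m_SPLS : Stmt_SPLS := by
  classical
  intro L M _ _ _ _ _ m B hB
  obtain ⟨C, hC⟩ := (isBigO_sum M).bound
  choose f hf using fun v : B => SPLS.exists_inj (hB v.1 v.2)
  let g : B × Fin m → HeightOneSpectrum (𝓞 M) := fun p => (f p.1 p.2).1
  have hg : Function.Injective g := by
    rintro ⟨v, i⟩ ⟨v', i'⟩ h
    have h' : (f v i).1 = (f v' i').1 := h
    have hv : v = v' := by
      apply Subtype.ext
      apply HeightOneSpectrum.ext
      rw [← (f v i).2.1, ← (f v' i').2.1, h']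
    subst hv
    have : i = i' := hf v (Subtype.ext h')
    rw [this]
  refine ⟨C, ?_⟩
  filter_upwards [hC, self_mem_nhdsWithin] with s hsC hs
  have hs' : (1 : ℝ) < s := hs
  rw [norm_one, mul_one, Real.norm_eq_abs] at hsC
  have h1 := le_abs_self (∑' v : HeightOneSpectrum (𝓞 M), x s v - Real.log (1 / (s - 1)))
  have hsum := summable_x (K := L) hs'
  have h2 : (m : ℝ) * ∑' v, Set.indicator B (x s) v = ∑' p : B × Fin m, x s (g p) := by
    have h3 : ∀ p : B × Fin m, x s (g p) = x s p.1.1 := by
      intro p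
      unfold x
      rw [(f p.1 p.2).2.2]
    rw [tsum_congr h3, ← tsum_subtype]
    have hs2 : Summable fun p : B × Fin m => x (K := L) s p.1.1 := by
      have h0 : Summable fun v : B => x (K := L) s v.1 := hsum.subtype B
      have h5 := h0.mul_of_nonneg (g := fun _ : Fin m => (1 : ℝ))
        (Summable.of_finite) (fun v => (x_pos s v.1).le) (fun _ => zero_le_one)
      refine h5.congr fun p => ?_
      rw [mul_one]
    rw [hs2.tsum_prod, ← tsum_mul_left]
    refine tsum_congr fun v => ?_
    simp
  have h4 : ∑' p : B × Fin m, x s (g p) ≤ ∑' w : HeightOneSpectrum (𝓞 M), x s w := by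
    refine Summable.tsum_le_tsum_of_inj g hg (fun w _ => (x_pos s w).le) (fun p => le_rfl) ?_
      (summable_x hs')
    exact (summable_x hs').comp_injective hg
  rw [h2]
  linarith

end Pool.Agent.MU3
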