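import Pool.Agent.MU3.StD

/-!
# MU3, block D: SZS, convergence of the sum over the integers of powers of the size
-/

set_option autoImplicit false

open NumberField Ideal Filter Topology
open NumberField.mixedEmbedding

namespace Pool.Agent.MU3

namespace SZS

/-- The element of the lattice given by an integer. -/
noncomputable def toL (K : Type) [Field K] [NumberField K] (a : 𝓞 K) :
    mixedEmbedding.integerLattice K :=
  ⟨mixedEmbedding K (a : K), ⟨a, rfl⟩⟩

theorem toL_injective (K : Type) [Field K] [NumberField K] : Function.Injective (toL K) := by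
  intro a b h
  have h' : mixedEmbedding K (a : K) = mixedEmbedding K (b : K) := congrArg Subtype.val h
  exact RingOfIntegers.ext (mixedEmbedding_injective K h')

open scoped Classical in
theorem finrank_lattice (K : Type) [Field K] [NumberField K] :
    Module.finrank ℤ (mixedEmbedding.integerLattice K) = Module.finrank ℚ K := by
  rw [ZLattice.rank ℝ (mixedEmbedding.integerLattice K), mixedEmbedding.finrank]

open scoped Classical in
theorem norm_toL (K : Type) [Field K] [NumberField K] (a : 𝓞 K) : ‖toL K a‖ = nr K a := by
  unfold nr toL
  exact Submodule.coe_norm _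

open scoped Classical in
theorem summable_lattice (K : Type) [Field K] [NumberField K] (t : ℝ)
    (ht : (Module.finrank ℚ K : ℝ) < t) : Summable (fun a : 𝓞 K => nr K a ^ (-t)) := by
  have h := ZLattice.summable_norm_rpow (mixedEmbedding.integerLattice K) (-t) (by
    rw [finrank_lattice]; linarith)
  have h2 := h.comp_injective (toL_injective K)
  have h3 : (fun a : 𝓞 K => nr K a ^ (-t)) =
      (fun z : mixedEmbedding.integerLattice K => ‖z‖ ^ (-t)) ∘ toL K := by
    funext a
    simp only [Function.comp_apply, norm_toL]
  rw [h3]
  exact h2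

open scoped Classical in
theorem nr_nonneg (K : Type) [Field K] [NumberField K] (a : 𝓞 K) : 0 ≤ nr K a := by
  rw [← norm_toL]
  exact norm_nonneg _

open scoped Classical in
theorem nr_pos (K : Type) [Field K] [NumberField K] (a : 𝓞 K) (ha : a ≠ 0) : 0 < nr K a := by
  rw [← norm_toL, norm_pos_iff]
  intro h0
  apply ha
  have h1 : toL K a = toL K 0 := by
    rw [h0]
    apply Subtype.ext
    simp [toL]
  exact toL_injective K h1

end SZS

open SZS in
theorem m_SZS : Stmt_SZS := by
  intro K _ _ t ht
  have h := summable_lattice K t ht
  have ht0 : 0 < t := lt_of_le_of_lt (Nat.cast_nonneg _) ht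
  refine Summable.of_norm_bounded_eventually h ?_
  refine (Set.finite_singleton (0 : 𝓞 K)).subset ?_
  intro a ha
  by_contra hne
  apply ha
  have hne' : a ≠ 0 := hne
  have hpos : 0 < nr K a := nr_pos K a hne'
  have hs : 0 < sz K a := by unfold sz; linarith
  show ‖sz K a ^ (-t)‖ ≤ nr K a ^ (-t)
  rw [Real.norm_of_nonneg (Real.rpow_nonneg hs.le _)]
  exact Real.rpow_le_rpow_of_nonpos hpos (by unfold sz; linarith) (by linarith)

end Pool.Agent.MU3
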