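import Pool.Agent.MU3.StD

/-!
# MU3, block D, module ZCL
-/

open NumberField IsDedekindDomain Ideal Filter Topology
open NumberField.Units
open scoped nonZeroDivisors

namespace Pool.Agent.MU3

open Pool.Agent.Lib_helper28.FROB

namespace ZCL

lemma iN_nonneg (K : Type) [Field K] [NumberField K] (s : ℝ) (I : (Ideal (𝓞 K))⁰) :
    0 ≤ iN K s I := by
  unfold iN
  positivity

/-- The partial zeta function of a class. -/
noncomputable def T (K : Type) [Field K] [NumberField K] (c : ClassGroup (𝓞 K)) (s : ℝ) : ℝ :=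
  ∑' I : {I : (Ideal (𝓞 K))⁰ // ClassGroup.mk0 I = c}, iN K s I.1

lemma T_nonneg (K : Type) [Field K] [NumberField K] (c : ClassGroup (𝓞 K)) (s : ℝ) :
    0 ≤ T K c s := tsum_nonneg fun I => iN_nonneg K s I.1

lemma key (hCLS : Stmt_CLS) (hCMP : Stmt_CMP) (hI : Stmt_ISUM) (K : Type) [Field K]
    [NumberField K] (c : ClassGroup (𝓞 K)) : ∃ C : ℝ, ∀ᶠ s : ℝ in 𝓝[>] 1,
      |(torsionOrder K : ℝ) * T K c s - ∑' a : 𝓞 K, fs K s a| ≤ C := by
  obtain ⟨b, hb⟩ := ClassGroup.mk0_surjective (c⁻¹)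
  have hb0 : (b : Ideal (𝓞 K)) ≠ ⊥ := nonZeroDivisors.coe_ne_zero b
  obtain ⟨C₁, h1⟩ := hCMP K b hb0
  obtain ⟨hs1, C₂, h2⟩ := hI K
  set n : ℝ := (absNorm (b : Ideal (𝓞 K)) : ℝ) with hn
  have hn1 : 1 ≤ n := by
    have : absNorm (b : Ideal (𝓞 K)) ≠ 0 := absNorm_eq_zero_iff.not.mpr hb0
    rw [hn]
    exact Nat.one_le_cast.mpr (Nat.one_le_iff_ne_zero.mpr this)
  have hn0 : 0 < n := by linarith
  have hw : (0 : ℝ) ≤ torsionOrder K := Nat.cast_nonneg _
  refine ⟨C₁ + torsionOrder K * (Real.log n * C₂), ?_⟩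
  have hlt2 : ∀ᶠ s : ℝ in 𝓝[>] 1, s ≤ 2 := by
    filter_upwards [Ioo_mem_nhdsGT (show (1 : ℝ) < 2 by norm_num)] with s hs
    exact hs.2.le
  filter_upwards [h2, hlt2, self_mem_nhdsWithin] with s hs2 hle hs
  have hs' : (1 : ℝ) < s := hs
  have h3 := h1 s hs' hle
  have h4 := hCLS K c b hb s hs'
  have hT : ∑' I : {I : (Ideal (𝓞 K))⁰ // ClassGroup.mk0 I = c},
        (absNorm (I.1 : Ideal (𝓞 K)) : ℝ) ^ (-s) = T K c s := rfl
  rw [hT] at h4
  rw [← h4] at h3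
  have h5 : n * ((torsionOrder K : ℝ) * n ^ (-s) * T K c s) =
      (torsionOrder K : ℝ) * T K c s * n ^ (1 - s) := by
    rw [sub_eq_add_neg, Real.rpow_add hn0, Real.rpow_one]
    ring
  rw [← hn, h5] at h3
  have h6 : 1 - n ^ (1 - s) ≤ (s - 1) * Real.log n := by
    rw [Real.rpow_def_of_pos hn0]
    have := Real.add_one_le_exp (Real.log n * (1 - s))
    linarith
  have h6' : 0 ≤ 1 - n ^ (1 - s) := by
    have := Real.rpow_le_one_of_one_le_of_nonpos hn1 (show 1 - s ≤ 0 by linarith)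
    linarith
  have hTn := T_nonneg K c s
  have h7 : (s - 1) * T K c s ≤ C₂ := by
    refine le_trans (mul_le_mul_of_nonneg_left ?_ (by linarith)) hs2
    exact Summable.tsum_subtype_le (iN K s) {I | ClassGroup.mk0 I = c}
      (fun I => iN_nonneg K s I) (hs1 s hs')
  have hlog : 0 ≤ Real.log n := Real.log_nonneg hn1
  have h8 : |(torsionOrder K : ℝ) * T K c s * (1 - n ^ (1 - s))| ≤
      torsionOrder K * (Real.log n * C₂) := by
    rw [abs_of_nonneg (by positivity)]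
    calc (torsionOrder K : ℝ) * T K c s * (1 - n ^ (1 - s))
        ≤ (torsionOrder K : ℝ) * T K c s * ((s - 1) * Real.log n) :=
          mul_le_mul_of_nonneg_left h6 (by positivity)
      _ = torsionOrder K * (Real.log n * ((s - 1) * T K c s)) := by ring
      _ ≤ torsionOrder K * (Real.log n * C₂) := by gcongr
  have h9 : (torsionOrder K : ℝ) * T K c s - ∑' a : 𝓞 K, fs K s a =
      ((torsionOrder K : ℝ) * T K c s * n ^ (1 - s) - ∑' a : 𝓞 K, fs K s a) +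
        (torsionOrder K : ℝ) * T K c s * (1 - n ^ (1 - s)) := by ring
  rw [h9]
  exact (abs_add_le _ _).trans (add_le_add h3 h8)

end ZCL

theorem m_ZCL : Stmt_CLS → Stmt_CMP → Stmt_ISUM → Stmt_ZCL := by
  intro hCLS hCMP hI K _ _ c
  obtain ⟨C₁, h1⟩ := ZCL.key hCLS hCMP hI K c
  obtain ⟨C₂, h2⟩ := ZCL.key hCLS hCMP hI K 1
  have hw : (0 : ℝ) < torsionOrder K := by
    exact_mod_cast Nat.pos_of_ne_zero (torsionOrder_ne_zero K)
  refine ⟨(C₁ + C₂) / torsionOrder K, ?_⟩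
  filter_upwards [h1, h2] with s hs1 hs2
  show |ZCL.T K c s - ZCL.T K 1 s| ≤ _
  rw [le_div_iff₀ hw, ← abs_of_pos hw, ← abs_mul]
  have h3 : (ZCL.T K c s - ZCL.T K 1 s) * (torsionOrder K : ℝ) =
      ((torsionOrder K : ℝ) * ZCL.T K c s - ∑' a : 𝓞 K, fs K s a) -
        ((torsionOrder K : ℝ) * ZCL.T K 1 s - ∑' a : 𝓞 K, fs K s a) := by ring
  rw [h3]
  exact (abs_sub _ _).trans (add_le_add hs1 hs2)

end Pool.Agent.MU3
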