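import Pool.Agent.MU3.MPU
import Pool.Agent.MU3.MCONE
import Pool.Agent.MU3.MLLIP
import Pool.Agent.MU3.MLIP
import Pool.Agent.MU3.MSZS
import Pool.Agent.MU3.MFSUM
import Pool.Agent.MU3.MCMP
import Pool.Agent.MU3.MCLS
import Pool.Agent.MU3.MISUM
import Pool.Agent.MU3.MZCL
import Pool.Agent.MU3.MLBD
import Pool.Agent.MU3.MEP
import Pool.Agent.MU3.MSPLS
import Pool.Agent.MU3.MDEG2
import Pool.Agent.MU3.MDENS
import Pool.Agent.MU3.MKUM
import Pool.Agent.MU3.MTHD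
import Pool.Agent.MU3.MNSP

/-!
# MU3, block D: assembly
-/

namespace Pool.Agent.MU3

theorem finLIP : Stmt_LIP := m_LIP m_CONE m_LLIP

theorem finFSUM : Stmt_FSUM := m_FSUM m_CONE m_SZS

theorem finCMP : Stmt_CMP := m_CMP finLIP m_SZS finFSUM

theorem finCLS : Stmt_CLS := m_CLS m_PU finFSUM

theorem finZCL : Stmt_ZCL := m_ZCL finCLS finCMP m_ISUM

theorem finLBD : Stmt_LBD := m_LBD finZCL m_ISUM

theorem finEP : Stmt_EP := m_EP m_ISUM

theorem finDENS : Stmt_DENS := m_DENS finLBD finEP m_SPLS m_DEG2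

theorem finTHD : Stmt_THD := m_THD finDENS m_KUM

theorem finNSP : Stmt_NSP := m_NSP m_SPLS m_DEG2

end Pool.Agent.MU3
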