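import Pool.Agent.MU3.K1Main

/-!
# Kolyvagin's step, the theorem (helper80)

MP_b78433_nt, MU3, section 1 of PAPER_K: `KIN_thm : S_KIN`.
-/

set_option autoImplicit false

open NumberField IsDedekindDomain
open scoped nonZeroDivisors Pointwise

namespace Pool.Agent.MU3

open Pool.Agent.RI K1M

namespace KIN

section parts

variable {k L F : Type} [Field k] [NumberField k] [Field L] [NumberField L] [Field F]
  [NumberField F] [Algebra k L] [Algebra L F] [Algebra k F] [IsScalarTower k L F]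

theorem cnt_prod3 (τ : F ≃ₐ[L] F) (Y : Fˣ) (h : ∀ w : HeightOneSpectrum (𝓞 F), cnt w (τ • Y) = cnt w Y)
    (w : HeightOneSpectrum (𝓞 F)) : cnt w (∏ i ∈ Finset.range 3, τ ^ i • Y) = 3 * cnt w Y := by
  have h1 : ∀ (i : ℕ) (w : HeightOneSpectrum (𝓞 F)), cnt w (τ ^ i • Y) = cnt w Y := by
    intro i
    induction i with
    | zero =>
      intro w
      rw [pow_zero, one_smul]
    | succ i ih =>
      intro w
      rw [pow_succ', mul_smul, cnt_mv', ih, ← cnt_mv', h]
  rw [Finset.prod_range_succ, Finset.prod_range_succ, Finset.prod_range_one, cnt_mul, cnt_mul,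
    h1, h1, h1]
  ring

/-- the congruence for `g'^3 z / z` -/
theorem cong {S : Finset ℕ} {c : L} (hc0 : c ≠ 0) (hSU : SU S L c) {g : L ≃ₐ[k] L}
    {g' : F ≃ₐ[k] F} (hg' : ∀ x : L, algebraMap L F (g x) = g' (algebraMap L F x))
    {l : Ideal (𝓞 k)} {z : F} {m : ℕ}
    (hzc : ∀ w : HeightOneSpectrum (𝓞 F), w.asIdeal.under (𝓞 k) = l →
      w.valuation F (z - algebraMap L F c ^ m) < 1) {w : HeightOneSpectrum (𝓞 F)}
    (hw : w.asIdeal.under (𝓞 k) = l) (hwS : ¬ Above S w) :
    One1 (w.valuation F) ((g' z / z) / (algebraMap L F (g c) / algebraMap L F c) ^ m) := by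
  have hC : ∀ w : HeightOneSpectrum (𝓞 F), ¬ Above S w → w.valuation F (algebraMap L F c) = 1 := by
    intro w hw
    have h1 : ¬ Above S (w.under (𝓞 L)) := fun h => hw ((above_under (L := L) w (w.under (𝓞 L)) rfl).2 h)
    have h2 := (val_one_iff (w := w.under (𝓞 L)) (Units.mk0 c hc0)).1 (hSU _ h1)
    have h3 := cnt_ext w (w.under (𝓞 L)) rfl (Units.mk0 c hc0)
    rw [h2, mul_zero] at h3
    exact (val_one_iff _).2 h3
  have hone : ∀ w : HeightOneSpectrum (𝓞 F), w.asIdeal.under (𝓞 k) = l → ¬ Above S w →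
      One1 (w.valuation F) (z / algebraMap L F c ^ m) := by
    intro w h1 h2
    rw [one1_div (by rw [map_pow, hC w h2, one_pow])]
    exact hzc w h1
  have h1 := hone w hw hwS
  -- transport by `g'`
  have hw' : (mv g'⁻¹ w).asIdeal.under (𝓞 k) = l := by
    have h2 := under_mv (k := k) (L := k) g'⁻¹ 1 (fun x => (g'⁻¹.commutes x).symm) w
      (w.under (𝓞 k)) rfl
    rw [mv_one] at h2
    rw [h2]
    exact hw
  have hwS' : ¬ Above S (mv g'⁻¹ w) := fun h => hwS ((above_mv _ _).1 h)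
  have h2 := hone _ hw' hwS'
  have h3 : One1 (w.valuation F) (g' z / algebraMap L F (g c) ^ m) := by
    unfold One1 at h2 ⊢
    have h4 := val_mv g' (mv g'⁻¹ w) (z / algebraMap L F c ^ m - 1)
    rw [← mv_mul, mul_inv_cancel, mv_one, map_sub, map_div₀, map_pow, map_one, ← hg'] at h4
    rw [h4]
    exact h2
  have h4 := h3.div h1
  have e : g' z / algebraMap L F (g c) ^ m / (z / algebraMap L F c ^ m) =
      (g' z / z) / (algebraMap L F (g c) / algebraMap L F c) ^ m := by
    have c0 : algebraMap L F c ≠ 0 := (map_ne_zero _).2 hc0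
    have gc0 : algebraMap L F (g c) ≠ 0 := (map_ne_zero _).2 ((map_ne_zero _).2 hc0)
    have z0 : z ≠ 0 := by
      rintro rfl
      have := h1.ne
      rw [zero_div] at this
      exact this rfl
    rw [div_pow]
    field_simp
  rwa [e] at h4

/-- transport of the local symbol -/
theorem symbol_mv (hcomm : ∀ σ τ : F ≃ₐ[k] F, σ * τ = τ * σ) {τ : F ≃ₐ[L] F} (σ : F ≃ₐ[k] F)
    {w : HeightOneSpectrum (𝓞 F)} {a : ℤ} {s : ℤ}
    (h : ∀ y : Fˣ, One1 (w.valuation F) (((y : F) / τ (y : F)) / (a : F) ^ (s * cnt w y))) (y : Fˣ) :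
    One1 ((mv σ w).valuation F) (((y : F) / τ (y : F)) / (a : F) ^ (s * cnt (mv σ w) y)) := by
  have h1 := h (σ⁻¹ • y)
  have h2 : cnt w (σ⁻¹ • y) = cnt (mv σ w) y := by
    rw [cnt_mv', inv_inv]
  rw [h2] at h1
  unfold One1 at h1 ⊢
  rw [← val_mv σ w] at h1
  have e1 : ((σ⁻¹ • y : Fˣ) : F) = σ⁻¹ (y : F) := rfl
  have e2 : σ (σ⁻¹ (y : F)) = y := σ.apply_symm_apply _
  have e3 : σ (τ (σ⁻¹ (y : F))) = τ (y : F) := by
    have := DFunLike.congr_fun (hcomm σ (τ.restrictScalars k)) (σ⁻¹ (y : F))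
    have e4 : σ (τ (σ⁻¹ (y : F))) = τ (σ (σ⁻¹ (y : F))) := this
    rw [e4, e2]
  rw [map_sub, map_div₀, map_div₀, map_one, map_zpow₀, map_intCast, e1, e2, e3] at h1
  exact h1

end parts

end KIN

open KIN in
/-- KIN -/
theorem KIN_thm : S_KIN := by
  classical
  intro k L _ _ _ _ _ _ _ S hS3 c hc0 hSU hK g hg u hu lam q hgood a ha3 ha1 b hb
  obtain ⟨F, _, _, _, _, _, hgalF, hcomm, hdeg, hunr, hram, z, hzS, ⟨y, hy⟩, hzc⟩ :=
    hK lam q hgood
  have hgalLF : IsGalois L F := IsGalois.tower_top_of_isGalois k L F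
  have hfinLF : FiniteDimensional L F := Module.finite_of_finrank_pos (by rw [hdeg]; norm_num)
  have hcardLF : Nat.card (F ≃ₐ[L] F) = 3 := by rw [IsGalois.card_aut_eq_finrank, hdeg]
  obtain ⟨τ, hτ⟩ : ∃ τ : F ≃ₐ[L] F, τ ≠ 1 := by
    by_contra hcon
    push Not at hcon
    have : Subsingleton (F ≃ₐ[L] F) := ⟨fun a b => by rw [hcon a, hcon b]⟩
    have := Nat.card_of_subsingleton (1 : F ≃ₐ[L] F)
    omega
  -- the prime number `q`
  have hqlam : (q : 𝓞 L) ∈ lam.asIdeal := by
    have h1 := Ideal.absNorm_mem lam.asIdeal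
    rw [Ideal.absNorm_apply, Submodule.cardQuot_apply] at h1
    rw [← hgood.card]
    exact h1
  set m : ℕ := (q - 1) / 3 with hm
  set l : Ideal (𝓞 k) := lam.asIdeal.under (𝓞 k) with hl
  -- lifts of automorphisms
  have hlift : ∀ h : L ≃ₐ[k] L, ∃ σ : F ≃ₐ[k] F, ∀ x : L, algebraMap L F (h x) =
      σ (algebraMap L F x) := by
    intro h
    obtain ⟨σ, hσ⟩ := AlgEquiv.restrictNormalHom_surjective (F := k) (K₁ := L) F h
    refine ⟨σ, fun x => ?_⟩
    rw [← hσ]
    exact AlgEquiv.restrictNormal_commutes σ L x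
  obtain ⟨g', hg'⟩ := hlift g
  have hg'3 : ∀ x : L, algebraMap L F ((g ^ 3) x) = (g' ^ 3) (algebraMap L F x) := by
    intro x
    have e1 : (g ^ 3) x = g (g (g x)) := rfl
    have e2 : (g' ^ 3) (algebraMap L F x) = g' (g' (g' (algebraMap L F x))) := rfl
    rw [e1, e2, hg', hg', hg']
  -- the case `Above S lam` is trivial
  set P : J L := ∏ h : L ≃ₐ[k] L, (h • vJ lam) ^ b h with hP
  by_cases hlamS : Above S lam
  · obtain ⟨I, s, hs, hX⟩ := decomp (S := S) (X := P) (by
      intro v hv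
      have h0 : cntJ v P = 0 := by
        rw [hP, cntJ_prod]
        refine Finset.sum_eq_zero fun h _ => ?_
        rw [cntJ_pow, cntJ_smul_vJ, if_neg, mul_zero]
        rintro rfl
        exact hv ((above_mv h lam).2 hlamS)
      rw [h0]
      exact dvd_zero 3)
    exact ⟨1, I, s, hs, by rw [map_one, one_mul, hX]⟩
  -- a prime above `lam`
  obtain ⟨w0, hw0⟩ := INVI.exists_above L F lam
  have hunderk : ∀ (w : HeightOneSpectrum (𝓞 F)) (v : HeightOneSpectrum (𝓞 L)),
      w.asIdeal.under (𝓞 L) = v.asIdeal → w.asIdeal.under (𝓞 k) = v.asIdeal.under (𝓞 k) := by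
    intro w v hwv
    rw [← hwv, Ideal.under_under]
  have hw0k : w0.asIdeal.under (𝓞 k) = l := hunderk w0 lam hw0
  have hlamk : ∀ h : L ≃ₐ[k] L, (mv h lam).asIdeal.under (𝓞 k) = l := by
    intro h
    have h2 := under_mv (k := k) (L := k) (F := L) h 1 (fun x => (h.commutes x).symm) lam
      (lam.under (𝓞 k)) rfl
    rw [mv_one] at h2
    exact h2
  have hSw : ∀ w : HeightOneSpectrum (𝓞 F), w.asIdeal.under (𝓞 k) = l → ¬ Above S w := by
    intro w hw hwS
    apply hlamS
    have h1 := (above_under (L := k) w (w.under (𝓞 k)) rfl).1 hwS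
    refine (above_under (L := k) lam (lam.under (𝓞 k)) rfl).2 ?_
    have e : w.under (𝓞 k) = lam.under (𝓞 k) := by
      apply HeightOneSpectrum.ext
      exact hw
    rwa [← e]
  -- `z` is not zero
  have hz0 : z ≠ 0 := by
    rintro rfl
    have h1 := hzS w0 (hSw w0 hw0k)
    rw [map_zero] at h1
    exact zero_ne_one h1
  set zu : Fˣ := Units.mk0 z hz0 with hzu
  have hcz : ∀ w : HeightOneSpectrum (𝓞 F), ¬ Above S w → cnt w zu = 0 := by
    intro w hw
    exact (val_one_iff zu).1 (hzS w hw)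
  -- the unit `z'`
  set z' : Fˣ := g' ^ 3 • zu / zu with hz'
  have hz'cnt : ∀ w : HeightOneSpectrum (𝓞 F), cnt w z' = 0 := by
    intro w
    rw [hz', cnt_div, cnt_mv']
    by_cases hw : Above S w
    · have h1 : mv (g' ^ 3)⁻¹ w = w := by
        have h2 := fix_cube hdeg hcomm hg hg' hw
        have h3 := congrArg (mv (g' ^ 3)⁻¹) h2
        rw [← mv_mul, inv_mul_cancel, mv_one] at h3
        exact h3.symm
      rw [h1, sub_self]
    · rw [hcz w hw, hcz _ (fun h => hw ((above_mv _ _).1 h)), sub_self]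
  have hz'norm : ∏ i ∈ Finset.range 3, τ ^ i • z' = 1 := by
    have h1 := norm_aut hdeg hτ zu
    have h2 : ∀ i : ℕ, τ ^ i • (g' ^ 3 • zu) = g' ^ 3 • (τ ^ i • zu) := by
      intro i
      apply Units.ext
      have := DFunLike.congr_fun (hcomm (AlgEquiv.restrictScalars k (τ ^ i)) (g' ^ 3)) (zu : F)
      exact this
    have h3 : ∏ i ∈ Finset.range 3, τ ^ i • z' =
        (g' ^ 3 • ∏ i ∈ Finset.range 3, τ ^ i • zu) / ∏ i ∈ Finset.range 3, τ ^ i • zu := by
      rw [Finset.smul_prod', ← Finset.prod_div_distrib]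
      refine Finset.prod_congr rfl fun i _ => ?_
      rw [hz', smul_div', h2]
    rw [h3, ← h1]
    have h4 : g' ^ 3 • Units.map (algebraMap L F : L →* F)
        (Units.map (Algebra.norm L : F →* L) zu) = Units.map (algebraMap L F : L →* F)
        (Units.map (Algebra.norm L : F →* L) zu) := by
      apply Units.ext
      change (g' ^ 3) (algebraMap L F (Algebra.norm L z)) = algebraMap L F (Algebra.norm L z)
      rw [hy, ← IsScalarTower.algebraMap_apply]
      exact (g' ^ 3).commutes y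
    rw [h4, div_self']
  have : Fact (Nat.Prime 3) := ⟨Nat.prime_three⟩
  obtain ⟨Y, hY⟩ := H90_thm 3 L F τ hdeg hτ z' hz'norm
  have hYτ : ∀ w : HeightOneSpectrum (𝓞 F), cnt w (τ • Y) = cnt w Y := by
    intro w
    have h1 := hz'cnt w
    rw [hY, cnt_div] at h1
    omega
  set κ : Lˣ := Units.map (Algebra.norm L : F →* L) Y with hκ
  have hκw : ∀ (w : HeightOneSpectrum (𝓞 F)) (v : HeightOneSpectrum (𝓞 L)),
      w.asIdeal.under (𝓞 L) = v.asIdeal →
      (w.asIdeal.ramificationIdx (𝓞 L) : ℤ) * cnt v κ = 3 * cnt w Y := by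
    intro w v hwv
    rw [← cnt_ext w v hwv, hκ, norm_aut hdeg hτ, cnt_prod3 τ Y hYτ w]
  -- the integer `a`
  have hqprime := hgood.prime
  have haq : (q : ℤ) ∣ 1 + a + a ^ 2 := by
    have h1 : (q : ℤ) ∣ (a - 1) * (1 + a + a ^ 2) := by
      have e : (a - 1) * (1 + a + a ^ 2) = a ^ 3 - 1 := by ring
      rw [e]
      exact ha3
    rcases (Nat.prime_iff_prime_int.1 hqprime).dvd_or_dvd h1 with h2 | h2
    · exact absurd h2 ha1
    · exact h2
  have hqw : ∀ w : HeightOneSpectrum (𝓞 F), w.asIdeal.under (𝓞 k) = l → (q : 𝓞 F) ∈ w.asIdeal := by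
    intro w hw
    have h1 : (q : 𝓞 k) ∈ l := by
      rw [hl, Ideal.mem_comap, map_natCast]
      exact hqlam
    rw [← hw, Ideal.mem_comap, map_natCast] at h1
    exact h1
  have hva : ∀ w : HeightOneSpectrum (𝓞 F), w.asIdeal.under (𝓞 k) = l →
      w.valuation F (1 + (a : F) + (a : F) ^ 2) < 1 := by
    intro w hw
    obtain ⟨d, hd⟩ := haq
    have h1 : (((1 + a + a ^ 2 : ℤ) : 𝓞 F)) ∈ w.asIdeal := by
      rw [hd]
      push_cast
      exact w.asIdeal.mul_mem_right _ (hqw w hw)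
    have h2 := (HeightOneSpectrum.valuation_lt_one_iff_mem (K := F) (v := w) _).2 h1
    have e : algebraMap (𝓞 F) F ((1 + a + a ^ 2 : ℤ) : 𝓞 F) = 1 + (a : F) + (a : F) ^ 2 := by
      rw [map_intCast]
      push_cast
      ring
    rw [← e]
    exact h2
  have hva1 : ∀ w : HeightOneSpectrum (𝓞 F), w.valuation F (a : F) ≤ 1 := by
    intro w
    have h1 := HeightOneSpectrum.valuation_le_one (K := F) w ((a : ℤ) : 𝓞 F)
    have e : algebraMap (𝓞 F) F ((a : ℤ) : 𝓞 F) = (a : F) := map_intCast _ a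
    rw [← e]
    exact h1
  have hv3 : ∀ w : HeightOneSpectrum (𝓞 F), w.asIdeal.under (𝓞 k) = l →
      w.valuation F 3 = 1 := by
    intro w hw
    have h1 : ((3 : ℕ) : 𝓞 F) ∉ w.asIdeal := fun h => hSw w hw ⟨3, hS3, h⟩
    have h2 := (HeightOneSpectrum.valuation_eq_one_iff_notMem (K := F) (v := w)).2 h1
    rw [map_natCast] at h2
    exact h2
  -- the symbol
  obtain ⟨s, hs12, hs⟩ := local_symbol hdeg (hram w0 hw0k) hτ (hva w0 hw0k) (hva1 w0)
    (hv3 w0 hw0k)
  have hsn : ∃ s' : ℕ, (s : ℤ) = s' := by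
    rcases hs12 with h | h
    · exact ⟨1, by rw [h]; rfl⟩
    · exact ⟨2, by rw [h]; rfl⟩
  obtain ⟨s', hs'⟩ := hsn
  -- the exponents at the conjugates of `lam`
  have hexp : ∀ h : L ≃ₐ[k] L, (3 : ℤ) ∣ (b h : ℤ) - s * cnt (mv h lam) κ := by
    intro h
    obtain ⟨σ, hσ⟩ := hlift h
    set w := mv σ w0 with hw
    have hwh : w.asIdeal.under (𝓞 L) = (mv h lam).asIdeal := under_mv σ h hσ w0 lam hw0
    have hwk : w.asIdeal.under (𝓞 k) = l := by
      rw [hunderk w _ hwh, hlamk]
    have hsym := symbol_mv hcomm σ hs Y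
    have h1 := hκw w _ hwh
    rw [hram w hwk] at h1
    have h2 : cnt (mv h lam) κ = cnt w Y := by
      push_cast at h1
      omega
    rw [h2]
    -- congruences for `z'`
    have h3 := cong (S := S) hc0 hSU hg'3 hzc hwk (hSw w hwk)
    have h4 : One1 (w.valuation F) ((algebraMap L F ((g ^ 3) c) / algebraMap L F c) ^ m /
        (a : F) ^ b h) := by
      rw [one1_div (by rw [map_pow, cube_val (hva w hwk) (hva1 w), one_pow])]
      have h5 : algebraMap (𝓞 L) (𝓞 F) ((u : 𝓞 L) ^ m - (a : 𝓞 L) ^ b h) ∈ w.asIdeal := by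
        have h6 : (u : 𝓞 L) ^ m - (a : 𝓞 L) ^ b h ∈ w.asIdeal.under (𝓞 L) := by
          rw [hwh]
          exact hb h
        exact h6
      have h7 := (HeightOneSpectrum.valuation_lt_one_iff_mem (K := F) (v := w) _).2 h5
      have e : algebraMap (𝓞 F) F (algebraMap (𝓞 L) (𝓞 F) ((u : 𝓞 L) ^ m - (a : 𝓞 L) ^ b h)) =
          (algebraMap L F ((g ^ 3) c) / algebraMap L F c) ^ m - (a : F) ^ b h := by
        have e1 : algebraMap (𝓞 F) F (algebraMap (𝓞 L) (𝓞 F) ((u : 𝓞 L) ^ m - (a : 𝓞 L) ^ b h)) =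
            algebraMap L F (algebraMap (𝓞 L) L ((u : 𝓞 L) ^ m - (a : 𝓞 L) ^ b h)) := rfl
        rw [e1, map_sub, map_pow, map_pow, map_intCast, map_sub, map_pow, map_pow, map_intCast]
        have e2 : algebraMap (𝓞 L) L (u : 𝓞 L) = (g ^ 3) c / c := hu
        rw [e2, map_div₀]
      rw [← e]
      exact h7
    have h8 : One1 (w.valuation F) (((Y : F) / τ (Y : F)) / (a : F) ^ b h) := by
      have e1 : (Y : F) / τ (Y : F) = (g' ^ 3) z / z := by
        have := congrArg (fun x : Fˣ => (x : F)) hY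
        rw [hz'] at this
        simp only [Units.val_div_eq_div_val] at this
        exact this.symm
      have h9 := h3.mul h4
      rw [e1]
      have h0 : (algebraMap L F ((g ^ 3) c) / algebraMap L F c) ^ m ≠ 0 := by
        refine pow_ne_zero _ (div_ne_zero ?_ ?_)
        · exact (map_ne_zero _).2 ((map_ne_zero _).2 hc0)
        · exact (map_ne_zero _).2 hc0
      rwa [div_mul_div_cancel₀ h0] at h9
    have h10 := hsym.div h8
    have ha0 : (a : F) ≠ 0 := by
      intro h0
      have := cube_val (hva w hwk) (hva1 w)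
      rw [h0, map_zero] at this
      exact zero_ne_one this
    have hY0 : (Y : F) / τ (Y : F) ≠ 0 := div_ne_zero Y.ne_zero ((map_ne_zero _).2 Y.ne_zero)
    have e : (Y : F) / τ (Y : F) / (a : F) ^ (s * cnt w Y) / ((Y : F) / τ (Y : F) / (a : F) ^ b h) =
        (a : F) ^ ((b h : ℤ) - s * cnt w Y) := by
      rw [zpow_sub₀ ha0, zpow_natCast]
      have p1 := zpow_ne_zero (s * cnt w Y) ha0
      have p2 := pow_ne_zero (b h) ha0
      generalize (Y : F) / τ (Y : F) = A at hY0 ⊢
      field_simp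
    rw [e] at h10
    exact cube_dvd (hva w hwk) (hv3 w hwk) (hva1 w) h10
  -- the ideal
  obtain ⟨I, t, ht, hX⟩ := decomp (S := S) (X := P * (prin κ ^ s')⁻¹) (by
    intro v hv
    rw [cntJ_mul, cntJ_inv, cntJ_pow, hP, cntJ_prod, ← hs']
    by_cases hvh : ∃ h : L ≃ₐ[k] L, mv h lam = v
    · obtain ⟨h, rfl⟩ := hvh
      rw [Finset.sum_eq_single h]
      · rw [cntJ_pow, cntJ_smul_vJ, if_pos rfl, mul_one]
        exact hexp h
      · intro h' _ hne
        rw [cntJ_pow, cntJ_smul_vJ, if_neg, mul_zero]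
        intro heq
        apply hne
        have h1 : (h⁻¹ * h') • lam.asIdeal = lam.asIdeal := by
          have h2 : h' • lam.asIdeal = h • lam.asIdeal := congrArg HeightOneSpectrum.asIdeal heq
          rw [mul_smul, h2, inv_smul_smul]
        have h3 := hgood.free _ h1
        rw [inv_mul_eq_one] at h3
        exact h3.symm
      · intro h1
        exact absurd (Finset.mem_univ h) h1
    · rw [Finset.sum_eq_zero]
      · obtain ⟨w, hw⟩ := INVI.exists_above L F v
        have hwS : ¬ Above S w := fun h => hv ((above_under w v hw).1 h)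
        have hwk : w.asIdeal.under (𝓞 k) ≠ l := by
          intro h1
          apply hvh
          rw [hunderk w v hw] at h1
          have hlo : v.asIdeal.LiesOver l := ⟨h1.symm⟩
          have hlo' : lam.asIdeal.LiesOver l := ⟨rfl⟩
          have hp1 : v.asIdeal.IsPrime := v.isPrime
          have hp2 : lam.asIdeal.IsPrime := lam.isPrime
          obtain ⟨h, hh⟩ := Ideal.exists_smul_eq_of_isGaloisGroup l lam.asIdeal v.asIdeal
            (L ≃ₐ[k] L)
          refine ⟨h, ?_⟩
          apply HeightOneSpectrum.ext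
          exact hh
        have h1 := hκw w v hw
        rw [hunr w hwS hwk] at h1
        have h2 : cntJ v (prin κ) = 3 * cnt w Y := by
          have : cnt v κ = 3 * cnt w Y := by
            push_cast at h1
            omega
          exact this
        rw [h2]
        exact ⟨-(s * cnt w Y), by ring⟩
      · intro h _
        rw [cntJ_pow, cntJ_smul_vJ, if_neg (fun h1 => hvh ⟨h, h1⟩), mul_zero])
  refine ⟨κ ^ s', I, t, ht, ?_⟩
  rw [map_pow, mul_assoc, ← hX, mul_comm P, mul_inv_cancel_left]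

end Pool.Agent.MU3
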