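import Pool.Agent.MU3.NStmts
import Pool.Agent.RID.P_CYC
import Pool.Agent.RI.CL

/-!
# MU3N_AMB: ambiguous class number formula, upper bound (helper3)
-/

open NumberField Finset IsDedekindDomain
open scoped nonZeroDivisors Pointwise

namespace MU3

open Pool.Agent.RI Pool.Agent.RID

namespace Amb

lemma padic_le (p : ℕ) [hp : Fact p.Prime] {m s : ℕ} (h0 : m ≠ 0) (h : m ≤ p ^ s) :
    padicValNat p m ≤ s := by
  have h1 : p ^ padicValNat p m ≤ m := Nat.le_of_dvd (Nat.pos_of_ne_zero h0) pow_padicValNat_dvd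
  exact (Nat.pow_le_pow_iff_right hp.out.one_lt).1 (h1.trans h)

lemma padic_mono (p : ℕ) [Fact p.Prime] {a b : ℕ} (hb : b ≠ 0) (h : a ∣ b) :
    padicValNat p a ≤ padicValNat p b := by
  obtain ⟨c, rfl⟩ := h
  have ha : a ≠ 0 := by rintro rfl; simp at hb
  have hc : c ≠ 0 := by rintro rfl; simp at hb
  rw [padicValNat.mul ha hc]
  omega

end Amb

open Amb in
theorem n_AMB (h1 : N_AMBA) (h2 : N_AMBI) (h3 : N_AMBU) : N_AMB := by
  intro p a _ F K L _ _ _ _ _ _ _ _ _ _ g hg S hS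
  obtain ⟨hgal, hfr, -, hH90, hfixA, hfixJ, -, -, hgext, hgu, -⟩ := t_CYC F K L g (p ^ a) hg
  have hgq : g ^ (p ^ a) = 1 := by
    rw [← hg.ord]
    exact pow_orderOf_eq_one g
  set P : Subgroup (J L) := PI L with hP
  set U : Subgroup (J L) := P.comap (dg g) with hU
  set V : Subgroup (J L) := (dg g : J L →* J L).ker with hV
  set X : Subgroup (J L) := (ext K L).range with hX
  have hdv : ∀ x : Lˣ, (prin : Lˣ →* J L) (g • x) = g • (prin x : J L) := fun x =>
    (smul_prin g x).symm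
  -- finiteness
  haveI : Finite (J L ⧸ P) := CL.finite_quot L
  have hPfin : P.FiniteIndex := Subgroup.finiteIndex_of_finite_quotient
  -- containments
  have hPU : P ≤ U := by
    rintro _ ⟨x, rfl⟩
    rw [hU, Subgroup.mem_comap]
    refine ⟨x / g • x, ?_⟩
    rw [map_div, hdv]
    rfl
  have hVU : V ≤ U := by
    intro b hb
    rw [hU, Subgroup.mem_comap]
    rw [hV, MonoidHom.mem_ker] at hb
    rw [hb]
    exact one_mem _
  have hXV : X ≤ V := by
    rintro _ ⟨c, rfl⟩
    rw [hV, mem_dg_ker]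
    exact hgext c
  have hU1 : P ≤ P ⊔ X := le_sup_left
  have hU0 : P ⊔ X ≤ P ⊔ V := sup_le_sup_left hXV P
  have hUU : P ⊔ V ≤ U := sup_le hPU hVU
  -- multiplicativity
  have m1 : P.relIndex (P ⊔ X) * (P ⊔ X).relIndex (P ⊔ V) = P.relIndex (P ⊔ V) :=
    Subgroup.relIndex_mul_relIndex P (P ⊔ X) (P ⊔ V) hU1 hU0
  have m2 : P.relIndex (P ⊔ V) * (P ⊔ V).relIndex U = P.relIndex U :=
    Subgroup.relIndex_mul_relIndex P (P ⊔ V) U le_sup_left hUU
  have n0 : P.relIndex U ≠ 0 := Subgroup.FiniteIndex.index_ne_zero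
  have n1 : P.relIndex (P ⊔ V) ≠ 0 := Subgroup.FiniteIndex.index_ne_zero
  have n2 : P.relIndex (P ⊔ X) ≠ 0 := Subgroup.FiniteIndex.index_ne_zero
  have n3 : (P ⊔ X).relIndex (P ⊔ V) ≠ 0 := by
    intro h; rw [h, mul_zero] at m1; exact n1 m1.symm
  have n4 : (P ⊔ V).relIndex U ≠ 0 := by
    intro h; rw [h, mul_zero] at m2; exact n0 m2.symm
  -- units
  have d4 : (P ⊔ V).relIndex U ∣
      ((prin : Lˣ →* J L).ker.map (ng g (p ^ a))).relIndex ((prin : Lˣ →* J L).ker ⊓ (dg g).ker) :=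
    h1 (p ^ a) Lˣ (J L) (L ≃ₐ[F] L) (prin : Lˣ →* J L) g hgq hdv hH90
  obtain ⟨k1, k2⟩ := h3 F K L g (p ^ a) hg
  have b4 : padicValNat p ((P ⊔ V).relIndex U) ≤ a * (NumberField.Units.rank K + 1) := by
    apply padic_le p n4
    rw [pow_mul]
    exact (Nat.le_of_dvd (Nat.pos_of_ne_zero k1) d4).trans k2
  -- ideals
  obtain ⟨k3, k4⟩ := h2 F K L g (p ^ a) hg S hS
  have d3 : (P ⊔ X).relIndex (P ⊔ V) ∣ X.relIndex V := by
    have e1 : (P ⊔ X).relIndex (P ⊔ V) = (P ⊔ X).relIndex V := by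
      have : P ⊔ V = V ⊔ (P ⊔ X) := by
        apply le_antisymm
        · exact sup_le (le_sup_left.trans le_sup_right) le_sup_left
        · exact sup_le le_sup_right hU0
      rw [this]
      exact Subgroup.relIndex_sup_right V (P ⊔ X)
    rw [e1]
    exact Subgroup.relIndex_dvd_of_le_left V (le_sup_right : X ≤ P ⊔ X)
  have b3 : padicValNat p ((P ⊔ X).relIndex (P ⊔ V)) ≤ a * S.card := by
    apply padic_le p n3
    rw [pow_mul]
    exact (Nat.le_of_dvd (Nat.pos_of_ne_zero k3) d3).trans k4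
  -- class number of K
  have d2 : P.relIndex (P ⊔ X) ∣ NumberField.classNumber K := by
    rw [CL.classNumber_eq K]
    have e1 : P.relIndex (P ⊔ X) = P.relIndex X := by
      rw [sup_comm]
      exact Subgroup.relIndex_sup_right X P
    have e2 : Nat.card (J K ⧸ (prin (K := K)).range) = (PI K).index := rfl
    rw [e1, e2]
    have e3 : P.relIndex X = (P.comap (ext K L)).index := (Subgroup.index_comap P (ext K L)).symm
    rw [e3]
    apply Subgroup.index_dvd_of_le
    rintro _ ⟨x, rfl⟩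
    rw [Subgroup.mem_comap, ext_prin]
    exact ⟨_, rfl⟩
  have hcn : NumberField.classNumber K ≠ 0 := by
    rw [NumberField.classNumber]
    exact Fintype.card_ne_zero
  have b2 := padic_mono p hcn d2
  rw [← m2, ← m1, padicValNat.mul (mul_ne_zero n2 n3) n4, padicValNat.mul n2 n3]
  have : a * (S.card + NumberField.Units.rank K + 1) =
      a * S.card + a * (NumberField.Units.rank K + 1) := by ring
  omega

end MU3
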