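import Pool.Agent.MU3.NStmts
import Pool.Agent.RID.P_ABS1

/-!
# MU3N_AMBA: ambiguous classes, abstract form
-/

open NumberField Finset IsDedekindDomain
open scoped nonZeroDivisors Pointwise

namespace MU3

open Pool.Agent.RI Pool.Agent.RID

namespace Amba

open Pool.Agent.RID.ABS1

variable {A I G : Type} [CommGroup A] [CommGroup I] [Group G]
  [MulDistribMulAction G A] [MulDistribMulAction G I]

/-- the pairs `(b, x)` with `b / g b = dv x` -/
def Gam (dv : A →* I) (g : G) : Subgroup (I × A) where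
  carrier := {z | (dg g : I →* I) z.1 = dv z.2}
  mul_mem' := by
    rintro ⟨a, b⟩ ⟨c, d⟩ h h'
    change (dg g : I →* I) (a * c) = dv (b * d)
    rw [map_mul, map_mul]
    exact congrArg₂ (· * ·) h h'
  one_mem' := by simp
  inv_mem' := by
    rintro ⟨a, b⟩ h
    change (dg g : I →* I) (a⁻¹) = dv (b⁻¹)
    rw [map_inv, map_inv]
    exact congrArg _ h

theorem mem_Gam (dv : A →* I) (g : G) (a : I) (b : A) :
    (a, b) ∈ Gam dv g ↔ (dg g : I →* I) a = dv b := Iff.rfl

end Amba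

open Amba Pool.Agent.RID.ABS1

theorem n_AMBA : N_AMBA := by
  intro q A I G _ _ _ _ _ dv g hg hdv h90
  have hngd : ∀ x, dv (ng g q x) = ng g q (dv x) := fun x => ng_comm dv g q hdv x
  have hdvdg : ∀ x, dv (dg g x) = dg g (dv x) := by
    intro x
    rw [dg_apply, dg_apply, map_div, hdv]
  -- elements of `B₀`
  have hB : ∀ z : A, dv (ng g q z) = 1 →
      (ng g q : A →* A) z ∈ dv.ker ⊓ (dg g : A →* A).ker := by
    intro z hz1
    exact ⟨hz1, (mem_dg_ker g _).2 (smul_ng g q hg z)⟩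
  have hNB : dv.ker.map (ng g q : A →* A) ≤ dv.ker ⊓ (dg g : A →* A).ker := by
    rintro _ ⟨u, hu, rfl⟩
    refine hB u ?_
    have h1 : dv u = 1 := hu
    rw [hngd, h1, map_one]
  let ψ : I × A →* A := (ng g q : A →* A).comp (MonoidHom.snd I A)
  have hΓ1 : (Gam dv g).map (MonoidHom.fst I A) = dv.range.comap (dg g : I →* I) := by
    apply le_antisymm
    · rintro _ ⟨⟨a, b⟩, h, rfl⟩
      exact ⟨b, ((mem_Gam dv g a b).1 h).symm⟩
    · rintro b ⟨x, hx⟩
      exact ⟨(b, x), (mem_Gam dv g b x).2 hx.symm, rfl⟩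
  have hΓ2 : (Gam dv g).map ψ ≤ dv.ker ⊓ (dg g : A →* A).ker := by
    rintro _ ⟨⟨a, b⟩, h, rfl⟩
    refine hB b ?_
    rw [hngd, ← (mem_Gam dv g a b).1 h]
    exact ng_dg g q hg a
  have hr : ((dv.ker.map (ng g q : A →* A)).comap ψ ⊓ Gam dv g).relIndex (Gam dv g) =
      (dv.ker.map (ng g q : A →* A)).relIndex ((Gam dv g).map ψ) := by
    rw [Subgroup.inf_relIndex_right, Subgroup.relIndex_comap]
  have hd1 : (((dv.ker.map (ng g q : A →* A)).comap ψ ⊓ Gam dv g).map
      (MonoidHom.fst I A)).relIndex (dv.range.comap (dg g : I →* I)) ∣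
      (dv.ker.map (ng g q : A →* A)).relIndex (dv.ker ⊓ (dg g : A →* A).ker) := by
    have h1 := map_dvd (MonoidHom.fst I A)
      ((dv.ker.map (ng g q : A →* A)).comap ψ ⊓ Gam dv g) (Gam dv g)
    rw [hΓ1, hr] at h1
    exact h1.trans (rel_dvd_right hNB hΓ2)
  refine dvd_trans (Subgroup.relIndex_dvd_of_le_left _ ?_) hd1
  rintro _ ⟨⟨b, x⟩, ⟨h1, h2⟩, rfl⟩
  obtain ⟨u, hu, huz⟩ := h1
  have huz' : ng g q u = ng g q x := huz
  have hu1 : dv u = 1 := hu
  have hb : (dg g : I →* I) b = dv x := (mem_Gam dv g b x).1 h2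
  have h3 : ng g q (x / u) = 1 := by
    rw [map_div, huz', div_self']
  obtain ⟨y, hy⟩ := h90 _ h3
  have hy' : x / u = dg g y := hy
  have h5 : (dg g : I →* I) (b / dv y) = 1 := by
    rw [map_div, ← hdvdg, ← hy', hb, map_div, hu1, div_one, div_self']
  change b ∈ dv.range ⊔ (dg g : I →* I).ker
  have e : b = dv y * (b / dv y) := by
    rw [mul_div_cancel]
  rw [e]
  exact mul_mem (le_sup_left (a := dv.range) (b := (dg g : I →* I).ker) ⟨y, rfl⟩)
    (le_sup_right (a := dv.range) (b := (dg g : I →* I).ker) h5)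

end MU3
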