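import Pool.Agent.MU3.NStmts
import Pool.Agent.RID.P_CYC
import Pool.Agent.RI.INVI
import Pool.Agent.RI.COUNTACT
import Pool.Agent.RI.COUNTEXT

/-!
# MU3, section 4: AMBI, ideals fixed by `g` modulo ideals of `K`
-/

open NumberField Finset IsDedekindDomain
open scoped nonZeroDivisors Pointwise

namespace MU3

open Pool.Agent.RI Pool.Agent.RID

namespace Ambi

/-- the exponent of `w` in a fractional ideal -/
noncomputable def cnt (L : Type) [Field L] [NumberField L] (w : HeightOneSpectrum (𝓞 L))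
    (b : J L) : ℤ :=
  FractionalIdeal.count L w (b : FractionalIdeal (𝓞 L)⁰ L)

lemma cnt_mul (L : Type) [Field L] [NumberField L] (w : HeightOneSpectrum (𝓞 L)) (b c : J L) :
    cnt L w (b * c) = cnt L w b + cnt L w c := by
  unfold cnt
  rw [Units.val_mul, FractionalIdeal.count_mul L w b.ne_zero c.ne_zero]

lemma cnt_one (L : Type) [Field L] [NumberField L] (w : HeightOneSpectrum (𝓞 L)) :
    cnt L w 1 = 0 := by
  unfold cnt
  rw [Units.val_one, FractionalIdeal.count_one]

lemma cnt_inv (L : Type) [Field L] [NumberField L] (w : HeightOneSpectrum (𝓞 L)) (b : J L) :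
    cnt L w b⁻¹ = - cnt L w b := by
  have h := cnt_mul L w b⁻¹ b
  rw [inv_mul_cancel, cnt_one] at h
  linarith

lemma cnt_div (L : Type) [Field L] [NumberField L] (w : HeightOneSpectrum (𝓞 L)) (b c : J L) :
    cnt L w (b / c) = cnt L w b - cnt L w c := by
  rw [div_eq_mul_inv, cnt_mul, cnt_inv]
  ring

section

variable (K L : Type) [Field K] [NumberField K] [Field L] [NumberField L] [Algebra K L]

lemma ram_pos (w : HeightOneSpectrum (𝓞 L)) : 0 < w.asIdeal.ramificationIdx (𝓞 K) := by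
  have : w.asIdeal.IsPrime := w.isPrime
  exact Ideal.ramificationIdx_pos w.asIdeal (𝓞 K)

lemma ram_le [IsGalois K L] (w : HeightOneSpectrum (𝓞 L)) :
    w.asIdeal.ramificationIdx (𝓞 K) ≤ Module.finrank K L := by
  classical
  have hw : w.asIdeal.IsPrime := w.isPrime
  have hp : (w.asIdeal.under (𝓞 K)).IsPrime := inferInstance
  have hlo : w.asIdeal.LiesOver (w.asIdeal.under (𝓞 K)) := ⟨rfl⟩
  have hfin : Finite ((w.asIdeal.under (𝓞 K)).primesOver (𝓞 L)) := inferInstance
  let : Fintype ((w.asIdeal.under (𝓞 K)).primesOver (𝓞 L)) := Fintype.ofFinite _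
  have h := Ideal.sum_ramification_inertia_eq_card (w.asIdeal.under (𝓞 K)) (𝓞 L)
    (G := L ≃ₐ[K] L)
  rw [IsGalois.card_aut_eq_finrank] at h
  rw [← h]
  have h1 := Finset.single_le_sum (f := fun q : (w.asIdeal.under (𝓞 K)).primesOver (𝓞 L) =>
    q.1.ramificationIdx (𝓞 K) * q.1.inertiaDeg (𝓞 K)) (fun _ _ => Nat.zero_le _)
    (Finset.mem_univ ⟨w.asIdeal, hw, hlo⟩)
  refine le_trans ?_ h1
  exact Nat.le_mul_of_pos_right _ (Ideal.inertiaDeg_pos w.asIdeal (𝓞 K))

lemma conj [IsGalois K L] (b : J L) (hb : ∀ τ : L ≃ₐ[K] L, τ • b = b)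
    (w w' : HeightOneSpectrum (𝓞 L)) (hww : w.asIdeal.under (𝓞 K) = w'.asIdeal.under (𝓞 K)) :
    cnt L w' b = cnt L w b := by
  have : w.asIdeal.LiesOver (w.asIdeal.under (𝓞 K)) := ⟨rfl⟩
  have : w'.asIdeal.LiesOver (w.asIdeal.under (𝓞 K)) := ⟨hww⟩
  have : w.asIdeal.IsPrime := w.isPrime
  have : w'.asIdeal.IsPrime := w'.isPrime
  obtain ⟨σ, hσ⟩ := Ideal.exists_smul_eq_of_isGaloisGroup (w.asIdeal.under (𝓞 K)) w.asIdeal
    w'.asIdeal (L ≃ₐ[K] L)
  have h3 := COUNTACT_thm K L σ w w' hσ.symm b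
  rw [hb σ] at h3
  exact h3

/-- the homomorphism to the product of the `ZMod e_v` -/
noncomputable def phi (S : Finset (HeightOneSpectrum (𝓞 K)))
    (up : HeightOneSpectrum (𝓞 K) → HeightOneSpectrum (𝓞 L)) :
    J L →* Multiplicative (∀ v : S, ZMod ((up v).asIdeal.ramificationIdx (𝓞 K))) where
  toFun b := Multiplicative.ofAdd fun v => ((cnt L (up v) b : ℤ) : ZMod _)
  map_one' := by
    rw [← ofAdd_zero]
    congr 1
    funext v
    rw [cnt_one, Int.cast_zero]
    rfl
  map_mul' a b := by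
    rw [← ofAdd_add]
    congr 1
    funext v
    rw [cnt_mul, Int.cast_add]
    rfl

omit [NumberField K] in
lemma phi_eq_one (S : Finset (HeightOneSpectrum (𝓞 K)))
    (up : HeightOneSpectrum (𝓞 K) → HeightOneSpectrum (𝓞 L)) (b : J L) (hb : phi K L S up b = 1)
    (v : HeightOneSpectrum (𝓞 K)) (hv : v ∈ S) :
    ((up v).asIdeal.ramificationIdx (𝓞 K) : ℤ) ∣ cnt L (up v) b := by
  have h1 : (fun v : S => ((cnt L (up v) b : ℤ) :
      ZMod ((up v).asIdeal.ramificationIdx (𝓞 K)))) = 0 :=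
    Multiplicative.ofAdd.injective (hb.trans ofAdd_zero.symm)
  have h2 := congrFun h1 ⟨v, hv⟩
  exact (ZMod.intCast_zmod_eq_zero_iff_dvd _ _).1 h2

end

/-- the kernel is contained in the extended ideals -/
lemma ker_le (F K L : Type) [Field F] [NumberField F] [Field K] [NumberField K]
    [Field L] [NumberField L] [Algebra F K] [Algebra F L] [Algebra K L] [IsScalarTower F K L]
    (g : L ≃ₐ[F] L) (q : ℕ) (hg : CycExt F K L g q) (S : Finset (HeightOneSpectrum (𝓞 K)))
    (hS : ∀ w : HeightOneSpectrum (𝓞 L), w.asIdeal.ramificationIdx (𝓞 K) ≠ 1 →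
      ∃ v ∈ S, w.asIdeal.under (𝓞 K) = v.asIdeal)
    (up : HeightOneSpectrum (𝓞 K) → HeightOneSpectrum (𝓞 L))
    (hup : ∀ v, (up v).asIdeal.under (𝓞 K) = v.asIdeal) (b : J L)
    (hb : g • b = b) (hphi : phi K L S up b = 1) : b ∈ (ext K L).range := by
  classical
  obtain ⟨hgal, hdeg, -, -, -, hfix, -, -, hext, -⟩ := t_CYC F K L g q hg
  have hdvd := phi_eq_one K L S up b hphi
  set n : HeightOneSpectrum (𝓞 K) → ℤ := fun v => if v ∈ S then
    cnt L (up v) b / ((up v).asIdeal.ramificationIdx (𝓞 K) : ℤ) else 0 with hn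
  have hfin : {v | n v ≠ 0}.Finite := by
    refine S.finite_toSet.subset ?_
    intro v hv
    by_contra hvS
    apply hv
    rw [hn]
    simp only [Finset.mem_coe] at hvS
    simp [hvS]
  obtain ⟨c, hc⟩ := INVI.exists_count K n hfin
  have hb' : g • (b / ext K L c) = b / ext K L c := by
    rw [smul_div', hb, hext c]
  have hinv := hfix _ hb'
  obtain ⟨c', hc'⟩ := INVI_thm COUNTACT_thm COUNTEXT_thm K L (b / ext K L c) hinv (by
    intro w hw
    obtain ⟨v, hv, hvw⟩ := hS w hw
    have h1 : cnt L w (b / ext K L c) = cnt L (up v) (b / ext K L c) :=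
      conj K L _ hinv (up v) w ((hup v).trans hvw.symm)
    have h2 : cnt L (up v) (ext K L c) =
        ((up v).asIdeal.ramificationIdx (𝓞 K) : ℤ) * n v := by
      unfold cnt
      rw [COUNTEXT_thm K L v (up v) (hup v) c, hc v]
    have h3 : ((up v).asIdeal.ramificationIdx (𝓞 K) : ℤ) * n v = cnt L (up v) b := by
      rw [hn]
      simp only [hv, if_true]
      exact Int.mul_ediv_cancel' (hdvd v hv)
    show cnt L w (b / ext K L c) = 0
    rw [h1, cnt_div, h2, h3, sub_self])
  refine ⟨c' * c, ?_⟩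
  rw [map_mul, hc', div_mul_cancel]

end Ambi

open Ambi in
theorem n_AMBI : N_AMBI := by
  intro F K L _ _ _ _ _ _ _ _ _ _ g q hg S hS
  classical
  obtain ⟨hgal, hdeg, -, -, -, hfix, -, -, hext, -⟩ := t_CYC F K L g q hg
  choose up hup using INVI.exists_above K L
  set f : (dg g : J L →* J L).ker →*
      Multiplicative (∀ v : S, ZMod ((up v).asIdeal.ramificationIdx (𝓞 K))) :=
    (phi K L S up).comp (dg g : J L →* J L).ker.subtype with hf
  have hle : f.ker ≤ (ext K L).range.subgroupOf (dg g : J L →* J L).ker := by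
    intro b hb
    rw [Subgroup.mem_subgroupOf]
    refine ker_le F K L g q hg S hS up hup b ?_ ?_
    · exact (mem_dg_ker g (b : J L)).1 b.2
    · exact hb
  have hne : ∀ v : S, NeZero ((up v).asIdeal.ramificationIdx (𝓞 K)) := fun v =>
    ⟨(ram_pos K L (up v)).ne'⟩
  have hfinT : Finite (Multiplicative (∀ v : S, ZMod ((up v).asIdeal.ramificationIdx (𝓞 K)))) :=
    (inferInstance : Finite (∀ v : S, ZMod ((up v).asIdeal.ramificationIdx (𝓞 K))))
  have hcard : Nat.card (Multiplicative (∀ v : S, ZMod ((up v).asIdeal.ramificationIdx (𝓞 K)))) ≤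
      q ^ S.card := by
    have h1 : Nat.card (Multiplicative (∀ v : S,
        ZMod ((up v).asIdeal.ramificationIdx (𝓞 K)))) =
        ∏ v : S, (up v).asIdeal.ramificationIdx (𝓞 K) := by
      rw [show Nat.card (Multiplicative (∀ v : S,
        ZMod ((up v).asIdeal.ramificationIdx (𝓞 K)))) = Nat.card (∀ v : S,
        ZMod ((up v).asIdeal.ramificationIdx (𝓞 K))) from rfl, Nat.card_pi]
      exact Finset.prod_congr rfl fun v _ => Nat.card_zmod _
    rw [h1]
    calc ∏ v : S, (up v).asIdeal.ramificationIdx (𝓞 K) ≤ ∏ _v : S, q :=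
          Finset.prod_le_prod' fun v _ => by rw [← hdeg]; exact ram_le K L (up v)
      _ = q ^ S.card := by simp
  have hfk : f.ker.index ≠ 0 ∧ f.ker.index ≤ q ^ S.card := by
    rw [Subgroup.index_ker]
    constructor
    · exact Nat.card_pos.ne'
    · refine le_trans ?_ hcard
      exact Nat.card_le_card_of_injective _ Subtype.val_injective
  have hd := Subgroup.index_dvd_of_le hle
  constructor
  · intro h0
    unfold Subgroup.relIndex at h0
    rw [h0] at hd
    exact hfk.1 (Nat.eq_zero_of_zero_dvd hd)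
  · exact (Nat.le_of_dvd (Nat.pos_of_ne_zero hfk.1) hd).trans hfk.2

end MU3
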