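import Pool.Agent.MU3.NStmts
import Pool.Agent.RID.P_CYC
import Pool.Agent.RI.RKU
import Pool.Agent.RI.RKF

/-!
# MU3, section 4, module AMBU: the units of `K` modulo norms (helper21)
-/

set_option autoImplicit false

open NumberField Finset IsDedekindDomain
open scoped nonZeroDivisors Pointwise

namespace MU3

open Pool.Agent.RI Pool.Agent.RID

namespace Ambu

theorem zpow_split {G : Type} [CommGroup G] (q : ℕ) (x : G) (a : ℤ) :
    x ^ a = x ^ (a % (q : ℤ)) * (x ^ (a / (q : ℤ))) ^ q := by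
  rw [← zpow_natCast (x ^ (a / (q : ℤ))) q, ← zpow_mul, ← zpow_add]
  congr 1
  have := Int.emod_add_mul_ediv a q
  linarith

theorem pow_index (K : Type) [Field K] [NumberField K] (q : ℕ) (hq : 0 < q) :
    (powMonoidHom q : (𝓞 K)ˣ →* (𝓞 K)ˣ).range.index ≠ 0 ∧
    (powMonoidHom q : (𝓞 K)ˣ →* (𝓞 K)ˣ).range.index ≤ q ^ (NumberField.Units.rank K + 1) := by
  classical
  set H := (powMonoidHom q : (𝓞 K)ˣ →* (𝓞 K)ˣ).range with hH
  obtain ⟨ζ, hζ⟩ := IsCyclic.exists_generator (α := NumberField.Units.torsion K)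
  set r := NumberField.Units.rank K with hr
  let φ : Fin q × (Fin r → Fin q) → (𝓞 K)ˣ ⧸ H := fun ab =>
    (((((ζ : (𝓞 K)ˣ)) ^ ((ab.1 : ℕ) : ℤ) *
      ∏ i, NumberField.Units.fundSystem K i ^ (((ab.2 i : Fin q) : ℕ) : ℤ)) : (𝓞 K)ˣ) : (𝓞 K)ˣ ⧸ H)
  have hφ : Function.Surjective φ := by
    intro y
    obtain ⟨x, rfl⟩ := QuotientGroup.mk_surjective y
    obtain ⟨⟨z, e⟩, hx, _⟩ := NumberField.Units.exist_unique_eq_mul_prod K x
    obtain ⟨a, ha⟩ := Subgroup.mem_zpowers_iff.1 (hζ z)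
    have hx' : x = ((ζ : (𝓞 K)ˣ)) ^ a * ∏ i, NumberField.Units.fundSystem K i ^ (e i) := by
      have h1 : x = (z : (𝓞 K)ˣ) * ∏ i, NumberField.Units.fundSystem K i ^ (e i) := hx
      rw [h1, ← ha, Subgroup.coe_zpow]
    have hq' : (0 : ℤ) < (q : ℤ) := by exact_mod_cast hq
    have key : ∀ b : ℤ, ∃ c : Fin q, ((c : ℕ) : ℤ) = b % (q : ℤ) := by
      intro b
      have h1 := Int.emod_nonneg b hq'.ne'
      have h2 := Int.emod_lt_of_pos b hq'
      refine ⟨⟨(b % (q : ℤ)).toNat, by omega⟩, ?_⟩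
      show (((b % (q : ℤ)).toNat : ℕ) : ℤ) = _
      exact Int.toNat_of_nonneg h1
    choose c hc using key
    refine ⟨(c a, fun i => c (e i)), ?_⟩
    show (((((ζ : (𝓞 K)ˣ)) ^ ((c a : ℕ) : ℤ) *
      ∏ i, NumberField.Units.fundSystem K i ^ (((c (e i) : Fin q) : ℕ) : ℤ)) : (𝓞 K)ˣ) :
        (𝓞 K)ˣ ⧸ H) = (x : (𝓞 K)ˣ ⧸ H)
    rw [QuotientGroup.eq]
    refine ⟨((ζ : (𝓞 K)ˣ)) ^ (a / (q : ℤ)) *
      ∏ i, NumberField.Units.fundSystem K i ^ (e i / (q : ℤ)), ?_⟩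
    show (((ζ : (𝓞 K)ˣ)) ^ (a / (q : ℤ)) *
      ∏ i, NumberField.Units.fundSystem K i ^ (e i / (q : ℤ))) ^ q = _
    rw [eq_inv_mul_iff_mul_eq, hx', hc a, mul_pow, mul_mul_mul_comm, ← zpow_split q, ← prod_pow,
      ← prod_mul_distrib]
    congr 1
    apply prod_congr rfl
    intro i _
    rw [hc (e i), ← zpow_split q]
  have hfin : Finite ((𝓞 K)ˣ ⧸ H) := Finite.of_surjective φ hφ
  constructor
  · have : 0 < Nat.card ((𝓞 K)ˣ ⧸ H) := Nat.card_pos
    exact this.ne'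
  · have h1 := Nat.card_le_card_of_surjective φ hφ
    have h2 : Nat.card (Fin q × (Fin r → Fin q)) = q ^ (r + 1) := by
      rw [Nat.card_eq_fintype_card, Fintype.card_prod, Fintype.card_fun, Fintype.card_fin,
        Fintype.card_fin, pow_succ, mul_comm]
    rw [h2] at h1
    exact h1

end Ambu

open Ambu in
theorem n_AMBU : N_AMBU := by
  intro F K L _ _ _ _ _ _ _ _ _ _ g q hg
  obtain ⟨hgal, hfr, _, _, hfix, _, _, _, _, hfixK, _⟩ := t_CYC F K L g q hg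
  have hq : 0 < q := by
    rw [← hfr]
    exact Module.finrank_pos
  set f : (𝓞 K)ˣ →* Lˣ := (Units.map (algebraMap K L : K →* L)).comp
    (Units.map (algebraMap (𝓞 K) K : 𝓞 K →* K)) with hf
  have hfg : ∀ ε, g • f ε = f ε := fun ε => hfixK _
  have hfp : ∀ ε, prin (f ε) = 1 := by
    intro ε
    rw [hf]
    show prin (Units.map (algebraMap K L : K →* L)
      (Units.map (algebraMap (𝓞 K) K : 𝓞 K →* K) ε)) = 1
    rw [RKF.prin_map_eq_one_iff, RKU.prin_eq_one_iff]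
    exact ⟨ε, rfl⟩
  have hrange : (prin : Lˣ →* J L).ker ⊓ (dg g).ker = f.range := by
    ext x
    rw [Subgroup.mem_inf, MonoidHom.mem_ker, mem_dg_ker, MonoidHom.mem_range]
    constructor
    · rintro ⟨h1, h2⟩
      obtain ⟨y, rfl⟩ := hfix x h2
      rw [RKF.prin_map_eq_one_iff, RKU.prin_eq_one_iff] at h1
      obtain ⟨ε, rfl⟩ := h1
      exact ⟨ε, rfl⟩
    · rintro ⟨ε, rfl⟩
      exact ⟨hfp ε, hfg ε⟩
  have hng : ∀ ε, ng g q (f ε) = f ε ^ q := by
    intro ε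
    rw [ng_apply]
    have h1 : ∀ i : ℕ, g ^ i • f ε = f ε := by
      intro i
      induction i with
      | zero => rw [pow_zero, one_smul]
      | succ i ih => rw [pow_succ, mul_smul, hfg, ih]
    rw [prod_congr rfl (fun i _ => h1 i), prod_const, card_range]
  have hle : (powMonoidHom q : (𝓞 K)ˣ →* (𝓞 K)ˣ).range ≤
      ((prin : Lˣ →* J L).ker.map (ng g q)).comap f := by
    rintro _ ⟨ε, rfl⟩
    rw [Subgroup.mem_comap, Subgroup.mem_map]
    refine ⟨f ε, MonoidHom.mem_ker.2 (hfp ε), ?_⟩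
    rw [hng, powMonoidHom_apply, map_pow]
  obtain ⟨h1, h2⟩ := pow_index K q hq
  rw [hrange, ← Subgroup.index_comap]
  have h3 := Subgroup.index_dvd_of_le hle
  constructor
  · intro h0
    rw [h0] at h3
    exact h1 (Nat.eq_zero_of_zero_dvd h3)
  · exact (Nat.le_of_dvd (Nat.pos_of_ne_zero h1) h3).trans h2

end MU3
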