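import Pool.Agent.MU3.NStmts

/-!
# MU3N_FIN: the result of section 4 (helper3)
-/

open NumberField Finset IsDedekindDomain
open scoped nonZeroDivisors Pointwise

namespace MU3

open Pool.Agent.RI Pool.Agent.RID

namespace Fin4

lemma finS (p : ℕ) [hp : Fact p.Prime] (K : Type) [Field K] [NumberField K] :
    ∃ S : Finset (HeightOneSpectrum (𝓞 K)), ∀ v : HeightOneSpectrum (𝓞 K),
      (p : 𝓞 K) ∈ v.asIdeal → v ∈ S := by
  have h0 : (Ideal.span {(p : 𝓞 K)} : Ideal (𝓞 K)) ≠ 0 := by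
    rw [Ne, Ideal.zero_eq_bot, Ideal.span_singleton_eq_bot]
    exact_mod_cast hp.out.ne_zero
  have h1 := Ideal.finite_factors h0
  refine ⟨h1.toFinset, fun v hv => ?_⟩
  rw [Set.Finite.mem_toFinset, Set.mem_setOf_eq, Ideal.dvd_span_singleton]
  exact hv

lemma classNo_eq (E : IntermediateField ℚ ℂ) [FiniteDimensional ℚ E] :
    classNo E = NumberField.classNumber E := by
  rw [classNo, NumberField.classNumber, Nat.card_eq_fintype_card]

end Fin4

open Fin4 in
theorem n_FIN (hAMB : N_AMB) (hNILR : N_NILR) (hSTEP : N_STEP) (hNUM : N_NUM) (hGAL : N_GAL)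
    (hRAMP : N_RAMP) : N_FIN := by
  intro p l _ k K _ B hk _ hcop hB hmono hyp
  obtain ⟨S, hS⟩ := finS p K
  haveI : FiniteDimensional ℚ k :=
    FiniteDimensional.of_injective (IntermediateField.inclusion hk).toLinearMap
      (IntermediateField.inclusion hk).injective
  set c₀ := padicValNat p (NumberField.classNumber K) with hc₀
  set c₁ := S.card + NumberField.Units.rank K + 1 with hc₁
  apply hNUM p l c₀ c₁ (fun n => padicValNat p (classNo (K ⊔ B n)))
    (fun n => rkp p ↥(K ⊔ B n))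
  · intro n
    letI aKL := algC (le_sup_left : K ≤ K ⊔ B n)
    letI akK := algC hk
    letI akL := algC (hk.trans le_sup_left : k ≤ K ⊔ B n)
    haveI : IsScalarTower k K ↥(K ⊔ B n) := towerC hk le_sup_left
    obtain ⟨g, ord, fix, -⟩ := hGAL p k K B hk hcop hB hmono n (hk.trans le_sup_left)
    have hcyc : CycExt k K ↥(K ⊔ B n) g (p ^ n) := by
      refine ⟨ord, fun x => ?_⟩
      rw [fix x]
      constructor
      · intro hx
        exact ⟨⟨(x : ℂ), hx⟩, rfl⟩
      · rintro ⟨y, rfl⟩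
        exact y.2
    have h1 := hAMB p n k K ↥(K ⊔ B n) g hcyc S (by
      intro w hw
      have h2 := hRAMP p n K (B n) (hB n) w hw
      have hne : w.asIdeal.under (𝓞 K) ≠ ⊥ := by
        intro h0
        rw [h0, Ideal.mem_bot] at h2
        have : p ≠ 0 := (Fact.out : p.Prime).ne_zero
        exact this (by exact_mod_cast h2)
      haveI := w.isPrime
      exact ⟨⟨w.asIdeal.under (𝓞 K), inferInstance, hne⟩, hS _ h2, rfl⟩)
    have h3 := hNILR p l k ↥(K ⊔ B n) g (hyp n _ g fix)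
    exact h3.trans (Nat.mul_le_mul_left l h1)
  · intro m hlt
    have hle : K ⊔ B m ≤ K ⊔ B (m + 1) := sup_le_sup_left (hmono (Nat.le_succ m)) K
    letI akM := algC (hk.trans le_sup_left : k ≤ K ⊔ B m)
    letI aML := algC hle
    letI akL := algC (hk.trans le_sup_left : k ≤ K ⊔ B (m + 1))
    haveI : IsScalarTower k ↥(K ⊔ B m) ↥(K ⊔ B (m + 1)) := towerC _ hle
    obtain ⟨g, ord, -, hm⟩ := hGAL p k K B hk hcop hB hmono (m + 1) (hk.trans le_sup_left)
    obtain ⟨ord', fix'⟩ := hm m (Nat.le_succ m)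
    have hcyc : CycExt k ↥(K ⊔ B m) ↥(K ⊔ B (m + 1)) (g ^ (p ^ m)) p := by
      refine ⟨by rw [ord']; simp, fun x => ?_⟩
      rw [fix' x]
      constructor
      · intro hx
        exact ⟨⟨(x : ℂ), hx⟩, rfl⟩
      · rintro ⟨y, rfl⟩
        exact y.2
    have hg1 : g ^ (p ^ (m + 1)) = 1 := by
      rw [← ord]
      exact pow_orderOf_eq_one g
    have h4 := hSTEP p m k ↥(K ⊔ B m) ↥(K ⊔ B (m + 1)) g hg1 hcyc hlt
    show padicValNat p (classNo (K ⊔ B (m + 1))) ≤
      padicValNat p (classNo (K ⊔ B m)) + rkp p ↥(K ⊔ B (m + 1))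
    rw [classNo_eq, classNo_eq]
    exact h4

end MU3
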