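import Pool.Agent.MU3.NStmts

/-!
# Module MU3N_NIL: nilpotency and few invariants bound the rank
-/

namespace MU3


namespace Nil

variable {A : Type} [AddCommGroup A] [Finite A]

theorem card_ker_eq (φ : A →+ A) : Nat.card φ.ker = φ.range.index := by
  have h1 : Nat.card φ.ker * φ.ker.index = Nat.card A := φ.ker.card_mul_index
  have h2 : Nat.card φ.range * φ.range.index = Nat.card A := φ.range.card_mul_index
  rw [AddSubgroup.index_ker] at h1
  have h3 : 0 < Nat.card φ.range := Nat.card_pos
  have h4 : Nat.card φ.range * Nat.card φ.ker = Nat.card φ.range * φ.range.index := by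
    rw [h2, ← h1, mul_comm]
  exact Nat.eq_of_mul_eq_mul_left h3 h4

omit [Finite A] in
theorem card_ker_comp (f g : A →+ A) :
    Nat.card (g.comp f).ker ∣ Nat.card f.ker * Nat.card g.ker := by
  have hmem : ∀ x : (g.comp f).ker, f (x : A) ∈ g.ker := fun x => x.2
  let ρ : (g.comp f).ker →+ g.ker := (f.comp (g.comp f).ker.subtype).codRestrict g.ker hmem
  have h1 : Nat.card ρ.ker * ρ.ker.index = Nat.card (g.comp f).ker := ρ.ker.card_mul_index
  rw [AddSubgroup.index_ker] at h1
  rw [← h1]
  refine mul_dvd_mul ?_ (AddSubgroup.card_addSubgroup_dvd_card _)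
  have hmem2 : ∀ x : ρ.ker, ((x : (g.comp f).ker) : A) ∈ f.ker := fun x => by
    have h := x.2
    rw [AddMonoidHom.mem_ker] at h
    have h' := congrArg Subtype.val h
    exact h'
  let σ : ρ.ker →+ f.ker := ((g.comp f).ker.subtype.comp ρ.ker.subtype).codRestrict f.ker hmem2
  refine AddSubgroup.card_dvd_of_injective σ ?_
  intro x y hxy
  have h := congrArg Subtype.val hxy
  exact Subtype.ext (Subtype.ext h)

omit [Finite A] in
theorem card_ker_pow (T : AddMonoid.End A) (l : ℕ) :
    Nat.card (AddMonoidHom.ker (T ^ l : AddMonoid.End A)) ∣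
      Nat.card (AddMonoidHom.ker (T : AddMonoid.End A)) ^ l := by
  induction l with
  | zero =>
    rw [pow_zero, pow_zero]
    have : Nat.card (AddMonoidHom.ker (1 : AddMonoid.End A)) = 1 := by
      rw [Nat.card_eq_one_iff_unique]
      refine ⟨⟨fun x y => ?_⟩, ⟨0⟩⟩
      have hx : (x : A) = 0 := x.2
      have hy : (y : A) = 0 := y.2
      exact Subtype.ext (hx.trans hy.symm)
    rw [this]
  | succ l ih =>
    have h : (T ^ (l + 1) : AddMonoid.End A) = AddMonoidHom.comp (T ^ l : AddMonoid.End A) T := by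
      rw [pow_succ]
      rfl
    rw [h, pow_succ]
    refine (card_ker_comp T (T ^ l : AddMonoid.End A)).trans ?_
    rw [mul_comm]
    exact mul_dvd_mul_right ih _

theorem val_le (p : ℕ) [Fact p.Prime] {a b : ℕ} (h : a ∣ b) (hb : b ≠ 0) :
    padicValNat p a ≤ padicValNat p b := by
  obtain ⟨c, rfl⟩ := h
  have ha : a ≠ 0 := fun h => hb (by rw [h, zero_mul])
  have hc : c ≠ 0 := fun h => hb (by rw [h, mul_zero])
  rw [padicValNat.mul ha hc]
  omega

end Nil

open Nil in
theorem n_NIL : N_NIL := by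
  intro p l _ A _ _ γ h
  have h1 : Nat.card {x : A // p • x = 0} = Nat.card (nsmulAddMonoidHom (α := A) p).ker := by
    refine Nat.card_congr (Equiv.subtypeEquivRight fun x => ?_)
    rw [AddMonoidHom.mem_ker]
    rfl
  have h2 : AddMonoidHom.range ((γ - 1) ^ l : AddMonoid.End A) ≤
      (nsmulAddMonoidHom (α := A) p).range := by
    rintro _ ⟨x, rfl⟩
    obtain ⟨y, hy⟩ := h x
    exact ⟨y, hy.symm⟩
  have h3 : Nat.card (nsmulAddMonoidHom (α := A) p).ker ∣
      Nat.card (AddMonoidHom.ker ((γ - 1) ^ l : AddMonoid.End A)) := by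
    have e2 : Nat.card (AddMonoidHom.ker ((γ - 1) ^ l : AddMonoid.End A)) =
        (AddMonoidHom.range ((γ - 1) ^ l : AddMonoid.End A)).index := card_ker_eq _
    rw [card_ker_eq (nsmulAddMonoidHom (α := A) p), e2]
    exact AddSubgroup.index_dvd_of_le h2
  have h4 := h3.trans (card_ker_pow (γ - 1) l)
  have hpos : Nat.card (AddMonoidHom.ker (γ - 1 : AddMonoid.End A)) ≠ 0 := Nat.card_pos.ne'
  rw [h1]
  refine (val_le p h4 (pow_ne_zero _ hpos)).trans ?_
  rw [padicValNat.pow]

end MU3
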