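import Pool.Agent.MU3.NStmts
import Pool.Agent.RI.CL

/-!
# MU3, section 4: the action of an automorphism on the class group (helper3)
-/

open NumberField Finset IsDedekindDomain
open scoped nonZeroDivisors Pointwise

namespace MU3

open Pool.Agent.RI Pool.Agent.RID

namespace NQ

variable {F L : Type} [Field F] [Field L] [NumberField L] [Algebra F L]

/-- the action on the class group -/
noncomputable def gC (g : L ≃ₐ[F] L) : (J L ⧸ PI L) →* (J L ⧸ PI L) :=
  QuotientGroup.map (PI L) (PI L) (MulDistribMulAction.toMonoidHom (J L) g) (by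
    rintro _ ⟨x, rfl⟩
    rw [Subgroup.mem_comap]
    exact ⟨g • x, (smul_prin g x).symm⟩)

/-- the class group, additive -/
def ClA (L : Type) [Field L] [NumberField L] : Type := Additive (J L ⧸ PI L)

noncomputable instance (L : Type) [Field L] [NumberField L] : AddCommGroup (ClA L) :=
  inferInstanceAs (AddCommGroup (Additive (J L ⧸ PI L)))

instance (L : Type) [Field L] [NumberField L] : Finite (ClA L) := CL.finite_quot L

/-- the same, additive -/
noncomputable def gA (g : L ≃ₐ[F] L) : AddMonoid.End (ClA L) :=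
  MonoidHom.toAdditive (gC g)

/-- the class of an ideal, additive -/
noncomputable def cl (b : J L) : ClA L :=
  Additive.ofMul (QuotientGroup.mk b : J L ⧸ PI L)

lemma cl_surj (x : ClA L) : ∃ b : J L, cl b = x := by
  obtain ⟨b, hb⟩ := QuotientGroup.mk_surjective (Additive.toMul x)
  exact ⟨b, by rw [cl, hb]; rfl⟩

lemma cl_mul (b c : J L) : cl (b * c) = cl b + cl c := rfl

lemma cl_one : cl (1 : J L) = 0 := rfl

lemma cl_inv (b : J L) : cl b⁻¹ = -cl b := rfl

lemma cl_pow (b : J L) (k : ℕ) : cl (b ^ k) = k • cl b := rfl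

lemma cl_div (b c : J L) : cl (b / c) = cl b - cl c := rfl

lemma cl_eq_zero (b : J L) : cl b = 0 ↔ b ∈ PI L := by
  rw [cl]
  exact QuotientGroup.eq_one_iff b

lemma cl_prin (x : Lˣ) : cl (prin x : J L) = 0 := (cl_eq_zero _).2 ⟨x, rfl⟩

lemma gA_cl (g : L ≃ₐ[F] L) (b : J L) : gA g (cl b) = cl (g • b) := rfl

lemma gA_pow_cl (g : L ≃ₐ[F] L) (k : ℕ) (b : J L) : (gA g ^ k) (cl b) = cl (g ^ k • b) := by
  induction k generalizing b with
  | zero => rw [pow_zero, pow_zero, one_smul]; rfl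
  | succ k ih =>
    have : (gA g ^ (k + 1)) (cl b) = (gA g ^ k) (gA g (cl b)) := by rw [pow_succ]; rfl
    rw [this, gA_cl, ih, pow_succ, mul_smul]

lemma T_cl (g : L ≃ₐ[F] L) (b : J L) : (gA g - 1 : AddMonoid.End (ClA L)) (cl b) = -cl (dg g b) := by
  have h1 : (gA g - 1 : AddMonoid.End (ClA L)) (cl b) = gA g (cl b) - cl b := rfl
  rw [h1, gA_cl, dg_apply, cl_div]
  abel

lemma T_pow_cl (g : L ≃ₐ[F] L) (l : ℕ) (b : J L) :
    ((gA g - 1 : AddMonoid.End (ClA L)) ^ l) (cl b) = cl ((dg g)^[l] b) ∨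
      ((gA g - 1 : AddMonoid.End (ClA L)) ^ l) (cl b) = -cl ((dg g)^[l] b) := by
  induction l generalizing b with
  | zero => left; rfl
  | succ l ih =>
    have h1 : ((gA g - 1 : AddMonoid.End (ClA L)) ^ (l + 1)) (cl b) =
        ((gA g - 1 : AddMonoid.End (ClA L)) ^ l) ((gA g - 1 : AddMonoid.End (ClA L)) (cl b)) := by
      rw [pow_succ]; rfl
    rw [h1, T_cl, map_neg, Function.iterate_succ_apply]
    rcases ih (dg g b) with h | h
    · right; rw [h]
    · left; rw [h, neg_neg]

lemma card_tors (p : ℕ) : Nat.card {x : ClA L // p • x = 0} =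
    Nat.card {c : J L ⧸ PI L // c ^ p = 1} :=
  Nat.card_congr (Equiv.subtypeEquiv Additive.toMul (fun _ => Iff.rfl))

lemma card_all : Nat.card (ClA L) = NumberField.classNumber L := by
  rw [CL.classNumber_eq L]
  rfl

lemma card_ker (g : L ≃ₐ[F] L) :
    Nat.card (AddMonoidHom.ker (gA g - 1 : AddMonoid.End (ClA L))) =
      (PI L).relIndex ((PI L).comap (dg g)) := by
  have hPU : PI L ≤ (PI L).comap (dg g) := by
    rintro _ ⟨x, rfl⟩
    rw [Subgroup.mem_comap]
    refine ⟨x / g • x, ?_⟩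
    rw [map_div, dg_apply, smul_prin]
  have h1 : Nat.card ↥(((PI L).comap (dg g)).map (QuotientGroup.mk' (PI L))) =
      (PI L).relIndex ((PI L).comap (dg g)) := by
    rw [← Subgroup.relIndex_bot_left, ← Subgroup.map_bot (QuotientGroup.mk' (PI L)),
      Subgroup.relIndex_map_map, QuotientGroup.ker_mk', bot_sup_eq, sup_eq_left.2 hPU]
  rw [← h1]
  apply Nat.card_congr
  refine Equiv.subtypeEquiv Additive.toMul ?_
  intro a
  obtain ⟨b, rfl⟩ := cl_surj a
  have h2 : cl b ∈ AddMonoidHom.ker (gA g - 1 : AddMonoid.End (ClA L)) ↔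
      dg g b ∈ PI L := by
    rw [← cl_eq_zero, ← neg_eq_zero, AddMonoidHom.mem_ker]
    constructor
    · intro h
      exact (T_cl g b).symm.trans h
    · intro h
      exact (T_cl g b).trans h
  rw [h2]
  constructor
  · intro h
    exact ⟨b, h, rfl⟩
  · rintro ⟨c, hc, hbc⟩
    have h3 : c⁻¹ * b ∈ PI L := QuotientGroup.eq.1 hbc
    have h4 : c * (c⁻¹ * b) ∈ (PI L).comap (dg g) := mul_mem hc (hPU h3)
    rw [mul_inv_cancel_left] at h4
    exact h4

end NQ

open NQ in
theorem n_NILR (h : N_NIL) : N_NILR := by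
  intro p l _ F L _ _ _ _ g hb
  have h1 := h p l (ClA L) (gA g) (by
    intro x
    obtain ⟨b, rfl⟩ := cl_surj x
    obtain ⟨y, z, hy⟩ := hb b
    have h2 : cl ((dg g)^[l] b) = p • cl y := by
      rw [hy, cl_mul, cl_prin, add_zero, cl_pow]
    rcases T_pow_cl g l b with h3 | h3
    · exact ⟨cl y, by rw [h3, h2]⟩
    · exact ⟨-cl y, by rw [h3, h2, smul_neg]⟩)
  rw [card_tors, card_ker] at h1
  exact h1

end MU3
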