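import Pool.Agent.MU3.N_Q
import Pool.Agent.RID.P_ALG2
import Pool.Agent.RID.P_CYC

/-!
# MU3N_STEP: one step of the tower (helper3)
-/

open NumberField Finset IsDedekindDomain
open scoped nonZeroDivisors Pointwise

namespace MU3

open Pool.Agent.RI Pool.Agent.RID

namespace NStep

open NQ

lemma padic_mono (p : ℕ) [Fact p.Prime] {a b : ℕ} (hb : b ≠ 0) (h : a ∣ b) :
    padicValNat p a ≤ padicValNat p b := by
  obtain ⟨c, rfl⟩ := h
  have ha : a ≠ 0 := by rintro rfl; simp at hb
  have hc : c ≠ 0 := by rintro rfl; simp at hb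
  rw [padicValNat.mul ha hc]
  omega

lemma sum_apply {A : Type} [AddCommGroup A] (s : Finset ℕ) (f : ℕ → AddMonoid.End A) (x : A) :
    (∑ j ∈ s, f j) x = ∑ j ∈ s, f j x := by
  classical
  induction s using Finset.induction_on with
  | empty => rfl
  | insert a s ha ih =>
    rw [Finset.sum_insert ha, Finset.sum_insert ha, ← ih]
    rfl

lemma cl_prod {L : Type} [Field L] [NumberField L] (s : Finset ℕ) (f : ℕ → J L) :
    cl (∏ j ∈ s, f j) = ∑ j ∈ s, cl (f j) := by
  classical
  induction s using Finset.induction_on with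
  | empty => rfl
  | insert a s ha ih =>
    rw [Finset.prod_insert ha, Finset.sum_insert ha, ← ih, cl_mul]

/-- extension of ideal classes -/
noncomputable def eC (M L : Type) [Field M] [NumberField M] [Field L] [NumberField L]
    [Algebra M L] : (J M ⧸ PI M) →* (J L ⧸ PI L) :=
  QuotientGroup.map (PI M) (PI L) (ext M L) (by
    rintro _ ⟨x, rfl⟩
    rw [Subgroup.mem_comap, ext_prin]
    exact ⟨_, rfl⟩)

/-- the same, additive -/
noncomputable def eA (M L : Type) [Field M] [NumberField M] [Field L] [NumberField L]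
    [Algebra M L] : ClA M →+ ClA L := MonoidHom.toAdditive (eC M L)

lemma eA_cl (M L : Type) [Field M] [NumberField M] [Field L] [NumberField L]
    [Algebra M L] (b : J M) : eA M L (cl b) = cl (ext M L b) := rfl

end NStep

open NQ NStep in
theorem n_STEP : N_STEP := by
  intro p m _ F M L _ _ _ _ _ _ _ _ _ _ g hg hcyc hlt
  obtain ⟨hgal, -, -, -, -, -, hng, -, -, -, -⟩ := t_CYC F M L (g ^ (p ^ m)) p hcyc
  have hγ : (gA g : AddMonoid.End (ClA L)) ^ (p ^ (m + 1)) = 1 := by
    apply AddMonoidHom.ext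
    intro x
    obtain ⟨b, rfl⟩ := cl_surj x
    have h1 := gA_pow_cl g (p ^ (m + 1)) b
    rw [hg, one_smul] at h1
    exact h1
  have hr : padicValNat p (Nat.card {x : ClA L // p • x = 0}) = rkp p L := by
    rw [card_tors]
    rfl
  have h2 := t_ALG2 p m (ClA L) (gA g) hγ (by rw [hr]; exact hlt)
  rw [hr, card_all] at h2
  have hle : AddMonoidHom.range (∑ j ∈ range p, gA g ^ (p ^ m * j) : AddMonoid.End (ClA L)) ≤
      AddMonoidHom.range (eA M L) := by
    rintro _ ⟨x, rfl⟩
    obtain ⟨b, rfl⟩ := cl_surj x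
    obtain ⟨c, hc⟩ := CL.nm_mem (F := M) b
    have h3 : (∑ j ∈ range p, gA g ^ (p ^ m * j) : AddMonoid.End (ClA L)) (cl b) =
        cl (ng (g ^ (p ^ m)) p b) := by
      rw [NStep.sum_apply, ng_apply, cl_prod]
      apply Finset.sum_congr rfl
      intro j _
      rw [gA_pow_cl, pow_mul]
    have h4 : (∑ j ∈ range p, gA g ^ (p ^ m * j) : AddMonoid.End (ClA L)) (cl b) =
        eA M L (cl c) := by
      rw [h3, hng b, eA_cl, hc]
      rfl
    exact ⟨cl c, h4.symm⟩
  have hd1 : Nat.card (AddMonoidHom.range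
      (∑ j ∈ range p, gA g ^ (p ^ m * j) : AddMonoid.End (ClA L))) ∣
      Nat.card (AddMonoidHom.range (eA M L)) := AddSubgroup.card_dvd_of_le hle
  have hd2 : Nat.card (AddMonoidHom.range (eA M L)) ∣ NumberField.classNumber M := by
    rw [← card_all (L := M)]
    exact AddSubgroup.card_range_dvd (eA M L)
  have hcn : NumberField.classNumber M ≠ 0 := by
    rw [NumberField.classNumber]
    exact Fintype.card_ne_zero
  exact h2.trans (Nat.add_le_add_right (padic_mono p hcn (hd1.trans hd2)) _)

end MU3
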