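import Pool.Agent.MU3.StP

/-!
# MU3, block P: the number of primes above a prime number in `ℚ(ζ_(p^m))` is bounded (NPC)
-/

open NumberField Finset IsDedekindDomain
open scoped nonZeroDivisors Pointwise

namespace MU3

open Pool.Agent.RI Pool.Agent.RID

namespace NPC

/-- the order of `ℓ` modulo `p ^ m` is at least `p ^ (m - c)` -/
theorem val_bd (p ℓ : ℕ) [hp : Fact p.Prime] (hl : ℓ.Prime) (hne : ℓ ≠ p) :
    ∃ c : ℕ, ∀ m d : ℕ, d ≠ 0 → p ^ m ∣ ℓ ^ d - 1 → p ^ m ≤ p ^ c * d := by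
  have hpl : ¬ p ∣ ℓ := by
    intro h
    exact hne ((Nat.prime_dvd_prime_iff_eq hp.out hl).1 h).symm
  have hl1 : 1 < ℓ := hl.one_lt
  -- the last step
  have key : ∀ c m d : ℕ, d ≠ 0 → m ≤ c + padicValNat p d → p ^ m ≤ p ^ c * d := by
    intro c m d hd hm
    have h1 : p ^ padicValNat p d ≤ d := Nat.le_of_dvd (Nat.pos_of_ne_zero hd) pow_padicValNat_dvd
    calc p ^ m ≤ p ^ (c + padicValNat p d) := Nat.pow_le_pow_right hp.out.pos hm
      _ = p ^ c * p ^ padicValNat p d := pow_add _ _ _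
      _ ≤ p ^ c * d := Nat.mul_le_mul_left _ h1
  rcases hp.out.eq_two_or_odd' with h2 | hodd
  · subst h2
    refine ⟨padicValNat 2 (ℓ + 1) + padicValNat 2 (ℓ - 1), fun m d hd hdvd => ?_⟩
    apply key _ _ _ hd
    have h1 := padicValNat.pow_two_sub_one hl1 hpl (n := 2 * d) (by omega) (even_two_mul d)
    have h3 : padicValNat 2 (2 * d) = 1 + padicValNat 2 d := by
      rw [padicValNat.mul (by norm_num) hd, padicValNat_self]
    have h4 : ℓ ^ d - 1 ∣ ℓ ^ (2 * d) - 1 := by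
      have h5 := Nat.sub_dvd_pow_sub_pow (ℓ ^ d) 1 2
      rwa [one_pow, ← pow_mul, mul_comm d 2] at h5
    have h6 : ℓ ^ (2 * d) - 1 ≠ 0 :=
      Nat.sub_ne_zero_of_lt (Nat.one_lt_pow (by omega) hl1)
    have h7 := (padicValNat_dvd_iff_le (p := 2) h6).1 (hdvd.trans h4)
    omega
  · have hp2 : 2 ≤ p := hp.out.two_le
    have hp1 : p - 1 ≠ 0 := by omega
    have hM1 : 1 < ℓ ^ (p - 1) := Nat.one_lt_pow hp1 hl1
    have hcop : Nat.Coprime ℓ p := (Nat.coprime_primes hl hp.out).2 hne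
    have hM : p ∣ ℓ ^ (p - 1) - 1 := by
      have h1 := Nat.ModEq.pow_totient hcop
      rw [Nat.totient_prime hp.out] at h1
      exact (Nat.modEq_iff_dvd' hM1.le).1 h1.symm
    have hMp : ¬ p ∣ ℓ ^ (p - 1) := fun h => hpl (hp.out.dvd_of_dvd_pow h)
    refine ⟨padicValNat p (ℓ ^ (p - 1) - 1), fun m d hd hdvd => ?_⟩
    apply key _ _ _ hd
    have h1 := padicValNat.pow_sub_pow hodd (x := ℓ ^ (p - 1)) (y := 1) hM1 hM hMp hd
    rw [one_pow] at h1
    have h4 : ℓ ^ d - 1 ∣ (ℓ ^ (p - 1)) ^ d - 1 := by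
      have h5 := Nat.sub_dvd_pow_sub_pow (ℓ ^ d) 1 (p - 1)
      rwa [one_pow, ← pow_mul, mul_comm d (p - 1), pow_mul] at h5
    have h6 : (ℓ ^ (p - 1)) ^ d - 1 ≠ 0 :=
      Nat.sub_ne_zero_of_lt (Nat.one_lt_pow hd hM1)
    have h7 := (padicValNat_dvd_iff_le (p := p) h6).1 (hdvd.trans h4)
    omega

/-- primes containing `ℓ` are primes over `ℓ` -/
theorem card_le (ℓ : ℕ) [hl : Fact ℓ.Prime] (C : Type) [Field C] [NumberField C] :
    Nat.card {v : HeightOneSpectrum (𝓞 C) // (ℓ : 𝓞 C) ∈ v.asIdeal} ≤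
      ((Ideal.span {(ℓ : ℤ)}).primesOver (𝓞 C)).ncard := by
  have hmax : (Ideal.span {(ℓ : ℤ)}).IsMaximal := Int.ideal_span_isMaximal_of_prime ℓ
  have hfin : Finite ((Ideal.span {(ℓ : ℤ)}).primesOver (𝓞 C)) :=
    Algebra.QuasiFinite.finite_primesOver _
  have hover : ∀ v : {v : HeightOneSpectrum (𝓞 C) // (ℓ : 𝓞 C) ∈ v.asIdeal},
      v.1.asIdeal ∈ (Ideal.span {(ℓ : ℤ)}).primesOver (𝓞 C) := by
    intro v
    refine ⟨v.1.isPrime, ⟨?_⟩⟩
    refine hmax.eq_of_le (v.1.isPrime.comap _).ne_top ?_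
    rw [Ideal.span_singleton_le_iff_mem, Ideal.mem_comap]
    have h1 := v.2
    simpa using h1
  rw [← Nat.card_coe_set_eq]
  refine Nat.card_le_card_of_injective
    (fun v => (⟨v.1.asIdeal, hover v⟩ : (Ideal.span {(ℓ : ℤ)}).primesOver (𝓞 C))) ?_
  intro v w h
  have h1 : v.1.asIdeal = w.1.asIdeal := congrArg Subtype.val h
  exact Subtype.ext (HeightOneSpectrum.ext h1)

/-- the fundamental identity for `ℚ(ζ_(p^m))` -/
theorem fund (p ℓ m : ℕ) [hp : Fact p.Prime] [hl : Fact ℓ.Prime] (C : Type) [Field C]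
    [NumberField C] [IsCyclotomicExtension {p ^ m} ℚ C] :
    ((Ideal.span {(ℓ : ℤ)}).primesOver (𝓞 C)).ncard *
      ((Ideal.span {(ℓ : ℤ)}).ramificationIdxIn (𝓞 C) *
        (Ideal.span {(ℓ : ℤ)}).inertiaDegIn (𝓞 C)) = (p ^ m).totient := by
  have : IsGalois ℚ C := IsCyclotomicExtension.isGalois {p ^ m} ℚ C
  have : NeZero (p ^ m) := ⟨pow_ne_zero m hp.out.ne_zero⟩
  have hmax : (Ideal.span {(ℓ : ℤ)}).IsMaximal := Int.ideal_span_isMaximal_of_prime ℓ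
  have h_main := Ideal.ncard_primesOver_mul_ramificationIdxIn_mul_inertiaDegIn
    (Ideal.span {(ℓ : ℤ)}) (𝓞 C) Gal(C/ℚ)
  rw [h_main, IsGaloisGroup.card_eq_finrank Gal(C/ℚ) ℚ C,
    IsCyclotomicExtension.Rat.finrank (p ^ m) C]

end NPC

open NPC

theorem p_NPC : P_NPC := by
  intro p ℓ hp hl
  have hlf : Fact ℓ.Prime := ⟨hl⟩
  by_cases hne : ℓ = p
  · subst hne
    refine ⟨1, fun m C _ _ _ => ?_⟩
    refine (card_le ℓ C).trans ?_
    rcases m with _ | k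
    · have h1 := fund ℓ ℓ 0 C
      rw [pow_zero, Nat.totient_one] at h1
      exact (Nat.eq_one_of_mul_eq_one_right h1).le
    · exact (IsCyclotomicExtension.Rat.ncard_primesOver_of_prime_pow ℓ k C).le
  · obtain ⟨c, hc⟩ := val_bd p ℓ hl hne
    refine ⟨p ^ c, fun m C _ _ _ => ?_⟩
    refine (card_le ℓ C).trans ?_
    have : NeZero (p ^ m) := ⟨pow_ne_zero m hp.out.ne_zero⟩
    have h1 := fund p ℓ m C
    have hnd : ¬ ℓ ∣ p ^ m := fun h =>
      hne ((Nat.prime_dvd_prime_iff_eq hl hp.out).1 (hl.dvd_of_dvd_pow h))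
    rw [IsCyclotomicExtension.Rat.ramificationIdxIn_eq_of_not_dvd ℓ C hnd,
      IsCyclotomicExtension.Rat.inertiaDegIn_eq_of_not_dvd ℓ C hnd, one_mul] at h1
    set f := orderOf (ℓ : ZMod (p ^ m)) with hf
    set g := ((Ideal.span {(ℓ : ℤ)}).primesOver (𝓞 C)).ncard with hg
    have hpos : 0 < (p ^ m).totient := Nat.totient_pos.2 (pow_pos hp.out.pos m)
    have hf0 : f ≠ 0 := by
      intro h
      rw [h, mul_zero] at h1
      omega
    have hdvd : p ^ m ∣ ℓ ^ f - 1 := by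
      have h2 : ((ℓ ^ f : ℕ) : ZMod (p ^ m)) = ((1 : ℕ) : ZMod (p ^ m)) := by
        push_cast
        exact pow_orderOf_eq_one _
      have h3 := (ZMod.natCast_eq_natCast_iff _ _ _).1 h2
      exact (Nat.modEq_iff_dvd' (Nat.one_le_pow _ _ hl.pos)).1 h3.symm
    have h2 := hc m f hf0 hdvd
    have h3 : (p ^ m).totient ≤ p ^ m := Nat.totient_le _
    have h4 : g * f ≤ p ^ c * f := by omega
    exact Nat.le_of_mul_le_mul_right h4 (Nat.pos_of_ne_zero hf0)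

end MU3
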