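import Pool.Agent.MU3.StP
import Pool.Agent.RI.LAY

/-!
# MU3, module NPL: the number of primes above `ℓ` in `F B_n` is bounded in `n`

`F B_n ≤ F ℚ(ζ)`: every prime of `F B_n` has a prime of `F ℚ(ζ)` above it, and a prime of `ℚ(ζ)` has at most
`[F ℚ(ζ) : ℚ(ζ)] ≤ [F : ℚ]` primes of `F ℚ(ζ)` above it.
-/

open NumberField Finset IsDedekindDomain
open scoped nonZeroDivisors Pointwise

namespace MU3

open Pool.Agent.RI Pool.Agent.RID

namespace NPL

/-- the primes above `ℓ` -/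
abbrev PR (L : Type) [Field L] (ℓ : ℕ) : Type :=
  {v : HeightOneSpectrum (𝓞 L) // (ℓ : 𝓞 L) ∈ v.asIdeal}

lemma fin (L : Type) [Field L] [NumberField L] (ℓ : ℕ) (hℓ : ℓ ≠ 0) : Finite (PR L ℓ) := by
  have h0 : Ideal.span {(ℓ : 𝓞 L)} ≠ 0 := by
    rw [Ne, Ideal.zero_eq_bot, Ideal.span_singleton_eq_bot]
    exact_mod_cast hℓ
  have h := Ideal.finite_factors h0
  refine Set.Finite.subset h fun v hv => ?_
  show v.asIdeal ∣ Ideal.span {(ℓ : 𝓞 L)}
  rw [Ideal.dvd_span_singleton]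
  exact hv

/-- the prime below -/
noncomputable def dn (K L : Type) [Field K] [NumberField K] [Field L] [NumberField L] [Algebra K L]
    (ℓ : ℕ) (w : PR L ℓ) : PR K ℓ :=
  ⟨HeightOneSpectrum.under (𝓞 K) w.1, by
    show (ℓ : 𝓞 K) ∈ w.1.asIdeal.under (𝓞 K)
    rw [Ideal.mem_comap, map_natCast]
    exact w.2⟩

lemma dn_surj (K L : Type) [Field K] [NumberField K] [Field L] [NumberField L] [Algebra K L]
    (ℓ : ℕ) : Function.Surjective (dn K L ℓ) := by
  intro v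
  have hp : v.1.asIdeal.IsPrime := v.1.isPrime
  have hmax : v.1.asIdeal.IsMaximal := v.1.isMaximal
  obtain ⟨P, hPm, hP⟩ := Ideal.exists_maximal_ideal_liesOver_of_isIntegral (S := 𝓞 L) v.1.asIdeal
  have hov : v.1.asIdeal = P.under (𝓞 K) := hP.over
  have hne : P ≠ ⊥ := by
    intro h
    apply v.1.ne_bot
    rw [hov, h]
    exact Ideal.comap_bot_of_injective _
      (FaithfulSMul.algebraMap_injective (𝓞 K) (𝓞 L))
  have hmem : (ℓ : 𝓞 L) ∈ P := by
    have h1 : (ℓ : 𝓞 K) ∈ P.under (𝓞 K) := hov ▸ v.2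
    rwa [Ideal.mem_comap, map_natCast] at h1
  refine ⟨⟨⟨P, hPm.isPrime, hne⟩, hmem⟩, ?_⟩
  apply Subtype.ext
  apply HeightOneSpectrum.ext
  exact hov.symm

lemma card_down (K L : Type) [Field K] [NumberField K] [Field L] [NumberField L] [Algebra K L]
    (ℓ : ℕ) (hℓ : ℓ ≠ 0) : Nat.card (PR K ℓ) ≤ Nat.card (PR L ℓ) := by
  have := fin L ℓ hℓ
  exact Nat.card_le_card_of_surjective _ (dn_surj K L ℓ)

lemma card_up (K L : Type) [Field K] [NumberField K] [Field L] [NumberField L] [Algebra K L]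
    (ℓ : ℕ) (hℓ : ℓ ≠ 0) :
    Nat.card (PR L ℓ) ≤ Module.finrank K L * Nat.card (PR K ℓ) := by
  classical
  have h1 := fin L ℓ hℓ
  have h2 := fin K ℓ hℓ
  have : Fintype (PR L ℓ) := Fintype.ofFinite _
  have : Fintype (PR K ℓ) := Fintype.ofFinite _
  rw [Nat.card_eq_fintype_card, Nat.card_eq_fintype_card]
  have key := Finset.card_le_mul_card_image (f := dn K L ℓ) (Finset.univ : Finset (PR L ℓ))
    (Module.finrank K L) (fun v _ => by
      have hmax : v.1.asIdeal.IsMaximal := v.1.isMaximal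
      have hnz : NoZeroSMulDivisors (𝓞 K) (𝓞 L) := ⟨fun {a b} h => by
        rw [Algebra.smul_def, mul_eq_zero] at h
        rcases h with h | h
        · exact Or.inl ((FaithfulSMul.algebraMap_injective (𝓞 K) (𝓞 L)) (by rw [h, map_zero]))
        · exact Or.inr h⟩
      have hle := Ideal.card_primesOverFinset_le_finrank (R := 𝓞 K) (S := 𝓞 L) K L
        (p := v.1.asIdeal) v.1.ne_bot
      refine le_trans ?_ hle
      refine Finset.card_le_card_of_injOn (fun w : PR L ℓ => w.1.asIdeal) ?_ ?_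
      · intro w hw
        have hw' : dn K L ℓ w = v := (Finset.mem_filter.1 hw).2
        refine (IsDedekindDomain.mem_primesOverFinset_iff v.1.ne_bot _).2 ⟨w.1.isPrime, ⟨?_⟩⟩
        rw [← hw']
        rfl
      · intro w _ w' _ h
        exact Subtype.ext (HeightOneSpectrum.ext h))
  refine le_trans key (Nat.mul_le_mul_left _ ?_)
  exact Finset.card_le_univ _

lemma cyc (p m : ℕ) [hp : Fact p.Prime] :
    IsCyclotomicExtension {p ^ m} ℚ
      ↥(IntermediateField.adjoin ℚ {z : ℂ | z ^ (p ^ m) = 1}) := by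
  have hN : p ^ m ≠ 0 := pow_ne_zero m hp.out.ne_zero
  have h := IntermediateField.isCyclotomicExtension_adjoin_of_exists_isPrimitiveRoot
    ({p ^ m} : Set ℕ) ℚ ℂ (fun n hn _ => by
      rw [Set.mem_singleton_iff] at hn
      rw [hn]
      exact ⟨_, Complex.isPrimitiveRoot_exp _ hN⟩)
  have hset : {x : ℂ | ∃ n ∈ ({p ^ m} : Set ℕ), n ≠ 0 ∧ x ^ n = 1} =
      {z : ℂ | z ^ (p ^ m) = 1} := by
    ext x
    simp [hp.out.ne_zero]
  rw [hset] at h
  exact h

end NPL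

open NPL in
/-- The number of primes above `ℓ` in `F B_n` is bounded in `n`. -/
theorem p_NPL (h1 : P_NPC) : P_NPL := by
  intro p ℓ hp F hF B hℓ hB
  obtain ⟨t₀, ht₀⟩ := h1 p ℓ hℓ
  refine ⟨Module.finrank ℚ F * t₀, fun n hfd => ?_⟩
  have hℓ0 : ℓ ≠ 0 := hℓ.ne_zero
  have nfK : NumberField ↥(F ⊔ B n) := { to_charZero := inferInstance, to_finiteDimensional := hfd }
  refine ⟨?_, fin _ ℓ hℓ0⟩
  obtain ⟨-, -, m, hle⟩ := hB n
  set C : IntermediateField ℚ ℂ := IntermediateField.adjoin ℚ {z : ℂ | z ^ (p ^ m) = 1} with hC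
  have hcyc : IsCyclotomicExtension {p ^ m} ℚ ↥C := cyc p m
  have hN : p ^ m ≠ 0 := pow_ne_zero m hp.out.ne_zero
  have : NeZero (p ^ m) := ⟨hN⟩
  have hfC : FiniteDimensional ℚ ↥C := IsCyclotomicExtension.finiteDimensional {p ^ m} ℚ ↥C
  have nfC : NumberField ↥C := { to_charZero := inferInstance, to_finiteDimensional := hfC }
  have hfM : FiniteDimensional ℚ ↥(F ⊔ C) := IntermediateField.finiteDimensional_sup F C
  have nfM : NumberField ↥(F ⊔ C) := { to_charZero := inferInstance, to_finiteDimensional := hfM }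
  have hKM : F ⊔ B n ≤ F ⊔ C := sup_le_sup_left hle F
  have hCM : C ≤ F ⊔ C := le_sup_right
  have h2 : Nat.card (PR ↥(F ⊔ B n) ℓ) ≤ Nat.card (PR ↥(F ⊔ C) ℓ) := by
    let _ := algC hKM
    exact card_down _ _ ℓ hℓ0
  have h3 : Nat.card (PR ↥(F ⊔ C) ℓ) ≤ Module.finrank ℚ F * Nat.card (PR ↥C ℓ) := by
    let _ := algC hCM
    refine le_trans (card_up ↥C ↥(F ⊔ C) ℓ hℓ0) (Nat.mul_le_mul_right _ ?_)
    have h4 : Module.finrank ℚ ↥C * Module.finrank ↥C ↥(F ⊔ C) = Module.finrank ℚ ↥(F ⊔ C) :=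
      Module.finrank_mul_finrank ℚ ↥C ↥(F ⊔ C)
    have h5 : Module.finrank ℚ ↥(F ⊔ C) ≤ Module.finrank ℚ ↥F * Module.finrank ℚ ↥C :=
      IntermediateField.finrank_sup_le F C
    have h6 : 0 < Module.finrank ℚ ↥C := Module.finrank_pos
    have h7 : Module.finrank ℚ ↥C * Module.finrank ↥C ↥(F ⊔ C) ≤
        Module.finrank ℚ ↥C * Module.finrank ℚ ↥F := by
      rw [h4, mul_comm (Module.finrank ℚ ↥C)]; exact h5
    exact Nat.le_of_mul_le_mul_left h7 h6
  exact le_trans h2 (le_trans h3 (Nat.mul_le_mul_left _ (ht₀ m ↥C)))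

end MU3
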