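import Pool.Agent.MU3.StS3

/-!
# MU3: enough eigenfunctionals
-/

set_option autoImplicit false

namespace Pool.Agent.MU3

namespace P_EIG

open Finset

theorem exists_g (F : Type) [Field F] [CharP F 3] (I : Type) [CommGroup I] (P : Subgroup I)
    (h3 : ∀ x : I, x ^ 3 ∈ P) (v : I) (hv : v ∉ P) :
    ∃ g : I → F, (∀ x y, g (x * y) = g x + g y) ∧ (∀ x ∈ P, g x = 0) ∧ g v ≠ 0 := by
  have hz : ∀ x : Additive (I ⧸ P), 3 • x = 0 := by
    intro x
    obtain ⟨y, hy⟩ := QuotientGroup.mk_surjective (Additive.toMul x)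
    have h1 : ((y ^ 3 : I) : I ⧸ P) = 1 := (QuotientGroup.eq_one_iff _).mpr (h3 y)
    have h2 : Additive.toMul (3 • x) = 1 := by
      rw [toMul_nsmul, ← hy]
      exact h1
    exact h2
  let : Module (ZMod 3) (Additive (I ⧸ P)) := AddCommGroup.zmodModule hz
  have hv' : Additive.ofMul (v : I ⧸ P) ≠ 0 := by
    intro h
    exact hv ((QuotientGroup.eq_one_iff v).mp h)
  have : Fact (Nat.Prime 3) := ⟨Nat.prime_three⟩
  obtain ⟨φ, hφ⟩ : ∃ φ : Module.Dual (ZMod 3) (Additive (I ⧸ P)),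
      φ (Additive.ofMul (v : I ⧸ P)) ≠ 0 := by
    by_contra hcon
    push Not at hcon
    exact hv' ((Module.forall_dual_apply_eq_zero_iff (ZMod 3) _).mp hcon)
  refine ⟨fun x => ZMod.castHom (dvd_refl 3) F (φ (Additive.ofMul (x : I ⧸ P))), ?_, ?_, ?_⟩
  · intro x y
    have : Additive.ofMul ((x * y : I) : I ⧸ P) =
        Additive.ofMul (x : I ⧸ P) + Additive.ofMul (y : I ⧸ P) := rfl
    simp only [this, map_add]
  · intro x hx
    have : Additive.ofMul (x : I ⧸ P) = 0 := (QuotientGroup.eq_one_iff x).mpr hx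
    simp only [this, map_zero]
  · intro h
    exact hφ ((map_eq_zero_iff _ (RingHom.injective (ZMod.castHom (dvd_refl 3) F))).mp h)

theorem natCast_ne (F : Type) [Field F] [CharP F 3] (n : ℕ) (h : n.Coprime 3) :
    (n : F) ≠ 0 := by
  intro h0
  have h1 : 3 ∣ n := (CharP.cast_eq_zero_iff F 3 n).mp h0
  have h2 : 3 ∣ Nat.gcd n 3 := Nat.dvd_gcd h1 dvd_rfl
  rw [h] at h2
  exact absurd h2 (by decide)

theorem main (F : Type) [Field F] [CharP F 3] [IsAlgClosed F] (D I : Type) [CommGroup D]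
    [Finite D] [CommGroup I] [MulDistribMulAction D I] (hc : (Nat.card D).Coprime 3)
    (P : Subgroup I) (hP : ∀ g : D, ∀ x ∈ P, g • x ∈ P) (h3 : ∀ x : I, x ^ 3 ∈ P) (v : I)
    (hv : v ∉ P) :
    ∃ (χ : D →* Fˣ) (f : I → F), (∀ x y, f (x * y) = f x + f y) ∧ (∀ x ∈ P, f x = 0) ∧
      (∀ (δ : D) (x : I), f (δ • x) = (χ δ : F) * f x) ∧ f v ≠ 0 := by
  classical
  have : Fintype D := Fintype.ofFinite D
  obtain ⟨g, g1, g2, g3⟩ := exists_g F I P h3 v hv
  have hexp : ((Monoid.exponent D : ℕ) : F) ≠ 0 := by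
    refine natCast_ne F _ (Nat.Coprime.coprime_dvd_left ?_ hc)
    exact Group.exponent_dvd_nat_card
  have : NeZero ((Monoid.exponent D : ℕ) : F) := ⟨hexp⟩
  have : HasEnoughRootsOfUnity F (Monoid.exponent D) := inferInstance
  have hfin : Finite (D →* Fˣ) :=
    Finite.of_equiv D (CommGroup.monoidHom_mulEquiv_of_hasEnoughRootsOfUnity D F).some.symm.toEquiv
  have : Fintype (D →* Fˣ) := Fintype.ofFinite _
  have hcard : (Fintype.card (D →* Fˣ) : F) ≠ 0 := by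
    rw [← Nat.card_eq_fintype_card, CommGroup.card_monoidHom_of_hasEnoughRootsOfUnity]
    exact natCast_ne F _ hc
  have horth : ∀ δ : D, δ ≠ 1 → ∑ χ : D →* Fˣ, (((χ δ)⁻¹ : Fˣ) : F) = 0 := by
    intro δ hδ
    obtain ⟨φ, hφ⟩ := CommGroup.exists_apply_ne_one_of_hasEnoughRootsOfUnity D F hδ
    have h1 : ∑ χ : D →* Fˣ, (((χ δ)⁻¹ : Fˣ) : F) =
        ∑ χ : D →* Fˣ, ((((φ * χ) δ)⁻¹ : Fˣ) : F) :=
      (Fintype.sum_equiv (Equiv.mulLeft φ) _ _ (fun _ => rfl)).symm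
    have h2 : ∑ χ : D →* Fˣ, ((((φ * χ) δ)⁻¹ : Fˣ) : F) =
        (((φ δ)⁻¹ : Fˣ) : F) * ∑ χ : D →* Fˣ, (((χ δ)⁻¹ : Fˣ) : F) := by
      rw [Finset.mul_sum]
      refine Finset.sum_congr rfl fun χ _ => ?_
      rw [MonoidHom.mul_apply, mul_inv, Units.val_mul]
    have h3 : (1 - (((φ δ)⁻¹ : Fˣ) : F)) * ∑ χ : D →* Fˣ, (((χ δ)⁻¹ : Fˣ) : F) = 0 := by
      rw [sub_mul, one_mul, ← h2, ← h1, sub_self]
    rcases mul_eq_zero.mp h3 with h | h
    · exfalso
      apply hφ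
      have h4 : (((φ δ)⁻¹ : Fˣ) : F) = ((1 : Fˣ) : F) := by
        rw [Units.val_one]
        linear_combination -h
      have h5 := Units.ext h4
      exact inv_eq_one.mp h5
    · exact h
  by_contra hcon
  push Not at hcon
  have hf : ∀ χ : D →* Fˣ, ∑ δ : D, (((χ δ)⁻¹ : Fˣ) : F) * g (δ • v) = 0 := by
    intro χ
    refine hcon χ (fun x => ∑ δ : D, (((χ δ)⁻¹ : Fˣ) : F) * g (δ • x)) ?_ ?_ ?_
    · intro x y
      simp only [smul_mul', g1, mul_add, Finset.sum_add_distrib]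
    · intro x hx
      exact Finset.sum_eq_zero fun δ _ => by rw [g2 _ (hP δ x hx), mul_zero]
    · intro δ x
      rw [Finset.mul_sum]
      refine Fintype.sum_equiv (Equiv.mulRight δ) _ _ fun ε => ?_
      simp only [Equiv.coe_mulRight, map_mul, mul_inv, Units.val_mul, smul_smul]
      have : ((χ δ : Fˣ) : F) * (((χ δ)⁻¹ : Fˣ) : F) = 1 := Units.mul_inv _
      linear_combination -((((χ ε)⁻¹ : Fˣ) : F) * g ((ε * δ) • x)) * this
  have hsum : ∑ χ : D →* Fˣ, ∑ δ : D, (((χ δ)⁻¹ : Fˣ) : F) * g (δ • v) = 0 :=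
    Finset.sum_eq_zero fun χ _ => hf χ
  rw [Finset.sum_comm] at hsum
  rw [Finset.sum_eq_single (1 : D)] at hsum
  · simp only [map_one, inv_one, Units.val_one, one_mul, one_smul, Finset.sum_const,
      nsmul_eq_mul, Finset.card_univ] at hsum
    exact (mul_ne_zero hcard g3) hsum
  · intro δ _ hδ
    rw [← Finset.sum_mul, horth δ hδ, zero_mul]
  · intro h
    exact absurd (Finset.mem_univ _) h

end P_EIG

theorem t_EIG : S_EIG := by
  intro F _ _ _ G I _ _ _ D _ hcomm hcop P hP h3 v hv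
  let : CommGroup D :=
    { (inferInstance : Group D) with
      mul_comm := fun a b => Subtype.ext (hcomm a a.2 b b.2) }
  exact P_EIG.main F D I hcop P (fun g x hx => hP g x hx) h3 v hv

end Pool.Agent.MU3
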