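import Pool.Agent.MU3.StS3

/-!
# MU3, section 3, module LG: the cubic residue symbol at a prime of degree one
-/

set_option autoImplicit false

open NumberField IsDedekindDomain Finset
open scoped nonZeroDivisors Pointwise

namespace Pool.Agent.MU3

namespace P_LG

lemma core (κ : Type) [Field κ] [Finite κ] (q : ℕ) (hq : q.Prime) (h3 : 3 ∣ q - 1)
    (hcard : Nat.card κ = q) (U : Type) [CommGroup U] (φ : U →* κˣ) :
    ∃ (a : ℤ) (lg : U →* Multiplicative (ZMod 3)), (q : ℤ) ∣ a ^ 3 - 1 ∧ ¬ (q : ℤ) ∣ a - 1 ∧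
      (∀ u : U, ((φ u : κˣ) : κ) ^ ((q - 1) / 3) = (a : κ) ^ (Multiplicative.toAdd (lg u)).val) ∧
      ∀ u : U, lg u = 1 → ∃ v : κ, ((φ u : κˣ) : κ) = v ^ 3 := by
  classical
  have : Fact q.Prime := ⟨hq⟩
  have : Fintype κ := Fintype.ofFinite κ
  have hcf : Fintype.card κ = q := by rw [← hcard, Nat.card_eq_fintype_card]
  have : CharP κ q := charP_of_card_eq_prime hcf
  obtain ⟨m, hm⟩ := h3
  have hq1 : 1 < q := hq.one_lt
  have hm0 : 0 < m := by omega
  have hdiv : (q - 1) / 3 = m := by omega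
  rw [hdiv]
  have hcu : Nat.card κˣ = 3 * m := by
    rw [Nat.card_units, hcard, hm]
  obtain ⟨g, hg⟩ := IsCyclic.exists_generator (α := κˣ)
  have hog : orderOf g = 3 * m := by
    rw [orderOf_eq_card_of_forall_mem_zpowers hg, hcu]
  have hpow : ∀ x : κˣ, ∃ k : ℕ, x = g ^ k := by
    intro x
    have h1 := hg x
    rw [← mem_powers_iff_mem_zpowers] at h1
    obtain ⟨k, hk⟩ := h1
    exact ⟨k, hk.symm⟩
  set ω : κˣ := g ^ m with hω
  have hoω : orderOf ω = 3 := by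
    rw [hω, orderOf_pow, hog, Nat.gcd_eq_right (Dvd.intro_left 3 rfl), Nat.mul_div_cancel _ hm0]
  set F : ZMod 3 → κˣ := fun i => ω ^ i.val with hF
  have hFadd : ∀ i j, F (i + j) = F i * F j := by
    intro i j
    rw [hF]
    simp only
    rw [ZMod.val_add, ← pow_add, ← pow_mod_orderOf ω (i.val + j.val), hoω]
  have hFinj : ∀ i j, F i = F j → i = j := by
    intro i j h
    rw [hF] at h
    simp only at h
    rw [pow_inj_mod, hoω, Nat.mod_eq_of_lt (ZMod.val_lt i), Nat.mod_eq_of_lt (ZMod.val_lt j)] at h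
    exact ZMod.val_injective 3 h
  have hFsurj : ∀ x : κˣ, x ^ 3 = 1 → ∃ i, F i = x := by
    intro x hx
    obtain ⟨k, rfl⟩ := hpow x
    rw [← pow_mul, ← orderOf_dvd_iff_pow_eq_one, hog, mul_comm 3 m] at hx
    obtain ⟨j, rfl⟩ : m ∣ k := Nat.dvd_of_mul_dvd_mul_right (by norm_num) hx
    refine ⟨(j : ZMod 3), ?_⟩
    rw [hF]
    simp only
    rw [ZMod.val_natCast, pow_mul, ← hω, ← pow_mod_orderOf ω j, hoω]
  have hex : ∀ u : U, ∃ i, F i = φ u ^ m := by
    intro u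
    apply hFsurj
    rw [← pow_mul, mul_comm m 3, ← hcu]
    exact pow_card_eq_one'
  choose lg hlg using hex
  -- the integer
  have hbij : Function.Surjective (ZMod.castHom (dvd_refl q) κ) :=
    (ZMod.castHom_bijective κ hcf).2
  obtain ⟨b, hb⟩ := hbij (ω : κ)
  obtain ⟨a, ha⟩ := ZMod.intCast_surjective b
  have haω : (a : κ) = (ω : κ) := by
    rw [← hb, ← ha, map_intCast]
  refine ⟨a, MonoidHom.mk' (fun u => Multiplicative.ofAdd (lg u)) ?_, ?_, ?_, ?_, ?_⟩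
  · intro u v
    rw [← ofAdd_add]
    congr 1
    apply hFinj
    rw [hFadd, hlg, hlg, hlg, map_mul, mul_pow]
  · rw [← CharP.intCast_eq_zero_iff κ q]
    push_cast
    rw [haω, ← Units.val_pow_eq_pow_val, ← hoω, pow_orderOf_eq_one, Units.val_one, sub_self]
  · rw [← CharP.intCast_eq_zero_iff κ q]
    push_cast
    rw [haω, sub_eq_zero]
    intro h
    have h1 : ω = 1 := Units.ext h
    rw [h1, orderOf_one] at hoω
    omega
  · intro u
    have h1 := hlg u
    rw [haω]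
    change ((φ u : κˣ) : κ) ^ m = (ω : κ) ^ (lg u).val
    rw [← Units.val_pow_eq_pow_val, ← h1, ← Units.val_pow_eq_pow_val]
  · intro u hu
    have h0 : lg u = 0 := by
      have h1 : Multiplicative.ofAdd (lg u) = 1 := hu
      exact h1
    have h1 := hlg u
    rw [h0, hF] at h1
    simp only [ZMod.val_zero, pow_zero] at h1
    obtain ⟨k, hk⟩ := hpow (φ u)
    rw [hk, ← pow_mul, eq_comm, ← orderOf_dvd_iff_pow_eq_one, hog] at h1
    obtain ⟨j, rfl⟩ : 3 ∣ k := Nat.dvd_of_mul_dvd_mul_right hm0 h1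
    refine ⟨((g ^ j : κˣ) : κ), ?_⟩
    rw [hk, ← Units.val_pow_eq_pow_val, ← pow_mul, mul_comm]

end P_LG

theorem t_LG : S_LG := by
  intro L _ _ lam q hq h3 hcard
  have hmax : lam.asIdeal.IsMaximal := lam.isMaximal
  let : Field (𝓞 L ⧸ lam.asIdeal) := Ideal.Quotient.field lam.asIdeal
  have : Finite (𝓞 L ⧸ lam.asIdeal) :=
    Nat.finite_of_card_ne_zero (by rw [hcard]; exact hq.ne_zero)
  obtain ⟨a, lg, h1, h2, h4, h5⟩ := P_LG.core (𝓞 L ⧸ lam.asIdeal) q hq h3 hcard (𝓞 L)ˣ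
    (Units.map ((Ideal.Quotient.mk lam.asIdeal : 𝓞 L →+* 𝓞 L ⧸ lam.asIdeal) :
      𝓞 L →* 𝓞 L ⧸ lam.asIdeal))
  refine ⟨a, lg, h1, h2, ?_, ?_⟩
  · intro u
    rw [← Ideal.Quotient.eq]
    have := h4 u
    rw [map_pow, map_pow, map_intCast]
    exact this
  · intro u hu
    obtain ⟨v, hv⟩ := h5 u hu
    obtain ⟨w, rfl⟩ := Ideal.Quotient.mk_surjective v
    refine ⟨w, ?_⟩
    rw [← Ideal.Quotient.eq, map_pow]
    exact hv

end Pool.Agent.MU3
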