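import Pool.Agent.MU3.StGl

/-!
# MU3, glue: the growth of the class numbers (helper50)
-/

open NumberField IsDedekindDomain Finset
open scoped nonZeroDivisors Pointwise

namespace Pool.Agent.MU3

open Pool.Agent.RI Pool.Agent.RID

namespace P_MAINK

/-- `(1 - X) ^ 3 = 1 - X ^ 3` modulo `3`. -/
lemma dg_three {G X : Type} [Group G] [CommGroup X] [MulDistribMulAction G X] (h : G) (x : X) :
    dg h (dg h (dg h x)) = dg (h ^ 3) x * ((h ^ 2 • x) / (h • x)) ^ 3 := by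
  have e3 : h ^ 3 • x = h • h • h • x := by rw [pow_succ, pow_two, mul_smul, mul_smul]
  have e2 : h ^ 2 • x = h • h • x := by rw [pow_two, mul_smul]
  simp only [dg_apply, smul_div', e3, e2]
  generalize h • h • h • x = d
  generalize h • h • x = c
  generalize h • x = b
  simp only [div_eq_mul_inv, mul_inv, inv_inv, pow_succ, pow_zero, one_mul]
  simp only [mul_comm, mul_left_comm, mul_assoc]

/-- `(1 - X) ^ (3 ^ j) = 1 - X ^ (3 ^ j)` modulo `3`. -/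
lemma dg_iter {G X : Type} [Group G] [CommGroup X] [MulDistribMulAction G X] (g : G) (j : ℕ) :
    ∀ x : X, ∃ y : X, (dg g : X →* X)^[3 ^ j] x = dg (g ^ (3 ^ j)) x * y ^ 3 := by
  induction j with
  | zero => intro x; exact ⟨1, by simp⟩
  | succ j ih =>
    intro x
    have hmul : ∀ a b : X, (dg g : X →* X)^[3 ^ j] (a * b) =
        (dg g : X →* X)^[3 ^ j] a * (dg g : X →* X)^[3 ^ j] b := fun a b =>
      iterate_map_mul (dg g : X →* X) (3 ^ j) a b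
    have hpow : ∀ a : X, (dg g : X →* X)^[3 ^ j] (a ^ 3) =
        ((dg g : X →* X)^[3 ^ j] a) ^ 3 := fun a =>
      iterate_map_pow (dg g : X →* X) (3 ^ j) a 3
    have h3 : (dg g : X →* X)^[3 ^ (j + 1)] x = (dg g : X →* X)^[3 ^ j]
        ((dg g : X →* X)^[3 ^ j] ((dg g : X →* X)^[3 ^ j] x)) := by
      have e : 3 ^ (j + 1) = 3 ^ j + (3 ^ j + 3 ^ j) := by ring
      rw [e, Function.iterate_add_apply, Function.iterate_add_apply]
    obtain ⟨y1, h4⟩ := ih x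
    obtain ⟨y2, h5⟩ := ih (dg (g ^ (3 ^ j)) x)
    obtain ⟨y3, h6⟩ := ih (dg (g ^ (3 ^ j)) (dg (g ^ (3 ^ j)) x))
    rw [h3, h4, hmul, hpow, h5, hmul, hmul, hpow, hpow, h6, dg_three, ← pow_mul, ← pow_succ]
    refine ⟨((g ^ 3 ^ j) ^ 2 • x) / ((g ^ 3 ^ j) • x) * y3 * (dg g : X →* X)^[3 ^ j] y2 *
        (dg g : X →* X)^[3 ^ j] ((dg g : X →* X)^[3 ^ j] y1), ?_⟩
    simp only [mul_pow, mul_assoc]

end P_MAINK

open P_MAINK in
theorem t_MAINK (h1 : S_GALK) (h2 : S_TWK) (h3 : S_M0) (h4 : S_RAMK) (h5 : S_MONO) (h6 : S_UNI)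
    (h7 : S_I3L) (h8 : S_KIN) (h9 : S_NIL) (h10 : MU3.N_FIN) : S_MAINK := by
  intro F _ _ _ k K B _ _ _ hB hω hk S c n₁ hI
  obtain ⟨S', h3S', hS'p, hram⟩ := h4 k K B hB
  have hS₁p : ∀ p ∈ S ∪ S', p.Prime := by
    intro p hp
    rcases Finset.mem_union.1 hp with h | h
    · exact hI.prime p h
    · exact hS'p p h
  have h3S₁ : 3 ∈ S ∪ S' := Finset.mem_union_right _ h3S'
  obtain ⟨m₀, hm₀⟩ := h3 k K B hB (S ∪ S') hS₁p
  obtain ⟨m, hmn₁, hm⟩ := h7 F k K B hB hω hk S c n₁ hI m₀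
  refine h10 3 (3 ^ (max m m₀ + 1)) k K B hB.hk hB.cop hB.lay hB.mono ?_
  intro n h
  let : Algebra k ↥(K ⊔ B n) := algC h
  intro g hg b
  have tw := h2 k K B hB n h g hg
  rcases lt_or_ge n m with hnm | hmn
  · obtain ⟨y, hy⟩ := dg_iter g (max m m₀ + 1) b
    refine ⟨y, 1, ?_⟩
    have hle : n ≤ max m m₀ + 1 := (hnm.le.trans (le_max_left _ _)).trans (Nat.le_succ _)
    have h11 : g ^ (3 ^ (max m m₀ + 1)) = 1 := by
      rw [← orderOf_dvd_iff_pow_eq_one, tw.ord]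
      exact pow_dvd_pow 3 hle
    rw [hy, h11, dg_apply, one_smul, div_self', one_mul, map_one, mul_one]
  · obtain ⟨gal, comm⟩ := h1 k K B hB n h
    have hn₁ : n₁ ≤ n := hmn₁.trans hmn
    have hsub : S ⊆ S ∪ S' := Finset.subset_union_left
    have hcn : (⟨c n, hI.mem n⟩ : ↥(K ⊔ B n)) ≠ 0 := by
      intro h0
      exact hI.ne n (congrArg Subtype.val h0)
    have su1 := (h5 k ↥(K ⊔ B n) S (S ∪ S') hsub ⟨c n, hI.mem n⟩).1 (hI.su n hn₁)
    have kol1 := (h5 k ↥(K ⊔ B n) S (S ∪ S') hsub ⟨c n, hI.mem n⟩).2 (hI.kol n hn₁)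
    have hfix := hm₀ n h g hg
    obtain ⟨u, hu⟩ := h6 k ↥(K ⊔ B n) (S ∪ S') ⟨c n, hI.mem n⟩ hcn su1 (g ^ (3 ^ m₀)) hfix 3
    have hrel := h8 k ↥(K ⊔ B n) comm (S ∪ S') h3S₁ ⟨c n, hI.mem n⟩ hcn su1 kol1
      (g ^ (3 ^ m₀)) hfix u hu
    have hfinNC : Finite (NC h (B n)) := inferInstance
    let : Fintype (NC h (B n)) := Fintype.ofFinite _
    obtain ⟨ω, hωK, hω1⟩ := hω
    have hωL : ω ∈ K ⊔ B n := (le_sup_left : K ≤ K ⊔ B n) hωK
    have hω3 : ω ^ 3 = 1 := by linear_combination (ω - 1) * hω1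
    have hω3' : (⟨ω, hωL⟩ : ↥(K ⊔ B n)) ^ 3 = 1 := Subtype.ext hω3
    have hint : IsIntegral ℤ (⟨ω, hωL⟩ : ↥(K ⊔ B n)) := by
      apply IsIntegral.of_pow (n := 3) (by norm_num)
      rw [hω3']
      exact isIntegral_one
    have hζ : IsPrimitiveRoot (⟨⟨ω, hωL⟩, hint⟩ : 𝓞 ↥(K ⊔ B n)) 3 := by
      have h12 : orderOf (⟨⟨ω, hωL⟩, hint⟩ : 𝓞 ↥(K ⊔ B n)) = 3 := by
        apply orderOf_eq_prime
        · apply RingOfIntegers.ext
          exact hω3'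
        · intro h0
          have h13 : (⟨ω, hωL⟩ : ↥(K ⊔ B n)) = 1 := congrArg (fun x : 𝓞 ↥(K ⊔ B n) => (x : ↥(K ⊔ B n))) h0
          have h14 : ω = 1 := congrArg Subtype.val h13
          rw [h14] at hω1
          norm_num at hω1
      rw [← h12]
      exact IsPrimitiveRoot.orderOf _
    exact h9 F k ↥(K ⊔ B n) n m m₀ g (NC h (B n)) tw hmn (S ∪ S') ⟨⟨ω, hωL⟩, hint⟩ hζ h3S₁ hS₁p
      (hram (S ∪ S') Finset.subset_union_right n h) hfix u hrel (hm n hmn g hg u hu) b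

end Pool.Agent.MU3
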