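import Pool.Agent.MU3.StGl

/-!
# MU3, glue: module MONO (helper18)
-/

open NumberField IsDedekindDomain

namespace Pool.Agent.MU3

theorem P_MONO.above {S S' : Finset ℕ} (h : S ⊆ S') {L : Type} [Field L] [NumberField L]
    {v : HeightOneSpectrum (𝓞 L)} (hv : ¬ Above S' v) : ¬ Above S v :=
  fun ⟨p, hp, hpv⟩ => hv ⟨p, h hp, hpv⟩

theorem P_MONO.su {S S' : Finset ℕ} (h : S ⊆ S') {L : Type} [Field L] [NumberField L] {x : L}
    (hx : SU S L x) : SU S' L x := fun v hv => hx v (P_MONO.above h hv)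

theorem t_MONO : S_MONO := by
  intro k L _ _ _ _ _ S S' h c
  refine ⟨P_MONO.su h, fun hK lam q hq => ?_⟩
  obtain ⟨F, i1, i2, i3, i4, i5, hG, hc, hf, hu, hr, z, hz, hn, hv⟩ := hK lam q
    { prime := hq.prime
      notin := fun hS => hq.notin (h hS)
      three := hq.three
      card := hq.card
      free := hq.free }
  exact ⟨F, i1, i2, i3, i4, i5, hG, hc, hf, fun w hw => hu w (P_MONO.above h hw), hr, z,
    P_MONO.su h hz, hn, hv⟩

end Pool.Agent.MU3
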