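import Pool.Agent.MU3.StS3

/-!
# MU3, module NIL: the action of `γ - 1` on the class group modulo cubes is nilpotent
-/

open NumberField IsDedekindDomain Finset
open scoped nonZeroDivisors Pointwise

namespace Pool.Agent.MU3

open Pool.Agent.RI Pool.Agent.RID

namespace P_NIL

section alg

variable {G I : Type} [Group G] [CommGroup I] [MulDistribMulAction G I]

/-- The operator induced by `g` on `I / P`, additively. -/
noncomputable def opT (P : Subgroup I) (g : G) (hst : ∀ x ∈ P, g • x ∈ P) :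
    Additive (I ⧸ P) →+ Additive (I ⧸ P) :=
  MonoidHom.toAdditive (QuotientGroup.map P P (MulDistribMulAction.toMonoidHom I g) hst)

/-- The class of `x` in `I / P`, additively. -/
def cls (P : Subgroup I) (x : I) : Additive (I ⧸ P) := Additive.ofMul (x : I ⧸ P)

lemma opT_cls (P : Subgroup I) (g : G) (hst : ∀ x ∈ P, g • x ∈ P) (x : I) :
    opT P g hst (cls P x) = cls P (g • x) := rfl

lemma cls_mul (P : Subgroup I) (x y : I) : cls P (x * y) = cls P x + cls P y := rfl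

lemma cls_inv (P : Subgroup I) (x : I) : cls P x⁻¹ = - cls P x := rfl

lemma cls_div (P : Subgroup I) (x y : I) : cls P (x / y) = cls P x - cls P y := rfl

lemma cls_eq_zero (P : Subgroup I) (x : I) : cls P x = 0 ↔ x ∈ P := by
  unfold cls
  rw [ofMul_eq_zero]
  exact QuotientGroup.eq_one_iff x

lemma cls_surj (P : Subgroup I) (v : Additive (I ⧸ P)) : ∃ x : I, cls P x = v := by
  obtain ⟨x, hx⟩ := QuotientGroup.mk_surjective (s := P) (Additive.toMul v)
  exact ⟨x, congrArg Additive.ofMul hx⟩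

/-- The algebraic part: if `(g ^ (3 ^ m₀) - 1) (g ^ (3 ^ m) - 1)` kills `I / P`, a group of
exponent `3`, then `(1 - g) ^ (3 ^ (max m m₀ + 1))` kills `I / P`. -/
lemma alg (P : Subgroup I) (g : G) (hst : ∀ x ∈ P, g • x ∈ P) (hcu : ∀ x : I, x ^ 3 ∈ P)
    (m m₀ : ℕ)
    (h : ∀ x : I, (g ^ (3 ^ m₀) • g ^ (3 ^ m) • x) * (g ^ (3 ^ m) • x)⁻¹ *
      (g ^ (3 ^ m₀) • x)⁻¹ * x ∈ P) (b : I) :
    (dg g)^[3 ^ (max m m₀ + 1)] b ∈ P := by
  classical
  have h3 : ∀ v : Additive (I ⧸ P), 3 • v = 0 := by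
    intro v
    obtain ⟨x, rfl⟩ := cls_surj P v
    have : (3 : ℕ) • cls P x = cls P (x ^ 3) := rfl
    rw [this, cls_eq_zero]
    exact hcu x
  let _ : Module (ZMod 3) (Additive (I ⧸ P)) := AddCommGroup.zmodModule h3
  set T : Module.End (ZMod 3) (Additive (I ⧸ P)) :=
    AddMonoidHom.toZModLinearMap 3 (opT P g hst) with hT
  have hTc : ∀ x : I, T (cls P x) = cls P (g • x) := fun x => rfl
  have hTp : ∀ (j : ℕ) (x : I), (T ^ j) (cls P x) = cls P (g ^ j • x) := by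
    intro j
    induction j with
    | zero => intro x; simp
    | succ j ih =>
      intro x
      rw [pow_succ, Module.End.mul_apply, hTc, ih, ← mul_smul, pow_succ]
  have hd : ∀ (l : ℕ) (x : I), ((1 - T) ^ l) (cls P x) = cls P ((dg g)^[l] x) := by
    intro l
    induction l with
    | zero => intro x; simp
    | succ l ih =>
      intro x
      rw [pow_succ, Module.End.mul_apply, LinearMap.sub_apply, Module.End.one_apply, hTc,
        ← cls_div, ih, Function.iterate_succ_apply, dg_apply]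
  have hAB : (T ^ (3 ^ m₀) - 1) * (T ^ (3 ^ m) - 1) = 0 := by
    apply LinearMap.ext
    intro v
    obtain ⟨x, rfl⟩ := cls_surj P v
    rw [Module.End.mul_apply, LinearMap.sub_apply, LinearMap.sub_apply, Module.End.one_apply,
      Module.End.one_apply, hTp, map_sub, hTp, hTp, LinearMap.zero_apply]
    have h1 := (cls_eq_zero P _).2 (h x)
    rw [cls_mul, cls_mul, cls_mul, cls_inv, cls_inv] at h1
    rw [← h1]
    abel
  have hfr : ∀ j : ℕ, ((Polynomial.X : Polynomial (ZMod 3)) - 1) ^ (3 ^ j) =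
      Polynomial.X ^ (3 ^ j) - 1 := by
    intro j
    rw [sub_pow_char_pow, one_pow]
  have hfrT : ∀ j : ℕ, (T - 1) ^ (3 ^ j) = T ^ (3 ^ j) - 1 := by
    intro j
    have h1 := congrArg (Polynomial.aeval T) (hfr j)
    simpa using h1
  have hle : 3 ^ m₀ + 3 ^ m ≤ 3 ^ (max m m₀ + 1) := by
    have h1 : 3 ^ m₀ ≤ 3 ^ (max m m₀) := Nat.pow_le_pow_right (by norm_num) (le_max_right _ _)
    have h2 : 3 ^ m ≤ 3 ^ (max m m₀) := Nat.pow_le_pow_right (by norm_num) (le_max_left _ _)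
    rw [pow_succ]
    omega
  have hz : (T - 1) ^ (3 ^ (max m m₀ + 1)) = 0 := by
    obtain ⟨r, hr⟩ := Nat.exists_eq_add_of_le hle
    rw [hr, pow_add, pow_add, hfrT, hfrT, hAB, zero_mul]
  have hz' : (1 - T) ^ (3 ^ (max m m₀ + 1)) = 0 := by
    have : (1 - T) = -(T - 1) := by abel
    rw [this, neg_pow, hz, mul_zero]
  rw [← cls_eq_zero, ← hd, hz', LinearMap.zero_apply]

end alg

end P_NIL

open P_NIL in
/-- NIL. -/
theorem t_NIL (h1 : S_EIG) (h2 : S_STAB) (h3 : S_THDJ) (h4 : S_NILX) : S_NIL := by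
  classical
  intro F _ _ _ k L _ _ _ _ _ _ n m m₀ γ D _ hTw hmn S ζ hζ h3S hpr hram hdec c hK hθ b
  set P : Subgroup (J L) := (prin : Lˣ →* J L).range ⊔ (powMonoidHom 3 : J L →* J L).range
    with hP
  have hprin : ∀ (σ : L ≃ₐ[k] L), ∀ x ∈ (prin : Lˣ →* J L).range,
      σ • x ∈ (prin : Lˣ →* J L).range := by
    rintro σ _ ⟨a, rfl⟩
    rw [smul_prin]
    exact ⟨_, rfl⟩
  have hPmem : ∀ x : J L, x ∈ P ↔ ∃ (a : Lˣ) (y : J L), prin a * y ^ 3 = x := by
    intro x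
    rw [hP, Subgroup.mem_sup]
    constructor
    · rintro ⟨_, ⟨a, rfl⟩, _, ⟨y, rfl⟩, rfl⟩
      exact ⟨a, y, rfl⟩
    · rintro ⟨a, y, rfl⟩
      exact ⟨_, ⟨a, rfl⟩, _, ⟨y, rfl⟩, rfl⟩
  have hst : ∀ (σ : L ≃ₐ[k] L), ∀ x ∈ P, σ • x ∈ P := by
    intro σ x hx
    obtain ⟨a, y, rfl⟩ := (hPmem x).1 hx
    refine (hPmem _).2 ⟨σ • a, σ • y, ?_⟩
    rw [smul_mul', smul_prin, smul_pow']
  have hcu : ∀ x : J L, x ^ 3 ∈ P := by
    intro x
    exact (hPmem _).2 ⟨1, x, by rw [map_one, one_mul]⟩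
  have hkey : ∀ x : J L, (γ ^ (3 ^ m₀) • γ ^ (3 ^ m) • x) * (γ ^ (3 ^ m) • x)⁻¹ *
      (γ ^ (3 ^ m₀) • x)⁻¹ * x ∈ P := by
    intro x
    by_contra hx
    obtain ⟨χ, f, hf, hfP, hfχ, hfx⟩ := h1 F (L ≃ₐ[k] L) (J L) D
      (fun a _ b _ => hTw.comm a b) hTw.cop P hst hcu _ hx
    obtain ⟨θ, hθ'⟩ := hθ χ
    have hf1 : f 1 = 0 := by
      have := hf 1 1
      rw [mul_one] at this
      simpa using this
    have hfi : ∀ y, f y⁻¹ = - f y := by
      intro y
      have := hf y y⁻¹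
      rw [mul_inv_cancel, hf1] at this
      linear_combination -this
    have hfp : ∀ y ∈ (prin : Lˣ →* J L).range, f y = 0 := fun y hy =>
      hfP y ((le_sup_left : (prin : Lˣ →* J L).range ≤ P) hy)
    let U : Subgroup (J L) := (MonoidHom.mk' (fun y : J L => Multiplicative.ofAdd
      (f (γ ^ (3 ^ m₀) • γ ^ (3 ^ m) • y) - f (γ ^ (3 ^ m) • y) -
      f (γ ^ (3 ^ m₀) • y) + f y)) (by
        intro a b
        simp only [smul_mul', hf]
        rw [← ofAdd_add]
        congr 1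
        ring)).ker
    have hU : ∀ y : J L, y ∈ U ↔ f (γ ^ (3 ^ m₀) • γ ^ (3 ^ m) • y) - f (γ ^ (3 ^ m) • y) -
        f (γ ^ (3 ^ m₀) • y) + f y = 0 := by
      intro y
      exact (MonoidHom.mem_ker).trans ofAdd_eq_one
    have hUtop : U = ⊤ := by
      apply h3 L ζ (sUnit D γ m n χ θ c) hζ hθ' S hpr U
      · intro y hy
        rw [hU, hfp _ (hprin _ _ (hprin _ _ hy)), hfp _ (hprin _ _ hy),
          hfp _ (hprin _ _ hy), hfp _ hy]
        simp
      · intro v q hq hqS hcard hnc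
        rw [hU]
        exact h4 F k L n m m₀ γ D hTw hmn S hdec c hK χ θ f hf hfp hfχ v q
          (h2 k L S ζ hζ h3S hram hpr v q hq hqS hcard) hnc
    have hxU : x ∈ U := by rw [hUtop]; trivial
    apply hfx
    rw [hf, hf, hf, hfi, hfi]
    have := (hU x).1 hxU
    linear_combination this
  have hb := P_NIL.alg P γ (hst γ) hcu m m₀ hkey b
  obtain ⟨a, y, hy⟩ := (hPmem _).1 hb
  exact ⟨y, a, by rw [← hy, mul_comm]⟩

end Pool.Agent.MU3
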