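import Pool.Agent.MU3.StGl

/-!
# NRM: the norm relation from `K_n` to `K_m`
-/

set_option autoImplicit false

open NumberField IsDedekindDomain Finset
open scoped nonZeroDivisors Pointwise

namespace Pool.Agent.MU3

open Pool.Agent.RI Pool.Agent.RID

namespace P_NRM

/-- the product over `range (a + a + a)` -/
theorem prod_three {M : Type} [CommMonoid M] (f : ℕ → M) (a : ℕ) :
    ∏ i ∈ range (a + a + a), f i = ∏ i ∈ range a, (f i * f (a + i) * f (a + a + i)) := by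
  rw [Finset.prod_range_add, Finset.prod_range_add, Finset.prod_mul_distrib,
    Finset.prod_mul_distrib]

/-- the abstract step: `g ^ (q a)` acts as `s` on `c`, the product over `3 a` elements -/
theorem step {k L : Type} [Field k] [Field L] [Algebra k L] (g : L ≃ₐ[k] L) (q a : ℕ) (c x : L)
    (C : k) (h : c * (g ^ (q * a)) c * (g ^ (q * a)) ((g ^ (q * a)) c) = algebraMap k L C * x) :
    ∏ i ∈ range (a + a + a), (g ^ (q * i)) c =
      algebraMap k L (C ^ a) * ∏ i ∈ range a, (g ^ (q * i)) x := by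
  rw [prod_three]
  have h1 : ∀ i ∈ range a, (g ^ (q * i)) c * (g ^ (q * (a + i))) c * (g ^ (q * (a + a + i))) c =
      algebraMap k L C * (g ^ (q * i)) x := by
    intro i _
    have h2 : (g ^ (q * (a + i))) c = (g ^ (q * i)) ((g ^ (q * a)) c) := by
      rw [← AlgEquiv.mul_apply, ← pow_add]
      congr 2
      ring
    have h3 : (g ^ (q * (a + a + i))) c = (g ^ (q * i)) ((g ^ (q * a)) ((g ^ (q * a)) c)) := by
      rw [← AlgEquiv.mul_apply, ← AlgEquiv.mul_apply, ← pow_add, ← pow_add]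
      congr 2
      ring
    rw [h2, h3, ← map_mul, ← map_mul, h, map_mul, AlgEquiv.commutes]
  rw [Finset.prod_congr rfl h1, Finset.prod_mul_distrib, Finset.prod_const, Finset.card_range,
    map_pow]

end P_NRM

theorem t_NRM (h1 : S_RST) : S_NRM := by
  intro F _ k K B _ _ _ hB hk S c n₁ hI m n hm hmn
  induction n, hmn using Nat.le_induction with
  | base =>
    intro γ hγ
    refine ⟨1, one_mem k, one_ne_zero, ?_⟩
    rw [Nat.sub_self, pow_zero, Finset.prod_range_one, mul_zero, pow_zero, one_mul]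
    rfl
  | succ n hmn ih =>
    intro γ hγ
    have hle : K ⊔ B n ≤ K ⊔ B (n + 1) := sup_le_sup le_rfl (hB.mono (Nat.le_succ n))
    obtain ⟨r, hr, hfix, -⟩ := h1 k K B hB n (n + 1) (Nat.le_succ n) (hk (n + 1)) (hk n) hle
    obtain ⟨hf1, hf2⟩ := hfix γ hγ
    obtain ⟨C, hC, hC0, hCe⟩ := hI.nrm n (hm.trans hmn) (γ ^ (3 ^ n)) hf2
    obtain ⟨C', hC', hC0', hCe'⟩ := ih (r γ) hf1
    let _ := algC (hk (n + 1))
    let _ := algC (hk n)
    have hq : 3 ^ m * 3 ^ (n - m) = 3 ^ n := by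
      rw [← pow_add]
      congr 1
      omega
    have hr3 : 3 ^ (n + 1 - m) = 3 ^ (n - m) + 3 ^ (n - m) + 3 ^ (n - m) := by
      rw [Nat.sub_add_comm hmn, pow_succ]
      ring
    have hstep := P_NRM.step γ (3 ^ m) (3 ^ (n - m)) (⟨c (n + 1), hI.mem (n + 1)⟩ : ↥(K ⊔ B (n + 1)))
      (⟨c n, hle (hI.mem n)⟩ : ↥(K ⊔ B (n + 1))) (⟨C, hC⟩ : k) (by
        rw [hq]
        apply Subtype.ext
        exact hCe)
    refine ⟨C ^ (3 ^ (n - m)) * C', mul_mem (pow_mem hC _) hC', mul_ne_zero (pow_ne_zero _ hC0) hC0', ?_⟩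
    rw [hr3, hstep]
    have hprod : ((∏ i ∈ range (3 ^ (n - m)), (γ ^ (3 ^ m * i)) (⟨c n, hle (hI.mem n)⟩ :
        ↥(K ⊔ B (n + 1))) : ↥(K ⊔ B (n + 1))) : ℂ) = C' * c m := by
      rw [← hCe']
      have e1 : ((∏ i ∈ range (3 ^ (n - m)), (γ ^ (3 ^ m * i)) (⟨c n, hle (hI.mem n)⟩ :
          ↥(K ⊔ B (n + 1))) : ↥(K ⊔ B (n + 1))) : ℂ) =
          ∏ i ∈ range (3 ^ (n - m)), (((γ ^ (3 ^ m * i)) (⟨c n, hle (hI.mem n)⟩ :
          ↥(K ⊔ B (n + 1))) : ↥(K ⊔ B (n + 1))) : ℂ) :=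
        map_prod (K ⊔ B (n + 1)).val _ _
      have e2 : ((∏ i ∈ range (3 ^ (n - m)), ((r γ) ^ (3 ^ m * i)) (⟨c n, hI.mem n⟩ :
          ↥(K ⊔ B n)) : ↥(K ⊔ B n)) : ℂ) =
          ∏ i ∈ range (3 ^ (n - m)), ((((r γ) ^ (3 ^ m * i)) (⟨c n, hI.mem n⟩ :
          ↥(K ⊔ B n)) : ↥(K ⊔ B n)) : ℂ) :=
        map_prod (K ⊔ B n).val _ _
      rw [e1]
      refine Eq.trans ?_ e2.symm
      refine Finset.prod_congr rfl fun i _ => ?_
      rw [← map_pow, hr]
    have hcoe : ∀ (x : k) (y : ↥(K ⊔ B (n + 1))),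
        ((algebraMap k ↥(K ⊔ B (n + 1)) x * y : ↥(K ⊔ B (n + 1))) : ℂ) = (x : ℂ) * (y : ℂ) :=
      fun x y => rfl
    rw [hcoe, hprod]
    push_cast
    ring

end Pool.Agent.MU3
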