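import Pool.Agent.MU3.StGl
import Pool.Agent.MU3.N_GAL

/-!
# MU3: restriction from `K_n` to `K_m`
-/

set_option autoImplicit false

open NumberField IsDedekindDomain Finset
open scoped nonZeroDivisors Pointwise

namespace Pool.Agent.MU3

open Pool.Agent.RI Pool.Agent.RID

namespace P_RST

lemma eq_one_of_mem {G : Type} [Group G] (D : Subgroup G) (hD : (Nat.card D).Coprime 3) (m : ℕ)
    (x : G) (hx : x ∈ D) (hx' : x ^ (3 ^ m) = 1) : x = 1 := by
  have h1 : orderOf x ∣ 3 ^ m := orderOf_dvd_of_pow_eq_one hx'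
  have h2 : orderOf x ∣ Nat.card D := Subgroup.orderOf_dvd_natCard D hx
  have h3 : (Nat.card D).Coprime (3 ^ m) := Nat.Coprime.pow_right m hD
  have h4 : orderOf x = 1 := Nat.eq_one_of_dvd_coprimes h3 h2 h1
  exact orderOf_eq_one_iff.mp h4

end P_RST

open P_RST in
theorem t_RST (h1 : S_GALK) (h2 : S_TWK) : S_RST := by
  intro k K B _ _ hB m n hm h h' hmn
  let aL : Algebra k ↥(K ⊔ B n) := algC h
  let aM : Algebra k ↥(K ⊔ B m) := algC h'
  let aML : Algebra ↥(K ⊔ B m) ↥(K ⊔ B n) := algC hmn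
  have tML : IsScalarTower k ↥(K ⊔ B m) ↥(K ⊔ B n) := towerC h' hmn
  have gL : IsGalois k ↥(K ⊔ B n) := (h1 k K B hB n h).1
  have gM : IsGalois k ↥(K ⊔ B m) := (h1 k K B hB m h').1
  have fdL : FiniteDimensional k ↥(K ⊔ B n) := by
    have h1 : FiniteDimensional ℚ ↥(K ⊔ B n) := inferInstance
    exact Module.Finite.of_restrictScalars_finite ℚ k _
  have hres : ∀ (σ : ↥(K ⊔ B n) ≃ₐ[k] ↥(K ⊔ B n)) (x : ↥(K ⊔ B m)),
      ((AlgEquiv.restrictNormalHom ↥(K ⊔ B m) σ x : ↥(K ⊔ B m)) : ℂ) =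
        (σ ⟨x, hmn x.2⟩ : ↥(K ⊔ B n)) := by
    intro σ x
    have h2 := AlgEquiv.restrictNormal_commutes σ ↥(K ⊔ B m) x
    exact congrArg Subtype.val h2
  have hγ1 : ∀ γ : ↥(K ⊔ B n) ≃ₐ[k] ↥(K ⊔ B n), (∀ x : ↥(K ⊔ B n), γ x = x ↔ (x : ℂ) ∈ K) →
      ∀ x : ↥(K ⊔ B m), AlgEquiv.restrictNormalHom ↥(K ⊔ B m) γ x = x ↔ (x : ℂ) ∈ K := by
    intro γ hγ x
    rw [← hγ ⟨x, hmn x.2⟩]
    constructor
    · intro hx
      apply Subtype.ext
      rw [← hres, hx]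
    · intro hx
      apply Subtype.ext
      rw [hres, hx]
  refine ⟨AlgEquiv.restrictNormalHom ↥(K ⊔ B m), hres, fun γ hγ => ⟨hγ1 γ hγ, ?_⟩, ?_⟩
  · have hkK : k ≤ K := hB.hk
    let akK : Algebra k K := algC hkK
    have hKM : K ≤ K ⊔ B m := le_sup_left
    let aKM : Algebra K ↥(K ⊔ B m) := algC hKM
    have t1 : IsScalarTower k K ↥(K ⊔ B m) := towerC hkK hKM
    have e1 : Module.finrank k K * Module.finrank K ↥(K ⊔ B m) =
        Module.finrank k ↥(K ⊔ B m) := Module.finrank_mul_finrank _ _ _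
    have e2 : Module.finrank K ↥(K ⊔ B m) = 3 ^ m :=
      (finrank_algC hKM).trans (MU3.Gal.degree K (B m) hB.cop (hB.lay m))
    have e3 : Module.finrank k (IntermediateField.extendScalars h') =
        Module.finrank k (IntermediateField.extendScalars hkK) * 3 ^ m := by
      rw [← finrank_algC, ← finrank_algC, ← e1, e2]
    have key := GCP.cyc_fixed γ (GCP.sub h K hkK) (GCP.sub h (K ⊔ B m) h') (3 ^ m)
      (fun x => (hγ x).trans (GCP.mem_sub h K hkK x).symm)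
      (fun x hx => (le_sup_left : K ≤ K ⊔ B m) hx)
      (by rw [GCP.finrank_sub h K hkK le_sup_left, GCP.finrank_sub h (K ⊔ B m) h' hmn, e3])
    intro x
    exact (key x).trans (GCP.mem_sub h (K ⊔ B m) h' x)
  · have hmem : ∀ δ ∈ NC h (B n), AlgEquiv.restrictNormalHom ↥(K ⊔ B m) δ ∈ NC h' (B m) := by
      intro δ hδ x hx
      apply Subtype.ext
      rw [hres]
      rw [hδ ⟨x, hmn x.2⟩ (hB.mono hm hx)]
    let φ : NC h (B n) →* NC h' (B m) :=
      { toFun := fun δ => ⟨AlgEquiv.restrictNormalHom ↥(K ⊔ B m)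
          (δ : ↥(K ⊔ B n) ≃ₐ[k] ↥(K ⊔ B n)), hmem δ δ.2⟩
        map_one' := Subtype.ext (map_one _)
        map_mul' := fun a b => Subtype.ext (map_mul _ _ _) }
    have hφ : Function.Injective φ := by
      rw [injective_iff_map_eq_one]
      intro δ hδ
      have hδ' : AlgEquiv.restrictNormalHom ↥(K ⊔ B m) (δ : ↥(K ⊔ B n) ≃ₐ[k] ↥(K ⊔ B n)) = 1 :=
        congrArg Subtype.val hδ
      apply Subtype.ext
      apply GCC.triv h
      · intro x hx
        apply Subtype.ext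
        have h3 := hres δ ⟨x, (le_sup_left : K ≤ K ⊔ B m) hx⟩
        rw [hδ'] at h3
        exact h3.symm
      · exact δ.2
    have hφs : Function.Surjective φ := by
      intro τ
      obtain ⟨g, -, hg, -⟩ := MU3.n_GAL 3 k K B hB.hk hB.cop hB.lay hB.mono n h
      have T1 := h2 k K B hB n h g hg
      have T2 := h2 k K B hB m h' (AlgEquiv.restrictNormalHom ↥(K ⊔ B m) g) (hγ1 g hg)
      obtain ⟨σ, hσ⟩ := AlgEquiv.restrictNormalHom_surjective (F := k) (K₁ := ↥(K ⊔ B m))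
        ↥(K ⊔ B n) (τ : ↥(K ⊔ B m) ≃ₐ[k] ↥(K ⊔ B m))
      obtain ⟨δ, hδ, i, hi⟩ := T1.gen σ
      refine ⟨⟨δ, hδ⟩, Subtype.ext ?_⟩
      show AlgEquiv.restrictNormalHom ↥(K ⊔ B m) δ = τ
      have e1 : (τ : ↥(K ⊔ B m) ≃ₐ[k] ↥(K ⊔ B m)) =
          AlgEquiv.restrictNormalHom ↥(K ⊔ B m) δ *
            (AlgEquiv.restrictNormalHom ↥(K ⊔ B m) g) ^ i := by
        rw [← hσ, hi, map_mul, map_pow]
      have e2 : (AlgEquiv.restrictNormalHom ↥(K ⊔ B m) g) ^ i ∈ NC h' (B m) := by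
        have e3 : (AlgEquiv.restrictNormalHom ↥(K ⊔ B m) g) ^ i =
            (AlgEquiv.restrictNormalHom ↥(K ⊔ B m) δ)⁻¹ * (τ : ↥(K ⊔ B m) ≃ₐ[k] ↥(K ⊔ B m)) := by
          rw [e1, inv_mul_cancel_left]
        rw [e3]
        exact mul_mem (inv_mem (hmem δ hδ)) τ.2
      have e4 : (AlgEquiv.restrictNormalHom ↥(K ⊔ B m) g) ^ i = 1 := by
        refine eq_one_of_mem _ T2.cop m _ e2 ?_
        rw [← pow_mul, mul_comm, pow_mul, ← T2.ord, pow_orderOf_eq_one, one_pow]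
      rw [e1, e4, mul_one]
    exact ⟨MulEquiv.ofBijective φ ⟨hφ, hφs⟩, fun δ => rfl⟩

end Pool.Agent.MU3
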