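import Pool.Agent.MU3.StS3

/-!
# MU3, STAB: primes of degree one outside `S` are good (helper70)
-/

open NumberField IsDedekindDomain Finset
open scoped nonZeroDivisors Pointwise

namespace Pool.Agent.MU3

open Pool.Agent.RI Pool.Agent.RID

namespace P_STAB

theorem mem_q {L : Type} [Field L] [NumberField L] (lam : HeightOneSpectrum (𝓞 L)) {q : ℕ}
    (h : Nat.card (𝓞 L ⧸ lam.asIdeal) = q) : (q : 𝓞 L) ∈ lam.asIdeal := by
  rw [← Ideal.Quotient.eq_zero_iff_mem, map_natCast, ← h]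
  have := card_nsmul_eq_zero' (G := 𝓞 L ⧸ lam.asIdeal) (x := 1)
  simpa using this

theorem not_above {L : Type} [Field L] [NumberField L] (S : Finset ℕ)
    (hS : ∀ p ∈ S, p.Prime) (lam : HeightOneSpectrum (𝓞 L)) {q : ℕ} (hq : q.Prime) (hqS : q ∉ S)
    (h : Nat.card (𝓞 L ⧸ lam.asIdeal) = q) : ¬ Above S lam := by
  rintro ⟨p, hp, hpm⟩
  have hne : p ≠ q := fun e => hqS (e ▸ hp)
  have hc : Nat.Coprime p q := (Nat.coprime_primes (hS p hp) hq).2 hne
  have hi : IsCoprime (p : ℤ) (q : ℤ) := Nat.isCoprime_iff_coprime.2 hc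
  obtain ⟨a, b, hab⟩ := hi
  have h1 : (1 : 𝓞 L) ∈ lam.asIdeal := by
    have e : (1 : 𝓞 L) = (a : 𝓞 L) * (p : 𝓞 L) + (b : 𝓞 L) * (q : 𝓞 L) := by
      have := congrArg (Int.cast : ℤ → 𝓞 L) hab
      push_cast at this
      exact this.symm
    rw [e]
    exact add_mem (lam.asIdeal.mul_mem_left _ hpm) (lam.asIdeal.mul_mem_left _ (mem_q lam h))
  exact lam.isPrime.ne_top ((Ideal.eq_top_iff_one _).2 h1)

theorem three_dvd {L : Type} [Field L] [NumberField L] (lam : HeightOneSpectrum (𝓞 L)) {q : ℕ}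
    (hq : q.Prime) (h : Nat.card (𝓞 L ⧸ lam.asIdeal) = q) (ζ : 𝓞 L) (hζ : IsPrimitiveRoot ζ 3)
    (h3 : (3 : 𝓞 L) ∉ lam.asIdeal) : 3 ∣ q - 1 := by
  have := lam.isMaximal
  let _ : Field (𝓞 L ⧸ lam.asIdeal) := Ideal.Quotient.field lam.asIdeal
  have : Finite (𝓞 L ⧸ lam.asIdeal) := Nat.finite_of_card_ne_zero (by rw [h]; exact hq.ne_zero)
  set z : 𝓞 L ⧸ lam.asIdeal := Ideal.Quotient.mk lam.asIdeal ζ with hz
  have hz3 : z ^ 3 = 1 := by
    rw [hz, ← map_pow, hζ.pow_eq_one, map_one]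
  have hz1 : z ≠ 1 := by
    intro e
    apply h3
    rw [← Ideal.Quotient.eq_zero_iff_mem]
    have h1 : ζ ^ 2 + ζ + 1 = 0 := by
      have h2 : (ζ - 1) * (ζ ^ 2 + ζ + 1) = 0 := by
        have := hζ.pow_eq_one
        linear_combination this
      rcases mul_eq_zero.1 h2 with h4 | h4
      · exact (hζ.ne_one (by norm_num) (sub_eq_zero.1 h4)).elim
      · exact h4
    have h5 := congrArg (Ideal.Quotient.mk lam.asIdeal) h1
    rw [map_add, map_add, map_pow, ← hz, e, map_one, map_zero] at h5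
    have : (Ideal.Quotient.mk lam.asIdeal) (3 : 𝓞 L) = 3 := map_ofNat _ 3
    rw [this, ← h5]
    norm_num
  have hz0 : z ≠ 0 := by
    intro e
    rw [e] at hz3
    norm_num at hz3
  have ho : orderOf (Units.mk0 z hz0) = 3 := by
    have : Fact (Nat.Prime 3) := ⟨Nat.prime_three⟩
    apply orderOf_eq_prime
    · apply Units.ext
      simpa using hz3
    · intro e
      exact hz1 (by simpa using congrArg Units.val e)
  have := orderOf_dvd_natCard (Units.mk0 z hz0)
  rwa [ho, Nat.card_units, h] at this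

theorem fr1 {A B : Type} [Field A] [AddCommGroup B] [Module A B] [Finite B] {q : ℕ}
    (hq : q.Prime) (h : Nat.card B = q) : Module.finrank A B = 1 := by
  have h1 := Module.natCard_eq_pow_finrank (K := A) (V := B)
  rw [h] at h1
  rw [h1] at hq
  exact Nat.Prime.eq_one_of_pow hq

end P_STAB

open P_STAB in
theorem t_STAB : S_STAB := by
  intro k L _ _ _ _ _ _ S ζ hζ h3S hram hS lam q hq hqS hcard
  have hna : ¬ Above S lam := not_above S hS lam hq hqS hcard
  have h3 : (3 : 𝓞 L) ∉ lam.asIdeal := fun h => hna ⟨3, h3S, by exact_mod_cast h⟩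
  refine ⟨hq, hqS, three_dvd lam hq hcard ζ hζ h3, hcard, fun σ hσ => ?_⟩
  have e1 := hram lam hna
  have := lam.isMaximal
  have := lam.isPrime
  set p : Ideal (𝓞 k) := lam.asIdeal.under (𝓞 k) with hp
  have : lam.asIdeal.LiesOver p := ⟨rfl⟩
  have : p.IsMaximal := Ideal.IsMaximal.under (𝓞 k) lam.asIdeal
  have hfin : Finite (𝓞 L ⧸ lam.asIdeal) :=
    Nat.finite_of_card_ne_zero (by rw [hcard]; exact hq.ne_zero)
  have hperf : PerfectField p.ResidueField := inferInstance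
  have hc := Ideal.card_stabilizer_eq (G := L ≃ₐ[k] L) p lam.asIdeal
  rw [Ideal.ramificationIdxIn_eq_ramificationIdx p lam.asIdeal (L ≃ₐ[k] L),
    Ideal.inertiaDegIn_eq_inertiaDeg p lam.asIdeal (L ≃ₐ[k] L), e1, one_mul,
    Ideal.inertiaDeg_eq_of_isMaximal p lam.asIdeal] at hc
  have hf : Module.finrank (𝓞 k ⧸ p) (𝓞 L ⧸ lam.asIdeal) = 1 := by
    let _ : Field (𝓞 k ⧸ p) := Ideal.Quotient.field p
    exact fr1 hq hcard
  rw [hf, Nat.card_eq_one_iff_unique] at hc
  have := hc.1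
  have h2 := Subsingleton.elim (⟨σ, hσ⟩ : MulAction.stabilizer (L ≃ₐ[k] L) lam.asIdeal) 1
  exact congrArg Subtype.val h2

end Pool.Agent.MU3
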