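import Pool.Agent.MU3.StS3

/-!
# MU3, section 3, module THDJ
-/

open NumberField IsDedekindDomain Finset
open scoped nonZeroDivisors Pointwise

namespace Pool.Agent.MU3

open Pool.Agent.RI Pool.Agent.RID

namespace P_THDJ

variable {L : Type} [Field L] [NumberField L]

theorem fin_above {S : Finset ℕ} (hS : ∀ p ∈ S, p.Prime) :
    {v : HeightOneSpectrum (𝓞 L) | Above S v}.Finite := by
  have h1 : {v : HeightOneSpectrum (𝓞 L) | Above S v} ⊆
      ⋃ p ∈ S, {v : HeightOneSpectrum (𝓞 L) | (p : 𝓞 L) ∈ v.asIdeal} := by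
    rintro v ⟨p, hp, hv⟩
    exact Set.mem_biUnion hp hv
  refine Set.Finite.subset (Set.Finite.biUnion S.finite_toSet ?_) h1
  intro p hp
  have h0 : (Ideal.span {(p : 𝓞 L)}) ≠ 0 := by
    intro h
    have h2 : (p : 𝓞 L) = 0 := Ideal.span_singleton_eq_bot.1 h
    exact (hS p hp).ne_zero (by exact_mod_cast h2)
  refine (Ideal.finite_factors h0).subset ?_
  intro v hv
  have hv' : (p : 𝓞 L) ∈ v.asIdeal := hv
  change v.asIdeal ∣ Ideal.span {(p : 𝓞 L)}
  rw [Ideal.dvd_iff_le, Ideal.span_singleton_le_iff_mem]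
  exact hv'

theorem equiv_cl (v : HeightOneSpectrum (𝓞 L)) :
    ClassGroup.equiv L (cl L v) =
      QuotientGroup.mk' (toPrincipalIdeal (𝓞 L) L).range (vJ v) := by
  unfold cl
  rw [ClassGroup.equiv_mk0]
  congr 1

end P_THDJ

open P_THDJ in
theorem t_THDJ (h1 : Stmt_THD) : S_THDJ := by
  intro L _ _ ζ t hζ ht S hS U hU hcond
  set q := QuotientGroup.mk' (toPrincipalIdeal (𝓞 L) L).range with hq
  set H : Subgroup (ClassGroup (𝓞 L)) :=
    (U.map q).comap (ClassGroup.equiv L).toMonoidHom with hH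
  have hHtop : H = ⊤ := by
    refine h1 L ζ (t : 𝓞 L) hζ ht {v | Above S v} (fin_above hS) H ?_
    intro v hv hpr _ _ hcube
    have hnotin : Ideal.absNorm v.asIdeal ∉ S := by
      intro hmem
      exact hv ⟨_, hmem, Ideal.absNorm_mem v.asIdeal⟩
    have hcard : Nat.card (𝓞 L ⧸ v.asIdeal) = Ideal.absNorm v.asIdeal := by
      rw [Ideal.absNorm_apply, Submodule.cardQuot_apply]
    have h2 := hcond v (Ideal.absNorm v.asIdeal) hpr hnotin hcard hcube
    rw [hH, Subgroup.mem_comap]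
    change ClassGroup.equiv L (cl L v) ∈ U.map q
    rw [equiv_cl]
    exact Subgroup.mem_map_of_mem q h2
  rw [eq_top_iff]
  intro x _
  have h2 : (ClassGroup.equiv L).symm (q x) ∈ H := by
    rw [hHtop]
    exact Subgroup.mem_top _
  rw [hH, Subgroup.mem_comap] at h2
  have h3 : q x ∈ U.map q := by
    have h4 : (ClassGroup.equiv L).toMonoidHom ((ClassGroup.equiv L).symm (q x)) = q x :=
      (ClassGroup.equiv L).apply_symm_apply _
    rw [h4] at h2
    exact h2
  obtain ⟨u, hu, hux⟩ := h3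
  have h5 : u⁻¹ * x ∈ (toPrincipalIdeal (𝓞 L) L).range := by
    have := (QuotientGroup.eq (s := (toPrincipalIdeal (𝓞 L) L).range) (a := u) (b := x)).1 hux
    exact this
  have h6 : u⁻¹ * x ∈ U := hU h5
  have h7 : u * (u⁻¹ * x) ∈ U := U.mul_mem hu h6
  rwa [mul_inv_cancel_left] at h7

end Pool.Agent.MU3
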