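import Pool.Agent.MU3.StGl

/-!
# MU3, TN: `T ^ (3 ^ j) = γ ^ (3 ^ j) - 1` modulo cubes
-/

namespace Pool.Agent.MU3.P_TN

open Pool.Agent.MU3

variable {k L : Type} [Field k] [Field L] [Algebra k L]

theorem Tg_mul (γ : L ≃ₐ[k] L) (x y : L) : Tg γ (x * y) = Tg γ x * Tg γ y := by
  unfold Tg
  rw [map_mul, mul_div_mul_comm]

theorem Tg_pow (γ : L ≃ₐ[k] L) (x : L) (n : ℕ) : Tg γ (x ^ n) = Tg γ x ^ n := by
  unfold Tg
  rw [map_pow, div_pow]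

theorem Tg_ne (γ : L ≃ₐ[k] L) {x : L} (hx : x ≠ 0) : Tg γ x ≠ 0 :=
  div_ne_zero ((map_ne_zero γ).2 hx) hx

theorem iter_ne (γ : L ≃ₐ[k] L) (n : ℕ) {x : L} (hx : x ≠ 0) : (Tg γ)^[n] x ≠ 0 := by
  induction n generalizing x with
  | zero => exact hx
  | succ n ih =>
    rw [Function.iterate_succ_apply]
    exact ih (Tg_ne γ hx)

theorem three (γ : L ≃ₐ[k] L) {x : L} (hx : x ≠ 0) :
    ∃ w : L, w ≠ 0 ∧ (Tg γ)^[3] x = Tg (γ ^ 3) x * w ^ 3 := by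
  have h1 : γ x ≠ 0 := (map_ne_zero γ).2 hx
  have h2 : γ (γ x) ≠ 0 := (map_ne_zero γ).2 h1
  refine ⟨γ x / γ (γ x), div_ne_zero h1 h2, ?_⟩
  have h3 : (γ ^ 3) x = γ (γ (γ x)) := rfl
  have h4 : (Tg γ)^[3] x = Tg γ (Tg γ (Tg γ x)) := rfl
  rw [h4]
  unfold Tg
  rw [h3]
  simp only [map_div₀]
  have h5 : γ (γ (γ x)) ≠ 0 := (map_ne_zero γ).2 h2
  field_simp

/-- `f` multiplicative, `f x = T x` up to cubes: the same for the iterates -/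
theorem iter (γ : L ≃ₐ[k] L) (n : ℕ) {x : L} (hx : x ≠ 0) :
    ∃ w : L, w ≠ 0 ∧ ((Tg γ)^[3])^[n] x = (Tg (γ ^ 3))^[n] x * w ^ 3 := by
  induction n with
  | zero => exact ⟨1, one_ne_zero, by simp⟩
  | succ n ih =>
    obtain ⟨w, hw, hw'⟩ := ih
    have h1 : (Tg (γ ^ 3))^[n] x ≠ 0 := iter_ne _ _ hx
    obtain ⟨v, hv, hv'⟩ := three γ h1
    refine ⟨v * Tg γ (Tg γ (Tg γ w)), mul_ne_zero hv (Tg_ne γ (Tg_ne γ (Tg_ne γ hw))), ?_⟩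
    have h2 : ∀ y : L, (Tg γ)^[3] y = Tg γ (Tg γ (Tg γ y)) := fun _ => rfl
    have h3 : (Tg (γ ^ 3))^[n + 1] x = Tg (γ ^ 3) ((Tg (γ ^ 3))^[n] x) :=
      Function.iterate_succ_apply' _ _ _
    rw [Function.iterate_succ_apply' (Tg γ)^[3] n x, hw', h3, h2, Tg_mul, Tg_mul, Tg_mul, Tg_pow, Tg_pow, Tg_pow, ← h2 ((Tg (γ ^ 3))^[n] x), hv']
    ring

end Pool.Agent.MU3.P_TN

namespace Pool.Agent.MU3

/-- `T ^ (3 ^ j) = γ ^ (3 ^ j) - 1` modulo cubes -/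
theorem t_TN : S_TN := by
  intro k L _ _ _ γ j
  induction j generalizing γ with
  | zero =>
    intro x _
    exact ⟨1, one_ne_zero, by simp [Tg]⟩
  | succ j ih =>
    intro x hx
    obtain ⟨w, hw, hw'⟩ := ih (γ ^ 3) x hx
    obtain ⟨v, hv, hv'⟩ := P_TN.iter γ (3 ^ j) hx
    refine ⟨w * v, mul_ne_zero hw hv, ?_⟩
    rw [pow_succ', Function.iterate_mul, hv', hw', ← pow_mul, ← pow_succ']
    ring

end Pool.Agent.MU3
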