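import Mathlib

/-!
# One-units of a valuation and tame ramification (helper80)

MP_b78433_nt, MU3, section 1 of PAPER_K. Everything is for a valuation `v` of a field `F`.
-/

set_option autoImplicit false

namespace Pool.Agent.MU3

variable {F Γ : Type} [Field F] [LinearOrderedCommGroupWithZero Γ]

/-- one-units -/
def One1 (v : Valuation F Γ) (x : F) : Prop := v (x - 1) < 1

variable {v : Valuation F Γ} {x y : F}

theorem One1.val (h : One1 v x) : v x = 1 := by
  have h1 : v (1 + (x - 1)) = v 1 := Valuation.map_add_eq_of_lt_left _ (by rwa [map_one])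
  rwa [add_sub_cancel, map_one] at h1

theorem One1.ne (h : One1 v x) : x ≠ 0 := by
  rintro rfl
  have := h.val
  rw [map_zero] at this
  exact zero_ne_one this

theorem one1_one : One1 v 1 := by
  unfold One1
  rw [sub_self, map_zero]
  exact zero_lt_one

theorem One1.mul (h : One1 v x) (h' : One1 v y) : One1 v (x * y) := by
  have e : x * y - 1 = x * (y - 1) + (x - 1) := by ring
  unfold One1
  rw [e]
  refine Valuation.map_add_lt _ ?_ h
  rw [map_mul, h.val, one_mul]
  exact h'

theorem One1.inv (h : One1 v x) : One1 v x⁻¹ := by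
  have e : x⁻¹ - 1 = -(x⁻¹ * (x - 1)) := by
    have := h.ne
    field_simp
    ring
  unfold One1
  rw [e, Valuation.map_neg, map_mul, map_inv₀, h.val, inv_one, one_mul]
  exact h

theorem One1.div (h : One1 v x) (h' : One1 v y) : One1 v (x / y) := by
  rw [div_eq_mul_inv]
  exact h.mul h'.inv

theorem One1.pow (h : One1 v x) (n : ℕ) : One1 v (x ^ n) := by
  induction n with
  | zero =>
    rw [pow_zero]
    exact one1_one
  | succ n ih =>
    rw [pow_succ]
    exact ih.mul h

theorem One1.zpow (h : One1 v x) (n : ℤ) : One1 v (x ^ n) := by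
  cases n with
  | ofNat n =>
    rw [Int.ofNat_eq_natCast, zpow_natCast]
    exact h.pow n
  | negSucc n =>
    rw [zpow_negSucc]
    exact (h.pow _).inv

/-- congruence of elements of the same valuation -/
theorem one1_div (hy : v y = 1) : One1 v (x / y) ↔ v (x - y) < 1 := by
  have hy0 : y ≠ 0 := by
    rintro rfl
    rw [map_zero] at hy
    exact zero_ne_one hy
  unfold One1
  have e : x / y - 1 = y⁻¹ * (x - y) := by
    field_simp
  rw [e, map_mul, map_inv₀, hy, inv_one, one_mul]

section cube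

variable {a : F} (ha : v (1 + a + a ^ 2) < 1) (h3 : v 3 = 1)

include ha

theorem cube_val (ha1 : v a ≤ 1) : v a = 1 := by
  by_contra hne
  have hlt : v a < 1 := lt_of_le_of_ne ha1 hne
  have h1 : v (a + a ^ 2) < 1 := by
    refine Valuation.map_add_lt _ hlt ?_
    rw [map_pow]
    exact pow_lt_one₀ zero_le hlt two_ne_zero
  have h2 : v (1 + (a + a ^ 2)) = v 1 := Valuation.map_add_eq_of_lt_left _ (by rwa [map_one])
  rw [← add_assoc, map_one] at h2
  rw [h2] at ha
  exact lt_irrefl _ ha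

theorem cube_one (ha1 : v a ≤ 1) : One1 v (a ^ 3) := by
  unfold One1
  have e : a ^ 3 - 1 = (1 + a + a ^ 2) * (a - 1) := by ring
  rw [e, map_mul]
  have h1 : v (a - 1) ≤ 1 := Valuation.map_sub_le v ha1 (le_of_eq (map_one v))
  calc v (1 + a + a ^ 2) * v (a - 1) ≤ v (1 + a + a ^ 2) * 1 := mul_le_mul_right h1 _
    _ < 1 := by rwa [mul_one]

include h3

theorem cube_ne_one : ¬ One1 v a := by
  intro h
  have h1 : v (1 + a + a ^ 2 - ((a - 1) + (a ^ 2 - 1))) < 1 := by
    refine Valuation.map_sub_lt v ha ?_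
    exact Valuation.map_add_lt _ h (h.pow 2)
  have e : 1 + a + a ^ 2 - ((a - 1) + (a ^ 2 - 1)) = 3 := by ring
  rw [e, h3] at h1
  exact lt_irrefl _ h1

/-- powers of `a` which are one-units -/
theorem cube_dvd (ha1 : v a ≤ 1) {n : ℤ} (h : One1 v (a ^ n)) : (3 : ℤ) ∣ n := by
  have h0 : a ≠ 0 := by
    rintro rfl
    have := cube_val ha ha1
    rw [map_zero] at this
    exact zero_ne_one this
  have hc := cube_one ha ha1
  obtain ⟨m, r, hr, hn⟩ : ∃ m r : ℤ, (r = 0 ∨ r = 1 ∨ r = 2) ∧ n = 3 * m + r :=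
    ⟨n / 3, n % 3, by omega, by omega⟩
  have h1 : One1 v (a ^ r) := by
    have h2 := h.mul (hc.zpow (-m))
    have e : a ^ n * (a ^ 3) ^ (-m) = a ^ r := by
      rw [← zpow_natCast a 3, ← zpow_mul, ← zpow_add₀ h0, hn]
      congr 1
      push_cast
      ring
    rwa [e] at h2
  rcases hr with hr | hr | hr
  · exact ⟨m, by omega⟩
  · rw [hr, zpow_one] at h1
    exact absurd h1 (cube_ne_one ha h3)
  · rw [hr] at h1
    have h2 := hc.mul h1.inv
    have e : a ^ 3 * (a ^ (2 : ℤ))⁻¹ = a := by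
      rw [← zpow_natCast a 3, ← zpow_neg, ← zpow_add₀ h0]
      norm_num
    rw [e] at h2
    exact absurd h2 (cube_ne_one ha h3)

omit h3

/-- the cube roots of unity modulo one-units -/
theorem cube_roots (ha1 : v a ≤ 1) (hx : One1 v (x ^ 3)) :
    One1 v x ∨ One1 v (x / a) ∨ One1 v (x / a ^ 2) := by
  have hva := cube_val ha ha1
  have hvx : v x = 1 := by
    have := hx.val
    rw [map_pow] at this
    exact (pow_eq_one_iff_of_nonneg zero_le three_ne_zero).1 this
  have h1 : v ((x - 1) * (x - a) * (x - a ^ 2)) < 1 := by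
    have e : (x - 1) * (x - a) * (x - a ^ 2) =
        (x ^ 3 - 1) - (a ^ 3 - 1) + (1 + a + a ^ 2) * (a * x - x ^ 2) := by ring
    rw [e]
    refine Valuation.map_add_lt _ (Valuation.map_sub_lt v hx (cube_one ha ha1)) ?_
    rw [map_mul]
    have h2 : v (a * x - x ^ 2) ≤ 1 := by
      refine Valuation.map_sub_le v ?_ ?_
      · rw [map_mul, hva, hvx, one_mul]
      · rw [map_pow, hvx, one_pow]
    calc v (1 + a + a ^ 2) * v (a * x - x ^ 2) ≤ v (1 + a + a ^ 2) * 1 := mul_le_mul_right h2 _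
      _ < 1 := by rwa [mul_one]
  rw [one1_div hva, one1_div (by rw [map_pow, hva, one_pow])]
  by_contra hcon
  push Not at hcon
  obtain ⟨c1, c2, c3⟩ := hcon
  unfold One1 at c1
  rw [not_lt] at c1
  rw [map_mul, map_mul] at h1
  have h4 : 1 ≤ v (x - 1) * v (x - a) * v (x - a ^ 2) := by
    calc (1 : Γ) = 1 * 1 * 1 := by rw [mul_one, mul_one]
      _ ≤ v (x - 1) * v (x - a) * v (x - a ^ 2) :=
        mul_le_mul' (mul_le_mul' c1 c2) c3
  exact absurd h1 (not_lt.2 h4)

end cube

/-- **Tame ramification.** An automorphism of order three which preserves the valuation and is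
trivial modulo one-units on all elements is trivial if `3` is a unit. -/
theorem tame {τ : F ≃+* F} (hτv : ∀ x, v (τ x) = v x) (hτ3 : ∀ x, τ (τ (τ x)) = x)
    (h3 : v 3 = 1) (h : ∀ y, y ≠ 0 → One1 v (y / τ y)) (x : F) : τ x = x := by
  by_contra hne
  set δ := τ x - x with hδ
  have hδ0 : δ ≠ 0 := sub_ne_zero.2 hne
  have hτδ0 : τ δ ≠ 0 := fun h0 => hδ0 ((map_eq_zero τ).1 h0)
  have hsum : δ + τ δ + τ (τ δ) = 0 := by
    rw [hδ, map_sub, map_sub, hτ3]
    ring
  have h1 : One1 v (τ δ / δ) := by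
    have := (h δ hδ0).inv
    rwa [inv_div] at this
  have h2 : One1 v (τ (τ δ) / τ δ) := by
    unfold One1
    have e : τ (τ δ) / τ δ - 1 = τ (τ δ / δ - 1) := by
      rw [map_sub τ (τ δ / δ) 1, map_div₀ τ, map_one]
    rw [e, hτv]
    exact h1
  have h4 : One1 v (τ (τ δ) / δ) := by
    have e : τ (τ δ) / δ = (τ (τ δ) / τ δ) * (τ δ / δ) := by
      field_simp
    rw [e]
    exact h2.mul h1
  have e : (3 : F) = -((τ δ / δ - 1) + (τ (τ δ) / δ - 1)) := by
    have e1 : τ (τ δ) = - (δ + τ δ) := by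
      rw [eq_neg_iff_add_eq_zero, add_comm]
      exact hsum
    rw [e1]
    field_simp
    ring
  have h5 : v 3 < 1 := by
    rw [e, Valuation.map_neg]
    exact Valuation.map_add_lt _ h1 h4
  rw [h3] at h5
  exact lt_irrefl _ h5

end Pool.Agent.MU3
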