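import Pool.Agent.RI.COUNTACT
import Pool.Agent.RI.COUNTEXT
import Pool.Agent.RI.INVI
import Pool.Agent.RI.H90
import Pool.Agent.MU3.K1Val

/-!
# Exponents of principal ideals (helper80)

MP_b78433_nt, MU3, section 1 of PAPER_K.
-/

set_option autoImplicit false

open NumberField IsDedekindDomain
open scoped nonZeroDivisors Pointwise

namespace Pool.Agent.MU3

open Pool.Agent.RI

section basic

variable {F : Type} [Field F] [NumberField F]

/-- the exponent of the prime `w` in the fractional ideal `c` -/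
noncomputable def cntJ (w : HeightOneSpectrum (𝓞 F)) (c : J F) : ℤ :=
  FractionalIdeal.count F w (c : FractionalIdeal (𝓞 F)⁰ F)

/-- the exponent of the prime `w` in `(x)` -/
noncomputable def cnt (w : HeightOneSpectrum (𝓞 F)) (x : Fˣ) : ℤ := cntJ w (prin x)

variable {w : HeightOneSpectrum (𝓞 F)}

theorem cntJ_mul (c d : J F) : cntJ w (c * d) = cntJ w c + cntJ w d := by
  unfold cntJ
  rw [Units.val_mul, FractionalIdeal.count_mul F w c.ne_zero d.ne_zero]

theorem cntJ_one : cntJ w (1 : J F) = 0 := by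
  have := cntJ_mul (w := w) (1 : J F) 1
  rw [mul_one] at this
  linarith

theorem cntJ_inv (c : J F) : cntJ w c⁻¹ = - cntJ w c := by
  have := cntJ_mul (w := w) c⁻¹ c
  rw [inv_mul_cancel, cntJ_one] at this
  linarith

theorem cntJ_pow (c : J F) (n : ℕ) : cntJ w (c ^ n) = n * cntJ w c := by
  induction n with
  | zero => rw [pow_zero, cntJ_one, Nat.cast_zero, zero_mul]
  | succ n ih =>
    rw [pow_succ, cntJ_mul, ih]
    push_cast
    ring

theorem cntJ_prod {ι : Type} (s : Finset ι) (f : ι → J F) :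
    cntJ w (∏ i ∈ s, f i) = ∑ i ∈ s, cntJ w (f i) := by
  classical
  induction s using Finset.induction_on with
  | empty => rw [Finset.prod_empty, Finset.sum_empty, cntJ_one]
  | insert i s hi ih => rw [Finset.prod_insert hi, Finset.sum_insert hi, cntJ_mul, ih]

theorem cnt_mul (x y : Fˣ) : cnt w (x * y) = cnt w x + cnt w y := by
  unfold cnt
  rw [map_mul, cntJ_mul]

theorem cnt_one : cnt w (1 : Fˣ) = 0 := by
  unfold cnt
  rw [map_one, cntJ_one]

theorem cnt_inv (x : Fˣ) : cnt w x⁻¹ = - cnt w x := by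
  unfold cnt
  rw [map_inv, cntJ_inv]

theorem cnt_div (x y : Fˣ) : cnt w (x / y) = cnt w x - cnt w y := by
  rw [div_eq_mul_inv, cnt_mul, cnt_inv]
  ring

theorem cnt_pow (x : Fˣ) (n : ℕ) : cnt w (x ^ n) = n * cnt w x := by
  unfold cnt
  rw [map_pow, cntJ_pow]

theorem cnt_zpow (x : Fˣ) (n : ℤ) : cnt w (x ^ n) = n * cnt w x := by
  cases n with
  | ofNat n =>
    rw [Int.ofNat_eq_natCast, zpow_natCast, cnt_pow]
  | negSucc n =>
    rw [zpow_negSucc, cnt_inv, cnt_pow, Int.negSucc_eq]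
    push_cast
    ring

/-- valuation and exponent, for integers -/
theorem val_cnt_int (x : Fˣ) (r : 𝓞 F) (hx : (x : F) = algebraMap (𝓞 F) F r) :
    w.valuation F (x : F) = WithZero.exp (-cnt w x) := by
  have hr : r ≠ 0 := by
    rintro rfl
    rw [map_zero] at hx
    exact x.ne_zero hx
  have hs : (Ideal.span {r} : Ideal (𝓞 F)) ≠ ⊥ := by
    rw [Ne, Ideal.span_singleton_eq_bot]
    exact hr
  rw [hx, HeightOneSpectrum.valuation_of_algebraMap,
    HeightOneSpectrum.intValuation_eq_exp_neg_multiplicity w hr]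
  congr 2
  rw [← COUNTEXT.count_coe_eq F w hs]
  unfold cnt cntJ
  rw [coe_toPrincipalIdeal, hx, FractionalIdeal.coeIdeal_span_singleton]

/-- valuation and exponent -/
theorem val_cnt (x : Fˣ) : w.valuation F (x : F) = WithZero.exp (-cnt w x) := by
  obtain ⟨r, s, hs, hx⟩ := IsFractionRing.div_surjective (A := 𝓞 F) (x : F)
  have hs0 : algebraMap (𝓞 F) F s ≠ 0 :=
    IsFractionRing.to_map_ne_zero_of_mem_nonZeroDivisors hs
  have hr0 : algebraMap (𝓞 F) F r ≠ 0 := by
    intro h0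
    rw [h0, zero_div] at hx
    exact x.ne_zero hx.symm
  have e : x = Units.mk0 _ hr0 / Units.mk0 _ hs0 := by
    apply Units.ext
    rw [Units.val_div_eq_div_val, Units.val_mk0, Units.val_mk0, hx]
  have h1 := val_cnt_int (w := w) (Units.mk0 _ hr0) r rfl
  have h2 := val_cnt_int (w := w) (Units.mk0 _ hs0) s rfl
  rw [e, cnt_div, Units.val_div_eq_div_val, map_div₀, h1, h2, ← WithZero.exp_sub]
  congr 1
  ring

theorem val_one_iff (x : Fˣ) : w.valuation F (x : F) = 1 ↔ cnt w x = 0 := by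
  rw [val_cnt, ← WithZero.exp_zero, WithZero.exp_inj]
  omega

/-- there is a uniformizer -/
theorem exists_unif (w : HeightOneSpectrum (𝓞 F)) : ∃ π : Fˣ, cnt w π = 1 := by
  obtain ⟨π, hπ⟩ := w.valuation_exists_uniformizer F
  have h0 : π ≠ 0 := by
    rintro rfl
    rw [map_zero] at hπ
    exact WithZero.exp_ne_zero hπ.symm
  refine ⟨Units.mk0 π h0, ?_⟩
  have h1 := val_cnt (w := w) (Units.mk0 π h0)
  rw [Units.val_mk0, hπ, WithZero.exp_inj] at h1
  omega

/-- units of the ring of integers -/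
theorem cnt_unit (u : (𝓞 F)ˣ) : cnt w (Units.map (algebraMap (𝓞 F) F : 𝓞 F →* F) u) = 0 := by
  rw [← val_one_iff]
  change w.valuation F (algebraMap (𝓞 F) F (u : 𝓞 F)) = 1
  rw [HeightOneSpectrum.valuation_eq_one_iff_notMem]
  exact fun h => w.isPrime.ne_top (Ideal.eq_top_of_isUnit_mem _ h u.isUnit)

/-- conversely -/
theorem exists_unit {x : Fˣ} (h : ∀ w : HeightOneSpectrum (𝓞 F), cnt w x = 0) :
    ∃ u : (𝓞 F)ˣ, Units.map (algebraMap (𝓞 F) F : 𝓞 F →* F) u = x := by
  have h1 : ∀ y : Fˣ, (∀ w : HeightOneSpectrum (𝓞 F), cnt w y = 0) →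
      ∃ r : 𝓞 F, algebraMap (𝓞 F) F r = y := by
    intro y hy
    exact HeightOneSpectrum.mem_integers_of_valuation_le_one F (y : F)
      (fun w => ((val_one_iff y).2 (hy w)).le)
  obtain ⟨r, hr⟩ := h1 x h
  obtain ⟨s, hs⟩ := h1 x⁻¹ (fun w => by rw [cnt_inv, h w, neg_zero])
  have hrs : r * s = 1 := by
    apply IsFractionRing.injective (𝓞 F) F
    rw [map_mul, hr, hs, map_one, Units.mul_inv]
  refine ⟨Units.mkOfMulEqOne r s hrs, ?_⟩
  apply Units.ext
  exact hr

end basic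

section act

variable {k F : Type} [Field k] [Field F] [NumberField F] [Algebra k F]

/-- the prime `σ w` -/
noncomputable def mv (σ : F ≃ₐ[k] F) (w : HeightOneSpectrum (𝓞 F)) : HeightOneSpectrum (𝓞 F) where
  asIdeal := σ • w.asIdeal
  isPrime := by
    have := w.isPrime
    infer_instance
  ne_bot := by
    intro h
    apply w.ne_bot
    have h1 : σ⁻¹ • (σ • w.asIdeal) = σ⁻¹ • (⊥ : Ideal (𝓞 F)) := by rw [h]
    rw [inv_smul_smul] at h1
    rw [h1]
    exact smul_zero (A := Ideal (𝓞 F)) σ⁻¹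

omit [NumberField F] in
theorem mv_mul (σ τ : F ≃ₐ[k] F) (w : HeightOneSpectrum (𝓞 F)) :
    mv (σ * τ) w = mv σ (mv τ w) := by
  apply HeightOneSpectrum.ext
  exact mul_smul σ τ w.asIdeal

omit [NumberField F] in
theorem mv_one (w : HeightOneSpectrum (𝓞 F)) : mv (1 : F ≃ₐ[k] F) w = w := by
  apply HeightOneSpectrum.ext
  exact one_smul _ w.asIdeal

theorem cntJ_mv (σ : F ≃ₐ[k] F) (w : HeightOneSpectrum (𝓞 F)) (c : J F) :
    cntJ (mv σ w) (σ • c) = cntJ w c := COUNTACT_thm k F σ w (mv σ w) rfl c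

theorem cnt_mv (σ : F ≃ₐ[k] F) (w : HeightOneSpectrum (𝓞 F)) (x : Fˣ) :
    cnt (mv σ w) (σ • x) = cnt w x := by
  unfold cnt
  rw [← smul_prin, cntJ_mv]

theorem cnt_mv' (σ : F ≃ₐ[k] F) (w : HeightOneSpectrum (𝓞 F)) (x : Fˣ) :
    cnt w (σ • x) = cnt (mv σ⁻¹ w) x := by
  have := cnt_mv σ (mv σ⁻¹ w) x
  rwa [← mv_mul, mul_inv_cancel, mv_one] at this

/-- the valuation of a conjugate -/
theorem val_mv (σ : F ≃ₐ[k] F) (w : HeightOneSpectrum (𝓞 F)) (x : F) :
    (mv σ w).valuation F (σ x) = w.valuation F x := by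
  by_cases h0 : x = 0
  · rw [h0, map_zero, map_zero, map_zero]
  · have h1 := val_cnt (w := mv σ w) (σ • Units.mk0 x h0)
    have h2 := val_cnt (w := w) (Units.mk0 x h0)
    rw [cnt_mv] at h1
    rw [Units.val_mk0] at h2
    rw [h2, ← h1]
    rfl

end act

section up

variable {L F : Type} [Field L] [NumberField L] [Field F] [NumberField F] [Algebra L F]

/-- exponents in an extension -/
theorem cnt_ext (w : HeightOneSpectrum (𝓞 F)) (v : HeightOneSpectrum (𝓞 L))
    (h : w.asIdeal.under (𝓞 L) = v.asIdeal) (x : Lˣ) :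
    cnt w (Units.map (algebraMap L F : L →* F) x) =
      (w.asIdeal.ramificationIdx (𝓞 L) : ℤ) * cnt v x := by
  unfold cnt
  rw [← ext_prin]
  exact COUNTEXT_thm L F v w h _

end up

end Pool.Agent.MU3
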