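import Pool.Agent.MU3.StGl
import Pool.Agent.MU3.K1Cnt

/-!
# MU3_UNI: `g^j c / c` is a unit
-/

open NumberField IsDedekindDomain Finset
open scoped nonZeroDivisors Pointwise

namespace Pool.Agent.MU3

open Pool.Agent.RI Pool.Agent.RID

namespace P_UNI

theorem above_mv {k L : Type} [Field k] [Field L] [NumberField L] [Algebra k L] {S : Finset ℕ}
    (σ : L ≃ₐ[k] L) {w : HeightOneSpectrum (𝓞 L)} (h : Above S w) : Above S (mv σ w) := by
  obtain ⟨p, hp, hw⟩ := h
  refine ⟨p, hp, ?_⟩
  change (p : 𝓞 L) ∈ σ • w.asIdeal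
  have h1 : σ • (p : 𝓞 L) ∈ σ • w.asIdeal := Ideal.smul_mem_pointwise_smul σ _ _ hw
  have h2 : σ • (p : 𝓞 L) = (p : 𝓞 L) := by
    change MulSemiringAction.toRingHom (L ≃ₐ[k] L) (𝓞 L) σ (p : 𝓞 L) = p
    exact map_natCast _ p
  rwa [h2] at h1

end P_UNI

open P_UNI

theorem t_UNI : S_UNI := by
  intro k L _ _ _ _ _ S c hc hSU g hg j
  have hgc : (g ^ j) c ≠ 0 := by
    intro h
    apply hc
    exact (map_eq_zero_iff (g ^ j) (g ^ j).injective).1 h
  have hx : (g ^ j) c / c ≠ 0 := div_ne_zero hgc hc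
  have hgj : ∀ (i : ℕ) (v : HeightOneSpectrum (𝓞 L)), Above S v → mv (g ^ i) v = v := by
    intro i
    induction i with
    | zero =>
      intro v _
      rw [pow_zero, mv_one]
    | succ i ih =>
      intro v hv
      have h1 : mv g v = v := HeightOneSpectrum.ext (hg v hv)
      rw [pow_succ, mv_mul, h1, ih v hv]
  have hval : ∀ v : HeightOneSpectrum (𝓞 L), v.valuation L ((g ^ j) c / c) = 1 := by
    intro v
    by_cases hv : Above S v
    · have h1 := val_mv (g ^ j) v c
      rw [hgj j v hv] at h1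
      rw [map_div₀, h1, div_self]
      intro h0
      exact hc ((map_eq_zero _).1 h0)
    · have h1 : ¬ Above S (mv (g ^ j)⁻¹ v) := by
        intro h
        apply hv
        have h2 := above_mv (g ^ j) h
        rwa [← mv_mul, mul_inv_cancel, mv_one] at h2
      have h2 := val_mv (g ^ j) (mv (g ^ j)⁻¹ v) c
      rw [← mv_mul, mul_inv_cancel, mv_one] at h2
      rw [map_div₀, h2, hSU _ h1, hSU _ hv, div_one]
  obtain ⟨u, hu⟩ := exists_unit (x := Units.mk0 _ hx) (fun w => by
    rw [← val_one_iff, Units.val_mk0]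
    exact hval w)
  exact ⟨u, congrArg Units.val hu⟩

end Pool.Agent.MU3
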