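import Pool.Agent.MU3.StGl
import Pool.Agent.RI.BCH
import Pool.Agent.RI.LAY
import Pool.Agent.RID.P_INJ

/-!
# Module UP: enlarging `K`
-/

open NumberField Finset

namespace Pool.Agent.MU3

open Pool.Agent.RI Pool.Agent.RID

/-- Module UP. -/
theorem t_UP : S_UP := by
  intro K K' B hfK n h hlay hgal hdeg
  have : Fact (Nat.Prime 3) := ⟨Nat.prime_three⟩
  obtain ⟨hfB, -, -⟩ := LAY_thm 3 n B hlay
  have hf : FiniteDimensional ℚ ↥(K' ⊔ B) := IntermediateField.finiteDimensional_sup K' B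
  have hle : K ⊔ B ≤ K' ⊔ B := sup_le_sup_right h B
  have hb := BCH_thm.1 K K' B (K ⊔ B) (K' ⊔ B) h hle rfl rfl hgal
  exact t_INJ 3 (K ⊔ B) (K' ⊔ B) hle hb.1 (fun hd => hdeg (hd.trans hb.2))

end Pool.Agent.MU3
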