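import Pool.Agent.MU3.I3G
import Pool.Agent.MU3.FinD
import Pool.Agent.MU3.KIN
import Pool.Agent.MU3.N_FIN
import Pool.Agent.MU3.N_AMB
import Pool.Agent.MU3.N_AMBA
import Pool.Agent.MU3.N_AMBI
import Pool.Agent.MU3.N_AMBU
import Pool.Agent.MU3.N_NIL
import Pool.Agent.MU3.N_Q
import Pool.Agent.MU3.N_RAMP
import Pool.Agent.MU3.N_STEP
import Pool.Agent.MU3.N_GAL
import Pool.Agent.MU3.PX_NPC
import Pool.Agent.MU3.PX_NPL
import Pool.Agent.MU3.P_ALGS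
import Pool.Agent.MU3.P_EIG
import Pool.Agent.MU3.P_LG
import Pool.Agent.MU3.P_STAB
import Pool.Agent.MU3.P_THDJ
import Pool.Agent.MU3.P_NILX
import Pool.Agent.MU3.P_NIL
import Pool.Agent.MU3.P_GALK
import Pool.Agent.MU3.P_TWK
import Pool.Agent.MU3.P_RST
import Pool.Agent.MU3.P_M0
import Pool.Agent.MU3.P_RAMK
import Pool.Agent.MU3.P_MONO
import Pool.Agent.MU3.P_UNI
import Pool.Agent.MU3.P_NRM
import Pool.Agent.MU3.P_TN
import Pool.Agent.MU3.P_I3L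
import Pool.Agent.MU3.P_MAINK
import Pool.Agent.MU3.P_UP

/-!
# MU3, block K: assembly

`kMAINK`: the growth of the class numbers from the inputs `Inp` (only `N_NUM` is a hypothesis).
-/

namespace Pool.Agent.MU3

theorem kTWK : S_TWK := t_TWK t_GALK _root_.MU3.n_GAL

theorem kRST : S_RST := t_RST t_GALK kTWK

theorem kPRB : S_PRB := by
  intro p _ K _ B _ hB l hl
  obtain ⟨t, ht⟩ := _root_.MU3.p_NPL _root_.MU3.p_NPC p l K B hl hB
  exact ⟨t, fun n => (ht n inferInstance).1⟩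

theorem kM0 : S_M0 := t_M0 kPRB kTWK

theorem kRAMK : S_RAMK := t_RAMK _root_.MU3.n_RAMP

theorem kI3L : S_I3L := t_I3L t_GALK kRST (t_NRM kRST) t_TN

theorem kNIL : S_NIL := t_NIL t_EIG t_STAB (t_THDJ finTHD) (t_NILX t_ALGS t_LG)

theorem kFIN (h : _root_.MU3.N_NUM) : _root_.MU3.N_FIN :=
  _root_.MU3.n_FIN (_root_.MU3.n_AMB _root_.MU3.n_AMBA _root_.MU3.n_AMBI _root_.MU3.n_AMBU)
    (_root_.MU3.n_NILR _root_.MU3.n_NIL) _root_.MU3.n_STEP h _root_.MU3.n_GAL _root_.MU3.n_RAMP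

theorem kMAINK (h : _root_.MU3.N_NUM) : S_MAINK :=
  t_MAINK t_GALK kTWK kM0 kRAMK t_MONO t_UNI kI3L KIN_thm kNIL (kFIN h)

end Pool.Agent.MU3
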