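import Pool.Agent.MU3.StP

/-!
# MU3, block P: module REC
-/

open NumberField Finset IsDedekindDomain
open scoped nonZeroDivisors Pointwise

namespace MU3

open Pool.Agent.RI Pool.Agent.RID

namespace PX_REC

/-- `2 ^ n` outgrows every polynomial. -/
lemma grow (A k : ℕ) : ∃ n₁ : ℕ, ∀ n, n₁ ≤ n → A * (n + 2) ^ k < 2 ^ n := by
  have h1 := tendsto_pow_const_div_const_pow_of_one_lt k (r := (2 : ℝ)) (by norm_num)
  have h2 : ∀ᶠ n : ℕ in Filter.atTop, (n : ℝ) ^ k / 2 ^ n < 1 / (4 * (A : ℝ) + 4) :=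
    h1.eventually_lt_const (by positivity)
  obtain ⟨N, hN⟩ := Filter.eventually_atTop.1 h2
  refine ⟨N, fun n hn => ?_⟩
  have h3 := hN (n + 2) (by omega)
  rw [div_lt_div_iff₀ (by positivity) (by positivity)] at h3
  have h4 : (A : ℝ) * ((n : ℝ) + 2) ^ k < 2 ^ n := by
    have h5 : ((n + 2 : ℕ) : ℝ) = (n : ℝ) + 2 := by push_cast; ring
    rw [h5] at h3
    have h6 : (0 : ℝ) ≤ ((n : ℝ) + 2) ^ k := by positivity
    have h7 : (2 : ℝ) ^ (n + 2) = 4 * 2 ^ n := by ring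
    rw [h7] at h3
    nlinarith
  exact_mod_cast h4

end PX_REC

/-- REC. -/
theorem p_REC : P_REC := by
  intro p D C k hp v r hr hv
  have hp2 : 2 ≤ p := hp.out.two_le
  obtain ⟨n₁, hn₁⟩ := PX_REC.grow (C * D) k
  have hstep : ∀ n, n₁ ≤ n → v (n + 1) ≤ v n + C * (n + 2) ^ k := by
    intro n hn
    have h1 : r (n + 1) ≤ C * (n + 2) ^ k := hr (n + 1)
    have h2 : r (n + 1) * D < p ^ n * (p - 1) := by
      calc r (n + 1) * D ≤ C * (n + 2) ^ k * D := Nat.mul_le_mul_right _ h1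
        _ = C * D * (n + 2) ^ k := by ring
        _ < 2 ^ n := hn₁ n hn
        _ ≤ p ^ n := Nat.pow_le_pow_left hp2 n
        _ ≤ p ^ n * (p - 1) := Nat.le_mul_of_pos_right _ (by omega)
    exact (hv n h2).trans (Nat.add_le_add_left h1 _)
  have hsum : ∀ j, v (n₁ + j) ≤ v n₁ + j * (C * (n₁ + j + 1) ^ k) := by
    intro j
    induction j with
    | zero => simp
    | succ j ih =>
      have h1 := hstep (n₁ + j) (by omega)
      have h2 : C * (n₁ + j + 1) ^ k ≤ C * (n₁ + j + 2) ^ k :=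
        Nat.mul_le_mul_left _ (Nat.pow_le_pow_left (by omega) k)
      have h3 : j * (C * (n₁ + j + 1) ^ k) ≤ j * (C * (n₁ + j + 2) ^ k) :=
        Nat.mul_le_mul_left _ h2
      have h4 : n₁ + (j + 1) + 1 = n₁ + j + 2 := by ring
      rw [h4]
      calc v (n₁ + (j + 1)) ≤ v (n₁ + j) + C * (n₁ + j + 2) ^ k := h1
        _ ≤ v n₁ + j * (C * (n₁ + j + 2) ^ k) + C * (n₁ + j + 2) ^ k := by omega
        _ = v n₁ + (j + 1) * (C * (n₁ + j + 2) ^ k) := by ring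
  refine ⟨C + ∑ m ∈ range (n₁ + 1), v m, fun n => ?_⟩
  have hM : ∀ m, m ≤ n₁ → v m ≤ ∑ m ∈ range (n₁ + 1), v m := by
    intro m hm
    exact single_le_sum (f := v) (fun i _ => Nat.zero_le _) (mem_range.2 (by omega))
  set M := ∑ m ∈ range (n₁ + 1), v m with hMdef
  have hone : 1 ≤ (n + 1) ^ (k + 1) := Nat.one_le_pow _ _ (by omega)
  have hMn : M ≤ M * (n + 1) ^ (k + 1) := Nat.le_mul_of_pos_right _ hone
  rcases Nat.le_total n n₁ with h | h
  · calc v n ≤ M := hM n h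
      _ ≤ M * (n + 1) ^ (k + 1) := hMn
      _ ≤ (C + M) * (n + 1) ^ (k + 1) := Nat.mul_le_mul_right _ (by omega)
  · obtain ⟨j, rfl⟩ := Nat.exists_eq_add_of_le h
    have h1 := hsum j
    have h2 := hM n₁ le_rfl
    have h3 : j * (C * (n₁ + j + 1) ^ k) ≤ C * (n₁ + j + 1) ^ (k + 1) := by
      calc j * (C * (n₁ + j + 1) ^ k) ≤ (n₁ + j + 1) * (C * (n₁ + j + 1) ^ k) :=
            Nat.mul_le_mul_right _ (by omega)
        _ = C * (n₁ + j + 1) ^ (k + 1) := by ring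
    calc v (n₁ + j) ≤ M + C * (n₁ + j + 1) ^ (k + 1) := by omega
      _ ≤ M * (n₁ + j + 1) ^ (k + 1) + C * (n₁ + j + 1) ^ (k + 1) := by omega
      _ = (C + M) * (n₁ + j + 1) ^ (k + 1) := by ring

end MU3
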