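import Pool.Agent.MU3.NStmts
import Pool.Agent.MU3.PX_REC

/-!
# MU3, section 4, module NUM: summation (from P_REC with `D = 1`, `k = 1`)
-/

set_option autoImplicit false

namespace MU3

theorem n_NUM : N_NUM := by
  intro p l c₀ c₁ _ v r h1 h2
  refine p_REC p 1 (l * (c₀ + c₁)) 1 v r (fun n => (h1 n).trans ?_)
    (fun n h => h2 n (by rwa [mul_one] at h))
  rw [mul_assoc, pow_one]
  refine Nat.mul_le_mul_left l ?_
  nlinarith [Nat.zero_le (n * c₀), Nat.zero_le c₁]

end MU3
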