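import Pool.Agent.MU3.K1Cnt

/-!
# Kolyvagin's step, local part (helper80)

MP_b78433_nt, MU3, section 1 of PAPER_K. `F/L` cyclic of degree three, `w` a prime of `F` which is
totally ramified over `L` and not above `3`.
-/

set_option autoImplicit false

open NumberField IsDedekindDomain
open scoped nonZeroDivisors Pointwise

namespace Pool.Agent.MU3

open Pool.Agent.RI

section inert

variable {L F : Type} [Field L] [NumberField L] [Field F] [NumberField F] [Algebra L F]
  [IsGalois L F]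

/-- the inertia group of a totally ramified prime -/
theorem inertia_top (w : HeightOneSpectrum (𝓞 F))
    (hw : w.asIdeal.ramificationIdx (𝓞 L) = Module.finrank L F) (τ : F ≃ₐ[L] F) (x : 𝓞 F) :
    τ • x - x ∈ w.asIdeal := by
  set p : Ideal (𝓞 L) := w.asIdeal.under (𝓞 L) with hp
  have hlo : w.asIdeal.LiesOver p := ⟨rfl⟩
  have hwp : w.asIdeal.IsPrime := w.isPrime
  have hpp : p.IsPrime := Ideal.IsPrime.under (𝓞 L) w.asIdeal
  have hp0 : p ≠ ⊥ := (w.under (𝓞 L)).ne_bot
  have hfin : Finite (𝓞 L ⧸ p) := Ideal.finiteQuotientOfFreeOfNeBot p hp0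
  have hmax : p.IsMaximal := hpp.isMaximal hp0
  have hfr : Finite p.ResidueField :=
    Finite.of_surjective (algebraMap (𝓞 L ⧸ p) p.ResidueField)
      (Ideal.bijective_algebraMap_quotient_residueField p).2
  have h1 := Ideal.card_inertia_eq_ramificationIdxIn (G := F ≃ₐ[L] F) p w.asIdeal
  rw [Ideal.ramificationIdxIn_eq_ramificationIdx p w.asIdeal (F ≃ₐ[L] F), hw,
    ← IsGalois.card_aut_eq_finrank] at h1
  have h2 : (w.asIdeal.inertia (F ≃ₐ[L] F)) = ⊤ := Subgroup.eq_top_of_card_eq _ h1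
  have h3 : τ ∈ w.asIdeal.inertia (F ≃ₐ[L] F) := by
    rw [h2]
    exact Subgroup.mem_top τ
  exact h3 x

/-- a totally ramified prime is invariant -/
theorem mv_ram (w : HeightOneSpectrum (𝓞 F))
    (hw : w.asIdeal.ramificationIdx (𝓞 L) = Module.finrank L F) (τ : F ≃ₐ[L] F) :
    mv τ w = w := by
  apply HeightOneSpectrum.ext
  have h1 : ∀ σ : F ≃ₐ[L] F, σ • w.asIdeal ≤ w.asIdeal := by
    intro σ x hx
    rw [Ideal.mem_pointwise_smul_iff_inv_smul_mem] at hx
    have h2 := inertia_top w hw σ⁻¹ x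
    have h3 := w.asIdeal.sub_mem hx h2
    rwa [sub_sub_cancel] at h3
  refine le_antisymm (h1 τ) ?_
  have h4 := h1 τ⁻¹
  have h5 := Ideal.pointwise_smul_le_pointwise_smul_iff (a := τ) |>.2 h4
  rwa [smul_inv_smul] at h5

end inert

section loc

variable {L F : Type} [Field L] [NumberField L] [Field F] [NumberField F] [Algebra L F]

omit [NumberField L] in
/-- the map `y ↦ y / τ y` is trivial modulo one-units on `w`-units -/
theorem triv_unit {w : HeightOneSpectrum (𝓞 F)} {τ : F ≃ₐ[L] F}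
    (ht : ∀ x : 𝓞 F, τ • x - x ∈ w.asIdeal) {y : Fˣ} (hy : cnt w y = 0) :
    One1 (w.valuation F) ((y : F) / τ (y : F)) := by
  have hv := (val_one_iff (w := w) y).2 hy
  obtain ⟨n, d, hnd⟩ := w.exists_primeCompl_mul_eq_of_integer (y : F) hv.le
  have key : ∀ r : 𝓞 F, r ∉ w.asIdeal →
      One1 (w.valuation F) (τ (algebraMap (𝓞 F) F r) / algebraMap (𝓞 F) F r) := by
    intro r hr
    rw [one1_div (by rwa [HeightOneSpectrum.valuation_eq_one_iff_notMem])]
    have e : τ (algebraMap (𝓞 F) F r) - algebraMap (𝓞 F) F r =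
        algebraMap (𝓞 F) F (τ • r - r) := by
      rw [map_sub]
      rfl
    rw [e]
    exact (HeightOneSpectrum.valuation_lt_one_iff_mem (K := F) (v := w) _).2 (ht r)
  have hd : (d : 𝓞 F) ∉ w.asIdeal := d.2
  have hdv : w.valuation F (algebraMap (𝓞 F) F (d : 𝓞 F)) = 1 := by
    rwa [HeightOneSpectrum.valuation_eq_one_iff_notMem]
  have hn : n ∉ w.asIdeal := by
    rw [← HeightOneSpectrum.valuation_eq_one_iff_notMem (K := F), ← hnd, map_mul, hv, hdv, one_mul]
  have k1 := (key n hn).inv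
  have k2 := key d hd
  have d0 : algebraMap (𝓞 F) F (d : 𝓞 F) ≠ 0 := by
    intro h0
    rw [h0, map_zero] at hdv
    exact zero_ne_one hdv
  have e : (y : F) / τ (y : F) = (τ (algebraMap (𝓞 F) F n) / algebraMap (𝓞 F) F n)⁻¹ *
      (τ (algebraMap (𝓞 F) F (d : 𝓞 F)) / algebraMap (𝓞 F) F (d : 𝓞 F)) := by
    rw [← hnd, map_mul]
    have y0 : (y : F) ≠ 0 := y.ne_zero
    have ty0 : τ (y : F) ≠ 0 := (map_ne_zero τ).2 y0
    have td0 : τ (algebraMap (𝓞 F) F (d : 𝓞 F)) ≠ 0 := (map_ne_zero τ).2 d0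
    field_simp
  rw [e]
  exact k1.mul k2

/-- the local symbol: for `F/L` of degree three, totally ramified at `w`, and `a` a cube root of
unity modulo `w`, `y / τ y` is a power of `a` modulo one-units, with exponent `s cnt w y` -/
theorem local_symbol [IsGalois L F] (hdeg : Module.finrank L F = 3) {w : HeightOneSpectrum (𝓞 F)}
    (hw : w.asIdeal.ramificationIdx (𝓞 L) = 3) {τ : F ≃ₐ[L] F} (hτ : τ ≠ 1) {a : F}
    (ha : w.valuation F (1 + a + a ^ 2) < 1) (ha1 : w.valuation F a ≤ 1)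
    (h3 : w.valuation F 3 = 1) :
    ∃ s : ℤ, (s = 1 ∨ s = 2) ∧
      ∀ y : Fˣ, One1 (w.valuation F) (((y : F) / τ (y : F)) / a ^ (s * cnt w y)) := by
  have hw' : w.asIdeal.ramificationIdx (𝓞 L) = Module.finrank L F := by rw [hw, hdeg]
  have ht := inertia_top w hw' τ
  have hmv := mv_ram w hw' τ
  have hva := cube_val ha ha1
  have ha0 : a ≠ 0 := by
    rintro rfl
    rw [map_zero] at hva
    exact zero_ne_one hva
  obtain ⟨π, hπ⟩ := exists_unif w
  have y0 : ∀ y : Fˣ, (y : F) ≠ 0 := fun y => y.ne_zero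
  have ty0 : ∀ y : Fˣ, τ (y : F) ≠ 0 := fun y => (map_ne_zero τ).2 y.ne_zero
  set θ : F := (π : F) / τ (π : F) with hθ
  have hθ0 : θ ≠ 0 := div_ne_zero (y0 π) (ty0 π)
  -- the value depends only on the exponent
  have key : ∀ y : Fˣ, One1 (w.valuation F) (((y : F) / τ (y : F)) / θ ^ (cnt w y)) := by
    intro y
    have h1 : cnt w (y / π ^ (cnt w y)) = 0 := by
      rw [cnt_div, cnt_zpow, hπ]
      ring
    have h2 := triv_unit ht h1
    have e : ((y / π ^ (cnt w y) : Fˣ) : F) / τ ((y / π ^ (cnt w y) : Fˣ) : F) =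
        ((y : F) / τ (y : F)) / θ ^ (cnt w y) := by
      rw [Units.val_div_eq_div_val, Units.val_zpow_eq_zpow_val, map_div₀, map_zpow₀, hθ, div_zpow]
      have p1 := zpow_ne_zero (cnt w y) (y0 π)
      have p2 := zpow_ne_zero (cnt w y) (ty0 π)
      have p3 := y0 y
      have p4 := ty0 y
      field_simp
    rwa [e] at h2
  -- the cube
  have hcube : One1 (w.valuation F) (θ ^ 3) := by
    obtain ⟨x, hx⟩ := exists_unif (w.under (𝓞 L))
    have h1 := cnt_ext w (w.under (𝓞 L)) rfl x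
    rw [hw, hx] at h1
    have h2 := key (Units.map (algebraMap L F : L →* F) x)
    rw [h1] at h2
    have e : ((Units.map (algebraMap L F : L →* F) x : Fˣ) : F) /
        τ ((Units.map (algebraMap L F : L →* F) x : Fˣ) : F) = 1 := by
      have e1 : τ ((Units.map (algebraMap L F : L →* F) x : Fˣ) : F) =
          ((Units.map (algebraMap L F : L →* F) x : Fˣ) : F) := τ.commutes (x : L)
      rw [e1, div_self (Units.ne_zero _)]
    rw [e] at h2
    have h3' := h2.inv
    rw [one_div, inv_inv] at h3'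
    have e3 : θ ^ (((3 : ℕ) : ℤ) * 1) = θ ^ 3 := by
      rw [mul_one, zpow_natCast]
    rwa [e3] at h3'
  -- not trivial
  have hne : ¬ One1 (w.valuation F) θ := by
    intro hone
    apply hτ
    have hall : ∀ y : F, y ≠ 0 → One1 (w.valuation F) (y / τ y) := by
      intro y hy
      have h1 := (key (Units.mk0 y hy)).mul (hone.zpow (cnt w (Units.mk0 y hy)))
      rw [div_mul_cancel₀ _ (zpow_ne_zero _ hθ0)] at h1
      exact h1
    have hτ3 : ∀ x : F, τ (τ (τ x)) = x := by
      intro x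
      have h1 : τ ^ 3 = 1 := by
        have h2 : Nat.card (F ≃ₐ[L] F) = 3 := by
          rw [IsGalois.card_aut_eq_finrank, hdeg]
        rw [← h2]
        exact pow_card_eq_one'
      have h2 := DFunLike.congr_fun h1 x
      exact h2
    have hτv : ∀ x : F, w.valuation F ((τ : F ≃+* F) x) = w.valuation F x := by
      intro x
      have := val_mv τ w x
      rw [hmv] at this
      exact this
    apply AlgEquiv.ext
    intro x
    exact tame (τ := (τ : F ≃+* F)) hτv hτ3 h3 hall x
  rcases cube_roots ha ha1 hcube with h | h | h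
  · exact absurd h hne
  · refine ⟨1, Or.inl rfl, fun y => ?_⟩
    have h1 := (key y).mul (h.zpow (cnt w y))
    have e : ((y : F) / τ (y : F)) / θ ^ (cnt w y) * (θ / a) ^ (cnt w y) =
        ((y : F) / τ (y : F)) / a ^ (1 * cnt w y) := by
      rw [div_zpow θ a, one_mul, div_mul_div_cancel₀ (zpow_ne_zero (cnt w y) hθ0)]
    rwa [e] at h1
  · refine ⟨2, Or.inr rfl, fun y => ?_⟩
    have h1 := (key y).mul (h.zpow (cnt w y))
    have e : ((y : F) / τ (y : F)) / θ ^ (cnt w y) * (θ / a ^ 2) ^ (cnt w y) =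
        ((y : F) / τ (y : F)) / a ^ (2 * cnt w y) := by
      have e1 : a ^ (2 * cnt w y) = (a ^ 2) ^ (cnt w y) := by
        rw [zpow_mul, show (2 : ℤ) = ((2 : ℕ) : ℤ) from rfl, zpow_natCast]
      rw [div_zpow θ (a ^ 2), e1, div_mul_div_cancel₀ (zpow_ne_zero (cnt w y) hθ0)]
    rwa [e] at h1

end loc

end Pool.Agent.MU3
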