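import Pool.Agent.MU3.KDefs
import Pool.Agent.MU3.K1

/-!
# Kolyvagin's step (helper80)

MP_b78433_nt, MU3, section 1 of PAPER_K: `KIN_thm : S_KIN`.
-/

set_option autoImplicit false

open NumberField IsDedekindDomain
open scoped nonZeroDivisors Pointwise

namespace Pool.Agent.MU3

open Pool.Agent.RI

namespace K1M

/-! ### ideals of `L` -/

section ideals

variable {k L : Type} [Field k] [Field L] [NumberField L] [Algebra k L]

theorem above_mv {S : Finset ℕ} (σ : L ≃ₐ[k] L) (v : HeightOneSpectrum (𝓞 L)) :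
    Above S (mv σ v) ↔ Above S v := by
  have key : ∀ (σ : L ≃ₐ[k] L) (v : HeightOneSpectrum (𝓞 L)), Above S v → Above S (mv σ v) := by
    rintro σ v ⟨p, hp, hv⟩
    refine ⟨p, hp, ?_⟩
    change (p : 𝓞 L) ∈ σ • v.asIdeal
    rw [Ideal.mem_pointwise_smul_iff_inv_smul_mem]
    have e : σ⁻¹ • (p : 𝓞 L) = (p : 𝓞 L) := by
      have := map_natCast (MulSemiringAction.toRingHom (L ≃ₐ[k] L) (𝓞 L) σ⁻¹) p
      exact this
    rw [e]
    exact hv
  refine ⟨fun h => ?_, key σ v⟩
  have := key σ⁻¹ _ h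
  rwa [← mv_mul, inv_mul_cancel, mv_one] at this

theorem cntJ_vJ (v w : HeightOneSpectrum (𝓞 L)) [Decidable (w = v)] :
    cntJ v (vJ w) = if w = v then 1 else 0 := by
  classical
  unfold cntJ vJ
  rw [Units.val_mk0, FractionalIdeal.count_maximal]

theorem cntJ_smul_vJ (h : L ≃ₐ[k] L) (v w : HeightOneSpectrum (𝓞 L)) [Decidable (mv h w = v)] :
    cntJ v (h • vJ w) = if mv h w = v then 1 else 0 := by
  classical
  have h1 := cntJ_mv h (mv h⁻¹ v) (vJ w)
  rw [← mv_mul, mul_inv_cancel, mv_one, cntJ_vJ] at h1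
  rw [h1]
  have e : (w = mv h⁻¹ v) ↔ (mv h w = v) := by
    constructor
    · intro h2
      rw [h2, ← mv_mul, mul_inv_cancel, mv_one]
    · intro h2
      rw [← h2, ← mv_mul, inv_mul_cancel, mv_one]
  by_cases h2 : mv h w = v
  · rw [if_pos h2, if_pos (e.2 h2)]
  · rw [if_neg h2, if_neg (fun h3 => h2 (e.1 h3))]

/-- ideals with exponents only above `S` -/
theorem mem_SJ {S : Finset ℕ} {s : J L} (h : ∀ v : HeightOneSpectrum (𝓞 L), ¬ Above S v →
    cntJ v s = 0) : s ∈ SJ S L := by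
  classical
  have hfin : {v : HeightOneSpectrum (𝓞 L) | cntJ v s ≠ 0}.Finite := by
    have := FractionalIdeal.finite_factors (s : FractionalIdeal (𝓞 L)⁰ L)
    rwa [Filter.eventually_cofinite] at this
  have e : s = ∏ v ∈ hfin.toFinset, vJ v ^ cntJ v s := by
    apply INVI.eq_of_count
    intro w
    change cntJ w s = cntJ w _
    rw [cntJ_prod]
    have hz : ∀ (v : HeightOneSpectrum (𝓞 L)) (n : ℤ), cntJ w (vJ v ^ n) =
        n * (if v = w then 1 else 0) := by
      intro v n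
      have := cntJ_vJ w v
      cases n with
      | ofNat n => rw [Int.ofNat_eq_natCast, zpow_natCast, cntJ_pow, this]
      | negSucc n =>
        rw [zpow_negSucc, cntJ_inv, cntJ_pow, this, Int.negSucc_eq]
        push_cast
        ring
    simp only [hz, mul_ite, mul_one, mul_zero]
    rw [Finset.sum_ite_eq']
    by_cases hw : cntJ w s = 0
    · rw [if_neg (by simpa using hw), hw]
    · rw [if_pos (by simpa using hw)]
  rw [e]
  refine Subgroup.prod_mem _ fun v hv => Subgroup.zpow_mem _ (Subgroup.subset_closure ?_) _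
  refine ⟨v, ?_, rfl⟩
  by_contra hna
  have : cntJ v s ≠ 0 := by simpa using hv
  exact this (h v hna)

/-- decomposition: exponents divisible by three outside `S` -/
theorem decomp {S : Finset ℕ} {X : J L} (h : ∀ v : HeightOneSpectrum (𝓞 L), ¬ Above S v →
    (3 : ℤ) ∣ cntJ v X) : ∃ I s : J L, s ∈ SJ S L ∧ X = I ^ 3 * s := by
  classical
  have hfin : {v : HeightOneSpectrum (𝓞 L) | cntJ v X ≠ 0}.Finite := by
    have := FractionalIdeal.finite_factors (X : FractionalIdeal (𝓞 L)⁰ L)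
    rwa [Filter.eventually_cofinite] at this
  obtain ⟨I, hI⟩ := INVI.exists_count L (fun v => if Above S v then 0 else cntJ v X / 3)
    (hfin.subset (by
      intro v hv
      simp only [ne_eq, Set.mem_ofPred_eq] at hv ⊢
      intro h0
      apply hv
      split_ifs
      · rfl
      · rw [h0]
        rfl))
  have hI' : ∀ v, cntJ v I = if Above S v then 0 else cntJ v X / 3 := hI
  refine ⟨I, X * (I ^ 3)⁻¹, mem_SJ fun v hv => ?_, ?_⟩
  · rw [cntJ_mul, cntJ_inv, cntJ_pow, hI' v, if_neg hv]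
    have := h v hv
    push_cast
    omega
  · rw [mul_comm X, mul_inv_cancel_left]

end ideals

/-! ### automorphisms -/

section auts

variable {L F : Type} [Field L] [Field F] [Algebra L F] [FiniteDimensional L F] [IsGalois L F]

/-- the product over the Galois group -/
theorem prod_aut (hdeg : Module.finrank L F = 3) {τ : F ≃ₐ[L] F} (hτ : τ ≠ 1) (x : Fˣ) :
    ∏ σ : F ≃ₐ[L] F, σ • x = ∏ i ∈ Finset.range 3, τ ^ i • x := by
  classical
  have : Fact (Nat.Prime 3) := ⟨Nat.prime_three⟩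
  have hcard : Nat.card (F ≃ₐ[L] F) = 3 := by
    rw [IsGalois.card_aut_eq_finrank, hdeg]
  have hgen : ∀ σ : F ≃ₐ[L] F, σ ∈ Subgroup.zpowers τ := fun σ => mem_zpowers_of_prime_card hcard hτ
  have hord : orderOf τ = 3 := by
    rw [orderOf_eq_card_of_forall_mem_zpowers hgen, hcard]
  symm
  refine Finset.prod_bij (fun i _ => τ ^ i) (fun _ _ => Finset.mem_univ _) ?_ ?_ (fun _ _ => rfl)
  · intro a ha b hb hab
    rw [Finset.mem_range, ← hord] at ha hb
    exact pow_injOn_Iio_orderOf ha hb hab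
  · intro σ _
    have hmem : σ ∈ Submonoid.powers τ :=
      (isOfFinOrder_of_finite τ).mem_powers_iff_mem_zpowers.2 (hgen σ)
    obtain ⟨i, hi⟩ := Submonoid.mem_powers_iff σ τ |>.1 hmem
    refine ⟨i % orderOf τ, Finset.mem_range.2 ?_, ?_⟩
    · rw [hord]
      exact Nat.mod_lt _ (by norm_num)
    · rw [pow_mod_orderOf, hi]

/-- the norm -/
theorem norm_aut (hdeg : Module.finrank L F = 3) {τ : F ≃ₐ[L] F} (hτ : τ ≠ 1) (x : Fˣ) :
    Units.map (algebraMap L F : L →* F) (Units.map (Algebra.norm L : F →* L) x) =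
      ∏ i ∈ Finset.range 3, τ ^ i • x := by
  rw [← prod_aut hdeg hτ]
  apply Units.ext
  change algebraMap L F (Algebra.norm L (x : F)) = _
  rw [Algebra.norm_eq_prod_automorphisms, Units.coe_prod]
  rfl

end auts

section main

variable {k L F : Type} [Field k] [NumberField k] [Field L] [NumberField L] [Field F]
  [NumberField F] [Algebra k L] [Algebra L F] [Algebra k F] [IsScalarTower k L F]

/-- above `S` in an extension -/
theorem above_under {S : Finset ℕ} (w : HeightOneSpectrum (𝓞 F)) (v : HeightOneSpectrum (𝓞 L))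
    (h : w.asIdeal.under (𝓞 L) = v.asIdeal) : Above S w ↔ Above S v := by
  have e : ∀ p : ℕ, (p : 𝓞 F) ∈ w.asIdeal ↔ (p : 𝓞 L) ∈ v.asIdeal := by
    intro p
    rw [← h, Ideal.mem_comap, map_natCast]
  unfold Above
  simp only [e]

/-- contraction of a conjugate prime -/
theorem under_mv (σ : F ≃ₐ[k] F) (σ' : L ≃ₐ[k] L)
    (hσ : ∀ x : L, algebraMap L F (σ' x) = σ (algebraMap L F x)) (w : HeightOneSpectrum (𝓞 F))
    (v : HeightOneSpectrum (𝓞 L)) (h : w.asIdeal.under (𝓞 L) = v.asIdeal) :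
    (mv σ w).asIdeal.under (𝓞 L) = (mv σ' v).asIdeal := by
  have hint : ∀ (x : 𝓞 L), algebraMap (𝓞 L) (𝓞 F) (σ'⁻¹ • x) = σ⁻¹ • algebraMap (𝓞 L) (𝓞 F) x := by
    intro x
    apply IsFractionRing.injective (𝓞 F) F
    change algebraMap L F (σ'⁻¹ (x : L)) = σ⁻¹ (algebraMap L F (x : L))
    apply σ.injective
    rw [← hσ]
    have e1 : σ' (σ'⁻¹ (x : L)) = x := σ'.apply_symm_apply (x : L)
    have e2 : σ (σ⁻¹ (algebraMap L F (x : L))) = algebraMap L F (x : L) :=
      σ.apply_symm_apply _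
    rw [e1, e2]
  ext x
  rw [Ideal.mem_comap]
  change algebraMap (𝓞 L) (𝓞 F) x ∈ σ • w.asIdeal ↔ x ∈ σ' • v.asIdeal
  rw [Ideal.mem_pointwise_smul_iff_inv_smul_mem, Ideal.mem_pointwise_smul_iff_inv_smul_mem,
    ← hint, ← h, Ideal.mem_comap]

/-- a prime of `F` above `S` is fixed by the cube of a lift of an automorphism of `L` which fixes
the primes above `S` -/
theorem fix_cube [IsGalois L F] [FiniteDimensional L F] (hdeg : Module.finrank L F = 3)
    (hcomm : ∀ σ τ : F ≃ₐ[k] F, σ * τ = τ * σ) {S : Finset ℕ} {g : L ≃ₐ[k] L}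
    (hg : ∀ v : HeightOneSpectrum (𝓞 L), Above S v → g • v.asIdeal = v.asIdeal) {g' : F ≃ₐ[k] F}
    (hg' : ∀ x : L, algebraMap L F (g x) = g' (algebraMap L F x)) {w : HeightOneSpectrum (𝓞 F)}
    (hw : Above S w) : mv (g' ^ 3) w = w := by
  set v := w.under (𝓞 L) with hv
  have hvS : Above S v := (above_under w v rfl).1 hw
  have h1 : (mv g' w).asIdeal.under (𝓞 L) = v.asIdeal := by
    rw [under_mv g' g hg' w v rfl]
    exact hg v hvS
  have hlo : w.asIdeal.LiesOver v.asIdeal := ⟨rfl⟩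
  have hlo' : (mv g' w).asIdeal.LiesOver v.asIdeal := ⟨h1.symm⟩
  have hwp : w.asIdeal.IsPrime := w.isPrime
  have hwp' : (mv g' w).asIdeal.IsPrime := (mv g' w).isPrime
  obtain ⟨τ, hτ⟩ := Ideal.exists_smul_eq_of_isGaloisGroup v.asIdeal w.asIdeal
    (mv g' w).asIdeal (F ≃ₐ[L] F)
  set T : F ≃ₐ[k] F := τ.restrictScalars k with hT
  have h2 : mv g' w = mv T w := by
    apply HeightOneSpectrum.ext
    rw [← hτ]
    rfl
  have hT3 : T ^ 3 = 1 := by
    have h3 : τ ^ 3 = 1 := by
      have h4 : Nat.card (F ≃ₐ[L] F) = 3 := by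
        rw [IsGalois.card_aut_eq_finrank, hdeg]
      rw [← h4]
      exact pow_card_eq_one'
    apply AlgEquiv.ext
    intro x
    exact DFunLike.congr_fun h3 x
  have h3 : mv (g' ^ 3) w = mv (T ^ 3) w := by
    have e1 : mv (g' * T) w = mv (T * T) w := by
      rw [hcomm g' T, mv_mul, h2, ← mv_mul]
    have e2 : mv (g' * (T * T)) w = mv (T * (T * T)) w := by
      rw [hcomm g' (T * T), mv_mul, h2, ← mv_mul, hcomm (T * T) T]
    calc mv (g' ^ 3) w = mv (g' * g' * g') w := by rw [pow_succ, pow_two]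
      _ = mv (g' * g') (mv T w) := by rw [mv_mul, h2]
      _ = mv g' (mv (g' * T) w) := by rw [← mv_mul, ← mv_mul, mul_assoc]
      _ = mv (g' * (T * T)) w := by rw [e1, ← mv_mul]
      _ = mv (T * (T * T)) w := e2
      _ = mv (T ^ 3) w := by rw [pow_succ, pow_two, mul_assoc]
  rw [h3, hT3, mv_one]

end main

end K1M

end Pool.Agent.MU3
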