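import Pool.Agent.MU3.Base

/-! # MU3, block A2, part 8: a valuation ring of `ℂ` restricted to a number field -/

set_option autoImplicit false

open MU3 NumberField

namespace Pool.Agent.MU3A2

section Basic

variable {V : ValuationSubring ℂ}

theorem V_le {x : ℂ} : x ∈ V ↔ V.valuation x ≤ 1 := (V.valuation_le_one_iff x).symm

theorem V_lt {x : ℂ} : x ∈ V.nonunits ↔ V.valuation x < 1 := V.mem_nonunits_iff

theorem V_of_nonunit {x : ℂ} (h : x ∈ V.nonunits) : x ∈ V := V_le.2 (V_lt.1 h).le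

/-- an element integral over `ℤ` is in `V`. -/
theorem mem_of_integral {x : ℂ} (hx : IsIntegral ℤ x) : x ∈ V := by
  have h2 : IsIntegral V x := hx.tower_top
  obtain ⟨y, hy⟩ := IsIntegrallyClosed.isIntegral_iff.1 h2
  rw [← hy]
  exact y.2

theorem one_notMem : (1 : ℂ) ∉ V.nonunits := by
  rw [V_lt, map_one]
  exact lt_irrefl _

theorem nonunit_mul {x y : ℂ} (hx : x ∈ V) (hy : y ∈ V.nonunits) : x * y ∈ V.nonunits := by
  rw [V_lt, map_mul]
  exact mul_lt_one_of_nonneg_of_lt_one_right (V_le.1 hx) zero_le (V_lt.1 hy)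

theorem int_mem (n : ℤ) : (n : ℂ) ∈ V := intCast_mem V.toSubring n

/-- an integer prime to `3` is a unit of `V` when `3` is a nonunit. -/
theorem inv_mem_of_coprime (h3 : (3 : ℂ) ∈ V.nonunits) {n : ℤ} (hn : IsCoprime n 3) :
    ((n : ℂ))⁻¹ ∈ V := by
  have hnn : (n : ℂ) ∉ V.nonunits := by
    intro h
    obtain ⟨a, b, hab⟩ := hn
    have h1 : (a : ℂ) * n + b * 3 = 1 := by exact_mod_cast congrArg (fun z : ℤ => (z : ℂ)) hab
    have h2 := V.nonunits.add_mem (nonunit_mul (int_mem a) h) (nonunit_mul (int_mem b) h3)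
    rw [h1] at h2
    exact one_notMem h2
  rw [ValuationSubring.mem_nonunits_iff_or] at hnn
  push Not at hnn
  exact hnn.2

end Basic

section Unif

variable {V : ValuationSubring ℂ} {K : Type*} [Field K] [NumberField K] (io : K →+* ℂ)

/-- the nonzero elements of a number field are powers of one element times units of `V`. -/
theorem exists_unif (h3 : (3 : ℂ) ∈ V.nonunits) :
    ∃ ρ : K, ρ ≠ 0 ∧ io ρ ∈ V.nonunits ∧
      ∀ y : K, y ≠ 0 → ∃ (e : ℤ) (u : K), y = ρ ^ e * u ∧ io u ∈ V ∧ (io u)⁻¹ ∈ V := by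
  have hint : ∀ x : 𝓞 K, io x ∈ V := fun x =>
    mem_of_integral ((RingOfIntegers.isIntegral_coe x).map io.toIntAlgHom)
  set f : 𝓞 K →+* V := (io.comp (algebraMap (𝓞 K) K)).codRestrict V.toSubring hint with hf
  set P : Ideal (𝓞 K) := (IsLocalRing.maximalIdeal V).comap f with hP
  have hmem : ∀ x : 𝓞 K, x ∈ P ↔ io x ∈ V.nonunits := by
    intro x
    rw [hP, Ideal.mem_comap, ← ValuationSubring.coe_mem_nonunits_iff]
    rfl
  have hPp : P.IsPrime := Ideal.comap_isPrime f _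
  have h3P : (3 : 𝓞 K) ∈ P := by
    rw [hmem]
    have : io ((3 : 𝓞 K) : K) = 3 := by
      rw [show ((3 : 𝓞 K) : K) = 3 from map_ofNat _ 3, map_ofNat]
    rw [this]
    exact h3
  have hPb : P ≠ ⊥ := by
    intro h
    rw [h, Ideal.mem_bot] at h3P
    have h3K := congrArg (algebraMap (𝓞 K) K) h3P
    rw [map_ofNat, map_zero] at h3K
    exact (by norm_num : (3 : K) ≠ 0) h3K
  have hPm : P.IsMaximal := hPp.isMaximal hPb
  have hlt : P ^ 2 < P := by
    have := Ideal.pow_right_strictAnti P hPb hPp.ne_top (show 1 < 2 by norm_num)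
    simpa using this
  obtain ⟨ρ, hρP, hρ2⟩ := SetLike.exists_of_lt hlt
  have hρ0 : ρ ≠ 0 := fun h => hρ2 (by rw [h]; exact zero_mem _)
  obtain ⟨J, hJ⟩ : P ∣ Ideal.span {ρ} := by
    rw [Ideal.dvd_iff_le, Ideal.span_singleton_le_iff_mem]
    exact hρP
  have hJP : ¬ J ≤ P := by
    intro h
    apply hρ2
    have h1 : Ideal.span {ρ} ≤ P ^ 2 := by
      rw [hJ, pow_two]
      exact Ideal.mul_mono_right h
    exact h1 (Ideal.mem_span_singleton_self ρ)
  obtain ⟨z, hzJ, hzP⟩ := SetLike.not_le_iff_exists.1 hJP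
  have hdiv : ∀ x ∈ P, ∃ w, x * z = ρ * w := by
    intro x hx
    have h1 : x * z ∈ Ideal.span {ρ} := by
      rw [hJ]
      exact Ideal.mul_mem_mul hx hzJ
    obtain ⟨w, hw⟩ := Ideal.mem_span_singleton.1 h1
    exact ⟨w, hw⟩
  have key : ∀ m : ℕ, ∀ a : 𝓞 K, a ∉ P ^ (m + 1) → ∃ (k : ℕ) (a' : 𝓞 K), a' ∉ P ∧
      a * z ^ k = ρ ^ k * a' := by
    intro m
    induction m with
    | zero =>
      intro a ha
      exact ⟨0, a, by simpa using ha, by simp⟩
    | succ m ih =>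
      intro a ha
      by_cases haP : a ∈ P
      · obtain ⟨w, hw⟩ := hdiv a haP
        have hw' : w ∉ P ^ (m + 1) := by
          intro h
          apply ha
          have h1 : z * a ∈ P ^ (m + 1 + 1) := by
            rw [mul_comm, hw, pow_succ' P]
            exact Ideal.mul_mem_mul hρP h
          exact (Ideal.IsMaximal.mul_mem_pow P h1).resolve_left hzP
        obtain ⟨k, a', ha', hk⟩ := ih w hw'
        refine ⟨k + 1, a', ha', ?_⟩
        rw [pow_succ' z, ← mul_assoc, hw, pow_succ' ρ, mul_assoc, hk, mul_assoc]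
      · exact ⟨0, a, haP, by simp⟩
  have key2 : ∀ a : 𝓞 K, a ≠ 0 → ∃ (k : ℕ) (a' : 𝓞 K), a' ∉ P ∧ a * z ^ k = ρ ^ k * a' := by
    intro a ha
    by_contra hcon
    have h1 : ∀ m, a ∈ P ^ m := by
      intro m
      rcases m with _ | m
      · simp
      · by_contra h
        exact hcon (key m a h)
    have h2 : a ∈ ⨅ i, P ^ i := by
      rw [Ideal.mem_iInf]
      exact h1
    rw [Ideal.iInf_pow_eq_bot_of_isDomain P hPp.ne_top, Ideal.mem_bot] at h2
    exact ha h2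
  have hunit : ∀ a : 𝓞 K, a ∉ P → (a : K) ≠ 0 ∧ io a ∈ V ∧ (io a)⁻¹ ∈ V := by
    intro a ha
    rw [hmem, ValuationSubring.mem_nonunits_iff_or] at ha
    push Not at ha
    exact ⟨fun h => ha.1 (by rw [h, map_zero]), hint a, ha.2⟩
  refine ⟨(ρ : K), fun h => hρ0 (by exact_mod_cast h), (hmem ρ).1 hρP, ?_⟩
  intro y hy
  obtain ⟨a, b, hb, hab⟩ := IsFractionRing.div_surjective (A := 𝓞 K) y
  have hb0 : b ≠ 0 := nonZeroDivisors.ne_zero hb
  have ha0 : a ≠ 0 := by
    rintro rfl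
    rw [map_zero, zero_div] at hab
    exact hy hab.symm
  obtain ⟨k, a', ha', hk⟩ := key2 a ha0
  obtain ⟨n, b', hb', hn⟩ := key2 b hb0
  obtain ⟨hz0, hz1, hz2⟩ := hunit z hzP
  obtain ⟨ha'0, ha'1, ha'2⟩ := hunit a' ha'
  obtain ⟨hb'0, hb'1, hb'2⟩ := hunit b' hb'
  have hρK : (ρ : K) ≠ 0 := fun h => hρ0 (by exact_mod_cast h)
  have hk' : (a : K) * (z : K) ^ k = (ρ : K) ^ k * (a' : K) := by exact_mod_cast hk
  have hn' : (b : K) * (z : K) ^ n = (ρ : K) ^ n * (b' : K) := by exact_mod_cast hn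
  have hbK : (b : K) ≠ 0 := fun h => hb0 (by exact_mod_cast h)
  refine ⟨(k : ℤ) - n, (z : K) ^ n * ((z : K) ^ k)⁻¹ * (a' : K) * (b' : K)⁻¹, ?_, ?_, ?_⟩
  · rw [← hab, zpow_sub₀ hρK, zpow_natCast, zpow_natCast]
    have e1 : (algebraMap (𝓞 K) K a) = (a : K) := rfl
    have e2 : (algebraMap (𝓞 K) K b) = (b : K) := rfl
    rw [e1, e2]
    have hzk : (z : K) ^ k ≠ 0 := pow_ne_zero _ hz0
    have hρn : (ρ : K) ^ n ≠ 0 := pow_ne_zero _ hρK
    rw [div_eq_iff hbK]
    field_simp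
    linear_combination ((ρ : K) ^ n * (b' : K)) * hk' - ((ρ : K) ^ k * (a' : K)) * hn'
  · simp only [map_mul, map_inv₀, map_pow]
    exact V.mul_mem _ _ (V.mul_mem _ _ (V.mul_mem _ _ (V.toSubring.pow_mem hz1 n)
      (by rw [← inv_pow]; exact V.toSubring.pow_mem hz2 k)) ha'1) hb'2
  · simp only [map_mul, map_inv₀, map_pow, mul_inv, inv_inv]
    exact V.mul_mem _ _ (V.mul_mem _ _ (V.mul_mem _ _
      (by rw [← inv_pow]; exact V.toSubring.pow_mem hz2 n) (V.toSubring.pow_mem hz1 k)) ha'2) hb'1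

end Unif

end Pool.Agent.MU3A2
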