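import Pool.Agent.MU3.StA2

/-!
# MU3, block A: module ACT (formal properties of `Act`)
-/

set_option autoImplicit false

namespace Pool.Agent.MU3A

open MU3 Pool.Agent.MU3B Polynomial NumberField

noncomputable section

variable {A B : ℤ} {L : PeriodPair} {Om : ℂ}

lemma xF_of {m : OO A B} {F : IntermediateField (kk A B) ℂ} (hF : TF L m ≤ F) {z : ℂ}
    (h1 : emb m * z ∈ L.lattice) (h2 : z ∉ L.lattice) : xx A B L z ∈ F :=
  hF (IntermediateField.subset_adjoin _ _ ⟨z, h1, h2, Or.inl rfl⟩)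

lemma yF_of {m : OO A B} {F : IntermediateField (kk A B) ℂ} (hF : TF L m ≤ F) {z : ℂ}
    (h1 : emb m * z ∈ L.lattice) (h2 : z ∉ L.lattice) : yy L z ∈ F :=
  hF (IntermediateField.subset_adjoin _ _ ⟨z, h1, h2, Or.inr rfl⟩)

/-- (4) composition -/
lemma act_mul (h : Case A B) (hL : IsCM A B L Om) {m : OO A B}
    (F : IntermediateField (kk A B) ℂ) (σ τ : F ≃ₐ[kk A B] F) (a b : OO A B) (hF : TF L m ≤ F)
    (ha : Act L (em σ) m a) (hb : Act L (em τ) m b) : Act L (em (σ * τ)) m (a * b) := by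
  refine ⟨ha.1.mul_left hb.1, fun z hz hzL => ?_⟩
  obtain ⟨b1, b2, b3⟩ := hb.2 z hz hzL
  have hbz : emb m * (emb b * z) ∈ L.lattice := by
    rw [mul_left_comm]; exact hL.emb_mul_mem h b hz
  obtain ⟨a1, a2, a3⟩ := ha.2 _ hbz b1
  have e : emb (a * b) * z = emb a * (emb b * z) := by rw [emb_mul h]; ring
  rw [e]
  refine ⟨a1, fun hx => ?_, fun hy => ?_⟩
  · have e1 : (em (σ * τ)) ⟨xx A B L z, hx⟩ = em σ (τ ⟨xx A B L z, hx⟩) := rfl
    have e2 : τ ⟨xx A B L z, hx⟩ = ⟨xx A B L (emb b * z), xF_of hF hbz b1⟩ :=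
      Subtype.ext (b2 hx)
    rw [e1, e2, a2]
  · have e1 : (em (σ * τ)) ⟨yy L z, hy⟩ = em σ (τ ⟨yy L z, hy⟩) := rfl
    have e2 : τ ⟨yy L z, hy⟩ = ⟨yy L (emb b * z), yF_of hF hbz b1⟩ :=
      Subtype.ext (b3 hy)
    rw [e1, e2, a3]

/-- (5) uniqueness of `σ` -/
lemma act_ext {m : OO A B} {σ τ : TF L m →ₐ[kk A B] ℂ} {a : OO A B}
    (hσ : Act L σ m a) (hτ : Act L τ m a) : σ = τ := by
  refine AlgHom.ext fun x => ?_
  obtain ⟨x, hx⟩ := x
  refine IntermediateField.adjoin_induction (F := kk A B)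
    (p := fun x hx => σ ⟨x, hx⟩ = τ ⟨x, hx⟩) ?_ ?_ ?_ ?_ ?_ hx
  · rintro x ⟨z, hz, hzL, rfl | rfl⟩
    · rw [(hσ.2 z hz hzL).2.1, (hτ.2 z hz hzL).2.1]
    · rw [(hσ.2 z hz hzL).2.2, (hτ.2 z hz hzL).2.2]
  · intro r
    exact (σ.commutes r).trans (τ.commutes r).symm
  · intro x y hx hy h1 h2
    have e : (⟨x + y, add_mem hx hy⟩ : TF L m) = ⟨x, hx⟩ + ⟨y, hy⟩ := rfl
    rw [e, map_add, map_add, h1, h2]
  · intro x hx h1
    have e : (⟨x⁻¹, inv_mem hx⟩ : TF L m) = (⟨x, hx⟩)⁻¹ := rfl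
    rw [e, map_inv₀, map_inv₀, h1]
  · intro x y hx hy h1 h2
    have e : (⟨x * y, mul_mem hx hy⟩ : TF L m) = ⟨x, hx⟩ * ⟨y, hy⟩ := rfl
    rw [e, map_mul, map_mul, h1, h2]

theorem ta_ACT (hE : Sa_EQN) (hG : Sa_GAL) : Sa_ACT := by
  intro A B L Om h hL m hm
  obtain ⟨q1, q2, q3, q4, q5, q6, q7, q8, q9⟩ := hE A B L Om h hL
  have act1 : ∀ (F : IntermediateField (kk A B) ℂ) (σ : F →ₐ[kk A B] ℂ) (a b : OO A B),
      TF L m ≤ F → Act L σ m a → Act L σ m b → m ∣ a - b := by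
    intro F σ a b hF ha hb
    by_cases hz : Om / emb m ∈ L.lattice
    · have h1 : m ∣ 1 := (hL.mul_div_mem_iff h hm 1).1 (by rw [emb_one h, one_mul]; exact hz)
      exact h1.trans (one_dvd _)
    · have hz' : emb m * (Om / emb m) ∈ L.lattice :=
        (hL.torsion_iff h hm _).2 ⟨1, by rw [emb_one h]; ring⟩
      obtain ⟨a1, a2, a3⟩ := ha.2 _ hz' hz
      obtain ⟨b1, b2, b3⟩ := hb.2 _ hz' hz
      have e1 := (a2 (xF_of hF hz' hz)).symm.trans (b2 (xF_of hF hz' hz))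
      have e2 := (a3 (yF_of hF hz' hz)).symm.trans (b3 (yF_of hF hz' hz))
      have := q6 _ _ a1 b1 e1 e2
      rw [← sub_mul, ← emb_sub h, hL.mul_div_mem_iff h hm] at this
      exact this
  refine ⟨act1, ?_, ?_, fun F σ τ a b => act_mul h hL F σ τ a b, fun σ τ a => act_ext, ?_, ?_, ?_⟩
  · intro F σ a b hab ha
    have e : b = a - m * (Classical.choose hab) := by
      have := Classical.choose_spec hab
      rw [← this]; ring
    refine ⟨?_, fun z hz hzL => ?_⟩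
    · rw [e, sub_eq_add_neg, ← mul_neg]
      exact ha.1.add_mul_left_left _
    · obtain ⟨a1, a2, a3⟩ := ha.2 z hz hzL
      obtain ⟨c, hc⟩ := hab
      have hmem : -(emb c * (emb m * z)) ∈ L.lattice := neg_mem (hL.emb_mul_mem h c hz)
      have e2 : emb b * z = emb a * z + -(emb c * (emb m * z)) := by
        have := congrArg emb hc
        rw [emb_sub h, emb_mul h] at this
        linear_combination -z * this
      rw [e2, (q4 _ _ hmem).1, (q4 _ _ hmem).2]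
      refine ⟨fun hc' => a1 ?_, a2, a3⟩
      have := sub_mem hc' hmem
      simpa using this
  · intro F σ a m' hmm ha
    obtain ⟨c, rfl⟩ := hmm
    refine ⟨ha.1.of_mul_right_left, fun z hz hzL => ha.2 z ?_ hzL⟩
    rw [emb_mul h, mul_comm (emb m'), mul_assoc]
    exact hL.emb_mul_mem h c hz
  · intro σ τ
    obtain ⟨a, ha⟩ := hG A B L Om h hL m hm (TF L m) le_rfl (em σ)
    obtain ⟨b, hb⟩ := hG A B L Om h hL m hm (TF L m) le_rfl (em τ)
    have h1 := act_mul h hL (TF L m) σ τ a b le_rfl ha hb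
    have h2 := act_mul h hL (TF L m) τ σ b a le_rfl hb ha
    rw [mul_comm b a] at h2
    have h3 := act_ext h1 h2
    refine AlgEquiv.ext fun x => Subtype.ext ?_
    exact DFunLike.congr_fun h3 x
  · intro F hF
    refine ⟨isCoprime_one_left, fun z hz hzL => ?_⟩
    rw [emb_one h, one_mul]
    exact ⟨hzL, fun hx => rfl, fun hy => rfl⟩
  · intro F F' hFF σ a ha
    refine ⟨ha.1, fun z hz hzL => ?_⟩
    obtain ⟨a1, a2, a3⟩ := ha.2 z hz hzL
    exact ⟨a1, fun hx => a2 (hFF hx), fun hy => a3 (hFF hy)⟩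

end

end Pool.Agent.MU3A
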