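import Pool.Agent.MU3.StA2

/-!
# MU3, block A: coordinates of torsion points are algebraic over `k` (ALG)

`x(2^i z) H_i(x z) = G_i(x z)` with polynomials `G_i`, `H_i` over `k` (duplication formula). If some
`2^i z` is in `L`, then `x z` is a root of a polynomial of this kind; otherwise `(2^j - 2^i) z ∈ L` for some `i < j`
and `x z` is a root of `G_j H_i - G_i H_j`. These polynomials are not zero: they do not vanish at `x (√2 Om)`.
-/

set_option autoImplicit false

namespace Pool.Agent.MU3A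

open MU3 Pool.Agent.MU3B Polynomial NumberField

noncomputable section

namespace Alg

variable {A B : ℤ} {L : PeriodPair} {Om : ℂ}

theorem two_notMem {z : ℂ} (hz : 2 * z ∉ L.lattice) : z ∉ L.lattice := by
  intro h
  apply hz
  rw [two_mul]
  exact add_mem h h

/-- duplication, without denominators -/
theorem dup (h1 : Sa_EQN) (h2 : Sa_LAW) (hc : Case A B) (hL : IsCM A B L Om) {z : ℂ}
    (hz : 2 * z ∉ L.lattice) :
    xx A B L z ^ 3 + emb (a2 A B) * xx A B L z ^ 2 + emb (a4 A B) * xx A B L z +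
      emb (a6 A B) / 4 ≠ 0 ∧
    xx A B L (2 * z) * (4 * (xx A B L z ^ 3 + emb (a2 A B) * xx A B L z ^ 2 +
      emb (a4 A B) * xx A B L z + emb (a6 A B) / 4)) =
      xx A B L z ^ 4 - 2 * emb (a4 A B) * xx A B L z ^ 2 - 8 * (emb (a6 A B) / 4) * xx A B L z +
        (emb (a4 A B) ^ 2 - 4 * emb (a2 A B) * (emb (a6 A B) / 4)) := by
  have hz' := two_notMem hz
  obtain ⟨e1, -, -, -, -, -, e7, -⟩ := h1 A B L Om hc hL
  obtain ⟨-, l2⟩ := h2 A B L Om hc hL
  have hy : yy L z ≠ 0 := fun h0 => hz ((e7 z hz').1 h0)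
  have hq := e1 z hz'
  have hx := (l2 z hz).1
  have hf : xx A B L z ^ 3 + emb (a2 A B) * xx A B L z ^ 2 + emb (a4 A B) * xx A B L z +
      emb (a6 A B) / 4 ≠ 0 := by
    rw [← hq]; exact pow_ne_zero 2 hy
  refine ⟨hf, ?_⟩
  rw [hx, ← hq]
  have h3 : ((3 * xx A B L z ^ 2 + 2 * emb (a2 A B) * xx A B L z + emb (a4 A B)) /
        (2 * yy L z)) ^ 2 * (4 * yy L z ^ 2) =
      (3 * xx A B L z ^ 2 + 2 * emb (a2 A B) * xx A B L z + emb (a4 A B)) ^ 2 := by
    field_simp
    ring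
  linear_combination h3 - 4 * (emb (a2 A B) + 2 * xx A B L z) * hq

/-- the recursion -/
theorem rec (h1 : Sa_EQN) (h2 : Sa_LAW) (hc : Case A B) (hL : IsCM A B L Om) (i : ℕ) :
    ∃ G H : (kk A B)[X], ∀ z : ℂ, (∀ j ≤ i, 2 ^ j * z ∉ L.lattice) →
      aeval (xx A B L z) H ≠ 0 ∧
      xx A B L (2 ^ i * z) * aeval (xx A B L z) H = aeval (xx A B L z) G := by
  induction i with
  | zero =>
    refine ⟨X, 1, fun z _ => ⟨?_, ?_⟩⟩
    · simp
    · simp
  | succ i ih =>
    obtain ⟨G, H, hGH⟩ := ih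
    refine ⟨G ^ 4 - C (2 * ek (a4 A B)) * G ^ 2 * H ^ 2 - C (8 * (ek (a6 A B) / 4)) * G * H ^ 3 +
        C (ek (a4 A B) ^ 2 - 4 * ek (a2 A B) * (ek (a6 A B) / 4)) * H ^ 4,
      4 * H * (G ^ 3 + C (ek (a2 A B)) * G ^ 2 * H + C (ek (a4 A B)) * G * H ^ 2 +
        C (ek (a6 A B) / 4) * H ^ 3), fun z hz => ?_⟩
    obtain ⟨h3, h4⟩ := hGH z fun j hj => hz j (Nat.le_succ_of_le hj)
    have h5 : 2 * (2 ^ i * z) ∉ L.lattice := by
      have h6 := hz (i + 1) le_rfl
      rwa [pow_succ, mul_comm ((2 : ℂ) ^ i) 2, mul_assoc] at h6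
    obtain ⟨h7, h8⟩ := dup h1 h2 hc hL h5
    have e2 : algebraMap (kk A B) ℂ (ek (a2 A B)) = emb (a2 A B) := rfl
    have e4 : algebraMap (kk A B) ℂ (ek (a4 A B)) = emb (a4 A B) := rfl
    have e6 : algebraMap (kk A B) ℂ (ek (a6 A B)) = emb (a6 A B) := rfl
    have h9 : (2 : ℂ) ^ (i + 1) * z = 2 * (2 ^ i * z) := by ring
    rw [h9]
    set u := xx A B L (2 ^ i * z) with hu
    set g := aeval (xx A B L z) G with hg
    set w := aeval (xx A B L z) H with hw
    simp only [map_add, map_sub, map_mul, map_pow, aeval_C, map_div₀, map_ofNat, e2, e4, e6,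
      ← hg, ← hw]
    rw [← h4]
    constructor
    · have h10 : 4 * w * ((u * w) ^ 3 + emb (a2 A B) * (u * w) ^ 2 * w +
          emb (a4 A B) * (u * w) * w ^ 2 + emb (a6 A B) / 4 * w ^ 3) =
          4 * w ^ 4 * (u ^ 3 + emb (a2 A B) * u ^ 2 + emb (a4 A B) * u + emb (a6 A B) / 4) := by
        ring
      rw [h10]
      exact mul_ne_zero (mul_ne_zero (by norm_num : (4 : ℂ) ≠ 0) (pow_ne_zero 4 h3)) h7
    · linear_combination w ^ 4 * h8

/-- a point of infinite order -/
theorem inf (hc : Case A B) (hL : IsCM A B L Om) (n : ℤ) (hn : n ≠ 0) :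
    (n : ℂ) * (Om * (Real.sqrt 2 : ℝ)) ∉ L.lattice := by
  intro h
  obtain ⟨x, hx⟩ := (hL.mem _).1 h
  have h0 := hL.Om_ne
  have h1 : ((n : ℝ) * Real.sqrt 2 : ℝ) = emb x := by
    have h2 : Om * (((n : ℝ) * Real.sqrt 2 : ℝ) : ℂ) = Om * emb x := by
      rw [← hx]; push_cast; ring
    exact mul_left_cancel₀ h0 h2
  have h3 := congrArg Complex.im h1
  rw [Complex.ofReal_im] at h3
  have h4 : (x.im : ℝ) = 0 := by
    simp only [emb, Complex.add_im, Complex.mul_im, Complex.intCast_im, Complex.intCast_re,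
      zero_mul, add_zero, zero_add] at h3
    rcases mul_eq_zero.1 h3.symm with h5 | h5
    · exact h5
    · exact absurd h5 (wC_im_pos hc).ne'
  have h5 : x.im = 0 := by exact_mod_cast h4
  have h6 : ((n : ℝ) * Real.sqrt 2 : ℝ) = x.re := by
    have h7 := congrArg Complex.re h1
    rw [Complex.ofReal_re] at h7
    rw [h7]
    simp [emb, h5]
  have h8 : Irrational (Real.sqrt 2) := irrational_sqrt_two
  apply h8
  refine ⟨(x.re : ℚ) / n, ?_⟩
  have h9 : (n : ℝ) ≠ 0 := by exact_mod_cast hn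
  push_cast
  rw [← h6]
  field_simp

theorem inf_pow (hc : Case A B) (hL : IsCM A B L Om) (i : ℕ) :
    (2 : ℂ) ^ i * (Om * (Real.sqrt 2 : ℝ)) ∉ L.lattice := by
  have h := inf hc hL (2 ^ i) (pow_ne_zero i two_ne_zero)
  push_cast at h
  exact h

theorem algx (h1 : Sa_EQN) (h2 : Sa_LAW) (hc : Case A B) (hL : IsCM A B L Om) {N : ℕ}
    (hN : N ≠ 0) {z : ℂ} (hz : z ∉ L.lattice) (hNz : (N : ℂ) * z ∈ L.lattice) :
    IsAlgebraic (kk A B) (xx A B L z) := by
  classical
  obtain ⟨e1, -, -, e4, e5, -, e7, -⟩ := h1 A B L Om hc hL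
  set z' : ℂ := Om * (Real.sqrt 2 : ℝ) with hz'
  by_cases hex : ∃ i : ℕ, (2 : ℂ) ^ i * z ∈ L.lattice
  · have hf := Nat.find_spec hex
    have hmin := fun j (hj : j < Nat.find hex) => Nat.find_min hex hj
    set i := Nat.find hex with hi
    have hi0 : i ≠ 0 := by
      intro h0
      rw [h0, pow_zero, one_mul] at hf
      exact hz hf
    obtain ⟨k, hk⟩ := Nat.exists_eq_succ_of_ne_zero hi0
    obtain ⟨G, H, hGH⟩ := rec h1 h2 hc hL k
    have ha := hGH z fun j hj => hmin j (by omega)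
    have hb := hGH z' fun j _ => inf_pow hc hL j
    have ea2 : algebraMap (kk A B) ℂ (ek (a2 A B)) = emb (a2 A B) := rfl
    have ea4 : algebraMap (kk A B) ℂ (ek (a4 A B)) = emb (a4 A B) := rfl
    have ea6 : algebraMap (kk A B) ℂ (ek (a6 A B)) = emb (a6 A B) := rfl
    have hval : ∀ t : ℂ, xx A B L (2 ^ k * t) * aeval (xx A B L t) H = aeval (xx A B L t) G →
        aeval (xx A B L t) (G ^ 3 + C (ek (a2 A B)) * G ^ 2 * H + C (ek (a4 A B)) * G * H ^ 2 +
          C (ek (a6 A B) / 4) * H ^ 3) = (aeval (xx A B L t) H) ^ 3 *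
        (xx A B L (2 ^ k * t) ^ 3 + emb (a2 A B) * xx A B L (2 ^ k * t) ^ 2 +
          emb (a4 A B) * xx A B L (2 ^ k * t) + emb (a6 A B) / 4) := by
      intro t ht
      simp only [map_add, map_mul, map_pow, aeval_C, map_div₀, map_ofNat, ea2, ea4, ea6]
      rw [← ht]
      ring
    refine ⟨G ^ 3 + C (ek (a2 A B)) * G ^ 2 * H + C (ek (a4 A B)) * G * H ^ 2 +
          C (ek (a6 A B) / 4) * H ^ 3, ?_, ?_⟩
    · intro h0
      have h3 := hval z' hb.2
      rw [h0, map_zero] at h3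
      have h4 : 2 * (2 ^ k * z') ∉ L.lattice := by
        have h6 := inf_pow hc hL (A := A) (B := B) (L := L) (Om := Om) (k + 1)
        rwa [pow_succ, mul_comm ((2 : ℂ) ^ k) 2, mul_assoc] at h6
      exact mul_ne_zero (pow_ne_zero 3 hb.1) (dup h1 h2 hc hL h4).1 h3.symm
    · have h3 := hval z ha.2
      have h4 : (2 : ℂ) ^ k * z ∉ L.lattice := hmin k (by omega)
      have h5 : 2 * (2 ^ k * z) ∈ L.lattice := by
        rw [hk, Nat.succ_eq_add_one, pow_succ, mul_comm ((2 : ℂ) ^ k) 2, mul_assoc] at hf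
        exact hf
      have h6 : yy L (2 ^ k * z) = 0 := (e7 _ h4).2 h5
      have h7 := e1 _ h4
      rw [h6] at h7
      rw [h3, ← h7]
      ring
  · have hno : ∀ i : ℕ, (2 : ℂ) ^ i * z ∉ L.lattice := fun i hi => hex ⟨i, hi⟩
    have : NeZero N := ⟨hN⟩
    obtain ⟨i, j, hij, hF⟩ := Finite.exists_ne_map_eq_of_infinite
      (fun i : ℕ => ((2 : ZMod N)) ^ i)
    have hgen : ∀ i j : ℕ, i < j → (2 : ZMod N) ^ i = (2 : ZMod N) ^ j →
        IsAlgebraic (kk A B) (xx A B L z) := by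
      intro i j hij hF
      have h3 : (N : ℤ) ∣ 2 ^ j - 2 ^ i := by
        rw [← ZMod.intCast_eq_intCast_iff_dvd_sub]
        push_cast
        exact hF
      obtain ⟨q, hq⟩ := h3
      have h4 : (2 : ℂ) ^ j * z = 2 ^ i * z + q * (N * z) := by
        have h5 : ((2 : ℂ) ^ j - 2 ^ i) = N * q := by exact_mod_cast hq
        linear_combination z * h5
      have h6 : (q : ℂ) * (N * z) ∈ L.lattice := by
        rw [← zsmul_eq_mul]
        exact zsmul_mem hNz q
      have h7 : xx A B L (2 ^ j * z) = xx A B L (2 ^ i * z) := by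
        rw [h4]; exact (e4 _ _ h6).1
      obtain ⟨G, H, hGH⟩ := rec h1 h2 hc hL i
      obtain ⟨G', H', hGH'⟩ := rec h1 h2 hc hL j
      have ha := hGH z fun j _ => hno j
      have ha' := hGH' z fun j _ => hno j
      have hb := hGH z' fun j _ => inf_pow hc hL j
      have hb' := hGH' z' fun j _ => inf_pow hc hL j
      refine ⟨G' * H - G * H', ?_, ?_⟩
      · intro h0
        have h8 : aeval (xx A B L z') (G' * H - G * H') = 0 := by rw [h0, map_zero]
        rw [map_sub, map_mul, map_mul, ← hb.2, ← hb'.2] at h8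
        have h9 : (xx A B L (2 ^ j * z') - xx A B L (2 ^ i * z')) *
            (aeval (xx A B L z') H * aeval (xx A B L z') H') = 0 := by
          linear_combination h8
        rcases mul_eq_zero.1 h9 with h10 | h10
        · have hlt : (2 : ℤ) ^ i < 2 ^ j := pow_lt_pow_right₀ (by norm_num) hij
          have hpos : (0 : ℤ) < 2 ^ i := by positivity
          rcases e5 _ _ (inf_pow hc hL j) (inf_pow hc hL i) (sub_eq_zero.1 h10) with h11 | h11
          · refine inf hc hL (2 ^ j - 2 ^ i) (by omega) ?_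
            push_cast
            have h12 : ((2 : ℂ) ^ j - 2 ^ i) * z' = 2 ^ j * z' - 2 ^ i * z' := by ring
            rw [← hz', h12]
            exact h11
          · refine inf hc hL (2 ^ j + 2 ^ i) (by omega) ?_
            push_cast
            have h12 : ((2 : ℂ) ^ j + 2 ^ i) * z' = 2 ^ j * z' + 2 ^ i * z' := by ring
            rw [← hz', h12]
            exact h11
        · exact mul_ne_zero hb.1 hb'.1 h10
      · rw [map_sub, map_mul, map_mul, ← ha.2, ← ha'.2, h7]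
        ring
    rcases Nat.lt_or_gt_of_ne hij with h3 | h3
    · exact hgen i j h3 hF
    · exact hgen j i h3 hF.symm

theorem mul_star' (x : OO A B) : x * star x = ((nm x : ℤ) : OO A B) := by
  ext
  · simp only [nm, QuadraticAlgebra.re_mul, QuadraticAlgebra.re_star, QuadraticAlgebra.im_star,
      QuadraticAlgebra.re_intCast, Int.cast_id]
    ring
  · simp only [QuadraticAlgebra.im_mul, QuadraticAlgebra.re_star, QuadraticAlgebra.im_star,
      QuadraticAlgebra.im_intCast]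
    ring

end Alg

open Alg in
/-- (ALG) -/
theorem ta_ALG (h1 : Sa_EQN) (h2 : Sa_LAW) : Sa_ALG := by
  intro A B L Om hc hL m hm z hmz hz
  have hn0 : nm m ≠ 0 := by
    intro h0
    have h3 := congrArg emb (mul_star' m)
    rw [h0, Int.cast_zero, emb_zero hc, emb_mul hc] at h3
    have h4 : (star m : OO A B) ≠ 0 := star_ne_zero.2 hm
    exact mul_ne_zero (emb_ne_zero hc hm) (emb_ne_zero hc h4) h3
  have hN : ((nm m).natAbs : ℂ) * z ∈ L.lattice := by
    have h3 : ((nm m : ℤ) : ℂ) * z ∈ L.lattice := by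
      rw [← emb_intCast hc, ← mul_star', emb_mul hc, mul_comm (emb m), mul_assoc]
      exact hL.emb_mul_mem hc (star m) hmz
    rcases Int.natAbs_eq (nm m) with h4 | h4
    · rw [h4, Int.cast_natCast] at h3
      exact h3
    · rw [h4, Int.cast_neg, Int.cast_natCast, neg_mul] at h3
      exact neg_mem_iff.1 h3
  have hx := algx h1 h2 hc hL (Int.natAbs_ne_zero.2 hn0) hz hN
  refine ⟨hx, ?_⟩
  have hq := (h1 A B L Om hc hL).1 z hz
  have halg : ∀ a : OO A B, IsAlgebraic (kk A B) (emb a) := fun a =>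
    isAlgebraic_algebraMap (ek a)
  have h4 : IsAlgebraic (kk A B) (4 : ℂ)⁻¹ := by
    have := isAlgebraic_algebraMap (A := ℂ) ((4 : kk A B)⁻¹)
    rwa [map_inv₀, map_ofNat] at this
  apply IsAlgebraic.of_pow (n := 2) (by norm_num)
  rw [hq, div_eq_mul_inv]
  exact (((hx.pow 3).add ((halg _).mul (hx.pow 2))).add ((halg _).mul hx)).add ((halg _).mul h4)

end

end Pool.Agent.MU3A
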