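import Pool.Agent.MU3.StA2
import Pool.Agent.MU3.G_G0

/-!
# MU3, block A: (CYC)
-/

set_option autoImplicit false

namespace Pool.Agent.MU3A

open MU3 Pool.Agent.MU3B Polynomial NumberField Pool.Agent.MU3G

namespace CYC

variable {A B : ℤ}

theorem nm_cong (M : ℕ) {a b : OO A B} (h : (M : OO A B) ∣ a - b) :
    (M : ℤ) ∣ nm a - nm b := by
  obtain ⟨c, hc⟩ := h
  have h1 : a = b + (M : OO A B) * c := by linear_combination hc
  have hre : a.re = b.re + M * c.re := by
    rw [h1]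
    simp
  have him : a.im = b.im + M * c.im := by
    rw [h1]
    simp
  refine ⟨2 * b.re * c.re + M * c.re ^ 2 + B * (b.re * c.im + b.im * c.re + M * c.re * c.im) -
    A * (2 * b.im * c.im + M * c.im ^ 2), ?_⟩
  unfold nm
  rw [hre, him]
  ring

theorem pow_cong (hc : Case A B) {M : ℕ} {a b : OO A B} (h : (M : OO A B) ∣ a - b)
    {G : Type} [Monoid G] [IsLeftCancelMul G] {z : G} (hz : z ^ M = 1) :
    z ^ (nm a).toNat = z ^ (nm b).toNat := by
  apply pow_eq_pow_of_modEq (n := M) _ hz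
  have h1 := nm_cong M h
  have h2 := Int.toNat_of_nonneg (G0.nm_nonneg hc a)
  have h3 := Int.toNat_of_nonneg (G0.nm_nonneg hc b)
  rw [← Int.natCast_modEq_iff, h2, h3]
  exact (Int.modEq_iff_dvd.2 h1).symm

theorem cpow_cong (hc : Case A B) {M : ℕ} {a b : OO A B} (h : (M : OO A B) ∣ a - b)
    {z : ℂ} (hz : z ^ M = 1) : z ^ (nm a).toNat = z ^ (nm b).toNat := by
  rcases Nat.eq_zero_or_pos M with h0 | h0
  · have h1 : a = b := by
      rw [h0] at h
      simpa [sub_eq_zero] using h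
    rw [h1]
  · have hu : IsUnit z := by
      rw [isUnit_iff_ne_zero]
      rintro rfl
      rw [zero_pow h0.ne'] at hz
      exact zero_ne_one hz
    obtain ⟨u, rfl⟩ := hu
    have h2 : u ^ M = 1 := by
      ext
      push_cast
      exact hz
    have h3 := pow_cong hc h h2
    have h4 := congrArg (fun u : ℂˣ => (u : ℂ)) h3
    simpa using h4

theorem toNat_mul (hc : Case A B) (a b : OO A B) :
    (nm (a * b)).toNat = (nm a).toNat * (nm b).toNat := by
  rw [G0.nm_mul, Int.toNat_mul (G0.nm_nonneg hc a) (G0.nm_nonneg hc b)]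

theorem nm_one : nm (1 : OO A B) = 1 := by
  unfold nm
  rw [G0.one_re, G0.one_im]
  ring

theorem emb_quad (h : Case A B) (x : OO A B) :
    emb x * ((2 * x.re + B * x.im : ℤ) - emb x) = (nm x : ℂ) := by
  have h1 := wC_sq h
  unfold emb nm
  push_cast
  linear_combination (-(x.im : ℂ) ^ 2) * h1

/-- the Frobenius automorphism on the roots of unity -/
theorem frob_root (hc : Case A B) {F : IntermediateField (kk A B) ℂ} (w : Ideal (𝓞 F))
    (hw : w.IsPrime) {lam : OO A B} {q : ℕ} (hq : q.Prime) (hlam : nm lam = q)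
    (hab : Abv w lam) {σ : F ≃ₐ[kk A B] F} (hσ : IsFrQ w q σ) {M : ℕ} (hM : M ≠ 0)
    (hqM : ¬ q ∣ M) (z : F) (hz : z ^ M = 1) : σ z = z ^ q := by
  have hprim : IsPrimitiveRoot z (orderOf z) := IsPrimitiveRoot.orderOf z
  set N := orderOf z with hN
  have hNM : N ∣ M := orderOf_dvd_of_pow_eq_one hz
  have hN0 : N ≠ 0 := fun h => hM (by rw [h, zero_dvd_iff] at hNM; exact hNM)
  haveI : NeZero N := ⟨hN0⟩
  have hint : IsIntegral ℤ z := hprim.isIntegral (Nat.pos_of_ne_zero hN0)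
  set Z : 𝓞 F := ⟨z, hint⟩ with hZ
  have hZz : (Z : F) = z := rfl
  have hprimZ : IsPrimitiveRoot Z N := by
    apply IsPrimitiveRoot.of_map_of_injective (f := algebraMap (𝓞 F) F) _
      RingOfIntegers.coe_injective
    exact hprim
  obtain ⟨i, -, hi⟩ := hprim.eq_pow_of_pow_eq_one (ξ := σ z) (by
    rw [← map_pow, hprim.pow_eq_one, map_one])
  obtain ⟨y, hy, hyz⟩ := hσ Z
  have hy2 : y = Z ^ i - Z ^ q := by
    apply RingOfIntegers.coe_injective
    rw [map_sub, map_pow, map_pow]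
    change (y : F) = z ^ i - z ^ q
    rw [hyz, hi, hZz]
  by_contra hne
  rw [← hi] at hne
  -- the exponent of the quotient
  set j := (i + (N - q % N)) % N with hj
  have hqN : q % N < N := Nat.mod_lt _ (Nat.pos_of_ne_zero hN0)
  have hZj : Z ^ q * Z ^ j = Z ^ i := by
    rw [← pow_add]
    apply pow_eq_pow_of_modEq (n := N) _ hprimZ.pow_eq_one
    have h1 : q + j ≡ q % N + (i + (N - q % N)) [MOD N] :=
      Nat.ModEq.add (Nat.mod_modEq q N).symm (Nat.mod_modEq _ N)
    have h2 : q % N + (i + (N - q % N)) = i + N := by omega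
    rw [h2] at h1
    exact h1.trans (by simp [Nat.ModEq])
  have hj0 : j ≠ 0 := by
    intro h0
    rw [h0, pow_zero, mul_one] at hZj
    apply hne
    have := congrArg (fun x : 𝓞 F => (x : F)) hZj
    simp only [map_pow] at this
    exact this.symm
  have hjN : j < N := Nat.mod_lt _ (Nat.pos_of_ne_zero hN0)
  have hZu : IsUnit Z := hprimZ.isUnit hN0
  have h1 : 1 - Z ^ j ∈ w := by
    have h2 : Z ^ q * (Z ^ j - 1) ∈ w := by
      rw [mul_sub, mul_one, hZj, ← hy2]
      exact hy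
    rcases hw.mem_or_mem h2 with h3 | h3
    · exact absurd (w.eq_top_of_isUnit_mem h3 (hZu.pow q)) hw.ne_top
    · rw [← neg_sub]
      exact w.neg_mem h3
  have h2 : (N : 𝓞 F) ∈ w := by
    obtain ⟨n, hn⟩ := Nat.exists_eq_succ_of_ne_zero hN0
    obtain ⟨k, hk⟩ := Nat.exists_eq_succ_of_ne_zero hj0
    have h3 : IsPrimitiveRoot Z (n + 1) := by
      rw [hn] at hprimZ
      exact hprimZ
    have h4 := h3.prod_one_sub_pow_eq_order
    have h5 : (N : 𝓞 F) = (n : 𝓞 F) + 1 := by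
      rw [hn]
      push_cast
      rfl
    rw [h5, ← h4]
    refine w.mem_of_dvd (Finset.dvd_prod_of_mem (fun k => 1 - Z ^ (k + 1))
      (Finset.mem_range.2 (by omega : k < n))) ?_
    rw [hk] at h1
    exact h1
  have h3 : (q : 𝓞 F) ∈ w := by
    obtain ⟨l, hl, hle⟩ := hab
    have h4 : l * (((2 * lam.re + B * lam.im : ℤ) : 𝓞 F) - l) = (q : 𝓞 F) := by
      apply RingOfIntegers.coe_injective
      apply Subtype.ext
      have h5 := emb_quad hc lam
      rw [← hle, hlam] at h5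
      rw [map_mul, map_sub, map_intCast, map_natCast]
      push_cast at h5 ⊢
      exact h5
    rw [← h4]
    exact w.mul_mem_right _ hl
  have hcop : Nat.Coprime q N := by
    rw [hq.coprime_iff_not_dvd]
    exact fun h => hqM (h.trans hNM)
  have h4 : (1 : 𝓞 F) ∈ w := by
    have h5 := Nat.gcd_eq_gcd_ab q N
    rw [hcop.gcd_eq_one] at h5
    have h6 : (1 : 𝓞 F) = (q : 𝓞 F) * ((Nat.gcdA q N : ℤ) : 𝓞 F) +
        (N : 𝓞 F) * ((Nat.gcdB q N : ℤ) : 𝓞 F) := by
      have := congrArg (fun t : ℤ => (t : 𝓞 F)) h5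
      simpa using this
    rw [h6]
    exact w.add_mem (w.mul_mem_right _ h3) (w.mul_mem_right _ h2)
  exact hw.ne_top ((Ideal.eq_top_iff_one _).2 h4)

/-- the main step -/
theorem key (h1 : Sa_FROB) (h2 : Sa_DENSF) (h3 : Sa_ACT) {L : PeriodPair} {Om : ℂ}
    (hc : Case A B) (hL : IsCM A B L Om) {M : ℕ} (hM : M ≠ 0) {ζ : ℂ} (hζ : ζ ^ M = 1)
    (F : IntermediateField (kk A B) ℂ) [FiniteDimensional (kk A B) F] [IsGalois (kk A B) F]
    (hab : ∀ σ τ : F ≃ₐ[kk A B] F, σ * τ = τ * σ) (hF : TF L (M : OO A B) ≤ F) (hζF : ζ ∈ F)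
    (σ : F ≃ₐ[kk A B] F) : ∃ a : OO A B, Act L (em σ) (M : OO A B) a ∧
      (σ ⟨ζ, hζF⟩ : ℂ) = ζ ^ (nm a).toNat := by
  have hM0 : (M : OO A B) ≠ 0 := by
    intro h0
    have := congrArg emb h0
    rw [emb_natCast hc, emb_zero hc] at this
    exact hM (by exact_mod_cast this)
  obtain ⟨a1, a2, a3, a4, a5, a6, a7, a8⟩ := h3 A B L Om hc hL (M : OO A B) hM0
  obtain ⟨n, hn, hfr⟩ := h1 A B L Om hc hL
  let S : Submonoid (F ≃ₐ[kk A B] F) :=
    { carrier := {σ | ∃ a : OO A B, Act L (em σ) (M : OO A B) a ∧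
        (σ ⟨ζ, hζF⟩ : ℂ) = ζ ^ (nm a).toNat}
      one_mem' := ⟨1, a7 F hF, by simp [nm_one]⟩
      mul_mem' := by
        rintro s t ⟨a, ha, ha'⟩ ⟨b, hb, hb'⟩
        refine ⟨a * b, a4 F s t a b hF ha hb, ?_⟩
        have h5 : t ⟨ζ, hζF⟩ = (⟨ζ, hζF⟩ : F) ^ (nm b).toNat := by
          apply Subtype.ext
          rw [hb']
          simp
        rw [AlgEquiv.mul_apply, h5, map_pow]
        push_cast
        rw [ha', ← pow_mul, toNat_mul hc] }
  let H : Subgroup (F ≃ₐ[kk A B] F) :=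
    { S with
      inv_mem' := by
        intro s hs
        have hcard : s ^ (Nat.card (F ≃ₐ[kk A B] F)) = 1 := pow_card_eq_one'
        have hpos : 0 < Nat.card (F ≃ₐ[kk A B] F) := Nat.card_pos
        have h5 : s⁻¹ = s ^ (Nat.card (F ≃ₐ[kk A B] F) - 1) := by
          apply inv_eq_of_mul_eq_one_left
          rw [← pow_succ, Nat.sub_add_cancel hpos, hcard]
        rw [h5]
        exact S.pow_mem hs _ }
  have hH : H = ⊤ := by
    apply h2 A B hc F hab H (M * n) (mul_ne_zero hM hn)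
    intro lam q hq hlam hqn w hw hwl s hs
    have hqM : ¬ q ∣ M := fun h => hqn (h.mul_right n)
    have hqn' : ¬ q ∣ n := fun h => hqn (h.mul_left M)
    have hqM2 : ¬ (q : ℤ) ∣ nm (M : OO A B) := by
      rw [G0.nm_eq, QuadraticAlgebra.norm_natCast]
      intro h
      apply hqM
      have h5 : (q : ℤ) ∣ (M : ℤ) := (Nat.prime_iff_prime_int.1 hq).dvd_of_dvd_pow h
      exact_mod_cast h5
    have h5 := frob_root hc w hw hq hlam hwl hs hM hqM ⟨ζ, hζF⟩ (by
      apply Subtype.ext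
      simpa using hζ)
    have h6 : (s ⟨ζ, hζF⟩ : ℂ) = ζ ^ q := by
      rw [h5]
      simp
    rcases hfr lam q hq hlam hqn' (M : OO A B) hM0 hqM2 F hF w hw hwl s hs with h7 | h7
    · refine ⟨lam, h7, ?_⟩
      rw [h6, hlam]
      simp
    · refine ⟨-lam, h7, ?_⟩
      have h8 : nm (-lam) = nm lam := by
        unfold nm
        simp
      rw [h6, h8, hlam]
      simp
  have h4 : σ ∈ H := by
    rw [hH]
    trivial
  exact h4

/-- `k(ζ)` is a finite Galois extension -/
theorem adj_gal {M : ℕ} (hM : M ≠ 0) {ζ : ℂ} (hζ : ζ ^ M = 1) :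
    FiniteDimensional (kk A B) (IntermediateField.adjoin (kk A B) {ζ}) ∧
      Normal (kk A B) (IntermediateField.adjoin (kk A B) {ζ}) := by
  have hprim : IsPrimitiveRoot ζ (orderOf ζ) := IsPrimitiveRoot.orderOf ζ
  have hNM : orderOf ζ ∣ M := orderOf_dvd_of_pow_eq_one hζ
  have hN0 : orderOf ζ ≠ 0 := fun h => hM (by rw [h, zero_dvd_iff] at hNM; exact hNM)
  haveI : NeZero (orderOf ζ) := ⟨hN0⟩
  have hint : IsIntegral (kk A B) ζ := hprim.isIntegral (Nat.pos_of_ne_zero hN0) |>.tower_top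
  have hcy : IsCyclotomicExtension {orderOf ζ} (kk A B)
      (IntermediateField.adjoin (kk A B) {ζ}) := by
    change IsCyclotomicExtension {orderOf ζ} (kk A B)
      (IntermediateField.adjoin (kk A B) {ζ}).toSubalgebra
    rw [IntermediateField.adjoin_simple_toSubalgebra_of_isAlgebraic hint.isAlgebraic]
    exact hprim.adjoin_isCyclotomicExtension (kk A B)
  have := IsCyclotomicExtension.isGalois {orderOf ζ} (kk A B)
    (IntermediateField.adjoin (kk A B) {ζ})
  exact ⟨IntermediateField.adjoin.finiteDimensional hint, inferInstance⟩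

/-- commutativity of the Galois group of `F_M (ζ)` -/
theorem comm (h3 : Sa_ACT) (h5 : Sa_GAL) {L : PeriodPair} {Om : ℂ}
    (hc : Case A B) (hL : IsCM A B L Om) {M : ℕ} (hM : M ≠ 0) {ζ : ℂ} (hζ : ζ ^ M = 1)
    (F : IntermediateField (kk A B) ℂ)
    (hFdef : F = TF L (M : OO A B) ⊔ IntermediateField.adjoin (kk A B) {ζ})
    (σ τ : F ≃ₐ[kk A B] F) : σ * τ = τ * σ := by
  have hM0 : (M : OO A B) ≠ 0 := by
    intro h0
    have := congrArg emb h0
    rw [emb_natCast hc, emb_zero hc] at this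
    exact hM (by exact_mod_cast this)
  have hF : TF L (M : OO A B) ≤ F := by
    rw [hFdef]
    exact le_sup_left
  have hζF : ζ ∈ F := by
    have h6 : IntermediateField.adjoin (kk A B) {ζ} ≤ F := by
      rw [hFdef]
      exact le_sup_right
    exact h6 (IntermediateField.mem_adjoin_simple_self _ ζ)
  have hprim : IsPrimitiveRoot (⟨ζ, hζF⟩ : F) (orderOf (⟨ζ, hζF⟩ : F)) :=
    IsPrimitiveRoot.orderOf _
  have hz : (⟨ζ, hζF⟩ : F) ^ M = 1 := by
    apply Subtype.ext
    simpa using hζ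
  have hN0 : orderOf (⟨ζ, hζF⟩ : F) ≠ 0 := fun h => hM (by
    have := orderOf_dvd_of_pow_eq_one hz
    rw [h, zero_dvd_iff] at this
    exact this)
  haveI : NeZero (orderOf (⟨ζ, hζF⟩ : F)) := ⟨hN0⟩
  have hroot : ∀ s : F ≃ₐ[kk A B] F, ∃ i : ℕ, s ⟨ζ, hζF⟩ = (⟨ζ, hζF⟩ : F) ^ i := by
    intro s
    obtain ⟨i, -, hi⟩ := hprim.eq_pow_of_pow_eq_one (ξ := s ⟨ζ, hζF⟩) (by
      rw [← map_pow, hprim.pow_eq_one, map_one])
    exact ⟨i, hi.symm⟩
  have hadj : F = IntermediateField.adjoin (kk A B)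
      ({c | ∃ z : ℂ, emb (M : OO A B) * z ∈ L.lattice ∧ z ∉ L.lattice ∧
        (c = xx A B L z ∨ c = yy L z)} ∪ {ζ}) := by
    rw [hFdef, IntermediateField.adjoin_union]
    rfl
  obtain ⟨a, ha, ha'⟩ := h5 A B L Om hc hL (M : OO A B) hM0 F hF (em σ)
  obtain ⟨b, hb, hb'⟩ := h5 A B L Om hc hL (M : OO A B) hM0 F hF (em τ)
  have hE : (em (σ * τ) : F →ₐ[kk A B] ℂ) = em (τ * σ) := by
    apply IntermediateField.algHom_ext_of_eq_adjoin (kk A B) hadj
    rintro c (⟨z, hz1, hz2, hz3⟩ | hz)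
    · obtain ⟨ha1, ha2, ha3⟩ := ha' z hz1 hz2
      obtain ⟨hb1, hb2, hb3⟩ := hb' z hz1 hz2
      have hza : emb (M : OO A B) * (emb a * z) ∈ L.lattice := by
        have := hL.toIsLat.emb_mul_mem hc a hz1
        rw [mul_left_comm]
        exact this
      have hzb : emb (M : OO A B) * (emb b * z) ∈ L.lattice := by
        have := hL.toIsLat.emb_mul_mem hc b hz1
        rw [mul_left_comm]
        exact this
      obtain ⟨hc1, hc2, hc3⟩ := ha' (emb b * z) hzb hb1
      obtain ⟨hd1, hd2, hd3⟩ := hb' (emb a * z) hza ha1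
      rcases hz3 with rfl | rfl
      · have hmem : xx A B L z ∈ F := hF (IntermediateField.subset_adjoin _ _
          ⟨z, hz1, hz2, Or.inl rfl⟩)
        have hma : xx A B L (emb a * z) ∈ F := hF (IntermediateField.subset_adjoin _ _
          ⟨_, hza, ha1, Or.inl rfl⟩)
        have hmb : xx A B L (emb b * z) ∈ F := hF (IntermediateField.subset_adjoin _ _
          ⟨_, hzb, hb1, Or.inl rfl⟩)
        have e1 : τ ⟨xx A B L z, hmem⟩ = ⟨xx A B L (emb b * z), hmb⟩ := Subtype.ext (hb2 hmem)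
        have e2 : σ ⟨xx A B L z, hmem⟩ = ⟨xx A B L (emb a * z), hma⟩ := Subtype.ext (ha2 hmem)
        have e3 := hc2 hmb
        have e4 := hd2 hma
        change ((σ (τ ⟨xx A B L z, hmem⟩) : F) : ℂ) = ((τ (σ ⟨xx A B L z, hmem⟩) : F) : ℂ)
        rw [e1, e2]
        refine (e3.trans ?_).trans e4.symm
        rw [mul_left_comm]
      · have hmem : yy L z ∈ F := hF (IntermediateField.subset_adjoin _ _
          ⟨z, hz1, hz2, Or.inr rfl⟩)
        have hma : yy L (emb a * z) ∈ F := hF (IntermediateField.subset_adjoin _ _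
          ⟨_, hza, ha1, Or.inr rfl⟩)
        have hmb : yy L (emb b * z) ∈ F := hF (IntermediateField.subset_adjoin _ _
          ⟨_, hzb, hb1, Or.inr rfl⟩)
        have e1 : τ ⟨yy L z, hmem⟩ = ⟨yy L (emb b * z), hmb⟩ := Subtype.ext (hb3 hmem)
        have e2 : σ ⟨yy L z, hmem⟩ = ⟨yy L (emb a * z), hma⟩ := Subtype.ext (ha3 hmem)
        have e3 := hc3 hmb
        have e4 := hd3 hma
        change ((σ (τ ⟨yy L z, hmem⟩) : F) : ℂ) = ((τ (σ ⟨yy L z, hmem⟩) : F) : ℂ)
        rw [e1, e2]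
        refine (e3.trans ?_).trans e4.symm
        rw [mul_left_comm]
    · rw [Set.mem_singleton_iff] at hz
      subst hz
      obtain ⟨i, hi⟩ := hroot σ
      obtain ⟨j, hj⟩ := hroot τ
      change ((σ (τ ⟨c, hζF⟩) : F) : ℂ) = ((τ (σ ⟨c, hζF⟩) : F) : ℂ)
      rw [hi, hj, map_pow, map_pow, hi, hj, ← pow_mul, ← pow_mul, mul_comm]
  apply AlgEquiv.ext
  intro x
  have h6 : ((σ * τ) x : ℂ) = ((τ * σ) x : ℂ) := congrArg (fun f => f x) hE
  exact Subtype.ext h6

end CYC

open CYC in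
theorem ta_CYC (h1 : Sa_FROB) (h2 : Sa_DENSF) (h3 : Sa_ACT) (h4 : Sa_NRM) (h5 : Sa_GAL) :
    Sa_CYC := by
  intro A B L Om hc hL M hM ζ hζ
  have hM0 : (M : OO A B) ≠ 0 := by
    intro h0
    have := congrArg emb h0
    rw [emb_natCast hc, emb_zero hc] at this
    exact hM (by exact_mod_cast this)
  obtain ⟨a1, a2, a3, a4, a5, a6, a7, a8⟩ := h3 A B L Om hc hL (M : OO A B) hM0
  obtain ⟨hfin, hgal⟩ := h4 A B L Om hc hL (M : OO A B) hM0
  obtain ⟨hfin', hnor'⟩ := adj_gal (A := A) (B := B) hM hζ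
  have hmem : ζ ∈ TF L (M : OO A B) := by
    set F := (TF L (M : OO A B) ⊔ IntermediateField.adjoin (kk A B) {ζ} :
      IntermediateField (kk A B) ℂ) with hFdef
    have hF : TF L (M : OO A B) ≤ F := le_sup_left
    have hζF : ζ ∈ F := (le_sup_right : _ ≤ F) (IntermediateField.mem_adjoin_simple_self _ ζ)
    haveI : FiniteDimensional (kk A B) F := IntermediateField.finiteDimensional_sup _ _
    haveI : Normal (kk A B) F := IntermediateField.normal_sup (kk A B) ℂ _ _
    haveI : IsGalois (kk A B) F := ⟨⟩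
    have hkey := key h1 h2 h3 hc hL hM hζ F (comm h3 h5 hc hL hM hζ F hFdef) hF hζF
    have h6 : (⟨ζ, hζF⟩ : F) ∈ IntermediateField.restrict hF := by
      rw [← IsGalois.fixedField_fixingSubgroup (IntermediateField.restrict hF),
        IntermediateField.mem_fixedField_iff]
      intro s hs
      rw [IntermediateField.mem_fixingSubgroup_iff] at hs
      obtain ⟨a, ha, ha'⟩ := hkey s
      have hact : Act L (em s) (M : OO A B) 1 := by
        refine ⟨isCoprime_one_left, fun z hz1 hz2 => ?_⟩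
        rw [emb_one hc, one_mul]
        refine ⟨hz2, fun hx => ?_, fun hy => ?_⟩
        · have := hs ⟨xx A B L z, hx⟩ ((IntermediateField.mem_restrict hF _).2
            (IntermediateField.subset_adjoin _ _ ⟨z, hz1, hz2, Or.inl rfl⟩))
          exact congrArg (fun t : F => (t : ℂ)) this
        · have := hs ⟨yy L z, hy⟩ ((IntermediateField.mem_restrict hF _).2
            (IntermediateField.subset_adjoin _ _ ⟨z, hz1, hz2, Or.inr rfl⟩))
          exact congrArg (fun t : F => (t : ℂ)) this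
      have h7 := a1 F (em s) a 1 hF ha hact
      apply Subtype.ext
      rw [ha', cpow_cong hc h7 hζ, nm_one]
      simp
    exact (IntermediateField.mem_restrict hF _).1 h6
  refine ⟨hmem, ?_⟩
  intro F hF hζF σ a ha
  have hrange : ((σ.comp (IntermediateField.inclusion hF)) : TF L (M : OO A B) →ₐ[kk A B] ℂ).fieldRange
      = TF L (M : OO A B) := AlgHom.fieldRange_of_normal _
  set f : TF L (M : OO A B) →ₐ[kk A B] ℂ := σ.comp (IntermediateField.inclusion hF) with hf
  have hf2 : ∀ x, f x ∈ (TF L (M : OO A B)).toSubalgebra := by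
    intro x
    exact hrange.le ⟨x, rfl⟩
  let g : TF L (M : OO A B) →ₐ[kk A B] TF L (M : OO A B) := f.codRestrict _ hf2
  have hg : Function.Bijective g := Algebra.IsAlgebraic.algHom_bijective g
  let s : TF L (M : OO A B) ≃ₐ[kk A B] TF L (M : OO A B) := AlgEquiv.ofBijective g hg
  have hs : em s = f := by
    apply AlgHom.ext
    intro x
    rfl
  have ha2 : Act L (em s) (M : OO A B) a := by
    rw [hs]
    exact a8 (TF L (M : OO A B)) F hF σ a ha
  obtain ⟨b, hb, hb'⟩ := key h1 h2 h3 hc hL hM hζ (TF L (M : OO A B)) a6 le_rfl hmem s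
  have h7 := a1 (TF L (M : OO A B)) (em s) a b le_rfl ha2 hb
  have h8 : (σ ⟨ζ, hζF⟩ : ℂ) = (s ⟨ζ, hmem⟩ : ℂ) := rfl
  rw [h8, hb', cpow_cong hc h7 hζ]

end Pool.Agent.MU3A
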