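import Pool.Agent.MU3.StD2

/-!
# MU3: Frobenius elements generate the Galois group (statement)
-/

open NumberField IsDedekindDomain Ideal
open scoped nonZeroDivisors

namespace Pool.Agent.MU3

/-- DENSF: a subgroup of `Gal(F / k)` which contains the Frobenius elements of almost all primes of
prime norm of `k` is everything. (`y = σ x` in `𝓞 F` is written without the action on `𝓞 F`.)

Proof (from Stmt_NSP). Let `M = IntermediateField.fixedField H`, `m = [M : k]`. For a prime `v ∉ T` of `k` of prime norm
`q`, unramified in `M`: let `u` be a prime of `M` above `v`, `w` a prime of `F` above `u` (lying over). There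
is `σ` with `σ x ≡ x ^ q` modulo `w` for all `x ∈ 𝓞 F` (Mathlib: `IsArithFrobAt`,
`IsArithFrobAt.exists_of_isInvariant`, `Nat.card (𝓞 k ⧸ v) = q`; compare `Pool/Agent/RI/FROBOF.lean`), so `σ ∈ H` by
hypothesis, so `x = σ x ≡ x ^ q` modulo `u` for `x ∈ 𝓞 M`; the finite field `𝓞 M ⧸ u` has at most `q` elements (roots
of `X ^ q - X`), and it contains `𝓞 k ⧸ v`, so `absNorm u = q`. All primes of `M` above `v` have residue
degree `1` and ramification index `1`, so their number is `m` (`Ideal.sum_ramification_inertia`), i.e.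
`m ≤ spl k M v`. The primes of `k` which ramify in `M` are finitely many (different ideal, or P_BAD of
`StP.lean`). NSP with `S = T ∪ {ramified}` gives `m ≤ 1`, so `M = ⊥` and `H = ⊤`
(`IntermediateField.fixingSubgroup_fixedField`). -/
def Stmt_DENSF : Prop := ∀ (k F : Type) [Field k] [NumberField k] [Field F] [NumberField F]
    [Algebra k F] [IsGalois k F] (H : Subgroup (F ≃ₐ[k] F)) (T : Set (HeightOneSpectrum (𝓞 k))),
    T.Finite →
    (∀ v : HeightOneSpectrum (𝓞 k), v ∉ T → (absNorm v.asIdeal).Prime →
      ∀ w : Ideal (𝓞 F), w.IsPrime → w.comap (algebraMap (𝓞 k) (𝓞 F)) = v.asIdeal →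
      ∀ σ : F ≃ₐ[k] F,
        (∀ x y : 𝓞 F, (y : F) = σ (x : F) → y - x ^ absNorm v.asIdeal ∈ w) → σ ∈ H) →
    H = ⊤

end Pool.Agent.MU3
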