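import Pool.Agent.MU3.StA2
import Pool.Agent.MU3.StDF

/-!
# MU3, block A: (DENSF)
-/

set_option autoImplicit false

namespace Pool.Agent.MU3A

open _root_.MU3 Pool.Agent.MU3B Polynomial NumberField IsDedekindDomain Ideal

namespace DENSF

variable {A B : ℤ}

lemma nm_nat (n : ℕ) : nm (n : OO A B) = (n : ℤ) ^ 2 := by
  simp [nm]

/-- the ring homomorphism from `O` to the ring of integers of `k` -/
noncomputable def phi (h : Case A B) (hint : ∀ x : OO A B, IsIntegral ℤ (emb x)) :
    OO A B →+* 𝓞 (kk A B) where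
  toFun x := ⟨ek x, by
    have h1 : IsIntegral ℤ ((ek x : kk A B) : ℂ) := hint x
    exact (isIntegral_algebraMap_iff (B := ℂ) Subtype.val_injective).1 h1⟩
  map_one' := by
    apply RingOfIntegers.ext
    apply Subtype.ext
    exact emb_one h
  map_zero' := by
    apply RingOfIntegers.ext
    apply Subtype.ext
    exact emb_zero h
  map_mul' x y := by
    apply RingOfIntegers.ext
    apply Subtype.ext
    exact emb_mul h x y
  map_add' x y := by
    apply RingOfIntegers.ext
    apply Subtype.ext
    exact emb_add h x y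

lemma phi_coe (h : Case A B) (hint : ∀ x : OO A B, IsIntegral ℤ (emb x)) (x : OO A B) :
    (((phi h hint x : 𝓞 (kk A B)) : kk A B) : ℂ) = emb x := rfl

end DENSF

open DENSF in
theorem ta_DENSF (h0 : Pool.Agent.MU3.Stmt_DENSF) (h1 : Sa_INT) (h2 : Sa_PID) : Sa_DENSF := by
  intro A B hc F _ _ hcomm H n hn hyp
  obtain ⟨fd, hfr, -, hI⟩ := h1 A B hc
  obtain ⟨hdom, hpid, hnn, hmul, hzero, -, hunit1, hunit2, -, -⟩ := h2 A B hc
  have hint : ∀ x : OO A B, IsIntegral ℤ (emb x) := fun x => (hI _ (emb_mem x)).2 ⟨x, rfl⟩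
  have nk : NumberField (kk A B) := { to_charZero := inferInstance, to_finiteDimensional := fd }
  have nF : NumberField F :=
    { to_charZero := inferInstance
      to_finiteDimensional := Module.Finite.trans (kk A B) F }
  have hsurj : Function.Surjective (phi hc hint) := by
    intro z
    have hz : IsIntegral ℤ (((z : kk A B)) : ℂ) := by
      have := z.isIntegral_coe
      exact this.map (IntermediateField.val (kk A B) |>.toRingHom.toIntAlgHom)
    obtain ⟨y, hy⟩ := (hI _ (z : kk A B).2).1 hz
    refine ⟨y, ?_⟩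
    apply RingOfIntegers.ext
    apply Subtype.ext
    rw [phi_coe]
    exact hy.symm
  refine h0 (kk A B) F H {v : HeightOneSpectrum (𝓞 (kk A B)) | ((n : ℕ) : 𝓞 (kk A B)) ∈ v.asIdeal}
    ?_ ?_
  · have k0 : (Ideal.span {((n : ℕ) : 𝓞 (kk A B))} : Ideal (𝓞 (kk A B))) ≠ 0 := by
      rw [Ne, Ideal.zero_eq_bot, Ideal.span_singleton_eq_bot]
      exact_mod_cast hn
    refine (Ideal.finite_factors k0).subset ?_
    intro v hv
    show v.asIdeal ∣ _
    rw [Ideal.dvd_span_singleton]
    exact hv
  · intro v hv hq w hw hwv σ hσ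
    set q := absNorm v.asIdeal with hqdef
    have hqmem : ((q : ℕ) : 𝓞 (kk A B)) ∈ v.asIdeal := absNorm_mem v.asIdeal
    obtain ⟨lam, hlam⟩ := (hpid.principal (v.asIdeal.comap (phi hc hint))).principal
    have hlamv : phi hc hint lam ∈ v.asIdeal := by
      have : lam ∈ v.asIdeal.comap (phi hc hint) := by
        rw [hlam]
        exact Submodule.mem_span_singleton_self lam
      exact this
    have hvspan : v.asIdeal = span {phi hc hint lam} := by
      rw [← Ideal.map_comap_of_surjective _ hsurj v.asIdeal, hlam]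
      exact Ideal.map_span _ _ |>.trans (by rw [Set.image_singleton])
    have hqlam : lam ∣ (q : OO A B) := by
      have h3 : (q : OO A B) ∈ v.asIdeal.comap (phi hc hint) := by
        rw [Ideal.mem_comap, map_natCast]
        exact hqmem
      rw [hlam] at h3
      exact Ideal.mem_span_singleton.1 h3
    obtain ⟨r, hr⟩ := hqlam
    have hnmul : nm lam * nm r = (q : ℤ) ^ 2 := by
      rw [← hmul, ← hr, nm_nat]
    have hnat : (nm lam).natAbs * (nm r).natAbs = q ^ 2 := by
      have := congrArg Int.natAbs hnmul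
      rwa [Int.natAbs_mul, Int.natAbs_pow, Int.natAbs_natCast] at this
    have hcast : ∀ x : OO A B, ((nm x).natAbs : ℤ) = nm x := fun x => Int.natAbs_of_nonneg (hnn x)
    have hnl : (nm lam).natAbs = q := by
      have h4 : (nm lam).natAbs ∣ q ^ 2 := ⟨_, hnat.symm⟩
      obtain ⟨i, hi, hi2⟩ := (Nat.dvd_prime_pow hq).1 h4
      have hi3 : i = 0 ∨ i = 1 ∨ i = 2 := by omega
      rcases hi3 with rfl | rfl | rfl
      · exfalso
        have h5 : nm lam = 1 := by rw [← hcast, hi2]; simp
        have h6 : IsUnit lam := (hunit2 lam).2 h5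
        have h7 : IsUnit (phi hc hint lam) := h6.map _
        exact v.isPrime.ne_top (Ideal.eq_top_of_isUnit_mem _ hlamv h7)
      · rw [hi2, pow_one]
      · exfalso
        rw [hi2] at hnat
        have h5 : (nm r).natAbs = 1 := by
          have h6 : q ^ 2 * (nm r).natAbs = q ^ 2 * 1 := by rw [hnat, mul_one]
          exact Nat.eq_of_mul_eq_mul_left (pow_pos hq.pos 2) h6
        have h6 : IsUnit r := (hunit2 r).2 (by rw [← hcast, h5]; simp)
        have h7 : span {phi hc hint lam} = span {((q : ℕ) : 𝓞 (kk A B))} := by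
          rw [Ideal.span_singleton_eq_span_singleton]
          have h8 : Associated lam (q : OO A B) := by
            obtain ⟨u, hu⟩ := h6
            exact ⟨u, by rw [hu, hr]⟩
          have h9 := h8.map (phi hc hint)
          rwa [map_natCast] at h9
        have h8 : q = q ^ 2 := by
          conv_lhs => rw [hqdef, hvspan, h7, absNorm_span_natCast, RingOfIntegers.rank, hfr]
        have h9 : q * 1 = q * q := by rw [mul_one, ← pow_two]; exact h8
        have h10 := Nat.eq_of_mul_eq_mul_left hq.pos h9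
        exact hq.one_lt.ne h10
    have hnlam : nm lam = (q : ℤ) := by rw [← hcast, hnl]
    refine hyp lam q hq hnlam ?_ w hw ⟨algebraMap (𝓞 (kk A B)) (𝓞 F) (phi hc hint lam), ?_, rfl⟩ σ ?_
    · intro hdvd
      apply hv
      obtain ⟨t, ht⟩ := hdvd
      show ((n : ℕ) : 𝓞 (kk A B)) ∈ v.asIdeal
      rw [ht]
      push_cast
      exact Ideal.mul_mem_right _ _ hqmem
    · rw [← Ideal.mem_comap, hwv]
      exact hlamv
    · intro x
      have hx : IsIntegral ℤ (σ (x : F)) := by
        have h3 := x.isIntegral_coe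
        exact h3.map (σ.toAlgHom.toRingHom.toIntAlgHom)
      refine ⟨⟨σ (x : F), hx⟩ - x ^ q, hσ x ⟨σ (x : F), hx⟩ rfl, ?_⟩
      push_cast
      rfl

end Pool.Agent.MU3A
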