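import Pool.Agent.MU3.StA

/-!
# MU3, block A, module EQN: basic facts on `x` and `y`
-/

set_option autoImplicit false

namespace Pool.Agent.MU3A

open MU3 Pool.Agent.MU3B Polynomial

namespace A_EQN

lemma hdP (L : PeriodPair) {z : ℂ} (hz : z ∉ L.lattice) :
    HasDerivAt L.weierstrassP (L.derivWeierstrassP z) z := by
  have h1 : DifferentiableAt ℂ L.weierstrassP z :=
    (L.analyticOnNhd_weierstrassP z (by simpa using hz)).differentiableAt
  rw [← L.deriv_weierstrassP]
  exact h1.hasDerivAt

end A_EQN

theorem ta_EQN (h1 : MU3B.St_NEQ) (h2 : MU3B.St_ZER) (h3 : MU3B.St_DSC) (h4 : MU3B.St_P2) :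
    Sa_EQN := by
  intro A B L Om _ hCM
  have g2 := hCM.g2
  have g3 := hCM.g3
  set a := emb (a2 A B) with ha
  set b := emb (a4 A B) with hb
  set c := emb (a6 A B) with hc
  have hneq : ∀ z z', z ∉ L.lattice → z' ∉ L.lattice → xx A B L z = xx A B L z' →
      z - z' ∈ L.lattice ∨ z + z' ∈ L.lattice := by
    intro z z' hz hz' hx
    apply h1 L z' z hz' hz
    unfold xx at hx
    exact sub_left_injective hx
  have hzer : ∀ z, z ∉ L.lattice → (yy L z = 0 ↔ 2 * z ∈ L.lattice) := by
    intro z hz
    rw [← h2 L z hz]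
    unfold yy
    constructor
    · intro h
      linear_combination 2 * h
    · intro h
      rw [h, zero_div]
  refine ⟨?_, ?_, ?_, ?_, hneq, ?_, hzer, ?_, ?_⟩
  · intro z hz
    have hsq := L.derivWeierstrassP_sq z hz
    unfold xx yy
    linear_combination (1 / 4) * hsq - (L.weierstrassP z / 4) * g2 - (1 / 4) * g3
  · intro z hz
    by_contra hcon
    rw [not_or, not_not, not_not] at hcon
    obtain ⟨hy, hx⟩ := hcon
    have hsq := L.derivWeierstrassP_sq z hz
    have hP' : L.derivWeierstrassP z = 0 := by
      unfold yy at hy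
      linear_combination 2 * hy
    rw [hP'] at hsq
    have e2 : L.g₂ = 12 * L.weierstrassP z ^ 2 := by
      unfold xx at hx
      linear_combination g2 - 4 * hx
    have e3 : L.g₃ = -8 * L.weierstrassP z ^ 3 := by
      linear_combination hsq - L.weierstrassP z * e2
    apply (h3 L).1
    rw [e2, e3]
    ring
  · intro z
    unfold xx yy
    rw [L.weierstrassP_neg, L.derivWeierstrassP_neg]
    exact ⟨rfl, neg_div _ _⟩
  · intro z u hu
    unfold xx yy
    have e1 := L.weierstrassP_add_coe z ⟨u, hu⟩
    have e2 := L.derivWeierstrassP_add_coe z ⟨u, hu⟩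
    simp only at e1 e2
    rw [e1, e2]
    exact ⟨rfl, rfl⟩
  · intro z z' hz hz' hx hy
    rcases hneq z z' hz hz' hx with h | h
    · exact h
    · have e1 : L.derivWeierstrassP z = L.derivWeierstrassP z' := by
        unfold yy at hy
        linear_combination 2 * hy
      have e2 := L.derivWeierstrassP_add_coe (-z) ⟨z + z', h⟩
      simp only at e2
      have e3 : -z + (z + z') = z' := by ring
      rw [e3, L.derivWeierstrassP_neg] at e2
      have e4 : yy L z = 0 := by
        unfold yy
        linear_combination (1 / 4) * e1 + (1 / 4) * e2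
      have e5 := (hzer z hz).1 e4
      have e6 : z - z' = 2 * z - (z + z') := by ring
      rw [e6]
      exact sub_mem e5 h
  · intro X Y hXY
    obtain ⟨z, hz, hzx, hzy⟩ := (h3 L).2 (X + a / 3) (2 * Y) (by
      linear_combination 4 * hXY + (X + a / 3) * g2 + g3)
    refine ⟨z, hz, ?_, ?_⟩
    · unfold xx
      rw [hzx]
      ring
    · unfold yy
      rw [hzy]
      ring
  · intro z hz
    constructor
    · have e1 := (A_EQN.hdP L hz).sub_const (a / 3)
      have e2 : 2 * yy L z = L.derivWeierstrassP z := by unfold yy; ring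
      rw [e2]
      exact e1
    · have e1 := (h4 L z hz).div_const 2
      have e2 : 3 * xx A B L z ^ 2 + 2 * a * xx A B L z + b =
          (6 * L.weierstrassP z ^ 2 - L.g₂ / 2) / 2 := by
        unfold xx
        linear_combination (1 / 4) * g2
      rw [e2]
      exact e1

end Pool.Agent.MU3A
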