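import Pool.Agent.MU3.StA

/-!
# MU3, block A: module EX, the normal form exists
-/

set_option autoImplicit false

namespace Pool.Agent.MU3A

open MU3 Pool.Agent.MU3B Polynomial

noncomputable section

namespace A_EX

lemma scale {A B : ℤ} {L₀ L : PeriodPair} {Om : ℂ} (h₀ : IsLat A B L₀ 1) (h : IsLat A B L Om)
    (u : ℂ) : u ∈ L₀.lattice ↔ Om * u ∈ L.lattice := by
  have h1 := h.Om_ne
  rw [h₀.mem, h.mem]
  constructor
  · rintro ⟨x, rfl⟩
    exact ⟨x, by rw [one_mul]⟩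
  · rintro ⟨x, hx⟩
    exact ⟨x, by rw [one_mul]; exact mul_left_cancel₀ h1 hx⟩

/-- a square root of a nonzero number -/
lemma root {c : ℂ} (hc : c ≠ 0) : ∃ Om : ℂ, Om ≠ 0 ∧ Om ^ 2 = c := by
  obtain ⟨z, hz⟩ := IsAlgClosed.exists_pow_nat_eq c (n := 2) (by norm_num)
  refine ⟨z, ?_, hz⟩
  rintro rfl
  apply hc
  rw [← hz]
  norm_num

end A_EX

/-- EX. -/
theorem ta_EX (h1 : Sa_LAT0) (h2 : Sa_SCP) (h3 : Sa_R8) (h4 : Sa_R11) : Sa_EX := by
  intro A B h
  obtain ⟨L₀, hL₀⟩ := h1 A B h 1 one_ne_zero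
  rcases h with ⟨rfl, rfl⟩ | ⟨rfl, rfl⟩
  · have hc : Case (-2) 0 := Or.inl ⟨rfl, rfl⟩
    have he0 := (h3 L₀ 1 hL₀).1
    rw [one_mul] at he0
    set e₀ := L₀.weierstrassP (wC (-2) 0 / 2) with he₀
    obtain ⟨Om, hOm, hOm2⟩ := A_EX.root (c := 3 * e₀ / 4)
      (div_ne_zero (mul_ne_zero (by norm_num) he0) (by norm_num))
    obtain ⟨L, hL⟩ := h1 (-2) 0 hc Om hOm
    have hP : L.weierstrassP (Om * wC (-2) 0 / 2) = 4 / 3 := by
      have h5 := (h2 L₀ L Om hOm (A_EX.scale hL₀ hL)).1 (wC (-2) 0 / 2)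
      rw [← he₀, hOm2] at h5
      rw [mul_div_assoc, h5]
      field_simp
    obtain ⟨-, hg2, hg3, -⟩ := h3 L Om hL
    rw [hP] at hg2 hg3
    have ea2 : emb (a2 (-2) 0) = 4 := by
      have : a2 (-2) 0 = ((4 : ℤ) : OO (-2) 0) := by simp [a2]
      rw [this, emb_intCast hc]
      norm_num
    have ea4 : emb (a4 (-2) 0) = 2 := by
      have : a4 (-2) 0 = ((2 : ℤ) : OO (-2) 0) := by simp [a4]
      rw [this, emb_intCast hc]
      norm_num
    have ea6 : emb (a6 (-2) 0) = 0 := by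
      have : a6 (-2) 0 = 0 := by simp [a6]
      rw [this, emb_zero hc]
    refine ⟨L, Om, hL, ?_, ?_⟩
    · rw [hg2, ea2, ea4]
      norm_num
    · rw [hg3, ea2, ea4, ea6]
      norm_num
  · have hc : Case (-3) 1 := Or.inr ⟨rfl, rfl⟩
    have hw0 : wC (-3) 1 ≠ 0 := wC_ne_zero hc
    have hw2 : wC (-3) 1 * wC (-3) 1 = -3 + wC (-3) 1 := by
      have := wC_sq hc
      push_cast at this
      rw [this]
      ring
    have he0 := (h4 L₀ 1 hL₀).1
    set w := wC (-3) 1 with hw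
    set e₀ := L₀.weierstrassP (1 / w) with he₀
    obtain ⟨Om, hOm, hOm2⟩ := A_EX.root (c := 3 * e₀ / w)
      (div_ne_zero (mul_ne_zero (by norm_num) he0) hw0)
    obtain ⟨L, hL⟩ := h1 (-3) 1 hc Om hOm
    have hP : L.weierstrassP (Om / w) = w / 3 := by
      have h5 := (h2 L₀ L Om hOm (A_EX.scale hL₀ hL)).1 (1 / w)
      rw [← he₀, hOm2, mul_one_div] at h5
      rw [h5]
      field_simp
    obtain ⟨-, hg2, hg3, -⟩ := h4 L Om hL
    rw [← hw, hP] at hg2 hg3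
    have ea2 : emb (a2 (-3) 1) = -1 + 2 * w := by
      have : a2 (-3) 1 = ⟨-1, 2⟩ := by simp [a2]
      rw [this, emb, ← hw]
      push_cast
      ring
    have ea4 : emb (a4 (-3) 1) = -3 := by
      have : a4 (-3) 1 = ((-3 : ℤ) : OO (-3) 1) := by simp [a4]
      rw [this, emb_intCast hc]
      norm_num
    have ea6 : emb (a6 (-3) 1) = 1 - 2 * w := by
      have : a6 (-3) 1 = ⟨1, -2⟩ := by simp [a6]
      rw [this, emb, ← hw]
      push_cast
      ring
    have hg2' : L.g₂ = -8 / 3 := by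
      have : w ^ 2 * L.g₂ = w ^ 2 * (-8 / 3) := by rw [hg2]; ring
      exact mul_left_cancel₀ (pow_ne_zero 2 hw0) this
    have hg3' : w * L.g₃ = 7 / 27 * (w - 6) := by
      have : w ^ 3 * (w * L.g₃) = w ^ 3 * (7 / 27 * (w - 6)) := by
        linear_combination hg3
      exact mul_left_cancel₀ (pow_ne_zero 3 hw0) this
    refine ⟨L, Om, hL, ?_, ?_⟩
    · rw [hg2', ea2, ea4]
      linear_combination (-16 / 3) * hw2
    · rw [ea2, ea4, ea6]
      apply mul_left_cancel₀ hw0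
      rw [hg3']
      have hd2 : (-1 + 2 * w) ^ 2 = -11 := by linear_combination 4 * hw2
      have e1 : -4 * ((1 - 2 * w) / 4 + 2 * ((-1 + 2 * w) / 3) ^ 3 - -3 * ((-1 + 2 * w) / 3)) =
          7 / 27 * (-1 + 2 * w) := by
        linear_combination (-8 / 27) * (-1 + 2 * w) * hd2
      rw [e1]
      linear_combination (-14 / 27) * hw2

end

end Pool.Agent.MU3A
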