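import Pool.Agent.MU3.StA2

/-!
# MU3, block A: existence of Frobenius automorphisms at degree one primes
-/

set_option autoImplicit false

namespace Pool.Agent.MU3A

open MU3 Pool.Agent.MU3B NumberField Ideal

namespace FEX

lemma nm_mul' {A B : ℤ} (x y : OO A B) : nm (x * y) = nm x * nm y := by
  simp only [nm, QuadraticAlgebra.re_mul, QuadraticAlgebra.im_mul]
  ring

lemma mul_cj {A B : ℤ} (x : OO A B) :
    x * (⟨x.re + B * x.im, -x.im⟩ : OO A B) = ((nm x : ℤ) : OO A B) := by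
  apply QuadraticAlgebra.ext
  · simp only [nm, QuadraticAlgebra.re_mul, QuadraticAlgebra.re_intCast]
    simp
    ring
  · simp only [nm, QuadraticAlgebra.im_mul, QuadraticAlgebra.im_intCast]
    ring

/-- existence of the Frobenius automorphism -/
lemma exists_frob (k F : Type) [Field k] [NumberField k] [Field F] [NumberField F] [Algebra k F]
    [IsGalois k F] (w : Ideal (𝓞 F)) (hw : w.IsPrime) (hb : w ≠ ⊥) (q : ℕ)
    (hq : Nat.card (𝓞 k ⧸ w.under (𝓞 k)) = q) :
    ∃ σ : F ≃ₐ[k] F, ∀ x : 𝓞 F, ∃ y ∈ w, (y : F) = σ x - (x : F) ^ q := by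
  have hwfin : Finite (𝓞 F ⧸ w) := Ideal.finiteQuotientOfFreeOfNeBot w hb
  obtain ⟨σ, hσ⟩ := IsArithFrobAt.exists_of_isInvariant (𝓞 k) Gal(F/k) w
  refine ⟨σ, fun x => ⟨_, hσ x, ?_⟩⟩
  rw [hq]
  change algebraMap (𝓞 F) F (_ - _) = _
  rw [map_sub, map_pow]
  rfl

lemma card_quot {S : Type} [CommRing S] (P : Ideal S) (hP : P ≠ ⊤) (q : ℕ) (hq : q.Prime)
    (h0 : (q : S) ∈ P) (hs : ∀ x : S, ∃ n : ℤ, x - n ∈ P) : Nat.card (S ⧸ P) = q := by
  have hn : Nontrivial (S ⧸ P) := Ideal.Quotient.nontrivial_iff.mpr hP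
  have h1 : ((q : ℕ) : S ⧸ P) = 0 := by
    have := Ideal.Quotient.eq_zero_iff_mem.mpr h0
    simpa using this
  have hc : CharP (S ⧸ P) q := (CharP.charP_iff_prime_eq_zero hq).mpr h1
  have hb : Function.Bijective (ZMod.castHom (dvd_refl q) (S ⧸ P)) := by
    refine ⟨ZMod.castHom_injective _, fun z => ?_⟩
    obtain ⟨x, rfl⟩ := Ideal.Quotient.mk_surjective z
    obtain ⟨n, hn⟩ := hs x
    refine ⟨(n : ZMod q), ?_⟩
    rw [map_intCast]
    have h2 := Ideal.Quotient.eq.mpr hn
    rw [h2]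
    simp
  have := Nat.card_congr (Equiv.ofBijective _ hb)
  rw [← this, Nat.card_zmod]

/-- existence of a prime ideal with Frobenius automorphism, in terms of a surjective ring homomorphism -/
lemma exists_all (k F : Type) [Field k] [NumberField k] [Field F] [NumberField F] [Algebra k F]
    [IsGalois k F] {A B : ℤ} (φ : OO A B →+* 𝓞 k) (hφ : Function.Bijective φ)
    (lam : OO A B) (q : ℕ) (hq : q.Prime) (hlam : nm lam = q) :
    ∃ w : Ideal (𝓞 F), w.IsPrime ∧ w ≠ ⊥ ∧ algebraMap (𝓞 k) (𝓞 F) (φ lam) ∈ w ∧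
      ∃ σ : F ≃ₐ[k] F, ∀ x : 𝓞 F, ∃ y ∈ w, (y : F) = σ x - (x : F) ^ q := by
  have hnu : ¬ IsUnit (φ lam) := by
    intro hu
    obtain ⟨t, ht⟩ := hu.exists_right_inv
    obtain ⟨z, rfl⟩ := hφ.2 t
    rw [← map_mul, ← map_one φ] at ht
    have h1 := hφ.1 ht
    have h2 := congrArg nm h1
    rw [nm_mul', hlam] at h2
    have h3 : nm (1 : OO A B) = 1 := by
      have h4 : (1 : OO A B) = ⟨1, 0⟩ := rfl
      rw [h4]
      simp [nm]
    rw [h3] at h2
    have h4 : (q : ℤ) ∣ 1 := ⟨_, h2.symm⟩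
    exact (Nat.prime_iff_prime_int.mp hq).not_isUnit (isUnit_of_dvd_one h4)
  have hl0 : φ lam ≠ 0 := by
    intro h0
    rw [← map_zero φ] at h0
    have h1 := hφ.1 h0
    rw [h1] at hlam
    simp only [nm, QuadraticAlgebra.re_zero, QuadraticAlgebra.im_zero] at hlam
    have : (q : ℤ) = 0 := by rw [← hlam]; ring
    exact hq.ne_zero (by exact_mod_cast this)
  obtain ⟨p, hp, hmem⟩ := exists_max_ideal_of_mem_nonunits hnu
  have hpb : p ≠ ⊥ := by
    rintro rfl
    exact hl0 (by simpa using hmem)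
  have hpp : p.IsPrime := hp.isPrime
  obtain ⟨⟨w, hw, hwp⟩⟩ := (inferInstance : Nonempty (primesOver p (𝓞 F)))
  have hwb : w ≠ ⊥ := ne_bot_of_liesOver_of_ne_bot hpb w
  refine ⟨w, hw, hwb, ?_, ?_⟩
  · have h1 : φ lam ∈ w.under (𝓞 k) := by rw [← hwp.over]; exact hmem
    exact h1
  · apply exists_frob k F w hw hwb q
    rw [← hwp.over]
    have hqp : (q : 𝓞 k) ∈ p := by
      have h1 := congrArg φ (mul_cj lam)
      rw [map_mul, map_intCast, hlam] at h1
      have h2 : (q : 𝓞 k) = φ lam * φ ⟨lam.re + B * lam.im, -lam.im⟩ := by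
        rw [h1]; push_cast; rfl
      rw [h2]
      exact p.mul_mem_right _ hmem
    refine card_quot p hp.ne_top q hq hqp ?_
    intro x
    obtain ⟨z, rfl⟩ := hφ.2 x
    have hqq : Prime (q : ℤ) := Nat.prime_iff_prime_int.mp hq
    have hd : ¬ (q : ℤ) ∣ lam.im := by
      rintro ⟨d, hd⟩
      have h1 := hlam
      simp only [nm] at h1
      have h2 : (q : ℤ) ∣ lam.re ^ 2 := by
        refine ⟨1 - B * lam.re * d + A * q * d ^ 2, ?_⟩
        rw [hd] at h1
        linear_combination h1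
      obtain ⟨c, hc⟩ := hqq.dvd_of_dvd_pow h2
      have h3 : (q : ℤ) * (q * (c ^ 2 + B * c * d - A * d ^ 2)) = q * 1 := by
        rw [hd, hc] at h1
        linear_combination h1
      have h4 := mul_left_cancel₀ hqq.ne_zero h3
      exact hqq.not_isUnit (isUnit_of_dvd_one ⟨_, h4.symm⟩)
    obtain ⟨s, t, hst⟩ := ((Prime.coprime_iff_not_dvd hqq).mpr hd)
    -- `s q + t d = 1`
    refine ⟨z.re - z.im * t * lam.re, ?_⟩
    have hz : z - ((z.re - z.im * t * lam.re : ℤ) : OO A B) =
        (z.im : OO A B) * ((t : OO A B) * lam + (s : OO A B) * ((q : ℤ) : OO A B) * ⟨0, 1⟩) := by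
      apply QuadraticAlgebra.ext
      · simp [QuadraticAlgebra.re_mul, QuadraticAlgebra.im_mul]
        ring
      · simp [QuadraticAlgebra.re_mul, QuadraticAlgebra.im_mul]
        linear_combination (-z.im) * hst
    have hz2 := congrArg φ hz
    rw [map_sub, map_intCast] at hz2
    rw [hz2, map_mul, map_add, map_mul, map_mul, map_mul, map_intCast φ (q : ℤ)]
    apply p.mul_mem_left
    apply p.add_mem
    · exact p.mul_mem_left _ hmem
    · apply p.mul_mem_right
      apply p.mul_mem_left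
      simpa using hqp

end FEX

open FEX in
theorem ta_FEX (h1 : Sa_INT) : Sa_FEX := by
  intro A B hAB F _ _ lam q hq hlam
  obtain ⟨hfd, -, -, hint⟩ := h1 A B hAB
  have hk : NumberField (kk A B) := ⟨⟩
  have hFQ : FiniteDimensional ℚ F := FiniteDimensional.trans ℚ (kk A B) F
  have hF : NumberField F := ⟨⟩
  have hI : ∀ x : OO A B, IsIntegral ℤ (ek x) := by
    intro x
    have h2 : IsIntegral ℤ (emb x) := (hint (emb x) (emb_mem x)).mpr ⟨x, rfl⟩
    have h3 : algebraMap (kk A B) ℂ (ek x) = emb x := rfl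
    rw [← h3] at h2
    exact (isIntegral_algebraMap_iff (FaithfulSMul.algebraMap_injective (kk A B) ℂ)).mp h2
  let φ : OO A B →+* 𝓞 (kk A B) :=
    { toFun := fun x => ⟨ek x, hI x⟩
      map_one' := by
        apply RingOfIntegers.ext
        apply Subtype.ext
        exact emb_one hAB
      map_mul' := fun x y => by
        apply RingOfIntegers.ext
        apply Subtype.ext
        exact emb_mul hAB x y
      map_zero' := by
        apply RingOfIntegers.ext
        apply Subtype.ext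
        exact emb_zero hAB
      map_add' := fun x y => by
        apply RingOfIntegers.ext
        apply Subtype.ext
        exact emb_add hAB x y }
  have hφv : ∀ x : OO A B, (((φ x : kk A B)) : ℂ) = emb x := fun x => rfl
  have hφ : Function.Bijective φ := by
    constructor
    · intro x y hxy
      apply emb_inj hAB
      rw [← hφv x, ← hφv y, hxy]
    · intro y
      have h2 : IsIntegral ℤ ((y : kk A B) : ℂ) :=
        (RingOfIntegers.isIntegral_coe y).map (Algebra.ofId (kk A B) ℂ |>.restrictScalars ℤ)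
      obtain ⟨x, hx⟩ := (hint _ (y : kk A B).2).mp h2
      refine ⟨x, ?_⟩
      apply RingOfIntegers.ext
      apply Subtype.ext
      rw [hφv, hx]
  obtain ⟨w, hw, hwb, hmem, σ, hσ⟩ := exists_all (kk A B) F φ hφ lam q hq hlam
  exact ⟨w, hw, hwb, ⟨_, hmem, rfl⟩, σ, hσ⟩

end Pool.Agent.MU3A
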