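import Pool.Agent.MU3.StA2

/-!
# MU3, block A: multiplication by `- ppi` is the Frobenius modulo `ppi`
-/

set_option autoImplicit false

namespace Pool.Agent.MU3A

open MU3 Pool.Agent.MU3B Polynomial NumberField

noncomputable section

namespace FR3

lemma nu_iff (V : ValuationSubring ℂ) (a : ℂ) : a ∈ V.nonunits ↔ V.valuation a < 1 :=
  ValuationSubring.mem_nonunits_iff V

lemma mem_iff (V : ValuationSubring ℂ) (a : ℂ) : a ∈ V ↔ V.valuation a ≤ 1 :=
  (V.valuation_le_one_iff a).symm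

/-- the product of an element of the maximal ideal and one of the ring -/
lemma mul_nu (V : ValuationSubring ℂ) {a b : ℂ} (ha : a ∈ V.nonunits) (hb : b ∈ V) :
    a * b ∈ V.nonunits := by
  rw [nu_iff] at ha ⊢
  rw [mem_iff] at hb
  rw [map_mul]
  exact mul_lt_one_of_lt_of_le ha hb

lemma sub_nu (V : ValuationSubring ℂ) {a b : ℂ} (ha : a ∈ V.nonunits) (hb : b ∈ V.nonunits) :
    a - b ∈ V.nonunits := by
  rw [nu_iff] at ha hb ⊢
  exact lt_of_le_of_lt (Valuation.map_sub _ _ _) (max_lt ha hb)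

lemma one_not_nu (V : ValuationSubring ℂ) : (1 : ℂ) ∉ V.nonunits := by
  rw [nu_iff, map_one]
  exact lt_irrefl _

/-- `D ≡ -1`: its inverse is in the ring -/
lemma inv_mem (V : ValuationSubring ℂ) {p d : ℂ} (hp : p ∈ V.nonunits) (hd : d ∈ V) :
    p * d - 1 ≠ 0 ∧ (p * d - 1)⁻¹ ∈ V := by
  have h1 := mul_nu V hp hd
  have h2 : p * d - 1 ≠ 0 := fun h0 => by
    have : p * d = 1 := by linear_combination h0
    rw [this] at h1
    exact one_not_nu V h1
  refine ⟨h2, ?_⟩
  rw [mem_iff, map_inv₀]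
  have h3 : ¬ V.valuation (p * d - 1) < 1 := fun h4 => by
    have h5 := sub_nu V h1 ((nu_iff V _).2 h4)
    have : p * d - (p * d - 1) = 1 := by ring
    rw [this] at h5
    exact one_not_nu V h5
  rw [not_lt] at h3
  exact inv_le_one_of_one_le₀ h3

lemma key (V : ValuationSubring ℂ) {p d n m x y X Y : ℂ} (hp : p ∈ V.nonunits) (hd : d ∈ V)
    (hn : n ∈ V) (hm : m ∈ V) (hx : x ∈ V) (hy : y ∈ V)
    (hX : X * (p * d - 1) ^ 2 = x ^ 3 + p * n)
    (hY : Y * (p * d - 1) ^ 3 = y * (y ^ 2 + p * m)) :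
    X - x ^ 3 ∈ V.nonunits ∧ -Y - y ^ 3 ∈ V.nonunits := by
  obtain ⟨h0, hi⟩ := inv_mem V hp hd
  have hpV : p ∈ V := V.nonunits_subset hp
  have h1 : (1 : ℂ) ∈ V := one_mem V
  have h2 : (2 : ℂ) ∈ V := by
    have e : (2 : ℂ) = 1 + 1 := by norm_num
    rw [e]
    exact add_mem h1 h1
  have h3 : (3 : ℂ) ∈ V := by
    have e : (3 : ℂ) = 1 + 2 := by norm_num
    rw [e]
    exact add_mem h1 h2
  constructor
  · have e : X - x ^ 3 = p * ((n - x ^ 3 * (p * d ^ 2 - 2 * d)) * ((p * d - 1)⁻¹) ^ 2) := by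
      field_simp
      linear_combination hX
    rw [e]
    exact mul_nu V hp (mul_mem (sub_mem hn (mul_mem (pow_mem hx 3)
      (sub_mem (mul_mem hpV (pow_mem hd 2)) (mul_mem h2 hd)))) (pow_mem hi 2))
  · have e : -Y - y ^ 3 = p * (-(y * m + y ^ 3 * (p ^ 2 * d ^ 3 - 3 * p * d ^ 2 + 3 * d)) *
        ((p * d - 1)⁻¹) ^ 3) := by
      field_simp
      linear_combination -hY
    rw [e]
    refine mul_nu V hp (mul_mem (neg_mem (add_mem (mul_mem hy hm) (mul_mem (pow_mem hy 3)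
      (add_mem (sub_mem (mul_mem (pow_mem hpV 2) (pow_mem hd 3))
        (mul_mem (mul_mem h3 hpV) (pow_mem hd 2))) (mul_mem h3 hd))))) (pow_mem hi 3))

lemma quarter_mem (V : ValuationSubring ℂ) (h : (3 : ℂ) ∈ V.nonunits) : (1 / 4 : ℂ) ∈ V := by
  have h1 := (inv_mem V h (neg_mem (one_mem V))).2
  have h2 := neg_mem h1
  have e : -((3 : ℂ) * -1 - 1)⁻¹ = 1 / 4 := by norm_num
  rwa [e] at h2

lemma sqrt_mem (V : ValuationSubring ℂ) {y : ℂ} (h : y ^ 2 ∈ V) : y ∈ V := by
  rw [mem_iff, map_pow] at h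
  rw [mem_iff]
  exact (pow_le_one_iff_of_nonneg zero_le (by norm_num)).1 h

end FR3

open FR3 in
theorem ta_FR3 (h1 : Sa_V3) (h2 : Sa_N8P) (h3 : Sa_N11) (h4 : Sa_EQN) : Sa_FR3 := by
  intro A B L Om hAB hL V hV z hz hxV
  obtain ⟨hV1, hV3, -, -⟩ := h1 A B hAB V hV
  obtain ⟨heq, -, hpar, -⟩ := h4 A B L Om hAB hL
  have hE := heq z hz
  have hq := quarter_mem V hV3
  have hwV : wC A B ∈ V := by
    rw [← emb_w]
    exact hV1 _
  have hyV : yy L z ∈ V := by
    apply sqrt_mem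
    rw [hE]
    have e : emb (a6 A B) / 4 = emb (a6 A B) * (1 / 4) := by ring
    rw [e]
    exact add_mem (add_mem (add_mem (pow_mem hxV 3) (mul_mem (hV1 _) (pow_mem hxV 2)))
      (mul_mem (hV1 _) hxV)) (mul_mem (hV1 _) hq)
  have hneg : emb (-ppi A B) * z = -(emb (ppi A B) * z) := by
    rw [emb_neg hAB]
    ring
  refine ⟨hyV, ?_⟩
  rw [hneg, (hpar _).1, (hpar _).2]
  have hone := one_mem V
  have hint : ∀ n : ℤ, (n : ℂ) ∈ V := fun n => by
    rw [← emb_intCast hAB]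
    exact hV1 _
  rcases hAB with ⟨rfl, rfl⟩ | ⟨rfl, rfl⟩
  · have hw := wC_sq (A := -2) (B := 0) (Or.inl ⟨rfl, rfl⟩)
    obtain ⟨hI, -⟩ := h2 L Om hL
    have hp : ppi (-2) 0 = (⟨1, 1⟩ : OO (-2) 0) := by simp [ppi]
    rw [hp] at hV ⊢
    have ep : emb (⟨1, 1⟩ : OO (-2) 0) = 1 + wC (-2) 0 := by simp [emb]
    have hk := hI.ker z hz
    have hx := hI.x z
    have hy := hI.y z
    set w : ℂ := wC (-2) 0 with hwd
    set x : ℂ := xx (-2) 0 L z with hxd
    set y : ℂ := yy L z with hyd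
    have eD : emb (⟨1, 1⟩ : OO (-2) 0) * x + emb (⟨0, 1⟩ : OO (-2) 0) =
        (1 + w) * (x + 1) - 1 := by
      rw [ep]
      simp only [emb]
      push_cast
      ring
    rw [eD] at hk hx hy
    have hD := inv_mem V (p := 1 + w) (d := x + 1) (ep ▸ hV) (add_mem hxV hone)
    have hnm : emb (⟨1, 1⟩ : OO (-2) 0) * z ∉ L.lattice := fun h => hD.1 (hk.1 h)
    have hx' := hx hnm
    have hy' := hy hnm
    refine key V (ep ▸ hV : (1 + w) ∈ V.nonunits) (add_mem hxV hone)
      (n := -2 * w * x ^ 2 - 2 * (1 + w) * x) (m := w * x ^ 2 + 4 * x - 2 * w) ?_ ?_ hxV hyV ?_ ?_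
    · have := hint (-2)
      have h2' := hint 2
      push_cast at this h2'
      exact sub_mem (mul_mem (mul_mem this hwV) (pow_mem hxV 2))
        (mul_mem (mul_mem h2' (add_mem hone hwV)) hxV)
    · have h4' := hint 4
      have h2' := hint 2
      push_cast at h4' h2'
      exact sub_mem (add_mem (mul_mem hwV (pow_mem hxV 2)) (mul_mem h4' hxV)) (mul_mem h2' hwV)
    · rw [hx']
      simp only [emb, ← hwd]
      simp only [QuadraticAlgebra.re_zero, QuadraticAlgebra.im_zero]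
      push_cast at hw ⊢
      linear_combination (2 * x ^ 2 + 2 * x) * hw
    · have c2 : emb (a2 (-2) 0) = 4 := by
        have := emb_intCast (A := -2) (B := 0) (Or.inl ⟨rfl, rfl⟩) 4
        simpa [a2] using this
      have c4 : emb (a4 (-2) 0) = 2 := by
        have := emb_intCast (A := -2) (B := 0) (Or.inl ⟨rfl, rfl⟩) 2
        simpa [a4] using this
      have c6 : emb (a6 (-2) 0) = 0 := by
        have := emb_zero (A := -2) (B := 0) (Or.inl ⟨rfl, rfl⟩)
        simpa [a6] using this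
      rw [hy', hE, c2, c4, c6]
      simp only [emb, ← hwd]
      push_cast at hw ⊢
      linear_combination (y * (2 - x ^ 2)) * hw
  · have hw := wC_sq (A := -3) (B := 1) (Or.inr ⟨rfl, rfl⟩)
    have hI := h3 L Om hL
    have hp : ppi (-3) 1 = (⟨0, 1⟩ : OO (-3) 1) := by simp [ppi]
    rw [hp] at hV ⊢
    have ep : emb (⟨0, 1⟩ : OO (-3) 1) = wC (-3) 1 := by simp [emb]
    have hk := hI.ker z hz
    have hx := hI.x z
    have hy := hI.y z
    set w : ℂ := wC (-3) 1 with hwd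
    set x : ℂ := xx (-3) 1 L z with hxd
    set y : ℂ := yy L z with hyd
    have e1 : emb (-1 : OO (-3) 1) = -1 := by
      rw [emb_neg (Or.inr ⟨rfl, rfl⟩), emb_one (Or.inr ⟨rfl, rfl⟩)]
    have e1' : emb (1 : OO (-3) 1) = 1 := emb_one (Or.inr ⟨rfl, rfl⟩)
    have eD : emb (⟨0, 1⟩ : OO (-3) 1) * x + emb (-1 : OO (-3) 1) =
        w * x - 1 := by
      rw [ep, e1]
      ring
    rw [eD] at hk hx hy
    have hD := inv_mem V (p := w) (d := x) (ep ▸ hV) hxV
    have hnm : emb (⟨0, 1⟩ : OO (-3) 1) * z ∉ L.lattice := fun h => hD.1 (hk.1 h)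
    have hx' := hx hnm
    have hy' := hy hnm
    refine key V (ep ▸ hV : w ∈ V.nonunits) hxV
      (n := 3 * x ^ 2 + (2 * w - 1) * x - 1) (m := -x ^ 2 - w * x + (3 - w) * (1 / 4)) ?_ ?_
      hxV hyV ?_ ?_
    · have h3' := hint 3
      have h2' := hint 2
      push_cast at h3' h2'
      exact sub_mem (add_mem (mul_mem h3' (pow_mem hxV 2))
        (mul_mem (sub_mem (mul_mem h2' hwV) hone) hxV)) hone
    · have h3' := hint 3
      push_cast at h3'
      exact add_mem (sub_mem (neg_mem (pow_mem hxV 2)) (mul_mem hwV hxV))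
        (mul_mem (sub_mem h3' hwV) hq)
    · rw [hx']
      simp only [emb, ← hwd]
      push_cast at hw ⊢
      linear_combination (-2 * x) * hw
    · have c2 : emb (a2 (-3) 1) = -1 + 2 * w := by
        simp [a2, emb, ← hwd]
      have c4 : emb (a4 (-3) 1) = -3 := by
        have := emb_intCast (A := -3) (B := 1) (Or.inr ⟨rfl, rfl⟩) (-3)
        push_cast at this
        simpa [a4] using this
      have c6 : emb (a6 (-3) 1) = 1 - 2 * w := by
        simp [a6, emb, ← hwd]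
        ring
      rw [hy', hE, c2, c4, c6, e1']
      simp only [emb, ← hwd]
      push_cast at hw ⊢
      linear_combination (y * x + y / 4) * hw

end

end Pool.Agent.MU3A
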