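import Pool.Agent.MU3.StA2

/-!
# MU3, block A: module GAL (embeddings over `k` act on `E[m]` as elements of `O`)
-/

set_option autoImplicit false

namespace Pool.Agent.MU3A

open MU3 Pool.Agent.MU3B Polynomial NumberField WeierstrassCurve

noncomputable section

/-- abstract form: two additive maps on torsion points and a point `u` generating them -/
theorem gal_aux (hX : Sa_XI) (hO : Sa_OMU) :
    ∀ (A B : ℤ) (L : PeriodPair) (Om : ℂ), Case A B → IsCM A B L Om →
    ∀ m : OO A B, m ≠ 0 → ∀ F : IntermediateField (kk A B) ℂ, TF L m ≤ F →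
      ∀ σ : F →ₐ[kk A B] ℂ, ∃ a : OO A B, ∀ z : ℂ, emb m * z ∈ L.lattice → z ∉ L.lattice →
    emb a * z ∉ L.lattice ∧
    (∀ hx : xx A B L z ∈ F, σ ⟨xx A B L z, hx⟩ = xx A B L (emb a * z)) ∧
    ∀ hy : yy L z ∈ F, σ ⟨yy L z, hy⟩ = yy L (emb a * z) := by
  intro A B L Om h hL m hm F hF σ
  obtain ⟨ξ, hξ0, hξs, hξ⟩ := hX A B L Om h hL
  obtain ⟨D, N, E, M, hO⟩ := hO A B h
  replace hO := hO L Om hL
  have hxF : ∀ z, emb m * z ∈ L.lattice → z ∉ L.lattice → xx A B L z ∈ F := fun z h1 h2 =>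
    hF (IntermediateField.subset_adjoin _ _ ⟨z, h1, h2, Or.inl rfl⟩)
  have hyF : ∀ z, emb m * z ∈ L.lattice → z ∉ L.lattice → yy L z ∈ F := fun z h1 h2 =>
    hF (IntermediateField.subset_adjoin _ _ ⟨z, h1, h2, Or.inr rfl⟩)
  let T : AddSubgroup ℂ :=
    { carrier := {z | emb m * z ∈ L.lattice}
      add_mem' := fun {a b} ha hb => by
        simp only [Set.mem_ofPred_eq] at *
        rw [mul_add]; exact add_mem ha hb
      zero_mem' := by simp
      neg_mem' := fun {a} ha => by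
        simp only [Set.mem_ofPred_eq] at *
        rw [mul_neg]; exact neg_mem ha }
  have hT : ∀ z : ℂ, z ∈ T ↔ emb m * z ∈ L.lattice := fun z => Iff.rfl
  let μ : (Affine.baseChange (EE A B) F).Point →+ (Affine.baseChange (EE A B) ℂ).Point := Affine.Point.map (W' := EE A B) F.val
  have hμ : Function.Injective μ := Affine.Point.map_injective _
  let ν : (Affine.baseChange (EE A B) F).Point →+ (Affine.baseChange (EE A B) ℂ).Point := Affine.Point.map (W' := EE A B) σ
  have hν : Function.Injective ν := Affine.Point.map_injective _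
  -- the points over `F`
  have hp : ∀ z : T, ∃ P : (Affine.baseChange (EE A B) F).Point, μ P = ξ z := by
    rintro ⟨z, hz⟩
    by_cases hzL : z ∈ L.lattice
    · exact ⟨0, by rw [map_zero]; exact ((hξ0 z).2 hzL).symm⟩
    · obtain ⟨hn, hn'⟩ := hξ z hzL
      have hn2 : (Affine.baseChange (EE A B) F).Nonsingular (⟨xx A B L z, hxF z hz hzL⟩ : F)
          (⟨yy L z, hyF z hz hzL⟩ : F) :=
        (Affine.baseChange_nonsingular (EE A B) (F.val).injective _ _).1 hn
      exact ⟨.some _ _ hn2, by rw [hn']; rfl⟩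
  choose p hp using hp
  have padd : ∀ z z' : T, p (z + z') = p z + p z' := fun z z' => hμ (by
    rw [map_add, hp, hp, hp, ← map_add]; rfl)
  let s : T →+ (Affine.baseChange (EE A B) ℂ).Point := AddMonoidHom.mk' (fun z => ν (p z)) (fun a b => by
    rw [padd, map_add])
  have hs : ∀ z : T, s z = ν (p z) := fun _ => rfl
  have s0 : ∀ z : T, s z = 0 ↔ (z : ℂ) ∈ L.lattice := by
    intro z
    rw [hs, map_eq_zero_iff ν hν, ← map_eq_zero_iff μ hμ, hp, hξ0]
  have ssome : ∀ (z : T) (hz : (z : ℂ) ∉ L.lattice), ∃ h,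
      s z = .some (σ ⟨xx A B L z, hxF z z.2 hz⟩) (σ ⟨yy L z, hyF z z.2 hz⟩) h := by
    intro z hz
    obtain ⟨hn, hn'⟩ := hξ z hz
    have hn2 : (Affine.baseChange (EE A B) F).Nonsingular (⟨xx A B L z, hxF z z.2 hz⟩ : F)
        (⟨yy L z, hyF z z.2 hz⟩ : F) :=
      (Affine.baseChange_nonsingular (EE A B) (F.val).injective _ _).1 hn
    have h2 : p z = .some _ _ hn2 := hμ (by rw [hp, hn']; rfl)
    exact ⟨(Affine.baseChange_nonsingular (EE A B) σ.injective _ _).2 hn2, by rw [hs, h2]; rfl⟩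
  -- comparison with `ξ`
  have cmp : ∀ (z : T) (t : ℂ), ξ t = s z → ∀ hz : (z : ℂ) ∉ L.lattice, t ∉ L.lattice ∧
      xx A B L t = σ ⟨xx A B L z, hxF z z.2 hz⟩ ∧ yy L t = σ ⟨yy L z, hyF z z.2 hz⟩ := by
    intro z t ht hz
    have ht' : t ∉ L.lattice := fun h0 => hz ((s0 z).1 (by rw [← ht]; exact (hξ0 t).2 h0))
    obtain ⟨h1, h1'⟩ := hξ t ht'
    obtain ⟨h2, h2'⟩ := ssome z hz
    rw [h1', h2'] at ht
    injection ht with e1 e2
    exact ⟨ht', e1, e2⟩
  have wT : ∀ z : T, wC A B * z ∈ T := fun z => by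
    rw [hT, mul_left_comm]; exact hL.mul_mem_w h z.2
  have hev : ∀ (z : T) (t : ℂ) (hz : (z : ℂ) ∉ L.lattice)
      (_ : xx A B L t = σ ⟨xx A B L z, hxF z z.2 hz⟩) (P : (kk A B)[X]),
      aeval (xx A B L t) P = σ (aeval (⟨xx A B L z, hxF z z.2 hz⟩ : F) P) := by
    intro z t hz e P
    rw [e, Polynomial.aeval_algHom_apply]
  have hev' : ∀ (z : T) (hz : (z : ℂ) ∉ L.lattice) (P : (kk A B)[X]),
      ((aeval (⟨xx A B L z, hxF z z.2 hz⟩ : F) P : F) : ℂ) = aeval (xx A B L z) P := by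
    intro z hz P
    exact (Polynomial.aeval_algHom_apply F.val (⟨xx A B L z, hxF z z.2 hz⟩ : F) P).symm
  have key : ∀ (z : T) (t : ℂ), ξ t = s z → ξ (wC A B * t) = s ⟨wC A B * z, wT z⟩ := by
    intro z t ht
    by_cases hz : (z : ℂ) ∈ L.lattice
    · have h1 : t ∈ L.lattice := (hξ0 t).1 (by rw [ht]; exact (s0 z).2 hz)
      rw [(hξ0 _).2 (hL.mul_mem_w h h1), (s0 _).2 (hL.mul_mem_w h hz)]
    · obtain ⟨ht', ex, ey⟩ := cmp z t ht hz
      obtain ⟨z1, z2⟩ := hO z hz
      obtain ⟨t1, t2⟩ := hO t ht'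
      by_cases hwz : wC A B * (z : ℂ) ∈ L.lattice
      · have h1 : aeval (xx A B L t) D = 0 := by
          rw [hev z t hz ex D]
          have : (aeval (⟨xx A B L z, hxF z z.2 hz⟩ : F) D : F) = 0 :=
            Subtype.ext (by rw [hev' z hz D]; exact z1 hwz)
          rw [this, map_zero]
        have h2 : wC A B * t ∈ L.lattice := by
          by_contra hc
          exact (t2 hc).1 h1
        rw [(hξ0 _).2 h2, (s0 _).2 hwz]
      · obtain ⟨d1, d2, d3, d4⟩ := z2 hwz
        have hne : ∀ P : (kk A B)[X], aeval (xx A B L z) P ≠ 0 → aeval (xx A B L t) P ≠ 0 := by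
          intro P hP h0
          rw [hev z t hz ex P] at h0
          have h0' := (map_eq_zero_iff σ σ.injective).1 h0
          exact hP (by rw [← hev' z hz P, h0']; rfl)
        have hwt : wC A B * t ∉ L.lattice := fun hc => hne D d1 (t1 hc)
        obtain ⟨f1, f2, f3, f4⟩ := t2 hwt
        obtain ⟨n1, n1'⟩ := hξ _ hwt
        obtain ⟨n2, n2'⟩ := ssome ⟨wC A B * z, wT z⟩ hwz
        have hX : xx A B L (wC A B * t) = σ ⟨xx A B L (wC A B * z), hxF _ (wT z) hwz⟩ := by
          refine mul_right_cancel₀ f1 ?_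
          rw [f3, hev z t hz ex N, hev z t hz ex D, ← map_mul]
          congr 1
          refine Subtype.ext ?_
          push_cast
          rw [hev' z hz N, hev' z hz D]
          exact d3.symm
        have hY : yy L (wC A B * t) = σ ⟨yy L (wC A B * z), hyF _ (wT z) hwz⟩ := by
          refine mul_right_cancel₀ f2 ?_
          rw [f4, hev z t hz ex M, hev z t hz ex E, ey, ← map_mul, ← map_mul]
          congr 1
          refine Subtype.ext ?_
          push_cast
          rw [hev' z hz M, hev' z hz E]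
          exact d4.symm
        rw [n1', n2']
        congr 1
  have embT : ∀ (b : OO A B) (z : T), emb b * z ∈ T := fun b z => by
    rw [hT, mul_left_comm]; exact hL.emb_mul_mem h b z.2
  have lin : ∀ (b : OO A B) (z : T) (t : ℂ), ξ t = s z →
      ξ (emb b * t) = s ⟨emb b * z, embT b z⟩ := by
    intro b z t ht
    have e1 : emb b * t = b.re • t + b.im • (wC A B * t) := by
      simp only [emb, zsmul_eq_mul]; ring
    have e2 : (⟨emb b * z, embT b z⟩ : T) = b.re • z + b.im • ⟨wC A B * z, wT z⟩ := by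
      refine Subtype.ext ?_
      push_cast
      simp only [emb, zsmul_eq_mul]; ring
    rw [e1, e2, map_add, map_add, map_zsmul, map_zsmul, map_zsmul, map_zsmul, ht, key z t ht]
  -- the generator
  have uT : Om / emb m ∈ T := by
    rw [hT]
    have := (hL.torsion_iff h hm (Om / emb m)).2 ⟨1, by rw [emb_one h]; ring⟩
    exact this
  obtain ⟨t, ht⟩ := hξs (s ⟨Om / emb m, uT⟩)
  have htT : emb m * t ∈ L.lattice := by
    rw [← hξ0, lin m _ t ht, s0]
    exact uT
  obtain ⟨a, ha⟩ := (hL.torsion_iff h hm t).1 htT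
  refine ⟨a, fun z hz hzL => ?_⟩
  obtain ⟨b, hb⟩ := (hL.torsion_iff h hm z).1 hz
  have h1 : ξ (emb a * z) = s ⟨z, hz⟩ := by
    have h2 := lin b ⟨Om / emb m, uT⟩ t ht
    have h3 : (⟨emb b * ((⟨Om / emb m, uT⟩ : T) : ℂ), embT b ⟨Om / emb m, uT⟩⟩ : T) = ⟨z, hz⟩ :=
      Subtype.ext hb.symm
    rw [h3] at h2
    rw [← h2, hb, ha]
    congr 1
    ring
  obtain ⟨c1, c2, c3⟩ := cmp ⟨z, hz⟩ _ h1 hzL
  exact ⟨c1, fun _ => c2.symm, fun _ => c3.symm⟩

theorem ta_GAL (hX : Sa_XI) (hO : Sa_OMU) (hP : Sa_PID) : Sa_GAL := by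
  intro A B L Om h hL m hm F hF σ
  obtain ⟨a, ha⟩ := gal_aux hX hO A B L Om h hL m hm F hF σ
  obtain ⟨hd, hpi, -⟩ := hP A B h
  refine ⟨a, ?_, ha⟩
  refine isCoprime_of_irreducible_dvd (fun h0 => hm h0.2) ?_
  rintro d hdi ⟨a', rfl⟩ ⟨m', hm'⟩
  have hm'0 : m' ≠ 0 := by
    rintro rfl
    exact hm (by rw [hm', mul_zero])
  have h1 : emb m' * (Om / emb m) ∉ L.lattice := by
    rw [hL.mul_div_mem_iff h hm, hm']
    rintro ⟨k, hk⟩
    refine hdi.not_isUnit (IsUnit.of_mul_eq_one k ?_)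
    have : m' * (d * k) = m' * 1 := by
      rw [mul_one]; conv_rhs => rw [hk]
      ring
    exact mul_left_cancel₀ hm'0 this
  have h2 : emb m * (emb m' * (Om / emb m)) ∈ L.lattice :=
    (hL.torsion_iff h hm _).2 ⟨m', rfl⟩
  refine (ha _ h2 h1).1 ?_
  have h3 : emb (d * a') * (emb m' * (Om / emb m)) = emb (a' * m) * (Om / emb m) := by
    rw [hm', emb_mul h, emb_mul h a', emb_mul h d m']; ring
  rw [h3, hL.mul_div_mem_iff h hm]
  exact dvd_mul_left _ _

end

end Pool.Agent.MU3A
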