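import Pool.Agent.MU3.StA2

/-!
# MU3, block A: module M11 (helper50)
-/

set_option autoImplicit false

namespace Pool.Agent.MU3A

open MU3 Pool.Agent.MU3B Polynomial NumberField

noncomputable section

namespace M11

/-- Vieta. -/
theorem vieta {a b c e1 e2 e3 : ℂ} (h1 : e1 ^ 3 + a * e1 ^ 2 + b * e1 + c = 0)
    (h2 : e2 ^ 3 + a * e2 ^ 2 + b * e2 + c = 0) (h3 : e3 ^ 3 + a * e3 ^ 2 + b * e3 + c = 0)
    (h12 : e1 ≠ e2) (h13 : e1 ≠ e3) (h23 : e2 ≠ e3) :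
    a = -(e1 + e2 + e3) ∧ b = e1 * e2 + e1 * e3 + e2 * e3 ∧ c = -(e1 * e2 * e3) := by
  have d12 : e1 - e2 ≠ 0 := sub_ne_zero.2 h12
  have d13 : e1 - e3 ≠ 0 := sub_ne_zero.2 h13
  have d23 : e2 - e3 ≠ 0 := sub_ne_zero.2 h23
  have k12 : e1 ^ 2 + e1 * e2 + e2 ^ 2 + a * (e1 + e2) + b = 0 := by
    apply mul_left_cancel₀ d12
    linear_combination h1 - h2
  have k13 : e1 ^ 2 + e1 * e3 + e3 ^ 2 + a * (e1 + e3) + b = 0 := by
    apply mul_left_cancel₀ d13
    linear_combination h1 - h3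
  have k : e1 + e2 + e3 + a = 0 := by
    apply mul_left_cancel₀ d23
    linear_combination k12 - k13
  have ha : a = -(e1 + e2 + e3) := by linear_combination k
  have hb : b = e1 * e2 + e1 * e3 + e2 * e3 := by
    rw [ha] at k12
    linear_combination k12
  refine ⟨ha, hb, ?_⟩
  rw [ha, hb] at h1
  linear_combination h1

/-- The halving formula. -/
theorem half {a b c e1 e2 e3 x y : ℂ} (ha : a = -(e1 + e2 + e3))
    (hb : b = e1 * e2 + e1 * e3 + e2 * e3) (hc : c = -(e1 * e2 * e3)) (hy : y ≠ 0)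
    (heq : y ^ 2 = x ^ 3 + a * x ^ 2 + b * x + c)
    (h : e1 = ((3 * x ^ 2 + 2 * a * x + b) / (2 * y)) ^ 2 - a - 2 * x) :
    (x - e1) ^ 2 = (e1 - e2) * (e1 - e3) := by
  have h2 : (e1 + a + 2 * x) * (4 * y ^ 2) = (3 * x ^ 2 + 2 * a * x + b) ^ 2 := by
    have h3 : e1 + a + 2 * x = ((3 * x ^ 2 + 2 * a * x + b) / (2 * y)) ^ 2 := by
      linear_combination h
    rw [h3]
    field_simp
    ring
  rw [heq, ha, hb, hc] at h2
  have h4 : ((x - e1) ^ 2 - (e1 - e2) * (e1 - e3)) ^ 2 = 0 := by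
    linear_combination -h2
  have h5 := pow_eq_zero_iff (two_ne_zero) |>.1 h4
  linear_combination h5

/-- The algebraic part. -/
theorem alg {k : Type} [Field k] [Algebra k ℂ] (F : IntermediateField k ℂ)
    {δ e1 e2 e3 p1 p2 p3 y : ℂ} (hδ : δ ^ 2 = -11)
    (ha : δ = -(e1 + e2 + e3)) (hb : -3 = e1 * e2 + e1 * e3 + e2 * e3)
    (hc : -δ / 4 = -(e1 * e2 * e3)) (h12 : e1 ≠ e2) (h13 : e1 ≠ e3) (h23 : e2 ≠ e3)
    (m1 : e1 ∈ F) (m2 : e2 ∈ F) (m3 : e3 ∈ F) (n1 : p1 ∈ F) (n2 : p2 ∈ F) (n3 : p3 ∈ F)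
    (r1 : (p1 - e1) ^ 2 = (e1 - e2) * (e1 - e3)) (r2 : (p2 - e2) ^ 2 = (e2 - e1) * (e2 - e3))
    (r3 : (p3 - e3) ^ 2 = (e3 - e1) * (e3 - e2))
    (hy : y ^ 2 = (p1 - e1) * (p1 - e2) * (p1 - e3)) : y ∈ F := by
  have d12 : e1 - e2 ≠ 0 := sub_ne_zero.2 h12
  have d13 : e1 - e3 ≠ 0 := sub_ne_zero.2 h13
  have d23 : e2 - e3 ≠ 0 := sub_ne_zero.2 h23
  have q1 : p1 - e1 ∈ F := sub_mem n1 m1
  have q2 : p2 - e2 ∈ F := sub_mem n2 m2
  have q3 : p3 - e3 ∈ F := sub_mem n3 m3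
  set d : ℂ := (e1 - e2) * (e2 - e3) * (e3 - e1) with hd
  have d0 : d ≠ 0 := by
    rw [hd]
    refine mul_ne_zero (mul_ne_zero d12 d23) ?_
    intro h
    apply d13
    linear_combination -h
  have hdF : d ∈ F := mul_mem (mul_mem (sub_mem m1 m2) (sub_mem m2 m3)) (sub_mem m3 m1)
  -- the discriminant
  have hdisc : d ^ 2 = 1 / 16 := by
    have g : d ^ 2 = (-(e1 + e2 + e3)) ^ 2 * (e1 * e2 + e1 * e3 + e2 * e3) ^ 2 -
        4 * (e1 * e2 + e1 * e3 + e2 * e3) ^ 3 -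
        4 * (-(e1 + e2 + e3)) ^ 3 * (-(e1 * e2 * e3)) - 27 * (-(e1 * e2 * e3)) ^ 2 +
        18 * (-(e1 + e2 + e3)) * (e1 * e2 + e1 * e3 + e2 * e3) * (-(e1 * e2 * e3)) := by
      rw [hd]; ring
    rw [← ha, ← hb, ← hc] at g
    rw [g]
    linear_combination (δ ^ 2 + 9 - 11 - 27 / 16 + 54 / 4) * hδ
  have hfac : (d - 1 / 4) * (d + 1 / 4) = 0 := by linear_combination hdisc
  -- a square root of `-1`
  set i : ℂ := (p1 - e1) * (p2 - e2) * (p3 - e3) / d with hi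
  have hiF : i ∈ F := div_mem (mul_mem (mul_mem q1 q2) q3) hdF
  have hi2 : i ^ 2 = -1 := by
    rw [hi, div_pow, mul_pow, mul_pow, r1, r2, r3, div_eq_iff (pow_ne_zero 2 d0), hd]
    ring
  -- a square root of `d`
  have hhalf : (1 / 2 : ℂ) ∈ F := by
    have h1 : (1 : ℂ) ∈ F := one_mem F
    have h2 : (2 : ℂ) ∈ F := by
      have := add_mem h1 h1
      rwa [one_add_one_eq_two] at this
    exact div_mem h1 h2
  obtain ⟨s, hsF, hs⟩ : ∃ s ∈ F, s ^ 2 = d := by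
    rcases mul_eq_zero.1 hfac with h | h
    · refine ⟨1 / 2, hhalf, ?_⟩
      linear_combination -h
    · refine ⟨i * (1 / 2), mul_mem hiF hhalf, ?_⟩
      rw [mul_pow, hi2]
      linear_combination -h
  have r20 : p2 - e2 ≠ 0 := by
    intro h
    rw [h] at r2
    have h3 : (e2 - e1) * (e2 - e3) = 0 := by rw [← r2]; ring
    rcases mul_eq_zero.1 h3 with h4 | h4
    · exact d12 (by linear_combination -h4)
    · exact d23 h4
  set β : ℂ := s / (p2 - e2) with hβ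
  have hβF : β ∈ F := div_mem hsF q2
  have hβ2 : β ^ 2 = e1 - e3 := by
    rw [hβ, div_pow, hs, r2, div_eq_iff (by
      refine mul_ne_zero ?_ d23
      intro h
      apply d12
      linear_combination -h), hd]
    ring
  have hβ0 : β ≠ 0 := by
    intro h
    rw [h] at hβ2
    apply d13
    rw [← hβ2]
    ring
  set α : ℂ := (p1 - e1) / β with hα
  have hαF : α ∈ F := div_mem q1 hβF
  have hα2 : α ^ 2 = e1 - e2 := by
    rw [hα, div_pow, r1, hβ2, div_eq_iff d13]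
  have hαβ : α * β = p1 - e1 := by
    rw [hα, div_mul_cancel₀ _ hβ0]
  have hy2 : (y - (p1 - e1) * (α + β)) * (y + (p1 - e1) * (α + β)) = 0 := by
    have e12 : p1 - e2 = α * β + α ^ 2 := by rw [hαβ, hα2]; ring
    have e13 : p1 - e3 = α * β + β ^ 2 := by rw [hαβ, hβ2]; ring
    rw [e12, e13] at hy
    have h3 : (y - (p1 - e1) * (α + β)) * (y + (p1 - e1) * (α + β)) =
        y ^ 2 - (p1 - e1) ^ 2 * (α + β) ^ 2 := by ring
    rw [h3, hy, ← hαβ]
    ring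
  have hmem : (p1 - e1) * (α + β) ∈ F := mul_mem q1 (add_mem hαF hβF)
  rcases mul_eq_zero.1 hy2 with h | h
  · have : y = (p1 - e1) * (α + β) := by linear_combination h
    rw [this]
    exact hmem
  · have : y = -((p1 - e1) * (α + β)) := by linear_combination h
    rw [this]
    exact neg_mem hmem

/-- Divisibility by two. -/
theorem two_dvd {x : OO (-3) 1} (h : (2 : OO (-3) 1) ∣ x) : (2 : ℤ) ∣ x.re ∧ (2 : ℤ) ∣ x.im := by
  obtain ⟨y, rfl⟩ := h
  rw [two_mul]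
  refine ⟨⟨y.re, ?_⟩, ⟨y.im, ?_⟩⟩
  · rw [QuadraticAlgebra.re_add]; ring
  · rw [QuadraticAlgebra.im_add]; ring

end M11

open M11 in
theorem ta_M11 (h1 : Sa_EQN) (h2 : Sa_LAW) : Sa_M11 := by
  intro L Om hL
  have hc : Case (-3) 1 := Or.inr ⟨rfl, rfl⟩
  obtain ⟨heq, -, -, -, hinj, -, hy0, -, -⟩ := h1 (-3) 1 L Om hc hL
  obtain ⟨-, hdbl⟩ := h2 (-3) 1 L Om hc hL
  have e2n : emb (2 : OO (-3) 1) = 2 := by
    have := emb_natCast hc 2
    push_cast at this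
    exact this
  have e4n : emb (4 : OO (-3) 1) = 4 := by
    have := emb_natCast hc 4
    push_cast at this
    exact this
  have h20 : (2 : OO (-3) 1) ≠ 0 := by
    intro h
    rw [h, emb_zero hc] at e2n
    norm_num at e2n
  -- the constants
  set δ : ℂ := emb (a2 (-3) 1) with hδ
  have hδw : δ = 2 * wC (-3) 1 - 1 := by
    rw [hδ, a2]
    simp [emb]
    ring
  have hδ2 : δ ^ 2 = -11 := by
    have h3 := wC_sq hc
    rw [hδw]
    push_cast at h3
    linear_combination 4 * h3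
  have h4c : emb (a4 (-3) 1) = -3 := by
    rw [a4]
    have := emb_intCast hc (-3)
    push_cast at this
    simpa using this
  have h6c : emb (a6 (-3) 1) = -δ := by
    rw [a6, hδw]
    simp [emb]
    ring
  rw [h4c] at hdbl
  rw [h4c, h6c] at heq
  -- points of order two and four
  set T : OO (-3) 1 → ℂ := fun x => emb x * (Om / 2) with hT
  set P : OO (-3) 1 → ℂ := fun x => emb x * (Om / 4) with hP
  have hTmem : ∀ x, T x ∈ L.lattice ↔ (2 : OO (-3) 1) ∣ x := by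
    intro x
    have h3 := hL.toIsLat.mul_div_mem_iff hc h20 x
    rw [e2n] at h3
    exact h3
  have hPT : ∀ x, 2 * P x = T x := by
    intro x
    simp only [hP, hT]
    ring
  have hPnot : ∀ x, ¬ (2 : OO (-3) 1) ∣ x → P x ∉ L.lattice := by
    intro x hx h
    apply hx
    rw [← hTmem, ← hPT, two_mul]
    exact add_mem h h
  have h4P : ∀ x, emb (4 : OO (-3) 1) * P x ∈ L.lattice := by
    intro x
    rw [e4n, hL.mem]
    refine ⟨x, ?_⟩
    simp only [hP]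
    ring
  have h4T : ∀ x, emb (4 : OO (-3) 1) * T x ∈ L.lattice := by
    intro x
    rw [e4n, hL.mem]
    refine ⟨x + x, ?_⟩
    rw [emb_add hc]
    simp only [hT]
    ring
  have hxT : ∀ x, ¬ (2 : OO (-3) 1) ∣ x → xx (-3) 1 L (T x) ∈ XF L (4 : OO (-3) 1) := by
    intro x hx
    exact IntermediateField.subset_adjoin _ _ ⟨T x, h4T x, fun h => hx ((hTmem x).1 h), rfl⟩
  have hxP : ∀ x, ¬ (2 : OO (-3) 1) ∣ x → xx (-3) 1 L (P x) ∈ XF L (4 : OO (-3) 1) := by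
    intro x hx
    exact IntermediateField.subset_adjoin _ _ ⟨P x, h4P x, hPnot x hx, rfl⟩
  have hroot : ∀ x, ¬ (2 : OO (-3) 1) ∣ x → xx (-3) 1 L (T x) ^ 3 + δ * xx (-3) 1 L (T x) ^ 2 +
      (-3) * xx (-3) 1 L (T x) + -δ / 4 = 0 := by
    intro x hx
    have hTx : T x ∉ L.lattice := fun h => hx ((hTmem x).1 h)
    have h3 : yy L (T x) = 0 := by
      rw [hy0 (T x) hTx, hL.mem]
      refine ⟨x, ?_⟩
      simp only [hT]
      ring
    have h4 := heq (T x) hTx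
    rw [h3] at h4
    linear_combination -h4
  have hne : ∀ x x', ¬ (2 : OO (-3) 1) ∣ x → ¬ (2 : OO (-3) 1) ∣ x' →
      ¬ (2 : OO (-3) 1) ∣ x - x' → ¬ (2 : OO (-3) 1) ∣ x + x' →
      xx (-3) 1 L (T x) ≠ xx (-3) 1 L (T x') := by
    intro x x' hx hx' hd hs h
    rcases hinj (T x) (T x') (fun h => hx ((hTmem x).1 h)) (fun h => hx' ((hTmem x').1 h)) h with
      h3 | h3
    · apply hd
      rw [← hTmem]
      have e : T (x - x') = T x - T x' := by
        simp only [hT]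
        rw [emb_sub hc]
        ring
      rwa [e]
    · apply hs
      rw [← hTmem]
      have e : T (x + x') = T x + T x' := by
        simp only [hT]
        rw [emb_add hc]
        ring
      rwa [e]
  have hyne : ∀ x, ¬ (2 : OO (-3) 1) ∣ x → yy L (P x) ≠ 0 := by
    intro x hx h
    have h3 := (hy0 (P x) (hPnot x hx)).1 h
    rw [hPT] at h3
    exact hx ((hTmem x).1 h3)
  have hx1 : ¬ (2 : OO (-3) 1) ∣ ⟨1, 0⟩ := fun h => by
    have := (two_dvd h).1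
    norm_num at this
  have hx2 : ¬ (2 : OO (-3) 1) ∣ ⟨0, 1⟩ := fun h => by
    have := (two_dvd h).2
    norm_num at this
  have hx3 : ¬ (2 : OO (-3) 1) ∣ ⟨1, 1⟩ := fun h => by
    have := (two_dvd h).2
    norm_num at this
  have h12 := hne ⟨1, 0⟩ ⟨0, 1⟩ hx1 hx2
    (fun h => by have := (two_dvd h).1; norm_num at this)
    (fun h => by have := (two_dvd h).1; norm_num at this)
  have h13 := hne ⟨1, 0⟩ ⟨1, 1⟩ hx1 hx3
    (fun h => by have := (two_dvd h).2; norm_num at this)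
    (fun h => by have := (two_dvd h).2; norm_num at this)
  have h23 := hne ⟨0, 1⟩ ⟨1, 1⟩ hx2 hx3
    (fun h => by have := (two_dvd h).1; norm_num at this)
    (fun h => by have := (two_dvd h).1; norm_num at this)
  obtain ⟨va, vb, vc⟩ := vieta (hroot _ hx1) (hroot _ hx2) (hroot _ hx3) h12 h13 h23
  have hhalf : ∀ x, ¬ (2 : OO (-3) 1) ∣ x →
      xx (-3) 1 L (T x) = ((3 * xx (-3) 1 L (P x) ^ 2 + 2 * δ * xx (-3) 1 L (P x) + -3) /
        (2 * yy L (P x))) ^ 2 - δ - 2 * xx (-3) 1 L (P x) := by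
    intro x hx
    have h3 := (hdbl (P x) (by rw [hPT]; exact fun h => hx ((hTmem x).1 h))).1
    rw [hPT] at h3
    exact h3
  have r1 := half va vb vc (hyne _ hx1) (heq _ (hPnot _ hx1)) (hhalf _ hx1)
  have r2 := half (a := δ) (b := -3) (c := -δ / 4) (e1 := xx (-3) 1 L (T ⟨0, 1⟩))
    (e2 := xx (-3) 1 L (T ⟨1, 0⟩)) (e3 := xx (-3) 1 L (T ⟨1, 1⟩))
    (by linear_combination va) (by linear_combination vb) (by linear_combination vc)
    (hyne _ hx2) (heq _ (hPnot _ hx2)) (hhalf _ hx2)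
  have r3 := half (a := δ) (b := -3) (c := -δ / 4) (e1 := xx (-3) 1 L (T ⟨1, 1⟩))
    (e2 := xx (-3) 1 L (T ⟨1, 0⟩)) (e3 := xx (-3) 1 L (T ⟨0, 1⟩))
    (by linear_combination va) (by linear_combination vb) (by linear_combination vc)
    (hyne _ hx3) (heq _ (hPnot _ hx3)) (hhalf _ hx3)
  have hOm : Om / 4 = P ⟨1, 0⟩ := by
    have : emb (⟨1, 0⟩ : OO (-3) 1) = 1 := by simp [emb]
    simp only [hP]
    rw [this, one_mul]
  rw [hOm]
  apply alg (XF L (4 : OO (-3) 1)) hδ2 va vb vc h12 h13 h23 (hxT _ hx1) (hxT _ hx2) (hxT _ hx3)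
    (hxP _ hx1) (hxP _ hx2) (hxP _ hx3) r1 r2 r3
  rw [heq _ (hPnot _ hx1)]
  linear_combination (xx (-3) 1 L (P ⟨1, 0⟩)) ^ 2 * va + xx (-3) 1 L (P ⟨1, 0⟩) * vb + vc

end

end Pool.Agent.MU3A
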