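import Pool.Agent.MU3.StA2

/-!
# MU3, block A, module M8: the case `w² = -2`, the sign
-/

set_option autoImplicit false

namespace Pool.Agent.MU3A

open MU3 Pool.Agent.MU3B Polynomial NumberField

noncomputable section

theorem ta_M8 (h1 : Sa_N8) (h2 : Sa_EQN) : Sa_M8 := by
  intro L Om hL
  have hc : Case (-2) 0 := Or.inl ⟨rfl, rfl⟩
  obtain ⟨hker, hmul⟩ := h1 L Om hL
  obtain ⟨heq, -⟩ := h2 (-2) 0 L Om hc hL
  have hlat : IsLat (-2) 0 L Om := hL.toIsLat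
  set w : ℂ := wC (-2) 0 with hw
  have hw2 : w ^ 2 = -2 := by
    have := wC_sq hc
    rw [← hw] at this
    push_cast at this
    linear_combination this
  have hw0 : w ≠ 0 := wC_ne_zero hc
  have hOm : Om ≠ 0 := hlat.Om_ne
  have ha2 : emb (a2 (-2) 0) = (4 : ℂ) := by
    have h : a2 (-2) 0 = ((4 : ℕ) : OO (-2) 0) := by simp [a2]
    rw [h, emb_natCast hc]; norm_num
  have ha4 : emb (a4 (-2) 0) = (2 : ℂ) := by
    have h : a4 (-2) 0 = ((2 : ℕ) : OO (-2) 0) := by simp [a4]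
    rw [h, emb_natCast hc]; norm_num
  have ha6 : emb (a6 (-2) 0) = (0 : ℂ) := by
    have h : a6 (-2) 0 = (0 : OO (-2) 0) := by simp [a6]
    rw [h, emb_zero hc]
  -- lattice facts
  have hwmem : ∀ z : ℂ, z ∈ L.lattice → w * z ∈ L.lattice := fun z hz => hlat.mul_mem_w hc hz
  have hOmL : Om ∈ L.lattice := (hlat.mem Om).2 ⟨1, by rw [emb_one hc, mul_one]⟩
  have hz1 : Om / w ∉ L.lattice := by
    intro hz
    obtain ⟨x, hx⟩ := (hlat.mem _).1 hz
    have h3 : w * emb x = 1 := by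
      field_simp at hx
      exact hx.symm
    have h5 : emb ((⟨0, 1⟩ : OO (-2) 0) * x) = emb (1 : OO (-2) 0) := by
      rw [emb_mul hc, emb_w, emb_one hc]
      exact h3
    have h6 := emb_inj hc h5
    have h7 := congrArg QuadraticAlgebra.re h6
    rw [QuadraticAlgebra.re_mul, QuadraticAlgebra.re_one] at h7
    simp only [] at h7
    omega
  have hz2 : Om / w ^ 2 ∉ L.lattice := fun hz => hz1 (by
    have := hwmem _ hz
    rwa [show w * (Om / w ^ 2) = Om / w by field_simp] at this)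
  have hz3 : Om / w ^ 3 ∉ L.lattice := fun hz => hz2 (by
    have := hwmem _ hz
    rwa [show w * (Om / w ^ 3) = Om / w ^ 2 by field_simp] at this)
  have hz4 : Om / w ^ 4 ∉ L.lattice := fun hz => hz3 (by
    have := hwmem _ hz
    rwa [show w * (Om / w ^ 4) = Om / w ^ 3 by field_simp] at this)
  have hz5 : Om / w ^ 5 ∉ L.lattice := fun hz => hz4 (by
    have := hwmem _ hz
    rwa [show w * (Om / w ^ 5) = Om / w ^ 4 by field_simp] at this)
  -- the equations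
  have e1 : xx (-2) 0 L (Om / w) = 0 := (hker _ hz1).1 (by
    rw [show w * (Om / w) = Om by field_simp]; exact hOmL)
  have e2 := (hmul (Om / w ^ 2) (by rwa [show w * (Om / w ^ 2) = Om / w by field_simp])).1
  rw [show w * (Om / w ^ 2) = Om / w by field_simp, e1] at e2
  have e3 := (hmul (Om / w ^ 3) (by rwa [show w * (Om / w ^ 3) = Om / w ^ 2 by field_simp])).1
  rw [show w * (Om / w ^ 3) = Om / w ^ 2 by field_simp] at e3
  have e4 := (hmul (Om / w ^ 4) (by rwa [show w * (Om / w ^ 4) = Om / w ^ 3 by field_simp])).1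
  rw [show w * (Om / w ^ 4) = Om / w ^ 3 by field_simp] at e4
  have e5 := (hmul (Om / w ^ 5) (by rwa [show w * (Om / w ^ 5) = Om / w ^ 4 by field_simp])).1
  rw [show w * (Om / w ^ 5) = Om / w ^ 4 by field_simp] at e5
  have e6 := heq (Om / w ^ 5) hz5
  rw [ha2, ha4, ha6] at e6
  -- membership
  have hgen : ∀ z : ℂ, w ^ 5 * z ∈ L.lattice → z ∉ L.lattice →
      xx (-2) 0 L z ∈ XF L (⟨0, 4⟩ : OO (-2) 0) := by
    intro z hz hz'
    refine IntermediateField.subset_adjoin _ _ ⟨z, ?_, hz', rfl⟩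
    have h3 : emb (⟨0, 4⟩ : OO (-2) 0) = w ^ 5 := by
      have : emb (⟨0, 4⟩ : OO (-2) 0) = 4 * w := by simp [emb, hw]
      rw [this]
      linear_combination (-(w * w ^ 2) + 2 * w) * hw2
    rwa [h3]
  have m2 : xx (-2) 0 L (Om / w ^ 2) ∈ XF L (⟨0, 4⟩ : OO (-2) 0) := by
    refine hgen _ ?_ hz2
    rw [show w ^ 5 * (Om / w ^ 2) = w * (w * (w * Om)) by field_simp]
    exact hwmem _ (hwmem _ (hwmem _ hOmL))
  have m4 : xx (-2) 0 L (Om / w ^ 4) ∈ XF L (⟨0, 4⟩ : OO (-2) 0) := by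
    refine hgen _ ?_ hz4
    rw [show w ^ 5 * (Om / w ^ 4) = w * Om by field_simp]
    exact hwmem _ hOmL
  have m5 : xx (-2) 0 L (Om / w ^ 5) ∈ XF L (⟨0, 4⟩ : OO (-2) 0) := by
    refine hgen _ ?_ hz5
    rw [show w ^ 5 * (Om / w ^ 5) = Om by field_simp]
    exact hOmL
  have mw : w ∈ XF L (⟨0, 4⟩ : OO (-2) 0) :=
    (XF L (⟨0, 4⟩ : OO (-2) 0)).algebraMap_mem (⟨w, wC_mem (-2) 0⟩ : kk (-2) 0)
  generalize xx (-2) 0 L (Om / w ^ 2) = x2 at *
  generalize xx (-2) 0 L (Om / w ^ 3) = x3 at *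
  generalize xx (-2) 0 L (Om / w ^ 4) = x4 at *
  generalize xx (-2) 0 L (Om / w ^ 5) = x5 at *
  generalize yy L (Om / w ^ 5) = y5 at *
  have hr : (x2 + 2) ^ 2 = 2 := by linear_combination e2
  have hr0 : x2 + 2 ≠ 0 := by
    intro h0
    rw [h0] at hr
    norm_num at hr
  have h3 : x3 = -(x2 + 2) := by
    have h4 : (x3 + (x2 + 2)) ^ 2 = 0 := by linear_combination e3 + hr
    have h5 := pow_eq_zero_iff (two_ne_zero) |>.1 h4
    linear_combination h5
  rw [h3] at e4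
  -- `t = (x4 + 2 - r) / 2`
  have ht : ((x4 - x2) / 2) ^ 2 = 1 - (x2 + 2) := by
    linear_combination (1 / 4) * e4 + (1 / 4) * hr
  have h4 : x4 = -(1 - (x4 - x2) / 2) ^ 2 := by
    linear_combination ht
  have hi : (w / (x2 + 2)) ^ 2 = -1 := by
    rw [div_pow, hr, hw2]; norm_num
  have hy : y5 ^ 2 = (w * x5 * (w / (x2 + 2)) * (1 - (x4 - x2) / 2)) ^ 2 := by
    have h6 : (w * x5 * (w / (x2 + 2)) * (1 - (x4 - x2) / 2)) ^ 2 =
        w ^ 2 * x5 ^ 2 * (w / (x2 + 2)) ^ 2 * (1 - (x4 - x2) / 2) ^ 2 := by ring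
    rw [h6, hw2, hi]
    linear_combination e6 + x5 * e5 - 2 * x5 ^ 2 * h4
  have hmem : w * x5 * (w / (x2 + 2)) * (1 - (x4 - x2) / 2) ∈ XF L (⟨0, 4⟩ : OO (-2) 0) := by
    have m22 : (2 : ℂ) ∈ XF L (⟨0, 4⟩ : OO (-2) 0) := ofNat_mem _ 2
    refine mul_mem (mul_mem (mul_mem mw m5) (div_mem mw (add_mem m2 m22)))
      (sub_mem (one_mem _) (div_mem (sub_mem m4 m2) m22))
  rcases sq_eq_sq_iff_eq_or_eq_neg.1 hy with h | h
  · rw [h]; exact hmem
  · rw [h]; exact neg_mem hmem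

end

end Pool.Agent.MU3A
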