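import Pool.Agent.MU3.StA

/-!
# MU3, block A, N11: multiplication by `w`, `w² = w - 3`
-/

set_option autoImplicit false

namespace Pool.Agent.MU3A

open MU3 Pool.Agent.MU3B Polynomial Filter Topology

namespace P_N11

theorem case11 : Case (-3) 1 := Or.inr ⟨rfl, rfl⟩

theorem w_sq : wC (-3) 1 ^ 2 = wC (-3) 1 - 3 := by
  have := wC_sq case11
  push_cast at this
  linear_combination this

theorem emb_w' : emb (⟨0, 1⟩ : OO (-3) 1) = wC (-3) 1 := emb_w

theorem emb_a2 : emb (a2 (-3) 1) = 2 * wC (-3) 1 - 1 := by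
  simp only [a2, emb]
  norm_num
  ring

theorem emb_a4 : emb (a4 (-3) 1) = -3 := by
  have : (a4 (-3) 1) = ((-3 : ℤ) : OO (-3) 1) := by
    simp [a4]
  rw [this, emb_intCast case11]
  norm_num

theorem emb_a6 : emb (a6 (-3) 1) = 1 - 2 * wC (-3) 1 := by
  simp only [a6, emb]
  norm_num
  ring

theorem w_ne : wC (-3) 1 ≠ 0 := wC_ne_zero case11

theorem w_ne_six : wC (-3) 1 - 6 ≠ 0 := by
  intro h
  have h1 := wC_im_pos case11
  have h2 : wC (-3) 1 = 6 := by linear_combination h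
  rw [h2] at h1
  norm_num at h1

section

variable {L : PeriodPair} {Om : ℂ}

theorem g2_eq (hL : IsCM (-3) 1 L Om) : L.g₂ = -8 / 3 := by
  have g2 := hL.g2
  rw [emb_a4, emb_a2] at g2
  rw [g2]
  linear_combination (16 / 3 : ℂ) * w_sq

theorem g3_eq (hL : IsCM (-3) 1 L Om) : L.g₃ = 7 / 27 * (2 * wC (-3) 1 - 1) := by
  have g3 := hL.g3
  rw [emb_a6, emb_a4, emb_a2] at g3
  rw [g3]
  linear_combination (-(32 / 27) * (2 * wC (-3) 1 - 1) : ℂ) * w_sq

/-- the value of `℘` at `Om / w` -/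
theorem x0_eq (hR : Sa_R11) (hL : IsCM (-3) 1 L Om) :
    L.weierstrassP (Om / wC (-3) 1) = wC (-3) 1 / 3 := by
  obtain ⟨-, h2, h3, -⟩ := hR L Om hL.toIsLat
  rw [g2_eq hL] at h2
  rw [g3_eq hL] at h3
  have w2 := w_sq
  have w0 := w_ne
  have w6 := w_ne_six
  set w := wC (-3) 1 with hw
  set X := L.weierstrassP (Om / w) with hX
  have e2 : X ^ 2 = w ^ 2 / 9 := by linear_combination (1 / 24 : ℂ) * h2
  have e3 : (X ^ 3 - w ^ 3 / 27) * (w - 6) = 0 := by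
    linear_combination (-1 / 7 : ℂ) * h3 + (2 / 27 * w ^ 3) * w2
  have e4 : X ^ 3 - w ^ 3 / 27 = 0 := (mul_eq_zero.1 e3).resolve_right w6
  have e5 : (X - w / 3) * (w ^ 2 / 9) = 0 := by linear_combination e4 - X * e2
  have e6 : X - w / 3 = 0 := (mul_eq_zero.1 e5).resolve_right
    (div_ne_zero (pow_ne_zero 2 w0) (by norm_num))
  linear_combination e6

theorem Om_mem (hL : IsLat (-3) 1 L Om) : Om ∈ L.lattice :=
  (hL.mem Om).2 ⟨1, by rw [emb_one case11]; ring⟩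

theorem three_mem (hL : IsLat (-3) 1 L Om) : 3 * (Om / wC (-3) 1) ∈ L.lattice := by
  have h := hL.emb_mul_mem case11 ⟨1, -1⟩ (Om_mem hL)
  have e : emb (⟨1, -1⟩ : OO (-3) 1) * Om = 3 * (Om / wC (-3) 1) := by
    have w0 := w_ne
    have e1 : Om = wC (-3) 1 * (Om / wC (-3) 1) := by field_simp
    simp only [emb]
    push_cast
    linear_combination (1 - wC (-3) 1) * e1 - (Om / wC (-3) 1) * w_sq
  rwa [e] at h

theorem int_mul_mem {x : ℂ} (k : ℤ) (h : x ∈ L.lattice) : (k : ℂ) * x ∈ L.lattice := by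
  have := L.lattice.smul_mem k h
  rwa [zsmul_eq_mul] at this

theorem xx_u (hR : Sa_R11) (hL : IsCM (-3) 1 L Om) :
    wC (-3) 1 * xx (-3) 1 L (Om / wC (-3) 1) - 1 = 0 := by
  unfold xx
  rw [x0_eq hR hL, emb_a2]
  linear_combination (-1 / 3 : ℂ) * w_sq

/-- the points killed by `w` -/
theorem kernel (hR : Sa_R11) (hE : Sa_EQN) (hL : IsCM (-3) 1 L Om) {z : ℂ} (hz : z ∉ L.lattice)
    (hwz : wC (-3) 1 * z ∈ L.lattice) : wC (-3) 1 * xx (-3) 1 L z - 1 = 0 := by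
  obtain ⟨-, -, hpar, hper, -⟩ := hE (-3) 1 L Om case11 hL
  have hm : (⟨0, 1⟩ : OO (-3) 1) ≠ 0 := fun h0 => w_ne (by
    rw [← emb_w', h0, emb_zero case11])
  have h1 := (hL.toIsLat.torsion_iff case11 hm z).1 (by rw [emb_w']; exact hwz)
  obtain ⟨q, hq⟩ := h1
  rw [emb_w'] at hq
  have w0 := w_ne
  have hOm := Om_mem hL.toIsLat
  have h3 := three_mem hL.toIsLat
  have hu := xx_u hR hL
  have hz' : z = (q.re : ℂ) * (Om / wC (-3) 1) + (q.im : ℂ) * Om := by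
    rw [hq]
    simp only [emb]
    field_simp
  set u := Om / wC (-3) 1 with hu'
  have hr : q.re % 3 = 0 ∨ q.re % 3 = 1 ∨ q.re % 3 = 2 := by omega
  have hdiv : (q.re : ℂ) = 3 * ((q.re / 3 : ℤ) : ℂ) + ((q.re % 3 : ℤ) : ℂ) := by
    have := Int.mul_ediv_add_emod q.re 3
    exact_mod_cast this.symm
  rcases hr with hr | hr | hr
  · exfalso
    apply hz
    rw [hz', hdiv, hr]
    have := add_mem (int_mul_mem (q.re / 3) h3) (int_mul_mem q.im hOm)
    convert this using 1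
    push_cast
    ring
  · have hmem := add_mem (int_mul_mem (q.re / 3) h3) (int_mul_mem q.im hOm)
    have e : z = u + (((q.re / 3 : ℤ) : ℂ) * (3 * u) + (q.im : ℂ) * Om) := by
      rw [hz', hdiv, hr]
      push_cast
      ring
    rw [e, (hper u _ hmem).1]
    exact hu
  · have hmem := add_mem (int_mul_mem (q.re / 3 + 1) h3) (int_mul_mem q.im hOm)
    have e : z = -u + (((q.re / 3 + 1 : ℤ) : ℂ) * (3 * u) + (q.im : ℂ) * Om) := by
      rw [hz', hdiv, hr]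
      push_cast
      ring
    rw [e, (hper (-u) _ hmem).1, (hpar u).1]
    exact hu

theorem not_mem (hL : IsLat (-3) 1 L Om) {z : ℂ} (hz : wC (-3) 1 * z ∉ L.lattice) :
    z ∉ L.lattice := fun h => hz (hL.mul_mem_w case11 h)

theorem ne_one (hR : Sa_R11) (hL : IsCM (-3) 1 L Om) {z : ℂ} (hz : wC (-3) 1 * z ∉ L.lattice) :
    wC (-3) 1 * xx (-3) 1 L z - 1 ≠ 0 := by
  obtain ⟨-, -, -, h⟩ := hR L Om hL.toIsLat
  intro h0
  apply (h z hz).1
  have hu := xx_u hR hL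
  unfold xx at h0 hu
  have : wC (-3) 1 * (L.weierstrassP z - L.weierstrassP (Om / wC (-3) 1)) = 0 := by
    linear_combination h0 - hu
  have := (mul_eq_zero.1 this).resolve_left w_ne
  linear_combination this

/-- the formula for `x` -/
theorem form_x (hR : Sa_R11) (hL : IsCM (-3) 1 L Om) {z : ℂ} (hz : wC (-3) 1 * z ∉ L.lattice) :
    xx (-3) 1 L (wC (-3) 1 * z) * (wC (-3) 1 * xx (-3) 1 L z - 1) ^ 2 =
      xx (-3) 1 L z ^ 3 + 3 * wC (-3) 1 * xx (-3) 1 L z ^ 2 + (wC (-3) 1 - 6) * xx (-3) 1 L z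
        - wC (-3) 1 := by
  obtain ⟨-, -, -, h⟩ := hR L Om hL.toIsLat
  have h1 := (h z hz).2
  rw [g2_eq hL, g3_eq hL, x0_eq hR hL] at h1
  have hx : L.weierstrassP z = xx (-3) 1 L z + (2 * wC (-3) 1 - 1) / 3 := by
    unfold xx; rw [emb_a2]; ring
  have hwx : L.weierstrassP (wC (-3) 1 * z) = xx (-3) 1 L (wC (-3) 1 * z)
      + (2 * wC (-3) 1 - 1) / 3 := by
    unfold xx; rw [emb_a2]; ring
  rw [hx, hwx] at h1
  have w2 := w_sq
  set w := wC (-3) 1 with hw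
  set x := xx (-3) 1 L z with hxd
  set x' := xx (-3) 1 L (w * z) with hx'd
  linear_combination h1 + ((-2/3 : ℂ) * w * x * x' + (-2/3 : ℂ) * w * x ^ 2 +
    (-4/9 : ℂ) * w ^ 2 * x + (-1/9 : ℂ) * w ^ 2 * x' + (-2/27 : ℂ) * w ^ 3 +
    (2/9 : ℂ) * w * x + (1/9 : ℂ) * w * x' + (1/9 : ℂ) * w ^ 2 + (-1/3 : ℂ) * x ^ 2 +
    (17/27 : ℂ) * w + (23/9 : ℂ) * x + (1/3 : ℂ) * x' + (-2/27 : ℂ)) * w2

/-- the formula for `y` -/
theorem form_y (hR : Sa_R11) (hE : Sa_EQN) (hL : IsCM (-3) 1 L Om) {z : ℂ}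
    (hz : wC (-3) 1 * z ∉ L.lattice) :
    yy L (wC (-3) 1 * z) * (wC (-3) 1 * xx (-3) 1 L z - 1) ^ 3 =
      yy L z * (xx (-3) 1 L z ^ 3 + (wC (-3) 1 - 1) * xx (-3) 1 L z ^ 2 -
        wC (-3) 1 * xx (-3) 1 L z + 1) := by
  obtain ⟨-, -, -, -, -, -, -, -, hder⟩ := hE (-3) 1 L Om case11 hL
  have hz0 := not_mem hL.toIsLat hz
  have d1 := (hder z hz0).1
  have d2 : HasDerivAt (fun z => xx (-3) 1 L (wC (-3) 1 * z))
      (2 * yy L (wC (-3) 1 * z) * (wC (-3) 1 * 1)) z :=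
    HasDerivAt.comp z (hder _ hz).1 ((hasDerivAt_id z).const_mul (wC (-3) 1))
  have d3 := d2.mul (((d1.const_mul (wC (-3) 1)).sub_const 1).pow 2)
  have d4 := (((d1.pow 3).add ((d1.pow 2).const_mul (3 * wC (-3) 1))).add
    (d1.const_mul (wC (-3) 1 - 6))).sub_const (wC (-3) 1)
  have hev : (fun z => xx (-3) 1 L z ^ 3 + 3 * wC (-3) 1 * xx (-3) 1 L z ^ 2 +
      (wC (-3) 1 - 6) * xx (-3) 1 L z - wC (-3) 1) =ᶠ[𝓝 z]
      (fun z => xx (-3) 1 L (wC (-3) 1 * z) * (wC (-3) 1 * xx (-3) 1 L z - 1) ^ 2) := by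
    have hopen : IsOpen {z : ℂ | wC (-3) 1 * z ∉ L.lattice} :=
      L.isClosed_lattice.isOpen_compl.preimage (by fun_prop : Continuous fun z : ℂ => wC (-3) 1 * z)
    filter_upwards [hopen.mem_nhds hz] with t ht
    exact (form_x hR hL ht).symm
  have d5 := d3.congr_of_eventuallyEq hev
  have hu := d4.unique d5
  have hfx := form_x hR hL hz
  have hne := w_ne
  have w2 := w_sq
  have key : (2 * wC (-3) 1) * (yy L (wC (-3) 1 * z) * (wC (-3) 1 * xx (-3) 1 L z - 1) ^ 3 -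
      yy L z * (xx (-3) 1 L z ^ 3 + (wC (-3) 1 - 1) * xx (-3) 1 L z ^ 2 -
        wC (-3) 1 * xx (-3) 1 L z + 1)) = 0 := by
    simp only [Pi.pow_apply] at hu
    push_cast at hu
    linear_combination (-(wC (-3) 1 * xx (-3) 1 L z - 1)) * hu -
      4 * wC (-3) 1 * yy L z * hfx + 2 * yy L z * (2 - xx (-3) 1 L z ^ 2) * w2
  have := (mul_eq_zero.1 key).resolve_left (mul_ne_zero two_ne_zero hne)
  linear_combination this

end

end P_N11

open P_N11 in
/-- (N11) multiplication by `w`, `w² = w - 3` -/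
theorem ta_N11 (h1 : Sa_R11) (h2 : Sa_EQN) : Sa_N11 := by
  intro L Om hL
  have c := case11
  have e0 : emb (-1 : OO (-3) 1) = -1 := by rw [emb_neg c, emb_one c]
  have e1 : emb (⟨0, 3⟩ : OO (-3) 1) = 3 * wC (-3) 1 := by simp [emb]
  have e2 : emb (⟨-6, 1⟩ : OO (-3) 1) = wC (-3) 1 - 6 := by simp [emb]; ring
  have e3 : emb (⟨0, -1⟩ : OO (-3) 1) = -wC (-3) 1 := by simp [emb]
  have e4 : emb (⟨-1, 1⟩ : OO (-3) 1) = wC (-3) 1 - 1 := by simp [emb]; ring
  have e5 : emb (1 : OO (-3) 1) = 1 := emb_one c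
  refine ⟨fun z hz => ?_, fun z hz => ?_, fun z hz => ?_⟩
  · rw [emb_w', e0]
    constructor
    · intro h
      have := kernel h1 h2 hL hz h
      linear_combination this
    · intro h
      by_contra hcon
      apply ne_one h1 hL hcon
      linear_combination h
  · rw [emb_w'] at hz ⊢
    rw [e0, e1, e2, e3]
    linear_combination form_x h1 hL hz
  · rw [emb_w'] at hz ⊢
    rw [e0, e3, e4, e5]
    linear_combination form_y h1 h2 hL hz

end Pool.Agent.MU3A
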