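import Pool.Agent.MU3.StA

/-!
# MU3, block A, N11C: multiplication by `1 - w`, `w² = w - 3`

From (N11) by complex conjugation: the lattice `i * conj L` is again in normal form (complex
conjugation changes the sign of `δ = 2 w - 1`, the factor `i` changes it back), and multiplication
by `w` on it is multiplication by `1 - w` on `L`.
-/

set_option autoImplicit false

namespace Pool.Agent.MU3A

open MU3 Pool.Agent.MU3B
open scoped ComplexConjugate

noncomputable section

namespace P_N11C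

/-- `u ↦ i * conj u`, an involution -/
def tau (u : ℂ) : ℂ := Complex.I * conj u

theorem tau_tau (u : ℂ) : tau (tau u) = u := by
  unfold tau
  rw [map_mul, Complex.conj_I, Complex.conj_conj]
  linear_combination (-u) * Complex.I_mul_I

theorem tau_sub (u v : ℂ) : tau u - tau v = tau (u - v) := by
  unfold tau
  rw [map_sub]
  ring

theorem tau_sq (u : ℂ) : tau u ^ 2 = -conj (u ^ 2) := by
  unfold tau
  rw [mul_pow, Complex.I_sq, map_pow]
  ring

theorem tau_cube (u : ℂ) : tau u ^ 3 = -Complex.I * conj (u ^ 3) := by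
  unfold tau
  rw [mul_pow, Complex.I_pow_three, map_pow]

theorem tau_mul (u v : ℂ) : tau (u * v) = conj u * tau v := by
  unfold tau
  rw [map_mul]
  ring

theorem tau_ne {u : ℂ} (h : u ≠ 0) : tau u ≠ 0 := by
  intro h0
  apply h
  rw [← tau_tau u, h0]
  simp [tau]

/-- `i * conj L` -/
def cj (L : PeriodPair) : PeriodPair where
  ω₁ := tau L.ω₁
  ω₂ := tau L.ω₂
  indep := by
    rw [LinearIndependent.pair_iff]
    intro s t h
    refine LinearIndependent.pair_iff.1 L.indep s t ?_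
    have h1 := congrArg tau h
    have h2 : tau (s • tau L.ω₁ + t • tau L.ω₂) = s • L.ω₁ + t • L.ω₂ := by
      simp only [tau, Complex.real_smul, map_add, map_mul, Complex.conj_ofReal, Complex.conj_I,
        Complex.conj_conj]
      linear_combination (-(s : ℂ) * L.ω₁ - t * L.ω₂) * Complex.I_mul_I
    rw [h2] at h1
    rw [h1]
    simp [tau]

theorem mem_cj (L : PeriodPair) (u : ℂ) : tau u ∈ (cj L).lattice ↔ u ∈ L.lattice := by
  rw [PeriodPair.mem_lattice, PeriodPair.mem_lattice]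
  have h2 : ∀ m n : ℤ, tau (m * tau L.ω₁ + n * tau L.ω₂) = m * L.ω₁ + n * L.ω₂ := by
    intro m n
    simp only [tau, map_add, map_mul, map_intCast, Complex.conj_I, Complex.conj_conj]
    linear_combination (-(m : ℂ) * L.ω₁ - n * L.ω₂) * Complex.I_mul_I
  constructor
  · rintro ⟨m, n, h⟩
    refine ⟨m, n, ?_⟩
    have h1 := congrArg tau h
    rw [tau_tau] at h1
    rw [← h1]
    exact (h2 m n).symm
  · rintro ⟨m, n, h⟩
    refine ⟨m, n, ?_⟩
    rw [← h, ← h2, tau_tau]
    rfl

theorem mem_cj' (L : PeriodPair) (u : ℂ) : u ∈ (cj L).lattice ↔ tau u ∈ L.lattice := by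
  rw [← mem_cj L (tau u), tau_tau]

/-- the bijection of `L` with `i * conj L` -/
def eqv (L : PeriodPair) : L.lattice ≃ (cj L).lattice where
  toFun l := ⟨tau l, (mem_cj L l).2 l.2⟩
  invFun l := ⟨tau l, (mem_cj' L l).1 l.2⟩
  left_inv _ := Subtype.ext (tau_tau _)
  right_inv _ := Subtype.ext (tau_tau _)

theorem eqv_val (L : PeriodPair) (l : L.lattice) :
    ((eqv L l : (cj L).lattice) : ℂ) = tau l := rfl

theorem wp_eq (L : PeriodPair) (z : ℂ) :
    (cj L).weierstrassP (tau z) = -conj (L.weierstrassP z) := by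
  unfold PeriodPair.weierstrassP
  rw [← (eqv L).tsum_eq, Complex.conj_tsum, ← tsum_neg]
  refine tsum_congr fun l => ?_
  rw [eqv_val, tau_sub, tau_sq, tau_sq, map_sub, map_div₀, map_div₀, map_one]
  rw [div_neg, div_neg]
  ring

theorem dwp_eq (L : PeriodPair) (z : ℂ) :
    (cj L).derivWeierstrassP (tau z) = Complex.I * conj (L.derivWeierstrassP z) := by
  unfold PeriodPair.derivWeierstrassP
  rw [← (eqv L).tsum_eq, map_neg, Complex.conj_tsum, mul_neg, ← tsum_mul_left]
  congr 1
  refine tsum_congr fun l => ?_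
  rw [eqv_val, tau_sub, tau_cube, map_div₀, map_ofNat, neg_mul, div_neg, div_mul_eq_div_div,
    div_eq_mul_inv (2 : ℂ) Complex.I, Complex.inv_I]
  ring

theorem g2_eq (L : PeriodPair) : (cj L).g₂ = conj L.g₂ := by
  unfold PeriodPair.g₂ PeriodPair.G
  rw [← (eqv L).tsum_eq, map_mul, map_ofNat, Complex.conj_tsum]
  congr 1
  refine tsum_congr fun l => ?_
  rw [eqv_val, show 4 = 2 * 2 from rfl, pow_mul, tau_sq, map_inv₀, pow_mul, neg_sq, ← map_pow]

theorem g3_eq (L : PeriodPair) : (cj L).g₃ = -conj L.g₃ := by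
  unfold PeriodPair.g₃ PeriodPair.G
  rw [← (eqv L).tsum_eq, map_mul, map_ofNat, Complex.conj_tsum, ← mul_neg, ← tsum_neg]
  congr 1
  refine tsum_congr fun l => ?_
  rw [eqv_val, show 6 = 2 * 3 from rfl, pow_mul, tau_sq, map_inv₀, pow_mul, Odd.neg_pow
    (by decide), inv_neg, ← map_pow]

theorem conj_w : conj (wC (-3) 1) = 1 - wC (-3) 1 := by
  have h : (absD (-3) 1 : ℝ) = 11 := by norm_num [absD]
  simp only [wC, map_div₀, map_add, map_mul, Complex.conj_I, Complex.conj_ofReal, map_ofNat]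
  push_cast
  rw [map_one]
  ring

theorem conj_emb (x : OO (-3) 1) : conj (emb x) = emb (⟨x.re + x.im, -x.im⟩ : OO (-3) 1) := by
  simp only [emb, map_add, map_mul, map_intCast, conj_w]
  push_cast
  ring

theorem a2_eq : emb (a2 (-3) 1) = 2 * wC (-3) 1 - 1 := by
  simp only [a2, emb]
  norm_num
  ring

theorem a4_eq : emb (a4 (-3) 1) = -3 := by
  have h : (a4 (-3) 1) = ((-3 : ℤ) : OO (-3) 1) := by
    simp [a4]
  rw [h, emb_intCast (Or.inr ⟨rfl, rfl⟩)]
  norm_num

theorem a6_eq : emb (a6 (-3) 1) = 1 - 2 * wC (-3) 1 := by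
  simp only [a6, emb]
  norm_num
  ring

theorem cm (L : PeriodPair) (Om : ℂ) (h : IsCM (-3) 1 L Om) : IsCM (-3) 1 (cj L) (tau Om) where
  Om_ne := tau_ne h.Om_ne
  mem z := by
    rw [mem_cj', h.mem]
    constructor
    · rintro ⟨x, hx⟩
      refine ⟨⟨x.re + x.im, -x.im⟩, ?_⟩
      rw [← tau_tau z, hx, mul_comm, tau_mul, ← conj_emb, mul_comm]
    · rintro ⟨x, hx⟩
      refine ⟨⟨x.re + x.im, -x.im⟩, ?_⟩
      rw [hx, mul_comm, tau_mul, ← conj_emb, tau_tau, mul_comm]
  g2 := by
    rw [g2_eq, h.g2, a2_eq, a4_eq]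
    simp only [map_mul, map_sub, map_neg, map_div₀, map_pow, map_ofNat, conj_w, map_one]
    ring
  g3 := by
    rw [g3_eq, h.g3, a2_eq, a4_eq, a6_eq]
    simp only [map_mul, map_sub, map_neg, map_div₀, map_pow, map_ofNat, conj_w, map_one, map_add]
    ring

theorem xx_eq (L : PeriodPair) (z : ℂ) :
    xx (-3) 1 (cj L) (tau z) = -conj (xx (-3) 1 L z) := by
  unfold xx
  rw [wp_eq, a2_eq]
  simp only [map_mul, map_sub, map_div₀, map_ofNat, conj_w, map_one]
  ring

theorem yy_eq (L : PeriodPair) (z : ℂ) : yy (cj L) (tau z) = Complex.I * conj (yy L z) := by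
  unfold yy
  rw [dwp_eq, map_div₀, map_ofNat]
  ring

end P_N11C

open P_N11C in
/-- multiplication by `1 - w` -/
theorem ta_N11C (h1 : Sa_N11) : Sa_N11C := by
  intro L Om hL
  have h := h1 (cj L) (tau Om) (cm L Om hL)
  have e1 : emb (⟨0, 1⟩ : OO (-3) 1) = wC (-3) 1 := emb_w
  have e2 : emb (⟨1, -1⟩ : OO (-3) 1) = 1 - wC (-3) 1 := by
    simp [emb]
    ring
  have hc : Case (-3) 1 := Or.inr ⟨rfl, rfl⟩
  have e3 : emb (-1 : OO (-3) 1) = -1 := by rw [emb_neg hc, emb_one hc]
  have e4 : emb (1 : OO (-3) 1) = 1 := emb_one hc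
  have e5 : emb (⟨0, 3⟩ : OO (-3) 1) = 3 * wC (-3) 1 := by simp [emb]
  have e6 : emb (⟨-6, 1⟩ : OO (-3) 1) = wC (-3) 1 - 6 := by simp [emb]; ring
  have e7 : emb (⟨0, -1⟩ : OO (-3) 1) = -wC (-3) 1 := by simp [emb]
  have e8 : emb (⟨-1, 1⟩ : OO (-3) 1) = wC (-3) 1 - 1 := by simp [emb]; ring
  have e9 : emb (⟨-3, 3⟩ : OO (-3) 1) = 3 * wC (-3) 1 - 3 := by simp [emb]; ring
  have e10 : emb (⟨-5, -1⟩ : OO (-3) 1) = -5 - wC (-3) 1 := by simp [emb]; ring
  have hw : ∀ z, wC (-3) 1 * tau z = tau ((1 - wC (-3) 1) * z) := by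
    intro z
    rw [tau_mul, map_sub, map_one, conj_w]
    ring
  refine ⟨fun z hz => ?_, fun z hz => ?_, fun z hz => ?_⟩
  · have h2 := h.ker (tau z) (fun h0 => hz ((mem_cj L z).1 h0))
    rw [e1, e3, hw, mem_cj, xx_eq] at h2
    rw [e2, e4, h2]
    constructor
    · intro h3
      have h4 := congrArg conj h3
      simp only [map_add, map_mul, map_neg, Complex.conj_conj, conj_w, map_one, map_zero] at h4
      linear_combination -h4
    · intro h3
      have h4 := congrArg conj h3
      simp only [map_add, map_mul, map_sub, conj_w, map_one, map_zero] at h4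
      linear_combination -h4
  · rw [e2] at hz
    have h2 := h.x (tau z) (by rw [e1, hw, mem_cj]; exact hz)
    rw [e1, e3, e5, e6, e7, hw, xx_eq, xx_eq] at h2
    rw [e2, e4, e9, e10]
    have h4 := congrArg conj h2
    simp only [map_add, map_mul, map_sub, map_neg, map_pow, Complex.conj_conj, conj_w, map_one,
      map_ofNat] at h4
    linear_combination -h4
  · rw [e2] at hz
    have h2 := h.y (tau z) (by rw [e1, hw, mem_cj]; exact hz)
    rw [e1, e3, e7, e8, e4, hw, xx_eq, yy_eq, yy_eq] at h2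
    rw [e1, e2, e4, e8, e3]
    have h4 := congrArg conj h2
    simp only [map_add, map_mul, map_sub, map_neg, map_pow, Complex.conj_conj, conj_w, map_one,
      Complex.conj_I, mul_assoc] at h4
    have h5 := mul_left_cancel₀ (neg_ne_zero.2 Complex.I_ne_zero) h4
    linear_combination -h5

end

end Pool.Agent.MU3A
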