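import Pool.Agent.MU3.StA

/-!
# MU3, block A, module N8: multiplication by `w = √-2`
-/

set_option autoImplicit false

namespace Pool.Agent.MU3A

open MU3 Pool.Agent.MU3B Polynomial

namespace N8

lemma cs : Case (-2) 0 := Or.inl ⟨rfl, rfl⟩

lemma ww : wC (-2) 0 * wC (-2) 0 = -2 := by
  have h := wC_sq cs
  rw [h]
  push_cast
  ring

lemma ea2 : (emb (a2 (-2) 0) : ℂ) = 4 := by
  have h : a2 (-2) 0 = ((4 : ℕ) : OO (-2) 0) := rfl
  rw [h, emb_natCast cs]
  norm_num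

lemma ea4 : (emb (a4 (-2) 0) : ℂ) = 2 := by
  have h : a4 (-2) 0 = ((2 : ℕ) : OO (-2) 0) := rfl
  rw [h, emb_natCast cs]
  norm_num

lemma ea6 : (emb (a6 (-2) 0) : ℂ) = 0 := by
  have h : a6 (-2) 0 = 0 := rfl
  rw [h, emb_zero cs]

/-- The value `e = 4/3`. -/
lemma val {L : PeriodPair} {Om : ℂ} (h1 : Sa_R8) (hL : IsCM (-2) 0 L Om) :
    L.weierstrassP (Om * wC (-2) 0 / 2) = 4 / 3 := by
  obtain ⟨h0, hg2, hg3, -⟩ := h1 L Om hL.toIsLat
  have k2 := hL.g2
  have k3 := hL.g3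
  rw [ea2, ea4] at k2
  rw [ea2, ea4, ea6] at k3
  rw [k2] at hg2
  rw [k3] at hg3
  set e := L.weierstrassP (Om * wC (-2) 0 / 2) with he
  have e2 : e ^ 2 = 16 / 9 := by linear_combination (-2 / 15) * hg2
  have e3 : e ^ 3 = 64 / 27 := by linear_combination (2 / 7) * hg3
  linear_combination (9 / 16) * e3 - (9 / 16) * e * e2

end N8

open N8 in
theorem ta_N8 (h1 : Sa_R8) (h2 : Sa_EQN) : Sa_N8 := by
  intro L Om hL
  have hv := val h1 hL
  obtain ⟨-, -, -, hR⟩ := h1 L Om hL.toIsLat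
  rw [hv] at hR
  obtain ⟨-, -, hpar, hper, -, -, -, -, hder⟩ := h2 (-2) 0 L Om cs hL
  have hw0 : wC (-2) 0 ≠ 0 := wC_ne_zero cs
  have hx : ∀ z, xx (-2) 0 L z = L.weierstrassP z - 4 / 3 := by
    intro z
    rw [xx, ea2]
  have hLz : ∀ z, wC (-2) 0 * z ∉ L.lattice → z ∉ L.lattice := fun z hz hz' =>
    hz (hL.toIsLat.mul_mem_w cs hz')
  have hX : ∀ z, wC (-2) 0 * z ∉ L.lattice →
      xx (-2) 0 L (wC (-2) 0 * z) * (2 * xx (-2) 0 L z) =
        -(xx (-2) 0 L z ^ 2 + 4 * xx (-2) 0 L z + 2) := by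
    intro z hz
    have h3 := (hR z hz).2
    rw [hx, hx]
    linear_combination -h3
  refine ⟨fun z hz => ⟨fun hwz => ?_, fun h0 => ?_⟩, fun z hz => ⟨hX z hz, ?_⟩⟩
  · have hm : (⟨0, 1⟩ : OO (-2) 0) ≠ 0 := by
      intro h
      have := congrArg QuadraticAlgebra.im h
      simp at this
    have hwz' : emb (⟨0, 1⟩ : OO (-2) 0) * z ∈ L.lattice := by rwa [emb_w]
    obtain ⟨y, hy⟩ := (hL.toIsLat.torsion_iff cs hm z).1 hwz'
    rw [emb_w] at hy
    have hOw : Om / wC (-2) 0 = -(Om * wC (-2) 0 / 2) := by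
      rw [div_eq_iff hw0]
      linear_combination (Om / 2) * ww
    have hval0 : xx (-2) 0 L (Om * wC (-2) 0 / 2) = 0 := by rw [hx, hv, sub_self]
    rcases Int.even_or_odd' y.re with ⟨c, hc | hc⟩
    · exfalso
      apply hz
      rw [hL.toIsLat.mem]
      refine ⟨⟨y.im, -c⟩, ?_⟩
      rw [hy, hOw, emb, emb, hc]
      push_cast
      linear_combination (-(y.im : ℂ) * Om / 2) * ww
    · have hu : (Om * emb (⟨y.im, -c⟩ : OO (-2) 0)) ∈ L.lattice :=
        (hL.toIsLat.mem _).2 ⟨_, rfl⟩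
      have hz2 : z = -(Om * wC (-2) 0 / 2) + Om * emb (⟨y.im, -c⟩ : OO (-2) 0) := by
        rw [hy, hOw, emb, emb, hc]
        push_cast
        linear_combination (-(y.im : ℂ) * Om / 2) * ww
      rw [hz2, (hper _ _ hu).1, (hpar _).1, hval0]
  · by_contra hwz
    apply (hR z hwz).1
    rw [hx] at h0
    linear_combination h0
  · have hzL := hLz z hz
    obtain ⟨d1, -⟩ := hder z hzL
    obtain ⟨d2, -⟩ := hder _ hz
    have d3 : HasDerivAt (fun u => wC (-2) 0 * u) (wC (-2) 0) z := by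
      simpa using (hasDerivAt_id z).const_mul (wC (-2) 0)
    have d4 : HasDerivAt (fun u => xx (-2) 0 L (wC (-2) 0 * u))
        (2 * yy L (wC (-2) 0 * z) * wC (-2) 0) z := HasDerivAt.comp z d2 d3
    have d5 := d4.mul (d1.const_mul 2)
    have d6 : HasDerivAt (fun u => -(xx (-2) 0 L u ^ 2 + 4 * xx (-2) 0 L u + 2))
        (-(2 * xx (-2) 0 L z * (2 * yy L z) + 4 * (2 * yy L z))) z := by
      refine (((d1.fun_pow 2).fun_add (d1.const_mul 4)).add_const (2 : ℂ)).fun_neg.congr_deriv ?_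
      push_cast
      ring
    have hopen : IsOpen {u : ℂ | wC (-2) 0 * u ∉ L.lattice} :=
      L.isClosed_lattice.isOpen_compl.preimage (continuous_const.mul continuous_id)
    have hev : (fun u => xx (-2) 0 L (wC (-2) 0 * u) * (2 * xx (-2) 0 L u)) =ᶠ[nhds z]
        (fun u => -(xx (-2) 0 L u ^ 2 + 4 * xx (-2) 0 L u + 2)) := by
      filter_upwards [hopen.mem_nhds hz] with u hu
      exact hX u hu
    have d7 := (d6.congr_of_eventuallyEq hev).unique d5
    have h4 := hX z hz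
    linear_combination (-(xx (-2) 0 L z) / 2) * d7 - yy L z * h4

end Pool.Agent.MU3A
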