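import Pool.Agent.MU3.StA

/-!
# MU3A, N8P: multiplication by `1 + w` and by `1 - w` for `w² = -2`

For `s² = -2` (`s = w` or `s = -w`) everything is deduced from the formulas for `x (s z)`, `y (s z)` and the
addition law. The cases: `s z` in the lattice (then `x z = y z = 0` and `(1 + s) z ≡ z`), `z - s z` in the
lattice (then `3 z` is in the lattice, `(1 + s) z ≡ 2 z ≡ - z`, and `x z = (s - 2) / 3`), generic.
-/

set_option autoImplicit false

namespace Pool.Agent.MU3A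

open MU3 Pool.Agent.MU3B Polynomial

noncomputable section

namespace A_N8P

/-- algebra for the generic case -/
theorem alg {s x y X Y : ℂ} (hs : s ^ 2 = -2) (hx0 : x ≠ 0) (hxX : x - X ≠ 0)
    (hX : X * (2 * x) = -(x ^ 2 + 4 * x + 2)) (hY : Y * (2 * s * x ^ 2) = -y * (x ^ 2 - 2))
    (he : y ^ 2 = x ^ 3 + 4 * x ^ 2 + 2 * x) :
    (((y - Y) / (x - X)) ^ 2 - 4 - x - X) * ((1 + s) * x + s) ^ 2 =
        x ^ 3 + (4 - 2 * s) * x ^ 2 + (2 - 4 * s) * x ∧
      (-y - (y - Y) / (x - X) * ((((y - Y) / (x - X)) ^ 2 - 4 - x - X) - x)) *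
          ((1 + s) * x + s) ^ 3 =
        y * (x ^ 3 + (2 + s) * x ^ 2 + (6 + 4 * s) * x + (4 - 2 * s)) := by
  have hs0 : s ≠ 0 := by
    rintro rfl
    norm_num at hs
  have h2x : (2 * x) ≠ 0 := mul_ne_zero two_ne_zero hx0
  have hM1 : (y - Y) / (x - X) * (s * x * ((1 + s) * x + s)) = y * ((s - 1) * x - s) := by
    rw [div_mul_eq_mul_div, div_eq_iff hxX]
    have h2 : 2 * x * ((y - Y) * (s * x * ((1 + s) * x + s)) - y * ((s - 1) * x - s) * (x - X)) =
        0 := by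
      linear_combination (-((1 + s) * x + s)) * hY + (y * ((s - 1) * x - s)) * hX +
        (y * (2 * x ^ 3 + 2 * x ^ 2)) * hs
    exact sub_eq_zero.1 ((mul_eq_zero.1 h2).resolve_left h2x)
  generalize (y - Y) / (x - X) = M at hM1 ⊢
  have hM2 : -2 * x * (M ^ 2 * ((1 + s) * x + s) ^ 2) =
      (x ^ 2 + 4 * x + 2) * ((s - 1) * x - s) ^ 2 := by
    apply mul_left_cancel₀ hx0
    linear_combination (M * (s * x * ((1 + s) * x + s)) + y * ((s - 1) * x - s)) * hM1 -
      (x ^ 2 * M ^ 2 * ((1 + s) * x + s) ^ 2) * hs + (((s - 1) * x - s) ^ 2) * he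
  have hA : (M ^ 2 - 4 - x - X) * ((1 + s) * x + s) ^ 2 =
        x ^ 3 + (4 - 2 * s) * x ^ 2 + (2 - 4 * s) * x := by
    apply mul_left_cancel₀ h2x
    linear_combination -hM2 - (((1 + s) * x + s) ^ 2) * hX -
      (2 * x * (x ^ 3 + 4 * x ^ 2 + x)) * hs
  refine ⟨hA, ?_⟩
  apply mul_left_cancel₀ hs0
  linear_combination (-s * M * ((1 + s) * x + s)) * hA +
    (s * M * ((1 + s) * x + s) * (x ^ 3 + 2 * x ^ 2 + x)) * hs -
    ((2 - 2 * s) * x ^ 2 + (8 - 4 * s) * x + (4 - 4 * s)) * hM1 +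
    (y * (x ^ 3 * (-s ^ 2 - 3 * s + 1) + x ^ 2 * (-3 * s ^ 2 - 6 * s + 4) +
      x * (-3 * s ^ 2 - 3 * s + 2) - s ^ 2)) * hs

/-- the statement for `s² = -2` -/
theorem gen (L : PeriodPair) (s : ℂ) (hs : s ^ 2 = -2) (X Y : ℂ → ℂ)
    (hcl : ∀ z ∈ L.lattice, s * z ∈ L.lattice)
    (h0 : ∀ z, z ∉ L.lattice → (s * z ∈ L.lattice ↔ X z = 0))
    (hx : ∀ z, s * z ∉ L.lattice → X (s * z) * (2 * X z) = -(X z ^ 2 + 4 * X z + 2))
    (hy : ∀ z, s * z ∉ L.lattice → Y (s * z) * (2 * s * X z ^ 2) = -Y z * (X z ^ 2 - 2))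
    (heq : ∀ z, z ∉ L.lattice → Y z ^ 2 = X z ^ 3 + 4 * X z ^ 2 + 2 * X z)
    (hneg : ∀ z, X (-z) = X z ∧ Y (-z) = -Y z)
    (hper : ∀ z, ∀ u ∈ L.lattice, X (z + u) = X z ∧ Y (z + u) = Y z)
    (hinj : ∀ z z', z ∉ L.lattice → z' ∉ L.lattice → X z = X z' →
      z - z' ∈ L.lattice ∨ z + z' ∈ L.lattice)
    (h2 : ∀ z, z ∉ L.lattice → (Y z = 0 ↔ 2 * z ∈ L.lattice))
    (hadd : ∀ z z', z ∉ L.lattice → z' ∉ L.lattice → z + z' ∉ L.lattice → z - z' ∉ L.lattice →
      X (z + z') = ((Y z - Y z') / (X z - X z')) ^ 2 - 4 - X z - X z' ∧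
      Y (z + z') = -Y z - (Y z - Y z') / (X z - X z') * (X (z + z') - X z)) :
    (∀ z, z ∉ L.lattice → ((1 + s) * z ∈ L.lattice ↔ (1 + s) * X z + s = 0)) ∧
    (∀ z, (1 + s) * z ∉ L.lattice → X ((1 + s) * z) * ((1 + s) * X z + s) ^ 2 =
      X z ^ 3 + (4 - 2 * s) * X z ^ 2 + (2 - 4 * s) * X z) ∧
    (∀ z, (1 + s) * z ∉ L.lattice → Y ((1 + s) * z) * ((1 + s) * X z + s) ^ 3 =
      Y z * (X z ^ 3 + (2 + s) * X z ^ 2 + (6 + 4 * s) * X z + (4 - 2 * s))) := by
  -- a point killed by `1 + s` or `1 - s` is killed by `3`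
  have hsn : ∀ z, s * z ∉ L.lattice → z ∉ L.lattice := fun z hz h => hz (hcl z h)
  have h3p : ∀ z, (1 + s) * z ∈ L.lattice → 3 * z ∈ L.lattice := by
    intro z hz
    have h := sub_mem hz (hcl _ hz)
    have e : (1 + s) * z - s * ((1 + s) * z) = 3 * z := by linear_combination (-z) * hs
    rwa [e] at h
  have h3m : ∀ z, (1 - s) * z ∈ L.lattice → 3 * z ∈ L.lattice := by
    intro z hz
    have h := add_mem hz (hcl _ hz)
    have e : (1 - s) * z + s * ((1 - s) * z) = 3 * z := by linear_combination (-z) * hs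
    rwa [e] at h
  have h32 : ∀ z, z ∉ L.lattice → 3 * z ∈ L.lattice → 2 * z ∉ L.lattice := by
    intro z hz h3 h2'
    have h := sub_mem h3 h2'
    have e : 3 * z - 2 * z = z := by ring
    rw [e] at h
    exact hz h
  -- the value of `x` at the points killed by `1 + s`
  have hval : ∀ z, z ∉ L.lattice → (1 + s) * z ∈ L.lattice → X z = (-s - 2) / 3 := by
    intro z hz hz1
    have h3 := h3p z hz1
    have hy0 : Y z ≠ 0 := fun h => h32 z hz h3 ((h2 z hz).1 h)
    have hsz : s * z ∉ L.lattice := by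
      intro h
      have h' := sub_mem hz1 h
      have e : (1 + s) * z - s * z = z := by ring
      rw [e] at h'
      exact hz h'
    have e1 : s * z = -z + (1 + s) * z := by ring
    have eX : X (s * z) = X z := by
      rw [e1, (hper (-z) _ hz1).1, (hneg z).1]
    have eY : Y (s * z) = -Y z := by
      rw [e1, (hper (-z) _ hz1).2, (hneg z).2]
    have q1 := hx z hsz
    have q2 := hy z hsz
    rw [eX] at q1
    rw [eY] at q2
    have q3 : (1 - 2 * s) * X z ^ 2 - 2 = 0 := by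
      have h5 : Y z * ((1 - 2 * s) * X z ^ 2 - 2) = 0 := by linear_combination q2
      exact (mul_eq_zero.1 h5).resolve_left hy0
    linear_combination (1 / 4 : ℂ) * q1 - ((1 + 2 * s) / 12) * q3 - (X z ^ 2 / 3) * hs
  have hvalm : ∀ z, z ∉ L.lattice → s * z ∉ L.lattice → z - s * z ∈ L.lattice →
      2 * z ∉ L.lattice → X z = (s - 2) / 3 := by
    intro z hz hsz hz1 h2z
    have hy0 : Y z ≠ 0 := fun h => h2z ((h2 z hz).1 h)
    have e1 : s * z = z + -(z - s * z) := by ring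
    have eX : X (s * z) = X z := by
      rw [e1, (hper z _ (neg_mem hz1)).1]
    have eY : Y (s * z) = Y z := by
      rw [e1, (hper z _ (neg_mem hz1)).2]
    have q1 := hx z hsz
    have q2 := hy z hsz
    rw [eX] at q1
    rw [eY] at q2
    have q3 : (1 + 2 * s) * X z ^ 2 - 2 = 0 := by
      have h5 : Y z * ((1 + 2 * s) * X z ^ 2 - 2) = 0 := by linear_combination q2
      exact (mul_eq_zero.1 h5).resolve_left hy0
    linear_combination (1 / 4 : ℂ) * q1 - ((1 - 2 * s) / 12) * q3 - (X z ^ 2 / 3) * hs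
  -- the formulas
  have key : ∀ z, (1 + s) * z ∉ L.lattice → X ((1 + s) * z) * ((1 + s) * X z + s) ^ 2 =
      X z ^ 3 + (4 - 2 * s) * X z ^ 2 + (2 - 4 * s) * X z ∧
      Y ((1 + s) * z) * ((1 + s) * X z + s) ^ 3 =
      Y z * (X z ^ 3 + (2 + s) * X z ^ 2 + (6 + 4 * s) * X z + (4 - 2 * s)) := by
    intro z hz
    have hzn : z ∉ L.lattice := by
      intro h
      have h' := add_mem h (hcl z h)
      have e : z + s * z = (1 + s) * z := by ring
      rw [e] at h'
      exact hz h'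
    by_cases hsz : s * z ∈ L.lattice
    · have hX0 : X z = 0 := (h0 z hzn).1 hsz
      have hY0 : Y z = 0 := by
        have := heq z hzn
        rw [hX0] at this
        have h6 : Y z ^ 2 = 0 := by rw [this]; ring
        exact pow_eq_zero_iff two_ne_zero |>.1 h6
      have e : (1 + s) * z = z + s * z := by ring
      rw [e, (hper z _ hsz).1, (hper z _ hsz).2, hX0, hY0]
      constructor <;> ring
    · have e : (1 + s) * z = z + s * z := by ring
      by_cases hm : z - s * z ∈ L.lattice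
      · have h3 : 3 * z ∈ L.lattice := h3m z (by
          have e3 : (1 - s) * z = z - s * z := by ring
          rw [e3]
          exact hm)
        have h2z := h32 z hzn h3
        have hv := hvalm z hzn hsz hm h2z
        have e2 : (1 + s) * z = -z + (3 * z - (z - s * z)) := by ring
        have hu : 3 * z - (z - s * z) ∈ L.lattice := sub_mem h3 hm
        rw [e2, (hper (-z) _ hu).1, (hper (-z) _ hu).2, (hneg z).1, (hneg z).2, hv]
        constructor
        · linear_combination ((s ^ 3 + 2 * s ^ 2 - 5 * s - 6) / 27) * hs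
        · linear_combination (Y z * (-s ^ 4 - 6 * s ^ 3 - 4 * s ^ 2 + 24 * s - 4) / 27) * hs
      · have hzs : z + s * z ∉ L.lattice := by rw [← e]; exact hz
        obtain ⟨a1, a2⟩ := hadd z (s * z) hzn hsz hzs hm
        have hx0 : X z ≠ 0 := fun h => hsz ((h0 z hzn).2 h)
        have hxX : X z - X (s * z) ≠ 0 := by
          intro h
          rcases hinj z (s * z) hzn hsz (sub_eq_zero.1 h) with h' | h'
          · exact hm h'
          · exact hzs h'
        have := alg hs hx0 hxX (hx z hsz) (hy z hsz) (heq z hzn)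
        rw [e, a2, a1]
        exact this
  refine ⟨?_, fun z hz => (key z hz).1, fun z hz => (key z hz).2⟩
  intro z hz
  constructor
  · intro h
    rw [hval z hz h]
    linear_combination (-1 / 3 : ℂ) * hs
  · intro h
    by_contra hcon
    have h5 := (key z hcon).1
    rw [h] at h5
    have hr : X z = (-s - 2) / 3 := by
      linear_combination ((1 - s) / 3) * h + (X z / 3 + 1 / 3) * hs
    rw [hr] at h5
    have h6 : 5 * s - 2 = 0 := by
      linear_combination (-27 / 16 : ℂ) * h5 - ((-7 * s + 18) / 16) * hs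
    have h7 : (-54 : ℂ) = 0 := by
      linear_combination (5 * s + 2) * h6 - 25 * hs
    norm_num at h7

theorem case8 : Case (-2) 0 := Or.inl ⟨rfl, rfl⟩

theorem w_sq : wC (-2) 0 ^ 2 = -2 := by
  have h := wC_sq case8
  rw [sq, h]
  push_cast
  ring

theorem ea2 : emb (a2 (-2) 0) = 4 := by
  have h := emb_natCast case8 4
  simpa [a2] using h

theorem ea4 : emb (a4 (-2) 0) = 2 := by
  have h := emb_natCast case8 2
  simpa [a4] using h

theorem ea6 : emb (a6 (-2) 0) = 0 := by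
  have h := emb_zero case8
  simpa [a6] using h

end A_N8P

theorem ta_N8P (h1 : Sa_N8) (h2 : Sa_EQN) (h3 : Sa_LAW) : Sa_N8P := by
  intro L Om hL
  obtain ⟨k0, k1⟩ := h1 L Om hL
  obtain ⟨q1, -, q3, q4, q5, -, q7, -, -⟩ := h2 (-2) 0 L Om A_N8P.case8 hL
  obtain ⟨l1, -⟩ := h3 (-2) 0 L Om A_N8P.case8 hL
  rw [A_N8P.ea2, A_N8P.ea4, A_N8P.ea6] at q1
  rw [A_N8P.ea2] at l1
  have hw := A_N8P.w_sq
  have hwcl : ∀ z ∈ L.lattice, wC (-2) 0 * z ∈ L.lattice := fun z hz =>
    hL.toIsLat.mul_mem_w A_N8P.case8 hz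
  have heq : ∀ z, z ∉ L.lattice → yy L z ^ 2 =
      xx (-2) 0 L z ^ 3 + 4 * xx (-2) 0 L z ^ 2 + 2 * xx (-2) 0 L z := by
    intro z hz
    rw [q1 z hz]
    ring
  have hnm : ∀ z, -(wC (-2) 0) * z = -(wC (-2) 0 * z) := fun z => neg_mul _ _
  have hmem : ∀ z, -(wC (-2) 0) * z ∈ L.lattice ↔ wC (-2) 0 * z ∈ L.lattice := by
    intro z
    rw [hnm, neg_mem_iff]
  have g1 := A_N8P.gen L (wC (-2) 0) hw (xx (-2) 0 L) (yy L) hwcl k0
    (fun z hz => (k1 z hz).1) (fun z hz => (k1 z hz).2) heq q3 q4 q5 q7 l1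
  have g2 := A_N8P.gen L (-(wC (-2) 0)) (by rw [neg_sq]; exact hw) (xx (-2) 0 L) (yy L)
    (fun z hz => (hmem z).2 (hwcl z hz)) (fun z hz => (hmem z).trans (k0 z hz))
    (fun z hz => by
      rw [hnm, (q3 _).1]
      exact (k1 z (fun h => hz ((hmem z).2 h))).1)
    (fun z hz => by
      rw [hnm, (q3 _).2]
      have := (k1 z (fun h => hz ((hmem z).2 h))).2
      linear_combination this) heq q3 q4 q5 q7 l1
  obtain ⟨a1, a2', a3⟩ := g1
  obtain ⟨b1, b2, b3⟩ := g2
  have e0 : ∀ a b : ℤ, emb (⟨a, b⟩ : OO (-2) 0) = (a : ℂ) + b * wC (-2) 0 := fun a b => rfl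
  have ez : emb (0 : OO (-2) 0) = 0 := emb_zero A_N8P.case8
  have el : emb (⟨1, 1⟩ : OO (-2) 0) = 1 + wC (-2) 0 := by rw [e0]; push_cast; ring
  have el' : emb (⟨1, -1⟩ : OO (-2) 0) = 1 + -(wC (-2) 0) := by rw [e0]; push_cast; ring
  have ed : emb (⟨0, 1⟩ : OO (-2) 0) = wC (-2) 0 := by rw [e0]; push_cast; ring
  have ed' : emb (⟨0, -1⟩ : OO (-2) 0) = -(wC (-2) 0) := by rw [e0]; push_cast; ring
  refine ⟨⟨?_, ?_, ?_⟩, ⟨?_, ?_, ?_⟩⟩
  · intro z hz
    rw [el, ed]
    exact a1 z hz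
  · intro z hz
    rw [el, ed, ez, e0, e0]
    rw [el] at hz
    rw [a2' z hz]
    push_cast
    ring
  · intro z hz
    rw [el, ed, e0, e0, e0]
    rw [el] at hz
    rw [a3 z hz]
    push_cast
    ring
  · intro z hz
    rw [el', ed']
    exact b1 z hz
  · intro z hz
    rw [el', ed', ez, e0, e0]
    rw [el'] at hz
    rw [b2 z hz]
    push_cast
    ring
  · intro z hz
    rw [el', ed', e0, e0, e0]
    rw [el'] at hz
    rw [b3 z hz]
    push_cast
    ring

end

end Pool.Agent.MU3A
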