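import Pool.Agent.MU3.A_ACT

/-!
# MU3, block A: module NEG (`-1` is not in the Galois group)
-/

set_option autoImplicit false

namespace Pool.Agent.MU3A

open MU3 Pool.Agent.MU3B Polynomial NumberField

noncomputable section

variable {A B : ℤ} {L : PeriodPair} {Om : ℂ}

/-- an embedding acting as `-1` on `E[m]` fixes `XF L m` -/
lemma fix_XF {m : OO A B} {F : IntermediateField (kk A B) ℂ} (hq : ∀ z, xx A B L (-z) = xx A B L z)
    (h : Case A B) {σ : F →ₐ[kk A B] ℂ} (hσ : Act L σ m (-1)) (hF : TF L m ≤ F) {x : ℂ}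
    (hx : x ∈ XF L m) : ∃ hx' : x ∈ F, σ ⟨x, hx'⟩ = x := by
  refine IntermediateField.adjoin_induction (F := kk A B)
    (p := fun x _ => ∃ hx' : x ∈ F, σ ⟨x, hx'⟩ = x) ?_ ?_ ?_ ?_ ?_ hx
  · rintro x ⟨z, hz, hzL, rfl⟩
    refine ⟨xF_of hF hz hzL, ?_⟩
    rw [(hσ.2 z hz hzL).2.1, emb_neg h, emb_one h, neg_one_mul, hq]
  · intro r
    exact ⟨F.algebraMap_mem r, σ.commutes r⟩
  · rintro x y - - ⟨hx, h1⟩ ⟨hy, h2⟩
    refine ⟨add_mem hx hy, ?_⟩
    have e : (⟨x + y, add_mem hx hy⟩ : F) = ⟨x, hx⟩ + ⟨y, hy⟩ := rfl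
    rw [e, map_add, h1, h2]
  · rintro x - ⟨hx, h1⟩
    refine ⟨inv_mem hx, ?_⟩
    have e : (⟨x⁻¹, inv_mem hx⟩ : F) = (⟨x, hx⟩)⁻¹ := rfl
    rw [e, map_inv₀, h1]
  · rintro x y - - ⟨hx, h1⟩ ⟨hy, h2⟩
    refine ⟨mul_mem hx hy, ?_⟩
    have e : (⟨x * y, mul_mem hx hy⟩ : F) = ⟨x, hx⟩ * ⟨y, hy⟩ := rfl
    rw [e, map_mul, h1, h2]

/-- a point `z₀` with `y(z₀)` in the `x`-field, not of order two -/
lemma exists_pt (h8 : Sa_M8) (h11 : Sa_M11) (h : Case A B) (hL : IsCM A B L Om) :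
    ∃ z, emb (mz A B) * z ∈ L.lattice ∧ 2 * z ∉ L.lattice ∧ z ∉ L.lattice ∧
      yy L z ∈ XF L (mz A B) := by
  have hw := wC_sq h
  have hw0 := wC_ne_zero h
  have hO := hL.Om_ne
  rcases h with ⟨rfl, rfl⟩ | ⟨rfl, rfl⟩
  · have hc : Case (-2) 0 := Or.inl ⟨rfl, rfl⟩
    have hm : mz (-2) 0 = ⟨0, 4⟩ := by simp [mz]
    have hw2 : wC (-2) 0 ^ 2 = -2 := by rw [sq, hw]; push_cast; ring
    have hw4 : wC (-2) 0 ^ 4 = 4 := by
      have : wC (-2) 0 ^ 4 = (wC (-2) 0 ^ 2) ^ 2 := by ring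
      rw [this, hw2]; norm_num
    have hw5 : wC (-2) 0 ^ 5 = 4 * wC (-2) 0 := by
      have : wC (-2) 0 ^ 5 = wC (-2) 0 ^ 4 * wC (-2) 0 := by ring
      rw [this, hw4]
    have he : emb (⟨0, 4⟩ : OO (-2) 0) = 4 * wC (-2) 0 := by simp [emb]
    have hne : (⟨0, 4⟩ : OO (-2) 0) ≠ 0 := fun h0 => by
      have := congrArg QuadraticAlgebra.im h0
      simp at this
    have h1 : Om / wC (-2) 0 ^ 5 = Om / emb (⟨0, 4⟩ : OO (-2) 0) := by rw [he, hw5]
    have nd : ∀ x : OO (-2) 0, x.re = 2 ∨ x.re = 1 → x.im = 0 → ¬ (⟨0, 4⟩ : OO (-2) 0) ∣ x := by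
      rintro x hx - ⟨y, rfl⟩
      simp only [QuadraticAlgebra.re_mul] at hx
      omega
    refine ⟨Om / wC (-2) 0 ^ 5, ?_, ?_, ?_, by rw [hm]; exact h8 L Om hL⟩
    · rw [hm, h1]
      exact (hL.torsion_iff hc hne _).2 ⟨1, by rw [emb_one hc]; ring⟩
    · rw [h1]
      have e : (2 : ℂ) * (Om / emb (⟨0, 4⟩ : OO (-2) 0)) =
          emb (2 : OO (-2) 0) * (Om / emb (⟨0, 4⟩ : OO (-2) 0)) := by
        congr 1
        have := emb_natCast hc 2
        simpa using this.symm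
      rw [e, hL.mul_div_mem_iff hc hne]
      exact nd _ (Or.inl rfl) rfl
    · rw [h1]
      have e : (Om / emb (⟨0, 4⟩ : OO (-2) 0)) =
          emb (1 : OO (-2) 0) * (Om / emb (⟨0, 4⟩ : OO (-2) 0)) := by rw [emb_one hc, one_mul]
      rw [e, hL.mul_div_mem_iff hc hne]
      exact nd _ (Or.inr rfl) rfl
  · have hc : Case (-3) 1 := Or.inr ⟨rfl, rfl⟩
    have hm : mz (-3) 1 = 4 := by simp [mz]
    have he : emb (4 : OO (-3) 1) = 4 := by
      have := emb_natCast hc 4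
      simpa using this
    have hne : (4 : OO (-3) 1) ≠ 0 := fun h0 => by
      have h1 := congrArg emb h0
      rw [he, emb_zero hc] at h1
      norm_num at h1
    have h1 : Om / 4 = Om / emb (4 : OO (-3) 1) := by rw [he]
    have nd : ∀ x : OO (-3) 1, x.re = 2 ∨ x.re = 1 → ¬ (4 : OO (-3) 1) ∣ x := by
      rintro x hx ⟨y, rfl⟩
      have e4 : (4 : OO (-3) 1) * y = (4 : ℤ) • y := by
        rw [zsmul_eq_mul]; norm_num
      rw [e4] at hx
      simp only [QuadraticAlgebra.re_smul, smul_eq_mul] at hx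
      omega
    refine ⟨Om / 4, ?_, ?_, ?_, by rw [hm]; exact h11 L Om hL⟩
    · rw [hm, h1]
      exact (hL.torsion_iff hc hne _).2 ⟨1, by rw [emb_one hc]; ring⟩
    · rw [h1]
      have e : (2 : ℂ) * (Om / emb (4 : OO (-3) 1)) =
          emb (2 : OO (-3) 1) * (Om / emb (4 : OO (-3) 1)) := by
        congr 1
        have := emb_natCast hc 2
        simpa using this.symm
      rw [e, hL.mul_div_mem_iff hc hne]
      exact nd _ (Or.inl rfl)
    · rw [h1]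
      have e : (Om / emb (4 : OO (-3) 1)) =
          emb (1 : OO (-3) 1) * (Om / emb (4 : OO (-3) 1)) := by rw [emb_one hc, one_mul]
      rw [e, hL.mul_div_mem_iff hc hne]
      exact nd _ (Or.inr rfl)

theorem ta_NEG (h8 : Sa_M8) (h11 : Sa_M11) (hE : Sa_EQN) (hA : Sa_ACT) (h5 : Sa_S5) : Sa_NEG := by
  intro A B L Om h hL m hm hmz
  obtain ⟨q1, q2, q3, q4, q5, q6, q7, q8, q9⟩ := hE A B L Om h hL
  obtain ⟨act1, act2, act3, act4, -, -, act7, -⟩ := hA A B L Om h hL m hm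
  have hm0 : mz A B ≠ 0 := fun h0 => hm (by rw [h0] at hmz; exact zero_dvd_iff.1 hmz)
  obtain ⟨bct1, bct2, bct3, -⟩ := hA A B L Om h hL (mz A B) hm0
  have neg : ∀ (F : IntermediateField (kk A B) ℂ), TF L m ≤ F → ∀ (σ : F →ₐ[kk A B] ℂ)
      (a : OO A B), m ∣ a + 1 → ¬ Act L σ m a := by
    intro F hF σ a ha hσ
    have h1 := act3 F σ a _ hmz hσ
    have h2 : Act L σ (mz A B) (-1) := bct2 F σ a (-1) (by
      rw [sub_neg_eq_add]; exact hmz.trans ha) h1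
    obtain ⟨z, hz1, hz2, hz3, hz4⟩ := exists_pt h8 h11 h hL
    have hFm : TF L (mz A B) ≤ F := by
      refine le_trans ?_ hF
      refine IntermediateField.adjoin.mono _ _ _ ?_
      rintro c ⟨z, hz, hz', hc⟩
      obtain ⟨d, hd⟩ := hmz
      refine ⟨z, ?_, hz', hc⟩
      rw [hd, emb_mul h, mul_comm (emb (mz A B)), mul_assoc]
      exact hL.emb_mul_mem h d hz
    obtain ⟨hy, hy'⟩ := fix_XF (fun z => (q3 z).1) h h2 hFm hz4
    have h3 := (h2.2 z hz1 hz3).2.2 hy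
    rw [emb_neg h, emb_one h, neg_one_mul, (q3 z).2, hy'] at h3
    have h4 : yy L z = 0 := by linear_combination (1 / 2) * h3
    exact hz2 ((q7 z hz3).1 h4)
  have pw : ∀ (F : IntermediateField (kk A B) ℂ), TF L m ≤ F → ∀ (σ : F ≃ₐ[kk A B] F)
      (a : OO A B) (j : ℕ), Act L (em σ) m a → Act L (em (σ ^ j)) m (a ^ j) := by
    intro F hF σ a j ha
    induction j with
    | zero => simpa using act7 F hF
    | succ j ih => rw [pow_succ, pow_succ]; exact act4 F _ _ _ _ hF ih ha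
  refine ⟨neg, ?_, ?_⟩
  · intro F _ _ hF c hc
    have hfin : ∀ (σ : F ≃ₐ[kk A B] F), ∃ j : ℕ, 0 < j ∧ σ ^ j = 1 := fun σ =>
      ⟨orderOf σ, orderOf_pos σ, pow_orderOf_eq_one σ⟩
    constructor
    · rintro ⟨σ, hσ⟩ ⟨τ, hτ⟩
      obtain ⟨j, hj, hj1⟩ := hfin σ
      -- `σ ^ (j - 1) * τ` acts as `- c ^ j`, and `c ^ j ≡ 1`
      have e1 := pw F hF σ c j hσ
      rw [hj1] at e1
      have e2 : m ∣ 1 - c ^ j := act1 F _ _ _ hF (act7 F hF) e1
      have e3 := act4 F _ _ _ _ hF (pw F hF σ c (j - 1) hσ) hτ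
      refine neg F hF _ _ ?_ e3
      have e4 : c ^ (j - 1) * -c + 1 = 1 - c ^ j := by
        have : c ^ j = c ^ (j - 1) * c := by
          rw [← pow_succ, Nat.sub_add_cancel hj]
        rw [this]; ring
      rw [e4]; exact e2
    · intro hno
      obtain ⟨σ, hσ | hσ⟩ := h5 A B L Om h hL m hm F hF c hc
      · exact ⟨σ, hσ⟩
      · exact absurd ⟨σ, hσ⟩ hno
  · intro F _ _ hF c j hj hcj
    have hc : IsCoprime c m := by
      obtain ⟨d, hd⟩ := hcj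
      have hj0 : 0 < j := hj.pos
      refine ⟨c ^ (j - 1), -d, ?_⟩
      have : c ^ (j - 1) * c = c ^ j := by rw [← pow_succ, Nat.sub_add_cancel hj0]
      rw [this]
      linear_combination hd
    obtain ⟨σ, hσ | hσ⟩ := h5 A B L Om h hL m hm F hF c hc
    · exact ⟨σ, hσ⟩
    · exfalso
      have e1 := pw F hF σ _ j hσ
      rw [hj.neg_pow] at e1
      refine neg F hF _ _ ?_ e1
      have e2 : -c ^ j + 1 = -(c ^ j - 1) := by ring
      rw [e2, dvd_neg]; exact hcj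

end

end Pool.Agent.MU3A
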