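import Pool.Agent.MU3.StA2

/-!
# MU3, block A, NRM: the torsion field `F_m / k` is a finite Galois extension
-/

set_option autoImplicit false

namespace Pool.Agent.MU3A

open MU3 Polynomial

namespace P_NRM

variable {A B : ℤ}

/-- `m` divides its norm -/
theorem dvd_nm (m : OO A B) : m ∣ ((nm m : ℤ) : OO A B) := by
  refine ⟨⟨m.re + B * m.im, -m.im⟩, ?_⟩
  ext
  · simp only [QuadraticAlgebra.re_mul, QuadraticAlgebra.re_intCast, nm, Int.cast_id]
    ring
  · simp only [QuadraticAlgebra.im_mul, QuadraticAlgebra.im_intCast]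
    ring

/-- the generators of the torsion field -/
def gens (A B : ℤ) (L : PeriodPair) (m : OO A B) : Set ℂ :=
  {c | ∃ z : ℂ, emb m * z ∈ L.lattice ∧ z ∉ L.lattice ∧ (c = xx A B L z ∨ c = yy L z)}

theorem mem_TF {L : PeriodPair} {m : OO A B} {c : ℂ} (hc : c ∈ gens A B L m) : c ∈ TF L m :=
  IntermediateField.subset_adjoin _ _ hc

theorem gens_finite (hE : Sa_EQN) (hP : Sa_PID) (hc : Case A B) {L : PeriodPair} {Om : ℂ}
    (hL : IsCM A B L Om) {m : OO A B} (hm : m ≠ 0) : (gens A B L m).Finite := by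
  obtain ⟨-, -, -, hper, -⟩ := hE A B L Om hc hL
  have hN : nm m ≠ 0 := fun h => hm (((hP A B hc).2.2.2.2.1 m).1 h)
  set N := nm m with hNd
  have hfin : ((Set.Ico (0 : ℤ) |N|) ×ˢ (Set.Ico (0 : ℤ) |N|)).Finite :=
    (Set.finite_Ico _ _).prod (Set.finite_Ico _ _)
  refine ((hfin.image (fun p : ℤ × ℤ => xx A B L (emb (⟨p.1, p.2⟩ : OO A B) * (Om / emb m)))).union
    (hfin.image (fun p : ℤ × ℤ => yy L (emb (⟨p.1, p.2⟩ : OO A B) * (Om / emb m))))).subset ?_
  rintro c ⟨z, hz1, hz2, hz3⟩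
  obtain ⟨x, rfl⟩ := (hL.toIsLat.torsion_iff hc hm z).1 hz1
  have hmem : ((x.re % N, x.im % N) : ℤ × ℤ) ∈ (Set.Ico (0 : ℤ) |N|) ×ˢ (Set.Ico (0 : ℤ) |N|) :=
    ⟨⟨Int.emod_nonneg _ hN, Int.emod_lt_abs _ hN⟩, ⟨Int.emod_nonneg _ hN, Int.emod_lt_abs _ hN⟩⟩
  have hdiv : m ∣ x - ⟨x.re % N, x.im % N⟩ := by
    refine (dvd_nm m).trans ⟨⟨x.re / N, x.im / N⟩, ?_⟩
    have e1 := Int.mul_ediv_add_emod x.re N
    have e2 := Int.mul_ediv_add_emod x.im N
    ext
    · simp only [QuadraticAlgebra.re_mul, QuadraticAlgebra.re_intCast, QuadraticAlgebra.im_intCast,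
        QuadraticAlgebra.re_sub, ← hNd]
      linear_combination -e1
    · simp only [QuadraticAlgebra.im_mul, QuadraticAlgebra.re_intCast, QuadraticAlgebra.im_intCast,
        QuadraticAlgebra.im_sub, ← hNd]
      linear_combination -e2
  have hlat := (hL.toIsLat.mul_div_mem_iff hc hm _).2 hdiv
  have hdec : emb x * (Om / emb m) = emb (⟨x.re % N, x.im % N⟩ : OO A B) * (Om / emb m) +
      emb (x - ⟨x.re % N, x.im % N⟩) * (Om / emb m) := by
    rw [emb_sub hc]; ring
  have hp := hper (emb (⟨x.re % N, x.im % N⟩ : OO A B) * (Om / emb m)) _ hlat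
  rw [← hdec] at hp
  rcases hz3 with h | h
  · exact Or.inl ⟨(x.re % N, x.im % N), hmem, by rw [h, hp.1]⟩
  · exact Or.inr ⟨(x.re % N, x.im % N), hmem, by rw [h, hp.2]⟩

/-- a finite extension inside an algebraically closed field which contains the images of all
embeddings is normal -/
theorem normal_of {k K : Type*} [Field k] [Field K] [Algebra k K] [IsAlgClosed K]
    (F : IntermediateField k K) [Algebra.IsAlgebraic k F]
    (h : ∀ σ : F →ₐ[k] K, ∀ x : F, σ x ∈ F) : Normal k F := by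
  rw [normal_iff]
  intro x
  refine ⟨Algebra.IsIntegral.isIntegral x, ?_⟩
  apply IntermediateField.splits_of_splits (IsAlgClosed.splits _)
  intro r hr
  rw [← Algebra.IsAlgebraic.range_eval_eq_rootSet_minpoly (F := k) K x] at hr
  obtain ⟨σ, rfl⟩ := hr
  exact h σ x

end P_NRM

open P_NRM in
/-- (NRM) `F_m / k` is a finite Galois extension -/
theorem ta_NRM (h1 : Sa_ALG) (h2 : Sa_GAL) (h3 : Sa_EQN) (h4 : Sa_PID) : Sa_NRM := by
  intro A B L Om hc hL m hm
  have hfin := gens_finite h3 h4 hc hL hm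
  have : Finite (gens A B L m) := hfin
  have hint : ∀ x ∈ gens A B L m, IsIntegral (kk A B) x := by
    rintro x ⟨z, hz1, hz2, hz3⟩
    have := h1 A B L Om hc hL m hm z hz1 hz2
    rcases hz3 with h | h
    · rw [h]; exact this.1.isIntegral
    · rw [h]; exact this.2.isIntegral
  have hfd : FiniteDimensional (kk A B) (TF L m) :=
    IntermediateField.finiteDimensional_adjoin (S := gens A B L m) hint
  refine ⟨hfd, ?_⟩
  have halg : Algebra.IsAlgebraic (kk A B) (TF L m) := inferInstance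
  have hnor : Normal (kk A B) (TF L m) := by
    apply normal_of
    intro σ x
    obtain ⟨a, ha1, ha2⟩ := h2 A B L Om hc hL m hm (TF L m) le_rfl σ
    have hgen : ∀ c (hc' : c ∈ gens A B L m), σ ⟨c, mem_TF hc'⟩ ∈ TF L m := by
      intro c hc'
      obtain ⟨z, hz1, hz2, hz3⟩ := id hc'
      obtain ⟨hz4, hz5, hz6⟩ := ha2 z hz1 hz2
      have hz7 : emb m * (emb a * z) ∈ L.lattice := by
        have := hL.toIsLat.emb_mul_mem hc a hz1
        rwa [mul_left_comm] at this
      rcases hz3 with h | h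
      · subst h
        rw [hz5]
        exact mem_TF ⟨emb a * z, hz7, hz4, Or.inl rfl⟩
      · subst h
        rw [hz6]
        exact mem_TF ⟨emb a * z, hz7, hz4, Or.inr rfl⟩
    have hall : ∀ x (hx : x ∈ TF L m), σ ⟨x, hx⟩ ∈ TF L m := by
      intro x hx
      have hx' : x ∈ IntermediateField.adjoin (kk A B) (gens A B L m) := hx
      induction hx' using IntermediateField.adjoin_induction with
      | mem c hc' => exact hgen c hc'
      | algebraMap c =>
        have h := σ.commutes c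
        have e : (algebraMap (kk A B) (TF L m) c) = ⟨algebraMap (kk A B) ℂ c, hx⟩ := rfl
        rw [← e, h]
        exact IntermediateField.algebraMap_mem _ c
      | add x y hu hv ihx ihy =>
        have hu' : x ∈ TF L m := hu
        have hv' : y ∈ TF L m := hv
        have e : σ (⟨x + y, hx⟩ : TF L m)
            = σ (⟨x, hu'⟩ : TF L m) + σ (⟨y, hv'⟩ : TF L m) := by
          rw [← map_add]; rfl
        rw [e]
        exact add_mem (ihx hu') (ihy hv')
      | inv x hu ih =>
        have hu' : x ∈ TF L m := hu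
        have e : σ (⟨x⁻¹, hx⟩ : TF L m) = (σ (⟨x, hu'⟩ : TF L m))⁻¹ := by
          rw [← map_inv₀]; rfl
        rw [e]
        exact inv_mem (ih hu')
      | mul x y hu hv ihx ihy =>
        have hu' : x ∈ TF L m := hu
        have hv' : y ∈ TF L m := hv
        have e : σ (⟨x * y, hx⟩ : TF L m)
            = σ (⟨x, hu'⟩ : TF L m) * σ (⟨y, hv'⟩ : TF L m) := by
          rw [← map_mul]; rfl
        rw [e]
        exact mul_mem (ihx hu') (ihy hv')
    exact hall x.1 x.2
  have hchar : CharZero (kk A B) := inferInstance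
  have hsep : Algebra.IsSeparable (kk A B) (TF L m) := inferInstance
  exact ⟨⟩

end Pool.Agent.MU3A
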