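import Pool.Agent.MU3.StA

/-!
# MU3, OMU (helper69): multiplication by `w` is given by rational functions over `k`
-/

set_option autoImplicit false

open MU3 Pool.Agent.MU3B Polynomial

namespace Pool.Agent.MU3A

namespace OMU

theorem aev {A B : ℤ} (x : ℂ) (c : OO A B) : aeval x (C (ek c) : (kk A B)[X]) = emb c := by
  rw [aeval_C]
  rfl

theorem iso {A B : ℤ} (L : PeriodPair) (lam d0 n2 n1 n0 m2 m1 m0 : OO A B)
    (h : Iso3 L lam d0 n2 n1 n0 m2 m1 m0) (z : ℂ) (hz : z ∉ L.lattice) :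
    (emb lam * z ∈ L.lattice →
      aeval (xx A B L z) ((C (ek lam) * X + C (ek d0)) ^ 2 : (kk A B)[X]) = 0) ∧
    (emb lam * z ∉ L.lattice →
      aeval (xx A B L z) ((C (ek lam) * X + C (ek d0)) ^ 2 : (kk A B)[X]) ≠ 0 ∧
      aeval (xx A B L z) ((C (ek lam) * X + C (ek d0)) ^ 3 : (kk A B)[X]) ≠ 0 ∧
      xx A B L (emb lam * z) *
        aeval (xx A B L z) ((C (ek lam) * X + C (ek d0)) ^ 2 : (kk A B)[X]) =
        aeval (xx A B L z)
          (X ^ 3 + C (ek n2) * X ^ 2 + C (ek n1) * X + C (ek n0) : (kk A B)[X]) ∧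
      yy L (emb lam * z) *
        aeval (xx A B L z) ((C (ek lam) * X + C (ek d0)) ^ 3 : (kk A B)[X]) =
        yy L z * aeval (xx A B L z)
          (X ^ 3 + C (ek m2) * X ^ 2 + C (ek m1) * X + C (ek m0) : (kk A B)[X])) := by
  simp only [map_add, map_mul, map_pow, aev, aeval_X]
  constructor
  · intro h1
    rw [(h.ker z hz).1 h1]
    ring
  · intro h1
    have h2 : emb lam * xx A B L z + emb d0 ≠ 0 := fun h3 => h1 ((h.ker z hz).2 h3)
    exact ⟨pow_ne_zero 2 h2, pow_ne_zero 3 h2, h.x z h1, h.y z h1⟩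

end OMU

theorem ta_OMU (h1 : Sa_N8) (h2 : Sa_N11) : Sa_OMU := by
  intro A B hc
  rcases hc with ⟨rfl, rfl⟩ | ⟨rfl, rfl⟩
  · refine ⟨C (ek 2) * X, -(X ^ 2 + C (ek 4) * X + C (ek 2)),
      C (ek 2) * C (ek ⟨0, 1⟩) * X ^ 2, -(X ^ 2 - C (ek 2)), ?_⟩
    intro L Om hL z hz
    have hc : Case (-2) 0 := Or.inl ⟨rfl, rfl⟩
    obtain ⟨h3, h4⟩ := h1 L Om hL
    have e2 : emb (2 : OO (-2) 0) = 2 := by
      have := emb_natCast hc 2
      simpa using this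
    have e4 : emb (4 : OO (-2) 0) = 4 := by
      have := emb_natCast hc 4
      simpa using this
    simp only [map_add, map_sub, map_neg, map_mul, map_pow, OMU.aev, aeval_X, emb_w, e2, e4]
    constructor
    · intro h5
      rw [(h3 z hz).1 h5]
      ring
    · intro h5
      have h6 : xx (-2) 0 L z ≠ 0 := fun h7 => h5 ((h3 z hz).2 h7)
      have h7 : wC (-2) 0 ≠ 0 := wC_ne_zero hc
      obtain ⟨h8, h9⟩ := h4 z h5
      refine ⟨mul_ne_zero two_ne_zero h6,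
        mul_ne_zero (mul_ne_zero two_ne_zero h7) (pow_ne_zero 2 h6), h8, ?_⟩
      rw [h9]
      ring
  · refine ⟨(C (ek ⟨0, 1⟩) * X + C (ek (-1))) ^ 2,
      X ^ 3 + C (ek ⟨0, 3⟩) * X ^ 2 + C (ek ⟨-6, 1⟩) * X + C (ek ⟨0, -1⟩),
      (C (ek ⟨0, 1⟩) * X + C (ek (-1))) ^ 3,
      X ^ 3 + C (ek ⟨-1, 1⟩) * X ^ 2 + C (ek ⟨0, -1⟩) * X + C (ek 1), ?_⟩
    intro L Om hL z hz
    have h3 := OMU.iso L _ _ _ _ _ _ _ _ (h2 L Om hL) z hz
    rw [emb_w] at h3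
    exact h3

end Pool.Agent.MU3A
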