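import Pool.Agent.MU3.StA2
import Pool.Agent.MU3.G_G0

/-!
# MU3, block A: (PID)
-/

set_option autoImplicit false

namespace Pool.Agent.MU3A

open MU3 Pool.Agent.MU3B Polynomial NumberField Pool.Agent.MU3G

namespace PID

variable {A B : ℤ}

theorem nm_natCast (n : ℕ) : nm (n : OO A B) = (n : ℤ) ^ 2 := by
  rw [G0.nm_eq, QuadraticAlgebra.norm_natCast]

theorem self_dvd (x : OO A B) : x ∣ ((nm x : ℤ) : OO A B) := by
  refine ⟨star x, ?_⟩
  have h := QuadraticAlgebra.algebraMap_norm_eq_mul_star x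
  rw [← G0.nm_eq] at h
  rw [← h]
  simp

theorem unit_nm (h : Case A B) (x : OO A B) : IsUnit x ↔ nm x = 1 := by
  rw [G0.unit_iff, Int.isUnit_iff]
  have := G0.nm_nonneg h x
  constructor
  · rintro (h1 | h1)
    · exact h1
    · omega
  · exact Or.inl

theorem prime_cases (h : Case A B) (p : OO A B) (hp : Prime p) :
    (∃ q : ℕ, q.Prime ∧ nm p = q) ∨ ∃ q : ℕ, q.Prime ∧ (p = q ∨ p = -(q : OO A B)) := by
  have hpos := G0.nm_pos h hp.ne_zero
  obtain ⟨N, hN⟩ := Int.eq_ofNat_of_zero_le hpos.le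
  have hN0 : N ≠ 0 := by
    rintro rfl
    rw [hN] at hpos
    simp at hpos
  have h1 : p ∣ ((N.primeFactorsList.map (fun q : ℕ => (q : OO A B))).prod) := by
    have h2 : ((N.primeFactorsList.map (fun q : ℕ => (q : OO A B))).prod) = ((nm p : ℤ) : OO A B) := by
      rw [hN]
      have h3 := Nat.prod_primeFactorsList hN0
      conv_rhs => rw [← h3]
      rw [Int.cast_natCast, Nat.cast_list_prod]
    rw [h2]
    exact self_dvd p
  obtain ⟨z, hz, hpz⟩ := (Prime.dvd_prod_iff hp).1 h1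
  rw [List.mem_map] at hz
  obtain ⟨q, hq, rfl⟩ := hz
  have hqp : q.Prime := Nat.prime_of_mem_primeFactorsList hq
  obtain ⟨s, hs⟩ := hpz
  obtain ⟨M, hM⟩ := Int.eq_ofNat_of_zero_le (G0.nm_nonneg h s)
  have h4 : N * M = q ^ 2 := by
    have h5 : nm p * nm s = (q : ℤ) ^ 2 := by
      rw [← G0.nm_mul, ← hs, nm_natCast]
    rw [hN, hM] at h5
    exact_mod_cast h5
  obtain ⟨k, hk, hk2⟩ := (Nat.dvd_prime_pow hqp).1 (Dvd.intro _ h4)
  interval_cases k
  · exfalso
    apply hp.not_unit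
    rw [unit_nm h, hN, hk2]
    simp
  · left
    refine ⟨q, hqp, ?_⟩
    rw [hN, hk2, pow_one]
  · right
    refine ⟨q, hqp, ?_⟩
    have h6 : M = 1 := by
      rw [hk2] at h4
      have h7 : 0 < q ^ 2 := pow_pos hqp.pos 2
      exact Nat.eq_of_mul_eq_mul_left h7 (by rw [h4, mul_one])
    have h8 : IsUnit s := by
      rw [unit_nm h, hM, h6]
      simp
    rcases (G0.units h s).1 h8 with h9 | h9
    · left
      rw [hs, h9, mul_one]
    · right
      rw [hs, h9]
      ring

theorem prime_of_nm (h : Case A B) (p : OO A B) (hp : (nm p).natAbs.Prime) : Prime p := by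
  have := G0.dom h
  have := G0.pid h
  rw [← irreducible_iff_prime]
  rw [← Int.prime_iff_natAbs_prime] at hp
  constructor
  · intro hu
    rw [G0.unit_iff] at hu
    exact hp.not_unit hu
  · intro x y hxy
    have h1 : nm p = nm x * nm y := by
      rw [← G0.nm_mul, ← hxy]
    rcases hp.irreducible.isUnit_or_isUnit h1 with h2 | h2
    · exact Or.inl ((G0.unit_iff x).2 h2)
    · exact Or.inr ((G0.unit_iff y).2 h2)

end PID

theorem ta_PID : Sa_PID := by
  intro A B h
  refine ⟨G0.dom h, G0.pid h, G0.nm_nonneg h, G0.nm_mul, fun x => ⟨G0.nm_zero h, ?_⟩,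
    G0.emb_norm h, G0.units h, PID.unit_nm h, PID.prime_cases h, PID.prime_of_nm h⟩
  rintro rfl
  simp [nm]

end Pool.Agent.MU3A
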