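import Pool.Agent.MU3.StA

/-!
# MU3, block A: module R11 (the lattice with complex multiplication by `w`, `w² = w - 3`)
-/

set_option autoImplicit false

namespace Pool.Agent.MU3A

open MU3 Pool.Agent.MU3B Polynomial

noncomputable section

namespace R11

lemma case11 : Case (-3) 1 := Or.inr ⟨rfl, rfl⟩

lemma w_sq : wC (-3) 1 ^ 2 = wC (-3) 1 - 3 := by
  have := wC_sq case11
  push_cast at this
  linear_combination this

lemma dvd_iff (a b : ℤ) : (⟨0, 1⟩ : OO (-3) 1) ∣ ⟨a, b⟩ ↔ (3 : ℤ) ∣ a := by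
  constructor
  · rintro ⟨y, hy⟩
    have h := congrArg QuadraticAlgebra.re hy
    simp only [QuadraticAlgebra.re_mul] at h
    exact ⟨-y.im, by linarith⟩
  · rintro ⟨c, hc⟩
    refine ⟨⟨b + c, -c⟩, ?_⟩
    ext
    · simp only [QuadraticAlgebra.re_mul]
      linarith
    · simp only [QuadraticAlgebra.im_mul]
      ring

variable {L : PeriodPair} {Om : ℂ}

lemma u_mem_iff (hL : IsLat (-3) 1 L Om) (a b : ℤ) :
    ((a : ℂ) + b * wC (-3) 1) * (Om / wC (-3) 1) ∈ L.lattice ↔ (3 : ℤ) ∣ a := by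
  have h := hL.mul_div_mem_iff case11 (m := ⟨0, 1⟩) (by
    intro h
    have := congrArg QuadraticAlgebra.im h
    simp at this) ⟨a, b⟩
  rw [emb_w] at h
  rw [← dvd_iff a b, ← h]
  simp only [emb]

lemma core {w x0 g2 g3 e e' e'' : ℂ} (h1 : e + e' + e'' = 0)
    (h2 : e * e' + e * e'' + e' * e'' = -(g2 / 4)) (h3 : e * e' * e'' = g3 / 4)
    (n1 : e ≠ x0) (n2 : e' ≠ x0) (n3 : e'' ≠ x0)
    (P1 : w ^ 2 * e' * (e - x0) ^ 2 = e * (e - x0) ^ 2 + (6 * x0 ^ 2 - g2 / 2) * (e - x0) +
      (4 * x0 ^ 3 - g2 * x0 - g3))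
    (P2 : w ^ 2 * e'' * (e' - x0) ^ 2 = e' * (e' - x0) ^ 2 + (6 * x0 ^ 2 - g2 / 2) * (e' - x0) +
      (4 * x0 ^ 3 - g2 * x0 - g3))
    (P3 : w ^ 2 * e * (e'' - x0) ^ 2 = e'' * (e'' - x0) ^ 2 + (6 * x0 ^ 2 - g2 / 2) * (e'' - x0) +
      (4 * x0 ^ 3 - g2 * x0 - g3)) :
    w ^ 2 * g2 = -24 * x0 ^ 2 := by
  have m1 : e - x0 ≠ 0 := sub_ne_zero.2 n1
  have m2 : e' - x0 ≠ 0 := sub_ne_zero.2 n2
  have m3 : e'' - x0 ≠ 0 := sub_ne_zero.2 n3
  obtain ⟨A, hA⟩ : ∃ A, A = 6 * x0 ^ 2 - g2 / 2 := ⟨_, rfl⟩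
  obtain ⟨B, hB⟩ : ∃ B, B = 4 * x0 ^ 3 - g2 * x0 - g3 := ⟨_, rfl⟩
  rw [← hA, ← hB] at P1 P2 P3
  have hB' : B = -4 * ((e - x0) * (e' - x0) * (e'' - x0)) := by
    rw [hB]
    linear_combination (4 * x0 ^ 2) * h1 - (4 * x0) * h2 + 4 * h3
  obtain ⟨p, hp⟩ : ∃ p, p = (e - x0)⁻¹ := ⟨_, rfl⟩
  obtain ⟨p', hp'⟩ : ∃ p, p = (e' - x0)⁻¹ := ⟨_, rfl⟩
  obtain ⟨p'', hp''⟩ : ∃ p, p = (e'' - x0)⁻¹ := ⟨_, rfl⟩
  have q1 : (e - x0) * p = 1 := by rw [hp]; exact mul_inv_cancel₀ m1
  have q2 : (e' - x0) * p' = 1 := by rw [hp']; exact mul_inv_cancel₀ m2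
  have q3 : (e'' - x0) * p'' = 1 := by rw [hp'']; exact mul_inv_cancel₀ m3
  have r1 : w ^ 2 * e' = e + A * p + B * p ^ 2 := by
    rw [hp]; field_simp; linear_combination P1
  have r2 : w ^ 2 * e'' = e' + A * p' + B * p' ^ 2 := by
    rw [hp']; field_simp; linear_combination P2
  have r3 : w ^ 2 * e = e'' + A * p'' + B * p'' ^ 2 := by
    rw [hp'']; field_simp; linear_combination P3
  have hs : A * (p + p' + p'') + B * (p ^ 2 + p' ^ 2 + p'' ^ 2) = 0 := by
    linear_combination (-1) * r1 - r2 - r3 + (w ^ 2 - 1) * h1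
  have hBs : B * (p + p' + p'') = -2 * A := by
    have : B * (p + p' + p'') = -4 * ((e' - x0) * (e'' - x0) + (e - x0) * (e'' - x0) +
        (e - x0) * (e' - x0)) := by
      rw [hB']
      linear_combination (-4 * (e' - x0) * (e'' - x0)) * q1 - (4 * (e - x0) * (e'' - x0)) * q2 -
        (4 * (e - x0) * (e' - x0)) * q3
    rw [this, hA]
    linear_combination (8 * x0) * h1 - 4 * h2
  have t1 : e * (A * p + B * p ^ 2) = A + B * p + x0 * (A * p + B * p ^ 2) := by
    linear_combination (A + B * p) * q1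
  have t2 : e' * (A * p' + B * p' ^ 2) = A + B * p' + x0 * (A * p' + B * p' ^ 2) := by
    linear_combination (A + B * p') * q2
  have t3 : e'' * (A * p'' + B * p'' ^ 2) = A + B * p'' + x0 * (A * p'' + B * p'' ^ 2) := by
    linear_combination (A + B * p'') * q3
  have hfin : w ^ 2 * (-(g2 / 4)) = g2 / 2 + A := by
    linear_combination (-w ^ 2) * h2 + e * r1 + e' * r2 + e'' * r3 + t1 + t2 + t3 + x0 * hs + hBs +
      (e + e' + e'') * h1 - 2 * h2
  rw [hA] at hfin
  linear_combination (-4) * hfin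

end R11

open R11 in
theorem ta_R11 (h1 : MU3B.St_CMX) (h2 : MU3B.St_ADD) (h3 : MU3B.St_DUP) (h4 : MU3B.St_NEQ)
    (h5 : MU3B.St_DSC) (h6 : Sa_ROO) : Sa_R11 := by
  intro L Om hL
  have hw := w_sq
  have hw0 : wC (-3) 1 ≠ 0 := wC_ne_zero case11
  obtain ⟨w, hwdef⟩ : ∃ w, w = wC (-3) 1 := ⟨_, rfl⟩
  have hwm : ∀ z, z ∈ L.lattice → w * z ∈ L.lattice := by
    intro z hz
    rw [hwdef]
    exact hL.mul_mem_w case11 hz
  have hum : ∀ a b : ℤ, ((a : ℂ) + b * w) * (Om / w) ∈ L.lattice ↔ (3 : ℤ) ∣ a := by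
    intro a b
    rw [hwdef]
    exact u_mem_iff hL a b
  have htor : ∀ z, w * z ∈ L.lattice → ∃ a b : ℤ, z = ((a : ℂ) + b * w) * (Om / w) := by
    intro z hz
    have h := (hL.torsion_iff case11 (m := ⟨0, 1⟩) (by
      intro h
      have := congrArg QuadraticAlgebra.im h
      simp at this) z).1 (by rw [emb_w, ← hwdef]; exact hz)
    obtain ⟨x, hx⟩ := h
    refine ⟨x.re, x.im, ?_⟩
    rw [emb_w, ← hwdef] at hx
    rw [hx]
    simp only [emb, ← hwdef]
  rw [← hwdef] at hw hw0 ⊢
  obtain ⟨u, hu⟩ : ∃ u, u = Om / w := ⟨_, rfl⟩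
  rw [← hu] at hum htor ⊢
  have hwu : w * u = Om := by
    rw [hu]; field_simp
  have hOm : Om ∈ L.lattice := (hL.mem _).2 ⟨1, by rw [emb_one case11, mul_one]⟩
  have hu1 : u ∉ L.lattice := by
    intro h
    have := (hum 1 0).1 (by simpa using h)
    norm_num at this
  have hu2 : 2 * u ∉ L.lattice := by
    intro h
    have := (hum 2 0).1 (by simpa using h)
    norm_num at this
  have hu3 : 3 * u ∈ L.lattice := by
    have := (hum 3 0).2 (by norm_num)
    simpa using this
  have hun : -u ∉ L.lattice := fun h => hu1 (by simpa using neg_mem h)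
  have hreps : IsReps L w {u, -u} := by
    refine ⟨?_, ?_, ?_, ?_⟩
    · intro q hq
      rw [Finset.mem_insert, Finset.mem_singleton] at hq
      rcases hq with rfl | rfl
      · rw [hwu]; exact hOm
      · rw [mul_neg, hwu]; exact neg_mem hOm
    · intro q hq
      rw [Finset.mem_insert, Finset.mem_singleton] at hq
      rcases hq with rfl | rfl
      · exact hu1
      · exact hun
    · intro q hq q' hq' hqq
      rw [Finset.mem_insert, Finset.mem_singleton] at hq hq'
      rcases hq with rfl | rfl <;> rcases hq' with rfl | rfl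
      · rfl
      · exact absurd (by convert hqq using 1; ring) hu2
      · exact absurd (by convert neg_mem hqq using 1; ring) hu2
      · rfl
    · intro z hz hzL
      obtain ⟨a, b, rfl⟩ := htor z hz
      rw [hum] at hzL
      have hcase : (3 : ℤ) ∣ a - 1 ∨ (3 : ℤ) ∣ a + 1 := by omega
      rcases hcase with h | h
      · refine ⟨u, by simp, ?_⟩
        have := (hum (a - 1) b).2 h
        convert this using 1
        push_cast
        ring
      · refine ⟨-u, by simp, ?_⟩
        have := (hum (a + 1) b).2 h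
        convert this using 1
        push_cast
        ring
  have hune : u ≠ -u := by
    intro h
    exact hu2 (by
      have h' : 2 * u = 0 := by linear_combination h
      rw [h']; exact zero_mem _)
  -- the main formula
  have main : ∀ z, w * z ∉ L.lattice →
      L.weierstrassP z ≠ L.weierstrassP u ∧
      w ^ 2 * L.weierstrassP (w * z) * (L.weierstrassP z - L.weierstrassP u) ^ 2 =
        L.weierstrassP z * (L.weierstrassP z - L.weierstrassP u) ^ 2 +
          (6 * L.weierstrassP u ^ 2 - L.g₂ / 2) * (L.weierstrassP z - L.weierstrassP u) +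
          (4 * L.weierstrassP u ^ 3 - L.g₂ * L.weierstrassP u - L.g₃) := by
    intro z hz
    have hzL : z ∉ L.lattice := fun h => hz (hwm z h)
    have hzp : z + u ∉ L.lattice := fun h => hz (by
      have := sub_mem (hwm _ h) hOm
      convert this using 1
      linear_combination (-1) * hwu)
    have hzm : z - u ∉ L.lattice := fun h => hz (by
      have := add_mem (hwm _ h) hOm
      convert this using 1
      linear_combination hwu)
    have hne : L.weierstrassP z ≠ L.weierstrassP u := by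
      intro h
      rcases h4 L u z hu1 hzL h with h' | h'
      · exact hzm h'
      · exact hzp h'
    refine ⟨hne, ?_⟩
    have hne' : L.weierstrassP z - L.weierstrassP u ≠ 0 := sub_ne_zero.2 hne
    have hcm := h1 L w {u, -u} hw0 hwm hreps z hz
    rw [Finset.sum_pair hune, L.weierstrassP_neg] at hcm
    have ha := (h2 L u z hu1 hzL hzp hzm).1
    have hb := (h2 L (-u) z hun hzL (by simpa [← sub_eq_add_neg] using hzm)
      (by simpa using hzp)).1
    rw [L.weierstrassP_neg, L.derivWeierstrassP_neg] at hb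
    have hsz := L.derivWeierstrassP_sq z hzL
    have hsu := L.derivWeierstrassP_sq u hu1
    have hsum : L.weierstrassP (z + u) + L.weierstrassP (z + -u) + 2 * L.weierstrassP z +
        2 * L.weierstrassP u =
        (L.derivWeierstrassP z ^ 2 + L.derivWeierstrassP u ^ 2) /
          (2 * (L.weierstrassP z - L.weierstrassP u) ^ 2) := by
      have : L.weierstrassP (z + u) + L.weierstrassP (z + -u) + 2 * L.weierstrassP z +
          2 * L.weierstrassP u = ((L.derivWeierstrassP z - L.derivWeierstrassP u) /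
            (2 * (L.weierstrassP z - L.weierstrassP u))) ^ 2 +
            ((L.derivWeierstrassP z - -L.derivWeierstrassP u) /
            (2 * (L.weierstrassP z - L.weierstrassP u))) ^ 2 := by
        rw [← ha, ← hb]; ring
      rw [this]
      field_simp
      ring
    rw [hsz, hsu, eq_div_iff (by
      exact mul_ne_zero two_ne_zero (pow_ne_zero 2 hne'))] at hsum
    linear_combination (L.weierstrassP z - L.weierstrassP u) ^ 2 * hcm + (1 / 2) * hsum
  -- the points of order two
  have hv : Om / 2 ∉ L.lattice := by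
    intro h
    obtain ⟨x, hx⟩ := (hL.mem _).1 h
    have h0 := hL.Om_ne
    have hx' : emb (2 * x) = emb (1 : OO (-3) 1) := by
      rw [emb_mul case11, emb_one case11]
      have h2' : emb (2 : OO (-3) 1) = 2 := by
        have := emb_natCast (A := -3) (B := 1) case11 2
        exact_mod_cast this
      rw [h2']
      have : Om * (2 * emb x) = Om * 1 := by linear_combination (-2) * hx
      exact mul_left_cancel₀ h0 this
    have := congrArg QuadraticAlgebra.re (emb_inj case11 hx')
    have h3' : (2 * x).re = 2 * x.re := by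
      rw [two_mul, QuadraticAlgebra.re_add]; ring
    rw [h3', QuadraticAlgebra.re_one] at this
    omega
  have hmul : ∀ z, w * z ∈ L.lattice → 2 * z ∈ L.lattice → z ∈ L.lattice := by
    intro z hz hz2
    -- (1 - w) w = 3, so 3 z ∈ L
    have h3z : 3 * z ∈ L.lattice := by
      have := sub_mem hz (hwm _ hz)
      convert this using 1
      linear_combination z * hw
    have := sub_mem h3z hz2
    convert this using 1
    ring
  have hv2 : 2 * (Om / 2) ∈ L.lattice := by
    convert hOm using 1; ring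
  have hv' : w * (Om / 2) ∉ L.lattice := fun h => hv (hmul _ h hv2)
  have hv'2 : 2 * (w * (Om / 2)) ∈ L.lattice := by
    convert hwm _ hOm using 1; ring
  have hww : w * (w * (Om / 2)) ∉ L.lattice := fun h => hv' (hmul _ h hv'2)
  have hww2 : 2 * (w * (w * (Om / 2))) ∈ L.lattice := by
    convert hwm _ (hwm _ hOm) using 1; ring
  have hv''eq : Om / 2 + w * (Om / 2) = w * (w * (Om / 2)) + 2 * Om := by
    linear_combination (-(Om / 2)) * hw
  have h2Om : 2 * Om ∈ L.lattice := by
    convert add_mem hOm hOm using 1; ring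
  have hv'' : Om / 2 + w * (Om / 2) ∉ L.lattice := by
    rw [hv''eq]
    intro h
    exact hww (by convert sub_mem h h2Om using 1; ring)
  obtain ⟨-, -, -, r1, r2, r3⟩ := h6 L (Om / 2) (w * (Om / 2)) hv hv' hv'' hv2 hv'2
  have hPv'' : L.weierstrassP (w * (w * (Om / 2))) = L.weierstrassP (Om / 2 + w * (Om / 2)) := by
    rw [hv''eq]
    exact (L.weierstrassP_add_coe _ ⟨_, h2Om⟩).symm
  have hwv''eq : w * (Om / 2 + w * (Om / 2)) = Om / 2 + (w * Om - 2 * Om) := by
    linear_combination (Om / 2) * hw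
  have hwO : w * Om - 2 * Om ∈ L.lattice := sub_mem (hwm _ hOm) h2Om
  have hwv'' : w * (Om / 2 + w * (Om / 2)) ∉ L.lattice := by
    rw [hwv''eq]
    intro h
    exact hv (by convert sub_mem h hwO using 1; ring)
  have hPwv'' : L.weierstrassP (w * (Om / 2 + w * (Om / 2))) = L.weierstrassP (Om / 2) := by
    rw [hwv''eq]
    exact L.weierstrassP_add_coe _ ⟨_, hwO⟩
  obtain ⟨n1, P1⟩ := main (Om / 2) hv'
  obtain ⟨n2, P2⟩ := main (w * (Om / 2)) hww
  obtain ⟨n3, P3⟩ := main (Om / 2 + w * (Om / 2)) hwv''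
  rw [hPv''] at P2
  rw [hPwv''] at P3
  have hg2 := core r1 r2 r3 n1 n2 n3 P1 P2 P3
  obtain ⟨x0, hx0⟩ : ∃ x0, x0 = L.weierstrassP u := ⟨_, rfl⟩
  obtain ⟨e, he⟩ : ∃ x0, x0 = L.weierstrassP (Om / 2) := ⟨_, rfl⟩
  obtain ⟨e', he'⟩ : ∃ x0, x0 = L.weierstrassP (w * (Om / 2)) := ⟨_, rfl⟩
  obtain ⟨e'', he''⟩ : ∃ x0, x0 = L.weierstrassP (Om / 2 + w * (Om / 2)) := ⟨_, rfl⟩
  have hne : x0 ≠ 0 := by
    intro h0
    rw [← he, ← he', ← hx0, h0] at P1
    rw [← he', ← he'', ← hx0, h0] at P2
    rw [← he, ← he'', ← hx0, h0] at P3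
    rw [← hx0, h0] at hg2
    rw [← he, ← he', ← he''] at r3
    have hg20 : L.g₂ = 0 := by
      have : w ^ 2 * L.g₂ = 0 := by rw [hg2]; ring
      rcases mul_eq_zero.1 this with h | h
      · exact absurd h (pow_ne_zero 2 hw0)
      · exact h
    have hg30 : L.g₃ ≠ 0 := by
      intro h
      apply (h5 L).1
      rw [hg20, h]
      ring
    rw [hg20] at P1 P2 P3
    rw [← he, hx0.symm, h0] at n1
    rw [← he', hx0.symm, h0] at n2
    rw [← he'', hx0.symm, h0] at n3
    have hc1 : 4 * e ^ 3 = L.g₃ := by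
      have := L.derivWeierstrassP_sq (Om / 2) hv
      have hd : L.derivWeierstrassP (Om / 2) = 0 := by
        have h' := L.derivWeierstrassP_neg (Om / 2)
        have h'' : L.derivWeierstrassP (-(Om / 2)) = L.derivWeierstrassP (Om / 2) := by
          have := L.derivWeierstrassP_add_coe (-(Om / 2)) ⟨_, hOm⟩
          rw [← this]
          congr 1
          push_cast
          ring
        rw [h''] at h'
        have : 2 * L.derivWeierstrassP (Om / 2) = 0 := by linear_combination h'
        simpa using this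
      rw [hd, ← he, hg20] at this
      linear_combination (-1) * this
    have hc2 : 4 * e' ^ 3 = L.g₃ := by
      have := L.derivWeierstrassP_sq (w * (Om / 2)) hv'
      have hd : L.derivWeierstrassP (w * (Om / 2)) = 0 := by
        have h' := L.derivWeierstrassP_neg (w * (Om / 2))
        have h'' : L.derivWeierstrassP (-(w * (Om / 2))) = L.derivWeierstrassP (w * (Om / 2)) := by
          have := L.derivWeierstrassP_add_coe (-(w * (Om / 2))) ⟨_, hwm _ hOm⟩
          rw [← this]
          congr 1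
          push_cast
          ring
        rw [h''] at h'
        have : 2 * L.derivWeierstrassP (w * (Om / 2)) = 0 := by linear_combination h'
        simpa using this
      rw [hd, ← he', hg20] at this
      linear_combination (-1) * this
    have hc3 : 4 * e'' ^ 3 = L.g₃ := by
      have := L.derivWeierstrassP_sq (Om / 2 + w * (Om / 2)) hv''
      have hd : L.derivWeierstrassP (Om / 2 + w * (Om / 2)) = 0 := by
        have h' := L.derivWeierstrassP_neg (Om / 2 + w * (Om / 2))
        have h'' : L.derivWeierstrassP (-(Om / 2 + w * (Om / 2))) =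
            L.derivWeierstrassP (Om / 2 + w * (Om / 2)) := by
          have := L.derivWeierstrassP_add_coe (-(Om / 2 + w * (Om / 2)))
            ⟨_, add_mem hOm (hwm _ hOm)⟩
          rw [← this]
          congr 1
          push_cast
          ring
        rw [h''] at h'
        have : 2 * L.derivWeierstrassP (Om / 2 + w * (Om / 2)) = 0 := by linear_combination h'
        simpa using this
      rw [hd, ← he'', hg20] at this
      linear_combination (-1) * this
    have k1 : w ^ 2 * e' = -3 * e := by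
      have : e ^ 2 * (w ^ 2 * e') = e ^ 2 * (-3 * e) := by linear_combination P1 + hc1
      exact mul_left_cancel₀ (pow_ne_zero 2 n1) this
    have k2 : w ^ 2 * e'' = -3 * e' := by
      have : e' ^ 2 * (w ^ 2 * e'') = e' ^ 2 * (-3 * e') := by linear_combination P2 + hc2
      exact mul_left_cancel₀ (pow_ne_zero 2 n2) this
    have k3 : w ^ 2 * e = -3 * e'' := by
      have : e'' ^ 2 * (w ^ 2 * e) = e'' ^ 2 * (-3 * e'') := by linear_combination P3 + hc3
      exact mul_left_cancel₀ (pow_ne_zero 2 n3) this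
    have hprod : (e * e' * e'') * (w ^ 6 + 27) = 0 := by
      have : (w ^ 2 * e') * (w ^ 2 * e'') * (w ^ 2 * e) = (-3 * e) * (-3 * e') * (-3 * e'') := by
        rw [k1, k2, k3]
      linear_combination this
    have hw6 : w ^ 6 + 27 = 0 := by
      rcases mul_eq_zero.1 hprod with h | h
      · exfalso
        apply hg30
        rw [h] at r3
        linear_combination (-4) * r3
      · exact h
    have hw3 : 16 * w + 24 = 0 := by
      linear_combination hw6 - (w ^ 4 + w ^ 3 * 1 - 2 * w ^ 2 - 5 * w + 1) * hw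
    have hw4 : w = -3 / 2 := by linear_combination (1 / 16) * hw3
    rw [hw4] at hw
    norm_num at hw
  have hB0 : 4 * x0 ^ 3 - L.g₂ * x0 - L.g₃ = -4 * ((e - x0) * (e' - x0) * (e'' - x0)) := by
    rw [← he, ← he', ← he''] at r1 r2 r3
    linear_combination (4 * x0 ^ 2) * r1 - (4 * x0) * r2 + 4 * r3
  have hB1 : 4 * x0 ^ 3 - L.g₂ * x0 - L.g₃ ≠ 0 := by
    rw [hB0]
    rw [← he, ← hx0] at n1
    rw [← he', ← hx0] at n2
    rw [← he'', ← hx0] at n3
    exact mul_ne_zero (by norm_num) (mul_ne_zero (mul_ne_zero (sub_ne_zero.2 n1)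
      (sub_ne_zero.2 n2)) (sub_ne_zero.2 n3))
  have hdup : (6 * x0 ^ 2 - L.g₂ / 2) ^ 2 = 12 * x0 * (4 * x0 ^ 3 - L.g₂ * x0 - L.g₃) := by
    have hd := (h3 L u hu2).1
    have h2u : L.weierstrassP (2 * u) = L.weierstrassP u := by
      have := L.weierstrassP_add_coe (-u) ⟨_, hu3⟩
      rw [L.weierstrassP_neg] at this
      rw [← this]
      congr 1
      push_cast
      ring
    have hsu := L.derivWeierstrassP_sq u hu1
    rw [h2u, div_pow, mul_pow, hsu, ← hx0, eq_div_iff (mul_ne_zero (by norm_num) hB1)] at hd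
    linear_combination (-1) * hd
  rw [← hx0] at hg2 main ⊢
  refine ⟨hne, hg2, ?_, main⟩
  have h12 : 12 * x0 ≠ 0 := mul_ne_zero (by norm_num) hne
  apply mul_left_cancel₀ h12
  have hA : 4 * (w ^ 2 * (6 * x0 ^ 2 - L.g₂ / 2)) = 4 * (6 * x0 ^ 2 * (w - 1)) := by
    linear_combination (-2) * hg2 + (24 * x0 ^ 2) * hw
  have hA' : w ^ 2 * (6 * x0 ^ 2 - L.g₂ / 2) = 6 * x0 ^ 2 * (w - 1) := by
    linear_combination (1 / 4) * hA
  have hA2 : w ^ 4 * (6 * x0 ^ 2 - L.g₂ / 2) ^ 2 = 36 * x0 ^ 4 * (w - 1) ^ 2 := by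
    have : (w ^ 2 * (6 * x0 ^ 2 - L.g₂ / 2)) ^ 2 = (6 * x0 ^ 2 * (w - 1)) ^ 2 := by rw [hA']
    linear_combination this
  rw [hdup] at hA2
  -- w⁴ · 12 x0 · (4 x0³ - g₂ x0 - g₃) = 36 x0⁴ (w - 1)²
  have hgoal : 12 * x0 * (w ^ 4 * L.g₃) = 12 * x0 * (x0 ^ 3 * (4 * w ^ 4 + 24 * w ^ 2 -
      3 * (w - 1) ^ 2)) := by
    linear_combination (-1) * hA2 - (12 * x0 ^ 2 * w ^ 2) * hg2
  rw [hgoal]
  linear_combination (12 * x0 * x0 ^ 3 * (4 * w ^ 2 + 4 * w + 13)) * hw

end

end Pool.Agent.MU3A
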