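import Pool.Agent.MU3.StA

/-!
# MU3, block A, module R8: multiplication by `w`, `w² = -2`, on `℘` and the invariants
-/

set_option autoImplicit false

namespace Pool.Agent.MU3A

open MU3 Pool.Agent.MU3B Polynomial

noncomputable section

theorem ta_R8 (h1 : St_CMX) (h2 : St_DUP) (h3 : St_DSC) (h4 : St_ZER) (h5 : St_NEQ)
    (h6 : Sa_TW2) : Sa_R8 := by
  intro L Om hL
  have hC : Case (-2) 0 := Or.inl ⟨rfl, rfl⟩
  set w : ℂ := wC (-2) 0 with hw
  have hw2 : w * w = -2 := by
    have := wC_sq hC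
    rw [hw, this]
    push_cast
    ring
  have hw0 : w ≠ 0 := wC_ne_zero hC
  have hOm := hL.Om_ne
  set v : ℂ := Om * w / 2 with hv
  have hembc : ∀ a b : ℤ, emb (⟨a, b⟩ : OO (-2) 0) = (a : ℂ) + (b : ℂ) * w := fun a b => rfl
  have hmem : ∀ z : ℂ, z ∈ L.lattice ↔ ∃ a b : ℤ, z = Om * ((a : ℂ) + (b : ℂ) * w) := by
    intro z
    rw [hL.mem]
    constructor
    · rintro ⟨⟨a, b⟩, hx⟩
      exact ⟨a, b, hx⟩
    · rintro ⟨a, b, hx⟩
      exact ⟨⟨a, b⟩, hx⟩
  have hinj : ∀ a b c d : ℤ, (a : ℂ) + (b : ℂ) * w = (c : ℂ) + (d : ℂ) * w → a = c ∧ b = d := by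
    intro a b c d hh
    have : (⟨a, b⟩ : OO (-2) 0) = ⟨c, d⟩ := emb_inj hC hh
    have e1 := congrArg QuadraticAlgebra.re this
    have e2 := congrArg QuadraticAlgebra.im this
    exact ⟨e1, e2⟩
  have hvL : v ∉ L.lattice := by
    intro hcon
    obtain ⟨a, b, hab⟩ := (hmem v).1 hcon
    have : ((0 : ℤ) : ℂ) + ((1 : ℤ) : ℂ) * w = ((2 * a : ℤ) : ℂ) + ((2 * b : ℤ) : ℂ) * w := by
      apply mul_left_cancel₀ hOm
      push_cast
      rw [hv] at hab
      linear_combination 2 * hab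
    have := (hinj _ _ _ _ this).2
    omega
  have hwv : w * v ∈ L.lattice := by
    refine (hmem _).2 ⟨-1, 0, ?_⟩
    push_cast
    rw [hv]
    linear_combination (Om / 2) * hw2
  have h2v : 2 * v ∈ L.lattice := by
    refine (hmem _).2 ⟨0, 1, ?_⟩
    push_cast
    rw [hv]
    ring
  have hmulw : ∀ u ∈ L.lattice, w * u ∈ L.lattice := fun u hu => hL.mul_mem_w hC hu
  have hreps : IsReps L w {v} := by
    refine ⟨?_, ?_, ?_, ?_⟩
    · intro q hq
      rw [Finset.mem_singleton.1 hq]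
      exact hwv
    · intro q hq
      rw [Finset.mem_singleton.1 hq]
      exact hvL
    · intro q hq q' hq' _
      rw [Finset.mem_singleton.1 hq, Finset.mem_singleton.1 hq']
    · intro z hz hzL
      refine ⟨v, Finset.mem_singleton_self v, ?_⟩
      obtain ⟨a, b, hab⟩ := (hmem _).1 hz
      have hz2 : z = Om * ((b : ℂ) - (a : ℂ) * w / 2) := by
        have h7 : w * (w * z) = w * (Om * ((a : ℂ) + (b : ℂ) * w)) := by rw [hab]
        have h8 : -2 * z = Om * ((a : ℂ) * w - 2 * (b : ℂ)) := by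
          linear_combination h7 + (Om * (b : ℂ) - z) * hw2
        linear_combination (-1 / 2) * h8
      rcases Int.even_or_odd a with ⟨k, hk⟩ | ⟨k, hk⟩
      · exfalso
        refine hzL ((hmem _).2 ⟨b, -k, ?_⟩)
        rw [hz2, hk]
        push_cast
        ring
      · refine (hmem _).2 ⟨b, -(k + 1), ?_⟩
        rw [hz2, hk, hv]
        push_cast
        ring
  set e : ℂ := L.weierstrassP v with he
  set c : ℂ := 3 * e ^ 2 - L.g₂ / 4 with hc
  obtain ⟨hroot, htw⟩ := h6 L v hvL h2v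
  have hkey : ∀ z, w * z ∉ L.lattice → L.weierstrassP z ≠ e ∧
      -2 * L.weierstrassP (w * z) * (L.weierstrassP z - e) =
        L.weierstrassP z * (L.weierstrassP z - e) + c := by
    intro z hz
    have hzL : z ∉ L.lattice := fun hh => hz (hmulw z hh)
    have hzv : z + v ∉ L.lattice := by
      intro hh
      have h7 := sub_mem (hmulw _ hh) hwv
      have h8 : w * (z + v) - w * v = w * z := by ring
      rw [h8] at h7
      exact hz h7
    have hne : L.weierstrassP z ≠ e := by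
      intro hh
      rcases h5 L v z hvL hzL hh with h7 | h7
      · have h8 := add_mem h7 h2v
        have h9 : z - v + 2 * v = z + v := by ring
        rw [h9] at h8
        exact hzv h8
      · exact hzv h7
    refine ⟨hne, ?_⟩
    have h7 := h1 L w {v} hw0 hmulw hreps z hz
    rw [Finset.sum_singleton] at h7
    have h8 := htw z hzL hzv
    have h9 : w ^ 2 = -2 := by rw [pow_two, hw2]
    rw [h9] at h7
    rw [h7]
    rw [← he] at h8 ⊢
    rw [hc]
    linear_combination h8
  have hcval : c = 9 / 8 * e ^ 2 := by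
    set z0 : ℂ := Om / 3 with hz0
    have h2z0 : 2 * z0 ∉ L.lattice := by
      intro hcon
      obtain ⟨a, b, hab⟩ := (hmem _).1 hcon
      have : ((2 : ℤ) : ℂ) + ((0 : ℤ) : ℂ) * w = ((3 * a : ℤ) : ℂ) + ((3 * b : ℤ) : ℂ) * w := by
        apply mul_left_cancel₀ hOm
        push_cast
        rw [hz0] at hab
        linear_combination 3 * hab
      have := (hinj _ _ _ _ this).1
      omega
    have hwz0 : w * z0 ∉ L.lattice := by
      intro hcon
      obtain ⟨a, b, hab⟩ := (hmem _).1 hcon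
      have : ((0 : ℤ) : ℂ) + ((1 : ℤ) : ℂ) * w = ((3 * a : ℤ) : ℂ) + ((3 * b : ℤ) : ℂ) * w := by
        apply mul_left_cancel₀ hOm
        push_cast
        rw [hz0] at hab
        linear_combination 3 * hab
      have := (hinj _ _ _ _ this).2
      omega
    have hwwz0 : w * (w * z0) ∉ L.lattice := by
      have h7 : w * (w * z0) = -(2 * z0) := by linear_combination z0 * hw2
      rw [h7]
      intro hcon
      have := neg_mem hcon
      rw [neg_neg] at this
      exact h2z0 this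
    have hPww : L.weierstrassP (w * (w * z0)) = L.weierstrassP (2 * z0) := by
      have h7 : w * (w * z0) = -(2 * z0) := by linear_combination z0 * hw2
      rw [h7, PeriodPair.weierstrassP_neg]
    obtain ⟨hne0, hE0⟩ := hkey z0 hwz0
    obtain ⟨hne1, hE1⟩ := hkey (w * z0) hwwz0
    rw [hPww] at hE1
    have hz0L : z0 ∉ L.lattice := fun hh => hwz0 (hmulw z0 hh)
    have hd0 : L.derivWeierstrassP z0 ≠ 0 := fun hh => h2z0 ((h4 L z0 hz0L).1 hh)
    have hdup := (h2 L z0 h2z0).1
    have hsq := L.derivWeierstrassP_sq z0 hz0L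
    set P0 : ℂ := L.weierstrassP z0
    set P1 : ℂ := L.weierstrassP (w * z0)
    set P2 : ℂ := L.weierstrassP (2 * z0)
    set D0 : ℂ := L.derivWeierstrassP z0
    have hdup2 : (P2 + 2 * P0) * (4 * D0 ^ 2) = (6 * P0 ^ 2 - L.g₂ / 2) ^ 2 := by
      rw [hdup]
      field_simp
      ring
    rw [hsq] at hdup2
    have hg2 : L.g₂ = 12 * e ^ 2 - 4 * c := by rw [hc]; ring
    have hg3 : L.g₃ = 4 * e ^ 3 - (12 * e ^ 2 - 4 * c) * e := by
      rw [← hg2]
      linear_combination -hroot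
    rw [hg2, hg3] at hdup2
    have hY : P0 - e ≠ 0 := sub_ne_zero.2 hne0
    -- `4 Y D P2 = (Y² + eY + c) D + 4 c Y²`
    have hP1 : -2 * P1 * (P0 - e) = P0 * (P0 - e) + c := hE0
    have hP2 : 4 * (P0 - e) * ((P0 - e) ^ 2 + 3 * e * (P0 - e) + c) * P2 =
        ((P0 - e) ^ 2 + e * (P0 - e) + c) * ((P0 - e) ^ 2 + 3 * e * (P0 - e) + c) +
          4 * c * (P0 - e) ^ 2 := by
      have h7 : (P0 - e) ^ 2 + 3 * e * (P0 - e) + c = -2 * (P1 - e) * (P0 - e) := by
        linear_combination -hP1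
      have h8 : (P0 - e) ^ 2 + e * (P0 - e) + c = -2 * P1 * (P0 - e) := by
        linear_combination -hP1
      rw [h7, h8]
      linear_combination (4 * (P0 - e) ^ 2) * hE1
    have hfin : (8 * c - 9 * e ^ 2) * (P0 - e) ^ 2 = 0 := by
      linear_combination (1 / 4) * hdup2 - hP2
    rcases mul_eq_zero.1 hfin with h7 | h7
    · linear_combination (1 / 8) * h7
    · exact absurd (pow_eq_zero_iff (two_ne_zero)|>.1 h7) hY
  have hg2 : L.g₂ = 15 / 2 * e ^ 2 := by
    have : L.g₂ = 12 * e ^ 2 - 4 * c := by rw [hc]; ring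
    rw [this, hcval]
    ring
  have hg3 : L.g₃ = -7 / 2 * e ^ 3 := by
    have : L.g₃ = 4 * e ^ 3 - L.g₂ * e := by linear_combination -hroot
    rw [this, hg2]
    ring
  refine ⟨?_, hg2, hg3, ?_⟩
  · intro he0
    refine (h3 L).1 ?_
    rw [hg2, hg3, he0]
    ring
  · intro z hz
    obtain ⟨hne, hE⟩ := hkey z hz
    refine ⟨hne, ?_⟩
    rw [hE, hcval]

end

end Pool.Agent.MU3A
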