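import Pool.Agent.MU3.StA2

/-!
# MU3A, REP: classes prime to `m` are represented by products of primes of degree one
-/

set_option autoImplicit false

namespace Pool.Agent.MU3A

open MU3 Pool.Agent.MU3B Polynomial NumberField

noncomputable section

namespace A_REP

/-- if no prime divides `N`, `c` and `m`, then some `c + m t` is prime to `N` -/
theorem exists_coprime {R : Type} [CommRing R] [IsDomain R] [IsPrincipalIdealRing R] (c m : R)
    (N : R) : N ≠ 0 → (∀ p, Prime p → p ∣ N → p ∣ c → p ∣ m → False) →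
    ∃ t, IsCoprime (c + m * t) N := by
  induction N using UniqueFactorizationMonoid.induction_on_prime with
  | h₁ => exact fun h => absurd rfl h
  | h₂ x hx =>
    intro _ _
    exact ⟨0, (isCoprime_one_right (x := c + m * 0)).of_isCoprime_of_dvd_right hx.dvd⟩
  | h₃ a p ha hp ih =>
    intro _ h
    obtain ⟨t, ht⟩ := ih ha (fun q hq hqa => h q hq (hqa.mul_left p))
    by_cases hpc : p ∣ c + m * t
    · have hpm : ¬ p ∣ m := by
        intro hpm
        exact h p hp (dvd_mul_right p a) ((dvd_add_left (hpm.mul_right t)).1 hpc) hpm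
      have hpa : ¬ p ∣ a := fun hpa => hp.not_isUnit (ht.isUnit_of_dvd' hpc hpa)
      refine ⟨t + a, ?_⟩
      have e : c + m * (t + a) = (c + m * t) + m * a := by ring
      rw [e]
      apply IsCoprime.mul_right
      · refine (((hp.irreducible.coprime_iff_not_dvd).2 ?_)).symm
        intro hd
        rcases hp.dvd_or_dvd ((dvd_add_right hpc).1 hd) with h' | h'
        · exact hpm h'
        · exact hpa h'
      · exact ht.add_mul_right_left m
    · exact ⟨t, IsCoprime.mul_right ((hp.irreducible.coprime_iff_not_dvd).2 hpc).symm ht⟩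

/-- an element divides its norm -/
theorem dvd_nm {A B : ℤ} (x : OO A B) : x ∣ ((nm x : ℤ) : OO A B) := by
  refine ⟨⟨x.re + B * x.im, -x.im⟩, ?_⟩
  apply QuadraticAlgebra.ext
  · simp [nm, pow_two]
    ring
  · simp
    ring

end A_REP

theorem ta_REP (h1 : Sa_PID) : Sa_REP := by
  intro A B hAB m hm n hn c hc
  obtain ⟨hdom, hpir, -, -, hnm0, -, hunit, hunit', hprime, -⟩ := h1 A B hAB
  -- the modulus
  have hnmm : nm m ≠ 0 := fun h => hm ((hnm0 m).1 h)
  set N : ℤ := (n : ℤ) * nm m with hNdef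
  have hN0 : N ≠ 0 := mul_ne_zero (by exact_mod_cast hn) hnmm
  have hcast_dvd : ∀ a b : ℤ, a ∣ b → ((a : ℤ) : OO A B) ∣ ((b : ℤ) : OO A B) := by
    rintro a b ⟨d, rfl⟩
    exact ⟨(d : OO A B), by push_cast; ring⟩
  have hmN : m ∣ ((N : ℤ) : OO A B) :=
    (A_REP.dvd_nm m).trans (hcast_dvd _ _ (dvd_mul_left _ _))
  have hN0' : ((N : ℤ) : OO A B) ≠ 0 := by
    intro h
    have h2 := congrArg QuadraticAlgebra.re h
    simp at h2
    exact hN0 h2
  -- the first step
  obtain ⟨t, ht⟩ := A_REP.exists_coprime c m ((N : ℤ) : OO A B) hN0'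
    (fun p hp _ hpc hpm => hp.not_isUnit (hc.isUnit_of_dvd' hpc hpm))
  -- make the second coordinate nonzero
  obtain ⟨c₁, hc₁, hc₁m, hc₁b⟩ : ∃ c₁ : OO A B, IsCoprime c₁ ((N : ℤ) : OO A B) ∧ m ∣ c₁ - c ∧
      c₁.im ≠ 0 := by
    by_cases hb : (c + m * t).im = 0
    · refine ⟨(c + m * t) + ((N : ℤ) : OO A B) * ⟨0, 1⟩, ?_, ?_, ?_⟩
      · exact ht.add_mul_left_left _
      · have e : c + m * t + ((N : ℤ) : OO A B) * ⟨0, 1⟩ - c =
            m * t + ((N : ℤ) : OO A B) * ⟨0, 1⟩ := by ring
        rw [e]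
        exact dvd_add (dvd_mul_right _ _) (hmN.mul_right _)
      · have e : ((c + m * t) + ((N : ℤ) : OO A B) * ⟨0, 1⟩).im = N := by
          rw [QuadraticAlgebra.im_add, hb]
          simp
        rw [e]
        exact hN0
    · exact ⟨c + m * t, ht, ⟨t, by ring⟩, hb⟩
  -- the second step
  obtain ⟨s, hs⟩ := A_REP.exists_coprime c₁.re N c₁.im hc₁b (by
    intro p hp hpb hpa hpN
    have hdc : ((p : ℤ) : OO A B) ∣ c₁ := by
      obtain ⟨u, hu⟩ := hpa
      obtain ⟨v, hv⟩ := hpb
      refine ⟨⟨u, v⟩, ?_⟩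
      apply QuadraticAlgebra.ext
      · simp [hu]
      · simp [hv]
    have hu : IsUnit ((p : ℤ) : OO A B) := hc₁.isUnit_of_dvd' hdc (hcast_dvd _ _ hpN)
    have h2 : p = 1 ∨ p = -1 := by
      rcases (hunit _).1 hu with h | h
      · left
        have h3 : ((p : ℤ) : OO A B).re = (1 : OO A B).re := congrArg QuadraticAlgebra.re h
        rw [QuadraticAlgebra.re_one] at h3
        simpa using h3
      · right
        have h3 : ((p : ℤ) : OO A B).re = (-1 : OO A B).re := congrArg QuadraticAlgebra.re h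
        rw [QuadraticAlgebra.re_neg, QuadraticAlgebra.re_one] at h3
        simpa using h3
    apply hp.not_isUnit
    rcases h2 with rfl | rfl
    · exact isUnit_one
    · exact isUnit_one.neg)
  set c₂ : OO A B := c₁ + ((N : ℤ) : OO A B) * ((s : ℤ) : OO A B) with hc₂
  have hre : c₂.re = c₁.re + N * s := by simp [hc₂]
  have him : c₂.im = c₁.im := by simp [hc₂]
  have hcop : IsCoprime c₂ ((N : ℤ) : OO A B) := hc₁.add_mul_left_left _
  have hcm : m ∣ c₂ - c := by
    have e : c₂ - c = (c₁ - c) + ((N : ℤ) : OO A B) * ((s : ℤ) : OO A B) := by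
      rw [hc₂]
      ring
    rw [e]
    exact dvd_add hc₁m (hmN.mul_right _)
  have hc₂0 : c₂ ≠ 0 := by
    intro h
    apply hc₁b
    rw [← him, h]
    rfl
  have hcop2 : IsCoprime c₂.re c₂.im := by rw [hre, him]; exact hs
  -- the factorisation
  obtain ⟨f, hf, u, hu⟩ := UniqueFactorizationMonoid.exists_prime_factors c₂ hc₂0
  refine ⟨f.toList, ?_, ?_⟩
  · intro p hp
    rw [Multiset.mem_toList] at hp
    have hpp := hf p hp
    have hpc : p ∣ c₂ := by
      rw [← hu]
      exact (Multiset.dvd_prod hp).mul_right _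
    rcases hprime p hpp with ⟨q, hq, hqp⟩ | ⟨q, hq, hqp⟩
    · have hqN : ¬ (q : ℤ) ∣ N := by
        intro hqN
        apply hpp.not_isUnit
        apply hcop.isUnit_of_dvd' hpc
        have h2 := A_REP.dvd_nm p
        rw [hqp] at h2
        exact h2.trans (hcast_dvd _ _ hqN)
      refine ⟨q, hq, hqp, ?_, ?_, ?_⟩
      · intro h
        exact hqN ((Int.natCast_dvd_natCast.2 h).mul_right _)
      · intro h
        exact hqN (h.mul_left _)
      · exact (hcop.of_isCoprime_of_dvd_left hpc).of_isCoprime_of_dvd_right hmN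
    · exfalso
      have hqc : (q : OO A B) ∣ c₂ := by
        rcases hqp with h | h
        · rwa [h] at hpc
        · rw [h] at hpc
          exact (neg_dvd).1 hpc
      obtain ⟨v, hv⟩ := hqc
      have e1 : (q : ℤ) ∣ c₂.re := ⟨v.re, by rw [hv]; simp⟩
      have e2 : (q : ℤ) ∣ c₂.im := ⟨v.im, by rw [hv]; simp⟩
      have h3 := hcop2.isUnit_of_dvd' e1 e2
      exact (Nat.prime_iff_prime_int.1 hq).not_isUnit h3
  · rw [Multiset.prod_toList]
    rcases (hunit (u : OO A B)).1 u.isUnit with h | h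
    · left
      rw [h, mul_one] at hu
      rw [hu, ← dvd_neg, neg_sub]
      exact hcm
    · right
      rw [h, mul_neg, mul_one] at hu
      have e : c + f.prod = -(c₂ - c) := by
        rw [← hu]
        ring
      rw [e, dvd_neg]
      exact hcm

end

end Pool.Agent.MU3A
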