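import Pool.Agent.MU3.A_ACT

/-!
# MU3, block A: module S5 (the Galois group of `F_m / k` is everything up to sign)
-/

set_option autoImplicit false

namespace Pool.Agent.MU3A

open MU3 Pool.Agent.MU3B Polynomial NumberField

noncomputable section

theorem ta_S5 (hF : Sa_FROB) (hX : Sa_FEX) (hR : Sa_REP) (hA : Sa_ACT) : Sa_S5 := by
  intro A B L Om h hL m hm F _ _ hTF c hc
  obtain ⟨n, hn, hfr⟩ := hF A B L Om h hL
  obtain ⟨l, hl, hlc⟩ := hR A B h m hm n hn c hc
  obtain ⟨-, act2, -, act4, -, -, act7, -⟩ := hA A B L Om h hL m hm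
  have key : ∀ l : List (OO A B), (∀ p ∈ l, ∃ q : ℕ, q.Prime ∧ nm p = q ∧ ¬ q ∣ n ∧
      ¬ (q : ℤ) ∣ nm m ∧ IsCoprime p m) →
      ∃ σ : F ≃ₐ[kk A B] F, Act L (em σ) m l.prod ∨ Act L (em σ) m (-l.prod) := by
    intro l
    induction l with
    | nil =>
      intro _
      exact ⟨1, Or.inl (by simpa using act7 F hTF)⟩
    | cons p l ih =>
      intro hl
      obtain ⟨τ, hτ⟩ := ih fun p' hp' => hl p' (List.mem_cons_of_mem _ hp')
      obtain ⟨q, hq, hpq, hqn, hqm, -⟩ := hl p List.mem_cons_self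
      obtain ⟨w, hw, -, hab, σ, hσ⟩ := hX A B h F p q hq hpq
      have h1 := hfr p q hq hpq hqn m hm hqm F hTF w hw hab σ hσ
      refine ⟨σ * τ, ?_⟩
      rw [List.prod_cons]
      rcases h1 with h1 | h1 <;> rcases hτ with hτ | hτ
      · exact Or.inl (act4 F σ τ p l.prod hTF h1 hτ)
      · have := act4 F σ τ p (-l.prod) hTF h1 hτ
        rw [mul_neg] at this
        exact Or.inr this
      · have := act4 F σ τ (-p) l.prod hTF h1 hτ
        rw [neg_mul] at this
        exact Or.inr this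
      · have := act4 F σ τ (-p) (-l.prod) hTF h1 hτ
        rw [neg_mul, mul_neg, neg_neg] at this
        exact Or.inl this
  obtain ⟨σ, hσ⟩ := key l hl
  refine ⟨σ, ?_⟩
  rcases hlc with hlc | hlc <;> rcases hσ with hσ | hσ
  · left; exact act2 F _ _ _ (by rw [← neg_sub, dvd_neg]; exact hlc) hσ
  · right
    refine act2 F _ _ _ ?_ hσ
    have e : -l.prod - -c = c - l.prod := by ring
    rw [e]; exact hlc
  · right
    refine act2 F _ _ _ ?_ hσ
    have e : l.prod - -c = c + l.prod := by ring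
    rw [e]; exact hlc
  · left
    refine act2 F _ _ _ ?_ hσ
    have e : -l.prod - c = -(c + l.prod) := by ring
    rw [e, dvd_neg]; exact hlc

end

end Pool.Agent.MU3A
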