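import Pool.Agent.MU3.StA2
import Pool.Agent.MU3.G_G0

/-!
# MU3, block A: (T3)
-/

set_option autoImplicit false

namespace Pool.Agent.MU3A

open MU3 Pool.Agent.MU3B Polynomial NumberField Pool.Agent.MU3G

namespace T3

variable {A B : ℤ} {L : PeriodPair}

/-- multiplication by an element of the maximal ideal -/
theorem red_lt {V : ValuationSubring ℂ} {lam d0 n2 n1 n0 m2 m1 m0 : OO A B}
    (hI : Iso3 L lam d0 n2 n1 n0 m2 m1 m0) (hO : ∀ x : OO A B, V.valuation (emb x) ≤ 1)
    (hlam : V.valuation (emb lam) < 1) (hd : V.valuation (emb d0) = 1) {z : ℂ}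
    (hz : z ∉ L.lattice) (hx : V.valuation (xx A B L z) ≤ 1) :
    emb lam * z ∉ L.lattice ∧ V.valuation (xx A B L (emb lam * z)) ≤ 1 := by
  set v := V.valuation with hv
  set x := xx A B L z with hxx
  have h1 : v (emb lam * x) < 1 := by
    rw [map_mul]
    exact mul_lt_one_of_lt_of_le hlam hx
  have hD : v (emb lam * x + emb d0) = 1 := by
    have h2 : v (emb lam * x) < v (emb d0) := by rw [hd]; exact h1
    rw [Valuation.map_add_eq_of_lt_right v h2, hd]
  have hD0 : emb lam * x + emb d0 ≠ 0 := by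
    intro h0
    rw [h0, map_zero] at hD
    exact zero_ne_one hD
  have hnot : emb lam * z ∉ L.lattice := fun hmem => hD0 ((hI.ker z hz).1 hmem)
  refine ⟨hnot, ?_⟩
  have h3 := congrArg v (hI.x z hnot)
  rw [map_mul, map_pow, hD, one_pow, mul_one] at h3
  rw [h3]
  have e3 : v (x ^ 3) ≤ 1 := by rw [map_pow]; exact pow_le_one' hx 3
  have e2 : v (emb n2 * x ^ 2) ≤ 1 := by
    rw [map_mul, map_pow]; exact mul_le_one' (hO _) (pow_le_one' hx 2)
  have e1 : v (emb n1 * x) ≤ 1 := by rw [map_mul]; exact mul_le_one' (hO _) hx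
  exact Valuation.map_add_le v (Valuation.map_add_le v (Valuation.map_add_le v e3 e2) e1) (hO _)

/-- multiplication by a unit -/
theorem red_unit {V : ValuationSubring ℂ} {lam d0 n2 n1 n0 m2 m1 m0 : OO A B}
    (hI : Iso3 L lam d0 n2 n1 n0 m2 m1 m0) (hO : ∀ x : OO A B, V.valuation (emb x) ≤ 1)
    (hlam : V.valuation (emb lam) = 1) {z : ℂ}
    (hz : z ∉ L.lattice) (hx : 1 < V.valuation (xx A B L z)) :
    emb lam * z ∉ L.lattice ∧ 1 < V.valuation (xx A B L (emb lam * z)) := by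
  set v := V.valuation with hv
  set x := xx A B L z with hxx
  have hD : v (emb lam * x + emb d0) = v x := by
    have h2 : v (emb d0) < v (emb lam * x) := by
      rw [map_mul, hlam, one_mul]; exact lt_of_le_of_lt (hO _) hx
    rw [Valuation.map_add_eq_of_lt_left v h2, map_mul, hlam, one_mul]
  have hx0 : v x ≠ 0 := (lt_trans zero_lt_one hx).ne'
  have hD0 : emb lam * x + emb d0 ≠ 0 := by
    intro h0
    rw [h0, map_zero] at hD
    exact hx0 hD.symm
  have hnot : emb lam * z ∉ L.lattice := fun hmem => hD0 ((hI.ker z hz).1 hmem)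
  refine ⟨hnot, ?_⟩
  have h3 := congrArg v (hI.x z hnot)
  have hlt : v x ^ 2 < v x ^ 3 := pow_lt_pow_right₀ hx (by norm_num)
  have hone : (1 : V.ValueGroup) ≤ v x ^ 2 := one_le_pow_of_one_le' hx.le 2
  have e2 : v (emb n2 * x ^ 2) < v (x ^ 3) := by
    rw [map_mul, map_pow, map_pow]
    exact lt_of_le_of_lt (mul_le_of_le_one_left' (hO _)) hlt
  have e1 : v (emb n1 * x) < v (x ^ 3) := by
    rw [map_mul, map_pow]
    refine lt_of_le_of_lt (mul_le_of_le_one_left' (hO _)) (lt_of_le_of_lt ?_ hlt)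
    calc v x = v x ^ 1 := (pow_one _).symm
      _ ≤ v x ^ 2 := pow_le_pow_right₀ hx.le (by norm_num)
  have e0 : v (emb n0) < v (x ^ 3) := by
    rw [map_pow]
    exact lt_of_le_of_lt (hO _) (lt_of_le_of_lt hone hlt)
  have hN : v (x ^ 3 + emb n2 * x ^ 2 + emb n1 * x + emb n0) = v x ^ 3 := by
    have a1 : v (x ^ 3 + emb n2 * x ^ 2) = v (x ^ 3) := Valuation.map_add_eq_of_lt_left v e2
    have a2 : v (x ^ 3 + emb n2 * x ^ 2 + emb n1 * x) = v (x ^ 3) := by
      rw [Valuation.map_add_eq_of_lt_left v (by rw [a1]; exact e1), a1]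
    rw [Valuation.map_add_eq_of_lt_left v (by rw [a2]; exact e0), a2, map_pow]
  rw [hN, map_mul, map_pow, hD] at h3
  have h4 : v (xx A B L (emb lam * z)) = v x := by
    have h5 : v (xx A B L (emb lam * z)) * v x ^ 2 = v x * v x ^ 2 := by
      rw [h3]; exact pow_succ' _ _
    exact mul_right_cancel₀ (pow_ne_zero 2 hx0) h5
  rw [h4]
  exact hx

theorem star_ppc : star (ppc A B) = ppi A B := by
  ext <;> simp [ppc, ppi]
  ring

theorem nm_ppc (h : Case A B) : nm (ppc A B) = 3 := by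
  rw [← G0.nm_star, star_ppc, nm_ppi h]

theorem self_dvd (x : OO A B) : x ∣ ((nm x : ℤ) : OO A B) := by
  refine ⟨star x, ?_⟩
  have h := QuadraticAlgebra.algebraMap_norm_eq_mul_star x
  rw [← G0.nm_eq] at h
  rw [← h]
  simp

theorem mul_star_eq (x : OO A B) : ((nm x : ℤ) : OO A B) = x * star x := by
  have h := QuadraticAlgebra.algebraMap_norm_eq_mul_star x
  rw [← G0.nm_eq] at h
  rw [← h]
  simp

theorem not_dvd_of_nm (h : Case A B) {x : OO A B} (hx : ¬ (3 : ℤ) ∣ nm x) : ¬ ppi A B ∣ x := by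
  rintro ⟨y, rfl⟩
  rw [G0.nm_mul, nm_ppi h] at hx
  exact hx (dvd_mul_right _ _)

/-- the reduction to torsion of order prime to 3 -/
theorem descent (h : Case A B) {Om : ℂ} (hL : IsLat A B L Om) {V : ValuationSubring ℂ}
    (hpr : Prime (ppc A B))
    (hstep : ∀ z, z ∉ L.lattice → 1 < V.valuation (xx A B L z) →
      emb (ppc A B) * z ∉ L.lattice ∧ 1 < V.valuation (xx A B L (emb (ppc A B) * z)))
    (h3 : ∀ (n : ℕ) (z : ℂ), z ∉ L.lattice → (n : ℂ) * z ∈ L.lattice → ¬ 3 ∣ n →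
      V.valuation (xx A B L z) ≤ 1) :
    ∀ (N : ℕ) (m : OO A B) (z : ℂ), m ≠ 0 → (nm m).natAbs ≤ N → IsCoprime m (ppi A B) →
      z ∉ L.lattice → emb m * z ∈ L.lattice → V.valuation (xx A B L z) ≤ 1 := by
  intro N
  induction N with
  | zero =>
    intro m z hm hN
    have h1 := G0.nm_pos h hm
    omega
  | succ N ih =>
    intro m z hm hN hco hz hmz
    by_contra hcon
    rw [not_le] at hcon
    by_cases h3m : (3 : ℤ) ∣ nm m
    · have h4 : ppc A B ∣ ((nm m : ℤ) : OO A B) := by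
        obtain ⟨t, ht⟩ := h3m
        have h5 : ppc A B ∣ ((3 : ℤ) : OO A B) := by
          have := self_dvd (ppc A B)
          rwa [nm_ppc h] at this
        rw [ht, Int.cast_mul]
        exact Dvd.dvd.mul_right h5 _
      rw [mul_star_eq] at h4
      rcases hpr.dvd_or_dvd h4 with h5 | h5
      · obtain ⟨m', rfl⟩ := h5
        have hm' : m' ≠ 0 := by
          rintro rfl
          exact hm (mul_zero _)
        obtain ⟨h6, h7⟩ := hstep z hz hcon
        refine absurd (ih m' (emb (ppc A B) * z) hm' ?_ hco.of_mul_left_right h6 ?_)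
          (not_le.2 h7)
        · have h8 := G0.nm_pos h hm'
          rw [G0.nm_mul, nm_ppc h] at hN
          omega
        · rw [emb_mul h] at hmz
          rw [← mul_assoc, mul_comm (emb m')]
          exact hmz
      · have h6 : ppi A B ∣ m := by
          obtain ⟨s, hs⟩ := h5
          refine ⟨star s, ?_⟩
          have h7 := congrArg star hs
          rw [star_star, star_mul', star_ppc] at h7
          exact h7
        have h8 : IsUnit (ppi A B) := hco.isUnit_of_dvd' h6 (dvd_refl _)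
        have h9 : nm (ppi A B) = 3 := nm_ppi h
        rw [G0.unit_iff, h9] at h8
        rw [Int.isUnit_iff] at h8
        omega
    · have h4 : emb ((nm m : ℤ) : OO A B) * z ∈ L.lattice := by
        rw [mul_star_eq, mul_comm m, emb_mul h, mul_assoc]
        exact hL.emb_mul_mem h _ hmz
      have h5 := G0.nm_nonneg h m
      rw [emb_intCast h] at h4
      have h6 : (((nm m).toNat : ℕ) : ℂ) * z ∈ L.lattice := by
        have e : (((nm m).toNat : ℕ) : ℂ) = ((nm m : ℤ) : ℂ) := by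
          have := Int.toNat_of_nonneg h5
          rw [← Int.cast_natCast, this]
        rw [e]
        exact h4
      refine absurd (h3 _ z hz h6 ?_) (not_le.2 hcon)
      intro h7
      apply h3m
      have := Int.toNat_of_nonneg h5
      rw [← this]
      exact_mod_cast h7

theorem main (h : Case A B) {Om : ℂ} (hL : IsLat A B L Om) (V : ValuationSubring ℂ)
    (hpi : V.valuation (emb (ppi A B)) < 1) (hO : ∀ x : OO A B, V.valuation (emb x) ≤ 1)
    (hU : ∀ x : OO A B, ¬ ppi A B ∣ x → V.valuation (emb x) = 1)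
    (hpr : Prime (ppc A B))
    {d0 n2 n1 n0 m2 m1 m0 d0' n2' n1' n0' m2' m1' m0' : OO A B}
    (hI : Iso3 L (ppi A B) d0 n2 n1 n0 m2 m1 m0)
    (hI' : Iso3 L (ppc A B) d0' n2' n1' n0' m2' m1' m0')
    (hd : ¬ ppi A B ∣ d0) (hc : ¬ ppi A B ∣ ppc A B) :
    (∀ z, z ∉ L.lattice → xx A B L z ∈ V →
      emb (ppi A B) * z ∉ L.lattice ∧ xx A B L (emb (ppi A B) * z) ∈ V) ∧
    (∀ (n : ℕ) (z : ℂ), z ∉ L.lattice → emb (ppi A B ^ n) * z ∈ L.lattice → xx A B L z ∉ V) ∧
    (∀ z, z ∉ L.lattice → xx A B L z ∉ V →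
      emb (ppc A B) * z ∉ L.lattice ∧ xx A B L (emb (ppc A B) * z) ∉ V) ∧
    ((∀ (n : ℕ) (z : ℂ), z ∉ L.lattice → (n : ℂ) * z ∈ L.lattice → ¬ 3 ∣ n → xx A B L z ∈ V) →
      ∀ (m : OO A B) (z : ℂ), m ≠ 0 → IsCoprime m (ppi A B) → z ∉ L.lattice →
        emb m * z ∈ L.lattice → xx A B L z ∈ V) := by
  have key1 : ∀ z, z ∉ L.lattice → xx A B L z ∈ V →
      emb (ppi A B) * z ∉ L.lattice ∧ xx A B L (emb (ppi A B) * z) ∈ V := by
    intro z hz hx
    rw [← V.valuation_le_one_iff] at hx ⊢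
    exact red_lt hI hO hpi (hU _ hd) hz hx
  have key3 : ∀ z, z ∉ L.lattice → 1 < V.valuation (xx A B L z) →
      emb (ppc A B) * z ∉ L.lattice ∧ 1 < V.valuation (xx A B L (emb (ppc A B) * z)) :=
    fun z hz hx => red_unit hI' hO (hU _ hc) hz hx
  refine ⟨key1, ?_, ?_, ?_⟩
  · intro n
    induction n with
    | zero =>
      intro z hz hmem
      rw [pow_zero, emb_one h, one_mul] at hmem
      exact absurd hmem hz
    | succ n ih =>
      intro z hz hmem hx
      obtain ⟨h1, h2⟩ := key1 z hz hx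
      refine ih (emb (ppi A B) * z) h1 ?_ h2
      rw [pow_succ, emb_mul h, mul_assoc] at hmem
      exact hmem
  · intro z hz hx
    rw [← V.valuation_le_one_iff, not_le] at hx ⊢
    exact key3 z hz hx
  · intro h3 m z hm hco hz hmz
    rw [← V.valuation_le_one_iff]
    refine descent h hL hpr key3 ?_ (nm m).natAbs m z hm le_rfl hco hz hmz
    intro n z hz hn h3n
    rw [V.valuation_le_one_iff]
    exact h3 n z hz hn h3n

end T3

theorem ta_T3 (h1 : Sa_V3) (h2 : Sa_N8P) (h3 : Sa_N11) (h4 : Sa_N11C) (_h5 : Sa_EQN)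
    (h6 : Sa_PID) : Sa_T3 := by
  intro A B L Om h hCM V hV
  obtain ⟨hO, -, hU, -⟩ := h1 A B h V hV
  have hpr : Prime (ppc A B) := by
    have hP := (h6 A B h).2.2.2.2.2.2.2.2.2
    refine hP _ ?_
    rw [T3.nm_ppc h]
    norm_num
  have hpi : V.valuation (emb (ppi A B)) < 1 := (ValuationSubring.mem_nonunits_iff V).1 hV
  have hO' : ∀ x : OO A B, V.valuation (emb x) ≤ 1 := fun x =>
    (V.valuation_le_one_iff _).2 (hO x)
  have hU' : ∀ x : OO A B, ¬ ppi A B ∣ x → V.valuation (emb x) = 1 := by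
    intro x hx
    refine le_antisymm (hO' x) (not_lt.1 fun hlt => hU x hx ?_)
    exact (ValuationSubring.mem_nonunits_iff V).2 hlt
  rcases h with ⟨rfl, rfl⟩ | ⟨rfl, rfl⟩
  · have hc : Case (-2) 0 := Or.inl ⟨rfl, rfl⟩
    obtain ⟨hI, hI'⟩ := h2 L Om hCM
    refine T3.main hc hCM.toIsLat V hpi hO' hU' hpr hI hI' ?_ ?_
    · exact T3.not_dvd_of_nm hc (by norm_num [nm])
    · rintro ⟨y, hy⟩
      have e1 := congrArg QuadraticAlgebra.re hy
      have e2 := congrArg QuadraticAlgebra.im hy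
      simp [ppc, ppi] at e1 e2
      omega
  · have hc : Case (-3) 1 := Or.inr ⟨rfl, rfl⟩
    have hI := h3 L Om hCM
    have hI' := h4 L Om hCM
    refine T3.main hc hCM.toIsLat V hpi hO' hU' hpr hI hI' ?_ ?_
    · refine T3.not_dvd_of_nm hc ?_
      have h9 : nm (-1 : OO (-3) 1) = 1 := by
        have e : (-1 : OO (-3) 1) = ⟨-1, 0⟩ := rfl
        rw [e]; norm_num [nm]
      rw [h9]; norm_num
    · rintro ⟨y, hy⟩
      have e1 := congrArg QuadraticAlgebra.re hy
      have e2 := congrArg QuadraticAlgebra.im hy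
      simp [ppc, ppi] at e1 e2
      omega

end Pool.Agent.MU3A
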