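import Pool.Agent.MU3.StA

/-!
# Module MU3A_TW2: translation by a point of order two
-/

set_option autoImplicit false

namespace Pool.Agent.MU3A

theorem ta_TW2 (h1 : MU3B.St_ADD) (h2 : MU3B.St_ZER) (h3 : MU3B.St_NEQ) : Sa_TW2 := by
  intro L v hv hv2
  have hd : L.derivWeierstrassP v = 0 := (h2 L v hv).2 hv2
  have he : 4 * L.weierstrassP v ^ 3 - L.g₂ * L.weierstrassP v - L.g₃ = 0 := by
    have := L.derivWeierstrassP_sq v hv
    rw [hd] at this
    linear_combination -this
  refine ⟨he, ?_⟩
  intro z hz hzv
  have hzv' : z - v ∉ L.lattice := by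
    intro h
    apply hzv
    have : z + v = (z - v) + 2 * v := by ring
    rw [this]
    exact add_mem h hv2
  have hne : L.weierstrassP z - L.weierstrassP v ≠ 0 := by
    intro h
    rcases h3 L v z hv hz (sub_eq_zero.1 h) with h | h
    · exact hzv' h
    · exact hzv h
  have hadd := (h1 L v z hv hz hzv hzv').1
  have hsq := L.derivWeierstrassP_sq z hz
  rw [hd, sub_zero, div_pow, hsq] at hadd
  have h4 : L.weierstrassP (z + v) =
      (4 * L.weierstrassP z ^ 3 - L.g₂ * L.weierstrassP z - L.g₃) /
        (2 * (L.weierstrassP z - L.weierstrassP v)) ^ 2 - L.weierstrassP z - L.weierstrassP v := by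
    linear_combination hadd
  rw [h4]
  field_simp
  linear_combination 4 * he

end Pool.Agent.MU3A
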