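import Pool.Agent.MU3.StA2

/-!
# MU3, block A, module V3: elementary facts on valuation rings above `ppi`
-/

set_option autoImplicit false

namespace Pool.Agent.MU3A

open MU3 Pool.Agent.MU3B Polynomial NumberField

theorem ta_V3 : Sa_V3 := by
  intro A B h V hp
  rw [ValuationSubring.mem_nonunits_iff] at hp
  have hint : ∀ n : ℤ, V.valuation (n : ℂ) ≤ 1 := fun n =>
    (V.valuation_le_one_iff _).2 (intCast_mem V n)
  have hw : wC A B ∈ V := by
    rw [← V.valuation_le_one_iff]
    by_contra hcon
    rw [not_le] at hcon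
    have h1 := congrArg V.valuation (wC_sq h)
    rw [map_mul] at h1
    have h2 : V.valuation ((A : ℂ) + (B : ℂ) * wC A B) ≤ V.valuation (wC A B) := by
      refine (V.valuation.map_add _ _).trans (max_le ((hint A).trans hcon.le) ?_)
      rw [map_mul]
      exact mul_le_of_le_one_left' (hint B)
    rw [← h1] at h2
    have h0 : 0 < V.valuation (wC A B) := lt_trans zero_lt_one hcon
    have h3 : V.valuation (wC A B) * 1 < V.valuation (wC A B) * V.valuation (wC A B) := by
      exact (mul_lt_mul_iff_right₀ h0).2 hcon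
    rw [mul_one] at h3
    exact absurd h2 (not_le.2 h3)
  have hO : ∀ x : OO A B, emb x ∈ V := fun x =>
    add_mem (intCast_mem V _) (mul_mem (intCast_mem V _) hw)
  have hO' : ∀ x : OO A B, V.valuation (emb x) ≤ 1 := fun x =>
    (V.valuation_le_one_iff _).2 (hO x)
  have hdiv : ∀ x : OO A B, ppi A B ∣ x → V.valuation (emb x) < 1 := by
    rintro x ⟨y, rfl⟩
    rw [emb_mul h, map_mul]
    exact mul_lt_one_of_lt_of_le hp (hO' y)
  have h3O : ppi A B ∣ (3 : OO A B) := by
    refine ⟨⟨1, -1⟩, ?_⟩
    rcases h with ⟨rfl, rfl⟩ | ⟨rfl, rfl⟩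
    · ext
      · simp [ppi]
        rfl
      · simp [ppi]
        rfl
    · ext
      · simp [ppi]
        rfl
      · simp [ppi]
        rfl
  have h3 : V.valuation (3 : ℂ) < 1 := by
    have h1 := hdiv 3 h3O
    have h2 : emb (3 : OO A B) = 3 := by simpa using emb_natCast h 3
    rwa [h2] at h1
  refine ⟨hO, ?_, ?_, ?_⟩
  · rw [ValuationSubring.mem_nonunits_iff]
    exact h3
  · intro x hx hcon
    rw [ValuationSubring.mem_nonunits_iff] at hcon
    obtain ⟨r, hr⟩ : ∃ r : ℤ, r = x.re - (1 - B) * x.im := ⟨_, rfl⟩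
    have hxr : x = (r : OO A B) + (x.im : OO A B) * ppi A B := by
      ext
      · simp [ppi]
        rw [hr]
        ring
      · simp [ppi]
    have hrv : V.valuation (r : ℂ) < 1 := by
      have h1 : (r : ℂ) = emb x - (x.im : ℂ) * emb (ppi A B) := by
        have h2 := congrArg emb hxr
        rw [emb_add h, emb_mul h, emb_intCast h, emb_intCast h] at h2
        rw [h2]
        ring
      rw [h1]
      refine (V.valuation.map_sub _ _).trans_lt (max_lt hcon ?_)
      rw [map_mul]
      rw [mul_comm]
      exact mul_lt_one_of_lt_of_le hp (hint _)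
    by_cases h3r : (3 : ℤ) ∣ r
    · apply hx
      obtain ⟨s, hs⟩ := h3r
      rw [hxr, hs]
      refine dvd_add ?_ (dvd_mul_left _ _)
      push_cast
      exact h3O.mul_right _
    · have hco : IsCoprime (3 : ℤ) r :=
        (Prime.coprime_iff_not_dvd Int.prime_three).2 h3r
      obtain ⟨u, v, huv⟩ := hco
      have h1 : (1 : ℂ) = (u : ℂ) * 3 + (v : ℂ) * (r : ℂ) := by exact_mod_cast huv.symm
      have h2 : V.valuation (1 : ℂ) < 1 := by
        rw [h1]
        refine (V.valuation.map_add _ _).trans_lt (max_lt ?_ ?_)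
        · rw [map_mul]
          rw [mul_comm]
          exact mul_lt_one_of_lt_of_le h3 (hint _)
        · rw [map_mul]
          rw [mul_comm]
          exact mul_lt_one_of_lt_of_le hrv (hint _)
      rw [map_one] at h2
      exact lt_irrefl _ h2
  · intro x hx
    rw [ValuationSubring.mem_nonunits_iff]
    exact hdiv x hx

end Pool.Agent.MU3A
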