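import Pool.Agent.MU3.StA

/-!
# MU3, block A: module XI (helper50)
-/

set_option autoImplicit false

namespace Pool.Agent.MU3A

open MU3 Pool.Agent.MU3B Polynomial

noncomputable section

namespace XI50

open WeierstrassCurve.Affine

theorem some_eq {W : WeierstrassCurve.Affine ℂ} {x y x' y' : ℂ} (h : W.Nonsingular x y)
    (h' : W.Nonsingular x' y') (hx : x = x') (hy : y = y') :
    Point.some x y h = Point.some x' y' h' := by
  subst hx hy
  rfl

end XI50

open XI50 WeierstrassCurve.Affine in
theorem ta_XI (h1 : Sa_EQN) (h2 : Sa_LAW) : Sa_XI := by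
  classical
  intro A B L Om hc hL
  obtain ⟨heq, hns, hpar, hper, hinj, -, hy0, hsurj, -⟩ := h1 A B L Om hc hL
  obtain ⟨hadd, hdbl⟩ := h2 A B L Om hc hL
  set W : WeierstrassCurve.Affine ℂ := WeierstrassCurve.Affine.baseChange (EE A B) ℂ with hW
  have w1 : W.a₁ = 0 := map_zero (algebraMap (kk A B) ℂ)
  have w3 : W.a₃ = 0 := map_zero (algebraMap (kk A B) ℂ)
  have w2 : W.a₂ = emb (a2 A B) := rfl
  have w4 : W.a₄ = emb (a4 A B) := rfl
  have w6 : W.a₆ = emb (a6 A B) / 4 := by
    have e : W.a₆ = algebraMap (kk A B) ℂ (ek (a6 A B) / 4) := rfl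
    rw [e, map_div₀, map_ofNat]
    rfl
  have ns : ∀ z, z ∉ L.lattice → W.Nonsingular (xx A B L z) (yy L z) := by
    intro z hz
    rw [WeierstrassCurve.Affine.nonsingular_iff', WeierstrassCurve.Affine.equation_iff, w1, w2, w3,
      w4, w6]
    refine ⟨by linear_combination heq z hz, ?_⟩
    rcases hns z hz with h | h
    · right
      intro h0
      apply h
      linear_combination h0 / 2
    · left
      intro h0
      apply h
      linear_combination -h0
  set f : ℂ → W.Point := fun z => if h : z ∈ L.lattice then 0 else Point.some _ _ (ns z h) with hf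
  have hf0 : ∀ z, z ∈ L.lattice → f z = 0 := fun z hz => dif_pos hz
  have hf1 : ∀ z (hz : z ∉ L.lattice), f z = Point.some _ _ (ns z hz) := fun z hz => dif_neg hz
  have hfper : ∀ z, ∀ u ∈ L.lattice, f (z + u) = f z := by
    intro z u hu
    by_cases hz : z ∈ L.lattice
    · rw [hf0 z hz, hf0 _ (add_mem hz hu)]
    · have hzu : z + u ∉ L.lattice := fun h => hz (by
        have := sub_mem h hu
        rwa [add_sub_cancel_right] at this)
      rw [hf1 z hz, hf1 _ hzu]
      exact some_eq _ _ (hper z u hu).1 (hper z u hu).2
  have hnegY : ∀ x y : ℂ, W.negY x y = -y := by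
    intro x y
    rw [WeierstrassCurve.Affine.negY, w1, w3]
    ring
  have hmap : ∀ z z', f (z + z') = f z + f z' := by
    intro z z'
    by_cases hz : z ∈ L.lattice
    · rw [hf0 z hz, zero_add, add_comm z z', hfper z' z hz]
    by_cases hz' : z' ∈ L.lattice
    · rw [hf0 z' hz', add_zero, hfper z z' hz']
    by_cases hzz : z + z' ∈ L.lattice
    · rw [hf0 _ hzz, hf1 z hz, hf1 z' hz']
      have e : z = -z' + (z + z') := by ring
      have hx : xx A B L z = xx A B L z' := by
        rw [e, (hper (-z') _ hzz).1, (hpar z').1]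
      have hy : yy L z = -yy L z' := by
        rw [e, (hper (-z') _ hzz).2, (hpar z').2]
      exact (Point.add_of_Y_eq hx (by rw [hnegY]; exact hy)).symm
    by_cases hzd : z - z' ∈ L.lattice
    · have e1 : f z' = f z := by
        have := hfper z' _ hzd
        rw [← this]
        congr 1
        ring
      have e2 : f (z + z') = f (2 * z) := by
        have := hfper (z + z') _ hzd
        rw [← this]
        congr 1
        ring
      have h2z : 2 * z ∉ L.lattice := by
        intro h
        apply hzz
        have := sub_mem h hzd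
        have e : z + z' = 2 * z - (z - z') := by ring
        rwa [e]
      have hy : yy L z ≠ 0 := fun h => h2z ((hy0 z hz).1 h)
      have hyne : yy L z ≠ W.negY (xx A B L z) (yy L z) := by
        rw [hnegY]
        intro h0
        apply hy
        linear_combination h0 / 2
      rw [e1, e2, hf1 z hz, hf1 _ h2z, Point.add_self_of_Y_ne hyne]
      have hsl : W.slope (xx A B L z) (xx A B L z) (yy L z) (yy L z) =
          (3 * xx A B L z ^ 2 + 2 * emb (a2 A B) * xx A B L z + emb (a4 A B)) /
            (2 * yy L z) := by
        rw [WeierstrassCurve.Affine.slope_of_Y_ne rfl hyne, hnegY, w1, w2, w4]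
        congr 1 <;> ring
      have hX : W.addX (xx A B L z) (xx A B L z)
          (W.slope (xx A B L z) (xx A B L z) (yy L z) (yy L z)) = xx A B L (2 * z) := by
        rw [WeierstrassCurve.Affine.addX, hsl, w1, w2, (hdbl z h2z).1]
        ring
      apply some_eq
      · exact hX.symm
      · rw [WeierstrassCurve.Affine.addY, WeierstrassCurve.Affine.negAddY, hnegY, hX, hsl,
          (hdbl z h2z).2]
        ring
    · have hxne : xx A B L z ≠ xx A B L z' := by
        intro h
        rcases hinj z z' hz hz' h with h3 | h3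
        · exact hzd h3
        · exact hzz h3
      rw [hf1 z hz, hf1 z' hz', hf1 _ hzz, Point.add_of_X_ne hxne]
      have hsl : W.slope (xx A B L z) (xx A B L z') (yy L z) (yy L z') =
          (yy L z - yy L z') / (xx A B L z - xx A B L z') :=
        WeierstrassCurve.Affine.slope_of_X_ne hxne
      have hX : W.addX (xx A B L z) (xx A B L z')
          (W.slope (xx A B L z) (xx A B L z') (yy L z) (yy L z')) = xx A B L (z + z') := by
        rw [WeierstrassCurve.Affine.addX, hsl, w1, w2, (hadd z z' hz hz' hzz hzd).1]
        ring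
      apply some_eq
      · exact hX.symm
      · rw [WeierstrassCurve.Affine.addY, WeierstrassCurve.Affine.negAddY, hnegY, hX, hsl,
          (hadd z z' hz hz' hzz hzd).2]
        ring
  refine ⟨⟨⟨f, hf0 0 L.lattice.zero_mem⟩, hmap⟩, ?_, ?_, ?_⟩
  · intro z
    constructor
    · intro h
      by_contra hz
      have h3 : f z = 0 := h
      rw [hf1 z hz] at h3
      exact Point.some_ne_zero _ h3
    · exact fun hz => hf0 z hz
  · intro P
    rcases P with _ | ⟨x, y, h⟩
    · exact ⟨0, hf0 0 L.lattice.zero_mem⟩
    · have h3 := (WeierstrassCurve.Affine.equation_iff x y).1 h.1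
      rw [w1, w2, w3, w4, w6] at h3
      obtain ⟨z, hz, hx, hy⟩ := hsurj x y (by linear_combination h3)
      refine ⟨z, ?_⟩
      have h4 : f z = Point.some x y h := by
        rw [hf1 z hz]
        exact some_eq _ _ hx hy
      exact h4
  · intro z hz
    exact ⟨ns z hz, hf1 z hz⟩

end

end Pool.Agent.MU3A
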