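import Pool.Agent.MU3.StP

/-!
# MU3, module BAD: finitely many rational primes ramify
-/

open NumberField Finset IsDedekindDomain
open scoped nonZeroDivisors Pointwise

namespace MU3

open Pool.Agent.RI Pool.Agent.RID

/-- a prime ideal which contains a natural number `N ≠ 0` contains a prime factor of `N` -/
theorem exists_prime_mem_of_natCast_mem {R : Type*} [CommRing R] (P : Ideal R) [hP : P.IsPrime]
    (N : ℕ) (hN : N ≠ 0) (h : (N : R) ∈ P) : ∃ ℓ : ℕ, ℓ ∈ N.primeFactors ∧ (ℓ : R) ∈ P := by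
  induction N using induction_on_primes with
  | zero => exact absurd rfl hN
  | one =>
    exact absurd ((Ideal.eq_top_iff_one P).2 (by simpa using h)) hP.ne_top
  | prime_mul p a hp ih =>
    have ha : a ≠ 0 := by
      rintro rfl
      exact hN (mul_zero p)
    rw [Nat.cast_mul] at h
    rcases hP.mem_or_mem h with h1 | h1
    · exact ⟨p, by simp [Nat.mem_primeFactors, hp, hp.ne_zero, ha], h1⟩
    · obtain ⟨ℓ, h2, h3⟩ := ih ha h1
      refine ⟨ℓ, ?_, h3⟩
      rw [Nat.mem_primeFactors] at h2 ⊢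
      exact ⟨h2.1, h2.2.1.mul_left p, hN⟩

theorem p_BAD : P_BAD := by
  intro K L _ _ _ _ _
  have h0 : differentIdeal (𝓞 K) (𝓞 L) ≠ ⊥ := differentIdeal_ne_bot
  have hN : Ideal.absNorm (differentIdeal (𝓞 K) (𝓞 L)) ≠ 0 := by
    rw [Ne, Ideal.absNorm_eq_zero_iff]
    exact h0
  refine ⟨(Ideal.absNorm (differentIdeal (𝓞 K) (𝓞 L))).primeFactors,
    fun ℓ hℓ => Nat.prime_of_mem_primeFactors hℓ, ?_⟩
  intro w hw
  have : w.asIdeal.IsPrime := w.isPrime
  have h1 : w.asIdeal ∣ differentIdeal (𝓞 K) (𝓞 L) := by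
    rw [dvd_differentIdeal_iff]
    intro h2
    exact hw (Ideal.ramificationIdx_eq_one w.asIdeal (𝓞 K))
  have h2 : ((Ideal.absNorm (differentIdeal (𝓞 K) (𝓞 L)) : ℕ) : 𝓞 L) ∈ w.asIdeal :=
    Ideal.le_of_dvd h1 (Ideal.absNorm_mem _)
  exact exists_prime_mem_of_natCast_mem w.asIdeal _ hN h2

end MU3
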