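import Pool.Agent.MU3.StDF
import Pool.Agent.MU3.PX_BAD

/-!
# MU3: Frobenius elements generate the Galois group
-/

open NumberField IsDedekindDomain Ideal
open scoped nonZeroDivisors Pointwise

namespace Pool.Agent.MU3

namespace DENSF

/-- a finite field in which `z ^ q = z` has at most `q` elements -/
lemma card_le {κ : Type*} [Field κ] [Finite κ] {q : ℕ} (hq : 1 < q) (h : ∀ z : κ, z ^ q = z) :
    Nat.card κ ≤ q := by
  classical
  have : Fintype κ := Fintype.ofFinite κ
  have h0 : (Polynomial.X ^ q - Polynomial.X : Polynomial κ) ≠ 0 :=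
    FiniteField.X_pow_card_sub_X_ne_zero κ hq
  have h1 : (Finset.univ : Finset κ) ⊆
      (Polynomial.X ^ q - Polynomial.X : Polynomial κ).roots.toFinset := by
    intro z _
    rw [Multiset.mem_toFinset, Polynomial.mem_roots h0, Polynomial.IsRoot.def]
    simp [h z]
  have h2 := Finset.card_le_card h1
  rw [Nat.card_eq_fintype_card, ← Finset.card_univ]
  refine h2.trans ((Multiset.toFinset_card_le _).trans ((Polynomial.card_roots' _).trans ?_))
  rw [FiniteField.X_pow_card_sub_X_natDegree_eq κ hq]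

/-- finitely many primes contain a given prime number -/
lemma fin_above (k : Type) [Field k] [NumberField k] (ℓ : ℕ) (hℓ : ℓ.Prime) :
    {v : HeightOneSpectrum (𝓞 k) | (ℓ : 𝓞 k) ∈ v.asIdeal}.Finite := by
  have h0 : (Ideal.span {(ℓ : 𝓞 k)} : Ideal (𝓞 k)) ≠ 0 := by
    rw [Ne, Ideal.zero_eq_bot, Ideal.span_singleton_eq_bot]
    exact_mod_cast hℓ.ne_zero
  refine (Ideal.finite_factors h0).subset fun v hv => ?_
  rw [Set.mem_ofPred_eq, Ideal.dvd_span_singleton]
  exact hv

end DENSF

open DENSF in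
theorem m_DENSF (hNSP : Stmt_NSP) : Stmt_DENSF := by
  intro k F _ _ _ _ _ _ H T hT hyp
  classical
  let M : IntermediateField k F := IntermediateField.fixedField H
  have hMf : FiniteDimensional k M := inferInstance
  have hMQ : FiniteDimensional ℚ M := FiniteDimensional.trans ℚ k M
  have hM : NumberField M := ⟨⟩
  obtain ⟨B, hB1, hB2⟩ := MU3.p_BAD k M
  set S : Set (HeightOneSpectrum (𝓞 k)) :=
    T ∪ ⋃ ℓ ∈ B, {v : HeightOneSpectrum (𝓞 k) | (ℓ : 𝓞 k) ∈ v.asIdeal} with hSdef
  have hS : S.Finite := by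
    refine hT.union ?_
    refine Set.Finite.biUnion B.finite_toSet fun ℓ hℓ => fin_above k ℓ (hB1 ℓ hℓ)
  have hle : Module.finrank k M ≤ 1 := by
    refine hNSP k M _ S hS ?_
    intro v hvS hvp
    have hvT : v ∉ T := fun h => hvS (Or.inl h)
    have hvm : v.asIdeal.IsPrime := v.isPrime
    have hvmax : v.asIdeal.IsMaximal := v.isMaximal
    have hvb := v.ne_bot
    set q := absNorm v.asIdeal with hq
    -- all primes above `v` have degree one
    have key : ∀ u : Ideal (𝓞 M), u.IsPrime → u.LiesOver v.asIdeal → absNorm u = q := by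
      intro u hu huv
      have hub : u ≠ ⊥ := ne_bot_of_liesOver_of_ne_bot hvb u
      have humax : u.IsMaximal := hu.isMaximal hub
      obtain ⟨⟨w, hw, hwu⟩⟩ := (inferInstance : Nonempty (primesOver u (𝓞 F)))
      have hwb : w ≠ ⊥ := ne_bot_of_liesOver_of_ne_bot hub w
      have hwfin : Finite (𝓞 F ⧸ w) := Ideal.finiteQuotientOfFreeOfNeBot w hwb
      have hwv : w.LiesOver v.asIdeal := LiesOver.trans w u v.asIdeal
      obtain ⟨σ, hσ⟩ := IsArithFrobAt.exists_of_isInvariant (𝓞 k) Gal(F/k) w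
      have hcard : Nat.card (𝓞 k ⧸ w.under (𝓞 k)) = q := by
        rw [← hwv.over, hq, Ideal.absNorm_apply]
        rfl
      have hσH : σ ∈ H := by
        refine hyp v hvT hvp w hw hwv.over.symm σ ?_
        intro x y hxy
        have h1 := hσ x
        have h2 : y = σ • x := RingOfIntegers.coe_injective hxy
        rw [h2]
        rw [hcard] at h1
        exact h1
      have hufin : Finite (𝓞 M ⧸ u) := Ideal.finiteQuotientOfFreeOfNeBot u hub
      letI : Field (𝓞 M ⧸ u) := Ideal.Quotient.field u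
      have hpow : ∀ z : 𝓞 M ⧸ u, z ^ q = z := by
        intro z
        obtain ⟨x, rfl⟩ := Ideal.Quotient.mk_surjective z
        rw [← map_pow, Ideal.Quotient.eq]
        have h1 := hσ (algebraMap (𝓞 M) (𝓞 F) x)
        rw [hcard] at h1
        have h2 : σ • (algebraMap (𝓞 M) (𝓞 F) x) = algebraMap (𝓞 M) (𝓞 F) x := by
          apply RingOfIntegers.coe_injective
          have h3 : σ ((x : M) : F) = ((x : M) : F) := (x : M).2 ⟨σ, hσH⟩
          exact h3
        have h3 : (MulSemiringAction.toAlgHom (𝓞 k) (𝓞 F) σ) (algebraMap (𝓞 M) (𝓞 F) x) =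
            algebraMap (𝓞 M) (𝓞 F) x := h2
        rw [h3] at h1
        have h4 : x - x ^ q ∈ u := by
          rw [hwu.over]
          change algebraMap (𝓞 M) (𝓞 F) (x - x ^ q) ∈ w
          rw [map_sub, map_pow]
          exact h1
        have h5 := u.neg_mem h4
        rwa [neg_sub] at h5
      have h6 : Nat.card (𝓞 M ⧸ u) ≤ q := card_le hvp.one_lt hpow
      have h7 : absNorm u = Nat.card (𝓞 M ⧸ u) := by
        rw [Ideal.absNorm_apply]
        rfl
      have h8 := absNorm_pow_inertiaDeg v.asIdeal u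
      have h9 : 0 < u.inertiaDeg (𝓞 k) := inertiaDeg_pos u (𝓞 k)
      apply le_antisymm (h7 ▸ h6)
      rw [← h8]
      exact Nat.le_self_pow h9.ne' _
    have hf1 : ∀ u : Ideal (𝓞 M), u.IsPrime → u.LiesOver v.asIdeal →
        u.inertiaDeg (𝓞 k) = 1 := by
      intro u hu huv
      have h8 := absNorm_pow_inertiaDeg v.asIdeal u
      rw [key u hu huv] at h8
      exact Nat.pow_right_injective hvp.two_le (by
        change q ^ u.inertiaDeg (𝓞 k) = q ^ 1
        rw [pow_one]
        exact h8)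
    have he1 : ∀ u : Ideal (𝓞 M), u.IsPrime → u.LiesOver v.asIdeal →
        u.ramificationIdx (𝓞 k) = 1 := by
      intro u hu huv
      have hub : u ≠ ⊥ := ne_bot_of_liesOver_of_ne_bot hvb u
      by_contra hne
      obtain ⟨ℓ, hℓ, hmem⟩ := hB2 ⟨u, hu, hub⟩ hne
      apply hvS
      refine Or.inr (Set.mem_biUnion hℓ ?_)
      change (ℓ : 𝓞 k) ∈ v.asIdeal
      rw [huv.over]
      change algebraMap (𝓞 k) (𝓞 M) (ℓ : 𝓞 k) ∈ u
      rw [map_natCast]
      exact hmem
    have hfinP : (primesOver v.asIdeal (𝓞 M)).Finite :=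
      IsDedekindDomain.primesOver_finite v.asIdeal (𝓞 M)
    have : Fintype (primesOver v.asIdeal (𝓞 M)) := hfinP.fintype
    have hsum := sum_ramification_inertia_eq_finrank v.asIdeal (𝓞 M)
    rw [← IsFractionRing.finrank_eq (𝓞 k) k (𝓞 M) M] at hsum
    have hcount : Nat.card (primesOver v.asIdeal (𝓞 M)) = Module.finrank k M := by
      rw [← hsum, Nat.card_eq_fintype_card, Fintype.card_eq_sum_ones]
      refine Finset.sum_congr rfl fun u _ => ?_
      rw [he1 u.1 u.2.1 u.2.2, hf1 u.1 u.2.1 u.2.2]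
    rw [← hcount]
    let f : primesOver v.asIdeal (𝓞 M) → {w : HeightOneSpectrum (𝓞 M) //
        w.asIdeal.under (𝓞 k) = v.asIdeal ∧ absNorm w.asIdeal = absNorm v.asIdeal} :=
      fun P => ⟨⟨P.1, P.2.1, ne_bot_of_mem_primesOver hvb P.2⟩, P.2.2.over.symm,
        key P.1 P.2.1 P.2.2⟩
    have hf : Function.Bijective f := by
      constructor
      · intro P Q h
        have h6 := congrArg (fun z => z.1.asIdeal) h
        exact Subtype.ext h6
      · rintro ⟨Q, hQ1, hQ2⟩
        exact ⟨⟨Q.asIdeal, Q.isPrime, ⟨hQ1.symm⟩⟩, rfl⟩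
    unfold spl
    rw [← Nat.card_eq_of_bijective f hf]
  have h1 : M = ⊥ := by
    rw [← IntermediateField.finrank_eq_one_iff]
    have h2 : 0 < Module.finrank k M := Module.finrank_pos
    omega
  have h3 := IntermediateField.fixingSubgroup_fixedField H
  rw [← h3]
  change M.fixingSubgroup = ⊤
  rw [h1, IntermediateField.fixingSubgroup_bot]

end Pool.Agent.MU3
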