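import Pool.Agent.MU3.StV

set_option autoImplicit false

namespace Pool.Agent.MU3V

open _root_.MU3 Pool.Agent.MU3A Pool.Agent.MU3B

lemma CARD_norm {A B : ℤ} (h : Case A B) (x : OO A B) : ‖emb x‖ ^ 2 = (nm x : ℝ) := by
  have hd : (0 : ℝ) ≤ (absD A B : ℝ) := by exact_mod_cast (absD_pos h).le
  have hs : Real.sqrt (absD A B) ^ 2 = (absD A B : ℝ) := Real.sq_sqrt hd
  have hre : (emb x).re = x.re + x.im * B / 2 := by
    simp [emb, wC]; ring
  have him : (emb x).im = x.im * Real.sqrt (absD A B) / 2 := by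
    simp [emb, wC]; ring
  rw [← Complex.normSq_eq_norm_sq, Complex.normSq_apply, hre, him]
  have key : ((absD A B : ℤ) : ℝ) = -4 * A - B ^ 2 := by
    rcases h with ⟨rfl, rfl⟩ | ⟨rfl, rfl⟩ <;> norm_num [absD]
  have e : (x.im * Real.sqrt (absD A B) / 2 : ℝ) * (x.im * Real.sqrt (absD A B) / 2) =
      (x.im : ℝ) ^ 2 * (-4 * A - B ^ 2) / 4 := by
    rw [← key]
    linear_combination ((x.im : ℝ) ^ 2 / 4) * hs
  rw [e, nm]
  push_cast
  ring

theorem tv_CARD (hHRE : St_HRE) : Sv_CARD := by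
  intro A B L Om hc hL lam q hq hlam H hH
  have h0 := emb_ne_zero hc hlam
  have h1 := (hHRE L (emb lam) H h0 (fun w hw => hL.toIsLat.emb_mul_mem hc lam hw) hH).2.2
  rw [CARD_norm hc, hq] at h1
  have h2 : (((2 * H.card + 1 : ℕ)) : ℝ) = ((q : ℕ) : ℝ) := by
    push_cast at h1 ⊢
    exact h1
  exact_mod_cast h2

end Pool.Agent.MU3V
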