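import Pool.Agent.MU3.StV

/-!
# MU3, block V: module CYCL, `E[lam]` is cyclic of order `q`; half systems exist
-/

set_option autoImplicit false

open WeierstrassCurve Polynomial NumberField IsDedekindDomain

namespace Pool.Agent.MU3V

open _root_.MU3 Pool.Agent.MU3A Pool.Agent.MU3B

theorem tv_CYCL (hDEG : Sv_DEG1) (hHAL : St_HAL) : Sv_CYCL := by
  intro A B L Om hc hL lam q hq hn
  have hlam : lam ≠ 0 := by
    rintro rfl
    have : (q : ℤ) = 0 := by
      rw [← hn]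
      simp [nm]
    exact hq.ne_zero (by exact_mod_cast this)
  obtain ⟨hd1, hd2, hd3⟩ := hDEG A B hc lam q hq hn
  have e0 := emb_ne_zero hc hlam
  have horder : ∀ u : ℂ, emb lam * u ∈ L.lattice → q * u ∈ L.lattice := by
    intro u hu
    obtain ⟨x, rfl⟩ := (hL.toIsLat.torsion_iff hc hlam u).1 hu
    have h1 : (q : ℂ) * (emb x * (Om / emb lam)) = emb ((q : OO A B) * x) * (Om / emb lam) := by
      rw [emb_mul hc, emb_natCast hc, mul_assoc]
    rw [h1, hL.toIsLat.mul_div_mem_iff hc hlam]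
    exact Dvd.dvd.mul_right hd2 x
  refine ⟨?_, horder, ?_⟩
  · intro u u₁ hu hu₁ hn1
    obtain ⟨x, rfl⟩ := (hL.toIsLat.torsion_iff hc hlam u).1 hu
    obtain ⟨x₁, rfl⟩ := (hL.toIsLat.torsion_iff hc hlam u₁).1 hu₁
    rw [hL.toIsLat.mul_div_mem_iff hc hlam] at hn1
    obtain ⟨n, hn⟩ := hd1 x
    obtain ⟨n₁, hn₁⟩ := hd1 x₁
    have hqn : ¬ (q : ℤ) ∣ n₁ := by
      rintro ⟨t, rfl⟩
      apply hn1
      have h1 : x₁ = (x₁ - ((q * t : ℤ) : OO A B)) + (q : OO A B) * (t : OO A B) := by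
        push_cast
        ring
      rw [h1]
      exact dvd_add hn₁ (Dvd.dvd.mul_right hd2 _)
    have hcop : IsCoprime n₁ (q : ℤ) :=
      ((Nat.prime_iff_prime_int.1 hq).coprime_iff_not_dvd.2 hqn).symm
    obtain ⟨r, s, hrs⟩ := hcop
    refine ⟨n * r, ?_⟩
    have h2 : emb x * (Om / emb lam) - ((n * r : ℤ) : ℂ) * (emb x₁ * (Om / emb lam)) =
        emb (x - ((n * r : ℤ) : OO A B) * x₁) * (Om / emb lam) := by
      rw [emb_sub hc, emb_mul hc, emb_intCast hc]
      ring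
    rw [h2, hL.toIsLat.mul_div_mem_iff hc hlam]
    have h3 : x - ((n * r : ℤ) : OO A B) * x₁ = (x - (n : OO A B)) -
        ((n * r : ℤ) : OO A B) * (x₁ - (n₁ : OO A B)) + (q : OO A B) * ((n * s : ℤ) : OO A B) := by
      have h4 := congrArg (Int.cast : ℤ → OO A B) hrs
      push_cast at h4 ⊢
      linear_combination (-(n : OO A B)) * h4
    rw [h3]
    exact dvd_add (dvd_sub hn (Dvd.dvd.mul_left hn₁ _)) (Dvd.dvd.mul_right hd2 _)
  · intro hq2
    refine hHAL L (emb lam) e0 (fun w hw => hL.toIsLat.emb_mul_mem hc lam hw) ?_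
    intro z hz h2z
    obtain ⟨k, hk⟩ := hq.odd_of_ne_two hq2
    have h1 := horder z hz
    have h3 : z = q * z - k • (2 * z) := by
      rw [hk, nsmul_eq_mul]
      push_cast
      ring
    rw [h3]
    exact sub_mem h1 (nsmul_mem h2z k)

end Pool.Agent.MU3V
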