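import Pool.Agent.MU3.StV

/-!
# MU3, block V, module DEG1: residue classes modulo an element of prime norm
-/

set_option autoImplicit false

open WeierstrassCurve Polynomial NumberField IsDedekindDomain

namespace Pool.Agent.MU3V

open _root_.MU3 Pool.Agent.MU3A Pool.Agent.MU3B

namespace DEG1

theorem nm_eq {A B : ℤ} (x : OO A B) : nm x = QuadraticAlgebra.norm x := by
  rw [QuadraticAlgebra.norm_def]
  unfold nm
  ring

theorem mul_conj {A B : ℤ} (lam : OO A B) :
    lam * (⟨lam.re + B * lam.im, -lam.im⟩ : OO A B) = ((nm lam : ℤ) : OO A B) := by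
  ext
  · rw [QuadraticAlgebra.re_intCast, QuadraticAlgebra.re_mul, Int.cast_id]
    unfold nm
    ring
  · rw [QuadraticAlgebra.im_intCast, QuadraticAlgebra.im_mul]
    ring

end DEG1

open DEG1 in
theorem tv_DEG1 : Sv_DEG1 := by
  intro A B _ lam q hq hn
  have hqi : Prime (q : ℤ) := Nat.prime_iff_prime_int.1 hq
  have hdvd : lam ∣ (q : OO A B) := by
    have h0 := mul_conj lam
    rw [hn, Int.cast_natCast] at h0
    exact ⟨_, h0.symm⟩
  have hnm : lam.re ^ 2 + B * lam.re * lam.im - A * lam.im ^ 2 = q := hn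
  have him : ¬ (q : ℤ) ∣ lam.im := by
    rintro ⟨b, hb⟩
    have h1 : (q : ℤ) ∣ lam.re ^ 2 := by
      refine ⟨1 - B * lam.re * b + A * q * b ^ 2, ?_⟩
      rw [hb] at hnm
      linear_combination hnm
    obtain ⟨a, ha⟩ := hqi.dvd_of_dvd_pow h1
    rw [hb, ha] at hnm
    have h2 : (q : ℤ) ∣ 1 := by
      refine ⟨a ^ 2 + B * a * b - A * b ^ 2, ?_⟩
      have h3 : (q : ℤ) ≠ 0 := hqi.ne_zero
      apply mul_left_cancel₀ h3
      linear_combination -hnm
    exact hqi.not_isUnit (isUnit_of_dvd_one h2)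
  refine ⟨?_, hdvd, ?_⟩
  · intro x
    have hcop : IsCoprime lam.im (q : ℤ) := ((Prime.coprime_iff_not_dvd hqi).2 him).symm
    obtain ⟨b', c, hbc⟩ := hcop
    refine ⟨x.re - x.im * lam.re * b', ?_⟩
    obtain ⟨y, hy⟩ := hdvd
    have h1 : x - ((x.re - x.im * lam.re * b' : ℤ) : OO A B) =
        lam * ((x.im : OO A B) * ((b' : OO A B) + y * (c : OO A B) * ⟨0, 1⟩)) := by
      have h2 : lam * ((x.im : OO A B) * ((b' : OO A B) + y * (c : OO A B) * ⟨0, 1⟩)) =
          (x.im : OO A B) * ((b' : OO A B) * lam + (q : OO A B) * (c : OO A B) * ⟨0, 1⟩) := by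
        rw [hy]
        ring
      rw [h2]
      ext
      · simp
        ring
      · simp
        linear_combination (-x.im) * hbc
    exact ⟨_, h1⟩
  · intro n hdn
    have h1 : QuadraticAlgebra.norm lam ∣ QuadraticAlgebra.norm (n : OO A B) :=
      map_dvd QuadraticAlgebra.norm hdn
    rw [QuadraticAlgebra.norm_intCast, ← nm_eq, hn] at h1
    exact hqi.dvd_of_dvd_pow h1

end Pool.Agent.MU3V
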