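import Pool.Agent.MU3.StV

/-!
# MU3, block V: a prime of a number field in `ℂ` extends to a valuation ring of `ℂ`
-/

set_option autoImplicit false

open WeierstrassCurve Polynomial NumberField IsDedekindDomain

namespace Pool.Agent.MU3V

open _root_.MU3 Pool.Agent.MU3A Pool.Agent.MU3B

theorem tv_EXT : Sv_EXT := by
  intro M _ _ φ w
  let O : ValuationSubring M := (w.valuation M).valuationSubring
  obtain ⟨V, hV, hloc⟩ := IsLocalRing.exists_factor_valuationRing (φ.comp O.subtype)
  have hO : ∀ x : M, x ∈ O ↔ w.valuation M x ≤ 1 := fun x => Valuation.mem_valuationSubring_iff _ x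
  have h1 : ∀ x : M, w.valuation M x ≤ 1 → φ x ∈ V := fun x hx => hV ⟨x, (hO x).mpr hx⟩
  have h2 : ∀ x : M, w.valuation M x < 1 → V.valuation (φ x) < 1 := by
    intro x hx
    have hm := h1 x hx.le
    refine lt_of_le_of_ne ((V.valuation_le_one_iff _).mpr hm) fun he => ?_
    have hu : IsUnit (⟨φ x, hm⟩ : V) := (V.valuation_eq_one_iff ⟨φ x, hm⟩).mpr he
    have hu2 : IsUnit (⟨x, (hO x).mpr hx.le⟩ : O) := by
      refine hloc.map_nonunit _ ?_
      exact hu
    obtain ⟨y, hy⟩ := hu2.exists_right_inv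
    have hy1 : x * (y : M) = 1 := congrArg Subtype.val hy
    have hy2 : w.valuation M x * w.valuation M (y : M) = 1 := by
      rw [← map_mul, hy1, map_one]
    have hy3 : w.valuation M (y : M) ≤ 1 := (hO _).mp y.2
    have hy4 : w.valuation M x * w.valuation M (y : M) ≤ w.valuation M x :=
      mul_le_of_le_one_right' hy3
    rw [hy2] at hy4
    exact absurd hx (not_lt.mpr hy4)
  have h3 : ∀ x : M, 1 < w.valuation M x → 1 < V.valuation (φ x) := by
    intro x hx
    have hx0 : x ≠ 0 := by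
      rintro rfl
      rw [map_zero] at hx
      exact absurd hx (not_lt.mpr zero_le_one)
    have hi : w.valuation M x⁻¹ < 1 := by
      rw [map_inv₀]
      exact inv_lt_one_of_one_lt₀ hx
    have hi2 := h2 x⁻¹ hi
    rw [map_inv₀, map_inv₀] at hi2
    by_contra hc
    rw [not_lt] at hc
    have hv0 : V.valuation (φ x) ≠ 0 := by
      rw [Ne, map_eq_zero, map_eq_zero]
      exact hx0
    have hc2 : 1 ≤ (V.valuation (φ x))⁻¹ := (one_le_inv₀ (zero_lt_iff.mpr hv0)).mpr hc
    exact absurd hi2 (not_lt.mpr hc2)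
  have h4 : ∀ x : M, w.valuation M x = 1 → V.valuation (φ x) = 1 := by
    intro x hx
    have ha := (V.valuation_le_one_iff _).mpr (h1 x hx.le)
    have hb : w.valuation M x⁻¹ = 1 := by rw [map_inv₀, hx, inv_one]
    have hc := (V.valuation_le_one_iff _).mpr (h1 x⁻¹ hb.le)
    rw [map_inv₀, map_inv₀] at hc
    have hx0 : x ≠ 0 := by
      rintro rfl
      rw [map_zero] at hx
      exact zero_ne_one hx
    have hv0 : V.valuation (φ x) ≠ 0 := by
      rw [Ne, map_eq_zero, map_eq_zero]
      exact hx0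
    have hd : 1 ≤ V.valuation (φ x) := (inv_le_one₀ (zero_lt_iff.mpr hv0)).mp hc
    exact le_antisymm ha hd
  refine ⟨V, fun x => ?_⟩
  rcases lt_trichotomy (w.valuation M x) 1 with hx | hx | hx
  · have hv := h2 x hx
    exact ⟨⟨fun _ => hx.le, fun _ => h1 x hx.le⟩, ⟨fun _ => hx, fun _ => hv⟩,
      ⟨fun h => absurd h hv.ne, fun h => absurd h hx.ne⟩⟩
  · have hv := h4 x hx
    exact ⟨⟨fun _ => hx.le, fun _ => h1 x hx.le⟩,
      ⟨fun h => absurd hv h.ne, fun h => absurd hx h.ne⟩, ⟨fun _ => hx, fun _ => hv⟩⟩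
  · have hv := h3 x hx
    refine ⟨⟨fun h => absurd ((V.valuation_le_one_iff _).mpr h) (not_le.mpr hv),
      fun h => absurd h (not_le.mpr hx)⟩,
      ⟨fun h => absurd h (not_lt.mpr hv.le), fun h => absurd h (not_lt.mpr hx.le)⟩,
      ⟨fun h => absurd h hv.ne', fun h => absurd h hx.ne'⟩⟩

end Pool.Agent.MU3V
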