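import Pool.Agent.MU3.StV

set_option autoImplicit false

namespace Pool.Agent.MU3V

open _root_.MU3 Pool.Agent.MU3A Pool.Agent.MU3B

lemma FRK_int {κ : Type*} [Field κ] {q : ℕ} (hq : q.Prime) (h0 : (q : κ) = 0) (m : ℤ) :
    (m : κ) ^ q = (m : κ) := by
  haveI : Fact q.Prime := ⟨hq⟩
  haveI : CharP κ q := by
    have hr := CharP.exists κ
    obtain ⟨p, hp⟩ := hr
    have hd : p ∣ q := (CharP.cast_eq_zero_iff κ p q).1 h0
    rcases (Nat.dvd_prime hq).1 hd with h | h
    · exfalso
      subst h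
      exact CharP.char_ne_one κ 1 rfl
    · subst h
      exact hp
  have h1 : ((m : ZMod q)) ^ q = (m : ZMod q) := ZMod.pow_card _
  have h2 := congrArg (ZMod.castHom (dvd_refl q) κ) h1
  rw [map_pow, map_intCast] at h2
  exact h2

theorem tv_FRK (hDEG : Sv_DEG1) : Sv_FRK := by
  intro A B hc V lam x q n hq hlam hvl hvn
  obtain ⟨h1, h2, -⟩ := hDEG A B hc lam q hq hlam
  obtain ⟨m, hm⟩ := h1 x
  -- elements of `V`
  have hlV := emb_mem_V hc V lam
  have hxV := emb_mem_V hc V x
  have htV : emb x / n ∈ V := by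
    rw [← ValuationSubring.valuation_le_one_iff, map_div₀, hvn, div_one]
    exact v_emb_le hc V x
  have hn0 : (n : ℂ) ≠ 0 := by
    intro h
    rw [h, map_zero] at hvn
    exact zero_ne_one hvn
  set φ := IsLocalRing.residue V with hφ
  have hker : ∀ y : V, V.valuation (y : ℂ) < 1 ↔ φ y = 0 := by
    intro y
    rw [hφ, IsLocalRing.residue_eq_zero_iff, ← ValuationSubring.valuation_lt_one_iff]
  have hφl : φ ⟨emb lam, hlV⟩ = 0 := (hker _).1 hvl
  have hdvd : ∀ z : OO A B, lam ∣ z → φ ⟨emb z, emb_mem_V hc V z⟩ = 0 := by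
    rintro z ⟨w, rfl⟩
    have : (⟨emb (lam * w), emb_mem_V hc V (lam * w)⟩ : V) =
        ⟨emb lam, hlV⟩ * ⟨emb w, emb_mem_V hc V w⟩ := by
      apply Subtype.ext
      exact emb_mul hc lam w
    rw [this, map_mul, hφl, zero_mul]
  have hq0 : ((q : ℕ) : IsLocalRing.ResidueField V) = 0 := by
    have := hdvd _ h2
    have e : (⟨emb (q : OO A B), emb_mem_V hc V _⟩ : V) = (q : V) := by
      apply Subtype.ext
      simp [emb_natCast hc]
    rw [e, map_natCast] at this
    exact this
  have hx : φ ⟨emb x, hxV⟩ = (m : IsLocalRing.ResidueField V) := by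
    have h3 := hdvd _ hm
    have e : (⟨emb (x - (m : OO A B)), emb_mem_V hc V _⟩ : V) = ⟨emb x, hxV⟩ - (m : V) := by
      apply Subtype.ext
      simp [emb_sub hc, emb_intCast hc]
    rw [e, map_sub, map_intCast, sub_eq_zero] at h3
    exact h3
  have ht : φ ⟨emb x / n, htV⟩ * (n : IsLocalRing.ResidueField V) = m := by
    rw [← hx, ← map_natCast φ n, ← map_mul]
    congr 1
    apply Subtype.ext
    simp
    field_simp
  have hnk : (n : IsLocalRing.ResidueField V) ≠ 0 := by
    intro h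
    rw [← map_natCast φ n, ← hker] at h
    have : V.valuation (n : ℂ) < 1 := by simpa using h
    rw [hvn] at this
    exact lt_irrefl _ this
  have ht' : φ ⟨emb x / n, htV⟩ ^ q = φ ⟨emb x / n, htV⟩ := by
    have e1 : φ ⟨emb x / n, htV⟩ = m / n := by rw [eq_div_iff hnk]; exact ht
    rw [e1, div_pow]
    have e2 := FRK_int hq hq0 m
    have e3 := FRK_int hq hq0 (n : ℤ)
    rw [Int.cast_natCast] at e3
    rw [e2, e3]
  have hfin : φ (⟨emb x / n, htV⟩ ^ q - ⟨emb x / n, htV⟩) = 0 := by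
    rw [map_sub, map_pow, ht', sub_self]
  rw [← hker] at hfin
  simpa using hfin

end Pool.Agent.MU3V
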