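import Pool.Agent.MU3.StV

/-!
# MU3, block V, module INJ: `E[lam]` meets the kernel of reduction trivially where `lam` is a unit
-/

set_option autoImplicit false

open WeierstrassCurve Polynomial NumberField IsDedekindDomain

namespace Pool.Agent.MU3V

open _root_.MU3 Pool.Agent.MU3A Pool.Agent.MU3B

noncomputable section

theorem tv_INJ (hCY : Sv_CYCL) (hR4 : Sv_R4) (hCA : Sv_CARD) : Sv_INJ := by
  intro A B L Om ξ hcase hcm hxi V h2 lam q hq hnm hlam u hu hE
  by_contra huL
  obtain ⟨c1, c2, c3⟩ := hCY A B L Om hcase hcm lam q hq hnm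
  have hqle : V.valuation (q : ℂ) ≤ 1 :=
    (ValuationSubring.valuation_le_one_iff _ _).2 (natCast_mem V q)
  rcases eq_or_lt_of_le hqle with hq1 | hq1
  · exact huL (mem_of_nat_mul hcase h2 hxi hE hq1 (c2 u hu))
  · have hq2 : q ≠ 2 := by
      rintro rfl
      rw [Nat.cast_ofNat, h2] at hq1
      exact lt_irrefl _ hq1
    obtain ⟨H, hH⟩ := c3 hq2
    have hlam0 : lam ≠ 0 := by
      rintro rfl
      rw [emb_zero hcase, map_zero] at hlam
      exact zero_ne_one hlam
    have hcard := hCA A B L Om hcase hcm lam q hnm hlam0 H hH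
    have hall : ∀ u', emb lam * u' ∈ L.lattice → InE1 A B V L u' := by
      intro u' hu'
      obtain ⟨m, hm⟩ := c1 u' u hu' hu huL
      exact (inE1_congr hcase h2 hxi (inE1_of_mem hm)).2 (inE1_int hcase h2 hxi hE m)
    obtain ⟨r1, -, -⟩ := hR4 A B L Om ξ hcase hcm hxi V h2 lam q hq hq1 hlam0 H hH hcard hall
    rw [hlam, one_mul] at r1
    have hne : H.Nonempty := by
      rw [← Finset.card_pos]
      rcases Nat.eq_zero_or_pos H.card with h0 | h0
      · rw [h0] at hcard
        exact absurd hcard.symm hq.ne_one
      · exact h0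
    have hgt : ∀ p ∈ H, 1 < V.valuation (xx A B L p) := by
      intro p hp
      have hpL : p ∉ L.lattice := by
        intro hpL
        apply hH.ne p hp
        rw [two_mul]
        exact add_mem hpL hpL
      rcases hall p (hH.mem p hp) with h3 | h3
      · exact absurd h3 hpL
      · rw [← not_le, ValuationSubring.valuation_le_one_iff]
        exact h3
    have hprod : 1 < ∏ p ∈ H, V.valuation (xx A B L p) := by
      refine Finset.prod_induction_nonempty (fun p => V.valuation (xx A B L p)) (fun a => 1 < a)
        (fun a b ha hb => ?_) hne hgt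
      exact lt_trans ha (lt_mul_of_one_lt_right (lt_trans zero_lt_one ha) hb)
    rw [r1] at hprod
    exact lt_irrefl _ hprod

end

end Pool.Agent.MU3V
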