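import Pool.Agent.MU3.StV

/-!
# MU3, block V, module R2: `E[lam]` is in the kernel of reduction at a place where `lam` is not a unit
-/

set_option autoImplicit false

open WeierstrassCurve Polynomial NumberField IsDedekindDomain

namespace Pool.Agent.MU3V

open _root_.MU3 Pool.Agent.MU3A Pool.Agent.MU3B

noncomputable section

/-- the element of `V` given by a complex number of `V` -/
def r2V (V : ValuationSubring ℂ) (x : ℂ) : V := by
  classical
  exact if h : x ∈ V then ⟨x, h⟩ else 0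

lemma r2V_coe (V : ValuationSubring ℂ) {x : ℂ} (h : x ∈ V) : ((r2V V x : V) : ℂ) = x := by
  unfold r2V; rw [dif_pos h]

lemma r2_lin (V : ValuationSubring ℂ) (s : Finset ℂ) (f : ℂ → ℂ) (hf : ∀ p ∈ s, f p ∈ V) :
    (∏ p ∈ s, (X - C (f p)) : ℂ[X]) =
      Polynomial.map V.subtype (∏ p ∈ s, (X - C (r2V V (f p)))) := by
  rw [Polynomial.map_prod]
  apply Finset.prod_congr rfl
  intro p hp
  rw [Polynomial.map_sub, Polynomial.map_X, Polynomial.map_C]
  simp [r2V_coe V (hf p hp)]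

lemma r2_mult {κ : Type*} [Field κ] {a b : κ} (hab : a ≠ b) {P Q : κ[X]} (hP : P ≠ 0)
    (hQ : Q ≠ 0) (h : (X - C a) * P ^ 2 = (X - C b) * Q ^ 2) : False := by
  classical
  have h1 : rootMultiplicity a ((X - C a) * P ^ 2) = 1 + 2 * rootMultiplicity a P := by
    rw [rootMultiplicity_mul (mul_ne_zero (X_sub_C_ne_zero a) (pow_ne_zero 2 hP)), pow_two,
      rootMultiplicity_mul (mul_ne_zero hP hP), rootMultiplicity_X_sub_C_self]
    ring
  have h2 : rootMultiplicity a ((X - C b) * Q ^ 2) = 2 * rootMultiplicity a Q := by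
    rw [rootMultiplicity_mul (mul_ne_zero (X_sub_C_ne_zero b) (pow_ne_zero 2 hQ)), pow_two,
      rootMultiplicity_mul (mul_ne_zero hQ hQ), rootMultiplicity_X_sub_C, if_neg hab]
    ring
  rw [h, h2] at h1
  omega

/-- the reduction argument -/
lemma r2_red (V : ValuationSubring ℂ) (H : Finset ℂ) (c l e₁ e₂ : ℂ) (f f₁ f₂ : ℂ → ℂ)
    (hc : c ∈ V) (hl : V.valuation l < 1) (he₁ : e₁ ∈ V) (he₂ : e₂ ∈ V)
    (he : V.valuation (e₁ - e₂) = 1)
    (hf : ∀ p ∈ H, f p ∈ V) (hf₁ : ∀ p ∈ H, f₁ p ∈ V) (hf₂ : ∀ p ∈ H, f₂ p ∈ V)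
    (h : C c * (C l * ∏ p ∈ H, (X - C (f p))) ^ 2 =
      (X - C e₁) * (∏ p ∈ H, (X - C (f₁ p))) ^ 2 - (X - C e₂) * (∏ p ∈ H, (X - C (f₂ p))) ^ 2) :
    False := by
  have hlV : l ∈ V := (ValuationSubring.valuation_le_one_iff _ _).1 hl.le
  have hinj : Function.Injective V.subtype := Subtype.coe_injective
  have hC : ∀ {x : ℂ}, x ∈ V → (C x : ℂ[X]) = Polynomial.map V.subtype (C (r2V V x)) := by
    intro x hx
    rw [Polynomial.map_C]
    simp [r2V_coe V hx]
  have hX : (X : ℂ[X]) = Polynomial.map V.subtype X := by rw [Polynomial.map_X]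
  rw [hC hc, hC hlV, hC he₁, hC he₂, r2_lin V H f hf, r2_lin V H f₁ hf₁, r2_lin V H f₂ hf₂,
    hX, ← Polynomial.map_mul, ← Polynomial.map_pow, ← Polynomial.map_mul, ← Polynomial.map_sub,
    ← Polynomial.map_pow, ← Polynomial.map_mul, ← Polynomial.map_sub, ← Polynomial.map_pow,
    ← Polynomial.map_mul, ← Polynomial.map_sub] at h
  have h' := Polynomial.map_injective _ hinj h
  have h2 := congrArg (Polynomial.map (IsLocalRing.residue V)) h'
  have hl0 : IsLocalRing.residue V (r2V V l) = 0 := by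
    rw [IsLocalRing.residue_eq_zero_iff, ValuationSubring.valuation_lt_one_iff, r2V_coe V hlV]
    exact hl
  simp only [Polynomial.map_mul, Polynomial.map_pow, Polynomial.map_sub, Polynomial.map_X,
    Polynomial.map_C, hl0, C_0, zero_mul, Polynomial.map_prod] at h2
  rw [zero_pow two_ne_zero, mul_zero, eq_comm, sub_eq_zero] at h2
  refine r2_mult (a := IsLocalRing.residue V (r2V V e₁)) (b := IsLocalRing.residue V (r2V V e₂))
    ?_ ?_ ?_ h2
  · intro hh
    rw [← sub_eq_zero, ← map_sub, IsLocalRing.residue_eq_zero_iff,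
      ValuationSubring.valuation_lt_one_iff] at hh
    have e : ((r2V V e₁ - r2V V e₂ : V) : ℂ) = e₁ - e₂ := by
      push_cast
      rw [r2V_coe V he₁, r2V_coe V he₂]
    rw [e, he] at hh
    exact lt_irrefl _ hh
  · exact Finset.prod_ne_zero_iff.2 fun p _ => X_sub_C_ne_zero _
  · exact Finset.prod_ne_zero_iff.2 fun p _ => X_sub_C_ne_zero _

/-- the points of order two -/
lemma r2_half {A B : ℤ} {L : PeriodPair} {Om : ℂ} (h : Case A B) (hL : IsLat A B L Om) :
    ∃ w₁ w₂ : ℂ, 2 * w₁ ∈ L.lattice ∧ w₁ ∉ L.lattice ∧ 2 * w₂ ∈ L.lattice ∧ w₂ ∉ L.lattice ∧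
      w₁ + w₂ ∉ L.lattice ∧ w₁ - w₂ ∉ L.lattice := by
  have re1 : QuadraticAlgebra.re (1 : OO A B) = 1 := rfl
  have im1 : QuadraticAlgebra.im (1 : OO A B) = 0 := rfl
  have re2 : QuadraticAlgebra.re (2 : OO A B) = 2 := by
    have e : (2 : OO A B) = 1 + 1 := by norm_num
    rw [e, QuadraticAlgebra.re_add, re1]; norm_num
  have im2 : QuadraticAlgebra.im (2 : OO A B) = 0 := by
    have e : (2 : OO A B) = 1 + 1 := by norm_num
    rw [e, QuadraticAlgebra.im_add, im1]; norm_num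
  have h20 : (2 : OO A B) ≠ 0 := by
    intro h0
    have := congrArg QuadraticAlgebra.re h0
    rw [re2] at this
    simp at this
  have e2 : emb (2 : OO A B) = 2 := by
    have := emb_natCast h 2
    exact_mod_cast this
  have key : ∀ x : OO A B, ¬ (2 : OO A B) ∣ x → emb x * (Om / 2) ∉ L.lattice := by
    intro x hx hm
    rw [← e2, hL.mul_div_mem_iff h h20] at hm
    exact hx hm
  have k2 : ∀ x : OO A B, 2 * (emb x * (Om / 2)) ∈ L.lattice := by
    intro x
    rw [hL.mem]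
    exact ⟨x, by ring⟩
  have hdiv : ∀ x : OO A B, ((2 : OO A B) ∣ x) → (2 : ℤ) ∣ x.re ∧ (2 : ℤ) ∣ x.im := by
    rintro x ⟨y, rfl⟩
    constructor
    · exact ⟨y.re, by simp [re2, im2]⟩
    · exact ⟨y.im, by simp [re2, im2]⟩
  refine ⟨emb (1 : OO A B) * (Om / 2), emb (⟨0, 1⟩ : OO A B) * (Om / 2), k2 _, key _ ?_, k2 _,
    key _ ?_, ?_, ?_⟩
  · intro hd
    have h3 := (hdiv _ hd).1
    rw [re1] at h3
    omega
  · intro hd
    have h3 := (hdiv _ hd).2
    have e : QuadraticAlgebra.im (⟨0, 1⟩ : OO A B) = 1 := rfl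
    rw [e] at h3
    omega
  · rw [← add_mul, ← emb_add h]
    apply key
    intro hd
    have h3 := (hdiv _ hd).1
    have e : QuadraticAlgebra.re ((1 : OO A B) + ⟨0, 1⟩) = 1 := by
      rw [QuadraticAlgebra.re_add, re1]; norm_num
    rw [e] at h3
    omega
  · rw [← sub_mul, ← emb_sub h]
    apply key
    intro hd
    have h3 := (hdiv _ hd).1
    have e : QuadraticAlgebra.re ((1 : OO A B) - ⟨0, 1⟩) = 1 := by
      rw [QuadraticAlgebra.re_sub, re1]; norm_num
    rw [e] at h3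
    omega

theorem tv_R2 (hPOL : Sv_POL) (hCYCL : Sv_CYCL) : Sv_R2 := by
  intro A B L Om ξ h hL hξ V h2 lam q hq hnm hlam u₀ hu₀
  by_contra hE
  have hlam0 : lam ≠ 0 := by
    rintro rfl
    have : (q : ℤ) = 0 := by rw [← hnm]; simp [nm]
    exact hq.ne_zero (by exact_mod_cast this)
  have hl0 : emb lam ≠ 0 := emb_ne_zero h hlam0
  have hO := hL.Om_ne
  obtain ⟨c1, c2, c3⟩ := hCYCL A B L Om h hL lam q hq hnm
  -- `v q < 1`
  have hvq : V.valuation (q : ℂ) < 1 := by
    have m1 : emb lam * (Om / emb lam) ∈ L.lattice := by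
      rw [hL.mem]; exact ⟨1, by rw [emb_one h]; field_simp⟩
    have m2 := c2 _ m1
    rw [hL.mem] at m2
    obtain ⟨x, hx⟩ := m2
    have e : (q : ℂ) = emb lam * emb x := by
      field_simp at hx
      linear_combination hx
    rw [e, map_mul]
    exact lt_of_le_of_lt (mul_le_of_le_one_right' (v_emb_le h V x)) hlam
  have hq2 : q ≠ 2 := by
    rintro rfl
    have : V.valuation ((2 : ℕ) : ℂ) = 1 := by simpa using h2
    rw [this] at hvq
    exact lt_irrefl _ hvq
  obtain ⟨H, hH⟩ := c3 hq2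
  have hstab : ∀ u ∈ L.lattice, emb lam * u ∈ L.lattice := fun u hu => hL.emb_mul_mem h lam hu
  -- no nonzero point of `E[lam]` is in `E₁`
  have hno : ∀ u, emb lam * u ∈ L.lattice → u ∉ L.lattice → ¬ InE1 A B V L u := by
    intro u hu huL hu1
    obtain ⟨m, hm⟩ := c1 u₀ u hu₀ hu huL
    apply hE
    rw [inE1_congr h h2 hξ (w := m * u) (inE1_of_mem hm)]
    exact inE1_int h h2 hξ hu1 m
  have htwo : ∀ w : ℂ, 2 * w ∈ L.lattice → w ∉ L.lattice → ¬ InE1 A B V L w := by
    intro w hw hwL hw1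
    exact hwL (mem_of_nat_mul h h2 hξ hw1 (n := 2) (by simpa using h2) (by simpa using hw))
  have hadd : ∀ w : ℂ, 2 * w ∈ L.lattice → w ∉ L.lattice → ∀ p ∈ H, ¬ InE1 A B V L (w + p) := by
    intro w hw hwL p hp hwp
    have h3 := inE1_nat h h2 hξ hwp 2
    have h4 := inE1_sub h h2 hξ h3 (inE1_of_mem (A := A) (B := B) (V := V) hw)
    have e : ((2 : ℕ) : ℂ) * (w + p) - 2 * w = 2 * p := by push_cast; ring
    rw [e] at h4
    refine hno (2 * p) ?_ (hH.ne p hp) h4
    have := hH.mem p hp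
    have h5 := add_mem this this
    have e' : emb lam * p + emb lam * p = emb lam * (2 * p) := by ring
    rwa [e'] at h5
  have hlw : ∀ w : ℂ, 2 * w ∈ L.lattice → w ∉ L.lattice → ¬ InE1 A B V L (emb lam * w) := by
    intro w hw hwL
    apply htwo
    · have := hstab _ hw
      rwa [mul_left_comm] at this
    · intro hlw
      obtain ⟨p, hp, hp' | hp'⟩ := hH.surj w hlw hwL
      · apply hH.ne p hp
        have h5 := add_mem hp' hp'
        have h6 := sub_mem hw h5
        have e : 2 * w - (w - p + (w - p)) = 2 * p := by ring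
        rwa [e] at h6
      · apply hH.ne p hp
        have h5 := add_mem hp' hp'
        have h6 := sub_mem h5 hw
        have e : (w + p + (w + p)) - 2 * w = 2 * p := by ring
        rwa [e] at h6
  have hmem : ∀ z : ℂ, ¬ InE1 A B V L z → xx A B L z ∈ V := fun z hz =>
    (ValuationSubring.valuation_le_one_iff _ _).1 (int_x hz).2
  obtain ⟨w₁, w₂, a1, a2, a3, a4, a5, a6⟩ := r2_half h hL.toIsLat
  have hsum : ¬ InE1 A B V L (w₁ + w₂) := by
    apply htwo _ _ a5
    rw [mul_add]; exact add_mem a1 a3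
  have hdiff : ¬ InE1 A B V L (w₁ - w₂) := by
    apply htwo _ _ a6
    rw [mul_sub]; exact sub_mem a1 a3
  have hpol := (hPOL A B L (emb lam) H hl0 hstab hH).1 w₁ w₂ a1 a2 a3 a4
  unfold Qp Cp at hpol
  refine r2_red V H _ _ _ _ (fun p => xx A B L p) (fun p => xx A B L (w₁ + p))
    (fun p => xx A B L (w₂ + p)) ?_ hlam (hmem _ (htwo _ a1 a2)) (hmem _ (htwo _ a3 a4)) ?_ ?_ ?_ ?_
    hpol
  · exact sub_mem (hmem _ (hlw _ a3 a4)) (hmem _ (hlw _ a1 a2))
  · exact v_xx_sub h h2 hξ (htwo _ a1 a2) (htwo _ a3 a4) hsum hdiff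
  · intro p hp
    apply hmem
    apply hno p (hH.mem p hp)
    intro hpL
    apply hH.ne p hp
    have := add_mem hpL hpL
    rwa [← two_mul] at this
  · intro p hp
    exact hmem _ (hadd _ a1 a2 p hp)
  · intro p hp
    exact hmem _ (hadd _ a3 a4 p hp)

end

end Pool.Agent.MU3V
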