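import Pool.Agent.MU3.StV

/-!
# MU3, block V: module R5 (multiplication by `lam` reduces to the Frobenius)
-/

set_option autoImplicit false

open WeierstrassCurve Polynomial NumberField IsDedekindDomain

namespace Pool.Agent.MU3V

open _root_.MU3 Pool.Agent.MU3A Pool.Agent.MU3B

noncomputable section

namespace R5

/-- the computation in the residue field -/
lemma coreK {κ : Type*} [Field κ] (q : ℕ) [Fact q.Prime] [CharP κ q] (hq : Odd q)
    (h3 : (3 : κ) ≠ 0) {e1 e2 e3 f1 f2 f3 c G2 G3 : κ}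
    (h21 : (f2 - f1) * c = (e2 - e1) ^ q) (h31 : (f3 - f1) * c = (e3 - e1) ^ q)
    (h32 : (f3 - f2) * c = (e3 - e2) ^ q)
    (s1 : e1 + e2 + e3 = 0) (t1 : f1 + f2 + f3 = 0)
    (s2 : e1 * e2 + e1 * e3 + e2 * e3 = -G2) (t2 : f1 * f2 + f1 * f3 + f2 * f3 = -G2)
    (s3 : e1 * e2 * e3 = G3) (t3 : f1 * f2 * f3 = G3)
    (g2 : G2 ^ q = G2) (g3 : G3 ^ q = G3) (n2 : G2 ≠ 0) (n3 : G3 ≠ 0) :
    c = 1 ∧ e1 ^ q = f1 := by
  rw [sub_pow_char] at h21 h31 h32
  have s1q : e1 ^ q + e2 ^ q + e3 ^ q = 0 := by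
    rw [← add_pow_char, ← add_pow_char, s1]
    exact zero_pow hq.pos.ne'
  have a1 : e1 ^ q = c * f1 := by
    apply mul_left_cancel₀ h3
    linear_combination h21 + h31 + s1q - c * t1
  have a2 : e2 ^ q = c * f2 := by
    apply mul_left_cancel₀ h3
    linear_combination h32 - h21 + s1q - c * t1
  have a3 : e3 ^ q = c * f3 := by
    apply mul_left_cancel₀ h3
    linear_combination (-1) * h31 - h32 + s1q - c * t1
  have c2 : c ^ 2 = 1 := by
    have h := congrArg (fun x => x ^ q) s2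
    simp only [add_pow_char, mul_pow] at h
    rw [a1, a2, a3, hq.neg_pow, g2] at h
    have : (c ^ 2 - 1) * G2 = 0 := by linear_combination (-1) * h + c ^ 2 * t2
    rcases mul_eq_zero.1 this with h' | h'
    · exact sub_eq_zero.1 h'
    · exact absurd h' n2
  have c3 : c ^ 3 = 1 := by
    have h := congrArg (fun x => x ^ q) s3
    simp only [mul_pow] at h
    rw [a1, a2, a3, g3] at h
    have : (c ^ 3 - 1) * G3 = 0 := by linear_combination h - c ^ 3 * t3
    rcases mul_eq_zero.1 this with h' | h'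
    · exact sub_eq_zero.1 h'
    · exact absurd h' n3
  have c1 : c = 1 := by linear_combination c3 - c * c2
  exact ⟨c1, by rw [a1, c1, one_mul]⟩

lemma res_eq_iff (V : ValuationSubring ℂ) (a b : V) :
    IsLocalRing.residue V a = IsLocalRing.residue V b ↔ V.valuation ((a : ℂ) - b) < 1 := by
  rw [← sub_eq_zero, ← map_sub, IsLocalRing.residue_eq_zero_iff,
    ValuationSubring.valuation_lt_one_iff]
  rfl

lemma res_ne_iff (V : ValuationSubring ℂ) (a : V) :
    IsLocalRing.residue V a ≠ 0 ↔ V.valuation (a : ℂ) = 1 := by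
  rw [Ne, IsLocalRing.residue_eq_zero_iff, ValuationSubring.valuation_lt_one_iff, not_lt]
  constructor
  · intro h
    exact le_antisymm ((ValuationSubring.valuation_le_one_iff _ _).2 a.2) h
  · intro h
    exact h.ge

lemma nat_ne (V : ValuationSubring ℂ) (n : ℕ) (h : V.valuation (n : ℂ) = 1) :
    ((n : ℕ) : IsLocalRing.ResidueField V) ≠ 0 := by
  have h' := (res_ne_iff V (n : V)).2 (by simpa using h)
  rwa [map_natCast] at h'

/-- the same computation, modulo the maximal ideal of `V` -/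
lemma coreV (V : ValuationSubring ℂ) (q : ℕ) (hqp : q.Prime) (hq : Odd q)
    (hvq : V.valuation (q : ℂ) < 1)
    (h3 : V.valuation (3 : ℂ) = 1) {e1 e2 e3 f1 f2 f3 c G2 G3 : ℂ}
    (me1 : e1 ∈ V) (me2 : e2 ∈ V) (me3 : e3 ∈ V) (mf1 : f1 ∈ V) (mf2 : f2 ∈ V) (mf3 : f3 ∈ V)
    (mc : c ∈ V) (mG2 : G2 ∈ V) (mG3 : G3 ∈ V)
    (h21 : V.valuation ((f2 - f1) * c - (e2 - e1) ^ q) < 1)
    (h31 : V.valuation ((f3 - f1) * c - (e3 - e1) ^ q) < 1)
    (h32 : V.valuation ((f3 - f2) * c - (e3 - e2) ^ q) < 1)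
    (s1 : e1 + e2 + e3 = 0) (t1 : f1 + f2 + f3 = 0)
    (s2 : e1 * e2 + e1 * e3 + e2 * e3 = -G2) (t2 : f1 * f2 + f1 * f3 + f2 * f3 = -G2)
    (s3 : e1 * e2 * e3 = G3) (t3 : f1 * f2 * f3 = G3)
    (g2 : V.valuation (G2 ^ q - G2) < 1) (g3 : V.valuation (G3 ^ q - G3) < 1)
    (n2 : V.valuation G2 = 1) (n3 : V.valuation G3 = 1) :
    V.valuation (c - 1) < 1 ∧ V.valuation (e1 ^ q - f1) < 1 := by
  obtain ⟨E1, rfl⟩ : ∃ a : V, (a : ℂ) = e1 := ⟨⟨e1, me1⟩, rfl⟩
  obtain ⟨E2, rfl⟩ : ∃ a : V, (a : ℂ) = e2 := ⟨⟨e2, me2⟩, rfl⟩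
  obtain ⟨E3, rfl⟩ : ∃ a : V, (a : ℂ) = e3 := ⟨⟨e3, me3⟩, rfl⟩
  obtain ⟨F1, rfl⟩ : ∃ a : V, (a : ℂ) = f1 := ⟨⟨f1, mf1⟩, rfl⟩
  obtain ⟨F2, rfl⟩ : ∃ a : V, (a : ℂ) = f2 := ⟨⟨f2, mf2⟩, rfl⟩
  obtain ⟨F3, rfl⟩ : ∃ a : V, (a : ℂ) = f3 := ⟨⟨f3, mf3⟩, rfl⟩
  obtain ⟨K, rfl⟩ : ∃ a : V, (a : ℂ) = c := ⟨⟨c, mc⟩, rfl⟩
  obtain ⟨H2, rfl⟩ : ∃ a : V, (a : ℂ) = G2 := ⟨⟨G2, mG2⟩, rfl⟩
  obtain ⟨H3, rfl⟩ : ∃ a : V, (a : ℂ) = G3 := ⟨⟨G3, mG3⟩, rfl⟩
  have : Fact q.Prime := ⟨hqp⟩
  have hq0 : ((q : ℕ) : IsLocalRing.ResidueField V) = 0 := by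
    have h := (res_eq_iff V (q : V) 0).2 (by simpa using hvq)
    rw [map_zero, map_natCast] at h
    exact h
  have : CharP (IsLocalRing.ResidueField V) q := (CharP.charP_iff_prime_eq_zero hqp).2 hq0
  have h3' : (3 : IsLocalRing.ResidueField V) ≠ 0 := by
    have h := nat_ne V 3 (by exact_mod_cast h3)
    exact_mod_cast h
  have key := coreK (κ := IsLocalRing.ResidueField V) q hq h3'
    (e1 := IsLocalRing.residue V E1) (e2 := IsLocalRing.residue V E2)
    (e3 := IsLocalRing.residue V E3) (f1 := IsLocalRing.residue V F1)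
    (f2 := IsLocalRing.residue V F2) (f3 := IsLocalRing.residue V F3)
    (c := IsLocalRing.residue V K) (G2 := IsLocalRing.residue V H2)
    (G3 := IsLocalRing.residue V H3)
    (by
      rw [← map_sub, ← map_sub, ← map_mul, ← map_pow, res_eq_iff]
      push_cast
      exact h21)
    (by
      rw [← map_sub, ← map_sub, ← map_mul, ← map_pow, res_eq_iff]
      push_cast
      exact h31)
    (by
      rw [← map_sub, ← map_sub, ← map_mul, ← map_pow, res_eq_iff]
      push_cast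
      exact h32)
    (by
      rw [← map_add, ← map_add, ← map_zero (IsLocalRing.residue V)]
      congr 1
      exact Subtype.ext (by push_cast; exact s1))
    (by
      rw [← map_add, ← map_add, ← map_zero (IsLocalRing.residue V)]
      congr 1
      exact Subtype.ext (by push_cast; exact t1))
    (by
      rw [← map_mul, ← map_mul, ← map_mul, ← map_add, ← map_add, ← map_neg]
      congr 1
      exact Subtype.ext (by push_cast; exact s2))
    (by
      rw [← map_mul, ← map_mul, ← map_mul, ← map_add, ← map_add, ← map_neg]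
      congr 1
      exact Subtype.ext (by push_cast; exact t2))
    (by
      rw [← map_mul, ← map_mul]
      congr 1
      exact Subtype.ext (by push_cast; exact s3))
    (by
      rw [← map_mul, ← map_mul]
      congr 1
      exact Subtype.ext (by push_cast; exact t3))
    (by
      rw [← map_pow, res_eq_iff]
      push_cast
      exact g2)
    (by
      rw [← map_pow, res_eq_iff]
      push_cast
      exact g3)
    ((res_ne_iff V H2).2 n2) ((res_ne_iff V H3).2 n3)
  obtain ⟨k1, k2⟩ := key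
  constructor
  · have := (res_eq_iff V K 1).1 (by rw [map_one]; exact k1)
    simpa using this
  · rw [← map_pow, res_eq_iff] at k2
    push_cast at k2
    exact k2

/-- `x ↦ x ^ q` is additive modulo the maximal ideal -/
lemma frob_sub (V : ValuationSubring ℂ) (q : ℕ) (hqp : q.Prime)
    (hvq : V.valuation (q : ℂ) < 1) {a b : ℂ} (ha : a ∈ V) (hb : b ∈ V) :
    V.valuation ((a - b) ^ q - (a ^ q - b ^ q)) < 1 := by
  obtain ⟨E1, rfl⟩ : ∃ c : V, (c : ℂ) = a := ⟨⟨a, ha⟩, rfl⟩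
  obtain ⟨E2, rfl⟩ : ∃ c : V, (c : ℂ) = b := ⟨⟨b, hb⟩, rfl⟩
  have : Fact q.Prime := ⟨hqp⟩
  have hq0 : ((q : ℕ) : IsLocalRing.ResidueField V) = 0 := by
    have h := (res_eq_iff V (q : V) 0).2 (by simpa using hvq)
    rw [map_zero, map_natCast] at h
    exact h
  have : CharP (IsLocalRing.ResidueField V) q := (CharP.charP_iff_prime_eq_zero hqp).2 hq0
  have h := (res_eq_iff V ((E1 - E2) ^ q) (E1 ^ q - E2 ^ q)).1 (by
    rw [map_pow, map_sub, map_sub, map_pow, map_pow, sub_pow_char])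
  push_cast at h
  exact h

end R5

open R5 Pool.Agent.MU3.Val in
theorem tv_R5 (h1 : Sv_POL) (h2 : Sv_CYCL) (h3 : Sv_R2) (h4 : Sv_R4) (h5 : Sv_CARD)
    (h6 : Sv_FRK) (h7 : Sa_ROO) : Sv_R5 := by
  intro A B L Om ξ hC hL hξ V v2 v3 v5 v7 v11 lam q hqp hnm hlam z hz
  have hLat : IsLat A B L Om := hL.toIsLat
  have hvq : V.valuation (q : ℂ) < 1 := by
    have e : emb lam * emb (⟨lam.re + B * lam.im, -lam.im⟩ : OO A B) = (q : ℂ) := by
      rw [← emb_mul hC]
      have : lam * ⟨lam.re + B * lam.im, -lam.im⟩ = ((q : ℤ) : OO A B) := by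
        rw [← hnm]
        ext
        · simp only [QuadraticAlgebra.re_mul, QuadraticAlgebra.re_intCast, nm, Int.cast_id]
          ring
        · simp only [QuadraticAlgebra.im_mul, QuadraticAlgebra.im_intCast]
          ring
      rw [this, emb_intCast hC]
      simp
    rw [← e, map_mul]
    exact lt_of_le_of_lt (mul_le_of_le_one_right' (v_emb_le hC V _)) hlam
  have hq2 : q ≠ 2 := by
    intro h
    rw [h] at hvq
    push_cast at hvq
    rw [v2] at hvq
    exact lt_irrefl _ hvq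
  have hlam0 : lam ≠ 0 := by
    intro h
    rw [h] at hnm
    have : (q : ℤ) = 0 := by
      rw [← hnm]
      simp [nm]
    exact hqp.ne_zero (by exact_mod_cast this)
  obtain ⟨H, hH⟩ := (h2 A B L Om hC hL lam q hqp hnm).2.2 hq2
  have hcard := h5 A B L Om hC hL lam q hnm hlam0 H hH
  have hE := h3 A B L Om ξ hC hL hξ V v2 lam q hqp hnm hlam
  obtain ⟨-, r2, r3⟩ := h4 A B L Om ξ hC hL hξ V v2 lam q hqp hvq hlam0 H hH hcard hE
  have hodd : Odd q := ⟨H.card, hcard.symm⟩
  have hl0 : emb lam ≠ 0 := emb_ne_zero hC hlam0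
  have hlL : ∀ u ∈ L.lattice, emb lam * u ∈ L.lattice := fun u hu => hLat.emb_mul_mem hC lam hu
  have ord2 : ∀ w, 2 * w ∈ L.lattice → w ∉ L.lattice → ¬ InE1 A B V L w :=
    fun w h2w hw hE' => hw (mem_of_nat_mul hC v2 hξ hE' (n := 2) (by exact_mod_cast v2)
      (by exact_mod_cast h2w))
  have lord : ∀ w, 2 * w ∈ L.lattice → w ∉ L.lattice → emb lam * w ∉ L.lattice := by
    intro w h2w hw hlw
    obtain ⟨p, hp, hp'⟩ := hH.surj w hlw hw
    apply hH.ne p hp
    rcases hp' with h | h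
    · have := sub_mem h2w (add_mem h h)
      convert this using 1
      ring
    · have := sub_mem (add_mem h h) h2w
      convert this using 1
      ring
  have lord2 : ∀ w, 2 * w ∈ L.lattice → 2 * (emb lam * w) ∈ L.lattice := by
    intro w h2w
    have := hlL _ h2w
    convert this using 1
    ring
  have hpt : ∀ a b : ℤ, ((a : ℂ) + b * wC A B) * (Om / 2) ∈ L.lattice →
      (2 : ℤ) ∣ a ∧ (2 : ℤ) ∣ b := by
    intro a b hab
    have e2 : emb ((2 : ℕ) : OO A B) = 2 := by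
      rw [emb_natCast hC]
      norm_num
    have h := (hLat.mul_div_mem_iff hC (m := ((2 : ℕ) : OO A B)) (by
      intro h
      have := congrArg emb h
      rw [e2, emb_zero hC] at this
      norm_num at this) ⟨a, b⟩).1 (by rw [e2]; exact hab)
    obtain ⟨y, hy⟩ := h
    have k1 := congrArg QuadraticAlgebra.re hy
    have k2 := congrArg QuadraticAlgebra.im hy
    rw [← nsmul_eq_mul, two_nsmul] at k1 k2
    rw [QuadraticAlgebra.re_add] at k1
    rw [QuadraticAlgebra.im_add] at k2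
    exact ⟨⟨y.re, by rw [two_mul]; exact k1⟩, ⟨y.im, by rw [two_mul]; exact k2⟩⟩
  have hOm : Om ∈ L.lattice := (hLat.mem _).2 ⟨1, by rw [emb_one hC, mul_one]⟩
  obtain ⟨w1, hw1⟩ : ∃ w, w = Om / 2 := ⟨_, rfl⟩
  obtain ⟨w2, hw2⟩ : ∃ w, w = wC A B * (Om / 2) := ⟨_, rfl⟩
  have m1 : w1 ∉ L.lattice := by
    intro h
    have := (hpt 1 0 (by rw [hw1] at h; simpa using h)).1
    norm_num at this
  have m2 : w2 ∉ L.lattice := by
    intro h
    have := (hpt 0 1 (by rw [hw2] at h; simpa using h)).2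
    norm_num at this
  have m3 : w1 + w2 ∉ L.lattice := by
    intro h
    have := (hpt 1 1 (by
      rw [hw1, hw2] at h
      convert h using 1
      push_cast
      ring)).1
    norm_num at this
  have t1 : 2 * w1 ∈ L.lattice := by
    rw [hw1]
    convert hOm using 1
    ring
  have t2 : 2 * w2 ∈ L.lattice := by
    rw [hw2]
    convert hLat.mul_mem_w hC hOm using 1
    ring
  have t3 : 2 * (w1 + w2) ∈ L.lattice := by
    rw [mul_add]
    exact add_mem t1 t2
  have l3 : emb lam * w1 + emb lam * w2 ∉ L.lattice := by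
    rw [← mul_add]
    exact lord _ t3 m3
  obtain ⟨-, -, -, s1, s2, s3⟩ := h7 L w1 w2 m1 m2 m3 t1 t2
  obtain ⟨-, -, -, s1', s2', s3'⟩ := h7 L (emb lam * w1) (emb lam * w2) (lord _ t1 m1)
    (lord _ t2 m2) l3 (lord2 _ t1) (lord2 _ t2)
  have ha2 : emb (a2 A B) / 3 ∈ V := by
    rw [← ValuationSubring.valuation_le_one_iff, map_div₀, v3, div_one]
    exact v_emb_le hC V _
  have hxV : ∀ w, ¬ InE1 A B V L w → xx A B L w ∈ V := by
    intro w hw
    exact (ValuationSubring.valuation_le_one_iff _ _).1 (int_x hw).2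
  have hpV : ∀ w, ¬ InE1 A B V L w → L.weierstrassP w ∈ V := by
    intro w hw
    have := add_mem (hxV w hw) ha2
    rwa [xx, sub_add_cancel] at this
  have hxp : ∀ a b, xx A B L a - xx A B L b = L.weierstrassP a - L.weierstrassP b := by
    intro a b
    rw [xx, xx]
    ring
  -- the difference of the two values is a unit
  have hunit : V.valuation (xx A B L (emb lam * w2) - xx A B L (emb lam * w1)) = 1 := by
    refine v_xx_sub hC v2 hξ (ord2 _ (lord2 _ t2) (lord _ t2 m2))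
      (ord2 _ (lord2 _ t1) (lord _ t1 m1)) ?_ ?_
    · refine ord2 _ ?_ ?_
      · rw [mul_add]
        exact add_mem (lord2 _ t2) (lord2 _ t1)
      · rw [add_comm]
        exact l3
    · refine ord2 _ ?_ ?_
      · rw [mul_sub]
        exact sub_mem (lord2 _ t2) (lord2 _ t1)
      · intro h
        apply l3
        have := add_mem h (lord2 _ t1)
        convert this using 1
        ring
  have hcV : ∀ x ∈ V, (Qp A B L (emb lam) H).eval x ^ 2 ∈ V := by
    intro x hx
    have h := r2 w1 w2 t1 m1 t2 m2 x hx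
    rw [← ValuationSubring.valuation_le_one_iff]
    have e : V.valuation ((Qp A B L (emb lam) H).eval x ^ 2) =
        V.valuation ((xx A B L (emb lam * w2) - xx A B L (emb lam * w1)) *
          (Qp A B L (emb lam) H).eval x ^ 2) := by
      rw [map_mul, hunit, one_mul]
    have e' : (xx A B L (emb lam * w2) - xx A B L (emb lam * w1)) *
          (Qp A B L (emb lam) H).eval x ^ 2 =
        ((xx A B L (emb lam * w2) - xx A B L (emb lam * w1)) *
          (Qp A B L (emb lam) H).eval x ^ 2 - (xx A B L w2 - xx A B L w1) ^ q) +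
          (xx A B L w2 - xx A B L w1) ^ q := by ring
    rw [e, e']
    refine v_add_le h.le ?_
    rw [ValuationSubring.valuation_le_one_iff]
    exact pow_mem (sub_mem (hxV _ (ord2 _ t2 m2)) (hxV _ (ord2 _ t1 m1))) q
  -- the invariants
  have v4 : V.valuation (4 : ℂ) = 1 := by
    rw [show (4 : ℂ) = 2 * 2 by norm_num, map_mul, v2, one_mul]
  have v108 : V.valuation ((108 : ℕ) : ℂ) = 1 := by
    rw [show ((108 : ℕ) : ℂ) = 2 ^ 2 * 3 ^ 3 by norm_num, map_mul, map_pow, map_pow, v2, v3]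
    simp
  have v3' : V.valuation ((3 : ℕ) : ℂ) = 1 := by
    exact_mod_cast v3
  have G2eq : L.g₂ / 4 = emb (a2 A B * a2 A B - ((3 : ℕ) : OO A B) * a4 A B) / ((3 : ℕ) : ℂ) := by
    rw [emb_sub hC, emb_mul hC, emb_mul hC, emb_natCast hC, hL.g2]
    push_cast
    ring
  have G3eq : L.g₃ / 4 = emb (((36 : ℕ) : OO A B) * a4 A B * a2 A B -
      ((27 : ℕ) : OO A B) * a6 A B - ((8 : ℕ) : OO A B) * (a2 A B * a2 A B * a2 A B)) /
        ((108 : ℕ) : ℂ) := by
    rw [emb_sub hC, emb_sub hC, emb_mul hC, emb_mul hC, emb_mul hC, emb_mul hC, emb_mul hC,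
      emb_mul hC, emb_natCast hC, emb_natCast hC, emb_natCast hC, hL.g3]
    push_cast
    ring
  have g2fr := h6 A B hC V lam (a2 A B * a2 A B - ((3 : ℕ) : OO A B) * a4 A B) q 3 hqp hnm hlam v3'
  rw [← G2eq] at g2fr
  have g3fr := h6 A B hC V lam (((36 : ℕ) : OO A B) * a4 A B * a2 A B -
      ((27 : ℕ) : OO A B) * a6 A B - ((8 : ℕ) : OO A B) * (a2 A B * a2 A B * a2 A B)) q 108
      hqp hnm hlam v108
  rw [← G3eq] at g3fr
  have a2fr := h6 A B hC V lam (a2 A B) q 3 hqp hnm hlam v3'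
  push_cast at a2fr
  have gunit : V.valuation (L.g₂ / 4) = 1 ∧ V.valuation (L.g₃ / 4) = 1 := by
    rw [hL.g2, hL.g3]
    rcases hC with ⟨rfl, rfl⟩ | ⟨rfl, rfl⟩
    · have k1 : emb (a2 (-2) 0) = 4 := by
        have : a2 (-2) 0 = ((4 : ℕ) : OO (-2) 0) := by simp [a2]
        rw [this, emb_natCast (Or.inl ⟨rfl, rfl⟩)]; norm_num
      have k2 : emb (a4 (-2) 0) = 2 := by
        have : a4 (-2) 0 = ((2 : ℕ) : OO (-2) 0) := by simp [a4]
        rw [this, emb_natCast (Or.inl ⟨rfl, rfl⟩)]; norm_num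
      have k3 : emb (a6 (-2) 0) = 0 := by
        have : a6 (-2) 0 = 0 := by simp [a6]
        rw [this, emb_zero (Or.inl ⟨rfl, rfl⟩)]
      rw [k1, k2, k3]
      constructor
      · rw [show (-4 * (2 - 4 ^ 2 / 3) / 4 : ℂ) = 2 * 5 / 3 by norm_num, map_div₀, map_mul, v2,
          v3, v5]
        simp
      · rw [show (-4 * (0 / 4 + 2 * (4 / 3) ^ 3 - 2 * (4 / 3)) / 4 : ℂ) = -(2 ^ 3 * 7 / 3 ^ 3) by
          norm_num, Valuation.map_neg, map_div₀, map_mul, map_pow, map_pow, v2, v3, v7]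
        simp
    · have hw := wC_sq (A := -3) (B := 1) (Or.inr ⟨rfl, rfl⟩)
      have k1 : emb (a2 (-3) 1) = 2 * wC (-3) 1 - 1 := by simp [a2, emb]; ring
      have k2 : emb (a4 (-3) 1) = -3 := by
        have : a4 (-3) 1 = ((-3 : ℤ) : OO (-3) 1) := by simp [a4]
        rw [this, emb_intCast (Or.inr ⟨rfl, rfl⟩)]; norm_num
      have k3 : emb (a6 (-3) 1) = 1 - 2 * wC (-3) 1 := by simp [a6, emb]; ring
      push_cast at hw
      have e : (2 * wC (-3) 1 - 1) ^ 2 = -11 := by linear_combination 4 * hw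
      have hd1 : V.valuation (2 * wC (-3) 1 - 1) ≤ 1 := by
        rw [← k1]
        exact v_emb_le (Or.inr ⟨rfl, rfl⟩) V _
      have hd : V.valuation (2 * wC (-3) 1 - 1) = 1 := by
        refine le_antisymm hd1 ?_
        by_contra hc
        push Not at hc
        have h' : V.valuation ((2 * wC (-3) 1 - 1) ^ 2) < 1 := by
          rw [map_pow]
          exact pow_lt_one₀ zero_le hc (by norm_num)
        rw [e, Valuation.map_neg, v11] at h'
        exact lt_irrefl _ h'
      rw [k1, k2, k3]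
      constructor
      · rw [show (-4 * (-3 - (2 * wC (-3) 1 - 1) ^ 2 / 3) / 4 : ℂ) = -(2 / 3) by
          rw [e]; norm_num, Valuation.map_neg, map_div₀, v2, v3]
        simp
      · rw [show (-4 * ((1 - 2 * wC (-3) 1) / 4 + 2 * ((2 * wC (-3) 1 - 1) / 3) ^ 3 -
            -3 * ((2 * wC (-3) 1 - 1) / 3)) / 4 : ℂ) =
            7 * (2 * wC (-3) 1 - 1) / (2 ^ 2 * 3 ^ 3) by
          linear_combination (-2 / 27 * (2 * wC (-3) 1 - 1)) * e,
          map_div₀, map_mul, map_mul, map_pow, map_pow, v2, v3, v7, hd]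
        simp
  obtain ⟨n2, n3⟩ := gunit
  have mG2 : L.g₂ / 4 ∈ V := (ValuationSubring.valuation_le_one_iff _ _).1 n2.le
  have mG3 : L.g₃ / 4 ∈ V := (ValuationSubring.valuation_le_one_iff _ _).1 n3.le
  have main : ∀ x ∈ V, V.valuation ((Qp A B L (emb lam) H).eval x ^ 2 - 1) < 1 ∧
      V.valuation (L.weierstrassP w1 ^ q - L.weierstrassP (emb lam * w1)) < 1 := by
    intro x hx
    have k21 := r2 w1 w2 t1 m1 t2 m2 x hx
    have k31 := r2 w1 (w1 + w2) t1 m1 t3 m3 x hx
    have k32 := r2 w2 (w1 + w2) t2 m2 t3 m3 x hx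
    rw [hxp, hxp] at k21 k31 k32
    rw [mul_add] at k31 k32
    refine coreV V q hqp hodd hvq v3 (e1 := L.weierstrassP w1) (e2 := L.weierstrassP w2)
      (e3 := L.weierstrassP (w1 + w2)) (f1 := L.weierstrassP (emb lam * w1))
      (f2 := L.weierstrassP (emb lam * w2)) (f3 := L.weierstrassP (emb lam * w1 + emb lam * w2))
      (G2 := L.g₂ / 4) (G3 := L.g₃ / 4)
      (hpV _ (ord2 _ t1 m1)) (hpV _ (ord2 _ t2 m2)) (hpV _ (ord2 _ t3 m3))
      (hpV _ (ord2 _ (lord2 _ t1) (lord _ t1 m1))) (hpV _ (ord2 _ (lord2 _ t2) (lord _ t2 m2)))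
      (hpV _ (ord2 _ (by rw [mul_add]; exact add_mem (lord2 _ t1) (lord2 _ t2)) l3))
      (hcV x hx) mG2 mG3 k21 k31 k32 s1 s1' s2 s2' s3 s3' g2fr g3fr n2 n3
  -- conclusion
  have hx0 : xx A B L z ∈ V := hxV z hz
  obtain ⟨c1, c2⟩ := main _ hx0
  have hlz : emb lam * z ∉ L.lattice := fun h => hz (hE z h)
  have hpol := (h1 A B L (emb lam) H hl0 hlL hH).2 w1 t1 m1 z hlz
  have hr3 := r3 w1 t1 m1 _ hx0
  rw [← hpol] at hr3
  have hcu : V.valuation ((Qp A B L (emb lam) H).eval (xx A B L z) ^ 2) = 1 := by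
    have e : (Qp A B L (emb lam) H).eval (xx A B L z) ^ 2 =
        1 + ((Qp A B L (emb lam) H).eval (xx A B L z) ^ 2 - 1) := by ring
    rw [e, Valuation.map_add_eq_of_lt_left, map_one]
    rw [map_one]
    exact c1
  have hw1V := hxV _ (ord2 _ t1 m1)
  have hD1 : V.valuation (xx A B L (emb lam * z) - xx A B L (emb lam * w1)) ≤ 1 := by
    have e : V.valuation (xx A B L (emb lam * z) - xx A B L (emb lam * w1)) =
        V.valuation ((xx A B L (emb lam * z) - xx A B L (emb lam * w1)) *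
          (Qp A B L (emb lam) H).eval (xx A B L z) ^ 2) := by
      rw [map_mul, hcu, mul_one]
    have e' : (xx A B L (emb lam * z) - xx A B L (emb lam * w1)) *
          (Qp A B L (emb lam) H).eval (xx A B L z) ^ 2 =
        ((xx A B L (emb lam * z) - xx A B L (emb lam * w1)) *
          (Qp A B L (emb lam) H).eval (xx A B L z) ^ 2 - (xx A B L z - xx A B L w1) ^ q) +
          (xx A B L z - xx A B L w1) ^ q := by ring
    rw [e, e']
    refine v_add_le hr3.le ?_
    rw [ValuationSubring.valuation_le_one_iff]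
    exact pow_mem (sub_mem hx0 hw1V) q
  have hDV := (ValuationSubring.valuation_le_one_iff _ _).1 hD1
  have hlw1V := hxV _ (ord2 _ (lord2 _ t1) (lord _ t1 m1))
  have hlzV : xx A B L (emb lam * z) ∈ V := by
    have := add_mem hDV hlw1V
    rwa [sub_add_cancel] at this
  refine ⟨?_, ?_⟩
  · intro h
    rcases h with h | h
    · exact hlz h
    · exact h hlzV
  · have b1 : V.valuation ((xx A B L (emb lam * z) - xx A B L (emb lam * w1)) *
        ((Qp A B L (emb lam) H).eval (xx A B L z) ^ 2 - 1)) < 1 := by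
      rw [map_mul]
      exact lt_of_le_of_lt (mul_le_of_le_one_left' hD1) c1
    have b2 := frob_sub V q hqp hvq hx0 hw1V
    have b3 := frob_sub V q hqp hvq (hpV _ (ord2 _ t1 m1)) ha2
    have e : xx A B L (emb lam * z) - xx A B L z ^ q =
        ((xx A B L (emb lam * z) - xx A B L (emb lam * w1)) *
          (Qp A B L (emb lam) H).eval (xx A B L z) ^ 2 - (xx A B L z - xx A B L w1) ^ q) -
        (xx A B L (emb lam * z) - xx A B L (emb lam * w1)) *
          ((Qp A B L (emb lam) H).eval (xx A B L z) ^ 2 - 1) +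
        ((xx A B L z - xx A B L w1) ^ q - (xx A B L z ^ q - xx A B L w1 ^ q)) -
        ((L.weierstrassP w1 - emb (a2 A B) / 3) ^ q -
          (L.weierstrassP w1 ^ q - (emb (a2 A B) / 3) ^ q)) -
        (L.weierstrassP w1 ^ q - L.weierstrassP (emb lam * w1)) +
        ((emb (a2 A B) / 3) ^ q - emb (a2 A B) / 3) := by
      simp only [xx]
      ring
    rw [e]
    exact Valuation.map_add_lt _ (Valuation.map_sub_lt _ (Valuation.map_sub_lt _
      (Valuation.map_add_lt _ (Valuation.map_sub_lt _ hr3 b1) b2) b3) c2) a2fr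

end

end Pool.Agent.MU3V
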