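import Pool.Agent.MU3.StV

/-!
# MU3, block V, TRA: total ramification, the parameter of a point of order `lam`
-/

set_option autoImplicit false

open WeierstrassCurve

namespace Pool.Agent.MU3V

open _root_.MU3 Pool.Agent.MU3A Pool.Agent.MU3B Pool.Agent.MU3.Val

noncomputable section

namespace TRA

variable {A B : ℤ}

/-- `q = N(lam)` is divisible by `lam` -/
theorem v_q_lt (h : Case A B) (V : ValuationSubring ℂ) {lam : OO A B} {q : ℕ} (hq : nm lam = q)
    (hl : V.valuation (emb lam) < 1) : V.valuation (q : ℂ) < 1 := by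
  have e : (q : ℂ) = emb lam * emb (⟨lam.re + B * lam.im, -lam.im⟩ : OO A B) := by
    have h1 : ((nm lam : ℤ) : ℂ) = (q : ℂ) := by
      rw [hq]
      push_cast
      rfl
    rw [← h1]
    unfold nm emb
    push_cast
    linear_combination ((lam.im : ℂ) ^ 2) * wC_sq h
  rw [e, map_mul]
  exact mul_lt_of_lt_of_le_one hl (v_emb_le h V _)

theorem tz_congr {L : PeriodPair} {ξ : ℂ →+ (WC A B).Point} (hξ : IsXi A B L ξ) {z w : ℂ}
    (hz : z ∉ L.lattice) (hw : w ∉ L.lattice) (hzw : z - w ∈ L.lattice) :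
    tz A B L z = tz A B L w := by
  rw [← zc_xi hξ hz, ← zc_xi hξ hw]
  have h1 := hξ.zero _ hzw
  rw [map_sub, sub_eq_zero] at h1
  rw [h1]

/-- a natural number prime to `q` is a unit -/
theorem v_nat_one {V : ValuationSubring ℂ} {q : ℕ} (hq : q.Prime) (hv : V.valuation (q : ℂ) < 1)
    {m : ℕ} (hm : ¬ q ∣ m) : V.valuation (m : ℂ) = 1 := by
  refine le_antisymm (v_nat V.valuation m) ?_
  by_contra hc
  push Not at hc
  have h1 : IsCoprime (m : ℤ) (q : ℤ) :=
    Nat.isCoprime_iff_coprime.2 ((Nat.Prime.coprime_iff_not_dvd hq).2 hm).symm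
  obtain ⟨a, b, hab⟩ := h1
  have h2 : (a : ℂ) * m + b * q = 1 := by exact_mod_cast hab
  have h3 : V.valuation ((a : ℂ) * m + b * q) < 1 := by
    have ha : V.valuation (a : ℂ) ≤ 1 :=
      (ValuationSubring.valuation_le_one_iff _ _).2 (intCast_mem V a)
    have hb : V.valuation (b : ℂ) ≤ 1 :=
      (ValuationSubring.valuation_le_one_iff _ _).2 (intCast_mem V b)
    refine V.valuation.map_add_lt ?_ ?_
    · rw [map_mul]
      exact mul_lt_of_le_one_of_lt ha hc
    · rw [map_mul]
      exact mul_lt_of_le_one_of_lt hb hv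
  rw [h2, map_one] at h3
  exact lt_irrefl _ h3

end TRA

open TRA in
/-- total ramification: the parameter of a point of order `lam` -/
theorem tv_TRA (hC : Sv_CYCL) (hR2 : Sv_R2) (hR4 : Sv_R4) (hK : Sv_CARD) : Sv_TRA := by
  intro A B L Om ξ h hL hξ V h2 lam q hq hnm hl u hu huL
  have hv := v_q_lt h V hnm hl
  have hq2 : q ≠ 2 := by
    rintro rfl
    rw [Nat.cast_ofNat, h2] at hv
    exact lt_irrefl _ hv
  obtain ⟨hc1, hc2, hc3⟩ := hC A B L Om h hL lam q hq hnm
  obtain ⟨H, hH⟩ := hc3 hq2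
  have hlam : lam ≠ 0 := by
    rintro rfl
    have h3 : (q : ℤ) = 0 := by
      rw [← hnm]
      simp [nm]
    exact hq.ne_zero (by exact_mod_cast h3)
  have hcard := hK A B L Om h hL lam q hnm hlam H hH
  have hin : ∀ u, emb lam * u ∈ L.lattice → InE1 A B V L u :=
    fun u hu => hR2 A B L Om ξ h hL hξ V h2 lam q hq hnm hl u hu
  have h4 := (hR4 A B L Om ξ h hL hξ V h2 lam q hq hv hlam H hH hcard hin).1
  have hp : ∀ p ∈ H, V.valuation (xx A B L p) * V.valuation (tz A B L u) ^ 2 = 1 := by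
    intro p hp
    have hpL : p ∉ L.lattice := fun h0 => hH.ne p hp (by
      rw [two_mul]
      exact add_mem h0 h0)
    have hpl := hH.mem p hp
    obtain ⟨m, hm⟩ := hc1 p u hpl hu huL
    have hqu := hc2 u hu
    have hq0 : (0 : ℤ) < q := by exact_mod_cast hq.pos
    obtain ⟨n, hn⟩ : ∃ n : ℕ, (n : ℤ) = m % q :=
      ⟨(m % q).toNat, Int.toNat_of_nonneg (Int.emod_nonneg _ hq0.ne')⟩
    have hmn : p - n * u ∈ L.lattice := by
      have e1 : (m : ℂ) = n + (q : ℂ) * (m / q : ℤ) := by
        have e2 : m = n + q * (m / q) := by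
          rw [hn]
          exact (Int.emod_add_mul_ediv m q).symm
        exact_mod_cast congrArg (Int.cast : ℤ → ℂ) e2
      have e3 : p - n * u = (p - m * u) + ((m / q : ℤ) : ℤ) • ((q : ℂ) * u) := by
        rw [e1, zsmul_eq_mul]
        ring
      rw [e3]
      exact add_mem hm (L.lattice.smul_mem _ hqu)
    have hnL : (n : ℂ) * u ∉ L.lattice := fun h0 => hpL (by
      have := add_mem hmn h0
      rwa [sub_add_cancel] at this)
    have hqn : ¬ q ∣ n := by
      rintro ⟨k, rfl⟩
      apply hnL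
      have e4 : ((q * k : ℕ) : ℂ) * u = (k : ℤ) • ((q : ℂ) * u) := by
        rw [zsmul_eq_mul]
        push_cast
        ring
      rw [e4]
      exact L.lattice.smul_mem _ hqu
    have h5 := v_tz_nat h h2 hξ (hin u hu) (v_nat_one hq hv hqn) huL hnL
    rw [← tz_congr hξ hpL hnL hmn] at h5
    have h6 := (v_tz_lt h h2 hξ (hin p hpl) hpL).2.2
    rwa [h5] at h6
  have h7 : (∏ p ∈ H, V.valuation (xx A B L p)) * (V.valuation (tz A B L u) ^ 2) ^ H.card = 1 := by
    rw [← Finset.prod_const, ← Finset.prod_mul_distrib]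
    exact Finset.prod_eq_one hp
  have h8 : q - 1 = 2 * H.card := by omega
  rw [h8, pow_mul]
  calc (V.valuation (tz A B L u) ^ 2) ^ H.card
      = (V.valuation (emb lam) * ∏ p ∈ H, V.valuation (xx A B L p)) *
        (V.valuation (tz A B L u) ^ 2) ^ H.card := by rw [h4, one_mul]
    _ = V.valuation (emb lam) := by rw [mul_assoc, h7, mul_one]

end

end Pool.Agent.MU3V
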