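import Pool.Agent.MU3.StV2

/-!
# MU3, block V: module DIF, points with congruent coordinates differ by an element of `E₁`
-/

set_option autoImplicit false

open WeierstrassCurve

namespace Pool.Agent.MU3V

open _root_.MU3 Pool.Agent.MU3A Pool.Agent.MU3B Pool.Agent.MU3C
open Pool.Agent.MU3.Val

noncomputable section

/-- DIF. -/
theorem tw_DIF : Sw_DIF := by
  intro A B L Om ξ h _ hξ V h2 z z' hz hz' hx hy
  by_contra hm
  -- `z + z'` is in the kernel of reduction
  have hp : InE1 A B V L (z + z') := by
    by_contra hp
    have := v_xx_sub h h2 hξ hz hz' hp hm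
    rw [this] at hx
    exact lt_irrefl _ hx
  have hnz' : ¬ InE1 A B V L (-z') := by
    intro h1
    apply hz'
    have := inE1_neg hξ h1
    rwa [neg_neg] at this
  have h1 := (near_lt h h2 hξ hnz' hp).2
  have e1 : -z' + (z + z') = z := by ring
  have e2 : yy L (-z') = -yy L z' := by
    unfold yy
    rw [L.derivWeierstrassP_neg]
    ring
  rw [e1, e2, sub_neg_eq_add] at h1
  have h3 : V.valuation (yy L z') < 1 := by
    have e3 : 2 * yy L z' = (yy L z + yy L z') - (yy L z - yy L z') := by ring
    have h4 : V.valuation (2 * yy L z') < 1 := by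
      rw [e3]
      exact lt_of_le_of_lt (V.valuation.map_sub _ _) (max_lt h1 hy)
    rwa [map_mul, h2, one_mul] at h4
  have h5 : InE1 A B V L (z' + z') := by
    by_contra h6
    obtain ⟨h7, e7⟩ := hξ.some z' (int_x hz').1
    have h8 : V.valuation (yy L z') = 1 := by
      apply v_y_unit (intW h h2) h2 (v_disc h h2) h7
      · rw [← e7, inE_iff hξ]
        exact hz'
      · rw [← e7, ← map_add, inE_iff hξ]
        exact h6
    rw [h8] at h3
    exact lt_irrefl _ h3
  apply hm
  have e4 : z - z' = (z + z') - (z' + z') := by ring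
  rw [e4]
  exact inE1_sub h h2 hξ hp h5

end

end Pool.Agent.MU3V
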