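import Pool.Agent.MU3.StV2

/-!
# MU3, block V, module DISI: distribution relation over `E[b]`, with constant in `k`
-/

set_option autoImplicit false

open WeierstrassCurve Polynomial NumberField IsDedekindDomain

namespace Pool.Agent.MU3V

open _root_.MU3 Pool.Agent.MU3A Pool.Agent.MU3B Pool.Agent.MU3C

noncomputable section

theorem tw_DISI (hTDI : St_TDI) (hTHG : Sw_THG) (hNRM : Sa_NRM) (hGAL : Sa_GAL) (hPID : Sa_PID)
    (hTIN : St_TIN) : Sw_DISI := by
  classical
  intro A B L Om h hL b hb a H ha hab hH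
  have hdom : IsDomain (OO A B) := (hPID A B h).1
  have hfinQ : Finite (OO A B ⧸ Ideal.span {b}) :=
    Ideal.finiteQuotientOfFreeOfNeBot _ (by simpa [Ideal.span_singleton_eq_bot] using hb)
  letI : Fintype (OO A B ⧸ Ideal.span {b}) := Fintype.ofFinite _
  have hb0 : emb b ≠ 0 := emb_ne_zero h hb
  have hper := (hTIN L a H H hH hH).2.2
  have ea : emb ((a : ℤ) : OO A B) = (a : ℂ) := emb_intCast h a
  have ha0 : (a : ℂ) ≠ 0 := by exact_mod_cast ha
  -- the map
  have hmk : ∀ x y : OO A B, (Ideal.Quotient.mk (Ideal.span {b}) x =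
      Ideal.Quotient.mk (Ideal.span {b}) y) ↔ b ∣ x - y := by
    intro x y
    rw [Ideal.Quotient.eq, Ideal.mem_span_singleton]
  have hout : ∀ t : OO A B ⧸ Ideal.span {b},
      Ideal.Quotient.mk (Ideal.span {b}) (Quotient.out t) = t := fun t => Ideal.Quotient.mk_out t
  set r : OO A B ⧸ Ideal.span {b} → ℂ := fun t => emb (Quotient.out t) * (Om / emb b) with hr
  have hsub : ∀ (x y : OO A B), b ∣ x - y → emb x * (Om / emb b) - emb y * (Om / emb b) ∈
      L.lattice := by
    intro x y hxy
    rw [← sub_mul, ← emb_sub h, hL.mul_div_mem_iff h hb]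
    exact hxy
  have hinjL : ∀ t t', r t - r t' ∈ L.lattice → t = t' := by
    intro t t' htt
    simp only [hr] at htt
    rw [← sub_mul, ← emb_sub h, hL.mul_div_mem_iff h hb, ← hmk, hout, hout] at htt
    exact htt
  have hinj : Function.Injective r := by
    intro t t' htt
    apply hinjL
    rw [htt, sub_self]; exact zero_mem _
  set R : Finset ℂ := (Finset.univ.erase 0).image r with hR
  have hr0 : ∀ t, t ≠ 0 → r t ∉ L.lattice := by
    intro t ht hm
    simp only [hr] at hm
    rw [hL.mul_div_mem_iff h hb] at hm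
    apply ht
    rw [← hout t, ← map_zero (Ideal.Quotient.mk (Ideal.span {b})), hmk, sub_zero]
    exact hm
  have hrL : ∀ t, emb b * r t ∈ L.lattice := by
    intro t
    rw [hL.torsion_iff h hb]
    exact ⟨_, rfl⟩
  have hReps : IsReps L (emb b) R := by
    constructor
    · intro q hq
      obtain ⟨t, ht, rfl⟩ := Finset.mem_image.1 hq
      exact hrL t
    · intro q hq
      obtain ⟨t, ht, rfl⟩ := Finset.mem_image.1 hq
      exact hr0 t (Finset.ne_of_mem_erase ht)
    · intro q hq q' hq' hqq
      obtain ⟨t, ht, rfl⟩ := Finset.mem_image.1 hq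
      obtain ⟨t', ht', rfl⟩ := Finset.mem_image.1 hq'
      rw [hinjL t t' hqq]
    · intro z hz hzL
      obtain ⟨x, rfl⟩ := (hL.torsion_iff h hb z).1 hz
      refine ⟨r (Ideal.Quotient.mk _ x), Finset.mem_image.2 ⟨_, Finset.mem_erase.2 ⟨?_,
        Finset.mem_univ _⟩, rfl⟩, ?_⟩
      · intro h0
        apply hzL
        rw [hL.mul_div_mem_iff h hb]
        rw [← map_zero (Ideal.Quotient.mk (Ideal.span {b})), hmk, sub_zero] at h0
        exact h0
      · apply hsub
        rw [← hmk, hout]
  have hprodR : ∀ g : ℂ → ℂ, ∏ q ∈ R, g q = ∏ t ∈ Finset.univ.erase 0, g (r t) := by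
    intro g
    rw [hR, Finset.prod_image (fun x _ y _ hxy => hinj hxy)]
  obtain ⟨hne, hmain⟩ := hTDI L a (emb b) H R ha0 hb0
    (fun w hw => by have := hL.emb_mul_mem h ((a : ℤ) : OO A B) hw; rwa [ea] at this)
    (fun w hw => hL.emb_mul_mem h b hw) hH hReps
    (fun z h1 h2 => hL.mem_of_coprime h hab (by rwa [ea]) h2)
  -- the constant is in `k`
  have hP : ∏ q ∈ R, ThetaH L H q ∈ kk A B := by
    have hΘ : ∀ t, t ≠ 0 → ∃ hz : ThetaH L H (r t) ∈ TF L b,
        ∀ (σ : TF L b →ₐ[kk A B] ℂ) (c : OO A B), Act L σ b c →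
          σ ⟨ThetaH L H (r t), hz⟩ = ThetaH L H (emb c * r t) := fun t ht =>
      hTHG A B L Om h hL b hb a H ha hH (r t) (hrL t) (hr0 t ht)
    set θ : OO A B ⧸ Ideal.span {b} → TF L b := fun t =>
      if ht : t ≠ 0 then ⟨ThetaH L H (r t), (hΘ t ht).1⟩ else 1 with hθ
    have hθ1 : ∀ t, t ≠ 0 → ((θ t : TF L b) : ℂ) = ThetaH L H (r t) := by
      intro t ht
      simp only [hθ]
      rw [dif_pos ht]
    have hcoe : ((∏ t ∈ Finset.univ.erase 0, θ t : TF L b) : ℂ) = ∏ q ∈ R, ThetaH L H q := by
      rw [hprodR]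
      have e0 : ((∏ t ∈ Finset.univ.erase 0, θ t : TF L b) : ℂ) =
          ∏ t ∈ Finset.univ.erase 0, ((θ t : TF L b) : ℂ) :=
        map_prod (TF L b).val _ _
      rw [e0]
      exact Finset.prod_congr rfl fun t ht => hθ1 t (Finset.ne_of_mem_erase ht)
    obtain ⟨hfd, hgal⟩ := hNRM A B L Om h hL b hb
    have hfix : ∀ σ : TF L b ≃ₐ[kk A B] TF L b,
        σ (∏ t ∈ Finset.univ.erase 0, θ t) = ∏ t ∈ Finset.univ.erase 0, θ t := by
      intro σ
      obtain ⟨c, hc⟩ := hGAL A B L Om h hL b hb (TF L b) le_rfl (em σ)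
      apply Subtype.ext
      have e1 : ((σ (∏ t ∈ Finset.univ.erase 0, θ t) : TF L b) : ℂ) =
          em σ (∏ t ∈ Finset.univ.erase 0, θ t) := rfl
      rw [e1, map_prod, hcoe, hprodR]
      have e2 : ∀ t ∈ Finset.univ.erase (0 : OO A B ⧸ Ideal.span {b}),
          em σ (θ t) = ThetaH L H (emb c * r t) := by
        intro t ht
        have ht0 := Finset.ne_of_mem_erase ht
        have e3 : θ t = ⟨ThetaH L H (r t), (hΘ t ht0).1⟩ := by
          simp only [hθ]; rw [dif_pos ht0]
        rw [e3]
        exact (hΘ t ht0).2 (em σ) c hc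
      rw [Finset.prod_congr rfl e2]
      -- multiplication by `c`
      obtain ⟨x, y, hxy⟩ := hc.1
      have hu : Ideal.Quotient.mk (Ideal.span {b}) x * Ideal.Quotient.mk (Ideal.span {b}) c = 1 := by
        rw [← map_mul, ← map_one (Ideal.Quotient.mk (Ideal.span {b})), hmk]
        exact ⟨-y, by rw [← hxy]; ring⟩
      have hu' : Ideal.Quotient.mk (Ideal.span {b}) c * Ideal.Quotient.mk (Ideal.span {b}) x = 1 := by
        rw [mul_comm]; exact hu
      let e : (OO A B ⧸ Ideal.span {b}) ≃ (OO A B ⧸ Ideal.span {b}) :=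
        { toFun := fun t => Ideal.Quotient.mk (Ideal.span {b}) c * t
          invFun := fun t => Ideal.Quotient.mk (Ideal.span {b}) x * t
          left_inv := fun t => by
            show Ideal.Quotient.mk (Ideal.span {b}) x *
              (Ideal.Quotient.mk (Ideal.span {b}) c * t) = t
            rw [← mul_assoc, hu, one_mul]
          right_inv := fun t => by
            show Ideal.Quotient.mk (Ideal.span {b}) c *
              (Ideal.Quotient.mk (Ideal.span {b}) x * t) = t
            rw [← mul_assoc, hu', one_mul] }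
      refine Finset.prod_equiv e ?_ ?_
      · intro t
        have : e t = 0 ↔ t = 0 := by
          constructor
          · intro h0
            have := congrArg e.symm h0
            rw [Equiv.symm_apply_apply] at this
            rw [this]
            show Ideal.Quotient.mk (Ideal.span {b}) x * 0 = 0
            rw [mul_zero]
          · rintro rfl
            show Ideal.Quotient.mk (Ideal.span {b}) c * 0 = 0
            rw [mul_zero]
        simp only [Finset.mem_erase, Finset.mem_univ, and_true, ne_eq, this]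
      · intro t ht
        have hd : b ∣ c * Quotient.out t - Quotient.out (e t) := by
          rw [← hmk, hout, map_mul, hout]
          rfl
        have h3 := hsub _ _ hd
        have h4 := hper (r (e t)) _ h3
        rw [← h4]
        congr 1
        simp only [hr]
        rw [emb_mul h]
        ring
    have hmem := (InfiniteGalois.mem_range_algebraMap_iff_fixed (k := kk A B) (K := TF L b)
      (∏ t ∈ Finset.univ.erase 0, θ t)).2 hfix
    obtain ⟨x, hx⟩ := hmem
    rw [← hcoe, ← hx]
    exact x.2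
  refine ⟨emb b ^ (2 * H.card) * ∏ q ∈ R, ThetaH L H q, mul_mem (pow_mem (emb_mem b) _) hP,
    mul_ne_zero (pow_ne_zero _ hb0) hne, ?_⟩
  intro z hz
  have hz' : (a : ℂ) * emb b * z ∉ L.lattice := by
    rwa [mul_comm (a : ℂ)]
  rw [← hmain z hz', finprod_eq_prod_of_fintype, hprodR,
    ← Finset.mul_prod_erase Finset.univ _ (Finset.mem_univ (0 : OO A B ⧸ Ideal.span {b}))]
  congr 1
  apply hper
  rw [hL.mul_div_mem_iff h hb]
  have := hout 0
  rw [← map_zero (Ideal.Quotient.mk (Ideal.span {b})), hmk, map_zero, sub_zero] at this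
  exact this

end

end Pool.Agent.MU3V
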