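import Pool.Agent.MU3.StV2

/-!
# MU3, block V: module FIB, `XX` at a higher level is the full inverse image
-/

set_option autoImplicit false

open WeierstrassCurve Polynomial NumberField IsDedekindDomain

namespace Pool.Agent.MU3V

open _root_.MU3 Pool.Agent.MU3A Pool.Agent.MU3B Pool.Agent.MU3C Pool.Agent.RI

namespace Fib

/-- restriction of an automorphism to a normal subfield -/
lemma restr {K E : Type*} [Field K] [Field E] [Algebra K E] {F F' : IntermediateField K E}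
    (hF : F ≤ F') [Normal K F] (σ : F' ≃ₐ[K] F') :
    ∃ σ' : F ≃ₐ[K] F, ∀ y : F, ((σ' y : F) : E) = ((σ (IntermediateField.inclusion hF y) : F') : E) := by
  let a1 : Algebra F F' := (IntermediateField.inclusion hF).toRingHom.toAlgebra
  have t1 : IsScalarTower K F F' := IsScalarTower.of_algebraMap_eq fun _ => rfl
  refine ⟨σ.restrictNormal F, fun y => ?_⟩
  have e := AlgEquiv.restrictNormal_commutes σ F y
  exact congrArg (Subtype.val : F' → E) e

variable {A B : ℤ} {L : PeriodPair} {Om : ℂ}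

lemma TF_mono (hc : Case A B) (hL : IsCM A B L Om) {m N : OO A B} (h : m ∣ N) :
    TF L m ≤ TF L N := by
  apply IntermediateField.adjoin.mono
  rintro c ⟨z, hz, hz', h1⟩
  refine ⟨z, ?_, hz', h1⟩
  obtain ⟨t, rfl⟩ := h
  rw [emb_mul hc, mul_comm (emb m), mul_assoc]
  exact hL.toIsLat.emb_mul_mem hc t hz

end Fib

open Fib in
theorem tw_FIB (hXXM : Sw_XXM) (hACT : Sa_ACT) (hS5 : Sa_S5) (hNEG : Sa_NEG) (hNRM : Sa_NRM) :
    Sw_FIB := by
  intro A B L Om hc hL m N hm hN hmz hmN D h hD τ x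
  rw [hXXM A B L Om hc hL N hN D h τ x, hXXM A B L Om hc hL m hm D h τ x]
  have hF : TF L m ≤ TF L N := TF_mono hc hL hmN
  obtain ⟨fm, gm⟩ := hNRM A B L Om hc hL m hm
  obtain ⟨fN, gN⟩ := hNRM A B L Om hc hL N hN
  obtain ⟨-, -, a3, -, -, -, -, a8⟩ := hACT A B L Om hc hL N hN
  obtain ⟨-, -, -, -, a5, -, -, -⟩ := hACT A B L Om hc hL m hm
  have hres : ∀ (σ : TF L N ≃ₐ[kk A B] TF L N) (σ' : TF L m ≃ₐ[kk A B] TF L m),
      (∀ y, ((σ' y : TF L m) : ℂ) = ((σ (IntermediateField.inclusion hF y) : TF L N) : ℂ)) →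
      ∀ b, Act L (em σ) N b → Act L (em σ') m b := by
    intro σ σ' h1 b hb
    have h2 : em σ' = (em σ).comp (IntermediateField.inclusion hF) := AlgHom.ext h1
    rw [h2]
    exact a3 _ _ _ _ hmN (a8 _ _ hF _ _ hb)
  constructor
  · rintro ⟨σ, hσ, hext⟩
    obtain ⟨σ', hσ'⟩ := restr hF σ
    refine ⟨hσ.1, σ', hres σ σ' hσ' x hσ, ?_⟩
    intro y hy
    rw [hσ']
    exact hext y (hF hy)
  · rintro ⟨hcop, τ', hτ', hext⟩
    obtain ⟨σ, hσ⟩ := hS5 A B L Om hc hL N hN (TF L N) le_rfl x hcop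
    obtain ⟨σ', hσ'⟩ := restr hF σ
    rcases hσ with hσ | hσ
    · have h1 := hres σ σ' hσ' x hσ
      have h2 : em σ' = em τ' := a5 _ _ _ h1 hτ'
      refine ⟨σ, hσ, ?_⟩
      intro y hy
      have hy' : (y : ℂ) ∈ TF L m := hD _ y.2
      have h3 : (em σ') ⟨y, hy'⟩ = (em τ') ⟨y, hy'⟩ := by rw [h2]
      have h4 := hext y hy'
      have h5 := hσ' ⟨y, hy'⟩
      exact (h5.symm.trans h3).trans h4
    · exfalso
      have h1 := hres σ σ' hσ' (-x) hσ
      obtain ⟨-, n2, -⟩ := hNEG A B L Om hc hL m hm hmz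
      exact (n2 (TF L m) le_rfl x hτ'.1).1 ⟨τ', hτ'⟩ ⟨σ', h1⟩

end Pool.Agent.MU3V
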