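import Pool.Agent.MU3.StV2
import Pool.Agent.MU3.A_FEX

/-!
# MU3, block V: a good prime of `D` gives an element of `XX .. 1`
-/

set_option autoImplicit false

open NumberField IsDedekindDomain
open scoped Pointwise

namespace Pool.Agent.MU3V

open _root_.MU3 Pool.Agent.MU3A Pool.Agent.MU3B Pool.Agent.MU3C Pool.Agent.RI

namespace W_FRD

lemma card_sub {R T : Type} [CommRing R] [CommRing T] (f : R →+* T) (hf : Function.Injective f)
    [Nontrivial R] (q : ℕ) (hq : q.Prime) (hc : Nat.card T = q) : Nat.card R = q := by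
  have h1 : Nat.card R ∣ Nat.card T := by
    have h2 := AddSubgroup.card_addSubgroup_dvd_card f.toAddMonoidHom.range
    have h3 : Nat.card f.toAddMonoidHom.range = Nat.card R :=
      (Nat.card_congr (Equiv.ofInjective f hf)).symm
    rwa [h3] at h2
  rw [hc] at h1
  rcases (Nat.dvd_prime hq).mp h1 with h2 | h2
  · exfalso
    have hfin : Finite T := Nat.finite_of_card_ne_zero (by rw [hc]; exact hq.ne_zero)
    have hfR : Finite R := Finite.of_injective f hf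
    have h3 := Finite.one_lt_card (α := R)
    omega
  · exact h2

lemma abs_frob (k D F : Type) [Field k] [NumberField k] [Field D] [NumberField D] [Field F]
    [NumberField F] [Algebra k D] [Algebra D F] [Algebra k F] [IsScalarTower k D F]
    [IsGalois k F] (v : HeightOneSpectrum (𝓞 D)) (q : ℕ) (hq : q.Prime)
    (hc : Nat.card (𝓞 D ⧸ v.asIdeal) = q) :
    Nat.card (𝓞 k ⧸ v.asIdeal.under (𝓞 k)) = q ∧ ∃ w : Ideal (𝓞 F), w.IsPrime ∧ w ≠ ⊥ ∧
      w.LiesOver v.asIdeal ∧ w.under (𝓞 k) = v.asIdeal.under (𝓞 k) ∧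
      ∃ σ : F ≃ₐ[k] F, ∀ x : 𝓞 F, ∃ y ∈ w, (y : F) = σ x - (x : F) ^ q := by
  have hvp : v.asIdeal.IsPrime := v.isPrime
  have hup : (v.asIdeal.under (𝓞 k)).IsPrime := inferInstance
  have hcard : Nat.card (𝓞 k ⧸ v.asIdeal.under (𝓞 k)) = q :=
    card_sub (algebraMap (𝓞 k ⧸ v.asIdeal.under (𝓞 k)) (𝓞 D ⧸ v.asIdeal))
      Ideal.algebraMap_quotient_injective q hq hc
  refine ⟨hcard, ?_⟩
  obtain ⟨⟨w, hw, hwv⟩⟩ := (inferInstance : Nonempty (Ideal.primesOver v.asIdeal (𝓞 F)))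
  have hwb : w ≠ ⊥ := Ideal.ne_bot_of_liesOver_of_ne_bot v.ne_bot w
  have hunder : w.under (𝓞 k) = v.asIdeal.under (𝓞 k) := by
    rw [hwv.over, Ideal.under_under]
  refine ⟨w, hw, hwb, hwv, hunder, ?_⟩
  exact FEX.exists_frob k F w hw hwb q (by rw [hunder]; exact hcard)

lemma abs_free (k D F : Type) [Field k] [NumberField k] [Field D] [NumberField D] [Field F]
    [NumberField F] [Algebra k D] [Algebra D F] [Algebra k F] [IsScalarTower k D F]
    (v : HeightOneSpectrum (𝓞 D)) (w : Ideal (𝓞 F)) (hwv : w.LiesOver v.asIdeal) (q : ℕ)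
    (hq : 0 < q) (σ : F ≃ₐ[k] F) (hσ : ∀ x : 𝓞 F, ∃ y ∈ w, (y : F) = σ x - (x : F) ^ q)
    (τ : D ≃ₐ[k] D) (hτ : ∀ y : D, σ (algebraMap D F y) = algebraMap D F (τ y)) :
    τ • v.asIdeal = v.asIdeal := by
  have hvp : v.asIdeal.IsPrime := v.isPrime
  have hmax : v.asIdeal.IsMaximal := v.isMaximal
  have h1 : ∀ x ∈ v.asIdeal, τ • x ∈ v.asIdeal := by
    intro x hx
    have hX : algebraMap (𝓞 D) (𝓞 F) x ∈ w := by
      have : x ∈ w.under (𝓞 D) := by rw [← hwv.over]; exact hx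
      exact this
    obtain ⟨y, hy, hyx⟩ := hσ (algebraMap (𝓞 D) (𝓞 F) x)
    have h2 : algebraMap (𝓞 D) (𝓞 F) (τ • x) = y + algebraMap (𝓞 D) (𝓞 F) x ^ q := by
      apply RingOfIntegers.coe_injective
      have h3 : algebraMap (𝓞 F) F (y + algebraMap (𝓞 D) (𝓞 F) x ^ q) =
          σ (algebraMap (𝓞 F) F (algebraMap (𝓞 D) (𝓞 F) x)) := by
        rw [map_add, map_pow]
        change (y : F) + _ = _
        rw [hyx]
        exact sub_add_cancel _ _
      rw [h3]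
      have h4 : algebraMap (𝓞 F) F (algebraMap (𝓞 D) (𝓞 F) x) = algebraMap D F (x : D) := rfl
      rw [h4, hτ]
      rfl
    have h5 : algebraMap (𝓞 D) (𝓞 F) (τ • x) ∈ w := by
      rw [h2]
      exact w.add_mem hy (Ideal.pow_mem_of_mem w hX q hq)
    have h6 : τ • x ∈ w.under (𝓞 D) := h5
    rwa [← hwv.over] at h6
  have h2 : v.asIdeal ≤ τ⁻¹ • v.asIdeal := by
    intro x hx
    rw [Ideal.mem_inv_pointwise_smul_iff]
    exact h1 x hx
  have h3 : τ⁻¹ • v.asIdeal ≠ ⊤ := by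
    intro h
    have h4 : (1 : 𝓞 D) ∈ τ⁻¹ • v.asIdeal := by rw [h]; trivial
    rw [Ideal.mem_inv_pointwise_smul_iff, smul_one] at h4
    exact hmax.ne_top ((Ideal.eq_top_iff_one _).mpr h4)
  have h4 := hmax.eq_of_le h3 h2
  rw [eq_inv_smul_iff] at h4
  exact h4

end W_FRD

open W_FRD in
theorem tw_FRD (h1 : Sw_PRL) (h2 : Sw_XXM) (h3 : Sw_XXG) (h4 : Sa_FROB) (h5 : Sa_NRM)
    (h6 : Sa_INT) : Sw_FRD := by
  intro A B L Om hAB hCM
  obtain ⟨n, hn, hF⟩ := h4 A B L Om hAB hCM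
  refine ⟨n, hn, ?_⟩
  intro m hm D _ h hsub
  letI := algC h
  intro S v q hgood hqn hqm
  obtain ⟨hfd, -, -, hint⟩ := h6 A B hAB
  have hk : NumberField (kk A B) := ⟨⟩
  obtain ⟨hTfd, hTgal⟩ := h5 A B L Om hAB hCM m hm
  have hTQ : FiniteDimensional ℚ (TF L m) := FiniteDimensional.trans ℚ (kk A B) (TF L m)
  have hTN : NumberField (TF L m) := ⟨⟩
  let ι : D →+* TF L m :=
    { toFun := fun x => ⟨x, hsub x x.2⟩
      map_one' := rfl
      map_mul' := fun _ _ => rfl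
      map_zero' := rfl
      map_add' := fun _ _ => rfl }
  letI : Algebra D (TF L m) := ι.toAlgebra
  haveI : IsScalarTower (kk A B) D (TF L m) := IsScalarTower.of_algebraMap_eq fun x => rfl
  obtain ⟨hcard, w, hw, hwb, hwv, hwk, σ, hσ⟩ :=
    abs_frob (kk A B) D (TF L m) v q hgood.prime hgood.card
  have hvp : v.asIdeal.IsPrime := v.isPrime
  have hup : (v.asIdeal.under (𝓞 (kk A B))).IsPrime := inferInstance
  obtain ⟨lam, hlam, hP⟩ := h1 A B hAB _ hup q hgood.prime hcard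
  refine ⟨lam, hlam, ?_, hP⟩
  -- `lam` is in `w`
  have hI : IsIntegral ℤ (ek lam) := by
    have h7 : IsIntegral ℤ (emb lam) := (hint (emb lam) (emb_mem lam)).mpr ⟨lam, rfl⟩
    have h8 : algebraMap (kk A B) ℂ (ek lam) = emb lam := rfl
    rw [← h8] at h7
    exact (isIntegral_algebraMap_iff (FaithfulSMul.algebraMap_injective (kk A B) ℂ)).mp h7
  have habv : Abv w lam := by
    have h7 : (⟨ek lam, hI⟩ : 𝓞 (kk A B)) ∈ v.asIdeal.under (𝓞 (kk A B)) :=
      (hP ⟨ek lam, hI⟩ lam rfl).mpr dvd_rfl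
    rw [← hwk] at h7
    exact ⟨algebraMap (𝓞 (kk A B)) (𝓞 (TF L m)) ⟨ek lam, hI⟩, h7, rfl⟩
  have hact := hF lam q hgood.prime hlam hqn m hm hqm (TF L m) le_rfl w hw habv σ hσ
  obtain ⟨g1, -, -, -⟩ := h3 A B L Om hAB hCM m hm D h hsub
  obtain ⟨τ, hτ⟩ := g1 σ
  have hτ1 : τ = 1 := by
    apply hgood.free
    refine abs_free (kk A B) D (TF L m) v w hwv q hgood.prime.pos σ hσ τ ?_
    intro y
    apply Subtype.ext
    exact hτ y (hsub y y.2)
  subst hτ1
  rcases hact with hact | hact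
  · left
    exact (h2 A B L Om hAB hCM m hm D h 1 lam).mpr ⟨σ, hact, hτ⟩
  · right
    exact (h2 A B L Om hAB hCM m hm D h 1 (-lam)).mpr ⟨σ, hact, hτ⟩

end Pool.Agent.MU3V
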