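import Pool.Agent.MU3.StV2

/-!
# MU3, block V, FROB: the Frobenius at a prime of degree one acts as `± lam`
-/

set_option autoImplicit false

open NumberField IsDedekindDomain

namespace Pool.Agent.MU3V

open _root_.MU3 Pool.Agent.MU3A Pool.Agent.MU3B Pool.Agent.MU3C

noncomputable section

namespace FROB

lemma mul_conj {A B : ℤ} (lam : OO A B) :
    lam * ⟨lam.re + B * lam.im, -lam.im⟩ = ((nm lam : ℤ) : OO A B) := by
  apply QuadraticAlgebra.ext
  · rw [QuadraticAlgebra.re_mul]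
    simp only [QuadraticAlgebra.re_intCast, nm, Int.cast_id]
    ring
  · rw [QuadraticAlgebra.im_mul]
    simp only [QuadraticAlgebra.im_intCast, nm]
    ring

/-- integers prime to the residue characteristic are units -/
lemma v_int_eq_one {V : ValuationSubring ℂ} {q : ℕ} (hq : q.Prime) (hv : V.valuation (q : ℂ) < 1)
    {s : ℤ} (hs : ¬ (q : ℤ) ∣ s) : V.valuation (s : ℂ) = 1 := by
  have h1 : V.valuation (s : ℂ) ≤ 1 := (ValuationSubring.valuation_le_one_iff _ _).2 (intCast_mem V s)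
  refine le_antisymm h1 ?_
  by_contra hc
  push Not at hc
  have h2 : IsCoprime (q : ℤ) s := (Int.isCoprime_iff_gcd_eq_one.2
    ((Nat.Prime.coprime_iff_not_dvd hq).2 (by
      intro h3
      exact hs (Int.natCast_dvd.2 h3))))
  obtain ⟨x, y, hxy⟩ := h2
  have h3 : (x : ℂ) * q + y * s = 1 := by exact_mod_cast congrArg (Int.cast : ℤ → ℂ) hxy
  have hx : V.valuation ((x : ℂ) * q) < 1 := by
    rw [map_mul, mul_comm]
    exact mul_lt_one_of_lt_of_le hv
      ((ValuationSubring.valuation_le_one_iff _ _).2 (intCast_mem V x))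
  have hy : V.valuation ((y : ℂ) * s) < 1 := by
    rw [map_mul, mul_comm]
    exact mul_lt_one_of_lt_of_le hc
      ((ValuationSubring.valuation_le_one_iff _ _).2 (intCast_mem V y))
  have h4 := Valuation.map_add_lt V.valuation hx hy
  rw [h3, map_one] at h4
  exact lt_irrefl _ h4

end FROB

open FROB in
/-- the Frobenius at a prime of degree one acts as `± lam` -/
theorem tw_FROB (hR5 : Sv_R5) (hEXT : Sv_EXT) (hLOC : Sw_LOC) (hTOR : Sw_TORV) (hG : Sa_GAL)
    (hA : Sa_ACT) (hXI : Sa_XI) (hPID : Sa_PID) (hINT : Sa_INT) : Sw_FROB := by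
  intro A B L Om h hL
  refine ⟨2310, by norm_num, ?_⟩
  intro lam q hq hnm hq2310 m hm hqm F _ _ hF w hwp hw σ hσ
  obtain ⟨hfd, -⟩ := hINT A B h
  have hk : NumberField (kk A B) := ⟨⟩
  have hFQ : FiniteDimensional ℚ F := FiniteDimensional.trans ℚ (kk A B) F
  have hFN : NumberField F := ⟨⟩
  obtain ⟨-, -, -, hnmul, hnm0, -, hunit, hunit', -⟩ := hPID A B h
  obtain ⟨ξ, hξ0, -, hξs⟩ := hXI A B L Om h hL
  have hξ : IsXi A B L ξ := ⟨hξs, fun z hz => (hξ0 z).2 hz⟩
  obtain ⟨a, ha⟩ := hG A B L Om h hL m hm F hF (em σ)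
  have hact := (hA A B L Om h hL m hm).2.1 F (em σ)
  -- `m` a unit
  by_cases hu : IsUnit m
  · exact Or.inl (hact a lam hu.dvd ha)
  have hlam0 : lam ≠ 0 := by
    rintro rfl
    have h1 := (hnm0 (0 : OO A B)).2 rfl
    rw [h1] at hnm
    exact hq.ne_zero (by exact_mod_cast hnm.symm)
  have hlam1 := emb_ne_zero h hlam0
  -- the prime `w`
  obtain ⟨y, hyw, hy⟩ := hw
  have hy0 : y ≠ 0 := by
    rintro rfl
    exact hlam1 (by rw [← hy]; simp)
  have hwb : w ≠ ⊥ := fun h1 => hy0 (by rw [h1] at hyw; simpa using hyw)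
  let v : HeightOneSpectrum (𝓞 F) := ⟨w, hwp, hwb⟩
  obtain ⟨V, hV⟩ := hEXT F (algebraMap F ℂ) v
  have hV' : ∀ x : F, ((x : ℂ) ∈ V ↔ v.valuation F x ≤ 1) ∧
      (V.valuation (x : ℂ) < 1 ↔ v.valuation F x < 1) := fun x => ⟨(hV x).1, (hV x).2.1⟩
  have hvlam : V.valuation (emb lam) < 1 := by
    rw [← hy]
    rw [(hV' _).2]
    exact (HeightOneSpectrum.valuation_lt_one_iff_mem v y).2 hyw
  have hvq : V.valuation (q : ℂ) < 1 := by
    have h1 := congrArg emb (mul_conj lam)
    rw [emb_mul h, emb_intCast h, hnm] at h1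
    have h2 : (((q : ℤ) : ℤ) : ℂ) = (q : ℂ) := by push_cast; rfl
    rw [h2] at h1
    rw [← h1, map_mul]
    exact mul_lt_one_of_lt_of_le hvlam (v_emb_le h V _)
  have hs : ∀ s : ℤ, ¬ (q : ℤ) ∣ s → V.valuation (s : ℂ) = 1 := fun s hs => v_int_eq_one hq hvq hs
  have hsn : ∀ s : ℕ, s ∣ 2310 → V.valuation (s : ℂ) = 1 := by
    intro s hs2
    have h1 := hs s (by
      intro h2
      exact hq2310 ((Int.natCast_dvd_natCast.1 h2).trans hs2))
    rwa [Int.cast_natCast] at h1
  have v2 : V.valuation (2 : ℂ) = 1 := by simpa using hsn 2 (by norm_num)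
  have v3 : V.valuation (3 : ℂ) = 1 := by simpa using hsn 3 (by norm_num)
  have v5 : V.valuation (5 : ℂ) = 1 := by simpa using hsn 5 (by norm_num)
  have v7 : V.valuation (7 : ℂ) = 1 := by simpa using hsn 7 (by norm_num)
  have v11 : V.valuation (11 : ℂ) = 1 := by simpa using hsn 11 (by norm_num)
  have vm : V.valuation ((nm m : ℤ) : ℂ) = 1 := hs _ hqm
  -- points
  have hm0 := emb_ne_zero h hm
  have hz : Om / emb m ∉ L.lattice := by
    intro h0
    apply hu
    rw [isUnit_iff_dvd_one, ← hL.toIsLat.mul_div_mem_iff h hm 1, emb_one h, one_mul]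
    exact h0
  have hlz : emb lam * (Om / emb m) ∉ L.lattice := by
    rw [hL.toIsLat.mul_div_mem_iff h hm]
    rintro ⟨c, hc⟩
    have h1 : nm lam = nm m * nm c := by rw [hc, hnmul]
    rw [hnm] at h1
    have h2 : nm m ∣ (q : ℤ) := ⟨nm c, h1⟩
    have h3 : (nm m).natAbs ∣ q := by
      have := Int.natAbs_dvd_natAbs.2 h2
      simpa using this
    rcases (Nat.dvd_prime hq).1 h3 with h4 | h4
    · apply hu
      rw [hunit' m]
      have h5 : 0 ≤ nm m := by
        by_contra h6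
        have := (hPID A B h).2.2.1 m
        exact h6 this
      omega
    · apply hqm
      rw [← h4]
      exact Int.natAbs_dvd.2 dvd_rfl
  have hmz : emb m * (Om / emb m) ∈ L.lattice := by
    rw [mul_div_cancel₀ _ hm0, hL.mem]
    exact ⟨1, by rw [emb_one h, mul_one]⟩
  have hmx : ∀ x : OO A B, emb m * (emb x * (Om / emb m)) ∈ L.lattice := by
    intro x
    rw [mul_left_comm]
    exact hL.toIsLat.emb_mul_mem h x hmz
  have htor := hTOR A B L Om ξ h hL hξ V v2 m vm
  obtain ⟨haz, hx, -⟩ := ha.2 _ hmz hz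
  have hz1 : ¬ InE1 A B V L (Om / emb m) := fun h0 => hz (htor _ hmz h0)
  have hz2 : ¬ InE1 A B V L (emb a * (Om / emb m)) := fun h0 => haz (htor _ (hmx a) h0)
  have hz3 : ¬ InE1 A B V L (emb lam * (Om / emb m)) := fun h0 => hlz (htor _ (hmx lam) h0)
  have hxF : xx A B L (Om / emb m) ∈ F :=
    hF (IntermediateField.subset_adjoin _ _ ⟨_, hmz, hz, Or.inl rfl⟩)
  have hx1 : V.valuation (xx A B L (emb a * (Om / emb m)) - xx A B L (Om / emb m) ^ q) < 1 := by
    have h3 := hLOC A B F v V hV' σ q hq.pos hσ ⟨_, hxF⟩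
      ((ValuationSubring.valuation_le_one_iff _ _).1 (int_x hz1).2)
    have h4 := hx hxF
    change ((σ ⟨_, hxF⟩ : F) : ℂ) = _ at h4
    rwa [h4] at h3
  have hx2 := (hR5 A B L Om ξ h hL hξ V v2 v3 v5 v7 v11 lam q hq hnm hvlam _ hz1).2
  have hx3 : V.valuation (xx A B L (emb a * (Om / emb m)) - xx A B L (emb lam * (Om / emb m))) < 1 := by
    have h3 := Valuation.map_sub_lt V.valuation hx1 hx2
    rwa [sub_sub_sub_cancel_right] at h3
  have h4 : InE1 A B V L (emb a * (Om / emb m) + emb lam * (Om / emb m)) ∨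
      InE1 A B V L (emb a * (Om / emb m) - emb lam * (Om / emb m)) := by
    by_contra hcon
    push Not at hcon
    have h5 := v_xx_sub h v2 hξ hz2 hz3 hcon.1 hcon.2
    rw [h5] at hx3
    exact lt_irrefl _ hx3
  rcases h4 with h4 | h4
  · right
    refine hact a (-lam) ?_ ha
    rw [sub_neg_eq_add, ← hL.toIsLat.mul_div_mem_iff h hm, emb_add h, add_mul]
    refine htor _ ?_ h4
    rw [mul_add]
    exact add_mem (hmx a) (hmx lam)
  · left
    refine hact a lam ?_ ha
    rw [← hL.toIsLat.mul_div_mem_iff h hm, emb_sub h, sub_mul]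
    refine htor _ ?_ h4
    rw [mul_sub]
    exact sub_mem (hmx a) (hmx lam)

end

end Pool.Agent.MU3V
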