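import Pool.Agent.MU3.StV2

/-!
# MU3, block V, HTOT: total ramification of `F_(m lam) / F_m` at the primes above `lam`
-/

set_option autoImplicit false

open NumberField IsDedekindDomain

namespace Pool.Agent.MU3V

open _root_.MU3 Pool.Agent.MU3A Pool.Agent.MU3B Pool.Agent.MU3C

namespace HTOT

/-- a lower bound for the number of elements of the inertia group -/
lemma inertia_card (k F : Type) [Field k] [NumberField k] [Field F] [NumberField F] [Algebra k F]
    [IsGalois k F] (w : HeightOneSpectrum (𝓞 F)) (l : 𝓞 k)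
    (hl : w.asIdeal.under (𝓞 k) = Ideal.span {l}) (hl0 : l ≠ 0) (t : F) (n : ℕ)
    (ht : w.valuation F t ^ n = w.valuation F (algebraMap k F (l : k))) :
    n ≤ Nat.card (w.asIdeal.inertia Gal(F/k)) := by
  have hwp : w.asIdeal.IsPrime := w.isPrime
  have hpp : (w.asIdeal.under (𝓞 k)).IsPrime := inferInstance
  have hpb : w.asIdeal.under (𝓞 k) ≠ ⊥ := by
    rw [hl]
    simpa using hl0
  let v : HeightOneSpectrum (𝓞 k) := ⟨w.asIdeal.under (𝓞 k), hpp, hpb⟩
  have hlo : w.asIdeal.LiesOver v.asIdeal := ⟨rfl⟩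
  have hfin : Finite (𝓞 k ⧸ v.asIdeal) := Ideal.finiteQuotientOfFreeOfNeBot _ hpb
  have hmax : v.asIdeal.IsMaximal := v.isMaximal
  have hfr : Finite v.asIdeal.ResidueField := inferInstance
  have hperf : PerfectField v.asIdeal.ResidueField := inferInstance
  have h1 : Nat.card (w.asIdeal.inertia Gal(F/k)) = v.asIdeal.ramificationIdx' w.asIdeal := by
    rw [Ideal.card_inertia_eq_ramificationIdxIn (R := 𝓞 k) v.asIdeal w.asIdeal,
      Ideal.ramificationIdxIn_eq_ramificationIdx v.asIdeal w.asIdeal Gal(F/k),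
      Ideal.ramificationIdx'_eq_ramificationIdx v.asIdeal w.asIdeal hpb]
  have h2 : v.valuation k (l : k) = WithZero.exp (-1 : ℤ) := by
    rw [HeightOneSpectrum.valuation_of_algebraMap]
    exact HeightOneSpectrum.intValuation_singleton v hl0 hl
  have h3 := HeightOneSpectrum.valuation_liesOver F v w (l : k)
  rw [h2, ← ht] at h3
  rw [h1]
  set e := v.asIdeal.ramificationIdx' w.asIdeal with he
  have hpos : 0 < e := Nat.pos_of_ne_zero
    (Ideal.IsDedekindDomain.ramificationIdx'_ne_zero_of_liesOver w.asIdeal v.ne_bot)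
  by_cases hn : n = 0
  · omega
  have ht0 : w.valuation F t ≠ 0 := by
    intro h0
    rw [h0, zero_pow hn] at h3
    exact (pow_ne_zero e (WithZero.exp_ne_zero (a := (-1 : ℤ)))) h3
  obtain ⟨j, hj⟩ : ∃ j : ℤ, w.valuation F t = WithZero.exp j :=
    ⟨WithZero.log (w.valuation F t), (WithZero.exp_log ht0).symm⟩
  rw [hj, ← WithZero.exp_nsmul, ← WithZero.exp_nsmul, WithZero.exp_inj, nsmul_eq_mul,
    nsmul_eq_mul] at h3
  have h4 : (e : ℤ) = n * (-j) := by linarith
  have h5 : 0 < -j := by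
    by_contra h6
    push Not at h6
    have : (n : ℤ) * (-j) ≤ 0 := mul_nonpos_of_nonneg_of_nonpos (by positivity) h6
    omega
  have h6 : (n : ℤ) ≤ e := by
    rw [h4]
    nlinarith [(by positivity : (0 : ℤ) ≤ n)]
  exact_mod_cast h6

/-- `w` lies above the prime `lam` of `k` -/
lemma under_eq {A B : ℤ} (h : Case A B) [NumberField (kk A B)]
    (hint : ∀ x : ℂ, x ∈ kk A B → (IsIntegral ℤ x ↔ ∃ y : OO A B, x = emb y))
    [IsDomain (OO A B)] [IsPrincipalIdealRing (OO A B)]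
    (F : IntermediateField (kk A B) ℂ) [NumberField F] (w : Ideal (𝓞 F)) (hwp : w.IsPrime)
    (lam : OO A B) (hlam : Prime lam) (l : 𝓞 (kk A B)) (hl : ((l : kk A B) : ℂ) = emb lam)
    (y : 𝓞 F) (hyw : y ∈ w) (hy : ((y : F) : ℂ) = emb lam) :
    w.under (𝓞 (kk A B)) = Ideal.span {l} := by
  have hI : ∀ x : OO A B, IsIntegral ℤ (ek x) := by
    intro x
    have h2 : IsIntegral ℤ (emb x) := (hint (emb x) (emb_mem x)).mpr ⟨x, rfl⟩
    have h3 : algebraMap (kk A B) ℂ (ek x) = emb x := rfl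
    rw [← h3] at h2
    exact (isIntegral_algebraMap_iff (FaithfulSMul.algebraMap_injective (kk A B) ℂ)).mp h2
  have hoi : ∀ c : OO A B, ∃ z : 𝓞 (kk A B), ((z : kk A B) : ℂ) = emb c :=
    fun c => ⟨⟨ek c, hI c⟩, rfl⟩
  have hly : algebraMap (𝓞 (kk A B)) (𝓞 F) l = y := by
    apply RingOfIntegers.ext
    apply Subtype.ext
    rw [hy]
    exact hl
  have hlmem : l ∈ w.under (𝓞 (kk A B)) := by
    rw [Ideal.mem_under, hly]
    exact hyw
  apply le_antisymm
  · intro z hz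
    have h2 : IsIntegral ℤ ((z : kk A B) : ℂ) :=
      (RingOfIntegers.isIntegral_coe z).map (Algebra.ofId (kk A B) ℂ |>.restrictScalars ℤ)
    obtain ⟨b, hb⟩ := (hint _ (z : kk A B).2).mp h2
    rw [Ideal.mem_span_singleton]
    by_cases hdvd : lam ∣ b
    · obtain ⟨c, rfl⟩ := hdvd
      obtain ⟨c', hc'⟩ := hoi c
      refine ⟨c', ?_⟩
      apply RingOfIntegers.ext
      apply Subtype.ext
      rw [hb, emb_mul h, ← hl, ← hc']
      rfl
    · exfalso
      obtain ⟨u, u', huu⟩ := (hlam.irreducible.coprime_iff_not_dvd).2 hdvd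
      have hp2 : (w.under (𝓞 (kk A B))).IsPrime := inferInstance
      apply hp2.ne_top
      rw [Ideal.eq_top_iff_one]
      obtain ⟨v, hv⟩ := hoi u
      obtain ⟨v', hv'⟩ := hoi u'
      have h3 : (1 : 𝓞 (kk A B)) = v * l + v' * z := by
        apply RingOfIntegers.ext
        apply Subtype.ext
        have h4 := congrArg emb huu
        rw [emb_add h, emb_mul h, emb_mul h, emb_one h, ← hl, ← hb, ← hv, ← hv'] at h4
        exact h4.symm
      rw [h3]
      exact add_mem (Ideal.mul_mem_left _ _ hlmem) (Ideal.mul_mem_left _ _ hz)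
  · rw [Ideal.span_singleton_le_iff_mem]
    exact hlmem

/-- the statement for a field `F` in which automorphisms are determined by their action -/
lemma core (hEXT : Sv_EXT) (hTRA : Sv_TRA) (hINV : Sw_INV) (hTOR : Sw_TORV) (hLOC : Sw_LOC)
    (hXI : Sa_XI) (hA : Sa_ACT) (hG : Sa_GAL) (hINT : Sa_INT) (hPID : Sa_PID) (hDEG : Sv_DEG1)
    (A B : ℤ) (L : PeriodPair) (Om : ℂ) (h : Case A B) (hL : IsCM A B L Om) (m : OO A B)
    (hm : m ≠ 0) (lam : OO A B) (q : ℕ) (hq : q.Prime) (hnm : nm lam = q)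
    (F : IntermediateField (kk A B) ℂ) [FiniteDimensional (kk A B) F] [IsGalois (kk A B) F]
    (hF : TF L (m * lam) ≤ F)
    (hext : ∀ (σ τ : F →ₐ[kk A B] ℂ) (a : OO A B), Act L σ (m * lam) a → Act L τ (m * lam) a → σ = τ)
    (w : Ideal (𝓞 F)) (hwp : w.IsPrime) (hw : Abv w lam) (h2w : (2 : 𝓞 F) ∉ w)
    (hmw : ((nm m : ℤ) : 𝓞 F) ∉ w) (σ : F ≃ₐ[kk A B] F) (hσ : Act L (em σ) m 1) (x : 𝓞 F) :
    ∃ y ∈ w, (y : F) = σ x - x := by
  obtain ⟨hfd, -, -, hint⟩ := hINT A B h
  have hk : NumberField (kk A B) := ⟨⟩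
  have hFQ : FiniteDimensional ℚ F := FiniteDimensional.trans ℚ (kk A B) F
  have hFN : NumberField F := ⟨⟩
  obtain ⟨hdom, hpir, hnn, hnmul, hnm0, -, hunit, hunit', -, hprime⟩ := hPID A B h
  obtain ⟨ξ, hξ0, -, hξs⟩ := hXI A B L Om h hL
  have hξ : IsXi A B L ξ := ⟨hξs, fun z hz => (hξ0 z).2 hz⟩
  obtain ⟨hdeg1, hdeg2, -⟩ := hDEG A B h lam q hq hnm
  have hlp : Prime lam := hprime lam (by rw [hnm]; simpa using hq)
  have hlam0 : lam ≠ 0 := hlp.ne_zero
  have hml : m * lam ≠ 0 := mul_ne_zero hm hlam0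
  have hlam1 := emb_ne_zero h hlam0
  have hm1 := emb_ne_zero h hm
  -- the prime `w`
  obtain ⟨y0, hyw, hy⟩ := hw
  have hy0 : y0 ≠ 0 := by
    rintro rfl
    exact hlam1 (by rw [← hy]; simp)
  have hwb : w ≠ ⊥ := fun h1 => hy0 (by rw [h1] at hyw; simpa using hyw)
  let v : HeightOneSpectrum (𝓞 F) := ⟨w, hwp, hwb⟩
  obtain ⟨V, hV⟩ := hEXT F (algebraMap F ℂ) v
  have hV' : ∀ x : F, ((x : ℂ) ∈ V ↔ v.valuation F x ≤ 1) ∧
      (V.valuation (x : ℂ) < 1 ↔ v.valuation F x < 1) := fun x => ⟨(hV x).1, (hV x).2.1⟩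
  have hV1 : ∀ x : F, V.valuation (x : ℂ) = 1 ↔ v.valuation F x = 1 := fun x => (hV x).2.2
  have hvlam : V.valuation (emb lam) < 1 := by
    rw [← hy]
    rw [(hV' _).2]
    exact (HeightOneSpectrum.valuation_lt_one_iff_mem v y0).2 hyw
  have v2 : V.valuation (2 : ℂ) = 1 := by
    have h1 : v.valuation F ((2 : 𝓞 F) : F) = 1 := v.valuation_eq_one_iff_notMem.mpr h2w
    rw [← hV1] at h1
    exact h1
  have vm : V.valuation ((nm m : ℤ) : ℂ) = 1 := by
    have h1 : v.valuation F (((nm m : ℤ) : 𝓞 F) : F) = 1 := v.valuation_eq_one_iff_notMem.mpr hmw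
    rw [← hV1] at h1
    have h2 : (((((nm m : ℤ) : 𝓞 F) : F)) : ℂ) = ((nm m : ℤ) : ℂ) := by simp
    rwa [h2] at h1
  -- the element `lam` of `𝓞 k`
  obtain ⟨l, hl⟩ : ∃ l : 𝓞 (kk A B), ((l : kk A B) : ℂ) = emb lam := by
    have h2 : IsIntegral ℤ (emb lam) := (hint (emb lam) (emb_mem lam)).mpr ⟨lam, rfl⟩
    have h3 : algebraMap (kk A B) ℂ (ek lam) = emb lam := rfl
    rw [← h3] at h2
    exact ⟨⟨ek lam, (isIntegral_algebraMap_iff
      (FaithfulSMul.algebraMap_injective (kk A B) ℂ)).mp h2⟩, rfl⟩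
  have hl0 : l ≠ 0 := by
    rintro rfl
    exact hlam1 (by rw [← hl]; simp)
  have hund := under_eq h hint F w hwp lam hlp l hl y0 hyw hy
  -- the point `u`
  have hu : Om / emb lam ∉ L.lattice := by
    intro h0
    apply hlp.not_isUnit
    rw [isUnit_iff_dvd_one, ← hL.toIsLat.mul_div_mem_iff h hlam0 1, emb_one h, one_mul]
    exact h0
  have hOm : Om ∈ L.lattice := by
    rw [hL.mem]
    exact ⟨1, by rw [emb_one h, mul_one]⟩
  have hlu : emb lam * (Om / emb lam) ∈ L.lattice := by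
    rw [mul_div_cancel₀ _ hlam1]
    exact hOm
  have hmlu : emb (m * lam) * (Om / emb lam) ∈ L.lattice := by
    rw [emb_mul h, mul_assoc]
    exact hL.toIsLat.emb_mul_mem h m hlu
  have hxF : xx A B L (Om / emb lam) ∈ F :=
    hF (IntermediateField.subset_adjoin _ _ ⟨_, hmlu, hu, Or.inl rfl⟩)
  have hyF : yy L (Om / emb lam) ∈ F :=
    hF (IntermediateField.subset_adjoin _ _ ⟨_, hmlu, hu, Or.inr rfl⟩)
  have htF : tz A B L (Om / emb lam) ∈ F := neg_mem (div_mem hxF hyF)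
  have htra := hTRA A B L Om ξ h hL hξ V v2 lam q hq hnm hvlam _ hlu hu
  have hvt : v.valuation F (⟨_, htF⟩ : F) ^ (q - 1) =
      v.valuation F (algebraMap (kk A B) F (l : kk A B)) := by
    set t : F := ⟨_, htF⟩ with ht
    have e1 : ((algebraMap (kk A B) F (l : kk A B) : F) : ℂ) = emb lam := hl
    have hne : algebraMap (kk A B) F (l : kk A B) ≠ 0 := by
      intro h0
      apply hlam1
      rw [← e1, h0]
      simp
    have h1 : V.valuation (((t ^ (q - 1) / algebraMap (kk A B) F (l : kk A B) : F)) : ℂ) = 1 := by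
      have e2 : (((t ^ (q - 1) / algebraMap (kk A B) F (l : kk A B) : F)) : ℂ) =
          tz A B L (Om / emb lam) ^ (q - 1) / emb lam := by
        rw [IntermediateField.coe_div, IntermediateField.coe_pow, e1]
      rw [e2, map_div₀, map_pow, htra, div_self]
      exact (Valuation.ne_zero_iff _).2 hlam1
    rw [hV1, map_div₀, map_pow] at h1
    have h3 : v.valuation F (algebraMap (kk A B) F (l : kk A B)) ≠ 0 :=
      (Valuation.ne_zero_iff _).2 hne
    rwa [div_eq_one_iff_eq h3] at h1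
  have hcard := inertia_card (kk A B) F v l hund hl0 _ (q - 1) hvt
  -- the inertia group acts trivially on `E[m]`
  have hmF : TF L m ≤ F := by
    refine le_trans ?_ hF
    apply IntermediateField.adjoin.mono
    rintro c ⟨z, hz1, hz2, hz3⟩
    refine ⟨z, ?_, hz2, hz3⟩
    rw [mul_comm m lam, emb_mul h, mul_assoc]
    exact hL.toIsLat.emb_mul_mem h lam hz1
  have htor := hTOR A B L Om ξ h hL hξ V v2 m vm
  have hin : ∀ τ : F ≃ₐ[kk A B] F, τ ∈ v.asIdeal.inertia Gal(F/(kk A B)) → Act L (em τ) m 1 := by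
    intro τ hτ
    refine hINV A B L Om ξ h hL hξ V v2 m hm (fun z hz hz' => htor z hz hz') F hmF τ ?_
    intro z hz
    have h1 := hLOC A B F v V hV' τ 1 one_pos (fun z => by
      refine ⟨τ • z - z, hτ z, ?_⟩
      rw [pow_one]
      rfl) z hz
    rw [pow_one] at h1
    exact (ValuationSubring.mem_nonunits_iff _).2 h1
  -- counting
  have hfing : Finite (F ≃ₐ[kk A B] F) := inferInstance
  choose a ha using fun τ : F ≃ₐ[kk A B] F => hG A B L Om h hL (m * lam) hml F hF (em τ)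
  choose n hn using hdeg1
  have hqp : Fact q.Prime := ⟨hq⟩
  have hcop : IsCoprime m lam := by
    refine IsCoprime.symm ((hlp.irreducible.coprime_iff_not_dvd).2 ?_)
    rintro ⟨c, hc⟩
    apply hmw
    have h1 : nm m = q * nm c := by rw [hc, hnmul, hnm]
    have h2 : ((nm m : ℤ) : 𝓞 F) = (q : 𝓞 F) * ((nm c : ℤ) : 𝓞 F) := by
      rw [h1]; push_cast; rfl
    rw [h2]
    apply Ideal.mul_mem_right
    obtain ⟨d, hd⟩ := hdeg2
    have hd2 : IsIntegral ℤ (ek d) := by
      have h2 : IsIntegral ℤ (emb d) := (hint (emb d) (emb_mem d)).mpr ⟨d, rfl⟩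
      have h3 : algebraMap (kk A B) ℂ (ek d) = emb d := rfl
      rw [← h3] at h2
      exact (isIntegral_algebraMap_iff (FaithfulSMul.algebraMap_injective (kk A B) ℂ)).mp h2
    obtain ⟨d', hd'⟩ : ∃ d' : 𝓞 (kk A B), ((d' : kk A B) : ℂ) = emb d := ⟨⟨ek d, hd2⟩, rfl⟩
    have h4 : (q : 𝓞 F) = y0 * algebraMap (𝓞 (kk A B)) (𝓞 F) d' := by
      apply RingOfIntegers.ext
      apply Subtype.ext
      have h5 := congrArg emb hd
      rw [emb_natCast h, emb_mul h, ← hy, ← hd'] at h5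
      exact h5
    rw [h4]
    exact Ideal.mul_mem_right _ _ hyw
  obtain ⟨hA1, hA2, hA3, -, -, -, -, -⟩ := hA A B L Om h hL (m * lam) hml
  obtain ⟨hB1, -, -, -, -, -, -, -⟩ := hA A B L Om h hL m hm
  let f : (F ≃ₐ[kk A B] F) → ZMod q := fun τ => ((n (a τ) : ℤ) : ZMod q)
  have hle : Set.ncard {τ : F ≃ₐ[kk A B] F | Act L (em τ) m 1} ≤ q - 1 := by
    have h1 : Set.ncard {τ : F ≃ₐ[kk A B] F | Act L (em τ) m 1} ≤ Set.ncard ({0}ᶜ : Set (ZMod q)) := by
      refine Set.ncard_le_ncard_of_injOn f ?_ ?_ (Set.toFinite _)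
      · intro τ _
        simp only [Set.mem_compl_iff, Set.mem_singleton_iff]
        intro h0
        have h2 : (q : ℤ) ∣ n (a τ) := (ZMod.intCast_zmod_eq_zero_iff_dvd _ _).1 h0
        have h3 : lam ∣ ((n (a τ) : ℤ) : OO A B) := by
          obtain ⟨d, hd⟩ := h2
          rw [hd]
          push_cast
          exact Dvd.dvd.mul_right hdeg2 _
        have h4 : lam ∣ a τ := by
          have := dvd_add (hn (a τ)) h3
          rwa [sub_add_cancel] at this
        have h5 : IsCoprime (a τ) (m * lam) := (ha τ).1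
        have h6 : IsCoprime (a τ) lam := h5.of_mul_right_right
        exact hlp.not_isUnit (h6.isUnit_of_dvd' h4 dvd_rfl)
      · intro τ hτ τ' hτ' hf
        have h2 : (q : ℤ) ∣ n (a τ) - n (a τ') := by
          rw [← ZMod.intCast_zmod_eq_zero_iff_dvd]
          push_cast
          exact sub_eq_zero.2 hf
        have h3 : lam ∣ ((n (a τ) - n (a τ') : ℤ) : OO A B) := by
          obtain ⟨d, hd⟩ := h2
          rw [hd]
          push_cast
          exact Dvd.dvd.mul_right hdeg2 _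
        have h4 : lam ∣ a τ - a τ' := by
          have := dvd_add (dvd_sub (hn (a τ)) (hn (a τ'))) h3
          push_cast at this
          have e : a τ - (n (a τ) : OO A B) - (a τ' - (n (a τ') : OO A B)) +
            ((n (a τ) : OO A B) - (n (a τ') : OO A B)) = a τ - a τ' := by ring
          rwa [e] at this
        have h5 : ∀ ρ : F ≃ₐ[kk A B] F, Act L (em ρ) m 1 → m ∣ a ρ - 1 := by
          intro ρ hρ
          exact hB1 F (em ρ) (a ρ) 1 hmF (hA3 F (em ρ) (a ρ) m (dvd_mul_right _ _) (ha ρ)) hρ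
        have h6 : m ∣ a τ - a τ' := by
          have := dvd_sub (h5 τ hτ) (h5 τ' hτ')
          rwa [sub_sub_sub_cancel_right] at this
        have h7 : m * lam ∣ a τ - a τ' := hcop.mul_dvd h6 h4
        have h8 : Act L (em τ) (m * lam) (a τ') := hA2 F (em τ) (a τ) (a τ') h7 (ha τ)
        have h9 : em τ = em τ' := hext _ _ _ h8 (ha τ')
        apply AlgEquiv.ext
        intro z
        apply Subtype.ext
        exact DFunLike.congr_fun h9 z
    refine h1.trans (le_of_eq ?_)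
    rw [Set.ncard_compl, Set.ncard_singleton, Nat.card_zmod]
  have hsub : (v.asIdeal.inertia Gal(F/(kk A B)) : Set (F ≃ₐ[kk A B] F)) ⊆
      {τ : F ≃ₐ[kk A B] F | Act L (em τ) m 1} := fun τ hτ => hin τ hτ
  have heq := Set.eq_of_subset_of_ncard_le hsub (by
    refine hle.trans (hcard.trans (le_of_eq ?_))
    rfl) (Set.toFinite _)
  have hσi : σ ∈ (v.asIdeal.inertia Gal(F/(kk A B)) : Set (F ≃ₐ[kk A B] F)) := by
    rw [heq]
    exact hσ
  exact ⟨σ • x - x, hσi x, rfl⟩

end HTOT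

/-- total ramification of `F_(m lam) / F_m` at the primes above `lam` -/
theorem tw_HTOT (hEXT : Sv_EXT) (hTRA : Sv_TRA) (hINV : Sw_INV) (hTOR : Sw_TORV) (hLOC : Sw_LOC)
    (hXI : Sa_XI) (hA : Sa_ACT) (hG : Sa_GAL) (hNRM : Sa_NRM) (hINT : Sa_INT) (hPID : Sa_PID)
    (hDEG : Sv_DEG1) : Sw_HTOT := by
  intro A B L Om h hL m hm lam q hq hnm w hwp hw h2w hmw σ hσ x
  obtain ⟨hdom, -, -, -, -, -, -, -, -, hprime⟩ := hPID A B h
  have hlp : Prime lam := hprime lam (by rw [hnm]; simpa using hq)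
  have hml : m * lam ≠ 0 := mul_ne_zero hm hlp.ne_zero
  obtain ⟨hF1, hF2⟩ := hNRM A B L Om h hL (m * lam) hml
  obtain ⟨-, -, -, -, hA5, -, -, -⟩ := hA A B L Om h hL (m * lam) hml
  exact HTOT.core hEXT hTRA hINV hTOR hLOC hXI hA hG hINT hPID hDEG A B L Om h hL m hm lam q hq hnm
    (TF L (m * lam)) le_rfl hA5 w hwp hw h2w hmw σ hσ x

end Pool.Agent.MU3V
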