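import Pool.Agent.MU3.StV2

/-!
# MU3, block V: the norm relation (I1) (helper80)

`cc L Om (3 m) H h' 1 * cc .. σ * cc .. (σ σ) = C * cc L Om m H h 1`, `C ∈ k`.
-/

set_option autoImplicit false

open WeierstrassCurve Polynomial NumberField IsDedekindDomain

namespace Pool.Agent.MU3V

open _root_.MU3 Pool.Agent.MU3A Pool.Agent.MU3B Pool.Agent.MU3C Pool.Agent.RI

noncomputable section

namespace WI1

variable {A B : ℤ}

lemma cls_eq {m x y : OO A B} : cls m x = cls m y ↔ m ∣ x - y := by
  unfold cls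
  rw [Ideal.Quotient.eq, Ideal.mem_span_singleton]

lemma cls_out {m : OO A B} (x : OO A B ⧸ Ideal.span {m}) : cls m (Quotient.out x) = x := by
  unfold cls
  exact Ideal.Quotient.mk_out x

lemma dvd_out {m : OO A B} (x : OO A B) : m ∣ x - Quotient.out (cls m x) :=
  cls_eq.1 (cls_out (cls m x)).symm

lemma isDomain (h : Case A B) : IsDomain (OO A B) := by
  have hinj : Function.Injective (embHom (A := A) (B := B) h) := by
    intro x y hxy
    rw [embHom_apply, embHom_apply] at hxy
    exact emb_inj h hxy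
  exact hinj.isDomain _

lemma finite_quot (h : Case A B) {m : OO A B} (hm : m ≠ 0) :
    Finite (OO A B ⧸ Ideal.span {m}) := by
  have := isDomain h
  refine Ideal.finiteQuotientOfFreeOfNeBot _ ?_
  rw [Ne, Ideal.span_singleton_eq_bot]
  exact hm

lemma three_ne (h : Case A B) : (3 : OO A B) ≠ 0 := by
  intro h0
  have h1 := congrArg emb h0
  have h2 : emb (3 : OO A B) = 3 := by
    have := emb_natCast h 3
    simpa using this
  rw [h2, emb_zero h] at h1
  norm_num at h1

lemma emb_three (h : Case A B) : emb (3 : OO A B) = 3 := by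
  have := emb_natCast h 3
  simpa using this

lemma three_not_unit : ¬ IsUnit (3 : OO A B) := by
  intro h0
  obtain ⟨u, hu⟩ := h0.exists_right_inv
  have h1 : (3 : ℕ) • u = (1 : OO A B) := by
    rw [nsmul_eq_mul]
    exact_mod_cast hu
  have h2 := congrArg QuadraticAlgebra.re h1
  simp only [QuadraticAlgebra.re_smul, QuadraticAlgebra.re_one] at h2
  have h3 : (3 : ℤ) * u.re = 1 := by simpa using h2
  omega

/-- periodicity: `Θ(x Om/m)` depends only on the class of `x` -/
lemma theta_cls (hTIN : St_TIN) {L : PeriodPair} {Om : ℂ} (hL : IsLat A B L Om) (hC : Case A B)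
    {m : OO A B} (hm : m ≠ 0) {a : ℂ} {H : Finset ℂ} (hH : IsHalf L a H) {x y : OO A B}
    (hxy : cls m x = cls m y) :
    ThetaH L H (emb x * (Om / emb m)) = ThetaH L H (emb y * (Om / emb m)) := by
  have h1 : m ∣ x - y := cls_eq.1 hxy
  have h2 := (hL.mul_div_mem_iff hC hm (x - y)).2 h1
  have h3 := (hTIN L a H H hH hH).2.2 (emb y * (Om / emb m)) _ h2
  rw [← h3]
  congr 1
  rw [emb_sub hC]
  ring

/-- the product over the full inverse image in `O / 3m` of a set of classes of `O / m` -/
lemma prod_fibre (hTIN : St_TIN) (hDISI : Sw_DISI) {L : PeriodPair} {Om : ℂ}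
    (hL : IsCM A B L Om) (hC : Case A B) {m : OO A B} (hm : m ≠ 0) (h3 : 3 ∣ m) {a : ℤ}
    {H : Finset ℂ} (ha : a ≠ 0) (ham : IsCoprime (a : OO A B) m) (hH : IsHalf L a H)
    (Y : Set (OO A B ⧸ Ideal.span {m})) (hY : ∀ x : OO A B, cls m x ∈ Y → IsCoprime x m)
    (X : Set (OO A B ⧸ Ideal.span {3 * m}))
    (hX : ∀ x : OO A B, cls (3 * m) x ∈ X ↔ cls m x ∈ Y) :
    ∃ C ∈ kk A B, C ≠ 0 ∧
      ∏ᶠ x ∈ X, ThetaH L H (emb (Quotient.out x) * (Om / emb (3 * m))) =
        C * ∏ᶠ x ∈ Y, ThetaH L H (emb (Quotient.out x) * (Om / emb m)) := by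
  classical
  have hdom := isDomain hC
  have h30 := three_ne hC
  have hm' : (3 : OO A B) * m ≠ 0 := mul_ne_zero h30 hm
  have hfin := finite_quot hC hm
  have hfin' := finite_quot hC hm'
  have hfin3 := finite_quot hC h30
  obtain ⟨C, hCk, hC0, hCp⟩ := hDISI A B L Om hC hL 3 h30 a H ha
    (IsCoprime.of_isCoprime_of_dvd_right ham h3) hH
  letI := Fintype.ofFinite (OO A B ⧸ Ideal.span {m})
  letI := Fintype.ofFinite (OO A B ⧸ Ideal.span {3 * m})
  letI := Fintype.ofFinite (OO A B ⧸ Ideal.span {(3 : OO A B)})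
  have hYf : Y.Finite := Set.toFinite Y
  have hXf : X.Finite := Set.toFinite X
  rw [finprod_mem_eq_finite_toFinset_prod _ hXf, finprod_mem_eq_finite_toFinset_prod _ hYf]
  refine ⟨C ^ hYf.toFinset.card, pow_mem hCk _, pow_ne_zero _ hC0, ?_⟩
  have hE0 := emb_ne_zero hC hm
  have hE3 := emb_three (A := A) (B := B) hC
  -- the bijection
  have key : ∏ x ∈ hXf.toFinset, ThetaH L H (emb (Quotient.out x) * (Om / emb (3 * m))) =
      ∏ yt ∈ hYf.toFinset ×ˢ (Finset.univ : Finset (OO A B ⧸ Ideal.span {(3 : OO A B)})),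
        ThetaH L H (emb (Quotient.out yt.1) * (Om / emb (3 * m)) +
          emb (Quotient.out yt.2) * (Om / emb (3 : OO A B))) := by
    symm
    refine Finset.prod_bij (fun yt _ => cls (3 * m) (Quotient.out yt.1 + m * Quotient.out yt.2))
      ?_ ?_ ?_ ?_
    · rintro ⟨y, t⟩ hyt
      simp only [Finset.mem_product, Set.Finite.mem_toFinset, Finset.mem_univ, and_true] at hyt
      rw [Set.Finite.mem_toFinset, hX]
      have : cls m (Quotient.out y + m * Quotient.out t) = y := by
        rw [← cls_out y]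
        rw [cls_eq]
        rw [cls_out y]
        exact ⟨Quotient.out t, by ring⟩
      rw [this]
      exact hyt
    · rintro ⟨y, t⟩ _ ⟨y', t'⟩ _ hyy
      rw [cls_eq] at hyy
      have h1 : m ∣ Quotient.out y - Quotient.out y' := by
        have h2 : m ∣ (Quotient.out y + m * Quotient.out t - (Quotient.out y' +
            m * Quotient.out t')) := (Dvd.intro_left _ rfl).trans hyy
        have h3 : m ∣ m * (Quotient.out t - Quotient.out t') := Dvd.intro _ rfl
        have h4 := dvd_sub h2 h3
        have h5 : (Quotient.out y + m * Quotient.out t - (Quotient.out y' +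
            m * Quotient.out t')) - m * (Quotient.out t - Quotient.out t') =
            Quotient.out y - Quotient.out y' := by ring
        rwa [h5] at h4
      have h2 : y = y' := by
        rw [← cls_out y, ← cls_out y']
        exact cls_eq.2 h1
      subst h2
      have h3 : (3 : OO A B) ∣ Quotient.out t - Quotient.out t' := by
        obtain ⟨c, hc⟩ := hyy
        refine ⟨c, mul_left_cancel₀ hm ?_⟩
        linear_combination hc
      have h4 : t = t' := by
        rw [← cls_out t, ← cls_out t']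
        exact cls_eq.2 h3
      rw [h4]
    · intro x hx
      rw [Set.Finite.mem_toFinset, ← cls_out x, hX] at hx
      obtain ⟨s, hs⟩ := dvd_out (m := m) (Quotient.out x)
      obtain ⟨r, hr⟩ := dvd_out (m := (3 : OO A B)) s
      refine ⟨(cls m (Quotient.out x), cls 3 s), ?_, ?_⟩
      · simp only [Finset.mem_product, Set.Finite.mem_toFinset, Finset.mem_univ, and_true]
        exact hx
      · have h1 : cls (3 * m) (Quotient.out (cls m (Quotient.out x)) +
            m * Quotient.out (cls 3 s)) = cls (3 * m) (Quotient.out x) := by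
          rw [cls_eq]
          exact ⟨-r, by linear_combination -hs - m * hr⟩
        exact h1.trans (cls_out x)
    · rintro ⟨y, t⟩ _
      have h1 := theta_cls hTIN hL.toIsLat hC hm' hH (cls_out (cls (3 * m)
        (Quotient.out y + m * Quotient.out t)))
      rw [h1]
      congr 1
      rw [emb_add hC, emb_mul hC, emb_mul hC, hE3]
      field_simp
  rw [key, Finset.prod_product]
  have key2 : ∀ y ∈ hYf.toFinset, ∏ t : OO A B ⧸ Ideal.span {(3 : OO A B)},
      ThetaH L H (emb (Quotient.out y) * (Om / emb (3 * m)) +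
        emb (Quotient.out t) * (Om / emb (3 : OO A B))) =
      C * ThetaH L H (emb (Quotient.out y) * (Om / emb m)) := by
    intro y hy
    rw [Set.Finite.mem_toFinset] at hy
    have hz : emb (3 : OO A B) * a * (emb (Quotient.out y) * (Om / emb (3 * m))) ∉ L.lattice := by
      have h1 : emb (3 : OO A B) * a * (emb (Quotient.out y) * (Om / emb (3 * m))) =
          emb ((a : OO A B) * Quotient.out y) * (Om / emb m) := by
        rw [emb_mul hC, emb_mul hC, emb_intCast hC, hE3]
        field_simp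
      rw [h1, hL.toIsLat.mul_div_mem_iff hC hm]
      intro hdvd
      have h2 : IsCoprime (Quotient.out y) m := hY _ (by rw [cls_out]; exact hy)
      have h3' := ham.mul_left h2
      have h4 : IsUnit m := h3'.isUnit_of_dvd' hdvd dvd_rfl
      exact three_not_unit (isUnit_of_dvd_unit h3 h4)
    have h2 := hCp _ hz
    rw [finprod_eq_prod_of_fintype] at h2
    rw [h2]
    congr 2
    rw [emb_mul hC, hE3]
    field_simp
  rw [Finset.prod_congr rfl key2, Finset.prod_mul_distrib, Finset.prod_const]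

/-- an automorphism of `D' / k` which fixes the fixed field of `σ` is a power of `σ` -/
lemma mem_powers {K M : Type*} [Field K] [Field M] [Algebra K M] [FiniteDimensional K M]
    (σ τ : M ≃ₐ[K] M) (hσ : orderOf σ = 3) (h : ∀ x, σ x = x → τ x = x) :
    τ = 1 ∨ τ = σ ∨ τ = σ * σ := by
  have h1 : τ ∈ (IntermediateField.fixedField (Subgroup.zpowers σ)).fixingSubgroup := by
    rw [IntermediateField.mem_fixingSubgroup_iff]
    intro x hx
    rw [IntermediateField.mem_fixedField_iff] at hx
    exact h x (hx σ (Subgroup.mem_zpowers σ))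
  rw [IntermediateField.fixingSubgroup_fixedField] at h1
  have h2 : IsOfFinOrder σ := orderOf_pos_iff.1 (by omega)
  obtain ⟨n, hn⟩ := (h2.mem_powers_iff_mem_zpowers.2 h1)
  have hn' : σ ^ n = τ := hn
  rw [← pow_mod_orderOf, hσ] at hn'
  have h3 : n % 3 < 3 := Nat.mod_lt _ (by norm_num)
  interval_cases n % 3
  · left; simpa using hn'.symm
  · right; left; simpa using hn'.symm
  · right; right; rw [← hn', pow_two]

end WI1

open WI1 in
/-- (I1) the norm relation -/
theorem tw_I1 (hFIB : Sw_FIB) (hXXM : Sw_XXM) (hXXG : Sw_XXG) (hDISI : Sw_DISI) (hNRM : Sa_NRM)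
    (hTIN : St_TIN) : Sw_I1 := by
  intro A B L Om hC hL m hm hmz h3 a H ha ham hH D D' h h' hDD' hsub hsub'
  letI := algC h
  letI := algC h'
  intro σ hσ hord
  have hdom := isDomain hC
  have hm' : (3 : OO A B) * m ≠ 0 := mul_ne_zero (three_ne hC) hm
  have hfin' := finite_quot hC hm'
  obtain ⟨hfd, hgal⟩ := hNRM A B L Om hC hL (3 * m) hm'
  have hfdD' : FiniteDimensional (kk A B) D' := by
    let f : D' →ₗ[kk A B] TF L (3 * m) :=
      { toFun := fun y => ⟨(y : ℂ), hsub' _ y.2⟩
        map_add' := fun x y => rfl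
        map_smul' := fun c x => rfl }
    refine FiniteDimensional.of_injective f ?_
    intro x y hxy
    have := congrArg (fun z : TF L (3 * m) => (z : ℂ)) hxy
    exact Subtype.ext this
  obtain ⟨hG1, -, -, hG4⟩ := hXXG A B L Om hC hL (3 * m) hm' D' h' hsub'
  -- the three sets
  have hfixσ : ∀ x : D', (x : ℂ) ∈ D → σ x = x := fun x hx => (hσ x).2 hx
  have hunion : XX L (3 * m) h 1 =
      (XX L (3 * m) h' 1 ∪ XX L (3 * m) h' σ) ∪ XX L (3 * m) h' (σ * σ) := by
    have hsubset : ∀ τ : D' ≃ₐ[kk A B] D', (∀ x : D', (x : ℂ) ∈ D → τ x = x) →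
        XX L (3 * m) h' τ ⊆ XX L (3 * m) h 1 := by
      rintro τ hτ x ⟨s, hs1, hs2⟩
      refine ⟨s, hs1, ?_⟩
      intro y hy
      have h1 := hs2 ⟨(y : ℂ), hDD' y.2⟩ hy
      rw [hτ ⟨(y : ℂ), hDD' y.2⟩ y.2] at h1
      exact h1
    apply Set.Subset.antisymm
    · rintro x ⟨s, hs1, hs2⟩
      obtain ⟨τ, hτ⟩ := hG1 s
      have h1 : ∀ x : D', σ x = x → τ x = x := by
        intro y hy
        have hyD := (hσ y).1 hy
        have h2 := hτ y (hsub' _ y.2)
        have h3 := hs2 ⟨(y : ℂ), hyD⟩ (hsub' _ y.2)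
        apply Subtype.ext
        rw [← h2]
        exact h3
      rcases mem_powers σ τ hord h1 with h2 | h2 | h2
      · left; left; exact ⟨s, hs1, h2 ▸ hτ⟩
      · left; right; exact ⟨s, hs1, h2 ▸ hτ⟩
      · right; exact ⟨s, hs1, h2 ▸ hτ⟩
    · refine Set.union_subset (Set.union_subset ?_ ?_) ?_
      · exact hsubset 1 fun x _ => rfl
      · exact hsubset σ hfixσ
      · refine hsubset (σ * σ) fun x hx => ?_
        change σ (σ x) = x
        rw [hfixσ x hx, hfixσ x hx]
  have hdisj : ∀ τ τ' : D' ≃ₐ[kk A B] D', τ ≠ τ' →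
      Disjoint (XX L (3 * m) h' τ) (XX L (3 * m) h' τ') := by
    intro τ τ' hne
    rw [Set.disjoint_left]
    intro x hx hx'
    rw [← cls_out x] at hx hx'
    exact hne (hG4 _ τ τ' hx hx')
  have hne1 : (1 : D' ≃ₐ[kk A B] D') ≠ σ := by
    intro h0
    rw [← h0, orderOf_one] at hord
    norm_num at hord
  have hne2 : (1 : D' ≃ₐ[kk A B] D') ≠ σ * σ := by
    intro h0
    have h1 : σ ^ 2 = 1 := by rw [pow_two]; exact h0.symm
    have h2 := orderOf_dvd_of_pow_eq_one h1
    rw [hord] at h2
    norm_num at h2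
  have hne3 : σ ≠ σ * σ := by
    intro h0
    exact hne1 (mul_left_cancel (a := σ) (by rw [mul_one]; exact h0))
  have hprod : cc L Om (3 * m) H h' 1 * cc L Om (3 * m) H h' σ * cc L Om (3 * m) H h' (σ * σ) =
      ∏ᶠ x ∈ XX L (3 * m) h 1, ThetaH L H (emb (Quotient.out x) * (Om / emb (3 * m))) := by
    rw [hunion, finprod_mem_union (Set.disjoint_union_left.2 ⟨hdisj _ _ hne2, hdisj _ _ hne3⟩)
      (Set.toFinite _) (Set.toFinite _), finprod_mem_union (hdisj _ _ hne1)
      (Set.toFinite _) (Set.toFinite _)]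
    rfl
  rw [hprod]
  -- the fibres
  have hYcop : ∀ x : OO A B, cls m x ∈ XX L m h 1 → IsCoprime x m := by
    intro x hx
    obtain ⟨s, hs, -⟩ := (hXXM A B L Om hC hL m hm D h 1 x).1 hx
    exact hs.1
  refine prod_fibre hTIN hDISI hL hC hm h3 ha ham hH (XX L m h 1) hYcop (XX L (3 * m) h 1) ?_
  intro x
  rw [hFIB A B L Om hC hL m (3 * m) hm hm' hmz (Dvd.intro_left _ rfl) D h hsub 1 x]
  constructor
  · exact fun hx => hx.2
  · intro hx
    have h1 := hYcop x hx
    exact ⟨(IsCoprime.of_isCoprime_of_dvd_right h1 h3).mul_right h1, hx⟩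

end

end Pool.Agent.MU3V
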