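import Pool.Agent.MU3.StV2

/-!
# MU3, block V, INV: automorphisms which are trivial modulo `V`
-/

set_option autoImplicit false

namespace Pool.Agent.MU3V

open _root_.MU3 Pool.Agent.MU3A Pool.Agent.MU3B Pool.Agent.MU3C

noncomputable section

/-- an automorphism which is trivial modulo `V` acts trivially on `E[m]` -/
theorem tw_INV (hD : Sw_DIF) (hG : Sa_GAL) (hA : Sa_ACT) : Sw_INV := by
  intro A B L Om ξ h hL hξ V h2 m hm hE F hF σ hσ
  obtain ⟨a, ha⟩ := hG A B L Om h hL m hm F hF (em σ)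
  refine (hA A B L Om h hL m hm).2.1 F (em σ) a 1 ?_ ha
  by_cases hu : IsUnit m
  · exact hu.dvd
  have hm0 := emb_ne_zero h hm
  have hz : Om / emb m ∉ L.lattice := by
    intro h0
    apply hu
    rw [isUnit_iff_dvd_one, ← hL.toIsLat.mul_div_mem_iff h hm 1, emb_one h, one_mul]
    exact h0
  have hmz : emb m * (Om / emb m) ∈ L.lattice := by
    rw [mul_div_cancel₀ _ hm0, hL.mem]
    exact ⟨1, by rw [emb_one h, mul_one]⟩
  have hmaz : emb m * (emb a * (Om / emb m)) ∈ L.lattice := by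
    rw [mul_left_comm]
    exact hL.toIsLat.emb_mul_mem h a hmz
  obtain ⟨haz, hx, hy⟩ := ha.2 _ hmz hz
  have hz1 : ¬ InE1 A B V L (Om / emb m) := fun h0 => hz (hE _ hmz h0)
  have hz2 : ¬ InE1 A B V L (emb a * (Om / emb m)) := fun h0 => haz (hE _ hmaz h0)
  have hxF : xx A B L (Om / emb m) ∈ F :=
    hF (IntermediateField.subset_adjoin _ _ ⟨_, hmz, hz, Or.inl rfl⟩)
  have hyF : yy L (Om / emb m) ∈ F :=
    hF (IntermediateField.subset_adjoin _ _ ⟨_, hmz, hz, Or.inr rfl⟩)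
  have hx1 : V.valuation (xx A B L (emb a * (Om / emb m)) - xx A B L (Om / emb m)) < 1 := by
    have h3 := hσ ⟨_, hxF⟩ ((ValuationSubring.valuation_le_one_iff _ _).1 (int_x hz1).2)
    rw [ValuationSubring.mem_nonunits_iff] at h3
    have h4 := hx hxF
    change ((σ ⟨_, hxF⟩ : F) : ℂ) = _ at h4
    rwa [h4] at h3
  have hy1 : V.valuation (yy L (emb a * (Om / emb m)) - yy L (Om / emb m)) < 1 := by
    have h3 := hσ ⟨_, hyF⟩ ((ValuationSubring.valuation_le_one_iff _ _).1 (int_yy h h2 hξ hz1))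
    rw [ValuationSubring.mem_nonunits_iff] at h3
    have h4 := hy hyF
    change ((σ ⟨_, hyF⟩ : F) : ℂ) = _ at h4
    rwa [h4] at h3
  have h5 := hD A B L Om ξ h hL hξ V h2 _ _ hz2 hz1 hx1 hy1
  have h6 := hE _ (by
    rw [mul_sub]
    exact sub_mem hmaz hmz) h5
  rw [← hL.toIsLat.mul_div_mem_iff h hm, emb_sub h, emb_one h, sub_mul, one_mul]
  exact h6

end

end Pool.Agent.MU3V
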