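import Pool.Agent.MU3.StV2

/-!
# MU3, block V: the input (I2) (helper59)
-/

set_option autoImplicit false

open WeierstrassCurve Polynomial NumberField IsDedekindDomain

namespace Pool.Agent.MU3V

open _root_.MU3 Pool.Agent.MU3A Pool.Agent.MU3B Pool.Agent.MU3C Pool.Agent.RI

noncomputable section

/-- (KOL) the input (I2): `KolIn` for the element `c = cc .. 1` of `D`. -/
def Sw_KOL : Prop :=
  ∀ (A B : ℤ) (L : PeriodPair) (Om : ℂ), Case A B → IsCM A B L Om → ∃ n₀ : ℕ, n₀ ≠ 0 ∧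
    ∀ m : OO A B, m ≠ 0 → mz A B ∣ m → ∀ (a : ℤ) (H : Finset ℂ), a ≠ 0 →
    IsCoprime (a : OO A B) m → IsHalf L a H →
    ∀ S : Finset ℕ, (∀ p : ℕ, p.Prime → p ∣ n₀ → p ∈ S) →
    (∀ p : ℕ, p.Prime → (p : ℤ) ∣ a → p ∈ S) → (∀ p : ℕ, p.Prime → (p : ℤ) ∣ nm m → p ∈ S) →
    ∀ (D : IntermediateField ℚ ℂ) [FiniteDimensional ℚ D] [FiniteDimensional ℚ (kk A B)]
      (h : kk A B ≤ D), Sub D (TF L m) → letI := algC h
      ∀ c : D, (c : ℂ) = cc L Om m H h 1 → Pool.Agent.MU3.KolIn (kk A B) D S c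

end

end Pool.Agent.MU3V
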