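import Pool.Agent.MU3.WK7
import Pool.Agent.MU3.StV3
import Pool.Agent.MU3.W_FIB

/-!
# MU3, block V: (KOL), the input (I2) (helper59)
-/

set_option autoImplicit false

open WeierstrassCurve Polynomial NumberField IsDedekindDomain

namespace Pool.Agent.MU3V

open _root_.MU3 Pool.Agent.MU3A Pool.Agent.MU3B Pool.Agent.MU3C Pool.Agent.RI

noncomputable section

variable {A B : ℤ}

/-- arithmetic of `mz` -/
lemma nm_mz (h : Case A B) : nm (mz A B) ≠ 1 := by
  rcases h with ⟨rfl, rfl⟩ | ⟨rfl, rfl⟩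
  · simp [mz, nm]
  · have e : mz (-3) 1 = ((4 : ℤ) : OO (-3) 1) := by simp [mz]
    rw [e, nm, QuadraticAlgebra.re_intCast, QuadraticAlgebra.im_intCast]
    norm_num

theorem tw_KOL (hNRM : Sa_NRM) (hACT : Sa_ACT) (hGAL : Sa_GAL) (hPID : Sa_PID) (hINT : Sa_INT)
    (hXI : Sa_XI) (hXXM : Sw_XXM) (hXXG : Sw_XXG) (hFIB : Sw_FIB) (hTHG : Sw_THG)
    (hDISI : Sw_DISI) (hTIN : St_TIN) (hTNZ : St_TNZ) (hDEG : Sv_DEG1) (hEXT : Sv_EXT)
    (hINJ : Sv_INJ) (hR2 : Sv_R2) (hTHU : Sw_THU) (hTORV : Sw_TORV) (hINV : Sw_INV)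
    (hLOC : Sw_LOC) (hHTOT : Sw_HTOT) (hFRD : Sw_FRD) : Sw_KOL := by
  intro A B L Om h hL
  obtain ⟨n1, hn1, hF⟩ := hFRD A B L Om h hL
  refine ⟨2 * n1, mul_ne_zero (by norm_num) hn1, ?_⟩
  intro m hm hmz a H ha hcm hH S hS0 hSa hSm D _ _ hk hD
  letI := algC hk
  intro c hc
  obtain ⟨hdom, hpir, hnn, hnmul, hnm0, -, hunit, hunit', -, hpr⟩ := hPID A B h
  obtain ⟨ξ, hξ0, -, hξs⟩ := hXI A B L Om h hL
  have hξ : IsXi A B L ξ := ⟨hξs, fun z hz => (hξ0 z).2 hz⟩
  rw [Pool.Agent.MU3.kolIn_iff]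
  intro v q hg
  have hq := hg.prime
  have hq0 : ¬ q ∣ 2 * n1 := fun hd => hg.notin (hS0 q hq hd)
  have hqm : ¬ (q : ℤ) ∣ nm m := fun hd => hg.notin (hSm q hq hd)
  have hqa : ¬ (q : ℤ) ∣ a := fun hd => hg.notin (hSa q hq hd)
  obtain ⟨lam, hnm, hXX, hP⟩ := hF m hm D hk hD S v q hg (fun hd => hq0 (hd.mul_left 2)) hqm
  have hmu : ¬ IsUnit m := by
    intro hu
    have h1 : IsUnit (mz A B) := isUnit_of_dvd_unit hmz hu
    exact nm_mz h ((hunit' _).1 h1)
  have hlam : lam ≠ 0 := by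
    rintro rfl
    rw [(hnm0 0).2 rfl] at hnm
    exact hq.ne_zero (by exact_mod_cast hnm.symm)
  have hprl : Prime lam := hpr lam (by rw [hnm]; simpa using hq)
  have hul : ¬ IsUnit lam := hprl.not_isUnit
  have hcopl : ∀ x : OO A B, ¬ lam ∣ x → IsCoprime x lam := fun x hx =>
    ((Irreducible.coprime_iff_not_dvd hprl.irreducible).2 hx).symm
  have hnmdvd : ∀ x y : OO A B, x ∣ y → nm x ∣ nm y := by
    rintro x y ⟨z, rfl⟩
    exact ⟨nm z, hnmul x z⟩
  have hcop : IsCoprime m lam := by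
    apply hcopl
    intro hd
    apply hqm
    rw [← hnm]
    exact hnmdvd _ _ hd
  have hcl : IsCoprime (a : OO A B) lam := by
    apply hcopl
    intro hd
    exact hqa ((hDEG A B h lam q hq hnm).2.2 a hd)
  obtain ⟨hfld, hfin, hcyc, hcardU⟩ := card_units hDEG hPID h hq hnm
  obtain ⟨ψ, hψ⟩ := exists_psi (U := (OO A B ⧸ Ideal.span {lam})ˣ) (by rw [hcardU]; exact hg.three)
  have hN : m * lam ≠ 0 := mul_ne_zero hm hlam
  obtain ⟨hfdM, hgalM⟩ := hNRM A B L Om h hL (m * lam) hN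
  have hkN : NumberField (kk A B) := ⟨⟩
  have hMQ : FiniteDimensional ℚ (TF L (m * lam)) :=
    FiniteDimensional.trans ℚ (kk A B) (TF L (m * lam))
  have hMN : NumberField (TF L (m * lam)) := ⟨⟩
  have hcomm := (hACT A B L Om h hL (m * lam) hN).2.2.2.2.2.1
  obtain ⟨ρ, hρi, hρ⟩ := rho_exists hACT hGAL h hL hN
  have hle : TF L m ≤ TF L (m * lam) := Fib.TF_mono h hL (dvd_mul_right m lam)
  have hs : Sub D (TF L (m * lam)) := fun x hx => hle (hD x hx)
  letI := algDF hs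
  haveI := towDF hk hs
  obtain ⟨α, hα, hbij⟩ := bij h hL hm hlam hmz hcop hk hD hs hρi hρ hXXM hFIB
  -- the values
  have hz1 : emb (1 : OO A B) * (Om / emb m) + emb (1 : OO A B) * (Om / emb lam) ∉ L.lattice := by
    have := z0_notMem h hL hm hlam hcop hul 1
    rwa [show Om / emb lam = emb (1 : OO A B) * (Om / emb lam) by rw [emb_one h, one_mul]] at this
  have hz0 : emb (1 : OO A B) * (Om / emb m) + emb (0 : OO A B) * (Om / emb lam) ∉ L.lattice := by
    rw [emb_zero h, zero_mul, add_zero]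
    exact u_notMem h hL hm hmu isCoprime_one_left
  obtain ⟨hθ, -⟩ := hTHG A B L Om h hL (m * lam) hN a H ha hH _ (z0_tors h hL hm hlam 1 1) hz1
  obtain ⟨hθ0, -⟩ := hTHG A B L Om h hL (m * lam) hN a H ha hH _ (z0_tors h hL hm hlam 1 0) hz0
  have hsig : ∀ σ : TF L (m * lam) ≃ₐ[D] TF L (m * lam),
      ((σ ⟨_, hθ⟩ : TF L (m * lam)) : ℂ) =
        ThetaH L H (emb (Quotient.out (α σ : OO A B ⧸ Ideal.span {m})) * (Om / emb m) +
          emb (Quotient.out ((bHom hk hs ρ σ : (OO A B ⧸ Ideal.span {lam})ˣ) :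
            OO A B ⧸ Ideal.span {lam})) * (Om / emb lam)) := by
    intro σ
    have h1 := theta_sigma h hL hm hlam hH hTHG hTIN ha 1 1 hz1 hρ (rsHom hk hs σ) hθ
    rw [one_mul, one_mul] at h1
    rw [hα σ]
    exact h1
  have hsig0 : ∀ σ : TF L (m * lam) ≃ₐ[D] TF L (m * lam),
      ((σ ⟨_, hθ0⟩ : TF L (m * lam)) : ℂ) =
        ThetaH L H (emb (Quotient.out (α σ : OO A B ⧸ Ideal.span {m})) * (Om / emb m)) := by
    intro σ
    have h1 := theta_sigma h hL hm hlam hH hTHG hTIN ha 1 0 hz0 hρ (rsHom hk hs σ) hθ0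
    refine h1.trans ?_
    rw [one_mul, zero_mul, emb_zero h, zero_mul, add_zero, hα σ]
    rfl
  have hyc : ∀ y ∈ XX L m hk (1 : D ≃ₐ[kk A B] D), IsCoprime (Quotient.out y) m := by
    intro y hy
    have h1 : cls m (Quotient.out y) ∈ XX L m hk (1 : D ≃ₐ[kk A B] D) := by rwa [cls_out]
    obtain ⟨σ, hσ, -⟩ := (hXXM A B L Om h hL m hm D hk _ _).1 h1
    exact hσ.1
  have hXfin : Finite (XX L m hk (1 : D ≃ₐ[kk A B] D)) := by
    have : Finite (TF L (m * lam) ≃ₐ[D] TF L (m * lam)) :=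
      Finite.of_injective _ (rsHom_inj hk hs)
    refine Finite.of_surjective α fun y => ?_
    obtain ⟨σ, hσ⟩ := hbij.2 (y, 1)
    exact ⟨σ, congrArg Prod.fst hσ⟩
  have hUfin : Finite (OO A B ⧸ Ideal.span {lam})ˣ := inferInstance
  -- valuations
  have hVQ : ∀ w : HeightOneSpectrum (𝓞 (TF L (m * lam))), ∃ V : ValuationSubring ℂ,
      ∀ x : TF L (m * lam), ((algebraMap _ ℂ x) ∈ V ↔ w.valuation _ x ≤ 1) ∧
      (V.valuation (algebraMap _ ℂ x) < 1 ↔ w.valuation _ x < 1) ∧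
      (V.valuation (algebraMap _ ℂ x) = 1 ↔ w.valuation _ x = 1) := fun w =>
    hEXT (TF L (m * lam)) (algebraMap (TF L (m * lam)) ℂ) w
  have hnm0' : nm m ≠ 0 := fun h0 => hm ((hnm0 m).1 h0)
  -- `lam` as an element of the ring of integers of `M`
  obtain ⟨ℓ, hℓ⟩ : ∃ ℓ : 𝓞 (kk A B), ((ℓ : kk A B) : ℂ) = emb lam :=
    ⟨PRL.phi hINT h lam, PRL.phi_val hINT h lam⟩
  have hℓM : ((algebraMap (𝓞 (kk A B)) (𝓞 (TF L (m * lam))) ℓ : TF L (m * lam)) : ℂ) = emb lam := by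
    rw [← hℓ]; rfl
  have hℓv : ℓ ∈ v.asIdeal.under (𝓞 (kk A B)) := (hP ℓ lam hℓ).2 dvd_rfl
  have habv : ∀ w : HeightOneSpectrum (𝓞 (TF L (m * lam))),
      w.asIdeal.under (𝓞 (kk A B)) = v.asIdeal.under (𝓞 (kk A B)) → Abv w.asIdeal lam := by
    intro w hw
    rw [← hw] at hℓv
    exact ⟨_, hℓv, hℓM⟩
  have hvl : ∀ (w : HeightOneSpectrum (𝓞 (TF L (m * lam)))) (V : ValuationSubring ℂ),
      (∀ x : TF L (m * lam), ((algebraMap _ ℂ x) ∈ V ↔ w.valuation _ x ≤ 1) ∧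
      (V.valuation (algebraMap _ ℂ x) < 1 ↔ w.valuation _ x < 1) ∧
      (V.valuation (algebraMap _ ℂ x) = 1 ↔ w.valuation _ x = 1)) →
      w.asIdeal.under (𝓞 (kk A B)) = v.asIdeal.under (𝓞 (kk A B)) →
      V.valuation (emb lam) < 1 := by
    intro w V hV hw
    obtain ⟨y, hy, hyl⟩ := habv w hw
    rw [← hyl]
    exact ((hV _).2.1).2 ((HeightOneSpectrum.valuation_lt_one_iff_mem w y).2 hy)
  have hvq : ∀ V : ValuationSubring ℂ, V.valuation (emb lam) < 1 → V.valuation (q : ℂ) < 1 := by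
    intro V hV
    have h1 := congrArg emb (FROB.mul_conj lam)
    rw [emb_mul h, emb_intCast h, hnm, Int.cast_natCast] at h1
    rw [← h1, map_mul]
    exact mul_lt_one_of_lt_of_le hV (v_emb_le h V _)
  have hint : ∀ V : ValuationSubring ℂ, V.valuation (emb lam) < 1 → ∀ s : ℤ, ¬ (q : ℤ) ∣ s →
      V.valuation (s : ℂ) = 1 := fun V hV s hs => FROB.v_int_eq_one hq (hvq V hV) hs
  have hq2 : ¬ (q : ℤ) ∣ 2 := by
    intro hd
    exact hq0 ((Int.natCast_dvd_natCast.1 (by exact_mod_cast hd)).mul_right n1)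
  have hval2 : ∀ (w : HeightOneSpectrum (𝓞 (TF L (m * lam)))) (V : ValuationSubring ℂ),
      (∀ x : TF L (m * lam), ((algebraMap _ ℂ x) ∈ V ↔ w.valuation _ x ≤ 1) ∧
      (V.valuation (algebraMap _ ℂ x) < 1 ↔ w.valuation _ x < 1) ∧
      (V.valuation (algebraMap _ ℂ x) = 1 ↔ w.valuation _ x = 1)) → ∀ s : ℤ,
      V.valuation (s : ℂ) = 1 → (s : 𝓞 (TF L (m * lam))) ∉ w.asIdeal := by
    intro w V hV s hs hsw
    have h1 := (HeightOneSpectrum.valuation_lt_one_iff_mem (K := TF L (m * lam)) w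
      (s : 𝓞 (TF L (m * lam)))).2 hsw
    have h2 := ((hV _).2.1).2 h1
    have e : algebraMap (TF L (m * lam)) ℂ (algebraMap (𝓞 (TF L (m * lam))) (TF L (m * lam))
        (s : 𝓞 (TF L (m * lam)))) = (s : ℂ) := by simp
    rw [e, hs] at h2
    exact lt_irrefl _ h2
  refine Pool.Agent.MU3.I2ABS_thm (kk A B) D (TF L (m * lam)) hcomm S c v q hg
    (aHom hk hs ρ).ker (ψ.comp (bHom hk hs ρ)) ?_ ?_ ?_ ⟨_, hθ⟩ ⟨_, hθ0⟩ ?_ ?_ ?_ ?_
  · -- the character is not trivial on `A`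
    obtain ⟨r, hr⟩ := hψ (Multiplicative.ofAdd 1)
    have h1 : cls m 1 ∈ XX L m hk (1 : D ≃ₐ[kk A B] D) := by
      rw [hXXM A B L Om h hL m hm D hk]
      exact ⟨1, (hACT A B L Om h hL m hm).2.2.2.2.2.2.1 _ le_rfl, fun y hy => rfl⟩
    obtain ⟨σ, hσ⟩ := hbij.2 (⟨_, h1⟩, r)
    have e1 : (α σ : OO A B ⧸ Ideal.span {m}) = cls m 1 :=
      congrArg (fun p => (p.1 : OO A B ⧸ Ideal.span {m})) hσ
    have e2 : bHom hk hs ρ σ = r := congrArg Prod.snd hσ
    refine ⟨σ, ?_, ?_⟩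
    · rw [MonoidHom.mem_ker]
      apply Units.ext
      rw [← hα σ, e1, cls_one, Units.val_one]
    · show ψ (bHom hk hs ρ σ) ≠ 1
      rw [e2, hr]
      decide
  · -- unramified
    intro w hwS hwk σ hσ
    obtain ⟨V, hV⟩ := hVQ w
    have v2 : V.valuation (2 : ℂ) = 1 := by
      have := val_int_S hV hwS (n := 2) (by norm_num) (fun p hp hpd => by
        refine hS0 p hp ((?_ : p ∣ 2).mul_right n1)
        exact_mod_cast hpd)
      simpa using this
    have vm : V.valuation ((nm m : ℤ) : ℂ) = 1 := val_int_S hV hwS hnm0' hSm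
    have vl : V.valuation (emb lam) = 1 := by
      refine le_antisymm (v_emb_le h V lam) (not_lt.1 fun hlt => hwk ?_)
      have hℓw : ℓ ∈ w.asIdeal.under (𝓞 (kk A B)) := by
        show algebraMap (𝓞 (kk A B)) (𝓞 (TF L (m * lam))) ℓ ∈ w.asIdeal
        rw [← HeightOneSpectrum.valuation_lt_one_iff_mem (K := TF L (m * lam)) w]
        apply ((hV _).2.1).1
        have : algebraMap (TF L (m * lam)) ℂ (algebraMap (𝓞 (TF L (m * lam))) (TF L (m * lam))
          (algebraMap (𝓞 (kk A B)) (𝓞 (TF L (m * lam))) ℓ)) = emb lam := hℓM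
        rw [this]
        exact hlt
      have hsub : v.asIdeal.under (𝓞 (kk A B)) ≤ w.asIdeal.under (𝓞 (kk A B)) := by
        intro x hx
        obtain ⟨y, hy⟩ := PRL.phi_surj hINT h x
        have h1 := (hP x y (by rw [← hy]; exact PRL.phi_val hINT h y)).1 hx
        obtain ⟨z, hz⟩ := h1
        have h2 : x = ℓ * PRL.phi hINT h z := by
          rw [← hy, hz, map_mul]
          congr 1
          apply PRL.ext'
          rw [PRL.phi_val, hℓ]
        rw [h2]
        exact Ideal.mul_mem_right _ _ hℓw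
      have hmax : (v.asIdeal.under (𝓞 (kk A B))).IsMaximal := by
        have hp : (v.asIdeal.under (𝓞 (kk A B))).IsPrime := Ideal.IsPrime.under _ _
        exact hp.isMaximal (v.under (𝓞 (kk A B))).ne_bot
      have hne : w.asIdeal.under (𝓞 (kk A B)) ≠ ⊤ := by
        have hp : (w.asIdeal.under (𝓞 (kk A B))).IsPrime := Ideal.IsPrime.under _ _
        exact hp.ne_top
      exact (hmax.eq_of_le hne hsub).symm
    have h1 := hINV A B L Om ξ h hL hξ V v2 (m * lam) hN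
      (fun z hz hE => torsN h hL hξ v2 vm hINJ hPID hq hnm vl z hz hE) (TF L (m * lam)) le_rfl
      (rsHom hk hs σ) (fun x hx => by
        rw [ValuationSubring.mem_nonunits_iff]
        have h2 := hLOC A B (TF L (m * lam)) w V (fun y => ⟨(hV y).1, (hV y).2.1⟩)
          (rsHom hk hs σ) 1 one_pos (fun y => ⟨_, hσ y, by rw [pow_one]; rfl⟩) x hx
        rwa [pow_one] at h2)
    rw [hρ] at h1
    have h2 : ρ (rsHom hk hs σ) = 1 := by
      apply Units.ext
      rw [h1, cls_one, Units.val_one]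
    have h3 : rsHom hk hs σ = 1 := hρi (by rw [h2, map_one])
    exact rsHom_inj hk hs (by rw [h3, map_one])
  · -- totally ramified
    intro w hw σ hσ x
    obtain ⟨V, hV⟩ := hVQ w
    have hlt := hvl w V hV hw
    have a1 : Act L (em (rsHom hk hs σ)) m 1 := by
      obtain ⟨x0, hx0⟩ : ∃ x0, ((ρ (rsHom hk hs σ) : (OO A B ⧸ Ideal.span {m * lam})ˣ) :
        OO A B ⧸ Ideal.span {m * lam}) = cls (m * lam) x0 := ⟨_, (cls_out _).symm⟩
      have h1 : Act L (em (rsHom hk hs σ)) (m * lam) x0 := (hρ _ _).2 hx0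
      have h2 : Act L (em (rsHom hk hs σ)) m x0 :=
        (hACT A B L Om h hL (m * lam) hN).2.2.1 _ _ _ _ (dvd_mul_right m lam) h1
      have h3 : ((aHom hk hs ρ σ : (OO A B ⧸ Ideal.span {m})ˣ) : OO A B ⧸ Ideal.span {m}) = 1 := by
        rw [(MonoidHom.mem_ker).1 hσ, Units.val_one]
      have h4 : ((aHom hk hs ρ σ : (OO A B ⧸ Ideal.span {m})ˣ) : OO A B ⧸ Ideal.span {m}) =
          rd (dvd_mul_right m lam) (cls (m * lam) x0) := by
        rw [← hx0]; rfl
      rw [h3, rd_cls, ← cls_one m] at h4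
      exact (hACT A B L Om h hL m hm).2.1 _ _ _ _ (cls_eq_iff.1 h4.symm) h2
    obtain ⟨y, hy, hyx⟩ := hHTOT A B L Om h hL m hm lam q hq hnm w.asIdeal w.isPrime (habv w hw)
      (by
        have := hval2 w V hV 2 (hint V hlt 2 hq2)
        exact_mod_cast this)
      (hval2 w V hV (nm m) (hint V hlt _ hqm)) (rsHom hk hs σ) a1 x
    have : σ • x - x = y := by
      apply RingOfIntegers.ext
      rw [hyx]; rfl
    rw [this]
    exact hy
  · -- unit outside `S`
    intro w hwS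
    obtain ⟨V, hV⟩ := hVQ w
    have v2 : V.valuation (2 : ℂ) = 1 := by
      have := val_int_S hV hwS (n := 2) (by norm_num) (fun p hp hpd => by
        refine hS0 p hp ((?_ : p ∣ 2).mul_right n1)
        exact_mod_cast hpd)
      simpa using this
    have vm : V.valuation ((nm m : ℤ) : ℂ) = 1 := val_int_S hV hwS hnm0' hSm
    have va : V.valuation (a : ℂ) = 1 := val_int_S hV hwS ha hSa
    apply ((hV _).2.2).1
    exact theta_unit h hL hξ v2 hm hlam hcop hul hmu vm hH hTHU hTORV hINJ hR2 hPID hq hnm va hcm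
  · -- the congruence
    intro w hw σ
    obtain ⟨V, hV⟩ := hVQ w
    have hlt := hvl w V hV hw
    have v2 : V.valuation (2 : ℂ) = 1 := by simpa using hint V hlt 2 hq2
    have vm : V.valuation ((nm m : ℤ) : ℂ) = 1 := hint V hlt _ hqm
    have va : V.valuation (a : ℂ) = 1 := hint V hlt _ hqa
    obtain ⟨k1, k2⟩ := theta_cong_lam h hL hξ v2 hm hlam hmu vm hH hTHU hTORV hR2 hq hnm va hlt
      (y := Quotient.out (α σ : OO A B ⧸ Ideal.span {m}))
      (r := Quotient.out ((bHom hk hs ρ σ : (OO A B ⧸ Ideal.span {lam})ˣ) :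
            OO A B ⧸ Ideal.span {lam})) (hyc _ (α σ).2)
    constructor
    · apply ((hV _).1).1
      rw [← ValuationSubring.valuation_le_one_iff]
      have e : algebraMap (TF L (m * lam)) ℂ (σ ⟨_, hθ0⟩) = _ := hsig0 σ
      rw [e]
      exact k1
    · apply ((hV _).2.1).1
      rw [map_sub]
      have e : algebraMap (TF L (m * lam)) ℂ (σ ⟨_, hθ0⟩) = _ := hsig0 σ
      have e' : algebraMap (TF L (m * lam)) ℂ (σ ⟨_, hθ⟩) = _ := hsig σ
      rw [e, e']
      exact k2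
  · -- the norm
    obtain ⟨C, hC, -, hCe⟩ := norm_k h hL hm hlam hcop hul hH hk hD hXXM hXXG hDISI hTIN hTNZ ha hcl
      hcm hmu hfld hXX
    refine ⟨⟨C, hC⟩, ?_⟩
    have : Finite (TF L (m * lam) ≃ₐ[D] TF L (m * lam)) :=
      Finite.of_injective _ (rsHom_inj hk hs)
    have : Fintype (TF L (m * lam) ≃ₐ[D] TF L (m * lam)) := Fintype.ofFinite _
    apply (algebraMap (TF L (m * lam)) ℂ).injective
    have e1 := prod_all_abs (fun σ => α σ) (fun σ => bHom hk hs ρ σ) hbij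
      (fun (y : XX L m hk (1 : D ≃ₐ[kk A B] D)) (r : (OO A B ⧸ Ideal.span {lam})ˣ) =>
        ThetaH L H (emb (Quotient.out (y : OO A B ⧸ Ideal.span {m})) * (Om / emb m) +
          emb (Quotient.out (r : OO A B ⧸ Ideal.span {lam})) * (Om / emb lam)))
    rw [hCe, finprod_eq_prod_of_fintype] at e1
    rw [finprod_eq_prod_of_fintype, map_prod]
    refine (Finset.prod_congr rfl fun σ _ => ?_).trans e1
    exact hsig σ
  · -- the product over the kernel
    have : Finite (TF L (m * lam) ≃ₐ[D] TF L (m * lam)) :=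
      Finite.of_injective _ (rsHom_inj hk hs)
    have : Fintype (ψ.comp (bHom hk hs ρ)).ker := Fintype.ofFinite _
    apply (algebraMap (TF L (m * lam)) ℂ).injective
    have e1 := prod_ker_abs (fun σ => α σ) (bHom hk hs ρ) hbij ψ hψ
      (fun (y : XX L m hk (1 : D ≃ₐ[kk A B] D)) =>
        ThetaH L H (emb (Quotient.out (y : OO A B ⧸ Ideal.span {m})) * (Om / emb m)))
    have e2 : (∏ᶠ y : XX L m hk (1 : D ≃ₐ[kk A B] D),
        ThetaH L H (emb (Quotient.out (y : OO A B ⧸ Ideal.span {m})) * (Om / emb m))) = (c : ℂ) := by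
      rw [hc]
      exact finprod_set_coe_eq_finprod_mem (f := fun x : OO A B ⧸ Ideal.span {m} =>
        ThetaH L H (emb (Quotient.out x) * (Om / emb m))) (XX L m hk (1 : D ≃ₐ[kk A B] D))
    rw [e2, hcardU, finprod_eq_prod_of_fintype] at e1
    rw [finprod_eq_prod_of_fintype, map_prod, map_pow]
    refine (Finset.prod_congr rfl fun σ _ => ?_).trans e1
    exact hsig0 σ

end

end Pool.Agent.MU3V
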