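import Pool.Agent.MU3.StV2

/-!
# MU3, block V: congruences modulo a prime and modulo a valuation ring extending it
-/

set_option autoImplicit false

open WeierstrassCurve Polynomial NumberField IsDedekindDomain

namespace Pool.Agent.MU3V

open _root_.MU3 Pool.Agent.MU3A Pool.Agent.MU3B Pool.Agent.MU3C

theorem tw_LOC : Sw_LOC := by
  intro A B F _ w V hVw σ q _ hσ x hx
  have hx1 : w.valuation F x ≤ 1 := (hVw x).1.mp hx
  obtain ⟨s, ⟨t, ht⟩, hst⟩ := w.exists_primeCompl_mul_eq_of_integer x hx1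
  have ht' : t ∉ w.asIdeal := ht
  have hst' : x * (t : F) = (s : F) := hst
  obtain ⟨y1, hy1, hy1'⟩ := hσ s
  obtain ⟨y2, hy2, hy2'⟩ := hσ t
  have vt : w.valuation F (t : F) = 1 := w.valuation_eq_one_iff_notMem.mpr ht'
  have vy1 : w.valuation F (y1 : F) < 1 := (w.valuation_lt_one_iff_mem y1).mpr hy1
  have vy2 : w.valuation F (y2 : F) < 1 := (w.valuation_lt_one_iff_mem y2).mpr hy2
  have vs : w.valuation F (s : F) ≤ 1 := w.valuation_le_one s
  have vtq : w.valuation F ((t : F) ^ q) = 1 := by rw [map_pow, vt, one_pow]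
  have vsq : w.valuation F ((s : F) ^ q) ≤ 1 := by
    rw [map_pow]
    exact pow_le_one' vs q
  have hσt : σ (t : F) = (y2 : F) + (t : F) ^ q := by rw [hy2']; ring
  have vσt : w.valuation F (σ (t : F)) = 1 := by
    rw [hσt, Valuation.map_add_eq_of_lt_right _ (by rw [vtq]; exact vy2), vtq]
  have hmul : σ x * σ (t : F) = σ (s : F) := by rw [← map_mul, hst']
  have key : (σ x - x ^ q) * (σ (t : F) * (t : F) ^ q) =
      (y1 : F) * (t : F) ^ q - (s : F) ^ q * (y2 : F) := by
    have e1 : σ (s : F) = (y1 : F) + (s : F) ^ q := by rw [hy1']; ring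
    have e2 : x ^ q * (t : F) ^ q = (s : F) ^ q := by rw [← mul_pow, hst']
    calc (σ x - x ^ q) * (σ (t : F) * (t : F) ^ q)
        = (σ x * σ (t : F)) * (t : F) ^ q - (x ^ q * (t : F) ^ q) * σ (t : F) := by ring
      _ = ((y1 : F) + (s : F) ^ q) * (t : F) ^ q - (s : F) ^ q * ((y2 : F) + (t : F) ^ q) := by
          rw [hmul, e1, e2, hσt]
      _ = (y1 : F) * (t : F) ^ q - (s : F) ^ q * (y2 : F) := by ring
  have vlt : w.valuation F ((y1 : F) * (t : F) ^ q - (s : F) ^ q * (y2 : F)) < 1 := by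
    refine Valuation.map_sub_lt _ ?_ ?_
    · rw [map_mul, vtq, mul_one]
      exact vy1
    · rw [map_mul]
      exact lt_of_le_of_lt (mul_le_of_le_one_left' vsq) vy2
  have vres : w.valuation F (σ x - x ^ q) < 1 := by
    rw [← key, map_mul, map_mul, vσt, vtq, mul_one, mul_one] at vlt
    exact vlt
  have hfin := (hVw (σ x - x ^ q)).2.mpr vres
  exact hfin

end Pool.Agent.MU3V
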