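import Pool.Agent.MU3.StV2

/-!
# MU3, block V: module MEMC (helper18)
-/

set_option autoImplicit false

namespace Pool.Agent.MU3V

open _root_.MU3 Pool.Agent.MU3A Pool.Agent.MU3B Pool.Agent.MU3C Pool.Agent.RI

noncomputable section

namespace MEMC18

variable {A B : ℤ}

lemma cls_out (m : OO A B) (x : OO A B ⧸ Ideal.span {m}) : cls m (Quotient.out x) = x :=
  Quotient.out_eq x

lemma cls_eq (m x y : OO A B) : cls m x = cls m y ↔ m ∣ x - y := by
  rw [cls, cls, Ideal.Quotient.eq, Ideal.mem_span_singleton]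

lemma cls_mul (m x y : OO A B) : cls m (x * y) = cls m x * cls m y := map_mul _ x y

/-- `Θ(x u)` depends only on the class of `x`. -/
lemma theta_cls (hTIN : St_TIN) {L : PeriodPair} {Om : ℂ} (hc : Case A B) (hCM : IsCM A B L Om)
    {m : OO A B} (hm : m ≠ 0) {a : ℂ} {H : Finset ℂ} (hH : IsHalf L a H) {x y : OO A B}
    (h : cls m x = cls m y) :
    ThetaH L H (emb x * (Om / emb m)) = ThetaH L H (emb y * (Om / emb m)) := by
  obtain ⟨-, -, h1⟩ := hTIN L a H H hH hH
  have h2 : emb (x - y) * (Om / emb m) ∈ L.lattice :=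
    (hCM.toIsLat.mul_div_mem_iff hc hm _).2 ((cls_eq m x y).1 h)
  have e : emb x * (Om / emb m) = emb y * (Om / emb m) + emb (x - y) * (Om / emb m) := by
    rw [emb_sub hc]
    ring
  rw [e, h1 _ _ h2]

/-- the set `XX` is finite -/
lemma fin_XX {L : PeriodPair} {m : OO A B} [FiniteDimensional (kk A B) (TF L m)]
    (h1 : ∀ (F : IntermediateField (kk A B) ℂ) (σ : F →ₐ[kk A B] ℂ) (a b : OO A B), TF L m ≤ F →
      Act L σ m a → Act L σ m b → m ∣ a - b)
    {D : IntermediateField ℚ ℂ} (h : kk A B ≤ D)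
    (τ : letI := algC h; D ≃ₐ[kk A B] D) : (XX L m h τ).Finite := by
  classical
  let f : (TF L m ≃ₐ[kk A B] TF L m) → (OO A B ⧸ Ideal.span {m}) := fun σ =>
    if hb : ∃ b, Act L (em σ) m b then cls m hb.choose else 0
  refine (Set.finite_range f).subset fun x hx => ?_
  obtain ⟨σ, hσ, -⟩ := hx
  have hb : ∃ b, Act L (em σ) m b := ⟨_, hσ⟩
  refine ⟨σ, ?_⟩
  have e : f σ = cls m hb.choose := dif_pos hb
  rw [e]
  have h2 := h1 (TF L m) (em σ) _ _ le_rfl hb.choose_spec hσ
  rw [(cls_eq m _ _).2 h2, cls_out]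

end MEMC18

open MEMC18 in
theorem tw_MEMC (hTHG : Sw_THG) (hXXG : Sw_XXG) (hNRM : Sa_NRM) (hACT : Sa_ACT) (hGAL : Sa_GAL)
    (hTNZ : St_TNZ) (hTIN : St_TIN) : Sw_MEMC := by
  classical
  intro A B L Om hc hCM m hm hmu a H ha hcop hH D h hsub
  let _ := algC h
  obtain ⟨hfd, hgal⟩ := hNRM A B L Om hc hCM m hm
  obtain ⟨A1, -, -, -, -, -, -, -⟩ := hACT A B L Om hc hCM m hm
  obtain ⟨-, X2, X3, -⟩ := hXXG A B L Om hc hCM m hm D h hsub
  have hfin : ∀ τ : D ≃ₐ[kk A B] D, (XX L m h τ).Finite := fun τ => fin_XX A1 h τ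
  have h0 := emb_ne_zero hc hm
  -- elements of `XX`
  have hcopX : ∀ (τ : D ≃ₐ[kk A B] D) (x : OO A B ⧸ Ideal.span {m}), x ∈ XX L m h τ →
      IsCoprime (Quotient.out x) m := by
    rintro τ x ⟨σ, hσ, -⟩
    exact hσ.1
  have hnot : ∀ x : OO A B, IsCoprime x m → emb x * (Om / emb m) ∉ L.lattice := by
    intro x hx hL
    have h1 := (hCM.toIsLat.mul_div_mem_iff hc hm x).1 hL
    exact hmu (hx.isUnit_of_dvd' h1 dvd_rfl)
  have htor : ∀ x : OO A B, emb m * (emb x * (Om / emb m)) ∈ L.lattice := by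
    intro x
    exact (hCM.toIsLat.torsion_iff hc hm _).2 ⟨x, rfl⟩
  obtain ⟨θ, hθ⟩ : ∃ θ : (OO A B ⧸ Ideal.span {m}) → ℂ,
      θ = fun x => ThetaH L H (emb (Quotient.out x) * (Om / emb m)) := ⟨_, rfl⟩
  have hθc : ∀ x : OO A B, θ (cls m x) = ThetaH L H (emb x * (Om / emb m)) := by
    intro x
    rw [hθ]
    exact theta_cls hTIN hc hCM hm hH (cls_out m _)
  have hcc : ∀ τ : D ≃ₐ[kk A B] D, cc L Om m H h τ = ∏ᶠ x ∈ XX L m h τ, θ x := by
    intro τ
    rw [hθ]
    rfl
  -- lift to the field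
  obtain ⟨f, hf⟩ : ∃ f : (OO A B ⧸ Ideal.span {m}) → TF L m,
      f = fun x => if hx : θ x ∈ TF L m then ⟨θ x, hx⟩ else 1 := ⟨_, rfl⟩
  have hfx : ∀ (τ : D ≃ₐ[kk A B] D) (x : OO A B ⧸ Ideal.span {m}), x ∈ XX L m h τ →
      ((f x : TF L m) : ℂ) = θ x ∧ ∀ (σ : TF L m →ₐ[kk A B] ℂ) (b : OO A B), Act L σ m b →
        σ (f x) = θ (cls m b * x) := by
    intro τ x hx
    obtain ⟨hz, h1⟩ := hTHG A B L Om hc hCM m hm a H ha hH (emb (Quotient.out x) * (Om / emb m))
      (htor _) (hnot _ (hcopX τ x hx))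
    have hz' : θ x ∈ TF L m := by
      rw [hθ]
      exact hz
    have e : f x = ⟨θ x, hz'⟩ := by
      rw [hf]
      exact dif_pos hz'
    refine ⟨by rw [e], fun σ b hb => ?_⟩
    have e2 : f x = ⟨ThetaH L H (emb (Quotient.out x) * (Om / emb m)), hz⟩ := by
      rw [e]
      apply Subtype.ext
      exact congrFun hθ x
    rw [e2, h1 σ b hb]
    have e3 : cls m b * x = cls m (b * Quotient.out x) := by
      rw [cls_mul, cls_out]
    rw [e3, hθc, emb_mul hc, mul_assoc]
  -- the action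
  have key : ∀ τ : D ≃ₐ[kk A B] D, ∃ P : TF L m, (P : ℂ) = cc L Om m H h τ ∧
      ∀ (σ : TF L m ≃ₐ[kk A B] TF L m) (b : OO A B) (τ' : D ≃ₐ[kk A B] D),
        Act L (em σ) m b → Ext1 h τ' σ → ((σ P : TF L m) : ℂ) = cc L Om m H h (τ' * τ) := by
    intro τ
    refine ⟨∏ᶠ x ∈ XX L m h τ, f x, ?_, ?_⟩
    · have h1 := MonoidHom.map_finprod_mem f
        ((TF L m).val : TF L m →ₐ[kk A B] ℂ).toRingHom.toMonoidHom (hfin τ)
      refine h1.trans ?_
      rw [hcc]
      exact finprod_mem_congr rfl fun x hx => (hfx τ x hx).1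
    · intro σ b τ' hb hσ
      have h1 := MonoidHom.map_finprod_mem f (em σ).toRingHom.toMonoidHom (hfin τ)
      refine h1.trans ?_
      rw [hcc]
      obtain ⟨u, v, huv⟩ := hb.1
      have hub : cls m u * cls m b = 1 := by
        rw [← cls_mul]
        have h2 : cls m (u * b) = cls m 1 := by
          rw [cls_eq]
          exact ⟨-v, by linear_combination huv⟩
        rw [h2]
        exact map_one _
      refine finprod_mem_eq_of_bijOn (fun x => cls m b * x) ⟨?_, ?_, ?_⟩ ?_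
      · intro x hx
        have h2 := (X3 σ b (Quotient.out x) τ τ' hb hσ).1 (by rwa [cls_out])
        rw [cls_mul, cls_out] at h2
        exact h2
      · intro x _ y _ hxy
        have h2 : cls m b * x = cls m b * y := hxy
        have h3 := congrArg (fun t => cls m u * t) h2
        simp only [← mul_assoc, hub, one_mul] at h3
        exact h3
      · intro y hy
        have e : cls m (b * (u * Quotient.out y)) = y := by
          rw [cls_mul, cls_mul, cls_out, ← mul_assoc, mul_comm (cls m b), hub, one_mul]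
        have h2 := (X3 σ b (u * Quotient.out y) τ τ' hb hσ).2 (by rwa [e])
        refine ⟨_, h2, ?_⟩
        show cls m b * cls m (u * Quotient.out y) = y
        rw [← cls_mul, e]
      · intro x hx
        exact (hfx τ x hx).2 (em σ) b hb
  -- the subfield
  let E : IntermediateField (kk A B) (TF L m) :=
    (IntermediateField.extendScalars h).comap (TF L m).val
  have hE : ∀ y : TF L m, y ∈ E ↔ (y : ℂ) ∈ D := fun y => Iff.rfl
  refine ⟨fun τ => ⟨?_, ?_⟩, ?_⟩
  · obtain ⟨P, hP, hPσ⟩ := key τ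
    rw [← hP, ← hE, ← IsGalois.fixedField_fixingSubgroup E, IntermediateField.mem_fixedField_iff]
    intro σ hσ
    rw [IntermediateField.mem_fixingSubgroup_iff] at hσ
    obtain ⟨b, hb⟩ := hGAL A B L Om hc hCM m hm (TF L m) le_rfl (em σ)
    have hext : Ext1 h (1 : D ≃ₐ[kk A B] D) σ := by
      intro y hy
      have h1 := hσ ⟨y, hy⟩ ((hE _).2 y.2)
      rw [h1]
      rfl
    have h2 := hPσ σ b 1 hb hext
    rw [one_mul, ← hP] at h2
    exact Subtype.ext h2
  · rw [hcc]
    refine finprod_mem_induction (p := fun z : ℂ => z ≠ 0) one_ne_zero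
      (fun _ _ => mul_ne_zero) fun x hx => ?_
    have hx1 := hcopX τ x hx
    have hxL := hnot _ hx1
    have haL : ∀ w ∈ L.lattice, (a : ℂ) * w ∈ L.lattice := by
      intro w hw
      have := L.lattice.smul_mem a hw
      rwa [zsmul_eq_mul] at this
    rw [hθ]
    intro h1
    have h2 := (hTNZ L a H haL hH _ hxL).1 h1
    have e : (a : ℂ) * (emb (Quotient.out x) * (Om / emb m)) =
        emb ((a : OO A B) * Quotient.out x) * (Om / emb m) := by
      rw [emb_mul hc, emb_intCast hc]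
      ring
    rw [e] at h2
    exact hnot _ (hcop.mul_left hx1) h2
  · intro τ h1
    obtain ⟨σ, b, hb, hσ⟩ := X2 τ
    obtain ⟨P, hP, hPσ⟩ := key 1
    have h2 := hPσ σ b τ hb hσ
    rw [mul_one] at h2
    rw [← h2]
    have hy : cc L Om m H h 1 ∈ TF L m := by
      rw [← hP]
      exact P.2
    have h3 := hσ ⟨cc L Om m H h 1, h1⟩ hy
    rw [← h3]
    have e : (⟨cc L Om m H h 1, hy⟩ : TF L m) = P := Subtype.ext hP.symm
    rw [e]

end

end Pool.Agent.MU3V
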