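import Pool.Agent.MU3.StV2

/-!
# MU3, block V, PRL: the primes of degree one of `k`
-/

set_option autoImplicit false

open NumberField

namespace Pool.Agent.MU3V

open _root_.MU3 Pool.Agent.MU3A Pool.Agent.MU3B Pool.Agent.MU3C

noncomputable section

namespace PRL

variable {A B : ℤ}

theorem isIntegral_ek (hI : Sa_INT) (h : Case A B) (y : OO A B) : IsIntegral ℤ (ek y) := by
  have h1 : IsIntegral ℤ (emb y) := ((hI A B h).2.2.2 (emb y) (emb_mem y)).2 ⟨y, rfl⟩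
  have h2 : algebraMap (kk A B) ℂ (ek y) = emb y := rfl
  rw [← h2] at h1
  exact (isIntegral_algebraMap_iff (algebraMap (kk A B) ℂ).injective).1 h1

theorem ext' {x y : 𝓞 (kk A B)} (h : ((x : kk A B) : ℂ) = ((y : kk A B) : ℂ)) : x = y :=
  RingOfIntegers.ext (Subtype.ext h)

/-- the ring homomorphism `O → 𝓞 k` -/
def phi (hI : Sa_INT) (h : Case A B) : OO A B →+* 𝓞 (kk A B) where
  toFun y := ⟨ek y, isIntegral_ek hI h y⟩
  map_one' := ext' (emb_one h)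
  map_zero' := ext' (emb_zero h)
  map_add' x y := ext' (emb_add h x y)
  map_mul' x y := ext' (emb_mul h x y)

theorem phi_val (hI : Sa_INT) (h : Case A B) (y : OO A B) :
    ((phi hI h y : kk A B) : ℂ) = emb y := rfl

theorem phi_surj (hI : Sa_INT) (h : Case A B) (x : 𝓞 (kk A B)) : ∃ y, phi hI h y = x := by
  have h1 : IsIntegral ℤ ((x : kk A B) : ℂ) := by
    have h2 := x.isIntegral_coe
    exact (isIntegral_algebraMap_iff (algebraMap (kk A B) ℂ).injective).2 h2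
  obtain ⟨y, hy⟩ := ((hI A B h).2.2.2 _ (x : kk A B).2).1 h1
  exact ⟨y, ext' hy.symm⟩

end PRL

open PRL in
/-- the primes of degree one of `k` -/
theorem tw_PRL (hI : Sa_INT) (hP : Sa_PID) : Sw_PRL := by
  intro A B h P hPp q hq hc
  obtain ⟨hdom, hpir, hnn, hmul, h0, -, -, hu, -, -⟩ := hP A B h
  have : Fact q.Prime := ⟨hq⟩
  have hfin : Finite (𝓞 (kk A B) ⧸ P) := Nat.finite_of_card_ne_zero (by rw [hc]; exact hq.ne_zero)
  have hne : Nontrivial (𝓞 (kk A B) ⧸ P) := Ideal.Quotient.nontrivial_iff.2 hPp.ne_top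
  set ψ : OO A B →+* 𝓞 (kk A B) ⧸ P := (Ideal.Quotient.mk P).comp (phi hI h) with hψ
  obtain ⟨lam, hlam⟩ := (hpir.principal (RingHom.ker ψ)).principal
  have hk : ∀ y : OO A B, ψ y = 0 ↔ lam ∣ y := by
    intro y
    rw [← RingHom.mem_ker, hlam, Ideal.submodule_span_eq, Ideal.mem_span_singleton]
  have hxy : ∀ (x : 𝓞 (kk A B)) (y : OO A B), ((x : kk A B) : ℂ) = emb y → (x ∈ P ↔ lam ∣ y) := by
    intro x y hx
    have h1 : x = phi hI h y := ext' hx
    rw [← hk, h1, hψ, RingHom.comp_apply, Ideal.Quotient.eq_zero_iff_mem]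
  refine ⟨lam, ?_, hxy⟩
  have hq1 : lam ∣ (q : OO A B) := by
    rw [← hk, map_natCast]
    have h1 := card_nsmul_eq_zero' (x := (1 : 𝓞 (kk A B) ⧸ P))
    rwa [hc, nsmul_eq_mul, mul_one] at h1
  obtain ⟨n, hn⟩ : ∃ n : ℤ, lam ∣ (⟨0, 1⟩ : OO A B) - n := by
    have h1 : ψ ⟨0, 1⟩ ∈ AddSubgroup.zmultiples (1 : 𝓞 (kk A B) ⧸ P) :=
      mem_zmultiples_of_prime_card hc one_ne_zero
    obtain ⟨n, hn⟩ := AddSubgroup.mem_zmultiples_iff.1 h1
    refine ⟨n, (hk _).1 ?_⟩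
    rw [map_sub, map_intCast, ← hn, zsmul_eq_mul, mul_one, sub_self]
  have hnq : nm (q : OO A B) = (q : ℤ) ^ 2 := by
    simp [nm]
  obtain ⟨r, hr⟩ := hq1
  have h1 : nm lam * nm r = (q : ℤ) ^ 2 := by rw [← hmul, ← hr, hnq]
  have h2 : (nm lam).natAbs ∣ q ^ 2 := by
    have h3 : nm lam ∣ ((q ^ 2 : ℕ) : ℤ) := ⟨nm r, by rw [h1]; push_cast; rfl⟩
    exact Int.natAbs_dvd_natAbs.2 h3 |>.trans (by rw [Int.natAbs_natCast])
  obtain ⟨i, hi, hi'⟩ := (Nat.dvd_prime_pow hq).1 h2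
  have h3 : nm lam = (q : ℤ) ^ i := by
    rw [← Int.natAbs_of_nonneg (hnn lam), hi']
    push_cast
    rfl
  interval_cases i
  · exfalso
    rw [pow_zero, ← hu] at h3
    have h4 : ψ 1 = 0 := (hk 1).2 h3.dvd
    rw [map_one] at h4
    exact one_ne_zero h4
  · rw [h3, pow_one]
  · exfalso
    have hq0 : (q : ℤ) ^ 2 ≠ 0 := pow_ne_zero _ (by exact_mod_cast hq.ne_zero)
    have h4 : nm r = 1 := by
      rw [h3] at h1
      exact mul_left_cancel₀ hq0 (by rw [h1, mul_one])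
    have h5 : IsUnit r := (hu r).2 h4
    have h6 : (q : OO A B) ∣ lam := by
      rw [hr]
      obtain ⟨s, hs⟩ := h5
      exact ⟨(s⁻¹ : (OO A B)ˣ), by rw [← hs, mul_assoc, Units.mul_inv, mul_one]⟩
    obtain ⟨s, hs⟩ := h6.trans hn
    have h7 := congrArg QuadraticAlgebra.im hs
    simp at h7
    have h8 : (q : ℤ) ∣ 1 := ⟨s.im, h7⟩
    have h9 := Int.eq_one_of_dvd_one (by positivity) h8
    exact hq.one_lt.ne' (by exact_mod_cast h9)

end

end Pool.Agent.MU3V
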