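import Pool.Agent.MU3.StV2

/-!
# MU3V, THG: Galois action on the values of `Θ_a` at torsion points
-/

set_option autoImplicit false

open WeierstrassCurve Polynomial NumberField IsDedekindDomain

namespace Pool.Agent.MU3V

open _root_.MU3 Pool.Agent.MU3A Pool.Agent.MU3B Pool.Agent.MU3C Pool.Agent.RI

noncomputable section

namespace W_THG

variable {A B : ℤ}

/-- integers act on the lattice -/
theorem lat_int (L : PeriodPair) (a : ℤ) {z : ℂ} (hz : z ∈ L.lattice) :
    (a : ℂ) * z ∈ L.lattice := by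
  have h := zsmul_mem hz a
  rwa [zsmul_eq_mul] at h

/-- the image of a half system under multiplication by an element prime to `a` -/
theorem isHalf_mul {L : PeriodPair} {Om : ℂ} (h : Case A B) (hL : IsLat A B L Om) (a : ℤ)
    (H : Finset ℂ) (hH : IsHalf L a H) (b : OO A B) (hb : IsCoprime b (a : OO A B)) :
    IsHalf L a (H.image (fun p => emb b * p)) := by
  have hea : emb ((a : ℤ) : OO A B) = (a : ℂ) := emb_intCast h a
  have hker : ∀ y : ℂ, emb b * y ∈ L.lattice → (a : ℂ) * y ∈ L.lattice → y ∈ L.lattice := by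
    intro y h1 h2
    rw [← hea] at h2
    exact hL.mem_of_coprime h hb h1 h2
  constructor
  · intro q hq
    obtain ⟨p, hp, rfl⟩ := Finset.mem_image.1 hq
    have h1 := hL.emb_mul_mem h b (hH.mem p hp)
    have e : (a : ℂ) * (emb b * p) = emb b * ((a : ℂ) * p) := by ring
    rw [e]
    exact h1
  · intro q hq hcon
    obtain ⟨p, hp, rfl⟩ := Finset.mem_image.1 hq
    refine hH.ne p hp (hker _ ?_ ?_)
    · have e : emb b * (2 * p) = 2 * (emb b * p) := by ring
      rw [e]
      exact hcon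
    · have e : (a : ℂ) * (2 * p) = (a : ℂ) * p + (a : ℂ) * p := by ring
      rw [e]
      exact add_mem (hH.mem p hp) (hH.mem p hp)
  · intro q hq q' hq' hqq
    obtain ⟨p, hp, rfl⟩ := Finset.mem_image.1 hq
    obtain ⟨p', hp', rfl⟩ := Finset.mem_image.1 hq'
    have h1 : p - p' ∈ L.lattice := by
      refine hker _ ?_ ?_
      · rw [mul_sub]
        exact hqq
      · rw [mul_sub]
        exact sub_mem (hH.mem p hp) (hH.mem p' hp')
    rw [hH.inj p hp p' hp' h1]
  · intro q hq q' hq' hqq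
    obtain ⟨p, hp, rfl⟩ := Finset.mem_image.1 hq
    obtain ⟨p', hp', rfl⟩ := Finset.mem_image.1 hq'
    refine hH.neg p hp p' hp' (hker _ ?_ ?_)
    · rw [mul_add]
      exact hqq
    · rw [mul_add]
      exact add_mem (hH.mem p hp) (hH.mem p' hp')
  · intro y hy hy0
    obtain ⟨c, d, hcd⟩ := hb
    have hcd' : emb c * emb b + emb d * (a : ℂ) = 1 := by
      have h1 := congrArg emb hcd
      rw [emb_add h, emb_mul h, emb_mul h, emb_one h, hea] at h1
      exact h1
    have h2 : (a : ℂ) * (emb c * y) ∈ L.lattice := by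
      have e : (a : ℂ) * (emb c * y) = emb c * ((a : ℂ) * y) := by ring
      rw [e]
      exact hL.emb_mul_mem h c hy
    have h4 : emb d * ((a : ℂ) * y) ∈ L.lattice := hL.emb_mul_mem h d hy
    have h3 : emb c * y ∉ L.lattice := by
      intro hcon
      apply hy0
      have h5 := add_mem (hL.emb_mul_mem h b hcon) h4
      have e : emb b * (emb c * y) + emb d * ((a : ℂ) * y) = y := by
        linear_combination y * hcd'
      rwa [e] at h5
    obtain ⟨q, hq, hq'⟩ := hH.surj (emb c * y) h2 h3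
    refine ⟨emb b * q, Finset.mem_image_of_mem _ hq, ?_⟩
    rcases hq' with h5 | h5
    · left
      have h6 := add_mem (hL.emb_mul_mem h b h5) h4
      have e : emb b * (emb c * y - q) + emb d * ((a : ℂ) * y) = y - emb b * q := by
        linear_combination y * hcd'
      rwa [e] at h6
    · right
      have h6 := add_mem (hL.emb_mul_mem h b h5) h4
      have e : emb b * (emb c * y + q) + emb d * ((a : ℂ) * y) = y + emb b * q := by
        linear_combination y * hcd'
      rwa [e] at h6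

/-- the action at the level `m a` -/
theorem theta_act {L : PeriodPair} {Om : ℂ} (h : Case A B) (hL : IsLat A B L Om) (hTIN : St_TIN)
    (m : OO A B) (a : ℤ) (H : Finset ℂ) (hH : IsHalf L a H) (z : ℂ)
    (hz : emb m * z ∈ L.lattice) (hz0 : z ∉ L.lattice) (F : IntermediateField (kk A B) ℂ)
    (hF : TF L (m * (a : OO A B)) ≤ F) :
    ∃ hm : ThetaH L H z ∈ F, ∀ (σ : F →ₐ[kk A B] ℂ) (b : OO A B),
      Act L σ (m * (a : OO A B)) b → σ ⟨ThetaH L H z, hm⟩ = ThetaH L H (emb b * z) := by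
  classical
  have hx : ∀ y, emb (m * (a : OO A B)) * y ∈ L.lattice → y ∉ L.lattice → xx A B L y ∈ F :=
    fun y h1 h2 => hF (IntermediateField.subset_adjoin _ _ ⟨y, h1, h2, Or.inl rfl⟩)
  have hea : emb (m * (a : OO A B)) = emb m * (a : ℂ) := by
    rw [emb_mul h, emb_intCast h]
  have hzN : emb (m * (a : OO A B)) * z ∈ L.lattice := by
    rw [hea]
    have e : emb m * (a : ℂ) * z = (a : ℂ) * (emb m * z) := by ring
    rw [e]
    exact lat_int L a hz
  have hpN : ∀ p ∈ H, emb (m * (a : OO A B)) * p ∈ L.lattice := by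
    intro p hp
    rw [hea, mul_assoc]
    exact hL.emb_mul_mem h m (hH.mem p hp)
  have hp0 : ∀ p ∈ H, p ∉ L.lattice := by
    intro p hp hcon
    apply hH.ne p hp
    rw [two_mul]
    exact add_mem hcon hcon
  let f : ℂ → F := fun p => if hp : xx A B L p ∈ F then ⟨xx A B L p, hp⟩ else 0
  have hf : ∀ y (hy : xx A B L y ∈ F), f y = ⟨xx A B L y, hy⟩ := fun y hy => dif_pos hy
  have hprod : ((∏ p ∈ H, (f z - f p) : F) : ℂ) = ThetaH L H z := by
    have e : ((∏ p ∈ H, (f z - f p) : F) : ℂ) = ∏ p ∈ H, ((f z - f p : F) : ℂ) :=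
      map_prod F.val _ _
    rw [e]
    unfold ThetaH
    refine Finset.prod_congr rfl fun p hp => ?_
    rw [hf z (hx z hzN hz0), hf p (hx p (hpN p hp) (hp0 p hp))]
    show xx A B L z - xx A B L p = _
    unfold xx
    ring
  have hm : ThetaH L H z ∈ F := by
    rw [← hprod]
    exact (∏ p ∈ H, (f z - f p) : F).2
  refine ⟨hm, fun σ b hσ => ?_⟩
  have e1 : (⟨ThetaH L H z, hm⟩ : F) = ∏ p ∈ H, (f z - f p) := Subtype.ext hprod.symm
  rw [e1, map_prod]
  have e2 : ∀ p ∈ H, σ (f z - f p) =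
      L.weierstrassP (emb b * z) - L.weierstrassP (emb b * p) := by
    intro p hp
    rw [map_sub, hf z (hx z hzN hz0), hf p (hx p (hpN p hp) (hp0 p hp)),
      (hσ.2 z hzN hz0).2.1 _, (hσ.2 p (hpN p hp) (hp0 p hp)).2.1 _]
    unfold xx
    ring
  rw [Finset.prod_congr rfl e2]
  have hb : IsCoprime b (a : OO A B) := hσ.1.of_isCoprime_of_dvd_right (dvd_mul_left _ _)
  have hH' := isHalf_mul h hL a H hH b hb
  rw [(hTIN L a H _ hH hH').1]
  unfold ThetaH
  rw [Finset.prod_image]
  intro p hp p' hp' hpp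
  have hpp' : emb b * p = emb b * p' := hpp
  apply hH.inj p hp p' hp'
  have hea' : emb ((a : ℤ) : OO A B) = (a : ℂ) := emb_intCast h a
  refine hL.mem_of_coprime h hb ?_ ?_
  · rw [mul_sub, hpp', sub_self]
    exact zero_mem _
  · rw [hea', mul_sub]
    exact sub_mem (hH.mem p hp) (hH.mem p' hp')

/-- extension of embeddings -/
theorem ext_hom {k : Type} [Field k] [Algebra k ℂ] (F F' : IntermediateField k ℂ) (hle : F ≤ F')
    [FiniteDimensional k F'] (σ : F →ₐ[k] ℂ) :
    ∃ σ' : F' →ₐ[k] ℂ, σ'.comp (IntermediateField.inclusion hle) = σ := by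
  obtain ⟨S, hS⟩ : ∃ S : Set ℂ, F' = IntermediateField.adjoin k S :=
    ⟨F', (IntermediateField.adjoin_self k F').symm⟩
  subst hS
  refine IntermediateField.exists_algHom_adjoin_of_splits (K := ℂ) ?_ σ hle
  intro s hs
  refine ⟨?_, IsAlgClosed.splits _⟩
  have h5 : IsIntegral k (⟨s, IntermediateField.subset_adjoin _ _ hs⟩ :
    IntermediateField.adjoin k S) := Algebra.IsIntegral.isIntegral _
  exact h5.map (IntermediateField.adjoin k S).val

/-- elements fixed by the Galois group -/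
theorem mem_of_fixed {k : Type} [Field k] [Algebra k ℂ] (F F' : IntermediateField k ℂ)
    (hle : F ≤ F') [FiniteDimensional k F'] [IsGalois k F'] (x : F')
    (hx : ∀ σ : F' ≃ₐ[k] F', (∀ y : F, ((σ (IntermediateField.inclusion hle y) : F') : ℂ) = y) →
      σ x = x) : (x : ℂ) ∈ F := by
  have hEmem : ∀ y : F', y ∈ F.comap F'.val ↔ (y : ℂ) ∈ F := fun y => Iff.rfl
  have hx0 : x ∈ F.comap F'.val := by
    rw [← IsGalois.fixedField_fixingSubgroup (F.comap F'.val),
      IntermediateField.mem_fixedField_iff]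
    intro σ hσ
    rw [IntermediateField.mem_fixingSubgroup_iff] at hσ
    refine hx σ fun y => ?_
    rw [hσ (IntermediateField.inclusion hle y) ((hEmem _).2 y.2)]
    rfl
  exact (hEmem _).1 hx0

end W_THG

theorem tw_THG (h1 : Sa_NRM) (h2 : Sa_GAL) (h3 : Sa_ACT) (h4 : St_TIN) : Sw_THG := by
  intro A B L Om h hL m hm a H ha hH z hz hz0
  obtain ⟨N, hN⟩ : ∃ N : OO A B, N = m * (a : OO A B) := ⟨_, rfl⟩
  have hea : emb N = emb m * (a : ℂ) := by
    rw [hN, emb_mul h, emb_intCast h]
  have hN0 : N ≠ 0 := by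
    intro h0
    have h5 : emb N = 0 := by rw [h0, emb_zero h]
    rw [hea] at h5
    rcases mul_eq_zero.1 h5 with h6 | h6
    · exact emb_ne_zero h hm h6
    · exact ha (by exact_mod_cast h6)
  have hmN : m ∣ N := by
    rw [hN]
    exact dvd_mul_right _ _
  have hle : TF L m ≤ TF L N := by
    apply IntermediateField.adjoin.mono
    rintro c ⟨y, hy, hy0, hc⟩
    refine ⟨y, ?_, hy0, hc⟩
    rw [hea]
    have e : emb m * (a : ℂ) * y = (a : ℂ) * (emb m * y) := by ring
    rw [e]
    exact W_THG.lat_int L a hy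
  obtain ⟨hfd, hgal⟩ := h1 A B L Om h hL N hN0
  obtain ⟨hmem, hact⟩ := W_THG.theta_act h hL.toIsLat h4 m a H hH z hz hz0 (TF L N)
    (by rw [← hN])
  rw [← hN] at hact
  obtain ⟨c1, -, -, -, -, -, c7, c8⟩ := h3 A B L Om h hL m hm
  obtain ⟨-, -, d3, -, -, -, -, -⟩ := h3 A B L Om h hL N hN0
  -- congruent elements give the same value
  have hcong : ∀ b b' : OO A B, m ∣ b' - b →
      ThetaH L H (emb b' * z) = ThetaH L H (emb b * z) := by
    rintro b b' ⟨t, ht⟩
    have e : emb b' * z = emb b * z + emb t * (emb m * z) := by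
      have h5 := congrArg emb ht
      rw [emb_sub h, emb_mul h] at h5
      linear_combination z * h5
    rw [e]
    exact (h4 L a H H hH hH).2.2 _ _ (hL.toIsLat.emb_mul_mem h t hz)
  -- membership
  have hz' : ThetaH L H z ∈ TF L m := by
    refine W_THG.mem_of_fixed (TF L m) (TF L N) hle ⟨ThetaH L H z, hmem⟩ fun σ hσ => ?_
    obtain ⟨b, hb⟩ := h2 A B L Om h hL N hN0 (TF L N) le_rfl (em σ)
    have hv := hact (em σ) b hb
    have hb' : Act L ((em σ).comp (IntermediateField.inclusion hle)) m b :=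
      c8 _ _ hle _ _ (d3 _ _ _ _ hmN hb)
    have heq : (em σ).comp (IntermediateField.inclusion hle) =
        em (1 : TF L m ≃ₐ[kk A B] TF L m) := AlgHom.ext fun y => hσ y
    rw [heq] at hb'
    have h5 := c1 _ _ _ _ le_rfl hb' (c7 _ le_rfl)
    apply Subtype.ext
    have h6 : em σ ⟨ThetaH L H z, hmem⟩ = ThetaH L H z := by
      rw [hv, hcong 1 b h5, emb_one h, one_mul]
    exact h6
  refine ⟨hz', fun σ b hσ => ?_⟩
  -- extend the embedding
  obtain ⟨σ', hσ'⟩ := W_THG.ext_hom (TF L m) (TF L N) hle σ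
  obtain ⟨b', hb'⟩ := h2 A B L Om h hL N hN0 (TF L N) le_rfl σ'
  have hb2 : Act L (σ'.comp (IntermediateField.inclusion hle)) m b' :=
    c8 _ _ hle _ _ (d3 _ _ _ _ hmN hb')
  rw [hσ'] at hb2
  have h5 := c1 _ _ _ _ le_rfl hb2 hσ
  have h6 := hact σ' b' hb'
  have h7 := DFunLike.congr_fun hσ' (⟨ThetaH L H z, hz'⟩ : TF L m)
  rw [AlgHom.comp_apply] at h7
  rw [← hcong b b' h5, ← h6, ← h7]
  rfl

end

end Pool.Agent.MU3V
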