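import Pool.Agent.MU3.StV2

/-!
# MU3, block V: module TORV, torsion of order prime to the residue characteristic is not in `E₁`
-/

set_option autoImplicit false

open WeierstrassCurve Polynomial NumberField IsDedekindDomain

namespace Pool.Agent.MU3V

open _root_.MU3 Pool.Agent.MU3A Pool.Agent.MU3B Pool.Agent.MU3C

theorem tw_TORV (h : Sa_PID) : Sw_TORV := by
  intro A B L Om ξ hc hL hξ V h2 m hm z hz hE
  obtain ⟨-, -, hnn, -⟩ := h A B hc
  obtain ⟨n, hn⟩ := Int.eq_ofNat_of_zero_le (hnn m)
  have h1 : emb (star m) * (emb m * z) = (n : ℂ) * z := by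
    rw [← mul_assoc, ← emb_mul hc, ← emb_natCast hc n]
    congr 2
    have h3 := QuadraticAlgebra.algebraMap_norm_eq_mul_star m
    have h4 : QuadraticAlgebra.norm m = (n : ℤ) := by
      rw [← hn, QuadraticAlgebra.norm_def]
      unfold nm
      ring
    rw [h4] at h3
    rw [mul_comm, ← h3]
    simp
  refine mem_of_nat_mul hc h2 hξ hE (n := n) ?_ ?_
  · have h5 : (((nm m : ℤ) : ℂ)) = (n : ℂ) := by rw [hn]; simp
    rwa [h5] at hm
  · rw [← h1]
    exact hL.toIsLat.emb_mul_mem hc (star m) hz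

end Pool.Agent.MU3V
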