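import Pool.Agent.MU3.StV2
import Mathlib.FieldTheory.Galois.Abelian

/-!
# MU3, block V, module XXG: `XX` and the group structure
-/

set_option autoImplicit false

open WeierstrassCurve Polynomial NumberField IsDedekindDomain

namespace Pool.Agent.MU3V

open _root_.MU3 Pool.Agent.MU3A Pool.Agent.MU3B Pool.Agent.MU3C Pool.Agent.RI

noncomputable section

namespace XXG

/-- abstract form: a subfield of a finite abelian extension -/
theorem abs_ext {k D F : Type} [Field k] [Field D] [Field F] [Algebra k D] [Algebra k F]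
    [FiniteDimensional k F] [IsGalois k F] (hc : ∀ σ τ : F ≃ₐ[k] F, σ * τ = τ * σ)
    (f : D →ₐ[k] F) :
    (∀ σ : F ≃ₐ[k] F, ∃ τ : D ≃ₐ[k] D, ∀ y, f (τ y) = σ (f y)) ∧
    ∀ τ : D ≃ₐ[k] D, ∃ σ : F ≃ₐ[k] F, ∀ y, f (τ y) = σ (f y) := by
  let _ : Algebra D F := f.toRingHom.toAlgebra
  have _ : IsScalarTower k D F := IsScalarTower.of_algebraMap_eq (fun x => (f.commutes x).symm)
  have _ : IsAbelianGalois k F := { toIsGalois := inferInstance, is_comm := ⟨hc⟩ }
  have _ : IsAbelianGalois k D := IsAbelianGalois.of_algHom f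
  have hcomm : ∀ (σ : F ≃ₐ[k] F) (y : D), f (σ.restrictNormal D y) = σ (f y) := fun σ y =>
    AlgEquiv.restrictNormal_commutes σ D y
  refine ⟨fun σ => ⟨σ.restrictNormal D, hcomm σ⟩, fun τ => ?_⟩
  obtain ⟨σ, hσ⟩ := AlgEquiv.restrictNormalHom_surjective (F := k) (K₁ := D) F τ
  refine ⟨σ, fun y => ?_⟩
  rw [← hcomm σ y, ← hσ]
  rfl

/-- the inclusion as a map of algebras -/
def incl {A B : ℤ} {D : IntermediateField ℚ ℂ} (h : kk A B ≤ D)
    {F : IntermediateField (kk A B) ℂ} (hs : Sub D F) :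
    letI := algC h
    D →ₐ[kk A B] F :=
  letI := algC h
  { toFun := fun y => ⟨y, hs y y.2⟩
    map_one' := rfl
    map_mul' := fun _ _ => rfl
    map_zero' := rfl
    map_add' := fun _ _ => rfl
    commutes' := fun _ => rfl }

end XXG

open XXG in
theorem tw_XXG (h1 : Sw_XXM) (h2 : Sa_ACT) (h3 : Sa_NRM) (h4 : Sa_GAL) : Sw_XXG := by
  intro A B L Om hcase hCM m hm D h hs
  let _ := algC h
  obtain ⟨a1, a2, a3, a4, a5, a6, a7, a8⟩ := h2 A B L Om hcase hCM m hm
  obtain ⟨n1, n2⟩ := h3 A B L Om hcase hCM m hm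
  have hXX := h1 A B L Om hcase hCM m hm D h
  obtain ⟨e1, e2⟩ := abs_ext a6 (incl h hs)
  have hext : ∀ (τ : D ≃ₐ[kk A B] D) (σ : TF L m ≃ₐ[kk A B] TF L m),
      Ext1 h τ σ ↔ ∀ y : D, incl h hs (τ y) = σ (incl h hs y) := by
    intro τ σ
    constructor
    · intro hE y
      exact Subtype.ext (hE y (hs y y.2)).symm
    · intro hE y hy
      exact (congrArg Subtype.val (hE y)).symm
  refine ⟨?_, ?_, ?_, ?_⟩
  · intro σ
    obtain ⟨τ, hτ⟩ := e1 σ
    exact ⟨τ, (hext τ σ).2 hτ⟩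
  · intro τ
    obtain ⟨σ, hσ⟩ := e2 τ
    obtain ⟨b, hb⟩ := h4 A B L Om hcase hCM m hm (TF L m) le_rfl (em σ)
    exact ⟨σ, b, hb, (hext τ σ).2 hσ⟩
  · intro σ b x τ τ' hb hE
    rw [hXX τ x, hXX (τ' * τ) (b * x)]
    constructor
    · rintro ⟨σ', hx, hE'⟩
      refine ⟨σ * σ', a4 _ σ σ' b x le_rfl hb hx, ?_⟩
      rw [hext] at hE hE' ⊢
      intro y
      rw [AlgEquiv.mul_apply, AlgEquiv.mul_apply, hE, hE']
    · rintro ⟨σ', hx, hE'⟩
      -- the inverse of `σ` as a power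
      have hpow : ∀ n : ℕ, Act L (em (σ ^ n)) m (b ^ n) := by
        intro n
        induction n with
        | zero =>
          rw [pow_zero, pow_zero]
          exact a7 _ le_rfl
        | succ n ih =>
          rw [pow_succ, pow_succ]
          exact a4 _ _ _ _ _ le_rfl ih hb
      obtain ⟨n, hn, hn1⟩ : ∃ n : ℕ, 0 < n ∧ σ ^ n = 1 :=
        ⟨orderOf σ, orderOf_pos σ, pow_orderOf_eq_one σ⟩
      obtain ⟨j, rfl⟩ : ∃ j, n = j + 1 := ⟨n - 1, by omega⟩
      have hinv : σ ^ j * σ = 1 := by rw [← pow_succ]; exact hn1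
      have hd : m ∣ b ^ (j + 1) - 1 := by
        have k1 := hpow (j + 1)
        rw [hn1] at k1
        exact a1 _ _ _ _ le_rfl k1 (a7 _ le_rfl)
      have k2 := a4 _ (σ ^ j) σ' (b ^ j) (b * x) le_rfl (hpow j) hx
      have k3 : m ∣ b ^ j * (b * x) - x := by
        obtain ⟨y, hy⟩ := hd
        refine ⟨y * x, ?_⟩
        linear_combination x * hy
      refine ⟨σ ^ j * σ', a2 _ _ _ _ k3 k2, ?_⟩
      rw [hext] at hE hE' ⊢
      intro y
      rw [AlgEquiv.mul_apply, ← hE' y, AlgEquiv.mul_apply, hE, ← AlgEquiv.mul_apply, hinv]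
      rfl
  · intro x τ τ' hx hx'
    rw [hXX τ x] at hx
    rw [hXX τ' x] at hx'
    obtain ⟨σ, k1, k2⟩ := hx
    obtain ⟨σ', k3, k4⟩ := hx'
    have k5 : em σ = em σ' := a5 _ _ x k1 k3
    have k6 : σ = σ' := by
      apply AlgEquiv.ext
      intro z
      exact Subtype.ext (DFunLike.congr_fun k5 z)
    subst k6
    rw [hext] at k2 k4
    apply AlgEquiv.ext
    intro y
    have k7 : incl h hs (τ y) = incl h hs (τ' y) := (k2 y).trans (k4 y).symm
    exact Subtype.ext (congrArg (fun z : TF L m => (z : ℂ)) k7)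

end

end Pool.Agent.MU3V
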