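import Pool.Agent.MU3.StV2

/-!
# MU3, block V: membership in `XX` (XXM)
-/

set_option autoImplicit false

namespace Pool.Agent.MU3V

open _root_.MU3 Pool.Agent.MU3A Pool.Agent.MU3B Pool.Agent.MU3C

/-- the chosen representative of the class of `x` is congruent to `x` -/
theorem out_cls {A B : ℤ} (m x : OO A B) : m ∣ Quotient.out (cls m x) - x := by
  rw [← Ideal.mem_span_singleton, ← Ideal.Quotient.mk_eq_mk_iff_sub_mem]
  exact Quotient.out_eq (cls m x)

theorem tw_XXM (h : Sa_ACT) : Sw_XXM := by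
  intro A B L Om hc hL m hm D hD τ x
  obtain ⟨-, h2, -⟩ := h A B L Om hc hL m hm
  constructor
  · rintro ⟨σ, h3, h4⟩
    exact ⟨σ, h2 _ _ _ _ (out_cls m x) h3, h4⟩
  · rintro ⟨σ, h3, h4⟩
    refine ⟨σ, h2 _ _ _ _ ?_ h3, h4⟩
    rw [← dvd_neg, neg_sub]
    exact out_cls m x

end Pool.Agent.MU3V
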