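import Pool.Agent.MU3.BAll
import Pool.Agent.MU3.FinD
import Pool.Agent.MU3.MDENSF
import Pool.Agent.MU3.A_ACT
import Pool.Agent.MU3.A_ALG
import Pool.Agent.MU3.A_CYC
import Pool.Agent.MU3.A_DENSF
import Pool.Agent.MU3.A_EQN
import Pool.Agent.MU3.A_EX
import Pool.Agent.MU3.A_FEX
import Pool.Agent.MU3.A_FR3
import Pool.Agent.MU3.A_GAL
import Pool.Agent.MU3.A_INT
import Pool.Agent.MU3.A_LAT0
import Pool.Agent.MU3.A_LAW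
import Pool.Agent.MU3.A_M11
import Pool.Agent.MU3.A_M8
import Pool.Agent.MU3.A_N11
import Pool.Agent.MU3.A_N11C
import Pool.Agent.MU3.A_N8
import Pool.Agent.MU3.A_N8P
import Pool.Agent.MU3.A_NEG
import Pool.Agent.MU3.A_NRM
import Pool.Agent.MU3.A_OMU
import Pool.Agent.MU3.A_PFG
import Pool.Agent.MU3.A_PID
import Pool.Agent.MU3.A_R11
import Pool.Agent.MU3.A_R8
import Pool.Agent.MU3.A_REP
import Pool.Agent.MU3.A_ROO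
import Pool.Agent.MU3.A_S5
import Pool.Agent.MU3.A_SCP
import Pool.Agent.MU3.A_T3
import Pool.Agent.MU3.A_TW2
import Pool.Agent.MU3.A_V3
import Pool.Agent.MU3.A_XI
import Pool.Agent.MU3.V_CARD
import Pool.Agent.MU3.V_CYCL
import Pool.Agent.MU3.V_DEG1
import Pool.Agent.MU3.V_EXT
import Pool.Agent.MU3.V_FRK
import Pool.Agent.MU3.V_INJ
import Pool.Agent.MU3.V_POL
import Pool.Agent.MU3.V_R2
import Pool.Agent.MU3.V_R4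
import Pool.Agent.MU3.V_R5
import Pool.Agent.MU3.V_TRA
import Pool.Agent.MU3.W_DIF
import Pool.Agent.MU3.W_DISI
import Pool.Agent.MU3.W_FIB
import Pool.Agent.MU3.W_FRD
import Pool.Agent.MU3.W_FROB
import Pool.Agent.MU3.W_HTOT
import Pool.Agent.MU3.W_I1
import Pool.Agent.MU3.W_INV
import Pool.Agent.MU3.W_KOL
import Pool.Agent.MU3.W_LOC
import Pool.Agent.MU3.W_MEMC
import Pool.Agent.MU3.W_PRL
import Pool.Agent.MU3.W_SUC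
import Pool.Agent.MU3.W_THG
import Pool.Agent.MU3.W_THU
import Pool.Agent.MU3.W_TORV
import Pool.Agent.MU3.W_XXG
import Pool.Agent.MU3.W_XXM

/-!
# MU3, blocks A and V: all statements, without hypotheses
-/

set_option autoImplicit false

namespace Pool.Agent.MU3X

open Pool.Agent.MU3A Pool.Agent.MU3V

theorem a_EQN : Sa_EQN := MU3A.ta_EQN MU3B.b_NEQ MU3B.b_ZER MU3B.b_DSC MU3B.b_P2
theorem a_LAW : Sa_LAW := MU3A.ta_LAW MU3B.b_ADD MU3B.b_DUP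
theorem a_XI : Sa_XI := MU3A.ta_XI a_EQN a_LAW
theorem a_TW2 : Sa_TW2 := MU3A.ta_TW2 MU3B.b_ADD MU3B.b_ZER MU3B.b_NEQ
theorem a_R8 : Sa_R8 := MU3A.ta_R8 MU3B.b_CMX MU3B.b_DUP MU3B.b_DSC MU3B.b_ZER MU3B.b_NEQ a_TW2
theorem a_N8 : Sa_N8 := MU3A.ta_N8 a_R8 a_EQN
theorem a_ROO : Sa_ROO := MU3A.ta_ROO a_TW2 MU3B.b_NEQ
theorem a_R11 : Sa_R11 := MU3A.ta_R11 MU3B.b_CMX MU3B.b_ADD MU3B.b_DUP MU3B.b_NEQ MU3B.b_DSC a_ROO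
theorem a_N11 : Sa_N11 := MU3A.ta_N11 a_R11 a_EQN
theorem a_OMU : Sa_OMU := MU3A.ta_OMU a_N8 a_N11
theorem a_PID : Sa_PID := MU3A.ta_PID
theorem a_GAL : Sa_GAL := MU3A.ta_GAL a_XI a_OMU a_PID
theorem a_ACT : Sa_ACT := MU3A.ta_ACT a_EQN a_GAL
theorem a_ALG : Sa_ALG := MU3A.ta_ALG a_EQN a_LAW
theorem a_PFG : Sa_PFG := MU3A.ta_PFG MU3B.b_DIS MU3B.b_ID MU3B.b_NEQ
theorem v_POL : Sv_POL := MU3V.tv_POL a_PFG MU3B.b_HRE MU3B.b_SUR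
theorem v_DEG1 : Sv_DEG1 := MU3V.tv_DEG1
theorem v_CYCL : Sv_CYCL := MU3V.tv_CYCL v_DEG1 MU3B.b_HAL
theorem v_R2 : Sv_R2 := MU3V.tv_R2 v_POL v_CYCL
theorem v_R4 : Sv_R4 := MU3V.tv_R4 v_POL
theorem v_CARD : Sv_CARD := MU3V.tv_CARD MU3B.b_HRE
theorem v_FRK : Sv_FRK := MU3V.tv_FRK v_DEG1
theorem v_R5 : Sv_R5 := MU3V.tv_R5 v_POL v_CYCL v_R2 v_R4 v_CARD v_FRK a_ROO
theorem v_EXT : Sv_EXT := MU3V.tv_EXT
theorem w_LOC : Sw_LOC := MU3V.tw_LOC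
theorem w_TORV : Sw_TORV := MU3V.tw_TORV a_PID
theorem a_INT : Sa_INT := MU3A.ta_INT
theorem w_FROB : Sw_FROB := MU3V.tw_FROB v_R5 v_EXT w_LOC w_TORV a_GAL a_ACT a_XI a_PID a_INT
theorem a_FROB : Sa_FROB := w_FROB
theorem a_DENSF : Sa_DENSF := MU3A.ta_DENSF (MU3.m_DENSF MU3.finNSP) a_INT a_PID
theorem a_NRM : Sa_NRM := MU3A.ta_NRM a_ALG a_GAL a_EQN a_PID
theorem a_CYC : Sa_CYC := MU3A.ta_CYC w_FROB a_DENSF a_ACT a_NRM a_GAL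
theorem a_LAT0 : Sa_LAT0 := MU3A.ta_LAT0
theorem a_SCP : Sa_SCP := MU3A.ta_SCP
theorem a_EX : Sa_EX := MU3A.ta_EX a_LAT0 a_SCP a_R8 a_R11
theorem a_FEX : Sa_FEX := MU3A.ta_FEX a_INT
theorem a_V3 : Sa_V3 := MU3A.ta_V3
theorem a_N8P : Sa_N8P := MU3A.ta_N8P a_N8 a_EQN a_LAW
theorem a_FR3 : Sa_FR3 := MU3A.ta_FR3 a_V3 a_N8P a_N11 a_EQN
theorem a_M11 : Sa_M11 := MU3A.ta_M11 a_EQN a_LAW
theorem a_M8 : Sa_M8 := MU3A.ta_M8 a_N8 a_EQN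
theorem a_N11C : Sa_N11C := MU3A.ta_N11C a_N11
theorem a_REP : Sa_REP := MU3A.ta_REP a_PID
theorem a_S5 : Sa_S5 := MU3A.ta_S5 w_FROB a_FEX a_REP a_ACT
theorem a_NEG : Sa_NEG := MU3A.ta_NEG a_M8 a_M11 a_EQN a_ACT a_S5
theorem a_T3 : Sa_T3 := MU3A.ta_T3 a_V3 a_N8P a_N11 a_N11C a_EQN a_PID
theorem v_INJ : Sv_INJ := MU3V.tv_INJ v_CYCL v_R4 v_CARD
theorem v_TRA : Sv_TRA := MU3V.tv_TRA v_CYCL v_R2 v_R4 v_CARD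
theorem w_DIF : Sw_DIF := MU3V.tw_DIF
theorem w_THG : Sw_THG := MU3V.tw_THG a_NRM a_GAL a_ACT MU3B.b_TIN
theorem w_DISI : Sw_DISI := MU3V.tw_DISI MU3B.b_TDI w_THG a_NRM a_GAL a_PID MU3B.b_TIN
theorem w_XXM : Sw_XXM := MU3V.tw_XXM a_ACT
theorem w_FIB : Sw_FIB := MU3V.tw_FIB w_XXM a_ACT a_S5 a_NEG a_NRM
theorem w_PRL : Sw_PRL := MU3V.tw_PRL a_INT a_PID
theorem w_XXG : Sw_XXG := MU3V.tw_XXG w_XXM a_ACT a_NRM a_GAL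
theorem w_FRD : Sw_FRD := MU3V.tw_FRD w_PRL w_XXM w_XXG w_FROB a_NRM a_INT
theorem w_INV : Sw_INV := MU3V.tw_INV w_DIF a_GAL a_ACT
theorem w_HTOT : Sw_HTOT := MU3V.tw_HTOT v_EXT v_TRA w_INV w_TORV w_LOC a_XI a_ACT a_GAL a_NRM a_INT a_PID v_DEG1
theorem w_I1 : Sw_I1 := MU3V.tw_I1 w_FIB w_XXM w_XXG w_DISI a_NRM MU3B.b_TIN
theorem w_THU : Sw_THU := MU3V.tw_THU
theorem w_KOL : Sw_KOL := MU3V.tw_KOL a_NRM a_ACT a_GAL a_PID a_INT a_XI w_XXM w_XXG w_FIB w_THG w_DISI MU3B.b_TIN MU3B.b_TNZ v_DEG1 v_EXT v_INJ v_R2 w_THU w_TORV w_INV w_LOC w_HTOT w_FRD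
theorem w_MEMC : Sw_MEMC := MU3V.tw_MEMC w_THG w_XXG a_NRM a_ACT a_GAL MU3B.b_TNZ MU3B.b_TIN
theorem w_SUC : Sw_SUC := MU3V.tw_SUC v_EXT w_THU w_TORV a_XI a_PID

end Pool.Agent.MU3X
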