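import Pool.Agent.MU3.I2Abs

/-!
# The input (I2) from an abelian extension: the theorem (helper80)

MP_b78433_nt, MU3, block K: `I2ABS_thm : S_I2ABS`.
-/

set_option autoImplicit false

open NumberField IsDedekindDomain
open scoped nonZeroDivisors Pointwise

namespace Pool.Agent.MU3

open Pool.Agent.RI K1M I2A

theorem I2A.gal_fixed {k L M : Type} [Field k] [Field L] [Field M] [Algebra k L] [Algebra L M]
    [Algebra k M] [IsScalarTower k L M] [IsGalois k M] [FiniteDimensional k M]
    (hcomm : ∀ σ τ : M ≃ₐ[k] M, σ * τ = τ * σ) (E : IntermediateField L M) : IsGalois k E := by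
  set E' : IntermediateField k M := E.restrictScalars k with hE'
  have h1 : (E'.fixingSubgroup).Normal := ⟨fun σ hσ τ => by
    rw [hcomm τ σ, mul_assoc, mul_inv_cancel, mul_one]
    exact hσ⟩
  have h2 : IntermediateField.fixedField E'.fixingSubgroup = E' :=
    IsGalois.fixedField_fixingSubgroup E'
  have h3 : IsGalois k (IntermediateField.fixedField E'.fixingSubgroup) := inferInstance
  rw [h2] at h3
  exact h3

/-- I2ABS -/
theorem I2ABS_thm : S_I2ABS := by
  intro k L M _ _ _ _ _ _ _ _ _ _ _ hcomm S c lam q hgood A χ hA hunr htot θ θ₀ hθ hcong hnorm hc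
  have hfin : FiniteDimensional L M := inferInstance
  have hLM : IsGalois L M := IsGalois.tower_top_of_isGalois k L M
  set E : IntermediateField L M := IntermediateField.fixedField χ.ker with hE
  have hkE : IsGalois k E := I2A.gal_fixed hcomm E
  have ht1 : IsScalarTower k L E := inferInstance
  have ht : IsScalarTower k E M := IsScalarTower.of_algebraMap_eq fun x => by
    rw [IsScalarTower.algebraMap_apply k L E, ← IsScalarTower.algebraMap_apply L E M,
      ← IsScalarTower.algebraMap_apply k L M]
  refine I2A.main (F := E) hcomm A χ hA hunr htot hθ hcong hnorm hc ?_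
  intro σ
  have h1 : E.fixingSubgroup = χ.ker := IntermediateField.fixingSubgroup_fixedField χ.ker
  rw [← h1, IntermediateField.mem_fixingSubgroup_iff]
  constructor
  · intro h x
    exact h x x.2
  · intro h x hx
    exact h ⟨x, hx⟩

end Pool.Agent.MU3
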