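import Pool.Agent.MU3.WK6
import Pool.Agent.MU3.W_XXG
import Pool.Agent.MU3.I2AbsT

/-!
# MU3, block V: the Galois group of `M / D` for `D ≤ M` (helper59)
-/

set_option autoImplicit false

open WeierstrassCurve Polynomial NumberField IsDedekindDomain

namespace Pool.Agent.MU3V

open _root_.MU3 Pool.Agent.MU3A Pool.Agent.MU3B Pool.Agent.MU3C Pool.Agent.RI

noncomputable section

variable {A B : ℤ}

/-- the `D`-algebra structure of `F` -/
@[reducible] def algDF {D : IntermediateField ℚ ℂ} {F : IntermediateField (kk A B) ℂ}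
    (hs : Sub D F) : Algebra D F :=
  RingHom.toAlgebra
    { toFun := fun y => ⟨y, hs y y.2⟩
      map_one' := rfl
      map_mul' := fun _ _ => rfl
      map_zero' := rfl
      map_add' := fun _ _ => rfl }

lemma towDF {D : IntermediateField ℚ ℂ} (h : kk A B ≤ D) {F : IntermediateField (kk A B) ℂ}
    (hs : Sub D F) : letI := algC h; letI := algDF hs; IsScalarTower (kk A B) D F := by
  letI := algC h; letI := algDF hs
  exact IsScalarTower.of_algebraMap_eq fun x => rfl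

/-- restriction of scalars as a homomorphism -/
def rsHom {D : IntermediateField ℚ ℂ} (h : kk A B ≤ D) {F : IntermediateField (kk A B) ℂ}
    (hs : Sub D F) : letI := algDF hs; (F ≃ₐ[D] F) →* (F ≃ₐ[kk A B] F) :=
  letI := algC h
  letI := algDF hs
  haveI := towDF h hs
  { toFun := fun σ => AlgEquiv.restrictScalars (kk A B) σ
    map_one' := rfl
    map_mul' := fun _ _ => rfl }

lemma rsHom_apply {D : IntermediateField ℚ ℂ} (h : kk A B ≤ D) {F : IntermediateField (kk A B) ℂ}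
    (hs : Sub D F) : letI := algDF hs; ∀ (σ : F ≃ₐ[D] F) (x : F), rsHom h hs σ x = σ x :=
  fun _ _ => rfl

lemma rsHom_mem {D : IntermediateField ℚ ℂ} (h : kk A B ≤ D) {F : IntermediateField (kk A B) ℂ}
    (hs : Sub D F) : letI := algDF hs; ∀ (σ : F ≃ₐ[D] F), rsHom h hs σ ∈ GD h F := by
  letI := algDF hs
  intro σ y hD hy
  exact σ.commutes ⟨y, hD⟩

lemma rsHom_surj {D : IntermediateField ℚ ℂ} (h : kk A B ≤ D) {F : IntermediateField (kk A B) ℂ}
    (hs : Sub D F) : letI := algDF hs; ∀ τ ∈ GD h F, ∃ σ : F ≃ₐ[D] F, rsHom h hs σ = τ := by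
  letI := algDF hs
  intro τ hτ
  exact ⟨{ τ.toRingEquiv with commutes' := fun y => hτ y y.2 _ }, rfl⟩

lemma rsHom_inj {D : IntermediateField ℚ ℂ} (h : kk A B ≤ D) {F : IntermediateField (kk A B) ℂ}
    (hs : Sub D F) : letI := algDF hs; Function.Injective (rsHom h hs) := by
  letI := algDF hs
  intro σ τ e
  apply AlgEquiv.ext
  intro x
  rw [← rsHom_apply h hs σ x, ← rsHom_apply h hs τ x, e]

/-- the unit of `O/lam` attached to an automorphism -/
def bHom {D : IntermediateField ℚ ℂ} (h : kk A B ≤ D) {L : PeriodPair} {m lam : OO A B}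
    (hs : Sub D (TF L (m * lam)))
    (ρ : (TF L (m * lam) ≃ₐ[kk A B] TF L (m * lam)) →* (OO A B ⧸ Ideal.span {m * lam})ˣ) :
    letI := algDF hs
    (TF L (m * lam) ≃ₐ[D] TF L (m * lam)) →* (OO A B ⧸ Ideal.span {lam})ˣ :=
  letI := algDF hs
  ((Units.map (rd (dvd_mul_left lam m) : (OO A B ⧸ Ideal.span {m * lam}) →*
      (OO A B ⧸ Ideal.span {lam}))).comp ρ).comp (rsHom h hs)

/-- the unit of `O/m` attached to an automorphism -/
def aHom {D : IntermediateField ℚ ℂ} (h : kk A B ≤ D) {L : PeriodPair} {m lam : OO A B}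
    (hs : Sub D (TF L (m * lam)))
    (ρ : (TF L (m * lam) ≃ₐ[kk A B] TF L (m * lam)) →* (OO A B ⧸ Ideal.span {m * lam})ˣ) :
    letI := algDF hs
    (TF L (m * lam) ≃ₐ[D] TF L (m * lam)) →* (OO A B ⧸ Ideal.span {m})ˣ :=
  letI := algDF hs
  ((Units.map (rd (dvd_mul_right m lam) : (OO A B ⧸ Ideal.span {m * lam}) →*
      (OO A B ⧸ Ideal.span {m}))).comp ρ).comp (rsHom h hs)

section
variable (h : Case A B) {L : PeriodPair} {Om : ℂ} (hL : IsCM A B L Om) {m lam : OO A B}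
  (hm : m ≠ 0) (hlam : lam ≠ 0) (hmz : mz A B ∣ m) (hcop : IsCoprime m lam)
  {D : IntermediateField ℚ ℂ} (hk : kk A B ≤ D) (hD : Sub D (TF L m))
  (hs : Sub D (TF L (m * lam)))
  {ρ : (TF L (m * lam) ≃ₐ[kk A B] TF L (m * lam)) →* (OO A B ⧸ Ideal.span {m * lam})ˣ}
  (hρi : Function.Injective ρ)
  (hρ : ∀ (σ : TF L (m * lam) ≃ₐ[kk A B] TF L (m * lam)) (x : OO A B), Act L (em σ) (m * lam) x ↔
        ((ρ σ : (OO A B ⧸ Ideal.span {m * lam})ˣ) : OO A B ⧸ Ideal.span {m * lam}) =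
          cls (m * lam) x)

include h hL hm hlam hmz hcop hD hρi hρ in
/-- the bijection `Gal(M / D) → XX(m) × (O/lam)ˣ` -/
theorem bij [IsDomain (OO A B)] (hXXM : Sw_XXM) (hFIB : Sw_FIB) : letI := algDF hs
    ∃ α : (TF L (m * lam) ≃ₐ[D] TF L (m * lam)) →
      XX L m hk (letI := algC hk; (1 : D ≃ₐ[kk A B] D)),
      (∀ σ, ((α σ : XX L m hk _) : OO A B ⧸ Ideal.span {m}) =
        ((aHom hk hs ρ σ : (OO A B ⧸ Ideal.span {m})ˣ) : OO A B ⧸ Ideal.span {m})) ∧
      Function.Bijective (fun σ => (α σ, bHom hk hs ρ σ)) := by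
  letI := algDF hs
  have hmem := EE2_mem hXXM hFIB h hL hm hlam hmz hk hD hρ
  have hbij := EE2_bij hXXM hFIB h hL hm hlam hmz hcop hk hD hρi hρ hmem
  let γ : (TF L (m * lam) ≃ₐ[D] TF L (m * lam)) → GD hk (TF L (m * lam)) :=
    fun σ => ⟨rsHom hk hs σ, rsHom_mem hk hs σ⟩
  have hγ : Function.Bijective γ := by
    constructor
    · intro σ τ e
      exact rsHom_inj hk hs (congrArg Subtype.val e)
    · rintro ⟨τ, hτ⟩
      obtain ⟨σ, hσ⟩ := rsHom_surj hk hs τ hτ
      exact ⟨σ, Subtype.ext hσ⟩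
  refine ⟨fun σ => (EE2 hk (ρ := ρ) hmem (γ σ)).1, fun σ => rfl, ?_⟩
  exact hbij.comp hγ

end

end

end Pool.Agent.MU3V
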