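import Pool.Agent.MU3.StA

/-!
# MU3, block A, module ROO: the three values at the points of order two
-/

set_option autoImplicit false

namespace Pool.Agent.MU3A

open MU3 Pool.Agent.MU3B Polynomial

noncomputable section

theorem ta_ROO (h1 : Sa_TW2) (h2 : MU3B.St_NEQ) : Sa_ROO := by
  intro L v v' hv hv' hvv h2v h2v'
  have h2s : 2 * (v + v') ∈ L.lattice := by
    rw [mul_add]; exact add_mem h2v h2v'
  have hsub : v - v' ∉ L.lattice := by
    intro h
    apply hvv
    have h3 := add_mem h h2v'
    have e : v - v' + 2 * v' = v + v' := by ring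
    rwa [e] at h3
  have n1 : L.weierstrassP v ≠ L.weierstrassP v' := by
    intro h
    rcases h2 L v' v hv' hv h with h | h
    · exact hsub h
    · exact hvv h
  have n2 : L.weierstrassP v ≠ L.weierstrassP (v + v') := by
    intro h
    rcases h2 L (v + v') v hvv hv h with h | h
    · apply hv'
      have e : v - (v + v') = -v' := by ring
      rw [e] at h
      simpa using neg_mem h
    · apply hv'
      have e : v + (v + v') - 2 * v = v' := by ring
      have h3 := sub_mem h h2v
      rwa [e] at h3
  have n3 : L.weierstrassP v' ≠ L.weierstrassP (v + v') := by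
    intro h
    rcases h2 L (v + v') v' hvv hv' h with h | h
    · apply hv
      have e : v' - (v + v') = -v := by ring
      rw [e] at h
      simpa using neg_mem h
    · apply hv
      have e : v' + (v + v') - 2 * v' = v := by ring
      have h3 := sub_mem h h2v'
      rwa [e] at h3
  have r1 := (h1 L v hv h2v).1
  have r2 := (h1 L v' hv' h2v').1
  have r3 := (h1 L (v + v') hvv h2s).1
  generalize L.weierstrassP v = a at *
  generalize L.weierstrassP v' = b at *
  generalize L.weierstrassP (v + v') = c at *
  generalize L.g₂ = g at *
  generalize L.g₃ = k at *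
  have q1 : 4 * (a ^ 2 + a * b + b ^ 2) - g = 0 := by
    have : (a - b) * (4 * (a ^ 2 + a * b + b ^ 2) - g) = 0 := by linear_combination r1 - r2
    exact (mul_eq_zero.mp this).resolve_left (sub_ne_zero.mpr n1)
  have q2 : 4 * (a ^ 2 + a * c + c ^ 2) - g = 0 := by
    have : (a - c) * (4 * (a ^ 2 + a * c + c ^ 2) - g) = 0 := by linear_combination r1 - r3
    exact (mul_eq_zero.mp this).resolve_left (sub_ne_zero.mpr n2)
  have s : a + b + c = 0 := by
    have : (b - c) * (a + b + c) = 0 := by linear_combination (q1 - q2) / 4
    exact (mul_eq_zero.mp this).resolve_left (sub_ne_zero.mpr n3)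
  have hc : c = -a - b := by linear_combination s
  refine ⟨n1, n2, n3, s, ?_, ?_⟩
  · subst hc
    linear_combination (-1 / 4 : ℂ) * q1
  · subst hc
    linear_combination (1 / 4 : ℂ) * r1 - a / 4 * q1

end

end Pool.Agent.MU3A
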