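import Pool.Agent.MU3.ADefs
import Pool.Agent.MU3.StB

/-!
# MU3, block A: statements, part 1 (with complete proofs in words)

Every statement is a `def Sa_X : Prop`; the module proves `theorem ta_X (h : ...) ... : Sa_X`, where the
hypotheses are the statements named under `Uses` (`St_...` are those of block B, `StB.lean`).
Elementary lemmas (`emb_mul`, `IsLat.emb_mul_mem`, `IsLat.torsion_iff`, `IsLat.mul_div_mem_iff`,
`IsLat.mem_of_coprime`) are proved in `ADefs.lean`. Notation in the proofs: `℘`, `℘'`, `w = wC A B`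
(`w² = -2` resp. `w² = w - 3`), `x = xx A B L`, `y = yy L`, `L` the lattice.
A statement of the form for all `z` with `z ∉ L`, `c z ∉ L` which has been proved outside a countable
closed set follows everywhere by continuity (`℘`, `℘'` are continuous outside `L`; the complement of a
countable set is dense).
-/

set_option autoImplicit false

namespace Pool.Agent.MU3A

open MU3 Pool.Agent.MU3B Polynomial

noncomputable section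

/-! ## General lattices -/

/-- (PFG) product formula for `℘(a z) - ℘(a w)`.

Uses St_DIS, St_ID, St_NEQ, St_LAT (and Mathlib). PROOF. Put
`U = {z : a z ∉ L, a z - a w ∉ L, a z + a w ∉ L}`: open, complement countable, so path connected
(`Set.Countable.isPathConnected_compl_of_one_lt_rank`) and dense. On `U`
`G(z) = (℘(az) - ℘(aw)) ∏_(q ∈ R) (℘ z - ℘ q) / ((℘ z - ℘ w) ∏_(q ∈ R) (℘ z - ℘(w + q)))`
is holomorphic and all factors are nonzero by (NEQ) (`℘ z = ℘ q` gives `z ± q ∈ L`, `a z ∈ L`, etc.;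
`w`, `w + q ∉ L` as `a w ∉ L`). By (ID) the logarithmic derivative of `℘ z - ℘ Q` is
`e(z + Q) + e(z - Q) - 2 e(z)`. By (DIS) at `z + w`: `a e(az + aw) = e(z + w) + Σ e(z + w + q)`; (DIS) for the
representatives `-R` (also `IsReps`) at `z - w`: `a e(az - aw) = e(z - w) + Σ e(z - w - q)`; for `R` and `-R` at `z`:
`2 a e(az) = 2 e(z) + Σ e(z + q) + Σ e(z - q)`. So the logarithmic derivative of `G`, which is
`a (e(az + aw) + e(az - aw) - 2 e(az)) + Σ_q (e(z+q) + e(z-q) - 2 e(z)) - (e(z+w) + e(z-w) - 2 e(z))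
 - Σ_q (e(z+w+q) + e(z-w-q) - 2 e(z))`, is `0`, and `G` is constant on `U`. For `z → 0` in `U` (`U` is dense):
`z² ℘(z) → 1`, `z² ℘(az) → a⁻²` (`℘ = 1/z² + ℘[L - 0]`), so `G = a⁻²`. Then by continuity for all `z` with
`a z ∉ L`. -/
def Sa_PFG : Prop :=
  ∀ (L : PeriodPair) (a : ℂ) (R : Finset ℂ) (w : ℂ), a ≠ 0 →
    (∀ u ∈ L.lattice, a * u ∈ L.lattice) → IsReps L a R → a * w ∉ L.lattice →
    ∀ z, a * z ∉ L.lattice →
      a ^ 2 * (L.weierstrassP (a * z) - L.weierstrassP (a * w)) *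
        ∏ q ∈ R, (L.weierstrassP z - L.weierstrassP q) =
      (L.weierstrassP z - L.weierstrassP w) *
        ∏ q ∈ R, (L.weierstrassP z - L.weierstrassP (w + q))

/-- (SCP) homogeneity of `℘`, `℘'`, `g₂`, `g₃`.

PROOF. `℘(z) = Σ_l (1/(z - l)² - 1/l²)`, `℘'(z) = - Σ_l 2/(z - l)³` (`derivWeierstrassP` is defined so),
`G n = Σ_l (l^n)⁻¹`: reindex the sums over `L'` by the bijection `l ↦ a l` of `L` with `L'`
(`Equiv.tsum_eq`), `tsum_mul_left`. `g₂ = 60 G 4`, `g₃ = 140 G 6`. -/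
def Sa_SCP : Prop :=
  ∀ (L L' : PeriodPair) (a : ℂ), a ≠ 0 → (∀ u : ℂ, u ∈ L.lattice ↔ a * u ∈ L'.lattice) →
    (∀ z, L'.weierstrassP (a * z) = L.weierstrassP z / a ^ 2) ∧
    (∀ z, L'.derivWeierstrassP (a * z) = L.derivWeierstrassP z / a ^ 3) ∧
    L'.g₂ = L.g₂ / a ^ 4 ∧ L'.g₃ = L.g₃ / a ^ 6

/-- (TW2) translation by a point `v` of order two; the three roots.

Uses St_ADD, St_ZER, St_NEQ, St_DSC. PROOF. Put `e = ℘ v`, `℘' v = 0` (ZER), so `4e³ - g₂ e - g₃ = 0`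
(`derivWeierstrassP_sq`) and `4X³ - g₂X - g₃ = 4 (X - e)(X² + e X + e² - g₂/4)`. (ADD) with `Q = v`
(`z - v ∉ L` as `z - v = z + v - 2v`): `℘(z+v) + ℘ z + e = (℘' z)²/(4 (℘ z - e)²)
 = (℘² + e ℘ + e² - g₂/4)/(℘ - e)`, hence `(℘(z+v) - e)(℘ z - e) = 3e² - g₂/4`. -/
def Sa_TW2 : Prop :=
  ∀ (L : PeriodPair) (v : ℂ), v ∉ L.lattice → 2 * v ∈ L.lattice →
    4 * L.weierstrassP v ^ 3 - L.g₂ * L.weierstrassP v - L.g₃ = 0 ∧
    ∀ z, z ∉ L.lattice → z + v ∉ L.lattice →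
      (L.weierstrassP (z + v) - L.weierstrassP v) * (L.weierstrassP z - L.weierstrassP v) =
        3 * L.weierstrassP v ^ 2 - L.g₂ / 4

/-- (ROO) the three values `℘(v₁), ℘(v₂), ℘(v₁ + v₂)` at the points of order two.

Uses Sa_TW2, St_NEQ. PROOF. `v₁, v₂, v₁ + v₂ ∉ L`, `2 v_i ∈ L`. The three values are different (NEQ: `v - v'` and
`v + v'` are congruent, to the third point, not in `L`) and are roots of `4X³ - g₂X - g₃`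
(TW2): so it is `4 (X - e₁)(X - e₂)(X - e₃)`, compare coefficients. -/
def Sa_ROO : Prop :=
  ∀ (L : PeriodPair) (v v' : ℂ), v ∉ L.lattice → v' ∉ L.lattice → v + v' ∉ L.lattice →
    2 * v ∈ L.lattice → 2 * v' ∈ L.lattice →
    L.weierstrassP v ≠ L.weierstrassP v' ∧ L.weierstrassP v ≠ L.weierstrassP (v + v') ∧
    L.weierstrassP v' ≠ L.weierstrassP (v + v') ∧
    L.weierstrassP v + L.weierstrassP v' + L.weierstrassP (v + v') = 0 ∧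
    L.weierstrassP v * L.weierstrassP v' + L.weierstrassP v * L.weierstrassP (v + v') +
      L.weierstrassP v' * L.weierstrassP (v + v') = -(L.g₂ / 4) ∧
    L.weierstrassP v * L.weierstrassP v' * L.weierstrassP (v + v') = L.g₃ / 4

/-! ## Lattices with complex multiplication -/

/-- (LAT0) lattices exist.

PROOF. `ω₁ = Om`, `ω₂ = Om * wC A B`; linearly independent over `ℝ` because `(wC A B).im > 0`
(`LinearIndependent.pair_iff`: `s Om + t Om w = 0` gives `s + t w = 0`, imaginary part `t = 0`, `s = 0`).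
`z ∈ lattice ↔ ∃ m n : ℤ, m ω₁ + n ω₂ = z` is `PeriodPair.mem_lattice`, and
`emb ⟨m, n⟩ = m + n w`. -/
def Sa_LAT0 : Prop :=
  ∀ A B : ℤ, Case A B → ∀ Om : ℂ, Om ≠ 0 → ∃ L : PeriodPair, IsLat A B L Om

/-- (R8) the case `w² = -2`: `℘(wz)`, and the invariants in terms of `e = ℘(Om w / 2)`.

Uses St_CMX, St_DUP, St_DSC, St_ZER, Sa_TW2, Sa_ROO. PROOF. `v = Om w/2`: `w v = -Om ∈ L`, `v ∉ L`, `2 v ∈ L`, and `{v}` is
`IsReps L w {v}` (`w z ∈ L`: `z = emb x Om/w`, `x = a + b w`; `z = b Om - a Om w/2`, so `z ∈ L` if `a` is even and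
`z - v ∈ L` if `a` is odd). (CMX): `w² ℘(wz) = ℘ z + ℘(z + v) - ℘ v` for `w z ∉ L`, and (TW2):
(1) `-2 ℘(wz) = ℘ z + c/(℘ z - e)`, `c = 3e² - g₂/4`, `℘ z ≠ e` (NEQ). Let `c' = 8 c = 9 e²` be shown: take `z` with
`2 z ∉ L` and `w z ∉ L` (e.g. `z = Om/3`). With `Y = ℘ z - e` (`≠ 0`), (1) for `z` and for `w z`
(`w (w z) = -2 z`; `2 z ∉ L`): `℘(wz) = -(Y + e + c/Y)/2`, `℘(wz) - e = -(Y² + 3eY + c)/(2Y)`, so
`4 ℘(2z) = Y + e + c/Y + 4 c Y/(Y² + 3eY + c)`. On the other hand (DUP)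
`℘(2z) = -2℘ z + (6℘² - g₂/2)²/(4 ℘'²)`, `℘'² = 4 Y (Y² + 3eY + c)`, `g₂ = 4 (3e² - c)`, `g₃ = 4 e (c - 2e²)` (from
`4e³ - g₂e - g₃ = 0`): `℘(2z) = (Y⁴ + 4eY³ + (12e² - 2c)Y² + 4ecY + c²)/(4Y(Y² + 3eY + c))`. The first expression
is `(Y⁴ + 4eY³ + (3e² + 6c)Y² + 4ecY + c²)/(4Y(Y² + 3eY + c))`. So `(9e² - 8c) Y² = 0`, `c = 9e²/8`. Then
`g₂ = 15e²/2`, `g₃ = -7e³/2`. If `e = 0` then `g₂ = g₃ = 0` against (DSC). -/
def Sa_R8 : Prop :=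
  ∀ (L : PeriodPair) (Om : ℂ), IsLat (-2) 0 L Om →
    L.weierstrassP (Om * wC (-2) 0 / 2) ≠ 0 ∧
    L.g₂ = 15 / 2 * L.weierstrassP (Om * wC (-2) 0 / 2) ^ 2 ∧
    L.g₃ = -7 / 2 * L.weierstrassP (Om * wC (-2) 0 / 2) ^ 3 ∧
    ∀ z, wC (-2) 0 * z ∉ L.lattice →
      L.weierstrassP z ≠ L.weierstrassP (Om * wC (-2) 0 / 2) ∧
      -2 * L.weierstrassP (wC (-2) 0 * z) * (L.weierstrassP z - L.weierstrassP (Om * wC (-2) 0 / 2)) =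
        L.weierstrassP z * (L.weierstrassP z - L.weierstrassP (Om * wC (-2) 0 / 2)) +
          9 / 8 * L.weierstrassP (Om * wC (-2) 0 / 2) ^ 2

/-- (R11) the case `w² = w - 3`: `℘(wz)` and the invariants in terms of `x₀ = ℘(Om/w)`.

Uses St_CMX, St_ADD, St_NEQ, St_DSC, St_DUP, Sa_ROO. PROOF. Write `w = wC (-3) 1`, `w² = w - 3`,
`1/w = (1 - w)/3`. `u = Om/w`, `u ∉ L`, `w u ∈ L`, `3 u = (1 - w) w u ∈ L`, `2 u ∉ L`, and `{u, -u}` is `IsReps L w {u, -u}`: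
if `w z ∈ L`, `z = emb x u` with `x = a + b w`, then `z ≡ a u`, `a mod 3 ∈ {0, 1, -1}` (`3 u ∈ L`, `w u ∈ L`), and `u ≡ -u` is false.
(CMX): `w² ℘(wz) = ℘ z + ℘(z+u) + ℘(z-u) - 2x₀`. (ADD) for `Q = u, -u`, added, with `f(X) = 4X³ - g₂X - g₃`,
`℘'² = f(℘)`: `℘(z+u) + ℘(z-u) = (f(℘) + f(x₀))/(2(℘ - x₀)²) - 2℘ - 2x₀`; expanding `f` at `x₀`:
(1) `w² ℘(wz) = ℘ + A₁/(℘ - x₀) + B₁/(℘ - x₀)²`, `A₁ = f'(x₀)/2 = 6x₀² - g₂/2`, `B₁ = f(x₀)`, `℘ z ≠ x₀`.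
(2) `3u ∈ L`: `℘(2u) = ℘(u)`, (DUP): `3x₀ = (6x₀² - g₂/2)²/(4 f(x₀))`, i.e. `A₁² = 12 x₀ B₁`.
(3) points of order two: `v = Om/2`, `v' = Om w/2`, `v'' = v + v'`, `e, e', e''` their `℘`; `w v = v'`,
`w v' ≡ v''`, `w v'' ≡ v` modulo `L`. (1) gives `w² e' = e + A₁/(e-x₀) + B₁/(e-x₀)²` and cyclically. Multiply by
`e`, `e'`, `e''` resp. and add. `Σ e² = g₂/2`, `Σ e e' = -g₂/4`; with `s = Σ 1/(e_i - x₀) = -f'(x₀)/f(x₀) = -2A₁/B₁` and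
`t = Σ 1/(e_i - x₀)²`: `Σ e_i/(e_i - x₀) = 3 + x₀ s`, `Σ e_i/(e_i - x₀)² = s + x₀ t`. Adding the three
equations without factor: `0 = A₁ s + B₁ t`. So `-w² g₂/4 = g₂/2 + 3A₁ + B₁ s = g₂/2 + A₁`
(to avoid fractions: everything is a polynomial identity after multiplying by powers of
`(e-x₀)(e'-x₀)(e''-x₀) = -B₁/4 ≠ 0`). Hence `A₁ = -g₂ (2 + w²)/4 = g₂ (1 - w)/4`, with `A₁ = 6x₀² - g₂/2`:
`24 x₀² = g₂ (3 - w) = -w² g₂`.
(4) `x₀ ≠ 0`: otherwise `g₂ = 0`, `A₁ = 0`, `B₁ = -g₃ ≠ 0` (DSC), `4 e³ = g₃`, so (1) at `v`: `w² e' = e - g₃/e² = -3e`,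
cyclically `e' = c e`, `e'' = c e'`, `e = c e''` with `c = -3/w²`, so `c³ = 1` (`e ≠ 0`): `-27 = w⁶`. But
`w⁶ = (w²)³ = (w-3)³ = w³ - 9w² + 27w - 27`, `w³ = -2w - 3`, `w⁶ = 16 w - 3 ≠ -27` (imaginary part).
(5) `B₁ = A₁²/(12x₀)`, `g₂ = -24x₀²/w²`, `A₁ = 6x₀²(w² + 2)/w² = 6x₀²(w - 1)/w²`,
`B₁ = 3x₀³(w-1)²/w⁴`, `g₃ = 4x₀³ - g₂x₀ - B₁ = x₀³ (4w⁴ + 24w² - 3(w-1)²)/w⁴ = 7 x₀³ (w - 6)/w⁴`. -/
def Sa_R11 : Prop :=
  ∀ (L : PeriodPair) (Om : ℂ), IsLat (-3) 1 L Om →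
    L.weierstrassP (Om / wC (-3) 1) ≠ 0 ∧
    wC (-3) 1 ^ 2 * L.g₂ = -24 * L.weierstrassP (Om / wC (-3) 1) ^ 2 ∧
    wC (-3) 1 ^ 4 * L.g₃ = 7 * L.weierstrassP (Om / wC (-3) 1) ^ 3 * (wC (-3) 1 - 6) ∧
    ∀ z, wC (-3) 1 * z ∉ L.lattice →
      L.weierstrassP z ≠ L.weierstrassP (Om / wC (-3) 1) ∧
      wC (-3) 1 ^ 2 * L.weierstrassP (wC (-3) 1 * z) *
          (L.weierstrassP z - L.weierstrassP (Om / wC (-3) 1)) ^ 2 =
        L.weierstrassP z * (L.weierstrassP z - L.weierstrassP (Om / wC (-3) 1)) ^ 2 +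
          (6 * L.weierstrassP (Om / wC (-3) 1) ^ 2 - L.g₂ / 2) *
            (L.weierstrassP z - L.weierstrassP (Om / wC (-3) 1)) +
          (4 * L.weierstrassP (Om / wC (-3) 1) ^ 3 - L.g₂ * L.weierstrassP (Om / wC (-3) 1) - L.g₃)

/-- (EX) the normal form exists.

Uses Sa_LAT0, Sa_SCP, Sa_R8, Sa_R11. PROOF. Let `L₀ = emb O` (`Om = 1`). Case `(-2, 0)`: `e₀ = ℘₀(w/2) ≠ 0`;
choose `Om` with `Om² = 3 e₀/4`; `L = Om L₀` has `℘(Om w/2) = e₀/Om² = 4/3`, so (R8) `g₂ = 40/3`, `g₃ = -224/27`, which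
are the required values (`a₂ = 4`, `a₄ = 2`, `a₆ = 0`: `-4 (2 - 16/3) = 40/3`,
`-4 (2 (4/3)³ - 8/3) = -224/27`). Case `(-3, 1)`: `x₀ = ℘₀(1/w) ≠ 0`; `Om² = 3 x₀/w`; then `℘(Om/w) = w/3`, so (R11)
`g₂ = -24/9 = -8/3`, `g₃ = 7 (w - 6)/(27 w) = 7 (2w - 1)/27`; required, with `δ = 2w - 1`, `δ² = -11`:
`-4 (-3 - δ²/3) = -8/3`, `-4 (-δ/4 + 2 δ³/27 + δ) = -4 δ (3/4 - 22/27) = 7δ/27`. -/
def Sa_EX : Prop := ∀ A B : ℤ, Case A B → ∃ (L : PeriodPair) (Om : ℂ), IsCM A B L Om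

/-- (EQN) basic facts on `x` and `y`: the equation of the curve, non-singularity, parity and
periodicity, injectivity and surjectivity, derivatives.

Uses St_NEQ, St_ZER, St_DSC, St_P2. PROOF. `℘'² = 4℘³ - g₂℘ - g₃` (`derivWeierstrassP_sq`) with the values of
`g₂`, `g₃` from `IsCM` gives the equation (`ring`). If `y z = y z'`, `x z = x z'` then `z' ≡ ± z` (NEQ); if
`z' ≡ -z` then `y z = -y z`, `y z = 0`, `2 z ∈ L` (ZER), `z' ≡ -z ≡ z`. Surjectivity: (DSC). Non-singular: if `y = 0` and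
`3x² + 2a₂x + a₄ = 0` then the cubic `4X³ - g₂X - g₃` would have a double root: `g₂³ = 27 g₃²`, against (DSC)
(for a double root `r`, `g₂ = 12 r²`, `g₃ = -8 r³`). Derivatives: Mathlib and (P2):
`℘'' = 6℘² - g₂/2 = 2 (3x² + 2a₂x + a₄)`. -/
def Sa_EQN : Prop :=
  ∀ (A B : ℤ) (L : PeriodPair) (Om : ℂ), Case A B → IsCM A B L Om →
    (∀ z, z ∉ L.lattice → yy L z ^ 2 = xx A B L z ^ 3 + emb (a2 A B) * xx A B L z ^ 2 +
      emb (a4 A B) * xx A B L z + emb (a6 A B) / 4) ∧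
    (∀ z, z ∉ L.lattice → (yy L z ≠ 0 ∨
      3 * xx A B L z ^ 2 + 2 * emb (a2 A B) * xx A B L z + emb (a4 A B) ≠ 0)) ∧
    (∀ z, xx A B L (-z) = xx A B L z ∧ yy L (-z) = -yy L z) ∧
    (∀ z, ∀ u ∈ L.lattice, xx A B L (z + u) = xx A B L z ∧ yy L (z + u) = yy L z) ∧
    (∀ z z', z ∉ L.lattice → z' ∉ L.lattice → xx A B L z = xx A B L z' →
      z - z' ∈ L.lattice ∨ z + z' ∈ L.lattice) ∧
    (∀ z z', z ∉ L.lattice → z' ∉ L.lattice → xx A B L z = xx A B L z' → yy L z = yy L z' →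
      z - z' ∈ L.lattice) ∧
    (∀ z, z ∉ L.lattice → (yy L z = 0 ↔ 2 * z ∈ L.lattice)) ∧
    (∀ X Y : ℂ, Y ^ 2 = X ^ 3 + emb (a2 A B) * X ^ 2 + emb (a4 A B) * X + emb (a6 A B) / 4 →
      ∃ z, z ∉ L.lattice ∧ xx A B L z = X ∧ yy L z = Y) ∧
    (∀ z, z ∉ L.lattice → HasDerivAt (xx A B L) (2 * yy L z) z ∧
      HasDerivAt (yy L) (3 * xx A B L z ^ 2 + 2 * emb (a2 A B) * xx A B L z + emb (a4 A B)) z)

/-- (LAW) addition and duplication in the coordinates `x`, `y`.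

Uses St_ADD, St_DUP, Sa_EQN. PROOF. (ADD), (DUP) with `℘ = x + a₂/3`, `℘' = 2y`, `g₂` of `IsCM`
(`6℘² - g₂/2 = 2 (3x² + 2a₂x + a₄)`): slope `M`, `x₃ = M² - a₂ - x₁ - x₂`, `y₃ = -y₁ - M (x₃ - x₁)`. -/
def Sa_LAW : Prop :=
  ∀ (A B : ℤ) (L : PeriodPair) (Om : ℂ), Case A B → IsCM A B L Om →
    (∀ z z', z ∉ L.lattice → z' ∉ L.lattice → z + z' ∉ L.lattice → z - z' ∉ L.lattice →
      xx A B L (z + z') = ((yy L z - yy L z') / (xx A B L z - xx A B L z')) ^ 2 -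
        emb (a2 A B) - xx A B L z - xx A B L z' ∧
      yy L (z + z') = -yy L z - (yy L z - yy L z') / (xx A B L z - xx A B L z') *
        (xx A B L (z + z') - xx A B L z)) ∧
    (∀ z, 2 * z ∉ L.lattice →
      xx A B L (2 * z) = ((3 * xx A B L z ^ 2 + 2 * emb (a2 A B) * xx A B L z + emb (a4 A B)) /
        (2 * yy L z)) ^ 2 - emb (a2 A B) - 2 * xx A B L z ∧
      yy L (2 * z) = -yy L z - (3 * xx A B L z ^ 2 + 2 * emb (a2 A B) * xx A B L z + emb (a4 A B)) /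
        (2 * yy L z) * (xx A B L (2 * z) - xx A B L z))

/-- (XI) the group isomorphism `ℂ / L ≅ E(ℂ)`, in Mathlib's affine points.

Uses Sa_EQN, Sa_LAW. PROOF. Define `ξ z = 0` for `z ∈ L` and `ξ z = some (x z) (y z) _` otherwise (the point is
on the curve and non-singular: EQN; `WeierstrassCurve.Affine.nonsingular_iff'`/`equation_iff`, `a₁ = a₃ = 0`).
Additive: cases `z ∈ L` or `z' ∈ L` (periodicity); `z + z' ∈ L`: `x z' = x z`, `y z' = -y z`: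
`Point.add_of_Y_eq`; `z - z' ∈ L`, `z + z' ∉ L`: then `2 z ∉ L`, `y z ≠ 0`, `Point.add_self_of_Y_ne` or `add_some`
with the tangent slope `(3x² + 2a₂x + a₄)/(2y)` (`slope_of_Y_ne`) and (LAW), second part; otherwise
`x z ≠ x z'`, `add_of_X_ne`/`slope_of_X_ne` and (LAW), first part (`addX`, `addY`, `negY`). -/
def Sa_XI : Prop :=
  ∀ (A B : ℤ) (L : PeriodPair) (Om : ℂ), Case A B → IsCM A B L Om →
    ∃ ξ : ℂ →+ (WeierstrassCurve.Affine.baseChange (EE A B) ℂ).Point,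
      (∀ z, ξ z = 0 ↔ z ∈ L.lattice) ∧ Function.Surjective ξ ∧
      ∀ z, z ∉ L.lattice → ∃ h, ξ z = .some (xx A B L z) (yy L z) h

/-! ## The explicit complex multiplication -/

/-- (N8) `w² = -2`: multiplication by `w` is `x ↦ -(x² + 4x + 2)/(2x)`, `y ↦ -y (x² - 2)/(2 w x²)`.

Uses Sa_R8, Sa_EQN, St_DSC. PROOF. `g₂ = 40/3 = 15e²/2`, `g₃ = -224/27 = -7e³/2`, so `e² = 16/9`, `e³ = 64/27`, `e = 4/3`:
`e = a₂/3`, `x = ℘ - e`, `x(Om w/2) = 0`. (R8): `-2 (x(wz) + e) x = (x + e) x + 9e²/8 = x² + e x + 2`, so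
`-2 x(wz) x = x² + 3e x + 2 = x² + 4x + 2`. `x z = 0` iff `z ≡ ± Om w/2` (EQN) iff `w z ∈ L` (for `z ∉ L`): the
class of `Om w/2` is the only nonzero class of `w⁻¹L/L`, see the proof of (R8). Derivative of
`x(wz)·2x = -(x² + 4x + 2)` (valid near `z`): `2 w y(wz) 2x + x(wz) 4y = -(2x + 4) 2y`; multiply by `x`:
`4 w x² y(wz) = -(4x² + 8x) y + 2 y (x² + 4x + 2) = -2 y (x² - 2)`. -/
def Sa_N8 : Prop :=
  ∀ (L : PeriodPair) (Om : ℂ), IsCM (-2) 0 L Om →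
    (∀ z, z ∉ L.lattice → (wC (-2) 0 * z ∈ L.lattice ↔ xx (-2) 0 L z = 0)) ∧
    ∀ z, wC (-2) 0 * z ∉ L.lattice →
      xx (-2) 0 L (wC (-2) 0 * z) * (2 * xx (-2) 0 L z) =
        -(xx (-2) 0 L z ^ 2 + 4 * xx (-2) 0 L z + 2) ∧
      yy L (wC (-2) 0 * z) * (2 * wC (-2) 0 * xx (-2) 0 L z ^ 2) =
        -yy L z * (xx (-2) 0 L z ^ 2 - 2)

/-- (N8P) `w² = -2`: multiplication by `1 + w` and by `1 - w`.

Uses Sa_N8, Sa_EQN, Sa_LAW. PROOF (for `s = ± w`, `λ = 1 + s`; `x(sz) = x(wz)`, `y(sz) = ± y(wz)`, so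
`x(sz) 2x = -(x²+4x+2)`, `y(sz) 2 s x² = -y(x²-2)`; `s² = -2`). Generic `z` (`z, w z, (1 ± w) z ∉ L`): (LAW) for `z`, `s z`:
`x - x(sz) = (3x² + 4x + 2)/(2x)`, `y - y(sz) = y ((1 + 2s) x² - 2)/(2 s x²)`,
`3x² + 4x + 2 = ((1+s)x + s)((1-s)x - s)`, `(1+2s)x² - 2 = (x - (s-2)/3)((1+2s)x - (s+2))`,
`(1-s)x - s = (1-s)(x - (s-2)/3)`; then `((y - y(sz))/(x - x(sz)))² - 4 - x - x(sz)` equals
`(x³ + (4-2s)x² + (2-4s)x)/((1+s)x + s)²` (`field_simp; ring` with `y² = x(x²+4x+2)`, `s² = -2`).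
For the other `z` with `λ z ∉ L`: continuity (both sides of the formula with the denominator
multiplied out are continuous at `z`, as `z, λ z ∉ L`). Kernel: let `r = -s/(1+s) = -(s+2)/3`. The
numerator `r (r² + (4-2s)r + 2-4s) = -r (16 + 32s)/9` is not `0`. By surjectivity of `x` (EQN) there is
`u ∉ L` with `x u = r`; if `λ u ∉ L` the formula gives `0 = ` numerator, so `λ u ∈ L`. The `z ∉ L` with
`λ z ∈ L` are the `z ≡ ± Om/λ` (`torsion_iff`, `O/λ` has the classes `0, 1, -1`), hence `≡ ± u`. So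
`λ x z + s = 0` iff `x z = x u` iff `z ≡ ± u` iff `λ z ∈ L` (for `z ∉ L`). The formula for `y`:
differentiate `x(λz) D(x)² = N(x)`: `λ y(λz) D² + 2 x(λz) D D' y = N' y`, times `D`:
`λ y(λz) D³ = y (N' D - 2 N D')` and `N' D - 2 N D' = λ M` (`ring`). -/
def Sa_N8P : Prop :=
  ∀ (L : PeriodPair) (Om : ℂ), IsCM (-2) 0 L Om →
    Iso3 L (⟨1, 1⟩ : OO (-2) 0) ⟨0, 1⟩ ⟨4, -2⟩ ⟨2, -4⟩ 0 ⟨2, 1⟩ ⟨6, 4⟩ ⟨4, -2⟩ ∧
    Iso3 L (⟨1, -1⟩ : OO (-2) 0) ⟨0, -1⟩ ⟨4, 2⟩ ⟨2, 4⟩ 0 ⟨2, -1⟩ ⟨6, -4⟩ ⟨4, 2⟩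

/-- (N11) `w² = w - 3`: multiplication by `w`.

Uses Sa_R11, Sa_EQN. PROOF. Write `w = wC (-3) 1`. From `IsCM`: `g₂ = -8/3`, `g₃ = 7 (2w-1)/27`. With `x₀ = ℘(Om/w)`:
`24x₀² = -w²g₂ = 8w²/3`, `x₀² = w²/9`, and `x₀³ = w⁴g₃/(7(w-6)) = w⁴(2w-1)/(27(w-6)) = w³/27` (`w(2w-1) = w-6`). So
`x₀ = w/3` (`x₀³ = x₀ x₀²`, `w ≠ 0`). `x = ℘ - (2w-1)/3`, so `x(Om/w) = (1-w)/3 = 1/w`. (R11) with `℘ - x₀ = x - 1/w`,
`A₁ = 6x₀² - g₂/2 = (2w² + 4)/3 = (2w - 2)/3`, `B₁ = 3x₀³(w-1)²/w⁴ = (w-1)²/(9w)`: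
`w²(x(wz) + δ/3)(x - 1/w)² = (x + δ/3)(x - 1/w)² + A₁(x - 1/w) + B₁`; multiply out, use `w² = w - 3`:
`x(wz)(w x - 1)² = x³ + 3w x² + (w-6) x - w`. Kernel: `w z ∈ L`, `z ∉ L` iff `z ≡ ± Om/w` iff `x z = 1/w` (EQN; see the
proof of (R11) for the classes). `y`: differentiate as in (N8P). -/
def Sa_N11 : Prop :=
  ∀ (L : PeriodPair) (Om : ℂ), IsCM (-3) 1 L Om →
    Iso3 L (⟨0, 1⟩ : OO (-3) 1) (-1) ⟨0, 3⟩ ⟨-6, 1⟩ ⟨0, -1⟩ ⟨-1, 1⟩ ⟨0, -1⟩ 1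

/-- (N11C) `w² = w - 3`: multiplication by `1 - w`.

Uses Sa_N11, Sa_EQN, Sa_LAW. PROOF. (LAW) for `z` and `-w z`, generic `z` (`z, w z, (1 ± w) z ∉ L`), with
`x(-wz) = N(x)/(w x - 1)²`, `y(-wz) = -y M(x)/(w x - 1)³` (N11) and `y² = x³ + δx² - 3x - δ/4`: `field_simp`, `ring`
(with `w² = w - 3`) shows `x((1-w)z) = (x³ + (3w-3)x² - (w+5)x + (1-w))/((1-w)x + 1)²`. The rest as in (N8P):
continuity, kernel (the numerator does not vanish at `x = -1/(1-w) = -w/3`; the nonzero classes killed by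
`1 - w` are `± Om/(1-w)`), derivative. -/
def Sa_N11C : Prop :=
  ∀ (L : PeriodPair) (Om : ℂ), IsCM (-3) 1 L Om →
    Iso3 L (⟨1, -1⟩ : OO (-3) 1) 1 ⟨-3, 3⟩ ⟨-5, -1⟩ ⟨1, -1⟩ ⟨0, 1⟩ ⟨-1, 1⟩ (-1)

/-- (OMU) multiplication by `w` is given by rational functions over `k`, in both cases.

Uses Sa_N8, Sa_N11. PROOF. `(-2,0)`: `D = 2X`, `N = -(X² + 4X + 2)`, `E = 2wX²`, `M = -(X² - 2)`.
`(-3,1)`: `D = (wX - 1)²`, `N = X³ + 3wX² + (w-6)X - w`, `E = (wX - 1)³`, `M = X³ + (w-1)X² - wX + 1`. -/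
def Sa_OMU : Prop :=
  ∀ (A B : ℤ), Case A B → ∃ D N E M : (kk A B)[X],
    ∀ (L : PeriodPair) (Om : ℂ), IsCM A B L Om → ∀ z, z ∉ L.lattice →
      (wC A B * z ∈ L.lattice → aeval (xx A B L z) D = 0) ∧
      (wC A B * z ∉ L.lattice → aeval (xx A B L z) D ≠ 0 ∧ aeval (xx A B L z) E ≠ 0 ∧
        xx A B L (wC A B * z) * aeval (xx A B L z) D = aeval (xx A B L z) N ∧
        yy L (wC A B * z) * aeval (xx A B L z) E = yy L z * aeval (xx A B L z) M)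

end

end Pool.Agent.MU3A
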