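import Pool.Agent.MU3.ADefs2
import Pool.Agent.MU3.StA

/-!
# MU3, block A: statements, part 2 (Galois theory of the torsion fields), with proofs in words

As in `StA.lean`: `def Sa_X : Prop`; the module proves `theorem ta_X (h : ...) ... : Sa_X`.
`k = kk A B`, `F_m = TF L m`, `E[m] = {z : emb m * z ∈ L}` modulo `L`, `u_m = Om / emb m`.
-/

set_option autoImplicit false

namespace Pool.Agent.MU3A

open MU3 Pool.Agent.MU3B Polynomial NumberField

noncomputable section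

/-! ## The ring `O` -/

/-- (PID) `O` is a principal ideal domain; units; primes.

PROOF. Domain: `emb` is an injective ring homomorphism to `ℂ`. `nm x = |emb x|²` (`w` and its conjugate
`B - w` are the roots of `X² - BX - A`), so `nm (x y) = nm x * nm y`, `nm x ≥ 0`, `nm x = 0` iff `x = 0`.
Euclidean: for `x, y ≠ 0` write `x * conj y / nm y = s + t w` with rational `s, t`, choose the integers `b`
nearest to `t`, then `a` nearest to `s + B (t - b)/2`; for `r = x - (a + b w) y`: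
`nm r/nm y = ((s-a) + B (t-b)/2)² + |D|/4 (t-b)² ≤ 1/4 + 11/16 < 1`. So every ideal is generated by an element
of minimal positive norm. Unit iff `nm = 1` (`x * conj x = nm x`): `(a + B b/2)² + |D| b²/4 = 1` gives `b = 0`, `a = ±1`.
Primes: let `p` be prime in `O`. `p ∣ nm p`, so `p` divides a prime number `q` (factor `nm p > 1` in `ℕ`), `q = p r`,
`q² = nm p * nm r`: `nm p = q` or `nm p = q²`, `nm r = 1`, `r = ± 1`. Conversely `nm x` prime number implies `x`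
prime (irreducible by multiplicativity, PID). -/
def Sa_PID : Prop :=
  ∀ A B : ℤ, Case A B → IsDomain (OO A B) ∧ IsPrincipalIdealRing (OO A B) ∧
    (∀ x : OO A B, 0 ≤ nm x) ∧ (∀ x y : OO A B, nm (x * y) = nm x * nm y) ∧
    (∀ x : OO A B, nm x = 0 ↔ x = 0) ∧
    (∀ x : OO A B, ((nm x : ℤ) : ℂ) = emb x * (starRingEnd ℂ) (emb x)) ∧
    (∀ x : OO A B, IsUnit x ↔ x = 1 ∨ x = -1) ∧
    (∀ x : OO A B, IsUnit x ↔ nm x = 1) ∧
    (∀ p : OO A B, Prime p → (∃ q : ℕ, q.Prime ∧ nm p = q) ∨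
      ∃ q : ℕ, q.Prime ∧ (p = q ∨ p = -(q : OO A B))) ∧
    (∀ p : OO A B, (nm p).natAbs.Prime → Prime p)

/-- (REP) classes prime to `m` are represented, up to sign, by products of primes of degree one
outside a given finite set.

Uses Sa_PID. PROOF. Replace `n` by `n' = n * nm m * 22` (as a natural number; `m ∣ n'`, all ramified primes
divide `n'`). (i) Let `t` be the product of the primes of `O` (up to units) which divide `n'` but not `c`; `c₁ = c + m t` is prime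
to `n'`: for a prime `π ∣ n'`, if `π ∣ c` then `π ∤ m`, `π ∤ t`; if `π ∤ c` then `π ∣ t`. So `c₁ = a₀ + b₀ w` and no
prime number divides `a₀, b₀, n'`. Adding `n' w` if necessary, `b₀ ≠ 0`. (ii) let `s` be the product of the prime
numbers which divide `b₀` but not `a₀`; `a = a₀ + n' s` is prime to `b₀`: for a prime `r ∣ b₀`, if `r ∣ a₀` then `r ∤ n'`,
`r ∤ s`; otherwise `r ∣ s`. So `c₂ = a + b₀ w ≡ c` mod `m`, `c₂` is prime to `n'`, and no prime number divides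
`c₂`. (iii) factor `c₂ = ± ∏ π_i` (PID). No `π_i` is `±` a prime number, so `nm π_i = q_i` is prime (PID), and `q_i ∤ n'`:
otherwise `π_i ∣ q_i ∣ n'` and `π_i ∣ c₂`. -/
def Sa_REP : Prop :=
  ∀ A B : ℤ, Case A B → ∀ m : OO A B, m ≠ 0 → ∀ n : ℕ, n ≠ 0 → ∀ c : OO A B, IsCoprime c m →
    ∃ l : List (OO A B), (∀ p ∈ l, ∃ q : ℕ, q.Prime ∧ nm p = q ∧ ¬ q ∣ n ∧ ¬ (q : ℤ) ∣ nm m ∧
      IsCoprime p m) ∧ (m ∣ c - l.prod ∨ m ∣ c + l.prod)

/-! ## Galois action -/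

/-- (ALG) coordinates of torsion points are algebraic over `k`.

Uses Sa_EQN, Sa_LAW. PROOF. `m ∣ nm m =: n`, so `n z ∈ L`, `n ≥ 1` a natural number; strong induction on `n`. `y² = cub(x)`, so
only `x` is needed. `f = cub`. Duplication (LAW) reads `x(2z) 4 f(x z) = G(x z)` with
`G = (3X² + 2a₂X + a₄)² - 4 f (2X + a₂)`, monic of degree `4` over `k`. (a) `n` even: if `2z ∈ L`: `y z = 0`, `f(x z) = 0`. Otherwise
`(n/2)(2z) ∈ L`, `x(2z)` is algebraic, `x z` is a root of the monic polynomial `G - 4 x(2z) f`, so algebraic over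
`k(x(2z))`, hence over `k`. (b) `n` odd, `n ≥ 3`: `2^j ≡ 1` mod `n` for some `j ≥ 1`, so `x(2^j z) = x z`, and no
`2^i z` is in `L`. Define polynomials over `k`: `G_0 = X`, `H_0 = 1`,
`G_(i+1) = ` homogenisation `H_i⁴ G(G_i/H_i)`, `H_(i+1) = 4 H_i⁴ f(G_i/H_i) = 4 H_i (G_i³ + a₂G_i²H_i + a₄G_iH_i² + a₆H_i³)`; by
induction `G_i` is monic of degree `4^i`, `H_i` has degree `4^i - 1` and leading coefficient `4^i`, and
`H_i(x z) ≠ 0`, `x(2^i z) H_i(x z) = G_i(x z)` (as `y(2^i z) ≠ 0`). So `x z` is a root of `G_j - X H_j`, whose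
coefficient at `X^(4^j)` is `1 - 4^j ≠ 0`. (ALTERNATIVE for all `n`: if `x z` were transcendental, take
`z'` not a torsion point with `x z'` transcendental over `k` (countability), extend `x z ↦ x z'` to an embedding
`k(x z, y z) → ℂ`; by the group law over `k` (`Point.map` and XI) `n z' ∈ L` or ... contradiction.) -/
def Sa_ALG : Prop :=
  ∀ (A B : ℤ) (L : PeriodPair) (Om : ℂ), Case A B → IsCM A B L Om →
    ∀ m : OO A B, m ≠ 0 → ∀ z, emb m * z ∈ L.lattice → z ∉ L.lattice →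
      IsAlgebraic (kk A B) (xx A B L z) ∧ IsAlgebraic (kk A B) (yy L z)

/-- (GAL) every embedding over `k` acts on `E[m]` as multiplication by some `a` prime to `m`.

Uses Sa_EQN, Sa_XI, Sa_OMU (and Sa_PID for `IsDomain`). PROOF. Let `ξ` be as in (XI), `T = {z : emb m z ∈ L}` (additive group). For
`z ∈ T` let `p z` be the point of `E(F)` with coordinates `x z, y z ∈ F` (or `0` for `z ∈ L`); `Point.map F.val (p z) = ξ z`
and `Point.map F.val` is an injective homomorphism, so `p` is additive. Let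
`s z = Point.map σ (p z) ∈ E(ℂ)` (`WeierstrassCurve.Affine.Point.map`), additive in `z ∈ T`, `s z = 0` iff `z ∈ L`. By
surjectivity of `ξ` choose `t z` with `ξ (t z) = s z`: for `z ∈ T∖L`: `t z ∉ L`, `x(t z) = σ(x z)`, `y(t z) = σ(y z)`; `t` is additive
modulo `L`. (OMU): `t (w z) ≡ w t(z)` mod `L`: if `w z ∈ L` then `D(x z) = 0`, so `D(x(t z)) = σ(D(x z)) = 0` (`D` over `k`) and `w t(z) ∈ L`;
otherwise `w t(z) ∉ L` in the same way as `D(x(tz)) = σ(D(xz)) ≠ 0`, and applying `σ` to `x(wz) D(x z) = N(x z)`,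
`y(wz) E(x z) = y z M(x z)` shows that `t(wz)` and `w t(z)` have the same `x`, `y` (EQN). So `t (emb b z) ≡ emb b t(z)` for all
`b : O`. With `u = Om/emb m`: `emb m t(u) ≡ t(emb m u) ≡ 0`, so `t(u) ≡ emb a u` for some `a` (`torsion_iff`); every
`z ∈ T` is `emb b u`, so `t z ≡ emb b t(u) ≡ emb a z`. Coprime: let `a = a' d`, `m = m' d` (`d` a common divisor); `z = emb m' u` is in `T` and
`emb a z = emb (a' m) u ∈ L`, so `t z ∈ L`, `z ∈ L`, `m ∣ m'`, so `d` is a unit; in a principal ideal domain this gives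
`IsCoprime a m` (or: `O a + O m = O d`). -/
def Sa_GAL : Prop :=
  ∀ (A B : ℤ) (L : PeriodPair) (Om : ℂ), Case A B → IsCM A B L Om →
    ∀ m : OO A B, m ≠ 0 → ∀ F : IntermediateField (kk A B) ℂ, TF L m ≤ F →
      ∀ σ : F →ₐ[kk A B] ℂ, ∃ a : OO A B, Act L σ m a

/-- (ACT) formal properties of `Act`.

Uses Sa_EQN, Sa_XI, Sa_GAL. PROOF. (1) `z = Om/emb m`; if `m` is a unit nothing is to be shown; otherwise `z ∉ L` (`m ∤ 1`), `x(az) = σ(x z) = x(bz)`,
`y(az) = y(bz)`, so `(a - b) z ∈ L` (EQN), `m ∣ a - b` (`mul_div_mem_iff`). (2) `emb b z - emb a z ∈ L` for `z ∈ E[m]`;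
periodicity. (3) `E[m'] ⊆ E[m]`. (4) `σ (τ (x z)) = σ (x(bz)) = x(a b z)` (`x(bz)` is in `F`, `emb m (emb b z) ∈ L`). (5) both
agree on the generators of `TF L m` (`IntermediateField.adjoin` induction,
or `IntermediateField.algHom_ext_of_eq_adjoin`). (6) by (GAL) every `σ` has some `a`; with (4), (1) and (5) and commutativity of `O`.
(7) trivial. (8) restriction: the conditions only involve elements of `F`. -/
def Sa_ACT : Prop :=
  ∀ (A B : ℤ) (L : PeriodPair) (Om : ℂ), Case A B → IsCM A B L Om →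
    ∀ m : OO A B, m ≠ 0 →
    (∀ (F : IntermediateField (kk A B) ℂ) (σ : F →ₐ[kk A B] ℂ) (a b : OO A B), TF L m ≤ F →
      Act L σ m a → Act L σ m b → m ∣ a - b) ∧
    (∀ (F : IntermediateField (kk A B) ℂ) (σ : F →ₐ[kk A B] ℂ) (a b : OO A B), m ∣ a - b →
      Act L σ m a → Act L σ m b) ∧
    (∀ (F : IntermediateField (kk A B) ℂ) (σ : F →ₐ[kk A B] ℂ) (a m' : OO A B), m' ∣ m →
      Act L σ m a → Act L σ m' a) ∧
    (∀ (F : IntermediateField (kk A B) ℂ) (σ τ : F ≃ₐ[kk A B] F) (a b : OO A B), TF L m ≤ F →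
      Act L (em σ) m a → Act L (em τ) m b → Act L (em (σ * τ)) m (a * b)) ∧
    (∀ (σ τ : TF L m →ₐ[kk A B] ℂ) (a : OO A B), Act L σ m a → Act L τ m a → σ = τ) ∧
    (∀ σ τ : TF L m ≃ₐ[kk A B] TF L m, σ * τ = τ * σ) ∧
    (∀ (F : IntermediateField (kk A B) ℂ), TF L m ≤ F → Act L (em (1 : F ≃ₐ[kk A B] F)) m 1) ∧
    (∀ (F F' : IntermediateField (kk A B) ℂ) (hF : F ≤ F') (σ : F' →ₐ[kk A B] ℂ) (a : OO A B),
      Act L σ m a → Act L (σ.comp (IntermediateField.inclusion hF)) m a)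

/-- (NRM) `F_m / k` is a finite Galois extension (abelian by (ACT)).

Uses Sa_ALG, Sa_GAL, Sa_EQN. PROOF. The set of generators is finite: `z ∈ E[m]` is `emb x Om/emb m` and `x z`, `y z` depend only on `x` mod `m`
(periodicity), `O/m` is finite (`m ∣ nm m`, and `x mod nm m` has finitely many classes). Algebraic generators:
`IntermediateField.finiteDimensional_adjoin`. Normal: `IntermediateField.normal_iff_forall_fieldRange_le`
(`ℂ` is algebraically closed; or `normal_iff_forall_map_le`): an embedding maps the generators to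
generators (GAL). Separable: characteristic `0`. -/
def Sa_NRM : Prop :=
  ∀ (A B : ℤ) (L : PeriodPair) (Om : ℂ), Case A B → IsCM A B L Om →
    ∀ m : OO A B, m ≠ 0 → FiniteDimensional (kk A B) (TF L m) ∧ IsGalois (kk A B) (TF L m)

/-- (FROB) the Frobenius at a prime of degree one acts on `E[m]` as `± lam` (helper59).

PROOF: block of helper59 (`PFG` and the valuation lemmas). -/
def Sa_FROB : Prop :=
  ∀ (A B : ℤ) (L : PeriodPair) (Om : ℂ), Case A B → IsCM A B L Om →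
    ∃ n : ℕ, n ≠ 0 ∧ ∀ (lam : OO A B) (q : ℕ), q.Prime → nm lam = q → ¬ q ∣ n →
      ∀ m : OO A B, m ≠ 0 → ¬ (q : ℤ) ∣ nm m →
      ∀ (F : IntermediateField (kk A B) ℂ) [FiniteDimensional (kk A B) F] [IsGalois (kk A B) F],
        TF L m ≤ F → ∀ w : Ideal (𝓞 F), w.IsPrime → Abv w lam → ∀ σ : F ≃ₐ[kk A B] F,
          IsFrQ w q σ → Act L (em σ) m lam ∨ Act L (em σ) m (-lam)

/-- (INT) the ring of integers of `k` is `O`; `k` is a number field of degree two.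

Uses Sa_PID. PROOF. `w` is a root of the monic integral polynomial `X² - BX - A`, so `kk A B` is finite over `ℚ`, and every element of
`k` is `s + t w` with rational `s, t` (the set of these is a subfield), i.e. `emb x/emb n`, `n` a positive integer. `emb` is an
injection of `O` into `k` and `k` is the field of fractions of its image; `O` is a PID, so integrally closed
(`IsIntegrallyClosed` of a UFD; or directly: `x/n` in lowest terms and integral gives `n ∣ x^j`). Conversely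
`emb x` is integral over `ℤ` (`w` is). -/
def Sa_INT : Prop :=
  ∀ A B : ℤ, Case A B → FiniteDimensional ℚ (kk A B) ∧ Module.finrank ℚ (kk A B) = 2 ∧
    (∀ x : kk A B, ∃ s t : ℚ, (x : ℂ) = s + t * wC A B) ∧
    ∀ x : ℂ, x ∈ kk A B → (IsIntegral ℤ x ↔ ∃ y : OO A B, x = emb y)

/-- (FEX) existence of Frobenius automorphisms at degree one primes.

Uses Sa_INT, Sa_PID. PROOF. `emb lam` is not a unit of `𝓞 F`: otherwise its inverse is in `k` and integral, so it is `emb y` (INT),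
`lam y = 1`, `nm lam = 1`. Let `w` be a maximal ideal of `𝓞 F` containing it. `Gal(F/k)` acts on `𝓞 F` with invariants
`𝓞 k` (`Algebra.IsInvariant`; Mathlib: `RingTheory/Frobenius.lean`, `IsArithFrobAt.exists_of_isInvariant`,
`𝓞 F ⧸ w` is finite), so there is `σ` with `σ x - x^N ∈ w`, `N = ` number of elements of `𝓞 k ⧸ (w ∩ 𝓞 k)`. `w ∩ 𝓞 k` is the
image of a proper ideal of `O` containing `lam`, so it is `(lam)` (`lam` prime, PID, maximal), and `O/lam` has `q` elements: it is a ring in which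
`q = 0`, and `ℤ → O/lam` is onto (`lam = a + b w`, `q ∤ b`: otherwise `q ∣ a²`, `q² ∣ nm lam`; so `w ≡ -a/b`
modulo `lam`). -/
def Sa_FEX : Prop :=
  ∀ (A B : ℤ), Case A B → ∀ (F : IntermediateField (kk A B) ℂ) [FiniteDimensional (kk A B) F]
    [IsGalois (kk A B) F] (lam : OO A B) (q : ℕ), q.Prime → nm lam = q →
    ∃ w : Ideal (𝓞 F), w.IsPrime ∧ w ≠ ⊥ ∧ Abv w lam ∧ ∃ σ : F ≃ₐ[kk A B] F, IsFrQ w q σ

/-- (S5) the Galois group of `F_m / k` is everything up to sign.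

Uses Sa_FROB, Sa_FEX, Sa_REP, Sa_ACT. PROOF. `n` from (FROB). (REP) for `c`: a list `l` of degree one primes outside `n`, prime to `m`,
`c ≡ ± ∏ l`. For each `p ∈ l` (FEX), (FROB) give `σ_p` with `Act (em σ_p) m (± p)`. The product of the `σ_p` acts as
`± ∏ l ≡ ± c` (ACT, induction on the list). -/
def Sa_S5 : Prop :=
  ∀ (A B : ℤ) (L : PeriodPair) (Om : ℂ), Case A B → IsCM A B L Om →
    ∀ m : OO A B, m ≠ 0 →
      ∀ (F : IntermediateField (kk A B) ℂ) [FiniteDimensional (kk A B) F] [IsGalois (kk A B) F],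
        TF L m ≤ F → ∀ c : OO A B, IsCoprime c m →
          ∃ σ : F ≃ₐ[kk A B] F, Act L (em σ) m c ∨ Act L (em σ) m (-c)

/-- (DENSF) a subgroup which contains almost all Frobenius elements of degree one primes is everything
(helper87; general number fields; here for subfields of `ℂ`). `F / k` finite abelian.

PROOF: block of helper87/helper51. -/
def Sa_DENSF : Prop :=
  ∀ (A B : ℤ), Case A B → ∀ (F : IntermediateField (kk A B) ℂ) [FiniteDimensional (kk A B) F]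
    [IsGalois (kk A B) F], (∀ σ τ : F ≃ₐ[kk A B] F, σ * τ = τ * σ) →
    ∀ (H : Subgroup (F ≃ₐ[kk A B] F)) (n : ℕ), n ≠ 0 →
      (∀ (lam : OO A B) (q : ℕ), q.Prime → nm lam = q → ¬ q ∣ n → ∀ w : Ideal (𝓞 F), w.IsPrime →
        Abv w lam → ∀ σ : F ≃ₐ[kk A B] F, IsFrQ w q σ → σ ∈ H) → H = ⊤

/-- (CYC) roots of unity (Weil pairing without Weil pairing): `ζ_M ∈ F_M`, and
`σ ζ_M = ζ_M^(N a)` if `σ` acts as `a` on `E[M]`.

Uses Sa_FROB, Sa_DENSF, Sa_ACT, Sa_NRM, Sa_GAL, Sa_PID. PROOF. Let `ζ` be a primitive `M`-th root of unity, `F₁ = F_M(ζ)`: finite Galois over `k` (compositum of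
`F_M` and `k(ζ)`), abelian (an automorphism is determined by its actions on `F_M` and on `ζ`). `H` = the set of
`σ ∈ Gal(F₁/k)` such that, with `Act (em σ) M a`, `σ ζ = ζ^(N a)`: a subgroup (ACT; `N a` mod `M` depends only on `a` mod `M`:
`nm (a + M b) ≡ nm a`). Let `n` be `M` times the `n` of (FROB). For a degree one prime `lam`, `q = nm lam ∤ n`, `w` above `lam`, `σ` Frobenius:
`Act (em σ) M (± lam)`, `N(± lam) = q`; `σ ζ = ζ^i` for some `i` and `ζ^i - ζ^q ∈ w`; since `∏_(j=1)^(M-1) (1 - ζ^j) = M ∉ w`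
(`w ∩ ℤ = q ℤ`), `ζ^i = ζ^q`. So `σ ∈ H`, `H = ⊤` (DENSF). An automorphism of `F₁/F_M` acts as `a = 1` on `E[M]`, so it fixes `ζ`: `ζ ∈ F_M`,
`F₁ = F_M`. For general `F ⊇ F_M` and `σ : F → ℂ` with `Act σ M a`: the restriction of `σ` to `F_M` is an
automorphism of `F_M` (normal), so `σ ζ = ζ^(N a)`. -/
def Sa_CYC : Prop :=
  ∀ (A B : ℤ) (L : PeriodPair) (Om : ℂ), Case A B → IsCM A B L Om →
    ∀ (M : ℕ), M ≠ 0 → ∀ ζ : ℂ, ζ ^ M = 1 → ζ ∈ TF L (M : OO A B) ∧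
      ∀ (F : IntermediateField (kk A B) ℂ) (hF : TF L (M : OO A B) ≤ F) (hζ : ζ ∈ F)
        (σ : F →ₐ[kk A B] ℂ) (a : OO A B), Act L σ (M : OO A B) a →
          σ ⟨ζ, hζ⟩ = ζ ^ (nm a).toNat

/-! ## The sign -/

/-- (M8) `w² = -2`: `y(Om/w⁵)` is in the field generated by the `x`-coordinates of `E[4w]`.

Uses Sa_N8, Sa_EQN. PROOF. `4 w = w⁵`, `4 = w⁴`. `z_j = Om/w^j`, `x_j = x(z_j)`, `y_j = y(z_j)` for `1 ≤ j ≤ 5`; `z_j ∉ L`, `w⁵ z_j ∈ L`, `w z_j = z_(j-1)`.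
(N8): `x₁ = 0`; `x_(j-1) 2 x_j = -(x_j² + 4x_j + 2)`, so `x_j² + (4 + 2x_(j-1)) x_j + 2 = 0` (`j ≥ 2`) and, by the equation,
`y_j² = x_j (x_j² + 4x_j + 2) = -2 x_j² x_(j-1)`. `r := x₂ + 2`: `r² = 2`. `i := w/r`: `i² = -1`. `x₃² + 2r x₃ + 2 = (x₃ + r)² = 0`:
`x₃ = -r`. `x₄² + (4 - 2r)x₄ + 2 = 0`: with `t := (x₄ + 2 - r)/2`, `t² = 1 - r`, `x₄ = 2t - 2 + r = -(1-t)² = (i (1-t))²`. So
`y₅² = -2 x₅² x₄ = (w x₅ i (1-t))²` and `y₅ = ± w x₅ i (1-t)` is in the field. -/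
def Sa_M8 : Prop :=
  ∀ (L : PeriodPair) (Om : ℂ), IsCM (-2) 0 L Om →
    yy L (Om / wC (-2) 0 ^ 5) ∈ XF L (⟨0, 4⟩ : OO (-2) 0)

/-- (M11) `w² = w - 3`: `y(Om/4)` is in the field generated by the `x`-coordinates of `E[4]`.

Uses Sa_EQN, Sa_LAW. PROOF. `δ = 2w - 1`, `f = X³ + δX² - 3X - δ/4 = (X-e₁)(X-e₂)(X-e₃)`, `e_i = x(T_i)`, `T₁ = Om/2`, `T₂ = Om w/2`,
`T₃ = Om (1+w)/2` (the three points of order two: `y = 0`, different `x`: EQN). `P_i = T_i/2`, `p_i = x(P_i)`, `r_i = p_i - e_i`. (LAW) for `z = P_i`: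
`x(2z) - e₁ = ((x-e₁)² - (e₁-e₂)(e₁-e₃))²/(4y²)` (`ring`, with `a₂ = -(e₁+e₂+e₃)` etc.), so `r₁² = (e₁-e₂)(e₁-e₃)`, and
cyclically `r₂² = (e₂-e₁)(e₂-e₃)`, `r₃² = (e₃-e₁)(e₃-e₂)`. `d := (e₁-e₂)(e₂-e₃)(e₃-e₁)`: `d² = ` discriminant of `f` `= 1/16`,
`d = ± 1/4`. `(r₁r₂r₃)² = -d²`: `i := r₁r₂r₃/d`, `i² = -1`. So the field (which contains all `e_i`, `p_i`) contains `i`,
and `√d`, `√(-d)` (they are `± 1/2`, `± i/2`). `e₁ - e₃ = d/r₂²` is the square of `β = √d/r₂`, and `α := r₁/β`: `α² = e₁ - e₂`.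
`y(P₁)² = f(e₁ + r₁) = r₁ (r₁ + e₁ - e₂)(r₁ + e₁ - e₃) = r₁² (2r₁ + (e₁-e₂) + (e₁-e₃)) = (r₁ (α + β))²`, so
`y(P₁) = ± r₁ (α + β)` is in the field. -/
def Sa_M11 : Prop :=
  ∀ (L : PeriodPair) (Om : ℂ), IsCM (-3) 1 L Om →
    yy L (Om / 4) ∈ XF L (4 : OO (-3) 1)

/-- (NEG) `-1` is not in the Galois group of `F_m / k` if `mz ∣ m`; index two.

Uses Sa_M8, Sa_M11, Sa_EQN, Sa_ACT, Sa_S5. PROOF. (1) If `Act σ m a` with `m ∣ a + 1` then `Act σ mz (-1)` (ACT), so `σ(x z) = x(-z) = x z` for all `z ∈ E[mz]`, `σ` is the identity on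
`XF L mz`, so (M8, M11) it fixes `y(z₀)`, `z₀ = Om/w⁵` resp. `Om/4`; but `σ(y z₀) = y(-z₀) = -y z₀`: `y z₀ = 0`, `2 z₀ ∈ L` (EQN), which is false
(`mul_div_mem_iff`). (2) For `c` prime to `m` not both `c` and `-c` are `a`'s of automorphisms of `F` (the quotient would be
`-1`), with (S5) exactly one. (3) if `c^j ≡ 1` mod `m`, `j` odd, then `c` itself occurs: otherwise `-c` does and `(-c)^j ≡ -1`. -/
def Sa_NEG : Prop :=
  ∀ (A B : ℤ) (L : PeriodPair) (Om : ℂ), Case A B → IsCM A B L Om →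
    ∀ m : OO A B, m ≠ 0 → mz A B ∣ m →
    (∀ (F : IntermediateField (kk A B) ℂ), TF L m ≤ F → ∀ (σ : F →ₐ[kk A B] ℂ) (a : OO A B),
      m ∣ a + 1 → ¬ Act L σ m a) ∧
    (∀ (F : IntermediateField (kk A B) ℂ) [FiniteDimensional (kk A B) F] [IsGalois (kk A B) F],
      TF L m ≤ F → ∀ c : OO A B, IsCoprime c m →
        ((∃ σ : F ≃ₐ[kk A B] F, Act L (em σ) m c) ↔
          ¬ ∃ σ : F ≃ₐ[kk A B] F, Act L (em σ) m (-c))) ∧
    ∀ (F : IntermediateField (kk A B) ℂ) [FiniteDimensional (kk A B) F] [IsGalois (kk A B) F],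
      TF L m ≤ F → ∀ (c : OO A B) (j : ℕ), Odd j → m ∣ c ^ j - 1 →
        ∃ σ : F ≃ₐ[kk A B] F, Act L (em σ) m c

/-! ## At the prime 3 -/

/-- (V3) elementary facts on a valuation ring `V` of `ℂ` with `ppi` in its maximal ideal.

PROOF. `w ∈ V`: otherwise `1/w` is in the maximal ideal and `1 = A/w² + B/w` (`w² = A + B w`) as well. So `emb O ⊆ V`. `3 = emb ppi * (1 - w)` in both cases,
so `3` is in the maximal ideal, `2 = 3 - 1` and `8 = 9 - 1`, `11 = 12 - 1` are units, `1 - w` is a unit: `(1 + w) + (1 - w) = 2`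
resp. `w + (1 - w) = 1`. If `p ∤ x` (`p = ppi`) then `emb x` is a unit: `p` is prime, `nm p = 3`, `u x + v p = 1`. -/
def Sa_V3 : Prop :=
  ∀ (A B : ℤ), Case A B → ∀ V : ValuationSubring ℂ, emb (ppi A B) ∈ V.nonunits →
    (∀ x : OO A B, emb x ∈ V) ∧ (3 : ℂ) ∈ V.nonunits ∧
    (∀ x : OO A B, ¬ ppi A B ∣ x → emb x ∉ V.nonunits) ∧
    (∀ x : OO A B, ppi A B ∣ x → emb x ∈ V.nonunits)

/-- (T3) reduction of torsion points at a place above `ppi`: `E[ppi^n]` is in the kernel of reduction,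
and torsion of order prime to `ppi` is not.

Uses Sa_V3, Sa_N8P, Sa_N11, Sa_N11C, Sa_EQN, and for (4) the lemma no torsion of order prime to the residue characteristic in the kernel of
reduction (`VRed.eq_zero_of_nsmul` of helper59, with XI), here as (3). PROOF. Let `D = ppi X + d₀`, `N` be the polynomials of `Iso3` for
`ppi`: `d₀` is a unit of `V` (`w` resp. `-1`; `w ≡ -1` modulo `1 + w`). (1) if `x z ∈ V` then `D(x z)` is a unit, so `ppi z ∉ L` and `x(ppi z) = N/D² ∈ V`. By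
induction `ppi^n z ∉ L`; this is the contrapositive of the first claim. (2) for `c = 1 - w` (unit of `V`), `D = c X + d₀'`: if `x z ∉ V` then with `s = 1/x z` in the maximal
ideal `D/x = c + d₀' s` is a unit, `N/x³ = 1 + n₂ s + ..` is a unit, `D ≠ 0`, so `c z ∉ L` and `x(cz) = x z (unit) ∉ V`. (4) `m` prime to `ppi`: `m = (1-w)^j m'`,
`3 ∤ nm m'` (PID); if `x z ∉ V` then by (2) `z' = (1-w)^j z` has `z' ∉ L`, `x z' ∉ V`, and `nm m' z' ∈ L`: contradiction to (3). -/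
def Sa_T3 : Prop :=
  ∀ (A B : ℤ) (L : PeriodPair) (Om : ℂ), Case A B → IsCM A B L Om →
    ∀ V : ValuationSubring ℂ, emb (ppi A B) ∈ V.nonunits →
    (∀ z, z ∉ L.lattice → xx A B L z ∈ V →
      emb (ppi A B) * z ∉ L.lattice ∧ xx A B L (emb (ppi A B) * z) ∈ V) ∧
    (∀ (n : ℕ) (z : ℂ), z ∉ L.lattice → emb (ppi A B ^ n) * z ∈ L.lattice → xx A B L z ∉ V) ∧
    (∀ z, z ∉ L.lattice → xx A B L z ∉ V →
      emb (ppc A B) * z ∉ L.lattice ∧ xx A B L (emb (ppc A B) * z) ∉ V) ∧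
    ((∀ (n : ℕ) (z : ℂ), z ∉ L.lattice → (n : ℂ) * z ∈ L.lattice → ¬ 3 ∣ n → xx A B L z ∈ V) →
      ∀ (m : OO A B) (z : ℂ), m ≠ 0 → IsCoprime m (ppi A B) → z ∉ L.lattice →
        emb m * z ∈ L.lattice → xx A B L z ∈ V)

/-- (FR3) multiplication by `- ppi` is the Frobenius modulo `ppi`.

Uses Sa_V3, Sa_N8P, Sa_N11, Sa_EQN. PROOF. Let `p = ppi`, `x = x z ∈ V`, `y = y z ∈ V` (`y² = cub(x)`, the coefficients are in `V`: `4` is a unit).
`x(p z) = N(x)/D(x)²`, `y(p z) = y M(x)/D(x)³` (`Iso3`), `D(x) ≡ -1` modulo `p` (so it is a unit and `p z ∉ L`), `N ≡ X³` (`n₂, n₁, n₀` are divisible by `p`: 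
`4 - 2w`, `2 - 4w` are divisible by `1 + w`; `3w, w - 6, -w` by `w`), so `x(p z) ≡ x³`; and `M ≡ cub` modulo `p`
(`(-2,0)`: modulo `1 + w`: `w ≡ -1`, `3 ≡ 0`, `M ≡ X³ + X² + 2X`, `cub = X³ + 4X² + 2X`; `(-3,1)`: modulo `w`, `δ ≡ -1`,
`M ≡ X³ - X² + 1`, `cub ≡ X³ - X² + 1/4`, `1/4 ≡ 1`), so `y(p z) ≡ -y cub(x) = -y³`. `x(-pz) = x(pz)`, `y(-pz) = -y(pz)`. -/
def Sa_FR3 : Prop :=
  ∀ (A B : ℤ) (L : PeriodPair) (Om : ℂ), Case A B → IsCM A B L Om →
    ∀ V : ValuationSubring ℂ, emb (ppi A B) ∈ V.nonunits →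
    ∀ z, z ∉ L.lattice → xx A B L z ∈ V →
      yy L z ∈ V ∧
      xx A B L (emb (-ppi A B) * z) - xx A B L z ^ 3 ∈ V.nonunits ∧
      yy L (emb (-ppi A B) * z) - yy L z ^ 3 ∈ V.nonunits

end

end Pool.Agent.MU3A
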