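import Pool.Agent.MU3.StI
import Pool.Agent.MU3.StA2

/-!
# MU3, block I (helper36), part 2: the fields

`TorA` collects the facts on the fields `TF L m = k(E[m])` (block A, helper34). `IMOD` shows that the concrete
action is an `IsMod`, `I3F` is the input (I3) for one generator `γ`.
-/

set_option autoImplicit false

namespace Pool.Agent.MU3I

open _root_.MU3 Pool.Agent.MU3 Pool.Agent.MU3A Pool.Agent.MU3B Pool.Agent.MU3C Pool.Agent.RI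
  Pool.Agent.RID

noncomputable section

set_option maxHeartbeats 2000000 in
/-- The facts on the fields `TF L m` used here (from block A). -/
structure TorA (A B : ℤ) (L : PeriodPair) (Om : ℂ) : Prop where
  fin : ∀ m : OO A B, m ≠ 0 → FiniteDimensional (kk A B) (TF L m)
  gal : ∀ m : OO A B, m ≠ 0 → IsGalois (kk A B) (TF L m)
  act : ∀ m : OO A B, m ≠ 0 → ∀ σ : TF L m ≃ₐ[kk A B] TF L m, ∃ x, Act L (em σ) m x
  per : ∀ m : OO A B, m ≠ 0 → ∀ (σ : TF L m ≃ₐ[kk A B] TF L m) (x y : OO A B),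
    Act L (em σ) m x → (Act L (em σ) m y ↔ m ∣ x - y)
  inj : ∀ m : OO A B, m ≠ 0 → ∀ (σ τ : TF L m ≃ₐ[kk A B] TF L m) (x : OO A B),
    Act L (em σ) m x → Act L (em τ) m x → σ = τ
  mul : ∀ m : OO A B, m ≠ 0 → ∀ (σ τ : TF L m ≃ₐ[kk A B] TF L m) (x y : OO A B),
    Act L (em σ) m x → Act L (em τ) m y → Act L (em (σ * τ)) m (x * y)
  tower : ∀ m m' : OO A B, m' ≠ 0 → m ∣ m' → TF L m ≤ TF L m'
  res : ∀ m m' : OO A B, m' ≠ 0 → m ∣ m' → ∀ (σ : TF L m' ≃ₐ[kk A B] TF L m')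
    (τ : TF L m ≃ₐ[kk A B] TF L m) (x : OO A B), Act L (em σ) m' x →
    (∀ (y : ℂ) (hy : y ∈ TF L m) (hy' : y ∈ TF L m'),
      ((σ ⟨y, hy'⟩ : TF L m') : ℂ) = ((τ ⟨y, hy⟩ : TF L m) : ℂ)) → Act L (em τ) m x
  zeta : ∀ m : OO A B, m ≠ 0 → ∀ M : ℕ, (M : OO A B) ∣ m → ∀ z : ℂ, z ^ M = 1 →
    z ∈ TF L m ∧ ∀ (σ : TF L m ≃ₐ[kk A B] TF L m) (x : OO A B) (hz : z ∈ TF L m),
      Act L (em σ) m x → ((σ ⟨z, hz⟩ : TF L m) : ℂ) = z ^ (nm x).toNat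

/-- (ITOR) `TorA` from block A.

Uses Sa_GAL, Sa_ACT, Sa_NRM, Sa_CYC (`StA2.lean`). PROOF. `fin`, `gal`: NRM. `act`: GAL with `F = TF L m`, `σ = em σ`. `per`: ACT (1), (2). `inj`:
ACT (5) gives `em σ = em τ`, so `σ = τ`. `mul`: ACT (4). `tower`: `m = m₁ d`.. `E[m] ⊆ E[m']`: the generators of `TF L m` are
generators of `TF L m'` (`IntermediateField.adjoin.mono`; `emb m z ∈ L` implies `emb m' z ∈ L`, `IsLat.emb_mul_mem`). `res`: by ACT (3) and (8):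
`Act L (em σ) m x`, then `Act L ((em σ).comp (inclusion _)) m x`, and `(em σ).comp (inclusion _) = em τ` by the hypothesis. `zeta`: CYC for `M` (`M ≠ 0` as `m ≠ 0`):
`z ∈ TF L M ≤ TF L m`, and `Act L (em σ) M x` by ACT (3). -/
def St_ITOR : Prop :=
  ∀ (A B : ℤ) (L : PeriodPair) (Om : ℂ), Case A B → IsCM A B L Om → TorA A B L Om

/-- the standard root of unity of order `M` -/
def zt (M : ℕ) : ℂ := Complex.exp (2 * Real.pi * Complex.I / M)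

/-- (ILAY) the layer is the real subfield of `ℚ(ζ)`, `ζ` of order `3^(n+1)`.

PROOF. `B ≤ ℚ(μ_(3^j))` for some `j`, we may take `j ≥ n + 1`. `Gal(ℚ(μ_(3^j))/ℚ) ≅ (ℤ/3^j)^*` is cyclic (odd prime), so
`ℚ(μ_(3^j))` has at most one subfield of degree `3^n` (Galois correspondence; subgroups of a cyclic group are
determined by their order; compare `Pool/Agent/RID/P_LAYC.lean`). `ℚ(ζ + ζ⁻¹)`, `ζ = zt (3^(n+1))`, has degree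
`φ(3^(n+1))/2 = 3^n`: it is the fixed field of `ζ ↦ ζ⁻¹` in `ℚ(ζ)` (`ζ` is a root of `X² - (ζ + ζ⁻¹) X + 1`, so `[ℚ(ζ) : ℚ(ζ+ζ⁻¹)] ≤ 2`,
and it is `≠ 1` since `ℚ(ζ+ζ⁻¹)` is real and `ζ` is not). -/
def St_ILAY : Prop :=
  ∀ (n : ℕ) (B : IntermediateField ℚ ℂ) (_ : IsLayer 3 n B),
    B = IntermediateField.adjoin ℚ {zt (3 ^ (n + 1)) + (zt (3 ^ (n + 1)))⁻¹}

/-- (IGAM) the automorphism `γ` of `K_n / k`: trivial on `K`, acting on the layer as `4`.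

Uses TorA, ILAY. PROOF. `m = lev A B f n = f 3^(n+1)`. CRT in `ℤ`: choose `x ∈ ℤ` with `x ≡ 1` modulo `f` and `x ≡ -2` modulo
`3^(n+1)` (`3 ∤ f`); then `x ≡ 1` modulo `3 f` and `x` is prime to `m`. By `Cpl` one of `x`, `-x` is `a_σ` for some `σ` of
`TF L m`. If it were `-x`: restrict `σ` to `TF L (3f)` (`tower`, `res`; it is Galois): the restriction acts as `-x`, i.e. `-1`
modulo `3f`; but the identity acts as `1`, so by `Cpl` for `lev A B f 0 = 3 f` no automorphism acts as `-1`. So `a_σ = x`, and `σ` is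
trivial on `TF L (3f)` (`inj`), so on `K`. `D = K ⊔ B n` is contained in `TF L m` and `D/k` is Galois, so `σ` restricts to `γ` of
`D`. `σ ζ = ζ^(x²) = ζ^4` for `ζ = zt (3^(n+1))` (`zeta`; `nm x = x²`; `x² ≡ 4` modulo `3^(n+1)`). Fixed field: let `y ∈ D` be fixed by `γ`. `Gal(D/K)` embeds
into `Gal(B n/ℚ)` by restriction, which is cyclic of order `3^n`, generated by the restriction of `γ`, `ζ + ζ⁻¹ ↦ ζ^4 + ζ^(-4)`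
(ILAY; the powers `γ^i` map `ζ + ζ⁻¹` to `ζ^(4^i) + ζ^(-4^i)`, different for `0 ≤ i < 3^n` because `4^i ≡ ± 4^j` modulo `3^(n+1)`
only for `i ≡ j` modulo `3^n`; and `Gal(B n/ℚ)` has order `3^n`). So every element of `Gal(D/K)` is a power of `γ`, and `y` is fixed by `Gal(D/K)`:
`y ∈ K`. Order: `γ^(3^n)` is trivial on `K` and on `B n`. -/
def St_IGAM : Prop :=
  ∀ (A B : ℤ) (_ : Case A B) (L : PeriodPair) (Om : ℂ) (_ : IsCM A B L Om) (_ : TorA A B L Om)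
    (f : ℕ) (_ : f ≠ 0) (_ : ¬ 3 ∣ f) (_ : ∀ n, Cpl L (lev A B f n))
    (K : IntermediateField ℚ ℂ) [FiniteDimensional ℚ K] (_ : kk A B ≤ K)
    (_ : ∀ x ∈ K, x ∈ TF L (lev A B f 0)) (n : ℕ) (Bn : IntermediateField ℚ ℂ)
    (_ : IsLayer 3 n Bn) (h : kk A B ≤ K ⊔ Bn),
    letI := algC h
    ∀ _ : IsGalois (kk A B) ↥(K ⊔ Bn),
    (∀ x ∈ K ⊔ Bn, x ∈ TF L (lev A B f n)) ∧ ∃ γ : ↥(K ⊔ Bn) ≃ₐ[kk A B] ↥(K ⊔ Bn),
      (∀ x : ↥(K ⊔ Bn), γ x = x ↔ (x : ℂ) ∈ K) ∧ γ ^ 3 ^ n = 1 ∧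
      (∀ hz : zt (3 ^ (n + 1)) + (zt (3 ^ (n + 1)))⁻¹ ∈ K ⊔ Bn,
        ((γ ⟨_, hz⟩ : ↥(K ⊔ Bn)) : ℂ) = zt (3 ^ (n + 1)) ^ 4 + (zt (3 ^ (n + 1)) ^ 4)⁻¹) ∧
      (∀ σ : ↥(K ⊔ Bn) ≃ₐ[kk A B] ↥(K ⊔ Bn),
        (∀ x : ↥(K ⊔ Bn), (x : ℂ) ∈ K → σ x = x) → ∃ i : ℕ, σ = γ ^ i)

/-- (IMOD) the concrete action is an `IsMod`.

Uses TorA, ILAY. PROOF. `D = K ⊔ Bn`, `m = lev A B f n`, `X τ` = the `x` with class in `XX L m h τ`. By `per` of TorA, `x ∈ X τ` iff some `σ`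
of `TF L m` has `Act L (em σ) m x` and extends `τ` (`Act` depends only on `x` modulo `m`). `comm`: `Gal(TF L m/k)` is abelian (`act`, `mul`,
`per`, `inj`: `x y = y x`) and every `τ` extends to `TF L m` (`D ⊆ TF L m`, `TF L m / k` normal; lift of automorphisms). `ord`, `gen`: hypotheses `ho`,
`hg`: for `τ` in the group, let `i` be such that `τ γ^(-i)` is trivial on `Bn`: the restriction of `τ` to `Bn` maps `ζ + ζ⁻¹` to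
`ζ^c + ζ^(-c)` with `c` prime to 3, and `c ≡ ± 4^i` modulo `3^(n+1)` for some `i` (the powers of `4` are the `c ≡ 1` modulo 3). `one`: the identity
(`emb 1 z = z`). `cop`: part of `Act`. `ex`: `Cpl`, restriction to `D` (`D/k` normal). `uniq`: `σ` is determined by `x` (`inj`), `τ` by
`σ`. `mul`: TorA. `neg`: if `x ∈ X τ` and `x ≡ -1` modulo `3f = lev A B f 0`, restrict `σ` to `TF L (3f)`: it acts as `-1`, and the identity as `1`, against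
`Cpl` for `n = 0`. `triv`: `σ` restricted to `TF L (3f)` acts as `1`, so it is the identity (`inj`) and `τ` is trivial on `K`: `hk`. `nrm`:
`τ γ^(-i) ∈ NC h Bn` iff `τ` and `γ^i` agree on `Bn`, iff they agree at `ζ + ζ⁻¹` (ILAY), iff `ζ^(N x) + ζ^(-N x) = ζ^(4^i) + ζ^(-4^i)`
(`zeta`), iff `N x ≡ ± 4^i` modulo `3^(n+1)` (`a + a⁻¹ = b + b⁻¹` iff `a = b` or `a b = 1`; `ζ` is primitive). `γ^i` maps
`ζ + ζ⁻¹` to `ζ^(4^i) + ζ^(-4^i)` by induction: `ζ^j + ζ^(-j)` is an integral polynomial in `ζ + ζ⁻¹`. -/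
def St_IMOD : Prop :=
  ∀ (A B : ℤ) (_ : Case A B) (L : PeriodPair) (Om : ℂ) (_ : IsCM A B L Om) (_ : TorA A B L Om)
    (f : ℕ) (_ : f ≠ 0) (_ : ¬ 3 ∣ f) (_ : ∀ n, Cpl L (lev A B f n))
    (K : IntermediateField ℚ ℂ) [FiniteDimensional ℚ K] (_ : kk A B ≤ K)
    (_ : ∀ x ∈ K, x ∈ TF L (lev A B f 0)) (n : ℕ) (Bn : IntermediateField ℚ ℂ)
    (_ : IsLayer 3 n Bn) (h : kk A B ≤ K ⊔ Bn),
    letI := algC h
    ∀ (_ : IsGalois (kk A B) ↥(K ⊔ Bn)) (_ : ∀ x ∈ K ⊔ Bn, x ∈ TF L (lev A B f n))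
      (γ : ↥(K ⊔ Bn) ≃ₐ[kk A B] ↥(K ⊔ Bn)) (_ : ∀ x : ↥(K ⊔ Bn), γ x = x ↔ (x : ℂ) ∈ K)
      (_ : γ ^ 3 ^ n = 1)
      (_ : ∀ hz : zt (3 ^ (n + 1)) + (zt (3 ^ (n + 1)))⁻¹ ∈ K ⊔ Bn,
        ((γ ⟨_, hz⟩ : ↥(K ⊔ Bn)) : ℂ) = zt (3 ^ (n + 1)) ^ 4 + (zt (3 ^ (n + 1)) ^ 4)⁻¹)
      (_ : ∀ σ : ↥(K ⊔ Bn) ≃ₐ[kk A B] ↥(K ⊔ Bn),
        (∀ x : ↥(K ⊔ Bn), (x : ℂ) ∈ K → σ x = x) → ∃ i : ℕ, σ = γ ^ i),
      IsMod (A := A) (B := B) f n γ (NC h Bn)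
        (fun τ => {x | Ideal.Quotient.mk (Ideal.span {lev A B f n}) x ∈ XX L (lev A B f n) h τ})

/-- (ICC) the conjugates of `c = cc L Om m Hs h 1`.

Uses TorA and the theorems of helper59 on `cc`. `c ∈ D` and `τ c = cc L Om m Hs h τ`, `c ≠ 0`. This is the statement of helper59
in the form needed here. -/
def St_ICC : Prop :=
  ∀ (A B : ℤ) (_ : Case A B) (L : PeriodPair) (Om : ℂ) (_ : IsCM A B L Om) (_ : TorA A B L Om)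
    (f : ℕ) (_ : f ≠ 0) (_ : ¬ 3 ∣ f) (_ : 2 * absD A B ∣ (f : ℤ)) (n : ℕ)
    (_ : Cpl L (lev A B f n)) (Hs : Finset ℂ)
    (_ : IsHalf L (1 + 6 * (f : ℂ)) Hs) (D : IntermediateField ℚ ℂ) [FiniteDimensional ℚ D]
    (h : kk A B ≤ D) (_ : ∀ x ∈ D, x ∈ TF L (lev A B f n)),
    letI := algC h
    ∀ (_ : IsGalois (kk A B) D), ∃ hc : cc L Om (lev A B f n) Hs h 1 ∈ D,
      cc L Om (lev A B f n) Hs h 1 ≠ 0 ∧ ∀ τ : D ≃ₐ[kk A B] D,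
        ((τ ⟨_, hc⟩ : D) : ℂ) = cc L Om (lev A B f n) Hs h τ

/-- (I3F) the input (I3) for one generator `γ`.

Uses St_EFIN (follows from Se_MAIN of helper66, `StE.lean`), St_HFIN, ICHI, IRES, IHF, IFOU, ITG, IFIN, IE0, IEPS, ITH, ILAY, IGAM, IMOD, ICC, TorA. PROOF. Fix `N`. `3 ∈ V.nonunits`. Let `R = 2 * finrank ℚ K` (prime to 3), and let `E` be the
finite set (IFIN) of the `ε` with `IsEps (f π̄) ε` and `ε^R = 1` on the support. For each `ε ∈ E` and `s = ± 1` HFIN gives `n₀`; take the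
maximum, also with 1. Let `n ≥ n₀`, `D = K ⊔ B n` (`⊆ TF L m`, IGAM), `γ` from IGAM, `χ : NC _ (B n) → F^*`. The order of `NC _ (B n)` divides `finrank ℚ K`: restriction to `K` is injective on
it, into `Gal(K/k)` (`IsGalois`, `comm`). ICHI gives `X`, `θ`; put `b δ = θ((χ δ)⁻¹).val`. IMOD, IE0 (`r = finrank ℚ K`), IEPS, ITH for
`X`: with `T τ = TT τ` (`= sumMod ..` as in ITH: `finsum_mem` over the classes; `Quotient.out` of the class of `x`, `mk (out q) = q`) for all `i`: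
(1) `2 Σ_δ (X δ)⁻¹ T(γ^i δ) = ST(4^i) + s ST(-4^i)`. Suppose `y^3 = ∏_δ (δ T^N c)^(b δ)`, `y ∈ D`. By ITG and ICC
`∏_δ (δ T^N c)^(b δ) = ∏_δ ∏_j (δ γ^j c)^(b δ c_j) = ∏_τ cc(τ)^(g τ)`, `c_j = (-1)^(N-j) binom(N,j)`, `g τ = Σ_(δ, j : δ γ^j = τ) b_δ c_j`. EFIN: for all `τ'`
`Σ_τ g_τ T(τ τ') = Σ_(δ,j) b_δ c_j T(δ γ^j τ')` has `Hf V`. IFOU: `Σ_j c_j Σ_δ (X δ)⁻¹ T(γ^j δ)` has `Hf V`, so has twice it (IHF), which is the sum in HFIN by (1):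
contradiction. For `N = 0`: from `N = 1`, `T` of a cube is a cube. -/
def St_I3F : Prop :=
  ∀ (A B : ℤ) (_ : Case A B) (L : PeriodPair) (Om : ℂ) (_ : IsCM A B L Om) (_ : TorA A B L Om)
    (V : ValuationSubring ℂ) (_ : emb (ppi A B) ∈ V.nonunits)
    (f : ℕ) (_ : f ≠ 0) (_ : ¬ 3 ∣ f) (_ : 2 * absD A B ∣ (f : ℤ)) (_ : mz A B ∣ (f : OO A B))
    (_ : ∀ n, Cpl L (lev A B f n))
    (Hs : Finset ℂ) (_ : IsHalf L (1 + 6 * (f : ℂ)) Hs)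
    (K : IntermediateField ℚ ℂ) [FiniteDimensional ℚ K]
    (_ : ∀ x ∈ K, x ∈ TF L (lev A B f 0)) (Bn : ℕ → IntermediateField ℚ ℂ)
    [∀ n, FiniteDimensional ℚ ↥(K ⊔ Bn n)] (_ : Bas (kk A B) K Bn)
    (hk : ∀ n, kk A B ≤ K ⊔ Bn n) (N : ℕ), ∃ n₀ : ℕ, ∀ n, n₀ ≤ n →
    letI := algC (hk n)
    ∃ hc : cc L Om (lev A B f n) Hs (hk n) 1 ∈ K ⊔ Bn n,
    ∃ γ : ↥(K ⊔ Bn n) ≃ₐ[kk A B] ↥(K ⊔ Bn n),
      (∀ x : ↥(K ⊔ Bn n), γ x = x ↔ (x : ℂ) ∈ K) ∧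
      ∀ [Fintype (NC (hk n) (Bn n))]
        (χ : NC (hk n) (Bn n) →* (IsLocalRing.ResidueField V)ˣ),
        ∃ θ : IsLocalRing.ResidueField V →+ ZMod 3,
        ∀ y : ↥(K ⊔ Bn n), y ^ 3 ≠ ∏ δ : NC (hk n) (Bn n),
          ((δ : ↥(K ⊔ Bn n) ≃ₐ[kk A B] ↥(K ⊔ Bn n)) ((Tg γ)^[N] ⟨_, hc⟩)) ^
            (θ ((χ δ)⁻¹ : (IsLocalRing.ResidueField V)ˣ)).val

/-- (I3F1) the same for `N ≥ 1`. -/
def St_I3F1 : Prop :=
  ∀ (A B : ℤ) (_ : Case A B) (L : PeriodPair) (Om : ℂ) (_ : IsCM A B L Om) (_ : TorA A B L Om)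
    (V : ValuationSubring ℂ) (_ : emb (ppi A B) ∈ V.nonunits)
    (f : ℕ) (_ : f ≠ 0) (_ : ¬ 3 ∣ f) (_ : 2 * absD A B ∣ (f : ℤ)) (_ : mz A B ∣ (f : OO A B))
    (_ : ∀ n, Cpl L (lev A B f n))
    (Hs : Finset ℂ) (_ : IsHalf L (1 + 6 * (f : ℂ)) Hs)
    (K : IntermediateField ℚ ℂ) [FiniteDimensional ℚ K]
    (_ : ∀ x ∈ K, x ∈ TF L (lev A B f 0)) (Bn : ℕ → IntermediateField ℚ ℂ)
    [∀ n, FiniteDimensional ℚ ↥(K ⊔ Bn n)] (_ : Bas (kk A B) K Bn)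
    (hk : ∀ n, kk A B ≤ K ⊔ Bn n) (N : ℕ) (_ : 1 ≤ N), ∃ n₀ : ℕ, ∀ n, n₀ ≤ n →
    letI := algC (hk n)
    ∃ hc : cc L Om (lev A B f n) Hs (hk n) 1 ∈ K ⊔ Bn n,
    ∃ γ : ↥(K ⊔ Bn n) ≃ₐ[kk A B] ↥(K ⊔ Bn n),
      (∀ x : ↥(K ⊔ Bn n), γ x = x ↔ (x : ℂ) ∈ K) ∧
      ∀ [Fintype (NC (hk n) (Bn n))]
        (χ : NC (hk n) (Bn n) →* (IsLocalRing.ResidueField V)ˣ),
        ∃ θ : IsLocalRing.ResidueField V →+ ZMod 3,
        ∀ y : ↥(K ⊔ Bn n), y ^ 3 ≠ ∏ δ : NC (hk n) (Bn n),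
          ((δ : ↥(K ⊔ Bn n) ≃ₐ[kk A B] ↥(K ⊔ Bn n)) ((Tg γ)^[N] ⟨_, hc⟩)) ^
            (θ ((χ δ)⁻¹ : (IsLocalRing.ResidueField V)ˣ)).val

/-- (IK3F) a field of degree prime to 3 is contained in `TF L (3f)`.

Uses TorA. PROOF. `K ⊆ TF L M` for some `M ≠ 0` in `O` (`K/ℚ` is finitely generated, the fields `TF L m` are directed: `tower`), and we may take `M = M' 3^j`
with an integer `M'` prime to 3 (`M ∣ nm M ∈ ℤ`). Let `f = 2 |D| d M'` (`3 ∤ d`, so `3 ∤ f`), `m = lev A B f j`: `K ⊆ TF L m`. `F₀ = TF L (lev A B f 0) ⊆ F₁ = TF L m`, `Gal(F₁/F₀)` is a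
3-group: an element acts as `x ≡ 1` modulo `3 f` (`res`, `inj`, `per`) and `x^(3^j) ≡ 1` modulo `3^(j+1) f`
(`x = 1 + 3 f t`, `x^(3^i) ≡ 1` modulo `3^(i+1) f` by induction), so it has 3-power order (`inj`, `mul`). `K F₀` is between `F₀` and `F₁`, and its degree
over `F₀` divides `[K : k]` (`K/k` Galois: `K ⊆ F₁` with `Gal(F₁/k)` abelian, so `K/k` is Galois; restriction `Gal(K F₀/F₀) → Gal(K/k)` is
injective), prime to 3, and divides `[F₁ : F₀]`, a power of 3: so `K F₀ = F₀`. -/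
def St_IK3F : Prop :=
  ∀ (A B : ℤ) (_ : Case A B) (L : PeriodPair) (Om : ℂ) (_ : IsCM A B L Om) (_ : TorA A B L Om)
    (d : ℕ) (_ : d ≠ 0) (_ : ¬ 3 ∣ d)
    (K : IntermediateField ℚ ℂ) [FiniteDimensional ℚ K] (_ : kk A B ≤ K)
    (_ : ¬ 3 ∣ Module.finrank ℚ K) (_ : ∀ x ∈ K, ∃ m : OO A B, m ≠ 0 ∧ x ∈ TF L m),
    ∃ f : ℕ, f ≠ 0 ∧ ¬ 3 ∣ f ∧ d ∣ f ∧ 2 * absD A B ∣ (f : ℤ) ∧
      ∀ x ∈ K, x ∈ TF L (lev A B f 0)

end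

end Pool.Agent.MU3I
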