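import Pool.Agent.MU3.StD

/-!
# MU3, block D: complement
-/

open NumberField IsDedekindDomain Ideal Filter Topology
open scoped nonZeroDivisors

namespace Pool.Agent.MU3

open Pool.Agent.Lib_helper28.FROB

/-- NSP: not all degree one primes split.
Proof (from SPLS, DEG2). `∑_v x s v ≤ ∑_{v ∈ B} x s v + O(1)` with `B` = the `v ∉ S` of prime norm, and
`m ∑_B x s v ≤ Λ + C`, `∑_v x s v ≥ Λ - C` (`isBigO_sum`), so `(m - 1) Λ ≤ C'` near `s = 1`, `Λ → ∞`. -/
def Stmt_NSP : Prop := ∀ (L M : Type) [Field L] [NumberField L] [Field M] [NumberField M]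
    [Algebra L M] (m : ℕ) (S : Set (HeightOneSpectrum (𝓞 L))), S.Finite →
    (∀ v : HeightOneSpectrum (𝓞 L), v ∉ S → (absNorm v.asIdeal).Prime → m ≤ spl L M v) → m ≤ 1

end Pool.Agent.MU3
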