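import Pool.Agent.RID.St

/-!
# MU3, section 4: from nilpotency to `v_p h(K_n) = O(n^2)` (helper3)

`J L`, `prin`, `ext`, the action of the Galois group on `J L`: `Pool/Agent/RI/Defs.lean`. `ng g q x =
∏_{i < q} g^i x`, `dg g x = x / g x`, `CycExt F K L g q` (`g` is an automorphism of `L / F` of order `q` with
fixed field `K`): `Pool/Agent/RID/Defs.lean`. Facts on `L / K` cyclic: `S_CYC` (proved: `t_CYC` in
`Pool/Agent/RID/P_CYC.lean`). Class number: `CL.classNumber_eq` in `Pool/Agent/RI/CL.lean`.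

Every `def N_X : Prop` is the statement of a module, proved as `theorem n_X : ... → N_X`.
-/

open NumberField Finset IsDedekindDomain
open scoped nonZeroDivisors Pointwise

namespace MU3

open Pool.Agent.RI Pool.Agent.RID

/-- the subgroup of the principal fractional ideals -/
noncomputable abbrev PI (L : Type) [Field L] [NumberField L] : Subgroup (J L) :=
  (prin : Lˣ →* J L).range

/-- the exponent of `p` in the number of the ideal classes of `L` that are killed by `p`, i.e. the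
`p`-rank of the class group -/
noncomputable def rkp (p : ℕ) (L : Type) [Field L] [NumberField L] : ℕ :=
  padicValNat p (Nat.card {c : J L ⧸ PI L // c ^ p = 1})

/-! ## Ambiguous classes -/

/-- AMBA: ambiguous classes, abstract form.
Proof. `P = dv.range`, `U = P.comap (dg g)` (the `b` with `b / g b ∈ P`), `B₀ = dv.ker ⊓ (dg g).ker`,
`N₀ = dv.ker.map (ng g q)`. For `b ∈ U` choose `x` with `dg g b = dv x`; `dv (ng g q x) = ng g q (dg g b) = 1`
(telescoping, `g ^ q = 1`) and `g • ng g q x = ng g q x`, so `ng g q x ∈ B₀`; modulo `N₀` it depends only on `b`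
(`x` is unique up to `dv.ker`). Homomorphism `U → B₀ / N₀`; its kernel is `P ⊔ (dg g).ker`: if `ng g q x = ng g q u`, `u ∈ dv.ker`, then
`x / u = y / g y` (Hilbert 90), `dg g b = dv (x / u) = dg g (dv y)`, so `b / dv y` is fixed by `g`. So
`[U : kernel]` divides `[B₀ : N₀]`. Without quotient maps: as in `Pool/Agent/RID/P_ABS1.lean` (which is
this proof with additional operators; lemmas `rel_dvd_right`, `map_dvd`, `ng_dg`, `smul_ng`, `ng_comm`
there) with the subgroup `Γ = {(b, x) | dg g b = dv x}` of `I × A`, `Γ₀ = {.. | ng g q x ∈ N₀}`. -/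
def N_AMBA : Prop := ∀ (q : ℕ) (A I G : Type) [CommGroup A] [CommGroup I] [Group G]
    [MulDistribMulAction G A] [MulDistribMulAction G I] (dv : A →* I) (g : G), g ^ q = 1 →
    (∀ x, dv (g • x) = g • dv x) → (∀ x : A, ng g q x = 1 → ∃ y, x = y / g • y) →
    (dv.range ⊔ (dg g : I →* I).ker).relIndex (dv.range.comap (dg g)) ∣
      (dv.ker.map (ng g q)).relIndex (dv.ker ⊓ (dg g).ker)

/-- AMBI: ideals fixed by `g` modulo ideals of `K`.
Proof. By `S_CYC` a `b` with `g b = b` is fixed by `Gal(L / K)`, `L / K` is Galois of degree `q`. For `v ∈ S` choose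
`w_v` above `v` (`INVI.exists_above`) and let `e_v = w_v.asIdeal.ramificationIdx (𝓞 K)`; it is `≥ 1` and divides `q`
(or is `≤ q`). Homomorphism `(dg g).ker → ∏_{v ∈ S} ZMod e_v` (or `ℤ ⧸ e_v`), `b ↦ count_{w_v} b`. If `b` is
in the kernel: `c = ∏_{v ∈ S} v ^ (count_{w_v} b / e_v) ∈ J K` (the prime `v` as a fractional ideal, see `exists_count` in
`Pool/Agent/RI/INVI.lean`), `b' = b / ext K L c` is fixed by `Gal(L / K)` and `count_w b' = 0` at all `w` above `S`:
`COUNTEXT` for `w_v`, and all `w` above `v` are conjugate to `w_v` (`COUNTACT`, transitivity as in `INVI.lean`). By `INVI`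
(`INVI_thm COUNTACT_thm COUNTEXT_thm`) `b' = ext K L c'`. So the kernel is contained in `(ext K L).range`, and the
index is at most `∏ e_v ≤ q ^ S.card`. -/
def N_AMBI : Prop := ∀ (F K L : Type) [Field F] [NumberField F] [Field K] [NumberField K]
    [Field L] [NumberField L] [Algebra F K] [Algebra F L] [Algebra K L] [IsScalarTower F K L]
    (g : L ≃ₐ[F] L) (q : ℕ), CycExt F K L g q → ∀ S : Finset (HeightOneSpectrum (𝓞 K)),
    (∀ w : HeightOneSpectrum (𝓞 L), w.asIdeal.ramificationIdx (𝓞 K) ≠ 1 →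
      ∃ v ∈ S, w.asIdeal.under (𝓞 K) = v.asIdeal) →
    (ext K L).range.relIndex (dg g : J L →* J L).ker ≠ 0 ∧
    (ext K L).range.relIndex (dg g : J L →* J L).ker ≤ q ^ S.card

/-- AMBU: the units of `K` modulo norms.
Proof. `E_K = (prin : Kˣ →* J K).ker`, `ι = Units.map (algebraMap K L)`. By `S_CYC` an element of
`prin.ker ⊓ (dg g).ker` is `ι e`, `e ∈ E_K` (`RKF.prin_map_eq_one_iff`), and `ng g q (ι e) = (ι e) ^ q = ι (e ^ q)`. So the
index divides (or is at most) `[E_K : E_K ^ q]`. `E_K ≅ (𝓞 K)ˣ` (`RKU.prin_eq_one_iff`) is generated by `rank K + 1`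
elements: a generator of the cyclic group `NumberField.Units.torsion K` and `NumberField.Units.fundSystem K`
(`NumberField.Units.exist_unique_eq_mul_prod`). So `E_K / E_K ^ q` has at most `q ^ (rank K + 1)` elements:
`(ℤ / q) ^ (rank K + 1)` maps onto it (`q ≥ 1` as `g` has order `q`). -/
def N_AMBU : Prop := ∀ (F K L : Type) [Field F] [NumberField F] [Field K] [NumberField K]
    [Field L] [NumberField L] [Algebra F K] [Algebra F L] [Algebra K L] [IsScalarTower F K L]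
    (g : L ≃ₐ[F] L) (q : ℕ), CycExt F K L g q →
    ((prin : Lˣ →* J L).ker.map (ng g q)).relIndex ((prin : Lˣ →* J L).ker ⊓ (dg g).ker) ≠ 0 ∧
    ((prin : Lˣ →* J L).ker.map (ng g q)).relIndex ((prin : Lˣ →* J L).ker ⊓ (dg g).ker) ≤
      q ^ (NumberField.Units.rank K + 1)

/-- AMB: the ambiguous class number formula (upper bound).
Proof (from AMBA, AMBI, AMBU, S_CYC). `A = Lˣ`, `I = J L`, `dv = prin`, `q = p ^ a`; `P = PI L`,
`U = P.comap (dg g)`, `U₀ = P ⊔ (dg g).ker`, `U₁ = P ⊔ (ext K L).range`: `P ≤ U₁ ≤ U₀ ≤ U`. All indices are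
finite (`P` has finite index). `v_p(m) ≤ s` if `0 < m ≤ p ^ s`. `[U : U₀]` divides the index of AMBU, so `v_p ≤ a (rank K + 1)`. `[U₀ : U₁]`
divides `[(dg g).ker : (ext K L).range]`, so it is `≤ (p ^ a) ^ S.card`. `[U₁ : P]` divides `[J K : PI K] = h(K)`
(`(PI K).map ext ≤ P` by `ext_prin`). -/
def N_AMB : Prop := ∀ (p a : ℕ) [Fact p.Prime] (F K L : Type) [Field F] [NumberField F]
    [Field K] [NumberField K] [Field L] [NumberField L] [Algebra F K] [Algebra F L] [Algebra K L]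
    [IsScalarTower F K L] (g : L ≃ₐ[F] L), CycExt F K L g (p ^ a) →
    ∀ S : Finset (HeightOneSpectrum (𝓞 K)),
    (∀ w : HeightOneSpectrum (𝓞 L), w.asIdeal.ramificationIdx (𝓞 K) ≠ 1 →
      ∃ v ∈ S, w.asIdeal.under (𝓞 K) = v.asIdeal) →
    padicValNat p ((PI L).relIndex ((PI L).comap (dg g))) ≤
      padicValNat p (NumberField.classNumber K) + a * (S.card + NumberField.Units.rank K + 1)

/-! ## Finite modules -/

/-- NIL: nilpotency and few invariants bound the rank.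
Proof. `T = γ - 1`. `|A[p]| = |A / p A|` (`A` finite), `T ^ l A ≤ p A`, so `|A / p A|` divides `|A / T ^ l A| = |ker T ^ l|`, and
`|ker T ^ (i+1)|` divides `|ker T ^ i| |ker T|` (`T ^ i` maps `ker T ^ (i+1)` to `ker T` with kernel `ker T ^ i`), so
`|ker T ^ l|` divides `|ker T| ^ l`. -/
def N_NIL : Prop := ∀ (p l : ℕ) [Fact p.Prime] (A : Type) [AddCommGroup A] [Finite A]
    (γ : AddMonoid.End A), (∀ x : A, ∃ y : A, ((γ - 1) ^ l) x = p • y) →
    padicValNat p (Nat.card {x : A // p • x = 0}) ≤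
      l * padicValNat p (Nat.card (AddMonoidHom.ker (γ - 1 : AddMonoid.End A)))

/-- NILR: NIL for the class group.
Proof. `A = Additive (J L ⧸ PI L)`, `γ` induced by `g` (`ALGR.ga` in `Pool/Agent/RID/P_ALGR.lean` with `X = ⊤`, or
directly by `QuotientGroup.map`; `smul_prin`). `(γ - 1) x` is the class of `(dg g b)⁻¹`, `(γ - 1) ^ l x` the class of
`((dg g)^[l] b) ^ (±1)`; `ker (γ - 1)` is `(PI L).comap (dg g) / PI L`. -/
def N_NILR : Prop := ∀ (p l : ℕ) [Fact p.Prime] (F L : Type) [Field F] [Field L] [NumberField L]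
    [Algebra F L] (g : L ≃ₐ[F] L),
    (∀ b : J L, ∃ (y : J L) (x : Lˣ), (dg g)^[l] b = y ^ p * prin x) →
    rkp p L ≤ l * padicValNat p ((PI L).relIndex ((PI L).comap (dg g)))

/-- STEP: one step of the tower.
Proof (from `S_ALG2`, proved in `Pool/Agent/RID/P_ALG2.lean`, and `S_CYC`). `A = Additive (J L ⧸ PI L)`, `γ` induced by `g`; `h = g ^ (p ^ m)`.
The range of `∑_{j < p} γ ^ (p ^ m j)` consists of the classes of `ng h p b = ∏_{τ ∈ Gal(L/M)} τ b = nm M L b ∈ ext (J M)`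
(`S_CYC` for `h`, `CL.nm_mem`), so it is contained in the image of `Cl(M) → Cl(L)` (`ext_prin`), whose order divides `h(M)`. -/
def N_STEP : Prop := ∀ (p m : ℕ) [Fact p.Prime] (F M L : Type) [Field F] [NumberField F]
    [Field M] [NumberField M] [Field L] [NumberField L] [Algebra F M] [Algebra F L] [Algebra M L]
    [IsScalarTower F M L] (g : L ≃ₐ[F] L), g ^ (p ^ (m + 1)) = 1 →
    CycExt F M L (g ^ (p ^ m)) p → rkp p L < p ^ m * (p - 1) →
    padicValNat p (NumberField.classNumber L) ≤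
      padicValNat p (NumberField.classNumber M) + rkp p L

/-- NUM: summation.
Proof. `2 ^ m ≤ p ^ m * (p - 1)` outgrows `l (c₀ + (m + 1) c₁)`: there is `m₁` such that the hypothesis applies to all `m ≥ m₁`.
So `v n ≤ v m₁ + ∑_{m₁ ≤ m < n} l (c₀ + (m + 1) c₁)` for `n ≥ m₁`; take `C` larger than
`l (c₀ + c₁) + max_{n ≤ m₁} v n`. -/
def N_NUM : Prop := ∀ (p l c₀ c₁ : ℕ) [Fact p.Prime] (v r : ℕ → ℕ),
    (∀ n, r n ≤ l * (c₀ + n * c₁)) →
    (∀ m, r (m + 1) < p ^ m * (p - 1) → v (m + 1) ≤ v m + r (m + 1)) →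
    ∃ C : ℕ, ∀ n, v n ≤ C * (n + 1) ^ 2

/-! ## Subfields of `ℂ` -/

/-- GAL: Galois theory of `K B_n` over `K`, `[K : ℚ]` prime to `p`.
Proof. `Gal(B n / ℚ)` is cyclic (`S_LAYC`, proved: `Pool/Agent/RID/P_LAYC.lean`; `LAY_thm`); `K B_n / K` is Galois (`BCH_thm`), its group
embeds by restriction into `Gal(B n / ℚ)`, and `[K B_n : K] = p ^ n` because `[K : ℚ]` and `[B n : ℚ] = p ^ n` are
relatively prime. Take `g` = a generator, as an automorphism over `k`. (i) order `p ^ n`, fixed field `K`. (ii) for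
`m ≤ n` (`B m ≤ B n`): `g ^ (p ^ m)` has order `p ^ (n - m)` and fixed field `K B_m`: `[K B_m : K] = p ^ m`, the cyclic group of order `p ^ n` has
only one subgroup of index `p ^ m`. Compare `S_GCC`, `S_GCP` (`Pool/Agent/RID/P_GCC.lean`, `P_GCP.lean`). -/
def N_GAL : Prop := ∀ (p : ℕ) [Fact p.Prime] (k K : IntermediateField ℚ ℂ)
    [FiniteDimensional ℚ K] (B : ℕ → IntermediateField ℚ ℂ) (_hk : k ≤ K),
    ¬ p ∣ Module.finrank ℚ K → (∀ n, IsLayer p n (B n)) → Monotone B →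
    ∀ (n : ℕ) (h : k ≤ K ⊔ B n), letI := algC h
    ∃ g : ↥(K ⊔ B n) ≃ₐ[k] ↥(K ⊔ B n), orderOf g = p ^ n ∧
      (∀ x : ↥(K ⊔ B n), g x = x ↔ (x : ℂ) ∈ K) ∧
      ∀ m ≤ n, orderOf (g ^ (p ^ m)) = p ^ (n - m) ∧
        ∀ x : ↥(K ⊔ B n), (g ^ (p ^ m)) x = x ↔ (x : ℂ) ∈ K ⊔ B m

/-- RAMP: the primes of `K` that ramify in `K B_n` contain `p`.
Proof. `K B_n ≤ K(ζ)`, `ζ` a root of unity of order `p ^ m` (`IsLayer`); `RAM_thm`. See `MAINC.ram_aux` in
`Pool/Agent/RI/MAINC.lean`. -/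
def N_RAMP : Prop := ∀ (p n : ℕ) [Fact p.Prime] (K B : IntermediateField ℚ ℂ)
    [FiniteDimensional ℚ K] [FiniteDimensional ℚ ↥(K ⊔ B)], IsLayer p n B →
    letI := algC (le_sup_left : K ≤ K ⊔ B)
    ∀ w : HeightOneSpectrum (𝓞 ↥(K ⊔ B)), w.asIdeal.ramificationIdx (𝓞 K) ≠ 1 →
      (p : 𝓞 K) ∈ w.asIdeal.under (𝓞 K)

/-- FIN: the result of section 4. The hypothesis is the result of section 3: `(γ - 1) ^ l A_n ≤ p A_n` for
every generator `g` of `Gal(K B_n / K)`.
Proof (from AMB, NILR, STEP, NUM, GAL, RAMP). `S` = the finite set of the primes of `K` that contain `p`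
(finitely many primes divide `p ≠ 0`: `Ideal.finite_factors`), `c₀ = v_p h(K)`,
`c₁ = S.card + rank K + 1`. `v n = padicValNat p (classNo (K ⊔ B n))`, `r n = rkp p (K ⊔ B n)`. GAL gives `g` for `n`; AMB with
`F = k`, `L = K ⊔ B n` (`towerC`; `k`, `K` number fields), NILR: `r n ≤ l (c₀ + n c₁)`. STEP with `M = K ⊔ B m`, `L = K ⊔ B (m + 1)`. NUM.
`classNo E = NumberField.classNumber E` (`Nat.card_eq_fintype_card`). -/
def N_FIN : Prop := ∀ (p l : ℕ) [Fact p.Prime] (k K : IntermediateField ℚ ℂ)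
    [FiniteDimensional ℚ K] (B : ℕ → IntermediateField ℚ ℂ) (_hk : k ≤ K)
    [∀ n, FiniteDimensional ℚ ↥(K ⊔ B n)],
    ¬ p ∣ Module.finrank ℚ K → (∀ n, IsLayer p n (B n)) → Monotone B →
    (∀ (n : ℕ) (h : k ≤ K ⊔ B n), letI := algC h
      ∀ g : ↥(K ⊔ B n) ≃ₐ[k] ↥(K ⊔ B n), (∀ x : ↥(K ⊔ B n), g x = x ↔ (x : ℂ) ∈ K) →
      ∀ b : J ↥(K ⊔ B n), ∃ (y : J ↥(K ⊔ B n)) (x : (↥(K ⊔ B n))ˣ),
        (dg g)^[l] b = y ^ p * prin x) →
    ∃ C : ℕ, ∀ n, padicValNat p (classNo (K ⊔ B n)) ≤ C * (n + 1) ^ 2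

end MU3
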