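import Pool.Agent.MU3.StS3
import Pool.Agent.MU3.NStmts

/-!
# MU3, glue: from the inputs of the CM curve to the growth of the class numbers

`k ≤ K` subfields of `ℂ`, `K / k` abelian of degree prime to `3`, `B n` the layers of the cyclotomic
`ℤ_3`-extension of `ℚ`, `K_n = K ⊔ B n`. `Inp` collects the inputs (I1), (I2), (I3) of
`Pool/Agent/MU3/PAPER_K.md`, `S_MAINK` is the result.

Every `def S_X : Prop` is the statement of a module, which proves `theorem t_X : S_X` (from other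
statements as hypotheses). The doc-string contains the proof. Subfields of `ℂ`, `algC`: see
`Pool/Agent/RI/Stmts.lean` (`BCH`, `LAY`, `RAM`, ...), `NC h D` (automorphisms trivial on `D`):
`Pool/Agent/RID/Defs.lean`; Galois theory of `K B_n / K`: `N_GAL`, `N_RAMP` in `NStmts.lean`.
-/

open NumberField IsDedekindDomain Finset
open scoped nonZeroDivisors Pointwise

namespace Pool.Agent.MU3

open Pool.Agent.RI Pool.Agent.RID

/-- The fields: `K / k` abelian, `[K : ℚ]` prime to `3`, `B n` the layers. -/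
structure Bas (k K : IntermediateField ℚ ℂ) (B : ℕ → IntermediateField ℚ ℂ) : Prop where
  hk : k ≤ K
  gal : IsGalois k (IntermediateField.extendScalars hk)
  ab : ∀ σ τ : (IntermediateField.extendScalars hk) ≃ₐ[k] (IntermediateField.extendScalars hk),
    σ * τ = τ * σ
  cop : ¬ 3 ∣ Module.finrank ℚ K
  lay : ∀ n, IsLayer 3 n (B n)
  mono : Monotone B

/-- `x ↦ γ x / x`. -/
def Tg {k L : Type} [Field k] [Field L] [Algebra k L] (γ : L ≃ₐ[k] L) (x : L) : L := γ x / x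

/-- The inputs: `c n ∈ K_n`, units outside `S`; (I1) the norm relation up to constants of `k`; (I2)
`KolIn`; (I3) for every `N` and all large `n`: for every generator `γ` of `Gal(K_n / K)` and every
character `χ` of `Gal(K_n / k B_n)` with values in `F` there is an additive `θ : F → ℤ/3` such that
`∏_δ (δ T^N c_n) ^ θ(χ(δ)⁻¹)`, `T x = γ x / x`, is not a cube in `K_n`. -/
structure Inp (F : Type) [Field F] (k K : IntermediateField ℚ ℂ) (B : ℕ → IntermediateField ℚ ℂ)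
    [FiniteDimensional ℚ k] [∀ n, FiniteDimensional ℚ ↥(K ⊔ B n)] (hk : ∀ n, k ≤ K ⊔ B n)
    (S : Finset ℕ) (c : ℕ → ℂ) (n₁ : ℕ) : Prop where
  mem : ∀ n, c n ∈ K ⊔ B n
  ne : ∀ n, c n ≠ 0
  prime : ∀ p ∈ S, p.Prime
  su : ∀ n, n₁ ≤ n → SU S ↥(K ⊔ B n) ⟨c n, mem n⟩
  nrm : ∀ n, n₁ ≤ n →
    letI := algC (hk (n + 1))
    ∀ σ : ↥(K ⊔ B (n + 1)) ≃ₐ[k] ↥(K ⊔ B (n + 1)),
      (∀ x : ↥(K ⊔ B (n + 1)), σ x = x ↔ (x : ℂ) ∈ K ⊔ B n) →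
      ∃ C ∈ k, C ≠ 0 ∧ c (n + 1) * (σ ⟨c (n + 1), mem (n + 1)⟩ : ↥(K ⊔ B (n + 1))) *
        (σ (σ ⟨c (n + 1), mem (n + 1)⟩) : ↥(K ⊔ B (n + 1))) = C * c n
  kol : ∀ n, n₁ ≤ n →
    letI := algC (hk n)
    KolIn k ↥(K ⊔ B n) S ⟨c n, mem n⟩
  i3 : ∀ N : ℕ, ∃ n₀ : ℕ, ∀ n, n₀ ≤ n →
    letI := algC (hk n)
    ∀ γ : ↥(K ⊔ B n) ≃ₐ[k] ↥(K ⊔ B n), (∀ x : ↥(K ⊔ B n), γ x = x ↔ (x : ℂ) ∈ K) →
    ∀ [Fintype (NC (hk n) (B n))] (χ : NC (hk n) (B n) →* Fˣ), ∃ θ : F →+ ZMod 3,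
    ∀ y : ↥(K ⊔ B n), y ^ 3 ≠ ∏ δ : NC (hk n) (B n),
      ((δ : ↥(K ⊔ B n) ≃ₐ[k] ↥(K ⊔ B n)) ((Tg γ)^[N] ⟨c n, mem n⟩)) ^
        (θ ((χ δ)⁻¹ : Fˣ)).val

/-! ### Galois theory of `K_n / k` -/

/-- GALK: `K_n / k` is Galois with abelian group.
Proof. `BCH_thm` (second part, `A = k`, `C = K`, `E = k ⊔ B n`; `k B_n / k` is Galois and abelian: its group embeds in
`Gal(B n / ℚ)`, `LAY_thm`, `S_LAYC` (`Pool/Agent/RID/P_LAYC.lean`); `K ⊔ (k ⊔ B n) = K ⊔ B n`). An automorphism of `K_n / k` is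
determined by its restrictions to `K` and to `B n`, both commute. The type `↥(K ⊔ B n)` with `algC h` and the
type `extendScalars h` have the same elements; compare `Pool/Agent/RI/TSTEP.lean`. -/
def S_GALK : Prop := ∀ (k K : IntermediateField ℚ ℂ) (B : ℕ → IntermediateField ℚ ℂ)
    [FiniteDimensional ℚ K] [∀ n, FiniteDimensional ℚ ↥(K ⊔ B n)], Bas k K B →
    ∀ (n : ℕ) (h : k ≤ K ⊔ B n), letI := algC h
    IsGalois k ↥(K ⊔ B n) ∧ ∀ σ τ : ↥(K ⊔ B n) ≃ₐ[k] ↥(K ⊔ B n), σ * τ = τ * σ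

/-- TWK: structure of `Gal(K_n / k)`.
Proof (from GALK, N_GAL). `D = NC h (B n)`. An element of `D` is determined by its restriction to `K`, and
`Gal(K_n / k) → Gal(K / k)` has kernel `Gal(K_n / K)`, cyclic of order `3 ^ n` (N_GAL gives one generator `g`; a `γ`
with fixed field `K` generates the same group: the subgroup generated by `γ` has fixed field `K`, Galois correspondence for
`K_n / k`). `|D| = [K_n : k B_n]` divides `[K : k]` (`BCH_thm`, first part), so it is prime to `3`. `k ∩ B n`: `[k B_n : k] = 3 ^ n` as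
`[k : ℚ]` divides `[K : ℚ]`, prime to `3`; so `|D| 3 ^ n = [K_n : k B_n] [k B_n : k] = |G|` and
`D ∩ ⟨γ⟩ = 1` (orders), so `G = D ⟨γ⟩`. -/
def S_TWK : Prop := ∀ (k K : IntermediateField ℚ ℂ) (B : ℕ → IntermediateField ℚ ℂ)
    [FiniteDimensional ℚ K] [∀ n, FiniteDimensional ℚ ↥(K ⊔ B n)], Bas k K B →
    ∀ (n : ℕ) (h : k ≤ K ⊔ B n), letI := algC h
    ∀ γ : ↥(K ⊔ B n) ≃ₐ[k] ↥(K ⊔ B n), (∀ x : ↥(K ⊔ B n), γ x = x ↔ (x : ℂ) ∈ K) →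
      Tw k ↥(K ⊔ B n) n γ (NC h (B n))

/-- RST: restriction from `K_n` to `K_m`.
Proof (from GALK, TWK). `K_m / k` is Galois (normal), so restriction is a homomorphism `r` (`AlgEquiv.restrictNormalHom` or by
hand); it is surjective. The fixed field of `γ` in `K_m` is `K_n^γ ∩ K_m = K`. `r` maps `NC _ (B n)` into `NC _ (B m)`
(`B m ≤ B n`), injectively (an element trivial on `K_m ≥ K` and on `B n` is trivial), and both
groups have the order `[K : k]` (TWK: `|NC| 3 ^ n = [K_n : k]`, `[K_n : K] = 3 ^ n`), so bijectively. -/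
def S_RST : Prop := ∀ (k K : IntermediateField ℚ ℂ) (B : ℕ → IntermediateField ℚ ℂ)
    [FiniteDimensional ℚ K] [∀ n, FiniteDimensional ℚ ↥(K ⊔ B n)], Bas k K B →
    ∀ (m n : ℕ) (_ : m ≤ n) (h : k ≤ K ⊔ B n) (h' : k ≤ K ⊔ B m) (hmn : K ⊔ B m ≤ K ⊔ B n),
    letI := algC h
    letI := algC h'
    ∃ r : (↥(K ⊔ B n) ≃ₐ[k] ↥(K ⊔ B n)) →* (↥(K ⊔ B m) ≃ₐ[k] ↥(K ⊔ B m)),
      (∀ (σ : ↥(K ⊔ B n) ≃ₐ[k] ↥(K ⊔ B n)) (x : ↥(K ⊔ B m)),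
        ((r σ x : ↥(K ⊔ B m)) : ℂ) = (σ ⟨x, hmn x.2⟩ : ↥(K ⊔ B n))) ∧
      (∀ γ : ↥(K ⊔ B n) ≃ₐ[k] ↥(K ⊔ B n), (∀ x : ↥(K ⊔ B n), γ x = x ↔ (x : ℂ) ∈ K) →
        (∀ x : ↥(K ⊔ B m), r γ x = x ↔ (x : ℂ) ∈ K) ∧
        ∀ x : ↥(K ⊔ B n), (γ ^ (3 ^ m)) x = x ↔ (x : ℂ) ∈ K ⊔ B m) ∧
      ∃ e : NC h (B n) ≃* NC h' (B m), ∀ δ : NC h (B n),
        ((e δ : NC h' (B m)) : ↥(K ⊔ B m) ≃ₐ[k] ↥(K ⊔ B m)) =
          r (δ : ↥(K ⊔ B n) ≃ₐ[k] ↥(K ⊔ B n))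

/-! ### Primes -/

/-- PRB: the number of primes of `K_n` above a prime number `l` is bounded (helper87, block P). -/
def S_PRB : Prop := ∀ (p : ℕ) [Fact p.Prime] (K : IntermediateField ℚ ℂ) [FiniteDimensional ℚ K]
    (B : ℕ → IntermediateField ℚ ℂ) [∀ n, FiniteDimensional ℚ ↥(K ⊔ B n)],
    (∀ n, IsLayer p n (B n)) → ∀ l : ℕ, l.Prime →
    ∃ C : ℕ, ∀ n, Nat.card {v : HeightOneSpectrum (𝓞 ↥(K ⊔ B n)) // (l : 𝓞 ↥(K ⊔ B n)) ∈ v.asIdeal} ≤ C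

/-- M0: a bounded power of `γ` fixes all primes above `S`.
Proof (from PRB, TWK). `C` = a bound for all `l ∈ S`; the set of the `v` above `l` is finite (a number field has finitely
many primes containing `l ≠ 0`) and stable under `⟨γ⟩`, cyclic of order `3 ^ n`, so the orbit of `v` has `3 ^ i ≤ C` elements and
`γ ^ (3 ^ i) v = v`; take `m₀ = C` (`3 ^ i ≤ C < 3 ^ C`, so `i ≤ m₀`). -/
def S_M0 : Prop := ∀ (k K : IntermediateField ℚ ℂ) (B : ℕ → IntermediateField ℚ ℂ)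
    [FiniteDimensional ℚ K] [∀ n, FiniteDimensional ℚ ↥(K ⊔ B n)], Bas k K B →
    ∀ S : Finset ℕ, (∀ p ∈ S, p.Prime) → ∃ m₀ : ℕ, ∀ (n : ℕ) (h : k ≤ K ⊔ B n), letI := algC h
    ∀ γ : ↥(K ⊔ B n) ≃ₐ[k] ↥(K ⊔ B n), (∀ x : ↥(K ⊔ B n), γ x = x ↔ (x : ℂ) ∈ K) →
    ∀ v : HeightOneSpectrum (𝓞 ↥(K ⊔ B n)), Above S v → γ ^ (3 ^ m₀) • v.asIdeal = v.asIdeal

/-- RAMK: `K_n / k` is unramified outside a finite set independent of `n`.
Proof (from N_RAMP). `K / k` is ramified at finitely many primes only (they divide the discriminant of `K`, or the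
different: `Ideal.finite_factors` of the different ideal; or `e ≠ 1` implies that `v` divides the discriminant of the minimal polynomial
of an integral generator). `S'` = `3` and the residue characteristics of these primes. If `v` of `K_n` is not above `S ⊇ S'` then
`e(v / K) = 1` by N_RAMP and `e(v ∩ K / k) = 1`; `e` is multiplicative in towers
(`Ideal.ramificationIdx_algebra_tower` or the form used in `Pool/Agent/RI/RAMB.lean`). -/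
def S_RAMK : Prop := ∀ (k K : IntermediateField ℚ ℂ) (B : ℕ → IntermediateField ℚ ℂ)
    [FiniteDimensional ℚ k] [FiniteDimensional ℚ K] [∀ n, FiniteDimensional ℚ ↥(K ⊔ B n)],
    Bas k K B → ∃ S' : Finset ℕ, 3 ∈ S' ∧ (∀ p ∈ S', p.Prime) ∧ ∀ S : Finset ℕ, S' ⊆ S →
    ∀ (n : ℕ) (h : k ≤ K ⊔ B n), letI := algC h
    ∀ v : HeightOneSpectrum (𝓞 ↥(K ⊔ B n)), ¬ Above S v → v.asIdeal.ramificationIdx (𝓞 k) = 1

/-- MONO: enlarging `S`.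
Proof. Immediate from the definitions: a prime which is not above `S'` is not above `S`, and a good prime for `S'` is
good for `S`. -/
def S_MONO : Prop := ∀ (k L : Type) [Field k] [NumberField k] [Field L] [NumberField L]
    [Algebra k L] (S S' : Finset ℕ), S ⊆ S' → ∀ c : L, (SU S L c → SU S' L c) ∧
      (KolIn k L S c → KolIn k L S' c)

/-! ### The units -/

/-- UNI: `g^j c / c` is a unit.
Proof. `v(g^j c) = (g^(-j) v)(c)`, and `g^(-j) v = v` if `v` is above `S`, both valuations are `1` otherwise. An element of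
valuation `1` at all `v` is a unit of `𝓞 L`. -/
def S_UNI : Prop := ∀ (k L : Type) [Field k] [NumberField k] [Field L] [NumberField L]
    [Algebra k L] (S : Finset ℕ) (c : L), c ≠ 0 → SU S L c → ∀ g : L ≃ₐ[k] L,
    (∀ v : HeightOneSpectrum (𝓞 L), Above S v → g • v.asIdeal = v.asIdeal) → ∀ j : ℕ,
    ∃ u : (𝓞 L)ˣ, ((u : 𝓞 L) : L) = (g ^ j) c / c

/-- NRM: the norm relation from `K_n` to `K_m`.
Proof (from RST). Induction on `n`. `∏_{i < 3^(n+1-m)} γ^(3^m i) c_(n+1) = ∏_{i < 3^(n-m)} γ^(3^m i) (∏_{j < 3} γ^(3^n j) c_(n+1))`,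
the inner product is `C c_n` (`Inp.nrm` for `σ = γ ^ (3 ^ n)`, RST with `m := n`), and `γ` acts on `c_n ∈ K_n` through its restriction. -/
def S_NRM : Prop := ∀ (F : Type) [Field F] (k K : IntermediateField ℚ ℂ)
    (B : ℕ → IntermediateField ℚ ℂ) [FiniteDimensional ℚ k] [FiniteDimensional ℚ K]
    [∀ n, FiniteDimensional ℚ ↥(K ⊔ B n)], Bas k K B → ∀ (hk : ∀ n, k ≤ K ⊔ B n) (S : Finset ℕ)
    (c : ℕ → ℂ) (n₁ : ℕ) (hI : Inp F k K B hk S c n₁) (m n : ℕ), n₁ ≤ m → m ≤ n →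
    letI := algC (hk n)
    ∀ γ : ↥(K ⊔ B n) ≃ₐ[k] ↥(K ⊔ B n), (∀ x : ↥(K ⊔ B n), γ x = x ↔ (x : ℂ) ∈ K) →
    ∃ C ∈ k, C ≠ 0 ∧ ((∏ i ∈ range (3 ^ (n - m)), (γ ^ (3 ^ m * i)) ⟨c n, hI.mem n⟩ :
      ↥(K ⊔ B n)) : ℂ) = C * c m

/-- TN: `T ^ (3 ^ j) = γ ^ (3 ^ j) - 1` modulo cubes.
Proof. In `ℤ[X]`: `(X - 1) ^ (3 ^ j) = X ^ (3 ^ j) - 1 + 3 h(X)`; so `T^(3^j) x = (γ^(3^j) x / x) w³`, `w = ∏_i (γ^i x)^(h_i)`. By
induction on `j`: `T^[3] x = (γ³ x / x) (γ x / γ² x)³` and iterate with `γ ^ (3 ^ j)`; `T` is multiplicative. The iterate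
`T^[a] T^[b] = T^[a+b]`. -/
def S_TN : Prop := ∀ (k L : Type) [Field k] [Field L] [Algebra k L] (γ : L ≃ₐ[k] L) (j : ℕ)
    (x : L), x ≠ 0 → ∃ w : L, w ≠ 0 ∧ (Tg γ)^[3 ^ j] x = (γ ^ (3 ^ j)) x / x * w ^ 3

/-- I3L: the non-cube at all levels `n ≥ m`.
Proof (from RST, NRM, TN). `m = max n₁ n₀`, `n₀` from `Inp.i3` for `N = 3 ^ (m₀ + 1) + 1`. Let `n ≥ m`, `γ`, `χ` be given, `r`, `e` from RST,
`γ' = r γ`, `χ' = χ ∘ e⁻¹`, `θ` from `i3` at the level `m` for `γ'`, `χ'`. `ng (γ^(3^m)) (3^(n-m)) u = γ^(3^(m₀+1)) (C c_m) / (C c_m) = u_m`,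
`u_m = γ'^(3^(m₀+1)) c_m / c_m` (NRM, `γ` fixes `C ∈ k`). So `s = sUnit .. = ∏_δ (δ u_m) ^ θ(..)` lies in `K_m`. If `s = y³`, `y ∈ K_n`: `h = γ^(3^m)`
fixes `s`, so `(h y / y)³ = 1`, `h y / y ∈ {1, ω, ω²} ⊆ K` is fixed by `γ`; `t = γ y / y` satisfies `h t / t = γ(h y / y) / (h y / y) = 1`, so `t ∈ K_m`, and `γ s / s = t³`.
But `γ s / s = ∏_δ (δ (T u_m)) ^ θ(..)`, and by TN `T u_m = T^(3^(m₀+1) + 1) c_m` up to a cube of `K_m`, so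
`∏_δ (δ T^N c_m) ^ θ(χ'(δ)⁻¹)` would be a cube in `K_m`: contradiction to `i3`. -/
def S_I3L : Prop := ∀ (F : Type) [Field F] (k K : IntermediateField ℚ ℂ)
    (B : ℕ → IntermediateField ℚ ℂ) [FiniteDimensional ℚ k] [FiniteDimensional ℚ K]
    [∀ n, FiniteDimensional ℚ ↥(K ⊔ B n)], Bas k K B → (∃ ω ∈ K, ω ^ 2 + ω + 1 = 0) →
    ∀ (hk : ∀ n, k ≤ K ⊔ B n) (S : Finset ℕ) (c : ℕ → ℂ) (n₁ : ℕ) (hI : Inp F k K B hk S c n₁)
    (m₀ : ℕ), ∃ m, n₁ ≤ m ∧ ∀ n, m ≤ n →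
    letI := algC (hk n)
    ∀ γ : ↥(K ⊔ B n) ≃ₐ[k] ↥(K ⊔ B n), (∀ x : ↥(K ⊔ B n), γ x = x ↔ (x : ℂ) ∈ K) →
    ∀ [Fintype (NC (hk n) (B n))] (u : (𝓞 ↥(K ⊔ B n))ˣ),
    ((u : 𝓞 ↥(K ⊔ B n)) : ↥(K ⊔ B n)) =
      ((γ ^ (3 ^ m₀)) ^ 3) ⟨c n, hI.mem n⟩ / ⟨c n, hI.mem n⟩ →
    ∀ χ : NC (hk n) (B n) →* Fˣ, ∃ θ : F →+ ZMod 3, ∀ y : ↥(K ⊔ B n),
      y ^ 3 ≠ ((sUnit (NC (hk n) (B n)) γ m n χ θ u : 𝓞 ↥(K ⊔ B n)) : ↥(K ⊔ B n))

/-! ### Results -/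

/-- MAINK: the growth of the class numbers for `μ_3 ⊆ K`.
Proof (from GALK, TWK, M0, RAMK, MONO, UNI, I3L, `S_KIN`, `S_NIL`, `MU3.N_FIN`). `S₁ = S ∪ S'` (RAMK), `m₀` from M0 for `S₁`, `m` from
I3L for `m₀`, `M = max m m₀ + 1`, `l = 3 ^ M`. Hypothesis of N_FIN for `n`, `g`: if `n < m` then `g ^ (3 ^ n) = 1` (TWK), so
`(dg g)^[3^M] b` is a cube times `b / g^(3^M) b = 1` (`(1 - X)^(3^M) = 1 - X^(3^M)` modulo `3`). If `n ≥ m`: `c = c_n`, `SU S₁`, `KolIn k K_n S₁ c` (MONO), `u` from UNI with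
`g := g ^ (3 ^ m₀)`, `j = 3`; `KRel` for `u` by `S_KIN`; NIL with `D = NC _ (B n)`, `ζ` from `ω`, I3L. -/
def S_MAINK : Prop := ∀ (F : Type) [Field F] [CharP F 3] [IsAlgClosed F]
    (k K : IntermediateField ℚ ℂ) (B : ℕ → IntermediateField ℚ ℂ) [FiniteDimensional ℚ k]
    [FiniteDimensional ℚ K] [∀ n, FiniteDimensional ℚ ↥(K ⊔ B n)], Bas k K B →
    (∃ ω ∈ K, ω ^ 2 + ω + 1 = 0) → ∀ (hk : ∀ n, k ≤ K ⊔ B n) (S : Finset ℕ) (c : ℕ → ℂ) (n₁ : ℕ),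
    Inp F k K B hk S c n₁ →
    ∃ C : ℕ, ∀ n, padicValNat 3 (classNo (K ⊔ B n)) ≤ C * (n + 1) ^ 2

/-- UP: enlarging `K`.
Proof. `BCH_thm` (first part: `A = K`, `C = K'`, `E = B`): `K' B / K B` is Galois of degree dividing `[K' : K]`; `S_INJ`
(`Pool/Agent/RID/P_INJ.lean`). -/
def S_UP : Prop := ∀ (K K' B : IntermediateField ℚ ℂ) [FiniteDimensional ℚ K'] (n : ℕ)
    (h : K ≤ K'), IsLayer 3 n B → IsGalois K (IntermediateField.extendScalars h) →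
    ¬ 3 ∣ Module.finrank K (IntermediateField.extendScalars h) →
    padicValNat 3 (classNo (K ⊔ B)) ≤ padicValNat 3 (classNo (K' ⊔ B))

end Pool.Agent.MU3
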