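import Pool.Agent.MU3.StG

/-!
# MU3, block G, G6c: the function `Z` is periodic modulo `L` under `Γ₁(N')`
-/

set_option autoImplicit false

namespace Pool.Agent.MU3G

open MU3 Pool.Agent.MuSym OnePoint NumberField

noncomputable section

namespace G6c

open Matrix MatrixGroups

lemma emb_mul {A B : ℤ} (hc : Case A B) (x y : OO A B) : emb (x * y) = emb x * emb y := by
  rw [← embHom_apply hc, ← embHom_apply hc, ← embHom_apply hc, map_mul]

lemma emb_intCast {A B : ℤ} (hc : Case A B) (k : ℤ) : emb (k : OO A B) = k := by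
  rw [← embHom_apply hc, map_intCast]

/-- the product of two matrices acts on `∞` as it should -/
lemma mob_mul_infty (a b c d a' b' c' d' : ℤ) (_h : a * d - b * c = 1)
    (h' : a' * d' - b' * c' = 1) :
    mob a b c d (mob a' b' c' d' ∞) =
      mob (a * a' + b * c') (a * b' + b * d') (c * a' + d * c') (c * b' + d * d') ∞ := by
  by_cases hc' : c' = 0
  · subst hc'
    have ha' : a' ≠ 0 := by
      rintro rfl
      simp at h'
    have e1 : mob a' b' 0 d' ∞ = ∞ := by simp [mob]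
    rw [e1]
    by_cases hc : c = 0
    · subst hc
      simp [mob]
    · have h2 : c * a' + d * 0 ≠ 0 := by
        simp [hc, ha']
      have q1 : (c : ℚ) ≠ 0 := by exact_mod_cast hc
      have q2 : (a' : ℚ) ≠ 0 := by exact_mod_cast ha'
      simp only [mob, OnePoint.elim_infty, if_neg hc, if_neg h2]
      congr 1
      push_cast
      field_simp
      ring
  · have q1 : (c' : ℚ) ≠ 0 := by exact_mod_cast hc'
    have e1 : mob a' b' c' d' ∞ = ((a' / c' : ℚ) : OnePoint ℚ) := by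
      simp only [mob, OnePoint.elim_infty, if_neg hc']
    rw [e1]
    have e2 : (c : ℚ) * (a' / c') + d = ((c * a' + d * c' : ℤ) : ℚ) / c' := by
      push_cast
      field_simp
    have e3 : (a : ℚ) * (a' / c') + b = ((a * a' + b * c' : ℤ) : ℚ) / c' := by
      push_cast
      field_simp
    by_cases hz : c * a' + d * c' = 0
    · have e4 : (c : ℚ) * (a' / c') + d = 0 := by
        rw [e2, hz]
        simp
      simp only [mob, OnePoint.elim_some, OnePoint.elim_infty, if_pos hz, if_pos e4]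
    · have q3 : ((c * a' + d * c' : ℤ) : ℚ) ≠ 0 := by exact_mod_cast hz
      have e4 : (c : ℚ) * (a' / c') + d ≠ 0 := by
        rw [e2]
        exact div_ne_zero q3 q1
      simp only [mob, OnePoint.elim_some, OnePoint.elim_infty, if_neg hz, if_neg e4]
      congr 1
      rw [e2, e3]
      field_simp

/-- the action on `∞` of an element of `SL(2, ℤ)` -/
def mI (h : SL(2, ℤ)) : OnePoint ℚ := mob (h 0 0) (h 0 1) (h 1 0) (h 1 1) ∞

lemma det_eq (h : SL(2, ℤ)) : h 0 0 * h 1 1 - h 0 1 * h 1 0 = 1 := by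
  have := h.2
  rw [Matrix.det_fin_two] at this
  exact this

lemma mI_mul (h k : SL(2, ℤ)) :
    mI (h * k) = mob (h 0 0) (h 0 1) (h 1 0) (h 1 1) (mI k) := by
  unfold mI
  rw [mob_mul_infty _ _ _ _ _ _ _ _ (det_eq h) (det_eq k)]
  simp [Matrix.SpecialLinearGroup.coe_mul, Matrix.mul_apply, Fin.sum_univ_two]

instance fgSL : Group.FG SL(2, ℤ) := by
  rw [Group.fg_iff]
  exact ⟨{ModularGroup.S, ModularGroup.T}, SpecialLinearGroup.SL2Z_generators, by simp⟩

lemma fg1 (N : ℕ) (hN : N ≠ 0) : Group.FG (CongruenceSubgroup.Gamma1 N) := by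
  have : NeZero N := ⟨hN⟩
  exact Subgroup.fg_of_index_ne_zero _

lemma mem1 {N : ℕ} {h : SL(2, ℤ)} (hh : h ∈ CongruenceSubgroup.Gamma1 N) :
    (N : ℤ) ∣ h 1 0 ∧ (N : ℤ) ∣ h 1 1 - 1 := by
  rw [CongruenceSubgroup.Gamma1_mem] at hh
  refine ⟨(ZMod.intCast_zmod_eq_zero_iff_dvd _ _).1 hh.2.2, ?_⟩
  rw [← ZMod.intCast_zmod_eq_zero_iff_dvd]
  push_cast
  rw [hh.2.1, sub_self]

lemma mk1 (N : ℕ) (a b c d : ℤ) (hdet : a * d - b * c = 1) (h1 : (N : ℤ) ∣ c)
    (h2 : (N : ℤ) ∣ d - 1) :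
    ∃ h : CongruenceSubgroup.Gamma1 N, h.1 0 0 = a ∧ h.1 0 1 = b ∧ h.1 1 0 = c ∧ h.1 1 1 = d := by
  have hd : Matrix.det !![a, b; c, d] = 1 := by
    rw [Matrix.det_fin_two_of]
    exact hdet
  let h : SL(2, ℤ) := ⟨!![a, b; c, d], hd⟩
  have f1 : h 0 0 = a := rfl
  have f2 : h 0 1 = b := rfl
  have f3 : h 1 0 = c := rfl
  have f4 : h 1 1 = d := rfl
  suffices hm : h ∈ CongruenceSubgroup.Gamma1 N from ⟨⟨h, hm⟩, f1, f2, f3, f4⟩
  rw [CongruenceSubgroup.Gamma1_mem, f1, f3, f4]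
  have e1 : ((c : ℤ) : ZMod N) = 0 := (ZMod.intCast_zmod_eq_zero_iff_dvd _ _).2 h1
  have e2 : ((d : ℤ) : ZMod N) = 1 := by
    have := (ZMod.intCast_zmod_eq_zero_iff_dvd _ _).2 h2
    push_cast at this
    exact sub_eq_zero.1 this
  have e3 : ((a : ℤ) : ZMod N) = 1 := by
    have := congrArg (Int.cast : ℤ → ZMod N) hdet
    push_cast at this
    rw [e1, e2, mul_one, mul_zero, sub_zero] at this
    exact this
  exact ⟨e3, e2, e1⟩

lemma fin_inv {H : Type} [Field H] (Γ : Subgroup (H ≃+* H)) [Finite Γ] (y : H) (t : H ≃+* H)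
    (ht : t ∈ Γ) : t (∑ᶠ s : Γ, s.1 y) = ∑ᶠ s : Γ, s.1 y := by
  rw [map_finsum t (Set.toFinite _)]
  exact finsum_comp_equiv (Equiv.mulLeft (⟨t, ht⟩ : Γ)) (f := fun s : Γ => s.1 y)

end G6c

open G6c Matrix MatrixGroups in
theorem t_G6c (h0 : St_G0) (h5 : St_G5a) (h6a : St_G6a) (h6b : St_G6b) : St_G6c := by
  intro A B hc V g hg H _ _ io j Γ _ al eH s0 kap hG Om hOm N' hN' hnu PhiH hPhi hsym hFT hyp
  obtain ⟨-, -, hpi, -, -, -, hemb0, -, -, -⟩ := h0 A B hc
  have iinj : Function.Injective io := io.injective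
  have ppi0 : emb (ppi A B) ≠ 0 := fun h => hpi.ne_zero ((hemb0 _).1 h)
  -- properties of eH
  have eone : eH 1 = 1 := iinj (by rw [hG.eps.one, map_one])
  have emul : ∀ x y, eH (x * y) = eH x * eH y := fun x y =>
    iinj (by rw [hG.eps.mul, map_mul])
  have eper : ∀ x y, g ∣ x - y → eH x = eH y := fun x y h => iinj (hG.eps.per x y h)
  have esup : ∀ x, IsCoprime x g → eH x ≠ 0 := fun x h h' =>
    (hG.eps.supp x).2 h (by rw [h', map_zero])
  have eal : ∀ s : Γ, eH (al s) ≠ 0 := fun s => esup _ (hG.al_cop s)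
  have eal1 : eH (al 1) = 1 := by
    have e := eper _ _ (hG.al_mul 1 1)
    rw [mul_one, emul] at e
    exact (mul_eq_left₀ (eal 1)).1 e.symm
  -- PhiH
  have hP1 : ∀ x y, Phi (fun z => io (eH z)) x y = Om * io (PhiH x y) := by
    intro x y
    have e := hPhi 1 x y
    simp only [Subgroup.coe_one, RingAut.one_apply, eal1, one_mul] at e
    exact e
  have hadd : ∀ x y z, PhiH x y + PhiH y z = PhiH x z := by
    intro x y z
    have e := hsym.add x y z
    rw [hP1, hP1, hP1, ← mul_add] at e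
    exact iinj (by rw [map_add]; exact mul_left_cancel₀ hOm e)
  have hnu1 : ∀ (s : Γ) (d : ℤ), (N' : ℤ) ∣ d - 1 → nuE (fun z => io (s.1 (eH z))) d = 1 := by
    intro s d hd
    obtain ⟨h1, h2⟩ := hnu d hd
    have h3 : eH (d : OO A B) = 1 := by rw [eper _ _ h2, eone]
    simp only [nuE, h1, h3, map_one, Int.cast_one, mul_one]
  have hequ : ∀ a b c d : ℤ, a * d - b * c = 1 → (N' : ℤ) ∣ c → (N' : ℤ) ∣ d - 1 → ∀ x y,
      PhiH (mob a b c d x) (mob a b c d y) = PhiH x y := by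
    intro a b c d h1 h2 h3 x y
    have e := hsym.equiv a b c d h1 h2 x y
    have e' := hnu1 1 d h3
    simp only [Subgroup.coe_one, RingAut.one_apply] at e'
    rw [e', one_mul, hP1, hP1] at e
    exact iinj (mul_left_cancel₀ hOm e)
  -- the homomorphism
  let G := CongruenceSubgroup.Gamma1 N'
  let y : G → H := fun h => PhiH ∞ (mI h.1)
  have ymul : ∀ h k : G, y (h * k) = y h + y k := by
    intro h k
    have e1 : y (h * k) = PhiH ∞ (mI (h.1 * k.1)) := rfl
    obtain ⟨m1, m2⟩ := mem1 h.2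
    rw [e1, mI_mul, ← hadd ∞ (mI h.1), add_right_inj]
    exact hequ _ _ _ _ (det_eq h.1) m1 m2 ∞ (mI k.1)
  have yone : y 1 = 0 := by
    have e := ymul 1 1
    rw [mul_one] at e
    exact (left_eq_add.1 e)
  have yinv : ∀ h : G, y h⁻¹ = - y h := by
    intro h
    have e := ymul h h⁻¹
    rw [mul_inv_cancel, yone] at e
    exact (neg_eq_of_add_eq_zero_right e.symm).symm
  have fgG : Group.FG G := fg1 N' hN'
  obtain ⟨S, hS, hSf⟩ := Group.fg_iff.1 fgG
  have pV : emb (ppi A B) ∈ V := ValuationSubring.nonunits_subset hG.pV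
  obtain ⟨P, -, -, -, -, -, h6iii, -, -⟩ := h6a A B hc V hG.pV H io
  -- the bound
  obtain ⟨K, hK⟩ : ∃ K : ℕ, ∀ (s : Γ) (h : G), io (s.1 (y h)) * emb (ppi A B) ^ K ∈ V := by
    have : Fintype Γ := Fintype.ofFinite Γ
    choose f hf using h6iii
    let K : ℕ := hSf.toFinset.sup fun h => Finset.univ.sup fun s : Γ => f (s.1 (y h))
    refine ⟨K, fun s h => ?_⟩
    have hh : h ∈ Subgroup.closure S := hS ▸ Subgroup.mem_top h
    induction hh using Subgroup.closure_induction with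
    | mem x hx =>
      have hle : f (s.1 (y x)) ≤ K :=
        (Finset.le_sup (f := fun s : Γ => f (s.1 (y x))) (Finset.mem_univ s)).trans
          (Finset.le_sup (f := fun h => Finset.univ.sup fun s : Γ => f (s.1 (y h)))
            (hSf.mem_toFinset.2 hx))
      obtain ⟨r, hr⟩ := Nat.exists_eq_add_of_le hle
      rw [hr, pow_add, ← mul_assoc]
      exact mul_mem (hf _) (pow_mem pV r)
    | one =>
      rw [yone, map_zero, map_zero, zero_mul]
      exact zero_mem _
    | mul x z _ _ hx hz =>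
      rw [ymul, map_add, map_add, add_mul]
      exact add_mem hx hz
    | inv x _ hx =>
      rw [yinv, map_neg, map_neg, neg_mul]
      exact neg_mem hx
  obtain ⟨-, c, hcI, hcN, hcV⟩ := h6b A B hc V g hg H io j Γ al eH s0 kap hG (K + 1) (by omega)
  let rho : G → ℂ := fun h => io (∑ᶠ s : Γ, s.1 (c * y h))
  have fsup : ∀ f : Γ → H, f.HasFiniteSupport := fun f => Set.toFinite _
  have rmul : ∀ h k : G, rho (h * k) = rho h + rho k := by
    intro h k
    show io _ = io _ + io _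
    rw [← map_add, ymul, ← finsum_add_distrib (Set.toFinite _) (Set.toFinite _)]
    congr 1
    refine finsum_congr fun s => ?_
    rw [mul_add, map_add]
  have rgal : ∀ h : G, ∃ y z : OO A B, z ≠ 0 ∧ rho h * emb z = emb y := by
    intro h
    obtain ⟨x, z, hz, e⟩ := hG.gal (∑ᶠ s : Γ, s.1 (c * y h)) (fun s hs => fin_inv Γ _ s hs)
    refine ⟨x, z, hz, ?_⟩
    have e' := congrArg io e
    rw [map_mul, hG.io_j, hG.io_j] at e'
    exact e'
  have rV : ∀ h : G, rho h / emb (ppi A B) ∈ V := by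
    intro h
    apply hcV (y h)
    · obtain ⟨m1, m2⟩ := mem1 h.2
      have e := hyp _ _ _ _ (det_eq h.1) m1 m2
      rw [hP1, mul_div_cancel_left₀ _ hOm] at e
      exact e
    · intro s
      exact hK s h
  obtain ⟨d, hd, hdy⟩ := h5 A B hc V hG.pV G rho rmul rgal rV
  refine ⟨c, d, hcI, hd, hcN, ?_⟩
  intro a b c' d' hdet hc' hd' τ hτ
  obtain ⟨h, k1, k2, k3, k4⟩ := mk1 N' a b c' d' hdet hc' hd'
  obtain ⟨w, hw⟩ := hdy h
  refine ⟨kap * w, ?_⟩
  have hmI : mI h.1 = mob a b c' d' ∞ := by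
    unfold mI
    rw [k1, k2, k3, k4]
  have kk : (kap : ℂ) * kap = 1 := by
    rcases hG.kap1 with hk | hk <;> rw [hk] <;> norm_num
  have k0 : (kap : ℂ) ≠ 0 := fun h => by rw [h, zero_mul] at kk; exact zero_ne_one kk
  have key : ∀ s : Γ, io (s.1 c * (s.1 (eH (al s)))⁻¹) *
      thetaInt (fun x => io (s.1 (eH x))) ((a * τ + b) / (c' * τ + d')) =
      io (s.1 c * (s.1 (eH (al s)))⁻¹) * thetaInt (fun x => io (s.1 (eH x))) τ +
        Om * io (s.1 (c * y h)) := by
    intro s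
    have h1 : s.1 (eH (al s)) ≠ 0 := by
      rw [Ne, map_eq_zero_iff _ s.1.injective]
      exact eal s
    rw [hFT s a b c' d' hdet hc' τ hτ, hnu1 s d' hd', one_mul, mul_add, add_right_inj, hPhi s,
      ← hmI]
    show _ = Om * io (s.1 (c * PhiH ∞ (mI h.1)))
    rw [mul_left_comm, ← map_mul, map_mul s.1 c]
    congr 2
    field_simp
  have e1 : ZZ io Γ al eH kap c d ((a * τ + b) / (c' * τ + d')) =
      ZZ io Γ al eH kap c d τ + emb d / (kap * emb (ppi A B)) * (Om * rho h) := by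
    unfold ZZ
    rw [← mul_add]
    congr 1
    rw [finsum_congr key, finsum_add_distrib (Set.toFinite _) (Set.toFinite _)]
    congr 1
    rw [← mul_finsum]
    congr 1
    exact (map_finsum io (Set.toFinite _)).symm
  rw [e1, add_sub_cancel_left, emb_mul hc, emb_intCast hc]
  have e2 : emb d / (kap * emb (ppi A B)) * (Om * rho h) =
      Om * (emb d * rho h) / (kap * emb (ppi A B)) := by ring
  rw [e2, hw, emb_mul hc]
  have e3 : (kap : ℂ) = 1 / kap := by
    rw [eq_div_iff k0]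
    exact kk
  rw [div_eq_iff (mul_ne_zero k0 ppi0)]
  linear_combination (-(Om * emb w * emb (ppi A B))) * kk

end

end Pool.Agent.MU3G
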