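import Pool.Agent.MU3.StH

/-!
# MU3, block H: the quantity of `St_HFIN` as a character sum (module QS)
-/

set_option autoImplicit false

namespace Pool.Agent.MU3H

open _root_.MU3 Pool.Agent.MU3 Pool.Agent.MU3A Pool.Agent.MU3B Pool.Agent.MU3C Pool.Agent.MU3F
  Pool.Agent.MU3G Pool.Agent.MU3I Pool.Agent.MuSym OnePoint
open scoped ComplexConjugate

noncomputable section

namespace Qs

theorem mob_inf : mob (-1) 0 0 1 ∞ = ∞ := by
  show (if (0 : ℤ) = 0 then (∞ : OnePoint ℚ) else ((((-1 : ℤ) : ℚ) / (0 : ℤ) : ℚ) : OnePoint ℚ)) = ∞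
  rw [if_pos rfl]

theorem mob_neg (r : ℚ) : mob (-1) 0 0 1 ((r : ℚ) : OnePoint ℚ) = ((-r : ℚ) : OnePoint ℚ) := by
  show (if ((0 : ℤ) : ℚ) * r + (1 : ℤ) = 0 then ∞ else
    ((((((-1 : ℤ) : ℚ) * r + (0 : ℤ)) / (((0 : ℤ) : ℚ) * r + (1 : ℤ)) : ℚ)) : OnePoint ℚ)) = _
  rw [if_neg (by norm_num)]
  congr 1
  push_cast
  ring

/-! ## periodic sums -/

theorem sum_zmod (q : ℕ) [NeZero q] (G : ZMod q → ℂ) :
    ∑ b ∈ Finset.range q, G (b : ZMod q) = ∑ x : ZMod q, G x := by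
  refine Finset.sum_nbij' (fun b => (b : ZMod q)) (fun x => x.val) ?_ ?_ ?_ ?_ ?_
  · intro b _
    exact Finset.mem_univ _
  · intro x _
    exact Finset.mem_range.mpr (ZMod.val_lt x)
  · intro b hb
    exact ZMod.val_cast_of_lt (Finset.mem_range.mp hb)
  · intro x _
    exact ZMod.natCast_zmod_val x
  · intro b _
    rfl

theorem per_val {q : ℕ} [NeZero q] {G : ℤ → ℂ} (hG : ∀ b k : ℤ, G (b + q * k) = G b) (b : ℤ) :
    G (((b : ZMod q).val : ℕ) : ℤ) = G b := by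
  have h1 : (((b : ZMod q).val : ℕ) : ℤ) = b % q := by
    rw [ZMod.val_intCast]
  rw [h1]
  have h2 : b % q = b + q * (-(b / q)) := by
    have := Int.emod_add_mul_ediv b q
    linarith
  rw [h2, hG]

theorem sum_mul {q : ℕ} [NeZero q] {G : ℤ → ℂ} (hG : ∀ b k : ℤ, G (b + q * k) = G b)
    {u : ℤ} (hu : IsCoprime u (q : ℤ)) :
    ∑ b ∈ Finset.range q, G (u * b) = ∑ b ∈ Finset.range q, G b := by
  obtain ⟨v, w, hvw⟩ := hu
  have huv : (u : ZMod q) * (v : ZMod q) = 1 := by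
    have := congrArg (fun z : ℤ => (z : ZMod q)) hvw
    push_cast at this
    rw [ZMod.natCast_self, mul_zero, add_zero] at this
    rw [mul_comm]
    exact this
  have h1 : ∀ b : ℕ, G (u * b) = (fun x : ZMod q => G ((((u : ZMod q) * x).val : ℕ) : ℤ))
      (b : ZMod q) := by
    intro b
    have h := per_val hG (u * b)
    push_cast at h
    exact h.symm
  have h2 : ∀ b : ℕ, G b = (fun x : ZMod q => G ((x.val : ℕ) : ℤ)) (b : ZMod q) := by
    intro b
    have h := per_val hG (b : ℤ)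
    push_cast at h
    exact h.symm
  rw [Finset.sum_congr rfl (fun b _ => h1 b), Finset.sum_congr rfl (fun b _ => h2 b),
    sum_zmod q (fun x : ZMod q => G ((((u : ZMod q) * x).val : ℕ) : ℤ)),
    sum_zmod q (fun x : ZMod q => G ((x.val : ℕ) : ℤ))]
  have hunit : IsUnit (u : ZMod q) := IsUnit.of_mul_eq_one _ huv
  obtain ⟨U, hU⟩ := hunit
  rw [← hU]
  exact Fintype.sum_equiv (Units.mulLeft U) _ _ (fun x => rfl)

/-! ## exponentials -/

theorem ex_add (r t : ℚ) : ex (r + t) = ex r * ex t := by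
  unfold ex
  rw [← Complex.exp_add]
  congr 1
  push_cast
  ring

theorem ex_int (k : ℤ) : ex (k : ℚ) = 1 := by
  unfold ex
  rw [Complex.exp_eq_one_iff]
  exact ⟨k, by push_cast; ring⟩

theorem ex_pow (r : ℚ) (b : ℕ) : ex r ^ b = ex (b * r) := by
  induction b with
  | zero =>
    rw [pow_zero]
    have := ex_int 0
    simpa using this.symm
  | succ b ih =>
    rw [pow_succ, ih, ← ex_add]
    congr 1
    push_cast
    ring

end Qs

open Qs in
theorem th_QS (_hALG : Sf_ALG) (hF5S : Sf_F5S) : Sh_QS := by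
  intro A B hC L Om hL f hf e he hT s N n lam a3 hlam ha3
  set q : ℕ := 3 ^ (n + 1) with hq
  haveI : NeZero q := ⟨by rw [hq]; positivity⟩
  have hqQ : ((q : ℤ) : ℚ) = 3 ^ (n + 1) := by rw [hq]; push_cast; ring
  have hq0 : (3 : ℚ) ^ (n + 1) ≠ 0 := by positivity
  -- the values
  set F : ℤ → ℂ := fun b => Phi e ∞ ((b / 3 ^ (n + 1) : ℚ) : OnePoint ℚ) with hFdef
  set P : ℤ → ℂ := fun b => sgnPart (s : ℂ) (Phi e) ∞ ((b / 3 ^ (n + 1) : ℚ) : OnePoint ℚ)
    with hPdef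
  set E : ℤ → ℂ := fun k => ex (k / 3 ^ (n + 1)) with hEdef
  have hPF : ∀ b : ℤ, P b = F b + s * F (-b) := by
    intro b
    simp only [hPdef, hFdef, sgnPart]
    rw [mob_inf, mob_neg]
    congr 4
    push_cast
    ring
  have hFper : ∀ b k : ℤ, F (b + q * k) = F b := by
    intro b k
    simp only [hFdef]
    have h := hT (b / 3 ^ (n + 1)) k
    rw [← h]
    congr 3
    push_cast
    rw [show ((q : ℕ) : ℚ) = 3 ^ (n + 1) by rw [hq]; push_cast; ring]
    field_simp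
  have hPper : ∀ b k : ℤ, P (b + q * k) = P b := by
    intro b k
    rw [hPF, hPF, hFper]
    congr 2
    have := hFper (-b) (-k)
    rw [← this]
    congr 1
    ring
  have hEadd : ∀ k l : ℤ, E (k + l) = E k * E l := by
    intro k l
    simp only [hEdef]
    rw [← ex_add]
    congr 1
    push_cast
    ring
  have hEq : ∀ k : ℤ, E (q * k) = 1 := by
    intro k
    simp only [hEdef]
    rw [← ex_int k]
    congr 1
    push_cast
    rw [show ((q : ℕ) : ℚ) = 3 ^ (n + 1) by rw [hq]; push_cast; ring]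
    field_simp
  have hEper : ∀ b k : ℤ, E (b + q * k) = E b := by
    intro b k
    rw [hEadd, hEq, mul_one]
  -- the transform
  have hSn : ∀ c : ℤ, ¬ (3 : ℤ) ∣ c →
      Sn L Om f e n c = (2 * f / Om) * ∑ b ∈ Finset.range q, E (-(b * c)) * F b := by
    intro c hc
    rw [hF5S A B hC L Om hL f n e hf he c hc]
    congr 1
    refine Finset.sum_congr rfl (fun b _ => ?_)
    simp only [hEdef, hFdef]
    push_cast
    rfl
  set W : ℤ → ℂ := fun c => ∑ b ∈ Finset.range q, E (-(b * c)) * P b with hWdef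
  have hSW : ∀ c : ℤ, ¬ (3 : ℤ) ∣ c →
      Sn L Om f e n c + s * Sn L Om f e n (-c) = (2 * f / Om) * W c := by
    intro c hc
    rw [hSn c hc, hSn (-c) (by rwa [dvd_neg])]
    have h1 : ∑ b ∈ Finset.range q, E (-(b * (-c))) * F b =
        ∑ b ∈ Finset.range q, E (-(b * c)) * F (-b) := by
      have hG : ∀ b k : ℤ, (fun b : ℤ => E (-(b * (-c))) * F b) (b + q * k) =
          (fun b : ℤ => E (-(b * (-c))) * F b) b := by
        intro b k
        show E (-((b + q * k) * (-c))) * F (b + q * k) = E (-(b * (-c))) * F b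
        rw [hFper, show -((b + q * k) * (-c)) = -(b * (-c)) + q * (k * c) by ring, hEper]
      have h := sum_mul (G := fun b : ℤ => E (-(b * (-c))) * F b) hG (u := -1)
        (by exact (isCoprime_one_left).neg_left)
      rw [← h]
      refine Finset.sum_congr rfl (fun b _ => ?_)
      show E (-((-1 * (b : ℤ)) * (-c))) * F (-1 * (b : ℤ)) = _
      rw [show -((-1 * (b : ℤ)) * (-c)) = -(b * c) by ring, show -1 * (b : ℤ) = -b by ring]
    rw [h1]
    simp only [hWdef]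
    rw [← mul_assoc, mul_comm (s : ℂ), mul_assoc, ← mul_add, Finset.mul_sum,
      ← Finset.sum_add_distrib]
    congr 1
    refine Finset.sum_congr rfl (fun b _ => ?_)
    rw [hPF]
    ring
  -- substitution
  have hsub : ∀ (c u : ℤ), IsCoprime u (q : ℤ) →
      W c = ∑ b ∈ Finset.range q, E (-(b * (u * c))) * P (u * b) := by
    intro c u hu
    have hG : ∀ b k : ℤ, (fun b : ℤ => E (-(b * c)) * P b) (b + q * k) =
        (fun b : ℤ => E (-(b * c)) * P b) b := by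
      intro b k
      show E (-((b + q * k) * c)) * P (b + q * k) = E (-(b * c)) * P b
      rw [hPper, show -((b + q * k) * c) = -(b * c) + q * (-(k * c)) by ring, hEper]
    have h := sum_mul (G := fun b : ℤ => E (-(b * c)) * P b) hG hu
    simp only [hWdef]
    rw [← h]
    refine Finset.sum_congr rfl (fun b _ => ?_)
    show E (-((u * (b : ℤ)) * c)) * P (u * (b : ℤ)) = _
    rw [show -((u * (b : ℤ)) * c) = -(b * (u * c)) by ring]
  -- coprimality
  have h3q : ∀ u : ℤ, (3 : ℤ) ∣ u - 1 → IsCoprime u (q : ℤ) := by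
    intro u hu
    rw [hq]
    push_cast
    apply IsCoprime.pow_right
    obtain ⟨t, ht⟩ := hu
    exact ⟨1, -t, by linear_combination ht⟩
  have hnd : ∀ u : ℤ, (3 : ℤ) ∣ u - 1 → ¬ (3 : ℤ) ∣ u := by
    intro u hu h
    have h1 : (3 : ℤ) ∣ u - (u - 1) := dvd_sub h hu
    rw [sub_sub_cancel] at h1
    exact absurd (Int.le_of_dvd one_pos h1) (by norm_num)
  set a : ℤ := 1 + 6 * (f : ℤ) with ha
  have h3mul : ∀ u v : ℤ, (3 : ℤ) ∣ u - 1 → (3 : ℤ) ∣ v - 1 → (3 : ℤ) ∣ u * v - 1 := by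
    intro u v hu hv
    have h1 : u * v - 1 = (u - 1) * v + (v - 1) := by ring
    rw [h1]
    exact dvd_add (Dvd.dvd.mul_right hu v) hv
  have h4 : ∀ j : ℕ, (3 : ℤ) ∣ 4 ^ j - 1 := by
    intro j
    have := sub_dvd_pow_sub_pow (4 : ℤ) 1 j
    simpa using this
  have h3a : (3 : ℤ) ∣ a - 1 := ⟨2 * f, by rw [ha]; ring⟩
  have h3a2 : (3 : ℤ) ∣ a ^ 2 - 1 := by rw [sq]; exact h3mul a a h3a h3a
  have haC : ((a : ℤ) : ℂ) = 1 + 6 * (f : ℂ) := by rw [ha]; push_cast; ring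
  -- the left hand side
  have hST : ∀ c : ℤ, (3 : ℤ) ∣ c - 1 →
      ST L Om f e n c + s * ST L Om f e n (-c) =
        (2 * f / Om) * ((a : ℂ) * W (a ^ 2 * c) - (a : ℂ) ^ 2 * W c) := by
    intro c hc
    have e1 := hSW c (hnd c hc)
    have e2 := hSW (a ^ 2 * c) (hnd _ (h3mul _ _ h3a2 hc))
    simp only [MU3I.ST]
    rw [← ha, ← haC, show a ^ 2 * -c = -(a ^ 2 * c) by ring]
    linear_combination (a : ℂ) * e2 - (a : ℂ) ^ 2 * e1
  -- comparison term by term
  have hz : ∀ b : ℕ, ex (-(4 ^ N * (1 + 6 * f) ^ 2) / 3 ^ (n + 1)) ^ b =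
      E (-(b * (4 ^ N * a ^ 2))) := by
    intro b
    rw [ex_pow]
    simp only [hEdef]
    congr 1
    rw [ha]
    push_cast
    ring
  have hterm : ∀ j ∈ Finset.range (N + 1),
      (a : ℂ) * W (a ^ 2 * 4 ^ j) - (a : ℂ) ^ 2 * W (4 ^ j) =
        ∑ b ∈ Finset.range q, E (-(b * (4 ^ N * a ^ 2))) *
          ((a : ℂ) * P (4 ^ (N - j) * b) - (a : ℂ) ^ 2 * P (4 ^ (N - j) * a ^ 2 * b)) := by
    intro j hj
    have hjN : N - j + j = N := Nat.sub_add_cancel (Nat.lt_succ_iff.mp (Finset.mem_range.mp hj))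
    have e4 : (4 : ℤ) ^ (N - j) * 4 ^ j = 4 ^ N := by rw [← pow_add, hjN]
    rw [hsub (a ^ 2 * 4 ^ j) (4 ^ (N - j)) (h3q _ (h4 _)),
      hsub (4 ^ j) (4 ^ (N - j) * a ^ 2) (h3q _ (h3mul _ _ (h4 _) h3a2)),
      Finset.mul_sum, Finset.mul_sum, ← Finset.sum_sub_distrib]
    refine Finset.sum_congr rfl (fun b _ => ?_)
    rw [show (4 : ℤ) ^ (N - j) * (a ^ 2 * 4 ^ j) = 4 ^ N * a ^ 2 by rw [← e4]; ring,
      show (4 : ℤ) ^ (N - j) * a ^ 2 * 4 ^ j = 4 ^ N * a ^ 2 by rw [← e4]; ring]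
    ring
  have hlhs : ∀ j ∈ Finset.range (N + 1),
      ((-1 : ℂ) ^ (N - j) * (N.choose j : ℂ)) *
        (ST L Om f e n (4 ^ j) + s * ST L Om f e n (-4 ^ j)) =
      (2 * f / Om) * ∑ b ∈ Finset.range q, E (-(b * (4 ^ N * a ^ 2))) *
        (((-1 : ℂ) ^ (N - j) * (N.choose j : ℂ)) *
          ((a : ℂ) * P (4 ^ (N - j) * b) - (a : ℂ) ^ 2 * P (4 ^ (N - j) * a ^ 2 * b))) := by
    intro j hj
    rw [hST (4 ^ j) (h4 j), hterm j hj, Finset.mul_sum, Finset.mul_sum, Finset.mul_sum]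
    refine Finset.sum_congr rfl (fun b _ => ?_)
    ring
  rw [Finset.sum_congr rfl hlhs, ← Finset.mul_sum, Finset.sum_comm, Finset.mul_sum,
    Finset.mul_sum]
  refine Finset.sum_congr rfl (fun b _ => ?_)
  rw [hz b, ← Finset.mul_sum]
  have hcomb : comb (1 + 6 * f) N (fun n b => sgnPart (s : ℂ) (Phi e) ∞
      ((b / 3 ^ n : ℚ) : OnePoint ℚ) / (Om * lam * a3 ^ n)) (n + 1) b =
      (∑ j ∈ Finset.range (N + 1), ((-1 : ℂ) ^ (N - j) * (N.choose j : ℂ)) *
        ((a : ℂ) * P (4 ^ (N - j) * b) - (a : ℂ) ^ 2 * P (4 ^ (N - j) * a ^ 2 * b))) /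
        (Om * lam * a3 ^ (n + 1)) := by
    unfold comb
    rw [Finset.sum_div]
    refine Finset.sum_congr rfl (fun j _ => ?_)
    rw [← ha]
    simp only [hPdef]
    ring
  rw [hcomb]
  have ha3' : a3 ^ (n + 1) ≠ 0 := pow_ne_zero _ ha3
  generalize (∑ j ∈ Finset.range (N + 1), ((-1 : ℂ) ^ (N - j) * (N.choose j : ℂ)) *
    ((a : ℂ) * P (4 ^ (N - j) * b) - (a : ℂ) ^ 2 * P (4 ^ (N - j) * a ^ 2 * b))) = S
  by_cases hOm : Om = 0
  · rw [hOm]
    simp
  · field_simp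

end

end Pool.Agent.MU3H
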