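import Pool.Agent.MU3.StI

/-!
# MU3, block I, module ITG: powers of `T = γ - 1`
-/

set_option autoImplicit false

namespace Pool.Agent.MU3I

open _root_.MU3 Pool.Agent.MU3 Pool.Agent.MU3A Pool.Agent.MU3B Pool.Agent.MU3C Pool.Agent.RI
  Pool.Agent.RID

noncomputable section

/-- the exponent -/
def itgE (N j : ℕ) : ℤ := (-1 : ℤ) ^ (N - j) * (N.choose j : ℤ)

lemma itgE_zero (N : ℕ) : itgE (N + 1) 0 = -itgE N 0 := by
  simp [itgE, pow_succ]

lemma itgE_gt (N : ℕ) : itgE N (N + 1) = 0 := by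
  simp [itgE, Nat.choose_succ_self]

lemma itgE_succ (N j : ℕ) (hj : j ≤ N) : itgE (N + 1) (j + 1) = itgE N j - itgE N (j + 1) := by
  unfold itgE
  rw [Nat.choose_succ_succ, Nat.add_sub_add_right]
  rcases Nat.lt_or_ge j N with h | h
  · have e : N - j = (N - (j + 1)) + 1 := by omega
    rw [e, pow_succ]
    push_cast
    ring
  · have e : j = N := by omega
    subst e
    simp [Nat.choose_succ_self]

theorem t_ITG : St_ITG := by
  intro k L _ _ _ γ x hx N
  have hy : ∀ j : ℕ, (γ ^ j) x ≠ 0 := fun j h0 => hx ((γ ^ j).injective (by rw [h0, map_zero]))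
  have key : ∀ N : ℕ, (Tg γ)^[N] x =
      ∏ j ∈ Finset.range (N + 1), ((γ ^ j) x) ^ (itgE N j) := by
    intro N
    induction N with
    | zero => simp [itgE]
    | succ N ih =>
      rw [Function.iterate_succ_apply', ih]
      unfold Tg
      rw [map_prod]
      have e1 : ∏ j ∈ Finset.range (N + 1), γ (((γ ^ j) x) ^ (itgE N j)) =
          ∏ j ∈ Finset.range (N + 1), ((γ ^ (j + 1)) x) ^ (itgE N j) := by
        apply Finset.prod_congr rfl
        intro j _
        rw [map_zpow₀, pow_succ' γ j]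
        rfl
      have e2 : ∏ j ∈ Finset.range (N + 1), ((γ ^ j) x) ^ (itgE N j) =
          (∏ j ∈ Finset.range (N + 1), ((γ ^ (j + 1)) x) ^ (itgE N (j + 1))) *
            ((γ ^ 0) x) ^ (itgE N 0) := by
        rw [← Finset.prod_range_succ' (fun j => ((γ ^ j) x) ^ (itgE N j)),
          Finset.prod_range_succ _ (N + 1), itgE_gt, zpow_zero, mul_one]
      rw [e1, e2, Finset.prod_range_succ' _ (N + 1), itgE_zero]
      have e3 : ∏ j ∈ Finset.range (N + 1), ((γ ^ (j + 1)) x) ^ (itgE (N + 1) (j + 1)) =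
          (∏ j ∈ Finset.range (N + 1), ((γ ^ (j + 1)) x) ^ (itgE N j)) /
            ∏ j ∈ Finset.range (N + 1), ((γ ^ (j + 1)) x) ^ (itgE N (j + 1)) := by
        rw [← Finset.prod_div_distrib]
        apply Finset.prod_congr rfl
        intro j hj
        rw [itgE_succ N j (by have := Finset.mem_range.1 hj; omega), zpow_sub₀ (hy _)]
      rw [e3, zpow_neg, div_mul_eq_div_div, div_eq_mul_inv (_ / _)]
  exact key N

end

end Pool.Agent.MU3I
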