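import Pool.Agent.MU3.StI

/-!
# MU3, block I, IRES: the residue field of a valuation ring of `ℂ` above `3`
-/

set_option autoImplicit false

namespace Pool.Agent.MU3I

open _root_.MU3 Pool.Agent.MU3 Pool.Agent.MU3A Pool.Agent.MU3B Pool.Agent.MU3C Pool.Agent.RI
  Pool.Agent.RID

noncomputable section

/-- the residue field of a valuation ring of an algebraically closed field is algebraically
closed -/
theorem isAlgClosed_residueField {K : Type*} [Field K] [IsAlgClosed K] (V : ValuationSubring K) :
    IsAlgClosed (IsLocalRing.ResidueField V) := by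
  apply IsAlgClosed.of_exists_root
  intro p hp hirr
  have h1 : p ∈ Polynomial.lifts (IsLocalRing.residue V) := by
    rw [Polynomial.mem_lifts]
    exact Polynomial.map_surjective _ IsLocalRing.residue_surjective p
  obtain ⟨P, hP, hdeg, hPm⟩ := Polynomial.lifts_and_natDegree_eq_and_monic h1 hp
  have h2 : P.degree ≠ 0 := by
    intro h3
    have h4 : P.natDegree = 0 := Polynomial.natDegree_eq_of_degree_eq_some h3
    rw [hdeg] at h4
    have h5 := hirr.natDegree_pos
    omega
  obtain ⟨z, hz⟩ := IsAlgClosed.exists_aeval_eq_zero K P h2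
  have hint : IsIntegral V z := ⟨P, hPm, hz⟩
  obtain ⟨y, hy⟩ := (IsIntegrallyClosed.isIntegral_iff (R := V) (K := K)).1 hint
  have h6 : P.eval y = 0 := by
    rw [← hy, Polynomial.aeval_algebraMap_apply] at hz
    have h7 := (FaithfulSMul.algebraMap_injective V K) (hz.trans (map_zero _).symm)
    simpa using h7
  refine ⟨IsLocalRing.residue V y, ?_⟩
  rw [← hP, Polynomial.eval_map, Polynomial.eval₂_at_apply, h6, map_zero]

theorem t_IRES : St_IRES := by
  intro V h3
  refine ⟨?_, isAlgClosed_residueField V⟩
  have hp : Nat.Prime 3 := Nat.prime_three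
  rw [CharP.charP_iff_prime_eq_zero hp]
  obtain ⟨h4, h5⟩ := ValuationSubring.mem_nonunits_iff_exists_mem_maximalIdeal.1 h3
  have h6 : ((3 : ℕ) : IsLocalRing.ResidueField V) = IsLocalRing.residue V ⟨3, h4⟩ := by
    have h7 : (⟨3, h4⟩ : V) = ((3 : ℕ) : V) := by
      apply Subtype.ext
      push_cast
      rfl
    rw [h7, map_natCast]
  rw [h6]
  exact (IsLocalRing.residue_eq_zero_iff _).2 h5

end

end Pool.Agent.MU3I
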