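import Pool.Agent.MU3.StZ
import Pool.Agent.MU3.I_ILAY

/-!
# MU3, final assembly, module ZLAY: the layers exist and form a tower
-/

set_option autoImplicit false

open NumberField Polynomial

namespace Pool.Agent.MU3Z

open Pool.Agent.RI Pool.Agent.RID Pool.Agent.MU3I Pool.Agent.MU3I.Ilay

/-- the layer `ℚ(ζ + ζ⁻¹)` -/
noncomputable def zlB (n : ℕ) : IntermediateField ℚ ℂ :=
  IntermediateField.adjoin ℚ {zt (3 ^ (n + 1)) + (zt (3 ^ (n + 1)))⁻¹}

lemma zlB_layer (n : ℕ) : IsLayer 3 n (zlB n) := by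
  have hM : 3 ^ (n + 1) ≠ 0 := pow_ne_zero _ (by norm_num)
  unfold zlB
  set ζ := zt (3 ^ (n + 1)) with hζ
  have hζp : IsPrimitiveRoot ζ (3 ^ (n + 1)) := zt_prim _ hM
  have hζ0 : ζ ≠ 0 := hζp.ne_zero hM
  have hζc : (starRingEnd ℂ) ζ = ζ⁻¹ := conj_root hM hζp.pow_eq_one
  set R := IntermediateField.adjoin ℚ {ζ + ζ⁻¹} with hR
  set c : ℂ →ₐ[ℚ] ℂ := (Complex.conjAe.toAlgHom).restrictScalars ℚ with hc
  have hcz : ∀ z : ℂ, c z = (starRingEnd ℂ) z := fun z => rfl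
  have hRr : ∀ x ∈ R, c x = x := by
    have hRR : R ≤ (AlgHom.equalizer c (AlgHom.id ℚ ℂ)).toIntermediateField (fun x hx => by
        have hx' : c x = x := hx
        show c x⁻¹ = x⁻¹
        rw [map_inv₀, hx']) := by
      rw [hR, IntermediateField.adjoin_simple_le_iff]
      show c (ζ + ζ⁻¹) = ζ + ζ⁻¹
      rw [map_add, map_inv₀, hcz, hζc, inv_inv, add_comm]
    exact fun x hx => hRR hx
  refine ⟨?_, hRr, n + 1, ?_⟩
  · apply deg ζ (3 ^ n) hζ0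
    · have hint : IsIntegral ℚ ζ := (hζp.isIntegral (Nat.pos_of_ne_zero hM)).tower_top
      rw [IntermediateField.adjoin.finrank hint,
        ← cyclotomic_eq_minpoly_rat hζp (Nat.pos_of_ne_zero hM), natDegree_cyclotomic,
        Nat.totient_prime_pow_succ Nat.prime_three]
    · intro h1
      have h2 := hRr _ h1
      rw [hcz, hζc] at h2
      have h3 : ζ ^ 2 = 1 := by
        rw [pow_two]
        nth_rewrite 1 [← h2]
        exact inv_mul_cancel₀ hζ0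
      have h4 := hζp.dvd_of_pow_eq_one 2 h3
      have h5 : 3 ∣ 2 := (dvd_pow_self 3 (Nat.succ_ne_zero n)).trans h4
      omega
  · have hζj : ζ ∈ IntermediateField.adjoin ℚ {z : ℂ | z ^ (3 ^ (n + 1)) = 1} :=
      IntermediateField.subset_adjoin _ _ hζp.pow_eq_one
    rw [hR, IntermediateField.adjoin_simple_le_iff]
    exact add_mem hζj (inv_mem hζj)

lemma zt_cube (n : ℕ) : zt (3 ^ (n + 1 + 1)) ^ 3 = zt (3 ^ (n + 1)) := by
  unfold zt
  rw [← Complex.exp_nat_mul]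
  congr 1
  push_cast
  field_simp
  ring

lemma zlB_mono : Monotone zlB := by
  refine monotone_nat_of_le_succ (fun n => ?_)
  have hM : 3 ^ (n + 1 + 1) ≠ 0 := pow_ne_zero _ (by norm_num)
  have hp : IsPrimitiveRoot (zt (3 ^ (n + 1 + 1))) (3 ^ (n + 1 + 1)) := zt_prim _ hM
  have h0 : zt (3 ^ (n + 1 + 1)) ≠ 0 := hp.ne_zero hM
  unfold zlB
  rw [IntermediateField.adjoin_simple_le_iff, ← zt_cube n]
  set ζ := zt (3 ^ (n + 1 + 1)) with hζ
  have h1 : ζ + ζ⁻¹ ∈ IntermediateField.adjoin ℚ {ζ + ζ⁻¹} :=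
    IntermediateField.mem_adjoin_simple_self ℚ _
  have e : ζ ^ 3 + (ζ ^ 3)⁻¹ = (ζ + ζ⁻¹) ^ 3 - 3 * (ζ + ζ⁻¹) := by
    field_simp
    ring
  rw [e]
  exact sub_mem (pow_mem h1 3) (mul_mem (natCast_mem _ 3) h1)

/-- ZLAY. -/
theorem t_ZLAY : St_ZLAY :=
  ⟨zlB, zlB_layer, zlB_mono, fun n Q hQ => t_ILAY n Q hQ⟩

end Pool.Agent.MU3Z
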