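import Pool.Agent.MU3.QDefs

/-!
# MU3, block WQ (helper58): statements, proofs in words in the doc strings

A module proves `theorem t_X : St_X` in namespace `Pool.Agent.MU3Q` (hypotheses `(h : St_Y)` for the
statements named as inputs). `Δ = ModularForm.discriminant` is nowhere zero on `ℍ`.
-/

set_option autoImplicit false

namespace Pool.Agent.MU3Q

open UpperHalfPlane ModularForm EisensteinSeries
open scoped MatrixGroups

noncomputable section

/-- (LA) descent of a linear relation from `ℂ` to `K`, with bounded denominators.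

PROOF. `A' = Σ c_i u_i`, `B' = Σ d_j v_j` finite sums with `u_i, v_j ∈ PP K V`
(`Submodule.mem_span_set'` or induction). Choose `n₀` with `a₀ = coeff n₀ A' ≠ 0` and a `K`-linear map
`l : ℂ → K` with `l a₀ ≠ 0` (`Module.forall_dual_apply_eq_zero_iff`, `K` a field). Let `A''` and `B''` have the
coefficients `l (coeff n A')`, `l (coeff n B')`. As the coefficients of `S` are in `K`,
`coeff n (A'' S) = Σ l(A'_a) S_b = l (Σ A'_a S_b) = l (B'_n)`, so `A'' S = B''`, `A'' ≠ 0`, and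
`A'' = Σ l(c_i) u_i`, `B'' = Σ l(d_j) v_j`. For `x ∈ K` there is `q ∈ K ∩ V`, `q ≠ 0`, with `q x ∈ V` (`q = 1` if
`x ∈ V`, else `q = x⁻¹`); multiply by the product of these `q` for the finitely many `l(c_i)`, `l(d_j)`. -/
def St_LA : Prop :=
  ∀ (K : Subfield ℂ) (V : ValuationSubring ℂ) (S A' B' : PowerSeries ℂ),
    (∀ n, PowerSeries.coeff n S ∈ K) → A' ∈ RS K V → B' ∈ RS K V → A' ≠ 0 → A' * S = B' →
    ∃ A ∈ PP K V, ∃ B ∈ PP K V, A ≠ 0 ∧ A * S = B

/-- (RM) `RS K V` is closed under products and contains `1`.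

PROOF. `PP K V` is closed under products (`coeff_mul`: finite sums of products) and contains `1`;
`Submodule.span_induction` twice (or `Submodule.span_mul_span`). -/
def St_RM : Prop :=
  ∀ (K : Subfield ℂ) (V : ValuationSubring ℂ), (1 : PowerSeries ℂ) ∈ RS K V ∧
    ∀ u ∈ RS K V, ∀ v ∈ RS K V, u * v ∈ RS K V

/-- (QA) algebra of convergent `q`-series: product, sum, scalar multiple, uniqueness.

PROOF. A power series `u` with `Summable (coeff n u * qq τ ^ n)` for all `τ ∈ ℍ` converges absolutely for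
all `τ` (compare with `τ' = ` half of the imaginary part: `|q| < |q'| < 1`, bounded terms times a
geometric series; or `HasFPowerSeriesOnBall`; or simply: summable in `ℂ` is absolutely summable,
`Summable.norm`). Product: Cauchy product (`tsum_mul_tsum_eq_tsum_sum_antidiagonal_of_summable_norm`,
`PowerSeries.coeff_mul`). Uniqueness: the function `q ↦ Σ coeff n u q^n` is analytic at `0` with this
power series; two of them agree for `0 < |q| < exp (-2 π Y)` (`q = qq τ`, `Y < im τ`: every such `q` is of this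
form), so their coefficients agree (`HasFPowerSeriesAt.eq_formalMultilinearSeries` after
`HasFPowerSeriesAt.congr`, or compare the difference at its first non zero coefficient: divide by `q^m`
and let `q → 0`). -/
def St_QA : Prop :=
  (∀ F G u v, QS F u → QS G v → QS (fun τ => F τ * G τ) (u * v)) ∧
  (∀ F G u v, QS F u → QS G v → QS (fun τ => F τ + G τ) (u + v)) ∧
  (∀ F u (c : ℂ), QS F u → QS (fun τ => c * F τ) (c • u)) ∧
  QS (fun _ => 1) 1 ∧
  (∀ (F : ℍ → ℂ) (u v : PowerSeries ℂ) (Y : ℝ),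
    (∀ τ : ℍ, Y < τ.im → HasSum (fun n : ℕ => PowerSeries.coeff n u * qq τ ^ n) (F τ)) →
    (∀ τ : ℍ, Y < τ.im → HasSum (fun n : ℕ => PowerSeries.coeff n v * qq τ ^ n) (F τ)) → u = v)

/-- (QE) `E₄` and `1728 Δ = E₄³ - E₆²` have `q`-expansions with coefficients in `ℤ`.

PROOF. `E_qExpansion_coeff` (with `bernoulli 4 = -1/30`, `bernoulli 6 = 1/42`, as in
`E₄_qExpansion_coeff_one`): coefficients `1, 240 σ₃(n)` and `1, -504 σ₅(n)`, integers;
`ModularForm.hasSum_qExpansion` with `h = 1` (`one_mem_strictPeriods_SL`), `𝕢 1 τ = qq τ`.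
`ModularForm.discriminant_eq_E₄_cube_sub_E₆_sq`; `St_QA` for the products. Integers are in every subfield
and in every valuation ring. -/
def St_QE : Prop :=
  ∃ u4 uD : PowerSeries ℂ, (∀ K V, u4 ∈ PP K V ∧ uD ∈ PP K V) ∧ QS (fun τ => E₄ τ) u4 ∧
    QS (fun τ => 1728 * ModularForm.discriminant τ) uD

/-- (L1) A holomorphic `SL(2, ℤ)`-invariant function with at most a pole at `i ∞` is a polynomial in `j`.

PROOF. Induction on `m` with `Δ^m F` bounded at `i ∞`. `G = Δ^m F` is a modular form of level one and weight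
`12 m` (`ModularForm 𝒮ℒ (12 m)`: `F` is invariant, `Δ` has weight 12; boundedness at all cusps from
`i ∞`, as in the proof of `CuspForm.discriminantEquiv` in Mathlib). `m = 0`: constant
(`ModularFormClass.levelOne_weight_zero_const`). `m + 1`: let `c` be the coefficient `0` of the `q`-expansion of
`G`; `G - c E₄^(3 (m+1))` has constant coefficient `0`, so it is a cusp form (`isCuspForm_iff_coeffZero_eq_zero`,
`toCuspForm`) and `Δ^m (F - c j^(m+1)) = (G - c E₄^(3(m+1))) / Δ` is bounded at `i ∞`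
(`CuspForm.discriminantEquiv` is a modular form). Apply the induction hypothesis to `F - c j^(m+1)`. -/
def St_L1 : Prop :=
  ∀ F : ℍ → ℂ, Hol F → (∀ (γ : SL(2, ℤ)) (τ : ℍ), F (γ • τ) = F τ) → Grow F →
    ∃ P : Polynomial ℂ, ∀ τ, F τ = P.eval (jf τ)

/-- (JB) `jf` is holomorphic, invariant, and `D (j)` is not identically zero near `i ∞`; `Hol` and `Grow`
are closed under sums and products; `Hol` functions form an integral domain.

PROOF. `E₄`, `Δ` modular forms of weight 4, 12 (`SlashInvariantForm` equation), `Δ ≠ 0`. `Δ j = E₄³` tends to `1`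
and `Δ` tends to `0` at `i ∞` (cusp form), so `|j|` tends to infinity and `D (j τ) ≠ 0` for `im τ > Y`
(finitely many roots). `Δ` is bounded at `i ∞`, so `m` can be increased in `Grow`. Domain: if
`F G = 0` with `F τ₀ ≠ 0`, then `G = 0` near `τ₀` and so everywhere (`AnalyticOnNhd.eqOn_zero_of_preconnected...`
on the convex set `{0 < im z}`). Last item: a finite product by induction. -/
def St_JB : Prop :=
  Hol jf ∧ Grow jf ∧ (∀ (γ : SL(2, ℤ)) (τ : ℍ), jf (γ • τ) = jf τ) ∧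
  (∀ D : Polynomial ℂ, D ≠ 0 → ∃ Y : ℝ, ∀ τ : ℍ, Y < τ.im → D.eval (jf τ) ≠ 0) ∧
  (∀ F G, Hol F → Hol G → Hol (fun τ => F τ + G τ) ∧ Hol (fun τ => F τ * G τ)) ∧
  (∀ F G, Grow F → Grow G → Grow (fun τ => F τ + G τ) ∧ Grow (fun τ => F τ * G τ)) ∧
  (∀ c : ℂ, Hol (fun _ => c) ∧ Grow (fun _ => c)) ∧
  (∀ F G, Hol F → Hol G → (∀ τ, F τ * G τ = 0) → (∀ τ, F τ = 0) ∨ (∀ τ, G τ = 0)) ∧
  (∀ (F : ℍ → ℂ) (Y : ℝ), Hol F → (∀ τ : ℍ, Y < τ.im → F τ = 0) → ∀ τ, F τ = 0)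

/-- (INT) Lagrange interpolation over the conjugates. Inputs: `St_L1`, `St_JB`.

PROOF. Let `𝒜` be the subring of `ℍ → ℂ` of the functions with `Hol` and `Grow` (`St_JB`). For `i` let
`J_i = {j : e_j ≠ e_i}` and
`N(X) = Σ_i y_i ∏_(j ∈ J_i) (X - e_j)`, `P(X) = Σ_i ∏_(j ∈ J_i) (X - e_j)` in `𝒜[X]`.
For `γ ∈ SL(2, ℤ)` the ring homomorphism `F ↦ F ∘ γ` maps `N` to `N` and `P` to `P` (reindex by `σ`; `e_j ≠ e_i`
iff `e_(σ j) ≠ e_(σ i)` because `τ ↦ γ τ` is a bijection). So the coefficients of `N` and `P` are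
`SL(2, ℤ)`-invariant elements of `𝒜`, polynomials in `j` by `St_L1`: this gives `R` and `T` with
`ej R τ x = N(τ)(x)`, `ej T τ x = P(τ)(x)`. At `x = e_(i0)(τ)` the terms with `e_i ≠ e_(i0)` vanish (the
factor `j = i0`), and for the others `J_i = J_(i0)`, `y_i = y_(i0)`. So with `m ≥ 1` the number of `i` with
`e_i = e_(i0)` and `Q = ∏_(j ∈ J_(i0)) (e_(i0) - e_j)` we get `N = m y_(i0) Q`, `P = m Q` at `e_(i0)`. `Q` is not
identically zero by `St_JB` (each factor is not identically zero). -/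
def St_INT : Prop :=
  ∀ (ι : Type) [Fintype ι] (e y : ι → ℍ → ℂ),
    (∀ i, Hol (e i) ∧ Grow (e i) ∧ Hol (y i) ∧ Grow (y i)) →
    (∀ γ : SL(2, ℤ), ∃ σ : Equiv.Perm ι, ∀ i τ, e i (γ • τ) = e (σ i) τ ∧ y i (γ • τ) = y (σ i) τ) →
    (∀ i j, e i = e j → y i = y j) → ∀ i0 : ι, ∃ T R : Polynomial (Polynomial ℂ),
      (∀ τ, y i0 τ * ej T τ (e i0 τ) = ej R τ (e i0 τ)) ∧ ∃ τ, ej T τ (e i0 τ) ≠ 0

/-- (PFIN) finitely many poles in the fundamental domain.

PROOF. By the second part of `Mer`: `g` is analytic on a punctured neighbourhood of `0`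
(`MeromorphicAt.eventually_analyticAt`), so `X ∘ ofComplex` is analytic at all points with `im > Y'`
(composition with `exp`); no poles there (`AnalyticAt.meromorphicOrderAt_nonneg`). The set
`{z : im z ≤ Y', |re z| ≤ 1/2, 1 ≤ |z|}` is compact and contained in the upper half plane (`im z ≥ √3/2`). The poles
of a meromorphic function have no accumulation point in its domain (near every point `z₀` of the domain the
function is analytic at all points of a punctured neighbourhood, `MeromorphicAt.eventually_analyticAt`), so a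
compact subset contains finitely many (`IsCompact.elim_nhds_subcover`, or
`Set.Infinite.exists_accPt_of_subset_isCompact`). -/
def St_PFIN : Prop :=
  ∀ X : ℍ → ℂ, Mer X →
    {τ : ℍ | τ ∈ ModularGroup.fd ∧ meromorphicOrderAt (X ∘ ofComplex) (τ : ℂ) < 0}.Finite

/-- (PORD) the order is invariant under Moebius transformations.

PROOF. `(fun τ => X (γ • τ)) ∘ ofComplex` is, on the upper half plane (an open set), the composition of
`X ∘ ofComplex` with `z ↦ (a z + b)/(c z + d)`, which is analytic with non zero derivative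
`(c z + d)⁻²`, so the order is the same (`meromorphicOrderAt_comp_of_deriv_ne_zero` if available, otherwise: write
`X ∘ ofComplex = (w - w₀)^n g(w)` near `w₀ = γ z₀` and `γ z - γ z₀ = (z - z₀) h(z)`, `h(z₀) ≠ 0`); use
`meromorphicOrderAt_congr`. -/
def St_PORD : Prop :=
  ∀ (X : ℍ → ℂ) (γ : SL(2, ℤ)), MeromorphicOn (X ∘ ofComplex) {z : ℂ | 0 < z.im} →
    MeromorphicOn ((fun τ : ℍ => X (γ • τ)) ∘ ofComplex) {z : ℂ | 0 < z.im} ∧
    ∀ τ : ℍ, meromorphicOrderAt ((fun τ : ℍ => X (γ • τ)) ∘ ofComplex) (τ : ℂ) =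
      meromorphicOrderAt (X ∘ ofComplex) ((γ • τ : ℍ) : ℂ)

/-- The normal form of a meromorphic function on the upper half plane. -/
def nf (X : ℍ → ℂ) (τ : ℍ) : ℂ := toMeromorphicNFOn (X ∘ ofComplex) {z : ℂ | 0 < z.im} (τ : ℂ)

/-- (NF) removable singularities.

PROOF. With `U = {0 < im z}` and `f = toMeromorphicNFOn (X ∘ ofComplex) U`: `f` is in normal form on `U`
(`meromorphicNFOn_toMeromorphicNFOn`), of order `≥ 0` (`meromorphicOrderAt_toMeromorphicNFOn`), so analytic on `U`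
(`MeromorphicNFAt.meromorphicOrderAt_nonneg_iff_analyticAt`): first claim. Second: `f = X ∘ ofComplex` on a
punctured neighbourhood of every point of `U` (`toMeromorphicNFOn_eqOn_codiscrete` or
`toMeromorphicNFOn_eq_self_on_nhdsNE`); so `nf (X ∘ γ)` and `nf X ∘ γ` agree on a punctured neighbourhood of every
point; both are continuous, so they agree. Third: the same argument, `f` and `X ∘ ofComplex` are both
continuous at the point. -/
def St_NF : Prop :=
  (∀ X : ℍ → ℂ, MeromorphicOn (X ∘ ofComplex) {z : ℂ | 0 < z.im} →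
    (∀ τ : ℍ, 0 ≤ meromorphicOrderAt (X ∘ ofComplex) (τ : ℂ)) →
    Hol (nf X) ∧ (∀ τ : ℍ, AnalyticAt ℂ (X ∘ ofComplex) (τ : ℂ) → nf X τ = X τ)) ∧
  (∀ (X X' : ℍ → ℂ) (γ : SL(2, ℤ)), MeromorphicOn (X ∘ ofComplex) {z : ℂ | 0 < z.im} →
    (∀ τ : ℍ, 0 ≤ meromorphicOrderAt (X ∘ ofComplex) (τ : ℂ)) →
    (∀ τ : ℍ, X (γ • τ) = X' τ) → ∀ τ : ℍ, nf X (γ • τ) = nf X' τ)

/-- (POLE) a common denominator. Inputs: `St_PFIN`, `St_PORD`, `St_NF`, `St_JB`.

PROOF. Let `B` be the finite set of the pairs `(i, τ')` with `τ'` in the fundamental domain and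
`ord_(τ') X_i < 0` (`St_PFIN`) and `D = ∏_((i, τ') ∈ B) (T - j(τ'))^(- ord_(τ') X_i)`, `D ≠ 0`. Claim:
`D(j) X_i` has order `≥ 0` at every `τ`. Let `τ = γ τ'` with `τ'` in the fundamental domain
(`ModularGroup.exists_smul_mem_fd`) and `X_i ∘ γ = X_k`. By `St_PORD` `ord_τ X_i = ord_(τ') X_k`. If this is
negative then `(k, τ') ∈ B`; `j - j(τ')` vanishes at `τ` (`j(γ τ') = j(τ')`) so has order `≥ 1` there, and
`D(j)` has order `≥ - ord_τ X_i` at `τ` (the other factors are analytic). Put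
`y_i = nf (D(j) X_i)`. `Hol`: `St_NF`. Equivariance: `St_NF` (`D(j)` is invariant). For `im τ > Y`: `X_i` is analytic at
`τ` (it is `g (exp (2 π i τ / M))` with `g` analytic on a punctured disc) so `y_i = D(j) X_i`. `Grow`: near
`i ∞`, `|g(q)| ≤ C |q|^(-m)` for `0 < |q| < r` (`g` is meromorphic at `0`), and
`|Δ(τ)| ≤ C exp (-2 π im τ)` (`exp_decay_isBigO_discriminant` or the `q`-expansion), so
`Δ^m X_i` is bounded at `i ∞`, and `D(j)` has `Grow`. -/
def St_POLE : Prop :=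
  ∀ (ι : Type) [Fintype ι] (X : ι → ℍ → ℂ), (∀ i, Mer (X i)) →
    (∀ (γ : SL(2, ℤ)) (i : ι), ∃ k, ∀ τ, X i (γ • τ) = X k τ) →
    ∃ D : Polynomial ℂ, D ≠ 0 ∧ ∃ y : ι → ℍ → ℂ, (∀ i, Hol (y i) ∧ Grow (y i)) ∧
      (∀ (γ : SL(2, ℤ)) (i k : ι), (∀ τ, X i (γ • τ) = X k τ) → ∀ τ, y i (γ • τ) = y k τ) ∧
      ∃ Y : ℝ, ∀ (i : ι) (τ : ℍ), Y < τ.im → y i τ = D.eval (jf τ) * X i τ

/-- (E1) the Eisenstein series `Gv` is holomorphic and bounded at `i ∞`.

PROOF. As in Mathlib for `eisensteinSeries` (files EisensteinSeries/UniformConvergence, MDifferentiable,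
IsBoundedAtImInfty): on vertical strips `|re τ| ≤ A`, `im τ ≥ B` the term is bounded by `C |x|^(-4)`
(`EisensteinSeries.summand_bound_of_mem_verticalStrip`), summable over `Fin 2 → ℤ`
(`EisensteinSeries.summable_one_div_norm_rpow`). Holomorphic: `differentiableOn_tsum_of_summable_norm` on small
discs. Bounded for `im τ ≥ 1`: `Gv` is invariant under `τ ↦ τ + N`, so one may assume `|re τ| ≤ N`; or the
bound of the summand. The term `x = 0` (if `v = 0`) is `0 ^ (-4) = 0`. -/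
def St_E1 : Prop :=
  ∀ (N : ℕ) (v : Fin 2 → ZMod N), 0 < N → Hol (Gv N v) ∧ IsBoundedAtImInfty (Gv N v)

/-- (E2) transformation of `Gv`.

PROOF. `x₀ (γ τ) + x₁ = (c τ + d)⁻¹ ((x₀ a + x₁ c) τ + (x₀ b + x₁ d))`; reindex by the bijection `x ↦ x γ` of
`Fin 2 → ℤ`, which maps `x ≡ v` to `x γ ≡ v γ` (`Equiv.tsum_eq`). -/
def St_E2 : Prop :=
  ∀ (N : ℕ) (v : Fin 2 → ZMod N) (γ : SL(2, ℤ)) (τ : ℍ),
    Gv N v (γ • τ) = (((γ 1 0 : ℤ) : ℂ) * (τ : ℂ) + ((γ 1 1 : ℤ) : ℂ)) ^ 4 * Gv N (vm v γ) τ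

/-- (E3) the stabiliser of `Gv N (0, 1)` is `± Γ₁(N)`.

PROOF. Let `τ = i t`, `t → ∞`: `Gv N v (i t)` tends to the sum of the terms with `x₀ = 0`, i.e. to
`s(v) = Σ_(n ≡ v₁ mod N) n⁻⁴` if `v₀ = 0` and to `0` otherwise (dominated convergence
`tendsto_tsum_of_dominated_convergence` for `t ≥ 1`: `|x₀ i t + x₁|² ≥ x₀² + x₁²`, and
`Σ (x₀² + x₁²)^(-2)` is summable). For `v = (0, 1)` the limit is `≥ 1` (term `n = 1`). If `vm v01 γ = (c, d)` with
`c ≠ 0` mod `N` the limit is `0`. If `c = 0` and `d ≠ ± 1` mod `N`, all `n ≡ d` mod `N` have `|n| ≥ 2` (`n = 0` has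
the term `0`), so the limit is `≤ 2 Σ_(n ≥ 2) n⁻⁴ ≤ 2 Σ_(n ≥ 2) 1/(4 n (n - 1)) = 1/2 < 1`. -/
def St_E3 : Prop :=
  ∀ (N : ℕ) (γ : SL(2, ℤ)), 0 < N → Gv N (vm (v01 N) γ) = Gv N (v01 N) →
    vm (v01 N) γ = v01 N ∨ vm (v01 N) γ = -v01 N

/-- (E4) `q`-expansion of `Gv N (0, 1)` up to its constant term and a factor.

PROOF. Terms with `x₀ = 0`: a constant `κ`. For `m ≥ 1`: `Σ_(n ≡ 1 mod N) (m N τ + n)⁻⁴ =
N⁻⁴ Σ_(l ∈ ℤ) (z + l)⁻⁴` with `z = (m N τ + 1)/N = m τ + 1/N ∈ ℍ`, `= N⁻⁴ ((2 π i)^4/3!) Σ_(r ≥ 1) r³ ζ^r q^(r m)`,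
`ζ = exp (2 π i / N)` (Lipschitz: `EisensteinSeries.qExpansion_identity` or
`EisensteinSeries.qExpansion_identity_pnat` in Mathlib). For `x₀ = - m N`:
the same with `ζ⁻¹` (`(-m N τ + n)⁻⁴ = (m N τ - n)⁻⁴`, `- n ≡ -1`). So with
`b_n = Σ_(r ∣ n) r³ (ζ^r + ζ^(-r))` (`b_0 = 0`): `Gv = κ + c Σ b_n q^n`, `c = N⁻⁴ (2 π)^4 / 6`
(reorder the absolutely convergent double sum over `m, r` by `n = m r`). `b_n` is in `K` and is integral over `ℤ`, so
in `V` (`ζ` is a root of unity: if `ζ ∉ V` then `ζ⁻¹ = ζ^(N-1)`... use that valuation rings are integrally closed, or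
`ζ ∈ V` or `ζ⁻¹ ∈ V`, and `ζ^(-1) = ζ^(N-1)`, `ζ = (ζ⁻¹)^(N-1)`). -/
def St_E4 : Prop :=
  ∀ N : ℕ, 0 < N → ∃ (κ c : ℂ) (b : PowerSeries ℂ),
    (∀ (K : Subfield ℂ) (V : ValuationSubring ℂ),
      Complex.exp (2 * Real.pi * Complex.I / N) ∈ K → b ∈ PP K V) ∧
    QS (Gv N (v01 N)) (PowerSeries.C κ + c • b)

/-- (EV) the weight 0 functions `ev`. Inputs: `St_E1`, `St_E2`, `St_E3`, `St_JB`.

PROOF. `Δ ≠ 0`, `Δ ev = Gv E₄²` is bounded at `i ∞`; the weights `4 + 8 - 12 = 0` cancel in the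
transformation. If `ev N (vm v01 γ) = ev N v01` as functions then `(Gv - Gv') E₄² = 0`, `E₄` is not identically
zero (its limit at `i ∞` is 1), so `Gv = Gv'` by the domain property in `St_JB`. -/
def St_EV : Prop :=
  ∀ N : ℕ, 0 < N → (∀ v, Hol (ev N v) ∧ Grow (ev N v)) ∧
    (∀ v (γ : SL(2, ℤ)) (τ : ℍ), ev N v (γ • τ) = ev N (vm v γ) τ) ∧
    ∀ γ : SL(2, ℤ), ev N (vm (v01 N) γ) = ev N (v01 N) →
      vm (v01 N) γ = v01 N ∨ vm (v01 N) γ = -v01 N

/-- (MR) `1 / (℘ (W) + c)` is meromorphic if `W` is a power series in `exp (2 π i τ / N)`.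

PROOF. `W τ = C + φ(q_N)`, `q_N = exp (2 π i τ / N)`, `φ(q) = Σ w_n q^(n+1)`, a power series which converges on the
unit disc (every `q ≠ 0` of the disc is some `q_N(τ)`), so analytic there. `℘` is meromorphic on `ℂ` (Mathlib,
Analysis/SpecialFunctions/Elliptic/Weierstrass), so `u ↦ (℘ u + c)⁻¹` is, and
`g(q) = (℘ (C + φ(q)) + c)⁻¹` is meromorphic at every point of the disc
(`MeromorphicAt.comp_analyticAt`), `X = g ∘ q_N`. -/
def St_MR : Prop :=
  ∀ (L : PeriodPair) (c0 : ℂ) (W : ℍ → ℂ) (C : ℂ) (w : ℕ → ℂ) (N : ℕ), 0 < N →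
    (∀ τ : ℍ, HasSum (fun n : ℕ => w n *
      Complex.exp (2 * Real.pi * Complex.I * (τ : ℂ) / N) ^ (n + 1)) (W τ - C)) →
    Mer (fun τ => (L.weierstrassP (W τ) + c0)⁻¹)

/-- (ODE) the power series of `1 / x(Z)`.

PROOF. Near `u = 0`: `℘(u) = u⁻² + h(u)`, `h` analytic (Mathlib: `weierstrassPExcept`), so
`(℘(u) + c0)⁻¹ = s(u) := u² / (1 + u² (h(u) + c0))` for `u ≠ 0` small (lattice points other than `0` are away), `s`
analytic at `0`, `s(0) = s'(0) = 0`, `s''(0)/2 = 1`. `φ(q) = Σ z_n q^n` is analytic at `0`, `φ(0) = 0`, `φ'(0) = z_1 ≠ 0`, so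
`φ(q) ≠ 0` for small `q ≠ 0`. Let `S` be the Taylor series of `s ∘ φ` at `0`: last claim. Coefficients 0, 1, 2:
`s(φ(q)) = φ(q)² (1 + O(q²))`. Differential equation: for `u ∉ L`, `s' = - ℘'/(℘ + c0)²`, so
`s'² = ℘'² / x⁴ = 4 (x³ + a2 x² + a4 x + a6) / x⁴ = 4 s (1 + a2 s + a4 s² + a6 s³)`, `x = 1/s`. With
`F = s ∘ φ`: `(q F')² = 4 F (1 + a2 F + a4 F² + a6 F³) (q φ')²` for small `q ≠ 0`, so also at `0`, and analytic
functions with equal germs have equal Taylor series (the Taylor series of `q F'` is `thetaD`, of a product the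
product). -/
def St_ODE : Prop :=
  ∀ (L : PeriodPair) (c0 a2 a4 a6 : ℂ),
    (∀ u : ℂ, u ∉ L.lattice → L.derivWeierstrassP u ^ 2 / 4 =
      (L.weierstrassP u + c0) ^ 3 + a2 * (L.weierstrassP u + c0) ^ 2 +
        a4 * (L.weierstrassP u + c0) + a6) →
    ∀ (Z : ℍ → ℂ) (z : PowerSeries ℂ), QS Z z → PowerSeries.coeff 0 z = 0 →
      PowerSeries.coeff 1 z ≠ 0 →
    ∃ S : PowerSeries ℂ, PowerSeries.coeff 0 S = 0 ∧ PowerSeries.coeff 1 S = 0 ∧
      PowerSeries.coeff 2 S = PowerSeries.coeff 1 z ^ 2 ∧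
      thetaD S ^ 2 = 4 * S * (1 + a2 • S + a4 • S ^ 2 + a6 • S ^ 3) * thetaD z ^ 2 ∧
      ∃ Y : ℝ, ∀ τ : ℍ, Y < τ.im →
        HasSum (fun n : ℕ => PowerSeries.coeff n S * qq τ ^ n) ((L.weierstrassP (Z τ) + c0)⁻¹)

/-- (ODEK) the coefficients of a solution of the differential equation are in `K`.

PROOF. Strong induction on `n`; `n ≤ 2` is clear. For `n ≥ 3` compare the coefficients of `q^(n+2)`: on the left
`(θS)²` has `2 * (2 S_2) (n S_n) + ` (terms with `S_m`, `2 < m < n`), on the right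
`4 S (θz)² (1 + ...)` has `4 S_n z_1² + ` (polynomial in `S_m`, `m < n`, `z_m`, `a_i` with coefficients in `ℤ`). The
coefficient of `S_n` is `4 n z_1² - 4 z_1² = 4 (n - 1) z_1² ≠ 0` in the difference. To organise this: let `S'` be the
series with coefficients of `S` below `n` and `0` from `n` on; `S = S' + S_n q^n + O(q^(n+1))`; all coefficients of
expressions in `S'` are in `K`, and modulo `q^(n+3)` the left side is `(θS')² + 4 n S_2 S_n q^(n+2)`, the right side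
is the right side for `S'` plus `4 S_n z_1² q^(n+2)` (because `S = O(q²)`, `θz = z_1 q + ...`). -/
def St_ODEK : Prop :=
  ∀ (K : Subfield ℂ) (a2 a4 a6 : ℂ) (z S : PowerSeries ℂ), a2 ∈ K → a4 ∈ K → a6 ∈ K →
    (∀ n, PowerSeries.coeff n z ∈ K) → PowerSeries.coeff 0 z = 0 → PowerSeries.coeff 1 z ≠ 0 →
    PowerSeries.coeff 0 S = 0 → PowerSeries.coeff 1 S = 0 →
    PowerSeries.coeff 2 S = PowerSeries.coeff 1 z ^ 2 →
    thetaD S ^ 2 = 4 * S * (1 + a2 • S + a4 • S ^ 2 + a6 • S ^ 3) * thetaD z ^ 2 →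
    ∀ n, PowerSeries.coeff n S ∈ K

/-- (EXP) `Δ^M` times a polynomial in `j` and `ev N v01` has a `q`-series in `RS K V`.
Inputs: `St_RM`, `St_QA`, `St_QE`, `St_E4`.

PROOF. `T = Σ t_(a b) X^a Y^b` (`X = j`, `Y = e = ev N v01`); let `M` be larger than all `a + b`. Then
`Δ^M j^a e^b = E₄^(3 a + 2 b) Gv^b Δ^(M - a - b)`, and `E₄`, `1728 Δ`, `Gv` have `q`-series in `RS K V` (`κ • 1 + c • b`); use
closure under products and linear combinations. Conclusion for all `M` large. -/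
def St_EXP : Prop :=
  ∀ (N : ℕ) (K : Subfield ℂ) (V : ValuationSubring ℂ), 0 < N →
    Complex.exp (2 * Real.pi * Complex.I / N) ∈ K → ∀ T : Polynomial (Polynomial ℂ),
    ∃ M₀ : ℕ, ∀ M : ℕ, M₀ ≤ M → ∃ u ∈ RS K V,
      QS (fun τ => ModularForm.discriminant τ ^ M * ej T τ (ev N (v01 N) τ)) u

/-- (WQ) THE THEOREM. Inputs: all of the above.

PROOF. Let `X τ = (℘ (Z τ) + c0)⁻¹`. Index set `ι = {v : Fin 2 → ZMod N // ∃ γ, v = vm v01 γ}`, finite. For `v ∈ ι`
choose `γ_v` with `v = vm v01 γ_v` and put `X_v τ = X (γ_v τ)`; it does not depend on the choice of `γ_v`, because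
`vm v01 γ = vm v01 γ'` implies that `γ' γ⁻¹` has bottom row `≡ (0, 1)` mod `N`, so is in `Γ₁(N)` and `X` is invariant
(`℘` is periodic). In the same way `X_v = X_(-v)` as `-1` acts trivially on `ℍ`. `X_v (γ τ) = X_(vγ) τ`, the same
permutation as for `ev N v`. `St_MR` gives `Mer (X_v)`; `St_POLE`: `D`, `y`. For `v, v'` with `ev N v = ev N v'`:
`v = v01 γ`, `v' = v01 γ'`, so `ev N (v01 γ' γ⁻¹) = ev N v01`, `v01 γ' γ⁻¹ = ± v01`, `v' = ± v`, so `X_v = X_v'` and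
`y_v = y_v'` (`St_POLE` with `γ = 1`). `St_INT` at `i0 = v01`: `y T(j, e) = R(j, e)`, `T(j,e) ≢ 0`. For `im τ > Y`:
`X · D(j) T(j, e) = R(j, e)`, `X = Σ S_n q^n` (`St_ODE`; for `γ = 1` one may take `C = 0`). Multiply by `Δ^M`: with `St_EXP` for
`D T` and for `R`, uniqueness in `St_QA` (product of the two absolutely convergent series for `im τ > Y`) gives
`A' S = B'`, `A', B' ∈ RS K V`; `A' ≠ 0` since `Δ^M D(j) T(j,e)` is not identically zero (`St_JB`: domain). `S` has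
coefficients in `K` (`St_ODEK`). Conclude by `St_LA`. -/
def St_WQ : Prop :=
  ∀ (K : Subfield ℂ) (V : ValuationSubring ℂ) (N : ℕ) (L : PeriodPair) (c0 a2 a4 a6 : ℂ)
    (Z : ℍ → ℂ) (z : PowerSeries ℂ), 0 < N → Complex.exp (2 * Real.pi * Complex.I / N) ∈ K →
    a2 ∈ K → a4 ∈ K → a6 ∈ K →
    (∀ u : ℂ, u ∉ L.lattice → L.derivWeierstrassP u ^ 2 / 4 =
      (L.weierstrassP u + c0) ^ 3 + a2 * (L.weierstrassP u + c0) ^ 2 +
        a4 * (L.weierstrassP u + c0) + a6) →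
    (∀ n, PowerSeries.coeff n z ∈ K) → PowerSeries.coeff 0 z = 0 → PowerSeries.coeff 1 z ≠ 0 →
    QS Z z →
    (∀ γ : SL(2, ℤ), ∃ (C : ℂ) (w : ℕ → ℂ), ∀ τ : ℍ, HasSum (fun n : ℕ => w n *
      Complex.exp (2 * Real.pi * Complex.I * (τ : ℂ) / N) ^ (n + 1)) (Z (γ • τ) - C)) →
    (∀ γ ∈ CongruenceSubgroup.Gamma1 N, ∀ τ : ℍ, Z (γ • τ) - Z τ ∈ L.lattice) →
    ∃ S : PowerSeries ℂ, (∀ n, PowerSeries.coeff n S ∈ K) ∧
      PowerSeries.coeff 0 S = 0 ∧ PowerSeries.coeff 1 S = 0 ∧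
      PowerSeries.coeff 2 S = PowerSeries.coeff 1 z ^ 2 ∧
      thetaD S ^ 2 = 4 * S * (1 + a2 • S + a4 • S ^ 2 + a6 • S ^ 3) * thetaD z ^ 2 ∧
      ∃ A ∈ PP K V, ∃ B ∈ PP K V, A ≠ 0 ∧ A * S = B

end

end Pool.Agent.MU3Q
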