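import Pool.Agent.MU3.StV2

/-!
# MU3, block V: module SUC, the element `cc .. 1` is a unit outside `S`
-/

set_option autoImplicit false

open WeierstrassCurve Polynomial NumberField IsDedekindDomain

namespace Pool.Agent.MU3V

open _root_.MU3 Pool.Agent.MU3A Pool.Agent.MU3B Pool.Agent.MU3C

noncomputable section

namespace SUC

/-- a positive integer all of whose prime divisors are units of `V` is a unit of `V` -/
lemma v_nat {V : ValuationSubring ℂ} : ∀ n : ℕ, n ≠ 0 →
    (∀ p : ℕ, p.Prime → p ∣ n → V.valuation (p : ℂ) = 1) → V.valuation (n : ℂ) = 1 := by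
  intro n
  induction n using Nat.strong_induction_on with
  | _ n ih =>
    intro hn hp
    by_cases h1 : n = 1
    · rw [h1, Nat.cast_one, map_one]
    have hq := Nat.minFac_prime h1
    obtain ⟨k, hk⟩ := Nat.minFac_dvd n
    have hk0 : k ≠ 0 := by
      rintro rfl
      exact hn (by rw [hk, mul_zero])
    have hkn : k < n := by
      have h2 : 2 ≤ n.minFac := hq.two_le
      have h3 : 2 * k ≤ n.minFac * k := Nat.mul_le_mul_right k h2
      rw [← hk] at h3
      omega
    have hkd : k ∣ n := ⟨n.minFac, by rw [mul_comm]; exact hk⟩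
    have h3 := ih k hkn hk0 (fun p hp1 hp2 => hp p hp1 (hp2.trans hkd))
    have h4 := hp _ hq (Nat.minFac_dvd n)
    rw [hk, Nat.cast_mul, map_mul, h3, mul_one]
    exact h4

lemma v_int {V : ValuationSubring ℂ} {n : ℤ} (hn : n ≠ 0)
    (hp : ∀ p : ℕ, p.Prime → (p : ℤ) ∣ n → V.valuation (p : ℂ) = 1) :
    V.valuation (n : ℂ) = 1 := by
  have h1 := v_nat (V := V) n.natAbs (Int.natAbs_ne_zero.2 hn)
    (fun p hp1 hp2 => hp p hp1 (Int.natCast_dvd.2 hp2))
  obtain ⟨m, hm | hm⟩ := n.eq_nat_or_neg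
  · rw [hm] at h1 ⊢
    simpa using h1
  · rw [hm] at h1 ⊢
    have h2 : (((-(m : ℤ) : ℤ)) : ℂ) = -(m : ℂ) := by push_cast; rfl
    rw [h2, Valuation.map_neg]
    simpa using h1

end SUC

open SUC in
/-- `c = cc .. 1` is a unit outside `S` -/
theorem tw_SUC (hEXT : Sv_EXT) (hTHU : Sw_THU) (hTORV : Sw_TORV) (hXI : Sa_XI)
    (hPID : Sa_PID) : Sw_SUC := by
  intro A B L Om h hL m hm hmu a H ha ham hH S h2S haS hmS D _ hk c hc v hv
  obtain ⟨-, -, -, hnmul, hnm0, -, hunit, hunit', -⟩ := hPID A B h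
  obtain ⟨ξ, hξ0, -, hξs⟩ := hXI A B L Om h hL
  have hξ : IsXi A B L ξ := ⟨hξs, fun z hz => (hξ0 z).2 hz⟩
  obtain ⟨V, hV⟩ := hEXT D (algebraMap D ℂ) v
  have hS : ∀ p ∈ S, V.valuation (p : ℂ) = 1 := by
    intro p hp
    have h1 : v.valuation D (p : D) = 1 := by
      have h3 : ¬ (v.valuation D (p : D) < 1) := by
        intro h4
        apply hv
        refine ⟨p, hp, ?_⟩
        rw [← HeightOneSpectrum.valuation_lt_one_iff_mem (K := D) v (p : 𝓞 D)]
        simpa using h4
      refine le_antisymm ?_ (not_lt.1 h3)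
      have h5 := HeightOneSpectrum.valuation_le_one (K := D) v (p : 𝓞 D)
      simpa using h5
    have h2 := ((hV (p : D)).2.2).2 h1
    simpa using h2
  have v2 : V.valuation (2 : ℂ) = 1 := by simpa using hS 2 h2S
  have va : V.valuation (a : ℂ) = 1 := v_int ha (fun p hp1 hp2 => hS p (haS p hp1 hp2))
  have hm' : nm m ≠ 0 := fun h0 => hm ((hnm0 m).1 h0)
  have vm : V.valuation ((nm m : ℤ) : ℂ) = 1 := v_int hm' (fun p hp1 hp2 => hS p (hmS p hp1 hp2))
  have hmz : emb m * (Om / emb m) ∈ L.lattice := by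
    rw [mul_div_cancel₀ _ (emb_ne_zero h hm), hL.mem]
    exact ⟨1, by rw [emb_one h, mul_one]⟩
  have key : ∀ x : OO A B, IsCoprime x m →
      V.valuation (ThetaH L H (emb x * (Om / emb m))) = 1 := by
    intro x hx
    refine (hTHU A B L Om ξ h hL hξ V v2 a H va hH).1 _ ?_
    intro hE
    have h1 : (a : ℂ) * (emb x * (Om / emb m)) = emb ((a : OO A B) * x) * (Om / emb m) := by
      rw [emb_mul h, emb_intCast h]; ring
    rw [h1] at hE
    have h3 := hTORV A B L Om ξ h hL hξ V v2 m vm _ (by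
      rw [mul_left_comm]
      exact hL.toIsLat.emb_mul_mem h _ hmz) hE
    rw [hL.toIsLat.mul_div_mem_iff h hm] at h3
    exact hmu ((ham.mul_left hx).isUnit_of_dvd' h3 dvd_rfl)
  rw [← (hV c).2.2]
  change V.valuation (c : ℂ) = 1
  rw [hc]
  refine finprod_mem_induction (fun y => V.valuation y = 1) (map_one _) ?_ ?_
  · intro y z hy hz
    rw [map_mul, hy, hz, one_mul]
  · rintro x ⟨σ, hσ, -⟩
    exact key _ hσ.1

end

end Pool.Agent.MU3V
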