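import Pool.Agent.MU3.WK5
import Pool.Agent.MU3.W_SUC
import Pool.Agent.MU3.W_FROB
import Pool.Agent.MU3.W_PRL

/-!
# MU3, block V: local facts for the torsion points of order `m lam` (helper59)
-/

set_option autoImplicit false

open WeierstrassCurve Polynomial NumberField IsDedekindDomain

namespace Pool.Agent.MU3V

open _root_.MU3 Pool.Agent.MU3A Pool.Agent.MU3B Pool.Agent.MU3C Pool.Agent.RI

noncomputable section

variable {A B : ℤ}

section
variable (h : Case A B) {L : PeriodPair} {Om : ℂ} (hL : IsCM A B L Om)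
  {ξ : ℂ →+ (WC A B).Point} (hξ : IsXi A B L ξ) {V : ValuationSubring ℂ}
  (v2 : V.valuation 2 = 1) {m lam : OO A B} {q : ℕ}
  (hm : m ≠ 0) (hlam : lam ≠ 0) (hcop : IsCoprime m lam) (hu : ¬ IsUnit lam) (hmu : ¬ IsUnit m)
  (vm : V.valuation ((nm m : ℤ) : ℂ) = 1)
  {a : ℤ} {H : Finset ℂ} (hH : IsHalf L a H)

include h hL hξ v2 vm in
/-- `E[m lam]` meets `E₁` trivially where `lam` is a unit -/
lemma torsN (hINJ : Sv_INJ) (hPID : Sa_PID) (hq : q.Prime) (hnm : nm lam = q)
    (vl : V.valuation (emb lam) = 1) (z : ℂ) (hz : emb (m * lam) * z ∈ L.lattice)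
    (hE : InE1 A B V L z) : z ∈ L.lattice := by
  obtain ⟨-, -, hnn, -⟩ := hPID A B h
  obtain ⟨n, hn⟩ := Int.eq_ofNat_of_zero_le (hnn m)
  have vn : V.valuation (n : ℂ) = 1 := by rw [hn] at vm; simpa using vm
  have h1 : emb lam * ((n : ℂ) * z) ∈ L.lattice := by
    have e := congrArg emb (FROB.mul_conj m)
    rw [emb_mul h, emb_intCast h, hn] at e
    have e2 : emb lam * ((n : ℂ) * z) =
        emb (⟨m.re + B * m.im, -m.im⟩ : OO A B) * (emb (m * lam) * z) := by
      rw [emb_mul h]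
      rw [Int.cast_natCast] at e
      rw [← e]; ring
    rw [e2]
    exact hL.emb_mul_mem h _ hz
  have h2 := hINJ A B L Om ξ h hL hξ V v2 lam q hq hnm vl _ h1 (inE1_nat h v2 hξ hE n)
  exact mem_of_nat_mul h v2 hξ hE vn h2

include h hL hm in
lemma u_tors (x : OO A B) : emb m * (emb x * (Om / emb m)) ∈ L.lattice := by
  have hm0 := emb_ne_zero h hm
  refine (hL.mem _).2 ⟨x, ?_⟩
  field_simp

include h hL hm hmu in
lemma u_notMem {x : OO A B} (hx : IsCoprime x m) : emb x * (Om / emb m) ∉ L.lattice := by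
  rw [hL.mul_div_mem_iff h hm]
  intro hd
  exact hmu (hx.symm.isUnit_of_dvd' dvd_rfl hd)

include h hL hξ v2 vm hm hlam hcop hu hmu hH in
/-- `Θ_a(u + u')` is a unit -/
lemma theta_unit (hTHU : Sw_THU) (hTORV : Sw_TORV) (hINJ : Sv_INJ) (hR2 : Sv_R2)
    (hPID : Sa_PID) (hq : q.Prime) (hnm : nm lam = q) (va : V.valuation (a : ℂ) = 1)
    (hcm : IsCoprime (a : OO A B) m) :
    V.valuation (ThetaH L H (emb (1 : OO A B) * (Om / emb m) + emb (1 : OO A B) * (Om / emb lam))) = 1 := by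
  refine (hTHU A B L Om ξ h hL hξ V v2 a H va hH).1 _ fun hE => ?_
  have e : (a : ℂ) * (emb (1 : OO A B) * (Om / emb m) + emb (1 : OO A B) * (Om / emb lam)) =
      emb (a : OO A B) * (Om / emb m) + emb (a : OO A B) * (Om / emb lam) := by
    rw [emb_one h, emb_intCast h]; ring
  have hau := u_notMem h hL hm hmu hcm
  rcases (v_emb_le h V lam).lt_or_eq with vl | vl
  · have h1 := hR2 A B L Om ξ h hL hξ V v2 lam q hq hnm vl _ (u_tors h hL hlam (a : OO A B))
    rw [e] at hE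
    have h2 := inE1_sub h v2 hξ hE h1
    rw [add_sub_cancel_right] at h2
    exact hau (hTORV A B L Om ξ h hL hξ V v2 m vm _ (u_tors h hL hm _) h2)
  · have h1 := torsN h hL hξ v2 vm hINJ hPID hq hnm vl _ (by
      rw [e]; exact z0_tors h hL hm hlam _ _) hE
    rw [e] at h1
    have h2 := hL.emb_mul_mem h lam h1
    have hl0 := emb_ne_zero h hlam
    have e2 : emb lam * (emb (a : OO A B) * (Om / emb m) + emb (a : OO A B) * (Om / emb lam)) =
        emb (lam * (a : OO A B)) * (Om / emb m) + Om * emb (a : OO A B) := by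
      rw [emb_mul h]; field_simp
    rw [e2] at h2
    have h3 : Om * emb (a : OO A B) ∈ L.lattice := (hL.mem _).2 ⟨_, rfl⟩
    have h4 := sub_mem h2 h3
    rw [add_sub_cancel_right] at h4
    exact u_notMem h hL hm hmu (hcop.symm.mul_left hcm) h4

include h hL hξ v2 vm hm hlam hmu hH in
/-- the congruence at the primes above `lam` -/
lemma theta_cong_lam (hTHU : Sw_THU) (hTORV : Sw_TORV) (hR2 : Sv_R2)
    (hq : q.Prime) (hnm : nm lam = q) (va : V.valuation (a : ℂ) = 1)
    (vl : V.valuation (emb lam) < 1) {y r : OO A B} (hy : IsCoprime y m) :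
    V.valuation (ThetaH L H (emb y * (Om / emb m))) ≤ 1 ∧
      V.valuation (ThetaH L H (emb y * (Om / emb m) + emb r * (Om / emb lam)) -
        ThetaH L H (emb y * (Om / emb m))) < 1 := by
  refine (hTHU A B L Om ξ h hL hξ V v2 a H va hH).2 _ _ (fun hE => ?_) ?_
  · exact u_notMem h hL hm hmu hy (hTORV A B L Om ξ h hL hξ V v2 m vm _ (u_tors h hL hm _) hE)
  · exact hR2 A B L Om ξ h hL hξ V v2 lam q hq hnm vl _ (u_tors h hL hlam _)

end

/-! ### Passage to primes -/

lemma val_nat_one {F : Type} [Field F] [NumberField F] {w : HeightOneSpectrum (𝓞 F)}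
    {φ : F →+* ℂ} {V : ValuationSubring ℂ}
    (hV : ∀ x : F, (φ x ∈ V ↔ w.valuation F x ≤ 1) ∧
      (V.valuation (φ x) < 1 ↔ w.valuation F x < 1) ∧ (V.valuation (φ x) = 1 ↔ w.valuation F x = 1))
    {p : ℕ} (hp : (p : 𝓞 F) ∉ w.asIdeal) : V.valuation (p : ℂ) = 1 := by
  have h1 : w.valuation F (p : F) = 1 := by
    have h3 : ¬ (w.valuation F (p : F) < 1) := by
      intro h4
      apply hp
      rw [← HeightOneSpectrum.valuation_lt_one_iff_mem (K := F) w (p : 𝓞 F)]
      simpa using h4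
    refine le_antisymm ?_ (not_lt.1 h3)
    have h5 := HeightOneSpectrum.valuation_le_one (K := F) w (p : 𝓞 F)
    simpa using h5
  have h2 := ((hV (p : F)).2.2).2 h1
  simpa using h2

/-- integers all of whose prime divisors are in `S` are units outside `S` -/
lemma val_int_S {F : Type} [Field F] [NumberField F] {w : HeightOneSpectrum (𝓞 F)}
    {φ : F →+* ℂ} {V : ValuationSubring ℂ}
    (hV : ∀ x : F, (φ x ∈ V ↔ w.valuation F x ≤ 1) ∧
      (V.valuation (φ x) < 1 ↔ w.valuation F x < 1) ∧ (V.valuation (φ x) = 1 ↔ w.valuation F x = 1))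
    {S : Finset ℕ} (hw : ¬ Pool.Agent.MU3.Above S w) {n : ℤ} (hn : n ≠ 0)
    (hS : ∀ p : ℕ, p.Prime → (p : ℤ) ∣ n → p ∈ S) : V.valuation (n : ℂ) = 1 :=
  SUC.v_int hn fun p hp hpn => val_nat_one hV fun h1 => hw ⟨p, hS p hp hpn, h1⟩

end

end Pool.Agent.MU3V
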