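import Pool.Agent.MU3.StP
import Pool.Agent.RID.P_CYC
import Pool.Agent.RI.CL

/-!
# MU3, block P: module CHEV, the inequality for ambiguous classes (helper18)
-/

open NumberField Finset IsDedekindDomain
open scoped nonZeroDivisors Pointwise

namespace MU3

open Pool.Agent.RI Pool.Agent.RID

namespace Chev

lemma padic_le (p : ℕ) [hp : Fact p.Prime] {m s : ℕ} (h0 : m ≠ 0) (h : m ≤ p ^ s) :
    padicValNat p m ≤ s := by
  have h1 : p ^ padicValNat p m ≤ m := Nat.le_of_dvd (Nat.pos_of_ne_zero h0) pow_padicValNat_dvd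
  exact (Nat.pow_le_pow_iff_right hp.out.one_lt).1 (h1.trans h)

lemma padic_mono (p : ℕ) [Fact p.Prime] {a b : ℕ} (hb : b ≠ 0) (h : a ∣ b) :
    padicValNat p a ≤ padicValNat p b := by
  obtain ⟨c, rfl⟩ := h
  have ha : a ≠ 0 := by rintro rfl; simp at hb
  have hc : c ≠ 0 := by rintro rfl; simp at hb
  rw [padicValNat.mul ha hc]
  omega

end Chev

open Chev in
theorem p_CHEV (h1 : N_AMBA) (h2 : N_AMBI) (h3 : P_HQE) (h4 : P_H1P) : P_CHEV := by
  intro p a hp K L _ _ _ _ _ g hg hinf S hS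
  obtain ⟨-, -, -, hH90, -, -, -, -, hgext, -, -⟩ := t_CYC K K L g (p ^ a) hg
  have hgq : g ^ (p ^ a) = 1 := by
    rw [← hg.ord]
    exact pow_orderOf_eq_one g
  set P : Subgroup (J L) := PI L with hP
  set U : Subgroup (J L) := P.comap (dg g) with hU
  set V : Subgroup (J L) := (dg g : J L →* J L).ker with hV
  set X : Subgroup (J L) := (ext K L).range with hX
  set W : Subgroup (J L) := (PI K).map (ext K L) with hW
  have hdv : ∀ x : Lˣ, (prin : Lˣ →* J L) (g • x) = g • (prin x : J L) := fun x =>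
    (smul_prin g x).symm
  have hfin : Finite (J L ⧸ P) := CL.finite_quot L
  have hPfin : P.FiniteIndex := Subgroup.finiteIndex_of_finite_quotient
  -- containments
  have hPU : P ≤ U := by
    rintro _ ⟨x, rfl⟩
    rw [hU, Subgroup.mem_comap]
    refine ⟨x / g • x, ?_⟩
    rw [map_div, hdv]
    rfl
  have hVU : V ≤ U := by
    intro b hb
    rw [hU, Subgroup.mem_comap]
    rw [hV, MonoidHom.mem_ker] at hb
    rw [hb]
    exact one_mem _
  have hXV : X ≤ V := by
    rintro _ ⟨c, rfl⟩
    rw [hV, mem_dg_ker]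
    exact hgext c
  have hWX : W ≤ X := by
    rintro _ ⟨c, -, rfl⟩
    exact ⟨c, rfl⟩
  have hWP : W ≤ P := by
    rintro _ ⟨_, ⟨x, rfl⟩, rfl⟩
    exact ⟨_, (ext_prin (K := K) (L := L) x).symm⟩
  have hWPV : W ≤ P ⊓ V := le_inf hWP (hWX.trans hXV)
  -- multiplicativity
  have m2 : P.relIndex (P ⊔ V) * (P ⊔ V).relIndex U = P.relIndex U :=
    Subgroup.relIndex_mul_relIndex P (P ⊔ V) U le_sup_left (sup_le hPU hVU)
  have e1 : P.relIndex (P ⊔ V) = P.relIndex V := by
    rw [sup_comm]
    exact Subgroup.relIndex_sup_right V P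
  have e2 : (P ⊓ V).relIndex V = P.relIndex V := Subgroup.inf_relIndex_right P V
  have m3 : W.relIndex (P ⊓ V) * (P ⊓ V).relIndex V = W.relIndex V :=
    Subgroup.relIndex_mul_relIndex W (P ⊓ V) V hWPV inf_le_right
  have m4 : W.relIndex X * X.relIndex V = W.relIndex V :=
    Subgroup.relIndex_mul_relIndex W X V hWX hXV
  have e3 : W.relIndex X = NumberField.classNumber K := by
    rw [CL.classNumber_eq K]
    have e4 : X = (⊤ : Subgroup (J K)).map (ext K L) := by
      rw [hX, MonoidHom.range_eq_map]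
    rw [e4, hW, Subgroup.relIndex_map_map_of_injective _ _ (ext_injective K L),
      Subgroup.relIndex_top_right]
    rfl
  -- units
  have d4 : (P ⊔ V).relIndex U ∣ ((UE L).map (ng g (p ^ a))).relIndex (UE L ⊓ (dg g).ker) :=
    h1 (p ^ a) Lˣ (J L) (L ≃ₐ[K] L) (prin : Lˣ →* J L) g hgq hdv hH90
  obtain ⟨k1, k2⟩ := h3 p a K L g hg hinf
  have k3 := h4 (p ^ a) K L g hg
  -- ideals
  obtain ⟨k4, k5⟩ := h2 K K L g (p ^ a) hg S hS
  have b3 : padicValNat p (X.relIndex V) ≤ a * S.card := by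
    apply padic_le p k4
    rw [pow_mul]
    exact k5
  have hcn : NumberField.classNumber K ≠ 0 := by
    rw [NumberField.classNumber]
    exact Fintype.card_ne_zero
  -- the valuations
  generalize hh0 : ((UE L).map (ng g (p ^ a))).relIndex (UE L ⊓ (dg g).ker) = h₀ at d4 k2
  have hh1 : W.relIndex (P ⊓ V) = h₀ * p ^ a := k3.trans k2.symm
  rw [← k2] at k1
  have hp0 : p ^ a ≠ 0 := pow_ne_zero _ hp.out.ne_zero
  have hh00 : h₀ ≠ 0 := fun h => k1 (by rw [h, zero_mul])
  have n0 : P.relIndex U ≠ 0 := Subgroup.FiniteIndex.index_ne_zero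
  have n1 : P.relIndex V ≠ 0 := by
    rw [← e1]
    exact Subgroup.FiniteIndex.index_ne_zero
  have n4 : (P ⊔ V).relIndex U ≠ 0 := by
    intro h
    rw [h, mul_zero] at m2
    exact n0 m2.symm
  have v1 : padicValNat p (P.relIndex U) ≤ padicValNat p (P.relIndex V) + padicValNat p h₀ := by
    rw [← m2, e1, padicValNat.mul n1 n4]
    have := padic_mono p hh00 d4
    omega
  have v2 : padicValNat p h₀ + a + padicValNat p (P.relIndex V) =
      padicValNat p (NumberField.classNumber K) + padicValNat p (X.relIndex V) := by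
    have h5 : h₀ * p ^ a * P.relIndex V = NumberField.classNumber K * X.relIndex V := by
      rw [← hh1, ← e2, m3, ← m4, e3]
    have h6 := congrArg (padicValNat p) h5
    rw [padicValNat.mul (mul_ne_zero hh00 hp0) n1, padicValNat.mul hh00 hp0,
      padicValNat.prime_pow, padicValNat.mul hcn k4] at h6
    exact h6
  omega

end MU3
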