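import Pool.Agent.MU3.StP
import Pool.Agent.RID.P_ABS1

/-!
# MU3, block P: module H1P
-/

open NumberField Finset IsDedekindDomain
open scoped nonZeroDivisors Pointwise

namespace MU3

open Pool.Agent.RI Pool.Agent.RID

namespace PX_H1P

/-- The abstract form. -/
lemma abs {A I G : Type} [CommGroup A] [CommGroup I] [Group G] [MulDistribMulAction G A]
    [MulDistribMulAction G I] (dv : A →* I) (g : G) (q : ℕ) (hq : g ^ q = 1)
    (hdv : ∀ x, dv (g • x) = g • dv x) (h90 : ∀ x : A, ng g q x = 1 → ∃ y, x = y / g • y) :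
    ((dg g : A →* A).ker.map dv).relIndex (dv.range ⊓ (dg g : I →* I).ker) =
      (dv.ker.map (dg g)).relIndex (dv.ker ⊓ (ng g q).ker) := by
  have hd : ∀ x, dv (dg g x) = dg g (dv x) := by
    intro x
    rw [dg_apply, dg_apply, map_div, hdv]
  set X : Subgroup A := (dg g : I →* I).ker.comap dv with hX
  have hmX : ∀ x, x ∈ X ↔ (dg g : I →* I) (dv x) = 1 := fun x => Iff.rfl
  have k1 : dv.ker ≤ X := by
    intro x hx
    rw [hmX, (MonoidHom.mem_ker).1 hx, map_one]
  have k2 : (dg g : A →* A).ker ≤ X := by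
    intro x hx
    rw [hmX, ← hd, (MonoidHom.mem_ker).1 hx, map_one]
  have m1 : X.map dv = dv.range ⊓ (dg g : I →* I).ker := Subgroup.map_comap_eq _ _
  have m2 : X.map (dg g) = dv.ker ⊓ (ng g q).ker := by
    apply le_antisymm
    · rintro _ ⟨x, hx, rfl⟩
      refine ⟨?_, ?_⟩
      · show dv (dg g x) = 1
        rw [hd]
        exact (hmX x).1 hx
      · exact ABS1.ng_dg g q hq x
    · rintro z ⟨hz1, hz2⟩
      obtain ⟨y, hy⟩ := h90 z hz2
      refine ⟨y, (hmX y).2 ?_, ?_⟩
      · rw [← hd, dg_apply, ← hy]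
        exact hz1
      · rw [dg_apply, ← hy]
  rw [← m1, ← m2, Subgroup.relIndex_map_map, Subgroup.relIndex_map_map, sup_eq_left.2 k1,
    sup_eq_left.2 k2, sup_comm]

end PX_H1P

/-- H1P. -/
theorem p_H1P (h1 : S_CYC) : P_H1P := by
  intro q K L _ _ _ _ _ g hg
  obtain ⟨-, -, -, h90, hfix, -, -, -, -, hKf, -⟩ := h1 K K L g q hg
  have hq : g ^ q = 1 := by
    rw [← hg.ord]
    exact pow_orderOf_eq_one g
  have e1 : (PI K).map (ext K L) = ((dg g : Lˣ →* Lˣ).ker).map (prin : Lˣ →* J L) := by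
    have hC : (dg g : Lˣ →* Lˣ).ker =
        (Units.map (algebraMap K L : K →* L) : Kˣ →* Lˣ).range := by
      apply le_antisymm
      · intro x hx
        exact hfix x ((mem_dg_ker g x).1 hx)
      · rintro _ ⟨c, rfl⟩
        exact (mem_dg_ker g _).2 (hKf c)
    rw [hC, MonoidHom.map_range, MonoidHom.map_range]
    congr 1
    ext1 c
    exact ext_prin K L c
  rw [e1]
  exact PX_H1P.abs (prin : Lˣ →* J L) g q hq (fun x => (smul_prin g x).symm) h90

end MU3
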