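import Pool.Agent.MU3.StP
import Pool.Agent.RI.BASE

/-!
# MU3, block P: LST, one step of the tower over `L`
-/

open NumberField Finset IsDedekindDomain
open scoped nonZeroDivisors Pointwise

namespace MU3

open Pool.Agent.RI Pool.Agent.RID

namespace PLst

lemma step (h1 : N_STEP) (p m : ℕ) [Fact p.Prime] (L M N : IntermediateField ℚ ℂ)
    [FiniteDimensional ℚ L] [FiniteDimensional ℚ M] [FiniteDimensional ℚ N]
    (h0 : L ≤ M) (h' : M ≤ N) (h : L ≤ N)
    (hc : letI := algC h
      letI := algC h'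
      ∃ g : N ≃ₐ[L] N, g ^ (p ^ (m + 1)) = 1 ∧ CycExt L M N (g ^ (p ^ m)) p)
    (hlt : rkp p N < p ^ m * (p - 1)) :
    padicValNat p (classNo N) ≤ padicValNat p (classNo M) + rkp p N := by
  let a1 : Algebra L N := algC h
  let a2 : Algebra M N := algC h'
  let a3 : Algebra L M := algC h0
  have t1 : IsScalarTower L M N := towerC h0 h'
  obtain ⟨g, hg, hcyc⟩ := hc
  have key := h1 p m L M N g hg hcyc hlt
  rw [BASE.classNo_eq, BASE.classNo_eq]
  exact key

end PLst

theorem p_LST (h1 : N_STEP) (h2 : P_TOW) : P_LST := by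
  intro p _ L _ B _ hlay hmono n hr
  have h : L ≤ L ⊔ B (n + 1) := le_sup_left
  have h0 : L ≤ L ⊔ B n := le_sup_left
  have h' : L ⊔ B n ≤ L ⊔ B (n + 1) := sup_le_sup_left (hmono (Nat.le_succ n)) L
  obtain ⟨m, hm, g, hg, hor⟩ := h2 p L B hlay hmono n h h'
  rcases hor with heq | hcyc
  · have e := congrArg classNo heq
    rw [e]
    exact Nat.le_add_right _ _
  · have hlt : rkp p ↥(L ⊔ B (n + 1)) < p ^ m * (p - 1) := by
      by_contra hc
      push Not at hc
      have e1 := Nat.mul_le_mul_right (p - 1) hm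
      have e2 := Nat.mul_le_mul_right (Module.finrank ℚ L) hc
      have e3 : p ^ m * Module.finrank ℚ L * (p - 1) = p ^ m * (p - 1) * Module.finrank ℚ L := by
        ring
      rw [e3] at e1
      exact absurd hr (not_lt.2 (e1.trans e2))
    exact PLst.step h1 p m L (L ⊔ B n) (L ⊔ B (n + 1)) h0 h' h ⟨g, hg, hcyc⟩ hlt

end MU3
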