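import Pool.Agent.MU3.StP

/-!
# ONE: an extension of degree `p`
-/

set_option autoImplicit false

open NumberField Finset IsDedekindDomain
open scoped nonZeroDivisors Pointwise

namespace MU3

open Pool.Agent.RI Pool.Agent.RID

theorem p_ONE (h1 : P_RKE) (h2 : P_LST) (h3 : P_REC) : P_ONE := by
  intro p hp F L _ B h hgal hdeg htot hlay hmono hF
  have hfB : ∀ n, FiniteDimensional ℚ ↥(B n) := fun n =>
    Module.finite_of_finrank_pos (by rw [(hlay n).1]; exact pow_pos hp.out.pos n)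
  have hfd : ∀ n, FiniteDimensional ℚ ↥(L ⊔ B n) := fun n =>
    haveI := hfB n
    IntermediateField.finiteDimensional_sup L (B n)
  obtain ⟨t, ht⟩ := h1 p F L B h hgal hdeg htot hlay
  obtain ⟨C, k, hC⟩ := hF
  obtain ⟨C', hC'⟩ := h3 p (Module.finrank ℚ L) (p * (C + t)) k
    (fun n => padicValNat p (classNo (L ⊔ B n))) (fun n => rkp p ↥(L ⊔ B n))
    (by
      intro n
      have h4 : rkp p ↥(L ⊔ B n) ≤ p * (padicValNat p (classNo (F ⊔ B n)) + t) := ht n (hfd n)
      have h5 : 1 ≤ (n + 1) ^ k := Nat.one_le_pow _ _ (Nat.succ_pos n)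
      have h6 : padicValNat p (classNo (F ⊔ B n)) + t ≤ (C + t) * (n + 1) ^ k := by
        have h7 : t * 1 ≤ t * (n + 1) ^ k := Nat.mul_le_mul_left t h5
        have h8 := hC n
        rw [add_mul]
        omega
      calc rkp p ↥(L ⊔ B n) ≤ p * (padicValNat p (classNo (F ⊔ B n)) + t) := h4
        _ ≤ p * ((C + t) * (n + 1) ^ k) := Nat.mul_le_mul_left p h6
        _ = p * (C + t) * (n + 1) ^ k := (mul_assoc _ _ _).symm)
    (fun n hn => h2 p L B hlay hmono n hn)
  exact ⟨C', k + 1, hC'⟩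

end MU3
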