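import Pool.Agent.MU3.StP
import Pool.Agent.RI.CHIEF

/-!
# MU3, PEX (helper69): Galois extensions of `p`-power degree
-/

open NumberField Finset IsDedekindDomain
open scoped nonZeroDivisors Pointwise

namespace MU3

open Pool.Agent.RI Pool.Agent.RID

namespace PX_PEX

theorem totCx_up {F M : IntermediateField ℚ ℂ} (h : F ≤ M) (hF : TotCx F) : TotCx M := by
  intro φ
  obtain ⟨x, hx⟩ := hF (φ.comp (IntermediateField.inclusion h : F →+* M))
  exact ⟨IntermediateField.inclusion h x, hx⟩

theorem eq_of_finrank_one {F L : IntermediateField ℚ ℂ} (h : F ≤ L)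
    (hd : Module.finrank F (IntermediateField.extendScalars h) = 1) : L = F := by
  rw [IntermediateField.finrank_eq_one_iff] at hd
  apply le_antisymm _ h
  intro x hx
  have hx' : x ∈ IntermediateField.extendScalars h := hx
  rw [hd, IntermediateField.mem_bot] at hx'
  obtain ⟨y, rfl⟩ := hx'
  exact y.2

theorem gal_top {F M L : IntermediateField ℚ ℂ} (h₁ : F ≤ M) (h₂ : M ≤ L)
    (hg : IsGalois F (IntermediateField.extendScalars (h₁.trans h₂))) :
    IsGalois M (IntermediateField.extendScalars h₂) := by
  have g1 := (isGalois_algC (h₁.trans h₂)).2 hg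
  let _ := algC h₁
  let _ := algC h₂
  let _ := algC (h₁.trans h₂)
  have g2 := towerC h₁ h₂
  have g3 : IsGalois M L := IsGalois.tower_top_of_isGalois F M L
  exact (isGalois_algC h₂).1 g3

end PX_PEX

theorem p_PEX (h1 : P_ONE) : P_PEX := by
  intro p a
  induction a with
  | zero =>
    intro _ F L _ B h _ hdeg _ _ _ hC
    have hLF : L = F := PX_PEX.eq_of_finrank_one h (by rw [hdeg, pow_zero])
    subst hLF
    exact hC
  | succ a ih =>
    intro _ F L _ B h hG hdeg hT hB hm hC
    obtain ⟨M, h₁, h₂, hG', hd', hdM⟩ := CHIEF_thm p a F L h hG hdeg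
    have : FiniteDimensional ℚ M := by
      exact FiniteDimensional.of_injective (IntermediateField.inclusion h₂).toLinearMap
        (IntermediateField.inclusion h₂).toRingHom.injective
    exact h1 p M L B h₂ (PX_PEX.gal_top h₁ h₂ hG) hdM (PX_PEX.totCx_up h₁ hT) hB hm
      (ih F M B h₁ hG' hd' hT hB hm hC)

end MU3
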