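import Pool.Agent.MU3.StP

/-!
# MU3, block P: `P_RKA`
-/

open NumberField Finset IsDedekindDomain
open scoped nonZeroDivisors Pointwise

namespace MU3

open Pool.Agent.RI Pool.Agent.RID

namespace RKA

variable {G A : Type} [Group G] [CommGroup A] [MulDistribMulAction G A]

/-- the endomorphism of `Additive A` given by the action of `g` -/
def gam (g : G) : AddMonoid.End (Additive A) :=
  MonoidHom.toAdditive (MulDistribMulAction.toMonoidHom A g)

lemma gam_apply (g : G) (x : A) : gam g (Additive.ofMul x) = Additive.ofMul (g • x) := rfl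

lemma gam_pow_apply (g : G) (n : ℕ) (x : A) :
    (gam g ^ n : AddMonoid.End (Additive A)) (Additive.ofMul x) = Additive.ofMul (g ^ n • x) := by
  induction n with
  | zero => simp
  | succ n ih =>
    rw [pow_succ', AddMonoid.End.coe_mul, Function.comp_apply, ih, gam_apply, pow_succ', mul_smul]

lemma one_sub_gam_pow_apply (g : G) (n : ℕ) (x : A) :
    ((1 - gam g) ^ n : AddMonoid.End (Additive A)) (Additive.ofMul x) =
      Additive.ofMul ((dg g)^[n] x) := by
  induction n with
  | zero => simp
  | succ n ih =>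
    rw [pow_succ', AddMonoid.End.coe_mul, Function.comp_apply, ih, Function.iterate_succ_apply', dg_apply]
    rfl

lemma pow_eq (p : ℕ) (hp : p.Prime) (g : G) (hg : g ^ p = 1) :
    ∃ r : AddMonoid.End (Additive A), (1 - gam g) ^ p = (p : AddMonoid.End (Additive A)) * r := by
  have h1 : (gam g ^ p : AddMonoid.End (Additive A)) = 1 := by
    ext x
    obtain ⟨x, rfl⟩ := Additive.ofMul.surjective x
    rw [gam_pow_apply, hg, one_smul]
    rfl
  obtain ⟨r, hr⟩ := exists_add_pow_prime_eq hp (1 : Polynomial ℤ) (-Polynomial.X)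
  obtain ⟨s, hs⟩ : ∃ s : Polynomial ℤ, (1 - Polynomial.X) ^ p =
      1 - Polynomial.X ^ p + (p : Polynomial ℤ) * s := by
    rcases hp.eq_two_or_odd' with h | h
    · subst h
      refine ⟨1 - Polynomial.X + (Polynomial.X ^ 2 - 1), ?_⟩
      push_cast
      ring
    · refine ⟨1 * -Polynomial.X * r, ?_⟩
      rw [sub_eq_add_neg, hr, h.neg_pow, one_pow]
      ring
  have h2 := congrArg (Polynomial.aeval (gam g : AddMonoid.End (Additive A))) hs
  simp only [map_pow, map_add, map_mul, map_one, map_sub, Polynomial.aeval_X, map_natCast] at h2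
  refine ⟨Polynomial.aeval (gam g : AddMonoid.End (Additive A)) s, ?_⟩
  rw [h2, h1, sub_self, zero_add]

lemma iter_mem (p : ℕ) (hp : p.Prime) (g : G) (hg : g ^ p = 1) (b : A) :
    ∃ y : A, (dg g)^[p] b = y ^ p := by
  obtain ⟨r, hr⟩ := pow_eq (A := A) p hp g hg
  refine ⟨(r (Additive.ofMul b)).toMul, ?_⟩
  apply Additive.ofMul.injective
  rw [← one_sub_gam_pow_apply, hr, AddMonoid.End.coe_mul, Function.comp_apply, AddMonoid.End.natCast_apply]
  rfl

end RKA

theorem p_RKA (h1 : N_NILR) : P_RKA := by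
  intro p hp K L _ _ _ _ g hg
  refine h1 p p K L g fun b => ?_
  obtain ⟨y, hy⟩ := RKA.iter_mem p hp.out g hg b
  exact ⟨y, 1, by rw [hy, map_one, mul_one]⟩

end MU3
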