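import Pool.Agent.MU3.StP
import Pool.Agent.RI.BCH
import Pool.Agent.RI.INF
import Pool.Agent.RI.RAMB
import Pool.Agent.RI.TSTEP
import Pool.Agent.RI.CL

/-!
# MU3, block P, module RKE: the rank of the class group of `L B_n`, `L / F` Galois of degree `p`
-/

open NumberField Finset IsDedekindDomain
open scoped nonZeroDivisors Pointwise

namespace MU3

open Pool.Agent.RI Pool.Agent.RID

namespace RKE

theorem classNo_eq (E : IntermediateField ℚ ℂ) [FiniteDimensional ℚ E] :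
    classNo E = NumberField.classNumber E := by
  unfold classNo NumberField.classNumber
  rw [Nat.card_eq_fintype_card]

theorem val_le {p a b : ℕ} [Fact p.Prime] (hb : b ≠ 0) (h : a ∣ b) :
    padicValNat p a ≤ padicValNat p b :=
  (padicValNat_dvd_iff_le hb).1 (pow_padicValNat_dvd.trans h)

/-- the rank is at most the exponent of `p` in the class number -/
theorem rkp_le (p : ℕ) [Fact p.Prime] (L : Type) [Field L] [NumberField L] :
    rkp p L ≤ padicValNat p (NumberField.classNumber L) := by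
  rw [CL.classNumber_eq]
  have hfin : Finite (J L ⧸ (prin (K := L)).range) := CL.finite_quot L
  unfold rkp
  refine val_le Nat.card_pos.ne' ?_
  have hcomm : ∀ a b : J L ⧸ PI L, a * b = b * a := by
    intro a b
    obtain ⟨x, rfl⟩ := QuotientGroup.mk_surjective a
    obtain ⟨y, rfl⟩ := QuotientGroup.mk_surjective b
    rw [← QuotientGroup.mk_mul, ← QuotientGroup.mk_mul, mul_comm]
  let S : Subgroup (J L ⧸ PI L) :=
    { carrier := {c | c ^ p = 1}
      one_mem' := one_pow p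
      mul_mem' := by
        intro a b ha hb
        change (a * b) ^ p = 1
        rw [(show Commute a b from hcomm a b).mul_pow, show a ^ p = 1 from ha,
          show b ^ p = 1 from hb, mul_one]
      inv_mem' := by
        intro a ha
        change a⁻¹ ^ p = 1
        rw [inv_pow, show a ^ p = 1 from ha, inv_one] }
  exact Subgroup.card_subgroup_dvd_card S

/-- the prime below -/
noncomputable def und (K L : Type) [Field K] [NumberField K] [Field L] [NumberField L]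
    [Algebra K L] (w : HeightOneSpectrum (𝓞 L)) : HeightOneSpectrum (𝓞 K) :=
  ⟨w.asIdeal.under (𝓞 K), inferInstance, Ideal.under_ne_bot (𝓞 K) w.ne_bot⟩

/-- the case of the degree `p` -/
theorem deg_p (h1 : P_CHEV) (h2 : P_RKA) {p : ℕ} [Fact p.Prime] {K L : Type} [Field K]
    [NumberField K] [Field L] [NumberField L] [Algebra K L] [IsGalois K L]
    (hd : Module.finrank K L = p)
    (hinf : Fintype.card (InfinitePlace L) = Module.finrank K L * Fintype.card (InfinitePlace K))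
    (S : Finset (HeightOneSpectrum (𝓞 K)))
    (hS : ∀ w : HeightOneSpectrum (𝓞 L), w.asIdeal.ramificationIdx (𝓞 K) ≠ 1 →
      ∃ v ∈ S, w.asIdeal.under (𝓞 K) = v.asIdeal) :
    rkp p L ≤ p * (padicValNat p (NumberField.classNumber K) + S.card) := by
  have hcard : Nat.card (L ≃ₐ[K] L) = p := by
    rw [IsGalois.card_aut_eq_finrank, hd]
  have hcyc : IsCyclic (L ≃ₐ[K] L) := isCyclic_of_prime_card hcard
  obtain ⟨g, hg⟩ := hcyc.exists_generator
  have hord : orderOf g = p := by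
    rw [orderOf_eq_card_of_forall_mem_zpowers hg, hcard]
  have hC : CycExt K K L g (p ^ 1) := by
    refine ⟨by rw [hord, pow_one], fun x => ⟨fun hx => ?_, ?_⟩⟩
    · have h3 : ∀ σ : L ≃ₐ[K] L, σ x = x := by
        intro σ
        have h4 : Subgroup.zpowers g ≤ MulAction.stabilizer (L ≃ₐ[K] L) x := by
          rw [Subgroup.zpowers_le]
          exact hx
        exact h4 (hg σ)
      exact (IsGalois.mem_range_algebraMap_iff_fixed x).2 h3
    · rintro ⟨y, rfl⟩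
      exact g.commutes y
  have e1 := h1 p 1 K L g hC (by
    rw [Nat.card_eq_fintype_card, Nat.card_eq_fintype_card, hinf, hd, pow_one]) S hS
  have e2 := h2 p K L g (by rw [← hord]; exact pow_orderOf_eq_one g)
  rw [one_mul] at e1
  exact e2.trans (Nat.mul_le_mul_left p e1)

end RKE

open RKE in
theorem p_RKE (h1 : P_CHEV) (h2 : P_RKA) (h3 : P_NPL) (h4 : P_BAD) : P_RKE := by
  intro p _ F L fdL B hFL gal hdeg htc hlay
  classical
  have fdF : FiniteDimensional ℚ F := TSTEP.fd_of_le hFL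
  obtain ⟨hBCH1, -⟩ := BCH_thm
  have hpr : p.Prime := Fact.out
  let aFL : Algebra F L := algC hFL
  obtain ⟨T, hT, hTram⟩ := h4 F L
  have hex : ∀ ℓ : ℕ, ∃ t : ℕ, ℓ ∈ T → ∀ n, ∀ _ : FiniteDimensional ℚ ↥(F ⊔ B n),
      Nat.card {v : HeightOneSpectrum (𝓞 ↥(F ⊔ B n)) // (ℓ : 𝓞 ↥(F ⊔ B n)) ∈ v.asIdeal} ≤ t ∧
      Finite {v : HeightOneSpectrum (𝓞 ↥(F ⊔ B n)) // (ℓ : 𝓞 ↥(F ⊔ B n)) ∈ v.asIdeal} := by
    intro ℓ
    by_cases hℓ : ℓ ∈ T
    · obtain ⟨t, ht⟩ := h3 p ℓ F B (hT ℓ hℓ) hlay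
      exact ⟨t, fun _ => ht⟩
    · exact ⟨0, fun h => absurd h hℓ⟩
  choose tt htt using hex
  refine ⟨∑ ℓ ∈ T, tt ℓ, fun n fdLB => ?_⟩
  have hFB : F ⊔ B n ≤ L ⊔ B n := sup_le_sup_right hFL _
  have fdFB : FiniteDimensional ℚ ↥(F ⊔ B n) := TSTEP.fd_of_le hFB
  have fdB : FiniteDimensional ℚ (B n) := TSTEP.fd_of_le (le_sup_right : B n ≤ L ⊔ B n)
  obtain ⟨gal', hdvd⟩ := hBCH1 F L (B n) (F ⊔ B n) (L ⊔ B n) hFL hFB rfl rfl gal
  rw [hdeg] at hdvd
  rw [classNo_eq]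
  rcases (Nat.dvd_prime hpr).1 hdvd with hd | hd
  · -- the fields are equal
    have hbot := IntermediateField.finrank_eq_one_iff.1 hd
    have hle : L ⊔ B n ≤ F ⊔ B n := by
      intro x hx
      have hx' : x ∈ IntermediateField.extendScalars hFB := hx
      rw [hbot, IntermediateField.mem_bot] at hx'
      obtain ⟨y, rfl⟩ := hx'
      exact y.2
    have heq : L ⊔ B n = F ⊔ B n := le_antisymm hle hFB
    have e1 := rkp_le p ↥(L ⊔ B n)
    have e2 : NumberField.classNumber ↥(L ⊔ B n) = NumberField.classNumber ↥(F ⊔ B n) := by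
      rw [← classNo_eq, ← classNo_eq, heq]
    rw [e2] at e1
    calc rkp p ↥(L ⊔ B n) ≤ padicValNat p (NumberField.classNumber ↥(F ⊔ B n)) := e1
      _ ≤ padicValNat p (NumberField.classNumber ↥(F ⊔ B n)) + ∑ ℓ ∈ T, tt ℓ :=
        Nat.le_add_right _ _
      _ ≤ _ := Nat.le_mul_of_pos_left _ hpr.pos
  · have hFF : F ≤ F ⊔ B n := le_sup_left
    have hLL : L ≤ L ⊔ B n := le_sup_left
    have hFLB : F ≤ L ⊔ B n := hFL.trans hLL
    let a1 : Algebra F ↥(F ⊔ B n) := algC hFF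
    let a2 : Algebra L ↥(L ⊔ B n) := algC hLL
    let a3 : Algebra ↥(F ⊔ B n) ↥(L ⊔ B n) := algC hFB
    let a4 : Algebra F ↥(L ⊔ B n) := algC hFLB
    have t1 : IsScalarTower F ↥(F ⊔ B n) ↥(L ⊔ B n) := towerC hFF hFB
    have t2 : IsScalarTower F L ↥(L ⊔ B n) := towerC hFL hLL
    have g1 : IsGalois F L := (isGalois_algC hFL).2 gal
    have g2 : IsGalois ↥(F ⊔ B n) ↥(L ⊔ B n) := (isGalois_algC hFB).2 gal'
    have d2 : Module.finrank ↥(F ⊔ B n) ↥(L ⊔ B n) = p := (finrank_algC hFB).trans hd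
    have hadj : IntermediateField.adjoin ↥(F ⊔ B n) (Set.range (algebraMap L ↥(L ⊔ B n))) = ⊤ :=
      TSTEP.adjoin_top (A := L) (B := F ⊔ B n) (C := L ⊔ B n)
        (le_antisymm (sup_le le_sup_left (le_sup_right.trans le_sup_right))
          (sup_le hLL hFB)) hFB hLL
    have hinf := INF_thm ↥(F ⊔ B n) ↥(L ⊔ B n) Set.univ
      (IntermediateField.adjoin_univ _ _) (by
        intro φ hφ
        exfalso
        obtain ⟨x, hx⟩ := htc (φ.comp (algebraMap F ↥(L ⊔ B n)))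
        exact hx (hφ (algebraMap F ↥(F ⊔ B n) x)))
    -- the set of the bad primes
    have hfin : ∀ ℓ ∈ T, {v : HeightOneSpectrum (𝓞 ↥(F ⊔ B n)) |
        (ℓ : 𝓞 ↥(F ⊔ B n)) ∈ v.asIdeal}.Finite := fun ℓ hℓ => (htt ℓ hℓ n fdFB).2
    set S : Finset (HeightOneSpectrum (𝓞 ↥(F ⊔ B n))) :=
      T.attach.biUnion (fun ℓ => (hfin ℓ.1 ℓ.2).toFinset) with hS
    have hScard : S.card ≤ ∑ ℓ ∈ T, tt ℓ := by
      refine Finset.card_biUnion_le.trans ?_
      rw [← Finset.sum_attach T tt]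
      refine Finset.sum_le_sum fun ℓ _ => ?_
      have e1 := (htt ℓ.1 ℓ.2 n fdFB).1
      have e2 : (hfin ℓ.1 ℓ.2).toFinset.card = Nat.card {v : HeightOneSpectrum (𝓞 ↥(F ⊔ B n)) //
          (ℓ.1 : 𝓞 ↥(F ⊔ B n)) ∈ v.asIdeal} := by
        rw [← Nat.card_eq_card_finite_toFinset]
        rfl
      rw [e2]
      exact e1
    have hSram : ∀ w : HeightOneSpectrum (𝓞 ↥(L ⊔ B n)),
        w.asIdeal.ramificationIdx (𝓞 ↥(F ⊔ B n)) ≠ 1 →
        ∃ v ∈ S, w.asIdeal.under (𝓞 ↥(F ⊔ B n)) = v.asIdeal := by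
      intro w hw
      have e1 := RAMB_thm F ↥(F ⊔ B n) L ↥(L ⊔ B n) hadj w hw
      obtain ⟨ℓ, hℓ, hmem⟩ := hTram (und L ↥(L ⊔ B n) w) e1
      have hmem' : (ℓ : 𝓞 ↥(L ⊔ B n)) ∈ w.asIdeal := by
        have e2 : algebraMap (𝓞 L) (𝓞 ↥(L ⊔ B n)) (ℓ : 𝓞 L) ∈ w.asIdeal := hmem
        rwa [map_natCast] at e2
      refine ⟨und ↥(F ⊔ B n) ↥(L ⊔ B n) w, ?_, rfl⟩
      rw [hS, Finset.mem_biUnion]
      refine ⟨⟨ℓ, hℓ⟩, Finset.mem_attach _ _, ?_⟩
      rw [Set.Finite.mem_toFinset]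
      change algebraMap (𝓞 ↥(F ⊔ B n)) (𝓞 ↥(L ⊔ B n)) (ℓ : 𝓞 ↥(F ⊔ B n)) ∈ w.asIdeal
      rwa [map_natCast]
    refine (deg_p h1 h2 d2 hinf S hSram).trans ?_
    exact Nat.mul_le_mul_left p (Nat.add_le_add_left hScard _)

end MU3
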