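import Pool.Agent.MU3.StP
import Pool.Agent.RI.CHIEF

/-!
# MU3, block P: the fixed field of the Sylow subgroup of an abelian Galois group
-/

set_option autoImplicit false

open NumberField Finset IsDedekindDomain
open scoped nonZeroDivisors Pointwise

namespace MU3

open Pool.Agent.RI Pool.Agent.RID

theorem p_SYL : P_SYL := by
  intro p hp k K _ h hgal hab
  have fdk : FiniteDimensional k (IntermediateField.extendScalars h) := by
    have h1 : FiniteDimensional ℚ (IntermediateField.extendScalars h) :=
      inferInstanceAs (FiniteDimensional ℚ K)
    exact Module.Finite.of_restrictScalars_finite ℚ k _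
  obtain ⟨P⟩ : Nonempty (Sylow p (Gal((IntermediateField.extendScalars h)/k))) := inferInstance
  have hN : (P : Subgroup (Gal((IntermediateField.extendScalars h)/k))).Normal := by
    constructor
    intro n hn g
    rw [hab g n, mul_inv_cancel_right]
    exact hn
  set L₀ : IntermediateField k (IntermediateField.extendScalars h) :=
    IntermediateField.fixedField (P : Subgroup (Gal((IntermediateField.extendScalars h)/k)))
    with hL₀
  have hg₀ : IsGalois k L₀ := IsGalois.of_fixedField_normal_subgroup _
  have hfree : Module.Free k L₀ := Module.Free.of_divisionRing k L₀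
  have hfree' : Module.Free L₀ (IntermediateField.extendScalars h) :=
    Module.Free.of_divisionRing L₀ _
  have hf₁ : Module.finrank L₀ (IntermediateField.extendScalars h) = Nat.card P := by
    rw [hL₀, IntermediateField.finrank_fixedField_eq_card]
  obtain ⟨a, ha⟩ := IsPGroup.iff_card.mp P.isPGroup'
  have hidx : (P : Subgroup (Gal((IntermediateField.extendScalars h)/k))).index =
      Module.finrank k L₀ := by
    have e1 := Module.finrank_mul_finrank k L₀ (IntermediateField.extendScalars h)
    have e2 := (P : Subgroup (Gal((IntermediateField.extendScalars h)/k))).card_mul_index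
    rw [IsGalois.card_aut_eq_finrank, ← e1, hf₁, mul_comm] at e2
    exact Nat.eq_of_mul_eq_mul_right (Nat.card_pos (α := P)) e2
  have hnd : ¬ p ∣ Module.finrank k L₀ := by
    rw [← hidx]
    exact P.not_dvd_index
  set M' : IntermediateField ℚ ℂ :=
    (IntermediateField.lift L₀).restrictScalars ℚ with hM'
  have h₁ : k ≤ M' := by
    intro x hx
    have : ((algebraMap k ℂ) ⟨x, hx⟩) ∈ IntermediateField.lift L₀ :=
      (IntermediateField.lift L₀).algebraMap_mem _
    exact this
  have h₂ : M' ≤ K := by
    intro x hx
    have : x ∈ IntermediateField.lift L₀ := hx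
    exact IntermediateField.lift_le L₀ this
  have he : IntermediateField.extendScalars h₁ = IntermediateField.lift L₀ := by
    ext x; rfl
  have hfM' : Module.finrank k (IntermediateField.extendScalars h₁) = Module.finrank k L₀ := by
    rw [he]
    exact (IntermediateField.liftAlgEquiv L₀).symm.toLinearEquiv.finrank_eq
  refine ⟨M', h₁, h₂, ?_, by rw [hfM']; exact hnd, ?_, a, ?_⟩
  · rw [he]
    exact IsGalois.of_algEquiv (IntermediateField.liftAlgEquiv L₀)
  · rw [← isGalois_algC]
    rw [← isGalois_algC] at hgal
    let _ := algC h₁
    let _ := algC h₂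
    let _ := algC h
    have : IsScalarTower k M' K := towerC h₁ h₂
    exact IsGalois.tower_top_of_isGalois k M' K
  · have e3 := CHIEF.finrank_mul h₁ h₂
    have e1 := Module.finrank_mul_finrank k L₀ (IntermediateField.extendScalars h)
    have e4 : Module.finrank k (IntermediateField.extendScalars h) =
      Module.finrank k (IntermediateField.extendScalars (h₁.trans h₂)) := rfl
    rw [hfM', ← e4, ← e1, hf₁] at e3
    have hpos : 0 < Module.finrank k L₀ := Module.finrank_pos
    rw [Nat.eq_of_mul_eq_mul_left hpos e3]
    exact ha

end MU3
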