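import Pool.Agent.MU3.StP
import Pool.Agent.MU3.N_GAL

/-!
# MU3, block P, module TOW: Galois theory of the layers
-/

open NumberField Finset IsDedekindDomain
open scoped nonZeroDivisors Pointwise

namespace MU3

open Pool.Agent.RI Pool.Agent.RID

namespace PTow

/-- The degree of `B (n + 1)` over `B n`. -/
lemma step {p n : ℕ} [Fact p.Prime] (B B' : IntermediateField ℚ ℂ) (hB : IsLayer p n B)
    (hB' : IsLayer p (n + 1) B') (h : B ≤ B') :
    IsGalois B (IntermediateField.extendScalars h) ∧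
      Module.finrank B (IntermediateField.extendScalars h) = p := by
  have hpr : p.Prime := Fact.out
  obtain ⟨hfB', hGB', -⟩ := LAY_thm p (n + 1) B' hB'
  let aBB : Algebra B B' := algC h
  have hT : IsScalarTower ℚ B B' := IsScalarTower.of_algebraMap_eq fun x => by
    apply Subtype.ext
    rw [eq_ratCast, eq_ratCast, map_ratCast]
  have hg : IsGalois B B' := IsGalois.tower_top_of_isGalois ℚ B B'
  refine ⟨(isGalois_algC h).1 hg, ?_⟩
  have h1 : Module.finrank ℚ B * Module.finrank B B' = Module.finrank ℚ B' :=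
    Module.finrank_mul_finrank ℚ B B'
  rw [hB.1, hB'.1, pow_succ] at h1
  have h2 : Module.finrank B B' = p := Nat.eq_of_mul_eq_mul_left (pow_pos hpr.pos n) h1
  rw [← finrank_algC h]
  exact h2

/-- Equal degrees. -/
lemma eq_of_one {M N : IntermediateField ℚ ℂ} (h : M ≤ N)
    (h1 : Module.finrank M (IntermediateField.extendScalars h) = 1) : N = M := by
  apply le_antisymm _ h
  rw [IntermediateField.finrank_eq_one_iff] at h1
  intro x hx
  have h2 : x ∈ IntermediateField.extendScalars h := hx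
  rw [h1, IntermediateField.mem_bot] at h2
  obtain ⟨y, rfl⟩ := h2
  exact y.2

end PTow

open PTow in
theorem p_TOW : P_TOW := by
  intro p _ L _ B hB hm n h h'
  let aLN : Algebra L ↥(L ⊔ B (n + 1)) := algC h
  let aMN : Algebra ↥(L ⊔ B n) ↥(L ⊔ B (n + 1)) := algC h'
  have hpr : p.Prime := Fact.out
  obtain ⟨hfB, hGB, -⟩ := LAY_thm p n (B n) (hB n)
  obtain ⟨hfB', hGB', -⟩ := LAY_thm p (n + 1) (B (n + 1)) (hB (n + 1))
  have fdQ : FiniteDimensional ℚ ↥(L ⊔ B (n + 1)) :=
    IntermediateField.finiteDimensional_sup L (B (n + 1))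
  have fdQM : FiniteDimensional ℚ ↥(L ⊔ B n) := IntermediateField.finiteDimensional_sup L (B n)
  have hBB : B n ≤ B (n + 1) := hm (Nat.le_succ n)
  obtain ⟨hs1, hs2⟩ := step (B n) (B (n + 1)) (hB n) (hB (n + 1)) hBB
  have hrel := (BCH_thm.1 (B n) (B (n + 1)) L (L ⊔ B n) (L ⊔ B (n + 1)) hBB h'
    (sup_comm _ _) (sup_comm _ _) hs1).2
  rw [hs2] at hrel
  rcases (Nat.dvd_prime hpr).1 hrel with h1 | hp
  · refine ⟨n, Nat.le_mul_of_pos_right _ Module.finrank_pos, 1, one_pow _, Or.inl ?_⟩
    exact eq_of_one h' h1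
  · have hLM : L ≤ L ⊔ B n := le_sup_left
    have fdL : FiniteDimensional L ↥(L ⊔ B (n + 1)) := Module.Finite.of_restrictScalars_finite ℚ L _
    have gL : IsGalois L ↥(L ⊔ B (n + 1)) :=
      (isGalois_algC h).2 (Gal.base L (B (n + 1)) (hB (n + 1))).1
    obtain ⟨j, -, hj⟩ := (Nat.dvd_prime_pow hpr).1 (Gal.base L (B (n + 1)) (hB (n + 1))).2
    have dtow : Module.finrank L (IntermediateField.extendScalars hLM) *
        Module.finrank ↥(L ⊔ B n) (IntermediateField.extendScalars h') =
        Module.finrank L (IntermediateField.extendScalars h) := GCC.degM h hLM h'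
    rw [hp] at dtow
    have hj' : Module.finrank L (IntermediateField.extendScalars h) = p ^ j := hj
    rw [hj'] at dtow
    obtain ⟨m, rfl⟩ : ∃ m, j = m + 1 := by
      rcases j with _ | m
      · exfalso
        rw [pow_zero] at dtow
        have h5 := Nat.dvd_one.1 ⟨_, (by rw [mul_comm]; exact dtow.symm)⟩
        exact hpr.one_lt.ne' h5
      · exact ⟨m, rfl⟩
    have dM : Module.finrank L (IntermediateField.extendScalars hLM) = p ^ m := by
      rw [pow_succ] at dtow
      exact Nat.eq_of_mul_eq_mul_right hpr.pos dtow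
    have dL : Module.finrank L ↥(L ⊔ B (n + 1)) = p ^ (m + 1) := (finrank_algC h).trans hj'
    have hcyc := CDL.cyclic (F := L) (t_LAYC p (n + 1) (B (n + 1)) (hB (n + 1)))
    have hcyc2 : IsCyclic (↥(L ⊔ B (n + 1)) ≃ₐ[L] ↥(L ⊔ B (n + 1))) :=
      isCyclic_of_injective (AlgEquiv.autCongr (extEquiv h)).symm.toMonoidHom
        (AlgEquiv.autCongr (extEquiv h)).symm.injective
    have hc : IsCyclic (⊥ : IntermediateField L ↥(L ⊔ B (n + 1))).fixingSubgroup := inferInstance
    obtain ⟨g, hg1, hg2⟩ := GCC.gen (⊥ : IntermediateField L ↥(L ⊔ B (n + 1))) hc (p ^ (m + 1))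
      (by rw [dL, IntermediateField.finrank_bot, one_mul])
    have key := GCP.cyc_fixed g ⊥ (GCP.sub h (L ⊔ B n) hLM) (p ^ m) hg2 bot_le
      (by rw [IntermediateField.finrank_bot, one_mul, GCP.finrank_sub h (L ⊔ B n) hLM h', dM])
    refine ⟨m, ?_, g, ?_, Or.inr ⟨?_, ?_⟩⟩
    · have e1 : Module.finrank ℚ L * Module.finrank L ↥(L ⊔ B (n + 1)) =
          Module.finrank ℚ ↥(L ⊔ B (n + 1)) := by
        have hT : IsScalarTower ℚ L ↥(L ⊔ B (n + 1)) := IsScalarTower.of_algebraMap_eq fun x => by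
          apply Subtype.ext
          rw [eq_ratCast, eq_ratCast, map_ratCast]
        exact Module.finrank_mul_finrank ℚ L _
      have e2 : Module.finrank ℚ (B (n + 1)) ≤ Module.finrank ℚ ↥(L ⊔ B (n + 1)) :=
        LinearMap.finrank_le_finrank_of_injective
          (f := (IntermediateField.inclusion (le_sup_right : B (n + 1) ≤ L ⊔ B (n + 1))).toLinearMap)
          (IntermediateField.inclusion (le_sup_right : B (n + 1) ≤ L ⊔ B (n + 1))).toRingHom.injective
      rw [(hB (n + 1)).1, ← e1, dL, pow_succ, pow_succ, ← mul_assoc] at e2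
      have e3 : p ^ n * p ≤ (p ^ m * Module.finrank ℚ L) * p := by
        rw [mul_comm (p ^ m)]
        exact e2
      exact Nat.le_of_mul_le_mul_right e3 hpr.pos
    · rw [← hg1]
      exact pow_orderOf_eq_one g
    · rw [orderOf_pow_of_dvd (pow_ne_zero _ hpr.ne_zero)
        (by rw [hg1]; exact pow_dvd_pow p (Nat.le_succ m)), hg1,
        Nat.pow_div (Nat.le_succ m) hpr.pos, Nat.succ_sub (le_refl m), Nat.sub_self, pow_one]
    · intro x
      rw [key x, GCP.mem_sub]
      constructor
      · intro hx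
        exact ⟨⟨x.1, hx⟩, rfl⟩
      · rintro ⟨y, rfl⟩
        exact y.2

end MU3
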