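import Pool.Agent.MU3.PX_HQE
import Pool.Agent.MU3.PX_H1P
import Pool.Agent.MU3.PX_CHEV
import Pool.Agent.MU3.PX_RKA
import Pool.Agent.MU3.PX_NPC
import Pool.Agent.MU3.PX_NPL
import Pool.Agent.MU3.PX_BAD
import Pool.Agent.MU3.PX_RKE
import Pool.Agent.MU3.PX_TOW
import Pool.Agent.MU3.PX_LST
import Pool.Agent.MU3.PX_REC
import Pool.Agent.MU3.PX_ONE
import Pool.Agent.MU3.PX_PEX
import Pool.Agent.MU3.PX_SYL
import Pool.Agent.MU3.N_AMBA
import Pool.Agent.MU3.N_AMBI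
import Pool.Agent.MU3.N_NIL
import Pool.Agent.MU3.N_Q
import Pool.Agent.MU3.N_STEP
import Pool.Agent.RID.P_HERBQ
import Pool.Agent.RID.P_HQ1
import Pool.Agent.RID.P_HQ2
import Pool.Agent.RID.P_HQ3
import Pool.Agent.RID.P_RK1
import Pool.Agent.RID.P_RK2
import Pool.Agent.RID.P_RK3
import Pool.Agent.RID.P_CYC

/-!
# MU3, block P: all 14 statements, without hypotheses
-/

set_option autoImplicit false

namespace MU3

open Pool.Agent.RI Pool.Agent.RID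

theorem u_HERBQ : S_HERBQ := t_HERBQ t_HQ1 (t_HQ3 t_HQ1 t_HQ2)
theorem u_HQE : P_HQE := p_HQE u_HERBQ t_RK1 t_RK2 t_RK3 t_CYC
theorem u_H1P : P_H1P := p_H1P t_CYC
theorem u_CHEV : P_CHEV := p_CHEV n_AMBA n_AMBI u_HQE u_H1P
theorem u_RKA : P_RKA := p_RKA (n_NILR n_NIL)
theorem u_NPC : P_NPC := p_NPC
theorem u_NPL : P_NPL := p_NPL u_NPC
theorem u_BAD : P_BAD := p_BAD
theorem u_RKE : P_RKE := p_RKE u_CHEV u_RKA u_NPL u_BAD
theorem u_TOW : P_TOW := p_TOW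
theorem u_LST : P_LST := p_LST n_STEP u_TOW
theorem u_REC : P_REC := p_REC
theorem u_ONE : P_ONE := p_ONE u_RKE u_LST u_REC
theorem u_PEX : P_PEX := p_PEX u_ONE
theorem u_SYL : P_SYL := p_SYL

end MU3
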