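import Pool.Agent.MU3.StI

/-!
# MU3, block I, module ICHI (helper18)

Characters with values in the residue field: the reduction of the `e`-th roots of unity is bijective when `3` does not
divide `e`, and one coordinate form of the residue field over `ZMod 3` separates `Σ (χ δ)⁻¹ ⊗ χ δ` from zero.
-/

set_option autoImplicit false

namespace Pool.Agent.MU3I

noncomputable section

/-- a complex root of unity is a unit of `V` -/
theorem ichi_mem_unitGroup (V : ValuationSubring ℂ) {n : ℕ} (hn : n ≠ 0) {z : ℂˣ}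
    (hz : z ^ n = 1) : z ∈ V.unitGroup := by
  rw [ValuationSubring.mem_unitGroup_iff]
  have h : (V.valuation (z : ℂ)) ^ n = 1 := by
    rw [← map_pow, ← Units.val_pow_eq_pow_val, hz]
    simp
  rcases lt_trichotomy (V.valuation (z : ℂ)) 1 with h1 | h1 | h1
  · have := pow_lt_one₀ (zero_le : 0 ≤ V.valuation (z : ℂ)) h1 hn
    exact absurd h this.ne
  · exact h1
  · have := one_lt_pow₀ h1 hn
    exact absurd h this.ne'

/-- reduction of the `n`-th roots of unity -/
def ichiRed (V : ValuationSubring ℂ) (n : ℕ) (hn : n ≠ 0) :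
    rootsOfUnity n ℂ →* rootsOfUnity n (IsLocalRing.ResidueField V) :=
  (V.unitGroupToResidueFieldUnits.comp
    (Subgroup.inclusion (show rootsOfUnity n ℂ ≤ V.unitGroup from
      fun z hz => ichi_mem_unitGroup V hn hz))).codRestrict _ (fun z => by
        rw [mem_rootsOfUnity, ← map_pow]
        have : z ^ n = 1 := Subtype.ext z.2
        rw [this, map_one])

theorem ichiRed_coe (V : ValuationSubring ℂ) (n : ℕ) (hn : n ≠ 0) (z : rootsOfUnity n ℂ)
    (hz : ((z : ℂˣ) : ℂ) ∈ V) :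
    (((ichiRed V n hn z : (IsLocalRing.ResidueField V)ˣ)) : IsLocalRing.ResidueField V) =
      IsLocalRing.residue V ⟨((z : ℂˣ) : ℂ), hz⟩ := by
  rfl

theorem ichi_mem (V : ValuationSubring ℂ) {n : ℕ} (hn : n ≠ 0) (z : rootsOfUnity n ℂ) :
    ((z : ℂˣ) : ℂ) ∈ V := by
  have h := ichi_mem_unitGroup V hn z.2
  rw [ValuationSubring.mem_unitGroup_iff] at h
  exact (V.valuation_le_one_iff _).1 h.le

theorem ichi_char (V : ValuationSubring ℂ) (h3 : (3 : ℂ) ∈ V.nonunits) :
    CharP (IsLocalRing.ResidueField V) 3 := by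
  rw [CharP.charP_iff_prime_eq_zero Nat.prime_three]
  have h : ((3 : V) : ℂ) ∈ V.nonunits := h3
  rw [ValuationSubring.coe_mem_nonunits_iff] at h
  have h4 : IsLocalRing.residue V (3 : V) = 0 := (IsLocalRing.residue_eq_zero_iff _).2 h
  rw [map_ofNat] at h4
  exact_mod_cast h4

theorem ichi_ne (V : ValuationSubring ℂ) (h3 : (3 : ℂ) ∈ V.nonunits) (n : ℕ) (hn : ¬ 3 ∣ n) :
    (n : IsLocalRing.ResidueField V) ≠ 0 := by
  haveI := ichi_char V h3
  intro h
  exact hn ((CharP.cast_eq_zero_iff _ 3 n).1 h)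

theorem ichiRed_inj (V : ValuationSubring ℂ) (h3 : (3 : ℂ) ∈ V.nonunits) (n : ℕ) (hn : n ≠ 0)
    (h3n : ¬ 3 ∣ n) : Function.Injective (ichiRed V n hn) := by
  rw [injective_iff_map_eq_one]
  intro z hz
  by_contra hne
  have hzV := ichi_mem V hn z
  have h1 : IsLocalRing.residue V ⟨((z : ℂˣ) : ℂ), hzV⟩ = 1 := by
    rw [← ichiRed_coe V n hn z hzV, hz]
    rfl
  have hzn : ((z : ℂˣ) : ℂ) ^ n = 1 := by
    have := z.2
    rw [mem_rootsOfUnity] at this
    rw [← Units.val_pow_eq_pow_val, this]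
    rfl
  have hz1 : ((z : ℂˣ) : ℂ) ≠ 1 := by
    intro h
    apply hne
    apply Subtype.ext
    apply Units.ext
    exact h
  have hg : ∑ i ∈ Finset.range n, ((z : ℂˣ) : ℂ) ^ i = 0 := by
    have := mul_neg_geom_sum ((z : ℂˣ) : ℂ) n
    rw [hzn, sub_self] at this
    rcases mul_eq_zero.1 this with h | h
    · exact absurd (sub_eq_zero.1 h).symm hz1
    · exact h
  have hgV : ∑ i ∈ Finset.range n, (⟨((z : ℂˣ) : ℂ), hzV⟩ : V) ^ i = 0 := by
    apply Subtype.ext
    simp only [AddSubmonoidClass.coe_finsetSum, SubmonoidClass.coe_pow]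
    exact hg
  have := congrArg (IsLocalRing.residue V) hgV
  rw [map_sum, map_zero] at this
  simp only [map_pow, h1, one_pow, Finset.sum_const, Finset.card_range, nsmul_eq_mul,
    mul_one] at this
  exact ichi_ne V h3 n h3n this

theorem ichiRed_bij (V : ValuationSubring ℂ) (h3 : (3 : ℂ) ∈ V.nonunits) (n : ℕ) (hn : n ≠ 0)
    (h3n : ¬ 3 ∣ n) : Function.Bijective (ichiRed V n hn) := by
  haveI : NeZero n := ⟨hn⟩
  refine (ichiRed_inj V h3 n hn h3n).bijective_of_nat_card_le ?_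
  rw [Complex.card_rootsOfUnity n]
  exact card_rootsOfUnity _ n

/-- some linear form separates -/
theorem ichi_theta (V : ValuationSubring ℂ) (h3 : (3 : ℂ) ∈ V.nonunits) (Δ : Type) [Group Δ]
    [Fintype Δ] (h3n : ¬ 3 ∣ Fintype.card Δ) (χ : Δ →* (IsLocalRing.ResidueField V)ˣ) :
    ∃ θ : IsLocalRing.ResidueField V →+ ZMod 3,
      (∑ δ : Δ, ((θ ((χ δ)⁻¹ : (IsLocalRing.ResidueField V)ˣ)).val : IsLocalRing.ResidueField V) *
        ((χ δ : (IsLocalRing.ResidueField V)ˣ) : IsLocalRing.ResidueField V)) ≠ 0 := by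
  classical
  haveI := ichi_char V h3
  letI : Algebra (ZMod 3) (IsLocalRing.ResidueField V) := ZMod.algebra _ 3
  haveI : Fact (Nat.Prime 3) := ⟨Nat.prime_three⟩
  by_contra hcon
  push Not at hcon
  set b := Module.Basis.ofVectorSpace (ZMod 3) (IsLocalRing.ResidueField V) with hb
  have hval : ∀ (a : ZMod 3) (x : IsLocalRing.ResidueField V),
      ((a.val : ℕ) : IsLocalRing.ResidueField V) * x = a • x := by
    intro a x
    rw [Algebra.smul_def]
    congr 1
  apply ichi_ne V h3 _ h3n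
  set S : Finset _ := Finset.univ.biUnion fun δ : Δ =>
    (b.repr (((χ δ)⁻¹ : (IsLocalRing.ResidueField V)ˣ) : IsLocalRing.ResidueField V)).support
    with hS
  have hrep : ∀ δ : Δ, (((χ δ)⁻¹ : (IsLocalRing.ResidueField V)ˣ) : IsLocalRing.ResidueField V) =
      ∑ i ∈ S, (b.coord i (((χ δ)⁻¹ : (IsLocalRing.ResidueField V)ˣ) :
        IsLocalRing.ResidueField V)) • b i := by
    intro δ
    conv_lhs => rw [← b.linearCombination_repr
      (((χ δ)⁻¹ : (IsLocalRing.ResidueField V)ˣ) : IsLocalRing.ResidueField V)]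
    rw [Finsupp.linearCombination_apply, Finsupp.sum]
    refine Finset.sum_subset ?_ ?_
    · intro i hi
      rw [hS, Finset.mem_biUnion]
      exact ⟨δ, Finset.mem_univ _, hi⟩
    · intro i _ hi
      rw [Finsupp.notMem_support_iff] at hi
      rw [hi, zero_smul]
  calc ((Fintype.card Δ : ℕ) : IsLocalRing.ResidueField V)
      = ∑ δ : Δ, (((χ δ)⁻¹ : (IsLocalRing.ResidueField V)ˣ) : IsLocalRing.ResidueField V) *
          ((χ δ : (IsLocalRing.ResidueField V)ˣ) : IsLocalRing.ResidueField V) := by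
        simp
    _ = ∑ δ : Δ, (∑ i ∈ S, (b.coord i (((χ δ)⁻¹ : (IsLocalRing.ResidueField V)ˣ) :
          IsLocalRing.ResidueField V)) • b i) *
          ((χ δ : (IsLocalRing.ResidueField V)ˣ) : IsLocalRing.ResidueField V) := by
        refine Finset.sum_congr rfl fun δ _ => ?_
        rw [← hrep δ]
    _ = ∑ i ∈ S, b i * ∑ δ : Δ, (b.coord i (((χ δ)⁻¹ : (IsLocalRing.ResidueField V)ˣ) :
          IsLocalRing.ResidueField V)) •
          ((χ δ : (IsLocalRing.ResidueField V)ˣ) : IsLocalRing.ResidueField V) := by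
        simp_rw [Finset.sum_mul, Finset.mul_sum]
        rw [Finset.sum_comm]
        refine Finset.sum_congr rfl fun i _ => Finset.sum_congr rfl fun δ _ => ?_
        rw [smul_mul_assoc, mul_smul_comm]
    _ = 0 := by
        refine Finset.sum_eq_zero fun i _ => ?_
        have := hcon (b.coord i).toAddMonoidHom
        simp_rw [hval] at this
        rw [show (∑ δ : Δ, (b.coord i (((χ δ)⁻¹ : (IsLocalRing.ResidueField V)ˣ) :
          IsLocalRing.ResidueField V)) •
          ((χ δ : (IsLocalRing.ResidueField V)ˣ) : IsLocalRing.ResidueField V)) = 0 from this,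
          mul_zero]

theorem t_ICHI : St_ICHI := by
  intro V h3 Δ _ _ hcomm h3n χ
  obtain ⟨θ, hθ⟩ := ichi_theta V h3 Δ h3n χ
  have hn : Fintype.card Δ ≠ 0 := Fintype.card_ne_zero
  set n := Fintype.card Δ with hndef
  -- the character in the roots of unity of the residue field
  have hχ : ∀ δ, χ δ ∈ rootsOfUnity n (IsLocalRing.ResidueField V) := by
    intro δ
    rw [mem_rootsOfUnity, ← map_pow, hndef, pow_card_eq_one, map_one]
  let χ' : Δ →* rootsOfUnity n (IsLocalRing.ResidueField V) := χ.codRestrict _ hχ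
  let E : rootsOfUnity n ℂ ≃* rootsOfUnity n (IsLocalRing.ResidueField V) :=
    MulEquiv.ofBijective (ichiRed V n hn) (ichiRed_bij V h3 n hn h3n)
  refine ⟨(rootsOfUnity n ℂ).subtype.comp (E.symm.toMonoidHom.comp χ'), θ, ?_⟩
  intro hmem
  apply hθ
  have hV : ∀ δ : Δ, (((E.symm (χ' δ) : rootsOfUnity n ℂ) : ℂˣ) : ℂ) ∈ V := fun δ =>
    ichi_mem V hn _
  have hres : ∀ δ : Δ, IsLocalRing.residue V ⟨_, hV δ⟩ =
      ((χ δ : (IsLocalRing.ResidueField V)ˣ) : IsLocalRing.ResidueField V) := by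
    intro δ
    rw [← ichiRed_coe V n hn]
    have : ichiRed V n hn (E.symm (χ' δ)) = χ' δ := E.apply_symm_apply (χ' δ)
    rw [this]
    rfl
  have hsum : ((∑ δ : Δ, (((θ ((χ δ)⁻¹ : (IsLocalRing.ResidueField V)ˣ)).val : ℕ) : V) *
      (⟨_, hV δ⟩ : V) : V) : ℂ) ∈ V.nonunits := by
    rw [AddSubmonoidClass.coe_finsetSum]
    have he : ∀ δ : Δ, (((((θ ((χ δ)⁻¹ : (IsLocalRing.ResidueField V)ˣ)).val : ℕ) : V) *
      (⟨_, hV δ⟩ : V) : V) : ℂ) = ((θ ((χ δ)⁻¹ : (IsLocalRing.ResidueField V)ˣ)).val : ℂ) *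
        ((((rootsOfUnity n ℂ).subtype.comp (E.symm.toMonoidHom.comp χ')) δ : ℂˣ) : ℂ) := by
      intro δ
      rfl
    simp_rw [he]
    exact hmem
  rw [ValuationSubring.coe_mem_nonunits_iff] at hsum
  have h4 := (IsLocalRing.residue_eq_zero_iff _).2 hsum
  rw [map_sum] at h4
  simp only [map_mul, map_natCast, hres] at h4
  exact h4

end

end Pool.Agent.MU3I
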