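import Pool.Agent.MU3.StI2

/-!
# MU3, block I: the automorphism `γ` of `K_n / k` (IGAM)
-/

set_option autoImplicit false

namespace Pool.Agent.MU3I

open _root_.MU3 Pool.Agent.MU3 Pool.Agent.MU3A Pool.Agent.MU3B Pool.Agent.MU3C Pool.Agent.RI
  Pool.Agent.RID

namespace IGAM

/-! ### powers of `4` modulo powers of `3` -/

theorem four_pow (n : ℕ) : ∃ s : ℤ, (4 : ℤ) ^ 3 ^ n = 1 + 3 ^ (n + 1) * (1 + 3 * s) := by
  induction n with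
  | zero => exact ⟨0, by norm_num⟩
  | succ n ih =>
    obtain ⟨s, hs⟩ := ih
    refine ⟨s + 3 ^ n * (1 + 3 * s) ^ 2 + (3 ^ n) ^ 2 * (1 + 3 * s) ^ 3, ?_⟩
    rw [pow_succ 3 n, pow_mul, hs]
    ring

theorem four_pow_dvd (n : ℕ) : (3 : ℤ) ^ (n + 1) ∣ (4 : ℤ) ^ 3 ^ n - 1 := by
  obtain ⟨s, hs⟩ := four_pow n
  exact ⟨1 + 3 * s, by rw [hs]; ring⟩

theorem four_pow_one (i : ℕ) : ∃ v : ℤ, (4 : ℤ) ^ i = 1 + 3 * v := by
  induction i with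
  | zero => exact ⟨0, by norm_num⟩
  | succ i ih =>
    obtain ⟨v, hv⟩ := ih
    exact ⟨1 + 4 * v, by rw [pow_succ, hv]; ring⟩

theorem pow_four {c : ℤ} (hc : (3 : ℤ) ∣ c - 1) (n : ℕ) :
    ∃ i : ℕ, (3 : ℤ) ^ (n + 1) ∣ c - 4 ^ i := by
  induction n with
  | zero => exact ⟨0, by simpa using hc⟩
  | succ n ih =>
    obtain ⟨i, t, ht⟩ := ih
    obtain ⟨s, hs⟩ := four_pow n
    obtain ⟨v, hv⟩ := four_pow_one i
    have h3 : t % 3 = 0 ∨ t % 3 = 1 ∨ t % 3 = 2 := by omega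
    have hd := Int.emod_add_mul_ediv t 3
    rcases h3 with h3 | h3 | h3
    · refine ⟨i, t / 3, ?_⟩
      rw [ht]
      rw [h3] at hd
      rw [pow_succ 3 (n + 1)]
      linear_combination -((3 : ℤ) ^ (n + 1)) * hd
    · refine ⟨i + 3 ^ n, t / 3 - v - 4 ^ i * s, ?_⟩
      rw [pow_add, hs]
      rw [h3] at hd
      rw [pow_succ 3 (n + 1)]
      linear_combination ht - ((3 : ℤ) ^ (n + 1)) * hd - (3 : ℤ) ^ (n + 1) * hv
    · refine ⟨i + 3 ^ n * 2, t / 3 - 2 * v - 2 * 4 ^ i * s - 4 ^ i * 3 ^ n * (1 + 3 * s) ^ 2, ?_⟩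
      rw [pow_add, pow_mul, hs]
      rw [h3] at hd
      rw [pow_succ 3 (n + 1)]
      linear_combination ht - ((3 : ℤ) ^ (n + 1)) * hd - 2 * (3 : ℤ) ^ (n + 1) * hv

theorem pow_four' {c : ℤ} (hc : ¬ (3 : ℤ) ∣ c) (n : ℕ) :
    ∃ i : ℕ, (3 : ℤ) ^ (n + 1) ∣ c - 4 ^ i ∨ (3 : ℤ) ^ (n + 1) ∣ c + 4 ^ i := by
  have h3 : (3 : ℤ) ∣ c - 1 ∨ (3 : ℤ) ∣ -c - 1 := by omega
  rcases h3 with h3 | h3
  · obtain ⟨i, hi⟩ := pow_four h3 n
    exact ⟨i, Or.inl hi⟩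
  · obtain ⟨i, hi⟩ := pow_four h3 n
    refine ⟨i, Or.inr ?_⟩
    rw [← dvd_neg]
    have h4 : -(c + 4 ^ i) = -c - 4 ^ i := by ring
    rwa [h4]

/-! ### Galois theory -/

theorem restr {k F D : Type} [Field k] [Field F] [Field D] [Algebra k F] [Algebra k D]
    [Normal k D] (ι : D →ₐ[k] F) (σ : F ≃ₐ[k] F) :
    ∃ τ : D ≃ₐ[k] D, ∀ y, ι (τ y) = σ (ι y) := by
  let _ : Algebra D F := ι.toRingHom.toAlgebra
  have : IsScalarTower k D F := IsScalarTower.of_algebraMap_eq' (ι.comp_algebraMap.symm)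
  exact ⟨σ.restrictNormal D, fun y => AlgEquiv.restrictNormal_commutes σ D y⟩

theorem lft {k F D : Type} [Field k] [Field F] [Field D] [Algebra k F] [Algebra k D]
    [Normal k F] (ι : D →ₐ[k] F) (τ : D ≃ₐ[k] D) :
    ∃ σ : F ≃ₐ[k] F, ∀ y, σ (ι y) = ι (τ y) := by
  let _ : Algebra D F := ι.toRingHom.toAlgebra
  have : IsScalarTower k D F := IsScalarTower.of_algebraMap_eq' (ι.comp_algebraMap.symm)
  exact ⟨τ.liftNormal F, fun y => AlgEquiv.liftNormal_commutes τ F y⟩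

/-- two homomorphisms which agree on `K` and on `z` agree on `K(z)` -/
theorem eqD {K B D : IntermediateField ℚ ℂ} {z : ℂ} (hB : B = IntermediateField.adjoin ℚ {z})
    (hD : D = K ⊔ B) (φ ψ : D →+* ℂ) (h1 : ∀ y : D, (y : ℂ) ∈ K → φ y = ψ y) (hz : z ∈ D)
    (h2 : φ ⟨z, hz⟩ = ψ ⟨z, hz⟩) (y : D) : φ y = ψ y := by
  let S : IntermediateField ℚ ℂ :=
    { carrier := {y | ∃ hy : y ∈ D, φ ⟨y, hy⟩ = ψ ⟨y, hy⟩}
      mul_mem' := by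
        rintro a b ⟨ha, ha'⟩ ⟨hb, hb'⟩
        refine ⟨mul_mem ha hb, ?_⟩
        have h3 : (⟨a * b, mul_mem ha hb⟩ : D) = ⟨a, ha⟩ * ⟨b, hb⟩ := rfl
        rw [h3, map_mul, map_mul, ha', hb']
      one_mem' := ⟨one_mem D, by
        have h3 : (⟨1, one_mem D⟩ : D) = 1 := rfl
        rw [h3, map_one, map_one]⟩
      add_mem' := by
        rintro a b ⟨ha, ha'⟩ ⟨hb, hb'⟩
        refine ⟨add_mem ha hb, ?_⟩
        have h3 : (⟨a + b, add_mem ha hb⟩ : D) = ⟨a, ha⟩ + ⟨b, hb⟩ := rfl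
        rw [h3, map_add, map_add, ha', hb']
      zero_mem' := ⟨zero_mem D, by
        have h3 : (⟨0, zero_mem D⟩ : D) = 0 := rfl
        rw [h3, map_zero, map_zero]⟩
      algebraMap_mem' := by
        intro q
        refine ⟨D.algebraMap_mem q, ?_⟩
        have h3 : (⟨algebraMap ℚ ℂ q, D.algebraMap_mem q⟩ : D) = (q : D) := by
          apply Subtype.ext
          simp
        rw [h3, map_ratCast, map_ratCast]
      inv_mem' := by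
        rintro a ⟨ha, ha'⟩
        refine ⟨inv_mem ha, ?_⟩
        have h3 : (⟨a⁻¹, inv_mem ha⟩ : D) = (⟨a, ha⟩ : D)⁻¹ := rfl
        rw [h3, map_inv₀, map_inv₀, ha'] }
  have h3 : K ≤ S := by
    intro y hy
    have hy' : y ∈ D := by
      rw [hD]
      exact (le_sup_left : K ≤ K ⊔ B) hy
    exact ⟨hy', h1 ⟨y, hy'⟩ hy⟩
  have h4 : B ≤ S := by
    rw [hB, IntermediateField.adjoin_simple_le_iff]
    exact ⟨hz, h2⟩
  have h5 : D ≤ S := by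
    rw [hD]
    exact sup_le h3 h4
  obtain ⟨_, h6⟩ := h5 y.2
  exact h6


theorem resg {k : IntermediateField ℚ ℂ} (F0 F : IntermediateField k ℂ) [Normal k F0]
    (hle : F0 ≤ F) (σ : F ≃ₐ[k] F) : ∃ τ : F0 ≃ₐ[k] F0,
      ∀ (z : ℂ) (hz : z ∈ F0) (hz' : z ∈ F),
          ((σ ⟨z, hz'⟩ : F) : ℂ) = ((τ ⟨z, hz⟩ : F0) : ℂ) := by
  obtain ⟨τ, hτ⟩ := restr (IntermediateField.inclusion hle) σ
  refine ⟨τ, fun z hz hz' => ?_⟩
  exact (congrArg (fun t : F => (t : ℂ)) (hτ ⟨z, hz⟩)).symm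

/-- the automorphism `γ`, for general fields -/
theorem core {k : IntermediateField ℚ ℂ} (F : IntermediateField k ℂ) [IsGalois k F]
    (K Bn : IntermediateField ℚ ℂ) (n : ℕ) (ζ : ℂ) (hζ : IsPrimitiveRoot ζ (3 ^ (n + 1)))
    (hBn : Bn = IntermediateField.adjoin ℚ {ζ + ζ⁻¹}) (h : k ≤ K ⊔ Bn) (hkK : k ≤ K)
    (hDm : ∀ x ∈ K ⊔ Bn, x ∈ F) (hζm : ζ ∈ F) (σ : F ≃ₐ[k] F)
    (hσζ : ((σ ⟨ζ, hζm⟩ : F) : ℂ) = ζ ^ 4)
    (hσ0 : ∀ z ∈ K, ∀ hz' : z ∈ F, ((σ ⟨z, hz'⟩ : F) : ℂ) = z) :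
    letI := algC h
    ∀ _ : IsGalois k ↥(K ⊔ Bn), ∃ γ : ↥(K ⊔ Bn) ≃ₐ[k] ↥(K ⊔ Bn),
      (∀ x : ↥(K ⊔ Bn), γ x = x ↔ (x : ℂ) ∈ K) ∧ γ ^ 3 ^ n = 1 ∧
      (∀ hz : ζ + ζ⁻¹ ∈ K ⊔ Bn,
        ((γ ⟨_, hz⟩ : ↥(K ⊔ Bn)) : ℂ) = ζ ^ 4 + (ζ ^ 4)⁻¹) ∧
      (∀ σ : ↥(K ⊔ Bn) ≃ₐ[k] ↥(K ⊔ Bn),
        (∀ x : ↥(K ⊔ Bn), (x : ℂ) ∈ K → σ x = x) → ∃ i : ℕ, σ = γ ^ i) := by
  let _ := algC h
  intro hGal
  have hM0 : (3 : ℕ) ^ (n + 1) ≠ 0 := by positivity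
  have hζ0 : ζ ≠ 0 := hζ.ne_zero hM0
  have hζ1 : ζ ^ (3 ^ (n + 1)) = 1 := hζ.pow_eq_one
  -- the powers of `σ`
  have hσi : ∀ i : ℕ, (((σ ^ i) ⟨ζ, hζm⟩ : F) : ℂ) = ζ ^ (4 ^ i) := by
    intro i
    induction i with
    | zero => simp
    | succ i ih =>
      have h1 : (σ ^ i) ⟨ζ, hζm⟩ = (⟨ζ, hζm⟩ : F) ^ (4 ^ i) := Subtype.ext ih
      rw [pow_succ', AlgEquiv.mul_apply, h1, map_pow]
      show ((σ ⟨ζ, hζm⟩ : F) : ℂ) ^ 4 ^ i = _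
      rw [hσζ, ← pow_mul, pow_succ']
  -- `γ`
  let ι : ↥(K ⊔ Bn) →ₐ[k] F :=
    { toFun := fun y => ⟨y, hDm y y.2⟩
      map_one' := rfl
      map_mul' := fun _ _ => rfl
      map_zero' := rfl
      map_add' := fun _ _ => rfl
      commutes' := fun _ => rfl }
  obtain ⟨γ, hγ⟩ := restr ι σ
  have hγi : ∀ (i : ℕ) (y : ↥(K ⊔ Bn)), ι ((γ ^ i) y) = (σ ^ i) (ι y) := by
    intro i
    induction i with
    | zero => intro y; rfl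
    | succ i ih =>
      intro y
      rw [pow_succ', AlgEquiv.mul_apply, pow_succ', AlgEquiv.mul_apply, hγ, ih]
  have hγK : ∀ y : ↥(K ⊔ Bn), (y : ℂ) ∈ K → γ y = y := by
    intro y hy
    apply Subtype.ext
    have h1 := congrArg (fun t : F => (t : ℂ)) (hγ y)
    exact h1.trans (hσ0 y hy _)
  have hγiK : ∀ (i : ℕ) (y : ↥(K ⊔ Bn)), (y : ℂ) ∈ K → (γ ^ i) y = y := by
    intro i y hy
    induction i with
    | zero => rfl
    | succ i ih => rw [pow_succ', AlgEquiv.mul_apply, ih, hγK y hy]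
  have hzD : ζ + ζ⁻¹ ∈ K ⊔ Bn := by
    have h1 : ζ + ζ⁻¹ ∈ Bn := by
      rw [hBn]
      exact IntermediateField.mem_adjoin_simple_self ℚ _
    exact (le_sup_right : Bn ≤ K ⊔ Bn) h1
  have hγiz : ∀ i : ℕ, (((γ ^ i) ⟨ζ + ζ⁻¹, hzD⟩ : ↥(K ⊔ Bn)) : ℂ) =
      ζ ^ (4 ^ i) + (ζ ^ (4 ^ i))⁻¹ := by
    intro i
    have h1 := congrArg (fun t : F => (t : ℂ)) (hγi i ⟨ζ + ζ⁻¹, hzD⟩)
    refine h1.trans ?_
    have h2 : ι ⟨ζ + ζ⁻¹, hzD⟩ = (⟨ζ, hζm⟩ : F) + (⟨ζ, hζm⟩ : F)⁻¹ := rfl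
    show (((σ ^ i) (ι ⟨ζ + ζ⁻¹, hzD⟩) : F) : ℂ) = _
    rw [h2, map_add, map_inv₀]
    show (((σ ^ i) ⟨ζ, hζm⟩ : F) : ℂ) + (((σ ^ i) ⟨ζ, hζm⟩ : F) : ℂ)⁻¹ = _
    rw [hσi]
  -- two automorphisms which agree on `K` and on `ζ + ζ⁻¹` are equal
  have hext : ∀ τ τ' : ↥(K ⊔ Bn) ≃ₐ[k] ↥(K ⊔ Bn),
      (∀ y : ↥(K ⊔ Bn), (y : ℂ) ∈ K → τ y = τ' y) →
      τ ⟨ζ + ζ⁻¹, hzD⟩ = τ' ⟨ζ + ζ⁻¹, hzD⟩ → τ = τ' := by
    intro τ τ' h1 h2
    apply AlgEquiv.ext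
    intro y
    apply Subtype.ext
    exact eqD hBn rfl ((algebraMap ↥(K ⊔ Bn) ℂ).comp (τ : ↥(K ⊔ Bn) →+* ↥(K ⊔ Bn)))
      ((algebraMap ↥(K ⊔ Bn) ℂ).comp (τ' : ↥(K ⊔ Bn) →+* ↥(K ⊔ Bn)))
      (fun y hy => congrArg (fun t : ↥(K ⊔ Bn) => (t : ℂ)) (h1 y hy)) hzD
      (congrArg (fun t : ↥(K ⊔ Bn) => (t : ℂ)) h2) y
  have hgen : ∀ τ : ↥(K ⊔ Bn) ≃ₐ[k] ↥(K ⊔ Bn),
        (∀ x : ↥(K ⊔ Bn), (x : ℂ) ∈ K → τ x = x) → ∃ i : ℕ, τ = γ ^ i := by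
    intro τ hτ
    obtain ⟨σ', hσ'⟩ := lft ι τ
    obtain ⟨c, -, hc1, hc2⟩ : ∃ c < 3 ^ (n + 1), c.Coprime (3 ^ (n + 1)) ∧
        ζ ^ c = ((σ' ⟨ζ, hζm⟩ : F) : ℂ) := by
      have h1 : IsPrimitiveRoot ((σ' ⟨ζ, hζm⟩ : F) : ℂ) (3 ^ (n + 1)) := by
        have h2 : IsPrimitiveRoot (⟨ζ, hζm⟩ : F) (3 ^ (n + 1)) :=
          IsPrimitiveRoot.of_map_of_injective (f := algebraMap (F) ℂ) hζ
            (algebraMap (F) ℂ).injective
        have h3 := h2.map_of_injective (f := σ') σ'.injective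
        exact h3.map_of_injective (f := algebraMap (F) ℂ) (algebraMap (F) ℂ).injective
      exact hζ.isPrimitiveRoot_iff.1 h1
    have hc3 : ¬ (3 : ℤ) ∣ (c : ℤ) := by
      intro h1
      have h2 : 3 ∣ c := by exact_mod_cast h1
      have h3 := Nat.Coprime.eq_one_of_dvd (Nat.Coprime.coprime_dvd_left h2 hc1)
        (dvd_pow_self 3 (by omega))
      omega
    obtain ⟨i, hi⟩ := pow_four' hc3 n
    refine ⟨i, hext _ _ (fun y hy => (hτ y hy).trans (hγiK i y hy).symm) ?_⟩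
    apply Subtype.ext
    rw [hγiz i]
    have h1 := congrArg (fun t : F => (t : ℂ)) (hσ' ⟨ζ + ζ⁻¹, hzD⟩)
    refine h1.symm.trans ?_
    have h2 : ι ⟨ζ + ζ⁻¹, hzD⟩ = (⟨ζ, hζm⟩ : F) + (⟨ζ, hζm⟩ : F)⁻¹ := rfl
    show ((σ' (ι ⟨ζ + ζ⁻¹, hzD⟩) : F) : ℂ) = _
    rw [h2, map_add, map_inv₀]
    show ((σ' ⟨ζ, hζm⟩ : F) : ℂ) + ((σ' ⟨ζ, hζm⟩ : F) : ℂ)⁻¹ = _
    rw [← hc2]
    rcases hi with hi | hi
    · have h3 : ζ ^ c = ζ ^ (4 ^ i) := by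
        refine pow_eq_pow_of_modEq ?_ hζ1
        rw [Nat.modEq_iff_dvd, ← dvd_neg, neg_sub]
        push_cast
        exact hi
      rw [h3]
    · have h3 : ζ ^ c * ζ ^ (4 ^ i) = 1 := by
        rw [← pow_add]
        have h5 : ζ ^ (c + 4 ^ i) = ζ ^ 0 := by
          refine pow_eq_pow_of_modEq ?_ hζ1
          rw [Nat.modEq_iff_dvd, ← dvd_neg]
          push_cast
          have h4 : -(0 - ((c : ℤ) + 4 ^ i)) = c + 4 ^ i := by ring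
          rw [h4]
          exact hi
        rw [h5, pow_zero]
      have h4 : ζ ^ c = (ζ ^ (4 ^ i))⁻¹ := eq_inv_of_mul_eq_one_left h3
      rw [h4, inv_inv, add_comm]
  refine ⟨γ, ?_, ?_, ?_, hgen⟩
  · intro y
    refine ⟨fun hy => ?_, hγK y⟩
    let E : IntermediateField (k) ↥(K ⊔ Bn) :=
      { carrier := {t | (t : ℂ) ∈ K}
        mul_mem' := fun {a b} ha hb => mul_mem (S := IntermediateField ℚ ℂ) (s := K) ha hb
        one_mem' := one_mem K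
        add_mem' := fun {a b} ha hb => add_mem (S := IntermediateField ℚ ℂ) (s := K) ha hb
        zero_mem' := zero_mem K
        algebraMap_mem' := fun a => hkK a.2
        inv_mem' := fun a ha => inv_mem (S := IntermediateField ℚ ℂ) (s := K) ha }
    have h1 : y ∈ IntermediateField.fixedField E.fixingSubgroup := by
      rw [IntermediateField.mem_fixedField_iff]
      intro g hg
      have h2 : ∀ x : ↥(K ⊔ Bn), (x : ℂ) ∈ K → g x = x := fun x hx =>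
        (IntermediateField.mem_fixingSubgroup_iff E g).1 hg x hx
      obtain ⟨i, hi⟩ := hgen g h2
      rw [hi]
      clear hi
      induction i with
      | zero => rfl
      | succ i ih => rw [pow_succ, AlgEquiv.mul_apply, hy, ih]
    rw [InfiniteGalois.fixedField_fixingSubgroup] at h1
    exact h1
  · refine hext _ _ (fun y hy => hγiK _ y hy) ?_
    apply Subtype.ext
    rw [hγiz]
    have h1 : ζ ^ 4 ^ 3 ^ n = ζ ^ 1 := by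
      refine pow_eq_pow_of_modEq ?_ hζ1
      rw [Nat.modEq_iff_dvd, ← dvd_neg, neg_sub]
      push_cast
      exact four_pow_dvd n
    rw [h1, pow_one]
    rfl
  · intro hz
    have h1 := hγiz 1
    rw [pow_one, pow_one] at h1
    exact h1

variable {A B : ℤ}

theorem lev_ne {f : ℕ} (hf : f ≠ 0) (n : ℕ) : lev A B f n ≠ 0 := by
  intro h
  have h1 := congrArg QuadraticAlgebra.re h
  unfold lev at h1
  rw [QuadraticAlgebra.re_natCast] at h1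
  have h2 : ((f * 3 ^ (n + 1) : ℕ) : ℤ) = 0 := h1
  have h3 : f * 3 ^ (n + 1) ≠ 0 := by positivity
  exact h3 (by exact_mod_cast h2)

theorem nm_intCast (x : ℤ) : nm (x : OO A B) = x ^ 2 := by
  unfold nm
  simp

theorem exX {f : ℕ} (hf3 : ¬ 3 ∣ f) (n : ℕ) : ∃ x : ℤ, lev A B f 0 ∣ (x : OO A B) - 1 ∧
      (3 : ℤ) ^ (n + 1) ∣ x ^ 2 - 4 ∧ IsCoprime (x : OO A B) (lev A B f n) := by
  have hcop : IsCoprime (f : ℤ) ((3 : ℤ) ^ (n + 1)) := by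
    refine IsCoprime.pow_right ?_
    have h1 : Nat.Coprime f 3 := ((Nat.Prime.coprime_iff_not_dvd Nat.prime_three).2 hf3).symm
    exact_mod_cast Nat.isCoprime_iff_coprime.2 h1
  obtain ⟨u, v, huv⟩ := hcop
  have e0 : lev A B f 0 = (((f : ℤ) * 3 : ℤ) : OO A B) := by
    unfold lev
    push_cast
    rfl
  have e1 : lev A B f n = (((f : ℤ) * 3 ^ (n + 1) : ℤ) : OO A B) := by
    unfold lev
    push_cast
    rfl
  refine ⟨1 - 3 * u * f, ?_, ?_, ?_⟩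
  · have h1 : ((1 - 3 * u * (f : ℤ) : ℤ) : OO A B) - 1 = ((-(3 * u * (f : ℤ)) : ℤ) : OO A B) := by
      push_cast
      abel
    rw [e0, h1]
    exact Int.cast_dvd_cast _ _ ⟨-u, by ring⟩
  · refine ⟨3 * v * (-1 - 3 * u * f), ?_⟩
    linear_combination -3 * (-1 - 3 * u * (f : ℤ)) * huv
  · have h1 : IsCoprime (1 - 3 * u * (f : ℤ)) ((f : ℤ) * 3 ^ (n + 1)) := by
      refine IsCoprime.mul_right ⟨1, 3 * u, by ring⟩ (IsCoprime.pow_right ⟨1, u * f, by ring⟩)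
    rw [e1]
    exact h1.map (Int.castRingHom (OO A B))

/-- the identity acts as `1` -/
theorem act_one {L : PeriodPair} {Om : ℂ} (hT : TorA A B L Om) {m : OO A B} (hm : m ≠ 0) :
    Act L (em (1 : TF L m ≃ₐ[kk A B] TF L m)) m 1 := by
  obtain ⟨y, hy⟩ := hT.act m hm 1
  have h1 := hT.mul m hm 1 1 y y hy hy
  rw [one_mul] at h1
  have h2 := (hT.per m hm 1 y (y * y) hy).1 h1
  have h3 : m ∣ y * (1 - y) := by
    have : y * (1 - y) = y - y * y := by ring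
    rwa [this]
  have h4 : m ∣ 1 - y := hy.1.symm.dvd_of_dvd_mul_left h3
  refine (hT.per m hm 1 y 1 hy).2 ?_
  rw [← dvd_neg, neg_sub]
  exact h4

end IGAM

open IGAM

theorem t_IGAM (hIL : St_ILAY) : St_IGAM := by
  intro A B hc L Om hL hT f hf0 hf3 hCpl K hfinK hkK hKT n Bn hBn h
  let _ := algC h
  intro hGal
  have hBn' := hIL n Bn hBn
  set ζ : ℂ := zt (3 ^ (n + 1)) with hζdef
  have hM0 : (3 : ℕ) ^ (n + 1) ≠ 0 := by positivity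
  have hζ : IsPrimitiveRoot ζ (3 ^ (n + 1)) := Complex.isPrimitiveRoot_exp _ hM0
  have hζ0 : ζ ≠ 0 := hζ.ne_zero hM0
  have hζ1 : ζ ^ (3 ^ (n + 1)) = 1 := hζ.pow_eq_one
  have hm : lev A B f n ≠ 0 := lev_ne hf0 n
  have hm0 : lev A B f 0 ≠ 0 := lev_ne hf0 0
  have hdvd : lev A B f 0 ∣ lev A B f n := by
    unfold lev
    refine Nat.cast_dvd_cast ?_
    exact mul_dvd_mul_left f (pow_dvd_pow 3 (by omega))
  have hMm : ((3 ^ (n + 1) : ℕ) : OO A B) ∣ lev A B f n := by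
    unfold lev
    exact Nat.cast_dvd_cast (dvd_mul_left _ _)
  set m := lev A B f n with hmdef
  set m0 := lev A B f 0 with hm0def
  have hle : TF L m0 ≤ TF L m := hT.tower m0 m hm hdvd
  obtain ⟨hζm, hζact⟩ := hT.zeta m hm (3 ^ (n + 1)) hMm ζ hζ1
  -- `D ≤ TF L m`
  have hDm : ∀ x ∈ K ⊔ Bn, x ∈ TF L m := by
    have h1 : K ⊔ Bn ≤ (TF L m).restrictScalars ℚ := by
      refine sup_le (fun x hx => hle (hKT x hx)) ?_
      rw [hBn', IntermediateField.adjoin_simple_le_iff]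
      exact add_mem hζm (inv_mem hζm)
    exact fun x hx => h1 hx
  refine ⟨hDm, ?_⟩
  -- the integer `x`
  obtain ⟨x, hx1, hx2, hx3⟩ := exX (A := A) (B := B) hf3 n
  -- restriction to `TF L m0`
  have hgal0 : IsGalois (kk A B) (TF L m0) := hT.gal m0 hm0
  have hgalm : IsGalois (kk A B) (TF L m) := hT.gal m hm
  have hres : ∀ (σ : TF L m ≃ₐ[kk A B] TF L m) (y : OO A B), Act L (em σ) m y →
      ∃ τ : TF L m0 ≃ₐ[kk A B] TF L m0, Act L (em τ) m0 y ∧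
        ∀ (z : ℂ) (hz : z ∈ TF L m0) (hz' : z ∈ TF L m),
          ((σ ⟨z, hz'⟩ : TF L m) : ℂ) = ((τ ⟨z, hz⟩ : TF L m0) : ℂ) := by
    intro σ y hy
    obtain ⟨τ, h1⟩ := resg (TF L m0) (TF L m) hle σ
    exact ⟨τ, hT.res m0 m hm hdvd σ τ y hy h1, h1⟩
  -- `σ`
  obtain ⟨σ, hσ⟩ : ∃ σ : TF L m ≃ₐ[kk A B] TF L m, Act L (em σ) m (x : OO A B) := by
    by_contra hno
    have h1 : ∃ σ : TF L m ≃ₐ[kk A B] TF L m, Act L (em σ) m (-(x : OO A B)) := by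
      by_contra h2
      exact hno ((hCpl n _ hx3).2 h2)
    obtain ⟨σ, hσ⟩ := h1
    obtain ⟨τ, hτ, -⟩ := hres σ _ hσ
    have h2 : Act L (em τ) m0 (-1 : OO A B) := by
      refine (hT.per m0 hm0 τ _ _ hτ).2 ?_
      have h3 : -(x : OO A B) - -1 = -((x : OO A B) - 1) := by ring
      rw [h3, dvd_neg]
      exact hx1
    exact (hCpl 0 1 isCoprime_one_left).1 ⟨1, act_one hT hm0⟩ ⟨τ, h2⟩
  -- `σ` is trivial on `TF L m0`
  have hσ0 : ∀ (z : ℂ) (_ : z ∈ TF L m0) (hz' : z ∈ TF L m), ((σ ⟨z, hz'⟩ : TF L m) : ℂ) = z := by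
    obtain ⟨τ, hτ, hτ'⟩ := hres σ _ hσ
    have h2 : Act L (em τ) m0 (1 : OO A B) := (hT.per m0 hm0 τ _ _ hτ).2 hx1
    have h3 : τ = 1 := hT.inj m0 hm0 τ 1 1 h2 (act_one hT hm0)
    intro z hz hz'
    rw [hτ' z hz hz', h3]
    rfl
  -- `σ ζ = ζ^4`
  have hσζ : ((σ ⟨ζ, hζm⟩ : TF L m) : ℂ) = ζ ^ 4 := by
    rw [hζact σ _ hζm hσ, nm_intCast]
    refine pow_eq_pow_of_modEq ?_ hζ1
    rw [Nat.modEq_iff_dvd, Int.toNat_of_nonneg (sq_nonneg x), ← dvd_neg]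
    have h1 : -(((4 : ℕ) : ℤ) - x ^ 2) = x ^ 2 - 4 := by push_cast; ring
    rw [h1]
    exact_mod_cast hx2
  exact core (TF L m) K Bn n ζ hζ hBn' h hkK hDm hζm σ hσζ (fun z hz hz' => hσ0 z (hKT z hz) hz') hGal

end Pool.Agent.MU3I
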