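import Mathlib

/-! # MU3, block A2, part 1: power series with coefficients in a subring, congruences

`O` is a commutative ring, `K` a field of characteristic zero, `O → K` the structure map.
Everything here is formal: no completion, no formal group law. -/

namespace Pool.Agent.MU3A2

open PowerSeries

section Basic

variable {S : Type*} [CommRing S]

/-- a power series all of whose coefficients are multiples of `ϖ` is a multiple of `ϖ`. -/
theorem eq_C_mul_of_coeff {ϖ : S} {F : S⟦X⟧} (h : ∀ n, ∃ c, coeff n F = ϖ * c) :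
    ∃ E : S⟦X⟧, F = C ϖ * E := by
  choose c hc using h
  exact ⟨PowerSeries.mk c, by ext n; simp [hc]⟩

theorem constantCoeff_map' {R : Type*} [CommRing R] (f : S →+* R) (A : S⟦X⟧) :
    constantCoeff (map f A) = f (constantCoeff A) := by
  rw [← coeff_zero_eq_constantCoeff_apply, coeff_map, coeff_zero_eq_constantCoeff_apply]

theorem constantCoeff_pow_zero {b : S⟦X⟧} (hb : constantCoeff b = 0) {d e : ℕ} (h : e < d) :
    coeff e (b ^ d) = 0 := by
  apply coeff_of_lt_order
  refine lt_of_lt_of_le ?_ (le_order_pow_of_constantCoeff_eq_zero d hb)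
  exact_mod_cast h

/-- the coefficients of a substitution as a finite sum -/
theorem coeff_subst_range {b : S⟦X⟧} (hb : constantCoeff b = 0) (f : S⟦X⟧) (e : ℕ) :
    coeff e (f.subst b) = ∑ n ∈ Finset.range (e + 1), coeff n f * coeff e (b ^ n) := by
  rw [coeff_subst' (HasSubst.of_constantCoeff_zero' hb)]
  rw [finsum_eq_sum_of_support_subset (s := Finset.range (e + 1))]
  · simp [smul_eq_mul]
  · intro n hn
    simp only [Function.mem_support, smul_eq_mul] at hn
    simp only [Finset.coe_range, Set.mem_Iio]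
    by_contra h
    exact hn (by rw [constantCoeff_pow_zero hb (by omega), mul_zero])

/-- `(B + ϖ C)^n - B^n` is divisible by `n ϖ` when `ϖ ^ k` is divisible by `k ϖ` for all `k`. -/
theorem pow_sub_pow_div {ϖ : S} (hdiv : ∀ n : ℕ, 1 ≤ n → ∃ c : S, ϖ ^ n = n * (ϖ * c))
    {A B D : S} (hA : A = B + ϖ * D) (n : ℕ) : ∃ E : S, A ^ n - B ^ n = n * (ϖ * E) := by
  rcases Nat.eq_zero_or_pos n with rfl | hn
  · exact ⟨0, by simp⟩
  obtain ⟨m, rfl⟩ : ∃ m, n = m + 1 := ⟨n - 1, by omega⟩
  choose c hc using fun k : ℕ => hdiv (k + 1) (by omega)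
  refine ⟨∑ k ∈ Finset.range (m + 1), (m.choose k : S) * c k * D ^ (k + 1) * B ^ (m - k), ?_⟩
  rw [hA, add_comm B, add_pow, Finset.sum_range_succ']
  simp only [pow_zero, one_mul, Nat.sub_zero, Nat.choose_zero_right, Nat.cast_one, mul_one,
    add_sub_cancel_right]
  rw [Finset.mul_sum, Finset.mul_sum]
  refine Finset.sum_congr rfl fun k hk => ?_
  have hch : ((k + 1 : ℕ) : S) * ((m + 1).choose (k + 1) : S) = ((m + 1 : ℕ) : S) * (m.choose k : S) := by
    have := Nat.add_one_mul_choose_eq m k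
    rw [← Nat.cast_mul, ← Nat.cast_mul, this, mul_comm]
  have h1 : m + 1 - (k + 1) = m - k := by omega
  rw [mul_pow, hc k, h1]
  linear_combination (ϖ * c k * D ^ (k + 1) * B ^ (m - k)) * hch

end Basic

section Congr

variable {O K : Type*} [CommRing O] [Field K] [Algebra O K]

/-- K1: a series with integral derivative respects congruences modulo `ϖ`. -/
theorem subst_congr {ϖ : O} (hdiv : ∀ n : ℕ, 1 ≤ n → ∃ c : O, ϖ ^ n = n * (ϖ * c))
    {l : K⟦X⟧} (hl : ∀ n : ℕ, ∃ a : O, (n : K) * coeff n l = algebraMap O K a)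
    {A B D : O⟦X⟧} (hA : constantCoeff A = 0) (hB : constantCoeff B = 0)
    (hAB : A = B + C ϖ * D) :
    ∃ E : O⟦X⟧, l.subst (map (algebraMap O K) A) - l.subst (map (algebraMap O K) B)
      = map (algebraMap O K) (C ϖ * E) := by
  have hdiv' : ∀ n : ℕ, 1 ≤ n → ∃ c : O⟦X⟧, (C ϖ : O⟦X⟧) ^ n = n * (C ϖ * c) := by
    intro n hn
    obtain ⟨c, hc⟩ := hdiv n hn
    refine ⟨C c, ?_⟩
    rw [← map_pow, hc]
    simp
  choose E hE using fun n => pow_sub_pow_div hdiv' hAB n
  choose a ha using hl
  refine ⟨PowerSeries.mk fun e => ∑ n ∈ Finset.range (e + 1), a n * coeff e (E n), ?_⟩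
  ext e
  rw [map_sub, coeff_subst_range (by rw [constantCoeff_map', hA, map_zero]),
    coeff_subst_range (by rw [constantCoeff_map', hB, map_zero]), ← Finset.sum_sub_distrib]
  simp only [map_mul, map_C, coeff_C_mul, coeff_map, coeff_mk, map_sum, Finset.mul_sum]
  refine Finset.sum_congr rfl fun n _ => ?_
  have h1 : coeff e (map (algebraMap O K) A ^ n) - coeff e (map (algebraMap O K) B ^ n)
      = (n : K) * (algebraMap O K ϖ * algebraMap O K (coeff e (E n))) := by
    rw [← map_pow, ← map_pow, coeff_map, coeff_map, ← map_sub, ← map_sub, hE n]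
    have : coeff e ((n : O⟦X⟧) * (C ϖ * E n)) = (n : O) * (ϖ * coeff e (E n)) := by
      rw [show (n : O⟦X⟧) = C (n : O) by simp, coeff_C_mul, coeff_C_mul]
    rw [this]
    simp
  rw [← mul_sub, h1, ← ha n]
  ring

end Congr

section Frob

variable {O : Type*} [CommRing O]

theorem exists_of_map_mk_eq_zero {ϖ : O} {F : O⟦X⟧}
    (h : map (Ideal.Quotient.mk (Ideal.span {ϖ})) F = 0) : ∃ E : O⟦X⟧, F = C ϖ * E := by
  refine eq_C_mul_of_coeff fun n => ?_
  have := congrArg (coeff n) h
  rw [coeff_map, map_zero, Ideal.Quotient.eq_zero_iff_mem, Ideal.mem_span_singleton] at this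
  exact this

/-- K2: the Frobenius congruence for power series. -/
theorem expand_congr {ϖ : O} {p f q : ℕ} (hp : p.Prime) (hq : q = p ^ f) (hq0 : q ≠ 0)
    (hpϖ : ∃ u : O, (p : O) = ϖ * u) {σ : O →+* O} (hσ : ∀ a, ∃ b, σ a = a ^ q + ϖ * b)
    (V : O⟦X⟧) : ∃ E : O⟦X⟧, V ^ q = expand q hq0 (map σ V) + C ϖ * E := by
  classical
  set I : Ideal O := Ideal.span {ϖ} with hI
  set mk := Ideal.Quotient.mk I with hmk
  suffices h : map mk (V ^ q - expand q hq0 (map σ V)) = 0 by
    obtain ⟨E, hE⟩ := exists_of_map_mk_eq_zero h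
    exact ⟨E, by rw [← hE]; ring⟩
  by_cases hnt : Nontrivial (O ⧸ I)
  · have hp0 : (p : O ⧸ I) = 0 := by
      obtain ⟨u, hu⟩ := hpϖ
      have : mk (p : O) = 0 := by
        rw [hmk, Ideal.Quotient.eq_zero_iff_mem, hI, Ideal.mem_span_singleton]
        exact ⟨u, hu⟩
      simpa using this
    have hchar : CharP (O ⧸ I) p := by
      exact ringChar.of_eq (CharP.ringChar_of_prime_eq_zero hp hp0)
    have _ : Fact p.Prime := ⟨hp⟩
    have _ : ExpChar (O ⧸ I) p := ExpChar.prime hp
    have key := MvPowerSeries.map_iterateFrobenius_expand (σ := Unit) (R := O ⧸ I) p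
      (Nat.Prime.ne_zero hp) (map mk V) f
    have h2 : map mk (map σ V) = map (iterateFrobenius (O ⧸ I) p f) (map mk V) := by
      ext n
      simp only [coeff_map]
      obtain ⟨b, hb⟩ := hσ (coeff n V)
      rw [hb, map_add, map_pow, map_mul, iterateFrobenius_def, hq]
      have : mk ϖ = 0 := by
        rw [hmk, Ideal.Quotient.eq_zero_iff_mem, hI]; exact Ideal.mem_span_singleton_self ϖ
      rw [this, zero_mul, add_zero]
    rw [map_sub, map_pow, map_expand, h2, sub_eq_zero]
    subst hq
    rw [← map_expand]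
    exact key.symm
  · rw [not_nontrivial_iff_subsingleton] at hnt
    ext n
    exact Subsingleton.elim _ _

end Frob

end Pool.Agent.MU3A2
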