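import Mathlib

/-!
# MU3, block B: definitions (analysis on the torus `ℂ / L`)

`L : PeriodPair` is a lattice of Mathlib (no complex multiplication here), `L.lattice` its
`ℤ`-submodule of `ℂ`. Conventions: `A` = area, `⟨w, z⟩ = exp ((π / A) (w̄ z - w z̄))`.
-/

set_option autoImplicit false

namespace Pool.Agent.MU3B

open Complex Real
open scoped ComplexConjugate

noncomputable section

/-- area of the torus -/
def area (L : PeriodPair) : ℝ := |(conj L.ω₁ * L.ω₂).im|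

/-- `⟨w, z⟩ = exp ((π / A) (w̄ z - w z̄))`, a number of absolute value one -/
def pr (L : PeriodPair) (w z : ℂ) : ℂ :=
  Complex.exp (((π / area L : ℝ) : ℂ) * (conj w * z - w * conj z))

/-- theta series `Θ_t(z) = ∑_w ⟨w, z⟩ exp (- π t |w|² / A)` -/
def Th (L : PeriodPair) (t : ℝ) (z : ℂ) : ℂ :=
  ∑' w : L.lattice, pr L w z * (Real.exp (-(π * t * ‖(w : ℂ)‖ ^ 2 / area L)) : ℝ)

/-- Gaussian sum `∑_w exp (- π |z + w|² / (A t))` -/
def Gs (L : PeriodPair) (t : ℝ) (z : ℂ) : ℝ :=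
  ∑' w : L.lattice, Real.exp (-(π * ‖z + w‖ ^ 2 / (area L * t)))

/-- exponential integral `∫_x^∞ exp (-u) du / u` -/
def expI (x : ℝ) : ℝ := ∫ u in Set.Ioi x, Real.exp (-u) / u

/-- the function `φ(z) = 1 - (A / π) ∑'_{w ≠ 0} ⟨w, z⟩ |w|⁻² exp (- π |w|² / A) - ∑_w expI (π |z + w|² / A)`
(equal to `- ∫_0^∞ (Θ_t(z) - 1) dt`); the term `w = 0` of the first sum is zero in Lean -/
def phi (L : PeriodPair) (z : ℂ) : ℝ :=
  1 - (area L / π) * (∑' w : L.lattice, pr L w z / (‖(w : ℂ)‖ ^ 2 : ℝ) *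
    (Real.exp (-(π * ‖(w : ℂ)‖ ^ 2 / area L)) : ℝ)).re -
    ∑' w : L.lattice, expI (π * ‖z + w‖ ^ 2 / area L)

/-- the function `e = E₁*`:
`e(z) = ∑_w exp (- π |z + w|² / A) / (z + w) - ∑_{w ≠ 0} ⟨w, z⟩ exp (- π |w|² / A) / w`; the term
`w = 0` of the second sum is zero in Lean -/
def ee (L : PeriodPair) (z : ℂ) : ℂ :=
  (∑' w : L.lattice, (Real.exp (-(π * ‖z + w‖ ^ 2 / area L)) : ℝ) / (z + w)) -
    ∑' w : L.lattice, pr L w z * (Real.exp (-(π * ‖(w : ℂ)‖ ^ 2 / area L)) : ℝ) / w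

/-- `e(z) + (π / A) z̄`, holomorphic outside the lattice -/
def zet (L : PeriodPair) (z : ℂ) : ℂ := ee L z + ((π / area L : ℝ) : ℂ) * conj z

/-- `F_s(z) = ∑_{w ≠ 0} ⟨w, z⟩ |w|^(-2 s)` for real `s > 1` -/
def Fs (L : PeriodPair) (s : ℝ) (z : ℂ) : ℂ :=
  ∑' w : L.lattice, if (w : ℂ) = 0 then 0 else pr L w z * ((‖(w : ℂ)‖ ^ (-2 * s) : ℝ) : ℂ)

/-- the real linear form `h ↦ Re (c h)` -/
def Dre (c : ℂ) : ℂ →L[ℝ] ℝ :=
  Complex.reCLM.comp ((ContinuousLinearMap.mul ℝ ℂ) c)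

/-- representatives of the nonzero classes of `a⁻¹ L / L`: a finite set `R` of points of `a⁻¹ L`
not in `L`, pairwise incongruent modulo `L`, which represents all nonzero classes -/
structure IsReps (L : PeriodPair) (a : ℂ) (R : Finset ℂ) : Prop where
  mem : ∀ q ∈ R, a * q ∈ L.lattice
  ne : ∀ q ∈ R, q ∉ L.lattice
  inj : ∀ q ∈ R, ∀ q' ∈ R, q - q' ∈ L.lattice → q = q'
  surj : ∀ z : ℂ, a * z ∈ L.lattice → z ∉ L.lattice → ∃ q ∈ R, z - q ∈ L.lattice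

/-- `∏ (℘(z) - ℘(q))` over the nonzero classes of `a⁻¹ L / L` (the square of the usual function) -/
def Theta (L : PeriodPair) (R : Finset ℂ) (z : ℂ) : ℂ :=
  ∏ q ∈ R, (L.weierstrassP z - L.weierstrassP q)

end

end Pool.Agent.MU3B
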