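import Pool.Agent.MU3.Base
import Pool.Agent.MU3.BDefs

/-!
# MU3, block A: definitions (the curve with complex multiplication by `O`)

Explicit curve `y² = x³ + a₂ x² + a₄ x + a₆` over `k = ℚ(w)`:
* `(A, B) = (-2, 0)`: `a₂ = 4`, `a₄ = 2`, `a₆ = 0`;
* `(A, B) = (-3, 1)`: `a₂ = δ`, `a₄ = -3`, `a₆ = -δ/4`, `δ = 2 w - 1 = √-11`.
`IsCM A B L Om`: the lattice `L` is `Om * emb O` and has the invariants of this curve;
`xx z = ℘ z - a₂/3`, `yy z = ℘' z / 2`.
-/

set_option autoImplicit false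

namespace Pool.Agent.MU3A

open MU3 Pool.Agent.MU3B Polynomial

noncomputable section

/-- `k = ℚ(w)` inside the complex numbers -/
abbrev kk (A B : ℤ) : IntermediateField ℚ ℂ := IntermediateField.adjoin ℚ {wC A B}

lemma wC_mem (A B : ℤ) : wC A B ∈ kk A B :=
  IntermediateField.subset_adjoin ℚ _ (Set.mem_singleton _)

lemma emb_mem {A B : ℤ} (x : OO A B) : emb x ∈ kk A B :=
  add_mem (intCast_mem _ _) (mul_mem (intCast_mem _ _) (wC_mem A B))

/-- an element of `O` as an element of `k` -/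
def ek {A B : ℤ} (x : OO A B) : kk A B := ⟨emb x, emb_mem x⟩

/-- the coefficient `a₂` -/
def a2 (A B : ℤ) : OO A B := if B = 0 then 4 else ⟨-1, 2⟩

/-- the coefficient `a₄` -/
def a4 (A B : ℤ) : OO A B := if B = 0 then 2 else -3

/-- four times the coefficient `a₆` -/
def a6 (A B : ℤ) : OO A B := if B = 0 then 0 else ⟨1, -2⟩

/-- the curve, over `k` -/
def EE (A B : ℤ) : WeierstrassCurve (kk A B) :=
  ⟨0, ek (a2 A B), 0, ek (a4 A B), ek (a6 A B) / 4⟩

/-- the cubic polynomial `x³ + a₂ x² + a₄ x + a₆`, over `k` -/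
def cub (A B : ℤ) : (kk A B)[X] :=
  X ^ 3 + C (ek (a2 A B)) * X ^ 2 + C (ek (a4 A B)) * X + C (ek (a6 A B) / 4)

/-- `x = ℘ - a₂/3` -/
def xx (A B : ℤ) (L : PeriodPair) (z : ℂ) : ℂ := L.weierstrassP z - emb (a2 A B) / 3

/-- `y = ℘'/2` -/
def yy (L : PeriodPair) (z : ℂ) : ℂ := L.derivWeierstrassP z / 2

/-- `L = Om * emb O` -/
structure IsLat (A B : ℤ) (L : PeriodPair) (Om : ℂ) : Prop where
  Om_ne : Om ≠ 0
  mem : ∀ z : ℂ, z ∈ L.lattice ↔ ∃ x : OO A B, z = Om * emb x

/-- the normal form: `L = Om * emb O` and `g₂`, `g₃` are those of the explicit curve -/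
structure IsCM (A B : ℤ) (L : PeriodPair) (Om : ℂ) : Prop extends IsLat A B L Om where
  g2 : L.g₂ = -4 * (emb (a4 A B) - emb (a2 A B) ^ 2 / 3)
  g3 : L.g₃ = -4 * (emb (a6 A B) / 4 + 2 * (emb (a2 A B) / 3) ^ 3 -
    emb (a4 A B) * (emb (a2 A B) / 3))

/-- the field `F_m = k(E[m])` -/
def TF {A B : ℤ} (L : PeriodPair) (m : OO A B) : IntermediateField (kk A B) ℂ :=
  IntermediateField.adjoin (kk A B) {c | ∃ z : ℂ, emb m * z ∈ L.lattice ∧ z ∉ L.lattice ∧
    (c = xx A B L z ∨ c = yy L z)}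

/-- the field `k(x(E[m]))` -/
def XF {A B : ℤ} (L : PeriodPair) (m : OO A B) : IntermediateField (kk A B) ℂ :=
  IntermediateField.adjoin (kk A B) {c | ∃ z : ℂ, emb m * z ∈ L.lattice ∧ z ∉ L.lattice ∧
    c = xx A B L z}

/-- the embedding `σ` of `F` acts on `E[m]` as multiplication by `a` (meaningful for
`TF L m ≤ F`) -/
def Act {A B : ℤ} (L : PeriodPair) {F : IntermediateField (kk A B) ℂ} (σ : F →ₐ[kk A B] ℂ)
    (m a : OO A B) : Prop :=
  IsCoprime a m ∧ ∀ z : ℂ, emb m * z ∈ L.lattice → z ∉ L.lattice →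
    emb a * z ∉ L.lattice ∧
    (∀ hx : xx A B L z ∈ F, σ ⟨xx A B L z, hx⟩ = xx A B L (emb a * z)) ∧
    ∀ hy : yy L z ∈ F, σ ⟨yy L z, hy⟩ = yy L (emb a * z)

/-- an automorphism of `F / k` as an embedding into `ℂ` -/
def em {A B : ℤ} {F : IntermediateField (kk A B) ℂ} (σ : F ≃ₐ[kk A B] F) : F →ₐ[kk A B] ℂ :=
  F.val.comp σ.toAlgHom

/-- `σ` is a Frobenius automorphism of `F / k` for the valuation ring `V` and the prime number
`q` (the residue field of `k` has `q` elements) -/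
def IsFrV {A B : ℤ} {F : IntermediateField (kk A B) ℂ} (V : ValuationSubring ℂ) (q : ℕ)
    (σ : F ≃ₐ[kk A B] F) : Prop :=
  ∀ x : F, (x : ℂ) ∈ V → (σ x : ℂ) - (x : ℂ) ^ q ∈ V.nonunits

/-- `lam` has norm `3` and multiplication by `lam` is given by
`x ↦ (x³ + n₂ x² + n₁ x + n₀)/(lam x + d₀)²`, `y ↦ y (x³ + m₂ x² + m₁ x + m₀)/(lam x + d₀)³` -/
structure Iso3 {A B : ℤ} (L : PeriodPair) (lam d0 n2 n1 n0 m2 m1 m0 : OO A B) : Prop where
  ker : ∀ z, z ∉ L.lattice → (emb lam * z ∈ L.lattice ↔ emb lam * xx A B L z + emb d0 = 0)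
  x : ∀ z, emb lam * z ∉ L.lattice → xx A B L (emb lam * z) * (emb lam * xx A B L z + emb d0) ^ 2 =
    xx A B L z ^ 3 + emb n2 * xx A B L z ^ 2 + emb n1 * xx A B L z + emb n0
  y : ∀ z, emb lam * z ∉ L.lattice → yy L (emb lam * z) * (emb lam * xx A B L z + emb d0) ^ 3 =
    yy L z * (xx A B L z ^ 3 + emb m2 * xx A B L z ^ 2 + emb m1 * xx A B L z + emb m0)

/-- `z` is zero or in the kernel of reduction at `V` -/
def InE1 (A B : ℤ) (V : ValuationSubring ℂ) (L : PeriodPair) (z : ℂ) : Prop :=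
  z ∈ L.lattice ∨ xx A B L z ∉ V

/-! ### Elementary facts -/

section
variable {A B : ℤ}

lemma emb_mul (h : Case A B) (x y : OO A B) : emb (x * y) = emb x * emb y := by
  simpa only [embHom_apply] using map_mul (embHom h) x y

lemma emb_add (h : Case A B) (x y : OO A B) : emb (x + y) = emb x + emb y := by
  simpa only [embHom_apply] using map_add (embHom h) x y

lemma emb_neg (h : Case A B) (x : OO A B) : emb (-x) = -emb x := by
  simpa only [embHom_apply] using map_neg (embHom h) x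

lemma emb_sub (h : Case A B) (x y : OO A B) : emb (x - y) = emb x - emb y := by
  simpa only [embHom_apply] using map_sub (embHom h) x y

lemma emb_one (h : Case A B) : emb (1 : OO A B) = 1 := by
  simpa only [embHom_apply] using map_one (embHom h)

lemma emb_zero (h : Case A B) : emb (0 : OO A B) = 0 := by
  simpa only [embHom_apply] using map_zero (embHom h)

lemma emb_natCast (h : Case A B) (n : ℕ) : emb (n : OO A B) = n := by
  simpa only [embHom_apply] using map_natCast (embHom h) n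

lemma emb_intCast (h : Case A B) (n : ℤ) : emb (n : OO A B) = n := by
  simpa only [embHom_apply] using map_intCast (embHom h) n

lemma emb_w : emb (⟨0, 1⟩ : OO A B) = wC A B := by simp [emb]

lemma absD_pos (h : Case A B) : 0 < absD A B := by
  rcases h with ⟨rfl, rfl⟩ | ⟨rfl, rfl⟩ <;> norm_num [absD]

lemma wC_im_pos (h : Case A B) : 0 < (wC A B).im := by
  have h1 : (0 : ℝ) < Real.sqrt (absD A B) := Real.sqrt_pos.2 (by exact_mod_cast absD_pos h)
  have h2 : (wC A B).im = Real.sqrt (absD A B) / 2 := by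
    simp [wC, Complex.add_im, Complex.mul_im]
  rw [h2]; positivity

lemma emb_inj (h : Case A B) {x y : OO A B} (hxy : emb x = emb y) : x = y := by
  have h1 := congrArg Complex.im hxy
  have h2 := congrArg Complex.re hxy
  simp only [emb, Complex.add_im, Complex.mul_im, Complex.intCast_im, Complex.intCast_re,
    zero_mul, add_zero, zero_add, Complex.add_re, Complex.mul_re, sub_zero] at h1 h2
  have h3 : (x.im : ℝ) = y.im := mul_right_cancel₀ (wC_im_pos h).ne' h1
  rw [h3] at h2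
  have h4 : (x.re : ℝ) = y.re := add_right_cancel h2
  exact QuadraticAlgebra.ext (by exact_mod_cast h4) (by exact_mod_cast h3)

lemma emb_ne_zero (h : Case A B) {x : OO A B} (hx : x ≠ 0) : emb x ≠ 0 := fun h0 =>
  hx (emb_inj h (h0.trans (emb_zero h).symm))

lemma wC_ne_zero (h : Case A B) : wC A B ≠ 0 := fun h0 => by
  have := wC_im_pos h
  rw [h0] at this
  simp at this

end

namespace IsLat

variable {A B : ℤ} {L : PeriodPair} {Om : ℂ}

lemma emb_mul_mem (hL : IsLat A B L Om) (h : Case A B) (x : OO A B) {z : ℂ}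
    (hz : z ∈ L.lattice) : emb x * z ∈ L.lattice := by
  obtain ⟨y, rfl⟩ := (hL.mem z).1 hz
  exact (hL.mem _).2 ⟨x * y, by rw [emb_mul h]; ring⟩

lemma mul_mem_w (hL : IsLat A B L Om) (h : Case A B) {z : ℂ}
    (hz : z ∈ L.lattice) : wC A B * z ∈ L.lattice := by
  have := hL.emb_mul_mem h ⟨0, 1⟩ hz
  rwa [emb_w] at this

/-- torsion points -/
lemma torsion_iff (hL : IsLat A B L Om) (h : Case A B) {m : OO A B} (hm : m ≠ 0) (z : ℂ) :
    emb m * z ∈ L.lattice ↔ ∃ x : OO A B, z = emb x * (Om / emb m) := by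
  have h0 := emb_ne_zero h hm
  rw [hL.mem]
  constructor
  · rintro ⟨x, hx⟩
    exact ⟨x, by field_simp; linear_combination hx⟩
  · rintro ⟨x, rfl⟩
    exact ⟨x, by field_simp⟩

lemma mul_div_mem_iff (hL : IsLat A B L Om) (h : Case A B) {m : OO A B} (hm : m ≠ 0)
    (x : OO A B) : emb x * (Om / emb m) ∈ L.lattice ↔ m ∣ x := by
  have h0 := emb_ne_zero h hm
  have h1 := hL.Om_ne
  rw [hL.mem]
  constructor
  · rintro ⟨y, hy⟩
    refine ⟨y, emb_inj h ?_⟩
    rw [emb_mul h]
    field_simp at hy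
    linear_combination hy
  · rintro ⟨y, rfl⟩
    exact ⟨y, by rw [emb_mul h]; field_simp⟩

/-- a point killed by two coprime elements is zero -/
lemma mem_of_coprime (hL : IsLat A B L Om) (h : Case A B) {a b : OO A B} (hab : IsCoprime a b)
    {z : ℂ} (ha : emb a * z ∈ L.lattice) (hb : emb b * z ∈ L.lattice) : z ∈ L.lattice := by
  obtain ⟨u, v, huv⟩ := hab
  have h1 := add_mem (hL.emb_mul_mem h u ha) (hL.emb_mul_mem h v hb)
  have h2 : emb u * (emb a * z) + emb v * (emb b * z) = z := by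
    have := congrArg emb huv
    rw [emb_add h, emb_mul h, emb_mul h, emb_one h] at this
    linear_combination z * this
  rwa [h2] at h1

end IsLat

end

end Pool.Agent.MU3A
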