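import Pool.Agent.MU3.A2Final
import Pool.Agent.MU3.ADefs

/-! # MU3, block A2, part 7: the two explicit curves -/

set_option autoImplicit false

namespace Pool.Agent.MU3A2

open PowerSeries MU3

section Identities

variable {T : Type*} [CommRing T]

/-- the isogeny of degree three of `y² = x³ + 4x² + 2x`, `w² = -2`, in reversed form. -/
theorem iso_case1 {W : T} (hW : W ^ 2 = -2) (r : T) :
    (1 + (4 - 2 * W) * r + (2 - 4 * W) * r ^ 2 + 0 * r ^ 3) ^ 3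
      + 4 * r * (-(1 + W) + (-W) * r) ^ 2 * (1 + (4 - 2 * W) * r + (2 - 4 * W) * r ^ 2 + 0 * r ^ 3) ^ 2
      + 2 * r ^ 2 * (-(1 + W) + (-W) * r) ^ 4 * (1 + (4 - 2 * W) * r + (2 - 4 * W) * r ^ 2 + 0 * r ^ 3)
      + 0 * r ^ 3 * (-(1 + W) + (-W) * r) ^ 6
    = (1 + (2 + W) * r + (6 + 4 * W) * r ^ 2 + (4 - 2 * W) * r ^ 3) ^ 2
      * (1 + 4 * r + 2 * r ^ 2 + 0 * r ^ 3) := by
  linear_combination ((4) * W ^ 0 * r ^ 1 + (27) * W ^ 0 * r ^ 2 + (48) * W ^ 0 * r ^ 3 + (-18) * W ^ 0 * r ^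
      4 + (-128) * W ^ 0 * r ^ 5 + (-152) * W ^ 0 * r ^ 6 + (-80) * W ^ 0 * r ^ 7 + (-16) * W
      ^ 0 * r ^ 8 + (-8) * W ^ 1 * r ^ 2 + (-64) * W ^ 1 * r ^ 3 + (-168) * W ^ 1 * r ^ 4 +
      (-176) * W ^ 1 * r ^ 5 + (-64) * W ^ 1 * r ^ 6 + (24) * W ^ 1 * r ^ 7 + (16) * W ^ 1 * r
      ^ 8 + (2) * W ^ 2 * r ^ 2 + (16) * W ^ 2 * r ^ 3 + (64) * W ^ 2 * r ^ 4 + (136) * W ^ 2
      * r ^ 5 + (138) * W ^ 2 * r ^ 6 + (56) * W ^ 2 * r ^ 7 + (4) * W ^ 2 * r ^ 8 + (-4) * W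
      ^ 3 * r ^ 3 + (-24) * W ^ 3 * r ^ 4 + (-56) * W ^ 3 * r ^ 5 + (-64) * W ^ 3 * r ^ 6 +
      (-36) * W ^ 3 * r ^ 7 + (-8) * W ^ 3 * r ^ 8) * hW

/-- the isogeny of degree three of `y² = x³ + (2w-1)x² - 3x - (2w-1)/4`, `w² = w - 3`, in reversed
form. -/
theorem iso_case2 {W q U : T} (hW : W ^ 2 = W - 3) (hq : 4 * q = 1 - 2 * W) (hU : 4 * U = 1)
    (r : T) :
    (1 + (3 * W) * r + (W - 6) * r ^ 2 + (-W) * r ^ 3) ^ 3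
      + (2 * W - 1) * r * (-W + 1 * r) ^ 2 * (1 + (3 * W) * r + (W - 6) * r ^ 2 + (-W) * r ^ 3) ^ 2
      + (-3) * r ^ 2 * (-W + 1 * r) ^ 4 * (1 + (3 * W) * r + (W - 6) * r ^ 2 + (-W) * r ^ 3)
      + q * r ^ 3 * (-W + 1 * r) ^ 6
    = (1 + (W - 1) * r + (-W) * r ^ 2 + 1 * r ^ 3) ^ 2
      * (1 + (2 * W - 1) * r + (-3) * r ^ 2 + q * r ^ 3) := by
  have key : 4 * ((1 + (3 * W) * r + (W - 6) * r ^ 2 + (-W) * r ^ 3) ^ 3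
      + (2 * W - 1) * r * (-W + 1 * r) ^ 2 * (1 + (3 * W) * r + (W - 6) * r ^ 2 + (-W) * r ^ 3) ^ 2
      + (-3) * r ^ 2 * (-W + 1 * r) ^ 4 * (1 + (3 * W) * r + (W - 6) * r ^ 2 + (-W) * r ^ 3)
      + q * r ^ 3 * (-W + 1 * r) ^ 6)
    = 4 * ((1 + (W - 1) * r + (-W) * r ^ 2 + 1 * r ^ 3) ^ 2
      * (1 + (2 * W - 1) * r + (-3) * r ^ 2 + q * r ^ 3)) := by
    linear_combination (r ^ 3 * (-W + 1 * r) ^ 6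
      - (1 + (W - 1) * r + (-W) * r ^ 2 + 1 * r ^ 3) ^ 2 * r ^ 3) * hq + ((4) * W ^ 0 * r ^ 1 + (-24) * W ^ 0 * r ^ 2 + (-11) * W ^ 0 * r ^ 3 + (154) * W ^ 0 * r
      ^ 4 + (21) * W ^ 0 * r ^ 5 + (-302) * W ^ 0 * r ^ 6 + (-46) * W ^ 0 * r ^ 7 + (28) * W ^
      0 * r ^ 8 + (8) * W ^ 1 * r ^ 1 + (12) * W ^ 1 * r ^ 2 + (-151) * W ^ 1 * r ^ 3 + (-60)
      * W ^ 1 * r ^ 4 + (489) * W ^ 1 * r ^ 5 + (196) * W ^ 1 * r ^ 6 + (-168) * W ^ 1 * r ^ 7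
      + (-12) * W ^ 1 * r ^ 8 + (4) * W ^ 1 * r ^ 9 + (36) * W ^ 2 * r ^ 2 + (24) * W ^ 2 * r
      ^ 3 + (-250) * W ^ 2 * r ^ 4 + (-167) * W ^ 2 * r ^ 5 + (160) * W ^ 2 * r ^ 6 + (36) * W
      ^ 2 * r ^ 7 + (-16) * W ^ 2 * r ^ 8 + (41) * W ^ 3 * r ^ 3 + (42) * W ^ 3 * r ^ 4 +
      (-58) * W ^ 3 * r ^ 5 + (-16) * W ^ 3 * r ^ 6 + (8) * W ^ 3 * r ^ 7 + (-1) * W ^ 4 * r ^
      3 + (12) * W ^ 4 * r ^ 4 + (-2) * W ^ 5 * r ^ 3) * hW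
  generalize hL : (1 + (3 * W) * r + (W - 6) * r ^ 2 + (-W) * r ^ 3) ^ 3
      + (2 * W - 1) * r * (-W + 1 * r) ^ 2 * (1 + (3 * W) * r + (W - 6) * r ^ 2 + (-W) * r ^ 3) ^ 2
      + (-3) * r ^ 2 * (-W + 1 * r) ^ 4 * (1 + (3 * W) * r + (W - 6) * r ^ 2 + (-W) * r ^ 3)
      + q * r ^ 3 * (-W + 1 * r) ^ 6 = LL at key ⊢
  generalize hR : (1 + (W - 1) * r + (-W) * r ^ 2 + 1 * r ^ 3) ^ 2
      * (1 + (2 * W - 1) * r + (-3) * r ^ 2 + q * r ^ 3) = RR at key ⊢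
  linear_combination U * key - (LL - RR) * hU

end Identities

end Pool.Agent.MU3A2
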