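import Pool.Agent.MU3.A2V

/-! # MU3, block A2, part 10: the data `Curve3` for the two explicit curves -/

set_option autoImplicit false

open MU3 PowerSeries Pool.Agent.MU3A

namespace Pool.Agent.MU3A2

variable {O K : Type*} [CommRing O] [Field K] [Algebra O K]

/-- both explicit curves satisfy the hypotheses of part 5. -/
theorem curve3_of {A B : ℤ} (hc : Case A B) (F : Frame O K) (jO : OO A B →+* O)
    (hϖ : F.ϖ = jO (-ppi A B)) (hσ : ∀ x, F.σ (jO x) = jO x) (hq : F.q = 3) {u : O}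
    (hu : 2 * u = 1) :
    ∃ n2 n1 n0 δ m2 m1 m0 : O, F.Curve3 (jO (a2 A B)) (jO (a4 A B)) (jO (a6 A B) * u ^ 2)
      n2 n1 n0 δ m2 m1 m0 := by
  have hσu : F.σ u = u := by
    have h1 : 2 * F.σ u = 1 := by rw [← map_ofNat F.σ 2, ← map_mul, hu, map_one]
    linear_combination u * h1 - F.σ u * hu
  rcases hc with ⟨rfl, rfl⟩ | ⟨rfl, rfl⟩
  · obtain ⟨w, hwdef⟩ : ∃ w, w = jO (⟨0, 1⟩ : OO (-2) 0) := ⟨_, rfl⟩
    have hw : w ^ 2 = -2 := by
      have e : (⟨0, 1⟩ : OO (-2) 0) * ⟨0, 1⟩ = -2 := by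
        apply QuadraticAlgebra.ext <;> rfl
      rw [hwdef, pow_two, ← map_mul, e, map_neg, map_ofNat]
    have hϖ' : F.ϖ = -(1 + w) := by
      have e : -ppi (-2) 0 = -(1 + (⟨0, 1⟩ : OO (-2) 0)) := by
        apply QuadraticAlgebra.ext <;> rfl
      rw [hϖ, e, map_neg, map_add, map_one, hwdef]
    have ha2 : jO (a2 (-2) 0) = 4 := map_ofNat jO 4
    have ha4 : jO (a4 (-2) 0) = 2 := map_ofNat jO 2
    have ha6 : jO (a6 (-2) 0) = 0 := map_zero jO
    refine ⟨4 - 2 * w, 2 - 4 * w, 0, -w, 2 + w, 6 + 4 * w, 4 - 2 * w, hq, ⟨u, hu⟩, hσ _, hσ _,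
      by rw [map_mul, map_pow, hσ, hσu], ⟨2 * (w - 1) + 2, ?_⟩, ⟨2 * (w - 1) + 4, ?_⟩,
      dvd_zero _, ⟨1, ?_⟩, ?_, ?_, ?_, ?_⟩
    · rw [hϖ']; linear_combination 2 * hw
    · rw [hϖ']; linear_combination 2 * hw
    · rw [hϖ']; ring
    · rw [hϖ']; linear_combination -hw
    · rw [hϖ']; linear_combination -4 * hw
    · rw [hϖ']; linear_combination -2 * hw
    · intro r
      have hW : (C w : O⟦X⟧) ^ 2 = -2 := by rw [← map_pow, hw, map_neg, map_ofNat]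
      rw [hϖ', ha2, ha4, ha6]
      simp only [map_sub, map_mul, map_add, map_neg, map_one, map_ofNat, map_zero, zero_mul]
      linear_combination iso_case1 hW r
  · obtain ⟨w, hwdef⟩ : ∃ w, w = jO (⟨0, 1⟩ : OO (-3) 1) := ⟨_, rfl⟩
    have hw : w ^ 2 = w - 3 := by
      have e : (⟨0, 1⟩ : OO (-3) 1) * ⟨0, 1⟩ = ⟨0, 1⟩ - 3 := by
        apply QuadraticAlgebra.ext <;> rfl
      rw [hwdef, pow_two, ← map_mul, e, map_sub, map_ofNat]
    have hϖ' : F.ϖ = -w := by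
      have e : -ppi (-3) 1 = -(⟨0, 1⟩ : OO (-3) 1) := by
        apply QuadraticAlgebra.ext <;> rfl
      rw [hϖ, e, map_neg, hwdef]
    have ha2 : jO (a2 (-3) 1) = 2 * w - 1 := by
      have e : a2 (-3) 1 = 2 * (⟨0, 1⟩ : OO (-3) 1) - 1 := by
        apply QuadraticAlgebra.ext <;> rfl
      rw [e, map_sub, map_mul, map_ofNat, map_one, hwdef]
    have ha4 : jO (a4 (-3) 1) = -3 := by
      have e : a4 (-3) 1 = -3 := by apply QuadraticAlgebra.ext <;> rfl
      rw [e, map_neg, map_ofNat]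
    have ha6 : jO (a6 (-3) 1) = 1 - 2 * w := by
      have e : a6 (-3) 1 = 1 - 2 * (⟨0, 1⟩ : OO (-3) 1) := by
        apply QuadraticAlgebra.ext <;> rfl
      rw [e, map_sub, map_mul, map_ofNat, map_one, hwdef]
    refine ⟨3 * w, w - 6, -w, 1, w - 1, -w, 1, hq, ⟨u, hu⟩, hσ _, hσ _,
      by rw [map_mul, map_pow, hσ, hσu], ⟨-3, ?_⟩, ⟨1 - 2 * w, ?_⟩,
      ⟨1, ?_⟩, ⟨0, ?_⟩, ?_, ?_, ?_, ?_⟩
    · rw [hϖ']; ring
    · rw [hϖ']; linear_combination -2 * hw
    · rw [hϖ']; ring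
    · ring
    · rw [hϖ']; linear_combination -hw
    · rw [hϖ']; ring
    · rw [hϖ']; linear_combination 2 * hw
    · intro r
      have hW : (C w : O⟦X⟧) ^ 2 = C w - 3 := by rw [← map_pow, hw, map_sub, map_ofNat]
      have hU : 4 * (C (u ^ 2) : O⟦X⟧) = 1 := by
        have e : 4 * u ^ 2 = 1 := by linear_combination (2 * u + 1) * hu
        rw [← map_ofNat (C : O →+* O⟦X⟧) 4, ← map_mul, e, map_one]
      have hq' : 4 * (C ((1 - 2 * w) * u ^ 2) : O⟦X⟧) = 1 - 2 * C w := by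
        rw [map_mul, map_sub, map_mul, map_one, map_ofNat]
        linear_combination (1 - 2 * C w) * hU
      rw [hϖ', ha2, ha4, ha6]
      have key := iso_case2 hW hq' hU r
      generalize (C ((1 - 2 * w) * u ^ 2) : O⟦X⟧) = Q at key ⊢
      simp only [map_sub, map_mul, map_neg, map_one, map_ofNat]
      linear_combination key

end Pool.Agent.MU3A2
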