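import Pool.Agent.MU3.A2Honda

/-! # MU3, block A2, part 3: the logarithm of `y² = x³ + a₂x² + a₄x + a₆` and the isogeny `[ϖ]`

The curve enters through the power series `s(z)` = Taylor series of `1/x(z)`, which satisfies
`s = z² + ⋯` and `(s')² = 4 s (1 + a₂ s + a₄ s² + a₆ s³)`. -/

namespace Pool.Agent.MU3A2

open PowerSeries

section Sqrt

variable {R : Type*} [CommRing R]

/-- square roots of power series with constant term `1` when `2` is invertible; a congruence
`f = 1` modulo `ϖ` is inherited. -/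
theorem exists_sqrt {u : R} (hu : 2 * u = 1) {f : R⟦X⟧} (hf : constantCoeff f = 1) :
    ∃ φ : R⟦X⟧, φ ^ 2 = f ∧ constantCoeff φ = 1 ∧
      ∀ ϖ : R, ∀ D : R⟦X⟧, f = 1 + C ϖ * D → ∃ D' : R⟦X⟧, φ = 1 + C ϖ * D' := by
  set cat : R⟦X⟧ := map (Nat.castRingHom R) catalanSeries with hcat
  have hc : cat ^ 2 * X + 1 = cat := by
    have := congrArg (map (Nat.castRingHom R)) catalanSeries_sq_mul_X_add_one
    rwa [map_add, map_mul, map_pow, map_X, map_one] at this
  set w : R⟦X⟧ := C (u ^ 2) * (1 - f) with hw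
  have hw0 : constantCoeff w = 0 := by simp [hw, hf]
  have hws : HasSubst w := HasSubst.of_constantCoeff_zero' hw0
  set cw : R⟦X⟧ := cat.subst w with hcw
  have h1 : cw ^ 2 * w + 1 = cw := by
    have := congrArg (fun G : R⟦X⟧ => (G.subst w : R⟦X⟧)) hc
    rw [subst_add hws, subst_mul hws, subst_pow hws, subst_X hws] at this
    have h1' : ((1 : R⟦X⟧).subst w : R⟦X⟧) = 1 := by
      rw [← coe_substAlgHom hws, map_one]
    rw [h1'] at this
    exact this
  have hCu : (C u : R⟦X⟧) * 2 = 1 := by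
    rw [← map_ofNat (C : R →+* R⟦X⟧) 2, ← map_mul, mul_comm, hu, map_one]
  refine ⟨1 - 2 * w * cw, ?_, ?_, ?_⟩
  · have h2 : 4 * w = 1 - f := by
      rw [hw, map_pow]
      linear_combination (1 - f) * (2 * C u + 1) * hCu
    linear_combination (4 * w) * h1 - h2
  · simp [hw0]
  · intro ϖ D hD
    refine ⟨2 * C (u ^ 2) * D * cw, ?_⟩
    rw [hw, hD]
    ring

theorem sqrt_unique [IsDomain R] {u : R} (hu : 2 * u = 1) {φ ψ : R⟦X⟧} (h : φ ^ 2 = ψ ^ 2)
    (hφ : constantCoeff φ = 1) (hψ : constantCoeff ψ = 1) : φ = ψ := by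
  rcases sq_eq_sq_iff_eq_or_eq_neg.1 h with h | h
  · exact h
  · exfalso
    have := congrArg constantCoeff h
    rw [map_neg, hφ, hψ] at this
    have h2 : (2 : R) = 0 := by linear_combination this
    rw [h2, zero_mul] at hu
    exact zero_ne_one hu

theorem exists_inv {φ : R⟦X⟧} (hφ : constantCoeff φ = 1) :
    ∃ ψ : R⟦X⟧, φ * ψ = 1 ∧ constantCoeff ψ = 1 := by
  refine ⟨invOfUnit φ 1, mul_invOfUnit φ 1 (by simpa using hφ), by simp⟩

end Sqrt

section Inverse

variable {K : Type*} [Field K]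

theorem hs {R : Type*} [CommRing R] {V : R⟦X⟧} (hV : constantCoeff V = 0) :
    HasSubst V := HasSubst.of_constantCoeff_zero' hV

/-- a right inverse for the substitution is a left inverse. -/
theorem left_inv_of_right_inv {l e : K⟦X⟧} (he : constantCoeff e = 0)
    (he1 : coeff 1 e = 1) (h : l.subst e = X) : e.subst l = X := by
  obtain ⟨r, h1, hr0⟩ : ∃ r : K⟦X⟧, (e.subst r : K⟦X⟧) = X ∧ constantCoeff r = 0 := by
    have hunit : IsUnit (coeff 1 e) := by rw [he1]; exact isUnit_one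
    exact ⟨substInvOfIsUnit e hunit, subst_substInvOfIsUnit_right e he hunit,
      constantCoeff_substInvOfIsUnit e hunit⟩
  have h2 : l = r := by
    have e1 : subst r (subst e l : K⟦X⟧) = (subst (subst r e : K⟦X⟧) l : K⟦X⟧) :=
      subst_comp_subst_apply (hs he) (hs hr0) l
    rw [h1, h, subst_X (hs hr0), X_subst] at e1
    exact e1.symm
  rw [h2]
  exact h1

theorem const_subst_pow {R : Type*} [CommRing R] {l e : R⟦X⟧} (he : constantCoeff e = 0)
    (hl : constantCoeff l = 0) : constantCoeff (l.subst e) = 0 :=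
  constantCoeff_subst_eq_zero he l hl

theorem coeff_one_subst {R : Type*} [CommRing R] {l e : R⟦X⟧} (he : constantCoeff e = 0) :
    coeff 1 (l.subst e) = coeff 1 l * coeff 1 e := by
  rw [coeff_subst_range he, Finset.sum_range_succ, Finset.sum_range_one]
  simp [coeff_one]

end Inverse

section Ev

variable {O R : Type*} [CommRing O] [CommRing R] [Algebra O R]

/-- the polynomial `∑_{i ≤ n} c_i S^i` -/
noncomputable def ev (c : ℕ → O) (n : ℕ) (S : R⟦X⟧) : R⟦X⟧ :=
  ∑ i ∈ Finset.range (n + 1), C (algebraMap O R (c i)) * S ^ i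

theorem subst_ev (c : ℕ → O) (n : ℕ) (S : R⟦X⟧) {G : R⟦X⟧} (hG : constantCoeff G = 0) :
    (ev c n S).subst G = ev c n (S.subst G : R⟦X⟧) := by
  rw [ev, ev, ← coe_substAlgHom (hs hG), map_sum]
  refine Finset.sum_congr rfl fun i _ => ?_
  rw [map_mul, map_pow, coe_substAlgHom]
  congr 1
  exact subst_C (a := G) _

theorem map_ev (c : ℕ → O) (n : ℕ) (S : O⟦X⟧) :
    map (algebraMap O R) (ev c n S) = ev c n (map (algebraMap O R) S) := by
  simp [ev, map_sum]

/-- the homogenised polynomial -/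
noncomputable def hev (c : ℕ → O) (n : ℕ) (A B : O⟦X⟧) : O⟦X⟧ :=
  ∑ i ∈ Finset.range (n + 1), C (c i) * B ^ i * A ^ (n - i)

theorem hev_eq (c : ℕ → O) (n : ℕ) {A B : O⟦X⟧} {S : R⟦X⟧}
    (h : map (algebraMap O R) A * S = map (algebraMap O R) B) :
    map (algebraMap O R) A ^ n * ev c n S = map (algebraMap O R) (hev c n A B) := by
  rw [ev, hev, map_sum, Finset.mul_sum]
  refine Finset.sum_congr rfl fun i hi => ?_
  have hi' : i ≤ n := by simp at hi; omega
  rw [map_mul, map_mul, map_pow, map_pow, map_C, ← h]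
  obtain ⟨j, rfl⟩ := Nat.exists_eq_add_of_le hi'
  rw [Nat.add_sub_cancel_left]
  ring

theorem hev_low (c : ℕ → O) (n : ℕ) {ϖ : O} (h0 : c 0 = 1) (h : ∀ i, 1 ≤ i → i ≤ n → ϖ ∣ c i)
    (A B : O⟦X⟧) : ∃ E : O⟦X⟧, hev c n A B = A ^ n + C ϖ * E := by
  choose! d hd using h
  refine ⟨∑ i ∈ Finset.range n, C (d (i + 1)) * B ^ (i + 1) * A ^ (n - (i + 1)), ?_⟩
  rw [hev, Finset.sum_range_succ', h0, add_comm, Finset.mul_sum]
  congr 1
  · simp
  · refine Finset.sum_congr rfl fun i hi => ?_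
    rw [hd (i + 1) (by omega) (by simp at hi; omega), map_mul]
    ring

theorem hev_high (c : ℕ → O) (n : ℕ) {ϖ : O} (h0 : ∃ b, c n = 1 + ϖ * b)
    (h : ∀ i, i < n → ϖ ∣ c i) (A B : O⟦X⟧) : ∃ E : O⟦X⟧, hev c n A B = B ^ n + C ϖ * E := by
  choose! d hd using h
  obtain ⟨b, hb⟩ := h0
  refine ⟨C b * B ^ n + ∑ i ∈ Finset.range n, C (d i) * B ^ i * A ^ (n - i), ?_⟩
  rw [hev, Finset.sum_range_succ, hb, mul_add, Finset.mul_sum, Nat.sub_self, map_add, map_mul,
    map_one]
  have : ∑ i ∈ Finset.range n, C (c i) * B ^ i * A ^ (n - i)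
      = ∑ i ∈ Finset.range n, C ϖ * (C (d i) * B ^ i * A ^ (n - i)) := by
    refine Finset.sum_congr rfl fun i hi => ?_
    rw [hd i (by simpa using hi), map_mul]
    ring
  rw [this]
  ring

end Ev

end Pool.Agent.MU3A2
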