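import Pool.Agent.MU3.A2Three

/-! # MU3, block A2, part 6: `1/x(H/ϖ)` is not a quotient of integral power series -/

namespace Pool.Agent.MU3A2

open PowerSeries

section Orders

variable {R : Type*} [CommRing R] [IsDomain R]

/-- no solution of `V² A³ = B³` with `V` of order one and `A ≠ 0`. -/
theorem no_solution {V A B : R⟦X⟧} (hV0 : constantCoeff V = 0)
    (hV1 : coeff 1 V ≠ 0) (hA : A ≠ 0) (h : V ^ 2 * A ^ 3 = B ^ 3) :
    False := by
  have hVne : V ≠ 0 := by
    rintro rfl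
    exact hV1 (by simp)
  have hB : B ≠ 0 := by
    rintro rfl
    rw [zero_pow (by omega)] at h
    rcases mul_eq_zero.1 h with h' | h'
    · exact hVne (pow_eq_zero_iff (by omega) |>.1 h')
    · exact hA (pow_eq_zero_iff (by omega) |>.1 h')
  have hVord : order V = (1 : ℕ) := by
    rw [order_eq_nat]
    refine ⟨hV1, fun i hi => ?_⟩
    obtain rfl : i = 0 := by omega
    rw [coeff_zero_eq_constantCoeff_apply, hV0]
  obtain ⟨a, ha⟩ := ENat.ne_top_iff_exists.1 (by simpa [order_eq_top] using hA : order A ≠ ⊤)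
  obtain ⟨b, hb⟩ := ENat.ne_top_iff_exists.1 (by simpa [order_eq_top] using hB : order B ≠ ⊤)
  have := congrArg order h
  rw [order_mul, order_pow, order_pow, order_pow, hVord, ← ha, ← hb] at this
  simp only [nsmul_eq_mul] at this
  norm_cast at this
  omega

end Orders

section Root

variable {K : Type*} [Field K] [CharZero K]

/-- the square root of a series `γ² X² + ⋯`. -/
theorem exists_root' {s : K⟦X⟧} {γ : K} (hγ : γ ≠ 0) (s0 : coeff 0 s = 0) (s1 : coeff 1 s = 0)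
    (s2 : coeff 2 s = γ ^ 2) :
    ∃ e : K⟦X⟧, e ^ 2 = s ∧ constantCoeff e = 0 ∧ coeff 1 e = γ := by
  obtain ⟨e, he, he0, he1⟩ := exists_root (s := C (γ⁻¹ ^ 2) * s) (by rw [coeff_C_mul, s0, mul_zero])
    (by rw [coeff_C_mul, s1, mul_zero]) (by rw [coeff_C_mul, s2]; field_simp)
  refine ⟨C γ * e, ?_, by simp [he0], by rw [coeff_C_mul, he1, mul_one]⟩
  rw [mul_pow, he, ← map_pow, ← mul_assoc, ← map_mul]
  have : γ ^ 2 * γ⁻¹ ^ 2 = 1 := by field_simp
  rw [this, map_one, one_mul]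

/-- the differential equation of `1/x(G)` determines the series. -/
theorem log_subst_of_ode {φ φi l S G : K⟦X⟧} {b2 b4 b6 γ : K} (hφ0 : constantCoeff φ = 1)
    (hφ : φ ^ 2 = 1 + C b2 * X ^ 2 + C b4 * X ^ 4 + C b6 * X ^ 6) (hinv : φ * φi = 1)
    (hl0 : constantCoeff l = 0) (hl : d⁄dX K l = φi) (hγ : γ ≠ 0)
    (hG0 : constantCoeff G = 0) (hG1 : coeff 1 G = γ)
    (s0 : coeff 0 S = 0) (s1 : coeff 1 S = 0) (s2 : coeff 2 S = γ ^ 2)
    (ode : (d⁄dX K S) ^ 2 = 4 * S * (1 + C b2 * S + C b4 * S ^ 2 + C b6 * S ^ 3)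
      * (d⁄dX K G) ^ 2) :
    ∃ e : K⟦X⟧, e ^ 2 = S ∧ constantCoeff e = 0 ∧ coeff 1 e = γ ∧ l.subst e = G := by
  obtain ⟨e, he, he0, he1⟩ := exists_root' hγ s0 s1 s2
  refine ⟨e, he, he0, he1, ?_⟩
  have hes := hs he0
  obtain ⟨φe, hφe⟩ : ∃ φe : K⟦X⟧, φe = φ.subst e := ⟨_, rfl⟩
  obtain ⟨φie, hφie⟩ : ∃ φie : K⟦X⟧, φie = φi.subst e := ⟨_, rfl⟩
  have hC : ∀ c : K, ((C c : K⟦X⟧).subst e : K⟦X⟧) = C c := fun c => subst_C (a := e) c
  have h1 : ((1 : K⟦X⟧).subst e : K⟦X⟧) = 1 := by rw [← coe_substAlgHom hes, map_one]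
  have hsq : φe ^ 2 = 1 + C b2 * S + C b4 * S ^ 2 + C b6 * S ^ 3 := by
    rw [hφe, ← subst_pow hes, hφ, subst_add hes, subst_add hes, subst_add hes, subst_mul hes,
      subst_mul hes, subst_mul hes, hC, hC, hC, h1, subst_pow hes, subst_pow hes, subst_pow hes,
      subst_X hes, ← he]
    ring
  have hprod : φe * φie = 1 := by
    rw [hφe, hφie, ← subst_mul hes, hinv, h1]
  have hφe0 : constantCoeff φe = 1 := by rw [hφe, Frame.constantCoeff_subst' he0, hφ0]
  have hene : e ≠ 0 := by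
    rintro rfl
    exact hγ (by rw [← he1, map_zero])
  have hder : d⁄dX K S = 2 * e * d⁄dX K e := by
    rw [← he, derivative_pow]
    simp
  have hde : (d⁄dX K e) ^ 2 = (φe * d⁄dX K G) ^ 2 := by
    have h4 : (4 : K⟦X⟧) * e ^ 2 ≠ 0 := by
      refine mul_ne_zero ?_ (pow_ne_zero 2 hene)
      intro h
      have h' := congrArg (constantCoeff (R := K)) h
      rw [map_ofNat, map_zero] at h'
      exact (by norm_num : (4 : K) ≠ 0) h'
    apply mul_left_cancel₀ h4
    rw [hder, ← hsq, ← he] at ode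
    linear_combination ode
  have hde0 : constantCoeff (d⁄dX K e) = γ := by
    rw [← coeff_zero_eq_constantCoeff_apply, coeff_derivative]
    simp [he1]
  have hdG0 : constantCoeff (d⁄dX K G) = γ := by
    rw [← coeff_zero_eq_constantCoeff_apply, coeff_derivative]
    simp [hG1]
  have heq : d⁄dX K e = φe * d⁄dX K G := by
    rcases sq_eq_sq_iff_eq_or_eq_neg.1 hde with h' | h'
    · exact h'
    · exfalso
      have := congrArg constantCoeff h'
      rw [map_neg, map_mul, hde0, hφe0, hdG0, one_mul] at this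
      have h2 : (2 : K) * γ = 0 := by linear_combination this
      rcases mul_eq_zero.1 h2 with h3 | h3
      · exact two_ne_zero h3
      · exact hγ h3
  apply derivative.ext
  · rw [derivative_subst hes, hl, heq, ← hφie, ← mul_assoc, mul_comm φie, hprod, one_mul]
  · rw [hG0]
    exact constantCoeff_subst_eq_zero he0 _ hl0

omit [CharZero K] in
/-- a series `l = X + ⋯` is injective for composition. -/
theorem subst_injective {l U W : K⟦X⟧} (hl0 : constantCoeff l = 0) (hl1 : coeff 1 l = 1)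
    (hU : constantCoeff U = 0) (hW : constantCoeff W = 0) (h : (l.subst U : K⟦X⟧) = l.subst W) :
    U = W := by
  have hunit : IsUnit (coeff 1 l) := by rw [hl1]; exact isUnit_one
  obtain ⟨r, hr⟩ : ∃ r : K⟦X⟧, (r.subst l : K⟦X⟧) = X :=
    ⟨substInvOfIsUnit l hunit, subst_substInvOfIsUnit_left l hl0 hunit⟩
  have e1 : (subst U (subst l r : K⟦X⟧) : K⟦X⟧) = subst (subst U l : K⟦X⟧) r :=
    subst_comp_subst_apply (hs hl0) (hs hU) r
  have e2 : (subst W (subst l r : K⟦X⟧) : K⟦X⟧) = subst (subst W l : K⟦X⟧) r :=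
    subst_comp_subst_apply (hs hl0) (hs hW) r
  rw [hr, subst_X (hs hU)] at e1
  rw [hr, subst_X (hs hW)] at e2
  rw [e1, e2]
  exact congrArg (fun G : K⟦X⟧ => (subst G r : K⟦X⟧)) h

omit [CharZero K] in
/-- a series `l = X + ⋯` is surjective for composition. -/
theorem subst_surjective {l H : K⟦X⟧} (hl0 : constantCoeff l = 0) (hl1 : coeff 1 l = 1)
    (hH : constantCoeff H = 0) : ∃ U : K⟦X⟧, constantCoeff U = 0 ∧ l.subst U = H := by
  have hunit : IsUnit (coeff 1 l) := by rw [hl1]; exact isUnit_one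
  obtain ⟨r, hr, hr0⟩ : ∃ r : K⟦X⟧, (l.subst r : K⟦X⟧) = X ∧ constantCoeff r = 0 :=
    ⟨substInvOfIsUnit l hunit, subst_substInvOfIsUnit_right l hl0 hunit,
      constantCoeff_substInvOfIsUnit l hunit⟩
  refine ⟨r.subst H, constantCoeff_subst_eq_zero hH r hr0, ?_⟩
  have e1 : (subst H (subst r l : K⟦X⟧) : K⟦X⟧) = subst (subst H r : K⟦X⟧) l :=
    subst_comp_subst_apply (hs hr0) (hs hH) l
  rw [← e1, hr, subst_X (hs hH)]

end Root

section Descent

variable {R L : Type*} [CommRing R] [Field L] [Algebra R L]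

/-- the descent: the relation `V² (A³ + n₂A²B + n₁AB² + n₀B³) = B (ϖ A + δ B)²` forces `A = 0`. -/
theorem descent (inj : Function.Injective (algebraMap R L)) {ρ ϖ n2 n1 n0 δ : R} (hρ : Prime ρ)
    (hsep : ∀ x : R, (∀ n : ℕ, ρ ^ n ∣ x) → x = 0) (hϖ : ρ ∣ ϖ) (h2 : ρ ∣ n2) (h1 : ρ ∣ n1)
    (h0 : ρ ∣ n0) (hδ : ρ ∣ δ - 1) {V : R⟦X⟧} (hV0 : constantCoeff V = 0)
    (hV1 : ¬ ρ ∣ coeff 1 V) {S : L⟦X⟧}
    (hS : (map (algebraMap R L) V) ^ 2 * (1 + C (algebraMap R L n2) * S
      + C (algebraMap R L n1) * S ^ 2 + C (algebraMap R L n0) * S ^ 3)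
      = S * (C (algebraMap R L ϖ) + C (algebraMap R L δ) * S) ^ 2)
    {A B : R⟦X⟧} (hAB : map (algebraMap R L) A * S = map (algebraMap R L) B) : A = 0 := by
  have hinj : Function.Injective (map (algebraMap R L) : R⟦X⟧ → L⟦X⟧) := by
    intro a b hab
    ext n
    apply inj
    have := congrArg (coeff n) hab
    rwa [coeff_map, coeff_map] at this
  -- one step
  have step : ∀ A B : R⟦X⟧, map (algebraMap R L) A * S = map (algebraMap R L) B →
      ∃ A1 B1 : R⟦X⟧, A = C ρ * A1 ∧ B = C ρ * B1 := by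
    intro A B hAB
    have hrel : V ^ 2 * (A ^ 3 + C n2 * A ^ 2 * B + C n1 * A * B ^ 2 + C n0 * B ^ 3)
        = B * (C ϖ * A + C δ * B) ^ 2 := by
      apply hinj
      simp only [map_mul, map_add, map_pow, map_C]
      rw [← hAB]
      linear_combination (map (algebraMap R L) A) ^ 3 * hS
    set I : Ideal R := Ideal.span {ρ} with hI
    have hIp : I.IsPrime := (Ideal.span_singleton_prime hρ.ne_zero).2 hρ
    have hdom : IsDomain (R ⧸ I) := Ideal.Quotient.isDomain I
    have hz : ∀ x : R, ρ ∣ x → (Ideal.Quotient.mk I) x = 0 := fun x hx => by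
      rw [Ideal.Quotient.eq_zero_iff_mem, hI, Ideal.mem_span_singleton]
      exact hx
    have hm := congrArg (map (Ideal.Quotient.mk I)) hrel
    have hδ1 : (Ideal.Quotient.mk I) δ = 1 := by
      have := hz _ hδ
      rwa [map_sub, map_one, sub_eq_zero] at this
    simp only [map_mul, map_add, map_pow, map_C, hz _ h2, hz _ h1, hz _ h0, hz _ hϖ, hδ1, map_zero,
      zero_mul, add_zero, zero_add, map_one, one_mul] at hm
    have hVm0 : constantCoeff (map (Ideal.Quotient.mk I) V) = 0 := by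
      rw [constantCoeff_map', hV0, map_zero]
    have hVm1 : coeff 1 (map (Ideal.Quotient.mk I) V) ≠ 0 := by
      rw [coeff_map, Ne, Ideal.Quotient.eq_zero_iff_mem, hI, Ideal.mem_span_singleton]
      exact hV1
    have hA : map (Ideal.Quotient.mk I) A = 0 := by
      by_contra hne
      exact no_solution hVm0 hVm1 hne (by rw [hm]; ring)
    have hB : map (Ideal.Quotient.mk I) B = 0 := by
      rw [hA, zero_pow (by omega), mul_zero] at hm
      have h3 : (map (Ideal.Quotient.mk I) B) ^ 3 = 0 := by rw [pow_succ, mul_comm]; exact hm.symm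
      exact pow_eq_zero_iff (by omega) |>.1 h3
    obtain ⟨A1, hA1⟩ := exists_of_map_mk_eq_zero hA
    obtain ⟨B1, hB1⟩ := exists_of_map_mk_eq_zero hB
    exact ⟨A1, B1, hA1, hB1⟩
  have key : ∀ n : ℕ, ∀ A B : R⟦X⟧, map (algebraMap R L) A * S = map (algebraMap R L) B →
      ∀ k, ρ ^ n ∣ coeff k A := by
    intro n
    induction n with
    | zero => intro A B _ k; simp
    | succ n ih =>
      intro A B hAB k
      obtain ⟨A1, B1, rfl, rfl⟩ := step A B hAB
      have hne : (C (algebraMap R L ρ) : L⟦X⟧) ≠ 0 := fun h0 => hρ.ne_zero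
        (inj (by rw [map_zero]; exact C_injective (by rw [h0, map_zero])))
      have h' : map (algebraMap R L) A1 * S = map (algebraMap R L) B1 := by
        apply mul_left_cancel₀ hne
        simp only [map_mul, map_C] at hAB
        linear_combination hAB
      have := ih A1 B1 h' k
      rw [coeff_C_mul, pow_succ, mul_comm]
      exact mul_dvd_mul_left ρ this
  ext k
  rw [map_zero]
  exact hsep _ fun n => key n A B hAB k

end Descent

namespace Frame

variable {O K : Type*} [CommRing O] [IsDomain O] [Field K] [CharZero K] [Algebra O K]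
variable {O' K' : Type*} [CommRing O'] [Field K'] [CharZero K'] [Algebra O' K']
variable {F : Frame O K} {a2 a4 a6 n2 n1 n0 δ m2 m1 m0 : O}

/-- **Transcendence of the exponential modulo `ϖ`.** Let `H` satisfy the functional equation
`ϖ H - H^σ(X³) ∈ ϖ O[[X]]` with first coefficient not divisible by `ϖ`, and let `S` be the series
`1/x(H/ϖ)`, characterised by its differential equation. Then `S` is not a quotient of power series
with coefficients in `O'` (`O'` a possibly ramified extension of `O`). -/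
theorem Curve3.not_quotient (h : F.Curve3 a2 a4 a6 n2 n1 n0 δ m2 m1 m0)
    (i : O →+* O') (j : K →+* K') (hij : ∀ a, algebraMap O' K' (i a) = j (algebraMap O K a))
    (inj' : Function.Injective (algebraMap O' K')) {ρ : O'} (hρ : Prime ρ)
    (hsep : ∀ x : O', (∀ n : ℕ, ρ ^ n ∣ x) → x = 0) (hϖ : ρ ∣ i F.ϖ)
    (hlie : ∀ a : O, ρ ∣ i a → F.ϖ ∣ a)
    {H : K⟦X⟧} (H0 : constantCoeff H = 0) (hH : F.FE H)
    (H1 : ∀ a : O, coeff 1 H ≠ algebraMap O K (F.ϖ * a))
    {S : K'⟦X⟧} (S0 : coeff 0 S = 0) (S1 : coeff 1 S = 0)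
    (S2 : coeff 2 S = (j ((algebraMap O K F.ϖ)⁻¹ * coeff 1 H)) ^ 2)
    (ode : (d⁄dX K' S) ^ 2 = 4 * S * (1 + C (j (algebraMap O K a2)) * S
      + C (j (algebraMap O K a4)) * S ^ 2 + C (j (algebraMap O K a6)) * S ^ 3)
      * (d⁄dX K' (map j (C (algebraMap O K F.ϖ)⁻¹ * H))) ^ 2)
    {A B : O'⟦X⟧} (hAB : map (algebraMap O' K') A * S = map (algebraMap O' K') B) : A = 0 := by
  obtain ⟨l, g, φ, φi, ψ, ψi, hd⟩ := h.exists_logData
  -- the series over the big field
  obtain ⟨ε, hε⟩ : ∃ ε : O →+* K', ε = j.comp (algebraMap O K) := ⟨_, rfl⟩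
  have hε' : ∀ a, ε a = j (algebraMap O K a) := fun a => by rw [hε]; rfl
  have hmap : ∀ G : O⟦X⟧, map j (map (algebraMap O K) G) = map ε G := by
    intro G
    ext n
    simp [hε']
  have hmap' : ∀ G : O⟦X⟧, map (algebraMap O' K') (map i G) = map ε G := by
    intro G
    ext n
    simp [hε', hij]
  have hϖK : algebraMap O K F.ϖ ≠ 0 := F.ϖK_ne_zero
  have hH1 : coeff 1 H ≠ 0 := fun h0 => H1 0 (by rw [h0, mul_zero, map_zero])
  have hγ : j ((algebraMap O K F.ϖ)⁻¹ * coeff 1 H) ≠ 0 := by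
    rw [Ne, _root_.map_eq_zero]
    exact mul_ne_zero (inv_ne_zero hϖK) hH1
  obtain ⟨l', hl'⟩ : ∃ l' : K'⟦X⟧, l' = map j l := ⟨_, rfl⟩
  have hl'0 : constantCoeff l' = 0 := by rw [hl', constantCoeff_map', hd.log.const, map_zero]
  have hl'1 : coeff 1 l' = 1 := by rw [hl', coeff_map, hd.log.one, map_one]
  have hl'd : d⁄dX K' l' = map ε φi := by rw [hl', derivative_map', hd.der, hmap]
  obtain ⟨G, hG⟩ : ∃ G : K'⟦X⟧, G = map j (C (algebraMap O K F.ϖ)⁻¹ * H) := ⟨_, rfl⟩
  have hG0 : constantCoeff G = 0 := by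
    rw [hG, constantCoeff_map', map_mul, H0, mul_zero, map_zero]
  have hG1 : coeff 1 G = j ((algebraMap O K F.ϖ)⁻¹ * coeff 1 H) := by
    rw [hG, coeff_map, coeff_C_mul]
  have hφ' : (map ε φ) ^ 2 = 1 + C (j (algebraMap O K a2)) * X ^ 2
      + C (j (algebraMap O K a4)) * X ^ 4 + C (j (algebraMap O K a6)) * X ^ 6 := by
    rw [← map_pow, hd.φ_sq]
    simp [hε']
  have hφinv' : map ε φ * map ε φi = 1 := by rw [← map_mul, hd.φ_inv, map_one]
  have hφ'0 : constantCoeff (map ε φ) = 1 := by rw [constantCoeff_map', hd.φ_const, map_one]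
  rw [← hG] at ode
  obtain ⟨e, he, he0, he1, hle⟩ := log_subst_of_ode hφ'0 hφ' hφinv' hl'0 hl'd hγ hG0 hG1 S0 S1 S2 ode
  have hes := hs he0
  -- the integral series `V` with `l(V) = H`
  obtain ⟨U, hU0, hU⟩ := subst_surjective hd.log.const hd.log.one H0
  obtain ⟨V, hV0, hV⟩ := hd.log.integral_of_FE hU0 (by rw [hU]; exact hH)
  have hV1 : ¬ F.ϖ ∣ coeff 1 V := by
    rintro ⟨c, hc⟩
    apply H1 c
    rw [← hU, coeff_one_subst hU0, hd.log.one, one_mul, hV, coeff_map, hc]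
  -- `V = g(e)`
  have hg'0 : constantCoeff (map ε g) = 0 := by rw [constantCoeff_map', hd.log.gconst, map_zero]
  have hgK0 : constantCoeff (map (algebraMap O K) g) = 0 := by
    rw [constantCoeff_map', hd.log.gconst, map_zero]
  have hCe : ∀ c : K', ((C c : K'⟦X⟧).subst e : K'⟦X⟧) = C c := fun c => subst_C (a := e) c
  have h1e : ((1 : K'⟦X⟧).subst e : K'⟦X⟧) = 1 := by rw [← coe_substAlgHom hes, map_one]
  have hlg : (l'.subst (map ε g) : K'⟦X⟧) = C (ε F.ϖ) * l' := by
    have e1 : map j (l.subst (map (algebraMap O K) g) : K⟦X⟧)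
        = (map j l).subst (map j (map (algebraMap O K) g)) := map_subst (hs hgK0) l
    rw [hmap, ← hl', hd.log.end_eq, map_mul, map_C, ← hl', ← hε'] at e1
    exact e1.symm
  have hVe : map ε V = ((map ε g).subst e : K'⟦X⟧) := by
    apply subst_injective hl'0 hl'1
    · rw [constantCoeff_map', hV0, map_zero]
    · exact constantCoeff_subst_eq_zero he0 _ hg'0
    · have e1 : (subst e (subst (map ε g) l' : K'⟦X⟧) : K'⟦X⟧)
          = subst (subst e (map ε g) : K'⟦X⟧) l' := subst_comp_subst_apply (hs hg'0) hes l'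
      rw [← e1, hlg, subst_mul hes, hCe, hle, hG]
      have e2 : map j (l.subst U : K⟦X⟧) = (map j l).subst (map j U) := map_subst (hs hU0) l
      rw [hU, ← hl', hV, hmap] at e2
      rw [← e2, map_mul, map_C, ← mul_assoc, ← map_mul, hε', ← map_mul, mul_inv_cancel₀ hϖK,
        map_one, map_one, one_mul]
  -- the algebraic relation
  have hrel : (map ε V) ^ 2 * (1 + C (ε n2) * S + C (ε n1) * S ^ 2 + C (ε n0) * S ^ 3)
      = S * (C (ε F.ϖ) + C (ε δ) * S) ^ 2 := by
    obtain ⟨ψe, hψe⟩ : ∃ ψe : K'⟦X⟧, ψe = (map ε ψ).subst e := ⟨_, rfl⟩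
    obtain ⟨ψie, hψie⟩ : ∃ ψie : K'⟦X⟧, ψie = (map ε ψi).subst e := ⟨_, rfl⟩
    have hprod : ψe * ψie = 1 := by
      rw [hψe, hψie, ← subst_mul hes, ← map_mul, hd.ψ_inv, map_one, h1e]
    have hsq : ψe ^ 2 = 1 + C (ε n2) * S + C (ε n1) * S ^ 2 + C (ε n0) * S ^ 3 := by
      rw [hψe, ← subst_pow hes, ← map_pow, hd.ψ_sq]
      simp only [map_add, map_mul, map_pow, map_one, map_C, map_X]
      rw [subst_add hes, subst_add hes, subst_add hes, subst_mul hes,
        subst_mul hes, subst_mul hes, hCe, hCe, hCe, h1e, subst_pow hes, subst_pow hes,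
        subst_pow hes, subst_X hes, ← he]
      ring
    have hx : map ε V = e * (C (ε F.ϖ) + C (ε δ) * S) * ψie := by
      rw [hVe, hd.g_eq]
      simp only [map_add, map_mul, map_pow, map_C, map_X]
      rw [subst_mul hes, subst_mul hes, subst_add hes, subst_mul hes, hCe, hCe, subst_pow hes,
        subst_X hes, he, hψie]
    rw [← hsq, hx, ← he]
    linear_combination (e ^ 2 * (C (ε F.ϖ) + C (ε δ) * e ^ 2) ^ 2) * (ψe * ψie + 1) * hprod
  obtain ⟨b, hb⟩ := h.δ_one
  have hdvd : ∀ a : O, F.ϖ ∣ a → ρ ∣ i a := fun a ha => hϖ.trans (map_dvd i ha)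
  refine descent inj' hρ hsep hϖ (hdvd _ h.dvd_n2) (hdvd _ h.dvd_n1) (hdvd _ h.dvd_n0)
    (δ := i δ) ?_ (V := map i V) ?_ ?_ (S := S) ?_ hAB
  · rw [hb, map_add, map_one, add_sub_cancel_left]
    exact hdvd _ ⟨b, rfl⟩
  · rw [constantCoeff_map', hV0, map_zero]
  · rw [coeff_map]
    exact fun h' => hV1 (hlie _ h')
  · rw [hmap', hij, hij, hij, hij, hij, ← hε', ← hε', ← hε', ← hε', ← hε']
    exact hrel

/-- the recursion `H_{qn} = ϖ⁻¹ σ(H_n)`, `H_n` integral for `n` prime to `q`, gives the functional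
equation. -/
theorem FE_of_coeff {O K : Type*} [CommRing O] [Field K] [Algebra O K] (F : Frame O K) {H : K⟦X⟧}
    (h1 : ∀ n : ℕ, algebraMap O K F.ϖ * coeff (F.q * n) H = F.σK (coeff n H))
    (h2 : ∀ n : ℕ, ¬ F.q ∣ n → ∃ a : O, coeff n H = algebraMap O K a) : F.FE H := by
  choose! a ha using h2
  refine ⟨PowerSeries.mk fun n => if F.q ∣ n then 0 else a n, ?_⟩
  ext n
  rw [map_sub, coeff_C_mul, F.coeff_Φ, coeff_map, coeff_C_mul, coeff_mk, map_mul]
  by_cases hn : F.q ∣ n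
  · obtain ⟨k, rfl⟩ := hn
    rw [if_pos (Dvd.intro k rfl), if_pos (Dvd.intro k rfl),
      Nat.mul_div_cancel_left _ (Nat.pos_of_ne_zero F.q_ne_zero), h1, map_zero, mul_zero, sub_self]
  · rw [if_neg hn, if_neg hn, sub_zero, ha n hn]

end Frame

end Pool.Agent.MU3A2
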