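import Pool.Agent.MU3.A2Base

/-! # MU3, block A2, part 2: the functional equation lemma (Honda, Hazewinkel)

`Frame O K` packs the local data: `ϖ` a uniformiser of `O` (in applications a localisation of a
ring of integers, no completion needed), `σ` a Frobenius lift of order `q`. -/

namespace Pool.Agent.MU3A2

open PowerSeries

/-- the data: `O ⊂ K`, the prime element `ϖ`, the Frobenius `σ` with `σ a = a ^ q` modulo `ϖ`. -/
structure Frame (O K : Type*) [CommRing O] [Field K] [Algebra O K] where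
  /-- residue characteristic -/
  p : ℕ
  /-- residue degree -/
  f : ℕ
  /-- `q = p ^ f` -/
  q : ℕ
  prime_p : p.Prime
  q_eq : q = p ^ f
  one_lt_q : 1 < q
  /-- the prime element -/
  ϖ : O
  ne_zero : ϖ ≠ 0
  div_pow : ∀ n : ℕ, 1 ≤ n → ∃ c : O, ϖ ^ n = n * (ϖ * c)
  dvd_p : ∃ u : O, (p : O) = ϖ * u
  /-- the Frobenius -/
  σ : O →+* O
  frob : ∀ a, ∃ b, σ a = a ^ q + ϖ * b
  σ_ϖ : σ ϖ = ϖ
  /-- the Frobenius of the field -/
  σK : K →+* K
  σK_alg : ∀ a, σK (algebraMap O K a) = algebraMap O K (σ a)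
  inj : Function.Injective (algebraMap O K)

namespace Frame

variable {O K : Type*} [CommRing O] [Field K] [Algebra O K] (F : Frame O K)

theorem q_ne_zero : F.q ≠ 0 := by have := F.one_lt_q; omega

/-- the image of an integral power series -/
noncomputable abbrev ι : O⟦X⟧ →+* K⟦X⟧ := map (algebraMap O K)

/-- `G(X) ↦ G^σ(X^q)` -/
noncomputable def Φ (G : K⟦X⟧) : K⟦X⟧ := expand F.q F.q_ne_zero (map F.σK G)

theorem Φ_sub (G H : K⟦X⟧) : F.Φ (G - H) = F.Φ G - F.Φ H := by
  simp [Φ]

theorem ϖK_ne_zero : algebraMap O K F.ϖ ≠ 0 := fun h => F.ne_zero (F.inj (by rw [h, map_zero]))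

theorem coeff_Φ (G : K⟦X⟧) (n : ℕ) :
    coeff n (F.Φ G) = if F.q ∣ n then F.σK (coeff (n / F.q) G) else 0 := by
  rw [Φ, coeff_expand]
  split_ifs <;> simp

theorem map_σK_ι (V : O⟦X⟧) : map F.σK (map (algebraMap O K) V) = map (algebraMap O K) (map F.σ V) := by
  ext n
  simp [F.σK_alg]

/-- `H` satisfies the functional equation `ϖ H - H^σ(X^q) ∈ ϖ O[[X]]`. -/
def FE (H : K⟦X⟧) : Prop :=
  ∃ E : O⟦X⟧, C (algebraMap O K F.ϖ) * H - F.Φ H = map (algebraMap O K) (C F.ϖ * E)

theorem FE.sub {G H : K⟦X⟧} (hG : F.FE G) (hH : F.FE H) : F.FE (G - H) := by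
  obtain ⟨A, hA⟩ := hG
  obtain ⟨B, hB⟩ := hH
  refine ⟨A - B, ?_⟩
  rw [F.Φ_sub, mul_sub, mul_sub, map_sub, ← hA, ← hB]
  ring

/-- the first coefficient of a solution of the functional equation is integral. -/
theorem FE.first {H : K⟦X⟧} (hH : F.FE H) {n : ℕ} (hn : ∀ k < n, coeff k H = 0) (hn0 : n ≠ 0) :
    ∃ a : O, coeff n H = algebraMap O K a := by
  obtain ⟨E, hE⟩ := hH
  have h := congrArg (coeff n) hE
  rw [map_sub, coeff_C_mul, F.coeff_Φ, coeff_map, coeff_C_mul, map_mul] at h
  have h0 : (if F.q ∣ n then F.σK (coeff (n / F.q) H) else 0) = 0 := by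
    split_ifs with hd
    · rw [hn _ (Nat.div_lt_self (Nat.pos_of_ne_zero hn0) F.one_lt_q), map_zero]
    · rfl
  rw [h0, sub_zero] at h
  exact ⟨_, mul_left_cancel₀ F.ϖK_ne_zero h⟩

end Frame

section Trunc

variable {K : Type*} [Field K]

theorem X_pow_dvd_pow_sub {U W : K⟦X⟧} {n : ℕ} (hn : n ≠ 0) (hW : constantCoeff W = 0)
    (h : X ^ n ∣ U - W) (m : ℕ) : X ^ (n + 1) ∣ U ^ (m + 2) - W ^ (m + 2) := by
  have hU : constantCoeff U = 0 := by
    have := (X_pow_dvd_iff.1 h) 0 (Nat.pos_of_ne_zero hn)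
    rw [map_sub, coeff_zero_eq_constantCoeff_apply, coeff_zero_eq_constantCoeff_apply, hW,
      sub_zero] at this
    exact this
  have h1 : X ∣ U := X_dvd_iff.2 hU
  have h2 : X ∣ W ^ (m + 1) := dvd_pow (X_dvd_iff.2 hW) (by omega)
  have h3 : X ^ n ∣ U ^ (m + 1) - W ^ (m + 1) := h.trans (sub_dvd_pow_sub_pow U W (m + 1))
  have h4 : U ^ (m + 2) - W ^ (m + 2) = (U ^ (m + 1) - W ^ (m + 1)) * U + (U - W) * W ^ (m + 1) := by
    ring
  rw [h4, pow_succ]
  exact dvd_add (mul_dvd_mul h3 h1) (mul_dvd_mul h h2)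

theorem coeff_subst_lt {l U W : K⟦X⟧} {n : ℕ} (hU : constantCoeff U = 0)
    (hW : constantCoeff W = 0) (h : X ^ n ∣ U - W) {k : ℕ} (hk : k < n) :
    coeff k (l.subst U) = coeff k (l.subst W) := by
  rw [coeff_subst_range hU, coeff_subst_range hW]
  refine Finset.sum_congr rfl fun m _ => ?_
  have := (X_pow_dvd_iff.1 (h.trans (sub_dvd_pow_sub_pow U W m))) k hk
  rw [map_sub, sub_eq_zero] at this
  rw [this]

theorem coeff_subst_eq {l U W : K⟦X⟧} {n : ℕ} (hn : n ≠ 0) (hU : constantCoeff U = 0)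
    (hW : constantCoeff W = 0) (h : X ^ n ∣ U - W) :
    coeff n (l.subst U) - coeff n (l.subst W) = coeff 1 l * coeff n (U - W) := by
  rw [coeff_subst_range hU, coeff_subst_range hW, ← Finset.sum_sub_distrib,
    Finset.sum_eq_single_of_mem 1 (by simp; omega)]
  · simp only [pow_one, map_sub]; ring
  · intro m _ hm
    rw [← mul_sub, ← map_sub]
    rcases m with _ | _ | m
    · simp
    · exact absurd rfl hm
    · rw [(X_pow_dvd_iff.1 (X_pow_dvd_pow_sub hn hW h m)) n (by omega), mul_zero]

end Trunc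

namespace Frame

variable {O K : Type*} [CommRing O] [Field K] [Algebra O K] (F : Frame O K)

/-- the data of a logarithm: `l` has integral derivative, is fixed by `σ`, and `ϖ l = l(g)` with
`g = X ^ q` modulo `ϖ`. -/
structure IsLog (l : K⟦X⟧) (g : O⟦X⟧) : Prop where
  const : constantCoeff l = 0
  one : coeff 1 l = 1
  der : ∀ n : ℕ, ∃ a : O, (n : K) * coeff n l = algebraMap O K a
  frob : map F.σK l = l
  gconst : constantCoeff g = 0
  gfrob : ∃ D : O⟦X⟧, g = X ^ F.q + C F.ϖ * D
  end_eq : l.subst (map (algebraMap O K) g) = C (algebraMap O K F.ϖ) * l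

variable {F}

theorem hasSubst_of_const {R : Type*} [CommRing R] {V : R⟦X⟧} (hV : constantCoeff V = 0) :
    HasSubst V := HasSubst.of_constantCoeff_zero' hV

/-- the logarithm of an integral series satisfies the functional equation. -/
theorem IsLog.FE_subst {l : K⟦X⟧} {g : O⟦X⟧} (h : F.IsLog l g) {V : O⟦X⟧}
    (hV : constantCoeff V = 0) : F.FE (l.subst (map (algebraMap O K) V)) := by
  have hVK : constantCoeff (map (algebraMap O K) V) = 0 := by rw [constantCoeff_map', hV, map_zero]
  have hσV : constantCoeff (map F.σ V) = 0 := by rw [constantCoeff_map', hV, map_zero]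
  have hgK : constantCoeff (map (algebraMap O K) g) = 0 := by
    rw [constantCoeff_map', h.gconst, map_zero]
  -- `ϖ l(V) = l(g(V))`
  have h1 : C (algebraMap O K F.ϖ) * l.subst (map (algebraMap O K) V)
      = l.subst (map (algebraMap O K) (g.subst V)) := by
    have e1 : map (algebraMap O K) (g.subst V)
        = (map (algebraMap O K) g).subst (map (algebraMap O K) V) :=
      map_subst (hasSubst_of_const hV) g
    rw [e1, ← subst_comp_subst_apply (hasSubst_of_const hgK) (hasSubst_of_const hVK), h.end_eq,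
      subst_mul (hasSubst_of_const hVK)]
    congr 1
    exact (subst_C (a := map (algebraMap O K) V) (algebraMap O K F.ϖ)).symm
  -- `l(V)^σ (X^q) = l(V^σ(X^q))`
  have h2 : F.Φ (l.subst (map (algebraMap O K) V))
      = l.subst (map (algebraMap O K) (expand F.q F.q_ne_zero (map F.σ V))) := by
    have e1 : map F.σK (l.subst (map (algebraMap O K) V))
        = (map F.σK l).subst (map F.σK (map (algebraMap O K) V)) :=
      map_subst (hasSubst_of_const hVK) l
    have hσVK : constantCoeff (map (algebraMap O K) (map F.σ V)) = 0 := by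
      rw [constantCoeff_map', hσV, map_zero]
    rw [Φ, e1, h.frob, F.map_σK_ι, map_expand]
    exact expand_subst F.q F.q_ne_zero (hasSubst_of_const hσVK) l
  obtain ⟨D, hD⟩ := h.gfrob
  obtain ⟨E, hE⟩ := expand_congr F.prime_p F.q_eq F.q_ne_zero F.dvd_p F.frob V
  have hA : g.subst V = expand F.q F.q_ne_zero (map F.σ V) + C F.ϖ * (E + D.subst V) := by
    have e1 : (C F.ϖ : O⟦X⟧).subst V = C F.ϖ := subst_C (a := V) F.ϖ
    rw [hD, subst_add (hasSubst_of_const hV), subst_pow (hasSubst_of_const hV),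
      subst_X (hasSubst_of_const hV), subst_mul (hasSubst_of_const hV), e1, hE]
    ring
  have hA0 : constantCoeff (g.subst V) = 0 :=
    constantCoeff_subst_eq_zero hV g h.gconst
  have hB0 : constantCoeff (expand F.q F.q_ne_zero (map F.σ V)) = 0 := by
    rw [constantCoeff_expand, hσV]
  obtain ⟨E', hE'⟩ := subst_congr F.div_pow h.der hA0 hB0 hA
  exact ⟨E', by rw [h1, h2, hE']⟩

/-- **The functional equation lemma**: if `l(U)` satisfies the functional equation then `U` is
integral. -/
theorem IsLog.integral_of_FE {l : K⟦X⟧} {g : O⟦X⟧} (h : F.IsLog l g) {U : K⟦X⟧}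
    (hU : constantCoeff U = 0) (hH : F.FE (l.subst U)) :
    ∃ V : O⟦X⟧, constantCoeff V = 0 ∧ U = map (algebraMap O K) V := by
  have key : ∀ n : ℕ, ∃ a : O, coeff n U = algebraMap O K a := by
    intro n
    induction n using Nat.strong_induction_on with
    | _ n ih =>
      rcases Nat.eq_zero_or_pos n with rfl | hn
      · exact ⟨0, by rw [map_zero, coeff_zero_eq_constantCoeff_apply, hU]⟩
      choose! v hv using ih
      set V : O⟦X⟧ := PowerSeries.mk fun k => if k < n then v k else 0 with hVdef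
      have hdvd : X ^ n ∣ U - map (algebraMap O K) V := by
        rw [X_pow_dvd_iff]
        intro k hk
        rw [map_sub, coeff_map, hVdef, coeff_mk, if_pos hk, hv k hk, sub_self]
      have hVK : constantCoeff (map (algebraMap O K) V) = 0 := by
        have := (X_pow_dvd_iff.1 hdvd) 0 hn
        rw [map_sub, coeff_zero_eq_constantCoeff_apply, coeff_zero_eq_constantCoeff_apply, hU,
          zero_sub, neg_eq_zero] at this
        exact this
      have hV : constantCoeff V = 0 := F.inj (by rw [← constantCoeff_map', hVK, map_zero])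
      have hFE := FE.sub F hH (h.FE_subst hV)
      have hz : ∀ k < n, coeff k (l.subst U - l.subst (map (algebraMap O K) V)) = 0 := by
        intro k hk
        rw [map_sub, coeff_subst_lt hU hVK hdvd hk, sub_self]
      obtain ⟨a, ha⟩ := FE.first F hFE hz (by omega)
      refine ⟨a, ?_⟩
      rw [map_sub, coeff_subst_eq (by omega) hU hVK hdvd, h.one, one_mul, map_sub, coeff_map,
        hVdef, coeff_mk, if_neg (lt_irrefl n), map_zero, sub_zero] at ha
      exact ha
  choose v hv using key
  refine ⟨PowerSeries.mk v, F.inj ?_, ?_⟩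
  · rw [map_zero, ← constantCoeff_map']
    have : map (algebraMap O K) (PowerSeries.mk v) = U := by ext n; simp [hv]
    rw [this, hU]
  · ext n
    simp [hv]

end Frame

end Pool.Agent.MU3A2
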