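import Pool.Agent.MU3.A2Curve

/-! # MU3, block A2, part 4: the curve and the isogeny give a logarithm in the sense of `IsLog` -/

namespace Pool.Agent.MU3A2

open PowerSeries

section Antider

variable {K : Type*} [Field K] [CharZero K]

/-- the antiderivative without constant term -/
noncomputable def antider (w : K⟦X⟧) : K⟦X⟧ := PowerSeries.mk fun n => coeff (n - 1) w / n

theorem derivative_antider (w : K⟦X⟧) : d⁄dX K (antider w) = w := by
  ext n
  have : ((n : K) + 1) ≠ 0 := by exact_mod_cast Nat.succ_ne_zero n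
  rw [coeff_derivative, antider, coeff_mk, Nat.add_sub_cancel]
  push_cast
  field_simp

omit [CharZero K] in
theorem constantCoeff_antider (w : K⟦X⟧) : constantCoeff (antider w) = 0 := by
  rw [← coeff_zero_eq_constantCoeff_apply, antider, coeff_mk]
  simp

omit [CharZero K] in
theorem coeff_one_antider (w : K⟦X⟧) : coeff 1 (antider w) = constantCoeff w := by
  rw [antider, coeff_mk]
  simp

/-- the square root of a series `X² + ⋯`. -/
theorem exists_root {s : K⟦X⟧} (s0 : coeff 0 s = 0) (s1 : coeff 1 s = 0) (s2 : coeff 2 s = 1) :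
    ∃ e : K⟦X⟧, e ^ 2 = s ∧ constantCoeff e = 0 ∧ coeff 1 e = 1 := by
  have hd : X ^ 2 ∣ s := by
    rw [X_pow_dvd_iff]
    intro m hm
    interval_cases m
    · exact s0
    · exact s1
  obtain ⟨t, ht⟩ := hd
  have ht0 : constantCoeff t = 1 := by
    have := congrArg (coeff 2) ht
    rw [s2, show (2 : ℕ) = 0 + 2 by rfl, coeff_X_pow_mul, coeff_zero_eq_constantCoeff_apply] at this
    exact this.symm
  obtain ⟨ρ, hρ, hρ0, -⟩ := exists_sqrt (R := K) (u := 1 / 2) (by norm_num) ht0
  refine ⟨X * ρ, by rw [mul_pow, hρ, ht], by simp, ?_⟩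
  rw [coeff_one_mul]
  simp [hρ0]

/-- the exponential is inverse to the logarithm -/
theorem log_subst_exp {φ φi e s : K⟦X⟧} {b2 b4 b6 : K} (hφ0 : constantCoeff φ = 1)
    (hφ : φ ^ 2 = 1 + C b2 * X ^ 2 + C b4 * X ^ 4 + C b6 * X ^ 6) (hinv : φ * φi = 1)
    (he : e ^ 2 = s) (he0 : constantCoeff e = 0) (he1 : coeff 1 e = 1)
    (ode : (d⁄dX K s) ^ 2 = 4 * s * (1 + C b2 * s + C b4 * s ^ 2 + C b6 * s ^ 3)) :
    (antider φi).subst e = (X : K⟦X⟧) := by
  have hes := hs he0
  set φe : K⟦X⟧ := φ.subst e with hφe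
  set φie : K⟦X⟧ := φi.subst e with hφie
  have hC : ∀ c : K, ((C c : K⟦X⟧).subst e : K⟦X⟧) = C c := fun c => subst_C (a := e) c
  have h1 : ((1 : K⟦X⟧).subst e : K⟦X⟧) = 1 := by rw [← coe_substAlgHom hes, map_one]
  have hsq : φe ^ 2 = 1 + C b2 * s + C b4 * s ^ 2 + C b6 * s ^ 3 := by
    rw [hφe, ← subst_pow hes, hφ, subst_add hes, subst_add hes, subst_add hes, subst_mul hes,
      subst_mul hes, subst_mul hes, hC, hC, hC, h1, subst_pow hes, subst_pow hes, subst_pow hes,
      subst_X hes, ← he]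
    ring
  have hprod : φe * φie = 1 := by
    rw [hφe, hφie, ← subst_mul hes, hinv, h1]
  have hφe0 : constantCoeff φe = 1 := by
    have h2 : φ = C 1 + X * (PowerSeries.mk fun p => coeff (p + 1) φ) := by
      conv_lhs => rw [← sub_add_cancel φ (C (constantCoeff φ)), sub_const_eq_X_mul_shift, hφ0]
      ring
    rw [hφe, h2, subst_add hes, subst_mul hes, hC, subst_X hes]
    simp [he0]
  have hene : e ≠ 0 := by
    rintro rfl
    simp at he1
  have hder : d⁄dX K s = 2 * e * d⁄dX K e := by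
    rw [← he, derivative_pow]
    simp
  have hde : (d⁄dX K e) ^ 2 = φe ^ 2 := by
    have h4 : (4 : K⟦X⟧) * e ^ 2 ≠ 0 := by
      refine mul_ne_zero ?_ (pow_ne_zero 2 hene)
      intro h
      have h' := congrArg (constantCoeff (R := K)) h
      rw [map_ofNat, map_zero] at h'
      exact (by norm_num : (4 : K) ≠ 0) h'
    apply mul_left_cancel₀ h4
    rw [hder, ← hsq, ← he] at ode
    linear_combination ode
  have hde0 : constantCoeff (d⁄dX K e) = 1 := by
    rw [← coeff_zero_eq_constantCoeff_apply, coeff_derivative]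
    simp [he1]
  have heq : d⁄dX K e = φe := sqrt_unique (u := (1 / 2 : K)) (by norm_num) hde hde0 hφe0
  apply derivative.ext
  · rw [derivative_subst hes, derivative_antider, heq, derivative_X, mul_comm]
    exact hprod
  · rw [constantCoeff_X]
    exact constantCoeff_subst_eq_zero he0 _ (constantCoeff_antider φi)

end Antider

namespace Frame

variable {O K : Type*} [CommRing O] [IsDomain O] [Field K] [CharZero K] [Algebra O K]

/-- the curve `y² = x³ + a₂x² + a₄x + a₆` with multiplication by `ϖ`, seen through the power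
series `s(z) = 1/x(z)` and the reversed polynomials `N`, `D` of the isogeny:
`s(ϖ z) = s(z) D(s(z))² / N(s(z))`, `N = 1`, `D = S ^ m` modulo `ϖ`, `q = 2 m + 1`. -/
structure CurveIso (F : Frame O K) (a2 a4 a6 : O) (s : K⟦X⟧) (m : ℕ) (N D : ℕ → O) : Prop where
  two : ∃ u : O, 2 * u = 1
  σ_a2 : F.σ a2 = a2
  σ_a4 : F.σ a4 = a4
  σ_a6 : F.σ a6 = a6
  q_odd : F.q = 2 * m + 1
  s0 : coeff 0 s = 0
  s1 : coeff 1 s = 0
  s2 : coeff 2 s = 1
  ode : (d⁄dX K s) ^ 2 = 4 * s * (1 + C (algebraMap O K a2) * s + C (algebraMap O K a4) * s ^ 2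
    + C (algebraMap O K a6) * s ^ 3)
  N_zero : N 0 = 1
  N_dvd : ∀ i, 1 ≤ i → i ≤ F.q → F.ϖ ∣ N i
  D_zero : D 0 = F.ϖ
  D_top : ∃ b, D m = 1 + F.ϖ * b
  D_dvd : ∀ i, i < m → F.ϖ ∣ D i
  iso : rescale (algebraMap O K F.ϖ) s * ev N F.q s = s * ev D m s ^ 2

variable {F : Frame O K} {a2 a4 a6 : O} {s : K⟦X⟧} {m : ℕ} {N D : ℕ → O}

omit [IsDomain O] [CharZero K] in
theorem CurveIso.m_pos (h : F.CurveIso a2 a4 a6 s m N D) : 1 ≤ m := by
  have h1 := F.one_lt_q
  have h2 := h.q_odd
  omega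

omit [IsDomain O] in
/-- the integral series `g` of multiplication by `ϖ` in the parameter `t = x ^ (-1/2)`. -/
theorem CurveIso.exists_g (h : F.CurveIso a2 a4 a6 s m N D) {e : K⟦X⟧} (he : e ^ 2 = s)
    (he0 : constantCoeff e = 0) (he1 : coeff 1 e = 1) :
    ∃ g : O⟦X⟧, constantCoeff g = 0 ∧ (∃ E : O⟦X⟧, g = X ^ F.q + C F.ϖ * E) ∧
      (map (algebraMap O K) g).subst e = rescale (algebraMap O K F.ϖ) e := by
  obtain ⟨u, hu⟩ := h.two
  have hes := hs he0
  have hC : ∀ c : K, ((C c : K⟦X⟧).subst e : K⟦X⟧) = C c := fun c => subst_C (a := e) c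
  have h1 : ((1 : K⟦X⟧).subst e : K⟦X⟧) = 1 := by rw [← coe_substAlgHom hes, map_one]
  -- the series of `N(X²)`
  have hNlow : ∃ E : O⟦X⟧, ev N F.q (X ^ 2 : O⟦X⟧) = 1 + C F.ϖ * E := by
    obtain ⟨E, hE⟩ := hev_low N F.q h.N_zero h.N_dvd (1 : O⟦X⟧) (X ^ 2)
    refine ⟨E, ?_⟩
    rw [one_pow] at hE
    rw [← hE, ev, hev]
    exact Finset.sum_congr rfl fun i _ => by rw [one_pow, mul_one]; rfl
  have hDhigh : ∃ E : O⟦X⟧, ev D m (X ^ 2 : O⟦X⟧) = X ^ (2 * m) + C F.ϖ * E := by
    obtain ⟨E, hE⟩ := hev_high D m h.D_top h.D_dvd (1 : O⟦X⟧) (X ^ 2)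
    refine ⟨E, ?_⟩
    rw [← pow_mul] at hE
    rw [← hE, ev, hev]
    exact Finset.sum_congr rfl fun i _ => by rw [one_pow, mul_one]; rfl
  have hev0 : ∀ (c : ℕ → O) (n : ℕ), constantCoeff (ev c n (X ^ 2 : O⟦X⟧)) = c 0 := by
    intro c n
    rw [ev, map_sum, Finset.sum_eq_single_of_mem 0 (by simp)]
    · simp
    · intro i _ hi
      simp [hi]
  obtain ⟨ψ, hψ, hψ0, hψE⟩ := exists_sqrt hu (f := ev N F.q (X ^ 2 : O⟦X⟧))
    (by rw [hev0, h.N_zero])
  obtain ⟨ψi, hψi, hψi0⟩ := exists_inv hψ0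
  obtain ⟨E1, hE1⟩ := hNlow
  obtain ⟨E2, hE2⟩ := hDhigh
  obtain ⟨E3, hE3⟩ := hψE F.ϖ E1 hE1
  have hψi' : ψi = 1 - C F.ϖ * (E3 * ψi) := by
    rw [hE3] at hψi
    linear_combination hψi
  refine ⟨X * ev D m (X ^ 2 : O⟦X⟧) * ψi, by simp, ?_, ?_⟩
  · refine ⟨X * E2 * ψi - X ^ (2 * m + 1) * (E3 * ψi), ?_⟩
    rw [hE2, h.q_odd]
    linear_combination (X ^ (2 * m + 1)) * hψi'
  · -- square comparison
    set ψK : K⟦X⟧ := (map (algebraMap O K) ψ).subst e with hψK
    set ψiK : K⟦X⟧ := (map (algebraMap O K) ψi).subst e with hψiK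
    have hprod : ψK * ψiK = 1 := by
      rw [hψK, hψiK, ← subst_mul hes, ← map_mul, hψi, map_one, h1]
    have hX2 : ∀ (c : ℕ → O) (n : ℕ),
        ((map (algebraMap O K) (ev c n (X ^ 2 : O⟦X⟧))).subst e : K⟦X⟧) = ev c n s := by
      intro c n
      rw [map_ev, subst_ev c n _ he0, map_pow, map_X, subst_pow hes, subst_X hes, he]
    have hψK2 : ψK ^ 2 = ev N F.q s := by
      rw [hψK, ← subst_pow hes, ← map_pow, hψ, hX2]
    have hr : rescale (algebraMap O K F.ϖ) e ^ 2 = rescale (algebraMap O K F.ϖ) s := by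
      rw [← map_pow, he]
    have hsq : (rescale (algebraMap O K F.ϖ) e * ψK) ^ 2 = (e * ev D m s) ^ 2 := by
      rw [mul_pow, mul_pow, hr, hψK2, he, h.iso]
    have hψK0 : constantCoeff ψK = 1 := by
      have h2 : map (algebraMap O K) ψ
          = C 1 + X * (PowerSeries.mk fun p => coeff (p + 1) (map (algebraMap O K) ψ)) := by
        conv_lhs => rw [← sub_add_cancel (map (algebraMap O K) ψ)
          (C (constantCoeff (map (algebraMap O K) ψ))), sub_const_eq_X_mul_shift,
          constantCoeff_map', hψ0, map_one]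
        ring
      rw [hψK, h2, subst_add hes, subst_mul hes, hC, subst_X hes]
      simp [he0]
    have hevs : constantCoeff (ev D m s) = algebraMap O K F.ϖ := by
      rw [ev, map_sum, Finset.sum_eq_single_of_mem 0 (by simp)]
      · simp [h.D_zero]
      · intro i _ hi
        have : constantCoeff s = 0 := by rw [← coeff_zero_eq_constantCoeff_apply, h.s0]
        simp [hi, this]
    have heq : rescale (algebraMap O K F.ϖ) e * ψK = e * ev D m s := by
      rcases sq_eq_sq_iff_eq_or_eq_neg.1 hsq with h' | h'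
      · exact h'
      · exfalso
        have := congrArg (coeff 1) h'
        rw [map_neg, coeff_one_mul, coeff_one_mul, coeff_rescale, he1, hψK0, hevs, he0] at this
        simp only [← coeff_zero_eq_constantCoeff_apply, coeff_rescale] at this
        rw [coeff_zero_eq_constantCoeff_apply, he0] at this
        simp only [pow_one, mul_one, mul_zero, add_zero, one_mul] at this
        have h2 : (2 : K) * algebraMap O K F.ϖ = 0 := by linear_combination this
        rcases mul_eq_zero.1 h2 with h3 | h3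
        · exact two_ne_zero h3
        · exact F.ϖK_ne_zero h3
    rw [map_mul, map_mul, map_X, subst_mul hes, subst_mul hes, subst_X hes, hX2, ← hψiK, ← heq,
      mul_assoc, hprod, mul_one]

/-- the logarithm attached to the curve. -/
theorem CurveIso.exists_log (h : F.CurveIso a2 a4 a6 s m N D) :
    ∃ (l e : K⟦X⟧) (g : O⟦X⟧), F.IsLog l g ∧ e ^ 2 = s ∧ constantCoeff e = 0 ∧ coeff 1 e = 1 ∧
      l.subst e = X := by
  obtain ⟨e, he, he0, he1⟩ := exists_root h.s0 h.s1 h.s2
  obtain ⟨g, hg0, hgE, hge⟩ := h.exists_g he he0 he1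
  obtain ⟨u, hu⟩ := h.two
  obtain ⟨φ, hφ, hφ0, -⟩ := exists_sqrt hu
    (f := 1 + C a2 * X ^ 2 + C a4 * X ^ 4 + C a6 * X ^ 6) (by simp)
  obtain ⟨φi, hφi, hφi0⟩ := exists_inv hφ0
  have hle : (antider (map (algebraMap O K) φi)).subst e = (X : K⟦X⟧) := by
    refine log_subst_exp (φ := map (algebraMap O K) φ) (b2 := algebraMap O K a2)
      (b4 := algebraMap O K a4) (b6 := algebraMap O K a6) ?_ ?_ ?_ he he0 he1 h.ode
    · rw [constantCoeff_map', hφ0, map_one]
    · rw [← map_pow, hφ]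
      simp
    · rw [← map_mul, hφi, map_one]
  set l := antider (map (algebraMap O K) φi) with hl
  have hl0 : constantCoeff l = 0 := constantCoeff_antider _
  have hel : e.subst l = X := left_inv_of_right_inv he0 he1 hle
  refine ⟨l, e, g, ⟨hl0, ?_, ?_, ?_, hg0, hgE, ?_⟩, he, he0, he1, hle⟩
  · rw [hl, coeff_one_antider, constantCoeff_map', hφi0, map_one]
  · intro n
    rcases Nat.eq_zero_or_pos n with rfl | hn
    · exact ⟨0, by simp⟩
    refine ⟨coeff (n - 1) φi, ?_⟩
    have hn' : (n : K) ≠ 0 := by exact_mod_cast (by omega : n ≠ 0)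
    rw [hl, antider, coeff_mk, coeff_map]
    field_simp
  · -- `σ`-invariance
    have hσφ : map F.σ φ = φ := by
      apply sqrt_unique hu
      · rw [← map_pow, hφ]
        simp [h.σ_a2, h.σ_a4, h.σ_a6]
      · rw [constantCoeff_map', hφ0, map_one]
      · exact hφ0
    have hσφi : map F.σ φi = φi := by
      have e1 : φ * map F.σ φi = 1 := by
        conv_lhs => rw [← hσφ]
        rw [← map_mul, hφi, map_one]
      calc map F.σ φi = (φ * φi) * map F.σ φi := by rw [hφi, one_mul]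
        _ = (φ * map F.σ φi) * φi := by ring
        _ = φi := by rw [e1, one_mul]
    ext n
    rw [coeff_map, hl, antider, coeff_mk, map_div₀, map_natCast, coeff_map, F.σK_alg]
    congr 2
    conv_rhs => rw [← hσφi, coeff_map]
  · -- `ϖ l = l(g)`
    have hls := hs hl0
    have hes := hs he0
    have hgK0 : constantCoeff (map (algebraMap O K) g) = 0 := by
      rw [constantCoeff_map', hg0, map_zero]
    set r : K := algebraMap O K F.ϖ with hr
    have hrX : HasSubst (r • X : K⟦X⟧) := HasSubst.smul_X' r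
    have e1 : (subst (rescale r e) l : K⟦X⟧) = C r * X := by
      rw [rescale_eq_subst, ← subst_comp_subst_apply hes hrX, hle, subst_X hrX, smul_eq_C_mul]
    have e2 : (subst e (subst (map (algebraMap O K) g) l : K⟦X⟧) : K⟦X⟧) = C r * X := by
      rw [subst_comp_subst_apply (hs hgK0) hes, hge, e1]
    have e3 : (subst l (subst e (subst (map (algebraMap O K) g) l : K⟦X⟧) : K⟦X⟧) : K⟦X⟧)
        = subst (map (algebraMap O K) g) l := by
      rw [subst_comp_subst_apply hes hls, hel, X_subst]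
    rw [← e3, e2, subst_mul hls, subst_X hls]
    congr 1
    exact subst_C (a := l) r

end Frame

end Pool.Agent.MU3A2
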