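import Pool.Agent.MU3.A2Cur

/-! # MU3, block A2, part 11: the main theorem in the form used by Theorem G -/

set_option autoImplicit false

open MU3 PowerSeries Pool.Agent.MU3A Pool.Agent.MU3Q

namespace Pool.Agent.MU3A2

variable {A B : ℤ} {V : ValuationSubring ℂ}

theorem thetaD_eq (S : ℂ⟦X⟧) : thetaD S = X * d⁄dX ℂ S := by
  ext n
  rcases n with _ | n
  · simp [thetaD]
  · rw [thetaD, coeff_mk, coeff_succ_X_mul, coeff_derivative]
    push_cast
    ring

/-- **A2**: let `h` be the coefficients of a series satisfying Honda's functional equation with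
respect to `ϖ = -π` and the Frobenius `s`, with `h_1` a unit at `V`. The series `S = 1/x(h/ϖ)`,
characterised by its differential equation, is not a quotient of two power series with
coefficients in `K ∩ V`, for any number field `K`. -/
theorem main_A2 (hc : Case A B) (pV : emb (ppi A B) ∈ V.nonunits)
    {H : Type} [Field H] (io : H →+* ℂ) (j : OO A B →+* H) (io_j : ∀ x, io (j x) = emb x)
    (s : H ≃+* H) (fix : ∀ x, s (j x) = j x)
    (unr : ∀ y : H, io y ∈ V.nonunits → io y / emb (ppi A B) ∈ V)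
    (frob : ∀ x : H, io x ∈ V → io (s x) - io x ^ 3 ∈ V.nonunits)
    (h : ℕ → H) (h0 : h 0 = 0) (h1 : io (h 1) ∉ V.nonunits)
    (hFE : ∀ n, io (h n - if 3 ∣ n then (j (-ppi A B))⁻¹ * s (h (n / 3)) else 0) ∈ V)
    (K : Subfield ℂ) [NumberField K] (hK : ∀ y : H, io y ∈ K)
    {z S P Q : ℂ⟦X⟧} (hz : ∀ n, coeff n z = io (h n) / emb (-ppi A B))
    (S0 : coeff 0 S = 0) (S1 : coeff 1 S = 0) (S2 : coeff 2 S = coeff 1 z ^ 2)
    (ode : thetaD S ^ 2 = 4 * S * (1 + emb (a2 A B) • S + emb (a4 A B) • S ^ 2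
      + (emb (a6 A B) / 4) • S ^ 3) * thetaD z ^ 2)
    (hP : P ∈ PP K V) (hQ : Q ∈ PP K V) (hPQ : P * S = Q) : P = 0 := by
  have hchar : CharZero H := io.charZero
  have h3 := three_nonunit hc pV
  set F := frameV io hc pV j io_j s fix unr frob with hF
  have hjO : ∀ x, j x ∈ OV io V := fun x => by
    change io (j x) ∈ V
    rw [io_j]
    exact emb_mem_V hc x
  set jO : OO A B →+* OV io V := j.codRestrict (OV io V) hjO with hjOdef
  have h2V : ((2 : ℤ) : ℂ)⁻¹ ∈ V := inv_mem_of_coprime h3 ⟨-1, 1, by norm_num⟩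
  have h2H : (2 : H) ≠ 0 := two_ne_zero
  set u : OV io V := ⟨(2 : H)⁻¹, by
    change io _ ∈ V
    rw [map_inv₀, map_ofNat]
    simpa using h2V⟩ with hu
  have hu2 : 2 * u = 1 := by
    apply Subtype.ext
    change (2 : H) * (2 : H)⁻¹ = 1
    exact mul_inv_cancel₀ h2H
  obtain ⟨n2, n1, n0, δ, m2, m1, m0, hC3⟩ := curve3_of hc F jO rfl
    (fun x => Subtype.ext (fix x)) rfl hu2
  -- the uniformiser of `K ∩ V`
  set O' : Subring ℂ := V.toSubring ⊓ K.toSubring with hO'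
  obtain ⟨ρ, hρ0, hρ, hρu⟩ := exists_unif (V := V) K.subtype h3
  have hρ' : (ρ : ℂ) ∈ V.nonunits := hρ
  have hρC : (ρ : ℂ) ≠ 0 := fun h => hρ0 (by exact_mod_cast h)
  have memO' : ∀ x : ℂ, x ∈ O' ↔ x ∈ V ∧ x ∈ K := fun x => Iff.rfl
  set ρ' : O' := ⟨(ρ : ℂ), (memO' _).2 ⟨V_of_nonunit hρ', ρ.2⟩⟩ with hρ'def
  -- divisibility by the uniformiser
  have hdiv : ∀ x : O', (x : ℂ) ∈ V.nonunits → ρ' ∣ x := by
    intro x hx
    rcases eq_or_ne (x : ℂ) 0 with hx0 | hx0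
    · exact ⟨0, Subtype.ext (by rw [hx0]; simp)⟩
    have hxK : (x : ℂ) ∈ K := ((memO' _).1 x.2).2
    obtain ⟨e, v, he, hv1, hv2⟩ := hρu ⟨(x : ℂ), hxK⟩ (fun h => hx0 (congrArg Subtype.val h))
    have he' : (x : ℂ) = (ρ : ℂ) ^ e * (v : ℂ) := by
      have := congrArg K.subtype he
      rw [map_mul, map_zpow₀] at this
      exact this
    have hv0 : (v : ℂ) ≠ 0 := by
      intro h
      rw [h, mul_zero] at he'
      exact hx0 he'
    have hepos : 0 < e := by
      by_contra hle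
      push Not at hle
      -- then `1 ∈ nonunits`
      obtain ⟨k, hk⟩ := Int.eq_ofNat_of_zero_le (by omega : 0 ≤ -e)
      have hvx : (v : ℂ) ∈ V.nonunits := by
        have : (v : ℂ) = (ρ : ℂ) ^ k * (x : ℂ) := by
          rw [he', show e = -(k : ℤ) by omega, zpow_neg, zpow_natCast]
          field_simp
        rw [this]
        exact nonunit_mul (V.toSubring.pow_mem (V_of_nonunit hρ') k) hx
      have h1' := nonunit_mul hv2 hvx
      have h2' : (K.subtype v)⁻¹ * (v : ℂ) = 1 := inv_mul_cancel₀ hv0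
      rw [h2'] at h1'
      exact one_notMem h1'
    obtain ⟨k, hk⟩ := Int.eq_ofNat_of_zero_le (by omega : 0 ≤ e - 1)
    refine ⟨⟨(ρ : ℂ) ^ k * (v : ℂ), (memO' _).2 ⟨V.mul_mem _ _
      (V.toSubring.pow_mem (V_of_nonunit hρ') k) hv1, K.mul_mem (K.pow_mem ρ.2 k) v.2⟩⟩, ?_⟩
    apply Subtype.ext
    change (x : ℂ) = (ρ : ℂ) * ((ρ : ℂ) ^ k * (v : ℂ))
    rw [he', show e = ((k + 1 : ℕ) : ℤ) by push_cast; omega, zpow_natCast, pow_succ]
    ring
  have hdiv' : ∀ x : O', ρ' ∣ x → (x : ℂ) ∈ V.nonunits := by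
    rintro x ⟨y, rfl⟩
    have := nonunit_mul ((memO' _).1 y.2).1 hρ'
    rw [mul_comm] at this
    exact this
  have hprime : Prime ρ' := by
    refine ⟨fun h => hρC (congrArg Subtype.val h), fun h => ?_, ?_⟩
    · obtain ⟨y, hy⟩ := h.exists_right_inv
      have := hdiv' 1 ⟨y, hy.symm⟩
      exact one_notMem this
    · intro x y hxy
      by_contra hcon
      push Not at hcon
      have hx : (x : ℂ) ∉ V.nonunits := fun h => hcon.1 (hdiv x h)
      have hy : (y : ℂ) ∉ V.nonunits := fun h => hcon.2 (hdiv y h)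
      have hxy' : (x : ℂ) * (y : ℂ) ∈ V.nonunits := hdiv' _ hxy
      rw [ValuationSubring.mem_nonunits_iff_or] at hx hy
      push Not at hx hy
      have h1' := nonunit_mul (V.mul_mem _ _ hx.2 hy.2) hxy'
      have h2' : ((x : ℂ)⁻¹ * (y : ℂ)⁻¹) * ((x : ℂ) * (y : ℂ)) = 1 := by
        have hx0 := hx.1
        have hy0 := hy.1
        field_simp
      rw [h2'] at h1'
      exact one_notMem h1'
  have hsep : ∀ x : O', (∀ n : ℕ, ρ' ^ n ∣ x) → x = 0 := by
    intro x hx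
    by_contra hx0
    have hx0' : (x : ℂ) ≠ 0 := fun h => hx0 (Subtype.ext h)
    have hxK : (x : ℂ) ∈ K := ((memO' _).1 x.2).2
    obtain ⟨e, v, he, hv1, hv2⟩ := hρu ⟨(x : ℂ), hxK⟩ (fun h => hx0' (congrArg Subtype.val h))
    have he' : (x : ℂ) = (ρ : ℂ) ^ e * (v : ℂ) := by
      have := congrArg K.subtype he
      rw [map_mul, map_zpow₀] at this
      exact this
    obtain ⟨y, hy⟩ := hx (e.toNat + 1)
    have hy' : (x : ℂ) = (ρ : ℂ) ^ (e.toNat + 1) * (y : ℂ) := congrArg Subtype.val hy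
    have hv0 : (v : ℂ) ≠ 0 := by
      intro h
      rw [h, mul_zero] at he'
      exact hx0' he'
    obtain ⟨k, hk⟩ := Int.eq_ofNat_of_zero_le (by omega : 0 ≤ (e.toNat : ℤ) - e)
    have hv : (v : ℂ) = (ρ : ℂ) * ((ρ : ℂ) ^ k * (y : ℂ)) := by
      have e1 : (ρ : ℂ) ^ e * (v : ℂ) = (ρ : ℂ) ^ e * ((ρ : ℂ) * ((ρ : ℂ) ^ k * (y : ℂ))) := by
        rw [← he', hy', ← zpow_natCast (ρ : ℂ) (e.toNat + 1), ← zpow_natCast (ρ : ℂ) k,
          ← mul_assoc, ← mul_assoc, ← zpow_add_one₀ hρC, ← zpow_add₀ hρC]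
        congr 2
        push_cast
        omega
      exact mul_left_cancel₀ (zpow_ne_zero e hρC) e1
    have hvn : (v : ℂ) ∈ V.nonunits := by
      rw [hv, mul_comm]
      exact nonunit_mul (V.mul_mem _ _ (V.toSubring.pow_mem (V_of_nonunit hρ') k)
        ((memO' _).1 y.2).1) hρ'
    have h1' := nonunit_mul hv2 hvn
    have h2' : (K.subtype v)⁻¹ * (v : ℂ) = 1 := inv_mul_cancel₀ hv0
    rw [h2'] at h1'
    exact one_notMem h1'
  -- the maps
  set i : OV io V →+* O' := (io.comp (OV io V).subtype).codRestrict O'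
    (fun x => (memO' _).2 ⟨x.2, hK _⟩) with hi
  have hij : ∀ a, algebraMap O' ℂ (i a) = io (algebraMap (OV io V) H a) := fun a => rfl
  have hϖn : emb (-ppi A B) ∈ V.nonunits := by
    rw [emb_neg hc]
    exact neg_mem pV
  have hϖio : io (F.ϖ : H) = emb (-ppi A B) := io_j _
  have hϖ : ρ' ∣ i F.ϖ := hdiv _ (by
    change io (F.ϖ : H) ∈ V.nonunits
    rw [hϖio]
    exact hϖn)
  have hϖ0 : emb (-ppi A B) ≠ 0 := by
    intro h
    rw [emb_neg hc, neg_eq_zero] at h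
    have := ppi_mul hc
    rw [h, zero_mul] at this
    norm_num at this
  have hjϖ : (F.ϖ : H) ≠ 0 := by
    intro h
    rw [h, map_zero] at hϖio
    exact hϖ0 hϖio.symm
  have hlie : ∀ a : OV io V, ρ' ∣ i a → F.ϖ ∣ a := by
    intro a ha
    have h1' : io (a : H) ∈ V.nonunits := hdiv' _ ha
    have h2' := unr _ h1'
    refine ⟨⟨(a : H) / (F.ϖ : H), ?_⟩, ?_⟩
    · change io _ ∈ V
      rw [map_div₀, hϖio, emb_neg hc, div_neg]
      exact V.neg_mem _ h2'
    · apply Subtype.ext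
      change (a : H) = (F.ϖ : H) * ((a : H) / (F.ϖ : H))
      field_simp
  -- the series
  set Hs : H⟦X⟧ := PowerSeries.mk h with hHs
  have H0 : constantCoeff Hs = 0 := by
    rw [← coeff_zero_eq_constantCoeff_apply, hHs, coeff_mk, h0]
  have hFEs : F.FE Hs := by
    refine ⟨PowerSeries.mk fun n =>
      ⟨h n - if 3 ∣ n then (j (-ppi A B))⁻¹ * s (h (n / 3)) else 0, hFE n⟩, ?_⟩
    ext n
    rw [map_sub, coeff_C_mul, F.coeff_Φ, coeff_map, coeff_C_mul, coeff_mk, hHs, coeff_mk, coeff_mk,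
      map_mul]
    change (F.ϖ : H) * h n - (if 3 ∣ n then s (h (n / 3)) else 0)
      = (F.ϖ : H) * (h n - if 3 ∣ n then (j (-ppi A B))⁻¹ * s (h (n / 3)) else 0)
    have e1 : (F.ϖ : H) = j (-ppi A B) := rfl
    rw [← e1]
    by_cases hn : 3 ∣ n
    · rw [if_pos hn, if_pos hn]
      field_simp
    · rw [if_neg hn, if_neg hn]
      ring
  have H1 : ∀ a : OV io V, coeff 1 Hs ≠ algebraMap (OV io V) H (F.ϖ * a) := by
    intro a ha
    rw [hHs, coeff_mk] at ha
    apply h1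
    rw [ha, map_mul, map_mul, mul_comm]
    refine nonunit_mul a.2 ?_
    change io (F.ϖ : H) ∈ V.nonunits
    rw [hϖio]
    exact hϖn
  have hzs : map io (C (algebraMap (OV io V) H F.ϖ)⁻¹ * Hs) = z := by
    ext n
    rw [coeff_map, coeff_C_mul, hHs, coeff_mk, hz, map_mul, map_inv₀]
    have e1 : io (algebraMap (OV io V) H F.ϖ) = emb (-ppi A B) := hϖio
    rw [e1, div_eq_inv_mul]
  have S2' : coeff 2 S = (io ((algebraMap (OV io V) H F.ϖ)⁻¹ * coeff 1 Hs)) ^ 2 := by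
    rw [S2, hz, map_mul, map_inv₀, hHs, coeff_mk]
    have e1 : io (algebraMap (OV io V) H F.ϖ) = emb (-ppi A B) := hϖio
    rw [e1, div_eq_inv_mul]
  -- lift `P`, `Q`
  set P' : O'⟦X⟧ := PowerSeries.mk fun n => ⟨coeff n P, (memO' _).2 ⟨(hP n).2, (hP n).1⟩⟩ with hP'
  set Q' : O'⟦X⟧ := PowerSeries.mk fun n => ⟨coeff n Q, (memO' _).2 ⟨(hQ n).2, (hQ n).1⟩⟩ with hQ'
  have hPm : map (algebraMap O' ℂ) P' = P := by
    ext n
    rw [coeff_map, hP', coeff_mk]
    rfl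
  have hQm : map (algebraMap O' ℂ) Q' = Q := by
    ext n
    rw [coeff_map, hQ', coeff_mk]
    rfl
  have hode : (d⁄dX ℂ S) ^ 2 = 4 * S * (1 + C (io (algebraMap (OV io V) H (jO (a2 A B)))) * S
      + C (io (algebraMap (OV io V) H (jO (a4 A B)))) * S ^ 2
      + C (io (algebraMap (OV io V) H (jO (a6 A B) * u ^ 2))) * S ^ 3)
      * (d⁄dX ℂ (map io (C (algebraMap (OV io V) H F.ϖ)⁻¹ * Hs))) ^ 2 := by
    have e2 : io (algebraMap (OV io V) H (jO (a2 A B))) = emb (a2 A B) := io_j _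
    have e4 : io (algebraMap (OV io V) H (jO (a4 A B))) = emb (a4 A B) := io_j _
    have e6 : io (algebraMap (OV io V) H (jO (a6 A B) * u ^ 2)) = emb (a6 A B) / 4 := by
      have e6' : algebraMap (OV io V) H (jO (a6 A B) * u ^ 2) = j (a6 A B) * ((2 : H)⁻¹) ^ 2 := rfl
      rw [e6', map_mul, map_pow, map_inv₀, map_ofNat, io_j]
      norm_num
      ring
    rw [e2, e4, e6, hzs]
    rw [thetaD_eq, thetaD_eq] at ode
    have hX : (X : ℂ⟦X⟧) ^ 2 ≠ 0 := pow_ne_zero 2 X_ne_zero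
    apply mul_left_cancel₀ hX
    simp only [smul_eq_C_mul] at ode
    linear_combination ode
  have hfin := hC3.not_quotient i io hij Subtype.val_injective hprime hsep hϖ hlie H0 hFEs H1
    S0 S1 S2' hode (A := P') (B := Q') (by rw [hPm, hQm]; exact hPQ)
  rw [← hPm, hfin, map_zero]

end Pool.Agent.MU3A2
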