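import Pool.Agent.MU3.A2Log

/-! # MU3, block A2, part 5: the logarithm from the explicit isogeny of degree three

The curve `y² = x³ + a₂x² + a₄x + a₆`, the isogeny `x ↦ N(x)/D(x)²`, `y ↦ y M(x)/D(x)³`,
`N = x³ + n₂x² + n₁x + n₀`, `D = ϖ x + δ`, `M = x³ + m₂x² + m₁x + m₀`, `ϖ M = N' D - 2 N D'`. -/

namespace Pool.Agent.MU3A2

open PowerSeries

namespace Frame

variable {O K : Type*} [CommRing O] [Field K] [Algebra O K]

/-- the explicit data of the isogeny `[ϖ]` of degree three. -/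
structure Curve3 (F : Frame O K) (a2 a4 a6 n2 n1 n0 δ m2 m1 m0 : O) : Prop where
  q3 : F.q = 3
  two : ∃ u : O, 2 * u = 1
  σ_a2 : F.σ a2 = a2
  σ_a4 : F.σ a4 = a4
  σ_a6 : F.σ a6 = a6
  dvd_n2 : F.ϖ ∣ n2
  dvd_n1 : F.ϖ ∣ n1
  dvd_n0 : F.ϖ ∣ n0
  δ_one : ∃ b, δ = 1 + F.ϖ * b
  e2 : F.ϖ * m2 = 3 * δ
  e1 : F.ϖ * m1 = 2 * n2 * δ - n1 * F.ϖ
  e0 : F.ϖ * m0 = n1 * δ - 2 * F.ϖ * n0
  iso : ∀ r : O⟦X⟧, (1 + C n2 * r + C n1 * r ^ 2 + C n0 * r ^ 3) ^ 3
      + C a2 * r * (C F.ϖ + C δ * r) ^ 2 * (1 + C n2 * r + C n1 * r ^ 2 + C n0 * r ^ 3) ^ 2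
      + C a4 * r ^ 2 * (C F.ϖ + C δ * r) ^ 4 * (1 + C n2 * r + C n1 * r ^ 2 + C n0 * r ^ 3)
      + C a6 * r ^ 3 * (C F.ϖ + C δ * r) ^ 6
    = (1 + C m2 * r + C m1 * r ^ 2 + C m0 * r ^ 3) ^ 2
      * (1 + C a2 * r + C a4 * r ^ 2 + C a6 * r ^ 3)

/-- everything the final argument needs, over `O`: the square roots `φ` of `P(X²)` and `ψ` of
`N(X²)`, their inverses, and the logarithm. -/
structure LogData (F : Frame O K) (a2 a4 a6 n2 n1 n0 δ : O) (l : K⟦X⟧)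
    (g φ φi ψ ψi : O⟦X⟧) : Prop where
  log : F.IsLog l g
  φ_sq : φ ^ 2 = 1 + C a2 * X ^ 2 + C a4 * X ^ 4 + C a6 * X ^ 6
  φ_inv : φ * φi = 1
  φ_const : constantCoeff φ = 1
  ψ_sq : ψ ^ 2 = 1 + C n2 * X ^ 2 + C n1 * X ^ 4 + C n0 * X ^ 6
  ψ_inv : ψ * ψi = 1
  g_eq : g = X * (C F.ϖ + C δ * X ^ 2) * ψi
  der : d⁄dX K l = map (algebraMap O K) φi

theorem derivative_map' {R S : Type*} [CommRing R] [CommRing S] (f : R →+* S) (G : R⟦X⟧) :
    d⁄dX S (map f G) = map f (d⁄dX R G) := by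
  ext n
  simp [coeff_derivative]

theorem constantCoeff_subst' {R : Type*} [CommRing R] {φ e : R⟦X⟧} (he : constantCoeff e = 0) :
    constantCoeff (φ.subst e : R⟦X⟧) = constantCoeff φ := by
  have h2 : φ = C (constantCoeff φ) + X * (PowerSeries.mk fun p => coeff (p + 1) φ) := by
    conv_lhs => rw [← sub_add_cancel φ (C (constantCoeff φ)), sub_const_eq_X_mul_shift]
    ring
  have hC : ((C (constantCoeff φ) : R⟦X⟧).subst e : R⟦X⟧) = C (constantCoeff φ) :=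
    subst_C (a := e) _
  conv_lhs => rw [h2, subst_add (hs he), subst_mul (hs he), hC, subst_X (hs he)]
  simp [he]

variable [IsDomain O] [CharZero K]
variable {F : Frame O K} {a2 a4 a6 n2 n1 n0 δ m2 m1 m0 : O}

theorem Curve3.exists_logData (h : F.Curve3 a2 a4 a6 n2 n1 n0 δ m2 m1 m0) :
    ∃ (l : K⟦X⟧) (g φ φi ψ ψi : O⟦X⟧), F.LogData a2 a4 a6 n2 n1 n0 δ l g φ φi ψ ψi := by
  obtain ⟨u, hu⟩ := h.two
  obtain ⟨φ, hφ, hφ0, -⟩ := exists_sqrt hu
    (f := 1 + C a2 * X ^ 2 + C a4 * X ^ 4 + C a6 * X ^ 6) (by simp)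
  obtain ⟨φi, hφi, hφi0⟩ := exists_inv hφ0
  obtain ⟨ψ, hψ, hψ0, hψE⟩ := exists_sqrt hu
    (f := 1 + C n2 * X ^ 2 + C n1 * X ^ 4 + C n0 * X ^ 6) (by simp)
  obtain ⟨ψi, hψi, hψi0⟩ := exists_inv hψ0
  obtain ⟨c2, hc2⟩ := h.dvd_n2
  obtain ⟨c1, hc1⟩ := h.dvd_n1
  obtain ⟨c0, hc0⟩ := h.dvd_n0
  obtain ⟨b, hb⟩ := h.δ_one
  obtain ⟨E3, hE3⟩ := hψE F.ϖ (C c2 * X ^ 2 + C c1 * X ^ 4 + C c0 * X ^ 6) (by
    rw [hc2, hc1, hc0, map_mul, map_mul, map_mul]
    ring)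
  obtain ⟨g, hg⟩ : ∃ g : O⟦X⟧, g = X * (C F.ϖ + C δ * X ^ 2) * ψi := ⟨_, rfl⟩
  have hg0 : constantCoeff g = 0 := by simp [hg]
  have hϖne : (C F.ϖ : O⟦X⟧) ≠ 0 := fun h0 => F.ne_zero (C_injective (by rw [h0, map_zero]))
  have hψne : ψ ≠ 0 := by
    rintro rfl
    rw [zero_mul] at hψi
    exact zero_ne_one hψi
  -- the derivative identity `g' ψ³ = ϖ M`
  have hψg : ψ * g = X * (C F.ϖ + C δ * X ^ 2) := by
    rw [hg]
    linear_combination (X * (C F.ϖ + C δ * X ^ 2)) * hψi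
  have hdψ : 2 * ψ * d⁄dX O ψ = 2 * C n2 * X + 4 * C n1 * X ^ 3 + 6 * C n0 * X ^ 5 := by
    have := congrArg (d⁄dX O) hψ
    rw [derivative_pow] at this
    simp only [map_add, Derivation.leibniz, derivative_C, derivative_pow, derivative_X,
      Derivation.map_one_eq_zero, smul_eq_mul, mul_zero, add_zero, zero_add, mul_one,
      Nat.reduceSub, pow_one] at this
    push_cast at this
    linear_combination this
  have hψdψ : ψ * d⁄dX O ψ = C n2 * X + 2 * C n1 * X ^ 3 + 3 * C n0 * X ^ 5 := by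
    have h2 : (2 : O⟦X⟧) * C u = 1 := by
      rw [← map_ofNat (C : O →+* O⟦X⟧) 2, ← map_mul, hu, map_one]
    linear_combination (C u) * hdψ
      - (ψ * d⁄dX O ψ - (C n2 * X + 2 * C n1 * X ^ 3 + 3 * C n0 * X ^ 5)) * h2
  have hdψg : d⁄dX O ψ * g + ψ * d⁄dX O g = C F.ϖ + 3 * C δ * X ^ 2 := by
    have := congrArg (d⁄dX O) hψg
    simp only [map_add, Derivation.leibniz, derivative_C, derivative_pow, derivative_X,
      smul_eq_mul, mul_zero, add_zero, zero_add, mul_one,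
      Nat.reduceSub, pow_one] at this
    push_cast at this
    linear_combination this
  have hdg : d⁄dX O g * ψ ^ 3 = C F.ϖ * (1 + C m2 * X ^ 2 + C m1 * X ^ 4 + C m0 * X ^ 6) := by
    have E2 : (C F.ϖ : O⟦X⟧) * C m2 = 3 * C δ := by
      rw [← map_mul, h.e2, map_mul, map_ofNat]
    have E1 : (C F.ϖ : O⟦X⟧) * C m1 = 2 * C n2 * C δ - C n1 * C F.ϖ := by
      rw [← map_mul, h.e1, map_sub, map_mul, map_mul, map_mul, map_ofNat]
    have E0 : (C F.ϖ : O⟦X⟧) * C m0 = C n1 * C δ - 2 * C F.ϖ * C n0 := by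
      rw [← map_mul, h.e0, map_sub, map_mul, map_mul, map_mul, map_ofNat]
    linear_combination (ψ ^ 2) * hdψg - (ψ * g) * hψdψ
      - (C n2 * X + 2 * C n1 * X ^ 3 + 3 * C n0 * X ^ 5) * hψg
      + (C F.ϖ + 3 * C δ * X ^ 2) * hψ - X ^ 2 * E2 - X ^ 4 * E1 - X ^ 6 * E0
  have hgs := hs hg0
  have hC : ∀ c : O, ((C c : O⟦X⟧).subst g : O⟦X⟧) = C c := fun c => subst_C (a := g) c
  have h1 : ((1 : O⟦X⟧).subst g : O⟦X⟧) = 1 := by rw [← coe_substAlgHom hgs, map_one]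
  set φg : O⟦X⟧ := φ.subst g with hφg
  set φig : O⟦X⟧ := φi.subst g with hφig
  have hφg2 : φg ^ 2 = 1 + C a2 * g ^ 2 + C a4 * g ^ 4 + C a6 * g ^ 6 := by
    rw [hφg, ← subst_pow hgs, hφ, subst_add hgs, subst_add hgs, subst_add hgs, subst_mul hgs,
      subst_mul hgs, subst_mul hgs, hC, hC, hC, h1, subst_pow hgs, subst_pow hgs, subst_pow hgs,
      subst_X hgs]
  have hφgi : φg * φig = 1 := by
    rw [hφg, hφig, ← subst_mul hgs, hφi, h1]
  have hφg0 : constantCoeff φg = 1 := by rw [hφg, constantCoeff_subst' hg0, hφ0]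
  have hψg2 : (ψ * g) ^ 2 = X ^ 2 * (C F.ϖ + C δ * X ^ 2) ^ 2 := by rw [hψg]; ring
  have hkey : φg ^ 2 * ψ ^ 6
      = (1 + C m2 * X ^ 2 + C m1 * X ^ 4 + C m0 * X ^ 6) ^ 2 * φ ^ 2 := by
    have hiso := h.iso (X ^ 2)
    have e6 : ψ ^ 6 = (ψ ^ 2) ^ 3 := by ring
    have e1 : φg ^ 2 * ψ ^ 6 = (ψ ^ 2) ^ 3 + C a2 * (ψ * g) ^ 2 * (ψ ^ 2) ^ 2
        + C a4 * ((ψ * g) ^ 2) ^ 2 * ψ ^ 2 + C a6 * ((ψ * g) ^ 2) ^ 3 := by
      rw [hφg2]; ring
    rw [e1, hψg2, hψ, hφ]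
    linear_combination hiso
  have hsq : (d⁄dX O g * φ) ^ 2 = (C F.ϖ * φg) ^ 2 := by
    have h6 : ψ ^ 6 ≠ 0 := pow_ne_zero 6 hψne
    apply mul_left_cancel₀ h6
    have : (d⁄dX O g * ψ ^ 3) ^ 2
        = (C F.ϖ * (1 + C m2 * X ^ 2 + C m1 * X ^ 4 + C m0 * X ^ 6)) ^ 2 := by rw [hdg]
    linear_combination φ ^ 2 * this - (C F.ϖ) ^ 2 * hkey
  have hdg0 : constantCoeff (d⁄dX O g) = F.ϖ := by
    rw [← coeff_zero_eq_constantCoeff_apply, coeff_derivative, hg, mul_assoc, coeff_succ_X_mul,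
      coeff_zero_eq_constantCoeff_apply]
    simp [hψi0]
  have hder : d⁄dX O g * φ = C F.ϖ * φg := by
    rcases sq_eq_sq_iff_eq_or_eq_neg.1 hsq with h' | h'
    · exact h'
    · exfalso
      have := congrArg constantCoeff h'
      rw [map_neg, map_mul, map_mul, hdg0, hφ0, hφg0, constantCoeff_C] at this
      have h2 : 2 * F.ϖ = 0 := by linear_combination this
      exact F.ne_zero (by linear_combination u * h2 - F.ϖ * hu)
  have hder' : φig * d⁄dX O g = C F.ϖ * φi := by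
    linear_combination (φig * φi) * hder + (C F.ϖ * φi) * hφgi - (φig * d⁄dX O g) * hφi
  -- the logarithm
  set l := antider (map (algebraMap O K) φi) with hl
  have hl0 : constantCoeff l = 0 := constantCoeff_antider _
  have hdl : d⁄dX K l = map (algebraMap O K) φi := derivative_antider _
  have hψi' : ψi = 1 - C F.ϖ * (E3 * ψi) := by
    rw [hE3] at hψi
    linear_combination hψi
  have hlog : F.IsLog l g := by
    refine ⟨hl0, ?_, ?_, ?_, hg0, ?_, ?_⟩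
    · rw [hl, coeff_one_antider, constantCoeff_map', hφi0, map_one]
    · intro n
      rcases Nat.eq_zero_or_pos n with rfl | hn
      · exact ⟨0, by simp⟩
      refine ⟨coeff (n - 1) φi, ?_⟩
      have hn' : (n : K) ≠ 0 := by exact_mod_cast (by omega : n ≠ 0)
      rw [hl, antider, coeff_mk, coeff_map]
      field_simp
    · have hσφ : map F.σ φ = φ := by
        apply sqrt_unique hu
        · rw [← map_pow, hφ]
          simp [h.σ_a2, h.σ_a4, h.σ_a6]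
        · rw [constantCoeff_map', hφ0, map_one]
        · exact hφ0
      have hσφi : map F.σ φi = φi := by
        have e1 : φ * map F.σ φi = 1 := by
          conv_lhs => rw [← hσφ]
          rw [← map_mul, hφi, map_one]
        calc map F.σ φi = (φ * φi) * map F.σ φi := by rw [hφi, one_mul]
          _ = (φ * map F.σ φi) * φi := by ring
          _ = φi := by rw [e1, one_mul]
      ext n
      rw [coeff_map, hl, antider, coeff_mk, map_div₀, map_natCast, coeff_map, F.σK_alg]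
      congr 2
      conv_rhs => rw [← hσφi, coeff_map]
    · refine ⟨X * (C 1 + C b * X ^ 2) * ψi - X ^ 3 * (E3 * ψi), ?_⟩
      rw [hg, hb, h.q3, map_add, map_one, map_mul]
      linear_combination (X ^ 3) * hψi'
    · have hgK0 : constantCoeff (map (algebraMap O K) g) = 0 := by
        rw [constantCoeff_map', hg0, map_zero]
      apply derivative.ext
      · rw [derivative_subst (hs hgK0), hdl, derivative_map']
        have e1 : ((map (algebraMap O K) φi).subst (map (algebraMap O K) g) : K⟦X⟧)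
            = map (algebraMap O K) φig := (map_subst hgs φi).symm
        rw [e1, ← map_mul, hder', Derivation.leibniz, derivative_C, hdl]
        simp
      · rw [map_mul, hl0, mul_zero]
        exact constantCoeff_subst_eq_zero hgK0 _ hl0
  exact ⟨l, g, φ, φi, ψ, ψi, hlog, hφ, hφi, hφ0, hψ, hψi, hg, hdl⟩

end Frame

end Pool.Agent.MU3A2
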