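import Mathlib

/-!
# MU3, block WQ (helper58): weak q-expansion principle with bounded denominators. Definitions

Functions on the upper half plane `ℍ`, group `SL(2, ℤ)`. `K` is a subfield of `ℂ`, `V` a valuation
subring of `ℂ`; `PP K V` is the set of the power series with coefficients in `K ∩ V`.
-/

set_option autoImplicit false

namespace Pool.Agent.MU3Q

open UpperHalfPlane ModularForm EisensteinSeries
open scoped MatrixGroups

noncomputable section

/-- holomorphic functions on the upper half plane -/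
def Hol (F : ℍ → ℂ) : Prop := DifferentiableOn ℂ (F ∘ ofComplex) {z : ℂ | 0 < z.im}

/-- at most a pole at `i ∞`: `Δ ^ m F` is bounded at `i ∞` for some `m` -/
def Grow (F : ℍ → ℂ) : Prop :=
  ∃ m : ℕ, IsBoundedAtImInfty (fun τ : ℍ => ModularForm.discriminant τ ^ m * F τ)

/-- the function `j / 1 = E₄³ / Δ` -/
def jf (τ : ℍ) : ℂ := E₄ τ ^ 3 / ModularForm.discriminant τ

/-- the local parameter `q = exp (2 π i τ)` -/
def qq (τ : ℍ) : ℂ := Complex.exp (2 * Real.pi * Complex.I * (τ : ℂ))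

/-- meromorphic on the upper half plane and at `i ∞` (with some width `M`) -/
def Mer (X : ℍ → ℂ) : Prop :=
  MeromorphicOn (X ∘ ofComplex) {z : ℂ | 0 < z.im} ∧
    ∃ (M : ℕ) (g : ℂ → ℂ) (Y : ℝ), 0 < M ∧ MeromorphicAt g 0 ∧
      ∀ τ : ℍ, Y < τ.im → X τ = g (Complex.exp (2 * Real.pi * Complex.I * (τ : ℂ) / M))

/-- `F` is given by the power series `u` in `q` on the whole upper half plane -/
def QS (F : ℍ → ℂ) (u : PowerSeries ℂ) : Prop :=
  ∀ τ : ℍ, HasSum (fun n : ℕ => PowerSeries.coeff n u * qq τ ^ n) (F τ)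

/-- power series with coefficients in `K ∩ V` -/
def PP (K : Subfield ℂ) (V : ValuationSubring ℂ) : Set (PowerSeries ℂ) :=
  {u | ∀ n, PowerSeries.coeff n u ∈ K ∧ PowerSeries.coeff n u ∈ V}

/-- complex linear combinations of elements of `PP K V` -/
def RS (K : Subfield ℂ) (V : ValuationSubring ℂ) : Submodule ℂ (PowerSeries ℂ) :=
  Submodule.span ℂ (PP K V)

/-- the Eisenstein series of weight 4: sum of `(x₀ τ + x₁)⁻⁴` over `x ≡ v mod N`, `x ≠ 0` -/
def Gv (N : ℕ) (v : Fin 2 → ZMod N) (τ : ℍ) : ℂ := by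
  classical
  exact ∑' x : Fin 2 → ℤ,
    if (∀ i, ((x i : ℤ) : ZMod N) = v i) then ((x 0 : ℂ) * (τ : ℂ) + (x 1 : ℂ)) ^ (-4 : ℤ) else 0

/-- weight 0 version `E_v E₄² / Δ` -/
def ev (N : ℕ) (v : Fin 2 → ZMod N) (τ : ℍ) : ℂ :=
  Gv N v τ * E₄ τ ^ 2 / ModularForm.discriminant τ

/-- the row vector `v` times the matrix `γ` -/
def vm {N : ℕ} (v : Fin 2 → ZMod N) (γ : SL(2, ℤ)) : Fin 2 → ZMod N :=
  fun j => v 0 * ((γ 0 j : ℤ) : ZMod N) + v 1 * ((γ 1 j : ℤ) : ZMod N)

/-- the vector `(0, 1)` -/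
def v01 (N : ℕ) : Fin 2 → ZMod N := ![0, 1]

/-- the polynomial `T` in two variables evaluated at `(j τ, e)` -/
def ej (T : Polynomial (Polynomial ℂ)) (τ : ℍ) (e : ℂ) : ℂ := Polynomial.evalEval (jf τ) e T

/-- the formal derivation `θ = q d/dq` -/
def thetaD (S : PowerSeries ℂ) : PowerSeries ℂ :=
  PowerSeries.mk fun n => (n : ℂ) * PowerSeries.coeff n S

end

end Pool.Agent.MU3Q
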