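import Pool.Agent.MU3.A2Cases
import Pool.Agent.MU3.A2Val
import Pool.Agent.MU3.QDefs

/-! # MU3, block A2, part 9: the final theorem for a valuation ring `V` of `ℂ` -/

set_option autoImplicit false

open MU3 NumberField PowerSeries Pool.Agent.MU3A Pool.Agent.MU3Q

namespace Pool.Agent.MU3A2

section Frame

variable {A B : ℤ} {V : ValuationSubring ℂ}

theorem wC_mem_V (hc : Case A B) : wC A B ∈ V := by
  apply mem_of_integral
  refine ⟨Polynomial.X ^ 2 - Polynomial.C B * Polynomial.X - Polynomial.C A, ?_, ?_⟩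
  · monicity!
  · have := wC_sq hc
    simp only [Polynomial.eval₂_sub, Polynomial.eval₂_mul, Polynomial.eval₂_pow,
      Polynomial.eval₂_X, Polynomial.eval₂_C]
    simp only [algebraMap_int_eq, eq_intCast]
    linear_combination this

theorem emb_mem_V (hc : Case A B) (x : OO A B) : emb x ∈ V :=
  V.add_mem _ _ (int_mem _) (V.mul_mem _ _ (int_mem _) (wC_mem_V hc))

theorem emb_ppi : emb (ppi A B) = 1 - B + wC A B := by
  simp [emb, ppi]

theorem ppi_mul (hc : Case A B) : emb (ppi A B) * (1 - wC A B) = 3 := by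
  rw [emb_ppi]
  have := wC_sq hc
  rcases hc with ⟨rfl, rfl⟩ | ⟨rfl, rfl⟩ <;> push_cast at this ⊢ <;> linear_combination -this

theorem three_nonunit (hc : Case A B) (pV : emb (ppi A B) ∈ V.nonunits) :
    (3 : ℂ) ∈ V.nonunits := by
  rw [← ppi_mul hc, mul_comm]
  exact nonunit_mul (sub_mem V.one_mem (wC_mem_V hc)) pV

/-- the conjugate of `π` is a unit of `V`. -/
theorem conj_inv_mem (hc : Case A B) (pV : emb (ppi A B) ∈ V.nonunits) :
    (1 - wC A B)⁻¹ ∈ V := by
  have h3 := three_nonunit hc pV
  have h2 : (1 - wC A B) ∉ V.nonunits := by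
    intro h
    have h4 := V.nonunits.add_mem pV h
    have h5 : emb (ppi A B) + (1 - wC A B) = ((2 - B : ℤ) : ℂ) := by
      rw [emb_ppi]
      push_cast
      ring
    rw [h5, ValuationSubring.mem_nonunits_iff_or] at h4
    have h6 : IsCoprime (2 - B) 3 := by
      rcases hc with ⟨rfl, rfl⟩ | ⟨rfl, rfl⟩
      · exact ⟨-1, 1, by norm_num⟩
      · exact ⟨1, 0, by norm_num⟩
    rcases h4 with h4 | h4
    · have : (2 - B : ℤ) = 0 := by exact_mod_cast h4
      rcases hc with ⟨rfl, rfl⟩ | ⟨rfl, rfl⟩ <;> norm_num at this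
    · exact h4 (inv_mem_of_coprime h3 h6)
  rw [ValuationSubring.mem_nonunits_iff_or] at h2
  push Not at h2
  exact h2.2

/-- `π^(n-1)/n` is in `V`. -/
theorem pow_div_mem (hc : Case A B) (pV : emb (ppi A B) ∈ V.nonunits) (n : ℕ) (hn : 1 ≤ n) :
    (-emb (ppi A B)) ^ (n - 1) / n ∈ V := by
  have h3 := three_nonunit hc pV
  have hp : -emb (ppi A B) ∈ V := V.neg_mem _ (V_of_nonunit pV)
  have hp3 : -emb (ppi A B) / 3 ∈ V := by
    have h0 : (1 - wC A B) ≠ 0 := by
      intro h
      have := ppi_mul hc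
      rw [h, mul_zero] at this
      norm_num at this
    have : -emb (ppi A B) / 3 = -(1 - wC A B)⁻¹ := by
      rw [div_eq_iff (by norm_num), ← ppi_mul hc]
      field_simp
    rw [this]
    exact V.neg_mem _ (conj_inv_mem hc pV)
  induction n using Nat.strong_induction_on with
  | _ n ih =>
    by_cases hd : 3 ∣ n
    · obtain ⟨m, rfl⟩ := hd
      have hm : 1 ≤ m := by omega
      have h1 := ih m (by omega) hm
      have h2 : (-emb (ppi A B)) ^ (3 * m - 1) / ((3 * m : ℕ) : ℂ)
          = ((-emb (ppi A B)) ^ (m - 1) / m) * (-emb (ppi A B)) ^ (2 * m - 1)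
            * (-emb (ppi A B) / 3) := by
        have e1 : 3 * m - 1 = (m - 1) + (2 * m - 1) + 1 := by omega
        have hm0 : (m : ℂ) ≠ 0 := by exact_mod_cast (by omega : m ≠ 0)
        rw [e1, pow_succ, pow_add]
        push_cast
        field_simp
      rw [h2]
      exact V.mul_mem _ _ (V.mul_mem _ _ h1 (V.toSubring.pow_mem hp _)) hp3
    · rw [div_eq_mul_inv]
      refine V.mul_mem _ _ (V.toSubring.pow_mem hp _) ?_
      have h4 : IsCoprime (n : ℤ) 3 := by
        rw [show (3 : ℤ) = ((3 : ℕ) : ℤ) by norm_num, Nat.isCoprime_iff_coprime]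
        exact (Nat.Prime.coprime_iff_not_dvd Nat.prime_three).2 hd |>.symm
      have := inv_mem_of_coprime h3 h4
      simpa using this

variable {H : Type} [Field H] (io : H →+* ℂ)

/-- the valuation ring of `V` in `H` -/
abbrev OV (V : ValuationSubring ℂ) : Subring H := V.toSubring.comap io

/-- the local data attached to `V`. -/
noncomputable def frameV (hc : Case A B) (pV : emb (ppi A B) ∈ V.nonunits)
    (j : OO A B →+* H) (io_j : ∀ x, io (j x) = emb x) (s : H ≃+* H) (fix : ∀ x, s (j x) = j x)
    (unr : ∀ y : H, io y ∈ V.nonunits → io y / emb (ppi A B) ∈ V)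
    (frob : ∀ x : H, io x ∈ V → io (s x) - io x ^ 3 ∈ V.nonunits) : Frame (OV io V) H where
  p := 3
  f := 1
  q := 3
  prime_p := Nat.prime_three
  q_eq := by norm_num
  one_lt_q := by norm_num
  ϖ := ⟨j (-ppi A B), by
    change io (j (-ppi A B)) ∈ V
    rw [io_j]
    exact emb_mem_V hc _⟩
  ne_zero := by
    intro h
    have h1 := congrArg (fun x : OV io V => io (x : H)) h
    have h2 : emb (-ppi A B) = 0 := by
      rw [← io_j]
      simpa using h1
    rw [emb_neg hc, neg_eq_zero] at h2
    have := ppi_mul hc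
    rw [h2, zero_mul] at this
    norm_num at this
  div_pow := by
    intro n hn
    have hn0 : (n : H) ≠ 0 := by
      intro h
      have := congrArg io h
      rw [map_natCast, map_zero] at this
      exact (by omega : n ≠ 0) (by exact_mod_cast this)
    refine ⟨⟨(j (-ppi A B)) ^ (n - 1) / n, ?_⟩, ?_⟩
    · change io _ ∈ V
      rw [map_div₀, map_pow, io_j, map_natCast, emb_neg hc]
      exact pow_div_mem hc pV n hn
    · apply Subtype.ext
      push_cast
      obtain ⟨m, rfl⟩ : ∃ m, n = m + 1 := ⟨n - 1, by omega⟩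
      rw [Nat.add_sub_cancel, pow_succ]
      field_simp
  dvd_p := by
    refine ⟨⟨j (⟨-1, 1⟩ : OO A B), ?_⟩, ?_⟩
    · change io _ ∈ V
      rw [io_j]
      exact emb_mem_V hc _
    · apply Subtype.ext
      apply io.injective
      change io (((3 : ℕ) : OV io V) : H) = io (j (-ppi A B) * j ⟨-1, 1⟩)
      rw [map_mul, io_j, io_j, emb_neg hc]
      have e1 : io (((3 : ℕ) : OV io V) : H) = 3 := by
        have e0 : (((3 : ℕ) : OV io V) : H) = ((3 : ℕ) : H) := map_natCast (OV io V).subtype 3
        rw [e0, map_natCast]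
        norm_num
      rw [e1, ← ppi_mul hc]
      simp [emb]
      ring
  σ := (s.toRingHom.comp (OV io V).subtype).codRestrict (OV io V) (by
    intro x
    change io (s (x : H)) ∈ V
    have h1 := V_of_nonunit (frob x x.2)
    have h2 : io (s (x : H)) = (io (s (x : H)) - io (x : H) ^ 3) + io (x : H) ^ 3 := by ring
    rw [h2]
    exact V.add_mem _ _ h1 (V.toSubring.pow_mem x.2 3))
  frob := by
    intro a
    have h1 := frob a a.2
    have hp : emb (ppi A B) ≠ 0 := by
      intro h
      have := ppi_mul hc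
      rw [h, zero_mul] at this
      norm_num at this
    have hjp : j (-ppi A B) ≠ 0 := by
      intro h
      have := congrArg io h
      rw [io_j, map_zero, emb_neg hc, neg_eq_zero] at this
      exact hp this
    have h2 := unr (s (a : H) - (a : H) ^ 3) (by rw [map_sub, map_pow]; exact h1)
    refine ⟨⟨(s (a : H) - (a : H) ^ 3) / j (-ppi A B), ?_⟩, ?_⟩
    · change io _ ∈ V
      rw [map_div₀, io_j, emb_neg hc, div_neg]
      exact V.neg_mem _ h2
    · apply Subtype.ext
      change s (a : H) = (a : H) ^ 3 + j (-ppi A B) * ((s (a : H) - (a : H) ^ 3) / j (-ppi A B))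
      field_simp
      ring
  σ_ϖ := by
    apply Subtype.ext
    exact fix _
  σK := s.toRingHom
  σK_alg := fun a => rfl
  inj := Subtype.val_injective

end Frame

end Pool.Agent.MU3A2
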