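import Pool.Agent.MU3.ADefs

/-!
# MU3, block A: further definitions and elementary lemmas on the Galois action
-/

set_option autoImplicit false

namespace Pool.Agent.MU3A

open MU3 Pool.Agent.MU3B Polynomial NumberField

noncomputable section

/-- `σ` is an arithmetic Frobenius at the prime `w` of `F`, residue field of `k` with `q`
elements -/
def IsFrQ {A B : ℤ} {F : IntermediateField (kk A B) ℂ} (w : Ideal (𝓞 F)) (q : ℕ)
    (σ : F ≃ₐ[kk A B] F) : Prop := ∀ x : 𝓞 F, ∃ y ∈ w, (y : F) = σ x - (x : F) ^ q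

/-- `w` lies above `lam` -/
def Abv {A B : ℤ} {F : IntermediateField (kk A B) ℂ} (w : Ideal (𝓞 F)) (lam : OO A B) : Prop :=
  ∃ y ∈ w, ((y : F) : ℂ) = emb lam

/-- the modulus `m₀` such that `-1` is not in the Galois group of `F_{m₀} / k` -/
def mz (A B : ℤ) : OO A B := if B = 0 then ⟨0, 4⟩ else 4

/-- the conjugate `1 - w` (norm 3) of `ppi` -/
def ppc (A B : ℤ) : OO A B := ⟨1, -1⟩

end

end Pool.Agent.MU3A
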