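import Pool.Agent.MU3.StA

/-!
# MU3, block A, module LAW: addition and duplication in the coordinates `x`, `y`
-/

set_option autoImplicit false

namespace Pool.Agent.MU3A

open MU3 Pool.Agent.MU3B Polynomial

noncomputable section

theorem ta_LAW (h1 : St_ADD) (h2 : St_DUP) : Sa_LAW := by
  intro A B L Om hc hL
  refine ⟨?_, ?_⟩
  · intro z z' hz hz' hs hd
    obtain ⟨h3, h4⟩ := h1 L z' z hz' hz hs hd
    have hM : (L.derivWeierstrassP z - L.derivWeierstrassP z') /
        (2 * (L.weierstrassP z - L.weierstrassP z')) =
        (yy L z - yy L z') / (xx A B L z - xx A B L z') := by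
      have e1 : yy L z - yy L z' = (L.derivWeierstrassP z - L.derivWeierstrassP z') / 2 := by
        unfold yy; ring
      have e2 : xx A B L z - xx A B L z' = L.weierstrassP z - L.weierstrassP z' := by
        unfold xx; ring
      rw [e1, e2, div_div]
    rw [hM] at h3 h4
    generalize (yy L z - yy L z') / (xx A B L z - xx A B L z') = M at h3 h4 ⊢
    constructor
    · unfold xx
      linear_combination h3
    · unfold xx yy
      linear_combination (1 / 2) * h4
  · intro z hz
    obtain ⟨h3, h4⟩ := h2 L z hz
    have hM : (6 * L.weierstrassP z ^ 2 - L.g₂ / 2) / (2 * L.derivWeierstrassP z) =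
        (3 * xx A B L z ^ 2 + 2 * emb (a2 A B) * xx A B L z + emb (a4 A B)) / (2 * yy L z) := by
      have e1 : 6 * L.weierstrassP z ^ 2 - L.g₂ / 2 =
          2 * (3 * xx A B L z ^ 2 + 2 * emb (a2 A B) * xx A B L z + emb (a4 A B)) := by
        rw [hL.g2]; unfold xx; ring
      have e2 : 2 * L.derivWeierstrassP z = 2 * (2 * yy L z) := by
        unfold yy; ring
      rw [e1, e2, mul_div_mul_left _ _ (two_ne_zero)]
    rw [hM] at h3 h4
    generalize (3 * xx A B L z ^ 2 + 2 * emb (a2 A B) * xx A B L z + emb (a4 A B)) /
      (2 * yy L z) = M at h3 h4 ⊢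
    constructor
    · unfold xx
      linear_combination h3
    · unfold xx yy
      linear_combination (1 / 2) * h4

end

end Pool.Agent.MU3A
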