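import Pool.Agent.MU3.StB

/-!
# MU3, block B: (ADD), the addition theorem
-/

set_option autoImplicit false

namespace Pool.Agent.MU3B

open Complex Filter Topology
open scoped ComplexConjugate

namespace ADDaux

variable (L : PeriodPair)

theorem nhds_notMem {z : ℂ} (hz : z ∉ L.lattice) : ∀ᶠ x in 𝓝 z, x ∉ L.lattice :=
  L.isClosed_lattice.isOpen_compl.mem_nhds hz

theorem nhds_add {z Q : ℂ} (hz : z + Q ∉ L.lattice) : ∀ᶠ x in 𝓝 z, x + Q ∉ L.lattice :=
  (continuous_id.add continuous_const).continuousAt.eventually (nhds_notMem L hz)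

theorem nhds_sub {z Q : ℂ} (hz : z - Q ∉ L.lattice) : ∀ᶠ x in 𝓝 z, x - Q ∉ L.lattice :=
  (continuous_id.sub continuous_const).continuousAt.eventually (nhds_notMem L hz)

theorem hasDerivAt_P {z : ℂ} (hz : z ∉ L.lattice) :
    HasDerivAt L.weierstrassP (L.derivWeierstrassP z) z := by
  have h := (L.differentiableOn_weierstrassP z hz).differentiableAt
    (L.isClosed_lattice.isOpen_compl.mem_nhds hz)
  have := h.hasDerivAt
  rwa [L.deriv_weierstrassP] at this

theorem hasDerivAt_P_add {z Q : ℂ} (hz : z + Q ∉ L.lattice) :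
    HasDerivAt (fun x => L.weierstrassP (x + Q)) (L.derivWeierstrassP (z + Q)) z :=
  (hasDerivAt_P L hz).comp_add_const z Q

/-- `M` by the zeta function -/
theorem M_eq (hZAD : St_ZAD) (hNEQ : St_NEQ) {Q z : ℂ} (hQ : Q ∉ L.lattice) (hz : z ∉ L.lattice)
    (h1 : z + Q ∉ L.lattice) (h2 : z - Q ∉ L.lattice) :
    (L.derivWeierstrassP z - L.derivWeierstrassP Q) /
        (2 * (L.weierstrassP z - L.weierstrassP Q)) = zet L (z + Q) - zet L z - zet L Q := by
  have hD : L.weierstrassP z - L.weierstrassP Q ≠ 0 := by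
    intro h
    rcases hNEQ L Q z hQ hz (sub_eq_zero.1 h) with h3 | h3
    · exact h2 h3
    · exact h1 h3
  have h := hZAD L Q z hQ hz h1 h2
  have e1 : zet L (z + Q) - zet L z - zet L Q = ee L (z + Q) - ee L z - ee L Q := by
    unfold zet
    rw [map_add]
    ring
  rw [e1, div_eq_iff (mul_ne_zero two_ne_zero hD), ← h]
  ring

theorem key (hZAD : St_ZAD) (hZP : St_ZP) (hP2 : St_P2) (hNEQ : St_NEQ) {Q z : ℂ}
    (hQ : Q ∉ L.lattice) (hz : z ∉ L.lattice) (h1 : z + Q ∉ L.lattice) (h2 : z - Q ∉ L.lattice) :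
    HasDerivAt (fun x => zet L (x + Q) - zet L x - zet L Q)
      (L.weierstrassP z - L.weierstrassP (z + Q)) z ∧
    L.weierstrassP z - L.weierstrassP (z + Q) =
      ((6 * L.weierstrassP z ^ 2 - L.g₂ / 2) * (2 * (L.weierstrassP z - L.weierstrassP Q)) -
        (L.derivWeierstrassP z - L.derivWeierstrassP Q) * (2 * L.derivWeierstrassP z)) /
        (2 * (L.weierstrassP z - L.weierstrassP Q)) ^ 2 := by
  obtain ⟨c, hc⟩ := hZP L
  have hN : HasDerivAt (fun x => zet L (x + Q) - zet L x - zet L Q)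
      (L.weierstrassP z - L.weierstrassP (z + Q)) z := by
    have a1 : HasDerivAt (fun x => zet L (x + Q)) (c - L.weierstrassP (z + Q)) z :=
      (hc (z + Q) h1).comp_add_const z Q
    have a2 := hc z hz
    have := (a1.sub a2).sub_const (zet L Q)
    have e : c - L.weierstrassP (z + Q) - (c - L.weierstrassP z) =
        L.weierstrassP z - L.weierstrassP (z + Q) := by ring
    rw [e] at this
    exact this
  refine ⟨hN, ?_⟩
  have hD : L.weierstrassP z - L.weierstrassP Q ≠ 0 := by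
    intro h
    rcases hNEQ L Q z hQ hz (sub_eq_zero.1 h) with h3 | h3
    · exact h2 h3
    · exact h1 h3
  have hM : HasDerivAt (fun x => (L.derivWeierstrassP x - L.derivWeierstrassP Q) /
      (2 * (L.weierstrassP x - L.weierstrassP Q)))
      (((6 * L.weierstrassP z ^ 2 - L.g₂ / 2) * (2 * (L.weierstrassP z - L.weierstrassP Q)) -
        (L.derivWeierstrassP z - L.derivWeierstrassP Q) * (2 * L.derivWeierstrassP z)) /
        (2 * (L.weierstrassP z - L.weierstrassP Q)) ^ 2) z := by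
    have b1 := (hP2 L z hz).sub_const (L.derivWeierstrassP Q)
    have b2 := ((hasDerivAt_P L hz).sub_const (L.weierstrassP Q)).const_mul 2
    exact b1.div b2 (mul_ne_zero two_ne_zero hD)
  have hev : (fun x => (L.derivWeierstrassP x - L.derivWeierstrassP Q) /
      (2 * (L.weierstrassP x - L.weierstrassP Q))) =ᶠ[𝓝 z]
      fun x => zet L (x + Q) - zet L x - zet L Q := by
    filter_upwards [nhds_notMem L hz, nhds_add L h1, nhds_sub L h2] with x x1 x2 x3
    exact M_eq L hZAD hNEQ hQ x1 x2 x3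
  exact (hN.congr_of_eventuallyEq hev).unique hM

theorem first (hZAD : St_ZAD) (hZP : St_ZP) (hP2 : St_P2) (hNEQ : St_NEQ) {Q z : ℂ}
    (hQ : Q ∉ L.lattice) (hz : z ∉ L.lattice) (h1 : z + Q ∉ L.lattice) (h2 : z - Q ∉ L.lattice) :
    L.weierstrassP (z + Q) + L.weierstrassP z + L.weierstrassP Q =
      ((L.derivWeierstrassP z - L.derivWeierstrassP Q) /
        (2 * (L.weierstrassP z - L.weierstrassP Q))) ^ 2 := by
  have hD : L.weierstrassP z - L.weierstrassP Q ≠ 0 := by
    intro h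
    rcases hNEQ L Q z hQ hz (sub_eq_zero.1 h) with h3 | h3
    · exact h2 h3
    · exact h1 h3
  have hD' : L.weierstrassP Q - L.weierstrassP z ≠ 0 := by
    intro h
    exact hD (by rw [← neg_sub, h, neg_zero])
  have k1 := (key L hZAD hZP hP2 hNEQ hQ hz h1 h2).2
  have k2 := (key L hZAD hZP hP2 hNEQ hz hQ (by rwa [add_comm]) (fun h => h2 (by
    have := L.lattice.neg_mem h
    rwa [neg_sub] at this))).2
  rw [add_comm Q z] at k2
  rw [eq_div_iff (pow_ne_zero 2 (mul_ne_zero two_ne_zero hD))] at k1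
  rw [eq_div_iff (pow_ne_zero 2 (mul_ne_zero two_ne_zero hD'))] at k2
  rw [div_pow, eq_div_iff (pow_ne_zero 2 (mul_ne_zero two_ne_zero hD))]
  have h4 : (2 : ℂ) ≠ 0 := two_ne_zero
  linear_combination (-1 / 2) * k1 + (-1 / 2) * k2

end ADDaux

open ADDaux in
theorem t_ADD (hZAD : St_ZAD) (hZP : St_ZP) (hP2 : St_P2) (hNEQ : St_NEQ) : St_ADD := by
  intro L Q z hQ hz h1 h2
  refine ⟨first L hZAD hZP hP2 hNEQ hQ hz h1 h2, ?_⟩
  have hN := (key L hZAD hZP hP2 hNEQ hQ hz h1 h2).1
  have hR : HasDerivAt (fun x => (zet L (x + Q) - zet L x - zet L Q) ^ 2 - L.weierstrassP x -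
      L.weierstrassP Q)
      (2 * (zet L (z + Q) - zet L z - zet L Q) * (L.weierstrassP z - L.weierstrassP (z + Q)) -
        L.derivWeierstrassP z) z := by
    have a := ((hN.pow 2).sub (hasDerivAt_P L hz)).sub_const (L.weierstrassP Q)
    simpa using a
  have hev : (fun x => L.weierstrassP (x + Q)) =ᶠ[𝓝 z]
      fun x => (zet L (x + Q) - zet L x - zet L Q) ^ 2 - L.weierstrassP x -
        L.weierstrassP Q := by
    filter_upwards [nhds_notMem L hz, nhds_add L h1, nhds_sub L h2] with x x1 x2 x3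
    have f := first L hZAD hZP hP2 hNEQ hQ x1 x2 x3
    rw [M_eq L hZAD hNEQ hQ x1 x2 x3] at f
    rw [← f]
    ring
  have hu := (hR.congr_of_eventuallyEq hev).unique (hasDerivAt_P_add L h1)
  rw [M_eq L hZAD hNEQ hQ hz h1 h2]
  rw [← hu]
  ring

end Pool.Agent.MU3B
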