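import Pool.Agent.MU3.StB

/-!
# MU3, block B: module NEQ (helper18)
-/

set_option autoImplicit false

namespace Pool.Agent.MU3B

open Complex Real Filter Topology
open scoped ComplexConjugate

namespace NEQ18

/-- `zet L` is analytic outside the lattice. -/
theorem zet_an (hHOL : St_HOL) (L : PeriodPair) :
    AnalyticOnNhd ℂ (zet L) ((L.lattice : Set ℂ)ᶜ) := by
  refine DifferentiableOn.analyticOnNhd ?_ L.isClosed_lattice.isOpen_compl
  intro z hz
  exact (hHOL L z hz).differentiableWithinAt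

/-- A solution of `D' = b D` with a zero vanishes near it. -/
theorem ode {D b : ℂ → ℂ} {z₀ : ℂ} (hD : AnalyticAt ℂ D z₀) (hb : AnalyticAt ℂ b z₀)
    (h0 : D z₀ = 0) (hd : deriv D =ᶠ[𝓝 z₀] b * D) : ∀ᶠ z in 𝓝 z₀, D z = 0 := by
  rw [← analyticOrderAt_eq_top]
  have h1 := hD.analyticOrderAt_deriv_add_one
  have h2 : (fun z => D z - D z₀) = D := by
    funext z
    rw [h0, sub_zero]
  rw [h2, analyticOrderAt_congr hd, analyticOrderAt_mul hb hD] at h1
  by_contra hne
  obtain ⟨n, hn⟩ := ENat.ne_top_iff_exists.1 hne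
  rw [← hn] at h1
  cases hc : analyticOrderAt b z₀ with
  | top =>
    rw [hc] at h1
    simp at h1
  | coe m =>
    rw [hc] at h1
    have h3 : m + n + 1 = n := by exact_mod_cast h1
    omega

/-- The complement of the lattice is preconnected. -/
theorem conn (L : PeriodPair) : IsPreconnected ((L.lattice : Set ℂ)ᶜ) := by
  have hc : (L.lattice : Set ℂ).Countable := by
    have : Countable L.lattice := L.latticeEquivProd.toEquiv.injective.countable
    exact Set.countable_coe_iff.1 this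
  exact (hc.isPathConnected_compl_of_one_lt_rank
    (rank_real_complex ▸ Nat.one_lt_ofNat)).isConnected.isPreconnected

/-- `℘` is not constant. -/
theorem not_const (L : PeriodPair) (c : ℂ) (h : ∀ z, z ∉ L.lattice → L.weierstrassP z = c) :
    False := by
  have h0 := L.order_weierstrassP 0 (zero_mem _)
  have h1 : L.weierstrassP =ᶠ[𝓝[≠] 0] fun _ => c := by
    have h2 : ∀ᶠ z in 𝓝[≠] (0 : ℂ), z ∈ ((L.lattice : Set ℂ) \ {0})ᶜ :=
      nhdsWithin_le_nhds (L.compl_lattice_sdiff_singleton_mem_nhds 0)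
    filter_upwards [h2, self_mem_nhdsWithin] with z hz hz0
    refine h z fun hL => hz ⟨hL, hz0⟩
  rw [meromorphicOrderAt_congr h1] at h0
  have h3 : (0 : WithTop ℤ) ≤ meromorphicOrderAt (fun _ : ℂ => c) (0 : ℂ) :=
    AnalyticAt.meromorphicOrderAt_nonneg analyticAt_const
  rw [h0] at h3
  exact absurd h3 (by decide)

end NEQ18

open NEQ18 in
theorem t_NEQ (hHOL : St_HOL) (hID : St_ID) : St_NEQ := by
  intro L Q z₀ hQ hz heq
  by_contra hcon
  have h1 : z₀ - Q ∉ L.lattice := fun h => hcon (Or.inl h)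
  have h2 : z₀ + Q ∉ L.lattice := fun h => hcon (Or.inr h)
  have hopen : IsOpen ((L.lattice : Set ℂ)ᶜ) := L.isClosed_lattice.isOpen_compl
  have hzet := zet_an hHOL L
  have a1 : AnalyticAt ℂ (fun z => zet L (z + Q)) z₀ :=
    AnalyticAt.comp_of_eq (hzet (z₀ + Q) h2) (by fun_prop) rfl
  have a2 : AnalyticAt ℂ (fun z => zet L (z - Q)) z₀ :=
    AnalyticAt.comp_of_eq (hzet (z₀ - Q) h1) (by fun_prop) rfl
  have a3 : AnalyticAt ℂ (zet L) z₀ := hzet z₀ hz
  have hb : AnalyticAt ℂ (fun z => zet L (z + Q) + zet L (z - Q) - 2 * zet L z) z₀ :=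
    (a1.add a2).sub (analyticAt_const.mul a3)
  have hP : AnalyticOnNhd ℂ (fun z => L.weierstrassP z - L.weierstrassP Q)
      ((L.lattice : Set ℂ)ᶜ) := L.analyticOnNhd_weierstrassP.sub analyticOnNhd_const
  have e1 : ∀ᶠ z in 𝓝 z₀, z ∉ L.lattice := hopen.mem_nhds hz
  have e2 : ∀ᶠ z in 𝓝 z₀, z + Q ∉ L.lattice :=
    (by fun_prop : Continuous fun z : ℂ => z + Q).continuousAt.eventually (hopen.mem_nhds h2)
  have e3 : ∀ᶠ z in 𝓝 z₀, z - Q ∉ L.lattice :=
    (by fun_prop : Continuous fun z : ℂ => z - Q).continuousAt.eventually (hopen.mem_nhds h1)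
  have hd : deriv (fun z => L.weierstrassP z - L.weierstrassP Q) =ᶠ[𝓝 z₀]
      (fun z => zet L (z + Q) + zet L (z - Q) - 2 * zet L z) *
        fun z => L.weierstrassP z - L.weierstrassP Q := by
    filter_upwards [e1, e2, e3] with z g1 g2 g3
    rw [deriv_sub_const, L.deriv_weierstrassP, ← hID L Q z hQ g1 g2 g3]
    simp only [Pi.mul_apply, zet, map_add, map_sub]
    ring
  have h3 := ode (hP z₀ hz) hb (by simp only [heq, sub_self]) hd
  have h4 := hP.eqOn_zero_of_preconnected_of_eventuallyEq_zero (conn L) hz h3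
  refine not_const L (L.weierstrassP Q) fun z hz => ?_
  have h5 := h4 hz
  simpa [sub_eq_zero] using h5

end Pool.Agent.MU3B
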