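import Pool.Agent.MU3.StB2

/-!
# MU3, block B: module TRA (helper50)
-/

set_option autoImplicit false

namespace Pool.Agent.MU3B

theorem t_TRA (hTDL : St_TDL) (hPER : St_PER) : St_TRA := by
  intro L b H hb hH z hz hbz
  have hb' : (b : ℂ) ≠ 0 := Int.cast_ne_zero.2 hb
  have hbL : ∀ w ∈ L.lattice, (b : ℂ) * w ∈ L.lattice := by
    intro w hw
    have := L.lattice.smul_mem b hw
    rwa [zsmul_eq_mul] at this
  have hbz' : (b : ℂ) * z ∉ L.lattice := by
    intro h
    apply hz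
    have h1 := L.lattice.sub_mem h hbz
    have e : z = (b : ℂ) * z - (b - 1) * z := by ring
    rwa [e]
  have h1 := (hTDL L b H hb' hbL hH z hbz').1
  have h2 : ee L ((b : ℂ) * z) = ee L z := by
    have h3 := (hPER L).1 z _ hbz
    rw [← h3]
    congr 1
    ring
  have h4 : ((‖(b : ℂ)‖ ^ 2 : ℝ) : ℂ) = (b : ℂ) ^ 2 := by
    rw [Complex.norm_intCast, sq_abs]
    push_cast
    rfl
  rw [h1, h2, h4]
  ring

end Pool.Agent.MU3B
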