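import Mathlib
import Pool.Agent.MuSym.Defs

/-!
MU3, common definitions (helper36). `O = Z[w]`, `w ^ 2 = A + B w`, with `(A, B) = (-2, 0)` for
`k = Q(sqrt -2)` and `(A, B) = (-3, 1)` for `k = Q(sqrt -11)`.
-/

open OnePoint

namespace MU3

/-- The two cases. -/
def Case (A B : ℤ) : Prop := (A = -2 ∧ B = 0) ∨ (A = -3 ∧ B = 1)

/-- The ring of integers of `k`. -/
abbrev OO (A B : ℤ) := QuadraticAlgebra ℤ A B

/-- The absolute value of the discriminant of `k`: 8 or 11. -/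
def absD (A B : ℤ) : ℤ := -(B ^ 2 + 4 * A)

/-- The image of `w` in the complex numbers, in the upper half plane. -/
noncomputable def wC (A B : ℤ) : ℂ := ((B : ℂ) + Complex.I * (Real.sqrt (absD A B) : ℝ)) / 2

lemma wC_sq {A B : ℤ} (h : Case A B) : wC A B * wC A B = A + B * wC A B := by
  have h1 : (0 : ℝ) ≤ (absD A B : ℝ) := by
    rcases h with ⟨rfl, rfl⟩ | ⟨rfl, rfl⟩ <;> norm_num [absD]
  have h2 : ((Real.sqrt (absD A B) : ℝ) : ℂ) ^ 2 = (absD A B : ℂ) := by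
    rw [← Complex.ofReal_pow, Real.sq_sqrt h1]
    norm_num
  have h3 : Complex.I ^ 2 = -1 := Complex.I_sq
  have h4 : (absD A B : ℂ) = -((B : ℂ) ^ 2 + 4 * A) := by simp [absD]
  unfold wC
  linear_combination (Complex.I ^ 2 / 4) * h2 + ((absD A B : ℂ) / 4) * h3 - (1 / 4) * h4

/-- The embedding of `O` into the complex numbers. -/
noncomputable def emb {A B : ℤ} (x : OO A B) : ℂ := x.re + x.im * wC A B

/-- The embedding as a ring homomorphism. -/
noncomputable def embHom {A B : ℤ} (h : Case A B) : OO A B →+* ℂ :=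
  (QuadraticAlgebra.lift (R := ℤ) (a := A) (b := B) (A := ℂ)
    ⟨wC A B, by simpa [zsmul_eq_mul] using wC_sq h⟩).toRingHom

lemma embHom_apply {A B : ℤ} (h : Case A B) (x : OO A B) : embHom h x = emb x := by
  simp [embHom, emb, QuadraticAlgebra.lift, zsmul_eq_mul]

/-- The norm of an element of `O`, an integer. -/
def nm {A B : ℤ} (x : OO A B) : ℤ := x.re ^ 2 + B * x.re * x.im - A * x.im ^ 2

/-- The chosen element of norm 3: `1 + sqrt -2` resp. `(1 + sqrt -11)/2`. -/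
def ppi (A B : ℤ) : OO A B := ⟨1 - B, 1⟩

lemma nm_ppi {A B : ℤ} (h : Case A B) : nm (ppi A B) = 3 := by
  rcases h with ⟨rfl, rfl⟩ | ⟨rfl, rfl⟩ <;> norm_num [nm, ppi]

/-- An odd character `e` of `(O/g)^*` with complex values, extended by 0. -/
structure IsEps {A B : ℤ} (g : OO A B) (e : OO A B → ℂ) : Prop where
  one : e 1 = 1
  mul : ∀ x y, e (x * y) = e x * e y
  per : ∀ x y, g ∣ x - y → e x = e y
  supp : ∀ x, e x ≠ 0 ↔ IsCoprime x g
  neg : e (-1) = -1

/-- The theta series `1/2 Sum e(x) conj(x) q^(N x)` at a complex number. -/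
noncomputable def theta {A B : ℤ} (e : OO A B → ℂ) (z : ℂ) : ℂ :=
  (1 / 2) * ∑' x : OO A B, e x * (starRingEnd ℂ) (emb x) *
    Complex.exp (2 * Real.pi * Complex.I * (nm x : ℂ) * z)

/-- The primitive `Sum a_n q^n / n` of `2 pi i theta`, vanishing at `i oo`. -/
noncomputable def thetaInt {A B : ℤ} (e : OO A B → ℂ) (z : ℂ) : ℂ :=
  (1 / 2) * ∑' x : OO A B, e x * (starRingEnd ℂ) (emb x) / (nm x : ℂ) *
    Complex.exp (2 * Real.pi * Complex.I * (nm x : ℂ) * z)

/-- `Int_r^(i oo) 2 pi i theta(z) dz` along the vertical line. -/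
noncomputable def Iv {A B : ℤ} (e : OO A B → ℂ) (r : ℚ) : ℂ :=
  -(2 * Real.pi) * ∫ t in Set.Ioi (0 : ℝ), theta e ((r : ℂ) + t * Complex.I)

/-- The same for all cusps, 0 at infinity. -/
noncomputable def Ic {A B : ℤ} (e : OO A B → ℂ) (x : OnePoint ℚ) : ℂ :=
  x.elim 0 (fun r : ℚ => Iv e r)

/-- The modular symbol of theta: `Int_x^y 2 pi i theta(z) dz`. -/
noncomputable def Phi {A B : ℤ} (e : OO A B → ℂ) (x y : OnePoint ℚ) : ℂ := Ic e x - Ic e y

/-- The quadratic character of `k`, as a function on the integers. -/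
def chiD (A B : ℤ) (d : ℤ) : ℤ :=
  if B = 0 then (if d % 8 = 1 ∨ d % 8 = 3 then 1 else if d % 8 = 5 ∨ d % 8 = 7 then -1 else 0)
  else (if d % 11 = 1 ∨ d % 11 = 3 ∨ d % 11 = 4 ∨ d % 11 = 5 ∨ d % 11 = 9 then 1
    else if d % 11 = 0 then 0 else -1)

/-- The nebentypus `chi_D(d) e(d)` of theta. -/
noncomputable def nuE {A B : ℤ} (e : OO A B → ℂ) (d : ℤ) : ℂ := (chiD A B d : ℂ) * e (d : OO A B)

variable {R : Type*} [CommRing R]

/-- A scalar valued modular symbol of weight 2 for `Gamma_0(N)` with character `nu`. -/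
structure IsSym (N : ℕ) (nu : ℤ → R) (P : OnePoint ℚ → OnePoint ℚ → R) : Prop where
  add : ∀ x y z, P x y + P y z = P x z
  equiv : ∀ a b c d : ℤ, a * d - b * c = 1 → (N : ℤ) ∣ c → ∀ x y,
    P (Pool.Agent.MuSym.mob a b c d x) (Pool.Agent.MuSym.mob a b c d y) = nu d * P x y

/-- The Hecke operator `T_l` (or `U_l` if `nu l = 0`) on scalar symbols of weight 2. -/
noncomputable def hecke (l : ℕ) (nu : ℤ → R) (P : OnePoint ℚ → OnePoint ℚ → R)
    (x y : OnePoint ℚ) : R :=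
  ∑ j ∈ Finset.range l, P (Pool.Agent.MuSym.mob 1 j 0 l x) (Pool.Agent.MuSym.mob 1 j 0 l y) +
    nu l * P (Pool.Agent.MuSym.mob l 0 0 1 x) (Pool.Agent.MuSym.mob l 0 0 1 y)

/-- The `l`-th coefficient of theta: `1/2 Sum_{N x = l} e(x) conj(x)`. -/
noncomputable def aCoeff {A B : ℤ} (e : OO A B → ℂ) (l : ℤ) : ℂ :=
  (1 / 2) * ∑' x : {x : OO A B // nm x = l}, e x.1 * (starRingEnd ℂ) (emb x.1)

/-- `P^s(x,y) = P(x,y) + s P(-x,-y)`. -/
noncomputable def sgnPart (s : R) (P : OnePoint ℚ → OnePoint ℚ → R) (x y : OnePoint ℚ) : R :=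
  P x y + s * P (Pool.Agent.MuSym.mob (-1) 0 0 1 x) (Pool.Agent.MuSym.mob (-1) 0 0 1 y)

/-- The sum of a periodic function over the residue classes modulo `m`. -/
noncomputable def sumMod {A B : ℤ} (m : OO A B) (F : OO A B → ℂ) : ℂ :=
  ∑ᶠ q : OO A B ⧸ Ideal.span {m}, F (Quotient.out q)

end MU3
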