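import Pool.Agent.MU3.StE

/-!
# MU3, block E: module COP (helper9)
-/

set_option autoImplicit false

namespace Pool.Agent.MU3E

open _root_.MU3 Pool.Agent.MU3A Pool.Agent.MU3B Pool.Agent.MU3C Pool.Agent.MU3V Pool.Agent.RI

noncomputable section

theorem te_COP (hPPI : Se_PPI) (hT3 : Sa_T3) : Se_COP := by
  intro A B L Om ξ h hCM hξ V hV M' z hM hpM hMz hz
  obtain ⟨-, -, -, -, hcop, -, hval⟩ := hPPI A B h
  obtain ⟨-, -, -, h2, -, hn, -, -⟩ := hval V hV
  by_contra hzL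
  have hx : xx A B L z ∉ V := hz.resolve_left hzL
  refine hx ((hT3 A B L Om h hCM V hV).2.2.2 ?_ M' z hM ?_ hzL hMz)
  · intro n w hw hnw h3
    by_contra hwV
    exact hw (mem_of_nat_mul h h2 hξ (Or.inr hwV) (hn n h3) hnw)
  · have := hcop M' hpM 1
    rwa [pow_one] at this

end

end Pool.Agent.MU3E
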