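import Pool.Agent.MU3.StE

/-!
# MU3, block E: (DEG) the degree of `F_(p^j M')` over `F_(M')`
-/

set_option autoImplicit false

open WeierstrassCurve Polynomial NumberField IsDedekindDomain

namespace Pool.Agent.MU3E

open _root_.MU3 Pool.Agent.MU3A Pool.Agent.MU3B Pool.Agent.MU3C Pool.Agent.MU3V Pool.Agent.RI

noncomputable section

namespace DEG

variable {A B : ℤ}

/-- torsion fields of divisors -/
lemma tf_mono {L : PeriodPair} {Om : ℂ} (hc : Case A B) (hL : IsLat A B L Om) (u m : OO A B) :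
    TF L m ≤ TF L (u * m) := by
  unfold TF
  apply IntermediateField.adjoin.mono
  rintro c ⟨z, hz, hz', hcz⟩
  refine ⟨z, ?_, hz', hcz⟩
  have h1 := hL.emb_mul_mem hc u hz
  rwa [emb_mul hc, mul_assoc]

lemma mul_ne {x y : OO A B} (hc : Case A B) (hx : x ≠ 0) (hy : y ≠ 0) : x * y ≠ 0 := by
  intro h
  have h1 := mul_ne_zero (emb_ne_zero hc hx) (emb_ne_zero hc hy)
  rw [← emb_mul hc, h, emb_zero hc] at h1
  exact h1 rfl

end DEG

open DEG in
theorem te_DEG (h1 : Se_PPI) (h2 : Se_Z3) (h3 : Sa_ACT) (h4 : Sa_NRM) (h5 : Sa_GAL) : Se_DEG := by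
  classical
  intro A B L Om hc hL j M' hj hM' hpM'
  obtain ⟨-, hpr, -, -, hcop, -, -⟩ := h1 A B hc
  have hF : TF L M' ≤ TF L (ppi A B ^ j * M') := tf_mono hc hL.toIsLat _ _
  refine ⟨hF, ?_⟩
  have hp0 : ppi A B ≠ 0 := hpr.ne_zero
  have hpj0 : ppi A B ^ j ≠ 0 := by
    clear hj hF
    induction j with
    | zero =>
      intro h
      have h6 := congrArg emb h
      rw [pow_zero, emb_one hc, emb_zero hc] at h6
      exact one_ne_zero h6
    | succ j ih => rw [pow_succ]; exact mul_ne hc ih hp0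
  have hM0 : ppi A B ^ j * M' ≠ 0 := mul_ne hc hpj0 hM'
  obtain ⟨fd2, gal2⟩ := h4 A B L Om hc hL _ hM0
  obtain ⟨fd1, gal1⟩ := h4 A B L Om hc hL _ hM'
  obtain ⟨-, a2, a3, -, a5, -, -, -⟩ := h3 A B L Om hc hL _ hM0
  obtain ⟨b1, -, -, -, -, -, -, b8⟩ := h3 A B L Om hc hL _ hM'
  have hact : ∀ τ : TF L (ppi A B ^ j * M') →ₐ[kk A B] ℂ,
      ∃ a : OO A B, Act L τ (ppi A B ^ j * M') a := fun τ =>
    h5 A B L Om hc hL _ hM0 _ le_rfl τ
  choose a ha using hact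
  have card2 : Fintype.card (TF L (ppi A B ^ j * M') →ₐ[kk A B] ℂ) =
      Module.finrank (kk A B) (TF L (ppi A B ^ j * M')) := AlgHom.card _ _ ℂ
  have card1 : Fintype.card (TF L M' →ₐ[kk A B] ℂ) = Module.finrank (kk A B) (TF L M') :=
    AlgHom.card _ _ ℂ
  rw [← card2, ← card1, ← Finset.card_univ, ← Finset.card_univ]
  refine Finset.card_le_mul_card_image_of_maps_to
    (f := fun τ : TF L (ppi A B ^ j * M') →ₐ[kk A B] ℂ => τ.comp (IntermediateField.inclusion hF))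
    (fun _ _ => Finset.mem_univ _) _ ?_
  intro b _
  have key : ∀ τ τ' : TF L (ppi A B ^ j * M') →ₐ[kk A B] ℂ,
      τ.comp (IntermediateField.inclusion hF) = b → τ'.comp (IntermediateField.inclusion hF) = b →
      ppi A B ^ j ∣ a τ - a τ' → τ = τ' := by
    intro τ τ' hτ hτ' hd
    have e1 := b8 _ _ hF τ (a τ) (a3 _ τ (a τ) M' (dvd_mul_left _ _) (ha τ))
    have e2 := b8 _ _ hF τ' (a τ') (a3 _ τ' (a τ') M' (dvd_mul_left _ _) (ha τ'))
    rw [hτ] at e1
    rw [hτ'] at e2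
    have e3 : M' ∣ a τ - a τ' := b1 _ b _ _ le_rfl e1 e2
    have e4 : ppi A B ^ j * M' ∣ a τ - a τ' := (hcop M' hpM' j).symm.mul_dvd hd e3
    have e5 : ppi A B ^ j * M' ∣ a τ' - a τ := by
      rw [← neg_sub]
      exact (dvd_neg).2 e4
    have e6 := a2 _ τ' (a τ') (a τ) e5 (ha τ')
    exact a5 τ τ' (a τ) (ha τ) e6
  have hnd : ∀ τ : TF L (ppi A B ^ j * M') →ₐ[kk A B] ℂ, ¬ ppi A B ∣ a τ := by
    intro τ hd
    have e1 : IsCoprime (a τ) (ppi A B ^ j * M') := (ha τ).1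
    have e2 : ppi A B ∣ ppi A B ^ j * M' := dvd_mul_of_dvd_left (dvd_pow_self _ (by omega)) _
    exact hpr.not_unit (e1.isUnit_of_dvd' hd e2)
  rw [← Finset.card_image_of_injOn (f := a)]
  · refine (h2 A B hc j).2 hj _ ?_ ?_
    · intro x hx
      obtain ⟨τ, -, rfl⟩ := Finset.mem_image.1 hx
      exact hnd τ
    · intro x hx y hy hd
      obtain ⟨τ, hτ, rfl⟩ := Finset.mem_image.1 hx
      obtain ⟨τ', hτ', rfl⟩ := Finset.mem_image.1 hy
      rw [key τ τ' (Finset.mem_filter.1 hτ).2 (Finset.mem_filter.1 hτ').2 hd]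
  · intro τ hτ τ' hτ' hh
    refine key τ τ' (Finset.mem_filter.1 hτ).2 (Finset.mem_filter.1 hτ').2 ?_
    rw [hh, sub_self]
    exact dvd_zero _

end

end Pool.Agent.MU3E
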