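import Pool.Agent.MU3.CDefs
import Pool.Agent.MU3.ADefs2
import Pool.Agent.MU3.StGl

/-!
# MU3, block I (helper36): from (E) and (H) to the input (I3)

Section 4 (E4)-(E6) and section 7 of PAPER.md. A module proves `theorem t_X : St_X`.

`m = lev A B f n = f 3^(n+1)`, `u = Om / m`, `a = 1 + 6 f`. `wq p x` is the residue `1, -1, 0` of `x` modulo a
prime `p` of norm 3, `dlT` the logarithmic derivative of `Θ_a`, `FF` the function
`x ↦ w_p(x) (Θ_a'/Θ_a)(x u)`, `TT τ` its sum over the `x` with `σ_x = τ`, `Sn c`, `ST c` as in (E6).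
-/

set_option autoImplicit false

namespace Pool.Agent.MU3I

open _root_.MU3 Pool.Agent.MU3 Pool.Agent.MU3A Pool.Agent.MU3B Pool.Agent.MU3C Pool.Agent.RI
  Pool.Agent.RID

noncomputable section

open Classical in
/-- the residue of `x` modulo a prime `p` of norm `3`, as an integer `1`, `-1` or `0` -/
def wq {A B : ℤ} (p x : OO A B) : ℤ := if p ∣ x - 1 then 1 else if p ∣ x + 1 then -1 else 0

/-- the residue of an integer modulo `3`, as `1`, `-1` or `0` -/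
def w3 (c : ℤ) : ℤ := if c % 3 = 1 then 1 else if c % 3 = 2 then -1 else 0

/-- the logarithmic derivative of `Θ_a`, `a = 1 + 6 f` (`St_TDL`) -/
def dlT (L : PeriodPair) (f : ℕ) (z : ℂ) : ℂ :=
  (1 + 6 * (f : ℂ)) * ee L ((1 + 6 * (f : ℂ)) * z) - (1 + 6 * (f : ℂ)) ^ 2 * ee L z

/-- `w_p(x) (Θ_a'/Θ_a)(x u)` -/
def FF {A B : ℤ} (L : PeriodPair) (Om : ℂ) (f n : ℕ) (x : OO A B) : ℂ :=
  (wq (ppi A B) x : ℂ) * dlT L f (emb x * (Om / emb (lev A B f n)))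

/-- `S_n(c) = Σ ε(x) e(x u)`, over the `x` modulo `m` with `N x ≡ c` modulo `3^(n+1)` -/
def Sn {A B : ℤ} (L : PeriodPair) (Om : ℂ) (f : ℕ) (e : OO A B → ℂ) (n : ℕ) (c : ℤ) : ℂ :=
  sumMod (lev A B f n) fun x =>
    if (3 : ℤ) ^ (n + 1) ∣ nm x - c then e x * ee L (emb x * (Om / emb (lev A B f n))) else 0

/-- `S^T(c) = a S_n(a² c) - a² S_n(c)` -/
def ST {A B : ℤ} (L : PeriodPair) (Om : ℂ) (f : ℕ) (e : OO A B → ℂ) (n : ℕ) (c : ℤ) : ℂ :=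
  (1 + 6 * (f : ℂ)) * Sn L Om f e n ((1 + 6 * (f : ℤ)) ^ 2 * c) -
    (1 + 6 * (f : ℂ)) ^ 2 * Sn L Om f e n c

/-- `T(τ) = Σ w_p(x) (Θ_a'/Θ_a)(x u)`, over the classes `x` with `σ_x = τ` on `D` -/
def TT {A B : ℤ} (L : PeriodPair) (Om : ℂ) (f n : ℕ) {D : IntermediateField ℚ ℂ}
    (h : kk A B ≤ D) (τ : letI := algC h; D ≃ₐ[kk A B] D) : ℂ :=
  ∑ᶠ x ∈ XX L (lev A B f n) h τ, FF L Om f n (Quotient.out x)

/-- `v(x) ≥ 1/2` (for `v(3) = 1`) -/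
def Hf (V : ValuationSubring ℂ) (x : ℂ) : Prop := x ^ 2 / 3 ∈ V

/-- the image of `Gal(TF L m / k)` in `(O/m)^*` contains exactly one of `x`, `-x` -/
def Cpl {A B : ℤ} (L : PeriodPair) (m : OO A B) : Prop :=
  ∀ x : OO A B, IsCoprime x m →
    ((∃ σ : TF L m ≃ₐ[kk A B] TF L m, Act L (em σ) m x) ↔
      ¬ ∃ σ : TF L m ≃ₐ[kk A B] TF L m, Act L (em σ) m (-x))

/-! ## The two inputs -/

/-- (EFIN) final statement of block E (helper66): if `c_n^g` is a cube, `g ∈ ℤ[Gal(D/k)]`, then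
`v(Σ_τ g_τ T(τ τ')) ≥ 1/2` (`n ≥ 1`). -/
def St_EFIN : Prop :=
  ∀ (A B : ℤ) (_ : Case A B) (L : PeriodPair) (Om : ℂ) (_ : IsCM A B L Om)
    (V : ValuationSubring ℂ) (_ : emb (ppi A B) ∈ V.nonunits) (f : ℕ) (_ : f ≠ 0) (_ : ¬ 3 ∣ f)
    (_ : 2 * absD A B ∣ (f : ℤ)) (_ : mz A B ∣ (f : OO A B)) (n : ℕ) (_ : 1 ≤ n)
    (_ : Cpl L (lev A B f n)) (Hs : Finset ℂ) (_ : IsHalf L (1 + 6 * (f : ℂ)) Hs) (D : IntermediateField ℚ ℂ) [FiniteDimensional ℚ D]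
    (h : kk A B ≤ D) (_ : ∀ x ∈ D, x ∈ TF L (lev A B f n)),
    letI := algC h
    ∀ (_ : IsGalois (kk A B) D) (g : (D ≃ₐ[kk A B] D) → ℤ) (y : ℂ) (_ : y ∈ D)
      (_ : y ^ 3 = ∏ᶠ τ : D ≃ₐ[kk A B] D, cc L Om (lev A B f n) Hs h τ ^ g τ)
      (τ' : D ≃ₐ[kk A B] D),
      Hf V (∑ᶠ τ : D ≃ₐ[kk A B] D, (g τ : ℂ) * TT L Om f n h (τ * τ'))

/-- (HFIN) final statement of block H (helper27): for every `N ≥ 1` and all large `n` the sum
`Σ_j (-1)^(N-j) binom(N, j) (S^T(4^j) + s S^T(-4^j))` has `v < 1/2`. -/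
def St_HFIN : Prop :=
  ∀ (A B : ℤ) (_ : Case A B) (L : PeriodPair) (Om : ℂ) (_ : IsCM A B L Om)
    (V : ValuationSubring ℂ) (_ : emb (ppi A B) ∈ V.nonunits) (f : ℕ) (_ : f ≠ 0) (_ : ¬ 3 ∣ f)
    (_ : 2 * absD A B ∣ (f : ℤ)) (_ : ∀ n, Cpl L (lev A B f n)) (e : OO A B → ℂ)
    (_ : IsEps ((f : OO A B) * star (ppi A B)) e) (r : ℕ) (_ : ¬ 3 ∣ r)
    (_ : ∀ x, e x ≠ 0 → e x ^ r = 1) (s : ℤ) (_ : s = 1 ∨ s = -1) (N : ℕ) (_ : 1 ≤ N),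
    ∃ n₀ : ℕ, ∀ n, n₀ ≤ n → ¬ Hf V (∑ j ∈ Finset.range (N + 1),
      ((-1 : ℂ) ^ (N - j) * (N.choose j : ℂ)) *
        (ST L Om f e n (4 ^ j) + s * ST L Om f e n (-4 ^ j)))

/-! ## Elementary modules -/

/-- (IRES) the residue field of `V`.

PROOF. `F` = residue field. `3 ∈ V.nonunits` means `3 = 0` in `F` and `F` is a field, so `CharP F 3`. Algebraically
closed (`IsAlgClosed.of_exists_root`): a monic irreducible polynomial `p` over `F` lifts to a monic polynomial `P` over `V` of the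
same degree (`Polynomial.lifts_and_degree_eq_and_monic`, `Polynomial.lifts`; the residue map is surjective); `P` has a root `z` in `ℂ`;
`z` is integral over `V`, so `z ∈ V` (valuation rings are integrally closed); its residue is a root of `p`. -/
def St_IRES : Prop :=
  ∀ (V : ValuationSubring ℂ) (_ : (3 : ℂ) ∈ V.nonunits),
    CharP (IsLocalRing.ResidueField V) 3 ∧ IsAlgClosed (IsLocalRing.ResidueField V)

/-- (IVEX) existence of `V`.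

PROOF. Chevalley: Mathlib has the existence of a valuation ring dominating a local subring
(`LocalSubring.exists_le_valuationSubring` or similar). Take the subring `R` = image of `O` (`embHom`), the prime ideal generated by
`emb π` (`π` has norm 3, so `1 = x π` is impossible: `nm` is multiplicative; a maximal ideal of `R` containing `emb π`), and the localization of
`R` at it as a local subring of `ℂ`. Second part: `3 = π π̄`, `V.nonunits` is stable under multiplication by elements of `V`, and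
`emb x ∈ V` for all `x` in `O` (integral over `ℤ`). -/
def St_IVEX : Prop :=
  ∀ (A B : ℤ) (_ : Case A B), ∃ V : ValuationSubring ℂ, emb (ppi A B) ∈ V.nonunits ∧
    (3 : ℂ) ∈ V.nonunits

/-- (ICHI) characters with values in the residue field.

PROOF. Let `F` be the residue field, `e = Fintype.card Δ`, `3 ∤ e`. By IRES `F` is algebraically closed of
characteristic 3, so the groups of `e`-th roots of unity of `ℂ` and of `F` are cyclic of order `e`. The `e`-th roots of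
unity `z` of `ℂ` are units of `V`, and reduction is injective on them (for a primitive `e`-th root `z`,
`∏_(0<i<e) (1 - z^i) = e` is a unit of `V`, so `1 - z^i` is a unit for `0 < i < e`), so bijective onto those of `F`. `χ δ` is
an `e`-th root of unity; let `X δ` be the unique `e`-th root of unity of `ℂ` reducing to it: a homomorphism.
`θ`: regard `F` as a vector space over `ZMod 3`. Let `t = Σ_δ (χ δ)⁻¹ ⊗ χ δ` in `F ⊗ F` over `ZMod 3`. The multiplication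
`F ⊗ F → F` maps `t` to `e ≠ 0`, so `t ≠ 0`. If `Σ_δ θ((χ δ)⁻¹) χ δ = 0` in `F` for all linear `θ : F → ZMod 3`, then
`(θ ⊗ id) t = 0` for all `θ`, so `t = 0` (`F` is free over `ZMod 3`; take a basis `b_i` of `F`,
`(χ δ)⁻¹ = Σ_i θ_i((χ δ)⁻¹) b_i`, `t = Σ_i b_i ⊗ Σ_δ θ_i((χ δ)⁻¹) χ δ`; directly:
`e = Σ_δ (χ δ)⁻¹ χ δ = Σ_i b_i Σ_δ θ_i((χ δ)⁻¹) χ δ = 0`, no tensor product needed). The residue of the sum in the
conclusion is `Σ_δ θ((χ δ)⁻¹) χ δ ≠ 0`. -/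
def St_ICHI : Prop :=
  ∀ (V : ValuationSubring ℂ) (_ : (3 : ℂ) ∈ V.nonunits) (Δ : Type) [Group Δ] [Fintype Δ]
    (_ : ∀ σ τ : Δ, σ * τ = τ * σ)
    (_ : ¬ 3 ∣ Fintype.card Δ) (χ : Δ →* (IsLocalRing.ResidueField V)ˣ),
    ∃ (X : Δ →* ℂˣ) (θ : IsLocalRing.ResidueField V →+ ZMod 3),
      (∑ δ : Δ, ((θ ((χ δ)⁻¹ : (IsLocalRing.ResidueField V)ˣ)).val : ℂ) * (X δ : ℂ)) ∉ V.nonunits

/-- (IHF) the set `v ≥ 1/2` is stable under sums and under multiplication by `V`, and under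
division by units.

PROOF. `(x + y)²/3 = x²/3 + y²/3 + 2 (xy/3)` and `(xy/3)² = (x²/3)(y²/3) ∈ V`, so `xy/3 ∈ V` (if `t² ∈ V` then `t ∈ V`: otherwise
`t⁻¹ ∈ V`, `t = t² t⁻¹ ∈ V`). `(v x)²/3 = v² x²/3`. If `v ∉ V.nonunits`, then `v ≠ 0` and `v⁻¹ ∈ V`. -/
def St_IHF : Prop :=
  ∀ (V : ValuationSubring ℂ), Hf V 0 ∧ (∀ x y, Hf V x → Hf V y → Hf V (x + y)) ∧
    (∀ v x, v ∈ V → Hf V x → Hf V (v * x)) ∧ (∀ v x, v ∉ V.nonunits → Hf V (v * x) → Hf V x)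

/-- (IFOU) Fourier transform on `Δ`.

Uses IHF. PROOF. `X δ` is a root of unity, so it and its inverse are in `V`. Multiply the hypothesis for `δ' ∈ Δ` by
`(X δ')⁻¹` and add: `Σ_δ' (X δ')⁻¹ Σ_δ Σ_j b_δ c_j T(δ γ^j δ') = Σ_j c_j Σ_δ b_δ X(δ) Σ_δ'' (X δ'')⁻¹ T(γ^j δ'')` with
`δ'' = δ δ'`, `(X δ')⁻¹ = X δ (X δ'')⁻¹` (`G` is commutative). So `(Σ_δ b_δ X δ) Σ_j c_j Σ_δ'' (X δ'')⁻¹ T(γ^j δ'')`
has `Hf V`, and the first factor is not in `V.nonunits`. -/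
def St_IFOU : Prop :=
  ∀ (V : ValuationSubring ℂ) (G : Type) [Group G] [Finite G] (_ : ∀ σ τ : G, σ * τ = τ * σ)
    (γ : G) (Δ : Subgroup G) [Fintype Δ] (T : G → ℂ) (b : Δ → ℤ) (N : ℕ) (c : ℕ → ℤ)
    (X : Δ →* ℂˣ) (_ : (∑ δ : Δ, (b δ : ℂ) * (X δ : ℂ)) ∉ V.nonunits)
    (_ : ∀ τ' : G, Hf V (∑ δ : Δ, ∑ j ∈ Finset.range (N + 1),
      (b δ : ℂ) * (c j : ℂ) * T ((δ : G) * γ ^ j * τ'))),
    Hf V (∑ j ∈ Finset.range (N + 1), (c j : ℂ) *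
      ∑ δ : Δ, (((X δ)⁻¹ : ℂˣ) : ℂ) * T (γ ^ j * (δ : G)))

/-- (ITG) powers of `T = γ - 1`.

PROOF. Induction on `N`: `T^(N+1) c = T (T^N c) = γ(T^N c)/T^N c`, and
`binom(N+1, j) = binom(N, j-1) + binom(N, j)`: the exponent of `γ^j c` in `T^N c` is `(-1)^(N-j) binom(N, j)`
(`(X - 1)^N`); integer powers of nonzero elements. -/
def St_ITG : Prop :=
  ∀ (k L : Type) [Field k] [Field L] [Algebra k L] (γ : L ≃ₐ[k] L) (x : L) (_ : x ≠ 0) (N : ℕ),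
    (Tg γ)^[N] x = ∏ j ∈ Finset.range (N + 1),
      ((γ ^ j) x) ^ ((-1 : ℤ) ^ (N - j) * (N.choose j : ℤ))

/-- (IFIN) finitely many characters.

PROOF. `e` is determined by its values at representatives of the finite ring `O/g` (`g ≠ 0`; `per`), which are in the
finite set of `0` and the `r`-th roots of unity (`0 < r`). -/
def St_IFIN : Prop :=
  ∀ (A B : ℤ) (_ : Case A B) (g : OO A B) (_ : g ≠ 0) (r : ℕ) (_ : 0 < r),
    {e : OO A B → ℂ | IsEps g e ∧ ∀ x, e x ≠ 0 → e x ^ r = 1}.Finite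

/-! ## The characters -/

/-- The action on the torsion points, in abstract form: `X τ` is the set of the `x` in `O` such that
`σ_x = τ` on `D`, `Δ` the subgroup of the automorphisms trivial on the layer, `γ` fixes `K` and acts
on the layer as `4`. -/
structure IsMod {A B : ℤ} (f n : ℕ) {G : Type} [Group G] (γ : G) (Δ : Subgroup G)
    (X : G → Set (OO A B)) : Prop where
  comm : ∀ σ τ : G, σ * τ = τ * σ
  ord : γ ^ 3 ^ n = 1
  gen : ∀ h : G, ∃ δ ∈ Δ, ∃ i : ℕ, h = δ * γ ^ i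
  one : (1 : OO A B) ∈ X 1
  cop : ∀ τ, ∀ x ∈ X τ, IsCoprime x (lev A B f n)
  ex : ∀ x, IsCoprime x (lev A B f n) → (∃ τ, x ∈ X τ) ∨ ∃ τ, -x ∈ X τ
  uniq : ∀ x τ τ', x ∈ X τ → x ∈ X τ' → τ = τ'
  mul : ∀ x y τ τ', x ∈ X τ → y ∈ X τ' → x * y ∈ X (τ * τ')
  per : ∀ x y τ, lev A B f n ∣ x - y → x ∈ X τ → y ∈ X τ
  neg : ∀ x τ, x ∈ X τ → ¬ ((3 * f : ℕ) : OO A B) ∣ x + 1
  triv : ∀ x τ, x ∈ X τ → ((3 * f : ℕ) : OO A B) ∣ x - 1 → ∃ i : ℕ, τ = γ ^ i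
  nrm : ∀ x τ, x ∈ X τ → ∀ i : ℕ, (τ * (γ ^ i)⁻¹ ∈ Δ ↔
    (3 : ℤ) ^ (n + 1) ∣ nm x - 4 ^ i ∨ (3 : ℤ) ^ (n + 1) ∣ nm x + 4 ^ i)

/-- (IE0) the even character `e0` of `(O/3f)^*` attached to a character of `Δ`.

PROOF. Write `m = lev A B f n = f 3^(n+1)`. (1) `Δ ∩ ⟨γ⟩ = 1`: if `γ^i ∈ Δ`, then `nrm` for `x = 1`, `τ = 1` (and `(γ^i)⁻¹ ∈ Δ`) gives
`3^(n+1) ∣ 1 - 4^i` or `3^(n+1) ∣ 1 + 4^i`; the second is impossible modulo 3, so `3^n ∣ i` (order of `4` modulo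
`3^(n+1)`: `v_3(4^i - 1) = 1 + v_3(i)`, LTE `padicValInt.pow_sub_pow` or `Int.emultiplicity_pow_sub_pow`), `γ^i = 1`. So every
`τ` is `δ γ^i` with a unique `δ =: δ(τ) ∈ Δ`, and `τ ↦ δ(τ)` is a homomorphism which is trivial on `⟨γ⟩`.
(2) For `x` prime to `m` exactly one of `x`, `-x` is in `⋃ X τ`: not both, since `x ∈ X τ`, `-x ∈ X τ'` and
an inverse `y ∈ X (τ⁻¹)` of `x` modulo `m` (`x^k ≡ 1` modulo `m` for some `k ≥ 1`, `O/m` finite; `y = x^(k-1) ∈ X(τ^(k-1))`,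
`τ^k = 1` by `uniq`, `one`, `per`) give `-1 ∈ ⋃ X τ`, against `neg`. Define `e0(x) = (χ(δ(τ)))⁻¹` if `x ∈ X τ` or `-x ∈ X τ`, and
`e0(x) = 0` if `x` is not prime to `m` (equivalently, not prime to `3f`: the two numbers have the same prime divisors:
`IsCoprime.pow_right_iff` etc.). Multiplicative by `mul`. (3) Periodic modulo `3f`: let `x ≡ y` modulo `3f`, both prime to `m`,
`± x ∈ X τ`, `± y ∈ X τ'`. With an inverse `z ∈ X(τ'⁻¹)` of `± y` modulo `m`: `(± x) z ≡ ± 1` modulo `3f` is in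
`X (τ τ'⁻¹)`; by `neg` it is `≡ 1`, so `τ τ'⁻¹ = γ^i` by `triv` and `δ(τ) = δ(τ')`. -/
def St_IE0 : Prop :=
  ∀ (A B : ℤ) (_ : Case A B) (f n : ℕ) (_ : f ≠ 0) (_ : ¬ 3 ∣ f) (G : Type) [Group G] [Finite G]
    (γ : G) (Δ : Subgroup G) (X : G → Set (OO A B)) (_ : IsMod f n γ Δ X) (χ : Δ →* ℂˣ) (r : ℕ)
    (_ : ∀ δ, χ δ ^ r = 1),
    ∃ e0 : OO A B → ℂ, e0 1 = 1 ∧ e0 (-1) = 1 ∧ (∀ x y, e0 (x * y) = e0 x * e0 y) ∧
      (∀ x y, ((3 * f : ℕ) : OO A B) ∣ x - y → e0 x = e0 y) ∧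
      (∀ x, e0 x ≠ 0 ↔ IsCoprime x ((3 * f : ℕ) : OO A B)) ∧ (∀ x, e0 x ≠ 0 → e0 x ^ r = 1) ∧
      ∀ (x : OO A B) (δ : Δ) (i : ℕ), x ∈ X ((δ : G) * γ ^ i) → e0 x = (((χ δ)⁻¹ : ℂˣ) : ℂ)

/-- (IEPS) the character `ε` and the sign `s`.

Uses G0 (`Pool/Agent/MU3/G_G0.lean`). PROOF. `g = f π̄`. `π`, `π̄`, `f` are pairwise coprime (`3 ∤ f`, `π π̄ = 3`). Let `y ∈ O` with `y ≡ 1` modulo
`g` and `y ≡ -1` modulo `π` (CRT). `y² ≡ 1` modulo `3 f`, so `e0(y) = 1` or `-1`. Let `w = wq π̄`, `s = -1` in the first case, `w = wq π`, `s = 1` in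
the second. `φ(x) = e0(x) w(x)` satisfies: if `x ≡ x'` modulo `g`, both prime to `3 f`, then `φ(x) = φ(x')`:
`x ≡ ± x'` modulo `π` (`O/π` has three elements), so `x ≡ x'` or `x ≡ y x'` modulo `3f`, and `φ(y) = 1`: in the first case
`e0(y) = 1`, `w(y) = wq π̄ y = 1` (`π̄ ∣ g`), in the second `e0(y) = -1`, `wq π y = -1`. Define `ε(x) = φ(x')` for `x` prime to `g`, where `x'` is prime
to `3f`, `x' ≡ x` modulo `g` (CRT), `0` if `x` is not prime to `g`. `ε(-1) = e0(-1) w(-1) = -1`. Powers: `e0(x')^r = 1`,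
`w(x')² = 1`. Last formula, `x` prime to `3 f`: case `s = 1`: `ε(x) = e0(x) wq π x`. Case `s = -1`: `wq π x * wq π̄ x = w3(N x)`: `x ≡ a`
modulo `π`, `x ≡ b` modulo `π̄` with `a, b = ± 1`; then `x̄ ≡ b` modulo `π`, `N x = x x̄ ≡ a b` modulo `π`, and an
integer divisible by `π` is divisible by `3`. -/
def St_IEPS : Prop :=
  ∀ (A B : ℤ) (_ : Case A B) (f : ℕ) (_ : f ≠ 0) (_ : ¬ 3 ∣ f) (e0 : OO A B → ℂ) (r : ℕ)
    (_ : e0 1 = 1) (_ : e0 (-1) = 1) (_ : ∀ x y, e0 (x * y) = e0 x * e0 y)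
    (_ : ∀ x y, ((3 * f : ℕ) : OO A B) ∣ x - y → e0 x = e0 y)
    (_ : ∀ x, e0 x ≠ 0 ↔ IsCoprime x ((3 * f : ℕ) : OO A B)) (_ : ∀ x, e0 x ≠ 0 → e0 x ^ r = 1),
    ∃ (e : OO A B → ℂ) (s : ℤ), IsEps ((f : OO A B) * star (ppi A B)) e ∧ (s = 1 ∨ s = -1) ∧
      (∀ x, e x ≠ 0 → e x ^ (2 * r) = 1) ∧
      ∀ x, IsCoprime x ((3 * f : ℕ) : OO A B) →
        e0 x * (wq (ppi A B) x : ℂ) = e x * (if s = 1 then 1 else (w3 (nm x) : ℂ))

/-- (ITH) the sums `T̂_i`.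

Uses St_PER (`ee` is odd and periodic, `StB.lean`), `IsLat.emb_mul_mem`. PROOF. Write `m = lev A B f n`, `u = Om / emb m`, `a = 1 + 6 f`.
Everything is periodic modulo `m`: `emb (m y) u = Om emb y ∈ L`, `ee` is periodic, `wq π` is periodic modulo `3`, `π ∣ 3 ∣ m`. `FF` is even:
`wq π (-x) = - wq π x`, `ee (-z) = - ee z`. The left side is `Σ_δ (χ δ)⁻¹ Σ_(x ∈ X(γ^i δ)) FF x = Σ e0(x) FF(x)` over the classes
`x` in `⋃_δ X(γ^i δ)`, which are the `x ∈ ⋃ X τ` with `N x ≡ ± 4^i` modulo `3^(n+1)` (`nrm`, `gen`; `X` disjoint by `uniq`; `cop`).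
Exactly one of `x`, `-x` is in `⋃ X τ` for `x` prime to `m` (`ex`, and not both as in (IE0), (2)), and
`e0(x) FF(x)` and the condition on `N x` are invariant under `x ↦ -x`, so twice the left side is the sum over all classes
`x` prime to `m` with `N x ≡ 4^i` or `N x ≡ -4^i` (not both: `2 · 4^i` is prime to 3); `e0 FF` is zero if `x` is not prime to `m`. By `hs`,
`e0(x) wq π x = ε(x)` resp. `ε(x) w3(N x)`, and `w3(4^i) = 1`, `w3(-4^i) = -1`: the sum over `N x ≡ c` is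
`Σ ε(x) dlT(x u)` for `c = 4^i`, and `s Σ ε(x) dlT(x u)` for `c = -4^i` (if `x` is prime to `g = f π̄` and `N x ≡ c` is prime to 3, then
`x` is prime to `3 f`). Finally `Σ_(N x ≡ c) ε(x) dlT(x u) = a Σ ε(x) ee(a x u) - a² Sn c` and `x ↦ a x` is a bijection of
the classes (`a` is prime to `m`, as `a ≡ 1` modulo `3 f`; in fact modulo `6 f`) with `ε(a x) = ε(x)` (`g ∣ a - 1 = 6 f`),
`N(a x) = a² N x`: the first sum is `Sn (a² c)` (`a² y ≡ a² c` iff `y ≡ c` modulo `3^(n+1)`). So it is `ST c`. -/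
def St_ITH : Prop :=
  ∀ (A B : ℤ) (_ : Case A B) (L : PeriodPair) (Om : ℂ) (_ : IsCM A B L Om) (f n : ℕ)
    (_ : f ≠ 0) (_ : ¬ 3 ∣ f) (G : Type) [Group G] [Finite G]
    (γ : G) (Δ : Subgroup G) [Fintype Δ] (X : G → Set (OO A B)) (_ : IsMod f n γ Δ X)
    (χ : Δ →* ℂˣ) (e0 : OO A B → ℂ) (_ : e0 1 = 1) (_ : e0 (-1) = 1)
    (_ : ∀ x y, e0 (x * y) = e0 x * e0 y)
    (_ : ∀ x y, ((3 * f : ℕ) : OO A B) ∣ x - y → e0 x = e0 y)
    (_ : ∀ x, e0 x ≠ 0 ↔ IsCoprime x ((3 * f : ℕ) : OO A B))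
    (_ : ∀ (x : OO A B) (δ : Δ) (i : ℕ), x ∈ X ((δ : G) * γ ^ i) → e0 x = (((χ δ)⁻¹ : ℂˣ) : ℂ))
    (e : OO A B → ℂ) (s : ℤ) (_ : IsEps ((f : OO A B) * star (ppi A B)) e) (_ : s = 1 ∨ s = -1)
    (_ : ∀ x, IsCoprime x ((3 * f : ℕ) : OO A B) →
      e0 x * (wq (ppi A B) x : ℂ) = e x * (if s = 1 then 1 else (w3 (nm x) : ℂ))) (i : ℕ),
    2 * ∑ δ : Δ, (((χ δ)⁻¹ : ℂˣ) : ℂ) * sumMod (lev A B f n) (fun x =>
        open Classical in if x ∈ X (γ ^ i * (δ : G)) then FF L Om f n x else 0) =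
      ST L Om f e n (4 ^ i) + s * ST L Om f e n (-4 ^ i)

end

end Pool.Agent.MU3I
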