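import Pool.Agent.RI.Defs

/-!
# MU3, block K: the interface of the Kolyvagin step

`k ⊆ L` number fields, `L / k` Galois with abelian group `G = Gal(L / k)`, `S` a finite set of prime
numbers. `J L`, `prin`, the action of `G` on `J L` are from `Pool/Agent/RI/Defs.lean`.

* `SU S L x` : `x` is a unit outside `S`.
* `SJ S L` : the fractional ideals composed of primes above `S`.
* `KolIn k L S c` : the input (I2) for `c` in `Lˣ`, a unit outside `S` (from the CM curve).
* `KRel k L S u` : the relations in the class group for the unit `u` of `L`.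
* `S_KIN` : the statement of section 1: `KolIn` for `c` gives `KRel` for `u = c^(g^3 - 1)`.
-/

open NumberField IsDedekindDomain
open scoped nonZeroDivisors Pointwise

namespace Pool.Agent.MU3

open Pool.Agent.RI

/-- `v` is a prime of `L` above a prime number of `S`. -/
def Above (S : Finset ℕ) {L : Type} [Field L] [NumberField L] (v : HeightOneSpectrum (𝓞 L)) :
    Prop := ∃ p ∈ S, (p : 𝓞 L) ∈ v.asIdeal

/-- `x` is a unit outside `S`. -/
def SU (S : Finset ℕ) (L : Type) [Field L] [NumberField L] (x : L) : Prop :=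
  ∀ v : HeightOneSpectrum (𝓞 L), ¬ Above S v → v.valuation L x = 1

/-- The prime `v` as an element of the group of fractional ideals. -/
noncomputable def vJ {L : Type} [Field L] [NumberField L] (v : HeightOneSpectrum (𝓞 L)) : J L :=
  Units.mk0 (v.asIdeal : FractionalIdeal (𝓞 L)⁰ L)
    (FractionalIdeal.coeIdeal_ne_zero.2 v.ne_bot)

/-- The group generated by the primes above `S`. -/
def SJ (S : Finset ℕ) (L : Type) [Field L] [NumberField L] : Subgroup (J L) :=
  Subgroup.closure {x | ∃ v : HeightOneSpectrum (𝓞 L), Above S v ∧ x = vJ v}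

/-- `lam` is a prime of `L` of degree one, of residue characteristic `q ∉ S`, `q ≡ 1` modulo `3`,
with trivial decomposition group over `k`. -/
structure GoodPr (k L : Type) [Field k] [Field L] [NumberField L] [Algebra k L] (S : Finset ℕ)
    (lam : HeightOneSpectrum (𝓞 L)) (q : ℕ) : Prop where
  prime : q.Prime
  notin : q ∉ S
  three : 3 ∣ q - 1
  card : Nat.card (𝓞 L ⧸ lam.asIdeal) = q
  free : ∀ h : L ≃ₐ[k] L, h • lam.asIdeal = lam.asIdeal → h = 1

/-- Input (I2): for every good prime `lam` of `L` there are a cyclic cubic extension `F / L`,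
abelian over `k`, unramified outside `S` and `lam ∩ k`, totally ramified at the primes above
`lam ∩ k`, and `z` in `F`, a unit outside `S`, whose norm to `L` is in `k` and which is congruent to
`c ^ ((q - 1) / 3)` modulo all primes of `F` above `lam ∩ k`. -/
def KolIn (k L : Type) [Field k] [NumberField k] [Field L] [NumberField L] [Algebra k L]
    (S : Finset ℕ) (c : L) : Prop :=
  ∀ (lam : HeightOneSpectrum (𝓞 L)) (q : ℕ), GoodPr k L S lam q →
    ∃ (F : Type) (_ : Field F) (_ : NumberField F) (_ : Algebra k F) (_ : Algebra L F)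
      (_ : IsScalarTower k L F), IsGalois k F ∧ (∀ σ τ : F ≃ₐ[k] F, σ * τ = τ * σ) ∧
      Module.finrank L F = 3 ∧
      (∀ w : HeightOneSpectrum (𝓞 F), ¬ Above S w →
        w.asIdeal.under (𝓞 k) ≠ lam.asIdeal.under (𝓞 k) → w.asIdeal.ramificationIdx (𝓞 L) = 1) ∧
      (∀ w : HeightOneSpectrum (𝓞 F), w.asIdeal.under (𝓞 k) = lam.asIdeal.under (𝓞 k) →
        w.asIdeal.ramificationIdx (𝓞 L) = 3) ∧
      ∃ z : F, SU S F z ∧ (∃ y : k, Algebra.norm L z = algebraMap k L y) ∧
        ∀ w : HeightOneSpectrum (𝓞 F), w.asIdeal.under (𝓞 k) = lam.asIdeal.under (𝓞 k) →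
          w.valuation F (z - algebraMap L F c ^ ((q - 1) / 3)) < 1

/-- The relations in the class group of `L` for the unit `u`: for every good prime `lam`, every
integer `a` of order `3` modulo `q`, and exponents `b h` with `u ^ ((q-1)/3) ≡ a ^ (b h)` modulo `h lam`,
the ideal `∏ (h lam) ^ (b h)` is a principal ideal times a cube times primes above `S`. -/
def KRel (k L : Type) [Field k] [NumberField k] [Field L] [NumberField L] [Algebra k L]
    [FiniteDimensional k L] (S : Finset ℕ) (u : (𝓞 L)ˣ) : Prop :=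
  ∀ (lam : HeightOneSpectrum (𝓞 L)) (q : ℕ), GoodPr k L S lam q →
    ∀ a : ℤ, (q : ℤ) ∣ a ^ 3 - 1 → ¬ (q : ℤ) ∣ a - 1 → ∀ b : (L ≃ₐ[k] L) → ℕ,
      (∀ h : L ≃ₐ[k] L, (u : 𝓞 L) ^ ((q - 1) / 3) - (a : 𝓞 L) ^ b h ∈ h • lam.asIdeal) →
      ∃ (κ : Lˣ) (I s : J L), s ∈ SJ S L ∧
        ∏ h : L ≃ₐ[k] L, (h • vJ lam) ^ b h = prin κ * I ^ 3 * s

/-- KIN (section 1, helper80): the relations for `u = c ^ (g ^ 3 - 1)`, where `g` fixes all primes of
`L` above `S`.
Proof. `Pool/Agent/MU3/PAPER_K.md`, section 1. For a good prime `lam` take `F`, `z` from `KolIn`,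
an extension `g'` of `g` to `F`. `g'` commutes with `Gal(F / L)`, which is transitive on the primes of
`F` above a prime `v` of `L`; if `v` is above `S` then `g' w = τ w`, so `g' ^ 3 w = τ ^ 3 w = w`. So
`z' = g' ^ 3 z / z` is a unit of `𝓞 F`, `N z' = 1` (`N z ∈ k`), `z' ≡ u ^ ((q-1)/3)` modulo all `w` above
`lam ∩ k`. Lemmas 1 and 2. -/
def S_KIN : Prop := ∀ (k L : Type) [Field k] [NumberField k] [Field L] [NumberField L]
    [Algebra k L] [IsGalois k L], (∀ σ τ : L ≃ₐ[k] L, σ * τ = τ * σ) →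
    ∀ (S : Finset ℕ), 3 ∈ S → ∀ (c : L), c ≠ 0 → SU S L c → KolIn k L S c →
    ∀ g : L ≃ₐ[k] L, (∀ v : HeightOneSpectrum (𝓞 L), Above S v → g • v.asIdeal = v.asIdeal) →
    ∀ u : (𝓞 L)ˣ, ((u : 𝓞 L) : L) = (g ^ 3) c / c → KRel k L S u

end Pool.Agent.MU3
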