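import Pool.Agent.MU3.StV
import Pool.Agent.MU3.StA2
import Pool.Agent.MU3.CDefs
import Pool.Agent.MU3.KDefs

/-!
# MU3, block V: the elements `c_n`, the norm relation and the primes of degree one (helper59)

Statements `def Sw_X : Prop` with complete proofs in the doc strings; the module proves
`theorem tw_X (h : ...) ... : Sw_X` in `Pool/Agent/MU3/W_X.lean`. `k = kk A B`, `F_m = TF L m`, `D` a field with
`k ≤ D ≤ F_m` (`D : IntermediateField ℚ ℂ`, structure of `k`-algebra `algC h`), `u = Om / emb m`,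
`E[m] = {z : emb m * z ∈ L}`, `E₁ = {z : InE1 A B V L z}`. `XX`, `cc`, `Ext1`: `CDefs.lean`. `Act`, `em`, `TF`: `ADefs.lean`.
`cls m x` is the class of `x` modulo `m`.
-/

set_option autoImplicit false

open WeierstrassCurve Polynomial NumberField IsDedekindDomain

namespace Pool.Agent.MU3V

open _root_.MU3 Pool.Agent.MU3A Pool.Agent.MU3B Pool.Agent.MU3C Pool.Agent.RI

noncomputable section

/-- the class of `x` modulo `m` -/
def cls {A B : ℤ} (m x : OO A B) : OO A B ⧸ Ideal.span {m} := Ideal.Quotient.mk (Ideal.span {m}) x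

/-- `D ≤ F_m` -/
def Sub {A B : ℤ} (D : IntermediateField ℚ ℂ) (F : IntermediateField (kk A B) ℂ) : Prop :=
  ∀ x ∈ D, x ∈ F

/-! ### Local statements -/

/-- (DIF) points with congruent coordinates differ by an element of `E₁`.

Uses `VZ.lean`, `VRed.v_y_unit`. PROOF. If `z - z'` is not in `E₁` then `z + z'` is (`v_xx_sub`). `z = -z' + (z + z')`, so by
`near_lt` `yy z ≡ yy(-z') = -yy z'` modulo the maximal ideal (`yy` is odd: `ξ(-z) = -ξ(z)`, `a₁ = a₃ = 0`), so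
`2 yy z' ≡ 0`, `v(yy z') < 1`. By `v_y_unit` (for the point `ξ z'`) `z' + z'` is in `E₁`, so
`z - z' = (z + z') - (z' + z')` is in `E₁`. -/
def Sw_DIF : Prop :=
  ∀ (A B : ℤ) (L : PeriodPair) (Om : ℂ) (ξ : ℂ →+ (WC A B).Point), Case A B → IsCM A B L Om →
    IsXi A B L ξ → ∀ V : ValuationSubring ℂ, V.valuation 2 = 1 → ∀ z z' : ℂ,
    ¬ InE1 A B V L z → ¬ InE1 A B V L z' → V.valuation (xx A B L z - xx A B L z') < 1 →
    V.valuation (yy L z - yy L z') < 1 → InE1 A B V L (z - z')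

/-- (THU) `Θ_a` is a unit, and depends only on the reduction.

Uses `VZ.lean`. PROOF. `p ∈ H`: `a p ∈ L`, `p ∉ L` (`2 p ∉ L`), so `p ∉ E₁` (`mem_of_nat_mul` with `n = |a|`,
`v a = 1`). (1) If `z` or `z ± p` is in `E₁` then so is `a` times it (`inE1_int`), which is congruent to `a z` modulo `L`: excluded. So
`v(xx z - xx p) = 1` (`v_xx_sub`), and `℘ z - ℘ p = xx z - xx p`. (2) `xx z - xx p`, `xx(z + r) - xx p` are in `V` and congruent
(`near_lt`; `z + r ∉ E₁` by `inE1_congr`); products of congruent elements of `V` are congruent (`Finset.induction`). -/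
def Sw_THU : Prop :=
  ∀ (A B : ℤ) (L : PeriodPair) (Om : ℂ) (ξ : ℂ →+ (WC A B).Point), Case A B → IsCM A B L Om →
    IsXi A B L ξ → ∀ V : ValuationSubring ℂ, V.valuation 2 = 1 → ∀ (a : ℤ) (H : Finset ℂ),
    V.valuation (a : ℂ) = 1 → IsHalf L a H →
    (∀ z, ¬ InE1 A B V L (a * z) → V.valuation (ThetaH L H z) = 1) ∧
    ∀ z r, ¬ InE1 A B V L z → InE1 A B V L r → V.valuation (ThetaH L H z) ≤ 1 ∧
      V.valuation (ThetaH L H (z + r) - ThetaH L H z) < 1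

/-- (TORV) torsion of order prime to the residue characteristic is not in `E₁`.

Uses `VZ.lean`, Sa_PID. PROOF. `m ∣ nm m` (`m * conj m = nm m`), so `nm m * z ∈ L` for `z ∈ E[m]`; `nm m ≥ 0`
(`nm m = n` natural), `v n = 1`: `mem_of_nat_mul`. -/
def Sw_TORV : Prop :=
  ∀ (A B : ℤ) (L : PeriodPair) (Om : ℂ) (ξ : ℂ →+ (WC A B).Point), Case A B → IsCM A B L Om →
    IsXi A B L ξ → ∀ V : ValuationSubring ℂ, V.valuation 2 = 1 → ∀ m : OO A B,
    V.valuation ((nm m : ℤ) : ℂ) = 1 → ∀ z, emb m * z ∈ L.lattice → InE1 A B V L z → z ∈ L.lattice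

/-- (INV) an automorphism of `F` which is trivial modulo `V` acts trivially on `E[m]` if `E[m]` meets `E₁`
trivially.

Uses Sw_DIF, Sa_GAL, Sa_ACT. PROOF. (GAL): `Act (em σ) m a`. Let `z = Om/emb m`. If `m` is a unit nothing is to be shown (`Act` is
vacuous; `IsCoprime 1 m` is trivial). Otherwise `z ∉ L`, `emb a z ∉ L` (`Act`), both are in `E[m]`, so not in `E₁`. `xx z`, `yy z` are in `V`
(`int_x`, `int_yy`) and in `F` (generators of `TF L m`), so `xx(a z) = σ(xx z) ≡ xx z`, `yy(a z) ≡ yy z`, and (DIF)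
`a z - z ∈ E₁`, so it is in `L`: `m ∣ a - 1` (`mul_div_mem_iff`). (ACT)(2). -/
def Sw_INV : Prop :=
  ∀ (A B : ℤ) (L : PeriodPair) (Om : ℂ) (ξ : ℂ →+ (WC A B).Point), Case A B → IsCM A B L Om →
    IsXi A B L ξ → ∀ V : ValuationSubring ℂ, V.valuation 2 = 1 → ∀ m : OO A B, m ≠ 0 →
    (∀ z, emb m * z ∈ L.lattice → InE1 A B V L z → z ∈ L.lattice) →
    ∀ F : IntermediateField (kk A B) ℂ, TF L m ≤ F → ∀ σ : F ≃ₐ[kk A B] F,
      (∀ x : F, (x : ℂ) ∈ V → ((σ x : F) : ℂ) - (x : ℂ) ∈ V.nonunits) → Act L (em σ) m 1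

/-! ### Galois action on `Θ_a` -/

/-- (XXM) membership in `XX`.

Uses Sa_ACT. PROOF. `Quotient.out (cls m x)` is congruent to `x` modulo `m`: (ACT)(2). -/
def Sw_XXM : Prop :=
  ∀ (A B : ℤ) (L : PeriodPair) (Om : ℂ), Case A B → IsCM A B L Om → ∀ m : OO A B, m ≠ 0 →
    ∀ (D : IntermediateField ℚ ℂ) (h : kk A B ≤ D) (τ : letI := algC h; D ≃ₐ[kk A B] D)
      (x : OO A B), cls m x ∈ XX L m h τ ↔
        ∃ σ : TF L m ≃ₐ[kk A B] TF L m, Act L (em σ) m x ∧ Ext1 h τ σ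

/-- (FIB) `XX` at a higher level is the full inverse image.

Uses Sw_XXM, Sa_ACT, Sa_S5, Sa_NEG, Sa_NRM. PROOF. `F_m ≤ F_N` (`E[m] ⊆ E[N]`), both finite Galois over `k` (NRM). `→`: `σ` on `F_N` acts by `x`, extends `τ`;
its restriction to `F_m` (normal) is an automorphism `σ'`, `Act (em σ') m x` (ACT)(3), (8), and it still extends `τ` because
`D ≤ F_m`. Coprime: part of `Act`. `←`: `τ' ∈ Gal(F_m/k)` acts by `x` mod `m` and extends `τ`. (S5) for `F_N`: `σ` acts on `E[N]` by `x` or by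
`-x`. If `-x`: the restriction `σ'` of `σ` to `F_m` acts by `-x`, `τ'` by `x`, against (NEG)(2) for `F_m` (`mz ∣ m`). So `σ` acts by `x`,
`σ' = τ'` (ACT)(5), and `σ` extends `τ`. -/
def Sw_FIB : Prop :=
  ∀ (A B : ℤ) (L : PeriodPair) (Om : ℂ), Case A B → IsCM A B L Om → ∀ m N : OO A B, m ≠ 0 → N ≠ 0 →
    mz A B ∣ m → m ∣ N → ∀ (D : IntermediateField ℚ ℂ) (h : kk A B ≤ D), Sub D (TF L m) →
    ∀ (τ : letI := algC h; D ≃ₐ[kk A B] D) (x : OO A B),
      cls N x ∈ XX L N h τ ↔ IsCoprime x N ∧ cls m x ∈ XX L m h τ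

/-- (XXG) `XX` and the group structure.

Uses Sw_XXM, Sa_ACT, Sa_NRM. PROOF. `F = F_m` is finite Galois over `k` with commutative group, so `D / k` is normal: for `σ ∈ Gal(F/k)`
and `y ∈ D`, `σ y ∈ D` (the subfield `D` of `F`, as `IntermediateField (kk A B) F`, corresponds to a normal subgroup). (1) Hence
every `σ` extends some `τ`. (2) every `τ` extends to `F` (`F/k` normal: `AlgEquiv.liftNormal`, or
`AlgHom` lifting to an embedding of `F` in `ℂ`, with image `F`). (3) `Act`, (ACT)(1), (4): if `σ` acts by `b` and extends `τ'` then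
`cls x ∈ XX τ → cls (b x) ∈ XX (τ' τ)`; conversely with `σ⁻¹`. (4) If `x` is in two sets `XX τ`, `XX τ'` then the automorphisms
agree (ACT)(5), (1), so `τ = τ'` (`D ≤ F`). -/
def Sw_XXG : Prop :=
  ∀ (A B : ℤ) (L : PeriodPair) (Om : ℂ), Case A B → IsCM A B L Om → ∀ m : OO A B, m ≠ 0 →
    ∀ (D : IntermediateField ℚ ℂ) (h : kk A B ≤ D), Sub D (TF L m) → letI := algC h
    (∀ σ : TF L m ≃ₐ[kk A B] TF L m, ∃ τ : D ≃ₐ[kk A B] D, Ext1 h τ σ) ∧
    (∀ τ : D ≃ₐ[kk A B] D, ∃ (σ : TF L m ≃ₐ[kk A B] TF L m) (b : OO A B),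
      Act L (em σ) m b ∧ Ext1 h τ σ) ∧
    (∀ (σ : TF L m ≃ₐ[kk A B] TF L m) (b x : OO A B) (τ τ' : D ≃ₐ[kk A B] D),
      Act L (em σ) m b → Ext1 h τ' σ → (cls m x ∈ XX L m h τ ↔ cls m (b * x) ∈ XX L m h (τ' * τ))) ∧
    ∀ (x : OO A B) (τ τ' : D ≃ₐ[kk A B] D), cls m x ∈ XX L m h τ → cls m x ∈ XX L m h τ' → τ = τ'

/-- (THG) Galois action on the values of `Θ_a` at torsion points.

Uses Sa_NRM, Sa_GAL, Sa_ACT, St_TIN, Sa_EQN. PROOF. `N = m * a` (`a` as an element of `O`), `F' = TF L N`, finite Galois over `k`, contains `TF L m`; `H ⊆ E[N]`,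
`z ∈ E[N]`. (i) Let `σ' : F' → ℂ` with `Act σ' N b'`. `ThetaH L H z = ∏_(p ∈ H) (xx z - xx p)` is in `F'` and
`σ'(ThetaH L H z) = ∏ (xx(b'z) - xx(b'p))` (`Act`; `p ∉ L`). The set `H' = {b' p : p ∈ H}` is a half system for `a`: `a b' p ∈ L`; `b'` is
prime to `a`, so if `y ∈ E[a]` and `b' y ∈ L` then `y ∈ L` (`mem_of_coprime`): this gives injectivity of `p ↦ b' p`, `ne`, `inj`, `neg`; `surj`: for
`z₀ ∈ E[a]∖L` let `c b' ≡ 1` modulo `a`; `c z₀ ∈ E[a]∖L`, so `c z₀ ∓ p ∈ L` for some `p ∈ H`, and `z₀ ∓ b' p ∈ L`. By (TIN)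
`σ'(ThetaH L H z) = ThetaH L H' (b' z) = ThetaH L H (b' z)`. (ii) `σ : TF L m → ℂ` with `Act σ m b` extends to `σ' : F' → ℂ` (`F'` algebraic
over `TF L m`, `ℂ` algebraically closed; `IntermediateField` lifting, `IsAlgClosed.lift`), (GAL) `Act σ' N b'`, and `m ∣ b' - b` (ACT)(3), (1), (8), so
`b' z ≡ b z` modulo `L` and `ThetaH L H (b' z) = ThetaH L H (b z)` (TIN). (iii) membership in `TF L m`: for `σ' ∈ Gal(F'/TF L m)` we have
`b' ≡ 1` modulo `m`, so `σ'(ThetaH L H z) = ThetaH L H z`; fixed by the Galois group, so in `TF L m`. -/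
def Sw_THG : Prop :=
  ∀ (A B : ℤ) (L : PeriodPair) (Om : ℂ), Case A B → IsCM A B L Om → ∀ m : OO A B, m ≠ 0 →
    ∀ (a : ℤ) (H : Finset ℂ), a ≠ 0 → IsHalf L a H → ∀ z, emb m * z ∈ L.lattice → z ∉ L.lattice →
    ∃ hz : ThetaH L H z ∈ TF L m, ∀ (σ : TF L m →ₐ[kk A B] ℂ) (b : OO A B), Act L σ m b →
      σ ⟨ThetaH L H z, hz⟩ = ThetaH L H (emb b * z)

/-- (MEMC) `cc .. τ` is in `D`, it is `τ(cc .. 1)`, and it is not `0`.

Uses Sw_THG, Sw_XXG, Sw_XXM, Sa_NRM, Sa_ACT, St_TNZ, St_TIN. PROOF. `m` is not a unit, so `x u ∉ L` for `x` prime to `m`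
(`u = Om/emb m`, `mul_div_mem_iff`). `XX τ` is finite (`O/m` is finite; or: it is the image of the finite group
`Gal(F_m/k)`). `σ ∈ Gal(F_m/k)` acting by `b` and extending `τ'`: `σ(cc τ) = ∏_(x ∈ XX τ) Θ(b x u)` (THG) `= cc (τ' τ)` by (XXG)(3)
(`x ↦ b x` is a bijection of `XX τ` with `XX (τ' τ)`, and `Θ(b x u)` only depends on the class of `b x`: (TIN)). Therefore `cc τ` is fixed by the
automorphisms of `F_m / k` which are trivial on `D`, so in `D` (Galois theory, `D ≤ F_m`). `τ(cc 1)`: extend `τ` to `σ` (XXG)(2):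
`τ(cc 1) = σ(cc 1) = cc τ`. Nonzero: `Θ(x u) = 0` iff `a x u ∈ L` (TNZ) iff `m ∣ a x`, impossible as `a` and `x` are prime to `m`. -/
def Sw_MEMC : Prop :=
  ∀ (A B : ℤ) (L : PeriodPair) (Om : ℂ), Case A B → IsCM A B L Om → ∀ m : OO A B, m ≠ 0 →
    ¬ IsUnit m → ∀ (a : ℤ) (H : Finset ℂ), a ≠ 0 → IsCoprime (a : OO A B) m → IsHalf L a H →
    ∀ (D : IntermediateField ℚ ℂ) (h : kk A B ≤ D), Sub D (TF L m) → letI := algC h
    (∀ τ : D ≃ₐ[kk A B] D, cc L Om m H h τ ∈ D ∧ cc L Om m H h τ ≠ 0) ∧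
    ∀ (τ : D ≃ₐ[kk A B] D) (h1 : cc L Om m H h 1 ∈ D),
      ((τ ⟨cc L Om m H h 1, h1⟩ : D) : ℂ) = cc L Om m H h τ

/-- (SUC) `c = cc .. 1` is a unit outside `S`.

Uses Sv_EXT, Sw_THU, Sw_TORV, Sa_XI. PROOF. `w` a prime of `D` not above `S`; extend it to `V` (EXT, `φ` the inclusion). `V.valuation p = 1` for
`p ∈ S` (`p ∉ w`). `v a = 1`: let `p` be the prime number in `w`; if `v a < 1` then `p ∣ a` (otherwise `x p + y a = 1`), so `p ∈ S`,
contradiction; in the same way `v (nm m) = 1`. Every factor of `c` is `Θ(x u)`, `x` prime to `m`; `a x u ∉ L` (`m ∤ a x`) is in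
`E[m]`, so not in `E₁` (TORV), and `v(Θ(x u)) = 1` (THU)(1). -/
def Sw_SUC : Prop :=
  ∀ (A B : ℤ) (L : PeriodPair) (Om : ℂ), Case A B → IsCM A B L Om → ∀ m : OO A B, m ≠ 0 →
    ¬ IsUnit m → ∀ (a : ℤ) (H : Finset ℂ), a ≠ 0 → IsCoprime (a : OO A B) m → IsHalf L a H →
    ∀ S : Finset ℕ, 2 ∈ S → (∀ p : ℕ, p.Prime → (p : ℤ) ∣ a → p ∈ S) →
    (∀ p : ℕ, p.Prime → (p : ℤ) ∣ nm m → p ∈ S) →
    ∀ (D : IntermediateField ℚ ℂ) [FiniteDimensional ℚ D] (h : kk A B ≤ D) (c : D),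
      (c : ℂ) = cc L Om m H h (letI := algC h; (1 : D ≃ₐ[kk A B] D)) → Pool.Agent.MU3.SU S D c

/-- (DISI) distribution relation over `E[b]`, with constant in `k`.

Uses St_TDI, Sw_THG, Sa_NRM, Sa_ACT, Sa_PID. PROOF. `R = {emb (out t) Om/emb b : t ∈ O/b, t ≠ 0}` (finite: `O/b` is finite) is
`IsReps L (emb b) R` (`torsion_iff`, `mul_div_mem_iff`). If `a z ∈ L` and `b z ∈ L` then `z ∈ L` (`mem_of_coprime`). (TDI):
`Θ(z) ∏_(r ∈ R) Θ(z + r) = C Θ(b z)`, `C = b^(2|H|) ∏_(r ∈ R) Θ(r) ≠ 0`. The term `t = 0` of the product over `O/b` is `Θ(z)` (`b ∣ out 0`, periodicity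
(TIN)). `C ∈ k`: the automorphisms `σ` of `TF L b / k` (finite Galois, NRM) act on `E[b]` by some `c` prime to `b` (GAL) and
`σ(∏_(r ∈ R) Θ(r)) = ∏ Θ(c r)` (THG) is the same product (multiplication by `c` permutes the nonzero classes). -/
def Sw_DISI : Prop :=
  ∀ (A B : ℤ) (L : PeriodPair) (Om : ℂ), Case A B → IsCM A B L Om → ∀ b : OO A B, b ≠ 0 →
    ∀ (a : ℤ) (H : Finset ℂ), a ≠ 0 → IsCoprime (a : OO A B) b → IsHalf L a H →
    ∃ C ∈ kk A B, C ≠ 0 ∧ ∀ z, emb b * a * z ∉ L.lattice →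
      ∏ᶠ t : OO A B ⧸ Ideal.span {b}, ThetaH L H (z + emb (Quotient.out t) * (Om / emb b)) =
        C * ThetaH L H (emb b * z)

/-- (I1) the norm relation.

Uses Sw_FIB, Sw_XXM, Sw_XXG, Sw_DISI, Sa_ACT, Sa_NRM, St_TIN. PROOF. `m' = 3 m`, `F' = TF L m'`. (i) `XX L m' h 1` (for `D`) is the disjoint union of the three sets
`XX L m' h' (σ^j)`, `j = 0, 1, 2` (for `D'`): an automorphism `s` of `F'/k` trivial on `D` restricts to an automorphism of `D'/k` (XXG)(1) trivial on `D`, which is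
a power of `σ` (Galois correspondence: the fixed field of the group generated by `σ` is `D`); the converse is clear; disjoint (XXG)(4). So the product
on the left is `∏_(x ∈ XX L m' h 1) Θ(x Om/m')`. (ii) By (FIB) `XX L m' h 1` is the inverse image of `XX L m h 1` in `O/m'` (`3 ∣ m`: a number
prime to `m` is prime to `m'`). The fibre over `y` consists of the classes of `y + m t`, `t ∈ O/3`, and `(y + m t) Om/m' = y Om/m' + t Om/3`. (iii) (DISI) with `b = 3`,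
`z = y Om/m'` (`3 a z = a y Om/m ∉ L`): the product over the fibre is `C₃ Θ(y Om/m)`. So `C = C₃^(|XX L m h 1|)`. -/
def Sw_I1 : Prop :=
  ∀ (A B : ℤ) (L : PeriodPair) (Om : ℂ), Case A B → IsCM A B L Om → ∀ m : OO A B, m ≠ 0 →
    mz A B ∣ m → 3 ∣ m → ∀ (a : ℤ) (H : Finset ℂ), a ≠ 0 → IsCoprime (a : OO A B) m → IsHalf L a H →
    ∀ (D D' : IntermediateField ℚ ℂ) (h : kk A B ≤ D) (h' : kk A B ≤ D'), D ≤ D' →
    Sub D (TF L m) → Sub D' (TF L (3 * m)) → letI := algC h; letI := algC h'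
    ∀ σ : D' ≃ₐ[kk A B] D', (∀ x : D', σ x = x ↔ (x : ℂ) ∈ D) → orderOf σ = 3 →
      ∃ C ∈ kk A B, C ≠ 0 ∧
        cc L Om (3 * m) H h' 1 * cc L Om (3 * m) H h' σ * cc L Om (3 * m) H h' (σ * σ) =
          C * cc L Om m H h 1

/-! ### Primes -/

/-- (LOC) congruences modulo a prime `w` and modulo a valuation ring `V` extending it.

PROOF. `x : F` with `x ∈ V`, i.e. `w.valuation F x ≤ 1`: there are `s, t : 𝓞 F`, `t ∉ w`, `x = s/t` (Mathlib:
`IsDedekindDomain.HeightOneSpectrum.valuation` and the localization at `w`; for instance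
`exists_integer_and_notMem...` or `IsLocalization.AtPrime`; or: the fractional ideal argument / approximation). Then
`σ x = σ s/σ t`, `σ t ≡ t^q` resp. `t` is not in `w`, so it is a unit of `V`, and `σ x - x^q = (σ s t^q - s^q σ t)/(σ t t^q)` is in the maximal
ideal. Same with `1` in place of `q`. -/
def Sw_LOC : Prop :=
  ∀ (A B : ℤ) (F : IntermediateField (kk A B) ℂ) [NumberField F] (w : HeightOneSpectrum (𝓞 F))
    (V : ValuationSubring ℂ), (∀ x : F, ((x : ℂ) ∈ V ↔ w.valuation F x ≤ 1) ∧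
      (V.valuation (x : ℂ) < 1 ↔ w.valuation F x < 1)) →
    ∀ (σ : F ≃ₐ[kk A B] F) (q : ℕ), 0 < q →
      (∀ x : 𝓞 F, ∃ y ∈ w.asIdeal, (y : F) = σ x - (x : F) ^ q) →
      ∀ x : F, (x : ℂ) ∈ V → V.valuation (((σ x : F) : ℂ) - (x : ℂ) ^ q) < 1

/-- (HTOT) total ramification of `F_(m lam) / F_m` at the primes above `lam`.

Uses Sv_EXT, Sv_TRA, Sw_INV, Sw_TORV, Sw_LOC, Sa_XI, Sa_ACT, Sa_GAL, Sa_NRM, Sa_INT, Sa_PID, Sv_DEG1. PROOF. `F = TF L (m lam)`, finite Galois over `k`, commutative group. `w` is not zero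
(`emb lam ∈ w`). `V` extends `w` (EXT). `v 2 = 1`, `v (nm m) = 1` (not in `w`). (a) `u = Om/emb lam`: `v(tz u)^(q-1) = v(emb lam)` (TRA), `tz u ∈ F`, so
`w.valuation F (tz u)^(q-1) = w.valuation F (emb lam)`: (the two valuations are equivalent on `F`; `v x = 1 ↔ w x = 1` for `x = (tz u)^(q-1)/emb lam`). Hence
`q - 1` divides the exponent of `w` in `emb lam 𝓞 F`, which is positive. (b) `w ∩ 𝓞 k` is the maximal ideal generated by `emb lam` (INT, PID: `lam` is prime; it contains `emb lam`), so that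
exponent is the ramification index `e` of `w` over `𝓞 k` (`Ideal.ramificationIdx_spec`, or
`IsDedekindDomain.ramificationIdx_eq_factors_count`; the exponent of `w` in `(w ∩ 𝓞 k) 𝓞 F`). (c) the inertia group `I` of `w` in `Gal(F/k)` has `e`
elements (`Ideal.card_inertia_eq_ramificationIdxIn`), so `q - 1 ≤ |I|`. Every `σ ∈ I` acts trivially on `E[m]` (LOC with `q = 1`, INV, TORV). (d) `A = {σ : Act L (em σ) m 1}` is a subgroup
with at most `q - 1` elements: `σ ∈ A` acts on `E[m lam]` by some `a`, and its class modulo `lam`, in `(O/lam)ˣ`, which has `q - 1` elements (DEG1), determines `σ`: if `a ≡ a'` modulo `lam`,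
then modulo `m lam` (`a ≡ 1 ≡ a'` modulo `m`, and `m`, `lam` are coprime because `q ∤ nm m`), (ACT)(2), (5). So `I = A` and every `σ ∈ A` is in the inertia group. -/
def Sw_HTOT : Prop :=
  ∀ (A B : ℤ) (L : PeriodPair) (Om : ℂ), Case A B → IsCM A B L Om → ∀ m : OO A B, m ≠ 0 →
    ∀ (lam : OO A B) (q : ℕ), q.Prime → nm lam = q →
    ∀ w : Ideal (𝓞 (TF L (m * lam))), w.IsPrime → Abv w lam →
      (2 : 𝓞 (TF L (m * lam))) ∉ w → ((nm m : ℤ) : 𝓞 (TF L (m * lam))) ∉ w →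
    ∀ σ : TF L (m * lam) ≃ₐ[kk A B] TF L (m * lam), Act L (em σ) m 1 →
      ∀ x : 𝓞 (TF L (m * lam)), ∃ y ∈ w, (y : TF L (m * lam)) = σ x - x

/-- (FROB) = `Sa_FROB` of `StA2.lean`.

Uses Sv_R5, Sv_EXT, Sw_LOC, Sw_TORV, Sa_GAL, Sa_ACT, Sa_XI, Sa_PID. PROOF. `n = 2310 = 2·3·5·7·11`. `w ≠ ⊥`. `V` extends `w` (EXT). `v q < 1` (`lam ∣ q`, `q = lam * conj lam`), so `v s = 1` for every integer `s` not
divisible by `q` (`x s + y q = 1`); in particular for `2, 3, 5, 7, 11, nm m`. (GAL): `Act (em σ) m a`. If `m` is a unit: (ACT)(2) (or vacuous). Otherwise `u = Om/emb m ∉ L`,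
`lam` is prime to `m` (`q ∤ nm m`), so `lam u ∉ L`, `a u ∉ L`; all these points are in `E[m]`, so not in `E₁` (TORV). `xx u ∈ F ∩ V`, so by (LOC)
`xx(a u) = σ(xx u) ≡ (xx u)^q ≡ xx(lam u)` (R5). By `v_xx_sub` one of `a u + lam u`, `a u - lam u` is in `E₁`, so in `L` (TORV): `m ∣ a ± lam` (`mul_div_mem_iff`). (ACT)(2). -/
def Sw_FROB : Prop := Sa_FROB

/-- (PRL) the primes of degree one of `k`.

Uses Sa_INT, Sa_PID. PROOF. The ring isomorphism `𝓞 k ≅ O` (INT) carries `P` to a nonzero prime ideal, generated by a prime `lam` (PID). `𝓞 k ⧸ P` has `q` elements, a prime number; so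
`q ∈ P`, `lam ∣ q`, `nm lam ∣ q²`, so `nm lam = q` or `lam = ± q` (PID); in the second case `𝓞 k ⧸ P` has `q²` elements. -/
def Sw_PRL : Prop :=
  ∀ A B : ℤ, Case A B → ∀ P : Ideal (𝓞 (kk A B)), P.IsPrime → ∀ q : ℕ, q.Prime →
    Nat.card (𝓞 (kk A B) ⧸ P) = q →
    ∃ lam : OO A B, nm lam = q ∧ ∀ (x : 𝓞 (kk A B)) (y : OO A B), ((x : kk A B) : ℂ) = emb y →
      (x ∈ P ↔ lam ∣ y)

/-- (FRD) a good prime of `D` gives an element of `XX .. 1`.

Uses Sw_PRL, Sw_XXM, Sw_XXG, Sa_FROB, Sa_NRM, Sa_INT, Sa_PID. PROOF. `v = lam₀`, `P = v ∩ 𝓞 k`; `𝓞 k ⧸ P` embeds in `𝓞 D ⧸ v`, a field with `q` elements (`q` prime), so it has `q` elements; (PRL) gives `lam`. Let `F = F_m`, `w` a prime of `𝓞 F`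
above `v` (`D ≤ F`; lying over), `σ ∈ Gal(F/k)` an arithmetic Frobenius at `w` (Mathlib `RingTheory/Frobenius.lean`,
`IsArithFrobAt.exists_of_isInvariant`, or (FEX) of `StA2.lean` and conjugation: all primes of `F` above `P` are conjugate and the group is commutative): `σ x - x^q ∈ w`. (FROB) (`q ∤ n`, `q ∤ nm m`): `σ` acts by `± lam`. `σ` extends some
`τ` of `D` (XXG)(1). `τ` maps `v` into itself: for `x ∈ v`, `τ x ≡ x^q ≡ 0` modulo `w`, `w ∩ 𝓞 D = v`. So `τ • v = v` (both maximal) and `τ = 1` (`GoodPr.free`). -/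
def Sw_FRD : Prop :=
  ∀ (A B : ℤ) (L : PeriodPair) (Om : ℂ), Case A B → IsCM A B L Om → ∃ n : ℕ, n ≠ 0 ∧
    ∀ m : OO A B, m ≠ 0 → ∀ (D : IntermediateField ℚ ℂ) [FiniteDimensional ℚ D]
      (h : kk A B ≤ D), Sub D (TF L m) → letI := algC h
    ∀ (S : Finset ℕ) (v : HeightOneSpectrum (𝓞 D)) (q : ℕ), Pool.Agent.MU3.GoodPr (kk A B) D S v q →
      ¬ q ∣ n → ¬ (q : ℤ) ∣ nm m →
      ∃ lam : OO A B, nm lam = q ∧ (cls m lam ∈ XX L m h 1 ∨ cls m (-lam) ∈ XX L m h 1) ∧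
        ∀ (x : 𝓞 (kk A B)) (y : OO A B), ((x : kk A B) : ℂ) = emb y →
          (x ∈ v.asIdeal.under (𝓞 (kk A B)) ↔ lam ∣ y)

end

end Pool.Agent.MU3V
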