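import Pool.Agent.MU3.StE
import Pool.Agent.MU3.StV2
import Pool.Agent.MU3.StI

/-!
# MU3, block E: the interface to block I (helper66)
-/

set_option autoImplicit false

open WeierstrassCurve Polynomial NumberField IsDedekindDomain

namespace Pool.Agent.MU3E

open _root_.MU3 Pool.Agent.MU3A Pool.Agent.MU3B Pool.Agent.MU3C Pool.Agent.MU3V Pool.Agent.RI

noncomputable section

lemma TT_eq {A B : ℤ} (L : PeriodPair) (Om : ℂ) (f n : ℕ) {D : IntermediateField ℚ ℂ}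
    (h : kk A B ≤ D) (τ : letI := algC h; D ≃ₐ[kk A B] D) :
    MU3I.TT L Om f n h τ = TT L Om (lev A B f n) (1 + 6 * f) h τ := by
  unfold MU3I.TT TT
  refine finsum_congr fun x => finsum_congr fun _ => ?_
  unfold MU3I.FF MU3I.dlT dl MU3I.wq wpi
  push_cast
  congr

theorem te_EFIN (h1 : Se_MAIN) (h2 : Sw_MEMC) (h3 : Sw_XXG) (h4 : Sa_ACT) : MU3I.St_EFIN := by
  classical
  intro A B h L Om hL V hV f hf h3f _ hmz n hn _ Hs hHs D _ hk hDF
  intro _ g y hy hy3 τ'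
  let _ := algC hk
  set m : OO A B := lev A B f n with hm
  have hm0 : m ≠ 0 := by
    intro h0
    have h5 : emb m = 0 := by rw [h0]; exact emb_zero h
    rw [hm, lev, emb_natCast h] at h5
    have h6 : (f * 3 ^ (n + 1) : ℕ) = 0 := by exact_mod_cast h5
    have h7 : (f * 3 ^ (n + 1) : ℕ) ≠ 0 := by positivity
    exact h7 h6
  have hmu : ¬ IsUnit m := by
    intro hu
    obtain ⟨y, hy⟩ := hu.exists_right_inv
    have e2 : (((f * 3 ^ (n + 1) : ℕ) : ℤ)) * y.re = 1 := by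
      rw [hm, lev] at hy
      generalize f * 3 ^ (n + 1) = k at hy ⊢
      have e1 := congrArg QuadraticAlgebra.re hy
      have e3 : QuadraticAlgebra.re (1 : OO A B) = 1 := rfl
      simpa [e3] using e1
    have e3 : (3 : ℤ) ∣ 1 := by
      rw [← e2]
      refine Dvd.dvd.mul_right ?_ _
      push_cast
      rw [pow_succ]
      exact Dvd.intro_left (f * 3 ^ n : ℤ) (by ring)
    norm_num at e3
  have hco : IsCoprime ((1 + 6 * (f : ℤ) : ℤ) : OO A B) m := by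
    have e1 : IsCoprime (1 + 6 * (f : ℤ)) ((f * 3 ^ (n + 1) : ℕ) : ℤ) := by
      push_cast
      refine IsCoprime.mul_right ⟨1, -6, by ring⟩ (IsCoprime.pow_right ⟨1, -2 * f, by ring⟩)
    have e2 := e1.map (Int.castRingHom (OO A B))
    simpa [hm, lev] using e2
  have hHz : IsHalf L ((1 + 6 * (f : ℤ) : ℤ) : ℂ) Hs := by
    push_cast
    exact hHs
  have hHn : IsHalf L ((1 + 6 * f : ℕ) : ℂ) Hs := by
    push_cast
    exact hHs
  obtain ⟨m1, m2⟩ := h2 A B L Om h hL m hm0 hmu (1 + 6 * (f : ℤ)) Hs (by omega) hco hHz D hk hDF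
  obtain ⟨x1, x2, x3, x4⟩ := h3 A B L Om h hL m hm0 D hk hDF
  obtain ⟨-, -, -, -, -, a6, -, -⟩ := h4 A B L Om h hL m hm0
  have hcom : ∀ τ τ' : D ≃ₐ[kk A B] D, τ * τ' = τ' * τ := by
    intro τ τ'
    obtain ⟨σ, b, -, hσ⟩ := x2 τ
    obtain ⟨σ', b', -, hσ'⟩ := x2 τ'
    refine AlgEquiv.ext fun z => Subtype.ext ?_
    have e1 : ((τ (τ' z) : D) : ℂ) = (σ (σ' ⟨z, hDF z z.2⟩) : ℂ) := by
      rw [← hσ (τ' z) (hDF _ (τ' z).2)]
      congr 2
      exact Subtype.ext (hσ' z (hDF z z.2)).symm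
    have e2 : ((τ' (τ z) : D) : ℂ) = (σ' (σ ⟨z, hDF z z.2⟩) : ℂ) := by
      rw [← hσ' (τ z) (hDF _ (τ z).2)]
      congr 2
      exact Subtype.ext (hσ z (hDF z z.2)).symm
    have e3 : σ (σ' ⟨z, hDF z z.2⟩) = σ' (σ ⟨z, hDF z z.2⟩) := DFunLike.congr_fun (a6 σ σ') _
    show ((τ (τ' z) : D) : ℂ) = ((τ' (τ z) : D) : ℂ)
    rw [e1, e2, e3]
  have key := h1 A B L Om h hL V hV f n Hs hn hf h3f hmz hHn D hk hDF
    (fun τ => ⟨⟨cc L Om m Hs hk 1, (m1 1).1⟩, rfl, m2 τ (m1 1).1⟩) g ⟨y, hy, hy3⟩ τ'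
  have e : (∑ᶠ τ : D ≃ₐ[kk A B] D, (g τ : ℂ) * MU3I.TT L Om f n hk (τ * τ')) =
      ∑ᶠ τ : D ≃ₐ[kk A B] D, (g τ : ℂ) * TT L Om (lev A B f n) (1 + 6 * f) hk (τ' * τ) :=
    finsum_congr fun τ => by rw [TT_eq, hcom τ τ']
  rw [MU3I.Hf, e]
  exact key

end

end Pool.Agent.MU3E
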