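import Pool.Agent.MU3.StE

/-!
# MU3, block E: the Galois action on `Θ_a(z)` (helper80)
-/

set_option autoImplicit false

open WeierstrassCurve Polynomial NumberField IsDedekindDomain

namespace Pool.Agent.MU3E

open _root_.MU3 Pool.Agent.MU3A Pool.Agent.MU3B Pool.Agent.MU3C Pool.Agent.MU3V Pool.Agent.RI

noncomputable section

/-- (GTH) the Galois action on `Θ_a(z)` -/
theorem te_GTH (hEQN : Sa_EQN) : Se_GTH := by
  intro A B L Om hC hL a H hH M hM haM σ c hσ hac z hz hzL
  obtain ⟨-, -, -, hper, -⟩ := hEQN A B L Om hC hL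
  obtain ⟨hcop, hact⟩ := hσ
  have hq : ∀ q ∈ H, emb M * q ∈ L.lattice ∧ q ∉ L.lattice := by
    intro q hqH
    constructor
    · obtain ⟨k, hk⟩ := haM
      have h1 := hL.toIsLat.emb_mul_mem hC k (hH.mem q hqH)
      have h2 : emb M * q = emb k * ((a : ℂ) * q) := by
        rw [hk, emb_mul hC, emb_natCast hC]
        ring
      rw [h2]
      exact h1
    · intro h0
      refine hH.ne q hqH ?_
      rw [two_mul]
      exact add_mem h0 h0
  have hmem : ∀ z, emb M * z ∈ L.lattice → z ∉ L.lattice → xx A B L z ∈ TF L M := by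
    intro z h1 h2
    exact IntermediateField.subset_adjoin _ _ ⟨z, h1, h2, Or.inl rfl⟩
  have hcq : ∀ q ∈ H, xx A B L (emb c * q) = xx A B L q := by
    intro q hqH
    obtain ⟨k, hk⟩ := hac
    have h1 := hL.toIsLat.emb_mul_mem hC k (hH.mem q hqH)
    have h2 : emb c * q = q + emb k * ((a : ℂ) * q) := by
      have h3 : c = 1 + (a : OO A B) * k := by rw [← hk]; ring
      rw [h3, emb_add hC, emb_one hC, emb_mul hC, emb_natCast hC]
      ring
    rw [h2]
    exact (hper q _ h1).1
  have hsub : ∀ z q, L.weierstrassP z - L.weierstrassP q = xx A B L z - xx A B L q := by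
    intro z q
    unfold xx
    ring
  have hTh : ∀ z, ThetaH L H z = ∏ q ∈ H, (xx A B L z - xx A B L q) := by
    intro z
    unfold ThetaH
    exact Finset.prod_congr rfl fun q _ => hsub z q
  let y : TF L M := ∏ q ∈ H.attach, ((⟨xx A B L z, hmem z hz hzL⟩ : TF L M) -
    ⟨xx A B L q.1, hmem q.1 (hq q.1 q.2).1 (hq q.1 q.2).2⟩)
  have hy : (y : ℂ) = ThetaH L H z := by
    have h1 : (y : ℂ) = ∏ q ∈ H.attach, (xx A B L z - xx A B L q.1) := by
      change (TF L M).val y = _
      rw [map_prod]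
      rfl
    rw [h1, hTh, Finset.prod_attach H (fun q => xx A B L z - xx A B L q)]
  have hmemT : ThetaH L H z ∈ TF L M := hy ▸ y.2
  refine ⟨hmemT, ?_⟩
  have hyeq : (⟨ThetaH L H z, hmemT⟩ : TF L M) = y := Subtype.ext hy.symm
  rw [hyeq]
  change em σ y = _
  have h2 : em σ y = ∏ q ∈ H.attach, (xx A B L (emb c * z) - xx A B L q.1) := by
    rw [map_prod]
    refine Finset.prod_congr rfl fun q _ => ?_
    rw [map_sub, (hact z hz hzL).2.1 (hmem z hz hzL),
      (hact q.1 (hq q.1 q.2).1 (hq q.1 q.2).2).2.1 (hmem q.1 (hq q.1 q.2).1 (hq q.1 q.2).2),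
      hcq q.1 q.2]
  rw [h2, hTh, Finset.prod_attach H (fun q => xx A B L (emb c * z) - xx A B L q)]

end

end Pool.Agent.MU3E
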