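import Pool.Agent.MU3.StE

/-!
# MU3, block E, module MAIN (helper66)
-/

set_option autoImplicit false

open WeierstrassCurve Polynomial NumberField IsDedekindDomain

namespace Pool.Agent.MU3E

open _root_.MU3 Pool.Agent.MU3A Pool.Agent.MU3B Pool.Agent.MU3C Pool.Agent.MU3V Pool.Agent.RI

noncomputable section

lemma zpc {D : IntermediateField ℚ ℂ} (x : D) (k : ℤ) : ((x ^ k : D) : ℂ) = (x : ℂ) ^ k :=
  map_zpow₀ (algebraMap D ℂ) x k

theorem te_MAIN (h1 : Se_ONE) (h2 : Sa_NRM) (h3 : Sa_XI) (h4 : Sa_PID) : Se_MAIN := by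
  classical
  intro A B L Om h hL V hV f n H hn hf h3f hmz hH D hD hDF
  intro hc g hcube τ'
  letI := algC hD
  have hdom : IsDomain (OO A B) := (h4 A B h).1
  set m : OO A B := lev A B f n with hm
  have hm0 : m ≠ 0 := by
    intro h0
    have h5 : emb m = 0 := by rw [h0]; exact emb_zero h
    rw [hm, lev, emb_natCast h] at h5
    have h6 : (f * 3 ^ (n + 1) : ℕ) = 0 := by exact_mod_cast h5
    have h7 : (f * 3 ^ (n + 1) : ℕ) ≠ 0 := by positivity
    exact h7 h6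
  have hfinQ : Finite (OO A B ⧸ Ideal.span {m}) :=
    Ideal.finiteQuotientOfFreeOfNeBot _ (by simpa [Ideal.span_singleton_eq_bot] using hm0)
  obtain ⟨hfd, -⟩ := h2 A B L Om h hL m hm0
  obtain ⟨ξ, hξ0, -, hξ⟩ := h3 A B L Om h hL
  have hξ' : IsXi A B L ξ := ⟨hξ, fun z hz => (hξ0 z).2 hz⟩
  -- D is finite over k
  let φ : D →ₗ[kk A B] TF L m :=
    { toFun := fun y => ⟨y, hDF y y.2⟩
      map_add' := fun x y => rfl
      map_smul' := fun c x => by
        apply Subtype.ext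
        show ((c • x : D) : ℂ) = ((c • (⟨x, hDF x x.2⟩ : TF L m) : TF L m) : ℂ)
        rw [Algebra.smul_def, Algebra.smul_def]
        rfl }
  have hφ : Function.Injective φ := by
    intro x y hxy
    apply Subtype.ext
    exact congrArg (fun z : TF L m => (z : ℂ)) hxy
  haveI : FiniteDimensional (kk A B) D := FiniteDimensional.of_injective φ hφ
  haveI : Finite (D ≃ₐ[kk A B] D) := inferInstance
  letI : Fintype (D ≃ₐ[kk A B] D) := Fintype.ofFinite _
  -- the sets of representatives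
  have hfinX : ∀ τ : D ≃ₐ[kk A B] D, (XX L m hD τ).Finite := fun τ => Set.toFinite _
  set X : (D ≃ₐ[kk A B] D) → Finset (OO A B) := fun τ =>
    (hfinX (τ' * τ)).toFinset.image Quotient.out with hX
  have hout : Function.Injective (fun q : OO A B ⧸ Ideal.span {m} => (Quotient.out q : OO A B)) := by
    intro q q' hq
    have h5 : Ideal.Quotient.mk (Ideal.span {m}) (Quotient.out q) =
        Ideal.Quotient.mk (Ideal.span {m}) (Quotient.out q') := congrArg _ hq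
    rwa [Ideal.Quotient.mk_out, Ideal.Quotient.mk_out] at h5
  have hprod : ∀ (τ : D ≃ₐ[kk A B] D), ∏ x ∈ X τ, ThetaH L H (emb x * (Om / emb m)) =
      cc L Om m H hD (τ' * τ) := by
    intro τ
    rw [hX, Finset.prod_image (fun x _ y _ hxy => hout hxy), cc,
      finprod_mem_eq_finite_toFinset_prod _ (hfinX (τ' * τ))]
  have hsum : ∀ (τ : D ≃ₐ[kk A B] D), ∑ x ∈ X τ, (wpi x : ℂ) * dl L (1 + 6 * f)
      (emb x * (Om / emb m)) = TT L Om m (1 + 6 * f) hD (τ' * τ) := by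
    intro τ
    rw [hX, Finset.sum_image (fun x _ y _ hxy => hout hxy), TT,
      finsum_mem_eq_finite_toFinset_sum _ (hfinX (τ' * τ))]
  have hcop : ∀ τ : D ≃ₐ[kk A B] D, ∀ x ∈ X τ, IsCoprime x m := by
    intro τ x hx
    rw [hX] at hx
    obtain ⟨q, hq, rfl⟩ := Finset.mem_image.1 hx
    obtain ⟨σ, hσ, -⟩ := (hfinX (τ' * τ)).mem_toFinset.1 hq
    exact hσ.1
  have key := h1 A B L Om ξ h hL hξ' V hV f n H hn hf h3f hmz hH (D ≃ₐ[kk A B] D) X g hcop
  rw [finsum_eq_sum_of_fintype]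
  have e1 : (∑ τ : D ≃ₐ[kk A B] D, (g τ : ℂ) * TT L Om m (1 + 6 * f) hD (τ' * τ)) =
      ∑ i : D ≃ₐ[kk A B] D, (g i : ℂ) * ∑ x ∈ X i, (wpi x : ℂ) *
        dl L (1 + 6 * f) (emb x * (Om / emb m)) :=
    Finset.sum_congr rfl (fun τ _ => by rw [hsum])
  rw [e1, ← ValuationSubring.valuation_le_one_iff]
  apply key
  obtain ⟨w, hw, hw3⟩ := hcube
  rw [finprod_eq_prod_of_fintype] at hw3
  obtain ⟨c, hc1, -⟩ := hc 1
  have hcτ : ∀ τ : D ≃ₐ[kk A B] D, ((τ c : D) : ℂ) = cc L Om m H hD τ := by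
    intro τ
    obtain ⟨c', hc', hc''⟩ := hc τ
    have : c' = c := Subtype.ext (hc'.trans hc1.symm)
    rw [← hc'', this]
  have hw4 : (⟨w, hw⟩ : D) ^ 3 = ∏ τ : D ≃ₐ[kk A B] D, (τ c) ^ g τ := by
    apply Subtype.ext
    rw [IntermediateField.coe_prod]
    rw [show (((⟨w, hw⟩ : D) ^ 3 : D) : ℂ) = w ^ 3 from rfl, hw3]
    refine Finset.prod_congr rfl (fun τ _ => ?_)
    rw [← hcτ τ, ← zpc (D := D)]
  refine ⟨(τ' ⟨w, hw⟩ : D), hDF _ (τ' ⟨w, hw⟩).2, ?_⟩
  have hw5 := congrArg τ' hw4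
  rw [map_pow, map_prod] at hw5
  have hw6 := congrArg (fun y : D => (y : ℂ)) hw5
  push_cast at hw6
  rw [hw6]
  refine Finset.prod_congr rfl (fun τ _ => ?_)
  rw [hprod, map_zpow₀, ← hcτ (τ' * τ), zpc]
  rfl

end

end Pool.Agent.MU3E
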