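import Pool.Agent.MU3.StE

/-!
# MU3, block E: module NE1 (helper26)
-/

set_option autoImplicit false

namespace Pool.Agent.MU3E

open _root_.MU3 Pool.Agent.MU3A Pool.Agent.MU3B Pool.Agent.MU3C Pool.Agent.MU3V Pool.Agent.RI

noncomputable section

namespace NE1

variable {A B : ℤ}

theorem not_unit {f : ℕ} (hf : 2 ≤ f) : ¬ IsUnit ((f : ℕ) : OO A B) := by
  intro h
  obtain ⟨y, hy⟩ := h.exists_right_inv
  have h1 := congrArg QuadraticAlgebra.re hy
  simp only [QuadraticAlgebra.re_mul, QuadraticAlgebra.re_natCast, QuadraticAlgebra.im_natCast,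
    QuadraticAlgebra.re_one, zero_mul, mul_zero, add_zero] at h1
  have h2 : (f : ℤ) ∣ 1 := ⟨y.re, h1.symm⟩
  have h3 : f ∣ 1 := by exact_mod_cast h2
  have := Nat.le_of_dvd one_pos h3
  omega

theorem not_dvd {f : ℕ} (hf : 2 ≤ f) {n : ℕ} {x : OO A B} (hx : IsCoprime x (lev A B f n)) :
    ¬ ((f : ℕ) : OO A B) ∣ ((1 + 6 * f : ℕ) : OO A B) * x := by
  intro h
  have h1 : IsCoprime ((f : ℕ) : OO A B) x := by
    unfold lev at hx
    rw [Nat.cast_mul] at hx
    exact (hx.of_mul_right_left).symm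
  have h2 : IsCoprime ((f : ℕ) : OO A B) ((1 + 6 * f : ℕ) : OO A B) := by
    refine ⟨-6, 1, ?_⟩
    push_cast
    ring
  exact not_unit hf ((h2.mul_right h1).isUnit_of_dvd' dvd_rfl h)

end NE1

open NE1 in
theorem te_NE1 (h1 : Se_PPI) : Se_NE1 := by
  intro A B L Om ξ hc hL hξ V hV f n hf h3 x hx z hz
  obtain ⟨-, -, -, -, -, -, hP⟩ := h1 A B hc
  obtain ⟨-, -, -, hv2, -, hvn, -, -⟩ := hP V hV
  have hf0 : (f : ℂ) ≠ 0 := by
    have : f ≠ 0 := by omega
    exact_mod_cast this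
  have h30 : (3 : ℂ) ^ (n + 1) ≠ 0 := pow_ne_zero _ (by norm_num)
  have hem : emb (lev A B f n) = (f : ℂ) * 3 ^ (n + 1) := by
    unfold lev
    rw [emb_natCast hc]
    push_cast
    ring
  have hm0 : lev A B f n ≠ 0 := by
    intro h0
    rw [h0, emb_zero hc] at hem
    exact mul_ne_zero hf0 h30 hem.symm
  -- divisibility from membership
  have hdvd : ∀ c : ℕ, (c : ℂ) * z ∈ L.lattice → ∃ y : OO A B, (c : ℂ) * emb x = (f : ℂ) * 3 ^ (n + 1) * emb y := by
    intro c hcz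
    have e : (c : ℂ) * z = emb (((c : ℕ) : OO A B) * x) * (Om / emb (lev A B f n)) := by
      rw [emb_mul hc, emb_natCast hc, hz]
      ring
    rw [e, hL.toIsLat.mul_div_mem_iff hc hm0] at hcz
    obtain ⟨y, hy⟩ := hcz
    refine ⟨y, ?_⟩
    have := congrArg emb hy
    rwa [emb_mul hc, emb_mul hc, emb_natCast hc, hem] at this
  have hno : ∀ k : ℕ, k ≤ n + 1 → (((1 + 6 * f) * 3 ^ k : ℕ) : ℂ) * z ∉ L.lattice := by
    intro k hk hmem
    obtain ⟨y, hy⟩ := hdvd _ hmem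
    refine not_dvd hf hx ⟨((3 ^ (n + 1 - k) : ℕ) : OO A B) * y, emb_inj hc ?_⟩
    rw [emb_mul hc, emb_mul hc, emb_mul hc, emb_natCast hc, emb_natCast hc, emb_natCast hc]
    have h3k : (3 : ℂ) ^ k ≠ 0 := pow_ne_zero _ (by norm_num)
    have e3 : (3 : ℂ) ^ (n + 1) = 3 ^ k * 3 ^ (n + 1 - k) := by
      rw [← pow_add]; congr 1; omega
    rw [e3] at hy
    push_cast at hy ⊢
    apply mul_left_cancel₀ h3k
    linear_combination hy
  have hfz : ((f * 3 ^ (n + 1) : ℕ) : ℂ) * z ∈ L.lattice := by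
    rw [hL.mem]
    refine ⟨x, ?_⟩
    rw [hz, hem]
    push_cast
    field_simp
  have hva : V.valuation ((1 + 6 * f : ℕ) : ℂ) = 1 := hvn _ (by omega)
  have hvN : V.valuation ((f * (1 + 6 * f) : ℕ) : ℂ) = 1 := by
    refine hvn _ ?_
    rw [Nat.Prime.dvd_mul Nat.prime_three]
    rintro (h | h)
    · exact h3 h
    · omega
  have nat_mem : ∀ (c : ℕ) {w : ℂ}, w ∈ L.lattice → (c : ℂ) * w ∈ L.lattice := by
    intro c w hw
    have := hL.toIsLat.emb_mul_mem hc ((c : ℕ) : OO A B) hw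
    rwa [emb_natCast hc] at this
  have key : ∀ q : ℂ, ((1 + 6 * f : ℕ) : ℂ) * q ∈ L.lattice → ¬ InE1 A B V L (z + q) := by
    intro q hq hE
    have hE' := inE1_nat hc hv2 hξ hE (3 ^ (n + 1))
    have hmem : ((f * (1 + 6 * f) : ℕ) : ℂ) * (((3 ^ (n + 1) : ℕ) : ℂ) * (z + q)) ∈ L.lattice := by
      have := add_mem (nat_mem (1 + 6 * f) hfz) (nat_mem (f * 3 ^ (n + 1)) hq)
      convert this using 1
      push_cast
      ring
    have hz' := mem_of_nat_mul hc hv2 hξ hE' hvN hmem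
    have h4 := sub_mem (nat_mem (1 + 6 * f) hz') (nat_mem (3 ^ (n + 1)) hq)
    refine hno (n + 1) le_rfl ?_
    convert h4 using 1
    push_cast
    ring
  refine ⟨?_, ?_, ?_⟩
  · have := key 0 (by simp)
    rwa [add_zero] at this
  · have := hno 0 (by omega)
    rwa [pow_zero, mul_one] at this
  · intro q hq hqL
    refine ⟨?_, key q hq, ?_⟩
    · intro hE
      exact hqL (mem_of_nat_mul hc hv2 hξ hE hva hq)
    · rw [sub_eq_add_neg]
      refine key (-q) ?_
      rw [mul_neg]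
      exact neg_mem hq

end

end Pool.Agent.MU3E
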