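import Pool.Agent.MU3.StE

/-!
# MU3, block E: module ONE (helper51)
-/

set_option autoImplicit false

open WeierstrassCurve Polynomial NumberField IsDedekindDomain

namespace Pool.Agent.MU3E

open _root_.MU3 Pool.Agent.MU3A Pool.Agent.MU3B Pool.Agent.MU3C Pool.Agent.MU3V Pool.Agent.RI

noncomputable section

namespace ONE

lemma mz_not_dvd_one {A B : ℤ} (h : Case A B) : ¬ mz A B ∣ (1 : OO A B) := by
  rintro ⟨y, hy⟩
  have h1 := congrArg QuadraticAlgebra.re hy
  rcases h with ⟨rfl, rfl⟩ | ⟨rfl, rfl⟩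
  · have h2 : mz (-2) 0 = (⟨0, 4⟩ : OO (-2) 0) := by simp [mz]
    rw [h2, QuadraticAlgebra.re_mul, QuadraticAlgebra.re_one] at h1
    simp only [zero_mul, zero_add] at h1
    omega
  · have h2 : mz (-3) 1 = ((4 : ℕ) : OO (-3) 1) := by simp [mz]
    rw [h2, QuadraticAlgebra.re_mul, QuadraticAlgebra.re_one] at h1
    have h3 : (((4 : ℕ) : OO (-3) 1)).re = 4 := rfl
    have h4 : (((4 : ℕ) : OO (-3) 1)).im = 0 := rfl
    rw [h3, h4] at h1
    simp only [mul_zero, zero_mul, add_zero] at h1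
    omega

lemma two_le {A B : ℤ} (h : Case A B) {f : ℕ} (hf : f ≠ 0) (hm : mz A B ∣ (f : OO A B)) :
    2 ≤ f := by
  by_contra hc
  have : f = 1 := by omega
  subst this
  exact mz_not_dvd_one h (by simpa using hm)

/-- the field `TF L m` is contained in `TF L (m a)` -/
lemma TF_mono {A B : ℤ} (h : Case A B) {L : PeriodPair} {Om : ℂ} (hL : IsLat A B L Om)
    {m M : OO A B} (hmM : m ∣ M) : TF L m ≤ TF L M := by
  obtain ⟨b, rfl⟩ := hmM
  refine IntermediateField.adjoin.mono _ _ _ ?_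
  rintro c ⟨z, hz, hzL, hc⟩
  refine ⟨z, ?_, hzL, hc⟩
  rw [mul_comm m b, emb_mul h, mul_assoc]
  exact hL.emb_mul_mem h b hz

section val
variable {V : ValuationSubring ℂ}

/-- the final estimate -/
lemma last {c d w w' t S : ℂ} (hc : V.valuation c = 1) (_hS : V.valuation S ≤ 1)
    (ht : V.valuation t < 1) (ht0 : V.valuation t ≠ 0) (ht3 : V.valuation t ^ 2 = V.valuation 3)
    (hd : V.valuation (d - c * (1 + t * S)) ≤ V.valuation t ^ 2) (hw : w ^ 3 = c)
    (hw' : w' ^ 3 = d) (hww : V.valuation (w' - w) ≤ V.valuation t) :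
    V.valuation (S ^ 2 / 3) ≤ 1 := by
  have vw : V.valuation w = 1 := by
    have h1 : V.valuation w ^ 3 = 1 := by rw [← map_pow, hw, hc]
    exact (pow_eq_one_iff.1 h1).resolve_right (by norm_num)
  have vw' : V.valuation w' ≤ 1 := by
    have h1 : w' = (w' - w) + w := by ring
    rw [h1]
    exact (V.valuation.map_add _ _).trans (max_le (hww.trans ht.le) vw.le)
  have h1 : d - c = (w' - w) ^ 3 + 3 * (w * w' * (w' - w)) := by
    rw [← hw, ← hw']; ring
  have h2 : V.valuation (d - c) ≤ V.valuation t ^ 2 := by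
    rw [h1]
    refine (V.valuation.map_add _ _).trans (max_le ?_ ?_)
    · rw [map_pow]
      calc V.valuation (w' - w) ^ 3 ≤ V.valuation t ^ 3 := pow_le_pow_left' hww 3
        _ = V.valuation t ^ 2 * V.valuation t := pow_succ _ 2
        _ ≤ V.valuation t ^ 2 * 1 := mul_le_mul_right ht.le _
        _ = V.valuation t ^ 2 := mul_one _
    · rw [map_mul, ← ht3, map_mul, map_mul, vw, one_mul]
      calc V.valuation t ^ 2 * (V.valuation w' * V.valuation (w' - w))
          ≤ V.valuation t ^ 2 * (1 * 1) :=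
            mul_le_mul_right (mul_le_mul' vw' (hww.trans ht.le)) _
        _ = V.valuation t ^ 2 := by rw [one_mul, mul_one]
  have h3 : V.valuation (c * (t * S)) ≤ V.valuation t ^ 2 := by
    have h4 : c * (t * S) = (d - c) - (d - c * (1 + t * S)) := by ring
    rw [h4]
    exact (V.valuation.map_sub _ _).trans (max_le h2 hd)
  rw [map_mul, hc, one_mul, map_mul, pow_two] at h3
  have h5 : V.valuation S ≤ V.valuation t := by
    have hpos : 0 < V.valuation t := lt_of_le_of_ne zero_le (Ne.symm ht0)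
    exact (mul_le_mul_iff_right₀ hpos).1 h3
  rw [map_div₀, map_pow, ← ht3]
  have h6 : V.valuation S ^ 2 ≤ V.valuation t ^ 2 := pow_le_pow_left' h5 2
  exact div_le_one_of_le₀ h6 zero_le

end val

lemma theta_per {A B : ℤ} (h8 : Sa_EQN) (hC : Case A B) {L : PeriodPair} {Om : ℂ}
    (hL : IsCM A B L Om) (H : Finset ℂ) (z v : ℂ) (hv : v ∈ L.lattice) :
    ThetaH L H (z + v) = ThetaH L H z := by
  obtain ⟨-, -, -, hper, -⟩ := h8 A B L Om hC hL
  have h1 := (hper z v hv).1
  have h2 : L.weierstrassP (z + v) = L.weierstrassP z := by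
    unfold xx at h1
    exact sub_left_injective h1
  simp only [ThetaH, h2]

lemma tz_neg {A B : ℤ} (h8 : Sa_EQN) (hC : Case A B) {L : PeriodPair} {Om : ℂ}
    (hL : IsCM A B L Om) (z : ℂ) : tz A B L (-z) = -tz A B L z := by
  obtain ⟨-, -, hodd, -⟩ := h8 A B L Om hC hL
  unfold tz
  rw [(hodd z).1, (hodd z).2, div_neg]

end ONE

open ONE in
theorem te_ONE (h1 : Se_PPI) (h2 : Se_SIG) (h3 : Se_NE1) (h4 : Se_THE) (h5 : Se_GTH)
    (h6 : Se_PRD) (h7 : Se_TP) (h8 : Sa_EQN) : Se_ONE := by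
  intro A B L Om ξ hC hL hξ V hV f n H hn hf h3f hmz hH ι _ X g hX ⟨w0, hw0, hw3⟩
  obtain ⟨hpp, hprime, hnpc, hclass, -, hint, hval⟩ := h1 A B hC
  obtain ⟨-, -, hv3, hv2, -, -, -, -⟩ := hval V hV
  have hLat := hL.toIsLat
  have hf2 : 2 ≤ f := two_le hC hf hmz
  -- the level
  set m : OO A B := lev A B f n with hm
  set a : OO A B := ((1 + 6 * f : ℕ) : OO A B) with ha
  set M' : OO A B := ppc A B ^ (n + 1) * (f : OO A B) * a with hM'
  set M : OO A B := ppi A B ^ (n + 1) * M' with hM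
  have hmv : m = 3 ^ (n + 1) * (f : OO A B) := by
    rw [hm, lev]; push_cast; ring
  have hMm : M = m * a := by
    have e : M = (ppi A B * ppc A B) ^ (n + 1) * (f : OO A B) * a := by
      rw [hM, hM', mul_pow]; ring
    rw [e, hpp, hmv]
  have hkey : ppi A B * (ppi A B ^ n * M') = m * a := by
    rw [← hMm, hM, pow_succ]; ring
  have hcast : ∀ k : ℕ, ((k : ℤ) : OO A B) = (k : OO A B) := fun k => by push_cast; rfl
  have hpf : ¬ ppi A B ∣ (f : OO A B) := fun hd => by
    have := hint f (by rw [hcast]; exact hd)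
    omega
  have hpa : ¬ ppi A B ∣ a := fun hd => by
    have := hint (1 + 6 * f : ℕ) (by rw [hcast]; exact hd)
    omega
  have hpM' : ¬ ppi A B ∣ M' := fun hd => by
    rcases hprime.dvd_or_dvd hd with hd | hd
    · rcases hprime.dvd_or_dvd hd with hd | hd
      · exact hnpc (hprime.dvd_of_dvd_pow hd)
      · exact hpf hd
    · exact hpa hd
  have hM'0 : M' ≠ 0 := fun h0 => hpM' (h0 ▸ dvd_zero _)
  have hp0 : ppi A B ≠ 0 := hprime.ne_zero
  have hM0 : M ≠ 0 := fun h0 => by
    have e : embHom hC M = 0 := by rw [h0, map_zero]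
    rw [hM, map_mul, map_pow, embHom_apply, embHom_apply] at e
    rcases mul_eq_zero.1 e with e | e
    · exact emb_ne_zero hC hp0 ((pow_eq_zero_iff (Nat.succ_ne_zero n)).1 e)
    · exact emb_ne_zero hC hM'0 e
  have hmzM' : mz A B ∣ M' := (hmz.mul_left _).mul_right _
  have haM' : a ∣ M' := dvd_mul_left _ _
  have haM : a ∣ M := haM'.mul_left _
  have hmM : m ∣ M := ⟨a, hMm⟩
  have hm0 : m ≠ 0 := fun h0 => hM0 (by rw [hMm, h0, zero_mul])
  have hpm : ppi A B ∣ m := by
    rw [hmv, ← hpp, mul_pow, pow_succ]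
    exact ⟨ppi A B ^ n * ppc A B ^ (n + 1) * (f : OO A B), by ring⟩
  have em0 := emb_ne_zero hC hm0
  have ep0 := emb_ne_zero hC hp0
  -- the automorphism
  have hs := h2 A B L Om ξ hC hL hξ V hV n M' hn hM'0 hpM' hmzM'
  rw [← hM] at hs
  obtain ⟨σ, hσ, hσv⟩ := hs
  set c : OO A B := 1 + ppi A B ^ n * M' with hc
  have hac : a ∣ c - 1 := by
    rw [hc, add_sub_cancel_left]; exact haM'.mul_left _
  -- the point `R`
  set R : ℂ := Om / emb (ppi A B) with hR
  have hR1 := h7 A B L Om ξ hC hL hξ V hV 0 R (by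
    rw [zero_add, pow_one, hR, mul_div_cancel₀ _ ep0]
    exact (hLat.mem _).2 ⟨1, by rw [emb_one hC, mul_one]⟩) (by
    rw [pow_zero, emb_one hC, one_mul, hR]
    intro hd
    have h9 := (hLat.mul_div_mem_iff hC hp0 1).1 (by rwa [emb_one hC, one_mul])
    exact hprime.not_isUnit (isUnit_of_dvd_one h9))
  obtain ⟨hRE, hRL, hRt⟩ := hR1
  rw [pow_zero, mul_one, ← hv3] at hRt
  obtain ⟨ht1, ht0, -⟩ := v_tz_lt hC hv2 hξ hRE hRL
  set t : ℂ := tz A B L R with ht
  -- one value
  have step : ∀ x : OO A B, ∃ th : TF L M, IsCoprime x m →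
      (th : ℂ) = ThetaH L H (emb x * (Om / emb m)) ∧
      V.valuation (ThetaH L H (emb x * (Om / emb m))) = 1 ∧
      V.valuation ((wpi x : ℂ) * dl L (1 + 6 * f) (emb x * (Om / emb m))) ≤ 1 ∧
      V.valuation (em σ th - ThetaH L H (emb x * (Om / emb m)) *
        (1 + t * ((wpi x : ℂ) * dl L (1 + 6 * f) (emb x * (Om / emb m))))) ≤
          V.valuation t ^ 2 := by
    intro x
    by_cases hx : IsCoprime x m
    swap
    · exact ⟨1, fun h => absurd h hx⟩
    set z : ℂ := emb x * (Om / emb m) with hz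
    obtain ⟨hzE, hzL, hzq⟩ := h3 A B L Om ξ hC hL hξ V hV f n hf2 h3f x hx z hz
    have hzL' := (int_x hzE).1
    obtain ⟨k1, k2, k3⟩ := h4 A B L Om ξ hC hL hξ V hv2 (1 + 6 * f) H (by omega) hH z hzE hzL
      (fun q hq => hzq q (hH.mem q hq) (fun hqL => hH.ne q hq (by
        rw [two_mul]; exact add_mem hqL hqL)))
    obtain ⟨hmem, hθσ⟩ := h5 A B L Om hC hL (1 + 6 * f) H hH M hM0 haM σ c hσ hac z (by
      rw [hz, hMm, emb_mul hC]
      refine (hLat.mem _).2 ⟨a * x, ?_⟩
      rw [emb_mul hC]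
      field_simp) hzL'
    refine ⟨⟨ThetaH L H z, hmem⟩, fun _ => ⟨rfl, k1, ?_, ?_⟩⟩
    · rw [map_mul]
      have hw1 : V.valuation ((wpi x : ℤ) : ℂ) ≤ 1 :=
        (ValuationSubring.valuation_le_one_iff _ _).2 (intCast_mem V _)
      exact mul_le_one' hw1 k2
    · have hpx : ¬ ppi A B ∣ x := fun hd =>
        hprime.not_isUnit (hx.isUnit_of_dvd' hd hpm)
      have hax : ppi A B ∣ a * x - (x : OO A B) := by
        have e : a * x - x = ppi A B * (ppc A B * (2 * (f : OO A B)) * x) := by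
          have e2 : ppi A B * (ppc A B * (2 * (f : OO A B)) * x) =
            (ppi A B * ppc A B) * (2 * (f : OO A B)) * x := by ring
          rw [e2, hpp, ha]; push_cast; ring
        exact ⟨_, e⟩
      have hcz : ∀ w : ℤ, ppi A B ∣ x - (w : OO A B) →
          ∃ v ∈ L.lattice, emb c * z = z + w * R + v := by
        intro w hw
        obtain ⟨y, hy⟩ : ppi A B ∣ a * x - (w : OO A B) := by
          have : a * x - (w : OO A B) = (a * x - x) + (x - (w : OO A B)) := by ring
          rw [this]; exact dvd_add hax hw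
        refine ⟨Om * emb y, (hLat.mem _).2 ⟨y, rfl⟩, ?_⟩
        have e1 : emb (ppi A B) * emb (ppi A B ^ n * M') = emb m * emb a := by
          rw [← emb_mul hC, ← emb_mul hC, hkey]
        have e2 : emb a * emb x = w + emb (ppi A B) * emb y := by
          have := congrArg emb hy
          rw [emb_sub hC, emb_mul hC, emb_mul hC, emb_intCast hC] at this
          linear_combination this
        have e3 : emb c = 1 + emb (ppi A B ^ n * M') := by
          rw [hc, emb_add hC, emb_one hC]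
        rw [e3, hz, hR]
        field_simp
        linear_combination (emb x * Om) * e1 + (emb m * Om) * e2
      have hem : em σ ⟨ThetaH L H z, hmem⟩ = ThetaH L H (emb c * z) := hθσ
      rw [hem]
      rcases hclass x hpx with hcl | hcl
      · have hwx : wpi x = 1 := by simp [wpi, hcl]
        obtain ⟨v, hv, e⟩ := hcz 1 (by simpa using hcl)
        rw [e, theta_per h8 hC hL H _ v hv, hwx]
        have := k3 R hRE hRL
        simpa using this
      · by_cases hcl' : ppi A B ∣ x - 1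
        · have hwx : wpi x = 1 := by simp [wpi, hcl']
          obtain ⟨v, hv, e⟩ := hcz 1 (by simpa using hcl')
          rw [e, theta_per h8 hC hL H _ v hv, hwx]
          have := k3 R hRE hRL
          simpa using this
        · have hwx : wpi x = -1 := by simp [wpi, hcl, hcl']
          obtain ⟨v, hv, e⟩ := hcz (-1) (by simpa using hcl)
          rw [e, theta_per h8 hC hL H _ v hv, hwx]
          have := k3 (-R) (inE1_neg hξ hRE) (fun h => hRL (by simpa using neg_mem h))
          rw [tz_neg h8 hC hL, ← ht, V.valuation.map_neg] at this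
          have e5 : ((-1 : ℤ) : ℂ) * R = -R := by push_cast; ring
          have e6 : t * (((-1 : ℤ) : ℂ) * dl L (1 + 6 * f) z) = -t * dl L (1 + 6 * f) z := by
            push_cast; ring
          rw [e5, e6]
          exact this
  choose θ hθ using step
  -- products over `X i`
  have hone : ∀ i, V.valuation (∏ x ∈ X i, ThetaH L H (emb x * (Om / emb m))) = 1 ∧
      V.valuation (∑ x ∈ X i, (wpi x : ℂ) * dl L (1 + 6 * f) (emb x * (Om / emb m))) ≤ 1 ∧
      V.valuation (∏ x ∈ X i, em σ (θ x) - (∏ x ∈ X i, ThetaH L H (emb x * (Om / emb m))) *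
        (1 + t * ∑ x ∈ X i, (wpi x : ℂ) * dl L (1 + 6 * f) (emb x * (Om / emb m)))) ≤
          V.valuation t ^ 2 := by
    intro i
    have hP := h6 ℂ _ (X i) V.valuation (fun x => ThetaH L H (emb x.1 * (Om / emb m)))
      (fun x => em σ (θ x.1))
      (fun x => (wpi x.1 : ℂ) * dl L (1 + 6 * f) (emb x.1 * (Om / emb m))) (fun _ => 1) t ht1
      (fun x => (hθ x.1 (hX i x.1 x.2)).2.1) (fun x => (hθ x.1 (hX i x.1 x.2)).2.2.1)
      (fun x => (hθ x.1 (hX i x.1 x.2)).2.2.2)
    simp only [zpow_one, Int.cast_one, one_mul] at hP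
    rw [Finset.prod_coe_sort (X i) (fun x => ThetaH L H (emb x * (Om / emb m))),
      Finset.prod_coe_sort (X i) (fun x => em σ (θ x)),
      Finset.sum_coe_sort (X i) (fun x => (wpi x : ℂ) *
        dl L (1 + 6 * f) (emb x * (Om / emb m)))] at hP
    exact hP
  obtain ⟨q1, q2, q3⟩ := h6 ℂ _ ι V.valuation
    (fun i => ∏ x ∈ X i, ThetaH L H (emb x * (Om / emb m)))
    (fun i => ∏ x ∈ X i, em σ (θ x))
    (fun i => ∑ x ∈ X i, (wpi x : ℂ) * dl L (1 + 6 * f) (emb x * (Om / emb m))) g t ht1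
    (fun i => (hone i).1) (fun i => (hone i).2.1) (fun i => (hone i).2.2)
  -- the cube root
  have hwM : w0 ∈ TF L M := TF_mono hC hLat hmM hw0
  have hFe : (⟨w0, hwM⟩ : TF L M) ^ 3 = ∏ i, (∏ x ∈ X i, θ x) ^ g i := by
    apply (TF L M).val.injective
    rw [map_pow, map_prod]
    simp only [map_zpow₀, map_prod]
    show w0 ^ 3 = _
    rw [hw3]
    refine Finset.prod_congr rfl fun i _ => ?_
    congr 1
    exact Finset.prod_congr rfl fun x hx => ((hθ x (hX i x hx)).1).symm
  have hFs : (em σ ⟨w0, hwM⟩) ^ 3 = ∏ i, (∏ x ∈ X i, em σ (θ x)) ^ g i := by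
    rw [← map_pow, hFe, map_prod]
    simp only [map_zpow₀, map_prod]
  have vw0 : V.valuation w0 ≤ 1 := by
    have e1 : V.valuation w0 ^ 3 = 1 := by rw [← map_pow, hw3]; exact q1
    exact ((pow_eq_one_iff.1 e1).resolve_right (by norm_num)).le
  exact last q1 q2 ht1 ht0 hRt q3 hw3 hFs (hσv ⟨w0, hwM⟩ vw0)

end

end Pool.Agent.MU3E
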