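import Pool.Agent.MU3.StE

/-!
# MU3, block E: the prime `ppi` and the valuation on `k`
-/

set_option autoImplicit false

open WeierstrassCurve Polynomial NumberField IsDedekindDomain

namespace Pool.Agent.MU3E

open _root_.MU3 Pool.Agent.MU3A Pool.Agent.MU3B Pool.Agent.MU3C Pool.Agent.MU3V Pool.Agent.RI

namespace PPI

variable {A B : ℤ}

lemma mul_eq (hc : Case A B) : ppi A B * ppc A B = 3 := by
  apply emb_inj hc
  rw [emb_mul hc]
  have h3 : emb (3 : OO A B) = 3 := by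
    have := emb_natCast hc 3
    simpa using this
  rw [h3]
  have hw := wC_sq hc
  simp only [emb, ppi, ppc]
  push_cast
  rcases hc with ⟨rfl, rfl⟩ | ⟨rfl, rfl⟩
  · push_cast at hw ⊢
    linear_combination -hw
  · push_cast at hw ⊢
    linear_combination -hw

lemma nm_ppc (hc : Case A B) : nm (ppc A B) = 3 := by
  rcases hc with ⟨rfl, rfl⟩ | ⟨rfl, rfl⟩ <;> norm_num [nm, ppc]

lemma nm_int (n : ℤ) : nm (n : OO A B) = n ^ 2 := by
  simp [nm, QuadraticAlgebra.re_intCast, QuadraticAlgebra.im_intCast]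

lemma dvd3 (hc : Case A B) : ppi A B ∣ 3 := ⟨_, (mul_eq hc).symm⟩

lemma sub_eq (x : OO A B) : x - ((x.re - x.im * (1 - B) : ℤ) : OO A B) =
    ppi A B * ((x.im : ℤ) : OO A B) := by
  apply QuadraticAlgebra.ext
  · simp [ppi, QuadraticAlgebra.re_mul, QuadraticAlgebra.re_sub, QuadraticAlgebra.re_intCast,
      QuadraticAlgebra.im_intCast, QuadraticAlgebra.re_one]
    ring
  · simp [ppi, QuadraticAlgebra.im_mul, QuadraticAlgebra.im_sub, QuadraticAlgebra.re_intCast,
      QuadraticAlgebra.im_intCast, QuadraticAlgebra.im_one]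

lemma cls (hc : Case A B) (x : OO A B) (hx : ¬ ppi A B ∣ x) :
    ppi A B ∣ x - 1 ∨ ppi A B ∣ x + 1 := by
  have h1 : ppi A B ∣ x - ((x.re - x.im * (1 - B) : ℤ) : OO A B) := ⟨_, sub_eq x⟩
  generalize (x.re - x.im * (1 - B) : ℤ) = n at h1
  have h3 := dvd3 hc
  obtain ⟨k, hk | hk | hk⟩ : ∃ k : ℤ, n = 3 * k ∨ n = 3 * k + 1 ∨ n = 3 * k - 1 := by
    rcases (by omega : n % 3 = 0 ∨ n % 3 = 1 ∨ n % 3 = 2) with h | h | h
    · exact ⟨n / 3, Or.inl (by omega)⟩
    · exact ⟨n / 3, Or.inr (Or.inl (by omega))⟩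
    · exact ⟨n / 3 + 1, Or.inr (Or.inr (by omega))⟩
  · exfalso
    apply hx
    have h4 : x = (x - (n : OO A B)) + 3 * (k : OO A B) := by
      rw [hk]; push_cast; ring
    rw [h4]
    exact dvd_add h1 (Dvd.dvd.mul_right h3 _)
  · left
    have h4 : x - 1 = (x - (n : OO A B)) + 3 * (k : OO A B) := by
      rw [hk]; push_cast; ring
    rw [h4]
    exact dvd_add h1 (Dvd.dvd.mul_right h3 _)
  · right
    have h4 : x + 1 = (x - (n : OO A B)) + 3 * (k : OO A B) := by
      rw [hk]; push_cast; ring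
    rw [h4]
    exact dvd_add h1 (Dvd.dvd.mul_right h3 _)

lemma cop (hc : Case A B) (x : OO A B) (hx : ¬ ppi A B ∣ x) (j : ℕ) :
    IsCoprime x (ppi A B ^ j) := by
  apply IsCoprime.pow_right
  rcases cls hc x hx with ⟨y, hy⟩ | ⟨y, hy⟩
  · exact ⟨1, -y, by linear_combination hy⟩
  · exact ⟨-1, y, by linear_combination -hy⟩

lemma dvd_int (hc : Case A B) (hmul : ∀ x y : OO A B, nm (x * y) = nm x * nm y) (n : ℤ)
    (h : ppi A B ∣ (n : OO A B)) : (3 : ℤ) ∣ n := by
  obtain ⟨y, hy⟩ := h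
  have h1 : n ^ 2 = 3 * nm y := by
    rw [← nm_int (A := A) (B := B), hy, hmul, nm_ppi hc]
  exact Int.prime_three.dvd_of_dvd_pow ⟨_, h1⟩

lemma not_dvd (hc : Case A B) (hmul : ∀ x y : OO A B, nm (x * y) = nm x * nm y)
    (hu : ∀ x : OO A B, IsUnit x ↔ x = 1 ∨ x = -1) (hu' : ∀ x : OO A B, IsUnit x ↔ nm x = 1) :
    ¬ ppi A B ∣ ppc A B := by
  rintro ⟨y, hy⟩
  have h1 : nm y = 1 := by
    have h2 := congrArg nm hy
    rw [hmul, nm_ppi hc, nm_ppc hc] at h2
    omega
  rcases (hu y).mp ((hu' y).mpr h1) with h | h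
  · rw [h, mul_one] at hy
    have := congrArg QuadraticAlgebra.im hy
    simp [ppi, ppc] at this
  · rw [h] at hy
    have h3 := congrArg QuadraticAlgebra.re hy
    rcases hc with ⟨rfl, rfl⟩ | ⟨rfl, rfl⟩
    · simp [ppi, ppc] at h3
    · simp [ppi, ppc] at h3

lemma pow_val (hc : Case A B) (hmul : ∀ x y : OO A B, nm (x * y) = nm x * nm y)
    (hz : ∀ x : OO A B, nm x = 0 ↔ x = 0) (V : ValuationSubring ℂ)
    (hv : ∀ x : OO A B, ¬ ppi A B ∣ x → V.valuation (emb x) = 1) (n : ℕ) :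
    ∀ x : OO A B, x ≠ 0 → (nm x).natAbs ≤ n →
      ∃ j : ℕ, V.valuation (emb x) = V.valuation (emb (ppi A B)) ^ j := by
  induction n with
  | zero =>
    intro x hx h
    exfalso
    apply hx
    rw [← hz]
    omega
  | succ n ih =>
    intro x hx h
    by_cases hd : ppi A B ∣ x
    · obtain ⟨y, hy⟩ := hd
      have hy0 : y ≠ 0 := by
        rintro rfl
        exact hx (by rw [hy, mul_zero])
      have h1 : nm x = 3 * nm y := by rw [hy, hmul, nm_ppi hc]
      have h2 : nm y ≠ 0 := fun h => hy0 ((hz y).mp h)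
      obtain ⟨j, hj⟩ := ih y hy0 (by omega)
      refine ⟨j + 1, ?_⟩
      rw [hy, emb_mul hc, map_mul, hj, pow_succ']
    · exact ⟨0, by rw [hv x hd, pow_zero]⟩

end PPI

open PPI in
theorem te_PPI (h1 : Sa_V3) (h2 : Sa_PID) (h3 : Sa_INT) : Se_PPI := by
  intro A B hc
  obtain ⟨-, -, -, hmul, hz, -, hu, hu', -, hpr⟩ := h2 A B hc
  refine ⟨mul_eq hc, hpr _ (by rw [nm_ppi hc]; exact Nat.prime_three),
    not_dvd hc hmul hu hu', cls hc, cop hc, dvd_int hc hmul, ?_⟩
  intro V hV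
  obtain ⟨v1, -, v3, -⟩ := h1 A B hc V hV
  have hlt : V.valuation (emb (ppi A B)) < 1 := (ValuationSubring.mem_nonunits_iff _).mp hV
  have hp0 : ppi A B ≠ 0 := by
    intro h
    have := congrArg QuadraticAlgebra.im h
    simp [ppi] at this
  have hne : V.valuation (emb (ppi A B)) ≠ 0 := by
    rw [Ne, map_eq_zero]
    exact emb_ne_zero hc hp0
  have hv : ∀ x : OO A B, ¬ ppi A B ∣ x → V.valuation (emb x) = 1 := by
    intro x hx
    refine le_antisymm ((V.valuation_le_one_iff _).mpr (v1 x)) ?_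
    by_contra hcon
    exact v3 x hx ((ValuationSubring.mem_nonunits_iff _).mpr (not_le.mp hcon))
  have hn : ∀ n : ℕ, ¬ 3 ∣ n → V.valuation (n : ℂ) = 1 := by
    intro n hn
    rw [← emb_natCast hc]
    apply hv
    intro hd
    apply hn
    have := dvd_int hc hmul (n : ℤ) (by simpa using hd)
    omega
  have hpc := hv _ (not_dvd hc hmul hu hu')
  have h3v : V.valuation 3 = V.valuation (emb (ppi A B)) := by
    have e : (3 : ℂ) = emb (ppi A B) * emb (ppc A B) := by
      rw [← emb_mul hc, mul_eq hc]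
      have := emb_natCast hc 3
      simpa using this.symm
    rw [e, map_mul, hpc, mul_one]
  refine ⟨hlt, hne, h3v, ?_, hpc, hn, hv, ?_⟩
  · have := hn 2 (by norm_num)
    simpa using this
  · intro y hy hy0
    obtain ⟨s, t, hst⟩ := (h3 A B hc).2.2.1 ⟨y, hy⟩
    have hst' : y = s + t * wC A B := hst
    let x : OO A B := ⟨s.num * t.den, t.num * s.den⟩
    let N : ℕ := s.den * t.den
    have hN : N ≠ 0 := mul_ne_zero s.den_nz t.den_nz
    have hx : emb x = (N : ℂ) * y := by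
      have e1 : (s : ℂ) * (s.den : ℂ) = (s.num : ℂ) := by
        exact_mod_cast Rat.mul_den_eq_num s
      have e2 : (t : ℂ) * (t.den : ℂ) = (t.num : ℂ) := by
        exact_mod_cast Rat.mul_den_eq_num t
      rw [hst']
      simp only [emb, x, N]
      push_cast
      linear_combination -(t.den : ℂ) * e1 - (s.den : ℂ) * wC A B * e2
    have hNC : (N : ℂ) ≠ 0 := by exact_mod_cast hN
    have hx0 : x ≠ 0 := by
      intro h
      rw [h, emb_zero hc] at hx
      exact mul_ne_zero hNC hy0 hx.symm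
    have hNO : ((N : ℕ) : OO A B) ≠ 0 := by
      intro h
      have := emb_natCast hc N
      rw [h, emb_zero hc] at this
      exact hNC this.symm
    obtain ⟨i, hi⟩ := pow_val hc hmul hz V hv _ x hx0 le_rfl
    obtain ⟨j, hj⟩ := pow_val hc hmul hz V hv _ (N : OO A B) hNO le_rfl
    refine ⟨(i : ℤ) - j, ?_⟩
    have h5 : V.valuation (N : ℂ) * V.valuation y = V.valuation (emb (ppi A B)) ^ i := by
      rw [← map_mul, ← hx, hi]
    rw [← emb_natCast hc, hj] at h5
    rw [zpow_sub₀ hne, zpow_natCast, zpow_natCast, ← h5, mul_div_cancel_left₀]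
    exact pow_ne_zero _ hne

end Pool.Agent.MU3E
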