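import Pool.Agent.MU3.StE

/-!
# MU3, block E: module PRD (helper26)
-/

set_option autoImplicit false

namespace Pool.Agent.MU3E

open _root_.MU3 Pool.Agent.MU3A Pool.Agent.MU3B Pool.Agent.MU3C Pool.Agent.MU3V Pool.Agent.RI

noncomputable section

namespace PRD

section
variable {E Γ : Type} [Field E] [LinearOrderedCommGroupWithZero Γ] (v : Valuation E Γ) (t : E)

/-- `u = 1 + t l + O(t²)` with `l` integral -/
def Good (u l : E) : Prop := v l ≤ 1 ∧ v (u - 1 - t * l) ≤ v t ^ 2

variable {v t}

theorem Good.val (ht : v t < 1) {u l : E} (h : Good v t u l) : v u = 1 := by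
  have h1 : v (t * l) < 1 := by
    rw [map_mul]
    exact lt_of_le_of_lt (mul_le_of_le_one_right' h.1) ht
  have h2 : v (u - 1 - t * l) < 1 := by
    refine lt_of_le_of_lt h.2 ?_
    exact pow_lt_one₀ zero_le' ht (by norm_num)
  have h3 : v (t * l + (u - 1 - t * l)) < 1 := v.map_add_lt h1 h2
  have h4 := Valuation.map_one_add_of_lt (v := v) h3
  rwa [show 1 + (t * l + (u - 1 - t * l)) = u by ring] at h4

theorem Good.one : Good v t 1 0 := by
  constructor
  · simp
  · simp

theorem vt_tl (ht : v t < 1) {l : E} (h : v l ≤ 1) : v (1 + t * l) ≤ 1 := by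
  refine v.map_add_le (by simp) ?_
  rw [map_mul]
  exact mul_le_one' ht.le h

theorem Good.mul (ht : v t < 1) {u l u' l' : E} (h : Good v t u l) (h' : Good v t u' l') :
    Good v t (u * u') (l + l') := by
  refine ⟨v.map_add_le h.1 h'.1, ?_⟩
  have e : u * u' - 1 - t * (l + l') = (u - 1 - t * l) * u' + ((1 + t * l) * (u' - 1 - t * l') + t ^ 2 * (l * l')) := by
    ring
  rw [e]
  refine v.map_add_le ?_ (v.map_add_le ?_ ?_)
  · rw [map_mul, h'.val ht, mul_one]; exact h.2
  · rw [map_mul]
    exact (mul_le_of_le_one_left' (vt_tl ht h.1)).trans h'.2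
  · rw [map_mul, map_mul, map_pow]
    exact mul_le_of_le_one_right' (mul_le_one' h.1 h'.1)

theorem Good.inv (ht : v t < 1) {u l : E} (h : Good v t u l) : Good v t u⁻¹ (-l) := by
  have hu := h.val ht
  have hu0 : u ≠ 0 := by
    intro h0
    rw [h0, map_zero] at hu
    exact zero_ne_one hu
  refine ⟨by rw [Valuation.map_neg]; exact h.1, ?_⟩
  have e : u⁻¹ - 1 - t * (-l) = u⁻¹ * (-(u - 1 - t * l) + t * l * (u - 1)) := by
    field_simp
    ring
  have e2 : u - 1 = (u - 1 - t * l) + t * l := by ring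
  have h1 : v (u - 1) ≤ v t := by
    rw [e2]
    refine v.map_add_le ?_ ?_
    · refine h.2.trans ?_
      rw [pow_two]
      exact mul_le_of_le_one_left' ht.le
    · rw [map_mul]
      exact mul_le_of_le_one_right' h.1
  rw [e, map_mul, map_inv₀, hu, inv_one, one_mul]
  refine v.map_add_le ?_ ?_
  · rw [Valuation.map_neg]; exact h.2
  · rw [map_mul, map_mul, pow_two]
    exact mul_le_mul' (mul_le_of_le_one_right' h.1) h1

theorem Good.pow (ht : v t < 1) {u l : E} (h : Good v t u l) (n : ℕ) : Good v t (u ^ n) ((n : E) * l) := by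
  induction n with
  | zero => simpa using Good.one
  | succ n ih =>
    have := ih.mul ht h
    rw [← pow_succ] at this
    rwa [show (n : E) * l + l = ((n + 1 : ℕ) : E) * l by push_cast; ring] at this

theorem Good.zpow (ht : v t < 1) {u l : E} (h : Good v t u l) (n : ℤ) : Good v t (u ^ n) ((n : E) * l) := by
  obtain ⟨m, rfl | rfl⟩ := n.eq_nat_or_neg
  · have := h.pow ht m
    simpa using this
  · have := (h.pow ht m).inv ht
    simpa using this

theorem Good.prod (ht : v t < 1) {ι : Type} (s : Finset ι) {u l : ι → E} (h : ∀ i, Good v t (u i) (l i)) :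
    Good v t (∏ i ∈ s, u i) (∑ i ∈ s, l i) := by
  classical
  induction s using Finset.induction_on with
  | empty => simpa using Good.one
  | insert a s ha ih =>
    rw [Finset.prod_insert ha, Finset.sum_insert ha]
    exact (h a).mul ht ih

end

end PRD

open PRD in
theorem te_PRD : Se_PRD := by
  intro E Γ ι _ _ _ v c d l g t ht hc hl hd
  have hc0 : ∀ i, c i ≠ 0 := by
    intro i h0
    have := hc i
    rw [h0, map_zero] at this
    exact zero_ne_one this
  have hg : ∀ i, Good v t (d i / c i) (l i) := by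
    intro i
    refine ⟨hl i, ?_⟩
    have e : d i / c i - 1 - t * l i = (c i)⁻¹ * (d i - c i * (1 + t * l i)) := by
      have := hc0 i
      field_simp
      ring
    rw [e, map_mul, map_inv₀, hc i, inv_one, one_mul]
    exact hd i
  have h1 : v (∏ i, c i ^ g i) = 1 := by
    rw [map_prod]
    refine Finset.prod_eq_one fun i _ => ?_
    rw [map_zpow₀, hc i, one_zpow]
  have h2 := Good.prod ht Finset.univ (fun i => (hg i).zpow ht (g i))
  refine ⟨h1, h2.1, ?_⟩
  have e : ∏ i, d i ^ g i - (∏ i, c i ^ g i) * (1 + t * ∑ i, (g i : E) * l i) =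
      (∏ i, c i ^ g i) * (∏ i, (d i / c i) ^ g i - 1 - t * ∑ i, (g i : E) * l i) := by
    have e1 : ∏ i, d i ^ g i = (∏ i, c i ^ g i) * ∏ i, (d i / c i) ^ g i := by
      rw [← Finset.prod_mul_distrib]
      refine Finset.prod_congr rfl fun i _ => ?_
      rw [← mul_zpow, mul_div_cancel₀ _ (hc0 i)]
    rw [e1]
    ring
  rw [e, map_mul, h1, one_mul]
  exact h2.2

end

end Pool.Agent.MU3E
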