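import Pool.Agent.MU3.StE

/-!
# MU3E, SIG: an automorphism which is close to the identity
-/

set_option autoImplicit false

open WeierstrassCurve Polynomial NumberField IsDedekindDomain

namespace Pool.Agent.MU3E

open _root_.MU3 Pool.Agent.MU3A Pool.Agent.MU3B Pool.Agent.MU3C Pool.Agent.MU3V Pool.Agent.RI

noncomputable section

namespace SIG

variable {A B : ℤ}

theorem re_nat (n : ℕ) : ((n : ℕ) : OO A B).re = n := rfl

theorem im_nat (n : ℕ) : ((n : ℕ) : OO A B).im = 0 := rfl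

theorem mz_not_dvd_two (h : Case A B) : ¬ mz A B ∣ (2 : OO A B) := by
  have e2 : (2 : OO A B) = ((2 : ℕ) : OO A B) := by norm_num
  rcases h with ⟨rfl, rfl⟩ | ⟨rfl, rfl⟩
  · rintro ⟨x, hx⟩
    have h1 := congrArg QuadraticAlgebra.re hx
    rw [e2, re_nat] at h1
    simp [mz] at h1
    omega
  · rintro ⟨x, hx⟩
    have h1 := congrArg QuadraticAlgebra.re hx
    have e4 : mz (-3) 1 = ((4 : ℕ) : OO (-3) 1) := by simp [mz]
    rw [e2, e4, re_nat, QuadraticAlgebra.re_mul, re_nat, im_nat] at h1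
    push_cast at h1
    omega

theorem mz_ne (h : Case A B) : mz A B ≠ 0 := by
  rcases h with ⟨rfl, rfl⟩ | ⟨rfl, rfl⟩
  · intro h0
    have h1 := congrArg QuadraticAlgebra.im h0
    simp [mz] at h1
  · intro h0
    have h1 := congrArg QuadraticAlgebra.re h0
    have e4 : mz (-3) 1 = ((4 : ℕ) : OO (-3) 1) := by simp [mz]
    rw [e4, re_nat] at h1
    simp at h1

/-- the divisibility behind the existence of `σ` -/
theorem dvd_cube {R : Type} [CommRing R] (p p' M' : R) (n : ℕ) (hn : 1 ≤ n) (h3 : p * p' = 3) :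
    p ^ (n + 1) * M' ∣ (1 + p ^ n * M') ^ 3 - 1 := by
  obtain ⟨k, rfl⟩ : ∃ k, n = k + 1 := ⟨n - 1, by omega⟩
  refine ⟨p' + p' * p ^ (k + 1) * M' + p ^ (2 * k + 1) * M' ^ 2, ?_⟩
  linear_combination (-(p ^ (k + 1) * M') - (p ^ (k + 1) * M') ^ 2) * h3

/-- the geometric part -/
theorem geom {L : PeriodPair} {Om : ℂ} {ξ : ℂ →+ (WC A B).Point} (h1 : Se_PPI) (h3 : Se_TP)
    (h4 : Se_COP) (h10 : Sa_EQN) (h : Case A B) (hL : IsCM A B L Om) (hξ : IsXi A B L ξ)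
    (V : ValuationSubring ℂ) (hV : emb (ppi A B) ∈ V.nonunits) (n : ℕ) (M' M : OO A B)
    (hM : M = ppi A B ^ (n + 1) * M') (hM' : M' ≠ 0) (hpM : ¬ ppi A B ∣ M')
    (hmz : mz A B ∣ M') :
    ∃ P P₀ : ℂ, emb M * P ∈ L.lattice ∧ P ∉ L.lattice ∧ emb M' * P₀ ∈ L.lattice ∧
      P₀ ∉ L.lattice ∧
      V.valuation (xx A B L P - xx A B L P₀) ^ (2 * 3 ^ n) = V.valuation (emb (ppi A B)) ∧
      V.valuation (xx A B L (emb (1 + ppi A B ^ n * M') * P) - xx A B L P) ≤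
        V.valuation (tz A B L (Om / emb (ppi A B))) ∧
      V.valuation (tz A B L (Om / emb (ppi A B))) ≤ 1 := by
  obtain ⟨-, hpr, -, hcls, -, -, hVV⟩ := h1 A B h
  obtain ⟨-, -, -, v4, -, -, -, -⟩ := hVV V hV
  obtain ⟨-, -, q3, q4, -, -, -, -, -⟩ := h10 A B L Om h hL
  have hl := hL.toIsLat
  have hp0 : ppi A B ≠ 0 := hpr.ne_zero
  have hep : emb (ppi A B) ≠ 0 := emb_ne_zero h hp0
  have hOm : Om ∈ L.lattice := (hL.mem Om).2 ⟨1, by rw [emb_one h, mul_one]⟩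
  have epow : ∀ j : ℕ, emb (ppi A B ^ j) = emb (ppi A B) ^ j := by
    intro j
    simpa only [embHom_apply] using map_pow (embHom h) (ppi A B) j
  have hpj : ∀ j : ℕ, ppi A B ^ j ≠ 0 := by
    intro j h0
    have h5 := epow j
    rw [h0, emb_zero h] at h5
    exact pow_ne_zero j hep h5.symm
  have hnd : ∀ j : ℕ, ¬ ppi A B ^ (j + 1) ∣ ppi A B ^ j := by
    rintro j ⟨t, ht⟩
    have h5 := congrArg emb ht
    rw [emb_mul h, epow, epow, pow_succ, mul_assoc] at h5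
    have h6 : emb (ppi A B) * emb t = 1 := by
      apply mul_left_cancel₀ (pow_ne_zero j hep)
      rw [← h5, mul_one]
    rw [← emb_mul h, ← emb_one h] at h6
    exact hpr.not_isUnit (IsUnit.of_mul_eq_one _ (emb_inj h h6))
  -- the point of order prime to `ppi`
  have hmz0 := mz_ne h
  obtain ⟨P₀, hP₀⟩ : ∃ P₀, P₀ = Om / emb (mz A B) := ⟨_, rfl⟩
  have hP0M : emb M' * P₀ ∈ L.lattice := by
    rw [hP₀]
    exact (hl.mul_div_mem_iff h hmz0 M').2 hmz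
  have h2P0 : P₀ + P₀ ∉ L.lattice := by
    intro hc
    apply mz_not_dvd_two h
    rw [← hl.mul_div_mem_iff h hmz0]
    have e2 : emb (2 : OO A B) = 2 := by
      have := emb_natCast h 2
      simpa using this
    rw [e2, two_mul, ← hP₀]
    exact hc
  have hP0 : P₀ ∉ L.lattice := fun hc => h2P0 (add_mem hc hc)
  have hP0E : ¬ InE1 A B V L P₀ := fun hc =>
    hP0 (h4 A B L Om ξ h hL hξ V hV M' P₀ hM' hpM hP0M hc)
  have h2P0E : ¬ InE1 A B V L (P₀ + P₀) := fun hc =>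
    h2P0 (h4 A B L Om ξ h hL hξ V hV M' (P₀ + P₀) hM' hpM (by
      rw [mul_add]
      exact add_mem hP0M hP0M) hc)
  -- the point of order a power of `ppi`
  obtain ⟨P₁, hP₁⟩ : ∃ P₁, P₁ = Om / emb (ppi A B ^ (n + 1)) := ⟨_, rfl⟩
  have hP1a : emb (ppi A B ^ (n + 1)) * P₁ ∈ L.lattice := by
    rw [hP₁]
    exact (hl.mul_div_mem_iff h (hpj _) _).2 dvd_rfl
  have hP1b : emb (ppi A B ^ n) * P₁ ∉ L.lattice := by
    rw [hP₁, hl.mul_div_mem_iff h (hpj _)]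
    exact hnd n
  obtain ⟨hP1E, hP1L, hP1v⟩ := h3 A B L Om ξ h hL hξ V hV n P₁ hP1a hP1b
  -- the point `R`
  obtain ⟨R, hR⟩ : ∃ R, R = Om / emb (ppi A B) := ⟨_, rfl⟩
  have hRa : ∀ x : OO A B, emb x * R ∈ L.lattice ↔ ppi A B ∣ x := by
    intro x
    rw [hR]
    exact hl.mul_div_mem_iff h hp0 x
  obtain ⟨hRE, hRL, -⟩ := h3 A B L Om ξ h hL hξ V hV 0 R
    (by rw [hRa, zero_add, pow_one]) (by
      rw [hRa]
      simpa using hnd 0)
  rw [← hR]
  -- the point `P`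
  obtain ⟨n1, n2, -, -⟩ := near h v4 hξ hP0E hP1E hP1L
  have hyu : V.valuation (yy L P₀) = 1 := by
    obtain ⟨hns, e⟩ := hξ.some P₀ hP0
    refine _root_.Pool.Agent.MU3.Val.v_y_unit (intW h v4) v4 (v_disc h v4) hns ?_ ?_
    · rw [← e, inE_iff hξ]
      exact hP0E
    · rw [← e, ← map_add, inE_iff hξ]
      exact h2P0E
  obtain ⟨t1, t2, -⟩ := v_tz_lt h v4 hξ hP1E hP1L
  have hvb : V.valuation (2 * yy L P₀ * tz A B L P₁) = V.valuation (tz A B L P₁) := by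
    rw [map_mul, map_mul, v4, hyu, one_mul, one_mul]
  have hvπ : V.valuation (xx A B L (P₀ + P₁) - xx A B L P₀) = V.valuation (tz A B L P₁) := by
    rw [← hvb]
    apply Valuation.map_eq_of_sub_lt
    rw [hvb]
    refine lt_of_le_of_lt n2 ?_
    rw [sq]
    calc V.valuation (tz A B L P₁) * V.valuation (tz A B L P₁)
        < 1 * V.valuation (tz A B L P₁) := mul_lt_mul_of_pos_right t1 (zero_lt_iff.2 t2)
      _ = V.valuation (tz A B L P₁) := one_mul _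
  -- the residue of `M'`
  obtain ⟨w, hw, hwM⟩ : ∃ w, (w = R ∨ w = -R) ∧ emb M' * R - w ∈ L.lattice := by
    rcases hcls M' hpM with h5 | h5
    · refine ⟨R, Or.inl rfl, ?_⟩
      have h6 := (hRa _).2 h5
      rw [emb_sub h, emb_one h, sub_mul, one_mul] at h6
      exact h6
    · refine ⟨-R, Or.inr rfl, ?_⟩
      have h6 := (hRa _).2 h5
      rw [emb_add h, emb_one h, add_mul, one_mul] at h6
      rw [sub_neg_eq_add]
      exact h6
  have hwE : InE1 A B V L w := by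
    rcases hw with rfl | rfl
    · exact hRE
    · exact inE1_neg hξ hRE
  have hwL : w ∉ L.lattice := by
    rcases hw with rfl | rfl
    · exact hRL
    · rw [neg_mem_iff]
      exact hRL
  have hwv : V.valuation (tz A B L w) = V.valuation (tz A B L R) := by
    rcases hw with rfl | rfl
    · rfl
    · unfold tz
      rw [(q3 R).1, (q3 R).2, div_neg, neg_neg, Valuation.map_neg]
  obtain ⟨-, -, m3, -⟩ := near h v4 hξ n1 hwE hwL
  refine ⟨P₀ + P₁, P₀, ?_, (int_x n1).1, hP0M, hP0, ?_, ?_, ?_⟩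
  · rw [hM, mul_add, emb_mul h]
    refine add_mem ?_ ?_
    · rw [mul_assoc]
      exact hl.emb_mul_mem h _ hP0M
    · have e : emb (ppi A B ^ (n + 1)) * emb M' * P₁ =
          emb M' * (emb (ppi A B ^ (n + 1)) * P₁) := by ring
      rw [e]
      exact hl.emb_mul_mem h _ hP1a
  · rw [hvπ]
    exact hP1v
  · have e : emb (1 + ppi A B ^ n * M') * (P₀ + P₁) = (P₀ + P₁ + w) +
        (emb (ppi A B ^ n) * (emb M' * P₀) + (emb M' * R - w)) := by
      have e1 : emb (ppi A B ^ n) * P₁ = R := by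
        rw [hP₁, hR, epow, epow, pow_succ]
        field_simp
      rw [emb_add h, emb_one h, emb_mul h]
      linear_combination emb M' * e1
    rw [e, (q4 _ _ (add_mem (hl.emb_mul_mem h _ hP0M) hwM)).1]
    rw [← hwv]
    exact m3
  · exact (v_tz_lt h v4 hξ hRE hRL).1.le

/-- an embedding which is trivial on the subfield -/
theorem fix_of_comp {k : Type} [Field k] [Algebra k ℂ] (F F' : IntermediateField k ℂ)
    (hle : F ≤ F') (σ : F' →ₐ[k] ℂ) (τ : F →ₐ[k] ℂ) (hτ : ∀ y : F, τ y = y)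
    (hσ : σ.comp (IntermediateField.inclusion hle) = τ) (y : F') (hy : (y : ℂ) ∈ F) :
    σ y = y := by
  have h1 := DFunLike.congr_fun hσ (⟨y, hy⟩ : F)
  rw [hτ] at h1
  exact h1

theorem map_sub_mk {k : Type} [Field k] [Algebra k ℂ] (F : IntermediateField k ℂ)
    (σ : F →ₐ[k] ℂ) (a b : ℂ) (ha : a ∈ F) (hb : b ∈ F) (hab : a - b ∈ F) :
    σ ⟨a - b, hab⟩ = σ ⟨a, ha⟩ - σ ⟨b, hb⟩ := by
  rw [← map_sub]
  rfl

theorem em_apply (F : IntermediateField (kk A B) ℂ) (σ : F ≃ₐ[kk A B] F) (w : F) :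
    em σ w = ((σ w : F) : ℂ) := rfl

theorem em_one_apply (F : IntermediateField (kk A B) ℂ) (w : F) :
    em (1 : F ≃ₐ[kk A B] F) w = w := rfl

/-- the result for `M = ppi ^ (n + 1) * M'` -/
theorem core {L : PeriodPair} {Om : ℂ} {ξ : ℂ →+ (WC A B).Point} (h1 : Se_BAS) (h2 : Se_DEG)
    (h3 : Se_TP) (h4 : Se_COP) (h5 : Se_UNR) (h6 : Se_PPI) (h7 : Sa_NEG) (h8 : Sa_ACT)
    (h9 : Sa_NRM) (h10 : Sa_EQN) (h : Case A B) (hL : IsCM A B L Om) (hξ : IsXi A B L ξ)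
    (V : ValuationSubring ℂ) (hV : emb (ppi A B) ∈ V.nonunits) (n : ℕ) (M' M : OO A B)
    (hM : M = ppi A B ^ (n + 1) * M') (hn : 1 ≤ n) (hM' : M' ≠ 0) (hpM : ¬ ppi A B ∣ M')
    (hmz : mz A B ∣ M') :
    ∃ σ : TF L M ≃ₐ[kk A B] TF L M,
      Act L (em σ) M (1 + ppi A B ^ n * M') ∧
      ∀ w : TF L M, V.valuation (w : ℂ) ≤ 1 →
        V.valuation ((σ w : ℂ) - w) ≤ V.valuation (tz A B L (Om / emb (ppi A B))) := by
  obtain ⟨P, P₀, g1, g2, g3, g4, g5, g6, g7⟩ :=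
    geom h6 h3 h4 h10 h hL hξ V hV n M' M hM hM' hpM hmz
  obtain ⟨hpp', hpr, -, -, -, -, hVV⟩ := h6 A B h
  obtain ⟨v1, -, -, -, -, -, -, -⟩ := hVV V hV
  have hep : emb (ppi A B) ≠ 0 := emb_ne_zero h hpr.ne_zero
  have hM'M : M' ∣ M := by
    rw [hM]
    exact dvd_mul_left _ _
  have hM0 : M ≠ 0 := by
    intro h0
    have h11 : emb M = 0 := by rw [h0, emb_zero h]
    have epow : emb (ppi A B ^ (n + 1)) = emb (ppi A B) ^ (n + 1) := by
      simpa only [embHom_apply] using map_pow (embHom h) (ppi A B) (n + 1)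
    rw [hM, emb_mul h, epow] at h11
    exact mul_ne_zero (pow_ne_zero _ hep) (emb_ne_zero h hM') h11
  obtain ⟨hfd, hgal⟩ := h9 A B L Om h hL M hM0
  obtain ⟨hfd', hgal'⟩ := h9 A B L Om h hL M' hM'
  obtain ⟨hle, hdeg⟩ := h2 A B L Om h hL (n + 1) M' (by omega) hM' hpM
  rw [← hM] at hle hdeg
  rw [Nat.add_sub_cancel] at hdeg
  -- the automorphism
  obtain ⟨-, -, hN3⟩ := h7 A B L Om h hL M hM0 (hmz.trans hM'M)
  obtain ⟨σ, hσ⟩ := hN3 (TF L M) le_rfl (1 + ppi A B ^ n * M') 3 (by decide) (by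
    rw [hM]
    exact dvd_cube _ _ _ n hn hpp')
  refine ⟨σ, hσ, ?_⟩
  -- it fixes `TF L M'`
  obtain ⟨-, -, d3, -, -, -, -, -⟩ := h8 A B L Om h hL M hM0
  obtain ⟨-, c2, -, -, c5, -, c7, c8⟩ := h8 A B L Om h hL M' hM'
  have hfix : (em σ).comp (IntermediateField.inclusion hle) =
      em (1 : TF L M' ≃ₐ[kk A B] TF L M') := by
    refine c5 _ _ 1 (c2 _ _ (1 + ppi A B ^ n * M') 1 ?_ (c8 _ _ hle _ _ (d3 _ _ _ _ hM'M hσ)))
      (c7 _ le_rfl)
    rw [add_sub_cancel_left]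
    exact dvd_mul_left _ _
  have hfix' : ∀ y : TF L M, (y : ℂ) ∈ TF L M' → em σ y = y :=
    fix_of_comp (TF L M') (TF L M) hle (em σ) _ (em_one_apply (TF L M')) hfix
  -- the uniformiser
  have hPF : xx A B L P ∈ TF L M :=
    IntermediateField.subset_adjoin _ _ ⟨P, g1, g2, Or.inl rfl⟩
  have hP0F' : xx A B L P₀ ∈ TF L M' :=
    IntermediateField.subset_adjoin _ _ ⟨P₀, g3, g4, Or.inl rfl⟩
  have hP0F : xx A B L P₀ ∈ TF L M := hle hP0F'
  have hπ : xx A B L P - xx A B L P₀ ∈ TF L M := sub_mem hPF hP0F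
  have hσπ : em σ ⟨xx A B L P - xx A B L P₀, hπ⟩ - (xx A B L P - xx A B L P₀) =
      xx A B L (emb (1 + ppi A B ^ n * M') * P) - xx A B L P := by
    have e2 : em σ ⟨xx A B L P, hPF⟩ = xx A B L (emb (1 + ppi A B ^ n * M') * P) :=
      (hσ.2 P g1 g2).2.1 hPF
    have e3 : em σ ⟨xx A B L P₀, hP0F⟩ = xx A B L P₀ := hfix' ⟨xx A B L P₀, hP0F⟩ hP0F'
    rw [map_sub_mk (TF L M) (em σ) _ _ hPF hP0F hπ, e2, e3]
    ring
  have hres := h1 (kk A B) ℂ V.ValueGroup V.valuation (TF L M') (TF L M) (2 * 3 ^ n)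
    (emb (ppi A B)) (xx A B L P - xx A B L P₀) (em σ)
    (V.valuation (tz A B L (Om / emb (ppi A B)))) hle (by positivity) hdeg hep v1
    (h5 A B L Om ξ h hL hξ V hV M' hM' hpM) hπ g5 hfix' g7 (by rw [hσπ]; exact g6)
  intro w hw
  have h11 := hres w hw
  rw [em_apply] at h11
  exact h11

end SIG

theorem te_SIG (h1 : Se_BAS) (h2 : Se_DEG) (h3 : Se_TP) (h4 : Se_COP) (h5 : Se_UNR)
    (h6 : Se_PPI) (h7 : Sa_NEG) (h8 : Sa_ACT) (h9 : Sa_NRM) (h10 : Sa_EQN) : Se_SIG := by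
  intro A B L Om ξ h hL hξ V hV n M' hn hM' hpM hmz
  exact SIG.core h1 h2 h3 h4 h5 h6 h7 h8 h9 h10 h hL hξ V hV n M' _ rfl hn hM' hpM hmz

end

end Pool.Agent.MU3E
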