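import Pool.Agent.MU3.StE

/-!
# MU3, block E, THE: expansion of `Θ_a` near `z`
-/

set_option autoImplicit false

namespace Pool.Agent.MU3E

open _root_.MU3 Pool.Agent.MU3A Pool.Agent.MU3B Pool.Agent.MU3C Pool.Agent.MU3V Pool.Agent.RI

/-- (THE) expansion of `Θ_a` near `z` -/
theorem te_THE (h1 : Se_PRD) (h2 : St_TDL) : Se_THE := by
  intro A B L Om ξ hc hL hξ V hV2 a H ha hH z hz haz hq
  have hxx : ∀ u q, L.weierstrassP u - L.weierstrassP q = xx A B L u - xx A B L q := by
    intro u q; unfold xx; ring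
  have hTh : ∀ u, ThetaH L H u = ∏ q : H, (xx A B L u - xx A B L q) := by
    intro u
    unfold ThetaH
    rw [← Finset.prod_coe_sort]
    exact Finset.prod_congr rfl fun q _ => hxx u q
  have hcv : ∀ q : H, V.valuation (xx A B L z - xx A B L q) = 1 := fun q =>
    v_xx_sub hc hV2 hξ hz (hq q q.2).1 (hq q q.2).2.1 (hq q q.2).2.2
  have hc0 : ∀ q : H, xx A B L z - xx A B L q ≠ 0 := fun q h0 => by
    have := hcv q
    rw [h0, map_zero] at this
    exact zero_ne_one this
  have hy : V.valuation (yy L z) ≤ 1 := int_yy hc hV2 hξ hz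
  have hlv : ∀ q : H, V.valuation (2 * yy L z / (xx A B L z - xx A B L q)) ≤ 1 := by
    intro q
    rw [map_div₀, map_mul, hcv q, hV2, one_mul, div_one]
    exact hy
  have hnat : ∀ w ∈ L.lattice, (a : ℂ) * w ∈ L.lattice := by
    intro w hw
    have := L.lattice.smul_mem (a : ℤ) hw
    rwa [zsmul_eq_mul, Int.cast_natCast] at this
  have hdl : ∑ q : H, 2 * yy L z / (xx A B L z - xx A B L q) = dl L a z := by
    have h3 := (h2 L (a : ℂ) H (Nat.cast_ne_zero.2 ha) hnat hH z haz).1
    unfold dl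
    rw [← Finset.sum_coe_sort] at h3
    have h4 : ((‖(a : ℂ)‖ ^ 2 : ℝ) : ℂ) = (a : ℂ) ^ 2 := by
      rw [Complex.norm_natCast]; push_cast; rfl
    rw [h4] at h3
    rw [← h3]
    refine Finset.sum_congr rfl fun q _ => ?_
    rw [hxx]
    congr 1
    unfold yy; ring
  have key : ∀ (d : H → ℂ) (t : ℂ), V.valuation t < 1 →
      (∀ q : H, V.valuation (d q - (xx A B L z - xx A B L q) *
        (1 + t * (2 * yy L z / (xx A B L z - xx A B L q)))) ≤ V.valuation t ^ 2) →
      V.valuation (ThetaH L H z) = 1 ∧ V.valuation (dl L a z) ≤ 1 ∧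
      V.valuation (∏ q : H, d q - ThetaH L H z * (1 + t * dl L a z)) ≤ V.valuation t ^ 2 := by
    intro d t ht hd
    have h3 := h1 ℂ V.ValueGroup H V.valuation (fun q => xx A B L z - xx A B L q) d
      (fun q => 2 * yy L z / (xx A B L z - xx A B L q)) (fun _ => 1) t ht hcv hlv hd
    simp only [zpow_one, Int.cast_one, one_mul] at h3
    rw [← hTh, hdl] at h3
    exact h3
  have k0 := key (fun q => xx A B L z - xx A B L q) 0 (by rw [map_zero]; exact zero_lt_one) (by
    intro q
    rw [zero_mul, add_zero, mul_one, sub_self, map_zero]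
    simp)
  refine ⟨k0.1, k0.2.1, ?_⟩
  intro R hR hRL
  have hn := near hc hV2 hξ hz hR hRL
  have ht := (v_tz_lt hc hV2 hξ hR hRL).1
  have k1 := key (fun q => xx A B L (z + R) - xx A B L q) (tz A B L R) ht (by
    intro q
    have e : xx A B L (z + R) - xx A B L q - (xx A B L z - xx A B L q) *
        (1 + tz A B L R * (2 * yy L z / (xx A B L z - xx A B L q))) =
        xx A B L (z + R) - xx A B L z - 2 * yy L z * tz A B L R := by
      have := hc0 q
      field_simp
      ring
    rw [e]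
    exact hn.2.1)
  rw [hTh (z + R)]
  exact k1.2.2

end Pool.Agent.MU3E
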