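import Pool.Agent.MU3.StE

/-!
# MU3, block E: module TP (the parameter of a point of exact order `ppi ^ (j + 1)`)
-/

set_option autoImplicit false

open WeierstrassCurve Polynomial NumberField IsDedekindDomain

namespace Pool.Agent.MU3E

open _root_.MU3 Pool.Agent.MU3A Pool.Agent.MU3B Pool.Agent.MU3C Pool.Agent.MU3V Pool.Agent.RI

noncomputable section

/-- the leading term dominates -/
lemma tp_vN {E Γ : Type} [Field E] [LinearOrderedCommGroupWithZero Γ] (v : Valuation E Γ)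
    {X n2 n1 n0 : E} (h2 : v n2 ≤ 1) (h1 : v n1 ≤ 1) (h0 : v n0 ≤ 1) (hX : 1 < v X) :
    v (X ^ 3 + n2 * X ^ 2 + n1 * X + n0) = v X ^ 3 := by
  have hpos : 0 < v X := lt_trans zero_lt_one hX
  have e1 : v (n1 * X + n0) ≤ v X := by
    refine (v.map_add_le ?_ ?_)
    · rw [map_mul]; exact mul_le_of_le_one_left' h1
    · exact h0.trans hX.le
  have e2 : v (n2 * X ^ 2 + (n1 * X + n0)) ≤ v X ^ 2 := by
    refine (v.map_add_le ?_ ?_)
    · rw [map_mul, map_pow]; exact mul_le_of_le_one_left' h2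
    · refine e1.trans ?_
      rw [sq]
      exact le_mul_of_one_le_left' hX.le
  have e3 : v X ^ 2 < v (X ^ 3) := by
    rw [map_pow]
    exact pow_lt_pow_right₀ hX (by norm_num)
  have e4 : X ^ 3 + n2 * X ^ 2 + n1 * X + n0 = (n2 * X ^ 2 + (n1 * X + n0)) + X ^ 3 := by ring
  rw [e4, Valuation.map_add_eq_of_lt_right v (e2.trans_lt e3), map_pow]

/-- first step -/
lemma tp_zero {E Γ : Type} [Field E] [LinearOrderedCommGroupWithZero Γ] (v : Valuation E Γ)
    {p X d : E} {t : Γ} (hd : v d = 1) (h : p * X + d = 0) (ht : v X * t ^ 2 = 1) :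
    t ^ 2 = v p := by
  have e1 : v p * v X = 1 := by
    rw [← map_mul, show p * X = -d by linear_combination h, Valuation.map_neg, hd]
  have e2 : v X ≠ 0 := by
    intro h0
    rw [h0, mul_zero] at e1
    exact zero_ne_one e1
  have e3 : v X * t ^ 2 = v X * v p := by rw [ht, mul_comm, e1]
  exact mul_left_cancel₀ e2 e3

/-- the induction step -/
lemma tp_step {E Γ : Type} [Field E] [LinearOrderedCommGroupWithZero Γ] (v : Valuation E Γ)
    {p X y d n2 n1 n0 : E} {s t : Γ} (hp : v p < 1) (hp0 : v p ≠ 0) (hd : v d = 1)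
    (h2 : v n2 ≤ 1) (h1 : v n1 ≤ 1) (h0 : v n0 ≤ 1)
    (h : y * (p * X + d) ^ 2 = X ^ 3 + n2 * X ^ 2 + n1 * X + n0) (hX : 1 < v X)
    (ht : v X * t ^ 2 = 1) (hs : v y * s ^ 2 = 1) (hps : v p ≤ s ^ 2) : s = t ^ 3 := by
  have hXpos : 0 < v X := lt_trans zero_lt_one hX
  have hppos : 0 < v p := zero_lt_iff.2 hp0
  have e1 : v y * v (p * X + d) ^ 2 = v X ^ 3 := by
    rw [← tp_vN v h2 h1 h0 hX, ← h, map_mul, map_pow]
  have e2 : v y * v p ≤ 1 := by
    rw [← hs]; exact mul_le_mul_right hps _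
  rcases lt_trichotomy (v (p * X)) 1 with hlt | heq | hgt
  · have e3 : v (p * X + d) = 1 := by
      rw [Valuation.map_add_eq_of_lt_right v (by rwa [hd]), hd]
    rw [e3, one_pow, mul_one] at e1
    have e4 : v X ^ 3 * s ^ 2 = v X ^ 3 * (t ^ 3) ^ 2 := by
      rw [← e1, hs, e1, ← pow_mul, show 3 * 2 = 2 * 3 by norm_num, pow_mul, ← mul_pow, ht, one_pow]
    have e5 := mul_left_cancel₀ (pow_ne_zero 3 hXpos.ne') e4
    exact (pow_left_inj₀ zero_le zero_le (by norm_num)).1 e5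
  · exfalso
    have e3 : v (p * X + d) ≤ 1 := v.map_add_le heq.le hd.le
    have e4 : v X ^ 3 ≤ v y := by
      rw [← e1]
      exact mul_le_of_le_one_right' (pow_le_one₀ zero_le e3)
    have e5 : v X ^ 3 * v p ≤ 1 := le_trans (mul_le_mul_left e4 _) e2
    rw [map_mul] at heq
    have e6 : v X ^ 3 * v p = v X ^ 2 := by
      rw [pow_succ, mul_assoc, mul_comm (v X) (v p), heq, mul_one]
    rw [e6] at e5
    exact absurd e5 (not_le.2 (one_lt_pow₀ hX (by norm_num)))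
  · exfalso
    have e3 : v (p * X + d) = v p * v X := by
      rw [add_comm, Valuation.map_add_eq_of_lt_right v (by rwa [hd]), map_mul]
    rw [e3, mul_pow] at e1
    have e4 : v y * v p ^ 2 = v X := by
      have : v X ^ 2 * (v y * v p ^ 2) = v X ^ 2 * v X := by
        rw [← pow_succ, ← e1]
        rw [mul_comm (v X ^ 2), mul_assoc]
      exact mul_left_cancel₀ (pow_ne_zero 2 hXpos.ne') this
    have e5 : v X ≤ v p := by
      rw [← e4, sq, ← mul_assoc]
      exact mul_le_of_le_one_left' e2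
    exact absurd (hX.trans_le e5) (not_lt.2 hp.le)

theorem te_TP (h1 : Se_PPI) (h2 : Sa_T3) (h3 : Sa_N8P) (h4 : Sa_N11) : Se_TP := by
  intro A B L Om ξ hc hL hξ V hV
  obtain ⟨-, -, -, -, -, -, hppi⟩ := h1 A B hc
  obtain ⟨hq1, hq0, -, hv2, -, -, -, -⟩ := hppi V hV
  obtain ⟨-, hT2, -, -⟩ := h2 A B L Om hc hL V hV
  -- the formulas
  obtain ⟨d0, n2, n1, n0, m2, m1, m0, hd, hiso⟩ : ∃ d0 n2 n1 n0 m2 m1 m0 : OO A B,
      V.valuation (emb d0) = 1 ∧ Iso3 L (ppi A B) d0 n2 n1 n0 m2 m1 m0 := by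
    rcases hc with ⟨rfl, rfl⟩ | ⟨rfl, rfl⟩
    · refine ⟨⟨0, 1⟩, ⟨4, -2⟩, ⟨2, -4⟩, 0, ⟨2, 1⟩, ⟨6, 4⟩, ⟨4, -2⟩, ?_, ?_⟩
      rotate_left
      · have := (h3 L Om hL).1
        have e : ppi (-2) 0 = (⟨1, 1⟩ : OO (-2) 0) := by simp [ppi]
        rw [e]; exact this
      · rw [emb_w]
        have hw := congrArg V.valuation (wC_sq (A := -2) (B := 0) (Or.inl ⟨rfl, rfl⟩))
        rw [map_mul] at hw
        have e : V.valuation (((-2 : ℤ) : ℂ) + ((0 : ℤ) : ℂ) * wC (-2) 0) = 1 := by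
          push_cast
          rw [zero_mul, add_zero, Valuation.map_neg, hv2]
        rw [e, ← sq] at hw
        exact (pow_eq_one_iff_of_nonneg zero_le (by norm_num)).1 hw
    · refine ⟨-1, ⟨0, 3⟩, ⟨-6, 1⟩, ⟨0, -1⟩, ⟨-1, 1⟩, ⟨0, -1⟩, 1, ?_, ?_⟩
      rotate_left
      · have := h4 L Om hL
        have e : ppi (-3) 1 = (⟨0, 1⟩ : OO (-3) 1) := by simp [ppi]
        rw [e]; exact this
      · rw [emb_neg (Or.inr ⟨rfl, rfl⟩), emb_one (Or.inr ⟨rfl, rfl⟩), Valuation.map_neg, map_one]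
  -- the first two claims
  have hfirst : ∀ (j : ℕ) (z : ℂ), emb (ppi A B ^ (j + 1)) * z ∈ L.lattice →
      emb (ppi A B ^ j) * z ∉ L.lattice → InE1 A B V L z ∧ z ∉ L.lattice := by
    intro j z hz1 hz2
    have hzL : z ∉ L.lattice := fun h => hz2 (hL.toIsLat.emb_mul_mem hc _ h)
    exact ⟨Or.inr (hT2 (j + 1) z hzL hz1), hzL⟩
  intro j
  induction j with
  | zero =>
    intro z hz1 hz2
    obtain ⟨hE, hzL⟩ := hfirst 0 z hz1 hz2
    refine ⟨hE, hzL, ?_⟩
    obtain ⟨-, -, ht⟩ := v_tz_lt hc hv2 hξ hE hzL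
    rw [zero_add, pow_one] at hz1
    have hk := (hiso.ker z hzL).1 hz1
    rw [pow_zero, mul_one]
    exact tp_zero V.valuation hd hk ht
  | succ j ih =>
    intro z hz1 hz2
    obtain ⟨hE, hzL⟩ := hfirst (j + 1) z hz1 hz2
    refine ⟨hE, hzL, ?_⟩
    obtain ⟨-, -, ht⟩ := v_tz_lt hc hv2 hξ hE hzL
    have hw1 : emb (ppi A B ^ (j + 1)) * (emb (ppi A B) * z) ∈ L.lattice := by
      rw [← mul_assoc, ← emb_mul hc, ← pow_succ]; exact hz1
    have hw2 : emb (ppi A B ^ j) * (emb (ppi A B) * z) ∉ L.lattice := by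
      rw [← mul_assoc, ← emb_mul hc, ← pow_succ]; exact hz2
    obtain ⟨hwE, hwL, hw⟩ := ih _ hw1 hw2
    obtain ⟨hs1, -, hs⟩ := v_tz_lt hc hv2 hξ hwE hwL
    have hX : 1 < V.valuation (xx A B L z) := by
      rcases hE with h | h
      · exact absurd h hzL
      · rwa [← ValuationSubring.valuation_le_one_iff, not_le] at h
    have hps : V.valuation (emb (ppi A B)) ≤ V.valuation (tz A B L (emb (ppi A B) * z)) ^ 2 := by
      rw [← hw, pow_mul]
      exact pow_le_of_le_one zero_le (pow_le_one₀ zero_le hs1.le) (by positivity)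
    have key := tp_step V.valuation hq1 hq0 hd (v_emb_le hc V n2) (v_emb_le hc V n1)
      (v_emb_le hc V n0) (hiso.x z hwL) hX ht hs hps
    rw [← hw, key, ← pow_mul]
    congr 1
    ring

end

end Pool.Agent.MU3E
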