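import Pool.Agent.MU3.StE

/-!
# MU3, block E: integers represent the classes modulo powers of `ppi`
-/

set_option autoImplicit false

open WeierstrassCurve Polynomial NumberField IsDedekindDomain

namespace Pool.Agent.MU3E

open _root_.MU3 Pool.Agent.MU3A Pool.Agent.MU3B Pool.Agent.MU3C Pool.Agent.MU3V Pool.Agent.RI

noncomputable section

theorem te_Z3 (h1 : Se_PPI) : Se_Z3 := by
  intro A B hAB
  obtain ⟨h3, hpr, hnd, htri, -, hint, -⟩ := h1 A B hAB
  set p := ppi A B with hp
  set q := ppc A B with hq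
  have hrep : ∀ (j : ℕ) (x : OO A B), ∃ r : ℤ, p ^ j ∣ x - r := by
    intro j
    induction j with
    | zero => exact fun x => ⟨0, by rw [pow_zero]; exact one_dvd _⟩
    | succ j ih =>
      intro x
      obtain ⟨r, y, hy⟩ := ih x
      have hqj : ¬ p ∣ q ^ j := fun h => hnd (hpr.dvd_of_dvd_pow h)
      have he : ∃ e : ℤ, e * e = 1 ∧ p ∣ q ^ j - e := by
        rcases htri _ hqj with h | h
        · exact ⟨1, by norm_num, by simpa using h⟩
        · exact ⟨-1, by norm_num, by simpa using h⟩
      have he' : ∃ e : ℤ, p ∣ y - e := by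
        by_cases hy0 : p ∣ y
        · exact ⟨0, by simpa using hy0⟩
        · rcases htri _ hy0 with h | h
          · exact ⟨1, by simpa using h⟩
          · exact ⟨-1, by simpa using h⟩
      obtain ⟨e, he1, u, hu⟩ := he
      obtain ⟨e', v, hv⟩ := he'
      have he2 : (e : OO A B) * e = 1 := by
        have := congrArg (Int.cast : ℤ → OO A B) he1
        push_cast at this
        exact this
      refine ⟨r + 3 ^ j * (e * e'), v - u * (e * e'), ?_⟩
      have h33 : (3 : OO A B) ^ j = p ^ j * q ^ j := by rw [← mul_pow, h3]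
      push_cast
      rw [pow_succ]
      linear_combination hy - (e * e' : OO A B) * h33 + p ^ j * hv - (e * e' : OO A B) * p ^ j * hu
        - p ^ j * (e' : OO A B) * he2
  intro j
  refine ⟨hrep j, fun hj S hS hinj => ?_⟩
  choose r hr using hrep j
  have hppj : p ∣ p ^ j := dvd_pow_self _ (by omega)
  have hr3 : ∀ x ∈ S, ¬ (3 : ℤ) ∣ r x := by
    rintro x hx ⟨s, hs⟩
    apply hS x hx
    have h5 : p ∣ x - r x := hppj.trans (hr x)
    have h6 : p ∣ ((r x : ℤ) : OO A B) := by
      rw [hs]
      push_cast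
      rw [← h3]
      exact (dvd_mul_right _ _).mul_right _
    have := dvd_add h5 h6
    rwa [sub_add_cancel] at this
  have h3j : (0 : ℤ) < 3 ^ j := by positivity
  have hcard : ((Finset.range (3 ^ j)).filter (Nat.Coprime (3 ^ j))).card = 2 * 3 ^ (j - 1) := by
    obtain ⟨i, rfl⟩ : ∃ i, j = i + 1 := ⟨j - 1, by omega⟩
    have := Nat.totient_prime_pow_succ Nat.prime_three i
    rw [Nat.totient] at this
    rw [this]
    simp [mul_comm]
  rw [← hcard]
  refine Finset.card_le_card_of_injOn (fun x => (r x % 3 ^ j).toNat) ?_ ?_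
  · intro x hx
    have h0 : 0 ≤ r x % 3 ^ j := Int.emod_nonneg _ h3j.ne'
    have h2 : r x % 3 ^ j < 3 ^ j := Int.emod_lt_of_pos _ h3j
    rw [Finset.mem_coe, Finset.mem_filter, Finset.mem_range]
    refine ⟨?_, ?_⟩
    · zify
      rw [Int.toNat_of_nonneg h0]
      exact h2
    · refine Nat.Coprime.pow_left _ ((Nat.prime_three.coprime_iff_not_dvd).2 fun h => ?_)
      apply hr3 x hx
      have h4 : (3 : ℤ) ∣ r x % 3 ^ j := by
        have := Int.natCast_dvd_natCast.2 h
        rwa [Int.toNat_of_nonneg h0] at this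
      have h5 : (3 : ℤ) ∣ 3 ^ j := dvd_pow_self _ (by omega)
      have h6 := Int.emod_add_mul_ediv (r x) (3 ^ j)
      rw [← h6]
      exact dvd_add h4 (h5.mul_right _)
  · intro x hx y hy hxy
    simp only at hxy
    apply hinj x hx y hy
    have h0 : 0 ≤ r x % 3 ^ j := Int.emod_nonneg _ h3j.ne'
    have h0' : 0 ≤ r y % 3 ^ j := Int.emod_nonneg _ h3j.ne'
    have h4 : r x % 3 ^ j = r y % 3 ^ j := by
      rw [← Int.toNat_of_nonneg h0, ← Int.toNat_of_nonneg h0', hxy]
    obtain ⟨s, hs⟩ : (3 : ℤ) ^ j ∣ r x - r y := Int.ModEq.dvd (h4.symm : r y ≡ r x [ZMOD 3 ^ j])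
    have h5 : p ^ j ∣ ((r x : ℤ) : OO A B) - ((r y : ℤ) : OO A B) := by
      have h6 : ((r x : ℤ) : OO A B) - ((r y : ℤ) : OO A B) = (p * q) ^ j * (s : OO A B) := by
        have := congrArg (Int.cast : ℤ → OO A B) hs
        push_cast at this
        rw [this, h3]
      rw [h6, mul_pow, mul_assoc]
      exact dvd_mul_right _ _
    have := dvd_sub (dvd_add (hr x) h5) (hr y)
    have e : x - (r x : OO A B) + ((r x : OO A B) - (r y : OO A B)) - (y - (r y : OO A B)) = x - y := by
      ring
    rwa [e] at this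

end

end Pool.Agent.MU3E
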