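import Pool.Agent.MU3.AVAll
import Pool.Agent.MU3.E_BAS
import Pool.Agent.MU3.E_COP
import Pool.Agent.MU3.E_DEG
import Pool.Agent.MU3.E_FIN
import Pool.Agent.MU3.E_GTH
import Pool.Agent.MU3.E_MAIN
import Pool.Agent.MU3.E_NE1
import Pool.Agent.MU3.E_ONE
import Pool.Agent.MU3.E_PPI
import Pool.Agent.MU3.E_PRD
import Pool.Agent.MU3.E_RAM
import Pool.Agent.MU3.E_SIG
import Pool.Agent.MU3.E_THE
import Pool.Agent.MU3.E_TP
import Pool.Agent.MU3.E_UNR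
import Pool.Agent.MU3.E_Z3

/-!
# MU3, block E: all statements, without hypotheses
-/

set_option autoImplicit false

namespace Pool.Agent.MU3X

open Pool.Agent.MU3E

theorem e_BAS : Se_BAS := MU3E.te_BAS
theorem e_PRD : Se_PRD := MU3E.te_PRD
theorem e_PPI : Se_PPI := MU3E.te_PPI a_V3 a_PID a_INT
theorem e_Z3 : Se_Z3 := MU3E.te_Z3 e_PPI
theorem e_DEG : Se_DEG := MU3E.te_DEG e_PPI e_Z3 a_ACT a_NRM a_GAL
theorem e_TP : Se_TP := MU3E.te_TP e_PPI a_T3 a_N8P a_N11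
theorem e_COP : Se_COP := MU3E.te_COP e_PPI a_T3
theorem e_RAM : Se_RAM := MU3E.te_RAM e_PPI a_INT
theorem e_UNR : Se_UNR := MU3E.te_UNR e_RAM e_PPI e_COP a_GAL a_ACT a_NRM a_EQN
theorem e_SIG : Se_SIG := MU3E.te_SIG e_BAS e_DEG e_TP e_COP e_UNR e_PPI a_NEG a_ACT a_NRM a_EQN
theorem e_NE1 : Se_NE1 := MU3E.te_NE1 e_PPI
theorem e_THE : Se_THE := MU3E.te_THE e_PRD MU3B.b_TDL
theorem e_GTH : Se_GTH := MU3E.te_GTH a_EQN
theorem e_ONE : Se_ONE := MU3E.te_ONE e_PPI e_SIG e_NE1 e_THE e_GTH e_PRD e_TP a_EQN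
theorem e_MAIN : Se_MAIN := MU3E.te_MAIN e_ONE a_NRM a_XI a_PID
theorem e_EFIN : MU3I.St_EFIN := MU3E.te_EFIN e_MAIN w_MEMC w_XXG a_ACT

end Pool.Agent.MU3X
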