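import Pool.Agent.MU3.StE

/-!
# MU3, block E, module UNR: `F_(M') / k` is unramified at `ppi`
-/

set_option autoImplicit false

open WeierstrassCurve Polynomial NumberField IsDedekindDomain

namespace Pool.Agent.MU3E

open _root_.MU3 Pool.Agent.MU3A Pool.Agent.MU3B Pool.Agent.MU3C Pool.Agent.MU3V Pool.Agent.RI

noncomputable section

theorem te_UNR (h1 : Se_RAM) (h2 : Se_PPI) (h3 : Se_COP) (h4 : Sa_GAL) (h5 : Sa_ACT) (h6 : Sa_NRM)
    (h7 : Sa_EQN) : Se_UNR := by
  intro A B L Om ξ h hL hξ V hV M' hM' hpM' y hy hy0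
  obtain ⟨-, -, -, -, -, -, hPV⟩ := h2 A B h
  obtain ⟨-, -, -, hv2, -, -, -, -⟩ := hPV V hV
  obtain ⟨hfd, hgal⟩ := h6 A B L Om h hL M' hM'
  obtain ⟨-, -, hpar, hper, -, -, -, -, -⟩ := h7 A B L Om h hL
  obtain ⟨-, act2, -, -, act5, -, act7, -⟩ := h5 A B L Om h hL M' hM'
  have hcop : ∀ z : ℂ, emb M' * z ∈ L.lattice → InE1 A B V L z → z ∈ L.lattice := fun z hz =>
    h3 A B L Om ξ h hL hξ V hV M' z hM' hpM' hz
  refine h1 A B h V hV (TF L M') ?_ y hy hy0
  intro σ hσ
  obtain ⟨a, ha⟩ := h4 A B L Om h hL M' hM' (TF L M') le_rfl (em σ)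
  have hdvd : M' ∣ a - 1 := by
    by_cases hu : IsUnit M'
    · exact hu.dvd
    set u : ℂ := Om / emb M' with hudef
    have hum : emb M' * u ∈ L.lattice := by
      have := (hL.torsion_iff h hM' (emb (1 : OO A B) * (Om / emb M'))).2 ⟨1, rfl⟩
      rwa [emb_one h, one_mul] at this
    have huL : u ∉ L.lattice := by
      intro hm
      have h8 := (hL.mul_div_mem_iff h hM' 1).1 (by rw [emb_one h, one_mul]; exact hm)
      exact hu (isUnit_of_dvd_one h8)
    obtain ⟨hauL, hxa, hya⟩ := ha.2 u hum huL
    have haum : emb M' * (emb a * u) ∈ L.lattice := by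
      have := hL.emb_mul_mem h a hum
      rwa [mul_left_comm] at this
    have hx : xx A B L u ∈ TF L M' :=
      IntermediateField.subset_adjoin _ _ ⟨u, hum, huL, Or.inl rfl⟩
    have hyy : yy L u ∈ TF L M' :=
      IntermediateField.subset_adjoin _ _ ⟨u, hum, huL, Or.inr rfl⟩
    have nu : ¬ InE1 A B V L u := fun hh => huL (hcop u hum hh)
    have nau : ¬ InE1 A B V L (emb a * u) := fun hh => hauL (hcop _ haum hh)
    have ex : ((σ ⟨xx A B L u, hx⟩ : TF L M') : ℂ) = xx A B L (emb a * u) := hxa hx
    have ey : ((σ ⟨yy L u, hyy⟩ : TF L M') : ℂ) = yy L (emb a * u) := hya hyy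
    have vx : V.valuation (xx A B L (emb a * u) - xx A B L u) < 1 := by
      have := hσ ⟨xx A B L u, hx⟩ (int_x nu).2
      rwa [ex] at this
    have vy : V.valuation (yy L (emb a * u) - yy L u) < 1 := by
      have := hσ ⟨yy L u, hyy⟩ (int_yy h hv2 hξ nu)
      rwa [ey] at this
    have hsum : emb M' * (emb a * u + u) ∈ L.lattice := by
      rw [mul_add]; exact add_mem haum hum
    have hdif : emb M' * (emb a * u - u) ∈ L.lattice := by
      rw [mul_sub]; exact sub_mem haum hum
    have hdu : emb M' * (u + u) ∈ L.lattice := by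
      rw [mul_add]; exact add_mem hum hum
    have claim : emb a * u - u ∈ L.lattice := by
      by_contra hc
      have n1 : ¬ InE1 A B V L (emb a * u - u) := fun hh => hc (hcop _ hdif hh)
      have n2 : InE1 A B V L (emb a * u + u) := by
        by_contra hh
        have := v_xx_sub h hv2 hξ nau nu hh n1
        rw [this] at vx
        exact lt_irrefl _ vx
      have n3 := hcop _ hsum n2
      have e1 : yy L (emb a * u) = -yy L u := by
        have e2 : emb a * u = -u + (emb a * u + u) := by ring
        rw [e2, (hper (-u) _ n3).2, (hpar u).2]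
      rw [e1] at vy
      have e3 : -yy L u - yy L u = -(2 * yy L u) := by ring
      rw [e3, Valuation.map_neg, map_mul, hv2, one_mul] at vy
      by_cases hdL : u + u ∈ L.lattice
      · apply hc
        have := sub_mem n3 hdL
        have e4 : emb a * u + u - (u + u) = emb a * u - u := by ring
        rwa [e4] at this
      · have n4 : ¬ InE1 A B V L (u + u) := fun hh => hdL (hcop _ hdu hh)
        obtain ⟨hns, e5⟩ := hξ.some u huL
        have n5 := nu
        rw [← inE_iff hξ] at n4 n5
        rw [map_add] at n4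
        rw [e5] at n4 n5
        have := Pool.Agent.MU3.Val.v_y_unit (intW h hv2) hv2 (v_disc h hv2) hns n5 n4
        rw [this] at vy
        exact lt_irrefl _ vy
    have h9 : emb (a - 1) * (Om / emb M') ∈ L.lattice := by
      rw [emb_sub h, emb_one h, sub_mul, one_mul]
      exact claim
    exact (hL.mul_div_mem_iff h hM' _).1 h9
  have hact1 := act2 (TF L M') (em σ) a 1 hdvd ha
  have hact2 := act7 (TF L M') le_rfl
  have heq := act5 (em σ) (em 1) 1 hact1 hact2
  apply AlgEquiv.ext
  intro x
  apply Subtype.ext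
  have := congrArg (fun f : TF L M' →ₐ[kk A B] ℂ => f x) heq
  exact this

end

end Pool.Agent.MU3E
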