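import Pool.Agent.MU3.ADefs
import Pool.Agent.MU3.StB
import Pool.Agent.MU3.StA

/-!
# MU3, block FH (helper27): Hecke operator, values, Fourier transform, finiteness, twist

Every statement is a `def Sf_X : Prop`. A module proves `theorem tf_X (h : Sf_Y) ... : Sf_X`, where
the hypotheses are the statements named under USES in the doc string. Notation of PAPER.md, section 5.
`OO A B`, `emb`, `nm`, `theta`, `Iv`, `Phi`, `hecke`, `sgnPart`, `sumMod` : Base.lean.
`IsLat A B L Om` : the lattice `L` is `Om * emb O` (ADefs.lean). `ee L` : BDefs.lean.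
-/

set_option autoImplicit false

namespace Pool.Agent.MU3F

open MU3 Pool.Agent.MU3A Pool.Agent.MU3B Pool.Agent.MuSym OnePoint
open scoped ComplexConjugate

noncomputable section

/-- `exp(2 π i r)` for rational `r` -/
def ex (r : ℚ) : ℂ := Complex.exp (2 * Real.pi * Complex.I * (r : ℂ))

/-- the Gauss sum of `chi_D` -/
def tauD (A B : ℤ) : ℂ :=
  ∑ a ∈ Finset.range (absD A B).toNat, (chiD A B a : ℂ) * ex (a / (absD A B : ℚ))

/-- (ALG) algebra of `O`.

PROOF. `embHom h` is a ring homomorphism with `embHom h x = emb x`; `emb x = 0` gives `im x = 0` (imaginary part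
of `wC`, positive) and then `re x = 0`. `nm x = |emb x|²`: expand (`wC = (B + i sqrt |D|)/2`,
`|emb x|² = (re + B im/2)² + |D| im²/4`). `x * star x = nm x` in `QuadraticAlgebra` (check the definition of
`star`; compare real and imaginary parts). Finite quotient: `nm m ≠ 0` is in the ideal `(m)`, so every class has a
representative with coordinates in `[0, |nm m|)`; or `Ideal.finiteQuotientOfFreeOfNeBot`. -/
def Sf_ALG : Prop :=
  ∀ A B : ℤ, Case A B →
    (∀ x y : OO A B, emb (x * y) = emb x * emb y ∧ emb (x + y) = emb x + emb y ∧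
      nm (x * y) = nm x * nm y) ∧
    (∀ x : OO A B, (emb x = 0 ↔ x = 0) ∧ ((nm x : ℤ) : ℝ) = ‖emb x‖ ^ 2 ∧
      x * star x = ((nm x : ℤ) : OO A B) ∧ emb (star x) = conj (emb x)) ∧
    (∀ n : ℤ, emb (n : OO A B) = n) ∧
    (∀ m : OO A B, m ≠ 0 → Finite (OO A B ⧸ Ideal.span {m})) ∧
    ppi A B * star (ppi A B) = 3 ∧ ¬ IsUnit (star (ppi A B))

/-- (SM) rules for `sumMod`.

USES ALG. PROOF. The quotient is finite, so all finsums are finite sums (`finsum_eq_sum_of_fintype`).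
Fourth: `m` divides `Quotient.out (mk x) - x` (`Quotient.out_eq`, `Ideal.Quotient.eq`,
`Ideal.mem_span_singleton`). -/
def Sf_SM : Prop :=
  ∀ (A B : ℤ), Case A B → ∀ m : OO A B, m ≠ 0 →
    (∀ (c : ℂ) (F : OO A B → ℂ), sumMod m (fun x => c * F x) = c * sumMod m F) ∧
    (∀ F G : OO A B → ℂ, sumMod m (fun x => F x + G x) = sumMod m F + sumMod m G) ∧
    (∀ (s : Finset ℕ) (F : ℕ → OO A B → ℂ),
      sumMod m (fun x => ∑ b ∈ s, F b x) = ∑ b ∈ s, sumMod m (F b)) ∧
    (∀ F : OO A B → ℂ, (∀ x y, m ∣ x - y → F x = F y) → ∀ x : OO A B,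
      F (Quotient.out (Ideal.Quotient.mk (Ideal.span {m}) x)) = F x) ∧
    ∀ F G : OO A B → ℂ, (∀ x, F x = G x) → sumMod m F = sumMod m G

/-- (BDD) a character is bounded. USES ALG. PROOF. `e` is periodic modulo `g ≠ 0` and `O/g` is finite, so `e`
takes only finitely many values. -/
def Sf_BDD : Prop :=
  ∀ (A B : ℤ), Case A B → ∀ (g : OO A B) (e : OO A B → ℂ), g ≠ 0 → IsEps g e →
    (Set.range e).Finite ∧ ∃ C : ℝ, 0 < C ∧ ∀ x, ‖e x‖ ≤ C

/-- (TSM) summability of the theta series in the upper half plane.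

USES ALG (and, if you like, `MU3B.St_SUM`, `MU3A.Sa_LAT0` as further hypotheses). PROOF. The norm of the term is
`‖e x‖ ‖emb x‖ exp(-2 π ‖emb x‖² im z)`, `‖emb x‖² = (re + B im/2)² + |D| im²/4 ≥ c (re² + im²)`. Compare with
`Σ 1/(1 + re²)(1 + im²)` or use `St_SUM` (`k = 1`, `R = 0`) for the lattice `emb O`
(`Sa_LAT0` with `Om = 1`, bijection `x ↦ emb x`). -/
def Sf_TSM : Prop :=
  ∀ (A B : ℤ), Case A B → ∀ (e : OO A B → ℂ) (C : ℝ), (∀ x, ‖e x‖ ≤ C) → ∀ z : ℂ, 0 < z.im →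
    Summable (fun x : OO A B => e x * conj (emb x) *
      Complex.exp (2 * Real.pi * Complex.I * (nm x : ℂ) * z))

/-- (DCM) a sum over `O` is a sum over the classes modulo `m`.

USES ALG. PROOF. `(q, w) ↦ Quotient.out q + m w` is a bijection from `(O/m) × O` onto `O` (`m ≠ 0` and `O` is
a domain: `emb` is injective and multiplicative). `Summable.tsum_prod'` or `tsum_prod`, and a `tsum` over a
finite type is a finite sum (`tsum_fintype`, `finsum_eq_sum_of_fintype`). -/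
def Sf_DCM : Prop :=
  ∀ (A B : ℤ), Case A B → ∀ m : OO A B, m ≠ 0 → ∀ G : OO A B → ℂ, Summable G →
    ∑' x, G x = sumMod m (fun x => ∑' w : OO A B, G (x + m * w))

/-- (THD) theta on a vertical line as a combination of lattice sums.

USES ALG, BDD, TSM, DCM. PROOF. `r = b/M`, `z = r + i t`. `exp(2 π i nm x z) = ex(b nm x/M) exp(-2 π nm x t)`. By DCM
with `m = g'` : `theta = 1/2 sumMod g' (x ↦ Σ_w e(x + g' w) conj(emb(x + g' w)) ..)`. `e(x + g' w) = e x` (`g ∣ g'`);
`nm(x + g' w) = nm x + M * integer` (`M ∣ g'`: `nm(x + y) = nm x + (x star y + star x y) + nm y`, and for `y = M v` this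
is `nm x` + `M (x star v + star x v)` + `M² nm v`; the middle number is an integer as it is fixed by `star`; or compute
with coordinates), so the factor `ex(b nm x/M)` is the same for all `w`. `emb(x + g' w) = (emb g'/Om) (z_x + Om emb w)`,
`z_x = Om emb x/emb g'`, and `nm(x + g' w) = ‖emb g'/Om‖² ‖z_x + Om emb w‖²`. Reindex `w ↦ Om emb w`, a bijection from
`O` onto `L.lattice`. -/
def Sf_THD : Prop :=
  ∀ (A B : ℤ), Case A B → ∀ (L : PeriodPair) (Om : ℂ), IsLat A B L Om →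
    ∀ (g g' : OO A B) (e : OO A B → ℂ), IsEps g e → g' ≠ 0 → g ∣ g' →
    ∀ (M : ℕ), 0 < M → (M : OO A B) ∣ g' → ∀ (b : ℤ) (t : ℝ), 0 < t →
      theta e (((b / M : ℚ) : ℂ) + t * Complex.I) = (1 / 2) * sumMod g' (fun x =>
        e x * ex (b * nm x / M) * (conj (emb g' / Om) * ∑' w : L.lattice,
          conj (Om * emb x / emb g' + w) *
            (Real.exp (-((2 * Real.pi * ‖emb g' / Om‖ ^ 2) * t *
              ‖Om * emb x / emb g' + w‖ ^ 2)) : ℝ)))

/-- (F4) the values of the symbol at all rational numbers, and integrability.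

USES ALG, SM, THD, `MU3B.St_INT`. PROOF. Integrate THD over `t` in `(0, oo)` with `St_INT`, `c = 2 π ‖emb g'/Om‖²`,
`z = Om emb x/emb g'`: a finite linear combination of integrable functions, and
`Int theta = 1/2 sumMod g' (e ex conj(emb g'/Om) ee L z/c)`, `conj(v)/‖v‖² = 1/v` for `v = emb g'/Om`. So
`Iv = -2 π/(4 π) (Om/emb g') sumMod ..`. -/
def Sf_F4 : Prop :=
  ∀ (A B : ℤ), Case A B → ∀ (L : PeriodPair) (Om : ℂ), IsLat A B L Om →
    ∀ (g g' : OO A B) (e : OO A B → ℂ), IsEps g e → g' ≠ 0 → g ∣ g' →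
    ∀ (M : ℕ), 0 < M → (M : OO A B) ∣ g' → ∀ b : ℤ,
      MeasureTheory.IntegrableOn
        (fun t : ℝ => theta e (((b / M : ℚ) : ℂ) + t * Complex.I)) (Set.Ioi 0) ∧
      Iv e (b / M : ℚ) = -(Om / (2 * emb g')) *
        sumMod g' (fun x => e x * ex (b * nm x / M) * ee L (Om * emb x / emb g'))

/-- (ITG) integrability on all vertical lines over rational numbers.

USES ALG, F4, `MU3A.Sa_LAT0`. PROOF. `r = b/M` with `b = r.num`, `M = r.den`, `g' = g M`, `Om = 1`. -/
def Sf_ITG : Prop :=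
  ∀ (A B : ℤ), Case A B → ∀ (g : OO A B) (e : OO A B → ℂ), g ≠ 0 → IsEps g e → ∀ r : ℚ,
    MeasureTheory.IntegrableOn (fun t : ℝ => theta e ((r : ℂ) + t * Complex.I)) (Set.Ioi 0)

open Classical in
/-- (F5) the sums `S_n(c)` are Fourier transforms of the values of the symbol.

USES ALG, SM, F4. PROOF. `m = f 3^(n+1)`, `g = f pibar` divides `m`, `M = 3^(n+1)` divides `m`. F4:
`Phi(oo, b/M) = -Iv(b/M) = (Om/(2 emb m)) sumMod m (e x ex(b nm x/M) ee L (Om emb x/emb m))`, `emb m = f M`. Multiply by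
`ex(-b c/M)`, sum over `b` and use `Σ_b ex(b (nm x - c)/M) = M` if `M ∣ nm x - c` and `0` otherwise: the sum is
`(Om/(2 f)) sumMod m ([M ∣ nm x - c] e x ee L ..)`. If `M ∣ nm x - c` then `3` does not divide `nm x`, so `x` is
coprime to `3` (`nm x = x star x`); if moreover `e x ≠ 0` then `x` is coprime to `f pibar`, so to `f`, and so to
`m`. So the condition `IsCoprime x m` may be added. -/
def Sf_F5 : Prop :=
  ∀ (A B : ℤ), Case A B → ∀ (L : PeriodPair) (Om : ℂ), IsLat A B L Om →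
    ∀ (f n : ℕ) (e : OO A B → ℂ), f ≠ 0 → IsEps ((f : OO A B) * star (ppi A B)) e →
    ∀ c : ℤ, ¬ (3 : ℤ) ∣ c →
      sumMod ((f * 3 ^ (n + 1) : ℕ) : OO A B) (fun x =>
        if IsCoprime x ((f * 3 ^ (n + 1) : ℕ) : OO A B) ∧ (3 : ℤ) ^ (n + 1) ∣ nm x - c then
          e x * ee L (emb x * (Om / emb ((f * 3 ^ (n + 1) : ℕ) : OO A B))) else 0) =
      (2 * f / Om) * ∑ b ∈ Finset.range (3 ^ (n + 1)),
        ex (-(b * c) / 3 ^ (n + 1)) * Phi e ∞ (((b / 3 ^ (n + 1) : ℚ) : ℚ) : OnePoint ℚ)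

/-- (PRD) theta has period 1. PROOF. Term by term: `exp(2 π i nm x) = 1` (no summability needed). -/
def Sf_PRD : Prop :=
  ∀ (A B : ℤ), Case A B → ∀ (e : OO A B → ℂ) (z : ℂ), theta e (z + 1) = theta e z

/-- (U3) the operator `U_3` on theta.

USES ALG, BDD, TSM. PROOF. `Σ_j exp(2 π i n (z + j)/3) = 3 exp(2 π i n z/3)` if `3 ∣ n` and `0` otherwise, so the left
side is `3/2 Σ_(3 ∣ nm x) e x conj(emb x) exp(2 π i (nm x/3) z)` (three summable families, `Summable.tsum_finsetSum` or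
`tsum_add`). If `3 ∣ nm x = x star x` and `e x ≠ 0` then `ppi ∣ x`: `x` is coprime to `g`, so to `star ppi`; `ppi`
divides `3`, so `ppi ∣ x star x`; `star (x)` is coprime to `ppi` (apply `star` to a Bezout relation), so `ppi ∣ x`
(`IsCoprime.dvd_of_dvd_mul_right`). The map `y ↦ ppi y` is injective with image `{x : ppi ∣ x}`,
`nm (ppi y) = 3 nm y`, `e (ppi y) = e ppi e y`; use `Function.Injective.tsum_eq` (the support is in the range). -/
def Sf_U3 : Prop :=
  ∀ (A B : ℤ), Case A B → ∀ (g : OO A B) (e : OO A B → ℂ), g ≠ 0 → IsEps g e →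
    star (ppi A B) ∣ g → ∀ z : ℂ, 0 < z.im →
    ∑ j ∈ Finset.range 3, theta e ((z + j) / 3) = 3 * (e (ppi A B) * conj (emb (ppi A B))) * theta e z

/-- (F3) the symbol is an eigensymbol of `U_3`.

USES ALG, U3, ITG. PROOF. `nuE e 3 = 0`: `e 3 = 0` because `star ppi` divides `3` and `g` and is not a unit. For a
rational number `r`: `Σ_j Iv((r + j)/3) = -2 π Int_0^oo Σ_j theta((r + j)/3 + i t) dt` (ITG), and with `t = t'/3`
(`MeasureTheory.integral_comp_mul_left_Ioi`) and U3 this is `-2 π Int_0^oo (1/3) 3 a theta(r + i t') dt' = a Iv r`,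
`a = e ppi conj(emb ppi)`. At infinity everything is 0. `Phi x y = Ic x - Ic y`. Unfold `mob 1 j 0 3` (on rational
`r` it is `(r + j)/3`, `∞ ↦ ∞`). -/
def Sf_F3 : Prop :=
  ∀ (A B : ℤ), Case A B → ∀ (g : OO A B) (e : OO A B → ℂ), g ≠ 0 → IsEps g e →
    star (ppi A B) ∣ g → nuE e 3 = 0 ∧ ∀ x y : OnePoint ℚ,
    hecke 3 (nuE e) (Phi e) x y = e (ppi A B) * conj (emb (ppi A B)) * Phi e x y

/-- (FG) the values of a symbol with finitely many `nu d` lie in a finitely generated group.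

PROOF. (1) For `h = (a b; c d)` of determinant 1 let `v(h) = P(a/c, b/d) = P(h oo, h 0)` (`mob a b c d ∞`,
`mob a b c d 0`). (2) Manin's trick: every `P x y` is a sum of finitely many `± v(h)`. By additivity (`P x x = 0`,
`P x y = - P y x`) it is enough to treat `P ∞ r`, `r` rational, by strong induction on the denominator `q` of
`r = p/q`. `q = 1`: `r = p = h 0` with `h = (1 p; 0 1)`, `h ∞ = ∞`. `q > 1`: choose integers `p', q'` with
`p' q - p q' = 1` and `0 < q' < q` (Bezout); `h = (p' p; q' q)`, `h ∞ = p'/q'`, `h 0 = p/q`, so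
`P ∞ (p/q) = P ∞ (p'/q') + v(h)`. (3) Finitely many values: if `h`, `h'` have the same bottom row modulo `N` then
`k = h' h⁻¹` has bottom left entry divisible by `N`, so `v(h') = nu(d_k) v(h)` (`mob` of a product of matrices of
determinant one is the composition, check on `∞` and `0` only). So all `v(h)` lie in the finite set of the
`nu(d) v(h_i)`, `h_i` one representative for each bottom row modulo `N`. (See also Pool/Agent/MuSym/Trick.lean.) -/
def Sf_FG : Prop :=
  ∀ (N : ℕ) (nu : ℤ → ℂ) (P : OnePoint ℚ → OnePoint ℚ → ℂ), N ≠ 0 → IsSym N nu P →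
    (Set.range nu).Finite → ∃ S : Finset ℂ, ∀ x y, P x y ∈ AddSubgroup.closure (S : Set ℂ)

/-- (F7) the values `Phi(x,y)` lie in a finitely generated group. USES BDD, FG. PROOF. `nuE e` has finitely many
values: `chiD` has values in `{0, 1, -1}` and `e` has finitely many values. -/
def Sf_F7 : Prop :=
  ∀ (A B : ℤ), Case A B → ∀ (g : OO A B) (e : OO A B → ℂ), g ≠ 0 → IsEps g e →
    ∀ N : ℕ, N ≠ 0 → IsSym N (nuE e) (Phi e) →
    ∃ S : Finset ℂ, ∀ x y, Phi e x y ∈ AddSubgroup.closure (S : Set ℂ)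

/-- (GSS) Gauss sums.

PROOF. `|D| = 8` (`A = -2`, `B = 0`): `ζ = exp(2 π i/8)`, `ζ⁴ = -1`, `tau = ζ + ζ³ - ζ⁵ - ζ⁷ = 2 ζ + 2 ζ³`,
`tau² = 4 (ζ² + 2 ζ⁴ + ζ⁶) = -8`. If `x = re + im w`, `w² = -2`, is coprime to `8` then `re` is odd (otherwise `w`
divides `x` and `8`), so `nm x = re² + 2 im²` is `1` or `3` modulo `8`, and `Σ chi(a) ζ^(a n) = tau` for
`n = 1` and `n = 3` (`ζ³ + ζ⁹ - ζ¹⁵ - ζ²¹`). `|D| = 11` (`A = -3`, `B = 1`): `chiD` is the quadratic character of
`ZMod 11` (`decide` on the 11 classes), `gaussSum_sq` gives `tau² = chi(-1) 11 = -11` (or compute the product with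
`ζ¹¹ = 1`, `1 + ζ + .. + ζ¹⁰ = 0`). If `x` is coprime to `11` then `nm x = re² + re im + 3 im²` is not divisible
by `11` (otherwise `δ = 2 w - 1`, `δ² = -11`, divides `x`: `4 nm x = (2 re + im)² + 11 im²`, so `11 ∣ 2 re + im`, and
`2 x = (2 re + im) + im δ`, so `δ ∣ 2 x`, `δ ∣ x`), and it is a nonzero square modulo `11`. So multiplication of
the summation variable by `nm x` (a permutation of the nonzero classes) gives `Σ chi(a) ζ^(a nm x) = chi(nm x) tau = tau`. -/
def Sf_GSS : Prop :=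
  ∀ (A B : ℤ), Case A B → tauD A B ^ 2 = -((absD A B : ℤ) : ℂ) ∧
    (∀ a : ℤ, chiD A B (-a) = -chiD A B a) ∧ (∀ a : ℤ, chiD A B (a + absD A B) = chiD A B a) ∧
    ∀ x : OO A B, IsCoprime x ((absD A B : ℤ) : OO A B) →
      ∑ a ∈ Finset.range (absD A B).toNat,
        (chiD A B a : ℂ) * ex (a * nm x / (absD A B : ℚ)) = tauD A B

/-- (TWD) the twist of theta by `chi_D` is theta.

USES ALG, BDD, TSM, GSS. PROOF. The left side is
`1/2 Σ_x e x conj(emb x) exp(2 π i nm x z) Σ_a chi(a) ex(a nm x/|D|)` (finitely many summable families). If `e x ≠ 0` then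
`x` is coprime to `g`, so to `|D|`, and the inner sum is `tauD` by GSS. -/
def Sf_TWD : Prop :=
  ∀ (A B : ℤ), Case A B → ∀ (g : OO A B) (e : OO A B → ℂ), g ≠ 0 → IsEps g e →
    ((absD A B : ℤ) : OO A B) ∣ g → ∀ z : ℂ, 0 < z.im →
    ∑ a ∈ Finset.range (absD A B).toNat,
      (chiD A B a : ℂ) * theta e (z + (a / (absD A B : ℚ) : ℚ)) = tauD A B * theta e z

/-- (F8) the twist of the two parts of the symbol.

USES PRD, ITG, GSS, TWD. PROOF. For rational `r`: `Σ_a chi(a) Iv(r + a/|D|) = tau Iv r` (ITG, TWD), so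
`Σ_a chi(a) Phi(x + a/|D|, y + a/|D|) = tau Phi(x, y)` (at infinity everything is 0) for all cusps `x, y`. For the
second part: `-(r + a/|D|) = (-r) + (|D| - a)/|D| - 1`, `Iv (r - 1) = Iv r` (PRD), `chi(a) = -chi(|D| - a)` (GSS),
`chi(0) = 0`; so `Σ_a chi(a) Iv(-(r + a/|D|)) = -Σ_a' chi(a') Iv(-r + a'/|D|) = -tau Iv(-r)`
(`Finset.sum_range_reflect` or `Finset.sum_bij`). Unfold `mob |D| a 0 |D|` (on `r` it is `r + a/|D|`) and `sgnPart`. -/
def Sf_F8 : Prop :=
  ∀ (A B : ℤ), Case A B → ∀ (g : OO A B) (e : OO A B → ℂ), g ≠ 0 → IsEps g e →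
    ((absD A B : ℤ) : OO A B) ∣ g → ∀ (s : ℂ) (x y : OnePoint ℚ),
    ∑ a ∈ Finset.range (absD A B).toNat, (chiD A B a : ℂ) * sgnPart s (Phi e)
      (mob (absD A B) a 0 (absD A B) x) (mob (absD A B) a 0 (absD A B) y) =
    tauD A B * sgnPart (-s) (Phi e) x y

end

end Pool.Agent.MU3F
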