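import Pool.Agent.MU3.StG
import Pool.Agent.MU3.ADefs

/-!
# MU3, block G (helper36): Theorem G, final statement

`St_GFIN` is the input of block H (helper1).
-/

set_option autoImplicit false

namespace Pool.Agent.MU3G

open MU3 Pool.Agent.MU3A Pool.Agent.MuSym OnePoint NumberField

noncomputable section

/-- (GTH) Theorem G for an abstract field `H` with the data `IsGD`, `κ = -1`.

Uses G0-G7 (all proved: `G_G0.lean` ..., `t_G6c`, `t_G7`, `t_G4`, `t_G3`, `t_G2`), `St_WQ` (`StQ.lean`), `main_A2` (`A2Main.lean`), `Sa_EQN` (the equation of the curve) or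
`IsCM` and `derivWeierstrassP_sq`. PROOF. Suppose `Phi e ∞ (h ∞)/Om ∈ V.nonunits` for all `h` in `Γ₁(N')`. G6c (`kap = -1`) gives `c`, `d`; let `Z = ZZ io Γ al eH (-1) c d`,
`b_n = bb Γ eH al c (aH j eH) n`, `h n = j d * (b_n / n)`: `h 0 = 0` (`x / 0 = 0`), `io (h 1) ∉ V.nonunits` (`b_1 = Σ s(c a_1)(..)⁻¹` with `a_1 = 1` (G2) is the sum of G6c;
`io (j d)` is a unit of `V` as `¬ π ∣ d`). G7: `Z τ = Σ z_n q^n`, `z_n = io(h n)/emb(-π)`. G3, G4 with `W = V.comap io` (`b_n ∈ W`: `c`, `a_n` and the inverses in G6b are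
integral, integral elements are in `V` (G6a)): `h n - (if 3 ∣ n then (j (-π))⁻¹ * s0 (h (n/3)) else 0) ∈ W`. `K` = the subfield generated by `io(H)` and `exp(2πi/N')`: a
number field. `St_WQ` for `K`, `V`, `N'`, `L`, `c0 = -emb a2/3`, `a2, a4, a6` of the curve (`xx = ℘ - emb a2/3`, `yy = ℘'/2`): expansions of `Z(γ τ)`: hypothesis `hex` and finite sums; periods
under `Γ₁(N')`: G6c, `Om * emb x ∈ L.lattice` (for `γ ∈ Gamma1 N'`: `γ = (a b; c' d')`, `N' ∣ c'`, `N' ∣ d' - 1`). It gives `S`, `P := A`, `Q := B`, `A ≠ 0`; `main_A2` gives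
`A = 0`: contradiction. -/
def St_GTH : Prop :=
  ∀ (A B : ℤ) (_ : Case A B) (L : PeriodPair) (Om : ℂ) (_ : IsCM A B L Om)
    (V : ValuationSubring ℂ) (g : OO A B) (_ : g ≠ 0) (H : Type) [Field H]
    [NumberField H] (io : H →+* ℂ) (j : OO A B →+* H) (Γ : Subgroup (H ≃+* H)) [Finite Γ]
    (al : Γ → OO A B) (eH : OO A B → H) (s0 : Γ)
    (_ : IsGD V g io j Γ al eH s0 (-1)) (N' : ℕ) (_ : N' ≠ 0)
    (_ : ∀ d : ℤ, (N' : ℤ) ∣ d - 1 → chiD A B d = 1 ∧ g ∣ (d : OO A B) - 1)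
    (PhiH : OnePoint ℚ → OnePoint ℚ → H)
    (_ : ∀ (s : Γ) (x y : OnePoint ℚ), Phi (fun z => io (s.1 (eH z))) x y =
      Om * io (s.1 (eH (al s)) * s.1 (PhiH x y)))
    (_ : IsSym N' (nuE fun x => io (eH x)) (Phi fun x => io (eH x)))
    (_ : ∀ (s : Γ) (a b c d : ℤ), a * d - b * c = 1 → (N' : ℤ) ∣ c → ∀ τ : ℂ, 0 < τ.im →
      thetaInt (fun z => io (s.1 (eH z))) ((a * τ + b) / (c * τ + d)) =
        nuE (fun z => io (s.1 (eH z))) d * thetaInt (fun z => io (s.1 (eH z))) τ +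
          Phi (fun z => io (s.1 (eH z))) ∞ (mob a b c d ∞))
    (_ : ∀ (s : Γ) (a b c d : ℤ), a * d - b * c = 1 → ∃ (C : ℂ) (w : ℕ → ℂ), ∀ τ : ℂ,
      0 < τ.im → HasSum (fun n : ℕ => w n *
        Complex.exp (2 * Real.pi * Complex.I * τ / N') ^ (n + 1))
        (thetaInt (fun z => io (s.1 (eH z))) ((a * τ + b) / (c * τ + d)) - C)),
    ∃ a b c d : ℤ, a * d - b * c = 1 ∧ (N' : ℤ) ∣ c ∧ (N' : ℤ) ∣ d - 1 ∧
      Phi (fun x => io (eH x)) ∞ (mob a b c d ∞) / Om ∉ V.nonunits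

/-- (GFIN) THEOREM G. For every multiple `N'` of `N = |D| (3f)²` there is `h = (a b; c d)` in `Γ₁(N')` such that
`Phi ∞ (h ∞) / Om` is not in the maximal ideal of `V`.

PROOF: section 6 of PAPER.md; glue of helper36 from G0-G7, `St_WQ` (helper58), A2 (helper77), FT
(helper40), F6 and HP (helper41). -/
def St_GFIN : Prop :=
  ∀ (A B : ℤ) (_ : Case A B) (L : PeriodPair) (Om : ℂ) (_ : IsCM A B L Om)
    (V : ValuationSubring ℂ) (_ : emb (ppi A B) ∈ V.nonunits) (f : ℕ) (_ : f ≠ 0) (_ : ¬ 3 ∣ f)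
    (_ : 2 * absD A B ∣ (f : ℤ)) (e : OO A B → ℂ)
    (_ : IsEps ((f : OO A B) * star (ppi A B)) e) (r : ℕ) (_ : ¬ 3 ∣ r)
    (_ : ∀ x, e x ≠ 0 → e x ^ r = 1) (N' : ℕ) (_ : N' ≠ 0)
    (_ : absD A B * (3 * f) ^ 2 ∣ (N' : ℤ)),
    ∃ a b c d : ℤ, a * d - b * c = 1 ∧ (N' : ℤ) ∣ c ∧ (N' : ℤ) ∣ d - 1 ∧
      Phi e ∞ (mob a b c d ∞) / Om ∉ V.nonunits

end

end Pool.Agent.MU3G
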