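import Pool.Agent.MU3.StA2
import Pool.Agent.MU3.StG2
import Pool.Agent.MU3.StFH

/-!
# MU3, block F6 (helper36): rationality of the modular symbol of theta, and the data of Theorem G

`k = kk A B`, `F_m = TF L m`, `g` the conductor of `e`. A module proves `theorem t_X : St_X`.
-/

set_option autoImplicit false

namespace Pool.Agent.MU3G

open MU3 Pool.Agent.MU3A Pool.Agent.MU3B Pool.Agent.MU3F Pool.Agent.MuSym OnePoint NumberField

noncomputable section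

/-- (F6E) algebraicity of `e` (`ee L`) at the torsion points, and the Galois action.

Uses St_TRA, St_HAL, St_TIN (proof), St_PER, St_NEQ (all in `BAll.lean`), Sa_NRM, Sa_GAL, Sa_ACT, Sa_EQN. The proof is parallel to `Sw_THG` (`StV2.lean`). PROOF. `n = nm m ≠ 0`, `b = 1 + 2 n`, an odd
integer `≥ 3`, prime to `m`, `b z ≡ z` modulo `L` (`n z ∈ L` as `m ∣ n`). `Hs` a half system for `b` (HAL; `b` is odd). (TRA):
`(b - b²) ee z = Σ_(q ∈ Hs) ℘' z/(℘ z - ℘ q) = Σ_q 2 yy z/(xx z - xx q)` (`xx z ≠ xx q`: else `z ≡ ± q` (NEQ), `b z ∈ L`, `z ∈ L`). `F₁ = TF L (m b)` is finite Galois over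
`k` and contains all terms; `TF L m ≤ F₁`. Let `σ' : F₁ → ℂ` with `Act σ' (m b) a'`: then
`σ'((b - b²) ee z) = Σ_q 2 yy(a' z)/(xx(a' z) - xx(a' q))`. The set `{a' q}` is again a half system for `b` (`a'` is prime to `b`; see the proof of `Sw_THG`), and the summand
depends only on the class of `± q` modulo `L`; so the sum is the same as the sum over `q ∈ Hs` (bijection as in (TIN)), which is `(b - b²) ee(a' z)` by (TRA) for `a' z`
(`a' z ∉ L`, `(b - 1) a' z ∈ L`). So `σ'(ee z) = ee(a' z)`. If `σ' ∈ Gal(F₁/TF L m)`, then `m ∣ a' - 1` (ACT (3), (1)), `a' z ≡ z`, `ee(a' z) = ee z` (PER): `ee z` is fixed by `Gal(F₁/TF L m)`, so it is in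
`TF L m`. An embedding `σ` of `TF L m` with `Act σ m a` extends to `σ'` on `F₁`, `m ∣ a' - a`, `ee(a' z) = ee(a z)`. -/
def St_F6E : Prop :=
  ∀ (A B : ℤ) (_ : Case A B) (L : PeriodPair) (Om : ℂ) (_ : IsCM A B L Om) (m : OO A B)
    (_ : m ≠ 0) (z : ℂ) (_ : emb m * z ∈ L.lattice) (_ : z ∉ L.lattice),
    ∃ hz : ee L z ∈ TF L m, ∀ (σ : TF L m →ₐ[kk A B] ℂ) (a : OO A B), Act L σ m a →
      σ ⟨ee L z, hz⟩ = ee L (emb a * z)

/-- (F6M) the same for bigger fields, with the roots of unity.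

Uses F6E, Sa_CYC, Sa_ACT. PROOF. `TF L m ≤ F`. `σ : F → ℂ` restricts to `TF L m` (ACT (8): `Act` of the restriction), F6E. Roots of unity: CYC for `M`: `TF L M ≤ TF L m ≤ F`
(`M ∣ m`, generators), `Act σ M a` (ACT (3)), `σ ζ = ζ^(nm a)`, `ζ = ex (c/M)` (`ζ^M = 1`): `ex(c nm a/M)`. -/
def St_F6M : Prop :=
  ∀ (A B : ℤ) (_ : Case A B) (L : PeriodPair) (Om : ℂ) (_ : IsCM A B L Om) (m : OO A B)
    (_ : m ≠ 0) (F : IntermediateField (kk A B) ℂ) (_ : TF L m ≤ F),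
    (∀ z : ℂ, emb m * z ∈ L.lattice → z ∉ L.lattice → ∃ hz : ee L z ∈ F,
      ∀ (σ : F →ₐ[kk A B] ℂ) (a : OO A B), Act L σ m a → σ ⟨ee L z, hz⟩ = ee L (emb a * z)) ∧
    ∀ (M : ℕ) (_ : 0 < M) (_ : (M : OO A B) ∣ m) (c : ℤ), ∃ hz : ex (c / M : ℚ) ∈ F,
      ∀ (σ : F →ₐ[kk A B] ℂ) (a : OO A B), Act L σ m a → σ ⟨_, hz⟩ = ex (c * nm a / M : ℚ)

/-- (F6C) rationality for the cusps `∞`, `b/M`.

Uses F6M, Sf_F4, Sf_SM, Sf_ALG, Sa_GAL, Sa_ACT, Sa_NRM. PROOF. `g' = g M`. `F = H ⊔ TF L g'`: finite Galois over `k` (compositum; every embedding maps `F` to itself). (F4)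
`v := Phi e ∞ (b/M)/Om = -Iv e (b/M)/Om = 1/(2 emb g') sumMod g' (e x ex(b nm x/M) ee L (Om emb x/emb g'))`. If `e x ≠ 0` then `x` is prime to `g`, not a unit, so `¬ g' ∣ x` and
`z_x = Om emb x/emb g' = emb x (Om/emb g')` is in `E[g']`, not in `L`; so all terms are in `F` (`e x ∈ H`). Let `τ : F ≃ₐ[k] F` (or an embedding), `Act (em τ) g' a` (GAL), `e'(x) = τ(e x)`:
`τ v = 1/(2 emb g') sumMod g' (e' x ex(b nm x nm a/M) ee L (emb a z_x))`. `e'` also satisfies `IsEps g e'`. `e' x = (e' a)⁻¹ e'(a x)` (`e' a ≠ 0`, `a` is prime to `g'`, so to `g`), `emb a z_x = z_(a x)`, `nm x nm a = nm(a x)`,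
and `x ↦ a x` is a bijection of the classes modulo `g'` (periodicity of the summand modulo `g'`: `g ∣ g'`, `nm` modulo `M`, (PER)), so
`τ v = (e' a)⁻¹ Phi e' ∞ (b/M)/Om`. (i) If `τ` is trivial on `H`: `e' = e`, and `Act (em τ) g 1` (it is trivial on `TF L g ≤ H`) and `Act (em τ) g a`, so `g ∣ a - 1` (ACT (1) for `F`), `e a = 1`,
`τ v = v`. So `v ∈ H` (Galois correspondence for `F/k`). (ii) `σ : H ≃ₐ[k] H` with `Act (em σ) g a₀`: extend to `τ` of `F` (normal); `Act (em τ) g' a`, `g ∣ a - a₀`, so `e' a = e' a₀`, `e'` = `σ ∘ e`, `τ v = σ v`. -/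
def St_F6C : Prop :=
  ∀ (A B : ℤ) (_ : Case A B) (L : PeriodPair) (Om : ℂ) (_ : IsCM A B L Om) (g : OO A B)
    (_ : g ≠ 0) (_ : ¬ IsUnit g) (e : OO A B → ℂ) (_ : IsEps g e)
    (H : IntermediateField (kk A B) ℂ) [FiniteDimensional (kk A B) H] [IsGalois (kk A B) H]
    (_ : TF L g ≤ H) (he : ∀ z, e z ∈ H) (M : ℕ) (_ : 0 < M) (b : ℤ),
    ∃ hv : Phi e ∞ ((b / M : ℚ) : OnePoint ℚ) / Om ∈ H, ∀ (σ : H ≃ₐ[kk A B] H) (a : OO A B),
      Act L (em σ) g a → Phi (fun z => ((σ ⟨e z, he z⟩ : H) : ℂ)) ∞ ((b / M : ℚ) : OnePoint ℚ) =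
        Om * (((σ ⟨e a, he a⟩ : H) : ℂ) * ((σ ⟨_, hv⟩ : H) : ℂ))

/-- (F6) rationality of the symbol.

Uses F6C. PROOF. `Phi e x y = Phi e ∞ y - Phi e ∞ x` (`Phi e x y = Ic e x - Ic e y`, `Ic e ∞ = 0`), `Phi e ∞ ∞ = 0`, every rational number is `b/M`. Linear in the values. -/
def St_F6 : Prop :=
  ∀ (A B : ℤ) (_ : Case A B) (L : PeriodPair) (Om : ℂ) (_ : IsCM A B L Om) (g : OO A B)
    (_ : g ≠ 0) (_ : ¬ IsUnit g) (e : OO A B → ℂ) (_ : IsEps g e)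
    (H : IntermediateField (kk A B) ℂ) [FiniteDimensional (kk A B) H] [IsGalois (kk A B) H]
    (_ : TF L g ≤ H) (he : ∀ z, e z ∈ H) (x y : OnePoint ℚ),
    ∃ hv : Phi e x y / Om ∈ H, ∀ (σ : H ≃ₐ[kk A B] H) (a : OO A B),
      Act L (em σ) g a → Phi (fun z => ((σ ⟨e z, he z⟩ : H) : ℂ)) x y =
        Om * (((σ ⟨e a, he a⟩ : H) : ℂ) * ((σ ⟨_, hv⟩ : H) : ℂ))

/-- (HP) the field `H = k(E[g], ζ_r)`, `g = f π̄`, unramified at `V` (helper34).

PROOF. `H` = the field generated over `k` by `TF L g` and `ζ_r`: finite Galois (NRM). `inert`: let `s` be trivial modulo `V`; it acts on `E[g]` by some `a` (GAL), `xx(a z) ≡ xx z`, `yy(a z) ≡ yy z` for `z` in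
`E[g]` (integral by T3: `g` is prime to `π`), so `a z - z` is in the kernel of reduction (`Sw_DIF` of `StV2.lean`) and in `E[g]`, so in `L` (T3): `s` is trivial on `TF L g`; `s ζ_r = ζ_r^i ≡ ζ_r`, so `s ζ_r = ζ_r`
(`3 ∤ r`). `unr`: the inertia group of the prime `P = {x ∈ 𝓞 H : x ∈ V.nonunits}` over `k` is trivial, so `P` is unramified over `π` (`Se_RAM` of helper66, `StE.lean`), so `y/emb π ∈ V` for `y ∈ V.nonunits`
(`t_G6a` (ii)). Frobenius: there is `s0` with `s0 x ≡ x³` modulo `P` (`FEX`, `IsArithFrobAt.exists_of_isInvariant`; the residue field of `k` at `π` has 3 elements), for all `x ∈ H ∩ V` by G6a (ii); it acts on `E[g]` as `a`, and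
by FR3 `xx(a z) ≡ (xx z)³ ≡ xx(-π z)`, `yy(a z) ≡ yy(-π z)`, so `a z + π z ∈ L`. -/
def St_HP : Prop :=
  ∀ (A B : ℤ) (_ : Case A B) (L : PeriodPair) (Om : ℂ) (_ : IsCM A B L Om)
    (V : ValuationSubring ℂ) (_ : emb (ppi A B) ∈ V.nonunits) (f : ℕ) (_ : f ≠ 0) (_ : ¬ 3 ∣ f)
    (r : ℕ) (_ : ¬ 3 ∣ r),
    ∃ H : IntermediateField (kk A B) ℂ, FiniteDimensional (kk A B) H ∧ IsGalois (kk A B) H ∧
      TF L ((f : OO A B) * star (ppi A B)) ≤ H ∧ (∀ z : ℂ, z ^ r = 1 → z ∈ H) ∧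
      (∀ y : H, (y : ℂ) ∈ V.nonunits → (y : ℂ) / emb (ppi A B) ∈ V) ∧
      (∀ s : H ≃ₐ[kk A B] H, (∀ x : H, (x : ℂ) ∈ V → ((s x : H) : ℂ) - x ∈ V.nonunits) → s = 1) ∧
      ∃ s0 : H ≃ₐ[kk A B] H, (∀ x : H, (x : ℂ) ∈ V → ((s0 x : H) : ℂ) - (x : ℂ) ^ 3 ∈ V.nonunits) ∧
        Act L (em s0) ((f : OO A B) * star (ppi A B)) (-ppi A B)

/-- (FT) the analytic input (helper40): transformation laws of `thetaInt`, `N = |D| (3f)²`.

PROOF: block FT of helper40. -/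
def St_FT : Prop :=
  ∀ (A B : ℤ) (_ : Case A B) (f : ℕ) (_ : f ≠ 0) (_ : ¬ 3 ∣ f) (_ : 2 * absD A B ∣ (f : ℤ))
    (e : OO A B → ℂ) (_ : IsEps ((f : OO A B) * star (ppi A B)) e) (N' : ℕ) (_ : N' ≠ 0)
    (_ : absD A B * (3 * f) ^ 2 ∣ (N' : ℤ)),
    IsSym N' (nuE e) (Phi e) ∧
    (∀ a b c d : ℤ, a * d - b * c = 1 → (N' : ℤ) ∣ c → ∀ τ : ℂ, 0 < τ.im →
      thetaInt e ((a * τ + b) / (c * τ + d)) =
        nuE e d * thetaInt e τ + Phi e ∞ (mob a b c d ∞)) ∧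
    ∀ a b c d : ℤ, a * d - b * c = 1 → ∃ (C : ℂ) (w : ℕ → ℂ), ∀ τ : ℂ, 0 < τ.im →
      HasSum (fun n : ℕ => w n * Complex.exp (2 * Real.pi * Complex.I * τ / N') ^ (n + 1))
        (thetaInt e ((a * τ + b) / (c * τ + d)) - C)

/-- (GFINP) Theorem G from its parts.

Uses GTH, HP, F6, FT, Sa_GAL, Sa_ACT, Sa_INT, G0. PROOF. `g = f π̄`, `g ≠ 0`, not a unit. `H'` from HP for `r` (`r ≠ 0` as `3 ∤ r`), `H := ↥H'` (a number field: `k` is finite over `ℚ` (INT)), `io = H'.val`,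
`j x = ⟨emb x, _⟩` (`emb_mem`, ring homomorphism by `embHom`), `Γ` = the range of `(H' ≃ₐ[k] H') →* (H' ≃+* H')`, finite. For `s ∈ Γ` choose the automorphism and `al s` with `Act L (em s) g (al s)` (GAL), for `s0` from HP
choose `al s0` arbitrary as well: `g ∣ al s0 + π` by ACT (1). `al_mul`: ACT (4), (1). `al_cop`: `Act`. `eH x = ⟨e x, _⟩` (`e x` is 0 or an `r`-th root of unity). `gal`: an element of `H'` fixed by `Γ` is in `k`, and
`k = {emb x/emb z}` (INT: `s + t w` with rational `s, t`). `fix`, `unr`, `frob`, `inert`, `eps`: clear (`HP`). `PhiH x y = ⟨Phi e x y/Om, _⟩` (F6). For `s ∈ Γ` the function `e_s = io ∘ s ∘ eH` satisfies `IsEps g e_s`, so FT applies to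
it. `N'`-hypothesis of GTH: `N' ∣ d - 1`, `|D| ∣ N'` gives `chiD d = 1` (`|D|` is 8 or 11), and `g ∣ f * 3 ∣ N'`. GTH gives the result. -/
def St_GFINP : Prop := St_GTH → St_HP → St_F6 → St_FT → St_GFIN

end

end Pool.Agent.MU3G
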