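import Pool.Agent.MU3.StFT

set_option autoImplicit false

namespace Pool.Agent.MU3T

open MU3 Pool.Agent.MU3F Pool.Agent.MuSym OnePoint Filter Topology
open scoped ComplexConjugate

theorem tu_CHI : Su_CHI := by
  intro A B hc g e he
  refine ⟨?_, ?_, ?_⟩
  · have h1 : chiD A B 1 = 1 := by
      rcases hc with ⟨rfl, rfl⟩ | ⟨rfl, rfl⟩ <;> norm_num [chiD]
    unfold nuE
    rw [h1, Int.cast_one, Int.cast_one, he.one, one_mul]
  · have h1 : chiD A B (-1) = -1 := by
      rcases hc with ⟨rfl, rfl⟩ | ⟨rfl, rfl⟩ <;> norm_num [chiD]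
    unfold nuE
    rw [h1, Int.cast_neg, Int.cast_neg, Int.cast_one, Int.cast_one, he.neg]
    norm_num
  · intro G hG d d' hd
    have h1 : chiD A B d = chiD A B d' := by
      have h2 : absD A B ∣ d - d' := dvd_trans (dvd_mul_right _ _) hd
      rcases hc with ⟨rfl, rfl⟩ | ⟨rfl, rfl⟩
      · have h3 : (8 : ℤ) ∣ d - d' := by simpa [absD] using h2
        have h4 : d % 8 = d' % 8 := by omega
        unfold chiD
        rw [h4]
        simp
      · have h3 : (11 : ℤ) ∣ d - d' := by simpa [absD] using h2
        have h4 : d % 11 = d' % 11 := by omega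
        unfold chiD
        rw [h4]
        simp
    have h5 : (G : ℤ) ∣ d - d' :=
      dvd_trans (dvd_trans (dvd_pow_self (G : ℤ) two_ne_zero) (dvd_mul_left _ _)) hd
    have h6 : e (d : OO A B) = e (d' : OO A B) := by
      apply he.per
      obtain ⟨k, hk⟩ := h5
      have h7 : ((d : OO A B) - (d' : OO A B)) = (G : OO A B) * (k : OO A B) := by
        rw [← Int.cast_sub, hk]
        push_cast
        ring
      rw [h7]
      exact dvd_mul_of_dvd_left hG _
    unfold nuE
    rw [h1, h6]

end Pool.Agent.MU3T
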