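import Pool.Agent.MU3.StFT
import Pool.Agent.MU3.F_TSM

/-!
# MU3, block FT: summability and derivatives (DIF)
-/

set_option autoImplicit false

namespace Pool.Agent.MU3T

open MU3 Pool.Agent.MU3F Pool.Agent.MuSym OnePoint Filter Topology
open scoped ComplexConjugate

noncomputable section

namespace Dif

variable {A B : ℤ}

theorem norm_ex (n : ℤ) (z : ℂ) : ‖Complex.exp (2 * Real.pi * Complex.I * (n : ℂ) * z)‖ =
    Real.exp (-(2 * Real.pi * (n : ℝ) * z.im)) := by
  rw [Complex.norm_exp]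
  congr 1
  have h5 : (2 * Real.pi * Complex.I * (n : ℂ) * z) =
      ((2 * Real.pi * (n : ℝ) : ℝ) : ℂ) * (Complex.I * z) := by
    push_cast; ring
  rw [h5, Complex.re_ofReal_mul]
  simp

/-- the bound -/
def bb (A B : ℤ) (C r : ℝ) (y : OO A B) : ℝ :=
  ‖(C : ℂ) * conj (emb y) * Complex.exp (2 * Real.pi * Complex.I * (nm y : ℂ) * (r * Complex.I))‖

theorem bb_sum (h : Case A B) {C r : ℝ} (hr : 0 < r) : Summable (bb A B C r) := by
  have h1 := tf_TSM A B h (fun _ => (C : ℂ)) ‖(C : ℂ)‖ (fun _ => le_rfl) (r * Complex.I) (by simpa using hr)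
  exact h1.norm

theorem tm_le (h : Case A B) {W : OO A B → ℂ} {C r : ℝ} (hC : 0 ≤ C) (hW : ∀ x, ‖W x‖ ≤ C) (y : OO A B) {z : ℂ}
    (hz : r ≤ z.im) : ‖tm W z y‖ ≤ bb A B C r y := by
  have h0 : (0 : ℝ) ≤ (nm y : ℝ) := by exact_mod_cast MU3G.G0.nm_nonneg h y
  unfold tm bb
  rw [norm_mul, norm_mul, norm_mul, norm_mul, norm_ex, norm_ex, Complex.norm_real, Real.norm_of_nonneg hC]
  refine mul_le_mul (mul_le_mul_of_nonneg_right (hW y) (norm_nonneg _)) ?_ (Real.exp_pos _).le (by positivity)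
  refine Real.exp_le_exp.2 (neg_le_neg ?_)
  have h1 : (r * Complex.I : ℂ).im = r := by simp
  rw [h1]
  exact mul_le_mul_of_nonneg_left hz (by positivity)

theorem tI_le (h : Case A B) (W : OO A B → ℂ) (y : OO A B) (z : ℂ) : ‖tI W z y‖ ≤ ‖tm W z y‖ := by
  unfold tI tm
  rw [norm_mul, norm_mul (W y * conj (emb y)), norm_div]
  refine mul_le_mul_of_nonneg_right ?_ (norm_nonneg _)
  by_cases hy : y = 0
  · subst hy
    simp [emb]
  · have h1 : (1 : ℝ) ≤ ‖(nm y : ℂ)‖ := by
      rw [Complex.norm_intCast]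
      have h2 := MU3G.G0.nm_pos h hy
      have h3 : (1 : ℝ) ≤ (nm y : ℝ) := by exact_mod_cast h2
      exact h3.trans (le_abs_self _)
    exact div_le_self (norm_nonneg _) h1

theorem nm_ne (h : Case A B) {y : OO A B} (hy : y ≠ 0) : (nm y : ℂ) ≠ 0 := by
  have h2 := MU3G.G0.nm_pos h hy
  exact_mod_cast h2.ne'

theorem tI_der (h : Case A B) (W : OO A B → ℂ) (y : OO A B) (z : ℂ) :
    HasDerivAt (fun z => tI W z y) (2 * Real.pi * Complex.I * tm W z y) z := by
  have h1 : HasDerivAt (fun z : ℂ => Complex.exp (2 * Real.pi * Complex.I * (nm y : ℂ) * z))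
      (Complex.exp (2 * Real.pi * Complex.I * (nm y : ℂ) * z) * (2 * Real.pi * Complex.I * (nm y : ℂ) * 1)) z :=
    ((hasDerivAt_id z).const_mul _).cexp
  have h2 := h1.const_mul (W y * conj (emb y) / (nm y : ℂ))
  refine h2.congr_deriv ?_
  unfold tm
  by_cases hy : y = 0
  · subst hy
    simp [emb]
  · have := nm_ne h hy
    field_simp

theorem tm_diff (W : OO A B → ℂ) (y : OO A B) : Differentiable ℂ fun z => tm W z y := by
  unfold tm
  fun_prop

end Dif

open Dif in
theorem tu_DIF : Su_DIF := by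
  intro A B h W hW
  obtain ⟨C₀, hC₀⟩ := hW
  have hC : 0 ≤ C₀ := le_trans (norm_nonneg _) (hC₀ 0)
  have hopen : ∀ r : ℝ, IsOpen {z : ℂ | r < z.im} := fun r => isOpen_lt continuous_const Complex.continuous_im
  refine ⟨?_, ?_, ?_⟩
  · intro z hz
    have h1 := bb_sum (C := C₀) h hz
    exact ⟨Summable.of_norm_bounded h1 fun y => tm_le h hC hC₀ y le_rfl,
      Summable.of_norm_bounded h1 fun y => (tI_le h W y z).trans (tm_le h hC hC₀ y le_rfl)⟩
  · intro z hz
    have h1 : DifferentiableOn ℂ (fun z => ∑' y, tm W z y) {w : ℂ | z.im / 2 < w.im} :=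
      Complex.differentiableOn_tsum_of_summable_norm (bb_sum (C := C₀) h (half_pos hz))
        (fun y => (tm_diff W y).differentiableOn) (hopen _)
        (fun y w hw => tm_le h hC hC₀ y (le_of_lt hw))
    exact h1.differentiableAt ((hopen _).mem_nhds (half_lt_self hz))
  · intro z hz
    have hz' : z ∈ {w : ℂ | z.im / 2 < w.im} := half_lt_self hz
    have hb : ∀ (y : OO A B) (w : ℂ), w ∈ {w : ℂ | z.im / 2 < w.im} → ‖tI W w y‖ ≤ bb A B C₀ (z.im / 2) y :=
      fun y w hw => (tI_le h W y w).trans (tm_le h hC hC₀ y (le_of_lt hw))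
    have hd : ∀ y : OO A B, DifferentiableOn ℂ (fun z => tI W z y) {w : ℂ | z.im / 2 < w.im} :=
      fun y w _ => (tI_der h W y w).differentiableAt.differentiableWithinAt
    have h1 := Complex.differentiableOn_tsum_of_summable_norm (bb_sum (C := C₀) h (half_pos hz)) hd (hopen _) hb
    have h2 := Complex.hasSum_deriv_of_summable_norm (bb_sum (C := C₀) h (half_pos hz)) hd (hopen _) hb hz'
    have h3 := (h1.differentiableAt ((hopen _).mem_nhds hz')).hasDerivAt
    have h4 : deriv (fun w => ∑' y, tI W w y) z = 2 * Real.pi * Complex.I * ∑' y, tm W z y := by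
      rw [← h2.tsum_eq, ← tsum_mul_left]
      exact tsum_congr fun y => (tI_der h W y z).deriv
    rw [← h4]
    exact h3

end

end Pool.Agent.MU3T
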