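import Pool.Agent.MU3.StFT
import Pool.Agent.MU3.F_ALG
import Pool.Agent.MU3.F_BDD

/-!
# MU3, block FT: module EXI, expansion of the primitive at all cusps
-/

set_option autoImplicit false

namespace Pool.Agent.MU3T

open MU3 Pool.Agent.MU3F Pool.Agent.MuSym OnePoint Filter Topology
open scoped ComplexConjugate

theorem exi_isOpen : IsOpen {z : ℂ | 0 < z.im} := isOpen_lt continuous_const Complex.continuous_im

theorem exi_conn : IsPreconnected {z : ℂ | 0 < z.im} :=
  (convex_halfSpace_im_gt 0).isPreconnected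

theorem tu_EXI (hDIF : Su_DIF) (hVAN : Su_VAN) (hMBF : Su_MBF) (hEXP : Su_EXP) (hCUS : Su_CUS) :
    Su_EXI := by
  intro A B hc g e hg he G hG hgG a b c d hdet
  obtain ⟨M, W, hM, hMN, ⟨C0, hC0⟩, hth⟩ := hEXP A B hc g e hg he G hG hgG a b c d hdet
  obtain ⟨-, Ce, -, hCe⟩ := tf_BDD tf_ALG A B hc g e hg he
  have hbe : Bd e := ⟨Ce, hCe⟩
  have hMc : (M : ℂ) ≠ 0 := by exact_mod_cast hM.ne'
  have hMr : (0 : ℝ) < M := by exact_mod_cast hM
  have hbW : Bd (fun y : OO A B => (M : ℂ) * W y) := by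
    refine ⟨M * C0, fun y => ?_⟩
    rw [norm_mul, Complex.norm_natCast]
    exact mul_le_mul_of_nonneg_left (hC0 y) hMr.le
  have him : ∀ z : ℂ, (z / M).im = z.im / M := fun z => Complex.div_natCast_im z M
  -- the derivative of the primitive
  have hP : ∀ z : ℂ, 0 < z.im →
      HasDerivAt (fun z : ℂ => ∑' y, tI (fun y : OO A B => (M : ℂ) * W y) (z / M) y)
        (2 * Real.pi * Complex.I * ∑' y, tm W (z / M) y) z := by
    intro z hz
    have h1 := (hDIF A B hc _ hbW).2.2 (z / M) (by rw [him]; positivity)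
    have h2 : HasDerivAt (fun z : ℂ => z / M) (1 / M) z := (hasDerivAt_id' z).div_const _
    have h3 := HasDerivAt.comp z h1 h2
    refine h3.congr_deriv ?_
    have h4 : ∀ y : OO A B, tm (fun y : OO A B => (M : ℂ) * W y) (z / M) y =
        (M : ℂ) * tm W (z / M) y := by
      intro y
      unfold tm
      ring
    rw [tsum_congr h4, tsum_mul_left]
    field_simp
  have hT : ∀ z : ℂ, 0 < z.im →
      HasDerivAt (fun z : ℂ => thetaInt e z) (2 * Real.pi * Complex.I * theta e z) z := by
    intro z hz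
    have h1 := ((hDIF A B hc e hbe).2.2 z hz).const_mul (1 / 2)
    refine h1.congr_deriv ?_
    unfold theta tm
    ring
  have hF : ∀ z : ℂ, 0 < z.im →
      HasDerivAt (fun z : ℂ => thetaInt e (((a : ℂ) * z + b) / ((c : ℂ) * z + d)))
        (2 * Real.pi * Complex.I * ∑' y, tm W (z / M) y) z := by
    intro z hz
    obtain ⟨k1, k2, k3⟩ := hMBF a b c d hdet z hz
    have h1 := HasDerivAt.comp (h₂ := fun z : ℂ => thetaInt e z) z (hT _ k2) k3
    refine h1.congr_deriv ?_
    rw [hth z hz]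
    field_simp
  -- the difference is constant
  set D : ℂ → ℂ := fun z => thetaInt e (((a : ℂ) * z + b) / ((c : ℂ) * z + d)) -
    ∑' y, tI (fun y : OO A B => (M : ℂ) * W y) (z / M) y with hD
  have hDd : ∀ z : ℂ, 0 < z.im → HasDerivAt D 0 z := by
    intro z hz
    refine ((hF z hz).sub (hP z hz)).congr_deriv (sub_self _)
  have hI : (0 : ℝ) < Complex.I.im := by norm_num
  have hconst : ∀ z : ℂ, 0 < z.im → D z = D Complex.I := by
    intro z hz
    refine exi_isOpen.is_const_of_deriv_eq_zero exi_conn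
      (fun w hw => (hDd w hw).differentiableAt.differentiableWithinAt)
      (fun w hw => (hDd w hw).deriv) hz hI
  have hC : D Complex.I = Phi e ∞ (mob a b c d ∞) := by
    refine hCUS A B hc g e hg he a b c d hdet _ fun ε hε => ?_
    obtain ⟨R, hR, hR2⟩ := hVAN A B hc _ hbW ε hε
    refine ⟨R * M, fun z hz hz0 => ?_⟩
    rw [← hconst z hz0, hD]
    simp only [sub_sub_cancel]
    refine hR2 (z / M) ?_
    rw [him, le_div_iff₀ hMr]
    exact hz
  refine ⟨M, fun y => (M : ℂ) * W y, hM, hMN, hbW, fun z hz => ?_⟩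
  have h1 := hconst z hz
  rw [hC, hD] at h1
  simp only at h1
  rw [← h1]
  ring

end Pool.Agent.MU3T
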