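import Pool.Agent.MU3.StFT

/-!
# MU3, block FT: the result from its parts
-/

set_option autoImplicit false

namespace Pool.Agent.MU3T

open MU3 Pool.Agent.MU3F Pool.Agent.MuSym OnePoint Filter Topology
open scoped ComplexConjugate

noncomputable section

theorem tu_FT (hREG : Su_REG) (hEXI : Su_EXI) (hQPE : Su_QPE) (hSYM : Su_SYM) : Su_FT := by
  intro A B h g e hg he G hG hgG N hN hGN
  refine ⟨hSYM A B h g e hg he G hG hgG N hN hGN, ?_, ?_⟩
  · intro a b c d hdet hc τ hτ
    exact hQPE A B h g e hg he G hG hgG a b c d hdet (dvd_trans hGN hc) τ hτ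
  · intro a b c d hdet
    obtain ⟨M, W, -, hMd, hW, hex⟩ := hEXI A B h g e hg he G hG hgG a b c d hdet
    have hMN : M ∣ N := by
      have h1 : (M : ℤ) ∣ (N : ℤ) := dvd_trans hMd hGN
      exact_mod_cast h1
    obtain ⟨w, hw⟩ := hREG A B h W hW M N hN hMN
    refine ⟨w, fun τ hτ => ?_⟩
    rw [hex τ hτ, add_sub_cancel_left]
    exact hw τ hτ

end

end Pool.Agent.MU3T
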