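import Pool.Agent.MU3.StFT

/-!
# MU3, block FT: fractional linear maps (MBF)
-/

set_option autoImplicit false

namespace Pool.Agent.MU3T

noncomputable section

theorem tu_MBF : Su_MBF := by
  intro a b c d hdet z hz
  have hdet' : (a : ℂ) * d - b * c = 1 := by exact_mod_cast hdet
  have hne : (c : ℂ) * z + d ≠ 0 := by
    intro h
    have h1 := congrArg Complex.im h
    simp only [Complex.add_im, Complex.mul_im, Complex.intCast_re, Complex.intCast_im, zero_mul,
      add_zero, Complex.zero_im] at h1
    have h2 : (c : ℝ) = 0 := by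
      rcases mul_eq_zero.1 h1 with h3 | h3
      · exact h3
      · exact absurd h3 hz.ne'
    have h3 : c = 0 := by exact_mod_cast h2
    subst h3
    have h4 : (d : ℂ) = 0 := by simpa using h
    have h5 : d = 0 := by exact_mod_cast h4
    subst h5
    simp at hdet
  refine ⟨hne, ?_, ?_⟩
  · have hpos : 0 < Complex.normSq ((c : ℂ) * z + d) := Complex.normSq_pos.2 hne
    have hdetR : (a : ℝ) * d - b * c = 1 := by exact_mod_cast hdet
    have e : (((a : ℂ) * z + b) / ((c : ℂ) * z + d)).im = z.im / Complex.normSq ((c : ℂ) * z + d) := by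
      rw [Complex.div_im, ← sub_div]
      congr 1
      simp only [Complex.add_im, Complex.add_re, Complex.mul_im, Complex.mul_re, Complex.intCast_re,
        Complex.intCast_im, zero_mul, add_zero, sub_zero]
      linear_combination z.im * hdetR
    rw [e]
    exact div_pos hz hpos
  · have h1 : HasDerivAt (fun z : ℂ => (a : ℂ) * z + b) (a : ℂ) z := by
      simpa using ((hasDerivAt_id z).const_mul (a : ℂ)).add_const (b : ℂ)
    have h2 : HasDerivAt (fun z : ℂ => (c : ℂ) * z + d) (c : ℂ) z := by
      simpa using ((hasDerivAt_id z).const_mul (c : ℂ)).add_const (d : ℂ)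
    have h3 := h1.div h2 hne
    refine h3.congr_deriv ?_
    congr 1
    linear_combination hdet'

end

end Pool.Agent.MU3T
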