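import Pool.Agent.MU3.StFT
import Pool.Agent.MU3.F_PRD

/-!
# MU3, block FT: module MOD (helper37)
-/

set_option autoImplicit false

namespace Pool.Agent.MU3T

open MU3 Pool.Agent.MU3F Pool.Agent.MuSym OnePoint Filter Topology
open scoped ComplexConjugate

theorem period_int {A B : ℤ} (h : Case A B) (e : OO A B → ℂ) (z : ℂ) (k : ℤ) :
    theta e (z + k) = theta e z := by
  have h1 := tf_PRD A B h e
  induction k using Int.induction_on with
  | zero => simp
  | succ i ih =>
    have := h1 (z + (i : ℤ))
    rw [ih] at this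
    rw [← this]
    congr 1
    push_cast
    ring
  | pred i ih =>
    have := h1 (z + ((-(i : ℤ) - 1 : ℤ) : ℂ))
    rw [← this, ← ih]
    congr 1
    push_cast
    ring

theorem tu_MOD (hMOP : Su_MOP) (hCHI : Su_CHI) (_hMBF : Su_MBF) : Su_MOD := by
  intro A B hC g e hg he G hG hgG a b c d hdet hNc z hz
  obtain ⟨hn1, hn2, hn3⟩ := hCHI A B hC g e he
  by_cases hc : c = 0
  · subst hc
    have had : a * d = 1 := by linarith
    rcases Int.mul_eq_one_iff_eq_one_or_neg_one.1 had with ⟨rfl, rfl⟩ | ⟨rfl, rfl⟩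
    · rw [hn1]
      have e1 : (((1 : ℤ) : ℂ) * z + b) / (((0 : ℤ) : ℂ) * z + ((1 : ℤ) : ℂ)) = z + b := by
        push_cast
        simp
      rw [e1, period_int hC]
      push_cast
      ring
    · rw [hn2]
      have e1 : (((-1 : ℤ) : ℂ) * z + b) / (((0 : ℤ) : ℂ) * z + ((-1 : ℤ) : ℂ)) =
          z + ((-b : ℤ) : ℂ) := by
        push_cast
        rw [zero_mul, zero_add, div_neg, div_one]
        ring
      rw [e1, period_int hC]
      push_cast
      ring
  · have hD : 0 < absD A B := by
      rcases hC with ⟨rfl, rfl⟩ | ⟨rfl, rfl⟩ <;> norm_num [absD]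
    have hcop : IsCoprime d ((c.natAbs : ℕ) : ℤ) := by
      rw [Int.natCast_natAbs]
      have h1 : IsCoprime d c := ⟨a, -b, by linarith⟩
      rcases abs_choice c with h | h
      · rw [h]
        exact h1
      · rw [h]
        exact h1.neg_right
    obtain ⟨p, hp1, hp2, hp3⟩ := Nat.forall_exists_prime_gt_and_zmodEq (2 * absD A B).natAbs
      (Int.natAbs_ne_zero.2 hc) hcop
    have hpd : c ∣ (p : ℤ) - d := by
      have h1 := hp3.symm.dvd
      rw [Int.natCast_natAbs] at h1
      exact (abs_dvd _ _).1 h1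
    obtain ⟨k, hk⟩ := hpd
    have hpp : (p : ℤ) = d + k * c := by linarith
    have hnd : ¬ (p : ℤ) ∣ 2 * absD A B := by
      intro hdvd
      have h1 := Int.le_of_dvd (by linarith) hdvd
      omega
    have hz' : 0 < (z - k).im := by
      rw [Complex.sub_im, Complex.intCast_im, sub_zero]
      exact hz
    have h := hMOP A B hC g e hg he G hG hgG a (b + k * a) c p hp2 hnd
      (by rw [hpp]; linarith) hNc (z - k) hz'
    have hpC : (p : ℂ) = (d : ℂ) + k * c := by exact_mod_cast congrArg (fun x : ℤ => (x : ℂ)) hpp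
    have e1 : (a : ℂ) * (z - k) + ((b + k * a : ℤ) : ℂ) = a * z + b := by
      push_cast
      ring
    have e2 : (c : ℂ) * (z - k) + (p : ℂ) = c * z + d := by
      rw [hpC]
      ring
    have e3 : theta e (z - k) = theta e z := by
      have := period_int hC e (z - k) k
      rw [sub_add_cancel] at this
      exact this.symm
    have e4 : nuE e (p : ℤ) = nuE e d := hn3 G hgG p d (by
      rw [hk]
      exact Dvd.dvd.mul_right hNc k)
    rw [e1, e2, e3, e4] at h
    exact h

end Pool.Agent.MU3T
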