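import Pool.Agent.MU3.StFT
import Pool.Agent.MU3.B_LAT
import Pool.Agent.MU3.B_SUM
import Pool.Agent.MU3.B_POI
import Pool.Agent.MU3.B_POD
import Pool.Agent.MU3.F_ALG

/-!
# MU3, block FT, module PO0 (helper95): Poisson summation on the imaginary axis
-/

set_option autoImplicit false

namespace Pool.Agent.MU3T

open MU3 Pool.Agent.MU3A Pool.Agent.MU3B Pool.Agent.MU3F
open scoped ComplexConjugate

noncomputable section

namespace PO0

variable {A B : ℤ}

/-- the lattice `emb O` -/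
theorem lat (h : Case A B) : ∃ L : PeriodPair, L.ω₁ = 1 ∧ L.ω₂ = wC A B := by
  have hind : LinearIndependent ℝ ![(1 : ℂ), wC A B] := by
    rw [LinearIndependent.pair_iff]
    intro s t hst
    rw [Complex.real_smul, Complex.real_smul, mul_one] at hst
    have h3 := congrArg Complex.im hst
    simp only [Complex.add_im, Complex.ofReal_im, Complex.mul_im, Complex.ofReal_re, zero_mul,
      add_zero, zero_add, Complex.zero_im] at h3
    have h4 : t = 0 := (mul_eq_zero.1 h3).resolve_right (wC_im_pos h).ne'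
    rw [h4] at hst
    simp only [Complex.ofReal_zero, zero_mul, add_zero] at hst
    exact ⟨by exact_mod_cast hst, h4⟩
  exact ⟨⟨1, wC A B, hind⟩, rfl, rfl⟩

theorem mem {L : PeriodPair} (h1 : L.ω₁ = 1) (h2 : L.ω₂ = wC A B) (z : ℂ) :
    z ∈ L.lattice ↔ ∃ x : OO A B, emb x = z := by
  rw [PeriodPair.mem_lattice, h1, h2]
  constructor
  · rintro ⟨m, n, hz⟩
    exact ⟨⟨m, n⟩, by rw [← hz]; simp only [emb]; ring⟩
  · rintro ⟨x, hz⟩
    exact ⟨x.re, x.im, by rw [← hz]; simp only [emb]; ring⟩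

/-- `O` and the lattice -/
def eq {L : PeriodPair} (h : Case A B) (h1 : L.ω₁ = 1) (h2 : L.ω₂ = wC A B) :
    OO A B ≃ L.lattice :=
  Equiv.ofBijective (fun x => ⟨emb x, (mem h1 h2 _).2 ⟨x, rfl⟩⟩)
    ⟨fun x y hxy => emb_inj h (congrArg Subtype.val hxy), fun z => by
      obtain ⟨x, hx⟩ := (mem h1 h2 _).1 z.2
      exact ⟨x, Subtype.ext hx⟩⟩

theorem wim : (wC A B).im = Real.sqrt (absD A B) / 2 := by
  simp [wC, Complex.add_im, Complex.mul_im]

theorem area_eq {L : PeriodPair} (h : Case A B) (h1 : L.ω₁ = 1) (h2 : L.ω₂ = wC A B) :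
    area L = (wC A B).im := by
  unfold area
  rw [h1, h2, map_one, one_mul, abs_of_pos (wC_im_pos h)]

theorem area_sq {L : PeriodPair} (h : Case A B) (h1 : L.ω₁ = 1) (h2 : L.ω₂ = wC A B) :
    area L ^ 2 = (absD A B : ℝ) / 4 := by
  have h3 : (0 : ℝ) ≤ (absD A B : ℝ) := by exact_mod_cast (absD_pos h).le
  rw [area_eq h h1 h2, wim, div_pow, Real.sq_sqrt h3]
  norm_num

theorem emb_im (x : OO A B) : (emb x).im = x.im * (wC A B).im := by
  simp only [emb, Complex.add_im, Complex.mul_im, Complex.intCast_im, Complex.intCast_re,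
    zero_mul, add_zero, zero_add]

theorem pr_eq {L : PeriodPair} (h : Case A B) (h1 : L.ω₁ = 1) (h2 : L.ω₂ = wC A B) (m : ℕ)
    (x0 y : OO A B) : pr L (emb y) (emb x0 / m) = ex ((x0 * star y).im / m) := by
  unfold pr ex
  have ha : area L ≠ 0 := by
    rw [area_eq h h1 h2]
    exact (wC_im_pos h).ne'
  have h3 : conj (emb y) * (emb x0 / m) - emb y * conj (emb x0 / m) =
      2 * ((area L * ((x0 * star y).im : ℝ) : ℝ) : ℂ) * Complex.I / m := by
    rw [map_div₀, Complex.conj_natCast]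
    have h4 : conj (emb y) * emb x0 = emb (x0 * star y) := by
      rw [emb_mul h, AlgF.emb_star, mul_comm]
    have h5 : emb y * conj (emb x0) = conj (emb (x0 * star y)) := by
      rw [← h4, map_mul, Complex.conj_conj]
    have h6 : conj (emb y) * (emb x0 / m) - emb y * (conj (emb x0) / m) =
        (emb (x0 * star y) - conj (emb (x0 * star y))) / m := by
      rw [← h5, ← h4]
      ring
    rw [h6, Complex.sub_conj, emb_im, area_eq h h1 h2]
    push_cast
    ring
  rw [h3]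
  congr 1
  have ha' : ((area L : ℝ) : ℂ) ≠ 0 := by exact_mod_cast ha
  push_cast
  field_simp

end PO0

open PO0

theorem tu_PO0 : Su_PO0 := by
  intro A B h m hm x0 t ht
  obtain ⟨L, h1, h2⟩ := lat h
  have hPOD : St_POD := t_POD t_SUM t_LAT (t_POI t_LAT)
  have ha : 0 < area L := by
    rw [area_eq h h1 h2]
    exact wC_im_pos h
  have ha2 := area_sq h h1 h2
  have hm0 : (0 : ℝ) < m := by exact_mod_cast hm
  have hD : (0 : ℝ) < (absD A B : ℝ) := by exact_mod_cast absD_pos h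
  set t' : ℝ := 1 / (2 * m ^ 2 * area L * t) with ht'
  have ht'0 : 0 < t' := by positivity
  have key := hPOD L t' ht'0 (emb x0 / m)
  rw [← (eq h h1 h2).tsum_eq, ← (eq h h1 h2).tsum_eq] at key
  have ev : ∀ x : OO A B, ((eq h h1 h2 x : L.lattice) : ℂ) = emb x := fun x => rfl
  simp only [ev] at key
  have hmC : (m : ℂ) ≠ 0 := by exact_mod_cast hm.ne'
  have e1 : ∀ w : OO A B, conj (emb x0 / m + emb w) *
      ((Real.exp (-(Real.pi * ‖emb x0 / (m : ℂ) + emb w‖ ^ 2 / (area L * t'))) : ℝ) : ℂ) =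
      (1 / (m : ℂ)) * (conj (emb (x0 + (m : OO A B) * w)) *
      ((Real.exp (-(2 * Real.pi * (nm (x0 + (m : OO A B) * w) : ℝ) * t)) : ℝ) : ℂ)) := by
    intro w
    have e2 : emb x0 / (m : ℂ) + emb w = emb (x0 + (m : OO A B) * w) / m := by
      rw [emb_add h, emb_mul h, emb_natCast h]
      field_simp
    rw [e2, map_div₀, Complex.conj_natCast, norm_div, div_pow, ← AlgF.norm_sq h,
      Complex.norm_natCast]
    have e3 : Real.pi * ((nm (x0 + (m : OO A B) * w) : ℝ) / (m : ℝ) ^ 2) / (area L * t') =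
        2 * Real.pi * (nm (x0 + (m : OO A B) * w) : ℝ) * t := by
      rw [ht']
      field_simp
    rw [e3]
    ring
  have e4 : ∀ y : OO A B, conj (emb y) * pr L (emb y) (emb x0 / m) *
      ((Real.exp (-(Real.pi * t' * ‖emb y‖ ^ 2 / area L)) : ℝ) : ℂ) =
      ex ((x0 * star y).im / m) * conj (emb y) *
        (Real.exp (-(2 * Real.pi * (nm y : ℝ) / ((m : ℝ) ^ 2 * (absD A B : ℝ) * t))) : ℝ) := by
    intro y
    rw [pr_eq h h1 h2, ← AlgF.norm_sq h]
    have e5 : Real.pi * t' * (nm y : ℝ) / area L =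
        2 * Real.pi * (nm y : ℝ) / ((m : ℝ) ^ 2 * (absD A B : ℝ) * t) := by
      have e6 : (absD A B : ℝ) = 4 * area L ^ 2 := by rw [ha2]; ring
      rw [ht', e6]
      field_simp
      ring
    rw [e5]
    ring
  simp only [e1, e4] at key
  rw [tsum_mul_left] at key
  have e7 : (t' : ℂ) ^ 2 * m = 1 / ((m : ℂ) ^ 3 * (absD A B : ℂ) * (t : ℂ) ^ 2) := by
    have e6 : (absD A B : ℝ) = 4 * area L ^ 2 := by rw [ha2]; ring
    have e8 : t' ^ 2 * m = 1 / ((m : ℝ) ^ 3 * (absD A B : ℝ) * t ^ 2) := by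
      rw [ht', e6]
      field_simp
      ring
    exact_mod_cast e8
  rw [← e7]
  have e9 := congrArg (fun z : ℂ => (m : ℂ) * z) key
  rw [← mul_assoc, mul_one_div_cancel hmC, one_mul] at e9
  rw [e9]
  ring

end

end Pool.Agent.MU3T
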