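import Pool.Agent.MU3.StFT

/-!
# MU3, block FT, module POI: Poisson summation in the upper half plane
-/

set_option autoImplicit false

namespace Pool.Agent.MU3T

open MU3 Pool.Agent.MU3F Pool.Agent.MuSym OnePoint Filter Topology
open scoped ComplexConjugate

noncomputable section

namespace POI

theorem norm_ex (r : ℚ) : ‖ex r‖ = 1 := by
  unfold ex
  have h : 2 * (Real.pi : ℂ) * Complex.I * (r : ℂ) = ((2 * Real.pi * (r : ℝ) : ℝ) : ℂ) * Complex.I := by
    push_cast; ring
  rw [h, Complex.norm_exp_ofReal_mul_I]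

theorem inj {A B : ℤ} (x0 : OO A B) {m : ℕ} (hm : 0 < m) :
    Function.Injective (fun w : OO A B => x0 + (m : OO A B) * w) := by
  intro w w' h
  have h1 : (m : OO A B) * w = (m : OO A B) * w' := add_left_cancel h
  rw [← nsmul_eq_mul, ← nsmul_eq_mul] at h1
  have hm' : (m : ℤ) ≠ 0 := by exact_mod_cast hm.ne'
  have h2 := congrArg QuadraticAlgebra.re h1
  have h3 := congrArg QuadraticAlgebra.im h1
  rw [QuadraticAlgebra.re_smul, QuadraticAlgebra.re_smul, nsmul_eq_mul, nsmul_eq_mul] at h2
  rw [QuadraticAlgebra.im_smul, QuadraticAlgebra.im_smul, nsmul_eq_mul, nsmul_eq_mul] at h3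
  ext
  · exact mul_left_cancel₀ hm' h2
  · exact mul_left_cancel₀ hm' h3

theorem absD_pos {A B : ℤ} (h : Case A B) : (0 : ℝ) < (absD A B : ℝ) := by
  rcases h with ⟨rfl, rfl⟩ | ⟨rfl, rfl⟩ <;> norm_num [absD]

theorem im_pos {c : ℝ} (hc : 0 < c) {z : ℂ} (hz : 0 < z.im) : 0 < (-1 / ((c : ℂ) * z)).im := by
  have h1 : -1 / ((c : ℂ) * z) = -((c : ℂ) * z)⁻¹ := by rw [neg_div, one_div]
  have h2 : ((c : ℂ) * z).im = c * z.im := by simp
  have h3 : (c : ℂ) * z ≠ 0 := by
    intro h
    have := congrArg Complex.im h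
    rw [h2] at this
    simp at this
    rcases this with h4 | h4 <;> linarith
  rw [h1, Complex.neg_im, Complex.inv_im, neg_div, neg_neg, h2]
  exact div_pos (mul_pos hc hz) (Complex.normSq_pos.2 h3)

end POI

open POI in
/-- Poisson summation in the upper half plane. -/
theorem tu_POI (hDIF : Su_DIF) (hPO0 : Su_PO0) : Su_POI := by
  classical
  intro A B hC m hm x0
  have hD := absD_pos hC
  have hmR : (0 : ℝ) < (m : ℝ) := by exact_mod_cast hm
  set c : ℝ := (m : ℝ) ^ 2 * (absD A B : ℝ) with hc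
  have hc0 : 0 < c := by positivity
  have hcC : (c : ℂ) = (m : ℂ) ^ 2 * (absD A B : ℂ) := by rw [hc]; push_cast; ring
  -- the weights
  set j : OO A B → OO A B := fun w => x0 + (m : OO A B) * w with hj
  have hji : Function.Injective j := inj x0 hm
  set W1 : OO A B → ℂ := fun x => if x ∈ Set.range j then 1 else 0 with hW1
  set W2 : OO A B → ℂ := fun y => ex ((x0 * star y).im / m) with hW2
  have hB1 : Bd W1 := ⟨1, fun x => by rw [hW1]; dsimp only; split_ifs <;> simp⟩
  have hB2 : Bd W2 := ⟨1, fun x => by rw [hW2]; dsimp only; rw [norm_ex]⟩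
  obtain ⟨-, hd1, -⟩ := hDIF A B hC W1 hB1
  obtain ⟨-, hd2, -⟩ := hDIF A B hC W2 hB2
  set U : Set ℂ := {z : ℂ | 0 < z.im} with hU
  have hUo : IsOpen U := isOpen_lt continuous_const Complex.continuous_im
  have hUc : IsPreconnected U := (convex_halfSpace_im_gt 0).isPreconnected
  set f : ℂ → ℂ := fun z => ∑' y, tm W1 z y with hf
  set g : ℂ → ℂ := fun z => 1 / ((m : ℂ) ^ 3 * (absD A B : ℂ) * z ^ 2) *
      ∑' y : OO A B, tm W2 (-1 / ((c : ℂ) * z)) y with hg
  have hne : ∀ z ∈ U, z ≠ 0 := by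
    intro z hz h
    rw [h] at hz
    simp [hU] at hz
  have hfA : AnalyticOnNhd ℂ f U :=
    (DifferentiableOn.analyticOnNhd (fun z hz => (hd1 z hz).differentiableWithinAt) hUo)
  have hmC : (m : ℂ) ≠ 0 := by exact_mod_cast hm.ne'
  have hDC : (absD A B : ℂ) ≠ 0 := by
    have : ((absD A B : ℝ) : ℂ) ≠ 0 := by exact_mod_cast hD.ne'
    simpa using this
  have hcC0 : (c : ℂ) ≠ 0 := by exact_mod_cast hc0.ne'
  have hgA : AnalyticOnNhd ℂ g U := by
    refine DifferentiableOn.analyticOnNhd (fun z hz => ?_) hUo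
    apply DifferentiableAt.differentiableWithinAt
    have hz0 := hne z hz
    refine DifferentiableAt.mul ?_ ?_
    · refine DifferentiableAt.div (by fun_prop) (by fun_prop) ?_
      exact mul_ne_zero (mul_ne_zero (pow_ne_zero _ hmC) hDC) (pow_ne_zero _ hz0)
    · have h1 : DifferentiableAt ℂ (fun z : ℂ => -1 / ((c : ℂ) * z)) z :=
        DifferentiableAt.div (by fun_prop) (by fun_prop) (mul_ne_zero hcC0 hz0)
      exact DifferentiableAt.comp z (hd2 _ (im_pos hc0 hz)) h1
  -- the left side
  have hfe : ∀ z : ℂ, f z = ∑' w : OO A B, conj (emb (x0 + (m : OO A B) * w)) *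
      Complex.exp (2 * Real.pi * Complex.I * (nm (x0 + (m : OO A B) * w) : ℂ) * z) := by
    intro z
    have hs : Function.support (tm W1 z) ⊆ Set.range j := by
      intro x hx
      by_contra hx'
      apply hx
      simp only [tm, hW1, if_neg hx', zero_mul]
    rw [hf]
    dsimp only
    rw [← hji.tsum_eq hs]
    refine tsum_congr fun w => ?_
    have : j w ∈ Set.range j := ⟨w, rfl⟩
    simp only [tm, hW1, if_pos this, one_mul]
    rfl
  -- equality on the imaginary axis
  have himag : ∀ t : ℝ, 0 < t → f ((t : ℂ) * Complex.I) = g ((t : ℂ) * Complex.I) := by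
    intro t ht
    have htC : (t : ℂ) ≠ 0 := by exact_mod_cast ht.ne'
    have hI2 : Complex.I ^ 2 = -1 := Complex.I_sq
    have h0 := hPO0 A B hC m hm x0 t ht
    rw [hfe, hg]
    dsimp only
    have hl : ∀ w : OO A B, conj (emb (x0 + (m : OO A B) * w)) *
        Complex.exp (2 * Real.pi * Complex.I * (nm (x0 + (m : OO A B) * w) : ℂ) *
          ((t : ℂ) * Complex.I)) = conj (emb (x0 + (m : OO A B) * w)) *
        (Real.exp (-(2 * Real.pi * (nm (x0 + (m : OO A B) * w) : ℝ) * t)) : ℝ) := by
      intro w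
      congr 1
      rw [Complex.ofReal_exp]
      congr 1
      push_cast
      linear_combination (2 * (Real.pi : ℂ) * (nm (x0 + (m : OO A B) * w) : ℂ) * t) * hI2
    have hr : ∀ y : OO A B, tm W2 (-1 / ((c : ℂ) * ((t : ℂ) * Complex.I))) y =
        ex ((x0 * star y).im / m) * conj (emb y) *
        (Real.exp (-(2 * Real.pi * (nm y : ℝ) / ((m : ℝ) ^ 2 * (absD A B : ℝ) * t))) : ℝ) := by
      intro y
      unfold tm
      congr 1
      rw [Complex.ofReal_exp]
      congr 1
      have h1 : -1 / ((c : ℂ) * ((t : ℂ) * Complex.I)) = Complex.I / ((c : ℂ) * t) := by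
        rw [div_eq_div_iff (mul_ne_zero hcC0 (mul_ne_zero htC Complex.I_ne_zero))
          (mul_ne_zero hcC0 htC)]
        linear_combination (-(c : ℂ) * t) * hI2
      rw [h1, ← hc]
      push_cast
      rw [mul_div_assoc', ← neg_div]
      congr 1
      linear_combination (2 * (Real.pi : ℂ) * (nm y : ℂ)) * hI2
    rw [tsum_congr hl, tsum_congr hr, h0]
    congr 1
    rw [mul_pow, hI2]
    rw [← div_neg, mul_assoc, mul_assoc]
    congr 1
    ring
  have hfreq : ∃ᶠ z in 𝓝[≠] Complex.I, f z = g z := by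
    have ht : Tendsto (fun t : ℝ => (t : ℂ) * Complex.I) (𝓝[≠] 1) (𝓝[≠] Complex.I) := by
      refine tendsto_nhdsWithin_of_tendsto_nhds_of_eventually_within _ ?_ ?_
      · have h1 : ContinuousAt (fun t : ℝ => (t : ℂ) * Complex.I) 1 := by fun_prop
        have h2 := h1.tendsto
        simp only [Complex.ofReal_one, one_mul] at h2
        exact h2.mono_left nhdsWithin_le_nhds
      · filter_upwards [self_mem_nhdsWithin] with t ht
        intro h
        apply ht
        have h1 : ((t : ℂ) - 1) * Complex.I = 0 := by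
          rw [sub_mul, one_mul]
          exact sub_eq_zero.2 h
        rcases mul_eq_zero.1 h1 with h2 | h2
        · have h3 : (t : ℂ) = 1 := sub_eq_zero.1 h2
          exact_mod_cast h3
        · exact absurd h2 Complex.I_ne_zero
    refine ht.frequently (Eventually.frequently ?_)
    have h1 : ∀ᶠ t : ℝ in 𝓝[≠] 1, 0 < t :=
      nhdsWithin_le_nhds (lt_mem_nhds (by norm_num : (0 : ℝ) < 1))
    filter_upwards [h1] with t ht
    exact himag t ht
  have hIU : Complex.I ∈ U := by simp [hU]
  have hmain := hfA.eqOn_of_preconnected_of_frequently_eq hgA hUc hIU hfreq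
  intro z hz
  have h1 := hmain (x := z) hz
  rw [hfe, hg] at h1
  dsimp only at h1
  rw [h1, hcC]

end

end Pool.Agent.MU3T
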