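import Pool.Agent.MU3.StFT
import Pool.Agent.MU3.F_ALG
import Pool.Agent.MU3.F_BDD

/-!
# Module MU3T_QPE
-/

set_option autoImplicit false

namespace Pool.Agent.MU3T

open MU3 Pool.Agent.MU3F Pool.Agent.MuSym OnePoint Filter Topology
open scoped ComplexConjugate

namespace QPEaux

theorem bd_e {A B : ℤ} (hc : Case A B) {g : OO A B} {e : OO A B → ℂ} (hg : g ≠ 0)
    (he : IsEps g e) : Bd e := by
  obtain ⟨-, C, -, hC⟩ := tf_BDD tf_ALG A B hc g e hg he
  exact ⟨C, hC⟩

theorem thetaInt_eq {A B : ℤ} (e : OO A B → ℂ) (z : ℂ) :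
    thetaInt e z = 1 / 2 * ∑' y, tI e z y := rfl

theorem theta_eq {A B : ℤ} (e : OO A B → ℂ) (z : ℂ) :
    theta e z = 1 / 2 * ∑' y, tm e z y := rfl

theorem hd_thetaInt (hDIF : Su_DIF) {A B : ℤ} (hc : Case A B) {e : OO A B → ℂ} (hb : Bd e) {z : ℂ}
    (hz : 0 < z.im) : HasDerivAt (thetaInt e) (2 * Real.pi * Complex.I * theta e z) z := by
  have h := ((hDIF A B hc e hb).2.2 z hz).const_mul (1 / 2 : ℂ)
  have e1 : (1 / 2 : ℂ) * (2 * Real.pi * Complex.I * ∑' y, tm e z y) =
      2 * Real.pi * Complex.I * theta e z := by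
    rw [theta_eq]; ring
  rw [e1] at h
  exact h

end QPEaux

open QPEaux in
/-- Module MU3T_QPE. -/
theorem tu_QPE (hDIF : Su_DIF) (hVAN : Su_VAN) (hMBF : Su_MBF) (hMOD : Su_MOD) (hCUS : Su_CUS) :
    Su_QPE := by
  intro A B hc g e hg he G hG hgG a b c d hdet hN
  have hb := bd_e hc hg he
  set H : Set ℂ := {z : ℂ | 0 < z.im} with hH
  have hopen : IsOpen H := isOpen_lt continuous_const Complex.continuous_im
  have hconv : Convex ℝ H := convex_halfSpace_im_gt 0
  set D : ℂ → ℂ := fun z => thetaInt e (((a : ℂ) * z + b) / ((c : ℂ) * z + d)) -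
    nuE e d * thetaInt e z with hD
  have hder : ∀ z ∈ H, HasDerivAt D 0 z := by
    intro z hz
    obtain ⟨h1, h2, h3⟩ := hMBF a b c d hdet z hz
    have h4 := (hd_thetaInt hDIF hc hb h2).comp z h3
    have h5 := (hd_thetaInt hDIF hc hb hz).const_mul (nuE e d)
    have h6 := h4.sub h5
    have h7 := hMOD A B hc g e hg he G hG hgG a b c d hdet hN z hz
    refine HasDerivAt.congr_deriv h6 ?_
    rw [h7]
    field_simp
    ring
  have hdiff : DifferentiableOn ℂ D H := fun z hz =>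
    (hder z hz).differentiableAt.differentiableWithinAt
  have hconst : ∀ z ∈ H, ∀ w ∈ H, D z = D w := by
    intro z hz w hw
    exact hopen.is_const_of_deriv_eq_zero hconv.isPreconnected hdiff
      (fun x hx => (hder x hx).deriv) hz hw
  have hI : Complex.I ∈ H := by simp [hH]
  have hC := hCUS A B hc g e hg he a b c d hdet (D Complex.I) (by
    intro ε hε
    have hK : 0 < ‖nuE e d‖ + 1 := by positivity
    obtain ⟨R, hR, hR'⟩ := hVAN A B hc e hb (ε / (‖nuE e d‖ + 1)) (by positivity)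
    refine ⟨R, ?_⟩
    intro z hz hz0
    have h1 := hconst z hz0 Complex.I hI
    have h2 : thetaInt e (((a : ℂ) * z + b) / ((c : ℂ) * z + d)) - D Complex.I =
        nuE e d * thetaInt e z := by
      rw [← h1]
      simp only [hD]
      ring
    rw [h2, thetaInt_eq, norm_mul, norm_mul]
    have h3 := hR' z hz
    rw [lt_div_iff₀ hK] at h3
    have h4 : ‖(1 / 2 : ℂ)‖ = 1 / 2 := by norm_num
    rw [h4]
    have h5 : 0 ≤ ‖∑' y, tI e z y‖ := norm_nonneg _
    have h6 : 0 ≤ ‖nuE e d‖ := norm_nonneg _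
    nlinarith [mul_nonneg h5 h6])
  intro z hz
  have h1 := hconst z hz Complex.I hI
  rw [hC] at h1
  simp only [hD] at h1
  rw [← h1]
  ring

end Pool.Agent.MU3T
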