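import Pool.Agent.MU3.StFT

/-!
# MU3, block FT, module REC (helper32)
-/

set_option autoImplicit false

namespace Pool.Agent.MU3T

open MU3 Pool.Agent.MU3F Pool.Agent.MuSym

theorem rec_aux11 : ∀ r : ℕ, r < 11 → (haveI : Fact (Nat.Prime 11) := ⟨by norm_num⟩
    legendreSym 11 (r : ℤ)) = chiD (-3) 1 (r : ℤ) := by
  intro r hr
  interval_cases r <;> decide

theorem tu_REC : Su_REC := by
  intro A B hc p hp hd
  have hp' := hp.out
  rcases hc with ⟨rfl, rfl⟩ | ⟨rfl, rfl⟩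
  · have h8 : absD (-2) 0 = 8 := by norm_num [absD]
    rw [h8] at hd ⊢
    have hp2 : p ≠ 2 := by
      rintro rfl
      exact hd ⟨8, by norm_num⟩
    have h2 : ((2 : ℤ) : ZMod p) ≠ 0 := by
      intro h
      rw [ZMod.intCast_zmod_eq_zero_iff_dvd] at h
      exact hd (h.trans ⟨8, by norm_num⟩)
    have e1 : (-8 : ℤ) = -2 * 2 ^ 2 := by norm_num
    rw [e1, legendreSym.mul, legendreSym.sq_one' p h2, mul_one, legendreSym.at_neg_two hp2]
    have hodd : p % 2 = 1 := hp'.eq_two_or_odd.resolve_left hp2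
    have := ZMod.χ₈'_nat_eq_if_mod_eight p
    rw [this]
    unfold chiD
    have h1 : ((p : ℤ)) % 8 = ((p % 8 : ℕ) : ℤ) := by push_cast; rfl
    rw [h1]
    have h3 : p % 8 = 1 ∨ p % 8 = 3 ∨ p % 8 = 5 ∨ p % 8 = 7 := by omega
    have h4 : p % 2 ≠ 0 := by omega
    rcases h3 with h | h | h | h <;> simp [h, hodd]
  · have h8 : absD (-3) 1 = 11 := by norm_num [absD]
    rw [h8] at hd ⊢
    have hp2 : p ≠ 2 := by
      rintro rfl
      exact hd ⟨11, by norm_num⟩
    haveI : Fact (Nat.Prime 11) := ⟨by norm_num⟩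
    have e1 : (-11 : ℤ) = -1 * ((11 : ℕ) : ℤ) := by norm_num
    rw [e1, legendreSym.mul, legendreSym.at_neg_one hp2,
      legendreSym.quadratic_reciprocity' (p := 11) (q := p) (by norm_num) hp2,
      ZMod.χ₄_eq_neg_one_pow (hp'.eq_two_or_odd.resolve_left hp2)]
    rw [← mul_assoc, ← pow_add]
    have e2 : p / 2 + 11 / 2 * (p / 2) = 2 * (3 * (p / 2)) := by omega
    rw [e2, pow_mul]
    norm_num
    rw [legendreSym.mod 11]
    have h1 : ((p : ℤ)) % ((11 : ℕ) : ℤ) = ((p % 11 : ℕ) : ℤ) := by push_cast; rfl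
    rw [h1, rec_aux11 _ (Nat.mod_lt _ (by norm_num))]
    unfold chiD
    simp

end Pool.Agent.MU3T
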