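import Pool.Agent.MU3.StFT
import Pool.Agent.MU3.F_ALG
import Pool.Agent.MU3.F_BDD
import Pool.Agent.MU3.F_DCM
import Pool.Agent.MU3.F_TSM

/-!
# MU3, block FT, module RED (helper68): theta near a cusp
-/

set_option autoImplicit false

namespace Pool.Agent.MU3T

open MU3 Pool.Agent.MU3F Pool.Agent.MuSym OnePoint Filter Topology
open scoped ComplexConjugate

noncomputable section

namespace RedF

variable {A B : ℤ}

theorem ex_cong {r s : ℚ} (n : ℤ) (h : r = s + n) : ex r = ex s := by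
  have h1 : ex (n : ℚ) = 1 := by
    unfold ex
    rw [Complex.exp_eq_one_iff]
    exact ⟨n, by push_cast; ring⟩
  have h2 : ex (s + n) = ex s * ex n := by
    unfold ex
    rw [← Complex.exp_add]
    congr 1
    push_cast
    ring
  rw [h, h2, h1, mul_one]

theorem norm_ex (r : ℚ) : ‖ex r‖ = 1 := by
  unfold ex
  have h : 2 * (Real.pi : ℂ) * Complex.I * (r : ℂ) = ((2 * Real.pi * (r : ℝ) : ℝ) : ℂ) * Complex.I := by
    push_cast; ring
  rw [h, Complex.norm_exp_ofReal_mul_I]

theorem absD_pos (h : Case A B) : (0 : ℝ) < (absD A B : ℝ) := by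
  rcases h with ⟨rfl, rfl⟩ | ⟨rfl, rfl⟩ <;> norm_num [absD]

theorem im_pos {c : ℝ} (hc : 0 < c) {z : ℂ} (hz : 0 < z.im) : 0 < (-1 / ((c : ℂ) * z)).im := by
  have h1 : -1 / ((c : ℂ) * z) = -((c : ℂ) * z)⁻¹ := by rw [neg_div, one_div]
  have h2 : ((c : ℂ) * z).im = c * z.im := by simp
  have h3 : (c : ℂ) * z ≠ 0 := by
    intro h
    have := congrArg Complex.im h
    rw [h2] at this
    simp at this
    rcases this with h4 | h4 <;> linarith
  rw [h1, Complex.neg_im, Complex.inv_im, neg_div, neg_neg, h2]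
  exact div_pos (mul_pos hc hz) (Complex.normSq_pos.2 h3)

/-- The norm modulo `m`. -/
theorem nm_add (m : ℕ) (x w : OO A B) : ∃ k : ℤ, nm (x + (m : OO A B) * w) = nm x + m * k := by
  rw [← nsmul_eq_mul]
  refine ⟨2 * x.re * w.re + B * (x.re * w.im + w.re * x.im) - 2 * A * x.im * w.im +
    m * nm w, ?_⟩
  unfold nm
  rw [QuadraticAlgebra.re_add, QuadraticAlgebra.im_add, QuadraticAlgebra.re_smul,
    QuadraticAlgebra.im_smul, nsmul_eq_mul, nsmul_eq_mul]
  ring

end RedF

open RedF in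
/-- Theta near the cusp `b/q`. -/
theorem tu_RED (hDIF : Su_DIF) (hPOI : Su_POI) : Su_RED := by
  classical
  intro A B hc g e hg he G q hG hq hgG b z hz
  obtain ⟨m, hm⟩ : ∃ m : ℕ, m = q * G := ⟨_, rfl⟩
  have hm0 : 0 < m := by rw [hm]; exact Nat.mul_pos hq hG
  have hmO : (m : OO A B) ≠ 0 := by
    intro h0
    have h1 := congrArg emb h0
    rw [Pool.Agent.MU3A.emb_natCast hc, Pool.Agent.MU3A.emb_zero hc] at h1
    exact hm0.ne' (by exact_mod_cast h1)
  have hfin := AlgF.fin_quot hc _ hmO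
  have hft : Fintype (OO A B ⧸ Ideal.span {(m : OO A B)}) := Fintype.ofFinite _
  obtain ⟨-, C, hC0, hC⟩ := tf_BDD tf_ALG A B hc g e hg he
  have hqQ : (q : ℚ) ≠ 0 := by exact_mod_cast hq.ne'
  -- the terms
  obtain ⟨F, hF⟩ : ∃ F : OO A B → ℂ, ∀ x, F x = e x * conj (emb x) *
      Complex.exp (2 * Real.pi * Complex.I * (nm x : ℂ) * (((b / q : ℚ) : ℂ) + z)) :=
    ⟨_, fun _ => rfl⟩
  have hFs : Summable F := by
    have him : 0 < (((b / q : ℚ) : ℂ) + z).im := by
      have : (((b / q : ℚ) : ℂ)).im = 0 := by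
        have h1 : ((b / q : ℚ) : ℂ) = (((b / q : ℚ) : ℝ) : ℂ) := by push_cast; rfl
        rw [h1, Complex.ofReal_im]
      rw [Complex.add_im, this, zero_add]
      exact hz
    have h := tf_TSM A B hc e C hC _ him
    exact h.congr fun x => (hF x).symm
  have hF2 : ∀ x, F x = e x * ex (b * nm x / q) * (conj (emb x) *
      Complex.exp (2 * Real.pi * Complex.I * (nm x : ℂ) * z)) := by
    intro x
    have h1 : Complex.exp (2 * Real.pi * Complex.I * (nm x : ℂ) * (((b / q : ℚ) : ℂ) + z)) =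
        ex (b * nm x / q) * Complex.exp (2 * Real.pi * Complex.I * (nm x : ℂ) * z) := by
      unfold ex
      rw [← Complex.exp_add]
      congr 1
      push_cast
      ring
    rw [hF, h1]
    ring
  -- periodicity
  have hper : ∀ x w : OO A B, F (x + (m : OO A B) * w) = e x * ex (b * nm x / q) *
      (conj (emb (x + (m : OO A B) * w)) *
        Complex.exp (2 * Real.pi * Complex.I * (nm (x + (m : OO A B) * w) : ℂ) * z)) := by
    intro x w
    have h1 : e (x + (m : OO A B) * w) = e x := by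
      apply he.per
      have : x + (m : OO A B) * w - x = (m : OO A B) * w := by ring
      rw [this, hm]
      push_cast
      exact (hgG.mul_left _).mul_right _
    have h2 : ex (b * nm (x + (m : OO A B) * w) / q) = ex (b * nm x / q) := by
      obtain ⟨k, hk⟩ := nm_add m x w
      apply ex_cong (b * G * k)
      rw [hk, hm]
      push_cast
      field_simp
    rw [hF2, h1, h2]
  -- decomposition
  have hdec := tf_DCM tf_ALG A B hc (m : OO A B) hmO F hFs
  -- the transformed series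
  obtain ⟨ζ, hζ⟩ : ∃ ζ : ℂ, ζ = -1 / ((m : ℂ) ^ 2 * (absD A B : ℂ) * z) := ⟨_, rfl⟩
  have hζim : 0 < ζ.im := by
    have hD := absD_pos hc
    have hmR : (0 : ℝ) < (m : ℝ) := by exact_mod_cast hm0
    have h := im_pos (c := (m : ℝ) ^ 2 * (absD A B : ℝ)) (by positivity) hz
    rw [hζ]
    push_cast at h
    exact h
  obtain ⟨c, hcdef⟩ : ∃ c : ℂ, c = 1 / ((m : ℂ) ^ 3 * (absD A B : ℂ) * z ^ 2) := ⟨_, rfl⟩
  have hS : ∀ x : OO A B, ∑' w : OO A B, F (x + (m : OO A B) * w) =
      e x * ex (b * nm x / q) * (c * ∑' y : OO A B,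
        tm (fun y => ex ((x * star y).im / m)) ζ y) := by
    intro x
    rw [tsum_congr (hper x), tsum_mul_left, hPOI A B hc m hm0 x z hz, ← hζ, ← hcdef]
  have hsumm : ∀ x : OO A B, Summable (tm (fun y => ex ((x * star y).im / m)) ζ) := by
    intro x
    exact ((hDIF A B hc _ ⟨1, fun y => by rw [norm_ex]⟩).1 ζ hζim).1
  have hmQ : (m : ℚ) = (q : ℚ) * (G : ℚ) := by rw [hm]; push_cast; rfl
  have hW : ∀ y : OO A B, tm (WW e G q b) ζ y =
      ∑ Q : OO A B ⧸ Ideal.span {(m : OO A B)}, e (Quotient.out Q) *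
        ex (b * nm (Quotient.out Q) / q) *
          tm (fun y => ex ((Quotient.out Q * star y).im / m)) ζ y := by
    intro y
    unfold tm WW sumMod
    rw [← hm, finsum_eq_sum_of_fintype, Finset.sum_mul, Finset.sum_mul]
    apply Finset.sum_congr rfl
    intro Q _
    have h1 : (((Quotient.out Q * star y).im : ℤ) : ℚ) / ((q : ℚ) * (G : ℚ)) =
        (((Quotient.out Q * star y).im : ℤ) : ℚ) / (m : ℚ) := by
      rw [hmQ]
    beta_reduce
    rw [h1]
    ring
  have hmain : ∑' x, F x = c * ∑' y, tm (WW e G q b) ζ y := by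
    rw [hdec]
    unfold sumMod
    rw [finsum_eq_sum_of_fintype]
    have h1 : ∀ Q ∈ (Finset.univ : Finset (OO A B ⧸ Ideal.span {(m : OO A B)})),
        ∑' w : OO A B, F (Quotient.out Q + (m : OO A B) * w) =
        c * ∑' y : OO A B, (e (Quotient.out Q) * ex (b * nm (Quotient.out Q) / q) *
          tm (fun y => ex ((Quotient.out Q * star y).im / m)) ζ y) := by
      intro Q _
      rw [hS, tsum_mul_left]
      ring
    rw [Finset.sum_congr rfl h1, ← Finset.mul_sum]
    congr 1
    rw [← Summable.tsum_finsetSum]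
    · exact tsum_congr fun y => (hW y).symm
    · intro Q _
      exact (hsumm _).mul_left _
  have hth : theta e (((b / q : ℚ) : ℂ) + z) = 1 / 2 * ∑' x, F x := by
    unfold theta
    congr 1
    exact tsum_congr fun x => (hF x).symm
  rw [hth, hmain, hcdef, hζ, hm]
  push_cast
  have hq3 : 1 / (2 * ((q : ℂ) * G) ^ 3 * (absD A B : ℂ) * z ^ 2) =
      1 / 2 * (1 / (((q : ℂ) * G) ^ 3 * (absD A B : ℂ) * z ^ 2)) := by
    rw [one_div_mul_one_div]
    congr 1
    ring
  rw [hq3]
  ring

end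

end Pool.Agent.MU3T
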