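import Pool.Agent.MU3.StFT

/-!
# MU3, block FT: regrouping as a power series (helper84)
-/

set_option autoImplicit false

namespace Pool.Agent.MU3T

open MU3 Pool.Agent.MU3F Pool.Agent.MuSym OnePoint Filter Topology
open scoped ComplexConjugate

noncomputable section

namespace REG

variable {A B : ℤ}

theorem nm_ge (h : Case A B) {x : OO A B} (hx : x ≠ 0) : 1 ≤ nm x := by
  have h0 : ¬ (x.re = 0 ∧ x.im = 0) := by
    rintro ⟨h1, h2⟩
    exact hx (QuadraticAlgebra.ext h1 h2)
  by_contra h1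
  have h2 : nm x ≤ 0 := by omega
  rcases h with ⟨rfl, rfl⟩ | ⟨rfl, rfl⟩
  · unfold nm at h2
    have h3 : x.im = 0 := by nlinarith [sq_nonneg x.re, sq_nonneg x.im]
    have h4 : x.re = 0 := by
      rw [h3] at h2
      nlinarith [sq_nonneg x.re]
    exact h0 ⟨h4, h3⟩
  · unfold nm at h2
    have h3 : x.im = 0 := by nlinarith [sq_nonneg (2 * x.re + x.im), sq_nonneg x.im]
    have h4 : x.re = 0 := by
      rw [h3] at h2
      nlinarith [sq_nonneg x.re]
    exact h0 ⟨h4, h3⟩

end REG

/-- Regrouping as a power series. -/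
theorem tu_REG (hDIF : Su_DIF) : Su_REG := by
  intro A B hc W hW M N hN hMN
  obtain ⟨k, rfl⟩ := hMN
  have hM : M ≠ 0 := left_ne_zero_of_mul hN
  have hk : k ≠ 0 := right_ne_zero_of_mul hN
  set f : OO A B → ℕ := fun y => ((k : ℤ) * nm y - 1).toNat with hf
  set v : OO A B → ℂ := fun y => W y * conj (emb y) / (nm y : ℂ) with hv
  refine ⟨fun n => ∑' y : f ⁻¹' {n}, v y, ?_⟩
  intro τ hτ
  have hτM : 0 < (τ / (M : ℂ)).im := by
    rw [Complex.div_natCast_im]
    exact div_pos hτ (by exact_mod_cast Nat.pos_of_ne_zero hM)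
  have hs : Summable (tI W (τ / M)) := ((hDIF A B hc W hW).1 (τ / M) hτM).2
  set q : ℂ := Complex.exp (2 * Real.pi * Complex.I * τ / ((M * k : ℕ) : ℂ)) with hq
  have hterm : ∀ y, tI W (τ / M) y = v y * q ^ (f y + 1) := by
    intro y
    by_cases hy : y = 0
    · subst hy
      have h1 : nm (0 : OO A B) = 0 := by simp [nm]
      simp [tI, hv, h1]
    · have h1 : 1 ≤ nm y := REG.nm_ge hc hy
      have h2 : (1 : ℤ) ≤ (k : ℤ) := by exact_mod_cast Nat.pos_of_ne_zero hk
      have h3 : 0 ≤ (k : ℤ) * nm y - 1 := by nlinarith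
      have h4 : ((f y + 1 : ℕ) : ℤ) = (k : ℤ) * nm y := by
        rw [hf]
        push_cast
        rw [Int.toNat_of_nonneg h3]
        ring
      have h5 : ((f y + 1 : ℕ) : ℂ) = (k : ℂ) * (nm y : ℂ) := by
        have := congrArg (fun z : ℤ => (z : ℂ)) h4
        simpa using this
      have hMc : (M : ℂ) ≠ 0 := by exact_mod_cast hM
      have hkc : (k : ℂ) ≠ 0 := by exact_mod_cast hk
      unfold tI
      rw [hq, ← Complex.exp_nat_mul, h5]
      congr 2
      push_cast
      field_simp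
  have h1 : HasSum (fun y => v y * q ^ (f y + 1)) (∑' y, tI W (τ / M) y) := by
    have h2 := hs.hasSum
    rwa [show tI W (τ / M) = fun y => v y * q ^ (f y + 1) from funext hterm] at h2 ⊢
  have h3 := h1.tsum_fiberwise f
  have h5 : (fun n : ℕ => (∑' y : f ⁻¹' {n}, v y) * q ^ (n + 1)) =
      fun n : ℕ => ∑' y : f ⁻¹' {n}, v y * q ^ (f y + 1) := by
    funext n
    rw [← tsum_mul_right]
    refine tsum_congr fun y => ?_
    have h4 : f y.1 = n := y.2
    rw [h4]
  rw [h5]
  exact h3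

end

end Pool.Agent.MU3T
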