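import Pool.Agent.MU3.StFT

/-!
# MU3T_SYM: the symbol of theta is a modular symbol (MP_b78433_nt)
-/

set_option autoImplicit false

namespace Pool.Agent.MU3T

open MU3 Pool.Agent.MU3F Pool.Agent.MuSym OnePoint Filter Topology
open scoped ComplexConjugate

namespace SymAux

lemma Phi_inf {A B : ℤ} (e : OO A B → ℂ) (y : OnePoint ℚ) : Phi e ∞ y = -Ic e y := by
  unfold Phi
  have h : Ic e ∞ = 0 := rfl
  rw [h]
  ring

lemma small_zero (x : ℂ) (K : ℝ) (hK : 0 < K) (h : ∀ ε : ℝ, 0 < ε → ‖x‖ ≤ K * ε) : x = 0 := by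
  rw [← norm_eq_zero]
  by_contra hne
  have hpos : 0 < ‖x‖ := lt_of_le_of_ne (norm_nonneg x) (Ne.symm hne)
  have := h (‖x‖ / (2 * K)) (by positivity)
  have e : K * (‖x‖ / (2 * K)) = ‖x‖ / 2 := by field_simp
  rw [e] at this
  linarith

lemma comp_frac (a b c d a' b' c' d' : ℤ) (z : ℂ) (h : (c' : ℂ) * z + d' ≠ 0) :
    ((a : ℂ) * (((a' : ℂ) * z + b') / ((c' : ℂ) * z + d')) + b) /
      ((c : ℂ) * (((a' : ℂ) * z + b') / ((c' : ℂ) * z + d')) + d) =
    (((a * a' + b * c' : ℤ) : ℂ) * z + ((a * b' + b * d' : ℤ) : ℂ)) /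
      (((c * a' + d * c' : ℤ) : ℂ) * z + ((c * b' + d * d' : ℤ) : ℂ)) := by
  have hX : ((a' : ℂ) * z + b') / ((c' : ℂ) * z + d') * ((c' : ℂ) * z + d') = (a' : ℂ) * z + b' :=
    div_mul_cancel₀ _ h
  rw [← mul_div_mul_right _ _ h]
  congr 1
  · push_cast
    linear_combination (a : ℂ) * hX
  · push_cast
    linear_combination (c : ℂ) * hX

/-- the equation for one cusp -/
lemma star_eq (hVAN : Su_VAN) (hMBF : Su_MBF) (hEXI : Su_EXI) (hQPE : Su_QPE) (hMCO : Su_MCO)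
    {A B : ℤ} (hAB : Case A B) (g : OO A B) (e : OO A B → ℂ) (hg : g ≠ 0) (he : IsEps g e)
    (G : ℕ) (hG : 0 < G) (hgG : g ∣ (G : OO A B)) (a b c d : ℤ) (hdet : a * d - b * c = 1)
    (hc : absD A B * (G : ℤ) ^ 2 ∣ c) (x : OnePoint ℚ) :
    Phi e ∞ (mob a b c d x) = nuE e d * Phi e ∞ x + Phi e ∞ (mob a b c d ∞) := by
  obtain ⟨a', b', c', d', hdet', hx⟩ := hMCO.1 x
  have hcomp := hMCO.2 a b c d a' b' c' d' hdet hdet'
  rw [hx] at hcomp
  have hdet2 : (a * a' + b * c') * (c * b' + d * d') - (a * b' + b * d') * (c * a' + d * c') = 1 := by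
    linear_combination (a' * d' - b' * c') * hdet + hdet'
  obtain ⟨M1, W1, hM1, _, hW1, h1⟩ := hEXI A B hAB g e hg he G hG hgG a' b' c' d' hdet'
  obtain ⟨M2, W2, hM2, _, hW2, h2⟩ := hEXI A B hAB g e hg he G hG hgG _ _ _ _ hdet2
  rw [hx] at h1
  rw [← hcomp] at h2
  have key : Phi e ∞ (mob a b c d x) - (nuE e d * Phi e ∞ x + Phi e ∞ (mob a b c d ∞)) = 0 := by
    apply small_zero _ (‖nuE e d‖ + 1) (by positivity)
    intro ε hε
    obtain ⟨R1, hR1, hv1⟩ := hVAN A B hAB W1 hW1 ε hε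
    obtain ⟨R2, hR2, hv2⟩ := hVAN A B hAB W2 hW2 ε hε
    have hM1' : (0 : ℝ) < M1 := by exact_mod_cast hM1
    have hM2' : (0 : ℝ) < M2 := by exact_mod_cast hM2
    set s : ℝ := M1 * R1 + M2 * R2 with hs
    have hs1 : 0 < M1 * R1 := mul_pos hM1' hR1
    have hs2 : 0 < M2 * R2 := mul_pos hM2' hR2
    have hspos : 0 < s := by rw [hs]; linarith
    set z : ℂ := (s : ℂ) * Complex.I with hz
    have hzim : z.im = s := by rw [hz]; simp
    have hzpos : 0 < z.im := by rw [hzim]; exact hspos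
    have him : ∀ M : ℕ, (z / (M : ℂ)).im = s / M := by
      intro M
      rw [show ((M : ℕ) : ℂ) = ((M : ℝ) : ℂ) by push_cast; rfl, Complex.div_ofReal_im, hzim]
    have q1 : ‖∑' y, tI W1 (z / M1) y‖ < ε := by
      apply hv1
      rw [him, le_div_iff₀ hM1']
      rw [hs]
      nlinarith
    have q2 : ‖∑' y, tI W2 (z / M2) y‖ < ε := by
      apply hv2
      rw [him, le_div_iff₀ hM2']
      rw [hs]
      nlinarith
    obtain ⟨hne, himz, _⟩ := hMBF a' b' c' d' hdet' z hzpos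
    have e1 := h1 z hzpos
    have e2 := h2 z hzpos
    have e3 := hQPE A B hAB g e hg he G hG hgG a b c d hdet hc _ himz
    rw [comp_frac a b c d a' b' c' d' z hne, e2, e1] at e3
    have e4 : Phi e ∞ (mob a b c d x) - (nuE e d * Phi e ∞ x + Phi e ∞ (mob a b c d ∞)) =
        nuE e d * (∑' y, tI W1 (z / M1) y) - ∑' y, tI W2 (z / M2) y := by
      linear_combination e3
    rw [e4]
    calc ‖nuE e d * (∑' y, tI W1 (z / M1) y) - ∑' y, tI W2 (z / M2) y‖
        ≤ ‖nuE e d * (∑' y, tI W1 (z / M1) y)‖ + ‖∑' y, tI W2 (z / M2) y‖ := norm_sub_le _ _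
      _ = ‖nuE e d‖ * ‖∑' y, tI W1 (z / M1) y‖ + ‖∑' y, tI W2 (z / M2) y‖ := by rw [norm_mul]
      _ ≤ ‖nuE e d‖ * ε + ε := by
          have := mul_le_mul_of_nonneg_left q1.le (norm_nonneg (nuE e d))
          linarith
      _ = (‖nuE e d‖ + 1) * ε := by ring
  exact sub_eq_zero.mp key

end SymAux

open SymAux in
theorem tu_SYM (hVAN : Su_VAN) (hMBF : Su_MBF) (hEXI : Su_EXI) (hQPE : Su_QPE) (hMCO : Su_MCO) :
    Su_SYM := by
  intro A B hAB g e hg he G hG hgG N hN hDN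
  refine ⟨?_, ?_⟩
  · intro x y z
    unfold Phi
    ring
  · intro a b c d hdet hc x y
    have hc' : absD A B * (G : ℤ) ^ 2 ∣ c := dvd_trans hDN hc
    have hx := star_eq hVAN hMBF hEXI hQPE hMCO hAB g e hg he G hG hgG a b c d hdet hc' x
    have hy := star_eq hVAN hMBF hEXI hQPE hMCO hAB g e hg he G hG hgG a b c d hdet hc' y
    have p : ∀ u v : OnePoint ℚ, Phi e u v = Phi e ∞ v - Phi e ∞ u := by
      intro u v
      rw [Phi_inf, Phi_inf]
      unfold Phi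
      ring
    rw [p (mob a b c d x) (mob a b c d y), p x y, hx, hy]
    ring

end Pool.Agent.MU3T
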