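import Pool.Agent.MU3.StFT
import Pool.Agent.MU3.G_G0

/-!
# MU3, block FT: the primitive tends to 0 at i oo (VAN)
-/

set_option autoImplicit false

namespace Pool.Agent.MU3T

open MU3 Pool.Agent.MU3F Pool.Agent.MuSym OnePoint Filter Topology
open scoped ComplexConjugate

noncomputable section

theorem tu_VAN (hDIF : Su_DIF) : Su_VAN := by
  intro A B h W hW ε hε
  have hI : (0 : ℝ) < (Complex.I).im := by simp
  have hs := ((hDIF A B h W hW).1 Complex.I hI).2.norm
  set S : ℝ := ∑' y, ‖tI W Complex.I y‖ with hS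
  have hS0 : 0 ≤ S := tsum_nonneg fun _ => norm_nonneg _
  have hb : ∀ z : ℂ, 1 ≤ z.im → ∀ y : OO A B,
      ‖tI W z y‖ ≤ Real.exp (-(2 * Real.pi * (z.im - 1))) * ‖tI W Complex.I y‖ := by
    intro z hz y
    by_cases hy : nm y = 0
    · simp [tI, hy]
    · have h1 : 1 ≤ nm y := by
        have := Pool.Agent.MU3G.G0.nm_nonneg h y
        omega
      have h1' : (1 : ℝ) ≤ (nm y : ℝ) := by exact_mod_cast h1
      unfold tI
      rw [norm_mul, norm_mul _ (Complex.exp _), Complex.norm_exp, Complex.norm_exp, mul_left_comm]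
      refine mul_le_mul_of_nonneg_left ?_ (norm_nonneg _)
      rw [← Real.exp_add]
      apply Real.exp_le_exp.2
      have h5 : ∀ z : ℂ, (2 * Real.pi * Complex.I * (nm y : ℂ) * z).re =
          -(2 * Real.pi * (nm y : ℝ) * z.im) := by
        intro z
        have h6 : (2 * Real.pi * Complex.I * (nm y : ℂ) * z) =
            ((2 * Real.pi * (nm y : ℝ) : ℝ) : ℂ) * (Complex.I * z) := by
          push_cast; ring
        rw [h6, Complex.re_ofReal_mul]
        simp
      rw [h5, h5, Complex.I_im]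
      have hpi := Real.pi_pos
      nlinarith [mul_nonneg (mul_nonneg (by positivity : (0 : ℝ) ≤ 2 * Real.pi)
        (by linarith : (0 : ℝ) ≤ (nm y : ℝ) - 1)) (by linarith : (0 : ℝ) ≤ z.im - 1)]
  have hlim : Tendsto (fun t : ℝ => Real.exp (-(2 * Real.pi * (t - 1))) * S) atTop (𝓝 (0 * S)) := by
    refine Tendsto.mul_const _ ?_
    refine Real.tendsto_exp_atBot.comp ?_
    refine tendsto_neg_atTop_atBot.comp ?_
    refine Tendsto.const_mul_atTop (by positivity) ?_
    exact tendsto_atTop_add_const_right _ _ tendsto_id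
  rw [zero_mul] at hlim
  obtain ⟨R, hR⟩ := (eventually_atTop.1 (hlim.eventually (gt_mem_nhds hε)))
  refine ⟨max R 1, lt_of_lt_of_le one_pos (le_max_right _ _), fun z hz => ?_⟩
  have hz1 : 1 ≤ z.im := le_trans (le_max_right _ _) hz
  have hzR : R ≤ z.im := le_trans (le_max_left _ _) hz
  have hz0 : 0 < z.im := by linarith
  have hsz := ((hDIF A B h W hW).1 z hz0).2.norm
  calc ‖∑' y, tI W z y‖ ≤ ∑' y, ‖tI W z y‖ := norm_tsum_le_tsum_norm hsz
    _ ≤ ∑' y, Real.exp (-(2 * Real.pi * (z.im - 1))) * ‖tI W Complex.I y‖ :=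
        hsz.tsum_le_tsum (hb z hz1) (hs.mul_left _)
    _ = Real.exp (-(2 * Real.pi * (z.im - 1))) * S := by rw [tsum_mul_left]
    _ < ε := hR z.im hzR

end

end Pool.Agent.MU3T
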