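import Pool.Agent.MU3.StFT
import Pool.Agent.MU3.F_ALG
import Pool.Agent.MU3.F_BDD

/-!
# MU3, block FT: module VLN, the limit of the primitive at a rational number
-/

set_option autoImplicit false

namespace Pool.Agent.MU3T

open MU3 Pool.Agent.MU3F Pool.Agent.MuSym OnePoint Filter Topology
open scoped ComplexConjugate

theorem vln_tail {g : ℝ → ℂ} (hg : MeasureTheory.IntegrableOn g (Set.Ioi 0)) :
    Tendsto (fun t : ℝ => ∫ s in Set.Ioi t, g s) (𝓝[>] 0) (𝓝 (∫ s in Set.Ioi (0 : ℝ), g s)) := by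
  have h0 : Tendsto (fun t : ℝ => t) (𝓝[>] (0 : ℝ)) (𝓝 0) := tendsto_nhdsWithin_of_tendsto_nhds
    tendsto_id
  have h1 := MeasureTheory.aecover_Ioi_of_Ioi (μ := MeasureTheory.volume) h0
  have h2 := h1.integral_tendsto_of_countably_generated hg
  refine h2.congr' ?_
  filter_upwards [self_mem_nhdsWithin] with t ht
  rw [MeasureTheory.Measure.restrict_restrict measurableSet_Ioi]
  congr 2
  ext x
  simp only [Set.mem_inter_iff, Set.mem_Ioi] at *
  constructor
  · intro h; exact h.1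
  · intro h; exact ⟨h, lt_trans ht h⟩

theorem tu_VLN (hDIF : Su_DIF) (hVAN : Su_VAN) (hITG : Sf_ITG) : Su_VLN := by
  intro A B hc g e hg he r
  obtain ⟨C, _, hC⟩ := (tf_BDD tf_ALG A B hc g e hg he).2
  have hBd : Bd e := ⟨C, hC⟩
  obtain ⟨_, _, hder⟩ := hDIF A B hc e hBd
  have hint := hITG A B hc g e hg he r
  -- the functions
  have hT : ∀ z : ℂ, thetaInt e z = (1 / 2) * ∑' y, tI e z y := fun z => rfl
  have hth : ∀ z : ℂ, theta e z = (1 / 2) * ∑' y, tm e z y := fun z => rfl
  have him : ∀ s : ℝ, ((r : ℂ) + s * Complex.I).im = s := by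
    intro s
    rw [Complex.add_im, Complex.mul_im, Complex.I_im, Complex.I_re, Complex.ofReal_re,
      Complex.ofReal_im, ← Complex.ofReal_ratCast, Complex.ofReal_im]
    ring
  have hlin : ∀ s : ℝ, HasDerivAt (fun s : ℝ => (r : ℂ) + s * Complex.I) Complex.I s := by
    intro s
    have h1 := ((Complex.ofRealCLM.hasDerivAt (x := s)).mul_const Complex.I).const_add (r : ℂ)
    simpa using h1
  have hd : ∀ s : ℝ, 0 < s → HasDerivAt (fun s : ℝ => thetaInt e ((r : ℂ) + s * Complex.I))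
      (-(2 * Real.pi) * theta e ((r : ℂ) + s * Complex.I)) s := by
    intro s hs
    have h1 := hder ((r : ℂ) + s * Complex.I) (by rw [him]; exact hs)
    have h2 : HasDerivAt (thetaInt e)
        ((1 / 2) * (2 * Real.pi * Complex.I * ∑' y, tm e ((r : ℂ) + s * Complex.I) y))
        ((r : ℂ) + s * Complex.I) := h1.const_mul (1 / 2 : ℂ)
    have h3 := HasDerivAt.scomp s h2 (hlin s)
    have h4 : Complex.I • ((1 / 2 : ℂ) * (2 * Real.pi * Complex.I *
        ∑' y, tm e ((r : ℂ) + s * Complex.I) y)) =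
        -(2 * Real.pi) * theta e ((r : ℂ) + s * Complex.I) := by
      rw [hth, smul_eq_mul]
      linear_combination (Real.pi * ∑' y, tm e ((r : ℂ) + s * Complex.I) y) * Complex.I_mul_I
    rw [h4] at h3
    exact h3
  have htop : Tendsto (fun s : ℝ => thetaInt e ((r : ℂ) + s * Complex.I)) atTop (𝓝 0) := by
    rw [Metric.tendsto_atTop]
    intro ε hε
    obtain ⟨R, _, hR⟩ := hVAN A B hc e hBd ε hε
    refine ⟨R, fun s hs => ?_⟩
    have h1 := hR ((r : ℂ) + s * Complex.I) (by rw [him]; exact hs)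
    rw [dist_zero_right, hT, norm_mul]
    have h2 : ‖(1 / 2 : ℂ)‖ = 1 / 2 := by norm_num
    rw [h2]
    have h3 : 0 ≤ ‖∑' y, tI e ((r : ℂ) + s * Complex.I) y‖ := norm_nonneg _
    linarith
  have hval : ∀ t : ℝ, 0 < t → thetaInt e ((r : ℂ) + t * Complex.I) =
      (2 * Real.pi) * ∫ s in Set.Ioi t, theta e ((r : ℂ) + s * Complex.I) := by
    intro t ht
    have h1 := MeasureTheory.integral_Ioi_of_hasDerivAt_of_tendsto' (a := t)
      (f := fun s : ℝ => thetaInt e ((r : ℂ) + s * Complex.I))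
      (f' := fun s : ℝ => -(2 * Real.pi) * theta e ((r : ℂ) + s * Complex.I))
      (fun x hx => hd x (lt_of_lt_of_le ht hx))
      ((hint.mono_set (Set.Ioi_subset_Ioi ht.le)).const_mul _) htop
    rw [MeasureTheory.integral_const_mul] at h1
    linear_combination h1
  have h5 := (vln_tail hint).const_mul (2 * (Real.pi : ℂ))
  have h6 : (2 * (Real.pi : ℂ)) * ∫ s in Set.Ioi (0 : ℝ), theta e ((r : ℂ) + s * Complex.I) =
      -Iv e r := by
    unfold Iv
    ring
  rw [h6] at h5
  refine h5.congr' ?_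
  filter_upwards [self_mem_nhdsWithin] with t ht
  exact (hval t ht).symm

end Pool.Agent.MU3T
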