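import Pool.Agent.MU3.StFT
import Pool.Agent.MU3.F_ALG
import Pool.Agent.MU3.F_BDD

/-!
# MU3, block FT, module WBD (helper18): the coefficient functions are bounded
-/

set_option autoImplicit false

namespace Pool.Agent.MU3T

open MU3 Pool.Agent.MU3F Pool.Agent.MuSym OnePoint Filter Topology
open scoped ComplexConjugate

namespace WbdT

theorem norm_ex (r : ℚ) : ‖ex r‖ = 1 := by
  unfold ex
  have h : (2 * (Real.pi : ℂ) * Complex.I * (r : ℂ)) =
      ((2 * Real.pi * (r : ℝ) : ℝ) : ℂ) * Complex.I := by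
    push_cast
    ring
  rw [h, Complex.norm_exp_ofReal_mul_I]

end WbdT

theorem tu_WBD : Su_WBD := by
  intro A B hc g e hg he G q hG hq b
  obtain ⟨-, C, hC0, hC⟩ := tf_BDD tf_ALG A B hc g e hg he
  have hm : ((q * G : ℕ) : OO A B) ≠ 0 := by
    intro h0
    have h1 := congrArg emb h0
    rw [Pool.Agent.MU3A.emb_natCast hc, Pool.Agent.MU3A.emb_zero hc] at h1
    have h2 : q * G ≠ 0 := Nat.mul_ne_zero (by omega) (by omega)
    exact h2 (by exact_mod_cast h1)
  have hfin := AlgF.fin_quot hc _ hm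
  have := Fintype.ofFinite (OO A B ⧸ Ideal.span {((q * G : ℕ) : OO A B)})
  refine ⟨Fintype.card (OO A B ⧸ Ideal.span {((q * G : ℕ) : OO A B)}) * C, fun y => ?_⟩
  unfold WW sumMod
  rw [finsum_eq_sum_of_fintype]
  refine (norm_sum_le _ _).trans ?_
  refine (Finset.sum_le_card_nsmul _ _ C fun x _ => ?_).trans (le_of_eq ?_)
  · rw [norm_mul, norm_mul, WbdT.norm_ex, WbdT.norm_ex, mul_one, mul_one]
    exact hC _
  · rw [Finset.card_univ, nsmul_eq_mul]

end Pool.Agent.MU3T
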