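import Pool.Agent.MU3.StFT
import Pool.Agent.MU3.F_ALG
import Pool.Agent.MU3.F_SM

/-!
# MU3, block FT, module WID (helper45): the Gauss sum `W_(b/d)(y)`
-/

set_option autoImplicit false

namespace Pool.Agent.MU3T

open MU3 Pool.Agent.MU3F Pool.Agent.MuSym OnePoint Filter Topology
open scoped ComplexConjugate

noncomputable section

namespace WidF

variable {A B : ℤ}

lemma ex_add (r s : ℚ) : ex (r + s) = ex r * ex s := by
  unfold ex
  rw [← Complex.exp_add]
  congr 1
  push_cast
  ring

lemma ex_int (n : ℤ) : ex (n : ℚ) = 1 := by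
  unfold ex
  rw [Complex.exp_eq_one_iff]
  exact ⟨n, by push_cast; ring⟩

lemma ex_cong {r s : ℚ} (n : ℤ) (h : r = s + n) : ex r = ex s := by
  rw [h, ex_add, ex_int, mul_one]

lemma out_sub (m z : OO A B) :
    m ∣ Quotient.out (Ideal.Quotient.mk (Ideal.span {m}) z) - z := by
  rw [← Ideal.mem_span_singleton, ← Ideal.Quotient.eq]
  exact Quotient.out_eq _

lemma mk_out {m : OO A B} (q : OO A B ⧸ Ideal.span {m}) :
    Ideal.Quotient.mk (Ideal.span {m}) (Quotient.out q) = q := Quotient.out_eq _

/-- shift of the variable -/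
theorem shift {m : OO A B} (hfin : Finite (OO A B ⧸ Ideal.span {m})) {F : OO A B → ℂ}
    (hF : ∀ x y, m ∣ x - y → F x = F y) (v : OO A B) :
    sumMod m (fun x => F (x - v)) = sumMod m F := by
  classical
  let _ : Fintype (OO A B ⧸ Ideal.span {m}) := Fintype.ofFinite _
  unfold sumMod
  rw [finsum_eq_sum_of_fintype, finsum_eq_sum_of_fintype,
    ← Equiv.sum_comp (Equiv.subRight (Ideal.Quotient.mk (Ideal.span {m}) v))
      (fun q => F (Quotient.out q))]
  refine Finset.sum_congr rfl fun q _ => ?_
  have h1 : q - Ideal.Quotient.mk (Ideal.span {m}) v =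
      Ideal.Quotient.mk (Ideal.span {m}) (Quotient.out q - v) := by
    rw [map_sub, mk_out]
  rw [Equiv.subRight_apply, h1]
  exact (hF _ _ (out_sub m (Quotient.out q - v))).symm

/-- the Chinese remainder theorem -/
theorem crt {m n : OO A B} (hm : Finite (OO A B ⧸ Ideal.span {m}))
    (hn : Finite (OO A B ⧸ Ideal.span {n})) (hmn : Finite (OO A B ⧸ Ideal.span {m * n}))
    (h : IsCoprime m n) {F : OO A B → ℂ} (hF : ∀ x y, m * n ∣ x - y → F x = F y) :
    sumMod (m * n) F = sumMod n (fun x => sumMod m (fun x' => F (m * x + n * x'))) := by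
  classical
  let _ : Fintype (OO A B ⧸ Ideal.span {m}) := Fintype.ofFinite _
  let _ : Fintype (OO A B ⧸ Ideal.span {n}) := Fintype.ofFinite _
  let _ : Fintype (OO A B ⧸ Ideal.span {m * n}) := Fintype.ofFinite _
  unfold sumMod
  simp only [finsum_eq_sum_of_fintype]
  rw [← Fintype.sum_prod_type' (fun (q : OO A B ⧸ Ideal.span {n}) (q' : OO A B ⧸ Ideal.span {m}) =>
    F (m * Quotient.out q + n * Quotient.out q'))]
  symm
  refine Fintype.sum_bijective (fun p : (OO A B ⧸ Ideal.span {n}) × (OO A B ⧸ Ideal.span {m}) =>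
    Ideal.Quotient.mk (Ideal.span {m * n}) (m * Quotient.out p.1 + n * Quotient.out p.2))
    ⟨?_, ?_⟩ _ _ fun p => ?_
  · rintro ⟨q, q'⟩ ⟨r, r'⟩ he
    have h1 : m * n ∣ (m * Quotient.out q + n * Quotient.out q') -
        (m * Quotient.out r + n * Quotient.out r') := by
      rw [← Ideal.mem_span_singleton, ← Ideal.Quotient.eq]
      exact he
    have e1 : (m * Quotient.out q + n * Quotient.out q') -
        (m * Quotient.out r + n * Quotient.out r') =
        m * (Quotient.out q - Quotient.out r) + n * (Quotient.out q' - Quotient.out r') := by ring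
    rw [e1] at h1
    have h2 : n ∣ Quotient.out q - Quotient.out r := by
      refine h.symm.dvd_of_dvd_mul_left ?_
      have h3 := (Dvd.intro_left m rfl : n ∣ m * n).trans h1
      exact (dvd_add_left (Dvd.intro _ rfl)).1 h3
    have h3 : m ∣ Quotient.out q' - Quotient.out r' := by
      refine h.dvd_of_dvd_mul_left ?_
      have h3 := (Dvd.intro n rfl : m ∣ m * n).trans h1
      exact (dvd_add_right (Dvd.intro _ rfl)).1 h3
    have h4 : q = r := by
      rw [← mk_out q, ← mk_out r, Ideal.Quotient.eq, Ideal.mem_span_singleton]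
      exact h2
    have h5 : q' = r' := by
      rw [← mk_out q', ← mk_out r', Ideal.Quotient.eq, Ideal.mem_span_singleton]
      exact h3
    rw [h4, h5]
  · intro Q
    obtain ⟨u, v, huv⟩ := h
    refine ⟨(Ideal.Quotient.mk (Ideal.span {n}) (u * Quotient.out Q),
      Ideal.Quotient.mk (Ideal.span {m}) (v * Quotient.out Q)), ?_⟩
    show Ideal.Quotient.mk (Ideal.span {m * n})
      (m * Quotient.out (Ideal.Quotient.mk (Ideal.span {n}) (u * Quotient.out Q)) +
        n * Quotient.out (Ideal.Quotient.mk (Ideal.span {m}) (v * Quotient.out Q))) = Q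
    conv_rhs => rw [← mk_out Q]
    rw [Ideal.Quotient.eq, Ideal.mem_span_singleton]
    obtain ⟨k, hk⟩ := out_sub n (u * Quotient.out Q)
    obtain ⟨l, hl⟩ := out_sub m (v * Quotient.out Q)
    refine ⟨k + l, ?_⟩
    rw [sub_eq_iff_eq_add] at hk hl
    rw [hk, hl]
    linear_combination (Quotient.out Q) * huv
  · exact (hF _ _ (out_sub (m * n) (m * Quotient.out p.1 + n * Quotient.out p.2))).symm

/-- the norm modulo a natural number -/
lemma nm_per (m : ℕ) (x w : OO A B) : ∃ k : ℤ, nm (x + (m : OO A B) * w) = nm x + m * k := by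
  refine ⟨2 * x.re * w.re + B * (x.re * w.im + x.im * w.re) - 2 * A * x.im * w.im + m * nm w, ?_⟩
  simp only [nm, QuadraticAlgebra.re_add, QuadraticAlgebra.im_add, QuadraticAlgebra.re_mul,
    QuadraticAlgebra.im_mul, QuadraticAlgebra.re_natCast, QuadraticAlgebra.im_natCast]
  push_cast
  ring

lemma im_per (m : ℕ) (x w y : OO A B) :
    ((x + (m : OO A B) * w) * star y).im = (x * star y).im + m * (w * star y).im := by
  simp only [QuadraticAlgebra.re_add, QuadraticAlgebra.im_add, QuadraticAlgebra.re_mul,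
    QuadraticAlgebra.im_mul, QuadraticAlgebra.re_natCast, QuadraticAlgebra.im_natCast]
  push_cast
  ring

lemma im_lin (d G : ℕ) (x x' y : OO A B) :
    (((d : OO A B) * x + (G : OO A B) * x') * star y).im =
      d * (x * star y).im + G * (x' * star y).im := by
  simp only [QuadraticAlgebra.re_add, QuadraticAlgebra.im_add, QuadraticAlgebra.re_mul,
    QuadraticAlgebra.im_mul, QuadraticAlgebra.re_natCast, QuadraticAlgebra.im_natCast]
  push_cast
  ring

lemma nm_lin (d G : ℕ) (x x' : OO A B) : ∃ k : ℤ,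
    nm ((d : OO A B) * x + (G : OO A B) * x') = G ^ 2 * nm x' + d * k := by
  refine ⟨d * nm x + G * (2 * x.re * x'.re + B * (x.re * x'.im + x.im * x'.re) -
    2 * A * x.im * x'.im), ?_⟩
  simp only [nm, QuadraticAlgebra.re_add, QuadraticAlgebra.im_add, QuadraticAlgebra.re_mul,
    QuadraticAlgebra.im_mul, QuadraticAlgebra.re_natCast, QuadraticAlgebra.im_natCast]
  push_cast
  ring

/-- completing the square -/
lemma nm_sq (c : ℤ) (x y : OO A B) :
    nm (x - (c : OO A B) * ((⟨-B, 2⟩ : OO A B) * y)) =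
      nm x - c * absD A B * (x * star y).im + c ^ 2 * absD A B * nm y := by
  simp only [nm, absD, QuadraticAlgebra.re_sub, QuadraticAlgebra.im_sub, QuadraticAlgebra.re_mul,
    QuadraticAlgebra.im_mul, QuadraticAlgebra.re_intCast, QuadraticAlgebra.im_intCast,
    QuadraticAlgebra.re_star, QuadraticAlgebra.im_star, Int.cast_id]
  ring

end WidF

open WidF in
theorem tu_WID : Su_WID := by
  intro A B hc g e hg he G d hG hd hgG a b c' hdet y
  have hALG := tf_ALG
  have hSM := tf_SM hALG
  have hfinq := (hALG A B hc).2.2.2.1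
  have hdQ : (d : ℚ) ≠ 0 := by exact_mod_cast hd.ne'
  have hGQ : (G : ℚ) ≠ 0 := by exact_mod_cast hG.ne'
  have hne : ∀ n : ℕ, 0 < n → (n : OO A B) ≠ 0 := by
    intro n hn h0
    have h1 := congrArg QuadraticAlgebra.re h0
    simp only [QuadraticAlgebra.re_natCast, QuadraticAlgebra.re_zero] at h1
    have h2 : (n : ℤ) = 0 := by exact_mod_cast h1
    omega
  have hd0 := hne d hd
  have hG0 := hne G hG
  have hdG0 : (d : OO A B) * (G : OO A B) ≠ 0 := by
    rw [← Nat.cast_mul]
    exact hne _ (Nat.mul_pos hd hG)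
  have hcop : IsCoprime (d : OO A B) (G : OO A B) := by
    refine ⟨(a : OO A B), ((-(b * (absD A B * G * c')) : ℤ) : OO A B), ?_⟩
    have h1 : ((a * d - b * (absD A B * G ^ 2 * c') : ℤ) : OO A B) = ((1 : ℤ) : OO A B) := by
      rw [hdet]
    push_cast at h1 ⊢
    linear_combination h1
  -- the function
  obtain ⟨F, hFd⟩ : ∃ F : OO A B → ℂ, F = fun x => e x * ex (b * nm x / d) *
      ex ((x * star y).im / (d * G)) := ⟨_, rfl⟩
  have hFper : ∀ x y', (d : OO A B) * (G : OO A B) ∣ x - y' → F x = F y' := by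
    rintro x y' ⟨w, hw⟩
    have hx : x = y' + ((d * G : ℕ) : OO A B) * w := by
      rw [Nat.cast_mul, ← hw]
      ring
    have h1 : e x = e y' := by
      refine he.per _ _ ?_
      rw [hw, mul_comm (d : OO A B), mul_assoc]
      exact hgG.mul_right _
    obtain ⟨k, hk⟩ := nm_per (d * G) y' w
    have h2 : ex (b * nm x / d) = ex (b * nm y' / d) := by
      refine ex_cong (b * G * k) ?_
      rw [hx, hk]
      push_cast
      field_simp
    have h3 : ex ((x * star y).im / (d * G)) = ex ((y' * star y).im / (d * G)) := by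
      refine ex_cong ((w * star y).im) ?_
      rw [hx, im_per]
      push_cast
      field_simp
    rw [hFd]
    simp only
    rw [h1, h2, h3]
  have hFlin : ∀ x x' : OO A B, F ((d : OO A B) * x + (G : OO A B) * x') =
      (e ((d : ℕ) : OO A B) * (e x * ex ((x * star y).im / G))) *
        (ex (((b * G ^ 2 : ℤ) : ℚ) * nm x' / d) * ex ((x' * star y).im / d)) := by
    intro x x'
    have h1 : e ((d : OO A B) * x + (G : OO A B) * x') = e (d : OO A B) * e x := by
      rw [← he.mul]
      refine he.per _ _ ?_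
      rw [add_sub_cancel_left]
      exact hgG.mul_right _
    obtain ⟨k, hk⟩ := nm_lin d G x x'
    have h2 : ex (b * nm ((d : OO A B) * x + (G : OO A B) * x') / d) =
        ex (((b * G ^ 2 : ℤ) : ℚ) * nm x' / d) := by
      refine ex_cong (b * k) ?_
      rw [hk]
      push_cast
      field_simp
    have h3 : ex ((((d : OO A B) * x + (G : OO A B) * x') * star y).im / (d * G)) =
        ex ((x * star y).im / G) * ex ((x' * star y).im / d) := by
      rw [← ex_add, im_lin]
      congr 1
      push_cast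
      field_simp
    rw [hFd]
    simp only
    rw [h1, h2, h3]
    ring
  have hW : WW e G d b y = sumMod ((d : OO A B) * (G : OO A B)) F := by
    unfold WW
    rw [Nat.cast_mul, hFd]
  have hW1 : WW e G 1 0 y = sumMod (G : OO A B) (fun x => e x * ex ((x * star y).im / G)) := by
    unfold WW
    rw [one_mul]
    congr 1
    funext x
    have h1 : ex (((0 : ℤ) : ℚ) * nm x / ((1 : ℕ) : ℚ)) = 1 := by
      have := ex_int 0
      simpa using this
    rw [h1, mul_one, Nat.cast_one, one_mul]
  rw [hW, crt (hfinq _ hd0) (hfinq _ hG0) (hfinq _ hdG0) hcop hFper]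
  simp only [hFlin]
  have hSd := hSM A B hc (d : OO A B) hd0
  have hSG := hSM A B hc (G : OO A B) hG0
  -- completing the square
  obtain ⟨K, hK⟩ : ∃ K : OO A B → ℂ, K = fun x => ex (((b * G ^ 2 : ℤ) : ℚ) * nm x / d) :=
    ⟨_, rfl⟩
  have hKper : ∀ x y', (d : OO A B) ∣ x - y' → K x = K y' := by
    rintro x y' ⟨w, hw⟩
    have hx : x = y' + ((d : ℕ) : OO A B) * w := by
      rw [← hw]
      ring
    obtain ⟨k, hk⟩ := nm_per d y' w
    rw [hK]
    simp only
    refine ex_cong (b * G ^ 2 * k) ?_
    rw [hx, hk]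
    push_cast
    field_simp
  have hsq : ∀ x : OO A B, ex (((b * G ^ 2 : ℤ) : ℚ) * nm x / d) * ex ((x * star y).im / d) =
      ex (c' * nm y / d) * K (x - (c' : OO A B) * ((⟨-B, 2⟩ : OO A B) * y)) := by
    intro x
    rw [hK]
    simp only
    rw [← ex_add, ← ex_add, nm_sq]
    refine ex_cong (-(a * (c' * nm y - (x * star y).im))) ?_
    have hq : (a : ℚ) * d - b * (absD A B * G ^ 2 * c') = 1 := by exact_mod_cast hdet
    push_cast
    field_simp
    linear_combination (-((x * star y).im : ℚ) + c' * nm y) * hq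
  have hinner : sumMod (d : OO A B) (fun x => ex (((b * G ^ 2 : ℤ) : ℚ) * nm x / d) *
      ex ((x * star y).im / d)) = ex (c' * nm y / d) * gg A B d (b * G ^ 2) := by
    simp only [hsq]
    rw [hSd.1, shift (hfinq _ hd0) hKper]
    congr 1
    unfold gg
    rw [hK]
  have h1 : ∀ x : OO A B, sumMod (d : OO A B) (fun x' =>
      (e ((d : ℕ) : OO A B) * (e x * ex ((x * star y).im / G))) *
        (ex (((b * G ^ 2 : ℤ) : ℚ) * nm x' / d) * ex ((x' * star y).im / d))) =
      (e ((d : ℕ) : OO A B) * (ex (c' * nm y / d) * gg A B d (b * G ^ 2))) *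
        (e x * ex ((x * star y).im / G)) := by
    intro x
    rw [hSd.1, hinner]
    ring
  simp only [h1]
  rw [hSG.1, hW1]
  ring

end

end Pool.Agent.MU3T
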