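import Pool.Agent.MU3.FAll
import Pool.Agent.MU3.StF6
import Pool.Agent.MU3.T_DIF
import Pool.Agent.MU3.T_VAN
import Pool.Agent.MU3.T_REG
import Pool.Agent.MU3.T_PO0
import Pool.Agent.MU3.T_POI
import Pool.Agent.MU3.T_WBD
import Pool.Agent.MU3.T_RED
import Pool.Agent.MU3.T_WID
import Pool.Agent.MU3.T_GAU
import Pool.Agent.MU3.T_REC
import Pool.Agent.MU3.T_CHI
import Pool.Agent.MU3.T_MBF
import Pool.Agent.MU3.T_MOP
import Pool.Agent.MU3.T_MOD
import Pool.Agent.MU3.T_EXP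
import Pool.Agent.MU3.T_VLN
import Pool.Agent.MU3.T_CUS
import Pool.Agent.MU3.T_EXI
import Pool.Agent.MU3.T_QPE
import Pool.Agent.MU3.T_MCO
import Pool.Agent.MU3.T_SYM
import Pool.Agent.MU3.T_FT

/-!
# MU3, block FT: the result, without hypotheses

Modules by helper7, 18, 20, 23, 25, 30, 32, 37, 43, 45, 68, 72, 83, 84, 89, 90, 94, 95, 96, 1, 40.
-/

set_option autoImplicit false

namespace Pool.Agent.MU3T

open _root_.MU3 Pool.Agent.MU3F Pool.Agent.MuSym Pool.Agent.MU3A OnePoint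

theorem m_DIF : Su_DIF := tu_DIF
theorem m_VAN : Su_VAN := tu_VAN m_DIF
theorem m_REG : Su_REG := tu_REG m_DIF
theorem m_PO0 : Su_PO0 := tu_PO0
theorem m_POI : Su_POI := tu_POI m_DIF m_PO0
theorem m_WBD : Su_WBD := tu_WBD
theorem m_RED : Su_RED := tu_RED m_DIF m_POI
theorem m_WID : Su_WID := tu_WID
theorem m_GAU : Su_GAU := tu_GAU
theorem m_REC : Su_REC := tu_REC
theorem m_CHI : Su_CHI := tu_CHI
theorem m_MBF : Su_MBF := tu_MBF
theorem m_MOP : Su_MOP := tu_MOP m_RED m_WID m_GAU m_REC m_MBF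
theorem m_MOD : Su_MOD := tu_MOD m_MOP m_CHI m_MBF
theorem m_EXP : Su_EXP := tu_EXP m_RED m_WBD m_MBF
theorem m_VLN : Su_VLN := tu_VLN m_DIF m_VAN f_ITG
theorem m_CUS : Su_CUS := tu_CUS m_VAN m_VLN
theorem m_EXI : Su_EXI := tu_EXI m_DIF m_VAN m_MBF m_EXP m_CUS
theorem m_QPE : Su_QPE := tu_QPE m_DIF m_VAN m_MBF m_MOD m_CUS
theorem m_MCO : Su_MCO := tu_MCO
theorem m_SYM : Su_SYM := tu_SYM m_VAN m_MBF m_EXI m_QPE m_MCO

/-- **Main result of the block.** -/
theorem main_FT : Su_FT := tu_FT m_REG m_EXI m_QPE m_SYM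

/-- the form used by block G -/
theorem main_StFT : Pool.Agent.MU3G.St_FT := by
  intro A B h f hf _ _ e he N hN hdvd
  have hp : ppi A B * star (ppi A B) = 3 := (f_ALG A B h).2.2.2.2.1
  have hnu : ¬ IsUnit (star (ppi A B)) := (f_ALG A B h).2.2.2.2.2
  have hfO : ((f : ℕ) : OO A B) ≠ 0 := by
    intro h0
    have h1 := congrArg emb h0
    rw [emb_natCast h, emb_zero h] at h1
    exact hf (by exact_mod_cast h1)
  have hs : star (ppi A B) ≠ 0 := by
    intro h0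
    rw [h0, mul_zero] at hp
    have h1 := congrArg emb hp
    rw [emb_zero h, show (3 : OO A B) = ((3 : ℕ) : OO A B) by norm_num, emb_natCast h] at h1
    norm_num at h1
  have hg : (f : OO A B) * star (ppi A B) ≠ 0 := by
    have := Pool.Agent.MU3G.G0.dom h
    exact mul_ne_zero hfO hs
  have hgG : (f : OO A B) * star (ppi A B) ∣ ((3 * f : ℕ) : OO A B) := by
    refine ⟨ppi A B, ?_⟩
    push_cast
    rw [← hp]
    ring
  obtain ⟨h1, h2, h3⟩ := main_FT A B h _ e hg he (3 * f) (by omega) hgG N hN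
    (by push_cast; exact hdvd)
  refine ⟨h1, h2, fun a b c d hdet => ?_⟩
  obtain ⟨w, hw⟩ := h3 a b c d hdet
  exact ⟨_, w, hw⟩

end Pool.Agent.MU3T
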