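import Pool.Agent.MU3.StF6

/-!
# MU3, block G: rationality of the modular symbol of theta (F6)
-/

set_option autoImplicit false

namespace Pool.Agent.MU3G

open MU3 Pool.Agent.MU3A Pool.Agent.MU3B Pool.Agent.MU3F Pool.Agent.MuSym OnePoint NumberField

noncomputable section

/-- (F6) -/
theorem t_F6 (h6C : St_F6C) : St_F6 := by
  intro A B h L Om hCM g hg hu e hE H _ _ hT he x y
  -- the case `x = ∞`
  have key : ∀ p : OnePoint ℚ, ∃ hv : Phi e ∞ p / Om ∈ H, ∀ (σ : H ≃ₐ[kk A B] H) (a : OO A B),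
      Act L (em σ) g a → Phi (fun z => ((σ ⟨e z, he z⟩ : H) : ℂ)) ∞ p =
        Om * (((σ ⟨e a, he a⟩ : H) : ℂ) * ((σ ⟨_, hv⟩ : H) : ℂ)) := by
    intro p
    induction p using OnePoint.rec with
    | infty =>
      have h0 : Phi e ∞ ∞ / Om = 0 := by unfold Phi; rw [sub_self, zero_div]
      refine ⟨by rw [h0]; exact H.zero_mem, fun σ a _ => ?_⟩
      have h1 : (⟨Phi e ∞ ∞ / Om, by rw [h0]; exact H.zero_mem⟩ : H) = 0 := Subtype.ext h0
      rw [h1, map_zero]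
      unfold Phi
      simp
    | coe q =>
      have h1 := h6C A B h L Om hCM g hg hu e hE H hT he q.den q.pos q.num
      rw [Rat.num_div_den] at h1
      exact h1
  obtain ⟨hx, Hx⟩ := key x
  obtain ⟨hy, Hy⟩ := key y
  have hphi : ∀ e' : OO A B → ℂ, Phi e' x y = Phi e' ∞ y - Phi e' ∞ x := by
    intro e'; unfold Phi; ring
  have hv : Phi e x y / Om = Phi e ∞ y / Om - Phi e ∞ x / Om := by
    rw [hphi, sub_div]
  have hmem : Phi e x y / Om ∈ H := by rw [hv]; exact H.sub_mem hy hx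
  refine ⟨hmem, fun σ a ha => ?_⟩
  have h1 : (⟨Phi e x y / Om, hmem⟩ : H) = ⟨Phi e ∞ y / Om, hy⟩ - ⟨Phi e ∞ x / Om, hx⟩ :=
    Subtype.ext hv
  rw [h1, map_sub, hphi, Hx σ a ha, Hy σ a ha]
  push_cast
  ring

end

end Pool.Agent.MU3G
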