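import Pool.Agent.MU3.StF6

/-!
# MU3, block F6: rationality of the symbol for the cusps `∞`, `b/M`
-/

set_option autoImplicit false

namespace Pool.Agent.MU3G

open MU3 Pool.Agent.MU3A Pool.Agent.MU3B Pool.Agent.MU3F Pool.Agent.MuSym OnePoint NumberField

noncomputable section

namespace F6C

variable {A B : ℤ}

lemma ex_add_int (r : ℚ) (n : ℤ) : ex (r + n) = ex r := by
  unfold ex
  push_cast
  rw [mul_add, Complex.exp_add]
  have h1 : Complex.exp (2 * Real.pi * Complex.I * n) = 1 := by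
    rw [show (2 * Real.pi * Complex.I * n : ℂ) = n * (2 * Real.pi * Complex.I) by ring]
    exact Complex.exp_int_mul_two_pi_mul_I n
  rw [h1, mul_one]

lemma nm_mod {x y : OO A B} (M : ℕ) (h : (M : OO A B) ∣ x - y) :
    ∃ k : ℤ, nm x = nm y + M * k := by
  obtain ⟨w, hw⟩ := h
  have h1 := congrArg QuadraticAlgebra.re hw
  have h2 := congrArg QuadraticAlgebra.im hw
  simp only [QuadraticAlgebra.re_sub, QuadraticAlgebra.im_sub, QuadraticAlgebra.re_mul,
    QuadraticAlgebra.im_mul, QuadraticAlgebra.re_natCast, QuadraticAlgebra.im_natCast,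
    mul_zero, zero_mul, add_zero] at h1 h2
  have h3 : x.re = y.re + M * w.re := by linarith
  have h4 : x.im = y.im + M * w.im := by linarith
  refine ⟨2 * y.re * w.re + M * w.re ^ 2 + B * (y.re * w.im + y.im * w.re + M * w.re * w.im) -
    A * (2 * y.im * w.im + M * w.im ^ 2), ?_⟩
  unfold nm
  rw [h3, h4]
  ring

lemma nm_mul (x y : OO A B) : nm (x * y) = nm x * nm y := by
  simp only [nm, QuadraticAlgebra.re_mul, QuadraticAlgebra.im_mul]
  ring

/-- the summand -/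
def Fn (L : PeriodPair) (Om : ℂ) (g' : OO A B) (e : OO A B → ℂ) (b : ℤ) (M : ℕ)
    (x : OO A B) : ℂ :=
  e x * ex (b * nm x / M) * ee L (Om * emb x / emb g')

lemma Fn_per (hPER : St_PER) (hc : Case A B) {L : PeriodPair} {Om : ℂ} (hL : IsLat A B L Om)
    {g g' : OO A B} (hg' : g' ≠ 0) {e : OO A B → ℂ} (he : IsEps g e) (hgg' : g ∣ g') {M : ℕ}
    (hM : 0 < M) (hMg' : (M : OO A B) ∣ g') (b : ℤ) :
    ∀ x y, g' ∣ x - y → Fn L Om g' e b M x = Fn L Om g' e b M y := by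
  intro x y hxy
  have h1 : e x = e y := he.per x y (hgg'.trans hxy)
  obtain ⟨k, hk⟩ := nm_mod M (hMg'.trans hxy)
  have h2 : ex (b * nm x / M) = ex (b * nm y / M) := by
    have hM' : (M : ℚ) ≠ 0 := by exact_mod_cast hM.ne'
    have h3 : (b * nm x / M : ℚ) = b * nm y / M + ((b * k : ℤ) : ℚ) := by
      rw [hk]
      push_cast
      field_simp
    rw [h3, ex_add_int]
  obtain ⟨w, hw⟩ := hxy
  have hg0 := emb_ne_zero hc hg'
  have h4 : Om * emb x / emb g' = Om * emb y / emb g' + Om * emb w := by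
    have h5 : emb x = emb y + emb g' * emb w := by
      rw [← emb_mul hc, ← hw, emb_sub hc]
      ring
    rw [h5]
    field_simp
  have h6 : Om * emb w ∈ L.lattice := (hL.mem _).2 ⟨w, rfl⟩
  unfold Fn
  rw [h1, h2, h4, (hPER L).1 _ _ h6]

lemma sum_shift (m : OO A B) [Fintype (OO A B ⧸ Ideal.span {m})] (F : OO A B → ℂ)
    (hF : ∀ x y, m ∣ x - y → F x = F y) (a : OO A B) (ha : IsCoprime a m) :
    ∑ q : OO A B ⧸ Ideal.span {m}, F (a * Quotient.out q) =
      ∑ q : OO A B ⧸ Ideal.span {m}, F (Quotient.out q) := by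
  obtain ⟨u, w, huw⟩ := ha
  let R := OO A B ⧸ Ideal.span {m}
  have hm0 : Ideal.Quotient.mk (Ideal.span {m}) m = 0 :=
    Ideal.Quotient.eq_zero_iff_mem.mpr (Ideal.mem_span_singleton_self m)
  have hu : Ideal.Quotient.mk (Ideal.span {m}) u * Ideal.Quotient.mk (Ideal.span {m}) a = 1 := by
    rw [← map_mul, ← map_one (Ideal.Quotient.mk (Ideal.span {m})), ← huw, map_add, map_mul _ w m,
      hm0, mul_zero, add_zero]
  have hbij : Function.Bijective
      (fun q : OO A B ⧸ Ideal.span {m} => Ideal.Quotient.mk (Ideal.span {m}) a * q) := by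
    rw [Function.bijective_iff_has_inverse]
    refine ⟨fun q => Ideal.Quotient.mk (Ideal.span {m}) u * q, fun q => ?_, fun q => ?_⟩
    · show Ideal.Quotient.mk (Ideal.span {m}) u * (Ideal.Quotient.mk (Ideal.span {m}) a * q) = q
      rw [← mul_assoc, hu, one_mul]
    · show Ideal.Quotient.mk (Ideal.span {m}) a * (Ideal.Quotient.mk (Ideal.span {m}) u * q) = q
      rw [← mul_assoc, mul_comm (Ideal.Quotient.mk (Ideal.span {m}) a), hu, one_mul]
  have hout : ∀ q : OO A B ⧸ Ideal.span {m},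
      Ideal.Quotient.mk (Ideal.span {m}) (Quotient.out q) = q := fun q => Quotient.out_eq q
  have key : ∀ q : OO A B ⧸ Ideal.span {m}, F (a * Quotient.out q) =
      F (Quotient.out (Ideal.Quotient.mk (Ideal.span {m}) a * q)) := by
    intro q
    apply hF
    rw [← Ideal.mem_span_singleton, ← Ideal.Quotient.eq, map_mul, hout, hout]
  rw [Finset.sum_congr rfl fun q _ => key q]
  exact hbij.sum_comp (fun q : OO A B ⧸ Ideal.span {m} => F (Quotient.out q))

/-- the character `τ ∘ e` -/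
def tw {F : IntermediateField (kk A B) ℂ} (τ : F ≃ₐ[kk A B] F) (e : OO A B → ℂ)
    (he : ∀ z, e z ∈ F) (z : OO A B) : ℂ := ((τ ⟨e z, he z⟩ : F) : ℂ)

lemma tw_eps {g : OO A B} {F : IntermediateField (kk A B) ℂ} (τ : F ≃ₐ[kk A B] F)
    {e : OO A B → ℂ} (he : ∀ z, e z ∈ F) (hE : IsEps g e) : IsEps g (tw τ e he) := by
  constructor
  · have h1 : (⟨e 1, he 1⟩ : F) = 1 := Subtype.ext hE.one
    unfold tw
    rw [h1, map_one]
    rfl
  · intro x y
    have h1 : (⟨e (x * y), he (x * y)⟩ : F) = ⟨e x, he x⟩ * ⟨e y, he y⟩ :=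
      Subtype.ext (hE.mul x y)
    unfold tw
    rw [h1, map_mul]
    rfl
  · intro x y hxy
    have h1 : (⟨e x, he x⟩ : F) = ⟨e y, he y⟩ := Subtype.ext (hE.per x y hxy)
    unfold tw
    rw [h1]
  · intro x
    rw [← hE.supp x]
    unfold tw
    rw [Ne, Ne, not_iff_not]
    constructor
    · intro h
      have h1 : τ ⟨e x, he x⟩ = 0 := Subtype.ext h
      have h2 := (map_eq_zero τ).mp h1
      exact congrArg Subtype.val h2
    · intro h
      have h1 : (⟨e x, he x⟩ : F) = 0 := Subtype.ext h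
      rw [h1, map_zero]
      rfl
  · have h1 : (⟨e (-1), he (-1)⟩ : F) = -1 := Subtype.ext hE.neg
    unfold tw
    rw [h1, map_neg, map_one]
    rfl

lemma term (h6 : St_F6M) (hc : Case A B) {L : PeriodPair} {Om : ℂ} (hL : IsCM A B L Om)
    {g g' : OO A B} (hg' : g' ≠ 0) (hgu : ¬ IsUnit g) {e : OO A B → ℂ} (hE : IsEps g e)
    (hgg' : g ∣ g') {M : ℕ} (hM : 0 < M) (hMg' : (M : OO A B) ∣ g') (b : ℤ)
    (F : IntermediateField (kk A B) ℂ) (hF : TF L g' ≤ F) (he : ∀ z, e z ∈ F) (x : OO A B) :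
    ∃ h : Fn L Om g' e b M x ∈ F, ∀ (τ : F ≃ₐ[kk A B] F) (a : OO A B), Act L (em τ) g' a →
      tw τ e he a * ((τ ⟨_, h⟩ : F) : ℂ) = Fn L Om g' (tw τ e he) b M (a * x) := by
  have hTw := fun τ : F ≃ₐ[kk A B] F => tw_eps τ he hE
  by_cases hx : e x = 0
  · have h0 : Fn L Om g' e b M x = 0 := by unfold Fn; rw [hx, zero_mul, zero_mul]
    have hmem : Fn L Om g' e b M x ∈ F := by rw [h0]; exact F.zero_mem
    refine ⟨hmem, fun τ a _ => ?_⟩
    have h1 : (⟨Fn L Om g' e b M x, hmem⟩ : F) = 0 := Subtype.ext h0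
    have h2 : tw τ e he x = 0 := by
      have h3 : (⟨e x, he x⟩ : F) = 0 := Subtype.ext hx
      unfold tw
      rw [h3, map_zero]
      rfl
    rw [h1, map_zero]
    unfold Fn
    rw [(hTw τ).mul, h2, mul_zero, zero_mul, zero_mul]
    exact mul_zero _
  · obtain ⟨p1, p2⟩ := h6 A B hc L Om hL g' hg' F hF
    have hg0 := emb_ne_zero hc hg'
    have hz1 : emb g' * (Om * emb x / emb g') ∈ L.lattice := by
      have : emb g' * (Om * emb x / emb g') = Om * emb x := by field_simp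
      rw [this]
      exact (hL.mem _).2 ⟨x, rfl⟩
    have hz2 : Om * emb x / emb g' ∉ L.lattice := by
      intro hmem
      have h1 : emb x * (Om / emb g') ∈ L.lattice := by
        have : emb x * (Om / emb g') = Om * emb x / emb g' := by ring
        rw [this]
        exact hmem
      have h2 := (hL.toIsLat.mul_div_mem_iff hc hg' x).1 h1
      have h3 := (hE.supp x).1 hx
      exact hgu (h3.isUnit_of_dvd' (hgg'.trans h2) dvd_rfl)
    obtain ⟨q1, q2⟩ := p1 _ hz1 hz2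
    obtain ⟨r1, r2⟩ := p2 M hM hMg' (b * nm x)
    have hcast : (((b * nm x : ℤ) : ℚ) / M : ℚ) = (b * nm x / M : ℚ) := by push_cast; rfl
    have r1' : ex (b * nm x / M) ∈ F := by
      have := r1
      rwa [hcast] at this
    have hmem : Fn L Om g' e b M x ∈ F := F.mul_mem (F.mul_mem (he x) r1') q1
    refine ⟨hmem, fun τ a ha => ?_⟩
    have e1 : (⟨Fn L Om g' e b M x, hmem⟩ : F) = ⟨e x, he x⟩ * ⟨_, r1⟩ * ⟨_, q1⟩ := by
      apply Subtype.ext
      show Fn L Om g' e b M x = e x * ex (((b * nm x : ℤ) : ℚ) / M : ℚ) * ee L _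
      rw [hcast]
      rfl
    have e2 : ((τ ⟨_, q1⟩ : F) : ℂ) = ee L (emb a * (Om * emb x / emb g')) := q2 (em τ) a ha
    have e3 : ((τ ⟨_, r1⟩ : F) : ℂ) = ex (((b * nm x : ℤ) : ℚ) * nm a / M : ℚ) := r2 (em τ) a ha
    rw [e1, map_mul, map_mul]
    show tw τ e he a * (((τ ⟨e x, he x⟩ : F) : ℂ) * ((τ ⟨_, r1⟩ : F) : ℂ) *
      ((τ ⟨_, q1⟩ : F) : ℂ)) = _
    rw [e2, e3]
    unfold Fn
    rw [(hTw τ).mul, nm_mul, emb_mul hc]
    have e4 : (((b * nm x : ℤ) : ℚ) * nm a / M : ℚ) = (b * ((nm a * nm x : ℤ) : ℚ) / M : ℚ) := by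
      push_cast; ring
    have e5 : emb a * (Om * emb x / emb g') = Om * (emb a * emb x) / emb g' := by ring
    rw [e4, e5]
    show tw τ e he a * (tw τ e he x * _ * _) = _
    ring

lemma phi_eq (h4 : Sf_F4) (hc : Case A B) {L : PeriodPair} {Om : ℂ} (hL : IsLat A B L Om)
    {g g' : OO A B} (hg' : g' ≠ 0) {e : OO A B → ℂ} (hE : IsEps g e) (hgg' : g ∣ g') {M : ℕ}
    (hM : 0 < M) (hMg' : (M : OO A B) ∣ g') (b : ℤ) [Fintype (OO A B ⧸ Ideal.span {g'})] :
    Phi e ∞ ((b / M : ℚ) : OnePoint ℚ) / Om = (1 / (2 * emb g')) *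
      ∑ q : OO A B ⧸ Ideal.span {g'}, Fn L Om g' e b M (Quotient.out q) := by
  have h1 := (h4 A B hc L Om hL g g' e hE hg' hgg' M hM hMg' b).2
  have h2 : Phi e ∞ ((b / M : ℚ) : OnePoint ℚ) = 0 - Iv e (b / M : ℚ) := rfl
  have h3 : sumMod g' (fun x => e x * ex (b * nm x / M) * ee L (Om * emb x / emb g')) =
      ∑ q : OO A B ⧸ Ideal.span {g'}, Fn L Om g' e b M (Quotient.out q) :=
    finsum_eq_sum_of_fintype _
  rw [h2, h1, h3]
  have hOm := hL.Om_ne
  have hg0 := emb_ne_zero hc hg'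
  field_simp
  ring

lemma star (hPER : St_PER) (h4 : Sf_F4) (h6 : St_F6M) (hc : Case A B) {L : PeriodPair} {Om : ℂ}
    (hL : IsCM A B L Om) {g g' : OO A B} (hg' : g' ≠ 0) (hgu : ¬ IsUnit g) {e : OO A B → ℂ}
    (hE : IsEps g e) (hgg' : g ∣ g') {M : ℕ} (hM : 0 < M) (hMg' : (M : OO A B) ∣ g') (b : ℤ)
    (hfin : Finite (OO A B ⧸ Ideal.span {g'}))
    (F : IntermediateField (kk A B) ℂ) (hF : TF L g' ≤ F) (he : ∀ z, e z ∈ F) :
    ∃ hv : Phi e ∞ ((b / M : ℚ) : OnePoint ℚ) / Om ∈ F, ∀ (τ : F ≃ₐ[kk A B] F) (a : OO A B),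
      Act L (em τ) g' a → Phi (tw τ e he) ∞ ((b / M : ℚ) : OnePoint ℚ) =
        Om * (tw τ e he a * ((τ ⟨_, hv⟩ : F) : ℂ)) := by
  have hft : Fintype (OO A B ⧸ Ideal.span {g'}) := Fintype.ofFinite _
  have hg0 := emb_ne_zero hc hg'
  have hOm := hL.Om_ne
  choose t1 t2 using term h6 hc hL hg' hgu hE hgg' hM hMg' b F hF he
  let κ : kk A B := 1 / (2 * ek g')
  have hκ : (κ : ℂ) = 1 / (2 * emb g') := rfl
  let v : F := algebraMap (kk A B) F κ *
    ∑ q : OO A B ⧸ Ideal.span {g'}, (⟨_, t1 (Quotient.out q)⟩ : F)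
  have hv : (v : ℂ) = Phi e ∞ ((b / M : ℚ) : OnePoint ℚ) / Om := by
    rw [phi_eq h4 hc hL.toIsLat hg' hE hgg' hM hMg' b, ← hκ]
    show ((algebraMap (kk A B) F κ : F) : ℂ) * ((∑ q : OO A B ⧸ Ideal.span {g'},
      (⟨_, t1 (Quotient.out q)⟩ : F) : F) : ℂ) = _
    rw [AddSubmonoidClass.coe_finsetSum]
    rfl
  have hmem : Phi e ∞ ((b / M : ℚ) : OnePoint ℚ) / Om ∈ F := by
    rw [← hv]
    exact v.2
  refine ⟨hmem, fun τ a ha => ?_⟩
  have hve : (⟨_, hmem⟩ : F) = v := Subtype.ext hv.symm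
  have hτE := tw_eps τ he hE
  have e1 : ((τ v : F) : ℂ) = (κ : ℂ) * ∑ q : OO A B ⧸ Ideal.span {g'},
      ((τ ⟨_, t1 (Quotient.out q)⟩ : F) : ℂ) := by
    have e2 : τ v = algebraMap (kk A B) F κ *
        ∑ q : OO A B ⧸ Ideal.span {g'}, τ (⟨_, t1 (Quotient.out q)⟩ : F) := by
      rw [map_mul, AlgEquiv.commutes, map_sum]
    rw [e2]
    show ((algebraMap (kk A B) F κ : F) : ℂ) * ((∑ q : OO A B ⧸ Ideal.span {g'},
      τ (⟨_, t1 (Quotient.out q)⟩ : F) : F) : ℂ) = _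
    rw [AddSubmonoidClass.coe_finsetSum]
    rfl
  have e3 : tw τ e he a * ((τ v : F) : ℂ) = Phi (tw τ e he) ∞ ((b / M : ℚ) : OnePoint ℚ) / Om := by
    rw [phi_eq h4 hc hL.toIsLat hg' hτE hgg' hM hMg' b, ← hκ, e1,
      ← sum_shift g' _ (Fn_per hPER hc hL.toIsLat hg' hτE hgg' hM hMg' b) a ha.1, mul_left_comm,
      Finset.mul_sum]
    congr 1
    exact Finset.sum_congr rfl fun q _ => t2 (Quotient.out q) τ a ha
  rw [hve, e3]
  field_simp

end F6C

open F6C in
theorem t_F6C (hPER : St_PER) (hALG : Sf_ALG) (h4 : Sf_F4) (h6 : St_F6M) (hGAL : Sa_GAL)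
    (hACT : Sa_ACT) (hNRM : Sa_NRM) : St_F6C := by
  intro A B hc L Om hL g hg hgu e hE H _ _ hgH he M hM b
  obtain ⟨-, -, hnat, hfinq, -, -⟩ := hALG A B hc
  let g' : OO A B := g * (M : OO A B)
  have hM0 : (M : OO A B) ≠ 0 := by
    intro h0
    have h1 := emb_natCast hc M
    rw [h0, emb_zero hc] at h1
    exact hM.ne' (by exact_mod_cast h1.symm)
  have hg' : g' ≠ 0 := by
    intro h0
    have h1 : emb g * emb (M : OO A B) = 0 := by
      rw [← emb_mul hc]
      show emb g' = 0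
      rw [h0, emb_zero hc]
    exact mul_ne_zero (emb_ne_zero hc hg) (emb_ne_zero hc hM0) h1
  have hgg' : g ∣ g' := Dvd.intro _ rfl
  have hMg' : (M : OO A B) ∣ g' := Dvd.intro_left _ rfl
  have hfin := hfinq g' hg'
  obtain ⟨n1, n2⟩ := hNRM A B L Om hc hL g' hg'
  let F : IntermediateField (kk A B) ℂ := H ⊔ TF L g'
  have hHF : H ≤ F := le_sup_left
  have hTF : TF L g' ≤ F := le_sup_right
  have fdF : FiniteDimensional (kk A B) F := IntermediateField.finiteDimensional_sup H (TF L g')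
  have galF : IsGalois (kk A B) F := inferInstance
  have heF : ∀ z, e z ∈ F := fun z => hHF (he z)
  obtain ⟨hv, hst⟩ := star hPER h4 h6 hc hL hg' hgu hE hgg' hM hMg' b hfin F hTF heF
  obtain ⟨a1, -, a3, -, -, -, -, a8⟩ := hACT A B L Om hc hL g' hg'
  obtain ⟨b1, -, -, -, -, -, -, b8⟩ := hACT A B L Om hc hL g hg
  have hOm := hL.Om_ne
  have hvH : Phi e ∞ ((b / M : ℚ) : OnePoint ℚ) / Om ∈ H := by
    have key : (⟨_, hv⟩ : F) ∈ IntermediateField.restrict hHF := by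
      rw [← IsGalois.fixedField_fixingSubgroup (IntermediateField.restrict hHF)]
      rintro ⟨τ, hτ⟩
      have hτH : ∀ y : F, (y : ℂ) ∈ H → τ y = y := fun y hy =>
        (IntermediateField.mem_fixingSubgroup_iff _ τ).1 hτ y
          ((IntermediateField.mem_restrict hHF y).2 hy)
      obtain ⟨a, ha⟩ := hGAL A B L Om hc hL g' hg' F hTF (em τ)
      have ha' : Act L (em τ) g a := a3 F (em τ) a g hgg' ha
      have h1 : Act L (em τ) g 1 := by
        refine ⟨isCoprime_one_left, fun z hz1 hz2 => ?_⟩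
        rw [emb_one hc, one_mul]
        refine ⟨hz2, fun hx => ?_, fun hy => ?_⟩
        · have h2 : xx A B L z ∈ H := hgH (IntermediateField.subset_adjoin _ _
            ⟨z, hz1, hz2, Or.inl rfl⟩)
          exact congrArg Subtype.val (hτH ⟨_, hx⟩ h2)
        · have h2 : yy L z ∈ H := hgH (IntermediateField.subset_adjoin _ _
            ⟨z, hz1, hz2, Or.inr rfl⟩)
          exact congrArg Subtype.val (hτH ⟨_, hy⟩ h2)
      have hdvd : g ∣ a - 1 := b1 F (em τ) a 1 ((le_trans hgH hHF)) ha' h1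
      have htw : tw τ e heF = e := by
        funext z
        unfold tw
        rw [hτH ⟨e z, heF z⟩ (he z)]
      have h5 := hst τ a ha
      rw [htw, hE.per a 1 hdvd, hE.one, one_mul] at h5
      apply Subtype.ext
      show ((τ ⟨_, hv⟩ : F) : ℂ) = Phi e ∞ ((b / M : ℚ) : OnePoint ℚ) / Om
      exact eq_div_of_mul_eq hOm (by rw [mul_comm]; exact h5.symm)
    exact (IntermediateField.mem_restrict hHF _).1 key
  refine ⟨hvH, fun σ a₀ ha₀ => ?_⟩
  let _ : Algebra H F := (IntermediateField.inclusion hHF).toRingHom.toAlgebra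
  have tow : IsScalarTower (kk A B) H F := IsScalarTower.of_algebraMap_eq fun _ => rfl
  obtain ⟨τ, hτ⟩ := AlgEquiv.restrictNormalHom_surjective (F := kk A B) (K₁ := H) F σ
  have hres : ∀ x : H, ((τ ⟨(x : ℂ), hHF x.2⟩ : F) : ℂ) = ((σ x : H) : ℂ) := by
    intro x
    have h2 := AlgEquiv.restrictNormal_commutes τ H x
    rw [← hτ]
    exact (congrArg Subtype.val h2).symm
  obtain ⟨a, ha⟩ := hGAL A B L Om hc hL g' hg' F hTF (em τ)
  have ha' : Act L (em τ) g a := a3 F (em τ) a g hgg' ha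
  have ha2 : Act L ((em τ).comp (IntermediateField.inclusion hHF)) g a := b8 H F hHF (em τ) a ha'
  have heq : (em τ).comp (IntermediateField.inclusion hHF) = em σ := by
    apply AlgHom.ext
    intro x
    exact hres x
  rw [heq] at ha2
  have hdvd : g ∣ a - a₀ := b1 H (em σ) a a₀ hgH ha2 ha₀
  have htw : tw τ e heF = fun z => ((σ ⟨e z, he z⟩ : H) : ℂ) := by
    funext z
    exact hres ⟨e z, he z⟩
  have hTE := tw_eps τ heF hE
  have h5 := hst τ a ha
  rw [hTE.per a a₀ hdvd, htw] at h5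
  rw [h5]
  have h6 := hres ⟨_, hvH⟩
  rw [← h6]

end

end Pool.Agent.MU3G
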