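import Pool.Agent.MU3.StF6
import Pool.Agent.MU3.BAll
import Pool.Agent.MU3.W_THG

/-!
# MU3, block F6, module F6E: algebraicity of `ee L` at the torsion points, and the Galois action
-/

set_option autoImplicit false

namespace Pool.Agent.MU3G

open _root_.MU3 Pool.Agent.MU3A Pool.Agent.MU3B Pool.Agent.MU3F Pool.Agent.MuSym OnePoint NumberField
open Pool.Agent.MU3V.W_THG

noncomputable section

namespace F6E

variable {A B : ℤ}

/-- a nonzero integer divisible by `m` -/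
theorem exists_int (h : Case A B) (m : OO A B) (hm : m ≠ 0) :
    ∃ n : ℤ, n ≠ 0 ∧ m ∣ (n : OO A B) := by
  refine ⟨nm m, ?_, ⟨⟨m.re + B * m.im, -m.im⟩, ?_⟩⟩
  · intro h0
    apply hm
    have h1 : m.re ^ 2 + B * m.re * m.im - A * m.im ^ 2 = 0 := h0
    rcases h with ⟨rfl, rfl⟩ | ⟨rfl, rfl⟩
    · have h2 : m.im = 0 := by nlinarith [sq_nonneg m.re, sq_nonneg m.im]
      have h3 : m.re = 0 := by nlinarith [sq_nonneg m.re, sq_nonneg m.im]
      exact QuadraticAlgebra.ext h3 h2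
    · have h2 : m.im = 0 := by nlinarith [sq_nonneg (2 * m.re + m.im), sq_nonneg m.im]
      have h3 : m.re = 0 := by
        rw [h2] at h1
        nlinarith [sq_nonneg m.re]
      exact QuadraticAlgebra.ext h3 h2
  · apply QuadraticAlgebra.ext
    · simp only [nm, QuadraticAlgebra.re_mul, QuadraticAlgebra.re_intCast, Int.cast_id]
      ring
    · simp only [QuadraticAlgebra.im_mul, QuadraticAlgebra.im_intCast]
      ring

/-- the action at the level `m b` -/
theorem ee_act {L : PeriodPair} {Om : ℂ} (h : Case A B) (hL : IsLat A B L Om)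
    (m : OO A B) (b : ℤ) (hb0 : b ≠ 0) (hb1 : b ≠ 1) (H : Finset ℂ) (hH : IsHalf L b H) (z : ℂ)
    (hz : emb m * z ∈ L.lattice) (hz0 : z ∉ L.lattice) (hbz : ((b : ℂ) - 1) * z ∈ L.lattice)
    (F : IntermediateField (kk A B) ℂ) (hF : TF L (m * (b : OO A B)) ≤ F) :
    ∃ hm : ee L z ∈ F, ∀ (σ : F →ₐ[kk A B] ℂ) (a : OO A B),
      Act L σ (m * (b : OO A B)) a → σ ⟨ee L z, hm⟩ = ee L (emb a * z) := by
  classical
  have hx : ∀ y, emb (m * (b : OO A B)) * y ∈ L.lattice → y ∉ L.lattice → xx A B L y ∈ F :=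
    fun y h1 h2 => hF (IntermediateField.subset_adjoin _ _ ⟨y, h1, h2, Or.inl rfl⟩)
  have hy : ∀ y, emb (m * (b : OO A B)) * y ∈ L.lattice → y ∉ L.lattice → yy L y ∈ F :=
    fun y h1 h2 => hF (IntermediateField.subset_adjoin _ _ ⟨y, h1, h2, Or.inr rfl⟩)
  have hea : emb (m * (b : OO A B)) = emb m * (b : ℂ) := by
    rw [emb_mul h, emb_intCast h]
  have hzN : emb (m * (b : OO A B)) * z ∈ L.lattice := by
    rw [hea]
    have e : emb m * (b : ℂ) * z = (b : ℂ) * (emb m * z) := by ring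
    rw [e]
    exact lat_int L b hz
  have hpN : ∀ p ∈ H, emb (m * (b : OO A B)) * p ∈ L.lattice := by
    intro p hp
    rw [hea, mul_assoc]
    exact hL.emb_mul_mem h m (hH.mem p hp)
  have hp0 : ∀ p ∈ H, p ∉ L.lattice := by
    intro p hp hcon
    apply hH.ne p hp
    rw [two_mul]
    exact add_mem hcon hcon
  let f : ℂ → F := fun p => if hp : xx A B L p ∈ F then ⟨xx A B L p, hp⟩ else 0
  have hf : ∀ y (hy : xx A B L y ∈ F), f y = ⟨xx A B L y, hy⟩ := fun y hy => dif_pos hy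
  have hyz : yy L z ∈ F := hy z hzN hz0
  have hb : ((b : ℂ) - (b : ℂ) ^ 2) ≠ 0 := by
    have e : (b : ℂ) - (b : ℂ) ^ 2 = (b : ℂ) * (1 - (b : ℂ)) := by ring
    rw [e]
    refine mul_ne_zero (by exact_mod_cast hb0) ?_
    rw [sub_ne_zero]
    exact fun hc => hb1 (by exact_mod_cast hc.symm)
  -- the value as an element of `F`
  set S : F := (∑ p ∈ H, 2 * (⟨yy L z, hyz⟩ : F) / (f z - f p)) / ((b : F) - (b : F) ^ 2) with hS
  have hval : ((S : F) : ℂ) = ee L z := by
    have e1 : ((S : F) : ℂ) = F.val S := rfl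
    rw [e1, hS, map_div₀, map_sum, map_sub, map_pow, map_intCast, div_eq_iff hb, mul_comm (ee L z),
      b_TRA L b H hb0 hH z hz0 hbz]
    refine Finset.sum_congr rfl fun p hp => ?_
    rw [map_div₀, map_mul, map_sub, map_ofNat, hf z (hx z hzN hz0),
      hf p (hx p (hpN p hp) (hp0 p hp))]
    show 2 * yy L z / (xx A B L z - xx A B L p) = _
    unfold xx yy
    congr 1
    · ring
    · ring
  have hm : ee L z ∈ F := by
    rw [← hval]
    exact S.2
  refine ⟨hm, fun σ a hσ => ?_⟩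
  have e1 : (⟨ee L z, hm⟩ : F) = S := Subtype.ext hval.symm
  have hba : IsCoprime a (b : OO A B) := hσ.1.of_isCoprime_of_dvd_right (dvd_mul_left _ _)
  have hH' := isHalf_mul h hL b H hH a hba
  have haz : emb a * z ∉ L.lattice := (hσ.2 z hzN hz0).1
  have hbaz : ((b : ℂ) - 1) * (emb a * z) ∈ L.lattice := by
    have e : ((b : ℂ) - 1) * (emb a * z) = emb a * (((b : ℂ) - 1) * z) := by ring
    rw [e]
    exact hL.emb_mul_mem h a hbz
  rw [e1, hS, map_div₀, map_sum, map_sub, map_pow, map_intCast, div_eq_iff hb,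
    mul_comm (ee L (emb a * z)), b_TRA L b _ hb0 hH' _ haz hbaz, Finset.sum_image]
  · refine Finset.sum_congr rfl fun p hp => ?_
    rw [map_div₀, map_mul, map_sub, map_ofNat, hf z (hx z hzN hz0),
      hf p (hx p (hpN p hp) (hp0 p hp)), (hσ.2 z hzN hz0).2.1 _,
      (hσ.2 p (hpN p hp) (hp0 p hp)).2.1 _, (hσ.2 z hzN hz0).2.2 hyz]
    unfold xx yy
    congr 1
    · ring
    · ring
  · intro p hp p' hp' hpp
    have hpp' : emb a * p = emb a * p' := hpp
    apply hH.inj p hp p' hp'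
    have hea' : emb ((b : ℤ) : OO A B) = (b : ℂ) := emb_intCast h b
    refine hL.mem_of_coprime h hba ?_ ?_
    · rw [mul_sub, hpp', sub_self]
      exact zero_mem _
    · rw [hea', mul_sub]
      exact sub_mem (hH.mem p hp) (hH.mem p' hp')

end F6E

/-- F6E. -/
theorem t_F6E (h1 : Sa_NRM) (h2 : Sa_GAL) (h3 : Sa_ACT) : St_F6E := by
  intro A B h L Om hL m hm z hz hz0
  obtain ⟨n, hn0, hmn⟩ := F6E.exists_int h m hm
  have hnz : (n : ℂ) * z ∈ L.lattice := by
    obtain ⟨t, ht⟩ := hmn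
    have h5 := congrArg emb ht
    rw [emb_intCast h, emb_mul h] at h5
    rw [h5]
    have e : emb m * emb t * z = emb t * (emb m * z) := by ring
    rw [e]
    exact hL.toIsLat.emb_mul_mem h t hz
  obtain ⟨b, hb⟩ : ∃ b : ℤ, b = 1 + 2 * n := ⟨_, rfl⟩
  have hb0 : b ≠ 0 := by omega
  have hb1 : b ≠ 1 := by omega
  have hbc : (b : ℂ) = 1 + 2 * (n : ℂ) := by
    rw [hb]
    push_cast
    ring
  have hbz : ((b : ℂ) - 1) * z ∈ L.lattice := by
    have e : ((b : ℂ) - 1) * z = (2 : ℤ) * ((n : ℂ) * z) := by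
      rw [hbc]
      push_cast
      ring
    rw [e]
    exact lat_int L 2 hnz
  obtain ⟨H, hH⟩ := b_HAL L (b : ℂ) (by exact_mod_cast hb0) (fun w hw => lat_int L b hw) (by
    intro y hy1 hy2
    have e : y = (b : ℂ) * y - (n : ℂ) * (2 * y) := by
      rw [hbc]
      ring
    rw [e]
    exact sub_mem hy1 (lat_int L n hy2))
  obtain ⟨N, hN⟩ : ∃ N : OO A B, N = m * (b : OO A B) := ⟨_, rfl⟩
  have hea : emb N = emb m * (b : ℂ) := by
    rw [hN, emb_mul h, emb_intCast h]
  have hN0 : N ≠ 0 := by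
    intro h0
    have h5 : emb N = 0 := by rw [h0, emb_zero h]
    rw [hea] at h5
    rcases mul_eq_zero.1 h5 with h6 | h6
    · exact emb_ne_zero h hm h6
    · exact hb0 (by exact_mod_cast h6)
  have hmN : m ∣ N := by
    rw [hN]
    exact dvd_mul_right _ _
  have hle : TF L m ≤ TF L N := by
    apply IntermediateField.adjoin.mono
    rintro c ⟨y, hy, hy0, hc⟩
    refine ⟨y, ?_, hy0, hc⟩
    rw [hea]
    have e : emb m * (b : ℂ) * y = (b : ℂ) * (emb m * y) := by ring
    rw [e]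
    exact lat_int L b hy
  obtain ⟨hfd, hgal⟩ := h1 A B L Om h hL N hN0
  obtain ⟨hmem, hact⟩ := F6E.ee_act h hL.toIsLat m b hb0 hb1 H hH z hz hz0 hbz (TF L N)
    (by rw [← hN])
  rw [← hN] at hact
  obtain ⟨c1, -, -, -, -, -, c7, c8⟩ := h3 A B L Om h hL m hm
  obtain ⟨-, -, d3, -, -, -, -, -⟩ := h3 A B L Om h hL N hN0
  -- congruent elements give the same value
  have hcong : ∀ a a' : OO A B, m ∣ a' - a → ee L (emb a' * z) = ee L (emb a * z) := by
    rintro a a' ⟨t, ht⟩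
    have e : emb a' * z = emb a * z + emb t * (emb m * z) := by
      have h5 := congrArg emb ht
      rw [emb_sub h, emb_mul h] at h5
      linear_combination z * h5
    rw [e]
    exact (b_PER L).1 _ _ (hL.toIsLat.emb_mul_mem h t hz)
  -- membership
  have hz' : ee L z ∈ TF L m := by
    refine mem_of_fixed (TF L m) (TF L N) hle ⟨ee L z, hmem⟩ fun σ hσ => ?_
    obtain ⟨a, ha⟩ := h2 A B L Om h hL N hN0 (TF L N) le_rfl (em σ)
    have hv := hact (em σ) a ha
    have ha' : Act L ((em σ).comp (IntermediateField.inclusion hle)) m a :=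
      c8 _ _ hle _ _ (d3 _ _ _ _ hmN ha)
    have heq : (em σ).comp (IntermediateField.inclusion hle) =
        em (1 : TF L m ≃ₐ[kk A B] TF L m) := AlgHom.ext fun y => hσ y
    rw [heq] at ha'
    have h5 := c1 _ _ _ _ le_rfl ha' (c7 _ le_rfl)
    apply Subtype.ext
    have h6 : em σ ⟨ee L z, hmem⟩ = ee L z := by
      rw [hv, hcong 1 a h5, emb_one h, one_mul]
    exact h6
  refine ⟨hz', fun σ a hσ => ?_⟩
  -- extend the embedding
  obtain ⟨σ', hσ'⟩ := ext_hom (TF L m) (TF L N) hle σ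
  obtain ⟨a', ha'⟩ := h2 A B L Om h hL N hN0 (TF L N) le_rfl σ'
  have ha2 : Act L (σ'.comp (IntermediateField.inclusion hle)) m a' :=
    c8 _ _ hle _ _ (d3 _ _ _ _ hmN ha')
  rw [hσ'] at ha2
  have h5 := c1 _ _ _ _ le_rfl ha2 hσ
  have h6 := hact σ' a' ha'
  have h7 := DFunLike.congr_fun hσ' (⟨ee L z, hz'⟩ : TF L m)
  rw [AlgHom.comp_apply] at h7
  rw [← hcong a a' h5, ← h6, ← h7]
  rfl

end

end Pool.Agent.MU3G
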