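import Pool.Agent.MU3.StF6
import Pool.Agent.MU3.G_G0

/-!
# MU3, block F6: module F6M (helper50)
-/

set_option autoImplicit false

namespace Pool.Agent.MU3G

open MU3 Pool.Agent.MU3A Pool.Agent.MU3B Pool.Agent.MU3F Pool.Agent.MuSym OnePoint NumberField

noncomputable section

theorem t_F6M (hE : St_F6E) (hC : Sa_CYC) (hA : Sa_ACT) : St_F6M := by
  intro A B h L Om hL m hm F hF
  obtain ⟨-, -, a3, -, -, -, -, a8⟩ := hA A B L Om h hL m hm
  refine ⟨fun z hz hz' => ?_, fun M hM hMm c => ?_⟩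
  · obtain ⟨hzF, hσ⟩ := hE A B h L Om hL m hm z hz hz'
    refine ⟨hF hzF, fun σ a ha => ?_⟩
    exact hσ (σ.comp (IntermediateField.inclusion hF)) a (a8 _ _ hF σ a ha)
  · have hM0 : M ≠ 0 := hM.ne'
    have tow : TF L (M : OO A B) ≤ TF L m := by
      obtain ⟨d, rfl⟩ := hMm
      refine IntermediateField.adjoin.mono _ _ _ ?_
      rintro c ⟨z, hz, hz', hc⟩
      refine ⟨z, ?_, hz', hc⟩
      rw [emb_mul h, mul_comm (emb (M : OO A B)), mul_assoc]
      exact hL.emb_mul_mem h d hz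
    have hMC : (M : ℂ) ≠ 0 := by exact_mod_cast hM0
    have hpow : ∀ k : ℕ, ex (c / M : ℚ) ^ k = ex (c * k / M : ℚ) := by
      intro k
      unfold ex
      rw [← Complex.exp_nat_mul]
      congr 1
      push_cast
      ring
    have hone : ex (c / M : ℚ) ^ M = 1 := by
      rw [hpow]
      unfold ex
      rw [Complex.exp_eq_one_iff]
      refine ⟨c, ?_⟩
      push_cast
      field_simp
    obtain ⟨c1, c2⟩ := hC A B L Om h hL M hM0 _ hone
    refine ⟨hF (tow c1), fun σ a ha => ?_⟩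
    rw [c2 F (tow.trans hF) (hF (tow c1)) σ a (a3 _ _ _ _ hMm ha), hpow]
    have hn : ((nm a).toNat : ℚ) = (nm a : ℚ) := by
      have : ((nm a).toNat : ℤ) = nm a := Int.toNat_of_nonneg (G0.nm_nonneg h a)
      exact_mod_cast this
    rw [hn]

end

end Pool.Agent.MU3G
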