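import Pool.Agent.MU3.StG

/-!
# MU3, block G: module G1 (helper18)
-/

set_option autoImplicit false

namespace Pool.Agent.MU3G

open MU3 NumberField

namespace G18

/-- The residue characters are linearly independent: there is a point where a combination with
coefficients outside `P` does not vanish. -/
theorem dedekind {R ι : Type} [CommRing R] (P : Ideal R) [hP : P.IsPrime] (D : Finset ι)
    (hD : D.Nonempty) (f : ι → R →+* R) (t : ι → R) (ht : ∀ s ∈ D, t s ∉ P)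
    (hf : ∀ s ∈ D, ∀ s' ∈ D, (∀ x, f s x - f s' x ∈ P) → s = s') :
    ∃ c, ∑ s ∈ D, t s * f s c ∉ P := by
  classical
  by_contra hcon
  push Not at hcon
  let φ : D → (R →* R ⧸ P) := fun s => ((Ideal.Quotient.mk P).comp (f s)).toMonoidHom
  have hinj : Function.Injective φ := by
    intro s s' h
    apply Subtype.ext
    refine hf s s.2 s' s'.2 fun x => ?_
    have h1 := DFunLike.congr_fun h x
    exact Ideal.Quotient.eq.1 h1
  have hli := (linearIndependent_monoidHom R (R ⧸ P)).comp φ hinj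
  rw [Fintype.linearIndependent_iff] at hli
  obtain ⟨s, hs⟩ := hD
  have h0 := hli (fun s => Ideal.Quotient.mk P (t s)) (by
    funext c
    have h1 := Ideal.Quotient.eq_zero_iff_mem.2 (hcon c)
    rw [map_sum, ← Finset.sum_coe_sort] at h1
    simp only [Finset.sum_apply, Pi.smul_apply, smul_eq_mul, Pi.zero_apply, Function.comp_apply]
    rw [← h1]
    refine Finset.sum_congr rfl fun s _ => ?_
    rw [map_mul]
    rfl) ⟨s, hs⟩
  exact ht s hs (Ideal.Quotient.eq_zero_iff_mem.1 h0)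

end G18

open G18 in
theorem t_G1 : St_G1 := by
  intro H _ _ Γ _ P hP hP0 hun t ht M hM
  classical
  have : Fintype Γ := Fintype.ofFinite Γ
  have hPm : P.IsMaximal := hP.isMaximal hP0
  let D : Finset Γ := Finset.univ.filter fun s => ∀ x : 𝓞 H, s.1 x ∈ P ↔ x ∈ P
  have hD : ∀ s : Γ, s ∈ D ↔ ∀ x : 𝓞 H, s.1 x ∈ P ↔ x ∈ P := fun s => by
    simp [D]
  have h1D : (1 : Γ) ∈ D := by
    rw [hD]
    intro x
    exact Iff.rfl
  obtain ⟨c0, hc0⟩ := dedekind P D ⟨1, h1D⟩ (fun s => (s.1 : 𝓞 H →+* 𝓞 H)) t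
    (fun s hs => ht s ((hD s).1 hs)) (by
      intro s hs s' hs' h
      have h1 : ∀ x : 𝓞 H, (s'⁻¹ * s : Γ).1 x - x ∈ P := by
        intro x
        rw [← (hD s').1 hs', map_sub]
        have e : s'.1 ((s'⁻¹ * s : Γ).1 x) = s.1 x := by
          show (s' * (s'⁻¹ * s) : Γ).1 x = s.1 x
          rw [mul_inv_cancel_left]
        rw [e]
        exact h x
      have h2 := hun _ (s'⁻¹ * s : Γ).2 h1
      have h3 : s'⁻¹ * s = 1 := Subtype.ext h2
      exact (inv_mul_eq_one.1 h3).symm)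
  -- the ideal `J`
  obtain ⟨J, hJ⟩ : ∃ J : Ideal (𝓞 H), J = ∏ s ∈ Finset.univ.filter (fun s : Γ => s ∉ D),
      (P.comap (s.1 : 𝓞 H →+* 𝓞 H)) ^ M := ⟨_, rfl⟩
  have hco : IsCoprime J P := by
    rw [hJ]
    refine IsCoprime.prod_left fun s hs => IsCoprime.pow_left ?_
    have hsD : s ∉ D := (Finset.mem_filter.1 hs).2
    have hm : (P.comap (s.1 : 𝓞 H →+* 𝓞 H)).IsMaximal :=
      Ideal.comap_isMaximal_of_surjective _ s.1.surjective
    have hne : P.comap (s.1 : 𝓞 H →+* 𝓞 H) ≠ P := by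
      intro h
      apply hsD
      rw [hD]
      intro x
      have h1 : x ∈ P.comap (s.1 : 𝓞 H →+* 𝓞 H) ↔ x ∈ P := by rw [h]
      exact h1
    exact Ideal.isCoprime_iff_sup_eq.2 (Ideal.IsMaximal.coprime_of_ne hm hPm hne)
  obtain ⟨c, hcJ, p, hp, hcp⟩ := Submodule.mem_sup.1
    ((Ideal.isCoprime_iff_sup_eq.1 hco).symm ▸ Submodule.mem_top : c0 ∈ J ⊔ P)
  have hsc : ∀ s : Γ, s ∉ D → s.1 c ∈ P ^ M := by
    intro s hs
    have h1 : c ∈ (P.comap (s.1 : 𝓞 H →+* 𝓞 H)) ^ M := by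
      rw [hJ] at hcJ
      exact Ideal.le_of_dvd (Finset.dvd_prod_of_mem _
        (Finset.mem_filter.2 ⟨Finset.mem_univ s, hs⟩)) hcJ
    have h2 := Ideal.mem_map_of_mem (s.1 : 𝓞 H →+* 𝓞 H) h1
    rw [Ideal.map_pow] at h2
    exact Ideal.pow_right_mono Ideal.map_comap_le M h2
  refine ⟨c, ?_, fun s hs => hsc s fun h => hs ((hD s).1 h)⟩
  rw [finsum_eq_sum_of_fintype]
  intro hmem
  apply hc0
  have h1 : ∑ s ∈ D, t s * (s.1 : 𝓞 H →+* 𝓞 H) c0 =
      ∑ s : Γ, t s * s.1 c - ∑ s ∈ Finset.univ.filter (fun s : Γ => s ∉ D), t s * s.1 c +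
        ∑ s ∈ D, t s * s.1 p := by
    have h2 : ∑ s : Γ, t s * s.1 c = ∑ s ∈ D, t s * s.1 c +
        ∑ s ∈ Finset.univ.filter (fun s : Γ => s ∉ D), t s * s.1 c := by
      rw [← Finset.sum_filter_add_sum_filter_not Finset.univ (fun s : Γ => s ∈ D)]
      congr 1
      refine Finset.sum_congr ?_ fun _ _ => rfl
      ext s
      simp
    rw [h2, add_sub_cancel_right, ← Finset.sum_add_distrib]
    refine Finset.sum_congr rfl fun s _ => ?_
    rw [← hcp, map_add]
    exact mul_add _ _ _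
  rw [h1]
  refine P.add_mem (P.sub_mem hmem (P.sum_mem fun s hs => P.mul_mem_left _ ?_))
    (P.sum_mem fun s hs => P.mul_mem_left _ ?_)
  · exact Ideal.pow_le_self (by omega) (hsc s (Finset.mem_filter.1 hs).2)
  · exact ((hD s).1 hs p).2 hp

end Pool.Agent.MU3G
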