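import Pool.Agent.MU3.StG

/-!
# MU3, block G: (G3)
-/

set_option autoImplicit false

namespace Pool.Agent.MU3G

open MU3 Pool.Agent.MuSym OnePoint NumberField

theorem t_G3 : St_G3 := by
  intro A B _ H _ j Γ _ hj g eH h1 hmul hcong hneg al hal hal0 c aa haa s0 kap hkap hs0 n
  classical
  have := Fintype.ofFinite Γ
  -- the value at `al s0`
  have hE : eH (al s0) = kap * eH (ppi A B) := by
    rw [hcong _ _ hs0]
    rcases hkap with rfl | rfl
    · simp
    · rw [hmul]
      have : eH ((-1 : ℤ) : OO A B) = -1 := by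
        rw [Int.cast_neg, Int.cast_one, hneg]
      rw [this]
      simp
  have hkk : (kap : H) * kap = 1 := by
    rcases hkap with rfl | rfl <;> simp
  have hint : ∀ s : Γ, s.1 (kap : H) = kap := fun s => map_intCast _ _
  unfold bb
  rw [finsum_eq_sum_of_fintype, finsum_eq_sum_of_fintype, map_sum, Finset.mul_sum]
  symm
  refine Fintype.sum_equiv (Equiv.mulLeft s0) _ _ ?_
  intro s
  have hT : ∀ x : H, (s0 * s).1 x = s0.1 (s.1 x) := fun x => rfl
  show kap * j (star (ppi A B)) * s0.1 (s.1 (c * aa n) * (s.1 (eH (al s)))⁻¹) =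
    (s0 * s).1 (c * aa (3 * n)) * ((s0 * s).1 (eH (al (s0 * s))))⁻¹
  have hA : eH (al (s0 * s)) = kap * eH (ppi A B) * eH (al s) := by
    rw [hcong _ _ (hal s0 s), hmul, hE]
  have hne : eH (ppi A B) ≠ 0 := by
    intro h
    apply hal0 s0
    rw [hE, h, mul_zero]
  have hkap0 : (kap : H) ≠ 0 := by
    intro h
    rw [h, zero_mul] at hkk
    exact zero_ne_one hkk
  have hfix : (s0 * s).1 (j (star (ppi A B))) = j (star (ppi A B)) := hj _ (s0 * s).2 _
  rw [hA, haa n, map_mul (s0.1), ← hT, map_inv₀ (s0.1), ← hT]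
  have e1 : (s0 * s).1 (c * (eH (ppi A B) * j (star (ppi A B)) * aa n)) =
      (s0 * s).1 (c * aa n) * (s0 * s).1 (eH (ppi A B)) * j (star (ppi A B)) := by
    simp only [map_mul, hfix]
    ring
  have e2 : (s0 * s).1 (kap * eH (ppi A B) * eH (al s)) =
      kap * (s0 * s).1 (eH (ppi A B)) * (s0 * s).1 (eH (al s)) := by
    simp only [map_mul, hint]
  rw [e1, e2]
  have n1 : (s0 * s).1 (eH (ppi A B)) ≠ 0 := (map_ne_zero _).2 hne
  have n2 : (s0 * s).1 (eH (al s)) ≠ 0 := (map_ne_zero _).2 (hal0 s)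
  field_simp
  linear_combination (j (star (ppi A B)) * (s0 * s).1 (c * aa n)) * hkk

end Pool.Agent.MU3G
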