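import Pool.Agent.MU3.StG

/-!
# MU3, block G: module G4 (helper21)
-/

set_option autoImplicit false

namespace Pool.Agent.MU3G

theorem t_G4 : St_G4 := by
  intro H _ _ W hW s p pb hp kap hkap b hb hb3 d hd hsd n
  by_cases h3 : 3 ∣ n
  · rw [if_pos h3]
    obtain ⟨m, rfl⟩ := h3
    have hm : 3 * m / 3 = m := Nat.mul_div_cancel_left m (by norm_num)
    rw [hm, hb3, map_div₀, map_mul, hsd, map_natCast]
    have h30 : (3 : H) ≠ 0 := by norm_num
    have hp0 : p ≠ 0 := by
      intro h
      rw [h, zero_mul] at hp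
      exact h30 hp.symm
    have hk2 : (kap : H) * (kap : H) = 1 := by
      rcases hkap with h | h <;> rw [h] <;> norm_num
    have hk0 : (kap : H) ≠ 0 := by
      intro h
      rw [h, zero_mul] at hk2
      exact zero_ne_one hk2
    have hz : d * ((kap : H) * pb * s (b m)) / ((3 * m : ℕ) : H) -
        ((kap : H) * p)⁻¹ * (d * s (b m) / (m : H)) = 0 := by
      rcases Nat.eq_zero_or_pos m with h0 | h0
      · rw [h0]
        simp
      · have hm0 : (m : H) ≠ 0 := by exact_mod_cast h0.ne'
        push_cast
        field_simp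
        linear_combination (d * s (b m)) * (pb * p * hk2 + hp)
    rw [hz]
    exact W.zero_mem
  · rw [if_neg h3, sub_zero, div_eq_mul_inv]
    exact W.mul_mem (W.mul_mem hd (hb n)) (hW n h3)

end Pool.Agent.MU3G
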