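import Pool.Agent.MU3.StG

/-!
# MU3, block G: module G5a (helper50)
-/

set_option autoImplicit false

namespace Pool.Agent.MU3G

open MU3 Pool.Agent.MuSym OnePoint NumberField

namespace G5a50

/-- `O` is contained in every valuation ring. -/
theorem emb_mem {A B : ℤ} (hc : Case A B) (V : ValuationSubring ℂ) (x : OO A B) : emb x ∈ V := by
  have hint : ∀ n : ℤ, (n : ℂ) ∈ V := fun n => intCast_mem V n
  have hw : wC A B ∈ V := by
    rcases V.mem_or_inv_mem (wC A B) with h | h
    · exact h
    · by_cases h0 : wC A B = 0
      · rw [h0]; exact V.zero_mem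
      · have h1 := wC_sq hc
        have h2 : wC A B = A * (wC A B)⁻¹ + B := by
          field_simp
          linear_combination h1
        rw [h2]
        exact V.add_mem _ _ (V.mul_mem _ _ (hint A) h) (hint B)
  unfold emb
  exact V.add_mem _ _ (hint _) (V.mul_mem _ _ (hint _) hw)

/-- Elements of `O` not divisible by `π` are units. -/
theorem val_eq_one {A B : ℤ} (hc : Case A B) [IsDomain (OO A B)] [IsPrincipalIdealRing (OO A B)]
    (V : ValuationSubring ℂ) (hp : Prime (ppi A B))
    (hV : V.valuation (emb (ppi A B)) < 1) (x : OO A B) (hx : ¬ ppi A B ∣ x) :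
    V.valuation (emb x) = 1 := by
  have hle : ∀ y : OO A B, V.valuation (emb y) ≤ 1 := fun y =>
    (V.valuation_le_one_iff _).2 (emb_mem hc V y)
  have hco : IsCoprime (ppi A B) x := (hp.irreducible.coprime_iff_not_dvd).2 hx
  obtain ⟨u, v, huv⟩ := hco
  by_contra hne
  have hlt : V.valuation (emb x) < 1 := lt_of_le_of_ne (hle x) hne
  have h1 : emb u * emb (ppi A B) + emb v * emb x = 1 := by
    have := congrArg (embHom hc) huv
    rw [map_add, map_mul, map_mul, map_one] at this
    simpa only [embHom_apply] using this
  have h2 : V.valuation (emb u * emb (ppi A B) + emb v * emb x) < 1 := by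
    apply Valuation.map_add_lt
    · rw [map_mul]
      exact mul_lt_one_of_nonneg_of_lt_one_right (hle u) zero_le hV
    · rw [map_mul]
      exact mul_lt_one_of_nonneg_of_lt_one_right (hle v) zero_le hlt
  rw [h1, map_one] at h2
  exact lt_irrefl _ h2

end G5a50

open G5a50 in
theorem t_G5a (hG0 : St_G0) : St_G5a := by
  classical
  intro A B hc V hV G _ _ rho hadd hval hrV
  obtain ⟨hdom, hpid, hpi, -, -, -, hemb0, -, -, -⟩ := hG0 A B hc
  have hVv : V.valuation (emb (ppi A B)) < 1 := (V.mem_nonunits_iff).1 hV
  have embmul : ∀ x y : OO A B, emb (x * y) = emb x * emb y := by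
    intro x y
    simpa only [embHom_apply] using map_mul (embHom hc) x y
  have embadd : ∀ x y : OO A B, emb (x + y) = emb x + emb y := by
    intro x y
    simpa only [embHom_apply] using map_add (embHom hc) x y
  have embneg : ∀ x : OO A B, emb (-x) = -emb x := by
    intro x
    simpa only [embHom_apply] using map_neg (embHom hc) x
  have embpow : ∀ (x : OO A B) (n : ℕ), emb (x ^ n) = emb x ^ n := by
    intro x n
    simpa only [embHom_apply] using map_pow (embHom hc) x n
  have embone : emb (1 : OO A B) = 1 := by
    simpa only [embHom_apply] using map_one (embHom hc)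
  have embzero : emb (0 : OO A B) = 0 := by
    simpa only [embHom_apply] using map_zero (embHom hc)
  have hpine : emb (ppi A B) ≠ 0 := fun h => hpi.ne_zero ((hemb0 _).1 h)
  have hp0 : 0 < V.valuation (emb (ppi A B)) := by
    rw [zero_lt_iff]
    exact (Valuation.ne_zero_iff _).2 hpine
  -- one element
  have hone : ∀ x : G, ∃ d : OO A B, ¬ ppi A B ∣ d ∧ ∃ y : OO A B,
      emb d * rho x = emb (ppi A B * y) := by
    intro x
    obtain ⟨y, z, hz, hyz⟩ := hval x
    by_cases hy : y = 0
    · refine ⟨1, fun h => hpi.not_isUnit (isUnit_of_dvd_one h), 0, ?_⟩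
      have h1 : rho x = 0 := by
        rw [hy, embzero] at hyz
        rcases mul_eq_zero.1 hyz with h | h
        · exact h
        · exact absurd ((hemb0 z).1 h) hz
      rw [h1, mul_zero, mul_zero, embzero]
    · obtain ⟨m, z2, hz2, hzm⟩ := WfDvdMonoid.max_power_factor' hz hpi.not_isUnit
      obtain ⟨k, y2, hy2, hyk⟩ := WfDvdMonoid.max_power_factor' hy hpi.not_isUnit
      have vz : V.valuation (emb z) = V.valuation (emb (ppi A B)) ^ m := by
        rw [hzm, embmul, embpow, map_mul, map_pow, val_eq_one hc V hpi hVv z2 hz2, mul_one]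
      have vy : V.valuation (emb y) = V.valuation (emb (ppi A B)) ^ k := by
        rw [hyk, embmul, embpow, map_mul, map_pow, val_eq_one hc V hpi hVv y2 hy2, mul_one]
      have vr : V.valuation (rho x) ≤ V.valuation (emb (ppi A B)) := by
        have h1 := (V.valuation_le_one_iff _).2 (hrV x)
        rw [map_div₀] at h1
        exact (div_le_one₀ hp0).1 h1
      have hv := congrArg V.valuation hyz
      rw [map_mul, vz, vy] at hv
      have hle : V.valuation (emb (ppi A B)) ^ k ≤ V.valuation (emb (ppi A B)) ^ (m + 1) := by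
        rw [← hv, pow_succ, mul_comm]
        exact mul_le_mul_right vr _
      have hkm : m + 1 ≤ k := by
        by_contra hlt
        push Not at hlt
        have := pow_lt_pow_right_of_lt_one₀ hp0 hVv hlt
        exact absurd hle (not_le.2 this)
      obtain ⟨j, rfl⟩ := Nat.exists_eq_add_of_le hkm
      refine ⟨z2, hz2, ppi A B ^ j * y2, ?_⟩
      have h2 : emb (ppi A B) ^ m * (emb z2 * rho x) =
          emb (ppi A B) ^ m * emb (ppi A B * (ppi A B ^ j * y2)) := by
        have h3 := hyz
        rw [hzm, hyk] at h3
        simp only [embmul, embpow] at h3 ⊢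
        rw [pow_add, pow_add, pow_one] at h3
        linear_combination h3
      exact mul_left_cancel₀ (pow_ne_zero m hpine) h2
  choose d hd hdy using hone
  obtain ⟨S, hS⟩ := (Group.FG.out : (⊤ : Subgroup G).FG)
  refine ⟨∏ x ∈ S, d x, ?_, ?_⟩
  · intro h
    obtain ⟨x, _, hx⟩ := (hpi.dvd_finsetProd_iff _).1 h
    exact hd x hx
  · have hrho1 : rho 1 = 0 := by
      have := hadd 1 1
      rw [mul_one] at this
      linear_combination -this
    let K : Subgroup G :=
      { carrier := {x | ∃ y : OO A B, emb (∏ x ∈ S, d x) * rho x = emb (ppi A B * y)}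
        one_mem' := ⟨0, by rw [hrho1, mul_zero, mul_zero, embzero]⟩
        mul_mem' := by
          rintro x y ⟨a, ha⟩ ⟨b, hb⟩
          refine ⟨a + b, ?_⟩
          rw [hadd, mul_add, ha, hb, mul_add, embadd]
        inv_mem' := by
          rintro x ⟨a, ha⟩
          refine ⟨-a, ?_⟩
          have h1 : rho x⁻¹ = -rho x := by
            have h2 := hadd x x⁻¹
            rw [mul_inv_cancel, hrho1] at h2
            linear_combination -h2
          rw [h1, mul_neg, ha, mul_neg, embneg] }
    have hK : K = ⊤ := by
      rw [eq_top_iff, ← hS, Subgroup.closure_le]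
      intro x hx
      obtain ⟨e, he⟩ := Finset.dvd_prod_of_mem d (Finset.mem_coe.1 hx)
      obtain ⟨y, hy⟩ := hdy x
      refine ⟨e * y, ?_⟩
      rw [he, embmul]
      have h1 : emb (ppi A B * (e * y)) = emb e * emb (ppi A B * y) := by
        simp only [embmul]
        ring
      rw [h1, ← hy]
      ring
    intro x
    have hx : x ∈ K := by rw [hK]; exact Subgroup.mem_top x
    exact hx

end Pool.Agent.MU3G
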