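import Pool.Agent.MU3.StG

/-!
# MU3, block G: the valuation ring `V` on a number field (G6a)
-/

set_option autoImplicit false

namespace Pool.Agent.MU3G

open MU3 NumberField

namespace G6a

variable {A B : ℤ} {V : ValuationSubring ℂ}

/-- integral elements are in `V` -/
theorem int_mem (V : ValuationSubring ℂ) {x : ℂ} (hx : IsIntegral ℤ x) : x ∈ V := by
  have h1 : IsIntegral V x := hx.tower_top
  obtain ⟨y, hy⟩ := (IsIntegrallyClosed.isIntegral_iff (R := V) (K := ℂ)).1 h1
  rw [← hy]
  exact y.2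

theorem io_mem (V : ValuationSubring ℂ) {H : Type} [Field H] [NumberField H] (io : H →+* ℂ)
    {x : H} (hx : IsIntegral ℤ x) : io x ∈ V :=
  int_mem V (hx.map (io.toIntAlgHom))

theorem wC_int (h : Case A B) : IsIntegral ℤ (wC A B) := by
  refine ⟨Polynomial.X ^ 2 - Polynomial.C B * Polynomial.X - Polynomial.C A, ?_, ?_⟩
  · monicity!
  · have h1 := wC_sq h
    rw [Polynomial.eval₂_sub, Polynomial.eval₂_sub, Polynomial.eval₂_pow, Polynomial.eval₂_X,
      Polynomial.eval₂_mul, Polynomial.eval₂_C, Polynomial.eval₂_C, Polynomial.eval₂_X,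
      algebraMap_int_eq, eq_intCast, eq_intCast]
    linear_combination h1

theorem emb_int (h : Case A B) (x : OO A B) : IsIntegral ℤ (emb x) := by
  unfold emb
  exact (isIntegral_algebraMap (R := ℤ) (A := ℂ) (x := x.re)).add
    ((isIntegral_algebraMap (R := ℤ) (A := ℂ) (x := x.im)).mul (wC_int h))

/-- the valuations of `π`, `π̄` and `3` -/
theorem vals (hG0 : St_G0) (h : Case A B) (hp : emb (ppi A B) ∈ V.nonunits) :
    V.valuation (emb (star (ppi A B))) = 1 ∧
      V.valuation (3 : ℂ) = V.valuation (emb (ppi A B)) := by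
  obtain ⟨-, -, -, -, hcop, -, -, hnm, hst, -⟩ := hG0 A B h
  have h1 : V.valuation (emb (star (ppi A B))) = 1 := by
    have hle : V.valuation (emb (star (ppi A B))) ≤ 1 :=
      (V.valuation_le_one_iff _).2 (int_mem V (emb_int h _))
    refine le_antisymm hle (not_lt.1 fun hlt => ?_)
    obtain ⟨a, b, hab⟩ := hcop
    have h2 := congrArg emb hab
    rw [← embHom_apply h, map_add, map_mul, map_mul] at h2
    rw [← embHom_apply h 1, map_one, embHom_apply, embHom_apply, embHom_apply, embHom_apply] at h2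
    have h3 : V.valuation (emb a * emb (ppi A B) + emb b * emb (star (ppi A B))) < 1 := by
      refine Valuation.map_add_lt _ ?_ ?_
      · rw [map_mul]
        exact mul_lt_one_of_nonneg_of_lt_one_right
          ((V.valuation_le_one_iff _).2 (int_mem V (emb_int h _))) zero_le
          (V.mem_nonunits_iff.1 hp)
      · rw [map_mul]
        exact mul_lt_one_of_nonneg_of_lt_one_right
          ((V.valuation_le_one_iff _).2 (int_mem V (emb_int h _))) zero_le hlt
    rw [h2, map_one] at h3
    exact lt_irrefl _ h3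
  refine ⟨h1, ?_⟩
  have h2 := hnm (ppi A B)
  rw [nm_ppi h, ← hst] at h2
  have h3 : (3 : ℂ) = emb (ppi A B) * emb (star (ppi A B)) := by
    rw [← h2]
    norm_num
  rw [h3, map_mul, h1, mul_one]

theorem three_lt (hG0 : St_G0) (h : Case A B) (hp : emb (ppi A B) ∈ V.nonunits) :
    V.valuation (3 : ℂ) < 1 := by
  rw [(vals hG0 h hp).2]
  exact V.mem_nonunits_iff.1 hp

/-- the valuation of an integer -/
theorem val_int (hG0 : St_G0) (h : Case A B) (hp : emb (ppi A B) ∈ V.nonunits) {n : ℤ}
    (hn : n ≠ 0) : ∃ m : ℕ, V.valuation (n : ℂ) = V.valuation (emb (ppi A B)) ^ m := by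
  have hle : ∀ k : ℤ, V.valuation (k : ℂ) ≤ 1 := fun k =>
    (V.valuation_le_one_iff _).2 (int_mem V (isIntegral_algebraMap (R := ℤ) (A := ℂ) (x := k)))
  have h3 : (3 : ℤ) ≠ 0 := by norm_num
  have hfin : FiniteMultiplicity (3 : ℤ) n :=
    Int.finiteMultiplicity_iff.2 ⟨by norm_num, hn⟩
  obtain ⟨k, hk, hk3⟩ := hfin.exists_eq_pow_mul_and_not_dvd
  refine ⟨multiplicity (3 : ℤ) n, ?_⟩
  have hk1 : V.valuation (k : ℂ) = 1 := by
    refine le_antisymm (hle k) (not_lt.1 fun hlt => ?_)
    have hcop : IsCoprime (3 : ℤ) k := (Int.prime_three.coprime_iff_not_dvd).2 hk3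
    obtain ⟨u, v, huv⟩ := hcop
    have h4 : (u : ℂ) * 3 + (v : ℂ) * (k : ℂ) = 1 := by exact_mod_cast huv
    have h5 : V.valuation ((u : ℂ) * 3 + (v : ℂ) * (k : ℂ)) < 1 := by
      refine Valuation.map_add_lt _ ?_ ?_
      · rw [map_mul]
        exact mul_lt_one_of_nonneg_of_lt_one_right (hle u) zero_le (three_lt hG0 h hp)
      · rw [map_mul]
        exact mul_lt_one_of_nonneg_of_lt_one_right (hle v) zero_le hlt
    rw [h4, map_one] at h5
    exact lt_irrefl _ h5
  have h6 : (n : ℂ) = 3 ^ multiplicity (3 : ℤ) n * (k : ℂ) := by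
    have h7 : ((n : ℤ) : ℂ) = ((3 ^ multiplicity (3 : ℤ) n * k : ℤ) : ℂ) := congrArg _ hk
    rw [h7]
    push_cast
    rfl
  rw [h6, map_mul, map_pow, hk1, mul_one, (vals hG0 h hp).2]

variable {H : Type} [Field H] [NumberField H]

/-- the homomorphism from the ring of integers to `V` -/
noncomputable def toV (V : ValuationSubring ℂ) (io : H →+* ℂ) : 𝓞 H →+* V :=
  (io.comp (algebraMap (𝓞 H) H)).codRestrict V.toSubring
    (fun x => io_mem V io (RingOfIntegers.isIntegral_coe x))

/-- fractions with a denominator outside a given prime ideal -/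
theorem frac (P : Ideal (𝓞 H)) [hP : P.IsPrime] (y : H) :
    ∃ x z : 𝓞 H, (z ∉ P ∧ y * z = x) ∨ (x ∉ P ∧ z ∈ P ∧ y * z = x) := by
  obtain ⟨a, b, hb, hab⟩ := IsFractionRing.div_surjective (A := 𝓞 H) y
  have hb0 : b ≠ 0 := nonZeroDivisors.ne_zero hb
  have hbH : ((b : 𝓞 H) : H) ≠ 0 := by
    intro h0
    apply hb0
    exact_mod_cast h0
  have hab' : y * b = a := by
    rw [← hab]
    exact div_mul_cancel₀ _ hbH
  set D : Ideal (𝓞 H) := Ideal.span {a} ⊔ Ideal.span {b} with hD
  have hD0 : D ≠ ⊥ := by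
    intro h0
    have h1 : Ideal.span {b} ≤ D := le_sup_right
    rw [h0, le_bot_iff, Ideal.span_singleton_eq_bot] at h1
    exact hb0 h1
  obtain ⟨I, hI⟩ := Ideal.dvd_iff_le.2 (le_sup_left : Ideal.span {a} ≤ D)
  obtain ⟨J, hJ⟩ := Ideal.dvd_iff_le.2 (le_sup_right : Ideal.span {b} ≤ D)
  have hIJ : I ⊔ J = ⊤ := by
    have h1 : D * (I ⊔ J) = D * ⊤ := by
      rw [Ideal.mul_sup, ← hI, ← hJ, Ideal.mul_top]
    exact mul_left_cancel₀ hD0 h1
  by_cases hJP : J ≤ P
  · have hIP : ¬ I ≤ P := by
      intro h1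
      apply hP.ne_top
      rw [eq_top_iff, ← hIJ]
      exact sup_le h1 hJP
    obtain ⟨w, hw, hwP⟩ := SetLike.not_le_iff_exists.1 hIP
    have h1 : w * b ∈ Ideal.span {a} * J := by
      have h2 : w * b ∈ I * Ideal.span {b} :=
        Ideal.mul_mem_mul hw (Ideal.mem_span_singleton_self b)
      have h3 : I * Ideal.span {b} = Ideal.span {a} * J :=
        calc I * Ideal.span {b} = I * (D * J) := congrArg (I * ·) hJ
          _ = (D * I) * J := by ring
          _ = Ideal.span {a} * J := congrArg (· * J) hI.symm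
      rwa [h3] at h2
    obtain ⟨j, hj, hjw⟩ := Ideal.mem_span_singleton_mul.1 h1
    refine ⟨w, j, Or.inr ⟨hwP, hJP hj, ?_⟩⟩
    have h4 : (a : H) * j = w * b := by exact_mod_cast hjw
    have h5 : y * j * b = w * b := by
      rw [← h4, ← hab']
      ring
    exact mul_right_cancel₀ hbH h5
  · obtain ⟨w, hw, hwP⟩ := SetLike.not_le_iff_exists.1 hJP
    have h1 : w * a ∈ Ideal.span {b} * I := by
      have h2 : w * a ∈ J * Ideal.span {a} :=
        Ideal.mul_mem_mul hw (Ideal.mem_span_singleton_self a)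
      have h3 : J * Ideal.span {a} = Ideal.span {b} * I :=
        calc J * Ideal.span {a} = J * (D * I) := congrArg (J * ·) hI
          _ = (D * J) * I := by ring
          _ = Ideal.span {b} * I := congrArg (· * I) hJ.symm
      rwa [h3] at h2
    obtain ⟨j, hj, hjw⟩ := Ideal.mem_span_singleton_mul.1 h1
    refine ⟨j, w, Or.inl ⟨hwP, ?_⟩⟩
    have h4 : (b : H) * j = w * a := by exact_mod_cast hjw
    have h5 : y * w * b = j * b := by
      rw [mul_comm (j : H), h4, ← hab']
      ring
    exact mul_right_cancel₀ hbH h5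

end G6a

open G6a

theorem t_G6a (hG0 : St_G0) : St_G6a := by
  intro A B h V hp H _ _ io
  set P : Ideal (𝓞 H) := Ideal.comap (toV V io) (IsLocalRing.maximalIdeal V) with hPdef
  have hPp : P.IsPrime := Ideal.comap_isPrime _ _
  have hV : ∀ x : 𝓞 H, io x ∈ V := fun x => io_mem V io (RingOfIntegers.isIntegral_coe x)
  have hmem : ∀ x : 𝓞 H, x ∈ P ↔ io x ∈ V.nonunits := by
    intro x
    rw [hPdef, Ideal.mem_comap, ← ValuationSubring.coe_mem_nonunits_iff]
    rfl
  have hle : ∀ x : 𝓞 H, V.valuation (io x) ≤ 1 := fun x => (V.valuation_le_one_iff _).2 (hV x)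
  have hfrac : ∀ y : H, io y ∈ V → ∃ x z : 𝓞 H, z ∉ P ∧ y * z = x := by
    intro y hy
    obtain ⟨x, z, h1 | ⟨h1, h2, h3⟩⟩ := frac P y
    · exact ⟨x, z, h1⟩
    · exfalso
      apply h1
      rw [hmem, V.mem_nonunits_iff, ← h3, map_mul, map_mul]
      rw [hmem, V.mem_nonunits_iff] at h2
      exact mul_lt_one_of_nonneg_of_lt_one_right ((V.valuation_le_one_iff _).2 hy) zero_le h2
  refine ⟨P, hPp, ?_, hV, hmem, hfrac, ?_, ?_, ?_⟩
  · intro hbot
    have h3 : (3 : 𝓞 H) ∈ P := by
      rw [hmem, V.mem_nonunits_iff]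
      have h4 : io ((3 : 𝓞 H) : H) = 3 := by
        have : ((3 : 𝓞 H) : H) = 3 := by norm_cast
        rw [this, map_ofNat]
      rw [h4]
      exact three_lt hG0 h hp
    rw [hbot, Ideal.mem_bot] at h3
    have h4 : ((3 : ℕ) : 𝓞 H) ≠ 0 := Nat.cast_ne_zero.2 (by norm_num)
    exact h4 (by exact_mod_cast h3)
  · intro y
    have halg : IsAlgebraic ℤ y := by
      have h1 : IsAlgebraic ℚ y := Algebra.IsAlgebraic.isAlgebraic y
      exact (IsFractionRing.isAlgebraic_iff ℤ ℚ H).2 h1
    obtain ⟨n, hn, hint⟩ := halg.exists_integral_multiple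
    obtain ⟨m, hm⟩ := val_int hG0 h hp hn
    refine ⟨m, ?_⟩
    have h1 := io_mem V io hint
    rw [← V.valuation_le_one_iff] at h1 ⊢
    rw [zsmul_eq_mul, map_mul, map_intCast, map_mul, hm] at h1
    rw [map_mul, map_pow, mul_comm]
    exact h1
  · intro s hs y
    have hunit : ∀ z : 𝓞 H, z ∉ P → V.valuation (io (s z)) = 1 := by
      intro z hz
      have h1 : IsIntegral ℤ (z : H) := RingOfIntegers.isIntegral_coe z
      have h2 : IsIntegral ℤ (s z) := h1.map s.toRingHom.toIntAlgHom
      refine le_antisymm ((V.valuation_le_one_iff _).2 (io_mem V io h2)) (not_lt.1 fun hlt => ?_)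
      apply hz
      rw [hmem]
      exact (hs _ h1).1 (V.mem_nonunits_iff.2 hlt)
    have hunit' : ∀ z : 𝓞 H, z ∉ P → V.valuation (io z) = 1 := by
      intro z hz
      refine le_antisymm (hle z) (not_lt.1 fun hlt => hz ?_)
      rw [hmem]
      exact V.mem_nonunits_iff.2 hlt
    constructor
    · intro hy
      obtain ⟨x, z, hz, hxz⟩ := hfrac y hy
      have h1 := congrArg (fun t => V.valuation (io (s t))) hxz
      simp only [map_mul] at h1
      rw [hunit z hz, mul_one] at h1
      rw [← V.valuation_le_one_iff, h1]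
      have h2 : IsIntegral ℤ (x : H) := RingOfIntegers.isIntegral_coe x
      have h3 : IsIntegral ℤ (s x) := h2.map s.toRingHom.toIntAlgHom
      exact (V.valuation_le_one_iff _).2 (io_mem V io h3)
    · intro hy
      obtain ⟨x, z, hz, hxz⟩ := hfrac y (ValuationSubring.nonunits_subset hy)
      have h1 := congrArg (fun t => V.valuation (io (s t))) hxz
      simp only [map_mul] at h1
      rw [hunit z hz, mul_one] at h1
      have h4 := congrArg (fun t => V.valuation (io t)) hxz
      simp only [map_mul] at h4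
      rw [hunit' z hz, mul_one] at h4
      rw [V.mem_nonunits_iff] at hy ⊢
      rw [h1]
      rw [h4] at hy
      exact V.mem_nonunits_iff.1 ((hs _ (RingOfIntegers.isIntegral_coe x)).2
        (V.mem_nonunits_iff.2 hy))
  · intro hunr M
    induction M with
    | zero =>
      intro x _
      rw [pow_zero, div_one]
      exact hV x
    | succ M ih =>
      intro x hx
      rw [pow_succ] at hx
      refine Submodule.mul_induction_on hx ?_ ?_
      · intro a ha b hb
        have h1 := ih a ha
        have h2 := hunr b ((hmem b).1 hb)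
        have h3 : io ((a * b : 𝓞 H) : H) / emb (ppi A B) ^ (M + 1) =
            io a / emb (ppi A B) ^ M * (io b / emb (ppi A B)) := by
          have : ((a * b : 𝓞 H) : H) = a * b := rfl
          rw [this, map_mul, pow_succ, div_mul_div_comm]
        rw [h3]
        exact mul_mem h1 h2
      · intro a b ha hb
        have h3 : io ((a + b : 𝓞 H) : H) / emb (ppi A B) ^ (M + 1) =
            io a / emb (ppi A B) ^ (M + 1) + io b / emb (ppi A B) ^ (M + 1) := by
          have : ((a + b : 𝓞 H) : H) = a + b := rfl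
          rw [this, map_add, add_div]
        rw [h3]
        exact add_mem ha hb

end Pool.Agent.MU3G
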