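import Pool.Agent.MU3.StG

/-!
# MU3, block G: module G6b, the choice of `c` in terms of `V`
-/

set_option autoImplicit false

namespace Pool.Agent.MU3G

open MU3 Pool.Agent.MuSym OnePoint NumberField

noncomputable section

namespace G_G6b

/-- Restriction of automorphisms to the ring of integers. -/
def rho (H : Type) [Field H] : (H ≃+* H) →* (𝓞 H ≃+* 𝓞 H) where
  toFun s := RingOfIntegers.mapRingEquiv s
  map_one' := by
    apply RingEquiv.ext
    intro x
    apply RingOfIntegers.ext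
    rfl
  map_mul' s s' := by
    apply RingEquiv.ext
    intro x
    apply RingOfIntegers.ext
    rfl

lemma rho_coe {H : Type} [Field H] (s : H ≃+* H) (x : 𝓞 H) :
    ((rho H s x : 𝓞 H) : H) = s (x : H) := rfl

lemma rho_inj (H : Type) [Field H] [NumberField H] : Function.Injective (rho H) := by
  intro s s' h
  have h1 : (s : H →+* H) = (s' : H →+* H) := by
    apply IsLocalization.ringHom_ext (nonZeroDivisors (𝓞 H))
    apply RingHom.ext
    intro x
    have h2 := congrArg (fun f : 𝓞 H ≃+* 𝓞 H => ((f x : 𝓞 H) : H)) h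
    simpa [rho_coe] using h2
  apply RingEquiv.ext
  intro x
  exact congrArg (fun f : H →+* H => f x) h1

section arith

variable {A B : ℤ}

lemma mul_star_self (x : OO A B) : x * star x = ((nm x : ℤ) : OO A B) := by
  apply QuadraticAlgebra.ext
  · rw [QuadraticAlgebra.re_intCast, nm]
    simp
    ring
  · rw [QuadraticAlgebra.im_intCast]
    simp
    ring

/-- Elements prime to `g` have finite order modulo `g`. -/
lemma pow_one (h0 : St_G0) (hc : Case A B) {g : OO A B} (hg : g ≠ 0) {x : OO A B}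
    (hx : IsCoprime x g) : ∃ r : ℕ, 1 ≤ r ∧ g ∣ x ^ r - 1 := by
  obtain ⟨-, -, -, -, -, -, hemb, hnm, -, -⟩ := h0 A B hc
  have hn : nm g ≠ 0 := by
    intro h
    have h1 := hnm g
    rw [h, Int.cast_zero] at h1
    rcases mul_eq_zero.1 h1.symm with h2 | h2
    · exact hg ((hemb g).1 h2)
    · exact hg ((hemb g).1 ((map_eq_zero _).1 h2))
  have hN : (nm g).natAbs ≠ 0 := Int.natAbs_ne_zero.2 hn
  have : NeZero (nm g).natAbs := ⟨hN⟩
  let f : ℕ → ZMod (nm g).natAbs × ZMod (nm g).natAbs := fun i =>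
    (((x ^ i).re : ZMod (nm g).natAbs), ((x ^ i).im : ZMod (nm g).natAbs))
  have key : ∀ i k : ℕ, i < k → f i = f k → ∃ r : ℕ, 1 ≤ r ∧ g ∣ x ^ r - 1 := by
    intro i k hik h
    refine ⟨k - i, by omega, ?_⟩
    have e1 : (nm g : ℤ) ∣ (x ^ k).re - (x ^ i).re := by
      have h1 := congrArg Prod.fst h
      have h2 := (ZMod.intCast_eq_intCast_iff_dvd_sub _ _ _).1 h1
      rwa [Int.natCast_natAbs, abs_dvd] at h2
    have e2 : (nm g : ℤ) ∣ (x ^ k).im - (x ^ i).im := by
      have h1 := congrArg Prod.snd h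
      have h2 := (ZMod.intCast_eq_intCast_iff_dvd_sub _ _ _).1 h1
      rwa [Int.natCast_natAbs, abs_dvd] at h2
    obtain ⟨u, hu⟩ := e1
    obtain ⟨v, hv⟩ := e2
    have e3 : x ^ k - x ^ i = ((nm g : ℤ) : OO A B) * ⟨u, v⟩ := by
      ext
      · simp [hu]
      · simp [hv]
    have e4 : g ∣ x ^ i * (x ^ (k - i) - 1) := by
      have e5 : x ^ i * (x ^ (k - i) - 1) = g * (star g * ⟨u, v⟩) := by
        rw [← mul_assoc, mul_star_self, ← e3, mul_sub, ← pow_add, mul_one]
        congr 2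
        omega
      exact ⟨_, e5⟩
    exact (IsCoprime.pow_right hx.symm).dvd_of_dvd_mul_left e4
  obtain ⟨i, k, hne, hik⟩ := Finite.exists_ne_map_eq_of_infinite f
  rcases Nat.lt_or_gt_of_ne hne with h | h
  · exact key i k h hik
  · exact key k i h hik.symm

end arith

section val

variable (V : ValuationSubring ℂ)

lemma nu_iff (a : ℂ) : a ∈ V.nonunits ↔ V.valuation a < 1 := Iff.rfl

lemma nu_cancel {a u : ℂ} (hu : u ∈ V) (hu' : u ∉ V.nonunits) (h : a * u ∈ V.nonunits) :
    a ∈ V.nonunits := by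
  rw [nu_iff] at *
  have h1 : V.valuation u = 1 :=
    le_antisymm ((V.valuation_le_one_iff u).2 hu) (not_lt.1 hu')
  rw [map_mul, h1, mul_one] at h
  exact h

end val

end G_G6b

open G_G6b in
/-- G6b. -/
theorem t_G6b (h0 : St_G0) (h1 : St_G1) (h6 : St_G6a) : St_G6b := by
  intro A B hc V g hg H _ _ io j Γ _ al eH s0 kap hGD M hM
  classical
  have hinj : Function.Injective io := io.injective
  have hone : eH 1 = 1 := hinj (by rw [map_one]; exact hGD.eps.one)
  have hmul : ∀ x y, eH (x * y) = eH x * eH y := fun x y =>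
    hinj (by rw [map_mul]; exact hGD.eps.mul x y)
  have hper : ∀ x y, g ∣ x - y → eH x = eH y := fun x y h => hinj (hGD.eps.per x y h)
  have hpow : ∀ (x : OO A B) (r : ℕ), eH (x ^ r) = eH x ^ r := by
    intro x r
    induction r with
    | zero => rw [pow_zero, pow_zero, hone]
    | succ r ih => rw [pow_succ, pow_succ, hmul, ih]
  have hroot : ∀ s : Γ, ∃ r : ℕ, 1 ≤ r ∧ (s.1 (eH (al s))) ^ r = 1 := by
    intro s
    obtain ⟨r, hr, hd⟩ := pow_one h0 hc hg (hGD.al_cop s)
    refine ⟨r, hr, ?_⟩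
    rw [← map_pow, ← hpow, hper _ _ hd, hone, map_one]
  have hint1 : ∀ s : Γ, IsIntegral ℤ (s.1 (eH (al s))) := by
    intro s
    obtain ⟨r, hr, hs⟩ := hroot s
    exact IsIntegral.of_pow (n := r) (by omega) (by rw [hs]; exact isIntegral_one)
  have hint2 : ∀ s : Γ, IsIntegral ℤ (s.1 (eH (al s)))⁻¹ := by
    intro s
    obtain ⟨r, hr, hs⟩ := hroot s
    exact IsIntegral.of_pow (n := r) (by omega) (by rw [inv_pow, hs, inv_one]; exact isIntegral_one)
  have hne : ∀ s : Γ, s.1 (eH (al s)) ≠ 0 := by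
    intro s h
    obtain ⟨r, hr, hs⟩ := hroot s
    rw [h, zero_pow (show r ≠ 0 by omega)] at hs
    exact zero_ne_one hs
  refine ⟨hint2, ?_⟩
  obtain ⟨P, hPp, hPne, hOV, hPV, hfrac, -, hstab, hpw⟩ := h6 A B hc V hGD.pV H io
  have hppi : emb (ppi A B) ≠ 0 := by
    obtain ⟨-, -, hp, -, -, -, hemb, -, -, -⟩ := h0 A B hc
    intro h
    exact hp.ne_zero ((hemb _).1 h)
  let e : Γ ≃* Γ.map (rho H) := Γ.equivMapOfInjective (rho H) (rho_inj H)
  have he : ∀ s : Γ, ((e s : Γ.map (rho H)) : 𝓞 H ≃+* 𝓞 H) = rho H s.1 := fun s =>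
    Subgroup.coe_equivMapOfInjective_apply Γ (rho H) (rho_inj H) s
  have hfin : Finite (Γ.map (rho H)) := Finite.of_equiv Γ e.toEquiv
  let t' : Γ → 𝓞 H := fun s => ⟨(s.1 (eH (al s)))⁻¹, hint2 s⟩
  have ht' : ∀ s : Γ, ((t' s : 𝓞 H) : H) = (s.1 (eH (al s)))⁻¹ := fun s => rfl
  let t : Γ.map (rho H) → 𝓞 H := fun σ => t' (e.symm σ)
  have ht'P : ∀ s : Γ, t' s ∉ P := by
    intro s hs
    let u : 𝓞 H := ⟨s.1 (eH (al s)), hint1 s⟩
    have hu : t' s * u = 1 := by
      apply RingOfIntegers.ext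
      show (s.1 (eH (al s)))⁻¹ * s.1 (eH (al s)) = 1
      exact inv_mul_cancel₀ (hne s)
    exact hPp.ne_top ((Ideal.eq_top_iff_one P).2 (hu ▸ P.mul_mem_right u hs))
  have hOnu : ∀ x : 𝓞 H, x ∉ P → io x ∉ V.nonunits := fun x hx h => hx ((hPV x).2 h)
  have hun : ∀ s ∈ Γ.map (rho H), (∀ x : 𝓞 H, s x - x ∈ P) → s = 1 := by
    rintro _ ⟨s, hs, rfl⟩ hx
    have hs1 : s = 1 := by
      apply hGD.inert s hs
      intro y hy
      obtain ⟨x, z, hz, hyz⟩ := hfrac y hy
      have hsz : rho H s z ∉ P := by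
        intro h
        apply hz
        have := P.sub_mem h (hx z)
        simpa using this
      have hmem : (rho H s x - x) * z - x * (rho H s z - z) ∈ P :=
        P.sub_mem (P.mul_mem_right _ (hx x)) (P.mul_mem_left _ (hx z))
      have h2 := (hPV _).1 hmem
      have hzz : z * rho H s z ∉ P := by
        intro h
        rcases hPp.mem_or_mem h with h | h
        · exact hz h
        · exact hsz h
      rw [← map_sub]
      apply nu_cancel V (hOV (z * rho H s z)) (hOnu _ hzz)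
      convert h2 using 1
      rw [← map_mul]
      congr 1
      have e1 : s y * s z = s x := by rw [← map_mul, hyz]
      show (s y - y) * ((z : H) * s (z : H)) = (s (x : H) - x) * z - x * (s (z : H) - z)
      linear_combination (z : H) * e1 - s (z : H) * hyz
    rw [hs1, map_one]
  obtain ⟨c₀, hc1, hc2⟩ := h1 H (Γ.map (rho H)) P hPp hPne hun t (fun s _ => ht'P _) M hM
  have hcσ : ∀ s : Γ, (((e s : Γ.map (rho H)) : 𝓞 H ≃+* 𝓞 H) c₀ : 𝓞 H) = rho H s.1 c₀ := fun s => by
    rw [he]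
  refine ⟨(c₀ : H), c₀.2, ?_, ?_⟩
  · have e1 : ∑ᶠ σ : Γ.map (rho H), t σ * σ.1 c₀ = ∑ᶠ s : Γ, t' s * rho H s.1 c₀ := by
      rw [← finsum_comp_equiv e.toEquiv]
      apply finsum_congr
      intro s
      show t' (e.symm (e s)) * ((e s : Γ.map (rho H)) : 𝓞 H ≃+* 𝓞 H) c₀ = _
      rw [he, MulEquiv.symm_apply_apply]
    rw [e1] at hc1
    intro h
    apply hc1
    rw [hPV]
    convert h using 1
    congr 1
    have := Fintype.ofFinite Γ
    rw [finsum_eq_sum_of_fintype, finsum_eq_sum_of_fintype]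
    refine Eq.trans (map_sum (algebraMap (𝓞 H) H) (fun s : Γ => t' s * rho H s.1 c₀)
      Finset.univ) ?_
    apply Finset.sum_congr rfl
    intro s _
    show (s.1 (eH (al s)))⁻¹ * s.1 (c₀ : H) = _
    rw [mul_comm]
  · intro y hy hyM
    have := Fintype.ofFinite Γ
    rw [finsum_eq_sum_of_fintype, map_sum, Finset.sum_div]
    apply sum_mem
    intro s _
    by_cases hs : ∀ x : 𝓞 H, rho H s.1 x ∈ P ↔ x ∈ P
    · have h2 := (hstab s.1 (by
        intro x hx
        have h3 := hs ⟨x, hx⟩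
        rw [hPV, hPV] at h3
        exact h3) (y / j (ppi A B))).1 (by
          rw [map_div₀, hGD.io_j]
          exact hGD.unr y hy)
      rw [map_div₀, hGD.fix s.1 s.2, map_div₀, hGD.io_j] at h2
      have h3 := hOV (rho H s.1 c₀)
      rw [map_mul, map_mul, mul_div_assoc]
      exact mul_mem h3 h2
    · have h2 := hc2 (e s) (by rw [he]; exact hs)
      rw [hcσ] at h2
      have h3 := hpw hGD.unr M _ h2
      have h4 := hyM s
      have h5 := mul_mem h3 h4
      have e5 : io (s.1 ((c₀ : H) * y)) / emb (ppi A B) =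
          io ((rho H s.1 c₀ : 𝓞 H) : H) / emb (ppi A B) ^ M *
            (io (s.1 y) * emb (ppi A B) ^ (M - 1)) := by
        obtain ⟨m, rfl⟩ : ∃ m, M = m + 1 := ⟨M - 1, by omega⟩
        rw [map_mul, map_mul, rho_coe, Nat.add_sub_cancel, pow_succ]
        field_simp
      rw [e5]
      exact h5

end

end Pool.Agent.MU3G
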