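import Pool.Agent.MU3.StF6

/-!
# MU3, block G, module GFINP (helper87): Theorem G from its parts
-/

set_option autoImplicit false

namespace Pool.Agent.MU3G

open MU3 Pool.Agent.MU3A Pool.Agent.MU3B Pool.Agent.MU3F Pool.Agent.MuSym OnePoint NumberField

noncomputable section

namespace GFINP

variable {A B : ℤ}

/-- automorphisms over `k` as ring automorphisms -/
def toRE (F : IntermediateField (kk A B) ℂ) : (F ≃ₐ[kk A B] F) →* (F ≃+* F) where
  toFun s := s.toRingEquiv
  map_one' := rfl
  map_mul' _ _ := rfl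

lemma toRE_apply (F : IntermediateField (kk A B) ℂ) (s : F ≃ₐ[kk A B] F) (x : F) :
    toRE F s x = s x := rfl

lemma toRE_inj (F : IntermediateField (kk A B) ℂ) : Function.Injective (toRE F) := by
  intro s t h
  ext x
  have h1 := congrArg (fun u : F ≃+* F => ((u x : F) : ℂ)) h
  exact h1

/-- the embedding of `O` into `F` -/
def jF (hC : Case A B) (F : IntermediateField (kk A B) ℂ) : OO A B →+* F :=
  (algebraMap (kk A B) F).comp ((embHom hC).codRestrict (kk A B) (fun x => by
    rw [embHom_apply]; exact emb_mem x))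

lemma jF_coe (hC : Case A B) (F : IntermediateField (kk A B) ℂ) (x : OO A B) :
    ((jF hC F x : F) : ℂ) = emb x := by
  rw [← embHom_apply hC]
  rfl

lemma chi_one (hC : Case A B) {d : ℤ} (h : absD A B ∣ d - 1) : chiD A B d = 1 := by
  rcases hC with ⟨rfl, rfl⟩ | ⟨rfl, rfl⟩
  · have h1 : (8 : ℤ) ∣ d - 1 := by simpa [absD] using h
    have h2 : d % 8 = 1 := by omega
    simp [chiD, h2]
  · have h1 : (11 : ℤ) ∣ d - 1 := by simpa [absD] using h
    have h2 : d % 11 = 1 := by omega
    simp [chiD, h2]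

lemma pi_mul_star (hC : Case A B) : ppi A B * star (ppi A B) = 3 := by
  rcases hC with ⟨rfl, rfl⟩ | ⟨rfl, rfl⟩ <;> decide

end GFINP

open GFINP in
theorem t_GFINP (hGAL : Sa_GAL) (hACT : Sa_ACT) (hINT : Sa_INT) (hG0 : St_G0) : St_GFINP := by
  intro hGTH hHP hF6 hFT A B hC L Om hCM V hV f hf hf3 hfD e he r hr3 her N' hN' hND
  obtain ⟨hdom, -, -, hpp, -, -, -, -, -, -⟩ := hG0 A B hC
  set g : OO A B := (f : OO A B) * star (ppi A B) with hg
  have hf0 : (f : OO A B) ≠ 0 := by
    intro h
    have := congrArg emb h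
    rw [emb_natCast hC, emb_zero hC] at this
    exact hf (by exact_mod_cast this)
  have hg0 : g ≠ 0 := mul_ne_zero hf0 hpp.ne_zero
  have hgu : ¬ IsUnit g := fun h => hpp.not_isUnit (isUnit_of_mul_isUnit_right h)
  obtain ⟨H', hfd, hgal, hTF, hmu, hunr, hinert, s0', hs0, hs0A⟩ :=
    hHP A B hC L Om hCM V hV f hf hf3 r hr3
  have fd : FiniteDimensional ℚ (kk A B) := (hINT A B hC).1
  have fdH : FiniteDimensional ℚ H' := FiniteDimensional.trans ℚ (kk A B) H'
  have nH : NumberField H' := ⟨⟩
  have hr0 : r ≠ 0 := by rintro rfl; exact hr3 (dvd_zero 3)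
  have heH : ∀ z, e z ∈ H' := by
    intro z
    by_cases h : e z = 0
    · rw [h]; exact zero_mem _
    · exact hmu _ (her z h)
  obtain ⟨act1, act2, -, act4, -, -, act7, -⟩ := hACT A B L Om hC hCM g hg0
  -- the group
  let Γ : Subgroup (H' ≃+* H') := (toRE H').range
  have hΓ : Finite Γ := by
    have : Finite (H' ≃ₐ[kk A B] H') := inferInstance
    exact Set.finite_range (toRE H')
  choose sg hsg using fun s : Γ => s.2
  choose al hal using fun s : Γ => hGAL A B L Om hC hCM g hg0 H' hTF (em (sg s))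
  let eH : OO A B → H' := fun x => ⟨e x, heH x⟩
  let s0 : Γ := ⟨toRE H' s0', ⟨s0', rfl⟩⟩
  have sg_mul : ∀ s s' : Γ, sg (s * s') = sg s * sg s' := by
    intro s s'
    apply toRE_inj
    rw [map_mul, hsg, hsg, hsg]
    rfl
  have sg_s0 : sg s0 = s0' := toRE_inj _ (hsg s0)
  have sg_app : ∀ (s : Γ) (x : H'), s.1 x = sg s x := by
    intro s x
    rw [← hsg s]
    rfl
  have hGD : IsGD V g (H'.val : H' →+* ℂ) (jF hC H') Γ al eH s0 (-1) := by
    refine ⟨hV, dvd_mul_left _ _, fun x => jF_coe hC H' x, ?_, ?_, ?_, fun s => (hal s).1, hunr,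
      ?_, ?_, Or.inr rfl, ?_, he⟩
    · rintro s ⟨σ, rfl⟩ x
      exact σ.commutes _
    · intro y hy
      have h1 : y ∈ (⊥ : IntermediateField (kk A B) H') :=
        (IsGalois.mem_bot_iff_fixed (F := kk A B) (E := H') y).2
          fun σ => hy (toRE H' σ) ⟨σ, rfl⟩
      obtain ⟨w, hw⟩ := IntermediateField.mem_bot.1 h1
      obtain ⟨s, t, hst⟩ := (hINT A B hC).2.2.1 w
      refine ⟨⟨s.num * t.den, t.num * s.den⟩, ((s.den * t.den : ℕ) : OO A B), ?_, ?_⟩
      · intro h
        have h2 := congrArg emb h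
        rw [emb_natCast hC, emb_zero hC] at h2
        have h3 : s.den * t.den = 0 := by exact_mod_cast h2
        exact (mul_ne_zero s.den_nz t.den_nz) h3
      · apply Subtype.ext
        have h2 : ((y * jF hC H' ((s.den * t.den : ℕ) : OO A B) : H') : ℂ) =
            (y : ℂ) * emb ((s.den * t.den : ℕ) : OO A B) := by
          rw [← jF_coe hC H']
          rfl
        have h3 : (y : ℂ) = (w : ℂ) := by rw [← hw]; rfl
        rw [h2, jF_coe, h3, hst, emb_natCast hC]
        have hs : (s : ℂ) = s.num / s.den := by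
          conv_lhs => rw [← Rat.num_div_den s]
          push_cast
          rfl
        have ht : (t : ℂ) = t.num / t.den := by
          conv_lhs => rw [← Rat.num_div_den t]
          push_cast
          rfl
        have hsd : (s.den : ℂ) ≠ 0 := by exact_mod_cast s.den_nz
        have htd : (t.den : ℂ) ≠ 0 := by exact_mod_cast t.den_nz
        rw [hs, ht]
        simp only [emb]
        push_cast
        field_simp
    · intro s s'
      have h1 := act4 H' (sg s) (sg s') (al s) (al s') hTF (hal s) (hal s')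
      rw [← sg_mul] at h1
      exact act1 H' _ _ _ hTF (hal (s * s')) h1
    · intro x hx
      exact hs0 x hx
    · have h1 := hal s0
      rw [sg_s0] at h1
      have h2 := act1 H' _ _ _ hTF h1 hs0A
      have h3 : al s0 - ((-1 : ℤ) : OO A B) * ppi A B = al s0 - -ppi A B := by
        push_cast
        ring
      rw [h3]
      exact h2
    · rintro s ⟨σ, rfl⟩ h
      rw [hinert σ h, map_one]
  have hEps : ∀ s : Γ, IsEps g (fun z => ((s.1 (eH z) : H') : ℂ)) := by
    intro s
    have e0 : ∀ z, eH z = 0 ↔ e z = 0 := fun z =>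
      ⟨fun h => congrArg Subtype.val h, fun h => Subtype.ext h⟩
    refine ⟨?_, ?_, ?_, ?_, ?_⟩
    · have h1 : eH 1 = 1 := Subtype.ext he.one
      rw [h1, map_one]
      rfl
    · intro x y
      have h1 : eH (x * y) = eH x * eH y := Subtype.ext (he.mul x y)
      change ((s.1 (eH (x * y)) : H') : ℂ) = _
      rw [h1, map_mul]
      rfl
    · intro x y hxy
      have h1 : eH x = eH y := Subtype.ext (he.per x y hxy)
      change ((s.1 (eH x) : H') : ℂ) = _
      rw [h1]
    · intro x
      rw [← he.supp x, not_iff_not, ← e0 x]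
      constructor
      · intro h
        have h1 : s.1 (eH x) = 0 := Subtype.ext h
        exact (map_eq_zero s.1).1 h1
      · intro h
        rw [h, map_zero]
        rfl
    · have h1 : eH (-1) = -1 := Subtype.ext he.neg
      change ((s.1 (eH (-1)) : H') : ℂ) = -1
      rw [h1, map_neg, map_one]
      rfl
  choose hv hv2 using hF6 A B hC L Om hCM g hg0 hgu e he H' hTF heH
  have hft := hFT A B hC f hf hf3 hfD e he N' hN' hND
  have hfts := fun s : Γ => hFT A B hC f hf hf3 hfD _ (hEps s) N' hN' hND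
  refine hGTH A B hC L Om hCM V g hg0 H' (H'.val : H' →+* ℂ) (jF hC H') Γ al eH s0 hGD N' hN' ?_
    (fun x y => ⟨Phi e x y / Om, hv x y⟩) ?_ hft.1 (fun s => (hfts s).2.1) (fun s => (hfts s).2.2)
  · intro d hd
    refine ⟨chi_one hC ((Dvd.intro _ rfl).trans (hND.trans hd)), ?_⟩
    have h1 : (((3 * f : ℕ) : ℤ)) ∣ d - 1 := by
      refine Dvd.dvd.trans ?_ (hND.trans hd)
      push_cast
      exact Dvd.intro_left (absD A B * (3 * f)) (by ring)
    obtain ⟨q, hq⟩ := h1
    have h2 : (d : OO A B) - 1 = ((d - 1 : ℤ) : OO A B) := by push_cast; rfl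
    rw [h2, hq]
    push_cast
    rw [← pi_mul_star hC]
    exact ⟨ppi A B * q, by rw [hg]; ring⟩
  · intro s x y
    have h1 := hv2 x y (sg s) (al s) (hal s)
    have h2 : (fun z => ((H'.val : H' →+* ℂ) (s.1 (eH z)))) =
        fun z => ((sg s ⟨e z, heH z⟩ : H') : ℂ) := by
      funext z
      rw [sg_app]
      rfl
    rw [h2, h1, sg_app, sg_app]
    rfl

end

end Pool.Agent.MU3G
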