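import Pool.Agent.MU3.StG2
import Pool.Agent.MU3.StQ
import Pool.Agent.MU3.A2Main
import Pool.Agent.MU3.G_G1
import Pool.Agent.MU3.G_G3
import Pool.Agent.MU3.G_G4
import Pool.Agent.MU3.G_G5a
import Pool.Agent.MU3.G_G6a
import Pool.Agent.MU3.G_G6b
import Pool.Agent.MU3.G_G6c
import Pool.Agent.MU3.G_G7

/-!
# MU3, block G: Theorem G from WQ, A2 and G0-G7 (helper77)
-/

set_option autoImplicit false

namespace Pool.Agent.MU3G

open MU3 Pool.Agent.MU3A Pool.Agent.MuSym OnePoint NumberField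

noncomputable section

namespace GTH

/-- a number field inside `ℂ` which contains the image of `H` and a root of unity. -/
theorem exists_K {H : Type} [Field H] [NumberField H] (io : H →+* ℂ) (N : ℕ) (hN : N ≠ 0) :
    ∃ K : Subfield ℂ, NumberField K ∧ (∀ y, io y ∈ K) ∧
      Complex.exp (2 * Real.pi * Complex.I / N) ∈ K := by
  set f : H →ₐ[ℚ] ℂ := io.toRatAlgHom with hf
  set ζ : ℂ := Complex.exp (2 * Real.pi * Complex.I / N) with hζ
  have hprim : ζ ^ N = 1 := by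
    have h1 := Complex.isPrimitiveRoot_exp N hN
    exact h1.pow_eq_one
  have hint : IsIntegral ℚ ζ := by
    refine ⟨Polynomial.X ^ N - Polynomial.C 1, Polynomial.monic_X_pow_sub_C 1 hN, ?_⟩
    simp [hprim]
  have h1 : FiniteDimensional ℚ f.fieldRange := by
    have := LinearMap.finiteDimensional_range f.toLinearMap
    exact this
  have h2 : FiniteDimensional ℚ (IntermediateField.adjoin ℚ {ζ}) :=
    IntermediateField.adjoin.finiteDimensional hint
  set E : IntermediateField ℚ ℂ := f.fieldRange ⊔ IntermediateField.adjoin ℚ {ζ} with hE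
  have h3 : FiniteDimensional ℚ E := IntermediateField.finiteDimensional_sup _ _
  refine ⟨E.toSubfield, ?_, ?_, ?_⟩
  · have h4 : NumberField E := ⟨⟩
    exact h4
  · intro y
    have h5 : io y ∈ f.fieldRange := ⟨y, rfl⟩
    exact (le_sup_left : f.fieldRange ≤ E) h5
  · exact (le_sup_right : IntermediateField.adjoin ℚ {ζ} ≤ E)
      (IntermediateField.mem_adjoin_simple_self ℚ ζ)

/-- the equation of the curve. -/
theorem curve_eq {A B : ℤ} {L : PeriodPair} {Om : ℂ} (h : IsCM A B L Om) (u : ℂ)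
    (hu : u ∉ L.lattice) : L.derivWeierstrassP u ^ 2 / 4 =
      (L.weierstrassP u + -(emb (a2 A B) / 3)) ^ 3
        + emb (a2 A B) * (L.weierstrassP u + -(emb (a2 A B) / 3)) ^ 2
        + emb (a4 A B) * (L.weierstrassP u + -(emb (a2 A B) / 3)) + emb (a6 A B) / 4 := by
  rw [L.derivWeierstrassP_sq u hu, h.g2, h.g3]
  ring

variable {A B : ℤ}

/-- finite sums of expansions. -/
theorem sum_exp {Γ : Type} [Finite Γ] (k0 : ℂ) (m : Γ → ℂ) (T : Γ → ℂ → ℂ) (E : ℂ → ℂ)
    (φ : ℂ → ℂ) (S : Set ℂ)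
    (h : ∀ s : Γ, ∃ (C : ℂ) (w : ℕ → ℂ), ∀ τ ∈ S,
      HasSum (fun n : ℕ => w n * E τ ^ (n + 1)) (T s (φ τ) - C)) :
    ∃ (C : ℂ) (w : ℕ → ℂ), ∀ τ ∈ S,
      HasSum (fun n : ℕ => w n * E τ ^ (n + 1)) (k0 * (∑ᶠ s : Γ, m s * T s (φ τ)) - C) := by
  classical
  have := Fintype.ofFinite Γ
  choose C w hw using h
  refine ⟨k0 * ∑ s : Γ, m s * C s, fun n => k0 * ∑ s : Γ, m s * w s n, ?_⟩
  intro τ hτ
  have h1 := (hasSum_sum (s := Finset.univ) fun s (_ : s ∈ Finset.univ) =>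
    (hw s τ hτ).mul_left (m s)).mul_left k0
  rw [finsum_eq_sum_of_fintype]
  have e1 : (fun n : ℕ => (k0 * ∑ s : Γ, m s * w s n) * E τ ^ (n + 1)) =
      fun i => k0 * ∑ s : Γ, m s * (w s i * E τ ^ (i + 1)) := by
    funext n
    rw [mul_assoc, Finset.sum_mul]
    congr 1
    refine Finset.sum_congr rfl fun s _ => ?_
    ring
  have e2 : k0 * (∑ s : Γ, m s * T s (φ τ)) - k0 * ∑ s : Γ, m s * C s
      = k0 * ∑ s : Γ, m s * (T s (φ τ) - C s) := by
    rw [← mul_sub, ← Finset.sum_sub_distrib]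
    congr 1
    refine Finset.sum_congr rfl fun s _ => ?_
    ring
  beta_reduce
  rw [e1, e2]
  exact h1

end GTH

open GTH in
theorem t_GTH (hQ : Pool.Agent.MU3Q.St_WQ) : St_GTH := by
  intro A B hc L Om hCM V g hg H _ _ io j Γ _ al eH s0 hGD N' hN' hnu PhiH hPhi hsym hFT hex
  by_contra hcon
  push Not at hcon
  obtain ⟨c, d, hcint, hd, hb1, hper⟩ := t_G6c t_G0 (t_G5a t_G0) (t_G6a t_G0)
    (t_G6b t_G0 t_G1 (t_G6a t_G0)) A B hc V g hg H io j Γ al eH s0 (-1) hGD Om hCM.Om_ne N' hN'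
    hnu PhiH hPhi hsym hFT hcon
  have hioinj : Function.Injective io := io.injective
  have h3 := MU3A2.three_nonunit hc hGD.pV
  obtain ⟨hdom, hpid, hprime, hprime', hcopp, hun, hemb0, hnm, hstar, hnmm⟩ := t_G0 A B hc
  have hembV : ∀ x : OO A B, emb x ∈ V := fun x => MU3A2.emb_mem_V hc x
  -- elements of `O` not divisible by `π` are units of `V`
  have hunitd : (emb d) ∉ V.nonunits := by
    intro h
    obtain ⟨x, y, hxy⟩ := (hprime.coprime_iff_not_dvd).2 hd
    have h1 := congrArg emb hxy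
    rw [emb_add hc, emb_mul hc, emb_mul hc, emb_one hc] at h1
    have h2 := V.nonunits.add_mem (MU3A2.nonunit_mul (hembV x) hGD.pV)
      (MU3A2.nonunit_mul (hembV y) h)
    rw [h1] at h2
    exact MU3A2.one_notMem h2
  -- the character
  have e1 : eH 1 = 1 := hioinj (by rw [hGD.eps.one, map_one])
  have emul : ∀ x y, eH (x * y) = eH x * eH y := fun x y =>
    hioinj (by rw [hGD.eps.mul x y, map_mul])
  have eper : ∀ x y, g ∣ x - y → eH x = eH y := fun x y h => hioinj (hGD.eps.per x y h)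
  have ecop : ∀ x, eH x ≠ 0 → IsCoprime x g := fun x h =>
    (hGD.eps.supp x).1 ((map_ne_zero io).2 h)
  have ecop' : ∀ x, IsCoprime x g → eH x ≠ 0 := fun x h =>
    (map_ne_zero io).1 ((hGD.eps.supp x).2 h)
  have eneg : eH (-1) = -1 := hioinj (by rw [hGD.eps.neg, map_neg, map_one])
  have epow : ∀ (x : OO A B) (r : ℕ), eH (x ^ r) = eH x ^ r := by
    intro x r
    induction r with
    | zero => simp [e1]
    | succ r ih => rw [pow_succ, emul, ih, pow_succ]
  have eint : ∀ x, IsIntegral ℤ (eH x) := by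
    intro x
    by_cases hx : eH x = 0
    · rw [hx]
      exact isIntegral_zero
    · obtain ⟨r, hr, hrd⟩ := G_G6b.pow_one t_G0 hc hg (ecop x hx)
      have h1 : eH x ^ r = 1 := by rw [← epow, eper _ _ hrd, e1]
      exact IsIntegral.of_pow (n := r) (by omega) (by rw [h1]; exact isIntegral_one)
  obtain ⟨a0, a1, aint, a3⟩ := t_G2 A B hc H j g hGD.pg eH e1 emul ecop eint eneg
  obtain ⟨hinvint, -⟩ := t_G6b t_G0 t_G1 (t_G6a t_G0) A B hc V g hg H io j Γ al eH s0 (-1) hGD 1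
    le_rfl
  -- the coefficients
  set b : ℕ → H := fun n => bb Γ eH al c (aH j eH) n with hb
  have hbint : ∀ n, IsIntegral ℤ (b n) := by
    intro n
    rw [hb]
    simp only [bb]
    classical
    have := Fintype.ofFinite Γ
    rw [finsum_eq_sum_of_fintype]
    refine IsIntegral.sum _ fun s _ => ?_
    refine IsIntegral.mul ?_ (hinvint s)
    exact (hcint.mul (aint n)).map s.1.toRingHom.toIntAlgHom
  have hbV : ∀ n, io (b n) ∈ V := fun n =>
    MU3A2.mem_of_integral ((hbint n).map io.toIntAlgHom)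
  have hb3 : ∀ n, b (3 * n) = ((-1 : ℤ) : H) * j (star (ppi A B)) * s0.1 (b n) := by
    intro n
    exact t_G3 A B hc H j Γ hGD.fix g eH e1 emul eper eneg al hGD.al_mul
      (fun s => ecop' _ (hGD.al_cop s)) c (aH j eH) a3 s0 (-1) (Or.inr rfl) hGD.al_s0 n
  have hpp : j (ppi A B) * j (star (ppi A B)) = 3 := by
    apply hioinj
    rw [map_mul, hGD.io_j, hGD.io_j, map_ofNat, hstar, ← hnm]
    have := nm_ppi hc
    rw [this]
    norm_num
  have hinv3 : ∀ n : ℕ, ¬ 3 ∣ n → ((n : H))⁻¹ ∈ V.toSubring.comap io := by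
    intro n hn
    change io _ ∈ V
    rw [map_inv₀, map_natCast]
    have h4 : IsCoprime (n : ℤ) 3 := by
      rw [show (3 : ℤ) = ((3 : ℕ) : ℤ) by norm_num, Nat.isCoprime_iff_coprime]
      exact (Nat.Prime.coprime_iff_not_dvd Nat.prime_three).2 hn |>.symm
    have := MU3A2.inv_mem_of_coprime h3 h4
    simpa using this
  set h : ℕ → H := fun n => j d * b n / n with hh
  have hG4 := t_G4 H (V.toSubring.comap io) hinv3 s0.1 (j (ppi A B)) (j (star (ppi A B))) hpp (-1)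
    (Or.inr rfl) b hbV hb3 (j d) (by
      change io (j d) ∈ V
      rw [hGD.io_j]
      exact hembV d) (hGD.fix s0.1 s0.2 d)
  have hneg : ((-1 : ℤ) : H) * j (ppi A B) = j (-ppi A B) := by
    rw [map_neg]
    push_cast
    ring
  have hFE : ∀ n, io (h n - if 3 ∣ n then (j (-ppi A B))⁻¹ * s0.1 (h (n / 3)) else 0) ∈ V := by
    intro n
    have := hG4 n
    rw [hneg] at this
    exact this
  have hh0 : h 0 = 0 := by simp [hh]
  have hh1 : io (h 1) ∉ V.nonunits := by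
    intro hcontra
    have e2 : h 1 = j d * b 1 := by simp [hh]
    have e3 : b 1 = ∑ᶠ s : Γ, s.1 c * (s.1 (eH (al s)))⁻¹ := by
      rw [hb]
      simp only [bb, a1, mul_one]
    rw [e2, map_mul, hGD.io_j, e3] at hcontra
    rw [mul_comm] at hcontra
    exact hb1 (G_G6b.nu_cancel V (hembV d) hunitd hcontra)
  -- the power series
  have hG7 := fun (τ : ℂ) (hτ : 0 < τ.im) => (t_G7 A B hc V g hg H io j Γ al eH s0 (-1) hGD c d τ
    hτ).2
  set z : PowerSeries ℂ := PowerSeries.mk fun n => io (h n) / emb (-ppi A B) with hz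
  have hzn : ∀ n, PowerSeries.coeff n z = io (h n) / emb (-ppi A B) := fun n => by
    rw [hz, PowerSeries.coeff_mk]
  have hϖ0 : emb (-ppi A B) ≠ 0 := by
    intro h
    rw [emb_neg hc, neg_eq_zero] at h
    have := MU3A2.ppi_mul hc
    rw [h, zero_mul] at this
    norm_num at this
  have hzeq : ∀ n : ℕ, io (j d * (((-1 : ℤ) : H) * j (ppi A B))⁻¹ * (b n / n))
      = PowerSeries.coeff n z := by
    intro n
    rw [hneg, hzn, hh]
    simp only [map_mul, map_div₀, map_inv₀, hGD.io_j, map_natCast]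
    field_simp
  obtain ⟨K, hKnf, hKio, hKζ⟩ := exists_K io N' hN'
  have hembK : ∀ x : OO A B, emb x ∈ K := fun x => by rw [← hGD.io_j]; exact hKio _
  set Z : UpperHalfPlane → ℂ := fun τ => ZZ io Γ al eH (-1) c d (τ : ℂ) with hZ
  have hQS : Pool.Agent.MU3Q.QS Z z := by
    intro τ
    have h1 := hG7 (τ : ℂ) τ.2
    have e2 : (fun n : ℕ => PowerSeries.coeff n z * Pool.Agent.MU3Q.qq τ ^ n) = fun n : ℕ =>
        io (j d * (((-1 : ℤ) : H) * j (ppi A B))⁻¹ * (bb Γ eH al c (aH j eH) n / n)) *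
          Complex.exp (2 * Real.pi * Complex.I * n * (τ : ℂ)) := by
      funext n
      rw [hzeq n, Pool.Agent.MU3Q.qq, ← Complex.exp_nat_mul]
      congr 2
      ring
    rw [e2]
    exact h1
  obtain ⟨S, hSK, S0, S1, S2, ode, P, hP, Q, hQ', hP0, hPQ⟩ := hQ K V N' L
    (-(emb (a2 A B) / 3)) (emb (a2 A B)) (emb (a4 A B)) (emb (a6 A B) / 4) Z z
    (Nat.pos_of_ne_zero hN') hKζ (hembK _) (hembK _)
    (K.div_mem (hembK _) (by exact_mod_cast natCast_mem K 4))
    (fun u hu => curve_eq hCM u hu)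
    (fun n => by rw [hzn]; exact K.div_mem (hKio _) (hembK _))
    (by rw [hzn, hh0, map_zero, zero_div])
    (by
      rw [hzn]
      intro h0
      rcases div_eq_zero_iff.1 h0 with h0 | h0
      · exact hh1 (by rw [h0]; exact V.nonunits.zero_mem)
      · exact hϖ0 h0) hQS
    (by
      intro γ
      have hdet := G6c.det_eq γ
      obtain ⟨C, w, hw⟩ := sum_exp (emb d / (((-1 : ℤ) : ℂ) * emb (ppi A B)))
        (fun s : Γ => io (s.1 c * (s.1 (eH (al s)))⁻¹))
        (fun (s : Γ) (z : ℂ) => thetaInt (fun x => io (s.1 (eH x))) z)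
        (fun τ => Complex.exp (2 * Real.pi * Complex.I * τ / N'))
        (fun τ => (((γ 0 0 : ℤ) : ℂ) * τ + ((γ 0 1 : ℤ) : ℂ)) /
          (((γ 1 0 : ℤ) : ℂ) * τ + ((γ 1 1 : ℤ) : ℂ))) {τ : ℂ | 0 < τ.im}
        (fun s => hex s _ _ _ _ hdet)
      refine ⟨C, w, fun τ => ?_⟩
      have h1 := hw (τ : ℂ) τ.2
      have e2 : ((γ • τ : UpperHalfPlane) : ℂ) = (((γ 0 0 : ℤ) : ℂ) * τ + ((γ 0 1 : ℤ) : ℂ)) /
          (((γ 1 0 : ℤ) : ℂ) * τ + ((γ 1 1 : ℤ) : ℂ)) := by
        rw [UpperHalfPlane.specialLinearGroup_apply]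
        simp
      rw [hZ]
      beta_reduce
      rw [e2]
      exact h1)
    (by
      intro γ hγ τ
      obtain ⟨m1, m2⟩ := G6c.mem1 hγ
      obtain ⟨x, hx⟩ := hper (γ 0 0) (γ 0 1) (γ 1 0) (γ 1 1) (G6c.det_eq γ) m1 m2 (τ : ℂ) τ.2
      have e2 : ((γ • τ : UpperHalfPlane) : ℂ) = (((γ 0 0 : ℤ) : ℂ) * τ + ((γ 0 1 : ℤ) : ℂ)) /
          (((γ 1 0 : ℤ) : ℂ) * τ + ((γ 1 1 : ℤ) : ℂ)) := by
        rw [UpperHalfPlane.specialLinearGroup_apply]
        simp
      rw [hZ]
      beta_reduce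
      rw [e2, hx, hCM.mem]
      exact ⟨x, rfl⟩)
  exact hP0 (MU3A2.main_A2 hc hGD.pV io j hGD.io_j s0.1 (hGD.fix s0.1 s0.2) hGD.unr hGD.frob h hh0
    hh1 hFE K hKio hzn S0 S1 S2 ode hP hQ' hPQ)

end

end Pool.Agent.MU3G
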