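import Pool.Agent.MU3.StF6
import Pool.Agent.MU3.StE
import Pool.Agent.MU3.StV2
import Pool.Agent.MU3.A_FEX

/-!
# MU3, module HP: the field `H'` of Theorem G (helper34)

`H = TF L (f r π̄)`.
-/

set_option autoImplicit false

open MU3

namespace Pool.Agent.MU3G

open Pool.Agent.MU3A Pool.Agent.MU3B Pool.Agent.MU3V Pool.Agent.MU3E
open NumberField

noncomputable section

lemma star_ppi (A B : ℤ) : star (ppi A B) = ppc A B := by
  apply QuadraticAlgebra.ext
  · simp [ppi, ppc]
  · simp [ppi, ppc]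

lemma mem_iff_le (V : ValuationSubring ℂ) (x : ℂ) : x ∈ V ↔ V.valuation x ≤ 1 :=
  (ValuationSubring.valuation_le_one_iff _ _).symm

lemma non_iff_lt (V : ValuationSubring ℂ) (x : ℂ) : x ∈ V.nonunits ↔ V.valuation x < 1 :=
  ValuationSubring.mem_nonunits_iff V

lemma frob_ext (V : ValuationSubring ℂ) {sx x sz z sx' x' : ℂ} (h1 : x * z = x')
    (h2 : sx * sz = sx') (hz : V.valuation z = 1) (hsz : V.valuation sz = 1)
    (hx' : V.valuation x' ≤ 1) (e1 : V.valuation (sx' - x' ^ 3) < 1)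
    (e2 : V.valuation (sz - z ^ 3) < 1) : V.valuation (sx - x ^ 3) < 1 := by
  have h3 : (sx - x ^ 3) * (sz * z ^ 3) = (sx' - x' ^ 3) * z ^ 3 - x' ^ 3 * (sz - z ^ 3) := by
    rw [← h1, ← h2]; ring
  have h4 : V.valuation ((sx - x ^ 3) * (sz * z ^ 3)) = V.valuation (sx - x ^ 3) := by
    rw [map_mul, map_mul, map_pow, hz, hsz, one_pow, one_mul, mul_one]
  rw [← h4, h3]
  refine lt_of_le_of_lt (Valuation.map_sub _ _ _) (max_lt ?_ ?_)
  · rw [map_mul, map_pow, hz, one_pow, mul_one]; exact e1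
  · rw [map_mul, map_pow]
    exact lt_of_le_of_lt (mul_le_of_le_one_left' (pow_le_one₀ zero_le' hx')) e2

lemma sub_non (V : ValuationSubring ℂ) {x y z : ℂ} (h1 : x - z ∈ V.nonunits)
    (h2 : y - z ∈ V.nonunits) : x - y ∈ V.nonunits := by
  rw [non_iff_lt] at *
  have h3 : x - y = (x - z) - (y - z) := by ring
  rw [h3]
  exact lt_of_le_of_lt (Valuation.map_sub _ _ _) (max_lt h1 h2)

theorem t_HP (hN : Sa_NRM) (hG : Sa_GAL) (hA : Sa_ACT) (hC : Sa_CYC) (hX : Sa_XI)
    (hE : Sa_EQN) (hFR : Sa_FR3) (hI : Sa_INT) (hPPI : Se_PPI) (hRAM : Se_RAM) (hCOP : Se_COP)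
    (hDIF : Sw_DIF) (hG6a : St_G6a) (hPID : Sa_PID) : St_HP := by
  intro A B h L Om hL V hV f hf hf3 r hr3
  obtain ⟨ξ, hξ0, -, hξ⟩ := hX A B L Om h hL
  have hXi : IsXi A B L ξ := ⟨fun z hz => hξ z hz, fun z hz => (hξ0 z).2 hz⟩
  obtain ⟨pp3, hpp, hpc, pcl, pcop, pint, hPV⟩ := hPPI A B h
  obtain ⟨v1, v2, v3, v4, v5, v6, v7, v8⟩ := hPV V hV
  have hr0 : r ≠ 0 := by rintro rfl; exact hr3 (dvd_zero 3)
  -- the modulus
  set m : OO A B := ((f * r : ℕ) : OO A B) * star (ppi A B) with hm_def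
  have hcast : ((f * r : ℕ) : OO A B) ≠ 0 := by
    intro h0
    have := congrArg emb h0
    rw [emb_natCast h, emb_zero h] at this
    have h2 : f * r = 0 := by exact_mod_cast this
    exact (mul_ne_zero hf hr0) h2
  haveI hdom : IsDomain (OO A B) := (hPID A B h).1
  have hst0 : star (ppi A B) ≠ 0 := by
    intro h0
    rw [star_ppi] at h0
    rw [h0, mul_zero] at pp3
    have := congrArg emb pp3
    rw [emb_zero h] at this
    have h3 := emb_natCast h 3
    rw [show ((3 : ℕ) : OO A B) = 3 by norm_num] at h3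
    rw [h3] at this
    norm_num at this
  have hm : m ≠ 0 := mul_ne_zero hcast hst0
  have hpm : ¬ ppi A B ∣ m := by
    intro hd
    rcases hpp.dvd_or_dvd hd with h1 | h1
    · have h2 : ppi A B ∣ (((f * r : ℕ) : ℤ) : OO A B) := by exact_mod_cast h1
      have h3 := pint _ h2
      have h4 : 3 ∣ f * r := by exact_mod_cast h3
      rcases (Nat.Prime.dvd_mul Nat.prime_three).1 h4 with h5 | h5
      · exact hf3 h5
      · exact hr3 h5
    · rw [star_ppi] at h1; exact hpc h1
  obtain ⟨hfin, hgal⟩ := hN A B L Om h hL m hm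
  haveI := hfin
  haveI := hgal
  have hg0 : (f : OO A B) * star (ppi A B) ≠ 0 := by
    intro h0
    apply hm
    rw [hm_def, Nat.cast_mul, mul_assoc, mul_comm (r : OO A B), ← mul_assoc, h0, zero_mul]
  have hgm : (f : OO A B) * star (ppi A B) ∣ m := ⟨(r : OO A B), by
    rw [hm_def, Nat.cast_mul]; ring⟩
  have hrm : (r : OO A B) ∣ m := ⟨(f : OO A B) * star (ppi A B), by
    rw [hm_def, Nat.cast_mul]; ring⟩
  have tow : ∀ m' : OO A B, m' ∣ m → TF L m' ≤ TF L m := by
    rintro m' ⟨d, hd⟩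
    refine IntermediateField.adjoin.mono _ _ _ ?_
    rintro c ⟨z, hz, hz', hc⟩
    refine ⟨z, ?_, hz', hc⟩
    rw [hd, emb_mul h, mul_comm (emb m'), mul_assoc]
    exact hL.emb_mul_mem h d hz
  obtain ⟨act1, act2, act3, act4, act5, act6, act7, act8⟩ := hA A B L Om h hL m hm
  obtain ⟨q1, q2, q3, q4, q5, q6, q7, q8, q9⟩ := hE A B L Om h hL
  -- torsion points of order dividing `m` are integral
  have notE : ∀ z, emb m * z ∈ L.lattice → z ∉ L.lattice → ¬ InE1 A B V L z := fun z hz hz' hE =>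
    hz' (hCOP A B L Om ξ h hL hXi V hV m z hm hpm hz hE)
  have xF : ∀ z, emb m * z ∈ L.lattice → z ∉ L.lattice → xx A B L z ∈ TF L m := fun z h1 h2 =>
    IntermediateField.subset_adjoin _ _ ⟨z, h1, h2, Or.inl rfl⟩
  have yF : ∀ z, emb m * z ∈ L.lattice → z ∉ L.lattice → yy L z ∈ TF L m := fun z h1 h2 =>
    IntermediateField.subset_adjoin _ _ ⟨z, h1, h2, Or.inr rfl⟩
  have xV : ∀ z, ¬ InE1 A B V L z → xx A B L z ∈ V := fun z hz =>
    (mem_iff_le V _).2 (int_x hz).2
  have mulT : ∀ (a : OO A B) z, emb m * z ∈ L.lattice → emb m * (emb a * z) ∈ L.lattice :=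
    fun a z hz => by rw [mul_left_comm]; exact hL.emb_mul_mem h a hz
  -- two elements of `O` acting in congruent ways on a point
  have cong : ∀ (a b : OO A B) (z : ℂ), emb m * z ∈ L.lattice → emb a * z ∉ L.lattice →
      emb b * z ∉ L.lattice → xx A B L (emb a * z) - xx A B L (emb b * z) ∈ V.nonunits →
      yy L (emb a * z) - yy L (emb b * z) ∈ V.nonunits → (emb a - emb b) * z ∈ L.lattice := by
    intro a b z hz ha hb hx hy
    have h1 := hDIF A B L Om ξ h hL hXi V v4 _ _ (notE _ (mulT a z hz) ha)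
      (notE _ (mulT b z hz) hb) ((non_iff_lt V _).1 hx) ((non_iff_lt V _).1 hy)
    have h2 : emb m * (emb a * z - emb b * z) ∈ L.lattice := by
      rw [mul_sub]; exact sub_mem (mulT a z hz) (mulT b z hz)
    have h3 := hCOP A B L Om ξ h hL hXi V hV m _ hm hpm h2 h1
    rwa [← sub_mul] at h3
  have hmu : ¬ m ∣ 1 := by
    intro hd
    have h1 : star (ppi A B) ∣ 1 := (dvd_mul_left _ _).trans hd
    obtain ⟨t, ht⟩ := h1
    have h2 : (3 : OO A B) * t = ppi A B := by
      rw [← pp3, ← star_ppi, mul_assoc, ← ht, mul_one]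
    have h3 := congrArg QuadraticAlgebra.im h2
    simp only [QuadraticAlgebra.im_mul, QuadraticAlgebra.re_ofNat, QuadraticAlgebra.im_ofNat,
      ppi] at h3
    omega
  have hgen : emb m * (Om / emb m) ∈ L.lattice :=
    (hL.torsion_iff h hm _).2 ⟨1, by rw [emb_one h]; ring⟩
  have hgen' : Om / emb m ∉ L.lattice := by
    intro h0
    have := (hL.mul_div_mem_iff h hm 1).1 (by rw [emb_one h, one_mul]; exact h0)
    exact hmu this
  have conv : ∀ a b : OO A B, (emb a - emb b) * (Om / emb m) ∈ L.lattice → m ∣ a - b := by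
    intro a b h0
    rw [← emb_sub h] at h0
    exact (hL.mul_div_mem_iff h hm _).1 h0
  have hin : ∀ s : TF L m ≃ₐ[kk A B] TF L m, (∀ x : TF L m, V.valuation (x : ℂ) ≤ 1 →
      V.valuation (((s x : TF L m) : ℂ) - x) < 1) → s = 1 := by
    intro s hs
    obtain ⟨a, ha⟩ := hG A B L Om h hL m hm (TF L m) le_rfl (em s)
    obtain ⟨a1, a2, a3⟩ := ha.2 _ hgen hgen'
    have hz := notE _ hgen hgen'
    have hx := hs ⟨_, xF _ hgen hgen'⟩ ((mem_iff_le V _).1 (xV _ hz))
    have hy := hs ⟨_, yF _ hgen hgen'⟩ (int_yy h v4 hXi hz)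
    have e1 : ((s ⟨_, xF _ hgen hgen'⟩ : TF L m) : ℂ) = xx A B L (emb a * (Om / emb m)) :=
      a2 (xF _ hgen hgen')
    have e2 : ((s ⟨_, yF _ hgen hgen'⟩ : TF L m) : ℂ) = yy L (emb a * (Om / emb m)) :=
      a3 (yF _ hgen hgen')
    rw [e1] at hx
    rw [e2] at hy
    have h1 := cong a 1 (Om / emb m) hgen a1 (by rw [emb_one h, one_mul]; exact hgen')
      ((non_iff_lt V _).2 (by rw [emb_one h, one_mul]; exact hx))
      ((non_iff_lt V _).2 (by rw [emb_one h, one_mul]; exact hy))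
    have h2 := act2 _ _ _ _ (conv a 1 h1) ha
    have h3 := act5 _ _ _ h2 (act7 (TF L m) le_rfl)
    exact AlgEquiv.ext fun x => Subtype.ext (DFunLike.congr_fun h3 x)
  refine ⟨TF L m, hfin, hgal, tow _ hgm, ?_, ?_, ?_, ?_⟩
  · -- roots of unity
    intro z hz
    exact tow _ hrm (hC A B L Om h hL r hr0 z hz).1
  · -- unramified
    intro y hy
    by_cases hy0 : (y : ℂ) = 0
    · rw [hy0, zero_div]; exact V.zero_mem
    · obtain ⟨k, hk⟩ := hRAM A B h V hV (TF L m) hin (y : ℂ) y.2 hy0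
      rw [mem_iff_le, map_div₀, hk]
      have hlt := (non_iff_lt V _).1 hy
      rw [hk] at hlt
      have hk1 : 1 ≤ k := by
        by_contra hc
        push Not at hc
        have : 1 ≤ V.valuation (emb (ppi A B)) ^ k := by
          have h5 : k ≤ 0 := by omega
          exact one_le_zpow_of_nonpos₀ (zero_lt_iff.2 v2) v1.le h5
        exact absurd hlt (not_lt.2 this)
      rw [div_eq_mul_inv, ← zpow_sub_one₀ v2]
      obtain ⟨n, hn⟩ := Int.eq_ofNat_of_zero_le (show 0 ≤ k - 1 by omega)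
      rw [hn, zpow_natCast]
      exact pow_le_one₀ zero_le' v1.le
  · -- inertia
    intro s hs
    exact hin s fun x hx => (non_iff_lt V _).1 (hs x ((mem_iff_le V _).2 hx))
  · -- Frobenius
    obtain ⟨hfd, -, hkk, hint⟩ := hI A B h
    haveI := hfd
    haveI : NumberField (kk A B) := { to_charZero := inferInstance, to_finiteDimensional := hfd }
    haveI : FiniteDimensional ℚ (TF L m) := FiniteDimensional.trans ℚ (kk A B) (TF L m)
    haveI : NumberField (TF L m) :=
      { to_charZero := inferInstance, to_finiteDimensional := inferInstance }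
    obtain ⟨P, hPp, hPb, hPi, hPm, hPf, -⟩ :=
      hG6a A B h V hV (TF L m) ((TF L m).val : TF L m →+* ℂ)
    have hcard : Nat.card (𝓞 (kk A B) ⧸ P.under (𝓞 (kk A B))) = 3 := by
      refine FEX.card_quot _ (Ideal.IsPrime.under _ P).ne_top 3 Nat.prime_three ?_ ?_
      · have h1 : ((3 : ℕ) : 𝓞 (TF L m)) ∈ P := by
          refine (hPm _).2 ((non_iff_lt V _).2 ?_)
          have h2 : (((TF L m).val : TF L m →+* ℂ) (((3 : ℕ) : 𝓞 (TF L m)) : TF L m)) = 3 := by
            have h3 : (((3 : ℕ) : 𝓞 (TF L m)) : TF L m) = ((3 : ℕ) : TF L m) :=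
              map_natCast (algebraMap (𝓞 (TF L m)) (TF L m)) 3
            rw [h3, map_natCast]
            norm_num
          rw [h2, v3]
          exact v1
        rw [Ideal.under_def, Ideal.mem_comap, map_natCast]
        exact h1
      · intro x
        have hxi : IsIntegral ℤ (((x : kk A B) : ℂ)) :=
          (RingOfIntegers.isIntegral_coe x).map (kk A B).val.toIntAlgHom
        obtain ⟨y, hy⟩ := (hint _ (x : kk A B).2).1 hxi
        refine ⟨y.re + (B - 1) * y.im, ?_⟩
        rw [Ideal.under_def, Ideal.mem_comap]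
        refine (hPm _).2 ((non_iff_lt V _).2 ?_)
        have h2 : (((TF L m).val : TF L m →+* ℂ) ((algebraMap (𝓞 (kk A B)) (𝓞 (TF L m))
            (x - ((y.re + (B - 1) * y.im : ℤ) : 𝓞 (kk A B))) : 𝓞 (TF L m)) : TF L m)) =
            (y.im : ℂ) * emb (ppi A B) := by
          rw [map_sub, map_intCast]
          have h3 : (((TF L m).val : TF L m →+* ℂ) ((algebraMap (𝓞 (kk A B)) (𝓞 (TF L m)) x :
            𝓞 (TF L m)) : TF L m)) = emb y := hy
          have h4 : (((TF L m).val : TF L m →+* ℂ)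
              ((((y.re + (B - 1) * y.im : ℤ) : 𝓞 (TF L m)) : TF L m))) =
              ((y.re + (B - 1) * y.im : ℤ) : ℂ) := by
            simp
          have h5 : ∀ u v : 𝓞 (TF L m), (((u - v : 𝓞 (TF L m))) : TF L m) = (u : TF L m) - v :=
            fun u v => map_sub (algebraMap (𝓞 (TF L m)) (TF L m)) u v
          rw [h5, map_sub, h3, h4]
          simp only [emb, ppi]
          push_cast
          ring
        rw [h2, map_mul]
        refine lt_of_le_of_lt (mul_le_of_le_one_left' ?_) v1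
        exact (mem_iff_le V _).1 (intCast_mem V _)
    obtain ⟨σ, hσ⟩ := FEX.exists_frob (kk A B) (TF L m) P hPp hPb 3 hcard
    have hfr : ∀ x : 𝓞 (TF L m), V.valuation (((σ (x : TF L m) : TF L m) : ℂ) - (x : ℂ) ^ 3) < 1 := by
      intro x
      obtain ⟨y, hy, hy'⟩ := hσ x
      have h1 := (non_iff_lt V _).1 ((hPm y).1 hy)
      rw [hy'] at h1
      simpa using h1
    have hall : ∀ x : TF L m, (x : ℂ) ∈ V → ((σ x : TF L m) : ℂ) - (x : ℂ) ^ 3 ∈ V.nonunits := by
      intro x hx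
      obtain ⟨x', z', hz', hxz⟩ := hPf x hx
      have hz1 : V.valuation ((z' : TF L m) : ℂ) = 1 := by
        refine le_antisymm ((mem_iff_le V _).1 (hPi z')) (not_lt.1 fun hlt => hz' ?_)
        exact (hPm z').2 ((non_iff_lt V _).2 hlt)
      have e1 : (x : ℂ) * ((z' : TF L m) : ℂ) = ((x' : TF L m) : ℂ) := congrArg Subtype.val hxz
      have e2 : ((σ x : TF L m) : ℂ) * ((σ z' : TF L m) : ℂ) = ((σ x' : TF L m) : ℂ) := by
        have := congrArg (fun t : TF L m => ((σ t : TF L m) : ℂ)) hxz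
        simpa using this
      have hsz : V.valuation ((σ z' : TF L m) : ℂ) = 1 := by
        have h3 := hfr z'
        have h4 : V.valuation (((z' : TF L m) : ℂ) ^ 3) = 1 := by rw [map_pow, hz1, one_pow]
        have h5 := Valuation.map_add_eq_of_lt_right V.valuation
          (x := ((σ z' : TF L m) : ℂ) - ((z' : TF L m) : ℂ) ^ 3) (y := ((z' : TF L m) : ℂ) ^ 3)
          (by rw [h4]; exact h3)
        rw [sub_add_cancel, h4] at h5
        exact h5
      exact (non_iff_lt V _).2 (frob_ext V e1 e2 hz1 hsz ((mem_iff_le V _).1 (hPi x')) (hfr x')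
        (hfr z'))
    refine ⟨σ, hall, ?_⟩
    obtain ⟨a, ha⟩ := hG A B L Om h hL m hm (TF L m) le_rfl (em σ)
    obtain ⟨a1, a2, a3⟩ := ha.2 _ hgen hgen'
    have hz := notE _ hgen hgen'
    obtain ⟨f1, f2, f3⟩ := hFR A B L Om h hL V hV _ hgen' (xV _ hz)
    have hx := hall ⟨_, xF _ hgen hgen'⟩ (xV _ hz)
    have hy := hall ⟨_, yF _ hgen hgen'⟩ f1
    have e1 : ((σ ⟨_, xF _ hgen hgen'⟩ : TF L m) : ℂ) = xx A B L (emb a * (Om / emb m)) :=
      a2 (xF _ hgen hgen')
    have e2 : ((σ ⟨_, yF _ hgen hgen'⟩ : TF L m) : ℂ) = yy L (emb a * (Om / emb m)) :=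
      a3 (yF _ hgen hgen')
    rw [e1] at hx
    rw [e2] at hy
    have hx3 := sub_non V hx f2
    have hy3 := sub_non V hy f3
    have hnp : emb (-ppi A B) * (Om / emb m) ∉ L.lattice := by
      intro h0
      obtain ⟨t, ht⟩ := (hL.mul_div_mem_iff h hm _).1 h0
      have ht' : ppi A B = m * (-t) := by rw [mul_neg, ← ht, neg_neg]
      rcases hpp.dvd_or_dvd (show ppi A B ∣ m * (-t) from ⟨1, by rw [mul_one]; exact ht'.symm⟩)
        with h1 | h1
      · exact hpm h1
      · obtain ⟨u, hu⟩ := h1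
        apply hmu
        refine ⟨u, ?_⟩
        have h6 : ppi A B * 1 = ppi A B * (m * u) := by
          rw [mul_one]
          conv_lhs => rw [ht', hu]
          ring
        exact mul_left_cancel₀ hpp.ne_zero h6
    have h1 := cong a (-ppi A B) _ hgen a1 hnp hx3 hy3
    exact act3 _ _ _ _ hgm (act2 _ _ _ _ (conv _ _ h1) ha)

end

end Pool.Agent.MU3G
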