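import Pool.Agent.MU3.StH
import Pool.Agent.MU3.F_ALG

/-!
# MU3, block H (helper27), module BD: the values of the symbol have bounded denominators
-/

set_option autoImplicit false

namespace Pool.Agent.MU3H

open _root_.MU3 Pool.Agent.MU3 Pool.Agent.MU3A Pool.Agent.MU3B Pool.Agent.MU3C Pool.Agent.MU3F
  Pool.Agent.MU3G Pool.Agent.MU3I Pool.Agent.MuSym OnePoint
open scoped ComplexConjugate

noncomputable section

namespace Bd

lemma absD_pos {A B : ℤ} (h : Case A B) : 0 < absD A B := by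
  rcases h with ⟨rfl, rfl⟩ | ⟨rfl, rfl⟩ <;> norm_num [absD]

/-- the map `z ↦ z / Om` carries the group generated by `T` into the group generated by the
`t / Om` -/
lemma div_mem (T : Finset ℂ) (Om : ℂ) {z : ℂ} (hz : z ∈ AddSubgroup.closure (T : Set ℂ)) :
    z / Om ∈ AddSubgroup.closure ((T.image fun t => t / Om : Finset ℂ) : Set ℂ) := by
  induction hz using AddSubgroup.closure_induction with
  | mem x hx =>
    refine AddSubgroup.subset_closure ?_
    simp only [Finset.coe_image, Set.mem_image]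
    exact ⟨x, hx, rfl⟩
  | zero =>
    rw [zero_div]
    exact AddSubgroup.zero_mem _
  | add x y _ _ hx hy =>
    rw [add_div]
    exact AddSubgroup.add_mem _ hx hy
  | neg x _ hx =>
    rw [neg_div]
    exact AddSubgroup.neg_mem _ hx

end Bd

/-- BD. -/
theorem th_BD (hFLD : Sh_FLD) (hMAX : Sh_MAX) (hALB : Sh_ALB) (hVAL : Sh_VAL)
    (hF7 : Sf_F7) (hFT : Pool.Agent.MU3G.St_FT) : Sh_BD := by
  intro A B L Om V f e r s hyp
  obtain ⟨K, hKalg, -, hKP, -, -⟩ := hFLD A B L Om V f e r s hyp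
  obtain ⟨v3, -⟩ := hVAL A B hyp.case V hyp.pv
  obtain ⟨-, -, hint, -, h3, -⟩ := tf_ALG A B hyp.case
  have hg : ((f : OO A B) * star (ppi A B)) ≠ 0 := by
    intro h0
    have h1 : ((3 * f : ℤ) : OO A B) = 0 := by
      have h2 : (f : OO A B) * (ppi A B * star (ppi A B)) = 0 := by
        rw [mul_left_comm, h0, mul_zero]
      rw [h3] at h2
      push_cast
      rw [mul_comm]
      exact h2
    have h4 := hint (3 * f : ℤ)
    rw [h1] at h4
    have h5 := hint 0
    rw [Int.cast_zero] at h5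
    rw [h5] at h4
    have h6 : (0 : ℤ) = 3 * f := by exact_mod_cast h4
    have h7 := hyp.f0
    omega
  set N' : ℕ := (absD A B * (3 * f) ^ 2).toNat with hN'
  have hpos : 0 < absD A B * (3 * (f : ℤ)) ^ 2 := by
    have h1 := Bd.absD_pos hyp.case
    have h2 : (0 : ℤ) < f := by
      have := hyp.f0
      omega
    positivity
  have hN0 : N' ≠ 0 := by
    intro h
    rw [hN'] at h
    omega
  have hN1 : absD A B * (3 * (f : ℤ)) ^ 2 ∣ (N' : ℤ) := by
    rw [hN', Int.toNat_of_nonneg hpos.le]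
  obtain ⟨hsym, -⟩ := hFT A B hyp.case f hyp.f0 hyp.f3 hyp.fD e hyp.eps N' hN0 hN1
  obtain ⟨T, hT⟩ := hF7 A B hyp.case _ e hg hyp.eps N' hN0 hsym
  obtain ⟨l, ⟨x0, y0, rfl⟩, hmax⟩ := hMAX V (T.image fun t => t / Om)
    {z | ∃ x y, Phi e x y / Om = z} (by
      rintro _ ⟨x, y, rfl⟩
      exact Bd.div_mem T Om (hT x y)) ⟨_, ∞, ∞, rfl⟩
  obtain ⟨k, hk⟩ := hALB V v3 _ (hKalg _ (hKP x0 y0))
  refine ⟨k, fun x y => ?_⟩
  refine le_trans ?_ hk
  rw [map_mul, map_mul]
  exact mul_le_mul_right (hmax _ ⟨x, y, rfl⟩) _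

end

end Pool.Agent.MU3H
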