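import Pool.Agent.MU3.StH

/-!
# MU3, block H: module FLD   (helper4)
-/

set_option autoImplicit false

namespace Pool.Agent.MU3H

open _root_.MU3 Pool.Agent.MU3 Pool.Agent.MU3A Pool.Agent.MU3B Pool.Agent.MU3C Pool.Agent.MU3F
  Pool.Agent.MU3G Pool.Agent.MU3I Pool.Agent.MuSym OnePoint
open scoped ComplexConjugate

noncomputable section

theorem th_FLD (hALG : Sf_ALG) (hHP : Pool.Agent.MU3G.St_HP) (hF6 : Pool.Agent.MU3G.St_F6)
    (hINT : Pool.Agent.MU3A.Sa_INT) (hVAL : Sh_VAL) : Sh_FLD := by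
  intro A B L Om V f e r s hH
  obtain ⟨h1, h2, h3, h4, h5, h6⟩ := hALG A B hH.case
  obtain ⟨v1, -, -, -, v2, -, -, -⟩ := hVAL A B hH.case V hH.pv
  obtain ⟨H, hfd, hgal, hTF, hz, hunr, -, -⟩ := hHP A B hH.case L Om hH.cm V hH.pv f hH.f0 hH.f3 r
    hH.r3
  obtain ⟨hk, -, -, -⟩ := hINT A B hH.case
  have hr0 : r ≠ 0 := fun h => hH.r3 (h ▸ dvd_zero 3)
  have hg0 : ((f : OO A B) * star (ppi A B)) ≠ 0 := by
    intro h0
    have e1 : (emb ((f : OO A B) * star (ppi A B)) : ℂ) = 0 := (h2 _).1.2 h0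
    have e2 := (h1 (f : OO A B) (star (ppi A B))).1
    have e3 : emb (f : OO A B) = (f : ℂ) := by
      have := h3 (f : ℤ)
      simpa using this
    rw [e1, e3] at e2
    have hf : (f : ℂ) ≠ 0 := Nat.cast_ne_zero.2 hH.f0
    have e4 : emb (star (ppi A B)) = 0 := by
      rcases mul_eq_zero.1 e2.symm with h | h
      · exact absurd h hf
      · exact h
    have e5 : star (ppi A B) = 0 := (h2 _).1.1 e4
    rw [e5, mul_zero] at h5
    have e6 := congrArg (emb : OO A B → ℂ) h5
    have e7 : (emb (0 : OO A B) : ℂ) = 0 := (h2 0).1.2 rfl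
    have e8 : (emb (3 : OO A B) : ℂ) = 3 := by
      have := h3 3
      simpa using this
    rw [e7, e8] at e6
    norm_num at e6
  have hgu : ¬ IsUnit ((f : OO A B) * star (ppi A B)) := fun h => h6 (isUnit_of_mul_isUnit_right h)
  have heH : ∀ z, e z ∈ H := by
    intro z
    by_cases hz0 : e z = 0
    · rw [hz0]
      exact H.zero_mem
    · exact hz _ (hH.er z hz0)
  refine ⟨H.toSubfield, ?_, ?_, ?_, heH, ?_⟩
  · intro x hx
    haveI := hfd
    haveI := hk
    have a1 : IsIntegral (kk A B) x := by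
      have h : IsIntegral (kk A B) (⟨x, hx⟩ : H) := Algebra.IsIntegral.isIntegral _
      exact h.map (IsScalarTower.toAlgHom (kk A B) H ℂ)
    exact (isIntegral_trans (R := ℚ) x a1).isAlgebraic
  · intro x hx hv
    have b1 : x ∈ V.nonunits := by
      rw [ValuationSubring.mem_nonunits_iff]
      exact hv
    have b2 := hunr ⟨x, hx⟩ b1
    have b3 : V.valuation (x / emb (ppi A B)) ≤ 1 := (ValuationSubring.valuation_le_one_iff V _).2 b2
    have hp0 : emb (ppi A B) ≠ 0 := by
      intro h0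
      have := (h2 _).1.1 h0
      rw [this, zero_mul] at h5
      have e6 := congrArg (emb : OO A B → ℂ) h5
      have e7 : (emb (0 : OO A B) : ℂ) = 0 := (h2 0).1.2 rfl
      have e8 : (emb (3 : OO A B) : ℂ) = 3 := by
        have := h3 3
        simpa using this
      rw [e7, e8] at e6
      norm_num at e6
    have b4 : V.valuation x = V.valuation (x / emb (ppi A B)) * V.valuation (emb (ppi A B)) := by
      rw [← map_mul, div_mul_cancel₀ _ hp0]
    rw [b4, ← v2]
    exact mul_le_of_le_one_left' b3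
  · intro x y
    haveI := hfd
    haveI := hgal
    exact (hF6 A B hH.case L Om hH.cm _ hg0 hgu e hH.eps H hTF heH x y).choose
  · intro x
    exact H.algebraMap_mem (⟨emb x, emb_mem x⟩ : kk A B)

end

end Pool.Agent.MU3H
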