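import Pool.Agent.MU3.StH

/-!
# MU3, block H: both parts of the symbol are not zero modulo `V` on closed cycles (`Sh_H1`)
-/

set_option autoImplicit false

namespace Pool.Agent.MU3H

open _root_.MU3 Pool.Agent.MU3 Pool.Agent.MU3A Pool.Agent.MU3B Pool.Agent.MU3C Pool.Agent.MU3F
  Pool.Agent.MU3G Pool.Agent.MU3I Pool.Agent.MuSym OnePoint
open scoped ComplexConjugate

noncomputable section

namespace H1

/-- conjugation of a matrix by the translation by `a / D` -/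
theorem conj_mob (D a α γ' : ℤ) (hD : D ≠ 0) (β β' δ δ' : ℤ) :
    mob D a 0 D (mob α β (D ^ 2 * γ') δ ∞) = mob (α + a * D * γ') β' (D ^ 2 * γ') δ' ∞ := by
  have hD' : (D : ℚ) ≠ 0 := by exact_mod_cast hD
  by_cases hg : γ' = 0
  · subst hg
    simp [mob]
  · have hg' : (γ' : ℚ) ≠ 0 := by exact_mod_cast hg
    have h1 : D ^ 2 * γ' ≠ 0 := mul_ne_zero (pow_ne_zero _ hD) hg
    have e1 : mob α β (D ^ 2 * γ') δ ∞ = (((α : ℚ) / ((D ^ 2 * γ' : ℤ) : ℚ) : ℚ) : OnePoint ℚ) := by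
      show (if D ^ 2 * γ' = 0 then ∞ else (((α : ℚ) / ((D ^ 2 * γ' : ℤ) : ℚ) : ℚ) : OnePoint ℚ)) = _
      rw [if_neg h1]
    have e2 : mob (α + a * D * γ') β' (D ^ 2 * γ') δ' ∞ =
        ((((α + a * D * γ' : ℤ) : ℚ) / ((D ^ 2 * γ' : ℤ) : ℚ) : ℚ) : OnePoint ℚ) := by
      show (if D ^ 2 * γ' = 0 then ∞ else
        ((((α + a * D * γ' : ℤ) : ℚ) / ((D ^ 2 * γ' : ℤ) : ℚ) : ℚ) : OnePoint ℚ)) = _
      rw [if_neg h1]
    have e3 : ∀ r : ℚ, mob D a 0 D (r : OnePoint ℚ) =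
        ((((D : ℚ) * r + a) / (((0 : ℤ) : ℚ) * r + D) : ℚ) : OnePoint ℚ) := by
      intro r
      show (if ((0 : ℤ) : ℚ) * r + (D : ℚ) = 0 then ∞ else
        ((((D : ℚ) * r + a) / (((0 : ℤ) : ℚ) * r + D) : ℚ) : OnePoint ℚ)) = _
      rw [if_neg (by simpa using hD')]
    rw [e1, e2, e3]
    congr 1
    push_cast
    field_simp
    ring

theorem mob_inf (D a : ℤ) : mob D a 0 D ∞ = ∞ := by
  simp [mob]

theorem sgn_add (s : ℂ) (P : OnePoint ℚ → OnePoint ℚ → ℂ) (x y : OnePoint ℚ) :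
    sgnPart s P x y + sgnPart (-s) P x y = 2 * P x y := by
  unfold sgnPart
  ring

theorem absD_val {A B : ℤ} (h : Case A B) : absD A B = 8 ∨ absD A B = 11 := by
  rcases h with ⟨rfl, rfl⟩ | ⟨rfl, rfl⟩
  · left; norm_num [absD]
  · right; norm_num [absD]

theorem g_ne (hALG : Sf_ALG) {A B : ℤ} (h : Case A B) {f : ℕ} (hf : f ≠ 0) :
    (f : OO A B) * star (ppi A B) ≠ 0 := by
  obtain ⟨a1, a2, a3, -, a5, -⟩ := hALG A B h
  intro h0
  have h1 : emb ((f : OO A B) * star (ppi A B)) = 0 := (a2 _).1.2 h0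
  rw [(a1 _ _).1] at h1
  have h2 : emb (f : OO A B) = (f : ℂ) := by
    have := a3 (f : ℤ)
    push_cast at this
    exact this
  rcases mul_eq_zero.1 h1 with h3 | h3
  · rw [h2] at h3
    exact hf (by exact_mod_cast h3)
  · have h4 := congrArg emb a5
    rw [(a1 _ _).1, h3, mul_zero] at h4
    have h5 : emb (3 : OO A B) = 3 := by
      have := a3 (3 : ℤ)
      push_cast at this
      exact this
    rw [h5] at h4
    norm_num at h4

end H1

open H1 in
theorem th_H1 (hALG : Sf_ALG) (hVAL : Sh_VAL) (hGSS : Sf_GSS) (hF8 : Sf_F8)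
    (hGFIN : Pool.Agent.MU3G.St_GFIN) : Sh_H1 := by
  intro A B L Om V f e r s hyp N' hN0 hN
  by_contra hcon
  push Not at hcon
  obtain ⟨-, -, v3, v4, -, -, -, v8⟩ := hVAL A B hyp.case V hyp.pv
  obtain ⟨hτ, -, -, -⟩ := hGSS A B hyp.case
  obtain ⟨D, hD⟩ : ∃ D : ℤ, D = absD A B := ⟨_, rfl⟩
  have hDv : D = 8 ∨ D = 11 := by rw [hD]; exact absD_val hyp.case
  have hD0 : D ≠ 0 := by omega
  have hDn : ((D.toNat : ℕ) : ℤ) = D := by omega
  have hDn0 : D.toNat ≠ 0 := by omega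
  -- the matrix of Theorem G
  have hN1 : N' * D.toNat ^ 2 ≠ 0 := mul_ne_zero hN0 (pow_ne_zero _ hDn0)
  have hN2 : absD A B * (3 * f) ^ 2 ∣ ((N' * D.toNat ^ 2 : ℕ) : ℤ) := by
    refine hN.trans ?_
    push_cast
    exact Dvd.intro _ rfl
  obtain ⟨α, β, γ, δ, h1, h2, h3, h4⟩ := hGFIN A B hyp.case L Om hyp.cm V hyp.pv f hyp.f0 hyp.f3
    hyp.fD e hyp.eps r hyp.r3 hyp.er (N' * D.toNat ^ 2) hN1 hN2
  rw [ValuationSubring.mem_nonunits_iff] at h4
  have hcast : ((N' * D.toNat ^ 2 : ℕ) : ℤ) = N' * D ^ 2 := by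
    push_cast
    rw [hDn]
  rw [hcast] at h2 h3
  obtain ⟨u, hu⟩ := h2
  obtain ⟨t, ht⟩ := h3
  have hα : α = 1 + β * γ - α * (δ - 1) := by linarith
  -- the other part
  have hDg : ((absD A B : ℤ) : OO A B) ∣ (f : OO A B) * star (ppi A B) := by
    obtain ⟨k, hk⟩ := hyp.fD
    refine ⟨((2 * k : ℤ) : OO A B) * star (ppi A B), ?_⟩
    have : (f : OO A B) = ((f : ℤ) : OO A B) := by push_cast; rfl
    rw [this, hk]
    push_cast
    ring
  have h8 := hF8 A B hyp.case ((f : OO A B) * star (ppi A B)) e (g_ne hALG hyp.case hyp.f0)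
    hyp.eps hDg (s : ℂ) ∞ (mob α β γ δ ∞)
  rw [← hD] at h8
  have hterm : ∀ a ∈ Finset.range D.toNat, V.valuation ((chiD A B a : ℂ) *
      sgnPart (s : ℂ) (Phi e) (mob D a 0 D ∞) (mob D a 0 D (mob α β γ δ ∞)) / Om) < 1 := by
    intro a _
    have e1 : γ = D ^ 2 * (N' * u) := by rw [hu]; ring
    have e2 : mob D a 0 D (mob α β γ δ ∞) =
        mob (α + a * D * (N' * u)) (β + a * D * N' * (t - (β * u - α * t)) - a ^ 2 * (N' * u))
          (D ^ 2 * (N' * u)) (δ - a * D * (N' * u)) ∞ := by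
      rw [e1]
      exact conj_mob D a α (N' * u) hD0 _ _ _ _
    have hα2 : α = 1 + N' * D ^ 2 * (β * u - α * t) := by
      have : α = 1 + β * γ - α * (δ - 1) := hα
      rw [ht, hu] at this
      linarith
    have hδ2 : δ = 1 + N' * D ^ 2 * t := by linarith
    rw [e2, mob_inf, mul_div_assoc, map_mul]
    have h5 := hcon (α + a * D * (N' * u))
      (β + a * D * N' * (t - (β * u - α * t)) - a ^ 2 * (N' * u))
      (D ^ 2 * (N' * u)) (δ - a * D * (N' * u)) ?_ ?_ ?_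
    · have h6 := v3 (chiD A B a)
      exact mul_lt_one_of_nonneg_of_lt_one_right h6 zero_le h5
    · have e3 : δ - α = N' * D ^ 2 * (t - (β * u - α * t)) := by linarith
      have e4 : α * δ - β * (D ^ 2 * (N' * u)) = 1 := by rw [← e1]; exact h1
      linear_combination e4 + (a * D * (N' * u)) * e3
    · exact Dvd.intro_left (D ^ 2 * u) (by ring)
    · refine ⟨D ^ 2 * t - a * D * u, ?_⟩
      rw [hδ2]
      ring
  have hsum : V.valuation (tauD A B * sgnPart (-(s : ℂ)) (Phi e) ∞ (mob α β γ δ ∞) / Om) < 1 := by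
    rw [← h8, Finset.sum_div]
    exact V.valuation.map_sum_lt one_ne_zero hterm
  have hτ1 : V.valuation (tauD A B) = 1 := v8 _ hτ
  rw [mul_div_assoc, map_mul, hτ1, one_mul] at hsum
  have hs := hcon α β γ δ h1 (by rw [hu]; exact Dvd.intro (D ^ 2 * u) (by ring))
    (by rw [ht]; exact Dvd.intro (D ^ 2 * t) (by ring))
  have htot := V.valuation.map_add_lt hs hsum
  rw [← add_div, sgn_add, mul_div_assoc, map_mul] at htot
  have h2v : V.valuation (2 : ℂ) = 1 := by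
    have := v4 2 (by norm_num)
    push_cast at this
    exact this
  rw [h2v, one_mul] at htot
  exact h4 htot

end

end Pool.Agent.MU3H
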