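import Pool.Agent.MU3.StH

/-!
# MU3, block H: module H2
-/

set_option autoImplicit false

namespace Pool.Agent.MU3H

open _root_.MU3 Pool.Agent.MU3 Pool.Agent.MU3A Pool.Agent.MU3B Pool.Agent.MU3C Pool.Agent.MU3F
  Pool.Agent.MU3G Pool.Agent.MU3I Pool.Agent.MuSym OnePoint
open scoped ComplexConjugate

noncomputable section

namespace H2

/-- The maximal ideal of `V`, as a submodule of `ℂ`. -/
def mI (V : ValuationSubring ℂ) : Submodule V ℂ where
  carrier := {x | V.valuation x < 1}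
  add_mem' := by
    intro x y hx hy
    exact V.valuation.map_add_lt hx hy
  zero_mem' := by simp
  smul_mem' := by
    intro c x hx
    change V.valuation x < 1 at hx
    show V.valuation (c • x) < 1
    have hc : V.valuation (c : ℂ) ≤ 1 := (V.valuation_le_one_iff _).2 c.2
    have : c • x = (c : ℂ) * x := rfl
    rw [this, map_mul]
    exact lt_of_le_of_lt (mul_le_of_le_one_left' hc) hx

lemma mem_mI (V : ValuationSubring ℂ) (x : ℂ) : x ∈ mI V ↔ V.valuation x < 1 := Iff.rfl

end H2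

theorem th_H2 (hKM2 : Pool.Agent.MU3.S_KM2) (hH1 : Sh_H1) (hCHI : Sh_CHI) (hHK : Sh_HK)
    (hBD : Sh_BD) (hFT : Pool.Agent.MU3G.St_FT) (hVAL : Sh_VAL) : Sh_H2 := by
  intro A B L Om V f e r s hyp
  by_contra hcon
  push Not at hcon
  obtain ⟨hchi1, hchi3, hchimul, hchiper, hchiv, hav, hheck⟩ := hCHI A B L Om V f e r s hyp
  obtain ⟨h3lt, -, hint, -, -, -, -, -⟩ := hVAL A B hyp.case V hyp.pv
  obtain ⟨k, hk⟩ := hBD A B L Om V f e r s hyp
  -- the level
  have hD0 : 0 < absD A B := by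
    rcases hyp.case with ⟨rfl, rfl⟩ | ⟨rfl, rfl⟩ <;> norm_num [absD]
  obtain ⟨D, hD⟩ : ∃ D : ℕ, (D : ℤ) = absD A B := ⟨(absD A B).toNat, Int.toNat_of_nonneg hD0.le⟩
  have hDpos : 0 < D := by exact_mod_cast hD ▸ hD0
  have hcop : Nat.Coprime 3 (D * f ^ 2) := by
    apply Nat.Coprime.mul_right
    · have : D = 8 ∨ D = 11 := by
        rcases hyp.case with ⟨rfl, rfl⟩ | ⟨rfl, rfl⟩
        · left; norm_num [absD] at hD; exact_mod_cast hD
        · right; norm_num [absD] at hD; exact_mod_cast hD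
      rcases this with rfl | rfl <;> decide
    · exact Nat.Coprime.pow_right _ ((Nat.Prime.coprime_iff_not_dvd Nat.prime_three).2 hyp.f3)
  have hN0 : D * f ^ 2 ≠ 0 := by
    have := hyp.f0
    positivity
  have hlev0 : 3 ^ (1 + 1) * (D * f ^ 2) ≠ 0 := by
    have := hyp.f0
    positivity
  have hlev : absD A B * (3 * f) ^ 2 ∣ ((3 ^ (1 + 1) * (D * f ^ 2) : ℕ) : ℤ) := by
    refine ⟨1, ?_⟩
    push_cast
    rw [hD]
    ring
  -- the symbol
  have hsym : IsSym (3 ^ (1 + 1) * (D * f ^ 2)) (nuE e) (Phi e) :=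
    (hFT A B hyp.case f hyp.f0 hyp.f3 hyp.fD e hyp.eps _ hlev0 hlev).1
  obtain ⟨-, -, hsg, hhk⟩ := hHK _ (nuE e) (Phi e) hsym hchi1 (s : ℂ)
  have hU := hhk (e (ppi A B) * conj (emb (ppi A B))) hchi3 hheck
  obtain ⟨ma, mb, mc, md, hdet, hc, hd, hval⟩ := hH1 A B L Om V f e r s hyp _ hlev0 hlev
  have hamem : e (ppi A B) * conj (emb (ppi A B)) ∈ V := (V.valuation_le_one_iff _).1 hav.le
  have haunit : IsUnit (⟨_, hamem⟩ : V) := by
    rw [V.valuation_eq_one_iff]
    exact hav
  have key := hKM2 3 Nat.prime_three (D * f ^ 2) 1 hcop hN0 V (ℂ ⧸ H2.mI V)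
    (fun d => ⟨nuE e d, (V.valuation_le_one_iff _).1 (hchiv d)⟩)
    (fun x y => (H2.mI V).mkQ (sgnPart (s : ℂ) (Phi e) x y / Om))
    ⟨_, hamem⟩ haunit (k + 1)
    (by
      intro x y
      rw [← LinearMap.map_smul, Submodule.mkQ_apply, Submodule.Quotient.mk_eq_zero, H2.mem_mI]
      have h1 : ((((3 : ℕ) : V) ^ (k + 1)) • (sgnPart (s : ℂ) (Phi e) x y / Om) : ℂ) =
          3 * (3 ^ k * (Phi e x y / Om) +
            (s : ℂ) * (3 ^ k * (Phi e (mob (-1) 0 0 1 x) (mob (-1) 0 0 1 y) / Om))) := by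
        have h2 : ((((3 : ℕ) : V) ^ (k + 1)) • (sgnPart (s : ℂ) (Phi e) x y / Om) : ℂ) =
          (3 : ℂ) ^ (k + 1) * (sgnPart (s : ℂ) (Phi e) x y / Om) := by
          show (((((3 : ℕ) : V) ^ (k + 1) : V) : ℂ)) * _ = _
          push_cast
          rfl
        rw [h2]
        unfold sgnPart
        ring
      rw [h1, map_mul]
      refine lt_of_le_of_lt (mul_le_of_le_one_right' ?_) h3lt
      apply V.valuation.map_add_le (hk x y)
      rw [map_mul]
      exact mul_le_one' (hint s) (hk _ _))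
    (by
      apply Subtype.ext
      exact hchi1)
    (by
      intro d d'
      apply Subtype.ext
      exact hchimul d d')
    (by
      intro d d' h
      apply Subtype.ext
      apply hchiper d d'
      have : ((3 * (D * f ^ 2) : ℕ) : ℤ) = 3 * (absD A B * (f : ℤ) ^ 2) := by
        push_cast
        rw [hD]
      rw [this] at h
      exact h)
    (by
      intro x y z
      rw [← map_add, ← add_div, hsg.add])
    (by
      intro a b c d h1 h2 x y
      rw [← LinearMap.map_smul]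
      congr 1
      show _ = nuE e d * (sgnPart (s : ℂ) (Phi e) x y / Om)
      rw [hsg.equiv a b c d h1 h2 x y]
      ring)
    (by
      intro x
      rw [← LinearMap.map_smul, ← map_sum]
      congr 1
      show e (ppi A B) * conj (emb (ppi A B)) * (sgnPart (s : ℂ) (Phi e) ∞ (x : OnePoint ℚ) / Om) = _
      rw [← Finset.sum_div]
      have := hU x
      rw [mul_div_assoc', ← this]
      norm_num)
    (by
      intro n hn b hb
      rw [Submodule.mkQ_apply, Submodule.Quotient.mk_eq_zero, H2.mem_mI]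
      have := hcon n b hn (by exact_mod_cast hb)
      exact_mod_cast this)
    ma mb mc md hdet (by exact_mod_cast hc) (by exact_mod_cast hd) ∞
  rw [Submodule.mkQ_apply, Submodule.Quotient.mk_eq_zero, H2.mem_mI] at key
  exact absurd hval (not_le.2 key)

end

end Pool.Agent.MU3H
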