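import Pool.Agent.MU3.StH
import Mathlib.Algebra.Group.ForwardDiff

/-!
# MU3, block H, module H5
-/

set_option autoImplicit false

namespace Pool.Agent.MU3H

open _root_.MU3 Pool.Agent.MU3 Pool.Agent.MU3A Pool.Agent.MU3B Pool.Agent.MU3C Pool.Agent.MU3F
  Pool.Agent.MU3G Pool.Agent.MU3I Pool.Agent.MuSym OnePoint
open scoped ComplexConjugate

noncomputable section

namespace H5

/-- the start -/
def M0 (a : ℤ) (M : ℕ → ℤ → ℂ) : ℕ → ℤ → ℂ :=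
  fun n b => (-(a : ℂ) ^ 2) * M n (a ^ 2 * b) - (-(a : ℂ)) * M n b

/-- the steps -/
def Mi (a : ℤ) (M : ℕ → ℤ → ℂ) : ℕ → ℕ → ℤ → ℂ
  | 0 => M0 a M
  | i + 1 => fun n b => 1 * Mi a M i n (4 * b) - 1 * Mi a M i n b

theorem Mi_succ (a : ℤ) (M : ℕ → ℤ → ℂ) (i n : ℕ) (b : ℤ) :
    Mi a M (i + 1) n b = Mi a M i n (4 * b) - Mi a M i n b := by
  show 1 * Mi a M i n (4 * b) - 1 * Mi a M i n b = _
  ring

theorem Mi_fwd (a : ℤ) (M : ℕ → ℤ → ℂ) (n : ℕ) (b : ℤ) (N y : ℕ) :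
    Mi a M N n (4 ^ y * b) = ((fwdDiff (1 : ℕ))^[N] (fun j : ℕ => M0 a M n (4 ^ j * b))) y := by
  induction N generalizing y with
  | zero => rfl
  | succ N ih =>
    rw [Function.iterate_succ_apply', fwdDiff, ← ih, ← ih, Mi_succ]
    congr 2
    ring

theorem Mi_sum (a : ℤ) (M : ℕ → ℤ → ℂ) (n : ℕ) (b : ℤ) (N : ℕ) :
    Mi a M N n b = ∑ k ∈ Finset.range (N + 1), ((-1 : ℂ) ^ (N - k) * (N.choose k : ℂ)) * M0 a M n (4 ^ k * b) := by
  have h := Mi_fwd a M n b N 0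
  rw [pow_zero, one_mul, fwdDiff_iter_eq_sum_shift] at h
  rw [h]
  refine Finset.sum_congr rfl fun k _ => ?_
  rw [zero_add, smul_eq_mul, mul_one, zsmul_eq_mul]
  push_cast
  rfl

theorem comb_eq (a : ℤ) (M : ℕ → ℤ → ℂ) (N n : ℕ) (b : ℤ) : comb a N M n b = (-1) ^ N * Mi a M N n b := by
  unfold comb
  have h1 : ∀ j ∈ Finset.range (N + 1), ((-1 : ℂ) ^ (N - j) * (N.choose j : ℂ)) *
      ((a : ℂ) * M n (4 ^ (N - j) * b) - (a : ℂ) ^ 2 * M n (4 ^ (N - j) * a ^ 2 * b)) =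
      (fun k : ℕ => ((-1 : ℂ) ^ k * (N.choose k : ℂ)) * M0 a M n (4 ^ k * b)) (N + 1 - 1 - j) := by
    intro j hj
    have hj' : j ≤ N := Nat.lt_succ_iff.1 (Finset.mem_range.1 hj)
    have e1 : N + 1 - 1 - j = N - j := by omega
    rw [e1]
    show _ = ((-1 : ℂ) ^ (N - j) * (N.choose (N - j) : ℂ)) * M0 a M n (4 ^ (N - j) * b)
    rw [Nat.choose_symm hj']
    unfold M0
    have e2 : a ^ 2 * (4 ^ (N - j) * b) = 4 ^ (N - j) * a ^ 2 * b := by ring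
    rw [e2]
    ring
  rw [Finset.sum_congr rfl h1, Finset.sum_range_reflect
    (fun k : ℕ => ((-1 : ℂ) ^ k * (N.choose k : ℂ)) * M0 a M n (4 ^ k * b)) (N + 1), Mi_sum, Finset.mul_sum]
  refine Finset.sum_congr rfl fun k hk => ?_
  have hk' : k ≤ N := Nat.lt_succ_iff.1 (Finset.mem_range.1 hk)
  obtain ⟨m, rfl⟩ := Nat.exists_eq_add_of_le hk'
  rw [Nat.add_sub_cancel_left]
  have e3 : ((-1 : ℂ) ^ m) * (-1) ^ m = 1 := by
    rw [← mul_pow]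
    norm_num
  rw [pow_add]
  linear_combination (-((-1 : ℂ) ^ k * ((k + m).choose k : ℂ) * M0 a M n (4 ^ k * b))) * e3

/-- the hypotheses -/
def Inv (V : ValuationSubring ℂ) (M : ℕ → ℤ → ℂ) : Prop :=
  Dist M ∧ (∀ (n : ℕ) (b : ℤ), ¬ (3 : ℤ) ^ n ∣ b → V.valuation (M n b) ≤ 1) ∧
    ∃ (n : ℕ) (b : ℤ), 1 ≤ n ∧ ¬ (3 : ℤ) ∣ b ∧ V.valuation (M n b) = 1

theorem v_int (V : ValuationSubring ℂ) (k : ℤ) : V.valuation (k : ℂ) ≤ 1 :=
  (V.valuation_le_one_iff _).2 (intCast_mem V k)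

theorem v_mul3 (V : ValuationSubring ℂ) (h3 : V.valuation 3 < 1) {k : ℤ} (hk : (3 : ℤ) ∣ k) :
    V.valuation (k : ℂ) < 1 := by
  obtain ⟨m, rfl⟩ := hk
  push_cast
  rw [map_mul]
  calc V.valuation 3 * V.valuation (m : ℂ) ≤ V.valuation 3 * 1 := mul_le_mul_right (v_int V m) _
    _ < 1 := by rwa [mul_one]

theorem v_a (V : ValuationSubring ℂ) (h3 : V.valuation 3 < 1) {a : ℤ} (ha : (3 : ℤ) ∣ a - 1) :
    V.valuation (a : ℂ) = 1 := by
  have h1 := v_mul3 V h3 ha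
  have e : (a : ℂ) = 1 + ((a - 1 : ℤ) : ℂ) := by
    push_cast
    ring
  rw [e]
  exact Valuation.map_one_add_of_lt _ h1

theorem inv0 (hSTP : Sh_STP) (V : ValuationSubring ℂ) (h3 : V.valuation 3 < 1) (M : ℕ → ℤ → ℂ) (hM : Inv V M)
    (a : ℤ) (ha : (3 : ℤ) ∣ a - 1) (ha1 : a ≠ 1) : Inv V (M0 a M) := by
  have hva := v_a V h3 ha
  refine hSTP V h3 M hM.1 hM.2.1 hM.2.2 (a ^ 2) ?_ ?_ (-(a : ℂ) ^ 2) (-(a : ℂ)) ?_ ?_
  · have e : a ^ 2 - 1 = (a - 1) * (a + 1) := by ring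
    rw [e]
    exact Dvd.dvd.mul_right ha _
  · intro h
    have e : (a - 1) * (a + 1) = 0 := by linear_combination h
    rcases mul_eq_zero.1 e with h1 | h1
    · exact ha1 (by linarith)
    · have h2 : a = -1 := by linarith
      rw [h2] at ha
      norm_num at ha
  · rw [Valuation.map_neg, map_pow, hva, one_pow]
  · have e : -(a : ℂ) ^ 2 - -(a : ℂ) = -((a : ℂ) * ((a - 1 : ℤ) : ℂ)) := by
      push_cast
      ring
    rw [e, Valuation.map_neg, map_mul, hva, one_mul]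
    exact v_mul3 V h3 ha

theorem invs (hSTP : Sh_STP) (V : ValuationSubring ℂ) (h3 : V.valuation 3 < 1) (M : ℕ → ℤ → ℂ) (hM : Inv V M)
    (a : ℤ) (ha : (3 : ℤ) ∣ a - 1) (ha1 : a ≠ 1) (N : ℕ) : Inv V (Mi a M N) := by
  induction N with
  | zero => exact inv0 hSTP V h3 M hM a ha ha1
  | succ N ih =>
    refine hSTP V h3 (Mi a M N) ih.1 ih.2.1 ih.2.2 4 (by norm_num) (by norm_num) 1 1 (map_one _) ?_
    rw [sub_self, map_zero]
    exact zero_lt_one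

end H5

open H5 in
theorem th_H5 (hSTP : Sh_STP) : Sh_H5 := by
  intro V h3 M hD hI hE a ha ha1 N hN
  have hinv := invs hSTP V h3 M ⟨hD, hI, hE⟩ a ha ha1 N
  have hv : ∀ n b, V.valuation (comb a N M n b) = V.valuation (Mi a M N n b) := by
    intro n b
    rw [comb_eq, map_mul, map_pow, Valuation.map_neg, map_one, one_pow, one_mul]
  refine ⟨⟨?_, ?_⟩, ?_, ?_⟩
  · intro n b c h
    rw [comb_eq, comb_eq, hinv.1.per n b c h]
  · intro n b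
    rw [comb_eq, hinv.1.add n b, Finset.mul_sum]
    exact Finset.sum_congr rfl fun j _ => by rw [comb_eq]
  · intro n b
    rw [hv]
    by_cases h : (3 : ℤ) ^ n ∣ b
    · obtain ⟨N', rfl⟩ : ∃ N', N = N' + 1 := ⟨N - 1, by omega⟩
      have hinv' := invs hSTP V h3 M ⟨hD, hI, hE⟩ a ha ha1 N'
      rw [Mi_succ, hinv'.1.per n (4 * b) b (by
        have e : 4 * b - b = b * 3 := by ring
        rw [e]
        exact Dvd.dvd.mul_right h _), sub_self, map_zero]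
      exact zero_le_one
    · exact hinv.2.1 n b h
  · obtain ⟨n, b, -, -, h⟩ := hinv.2.2
    exact ⟨n, b, by rw [hv]; exact h⟩

end

end Pool.Agent.MU3H
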