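import Pool.Agent.MU3.StH

/-!
# MU3, block H: the final statement
-/

set_option autoImplicit false

namespace Pool.Agent.MU3H

open _root_.MU3 Pool.Agent.MU3 Pool.Agent.MU3A Pool.Agent.MU3B Pool.Agent.MU3C Pool.Agent.MU3F
  Pool.Agent.MU3G Pool.Agent.MU3I Pool.Agent.MuSym OnePoint
open scoped ComplexConjugate

noncomputable section

namespace Hf'

/-- the powers of `3` in an integer -/
lemma split (n : ℕ) (b : ℤ) (h : ¬ (3 : ℤ) ^ n ∣ b) :
    ∃ (k : ℕ) (b' : ℤ), k < n ∧ ¬ (3 : ℤ) ∣ b' ∧ b = 3 ^ k * b' := by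
  have hb : b ≠ 0 := by rintro rfl; exact h (dvd_zero _)
  have hfin : FiniteMultiplicity (3 : ℤ) b := by
    rw [Int.finiteMultiplicity_iff]
    exact ⟨by norm_num, hb⟩
  obtain ⟨b', hb', hnd⟩ := hfin.exists_eq_pow_mul_and_not_dvd
  refine ⟨multiplicity (3 : ℤ) b, b', ?_, hnd, hb'⟩
  by_contra hlt
  push Not at hlt
  exact h (dvd_trans (pow_dvd_pow 3 hlt) (Dvd.intro _ hb'.symm))

/-- the sign part of values in a subgroup -/
lemma sgn_mem {A B : ℤ} {e : OO A B → ℂ} {s : ℤ} (G : AddSubgroup ℂ)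
    (h : ∀ x y, Phi e x y ∈ G) (x y : OnePoint ℚ) : sgnPart (s : ℂ) (Phi e) x y ∈ G := by
  unfold sgnPart
  refine G.add_mem (h _ _) ?_
  rw [← zsmul_eq_mul]
  exact G.zsmul_mem (h _ _) s

/-- division by a number maps the subgroup generated by `T` to that generated by the image -/
lemma div_mem_closure (T : Finset ℂ) (c : ℂ) (x : ℂ)
    (hx : x ∈ AddSubgroup.closure (T : Set ℂ)) :
    x / c ∈ AddSubgroup.closure ((T.image (fun t => t / c) : Finset ℂ) : Set ℂ) := by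
  induction hx using AddSubgroup.closure_induction with
  | mem y hy =>
    apply AddSubgroup.subset_closure
    rw [Finset.coe_image]
    exact ⟨y, hy, rfl⟩
  | zero => rw [zero_div]; exact AddSubgroup.zero_mem _
  | add y z _ _ hy hz => rw [add_div]; exact AddSubgroup.add_mem _ hy hz
  | neg y _ hy => rw [neg_div]; exact AddSubgroup.neg_mem _ hy

lemma prim (m : ℕ) (k : ℤ) (hk : ¬ (3 : ℤ) ∣ k) : IsPrimitiveRoot (ex ((k : ℚ) / 3 ^ m)) (3 ^ m) := by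
  have hc : IsCoprime k ((3 ^ m : ℕ) : ℤ) := by
    push_cast
    apply IsCoprime.pow_right
    exact (Int.isCoprime_iff_gcd_eq_one.2 (Int.isCoprime_iff_gcd_eq_one.1
      ((Int.prime_three.coprime_iff_not_dvd).2 hk))).symm
  have h1 := Complex.isPrimitiveRoot_exp_of_isCoprime k (3 ^ m) (by positivity) hc
  unfold ex
  push_cast at h1 ⊢
  exact h1

end Hf'

open Hf' in
theorem th_HF : Mh_HF := by
  intro hALG hVAL hHZ hH5 hMD hMAX hHK hQS hCHI hFLD hH2 hF7 hFT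
  intro A B hC L Om hCM V hpv f hf0 hf3 hfD _ e he r hr3 her s hs N hN
  have hyp : Hyp A B L Om V f e r s := ⟨hC, hCM, hpv, hf0, hf3, hfD, he, hr3, her, hs⟩
  obtain ⟨v3, vO, vZ, vZ1, vpi, vcpi, vroot, -⟩ := hVAL A B hC V hpv
  obtain ⟨nu1, nu3, -, -, -, va3, heck⟩ := hCHI A B L Om V f e r s hyp
  obtain ⟨K, hKalg, hKv, hKPhi, hKe, hKO⟩ := hFLD A B L Om V f e r s hyp
  obtain ⟨n₁, b₁, hn₁, hb₁, hv₁⟩ := hH2 A B L Om V f e r s hyp
  obtain ⟨halg1, halg2, halg3, -, -, -⟩ := hALG A B hC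
  have hOm : Om ≠ 0 := hCM.Om_ne
  -- the level
  have hD : 0 < absD A B := by rcases hC with ⟨rfl, rfl⟩ | ⟨rfl, rfl⟩ <;> norm_num [absD]
  set N₁ : ℕ := (absD A B).toNat * (3 * f) ^ 2 with hN₁
  have hN₁z : (N₁ : ℤ) = absD A B * (3 * f) ^ 2 := by
    rw [hN₁]; push_cast; rw [Int.toNat_of_nonneg hD.le]
  have hN₁0 : N₁ ≠ 0 := by
    have h1 : 0 < (absD A B).toNat := by omega
    have h2 : 0 < f := Nat.pos_of_ne_zero hf0
    positivity
  obtain ⟨hsym, -, -⟩ := hFT A B hC f hf0 hf3 hfD e he N₁ hN₁0 (by rw [hN₁z])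
  obtain ⟨hTr, hTrs, -, hHec⟩ := hHK N₁ (nuE e) (Phi e) hsym nu1 (s : ℂ)
  set a3 : ℂ := e (ppi A B) * conj (emb (ppi A B)) with ha3
  have hU := hHec a3 nu3 heck
  have ha30 : a3 ≠ 0 := by
    intro h
    rw [h, map_zero] at va3
    exact zero_ne_one va3
  -- g ≠ 0
  have hg : (f : OO A B) * star (ppi A B) ≠ 0 := by
    intro h
    have h1 : emb ((f : OO A B) * star (ppi A B)) = 0 := (halg2 _).1.2 h
    have h2 : emb ((f : OO A B)) = (f : ℂ) := by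
      have := halg3 (f : ℤ)
      rw [Int.cast_natCast] at this
      rw [this]; push_cast; rfl
    rw [(halg1 _ _).1, (halg2 (ppi A B)).2.2.2, h2] at h1
    rcases mul_eq_zero.1 h1 with h3 | h3
    · exact hf0 (by exact_mod_cast h3)
    · rw [ha3, h3, mul_zero] at ha30
      exact ha30 rfl
  obtain ⟨T, hT⟩ := hF7 A B hC _ e hg he N₁ hN₁0 hsym
  -- the set of the values
  set S : Set ℂ := {x | ∃ (n : ℕ) (b : ℤ), 1 ≤ n ∧ ¬ (3 : ℤ) ∣ b ∧
    x = sgnPart (s : ℂ) (Phi e) ∞ ((b / 3 ^ n : ℚ) : OnePoint ℚ) / Om} with hS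
  obtain ⟨lam, ⟨n₂, b₂, hn₂, hb₂, hlam⟩, hmax⟩ := hMAX V (T.image (fun t => t / Om)) S (by
      rintro x ⟨n, b, -, -, rfl⟩
      exact div_mem_closure T Om _ (sgn_mem _ hT _ _))
    ⟨_, n₁, b₁, hn₁, hb₁, rfl⟩
  have hvlam : 1 ≤ V.valuation lam := hv₁.trans (hmax _ ⟨n₁, b₁, hn₁, hb₁, rfl⟩)
  have hlam0 : lam ≠ 0 := by
    rintro h
    rw [h, map_zero] at hvlam
    exact absurd hvlam (not_le.2 zero_lt_one)
  have hvlam0 : 0 < V.valuation lam := lt_of_lt_of_le zero_lt_one hvlam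
  have ha3K : a3 ∈ K := by
    rw [ha3]
    refine K.mul_mem (hKe _) ?_
    rw [← (halg2 (ppi A B)).2.2.2]
    exact hKO _
  have hPsi : ∀ x y, sgnPart (s : ℂ) (Phi e) x y / Om ∈ K := by
    intro x y
    unfold sgnPart
    rw [add_div, mul_div_assoc]
    exact K.add_mem (hKPhi _ _) (K.mul_mem (intCast_mem K s) (hKPhi _ _))
  have hlamK : lam ∈ K := by rw [hlam]; exact hPsi _ _
  -- the distribution
  set M : ℕ → ℤ → ℂ := fun n b => sgnPart (s : ℂ) (Phi e) ∞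
    ((b / 3 ^ n : ℚ) : OnePoint ℚ) / (Om * lam * a3 ^ n) with hM
  have hMe : ∀ n b, M n b = (sgnPart (s : ℂ) (Phi e) ∞ ((b / 3 ^ n : ℚ) : OnePoint ℚ) / Om) /
      (lam * a3 ^ n) := by
    intro n b
    rw [hM]
    field_simp
  have hDist : Dist M := hMD (fun r => sgnPart (s : ℂ) (Phi e) ∞ (r : OnePoint ℚ)) a3 (Om * lam)
    ha30 hTrs hU
  have hMK : ∀ n b, M n b ∈ K := by
    intro n b
    rw [hMe]
    exact K.div_mem (hPsi _ _) (K.mul_mem hlamK (K.pow_mem ha3K n))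
  have hvM : ∀ n b, V.valuation (M n b) =
      V.valuation (sgnPart (s : ℂ) (Phi e) ∞ ((b / 3 ^ n : ℚ) : OnePoint ℚ) / Om) /
        V.valuation lam := by
    intro n b
    rw [hMe, map_div₀, map_mul, map_pow, va3, one_pow, mul_one]
  have hMint : ∀ (n : ℕ) (b : ℤ), ¬ (3 : ℤ) ^ n ∣ b → V.valuation (M n b) ≤ 1 := by
    intro n b hb
    obtain ⟨k, b', hk, hb', rfl⟩ := split n b hb
    rw [hvM, div_le_one₀ hvlam0]
    apply hmax
    refine ⟨n - k, b', by omega, hb', ?_⟩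
    have h3 : (3 : ℚ) ^ n = 3 ^ k * 3 ^ (n - k) := by rw [← pow_add]; congr 1; omega
    have h4 : (((3 ^ k * b' : ℤ) : ℚ) / 3 ^ n) = ((b' : ℤ) : ℚ) / 3 ^ (n - k) := by
      rw [h3]
      push_cast
      field_simp
    rw [h4]
  have hMunit : ∃ (n : ℕ) (b : ℤ), 1 ≤ n ∧ ¬ (3 : ℤ) ∣ b ∧ V.valuation (M n b) = 1 := by
    refine ⟨n₂, b₂, hn₂, hb₂, ?_⟩
    rw [hvM, ← hlam, div_self hvlam0.ne']
  have hf3z : ¬ (3 : ℤ) ∣ (f : ℤ) := by
    intro h
    exact hf3 (by exact_mod_cast h)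
  obtain ⟨hD1, hI1, hU1⟩ := hH5 V v3 M hDist hMint hMunit (1 + 6 * (f : ℤ)) ⟨2 * f, by ring⟩
    (by intro h; apply hf0; omega) N hN
  have hCK : ∀ n b, comb (1 + 6 * (f : ℤ)) N M n b ∈ K := by
    intro n b
    unfold comb
    refine K.sum_mem fun j _ => K.mul_mem (K.mul_mem (K.pow_mem (K.neg_mem K.one_mem) _)
      (natCast_mem K _)) (K.sub_mem (K.mul_mem (intCast_mem K _) (hMK _ _))
        (K.mul_mem (K.pow_mem (intCast_mem K _) _) (hMK _ _)))
  obtain ⟨n₀, hn₀⟩ := hHZ V v3 K.toSubring hKv _ hD1 hCK hI1 hU1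
  refine ⟨n₀, fun n hn => ?_⟩
  rw [hQS A B hC L Om hCM.toIsLat f hf0 e he hTr s N n lam a3 hlam0 ha30]
  have hprim : IsPrimitiveRoot (ex (-(4 ^ N * (1 + 6 * f) ^ 2) / 3 ^ (n + 1))) (3 ^ (n + 1)) := by
    have h1 : ¬ (3 : ℤ) ∣ -(4 ^ N * (1 + 6 * (f : ℤ)) ^ 2) := by
      intro h
      rw [dvd_neg] at h
      rcases Int.prime_three.dvd_mul.1 h with h | h
      · have := Int.prime_three.dvd_of_dvd_pow h
        norm_num at this
      · have := Int.prime_three.dvd_of_dvd_pow h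
        omega
    have h2 := prim (n + 1) _ h1
    convert h2 using 3
    push_cast
    ring
  have hmain := hn₀ (n + 1) (by omega) _ hprim
  set Z : ℂ := ∑ b ∈ Finset.range (3 ^ (n + 1)),
    ex (-(4 ^ N * (1 + 6 * f) ^ 2) / 3 ^ (n + 1)) ^ b *
      comb (1 + 6 * (f : ℤ)) N M (n + 1) b with hZ
  unfold Hf
  rw [← ValuationSubring.valuation_le_one_iff, map_div₀, map_pow]
  have h30 : 0 < V.valuation 3 := by
    rw [zero_lt_iff, Ne, Valuation.zero_iff]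
    norm_num
  rw [div_le_one₀ h30, not_le]
  refine lt_of_lt_of_le hmain ?_
  rw [map_mul, map_mul, map_mul, map_mul, map_pow, va3, one_pow, mul_one]
  have h2f : V.valuation (2 : ℂ) * V.valuation (f : ℂ) = 1 := by
    have h1 := vZ1 2 (by norm_num)
    have h2 := vZ1 (f : ℤ) hf3z
    rw [Int.cast_natCast] at h2
    rw [Int.cast_ofNat] at h1
    rw [h1, h2, one_mul]
  rw [h2f, one_mul, mul_pow]
  exact le_mul_of_one_le_left' (one_le_pow_of_one_le' hvlam 2)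

end

end Pool.Agent.MU3H
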