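import Pool.Agent.MU3.StH

/-!
# MU3, block H: elementary facts on symbols of weight two (module HK)
-/

set_option autoImplicit false

namespace Pool.Agent.MU3H

open _root_.MU3 Pool.Agent.MU3 Pool.Agent.MU3A Pool.Agent.MU3B Pool.Agent.MU3C Pool.Agent.MU3F
  Pool.Agent.MU3G Pool.Agent.MU3I Pool.Agent.MuSym OnePoint
open scoped ComplexConjugate

noncomputable section

namespace Hk

theorem mob_inf (a b d : ℤ) : mob a b 0 d ∞ = ∞ := by
  show (if (0 : ℤ) = 0 then (∞ : OnePoint ℚ) else ((a / (0 : ℤ) : ℚ) : OnePoint ℚ)) = ∞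
  rw [if_pos rfl]

theorem mob_tr (k : ℤ) (r : ℚ) :
    mob 1 k 0 1 ((r : ℚ) : OnePoint ℚ) = ((r + k : ℚ) : OnePoint ℚ) := by
  show (if ((0 : ℤ) : ℚ) * r + (1 : ℤ) = 0 then ∞ else
    (((((1 : ℤ) : ℚ) * r + (k : ℤ)) / (((0 : ℤ) : ℚ) * r + (1 : ℤ)) : ℚ) : OnePoint ℚ)) = _
  rw [if_neg (by norm_num)]
  congr 1
  push_cast
  ring

theorem mob_neg (r : ℚ) : mob (-1) 0 0 1 ((r : ℚ) : OnePoint ℚ) = ((-r : ℚ) : OnePoint ℚ) := by
  show (if ((0 : ℤ) : ℚ) * r + (1 : ℤ) = 0 then ∞ else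
    ((((((-1 : ℤ) : ℚ) * r + (0 : ℤ)) / (((0 : ℤ) : ℚ) * r + (1 : ℤ)) : ℚ)) : OnePoint ℚ)) = _
  rw [if_neg (by norm_num)]
  congr 1
  push_cast
  ring

theorem mob_three (j : ℤ) (r : ℚ) :
    mob 1 j 0 ((3 : ℕ) : ℤ) ((r : ℚ) : OnePoint ℚ) = (((r + j) / 3 : ℚ) : OnePoint ℚ) := by
  show (if ((0 : ℤ) : ℚ) * r + (((3 : ℕ) : ℤ) : ℚ) = 0 then ∞ else
    (((((1 : ℤ) : ℚ) * r + (j : ℤ)) / (((0 : ℤ) : ℚ) * r + (((3 : ℕ) : ℤ) : ℚ)) : ℚ) :
      OnePoint ℚ)) = _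
  rw [if_neg (by norm_num)]
  congr 1
  push_cast
  ring

/-- `-(h x) = h' (-x)`. -/
theorem mob_conj (a b c d : ℤ) (x : OnePoint ℚ) :
    mob (-1) 0 0 1 (mob a b c d x) = mob a (-b) (-c) d (mob (-1) 0 0 1 x) := by
  induction x using OnePoint.rec with
  | infty =>
    rw [mob_inf]
    by_cases hc : c = 0
    · subst hc
      rw [mob_inf, neg_zero, mob_inf, mob_inf]
    · have h1 : mob a b c d ∞ = ((a / c : ℚ) : OnePoint ℚ) := by
        show (if c = 0 then (∞ : OnePoint ℚ) else ((a / c : ℚ) : OnePoint ℚ)) = _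
        rw [if_neg hc]
      have h2 : mob a (-b) (-c) d ∞ = ((a / ((-c : ℤ) : ℚ) : ℚ) : OnePoint ℚ) := by
        show (if -c = 0 then (∞ : OnePoint ℚ) else ((a / ((-c : ℤ) : ℚ) : ℚ) : OnePoint ℚ)) = _
        rw [if_neg (by simpa using hc)]
      rw [h1, h2, mob_neg]
      congr 1
      push_cast
      ring
  | coe r =>
    rw [mob_neg]
    by_cases h : (c : ℚ) * r + d = 0
    · have h1 : mob a b c d ((r : ℚ) : OnePoint ℚ) = ∞ := by
        show (if (c : ℚ) * r + d = 0 then (∞ : OnePoint ℚ) else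
          (((a * r + b) / (c * r + d) : ℚ) : OnePoint ℚ)) = _
        rw [if_pos h]
      have h2 : mob a (-b) (-c) d ((-r : ℚ) : OnePoint ℚ) = ∞ := by
        show (if ((-c : ℤ) : ℚ) * (-r) + d = 0 then (∞ : OnePoint ℚ) else
          (((a * (-r) + ((-b : ℤ) : ℚ)) / (((-c : ℤ) : ℚ) * (-r) + d) : ℚ) : OnePoint ℚ)) = _
        rw [if_pos (by push_cast; linarith)]
      rw [h1, h2, mob_inf]
    · have h1 : mob a b c d ((r : ℚ) : OnePoint ℚ) =
          (((a * r + b) / (c * r + d) : ℚ) : OnePoint ℚ) := by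
        show (if (c : ℚ) * r + d = 0 then (∞ : OnePoint ℚ) else
          (((a * r + b) / (c * r + d) : ℚ) : OnePoint ℚ)) = _
        rw [if_neg h]
      have h2 : mob a (-b) (-c) d ((-r : ℚ) : OnePoint ℚ) =
          (((a * (-r) + ((-b : ℤ) : ℚ)) / (((-c : ℤ) : ℚ) * (-r) + d) : ℚ) : OnePoint ℚ) := by
        show (if ((-c : ℤ) : ℚ) * (-r) + d = 0 then (∞ : OnePoint ℚ) else
          (((a * (-r) + ((-b : ℤ) : ℚ)) / (((-c : ℤ) : ℚ) * (-r) + d) : ℚ) : OnePoint ℚ)) = _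
        rw [if_neg (by
          intro h0
          apply h
          push_cast at h0
          linarith)]
      rw [h1, h2, mob_neg]
      congr 1
      push_cast
      rw [show -(c : ℚ) * -r + d = c * r + d by ring,
        show (a : ℚ) * -r + -(b : ℚ) = -(a * r + b) by ring, neg_div]

end Hk

open Hk in
theorem th_HK : Sh_HK := by
  intro N' nu P hP hnu s
  have h1 : ∀ (r : ℚ) (k : ℤ), P ∞ ((r + k : ℚ) : OnePoint ℚ) = P ∞ (r : OnePoint ℚ) := by
    intro r k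
    have h := hP.equiv 1 k 0 1 (by ring) (dvd_zero _) ∞ (r : OnePoint ℚ)
    rw [mob_inf, mob_tr, hnu, one_mul] at h
    exact h
  have hs : ∀ r : ℚ, sgnPart s P ∞ (r : OnePoint ℚ) =
      P ∞ (r : OnePoint ℚ) + s * P ∞ ((-r : ℚ) : OnePoint ℚ) := by
    intro r
    unfold sgnPart
    rw [mob_inf, mob_neg]
  refine ⟨h1, ?_, ⟨?_, ?_⟩, ?_⟩
  · intro r k
    rw [hs, hs, h1, show (-(r + k) : ℚ) = -r + ((-k : ℤ) : ℚ) by push_cast; ring, h1]
  · intro x y z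
    unfold sgnPart
    have e1 := hP.add x y z
    have e2 := hP.add (mob (-1) 0 0 1 x) (mob (-1) 0 0 1 y) (mob (-1) 0 0 1 z)
    linear_combination e1 + s * e2
  · intro a b c d hdet hc x y
    unfold sgnPart
    rw [mob_conj, mob_conj, hP.equiv a b c d hdet hc,
      hP.equiv a (-b) (-c) d (by linarith) ((dvd_neg).2 hc)]
    ring
  · intro a3 h3 hh r
    have hk : ∀ r : ℚ, ∑ j ∈ Finset.range 3, P ∞ (((r + j) / 3 : ℚ) : OnePoint ℚ) =
        a3 * P ∞ (r : OnePoint ℚ) := by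
      intro r
      rw [← hh]
      unfold hecke
      rw [show ((3 : ℕ) : ℤ) = 3 from rfl, h3, zero_mul, add_zero]
      apply Finset.sum_congr rfl
      intro j _
      rw [mob_inf]
      have := mob_three (j : ℤ) r
      rw [show ((3 : ℕ) : ℤ) = 3 from rfl] at this
      rw [this]
      norm_cast
    have hsum : ∑ j ∈ Finset.range 3, P ∞ ((-((r + j) / 3) : ℚ) : OnePoint ℚ) =
        a3 * P ∞ ((-r : ℚ) : OnePoint ℚ) := by
      rw [← hk (-r)]
      rw [Finset.sum_range_succ, Finset.sum_range_succ, Finset.sum_range_succ,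
        Finset.sum_range_succ, Finset.sum_range_succ, Finset.sum_range_succ, Finset.sum_range_zero,
        Finset.sum_range_zero]
      have e0 : (-((r + ((0 : ℕ) : ℚ)) / 3) : ℚ) = (-r + ((0 : ℕ) : ℚ)) / 3 := by push_cast; ring
      have e1 : (-((r + ((1 : ℕ) : ℚ)) / 3) : ℚ) = (-r + ((2 : ℕ) : ℚ)) / 3 + ((-1 : ℤ) : ℚ) := by
        push_cast; ring
      have e2 : (-((r + ((2 : ℕ) : ℚ)) / 3) : ℚ) = (-r + ((1 : ℕ) : ℚ)) / 3 + ((-1 : ℤ) : ℚ) := by
        push_cast; ring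
      rw [e0, e1, e2, h1, h1]
      ring
    calc ∑ j ∈ Finset.range 3, sgnPart s P ∞ (((r + j) / 3 : ℚ) : OnePoint ℚ)
        = ∑ j ∈ Finset.range 3, (P ∞ (((r + j) / 3 : ℚ) : OnePoint ℚ) +
            s * P ∞ ((-((r + j) / 3) : ℚ) : OnePoint ℚ)) :=
          Finset.sum_congr rfl fun j _ => hs _
      _ = a3 * P ∞ (r : OnePoint ℚ) + s * (a3 * P ∞ ((-r : ℚ) : OnePoint ℚ)) := by
          rw [Finset.sum_add_distrib, hk, ← Finset.mul_sum, hsum]
      _ = a3 * sgnPart s P ∞ (r : OnePoint ℚ) := by rw [hs]; ring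

end

end Pool.Agent.MU3H
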