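import Pool.Agent.MU3.StH

/-!
# MU3, block H, module HZ (helper45)

Character sums of an integral distribution which is nonzero modulo the maximal ideal: `th_HZ : Sh_HZ`.
Instead of the division of polynomials modulo the maximal ideal we use the Newton expansion of the
indicator function of a class modulo `3^m`: its differences of order at least `3^m` are divisible by `3`.
-/

set_option autoImplicit false

namespace Pool.Agent.MU3H

open _root_.MU3 Pool.Agent.MU3 Pool.Agent.MU3A Pool.Agent.MU3B Pool.Agent.MU3C Pool.Agent.MU3F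
  Pool.Agent.MU3G Pool.Agent.MU3I Pool.Agent.MuSym OnePoint
open scoped ComplexConjugate

noncomputable section

namespace Hz

/-- the difference of order `3^m` of a function of period `3^m` is divisible by `3` -/
theorem dvd_diff_aux (m : ℕ) (f : ℕ → ℤ) (hf : ∀ b, f (b + 3 ^ m) = f b) (y : ℕ) :
    (3 : ℤ) ∣ (fwdDiff 1)^[3 ^ m] f y := by
  rw [fwdDiff_iter_eq_sum_shift, Finset.sum_range_succ]
  have hpos : 0 < 3 ^ m := by positivity
  obtain ⟨q, hq⟩ : ∃ q, 3 ^ m = q + 1 := ⟨3 ^ m - 1, by omega⟩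
  have hodd : Odd (3 ^ m) := Odd.pow (by decide)
  have h1 : ∑ k ∈ Finset.range (3 ^ m),
      ((-1 : ℤ) ^ (3 ^ m - k) * ((3 ^ m).choose k : ℤ)) • f (y + k • 1) =
      (∑ k ∈ Finset.range q,
        ((-1 : ℤ) ^ (3 ^ m - (k + 1)) * ((3 ^ m).choose (k + 1) : ℤ)) • f (y + (k + 1) • 1)) +
      ((-1 : ℤ) ^ (3 ^ m - 0) * ((3 ^ m).choose 0 : ℤ)) • f (y + 0 • 1) := by
    conv_lhs => rw [show Finset.range (3 ^ m) = Finset.range (q + 1) by rw [hq]]
    rw [Finset.sum_range_succ']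
  rw [h1, add_assoc]
  refine dvd_add (Finset.dvd_sum fun k hk => ?_) ?_
  · have hk' : k + 1 ≠ 3 ^ m := by
      have := Finset.mem_range.1 hk
      omega
    have h2 : (3 : ℕ) ∣ (3 ^ m).choose (k + 1) :=
      Nat.Prime.dvd_choose_pow Nat.prime_three (Nat.succ_ne_zero k) hk'
    have h3 : (3 : ℤ) ∣ ((3 ^ m).choose (k + 1) : ℤ) := by exact_mod_cast h2
    rw [smul_eq_mul]
    exact Dvd.dvd.mul_right (Dvd.dvd.mul_left h3 _) _
  · have h4 : f (y + 3 ^ m • 1) = f y := by
      rw [smul_eq_mul, mul_one]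
      exact hf y
    rw [h4]
    simp [hodd.neg_one_pow]

theorem dvd_diff (m : ℕ) (f : ℕ → ℤ) (hf : ∀ b, f (b + 3 ^ m) = f b) (k : ℕ) (hk : 3 ^ m ≤ k)
    (y : ℕ) : (3 : ℤ) ∣ (fwdDiff 1)^[k] f y := by
  obtain ⟨j, rfl⟩ := Nat.exists_eq_add_of_le' hk
  rw [Function.iterate_add_apply, fwdDiff_iter_eq_sum_shift]
  refine Finset.dvd_sum fun i _ => ?_
  rw [smul_eq_mul]
  exact Dvd.dvd.mul_left (dvd_diff_aux m f hf _) _

/-- Newton expansion, summed against a function -/
theorem newton (N : ℕ) (F : ℕ → ℂ) (f : ℕ → ℤ) :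
    ∑ b ∈ Finset.range N, (f b : ℂ) * F b =
      ∑ k ∈ Finset.range N, (((fwdDiff 1)^[k] f 0 : ℤ) : ℂ) *
        ∑ b ∈ Finset.range N, ((b.choose k : ℕ) : ℂ) * F b := by
  have h1 : ∀ b ∈ Finset.range N, (f b : ℂ) * F b = ∑ k ∈ Finset.range N,
      (((fwdDiff 1)^[k] f 0 : ℤ) : ℂ) * (((b.choose k : ℕ) : ℂ) * F b) := by
    intro b hb
    have hb' := Finset.mem_range.1 hb
    have h2 : f b = ∑ k ∈ Finset.range (b + 1), (b.choose k : ℤ) * (fwdDiff 1)^[k] f 0 := by
      have := shift_eq_sum_fwdDiff_iter 1 f b 0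
      simp only [smul_eq_mul, mul_one, zero_add, nsmul_eq_mul] at this
      exact_mod_cast this
    have h3 : f b = ∑ k ∈ Finset.range N, (b.choose k : ℤ) * (fwdDiff 1)^[k] f 0 := by
      rw [h2]
      refine Finset.sum_subset (fun k hk => ?_) (fun k _ hk => ?_)
      · exact Finset.mem_range.2 (by have := Finset.mem_range.1 hk; omega)
      · have : b < k := by
          by_contra h
          exact hk (Finset.mem_range.2 (by omega))
        rw [Nat.choose_eq_zero_of_lt this]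
        simp
    rw [h3]
    push_cast
    rw [Finset.sum_mul]
    refine Finset.sum_congr rfl fun k _ => ?_
    ring
  rw [Finset.sum_congr rfl h1, Finset.sum_comm]
  refine Finset.sum_congr rfl fun k _ => ?_
  rw [Finset.mul_sum]

/-- the sum against powers of `ζ` in terms of the powers of `ζ - 1` -/
theorem shift_pow (N : ℕ) (F : ℕ → ℂ) (ζ : ℂ) :
    ∑ b ∈ Finset.range N, ζ ^ b * F b =
      ∑ k ∈ Finset.range N, (ζ - 1) ^ k *
        ∑ b ∈ Finset.range N, ((b.choose k : ℕ) : ℂ) * F b := by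
  have h1 : ∀ b ∈ Finset.range N, ζ ^ b * F b = ∑ k ∈ Finset.range N,
      (ζ - 1) ^ k * (((b.choose k : ℕ) : ℂ) * F b) := by
    intro b hb
    have hb' := Finset.mem_range.1 hb
    have h2 : ζ ^ b = ∑ k ∈ Finset.range (b + 1), (ζ - 1) ^ k * ((b.choose k : ℕ) : ℂ) := by
      have := add_pow (ζ - 1) 1 b
      simpa using this
    have h3 : ζ ^ b = ∑ k ∈ Finset.range N, (ζ - 1) ^ k * ((b.choose k : ℕ) : ℂ) := by
      rw [h2]
      refine Finset.sum_subset (fun k hk => ?_) (fun k _ hk => ?_)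
      · exact Finset.mem_range.2 (by have := Finset.mem_range.1 hk; omega)
      · have : b < k := by
          by_contra h
          exact hk (Finset.mem_range.2 (by omega))
        rw [Nat.choose_eq_zero_of_lt this]
        simp
    rw [h3, Finset.sum_mul]
    refine Finset.sum_congr rfl fun k _ => ?_
    ring
  rw [Finset.sum_congr rfl h1, Finset.sum_comm]
  refine Finset.sum_congr rfl fun k _ => ?_
  rw [Finset.mul_sum]

/-- additivity: the sum over the class of `r` modulo `3^m` at level `m + l` -/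
theorem sum_ind (M : ℕ → ℤ → ℂ) (hM : Dist M) (m r : ℕ) (hr : r < 3 ^ m) (l : ℕ) :
    ∑ b ∈ Finset.range (3 ^ (m + l)),
      (((if b % 3 ^ m = r then (1 : ℤ) else 0) : ℤ) : ℂ) * M (m + l) b = M m r := by
  induction l with
  | zero =>
    rw [Nat.add_zero, Finset.sum_eq_single r]
    · rw [Nat.mod_eq_of_lt hr]
      simp
    · intro b hb hbr
      rw [Nat.mod_eq_of_lt (Finset.mem_range.1 hb), if_neg hbr]
      simp
    · intro h
      exact absurd (Finset.mem_range.2 hr) h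
  | succ l ih =>
    rw [← ih]
    have hN : 3 ^ (m + (l + 1)) = 3 ^ (m + l) + 3 ^ (m + l) + 3 ^ (m + l) := by
      rw [← Nat.add_assoc, pow_succ]
      ring
    have hdv : 3 ^ m ∣ 3 ^ (m + l) := pow_dvd_pow 3 (Nat.le_add_right m l)
    rw [hN, Finset.sum_range_add, Finset.sum_range_add, ← Finset.sum_add_distrib,
      ← Finset.sum_add_distrib]
    refine Finset.sum_congr rfl fun b _ => ?_
    obtain ⟨q, hq⟩ := hdv
    have e1 : (3 ^ (m + l) + b) % 3 ^ m = b % 3 ^ m := by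
      rw [hq, Nat.mul_add_mod]
    have e2 : (3 ^ (m + l) + 3 ^ (m + l) + b) % 3 ^ m = b % 3 ^ m := by
      rw [hq, Nat.add_assoc, Nat.mul_add_mod, Nat.mul_add_mod]
    rw [e1, e2, hM.add (m + l) b, Finset.sum_range_succ, Finset.sum_range_succ,
      Finset.sum_range_one]
    have a0 : ((b : ℤ) + ((0 : ℕ) : ℤ) * 3 ^ (m + l)) = (b : ℤ) := by simp
    have a1 : ((b : ℤ) + ((1 : ℕ) : ℤ) * 3 ^ (m + l)) = ((3 ^ (m + l) + b : ℕ) : ℤ) := by
      push_cast
      ring
    have a2 : ((b : ℤ) + ((2 : ℕ) : ℤ) * 3 ^ (m + l)) =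
        ((3 ^ (m + l) + 3 ^ (m + l) + b : ℕ) : ℤ) := by
      push_cast
      ring
    rw [a0, a1, a2, Nat.add_assoc m l 1]
    ring

theorem val_int (V : ValuationSubring ℂ) (z : ℤ) : V.valuation (z : ℂ) ≤ 1 :=
  (V.valuation_le_one_iff _).2 (intCast_mem V z)

theorem val_nat (V : ValuationSubring ℂ) (n : ℕ) : V.valuation (n : ℂ) ≤ 1 :=
  (V.valuation_le_one_iff _).2 (natCast_mem V n)

theorem val_int_three (V : ValuationSubring ℂ) (z : ℤ) (hz : (3 : ℤ) ∣ z) :
    V.valuation (z : ℂ) ≤ V.valuation 3 := by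
  obtain ⟨w, rfl⟩ := hz
  push_cast
  rw [map_mul]
  exact mul_le_of_le_one_right' (val_int V w)

/-- the valuation of a root of unity -/
theorem val_root (V : ValuationSubring ℂ) (N : ℕ) (hN : N ≠ 0) (ζ : ℂ) (h : ζ ^ N = 1) :
    V.valuation ζ = 1 := by
  have h1 : V.valuation ζ ^ N = 1 := by rw [← map_pow, h, map_one]
  exact (pow_eq_one_iff_of_nonneg zero_le hN).1 h1

theorem val_sub_le (V : ValuationSubring ℂ) (ζ : ℂ) (hζ : V.valuation ζ ≤ 1) (i : ℕ) :
    V.valuation (ζ ^ i - 1) ≤ V.valuation (ζ - 1) := by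
  rw [← mul_geom_sum, map_mul]
  refine mul_le_of_le_one_right' ?_
  refine Valuation.map_sum_le _ fun j _ => ?_
  rw [map_pow]
  exact pow_le_one' hζ j

theorem val_prim (V : ValuationSubring ℂ) (N : ℕ) (hN : N ≠ 0) (ζ μ : ℂ)
    (hζ : IsPrimitiveRoot ζ N) (hμ : IsPrimitiveRoot μ N) :
    V.valuation (ζ - 1) = V.valuation (μ - 1) := by
  have : NeZero N := ⟨hN⟩
  refine le_antisymm ?_ ?_
  · obtain ⟨i, _, _, hi⟩ := (hμ.isPrimitiveRoot_iff).1 hζ
    rw [← hi]
    exact val_sub_le V μ (val_root V N hN μ hμ.pow_eq_one).le i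
  · obtain ⟨i, _, _, hi⟩ := (hζ.isPrimitiveRoot_iff).1 hμ
    rw [← hi]
    exact val_sub_le V ζ (val_root V N hN ζ hζ.pow_eq_one).le i

/-- `v(ζ - 1)^φ = v 3` -/
theorem val_three (V : ValuationSubring ℂ) (n : ℕ) (ζ : ℂ) (hζ : IsPrimitiveRoot ζ (3 ^ (n + 1))) :
    V.valuation (ζ - 1) ^ (3 ^ n * 2) = V.valuation 3 := by
  have : Fact (Nat.Prime 3) := ⟨Nat.prime_three⟩
  have h1 := Polynomial.eval_one_cyclotomic_prime_pow (R := ℂ) (p := 3) n
  rw [Polynomial.cyclotomic_eq_prod_X_sub_primitiveRoots hζ, Polynomial.eval_prod] at h1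
  have h2 : V.valuation 3 = ∏ μ ∈ primitiveRoots (3 ^ (n + 1)) ℂ, V.valuation (ζ - 1) := by
    have h3 : ((3 : ℕ) : ℂ) = 3 := by norm_num
    rw [← h3, ← h1, map_prod]
    refine Finset.prod_congr rfl fun μ hμ => ?_
    have hμ' := isPrimitiveRoot_of_mem_primitiveRoots hμ
    rw [Polynomial.eval_sub, Polynomial.eval_X, Polynomial.eval_C, ← neg_sub, Valuation.map_neg]
    exact (val_prim V _ (by positivity) ζ μ hζ hμ').symm
  rw [h2, Finset.prod_const, Complex.card_primitiveRoots, Nat.totient_prime_pow_succ Nat.prime_three]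

end Hz

open Hz in
theorem th_HZ : Sh_HZ := by
  intro V hV K hK M hM hMK hM1 hex
  obtain ⟨m, b₀, hb₀⟩ := hex
  refine ⟨m + 1, fun n hn ζ hζ => ?_⟩
  obtain ⟨l, rfl⟩ := Nat.exists_eq_add_of_le hn
  -- the class of `b₀`
  obtain ⟨r, hr, hMr⟩ : ∃ r : ℕ, r < 3 ^ m ∧ V.valuation (M m r) = 1 := by
    have hpos : (0 : ℤ) < 3 ^ m := by positivity
    refine ⟨(b₀ % 3 ^ m).toNat, ?_, ?_⟩
    · have h1 := Int.emod_lt_of_pos b₀ hpos
      have h0 := Int.emod_nonneg b₀ hpos.ne'
      have : (((b₀ % 3 ^ m).toNat : ℕ) : ℤ) < ((3 ^ m : ℕ) : ℤ) := by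
        rw [Int.toNat_of_nonneg h0]
        push_cast
        exact h1
      exact_mod_cast this
    · rw [Int.toNat_of_nonneg (Int.emod_nonneg b₀ hpos.ne')]
      rw [hM.per m (b₀ % 3 ^ m) b₀ ?_]
      · exact hb₀
      · have := Int.emod_add_mul_ediv b₀ (3 ^ m)
        exact ⟨-(b₀ / 3 ^ m), by linarith⟩
  set N := 3 ^ (m + 1 + l) with hNdef
  set c : ℕ → ℂ := fun k => ∑ b ∈ Finset.range N, ((b.choose k : ℕ) : ℂ) * M (m + 1 + l) b
    with hc
  have hcK : ∀ k, c k ∈ K := fun k =>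
    sum_mem fun b _ => mul_mem (natCast_mem K _) (hMK _ _)
  have hc1 : ∀ k, V.valuation (c k) ≤ 1 := fun k =>
    Valuation.map_sum_le _ fun b _ => by
      rw [map_mul]
      exact mul_le_one' (val_nat V _) (hM1 _ _)
  -- step 1
  have hex1 : ∃ k, k < 3 ^ m ∧ V.valuation (c k) = 1 := by
    by_contra hcon
    have hlt : ∀ k < 3 ^ m, V.valuation (c k) < 1 := fun k hk =>
      lt_of_le_of_ne (hc1 k) fun h => hcon ⟨k, hk, h⟩
    set f : ℕ → ℤ := fun b => if b % 3 ^ m = r then (1 : ℤ) else 0 with hf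
    have hper : ∀ b, f (b + 3 ^ m) = f b := fun b => by
      simp only [hf, Nat.add_mod_right]
    have h1 : ∑ b ∈ Finset.range N, (f b : ℂ) * M (m + 1 + l) b = M m r := by
      have := sum_ind M hM m r hr (1 + l)
      rw [← Nat.add_assoc] at this
      exact this
    rw [newton N (fun b => M (m + 1 + l) b) f] at h1
    have h2 : V.valuation (M m r) < 1 := by
      rw [← h1]
      refine Valuation.map_sum_lt _ one_ne_zero fun k _ => ?_
      rw [map_mul]
      rcases lt_or_ge k (3 ^ m) with hk | hk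
      · exact lt_of_le_of_lt (mul_le_of_le_one_left' (val_int V _)) (hlt k hk)
      · refine lt_of_le_of_lt (mul_le_of_le_one_right' (hc1 k)) ?_
        exact lt_of_le_of_lt (val_int_three V _ (dvd_diff m f hper k hk 0)) hV
    exact absurd hMr h2.ne
  classical
  obtain ⟨hk₀, hk₁⟩ := Nat.find_spec hex1
  set k₀ := Nat.find hex1 with hk₀def
  have hmin : ∀ k < k₀, V.valuation (c k) ≤ V.valuation 3 := by
    intro k hk
    refine hK _ (hcK k) (lt_of_le_of_ne (hc1 k) fun h => ?_)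
    exact Nat.find_min hex1 hk ⟨lt_trans hk hk₀, h⟩
  -- step 2
  have hy : V.valuation (ζ - 1) ^ (3 ^ (m + l) * 2) = V.valuation 3 :=
    val_three V (m + l) ζ (by
      have : m + l + 1 = m + 1 + l := by omega
      rw [this]
      exact hζ)
  set y := V.valuation (ζ - 1) with hydef
  have h3pos : (0 : V.ValueGroup) < V.valuation 3 :=
    lt_of_le_of_ne zero_le ((Valuation.ne_zero_iff _).2 (by norm_num)).symm
  have hφ : 3 ^ (m + l) * 2 ≠ 0 := by positivity
  have hy0 : 0 < y := by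
    refine lt_of_le_of_ne zero_le fun h => ?_
    rw [← h, zero_pow hφ] at hy
    exact h3pos.ne hy
  have hy1 : y < 1 := by
    by_contra h
    have h1 : 1 ≤ y := not_lt.1 h
    have : 1 ≤ y ^ (3 ^ (m + l) * 2) := one_le_pow₀ h1
    rw [hy] at this
    exact absurd this (not_le.2 hV)
  have hkφ : 2 * k₀ < 3 ^ (m + l) * 2 := by
    have : 3 ^ m ≤ 3 ^ (m + l) := Nat.pow_le_pow_right (by norm_num) (Nat.le_add_right m l)
    omega
  -- step 3
  have hval : V.valuation (∑ b ∈ Finset.range N, ζ ^ b * M (m + 1 + l) b) = y ^ k₀ := by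
    rw [shift_pow N (fun b => M (m + 1 + l) b) ζ]
    have hk₀N : k₀ ∈ Finset.range N := by
      refine Finset.mem_range.2 (lt_of_lt_of_le hk₀ ?_)
      exact Nat.pow_le_pow_right (by norm_num) (by omega)
    rw [← Finset.add_sum_erase _ _ hk₀N]
    have ha : V.valuation ((ζ - 1) ^ k₀ * c k₀) = y ^ k₀ := by
      rw [map_mul, map_pow, hk₁, mul_one]
    have hb : V.valuation (∑ k ∈ (Finset.range N).erase k₀, (ζ - 1) ^ k * c k) < y ^ k₀ := by
      refine Valuation.map_sum_lt _ (pow_pos hy0 k₀).ne' fun k hk => ?_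
      have hne := Finset.ne_of_mem_erase hk
      rw [map_mul, map_pow]
      rcases lt_or_gt_of_ne hne with hlt | hgt
      · refine lt_of_le_of_lt (mul_le_of_le_one_left' (pow_le_one' hy1.le k)) ?_
        refine lt_of_le_of_lt (hmin k hlt) ?_
        rw [← hy]
        exact pow_lt_pow_right_of_lt_one₀ hy0 hy1 (by omega)
      · refine lt_of_le_of_lt (mul_le_of_le_one_right' (hc1 k)) ?_
        exact pow_lt_pow_right_of_lt_one₀ hy0 hy1 hgt
    have := Valuation.map_add_eq_of_lt_left V.valuation (x := (ζ - 1) ^ k₀ * c k₀)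
      (y := ∑ k ∈ (Finset.range N).erase k₀, (ζ - 1) ^ k * c k) (by rw [ha]; exact hb)
    rw [this, ha]
  rw [hval, ← pow_mul, ← hy]
  exact pow_lt_pow_right_of_lt_one₀ hy0 hy1 (by omega)

end

end Pool.Agent.MU3H
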