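import Pool.Agent.MU3.StH

/-!
# MU3, block H, module MAX: a subset of a finitely generated group has an element of maximal valuation
-/

set_option autoImplicit false

namespace Pool.Agent.MU3H

open _root_.MU3 Pool.Agent.MU3 Pool.Agent.MU3A Pool.Agent.MU3B Pool.Agent.MU3C Pool.Agent.MU3F
  Pool.Agent.MU3G Pool.Agent.MU3I Pool.Agent.MuSym OnePoint
open scoped ComplexConjugate

noncomputable section

namespace Max

theorem val_int (V : ValuationSubring ℂ) (n : ℤ) : V.valuation (n : ℂ) ≤ 1 :=
  (V.valuation_le_one_iff _).2 (intCast_mem V n)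

theorem val_span (V : ValuationSubring ℂ) (s : Set ℂ) (g : V.ValueGroup)
    (h : ∀ x ∈ s, V.valuation x ≤ g) (x : ℂ) (hx : x ∈ Submodule.span ℤ s) : V.valuation x ≤ g := by
  induction hx using Submodule.span_induction with
  | mem x hx => exact h x hx
  | zero => rw [map_zero]; exact zero_le
  | add x y _ _ hx hy => exact (V.valuation.map_add x y).trans (max_le hx hy)
  | smul n x _ hx =>
    rw [zsmul_eq_mul, map_mul]
    calc V.valuation (n : ℂ) * V.valuation x ≤ 1 * V.valuation x := by
          gcongr
          exact val_int V n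
      _ = V.valuation x := one_mul _
      _ ≤ g := hx

end Max

open Pool.Agent.MU3H.Max in
/-- A subset of a finitely generated group has an element of maximal valuation. -/
theorem th_MAX : Sh_MAX := by
  classical
  intro V T S hS hne
  -- the span of `S` is finitely generated
  have hle : Submodule.span ℤ S ≤ Submodule.span ℤ (T : Set ℂ) := by
    rw [Submodule.span_le]
    intro x hx
    have h1 := hS hx
    have h2 : (Submodule.span ℤ (T : Set ℂ)).toAddSubgroup = AddSubgroup.closure (T : Set ℂ) :=
      Submodule.span_int_eq_addSubgroupClosure _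
    rw [← h2] at h1
    exact h1
  have hN : IsNoetherian ℤ (Submodule.span ℤ (T : Set ℂ)) :=
    isNoetherian_span_of_finite ℤ T.finite_toSet
  have hfg : (Submodule.span ℤ S).FG := by
    have h1 := (isNoetherian_submodule.1 hN) (Submodule.span ℤ S) hle
    exact h1
  obtain ⟨S₀, hS₀, hsp⟩ := Submodule.fg_span_iff_fg_span_finset_subset _ |>.1 hfg
  obtain ⟨s₁, hs₁⟩ := hne
  obtain ⟨l, hl, hmax⟩ := (insert s₁ S₀).exists_max_image (fun x => V.valuation x)
    ⟨s₁, Finset.mem_insert_self s₁ S₀⟩
  refine ⟨l, ?_, ?_⟩
  · rcases Finset.mem_insert.1 hl with h | h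
    · rw [h]; exact hs₁
    · exact hS₀ h
  · intro x hx
    have h1 : x ∈ Submodule.span ℤ (S₀ : Set ℂ) := by
      rw [← hsp]
      exact Submodule.subset_span hx
    exact val_span V _ _ (fun y hy => hmax y (Finset.mem_insert_of_mem hy)) x h1

end

end Pool.Agent.MU3H
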