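import Pool.Agent.MU3.StH

/-!
# MU3, block H: module MD, the distribution attached to an eigenfunction of `U_3`
-/

set_option autoImplicit false

namespace Pool.Agent.MU3H

open _root_.MU3 Pool.Agent.MU3 Pool.Agent.MU3A Pool.Agent.MU3B Pool.Agent.MU3C Pool.Agent.MU3F
  Pool.Agent.MU3G Pool.Agent.MU3I Pool.Agent.MuSym OnePoint
open scoped ComplexConjugate

theorem th_MD : Sh_MD := by
  intro g a3 c ha hper hsum
  constructor
  · intro n b b' h
    obtain ⟨k, hk⟩ := h
    have h3 : (3 : ℚ) ^ n ≠ 0 := by positivity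
    have h1 : (b : ℚ) / 3 ^ n = (b' : ℚ) / 3 ^ n + k := by
      have h2 : (b : ℚ) = b' + 3 ^ n * k := by
        have h4 : b = b' + 3 ^ n * k := by linarith
        rw [h4]; push_cast; ring
      rw [h2]
      field_simp
    rw [h1, hper]
  · intro n b
    have h3 : (3 : ℚ) ^ n ≠ 0 := by positivity
    have h1 : ∀ j ∈ Finset.range 3, g (((b : ℚ) / 3 ^ n + (j : ℚ)) / 3) =
        g (((b + (j : ℤ) * 3 ^ n : ℤ) : ℚ) / 3 ^ (n + 1)) := by
      intro j _
      congr 1
      push_cast
      rw [pow_succ]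
      field_simp
    have h2 := hsum ((b : ℚ) / 3 ^ n)
    rw [Finset.sum_congr rfl h1] at h2
    rw [← Finset.sum_div, h2, pow_succ]
    rcases eq_or_ne c 0 with hc | hc
    · subst hc; simp
    · field_simp

end Pool.Agent.MU3H
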