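import Pool.Agent.MU3.StH

/-!
# MU3, block H: module STP (helper37)
-/

set_option autoImplicit false

namespace Pool.Agent.MU3H

open _root_.MU3 Pool.Agent.MU3 Pool.Agent.MU3A Pool.Agent.MU3B Pool.Agent.MU3C Pool.Agent.MU3F
  Pool.Agent.MU3G Pool.Agent.MU3I Pool.Agent.MuSym OnePoint
open scoped ComplexConjugate

namespace Stp

theorem not_dvd_mul {u b : ℤ} (hu : (3 : ℤ) ∣ u - 1) (n : ℕ) (h : ¬ (3 : ℤ) ^ n ∣ b) :
    ¬ (3 : ℤ) ^ n ∣ u * b := by
  intro h1
  apply h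
  have hc : IsCoprime (3 : ℤ) u := by
    obtain ⟨m, hm⟩ := hu
    exact ⟨-m, 1, by linarith⟩
  exact (hc.pow_left (m := n)).dvd_of_dvd_mul_left h1

theorem pow_u {u : ℤ} {k : ℕ} {w : ℤ} (hk : 1 ≤ k) (hw : u - 1 = 3 ^ k * w) (hw3 : ¬ (3 : ℤ) ∣ w)
    (n : ℕ) (hn : k ≤ n) : ∃ w' : ℤ, u ^ (3 ^ (n - k)) = 1 + 3 ^ n * w' ∧ ¬ (3 : ℤ) ∣ w' := by
  induction n, hn using Nat.le_induction with
  | base => exact ⟨w, by rw [Nat.sub_self, pow_zero, pow_one]; linarith, hw3⟩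
  | succ n hn ih =>
    obtain ⟨w', h1, h2⟩ := ih
    obtain ⟨m, hm⟩ : ∃ m, n = m + 1 := ⟨n - 1, by omega⟩
    refine ⟨w' + 3 ^ n * w' ^ 2 + 3 ^ (2 * m + 1) * w' ^ 3, ?_, ?_⟩
    · have e : n + 1 - k = (n - k) + 1 := by omega
      rw [e, pow_succ, pow_mul, h1, hm]
      ring
    · intro h3
      apply h2
      have e1 : (3 : ℤ) ∣ 3 ^ n * w' ^ 2 := by
        rw [hm, pow_succ]
        exact ⟨3 ^ m * w' ^ 2, by ring⟩
      have e2 : (3 : ℤ) ∣ 3 ^ (2 * m + 1) * w' ^ 3 := ⟨3 ^ (2 * m) * w' ^ 3, by ring⟩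
      have e3 := dvd_sub (dvd_sub h3 e2) e1
      have e4 : w' + 3 ^ n * w' ^ 2 + 3 ^ (2 * m + 1) * w' ^ 3 - 3 ^ (2 * m + 1) * w' ^ 3 -
        3 ^ n * w' ^ 2 = w' := by ring
      rwa [e4] at e3

/-- powers of `1 + 3^n w` modulo `3^(n+1)` -/
theorem pow_one_add {n : ℕ} (hn : 1 ≤ n) (w : ℤ) (i : ℕ) :
    (3 : ℤ) ^ (n + 1) ∣ (1 + 3 ^ n * w) ^ i - (1 + i * (3 ^ n * w)) := by
  induction i with
  | zero => simp
  | succ i ih =>
    obtain ⟨q, hq⟩ := ih
    obtain ⟨m, hm⟩ : ∃ m, n = m + 1 := ⟨n - 1, by omega⟩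
    have e : (1 + 3 ^ n * w) ^ i = 3 ^ (n + 1) * q + (1 + i * (3 ^ n * w)) := by linarith
    refine ⟨q * (1 + 3 ^ n * w) + 3 ^ m * (i * w ^ 2), ?_⟩
    rw [pow_succ, e, hm]
    push_cast
    ring

theorem solve {w b : ℤ} (hw : ¬ (3 : ℤ) ∣ w) (hb : ¬ (3 : ℤ) ∣ b) (j : ℕ) :
    ∃ i : ℕ, (3 : ℤ) ∣ i * (w * b) - j := by
  have h1 : ¬ (3 : ℤ) ∣ w * b := by
    intro h
    rcases (Int.prime_three.dvd_or_dvd h) with h | h
    · exact hw h
    · exact hb h
  have h2 : (w * b) % 3 = 1 ∨ (w * b) % 3 = 2 := by omega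
  rcases h2 with h2 | h2
  · refine ⟨j, ?_⟩
    obtain ⟨q, hq⟩ : ∃ q, w * b = 3 * q + 1 := ⟨w * b / 3, by omega⟩
    rw [hq]
    exact ⟨j * q, by ring⟩
  · refine ⟨2 * j, ?_⟩
    obtain ⟨q, hq⟩ : ∃ q, w * b = 3 * q + 2 := ⟨w * b / 3, by omega⟩
    rw [hq]
    exact ⟨j * (2 * q + 1), by push_cast; ring⟩

end Stp

open Stp in
theorem th_STP : Sh_STP := by
  intro V h3 M hM hint hex u hu hu1 c₁ c₂ hc1 hc12
  have hc2 : V.valuation c₂ ≤ 1 := by
    have e : c₂ = c₁ - (c₁ - c₂) := by ring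
    rw [e]
    exact (V.valuation.map_sub _ _).trans (max_le hc1.le hc12.le)
  have hint' : ∀ (n : ℕ) (b : ℤ), ¬ (3 : ℤ) ^ n ∣ b →
      V.valuation (c₁ * M n (u * b) - c₂ * M n b) ≤ 1 := by
    intro n b hb
    refine (V.valuation.map_sub _ _).trans (max_le ?_ ?_)
    · rw [map_mul, hc1, one_mul]
      exact hint n _ (not_dvd_mul hu n hb)
    · rw [map_mul]
      exact mul_le_one' hc2 (hint n b hb)
  refine ⟨⟨?_, ?_⟩, hint', ?_⟩
  · intro n b c hbc
    have e1 : (3 : ℤ) ^ n ∣ u * b - u * c := by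
      rw [← mul_sub]
      exact Dvd.dvd.mul_left hbc u
    rw [hM.per n b c hbc, hM.per n _ _ e1]
  · intro n b
    rw [Finset.sum_sub_distrib, ← Finset.mul_sum, ← Finset.mul_sum, ← hM.add n b, hM.add n (u * b)]
    congr 2
    refine Finset.sum_congr rfl fun j _ => ?_
    refine hM.per (n + 1) _ _ ?_
    obtain ⟨m, hm⟩ := hu
    refine ⟨-(m * j), ?_⟩
    have : u = 3 * m + 1 := by linarith
    rw [this]
    ring
  · by_contra hcon
    push Not at hcon
    have hb1 : ∀ (n : ℕ) (b : ℤ), 1 ≤ n → ¬ (3 : ℤ) ∣ b → ¬ (3 : ℤ) ^ n ∣ b := by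
      intro n b hn hb h
      exact hb ((dvd_pow_self 3 (by omega)).trans h)
    have hlt : ∀ (n : ℕ) (b : ℤ), 1 ≤ n → ¬ (3 : ℤ) ∣ b →
        V.valuation (M n (u * b) - M n b) < 1 := by
      intro n b hn hb
      have h1 : V.valuation (c₁ * M n (u * b) - c₂ * M n b) < 1 :=
        lt_of_le_of_ne (hint' n b (hb1 n b hn hb)) (hcon n b hn hb)
      have h2 : V.valuation ((c₁ - c₂) * M n b) < 1 := by
        rw [map_mul]
        exact mul_lt_one_of_lt_of_le hc12 (hint n b (hb1 n b hn hb))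
      have e : c₁ * (M n (u * b) - M n b) = (c₁ * M n (u * b) - c₂ * M n b) -
        (c₁ - c₂) * M n b := by ring
      have h4 : V.valuation (c₁ * (M n (u * b) - M n b)) < 1 := by
        rw [e]
        exact lt_of_le_of_lt (V.valuation.map_sub _ _) (max_lt h1 h2)
      rwa [map_mul, hc1, one_mul] at h4
    have h3u : ∀ (i : ℕ) (b : ℤ), ¬ (3 : ℤ) ∣ b → ¬ (3 : ℤ) ∣ u ^ i * b := by
      intro i b hb
      induction i with
      | zero => simpa using hb
      | succ i ih =>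
        have h := not_dvd_mul hu 1 (b := u ^ i * b) (by rwa [pow_one])
        rw [pow_one] at h
        have e : u ^ (i + 1) * b = u * (u ^ i * b) := by ring
        rwa [e]
    have hpow : ∀ (n : ℕ) (b : ℤ) (i : ℕ), 1 ≤ n → ¬ (3 : ℤ) ∣ b →
        V.valuation (M n (u ^ i * b) - M n b) < 1 := by
      intro n b i hn hb
      induction i with
      | zero =>
        rw [pow_zero, one_mul, sub_self, map_zero]
        exact zero_lt_one
      | succ i ih =>
        have h1 := hlt n (u ^ i * b) hn (h3u i b hb)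
        have e : M n (u ^ (i + 1) * b) - M n b = (M n (u * (u ^ i * b)) - M n (u ^ i * b)) +
            (M n (u ^ i * b) - M n b) := by
          have e1 : u ^ (i + 1) * b = u * (u ^ i * b) := by ring
          rw [e1]
          ring
        rw [e]
        exact V.valuation.map_add_lt h1 ih
    obtain ⟨w, hw, hw3⟩ := (Int.finiteMultiplicity_iff.2
      ⟨by norm_num, sub_ne_zero.2 hu1⟩ : FiniteMultiplicity (3 : ℤ) (u - 1)).exists_eq_pow_mul_and_not_dvd
    set k := multiplicity (3 : ℤ) (u - 1) with hk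
    have hk1 : 1 ≤ k := by
      by_contra h
      have h0 : k = 0 := by omega
      rw [h0, pow_zero, one_mul] at hw
      exact hw3 (hw ▸ hu)
    have hbig : ∀ (n : ℕ) (b : ℤ), k ≤ n → ¬ (3 : ℤ) ∣ b → V.valuation (M n b) < 1 := by
      intro n b hn hb
      have hn1 : 1 ≤ n := hk1.trans hn
      obtain ⟨w', h1, h2⟩ := pow_u hk1 hw hw3 n hn
      have hj : ∀ j : ℕ, V.valuation (M (n + 1) (b + j * 3 ^ n) - M (n + 1) b) < 1 := by
        intro j
        obtain ⟨i, hi⟩ := solve h2 hb j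
        have e1 : (3 : ℤ) ^ (n + 1) ∣ (b + j * 3 ^ n) - u ^ (3 ^ (n - k) * i) * b := by
          rw [pow_mul, h1]
          obtain ⟨q, hq⟩ := pow_one_add hn1 w' i
          obtain ⟨q', hq'⟩ := hi
          have e2 : (1 + 3 ^ n * w') ^ i = 3 ^ (n + 1) * q + (1 + i * (3 ^ n * w')) := by linarith
          rw [e2]
          refine ⟨-q' - q * b, ?_⟩
          have e3 : (j : ℤ) = i * (w' * b) - 3 * q' := by linarith
          rw [e3]
          ring
        rw [hM.per (n + 1) _ _ e1]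
        exact hpow (n + 1) b _ (by omega) hb
      have e : M n b = 3 * M (n + 1) b + ((M (n + 1) (b + (0 : ℕ) * 3 ^ n) - M (n + 1) b) +
          (M (n + 1) (b + (1 : ℕ) * 3 ^ n) - M (n + 1) b) +
          (M (n + 1) (b + (2 : ℕ) * 3 ^ n) - M (n + 1) b)) := by
        rw [hM.add n b, Finset.sum_range_succ, Finset.sum_range_succ, Finset.sum_range_succ,
          Finset.sum_range_zero]
        ring
      rw [e]
      refine V.valuation.map_add_lt ?_ (V.valuation.map_add_lt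
        (V.valuation.map_add_lt (hj 0) (hj 1)) (hj 2))
      rw [map_mul]
      exact mul_lt_one_of_lt_of_le h3 (hint _ _ (hb1 (n + 1) b (by omega) hb))
    have hall : ∀ (d n : ℕ), 1 ≤ n → k ≤ n + d → ∀ b : ℤ, ¬ (3 : ℤ) ∣ b →
        V.valuation (M n b) < 1 := by
      intro d
      induction d with
      | zero => exact fun n _ h b hb => hbig n b h hb
      | succ d ih =>
        intro n hn h b hb
        rw [hM.add n b]
        refine V.valuation.map_sum_lt one_ne_zero fun j _ => ?_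
        refine ih (n + 1) (by omega) (by omega) _ ?_
        intro h4
        apply hb
        have h5 : (3 : ℤ) ∣ j * 3 ^ n := Dvd.dvd.mul_left (dvd_pow_self 3 (by omega)) _
        exact (dvd_add_left h5).1 h4
    obtain ⟨n, b, hn, hb, hv⟩ := hex
    exact absurd hv (hall k n hn (by omega) b hb).ne

end Pool.Agent.MU3H
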