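import Pool.Agent.MU3.StH
import Pool.Agent.MU3.VZ

/-!
# MU3, block H: module VAL (helper9)
-/

set_option autoImplicit false

namespace Pool.Agent.MU3H

open _root_.MU3 Pool.Agent.MU3 Pool.Agent.MU3A Pool.Agent.MU3B Pool.Agent.MU3C Pool.Agent.MU3F
  Pool.Agent.MU3G Pool.Agent.MU3I Pool.Agent.MuSym OnePoint
open scoped ComplexConjugate

noncomputable section

namespace Val

theorem int_le (V : ValuationSubring ℂ) (n : ℤ) : V.valuation (n : ℂ) ≤ 1 :=
  (ValuationSubring.valuation_le_one_iff _ _).2 (intCast_mem V n)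

theorem add_lt {V : ValuationSubring ℂ} {x y : ℂ} (hx : V.valuation x < 1)
    (hy : V.valuation y < 1) : V.valuation (x + y) < 1 :=
  lt_of_le_of_lt (V.valuation.map_add x y) (max_lt hx hy)

theorem mul_lt {V : ValuationSubring ℂ} {x y : ℂ} (hx : V.valuation x ≤ 1)
    (hy : V.valuation y < 1) : V.valuation (x * y) < 1 := by
  rw [map_mul]
  exact lt_of_le_of_lt (mul_le_of_le_one_left' hx) hy

theorem int_one {V : ValuationSubring ℂ} (h3 : V.valuation 3 < 1) (n : ℤ) (hn : ¬ (3 : ℤ) ∣ n) :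
    V.valuation (n : ℂ) = 1 := by
  refine le_antisymm (int_le V n) (not_lt.1 fun hlt => ?_)
  have hc : IsCoprime (3 : ℤ) n := (Int.prime_three.coprime_iff_not_dvd).2 hn
  obtain ⟨a, b, hab⟩ := hc
  have h1 : V.valuation ((a : ℂ) * 3 + (b : ℂ) * (n : ℂ)) < 1 :=
    add_lt (mul_lt (int_le V a) h3) (mul_lt (int_le V b) hlt)
  have h2 : (a : ℂ) * 3 + (b : ℂ) * (n : ℂ) = 1 := by exact_mod_cast hab
  rw [h2, map_one] at h1
  exact lt_irrefl _ h1

theorem root_one (V : ValuationSubring ℂ) (r : ℕ) (z : ℂ) (hr : r ≠ 0) (hz : z ^ r = 1) :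
    V.valuation z = 1 := by
  have h : V.valuation z ^ r = 1 := by rw [← map_pow, hz, map_one]
  exact (pow_eq_one_iff_of_nonneg zero_le hr).1 h

end Val

theorem th_VAL (hALG : Sf_ALG) : Sh_VAL := by
  intro A B h V hV
  obtain ⟨hmul, hx, hint, -, hpp, -⟩ := hALG A B h
  have hp : V.valuation (emb (ppi A B)) < 1 := (ValuationSubring.mem_nonunits_iff _).1 hV
  have hle : ∀ x : OO A B, V.valuation (emb x) ≤ 1 := Pool.Agent.MU3V.v_emb_le h V
  have e3 : (3 : ℂ) = emb (ppi A B) * emb (star (ppi A B)) := by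
    have h1 := (hmul (ppi A B) (star (ppi A B))).1
    have h2 := hint 3
    have h3 : ((3 : ℤ) : OO A B) = 3 := by norm_cast
    rw [h3] at h2
    rw [← h1, hpp, h2]
    norm_num
  have h3 : V.valuation 3 < 1 := by
    rw [e3, mul_comm]
    exact Val.mul_lt (hle _) hp
  have hsum : emb (ppi A B) + emb (star (ppi A B)) = ((2 - B : ℤ) : ℂ) := by
    rw [← (hmul (ppi A B) (star (ppi A B))).2.1, ← hint]
    congr 1
    rcases h with ⟨rfl, rfl⟩ | ⟨rfl, rfl⟩ <;>
      (apply QuadraticAlgebra.ext <;> simp [ppi] <;> norm_num <;> rfl)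
  have hstar : V.valuation (emb (star (ppi A B))) = 1 := by
    refine le_antisymm (hle _) (not_lt.1 fun hlt => ?_)
    have h1 := Val.add_lt hp hlt
    rw [hsum, Val.int_one h3 (2 - B) (by
      rcases h with ⟨rfl, rfl⟩ | ⟨rfl, rfl⟩ <;> norm_num)] at h1
    exact lt_irrefl _ h1
  refine ⟨h3, hle, Val.int_le V, Val.int_one h3, ?_, ?_, Val.root_one V, ?_⟩
  · rw [e3, map_mul, hstar, mul_one]
  · rw [← (hx (ppi A B)).2.2.2]
    exact hstar
  · intro t ht
    have h1 : V.valuation t ^ 2 = 1 := by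
      rw [← map_pow, ht, Valuation.map_neg]
      refine Val.int_one h3 _ ?_
      rcases h with ⟨rfl, rfl⟩ | ⟨rfl, rfl⟩ <;> norm_num [absD]
    exact (pow_eq_one_iff_of_nonneg zero_le two_ne_zero).1 h1

end

end Pool.Agent.MU3H
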