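import Pool.Agent.MU3.StKey
import Pool.Agent.MuSym.Fn

/-!
# MU3: the key lemma KM2, from KM1 and KM1L
-/

open Finset OnePoint

namespace Pool.Agent.MU3

open Pool.Agent.MuSym

namespace P_KM2

variable {R M : Type} [CommRing R] [AddCommGroup M] [Module R M]

open Classical in
/-- The boundary function. -/
noncomputable def bd (L : ℤ) (χ : ℤ → R) (φ : M) (r : ℚ) : M :=
  if IsCoprime (r.den : ℤ) L then χ (r.den : ℤ) • φ else 0

open Classical in
lemma bd_pos (L : ℤ) (χ : ℤ → R) (φ : M) {U V : ℤ} (hV : 0 < V) (h : IsCoprime U V) :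
    bd L χ φ ((U : ℚ) / V) = if IsCoprime V L then χ V • φ else 0 := by
  have hcop : Nat.Coprime U.natAbs V.natAbs := Int.isCoprime_iff_nat_coprime.mp h
  have hd : (((U : ℚ) / V).den : ℤ) = V := Rat.den_div_eq_of_coprime hV hcop
  rw [bd, hd]

open Classical in
lemma bd_eq (L : ℤ) (χ : ℤ → R) (φ : M) (hneg : χ (-1) • φ = φ)
    (hmul : ∀ d d' : ℤ, χ (d * d') = χ d * χ d') {U V : ℤ} (hV : V ≠ 0) (h : IsCoprime U V) :
    bd L χ φ ((U : ℚ) / V) = if IsCoprime V L then χ V • φ else 0 := by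
  rcases lt_or_gt_of_ne hV with h' | h'
  · have e : (U : ℚ) / V = ((-U : ℤ) : ℚ) / ((-V : ℤ) : ℚ) := by push_cast; rw [neg_div_neg_eq]
    rw [e, bd_pos L χ φ (by omega) h.neg_neg]
    have h1 : χ (-V) • φ = χ V • φ := by
      have h2 : -V = V * (-1) := by ring
      rw [h2, hmul, mul_smul, hneg]
    have h3 : IsCoprime (-V) L ↔ IsCoprime V L := IsCoprime.neg_left_iff V L
    rw [h1]
    by_cases h4 : IsCoprime V L
    · rw [if_pos h4, if_pos (h3.mpr h4)]
    · rw [if_neg h4, if_neg (fun h5 => h4 (h3.mp h5))]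
  · exact bd_pos L χ φ h' h

lemma bd_zero_of (L : ℤ) (χ : ℤ → R) (φ : M) {p : ℕ} (hp : p.Prime) (hpL : (p : ℤ) ∣ L) {U V : ℤ}
    (hV : 0 < V) (h : IsCoprime U V) (hpV : (p : ℤ) ∣ V) : bd L χ φ ((U : ℚ) / V) = 0 := by
  have hpp : Prime (p : ℤ) := Nat.prime_iff_prime_int.mp hp
  classical
  rw [bd_pos L χ φ hV h, if_neg]
  intro hc
  exact hpp.not_isUnit (hc.isUnit_of_dvd' hpV hpL)

lemma bd_int (L : ℤ) (χ : ℤ → R) (φ : M) (h1 : χ 1 = 1) (S : ℤ) : bd L χ φ (S : ℚ) = φ := by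
  classical
  have h := bd_pos L χ φ (U := S) (V := 1) one_pos isCoprime_one_right
  rw [if_pos isCoprime_one_left, h1, one_smul] at h
  simpa using h

/-- Equivariance of the boundary function. -/
lemma bd_equiv (L : ℤ) (χ : ℤ → R) (φ : M) (hneg : χ (-1) • φ = φ)
    (hmul : ∀ d d' : ℤ, χ (d * d') = χ d * χ d') (hper : ∀ d d' : ℤ, L ∣ d - d' → χ d = χ d')
    {a b c d : ℤ} (hdet : a * d - b * c = 1) (hN : L ∣ c) {r : ℚ}
    (hr : (c : ℚ) * r + d ≠ 0) :
    bd L χ φ ((a * r + b) / (c * r + d)) = χ d • bd L χ φ r := by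
  have hdq : (r.den : ℚ) ≠ 0 := by exact_mod_cast r.den_ne_zero
  have hrd : r * r.den = r.num := Rat.mul_den_eq_num r
  obtain ⟨n, hn⟩ : ∃ n : ℤ, n = r.num := ⟨_, rfl⟩
  obtain ⟨m, hm⟩ : ∃ m : ℤ, m = (r.den : ℤ) := ⟨_, rfl⟩
  have hmq : (m : ℚ) = r.den := by rw [hm]; push_cast; rfl
  have hnm : IsCoprime n m := by
    rw [Int.isCoprime_iff_nat_coprime]
    simpa [hn, hm] using r.reduced
  have hmul1 : ((c : ℚ) * r + d) * m = ((c * n + d * m : ℤ) : ℚ) := by
    push_cast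
    rw [hn, ← hrd, hmq]; ring
  have hmul2 : ((a : ℚ) * r + b) * m = ((a * n + b * m : ℤ) : ℚ) := by
    push_cast
    rw [hn, ← hrd, hmq]; ring
  have hm0 : (m : ℚ) ≠ 0 := by rw [hmq]; exact hdq
  have hV : c * n + d * m ≠ 0 := by
    intro h
    rw [h] at hmul1
    push_cast at hmul1
    exact mul_ne_zero hr hm0 hmul1
  have hcop : IsCoprime (a * n + b * m) (c * n + d * m) := by
    obtain ⟨s, t, hst⟩ := hnm
    refine ⟨s * d - t * c, t * a - s * b, ?_⟩
    linear_combination (s * n + t * m) * hdet + hst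
  have hfrac : (a * r + b) / (c * r + d) =
      ((a * n + b * m : ℤ) : ℚ) / ((c * n + d * m : ℤ) : ℚ) := by
    rw [← hmul1, ← hmul2, mul_div_mul_right _ _ hm0]
  classical
  rw [hfrac, bd_eq L χ φ hneg hmul hV hcop, bd, ← hm]
  have hχ : χ (c * n + d * m) = χ d * χ m := by
    rw [← hmul]
    apply hper
    have h0 : c * n + d * m - d * m = c * n := by ring
    rw [h0]
    exact Dvd.dvd.mul_right hN n
  have hdL : IsCoprime d L := by
    obtain ⟨t, ht⟩ := hN
    refine ⟨a, -(b * t), ?_⟩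
    rw [ht] at hdet
    linear_combination hdet
  have hiff : IsCoprime (c * n + d * m) L ↔ IsCoprime m L := by
    obtain ⟨t, ht⟩ := hN
    have h1 : c * n + d * m = d * m + L * (t * n) := by rw [ht]; ring
    rw [h1, IsCoprime.add_mul_left_left_iff, IsCoprime.mul_left_iff]
    exact ⟨fun h => h.2, fun h => ⟨hdL, h⟩⟩
  by_cases h4 : IsCoprime m L
  · rw [if_pos h4, if_pos (hiff.mpr h4), hχ, mul_smul]
  · rw [if_neg h4, if_neg (fun h5 => h4 (hiff.mp h5)), smul_zero]

/-- The relation for `U_p`. -/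
lemma bd_T (L : ℤ) (χ : ℤ → R) (φ : M) {p : ℕ} (hp : p.Prime) (hpL : (p : ℤ) ∣ L) (r : ℚ) :
    bd L χ φ r = ∑ j ∈ range p, bd L χ φ ((r + j) / p) := by
  have hpp : Prime (p : ℤ) := Nat.prime_iff_prime_int.mp hp
  have hpq : (p : ℚ) ≠ 0 := by exact_mod_cast hp.ne_zero
  have hppos : (0 : ℤ) < p := by exact_mod_cast hp.pos
  have hdq : (r.den : ℚ) ≠ 0 := by exact_mod_cast r.den_ne_zero
  have hrd : r * r.den = r.num := Rat.mul_den_eq_num r
  obtain ⟨n, hn⟩ : ∃ n : ℤ, n = r.num := ⟨_, rfl⟩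
  obtain ⟨m, hm⟩ : ∃ m : ℤ, m = (r.den : ℤ) := ⟨_, rfl⟩
  have hmpos : 0 < m := by rw [hm]; exact_mod_cast r.den_pos
  have hmq : (m : ℚ) ≠ 0 := by exact_mod_cast hmpos.ne'
  have hnm : IsCoprime n m := by
    rw [Int.isCoprime_iff_nat_coprime]
    simpa [hn, hm] using r.reduced
  have hr : r = n / m := by
    rw [eq_div_iff hmq, hm, hn]; push_cast; exact hrd
  have hsh : ∀ j : ℕ, (r + j) / p = ((n + j * m : ℤ) : ℚ) / ((p * m : ℤ) : ℚ) := by
    intro j
    rw [hr]; push_cast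
    field_simp
  have hcopj : ∀ j : ℕ, IsCoprime (n + j * m) m := fun j => by
    have := hnm.add_mul_right_left (j : ℤ)
    exact this
  rw [hr] at hsh ⊢
  by_cases hpm : (p : ℤ) ∣ m
  · -- `p` divides the denominator
    have hpn : ¬ (p : ℤ) ∣ n := fun h => hpp.not_isUnit (hnm.isUnit_of_dvd' h hpm)
    have hzero : ∀ j ∈ range p, bd L χ φ ((n / m + j) / p) = 0 := by
      intro j _
      rw [hsh j, bd_zero_of L χ φ hp hpL (mul_pos hppos hmpos) ?_ (dvd_mul_right _ _)]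
      refine IsCoprime.mul_right ?_ (hcopj j)
      refine ((Prime.coprime_iff_not_dvd hpp).mpr fun h => hpn ?_).symm
      exact (dvd_add_left (hpm.mul_left _)).mp h
    rw [sum_eq_zero hzero]
    exact bd_zero_of L χ φ hp hpL hmpos hnm hpm
  · -- `p` does not divide the denominator
    obtain ⟨j0, hj0, t, ht⟩ : ∃ j0 : ℕ, j0 < p ∧ ∃ t : ℤ, n + j0 * m = p * t := by
      obtain ⟨s, s', hs⟩ := ((Prime.coprime_iff_not_dvd hpp).mpr hpm).symm
      obtain ⟨j0, hj⟩ : ∃ j0 : ℕ, (j0 : ℤ) = (-n * s) % p :=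
        ⟨((-n * s) % (p : ℤ)).toNat, Int.toNat_of_nonneg (Int.emod_nonneg _ hppos.ne')⟩
      refine ⟨j0, ?_, n * s' - (-n * s / p) * m, ?_⟩
      · have := Int.emod_lt_of_pos (-n * s) hppos
        rw [← hj] at this
        exact_mod_cast this
      · have h2 := Int.emod_add_mul_ediv (-n * s) (p : ℤ)
        rw [← hj] at h2
        linear_combination (-n) * hs + m * h2
    have hone : ∀ j ∈ range p, j ≠ j0 → bd L χ φ ((n / m + j) / p) = 0 := by
      intro j hj hjj
      rw [hsh j, bd_zero_of L χ φ hp hpL (mul_pos hppos hmpos) ?_ (dvd_mul_right _ _)]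
      refine IsCoprime.mul_right ?_ (hcopj j)
      refine ((Prime.coprime_iff_not_dvd hpp).mpr fun h => hjj ?_).symm
      have h1 : (p : ℤ) ∣ ((j : ℤ) - j0) * m := by
        have : ((j : ℤ) - j0) * m = (n + j * m) - p * t := by rw [← ht]; ring
        rw [this]
        exact dvd_sub h (dvd_mul_right _ _)
      have h2 : (p : ℤ) ∣ (j : ℤ) - j0 := (hpp.dvd_or_dvd h1).resolve_right hpm
      have hj' : j < p := mem_range.mp hj
      have h4 : (j : ℤ) - j0 = 0 := by
        refine Int.eq_zero_of_abs_lt_dvd h2 ?_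
        rw [abs_lt]; constructor <;> omega
      omega
    rw [sum_eq_single_of_mem j0 (mem_range.mpr hj0) hone]
    have e0 : ((n : ℚ) / m + j0) / p = (t : ℚ) / m := by
      rw [hsh j0, ht]; push_cast; field_simp
    have hcopt : IsCoprime t m := by
      have := hcopj j0
      rw [ht] at this
      exact this.of_mul_left_right
    classical
    rw [e0, bd_pos L χ φ hmpos hcopt, bd_pos L χ φ hmpos hnm]

lemma bd_smul (L : ℤ) (χ : ℤ → R) (φ : M) (c : R) (hc : c • φ = 0) (r : ℚ) :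
    c • bd L χ φ r = 0 := by
  unfold bd
  split_ifs
  · rw [smul_comm, hc, smul_zero]
  · exact smul_zero _

lemma bd_smul' (L : ℤ) (χ : ℤ → R) (φ : M) (c : R) (hc : c • φ = φ) (r : ℚ) :
    c • bd L χ φ r = bd L χ φ r := by
  unfold bd
  split_ifs
  · rw [smul_comm, hc]
  · exact smul_zero _

lemma mob_neg_one (x : OnePoint ℚ) : mob (-1) 0 0 (-1) x = x := by
  induction x using OnePoint.rec with
  | infty => exact mob_infty_zero _ _ _
  | coe r =>
    rw [mob_coe _ _ _ _ (by simp)]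
    congr 1
    push_cast
    ring

end P_KM2

open P_KM2 in
theorem t_KM2 (hK1 : S_KM1) (hK2 : S_KM1L) : S_KM2 := by
  intro p hp N' s hcop hN' R M _ _ _ χ Φ a ha k hk hχ1 hmul hper hadd hE hT hval α β γ δ hdet hγ hδ x
  have hpp : Prime (p : ℤ) := Nat.prime_iff_prime_int.mp hp
  have hpq : (p : ℚ) ≠ 0 := by exact_mod_cast hp.ne_zero
  set L : ℤ := ((p * N' : ℕ) : ℤ) with hL
  have hpL : (p : ℤ) ∣ L := by
    rw [hL]; push_cast; exact dvd_mul_right _ _
  have hLN : L ∣ ((p ^ (s + 1) * N' : ℕ) : ℤ) := by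
    rw [hL]
    apply Int.natCast_dvd_natCast.mpr
    exact Nat.mul_dvd_mul (dvd_pow_self p (by omega)) dvd_rfl
  have hself : ∀ y, Φ y y = 0 := fun y => by
    have := hadd y y y
    simpa using this
  have hinf : ∀ y z, Φ y z = Φ ∞ z - Φ ∞ y := fun y z => by
    rw [← hadd ∞ y z]; abel
  obtain ⟨φ, hφ⟩ : ∃ φ : M, φ = Φ ∞ ((0 : ℚ) : OnePoint ℚ) := ⟨_, rfl⟩
  -- the sign
  have hneg : χ (-1) • φ = φ := by
    have h := hE (-1) 0 0 (-1) (by ring) (dvd_zero _) ∞ ((0 : ℚ) : OnePoint ℚ)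
    rw [mob_neg_one, mob_neg_one, ← hφ] at h
    exact h.symm
  -- translations
  have htr : ∀ n : ℤ, Φ ∞ ((n : ℚ) : OnePoint ℚ) = φ := by
    intro n
    have h := hE 1 n 0 1 (by ring) (dvd_zero _) ∞ ((0 : ℚ) : OnePoint ℚ)
    rw [mob_infty_zero, mob_coe _ _ _ _ (by simp), ← hφ, hχ1, one_smul] at h
    simpa using h
  -- the Hecke relation at zero
  have haφ : a • φ = φ := by
    have h := hT 0
    rw [← hφ, sum_eq_single_of_mem 0 (mem_range.mpr hp.pos)] at h
    · rw [h, hφ]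
      simp
    · intro j hj hj0
      have hj1 : ¬ (p : ℤ) ∣ (j : ℤ) := by
        intro hcon
        have := Int.natCast_dvd_natCast.mp hcon
        exact absurd (Nat.le_of_dvd (Nat.pos_of_ne_zero hj0) this) (by simpa using hj)
      have h1 := hval 1 le_rfl j hj1
      rw [zero_add]
      rw [pow_one] at h1
      push_cast at h1
      exact h1
  obtain ⟨B, hB⟩ : ∃ B : ℚ → M, B = bd L χ φ := ⟨_, rfl⟩
  -- the values at `S / p ^ i`
  have hSp : ∀ (i : ℕ) (S : ℤ), Φ ∞ (((S : ℚ) / (p : ℚ) ^ i : ℚ) : OnePoint ℚ) =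
      B ((S : ℚ) / (p : ℚ) ^ i) := by
    intro i
    induction i with
    | zero =>
      intro S
      rw [pow_zero, div_one, htr, hB, bd_int L χ φ hχ1]
    | succ i ih =>
      intro S
      by_cases hS : (p : ℤ) ∣ S
      · obtain ⟨S', rfl⟩ := hS
        have h1 : ((((p : ℤ) * S' : ℤ) : ℚ) / (p : ℚ) ^ (i + 1) : ℚ) =
            (S' : ℚ) / (p : ℚ) ^ i := by
          push_cast
          field_simp
          ring
        rw [h1, ih]
      · rw [hval (i + 1) (by omega) S hS, hB]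
        have hcopS : IsCoprime S ((p : ℤ) ^ (i + 1)) :=
          (((Prime.coprime_iff_not_dvd hpp).mpr hS).symm).pow_right
        have hpos : (0 : ℤ) < (p : ℤ) ^ (i + 1) := pow_pos (by exact_mod_cast hp.pos) _
        have h := bd_zero_of L χ φ hp hpL hpos hcopS (dvd_pow_self _ (by omega))
        push_cast at h
        exact h.symm
  -- lower the level
  have hEq : EqvM (p * N') χ (fun x y : ℚ => Φ (x : OnePoint ℚ) (y : OnePoint ℚ)) := by
    apply hK2 p hp N' R M χ _ a ha hχ1 hper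
    · intro x y
      show a • Φ (x : OnePoint ℚ) (y : OnePoint ℚ) = _
      rw [hinf, smul_sub, hT x, hT y, ← sum_sub_distrib]
      exact sum_congr rfl fun j _ => (hinf _ _).symm
    · intro a b c d h hc x y hx hy
      show Φ (((a * x + b) / (c * x + d) : ℚ) : OnePoint ℚ)
        (((a * y + b) / (c * y + d) : ℚ) : OnePoint ℚ) = χ d • Φ (x : OnePoint ℚ) (y : OnePoint ℚ)
      rw [← mob_coe _ _ _ _ hx, ← mob_coe _ _ _ _ hy]
      exact hE a b c d h hc _ _
  -- the corrected symbol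
  obtain ⟨K, hK⟩ : ∃ K : ℚ → M, ∀ r : ℚ, K r = Φ ∞ (r : OnePoint ℚ) - B r := ⟨_, fun _ => rfl⟩
  have hKB : ∀ x y : ℚ, K y - K x = Φ (x : OnePoint ℚ) (y : OnePoint ℚ) - (B y - B x) := by
    intro x y
    rw [hK, hK, hinf (x : OnePoint ℚ)]
    abel
  have hkey : K (β / δ : ℚ) - K 0 = 0 := by
    apply hK1 p hp N' hcop R M χ (fun x y => K y - K x) a ha k
    · intro x y
      show (p : R) ^ k • (K y - K x) = 0
      rw [hKB, smul_sub, smul_sub, hk, hB]
      have h0 : (p : R) ^ k • φ = 0 := by rw [hφ]; exact hk _ _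
      rw [bd_smul L χ φ _ h0, bd_smul L χ φ _ h0]
      simp
    · intro x y z
      show K y - K x + (K z - K y) = K z - K x
      abel
    · intro a b c d h hc x y hx hy
      show K ((a * y + b) / (c * y + d)) - K ((a * x + b) / (c * x + d)) = χ d • (K y - K x)
      have h1 := hEq a b c d h hc x y hx hy
      have h1' : Φ (((a * x + b) / (c * x + d) : ℚ) : OnePoint ℚ)
        (((a * y + b) / (c * y + d) : ℚ) : OnePoint ℚ) =
        χ d • Φ (x : OnePoint ℚ) (y : OnePoint ℚ) := h1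
      rw [hKB, hKB, h1', hB, bd_equiv L χ φ hneg hmul hper h hc hx,
        bd_equiv L χ φ hneg hmul hper h hc hy, smul_sub, smul_sub]
    · exact hχ1
    · intro S S' i i'
      show K (S' / (p : ℚ) ^ i') - K (S / (p : ℚ) ^ i) = 0
      rw [hK, hK, hSp, hSp]
      simp
    · intro x y
      show a • (K y - K x) = ∑ j ∈ range p, (K ((y + j) / p) - K ((x + j) / p))
      have hKT : ∀ r : ℚ, a • K r = ∑ j ∈ range p, K ((r + j) / p) := by
        intro r
        have h3 : ∑ j ∈ range p, K ((r + j) / p) =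
            ∑ j ∈ range p, Φ ∞ (((r + j) / p : ℚ) : OnePoint ℚ) -
              ∑ j ∈ range p, B ((r + j) / p) := by
          rw [← sum_sub_distrib]
          exact sum_congr rfl fun j _ => hK _
        rw [h3, ← hT r, hK, smul_sub]
        congr 1
        rw [hB, bd_smul' L χ φ a haφ, ← bd_T L χ φ hp hpL]
      rw [smul_sub, hKT, hKT, ← sum_sub_distrib]
    · -- `δ ≠ 0`
      rintro rfl
      rw [zero_sub, dvd_neg] at hδ
      have h1 : (p : ℤ) ∣ 1 := hpL.trans (hLN.trans hδ)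
      exact hpp.not_isUnit (isUnit_of_dvd_one h1)
    · apply IsCoprime.mul_right
      · exact ⟨α, -γ, by linear_combination hdet⟩
      · obtain ⟨t, ht⟩ := hδ
        refine ⟨1, -((p : ℤ) ^ (s + 1) * t), ?_⟩
        push_cast at ht
        linear_combination ht
  have hδ0 : δ ≠ 0 := by
    rintro rfl
    rw [zero_sub, dvd_neg] at hδ
    have h1 : (p : ℤ) ∣ 1 := hpL.trans (hLN.trans hδ)
    exact hpp.not_isUnit (isUnit_of_dvd_one h1)
  have hχδ : χ δ = 1 := by
    rw [← hχ1]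
    exact hper _ _ (hLN.trans hδ)
  have hβδ : IsCoprime β δ := ⟨-γ, α, by linear_combination hdet⟩
  have hδL : IsCoprime δ L := by
    obtain ⟨t, ht⟩ := hLN.trans hδ
    exact ⟨1, -t, by linear_combination ht⟩
  have hB1 : B (β / δ : ℚ) = φ := by
    classical
    rw [hB, bd_eq L χ φ hneg hmul hδ0 hβδ, if_pos hδL, hχδ, one_smul]
  have hB0 : B 0 = φ := by
    have h := bd_int L χ φ hχ1 0
    rw [hB]
    simpa using h
  have h0 : Φ ((0 : ℚ) : OnePoint ℚ) ((β / δ : ℚ) : OnePoint ℚ) = 0 := by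
    rw [hKB, hB1, hB0] at hkey
    simpa using hkey
  -- conclusion
  have hm0 : mob α β γ δ ((0 : ℚ) : OnePoint ℚ) = ((β / δ : ℚ) : OnePoint ℚ) := by
    rw [mob_coe _ _ _ _ (by simpa using hδ0)]
    simp
  have h1 := hE α β γ δ hdet hγ ((0 : ℚ) : OnePoint ℚ) x
  rw [hm0, hχδ, one_smul] at h1
  rw [← hadd x ((0 : ℚ) : OnePoint ℚ) (mob α β γ δ x),
    ← hadd ((0 : ℚ) : OnePoint ℚ) ((β / δ : ℚ) : OnePoint ℚ) (mob α β γ δ x), h0, h1, zero_add,
    hadd, hself]

end Pool.Agent.MU3
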