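import Pool.Agent.MU3.FTMain
import Pool.Agent.MU3.FAll
import Pool.Agent.MU3.A_INT
import Pool.Agent.MU3.P_KM1
import Pool.Agent.MU3.P_KM1L
import Pool.Agent.MU3.P_KM2
import Pool.Agent.MU3.H_VAL
import Pool.Agent.MU3.H_HZ
import Pool.Agent.MU3.H_STP
import Pool.Agent.MU3.H_H5
import Pool.Agent.MU3.H_MD
import Pool.Agent.MU3.H_MAX
import Pool.Agent.MU3.H_ALB
import Pool.Agent.MU3.H_HK
import Pool.Agent.MU3.H_QS
import Pool.Agent.MU3.H_CHI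
import Pool.Agent.MU3.H_FLD
import Pool.Agent.MU3.H_BD
import Pool.Agent.MU3.H_H1
import Pool.Agent.MU3.H_H2
import Pool.Agent.MU3.H_HF

/-!
# MU3, block H (helper27): `St_HFIN` from `St_GFIN`, `St_HP`, `St_F6`
-/

set_option autoImplicit false

namespace Pool.Agent.MU3H

open Pool.Agent.MU3F

theorem h_VAL : Sh_VAL := th_VAL f_ALG
theorem h_HZ : Sh_HZ := th_HZ
theorem h_STP : Sh_STP := th_STP
theorem h_H5 : Sh_H5 := th_H5 h_STP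
theorem h_MD : Sh_MD := th_MD
theorem h_MAX : Sh_MAX := th_MAX
theorem h_ALB : Sh_ALB := th_ALB
theorem h_HK : Sh_HK := th_HK
theorem h_QS : Sh_QS := th_QS f_ALG f_F5S
theorem h_CHI : Sh_CHI := th_CHI f_ALG f_F3 h_VAL

/-- the key lemma -/
theorem h_KM2 : Pool.Agent.MU3.S_KM2 :=
  Pool.Agent.MU3.t_KM2 Pool.Agent.MU3.t_KM1 Pool.Agent.MU3.t_KM1L

theorem h_FLD (hHP : Pool.Agent.MU3G.St_HP) (hF6 : Pool.Agent.MU3G.St_F6) : Sh_FLD :=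
  th_FLD f_ALG hHP hF6 Pool.Agent.MU3A.ta_INT h_VAL

theorem h_BD (hHP : Pool.Agent.MU3G.St_HP) (hF6 : Pool.Agent.MU3G.St_F6) : Sh_BD :=
  th_BD (h_FLD hHP hF6) h_MAX h_ALB h_VAL f_F7 Pool.Agent.MU3T.main_StFT

theorem h_H1 (hG : Pool.Agent.MU3G.St_GFIN) : Sh_H1 := th_H1 f_ALG h_VAL f_GSS f_F8 hG

theorem h_H2 (hG : Pool.Agent.MU3G.St_GFIN) (hHP : Pool.Agent.MU3G.St_HP)
    (hF6 : Pool.Agent.MU3G.St_F6) : Sh_H2 :=
  th_H2 h_KM2 (h_H1 hG) h_CHI h_HK (h_BD hHP hF6) Pool.Agent.MU3T.main_StFT h_VAL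

/-- block H -/
theorem h_HFIN (hG : Pool.Agent.MU3G.St_GFIN) (hHP : Pool.Agent.MU3G.St_HP)
    (hF6 : Pool.Agent.MU3G.St_F6) : Pool.Agent.MU3I.St_HFIN :=
  th_HF f_ALG h_VAL h_HZ h_H5 h_MD h_MAX h_HK h_QS h_CHI (h_FLD hHP hF6) (h_H2 hG hHP hF6)
    f_F7 Pool.Agent.MU3T.main_StFT

end Pool.Agent.MU3H
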