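import Pool.Agent.MU3.StH

/-!
# MU3, block H, module CHI: facts on the character and the eigenvalue
-/

set_option autoImplicit false

namespace Pool.Agent.MU3H

open _root_.MU3 Pool.Agent.MU3 Pool.Agent.MU3A Pool.Agent.MU3B Pool.Agent.MU3C Pool.Agent.MU3F
  Pool.Agent.MU3G Pool.Agent.MU3I Pool.Agent.MuSym OnePoint
open scoped ComplexConjugate

noncomputable section

namespace Chi

theorem chiD_one {A B : ℤ} (h : Case A B) : chiD A B 1 = 1 := by
  rcases h with ⟨rfl, rfl⟩ | ⟨rfl, rfl⟩ <;> simp [chiD]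

theorem chiD_per {A B : ℤ} (h : Case A B) (d d' : ℤ) (hd : absD A B ∣ d - d') :
    chiD A B d = chiD A B d' := by
  rcases h with ⟨rfl, rfl⟩ | ⟨rfl, rfl⟩
  · have h8 : d % 8 = d' % 8 := by
      have e : absD (-2) 0 = 8 := by norm_num [absD]
      rw [e] at hd
      omega
    simp only [chiD, if_true, h8]
  · have h11 : d % 11 = d' % 11 := by
      have e : absD (-3) 1 = 11 := by norm_num [absD]
      rw [e] at hd
      omega
    simp only [chiD, one_ne_zero, if_false, h11]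

theorem chiD_emod8 (d : ℤ) : chiD (-2) 0 d = chiD (-2) 0 (d % 8) := by
  apply chiD_per (Or.inl ⟨rfl, rfl⟩)
  have e : absD (-2) 0 = 8 := by norm_num [absD]
  rw [e]
  omega

theorem chiD_emod11 (d : ℤ) : chiD (-3) 1 d = chiD (-3) 1 (d % 11) := by
  apply chiD_per (Or.inr ⟨rfl, rfl⟩)
  have e : absD (-3) 1 = 11 := by norm_num [absD]
  rw [e]
  omega

theorem mul8 : ∀ a b : Fin 8, chiD (-2) 0 ((a.1 : ℤ) * (b.1 : ℤ)) =
    chiD (-2) 0 (a.1 : ℤ) * chiD (-2) 0 (b.1 : ℤ) := by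
  decide

theorem mul11 : ∀ a b : Fin 11, chiD (-3) 1 ((a.1 : ℤ) * (b.1 : ℤ)) =
    chiD (-3) 1 (a.1 : ℤ) * chiD (-3) 1 (b.1 : ℤ) := by
  decide

theorem chiD_mul {A B : ℤ} (h : Case A B) (d d' : ℤ) :
    chiD A B (d * d') = chiD A B d * chiD A B d' := by
  rcases h with ⟨rfl, rfl⟩ | ⟨rfl, rfl⟩
  · have h1 : chiD (-2) 0 (d * d') = chiD (-2) 0 ((d % 8) * (d' % 8)) := by
      rw [chiD_emod8 (d * d'), chiD_emod8 ((d % 8) * (d' % 8)), Int.mul_emod]
    rw [h1, chiD_emod8 d, chiD_emod8 d']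
    have a0 := Int.emod_nonneg d (show (8 : ℤ) ≠ 0 by norm_num)
    have a1 := Int.emod_lt_of_pos d (show (0 : ℤ) < 8 by norm_num)
    have b0 := Int.emod_nonneg d' (show (8 : ℤ) ≠ 0 by norm_num)
    have b1 := Int.emod_lt_of_pos d' (show (0 : ℤ) < 8 by norm_num)
    have := mul8 ⟨(d % 8).toNat, by omega⟩ ⟨(d' % 8).toNat, by omega⟩
    simpa only [Int.toNat_of_nonneg a0, Int.toNat_of_nonneg b0] using this
  · have h1 : chiD (-3) 1 (d * d') = chiD (-3) 1 ((d % 11) * (d' % 11)) := by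
      rw [chiD_emod11 (d * d'), chiD_emod11 ((d % 11) * (d' % 11)), Int.mul_emod]
    rw [h1, chiD_emod11 d, chiD_emod11 d']
    have a0 := Int.emod_nonneg d (show (11 : ℤ) ≠ 0 by norm_num)
    have a1 := Int.emod_lt_of_pos d (show (0 : ℤ) < 11 by norm_num)
    have b0 := Int.emod_nonneg d' (show (11 : ℤ) ≠ 0 by norm_num)
    have b1 := Int.emod_lt_of_pos d' (show (0 : ℤ) < 11 by norm_num)
    have := mul11 ⟨(d % 11).toNat, by omega⟩ ⟨(d' % 11).toNat, by omega⟩
    simpa only [Int.toNat_of_nonneg a0, Int.toNat_of_nonneg b0] using this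

theorem coprime_star {A B : ℤ} (h : Case A B)
    (h3 : ppi A B * star (ppi A B) = 3) : IsCoprime (ppi A B) (star (ppi A B)) := by
  rcases h with ⟨rfl, rfl⟩ | ⟨rfl, rfl⟩
  · refine ⟨star (ppi (-2) 0) - 1, -1, ?_⟩
    have h2 : ppi (-2) 0 + star (ppi (-2) 0) = 2 := by
      ext <;> simp [ppi] <;> rfl
    linear_combination h3 - h2
  · refine ⟨1, 1, ?_⟩
    have h2 : ppi (-3) 1 + star (ppi (-3) 1) = 1 := by
      ext <;> simp [ppi] <;> rfl
    linear_combination h2

theorem coprime_f {A B : ℤ} (f : ℕ) (hf : ¬ 3 ∣ f)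
    (h3 : ppi A B * star (ppi A B) = 3) : IsCoprime (ppi A B) (f : OO A B) := by
  have h1 : IsCoprime (3 : ℤ) (f : ℤ) := by
    have h2 : Nat.Coprime 3 f := (Nat.Prime.coprime_iff_not_dvd Nat.prime_three).2 hf
    exact_mod_cast Nat.isCoprime_iff_coprime.2 h2
  have h4 : IsCoprime (3 : OO A B) (f : OO A B) := by
    have := h1.map (Int.castRingHom (OO A B))
    simpa using this
  rw [← h3] at h4
  exact IsCoprime.of_mul_left_left h4

end Chi

open Chi

theorem th_CHI (hALG : Sf_ALG) (hF3 : Sf_F3) (hVAL : Sh_VAL) : Sh_CHI := by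
  intro A B L Om V f e r s H
  have hcase := H.case
  obtain ⟨hA1, hA2, hA3, hA4, hA5, hA6⟩ := hALG A B hcase
  obtain ⟨v3, vO, vZ, vZ1, vppi, vcp, vru, vt⟩ := hVAL A B hcase V H.pv
  have hr0 : r ≠ 0 := by
    rintro rfl
    exact H.r3 (dvd_zero 3)
  have hf0 : (f : OO A B) ≠ 0 := by
    intro h
    have h1 := hA3 (f : ℤ)
    have h2 : emb (((f : ℤ)) : OO A B) = 0 := by
      have h3 : (((f : ℤ)) : OO A B) = (f : OO A B) := by push_cast; rfl
      rw [h3, h]
      exact (hA2 0).1.2 rfl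
    rw [h1] at h2
    have h3 : (f : ℤ) = 0 := by exact_mod_cast h2
    exact H.f0 (by exact_mod_cast h3)
  have hstar0 : star (ppi A B) ≠ 0 := by
    intro h
    rw [h, mul_zero] at hA5
    have h1 := hA3 3
    have h2 : (((3 : ℤ)) : OO A B) = 3 := by push_cast; rfl
    rw [h2, ← hA5, (hA2 0).1.2 rfl] at h1
    norm_num at h1
  have emb_inj : ∀ x y : OO A B, emb (x * y) = 0 → emb x = 0 ∨ emb y = 0 := by
    intro x y h
    rw [(hA1 x y).1] at h
    exact mul_eq_zero.1 h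
  have hg0 : (f : OO A B) * star (ppi A B) ≠ 0 := by
    intro h
    have h1 : emb ((f : OO A B) * star (ppi A B)) = 0 := (hA2 _).1.2 h
    rcases emb_inj _ _ h1 with h2 | h2
    · exact hf0 ((hA2 _).1.1 h2)
    · exact hstar0 ((hA2 _).1.1 h2)
  have hdv : star (ppi A B) ∣ (f : OO A B) * star (ppi A B) := dvd_mul_left _ _
  obtain ⟨hn3, hh⟩ := hF3 A B hcase _ e hg0 H.eps hdv
  have ev : ∀ x, V.valuation (e x) ≤ 1 := by
    intro x
    by_cases hx : e x = 0
    · rw [hx, map_zero]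
      exact zero_le_one
    · exact (vru r (e x) hr0 (H.er x hx)).le
  refine ⟨?_, hn3, ?_, ?_, ?_, ?_, hh⟩
  · unfold nuE
    rw [chiD_one hcase]
    have : ((1 : ℤ) : OO A B) = 1 := by push_cast; rfl
    rw [this, H.eps.one]
    norm_num
  · intro d d'
    unfold nuE
    rw [chiD_mul hcase]
    have : ((d * d' : ℤ) : OO A B) = (d : OO A B) * (d' : OO A B) := by push_cast; rfl
    rw [this, H.eps.mul]
    push_cast
    ring
  · intro d d' hd
    unfold nuE
    have h1 : absD A B ∣ d - d' :=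
      (Dvd.intro _ rfl : absD A B ∣ absD A B * (f : ℤ) ^ 2).trans
        ((Dvd.intro_left _ rfl : absD A B * (f : ℤ) ^ 2 ∣ 3 * (absD A B * (f : ℤ) ^ 2)).trans hd)
    rw [chiD_per hcase d d' h1]
    congr 1
    apply H.eps.per
    obtain ⟨t, ht⟩ := hd
    have h2 : (d : OO A B) - (d' : OO A B) = ((3 * (absD A B * (f : ℤ) ^ 2) * t : ℤ) : OO A B) := by
      rw [← ht]
      push_cast
      rfl
    rw [h2]
    refine ⟨ppi A B * ((absD A B : ℤ) : OO A B) * (f : OO A B) * (t : OO A B), ?_⟩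
    push_cast
    rw [← hA5]
    ring
  · intro d
    unfold nuE
    rw [map_mul]
    exact mul_le_one' (vZ _) (ev _)
  · rw [map_mul, vcp, mul_one]
    apply vru r _ hr0
    apply H.er
    rw [H.eps.supp]
    exact (coprime_f f H.f3 hA5).mul_right (coprime_star hcase hA5)

end

end Pool.Agent.MU3H
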