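import Pool.Agent.MU3.K1Main

/-!
# The input (I2) from an abelian extension with a character of order three (helper80)

MP_b78433_nt, MU3, block K. `KolBody` is the body of `KolIn` (`kolIn_iff`). `I2ABS_thm : S_I2ABS`.
-/

set_option autoImplicit false

open NumberField IsDedekindDomain
open scoped nonZeroDivisors Pointwise

namespace Pool.Agent.MU3

open Pool.Agent.RI K1M

/-- The body of `KolIn`. -/
def KolBody (k L : Type) [Field k] [NumberField k] [Field L] [NumberField L] [Algebra k L]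
    (S : Finset ℕ) (c : L) (lam : HeightOneSpectrum (𝓞 L)) (q : ℕ) : Prop :=
    ∃ (F : Type) (_ : Field F) (_ : NumberField F) (_ : Algebra k F) (_ : Algebra L F)
      (_ : IsScalarTower k L F), IsGalois k F ∧ (∀ σ τ : F ≃ₐ[k] F, σ * τ = τ * σ) ∧
      Module.finrank L F = 3 ∧
      (∀ w : HeightOneSpectrum (𝓞 F), ¬ Above S w →
        w.asIdeal.under (𝓞 k) ≠ lam.asIdeal.under (𝓞 k) → w.asIdeal.ramificationIdx (𝓞 L) = 1) ∧
      (∀ w : HeightOneSpectrum (𝓞 F), w.asIdeal.under (𝓞 k) = lam.asIdeal.under (𝓞 k) →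
        w.asIdeal.ramificationIdx (𝓞 L) = 3) ∧
      ∃ z : F, SU S F z ∧ (∃ y : k, Algebra.norm L z = algebraMap k L y) ∧
        ∀ w : HeightOneSpectrum (𝓞 F), w.asIdeal.under (𝓞 k) = lam.asIdeal.under (𝓞 k) →
          w.valuation F (z - algebraMap L F c ^ ((q - 1) / 3)) < 1

theorem kolIn_iff (k L : Type) [Field k] [NumberField k] [Field L] [NumberField L] [Algebra k L]
    (S : Finset ℕ) (c : L) : KolIn k L S c ↔ ∀ (lam : HeightOneSpectrum (𝓞 L)) (q : ℕ),
      GoodPr k L S lam q → KolBody k L S c lam q := Iff.rfl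

/-- I2ABS: `M / k` abelian, `χ` a character of order `3` of `Gal(M / L)`, non trivial on a group `A`
of automorphisms which are inert at the primes above `lam ∩ k`. -/
def S_I2ABS : Prop := ∀ (k L M : Type) [Field k] [NumberField k] [Field L] [NumberField L]
    [Field M] [NumberField M] [Algebra k L] [Algebra L M] [Algebra k M] [IsScalarTower k L M]
    [IsGalois k M], (∀ σ τ : M ≃ₐ[k] M, σ * τ = τ * σ) →
    ∀ (S : Finset ℕ) (c : L) (lam : HeightOneSpectrum (𝓞 L)) (q : ℕ), GoodPr k L S lam q →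
    ∀ (A : Subgroup (M ≃ₐ[L] M)) (χ : (M ≃ₐ[L] M) →* Multiplicative (ZMod 3)),
    (∃ σ ∈ A, χ σ ≠ 1) →
    (∀ w : HeightOneSpectrum (𝓞 M), ¬ Above S w →
      w.asIdeal.under (𝓞 k) ≠ lam.asIdeal.under (𝓞 k) → ∀ σ : M ≃ₐ[L] M,
      (∀ x : 𝓞 M, σ • x - x ∈ w.asIdeal) → σ = 1) →
    (∀ w : HeightOneSpectrum (𝓞 M), w.asIdeal.under (𝓞 k) = lam.asIdeal.under (𝓞 k) →
      ∀ σ ∈ A, ∀ x : 𝓞 M, σ • x - x ∈ w.asIdeal) →
    ∀ θ θ₀ : M, SU S M θ →
    (∀ w : HeightOneSpectrum (𝓞 M), w.asIdeal.under (𝓞 k) = lam.asIdeal.under (𝓞 k) →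
      ∀ σ : M ≃ₐ[L] M, w.valuation M (σ θ₀) ≤ 1 ∧ w.valuation M (σ θ - σ θ₀) < 1) →
    (∃ y : k, ∏ᶠ σ : M ≃ₐ[L] M, σ θ = algebraMap k M y) →
    ∏ᶠ σ : χ.ker, (σ : M ≃ₐ[L] M) θ₀ = algebraMap L M c ^ ((q - 1) / 3) →
    KolBody k L S c lam q

namespace I2A

section ramif

variable {L F : Type} [Field L] [NumberField L] [Field F] [NumberField F] [Algebra L F]
  [IsGalois L F]

/-- the order of the inertia group -/
theorem card_inertia (w : HeightOneSpectrum (𝓞 F)) :
    Nat.card (w.asIdeal.inertia (F ≃ₐ[L] F)) = w.asIdeal.ramificationIdx (𝓞 L) := by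
  set p : Ideal (𝓞 L) := w.asIdeal.under (𝓞 L) with hp
  have hlo : w.asIdeal.LiesOver p := ⟨rfl⟩
  have hwp : w.asIdeal.IsPrime := w.isPrime
  have hpp : p.IsPrime := Ideal.IsPrime.under (𝓞 L) w.asIdeal
  have hp0 : p ≠ ⊥ := (w.under (𝓞 L)).ne_bot
  have hfin : Finite (𝓞 L ⧸ p) := Ideal.finiteQuotientOfFreeOfNeBot p hp0
  have hmax : p.IsMaximal := hpp.isMaximal hp0
  have hfr : Finite p.ResidueField :=
    Finite.of_surjective (algebraMap (𝓞 L ⧸ p) p.ResidueField)
      (Ideal.bijective_algebraMap_quotient_residueField p).2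
  have h1 := Ideal.card_inertia_eq_ramificationIdxIn (G := F ≃ₐ[L] F) p w.asIdeal
  rwa [Ideal.ramificationIdxIn_eq_ramificationIdx p w.asIdeal (F ≃ₐ[L] F)] at h1

end ramif

/-- products of congruent elements -/
theorem prod_cong {M Γ : Type} [Field M] [LinearOrderedCommGroupWithZero Γ] (v : Valuation M Γ)
    {ι : Type} (s : Finset ι) (f g : ι → M) (hg : ∀ i ∈ s, v (g i) ≤ 1)
    (h : ∀ i ∈ s, v (f i - g i) < 1) : v (∏ i ∈ s, f i) ≤ 1 ∧ v (∏ i ∈ s, f i - ∏ i ∈ s, g i) < 1 := by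
  classical
  induction s using Finset.induction_on with
  | empty =>
    refine ⟨?_, ?_⟩
    · rw [Finset.prod_empty, map_one]
    · rw [Finset.prod_empty, Finset.prod_empty, sub_self, map_zero]
      exact zero_lt_one
  | insert i s hi ih =>
    obtain ⟨h1, h2⟩ := ih (fun j hj => hg j (Finset.mem_insert_of_mem hj))
      (fun j hj => h j (Finset.mem_insert_of_mem hj))
    have h3 := hg i (Finset.mem_insert_self i s)
    have h4 := h i (Finset.mem_insert_self i s)
    have h5 : v (f i) ≤ 1 := by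
      have e : f i = (f i - g i) + g i := by ring
      rw [e]
      exact Valuation.map_add_le v h4.le h3
    rw [Finset.prod_insert hi, Finset.prod_insert hi]
    refine ⟨?_, ?_⟩
    · rw [map_mul]
      exact mul_le_one' h5 h1
    · have e : f i * ∏ j ∈ s, f j - g i * ∏ j ∈ s, g j =
          (f i - g i) * ∏ j ∈ s, f j + g i * (∏ j ∈ s, f j - ∏ j ∈ s, g j) := by ring
      rw [e]
      refine Valuation.map_add_lt v ?_ ?_
      · rw [map_mul]
        exact lt_of_le_of_lt (mul_le_of_le_one_right' h1) h4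
      · rw [map_mul]
        exact lt_of_le_of_lt (mul_le_of_le_one_left' h3) h2

section tower

variable {k L F M : Type} [Field k] [NumberField k] [Field L] [NumberField L] [Field F]
  [NumberField F] [Field M] [NumberField M] [Algebra k L] [Algebra L F] [Algebra F M]
  [Algebra k F] [Algebra k M] [Algebra L M] [IsScalarTower k L F] [IsScalarTower k L M]
  [IsScalarTower k F M] [IsScalarTower L F M]

/-- valuations less than one in an extension -/
theorem val_lt_up (w : HeightOneSpectrum (𝓞 F)) (W : HeightOneSpectrum (𝓞 M))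
    (h : W.asIdeal.under (𝓞 F) = w.asIdeal) {x : F} (hx : W.valuation M (algebraMap F M x) < 1) :
    w.valuation F x < 1 := by
  by_cases h0 : x = 0
  · rw [h0, map_zero]
    exact zero_lt_one
  · have h1 := val_cnt (w := W) (Units.map (algebraMap F M : F →* M) (Units.mk0 x h0))
    have h2 := val_cnt (w := w) (Units.mk0 x h0)
    have h3 := cnt_ext W w h (Units.mk0 x h0)
    have e : ((Units.map (algebraMap F M : F →* M) (Units.mk0 x h0) : Mˣ) : M) =
        algebraMap F M x := rfl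
    rw [e] at h1
    rw [h1, ← WithZero.exp_zero, WithZero.exp_lt_exp, h3] at hx
    rw [Units.val_mk0] at h2
    rw [h2, ← WithZero.exp_zero, WithZero.exp_lt_exp]
    have h4 : 0 < (W.asIdeal.ramificationIdx (𝓞 F) : ℤ) * cnt w (Units.mk0 x h0) := by omega
    have h5 : 0 < cnt w (Units.mk0 x h0) := by
      by_contra hneg
      rw [not_lt] at hneg
      have h6 : (W.asIdeal.ramificationIdx (𝓞 F) : ℤ) * cnt w (Units.mk0 x h0) ≤ 0 :=
        mul_nonpos_of_nonneg_of_nonpos (by positivity) hneg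
      omega
    omega

/-- valuation one in an extension -/
theorem val_one_up (w : HeightOneSpectrum (𝓞 F)) (W : HeightOneSpectrum (𝓞 M))
    (h : W.asIdeal.under (𝓞 F) = w.asIdeal) {x : F} (hx : W.valuation M (algebraMap F M x) = 1) :
    w.valuation F x = 1 := by
  have h0 : x ≠ 0 := by
    rintro rfl
    rw [map_zero, map_zero] at hx
    exact zero_ne_one hx
  have h1 := (val_one_iff (w := W) (Units.map (algebraMap F M : F →* M) (Units.mk0 x h0))).1 hx
  have h3 := cnt_ext W w h (Units.mk0 x h0)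
  rw [h1] at h3
  have h4 : cnt w (Units.mk0 x h0) = 0 := by
    rcases mul_eq_zero.1 h3.symm with h5 | h5
    · have hwp : W.asIdeal.IsPrime := W.isPrime
      have := W.asIdeal.ramificationIdx_pos (𝓞 F)
      omega
    · exact h5
  exact (val_one_iff (w := w) (Units.mk0 x h0)).2 h4

omit [NumberField L] [NumberField F] [NumberField M] [IsScalarTower L F M] [Algebra L F] in
theorem prod_ker_aux (σ : M ≃ₐ[L] M)
    (h : ∀ x : F, σ (algebraMap F M x) = algebraMap F M x) :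
    ∃ ρ : M ≃ₐ[F] M, ∀ y : M, ρ y = σ y :=
  ⟨{ σ.toRingEquiv with commutes' := h }, fun _ => rfl⟩

/-- the product over the kernel is the norm to the intermediate field -/
theorem prod_ker (χ : (M ≃ₐ[L] M) →* Multiplicative (ZMod 3))
    (hker : ∀ σ : M ≃ₐ[L] M, σ ∈ χ.ker ↔ ∀ x : F, σ (algebraMap F M x) = algebraMap F M x)
    (θ : M) : ∏ᶠ σ : M ≃ₐ[F] M, σ θ = ∏ᶠ σ : χ.ker, (σ : M ≃ₐ[L] M) θ := by
  refine finprod_eq_of_bijective (fun σ : M ≃ₐ[F] M => (⟨σ.restrictScalars L, by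
    rw [hker]
    exact fun x => σ.commutes x⟩ : χ.ker)) ⟨?_, ?_⟩ (fun _ => rfl)
  · intro σ τ h
    apply AlgEquiv.ext
    intro x
    have h1 := congrArg (fun f : χ.ker => (f : M ≃ₐ[L] M) x) h
    exact h1
  · rintro ⟨σ, hσ⟩
    obtain ⟨ρ, hρ⟩ := prod_ker_aux (F := F) σ ((hker σ).1 hσ)
    refine ⟨ρ, ?_⟩
    apply Subtype.ext
    apply AlgEquiv.ext
    intro x
    exact hρ x

/-- the norm congruence -/
theorem norm_cong [IsGalois F M] (χ : (M ≃ₐ[L] M) →* Multiplicative (ZMod 3))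
    (hker : ∀ σ : M ≃ₐ[L] M, σ ∈ χ.ker ↔ ∀ x : F, σ (algebraMap F M x) = algebraMap F M x)
    {θ θ₀ C : M} (W : HeightOneSpectrum (𝓞 M))
    (hcong : ∀ σ : M ≃ₐ[L] M, W.valuation M (σ θ₀) ≤ 1 ∧ W.valuation M (σ θ - σ θ₀) < 1)
    (hc : ∏ᶠ σ : χ.ker, (σ : M ≃ₐ[L] M) θ₀ = C) :
    W.valuation M (algebraMap F M (Algebra.norm F θ) - C) < 1 := by
  classical
  have e1 : algebraMap F M (Algebra.norm F θ) = ∏ᶠ σ : χ.ker, (σ : M ≃ₐ[L] M) θ := by
    rw [← prod_ker χ hker θ, Algebra.norm_eq_prod_automorphisms F θ]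
    exact (finprod_eq_prod_of_fintype _).symm
  have e2 : ∏ᶠ σ : χ.ker, (σ : M ≃ₐ[L] M) θ = ∏ σ : χ.ker, (σ : M ≃ₐ[L] M) θ :=
    finprod_eq_prod_of_fintype _
  have e3 : ∏ᶠ σ : χ.ker, (σ : M ≃ₐ[L] M) θ₀ = ∏ σ : χ.ker, (σ : M ≃ₐ[L] M) θ₀ :=
    finprod_eq_prod_of_fintype _
  have key := prod_cong (W.valuation M) (Finset.univ : Finset χ.ker)
    (fun σ => (σ : M ≃ₐ[L] M) θ) (fun σ => (σ : M ≃ₐ[L] M) θ₀)
    (fun σ _ => (hcong (σ : M ≃ₐ[L] M)).1) (fun σ _ => (hcong (σ : M ≃ₐ[L] M)).2)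
  have e4 : algebraMap F M (Algebra.norm F θ) - C =
      ∏ σ : χ.ker, (σ : M ≃ₐ[L] M) θ - ∏ σ : χ.ker, (σ : M ≃ₐ[L] M) θ₀ := by
    rw [← e2, ← e1, ← e3, hc]
  rw [e4]
  exact key.2

/-- the statement for an abstract intermediate field -/
theorem main [IsGalois k M] [IsGalois k F] (hcomm : ∀ σ τ : M ≃ₐ[k] M, σ * τ = τ * σ)
    {S : Finset ℕ} {c : L} {lam : HeightOneSpectrum (𝓞 L)} {q : ℕ}
    (A : Subgroup (M ≃ₐ[L] M)) (χ : (M ≃ₐ[L] M) →* Multiplicative (ZMod 3))
    (hA : ∃ σ ∈ A, χ σ ≠ 1)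
    (hunr : ∀ w : HeightOneSpectrum (𝓞 M), ¬ Above S w →
      w.asIdeal.under (𝓞 k) ≠ lam.asIdeal.under (𝓞 k) → ∀ σ : M ≃ₐ[L] M,
      (∀ x : 𝓞 M, σ • x - x ∈ w.asIdeal) → σ = 1)
    (htot : ∀ w : HeightOneSpectrum (𝓞 M), w.asIdeal.under (𝓞 k) = lam.asIdeal.under (𝓞 k) →
      ∀ σ ∈ A, ∀ x : 𝓞 M, σ • x - x ∈ w.asIdeal)
    {θ θ₀ : M} (hθ : SU S M θ)
    (hcong : ∀ w : HeightOneSpectrum (𝓞 M), w.asIdeal.under (𝓞 k) = lam.asIdeal.under (𝓞 k) →
      ∀ σ : M ≃ₐ[L] M, w.valuation M (σ θ₀) ≤ 1 ∧ w.valuation M (σ θ - σ θ₀) < 1)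
    (hnorm : ∃ y : k, ∏ᶠ σ : M ≃ₐ[L] M, σ θ = algebraMap k M y)
    (hc : ∏ᶠ σ : χ.ker, (σ : M ≃ₐ[L] M) θ₀ = algebraMap L M c ^ ((q - 1) / 3))
    (hker : ∀ σ : M ≃ₐ[L] M, σ ∈ χ.ker ↔ ∀ x : F, σ (algebraMap F M x) = algebraMap F M x) :
    KolBody k L S c lam q := by
  classical
  have hLM : IsGalois L M := IsGalois.tower_top_of_isGalois k L M
  have hFM : IsGalois F M := IsGalois.tower_top_of_isGalois k F M
  have hLF : IsGalois L F := IsGalois.tower_top_of_isGalois k L F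
  -- restriction to `F`
  have hrest : ∀ (σ : M ≃ₐ[L] M) (x : F),
      algebraMap F M (AlgEquiv.restrictNormalHom F σ x) = σ (algebraMap F M x) := fun σ x =>
    AlgEquiv.restrictNormal_commutes σ F x
  have hrker : ∀ σ : M ≃ₐ[L] M, AlgEquiv.restrictNormalHom F σ = 1 ↔ σ ∈ χ.ker := by
    intro σ
    rw [hker]
    constructor
    · intro h x
      rw [← hrest, h]
      rfl
    · intro h
      apply AlgEquiv.ext
      intro x
      apply (algebraMap F M).injective
      rw [hrest, h]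
      rfl
  -- `A` maps onto the Galois group of `F / L`
  have hAsurj : ∀ ρ : F ≃ₐ[L] F, ∃ σ ∈ A, AlgEquiv.restrictNormalHom F σ = ρ := by
    intro ρ
    obtain ⟨σ, hσ⟩ := AlgEquiv.restrictNormalHom_surjective (F := L) (K₁ := F) M ρ
    obtain ⟨α, hα, hα1⟩ := hA
    have hpow : ∃ j : ℤ, χ σ = χ α ^ j := by
      have hfact : Fact (Nat.Prime 3) := ⟨Nat.prime_three⟩
      have hcard : Nat.card (Multiplicative (ZMod 3)) = 3 := by
        rw [Nat.card_congr Multiplicative.toAdd, Nat.card_zmod]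
      have h1 := mem_zpowers_of_prime_card (g := χ α) (g' := χ σ) hcard hα1
      obtain ⟨j, hj⟩ := Subgroup.mem_zpowers_iff.1 h1
      exact ⟨j, hj.symm⟩
    obtain ⟨j, hj⟩ := hpow
    refine ⟨α ^ j, A.zpow_mem hα j, ?_⟩
    have h2 : σ⁻¹ * α ^ j ∈ χ.ker := by
      rw [MonoidHom.mem_ker, map_mul, map_inv, map_zpow, hj, inv_mul_cancel]
    rw [← hrker, map_mul, map_inv, inv_mul_eq_one] at h2
    rw [← h2, hσ]
  have hcardF : Nat.card (F ≃ₐ[L] F) = 3 := by
    have h1 : Nat.card (F ≃ₐ[L] F) = Nat.card ((M ≃ₐ[L] M) ⧸ χ.ker) := by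
      have hk : (AlgEquiv.restrictNormalHom F : (M ≃ₐ[L] M) →* (F ≃ₐ[L] F)).ker = χ.ker := by
        ext σ
        rw [MonoidHom.mem_ker, hrker]
      rw [← hk]
      exact Nat.card_congr (QuotientGroup.quotientKerEquivOfSurjective _
        (AlgEquiv.restrictNormalHom_surjective (F := L) (K₁ := F) M)).toEquiv.symm
    have h2 : Function.Surjective χ := by
      intro t
      obtain ⟨α, hα, hα1⟩ := hA
      have hfact : Fact (Nat.Prime 3) := ⟨Nat.prime_three⟩
      have hcard : Nat.card (Multiplicative (ZMod 3)) = 3 := by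
        rw [Nat.card_congr Multiplicative.toAdd, Nat.card_zmod]
      have h1 := mem_zpowers_of_prime_card (g := χ α) (g' := t) hcard hα1
      obtain ⟨j, hj⟩ := Subgroup.mem_zpowers_iff.1 h1
      exact ⟨α ^ j, by rw [map_zpow, hj]⟩
    rw [h1, Nat.card_congr (QuotientGroup.quotientKerEquivOfSurjective χ h2).toEquiv,
      Nat.card_congr Multiplicative.toAdd, Nat.card_zmod]
  -- primes
  have hunder : ∀ (W : HeightOneSpectrum (𝓞 M)) (w : HeightOneSpectrum (𝓞 F)),
      W.asIdeal.under (𝓞 F) = w.asIdeal → W.asIdeal.under (𝓞 k) = w.asIdeal.under (𝓞 k) := by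
    intro W w hwv
    rw [← hwv, Ideal.under_under]
  refine ⟨F, inferInstance, inferInstance, inferInstance, inferInstance, inferInstance,
    inferInstance, ?_, ?_, ?_, ?_, Algebra.norm F θ, ?_, ?_, ?_⟩
  · -- commutativity
    intro σ τ
    obtain ⟨σ', rfl⟩ := AlgEquiv.restrictNormalHom_surjective (F := k) (K₁ := F) M σ
    obtain ⟨τ', rfl⟩ := AlgEquiv.restrictNormalHom_surjective (F := k) (K₁ := F) M τ
    rw [← map_mul, hcomm, map_mul]
  · -- degree
    rw [← IsGalois.card_aut_eq_finrank, hcardF]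
  · -- unramified
    intro w hwS hwk
    obtain ⟨W, hW⟩ := INVI.exists_above F M w
    have hWS : ¬ Above S W := fun h => hwS ((above_under W w hW).1 h)
    have hWk : W.asIdeal.under (𝓞 k) ≠ lam.asIdeal.under (𝓞 k) := by
      rw [hunder W w hW]
      exact hwk
    have h1 : W.asIdeal.ramificationIdx (𝓞 L) = 1 := by
      rw [← card_inertia W]
      have h2 : W.asIdeal.inertia (M ≃ₐ[L] M) = ⊥ := by
        rw [eq_bot_iff]
        intro σ hσ
        exact hunr W hWS hWk σ hσ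
      rw [h2]
      exact Subgroup.card_bot
    have hlo : W.asIdeal.LiesOver w.asIdeal := ⟨hW.symm⟩
    have h3 := Ideal.ramificationIdx_tower (R := 𝓞 L) w.asIdeal W.asIdeal
    rw [h1] at h3
    exact Nat.eq_one_of_mul_eq_one_right h3.symm
  · -- totally ramified
    intro w hwk
    obtain ⟨W, hW⟩ := INVI.exists_above F M w
    rw [← card_inertia w, ← hcardF]
    have h1 : w.asIdeal.inertia (F ≃ₐ[L] F) = ⊤ := by
      rw [eq_top_iff]
      intro ρ _
      obtain ⟨σ, hσA, hσ⟩ := hAsurj ρ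
      intro x
      have h2 := htot W (by rw [hunder W w hW, hwk]) σ hσA (algebraMap (𝓞 F) (𝓞 M) x)
      have e : σ • algebraMap (𝓞 F) (𝓞 M) x - algebraMap (𝓞 F) (𝓞 M) x =
          algebraMap (𝓞 F) (𝓞 M) (ρ • x - x) := by
        apply IsFractionRing.injective (𝓞 M) M
        rw [map_sub, map_sub, map_sub]
        change σ (algebraMap F M (x : F)) - algebraMap F M (x : F) =
          algebraMap F M (ρ (x : F)) - algebraMap F M (x : F)
        rw [← hσ, hrest]
      rw [e] at h2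
      change ρ • x - x ∈ w.asIdeal
      rw [← hW]
      exact h2
    rw [h1]
    exact Subgroup.card_top
  · -- unit outside `S`
    intro w hw
    obtain ⟨W, hW⟩ := INVI.exists_above F M w
    have hWS : ¬ Above S W := fun h => hw ((above_under W w hW).1 h)
    apply val_one_up w W hW
    rw [Algebra.norm_eq_prod_automorphisms, map_prod]
    refine Finset.prod_eq_one fun σ _ => ?_
    have h1 := val_mv σ (mv σ⁻¹ W) θ
    rw [← mv_mul, mul_inv_cancel, mv_one] at h1
    rw [h1]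
    exact hθ _ (fun h => hWS ((above_mv _ _).1 h))
  · -- the norm
    obtain ⟨y, hy⟩ := hnorm
    refine ⟨y, ?_⟩
    rw [Algebra.norm_norm]
    apply (algebraMap L M).injective
    rw [Algebra.norm_eq_prod_automorphisms L θ, ← IsScalarTower.algebraMap_apply k L M y, ← hy]
    exact (finprod_eq_prod_of_fintype _).symm
  · -- the congruence
    intro w hwk
    obtain ⟨W, hW⟩ := INVI.exists_above F M w
    apply val_lt_up w W hW
    have e : algebraMap F M (Algebra.norm F θ - algebraMap L F c ^ ((q - 1) / 3)) =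
        algebraMap F M (Algebra.norm F θ) - algebraMap L M c ^ ((q - 1) / 3) := by
      rw [map_sub, map_pow, ← IsScalarTower.algebraMap_apply L F M c]
    rw [e]
    exact norm_cong χ hker W (hcong W (by rw [hunder W w hW, hwk])) hc

end tower

end I2A

end Pool.Agent.MU3
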