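import Pool.Agent.MU3.P_TWK

/-!
# MU3: (I3) for one generator implies (I3) for all generators

If `γ` and `γ'` generate the same group, `γ = γ' ^ b`, then `γ - 1 = (γ' - 1) (1 + γ' + .. + γ' ^ (b-1))`, so a relation
`∏ (δ (γ' - 1)^N c) ^ (e δ) = y ^ 3` implies the same one for `γ`.
-/

open NumberField IsDedekindDomain Finset
open scoped nonZeroDivisors Pointwise

namespace Pool.Agent.MU3

open Pool.Agent.RI Pool.Agent.RID

namespace I3G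

variable {k L : Type} [Field k] [Field L] [Algebra k L]

/-- `x ↦ ∏_{i < b} γ^i x` as a homomorphism. -/
noncomputable def sm (γ : L ≃ₐ[k] L) (b : ℕ) : L →* L where
  toFun x := ∏ i ∈ range b, (γ ^ i) x
  map_one' := by simp
  map_mul' x y := by simp [Finset.prod_mul_distrib]

lemma sm_apply (γ : L ≃ₐ[k] L) (b : ℕ) (x : L) : sm γ b x = ∏ i ∈ range b, (γ ^ i) x := rfl

lemma sm_map (γ δ : L ≃ₐ[k] L) (h : ∀ σ τ : L ≃ₐ[k] L, σ * τ = τ * σ) (b : ℕ) (x : L) :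
    sm γ b (δ x) = δ (sm γ b x) := by
  rw [sm_apply, sm_apply, map_prod]
  refine Finset.prod_congr rfl fun i _ => ?_
  have h1 := congrArg (fun σ : L ≃ₐ[k] L => σ x) (h (γ ^ i) δ)
  exact h1

lemma sm_div (γ : L ≃ₐ[k] L) (b : ℕ) (x y : L) : sm γ b (x / y) = sm γ b x / sm γ b y := by
  rw [sm_apply, sm_apply, sm_apply, ← Finset.prod_div_distrib]
  exact Finset.prod_congr rfl fun i _ => map_div₀ _ _ _

lemma sm_Tg (γ : L ≃ₐ[k] L) (b : ℕ) {x : L} (hx : x ≠ 0) : sm γ b (Tg γ x) = Tg (γ ^ b) x := by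
  induction b with
  | zero =>
    rw [sm_apply, pow_zero, Finset.range_zero, Finset.prod_empty]
    unfold Tg
    rw [AlgEquiv.one_apply, div_self hx]
  | succ b ih =>
    rw [sm_apply, Finset.prod_range_succ, ← sm_apply, ih]
    unfold Tg
    have h1 : (γ ^ b) x ≠ 0 := (map_ne_zero (γ ^ b)).2 hx
    have h2 : (γ ^ b) (γ x) = (γ ^ (b + 1)) x := by
      rw [pow_succ]; rfl
    rw [map_div₀, h2]
    field_simp

lemma Tg_ne (γ : L ≃ₐ[k] L) {x : L} (hx : x ≠ 0) : Tg γ x ≠ 0 :=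
  div_ne_zero ((map_ne_zero γ).2 hx) hx

lemma iter_ne (γ : L ≃ₐ[k] L) (n : ℕ) {x : L} (hx : x ≠ 0) : (Tg γ)^[n] x ≠ 0 := by
  induction n with
  | zero => exact hx
  | succ n ih => rw [Function.iterate_succ_apply']; exact Tg_ne γ ih

lemma sm_ne (γ : L ≃ₐ[k] L) (b : ℕ) {x : L} (hx : x ≠ 0) : sm γ b x ≠ 0 := by
  rw [sm_apply]
  exact Finset.prod_ne_zero_iff.2 fun i _ => (map_ne_zero (γ ^ i)).2 hx

/-- `(γ^b - 1)^N = (Σ γ^i)^N (γ - 1)^N` -/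
lemma iter_eq (γ : L ≃ₐ[k] L) (h : ∀ σ τ : L ≃ₐ[k] L, σ * τ = τ * σ) (b N : ℕ) {x : L}
    (hx : x ≠ 0) : (Tg (γ ^ b))^[N] x = (sm γ b)^[N] ((Tg γ)^[N] x) := by
  have hcm : ∀ (M : ℕ) (y : L), (sm γ b)^[M] (Tg γ y) = Tg γ ((sm γ b)^[M] y) := by
    intro M
    induction M with
    | zero => intro y; rfl
    | succ M ih =>
      intro y
      rw [Function.iterate_succ_apply, Function.iterate_succ_apply, ← ih]
      congr 1
      unfold Tg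
      rw [sm_div, sm_map γ γ h]
  have hne : ∀ (M : ℕ) {y : L}, y ≠ 0 → (sm γ b)^[M] y ≠ 0 := by
    intro M
    induction M with
    | zero => intro y hy; exact hy
    | succ M ih => intro y hy; rw [Function.iterate_succ_apply']; exact sm_ne γ b (ih hy)
  induction N with
  | zero => rfl
  | succ N ih =>
    rw [Function.iterate_succ_apply', ih, ← sm_Tg γ b (hne N (iter_ne γ N hx)), ← hcm,
      ← Function.iterate_succ_apply' (Tg γ), ← Function.iterate_succ_apply' (sm γ b)]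

/-- the relation for `γ` gives the relation for `γ ^ b` -/
lemma rel (γ : L ≃ₐ[k] L) (h : ∀ σ τ : L ≃ₐ[k] L, σ * τ = τ * σ) (b N : ℕ) {x : L}
    (hx : x ≠ 0) (D : Subgroup (L ≃ₐ[k] L)) [Fintype D] (e : D → ℕ) (y : L)
    (hy : y ^ 3 = ∏ δ : D, ((δ : L ≃ₐ[k] L) ((Tg γ)^[N] x)) ^ e δ) :
    ∃ z : L, z ^ 3 = ∏ δ : D, ((δ : L ≃ₐ[k] L) ((Tg (γ ^ b))^[N] x)) ^ e δ := by
  have hδ : ∀ (M : ℕ) (δ : L ≃ₐ[k] L) (u : L), (sm γ b)^[M] (δ u) = δ ((sm γ b)^[M] u) := by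
    intro M
    induction M with
    | zero => intro δ u; rfl
    | succ M ih =>
      intro δ u
      rw [Function.iterate_succ_apply, Function.iterate_succ_apply, sm_map γ δ h, ih]
  let f : ℕ → (L →* L) := fun M => Nat.rec (MonoidHom.id L) (fun _ g => (sm γ b).comp g) M
  have hf : ∀ (M : ℕ) (u : L), f M u = (sm γ b)^[M] u := by
    intro M
    induction M with
    | zero => intro u; rfl
    | succ M ih =>
      intro u
      rw [Function.iterate_succ_apply', ← ih]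
      rfl
  refine ⟨f N y, ?_⟩
  rw [← map_pow, hy, map_prod]
  refine Finset.prod_congr rfl fun δ _ => ?_
  rw [map_pow, hf, hδ, iter_eq γ h b N hx]

end I3G

/-- (I3) for one generator gives (I3) for every generator of `Gal(K_n / K)`. -/
theorem i3_all (h1 : S_GALK) (F : Type) [Field F] (k K : IntermediateField ℚ ℂ)
    (B : ℕ → IntermediateField ℚ ℂ) [FiniteDimensional ℚ K]
    [∀ n, FiniteDimensional ℚ ↥(K ⊔ B n)] (hB : Bas k K B) (n : ℕ) (h : k ≤ K ⊔ B n) (c : ℂ)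
    (hc : c ∈ K ⊔ B n) (hc0 : c ≠ 0) (N : ℕ) :
    letI := algC h
    ∀ γ₀ : ↥(K ⊔ B n) ≃ₐ[k] ↥(K ⊔ B n), (∀ x : ↥(K ⊔ B n), γ₀ x = x ↔ (x : ℂ) ∈ K) →
    (∀ [Fintype (NC h (B n))] (χ : NC h (B n) →* Fˣ), ∃ θ : F →+ ZMod 3,
      ∀ y : ↥(K ⊔ B n), y ^ 3 ≠ ∏ δ : NC h (B n),
        ((δ : ↥(K ⊔ B n) ≃ₐ[k] ↥(K ⊔ B n)) ((Tg γ₀)^[N] ⟨c, hc⟩)) ^
          (θ ((χ δ)⁻¹ : Fˣ)).val) →
    ∀ γ : ↥(K ⊔ B n) ≃ₐ[k] ↥(K ⊔ B n), (∀ x : ↥(K ⊔ B n), γ x = x ↔ (x : ℂ) ∈ K) →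
    ∀ [Fintype (NC h (B n))] (χ : NC h (B n) →* Fˣ), ∃ θ : F →+ ZMod 3,
      ∀ y : ↥(K ⊔ B n), y ^ 3 ≠ ∏ δ : NC h (B n),
        ((δ : ↥(K ⊔ B n) ≃ₐ[k] ↥(K ⊔ B n)) ((Tg γ)^[N] ⟨c, hc⟩)) ^
          (θ ((χ δ)⁻¹ : Fˣ)).val := by
  let akL : Algebra k ↥(K ⊔ B n) := algC h
  intro γ₀ hγ₀ h2 γ hγ _ χ
  obtain ⟨hG, hcm⟩ := h1 k K B hB n h
  have fdL : FiniteDimensional k ↥(K ⊔ B n) := Module.Finite.of_restrictScalars_finite ℚ k _
  have e1 := P_TWK.zp γ (GCC.sub h K hB.hk) (fun x => (hγ x).trans (GCC.mem_sub h K hB.hk x).symm)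
  have e2 := P_TWK.zp γ₀ (GCC.sub h K hB.hk)
    (fun x => (hγ₀ x).trans (GCC.mem_sub h K hB.hk x).symm)
  have h3 : γ₀ ∈ Subgroup.zpowers γ := by
    rw [← e1, e2]
    exact Subgroup.mem_zpowers γ₀
  have hfin : IsOfFinOrder γ := isOfFinOrder_of_finite γ
  obtain ⟨b, hb⟩ := (hfin.mem_powers_iff_mem_zpowers).2 h3
  have hb' : γ ^ b = γ₀ := hb
  obtain ⟨θ, hθ⟩ := h2 χ
  refine ⟨θ, fun y hy => ?_⟩
  have hc1 : (⟨c, hc⟩ : ↥(K ⊔ B n)) ≠ 0 := by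
    intro h0
    exact hc0 (congrArg Subtype.val h0)
  obtain ⟨z, hz⟩ := I3G.rel γ hcm b N hc1 (NC h (B n)) (fun δ => (θ ((χ δ)⁻¹ : Fˣ)).val) y hy
  rw [hb'] at hz
  exact hθ z hz

end Pool.Agent.MU3
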