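import Pool.Agent.MU3.StI2

/-!
# MU3, auxiliary lemmas for IMOD and IGAM (helper34)
-/

set_option autoImplicit false

namespace Pool.Agent.MU3I

open _root_.MU3 Pool.Agent.MU3 Pool.Agent.MU3A Pool.Agent.MU3B Pool.Agent.MU3C Pool.Agent.RI
  Pool.Agent.RID

noncomputable section

/-- every integer prime to `3` is `± 4^i` modulo `3^(n+1)` -/
lemma exists_pow4 (n : ℕ) (a : ℤ) (ha : IsCoprime a 3) :
    ∃ i : ℕ, (3 : ℤ) ^ (n + 1) ∣ a - 4 ^ i ∨ (3 : ℤ) ^ (n + 1) ∣ a + 4 ^ i := by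
  classical
  have h3 : Nat.Prime 3 := Nat.prime_three
  haveI : Fact (Nat.Prime 3) := ⟨h3⟩
  haveI : NeZero (3 ^ (n + 1)) := ⟨pow_ne_zero _ (by norm_num)⟩
  have ho := ZMod.orderOf_one_add_prime h3 (by norm_num) n
  have h4 : (1 + (3 : ℕ) : ZMod (3 ^ (n + 1))) = 4 := by norm_num
  rw [h4] at ho
  have hu4 : IsUnit (4 : ZMod (3 ^ (n + 1))) := by
    have : orderOf (4 : ZMod (3 ^ (n + 1))) ≠ 0 := by rw [ho]; positivity
    exact (isOfFinOrder_iff_pow_eq_one.2 ⟨_, Nat.pos_of_ne_zero this, pow_orderOf_eq_one _⟩).isUnit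
  let u : (ZMod (3 ^ (n + 1)))ˣ := hu4.unit
  have hu : (u : ZMod (3 ^ (n + 1))) = 4 := hu4.unit_spec
  have hou : orderOf u = 3 ^ n := by rw [← orderOf_units, hu, ho]
  -- the subgroup generated by `u` and `-1`
  let H : Subgroup (ZMod (3 ^ (n + 1)))ˣ := Subgroup.zpowers u ⊔ Subgroup.zpowers (-1)
  have h31 : 2 < 3 ^ (n + 1) := lt_of_lt_of_le (by norm_num) (Nat.pow_le_pow_right (by norm_num)
    (Nat.succ_le_succ (Nat.zero_le n)))
  have hneg : orderOf (-1 : (ZMod (3 ^ (n + 1)))ˣ) = 2 := by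
    rw [← orderOf_units, Units.val_neg, Units.val_one]
    haveI : Nontrivial (ZMod (3 ^ (n + 1))) := ZMod.nontrivial_iff.2 (by omega)
    have : ringChar (ZMod (3 ^ (n + 1))) ≠ 2 := by
      rw [ZMod.ringChar_zmod_n]; omega
    rw [orderOf_neg_one, if_neg this]
  have hcard : Nat.card (ZMod (3 ^ (n + 1)))ˣ = 2 * 3 ^ n := by
    rw [Nat.card_eq_fintype_card, ZMod.card_units_eq_totient, Nat.totient_prime_pow_succ h3]
    ring
  have hH : H = ⊤ := by
    refine Subgroup.eq_top_of_le_card _ ?_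
    rw [hcard]
    refine Nat.le_of_dvd Nat.card_pos ?_
    refine Nat.Coprime.mul_dvd_of_dvd_of_dvd ?_ ?_ ?_
    · exact (Nat.coprime_primes Nat.prime_two h3).2 (by norm_num) |>.pow_right _
    · have : Subgroup.zpowers (-1 : (ZMod (3 ^ (n + 1)))ˣ) ≤ H := le_sup_right
      have h5 := Subgroup.card_dvd_of_le this
      rwa [Nat.card_zpowers, hneg] at h5
    · have : Subgroup.zpowers u ≤ H := le_sup_left
      have h5 := Subgroup.card_dvd_of_le this
      rwa [Nat.card_zpowers, hou] at h5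
  have hcop : Int.gcd a (3 ^ (n + 1) : ℕ) = 1 := by
    rw [← Int.isCoprime_iff_gcd_eq_one]
    push_cast
    exact ha.pow_right
  have hau : IsUnit ((a : ℤ) : ZMod (3 ^ (n + 1))) := by
    rw [ZMod.coe_int_isUnit_iff_isCoprime]
    exact (Int.isCoprime_iff_gcd_eq_one.2 hcop).symm
  have hmem : hau.unit ∈ H := by rw [hH]; trivial
  obtain ⟨y, hy, z, hz, hyz⟩ := Subgroup.mem_sup.1 hmem
  obtain ⟨i, rfl⟩ : ∃ i : ℕ, u ^ i = y := by
    have := (mem_powers_iff_mem_zpowers (x := u) (y := y)).2 hy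
    exact this
  obtain ⟨j, rfl⟩ : ∃ j : ℕ, (-1 : (ZMod (3 ^ (n + 1)))ˣ) ^ j = z :=
    (mem_powers_iff_mem_zpowers (x := (-1 : (ZMod (3 ^ (n + 1)))ˣ)) (y := z)).2 hz
  have e := congrArg (Units.val) hyz
  rw [Units.val_mul, Units.val_pow_eq_pow_val, Units.val_pow_eq_pow_val, hu, Units.val_neg,
    Units.val_one, IsUnit.unit_spec] at e
  refine ⟨i, ?_⟩
  rcases neg_one_pow_eq_or (ZMod (3 ^ (n + 1))) j with h1 | h1
  · left
    rw [h1, mul_one] at e
    have : ((a - 4 ^ i : ℤ) : ZMod (3 ^ (n + 1))) = 0 := by push_cast; rw [← e]; ring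
    have := (ZMod.intCast_zmod_eq_zero_iff_dvd _ _).1 this
    exact_mod_cast this
  · right
    rw [h1] at e
    have : ((a + 4 ^ i : ℤ) : ZMod (3 ^ (n + 1))) = 0 := by push_cast; rw [← e]; ring
    have := (ZMod.intCast_zmod_eq_zero_iff_dvd _ _).1 this
    exact_mod_cast this

lemma zt_prim (M : ℕ) (hM : M ≠ 0) : IsPrimitiveRoot (zt M) M := Complex.isPrimitiveRoot_exp M hM

/-- comparison of `ζ^a + ζ^(-a)` and `ζ^b + ζ^(-b)` -/
lemma zt_cmp (M : ℕ) (hM : M ≠ 0) (a b : ℕ) :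
    zt M ^ a + (zt M ^ a)⁻¹ = zt M ^ b + (zt M ^ b)⁻¹ ↔ (M : ℤ) ∣ a - b ∨ (M : ℤ) ∣ a + b := by
  have hp := zt_prim M hM
  have h0 : zt M ≠ 0 := hp.ne_zero hM
  have ha : zt M ^ a ≠ 0 := pow_ne_zero _ h0
  have hb : zt M ^ b ≠ 0 := pow_ne_zero _ h0
  have h1 : zt M ^ a = zt M ^ b ↔ (M : ℤ) ∣ a - b := by
    have h2 := hp.zpow_eq_one_iff_dvd ((a : ℤ) - b)
    rw [← h2, zpow_sub₀ h0, zpow_natCast, zpow_natCast, div_eq_one_iff_eq hb]
  have h2 : zt M ^ a * zt M ^ b = 1 ↔ (M : ℤ) ∣ a + b := by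
    have h2 := hp.zpow_eq_one_iff_dvd ((a : ℤ) + b)
    rw [← h2, zpow_add₀ h0, zpow_natCast, zpow_natCast]
  rw [← h1, ← h2]
  constructor
  · intro h
    have h3 : (zt M ^ a - zt M ^ b) * (zt M ^ a * zt M ^ b - 1) = 0 := by
      field_simp at h
      linear_combination h
    rcases mul_eq_zero.1 h3 with h4 | h4
    · exact Or.inl (sub_eq_zero.1 h4)
    · exact Or.inr (sub_eq_zero.1 h4)
  · rintro (h | h)
    · rw [h]
    · have h3 : zt M ^ b = (zt M ^ a)⁻¹ := eq_inv_of_mul_eq_one_right h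
      rw [h3, inv_inv, add_comm]

/-- restriction of automorphisms to a Galois subfield `D` -/
lemma exists_res {A B : ℤ} {D : IntermediateField ℚ ℂ} (h : kk A B ≤ D)
    (M : IntermediateField (kk A B) ℂ) (hD : ∀ x ∈ D, x ∈ M)
    (hgal : letI := algC h; IsGalois (kk A B) D) :
    letI := algC h
    ∃ r : (M ≃ₐ[kk A B] M) →* (D ≃ₐ[kk A B] D),
      (∀ (σ : M ≃ₐ[kk A B] M) (y : D), ((r σ y : D) : ℂ) = (σ ⟨y, hD y y.2⟩ : ℂ)) ∧
      (Normal (kk A B) M → Function.Surjective r) := by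
  letI := algC h
  let i : D →+* M :=
    { toFun := fun y => ⟨y, hD y y.2⟩
      map_one' := rfl
      map_mul' := fun _ _ => rfl
      map_zero' := rfl
      map_add' := fun _ _ => rfl }
  letI : Algebra D M := i.toAlgebra
  haveI : IsScalarTower (kk A B) D M := IsScalarTower.of_algebraMap_eq fun x => rfl
  haveI : Normal (kk A B) D := hgal.to_normal
  refine ⟨AlgEquiv.restrictNormalHom D, fun σ y => ?_, fun hN => ?_⟩
  · have := AlgEquiv.restrictNormal_commutes σ D y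
    exact congrArg Subtype.val this
  · haveI := hN
    exact AlgEquiv.restrictNormalHom_surjective M

/-- the same for two intermediate fields over `k` -/
lemma exists_res' {A B : ℤ} (M₀ M : IntermediateField (kk A B) ℂ) (hD : M₀ ≤ M)
    (hgal : IsGalois (kk A B) M₀) :
    ∃ r : (M ≃ₐ[kk A B] M) →* (M₀ ≃ₐ[kk A B] M₀),
      (∀ (σ : M ≃ₐ[kk A B] M) (y : M₀), ((r σ y : M₀) : ℂ) = (σ ⟨y, hD y.2⟩ : ℂ)) ∧
      (Normal (kk A B) M → Function.Surjective r) := by
  letI : Algebra M₀ M := (IntermediateField.inclusion hD).toRingHom.toAlgebra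
  haveI : IsScalarTower (kk A B) M₀ M := IsScalarTower.of_algebraMap_eq fun x => rfl
  haveI : Normal (kk A B) M₀ := hgal.to_normal
  refine ⟨AlgEquiv.restrictNormalHom M₀, fun σ y => ?_, fun hN => ?_⟩
  · have := AlgEquiv.restrictNormal_commutes σ M₀ y
    exact congrArg Subtype.val this
  · haveI := hN
    exact AlgEquiv.restrictNormalHom_surjective M

lemma nm_nonneg' {A B : ℤ} (h : Case A B) (x : OO A B) : 0 ≤ nm x := by
  rcases h with ⟨rfl, rfl⟩ | ⟨rfl, rfl⟩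
  · simp only [nm]; nlinarith [sq_nonneg x.re, sq_nonneg x.im]
  · simp only [nm]; nlinarith [sq_nonneg (2 * x.re + x.im), sq_nonneg x.im]

lemma nm_mul' {A B : ℤ} (x y : OO A B) : nm (x * y) = nm x * nm y := by
  simp only [nm, QuadraticAlgebra.re_mul, QuadraticAlgebra.im_mul]; ring

lemma nm_pow' {A B : ℤ} (x : OO A B) (i : ℕ) : nm (x ^ i) = nm x ^ i := by
  induction i with
  | zero => simp [nm, QuadraticAlgebra.re_one, QuadraticAlgebra.im_one]
  | succ i ih => rw [pow_succ, nm_mul', ih, pow_succ]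

lemma lev_ne {A B : ℤ} (h : Case A B) {f n : ℕ} (hf : f ≠ 0) : lev A B f n ≠ 0 := by
  intro h0
  have := congrArg emb h0
  rw [lev, emb_natCast h, emb_zero h] at this
  have h2 : f * 3 ^ (n + 1) = 0 := by exact_mod_cast this
  exact (mul_ne_zero hf (pow_ne_zero _ (by norm_num))) h2

lemma lev_zero {A B : ℤ} {f : ℕ} : lev A B f 0 = ((3 * f : ℕ) : OO A B) := by
  simp only [lev]; congr 1; ring

lemma lev_dvd {A B : ℤ} {f n : ℕ} : lev A B f 0 ∣ lev A B f n := by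
  simp only [lev]
  refine ⟨((3 ^ n : ℕ) : OO A B), ?_⟩
  rw [← Nat.cast_mul]; congr 1; ring

lemma pow_dvd_lev {A B : ℤ} {f n : ℕ} : ((3 ^ (n + 1) : ℕ) : OO A B) ∣ lev A B f n :=
  ⟨(f : OO A B), by rw [lev, ← Nat.cast_mul]; congr 1; ring⟩

/-- the identity acts as `1` -/
lemma act_one {A B : ℤ} (h : Case A B) {L : PeriodPair} {m : OO A B}
    (F : IntermediateField (kk A B) ℂ) :
    Act L (em (1 : F ≃ₐ[kk A B] F)) m 1 := by
  refine ⟨isCoprime_one_left, fun z hz hzL => ?_⟩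
  rw [emb_one h, one_mul]
  exact ⟨hzL, fun hx => rfl, fun hy => rfl⟩

/-- norms of elements prime to `3` -/
lemma nm_coprime {A B : ℤ} (x : OO A B) (hx : IsCoprime x (3 : OO A B)) :
    IsCoprime (nm x) 3 := by
  rw [Int.isCoprime_iff_gcd_eq_one]
  by_contra hc
  have h3 : (3 : ℤ) ∣ nm x := by
    have h1 : Int.gcd (nm x) 3 ∣ 3 := by
      have := Int.gcd_dvd_right (a := nm x) (b := 3)
      exact_mod_cast this
    rcases (Nat.dvd_prime Nat.prime_three).1 h1 with h2 | h2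
    · exact absurd h2 hc
    · have h4 : ((Int.gcd (nm x) 3 : ℕ) : ℤ) ∣ nm x := Int.gcd_dvd_left ..
      rw [h2] at h4
      exact_mod_cast h4
  obtain ⟨u, v, huv⟩ := hx
  have e1 := congrArg nm huv
  -- modulo 3: nm (u * x) ≡ nm 1 = 1
  have e2 : nm (u * x + v * 3) = nm (u * x) + 3 * (3 * nm v + 2 * ((u * x).re * v.re) +
      B * ((u * x).re * v.im + (u * x).im * v.re) - 2 * A * ((u * x).im * v.im)) := by
    have e3 : (v * 3 : OO A B).re = 3 * v.re := by
      simp only [QuadraticAlgebra.re_mul, QuadraticAlgebra.re_ofNat, QuadraticAlgebra.im_ofNat]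
      ring
    have e4 : (v * 3 : OO A B).im = 3 * v.im := by
      simp only [QuadraticAlgebra.im_mul, QuadraticAlgebra.re_ofNat, QuadraticAlgebra.im_ofNat]
      ring
    simp only [nm, QuadraticAlgebra.re_add, QuadraticAlgebra.im_add, e3, e4]
    ring
  rw [e2, nm_mul'] at e1
  have e5 : nm (1 : OO A B) = 1 := by
    simp [nm, QuadraticAlgebra.re_one, QuadraticAlgebra.im_one]
  rw [e5] at e1
  have : (3 : ℤ) ∣ 1 := by
    rw [← e1]
    exact dvd_add (h3.mul_left _) (dvd_mul_right _ _)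
  norm_num at this

end

end Pool.Agent.MU3I
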