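import Pool.Agent.MU3.StI2
import Pool.Agent.MU3.StV2
import Pool.Agent.MU3.G_G0

/-!
# MU3, module ICC: the conjugates of `c` (from `Sw_MEMC` of helper59)
-/

set_option autoImplicit false

namespace Pool.Agent.MU3I

open _root_.MU3 Pool.Agent.MU3 Pool.Agent.MU3A Pool.Agent.MU3B Pool.Agent.MU3C Pool.Agent.RI
  Pool.Agent.RID Pool.Agent.MU3V

noncomputable section

theorem t_ICC (hM : Sw_MEMC) : St_ICC := by
  intro A B hC L Om hCM _ f hf hf3 _ n _ Hs hHs D _ h hD
  letI := algC h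
  intro _
  have hlev : lev A B f n = ((f * 3 ^ (n + 1) : ℕ) : OO A B) := rfl
  have hm0 : lev A B f n ≠ 0 := by
    intro h0
    have h1 : emb (lev A B f n) = 0 := by rw [h0, emb_zero hC]
    rw [hlev, emb_natCast hC] at h1
    have h2 : f * 3 ^ (n + 1) ≠ 0 := mul_ne_zero hf (by positivity)
    exact h2 (by exact_mod_cast h1)
  have hmu : ¬ IsUnit (lev A B f n) := by
    intro hu
    have h1 : (3 : OO A B) ∣ lev A B f n := by
      rw [hlev]
      push_cast
      rw [pow_succ]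
      exact ⟨f * 3 ^ n, by ring⟩
    have h2 : IsUnit (3 : OO A B) := isUnit_of_dvd_unit h1 hu
    have h3 := (Pool.Agent.MU3G.G0.unit_iff (3 : OO A B)).1 h2
    have h4 : nm (3 : OO A B) = 9 := by
      have e1 : (3 : OO A B).re = 3 := rfl
      have e2 : (3 : OO A B).im = 0 := rfl
      unfold nm
      rw [e1, e2]
      ring
    rw [h4, Int.isUnit_iff] at h3
    omega
  have ha : ((1 + 6 * (f : ℤ) : ℤ) : OO A B) = 1 + 6 * (f : OO A B) := by push_cast; ring
  have hcop : IsCoprime (((1 + 6 * (f : ℤ) : ℤ)) : OO A B) (lev A B f n) := by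
    rw [ha, hlev]
    push_cast
    refine IsCoprime.mul_right ?_ (IsCoprime.pow_right ?_)
    · exact ⟨1, -6, by ring⟩
    · exact ⟨1, -(2 * f), by ring⟩
  have h6 := hM A B L Om hC hCM (lev A B f n) hm0 hmu (1 + 6 * (f : ℤ)) Hs (by omega) hcop
    (by
      have : ((1 + 6 * (f : ℤ) : ℤ) : ℂ) = 1 + 6 * (f : ℂ) := by push_cast; ring
      rw [this]
      exact hHs) D h hD
  obtain ⟨h7, h8⟩ := h6
  exact ⟨(h7 1).1, (h7 1).2, fun τ => h8 τ (h7 1).1⟩

end

end Pool.Agent.MU3I
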