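import Pool.Agent.MU3.StI

/-!
# MU3, block I: module IE0 (the even character attached to a character of `Δ`)
-/

set_option autoImplicit false

namespace Pool.Agent.MU3I

open _root_.MU3 Pool.Agent.MU3 Pool.Agent.MU3A Pool.Agent.MU3B Pool.Agent.MU3C Pool.Agent.RI
  Pool.Agent.RID

noncomputable section

namespace IE0

variable {A B : ℤ}

lemma natCast_dvd {N : ℕ} {y : OO A B} (h1 : (N : ℤ) ∣ y.re) (h2 : (N : ℤ) ∣ y.im) :
    (N : OO A B) ∣ y := by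
  obtain ⟨a, ha⟩ := h1
  obtain ⟨b, hb⟩ := h2
  refine ⟨⟨a, b⟩, ?_⟩
  ext
  · rw [QuadraticAlgebra.re_mul, QuadraticAlgebra.re_natCast, QuadraticAlgebra.im_natCast, ha]
    simp
  · rw [QuadraticAlgebra.im_mul, QuadraticAlgebra.re_natCast, QuadraticAlgebra.im_natCast, hb]
    simp

lemma exists_pow {N : ℕ} (hN : N ≠ 0) (x : OO A B) (hx : IsCoprime x (N : OO A B)) :
    ∃ k : ℕ, 1 ≤ k ∧ (N : OO A B) ∣ x ^ k - 1 := by
  have : NeZero N := ⟨hN⟩
  obtain ⟨k1, k2, hne, heq⟩ := Finite.exists_ne_map_eq_of_infinite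
    (fun k : ℕ => (((x ^ k).re : ZMod N), ((x ^ k).im : ZMod N)))
  have key : ∀ k1 k2 : ℕ, k1 < k2 → (((x ^ k1).re : ZMod N), ((x ^ k1).im : ZMod N)) =
      (((x ^ k2).re : ZMod N), ((x ^ k2).im : ZMod N)) →
      ∃ k : ℕ, 1 ≤ k ∧ (N : OO A B) ∣ x ^ k - 1 := by
    intro k1 k2 hlt h
    rw [Prod.mk.injEq] at h
    obtain ⟨e1, e2⟩ := h
    have d1 := (ZMod.intCast_eq_intCast_iff_dvd_sub _ _ _).1 e1
    have d2 := (ZMod.intCast_eq_intCast_iff_dvd_sub _ _ _).1 e2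
    have d : (N : OO A B) ∣ x ^ k2 - x ^ k1 := by
      apply natCast_dvd
      · rw [QuadraticAlgebra.re_sub]; exact d1
      · rw [QuadraticAlgebra.im_sub]; exact d2
    refine ⟨k2 - k1, by omega, ?_⟩
    have e : x ^ k2 - x ^ k1 = x ^ k1 * (x ^ (k2 - k1) - 1) := by
      rw [mul_sub, ← pow_add, mul_one]
      congr 2
      omega
    rw [e] at d
    exact (hx.symm.pow_right).dvd_of_dvd_mul_left d
  rcases lt_or_gt_of_ne hne with h | h
  · exact key k1 k2 h heq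
  · exact key k2 k1 h heq.symm

lemma three_pow_dvd (n i : ℕ) (h : (3 : ℤ) ^ (n + 1) ∣ 1 - 4 ^ i) : 3 ^ n ∣ i := by
  rcases Nat.eq_zero_or_pos i with hi | hi
  · rw [hi]; exact dvd_zero _
  have h1 : 3 ^ (n + 1) ∣ 4 ^ i - 1 ^ i := by
    have h2 : (3 : ℤ) ^ (n + 1) ∣ 4 ^ i - 1 := by
      have := (dvd_neg (a := (3 : ℤ) ^ (n + 1))).2 h
      rwa [neg_sub] at this
    have h3 : (((4 : ℕ) ^ i - 1 ^ i : ℕ) : ℤ) = 4 ^ i - 1 := by
      rw [Nat.cast_sub (Nat.pow_le_pow_left (by norm_num) i)]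
      simp
    rw [← h3] at h2
    exact_mod_cast h2
  have hpos : 4 ^ i - 1 ^ i ≠ 0 := by
    have : 1 < 4 ^ i := Nat.one_lt_pow hi.ne' (by norm_num)
    rw [one_pow]
    omega
  have : Fact (Nat.Prime 3) := ⟨Nat.prime_three⟩
  have h4 := padicValNat.pow_sub_pow (p := 3) (x := 4) (y := 1) (by decide) (by norm_num)
    (by norm_num) (by norm_num) hi.ne'
  have h5 : n + 1 ≤ padicValNat 3 (4 ^ i - 1 ^ i) :=
    (padicValNat_dvd_iff_le hpos).1 h1
  rw [h4] at h5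
  have h6 : padicValNat 3 (4 - 1) = 1 := by
    rw [show 4 - 1 = 3 by norm_num]
    exact padicValNat_self
  rw [h6] at h5
  exact (padicValNat_dvd_iff_le hi.ne').2 (by omega)

variable {f n : ℕ} {G : Type} [Group G] {γ : G} {Δ : Subgroup G} {X : G → Set (OO A B)}

lemma mem_one (hX : IsMod f n γ Δ X) {i : ℕ} (h : γ ^ i ∈ Δ) : γ ^ i = 1 := by
  have h1 := (hX.nrm 1 1 hX.one i).1 (by rw [one_mul]; exact Δ.inv_mem h)
  have hn : nm (1 : OO A B) = 1 := by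
    rw [nm, QuadraticAlgebra.re_one, QuadraticAlgebra.im_one]
    ring
  rw [hn] at h1
  rcases h1 with h1 | h1
  · have := three_pow_dvd n i h1
    obtain ⟨c, rfl⟩ := this
    rw [pow_mul, hX.ord, one_pow]
  · exfalso
    have h2 : (3 : ℤ) ∣ 1 + 4 ^ i := (dvd_pow_self 3 (Nat.succ_ne_zero n)).trans h1
    have h3 : (4 : ℤ) ^ i ≡ 1 ^ i [ZMOD 3] := Int.ModEq.pow i (by decide)
    rw [one_pow] at h3
    have h4 : (4 : ℤ) ^ i % 3 = 1 := h3
    omega

lemma uniq' (hX : IsMod f n γ Δ X) {δ δ' : G} (hδ : δ ∈ Δ) (hδ' : δ' ∈ Δ) {i j : ℕ}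
    (h : δ * γ ^ i = δ' * γ ^ j) : δ = δ' := by
  have h1 : γ ^ i * γ ^ (i * (3 ^ n - 1)) = 1 := by
    rw [← pow_add]
    have : i + i * (3 ^ n - 1) = 3 ^ n * i := by
      have h3 : 1 ≤ 3 ^ n := Nat.one_le_pow _ _ (by norm_num)
      obtain ⟨t, ht⟩ := Nat.exists_eq_add_of_le h3
      rw [ht, Nat.add_sub_cancel_left]
      ring
    rw [this, pow_mul, hX.ord, one_pow]
  have h2 : δ = δ' * γ ^ (j + i * (3 ^ n - 1)) := by
    calc δ = δ * (γ ^ i * γ ^ (i * (3 ^ n - 1))) := by rw [h1, mul_one]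
      _ = (δ * γ ^ i) * γ ^ (i * (3 ^ n - 1)) := by rw [mul_assoc]
      _ = δ' * γ ^ j * γ ^ (i * (3 ^ n - 1)) := by rw [h]
      _ = δ' * γ ^ (j + i * (3 ^ n - 1)) := by rw [mul_assoc, ← pow_add]
  have h3 : γ ^ (j + i * (3 ^ n - 1)) ∈ Δ := by
    have : γ ^ (j + i * (3 ^ n - 1)) = δ'⁻¹ * δ := by
      rw [h2, inv_mul_cancel_left]
    rw [this]
    exact Δ.mul_mem (Δ.inv_mem hδ') hδ
  rw [mem_one hX h3, mul_one] at h2
  exact h2

/-- the component in `Δ` -/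
def dl (hX : IsMod f n γ Δ X) (τ : G) : Δ :=
  ⟨Classical.choose (hX.gen τ), (Classical.choose_spec (hX.gen τ)).1⟩

lemma dl_spec (hX : IsMod f n γ Δ X) (τ : G) : ∃ i : ℕ, τ = (dl hX τ : G) * γ ^ i :=
  (Classical.choose_spec (hX.gen τ)).2

lemma dl_eq (hX : IsMod f n γ Δ X) (δ : Δ) (i : ℕ) : dl hX ((δ : G) * γ ^ i) = δ := by
  obtain ⟨j, hj⟩ := dl_spec hX ((δ : G) * γ ^ i)
  exact Subtype.ext (uniq' hX (dl hX _).2 δ.2 hj.symm)

lemma dl_mul (hX : IsMod f n γ Δ X) (τ τ' : G) : dl hX (τ * τ') = dl hX τ * dl hX τ' := by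
  obtain ⟨i, hi⟩ := dl_spec hX τ
  obtain ⟨j, hj⟩ := dl_spec hX τ'
  have h : τ * τ' = ((dl hX τ * dl hX τ' : Δ) : G) * γ ^ (i + j) := by
    rw [Subgroup.coe_mul, pow_add]
    calc τ * τ' = ((dl hX τ : G) * γ ^ i) * ((dl hX τ' : G) * γ ^ j) := by rw [← hi, ← hj]
      _ = (dl hX τ : G) * (γ ^ i * (dl hX τ' : G)) * γ ^ j := by simp only [mul_assoc]
      _ = (dl hX τ : G) * ((dl hX τ' : G) * γ ^ i) * γ ^ j := by rw [hX.comm (γ ^ i)]
      _ = _ := by simp only [mul_assoc]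
  conv_lhs => rw [h]
  exact dl_eq hX _ _

lemma dl_pow (hX : IsMod f n γ Δ X) (i : ℕ) : dl hX (γ ^ i) = 1 := by
  have := dl_eq hX 1 i
  rwa [Subgroup.coe_one, one_mul] at this

lemma dl_one (hX : IsMod f n γ Δ X) : dl hX 1 = 1 := by
  have := dl_pow hX 0
  rwa [pow_zero] at this

lemma pow_mem (hX : IsMod f n γ Δ X) {x : OO A B} {τ : G} (hx : x ∈ X τ) (k : ℕ) :
    x ^ k ∈ X (τ ^ k) := by
  induction k with
  | zero => rw [pow_zero, pow_zero]; exact hX.one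
  | succ k ih =>
    rw [pow_succ, pow_succ]
    exact hX.mul _ _ _ _ ih hx

lemma inv_ex (hX : IsMod f n γ Δ X) (hf : f ≠ 0) {x : OO A B} {τ : G} (hx : x ∈ X τ) :
    ∃ k : ℕ, lev A B f n ∣ x * x ^ k - 1 ∧ x ^ k ∈ X (τ ^ k) ∧ τ * τ ^ k = 1 := by
  obtain ⟨k, hk, hd⟩ := exists_pow (N := f * 3 ^ (n + 1)) (by positivity) x (hX.cop τ x hx)
  obtain ⟨j, rfl⟩ : ∃ j, k = j + 1 := ⟨k - 1, by omega⟩
  have hd' : lev A B f n ∣ x * x ^ j - 1 := by rwa [← pow_succ']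
  refine ⟨j, hd', pow_mem hX hx j, ?_⟩
  have h1 := hX.mul _ _ _ _ hx (pow_mem hX hx j)
  have h2 := hX.per _ 1 _ hd' h1
  exact hX.uniq _ _ _ h2 hX.one

lemma three_f_dvd (A B : ℤ) (f n : ℕ) : ((3 * f : ℕ) : OO A B) ∣ lev A B f n := by
  refine ⟨((3 ^ n : ℕ) : OO A B), ?_⟩
  unfold lev
  rw [← Nat.cast_mul]
  congr 1
  ring

lemma not_both (hX : IsMod f n γ Δ X) (hf : f ≠ 0) {x : OO A B} {τ τ' : G} (hx : x ∈ X τ)
    (hx' : -x ∈ X τ') : False := by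
  obtain ⟨k, hd, hk, -⟩ := inv_ex hX hf hx
  have h2 := hX.mul _ _ _ _ hx' hk
  have h3 := hX.per _ (-1) _ (by
    have : -x * x ^ k - -1 = -(x * x ^ k - 1) := by ring
    rw [this]
    exact (dvd_neg).2 hd) h2
  exact hX.neg _ _ h3 (by simp)

lemma key (hX : IsMod f n γ Δ X) (hf : f ≠ 0) {x y : OO A B} {τ τ' : G} (hx : x ∈ X τ)
    (hy : y ∈ X τ') (h : ((3 * f : ℕ) : OO A B) ∣ x - y ∨ ((3 * f : ℕ) : OO A B) ∣ x + y) :
    dl hX τ = dl hX τ' := by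
  obtain ⟨k, hd, hk, ht⟩ := inv_ex hX hf hy
  have hd3 := (three_f_dvd A B f n).trans hd
  have h2 := hX.mul _ _ _ _ hx hk
  rcases h with h | h
  · have h4 : ((3 * f : ℕ) : OO A B) ∣ x * y ^ k - 1 := by
      have e : x * y ^ k - 1 = (x - y) * y ^ k + (y * y ^ k - 1) := by ring
      rw [e]
      exact dvd_add (h.mul_right _) hd3
    obtain ⟨i, hi⟩ := hX.triv _ _ h2 h4
    have h5 : τ = γ ^ i * τ' := by
      calc τ = τ * (τ' * τ' ^ k) := by rw [ht, mul_one]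
        _ = τ * (τ' ^ k * τ') := by rw [hX.comm τ']
        _ = γ ^ i * τ' := by rw [← mul_assoc, hi]
    rw [h5, dl_mul, dl_pow, one_mul]
  · exfalso
    refine hX.neg _ _ h2 ?_
    have e : x * y ^ k + 1 = (x + y) * y ^ k - (y * y ^ k - 1) := by ring
    rw [e]
    exact dvd_sub (h.mul_right _) hd3

/-- `x` or `-x` is in `X τ` -/
def P (X : G → Set (OO A B)) (x : OO A B) (τ : G) : Prop := x ∈ X τ ∨ -x ∈ X τ

lemma P_uniq (hX : IsMod f n γ Δ X) (hf : f ≠ 0) {x : OO A B} {τ τ' : G} (h : P X x τ)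
    (h' : P X x τ') : τ = τ' := by
  rcases h with h | h <;> rcases h' with h' | h'
  · exact hX.uniq _ _ _ h h'
  · exact (not_both hX hf h h').elim
  · exact (not_both hX hf h' h).elim
  · exact hX.uniq _ _ _ h h'

lemma P_mul (hX : IsMod f n γ Δ X) {x y : OO A B} {τ τ' : G} (h : P X x τ) (h' : P X y τ') :
    P X (x * y) (τ * τ') := by
  rcases h with h | h <;> rcases h' with h' | h'
  · exact Or.inl (hX.mul _ _ _ _ h h')
  · right
    have := hX.mul _ _ _ _ h h'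
    rwa [mul_neg] at this
  · right
    have := hX.mul _ _ _ _ h h'
    rwa [neg_mul] at this
  · left
    have := hX.mul _ _ _ _ h h'
    rwa [neg_mul_neg] at this

lemma P_iff (hX : IsMod f n γ Δ X) (x : OO A B) : (∃ τ, P X x τ) ↔ IsCoprime x (lev A B f n) := by
  constructor
  · rintro ⟨τ, h | h⟩
    · exact hX.cop τ x h
    · exact (IsCoprime.neg_left_iff _ _).1 (hX.cop τ _ h)
  · intro h
    rcases hX.ex x h with ⟨τ, h⟩ | ⟨τ, h⟩
    · exact ⟨τ, Or.inl h⟩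
    · exact ⟨τ, Or.inr h⟩

lemma P_key (hX : IsMod f n γ Δ X) (hf : f ≠ 0) {x y : OO A B} {τ τ' : G} (hx : P X x τ)
    (hy : P X y τ') (h : ((3 * f : ℕ) : OO A B) ∣ x - y) : dl hX τ = dl hX τ' := by
  rcases hx with hx | hx <;> rcases hy with hy | hy
  · exact key hX hf hx hy (Or.inl h)
  · exact key hX hf hx hy (Or.inr (by rwa [← sub_eq_add_neg]))
  · refine key hX hf hx hy (Or.inr ?_)
    have : -x + y = -(x - y) := by ring
    rw [this]
    exact dvd_neg.2 h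
  · refine key hX hf hx hy (Or.inl ?_)
    have : -x - -y = -(x - y) := by ring
    rw [this]
    exact dvd_neg.2 h

lemma cop_iff (f n : ℕ) (x : OO A B) :
    IsCoprime x (lev A B f n) ↔ IsCoprime x ((3 * f : ℕ) : OO A B) := by
  unfold lev
  rw [Nat.cast_mul, Nat.cast_mul, Nat.cast_pow, IsCoprime.mul_right_iff, IsCoprime.mul_right_iff,
    IsCoprime.pow_right_iff (Nat.succ_pos n), and_comm]

lemma cop_congr {a x y : OO A B} (h : a ∣ x - y) : IsCoprime x a ↔ IsCoprime y a := by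
  obtain ⟨c, hc⟩ := h
  have : x = y + a * c := by rw [← hc]; ring
  rw [this]
  exact IsCoprime.add_mul_left_left_iff

open Classical in
/-- the character -/
def e0 (hX : IsMod f n γ Δ X) (χ : Δ →* ℂˣ) (x : OO A B) : ℂ :=
  if h : ∃ τ, P X x τ then (((χ (dl hX (Classical.choose h)))⁻¹ : ℂˣ) : ℂ) else 0

lemma e0_eq (hX : IsMod f n γ Δ X) (hf : f ≠ 0) (χ : Δ →* ℂˣ) {x : OO A B} {τ : G}
    (h : P X x τ) : e0 hX χ x = (((χ (dl hX τ))⁻¹ : ℂˣ) : ℂ) := by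
  have h' : ∃ τ, P X x τ := ⟨τ, h⟩
  unfold e0
  rw [dif_pos h', P_uniq hX hf (Classical.choose_spec h') h]

lemma e0_zero (hX : IsMod f n γ Δ X) (χ : Δ →* ℂˣ) {x : OO A B}
    (h : ¬ IsCoprime x (lev A B f n)) : e0 hX χ x = 0 := by
  unfold e0
  rw [dif_neg]
  rwa [P_iff hX]

end IE0

open IE0 in
theorem t_IE0 : St_IE0 := by
  intro A B hC f n hf hf3 G _ _ γ Δ X hX χ r hr
  refine ⟨e0 hX χ, ?_, ?_, ?_, ?_, ?_, ?_, ?_⟩
  · rw [e0_eq hX hf χ (Or.inl hX.one), dl_one, map_one]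
    simp
  · rw [e0_eq hX hf χ (x := -1) (τ := 1) (Or.inr (by rw [neg_neg]; exact hX.one)), dl_one,
      map_one]
    simp
  · intro x y
    by_cases hx : IsCoprime x (lev A B f n)
    · by_cases hy : IsCoprime y (lev A B f n)
      · obtain ⟨τ, h1⟩ := (P_iff hX x).2 hx
        obtain ⟨τ', h2⟩ := (P_iff hX y).2 hy
        rw [e0_eq hX hf χ h1, e0_eq hX hf χ h2, e0_eq hX hf χ (P_mul hX h1 h2), dl_mul, map_mul,
          mul_inv, Units.val_mul]
      · rw [e0_zero hX χ hy, mul_zero, e0_zero hX χ]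
        intro h
        exact hy (IsCoprime.mul_left_iff.1 h).2
    · rw [e0_zero hX χ hx, zero_mul, e0_zero hX χ]
      intro h
      exact hx (IsCoprime.mul_left_iff.1 h).1
  · intro x y hxy
    have hc : IsCoprime x (lev A B f n) ↔ IsCoprime y (lev A B f n) := by
      rw [cop_iff, cop_iff]
      exact cop_congr hxy
    by_cases hx : IsCoprime x (lev A B f n)
    · obtain ⟨τ, h1⟩ := (P_iff hX x).2 hx
      obtain ⟨τ', h2⟩ := (P_iff hX y).2 (hc.1 hx)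
      rw [e0_eq hX hf χ h1, e0_eq hX hf χ h2, P_key hX hf h1 h2 hxy]
    · rw [e0_zero hX χ hx, e0_zero hX χ (fun h => hx (hc.2 h))]
  · intro x
    rw [← cop_iff f n]
    constructor
    · intro h
      by_contra hc
      exact h (e0_zero hX χ hc)
    · intro h
      obtain ⟨τ, h1⟩ := (P_iff hX x).2 h
      rw [e0_eq hX hf χ h1]
      exact Units.ne_zero _
  · intro x hx
    have hc : IsCoprime x (lev A B f n) := by
      by_contra hc
      exact hx (e0_zero hX χ hc)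
    obtain ⟨τ, h1⟩ := (P_iff hX x).2 hc
    rw [e0_eq hX hf χ h1, ← Units.val_pow_eq_pow_val, inv_pow, hr, inv_one, Units.val_one]
  · intro x δ i hx
    rw [e0_eq hX hf χ (Or.inl hx), dl_eq]

end

end Pool.Agent.MU3I
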