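import Pool.Agent.MU3.StI
import Pool.Agent.MU3.G_G0
import Pool.Agent.MU3.G_G6b

/-!
# MU3, block I: module IEPS, the character `ε` and the sign `s`
-/

set_option autoImplicit false

namespace Pool.Agent.MU3I

open _root_.MU3 Pool.Agent.MU3 Pool.Agent.MU3A Pool.Agent.MU3B Pool.Agent.MU3C Pool.Agent.RI
  Pool.Agent.RID

noncomputable section

namespace I_IEPS

variable {A B : ℤ}

/-- `O / q` has the elements `0, 1, -1` -/
structure Q3 (q : OO A B) : Prop where
  rep : ∀ x : OO A B, ∃ n : ℤ, q ∣ x - n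
  int : ∀ n : ℤ, q ∣ (n : OO A B) ↔ (3 : ℤ) ∣ n

lemma w3_mul (a b : ℤ) : w3 (a * b) = w3 a * w3 b := by
  have ha : a % 3 = 0 ∨ a % 3 = 1 ∨ a % 3 = 2 := by omega
  have hb : b % 3 = 0 ∨ b % 3 = 1 ∨ b % 3 = 2 := by omega
  unfold w3
  rcases ha with ha | ha | ha <;> rcases hb with hb | hb | hb <;>
    simp [Int.mul_emod, ha, hb]

lemma w3_ne (a : ℤ) : w3 a ≠ 0 ↔ ¬ (3 : ℤ) ∣ a := by
  have ha : a % 3 = 0 ∨ a % 3 = 1 ∨ a % 3 = 2 := by omega
  unfold w3
  rcases ha with ha | ha | ha
  · simp [ha]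
    omega
  · simp [ha]
    omega
  · simp [ha]
    omega

lemma w3_sq {a : ℤ} (h : ¬ (3 : ℤ) ∣ a) : w3 a ^ 2 = 1 := by
  have ha : a % 3 = 1 ∨ a % 3 = 2 := by omega
  unfold w3
  rcases ha with ha | ha <;> simp [ha]

section q3

variable {q : OO A B}

lemma wq_eq (hq : Q3 q) {x : OO A B} {n : ℤ} (h : q ∣ x - n) : wq q x = w3 n := by
  have h1 : q ∣ x - 1 ↔ (3 : ℤ) ∣ n - 1 := by
    rw [← hq.int]
    push_cast
    constructor
    · intro h'
      have := dvd_sub h' h
      have e : x - 1 - (x - n) = (n : OO A B) - 1 := by ring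
      rwa [e] at this
    · intro h'
      have := dvd_add h h'
      have e : x - n + ((n : OO A B) - 1) = x - 1 := by ring
      rwa [e] at this
  have h2 : q ∣ x + 1 ↔ (3 : ℤ) ∣ n + 1 := by
    rw [← hq.int]
    push_cast
    constructor
    · intro h'
      have := dvd_sub h' h
      have e : x + 1 - (x - n) = (n : OO A B) + 1 := by ring
      rwa [e] at this
    · intro h'
      have := dvd_add h h'
      have e : x - n + ((n : OO A B) + 1) = x + 1 := by ring
      rwa [e] at this
  unfold wq w3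
  by_cases c1 : q ∣ x - 1
  · have := h1.1 c1
    have r1 : n % 3 = 1 := by omega
    rw [if_pos c1, if_pos r1]
  · have c1' : ¬ (3 : ℤ) ∣ n - 1 := fun h => c1 (h1.2 h)
    have r1 : ¬ n % 3 = 1 := by omega
    rw [if_neg c1]
    by_cases c2 : q ∣ x + 1
    · have := h2.1 c2
      have r2 : n % 3 = 2 := by omega
      rw [if_pos c2, if_neg r1, if_pos r2]
    · have c2' : ¬ (3 : ℤ) ∣ n + 1 := fun h => c2 (h2.2 h)
      have r2 : ¬ n % 3 = 2 := by omega
      rw [if_neg c2, if_neg r1, if_neg r2]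

lemma wq_mul (hq : Q3 q) (x y : OO A B) : wq q (x * y) = wq q x * wq q y := by
  obtain ⟨n, hn⟩ := hq.rep x
  obtain ⟨m, hm⟩ := hq.rep y
  have h : q ∣ x * y - ((n * m : ℤ) : OO A B) := by
    have e : x * y - ((n * m : ℤ) : OO A B) = x * (y - m) + m * (x - n) := by
      push_cast
      ring
    rw [e]
    exact dvd_add (hm.mul_left x) (hn.mul_left _)
  rw [wq_eq hq h, wq_eq hq hn, wq_eq hq hm, w3_mul]

lemma wq_per (hq : Q3 q) {x y : OO A B} (h : q ∣ x - y) : wq q x = wq q y := by
  obtain ⟨m, hm⟩ := hq.rep y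
  have h' : q ∣ x - m := by
    have := dvd_add h hm
    have e : x - y + (y - m) = x - m := by ring
    rwa [e] at this
  rw [wq_eq hq h', wq_eq hq hm]

lemma dvd_iff (hq : Q3 q) {x : OO A B} {n : ℤ} (h : q ∣ x - n) : q ∣ x ↔ (3 : ℤ) ∣ n := by
  rw [← hq.int]
  constructor
  · intro h'
    have := dvd_sub h' h
    rwa [sub_sub_cancel] at this
  · intro h'
    have := dvd_add h h'
    rwa [sub_add_cancel] at this

lemma wq_ne (hq : Q3 q) (x : OO A B) : wq q x ≠ 0 ↔ ¬ q ∣ x := by
  obtain ⟨n, hn⟩ := hq.rep x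
  rw [wq_eq hq hn, w3_ne, dvd_iff hq hn]

lemma wq_sq (hq : Q3 q) {x : OO A B} (h : ¬ q ∣ x) : wq q x ^ 2 = 1 := by
  obtain ⟨n, hn⟩ := hq.rep x
  rw [dvd_iff hq hn] at h
  rw [wq_eq hq hn, w3_sq h]

lemma cases (hq : Q3 q) {x : OO A B} (h : ¬ q ∣ x) :
    (q ∣ x - 1 ∧ wq q x = 1) ∨ (q ∣ x + 1 ∧ wq q x = -1) := by
  by_cases c1 : q ∣ x - 1
  · left
    refine ⟨c1, ?_⟩
    unfold wq
    rw [if_pos c1]
  · right
    obtain ⟨n, hn⟩ := hq.rep x
    have c1' : ¬ (3 : ℤ) ∣ n - 1 := by
      intro h3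
      apply c1
      have := dvd_add hn ((hq.int _).2 h3)
      have e : x - n + ((n - 1 : ℤ) : OO A B) = x - 1 := by
        push_cast
        ring
      rwa [e] at this
    rw [dvd_iff hq hn] at h
    have c2 : q ∣ x + 1 := by
      have h3 : (3 : ℤ) ∣ n + 1 := by omega
      have := dvd_add hn ((hq.int _).2 h3)
      have e : x - n + ((n + 1 : ℤ) : OO A B) = x + 1 := by
        push_cast
        ring
      rwa [e] at this
    refine ⟨c2, ?_⟩
    unfold wq
    rw [if_neg c1, if_pos c2]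

end q3

lemma p_mul (h : Case A B) : ppi A B * star (ppi A B) = 3 := by
  rw [Pool.Agent.MU3G.G_G6b.mul_star_self, nm_ppi h]
  norm_num

lemma Q3_of {q q' : OO A B} (hq : Prime q) (hqq : q * q' = 3)
    (hrep : ∀ x : OO A B, ∃ n : ℤ, q ∣ x - n) : Q3 q := by
  refine ⟨hrep, fun n => ?_⟩
  constructor
  · intro hd
    by_contra h3
    have hc : IsCoprime (3 : ℤ) n := by
      rw [Int.isCoprime_iff_gcd_eq_one]
      have := (Nat.Prime.coprime_iff_not_dvd Nat.prime_three (n := n.natAbs)).2
        (fun h' => h3 (Int.natCast_dvd.2 h'))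
      exact this
    obtain ⟨a, b, hab⟩ := hc
    apply hq.not_isUnit
    apply isUnit_of_dvd_one
    have e : (1 : OO A B) = (a : OO A B) * (q * q') + (b : OO A B) * n := by
      rw [hqq]
      have := congrArg (fun t : ℤ => (t : OO A B)) hab
      push_cast at this
      exact this.symm
    rw [e]
    exact dvd_add ((dvd_mul_right q q').mul_left _) (hd.mul_left _)
  · rintro ⟨m, rfl⟩
    have e : ((3 * m : ℤ) : OO A B) = q * (q' * m) := by
      push_cast
      rw [← hqq]
      ring
    rw [e]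
    exact dvd_mul_right _ _

lemma rep_p (x : OO A B) : ∃ n : ℤ, ppi A B ∣ x - n := by
  refine ⟨x.re + x.im * (B - 1), (x.im : OO A B), ?_⟩
  apply QuadraticAlgebra.ext
  · rw [QuadraticAlgebra.re_sub, QuadraticAlgebra.re_intCast, QuadraticAlgebra.re_mul,
      QuadraticAlgebra.re_intCast, QuadraticAlgebra.im_intCast]
    simp only [ppi, Int.cast_id]
    ring
  · rw [QuadraticAlgebra.im_sub, QuadraticAlgebra.im_intCast, QuadraticAlgebra.im_mul,
      QuadraticAlgebra.re_intCast, QuadraticAlgebra.im_intCast]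
    simp only [ppi, Int.cast_id]
    ring

lemma rep_pb (x : OO A B) : ∃ n : ℤ, star (ppi A B) ∣ x - n := by
  refine ⟨x.re + x.im, ((-x.im : ℤ) : OO A B), ?_⟩
  apply QuadraticAlgebra.ext
  · rw [QuadraticAlgebra.re_sub, QuadraticAlgebra.re_intCast, QuadraticAlgebra.re_mul,
      QuadraticAlgebra.re_intCast, QuadraticAlgebra.im_intCast]
    simp only [ppi, QuadraticAlgebra.re_star, QuadraticAlgebra.im_star, Int.cast_id]
    ring
  · rw [QuadraticAlgebra.im_sub, QuadraticAlgebra.im_intCast, QuadraticAlgebra.im_mul,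
      QuadraticAlgebra.re_intCast, QuadraticAlgebra.im_intCast]
    simp only [ppi, QuadraticAlgebra.re_star, QuadraticAlgebra.im_star, Int.cast_id]
    ring

lemma w3_nm {p : OO A B} (hp : Q3 p) (hpb : Q3 (star p)) (x : OO A B) :
    w3 (nm x) = wq p x * wq (star p) x := by
  obtain ⟨n, hn⟩ := hp.rep x
  obtain ⟨m, hm⟩ := hpb.rep x
  rw [wq_eq hp hn, wq_eq hpb hm, ← w3_mul]
  have h1 : p ∣ star x - m := by
    obtain ⟨c, hc⟩ := hm
    refine ⟨star c, ?_⟩
    have := congrArg star hc
    rw [star_sub, star_intCast, star_mul, star_star] at this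
    rw [this, mul_comm]
  have h2 : p ∣ ((nm x : ℤ) : OO A B) - ((n * m : ℤ) : OO A B) := by
    rw [← Pool.Agent.MU3G.G_G6b.mul_star_self]
    have e : x * star x - ((n * m : ℤ) : OO A B) = (x - n) * star x + n * (star x - m) := by
      push_cast
      ring
    rw [e]
    exact dvd_add (hn.mul_right _) (h1.mul_left _)
  have h3 : p ∣ ((nm x : ℤ) : OO A B) - ((nm x : ℤ) : OO A B) := by
    rw [sub_self]
    exact dvd_zero _
  rw [← wq_eq hp h2, ← wq_eq hp h3]

end I_IEPS

open I_IEPS in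
/-- IEPS. -/
theorem t_IEPS : St_IEPS := by
  intro A B hc f hf hf3 e0 r h1 hm1 hmul hper hsupp hpow
  obtain ⟨-, -, hpp, hpbp, hppb, -, -, -, -, -⟩ := Pool.Agent.MU3G.t_G0 A B hc
  set p := ppi A B with hpdef
  have hppm : p * star p = 3 := p_mul hc
  have q1 : Q3 p := Q3_of hpp hppm rep_p
  have q2 : Q3 (star p) := Q3_of hpbp (by rw [mul_comm]; exact hppm) rep_pb
  set F : OO A B := (f : OO A B) with hF
  have hF3 : IsCoprime F 3 := by
    have h2 : Nat.Coprime f 3 := ((Nat.Prime.coprime_iff_not_dvd Nat.prime_three).2 hf3).symm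
    have h3 : IsCoprime (f : ℤ) ((3 : ℕ) : ℤ) := Nat.isCoprime_iff_coprime.2 h2
    have h4 := h3.map (Int.castRingHom (OO A B))
    simpa using h4
  have hFp : IsCoprime F p := hF3.of_isCoprime_of_dvd_right ⟨star p, hppm.symm⟩
  have hgp : IsCoprime (F * star p) p := IsCoprime.mul_left hFp hppb.symm
  set g : OO A B := F * star p with hg
  have h3f : (((3 * f : ℕ)) : OO A B) = g * p := by
    rw [hg, hF, mul_assoc, mul_comm (star p) p, hppm]
    push_cast
    ring
  rw [h3f] at hper hsupp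
  obtain ⟨u, v, huv⟩ := hgp
  have hgp' : IsCoprime g p := ⟨u, v, huv⟩
  set T : OO A B → OO A B := fun x => x * (v * p) + u * g with hT
  have hT1 : T 1 = 1 := by
    rw [hT]
    linear_combination huv
  have Tg : ∀ x, T x = x + g * (u * (1 - x)) := by
    intro x
    rw [hT]
    linear_combination x * huv
  have Tp : ∀ x, T x = 1 + p * (v * (x - 1)) := by
    intro x
    rw [hT]
    linear_combination huv
  have Tcop : ∀ x, IsCoprime (T x) (g * p) ↔ IsCoprime x g := by
    intro x
    rw [IsCoprime.mul_right_iff]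
    have e1 : IsCoprime (T x) g ↔ IsCoprime x g := by
      rw [Tg x]
      exact IsCoprime.add_mul_left_left_iff
    have e2 : IsCoprime (T x) p := by
      rw [Tp x]
      exact IsCoprime.add_mul_left_left_iff.2 isCoprime_one_left
    rw [e1]
    exact ⟨fun h => h.1, fun h => ⟨h, e2⟩⟩
  have eper : ∀ x y, g ∣ x - y → e0 (T x) = e0 (T y) := by
    intro x y h
    apply hper
    obtain ⟨c, hc'⟩ := h
    refine ⟨c * v, ?_⟩
    rw [hT]
    linear_combination (v * p) * hc'
  have emul : ∀ x y, e0 (T (x * y)) = e0 (T x) * e0 (T y) := by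
    intro x y
    rw [← hmul]
    apply hper
    refine ⟨v * u * (x - 1) * (y - 1), ?_⟩
    rw [hT]
    linear_combination (-(x * y * (v * p)) - u * g) * huv
  have hesupp : ∀ x, e0 (T x) ≠ 0 ↔ IsCoprime x g := by
    intro x
    rw [hsupp, Tcop]
  have hη : e0 (T (-1)) ^ 2 = 1 := by
    rw [sq, ← emul, neg_one_mul, neg_neg, hT1, h1]
  have f1 : ∀ x, p ∣ x - 1 → e0 x = e0 (T x) := by
    intro x hx
    apply hper
    apply hgp'.mul_dvd
    · refine ⟨-(u * (1 - x)), ?_⟩
      rw [Tg x]
      ring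
    · obtain ⟨c, hc'⟩ := hx
      refine ⟨c - v * (x - 1), ?_⟩
      rw [Tp x]
      linear_combination hc'
  have f2 : ∀ x, p ∣ x + 1 → e0 x = e0 (T (-1)) * e0 (T x) := by
    intro x hx
    have e1 : e0 (-x) = e0 x := by
      rw [← neg_one_mul, hmul, hm1, one_mul]
    have e2 : p ∣ -x - 1 := by
      obtain ⟨c, hc'⟩ := hx
      exact ⟨-c, by linear_combination -hc'⟩
    rw [← e1, f1 _ e2, ← emul, neg_one_mul]
  have npx : ∀ x, IsCoprime x (g * p) → ¬ p ∣ x := by
    intro x hx hd
    have h2 : IsCoprime x p := (IsCoprime.mul_right_iff.1 hx).2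
    exact hpp.not_isUnit (h2.isUnit_of_dvd' hd dvd_rfl)
  have npbx : ∀ x, IsCoprime x g → ¬ star p ∣ x := by
    intro x hx hd
    exact hpbp.not_isUnit (hx.isUnit_of_dvd' hd (dvd_mul_left _ _))
  rcases mul_self_eq_one_iff.1 ((sq _).symm.trans hη) with hη1 | hη1
  · -- case `η = 1`
    refine ⟨fun x => e0 (T x) * (wq (star p) x : ℂ), -1, ?_, Or.inr rfl, ?_, ?_⟩
    · constructor
      · have : wq (star p) 1 = 1 := by
          unfold wq
          rw [if_pos (by rw [sub_self]; exact dvd_zero _)]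
        rw [this, hT1, h1]
        norm_num
      · intro x y
        rw [emul, wq_mul q2]
        push_cast
        ring
      · intro x y h
        have h2 : star p ∣ x - y := (dvd_mul_left _ _).trans h
        rw [eper x y h, wq_per q2 h2]
      · intro x
        rw [mul_ne_zero_iff, hesupp]
        constructor
        · exact fun h => h.1
        · intro h
          refine ⟨h, ?_⟩
          have := (wq_ne q2 x).2 (npbx x h)
          exact_mod_cast this
      · have : wq (star p) (-1) = -1 := by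
          have h2 : star p ∣ (-1 : OO A B) - ((-1 : ℤ) : OO A B) := by
            push_cast
            rw [sub_self]
            exact dvd_zero _
          rw [wq_eq q2 h2]
          decide
        rw [this, hη1]
        norm_num
    · intro x hx
      obtain ⟨hx1, hx2⟩ := mul_ne_zero_iff.1 hx
      have h2 : e0 (T x) ^ r = 1 := hpow _ hx1
      have h3 : (wq (star p) x : ℂ) ^ 2 = 1 := by
        have := wq_sq q2 (npbx x ((hesupp x).1 hx1))
        exact_mod_cast this
      rw [mul_pow, mul_comm 2 r, pow_mul, h2, one_pow, one_mul, mul_comm r 2, pow_mul, h3, one_pow]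
    · intro x hx
      rw [h3f] at hx
      have hxg : IsCoprime x g := (IsCoprime.mul_right_iff.1 hx).1
      have h3 : (wq (star p) x : ℂ) ^ 2 = 1 := by
        have := wq_sq q2 (npbx x hxg)
        exact_mod_cast this
      have h4 : e0 x = e0 (T x) := by
        rcases cases q1 (npx x hx) with ⟨h5, -⟩ | ⟨h5, -⟩
        · exact f1 x h5
        · rw [f2 x h5, hη1, one_mul]
      rw [if_neg (by norm_num), w3_nm q1 q2, h4]
      push_cast
      linear_combination (-(e0 (T x) * (wq p x : ℂ))) * h3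
  · -- case `η = -1`
    refine ⟨fun x => e0 (T x), 1, ?_, Or.inl rfl, ?_, ?_⟩
    · constructor
      · rw [hT1, h1]
      · exact emul
      · exact eper
      · exact hesupp
      · exact hη1
    · intro x hx
      have h2 : e0 (T x) ^ r = 1 := hpow _ hx
      rw [mul_comm 2 r, pow_mul, h2, one_pow]
    · intro x hx
      rw [h3f] at hx
      rw [if_pos rfl, mul_one]
      rcases cases q1 (npx x hx) with ⟨h5, h6⟩ | ⟨h5, h6⟩
      · rw [h6, f1 x h5]
        norm_num
      · rw [h6, f2 x h5, hη1]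
        push_cast
        ring

end

end Pool.Agent.MU3I
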