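import Pool.Agent.MU3.StI
import Pool.Agent.MU3.G_G0

/-!
# MU3, block I: (IFIN) finitely many characters
-/

set_option autoImplicit false

namespace Pool.Agent.MU3I

open _root_.MU3 Pool.Agent.MU3 Pool.Agent.MU3G

namespace IFIN

variable {A B : ℤ}

theorem dvd_nm (g : OO A B) : g ∣ ((nm g : ℤ) : OO A B) := by
  refine ⟨star g, ?_⟩
  have h := QuadraticAlgebra.algebraMap_norm_eq_mul_star g
  rw [← h, G0.nm_eq]
  rfl

theorem finite_vals (r : ℕ) (hr : 0 < r) : {z : ℂ | z = 0 ∨ z ^ r = 1}.Finite := by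
  have h : {z : ℂ | z = 0 ∨ z ^ r = 1} ⊆ {0} ∪ ((Polynomial.nthRoots r (1 : ℂ)).toFinset : Set ℂ) := by
    intro z hz
    rcases hz with hz | hz
    · exact Or.inl hz
    · refine Or.inr ?_
      rw [Finset.mem_coe, Multiset.mem_toFinset, Polynomial.mem_nthRoots hr]
      exact hz
  exact ((Set.finite_singleton 0).union (Finset.finite_toSet _)).subset h

end IFIN

open IFIN in
theorem t_IFIN : St_IFIN := by
  intro A B hC g hg r hr
  have hn := G0.nm_pos hC hg
  obtain ⟨n, hn'⟩ := Int.eq_ofNat_of_zero_le hn.le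
  have hn0 : 0 < n := by omega
  have hdvd : g ∣ ((n : ℤ) : OO A B) := by
    have h := dvd_nm g
    rwa [hn'] at h
  have hfin : {F : Fin n × Fin n → ℂ | ∀ p, F p ∈ {z : ℂ | z = 0 ∨ z ^ r = 1}}.Finite :=
    Set.Finite.pi' fun _ => finite_vals r hr
  refine Set.Finite.of_injOn (f := fun (e : OO A B → ℂ) (p : Fin n × Fin n) =>
    e ⟨((p.1 : ℕ) : ℤ), ((p.2 : ℕ) : ℤ)⟩) ?_ ?_ hfin
  · intro e he p
    by_cases h0 : e ⟨((p.1 : ℕ) : ℤ), ((p.2 : ℕ) : ℤ)⟩ = 0
    · exact Or.inl h0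
    · exact Or.inr (he.2 _ h0)
  · intro e he e' he' hee
    funext x
    set i : Fin n := ⟨(x.re % n).toNat, by
      have h1 := Int.emod_nonneg x.re (by omega : (n : ℤ) ≠ 0)
      have h2 := Int.emod_lt_of_pos x.re (by omega : (0 : ℤ) < n)
      omega⟩ with hi
    set j : Fin n := ⟨(x.im % n).toNat, by
      have h1 := Int.emod_nonneg x.im (by omega : (n : ℤ) ≠ 0)
      have h2 := Int.emod_lt_of_pos x.im (by omega : (0 : ℤ) < n)
      omega⟩ with hj
    set y : OO A B := ⟨((i : ℕ) : ℤ), ((j : ℕ) : ℤ)⟩ with hy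
    have hxy : g ∣ x - y := by
      refine hdvd.trans ⟨⟨x.re / n, x.im / n⟩, ?_⟩
      have h1 : (((i : ℕ) : ℤ)) = x.re % n :=
        Int.toNat_of_nonneg (Int.emod_nonneg x.re (by omega : (n : ℤ) ≠ 0))
      have h2 : (((j : ℕ) : ℤ)) = x.im % n :=
        Int.toNat_of_nonneg (Int.emod_nonneg x.im (by omega : (n : ℤ) ≠ 0))
      have h3 := Int.emod_add_mul_ediv x.re n
      have h4 := Int.emod_add_mul_ediv x.im n
      rw [hy, h1, h2]
      apply QuadraticAlgebra.ext
      · simp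
        linarith
      · simp
        linarith
    rw [he.1.per x y hxy, he'.1.per x y hxy]
    exact congrFun hee (i, j)

end Pool.Agent.MU3I
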