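import Pool.Agent.MU3.StI

/-!
# MU3, block I: module IHF (helper9)
-/

set_option autoImplicit false

namespace Pool.Agent.MU3I

open _root_.MU3 Pool.Agent.MU3 Pool.Agent.MU3A Pool.Agent.MU3B Pool.Agent.MU3C Pool.Agent.RI
  Pool.Agent.RID

noncomputable section

namespace IHF

theorem sq_mem (V : ValuationSubring ℂ) (t : ℂ) (h : t ^ 2 ∈ V) : t ∈ V := by
  rcases V.mem_or_inv_mem t with h1 | h1
  · exact h1
  · by_cases ht : t = 0
    · rw [ht]; exact V.zero_mem
    · have : t = t ^ 2 * t⁻¹ := by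
        field_simp
      rw [this]
      exact V.mul_mem _ _ h h1

theorem inv_mem (V : ValuationSubring ℂ) (v : ℂ) (h : v ∉ V.nonunits) : v⁻¹ ∈ V := by
  rw [ValuationSubring.mem_nonunits_iff, not_lt] at h
  rw [← ValuationSubring.valuation_le_one_iff, map_inv₀]
  have h0 : (0 : V.ValueGroup) < V.valuation v := lt_of_lt_of_le zero_lt_one h
  exact (inv_le_one₀ h0).2 h

theorem hf_mul (V : ValuationSubring ℂ) (v x : ℂ) (hv : v ∈ V) (hx : Hf V x) : Hf V (v * x) := by
  unfold Hf at *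
  have : (v * x) ^ 2 / 3 = v * v * (x ^ 2 / 3) := by ring
  rw [this]
  exact V.mul_mem _ _ (V.mul_mem _ _ hv hv) hx

end IHF

theorem t_IHF : St_IHF := by
  intro V
  refine ⟨?_, ?_, ?_, ?_⟩
  · unfold Hf
    have : (0 : ℂ) ^ 2 / 3 = 0 := by norm_num
    rw [this]
    exact V.zero_mem
  · intro x y hx hy
    unfold Hf at *
    have h1 : x * y / 3 ∈ V := by
      apply IHF.sq_mem
      have : (x * y / 3) ^ 2 = x ^ 2 / 3 * (y ^ 2 / 3) := by ring
      rw [this]
      exact V.mul_mem _ _ hx hy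
    have : (x + y) ^ 2 / 3 = x ^ 2 / 3 + y ^ 2 / 3 + (x * y / 3 + x * y / 3) := by ring
    rw [this]
    exact V.add_mem _ _ (V.add_mem _ _ hx hy) (V.add_mem _ _ h1 h1)
  · exact IHF.hf_mul V
  · intro v x hv hx
    have hv0 : v ≠ 0 := by
      intro h
      apply hv
      rw [h, ValuationSubring.mem_nonunits_iff, map_zero]
      exact zero_lt_one
    have h1 := IHF.hf_mul V v⁻¹ (v * x) (IHF.inv_mem V v hv) hx
    rwa [inv_mul_cancel_left₀ hv0] at h1

end

end Pool.Agent.MU3I
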