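import Pool.Agent.MU3.StI2

/-!
# MU3, block I, IK3F: a field of degree prime to 3 is contained in `TF L (3f)`
-/

set_option autoImplicit false

namespace Pool.Agent.MU3I

open _root_.MU3 Pool.Agent.MU3 Pool.Agent.MU3A Pool.Agent.MU3B Pool.Agent.MU3C Pool.Agent.RI
  Pool.Agent.RID

noncomputable section

namespace IK3F

variable {A B : ℤ} {L : PeriodPair} {Om : ℂ}

lemma mul_conj (x : OO A B) :
    x * ⟨x.re + B * x.im, -x.im⟩ = ((nm x : ℤ) : OO A B) := by
  apply QuadraticAlgebra.ext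
  · rw [QuadraticAlgebra.re_mul]
    simp only [QuadraticAlgebra.re_intCast, nm, Int.cast_id]
    ring
  · rw [QuadraticAlgebra.im_mul]
    simp only [QuadraticAlgebra.im_intCast, nm]
    ring

lemma mul_ne {x y : OO A B} (h : Case A B) (hx : x ≠ 0) (hy : y ≠ 0) : x * y ≠ 0 := by
  intro h0
  have h1 := congrArg emb h0
  rw [emb_mul h, emb_zero h] at h1
  exact mul_ne_zero (emb_ne_zero h hx) (emb_ne_zero h hy) h1

lemma nm_ne {x : OO A B} (h : Case A B) (hx : x ≠ 0) : nm x ≠ 0 := by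
  intro h0
  have h1 := mul_conj x
  rw [h0, Int.cast_zero] at h1
  refine mul_ne h hx ?_ h1
  intro h2
  have h3 := congrArg QuadraticAlgebra.re h2
  have h4 := congrArg QuadraticAlgebra.im h2
  simp only [QuadraticAlgebra.re_zero, QuadraticAlgebra.im_zero, neg_eq_zero] at h3 h4
  apply hx
  apply QuadraticAlgebra.ext
  · rw [h4] at h3
    simpa using h3
  · simpa using h4

lemma dvd_natAbs (x : OO A B) : x ∣ (((nm x).natAbs : ℕ) : OO A B) := by
  have h1 : x ∣ ((nm x : ℤ) : OO A B) := ⟨_, (mul_conj x).symm⟩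
  rcases Int.natAbs_eq (nm x) with h2 | h2
  · rw [h2, Int.cast_natCast] at h1
    exact h1
  · rw [h2, Int.cast_neg, Int.cast_natCast, dvd_neg] at h1
    exact h1

lemma natCast_ne (h : Case A B) {n : ℕ} (hn : n ≠ 0) : (n : OO A B) ≠ 0 := by
  intro h0
  have h1 := congrArg emb h0
  rw [emb_natCast h, emb_zero h] at h1
  exact hn (by exact_mod_cast h1)

lemma exists_level (h : Case A B) (T : TorA A B L Om) (K : IntermediateField ℚ ℂ)
    [FiniteDimensional ℚ K] (hK : ∀ x ∈ K, ∃ m : OO A B, m ≠ 0 ∧ x ∈ TF L m) :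
    ∃ M : OO A B, M ≠ 0 ∧ ∀ x ∈ K, x ∈ TF L M := by
  let b := Module.finBasis ℚ K
  choose m hm0 hm using fun i => hK (b i) (b i).2
  have hne : ∏ i, m i ≠ 0 := by
    intro h0
    have h1 := congrArg (embHom h) h0
    rw [map_prod, map_zero, Finset.prod_eq_zero_iff] at h1
    obtain ⟨i, -, hi⟩ := h1
    rw [embHom_apply] at hi
    exact emb_ne_zero h (hm0 i) hi
  refine ⟨∏ i, m i, hne, ?_⟩
  intro x hx
  have h1 : ((∑ i, b.repr ⟨x, hx⟩ i • b i : K) : ℂ) = x :=
    congrArg (Subtype.val) (b.sum_repr ⟨x, hx⟩)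
  have h2 : x = ∑ i, ((b.repr ⟨x, hx⟩ i : ℚ) : ℂ) * ((b i : K) : ℂ) := by
    refine h1.symm.trans ?_
    rw [AddSubmonoidClass.coe_finsetSum]
    refine Finset.sum_congr rfl fun i _ => ?_
    rw [IntermediateField.coe_smul, Rat.smul_def]
  rw [h2]
  refine sum_mem fun i _ => mul_mem (SubfieldClass.ratCast_mem _ _) ?_
  exact T.tower (m i) (∏ i, m i) hne (Finset.dvd_prod_of_mem _ (Finset.mem_univ i)) (hm i)

lemma act_one (h : Case A B) (m : OO A B) :
    Act L (em (1 : TF L m ≃ₐ[kk A B] TF L m)) m 1 := by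
  refine ⟨isCoprime_one_left, fun z hz hz' => ?_⟩
  rw [emb_one h, one_mul]
  exact ⟨hz', fun hx => rfl, fun hy => rfl⟩

lemma act_pow (h : Case A B) (T : TorA A B L Om) {m : OO A B} (hm : m ≠ 0)
    {σ : TF L m ≃ₐ[kk A B] TF L m} {x : OO A B} (hx : Act L (em σ) m x) (n : ℕ) :
    Act L (em (σ ^ n)) m (x ^ n) := by
  induction n with
  | zero => rw [pow_zero, pow_zero]; exact act_one h m
  | succ n ih =>
    rw [pow_succ, pow_succ]
    exact T.mul m hm _ _ _ _ ih hx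

lemma pow_three_dvd {R : Type*} [CommRing R] (f x : R) (hx : f * 3 ∣ x - 1) (i : ℕ) :
    f * 3 ^ (i + 1) ∣ x ^ 3 ^ i - 1 := by
  induction i with
  | zero => simpa using hx
  | succ i ih =>
    have h1 : x ^ 3 ^ (i + 1) - 1 =
        (x ^ 3 ^ i - 1) * ((x ^ 3 ^ i) ^ 2 + x ^ 3 ^ i + 1) := by
      rw [pow_succ 3 i, pow_mul]
      ring
    have h2 : (3 : R) ∣ (x ^ 3 ^ i) ^ 2 + x ^ 3 ^ i + 1 := by
      obtain ⟨c, hc⟩ := ih
      have h3 : x ^ 3 ^ i = 1 + 3 * (f * 3 ^ i * c) := by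
        linear_combination hc
      rw [h3]
      exact ⟨1 + 3 * (f * 3 ^ i * c) + 3 * (f * 3 ^ i * c) ^ 2, by ring⟩
    rw [h1, pow_succ 3 (i + 1), ← mul_assoc]
    exact mul_dvd_mul ih h2

lemma mem_of_pow_mem {G : Type*} [Group G] (S : Subgroup G) {a : G} {m n : ℕ}
    (hm : a ^ m ∈ S) (hn : a ^ n ∈ S) (hmn : Nat.Coprime m n) : a ∈ S := by
  have h1 : IsCoprime (m : ℤ) (n : ℤ) := Nat.isCoprime_iff_coprime.2 hmn
  obtain ⟨u, v, huv⟩ := h1
  have h2 : a = (a ^ m) ^ u * (a ^ n) ^ v := by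
    rw [← zpow_natCast, ← zpow_natCast, ← zpow_mul, ← zpow_mul, ← zpow_add]
    have h3 : (m : ℤ) * u + (n : ℤ) * v = 1 := by linear_combination huv
    rw [h3, zpow_one]
  rw [h2]
  exact S.mul_mem (S.zpow_mem hm u) (S.zpow_mem hn v)

end IK3F

open IK3F in
/-- a field of degree prime to 3 is contained in `TF L (3f)` -/
theorem t_IK3F : St_IK3F := by
  intro A B h L Om hL T d hd hd3 K _ hkK hK3 hK
  obtain ⟨M, hM0, hM⟩ := exists_level h T K hK
  obtain ⟨j, M', hM', hMj⟩ := Nat.exists_eq_pow_mul_and_not_dvd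
    (Int.natAbs_ne_zero.2 (nm_ne h hM0)) 3 (by norm_num)
  have hp3 : Nat.Prime 3 := Nat.prime_three
  have hM'0 : M' ≠ 0 := by
    rintro rfl
    exact hM' (dvd_zero 3)
  have hD : absD A B = 8 ∨ absD A B = 11 := by
    rcases h with ⟨rfl, rfl⟩ | ⟨rfl, rfl⟩
    · left; norm_num [absD]
    · right; norm_num [absD]
  have hD' : ∃ c : ℕ, (c : ℤ) = absD A B ∧ c ≠ 0 ∧ ¬ 3 ∣ c := by
    rcases hD with h1 | h1
    · exact ⟨8, by rw [h1]; rfl, by norm_num, by norm_num⟩
    · exact ⟨11, by rw [h1]; rfl, by norm_num, by norm_num⟩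
  obtain ⟨c, hD'⟩ := hD'
  set f : ℕ := 2 * c * d * M' with hf
  have hf0 : f ≠ 0 := by
    rw [hf]
    exact mul_ne_zero (mul_ne_zero (mul_ne_zero two_ne_zero hD'.2.1) hd) hM'0
  have hf3 : ¬ 3 ∣ f := by
    rw [hf, hp3.dvd_mul, hp3.dvd_mul, hp3.dvd_mul]
    push Not
    exact ⟨⟨⟨by norm_num, hD'.2.2⟩, hd3⟩, hM'⟩
  refine ⟨f, hf0, hf3, ⟨2 * c * M', by rw [hf]; ring⟩, ?_, ?_⟩
  · refine ⟨(d * M' : ℕ), ?_⟩
    rw [hf, ← hD'.1]
    push_cast
    ring
  -- the two levels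
  set m1 : OO A B := lev A B f j with hm1
  set m0 : OO A B := lev A B f 0 with hm0
  have hm1' : m1 ≠ 0 := natCast_ne h (mul_ne_zero hf0 (pow_ne_zero _ (by norm_num)))
  have hm0' : m0 ≠ 0 := natCast_ne h (mul_ne_zero hf0 (pow_ne_zero _ (by norm_num)))
  have h01 : m0 ∣ m1 := by
    refine Nat.cast_dvd_cast (mul_dvd_mul_left f (pow_dvd_pow 3 (by omega)))
  have hMm : M ∣ m1 := by
    refine (dvd_natAbs M).trans (Nat.cast_dvd_cast ?_)
    rw [hMj, hf]
    exact ⟨2 * c * d * 3, by ring⟩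
  have hK1 : ∀ x ∈ K, x ∈ TF L m1 := fun x hx => T.tower M m1 hm1' hMm (hM x hx)
  have hfin := T.fin m1 hm1'
  have hgal := T.gal m1 hm1'
  have h01' : TF L m0 ≤ TF L m1 := T.tower m0 m1 hm1' h01
  let K' : IntermediateField (kk A B) ℂ := IntermediateField.extendScalars hkK
  have hK' : K' ≤ TF L m1 := fun x hx => hK1 x hx
  let E : IntermediateField (kk A B) (TF L m1) := IntermediateField.restrict hK'
  let F0 : IntermediateField (kk A B) (TF L m1) := IntermediateField.restrict h01'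
  -- the group is commutative
  have hcomm : ∀ σ τ : TF L m1 ≃ₐ[kk A B] TF L m1, σ * τ = τ * σ := by
    intro σ τ
    obtain ⟨x, hx⟩ := T.act m1 hm1' σ
    obtain ⟨y, hy⟩ := T.act m1 hm1' τ
    have h1 := T.mul m1 hm1' _ _ _ _ hx hy
    have h2 := T.mul m1 hm1' _ _ _ _ hy hx
    rw [mul_comm y x] at h2
    exact T.inj m1 hm1' _ _ _ h1 h2
  have hnorm : E.fixingSubgroup.Normal := by
    constructor
    intro n hn g
    rw [hcomm g n, mul_assoc, mul_inv_cancel, mul_one]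
    exact hn
  -- the index is prime to 3
  have hidx : ¬ 3 ∣ E.fixingSubgroup.index := by
    rw [← IntermediateField.finrank_eq_fixingSubgroup_index,
      ← (IntermediateField.restrictAlgEquiv hK').toLinearEquiv.finrank_eq]
    have h1 := IntermediateField.finrank_bot_mul_relfinrank hkK
    rw [IntermediateField.relfinrank_eq_finrank_of_le hkK] at h1
    intro h2
    apply hK3
    rw [← h1]
    exact h2.mul_left _
  -- elements which are trivial on `TF L m0`
  have hkey : F0.fixingSubgroup ≤ E.fixingSubgroup := by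
    intro σ hσ
    rw [IntermediateField.mem_fixingSubgroup_iff] at hσ
    obtain ⟨x, hx⟩ := T.act m1 hm1' σ
    have h1 : Act L (em (1 : TF L m0 ≃ₐ[kk A B] TF L m0)) m0 x := by
      refine T.res m0 m1 hm1' h01 σ 1 x hx ?_
      intro y hy hy'
      have h2 := hσ ⟨y, hy'⟩ ((IntermediateField.mem_restrict h01' _).2 hy)
      rw [h2]
      rfl
    have h2 : m0 ∣ x - 1 := (T.per m0 hm0' 1 x 1 h1).1 (act_one h m0)
    have h3 : m1 ∣ x ^ 3 ^ j - 1 := by
      have h4 : (f : OO A B) * 3 ∣ x - 1 := by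
        rw [hm0, lev] at h2
        push_cast at h2
        simpa using h2
      have h5 := pow_three_dvd (f : OO A B) x h4 j
      rw [hm1, lev]
      push_cast
      exact h5
    have h4 : σ ^ 3 ^ j = 1 := by
      refine T.inj m1 hm1' _ _ 1 ?_ (act_one h m1)
      exact (T.per m1 hm1' (σ ^ 3 ^ j) _ 1 (act_pow h T hm1' hx (3 ^ j))).2 h3
    have h5 : σ ^ E.fixingSubgroup.index ∈ E.fixingSubgroup := Subgroup.pow_index_mem _ σ
    refine mem_of_pow_mem _ (m := 3 ^ j) (by rw [h4]; exact one_mem _) h5 ?_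
    exact Nat.Coprime.pow_left j ((Nat.Prime.coprime_iff_not_dvd hp3).2 hidx)
  have hEF : E ≤ F0 := by
    rw [← IsGalois.fixedField_fixingSubgroup F0, IntermediateField.le_iff_le]
    exact hkey
  intro x hx
  have h1 : (⟨x, hK1 x hx⟩ : TF L m1) ∈ F0 :=
    hEF ((IntermediateField.mem_restrict hK' _).2 hx)
  exact (IntermediateField.mem_restrict h01' _).1 h1

end

end Pool.Agent.MU3I
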