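import Pool.Agent.MU3.I_Aux

/-!
# MU3, module IMOD: the concrete action on torsion points is an `IsMod`
-/

set_option autoImplicit false

namespace Pool.Agent.MU3I

open _root_.MU3 Pool.Agent.MU3 Pool.Agent.MU3A Pool.Agent.MU3B Pool.Agent.MU3C Pool.Agent.RI
  Pool.Agent.RID

noncomputable section

lemma pm_congr {d a u v : ℤ} (h : d ∣ u - v ∨ d ∣ u + v) :
    (d ∣ a - u ∨ d ∣ a + u) ↔ (d ∣ a - v ∨ d ∣ a + v) := by
  rcases h with h | h
  · constructor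
    · rintro (h' | h')
      · left; have := dvd_add h' h; rwa [show a - u + (u - v) = a - v by ring] at this
      · right; have := dvd_sub h' h; rwa [show a + u - (u - v) = a + v by ring] at this
    · rintro (h' | h')
      · left; have := dvd_sub h' h; rwa [show a - v - (u - v) = a - u by ring] at this
      · right; have := dvd_add h' h; rwa [show a + v + (u - v) = a + u by ring] at this
  · constructor
    · rintro (h' | h')
      · right; have := dvd_add h' h; rwa [show a - u + (u + v) = a + v by ring] at this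
      · left; have := dvd_sub h' h; rwa [show a + u - (u + v) = a - v by ring] at this
    · rintro (h' | h')
      · right; have := dvd_add h' h; rwa [show a - v + (u + v) = a + u by ring] at this
      · left; have := dvd_sub h' h; rwa [show a + v - (u + v) = a - u by ring] at this

/-- membership in the set of `IMOD`, for a restriction map `r` -/
lemma mem_X {A B : ℤ} {L : PeriodPair} {Om : ℂ} (hT : TorA A B L Om) {m : OO A B} (hm : m ≠ 0)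
    {D : IntermediateField ℚ ℂ} (h : kk A B ≤ D) (hD : ∀ x ∈ D, x ∈ TF L m)
    (r : letI := algC h; (TF L m ≃ₐ[kk A B] TF L m) → (D ≃ₐ[kk A B] D))
    (hr : letI := algC h; ∀ (σ : TF L m ≃ₐ[kk A B] TF L m) (y : D),
      ((r σ y : D) : ℂ) = (σ ⟨y, hD y y.2⟩ : ℂ))
    (τ : letI := algC h; D ≃ₐ[kk A B] D) (x : OO A B) :
    Ideal.Quotient.mk (Ideal.span {m}) x ∈ XX L m h τ ↔
      ∃ σ : TF L m ≃ₐ[kk A B] TF L m, Act L (em σ) m x ∧ r σ = τ := by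
  letI := algC h
  have hq : m ∣ x - Quotient.out (Ideal.Quotient.mk (Ideal.span {m}) x) := by
    have h1 : Ideal.Quotient.mk (Ideal.span {m})
        (Quotient.out (Ideal.Quotient.mk (Ideal.span {m}) x)) =
        Ideal.Quotient.mk (Ideal.span {m}) x := Ideal.Quotient.mk_out _
    rw [eq_comm, Ideal.Quotient.mk_eq_mk_iff_sub_mem, Ideal.mem_span_singleton] at h1
    exact h1
  have hq' : m ∣ Quotient.out (Ideal.Quotient.mk (Ideal.span {m}) x) - x := by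
    rw [← dvd_neg, neg_sub]; exact hq
  constructor
  · rintro ⟨σ, h1, h2⟩
    refine ⟨σ, (hT.per m hm σ _ _ h1).2 hq', ?_⟩
    refine AlgEquiv.ext fun y => Subtype.ext ?_
    rw [hr]; exact h2 y (hD y y.2)
  · rintro ⟨σ, h1, rfl⟩
    exact ⟨σ, (hT.per m hm σ _ _ h1).2 hq, fun y hy => (hr σ y).symm⟩

theorem t_IMOD (hLay : St_ILAY) : St_IMOD := by
  intro A B hc L Om hL hT f hf h3 hCpl K _ hkK hKF n Bn hlay h hgal hD γ hγ ho hz hg
  letI := algC h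
  have hm : lev A B f n ≠ 0 := lev_ne hc hf
  have hm0 : lev A B f 0 ≠ 0 := lev_ne hc hf
  haveI := hT.fin _ hm
  haveI hgM := hT.gal _ hm
  obtain ⟨r, hr, hrs⟩ := exists_res h (TF L (lev A B f n)) hD hgal
  replace hrs := hrs hgM.to_normal
  have memX := fun τ x => mem_X hT hm h hD r hr τ x
  have tow : TF L (lev A B f 0) ≤ TF L (lev A B f n) := hT.tower _ _ hm lev_dvd
  obtain ⟨r0, hr0, -⟩ := exists_res' (TF L (lev A B f 0)) (TF L (lev A B f n)) tow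
    (hT.gal _ hm0)
  have res0 : ∀ (σ : TF L (lev A B f n) ≃ₐ[kk A B] TF L (lev A B f n)) (x : OO A B),
      Act L (em σ) (lev A B f n) x → Act L (em (r0 σ)) (lev A B f 0) x := fun σ x hx =>
    hT.res _ _ hm lev_dvd σ (r0 σ) x hx fun y hy hy' => (hr0 σ ⟨y, hy⟩).symm
  have one0 : Act L (em (1 : TF L (lev A B f 0) ≃ₐ[kk A B] TF L (lev A B f 0)))
      (lev A B f 0) 1 := act_one hc _
  have commM : ∀ σ τ : TF L (lev A B f n) ≃ₐ[kk A B] TF L (lev A B f n), σ * τ = τ * σ := by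
    intro σ τ
    obtain ⟨a, ha⟩ := hT.act _ hm σ
    obtain ⟨b, hb⟩ := hT.act _ hm τ
    refine hT.inj _ hm _ _ (a * b) (hT.mul _ hm _ _ _ _ ha hb) ?_
    rw [mul_comm a b]
    exact hT.mul _ hm _ _ _ _ hb ha
  have comm : ∀ σ τ : ↥(K ⊔ Bn) ≃ₐ[kk A B] ↥(K ⊔ Bn), σ * τ = τ * σ := by
    intro σ τ
    obtain ⟨σ, rfl⟩ := hrs σ
    obtain ⟨τ, rfl⟩ := hrs τ
    rw [← map_mul, commM, map_mul]
  -- the root of unity
  set M : ℕ := 3 ^ (n + 1) with hM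
  have hM0 : M ≠ 0 := pow_ne_zero _ (by norm_num)
  have hMc : ((M : ℕ) : ℤ) = 3 ^ (n + 1) := by rw [hM]; push_cast; ring
  have hB := hLay n Bn hlay
  have hzB : zt M + (zt M)⁻¹ ∈ Bn := by
    rw [hB]; exact IntermediateField.subset_adjoin ℚ _ (Set.mem_singleton _)
  have hzD : zt M + (zt M)⁻¹ ∈ K ⊔ Bn := (le_sup_right : Bn ≤ K ⊔ Bn) hzB
  obtain ⟨hzM, hzact⟩ := hT.zeta _ hm M pow_dvd_lev (zt M) (zt_prim M hM0).pow_eq_one
  have actz : ∀ (σ : TF L (lev A B f n) ≃ₐ[kk A B] TF L (lev A B f n)) (x : OO A B),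
      Act L (em σ) (lev A B f n) x →
      ((r σ ⟨_, hzD⟩ : ↥(K ⊔ Bn)) : ℂ) = zt M ^ (nm x).toNat + (zt M ^ (nm x).toNat)⁻¹ := by
    intro σ x hx
    rw [hr]
    have e : (⟨zt M + (zt M)⁻¹, hD _ hzD⟩ : TF L (lev A B f n)) = ⟨zt M, hzM⟩ + (⟨zt M, hzM⟩)⁻¹ :=
      rfl
    rw [e, map_add, map_inv₀]
    push_cast
    rw [hzact σ x hzM hx]
  -- powers of `γ`
  obtain ⟨σγ, hσγ⟩ := hrs γ
  obtain ⟨xγ, hxγ⟩ := hT.act _ hm σγ
  have nmγ : (3 : ℤ) ^ (n + 1) ∣ nm xγ - 4 ∨ (3 : ℤ) ^ (n + 1) ∣ nm xγ + 4 := by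
    have h1 := actz σγ xγ hxγ
    rw [hσγ, hz hzD] at h1
    have h2 := (zt_cmp M hM0 4 (nm xγ).toNat).1 h1
    rw [Int.toNat_of_nonneg (nm_nonneg' hc xγ), hMc] at h2
    rcases h2 with h2 | h2
    · left
      rw [← dvd_neg, neg_sub]; exact_mod_cast h2
    · right
      have h3 : nm xγ + 4 = ((4 : ℕ) : ℤ) + nm xγ := by push_cast; ring
      rw [h3]; exact h2
  have actpow : ∀ i : ℕ, Act L (em (σγ ^ i)) (lev A B f n) (xγ ^ i) := by
    intro i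
    induction i with
    | zero => simpa using act_one hc _
    | succ i ih => rw [pow_succ, pow_succ]; exact hT.mul _ hm _ _ _ _ ih hxγ
  have pown : ∀ i : ℕ, (3 : ℤ) ^ (n + 1) ∣ nm xγ ^ i - 4 ^ i ∨
      (3 : ℤ) ^ (n + 1) ∣ nm xγ ^ i + 4 ^ i := by
    intro i
    rcases nmγ with h1 | h1
    · exact Or.inl (h1.trans (sub_dvd_pow_sub_pow _ _ _))
    · have h2 : (3 : ℤ) ^ (n + 1) ∣ nm xγ ^ i - (-4) ^ i := by
        refine dvd_trans ?_ (sub_dvd_pow_sub_pow _ _ _)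
        rw [sub_neg_eq_add]; exact h1
      rcases Nat.even_or_odd i with h3 | h3
      · left; rwa [h3.neg_pow] at h2
      · right; rwa [h3.neg_pow, sub_neg_eq_add] at h2
  -- when does `τ (γ^i)⁻¹` fix the layer
  have fixB : ∀ σ τ : ↥(K ⊔ Bn) ≃ₐ[kk A B] ↥(K ⊔ Bn), (σ * τ⁻¹ ∈ NC h Bn ↔
      ((σ ⟨_, hzD⟩ : ↥(K ⊔ Bn)) : ℂ) = ((τ ⟨_, hzD⟩ : ↥(K ⊔ Bn)) : ℂ)) := by
    intro σ τ
    have e0 : ∀ y : ↥(K ⊔ Bn), (σ * τ⁻¹) y = y ↔ σ y = τ y := by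
      intro y
      rw [comm σ τ⁻¹, AlgEquiv.mul_apply]
      constructor
      · intro h1
        have h2 := congrArg τ h1
        rwa [← AlgEquiv.mul_apply, mul_inv_cancel, AlgEquiv.one_apply] at h2
      · intro h1
        rw [h1, ← AlgEquiv.mul_apply, inv_mul_cancel, AlgEquiv.one_apply]
    constructor
    · intro h1
      exact congrArg Subtype.val ((e0 _).1 (h1 ⟨_, hzD⟩ hzB))
    · intro h1 y hy
      rw [e0]
      -- both agree on `ℚ(ζ + ζ⁻¹)`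
      have hyB : (y : ℂ) ∈ IntermediateField.adjoin ℚ {zt M + (zt M)⁻¹} := by
        rw [← hB]; exact hy
      have key : ∀ (x : ℂ), x ∈ IntermediateField.adjoin ℚ {zt M + (zt M)⁻¹} →
          ∃ hx : x ∈ K ⊔ Bn, σ ⟨x, hx⟩ = τ ⟨x, hx⟩ := by
        intro x hx
        refine IntermediateField.adjoin_induction (F := ℚ)
          (p := fun x _ => ∃ hx : x ∈ K ⊔ Bn, σ ⟨x, hx⟩ = τ ⟨x, hx⟩) ?_ ?_ ?_ ?_ ?_ hx
        · intro x hx
          rw [Set.mem_singleton_iff] at hx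
          subst hx
          exact ⟨hzD, Subtype.ext h1⟩
        · intro q
          refine ⟨(K ⊔ Bn).algebraMap_mem q, ?_⟩
          have e : (⟨algebraMap ℚ ℂ q, (K ⊔ Bn).algebraMap_mem q⟩ : ↥(K ⊔ Bn)) =
              (q : ↥(K ⊔ Bn)) := Subtype.ext (by simp)
          rw [e, map_ratCast, map_ratCast]
        · rintro x y - - ⟨hx, h1⟩ ⟨hy, h2⟩
          refine ⟨add_mem hx hy, ?_⟩
          have e : (⟨x + y, add_mem hx hy⟩ : ↥(K ⊔ Bn)) = ⟨x, hx⟩ + ⟨y, hy⟩ := rfl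
          rw [e, map_add, map_add, h1, h2]
        · rintro x - ⟨hx, h1⟩
          refine ⟨inv_mem hx, ?_⟩
          have e : (⟨x⁻¹, inv_mem hx⟩ : ↥(K ⊔ Bn)) = (⟨x, hx⟩)⁻¹ := rfl
          rw [e, map_inv₀, map_inv₀, h1]
        · rintro x y - - ⟨hx, h1⟩ ⟨hy, h2⟩
          refine ⟨mul_mem hx hy, ?_⟩
          have e : (⟨x * y, mul_mem hx hy⟩ : ↥(K ⊔ Bn)) = ⟨x, hx⟩ * ⟨y, hy⟩ := rfl
          rw [e, map_mul, map_mul, h1, h2]
      obtain ⟨_, h2⟩ := key y hyB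
      exact h2
  have nrm : ∀ x τ, Ideal.Quotient.mk (Ideal.span {lev A B f n}) x ∈ XX L (lev A B f n) h τ →
      ∀ i : ℕ, (τ * (γ ^ i)⁻¹ ∈ NC h Bn ↔
        (3 : ℤ) ^ (n + 1) ∣ nm x - 4 ^ i ∨ (3 : ℤ) ^ (n + 1) ∣ nm x + 4 ^ i) := by
    intro x τ hx i
    obtain ⟨σ, hσ, rfl⟩ := (memX τ x).1 hx
    rw [fixB, ← hσγ, ← map_pow, actz σ x hσ, actz _ _ (actpow i), zt_cmp M hM0,
      Int.toNat_of_nonneg (nm_nonneg' hc _), Int.toNat_of_nonneg (nm_nonneg' hc _), hMc, nm_pow']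
    exact pm_congr (pown i)
  refine ⟨comm, ho, ?_, ?_, ?_, ?_, ?_, ?_, ?_, ?_, ?_, nrm⟩
  · -- gen
    intro τ
    obtain ⟨σ, hσ⟩ := hrs τ
    obtain ⟨x, hx⟩ := hT.act _ hm σ
    have h3x : IsCoprime x (3 : OO A B) := by
      refine IsCoprime.of_isCoprime_of_dvd_right hx.1 ?_
      refine dvd_trans ?_ (pow_dvd_lev (f := f) (n := n))
      push_cast
      exact dvd_pow_self _ (Nat.succ_ne_zero n)
    obtain ⟨i, hi⟩ := exists_pow4 n (nm x) (nm_coprime x h3x)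
    refine ⟨τ * (γ ^ i)⁻¹, (nrm x τ ((memX τ x).2 ⟨σ, hx, hσ⟩) i).2 hi, i, ?_⟩
    rw [inv_mul_cancel_right]
  · exact (memX 1 1).2 ⟨1, act_one hc _, map_one r⟩
  · intro τ x hx
    obtain ⟨σ, hσ, -⟩ := (memX τ x).1 hx
    exact hσ.1
  · intro x hx
    by_cases h1 : ∃ σ : TF L (lev A B f n) ≃ₐ[kk A B] TF L (lev A B f n),
        Act L (em σ) (lev A B f n) x
    · obtain ⟨σ, hσ⟩ := h1
      exact Or.inl ⟨r σ, (memX _ x).2 ⟨σ, hσ, rfl⟩⟩
    · have h2 : ∃ σ : TF L (lev A B f n) ≃ₐ[kk A B] TF L (lev A B f n),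
          Act L (em σ) (lev A B f n) (-x) := by
        by_contra h3'
        exact h1 ((hCpl n x hx).2 h3')
      obtain ⟨σ, hσ⟩ := h2
      exact Or.inr ⟨r σ, (memX _ (-x)).2 ⟨σ, hσ, rfl⟩⟩
  · intro x τ τ' h1 h2
    obtain ⟨σ, hσ, rfl⟩ := (memX τ x).1 h1
    obtain ⟨σ', hσ', rfl⟩ := (memX τ' x).1 h2
    rw [hT.inj _ hm _ _ _ hσ hσ']
  · intro x y τ τ' h1 h2
    obtain ⟨σ, hσ, rfl⟩ := (memX τ x).1 h1
    obtain ⟨σ', hσ', rfl⟩ := (memX τ' y).1 h2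
    exact (memX _ _).2 ⟨σ * σ', hT.mul _ hm _ _ _ _ hσ hσ', map_mul _ _ _⟩
  · intro x y τ hxy hx
    obtain ⟨σ, hσ, rfl⟩ := (memX τ x).1 hx
    exact (memX _ _).2 ⟨σ, (hT.per _ hm σ _ _ hσ).2 hxy, rfl⟩
  · intro x τ hx hdvd
    obtain ⟨σ, hσ, rfl⟩ := (memX τ x).1 hx
    have h1 := res0 σ x hσ
    have h2 : Act L (em (r0 σ)) (lev A B f 0) (-1) := (hT.per _ hm0 _ _ _ h1).2 (by
      rw [sub_neg_eq_add, lev_zero]; exact hdvd)
    exact (hCpl 0 1 isCoprime_one_left).1 ⟨1, one0⟩ ⟨_, h2⟩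
  · intro x τ hx hdvd
    obtain ⟨σ, hσ, rfl⟩ := (memX τ x).1 hx
    have h1 := res0 σ x hσ
    have h2 : Act L (em (r0 σ)) (lev A B f 0) 1 := (hT.per _ hm0 _ _ _ h1).2 (by
      rw [lev_zero]; exact hdvd)
    have h4 := hT.inj _ hm0 _ _ _ h2 one0
    refine hg _ fun y hy => Subtype.ext ?_
    rw [hr]
    have h5 := hr0 σ ⟨y, hKF y hy⟩
    rw [h4] at h5
    exact h5.symm

end

end Pool.Agent.MU3I
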