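import Pool.Agent.MU3.StI
import Pool.Agent.MU3.G_G0

/-!
# MU3, block I: module ITH, the sums `T̂_i`
-/

set_option autoImplicit false

namespace Pool.Agent.MU3I

open _root_.MU3 Pool.Agent.MU3 Pool.Agent.MU3A Pool.Agent.MU3B Pool.Agent.MU3C Pool.Agent.RI
  Pool.Agent.RID

noncomputable section

namespace ITH

variable {A B : ℤ}

lemma natCast_re (n : ℕ) : ((n : ℕ) : OO A B).re = n := by simp

lemma natCast_im (n : ℕ) : ((n : ℕ) : OO A B).im = 0 := by simp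

lemma nat_dvd_iff (n : ℕ) (x : OO A B) :
    ((n : ℕ) : OO A B) ∣ x ↔ (n : ℤ) ∣ x.re ∧ (n : ℤ) ∣ x.im := by
  constructor
  · rintro ⟨t, rfl⟩
    refine ⟨⟨t.re, ?_⟩, ⟨t.im, ?_⟩⟩
    · rw [QuadraticAlgebra.re_mul]; simp
    · rw [QuadraticAlgebra.im_mul]; simp
  · rintro ⟨⟨s, hs⟩, ⟨t, ht⟩⟩
    refine ⟨⟨s, t⟩, ?_⟩
    apply QuadraticAlgebra.ext
    · rw [QuadraticAlgebra.re_mul]; simp [hs]
    · rw [QuadraticAlgebra.im_mul]; simp [ht]

lemma out_dvd (m x : OO A B) :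
    m ∣ Quotient.out (Ideal.Quotient.mk (Ideal.span {m}) x) - x := by
  rw [← Ideal.mem_span_singleton, ← Ideal.Quotient.eq]
  exact Ideal.Quotient.mk_out _

lemma mk_eq_iff (m x y : OO A B) :
    Ideal.Quotient.mk (Ideal.span {m}) x = Ideal.Quotient.mk (Ideal.span {m}) y ↔ m ∣ x - y := by
  rw [Ideal.Quotient.eq, Ideal.mem_span_singleton]

lemma finR (n : ℕ) (hn : n ≠ 0) : Finite (OO A B ⧸ Ideal.span {((n : ℕ) : OO A B)}) := by
  have : NeZero n := ⟨hn⟩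
  refine Finite.of_injective (fun q : OO A B ⧸ Ideal.span {((n : ℕ) : OO A B)} =>
    (((Quotient.out q).re : ZMod n), ((Quotient.out q).im : ZMod n))) ?_
  intro q q' h
  simp only [Prod.mk.injEq] at h
  rw [← Ideal.Quotient.mk_out q, ← Ideal.Quotient.mk_out q', mk_eq_iff, nat_dvd_iff]
  refine ⟨?_, ?_⟩
  · rw [QuadraticAlgebra.re_sub, ← ZMod.intCast_zmod_eq_zero_iff_dvd, Int.cast_sub, sub_eq_zero]
    exact h.1
  · rw [QuadraticAlgebra.im_sub, ← ZMod.intCast_zmod_eq_zero_iff_dvd, Int.cast_sub, sub_eq_zero]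
    exact h.2

/-- periodic functions -/
def Per (m : OO A B) (F : OO A B → ℂ) : Prop := ∀ x y, m ∣ x - y → F x = F y

lemma sumMod_mul {m a : OO A B} (ha : IsCoprime a m) {F : OO A B → ℂ} (hF : Per m F) :
    sumMod m (fun x => F (a * x)) = sumMod m F := by
  obtain ⟨u, v, huv⟩ := ha
  have h1 : Ideal.Quotient.mk (Ideal.span {m}) a * Ideal.Quotient.mk (Ideal.span {m}) u = 1 := by
    rw [← map_mul, ← map_one (Ideal.Quotient.mk (Ideal.span {m})), mk_eq_iff]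
    exact ⟨-v, by linear_combination huv⟩
  let e : (OO A B ⧸ Ideal.span {m}) ≃ (OO A B ⧸ Ideal.span {m}) :=
    (Units.mkOfMulEqOne _ _ h1).mulLeft
  unfold sumMod
  rw [← finsum_comp_equiv (f := fun q : OO A B ⧸ Ideal.span {m} => F (Quotient.out q)) e]
  refine finsum_congr fun q => ?_
  refine hF _ _ ?_
  rw [← mk_eq_iff, map_mul, Ideal.Quotient.mk_out]
  have h2 : Ideal.Quotient.mk (Ideal.span {m}) (Quotient.out (e q)) = e q :=
    Ideal.Quotient.mk_out _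
  rw [h2]
  have h3 : Ideal.Quotient.mk (Ideal.span {m}) (Quotient.out q) = q := Ideal.Quotient.mk_out _
  rfl

section

variable {f n : ℕ} {G : Type} [Group G] {γ : G} {Δ : Subgroup G} {X : G → Set (OO A B)}

lemma X_pow (hM : IsMod f n γ Δ X) {x : OO A B} {τ : G} (hx : x ∈ X τ) (k : ℕ) :
    x ^ k ∈ X (τ ^ k) := by
  induction k with
  | zero => simpa using hM.one
  | succ k ih => rw [pow_succ, pow_succ]; exact hM.mul _ _ _ _ ih hx

lemma lev_ne (hf : f ≠ 0) : f * 3 ^ (n + 1) ≠ 0 := mul_ne_zero hf (by positivity)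

lemma finL (hf : f ≠ 0) : Finite (OO A B ⧸ Ideal.span {lev A B f n}) := finR _ (lev_ne hf)

lemma pow_one_mod (hf : f ≠ 0) {x : OO A B} (hx : IsCoprime x (lev A B f n)) :
    ∃ k : ℕ, lev A B f n ∣ x ^ (k + 1) - 1 := by
  have := finL (A := A) (B := B) (n := n) hf
  obtain ⟨u, v, huv⟩ := hx
  have h1 : Ideal.Quotient.mk (Ideal.span {lev A B f n}) x *
      Ideal.Quotient.mk (Ideal.span {lev A B f n}) u = 1 := by
    rw [← map_mul, ← map_one (Ideal.Quotient.mk (Ideal.span {lev A B f n})), mk_eq_iff]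
    exact ⟨-v, by linear_combination huv⟩
  let e := Units.mkOfMulEqOne _ _ h1
  have h2 : e ^ orderOf e = 1 := pow_orderOf_eq_one e
  have h3 : 0 < orderOf e := orderOf_pos e
  refine ⟨orderOf e - 1, ?_⟩
  rw [Nat.sub_add_cancel h3, ← mk_eq_iff, map_pow, map_one]
  exact congrArg Units.val h2

lemma not_both (hf : f ≠ 0) (hM : IsMod f n γ Δ X) {x : OO A B} {τ τ' : G} (h1 : x ∈ X τ)
    (h2 : -x ∈ X τ') : False := by
  obtain ⟨k, hk⟩ := pow_one_mod hf (hM.cop τ x h1)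
  have h3 := hM.mul _ _ _ _ h2 (X_pow hM h1 k)
  have h4 : -x * x ^ k = -x ^ (k + 1) := by ring
  rw [h4] at h3
  have h5 := hM.per _ (-1) _ (by
    rw [show -x ^ (k + 1) - -1 = -(x ^ (k + 1) - 1) by ring]
    exact (dvd_neg).2 hk) h3
  exact hM.neg _ _ h5 (by rw [neg_add_cancel]; exact dvd_zero _)

/-- the condition on the norm -/
def Ci (n i : ℕ) (x : OO A B) : Prop :=
  (3 : ℤ) ^ (n + 1) ∣ nm x - 4 ^ i ∨ (3 : ℤ) ^ (n + 1) ∣ nm x + 4 ^ i

lemma mem_iff (hM : IsMod f n γ Δ X) (x : OO A B) (i : ℕ) :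
    (∃ δ : Δ, x ∈ X (γ ^ i * (δ : G))) ↔ (∃ τ, x ∈ X τ) ∧ Ci n i x := by
  constructor
  · rintro ⟨δ, hδ⟩
    refine ⟨⟨_, hδ⟩, ?_⟩
    have h1 := (hM.nrm x _ hδ i).1 (by
      rw [hM.comm (γ ^ i) δ, mul_inv_cancel_right]; exact δ.2)
    exact h1
  · rintro ⟨⟨τ, hτ⟩, hC⟩
    have h1 := (hM.nrm x τ hτ i).2 hC
    refine ⟨⟨_, h1⟩, ?_⟩
    have h2 : γ ^ i * (τ * (γ ^ i)⁻¹) = τ := by
      rw [hM.comm (γ ^ i), inv_mul_cancel_right]
    rw [h2]
    exact hτ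

lemma per_P (hM : IsMod f n γ Δ X) {x y : OO A B} (h : lev A B f n ∣ x - y) :
    (∃ τ, x ∈ X τ) ↔ ∃ τ, y ∈ X τ := by
  constructor
  · rintro ⟨τ, hτ⟩
    exact ⟨τ, hM.per x y τ h hτ⟩
  · rintro ⟨τ, hτ⟩
    exact ⟨τ, hM.per y x τ (by rw [← neg_sub]; exact dvd_neg.2 h) hτ⟩

end

lemma nm_neg (x : OO A B) : nm (-x) = nm x := by
  unfold nm
  rw [QuadraticAlgebra.re_neg, QuadraticAlgebra.im_neg]
  ring

lemma nm_per (N : ℕ) {x y : OO A B} (h : ((N : ℕ) : OO A B) ∣ x - y) :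
    (N : ℤ) ∣ nm x - nm y := by
  rw [nat_dvd_iff, QuadraticAlgebra.re_sub, QuadraticAlgebra.im_sub] at h
  obtain ⟨⟨s, hs⟩, ⟨t, ht⟩⟩ := h
  have h1 : x.re = y.re + N * s := by linarith
  have h2 : x.im = y.im + N * t := by linarith
  refine ⟨2 * y.re * s + N * s ^ 2 + B * (y.re * t + s * y.im + N * s * t) -
    A * (2 * y.im * t + N * t ^ 2), ?_⟩
  unfold nm
  rw [h1, h2]
  ring

lemma nm_per_lev {f n : ℕ} {x y : OO A B} (h : lev A B f n ∣ x - y) :
    (3 : ℤ) ^ (n + 1) ∣ nm x - nm y := by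
  refine dvd_trans ?_ (nm_per (f * 3 ^ (n + 1)) h)
  exact ⟨f, by push_cast; ring⟩

lemma dvd_nm_per {f n : ℕ} {x y : OO A B} (h : lev A B f n ∣ x - y) (c : ℤ) :
    (3 : ℤ) ^ (n + 1) ∣ nm x - c ↔ (3 : ℤ) ^ (n + 1) ∣ nm y - c := by
  have h1 := nm_per_lev h
  constructor
  · intro h2
    have := dvd_sub h2 h1
    rwa [sub_sub_sub_cancel_left, show nm y - c = nm y - c from rfl] at this
  · intro h2
    have := dvd_add h1 h2
    rwa [sub_add_sub_cancel] at this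

lemma wq_one {p x : OO A B} (h : p ∣ x - 1) : wq p x = 1 := if_pos h

lemma wq_neg_one {p x : OO A B} (h : ¬ p ∣ x - 1) (h' : p ∣ x + 1) : wq p x = -1 := by
  unfold wq
  rw [if_neg h, if_pos h']

lemma wq_zero {p x : OO A B} (h : ¬ p ∣ x - 1) (h' : ¬ p ∣ x + 1) : wq p x = 0 := by
  unfold wq
  rw [if_neg h, if_neg h']

lemma wq_per {p m : OO A B} (hp : p ∣ m) {x y : OO A B} (h : m ∣ x - y) : wq p x = wq p y := by
  have h1 : p ∣ x - y := hp.trans h
  have h2 : p ∣ x - 1 ↔ p ∣ y - 1 := by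
    constructor
    · intro h3
      have := dvd_sub h3 h1
      rwa [sub_sub_sub_cancel_left] at this
    · intro h3
      have := dvd_add h1 h3
      rwa [sub_add_sub_cancel] at this
  have h3 : p ∣ x + 1 ↔ p ∣ y + 1 := by
    constructor
    · intro h3
      have := dvd_sub h3 h1
      rwa [show x + 1 - (x - y) = y + 1 by ring] at this
    · intro h3
      have := dvd_add h1 h3
      rwa [show x - y + (y + 1) = x + 1 by ring] at this
  by_cases h4 : p ∣ x - 1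
  · rw [wq_one h4, wq_one (h2.1 h4)]
  · by_cases h5 : p ∣ x + 1
    · rw [wq_neg_one h4 h5, wq_neg_one (fun h6 => h4 (h2.2 h6)) (h3.1 h5)]
    · rw [wq_zero h4 h5, wq_zero (fun h6 => h4 (h2.2 h6)) (fun h6 => h5 (h3.2 h6))]

lemma wq_neg {p : OO A B} (hp : ¬ p ∣ 2) (x : OO A B) : wq p (-x) = -wq p x := by
  have h1 : p ∣ -x - 1 ↔ p ∣ x + 1 := by
    rw [show -x - 1 = -(x + 1) by ring, dvd_neg]
  have h2 : p ∣ -x + 1 ↔ p ∣ x - 1 := by
    rw [show -x + 1 = -(x - 1) by ring, dvd_neg]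
  by_cases h3 : p ∣ x - 1
  · by_cases h4 : p ∣ x + 1
    · exact absurd (by have := dvd_sub h4 h3; rwa [show x + 1 - (x - 1) = 2 by ring] at this) hp
    · rw [wq_one h3, wq_neg_one (fun h5 => h4 (h1.1 h5)) (h2.2 h3)]
  · by_cases h4 : p ∣ x + 1
    · rw [wq_neg_one h3 h4, wq_one (h1.2 h4), neg_neg]
    · rw [wq_zero h3 h4, wq_zero (fun h5 => h4 (h1.1 h5)) (fun h5 => h3 (h2.1 h5)), neg_zero]

/-! ### The prime `π` -/

lemma pi_mul (h : Case A B) : ppi A B * star (ppi A B) = 3 := by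
  rcases h with ⟨rfl, rfl⟩ | ⟨rfl, rfl⟩
  · apply QuadraticAlgebra.ext
    · simp [ppi]
      exact (natCast_re 3).symm
    · simp [ppi]
      exact (natCast_im 3).symm
  · apply QuadraticAlgebra.ext
    · simp [ppi]
      exact (natCast_re 3).symm
    · simp [ppi]
      exact (natCast_im 3).symm

lemma pi_dvd_three (h : Case A B) : ppi A B ∣ 3 := ⟨_, (pi_mul h).symm⟩

lemma pis_dvd_three (h : Case A B) : star (ppi A B) ∣ 3 :=
  ⟨ppi A B, by rw [mul_comm]; exact (pi_mul h).symm⟩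

lemma three_dvd_lev (f n : ℕ) : (3 : OO A B) ∣ lev A B f n := by
  refine ⟨((f * 3 ^ n : ℕ) : OO A B), ?_⟩
  unfold lev
  push_cast
  ring

lemma f_dvd_lev (f n : ℕ) : ((3 * f : ℕ) : OO A B) ∣ lev A B f n := by
  refine ⟨((3 ^ n : ℕ) : OO A B), ?_⟩
  unfold lev
  push_cast
  ring

lemma g_dvd_lev (h : Case A B) (f n : ℕ) : (f : OO A B) * star (ppi A B) ∣ lev A B f n := by
  refine dvd_trans ?_ (f_dvd_lev f n)
  refine ⟨ppi A B, ?_⟩
  push_cast
  linear_combination (-(f : OO A B)) * pi_mul h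

lemma not_pi_dvd_two (h : Case A B) : ¬ ppi A B ∣ 2 := by
  rintro ⟨t, ht⟩
  have h1 := congrArg nm ht
  rw [Pool.Agent.MU3G.G0.nm_mul, nm_ppi h] at h1
  have h2 : nm (2 : OO A B) = 4 := by
    have e1 : (2 : OO A B).re = 2 := natCast_re 2
    have e2 : (2 : OO A B).im = 0 := natCast_im 2
    unfold nm
    rw [e1, e2]
    norm_num
  rw [h2] at h1
  omega

/-! ### Periodicity -/

lemma emb_lev_ne (h : Case A B) {f : ℕ} (hf : f ≠ 0) (n : ℕ) : lev A B f n ≠ 0 := by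
  intro h0
  have h1 := congrArg emb h0
  unfold lev at h1
  rw [emb_natCast h, emb_zero h] at h1
  exact lev_ne (n := n) hf (by exact_mod_cast h1)

lemma ee_per (hP : St_PER) (h : Case A B) {L : PeriodPair} {Om : ℂ} (hL : IsLat A B L Om)
    {m : OO A B} (hm : m ≠ 0) {x y : OO A B} (hxy : m ∣ x - y) :
    ee L (emb x * (Om / emb m)) = ee L (emb y * (Om / emb m)) := by
  have h1 := (hL.mul_div_mem_iff h hm (x - y)).2 hxy
  have h2 := (hP L).1 (emb y * (Om / emb m)) _ h1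
  rw [← h2]
  congr 1
  rw [emb_sub h]
  ring

/-- `1 + 6 f` in `O` -/
def aO (A B : ℤ) (f : ℕ) : OO A B := ((1 + 6 * f : ℕ) : OO A B)

lemma emb_aO (h : Case A B) (f : ℕ) : emb (aO A B f) = 1 + 6 * (f : ℂ) := by
  unfold aO
  rw [emb_natCast h]
  push_cast
  ring

lemma dlT_eq (h : Case A B) (L : PeriodPair) (f : ℕ) (x : OO A B) (u : ℂ) :
    dlT L f (emb x * u) = (1 + 6 * (f : ℂ)) * ee L (emb (aO A B f * x) * u) -
      (1 + 6 * (f : ℂ)) ^ 2 * ee L (emb x * u) := by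
  unfold dlT
  rw [emb_mul h, emb_aO h, mul_assoc (1 + 6 * (f : ℂ)) (emb x) u]

lemma dlT_per (hP : St_PER) (h : Case A B) {L : PeriodPair} {Om : ℂ} (hL : IsLat A B L Om)
    {m : OO A B} (hm : m ≠ 0) (f : ℕ) {x y : OO A B} (hxy : m ∣ x - y) :
    dlT L f (emb x * (Om / emb m)) = dlT L f (emb y * (Om / emb m)) := by
  rw [dlT_eq h, dlT_eq h, ee_per hP h hL hm hxy,
    ee_per hP h hL hm (x := aO A B f * x) (y := aO A B f * y)
      (by rw [← mul_sub]; exact hxy.mul_left _)]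

lemma dlT_neg (hP : St_PER) (L : PeriodPair) (f : ℕ) (z : ℂ) : dlT L f (-z) = -dlT L f z := by
  unfold dlT
  rw [mul_neg, (hP L).2, (hP L).2]
  ring

lemma FF_per (hP : St_PER) (h : Case A B) {L : PeriodPair} {Om : ℂ} (hL : IsLat A B L Om)
    {f n : ℕ} (hf : f ≠ 0) : Per (lev A B f n) (FF L Om f n) := by
  intro x y hxy
  unfold FF
  rw [wq_per ((pi_dvd_three h).trans (three_dvd_lev f n)) hxy,
    dlT_per hP h hL (emb_lev_ne h hf n) f hxy]

lemma FF_neg (hP : St_PER) (h : Case A B) (L : PeriodPair) (Om : ℂ) (f n : ℕ) (x : OO A B) :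
    FF L Om f n (-x) = FF L Om f n x := by
  unfold FF
  rw [wq_neg (not_pi_dvd_two h), emb_neg h, neg_mul, dlT_neg hP]
  push_cast
  ring

/-! ### Sums over the classes -/

section

variable {f n : ℕ}

lemma sumMod_add (hf : f ≠ 0) (F F' : OO A B → ℂ) :
    sumMod (lev A B f n) (fun x => F x + F' x) =
      sumMod (lev A B f n) F + sumMod (lev A B f n) F' := by
  have := finL (A := A) (B := B) (n := n) hf
  unfold sumMod
  exact finsum_add_distrib (Set.toFinite _) (Set.toFinite _)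

lemma sumMod_cmul (hf : f ≠ 0) (c : ℂ) (F : OO A B → ℂ) :
    sumMod (lev A B f n) (fun x => c * F x) = c * sumMod (lev A B f n) F := by
  have := finL (A := A) (B := B) (n := n) hf
  unfold sumMod
  exact (mul_finsum _ _).symm

lemma sumMod_sum (hf : f ≠ 0) {ι : Type} (s : Finset ι) (F : ι → OO A B → ℂ) :
    sumMod (lev A B f n) (fun x => ∑ i ∈ s, F i x) = ∑ i ∈ s, sumMod (lev A B f n) (F i) := by
  classical
  induction s using Finset.induction_on with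
  | empty => simp [sumMod]
  | insert a s ha ih =>
    rw [Finset.sum_insert ha, ← ih, ← sumMod_add hf]
    congr 1
    funext x
    exact Finset.sum_insert ha

end

lemma cop_int (f n : ℕ) : IsCoprime ((1 + 6 * f : ℕ) : ℤ) ((f * 3 ^ (n + 1) : ℕ) : ℤ) := by
  rw [Nat.isCoprime_iff_coprime]
  refine Nat.Coprime.mul_right ?_ (Nat.Coprime.pow_right _ ?_)
  · rw [Nat.coprime_add_mul_right_left]
    exact Nat.coprime_one_left f
  · have h1 : 1 + 6 * f = 1 + (2 * f) * 3 := by ring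
    rw [h1, Nat.coprime_add_mul_right_left]
    exact Nat.coprime_one_left 3

lemma cop_aO (f n : ℕ) : IsCoprime (aO A B f) (lev A B f n) := by
  have h1 := (cop_int f n).map (Int.castRingHom (OO A B))
  unfold aO lev
  simpa using h1

lemma cop_sq (f n : ℕ) : IsCoprime ((3 : ℤ) ^ (n + 1)) ((1 + 6 * (f : ℤ)) ^ 2) := by
  have h0 : (3 : ℤ) ^ (n + 1) ∣ ((f * 3 ^ (n + 1) : ℕ) : ℤ) := ⟨f, by push_cast; ring⟩
  have h1 := (cop_int f n).of_isCoprime_of_dvd_right h0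
  push_cast at h1
  exact h1.symm.pow_right

lemma dvd_sq_iff (f n : ℕ) (y c : ℤ) :
    (3 : ℤ) ^ (n + 1) ∣ (1 + 6 * (f : ℤ)) ^ 2 * y - (1 + 6 * (f : ℤ)) ^ 2 * c ↔
      (3 : ℤ) ^ (n + 1) ∣ y - c := by
  rw [← mul_sub]
  exact ⟨fun h => (cop_sq f n).dvd_of_dvd_mul_left h, fun h => h.mul_left _⟩

lemma nm_aO (f : ℕ) : nm (aO A B f) = (1 + 6 * (f : ℤ)) ^ 2 := by
  unfold nm aO
  rw [natCast_re, natCast_im]
  push_cast
  ring

section

variable {L : PeriodPair} {Om : ℂ} {f n : ℕ} {e : OO A B → ℂ}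

lemma e_aO (h : Case A B) (he : IsEps ((f : OO A B) * star (ppi A B)) e) (x : OO A B) :
    e (aO A B f * x) = e x := by
  rw [he.mul, he.per (aO A B f) 1, he.one, one_mul]
  refine ⟨2 * ppi A B, ?_⟩
  unfold aO
  push_cast
  linear_combination (-2 * (f : OO A B)) * pi_mul h

/-- the summand of `Sn` -/
def F0 (L : PeriodPair) (Om : ℂ) (f : ℕ) (e : OO A B → ℂ) (n : ℕ) (c : ℤ) (x : OO A B) : ℂ :=
  if (3 : ℤ) ^ (n + 1) ∣ nm x - c then e x * ee L (emb x * (Om / emb (lev A B f n))) else 0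

lemma F0_per (hP : St_PER) (h : Case A B) (hL : IsLat A B L Om) (hf : f ≠ 0)
    (he : IsEps ((f : OO A B) * star (ppi A B)) e) (c : ℤ) :
    Per (lev A B f n) (F0 L Om f e n c) := by
  intro x y hxy
  unfold F0
  have h1 := dvd_nm_per hxy c
  rw [he.per x y ((g_dvd_lev h f n).trans hxy), ee_per hP h hL (emb_lev_ne h hf n) hxy]
  by_cases h2 : (3 : ℤ) ^ (n + 1) ∣ nm x - c
  · rw [if_pos h2, if_pos (h1.1 h2)]
  · rw [if_neg h2, if_neg (fun h3 => h2 (h1.2 h3))]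

/-- the sum over `N x ≡ c` of `ε(x) dlT(x u)` -/
lemma sum_dlT (hP : St_PER) (h : Case A B) (hL : IsLat A B L Om) (hf : f ≠ 0)
    (he : IsEps ((f : OO A B) * star (ppi A B)) e) (c : ℤ) :
    sumMod (lev A B f n) (fun x => if (3 : ℤ) ^ (n + 1) ∣ nm x - c then
      e x * dlT L f (emb x * (Om / emb (lev A B f n))) else 0) = ST L Om f e n c := by
  have h1 : Sn L Om f e n c = sumMod (lev A B f n) (F0 L Om f e n c) := rfl
  have h2 : Sn L Om f e n ((1 + 6 * (f : ℤ)) ^ 2 * c) =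
      sumMod (lev A B f n) (fun x => F0 L Om f e n ((1 + 6 * (f : ℤ)) ^ 2 * c) (aO A B f * x)) :=
    (sumMod_mul (cop_aO f n) (F0_per hP h hL hf he _)).symm
  unfold ST
  rw [h1, h2, sub_eq_add_neg, ← neg_mul, ← sumMod_cmul hf, ← sumMod_cmul hf, ← sumMod_add hf]
  congr 1
  funext x
  unfold F0
  rw [Pool.Agent.MU3G.G0.nm_mul, nm_aO, e_aO h he]
  by_cases h3 : (3 : ℤ) ^ (n + 1) ∣ nm x - c
  · rw [if_pos h3, if_pos ((dvd_sq_iff f n _ _).2 h3), if_pos h3, dlT_eq h]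
    ring
  · rw [if_neg h3, if_neg (fun h4 => h3 ((dvd_sq_iff f n _ _).1 h4)), if_neg h3]
    ring

end

/-! ### The steps of the proof -/

lemma four_pow_mod (i : ℕ) : (3 : ℤ) ∣ 4 ^ i - 1 := by
  have := sub_dvd_pow_sub_pow (4 : ℤ) 1 i
  simpa using this

lemma three_dvd_pow (n : ℕ) : (3 : ℤ) ∣ 3 ^ (n + 1) := ⟨3 ^ n, by ring⟩

lemma Ci_iff (n i : ℕ) (x : OO A B) : Ci n i x ↔
    (3 : ℤ) ^ (n + 1) ∣ nm x - 4 ^ i ∨ (3 : ℤ) ^ (n + 1) ∣ nm x - -4 ^ i := by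
  unfold Ci
  rw [sub_neg_eq_add]

lemma Ci_per {f n : ℕ} {x y : OO A B} (h : lev A B f n ∣ x - y) (i : ℕ) :
    Ci n i x ↔ Ci n i y := by
  rw [Ci_iff, Ci_iff, dvd_nm_per h, dvd_nm_per h]

lemma Ci_neg (n i : ℕ) (x : OO A B) : Ci n i (-x) ↔ Ci n i x := by
  rw [Ci_iff, Ci_iff, nm_neg]

lemma cop_lev {f : ℕ} (n : ℕ) {x : OO A B} (hx : IsCoprime x ((3 * f : ℕ) : OO A B)) :
    IsCoprime x (lev A B f n) := by
  refine (hx.pow_right (n := n + 1)).of_isCoprime_of_dvd_right ?_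
  refine ⟨((f ^ n : ℕ) : OO A B), ?_⟩
  unfold lev
  push_cast
  ring

lemma cop_three {f : ℕ} {x p : OO A B} (h3 : ¬ (3 : ℤ) ∣ nm x)
    (hx : IsCoprime x ((f : OO A B) * p)) : IsCoprime x ((3 * f : ℕ) : OO A B) := by
  have h1 : IsCoprime (nm x) (3 : ℤ) := by
    rw [isCoprime_comm]
    exact (Int.prime_three.coprime_iff_not_dvd).2 h3
  obtain ⟨u, v, huv⟩ := h1
  have h2 : IsCoprime x (3 : OO A B) := by
    refine ⟨(u : OO A B) * star x, (v : OO A B), ?_⟩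
    have h4 : x * star x = ((nm x : ℤ) : OO A B) := by
      rw [Pool.Agent.MU3G.G0.nm_eq, ← QuadraticAlgebra.algebraMap_norm_eq_mul_star]
      simp
    have h5 := congrArg (Int.cast : ℤ → OO A B) huv
    push_cast at h5
    linear_combination h5 + (u : OO A B) * h4
  push_cast
  exact h2.mul_right hx.of_mul_right_left

section

variable {f n : ℕ} {G : Type} [Group G] {γ : G} {Δ : Subgroup G} {X : G → Set (OO A B)}

open Classical in
/-- the summand after the sum over `Δ` -/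
def G1 (L : PeriodPair) (Om : ℂ) (f n i : ℕ) (X : G → Set (OO A B)) (e0 : OO A B → ℂ)
    (x : OO A B) : ℂ := if (∃ τ, x ∈ X τ) ∧ Ci n i x then e0 x * FF L Om f n x else 0

open Classical in
/-- the summand after the symmetrization -/
def G2 (L : PeriodPair) (Om : ℂ) (f n i : ℕ) (e0 : OO A B → ℂ)
    (x : OO A B) : ℂ := if Ci n i x then e0 x * FF L Om f n x else 0

open Classical in
lemma step1 {L : PeriodPair} {Om : ℂ} (hf : f ≠ 0) [Fintype Δ] (hM : IsMod f n γ Δ X)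
    (χ : Δ →* ℂˣ) {e0 : OO A B → ℂ}
    (he0X : ∀ (x : OO A B) (δ : Δ) (i : ℕ), x ∈ X ((δ : G) * γ ^ i) →
      e0 x = (((χ δ)⁻¹ : ℂˣ) : ℂ)) (i : ℕ) :
    ∑ δ : Δ, (((χ δ)⁻¹ : ℂˣ) : ℂ) * sumMod (lev A B f n) (fun x =>
      if x ∈ X (γ ^ i * (δ : G)) then FF L Om f n x else 0) =
      sumMod (lev A B f n) (G1 L Om f n i X e0) := by
  have h1 : ∀ δ : Δ, (((χ δ)⁻¹ : ℂˣ) : ℂ) * sumMod (lev A B f n) (fun x =>
      if x ∈ X (γ ^ i * (δ : G)) then FF L Om f n x else 0) =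
      sumMod (lev A B f n) (fun x => (((χ δ)⁻¹ : ℂˣ) : ℂ) *
        if x ∈ X (γ ^ i * (δ : G)) then FF L Om f n x else 0) :=
    fun δ => (sumMod_cmul hf _ _).symm
  rw [Finset.sum_congr rfl (fun δ _ => h1 δ), ← sumMod_sum hf]
  congr 1
  funext x
  unfold G1
  by_cases hx : ∃ δ : Δ, x ∈ X (γ ^ i * (δ : G))
  · obtain ⟨δ0, h0⟩ := hx
    rw [if_pos ((mem_iff hM x i).1 ⟨δ0, h0⟩), Finset.sum_eq_single δ0, if_pos h0,
      he0X x δ0 i (by rw [hM.comm]; exact h0)]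
    · intro δ _ hδ
      rw [if_neg, mul_zero]
      intro h2
      apply hδ
      have h3 := hM.uniq x _ _ h2 h0
      exact Subtype.ext (mul_left_cancel h3)
    · intro h2
      exact absurd (Finset.mem_univ _) h2
  · rw [if_neg (fun h2 => hx ((mem_iff hM x i).2 h2))]
    refine Finset.sum_eq_zero fun δ _ => ?_
    rw [if_neg (fun h2 => hx ⟨δ, h2⟩), mul_zero]

lemma G1_per (hP : St_PER) (h : Case A B) {L : PeriodPair} {Om : ℂ} (hL : IsLat A B L Om)
    (hf : f ≠ 0) (hM : IsMod f n γ Δ X) {e0 : OO A B → ℂ}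
    (he0per : ∀ x y, ((3 * f : ℕ) : OO A B) ∣ x - y → e0 x = e0 y) (i : ℕ) :
    Per (lev A B f n) (G1 L Om f n i X e0) := by
  intro x y hxy
  unfold G1
  have h1 : ((∃ τ, x ∈ X τ) ∧ Ci n i x) ↔ ((∃ τ, y ∈ X τ) ∧ Ci n i y) := by
    rw [per_P hM hxy, Ci_per hxy]
  rw [he0per x y ((f_dvd_lev f n).trans hxy), FF_per hP h hL hf x y hxy]
  by_cases h2 : (∃ τ, x ∈ X τ) ∧ Ci n i x
  · rw [if_pos h2, if_pos (h1.1 h2)]
  · rw [if_neg h2, if_neg (fun h3 => h2 (h1.2 h3))]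

lemma step2 (hP : St_PER) (h : Case A B) {L : PeriodPair} {Om : ℂ} (hL : IsLat A B L Om)
    (hf : f ≠ 0) (hM : IsMod f n γ Δ X) {e0 : OO A B → ℂ} (he0m : e0 (-1) = 1)
    (he0mul : ∀ x y, e0 (x * y) = e0 x * e0 y)
    (he0per : ∀ x y, ((3 * f : ℕ) : OO A B) ∣ x - y → e0 x = e0 y)
    (he0supp : ∀ x, e0 x ≠ 0 ↔ IsCoprime x ((3 * f : ℕ) : OO A B)) (i : ℕ) :
    2 * sumMod (lev A B f n) (G1 L Om f n i X e0) =
      sumMod (lev A B f n) (G2 L Om f n i e0) := by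
  have h1 : sumMod (lev A B f n) (fun x => G1 L Om f n i X e0 ((-1) * x)) =
      sumMod (lev A B f n) (G1 L Om f n i X e0) :=
    sumMod_mul ⟨-1, 0, by ring⟩ (G1_per hP h hL hf hM he0per i)
  rw [two_mul]
  nth_rewrite 2 [← h1]
  rw [← sumMod_add hf]
  congr 1
  funext x
  have he : e0 (-x) = e0 x := by
    rw [← neg_one_mul, he0mul, he0m, one_mul]
  rw [neg_one_mul]
  unfold G1 G2
  rw [he, FF_neg hP h, Ci_neg]
  by_cases hc : IsCoprime x (lev A B f n)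
  · by_cases hC : Ci n i x
    · rw [if_pos hC]
      rcases hM.ex x hc with h2 | h2
      · rw [if_pos ⟨h2, hC⟩, if_neg, add_zero]
        rintro ⟨⟨τ', h3⟩, -⟩
        obtain ⟨τ, h2⟩ := h2
        exact not_both hf hM h2 h3
      · rw [if_neg, if_pos ⟨h2, hC⟩, zero_add]
        rintro ⟨⟨τ', h3⟩, -⟩
        obtain ⟨τ, h2⟩ := h2
        exact not_both hf hM h3 h2
    · rw [if_neg hC, if_neg (fun h3 => hC h3.2), if_neg (fun h3 => hC h3.2), add_zero]
  · have h4 : e0 x = 0 := by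
      by_contra h5
      exact hc (cop_lev n ((he0supp x).1 h5))
    rw [h4, zero_mul]
    simp

lemma step3 {L : PeriodPair} {Om : ℂ} {e0 e : OO A B → ℂ} {s : ℤ}
    (he0supp : ∀ x, e0 x ≠ 0 ↔ IsCoprime x ((3 * f : ℕ) : OO A B))
    (he : IsEps ((f : OO A B) * star (ppi A B)) e) (hs : s = 1 ∨ s = -1)
    (hes : ∀ x, IsCoprime x ((3 * f : ℕ) : OO A B) →
      e0 x * (wq (ppi A B) x : ℂ) = e x * (if s = 1 then 1 else (w3 (nm x) : ℂ)))
    (i : ℕ) (x : OO A B) :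
    G2 L Om f n i e0 x =
      (if (3 : ℤ) ^ (n + 1) ∣ nm x - 4 ^ i then
        e x * dlT L f (emb x * (Om / emb (lev A B f n))) else 0) +
      s * (if (3 : ℤ) ^ (n + 1) ∣ nm x - -4 ^ i then
        e x * dlT L f (emb x * (Om / emb (lev A B f n))) else 0) := by
  have h4 := four_pow_mod i
  have h3n := three_dvd_pow n
  unfold G2 FF
  rw [← mul_assoc]
  have key : ¬ (3 : ℤ) ∣ nm x → e0 x * (wq (ppi A B) x : ℂ) =
      e x * (if s = 1 then 1 else (w3 (nm x) : ℂ)) := by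
    intro h5
    by_cases hc : IsCoprime x ((3 * f : ℕ) : OO A B)
    · exact hes x hc
    · have h6 : e0 x = 0 := by
        by_contra h7
        exact hc ((he0supp x).1 h7)
      have h7 : e x = 0 := by
        by_contra h8
        exact hc (cop_three h5 ((he.supp x).1 h8))
      rw [h6, h7, zero_mul, zero_mul]
  by_cases h1 : (3 : ℤ) ^ (n + 1) ∣ nm x - 4 ^ i
  · have h1' : (3 : ℤ) ∣ nm x - 4 ^ i := h3n.trans h1
    have h2 : ¬ (3 : ℤ) ^ (n + 1) ∣ nm x - -4 ^ i := by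
      intro h5
      have h5' : (3 : ℤ) ∣ nm x - -4 ^ i := h3n.trans h5
      omega
    rw [if_pos ((Ci_iff n i x).2 (Or.inl h1)), if_pos h1, if_neg h2, mul_zero, add_zero,
      key (by omega)]
    have h6 : w3 (nm x) = 1 := by
      unfold w3
      rw [if_pos (by omega)]
    rw [h6]
    simp
  · by_cases h2 : (3 : ℤ) ^ (n + 1) ∣ nm x - -4 ^ i
    · have h2' : (3 : ℤ) ∣ nm x - -4 ^ i := h3n.trans h2
      rw [if_pos ((Ci_iff n i x).2 (Or.inr h2)), if_neg h1, if_pos h2, zero_add,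
        key (by omega)]
      have h6 : w3 (nm x) = -1 := by
        unfold w3
        rw [if_neg (by omega), if_pos (by omega)]
      rw [h6]
      rcases hs with rfl | rfl
      · simp
      · norm_num
    · rw [if_neg (fun h5 => by
        rcases (Ci_iff n i x).1 h5 with h6 | h6
        · exact h1 h6
        · exact h2 h6), if_neg h1, if_neg h2, mul_zero, add_zero]

end

end ITH

open ITH in
/-- (ITH) the sums `T̂_i` -/
theorem t_ITH (hP : St_PER) : St_ITH := by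
  intro A B h L Om hL f n hf _ G _ _ γ Δ _ X hM χ e0 _ he0m he0mul he0per he0supp he0X e s he
    hs hes i
  rw [step1 hf hM χ he0X i, step2 hP h hL.toIsLat hf hM he0m he0mul he0per he0supp i,
    ← sum_dlT hP h hL.toIsLat hf he (4 ^ i), ← sum_dlT hP h hL.toIsLat hf he (-4 ^ i),
    ← sumMod_cmul hf, ← sumMod_add hf]
  congr 1
  funext x
  exact step3 he0supp he hs hes i x

end

end Pool.Agent.MU3I
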