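import Pool.Agent.MU3.StI2

/-!
# MU3, module ITOR: the facts on the torsion fields used in block I
-/

set_option autoImplicit false

namespace Pool.Agent.MU3I

open _root_.MU3 Pool.Agent.MU3 Pool.Agent.MU3A Pool.Agent.MU3B Pool.Agent.MU3C Pool.Agent.RI
  Pool.Agent.RID

noncomputable section

theorem t_ITOR (hG : Sa_GAL) (hA : Sa_ACT) (hN : Sa_NRM) (hC : Sa_CYC) : St_ITOR := by
  intro A B L Om h hL
  have tow : ∀ m m' : OO A B, m' ≠ 0 → m ∣ m' → TF L m ≤ TF L m' := by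
    rintro m m' - ⟨d, rfl⟩
    refine IntermediateField.adjoin.mono _ _ _ ?_
    rintro c ⟨z, hz, hz', hc⟩
    refine ⟨z, ?_, hz', hc⟩
    rw [emb_mul h, mul_comm (emb m), mul_assoc]
    exact hL.emb_mul_mem h d hz
  have ne0 : ∀ m m' : OO A B, m' ≠ 0 → m ∣ m' → m ≠ 0 := by
    rintro m m' h1 h2 rfl
    exact h1 (zero_dvd_iff.1 h2)
  refine ⟨fun m hm => (hN A B L Om h hL m hm).1, fun m hm => (hN A B L Om h hL m hm).2,
    fun m hm σ => hG A B L Om h hL m hm _ le_rfl (em σ), ?_, ?_, ?_, tow, ?_, ?_⟩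
  · intro m hm σ x y hx
    obtain ⟨a1, a2, -⟩ := hA A B L Om h hL m hm
    exact ⟨fun hy => a1 _ _ _ _ le_rfl hx hy, fun hxy => a2 _ _ _ _ hxy hx⟩
  · intro m hm σ τ x hx hy
    obtain ⟨-, -, -, -, a5, -⟩ := hA A B L Om h hL m hm
    have h3 := a5 _ _ _ hx hy
    refine AlgEquiv.ext fun x => Subtype.ext ?_
    exact DFunLike.congr_fun h3 x
  · intro m hm σ τ x y hx hy
    obtain ⟨-, -, -, a4, -⟩ := hA A B L Om h hL m hm
    exact a4 _ _ _ _ _ le_rfl hx hy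
  · intro m m' hm' hmm σ τ x hx hres
    obtain ⟨-, -, a3, -⟩ := hA A B L Om h hL m' hm'
    obtain ⟨-, -, -, -, -, -, -, a8⟩ := hA A B L Om h hL m (ne0 m m' hm' hmm)
    have h1 := a3 _ _ _ _ hmm hx
    have h2 := a8 _ _ (tow m m' hm' hmm) _ _ h1
    have h3 : (em σ).comp (IntermediateField.inclusion (tow m m' hm' hmm)) = em τ := by
      refine AlgHom.ext fun y => ?_
      exact hres y y.2 (tow m m' hm' hmm y.2)
    rwa [h3] at h2
  · intro m hm M hM z hz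
    have hM0 : M ≠ 0 := by
      rintro rfl
      rw [Nat.cast_zero] at hM
      exact hm (zero_dvd_iff.1 hM)
    obtain ⟨c1, c2⟩ := hC A B L Om h hL M hM0 z hz
    refine ⟨tow _ _ hm hM c1, fun σ x hz' hx => ?_⟩
    obtain ⟨-, -, a3, -⟩ := hA A B L Om h hL m hm
    exact c2 (TF L m) (tow _ _ hm hM) hz' (em σ) x (a3 _ _ _ _ hM hx)

end

end Pool.Agent.MU3I
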