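import Pool.Agent.MU3.StI

/-!
# MU3, block I: existence of a valuation ring above `3`
-/

set_option autoImplicit false

namespace Pool.Agent.MU3I

open _root_.MU3 Pool.Agent.MU3 Pool.Agent.MU3A Pool.Agent.MU3B Pool.Agent.MU3C Pool.Agent.RI
  Pool.Agent.RID

theorem ivex_nm_mul {A B : ℤ} (x y : OO A B) : nm (x * y) = nm x * nm y := by
  simp only [nm, QuadraticAlgebra.re_mul, QuadraticAlgebra.im_mul]
  ring

theorem t_IVEX : St_IVEX := by
  intro A B hc
  let R : Subring ℂ := (embHom hc).range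
  have hm : ∀ x : OO A B, emb x ∈ R := fun x => ⟨x, embHom_apply hc x⟩
  let I : Ideal R := Ideal.span {(⟨emb (ppi A B), hm _⟩ : R)}
  have hI : I ≠ ⊤ := by
    intro h
    rw [Ideal.eq_top_iff_one, Ideal.mem_span_singleton'] at h
    obtain ⟨⟨a, x, hx⟩, ha⟩ := h
    have h1 : a * emb (ppi A B) = 1 := congrArg Subtype.val ha
    have h2 : embHom hc (x * ppi A B) = embHom hc 1 := by
      rw [map_mul, hx, embHom_apply, h1, map_one]
    rw [embHom_apply, embHom_apply] at h2
    have h3 := emb_inj hc h2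
    have h4 : nm x * nm (ppi A B) = 1 := by
      rw [← ivex_nm_mul, h3]
      simp [nm, QuadraticAlgebra.re_one, QuadraticAlgebra.im_one]
    rw [nm_ppi hc] at h4
    omega
  obtain ⟨V, hV, hVI⟩ := Ideal.image_subset_nonunits_valuationSubring I hI
  have hpi : emb (ppi A B) ∈ V.nonunits :=
    hVI ⟨⟨emb (ppi A B), hm _⟩, Ideal.subset_span rfl, rfl⟩
  refine ⟨V, hpi, ?_⟩
  have hmul : emb (ppi A B) * emb (⟨1, -1⟩ : OO A B) = 3 := by
    rw [← embHom_apply hc, ← embHom_apply hc, ← map_mul, embHom_apply]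
    rcases hc with ⟨rfl, rfl⟩ | ⟨rfl, rfl⟩ <;>
      norm_num [emb, ppi, QuadraticAlgebra.re_mul, QuadraticAlgebra.im_mul]
  rw [ValuationSubring.mem_nonunits_iff] at hpi ⊢
  rw [← hmul, map_mul]
  have hle : V.valuation (emb (⟨1, -1⟩ : OO A B)) ≤ 1 :=
    (V.valuation_le_one_iff _).mpr (hV (hm _))
  exact lt_of_le_of_lt (mul_le_of_le_one_right' hle) hpi

end Pool.Agent.MU3I
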