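import Pool.Agent.MU3.StD

/-!
# MU3, block D: partition of unity (PU)
-/

open NumberField IsDedekindDomain Ideal Filter Topology
open NumberField.Units NumberField.mixedEmbedding NumberField.Units.dirichletUnitTheorem
open scoped nonZeroDivisors

namespace Pool.Agent.MU3

open Pool.Agent.Lib_helper28.FROB

namespace PU

/-- the two integers which contribute -/
noncomputable def sup (y : ℝ) : Finset ℤ := {-⌊y⌋, -⌊y⌋ - 1}

theorem tent_out {y : ℝ} {n : ℤ} (h : n ∉ sup y) : tent (y + n) = 0 := by
  unfold sup at h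
  simp only [Finset.mem_insert, Finset.mem_singleton, not_or] at h
  unfold tent
  apply max_eq_left
  rw [sub_nonpos]
  have h1 := Int.floor_le y
  have h2 := Int.lt_floor_add_one y
  rcases lt_or_ge n (-⌊y⌋) with h3 | h3
  · have h4 : n ≤ -⌊y⌋ - 2 := by omega
    have h5 : (n : ℝ) ≤ -⌊y⌋ - 2 := by exact_mod_cast h4
    rw [abs_of_nonpos (by linarith)]
    linarith
  · have h4 : -⌊y⌋ + 1 ≤ n := by omega
    have h5 : (-⌊y⌋ : ℝ) + 1 ≤ n := by exact_mod_cast h4
    rw [abs_of_nonneg (by linarith)]
    linarith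

theorem tent_sum (y : ℝ) : ∑ n ∈ sup y, tent (y + n) = 1 := by
  unfold sup
  rw [Finset.sum_pair (by omega)]
  have h1 := Int.floor_le y
  have h2 := Int.lt_floor_add_one y
  unfold tent
  push_cast
  rw [abs_of_nonneg (a := y + -(⌊y⌋ : ℝ)) (by linarith),
    abs_of_nonpos (a := y + (-(⌊y⌋ : ℝ) - 1)) (by linarith), max_eq_right (by linarith),
    max_eq_right (by linarith)]
  ring

variable (K : Type) [Field K] [NumberField K]

/-- product of a root of unity and powers of the fundamental units -/
noncomputable def g (p : torsion K × (Fin (Units.rank K) → ℤ)) : (𝓞 K)ˣ :=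
  p.1 * ∏ i, fundSystem K i ^ p.2 i

theorem g_bij : Function.Bijective (g K) := by
  rw [Function.bijective_iff_existsUnique]
  intro x
  obtain ⟨p, hp, hu⟩ := exist_unique_eq_mul_prod K x
  exact ⟨p, hp.symm, fun q hq => hu q hq.symm⟩

theorem log_g (p : torsion K × (Fin (Units.rank K) → ℤ)) :
    logEmbedding K (Additive.ofMul (g K p)) =
      ∑ i, p.2 i • (basisUnitLattice K i : logSpace K) := by
  unfold g
  rw [ofMul_mul, map_add, logEmbedding_eq_zero_iff.2 p.1.2, zero_add, ofMul_prod, map_sum]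
  apply Finset.sum_congr rfl
  intro i _
  rw [ofMul_zpow, map_zsmul, logEmbedding_fundSystem]

theorem lc_g (a : 𝓞 K) (ha : a ≠ 0) (p : torsion K × (Fin (Units.rank K) → ℤ))
    (i : Fin (Units.rank K)) : lc K ((g K p : 𝓞 K) * a) i = lc K a i + p.2 i := by
  classical
  have h0 : mixedEmbedding.norm (mixedEmbedding K (a : K)) ≠ 0 := by
    rw [norm_eq_norm]
    have h1 : Algebra.norm ℚ (a : K) ≠ 0 := by
      rw [Algebra.norm_ne_zero_iff]
      exact_mod_cast ha
    simpa using h1
  have h1 : logMap (mixedEmbedding K (((g K p : 𝓞 K) * a : 𝓞 K) : K)) =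
      ∑ j, p.2 j • (basisUnitLattice K j : logSpace K) + logMap (mixedEmbedding K (a : K)) := by
    rw [← log_g, ← logMap_unit_smul _ h0, unitSMul_smul, ← map_mul]
    rfl
  unfold lc
  rw [h1, map_add, Finsupp.add_apply, map_sum, Finsupp.finsetSum_apply, add_comm]
  congr 1
  rw [Finset.sum_eq_single i]
  · rw [map_zsmul]
    have h2 := (basisUnitLattice K).ofZLatticeBasis_apply ℝ (unitLattice K) i
    rw [← h2, Module.Basis.repr_self]
    simp
  · intro j _ hj
    rw [map_zsmul]
    have h2 := (basisUnitLattice K).ofZLatticeBasis_apply ℝ (unitLattice K) j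
    rw [← h2, Module.Basis.repr_self]
    simp [hj]
  · intro h
    exact absurd (Finset.mem_univ i) h

theorem has_sum (a : 𝓞 K) (ha : a ≠ 0) :
    HasSum (fun u : (𝓞 K)ˣ => rho K (u * a)) (torsionOrder K : ℝ) := by
  classical
  haveI : Fintype (torsion K) := Fintype.ofFinite _
  rw [← (Equiv.ofBijective (g K) (g_bij K)).hasSum_iff]
  have h1 : ((fun u : (𝓞 K)ˣ => rho K (u * a)) ∘ (Equiv.ofBijective (g K) (g_bij K))) =
      fun p : torsion K × (Fin (Units.rank K) → ℤ) => ∏ i, tent (lc K a i + p.2 i) := by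
    funext p
    show rho K ((g K p : 𝓞 K) * a) = _
    unfold rho
    apply Finset.prod_congr rfl
    intro i _
    rw [lc_g K a ha p i]
  rw [h1]
  have h2 : (torsionOrder K : ℝ) = ∑ p ∈ (Finset.univ : Finset (torsion K)) ×ˢ
      Fintype.piFinset (fun i => sup (lc K a i)), ∏ i, tent (lc K a i + p.2 i) := by
    rw [Finset.sum_product]
    simp only
    rw [Finset.sum_const, ← Finset.prod_univ_sum (fun i => sup (lc K a i))
      (fun i n => tent (lc K a i + n))]
    simp only [tent_sum, Finset.prod_const_one, Finset.card_univ, nsmul_eq_mul, mul_one]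
    rw [torsionOrder, Nat.card_eq_fintype_card]
  rw [h2]
  apply hasSum_sum_of_ne_finset_zero
  intro p hp
  rw [Finset.mem_product, not_and_or] at hp
  rcases hp with hp | hp
  · exact absurd (Finset.mem_univ _) hp
  · rw [Fintype.mem_piFinset] at hp
    obtain ⟨i, hi⟩ := not_forall.1 hp
    exact Finset.prod_eq_zero (Finset.mem_univ i) (tent_out hi)

end PU

theorem m_PU : Stmt_PU := by
  intro K _ _ a ha
  exact ⟨(PU.has_sum K a ha).summable, (PU.has_sum K a ha).tsum_eq⟩

end Pool.Agent.MU3
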