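import Pool.Agent.MU3.StD

/-!
# MU3, block D, module THD
-/

open NumberField IsDedekindDomain Ideal Filter Topology
open scoped nonZeroDivisors

namespace Pool.Agent.MU3

open Pool.Agent.Lib_helper28.FROB

namespace THD

lemma finite_mem {L : Type} [Field L] [NumberField L] {a : 𝓞 L} (ha : a ≠ 0) :
    {v : HeightOneSpectrum (𝓞 L) | a ∈ v.asIdeal}.Finite := by
  have h : (span {a} : Ideal (𝓞 L)) ≠ 0 := by
    rw [Ideal.zero_eq_bot, Ne, Ideal.span_singleton_eq_bot]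
    exact ha
  refine (Ideal.finite_factors h).subset fun v hv => ?_
  show v.asIdeal ∣ span {a}
  rw [Ideal.dvd_span_singleton]
  exact hv

end THD

theorem m_THD : Stmt_DENS → Stmt_KUM → Stmt_THD := by
  intro hD hK L _ _ ζ t hζ ht S hS H hH
  obtain ⟨M, _, _, _, hM⟩ := hK L ζ t hζ ht
  have ht0 : t ≠ 0 := by
    rintro rfl
    exact ht 0 (by simp)
  have h30 : (3 : 𝓞 L) ≠ 0 := by norm_num
  let S' : Set (HeightOneSpectrum (𝓞 L)) := S ∪ ({v | (3 : 𝓞 L) ∈ v.asIdeal} ∪ {v | t ∈ v.asIdeal})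
  have hS' : S'.Finite := hS.union ((THD.finite_mem h30).union (THD.finite_mem ht0))
  refine hD L M 3 le_rfl S' hS' H ?_
  intro v hv hp hspl
  have h1 : v ∉ S := fun h => hv (Or.inl h)
  have h2 : (3 : 𝓞 L) ∉ v.asIdeal := fun h => hv (Or.inr (Or.inl h))
  have h3 : t ∉ v.asIdeal := fun h => hv (Or.inr (Or.inr h))
  refine hH v h1 hp h2 h3 ?_
  intro a ha
  have := hM v h2 h3 ⟨a, ha⟩
  omega

end Pool.Agent.MU3
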