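import Pool.Agent.MU3.N_AMB
import Pool.Agent.MU3.N_AMBA
import Pool.Agent.MU3.N_AMBI
import Pool.Agent.MU3.N_AMBU
import Pool.Agent.MU3.N_NIL
import Pool.Agent.MU3.N_Q
import Pool.Agent.MU3.N_STEP
import Pool.Agent.MU3.N_NUM
import Pool.Agent.MU3.N_GAL
import Pool.Agent.MU3.N_RAMP
import Pool.Agent.MU3.N_FIN

/-!
# MU3, section 4: the result without hypotheses
-/

set_option autoImplicit false

namespace MU3

theorem u_FIN : N_FIN :=
  n_FIN (n_AMB n_AMBA n_AMBI n_AMBU) (n_NILR n_NIL) n_STEP n_NUM n_GAL n_RAMP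

end MU3
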