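import Pool.Agent.MU3.StP
import Pool.Agent.RI.HERB
import Pool.Agent.RI.RKU
import Pool.Agent.RID.P_STEPC

/-!
# MU3P_HQE: the Herbrand quotient of the unit group
-/

open NumberField Finset IsDedekindDomain
open scoped nonZeroDivisors Pointwise

namespace MU3

open Pool.Agent.RI Pool.Agent.RID

namespace HQE

/-- the trivial action on `ℤ` -/
@[reducible]
def triv (G : Type) [Group G] : MulDistribMulAction G (Multiplicative ℤ) where
  smul _ x := x
  one_smul _ := rfl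
  mul_smul _ _ _ := rfl
  smul_mul _ _ _ := rfl
  smul_one _ := rfl

lemma relIndex_prod {G G' : Type} [Group G] [Group G'] (H₁ H₂ : Subgroup G)
    (K₁ K₂ : Subgroup G') :
    (H₁.prod K₁).relIndex (H₂.prod K₂) = H₁.relIndex H₂ * K₁.relIndex K₂ := by
  have h1 := Subgroup.index_comap (H₁.prod K₁) ((H₂.subtype).prodMap (K₂.subtype))
  have h2 : ((H₂.subtype).prodMap (K₂.subtype)).range = H₂.prod K₂ := by
    ext ⟨x, y⟩
    constructor
    · rintro ⟨⟨a, b⟩, hab⟩
      rw [← hab]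
      exact ⟨a.2, b.2⟩
    · rintro ⟨hx, hy⟩
      exact ⟨(⟨x, hx⟩, ⟨y, hy⟩), rfl⟩
  have h3 : (H₁.prod K₁).comap ((H₂.subtype).prodMap (K₂.subtype)) =
      (H₁.subgroupOf H₂).prod (K₁.subgroupOf K₂) := by
    ext ⟨a, b⟩
    rfl
  rw [h2, h3, Subgroup.index_prod] at h1
  rw [← h1]
  rfl

lemma finrank_prod_top {A : Type} [CommGroup A] (X : Subgroup A) (hX : X.FG) :
    Module.finrank ℤ (Additive ↥(X.prod (⊤ : Subgroup (Multiplicative ℤ)))) =
      Module.finrank ℤ (Additive ↥X) + 1 := by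
  have hfin : Module.Finite ℤ (Additive ↥X) := by
    rw [Module.Finite.iff_addGroup_fg, ← GroupFG.iff_add_fg, Group.fg_iff_subgroup_fg]
    exact hX
  have e1 : Additive ↥(X.prod (⊤ : Subgroup (Multiplicative ℤ))) ≃+ Additive ↥X × ℤ :=
    { toFun := fun x => (Additive.ofMul ⟨x.toMul.1.1, x.toMul.2.1⟩, (x.toMul.1.2).toAdd)
      invFun := fun y => Additive.ofMul ⟨(y.1.toMul.1, Multiplicative.ofAdd y.2),
        ⟨y.1.toMul.2, Subgroup.mem_top _⟩⟩
      left_inv := fun x => rfl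
      right_inv := fun y => rfl
      map_add' := fun x y => rfl }
  rw [e1.toIntLinearEquiv.finrank_eq]
  have h2 := HERB.rank_nullity (AddMonoidHom.snd (Additive ↥X) ℤ)
  have h3 : Module.finrank ℤ (AddMonoidHom.snd (Additive ↥X) ℤ).range = 1 := by
    have : (AddMonoidHom.snd (Additive ↥X) ℤ).range = ⊤ :=
      AddMonoidHom.range_eq_top.2 (fun y => ⟨(0, y), rfl⟩)
    rw [this]
    have e2 : (⊤ : AddSubgroup ℤ) ≃+ ℤ := AddSubgroup.topEquiv
    rw [e2.toIntLinearEquiv.finrank_eq]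
    exact Module.finrank_self ℤ
  have h4 : Module.finrank ℤ (AddMonoidHom.snd (Additive ↥X) ℤ).ker =
      Module.finrank ℤ (Additive ↥X) := by
    have e3 : (AddMonoidHom.snd (Additive ↥X) ℤ).ker ≃+ Additive ↥X :=
      { toFun := fun x => x.1.1
        invFun := fun y => ⟨(y, 0), rfl⟩
        left_inv := fun x => Subtype.ext (Prod.ext rfl x.2.symm)
        right_inv := fun y => rfl
        map_add' := fun x y => rfl }
    exact e3.toIntLinearEquiv.finrank_eq
  rw [h3, h4] at h2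
  omega

lemma index_pow (q : ℕ) :
    ((⊤ : Subgroup (Multiplicative ℤ)).map (powMonoidHom q)).index = q := by
  have h1 : (⊤ : Subgroup (Multiplicative ℤ)).map (powMonoidHom q) =
      AddSubgroup.toSubgroup (AddSubgroup.zmultiples (q : ℤ)) := by
    ext x
    constructor
    · rintro ⟨y, -, rfl⟩
      change (Multiplicative.toAdd (y ^ q)) ∈ AddSubgroup.zmultiples (q : ℤ)
      rw [toAdd_pow]
      refine ⟨Multiplicative.toAdd y, ?_⟩
      simp [mul_comm]
    · intro hx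
      change (Multiplicative.toAdd x) ∈ AddSubgroup.zmultiples (q : ℤ) at hx
      obtain ⟨m, hm⟩ := hx
      refine ⟨Multiplicative.ofAdd m, Subgroup.mem_top _, ?_⟩
      apply Multiplicative.toAdd.injective
      rw [← hm]
      simp [powMonoidHom_apply, toAdd_pow, mul_comm]
  rw [h1]
  have h2 : (AddSubgroup.toSubgroup (AddSubgroup.zmultiples (q : ℤ))).index =
      (AddSubgroup.zmultiples (q : ℤ)).index := rfl
  rw [h2, Int.index_zmultiples, Int.natAbs_natCast]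

theorem abs (hH : S_HERBQ) (p a : ℕ) [Fact p.Prime] (A G : Type) [CommGroup A] [Group G]
    [MulDistribMulAction G A] (g : G) (E : Subgroup A) (hg : g ^ (p ^ a) = 1)
    (hFG : ∀ h : G, (E ⊓ (dg h : A →* A).ker).FG)
    (hst : ∀ u ∈ E, g • u ∈ E)
    (hr : ∀ i ≤ a, Module.finrank ℤ (Additive ↥(E ⊓ (dg (g ^ (p ^ i)) : A →* A).ker)) + 1 =
      p ^ i * (Module.finrank ℤ (Additive ↥(E ⊓ (dg g : A →* A).ker)) + 1)) :
    (E.map (dg g)).relIndex (E ⊓ (ng g (p ^ a)).ker) ≠ 0 ∧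
    (E.map (ng g (p ^ a))).relIndex (E ⊓ (dg g).ker) * p ^ a =
      (E.map (dg g)).relIndex (E ⊓ (ng g (p ^ a)).ker) := by
  letI := triv G
  have hp : 0 < p := (Fact.out : p.Prime).pos
  have htr : ∀ (h : G) (z : Multiplicative ℤ), h • z = z := fun _ _ => rfl
  have hdgZ : ∀ (h : G) (z : Multiplicative ℤ), dg h z = 1 := fun h z => by
    rw [dg_apply, htr, div_self']
  have hngZ : ∀ (h : G) (q : ℕ) (z : Multiplicative ℤ), ng h q z = z ^ q := fun h q z => by
    rw [ng_apply]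
    simp [htr]
  have hdg : ∀ (h : G) (x : A × Multiplicative ℤ), dg h x = (dg h x.1, 1) := fun h x =>
    Prod.ext rfl (hdgZ h x.2)
  have hng : ∀ (h : G) (q : ℕ) (x : A × Multiplicative ℤ), ng h q x = (ng h q x.1, x.2 ^ q) := by
    intro h q x
    have e1 : (ng h q x).1 = ng h q x.1 := by
      rw [ng_apply, ng_apply, Prod.fst_prod]
      rfl
    have e2 : (ng h q x).2 = x.2 ^ q := by
      rw [← hngZ h q x.2, ng_apply, ng_apply, Prod.snd_prod]
      rfl
    exact Prod.ext e1 e2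
  have hker : ∀ h : G, (E.prod (⊤ : Subgroup (Multiplicative ℤ))) ⊓
      (dg h : A × Multiplicative ℤ →* A × Multiplicative ℤ).ker =
      (E ⊓ (dg h : A →* A).ker).prod ⊤ := by
    intro h
    ext ⟨x, z⟩
    rw [Subgroup.mem_inf, Subgroup.mem_prod, Subgroup.mem_prod, Subgroup.mem_inf,
      MonoidHom.mem_ker, MonoidHom.mem_ker, hdg]
    simp [Prod.ext_iff]
  have hE : E.FG := by
    have := hFG 1
    have h1 : E ⊓ (dg (1 : G) : A →* A).ker = E := by
      refine inf_eq_left.2 fun x _ => ?_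
      rw [mem_dg_ker, one_smul]
    rwa [h1] at this
  have hE' : (E.prod (⊤ : Subgroup (Multiplicative ℤ))).FG := by
    refine hE.prod ?_
    rw [← Group.fg_def]
    infer_instance
  obtain ⟨k0, k1⟩ := hH p a (A × Multiplicative ℤ) G g (E.prod ⊤) hg hE'
    (by
      rintro ⟨u, z⟩ ⟨hu, -⟩
      exact ⟨hst u hu, Subgroup.mem_top _⟩)
    (by
      intro i hi
      rw [hker, hker, finrank_prod_top _ (hFG _), finrank_prod_top _ (hFG _)]
      exact hr i hi)
  have m1 : (E.prod (⊤ : Subgroup (Multiplicative ℤ))).map (ng g (p ^ a)) =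
      (E.map (ng g (p ^ a))).prod ((⊤ : Subgroup (Multiplicative ℤ)).map
        (powMonoidHom (p ^ a))) := by
    ext ⟨x, z⟩
    constructor
    · rintro ⟨⟨u, y⟩, ⟨hu, -⟩, huy⟩
      rw [hng] at huy
      obtain ⟨e1, e2⟩ := Prod.ext_iff.1 huy
      exact ⟨⟨u, hu, e1⟩, ⟨y, Subgroup.mem_top _, e2⟩⟩
    · rintro ⟨⟨u, hu, e1⟩, ⟨y, -, e2⟩⟩
      refine ⟨(u, y), ⟨hu, Subgroup.mem_top _⟩, ?_⟩
      rw [hng]
      exact Prod.ext e1 e2
  have m2 : (E.prod (⊤ : Subgroup (Multiplicative ℤ))).map (dg g) =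
      (E.map (dg g)).prod ⊥ := by
    ext ⟨x, z⟩
    constructor
    · rintro ⟨⟨u, y⟩, ⟨hu, -⟩, huy⟩
      rw [hdg] at huy
      obtain ⟨e1, e2⟩ := Prod.ext_iff.1 huy
      exact ⟨⟨u, hu, e1⟩, Subgroup.mem_bot.2 e2.symm⟩
    · rintro ⟨⟨u, hu, e1⟩, e2⟩
      refine ⟨(u, 1), ⟨hu, Subgroup.mem_top _⟩, ?_⟩
      rw [hdg]
      exact Prod.ext e1 (Subgroup.mem_bot.1 e2).symm
  have m3 : (E.prod (⊤ : Subgroup (Multiplicative ℤ))) ⊓
      (ng g (p ^ a) : A × Multiplicative ℤ →* A × Multiplicative ℤ).ker =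
      (E ⊓ (ng g (p ^ a) : A →* A).ker).prod ⊥ := by
    ext ⟨x, z⟩
    rw [Subgroup.mem_inf, Subgroup.mem_prod, Subgroup.mem_prod, Subgroup.mem_inf,
      MonoidHom.mem_ker, MonoidHom.mem_ker, hng]
    constructor
    · rintro ⟨⟨h1, -⟩, h2⟩
      obtain ⟨e1, e2⟩ := Prod.ext_iff.1 h2
      refine ⟨⟨h1, e1⟩, ?_⟩
      rw [Subgroup.mem_bot]
      have e3 : z ^ (p ^ a) = 1 := e2
      have hpa : (p ^ a : ℕ) ≠ 0 := (pow_pos hp a).ne'
      have e4 : ((p ^ a : ℕ) : ℤ) * Multiplicative.toAdd z = 0 := by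
        have := congrArg Multiplicative.toAdd e3
        rw [toAdd_pow] at this
        simpa using this
      rcases mul_eq_zero.1 e4 with h | h
      · exact absurd (by exact_mod_cast h) hpa
      · exact Multiplicative.toAdd.injective h
    · rintro ⟨⟨h1, h2⟩, h3⟩
      rw [Subgroup.mem_bot] at h3
      refine ⟨⟨h1, Subgroup.mem_top _⟩, ?_⟩
      exact Prod.ext h2 (by
        change z ^ (p ^ a) = 1
        have h3' : z = 1 := h3
        rw [h3', one_pow])
  rw [m1, hker, relIndex_prod] at k0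
  rw [m1, hker, relIndex_prod, m2, m3, relIndex_prod] at k1
  rw [Subgroup.relIndex_top_right, index_pow, Subgroup.relIndex_bot_right, mul_one] at k1
  rw [Subgroup.relIndex_top_right, index_pow] at k0
  refine ⟨?_, k1⟩
  rw [← k1]
  exact k0

end HQE

open HQE in
theorem p_HQE (hHERBQ : S_HERBQ) (hRK1 : S_RK1) (hRK2 : S_RK2) (hRK3 : S_RK3)
    (hCYC : S_CYC) : P_HQE := by
  intro p a _ K L _ _ _ _ _ g hc hinf
  obtain ⟨hgal, -, -, -, -, -, -, -, -, -, hfree⟩ := hCYC K K L g (p ^ a) hc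
  have hWU : ∀ h : L ≃ₐ[K] L, UE L ⊓ (dg h : Lˣ →* Lˣ).ker =
      WU ([] : List Unit) (fun _ => ⊥) (Subgroup.zpowers h) := by
    intro h
    rw [← STEPC.ker_fix ([] : List Unit) (fun _ => ⊥) h]
    congr 1
    refine (inf_eq_left.2 fun u _ => ?_).symm
    rw [mem_part]
    intro i hi
    exact absurd hi (by simp)
  have hfg : ∀ H : Subgroup (L ≃ₐ[K] L), (WU ([] : List Unit) (fun _ => ⊥) H).FG := by
    intro H
    exact (hRK3 K L Unit [] () (fun _ => ⊥) H (fun j _ => inferInstance)).1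
  refine abs hHERBQ p a Lˣ (L ≃ₐ[K] L) g (UE L) ?_ ?_ ?_ ?_
  · rw [← hc.ord]
    exact pow_orderOf_eq_one g
  · intro h
    rw [hWU]
    exact hfg _
  · intro u hu
    rw [MonoidHom.mem_ker] at hu ⊢
    rw [← smul_prin, hu, smul_one]
  · intro i hi
    rw [hWU, hWU, hRK1, hRK1]
    have h3 := hRK2 p a (L ≃ₐ[K] L) (InfinitePlace L) g ⊥ hc.ord (by simp)
      (by intro h hh; rw [Subgroup.mem_bot.1 hh]; simp) (hfree hinf) i hi
    rw [bot_sup_eq, bot_sup_eq] at h3
    exact h3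

end MU3
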