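import Pool.Agent.MU3.StS3

/-!
# MU3_ALGS: cyclic relations in characteristic `3`
-/

open NumberField IsDedekindDomain Finset
open scoped nonZeroDivisors Pointwise

namespace Pool.Agent.MU3

namespace P_ALGS

open Polynomial

variable {F : Type} [Field F]

/-- the shift -/
noncomputable def sh (F : Type) [Field F] (N : ℕ) : (ZMod N → F) →ₗ[F] (ZMod N → F) :=
  LinearMap.funLeft F F (fun j => j + 1)

theorem sh_pow (N k : ℕ) (y : ZMod N → F) (j : ZMod N) :
    ((sh F N ^ k) y) j = y (j + k) := by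
  induction k generalizing y with
  | zero => simp
  | succ k ih =>
    rw [pow_succ, Module.End.mul_apply, ih]
    unfold sh
    rw [LinearMap.funLeft_apply]
    push_cast
    rw [add_assoc]

theorem act_X_pow (N k : ℕ) (y : ZMod N → F) (j : ZMod N) :
    (aeval (sh F N) ((X : F[X]) ^ k) y) j = y (j + k) := by
  rw [map_pow, aeval_X, sh_pow]

/-- the polynomial of a function -/
noncomputable def po (N : ℕ) [NeZero N] (β : ZMod N → F) : F[X] :=
  ∑ l : ZMod N, C (β l) * X ^ l.val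

theorem aeval_po (N : ℕ) [NeZero N] (β y : ZMod N → F) (j : ZMod N) :
    (aeval (sh F N) (po N β) y) j = ∑ l, β l * y (j + l) := by
  unfold po
  rw [map_sum, LinearMap.sum_apply, Finset.sum_apply]
  refine sum_congr rfl fun l _ => ?_
  rw [map_mul, aeval_C, Module.End.mul_apply, Module.algebraMap_end_apply, Pi.smul_apply,
    act_X_pow, smul_eq_mul, ZMod.natCast_zmod_val]

end P_ALGS

open P_ALGS Polynomial

theorem t_ALGS : S_ALGS := by
  intro F _ _ m n hmn β x hβ hne j
  classical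
  haveI : Fact (Nat.Prime 3) := ⟨Nat.prime_three⟩
  haveI : NeZero (3 ^ n) := ⟨pow_ne_zero n (by norm_num)⟩
  set T := sh F (3 ^ n) with hT
  set P := po (3 ^ n) β with hP
  have hPx : aeval T P x = 0 := by
    funext i
    rw [hP, hT, aeval_po]
    simp only [Pi.zero_apply]
    rw [← hβ i]
    exact sum_congr rfl fun l _ => by rw [add_comm i l]
  have hfr : ∀ k : ℕ, (X - C (1 : F)) ^ (3 ^ k) = X ^ (3 ^ k) - 1 := by
    intro k
    rw [sub_pow_char_pow, C_1, one_pow]
  have hact : ∀ y : ZMod (3 ^ n) → F, aeval T ((X - C (1 : F)) ^ (3 ^ n)) y = 0 := by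
    intro y
    funext i
    rw [hfr, map_sub, map_one, LinearMap.sub_apply, Pi.sub_apply, hT, act_X_pow]
    simp
  set g := EuclideanDomain.gcd P ((X - C (1 : F)) ^ (3 ^ n)) with hg
  have hgx : aeval T g x = 0 := by
    rw [hg, EuclideanDomain.gcd_eq_gcd_ab, map_add, LinearMap.add_apply, mul_comm P,
      mul_comm ((X - C (1 : F)) ^ (3 ^ n)), map_mul, map_mul, Module.End.mul_apply,
      Module.End.mul_apply, hPx, hact]
    simp
  obtain ⟨v, hv, hass⟩ := (dvd_prime_pow (prime_X_sub_C (1 : F)) (3 ^ n)).1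
    (EuclideanDomain.gcd_dvd_right P ((X - C (1 : F)) ^ (3 ^ n)))
  have hvx : aeval T ((X - C (1 : F)) ^ v) x = 0 := by
    obtain ⟨c, hc⟩ := hass.dvd
    rw [hc, mul_comm, map_mul, Module.End.mul_apply, ← hg, hgx, map_zero]
  have hvP : (X - C (1 : F)) ^ v ∣ P :=
    hass.symm.dvd.trans (EuclideanDomain.gcd_dvd_left P ((X - C (1 : F)) ^ (3 ^ n)))
  by_cases hvm : v ≤ 3 ^ m
  · have h1 : aeval T ((X - C (1 : F)) ^ (3 ^ m)) x = 0 := by
      obtain ⟨c, hc⟩ := pow_dvd_pow (X - C (1 : F)) hvm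
      rw [hc, mul_comm, map_mul, Module.End.mul_apply, hvx, map_zero]
    have h2 := congrFun h1 j
    rw [hfr, map_sub, map_one, LinearMap.sub_apply, Pi.sub_apply, hT, act_X_pow] at h2
    simp only [Module.End.one_apply, Pi.zero_apply] at h2
    exact sub_eq_zero.1 h2
  · exfalso
    push Not at hvm
    apply hne
    obtain ⟨R, hR⟩ := (pow_dvd_pow (X - C (1 : F)) hvm.le).trans hvP
    have hle : 3 ^ m ≤ 3 ^ n := Nat.pow_le_pow_right (by norm_num) hmn
    have hgeo : ∑ i ∈ range (3 ^ (n - m)), ((X : F[X]) ^ (3 ^ m)) ^ i =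
        (X - C (1 : F)) ^ (3 ^ n - 3 ^ m) := by
      have h1 : (X : F[X]) ^ (3 ^ m) - 1 ≠ 0 := by
        rw [← hfr]
        exact pow_ne_zero _ (X_sub_C_ne_zero 1)
      apply mul_left_cancel₀ h1
      rw [mul_geom_sum, ← pow_mul, ← pow_add, Nat.add_sub_cancel' hmn, ← hfr, ← hfr, ← pow_add,
        Nat.add_sub_cancel' hle]
    have hz : ∀ y : ZMod (3 ^ n) → F,
        aeval T (P * ∑ i ∈ range (3 ^ (n - m)), ((X : F[X]) ^ (3 ^ m)) ^ i) y = 0 := by
      intro y
      rw [hgeo, hR, mul_right_comm, ← pow_add, Nat.add_sub_cancel' hle, map_mul,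
        Module.End.mul_apply, hact]
    have h0 := congrFun (hz (Pi.single 0 1)) 0
    rw [map_mul, Module.End.mul_apply, hP, hT, aeval_po] at h0
    simp only [Pi.zero_apply, zero_add] at h0
    rw [← h0]
    have h3 : ∀ l : ZMod (3 ^ n), (aeval (sh F (3 ^ n)) (∑ i ∈ range (3 ^ (n - m)), ((X : F[X]) ^ (3 ^ m)) ^ i)
        (Pi.single 0 1)) l = ∑ i ∈ range (3 ^ (n - m)),
          if l = -((3 ^ m * i : ℕ) : ZMod (3 ^ n)) then 1 else 0 := by
      intro l
      rw [map_sum, LinearMap.sum_apply, Finset.sum_apply]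
      refine sum_congr rfl fun i _ => ?_
      rw [← pow_mul, act_X_pow, Pi.single_apply]
      congr 1
      rw [eq_iff_iff, add_eq_zero_iff_eq_neg]
    simp only [h3, mul_sum]
    rw [sum_comm]
    refine sum_congr rfl fun i _ => ?_
    simp

end Pool.Agent.MU3
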