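import Pool.Agent.MU3.StGl

/-!
# MU3, module I3L: the non-cube at all levels `n ≥ m`
-/

open NumberField IsDedekindDomain Finset
open scoped nonZeroDivisors Pointwise

namespace Pool.Agent.MU3

open Pool.Agent.RI Pool.Agent.RID

namespace P_I3L

lemma Tg_mul {k L : Type} [Field k] [Field L] [Algebra k L] (γ : L ≃ₐ[k] L) (x y : L) :
    Tg γ (x * y) = Tg γ x * Tg γ y := by
  unfold Tg
  rw [map_mul, mul_div_mul_comm]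

lemma Tg_pow {k L : Type} [Field k] [Field L] [Algebra k L] (γ : L ≃ₐ[k] L) (x : L) (n : ℕ) :
    Tg γ (x ^ n) = Tg γ x ^ n := by
  unfold Tg
  rw [map_pow, div_pow]

/-- The value of `sUnit` in `L`. -/
lemma sUnit_val {k L F : Type} [Field k] [Field L] [NumberField L] [Algebra k L] [Field F]
    (D : Subgroup (L ≃ₐ[k] L)) [Fintype D] (γ : L ≃ₐ[k] L) (m n : ℕ) (χ : D →* Fˣ)
    (θ : F →+ ZMod 3) (u : (𝓞 L)ˣ) :
    ((sUnit D γ m n χ θ u : 𝓞 L) : L) =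
      ∏ δ : D, ((δ : L ≃ₐ[k] L) (∏ i ∈ range (3 ^ (n - m)), ((γ ^ (3 ^ m)) ^ i) ((u : 𝓞 L) : L))) ^
        (θ ((χ δ)⁻¹ : Fˣ)).val := by
  let ψ : (𝓞 L)ˣ →* L := (algebraMap (𝓞 L) L : 𝓞 L →* L).comp (Units.coeHom (𝓞 L))
  have hψ : ∀ x : (𝓞 L)ˣ, ((x : 𝓞 L) : L) = ψ x := fun _ => rfl
  have hψs : ∀ (σ : L ≃ₐ[k] L) (x : (𝓞 L)ˣ), ψ (σ • x) = σ (ψ x) := fun _ _ => rfl
  rw [hψ, hψ]
  unfold sUnit
  rw [map_prod]
  refine prod_congr rfl fun δ _ => ?_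
  rw [map_pow, hψs, ng_apply, map_prod]
  simp only [hψs]

lemma core {k L M F : Type} [Field k] [Field L] [NumberField L] [Field M] [Algebra k L]
    [Algebra k M] [Field F] (j : M →+* L) (r : (L ≃ₐ[k] L) →* (M ≃ₐ[k] M))
    (hr : ∀ (σ : L ≃ₐ[k] L) (x : M), j (r σ x) = σ (j x))
    (comm : ∀ σ τ : M ≃ₐ[k] M, σ * τ = τ * σ) (γ : L ≃ₐ[k] L) (m n m₀ : ℕ)
    (hfix : ∀ x : L, (γ ^ (3 ^ m)) x = x ↔ ∃ z : M, j z = x)
    (D : Subgroup (L ≃ₐ[k] L)) [Fintype D] (D' : Subgroup (M ≃ₐ[k] M)) [Fintype D']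
    (e : D ≃* D') (he : ∀ δ : D, ((e δ : D') : M ≃ₐ[k] M) = r δ)
    (cn : L) (cm : M) (hcn : cn ≠ 0) (hcm : cm ≠ 0) (C : L) (hC : C ≠ 0)
    (hCγ : ∀ σ : L ≃ₐ[k] L, σ C = C)
    (hnrm : ∏ i ∈ range (3 ^ (n - m)), (γ ^ (3 ^ m * i)) cn = C * j cm)
    (hω : ∀ w : L, w ^ 3 = 1 → γ w = w) (u : (𝓞 L)ˣ)
    (hu : ((u : 𝓞 L) : L) = ((γ ^ (3 ^ m₀)) ^ 3) cn / cn)
    (χ : D →* Fˣ) (θ : F →+ ZMod 3)
    (hi3 : ∀ y : M, y ^ 3 ≠ ∏ δ : D', ((δ : M ≃ₐ[k] M)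
      ((Tg (r γ))^[3 ^ (m₀ + 1) + 1] cm)) ^ (θ ((χ.comp e.symm.toMonoidHom δ)⁻¹ : Fˣ)).val)
    (hTN : ∃ w : M, w ≠ 0 ∧ (Tg (r γ))^[3 ^ (m₀ + 1)] cm =
      ((r γ) ^ (3 ^ (m₀ + 1))) cm / cm * w ^ 3) :
    ∀ y : L, y ^ 3 ≠ ((sUnit D γ m n χ θ u : 𝓞 L) : L) := by
  intro y hy
  rw [sUnit_val] at hy
  set G : L ≃ₐ[k] L := (γ ^ (3 ^ m₀)) ^ 3 with hG
  have hG' : G = γ ^ (3 ^ (m₀ + 1)) := by rw [hG, ← pow_mul, pow_succ]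
  set um : M := ((r γ) ^ (3 ^ (m₀ + 1))) cm / cm with hum
  have hjcm : j cm ≠ 0 := by rw [Ne, map_eq_zero]; exact hcm
  have hrG : r G = (r γ) ^ (3 ^ (m₀ + 1)) := by rw [hG', map_pow]
  -- the norm of u
  have hN : ∏ i ∈ range (3 ^ (n - m)), ((γ ^ (3 ^ m)) ^ i) ((u : 𝓞 L) : L) = j um := by
    have e1 : ∀ i ∈ range (3 ^ (n - m)), ((γ ^ (3 ^ m)) ^ i) ((u : 𝓞 L) : L) =
        G ((γ ^ (3 ^ m * i)) cn) / (γ ^ (3 ^ m * i)) cn := by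
      intro i _
      rw [hu, ← pow_mul, map_div₀]
      congr 1
      rw [← AlgEquiv.mul_apply, ← AlgEquiv.mul_apply, hG', ← pow_add, ← pow_add, add_comm]
    rw [prod_congr rfl e1, prod_div_distrib, ← map_prod, hnrm, map_mul, hCγ, ← hr, hrG,
      mul_div_mul_left _ _ hC, hum, map_div₀]
  rw [hN] at hy
  -- the element of M
  set sm : M := ∏ δ : D', ((δ : M ≃ₐ[k] M) um) ^
    (θ ((χ.comp e.symm.toMonoidHom δ)⁻¹ : Fˣ)).val with hsm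
  have hs : ∏ δ : D, ((δ : L ≃ₐ[k] L) (j um)) ^ (θ ((χ δ)⁻¹ : Fˣ)).val = j sm := by
    rw [hsm, map_prod, ← e.toEquiv.prod_comp]
    refine prod_congr rfl fun δ _ => ?_
    rw [map_pow]
    congr 1
    · rw [← hr]
      congr 1
      show (r δ) um = ((e δ : D') : M ≃ₐ[k] M) um
      rw [he]
    · show _ = (θ ((χ (e.symm (e δ)))⁻¹ : Fˣ)).val
      rw [e.symm_apply_apply]
  rw [hs] at hy
  have hum0 : um ≠ 0 := by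
    rw [hum]
    exact div_ne_zero ((map_ne_zero _).mpr hcm) hcm
  have hsm0 : sm ≠ 0 := by
    rw [hsm, prod_ne_zero_iff]
    intro δ _
    exact pow_ne_zero _ ((map_ne_zero _).mpr hum0)
  have hjsm0 : j sm ≠ 0 := (map_ne_zero _).mpr hsm0
  have hy0 : y ≠ 0 := by
    rintro rfl
    rw [zero_pow (by norm_num)] at hy
    exact hjsm0 hy.symm
  set h : L ≃ₐ[k] L := γ ^ (3 ^ m) with hh
  have hhy : h y ≠ 0 := (map_ne_zero _).mpr hy0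
  have hw3 : (h y / y) ^ 3 = 1 := by
    rw [div_pow, ← map_pow, hy, (hfix (j sm)).mpr ⟨sm, rfl⟩, div_self hjsm0]
  have hw : γ (h y / y) = h y / y := hω _ hw3
  have hcomm : ∀ x : L, h (γ x) = γ (h x) := by
    intro x
    rw [← AlgEquiv.mul_apply, ← AlgEquiv.mul_apply, hh, ← pow_succ, ← pow_succ']
  have hγy : γ y ≠ 0 := (map_ne_zero _).mpr hy0
  have ht : h (γ y / y) = γ y / y := by
    rw [map_div₀, hcomm]
    rw [map_div₀] at hw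
    rw [div_eq_div_iff hγy hy0] at hw
    rw [div_eq_div_iff hhy hy0, hw, mul_comm]
  obtain ⟨t, htj⟩ := (hfix _).mp ht
  -- γ' sm / sm = t ^ 3
  have hT : Tg (r γ) sm = t ^ 3 := by
    apply j.injective
    unfold Tg
    rw [map_div₀, hr, map_pow, htj, div_pow, ← map_pow, hy]
  have hT2 : Tg (r γ) sm = ∏ δ : D', ((δ : M ≃ₐ[k] M) (Tg (r γ) um)) ^
      (θ ((χ.comp e.symm.toMonoidHom δ)⁻¹ : Fˣ)).val := by
    unfold Tg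
    rw [hsm, map_prod, ← prod_div_distrib]
    refine prod_congr rfl fun δ _ => ?_
    rw [map_pow, ← div_pow]
    congr 1
    have e2 : (δ : M ≃ₐ[k] M) ((r γ) um / um) = (δ : M ≃ₐ[k] M) ((r γ) um) / (δ : M ≃ₐ[k] M) um :=
      map_div₀ _ _ _
    have e3 : (r γ) ((δ : M ≃ₐ[k] M) um) = (δ : M ≃ₐ[k] M) ((r γ) um) := by
      have := comm (r γ) (δ : M ≃ₐ[k] M)
      exact congrArg (fun f : M ≃ₐ[k] M => f um) this
    rw [e2, e3]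
  obtain ⟨w, hw0, hTw⟩ := hTN
  have hTN' : (Tg (r γ))^[3 ^ (m₀ + 1) + 1] cm = Tg (r γ) um * (Tg (r γ) w) ^ 3 := by
    rw [Function.iterate_succ_apply', hTw, Tg_mul, Tg_pow]
  apply hi3 (t * ∏ δ : D', ((δ : M ≃ₐ[k] M) (Tg (r γ) w)) ^
      (θ ((χ.comp e.symm.toMonoidHom δ)⁻¹ : Fˣ)).val)
  rw [hTN', mul_pow, ← hT, hT2, ← prod_pow, ← prod_mul_distrib]
  refine prod_congr rfl fun δ _ => ?_
  rw [map_mul, map_pow, mul_pow]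
  congr 1
  rw [← pow_mul, ← pow_mul, mul_comm]

end P_I3L

open P_I3L in
theorem t_I3L (h0 : S_GALK) (h1 : S_RST) (h2 : S_NRM) (h3 : S_TN) : S_I3L := by
  intro F _ k K B _ _ _ hB hω hk S c n₁ hI m₀
  obtain ⟨ω, hωK, hω1⟩ := hω
  obtain ⟨n₀, hn₀⟩ := hI.i3 (3 ^ (m₀ + 1) + 1)
  obtain ⟨m, hm1, hm2⟩ : ∃ m, n₁ ≤ m ∧ n₀ ≤ m := ⟨max n₁ n₀, le_max_left _ _, le_max_right _ _⟩
  refine ⟨m, hm1, ?_⟩
  intro n hmn
  letI := algC (hk n)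
  letI := algC (hk m)
  intro γ hγ _ u hu χ
  have hsub : K ⊔ B m ≤ K ⊔ B n := sup_le_sup_left (hB.mono hmn) K
  obtain ⟨r, hr, hrγ, e, he⟩ := h1 k K B hB m n hmn (hk n) (hk m) hsub
  obtain ⟨hr1, hr2⟩ := hrγ γ hγ
  letI : Fintype (NC (hk m) (B m)) := Fintype.ofEquiv _ e.toEquiv
  obtain ⟨θ, hθ⟩ := hn₀ m hm2 (r γ) hr1 (χ.comp e.symm.toMonoidHom)
  obtain ⟨C, hCk, hC0, hC⟩ := h2 F k K B hB hk S c n₁ hI m n hm1 hmn γ hγ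
  refine ⟨θ, ?_⟩
  have hcn : (⟨c n, hI.mem n⟩ : ↥(K ⊔ B n)) ≠ 0 := by
    intro h; exact hI.ne n (congrArg Subtype.val h)
  have hcm : (⟨c m, hI.mem m⟩ : ↥(K ⊔ B m)) ≠ 0 := by
    intro h; exact hI.ne m (congrArg Subtype.val h)
  have a1 := h3 k ↥(K ⊔ B m) (r γ) (m₀ + 1) _ hcm
  have a2 := (h0 k K B hB m (hk m)).2
  have b1 : ∀ (σ : ↥(K ⊔ B n) ≃ₐ[k] ↥(K ⊔ B n)) (x : ↥(K ⊔ B m)),
      (IntermediateField.inclusion hsub : ↥(K ⊔ B m) →+* ↥(K ⊔ B n)) (r σ x) =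
        σ ((IntermediateField.inclusion hsub : ↥(K ⊔ B m) →+* ↥(K ⊔ B n)) x) :=
    fun σ x => Subtype.ext (hr σ x)
  have b2 : ∀ x : ↥(K ⊔ B n), (γ ^ (3 ^ m)) x = x ↔
      ∃ z : ↥(K ⊔ B m), (IntermediateField.inclusion hsub : ↥(K ⊔ B m) →+* ↥(K ⊔ B n)) z = x := by
    intro x
    rw [hr2 x]
    constructor
    · intro hx
      exact ⟨⟨x, hx⟩, rfl⟩
    · rintro ⟨z, rfl⟩
      exact z.2
  have b3 : algebraMap k ↥(K ⊔ B n) ⟨C, hCk⟩ ≠ 0 := by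
    rw [Ne, map_eq_zero]
    intro h; exact hC0 (congrArg Subtype.val h)
  have b4 : ∀ σ : ↥(K ⊔ B n) ≃ₐ[k] ↥(K ⊔ B n),
      σ (algebraMap k ↥(K ⊔ B n) ⟨C, hCk⟩) = algebraMap k ↥(K ⊔ B n) ⟨C, hCk⟩ :=
    fun σ => σ.commutes _
  have b5 : ∏ i ∈ range (3 ^ (n - m)), (γ ^ (3 ^ m * i)) ⟨c n, hI.mem n⟩ =
      algebraMap k ↥(K ⊔ B n) ⟨C, hCk⟩ *
        (IntermediateField.inclusion hsub : ↥(K ⊔ B m) →+* ↥(K ⊔ B n)) ⟨c m, hI.mem m⟩ :=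
    Subtype.ext hC
  have b6 : ∀ w : ↥(K ⊔ B n), w ^ 3 = 1 → γ w = w := by
    intro w hw
    rw [hγ w]
    have hw' : (w : ℂ) ^ 3 = 1 := by
      have := congrArg Subtype.val hw
      exact this
    have h4 : ((w : ℂ) - 1) * (((w : ℂ) - ω) * ((w : ℂ) + ω + 1)) = 0 := by
      linear_combination hw' - ((w : ℂ) - 1) * hω1
    rcases mul_eq_zero.mp h4 with h5 | h5
    · rw [sub_eq_zero.mp h5]; exact K.one_mem
    · rcases mul_eq_zero.mp h5 with h6 | h6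
      · rw [sub_eq_zero.mp h6]; exact hωK
      · have : (w : ℂ) = -(ω + 1) := by linear_combination h6
        rw [this]
        exact K.neg_mem (K.add_mem hωK K.one_mem)
  have a4 := core (F := F) _ r b1 a2 γ m n m₀ b2 (NC (hk n) (B n)) (NC (hk m) (B m)) e he
  have a5 := a4 ⟨c n, hI.mem n⟩ ⟨c m, hI.mem m⟩ hcn hcm _ b3 b4 b5 b6 u hu χ θ
  have a6 := a5 hθ a1
  exact a6

end Pool.Agent.MU3
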