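import Pool.Agent.MU3.StQ

/-!
# MU3, block WQ: the weight 0 functions `ev`
-/

set_option autoImplicit false

namespace Pool.Agent.MU3Q

open UpperHalfPlane ModularForm EisensteinSeries
open scoped MatrixGroups

namespace EV

lemma E4_slash (γ : SL(2, ℤ)) (τ : ℍ) :
    E₄ (γ • τ) = (((γ 1 0 : ℤ) : ℂ) * (τ : ℂ) + ((γ 1 1 : ℤ) : ℂ)) ^ 4 * E₄ τ := by
  have h := SlashInvariantForm.slash_action_eqn' E₄
    (γ := (γ : GL (Fin 2) ℝ)) (Set.mem_range_self γ) τ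
  have h2 : ((γ : GL (Fin 2) ℝ) • τ) = γ • τ := rfl
  rw [h2] at h
  rw [h]
  norm_cast

lemma D_slash (γ : SL(2, ℤ)) (τ : ℍ) :
    discriminant (γ • τ) =
      (((γ 1 0 : ℤ) : ℂ) * (τ : ℂ) + ((γ 1 1 : ℤ) : ℂ)) ^ 12 * discriminant τ := by
  have h := SlashInvariantForm.slash_action_eqn' CuspForm.discriminant
    (γ := (γ : GL (Fin 2) ℝ)) (Set.mem_range_self γ) τ
  have h2 : ((γ : GL (Fin 2) ℝ) • τ) = γ • τ := rfl
  rw [h2] at h
  have h3 : ∀ τ : ℍ, CuspForm.discriminant τ = discriminant τ := fun τ => rfl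
  rw [h3, h3] at h
  rw [h]
  norm_cast

lemma den_ne (γ : SL(2, ℤ)) (τ : ℍ) :
    (((γ 1 0 : ℤ) : ℂ) * (τ : ℂ) + ((γ 1 1 : ℤ) : ℂ)) ≠ 0 := by
  have h := UpperHalfPlane.denom_ne_zero (γ : GL (Fin 2) ℝ) τ
  rw [ModularGroup.denom_apply] at h
  exact_mod_cast h

lemma hol_E4 : Hol (fun τ => E₄ τ) := UpperHalfPlane.mdifferentiable_iff.1 E₄.holo'

lemma hol_D : Hol (fun τ => discriminant τ) :=
  UpperHalfPlane.mdifferentiable_iff.1 CuspForm.discriminant.holo'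

lemma hol_ev {N : ℕ} {v : Fin 2 → ZMod N} (h : Hol (Gv N v)) : Hol (ev N v) := by
  have h1 : DifferentiableOn ℂ (fun z => (Gv N v ∘ ofComplex) z *
      ((fun τ => E₄ τ) ∘ ofComplex) z ^ 2 / ((fun τ => discriminant τ) ∘ ofComplex) z)
      {z : ℂ | 0 < z.im} :=
    (h.mul (hol_E4.pow 2)).div hol_D (fun z _ => discriminant_ne_zero _)
  exact h1

lemma bdd_ev {N : ℕ} {v : Fin 2 → ZMod N} (h : IsBoundedAtImInfty (Gv N v)) : Grow (ev N v) := by
  refine ⟨1, ?_⟩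
  have h4 : IsBoundedAtImInfty (fun τ => E₄ τ) := ModularFormClass.bdd_at_infty E₄
  have h5 : (fun τ : ℍ => discriminant τ ^ 1 * ev N v τ) =
      (Gv N v) * ((fun τ => E₄ τ) * (fun τ => E₄ τ)) := by
    funext τ
    simp only [pow_one, ev, Pi.mul_apply]
    field_simp [discriminant_ne_zero τ]
  rw [h5]
  exact h.mul (h4.mul h4)

end EV

open EV in
theorem t_EV (hE1 : St_E1) (hE2 : St_E2) (hE3 : St_E3) (hJB : St_JB) : St_EV := by
  intro N hN
  have htr : ∀ v (γ : SL(2, ℤ)) (τ : ℍ), ev N v (γ • τ) = ev N (vm v γ) τ := by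
    intro v γ τ
    unfold ev
    rw [hE2, E4_slash, D_slash]
    have h1 := den_ne γ τ
    have h2 := discriminant_ne_zero τ
    field_simp
  refine ⟨fun v => ⟨hol_ev (hE1 N v hN).1, bdd_ev (hE1 N v hN).2⟩, htr, fun γ h => ?_⟩
  apply hE3 N γ hN
  have hdom := hJB.2.2.2.2.2.2.2.1
  have hadd := hJB.2.2.2.2.1
  have hc := hJB.2.2.2.2.2.2.1
  set F : ℍ → ℂ := fun τ => Gv N (vm (v01 N) γ) τ + (-1) * Gv N (v01 N) τ with hF
  have hFh : Hol F :=
    (hadd _ _ (hE1 N (vm (v01 N) γ) hN).1 (hadd _ _ (hc (-1)).1 (hE1 N (v01 N) hN).1).2).1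
  have hG : Hol (fun τ => E₄ τ * E₄ τ) := (hadd _ _ hol_E4 hol_E4).2
  have hz : ∀ τ, F τ * (E₄ τ * E₄ τ) = 0 := by
    intro τ
    have h1 := congrFun h τ
    unfold ev at h1
    have h2 := discriminant_ne_zero τ
    rw [div_left_inj' h2] at h1
    rw [hF]
    linear_combination h1
  rcases hdom F _ hFh hG hz with h1 | h1
  · funext τ
    have := h1 τ
    rw [hF] at this
    linear_combination this
  · exfalso
    have h3 : (E₄ : ModularForm 𝒮ℒ 4) = 0 := by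
      ext τ
      have := h1 τ
      simpa using this
    exact E_ne_zero _ ⟨2, rfl⟩ h3

end Pool.Agent.MU3Q
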