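import Pool.Agent.MU3.StQ

/-!
# MU3, block WQ: the final assembly
-/

set_option autoImplicit false

namespace Pool.Agent.MU3Q

open UpperHalfPlane ModularForm EisensteinSeries
open scoped MatrixGroups

namespace WQ

lemma vm_mul {N : ℕ} (v : Fin 2 → ZMod N) (γ γ' : SL(2, ℤ)) : vm (vm v γ) γ' = vm v (γ * γ') := by
  funext j
  simp only [vm, Matrix.SpecialLinearGroup.coe_mul, Matrix.mul_apply, Fin.sum_univ_two]
  push_cast
  ring

lemma vm_one {N : ℕ} (v : Fin 2 → ZMod N) : vm v 1 = v := by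
  funext j
  fin_cases j <;> simp [vm]

lemma vm_neg {N : ℕ} (v : Fin 2 → ZMod N) (γ : SL(2, ℤ)) : vm v (-γ) = -vm v γ := by
  funext j
  simp only [vm, Matrix.SpecialLinearGroup.coe_neg, Matrix.neg_apply, Pi.neg_apply]
  push_cast
  ring

lemma neg_vm {N : ℕ} (v : Fin 2 → ZMod N) (γ : SL(2, ℤ)) : vm (-v) γ = -vm v γ := by
  funext j
  simp only [vm, Pi.neg_apply]
  ring

lemma mem_Gamma1 {N : ℕ} {γ : SL(2, ℤ)} (h : vm (v01 N) γ = v01 N) :
    γ ∈ CongruenceSubgroup.Gamma1 N := by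
  have h0 := congrFun h 0
  have h1 := congrFun h 1
  simp only [vm, v01, Matrix.cons_val_zero, Matrix.cons_val_one, zero_mul, one_mul, zero_add]
    at h0 h1
  rw [CongruenceSubgroup.Gamma1_mem]
  have hdet := γ.det_coe
  rw [Matrix.det_fin_two] at hdet
  have hdet' := congrArg (fun x : ℤ => (x : ZMod N)) hdet
  simp only [Int.cast_sub, Int.cast_mul, Int.cast_one] at hdet'
  refine ⟨?_, h1, h0⟩
  rw [h0, h1] at hdet'
  simpa using hdet'

/-- Cauchy product of two convergent series at one point. -/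
lemma hasSum_mul {u v : PowerSeries ℂ} {q a b : ℂ}
    (hu : HasSum (fun n : ℕ => PowerSeries.coeff n u * q ^ n) a)
    (hv : HasSum (fun n : ℕ => PowerSeries.coeff n v * q ^ n) b) :
    HasSum (fun n : ℕ => PowerSeries.coeff n (u * v) * q ^ n) (a * b) := by
  have h1 := hu.summable.norm
  have h2 := hv.summable.norm
  have h3 := (summable_norm_sum_mul_antidiagonal_of_summable_norm h1 h2).of_norm.hasSum
  rw [← tsum_mul_tsum_eq_tsum_sum_antidiagonal_of_summable_norm h1 h2, hu.tsum_eq, hv.tsum_eq] at h3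
  refine h3.congr_fun fun n => ?_
  rw [PowerSeries.coeff_mul, Finset.sum_mul]
  refine Finset.sum_congr rfl fun p hp => ?_
  have := Finset.HasAntidiagonal.mem_antidiagonal.1 hp
  rw [← this, pow_add]
  ring

/-- `ej` of a constant times a polynomial. -/
lemma ej_C_mul (D : Polynomial ℂ) (T : Polynomial (Polynomial ℂ)) (τ : ℍ) (e : ℂ) :
    ej (Polynomial.C D * T) τ e = D.eval (jf τ) * ej T τ e := by
  simp [ej, Polynomial.evalEval]

lemma hol_sub_poly (hJB : St_JB) (D : Polynomial ℂ) : Hol (fun τ => D.eval (jf τ)) := by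
  obtain ⟨hj, -, -, -, hH, -, hc, -, -⟩ := hJB
  induction D using Polynomial.induction_on' with
  | add p q hp hq =>
    simp only [Polynomial.eval_add]
    exact (hH _ _ hp hq).1
  | monomial n a =>
    simp only [Polynomial.eval_monomial]
    refine (hH _ _ (hc a).1 ?_).2
    induction n with
    | zero => simpa using (hc 1).1
    | succ n ih =>
      simp only [pow_succ]
      exact (hH _ _ ih hj).2

lemma hol_ej (hJB : St_JB) (T : Polynomial (Polynomial ℂ)) {e : ℍ → ℂ} (he : Hol e) :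
    Hol (fun τ => ej T τ (e τ)) := by
  have hJB' := hJB
  obtain ⟨hj, -, -, -, hH, -, hc, -, -⟩ := hJB
  induction T using Polynomial.induction_on' with
  | add p q hp hq =>
    have : (fun τ => ej (p + q) τ (e τ)) = fun τ => ej p τ (e τ) + ej q τ (e τ) := by
      funext τ
      simp [ej, Polynomial.evalEval]
    rw [this]
    exact (hH _ _ hp hq).1
  | monomial n a =>
    have : (fun τ => ej (Polynomial.monomial n a) τ (e τ)) =
        fun τ => a.eval (jf τ) * e τ ^ n := by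
      funext τ
      simp [ej, Polynomial.evalEval, Polynomial.eval_monomial]
    rw [this]
    refine (hH _ _ (hol_sub_poly hJB' a) ?_).2
    clear this
    induction n with
    | zero => simpa using (hc 1).1
    | succ n ih =>
      simp only [pow_succ]
      exact (hH _ _ ih he).2

end WQ

open WQ in
theorem t_WQ (hLA : St_LA) (hJB : St_JB) (hQA : St_QA) (hINT : St_INT) (hPOLE : St_POLE)
    (hEV : St_EV) (hMR : St_MR) (hODE : St_ODE) (hODEK : St_ODEK) (hEXP : St_EXP) : St_WQ := by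
  classical
  intro K V N L c0 a2 a4 a6 Z z hN hζ ha2 ha4 ha6 hcurve hzK hz0 hz1 hZ hC hΓ
  have : NeZero N := ⟨hN.ne'⟩
  obtain ⟨S, hS0, hS1, hS2, hSode, Y1, hS⟩ := hODE L c0 a2 a4 a6 hcurve Z z hZ hz0 hz1
  have hSK := hODEK K a2 a4 a6 z S ha2 ha4 ha6 hzK hz0 hz1 hS0 hS1 hS2 hSode
  refine ⟨S, hSK, hS0, hS1, hS2, hSode, ?_⟩
  set X : ℍ → ℂ := fun τ => (L.weierstrassP (Z τ) + c0)⁻¹ with hXdef
  -- invariance
  have hXinv : ∀ γ ∈ CongruenceSubgroup.Gamma1 N, ∀ τ : ℍ, X (γ • τ) = X τ := by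
    intro γ hγ τ
    have h1 := hΓ γ hγ τ
    have h2 : Z (γ • τ) = Z τ + ((⟨_, h1⟩ : L.lattice) : ℂ) :=
      (add_sub_cancel (Z τ) (Z (γ • τ))).symm
    change (L.weierstrassP (Z (γ • τ)) + c0)⁻¹ = (L.weierstrassP (Z τ) + c0)⁻¹
    rw [h2, L.weierstrassP_add_coe]
  have hXeq : ∀ γ γ' : SL(2, ℤ), vm (v01 N) γ = vm (v01 N) γ' → ∀ τ, X (γ • τ) = X (γ' • τ) := by
    intro γ γ' h τ
    have h1 : vm (v01 N) (γ * γ'⁻¹) = v01 N := by
      rw [← vm_mul, h, vm_mul, mul_inv_cancel, vm_one]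
    have h2 := hXinv _ (mem_Gamma1 h1) (γ' • τ)
    rw [← h2, ← mul_smul, inv_mul_cancel_right]
  have hXneg : ∀ γ γ' : SL(2, ℤ), vm (v01 N) γ = -vm (v01 N) γ' →
      ∀ τ, X (γ • τ) = X (γ' • τ) := by
    intro γ γ' h τ
    have h1 : vm (v01 N) γ = vm (v01 N) (-γ') := by rw [vm_neg, h]
    rw [hXeq _ _ h1, ModularGroup.SL_neg_smul]
  -- the family
  let ι : Type := {v : Fin 2 → ZMod N // ∃ γ : SL(2, ℤ), v = vm (v01 N) γ}
  have : Fintype ι := Fintype.ofFinite ι
  let g : ι → SL(2, ℤ) := fun v => v.2.choose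
  have hg : ∀ v : ι, v.1 = vm (v01 N) (g v) := fun v => v.2.choose_spec
  let mv : SL(2, ℤ) → ι → ι := fun γ v => ⟨vm v.1 γ, g v * γ, by rw [← vm_mul, ← hg]⟩
  have hmv : ∀ (γ : SL(2, ℤ)) (v : ι), (mv γ v).1 = vm v.1 γ := fun γ v => rfl
  let pm : SL(2, ℤ) → Equiv.Perm ι := fun γ =>
    { toFun := mv γ
      invFun := mv γ⁻¹
      left_inv := fun v => Subtype.ext (by rw [hmv, hmv, vm_mul, mul_inv_cancel, vm_one])
      right_inv := fun v => Subtype.ext (by rw [hmv, hmv, vm_mul, inv_mul_cancel, vm_one]) }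
  let Xv : ι → ℍ → ℂ := fun v τ => X (g v • τ)
  have hXv : ∀ (γ : SL(2, ℤ)) (v : ι) (τ : ℍ), Xv v (γ • τ) = Xv (pm γ v) τ := by
    intro γ v τ
    change X (g v • (γ • τ)) = X (g (mv γ v) • τ)
    rw [← mul_smul]
    apply hXeq
    rw [← vm_mul, ← hg, ← hg]
  obtain ⟨D, hD0, y, hy, hyeq, Y0, hY0⟩ := hPOLE ι Xv (fun v => by
      obtain ⟨C, w, hw⟩ := hC (g v)
      exact hMR L c0 (fun τ => Z (g v • τ)) C w N hN hw)
    (fun γ v => ⟨pm γ v, hXv γ v⟩)
  obtain ⟨hev1, hev2, hev3⟩ := hEV N hN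
  let i0 : ι := ⟨v01 N, 1, (vm_one _).symm⟩
  obtain ⟨T, R, hTR, τ0, hτ0⟩ := hINT ι (fun v => ev N v.1) y
    (fun v => ⟨(hev1 _).1, (hev1 _).2, (hy v).1, (hy v).2⟩)
    (fun γ => ⟨pm γ, fun v τ => ⟨hev2 _ _ _, hyeq γ v (pm γ v) (hXv γ v) τ⟩⟩)
    (fun v v' h => by
      have h1 : ev N (vm (v01 N) (g v * (g v')⁻¹)) = ev N (v01 N) := by
        funext τ
        have h2 : ev N v.1 ((g v')⁻¹ • τ) = ev N v'.1 ((g v')⁻¹ • τ) := by
          have := congrFun h ((g v')⁻¹ • τ)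
          exact this
        rw [hev2, hev2, hg v, hg v', vm_mul, vm_mul, mul_inv_cancel, vm_one] at h2
        exact h2
      have h3 : ∀ τ, X (g v • τ) = X (g v' • τ) := by
        rcases hev3 _ h1 with h | h
        · apply hXeq
          have := congrArg (fun u => vm u (g v')) h
          simpa only [vm_mul, inv_mul_cancel_right] using this
        · apply hXneg
          have := congrArg (fun u => vm u (g v')) h
          simpa only [vm_mul, inv_mul_cancel_right, neg_vm] using this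
      funext τ
      have h4 := hyeq 1 v v' (fun τ => by
        rw [one_smul]
        exact h3 τ) τ
      rwa [one_smul] at h4) i0
  have hX0 : ∀ τ, Xv i0 τ = X τ := by
    intro τ
    have := hXeq (g i0) 1 (by rw [← hg, vm_one]) τ
    rwa [one_smul] at this
  obtain ⟨M1, hM1⟩ := hEXP N K V hN hζ (Polynomial.C D * T)
  obtain ⟨M2, hM2⟩ := hEXP N K V hN hζ R
  obtain ⟨uA, huA, hA⟩ := hM1 (max M1 M2) (le_max_left _ _)
  obtain ⟨uB, huB, hB⟩ := hM2 (max M1 M2) (le_max_right _ _)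
  set M := max M1 M2 with hM
  have hrel : uA * S = uB := by
    refine hQA.2.2.2.2 (fun τ => ModularForm.discriminant τ ^ M * ej R τ (ev N (v01 N) τ)) _ _
      (max Y0 Y1) (fun τ hτ => ?_) (fun τ _ => hB τ)
    have h1 := hasSum_mul (hA τ) (hS τ (lt_of_le_of_lt (le_max_right _ _) hτ))
    have h2 : ModularForm.discriminant τ ^ M *
        ej (Polynomial.C D * T) τ (ev N (v01 N) τ) * (L.weierstrassP (Z τ) + c0)⁻¹ =
        ModularForm.discriminant τ ^ M * ej R τ (ev N (v01 N) τ) := by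
      have h3 := hTR τ
      rw [hY0 i0 τ (lt_of_le_of_lt (le_max_left _ _) hτ), hX0] at h3
      have h4 : ej R τ (ev N (v01 N) τ) =
          D.eval (jf τ) * X τ * ej T τ (ev N (v01 N) τ) := h3.symm
      rw [h4, ej_C_mul]
      ring
    rw [← h2]
    exact h1
  have hne : uA ≠ 0 := by
    intro h0
    have h1 : ∀ τ, ej (Polynomial.C D * T) τ (ev N (v01 N) τ) = 0 := by
      intro τ
      have h2 := hA τ
      rw [h0] at h2
      simp only [map_zero, zero_mul] at h2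
      have h3 := h2.unique hasSum_zero
      exact (mul_eq_zero.1 h3).resolve_left (pow_ne_zero _ (ModularForm.discriminant_ne_zero τ))
    obtain ⟨Y2, hY2⟩ := hJB.2.2.2.1 D hD0
    have h4 : ∀ τ : ℍ, Y2 < τ.im → ej T τ (ev N (v01 N) τ) = 0 := by
      intro τ hτ
      have h5 := h1 τ
      rw [ej_C_mul] at h5
      exact (mul_eq_zero.1 h5).resolve_left (hY2 τ hτ)
    exact hτ0 (hJB.2.2.2.2.2.2.2.2 (fun τ => ej T τ (ev N (v01 N) τ)) Y2
      (hol_ej hJB T (hev1 _).1) h4 τ0)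
  exact hLA K V S uA uB hSK huA huB hne hrel

end Pool.Agent.MU3Q
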