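import Pool.Agent.Lib_helper28.FROB.Zeta

/-!
# MU3, block D: prime ideals in ideal classes with a splitting condition

Main statements: `Stmt_DENS` (the degree one primes of `L` which do not split completely in `M`,
`[M : L] ≥ 3`, generate the class group of `L`) and `Stmt_THD` (the same with the condition that a
given element is not a cube).

Every `def Stmt_X : Prop` is the statement of a module, the doc string contains the proof; the
module proves `theorem m_X : Stmt_Y → ... → Stmt_X`. Tools: `Pool/Agent/Lib_helper28/FROB`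
(`x s v = N(v)^(-s)`, `summable_x`, `x_pos`, `x_le`, `Z K s`, `isBigO_sum`, `tendsto_Z`, `norm_eq`,
`pr`, `dg`, `card_fiber_le`, `tsum_pr_le`).

Notation: `d = [K : ℚ]`, `r = rank K`, `s` is real. All sums are absolutely convergent for `s > 1`.
-/

open NumberField IsDedekindDomain Ideal Filter Topology
open NumberField.Units NumberField.mixedEmbedding NumberField.Units.dirichletUnitTheorem
open scoped nonZeroDivisors

namespace Pool.Agent.MU3

open Pool.Agent.Lib_helper28.FROB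

/-! ### The cut-off function -/

/-- The tent function. -/
noncomputable def tent (y : ℝ) : ℝ := max 0 (1 - |y|)

open scoped Classical in
/-- The coordinates of the logarithmic vector of `a`, projected to the norm one part, in the basis
of the unit lattice. -/
noncomputable def lc (K : Type) [Field K] [NumberField K] (a : 𝓞 K) : Fin (Units.rank K) → ℝ :=
  fun i => ((basisUnitLattice K).ofZLatticeBasis ℝ (unitLattice K)).repr
    (logMap (mixedEmbedding K (a : K))) i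

/-- The cut-off function: the sum of `rho` over an orbit of the unit group is the number of roots
of unity. -/
noncomputable def rho (K : Type) [Field K] [NumberField K] (a : 𝓞 K) : ℝ :=
  ∏ i, tent (lc K a i)

/-- `|N a|` as a real number. -/
noncomputable def an (K : Type) [Field K] [NumberField K] (a : 𝓞 K) : ℝ :=
  (absNorm (span {a}) : ℝ)

/-- `f_s(a) = rho(a) |N a|^(-s)`; it is `0` for `a = 0` and `s ≠ 0`. -/
noncomputable def fs (K : Type) [Field K] [NumberField K] (s : ℝ) (a : 𝓞 K) : ℝ :=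
  rho K a * an K a ^ (-s)

open scoped Classical in
/-- The sup norm of `a` in the mixed space. -/
noncomputable def nr (K : Type) [Field K] [NumberField K] (a : 𝓞 K) : ℝ :=
  ‖mixedEmbedding K (a : K)‖

/-- `1 + ‖a‖`. -/
noncomputable def sz (K : Type) [Field K] [NumberField K] (a : 𝓞 K) : ℝ := 1 + nr K a

/-- PU: partition of unity.
Proof. `tent` is `≥ 0`, vanishes for `|y| ≥ 1`, and for every real `y` the sum of `tent (y + n)` over
`n : ℤ` is `1` (only `n = -⌊y⌋`, `n = -⌊y⌋ - 1` contribute: `1 - t` and `t`, `t = y - ⌊y⌋`). Every unit is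
uniquely `ζ * ∏ i, fundSystem K i ^ e i` (`NumberField.Units.exist_unique_eq_mul_prod`), an equivalence of
`(𝓞 K)ˣ` with `torsion K × (Fin (rank K) → ℤ)`. By `logMap_unit_smul`
(`u • mixedEmbedding K a = mixedEmbedding K (u * a)`, norm of `a` not `0`) `logMap` of `u a` is
`logEmbedding u + logMap a`, `logEmbedding` kills torsion and `logEmbedding (fundSystem K i)` is
`basisUnitLattice K i`, whose `repr` is the `i`-th unit vector: `lc (u a) i = lc a i + e i`.
So the sum is `#torsion * ∑_e ∏_i tent (lc a i + e i) = #torsion * ∏_i ∑_(n : ℤ) tent (lc a i + n)`; only the `e` in a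
finite box contribute (`Finset.prod_univ_sum` over `Fintype.piFinset`, `tsum_eq_sum`,
`summable_of_finite_support`). -/
def Stmt_PU : Prop := ∀ (K : Type) [Field K] [NumberField K] (a : 𝓞 K), a ≠ 0 →
    Summable (fun u : (𝓞 K)ˣ => rho K (u * a)) ∧
    ∑' u : (𝓞 K)ˣ, rho K (u * a) = torsionOrder K

/-- CONE: on the support of `rho` all absolute values are comparable.
Proof. `a ≠ 0`, `rho a ≠ 0` gives `|lc a i| < 1` for all `i`, so `logMap a = ∑ lc a i • b_i` is bounded by a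
constant `C₀` independent of `a`, so `|log |a|_w - (1/d) log |N a|| ≤ C₀` for `w ≠ w₀`, and for `w₀` by
`∑_w mult w * log |a|_w = log |N a|` (`mixedEmbedding.norm`), `∑_w mult w = d`. So with `n = |N a|^(1/d)`:
`e^(-C) n ≤ |a|_w ≤ e^C n` for all `w`; `‖a‖` is the maximum of the `|a|_w`
(`mixedEmbedding.norm_eq_sup'_normAtPlace`), and `w a = |a|_w = normAtPlace w (mixedEmbedding K a)`. -/
def Stmt_CONE : Prop := ∀ (K : Type) [Field K] [NumberField K], ∃ c : ℝ, 0 < c ∧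
    ∀ a : 𝓞 K, a ≠ 0 → rho K a ≠ 0 → ∀ w : InfinitePlace K,
      c * nr K a ≤ w (a : K)

/-- LLIP: Lipschitz estimate of the coordinates: if `a`, `b ≠ 0` and `|b|_w / |a|_w` is in
`[e^(-t), e^t]` for all `w` then `lc` changes by at most `C t`, `rho` by at most `C t`.
Proof. `lc b i - lc a i` is the `i`-th coordinate of `logMap b - logMap a`, whose components are at most
`2 * d * t` in absolute value (`logMap_apply`, `log |N b| - log |N a| = ∑ mult w * (log |b|_w - log |a|_w)`); the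
coordinates are linear, hence bounded by a constant times the norm. `rho` is a product of numbers
in `[0, 1]` and `|tent y - tent y'| ≤ |y - y'|`, so `|rho b - rho a| ≤ ∑_i |lc b i - lc a i|`
(induction over the product). -/
def Stmt_LLIP : Prop := ∀ (K : Type) [Field K] [NumberField K], ∃ C : ℝ, 0 ≤ C ∧
    ∀ (a b : 𝓞 K) (t : ℝ), a ≠ 0 → b ≠ 0 → 0 ≤ t →
      (∀ w : InfinitePlace K, |Real.log (w (b : K)) - Real.log (w (a : K))| ≤ t) →
      |rho K b - rho K a| ≤ C * t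

/-- LIP: the Lipschitz estimate.
Proof (from CONE, LLIP). Let `R = ‖r‖`, `c` from CONE (`c ≤ 1`). For `‖a‖ ≤ 4 (R + 1) / c` (and for `a = 0` or `a + r = 0`) use
`0 ≤ f_s ≤ 1` (`0 ≤ rho ≤ 1`, `|N a| ≥ 1` for `a ≠ 0`): the difference is at most `1 ≤ C sz(a)^(-(d+1))`, `C` large.
Otherwise `a`, `a + r ≠ 0`, `‖a + r‖ ≥ ‖a‖ / 2`, `‖a + r‖ ≤ 2 ‖a‖`. If `rho a = rho (a + r) = 0` nothing is to be
shown. If `rho a ≠ 0`: `|a|_w ≥ c ‖a‖` for all `w`, `|r|_w ≤ R`; if only `rho (a + r) ≠ 0`: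
`|a + r|_w ≥ c ‖a + r‖ ≥ c ‖a‖ / 2`, `|a|_w ≥ c ‖a‖ / 2 - R ≥ c ‖a‖ / 4`. So in both cases `|a|_w ≥ c ‖a‖ / 4` and
`|a + r|_w ≥ c ‖a‖ / 4` (and `|a + r|_w` and `|a|_w` differ by at most `R`), so
`|log |a + r|_w - log |a|_w| ≤ t := 4 R / (c ‖a‖)` (mean value, or `log (1 + y) ≤ y`). LLIP:
`|rho (a + r) - rho a| ≤ C t`. `|N|^(-s) = exp (-s ∑ mult w * log |·|_w)`: both values are at most
`(c ‖a‖ / 4)^(-d s) ≤ C' ‖a‖^(-d)` (`s ∈ [1,2]`, `‖a‖ ≥ 1`) and their ratio is in `[e^(-2dt), e^(2dt)]`, `t ≤ 1`, so the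
difference is at most `C'' t ‖a‖^(-d)`. Together `|f_s (a + r) - f_s a| ≤ C ‖a‖^(-d-1)`, `sz a ≤ 2 ‖a‖`. -/
def Stmt_LIP : Prop := ∀ (K : Type) [Field K] [NumberField K] (r : 𝓞 K), ∃ C : ℝ, 0 ≤ C ∧
    ∀ (s : ℝ) (a : 𝓞 K), 1 ≤ s → s ≤ 2 →
      |fs K s (a + r) - fs K s a| ≤ C * sz K a ^ (-((Module.finrank ℚ K : ℝ) + 1))

/-- SZS: convergence.
Proof. `ZLattice.summable_norm_rpow` for the lattice `mixedEmbedding.integerLattice K` (image of `𝓞 K`, of
rank `d`) and `r = -(d + 1)`; the map `𝓞 K → lattice` is a bijection; `sz a ≥ ‖a‖` and the term of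
`a = 0` is harmless. The same for `(1 + ‖a‖)^(-t)` with every `t > d`. -/
def Stmt_SZS : Prop := ∀ (K : Type) [Field K] [NumberField K] (t : ℝ),
    (Module.finrank ℚ K : ℝ) < t → Summable (fun a : 𝓞 K => sz K a ^ (-t))

/-- FSUM: `∑ f_s` converges for `s > 1`.
Proof (from CONE, SZS). For `a ≠ 0` with `rho a ≠ 0`: `|N a| = ∏ |a|_w^(mult w) ≥ (c ‖a‖)^d`, `‖a‖ ≥ 1` (as
`|N a| ≥ 1` and all `|a|_w ≤ ‖a‖`), so `f_s a ≤ |N a|^(-s) ≤ c^(-ds) ‖a‖^(-ds) ≤ C sz(a)^(-ds)`, `d s > d`. -/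
def Stmt_FSUM : Prop := ∀ (K : Type) [Field K] [NumberField K] (s : ℝ), 1 < s →
    Summable (fs K s)

/-- CMP: comparison of the sum over an ideal with the sum over all integers.
Proof (from LIP, SZS, FSUM). `𝓞 K` is the disjoint union of the `b + r`, `r` in a set of `N b` representatives,
so `∑_{𝓞 K} f_s = ∑_r ∑_{a ∈ b} f_s (a + r)` and the difference to `N b ∑_{a ∈ b} f_s a` is at most
`∑_r ∑_{a ∈ b} |f_s (a + r) - f_s a| ≤ ∑_r C_r ∑_{a : 𝓞 K} sz(a)^(-(d+1))`. -/
def Stmt_CMP : Prop := ∀ (K : Type) [Field K] [NumberField K] (b : Ideal (𝓞 K)), b ≠ ⊥ →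
    ∃ C : ℝ, ∀ s : ℝ, 1 < s → s ≤ 2 →
      |(absNorm b : ℝ) * ∑' a : b, fs K s (a : 𝓞 K) - ∑' a : 𝓞 K, fs K s a| ≤ C

/-- CLS: the partial zeta function of a class as a sum over the elements of an ideal.
Proof (from PU, FSUM). Let `[b] = c⁻¹`. For `I` in the class `c` the ideal `I b` is principal, choose a generator
`g I`. `(I, u) ↦ u * g I` is a bijection from `{I // [I] = c} × (𝓞 K)ˣ` onto the nonzero elements of `b` (if `0 ≠ a ∈ b` then
`(a) = I b` for a unique `I`, `Ideal.dvd_iff_le`, `[I] = c`, `a = u * g I`; `u` is unique as `g I ≠ 0`). The terms with `a = 0` vanish.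
`∑_{a ∈ b} f_s a = ∑_I ∑_u rho (u g I) |N (I b)|^(-s) = ∑_I w N(b)^(-s) N(I)^(-s)` (PU; `absNorm` is multiplicative;
all terms are nonnegative: `Summable.tsum_prod`, or in `ℝ≥0∞`). -/
def Stmt_CLS : Prop := ∀ (K : Type) [Field K] [NumberField K] (c : ClassGroup (𝓞 K))
    (b : (Ideal (𝓞 K))⁰), ClassGroup.mk0 b = c⁻¹ → ∀ s : ℝ, 1 < s →
    (torsionOrder K : ℝ) * (absNorm (b : Ideal (𝓞 K)) : ℝ) ^ (-s) *
      ∑' I : {I : (Ideal (𝓞 K))⁰ // ClassGroup.mk0 I = c},
        (absNorm (I.1 : Ideal (𝓞 K)) : ℝ) ^ (-s) =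
    ∑' a : (b : Ideal (𝓞 K)), fs K s (a : 𝓞 K)

/-- `N(I)^(-s)`. -/
noncomputable def iN (K : Type) [Field K] [NumberField K] (s : ℝ) (I : (Ideal (𝓞 K))⁰) : ℝ :=
  (absNorm (I : Ideal (𝓞 K)) : ℝ) ^ (-s)

/-- ISUM: convergence of the Dedekind zeta function over the ideals.
Proof. `Z K s` of `Pool/Agent/Lib_helper28/FROB` is finite (`Z_le`), the second part is `tendsto_Z`:
`(s - 1) Z(s)` tends to the residue, so it is bounded near `1`. -/
def Stmt_ISUM : Prop := ∀ (K : Type) [Field K] [NumberField K],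
    (∀ s : ℝ, 1 < s → Summable (iN K s)) ∧
    ∃ C : ℝ, ∀ᶠ s : ℝ in 𝓝[>] 1, (s - 1) * ∑' I, iN K s I ≤ C

/-- ZCL: all partial zeta functions agree up to `O(1)`.
Proof (from CLS, CMP, ISUM). Let `w = torsionOrder K`, `S(s) = ∑_{𝓞 K} f_s`; `CLS` for `c = 1`, `b = 1` (`⊤`) gives
`w ζ(s,1) = S(s)`. For `c` take an integral `b` in `c⁻¹` (`ClassGroup.mk0_surjective`): by CLS, CMP
`|w N(b)^(1-s) ζ(s,c) - S(s)| ≤ C`. `N(b)^(1-s)` is in `(0, 1]` and `1 - N(b)^(1-s) ≤ (s - 1) log N(b)`, and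
`(s - 1) ζ(s,c) ≤ (s - 1) ∑_I N(I)^(-s)` is bounded near `1` (ISUM). So `|w ζ(s,c) - S(s)| ≤ C'`. -/
def Stmt_ZCL : Prop := ∀ (K : Type) [Field K] [NumberField K] (c : ClassGroup (𝓞 K)),
    ∃ C : ℝ, ∀ᶠ s : ℝ in 𝓝[>] 1,
      |∑' I : {I : (Ideal (𝓞 K))⁰ // ClassGroup.mk0 I = c}, iN K s I.1 -
        ∑' I : {I : (Ideal (𝓞 K))⁰ // ClassGroup.mk0 I = 1}, iN K s I.1| ≤ C

/-- The Dirichlet series of a character of the class group. -/
noncomputable def Lf (K : Type) [Field K] [NumberField K] (η : ClassGroup (𝓞 K) →* ℂˣ) (s : ℝ) :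
    ℂ := ∑' I : (Ideal (𝓞 K))⁰, (η (ClassGroup.mk0 I) : ℂ) * (iN K s I : ℂ)

/-- LBD: `L(s, η)` is bounded near `1` if `η ≠ 1`.
Proof (from ZCL, ISUM). `L(s, η) = ∑_c η(c) ζ(s,c)` (fiberwise summation, the class group is finite) and
`∑_c η(c) = 0` (`sum_hom_units_eq_zero` or multiply by `η(c₀) ≠ 1`), so `|L(s, η)| = |∑_c η(c) (ζ(s,c) - ζ(s,1))|`
is at most `∑_c C_c` (`|η(c)| = 1`: `η(c)` is a root of unity). -/
def Stmt_LBD : Prop := ∀ (K : Type) [Field K] [NumberField K] (η : ClassGroup (𝓞 K) →* ℂˣ),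
    η ≠ 1 → ∃ C : ℝ, ∀ᶠ s : ℝ in 𝓝[>] 1, ‖Lf K η s‖ ≤ C

/-! ### Euler product -/

/-- The class of a prime. -/
noncomputable def cl (K : Type) [Field K] [NumberField K] (v : HeightOneSpectrum (𝓞 K)) :
    ClassGroup (𝓞 K) :=
  ClassGroup.mk0 ⟨v.asIdeal, mem_nonZeroDivisors_iff_ne_zero.mpr v.ne_bot⟩

/-- EP: lower bound from the Euler product.
Proof (from ISUM). `g(I) = η(I) N(I)^(-s)` is completely multiplicative on `(Ideal (𝓞 K))⁰`, `|g(I)| = N(I)^(-s)` is
summable. For a finite set `t` of primes: `L ∏_{v ∈ t} (1 - g(v)) = L_t := ∑_{I : no v ∈ t divides I} g(I)`, by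
induction: `∑_{I : no v ∈ t divides I} g(I)` minus `g(v)` times itself (`v ∉ t`) cancels the `I` divisible by `v`
(`I ↦ v I` is a bijection from the `I` not divisible by the primes of `t` onto those which in addition are
divisible by `v`). As `t` grows `L_t → g(1) = 1` (only finitely many `I` carry all but `ε` of `∑ N(I)^(-s)`; their prime factors
are in `t` for large `t`). For `v ∈ A`: `0 < 1 - g(v) = 1 - x_v ≤ exp (-x_v)`; for all `v`: `|1 - g(v)| ≤ 1 + x_v ≤ exp (x_v)`,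
`x_v = x s v = N(v)^(-s)`. Hence `|L_t| ≤ |L| exp (∑_{v ∈ t, v ∉ A} x_v - ∑_{v ∈ t ∩ A} x_v)`; take the limit
(`summable_x`). -/
def Stmt_EP : Prop := ∀ (K : Type) [Field K] [NumberField K] (η : ClassGroup (𝓞 K) →* ℂˣ)
    (A : Set (HeightOneSpectrum (𝓞 K))), (∀ v ∈ A, η (cl K v) = 1) → ∀ s : ℝ, 1 < s →
    Real.exp (∑' v, Set.indicator A (x s) v - ∑' v, Set.indicator Aᶜ (x s) v) ≤ ‖Lf K η s‖

/-! ### Splitting and generation of the class group -/

/-- The number of primes of `M` above the prime `v` of `L` with the same norm. -/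
noncomputable def spl (L M : Type) [Field L] [NumberField L] [Field M] [NumberField M]
    [Algebra L M] (v : HeightOneSpectrum (𝓞 L)) : ℕ :=
  Nat.card {w : HeightOneSpectrum (𝓞 M) //
    w.asIdeal.under (𝓞 L) = v.asIdeal ∧ absNorm w.asIdeal = absNorm v.asIdeal}

/-- SPLS: primes with `m` primes of the same norm above have density at most `1 / m`.
Proof. For `v ∈ B` the `m` (at least) primes `w` above `v` of the same norm: `m ∑_{v ∈ B} x s v ≤ ∑_w x s w` (the
sets of the `w` above different `v` are disjoint; `Fin m` embeds into the set of the `w`, which is finite, being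
nonempty of nonzero `Nat.card` for `m ≥ 1`; injection `B × Fin m → HeightOneSpectrum (𝓞 M)`,
`Summable.tsum_le_tsum_of_inj`). Then `isBigO_sum` for `M`. -/
def Stmt_SPLS : Prop := ∀ (L M : Type) [Field L] [NumberField L] [Field M] [NumberField M]
    [Algebra L M] (m : ℕ) (B : Set (HeightOneSpectrum (𝓞 L))), (∀ v ∈ B, m ≤ spl L M v) →
    ∃ C : ℝ, ∀ᶠ s : ℝ in 𝓝[>] 1,
      (m : ℝ) * ∑' v, Set.indicator B (x s) v ≤ Real.log (1 / (s - 1)) + C

/-- DEG2: the primes of degree at least two (norm not a prime number) contribute `O(1)`.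
Proof. `norm_eq`: `N(v) = pr(v)^(dg v)`, `dg v ≥ 2` if `N(v)` is not prime, so `x s v ≤ pr(v)^(-2 s) ≤ pr(v)^(-2)`, summable
by `summable_pr` (compare `sum_tb` in `Lib_helper28/FROB/Sum.lean`). -/
def Stmt_DEG2 : Prop := ∀ (L : Type) [Field L] [NumberField L]
    (B : Set (HeightOneSpectrum (𝓞 L))),
    (∀ v ∈ B, ¬ (absNorm v.asIdeal).Prime) → ∃ C : ℝ, ∀ s : ℝ, 1 < s →
      ∑' v, Set.indicator B (x s) v ≤ C

/-- DENS: the degree one primes which do not split completely generate the class group.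
Proof (from LBD, EP, SPLS, DEG2). If `H ≠ ⊤` there is a character `η ≠ 1` of the finite abelian group
`ClassGroup (𝓞 L)` trivial on `H` (Mathlib: `CommGroup.exists_apply_ne_one_of_hasEnoughRootsOfUnity` on the quotient by `H`; `ℂ` has
enough roots of unity). Let `A = {v | η (cl v) = 1}`. `Aᶜ` is contained in `B₁ ∪ B₂ ∪ S`, `B₁` = the `v` with
`m ≤ spl L M v`, `B₂` = the `v` with `N(v)` not prime. So near `1`, with `Λ = log (1 / (s - 1))`:
`∑_{Aᶜ} x ≤ Λ / m + C` (SPLS, DEG2, `S` finite, `x ≤ 1`), `∑_A x + ∑_{Aᶜ} x = ∑_v x ≥ Λ - C` (`isBigO_sum`), so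
`∑_A x - ∑_{Aᶜ} x ≥ (1 - 2 / m) Λ - C' ≥ Λ / 3 - C'`, and `|L(s, η)| ≥ exp (Λ / 3 - C')` (EP), unbounded as `s → 1`
(`Λ → ∞`), which contradicts LBD. -/
def Stmt_DENS : Prop := ∀ (L M : Type) [Field L] [NumberField L] [Field M] [NumberField M]
    [Algebra L M] (m : ℕ), 3 ≤ m → ∀ (S : Set (HeightOneSpectrum (𝓞 L))), S.Finite →
    ∀ H : Subgroup (ClassGroup (𝓞 L)),
    (∀ v : HeightOneSpectrum (𝓞 L), v ∉ S → (absNorm v.asIdeal).Prime → spl L M v < m →
      cl L v ∈ H) → H = ⊤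

/-! ### Kummer extensions -/

/-- KUM: a non-cube gives a cubic extension in which the primes modulo which it is a cube split.
Proof. `X ^ 3 - t` has no root in `L` (a root would be integral over `𝓞 L`, or: hypothesis), so it is irreducible
(`X_pow_sub_C_irreducible_of_prime`), `M = AdjoinRoot (X ^ 3 - C (t : L))` (`Type`), a number field of degree 3 over
`L`, Galois over `L` as `ζ ∈ L` (`isGalois_of_isSplittingField_X_pow_sub_C`), `y ∈ 𝓞 M` the root.
Let `v` be a prime with `3 ∉ v`, `t ∉ v` and `t - a ^ 3 ∈ v`. `t - a ^ 3 = (y - a)(y - ζ a)(y - ζ² a)`. The norm of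
`y - ζ^i a` over `L` is `t - a ^ 3` (conjugates `ζ^j y`), so `y - ζ^i a` is in some prime `w_i` above `v` (otherwise it is a
unit modulo every prime above `v`, or: the norm of an element prime to `v` is prime to `v`; alternatively: `w` a prime above
`v`, it contains some `y - ζ^i a`, and the conjugates `σ^j w` contain the `ζ^j y - ζ^i a`, i.e. `y - ζ^(i-j) a`). If `w_0 = w_1` then
`(1 - ζ) a ∈ w_0 ∩ 𝓞 L = v`, but `a ∉ v` (`t ∉ v`) and `1 - ζ ∉ v` (`3 ∉ v`, `(1 - ζ)(1 - ζ²) = 3`). So there are at least two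
primes above `v`; `g e f = 3` (`Ideal.ncard_primesOver_mul_ramificationIdxIn_mul_inertiaDegIn`), so `g = 3`,
`e = f = 1`, and all three primes have the norm of `v` (`Ideal.absNorm_eq_pow_inertiaDeg`-type lemma in the relative
form, or `#(𝓞 M ⧸ w) = #(𝓞 L ⧸ v)^f`). -/
def Stmt_KUM : Prop := ∀ (L : Type) [Field L] [NumberField L] (ζ t : 𝓞 L),
    IsPrimitiveRoot ζ 3 → (∀ y : L, y ^ 3 ≠ (t : L)) →
    ∃ (M : Type) (_ : Field M) (_ : NumberField M) (_ : Algebra L M),
      ∀ v : HeightOneSpectrum (𝓞 L), (3 : 𝓞 L) ∉ v.asIdeal → t ∉ v.asIdeal →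
        (∃ a : 𝓞 L, t - a ^ 3 ∈ v.asIdeal) → 3 ≤ spl L M v

/-- THD: the classes of the degree one primes modulo which `t` is not a cube generate the class
group.
Proof (from DENS, KUM). `M` from KUM, `m = 3`, `S` enlarged by the finitely many primes containing `3` or `t` (`t ≠ 0`
as `0 = 0 ^ 3`; finiteness: `Ideal.finite_factors` or `HeightOneSpectrum` version). -/
def Stmt_THD : Prop := ∀ (L : Type) [Field L] [NumberField L] (ζ t : 𝓞 L),
    IsPrimitiveRoot ζ 3 → (∀ y : L, y ^ 3 ≠ (t : L)) →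
    ∀ S : Set (HeightOneSpectrum (𝓞 L)), S.Finite →
    ∀ H : Subgroup (ClassGroup (𝓞 L)),
    (∀ v : HeightOneSpectrum (𝓞 L), v ∉ S → (absNorm v.asIdeal).Prime → (3 : 𝓞 L) ∉ v.asIdeal →
      t ∉ v.asIdeal → (∀ a : 𝓞 L, t - a ^ 3 ∉ v.asIdeal) → cl L v ∈ H) → H = ⊤

end Pool.Agent.MU3
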