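import Pool.Agent.MU3.StFH
import Pool.Agent.MU3.StI

/-!
# MU3, block FH (helper27): statement F5 for the sums `Sn` of block I
-/

set_option autoImplicit false

namespace Pool.Agent.MU3F

open _root_.MU3 Pool.Agent.MU3 Pool.Agent.MU3A Pool.Agent.MU3B Pool.Agent.MU3C Pool.Agent.MuSym OnePoint

noncomputable section

/-- (F5S) the sums `Sn` of block I (no condition of coprimality, it is automatic) are Fourier transforms of the
values of the symbol. -/
def Sf_F5S : Prop :=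
  ∀ (A B : ℤ), Case A B → ∀ (L : PeriodPair) (Om : ℂ), IsLat A B L Om →
    ∀ (f n : ℕ) (e : OO A B → ℂ), f ≠ 0 → IsEps ((f : OO A B) * star (ppi A B)) e →
    ∀ c : ℤ, ¬ (3 : ℤ) ∣ c →
      MU3I.Sn L Om f e n c =
      (2 * f / Om) * ∑ b ∈ Finset.range (3 ^ (n + 1)),
        ex (-(b * c) / 3 ^ (n + 1)) * Phi e ∞ (((b / 3 ^ (n + 1) : ℚ) : ℚ) : OnePoint ℚ)

end

end Pool.Agent.MU3F
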