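import Pool.Agent.MU3.StFH

/-!
# MU3, block FT (helper40): the transformation behaviour of theta and of its primitive

Every statement is a `def Su_X : Prop`. A module proves `theorem tu_X (h : Su_Y) ... : Su_X`, where
the hypotheses are the statements named under USES in the doc string. PAPER.md, section 6 (FT).

`N0 = |D| G²`, `g ∣ G`, `|D| = absD A B`. The ring `O` has `δ = 2 w - B`, `δ² = -|D|`, `star δ = -δ`,
`nm δ = |D|`. `ex r = exp(2 π i r)` (`r` rational), `Sf_ALG`, `Sf_BDD`, `Sf_SM`, `Sf_DCM`, `Sf_TSM`, `Sf_ITG` :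
`StFH.lean`, proved in `F_ALG.lean`, `F_BDD.lean`, `F_SM.lean`, `F_DCM.lean`, `F_TSM.lean`, `F_ITG.lean`.
Facts on `nm`, `emb` : `G_G0.lean`, `G_G2.lean`, `G_G7.lean`.
All formulas were checked numerically.
-/

set_option autoImplicit false

namespace Pool.Agent.MU3T

open MU3 Pool.Agent.MU3F Pool.Agent.MuSym OnePoint Filter Topology
open scoped ComplexConjugate

noncomputable section

/-- the terms of `F_W(z) = Σ W(y) conj(emb y) exp(2 π i nm y z)` -/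
def tm {A B : ℤ} (W : OO A B → ℂ) (z : ℂ) (y : OO A B) : ℂ :=
  W y * conj (emb y) * Complex.exp (2 * Real.pi * Complex.I * (nm y : ℂ) * z)

/-- the terms of the primitive `Σ W(y) conj(emb y) / nm y exp(2 π i nm y z)`; the term `y = 0` is 0 -/
def tI {A B : ℤ} (W : OO A B → ℂ) (z : ℂ) (y : OO A B) : ℂ :=
  W y * conj (emb y) / (nm y : ℂ) * Complex.exp (2 * Real.pi * Complex.I * (nm y : ℂ) * z)

/-- a bounded function -/
def Bd {A B : ℤ} (W : OO A B → ℂ) : Prop := ∃ C : ℝ, ∀ x, ‖W x‖ ≤ C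

/-- `W_(b/q)(y) = Σ_(x mod qG) e(x) exp(2 π i b nm x / q) exp(2 π i (x star y).im / (q G))` -/
def WW {A B : ℤ} (e : OO A B → ℂ) (G q : ℕ) (b : ℤ) (y : OO A B) : ℂ :=
  sumMod ((q * G : ℕ) : OO A B)
    (fun x => e x * ex (b * nm x / q) * ex ((x * star y).im / (q * G)))

/-- the Gauss sum `Σ_(x mod d) exp(2 π i b nm x / d)` -/
def gg (A B : ℤ) (d : ℕ) (b : ℤ) : ℂ :=
  sumMod ((d : ℕ) : OO A B) (fun x => ex (b * nm x / d))

/-! ## Series in the upper half plane -/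

/-- (DIF) summability and derivatives.

USES nothing (import `F_TSM.lean`, `tf_TSM`). PROOF. First part: `tf_TSM` for `W`; for `tI` compare: `‖tI W z y‖ ≤
‖tm W z y‖` as `nm y ≥ 1` for `y ≠ 0` and both are 0 for `y = 0`. Derivatives: `hasDerivAt_tsum_of_isPreconnected` (or
`hasDerivAt_tsum`-like lemmas, `differentiableOn_tsum_of_summable_norm`) on the half plane `{z : r < im z}`, `r = im z₀/2`,
with the bound `‖tm W z y‖ ≤ C ‖emb y‖ exp(-2 π nm y r)`, which is `‖tm C (r i) y‖`, summable by `tf_TSM`. The derivative of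
`z ↦ tI W z y` is `2 π i tm W z y` (also for `y = 0`). For `tm` itself the derivative of a term is
`2 π i nm y tm W z y`, bounded by `2 π nm y ‖..‖ ≤ K ‖tm C ((r/2) i) y‖` (`x exp(-π x r) ≤ 1/(π r)`), or use
`differentiableOn_tsum_of_summable_norm`, which needs only the bound of the terms. -/
def Su_DIF : Prop :=
  ∀ (A B : ℤ), Case A B → ∀ W : OO A B → ℂ, Bd W →
    (∀ z : ℂ, 0 < z.im → Summable (tm W z) ∧ Summable (tI W z)) ∧
    (∀ z : ℂ, 0 < z.im → DifferentiableAt ℂ (fun z => ∑' y, tm W z y) z) ∧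
    ∀ z : ℂ, 0 < z.im →
      HasDerivAt (fun z => ∑' y, tI W z y) (2 * Real.pi * Complex.I * ∑' y, tm W z y) z

/-- (VAN) the primitive tends to 0 at `i oo`.

USES DIF. PROOF. For `im z ≥ 1`: `‖tI W z y‖ ≤ exp(-2 π (im z - 1)) ‖tI W i y‖` (`nm y ≥ 1` for `y ≠ 0`; both are
0 for `y = 0`), so the norm of the sum is at most `exp(-2 π (im z - 1)) Σ ‖tI W i y‖`. -/
def Su_VAN : Prop :=
  ∀ (A B : ℤ), Case A B → ∀ W : OO A B → ℂ, Bd W → ∀ ε : ℝ, 0 < ε →
    ∃ R : ℝ, 0 < R ∧ ∀ z : ℂ, R ≤ z.im → ‖∑' y, tI W z y‖ < ε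

/-- (REG) regrouping as a power series in `exp(2 π i τ/N)`.

USES DIF. PROOF. `N = M k`. Let `f y = k nm y - 1` (natural numbers, truncated), `w n = Σ'_(y : f y = n) W y conj(emb y)/nm y`.
For `y ≠ 0` `exp(2 π i nm y τ/M) = exp(2 π i τ/N)^(k nm y)`, `k nm y = f y + 1`; for `y = 0` the term is 0. The sum over
`O` (summable by DIF at `τ/M`) is the sum over `n` of the sums over the fibres of `f`:
`(Equiv.sigmaFiberEquiv f).hasSum_iff` and `HasSum.sigma`, or `HasSum.tsum_fiberwise`; pull the power out of the inner sum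
with `tsum_mul_right`. -/
def Su_REG : Prop :=
  ∀ (A B : ℤ), Case A B → ∀ W : OO A B → ℂ, Bd W → ∀ M N : ℕ, N ≠ 0 → M ∣ N →
    ∃ w : ℕ → ℂ, ∀ τ : ℂ, 0 < τ.im →
      HasSum (fun n : ℕ => w n * Complex.exp (2 * Real.pi * Complex.I * τ / N) ^ (n + 1))
        (∑' y, tI W (τ / M) y)

/-! ## Poisson summation -/

/-- (PO0) Poisson summation on the imaginary axis.

USES nothing (import `BAll.lean`, `b_POD`, and `A_LAT0.lean` for `Sa_LAT0`, `IsLat`). PROOF. `L` the lattice `emb O` (`Sa_LAT0` with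
`Om = 1`), `a = area L = sqrt |D|/2` (if the periods are not known explicitly: `area` of a lattice is the absolute value
of the determinant of a basis; the two bases `(ω₁, ω₂)` and `(1, w)` differ by an integral matrix of determinant `±1`).
`St_POD` at `z = emb x0/m` and `t' = 1/(2 m² a t)`: the left side is `1/m Σ conj(emb(x0 + m w)) exp(-2 π nm(x0 + m w) t)`, the
right side `-t'² Σ conj(emb y) pr L y z exp(-2 π nm y/(m² |D| t))` as `a² = |D|/4`; `t'² = 1/(m⁴ |D| t²)`. And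
`pr L y z = exp((π/a) 2 i Im(conj(emb y) z)) = ex((x0 star y).im/m)` as `Im(emb x) = x.im a`. -/
def Su_PO0 : Prop :=
  ∀ (A B : ℤ), Case A B → ∀ m : ℕ, 0 < m → ∀ (x0 : OO A B) (t : ℝ), 0 < t →
    ∑' w : OO A B, conj (emb (x0 + (m : OO A B) * w)) *
      (Real.exp (-(2 * Real.pi * (nm (x0 + (m : OO A B) * w) : ℝ) * t)) : ℝ) =
    -(1 / ((m : ℂ) ^ 3 * (absD A B : ℂ) * (t : ℂ) ^ 2)) *
      ∑' y : OO A B, ex ((x0 * star y).im / m) * conj (emb y) *
        (Real.exp (-(2 * Real.pi * (nm y : ℝ) / ((m : ℝ) ^ 2 * (absD A B : ℝ) * t))) : ℝ)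

/-- (POI) Poisson summation in the upper half plane.

USES DIF, PO0. PROOF. Both sides are holomorphic in the upper half plane: the left side is
`Σ_x tm W z x` with `W = ` the indicator function of `x0 + m O` (the map `w ↦ x0 + m w` is injective, so
`Function.Injective.tsum_eq`), the right side is a composition with `z ↦ -1/(m² |D| z)` (which maps the upper half plane to
itself). They agree for `z = i t` (PO0), so everywhere: `AnalyticOnNhd.eqOn_of_preconnected_of_frequently_eq` at `i`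
(the half plane is convex; `DifferentiableOn.analyticOnNhd`). -/
def Su_POI : Prop :=
  ∀ (A B : ℤ), Case A B → ∀ m : ℕ, 0 < m → ∀ (x0 : OO A B) (z : ℂ), 0 < z.im →
    ∑' w : OO A B, conj (emb (x0 + (m : OO A B) * w)) *
      Complex.exp (2 * Real.pi * Complex.I * (nm (x0 + (m : OO A B) * w) : ℂ) * z) =
    1 / ((m : ℂ) ^ 3 * (absD A B : ℂ) * z ^ 2) *
      ∑' y : OO A B, tm (fun y => ex ((x0 * star y).im / m))
        (-1 / ((m : ℂ) ^ 2 * (absD A B : ℂ) * z)) y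

/-- (WBD) `W_(b/q)` is bounded.

USES ALG, BDD. PROOF. A finite sum (the quotient is finite by ALG; `finsum_eq_sum_of_fintype`), each term has norm at
most `C` (BDD; `ex` has norm 1). -/
def Su_WBD : Prop :=
  ∀ (A B : ℤ), Case A B → ∀ (g : OO A B) (e : OO A B → ℂ), g ≠ 0 → IsEps g e →
    ∀ G q : ℕ, 0 < G → 0 < q → ∀ b : ℤ, Bd (WW e G q b)

/-- (RED) theta near the cusp `b/q`.

USES ALG, BDD, DCM, TSM, SM, DIF, POI. PROOF. `m = q G`. `theta e (b/q + z) = 1/2 Σ_x e x conj(emb x) ex(b nm x/q) exp(2 π i nm x z)`.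
By DCM modulo `m` it is `1/2 Σ_(x mod m) Σ_w ..(x + m w)`; `e(x + m w) = e x` (`g ∣ G ∣ m`),
`ex(b nm(x + m w)/q) = ex(b nm x/q)` (`q ∣ m`, `nm(x + m w) = nm x + m (integer)`, compare coordinates). So it is
`1/2 sumMod m (x ↦ e x ex(b nm x/q) S(x))`, `S(x)` the left side of POI, and by POI `S(x) = c Σ_y tm (y ↦ ex((x star y).im/m)) ζ y`
with `c = 1/(m³ |D| z²)`, `ζ = -1/(m² |D| z)`. Exchange the finite sum over `x` with the sum over `y` (each is summable,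
DIF; `Summable.tsum_finsetSum`). -/
def Su_RED : Prop :=
  ∀ (A B : ℤ), Case A B → ∀ (g : OO A B) (e : OO A B → ℂ), g ≠ 0 → IsEps g e →
    ∀ G q : ℕ, 0 < G → 0 < q → g ∣ (G : OO A B) → ∀ (b : ℤ) (z : ℂ), 0 < z.im →
    theta e (((b / q : ℚ) : ℂ) + z) =
      1 / (2 * ((q : ℂ) * G) ^ 3 * (absD A B : ℂ) * z ^ 2) *
        ∑' y : OO A B, tm (WW e G q b) (-1 / (((q : ℂ) * G) ^ 2 * (absD A B : ℂ) * z)) y

/-! ## Gauss sums -/

/-- (WID) the Gauss sum `W_(b/d)(y)` for `c = N0 c'`.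

USES ALG, SM. PROOF. `d` is prime to `G` and `|D|` by the determinant. Chinese remainder theorem: `(x', x'') ↦ d x' + G x''` is a
bijection `O/G × O/d → O/(dG)`. `e(d x' + G x'') = e(d) e(x')`, `ex(b nm(d x' + G x'')/d) = ex(b G² nm x''/d)`,
`((d x' + G x'') star y).im/(d G) = (x' star y).im/G + (x'' star y).im/d`. So
`W = e(d) W_(0/1)(y) Σ_(x mod d) ex((b G² nm x + (x star y).im)/d)`. Completing the square: let `v = c' δ y`, `δ = 2 w - B`.
`nm(x - v) = nm x - c' |D| (x star y).im + c'² |D| nm y` (an identity of polynomials in the coordinates: for `u ∈ O`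
`u star δ + star u δ = |D| u.im`), so, multiplying by `b G²` and as `b N0 c' ≡ -1` modulo `d`:
`b G² nm(x - v) + c' nm y ≡ b G² nm x + (x star y).im` modulo `d`. Then shift `x` by `v`
(a permutation of `O/d`; the function is periodic modulo `d`). -/
def Su_WID : Prop :=
  ∀ (A B : ℤ), Case A B → ∀ (g : OO A B) (e : OO A B → ℂ), g ≠ 0 → IsEps g e →
    ∀ G d : ℕ, 0 < G → 0 < d → g ∣ (G : OO A B) → ∀ a b c' : ℤ,
    a * d - b * (absD A B * G ^ 2 * c') = 1 → ∀ y : OO A B,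
    WW e G d b y = e ((d : ℕ) : OO A B) * ex (c' * nm y / d) * gg A B d (b * G ^ 2) * WW e G 1 0 y

/-- (GAU) the Gauss sum of the norm form modulo a prime.

USES ALG. PROOF. `O/p` has the representatives `i + j w`, `0 ≤ i, j < p`. With `X = 2 i + B j`, `Y = j`:
`4 nm = X² + |D| Y²`, and `(i, j) ↦ (X, Y)` is a bijection of `ZMod p × ZMod p` (`p` odd). So with a primitive additive
character `ψ` of `ZMod p`, `ψ(t) = ex(t/p)` (`ZMod.stdAddChar`), and `b' = b/4`: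
`gg = Σ_X ψ(b' X²) Σ_Y ψ(b' |D| Y²)`. `Σ_X ψ(a X²) = Σ_t (1 + χ t) ψ(a t) = χ(a) gaussSum χ ψ` for `a ≠ 0`, `χ` the quadratic
character (`quadraticChar_card_sqrts`, `gaussSum_mulShift`), and `gaussSum_sq : gaussSum χ ψ² = χ(-1) p`. So
`gg = χ(b')² χ(|D|) χ(-1) p = χ(-|D|) p`. (Or count the solutions of `X² + |D| Y² = n`.) -/
def Su_GAU : Prop :=
  ∀ (A B : ℤ), Case A B → ∀ (p : ℕ) [Fact p.Prime], ¬ (p : ℤ) ∣ 2 * absD A B → ∀ b : ℤ,
    ¬ (p : ℤ) ∣ b → gg A B p b = (legendreSym p (-absD A B) : ℂ) * p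

/-- (REC) quadratic reciprocity for `-2` and `-11`.

USES nothing. PROOF. `(A, B) = (-2, 0)`: `-8 = 2² (-2)`, `legendreSym.at_neg_two` (`χ₈'`, `decide` on the classes modulo
8). `(A, B) = (-3, 1)`: `(-11/p) = (-1/p) (11/p) = (p/11)` by `legendreSym.quadratic_reciprocity'`-like lemmas
(`11 ≡ 3` modulo 4; `legendreSym.at_neg_one`), and `(p/11)` by the classes modulo 11 (`decide`: the squares are
1, 3, 4, 5, 9). -/
def Su_REC : Prop :=
  ∀ (A B : ℤ), Case A B → ∀ (p : ℕ) [Fact p.Prime], ¬ (p : ℤ) ∣ 2 * absD A B →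
    legendreSym p (-absD A B) = chiD A B p

/-- (CHI) the function `chiD` and the nebentypus. PROOF. `absD = 8` or `11`; unfold `chiD`. `e (-1) = -1`, `e 1 = 1`.
Last: `chiD d = chiD d'` (multiple of `|D|`) and `e d = e d'` (`g ∣ G ∣ d - d'`). -/
def Su_CHI : Prop :=
  ∀ (A B : ℤ), Case A B → ∀ (g : OO A B) (e : OO A B → ℂ), IsEps g e →
    nuE e 1 = 1 ∧ nuE e (-1) = 1 ∧ ∀ G : ℕ, g ∣ (G : OO A B) → ∀ d d' : ℤ,
      absD A B * G ^ 2 ∣ d - d' → nuE e d = nuE e d'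

/-! ## Modularity -/

/-- (MBF) facts on fractional linear maps. USES nothing. PROOF. `im((a z + b)/(c z + d)) = im z/|c z + d|²`. (Mathlib has these
for `UpperHalfPlane`; a direct proof is as short.) -/
def Su_MBF : Prop :=
  ∀ a b c d : ℤ, a * d - b * c = 1 → ∀ z : ℂ, 0 < z.im →
    (c : ℂ) * z + d ≠ 0 ∧ 0 < (((a : ℂ) * z + b) / ((c : ℂ) * z + d)).im ∧
    HasDerivAt (fun z : ℂ => ((a : ℂ) * z + b) / ((c : ℂ) * z + d)) (1 / ((c : ℂ) * z + d) ^ 2) z

/-- (MOP) modularity for matrices in `Gamma_0(N0)` with prime entry `d`.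

USES RED, WID, GAU, REC, MBF. PROOF. `c = N0 c'`, `z' = -1/z`. `γ z = b/p + ζ`, `ζ = -1/(p (p z' - c))`
(`p z' - c = -(c z + p)/z`, so `ζ = z/(p (c z + p))`, `im ζ > 0`). RED with `q = p`: `theta(γ z) = 1/(2 p³ G³ |D| ζ²) Σ_y tm (WW e G p b) η y`,
`η = -1/(p² N0 ζ) = (p z' - c)/(p N0) = z'/N0 - c'/p`, and `tm W (z'/N0 - c'/p) y = ex(-c' nm y/p) tm W (z'/N0) y`. By WID the
factor `ex(c' nm y/p)` cancels: the sum is `e(p) gg(b G²) Σ_y tm (WW e G 1 0) (z'/N0) y`. `gg(b G²) = chiD(p) p` by GAU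
and REC (`p` does not divide `b` nor `G` by the determinant). RED with `q = 1`, `b = 0`:
`theta(z) = 1/(2 G³ |D| z²) Σ_y tm (WW e G 1 0) (-1/(N0 z)) y`. Compare: `z²/(p³ ζ²) p = (c z + p)²`. -/
def Su_MOP : Prop :=
  ∀ (A B : ℤ), Case A B → ∀ (g : OO A B) (e : OO A B → ℂ), g ≠ 0 → IsEps g e →
    ∀ G : ℕ, 0 < G → g ∣ (G : OO A B) → ∀ (a b c : ℤ) (p : ℕ), p.Prime → ¬ (p : ℤ) ∣ 2 * absD A B →
    a * p - b * c = 1 → absD A B * G ^ 2 ∣ c → ∀ z : ℂ, 0 < z.im →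
    theta e (((a : ℂ) * z + b) / ((c : ℂ) * z + p)) = ((c : ℂ) * z + p) ^ 2 * nuE e p * theta e z

/-- (MOD) modularity for `Gamma_0(N0)`.

USES MOP, CHI, MBF (and `Sf_PRD`, `F_PRD.lean`: `theta e (z + 1) = theta e z`). PROOF. `c = 0`: `a = d = ±1`, `γ z = z ± b`, period 1,
`nuE(±1) = 1`. `c ≠ 0`: `d` is prime to `c`, so there is a prime `p > 2 |D|` with `p ≡ d` modulo `|c|`
(`Nat.forall_exists_prime_gt_and_eq_mod`), `p = d + k c`. Apply MOP to `(a, b + k a, c, p)` and the point `z - k`: `γ' (z - k) = γ z`,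
`c (z - k) + p = c z + d`; `theta e (z - k) = theta e z`, `nuE p = nuE d` (CHI). -/
def Su_MOD : Prop :=
  ∀ (A B : ℤ), Case A B → ∀ (g : OO A B) (e : OO A B → ℂ), g ≠ 0 → IsEps g e →
    ∀ G : ℕ, 0 < G → g ∣ (G : OO A B) → ∀ a b c d : ℤ, a * d - b * c = 1 →
    absD A B * G ^ 2 ∣ c → ∀ z : ℂ, 0 < z.im →
    theta e (((a : ℂ) * z + b) / ((c : ℂ) * z + d)) = ((c : ℂ) * z + d) ^ 2 * nuE e d * theta e z

/-- (EXP) expansion of theta at all cusps.

USES ALG, BDD, RED, WBD, MBF (and `Sf_PRD`). PROOF. `c = 0`: `a = d = ±1`, `γ z = z ± b`, `theta(γ z) = theta z`; `M = 1`,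
`W = e/2`. `c > 0`: `γ z = a/c + ζ`, `ζ = -1/(c (c z + d))`, `im ζ > 0`. RED with `q = c`, `b = a`: `ζ⁻² = c² (c z + d)²`,
`-1/(c² N0 ζ) = (c z + d)/(c N0) = z/N0 + d/(c N0)`. `M = N0`, `W y = WW e G c a y exp(2 π i nm y d/(c N0)) /(2 c G³ |D|)`.
`c < 0`: the case `(-a, -b, -c, -d)`. -/
def Su_EXP : Prop :=
  ∀ (A B : ℤ), Case A B → ∀ (g : OO A B) (e : OO A B → ℂ), g ≠ 0 → IsEps g e →
    ∀ G : ℕ, 0 < G → g ∣ (G : OO A B) → ∀ a b c d : ℤ, a * d - b * c = 1 →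
    ∃ (M : ℕ) (W : OO A B → ℂ), 0 < M ∧ (M : ℤ) ∣ absD A B * G ^ 2 ∧ Bd W ∧ ∀ z : ℂ, 0 < z.im →
      theta e (((a : ℂ) * z + b) / ((c : ℂ) * z + d)) =
        ((c : ℂ) * z + d) ^ 2 * ∑' y, tm W (z / M) y

/-! ## The primitive -/

/-- (VLN) the limit of the primitive at a rational number, along the vertical line.

USES BDD, DIF, VAN, ITG. PROOF. `f s = thetaInt e (r + i s)` has derivative `i · 2 π i theta e (r + i s) = -2 π theta e (r + i s)`
(DIF with `W = e`, chain rule), which is integrable on `(0, oo)` by ITG, and `f s → 0` for `s → oo` (VAN). So for `t > 0`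
`f t = 2 π ∫_t^oo theta e (r + i s) ds` (`MeasureTheory.integral_Ioi_of_hasDerivAt_of_tendsto`), and this tends to
`2 π ∫_0^oo theta = -Iv e r` for `t → 0` (for instance: `∫_(0,oo) = ∫_0^t + ∫_t^oo` and `∫_0^t → 0`, or
`MeasureTheory.tendsto_setIntegral_..`, dominated convergence with indicator functions). -/
def Su_VLN : Prop :=
  ∀ (A B : ℤ), Case A B → ∀ (g : OO A B) (e : OO A B → ℂ), g ≠ 0 → IsEps g e → ∀ r : ℚ,
    Tendsto (fun t : ℝ => thetaInt e ((r : ℂ) + t * Complex.I)) (𝓝[>] 0) (𝓝 (-Iv e r))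

/-- (CUS) the limit of `thetaInt(γ z)` for `im z → oo` is the value of the symbol.

USES BDD, VAN, VLN. PROOF. `c = 0`: `a = d = ±1`, `γ z = z ± b`, so `thetaInt e (γ z)` tends to 0 by VAN (`W = e`), `C = 0`, and
`Phi e ∞ ∞ = 0`. `c ≠ 0`: for `z = -d/c + i s`, `s > 0`: `γ z = a/c - 1/(c (c z + d)) = a/c + i/(c² s)`. For `s → oo` the
number `1/(c² s)` tends to `0` from the right, so `thetaInt e (γ z) → -Iv e (a/c)` (VLN) and it tends to `C`;
`Phi e ∞ (a/c) = Ic e ∞ - Ic e (a/c) = -Iv e (a/c)`. Uniqueness of limits. -/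
def Su_CUS : Prop :=
  ∀ (A B : ℤ), Case A B → ∀ (g : OO A B) (e : OO A B → ℂ), g ≠ 0 → IsEps g e →
    ∀ a b c d : ℤ, a * d - b * c = 1 → ∀ C : ℂ,
    (∀ ε : ℝ, 0 < ε → ∃ R : ℝ, ∀ z : ℂ, R ≤ z.im → 0 < z.im →
      ‖thetaInt e (((a : ℂ) * z + b) / ((c : ℂ) * z + d)) - C‖ < ε) →
    C = Phi e ∞ (mob a b c d ∞)

/-- (EXI) expansion of the primitive at all cusps.

USES BDD, DIF, VAN, MBF, EXP, CUS. PROOF. `W`, `M` of EXP; `P z = Σ_y tI (M W) (z/M) y` has derivative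
`(1/M) 2 π i M Σ tm W (z/M) y`, and `z ↦ thetaInt e (γ z)` has derivative `2 π i theta e (γ z)/(c z + d)²` (DIF with `W = e`,
MBF), the same. The difference is constant on the upper half plane (convex and open; `IsOpen.is_const_of_deriv_eq_zero`
or `Convex.is_const_of_fderivWithin_eq_zero`), say `C`. `P z → 0` for `im z → oo` (VAN), so `C` is the number of CUS. -/
def Su_EXI : Prop :=
  ∀ (A B : ℤ), Case A B → ∀ (g : OO A B) (e : OO A B → ℂ), g ≠ 0 → IsEps g e →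
    ∀ G : ℕ, 0 < G → g ∣ (G : OO A B) → ∀ a b c d : ℤ, a * d - b * c = 1 →
    ∃ (M : ℕ) (W : OO A B → ℂ), 0 < M ∧ (M : ℤ) ∣ absD A B * G ^ 2 ∧ Bd W ∧ ∀ z : ℂ, 0 < z.im →
      thetaInt e (((a : ℂ) * z + b) / ((c : ℂ) * z + d)) =
        Phi e ∞ (mob a b c d ∞) + ∑' y, tI W (z / M) y

/-- (QPE) the primitive under `Gamma_0(N0)`.

USES BDD, DIF, VAN, MBF, MOD, CUS. PROOF. `z ↦ thetaInt e (γ z)` has derivative `2 π i theta e (γ z)/(c z + d)² = nuE e d 2 π i theta e z`,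
as `nuE e d thetaInt e`. The difference is a constant `C` on the upper half plane; `thetaInt e z → 0` for `im z → oo`
(VAN, `W = e`), so `C` is the number of CUS. -/
def Su_QPE : Prop :=
  ∀ (A B : ℤ), Case A B → ∀ (g : OO A B) (e : OO A B → ℂ), g ≠ 0 → IsEps g e →
    ∀ G : ℕ, 0 < G → g ∣ (G : OO A B) → ∀ a b c d : ℤ, a * d - b * c = 1 →
    absD A B * G ^ 2 ∣ c → ∀ z : ℂ, 0 < z.im →
    thetaInt e (((a : ℂ) * z + b) / ((c : ℂ) * z + d)) =
      nuE e d * thetaInt e z + Phi e ∞ (mob a b c d ∞)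

/-- (MCO) `mob` and products of matrices, at `∞`. USES nothing. PROOF. Case distinction `c' = 0` (then `a' = ±1`) or not. First part:
`r = p/q` in lowest terms and Bezout (`Rat.reduced`, `Int.gcd_eq_gcd_ab` or `IsCoprime`). -/
def Su_MCO : Prop :=
  (∀ x : OnePoint ℚ, ∃ a b c d : ℤ, a * d - b * c = 1 ∧ mob a b c d ∞ = x) ∧
  ∀ a b c d a' b' c' d' : ℤ, a * d - b * c = 1 → a' * d' - b' * c' = 1 →
    mob a b c d (mob a' b' c' d' ∞) =
      mob (a * a' + b * c') (a * b' + b * d') (c * a' + d * c') (c * b' + d * d') ∞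

/-- (SYM) the symbol is a modular symbol.

USES VAN, MBF, EXI, QPE, MCO. PROOF. `add`: `Phi x y = Ic x - Ic y`. `equiv`: it is enough to show for all cusps `x`:
`(*) Ic (γ x) = nuE e d Ic x + Ic (γ ∞)` (subtract for `x`, `y`). `x = σ ∞`, `σ = (a' b'; c' d')` (MCO), `γ x = (γ σ) ∞`. For
`im z → oo`: `thetaInt e (σ z) → Phi e ∞ x = -Ic x` and `thetaInt e (γ σ z) → -Ic (γ x)` (EXI and VAN), and by QPE at
`σ z` : `thetaInt e (γ σ z) = nuE e d thetaInt e (σ z) - Ic (γ ∞)`. Uniqueness of limits (for instance along `z = i s`,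
or: the difference of the two sides of (*) has norm less than every `ε`). -/
def Su_SYM : Prop :=
  ∀ (A B : ℤ), Case A B → ∀ (g : OO A B) (e : OO A B → ℂ), g ≠ 0 → IsEps g e →
    ∀ G : ℕ, 0 < G → g ∣ (G : OO A B) → ∀ N : ℕ, N ≠ 0 → absD A B * G ^ 2 ∣ (N : ℤ) →
    IsSym N (nuE e) (Phi e)

/-- (FT) THE RESULT of the block (unconditional theorem `main_FT` in `FTMain.lean`). -/
def Su_FT : Prop :=
  ∀ (A B : ℤ), Case A B → ∀ (g : OO A B) (e : OO A B → ℂ), g ≠ 0 → IsEps g e →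
    ∀ G : ℕ, 0 < G → g ∣ (G : OO A B) → ∀ N : ℕ, N ≠ 0 → absD A B * G ^ 2 ∣ (N : ℤ) →
    IsSym N (nuE e) (Phi e) ∧
    (∀ a b c d : ℤ, a * d - b * c = 1 → (N : ℤ) ∣ c → ∀ τ : ℂ, 0 < τ.im →
      thetaInt e ((a * τ + b) / (c * τ + d)) =
        nuE e d * thetaInt e τ + Phi e ∞ (mob a b c d ∞)) ∧
    ∀ a b c d : ℤ, a * d - b * c = 1 → ∃ w : ℕ → ℂ, ∀ τ : ℂ, 0 < τ.im →
      HasSum (fun n : ℕ => w n * Complex.exp (2 * Real.pi * Complex.I * τ / N) ^ (n + 1))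
        (thetaInt e ((a * τ + b) / (c * τ + d)) - Phi e ∞ (mob a b c d ∞))

end

end Pool.Agent.MU3T
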