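import Pool.Agent.MU3.Base

/-!
# MU3, block G (helper36): Theorem G, the arithmetic part. Statements with proofs in words.

A module proves `theorem t_X : St_X`. Setting of section 6 of PAPER.md. `H` is a number field, `Γ` a
finite group of automorphisms of `H` (the Galois group over `k`), everything about the curve is
abstracted away.
-/

set_option autoImplicit false

namespace Pool.Agent.MU3G

open MU3 Pool.Agent.MuSym OnePoint NumberField

noncomputable section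

/-- (G1) choice of the coefficient `c`.

PROOF. For `s` in `Γ` let `P_s = {x : s x ∈ P} = comap s P`, a prime ideal, nonzero (it contains the
same rational prime; or: norm), hence maximal (Dedekind domain of dimension one). Let `D = {s : P_s = P}`.
(i) Residue field `F = (𝓞 H) / P`. For `s` in `D` the map `s` induces a ring automorphism `s̄` of `F`. For
`s ≠ s'` in `D` the maps `s̄`, `s̄'` are different: otherwise `s x - s' x ∈ P` for all `x`, apply `s'⁻¹`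
(which preserves `P`): `s'⁻¹ s x - x ∈ P` for all `x`, so `s'⁻¹ s = 1` by `hun`. By Dedekind's theorem
(`linearIndependent_monoidHom` for the monoid homs `F →* F`) the function `Σ_(s in D) t̄_s s̄` is not zero,
because `t̄_1 ≠ 0`. Choose `c0` in `𝓞 H` with `Σ_(s in D) t_s s(c0) ∉ P`. (ii) Chinese remainder theorem for
the finitely many distinct primes among the `P_s` (`IsDedekindDomain.exists_forall_sub_mem_ideal` or
`Ideal.exists_forall_sub_mem_ideal` with pairwise coprime powers): there is `c` with `c - c0 ∈ P` and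
`c ∈ P_s ^ M` for all `s` not in `D` (here `P_s ≠ P`). (iii) For `s` not in `D`: `s(c) ∈ P ^ M`
(`P_s ^ M = comap s (P ^ M)` for the ring automorphism `s`). For `s` in `D`: `s(c) - s(c0) ∈ P`. So
`Σ_s t_s s(c) - Σ_(s in D) t_s s(c0) ∈ P` (`M ≥ 1`), hence `Σ_s t_s s(c) ∉ P`. -/
def St_G1 : Prop :=
  ∀ (H : Type) [Field H] [NumberField H] (Γ : Subgroup (𝓞 H ≃+* 𝓞 H)) [Finite Γ]
    (P : Ideal (𝓞 H)) (_ : P.IsPrime) (_ : P ≠ ⊥)
    (_ : ∀ s ∈ Γ, (∀ x : 𝓞 H, s x - x ∈ P) → s = 1)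
    (t : Γ → 𝓞 H) (_ : ∀ s : Γ, (∀ x : 𝓞 H, s.1 x ∈ P ↔ x ∈ P) → t s ∉ P) (M : ℕ) (_ : 1 ≤ M),
    ∃ c : 𝓞 H, (∑ᶠ s : Γ, t s * s.1 c) ∉ P ∧
      ∀ s : Γ, ¬ (∀ x : 𝓞 H, s.1 x ∈ P ↔ x ∈ P) → s.1 c ∈ P ^ M

/-- The coefficients `b_n = Σ_s s(c a_n) s(ε(α_s))⁻¹`. -/
def bb {A B : ℤ} {H : Type} [Field H] (Γ : Subgroup (H ≃+* H)) (eH : OO A B → H)
    (al : Γ → OO A B) (c : H) (aa : ℕ → H) (n : ℕ) : H :=
  ∑ᶠ s : Γ, s.1 (c * aa n) * (s.1 (eH (al s)))⁻¹

/-- (G3) the Frobenius relation of the coefficients.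

PROOF. `s0` is the Frobenius. In `s0(b_n) = Σ_s (s0 s)(c a_n) ((s0 s)(ε(α_s)))⁻¹` substitute `s' = s0 s`
(a permutation of `Γ`). `α_(s0 s) ≡ α_(s0) α_s mod g`, so `ε(α_(s')) = ε(α_(s0)) ε(α_s)` and
`(ε(α_s))⁻¹ = ε(α_(s0)) ε(α_(s'))⁻¹`. So `s0(b_n) = Σ_(s') s'(c a_n) s'(ε(α_(s')))⁻¹ s'(ε(α_(s0)))`. Since
`α_(s0) ≡ κ π` and `ε(κ π) = κ ε(π)` (`κ = 1` or `-1`, `ε(-1) = -1`), `s'(ε(α_(s0))) = κ s'(ε(π))`. On the
other hand `a_(3n) = ε(π) π̄ a_n` and `s'` fixes the image of `O`, so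
`b_(3n) = π̄ Σ_(s') s'(c a_n) s'(ε(π)) s'(ε(α_(s')))⁻¹ = π̄ κ s0(b_n)` (`κ² = 1`). -/
def St_G3 : Prop :=
  ∀ (A B : ℤ) (_ : Case A B) (H : Type) [Field H] (j : OO A B →+* H)
    (Γ : Subgroup (H ≃+* H)) [Finite Γ] (_ : ∀ s ∈ Γ, ∀ x, s (j x) = j x)
    (g : OO A B) (eH : OO A B → H) (_ : eH 1 = 1) (_ : ∀ x y, eH (x * y) = eH x * eH y)
    (_ : ∀ x y, g ∣ x - y → eH x = eH y) (_ : eH (-1) = -1)
    (al : Γ → OO A B) (_ : ∀ s s' : Γ, g ∣ al (s * s') - al s * al s')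
    (_ : ∀ s, eH (al s) ≠ 0) (c : H) (aa : ℕ → H)
    (_ : ∀ n, aa (3 * n) = eH (ppi A B) * j (star (ppi A B)) * aa n)
    (s0 : Γ) (kap : ℤ) (_ : kap = 1 ∨ kap = -1) (_ : g ∣ al s0 - kap * ppi A B) (n : ℕ),
    bb Γ eH al c aa (3 * n) = kap * j (star (ppi A B)) * s0.1 (bb Γ eH al c aa n)

/-- The coefficients `a_n = 1/2 Σ_(N x = n) ε(x) x̄` in a field `H`. -/
def aH {A B : ℤ} {H : Type} [Field H] (j : OO A B →+* H) (eH : OO A B → H) (n : ℕ) : H :=
  (2 : H)⁻¹ * ∑ᶠ x : {x : OO A B // nm x = (n : ℤ)}, eH x.1 * j (star x.1)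

/-- (G2) first properties of the coefficients `a_n`.

PROOF. The set `{x : N x = n}` is finite (`nm` is positive definite: `4 nm x = (2 re + B im)² + |D| im²`).
`a_0 = 0`: only `x = 0`, `j 0 = 0`. `a_1`: `N x = 1` only for `x = 1, -1` (`x = re + im w`,
`|D| im² ≤ 4`, so `im = 0`), `ε(-1) (-1) = 1`, sum `2`. Integrality: the involution `x ↦ -x` has no fixed
point on `{N x = n}`, `n ≥ 1`, and the summand is the same at `x` and `-x`, so `a_n` is the sum of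
`ε(x) x̄` over representatives (take `re > 0` or `re = 0, im > 0`), which are integral over `ℤ` (`ε(x)` is
integral by hypothesis, `j` of an element of `O` is integral). `a_(3n) = ε(π) π̄ a_n`: let `N x = 3 n` and
`ε(x) ≠ 0`. `π π̄ = 3` divides `N x = x x̄`; `π` is prime in `O` (norm 3: `O/π` has 3 elements; or a direct
congruence argument), so `π ∣ x` or `π ∣ x̄`, i.e. `π̄ ∣ x`; but `π̄ ∣ g` and `x` is prime to `g` if
`ε(x) ≠ 0`, so `π ∣ x`. So `x = π y`, `N y = n`, and `y ↦ π y` is a bijection from `{N y = n}` onto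
`{N x = 3 n, π ∣ x}`; the other `x` contribute `0`. `ε(π y) = ε(π) ε(y)`, `star (π y) = star π * star y`. -/
def St_G2 : Prop :=
  ∀ (A B : ℤ) (_ : Case A B) (H : Type) [Field H] [CharZero H] (j : OO A B →+* H)
    (g : OO A B) (_ : star (ppi A B) ∣ g) (eH : OO A B → H) (_ : eH 1 = 1)
    (_ : ∀ x y, eH (x * y) = eH x * eH y)
    (_ : ∀ x, eH x ≠ 0 → IsCoprime x g) (_ : ∀ x, IsIntegral ℤ (eH x)) (_ : eH (-1) = -1),
    aH j eH 0 = 0 ∧ aH j eH 1 = 1 ∧ (∀ n, IsIntegral ℤ (aH j eH n)) ∧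
      ∀ n, aH j eH (3 * n) = eH (ppi A B) * j (star (ppi A B)) * aH j eH n

/-- (G4) the Honda type of `H(q) = d Σ b_n q^n / n`.

PROOF. For `n` not divisible by 3 the coefficient of `q^n` on the left is `d b_n / n`, in `W` because
`n` is a unit of `W` (`hW`). For `n = 3 m`, `m ≥ 1`, it is
`d b_(3m)/(3m) - ϖ⁻¹ d s(b_m)/m`, and `b_(3m)/3 = κ π̄ s(b_m)/(π π̄) = κ s(b_m)/π = s(b_m)/ϖ` as
`ϖ = κ π`, `κ² = 1`; so it is 0. `n = 0`: `x / 0 = 0`. The series `H^s(q³)` has coefficient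
`s(coefficient of H at m)` at `3m` and `0` elsewhere; `s` fixes `d` and the rational numbers. -/
def St_G4 : Prop :=
  ∀ (H : Type) [Field H] [CharZero H] (W : Subring H) (_ : ∀ n : ℕ, ¬ 3 ∣ n → ((n : H))⁻¹ ∈ W)
    (s : H ≃+* H) (p pb : H) (_ : p * pb = 3) (kap : ℤ) (_ : kap = 1 ∨ kap = -1)
    (b : ℕ → H) (_ : ∀ n, b n ∈ W) (_ : ∀ n, b (3 * n) = kap * pb * s (b n))
    (d : H) (_ : d ∈ W) (_ : s d = d) (n : ℕ),
    (d * b n / n - (if 3 ∣ n then (kap * p)⁻¹ * s (d * b (n / 3) / (n / 3 : ℕ)) else 0)) ∈ W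

/-- (G0) `O` is a principal ideal domain and `π` is a prime of norm 3.

PROOF. Domain: `embHom` is an injective ring homomorphism to `ℂ` (`emb x = 0` iff `x = 0` as the imaginary
part of `wC` is not zero). Euclidean: for `x`, `y ≠ 0` in `O` write `emb x / emb y = r + t wC` with rational
`r, t` (multiply by the conjugate of `y`), choose an integer `n` with `|t - n| ≤ 1/2` and then an integer
`m` with `|r + B (t - n)/2 - m| ≤ 1/2`: for `q = m + n w` the norm of `emb x/emb y - emb q` is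
`(r + B(t-n)/2 - m)² + (|D|/4)(t - n)² ≤ 1/4 + 11/16 < 1`. So every ideal is generated by an element of
minimal positive norm (or build an `EuclideanDomain`). `π`: `nm (ppi) = 3`; if `π = x y` then one of
`nm x`, `nm y` is 1, and elements of norm 1 are units (`x * star x = nm x`): irreducible, so prime. Units:
`nm x = 1` gives `4 = (2 re + B im)² + |D| im²`, `im = 0`, `re = ± 1`. `π` and `π̄` are coprime:
`π + π̄ = 2 (1 - B) + B = 2 - B` (2 or 1) and `π π̄ = 3`, so `1` is in the ideal `(π, π̄)`. -/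
def St_G0 : Prop :=
  ∀ (A B : ℤ) (_ : Case A B), IsDomain (OO A B) ∧ IsPrincipalIdealRing (OO A B) ∧
    Prime (ppi A B) ∧ Prime (star (ppi A B)) ∧ IsCoprime (ppi A B) (star (ppi A B)) ∧
    (∀ x : OO A B, IsUnit x ↔ x = 1 ∨ x = -1) ∧ (∀ x : OO A B, emb x = 0 ↔ x = 0) ∧
    (∀ x : OO A B, (nm x : ℂ) = emb x * (starRingEnd ℂ) (emb x)) ∧
    (∀ x : OO A B, emb (star x) = (starRingEnd ℂ) (emb x)) ∧
    ∀ x y : OO A B, nm (x * y) = nm x * nm y

/-- (G5a) a homomorphism to `k` with values in `π V` on a finitely generated group.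

Uses G0. PROOF. Let `h` be an element of the group. `ρ(h) = emb y / emb z`, `z ≠ 0`; dividing by `emb π` and
cancelling the gcd (PID) we get `ρ(h)/emb π = emb y0 / emb z0` with `y0`, `z0` coprime, `z0 ≠ 0`. The set
`{x ∈ O : emb x ∈ V.nonunits}` is a proper ideal of `O` (`O` is contained in `V`: `wC` is integral over `ℤ`
and `V` is integrally closed) containing `π`, so it is `(π)` (maximal, as `π` is a prime of a PID). If
`π ∣ z0`, then `π ∤ y0`, so `emb y0` is a unit of `V` and `emb z0` is a nonunit, so the quotient is not in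
`V`: contradiction. So `d_h := z0` has `π ∤ d_h` and `emb d_h * ρ(h) = emb (π y0)`. If `ρ(h) = 0` take
`d_h = 1`. Finitely generated: let `h_1, .., h_r` generate and `d = ∏ d_(h_i)`; `π ∤ d` as `π` is prime. The
set of `h` with `emb d * ρ(h) ∈ emb (π O)` is a subgroup (`ρ` is a homomorphism) containing the
generators, so it is everything. -/
def St_G5a : Prop :=
  ∀ (A B : ℤ) (_ : Case A B) (V : ValuationSubring ℂ) (_ : emb (ppi A B) ∈ V.nonunits)
    (G : Type) [Group G] [Group.FG G] (rho : G → ℂ) (_ : ∀ x y, rho (x * y) = rho x + rho y)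
    (_ : ∀ x, ∃ y z : OO A B, z ≠ 0 ∧ rho x * emb z = emb y)
    (_ : ∀ x, rho x / emb (ppi A B) ∈ V),
    ∃ d : OO A B, ¬ ppi A B ∣ d ∧ ∀ x, ∃ y : OO A B, emb d * rho x = emb (ppi A B * y)

/-- The data of Theorem G: `H` is the field `H'` of PAPER.md, `io` its embedding into `ℂ`, `j` the
embedding of `O`, `Γ` the Galois group over `k`, `al s` the action of `s` on `E[g]`, `eH` the character
`ε` with values in `H`, `s0` the Frobenius automorphism at `V`. -/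
structure IsGD {A B : ℤ} (V : ValuationSubring ℂ) (g : OO A B) {H : Type} [Field H]
    (io : H →+* ℂ) (j : OO A B →+* H) (Γ : Subgroup (H ≃+* H)) (al : Γ → OO A B)
    (eH : OO A B → H) (s0 : Γ) (kap : ℤ) : Prop where
  pV : emb (ppi A B) ∈ V.nonunits
  pg : star (ppi A B) ∣ g
  io_j : ∀ x, io (j x) = emb x
  fix : ∀ s ∈ Γ, ∀ x, s (j x) = j x
  gal : ∀ y : H, (∀ s ∈ Γ, s y = y) → ∃ x z : OO A B, z ≠ 0 ∧ y * j z = j x
  al_mul : ∀ s s' : Γ, g ∣ al (s * s') - al s * al s'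
  al_cop : ∀ s, IsCoprime (al s) g
  unr : ∀ y : H, io y ∈ V.nonunits → io y / emb (ppi A B) ∈ V
  frob : ∀ x : H, io x ∈ V → io (s0.1 x) - io x ^ 3 ∈ V.nonunits
  al_s0 : g ∣ al s0 - kap * ppi A B
  kap1 : kap = 1 ∨ kap = -1
  inert : ∀ s ∈ Γ, (∀ x : H, io x ∈ V → io (s x) - io x ∈ V.nonunits) → s = 1
  eps : IsEps g (fun x => io (eH x))

/-- (G6a) the valuation ring `V` on a number field `H`. `P = {x ∈ 𝓞 H : io x ∈ V.nonunits}`.

Uses G0. PROOF. `𝓞 H` maps into `V` (`V` is integrally closed: `ValuationSubring` is a valuation ring,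
`IsIntegrallyClosed`; or: if `x` is integral and not in `V`, then `x⁻¹ ∈ V.nonunits` and the integral equation
divided by `x^n` says `1 ∈ V.nonunits`). `P` is the preimage of the maximal ideal: prime; `3 = π π̄ ∈ P`, so
`P ≠ ⊥`. (ii) Let `io y ∈ V`. Fractional ideal `(y) = I J⁻¹` with coprime integral ideals `I`, `J`. If
`J ⊄ P`, choose `z ∈ J`, `z ∉ P`, then `z y ∈ I ⊆ 𝓞 H`: done. If `J ⊆ P`, then `I ⊄ P`; choose `w ∈ I`, `w ∉ P`:
`w y⁻¹ ∈ J ⊆ P` (`(w/y) = (w) I⁻¹ J` is contained in `J`), so `io w = io (w/y) io y ∈ V.nonunits`: contradiction. (Or: the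
localization of `𝓞 H` at `P` is a discrete valuation ring contained in the proper subring `V ∩ H`, and a
DVR is a maximal proper subring of its fraction field.) (iii) `y = x/n` with `x ∈ 𝓞 H`, `n = 3^i n'` a
positive integer, `3 ∤ n'`: `1/n' ∈ V` (`n'` is a unit: `3 ∈ V.nonunits`, Bezout), and
`emb(π)^i/3^i = 1/emb(π̄)^i ∈ V` (`π̄` is a unit of `V`, as `u π + v π̄ = 1`). Take `m = i`. (iv) If `s` preserves `P`
and `io y ∈ V`, write `y = x/z` as in (ii): `s y = s x/s z`, `s z ∉ P`, so `io (s z)` is a unit of `V`. If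
moreover `io y` is a nonunit then `x ∈ P`, `s x ∈ P`. (v) induction on `M` (`Submodule.span_induction` for
products, or `Ideal.pow_induction_on_left'`): the set of `x` with `io x/emb(π)^M ∈ V` is an ideal. -/
def St_G6a : Prop :=
  ∀ (A B : ℤ) (_ : Case A B) (V : ValuationSubring ℂ) (_ : emb (ppi A B) ∈ V.nonunits)
    (H : Type) [Field H] [NumberField H] (io : H →+* ℂ),
    ∃ P : Ideal (𝓞 H), P.IsPrime ∧ P ≠ ⊥ ∧ (∀ x : 𝓞 H, io x ∈ V) ∧
      (∀ x : 𝓞 H, x ∈ P ↔ io x ∈ V.nonunits) ∧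
      (∀ y : H, io y ∈ V → ∃ x z : 𝓞 H, z ∉ P ∧ y * z = x) ∧
      (∀ y : H, ∃ m : ℕ, io y * emb (ppi A B) ^ m ∈ V) ∧
      (∀ s : H ≃+* H, (∀ x : H, IsIntegral ℤ x → (io (s x) ∈ V.nonunits ↔ io x ∈ V.nonunits)) →
        ∀ y : H, (io y ∈ V → io (s y) ∈ V) ∧ (io y ∈ V.nonunits → io (s y) ∈ V.nonunits)) ∧
      ((∀ y : H, io y ∈ V.nonunits → io y / emb (ppi A B) ∈ V) →
        ∀ (M : ℕ) (x : 𝓞 H), x ∈ P ^ M → io x / emb (ppi A B) ^ M ∈ V)

/-- (G6b) the choice of `c`, in terms of `V`.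

Uses G0, G1, G6a. PROOF. Restriction to the ring of integers is an injective homomorphism from `Γ` to
`𝓞 H ≃+* 𝓞 H` (`RingOfIntegers.mapRingEquiv`), let `Γ'` be the image. Hypothesis of G1: if `s x - x ∈ P` for
all `x ∈ 𝓞 H`, then for `io y ∈ V`, `y = x/z` as in G6a, `s y - y = ((s x - x) z - x (s z - z))/(z (s z))` has
`io` in `V.nonunits` (`s z ∉ P`, since `s z - z ∈ P`), so `s = 1` by `inert`. `t_s := (s(eH(al s)))⁻¹`: there is
`y` with `al s * y ≡ 1 mod g`, so `eH(al s) eH(y) = 1` (`eps.per`, `eps.mul`, injectivity of `io`); the values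
`eH(x)`, `x` prime to `g`, are roots of unity (`x^r ≡ 1 mod g` for some `r ≥ 1`, as `O/g` is finite), so `t_s` is
integral, a unit, not in `P`. Let `c` be given by G1 for `M`. First conclusion: clear. Second: let `y` be as
stated. For `s` preserving `P`: `y/j(π)` has `io` in `V` (`unr`), so has `s(y/j π)` (G6a (iv)), and
`io(s(c y)) = io(s c) emb(π) io(s(y/j π)) ∈ emb(π) V`. For the other `s`: `s c ∈ P^M`, so `io(s c)/emb(π)^M ∈ V`
(G6a (v)) and `emb(π)^(M-1) io(s y) ∈ V`; the product divided by `emb(π)` is in `V`. Sum over `s`. -/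
def St_G6b : Prop :=
  ∀ (A B : ℤ) (_ : Case A B) (V : ValuationSubring ℂ) (g : OO A B) (_ : g ≠ 0) (H : Type) [Field H]
    [NumberField H] (io : H →+* ℂ) (j : OO A B →+* H) (Γ : Subgroup (H ≃+* H)) [Finite Γ]
    (al : Γ → OO A B) (eH : OO A B → H) (s0 : Γ) (kap : ℤ)
    (_ : IsGD V g io j Γ al eH s0 kap) (M : ℕ) (_ : 1 ≤ M),
    (∀ s : Γ, IsIntegral ℤ (s.1 (eH (al s)))⁻¹) ∧ ∃ c : H, IsIntegral ℤ c ∧
      io (∑ᶠ s : Γ, s.1 c * (s.1 (eH (al s)))⁻¹) ∉ V.nonunits ∧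
      ∀ y : H, io y ∈ V.nonunits →
        (∀ s : Γ, io (s.1 y) * emb (ppi A B) ^ (M - 1) ∈ V) →
        io (∑ᶠ s : Γ, s.1 (c * y)) / emb (ppi A B) ∈ V

/-- The function `Z = (d/ϖ) Σ_s s(c) (s(ε(al s)))⁻¹ thetaInt(s ε)`, `ϖ = κ π`. -/
def ZZ {A B : ℤ} {H : Type} [Field H] (io : H →+* ℂ) (Γ : Subgroup (H ≃+* H)) (al : Γ → OO A B)
    (eH : OO A B → H) (kap : ℤ) (c : H) (d : OO A B) (z : ℂ) : ℂ :=
  emb d / (kap * emb (ppi A B)) * ∑ᶠ s : Γ, io (s.1 c * (s.1 (eH (al s)))⁻¹) *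
    thetaInt (fun x => io (s.1 (eH x))) z

/-- (G6c) the function `Z` is periodic modulo `L` under `Γ₁(N')`, if all closed cycles are nonunits.

Uses G0, G1, G5a, G6a, G6b. PROOF. `N' = |D| (3f)² * N''`-multiple, so for `h = (a b; c d)` with `N' ∣ c`,
`N' ∣ d - 1` (then also `a ≡ 1`) `chiD d = 1` and `ε(d) = 1`: hypothesis `hnu`. Put
`y_h = PhiH ∞ (h ∞)`; `Phi e = Om * io PhiH` (`hPhi` for `s = 1`: `al 1 * al 1 ≡ al 1` and `al 1` is prime to `g`, so
`al 1 ≡ 1`, `eH(al 1) = 1`). So `io (PhiH (h x) (h y)) = io (PhiH x y)` for `h` in `Γ₁(N')` (`hsym`), also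
additivity, and `io` is injective. `h ↦ y_h` is a homomorphism to `H`: `y_(h h') = PhiH ∞ (h ∞) + PhiH (h ∞)
(h h' ∞) = y_h + y_(h')` (`mob` is an action: `mob_mob` in Pool/Agent/MuSym). Group: `CongruenceSubgroup.Gamma1 N'`,
of finite index in `SL(2,ℤ)` which is finitely generated (`SpecialLinearGroup.SL2Z_generators`), so finitely
generated (`Subgroup.fg_of_index_ne_zero`), so the `y_h` lie in a finitely generated group, and by
G6a (iii) there is `M ≥ 1` with `io(s(y_h)) emb(π)^(M-1) ∈ V` for all `h`, `s` (bound it on the generators; `V`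
is a ring). Take `c` from G6b. `hyp` says `io y_h ∈ V.nonunits`, so `ρ(h) := io(Σ_s s(c y_h))` has
`ρ(h)/emb(π) ∈ V`. `Σ_s s(c y_h)` is fixed by `Γ`, so `gal` gives the form `emb y/emb z`. G5a gives `d`.
`Z(h τ) - Z(τ) = emb d/(κ emb π) Σ_s io(s c (s eH(al s))⁻¹) Phi e_s ∞ (h ∞)` by `hFT` (with `nu = 1`: the values
`nuE e_s d = 1` follow from `hnu` as `e_s = io s eH` and `eH(d) = 1`) `= emb d/(κ emb π) Om Σ_s io(s c s(y_h))` by `hPhi`
`= κ Om emb d ρ(h)/emb π ∈ Om emb(O)`. `b_1`: with `a_1 = 1` it is the sum in G6b. -/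
def St_G6c : Prop :=
  ∀ (A B : ℤ) (_ : Case A B) (V : ValuationSubring ℂ) (g : OO A B) (_ : g ≠ 0) (H : Type) [Field H]
    [NumberField H] (io : H →+* ℂ) (j : OO A B →+* H) (Γ : Subgroup (H ≃+* H)) [Finite Γ]
    (al : Γ → OO A B) (eH : OO A B → H) (s0 : Γ) (kap : ℤ)
    (_ : IsGD V g io j Γ al eH s0 kap) (Om : ℂ) (_ : Om ≠ 0) (N' : ℕ) (_ : N' ≠ 0)
    (_ : ∀ d : ℤ, (N' : ℤ) ∣ d - 1 → chiD A B d = 1 ∧ g ∣ (d : OO A B) - 1)
    (PhiH : OnePoint ℚ → OnePoint ℚ → H)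
    (_ : ∀ (s : Γ) (x y : OnePoint ℚ), Phi (fun z => io (s.1 (eH z))) x y =
      Om * io (s.1 (eH (al s)) * s.1 (PhiH x y)))
    (_ : IsSym N' (nuE fun x => io (eH x)) (Phi fun x => io (eH x)))
    (_ : ∀ (s : Γ) (a b c d : ℤ), a * d - b * c = 1 → (N' : ℤ) ∣ c → ∀ τ : ℂ, 0 < τ.im →
      thetaInt (fun z => io (s.1 (eH z))) ((a * τ + b) / (c * τ + d)) =
        nuE (fun z => io (s.1 (eH z))) d * thetaInt (fun z => io (s.1 (eH z))) τ +
          Phi (fun z => io (s.1 (eH z))) ∞ (mob a b c d ∞))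
    (_ : ∀ a b c d : ℤ, a * d - b * c = 1 → (N' : ℤ) ∣ c → (N' : ℤ) ∣ d - 1 →
      Phi (fun x => io (eH x)) ∞ (mob a b c d ∞) / Om ∈ V.nonunits),
    ∃ (c : H) (d : OO A B), IsIntegral ℤ c ∧ ¬ ppi A B ∣ d ∧
      io (∑ᶠ s : Γ, s.1 c * (s.1 (eH (al s)))⁻¹) ∉ V.nonunits ∧
      ∀ a b c' d' : ℤ, a * d' - b * c' = 1 → (N' : ℤ) ∣ c' → (N' : ℤ) ∣ d' - 1 → ∀ τ : ℂ,
        0 < τ.im → ∃ x : OO A B, ZZ io Γ al eH kap c d ((a * τ + b) / (c' * τ + d')) -
          ZZ io Γ al eH kap c d τ = Om * emb x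

/-- (G7) the `q`-expansions of `thetaInt` and of `Z`.

Uses G0. PROOF. `thetaInt e τ = 1/2 Σ_x e(x) conj(emb x)/N(x) exp(2 π i N(x) τ)`, absolutely summable for
`Im τ > 0`: `|e(x)| ≤ 1` (values are 0 or roots of unity) and `N(x) = |emb x|² ≥ c (re² + im²)`. Group the terms by
`n = N(x)` (`HasSum.sigma`, or `Summable` and `tsum_fiberwise`); the fibre sum is
`io(a_n)/n` with `a_n = aH j eH n` (`io` of a finite sum; `io(j(star x)) = conj(emb x)`). For `s` in `Γ`: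
`aH j (s eH) n = s(aH j eH n)` as `s` fixes `j`. `Z`: finite sum over `s`, coefficient of `q^n`:
`emb d/(κ emb π) Σ_s io(s c (s eH(al s))⁻¹ s(a_n))/n = emb d/(κ emb π) io(bb n)/n`. -/
def St_G7 : Prop :=
  ∀ (A B : ℤ) (_ : Case A B) (V : ValuationSubring ℂ) (g : OO A B) (_ : g ≠ 0) (H : Type) [Field H]
    [NumberField H] (io : H →+* ℂ) (j : OO A B →+* H) (Γ : Subgroup (H ≃+* H)) [Finite Γ]
    (al : Γ → OO A B) (eH : OO A B → H) (s0 : Γ) (kap : ℤ)
    (_ : IsGD V g io j Γ al eH s0 kap) (c : H) (d : OO A B) (τ : ℂ) (_ : 0 < τ.im),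
    HasSum (fun n : ℕ => io (aH j eH n) / n * Complex.exp (2 * Real.pi * Complex.I * n * τ))
      (thetaInt (fun x => io (eH x)) τ) ∧
    HasSum (fun n : ℕ => io (j d * (kap * j (ppi A B))⁻¹ * (bb Γ eH al c (aH j eH) n / n)) *
      Complex.exp (2 * Real.pi * Complex.I * n * τ)) (ZZ io Γ al eH kap c d τ)

end

end Pool.Agent.MU3G
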