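import Pool.Agent.MuSym.Defs

/-!
# MU3: the key lemma for weight two symbols with values in a module

Module version of `boundary_of_val` (`Pool/Agent/MuSym/Final.lean`), for weight two and a level
divisible by `p`: if a `U_p`-eigensymbol (unit eigenvalue) with values in an `R`-module killed by a
power of `p` vanishes on the paths from `∞` to `b / p ^ n` (`n ≥ 1`, `b` prime to `p`), then it
vanishes on the closed paths from `x` to `h x`, `h` in `Γ₁(N)`.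

Every `def S_X : Prop` is the statement of a module, which proves `theorem t_X : S_X` (from other
`S_Y` as hypotheses). The doc-string contains the proof.
-/

open Finset OnePoint

namespace Pool.Agent.MU3

open Pool.Agent.MuSym

/-- `ψ` is equivariant under `Γ₀(N)` with the factor `χ`, at the finite cusps. -/
def EqvM {R M : Type} [CommRing R] [AddCommGroup M] [Module R M] (N : ℕ) (χ : ℤ → R)
    (ψ : ℚ → ℚ → M) : Prop :=
  ∀ a b c d : ℤ, a * d - b * c = 1 → (N : ℤ) ∣ c → ∀ x y : ℚ, (c : ℚ) * x + d ≠ 0 →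
    (c : ℚ) * y + d ≠ 0 →
    ψ ((a * x + b) / (c * x + d)) ((a * y + b) / (c * y + d)) = χ d • ψ x y

/-- KM1: the key step for values in a module.
Proof. Adapt `Pool/Agent/MuSym/LevelP.lean` (`const_of_cycle`, `sheetP`, `key_stepP`,
`key_stepP_all`): replace `F` by `M`, `χ d *` by `χ d •`. Everything is division free up to the last
lines of `key_stepP`, which show: if `δ ≠ 0` is prime to `β p N'` then
`a • ψ 0 (β/δ) = ∑_{j<p} G 0 = (p : R) • G 0`, `G 0 = ψ 0 (β p^e / (δ p^(e+1)))`, and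
`β p^e / (δ p^(e+1)) = β'/δ'` with `δ' ≠ 0` prime to `β' N'`. `key_stepP_all` (reduction of
a denominator divisible by `p` to one prime to `p` by the equivariance and `hZ`) shows that
`ψ 0 (β/δ)`, `δ` prime to `β N'`, is equal to some `ψ 0 (B/D)`, `D` prime to `B p N'`. So every value
`ψ 0 (β/δ)`, `δ` prime to `β N'`, is `p` times `a⁻¹` times another one; iterate: it is
`(p^k a⁻ᵏ) •` another one, so it is `0`. -/
def S_KM1 : Prop := ∀ (p : ℕ) (_ : p.Prime) (N' : ℕ) (_ : p.Coprime N') (R M : Type) [CommRing R]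
    [AddCommGroup M] [Module R M] (χ : ℤ → R) (ψ : ℚ → ℚ → M) (a : R) (_ : IsUnit a) (k : ℕ)
    (_ : ∀ x y, (p : R) ^ k • ψ x y = 0) (_ : ∀ x y z, ψ x y + ψ y z = ψ x z)
    (_ : EqvM (p * N') χ ψ) (_ : χ 1 = 1)
    (_ : ∀ (S S' : ℤ) (i i' : ℕ), ψ (S / (p : ℚ) ^ i) (S' / (p : ℚ) ^ i') = 0)
    (_ : ∀ x y, a • ψ x y = ∑ j ∈ range p, ψ ((x + j) / p) ((y + j) / p))
    (β δ : ℤ) (_ : δ ≠ 0) (_ : IsCoprime δ (β * N')), ψ 0 (β / δ) = 0

/-- KM1L: lowering of the level.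
Proof. Adapt `level_down` and `level_down_all` of `Pool/Agent/MuSym/Trick.lean` (values in `M`, `a` a
unit): `a • ψ = U_p ψ`, and for a matrix `h` of `Γ₀(p^(s+1) N')`, `s ≥ 1`, the matrices
`(1 j; 0 p) h` are `h_j (1 j'; 0 p)` with `h_j` in `Γ₀(p^(s+2) N')` and lower right entry `≡ d`. -/
def S_KM1L : Prop := ∀ (p : ℕ) (_ : p.Prime) (N' : ℕ) (R M : Type) [CommRing R]
    [AddCommGroup M] [Module R M] (χ : ℤ → R) (ψ : ℚ → ℚ → M) (a : R) (_ : IsUnit a)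
    (_ : χ 1 = 1) (_ : ∀ d d' : ℤ, ((p * N' : ℕ) : ℤ) ∣ d - d' → χ d = χ d')
    (_ : ∀ x y, a • ψ x y = ∑ j ∈ range p, ψ ((x + j) / p) ((y + j) / p)) (s : ℕ)
    (_ : EqvM (p ^ (s + 1) * N') χ ψ), EqvM (p * N') χ ψ

/-- KM2: the key lemma.
Proof (from KM1, KM1L). `ψ x y = Φ x y` on `ℚ`. `EqvM (p^(s+1) N') χ ψ` from `hE` (`mob_coe` in
`Pool/Agent/MuSym/Base.lean` or `Red.lean`), so `EqvM (p N') χ ψ` by KM1L. `φ₀ = Φ ∞ 0`. The relation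
`hT` at `(∞, 0)` is `a φ₀ = Φ ∞ 0 + ∑_{0<j<p} Φ ∞ (j/p) = φ₀`, so `(a - 1) φ₀ = 0`; by translation
`Φ ∞ n = φ₀` for `n ∈ ℤ`. `-1 ∈ Γ₀(N)` acts trivially on cusps: `χ(-1) φ₀ = φ₀`. `B : ℚ → M`,
`B(β/δ) = χ(δ) φ₀` if `δ` (`β/δ` in lowest terms, `δ > 0`) is prime to `p N'`, and `0` otherwise. If
`h = (α β'; c d)` with `p N' ∣ c` then `B(h x) = χ(d) B(x)`: the denominator of `h x` is
`± (c β + d δ) ≡ ± d δ` modulo `p N'`, `χ` is multiplicative and periodic. `∑_j B((x+j)/p) = B(x)`: if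
`p ∤ δ` exactly one `β + jδ` is divisible by `p` and then `(x+j)/p` has denominator `δ`, the others
have a denominator divisible by `p`; if `p ∣ δ` all denominators are divisible by `p`. So
`ψ' x y = ψ x y - B y + B x` satisfies all hypotheses of KM1: equivariance, `a • ψ' = U_p ψ'` (because
`(a - 1) • B = 0`, `χ(δ)(a - 1) φ₀ = 0`), and it vanishes on all pairs `S/p^i`, `S'/p^i'` (`Φ ∞ (S/p^i)` is `0` or
`φ₀ = B(S/p^i)`). It is killed by `p^k`. So `ψ' 0 (β/δ) = 0` for all `δ` prime to `β N'`. For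
`h = (α β; γ δ)`, `N ∣ γ`, `N ∣ δ - 1`, `δ ≠ 0`: `Φ 0 (h 0) = Φ 0 (β/δ) = B(β/δ) - B(0) = (χ(δ) - 1) φ₀ = 0`.
`δ = 0` only if `N = 1`, excluded by `p ∣ N`. `Φ x (h x) = Φ x 0 + Φ 0 (h 0) + Φ (h 0) (h x)` and
`Φ (h 0) (h x) = χ(δ) Φ 0 x = Φ 0 x`, so `Φ x (h x) = 0`. -/
def S_KM2 : Prop := ∀ (p : ℕ) (_ : p.Prime) (N' s : ℕ) (_ : p.Coprime N') (_ : N' ≠ 0) (R M : Type)
    [CommRing R] [AddCommGroup M] [Module R M] (χ : ℤ → R) (Φ : OnePoint ℚ → OnePoint ℚ → M)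
    (a : R) (_ : IsUnit a) (k : ℕ) (_ : ∀ x y, (p : R) ^ k • Φ x y = 0)
    (_ : χ 1 = 1) (_ : ∀ d d' : ℤ, χ (d * d') = χ d * χ d')
    (_ : ∀ d d' : ℤ, ((p * N' : ℕ) : ℤ) ∣ d - d' → χ d = χ d')
    (_ : ∀ x y z, Φ x y + Φ y z = Φ x z)
    (_ : ∀ a b c d : ℤ, a * d - b * c = 1 → ((p ^ (s + 1) * N' : ℕ) : ℤ) ∣ c → ∀ x y,
      Φ (mob a b c d x) (mob a b c d y) = χ d • Φ x y)
    (_ : ∀ x : ℚ, a • Φ ∞ (x : OnePoint ℚ) =
      ∑ j ∈ range p, Φ ∞ (((x + j) / p : ℚ) : OnePoint ℚ))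
    (_ : ∀ n, 1 ≤ n → ∀ b : ℤ, ¬ (p : ℤ) ∣ b → Φ ∞ ((b / p ^ n : ℚ) : OnePoint ℚ) = 0),
    ∀ α β γ δ : ℤ, α * δ - β * γ = 1 → ((p ^ (s + 1) * N' : ℕ) : ℤ) ∣ γ →
      ((p ^ (s + 1) * N' : ℕ) : ℤ) ∣ δ - 1 → ∀ x, Φ x (mob α β γ δ x) = 0

end Pool.Agent.MU3
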