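import Pool.Agent.MU3.StFH2
import Pool.Agent.MU3.StF6
import Pool.Agent.MU3.StKey

/-!
# MU3, block H (helper27): from Theorem G to `MU3I.St_HFIN`

Section 7 of PAPER.md. Every statement is a `def Sh_X : Prop`; a module proves `theorem th_X (h : ..) ... : Sh_X`,
the hypotheses are the statements named under USES. `v = V.valuation`: `v x ≤ 1 ↔ x ∈ V`, `v x < 1 ↔ x ∈ V.nonunits`
(`ValuationSubring.valuation_le_one_iff`, `ValuationSubring.mem_nonunits_iff`). `v` is multiplicative.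
-/

set_option autoImplicit false

namespace Pool.Agent.MU3H

open _root_.MU3 Pool.Agent.MU3 Pool.Agent.MU3A Pool.Agent.MU3B Pool.Agent.MU3C Pool.Agent.MU3F
  Pool.Agent.MU3G Pool.Agent.MU3I Pool.Agent.MuSym OnePoint
open scoped ComplexConjugate

noncomputable section

/-! ## Abstract part: distributions on `ℤ₃` with values in `ℂ` -/

/-- `M n b` is the value on the ball `b + 3^n ℤ₃` -/
structure Dist (M : ℕ → ℤ → ℂ) : Prop where
  per : ∀ (n : ℕ) (b c : ℤ), (3 : ℤ) ^ n ∣ b - c → M n b = M n c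
  add : ∀ (n : ℕ) (b : ℤ), M n b = ∑ j ∈ Finset.range 3, M (n + 1) (b + j * 3 ^ n)

/-- (HZ) the character sums of an integral distribution which is nonzero modulo `V` have small valuation.

PROOF. `t = v 3 < 1`, `t ≠ 0`. Let `v (M m b₀) = 1`; `n₀ = m + 1`. Let `n ≥ n₀`, `P(T) = Σ_(b < 3^n) M n b T^b`, a polynomial with coefficients in
`K ∩ V`, `P(1 + X) = Σ_k c_k X^k`, `c_k ∈ K`, `v c_k ≤ 1`. (1) Some `c_k` with `k < 3^m` has `v c_k = 1`: otherwise, modulo the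
maximal ideal, `(T - 1)^(3^m) = T^(3^m) - 1` (characteristic 3) divides `P(T)`, so the sums of the coefficients of `P` over the classes modulo `3^m`
(`Σ_(b ≡ b₁ mod 3^m) M n b = M m b₁` by additivity) would all be `0` modulo the maximal ideal, against `M m b₀`. Let `k₀` be the smallest such `k`.
(2) `y = v(ζ - 1)` satisfies `y^φ = t`, `φ = 2 3^(n-1)` (`3` = value at `1` of the cyclotomic polynomial = product of the `φ` numbers `1 - ζ^i`, `3 ∤ i`, and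
`v(1 - ζ^i) = v(1 - ζ)` because each divides the other in `ℤ[ζ]`); so `y < 1`, `y ≠ 0`. (3) In `P(ζ) = Σ c_k (ζ-1)^k` the term `k₀` has `v = y^k₀`,
the terms `k > k₀` have `v ≤ y^(k₀+1) < y^k₀`, the terms `k < k₀` have `v c_k < 1`, so `v c_k ≤ t = y^φ < y^k₀` (`k₀ < 3^m ≤ 3^(n-1) < φ`). So
`v(P(ζ)) = y^k₀`, and `v(P(ζ))² = y^(2 k₀) > y^φ = t` as `2 k₀ < φ`. -/
def Sh_HZ : Prop :=
  ∀ (V : ValuationSubring ℂ) (_ : V.valuation 3 < 1) (K : Subring ℂ)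
    (_ : ∀ x ∈ K, V.valuation x < 1 → V.valuation x ≤ V.valuation 3)
    (M : ℕ → ℤ → ℂ) (_ : Dist M) (_ : ∀ n b, M n b ∈ K) (_ : ∀ n b, V.valuation (M n b) ≤ 1)
    (_ : ∃ n b, V.valuation (M n b) = 1),
    ∃ n₀ : ℕ, ∀ n, n₀ ≤ n → ∀ ζ : ℂ, IsPrimitiveRoot ζ (3 ^ n) →
      V.valuation 3 < V.valuation (∑ b ∈ Finset.range (3 ^ n), ζ ^ b * M n b) ^ 2

/-- (STP) one step: `M` is not invariant under `u` modulo the maximal ideal.

PROOF. `M' n b = c₁ M n (u b) - c₂ M n b`. `Dist M'`: `M n (u b) = Σ_j M (n+1) (u b + j 3^n)` and `u (b + j 3^n) - (u b + j 3^n) = (u - 1) j 3^n` is divisible by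
`3^(n+1)`. Integrality: `u` is prime to `3`, so `¬ 3^n ∣ u b`; `v c₂ ≤ 1`. Last part: suppose that `v (M' n b) < 1` for all `n ≥ 1`, `3 ∤ b`. As
`M' n b = c₁ (M n (u b) - M n b) + (c₁ - c₂) M n b`, `v (M n (u b) - M n b) < 1`, and `v (M n (u^i b) - M n b) < 1` for all `i`. Let `3^k` be the exact power of `3` dividing `u - 1`,
`k ≥ 1`. For `n ≥ k`: `u^(3^(n-k)) ≡ 1 + 3^n w` modulo `3^(n+1)`, `3 ∤ w` (induction: `(1 + 3^n w)^3 ≡ 1 + 3^(n+1) w` modulo `3^(n+2)`, `n ≥ 1`), so `b + j 3^n ≡ u^i b` modulo `3^(n+1)` for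
some `i` (`i = i' 3^(n-k)`, `i' w b ≡ j` modulo 3). So all `M (n+1) (b + j 3^n)` are `M (n+1) b` up to elements with `v < 1`, and `M n b = Σ_j ..` is `3 M (n+1) b` up to such elements, `v (M n b) < 1`.
For `1 ≤ n < k` use additivity and descending induction on `n`. Contradiction. -/
def Sh_STP : Prop :=
  ∀ (V : ValuationSubring ℂ) (_ : V.valuation 3 < 1) (M : ℕ → ℤ → ℂ) (_ : Dist M)
    (_ : ∀ (n : ℕ) (b : ℤ), ¬ (3 : ℤ) ^ n ∣ b → V.valuation (M n b) ≤ 1)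
    (_ : ∃ (n : ℕ) (b : ℤ), 1 ≤ n ∧ ¬ (3 : ℤ) ∣ b ∧ V.valuation (M n b) = 1)
    (u : ℤ) (_ : (3 : ℤ) ∣ u - 1) (_ : u ≠ 1) (c₁ c₂ : ℂ) (_ : V.valuation c₁ = 1)
    (_ : V.valuation (c₁ - c₂) < 1),
    Dist (fun n b => c₁ * M n (u * b) - c₂ * M n b) ∧
    (∀ (n : ℕ) (b : ℤ), ¬ (3 : ℤ) ^ n ∣ b → V.valuation (c₁ * M n (u * b) - c₂ * M n b) ≤ 1) ∧
    ∃ (n : ℕ) (b : ℤ), 1 ≤ n ∧ ¬ (3 : ℤ) ∣ b ∧ V.valuation (c₁ * M n (u * b) - c₂ * M n b) = 1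

/-- the combination of the distribution (up to the sign `(-1)^N` it is `(E - 1)^N (a M(·) - a² M(a² ·))`,
`E M (b) = M (4 b)`) -/
def comb (a : ℤ) (N : ℕ) (M : ℕ → ℤ → ℂ) (n : ℕ) (b : ℤ) : ℂ :=
  ∑ j ∈ Finset.range (N + 1), ((-1 : ℂ) ^ (N - j) * (N.choose j : ℂ)) *
    ((a : ℂ) * M n (4 ^ (N - j) * b) - (a : ℂ) ^ 2 * M n (4 ^ (N - j) * a ^ 2 * b))

/-- (H5) the combination is integral on all balls and nonzero modulo `V`.

USES STP. PROOF. `M₀ n b = a M n b - a² M n (a² b)`: STP with `u = a²`, `c₁ = -a²`, `c₂ = -a` (`v a = 1` as `3 ∤ a` (Bezout), `c₁ - c₂ = -a (a - 1)`, `3 ∣ a - 1`; `a² ≠ 1` because `a ≠ 1` and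
`a ≠ -1`, `3 ∤ -2`; `3 ∣ a² - 1`). `M_(i+1) n b = M_i n (4 b) - M_i n b`: STP with `u = 4`, `c₁ = c₂ = 1`. All `M_i` are `Dist`, integral off `0`, with a value of valuation `1` on units. For `i ≥ 1` and
`3^n ∣ b`: `M_i n b = 0` (periodicity), so `M_i`, `i ≥ 1`, is integral everywhere. `M_N n b = Σ_i (-1)^(N-i) binom(N, i) M₀ n (4^i b)` (induction, or `add_pow` for the commuting operators `E`, `-1`), so
`comb a N M n b = (-1)^N M_N n b` (`i = N - j`). `Dist` and valuations do not see the sign. -/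
def Sh_H5 : Prop :=
  ∀ (V : ValuationSubring ℂ) (_ : V.valuation 3 < 1) (M : ℕ → ℤ → ℂ) (_ : Dist M)
    (_ : ∀ (n : ℕ) (b : ℤ), ¬ (3 : ℤ) ^ n ∣ b → V.valuation (M n b) ≤ 1)
    (_ : ∃ (n : ℕ) (b : ℤ), 1 ≤ n ∧ ¬ (3 : ℤ) ∣ b ∧ V.valuation (M n b) = 1)
    (a : ℤ) (_ : (3 : ℤ) ∣ a - 1) (_ : a ≠ 1) (N : ℕ) (_ : 1 ≤ N),
    Dist (comb a N M) ∧ (∀ n b, V.valuation (comb a N M n b) ≤ 1) ∧
      ∃ n b, V.valuation (comb a N M n b) = 1

/-- (MD) the distribution attached to an eigenfunction of `U_3`.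

PROOF. `per`: `b/3^n - c/3^n` is an integer. `add`: `(b/3^n + j)/3 = (b + j 3^n)/3^(n+1)`; `a3 ^ (n+1) = a3 a3^n`. -/
def Sh_MD : Prop :=
  ∀ (g : ℚ → ℂ) (a3 c : ℂ) (_ : a3 ≠ 0) (_ : ∀ (r : ℚ) (k : ℤ), g (r + k) = g r)
    (_ : ∀ r : ℚ, ∑ j ∈ Finset.range 3, g ((r + j) / 3) = a3 * g r),
    Dist (fun n b => g (b / 3 ^ n) / (c * a3 ^ n))

/-- (MAX) a subset of a finitely generated group has an element of maximal valuation.

PROOF. The subgroup generated by `S` is a submodule of a finitely generated `ℤ`-module, so finitely generated, and it is generated by a finite subset `S₀` of `S`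
(a finite set of generators, each is a combination of finitely many elements of `S`; add one element of `S` if empty). Integers are in `V`, so every `x ∈ S` has `v x ≤` the maximum of `v` on `S₀`. -/
def Sh_MAX : Prop :=
  ∀ (V : ValuationSubring ℂ) (T : Finset ℂ) (S : Set ℂ)
    (_ : S ⊆ (AddSubgroup.closure (T : Set ℂ) : Set ℂ)) (_ : S.Nonempty),
    ∃ l ∈ S, ∀ x ∈ S, V.valuation x ≤ V.valuation l

/-- (ALB) an algebraic number times a power of `3` is in `V`.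

PROOF. `n l` is integral over `ℤ` for some integer `n ≠ 0` (`IsAlgebraic.exists_integral_multiple` or `exists_integral_multiple`), `V` is integrally closed, so `v(n l) ≤ 1`; `n = 3^k m`, `3 ∤ m`, `v m = 1` (Bezout). -/
def Sh_ALB : Prop :=
  ∀ (V : ValuationSubring ℂ) (_ : V.valuation 3 < 1) (l : ℂ), IsAlgebraic ℚ l →
    ∃ k : ℕ, V.valuation (3 ^ k * l) ≤ 1

/-! ## Symbols -/

/-- (HK) elementary facts on symbols of weight two.

PROOF. `mob 1 k 0 1` is the translation by `k` (it fixes `∞`), `mob (-1) 0 0 1` is `x ↦ -x`. (i) equivariance for `(1 k; 0 1)`, `nu 1 = 1`. (ii) the same for `-r - k`. (iii) `-(h x) = h' (-x)`,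
`h' = (a, -b; -c, d)`, same `d`, `N' ∣ -c`. (iv) `hecke` at `(∞, r)` and at `(∞, -r)`: `-(r + j)/3 = (-r + (3 - j))/3 - 1`, so the sum over `j = 0, 1, 2` of `P ∞ (-(r + j)/3)` is the sum of the `P ∞ ((-r + j)/3)`. -/
def Sh_HK : Prop :=
  ∀ (N' : ℕ) (nu : ℤ → ℂ) (P : OnePoint ℚ → OnePoint ℚ → ℂ) (_ : IsSym N' nu P) (_ : nu 1 = 1)
    (s : ℂ),
    (∀ (r : ℚ) (k : ℤ), P ∞ ((r + k : ℚ) : OnePoint ℚ) = P ∞ (r : OnePoint ℚ)) ∧
    (∀ (r : ℚ) (k : ℤ), sgnPart s P ∞ ((r + k : ℚ) : OnePoint ℚ) =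
      sgnPart s P ∞ (r : OnePoint ℚ)) ∧
    IsSym N' nu (sgnPart s P) ∧
    ∀ a3 : ℂ, nu 3 = 0 → (∀ x y, hecke 3 nu P x y = a3 * P x y) → ∀ r : ℚ,
      ∑ j ∈ Finset.range 3, sgnPart s P ∞ (((r + j) / 3 : ℚ) : OnePoint ℚ) =
        a3 * sgnPart s P ∞ (r : OnePoint ℚ)

/-- (QS) the quantity of `St_HFIN` as a character sum. `sgnPart s (Phi e) ∞ (b/3^n)/(Om lam a3^n)` is the distribution.

USES Sf_F5S, Sf_ALG. PROOF. `m = n + 1`, `W c = Σ_(b < 3^m) ex(-b c/3^m) P b`, `P b = sgnPart s (Phi e) ∞ (b/3^m)` (a function of the class of `b` modulo `3^m`, by `hT`, induction on the integer). For `3 ∤ c` (F5S):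
`Sn c + s Sn (-c) = (2 f/Om) W c` (in the second sum replace `b` by `-b`, sums of periodic functions over the classes modulo `3^m`: e.g. via `ZMod`, or `Finset.sum_nbij`). So with `a = 1 + 6 f`,
`ST c + s ST (-c) = (2 f/Om) (a W (a² c) - a² W c)`. Let `ζ = ex(-(4^N a²)/3^m)`, `ζ^(3^m) = 1`. Substituting `b = 4^(N-j) b'`: `W (a² 4^j) = Σ_b' ζ^b' P(4^(N-j) b')`, and `b = 4^(N-j) a² b'`: `W (4^j) = Σ_b' ζ^b' P(4^(N-j) a² b')` (`4`, `a` are prime to `3`).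
Sum over `j`; `P b = Om lam a3^m mu m b`. -/
def Sh_QS : Prop :=
  ∀ (A B : ℤ) (_ : Case A B) (L : PeriodPair) (Om : ℂ) (_ : IsLat A B L Om) (f : ℕ) (_ : f ≠ 0)
    (e : OO A B → ℂ) (_ : IsEps ((f : OO A B) * star (ppi A B)) e)
    (_ : ∀ (r : ℚ) (k : ℤ), Phi e ∞ ((r + k : ℚ) : OnePoint ℚ) = Phi e ∞ (r : OnePoint ℚ))
    (s : ℤ) (N n : ℕ) (lam a3 : ℂ) (_ : lam ≠ 0) (_ : a3 ≠ 0),
    ∑ j ∈ Finset.range (N + 1), ((-1 : ℂ) ^ (N - j) * (N.choose j : ℂ)) *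
        (ST L Om f e n (4 ^ j) + s * ST L Om f e n (-4 ^ j)) =
      2 * f * lam * a3 ^ (n + 1) * ∑ b ∈ Finset.range (3 ^ (n + 1)),
        ex (-(4 ^ N * (1 + 6 * f) ^ 2) / 3 ^ (n + 1)) ^ b *
          comb (1 + 6 * f) N (fun n b => sgnPart (s : ℂ) (Phi e) ∞
            ((b / 3 ^ n : ℚ) : OnePoint ℚ) / (Om * lam * a3 ^ n)) (n + 1) b

/-! ## Valuations -/

/-- (VAL) elementary valuations.

USES Sf_ALG. PROOF. `O` is integral over `ℤ` and `V` integrally closed, so `v (emb x) ≤ 1`. `ppi * star ppi = 3`: `v 3 < 1`. `v n = 1` for `3 ∤ n`: Bezout. `ppi + star ppi` is `2` or `1`, so `v (emb (star ppi)) = 1` (otherwise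
`v 2 < 1` or `v 1 < 1`), `conj (emb x) = emb (star x)`; `v 3 = v (emb ppi) v (emb (star ppi))`. Roots of unity: `v z ^ r = 1` in a linearly ordered group. Last: `v t ^ 2 = v |D| = 1` (`|D|` is 8 or 11). -/
def Sh_VAL : Prop :=
  ∀ (A B : ℤ) (_ : Case A B) (V : ValuationSubring ℂ) (_ : emb (ppi A B) ∈ V.nonunits),
    V.valuation 3 < 1 ∧ (∀ x : OO A B, V.valuation (emb x) ≤ 1) ∧
    (∀ n : ℤ, V.valuation (n : ℂ) ≤ 1) ∧
    (∀ n : ℤ, ¬ (3 : ℤ) ∣ n → V.valuation (n : ℂ) = 1) ∧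
    V.valuation (emb (ppi A B)) = V.valuation 3 ∧ V.valuation (conj (emb (ppi A B))) = 1 ∧
    (∀ (r : ℕ) (z : ℂ), r ≠ 0 → z ^ r = 1 → V.valuation z = 1) ∧
    ∀ t : ℂ, t ^ 2 = -((absD A B : ℤ) : ℂ) → V.valuation t = 1

/-- the standing hypotheses -/
structure Hyp (A B : ℤ) (L : PeriodPair) (Om : ℂ) (V : ValuationSubring ℂ) (f : ℕ)
    (e : OO A B → ℂ) (r : ℕ) (s : ℤ) : Prop where
  case : Case A B
  cm : IsCM A B L Om
  pv : emb (ppi A B) ∈ V.nonunits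
  f0 : f ≠ 0
  f3 : ¬ 3 ∣ f
  fD : 2 * absD A B ∣ (f : ℤ)
  eps : IsEps ((f : OO A B) * star (ppi A B)) e
  r3 : ¬ 3 ∣ r
  er : ∀ x, e x ≠ 0 → e x ^ r = 1
  s1 : s = 1 ∨ s = -1

/-- (CHI) facts on the character and the eigenvalue.

USES Sf_ALG, Sf_F3, Sh_VAL. PROOF. `nuE e d = chiD d * e d`; `chiD` is periodic modulo `|D|` and multiplicative (cases on the residues modulo 8 resp. 11; use `Int.emod_emod_of_dvd`, `Int.mul_emod`, `decide`),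
`chiD 1 = 1`, values in `{0, 1, -1}`; `e` is periodic modulo `f star ppi`, which divides `3 f`. `r ≠ 0`. `e (ppi) ≠ 0`: `ppi` is coprime to `star ppi` (see VAL) and to `f` (`nm f = f²` is prime to `3 = ppi star ppi`, Bezout for `f` and `3`).
`3` and `hecke`: F3 (`g = f star ppi ≠ 0`). -/
def Sh_CHI : Prop :=
  ∀ (A B : ℤ) (L : PeriodPair) (Om : ℂ) (V : ValuationSubring ℂ) (f : ℕ) (e : OO A B → ℂ) (r : ℕ)
    (s : ℤ) (_ : Hyp A B L Om V f e r s),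
    nuE e 1 = 1 ∧ nuE e 3 = 0 ∧ (∀ d d', nuE e (d * d') = nuE e d * nuE e d') ∧
    (∀ d d', 3 * (absD A B * (f : ℤ) ^ 2) ∣ d - d' → nuE e d = nuE e d') ∧
    (∀ d, V.valuation (nuE e d) ≤ 1) ∧
    V.valuation (e (ppi A B) * conj (emb (ppi A B))) = 1 ∧
    ∀ x y, hecke 3 (nuE e) (Phi e) x y = e (ppi A B) * conj (emb (ppi A B)) * Phi e x y

/-- (FLD) all values are in a number field which is unramified at `V`.

USES St_HP, St_F6, Sa_INT, Sh_VAL, Sf_ALG. PROOF. `H` from HP for `f`, `r`; `K = H` as a subfield of `ℂ`. `H` is finite over `k` and `k` is finite over `ℚ` (INT), so its elements are algebraic. `v x < 1`: `x / emb ppi ∈ V`,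
`v x ≤ v (emb ppi) = v 3`. `e x` is `0` or an `r`-th root of unity. F6 with `g = f star ppi` (not `0`, not a unit by ALG). `emb x ∈ k`. -/
def Sh_FLD : Prop :=
  ∀ (A B : ℤ) (L : PeriodPair) (Om : ℂ) (V : ValuationSubring ℂ) (f : ℕ) (e : OO A B → ℂ) (r : ℕ)
    (s : ℤ) (_ : Hyp A B L Om V f e r s),
    ∃ K : Subfield ℂ, (∀ x ∈ K, IsAlgebraic ℚ x) ∧
      (∀ x ∈ K, V.valuation x < 1 → V.valuation x ≤ V.valuation 3) ∧
      (∀ x y, Phi e x y / Om ∈ K) ∧ (∀ x, e x ∈ K) ∧ ∀ x : OO A B, emb x ∈ K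

/-- (BD) the values have bounded denominators.

USES Sh_FLD, Sh_MAX, Sh_ALB, Sh_VAL, Sf_F7, St_FT. PROOF. `g = f star ppi ≠ 0`, `N' = |D| (3 f)²` (as a natural number): FT gives `IsSym`, F7 gives a finite set `T` with all `Phi e x y` in the subgroup generated by `T`, so all
`Phi e x y/Om` are in the subgroup generated by the `t/Om`. MAX for the set of all `Phi e x y/Om`: one of them, `l`, has maximal valuation; FLD, ALB. -/
def Sh_BD : Prop :=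
  ∀ (A B : ℤ) (L : PeriodPair) (Om : ℂ) (V : ValuationSubring ℂ) (f : ℕ) (e : OO A B → ℂ) (r : ℕ)
    (s : ℤ) (_ : Hyp A B L Om V f e r s),
    ∃ k : ℕ, ∀ x y, V.valuation (3 ^ k * (Phi e x y / Om)) ≤ 1

/-- (H1) both parts of the symbol are not zero modulo `V` on closed cycles.

USES St_GFIN, Sf_F8, Sf_GSS, Sh_VAL, Sf_ALG. PROOF. Suppose the contrary: `sgnPart s (Phi e) ∞ (h ∞)/Om ∈ V.nonunits` for all `h` in `Γ₁(N')`. Let `d = |D|` (8 or 11, prime to 3) and take `h = (α β; γ δ)` from GFIN for `N' d²`. `d ∣ g` in `O`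
(`2 |D| ∣ f`). F8 at `x = ∞`, `y = h ∞`: `tauD sgnPart (-s) (Phi e) ∞ (h ∞) = Σ_a chi(a) sgnPart s (Phi e) (T_a ∞) (T_a h ∞)`, `T_a = mob d a 0 d`, `T_a ∞ = ∞`, and `T_a (h ∞) = h' ∞` with
`h' = T_a h T_a⁻¹ = (α + a γ/d, β + a (δ - α)/d - a² γ/d²; γ, δ - a γ/d)`, integral because `N' d² ∣ γ`, `N' d² ∣ δ - 1` and `N' d² ∣ α - 1` (`α δ = 1 + β γ`), and in `Γ₁(N')`: (on `∞` check `mob` directly: `γ = 0` or not.) So every term divided by `Om` has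
`v < 1`, `v (tauD) = 1` (GSS, VAL), so `v (sgnPart (-s) (Phi e) ∞ (h ∞)/Om) < 1`; also `v (sgnPart s (Phi e) ∞ (h ∞)/Om) < 1`, and the sum is `2 Phi e ∞ (h ∞)/Om`, `v 2 = 1`: against GFIN. -/
def Sh_H1 : Prop :=
  ∀ (A B : ℤ) (L : PeriodPair) (Om : ℂ) (V : ValuationSubring ℂ) (f : ℕ) (e : OO A B → ℂ) (r : ℕ)
    (s : ℤ) (_ : Hyp A B L Om V f e r s) (N' : ℕ) (_ : N' ≠ 0)
    (_ : absD A B * (3 * f) ^ 2 ∣ (N' : ℤ)),
    ∃ a b c d : ℤ, a * d - b * c = 1 ∧ (N' : ℤ) ∣ c ∧ (N' : ℤ) ∣ d - 1 ∧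
      1 ≤ V.valuation (sgnPart (s : ℂ) (Phi e) ∞ (mob a b c d ∞) / Om)

/-- (H2) some value at `b/3^n`, `3 ∤ b`, `n ≥ 1`, is not in the maximal ideal.

USES S_KM2, Sh_H1, Sh_CHI, Sh_HK, Sh_BD, St_FT, Sh_VAL. PROOF. Suppose the contrary. Let `R = V`, `M = ℂ ⧸ m`, `m` = the `V`-submodule of the `x` with `v x < 1`, `Φ x y` = the class of `sgnPart s (Phi e) x y / Om`, `χ d = ⟨nuE e d, _⟩`,
`a = ⟨e ppi conj (emb ppi), _⟩` (a unit), `p = 3`, `N'` of KM2 `= |D| f²` (prime to 3, nonzero), `s` of KM2 `= 1`, `3^2 |D| f² = |D| (3 f)²` = the level `N₁`. Hypotheses of KM2: killed by `3^(k+1)` (BD: `v (3^k value) ≤ 1` for `Phi`, so for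
`sgnPart`, and one more factor `3`); `χ` (CHI); additivity and equivariance: FT for `N₁` and HK (iii) with `mob`; `a •` = HK (iv) (division by `Om`); vanishing: assumption. KM2 gives: `sgnPart s (Phi e) ∞ (h ∞)/Om` has `v < 1` for all `h` in `Γ₁(N₁)`, against H1. -/
def Sh_H2 : Prop :=
  ∀ (A B : ℤ) (L : PeriodPair) (Om : ℂ) (V : ValuationSubring ℂ) (f : ℕ) (e : OO A B → ℂ) (r : ℕ)
    (s : ℤ) (_ : Hyp A B L Om V f e r s),
    ∃ (n : ℕ) (b : ℤ), 1 ≤ n ∧ ¬ (3 : ℤ) ∣ b ∧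
      1 ≤ V.valuation (sgnPart (s : ℂ) (Phi e) ∞ ((b / 3 ^ n : ℚ) : OnePoint ℚ) / Om)

/-- (HF) the final statement of the block.

PROOF. `S` = the set of the `sgnPart s (Phi e) ∞ (b/3^n)/Om`, `n ≥ 1`, `3 ∤ b`. It is in a finitely generated group (F7 as in BD; `sgnPart s = Phi + s Phi(-, -)`), so (MAX) there is `lam ∈ S` with maximal valuation, and `v lam ≥ 1` by H2. `a3 = e ppi conj (emb ppi)`, `v a3 = 1`.
`M n b = sgnPart s (Phi e) ∞ (b/3^n)/(Om lam a3^n)`: `Dist` (HK, MD with `g r = sgnPart s (Phi e) ∞ r`, `c = Om lam`), values in `K` (FLD; `conj (emb ppi) = emb (star ppi)`); `v (M n b) ≤ 1` if `¬ 3^n ∣ b` (`b = 3^k b'`, `3 ∤ b'`, `k < n`, `b/3^n = b'/3^(n-k)`), and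
`v (M n₁ b₁) = 1` for the pair `(n₁, b₁)` of `lam`. H5 with `a = 1 + 6 f`: `comb` is `Dist`, in `K`, integral, with a value of valuation 1. HZ for `K` and `comb`: `n₀`. For `n ≥ n₀`: QS; `ζ = ex(-(4^N a²)/3^(n+1))` is a primitive root of order `3^(n+1)` (`4^N a²` is prime to 3), so
`v 3 < v(Z)²`, and the quantity is `2 f lam a3^(n+1) Z` with `v (2 f) = 1`, `v lam ≥ 1`, `v a3 = 1`: `v 3 < v(quantity)²`, i.e. not `quantity² / 3 ∈ V`. -/
def Mh_HF : Prop :=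
  Sf_ALG → Sh_VAL → Sh_HZ → Sh_H5 → Sh_MD → Sh_MAX → Sh_HK → Sh_QS → Sh_CHI → Sh_FLD → Sh_H2 →
    Sf_F7 → St_FT → St_HFIN

end

end Pool.Agent.MU3H
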