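import Pool.Agent.MU3.KDefs
import Pool.Agent.MU3.StD
import Pool.Agent.RID.Defs

/-!
# MU3, section 3: from one non-cube to the action on the class group modulo cubes

`k ⊆ L`, `G = Gal(L / k)` abelian, generated by a subgroup `D` of order prime to `3` and an element
`γ` of order `3 ^ n`. `F` is an algebraically closed field of characteristic `3`, `χ : D → Fˣ`.
The result is `S_NIL`. See `Pool/Agent/MU3/PAPER_K.md`, section 3 (here only `γ ^ (3 ^ m) - 1`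
instead of `T ^ (3 ^ m)` is used).

Every `def S_X : Prop` is the statement of a module, which proves `theorem t_X : S_X` (from other
statements as hypotheses). The doc-string contains the proof.
-/

open NumberField IsDedekindDomain Finset
open scoped nonZeroDivisors Pointwise

namespace Pool.Agent.MU3

open Pool.Agent.RI Pool.Agent.RID

/-- The automorphisms of `L / k` act on the units of the ring of integers of `L`. -/
noncomputable instance actU {k L : Type} [Field k] [Field L] [NumberField L] [Algebra k L] :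
    MulDistribMulAction (L ≃ₐ[k] L) (𝓞 L)ˣ where
  smul σ u := Units.map ((RingOfIntegers.mapRingEquiv (σ : L ≃+* L) : 𝓞 L ≃+* 𝓞 L) :
    𝓞 L →* 𝓞 L) u
  one_smul u := by apply Units.ext; apply RingOfIntegers.ext; rfl
  mul_smul σ τ u := by apply Units.ext; apply RingOfIntegers.ext; rfl
  smul_mul σ u v := map_mul _ _ _
  smul_one σ := map_one _

lemma coe_smul {k L : Type} [Field k] [Field L] [NumberField L] [Algebra k L]
    (σ : L ≃ₐ[k] L) (u : (𝓞 L)ˣ) : (((σ • u : (𝓞 L)ˣ) : 𝓞 L) : L) = σ ((u : 𝓞 L) : L) := rfl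

/-- `G = Gal(L / k)` is abelian, generated by `D`, of order prime to `3`, and `γ`, of order
`3 ^ n`. -/
structure Tw (k L : Type) [Field k] [Field L] [Algebra k L] (n : ℕ) (γ : L ≃ₐ[k] L)
    (D : Subgroup (L ≃ₐ[k] L)) : Prop where
  comm : ∀ σ τ : L ≃ₐ[k] L, σ * τ = τ * σ
  ord : orderOf γ = 3 ^ n
  cop : (Nat.card D).Coprime 3
  gen : ∀ h : L ≃ₐ[k] L, ∃ δ ∈ D, ∃ i : ℕ, h = δ * γ ^ i

/-! ### Algebra -/

/-- ALGS: cyclic relations in characteristic `3`.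
Proof. `N = 3 ^ n`. `V = ZMod N → F` is a module over `F[X]`, `X` acting by the shift
`(X x)_j = x_(j+1)`, and `(X - 1) ^ N = X ^ N - 1` acts as `0`. Let `P = ∑_i β_i X ^ i` (`0 ≤ i < N`). The
hypothesis is `P x = 0`. Write `P = (X - 1) ^ v Q`, `Q(1) ≠ 0`, or `(X - 1) ^ N ∣ P`. Claim `v < 3 ^ m`:
otherwise `(X - 1) ^ N` divides `P (X - 1) ^ (N - 3 ^ m)`; and `(X - 1) ^ (N - 3 ^ m) =
∑_{i < 3 ^ (n - m)} X ^ (3 ^ m i)` because `(X - 1) ^ (3 ^ m) = X ^ (3 ^ m) - 1 =: Y - 1` and `(Y - 1) ^ (3 ^ (n-m) - 1) =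
(Y ^ (3 ^ (n-m)) - 1) / (Y - 1)`. So `P · ∑_i X ^ (3 ^ m i)` acts as `0` on `V`; its action on the function
`e` with `e_0 = 1`, `e_j = 0` else, at the index `0` is `∑_i β_(-3^m i) ≠ 0`: a contradiction. `Q` is prime to `X - 1`, so
`a Q + b (X - 1) ^ N = 1`, and `(X - 1) ^ v x = a Q (X - 1) ^ v x = a P x = 0`, so `(X ^ (3 ^ m) - 1) x = (X - 1) ^ (3 ^ m) x = 0`. -/
def S_ALGS : Prop := ∀ (F : Type) [Field F] [CharP F 3] (m n : ℕ), m ≤ n →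
    ∀ β x : ZMod (3 ^ n) → F, (∀ j, ∑ i, β i * x (i + j) = 0) →
    (∑ i ∈ range (3 ^ (n - m)), β (-((3 ^ m * i : ℕ) : ZMod (3 ^ n))) ≠ 0) →
    ∀ j, x (j + ((3 ^ m : ℕ) : ZMod (3 ^ n))) = x j

/-- EIG: enough eigenfunctionals.
Proof. `I / P` is a vector space over `ZMod 3`, so there is `g : I → ZMod 3`, `g(xy) = g x + g y`, `g = 0` on `P`,
`g v ≠ 0`; regard it with values in `F`. For `χ : D →* Fˣ` let `f_χ(x) = ∑_δ χ(δ)⁻¹ g(δ x)` (`P` is stable).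
`f_χ(δ x) = χ(δ) f_χ(x)` (`D` abelian), and `∑_χ f_χ(v) = |D| g(v) ≠ 0` by the orthogonality relations
(`∑_χ χ(δ)⁻¹ = 0` for `δ ≠ 1`: there are enough characters as `F` is algebraically closed of
characteristic prime to `|D|`: `CommGroup.exists_apply_ne_one_of_hasEnoughRootsOfUnity`). -/
def S_EIG : Prop := ∀ (F : Type) [Field F] [CharP F 3] [IsAlgClosed F] (G I : Type) [Group G]
    [CommGroup I] [MulDistribMulAction G I] (D : Subgroup G) [Finite D],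
    (∀ a ∈ D, ∀ b ∈ D, a * b = b * a) → (Nat.card D).Coprime 3 → ∀ (P : Subgroup I),
    (∀ g : G, ∀ x ∈ P, g • x ∈ P) → (∀ x : I, x ^ 3 ∈ P) → ∀ v ∉ P,
    ∃ (χ : D →* Fˣ) (f : I → F), (∀ x y, f (x * y) = f x + f y) ∧ (∀ x ∈ P, f x = 0) ∧
      (∀ (δ : D) (x : I), f ((δ : G) • x) = (χ δ : F) * f x) ∧ f v ≠ 0

/-! ### Primes of degree one -/

/-- LG: the cubic residue symbol.
Proof. `κ = 𝓞 L ⧸ lam` is a field with `q` elements, `κˣ` is cyclic of order `q - 1`. There is an integer `a` of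
order `3` modulo `q` (`ℤ / q ≅ κ`). For a unit `u`, `ū ^ ((q-1)/3)` is a cube root of unity in `κ`, so it is
`ā ^ i` for a unique `i : ZMod 3`; `lg u = i`. If `lg u = 0` then `ū ^ ((q-1)/3) = 1`, so `ū` is a cube in the
cyclic group. -/
def S_LG : Prop := ∀ (L : Type) [Field L] [NumberField L] (lam : HeightOneSpectrum (𝓞 L)) (q : ℕ),
    q.Prime → 3 ∣ q - 1 → Nat.card (𝓞 L ⧸ lam.asIdeal) = q →
    ∃ (a : ℤ) (lg : (𝓞 L)ˣ →* Multiplicative (ZMod 3)), (q : ℤ) ∣ a ^ 3 - 1 ∧ ¬ (q : ℤ) ∣ a - 1 ∧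
      (∀ u : (𝓞 L)ˣ, (u : 𝓞 L) ^ ((q - 1) / 3) - (a : 𝓞 L) ^ (Multiplicative.toAdd (lg u)).val ∈
        lam.asIdeal) ∧
      ∀ u : (𝓞 L)ˣ, lg u = 1 → ∃ v : 𝓞 L, (u : 𝓞 L) - v ^ 3 ∈ lam.asIdeal

/-- STAB: primes of degree one outside `S` are good.
Proof. `#(𝓞 L ⧸ lam) = q` is the `f`-th power of the cardinality of the residue field of `lam ∩ k`,
so the inertia degree over `k` is `1`, the ramification index is `1` by hypothesis, and the order of the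
stabilizer of `lam` in `Gal(L / k)` is `e f = 1` (`Ideal.card_stabilizer_eq` or
`Ideal.ncard_primesOver_mul_ramificationIdxIn_mul_inertiaDegIn` and transitivity). `q ≠ 3`, and the image of `ζ` in the
residue field (`q` elements) has order `3` (if `ζ ≡ 1` then `3 = (1 - ζ)(1 - ζ²) ∈ lam`, `q = 3`), so `3 ∣ q - 1`. -/
def S_STAB : Prop := ∀ (k L : Type) [Field k] [NumberField k] [Field L] [NumberField L]
    [Algebra k L] [IsGalois k L] (S : Finset ℕ) (ζ : 𝓞 L), IsPrimitiveRoot ζ 3 → 3 ∈ S →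
    (∀ v : HeightOneSpectrum (𝓞 L), ¬ Above S v → v.asIdeal.ramificationIdx (𝓞 k) = 1) →
    (∀ p ∈ S, p.Prime) →
    ∀ (lam : HeightOneSpectrum (𝓞 L)) (q : ℕ), q.Prime → q ∉ S →
      Nat.card (𝓞 L ⧸ lam.asIdeal) = q → GoodPr k L S lam q

/-- THDJ: helper51's theorem in terms of fractional ideals.
Proof (from `Stmt_THD`). `H` = the image of `U` under `J L → ClassGroup (𝓞 L)`; `U` contains the kernel
`prin.range`, so `x ∈ U` iff its class is in `H` (`ClassGroup.mk`, `ClassGroup.mk_eq_one_iff` or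
`ClassGroup.equiv`). The class of `vJ v` is `cl L v`. The exceptional set: the primes above `S` (finitely many as
`0 ∉ S`). `t` is a unit, `#(𝓞 L ⧸ v) = absNorm`, prime to `S` because the residue characteristic of `v`
is not in `S`. -/
def S_THDJ : Prop := ∀ (L : Type) [Field L] [NumberField L] (ζ : 𝓞 L) (t : (𝓞 L)ˣ),
    IsPrimitiveRoot ζ 3 → (∀ y : L, y ^ 3 ≠ ((t : 𝓞 L) : L)) → ∀ S : Finset ℕ,
    (∀ p ∈ S, p.Prime) → ∀ U : Subgroup (J L), (prin : Lˣ →* J L).range ≤ U →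
    (∀ (v : HeightOneSpectrum (𝓞 L)) (q : ℕ), q.Prime → q ∉ S →
      Nat.card (𝓞 L ⧸ v.asIdeal) = q → (∀ a : 𝓞 L, (t : 𝓞 L) - a ^ 3 ∉ v.asIdeal) → vJ v ∈ U) →
    U = ⊤

/-! ### The main step -/

/-- The unit `∏_δ (δ N c) ^ θ(χ(δ)⁻¹)`, `N` the norm for `γ ^ (3 ^ m)`. -/
noncomputable def sUnit {k L F : Type} [Field k] [Field L] [NumberField L] [Algebra k L]
    [Field F] (D : Subgroup (L ≃ₐ[k] L)) [Fintype D] (γ : L ≃ₐ[k] L) (m n : ℕ) (χ : D →* Fˣ)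
    (θ : F →+ ZMod 3) (c : (𝓞 L)ˣ) : (𝓞 L)ˣ :=
  ∏ δ : D, ((δ : L ≃ₐ[k] L) • ng (γ ^ (3 ^ m)) (3 ^ (n - m)) c) ^ (θ ((χ δ)⁻¹ : Fˣ)).val

/-- NILX: the relation for one prime and one eigenfunctional.
Proof (from ALGS, LG). `g₀ = γ ^ (3 ^ m₀)`, `f'(x) = f(g₀ x) - f(x)`: additive, zero on principal ideals (stable), on cubes
(characteristic `3`) and on `SJ S L` (`g₀` fixes the primes above `S`), `f'(δ x) = χ(δ) f'(x)`. `a`, `lg` from LG. For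
`h : L ≃ₐ[k] L` let `b h = (lg (h⁻¹ • c)).val`: applying `h` to the congruence for `h⁻¹ • c` gives the hypothesis of `KRel`, so
`∏ (h • vJ lam) ^ (b h) = prin κ * I ^ 3 * s` and `∑_h b_h f'(γ ^ j h lam) = 0` for all `j` (apply `f' ∘ γ ^ j`; it is `0` on `prin κ`, `I ^ 3`,
`s`, as `SJ S L` is stable). Every `h` is `δ γ ^ i`, unique `δ ∈ D`, `i : ZMod (3 ^ n)` (orders
prime to each other). `x_i = f'(γ ^ i lam)`, `β_i = ∑_δ χ(δ) b_(δ γ^i)`: `∑_i β_i x_(i+j) = 0`. The unit `t = sUnit ..` has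
`lg t = ∑_δ θ(χ(δ)⁻¹) lg(δ N c) = θ(∑_δ χ(δ)⁻¹ lg(δ N c))` (`θ` is additive, `lg` in `ZMod 3`), and `lg t ≠ 0` because `t` is not a
cube modulo `lam`; so `0 ≠ ∑_δ χ(δ)⁻¹ ∑_{i < 3^(n-m)} lg(δ γ^(3^m i) c) = ∑_i β_(-3^m i)` (replace `δ` by `δ⁻¹`). ALGS:
`x_(3^m) = x_0`, that is `f'(γ ^ (3 ^ m) lam) = f'(lam)`. -/
def S_NILX : Prop := ∀ (F : Type) [Field F] [CharP F 3] (k L : Type) [Field k] [NumberField k]
    [Field L] [NumberField L] [Algebra k L] [IsGalois k L] (n m m₀ : ℕ) (γ : L ≃ₐ[k] L)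
    (D : Subgroup (L ≃ₐ[k] L)) [Fintype D], Tw k L n γ D → m ≤ n → ∀ S : Finset ℕ,
    (∀ v : HeightOneSpectrum (𝓞 L), Above S v → γ ^ (3 ^ m₀) • v.asIdeal = v.asIdeal) →
    ∀ c : (𝓞 L)ˣ, KRel k L S c → ∀ (χ : D →* Fˣ) (θ : F →+ ZMod 3) (f : J L → F),
    (∀ x y, f (x * y) = f x + f y) → (∀ x ∈ (prin : Lˣ →* J L).range, f x = 0) →
    (∀ (δ : D) (x : J L), f ((δ : L ≃ₐ[k] L) • x) = (χ δ : F) * f x) →
    ∀ (lam : HeightOneSpectrum (𝓞 L)) (q : ℕ), GoodPr k L S lam q →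
    (∀ a : 𝓞 L, (sUnit D γ m n χ θ c : 𝓞 L) - a ^ 3 ∉ lam.asIdeal) →
    f (γ ^ (3 ^ m₀) • γ ^ (3 ^ m) • vJ lam) - f (γ ^ (3 ^ m) • vJ lam) -
      f (γ ^ (3 ^ m₀) • vJ lam) + f (vJ lam) = 0

/-- NIL: the result of section 3.
Proof (from EIG, STAB, THDJ, NILX). `P = prin.range ⊔ cubes` (stable). Claim: for all `x`,
`y = (γ^(3^m₀ + 3^m) x) (γ^(3^m) x)⁻¹ (γ^(3^m₀) x)⁻¹ x` is in `P`. Otherwise EIG gives `χ`, `f` with `f y ≠ 0`; take `θ` for `χ`,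
`t = sUnit ..`. The set `U` of the `x` with `f(γ^(3^m₀) γ^(3^m) x) - f(γ^(3^m) x) - f(γ^(3^m₀) x) + f x = 0` is a subgroup that
contains the principal ideals and, by STAB and NILX, all `vJ v` as in THDJ, so `U = ⊤`, a contradiction. Let
`A = γ ^ (3 ^ m) - 1`, `B = γ ^ (3 ^ m₀) - 1` on the `ZMod 3`-vector space `V = J L / P`: `A B = 0`. `M = max m m₀`: `γ ^ (3 ^ M) - 1` is a
power of `A` (`= A ^ (3 ^ (M - m))`) and of `B`, so it has square `0`, so `(γ - 1) ^ (3 ^ (M + 1)) = γ ^ (3 ^ (M+1)) - 1 =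
(γ ^ (3 ^ M) - 1) ^ 3 = 0` on `V`. And `(dg γ)^[l] b` has class `(1 - γ) ^ l b`. -/
def S_NIL : Prop := ∀ (F : Type) [Field F] [CharP F 3] [IsAlgClosed F] (k L : Type) [Field k]
    [NumberField k] [Field L] [NumberField L] [Algebra k L] [IsGalois k L] (n m m₀ : ℕ)
    (γ : L ≃ₐ[k] L) (D : Subgroup (L ≃ₐ[k] L)) [Fintype D], Tw k L n γ D → m ≤ n →
    ∀ (S : Finset ℕ) (ζ : 𝓞 L), IsPrimitiveRoot ζ 3 → 3 ∈ S → (∀ p ∈ S, p.Prime) →
    (∀ v : HeightOneSpectrum (𝓞 L), ¬ Above S v → v.asIdeal.ramificationIdx (𝓞 k) = 1) →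
    (∀ v : HeightOneSpectrum (𝓞 L), Above S v → γ ^ (3 ^ m₀) • v.asIdeal = v.asIdeal) →
    ∀ c : (𝓞 L)ˣ, KRel k L S c →
    (∀ χ : D →* Fˣ, ∃ θ : F →+ ZMod 3, ∀ y : L, y ^ 3 ≠ ((sUnit D γ m n χ θ c : 𝓞 L) : L)) →
    ∀ b : J L, ∃ (y : J L) (x : Lˣ), (dg γ)^[3 ^ (max m m₀ + 1)] b = y ^ 3 * prin x

end Pool.Agent.MU3
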