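import Pool.Agent.MU3.ZDefs
import Pool.Agent.MU3.StI2
import Pool.Agent.MU3.StP

/-!
# MU3, final assembly (helper36)

`TorC A B` is the field generated over `ℚ` by `w` and all torsion coordinates of the curve `EE A B` over `ℂ`.
-/

set_option autoImplicit false

namespace Pool.Agent.MU3Z

open _root_.MU3 Pool.Agent.MU3 Pool.Agent.MU3A Pool.Agent.MU3B Pool.Agent.MU3C Pool.Agent.RI
  Pool.Agent.RID Pool.Agent.MU3I

noncomputable section

/-- `k(E_tors)` for the curve of the case `(A, B)` -/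
def TorC (A B : ℤ) : IntermediateField ℚ ℂ :=
  torsionField (wC A B) (emb (a2 A B)) (emb (a4 A B)) (emb (a6 A B) / 4)

/-- (ZTOR) `TorC A B` is the union of the fields `TF L m`.

Uses Sa_XI, Sa_EQN (`StA.lean`), TorA. PROOF. `curve (emb a2) (emb a4) (emb a6/4)` is the base change of `EE A B` to `ℂ` (equality of
structures, `WeierstrassCurve.ext`). Let `P = some x y h` be of finite order, `n • P = 0`, `n ≥ 1`. By XI `P = ξ z` for some `z`, `z ∉ L` (otherwise `ξ z = 0`),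
so `x = xx z`, `y = yy z`, and `ξ (n z) = 0`, `n z ∈ L`: `x, y ∈ TF L n` (`emb (n : O) = n`). `w ∈ kk A B ≤ TF L m` for every `m`. The set
`{x | ∃ m ≠ 0, x ∈ TF L m}` is a subfield containing `ℚ` (directed: `TF L m, TF L m' ≤ TF L (m m')` by `tower`, `O` is a domain (G0)), so it contains the field
generated by these elements (`IntermediateField.adjoin_induction` or `adjoin_le_iff`). -/
def St_ZTOR : Prop :=
  ∀ (A B : ℤ) (_ : Case A B) (L : PeriodPair) (Om : ℂ) (_ : IsCM A B L Om) (_ : TorA A B L Om),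
    ∀ x ∈ TorC A B, ∃ m : OO A B, m ≠ 0 ∧ x ∈ TF L m

/-- (ZGAL) finite subfields of `TorC` containing `k` are abelian over `k`.

Uses ZTOR, TorA. PROOF. `K/ℚ` is generated by finitely many elements, each in some `TF L m`; `K ⊆ TF L m₀` for the product `m₀` of the `m`
(`tower`). `Gal(TF L m₀/k)` is commutative (`act`, `mul`, `per`, `inj`, `O` commutative), so every intermediate field is Galois over `k` with a
commutative group (restriction is onto). Translate from intermediate fields of `TF L m₀ / kk` to `extendScalars hk` (the same elements). -/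
def St_ZGAL : Prop :=
  ∀ (A B : ℤ) (_ : Case A B) (L : PeriodPair) (Om : ℂ) (_ : IsCM A B L Om) (_ : TorA A B L Om)
    (K : IntermediateField ℚ ℂ) [FiniteDimensional ℚ K] (hk : kk A B ≤ K)
    (_ : ∀ x ∈ K, ∃ m : OO A B, m ≠ 0 ∧ x ∈ TF L m),
    IsGalois (kk A B) (IntermediateField.extendScalars hk) ∧
    ∀ σ τ : (IntermediateField.extendScalars hk) ≃ₐ[kk A B] (IntermediateField.extendScalars hk),
      σ * τ = τ * σ

/-- (ZLAY) the layers exist and form a tower.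

Uses ILAY (`StI2.lean`). PROOF. `B n = ℚ(ζ + ζ⁻¹)`, `ζ = zt (3^(n+1))`: `IsLayer 3 n (B n)` (degree `3^n`: see the proof of ILAY; real; contained in
`ℚ(μ_(3^(n+1)))`). Monotone: `ζ' = zt (3^(n+2))`, `ζ'^3 = ζ`, `ζ + ζ⁻¹ = (ζ' + ζ'⁻¹)³ - 3 (ζ' + ζ'⁻¹)`. Uniqueness: ILAY. -/
def St_ZLAY : Prop :=
  ∃ B : ℕ → IntermediateField ℚ ℂ, (∀ n, IsLayer 3 n (B n)) ∧ Monotone B ∧
    ∀ (n : ℕ) (Q : IntermediateField ℚ ℂ), IsLayer 3 n Q → Q = B n

/-- (ZINP) the inputs `Inp` of the glue of block K, from the curve.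

Uses helper59's MEMC, SUC, I1, I2 (`StV2.lean` etc.), helper6's passage from one `γ` to all `γ` in (I3), I3F. PROOF. `F` = residue
field of `V`, `c n = cc L Om (lev A B f n) Hs (hk n) 1`, `S` = 2, 3, the primes dividing `f` and `1 + 6 f`, ...; `n₁ = 1`. -/
def St_ZINP : Prop :=
  ∀ (A B : ℤ) (_ : Case A B) (L : PeriodPair) (Om : ℂ) (_ : IsCM A B L Om) (_ : TorA A B L Om)
    (V : ValuationSubring ℂ) (_ : emb (ppi A B) ∈ V.nonunits)
    (f : ℕ) (_ : f ≠ 0) (_ : ¬ 3 ∣ f) (_ : 2 * absD A B ∣ (f : ℤ)) (_ : mz A B ∣ (f : OO A B))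
    (K : IntermediateField ℚ ℂ) [FiniteDimensional ℚ (kk A B)] [FiniteDimensional ℚ K]
    (_ : ∀ x ∈ K, x ∈ TF L (lev A B f 0)) (Bn : ℕ → IntermediateField ℚ ℂ)
    [∀ n, FiniteDimensional ℚ ↥(K ⊔ Bn n)] (_ : Bas (kk A B) K Bn)
    (hk : ∀ n, kk A B ≤ K ⊔ Bn n), ∃ (S : Finset ℕ) (c : ℕ → ℂ) (n₁ : ℕ),
    Inp (IsLocalRing.ResidueField V) (kk A B) K Bn hk S c n₁

/-- (ZM) the main theorem for the field `K` of degree prime to 3 over `ℚ` with a cube root of unity.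

Uses ZINP, `S_MAINK` (`StGl.lean`), IRES, IVEX, Sa_EX, ITOR, IK3F (`d = 88`), ZGAL, ZTOR, Sa_NEG (`Cpl`). PROOF. `L`, `Om` from EX, `V` from IVEX, `f` from IK3F (with
`mz A B ∣ 88`), `Bas` from ZGAL (in the form `IsGalois k (extendScalars hk)`), `S_MAINK` with `F` the residue field. -/
def St_ZM : Prop :=
  ∀ (A B : ℤ) (_ : Case A B) (K : IntermediateField ℚ ℂ) [FiniteDimensional ℚ K]
    (_ : kk A B ≤ K) (_ : K ≤ TorC A B) (_ : ¬ 3 ∣ Module.finrank ℚ K)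
    (_ : ∃ ω ∈ K, ω ^ 2 + ω + 1 = 0) (Bn : ℕ → IntermediateField ℚ ℂ)
    (_ : ∀ n, IsLayer 3 n (Bn n)) (_ : Monotone Bn),
    ∃ C : ℕ, ∀ n, padicValNat 3 (classNo (K ⊔ Bn n)) ≤ C * (n + 1) ^ 2

/-- (ZFIN) the main theorem.

Uses ZM, `S_UP` (`StGl.lean`), `P_SYL`, `P_PEX` (`StP.lean`), ZTOR, ZGAL, ZLAY, EX, ITOR. PROOF. Let `K` be given. (1) SYL for `k = kk A B ≤ K` (Galois, abelian: ZTOR, ZGAL): `F₀` with
`k ≤ F₀ ≤ K`, `[F₀ : k]` prime to 3, `K/F₀` Galois of degree `3^a`. `[F₀ : ℚ] = 2 [F₀ : k]` is prime to 3. (2) `F₁ = F₀(ω)`, `ω` a primitive cube root of unity: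
`[F₁ : F₀] ≤ 2`, so `[F₁ : ℚ]` is prime to 3, `F₁/F₀` is Galois; `ω ∈ TF L 3 ⊆ TorC` (`TorA.zeta`; `TF L m ≤ TorC`: the generators of `TF L m` are torsion coordinates, by
XI; or choose `ω = (-1 + √-3)/2` explicitly from a 3-torsion point). ZM for `F₁` and `S_UP` give the bound `C (n+1)^2` for `F₀`. (3) `F₀` is totally complex: it contains `k`; an embedding
of `kk A B` maps `w` to a root of `X² - B X - A`, not real. `P_PEX` gives `C`, `k'` for `K`; take `C' = C + k'`: `C (n+1)^k' ≤ C' (n+1)^C'`. (4) every layer `Q` is `B n`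
(ZLAY). -/
def St_ZFIN : Prop :=
  ∀ (A B : ℤ) (_ : Case A B) (K : IntermediateField ℚ ℂ) [FiniteDimensional ℚ K]
    (_ : kk A B ≤ K) (_ : K ≤ TorC A B),
    ∃ C : ℕ, ∀ (n : ℕ) (Q : IntermediateField ℚ ℂ), IsLayer 3 n Q →
      padicValNat 3 (classNo (K ⊔ Q)) ≤ C * (n + 1) ^ C

/-- The statement of the hand-in. -/
def St_RES : Prop :=
  (∀ (K : IntermediateField ℚ ℂ) [FiniteDimensional ℚ K], rt 2 ∈ K →
    K ≤ torsionField (rt 2) 4 2 0 → ∃ C : ℕ, ∀ (n : ℕ) (Q : IntermediateField ℚ ℂ),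
      IsLayer 3 n Q → padicValNat 3 (classNo (K ⊔ Q)) ≤ C * (n + 1) ^ C) ∧
  (∀ (K : IntermediateField ℚ ℂ) [FiniteDimensional ℚ K], rt 11 ∈ K →
    K ≤ torsionField (rt 11) (rt 11) (-3) (-(rt 11) / 4) →
    ∃ C : ℕ, ∀ (n : ℕ) (Q : IntermediateField ℚ ℂ),
      IsLayer 3 n Q → padicValNat 3 (classNo (K ⊔ Q)) ≤ C * (n + 1) ^ C)

/-- (ZRES) translation to explicit equations.

Uses ZFIN. PROOF. `(A, B) = (-2, 0)`: `wC (-2) 0 = I √8/2 = I √2 = rt 2`, `emb a2 = 4`, `emb a4 = 2`, `emb a6/4 = 0`. `kk = ℚ(rt 2) ≤ K`. `(A, B) = (-3, 1)`: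
`wC = (1 + rt 11)/2`, `emb a2 = -1 + 2 wC = rt 11`, `emb a4 = -3`, `emb a6/4 = (1 - 2 wC)/4 = -(rt 11)/4`; the fields generated by `wC` and by `rt 11` together with a set are
equal. -/
def St_ZRES : Prop := St_ZFIN → St_RES

end

end Pool.Agent.MU3Z
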