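import Pool.Agent.MU3.StFT
import Pool.Agent.MU3.F_ALG
import Pool.Agent.MU3.F_BDD
import Pool.Agent.MU3.F_PRD

/-!
# MU3, block FT, module EXP (helper90): expansion of theta at all cusps
-/

set_option autoImplicit false

namespace Pool.Agent.MU3T

open MU3 Pool.Agent.MU3F Pool.Agent.MuSym OnePoint Filter Topology
open scoped ComplexConjugate

noncomputable section

namespace ExpT

variable {A B : ℤ}

theorem absD_pos (h : Case A B) : 0 < absD A B := by
  rcases h with ⟨rfl, rfl⟩ | ⟨rfl, rfl⟩ <;> norm_num [absD]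

theorem theta_add_nat (h : Case A B) (e : OO A B → ℂ) (n : ℕ) (z : ℂ) :
    theta e (z + n) = theta e z := by
  induction n with
  | zero => simp
  | succ n ih =>
    rw [Nat.cast_succ, ← add_assoc, tf_PRD A B h e, ih]

theorem theta_add_int (h : Case A B) (e : OO A B → ℂ) (n : ℤ) (z : ℂ) :
    theta e (z + n) = theta e z := by
  obtain ⟨m, rfl | rfl⟩ := n.eq_nat_or_neg
  · simpa using theta_add_nat h e m z
  · have := theta_add_nat h e m (z + ((-(m : ℤ) : ℤ) : ℂ))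
    rw [← this]
    congr 1
    push_cast
    ring

/-- the case `c = 0` -/
theorem exp_zero (h : Case A B) (g : OO A B) (e : OO A B → ℂ) (hg : g ≠ 0) (he : IsEps g e)
    (G : ℕ) (a b d : ℤ) (had : a * d = 1) :
    ∃ (M : ℕ) (W : OO A B → ℂ), 0 < M ∧ (M : ℤ) ∣ absD A B * G ^ 2 ∧ Bd W ∧ ∀ z : ℂ, 0 < z.im →
      theta e (((a : ℂ) * z + b) / (((0 : ℤ) : ℂ) * z + d)) =
        (((0 : ℤ) : ℂ) * z + d) ^ 2 * ∑' y, tm W (z / M) y := by
  obtain ⟨C, hC0, hC⟩ := (tf_BDD tf_ALG A B h g e hg he).2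
  have hmain : ∀ z : ℂ, ∑' y, tm (fun x => 1 / 2 * e x) (z / ((1 : ℕ) : ℂ)) y = theta e z := by
    intro z
    unfold theta tm
    rw [← tsum_mul_left]
    refine tsum_congr fun y => ?_
    rw [Nat.cast_one, div_one]
    ring
  refine ⟨1, fun x => 1 / 2 * e x, one_pos, by simp, ⟨1 / 2 * C, fun x => ?_⟩, fun z hz => ?_⟩
  · rw [norm_mul]
    have h1 : ‖(1 / 2 : ℂ)‖ = 1 / 2 := by norm_num
    rw [h1]
    have := hC x
    linarith
  · rw [hmain]
    rcases Int.eq_one_or_neg_one_of_mul_eq_one' had with ⟨rfl, rfl⟩ | ⟨rfl, rfl⟩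
    · have h1 : (((1 : ℤ) : ℂ) * z + b) / (((0 : ℤ) : ℂ) * z + ((1 : ℤ) : ℂ)) = z + b := by
        push_cast
        ring
      rw [h1, theta_add_int h]
      push_cast
      ring
    · have h1 : (((-1 : ℤ) : ℂ) * z + b) / (((0 : ℤ) : ℂ) * z + ((-1 : ℤ) : ℂ)) =
          z + ((-b : ℤ) : ℂ) := by
        push_cast
        ring
      rw [h1, theta_add_int h]
      push_cast
      ring

/-- the case `c > 0` -/
theorem exp_pos (hRED : Su_RED) (hWBD : Su_WBD) (hMBF : Su_MBF) (h : Case A B) (g : OO A B)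
    (e : OO A B → ℂ) (hg : g ≠ 0) (he : IsEps g e) (G : ℕ) (hG : 0 < G) (hgG : g ∣ (G : OO A B))
    (a b d : ℤ) (q : ℕ) (hq : 0 < q) (hdet : a * d - b * q = 1) :
    ∃ (M : ℕ) (W : OO A B → ℂ), 0 < M ∧ (M : ℤ) ∣ absD A B * G ^ 2 ∧ Bd W ∧ ∀ z : ℂ, 0 < z.im →
      theta e (((a : ℂ) * z + b) / (((q : ℤ) : ℂ) * z + d)) =
        (((q : ℤ) : ℂ) * z + d) ^ 2 * ∑' y, tm W (z / M) y := by
  have hD := absD_pos h
  set Dn : ℕ := (absD A B).toNat with hDn
  have hDn1 : (Dn : ℤ) = absD A B := Int.toNat_of_nonneg hD.le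
  have hDn0 : 0 < Dn := by
    have : (0 : ℤ) < (Dn : ℤ) := by rw [hDn1]; exact hD
    exact_mod_cast this
  have hDc : ((absD A B : ℤ) : ℂ) = (Dn : ℂ) := by rw [← hDn1]; push_cast; rfl
  obtain ⟨C, hC⟩ := hWBD A B h g e hg he G q hG hq a
  have hC0 : 0 ≤ C := (norm_nonneg _).trans (hC 0)
  have hqC : (q : ℂ) ≠ 0 := by exact_mod_cast hq.ne'
  have hGC : (G : ℂ) ≠ 0 := by exact_mod_cast hG.ne'
  have hDC : (Dn : ℂ) ≠ 0 := by exact_mod_cast hDn0.ne'
  refine ⟨Dn * G ^ 2, fun y => 1 / (2 * q * G ^ 3 * Dn) *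
    (WW e G q a y * Complex.exp (2 * Real.pi * Complex.I * (nm y : ℂ) *
      ((d : ℂ) / (q * (Dn * G ^ 2))))), by positivity, ?_, ?_, ?_⟩
  · push_cast
    rw [hDn1]
  · refine ⟨‖(1 / (2 * q * G ^ 3 * Dn) : ℂ)‖ * C, fun y => ?_⟩
    rw [norm_mul, norm_mul]
    have h1 : ‖Complex.exp (2 * Real.pi * Complex.I * (nm y : ℂ) *
        ((d : ℂ) / (q * (Dn * G ^ 2))))‖ = 1 := by
      have h2 : 2 * Real.pi * Complex.I * (nm y : ℂ) * ((d : ℂ) / (q * (Dn * G ^ 2))) =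
          ((2 * Real.pi * (nm y : ℝ) * ((d : ℝ) / (q * (Dn * G ^ 2))) : ℝ) : ℂ) * Complex.I := by
        push_cast
        ring
      rw [h2, Complex.norm_exp_ofReal_mul_I]
    rw [h1, mul_one]
    exact mul_le_mul_of_nonneg_left (hC y) (norm_nonneg _)
  · intro z hz
    obtain ⟨hne, him, -⟩ := hMBF a b q d (by exact_mod_cast hdet) z hz
    have hne' : (q : ℂ) * z + d ≠ 0 := by simpa using hne
    set ζ : ℂ := -1 / (q * (q * z + d)) with hζ
    have hdetC : (a : ℂ) * d - b * q = 1 := by exact_mod_cast hdet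
    have hγ : ((a : ℂ) * z + b) / (((q : ℤ) : ℂ) * z + d) = (((a / q : ℚ) : ℚ) : ℂ) + ζ := by
      rw [hζ]
      push_cast
      rw [div_add_div _ _ hqC (mul_ne_zero hqC hne'),
        div_eq_div_iff hne' (mul_ne_zero hqC (mul_ne_zero hqC hne'))]
      linear_combination (-(q : ℂ) * (q * z + d)) * hdetC
    have hζim : 0 < ζ.im := by
      have h1 : ζ = ((a : ℂ) * z + b) / (((q : ℤ) : ℂ) * z + d) - (((a / q : ℚ) : ℚ) : ℂ) := by
        rw [hγ]; ring
      rw [h1, Complex.sub_im, Complex.ratCast_im, sub_zero]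
      exact him
    rw [hγ, hRED A B h g e hg he G q hG hq hgG a ζ hζim]
    have h2 : 1 / (2 * ((q : ℂ) * G) ^ 3 * (absD A B : ℂ) * ζ ^ 2) =
        (((q : ℤ) : ℂ) * z + d) ^ 2 * (1 / (2 * q * G ^ 3 * Dn)) := by
      rw [hζ, hDc]
      push_cast
      field_simp
    have h3 : -1 / (((q : ℂ) * G) ^ 2 * (absD A B : ℂ) * ζ) =
        z / ((Dn * G ^ 2 : ℕ) : ℂ) + (d : ℂ) / (q * (Dn * G ^ 2)) := by
      rw [hζ, hDc]
      push_cast
      field_simp
    rw [h2, h3, mul_assoc]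
    congr 1
    rw [← tsum_mul_left]
    refine tsum_congr fun y => ?_
    unfold tm
    rw [mul_add, Complex.exp_add]
    ring

end ExpT

open ExpT in
theorem tu_EXP (hRED : Su_RED) (hWBD : Su_WBD) (hMBF : Su_MBF) : Su_EXP := by
  intro A B h g e hg he G hG hgG a b c d hdet
  rcases lt_trichotomy c 0 with hc | rfl | hc
  · obtain ⟨q, hq⟩ := Int.eq_ofNat_of_zero_le (show 0 ≤ -c by omega)
    have hq0 : 0 < q := by
      have : (0 : ℤ) < q := by rw [← hq]; omega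
      exact_mod_cast this
    obtain ⟨M, W, hM, hMN, hW, hz⟩ := exp_pos hRED hWBD hMBF h g e hg he G hG hgG (-a) (-b) (-d) q
      hq0 (by rw [← hq]; linarith)
    refine ⟨M, W, hM, hMN, hW, fun z him => ?_⟩
    have h1 := hz z him
    rw [← hq] at h1
    have h2 : (((-a : ℤ) : ℂ) * z + ((-b : ℤ) : ℂ)) / (((-c : ℤ) : ℂ) * z + ((-d : ℤ) : ℂ)) =
        ((a : ℂ) * z + b) / ((c : ℂ) * z + d) := by
      rw [← neg_div_neg_eq]
      push_cast
      congr 1 <;> ring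
    rw [h2] at h1
    rw [h1]
    push_cast
    ring
  · exact exp_zero h g e hg he G a b d (by linarith)
  · obtain ⟨q, hq⟩ := Int.eq_ofNat_of_zero_le hc.le
    have hq0 : 0 < q := by
      have : (0 : ℤ) < q := by rw [← hq]; omega
      exact_mod_cast this
    subst hq
    exact exp_pos hRED hWBD hMBF h g e hg he G hG hgG a b d q hq0 hdet

end

end Pool.Agent.MU3T
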