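import Mathlib

/-!
# Points near infinity on `y² = x³ + a2 x² + a4 x + a6` over a field with a valuation: the chord

`z = -x/y`, `w = -1/y`. If two points have `v z ≤ r < 1`, `v w ≤ r³`, the third point of the line
has `v (z₁ + z₂ + z₃) ≤ r³`, `v w₃ ≤ r³`.
-/

set_option autoImplicit false

namespace Pool.Agent.MU3.Val

variable {F : Type*} [Field F] {Γ₀ : Type*} [LinearOrderedCommGroupWithZero Γ₀]
  {v : Valuation F Γ₀} {a2 a4 a6 : F}

theorem v_nat (v : Valuation F Γ₀) (n : ℕ) : v (n : F) ≤ 1 := by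
  induction n with
  | zero => simp
  | succ n ih =>
    push_cast
    exact (v.map_add _ _).trans (max_le ih (by simp))

theorem v_two (v : Valuation F Γ₀) : v (2 : F) ≤ 1 := by
  have := v_nat v 2
  simpa using this

theorem v_three (v : Valuation F Γ₀) : v (3 : F) ≤ 1 := by
  have := v_nat v 3
  simpa using this

theorem v_add_le {x y : F} {r : Γ₀} (hx : v x ≤ r) (hy : v y ≤ r) : v (x + y) ≤ r :=
  (v.map_add _ _).trans (max_le hx hy)

theorem v_sub_le {x y : F} {r : Γ₀} (hx : v x ≤ r) (hy : v y ≤ r) : v (x - y) ≤ r :=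
  (v.map_sub _ _).trans (max_le hx hy)

theorem v_mul_le {x y : F} {r s : Γ₀} (hx : v x ≤ r) (hy : v y ≤ s) : v (x * y) ≤ r * s := by
  rw [map_mul]; exact mul_le_mul' hx hy

theorem v_mul_le_right {x y : F} {s : Γ₀} (hx : v x ≤ 1) (hy : v y ≤ s) : v (x * y) ≤ s := by
  rw [map_mul]; exact mul_le_of_le_one_of_le hx hy

theorem v_pow_le {x : F} {r : Γ₀} (n : ℕ) (hx : v x ≤ r) : v (x ^ n) ≤ r ^ n := by
  rw [map_pow]; exact pow_le_pow_left' hx n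

/-- for a point of the curve with non-integral `x` -/
theorem v_y {x y : F} (h2 : v a2 ≤ 1) (h4 : v a4 ≤ 1) (h6 : v a6 ≤ 1)
    (h : y ^ 2 = x ^ 3 + a2 * x ^ 2 + a4 * x + a6) (hx : 1 < v x) :
    v y ^ 2 = v x ^ 3 := by
  have e1 : v (a2 * x ^ 2 + a4 * x + a6) < v (x ^ 3) := by
    have b1 : v x ^ 2 < v x ^ 3 := pow_lt_pow_right₀ hx (by norm_num)
    have b2 : v x ≤ v x ^ 2 := by
      calc v x = v x ^ 1 := (pow_one _).symm
        _ ≤ v x ^ 2 := pow_le_pow_right₀ hx.le (by norm_num)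
    have b3 : (1 : Γ₀) ≤ v x ^ 2 := one_le_pow₀ hx.le
    rw [map_pow]
    refine lt_of_le_of_lt ?_ b1
    refine v_add_le (v_add_le (v_mul_le_right h2 (by rw [map_pow])) ?_) (h6.trans b3)
    exact v_mul_le_right h4 b2
  have e2 : v (y ^ 2) = v (x ^ 3) := by
    rw [h, show x ^ 3 + a2 * x ^ 2 + a4 * x + a6 = x ^ 3 + (a2 * x ^ 2 + a4 * x + a6) by ring]
    exact v.map_add_eq_of_lt_left e1
  simpa using e2

/-- the valuations of `z` and `w` -/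
theorem v_zw {x y : F} (h2 : v a2 ≤ 1) (h4 : v a4 ≤ 1) (h6 : v a6 ≤ 1)
    (h : y ^ 2 = x ^ 3 + a2 * x ^ 2 + a4 * x + a6) (hx : 1 < v x) :
    y ≠ 0 ∧ v (x / y) < 1 ∧ v (x / y) ≠ 0 ∧ v (1 / y) = v (x / y) ^ 3 ∧
      v x * v (x / y) ^ 2 = 1 := by
  have hx0 : v x ≠ 0 := (zero_lt_one.trans hx).ne'
  have e := v_y h2 h4 h6 h hx
  have hy0 : v y ≠ 0 := by
    intro h0
    rw [h0] at e
    have : v x ^ 3 = 0 := by rw [← e]; simp
    exact hx0 (pow_eq_zero_iff (by norm_num) |>.1 this)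
  have hy : y ≠ 0 := fun h0 => hy0 (by rw [h0, map_zero])
  have hz : v (x / y) = v x / v y := map_div₀ v x y
  have hlt : v x < v y := by
    by_contra hc
    push Not at hc
    have h1 : v y ^ 2 ≤ v x ^ 2 := pow_le_pow_left' hc 2
    rw [e] at h1
    have h3 : v x ^ 2 < v x ^ 3 := pow_lt_pow_right₀ hx (by norm_num)
    exact absurd h1 (not_le.2 h3)
  refine ⟨hy, ?_, ?_, ?_, ?_⟩
  · rw [hz]
    exact (div_lt_one₀ (zero_lt_iff.2 hy0)).2 hlt
  · rw [hz]; exact div_ne_zero hx0 hy0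
  · rw [hz, map_div₀, map_one, div_pow, ← e]
    field_simp
  · rw [hz, div_pow, e]
    field_simp

/-- Bounds for the line `w = -(l/n) z - 1/n` through two points near infinity. -/
theorem chord0 {z1 w1 z2 w2 l n : F} {r : Γ₀} (hr : r < 1)
    (h2 : v a2 ≤ 1) (h4 : v a4 ≤ 1) (h6 : v a6 ≤ 1)
    (hz1 : v z1 ≤ r) (hz2 : v z2 ≤ r) (hw1 : v w1 ≤ r ^ 3) (hw2 : v w2 ≤ r ^ 3)
    (e1 : n * w1 + l * z1 = -1)
    (hAB : l * (1 - (a2 * z2 ^ 2 + a4 * z1 * (w1 + w2) + a6 * (w1 ^ 2 + w1 * w2 + w2 ^ 2))) =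
      -(n * (z1 ^ 2 + z1 * z2 + z2 ^ 2 + a2 * (z1 + z2) * w1 + a4 * w2 ^ 2))) :
    v l ≤ v n * r ^ 2 ∧ 1 ≤ v n * r ^ 3 ∧
      v (n ^ 3 - a2 * n ^ 2 * l + a4 * n * l ^ 2 - a6 * l ^ 3) = v n ^ 3 := by
  have r21 : r ^ 2 ≤ r := by
    calc r ^ 2 ≤ r ^ 1 := pow_le_pow_right_of_le_one' hr.le (by norm_num)
      _ = r := pow_one r
  have r31 : r ^ 3 ≤ r := by
    calc r ^ 3 ≤ r ^ 1 := pow_le_pow_right_of_le_one' hr.le (by norm_num)
      _ = r := pow_one r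
  have r62 : r ^ 6 ≤ r ^ 2 := pow_le_pow_right_of_le_one' hr.le (by norm_num)
  have r42 : r ^ 4 ≤ r ^ 2 := pow_le_pow_right_of_le_one' hr.le (by norm_num)
  have r2lt : r ^ 2 < 1 := lt_of_le_of_lt r21 hr
  have m2 : ∀ {x y : F}, v x ≤ r ^ 3 → v y ≤ r ^ 3 → v (x * y) ≤ r ^ 2 := by
    intro x y hx hy
    refine (v_mul_le hx hy).trans ?_
    rw [← pow_add]; exact r62
  have hw1' : v w1 ≤ r := hw1.trans r31
  have hw2' : v w2 ≤ r := hw2.trans r31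
  have hA : v (1 - (a2 * z2 ^ 2 + a4 * z1 * (w1 + w2) +
      a6 * (w1 ^ 2 + w1 * w2 + w2 ^ 2))) = 1 := by
    apply v.map_one_sub_of_lt
    refine lt_of_le_of_lt ?_ r2lt
    refine v_add_le (v_add_le (v_mul_le_right h2 (v_pow_le 2 hz2)) ?_) ?_
    · rw [mul_assoc]
      refine v_mul_le_right h4 ((v_mul_le hz1 (v_add_le hw1 hw2)).trans ?_)
      rw [← pow_succ']; exact r42
    · refine v_mul_le_right h6 (v_add_le (v_add_le ?_ (m2 hw1 hw2)) ?_)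
      · rw [pow_two]; exact m2 hw1 hw1
      · rw [pow_two]; exact m2 hw2 hw2
  have hB : v (z1 ^ 2 + z1 * z2 + z2 ^ 2 + a2 * (z1 + z2) * w1 + a4 * w2 ^ 2) ≤ r ^ 2 := by
    refine v_add_le (v_add_le (v_add_le (v_add_le (v_pow_le 2 hz1) ?_) (v_pow_le 2 hz2)) ?_) ?_
    · rw [pow_two]; exact v_mul_le hz1 hz2
    · rw [mul_assoc]
      refine v_mul_le_right h2 ?_
      rw [pow_two]
      exact v_mul_le (v_add_le hz1 hz2) hw1'
    · exact v_mul_le_right h4 (v_pow_le 2 hw2')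
  have hl : v l ≤ v n * r ^ 2 := by
    have := congrArg v hAB
    rw [map_mul, hA, mul_one, Valuation.map_neg, map_mul] at this
    rw [this]
    exact mul_le_mul_right hB _
  have hn : 1 ≤ v n * r ^ 3 := by
    have := congrArg v e1
    rw [Valuation.map_neg, map_one] at this
    rw [← this]
    refine v_add_le ?_ ?_
    · exact v_mul_le le_rfl hw1
    · refine (v_mul_le hl hz1).trans ?_
      rw [mul_assoc, ← pow_succ]
  have hn0 : v n ≠ 0 := by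
    intro h0
    rw [h0, zero_mul] at hn
    exact absurd hn (not_le.2 zero_lt_one)
  have hnn : (0 : Γ₀) < v n := zero_lt_iff.2 hn0
  have hl1 : v l ≤ v n * 1 := hl.trans (mul_le_mul_right r2lt.le _)
  rw [mul_one] at hl1
  refine ⟨hl, hn, ?_⟩
  have e : n ^ 3 - a2 * n ^ 2 * l + a4 * n * l ^ 2 - a6 * l ^ 3 =
      n ^ 3 + (-(a2 * (n ^ 2 * l)) + a4 * (n * l ^ 2) - a6 * l ^ 3) := by ring
  have k1 : v (n ^ 2 * l) ≤ v n ^ 3 * r ^ 2 := by
    refine (v_mul_le (v_pow_le 2 le_rfl) hl).trans (le_of_eq ?_)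
    rw [← mul_assoc, ← pow_succ]
  have k2 : v (n * l ^ 2) ≤ v n ^ 3 * r ^ 2 := by
    have : v (l ^ 2) ≤ v n * (v n * r ^ 2) := by
      rw [pow_two]; exact v_mul_le hl1 hl
    refine (v_mul_le le_rfl this).trans (le_of_eq ?_)
    rw [← mul_assoc, ← mul_assoc, pow_three' (v n)]
  have k3 : v (l ^ 3) ≤ v n ^ 3 * r ^ 2 := by
    have : v (l ^ 3) ≤ v n ^ 2 * (v n * r ^ 2) := by
      rw [pow_succ]; exact v_mul_le (v_pow_le 2 hl1) hl
    refine this.trans (le_of_eq ?_)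
    rw [← mul_assoc, ← pow_succ]
  rw [e, v.map_add_eq_of_lt_left, map_pow]
  rw [map_pow]
  refine lt_of_le_of_lt (b := v n ^ 3 * r ^ 2) ?_ ?_
  · refine v_sub_le (v_add_le ?_ (v_mul_le_right h4 k2)) (v_mul_le_right h6 k3)
    rw [Valuation.map_neg]; exact v_mul_le_right h2 k1
  · exact mul_lt_of_lt_one_right (pow_pos hnn 3) r2lt

/-- The chord. -/
theorem chord {z1 w1 z2 w2 z3 w3 l n : F} {r : Γ₀} (hr : r < 1)
    (h2 : v a2 ≤ 1) (h4 : v a4 ≤ 1) (h6 : v a6 ≤ 1)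
    (hz1 : v z1 ≤ r) (hz2 : v z2 ≤ r) (hw1 : v w1 ≤ r ^ 3) (hw2 : v w2 ≤ r ^ 3)
    (e1 : n * w1 + l * z1 = -1) (e3 : n * w3 + l * z3 = -1)
    (hAB : l * (1 - (a2 * z2 ^ 2 + a4 * z1 * (w1 + w2) + a6 * (w1 ^ 2 + w1 * w2 + w2 ^ 2))) =
      -(n * (z1 ^ 2 + z1 * z2 + z2 ^ 2 + a2 * (z1 + z2) * w1 + a4 * w2 ^ 2)))
    (hs : (z1 + z2 + z3) * (n ^ 3 - a2 * n ^ 2 * l + a4 * n * l ^ 2 - a6 * l ^ 3) =
      a2 * n ^ 2 - 2 * a4 * n * l + 3 * a6 * l ^ 2) :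
    v (z1 + z2 + z3) ≤ r ^ 3 ∧ v w3 ≤ r ^ 3 ∧ v z3 ≤ r := by
  obtain ⟨hl, hn, hD⟩ := chord0 hr h2 h4 h6 hz1 hz2 hw1 hw2 e1 hAB
  have r31 : r ^ 3 ≤ r := by
    calc r ^ 3 ≤ r ^ 1 := pow_le_pow_right_of_le_one' hr.le (by norm_num)
      _ = r := pow_one r
  have r2le : r ^ 2 ≤ 1 := pow_le_one' hr.le 2
  have hn0 : v n ≠ 0 := by
    intro h0
    rw [h0, zero_mul] at hn
    exact absurd hn (not_le.2 zero_lt_one)
  have hnn : (0 : Γ₀) < v n := zero_lt_iff.2 hn0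
  have hl1 : v l ≤ v n * 1 := hl.trans (mul_le_mul_right r2le _)
  rw [mul_one] at hl1
  have hN : v (a2 * n ^ 2 - 2 * a4 * n * l + 3 * a6 * l ^ 2) ≤ v n ^ 2 := by
    refine v_add_le (v_sub_le (v_mul_le_right h2 (v_pow_le 2 le_rfl)) ?_) ?_
    · rw [mul_assoc, mul_assoc]
      refine v_mul_le_right (v_two v) (v_mul_le_right h4 ?_)
      rw [pow_two]; exact v_mul_le le_rfl hl1
    · rw [mul_assoc]
      exact v_mul_le_right (v_three v) (v_mul_le_right h6 (v_pow_le 2 hl1))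
  have hS : v (z1 + z2 + z3) ≤ r ^ 3 := by
    have := congrArg v hs
    rw [map_mul, hD] at this
    rw [← this] at hN
    have h5 : v (z1 + z2 + z3) * v n ≤ 1 := by
      have h6' : v (z1 + z2 + z3) * v n * v n ^ 2 ≤ 1 * v n ^ 2 := by
        rw [one_mul, mul_assoc, ← pow_succ']; exact hN
      exact le_of_mul_le_mul_right h6' (pow_pos hnn 2)
    have h7 : v (z1 + z2 + z3) * v n ≤ r ^ 3 * v n := h5.trans (by rw [mul_comm]; exact hn)
    exact le_of_mul_le_mul_right h7 hnn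
  have hz3 : v z3 ≤ r := by
    have e : z3 = (z1 + z2 + z3) - (z1 + z2) := by ring
    rw [e]
    exact v_sub_le (hS.trans r31) (v_add_le hz1 hz2)
  refine ⟨hS, ?_, hz3⟩
  have h8 : n * w3 = -1 - l * z3 := by linear_combination e3
  have h9 : v n * v w3 ≤ v n * r ^ 3 := by
    rw [← map_mul, h8]
    refine v_sub_le ?_ ?_
    · rw [Valuation.map_neg, map_one]; exact hn
    · refine (v_mul_le hl hz3).trans ?_
      rw [mul_assoc, ← pow_succ]
  exact le_of_mul_le_mul_left h9 hnn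

end Pool.Agent.MU3.Val
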