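import Pool.Agent.MU3.VCore

/-!
# The points near infinity of a Weierstrass curve `y² = x³ + a₂ x² + a₄ x + a₆`

`v` is a valuation of the field `F`, the coefficients are integral. `InE v P`: `P = 0` or `x(P)` is
not integral. `zc P = -x/y`. `InE` is closed under addition and `zc` is additive up to third order.
-/

set_option autoImplicit false

namespace Pool.Agent.MU3.Val

open WeierstrassCurve

variable {F : Type*} [Field F] {Γ₀ : Type*} [LinearOrderedCommGroupWithZero Γ₀]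
  (v : Valuation F Γ₀) (W : Affine F)

/-- `W : y² = x³ + a₂ x² + a₄ x + a₆` with integral coefficients. -/
structure IntW : Prop where
  a1 : W.a₁ = 0
  a3 : W.a₃ = 0
  a2 : v W.a₂ ≤ 1
  a4 : v W.a₄ ≤ 1
  a6 : v W.a₆ ≤ 1

variable {W}

/-- The point is `0` or its `x` is not integral. -/
def InE : W.Point → Prop
  | .zero => True
  | .some x _ _ => 1 < v x

/-- The local parameter `-x/y`. -/
def zc : W.Point → F
  | .zero => 0
  | .some x y _ => -(x / y)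

variable {v}

theorem eqn (hW : IntW v W) {x y : F} (h : W.Nonsingular x y) :
    y ^ 2 = x ^ 3 + W.a₂ * x ^ 2 + W.a₄ * x + W.a₆ := by
  have := (W.equation_iff x y).1 h.1
  rw [hW.a1, hW.a3] at this
  linear_combination this

theorem inE_zero : InE v (0 : W.Point) := trivial

theorem zc_zero : zc (0 : W.Point) = 0 := rfl

theorem zc_neg (hW : IntW v W) (P : W.Point) : zc (-P) = -zc P := by
  cases P with
  | zero => show (0 : F) = -0; ring
  | some x y h =>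
    rw [Affine.Point.neg_some]
    show -(x / W.negY x y) = -(-(x / y))
    rw [Affine.negY, hW.a1, hW.a3]
    ring

theorem inE_neg {P : W.Point} (h : InE v P) : InE v (-P) := by
  cases P with
  | zero => exact h
  | some x y h' => rw [Affine.Point.neg_some]; exact h

theorem inE_neg_iff {P : W.Point} : InE v (-P) ↔ InE v P :=
  ⟨fun h => by have := inE_neg h; rwa [neg_neg] at this, inE_neg⟩

/-- the valuations of the parameter -/
theorem inE_some (hW : IntW v W) {x y : F} {h : W.Nonsingular x y}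
    (hx : InE v (Affine.Point.some x y h)) :
    y ≠ 0 ∧ v (-(x / y)) < 1 ∧ v (-(x / y)) ≠ 0 ∧ v (-(1 / y)) = v (-(x / y)) ^ 3 ∧
      v x * v (-(x / y)) ^ 2 = 1 := by
  rw [Valuation.map_neg, Valuation.map_neg]
  exact v_zw hW.a2 hW.a4 hW.a6 (eqn hW h) hx

theorem zc_lt_one (hW : IntW v W) {P : W.Point} (h : InE v P) : v (zc P) < 1 := by
  cases P with
  | zero => rw [show zc (Affine.Point.zero : W.Point) = 0 from rfl, map_zero]; exact zero_lt_one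
  | some x y h' => exact (inE_some hW h).2.1

theorem zc_eq_zero (hW : IntW v W) {P : W.Point} (h : InE v P) (h0 : v (zc P) = 0) : P = 0 := by
  cases P with
  | zero => rfl
  | some x y h' => exact absurd h0 (inE_some hW h).2.2.1

variable [DecidableEq F]

/-- data of the sum of two points: `l`, `n` are the coefficients of the line `y = l x + n`, the
third point on it is `(x₃, y₃) = -(P + Q)` -/
theorem add_data (hW : IntW v W) {x₁ y₁ x₂ y₂ : F} (h₁ : W.Nonsingular x₁ y₁)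
    (h₂ : W.Nonsingular x₂ y₂) (hy₁ : y₁ ≠ 0) (hy₂ : y₂ ≠ 0)
    (hne : Affine.Point.some x₁ y₁ h₁ + Affine.Point.some x₂ y₂ h₂ ≠ 0)
    (h20 : (2 : F) ≠ 0) :
    ∃ (x₃ y₃ l n : F) (h₃ : W.Nonsingular x₃ y₃),
      Affine.Point.some x₁ y₁ h₁ + Affine.Point.some x₂ y₂ h₂ = -Affine.Point.some x₃ y₃ h₃ ∧
      y₁ = l * x₁ + n ∧ y₂ = l * x₂ + n ∧ y₃ = l * x₃ + n ∧
      x₁ + x₂ + x₃ = l ^ 2 - W.a₂ ∧
      x₁ * x₂ + x₁ * x₃ + x₂ * x₃ = W.a₄ - 2 * l * n ∧ x₁ * x₂ * x₃ = n ^ 2 - W.a₆ ∧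
      l * (1 - (W.a₂ * (x₂ / y₂) ^ 2 + W.a₄ * (x₁ / y₁) * (1 / y₁ + 1 / y₂) +
        W.a₆ * ((1 / y₁) ^ 2 + (1 / y₁) * (1 / y₂) + (1 / y₂) ^ 2))) =
      -(n * ((x₁ / y₁) ^ 2 + (x₁ / y₁) * (x₂ / y₂) + (x₂ / y₂) ^ 2 +
        W.a₂ * (x₁ / y₁ + x₂ / y₂) * (1 / y₁) + W.a₄ * (1 / y₂) ^ 2)) := by
  have e₁ := eqn hW h₁
  have e₂ := eqn hW h₂
  have hxy : ¬(x₁ = x₂ ∧ y₁ = W.negY x₂ y₂) := by
    rintro ⟨ha, hb⟩
    exact hne (Affine.Point.add_of_Y_eq ha hb)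
  have hadd := Affine.Point.add_some hxy (h₁ := h₁) (h₂ := h₂)
  set l := W.slope x₁ x₂ y₁ y₂ with hl
  have h₃ := Affine.nonsingular_add h₁ h₂ hxy
  rw [← hl] at h₃
  have hx₃ : W.addX x₁ x₂ l = l ^ 2 - W.a₂ - x₁ - x₂ := by
    rw [Affine.addX, hW.a1]; ring
  have hns : W.Nonsingular (W.addX x₁ x₂ l) (W.negAddY x₁ x₂ y₁ l) := by
    have := (W.nonsingular_neg (W.addX x₁ x₂ l) (W.negAddY x₁ x₂ y₁ l)).1 h₃
    exact this
  have hy : y₂ = l * x₂ + (y₁ - l * x₁) := by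
    by_cases hx : x₁ = x₂
    · have hy : y₁ = y₂ := Affine.Y_eq_of_Y_ne h₁.1 h₂.1 hx (fun h => hxy ⟨hx, h⟩)
      rw [hx, hy]; ring
    · rw [hl, Affine.slope_of_X_ne hx]
      have : x₁ - x₂ ≠ 0 := sub_ne_zero.2 hx
      field_simp
      ring
  have hK : l * (y₁ + y₂) = x₁ ^ 2 + x₁ * x₂ + x₂ ^ 2 + W.a₂ * (x₁ + x₂) + W.a₄ := by
    by_cases hx : x₁ = x₂
    · have hyy : y₁ = y₂ := Affine.Y_eq_of_Y_ne h₁.1 h₂.1 hx (fun h => hxy ⟨hx, h⟩)
      have hne' : y₁ ≠ W.negY x₂ y₂ := fun h => hxy ⟨hx, h⟩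
      rw [hl, Affine.slope_of_Y_ne hx hne', Affine.negY, hW.a1, hW.a3, ← hx, ← hyy]
      have h2y : (2 : F) * y₁ ≠ 0 := mul_ne_zero h20 hy₁
      rw [show y₁ - (-y₁ - 0 * x₁ - 0) = 2 * y₁ by ring]
      rw [div_mul_eq_mul_div, div_eq_iff h2y]
      ring
    · have hx' : x₁ - x₂ ≠ 0 := sub_ne_zero.2 hx
      apply mul_left_cancel₀ hx'
      have : y₁ - y₂ = l * (x₁ - x₂) := by rw [hy]; ring
      linear_combination (-(y₁ + y₂)) * this + e₁ - e₂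
  refine ⟨W.addX x₁ x₂ l, W.negAddY x₁ x₂ y₁ l, l, y₁ - l * x₁, hns, ?_, by ring, hy, ?_, ?_, ?_,
    ?_, ?_⟩
  · rw [hadd, Affine.Point.neg_some]
    rfl
  · rw [Affine.negAddY]; ring
  · rw [hx₃]; ring
  · rw [hx₃]
    rw [hy] at hK
    linear_combination hK
  · rw [hx₃]
    rw [hy] at hK
    linear_combination x₁ * hK - e₁
  · have hT : l * (y₁ ^ 2 * y₂ ^ 2 - W.a₂ * x₂ ^ 2 * y₁ ^ 2 - W.a₄ * x₁ * y₂ * (y₁ + y₂) -
        W.a₆ * (y₁ ^ 2 + y₁ * y₂ + y₂ ^ 2)) + (y₁ - l * x₁) * (x₁ ^ 2 * y₂ ^ 2 +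
        x₁ * x₂ * y₁ * y₂ + x₂ ^ 2 * y₁ ^ 2 + W.a₂ * (x₁ * y₂ + x₂ * y₁) * y₂ +
        W.a₄ * y₁ ^ 2) = 0 := by
      rw [hy] at hK ⊢
      linear_combination (-(y₁ ^ 3)) * hK + l * (y₁ ^ 2 + y₁ * (l * x₂ + (y₁ - l * x₁)) +
        (l * x₂ + (y₁ - l * x₁)) ^ 2) * e₁
    have hq : l * (1 - (W.a₂ * (x₂ / y₂) ^ 2 + W.a₄ * (x₁ / y₁) * (1 / y₁ + 1 / y₂) +
        W.a₆ * ((1 / y₁) ^ 2 + (1 / y₁) * (1 / y₂) + (1 / y₂) ^ 2))) +
      (y₁ - l * x₁) * ((x₁ / y₁) ^ 2 + (x₁ / y₁) * (x₂ / y₂) + (x₂ / y₂) ^ 2 +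
        W.a₂ * (x₁ / y₁ + x₂ / y₂) * (1 / y₁) + W.a₄ * (1 / y₂) ^ 2) =
      (l * (y₁ ^ 2 * y₂ ^ 2 - W.a₂ * x₂ ^ 2 * y₁ ^ 2 - W.a₄ * x₁ * y₂ * (y₁ + y₂) -
        W.a₆ * (y₁ ^ 2 + y₁ * y₂ + y₂ ^ 2)) + (y₁ - l * x₁) * (x₁ ^ 2 * y₂ ^ 2 +
        x₁ * x₂ * y₁ * y₂ + x₂ ^ 2 * y₁ ^ 2 + W.a₂ * (x₁ * y₂ + x₂ * y₁) * y₂ +
        W.a₄ * y₁ ^ 2)) / (y₁ ^ 2 * y₂ ^ 2) := by
      field_simp
      ring
    rw [hT, zero_div] at hq
    linear_combination hq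

/-- `InE` is closed under addition, `zc` is additive up to third order. -/
theorem add_inE (hW : IntW v W) (h20 : (2 : F) ≠ 0) {P Q : W.Point} (hP : InE v P)
    (hQ : InE v Q) :
    InE v (P + Q) ∧ v (zc (P + Q) - zc P - zc Q) ≤ (max (v (zc P)) (v (zc Q))) ^ 3 := by
  by_cases hPQ : P + Q = 0
  · have hQ' : Q = -P := (neg_eq_of_add_eq_zero_right hPQ).symm
    rw [hPQ, hQ', zc_neg hW, zc_zero]
    refine ⟨trivial, ?_⟩
    have : (0 : F) - zc P - -zc P = 0 := by ring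
    rw [this, map_zero]
    exact zero_le
  cases P with
  | zero =>
    have e : (Affine.Point.zero : W.Point) + Q = Q := zero_add Q
    rw [e]
    refine ⟨hQ, ?_⟩
    have : zc Q - zc (Affine.Point.zero : W.Point) - zc Q = 0 := by
      rw [show zc (Affine.Point.zero : W.Point) = 0 from rfl]; ring
    rw [this, map_zero]
    exact zero_le
  | some x₁ y₁ h₁ =>
    cases Q with
    | zero =>
      have e : Affine.Point.some x₁ y₁ h₁ + (Affine.Point.zero : W.Point) =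
        Affine.Point.some x₁ y₁ h₁ := add_zero _
      rw [e]
      refine ⟨hP, ?_⟩
      have : zc (Affine.Point.some x₁ y₁ h₁) - zc (Affine.Point.some x₁ y₁ h₁) -
          zc (Affine.Point.zero : W.Point) = 0 := by
        rw [show zc (Affine.Point.zero : W.Point) = 0 from rfl]; ring
      rw [this, map_zero]
      exact zero_le
    | some x₂ y₂ h₂ =>
      obtain ⟨hy₁, hz₁, hz₁0, hw₁, -⟩ := inE_some hW hP
      obtain ⟨hy₂, hz₂, hz₂0, hw₂, -⟩ := inE_some hW hQ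
      obtain ⟨x₃, y₃, l, n, h₃, hadd, en₁, en₂, en₃, c2, c1, c0, hAB⟩ :=
        add_data hW h₁ h₂ hy₁ hy₂ hPQ h20
      set r := max (v (-(x₁ / y₁))) (v (-(x₂ / y₂))) with hr
      have hr1 : r < 1 := max_lt hz₁ hz₂
      have hz₁r : v (-(x₁ / y₁)) ≤ r := le_max_left _ _
      have hz₂r : v (-(x₂ / y₂)) ≤ r := le_max_right _ _
      have hw₁r : v (-(1 / y₁)) ≤ r ^ 3 := by rw [hw₁]; exact pow_le_pow_left' hz₁r 3
      have hw₂r : v (-(1 / y₂)) ≤ r ^ 3 := by rw [hw₂]; exact pow_le_pow_left' hz₂r 3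
      have e1 : n * -(1 / y₁) + l * -(x₁ / y₁) = -1 := by
        field_simp
        linear_combination en₁
      have hAB' : l * (1 - (W.a₂ * (-(x₂ / y₂)) ^ 2 + W.a₄ * -(x₁ / y₁) * (-(1 / y₁) + -(1 / y₂)) +
          W.a₆ * ((-(1 / y₁)) ^ 2 + -(1 / y₁) * -(1 / y₂) + (-(1 / y₂)) ^ 2))) =
        -(n * ((-(x₁ / y₁)) ^ 2 + -(x₁ / y₁) * -(x₂ / y₂) + (-(x₂ / y₂)) ^ 2 +
          W.a₂ * (-(x₁ / y₁) + -(x₂ / y₂)) * -(1 / y₁) + W.a₄ * (-(1 / y₂)) ^ 2)) := by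
        linear_combination hAB
      obtain ⟨-, hn, hD⟩ := chord0 hr1 hW.a2 hW.a4 hW.a6 hz₁r hz₂r hw₁r hw₂r e1 hAB'
      have hn0 : v n ≠ 0 := by
        intro h0
        rw [h0, zero_mul] at hn
        exact absurd hn (not_le.2 zero_lt_one)
      have hDe : y₁ * y₂ * y₃ = n ^ 3 - W.a₂ * n ^ 2 * l + W.a₄ * n * l ^ 2 - W.a₆ * l ^ 3 := by
        rw [en₁, en₂, en₃]
        linear_combination l ^ 3 * c0 + l ^ 2 * n * c1 + l * n ^ 2 * c2
      have hy₃ : y₃ ≠ 0 := by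
        intro h0
        rw [← hDe, h0, mul_zero, map_zero] at hD
        exact pow_ne_zero 3 hn0 hD.symm
      have e3 : n * -(1 / y₃) + l * -(x₃ / y₃) = -1 := by
        field_simp
        linear_combination en₃
      have hs : (-(x₁ / y₁) + -(x₂ / y₂) + -(x₃ / y₃)) *
          (n ^ 3 - W.a₂ * n ^ 2 * l + W.a₄ * n * l ^ 2 - W.a₆ * l ^ 3) =
          W.a₂ * n ^ 2 - 2 * W.a₄ * n * l + 3 * W.a₆ * l ^ 2 := by
        rw [← hDe]
        have : (-(x₁ / y₁) + -(x₂ / y₂) + -(x₃ / y₃)) * (y₁ * y₂ * y₃) =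
            -(x₁ * y₂ * y₃ + y₁ * x₂ * y₃ + y₁ * y₂ * x₃) := by
          field_simp
          ring
        rw [this, en₁, en₂, en₃]
        linear_combination (-3 * l ^ 2) * c0 - 2 * l * n * c1 - n ^ 2 * c2
      obtain ⟨hS, hw₃, hz₃⟩ := chord hr1 hW.a2 hW.a4 hW.a6 hz₁r hz₂r hw₁r hw₂r e1 e3 hAB' hs
      have hE₃ : InE v (Affine.Point.some x₃ y₃ h₃) := by
        show 1 < v x₃
        by_contra hc
        push Not at hc
        have hy3v : v y₃ ≤ 1 := by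
          by_contra hc2
          push Not at hc2
          have e := eqn hW h₃
          have h5 : v (y₃ ^ 2) ≤ 1 := by
            rw [e]
            refine v_add_le (v_add_le (v_add_le ?_ ?_) ?_) hW.a6
            · rw [map_pow]; exact pow_le_one' hc 3
            · exact v_mul_le_right hW.a2 (by rw [map_pow]; exact pow_le_one' hc 2)
            · exact v_mul_le_right hW.a4 hc
          rw [map_pow] at h5
          exact absurd h5 (not_le.2 (one_lt_pow₀ hc2 (by norm_num)))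
        have h6 : v (-(1 / y₃)) * v y₃ = 1 := by
          rw [← map_mul]
          have : -(1 / y₃) * y₃ = -1 := by field_simp
          rw [this, Valuation.map_neg, map_one]
        have h7 : v (-(1 / y₃)) * v y₃ ≤ r ^ 3 * 1 := mul_le_mul' hw₃ hy3v
        rw [h6, mul_one] at h7
        have h8 : r ^ 3 < 1 := pow_lt_one₀ zero_le hr1 (by norm_num)
        exact absurd h7 (not_le.2 h8)
      rw [hadd]
      refine ⟨inE_neg hE₃, ?_⟩
      rw [zc_neg hW]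
      show v (- -(x₃ / y₃) - -(x₁ / y₁) - -(x₂ / y₂)) ≤ r ^ 3
      have : - -(x₃ / y₃) - -(x₁ / y₁) - -(x₂ / y₂) =
          -(-(x₁ / y₁) + -(x₂ / y₂) + -(x₃ / y₃)) := by ring
      rw [this, Valuation.map_neg]
      exact hS

end Pool.Agent.MU3.Val
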