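import Pool.Agent.MU3.VPts

/-!
# Torsion and reduction for `y² = x³ + a₂ x² + a₄ x + a₆` over a field with a valuation

`v(2) = 1`, integral coefficients, where needed `v(Δ) = 1`. `InE v P`: `P = 0` or `x(P)` is not
integral (the kernel of reduction).
-/

set_option autoImplicit false

namespace Pool.Agent.MU3.Val

open WeierstrassCurve

variable {F : Type*} [Field F] {Γ₀ : Type*} [LinearOrderedCommGroupWithZero Γ₀]
  {v : Valuation F Γ₀} {W : Affine F}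

theorem two_ne (h2 : v 2 = 1) : (2 : F) ≠ 0 := by
  intro h
  rw [h, map_zero] at h2
  exact zero_ne_one h2

section

variable [DecidableEq F]

theorem sub_inE (hW : IntW v W) (h20 : (2 : F) ≠ 0) {P Q : W.Point} (hP : InE v P)
    (hQ : InE v Q) : InE v (P - Q) := by
  rw [sub_eq_add_neg]
  exact (add_inE hW h20 hP (inE_neg hQ)).1

/-- the kernel of reduction -/
def E1 (hW : IntW v W) (h20 : (2 : F) ≠ 0) : AddSubgroup W.Point where
  carrier := {P | InE v P}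
  add_mem' := fun {P Q} (hP : InE v P) (hQ : InE v Q) => (add_inE hW h20 hP hQ).1
  zero_mem' := (inE_zero : InE v (0 : W.Point))
  neg_mem' := fun {P} (h : InE v P) => inE_neg h

theorem mem_E1 (hW : IntW v W) (h20 : (2 : F) ≠ 0) {P : W.Point} : P ∈ E1 hW h20 ↔ InE v P :=
  Iff.rfl

/-- the filtration -/
theorem v_zc_add (hW : IntW v W) (h20 : (2 : F) ≠ 0) {P Q : W.Point} (hP : InE v P)
    (hQ : InE v Q) : v (zc (P + Q)) ≤ max (v (zc P)) (v (zc Q)) := by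
  have h := (add_inE hW h20 hP hQ).2
  set r := max (v (zc P)) (v (zc Q)) with hr
  have hr1 : r < 1 := max_lt (zc_lt_one hW hP) (zc_lt_one hW hQ)
  have r31 : r ^ 3 ≤ r := by
    calc r ^ 3 ≤ r ^ 1 := pow_le_pow_right_of_le_one' hr1.le (by norm_num)
      _ = r := pow_one r
  have e : zc (P + Q) = (zc (P + Q) - zc P - zc Q) + zc P + zc Q := by ring
  rw [e]
  exact v_add_le (v_add_le (h.trans r31) (le_max_left _ _)) (le_max_right _ _)

/-- `zc (n P) = n zc P` up to third order -/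
theorem zc_nsmul (hW : IntW v W) (h20 : (2 : F) ≠ 0) {P : W.Point} (hP : InE v P) (n : ℕ) :
    InE v (n • P) ∧ v (zc (n • P) - n * zc P) ≤ v (zc P) ^ 3 ∧ v (zc (n • P)) ≤ v (zc P) := by
  induction n with
  | zero =>
    rw [zero_smul]
    refine ⟨inE_zero, ?_, ?_⟩
    · rw [zc_zero]; simp
    · rw [zc_zero]; simp
  | succ n ih =>
    obtain ⟨h1, h2, h3⟩ := ih
    rw [succ_nsmul]
    obtain ⟨h4, h5⟩ := add_inE hW h20 h1 hP
    refine ⟨h4, ?_, ?_⟩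
    · have e : zc (n • P + P) - ((n + 1 : ℕ) : F) * zc P =
          (zc (n • P + P) - zc (n • P) - zc P) + (zc (n • P) - n * zc P) := by push_cast; ring
      rw [e]
      refine v_add_le (h5.trans ?_) h2
      exact pow_le_pow_left' (max_le h3 le_rfl) 3
    · exact (v_zc_add hW h20 h1 hP).trans (max_le h3 le_rfl)

/-- no torsion prime to the residue characteristic in the kernel of reduction -/
theorem v_zc_nsmul (hW : IntW v W) (h20 : (2 : F) ≠ 0) {P : W.Point} (hP : InE v P) {n : ℕ}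
    (hn : v (n : F) = 1) : v (zc (n • P)) = v (zc P) := by
  by_cases h0 : v (zc P) = 0
  · have : P = 0 := zc_eq_zero hW hP h0
    rw [this, smul_zero]
  obtain ⟨h1, h2, h3⟩ := zc_nsmul hW h20 hP n
  have hr1 := zc_lt_one hW hP
  have h4 : v (zc P) ^ 3 < v (zc P) := by
    have hpos : (0 : Γ₀) < v (zc P) := zero_lt_iff.2 h0
    calc v (zc P) ^ 3 = v (zc P) * v (zc P) ^ 2 := pow_succ' _ _
      _ < v (zc P) := mul_lt_of_lt_one_right hpos (pow_lt_one₀ zero_le hr1 (by norm_num))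
  have e : zc (n • P) = n * zc P + (zc (n • P) - n * zc P) := by ring
  have h5 : v (n * zc P) = v (zc P) := by rw [map_mul, hn, one_mul]
  rw [e, v.map_add_eq_of_lt_left, h5]
  rw [h5]
  exact lt_of_le_of_lt h2 h4

theorem eq_zero_of_nsmul (hW : IntW v W) (h20 : (2 : F) ≠ 0) {P : W.Point} (hP : InE v P) {n : ℕ}
    (hn : v (n : F) = 1) (h : n • P = 0) : P = 0 := by
  have h1 := v_zc_nsmul hW h20 hP hn
  rw [h, zc_zero, map_zero] at h1
  exact zc_eq_zero hW hP h1.symm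

end

/-! ### Reduction -/

theorem int_y (hW : IntW v W) {x y : F} (h : W.Nonsingular x y) (hx : v x ≤ 1) : v y ≤ 1 := by
  by_contra hc
  push Not at hc
  have e := eqn hW h
  have h5 : v (y ^ 2) ≤ 1 := by
    rw [e]
    refine v_add_le (v_add_le (v_add_le ?_ ?_) ?_) hW.a6
    · rw [map_pow]; exact pow_le_one' hx 3
    · exact v_mul_le_right hW.a2 (by rw [map_pow]; exact pow_le_one' hx 2)
    · exact v_mul_le_right hW.a4 hx
  rw [map_pow] at h5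
  exact absurd h5 (not_le.2 (one_lt_pow₀ hc (by norm_num)))

theorem disc_identity (hW : IntW v W) (x : F) :
    W.Δ = 16 * (((18 * W.a₄ - 6 * W.a₂ ^ 2) * x - 27 * W.a₆ + 15 * W.a₂ * W.a₄ - 4 * W.a₂ ^ 3) *
      (x ^ 3 + W.a₂ * x ^ 2 + W.a₄ * x + W.a₆) -
      ((6 * W.a₄ - 2 * W.a₂ ^ 2) * x ^ 2 + (7 * W.a₂ * W.a₄ - 2 * W.a₂ ^ 3 - 9 * W.a₆) * x +
        4 * W.a₄ ^ 2 - W.a₂ ^ 2 * W.a₄ - 3 * W.a₂ * W.a₆) *
      (3 * x ^ 2 + 2 * W.a₂ * x + W.a₄)) := by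
  rw [WeierstrassCurve.Δ, WeierstrassCurve.b₂, WeierstrassCurve.b₄, WeierstrassCurve.b₆,
    WeierstrassCurve.b₈, hW.a1, hW.a3]
  ring

/-- `f` and `f'` have no common zero modulo `v` if `Δ` is a unit -/
theorem no_common (hW : IntW v W) (hD : v W.Δ = 1) {x : F} (hx : v x ≤ 1)
    (hf : v (x ^ 3 + W.a₂ * x ^ 2 + W.a₄ * x + W.a₆) < 1)
    (hf' : v (3 * x ^ 2 + 2 * W.a₂ * x + W.a₄) < 1) : False := by
  have hN : ∀ n : ℕ, v (n : F) ≤ 1 := v_nat v
  have i18 : v (18 : F) ≤ 1 := by have := hN 18; simpa using this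
  have i6 : v (6 : F) ≤ 1 := by have := hN 6; simpa using this
  have i27 : v (27 : F) ≤ 1 := by have := hN 27; simpa using this
  have i15 : v (15 : F) ≤ 1 := by have := hN 15; simpa using this
  have i4 : v (4 : F) ≤ 1 := by have := hN 4; simpa using this
  have i7 : v (7 : F) ≤ 1 := by have := hN 7; simpa using this
  have i9 : v (9 : F) ≤ 1 := by have := hN 9; simpa using this
  have i16 : v (16 : F) ≤ 1 := by have := hN 16; simpa using this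
  have i2 := v_two v
  have i3 := v_three v
  have m : ∀ {a b : F}, v a ≤ 1 → v b ≤ 1 → v (a * b) ≤ 1 := fun ha hb => v_mul_le_right ha hb
  have p : ∀ {a : F} (k : ℕ), v a ≤ 1 → v (a ^ k) ≤ 1 := by
    intro a k ha
    rw [map_pow]; exact pow_le_one' ha k
  have hU : v ((18 * W.a₄ - 6 * W.a₂ ^ 2) * x - 27 * W.a₆ + 15 * W.a₂ * W.a₄ - 4 * W.a₂ ^ 3) ≤ 1 :=
    v_sub_le (v_add_le (v_sub_le (m (v_sub_le (m i18 hW.a4) (m i6 (p 2 hW.a2))) hx)
      (m i27 hW.a6)) (m (m i15 hW.a2) hW.a4)) (m i4 (p 3 hW.a2))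
  have hV : v ((6 * W.a₄ - 2 * W.a₂ ^ 2) * x ^ 2 + (7 * W.a₂ * W.a₄ - 2 * W.a₂ ^ 3 - 9 * W.a₆) * x +
        4 * W.a₄ ^ 2 - W.a₂ ^ 2 * W.a₄ - 3 * W.a₂ * W.a₆) ≤ 1 :=
    v_sub_le (v_sub_le (v_add_le (v_add_le (m (v_sub_le (m i6 hW.a4) (m i2 (p 2 hW.a2))) (p 2 hx))
      (m (v_sub_le (v_sub_le (m (m i7 hW.a2) hW.a4) (m i2 (p 3 hW.a2))) (m i9 hW.a6)) hx))
      (m i4 (p 2 hW.a4))) (m (p 2 hW.a2) hW.a4)) (m (m i3 hW.a2) hW.a6)
  have h1 : v W.Δ < 1 := by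
    rw [disc_identity hW x, map_mul]
    refine lt_of_le_of_lt (mul_le_of_le_one_left' i16) ?_
    refine lt_of_le_of_lt (v.map_sub _ _) (max_lt ?_ ?_)
    · rw [map_mul]; exact lt_of_le_of_lt (mul_le_of_le_one_left' hU) hf
    · rw [map_mul]; exact lt_of_le_of_lt (mul_le_of_le_one_left' hV) hf'
  rw [hD] at h1
  exact lt_irrefl _ h1

variable [DecidableEq F]

/-- the slope of the line through `P`, `Q` is integral if `P + Q` is not near infinity -/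
theorem slope_int (hW : IntW v W) {x₁ y₁ x₂ y₂ : F} (h₁ : W.Nonsingular x₁ y₁)
    (h₂ : W.Nonsingular x₂ y₂) (hx₁ : v x₁ ≤ 1) (hx₂ : v x₂ ≤ 1) (hx : x₁ ≠ x₂)
    (hE : ¬ InE v (Affine.Point.some x₁ y₁ h₁ + Affine.Point.some x₂ y₂ h₂)) :
    v (y₁ - y₂) ≤ v (x₁ - x₂) := by
  rw [Affine.Point.add_of_X_ne hx] at hE
  have hE' : ¬ 1 < v (W.addX x₁ x₂ (W.slope x₁ x₂ y₁ y₂)) := hE
  rw [Affine.slope_of_X_ne hx] at hE'
  push Not at hE'
  rw [Affine.addX, hW.a1] at hE'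
  have hd : x₁ - x₂ ≠ 0 := sub_ne_zero.2 hx
  have hd0 : v (x₁ - x₂) ≠ 0 := (Valuation.ne_zero_iff v).2 hd
  have h3 : v (((y₁ - y₂) / (x₁ - x₂)) ^ 2) ≤ 1 := by
    have e : ((y₁ - y₂) / (x₁ - x₂)) ^ 2 = (((y₁ - y₂) / (x₁ - x₂)) ^ 2 +
      0 * ((y₁ - y₂) / (x₁ - x₂)) - W.a₂ - x₁ - x₂) + W.a₂ + x₁ + x₂ := by ring
    rw [e]
    exact v_add_le (v_add_le (v_add_le hE' hW.a2) hx₁) hx₂
  rw [map_pow] at h3
  have h4 : v ((y₁ - y₂) / (x₁ - x₂)) ≤ 1 := by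
    by_contra hc
    push Not at hc
    exact absurd h3 (not_le.2 (one_lt_pow₀ hc (by norm_num)))
  rw [map_div₀] at h4
  exact (div_le_one₀ (zero_lt_iff.2 hd0)).1 h4

/-- REDUCTION IS INJECTIVE: `x(P) ≢ x(Q)` unless `P + Q` or `P - Q` is in the kernel. -/
theorem v_x_sub (hW : IntW v W) (h2 : v 2 = 1) (hD : v W.Δ = 1) {x₁ y₁ x₂ y₂ : F}
    (h₁ : W.Nonsingular x₁ y₁) (h₂ : W.Nonsingular x₂ y₂)
    (hE₁ : ¬ InE v (Affine.Point.some x₁ y₁ h₁)) (hE₂ : ¬ InE v (Affine.Point.some x₂ y₂ h₂))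
    (hp : ¬ InE v (Affine.Point.some x₁ y₁ h₁ + Affine.Point.some x₂ y₂ h₂))
    (hm : ¬ InE v (Affine.Point.some x₁ y₁ h₁ - Affine.Point.some x₂ y₂ h₂)) :
    v (x₁ - x₂) = 1 := by
  have hx₁ : v x₁ ≤ 1 := not_lt.1 hE₁
  have hx₂ : v x₂ ≤ 1 := not_lt.1 hE₂
  have hx : x₁ ≠ x₂ := by
    intro hx
    rcases Affine.Y_eq_of_X_eq h₁.1 h₂.1 hx with hy | hy
    · apply hm
      have : Affine.Point.some x₁ y₁ h₁ = Affine.Point.some x₂ y₂ h₂ := by
        subst hx; subst hy; rfl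
      rw [this, sub_self]
      exact inE_zero
    · apply hp
      rw [Affine.Point.add_of_Y_eq hx hy]
      exact inE_zero
  refine le_antisymm (v_sub_le hx₁ hx₂) ?_
  by_contra hc
  push Not at hc
  have s1 := slope_int hW h₁ h₂ hx₁ hx₂ hx hp
  have s2 : v (y₁ + y₂) ≤ v (x₁ - x₂) := by
    rw [sub_eq_add_neg, Affine.Point.neg_some] at hm
    have s := slope_int hW h₁ ((W.nonsingular_neg x₂ y₂).2 h₂) hx₁ hx₂ hx hm
    rw [Affine.negY, hW.a1, hW.a3] at s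
    have e : y₁ - (-y₂ - 0 * x₂ - 0) = y₁ + y₂ := by ring
    rwa [e] at s
  have hd : x₁ - x₂ ≠ 0 := sub_ne_zero.2 hx
  have hd0 : (0 : Γ₀) < v (x₁ - x₂) := zero_lt_iff.2 ((Valuation.ne_zero_iff v).2 hd)
  have hy₁ : v y₁ < 1 := by
    have e : v (2 * y₁) ≤ v (x₁ - x₂) := by
      rw [show 2 * y₁ = (y₁ - y₂) + (y₁ + y₂) by ring]
      exact v_add_le s1 s2
    rw [map_mul, h2, one_mul] at e
    exact lt_of_le_of_lt e hc
  have e₁ := eqn hW h₁
  have e₂ := eqn hW h₂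
  have hg : v (x₁ ^ 2 + x₁ * x₂ + x₂ ^ 2 + W.a₂ * (x₁ + x₂) + W.a₄) ≤ v (x₁ - x₂) := by
    have e : (y₁ - y₂) * (y₁ + y₂) =
        (x₁ - x₂) * (x₁ ^ 2 + x₁ * x₂ + x₂ ^ 2 + W.a₂ * (x₁ + x₂) + W.a₄) := by
      linear_combination e₁ - e₂
    have h3 : v ((y₁ - y₂) * (y₁ + y₂)) ≤ v (x₁ - x₂) * v (x₁ - x₂) := v_mul_le s1 s2
    rw [e, map_mul] at h3
    exact le_of_mul_le_mul_left h3 hd0
  apply no_common hW hD hx₁
  · rw [← e₁, map_pow]
    exact pow_lt_one₀ zero_le hy₁ (by norm_num)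
  · rw [show 3 * x₁ ^ 2 + 2 * W.a₂ * x₁ + W.a₄ = (x₁ - x₂) * (2 * x₁ + x₂ + W.a₂) +
      (x₁ ^ 2 + x₁ * x₂ + x₂ ^ 2 + W.a₂ * (x₁ + x₂) + W.a₄) by ring]
    refine lt_of_le_of_lt (v_add_le (r := v (x₁ - x₂)) ?_ hg) hc
    rw [map_mul]
    refine mul_le_of_le_one_right' ?_
    exact v_add_le (v_add_le (v_mul_le_right (v_two v) hx₁) hx₂) hW.a2

/-- `y` is a unit unless `2 P` is in the kernel -/
theorem v_y_unit (hW : IntW v W) (h2 : v 2 = 1) (hD : v W.Δ = 1) {x y : F}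
    (h : W.Nonsingular x y) (hE : ¬ InE v (Affine.Point.some x y h))
    (h2P : ¬ InE v (Affine.Point.some x y h + Affine.Point.some x y h)) : v y = 1 := by
  have hx : v x ≤ 1 := not_lt.1 hE
  refine le_antisymm (int_y hW h hx) ?_
  by_contra hc
  push Not at hc
  have h20 : (2 : F) ≠ 0 := two_ne h2
  by_cases hy : y = W.negY x y
  · apply h2P
    rw [Affine.Point.add_self_of_Y_eq hy]
    exact inE_zero
  rw [Affine.Point.add_self_of_Y_ne hy] at h2P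
  have h2P' : ¬ 1 < v (W.addX x x (W.slope x x y y)) := h2P
  rw [Affine.slope_of_Y_ne rfl hy] at h2P'
  push Not at h2P'
  rw [Affine.addX, Affine.negY, hW.a1, hW.a3] at h2P'
  have hy0 : y ≠ 0 := by
    intro h0
    apply hy
    rw [h0, Affine.negY, hW.a1, hW.a3]; ring
  have e0 : y - (-y - 0 * x - 0) = 2 * y := by ring
  rw [e0] at h2P'
  set l := (3 * x ^ 2 + 2 * W.a₂ * x + W.a₄ - 0 * y) / (2 * y) with hl
  have h3 : v (l ^ 2) ≤ 1 := by
    have e : l ^ 2 = (l ^ 2 + 0 * l - W.a₂ - x - x) + W.a₂ + x + x := by ring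
    rw [e]
    exact v_add_le (v_add_le (v_add_le h2P' hW.a2) hx) hx
  rw [map_pow] at h3
  have h4 : v l ≤ 1 := by
    by_contra hc
    push Not at hc
    exact absurd h3 (not_le.2 (one_lt_pow₀ hc (by norm_num)))
  have h5 : 3 * x ^ 2 + 2 * W.a₂ * x + W.a₄ = l * (2 * y) := by
    rw [hl]
    field_simp
    ring
  apply no_common hW hD hx
  · rw [← eqn hW h, map_pow]
    exact pow_lt_one₀ zero_le hc (by norm_num)
  · rw [h5, map_mul, map_mul, h2, one_mul]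
    exact lt_of_le_of_lt (mul_le_of_le_one_left' h4) hc

end Pool.Agent.MU3.Val
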