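import Pool.Agent.MU3.StV

/-!
# MU3, block V: module R4 (helper18)
-/

set_option autoImplicit false

open WeierstrassCurve Polynomial

namespace Pool.Agent.MU3V

open _root_.MU3 Pool.Agent.MU3A Pool.Agent.MU3B

namespace R418

variable {V : ValuationSubring ℂ}

lemma mulc {a b c d : ℂ} (ha : V.valuation a ≤ 1) (hd : V.valuation d ≤ 1)
    (h1 : V.valuation (a - b) < 1) (h2 : V.valuation (c - d) < 1) :
    V.valuation (a * c - b * d) < 1 := by
  have e : a * c - b * d = a * (c - d) + (a - b) * d := by ring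
  rw [e]
  refine V.valuation.map_add_lt ?_ ?_
  · rw [map_mul]
    exact lt_of_le_of_lt (mul_le_of_le_one_left' ha) h2
  · rw [map_mul]
    exact lt_of_le_of_lt (mul_le_of_le_one_right' hd) h1

lemma prodc (S : Finset ℂ) (f : ℂ → ℂ) (y : ℂ) (hy : V.valuation y ≤ 1)
    (hf : ∀ p ∈ S, V.valuation (f p) ≤ 1) (h : ∀ p ∈ S, V.valuation (f p - y) < 1) :
    V.valuation (∏ p ∈ S, f p) ≤ 1 ∧ V.valuation (∏ p ∈ S, f p - y ^ S.card) < 1 := by
  classical
  induction S using Finset.induction_on with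
  | empty => simp
  | insert a S ha ih =>
    obtain ⟨i1, i2⟩ := ih (fun p hp => hf p (Finset.mem_insert_of_mem hp))
      (fun p hp => h p (Finset.mem_insert_of_mem hp))
    have ha1 := hf a (Finset.mem_insert_self a S)
    rw [Finset.prod_insert ha, Finset.card_insert_of_notMem ha, pow_succ']
    refine ⟨?_, mulc ha1 ?_ (h a (Finset.mem_insert_self a S)) i2⟩
    · rw [map_mul]
      exact mul_le_one' ha1 i1
    · rw [map_pow]
      exact pow_le_one' hy _

lemma frob {q : ℕ} (hq : q.Prime) (hv : V.valuation (q : ℂ) < 1) {a b : ℂ}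
    (ha : V.valuation a ≤ 1) (hb : V.valuation b ≤ 1) :
    V.valuation (a ^ q - b ^ q - (a - b) ^ q) < 1 := by
  obtain ⟨a', rfl⟩ : ∃ a' : V, (a' : ℂ) = a :=
    ⟨⟨a, (ValuationSubring.valuation_le_one_iff _ _).1 ha⟩, rfl⟩
  obtain ⟨b', rfl⟩ : ∃ b' : V, (b' : ℂ) = b :=
    ⟨⟨b, (ValuationSubring.valuation_le_one_iff _ _).1 hb⟩, rfl⟩
  obtain ⟨r, hr⟩ := exists_add_pow_prime_eq hq (a' - b') b'
  have h1 := congrArg (Subtype.val : V → ℂ) hr
  push_cast at h1
  have e : (a' : ℂ) ^ q - (b' : ℂ) ^ q - ((a' : ℂ) - b') ^ q =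
      (q : ℂ) * (((a' - b') * b' * r : V) : ℂ) := by
    push_cast
    have e2 : (a' : ℂ) - b' + b' = a' := by ring
    rw [e2] at h1
    linear_combination h1
  rw [e, map_mul]
  exact lt_of_le_of_lt (mul_le_of_le_one_right'
    ((ValuationSubring.valuation_le_one_iff _ _).2 ((a' - b') * b' * r : V).2)) hv

lemma eqone {a b : ℂ} (hb : V.valuation b = 1) (h : V.valuation (a - b) < 1) :
    V.valuation a = 1 := by
  have e : a = (a - b) + b := by ring
  rw [e, V.valuation.map_add_eq_of_lt_right (by rwa [hb]), hb]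

end R418

open R418 in
theorem tv_R4 (hPOL : Sv_POL) : Sv_R4 := by
  intro A B L Om ξ hc hCM hξ V h2 lam q hq hv hlam H hH hcard hE
  set l : ℂ := emb lam with hl
  have hl0 : l ≠ 0 := emb_ne_zero hc hlam
  have hlL : ∀ u ∈ L.lattice, l * u ∈ L.lattice := fun u hu => hCM.toIsLat.emb_mul_mem hc lam hu
  obtain ⟨hP1, -⟩ := hPOL A B L l H hl0 hlL hH
  -- points of order two
  have ord2 : ∀ w : ℂ, 2 * w ∈ L.lattice → w ∉ L.lattice → ¬ InE1 A B V L w := by
    intro w hw hwL hE1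
    exact hwL (mem_of_nat_mul hc h2 hξ hE1 (n := 2) (by simpa using h2) (by simpa using hw))
  have noL : ∀ w : ℂ, 2 * w ∈ L.lattice → w ∉ L.lattice → l * w ∉ L.lattice := by
    intro w hw hwL h
    obtain ⟨p, hp, h1⟩ := hH.surj w h hwL
    apply hH.ne p hp
    rcases h1 with h1 | h1
    · have h3 := L.lattice.sub_mem hw (L.lattice.add_mem h1 h1)
      have e : 2 * w - (w - p + (w - p)) = 2 * p := by ring
      rwa [e] at h3
    · have h3 := L.lattice.sub_mem (L.lattice.add_mem h1 h1) hw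
      have e : w + p + (w + p) - 2 * w = 2 * p := by ring
      rwa [e] at h3
  have ordl : ∀ w : ℂ, 2 * w ∈ L.lattice → 2 * (l * w) ∈ L.lattice := by
    intro w hw
    have h1 := hlL _ hw
    have e : l * (2 * w) = 2 * (l * w) := by ring
    rwa [e] at h1
  -- the third part
  have third : ∀ w : ℂ, 2 * w ∈ L.lattice → w ∉ L.lattice → ∀ x ∈ V,
      V.valuation ((x - xx A B L w) * (Cp A B L w H).eval x ^ 2 - (x - xx A B L w) ^ q) < 1 := by
    intro w hw hwL x hx
    have hnE := ord2 w hw hwL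
    have hx1 : V.valuation x ≤ 1 := (ValuationSubring.valuation_le_one_iff _ _).2 hx
    have hxw := (int_x hnE).2
    have hy : V.valuation (x - xx A B L w) ≤ 1 := V.valuation.map_sub_le hx1 hxw
    have hCe : (Cp A B L w H).eval x = ∏ p ∈ H, (x - xx A B L (w + p)) := by
      rw [Cp, eval_prod]
      simp
    obtain ⟨i1, i2⟩ := prodc (V := V) H (fun p => x - xx A B L (w + p)) (x - xx A B L w) hy
      (fun p hp => by
        have h3 := (near hc h2 hξ hnE (hE p (hH.mem p hp)) (fun h => hH.ne p hp (by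
          rw [two_mul]
          exact L.lattice.add_mem h h))).1
        exact V.valuation.map_sub_le hx1 (int_x h3).2)
      (fun p hp => by
        have h3 := (near_lt hc h2 hξ hnE (hE p (hH.mem p hp))).1
        have e : x - xx A B L (w + p) - (x - xx A B L w) =
            -(xx A B L (w + p) - xx A B L w) := by ring
        rw [e, Valuation.map_neg]
        exact h3)
    rw [← hCe] at i1 i2
    have hyc : V.valuation ((x - xx A B L w) ^ H.card) ≤ 1 := by
      rw [map_pow]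
      exact pow_le_one' hy _
    have h4 := mulc i1 hyc i2 i2
    have h5 := mulc (a := x - xx A B L w) (b := x - xx A B L w) hy
      (d := (x - xx A B L w) ^ H.card * (x - xx A B L w) ^ H.card) (by
        rw [map_mul]
        exact mul_le_one' hyc hyc) (by rw [sub_self, map_zero]; exact zero_lt_one) h4
    have e1 : (x - xx A B L w) * ((x - xx A B L w) ^ H.card * (x - xx A B L w) ^ H.card) =
        (x - xx A B L w) ^ q := by
      rw [← hcard]
      ring
    rw [e1, ← pow_two] at h5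
    exact h5
  -- the second part
  have second : ∀ w₁ w₂ : ℂ, 2 * w₁ ∈ L.lattice → w₁ ∉ L.lattice → 2 * w₂ ∈ L.lattice →
      w₂ ∉ L.lattice → ∀ x ∈ V,
      V.valuation ((xx A B L (l * w₂) - xx A B L (l * w₁)) *
        (Qp A B L l H).eval x ^ 2 - (xx A B L w₂ - xx A B L w₁) ^ q) < 1 := by
    intro w₁ w₂ a1 a2 b1 b2 x hx
    have h3 := congrArg (fun f : ℂ[X] => f.eval x) (hP1 w₁ w₂ a1 a2 b1 b2)
    simp only [eval_mul, eval_sub, eval_C, eval_X, eval_pow] at h3
    have t1 := third w₁ a1 a2 x hx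
    have t2 := third w₂ b1 b2 x hx
    have hx1 : V.valuation x ≤ 1 := (ValuationSubring.valuation_le_one_iff _ _).2 hx
    have t3 := frob (V := V) hq hv (a := x - xx A B L w₁) (b := x - xx A B L w₂)
      (V.valuation.map_sub_le hx1 (int_x (ord2 w₁ a1 a2)).2)
      (V.valuation.map_sub_le hx1 (int_x (ord2 w₂ b1 b2)).2)
    have e2 : x - xx A B L w₁ - (x - xx A B L w₂) = xx A B L w₂ - xx A B L w₁ := by ring
    rw [e2] at t3
    rw [h3]
    have e : (x - xx A B L w₁) * eval x (Cp A B L w₁ H) ^ 2 -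
        (x - xx A B L w₂) * eval x (Cp A B L w₂ H) ^ 2 - (xx A B L w₂ - xx A B L w₁) ^ q =
        ((x - xx A B L w₁) * eval x (Cp A B L w₁ H) ^ 2 - (x - xx A B L w₁) ^ q) +
        (-((x - xx A B L w₂) * eval x (Cp A B L w₂ H) ^ 2 - (x - xx A B L w₂) ^ q) +
        ((x - xx A B L w₁) ^ q - (x - xx A B L w₂) ^ q - (xx A B L w₂ - xx A B L w₁) ^ q)) := by
      ring
    rw [e]
    exact V.valuation.map_add_lt t1 (V.valuation.map_add_lt (by rwa [Valuation.map_neg]) t3)
  refine ⟨?_, second, third⟩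
  -- the first part
  have hOm := hCM.Om_ne
  have half : ∀ x : OO A B, (¬ ∃ y : OO A B, x = 2 * y) → 2 * (Om * emb x / 2) ∈ L.lattice ∧
      Om * emb x / 2 ∉ L.lattice := by
    intro x hx
    refine ⟨(hCM.mem _).2 ⟨x, by ring⟩, fun h => ?_⟩
    obtain ⟨y, hy⟩ := (hCM.mem _).1 h
    apply hx
    refine ⟨y, emb_inj hc ?_⟩
    have e2 : emb (2 * y) = 2 * emb y := by
      rw [emb_mul hc]
      congr 1
      simpa using emb_natCast hc 2
    rw [e2]
    have h3 : Om * (emb x - 2 * emb y) = 0 := by linear_combination 2 * hy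
    rcases mul_eq_zero.1 h3 with h4 | h4
    · exact absurd h4 hOm
    · exact sub_eq_zero.1 h4
  have two_mul' : ∀ y : OO A B, (2 * y).re = 2 * y.re ∧ (2 * y).im = 2 * y.im := by
    intro y
    rw [two_mul]
    exact ⟨by simp [QuadraticAlgebra.re_add, two_mul], by simp [QuadraticAlgebra.im_add, two_mul]⟩
  have par1 : ∀ (n : ℤ), ¬ ∃ y : OO A B, (⟨1, n⟩ : OO A B) = 2 * y := by
    rintro n ⟨y, hy⟩
    have h3 := congrArg QuadraticAlgebra.re hy
    rw [(two_mul' y).1] at h3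
    have h4 : (1 : ℤ) = 2 * y.re := h3
    omega
  have par2 : ∀ (n : ℤ), ¬ ∃ y : OO A B, (⟨n, 1⟩ : OO A B) = 2 * y := by
    rintro n ⟨y, hy⟩
    have h3 := congrArg QuadraticAlgebra.im hy
    rw [(two_mul' y).2] at h3
    have h4 : (1 : ℤ) = 2 * y.im := h3
    omega
  obtain ⟨a1, a2⟩ := half _ (par1 0)
  obtain ⟨b1, b2⟩ := half _ (par2 0)
  obtain ⟨c1, c2⟩ := half _ (par2 1)
  obtain ⟨d1, d2⟩ := half _ (par2 (-1))
  have ec : Om * emb (⟨0, 1⟩ : OO A B) / 2 + Om * emb (⟨1, 0⟩ : OO A B) / 2 =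
      Om * emb (⟨1, 1⟩ : OO A B) / 2 := by
    simp only [emb]
    push_cast
    ring
  have ed : Om * emb (⟨0, 1⟩ : OO A B) / 2 - Om * emb (⟨1, 0⟩ : OO A B) / 2 =
      Om * emb (⟨-1, 1⟩ : OO A B) / 2 := by
    simp only [emb]
    push_cast
    ring
  rw [← ec] at c1 c2
  rw [← ed] at d1 d2
  generalize Om * emb (⟨1, 0⟩ : OO A B) / 2 = w₁ at a1 a2 c1 c2 d1 d2
  generalize Om * emb (⟨0, 1⟩ : OO A B) / 2 = w₂ at b1 b2 c1 c2 d1 d2
  have u1 : V.valuation (xx A B L w₂ - xx A B L w₁) = 1 :=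
    v_xx_sub hc h2 hξ (ord2 _ b1 b2) (ord2 _ a1 a2) (ord2 _ c1 c2) (ord2 _ d1 d2)
  have u2 : V.valuation (xx A B L (l * w₂) - xx A B L (l * w₁)) = 1 := by
    refine v_xx_sub hc h2 hξ (ord2 _ (ordl _ b1) (noL _ b1 b2)) (ord2 _ (ordl _ a1) (noL _ a1 a2))
      ?_ ?_
    · rw [← mul_add]
      exact ord2 _ (ordl _ c1) (noL _ c1 c2)
    · rw [← mul_sub]
      exact ord2 _ (ordl _ d1) (noL _ d1 d2)
  have h3 := second w₁ w₂ a1 a2 b1 b2 0 (zero_mem V)
  have h4 := eqone (by rw [map_pow, u1, one_pow]) h3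
  rw [map_mul, u2, one_mul, map_pow] at h4
  have h5 : V.valuation ((Qp A B L l H).eval 0) = 1 := (pow_eq_one_iff.1 h4).resolve_right two_ne_zero
  have h6 : (Qp A B L l H).eval 0 = l * ∏ p ∈ H, (-xx A B L p) := by
    rw [Qp, eval_mul, eval_C, eval_prod]
    simp
  rw [h6, map_mul, map_prod] at h5
  simp only [Valuation.map_neg] at h5
  exact h5

end Pool.Agent.MU3V
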