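import Pool.Agent.MU3.StV2

/-!
# MU3, block V: the homomorphism `Gal(F_N / k) → (O/N)ˣ` (helper59)
-/

set_option autoImplicit false

open WeierstrassCurve Polynomial NumberField IsDedekindDomain

namespace Pool.Agent.MU3V

open _root_.MU3 Pool.Agent.MU3A Pool.Agent.MU3B Pool.Agent.MU3C Pool.Agent.RI

noncomputable section

variable {A B : ℤ}

lemma cls_eq_iff {m x y : OO A B} : cls m x = cls m y ↔ m ∣ x - y := by
  unfold cls
  rw [Ideal.Quotient.eq, Ideal.mem_span_singleton]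

lemma cls_mul (m x y : OO A B) : cls m (x * y) = cls m x * cls m y := by
  unfold cls; exact map_mul _ _ _

lemma cls_one (m : OO A B) : cls m 1 = 1 := by
  unfold cls; exact map_one _

lemma cls_out {m : OO A B} (x : OO A B ⧸ Ideal.span {m}) : cls m (Quotient.out x) = x := by
  unfold cls; exact Quotient.out_eq x

lemma act_iff (hACT : Sa_ACT) (h : Case A B) {L : PeriodPair} {Om : ℂ} (hL : IsCM A B L Om)
    {m : OO A B} (hm : m ≠ 0) {F : IntermediateField (kk A B) ℂ} (hF : TF L m ≤ F)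
    {σ : F →ₐ[kk A B] ℂ} {a : OO A B} (ha : Act L σ m a) (x : OO A B) :
    Act L σ m x ↔ cls m a = cls m x := by
  obtain ⟨h1, h2, -⟩ := hACT A B L Om h hL m hm
  rw [cls_eq_iff]
  exact ⟨fun hx => h1 F σ a x hF ha hx, fun hd => h2 F σ a x hd ha⟩

/-- the homomorphism `Gal(F_N / k) → (O/N)ˣ` -/
theorem rho_exists (hACT : Sa_ACT) (hGAL : Sa_GAL) (h : Case A B) {L : PeriodPair} {Om : ℂ}
    (hL : IsCM A B L Om) {N : OO A B} (hN : N ≠ 0) :
    ∃ ρ : (TF L N ≃ₐ[kk A B] TF L N) →* (OO A B ⧸ Ideal.span {N})ˣ, Function.Injective ρ ∧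
      ∀ (σ : TF L N ≃ₐ[kk A B] TF L N) (x : OO A B), Act L (em σ) N x ↔
        ((ρ σ : (OO A B ⧸ Ideal.span {N})ˣ) : OO A B ⧸ Ideal.span {N}) = cls N x := by
  have hb : ∀ σ : TF L N ≃ₐ[kk A B] TF L N, ∃ a, Act L (em σ) N a := fun σ =>
    hGAL A B L Om h hL N hN (TF L N) le_rfl (em σ)
  choose b hb using hb
  obtain ⟨-, -, -, h4, h5, -, h7, -⟩ := hACT A B L Om h hL N hN
  have key : ∀ (σ : TF L N ≃ₐ[kk A B] TF L N) (x : OO A B),
      Act L (em σ) N x ↔ cls N (b σ) = cls N x := fun σ x => act_iff hACT h hL hN le_rfl (hb σ) x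
  let f : (TF L N ≃ₐ[kk A B] TF L N) →* (OO A B ⧸ Ideal.span {N}) :=
    { toFun := fun σ => cls N (b σ)
      map_one' := by
        rw [← cls_one N]
        exact (key 1 1).1 (h7 _ le_rfl)
      map_mul' := fun σ τ => by
        rw [← cls_mul]
        exact (key (σ * τ) _).1 (h4 _ σ τ _ _ le_rfl (hb σ) (hb τ)) }
  refine ⟨MonoidHom.toHomUnits f, ?_, ?_⟩
  · intro σ τ e
    have e1 : cls N (b σ) = cls N (b τ) := congrArg Units.val e
    have e2 : Act L (em τ) N (b σ) := (key τ _).2 e1.symm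
    have e3 := h5 (em σ) (em τ) (b σ) (hb σ) e2
    apply AlgEquiv.ext
    intro x
    have := congrArg (fun g : TF L N →ₐ[kk A B] ℂ => g x) e3
    exact Subtype.ext this
  · intro σ x
    rw [key σ x]
    rfl

end

end Pool.Agent.MU3V
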