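import Pool.Agent.MU3.WK1

/-!
# MU3, block V: `Gal(F_(m lam) / D) ≃ XX(m) × (O/lam)ˣ` (helper59)
-/

set_option autoImplicit false

open WeierstrassCurve Polynomial NumberField IsDedekindDomain

namespace Pool.Agent.MU3V

open _root_.MU3 Pool.Agent.MU3A Pool.Agent.MU3B Pool.Agent.MU3C Pool.Agent.RI

noncomputable section

variable {A B : ℤ}

/-- the automorphisms of `F / k` trivial on `D` -/
def GD {D : IntermediateField ℚ ℂ} (h : kk A B ≤ D) (F : IntermediateField (kk A B) ℂ) :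
    Subgroup (F ≃ₐ[kk A B] F) where
  carrier := {σ | ∀ (y : ℂ) (_ : y ∈ D) (hy : y ∈ F), σ ⟨y, hy⟩ = ⟨y, hy⟩}
  mul_mem' := fun {σ τ} hσ hτ y hD hy => by
    rw [AlgEquiv.mul_apply, hτ y hD hy, hσ y hD hy]
  one_mem' := fun y _ hy => rfl
  inv_mem' := fun {σ} hσ y hD hy => by
    have h1 := congrArg (σ⁻¹ : F ≃ₐ[kk A B] F) (hσ y hD hy)
    rw [← AlgEquiv.mul_apply, inv_mul_cancel, AlgEquiv.one_apply] at h1
    exact h1.symm

lemma mem_GD {D : IntermediateField ℚ ℂ} (h : kk A B ≤ D) {F : IntermediateField (kk A B) ℂ}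
    (σ : F ≃ₐ[kk A B] F) :
    σ ∈ GD h F ↔ Ext1 h (letI := algC h; (1 : D ≃ₐ[kk A B] D)) σ := by
  constructor
  · intro hσ y hy
    exact congrArg Subtype.val (hσ y y.2 hy)
  · intro hσ y hD hy
    exact Subtype.ext (hσ ⟨y, hD⟩ hy)

/-- reduction `O/N → O/m` -/
def rd {m N : OO A B} (hmN : m ∣ N) :
    (OO A B ⧸ Ideal.span {N}) →+* (OO A B ⧸ Ideal.span {m}) :=
  Ideal.Quotient.factor (Ideal.span_singleton_le_span_singleton.2 hmN)

lemma rd_cls {m N : OO A B} (hmN : m ∣ N) (x : OO A B) : rd hmN (cls N x) = cls m x := rfl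

lemma isUnit_cls {m x : OO A B} (hx : IsCoprime x m) : IsUnit (cls m x) := by
  obtain ⟨u, v, e⟩ := hx
  refine IsUnit.of_mul_eq_one (cls m u) ?_
  rw [← cls_mul, ← cls_one m, cls_eq_iff]
  exact ⟨-v, by linear_combination e⟩

lemma coprime_of_isUnit {m x : OO A B} (hx : IsUnit (cls m x)) : IsCoprime x m := by
  obtain ⟨y, hy⟩ := hx.exists_right_inv
  rw [← cls_out y, ← cls_mul, ← cls_one m, cls_eq_iff] at hy
  obtain ⟨c, hc⟩ := hy
  exact ⟨Quotient.out y, -c, by linear_combination hc⟩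

section
variable (hACT : Sa_ACT) (hXXM : Sw_XXM) (hFIB : Sw_FIB)
  (h : Case A B) {L : PeriodPair} {Om : ℂ} (hL : IsCM A B L Om) {m lam : OO A B} (hm : m ≠ 0)
  (hlam : lam ≠ 0) (hmz : mz A B ∣ m) (hcop : IsCoprime m lam)
  {D : IntermediateField ℚ ℂ} (hk : kk A B ≤ D) (hD : Sub D (TF L m))
  {ρ : (TF L (m * lam) ≃ₐ[kk A B] TF L (m * lam)) →* (OO A B ⧸ Ideal.span {m * lam})ˣ}
  (hρi : Function.Injective ρ)
  (hρ : ∀ (σ : TF L (m * lam) ≃ₐ[kk A B] TF L (m * lam)) (x : OO A B), Act L (em σ) (m * lam) x ↔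
        ((ρ σ : (OO A B ⧸ Ideal.span {m * lam})ˣ) : OO A B ⧸ Ideal.span {m * lam}) =
          cls (m * lam) x)

include hXXM hFIB h hL hm hlam hmz hD hρ in
/-- the image of `Gal(F_N / D)` -/
lemma mem_iff_XX [IsDomain (OO A B)] (x : OO A B) :
    (∃ σ ∈ GD hk (TF L (m * lam)), ((ρ σ : (OO A B ⧸ Ideal.span {m * lam})ˣ) :
      OO A B ⧸ Ideal.span {m * lam}) = cls (m * lam) x) ↔
    IsCoprime x (m * lam) ∧ cls m x ∈ XX L m hk (letI := algC hk; (1 : D ≃ₐ[kk A B] D)) := by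
  have hN : m * lam ≠ 0 := mul_ne_zero hm hlam
  rw [← hFIB A B L Om h hL m (m * lam) hm hN hmz (dvd_mul_right _ _) D hk hD,
    hXXM A B L Om h hL (m * lam) hN D hk]
  constructor
  · rintro ⟨σ, h1, h2⟩
    exact ⟨σ, (hρ σ x).2 h2, (mem_GD hk σ).1 h1⟩
  · rintro ⟨σ, h1, h2⟩
    exact ⟨σ, (mem_GD hk σ).2 h2, (hρ σ x).1 h1⟩

include hcop in
lemma dvd_mul_of {x : OO A B} (h1 : m ∣ x) (h2 : lam ∣ x) : m * lam ∣ x := hcop.mul_dvd h1 h2

/-- the map `Gal(F_N / D) → XX(m) × (O/lam)ˣ` -/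
def EE2 (hmem : ∀ σ ∈ GD hk (TF L (m * lam)), rd (dvd_mul_right m lam)
      ((ρ σ : (OO A B ⧸ Ideal.span {m * lam})ˣ) : OO A B ⧸ Ideal.span {m * lam}) ∈
        XX L m hk (letI := algC hk; (1 : D ≃ₐ[kk A B] D)))
    (σ : GD hk (TF L (m * lam))) :
    XX L m hk (letI := algC hk; (1 : D ≃ₐ[kk A B] D)) × (OO A B ⧸ Ideal.span {lam})ˣ :=
  (⟨rd (dvd_mul_right m lam) ((ρ σ.1 : (OO A B ⧸ Ideal.span {m * lam})ˣ) :
      OO A B ⧸ Ideal.span {m * lam}), hmem σ.1 σ.2⟩,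
    Units.map (rd (dvd_mul_left lam m) : (OO A B ⧸ Ideal.span {m * lam}) →*
      (OO A B ⧸ Ideal.span {lam})) (ρ σ.1))

include hXXM hFIB h hL hm hlam hmz hD hρ in
lemma EE2_mem [IsDomain (OO A B)] : ∀ σ ∈ GD hk (TF L (m * lam)), rd (dvd_mul_right m lam)
      ((ρ σ : (OO A B ⧸ Ideal.span {m * lam})ˣ) : OO A B ⧸ Ideal.span {m * lam}) ∈
        XX L m hk (letI := algC hk; (1 : D ≃ₐ[kk A B] D)) := by
  intro σ hσ
  obtain ⟨x, hx⟩ : ∃ x, ((ρ σ : (OO A B ⧸ Ideal.span {m * lam})ˣ) :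
      OO A B ⧸ Ideal.span {m * lam}) = cls (m * lam) x := ⟨_, (cls_out _).symm⟩
  rw [hx, rd_cls]
  exact ((mem_iff_XX hXXM hFIB h hL hm hlam hmz hk hD hρ x).1 ⟨σ, hσ, hx⟩).2

include hXXM hFIB h hL hm hlam hmz hD hρ hcop hρi in
lemma EE2_bij [IsDomain (OO A B)] (hmem : ∀ σ ∈ GD hk (TF L (m * lam)), rd (dvd_mul_right m lam)
      ((ρ σ : (OO A B ⧸ Ideal.span {m * lam})ˣ) : OO A B ⧸ Ideal.span {m * lam}) ∈
        XX L m hk (letI := algC hk; (1 : D ≃ₐ[kk A B] D))) :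
    Function.Bijective (EE2 (L := L) hk (ρ := ρ) hmem) := by
  constructor
  · rintro ⟨σ, hσ⟩ ⟨τ, hτ⟩ e
    obtain ⟨x, hx⟩ : ∃ x, ((ρ σ : (OO A B ⧸ Ideal.span {m * lam})ˣ) :
      OO A B ⧸ Ideal.span {m * lam}) = cls (m * lam) x := ⟨_, (cls_out _).symm⟩
    obtain ⟨y, hy⟩ : ∃ x, ((ρ τ : (OO A B ⧸ Ideal.span {m * lam})ˣ) :
      OO A B ⧸ Ideal.span {m * lam}) = cls (m * lam) x := ⟨_, (cls_out _).symm⟩
    have e1 := congrArg (fun p => (p.1 : OO A B ⧸ Ideal.span {m})) e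
    have e2 := congrArg (fun p => ((p.2 : (OO A B ⧸ Ideal.span {lam})ˣ) :
      OO A B ⧸ Ideal.span {lam})) e
    simp only [EE2, Units.coe_map] at e1 e2
    rw [hx, hy] at e1
    change rd (dvd_mul_left lam m) _ = rd (dvd_mul_left lam m) _ at e2
    rw [hx, hy] at e2
    rw [rd_cls, rd_cls, cls_eq_iff] at e1 e2
    have e3 : ρ σ = ρ τ := by
      apply Units.ext
      rw [hx, hy, cls_eq_iff]
      exact dvd_mul_of hcop e1 e2
    have := hρi e3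
    exact Subtype.ext this
  · rintro ⟨⟨y, hy⟩, r⟩
    obtain ⟨y0, rfl⟩ : ∃ y0, y = cls m y0 := ⟨_, (cls_out _).symm⟩
    obtain ⟨r0, hr⟩ : ∃ r0, (r : OO A B ⧸ Ideal.span {lam}) = cls lam r0 :=
      ⟨_, (cls_out _).symm⟩
    obtain ⟨u, v, e⟩ := id hcop
    set x := r0 * (u * m) + y0 * (v * lam) with hx
    have h1 : m ∣ x - y0 := ⟨u * (r0 - y0), by rw [hx]; linear_combination y0 * e⟩
    have h2 : lam ∣ x - r0 := ⟨v * (y0 - r0), by rw [hx]; linear_combination r0 * e⟩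
    have hy0 : IsCoprime y0 m := by
      obtain ⟨σ, hσ, -⟩ := (hXXM A B L Om h hL m hm D hk _ _).1 hy
      exact hσ.1
    have c1 : IsCoprime x m := by
      apply coprime_of_isUnit
      rw [(cls_eq_iff).2 h1]
      exact isUnit_cls hy0
    have c2 : IsCoprime x lam := by
      apply coprime_of_isUnit
      rw [(cls_eq_iff).2 h2, ← hr]
      exact r.isUnit
    obtain ⟨σ, hσ, hσx⟩ := (mem_iff_XX hXXM hFIB h hL hm hlam hmz hk hD hρ x).2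
      ⟨c1.mul_right c2, by rwa [(cls_eq_iff).2 h1]⟩
    refine ⟨⟨σ, hσ⟩, Prod.ext (Subtype.ext ?_) (Units.ext ?_)⟩
    · show rd (dvd_mul_right m lam) _ = _
      rw [hσx, rd_cls]
      exact (cls_eq_iff).2 h1
    · show rd (dvd_mul_left lam m) _ = _
      rw [hσx, rd_cls, hr]
      exact (cls_eq_iff).2 h2

end

end

end Pool.Agent.MU3V
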