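import Pool.Agent.MU3.WK2

/-!
# MU3, block V: products over `Gal(F_(m lam) / D)` (helper59)
-/

set_option autoImplicit false

open WeierstrassCurve Polynomial NumberField IsDedekindDomain

namespace Pool.Agent.MU3V

open _root_.MU3 Pool.Agent.MU3A Pool.Agent.MU3B Pool.Agent.MU3C Pool.Agent.RI

noncomputable section

/-! ### Abstract products -/

lemma prod_all_abs {G X U : Type*} [Group G] [Group U] [Finite X] [Finite U]
    (a : G → X) (b : G → U) (hbij : Function.Bijective (fun g => (a g, b g)))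
    (f : X → U → ℂ) : ∏ᶠ σ : G, f (a σ) (b σ) = ∏ᶠ x : X, ∏ᶠ u : U, f x u := by
  classical
  have e1 : ∏ᶠ σ : G, f (a σ) (b σ) = ∏ᶠ p : X × U, f p.1 p.2 :=
    finprod_eq_of_bijective (fun g => (a g, b g)) hbij (fun _ => rfl)
  have : Fintype X := Fintype.ofFinite X
  have : Fintype U := Fintype.ofFinite U
  rw [e1, finprod_eq_prod_of_fintype, Fintype.prod_prod_type, finprod_eq_prod_of_fintype]
  refine Finset.prod_congr rfl fun x _ => ?_
  rw [finprod_eq_prod_of_fintype]

lemma prod_ker_abs {G X U : Type*} [Group G] [Group U] [Finite X] [Finite U]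
    (a : G → X) (b : G →* U) (hbij : Function.Bijective (fun g => (a g, b g)))
    (ψ : U →* Multiplicative (ZMod 3)) (hψ : Function.Surjective ψ) (g : X → ℂ) :
    ∏ᶠ σ : (ψ.comp b).ker, g (a σ) = (∏ᶠ x : X, g x) ^ (Nat.card U / 3) := by
  classical
  have hcard : Nat.card U = Nat.card ψ.ker * 3 := by
    have h1 := Subgroup.card_mul_index ψ.ker
    rw [Subgroup.index_ker, MonoidHom.range_eq_top.2 hψ] at h1
    rw [← h1]
    congr 1
    rw [Subgroup.card_top, Nat.card_congr Multiplicative.toAdd, Nat.card_zmod]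
  have : Fintype X := Fintype.ofFinite X
  have : Fintype U := Fintype.ofFinite U
  have : Fintype ψ.ker := Fintype.ofFinite _
  have e1 : ∏ᶠ σ : (ψ.comp b).ker, g (a σ) = ∏ᶠ p : X × ψ.ker, g p.1 := by
    refine finprod_eq_of_bijective (fun σ => (a σ, (⟨b σ, σ.2⟩ : ψ.ker))) ⟨?_, ?_⟩ (fun _ => rfl)
    · intro σ τ e
      have h1 := congrArg (fun p => p.1) e
      have h2 := congrArg (fun p => (p.2 : U)) e
      exact Subtype.ext (hbij.1 (Prod.ext h1 h2))
    · rintro ⟨x, ⟨u, hu⟩⟩
      obtain ⟨σ, hσ⟩ := hbij.2 (x, u)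
      have h1 : a σ = x := congrArg (fun p => p.1) hσ
      have h2 : b σ = u := congrArg (fun p => p.2) hσ
      refine ⟨⟨σ, ?_⟩, ?_⟩
      · show ψ (b σ) = 1
        rw [h2]; exact hu
      · exact Prod.ext h1 (Subtype.ext h2)
  rw [e1, finprod_eq_prod_of_fintype, Fintype.prod_prod_type, finprod_eq_prod_of_fintype,
    hcard, Nat.mul_div_cancel _ (by norm_num), ← Finset.prod_pow]
  refine Finset.prod_congr rfl fun x _ => ?_
  show ∏ _y : ψ.ker, g x = _
  rw [Finset.prod_const, Finset.card_univ, ← Nat.card_eq_fintype_card]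

/-! ### The residue field of `lam` -/

variable {A B : ℤ}

lemma card_quot (hDEG : Sv_DEG1) (h : Case A B) {lam : OO A B} {q : ℕ} (hq : q.Prime)
    (hlam : nm lam = q) : Nat.card (OO A B ⧸ Ideal.span {lam}) = q := by
  obtain ⟨h1, h2, h3⟩ := hDEG A B h lam q hq hlam
  have : NeZero q := ⟨hq.ne_zero⟩
  let f : ℤ →+* (OO A B ⧸ Ideal.span {lam}) := Int.castRingHom _
  have hf : ∀ n : ℤ, f n = cls lam (n : OO A B) := fun n => by
    simp only [f, eq_intCast, cls, map_intCast]
  have hsurj : Function.Surjective f := by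
    intro x
    obtain ⟨n, hn⟩ := h1 (Quotient.out x)
    refine ⟨n, ?_⟩
    rw [hf, ← cls_out x, cls_eq_iff]
    have := dvd_neg.2 hn
    rwa [neg_sub] at this
  have hker : RingHom.ker f = Ideal.span {(q : ℤ)} := by
    ext n
    rw [RingHom.mem_ker, hf, Ideal.mem_span_singleton]
    constructor
    · intro hn
      refine h3 n ?_
      have : cls lam (n : OO A B) = cls lam 0 := by rw [hn]; unfold cls; exact (map_zero _).symm
      rw [cls_eq_iff, sub_zero] at this
      exact this
    · rintro ⟨c, rfl⟩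
      have : cls lam (((q : ℤ) * c : ℤ) : OO A B) = cls lam 0 := by
        rw [cls_eq_iff, sub_zero]
        push_cast
        exact dvd_mul_of_dvd_left h2 _
      rw [this]; unfold cls; exact map_zero _
  rw [← Nat.card_congr (RingHom.quotientKerEquivOfSurjective hsurj).toEquiv, hker,
    Nat.card_congr (Int.quotientSpanNatEquivZMod q).toEquiv, Nat.card_zmod]

lemma card_units (hDEG : Sv_DEG1) (hPID : Sa_PID) (h : Case A B) {lam : OO A B} {q : ℕ}
    (hq : q.Prime) (hlam : nm lam = q) :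
    IsField (OO A B ⧸ Ideal.span {lam}) ∧ Finite (OO A B ⧸ Ideal.span {lam}) ∧
    IsCyclic (OO A B ⧸ Ideal.span {lam})ˣ ∧ Nat.card (OO A B ⧸ Ideal.span {lam})ˣ = q - 1 := by
  obtain ⟨hdom, hpir, -, -, -, -, -, -, -, hpr⟩ := hPID A B h
  have hp : Prime lam := hpr lam (by rw [hlam]; simpa using hq)
  have hmax : (Ideal.span {lam}).IsMaximal :=
    PrincipalIdealRing.isMaximal_of_irreducible hp.irreducible
  have hfin : Finite (OO A B ⧸ Ideal.span {lam}) := by
    apply Nat.finite_of_card_ne_zero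
    rw [card_quot hDEG h hq hlam]
    exact hq.ne_zero
  letI := Ideal.Quotient.field (Ideal.span {lam})
  refine ⟨Field.toIsField _, hfin, inferInstance, ?_⟩
  have := Nat.card_units (OO A B ⧸ Ideal.span {lam})
  rw [this, card_quot hDEG h hq hlam]

/-- a cubic character -/
lemma exists_psi {U : Type*} [Group U] [Finite U] [IsCyclic U] (h3 : 3 ∣ Nat.card U) :
    ∃ ψ : U →* Multiplicative (ZMod 3), Function.Surjective ψ := by
  obtain ⟨g, hg⟩ := IsCyclic.exists_generator (α := U)
  have hord : orderOf g = Nat.card U := orderOf_eq_card_of_forall_mem_zpowers hg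
  have : NeZero (Nat.card U) := ⟨Nat.card_pos.ne'⟩
  let e : U ≃* Multiplicative (ZMod (Nat.card U)) := (zmodCyclicMulEquiv ‹IsCyclic U›).symm
  let c : ZMod (Nat.card U) →+ ZMod 3 := (ZMod.castHom h3 (ZMod 3)).toAddMonoidHom
  refine ⟨(AddMonoidHom.toMultiplicative c).comp e.toMonoidHom, ?_⟩
  intro x
  obtain ⟨y, hy⟩ := ZMod.castHom_surjective h3 (Multiplicative.toAdd x)
  obtain ⟨u, hu⟩ := e.surjective (Multiplicative.ofAdd y)
  refine ⟨u, ?_⟩
  show Multiplicative.ofAdd (c (Multiplicative.toAdd (e u))) = x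
  rw [hu]
  show Multiplicative.ofAdd (c y) = x
  have : c y = Multiplicative.toAdd x := hy
  rw [this]
  rfl

end

end Pool.Agent.MU3V
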