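import Pool.Agent.MU3.WK3

/-!
# MU3, block V: values of `Θ_a` and the norm from `F_(m lam)` to `D` (helper59)
-/

set_option autoImplicit false

open WeierstrassCurve Polynomial NumberField IsDedekindDomain

namespace Pool.Agent.MU3V

open _root_.MU3 Pool.Agent.MU3A Pool.Agent.MU3B Pool.Agent.MU3C Pool.Agent.RI

noncomputable section

variable {A B : ℤ}

section
variable (h : Case A B) {L : PeriodPair} {Om : ℂ} (hL : IsCM A B L Om) {m lam : OO A B}
  (hm : m ≠ 0) (hlam : lam ≠ 0) (hcop : IsCoprime m lam) (hu : ¬ IsUnit lam)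
  {a : ℤ} {H : Finset ℂ} (hH : IsHalf L a H)

include hL in
lemma theta_cong (hTIN : St_TIN) (hH : IsHalf L a H) {z z' : ℂ} (hz : z - z' ∈ L.lattice) :
    ThetaH L H z = ThetaH L H z' := by
  have := (hTIN L a H H hH hH).2.2 z' (z - z') hz
  rwa [add_sub_cancel] at this

include h hL hm in
lemma emb_div_mem {x y : OO A B} : emb x * (Om / emb m) - emb y * (Om / emb m) ∈ L.lattice ↔
    m ∣ x - y := by
  rw [← sub_mul, ← emb_sub h]
  exact hL.mul_div_mem_iff h hm _

include h hL hm hlam hcop hu in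
lemma z0_notMem (s : OO A B) : emb s * (Om / emb m) + (Om / emb lam) ∉ L.lattice := by
  intro hz
  have h1 := hL.emb_mul_mem h m hz
  have hm0 := emb_ne_zero h hm
  have h2 : emb m * (emb s * (Om / emb m) + (Om / emb lam)) = Om * emb s + emb m * (Om / emb lam) := by
    field_simp
  rw [h2] at h1
  have h3 : Om * emb s ∈ L.lattice := (hL.mem _).2 ⟨s, rfl⟩
  have h4 := sub_mem h1 h3
  rw [add_sub_cancel_left] at h4
  have h5 := (hL.mul_div_mem_iff h hlam m).1 h4
  exact hu (hcop.symm.isUnit_of_dvd' dvd_rfl h5)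

include h hL hm hlam in
lemma z0_tors (s t : OO A B) : emb (m * lam) * (emb s * (Om / emb m) + emb t * (Om / emb lam)) ∈
    L.lattice := by
  have hm0 := emb_ne_zero h hm
  have hl0 := emb_ne_zero h hlam
  refine (hL.mem _).2 ⟨lam * s + m * t, ?_⟩
  rw [emb_add h, emb_mul h, emb_mul h, emb_mul h]
  field_simp

include h hL hm hlam hH in
/-- Galois action on a value of `Θ_a` -/
lemma theta_sigma (hTHG : Sw_THG) (hTIN : St_TIN) (ha : a ≠ 0) [IsDomain (OO A B)] (s t : OO A B)
    (hz : emb s * (Om / emb m) + emb t * (Om / emb lam) ∉ L.lattice)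
    {ρ : (TF L (m * lam) ≃ₐ[kk A B] TF L (m * lam)) →* (OO A B ⧸ Ideal.span {m * lam})ˣ}
    (hρ : ∀ (σ : TF L (m * lam) ≃ₐ[kk A B] TF L (m * lam)) (x : OO A B),
      Act L (em σ) (m * lam) x ↔ ((ρ σ : (OO A B ⧸ Ideal.span {m * lam})ˣ) :
        OO A B ⧸ Ideal.span {m * lam}) = cls (m * lam) x)
    (σ : TF L (m * lam) ≃ₐ[kk A B] TF L (m * lam))
    (hmem : ThetaH L H (emb s * (Om / emb m) + emb t * (Om / emb lam)) ∈ TF L (m * lam)) :
    (σ ⟨_, hmem⟩ : ℂ) = ThetaH L H
      (emb (s * Quotient.out (rd (dvd_mul_right m lam) ((ρ σ : (OO A B ⧸ Ideal.span {m * lam})ˣ) :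
        OO A B ⧸ Ideal.span {m * lam}))) * (Om / emb m) +
      emb (t * Quotient.out (rd (dvd_mul_left lam m) ((ρ σ : (OO A B ⧸ Ideal.span {m * lam})ˣ) :
        OO A B ⧸ Ideal.span {m * lam}))) * (Om / emb lam)) := by
  have hN : m * lam ≠ 0 := mul_ne_zero hm hlam
  obtain ⟨hz1, hz2⟩ := hTHG A B L Om h hL (m * lam) hN a H ha hH _
    (z0_tors h hL hm hlam s t) hz
  set x := Quotient.out ((ρ σ : (OO A B ⧸ Ideal.span {m * lam})ˣ) :
    OO A B ⧸ Ideal.span {m * lam}) with hx
  have hx1 : ((ρ σ : (OO A B ⧸ Ideal.span {m * lam})ˣ) : OO A B ⧸ Ideal.span {m * lam}) =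
      cls (m * lam) x := (cls_out _).symm
  have hx2 : Act L (em σ) (m * lam) x := (hρ σ x).2 hx1
  have e1 : (σ ⟨_, hmem⟩ : ℂ) = ThetaH L H (emb x * (emb s * (Om / emb m) +
      emb t * (Om / emb lam))) := hz2 (em σ) x hx2
  rw [e1]
  refine theta_cong hL hTIN hH ?_
  rw [hx1, rd_cls, rd_cls]
  have d1 : m ∣ x * s - s * Quotient.out (cls m x) := by
    have : m ∣ x - Quotient.out (cls m x) := cls_eq_iff.1 (cls_out _).symm
    have h2 := this.mul_left s
    rwa [mul_sub, mul_comm s x] at h2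
  have d2 : lam ∣ x * t - t * Quotient.out (cls lam x) := by
    have : lam ∣ x - Quotient.out (cls lam x) := cls_eq_iff.1 (cls_out _).symm
    have h2 := this.mul_left t
    rwa [mul_sub, mul_comm t x] at h2
  have m1 := (emb_div_mem h hL hm).2 d1
  have m2 := (emb_div_mem h hL hlam).2 d2
  have := add_mem m1 m2
  convert this using 1
  rw [emb_mul h x s, emb_mul h x t]
  ring

/-! ### The fibre product -/

include h hL hm hlam hcop hu hH in
lemma fibre (hDISI : Sw_DISI) (hTIN : St_TIN) (ha : a ≠ 0) (hcl : IsCoprime (a : OO A B) lam)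
    (hcm : IsCoprime (a : OO A B) m) (hmu : ¬ IsUnit m)
    (hf : IsField (OO A B ⧸ Ideal.span {lam})) [Finite (OO A B ⧸ Ideal.span {lam})] :
    ∃ C ∈ kk A B, C ≠ 0 ∧ ∀ y : OO A B, IsCoprime y m →
      (∏ᶠ r : (OO A B ⧸ Ideal.span {lam})ˣ, ThetaH L H (emb y * (Om / emb m) +
        emb (Quotient.out (r : OO A B ⧸ Ideal.span {lam})) * (Om / emb lam))) *
          ThetaH L H (emb y * (Om / emb m)) =
        C * ThetaH L H (emb (lam * y) * (Om / emb m)) := by
  classical
  obtain ⟨C, hC, hC0, hC2⟩ := hDISI A B L Om h hL lam hlam a H ha hcl hH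
  refine ⟨C, hC, hC0, fun y hy => ?_⟩
  set z := emb y * (Om / emb m) with hz
  have hz1 : emb lam * a * z ∉ L.lattice := by
    have e : emb lam * a * z = emb (lam * (a : OO A B) * y) * (Om / emb m) := by
      rw [emb_mul h, emb_mul h, emb_intCast h, hz]; ring
    rw [e, hL.mul_div_mem_iff h hm]
    intro hd
    have c1 : IsCoprime (lam * (a : OO A B) * y) m := (hcop.symm.mul_left hcm).mul_left hy
    exact hmu (c1.symm.isUnit_of_dvd' dvd_rfl hd)
  have e2 := hC2 z hz1
  have e3 : emb (lam * y) * (Om / emb m) = emb lam * z := by rw [emb_mul h, hz]; ring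
  rw [e3, ← e2]
  have : Fintype (OO A B ⧸ Ideal.span {lam}) := Fintype.ofFinite _
  have : Fintype (OO A B ⧸ Ideal.span {lam})ˣ := Fintype.ofFinite _
  rw [finprod_eq_prod_of_fintype, finprod_eq_prod_of_fintype]
  set F : (OO A B ⧸ Ideal.span {lam}) → ℂ := fun t =>
    ThetaH L H (z + emb (Quotient.out t) * (Om / emb lam)) with hF
  have f0 : F 0 = ThetaH L H z := by
    refine theta_cong hL hTIN hH ?_
    rw [add_sub_cancel_left, hL.mul_div_mem_iff h hlam]
    have : cls lam (Quotient.out (0 : OO A B ⧸ Ideal.span {lam})) = cls lam 0 := by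
      rw [cls_out]; unfold cls; exact (map_zero _).symm
    rw [cls_eq_iff, sub_zero] at this
    exact this
  have e4 : ∏ t, F t = (∏ r : (OO A B ⧸ Ideal.span {lam})ˣ, F (r : OO A B ⧸ Ideal.span {lam})) * F 0 := by
    rw [← Finset.prod_erase_mul Finset.univ F (Finset.mem_univ 0)]
    congr 1
    refine (Finset.prod_bij (fun (r : (OO A B ⧸ Ideal.span {lam})ˣ) _ =>
      (r : OO A B ⧸ Ideal.span {lam})) ?_ ?_ ?_ ?_).symm
    · intro r _
      rw [Finset.mem_erase]
      refine ⟨fun h0 => ?_, Finset.mem_univ _⟩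
      obtain ⟨x, y, hxy⟩ := hf.exists_pair_ne
      have h1 := r.mul_inv
      rw [h0, zero_mul] at h1
      exact hxy (by rw [← one_mul x, ← h1, zero_mul, ← one_mul y, ← h1, zero_mul])
    · intro r _ s _ e
      exact Units.ext e
    · intro t ht
      obtain ⟨s, hs⟩ := hf.mul_inv_cancel (Finset.ne_of_mem_erase ht)
      exact ⟨⟨t, s, hs, by rw [mul_comm]; exact hs⟩, Finset.mem_univ _, rfl⟩
    · intro r _; rfl
  rw [← f0]
  exact e4.symm

end

end

end Pool.Agent.MU3V
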