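import Pool.Agent.MU3.WK4

/-!
# MU3, block V: the norm of `Θ_a(u + u')` from `F_(m lam)` to `D` is in `k` (helper59)
-/

set_option autoImplicit false

open WeierstrassCurve Polynomial NumberField IsDedekindDomain

namespace Pool.Agent.MU3V

open _root_.MU3 Pool.Agent.MU3A Pool.Agent.MU3B Pool.Agent.MU3C Pool.Agent.RI

noncomputable section

variable {A B : ℤ}

section
variable (h : Case A B) {L : PeriodPair} {Om : ℂ} (hL : IsCM A B L Om) {m lam : OO A B}
  (hm : m ≠ 0) (hlam : lam ≠ 0) (hcop : IsCoprime m lam) (hu : ¬ IsUnit lam)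
  {a : ℤ} {H : Finset ℂ} (hH : IsHalf L a H)
  {D : IntermediateField ℚ ℂ} (hk : kk A B ≤ D) (hD : Sub D (TF L m))

include h hL hm hD in
/-- multiplication by an element of `XX .. 1` permutes `XX .. 1` -/
lemma perm_XX (hXXM : Sw_XXM) (hXXG : Sw_XXG)
    [Finite (XX L m hk (letI := algC hk; (1 : D ≃ₐ[kk A B] D)))] {e' : OO A B}
    (he : cls m e' ∈ XX L m hk (letI := algC hk; (1 : D ≃ₐ[kk A B] D))) :
    ∃ T : XX L m hk (letI := algC hk; (1 : D ≃ₐ[kk A B] D)) →
        XX L m hk (letI := algC hk; (1 : D ≃ₐ[kk A B] D)),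
      Function.Bijective T ∧ ∀ y, ((T y : XX L m hk _) : OO A B ⧸ Ideal.span {m}) =
        cls m e' * (y : OO A B ⧸ Ideal.span {m}) := by
  obtain ⟨σ, hσ, hσ1⟩ := (hXXM A B L Om h hL m hm D hk _ e').1 he
  letI := algC hk
  have key : ∀ y ∈ XX L m hk (1 : D ≃ₐ[kk A B] D), cls m e' * y ∈
      XX L m hk (1 : D ≃ₐ[kk A B] D) := by
    intro y hy
    have h1 := ((hXXG A B L Om h hL m hm D hk hD).2.2.1 σ e' (Quotient.out y) 1 1 hσ hσ1).1
      (by rwa [cls_out])
    rwa [mul_one, cls_mul, cls_out] at h1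
  refine ⟨fun y => ⟨_, key y y.2⟩, ?_, fun y => rfl⟩
  apply Finite.injective_iff_bijective.1
  intro y y' e
  have e1 : cls m e' * (y : OO A B ⧸ Ideal.span {m}) = cls m e' * (y' : OO A B ⧸ Ideal.span {m}) :=
    congrArg Subtype.val e
  exact Subtype.ext ((isUnit_cls hσ.1).mul_left_cancel e1)

include h hL hm hlam hcop hu hH hD in
/-- the norm of `Θ_a(u + u')` is in `k` -/
theorem norm_k (hXXM : Sw_XXM) (hXXG : Sw_XXG) (hDISI : Sw_DISI) (hTIN : St_TIN) (hTNZ : St_TNZ)
    (ha : a ≠ 0) (hcl : IsCoprime (a : OO A B) lam)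
    (hcm : IsCoprime (a : OO A B) m) (hmu : ¬ IsUnit m)
    (hf : IsField (OO A B ⧸ Ideal.span {lam})) [Finite (OO A B ⧸ Ideal.span {lam})]
    [Finite (XX L m hk (letI := algC hk; (1 : D ≃ₐ[kk A B] D)))]
    (hXX : cls m lam ∈ XX L m hk (letI := algC hk; (1 : D ≃ₐ[kk A B] D)) ∨
      cls m (-lam) ∈ XX L m hk (letI := algC hk; (1 : D ≃ₐ[kk A B] D))) :
    ∃ C ∈ kk A B, C ≠ 0 ∧ (∏ᶠ y : XX L m hk (letI := algC hk; (1 : D ≃ₐ[kk A B] D)),
      ∏ᶠ r : (OO A B ⧸ Ideal.span {lam})ˣ,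
        ThetaH L H (emb (Quotient.out (y : OO A B ⧸ Ideal.span {m})) * (Om / emb m) +
        emb (Quotient.out (r : OO A B ⧸ Ideal.span {lam})) * (Om / emb lam))) = C := by
  classical
  obtain ⟨C, hC, hC0, hfib⟩ := fibre h hL hm hlam hcop hu hH hDISI hTIN ha hcl hcm hmu hf
  have : Fintype (XX L m hk (letI := algC hk; (1 : D ≃ₐ[kk A B] D))) := Fintype.ofFinite _
  set X := XX L m hk (letI := algC hk; (1 : D ≃ₐ[kk A B] D)) with hX
  have hyc : ∀ y ∈ X, IsCoprime (Quotient.out y) m := by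
    intro y hy
    have h1 : cls m (Quotient.out y) ∈ X := by rwa [cls_out]
    obtain ⟨σ, hσ, -⟩ := (hXXM A B L Om h hL m hm D hk _ _).1 h1
    exact hσ.1
  set g : X → ℂ := fun y => ThetaH L H (emb (Quotient.out (y : OO A B ⧸ Ideal.span {m})) *
    (Om / emb m)) with hg
  set g' : X → ℂ := fun y => ThetaH L H (emb (lam * Quotient.out (y : OO A B ⧸ Ideal.span {m})) *
    (Om / emb m)) with hg'
  have hg0 : ∀ y : X, g y ≠ 0 := by
    intro y h0
    have hz : emb (Quotient.out (y : OO A B ⧸ Ideal.span {m})) * (Om / emb m) ∉ L.lattice := by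
      rw [hL.mul_div_mem_iff h hm]
      intro hd
      exact hmu ((hyc y y.2).symm.isUnit_of_dvd' dvd_rfl hd)
    have h1 := (hTNZ L a H (fun w hw => by
      have := hL.emb_mul_mem h (a : OO A B) hw
      rwa [emb_intCast h] at this) hH _ hz).1 h0
    have e : (a : ℂ) * (emb (Quotient.out (y : OO A B ⧸ Ideal.span {m})) * (Om / emb m)) =
        emb ((a : OO A B) * Quotient.out (y : OO A B ⧸ Ideal.span {m})) * (Om / emb m) := by
      rw [emb_mul h, emb_intCast h]; ring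
    rw [e, hL.mul_div_mem_iff h hm] at h1
    exact hmu ((hcm.mul_left (hyc y y.2)).symm.isUnit_of_dvd' dvd_rfl h1)
  -- the permutation
  have hperm : ∏ y, g' y = ∏ y, g y := by
    rcases hXX with he | he
    · obtain ⟨T, hT, hT2⟩ := perm_XX h hL hm hk hD hXXM hXXG he
      rw [← Function.Bijective.prod_comp hT g]
      refine Finset.prod_congr rfl fun y _ => ?_
      refine theta_cong hL hTIN hH ?_
      rw [emb_div_mem h hL hm, ← cls_eq_iff, cls_out]
      rw [hT2, cls_mul, cls_out]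
    · obtain ⟨T, hT, hT2⟩ := perm_XX h hL hm hk hD hXXM hXXG he
      rw [← Function.Bijective.prod_comp hT g]
      refine Finset.prod_congr rfl fun y _ => ?_
      have hev := (hTIN L a H H hH hH).2.1
      show ThetaH L H _ = ThetaH L H _
      rw [← hev (emb (lam * Quotient.out (y : OO A B ⧸ Ideal.span {m})) * (Om / emb m)),
        ← neg_mul, ← emb_neg h]
      refine theta_cong hL hTIN hH ?_
      rw [emb_div_mem h hL hm, ← cls_eq_iff, cls_out]
      rw [hT2, ← neg_mul, cls_mul, cls_out]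
  set f : X → ℂ := fun y => ∏ᶠ r : (OO A B ⧸ Ideal.span {lam})ˣ,
        ThetaH L H (emb (Quotient.out (y : OO A B ⧸ Ideal.span {m})) * (Om / emb m) +
        emb (Quotient.out (r : OO A B ⧸ Ideal.span {lam})) * (Om / emb lam)) with hfd
  have e1 : (∏ y, f y) * ∏ y, g y = C ^ Fintype.card X * ∏ y, g' y := by
    rw [← Finset.prod_mul_distrib, ← Finset.card_univ, ← Finset.prod_const,
      ← Finset.prod_mul_distrib]
    exact Finset.prod_congr rfl fun y _ => hfib _ (hyc y y.2)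
  rw [hperm] at e1
  have e2 := mul_right_cancel₀ (Finset.prod_ne_zero_iff.2 fun y _ => hg0 y) e1
  refine ⟨C ^ Fintype.card X, pow_mem hC _, pow_ne_zero _ hC0, ?_⟩
  rw [finprod_eq_prod_of_fintype]
  exact e2

end

end

end Pool.Agent.MU3V
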