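import Mathlib
import Pool.Agent.RI.Defs

/-!
# MU3: definitions for the main theorem

`torsionField s a b c` is the subfield of `ℂ` generated by `s` and by the coordinates of all points
of finite order of the elliptic curve `y² = x³ + a x² + b x + c`.
-/

set_option autoImplicit false

namespace Pool.Agent.MU3Z

/-- The curve `y² = x³ + a x² + b x + c` over the complex numbers. -/
def curve (a b c : ℂ) : WeierstrassCurve ℂ := ⟨0, a, 0, b, c⟩

/-- The subfield of `ℂ` generated by `s` and the coordinates `x`, `y` of the points of finite order
of the curve `y² = x³ + a x² + b x + c`. -/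
noncomputable def torsionField (s a b c : ℂ) : IntermediateField ℚ ℂ :=
  IntermediateField.adjoin ℚ ({s} ∪ {t : ℂ | ∃ (x y : ℂ)
    (h : (curve a b c).toAffine.Nonsingular x y),
    IsOfFinAddOrder (WeierstrassCurve.Affine.Point.some x y h) ∧ (t = x ∨ t = y)})

/-- The complex number `√-m`. -/
noncomputable def rt (m : ℕ) : ℂ := Complex.I * (Real.sqrt m : ℝ)

end Pool.Agent.MU3Z
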