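import Pool.Agent.MU3.ZMain
import Pool.Agent.MU3.EAll
import Pool.Agent.MU3.FTMain
import Pool.Agent.MU3.Q_ALL
import Pool.Agent.MU3.H_ALB
import Pool.Agent.MU3.H_BD
import Pool.Agent.MU3.H_CHI
import Pool.Agent.MU3.H_FLD
import Pool.Agent.MU3.H_H1
import Pool.Agent.MU3.H_H2
import Pool.Agent.MU3.H_H5
import Pool.Agent.MU3.H_HF
import Pool.Agent.MU3.H_HK
import Pool.Agent.MU3.H_HZ
import Pool.Agent.MU3.H_MAX
import Pool.Agent.MU3.H_MD
import Pool.Agent.MU3.H_QS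
import Pool.Agent.MU3.H_STP
import Pool.Agent.MU3.H_VAL

/-!
# MU3: the main theorem, without hypotheses

Project MU3, architects helper36 (G, I, Z), helper6 (K), helper34 (A), helper59 (V, W), helper87 (B, P),
helper51 (D), helper3 (N), helper66 (E), helper27 (F, H), helper40 (FT), helper58 (Q), helper77 (A2),
helper80 (KIN, I2), and the authors of the modules.
-/

set_option autoImplicit false

namespace Pool.Agent.MU3Z

open _root_.MU3 Pool.Agent.MU3 Pool.Agent.MU3A Pool.Agent.MU3B Pool.Agent.MU3C Pool.Agent.RI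
  Pool.Agent.RID Pool.Agent.MU3I Pool.Agent.MU3G Pool.Agent.MU3X Pool.Agent.MU3H

theorem y_HP : St_HP :=
  t_HP a_NRM a_GAL a_ACT a_CYC a_XI a_EQN a_FR3 a_INT e_PPI e_RAM e_COP w_DIF (t_G6a t_G0) a_PID

theorem y_FT : St_FT := Pool.Agent.MU3T.main_StFT

/-- Theorem G -/
theorem y_GFIN : St_GFIN := z_GFIN Pool.Agent.MU3Q.wq y_HP y_FT

theorem y_VAL : Sh_VAL := th_VAL Pool.Agent.MU3F.f_ALG

theorem y_FLD : Sh_FLD := th_FLD Pool.Agent.MU3F.f_ALG y_HP z_F6 a_INT y_VAL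

theorem y_CHI : Sh_CHI := th_CHI Pool.Agent.MU3F.f_ALG Pool.Agent.MU3F.f_F3 y_VAL

theorem y_BD : Sh_BD := th_BD y_FLD th_MAX th_ALB y_VAL Pool.Agent.MU3F.f_F7 y_FT

theorem y_H1 : Sh_H1 :=
  th_H1 Pool.Agent.MU3F.f_ALG y_VAL Pool.Agent.MU3F.f_GSS Pool.Agent.MU3F.f_F8 y_GFIN

theorem y_H2 : Sh_H2 := th_H2 z_KM2 y_H1 y_CHI th_HK y_BD y_FT y_VAL

/-- block H -/
theorem y_HFIN : St_HFIN :=
  th_HF Pool.Agent.MU3F.f_ALG y_VAL th_HZ (th_H5 th_STP) th_MD th_MAX th_HK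
    (th_QS Pool.Agent.MU3F.f_ALG Pool.Agent.MU3F.f_F5S) y_CHI y_FLD y_H2 Pool.Agent.MU3F.f_F7 y_FT

/-- the main theorem -/
theorem main : St_RES := z_RES e_EFIN y_HFIN

end Pool.Agent.MU3Z
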