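import Pool.Agent.MU3.StZ
import Pool.Agent.MU3.StGl

/-!
# MU3, final assembly, module ZFIN: the main theorem
-/

set_option autoImplicit false

open NumberField Polynomial

namespace Pool.Agent.MU3Z

open _root_.MU3 Pool.Agent.MU3 Pool.Agent.MU3A Pool.Agent.MU3B Pool.Agent.MU3C Pool.Agent.RI
  Pool.Agent.RID Pool.Agent.MU3I

noncomputable section

namespace Zfin

/-- a quadratic element generates a field of degree prime to 3 -/
lemma quad {F E : Type*} [Field F] [Field E] [Algebra F E] (x : E) (b c : F)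
    (h : x ^ 2 + algebraMap F E b * x + algebraMap F E c = 0) :
    IsIntegral F x ∧ ¬ 3 ∣ Module.finrank F (IntermediateField.adjoin F {x}) := by
  have hpm : (X ^ 2 + C b * X + C c : F[X]).Monic := by monicity!
  have hpd : (X ^ 2 + C b * X + C c : F[X]).natDegree = 2 := by compute_degree!
  have hp : aeval x (X ^ 2 + C b * X + C c : F[X]) = 0 := by
    simp only [map_add, map_mul, map_pow, aeval_X, aeval_C]
    exact h
  have hint : IsIntegral F x := ⟨_, hpm, hp⟩
  have hle : (minpoly F x).natDegree ≤ 2 := by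
    rw [← hpd]
    exact natDegree_le_of_dvd (minpoly.dvd F x hp) hpm.ne_zero
  have hpos : 0 < (minpoly F x).natDegree := minpoly.natDegree_pos hint
  refine ⟨hint, ?_⟩
  rw [IntermediateField.adjoin.finrank hint]
  intro h3
  have := Nat.le_of_dvd hpos h3
  omega

lemma finrank_kk {A B : ℤ} (hc : Case A B) :
    FiniteDimensional ℚ (kk A B) ∧ ¬ 3 ∣ Module.finrank ℚ (kk A B) := by
  have h := quad (F := ℚ) (wC A B) (-B) (-A) (by
    have := wC_sq hc
    simp only [map_neg, eq_ratCast, Rat.cast_intCast]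
    linear_combination this)
  exact ⟨IntermediateField.adjoin.finiteDimensional h.1, h.2⟩

lemma tor_aux (W : WeierstrassCurve ℂ) (a b c s : ℂ) (hW : W = curve a b c) (x y : ℂ)
    (h : W.toAffine.Nonsingular x y)
    (hfin : IsOfFinAddOrder (WeierstrassCurve.Affine.Point.some x y h)) :
    x ∈ torsionField s a b c ∧ y ∈ torsionField s a b c := by
  subst hW
  exact ⟨IntermediateField.subset_adjoin _ _ (Or.inr ⟨x, y, h, hfin, Or.inl rfl⟩),
    IntermediateField.subset_adjoin _ _ (Or.inr ⟨x, y, h, hfin, Or.inr rfl⟩)⟩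

lemma kk_le (A B : ℤ) : kk A B ≤ TorC A B := by
  rw [IntermediateField.adjoin_simple_le_iff]
  exact IntermediateField.subset_adjoin _ _ (Or.inl rfl)

lemma curve_eq (A B : ℤ) : (EE A B).map (algebraMap (kk A B) ℂ) =
    curve (emb (a2 A B)) (emb (a4 A B)) (emb (a6 A B) / 4) := by
  have h2 : algebraMap (kk A B) ℂ (ek (a2 A B)) = emb (a2 A B) := rfl
  have h4 : algebraMap (kk A B) ℂ (ek (a4 A B)) = emb (a4 A B) := rfl
  have h6 : algebraMap (kk A B) ℂ (ek (a6 A B) / 4) = emb (a6 A B) / 4 := by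
    rw [map_div₀]
    have e : algebraMap (kk A B) ℂ (ek (a6 A B)) = emb (a6 A B) := rfl
    rw [e, map_ofNat]
  apply WeierstrassCurve.ext
  · show algebraMap (kk A B) ℂ 0 = 0
    exact map_zero _
  · exact h2
  · show algebraMap (kk A B) ℂ 0 = 0
    exact map_zero _
  · exact h4
  · exact h6

/-- coordinates of points of order 3 are in `TorC` -/
lemma tf3_le (hXI : Sa_XI) {A B : ℤ} (hc : Case A B) {L : PeriodPair} {Om : ℂ}
    (hL : IsCM A B L Om) : ∀ x ∈ TF L (3 : OO A B), x ∈ TorC A B := by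
  obtain ⟨ξ, hz, -, hs⟩ := hXI A B L Om hc hL
  have key : TF L (3 : OO A B) ≤ IntermediateField.extendScalars (kk_le A B) := by
    rw [TF, IntermediateField.adjoin_le_iff]
    rintro t ⟨z, h1, h2, ht⟩
    rw [SetLike.mem_coe, IntermediateField.mem_extendScalars]
    obtain ⟨h, e⟩ := hs z h2
    have h3 : (3 : ℕ) • ξ z = 0 := by
      rw [← map_nsmul, hz]
      have e3 : emb (3 : OO A B) = 3 := by
        have := emb_natCast hc 3
        simpa using this
      rw [e3] at h1
      rw [nsmul_eq_mul]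
      exact_mod_cast h1
    have hfin : IsOfFinAddOrder (ξ z) := isOfFinAddOrder_iff_nsmul_eq_zero.2 ⟨3, by norm_num, h3⟩
    rw [e] at hfin
    have h4 := tor_aux _ _ _ _ (wC A B) (curve_eq A B) _ _ h hfin
    rcases ht with rfl | rfl
    · exact h4.1
    · exact h4.2
  intro x hx
  exact key hx

/-- a field which contains `k` is totally complex -/
lemma totCx {A B : ℤ} (hc : Case A B) (F : IntermediateField ℚ ℂ) (h : kk A B ≤ F) :
    MU3.TotCx F := by
  intro φ
  refine ⟨⟨wC A B, h (wC_mem A B)⟩, ?_⟩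
  intro h1
  set x : F := ⟨wC A B, h (wC_mem A B)⟩ with hx
  have h2 : x * x = (A : F) + (B : F) * x := by
    apply Subtype.ext
    have e := wC_sq hc
    show wC A B * wC A B = _
    rw [e]
    push_cast
    rfl
  have h3 := congrArg φ h2
  rw [map_mul, map_add, map_mul, map_intCast, map_intCast] at h3
  obtain ⟨r, hr⟩ := Complex.conj_eq_iff_real.1 h1
  rw [hr] at h3
  have h4 : r * r = (A : ℝ) + (B : ℝ) * r := by exact_mod_cast h3
  rcases hc with ⟨rfl, rfl⟩ | ⟨rfl, rfl⟩
  · push_cast at h4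
    nlinarith [mul_self_nonneg r]
  · push_cast at h4
    nlinarith [mul_self_nonneg (2 * r - 1)]

/-- adjoining a cube root of unity -/
lemma omega_ext (F : IntermediateField ℚ ℂ) [FiniteDimensional ℚ F] (ω : ℂ)
    (hω : IsPrimitiveRoot ω 3) (hq : ω ^ 2 + ω + 1 = 0) (hF : ¬ 3 ∣ Module.finrank ℚ F)
    (T : IntermediateField ℚ ℂ) (hFT : F ≤ T) (hωT : ω ∈ T) :
    ∃ (F₁ : IntermediateField ℚ ℂ) (h : F ≤ F₁) (_ : FiniteDimensional ℚ F₁), F₁ ≤ T ∧ ω ∈ F₁ ∧
      IsGalois F (IntermediateField.extendScalars h) ∧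
      ¬ 3 ∣ Module.finrank F (IntermediateField.extendScalars h) ∧
      ¬ 3 ∣ Module.finrank ℚ F₁ := by
  obtain ⟨hint, h3⟩ := quad (F := F) ω 1 1 (by rw [map_one]; linear_combination hq)
  set E := IntermediateField.adjoin F {ω} with hE
  set F₁ := E.restrictScalars ℚ with hF₁
  have h : F ≤ F₁ := by
    intro x hx
    exact E.algebraMap_mem ⟨x, hx⟩
  have he : IntermediateField.extendScalars h = E := by
    ext x; rfl
  have hgal : IsGalois F E := by
    have hcyc : IsCyclotomicExtension {3} F E := by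
      change IsCyclotomicExtension {3} F (IntermediateField.adjoin F {ω}).toSubalgebra
      rw [IntermediateField.adjoin_simple_toSubalgebra_of_isAlgebraic hint.isAlgebraic]
      exact hω.adjoin_isCyclotomicExtension F
    exact IsCyclotomicExtension.isGalois {3} F E
  have hfd : FiniteDimensional F E := IntermediateField.adjoin.finiteDimensional hint
  have hfd1 : FiniteDimensional ℚ E := Module.Finite.trans F E
  refine ⟨F₁, h, hfd1, ?_, ?_, ?_, ?_, ?_⟩
  · have h5 : E ≤ IntermediateField.extendScalars hFT := by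
      rw [hE, IntermediateField.adjoin_simple_le_iff]
      exact hωT
    intro x hx
    exact h5 hx
  · exact IntermediateField.mem_adjoin_simple_self F ω
  · rw [he]
    exact hgal
  · rw [he]
    exact h3
  · have h4 := Module.finrank_mul_finrank ℚ F E
    have h5 : Module.finrank ℚ F₁ = Module.finrank ℚ E := rfl
    rw [h5, ← h4, Nat.prime_three.dvd_mul]
    exact not_or.2 ⟨hF, h3⟩

end Zfin

open Zfin in
theorem t_ZFIN (hZM : St_ZM) (hUP : S_UP) (hSYL : P_SYL) (hPEX : P_PEX) (hZTOR : St_ZTOR)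
    (hZGAL : St_ZGAL) (hZLAY : St_ZLAY) (hEX : Sa_EX) (hITOR : St_ITOR) (hXI : Sa_XI) :
    St_ZFIN := by
  intro A B hc K hfK hk hKT
  have hp : Fact (Nat.Prime 3) := ⟨Nat.prime_three⟩
  obtain ⟨L, Om, hL⟩ := hEX A B hc
  have hTA := hITOR A B L Om hc hL
  have hZT := hZTOR A B hc L Om hL hTA
  obtain ⟨hgal, hab⟩ := hZGAL A B hc L Om hL hTA K hk (fun x hx => hZT x (hKT hx))
  obtain ⟨Bn, hlay, hmono, huniq⟩ := hZLAY
  obtain ⟨F₀, h₁, h₂, hg1, hn1, hg2, a, ha⟩ := hSYL 3 (kk A B) K hk hgal hab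
  have hfF : FiniteDimensional ℚ F₀ :=
    FiniteDimensional.of_injective (IntermediateField.inclusion h₂).toLinearMap
      (IntermediateField.inclusion h₂).injective
  obtain ⟨hfk, hn0⟩ := finrank_kk hc
  have hnF : ¬ 3 ∣ Module.finrank ℚ F₀ := by
    have h4 := Module.finrank_mul_finrank ℚ (kk A B) (IntermediateField.extendScalars h₁)
    have h5 : Module.finrank ℚ (IntermediateField.extendScalars h₁) = Module.finrank ℚ F₀ := rfl
    rw [← h5, ← h4, Nat.prime_three.dvd_mul]
    exact not_or.2 ⟨hn0, hn1⟩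
  -- the cube root of unity
  have hω : IsPrimitiveRoot (zt 3) 3 := Complex.isPrimitiveRoot_exp 3 (by norm_num)
  have hq : (zt 3) ^ 2 + zt 3 + 1 = 0 := by
    have h1 := hω.pow_eq_one
    have h2 := hω.ne_one (by norm_num)
    have h3 : (zt 3 - 1) * ((zt 3) ^ 2 + zt 3 + 1) = 0 := by linear_combination h1
    rcases mul_eq_zero.1 h3 with h4 | h4
    · exact absurd (sub_eq_zero.1 h4) h2
    · exact h4
  have h30 : (3 : OO A B) ≠ 0 := by
    intro h0
    have e3 : emb (3 : OO A B) = 3 := by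
      have := emb_natCast hc 3
      simpa using this
    rw [h0, emb_zero hc] at e3
    norm_num at e3
  have hωT : zt 3 ∈ TorC A B := by
    apply tf3_le hXI hc hL
    exact (hTA.zeta 3 h30 3 (by norm_num) (zt 3) hω.pow_eq_one).1
  obtain ⟨F₁, hFF, hf1, hF1T, hω1, hgF, hnFF, hnF1⟩ :=
    omega_ext F₀ (zt 3) hω hq hnF (TorC A B) (h₂.trans hKT) hωT
  obtain ⟨C, hC⟩ := hZM A B hc F₁ (h₁.trans hFF) hF1T hnF1 ⟨zt 3, hω1, hq⟩ Bn hlay hmono
  have hC0 : ∀ n, padicValNat 3 (classNo (F₀ ⊔ Bn n)) ≤ C * (n + 1) ^ 2 := fun n =>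
    (hUP F₀ F₁ (Bn n) n hFF (hlay n) hgF hnFF).trans (hC n)
  obtain ⟨C', k', hC'⟩ := hPEX 3 a F₀ K Bn h₂ hg2 ha (totCx hc F₀ h₁) hlay hmono ⟨C, 2, hC0⟩
  refine ⟨C' + k', fun n Q hQ => ?_⟩
  rw [huniq n Q hQ]
  refine (hC' n).trans ?_
  exact Nat.mul_le_mul (Nat.le_add_right _ _)
    (Nat.pow_le_pow_right (Nat.succ_pos n) (Nat.le_add_left _ _))

end

end Pool.Agent.MU3Z
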