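import Pool.Agent.MU3.StZ
import Pool.Agent.MU3.I_IK3F

/-!
# MU3, final assembly: finite subfields of `TorC` containing `k` are abelian over `k`
-/

set_option autoImplicit false

namespace Pool.Agent.MU3Z

open _root_.MU3 Pool.Agent.MU3 Pool.Agent.MU3A Pool.Agent.MU3B Pool.Agent.MU3C Pool.Agent.RI
  Pool.Agent.RID Pool.Agent.MU3I

theorem t_ZGAL : St_ZGAL := by
  intro A B hc L Om _ T K _ hk hK
  obtain ⟨M, hM, hKM⟩ := IK3F.exists_level hc T K hK
  have hgal : IsGalois (kk A B) (TF L M) := T.gal M hM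
  have hcomm : ∀ σ τ : TF L M ≃ₐ[kk A B] TF L M, σ * τ = τ * σ := by
    intro σ τ
    obtain ⟨x, hx⟩ := T.act M hM σ
    obtain ⟨y, hy⟩ := T.act M hM τ
    have h1 := T.mul M hM σ τ x y hx hy
    have h2 := T.mul M hM τ σ y x hy hx
    rw [mul_comm y x] at h2
    exact T.inj M hM _ _ _ h1 h2
  have hab : IsAbelianGalois (kk A B) (TF L M) :=
    { toIsGalois := hgal
      is_comm := ⟨fun σ τ => hcomm σ τ⟩ }
  have hle : IntermediateField.extendScalars hk ≤ TF L M := fun x hx => hKM x hx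
  have hfin : IsAbelianGalois (kk A B) (IntermediateField.extendScalars hk) :=
    IsAbelianGalois.of_algHom (IntermediateField.inclusion hle)
  exact ⟨hfin.toIsGalois, fun σ τ => hfin.is_comm.comm σ τ⟩

end Pool.Agent.MU3Z
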