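import Pool.Agent.MU3.StZ
import Pool.Agent.MU3.StV3
import Pool.Agent.MU3.Ord3
import Pool.Agent.MU3.G_G0

/-!
# MU3, final assembly: the inputs `Inp` from the curve (ZINP)
-/

set_option autoImplicit false

open NumberField IsDedekindDomain

namespace Pool.Agent.MU3Z

open _root_.MU3 Pool.Agent.MU3 Pool.Agent.MU3A Pool.Agent.MU3B Pool.Agent.MU3C Pool.Agent.RI
  Pool.Agent.RID Pool.Agent.MU3I Pool.Agent.MU3V

noncomputable section

namespace ZINP

theorem lev_succ (A B : ℤ) (f n : ℕ) : lev A B f (n + 1) = 3 * lev A B f n := by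
  unfold lev
  push_cast
  ring

theorem cop_lev (A B : ℤ) (f n : ℕ) :
    IsCoprime (((1 + 6 * (f : ℤ) : ℤ)) : OO A B) (lev A B f n) := by
  have h1 : IsCoprime (1 + 6 * (f : ℤ)) ((f : ℤ) * 3 ^ (n + 1)) := by
    apply IsCoprime.mul_right
    · exact ⟨1, -6, by ring⟩
    · exact IsCoprime.pow_right ⟨1, -(2 * (f : ℤ)), by ring⟩
  have h2 := h1.map (Int.castRingHom (OO A B))
  have h3 : lev A B f n = (Int.castRingHom (OO A B)) ((f : ℤ) * 3 ^ (n + 1)) := by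
    unfold lev
    push_cast
    simp
  rw [h3]
  exact h2

end ZINP

open ZINP in
/-- (ZINP) -/
theorem t_ZINP (hMEMC : Sw_MEMC) (hSUC : Sw_SUC) (hI1 : Sw_I1) (hKOL : Sw_KOL)
    (hI3F : St_I3F) (hIGAM : St_IGAM) (hNEG : Sa_NEG) (hHAL : St_HAL) (hGALK : S_GALK)
    (hNGAL : N_GAL) : St_ZINP := by
  intro A B hC L Om hCM hT V hV f hf0 hf3 hf2 hmz K _ _ hK Bn _ hB hk
  -- elementary facts
  have hf2' : 0 < f := Nat.pos_of_ne_zero hf0
  have hinj : ∀ N : ℕ, N ≠ 0 → ((N : ℕ) : OO A B) ≠ 0 := by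
    intro N hN h0
    have h1 := congrArg QuadraticAlgebra.re h0
    rw [QuadraticAlgebra.re_natCast, QuadraticAlgebra.re_zero] at h1
    exact hN (by exact_mod_cast h1)
  have hlev0 : ∀ n, lev A B f n ≠ 0 := fun n => hinj _ (by positivity)
  have hnm : ∀ n, nm (lev A B f n) = ((f : ℤ) * 3 ^ (n + 1)) ^ 2 := by
    intro n
    have h1 : nm (lev A B f n) = (((f * 3 ^ (n + 1) : ℕ) : ℤ)) ^ 2 := by
      unfold lev nm
      rw [QuadraticAlgebra.re_natCast, QuadraticAlgebra.im_natCast]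
      ring
    rw [h1]
    push_cast
    ring
  have hunit : ∀ n, ¬ IsUnit (lev A B f n) := by
    intro n hu
    obtain ⟨y, hy⟩ := hu.exists_right_inv
    have h1 : nm (lev A B f n) * nm y = 1 := by
      rw [← Pool.Agent.MU3G.G0.nm_mul, hy]
      unfold nm
      rw [QuadraticAlgebra.re_one, QuadraticAlgebra.im_one]
      ring
    have h2 : (3 : ℤ) ∣ 1 := by
      rw [← h1, hnm n]
      exact Dvd.dvd.mul_right (dvd_pow (Dvd.intro_left ((f : ℤ) * 3 ^ n) (by ring)) two_ne_zero) _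
    norm_num at h2
  have hmzl : ∀ n, mz A B ∣ lev A B f n := by
    intro n
    have h1 : lev A B f n = (f : OO A B) * 3 ^ (n + 1) := by
      unfold lev; push_cast; ring
    rw [h1]
    exact Dvd.dvd.mul_right hmz _
  have hCpl : ∀ n, Cpl L (lev A B f n) := by
    intro n x hx
    have := hT.fin _ (hlev0 n)
    have := hT.gal _ (hlev0 n)
    exact (hNEG A B L Om hC hCM _ (hlev0 n) (hmzl n)).2.1 (TF L (lev A B f n)) le_rfl x hx
  -- the half system
  have hHs : ∃ H : Finset ℂ, IsHalf L (1 + 6 * (f : ℂ)) H := by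
    apply hHAL
    · have h1 : (1 + 6 * (f : ℂ)) = ((1 + 6 * f : ℕ) : ℂ) := by push_cast; ring
      rw [h1]
      exact_mod_cast (by positivity : (1 + 6 * f : ℕ) ≠ 0)
    · intro w hw
      have h1 : (1 + 6 * (f : ℂ)) * w = (1 + 6 * f : ℕ) • w := by
        rw [nsmul_eq_mul]; push_cast; ring
      rw [h1]
      exact L.lattice.smul_of_tower_mem (1 + 6 * f : ℕ) hw
    · intro z h1 h2
      have h3 : z = (1 + 6 * (f : ℂ)) * z - (3 * f : ℕ) • (2 * z) := by
        rw [nsmul_eq_mul]; push_cast; ring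
      rw [h3]
      exact L.lattice.sub_mem h1 (L.lattice.smul_of_tower_mem (3 * f : ℕ) h2)
  obtain ⟨Hs, hHs⟩ := hHs
  have hHs' : IsHalf L (((1 + 6 * (f : ℤ) : ℤ)) : ℂ) Hs := by
    have h1 : (((1 + 6 * (f : ℤ) : ℤ)) : ℂ) = 1 + 6 * (f : ℂ) := by push_cast; ring
    rw [h1]
    exact hHs
  have ha0 : (1 + 6 * (f : ℤ) : ℤ) ≠ 0 := by positivity
  obtain ⟨n0, hn0, hKOL'⟩ := hKOL A B L Om hC hCM
  have hgal : ∀ n, letI := algC (hk n); IsGalois (kk A B) ↥(K ⊔ Bn n) := fun n =>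
    (hGALK (kk A B) K Bn hB n (hk n)).1
  have hsub : ∀ n, Sub (K ⊔ Bn n) (TF L (lev A B f n)) := by
    intro n
    exact (hIGAM A B hC L Om hCM hT f hf0 hf3 hCpl K hB.hk hK n (Bn n) (hB.lay n) (hk n)
      (hgal n)).1
  -- the elements
  have hmem : ∀ n, cc L Om (lev A B f n) Hs (hk n) 1 ∈ K ⊔ Bn n := fun n =>
    ((hMEMC A B L Om hC hCM _ (hlev0 n) (hunit n) _ Hs ha0 (cop_lev A B f n) hHs' _ (hk n)
      (hsub n)).1 1).1
  have hne : ∀ n, cc L Om (lev A B f n) Hs (hk n) 1 ≠ 0 := fun n =>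
    ((hMEMC A B L Om hC hCM _ (hlev0 n) (hunit n) _ Hs ha0 (cop_lev A B f n) hHs' _ (hk n)
      (hsub n)).1 1).2
  -- the set of primes
  let S : Finset ℕ := {2, 3} ∪ f.primeFactors ∪ (1 + 6 * f).primeFactors ∪ n0.primeFactors
  have hS : S = {2, 3} ∪ f.primeFactors ∪ (1 + 6 * f).primeFactors ∪ n0.primeFactors := rfl
  have hS2 : 2 ∈ S := by simp [hS]
  have hSprime : ∀ p ∈ S, p.Prime := by
    intro p hp
    rw [hS] at hp
    simp only [Finset.mem_union, Finset.mem_insert, Finset.mem_singleton] at hp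
    rcases hp with ((((rfl | rfl) | h) | h) | h)
    · exact Nat.prime_two
    · exact Nat.prime_three
    · exact Nat.prime_of_mem_primeFactors h
    · exact Nat.prime_of_mem_primeFactors h
    · exact Nat.prime_of_mem_primeFactors h
  have hSa : ∀ p : ℕ, p.Prime → (p : ℤ) ∣ (1 + 6 * (f : ℤ) : ℤ) → p ∈ S := by
    intro p hp hd
    have h1 : p ∣ 1 + 6 * f := by exact_mod_cast hd
    rw [hS]
    simp only [Finset.mem_union]
    exact Or.inl (Or.inr (Nat.mem_primeFactors.2 ⟨hp, h1, by positivity⟩))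
  have hSm : ∀ n, ∀ p : ℕ, p.Prime → (p : ℤ) ∣ nm (lev A B f n) → p ∈ S := by
    intro n p hp hd
    rw [hnm n] at hd
    have h1 : p ∣ (f * 3 ^ (n + 1)) ^ 2 := by exact_mod_cast hd
    have h2 : p ∣ f * 3 ^ (n + 1) := hp.dvd_of_dvd_pow h1
    rw [hS]
    simp only [Finset.mem_union, Finset.mem_insert, Finset.mem_singleton]
    rcases (Nat.Prime.dvd_mul hp).1 h2 with h3 | h3
    · exact Or.inl (Or.inl (Or.inr (Nat.mem_primeFactors.2 ⟨hp, h3, hf0⟩)))
    · have h4 : p = 3 := (Nat.prime_dvd_prime_iff_eq hp Nat.prime_three).1 (hp.dvd_of_dvd_pow h3)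
      exact Or.inl (Or.inl (Or.inl (Or.inr h4)))
  have hS0 : ∀ p : ℕ, p.Prime → p ∣ n0 → p ∈ S := by
    intro p hp hd
    rw [hS]
    simp only [Finset.mem_union]
    exact Or.inr (Nat.mem_primeFactors.2 ⟨hp, hd, hn0⟩)
  refine ⟨S, fun n => cc L Om (lev A B f n) Hs (hk n) 1, 0, ?_⟩
  constructor
  case mem => exact hmem
  case ne => exact hne
  case prime => exact hSprime
  case su =>
    intro n _
    exact hSUC A B L Om hC hCM _ (hlev0 n) (hunit n) _ Hs ha0 (cop_lev A B f n) hHs' S hS2 hSa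
      (hSm n) _ (hk n) _ rfl
  case nrm =>
    intro n _
    let akD : Algebra (kk A B) ↥(K ⊔ Bn n) := algC (hk n)
    let akL : Algebra (kk A B) ↥(K ⊔ Bn (n + 1)) := algC (hk (n + 1))
    intro σ hσ
    have hle : K ⊔ Bn n ≤ K ⊔ Bn (n + 1) := sup_le_sup_left (hB.mono (Nat.le_succ n)) K
    have hord : orderOf σ = 3 := by
      have h1 := ord3 hNGAL (kk A B) K Bn hB (n + 1) n (Nat.le_succ n) (hk n) (hk (n + 1)) σ hσ
      rw [h1]
      simp
    have h3 : (3 : OO A B) ∣ lev A B f n := by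
      unfold lev
      refine ⟨((f * 3 ^ n : ℕ) : OO A B), ?_⟩
      push_cast
      ring
    have hsub' : Sub (K ⊔ Bn (n + 1)) (TF L (3 * lev A B f n)) := by
      rw [← lev_succ]
      exact hsub (n + 1)
    obtain ⟨C, hCk, hC0, hCe⟩ := hI1 A B L Om hC hCM _ (hlev0 n) (hmzl n) h3 _ Hs ha0
      (cop_lev A B f n) hHs' _ _ (hk n) (hk (n + 1)) hle (hsub n) hsub' σ hσ hord
    rw [← lev_succ] at hCe
    refine ⟨C, hCk, hC0, ?_⟩
    have hm := (hMEMC A B L Om hC hCM _ (hlev0 (n + 1)) (hunit (n + 1)) _ Hs ha0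
      (cop_lev A B f (n + 1)) hHs' _ (hk (n + 1)) (hsub (n + 1))).2
    have e1 := hm σ (hmem (n + 1))
    have e2 := hm (σ * σ) (hmem (n + 1))
    have e3 : (σ * σ) ⟨cc L Om (lev A B f (n + 1)) Hs (hk (n + 1)) 1, hmem (n + 1)⟩ =
        σ (σ ⟨cc L Om (lev A B f (n + 1)) Hs (hk (n + 1)) 1, hmem (n + 1)⟩) := rfl
    rw [e3] at e2
    rw [e1, e2]
    exact hCe
  case kol =>
    intro n _
    exact hKOL' _ (hlev0 n) (hmzl n) _ Hs ha0 (cop_lev A B f n) hHs' S hS0 hSa (hSm n) _ (hk n)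
      (hsub n) _ rfl
  case i3 =>
    intro N
    obtain ⟨n₀, h₀⟩ := hI3F A B hC L Om hCM hT V hV f hf0 hf3 hf2 hmz hCpl Hs
      hHs K hK Bn hB hk N
    refine ⟨n₀, fun n hn => ?_⟩
    obtain ⟨hc, γ₀, hγ₀, h1⟩ := h₀ n hn
    exact i3_all hGALK _ (kk A B) K Bn hB n (hk n) _ hc (hne n) N γ₀ hγ₀ h1

end

end Pool.Agent.MU3Z
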