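import Pool.Agent.MU3.StZ
import Pool.Agent.RI.LAY

/-!
# MU3, final assembly: the main theorem for degree prime to 3 with a cube root of unity (ZM)
-/

set_option autoImplicit false

namespace Pool.Agent.MU3Z

open _root_.MU3 Pool.Agent.MU3 Pool.Agent.MU3A Pool.Agent.MU3B Pool.Agent.MU3C Pool.Agent.RI
  Pool.Agent.RID Pool.Agent.MU3I

noncomputable section

namespace ZM

theorem mz_dvd {A B : ℤ} (h : Case A B) {f : ℕ} (hf : 88 ∣ f) : mz A B ∣ (f : OO A B) := by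
  have h1 : mz A B ∣ ((88 : ℕ) : OO A B) := by
    rcases h with ⟨rfl, rfl⟩ | ⟨rfl, rfl⟩
    · refine ⟨⟨0, -11⟩, ?_⟩
      have h2 : mz (-2) 0 = ⟨0, 4⟩ := if_pos rfl
      rw [h2]
      ext
      · rw [QuadraticAlgebra.re_natCast, QuadraticAlgebra.re_mul]
        norm_num
      · rw [QuadraticAlgebra.im_natCast, QuadraticAlgebra.im_mul]
        norm_num
    · refine ⟨22, ?_⟩
      have h2 : mz (-3) 1 = 4 := if_neg one_ne_zero
      rw [h2]
      norm_num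
  obtain ⟨g, rfl⟩ := hf
  rw [Nat.cast_mul]
  exact Dvd.dvd.mul_right h1 _

end ZM

open ZM in
/-- (ZM) -/
theorem t_ZM (hZINP : St_ZINP) (hMAINK : S_MAINK) (hRES : St_IRES) (hVEX : St_IVEX)
    (hEX : Sa_EX) (hTOR : St_ITOR) (hK3F : St_IK3F) (hZGAL : St_ZGAL) (hZTOR : St_ZTOR) :
    St_ZM := by
  intro A B h K _ hkK hKT hdeg hω Bn hlay hmono
  obtain ⟨L, Om, hCM⟩ := hEX A B h
  have hT : TorA A B L Om := hTOR A B L Om h hCM
  obtain ⟨V, hV, h3⟩ := hVEX A B h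
  obtain ⟨hchar, halg⟩ := hRES V h3
  have hmem : ∀ x ∈ K, ∃ m : OO A B, m ≠ 0 ∧ x ∈ TF L m :=
    fun x hx => hZTOR A B h L Om hCM hT x (hKT hx)
  obtain ⟨f, hf0, hf3, hfd, hf2, hfK⟩ := hK3F A B h L Om hCM hT 88 (by norm_num) (by norm_num)
    K hkK hdeg hmem
  have hmz : mz A B ∣ (f : OO A B) := mz_dvd h hfd
  have hfk : FiniteDimensional ℚ (kk A B) :=
    Module.Finite.of_injective (IntermediateField.inclusion hkK).toLinearMap
      (IntermediateField.inclusion hkK).injective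
  have hfB : ∀ n, FiniteDimensional ℚ ↥(K ⊔ Bn n) := fun n => by
    obtain ⟨h1, -, -⟩ := LAY_thm 3 n (Bn n) (hlay n)
    exact IntermediateField.finiteDimensional_sup K (Bn n)
  obtain ⟨hg, hab⟩ := hZGAL A B h L Om hCM hT K hkK hmem
  have hBas : Bas (kk A B) K Bn := ⟨hkK, hg, hab, hdeg, hlay, hmono⟩
  have hk : ∀ n, kk A B ≤ K ⊔ Bn n := fun n => hkK.trans le_sup_left
  obtain ⟨S, c, n₁, hI⟩ := hZINP A B h L Om hCM hT V hV f hf0 hf3 hf2 hmz K hfK Bn hBas hk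
  exact hMAINK (IsLocalRing.ResidueField V) (kk A B) K Bn hBas hω hk S c n₁ hI

end

end Pool.Agent.MU3Z
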