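import Pool.Agent.MU3.StZ

/-!
# MU3, module ZRES: translation of the main theorem to explicit equations
-/

set_option autoImplicit false

namespace Pool.Agent.MU3Z

open _root_.MU3 Pool.Agent.MU3 Pool.Agent.MU3A Pool.Agent.MU3B Pool.Agent.MU3C Pool.Agent.RI
  Pool.Agent.RID Pool.Agent.MU3I

noncomputable section

namespace ZRESaux

lemma wC8 : wC (-2) 0 = rt 2 := by
  have h1 : (absD (-2) 0 : ℤ) = 8 := by norm_num [absD]
  have h2 : Real.sqrt ((8 : ℤ) : ℝ) = 2 * Real.sqrt ((2 : ℕ) : ℝ) := by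
    have h3 : (((8 : ℤ) : ℝ)) = 2 ^ 2 * ((2 : ℕ) : ℝ) := by norm_num
    rw [h3, Real.sqrt_mul (by norm_num), Real.sqrt_sq (by norm_num)]
  unfold wC rt
  rw [h1, h2]
  push_cast
  ring

lemma wC11 : 2 * wC (-3) 1 - 1 = rt 11 := by
  have h1 : (absD (-3) 1 : ℤ) = 11 := by norm_num [absD]
  have h2 : (((11 : ℤ) : ℝ)) = ((11 : ℕ) : ℝ) := by norm_num
  unfold wC rt
  rw [h1, h2]
  push_cast
  ring

/-- adjoining two numbers which generate the same field -/
lemma adj_congr {s s' : ℂ} (T : Set ℂ) (h : s ∈ IntermediateField.adjoin ℚ ({s'} : Set ℂ))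
    (h' : s' ∈ IntermediateField.adjoin ℚ ({s} : Set ℂ)) :
    IntermediateField.adjoin ℚ ({s} ∪ T) = IntermediateField.adjoin ℚ ({s'} ∪ T) := by
  apply le_antisymm
  · rw [IntermediateField.adjoin_le_iff]
    rintro x (hx | hx)
    · rw [Set.mem_singleton_iff.1 hx]
      exact IntermediateField.adjoin.mono ℚ _ _ Set.subset_union_left h
    · exact IntermediateField.subset_adjoin ℚ _ (Or.inr hx)
  · rw [IntermediateField.adjoin_le_iff]
    rintro x (hx | hx)
    · rw [Set.mem_singleton_iff.1 hx]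
      exact IntermediateField.adjoin.mono ℚ _ _ Set.subset_union_left h'
    · exact IntermediateField.subset_adjoin ℚ _ (Or.inr hx)

lemma mem_two (s : ℂ) : s ∈ IntermediateField.adjoin ℚ ({s} : Set ℂ) :=
  IntermediateField.subset_adjoin ℚ _ (Set.mem_singleton s)

end ZRESaux

open ZRESaux

theorem t_ZRES : St_ZRES := by
  intro h
  refine ⟨?_, ?_⟩
  · intro K _ hrt hK
    have hC : Case (-2) 0 := Or.inl ⟨rfl, rfl⟩
    have e2 : emb (a2 (-2) 0) = 4 := by
      have : a2 (-2) 0 = ((4 : ℕ) : OO (-2) 0) := by simp [a2]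
      rw [this, emb_natCast hC]
      norm_num
    have e4 : emb (a4 (-2) 0) = 2 := by
      have : a4 (-2) 0 = ((2 : ℕ) : OO (-2) 0) := by simp [a4]
      rw [this, emb_natCast hC]
      norm_num
    have e6 : emb (a6 (-2) 0) / 4 = 0 := by
      have : a6 (-2) 0 = 0 := by simp [a6]
      rw [this, emb_zero hC, zero_div]
    have hT : TorC (-2) 0 = torsionField (rt 2) 4 2 0 := by
      unfold TorC
      rw [wC8, e2, e4, e6]
    have hk : kk (-2) 0 ≤ K := by
      rw [IntermediateField.adjoin_le_iff]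
      intro x hx
      rw [Set.mem_singleton_iff.1 hx, wC8]
      exact hrt
    exact h (-2) 0 hC K hk (by rw [hT]; exact hK)
  · intro K _ hrt hK
    have hC : Case (-3) 1 := Or.inr ⟨rfl, rfl⟩
    have e2 : emb (a2 (-3) 1) = rt 11 := by
      rw [← wC11]
      simp [a2, emb]
      ring
    have e4 : emb (a4 (-3) 1) = -3 := by
      have : a4 (-3) 1 = ((-3 : ℤ) : OO (-3) 1) := by simp [a4]
      rw [this, emb_intCast hC]
      norm_num
    have e6 : emb (a6 (-3) 1) / 4 = -(rt 11) / 4 := by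
      rw [← wC11]
      simp [a6, emb]
      ring
    have hw : wC (-3) 1 = (rt 11 + 1) / 2 := by
      rw [← wC11]
      ring
    have m1 : rt 11 ∈ IntermediateField.adjoin ℚ ({wC (-3) 1} : Set ℂ) := by
      rw [← wC11]
      exact sub_mem (mul_mem (natCast_mem _ 2) (mem_two _)) (one_mem _)
    have m2 : wC (-3) 1 ∈ IntermediateField.adjoin ℚ ({rt 11} : Set ℂ) := by
      rw [hw]
      exact div_mem (add_mem (mem_two _) (one_mem _)) (natCast_mem _ 2)
    have hT : TorC (-3) 1 = torsionField (rt 11) (rt 11) (-3) (-(rt 11) / 4) := by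
      unfold TorC
      rw [e2, e4, e6]
      unfold torsionField
      exact adj_congr _ m2 m1
    have hk : kk (-3) 1 ≤ K := by
      rw [IntermediateField.adjoin_le_iff]
      intro x hx
      rw [Set.mem_singleton_iff.1 hx, hw]
      exact div_mem (add_mem hrt (one_mem _)) (natCast_mem _ 2)
    exact h (-3) 1 hC K hk (by rw [hT]; exact hK)

end

end Pool.Agent.MU3Z
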