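import Pool.Agent.MU3.StZ
import Pool.Agent.MU3.G_G0

/-!
# MU3, final assembly: module ZTOR (helper50)
-/

set_option autoImplicit false

namespace Pool.Agent.MU3Z

open _root_.MU3 Pool.Agent.MU3 Pool.Agent.MU3A Pool.Agent.MU3B Pool.Agent.MU3C Pool.Agent.RI
  Pool.Agent.RID Pool.Agent.MU3I

noncomputable section

namespace ZTOR50

open WeierstrassCurve.Affine

theorem move {W₁ W₂ : WeierstrassCurve.Affine ℂ} (hW : W₁ = W₂) {x y : ℂ}
    (h : W₁.Nonsingular x y) (hf : IsOfFinAddOrder (Point.some x y h)) :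
    ∃ h' : W₂.Nonsingular x y, IsOfFinAddOrder (Point.some x y h') := by
  subst hW
  exact ⟨h, hf⟩

theorem some_inj {W : WeierstrassCurve.Affine ℂ} {x y x' y' : ℂ} {h : W.Nonsingular x y}
    {h' : W.Nonsingular x' y'} (he : Point.some x y h = Point.some x' y' h') :
    x = x' ∧ y = y' := by
  injection he with h1 h2
  exact ⟨h1, h2⟩

theorem curve_eq (A B : ℤ) :
    (curve (emb (a2 A B)) (emb (a4 A B)) (emb (a6 A B) / 4)).toAffine =
      WeierstrassCurve.Affine.baseChange (EE A B) ℂ := by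
  set W : WeierstrassCurve.Affine ℂ := WeierstrassCurve.Affine.baseChange (EE A B) ℂ with hW
  have w1 : W.a₁ = 0 := map_zero (algebraMap (kk A B) ℂ)
  have w3 : W.a₃ = 0 := map_zero (algebraMap (kk A B) ℂ)
  have w2 : W.a₂ = emb (a2 A B) := rfl
  have w4 : W.a₄ = emb (a4 A B) := rfl
  have w6 : W.a₆ = emb (a6 A B) / 4 := by
    have e : W.a₆ = algebraMap (kk A B) ℂ (ek (a6 A B) / 4) := rfl
    rw [e, map_div₀, map_ofNat]
    rfl
  refine WeierstrassCurve.ext ?_ ?_ ?_ ?_ ?_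
  · exact w1.symm
  · exact w2.symm
  · exact w3.symm
  · exact w4.symm
  · exact w6.symm

theorem emb_nat {A B : ℤ} (n : ℕ) : emb (n : OO A B) = (n : ℂ) := by
  unfold emb
  have h1 : ((n : OO A B)).re = (n : ℤ) := rfl
  have h2 : ((n : OO A B)).im = 0 := rfl
  rw [h1, h2]
  simp

end ZTOR50

open ZTOR50 WeierstrassCurve.Affine in
theorem t_ZTOR (hX : Sa_XI) : St_ZTOR := by
  intro A B hc L Om hL hT x hx
  obtain ⟨ξ, hξ0, hξs, hξ1⟩ := hX A B L Om hc hL
  have hG := Pool.Agent.MU3G.t_G0 A B hc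
  have : IsDomain (OO A B) := hG.1
  have hone : ∀ c : kk A B, (c : ℂ) ∈ TF L (1 : OO A B) := fun c =>
    (TF L (1 : OO A B)).algebraMap_mem c
  have key : ∀ {u v : ℂ} {m m' : OO A B}, m ≠ 0 → m' ≠ 0 → u ∈ TF L m → v ∈ TF L m' →
      u ∈ TF L (m * m') ∧ v ∈ TF L (m * m') := by
    intro u v m m' hm hm' hu hv
    exact ⟨hT.tower m (m * m') (mul_ne_zero hm hm') (dvd_mul_right _ _) hu,
      hT.tower m' (m * m') (mul_ne_zero hm hm') (dvd_mul_left _ _) hv⟩
  unfold TorC torsionField at hx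
  induction hx using IntermediateField.adjoin_induction with
  | mem t ht =>
    rcases ht with ht | ⟨a, b, h, hf, hab⟩
    · rw [Set.mem_singleton_iff] at ht
      refine ⟨1, one_ne_zero, ?_⟩
      rw [ht]
      exact hone ⟨wC A B, wC_mem A B⟩
    · obtain ⟨h', hf'⟩ := move (curve_eq A B) h hf
      obtain ⟨n, hn, hn0⟩ := isOfFinAddOrder_iff_nsmul_eq_zero.1 hf'
      obtain ⟨z, hz⟩ := hξs (Point.some a b h')
      have hzL : z ∉ L.lattice := by
        intro hzL
        have h1 := (hξ0 z).2 hzL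
        rw [hz] at h1
        exact Point.some_ne_zero _ h1
      obtain ⟨h'', hz'⟩ := hξ1 z hzL
      rw [hz] at hz'
      obtain ⟨ha, hb⟩ := some_inj hz'
      have hnz : emb (n : OO A B) * z ∈ L.lattice := by
        rw [emb_nat, ← nsmul_eq_mul, ← hξ0, map_nsmul, hz, hn0]
      refine ⟨(n : OO A B), ?_, ?_⟩
      · intro h0
        have h1 := (hG.2.2.2.2.2.2.1 (n : OO A B)).2 h0
        rw [emb_nat] at h1
        have : n = 0 := by exact_mod_cast h1
        omega
      · unfold TF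
        refine IntermediateField.subset_adjoin _ _ ⟨z, hnz, hzL, ?_⟩
        rcases hab with hab | hab
        · left; rw [hab, ha]
        · right; rw [hab, hb]
  | algebraMap q =>
    refine ⟨1, one_ne_zero, ?_⟩
    have : ((algebraMap ℚ (kk A B) q : kk A B) : ℂ) = algebraMap ℚ ℂ q := rfl
    rw [← this]
    exact hone _
  | add u v _ _ hu hv =>
    obtain ⟨m, hm, hmu⟩ := hu
    obtain ⟨m', hm', hmv⟩ := hv
    obtain ⟨h1, h2⟩ := key hm hm' hmu hmv
    exact ⟨m * m', mul_ne_zero hm hm', add_mem h1 h2⟩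
  | inv u _ hu =>
    obtain ⟨m, hm, hmu⟩ := hu
    exact ⟨m, hm, inv_mem hmu⟩
  | mul u v _ _ hu hv =>
    obtain ⟨m, hm, hmu⟩ := hu
    obtain ⟨m', hm', hmv⟩ := hv
    obtain ⟨h1, h2⟩ := key hm hm' hmu hmv
    exact ⟨m * m', mul_ne_zero hm hm', mul_mem h1 h2⟩

end

end Pool.Agent.MU3Z
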