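import Pool.Agent.MU3.AVAll
import Pool.Agent.MU3.KAll
import Pool.Agent.MU3.PAll
import Pool.Agent.MU3.NAll
import Pool.Agent.MU3.G_GTH
import Pool.Agent.MU3.G_GFINP
import Pool.Agent.MU3.G_F6
import Pool.Agent.MU3.G_F6M
import Pool.Agent.MU3.G_F6E
import Pool.Agent.MU3.G_F6C
import Pool.Agent.MU3.G_HP
import Pool.Agent.MU3.FAll
import Pool.Agent.MU3.P_KM1
import Pool.Agent.MU3.P_KM1L
import Pool.Agent.MU3.P_KM2
import Pool.Agent.MU3.I_IGAM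
import Pool.Agent.MU3.Z_ZINP
import Pool.Agent.MU3.I_I3F
import Pool.Agent.MU3.I_ICC
import Pool.Agent.MU3.I_ICHI
import Pool.Agent.MU3.I_IE0
import Pool.Agent.MU3.I_IEPS
import Pool.Agent.MU3.I_IFIN
import Pool.Agent.MU3.I_IFOU
import Pool.Agent.MU3.I_IHF
import Pool.Agent.MU3.I_IK3F
import Pool.Agent.MU3.I_ILAY
import Pool.Agent.MU3.I_IMOD
import Pool.Agent.MU3.I_IRES
import Pool.Agent.MU3.I_ITG
import Pool.Agent.MU3.I_ITH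
import Pool.Agent.MU3.I_ITOR
import Pool.Agent.MU3.I_IVEX
import Pool.Agent.MU3.Z_ZFIN
import Pool.Agent.MU3.Z_ZGAL
import Pool.Agent.MU3.Z_ZLAY
import Pool.Agent.MU3.Z_ZM
import Pool.Agent.MU3.Z_ZRES
import Pool.Agent.MU3.Z_ZTOR

/-!
# MU3: the main theorem (helper36)
-/

set_option autoImplicit false

namespace Pool.Agent.MU3Z

open _root_.MU3 Pool.Agent.MU3 Pool.Agent.MU3A Pool.Agent.MU3B Pool.Agent.MU3C Pool.Agent.RI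
  Pool.Agent.RID Pool.Agent.MU3I Pool.Agent.MU3G Pool.Agent.MU3X

theorem z_ITOR : St_ITOR := t_ITOR a_GAL a_ACT a_NRM a_CYC

theorem z_ZTOR : St_ZTOR := t_ZTOR a_XI

theorem z_IGAM : St_IGAM := t_IGAM t_ILAY

theorem z_I3F (hEF : St_EFIN) (hHF : St_HFIN) : St_I3F :=
  t_I3F hEF hHF t_ICHI t_IHF (t_IFOU t_IHF) t_ITG t_IFIN t_IE0 t_IEPS (t_ITH b_PER)
    z_IGAM (t_IMOD t_ILAY) (t_ICC w_MEMC)

theorem z_F6 : St_F6 :=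
  t_F6 (t_F6C b_PER Pool.Agent.MU3F.f_ALG Pool.Agent.MU3F.f_F4
    (t_F6M (t_F6E a_NRM a_GAL a_ACT) a_CYC a_ACT) a_GAL a_ACT a_NRM)

theorem z_GFIN (hQ : Pool.Agent.MU3Q.St_WQ) (hHP : St_HP) (hFT : St_FT) : St_GFIN :=
  t_GFINP a_GAL a_ACT a_INT t_G0 (t_GTH hQ) hHP z_F6 hFT

theorem z_KM2 : S_KM2 := t_KM2 t_KM1 t_KM1L

theorem z_ZINP (hI : St_I3F) : St_ZINP :=
  t_ZINP w_MEMC w_SUC w_I1 w_KOL hI z_IGAM a_NEG b_HAL t_GALK MU3.n_GAL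

theorem z_ZM (hI : St_ZINP) : St_ZM :=
  t_ZM hI (kMAINK MU3.n_NUM) t_IRES t_IVEX a_EX z_ITOR t_IK3F t_ZGAL z_ZTOR

theorem z_ZFIN (hI : St_ZINP) : St_ZFIN :=
  t_ZFIN (z_ZM hI) t_UP MU3.u_SYL MU3.u_PEX z_ZTOR t_ZGAL t_ZLAY a_EX z_ITOR a_XI

/-- the main theorem from the four remaining inputs -/
theorem z_RES (hEF : St_EFIN) (hHF : St_HFIN) : St_RES :=
  t_ZRES (z_ZFIN (z_ZINP (z_I3F hEF hHF)))

end Pool.Agent.MU3Z
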